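import Pool.Agent.MP_5168f5_an.R4.K31Ex

/-! Refinements of a law: pull back and condition. -/

namespace Pool.Agent.MP_5168f5_an.R4.K31

open H19 H17S H17F Filter

variable {Ω Ω' Ω'' α β γ : Type} {P : FP Ω} {Q : FP Ω'} {R : FP Ω''} {C C' : ℝ} {ρ : Ω' → Ω}

/-- The image of `Q` under `ρ` is at most `C` times `P`. -/
def Dn (C : ℝ) (Q : FP Ω') (ρ : Ω' → Ω) (P : FP Ω) : Prop :=
  ∀ F : Ω → ℝ, (∀ ω, 0 ≤ F ω) → Q.E (fun v => F (ρ v)) ≤ C * P.E F

theorem Dn.one_le (h : Dn C Q ρ P) : 1 ≤ C := by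
  simpa only [FP.E_const, mul_one] using h (fun _ => 1) fun _ => zero_le_one

theorem Dn.mono (h : Dn C Q ρ P) (e : C ≤ C') : Dn C' Q ρ P := fun F hF =>
  (h F hF).trans (mul_le_mul_of_nonneg_right e (P.E_nonneg fun ω _ => hF ω))

theorem Dn.trans {σ : Ω'' → Ω'} (h' : Dn C' R σ Q) (h : Dn C Q ρ P) :
    Dn (C' * C) R (fun v => ρ (σ v)) P := fun F hF => by
  rw [mul_assoc]
  exact (h' _ fun v => hF (ρ v)).trans
    (mul_le_mul_of_nonneg_left (h F hF) (zero_le_one.trans h'.one_le))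

theorem dn_law (h : Law Q ρ P id) : Dn 1 Q ρ P := fun F _ => by
  rw [one_mul]; exact (h F).le

theorem dn_rfl (P : FP Ω) : Dn 1 P id P := dn_law (Law.rfl _)

theorem dn_cE (E : Ω → Prop) {κ : ℝ} (hκ : 0 < κ) (h : κ ≤ pb P E) : Dn κ⁻¹ (cE P E) id P := by
  classical
  intro F hF
  have h1 := E_cE P E F
  have h2 : (P.E fun ω => if E ω then F ω else 0) ≤ P.E F :=
    P.E_mono fun ω _ => by split_ifs; exacts [le_rfl, hF ω]
  have h3 : 0 ≤ (cE P E).E F := FP.E_nonneg _ fun ω _ => hF ω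
  rw [inv_mul_eq_div, le_div_iff₀ hκ]
  have h4 := mul_le_mul_of_nonneg_right h h3
  simp only [id]
  nlinarith

theorem Dn.pb_le (h : Dn C Q ρ P) (E : Ω → Prop) : pb Q (fun v => E (ρ v)) ≤ C * pb P E := by
  classical
  exact h (fun ω => if E ω then 1 else 0) fun ω => by split_ifs <;> norm_num

theorem Dn.mem (h : Dn C Q ρ P) {v : Ω'} (hv : v ∈ Q.S) : ρ v ∈ P.S := by
  by_contra k
  have h1 := h.pb_le fun ω => ω ∉ P.S
  rw [pb_zero (P := P) fun ω a b => b a, mul_zero] at h1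
  exact absurd (pb_pos Q ⟨v, hv, k⟩) (not_lt.2 h1)

theorem Dn.fn (h : Dn C Q ρ P) {F : Ω → α} {G : Ω → β} (k : Fn P F G) :
    Fn Q (fun v => F (ρ v)) fun v => G (ρ v) := fun _ a _ b => k _ (h.mem a) _ (h.mem b)

/-- A refinement is the conditioning of an extension on an event of probability `1 / C`. -/
theorem Dn.split (h : Dn C Q ρ P) : ∃ T : FP (Ω × Bool), Law T Prod.fst P id ∧
    pb T (fun x => x.2 = true) = C⁻¹ ∧ Law (cE T fun x => x.2 = true) Prod.fst Q ρ := by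
  classical
  have c0 : 0 < C := one_pos.trans_le h.one_le
  set q : Ω → ℝ := fun ω => pb Q fun v => ρ v = ω with hq
  have q0 : ∀ ω, 0 ≤ q ω := fun ω => pb_nonneg _ _
  have q1 : ∀ ω ∈ P.S, C⁻¹ * q ω ≤ P.p ω := by
    intro ω hω
    have h1 := h.pb_le fun a => a = ω
    have h2 : pb P (fun a => a = ω) = P.p ω := by
      simp only [pb, FP.E]
      rw [Finset.sum_eq_single ω (fun b _ e => by simp [e]) fun k => absurd hω k]
      simp
    rw [h2] at h1
    rw [inv_mul_eq_div, div_le_iff₀ c0]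
    linarith
  have q2 : ∀ F : Ω → ℝ, ∑ ω ∈ P.S, q ω * F ω = Q.E fun v => F (ρ v) := by
    intro F
    simp only [hq, pb, FP.E, Finset.sum_mul]
    rw [Finset.sum_comm]
    refine Finset.sum_congr rfl fun v hv => ?_
    rw [Finset.sum_eq_single (ρ v) (fun b _ e => by simp [e.symm]) fun k => absurd (h.mem hv) k]
    simp
  set m : Ω × Bool → ℝ := fun x => if x.2 then C⁻¹ * q x.1 else P.p x.1 - C⁻¹ * q x.1 with hm
  have m0 : ∀ x ∈ P.S ×ˢ (Finset.univ : Finset Bool), 0 ≤ m x := by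
    rintro ⟨ω, b⟩ hx
    have := q1 ω (Finset.mem_product.1 hx).1
    cases b
    · simpa [hm] using this
    · simpa [hm] using mul_nonneg (inv_nonneg.2 c0.le) (q0 ω)
  have m1 : ∀ G : Ω × Bool → ℝ,
      ∑ x ∈ (P.S ×ˢ (Finset.univ : Finset Bool)).filter (fun x => 0 < m x), m x * G x =
        ∑ ω ∈ P.S, (C⁻¹ * q ω * G (ω, true) + (P.p ω - C⁻¹ * q ω) * G (ω, false)) := by
    intro G
    rw [Finset.sum_filter_of_ne fun x hx e => (m0 x hx).lt_of_ne' (left_ne_zero_of_mul e),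
      Finset.sum_product]
    simp [hm]
  let T : FP (Ω × Bool) :=
    { S := (P.S ×ˢ (Finset.univ : Finset Bool)).filter fun x => 0 < m x
      p := m
      pos := fun x hx => (Finset.mem_filter.1 hx).2
      sum_one := by
        have := m1 fun _ => 1
        simp only [mul_one, add_sub_cancel, P.sum_one] at this
        exact this }
  have t1 : ∀ F : Ω → ℝ, T.E (fun x => if x.2 = true then F x.1 else 0) =
      C⁻¹ * Q.E fun v => F (ρ v) := by
    intro F
    refine (m1 _).trans ?_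
    rw [← q2, Finset.mul_sum]
    exact Finset.sum_congr rfl fun ω _ => by simp [mul_assoc]
  have t2 : pb T (fun x => x.2 = true) = C⁻¹ := by
    have := t1 fun _ => 1
    rw [FP.E_const, mul_one] at this
    rw [← this]
    exact T.E_congr fun x _ => by congr
  refine ⟨T, fun F => (m1 _).trans (Finset.sum_congr rfl fun ω _ => by simp only [id]; ring),
    t2, fun F => ?_⟩
  have h1 := E_cE T (fun x => x.2 = true) fun x => F x.1
  rw [t2] at h1
  refine mul_left_cancel₀ (inv_ne_zero c0.ne') (h1.trans ?_)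
  rw [← t1]
  exact T.E_congr fun x _ => by congr

theorem det_law {T : FP Ω'} {f : Ω' → Ω} (h : Law T f P id) {F : Ω → α} {G : Ω → β} {B : ℝ}
    (k : Det P F G B) : Det T (fun v => F (f v)) (fun v => G (f v)) B := fun a ha =>
  (k _ (h.mem ha)).imp fun _ hT => ⟨hT.1, fun b hb e => hT.2 _ (h.mem hb) e⟩

/-- Entropy grows at most by the factor `C`. -/
theorem Dn.ch_le (h : Dn C Q ρ P) (F : Ω → α) (G : Ω → β) :
    ch Q (fun v => F (ρ v)) (fun v => G (ρ v)) ≤ C * ch P F G := by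
  obtain ⟨T, h1, h2, h3⟩ := h.split
  have c0 : 0 < C := one_pos.trans_le h.one_le
  have h4 := rowKE.ge T (fun x => x.2 = true) (fun x => F x.1) fun x => G x.1
  have h5 := mul_nonneg (sub_nonneg.2 (pb_le_one T fun x => x.2 = true))
    (ch_nonneg (P := cE T fun x => ¬x.2 = true) (fun x => F x.1) fun x => G x.1)
  rw [h1.ch_id, h3.ch_eq F G, h2] at h4
  rw [h2] at h5
  rw [← inv_mul_le_iff₀ c0]
  linarith

/-- The deficiency of the entropy grows at most by the factor `C`. -/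
theorem Dn.def_le (h : Dn C Q ρ P) {F : Ω → α} {G : Ω → β} {B : ℝ} (k : Det P F G B) :
    Real.log B - ch Q (fun v => F (ρ v)) (fun v => G (ρ v)) ≤
      C * (Real.log B - ch P F G + lg) := by
  obtain ⟨T, h1, h2, h3⟩ := h.split
  have c0 : 0 < C := one_pos.trans_le h.one_le
  have h4 := rowKE.le T (fun x => x.2 = true) (fun x => F x.1) fun x => G x.1
  have h5 := mul_le_mul_of_nonneg_left (ch_det (det_cE (det_law h1 k) fun x => ¬x.2 = true))
    (sub_nonneg.2 (pb_le_one T fun x => x.2 = true))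
  rw [h1.ch_id, h3.ch_eq F G, h2] at h4
  rw [h2] at h5
  rw [← inv_mul_le_iff₀ c0]
  linarith

theorem mi_le_event (T : FP Ω) (E : Ω → Prop) (F : Ω → α) (G : Ω → β) (K : Ω → γ) :
    pb T E * mi (cE T E) F G K ≤ mi T F G K + lg := by
  have h1 := rowKE.le T E F K
  have h2 := rowKE.ge T E F fun ω => (G ω, K ω)
  have h3 := rowKE.inf T E (fun ω => (F ω, E ω)) G K (fun _ _ _ _ e => congrArg (·.1.2) e)
  have h4 : mi (cE T E) F G K ≤ mi (cE T E) (fun ω => (F ω, E ω)) G K :=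
    mi_mono' (Fn.left (Fn.fst _ _) _)
  have h5 := mul_le_mul_of_nonneg_left h4 (pb_nonneg T E)
  have h6 : mi T (fun ω => (F ω, E ω)) G K ≤ mi T F G K + lg := by
    have h7 := mi_near (P := T) G (fun ω => (F ω, E ω)) F K
    have h8 := rowKE.le T E E fun ω => (F ω, K ω)
    have z1 : ch (cE T E) E (fun ω => (F ω, K ω)) * pb T E = 0 := by
      by_cases e : ∃ ω ∈ T.S, E ω
      · rw [ch_zero fun a ha b hb _ => propext (iff_of_true ((mem_cE e a).1 ha).2
          ((mem_cE e b).1 hb).2), zero_mul]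
      · rw [pb_zero fun ω a b => e ⟨ω, a, b⟩, mul_zero]
    have z2 : ch (cE T fun ω => ¬E ω) E (fun ω => (F ω, K ω)) * (1 - pb T E) = 0 := by
      by_cases e : ∃ ω ∈ T.S, ¬E ω
      · rw [ch_zero fun a ha b hb _ => propext (iff_of_false ((mem_cE e a).1 ha).2
          ((mem_cE e b).1 hb).2), zero_mul]
      · rw [← pb_not, pb_zero fun ω a b => e ⟨ω, a, b⟩, mul_zero]
    have h9 : ch T (fun ω => (F ω, E ω)) (fun ω => (F ω, K ω)) ≤ ch T E fun ω => (F ω, K ω) :=
      ch_mono (Fn.pair (Fn.right (Fn.fst _ _) _) (Fn.fst _ _))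
    rw [mi_symm G, mi_symm G] at h7
    linarith
  linarith

/-- Mutual information grows at most by the factor `C`. -/
theorem Dn.mi_le (h : Dn C Q ρ P) (F : Ω → α) (G : Ω → β) (K : Ω → γ) :
    mi Q (fun v => F (ρ v)) (fun v => G (ρ v)) (fun v => K (ρ v)) ≤ C * (mi P F G K + lg) := by
  obtain ⟨T, h1, h2, h3⟩ := h.split
  have c0 : 0 < C := one_pos.trans_le h.one_le
  have h4 := mi_le_event T (fun x => x.2 = true) (fun x => F x.1) (fun x => G x.1) fun x => K x.1
  have h5 : mi (cE T fun x => x.2 = true) (fun x => F x.1) (fun x => G x.1) (fun x => K x.1) =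
      mi Q (fun v => F (ρ v)) (fun v => G (ρ v)) fun v => K (ρ v) := by
    unfold mi
    rw [h3.ch_eq F K, h3.ch_eq F fun ω => (G ω, K ω)]
  rw [h1.mi_id, h5, h2] at h4
  rwa [← inv_mul_le_iff₀ c0]

section Seq

variable {W W' A B D : ℕ → Type} {P : ∀ n, FP (W n)} {Q : ∀ n, FP (W' n)} {ρ : ∀ n, W' n → W n}
  {M : ℕ → ℕ}

/-- A sequence of refinements with a bounded constant. -/
def DnS (Q : ∀ n, FP (W' n)) (ρ : ∀ n, W' n → W n) (P : ∀ n, FP (W n)) : Prop :=
  ∃ C : ℝ, 1 ≤ C ∧ ∀ᶠ n in UF, Dn C (Q n) (ρ n) (P n)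

theorem dnS_law (h : ∀ᶠ n in UF, Law (Q n) (ρ n) (P n) id) : DnS Q ρ P :=
  ⟨1, le_rfl, h.mono fun _ => dn_law⟩

theorem dnS_cE {E : ∀ n, W n → Prop} (h : Pos P E) :
    DnS (fun n => cE (P n) (E n)) (fun _ => id) P := by
  obtain ⟨κ, a, b⟩ := h
  have e := b.mono fun n u => dn_cE (E n) a u
  exact ⟨κ⁻¹, e.exists.elim fun _ u => u.one_le, e⟩

theorem DnS.trans {W'' : ℕ → Type} {R : ∀ n, FP (W'' n)} {σ : ∀ n, W'' n → W' n}
    (h' : DnS R σ Q) (h : DnS Q ρ P) : DnS R (fun n v => ρ n (σ n v)) P := by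
  obtain ⟨C, a, b⟩ := h
  obtain ⟨C', a', b'⟩ := h'
  exact ⟨C' * C, one_le_mul_of_one_le_of_one_le a' a, (b'.and b).mono fun _ u => u.1.trans u.2⟩

theorem DnS.whp (h : DnS Q ρ P) {E : ∀ n, W n → Prop} (k : Whp P E) :
    Whp Q fun n v => E n (ρ n v) := fun ε hε => by
  obtain ⟨C, a, b⟩ := h
  filter_upwards [b, k (ε / C) (by positivity)] with n u v
  refine (u.pb_le fun ω => ¬E n ω).trans ?_
  rwa [← le_div_iff₀' (by positivity)]

theorem DnS.pos (h : DnS Q ρ P) {E : ∀ n, W n → Prop} (k : Pos Q fun n v => E n (ρ n v)) :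
    Pos P E := by
  by_contra e
  have h1 : Whp P fun n ω => ¬E n ω := by
    by_contra e'
    exact e ((not_whp e').mono (Eventually.of_forall fun _ _ _ => not_not.1))
  exact k.not_whp (h.whp h1)

theorem DnS.sm_ch (h : DnS Q ρ P) {F : ∀ n, W n → A n} {G : ∀ n, W n → B n}
    (k : Sm M fun n => ch (P n) (F n) (G n)) :
    Sm M fun n => ch (Q n) (fun v => F n (ρ n v)) fun v => G n (ρ n v) := by
  obtain ⟨C, a, b⟩ := h
  exact (k.smul (zero_le_one.trans a)).mono (b.mono fun n u => u.ch_le _ _)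

theorem DnS.sm_mi (h : DnS Q ρ P) (hM : Big M) {F : ∀ n, W n → A n} {G : ∀ n, W n → B n}
    {K : ∀ n, W n → D n} (k : Sm M fun n => mi (P n) (F n) (G n) (K n)) :
    Sm M fun n => mi (Q n) (fun v => F n (ρ n v)) (fun v => G n (ρ n v)) fun v => K n (ρ n v) := by
  obtain ⟨C, a, b⟩ := h
  exact ((k.add (hM.sm lg)).smul (zero_le_one.trans a)).mono (b.mono fun n u => u.mi_le _ _ _)

/-- Full entropy stays full. -/
theorem DnS.full (h : DnS Q ρ P) (hM : Big M) {F : ∀ n, W n → A n} {G : ∀ n, W n → B n}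
    {N : ℕ → ℝ} (d : ∀ᶠ n in UF, Det (P n) (F n) (G n) (N n))
    (k : Le M (fun n => Real.log (N n)) fun n => ch (P n) (F n) (G n)) :
    Le M (fun n => Real.log (N n)) fun n =>
      ch (Q n) (fun v => F n (ρ n v)) fun v => G n (ρ n v) := by
  obtain ⟨C, a, b⟩ := h
  refine ((k.add (hM.sm lg)).smul (zero_le_one.trans a)).of_sub ?_
  filter_upwards [b, d] with n u v
  linarith [u.def_le v]

end Seq

end Pool.Agent.MP_5168f5_an.R4.K31
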