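import Pool.Agent.MP_5168f5_an.R4.SpecK

/-! Kakeya sets in four dimensions: uniformity, countable conditions, limits. -/

namespace Pool.Agent.MP_5168f5_an.R4

open H19 H17S H17F Filter Topology

universe u v

/-! ### Uniformity -/

/-- A statement for all sequences holds eventually for all values. -/
theorem unif {A : ℕ → Sort u} [∀ n, Nonempty (A n)] {h p : ∀ n, A n → Prop}
    (H : ∀ a : ∀ n, A n, (∀ᶠ n in UF, h n (a n)) → ∀ᶠ n in UF, p n (a n)) :
    ∀ᶠ n in UF, ∀ a, h n a → p n a := by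
  classical
  by_contra k
  have k1 := not_ev.1 k
  have e : ∀ n, ∃ a : A n, (¬∀ a, h n a → p n a) → h n a ∧ ¬p n a := fun n => by
    by_cases c : ∀ a, h n a → p n a
    · exact ⟨Classical.arbitrary _, fun d => absurd c d⟩
    · have c' := c
      push Not at c'
      obtain ⟨a, ha⟩ := c'
      exact ⟨a, fun _ => ha⟩
  choose a ha using e
  obtain ⟨n, x, y⟩ := ((H a (k1.mono fun n c => (ha n c).1)).and k1).exists
  exact (ha n y).2 x

/-- The same when the hypothesis holds for all `n`. -/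
theorem unif' {A : ℕ → Sort u} {h p : ∀ n, A n → Prop} (h0 : ∀ n, ∃ a, h n a)
    (H : ∀ a : ∀ n, A n, (∀ n, h n (a n)) → ∀ᶠ n in UF, p n (a n)) :
    ∀ᶠ n in UF, ∀ a, h n a → p n a := by
  have : ∀ n, Nonempty {a : A n // h n a} := fun n => (h0 n).elim fun a b => ⟨⟨a, b⟩⟩
  have := unif (A := fun n => {a : A n // h n a}) (h := fun _ _ => True) (p := fun n a => p n a.1)
    fun a _ => H (fun n => (a n).1) fun n => (a n).2
  exact this.mono fun n c a b => c ⟨a, b⟩ trivial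

/-- Hypotheses with errors `o(1)` can be replaced by one small error. -/
theorem unif2 {A : ℕ → Sort u} [∀ n, Nonempty (A n)] {h : ∀ n, A n → ℝ → Prop}
    {p : ∀ n, A n → Prop} (hm : ∀ n a δ δ', δ ≤ δ' → h n a δ → h n a δ')
    (H : ∀ a : ∀ n, A n, (∀ δ : ℝ, 0 < δ → ∀ᶠ n in UF, h n (a n) δ) → ∀ᶠ n in UF, p n (a n)) :
    ∃ δ : ℝ, 0 < δ ∧ ∀ᶠ n in UF, ∀ a, h n a δ → p n a := by
  by_contra k
  push Not at k
  obtain ⟨m, hm1, hm2⟩ := ks.spill (fun k n => ¬∀ a, h n a (1 / (k + 1 : ℝ)) → p n a) fun j =>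
    not_ev.1 fun c => (k (1 / (j + 1 : ℝ)) (by positivity)).and_eventually c |>.exists.elim fun n d => by
      obtain ⟨a, x, y⟩ := d.1
      exact y (d.2 a x)
  have := unif (h := fun n a => h n a (1 / (m n + 1 : ℝ))) (p := p) fun a c => H a fun δ hδ => by
    filter_upwards [c, K31.small hδ hm1] with n x y using hm _ _ _ _ y x
  obtain ⟨n, x, y⟩ := (this.and hm2).exists
  exact y _ le_rfl x

/-! ### Countably many eventual conditions -/

section CF

variable {S : ℕ → Type u} {K K' : (∀ n, S n) → Prop}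

theorem CF.congr (h : CF K) (e : ∀ x, K' x ↔ K x) : CF K' :=
  h.imp fun _ hp x => (e x).trans (hp x)

theorem cf_ev (p : ∀ n, S n → Prop) : CF fun x : ∀ n, S n => ∀ᶠ n in UF, p n (x n) :=
  ⟨fun _ => p, fun _ => ⟨fun h _ => h, fun h => h 0⟩⟩

theorem cf_all {J : Sort v} [Countable J] {K : J → (∀ n, S n) → Prop} (h : ∀ j, CF (K j)) :
    CF fun x => ∀ j, K j x := by
  classical
  choose p hp using h
  obtain ⟨f, hf⟩ := Countable.exists_injective_nat J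
  refine ⟨fun k n x => ∀ j, f j = k.unpair.1 → p j k.unpair.2 n x, fun x => ⟨fun c k => ?_,
    fun c j => (hp j x).2 fun i => ?_⟩⟩
  · by_cases e : ∃ j, f j = k.unpair.1
    · obtain ⟨j, hj⟩ := e
      exact ((hp j x).1 (c j) k.unpair.2).mono fun n a j' b => hf (b.trans hj.symm) ▸ a
    · exact Eventually.of_forall fun n j b => absurd ⟨j, b⟩ e
  · exact (c (Nat.pair (f j) i)).mono fun n a => by simpa using a j (by simp)

theorem CF.and (h : CF K) (h' : CF K') : CF fun x => K x ∧ K' x :=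
  (cf_all (J := Bool) (K := fun b => bif b then K else K') fun b => by
    cases b <;> assumption).congr fun x => by simp [Bool.forall_bool, and_comm]

theorem cf_const (q : Prop) : CF fun _ : ∀ n, S n => q :=
  (cf_ev fun _ _ => q).congr fun _ => eventually_const.symm

theorem CF.comp {S' : ℕ → Type v} (h : CF K) (f : ∀ n, S' n → S n) :
    CF fun x : ∀ n, S' n => K fun n => f n (x n) :=
  h.elim fun p hp => ⟨fun j n x => p j n (f n x), fun _ => hp _⟩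

/-- Conditions for all positive reals that get weaker as the parameter grows. -/
theorem cf_eps {p : ℝ → ∀ n, S n → Prop} (hm : ∀ ε ε' n x, 0 < ε → ε ≤ ε' → p ε n x → p ε' n x) :
    CF fun x : ∀ n, S n => ∀ ε : ℝ, 0 < ε → ∀ᶠ n in UF, p ε n (x n) :=
  ⟨fun j => p (1 / (j + 1 : ℝ)), fun _ => ⟨fun h j => h _ (by positivity), fun h ε hε => by
    obtain ⟨m, hm1⟩ := exists_nat_one_div_lt hε
    exact (h m).mono fun n a => hm _ _ _ _ (by positivity) hm1.le a⟩⟩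

theorem cf_le (m : ∀ n, S n → ℕ) (f g : ∀ n, S n → ℝ) : CF fun x : ∀ n, S n =>
    Le (fun n => m n (x n)) (fun n => f n (x n)) fun n => g n (x n) :=
  cf_eps (p := fun ε n x => f n x ≤ g n x + ε * m n x) fun _ _ n x _ a b =>
    b.trans (add_le_add le_rfl (mul_le_mul_of_nonneg_right a (Nat.cast_nonneg _)))

theorem cf_sm (m : ∀ n, S n → ℕ) (f : ∀ n, S n → ℝ) :
    CF fun x : ∀ n, S n => Sm (fun n => m n (x n)) fun n => f n (x n) := cf_le m f fun _ _ => 0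

theorem cf_big (m : ∀ n, S n → ℕ) : CF fun x : ∀ n, S n => Big fun n => m n (x n) :=
  ⟨fun j n x => j ≤ m n x, fun _ => tendsto_atTop⟩

theorem cf_whp {W : ∀ n, S n → Type} (Q : ∀ n x, FP (W n x)) (E : ∀ n x, W n x → Prop) :
    CF fun x : ∀ n, S n => Whp (fun n => Q n (x n)) fun n => E n (x n) :=
  cf_eps (p := fun ε n x => pb (Q n x) (fun ω => ¬E n x ω) ≤ ε) fun _ _ _ _ _ a b => b.trans a

theorem sub_iff {M : ℕ → ℕ} {p : ℕ → ℝ → Prop} : (∃ L, Sub M L ∧ ∀ᶠ n in UF, p n (L n)) ↔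
    ∀ ε : ℝ, 0 < ε → ∀ᶠ n in UF, ∃ L, 1 ≤ L ∧ L ≤ Real.exp (ε * M n) ∧ p n L := by
  classical
  refine ⟨fun ⟨L, a, b⟩ ε hε => ?_, fun h => ?_⟩
  · filter_upwards [a.2 ε hε, b] with n c d using ⟨L n, a.1 n, c, d⟩
  · obtain ⟨k, hk, e⟩ := ks.spill (fun k n => ∃ L, 1 ≤ L ∧
      L ≤ Real.exp (1 / (k + 1 : ℝ) * M n) ∧ p n L) fun k => h _ (by positivity)
    have e1 : ∀ n, ∃ L : ℝ, 1 ≤ L ∧ ((∃ L, 1 ≤ L ∧
        L ≤ Real.exp (1 / (k n + 1 : ℝ) * M n) ∧ p n L) →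
        L ≤ Real.exp (1 / (k n + 1 : ℝ) * M n) ∧ p n L) := fun n => by
      by_cases c : ∃ L, 1 ≤ L ∧ L ≤ Real.exp (1 / (k n + 1 : ℝ) * M n) ∧ p n L
      · obtain ⟨L, a, b⟩ := c
        exact ⟨L, a, fun _ => b⟩
      · exact ⟨1, le_rfl, fun d => absurd d c⟩
    choose L h1 h2 using e1
    refine ⟨L, ⟨h1, fun ε hε => ?_⟩, e.mono fun n a => (h2 n (a _ le_rfl)).2⟩
    filter_upwards [e, K31.small hε hk] with n a b
    exact (h2 n (a _ le_rfl)).1.trans (Real.exp_le_exp.2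
      (mul_le_mul_of_nonneg_right b (Nat.cast_nonneg _)))

theorem cf_sub (m : ∀ n, S n → ℕ) (p : ∀ n, S n → ℝ → Prop) : CF fun x : ∀ n, S n =>
    ∃ L, Sub (fun n => m n (x n)) L ∧ ∀ᶠ n in UF, p n (x n) (L n) :=
  (cf_eps (p := fun ε n x => ∃ L, 1 ≤ L ∧ L ≤ Real.exp (ε * m n x) ∧ p n x L)
    fun _ _ _ _ _ a ⟨L, b, c, d⟩ => ⟨L, b, c.trans (Real.exp_le_exp.2
      (mul_le_mul_of_nonneg_right a (Nat.cast_nonneg _))), d⟩).congr fun _ => sub_iff

/-- An inequality for all auxiliary sequences. -/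
theorem le_unif {A : ℕ → Sort v} {h : ∀ n, A n → Prop} (h0 : ∀ n, ∃ a, h n a) {M : ℕ → ℕ}
    {f g : ∀ n, A n → ℝ} : (∀ a : ∀ n, A n, (∀ n, h n (a n)) →
      Le M (fun n => f n (a n)) fun n => g n (a n)) ↔
    ∀ ε : ℝ, 0 < ε → ∀ᶠ n in UF, ∀ a, h n a → f n a ≤ g n a + ε * M n :=
  ⟨fun H ε hε => unif' h0 fun a ha => H a ha ε hε,
    fun H a ha ε hε => (H ε hε).mono fun n c => c _ (ha n)⟩

theorem cf_leU {A : ∀ n, S n → Sort v} (h : ∀ n x, A n x → Prop) (h0 : ∀ n x, ∃ a, h n x a)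
    (m : ∀ n, S n → ℕ) (f g : ∀ n x, A n x → ℝ) : CF fun x : ∀ n, S n =>
    ∀ a : ∀ n, A n (x n), (∀ n, h n (x n) (a n)) →
      Le (fun n => m n (x n)) (fun n => f n (x n) (a n)) fun n => g n (x n) (a n) :=
  (cf_eps (p := fun ε n x => ∀ a, h n x a → f n x a ≤ g n x a + ε * m n x)
    fun _ _ n x _ a b c d => (b c d).trans (add_le_add le_rfl
      (mul_le_mul_of_nonneg_right a (Nat.cast_nonneg _)))).congr fun x =>
    le_unif fun n => h0 n (x n)

/-- Diagonal limit: the `k`-th sequence satisfies the conditions of index at most `k`. -/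
theorem cf_diag {K : ℕ → (∀ n, S n) → Prop} (h : ∀ i, CF (K i)) (y : ℕ → ∀ n, S n)
    (hy : ∀ k, ∀ i ≤ k, K i (y k)) : ∃ k : ℕ → ℕ, Big k ∧ ∀ i, K i fun n => y (k n) n := by
  choose p hp using h
  obtain ⟨k, a, b⟩ := K31.diag p y fun k i hi => (hp i _).1 (hy k i hi)
  exact ⟨k, a, fun i => (hp i _).2 (b i)⟩

/-- A bounded functional attains its supremum. -/
theorem CF.sup (h : CF K) (f : ∀ n, S n → ℝ) (C : ℝ) (h0 : ∃ x, K x)
    (hb : ∀ x, K x → ∀ᶠ n in UF, |f n (x n)| ≤ C) :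
    ∃ x, K x ∧ ∀ y, K y → K31.Le1 (fun n => f n (y n)) fun n => f n (x n) := by
  obtain ⟨p, hp⟩ := h
  obtain ⟨s, ⟨x, a, b⟩, c⟩ := K31.sup p f C (h0.imp fun x => (hp x).1)
    fun x hx => hb x ((hp x).2 hx)
  exact ⟨x, (hp x).2 a, fun y hy => (c y ((hp y).1 hy)).trans b⟩

end CF

/-! ### Classes -/

section Cl

variable {Ω Ω' : ℕ → Type} {K K' : Mb Ω → Prop}

theorem Cl0.and (h : Cl0 K) (h' : Cl0 K') : Cl0 fun X => K X ∧ K' X :=
  ⟨fun X X' a b => ⟨h.law X X' a.1 b, h'.law X X' a.2 b⟩,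
    fun X E a b => ⟨h.cond X E a.1 b, h'.cond X E a.2 b⟩⟩

theorem Cl.and (h : Cl K) (h' : Cl K') : Cl fun X => K X ∧ K' X :=
  ⟨h.toCl0.and h'.toCl0, h.cf.and h'.cf⟩

theorem cl0_all {J : Sort v} {K : J → Mb Ω → Prop} (h : ∀ j, Cl0 (K j)) :
    Cl0 fun X => ∀ j, K j X :=
  ⟨fun X X' a b j => (h j).law X X' (a j) b, fun X E a b j => (h j).cond X E (a j) b⟩

theorem cl_all {J : Sort v} [Countable J] {K : J → Mb Ω → Prop} (h : ∀ j, Cl (K j)) :
    Cl fun X => ∀ j, K j X := ⟨cl0_all fun j => (h j).toCl0, cf_all fun j => (h j).cf⟩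

theorem Cl0.congr (h : Cl0 K) (e : ∀ X, K' X ↔ K X) : Cl0 K' := by
  rwa [show K' = K from funext fun X => propext (e X)]

theorem Cl.congr (h : Cl K) (e : ∀ X, K' X ↔ K X) : Cl K' := by
  rwa [show K' = K from funext fun X => propext (e X)]

theorem cl_const (q : Prop) : Cl fun _ : Mb Ω => q :=
  ⟨⟨fun _ _ a _ => a, fun _ _ a _ => a⟩, cf_const q⟩

theorem Cl0.map (h : Cl0 K) (π : ∀ n, Ω' n → Ω n) : Cl0 fun X : Mb Ω' => K (X.map π) :=
  ⟨fun X X' a b => h.law (X.map π) (X'.map π) a (b.mono fun n c => c.comp (π n)),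
    fun X E a b => h.cond (X.map π) E a b⟩

theorem Cl.map (h : Cl K) (π : ∀ n, Ω' n → Ω n) : Cl fun X : Mb Ω' => K (X.map π) :=
  ⟨h.toCl0.map π, h.cf.comp fun n (x : Ext (Ω' n)) => ⟨x.W, x.Q, fun v => π n (x.ρ v)⟩⟩

/-- A class contains the extensions of its members. -/
theorem Cl0.ext (h : Cl0 K) {X : Mb Ω} (hX : K X) {W : ℕ → Type} {Q : ∀ n, FP (W n)}
    {f : ∀ n, W n → (X n).W} (e : ∀ᶠ n in UF, Law (Q n) (f n) (X n).Q id) : K (X.ext Q f) :=
  h.law X _ hX (e.mono fun n c => c.comp (X n).ρ)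

theorem Cl0.fst (h : Cl0 K) {X : Mb Ω} (hX : K X) {β : ℕ → Type} (φ : ∀ n, (X n).W → β n) :
    K (X.ext (fun n => glue (X n).Q (X n).Q (φ n) (φ n)) fun _ => Prod.fst) :=
  h.ext hX (Eventually.of_forall fun _ => kg.fst _ _ _ _)

theorem Cl0.snd (h : Cl0 K) {X : Mb Ω} (hX : K X) {β : ℕ → Type} (φ : ∀ n, (X n).W → β n) :
    K (X.ext (fun n => glue (X n).Q (X n).Q (φ n) (φ n)) fun _ => Prod.snd) :=
  h.ext hX (Eventually.of_forall fun _ => kg.snd _ _ _ _ (Law.rfl _))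

/-- A class contains the refinements of bounded density of its members. -/
theorem Cl0.dn (h : Cl0 K) {X : Mb Ω} (hX : K X) {W : ℕ → Type} {Q : ∀ n, FP (W n)}
    {f : ∀ n, W n → (X n).W} (e : K31.DnS Q f X.P) : K (X.ext Q f) := by
  classical
  obtain ⟨C, hC, e⟩ := e
  have e1 : ∀ n, ∃ T : FP ((X n).W × Bool), K31.Dn C (Q n) (f n) (X n).Q →
      Law T Prod.fst (X n).Q id ∧ pb T (fun x => x.2 = true) = C⁻¹ ∧
        Law (cE T fun x => x.2 = true) Prod.fst (Q n) (f n) := fun n => by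
    by_cases c : K31.Dn C (Q n) (f n) (X n).Q
    · exact c.split.imp fun T a _ => a
    · exact ⟨(K31.dn_rfl (X n).Q).split.choose, fun d => absurd d c⟩
  choose T hT using e1
  have h1 := h.ext hX (Q := T) (f := fun _ => Prod.fst) (e.mono fun n c => (hT n c).1)
  have h2 := h.cond _ (fun n (x : (X n).W × Bool) => x.2 = true) h1
    ⟨C⁻¹, by positivity, e.mono fun n c => (hT n c).2.1.ge⟩
  exact h.law _ _ h2 (e.mono fun n c => ((hT n c).2.2.comp (X n).ρ).symm)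

theorem cl0_dnK (P : ∀ n, FP (Ω n)) : Cl0 (DnK P) := by
  refine ⟨fun X X' ⟨C, a, b⟩ c => ⟨C, a, ?_⟩, fun X E a b => (K31.dnS_cE b).trans a⟩
  filter_upwards [b, c] with n u w F hF
  exact (w F).trans_le (u F hF)

theorem dnK_base (P : ∀ n, FP (Ω n)) : DnK P (Mb.base P) :=
  K31.dnS_law (Eventually.of_forall fun _ => Law.rfl _)

/-- The members of `DnK X.P` belong to every class that contains `X`. -/
theorem Cl0.dnK (h : Cl0 K) {X : Mb Ω} (hX : K X) {X' : Mb X.W} (e : DnK X.P X') :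
    K (X'.map fun n => (X n).ρ) := h.dn hX e

theorem Cls.cl {N : ℕ} {g : Gs N Ω} {M : ℕ → ℕ} {i : Fin N} {η : ℝ} (h : Cls K g M i η) :
    Cl K := ⟨h.cl0, h.cf⟩

end Cl

/-! ### Limits and profiles -/

section Lim

variable {M : ℕ → ℕ} {f g : ℕ → ℝ} {φ : ℕ → ℕ → ℝ}

theorem tendsto_ul {C : ℝ} (h : ∀ᶠ n in UF, |f n| ≤ C) : Tendsto f UF (𝓝 (ul f)) := by
  obtain ⟨c, -, hc⟩ := (isCompact_Icc (a := -C) (b := C)).ultrafilter_le_nhds'
    ((hyperfilter ℕ).map f) (by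
      rw [Ultrafilter.mem_map]; exact h.mono fun n a => abs_le.1 a)
  have h1 : Tendsto f UF (𝓝 c) := hc
  rw [ul, h1.limsup_eq]; exact h1

theorem Bd1.tendsto (h : Bd1 M f) (hM : Big M) :
    Tendsto (fun n => f n / M n) UF (𝓝 (rt M f)) := by
  obtain ⟨C, h⟩ := h
  refine tendsto_ul (C := C) ?_
  filter_upwards [h, hM.ev 1] with n a b
  rw [abs_div, Nat.abs_cast, div_le_iff₀ (by linarith)]; exact a

theorem Eqv.rfl : Eqv M f f := ⟨Le.rfl, Le.rfl⟩

theorem Eqv.symm (h : Eqv M f g) : Eqv M g f := ⟨h.2, h.1⟩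

theorem Eqv.trans {k : ℕ → ℝ} (h : Eqv M f g) (h' : Eqv M g k) : Eqv M f k :=
  ⟨h.1.trans h'.1, h'.2.trans h.2⟩

theorem eqv_of_tendsto (hM : Big M) {c : ℝ} (h : Tendsto (fun n => f n / M n) UF (𝓝 c)) :
    Eqv M f fun n => c * M n := by
  constructor <;> intro ε hε <;>
    filter_upwards [Metric.tendsto_nhds.1 h ε hε, hM.ev 1] with n a b <;>
    rw [Real.dist_eq, abs_lt, lt_sub_iff_add_lt, sub_lt_iff_lt_add, lt_div_iff₀ (by linarith),
      div_lt_iff₀ (by linarith)] at a <;> linarith [a.1, a.2]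

theorem Bd1.eqv (h : Bd1 M f) (hM : Big M) : Eqv M f fun n => rt M f * M n :=
  eqv_of_tendsto hM (h.tendsto hM)

theorem Bd1.le_iff (h : Bd1 M f) (h' : Bd1 M g) (hM : Big M) : Le M f g ↔ rt M f ≤ rt M g :=
  ⟨fun a => Le.num hM (((h.eqv hM).2.trans a).trans (h'.eqv hM).1), fun a =>
    ((h.eqv hM).1.trans (Le.of_le fun _ =>
      mul_le_mul_of_nonneg_right a (Nat.cast_nonneg _))).trans (h'.eqv hM).2⟩

theorem Eqv.rt_eq (hM : Big M) {c : ℝ} (h : Eqv M f fun n => c * M n) : rt M f = c := by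
  have b : Bd1 M f := ⟨|c| + 1, by
    filter_upwards [h.1 1 one_pos, h.2 1 one_pos] with n x y
    have h0 : (0 : ℝ) ≤ M n := Nat.cast_nonneg _
    have h1 := mul_le_mul_of_nonneg_right (le_abs_self c) h0
    have h2 := mul_le_mul_of_nonneg_right (neg_abs_le c) h0
    rw [abs_le]; constructor <;> linarith⟩
  exact le_antisymm (Le.num hM ((b.eqv hM).2.trans h.1)) (Le.num hM (h.2.trans (b.eqv hM).1))

theorem lev_mono (M : ℕ → ℕ) {c c' : ℝ} (h : c ≤ c') (n : ℕ) : lev M c n ≤ lev M c' n :=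
  Nat.floor_mono (mul_le_mul_of_nonneg_right h (Nat.cast_nonneg _))

theorem lev_le (M : ℕ → ℕ) {c : ℝ} (h : c ≤ 1) (n : ℕ) : lev M c n ≤ M n :=
  (lev_mono M h n).trans (by simp [lev])

theorem lev_one (M : ℕ → ℕ) : lev M 1 = M := funext fun n => by simp [lev]

theorem lev_zero (M : ℕ → ℕ) : lev M 0 = fun _ => 0 := funext fun n => by simp [lev]

theorem lev_le' (M : ℕ → ℕ) {c : ℝ} (h : 0 ≤ c) (n : ℕ) : (lev M c n : ℝ) ≤ c * M n :=
  Nat.floor_le (by positivity)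

theorem lt_lev (M : ℕ → ℕ) (c : ℝ) (n : ℕ) : c * M n < lev M c n + 1 := Nat.lt_floor_add_one _

theorem lev_eqv (hM : Big M) {c : ℝ} (h : 0 ≤ c) : Eqv M (fun n => lev M c n) fun n => c * M n :=
  ⟨Le.of_le (lev_le' M h), (hM.sm 1).of_sub (Eventually.of_forall fun n => by
    linarith [lt_lev M c n])⟩

/-- Two levels at different real heights are a fixed fraction of `M` apart. -/
theorem lev_gap (hM : Big M) {c c' ε : ℝ} (h0 : 0 ≤ c) (h : c + ε < c') :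
    ∀ᶠ n in UF, lev M c n + ε * M n ≤ lev M c' n := by
  filter_upwards [hM.ev (1 / (c' - c - ε))] with n a
  rw [div_le_iff₀ (by linarith)] at a
  nlinarith [lev_le' M h0 n, lt_lev M c' n]

theorem prof_eqv (hM : Big M) {C : ℝ} (hb : ∀ᶠ n in UF, ∀ j, |φ n j| ≤ C * M n) (c : ℝ) :
    Eqv M (fun n => φ n (lev M c n)) fun n => prof M φ c * M n :=
  Bd1.eqv ⟨C, hb.mono fun _ a => a _⟩ hM

theorem prof_mono (hM : Big M) {C : ℝ} (hb : ∀ᶠ n in UF, ∀ j, |φ n j| ≤ C * M n)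
    (hm : ∀ᶠ n in UF, Monotone (φ n)) : Monotone (prof M φ) := fun c c' h =>
  Le.num hM (((prof_eqv hM hb c).2.trans (Le.of_ev (hm.mono fun n a => a (lev_mono M h n)))).trans
    (prof_eqv hM hb c').1)

theorem step_le {u : ℕ → ℝ} {c : ℝ} (h : ∀ j, u (j + 1) ≤ u j + c) {a b : ℕ} (hab : a ≤ b) :
    u b ≤ u a + c * (b - a : ℝ) := by
  induction b, hab using Nat.le_induction with
  | base => simp
  | succ b _ ih => push_cast; linarith [h b]

theorem prof_lip (hM : Big M) {C c₀ : ℝ} (hb : ∀ᶠ n in UF, ∀ j, |φ n j| ≤ C * M n) (h0 : 0 ≤ c₀)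
    (hs : ∀ᶠ n in UF, ∀ j, φ n (j + 1) ≤ φ n j + c₀) {c c' : ℝ} (h : c ≤ c') :
    prof M φ c' - prof M φ c ≤ c₀ * (c' - c) := by
  refine Le.num hM (((prof_eqv hM hb c').2.add (prof_eqv hM hb c).1).of2 (hM.sm c₀) ?_)
  filter_upwards [hs] with n a
  have h1 := step_le a (lev_mono M h n)
  have h2 : (lev M c' n : ℝ) - lev M c n ≤ (c' - c) * M n + 1 := by
    have m0 : (0 : ℝ) ≤ M n := Nat.cast_nonneg _
    rcases le_total 0 c' with e | e
    · linarith [lev_le' M e n, lt_lev M c n]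
    · have : lev M c' n = 0 := Nat.floor_eq_zero.2 (by nlinarith)
      rw [this, Nat.cast_zero]
      nlinarith [Nat.cast_nonneg (α := ℝ) (lev M c n), mul_nonneg (sub_nonneg.2 h) m0]
  nlinarith

/-- A monotone sequence is squeezed between the values of its profile. -/
theorem prof_le (hM : Big M) {C : ℝ} (hb : ∀ᶠ n in UF, ∀ j, |φ n j| ≤ C * M n)
    (hm : ∀ᶠ n in UF, Monotone (φ n)) {j : ℕ → ℕ} {c : ℝ} :
    ((∀ᶠ n in UF, lev M c n ≤ j n) → Le M (fun n => prof M φ c * M n) fun n => φ n (j n)) ∧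
      ((∀ᶠ n in UF, j n ≤ lev M c n) → Le M (fun n => φ n (j n)) fun n => prof M φ c * M n) :=
  ⟨fun h => (prof_eqv hM hb c).2.trans (Le.of_ev ((h.and hm).mono fun _ a => a.2 a.1)),
    fun h => (Le.of_ev ((h.and hm).mono fun _ a => a.2 a.1)).trans (prof_eqv hM hb c).1⟩

end Lim

end Pool.Agent.MP_5168f5_an.R4
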