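import Pool.Agent.MP_5168f5_an.R4.SpecK

/-! Linear entropy: on an event, a copy avoids every short list. -/

namespace Pool.Agent.MP_5168f5_an.R4

open H19 H17S H17F Filter

namespace SpreadA

variable {Ω α β : Type} (P : FP Ω) (A : Ω → α) (B : Ω → β)

theorem pb_sum (T : Finset α) (F : Ω → Prop) :
    pb P (fun x => F x ∧ A x ∈ T) = ∑ w ∈ T, pb P fun x => A x = w ∧ F x := by
  classical
  unfold pb
  rw [← FP.E_sum]
  refine P.E_congr fun x _ => ?_
  by_cases h : F x <;> simp [h]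

/-- The value of `A` has conditional probability at most `c`. -/
def Lt (c : ℝ) (ω : Ω) : Prop :=
  pb P (fun x => A x = A ω ∧ B x = B ω) ≤ c * pb P fun x => B x = B ω

theorem heavy {c : ℝ} (hc : 0 < c) (a : Ω) (ha : a ∈ P.S) : ∃ T : Finset α, (T.card : ℝ) ≤ c ∧
    ∀ b ∈ P.S, B b = B a → ¬Lt P A B c⁻¹ b → A b ∈ T := by
  classical
  refine ⟨(P.S.filter fun b => B b = B a ∧ ¬Lt P A B c⁻¹ b).image A, ?_, fun b hb e h =>
    Finset.mem_image_of_mem A (Finset.mem_filter.2 ⟨hb, e, h⟩)⟩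
  generalize hT : (P.S.filter fun b => B b = B a ∧ ¬Lt P A B c⁻¹ b).image A = T
  have h1 : ∀ w ∈ T, c⁻¹ * pb P (fun x => B x = B a) ≤ pb P fun x => A x = w ∧ B x = B a := by
    intro w hw
    obtain ⟨b, hb, rfl⟩ := Finset.mem_image.1 (hT ▸ hw)
    obtain ⟨-, e, h⟩ := Finset.mem_filter.1 hb
    rw [← e]
    exact (not_le.1 h).le
  have h2 := (Finset.card_nsmul_le_sum T _ _ h1).trans
    ((pb_sum P A T _).ge.trans (pb_mono fun _ _ h => h.1))
  rw [nsmul_eq_mul, ← mul_assoc,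
    mul_le_iff_le_one_left (pb_pos P (E := fun x => B x = B a) ⟨a, ha, rfl⟩)] at h2
  exact (mul_inv_le_iff₀ hc).1 h2 |>.trans_eq (one_mul c)

theorem copy (T : Ω → Finset α) {c L : ℝ} (hc : 0 ≤ c) (hL : 0 ≤ L)
    (hT : ∀ ω, ((T ω).card : ℝ) ≤ L) : pb P (Lt P A B c) *
      pb (glue (cE P (Lt P A B c)) (cE P (Lt P A B c)) B B) (fun v => A v.2 ∈ T v.1) ≤ L * c := by
  classical
  generalize hE : Lt P A B c = E
  let g : β → ℝ := fun s => L * c * (pb P (fun x => B x = s) / pb P fun x => E x ∧ B x = s)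
  have h1 : ∀ x ∈ P.S, E x → pb (cv (cE P E) B (B x)) (fun y => A y ∈ T x) ≤ g (B x) := by
    intro x hx e
    have h0 : ∃ y ∈ P.S, E y ∧ B y = B x := ⟨x, hx, e, rfl⟩
    simp only [g]
    rw [cv, cE_cE h0, ← mul_div_assoc, le_div_iff₀' (pb_pos P h0), pb_cE, pb_sum, mul_assoc]
    refine (Finset.sum_le_card_nsmul _ _ (c * pb P fun y => B y = B x) fun w _ => ?_).trans ?_
    · by_cases h : ∃ y ∈ P.S, A y = w ∧ E y ∧ B y = B x
      · obtain ⟨y, -, rfl, h2, h3⟩ := h
        rw [← h3]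
        exact (pb_mono fun _ _ k => ⟨k.1, k.2.2⟩).trans (hE ▸ h2 : Lt P A B c y)
      · rw [pb_zero fun y hy k => h ⟨y, hy, k⟩]
        exact mul_nonneg hc (pb_nonneg _ _)
    · rw [nsmul_eq_mul]
      exact mul_le_mul_of_nonneg_right (hT x) (mul_nonneg hc (pb_nonneg _ _))
  have h2 : ∀ s, (cv P B s).E (fun y => if E y then g s else 0) ≤ L * c := by
    intro s
    have h3 : (cv P B s).E (fun y => if E y then g s else 0) = g s * pb (cv P B s) E := by
      rw [pb, ← FP.E_mul]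
      exact FP.E_congr _ fun y _ => by by_cases h : E y <;> simp [h]
    simp only [h3, g]
    rw [mul_assoc _ (_ / _), div_mul_eq_mul_div, cv, pb_cE, pb_congr fun _ _ => and_comm]
    exact mul_le_of_le_one_right (mul_nonneg hL hc) (div_self_le_one _)
  calc _ = P.E fun x => if E x then pb (cv (cE P E) B (B x)) (fun y => A y ∈ T x) else 0 := by
        rw [← E_cE]
        exact congrArg _ (E_bind _ _ _)
    _ ≤ P.E fun x => if E x then g (B x) else 0 := P.E_mono fun x hx => by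
        by_cases h : E x <;> simp [h, h1 x hx]
    _ = _ := ke.exp P B fun s y => if E y then g s else 0
    _ ≤ _ := (P.E_mono fun x _ => h2 _).trans_eq (P.E_const _)

end SpreadA

open SpreadA in
theorem rowSpread : Spread := by
  intro Ω α β P A B M C hM hD hS
  obtain ⟨ε, hε, h⟩ := not_Le hS
  have hp : Pos P fun n => Lt (P n) (A n) (B n) (Real.exp (ε / 2 * M n))⁻¹ := by
    refine ⟨ε / 4 / (|C| + 1), by positivity, ?_⟩
    filter_upwards [h, hD, hM.sm lg (ε / 4) (by positivity), hM.ev 1] with n h1 h2 h3 h4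
    have h5 := ke.sparse (P n) _ (A n) (B n) _ _ h2 (heavy _ _ _ (Real.exp_pos (ε / 2 * M n)))
    rw [Real.log_exp, Real.log_exp, pb_not, sub_sub_cancel] at h5
    have h6 := pb_nonneg (P n) (Lt (P n) (A n) (B n) (Real.exp (ε / 2 * M n))⁻¹)
    generalize pb (P n) (Lt (P n) (A n) (B n) (Real.exp (ε / 2 * M n))⁻¹) = q at h5 h6 ⊢
    have h7 : q * C * M n ≤ q * (|C| + 1) * M n :=
      mul_le_mul_of_nonneg_right (mul_le_mul_of_nonneg_left (by linarith [le_abs_self C]) h6)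
        (by linarith)
    have h8 : 0 ≤ q * (ε / 2 * M n) := by positivity
    rw [div_le_iff₀ (by positivity)]
    exact le_of_mul_le_mul_right (a := (M n : ℝ)) (by linarith) (by linarith)
  refine ⟨_, hp, fun T L hL hT δ hδ => ?_⟩
  obtain ⟨κ, hκ, hp⟩ := hp
  filter_upwards [hp, hT, (hL.const_mul hM (C := 1 + (κ * δ)⁻¹)
    (le_add_of_nonneg_right (by positivity))).2 (ε / 2) (by positivity)] with n h1 h2 h3
  have h4 := copy (P n) (A n) (B n) (T n) (c := (Real.exp (ε / 2 * M n))⁻¹) (by positivity)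
    (hL.pos n).le h2
  have h5 : L n * (Real.exp (ε / 2 * M n))⁻¹ ≤ κ * δ := by
    rw [mul_inv_le_iff₀ (Real.exp_pos _), ← inv_mul_le_iff₀ (by positivity)]
    linarith [hL.pos n]
  simp only [not_not]
  exact le_of_mul_le_mul_left
    ((mul_le_mul_of_nonneg_right h1 (pb_nonneg _ _)).trans (h4.trans h5)) hκ

end Pool.Agent.MP_5168f5_an.R4
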