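import Pool.Agent.MP_5168f5_an.R4.K31Cls
import Pool.Agent.MP_5168f5_an.H17F.KE

/-! Conditional entropies are affine under conditioning on events. -/

namespace Pool.Agent.MP_5168f5_an.R4.K31

open H19 H17S H17F Filter

variable {Ω α β : ℕ → Type} {P : ∀ n, FP (Ω n)} {E : ∀ n, Ω n → Prop} {F : ∀ n, Ω n → α n}
  {G : ∀ n, Ω n → β n} {M : ℕ → ℕ} {C : ℝ}

theorem ch_le_mean (hM : Big M) : Le M (fun n => ch (P n) (F n) (G n)) fun n =>
    pb (P n) (E n) * ch (cE (P n) (E n)) (F n) (G n) +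
      (1 - pb (P n) (E n)) * ch (cE (P n) fun ω => ¬E n ω) (F n) (G n) :=
  (hM.sm lg).of_sub (Eventually.of_forall fun n => by
    linarith [rowKE.le (P n) (E n) (F n) (G n)])

theorem mean_le_ch : Le M (fun n => pb (P n) (E n) * ch (cE (P n) (E n)) (F n) (G n) +
      (1 - pb (P n) (E n)) * ch (cE (P n) fun ω => ¬E n ω) (F n) (G n)) fun n =>
    ch (P n) (F n) (G n) := Le.of_le fun n => rowKE.ge (P n) (E n) (F n) (G n)

theorem whp_small (hE : Whp P E) {u : ℕ → ℝ} (hu : ∀ᶠ n in UF, u n ≤ C * M n) :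
    Sm M fun n => (1 - pb (P n) (E n)) * u n := fun ε hε => by
  filter_upwards [hE (ε / (|C| + 1)) (by positivity), hu] with n a b
  rw [pb_not] at a
  have h0 : 0 ≤ 1 - pb (P n) (E n) := by linarith [pb_le_one (P n) (E n)]
  have m0 : (0 : ℝ) ≤ M n := Nat.cast_nonneg _
  have h1 : u n ≤ (|C| + 1) * M n := b.trans (mul_le_mul_of_nonneg_right
    (by linarith [le_abs_self C]) m0)
  have h3 : (1 - pb (P n) (E n)) * u n ≤ (1 - pb (P n) (E n)) * ((|C| + 1) * M n) :=
    mul_le_mul_of_nonneg_left h1 h0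
  have h4 : (1 - pb (P n) (E n)) * ((|C| + 1) * M n) ≤ ε / (|C| + 1) * ((|C| + 1) * M n) :=
    mul_le_mul_of_nonneg_right a (by positivity)
  have h5 : ε / (|C| + 1) * ((|C| + 1) * M n) = ε * M n := by field_simp
  linarith

/-- Conditioning on an event of probability near one does not decrease the entropy. -/
theorem ch_le_whp (hM : Big M) (hE : Whp P E)
    (hb : ∀ᶠ n in UF, ch (cE (P n) fun ω => ¬E n ω) (F n) (G n) ≤ C * M n) :
    Le M (fun n => ch (P n) (F n) (G n)) fun n => ch (cE (P n) (E n)) (F n) (G n) :=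
  ((ch_le_mean (P := P) (E := E) (F := F) (G := G) hM).add (whp_small hE hb)).of_sub
    (Eventually.of_forall fun n => by
    have := mul_le_of_le_one_left (ch_nonneg (P := cE (P n) (E n)) (F n) (G n))
      (pb_le_one (P n) (E n))
    linarith)

/-- Conditioning on an event of probability near one does not increase the entropy. -/
theorem whp_le_ch (hE : Whp P E) (hb : ∀ᶠ n in UF, ch (cE (P n) (E n)) (F n) (G n) ≤ C * M n) :
    Le M (fun n => ch (cE (P n) (E n)) (F n) (G n)) fun n => ch (P n) (F n) (G n) :=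
  ((mean_le_ch (E := E) (F := F) (G := G)).add (whp_small hE hb)).of_sub
    (Eventually.of_forall fun n => by
      have := mul_nonneg (sub_nonneg.2 (pb_le_one (P n) (E n)))
        (ch_nonneg (P := cE (P n) fun ω => ¬E n ω) (F n) (G n))
      linarith)

/-- The hypothesis `Split` for a class of laws and the functionals `± ch / M`.  Here `c x E` is
the sequence `x` conditioned on `E`, and `σ i = 1` or `σ i = -1`. -/
theorem split_ch {X : ℕ → Type 1} (W : ∀ n, X n → Type) (Q : ∀ n x, FP (W n x))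
    {A B : ℕ → ∀ n, X n → Type} (a : ∀ i n x, W n x → A i n x) (b : ∀ i n x, W n x → B i n x)
    (σ : ℕ → ℝ) (hσ : ∀ i, σ i = 1 ∨ σ i = -1) (D : ℕ → ℝ) (hM : Big M)
    (c : ∀ n x, (W n x → Prop) → X n)
    (hc : ∀ i n x e, ch (Q n (c n x e)) (a i n _) (b i n _) = ch (cE (Q n x) e) (a i n x) (b i n x))
    (x : ∀ n, X n) (hb : ∀ i (e : ∀ n, W n (x n) → Prop), ∀ᶠ n in UF,
      ch (cE (Q n (x n)) (e n)) (a i n _) (b i n _) ≤ D i * M n) (x' : ∀ n, X n)
    (r : ∃ e, Pos (fun n => Q n (x n)) e ∧ x' = fun n => c n (x n) (e n)) :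
    Split (fun y y' => ∃ e, Pos (fun n => Q n (y n)) e ∧ y' = fun n => c n (y n) (e n))
      (fun i n y => σ i * ch (Q n y) (a i n y) (b i n y) / M n) x x' := by
  obtain ⟨e, he, rfl⟩ := r
  by_cases hw : Whp (fun n => Q n (x n)) e
  · refine Or.inl fun i => (le1_div hM).2 ?_
    simp only [hc]
    rcases hσ i with h | h <;> rw [h]
    · simpa only [one_mul] using ch_le_whp hM hw (hb i fun n ω => ¬e n ω)
    · exact (whp_le_ch hw (hb i e)).of_sub (Eventually.of_forall fun n => by linarith)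
  · obtain ⟨κ, hκ, hq⟩ := he
    refine Or.inr ⟨_, fun n => pb (Q n (x n)) (e n), κ, ⟨_, not_whp hw, rfl⟩, hκ,
      hq.mono fun n u => ⟨u, pb_le_one _ _⟩, fun i => ?_⟩
    simp only [hc, ← mul_div_assoc, ← add_div]
    refine (le1_div hM).2 ?_
    rcases hσ i with h | h <;> rw [h]
    · exact (ch_le_mean (E := e) hM).of_sub (Eventually.of_forall fun n => by linarith)
    · exact (mean_le_ch (E := e)).of_sub (Eventually.of_forall fun n => by linarith)

/-- EXACT: a nonempty class of laws closed under conditioning on events of positive probability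
has a nonempty subclass, closed in the same way, on which the entropies `ch (a i) (b i)` equal
`s i * M + o(M)`; `σ 0 * s 0` is the maximum of `σ 0 * ch (a 0) (b 0) / M` on the class. -/
theorem exact_ch {X : ℕ → Type 1} (W : ∀ n, X n → Type) (Q : ∀ n x, FP (W n x))
    {A B : ℕ → ∀ n, X n → Type} (a : ∀ i n x, W n x → A i n x) (b : ∀ i n x, W n x → B i n x)
    (σ : ℕ → ℝ) (hσ : ∀ i, σ i = 1 ∨ σ i = -1) (D : ℕ → ℝ) (hM : Big M)
    (c : ∀ n x, (W n x → Prop) → X n)
    (hc : ∀ i n x e, ch (Q n (c n x e)) (a i n _) (b i n _) = ch (cE (Q n x) e) (a i n x) (b i n x))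
    (p : ℕ → ∀ n, X n → Prop) (h0 : ∃ x, Cls p x)
    (hb : ∀ x, Cls p x → ∀ i (e : ∀ n, W n (x n) → Prop), ∀ᶠ n in UF,
      ch (cE (Q n (x n)) (e n)) (a i n _) (b i n _) ≤ D i * M n)
    (hp : ∀ x e, Cls p x → Pos (fun n => Q n (x n)) e → Cls p fun n => c n (x n) (e n)) :
    ∃ (s : ℕ → ℝ) (p' : ℕ → ∀ n, X n → Prop), (∃ x, Cls p' x) ∧
      (∀ x, Cls p' x ↔ Cls p x ∧ ∀ i,
        Le M (fun n => s i * M n) (fun n => ch (Q n (x n)) (a i n _) (b i n _)) ∧
        Le M (fun n => ch (Q n (x n)) (a i n _) (b i n _)) fun n => s i * M n) ∧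
      (∀ x e, Cls p' x → Pos (fun n => Q n (x n)) e → Cls p' fun n => c n (x n) (e n)) ∧
      ∀ y, Cls p y → Le M (fun n => σ 0 * ch (Q n (y n)) (a 0 n _) (b 0 n _))
        fun n => σ 0 * s 0 * M n := by
  have cv : ∀ (s : ℝ) (f : ℕ → ℝ), (Le1 (fun _ => s) (fun n => f n / M n) ↔
      Le M (fun n => s * M n) f) ∧ (Le1 (fun n => f n / M n) (fun _ => s) ↔
      Le M f fun n => s * M n) := by
    intro s f
    have e : ∀ᶠ n in UF, s * M n / M n = s := (hM.ev 1).mono fun n u =>
      mul_div_cancel_right₀ _ (by linarith)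
    rw [← le1_div hM, ← le1_div hM]
    exact ⟨⟨fun h => (Le1.of_ev (e.mono fun _ => le_of_eq)).trans h,
      fun h => (Le1.of_ev (e.mono fun _ => ge_of_eq)).trans h⟩,
      fun h => h.trans (Le1.of_ev (e.mono fun _ => ge_of_eq)),
      fun h => h.trans (Le1.of_ev (e.mono fun _ => le_of_eq))⟩
  obtain ⟨s, p', h1, h2, h3, h4⟩ := exact p _
    (fun i n y => σ i * ch (Q n y) (a i n y) (b i n y) / M n) (fun i => |D i|) h0
    (fun i x hx => by
      filter_upwards [hb x hx i fun _ _ => True, hM.ev 1] with n u v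
      rw [cE_true] at u
      have h5 : |σ i| = 1 := by rcases hσ i with h | h <;> simp [h]
      rw [abs_div, abs_mul, h5, one_mul, abs_of_nonneg (ch_nonneg _ _), Nat.abs_cast,
        div_le_iff₀ (by linarith)]
      exact u.trans (mul_le_mul_of_nonneg_right (le_abs_self _) (by linarith)))
    (by rintro x _ hx ⟨e, he, rfl⟩; exact hp x e hx he)
    fun x x' hx r => split_ch W Q a b σ hσ D hM c hc x (hb x hx) x' r
  refine ⟨fun i => σ i * s i, p', h1, fun x => (h2 x).trans (and_congr_right fun _ =>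
    forall_congr' fun i => ?_), fun x e hx he => h3 x _ hx ⟨e, he, rfl⟩, fun y hy => ?_⟩
  · rw [(cv _ _).1, (cv _ _).2]
    beta_reduce
    rcases hσ i with h | h <;> rw [h]
    · simp only [one_mul]
    · exact ⟨fun u => ⟨u.2.of_sub (Eventually.of_forall fun n => by linarith),
        u.1.of_sub (Eventually.of_forall fun n => by linarith)⟩,
        fun u => ⟨u.2.of_sub (Eventually.of_forall fun n => by linarith),
        u.1.of_sub (Eventually.of_forall fun n => by linarith)⟩⟩
  · have h6 : σ 0 * (σ 0 * s 0) = s 0 := by rcases hσ 0 with h | h <;> simp [h]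
    simpa only [h6] using (cv _ _).2.1 (h4 y hy)

end Pool.Agent.MP_5168f5_an.R4.K31
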