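import Pool.Agent.MP_5168f5_an.H17F.Sq2

/-! The interface between the entropy theorem and the statements about sets. -/

namespace Pool.Agent.MP_5168f5_an.R4

open H19 H17S H17F Filter

/-- A sequence of direction separated families of lines with almost all heights. -/
structure DS0 {N : ℕ} (x : ℕ → Cfg N) (M : ℕ → ℕ) : Prop where
  big : Big M
  box : ∀ n, (x n).Box
  triv : ∀ n, Fn (x n).P (x n).θ fun _ => ()
  sep : ∀ n, Fn (x n).P (x n).ln fun ω => fl (M n) ((x n).e ω)
  grid : ∀ n, Fn (x n).P (x n).z fun ω => fl1 (M n) ((x n).z ω)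
  hgt : Le M (fun n => M n * lg) fun n =>
    ch (x n).P (fun ω => fl1 (M n) ((x n).z ω)) (x n).ln

/-- The point at the finest scale determines the direction up to entropy `o(M)`. -/
def Mu0 (N : ℕ) : Prop := ∀ (x : ℕ → Cfg N) (M : ℕ → ℕ), DS0 x M →
  Sm M fun n => ch (x n).P (fun ω => fl (M n) ((x n).e ω)) fun ω =>
    (fl (M n) ((x n).pt ω), fl1 (M n) ((x n).z ω), (x n).θ ω)

end Pool.Agent.MP_5168f5_an.R4
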