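import Pool.Agent.MP_5168f5_an.H17F.Sq2
import Pool.Agent.MP_5168f5_an.H17F.KE
import Pool.Agent.MP_5168f5_an.H17F.KG
import Pool.Agent.MP_5168f5_an.H17F.KS
import Pool.Agent.MP_5168f5_an.R4.K31Ex
import Pool.Agent.MP_5168f5_an.R4.K31Dn
import Pool.Agent.MP_5168f5_an.R4.RedDefs

/-! Kakeya sets in four dimensions: systems, classes, labels. -/

namespace Pool.Agent.MP_5168f5_an.R4

open H19 H17S H17F Filter

theorem ke : KE := rowKE
theorem kg : KG := rowKG rowKE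
theorem ks : KS := rowKS rowKE

/-! ### Limits along the ultrafilter -/

/-- The limit of a bounded sequence. -/
noncomputable def ul (f : ℕ → ℝ) : ℝ := limsup f UF

/-- The limit of `f / M`. -/
noncomputable def rt (M : ℕ → ℕ) (f : ℕ → ℝ) : ℝ := ul fun n => f n / M n

/-- `|f| ≤ C M`. -/
def Bd1 (M : ℕ → ℕ) (f : ℕ → ℝ) : Prop := ∃ C : ℝ, ∀ᶠ n in UF, |f n| ≤ C * M n

/-- The level `c M`. -/
noncomputable def lev (M : ℕ → ℕ) (c : ℝ) : ℕ → ℕ := fun n => ⌊c * M n⌋₊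

/-- The limit profile of `φ n j` at `j = c M`. -/
noncomputable def prof (M : ℕ → ℕ) (φ : ℕ → ℕ → ℝ) (c : ℝ) : ℝ := rt M fun n => φ n (lev M c n)

/-- `f = g + o(M)`. -/
def Eqv (M : ℕ → ℕ) (f g : ℕ → ℝ) : Prop := Le M f g ∧ Le M g f

/-- A property of sequences that is given by countably many eventual conditions. -/
def CF {S : ℕ → Type*} (K : (∀ n, S n) → Prop) : Prop :=
  ∃ p : ℕ → ∀ n, S n → Prop, ∀ x, K x ↔ K31.Cls p x

/-! ### Members and classes -/

/-- A probability space with a map to the base type `Ω`. -/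
structure Ext (Ω : Type) : Type 1 where
  W : Type
  Q : FP W
  ρ : W → Ω

/-- A sequence of spaces over the base types. -/
abbrev Mb (Ω : ℕ → Type) : Type 1 := ∀ n, Ext (Ω n)

namespace Mb

variable {Ω Ω' : ℕ → Type} (X : Mb Ω)

/-- The sample types. -/
abbrev W : ℕ → Type := fun n => (X n).W

/-- The laws. -/
abbrev P : ∀ n, FP (X n).W := fun n => (X n).Q

/-- Condition on an event. -/
noncomputable abbrev cond (E : ∀ n, (X n).W → Prop) : Mb Ω := fun n =>
  ⟨(X n).W, cE (X n).Q (E n), (X n).ρ⟩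

/-- A space over the member. -/
abbrev ext {W : ℕ → Type} (Q : ∀ n, FP (W n)) (f : ∀ n, W n → (X n).W) : Mb Ω := fun n =>
  ⟨W n, Q n, fun v => (X n).ρ (f n v)⟩

/-- Change the base. -/
abbrev map (π : ∀ n, Ω n → Ω' n) : Mb Ω' := fun n => ⟨(X n).W, (X n).Q, fun v => π n ((X n).ρ v)⟩

/-- A law on the base types as a member. -/
abbrev base (P : ∀ n, FP (Ω n)) : Mb Ω := fun n => ⟨Ω n, P n, id⟩

end Mb

/-- A set of members that depends on the law only and is closed under conditioning on events of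
bounded below probability. -/
structure Cl0 {Ω : ℕ → Type} (K : Mb Ω → Prop) : Prop where
  law : ∀ X X' : Mb Ω, K X →
    (∀ᶠ n in UF, Law (X' n).Q (X' n).ρ (X n).Q (X n).ρ) → K X'
  cond : ∀ (X : Mb Ω) (E : ∀ n, (X n).W → Prop), K X → Pos X.P E → K (X.cond E)

/-- A class of members: also closed under diagonal limits. -/
structure Cl {Ω : ℕ → Type} (K : Mb Ω → Prop) : Prop extends Cl0 K where
  cf : CF K

/-- The refinements of bounded density of a sequence of laws. -/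
def DnK {Ω : ℕ → Type} (P : ∀ n, FP (Ω n)) : Mb Ω → Prop := fun X =>
  K31.DnS X.P (fun n => (X n).ρ) P

/-! ### Lines, heights, points -/

/-- A line with position `a` and direction `e`, a height `z`, a context `θ` and an abstract point `y`. -/
structure Geo (N : ℕ) (Ω : Type) : Type 1 where
  T : Type
  Y : Type
  a : Ω → V N
  e : Ω → V N
  z : Ω → ℝ
  θ : Ω → T
  y : Ω → Y

namespace Geo

variable {N N' : ℕ} {Ω Ω' : Type} (g : Geo N Ω)

/-- The point of the line at height `t`. -/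
def lt (t : ℝ) (ω : Ω) : V N := g.a ω + t • g.e ω

/-- The point of the line at the random height. -/
def pt (ω : Ω) : V N := g.lt (g.z ω) ω

/-- The line at resolution `2^{-j}`. -/
noncomputable def X (j : ℕ) (ω : Ω) : Z N × Z N := (fl j (g.a ω), fl j (g.e ω))

/-- The line and the context. -/
def ln (ω : Ω) : V N × V N × g.T := (g.a ω, g.e ω, g.θ ω)

/-- The height and the context. -/
def zt (ω : Ω) : ℝ × g.T := (g.z ω, g.θ ω)

/-- All the data. -/
def core (ω : Ω) : (V N × V N × g.T) × ℝ × g.Y := (g.ln ω, g.z ω, g.y ω)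

/-- The line and the window of length `2^{-j}`. -/
noncomputable def win (j : ℕ) (ω : Ω) : (V N × V N × g.T) × ℤ := (g.ln ω, fl1 j (g.z ω))

/-- Pull back. -/
abbrev pull (f : Ω' → Ω) : Geo N Ω' :=
  ⟨g.T, g.Y, fun v => g.a (f v), fun v => g.e (f v), fun v => g.z (f v), fun v => g.θ (f v),
    fun v => g.y (f v)⟩

/-- Change the abstract point. -/
abbrev setY {Y : Type} (y : Ω → Y) : Geo N Ω := ⟨g.T, Y, g.a, g.e, g.z, g.θ, y⟩

/-- The point with coordinate `i` at resolution `2^{-r i}`, the height and the context. -/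
noncomputable def fp (r : Fin N → ℕ) (ω : Ω) : Z N × ℝ × g.T :=
  (fun i => fl1 (r i) (g.pt ω i), g.z ω, g.θ ω)

/-- The system whose abstract point is the fat point. -/
noncomputable abbrev fat (r : Fin N → ℕ) : Geo N Ω := g.setY (g.fp r)

/-- Add `κ` to the context and to the point. -/
abbrev ctx {K : Type} (κ : Ω → K) : Geo N Ω :=
  ⟨K × g.T, K × g.Y, g.a, g.e, g.z, fun ω => (κ ω, g.θ ω), fun ω => (κ ω, g.y ω)⟩

/-- The left end of the window of length `2^{-j}`. -/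
noncomputable def z0 (j : ℕ) (ω : Ω) : ℝ := ((2 : ℝ) ^ j)⁻¹ * fl1 j (g.z ω)

/-- Affine change of coordinates in the window of length `2^{-j}`: the new height `t'` is given by
`t = z0 + 2^{-j} t'`, the new point is `A (pt - c - t' d)`, the new context is `κ`. -/
noncomputable abbrev aff (j : ℕ) (A : Ω → Matrix (Fin N') (Fin N) ℝ) (c d : Ω → V N) {K Y : Type}
    (κ : Ω → K) (y : Ω → Y) : Geo N' Ω :=
  ⟨K, Y, fun ω => (A ω).mulVec (g.lt (g.z0 j ω) ω - c ω),
    fun ω => (A ω).mulVec (((2 : ℝ) ^ j)⁻¹ • g.e ω - d ω), fun ω => Int.fract (2 ^ j * g.z ω), κ, y⟩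

/-- The exact conditions: bounds, and the point determines the height and the context. -/
structure Bx (P : FP Ω) (L : ℝ) : Prop where
  bd : ∀ ω ∈ P.S, (∀ i, |g.a ω i| ≤ L ∧ |g.e ω i| ≤ L) ∧ 0 ≤ g.z ω ∧ g.z ω < 1
  fz : Fn P g.z g.y
  fθ : Fn P g.θ g.y

/-- How far `lam` is from being a kernel of the line and the window of level `j`. -/
noncomputable def hk {Λ : Type} (P : FP Ω) (j : ℕ) (lam : Ω → Λ) : ℝ := mi P lam g.core (g.win j)

/-- The leak: how far `lam` is from being a kernel of the point. -/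
noncomputable def lk {Λ : Type} (P : FP Ω) (lam : Ω → Λ) : ℝ := mi P lam g.core g.y

/-- The sum over all digits of the entropy of the next digit of the slope `i`. -/
noncomputable def G (P : FP Ω) (i : Fin N) (M : ℕ) : ℝ :=
  ∑ k ∈ Finset.range M, ch P (fun ω => fl1 (k + 1) (g.e ω i)) fun ω => (fl k (g.e ω), g.y ω)

end Geo

/-- The values of `x` on a fibre of `y` are within `ε`. -/
def Near {Ω Y : Type} (P : FP Ω) (y : Ω → Y) (x : Ω → ℝ) (ε : ℝ) : Prop :=
  ∀ a ∈ P.S, ∀ b ∈ P.S, y a = y b → |x a - x b| ≤ ε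

/-- A sequence of systems on the base types. -/
abbrev Gs (N : ℕ) (Ω : ℕ → Type) : Type 1 := ∀ n, Geo N (Ω n)

/-- The systems on a member. -/
abbrev Mb.G {Ω : ℕ → Type} {N : ℕ} (X : Mb Ω) (g : Gs N Ω) : Gs N X.W := fun n =>
  (g n).pull (X n).ρ

section Seq

variable {N : ℕ} {Ω : ℕ → Type} (P : ∀ n, FP (Ω n)) (g : Gs N Ω) (M : ℕ → ℕ)

/-- A system at scale `2^{-M}`: the height is full and independent of the line. -/
structure Bs : Prop where
  big : Big M
  bx : ∃ L, Sub M L ∧ ∀ᶠ n in UF, (g n).Bx (P n) (L n)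
  inf : Sm M fun n => mi (P n) (g n).z (g n).ln (g n).θ
  hgt : Le M (fun n => M n * lg) fun n => ch (P n) (fun ω => fl1 (M n) ((g n).z ω)) (g n).θ

/-- The abstract point determines coordinate `i` of the point at resolution `2^{-r}`. -/
def Fat (i : Fin N) (r : ℕ → ℕ) : Prop :=
  ∃ L, Sub M L ∧ ∀ᶠ n in UF, Near (P n) (g n).y (fun ω => (g n).pt ω i) (L n / 2 ^ r n)

/-- The direction determines the line. -/
def DS : Prop :=
  Sm M fun n => ch (P n) ((g n).X (M n)) fun ω => (fl (M n) ((g n).e ω), (g n).θ ω)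

/-- Linear broadness of the slope `i` at the points. -/
def BR (i : Fin N) (η : ℝ) : Prop := ∀ α : ℕ → ℕ, (∀ n, α n ≤ M n) →
  Le M (fun n => η * α n * lg) fun n => ch (P n) (fun ω => fl1 (α n) ((g n).e ω i)) (g n).y

/-- Linear broadness at every angular depth of size `O(M)`. -/
def BRa (i : Fin N) (η : ℝ) : Prop := ∀ (α β : ℕ → ℕ) (C : ℝ),
  (∀ n, α n ≤ β n ∧ (β n : ℝ) ≤ C * M n) → Le M (fun n => η * (β n - α n) * lg) fun n =>
    ch (P n) (fun ω => fl1 (β n) ((g n).e ω i)) fun ω => (fl (α n) ((g n).e ω), (g n).y ω)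

/-- A kernel of the line and the window of level `j`. -/
def Hk (j : ℕ → ℕ) {Λ : ℕ → Type} (lam : ∀ n, Ω n → Λ n) : Prop :=
  Sm M fun n => (g n).hk (P n) (j n) (lam n)

/-- A label of level `j`. -/
structure Lab (j : ℕ → ℕ) {Λ : ℕ → Type} (lam : ∀ n, Ω n → Λ n) : Prop where
  h : Hk P g M j lam
  l : Sm M fun n => (g n).lk (P n) (lam n)

end Seq

/-! ### Shapes and labelled families -/

/-- Shape data `D`; `fit L d ω j τ`: with constants `L`, the line of `ω` is within `2^{-τ}` of the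
shape `d` on its window of level `j`. -/
structure Shp (Ω : Type) : Type 1 where
  D : Type
  fit : ℝ → D → Ω → ℕ → ℕ → Prop

/-- Pull back. -/
abbrev Shp.pull {Ω Ω' : Type} (s : Shp Ω) (f : Ω' → Ω) : Shp Ω' :=
  ⟨s.D, fun L d v => s.fit L d (f v)⟩

/-- The fit is monotone and depends on the data of `g` only. -/
structure Shp.OK {N : ℕ} {Ω : Type} (s : Shp Ω) (g : Geo N Ω) : Prop where
  monoL : ∀ L L' d ω j τ, L ≤ L' → s.fit L d ω j τ → s.fit L' d ω j τ
  monoj : ∀ L d ω j j' τ, j ≤ j' → s.fit L d ω j τ → s.fit L d ω j' τ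
  core : ∀ L d ω ω' j τ, g.core ω = g.core ω' → s.fit L d ω j τ → s.fit L d ω' j τ

/-- Graphs of affine functions of the height and of the coordinates in `S`, for coordinate `k`. -/
noncomputable def Geo.pl {N : ℕ} {Ω : Type} (g : Geo N Ω) (S : Finset (Fin N)) (k : Fin N) :
    Shp Ω :=
  ⟨ℝ × ℝ × V N, fun L d ω j τ => |d.2.1| ≤ L ∧ (∀ i, |d.2.2 i| ≤ L ∧ (i ∉ S → d.2.2 i = 0)) ∧
    ∀ t : ℝ, fl1 j t = fl1 j (g.z ω) →
      |g.lt t ω k - d.1 - d.2.1 * t - ∑ i, d.2.2 i * g.lt t ω i| ≤ L / 2 ^ τ⟩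

/-- Nested labels `S j` with shape data `d i j` of thickness `τ i j`. -/
structure Fam {I : Type} {Ω : Type} (s : I → Shp Ω) : Type 1 where
  Lb : Type
  S : ℕ → Ω → Lb
  d : ∀ i, ℕ → Ω → (s i).D
  τ : I → ℕ → ℕ

/-- Pull back. -/
abbrev Fam.pull {I Ω Ω' : Type} {s : I → Shp Ω} (F : Fam s) (f : Ω' → Ω) :
    Fam fun i => (s i).pull f :=
  ⟨F.Lb, fun j v => F.S j (f v), fun i j v => F.d i j (f v), F.τ⟩

/-- The exact conditions on a family; `p i` is the floor. -/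
structure Fam.Alg {I Ω : Type} {s : I → Shp Ω} (F : Fam s) (P : FP Ω) (p : I → ℕ) (L : ℝ) :
    Prop where
  nest : ∀ j, Fn P (F.S j) (F.S (j + 1))
  fd : ∀ i j, Fn P (F.d i j) (F.S j)
  fit : ∀ i j, ∀ ω ∈ P.S, (s i).fit L (F.d i j ω) ω j (F.τ i j)
  mono : ∀ i, Monotone (F.τ i)
  le : ∀ i j, F.τ i j ≤ p i

section Fam

variable {N : ℕ} {Ω : ℕ → Type} {I : Type} (P : ∀ n, FP (Ω n)) (g : Gs N Ω) (M : ℕ → ℕ)

/-- A family of labels. -/
structure FamOK {s : ∀ n, I → Shp (Ω n)} (F : ∀ n, Fam (s n)) (p : ℕ → I → ℕ) : Prop where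
  alg : ∃ L, Sub M L ∧ ∀ᶠ n in UF, (F n).Alg (P n) (p n) (L n)
  lab : ∀ j : ℕ → ℕ, Lab P g M j fun n => (F n).S (j n)

/-- A label of level `j` that carries a shape of thickness `τ`. -/
def Thin (s : ∀ n, Shp (Ω n)) (j τ : ℕ → ℕ) : Prop :=
  ∃ (Λ : ℕ → Type) (lam : ∀ n, Ω n → Λ n) (d : ∀ n, Ω n → (s n).D) (L : ℕ → ℝ),
    Lab P g M j lam ∧ Sub M L ∧ ∀ᶠ n in UF, Fn (P n) (d n) (lam n) ∧
      ∀ ω ∈ (P n).S, (s n).fit (L n) (d n ω) ω (j n) (τ n)

end Fam

/-- No member of `K` has a label of level `j` with a shape thinner than `b`. -/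
def NoLab {N : ℕ} {Ω : ℕ → Type} (K : Mb Ω → Prop) (g : Gs N Ω) (M : ℕ → ℕ)
    (s : ∀ n, Shp (Ω n)) (j : ℕ → ℕ) (b : ℕ → ℝ) : Prop :=
  ∀ (X : Mb Ω) (τ : ℕ → ℕ), K X → Thin X.P (X.G g) M (fun n => (s n).pull (X n).ρ) j τ →
    Le M (fun n => τ n) b

/-- An optimal family on the class `K`. -/
structure Opt {N : ℕ} {Ω : ℕ → Type} {I : Type} (K : Mb Ω → Prop) (g : Gs N Ω) (M : ℕ → ℕ)
    {s : ∀ n, I → Shp (Ω n)} (F : ∀ n, Fam (s n)) (p : ℕ → I → ℕ) : Prop where
  ok : ∀ X, K X → FamOK X.P (X.G g) M (fun n => (F n).pull (X n).ρ) p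
  opt : ∀ (i : I) (X : Mb Ω) (j j' τ : ℕ → ℕ) (ε : ℝ), K X → 0 < ε →
    (∀ᶠ n in UF, j n + ε * M n ≤ j' n ∧ j' n ≤ M n ∧ τ n ≤ p n i) →
    Thin X.P (X.G g) M (fun n => (s n i).pull (X n).ρ) j τ →
    Le M (fun n => τ n) fun n => (F n).τ i (j' n)

/-- A set of systems with linear broadness of the slope `i`. -/
structure Cls0 {N : ℕ} {Ω : ℕ → Type} (K : Mb Ω → Prop) (g : Gs N Ω) (M : ℕ → ℕ) (i : Fin N)
    (η : ℝ) : Prop where
  cl0 : Cl0 K
  pos : 0 < η
  bs : ∀ X, K X → Bs X.P (X.G g) M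
  br : ∀ X, K X → BR X.P (X.G g) M i η

/-- A nonempty class of systems with linear broadness of the slope `i`. -/
structure Cls {N : ℕ} {Ω : ℕ → Type} (K : Mb Ω → Prop) (g : Gs N Ω) (M : ℕ → ℕ) (i : Fin N)
    (η : ℝ) : Prop extends Cls0 K g M i η where
  cf : CF K
  ne : ∃ X, K X

/-- Linear broadness at every small angular depth, uniformly on the class. -/
def BRD {N : ℕ} {Ω : ℕ → Type} (K : Mb Ω → Prop) (g : Gs N Ω) (M : ℕ → ℕ) (i : Fin N)
    (η : ℝ) : Prop := ∀ ε : ℝ, 0 < ε → ∃ a₀ : ℝ, 0 < a₀ ∧ ∀ X, K X → ∀ α β : ℕ → ℕ,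
  (∀ n, α n ≤ β n ∧ (β n : ℝ) ≤ a₀ * M n) →
    Le M (fun n => η * (β n - α n) * lg - ε * β n) fun n =>
      ch (X n).Q (fun v => fl1 (β n) ((X.G g n).e v i)) fun v =>
        (fl (α n) ((X.G g n).e v), (X.G g n).y v)

/-- There is no broad class of direction separated systems in `ℝ^(N+2)`. -/
def NoBR (N : ℕ) : Prop := ∀ (Ω : ℕ → Type) (K : Mb Ω → Prop) (g : Gs (N + 1) Ω) (M : ℕ → ℕ)
  (η : ℝ), Cls K (fun n => (g n).fat fun _ => M n) M 0 η →
    BRD K (fun n => (g n).fat fun _ => M n) M 0 η → (∀ X, K X → DS X.P (X.G g) M) → False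

end Pool.Agent.MP_5168f5_an.R4
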