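import Pool.Agent.MP_5168f5_an.H17F.KS

/-! Classes of sequences given by countably many eventual conditions: diagonal limits,
maximisers, and subclasses on which countably many functionals are constant. -/

namespace Pool.Agent.MP_5168f5_an.R4.K31

open H17F Filter

universe u

variable {X : ℕ → Type u}

/-- The class of the sequences that satisfy each condition `p j` eventually. -/
def Cls (p : ℕ → ∀ n, X n → Prop) (x : ∀ n, X n) : Prop := ∀ j, ∀ᶠ n in UF, p j n (x n)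

/-- `f ≤ g + o(1)`. -/
def Le1 (f g : ℕ → ℝ) : Prop := ∀ ε : ℝ, 0 < ε → ∀ᶠ n in UF, f n ≤ g n + ε

theorem Le1.of_ev {f g : ℕ → ℝ} (h : ∀ᶠ n in UF, f n ≤ g n) : Le1 f g := fun _ hε =>
  h.mono fun _ a => by linarith

theorem Le1.trans {f g k : ℕ → ℝ} (h : Le1 f g) (h' : Le1 g k) : Le1 f k := fun ε hε => by
  filter_upwards [h _ (half_pos hε), h' _ (half_pos hε)] with n a b
  linarith

theorem le_of_le1 {a b : ℝ} (h : Le1 (fun _ => a) fun _ => b) : a ≤ b :=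
  le_of_forall_pos_le_add fun ε hε => (h ε hε).exists.elim fun _ e => e

theorem small {ε : ℝ} (hε : 0 < ε) {k : ℕ → ℕ} (hk : Big k) :
    ∀ᶠ n in UF, 1 / ((k n : ℕ) + 1 : ℝ) ≤ ε := by
  filter_upwards [hk.ev (1 / ε)] with n a
  rw [div_le_iff₀ hε] at a
  rw [div_le_iff₀ (by positivity)]
  nlinarith

theorem le1_iff {f g : ℕ → ℝ} : Le1 f g ↔ ∀ j : ℕ, ∀ᶠ n in UF, f n ≤ g n + 1 / (j + 1 : ℝ) := by
  refine ⟨fun h j => h _ (by positivity), fun h ε hε => ?_⟩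
  obtain ⟨m, hm⟩ := exists_nat_one_div_lt hε
  exact (h m).mono fun n a => by linarith

/-- Normalised inequalities and `Le`. -/
theorem le1_div {M : ℕ → ℕ} (hM : Big M) {f g : ℕ → ℝ} :
    Le1 (fun n => f n / M n) (fun n => g n / M n) ↔ Le M f g := by
  refine forall₂_congr fun ε _ => eventually_congr ?_
  filter_upwards [hM.ev 1] with n a
  have h : (0 : ℝ) < M n := by linarith
  rw [div_le_iff₀ h, add_mul, div_mul_cancel₀ _ h.ne']

/-- Diagonal limit of a sequence of sequences. -/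
theorem diag (q : ℕ → ℕ → ∀ n, X n → Prop) (y : ℕ → ∀ n, X n)
    (h : ∀ k, ∀ i ≤ k, Cls (q i) (y k)) :
    ∃ k : ℕ → ℕ, Big k ∧ ∀ i, Cls (q i) fun n => y (k n) n := by
  obtain ⟨k, hk, e⟩ := KSA.spill (fun k n => ∀ i ≤ k, ∀ j ≤ k, q i j n (y k n)) fun k =>
    (eventually_all_finite (Set.finite_Iic k)).2 fun i hi =>
      (eventually_all_finite (Set.finite_Iic k)).2 fun j _ => h k i hi j
  refine ⟨k, hk, fun i j => ?_⟩
  filter_upwards [e, hk.ev i, hk.ev j] with n a b c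
  exact a _ le_rfl i (by exact_mod_cast b) j (by exact_mod_cast c)

/-- A bounded functional attains its supremum on a class. -/
theorem sup (p : ℕ → ∀ n, X n → Prop) (f : ∀ n, X n → ℝ) (C : ℝ) (h0 : ∃ x, Cls p x)
    (hb : ∀ x, Cls p x → ∀ᶠ n in UF, |f n (x n)| ≤ C) :
    ∃ s : ℝ, (∃ x, Cls p x ∧ Le1 (fun _ => s) fun n => f n (x n)) ∧
      ∀ y, Cls p y → Le1 (fun n => f n (y n)) fun _ => s := by
  set A : Set ℝ := {r | ∃ y, Cls p y ∧ ∀ᶠ n in UF, r ≤ f n (y n)} with hA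
  have ne : A.Nonempty := by
    obtain ⟨x, hx⟩ := h0
    exact ⟨-C, x, hx, (hb x hx).mono fun n a => (abs_le.1 a).1⟩
  have bd : BddAbove A := ⟨C, by
    rintro r ⟨y, hy, e⟩
    obtain ⟨n, a, b⟩ := (e.and (hb y hy)).exists
    exact a.trans (abs_le.1 b).2⟩
  refine ⟨sSup A, ?_, fun y hy ε hε => ?_⟩
  · have e : ∀ k : ℕ, ∃ y, Cls p y ∧ ∀ᶠ n in UF, sSup A ≤ f n (y n) + 1 / (k + 1 : ℝ) := by
      intro k
      obtain ⟨r, ⟨y, hy, e⟩, hr⟩ := exists_lt_of_lt_csSup ne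
        (show sSup A - 1 / (k + 1 : ℝ) < sSup A by linarith [Nat.one_div_pos_of_nat (α := ℝ) (n := k)])
      exact ⟨y, hy, e.mono fun n a => by linarith⟩
    choose y h1 h2 using e
    obtain ⟨k, -, e⟩ := diag (fun i j n x => p j n x ∧ sSup A ≤ f n x + 1 / (i + 1 : ℝ)) y
      fun k i hi j => ((h1 k j).and (h2 k)).mono fun n a =>
        ⟨a.1, a.2.trans (add_le_add le_rfl (Nat.one_div_le_one_div hi))⟩
    exact ⟨fun n => y (k n) n, fun j => (e 0 j).mono fun _ a => a.1,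
      le1_iff.2 fun i => (e i 0).mono fun _ a => a.2⟩
  · rcases ev_em (fun n => f n (y n) ≤ sSup A + ε) with h | h
    · exact h
    · have := le_csSup bd (show sSup A + ε ∈ A from ⟨y, hy, h.mono fun n a => (not_le.1 a).le⟩)
      linarith

/-- The members of a class at which `f` tends to `s`. -/
def cut (p : ℕ → ∀ n, X n → Prop) (f : ∀ n, X n → ℝ) (s : ℝ) : ℕ → ∀ n, X n → Prop :=
  fun j n x => p j n x ∧ s ≤ f n x + 1 / (j + 1 : ℝ) ∧ f n x ≤ s + 1 / (j + 1 : ℝ)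

theorem cls_cut {p : ℕ → ∀ n, X n → Prop} {f : ∀ n, X n → ℝ} {s : ℝ} {x : ∀ n, X n} :
    Cls (cut p f s) x ↔ Cls p x ∧ Le1 (fun _ => s) (fun n => f n (x n)) ∧
      Le1 (fun n => f n (x n)) fun _ => s := by
  simp only [Cls, cut, eventually_and, le1_iff, forall_and]

/-- `R x x'`: the sequence `x'` is a piece of `x`.  Either a piece has a complementary piece
and each `f i` is at most the weighted mean, or `f i` does not decrease. -/
def Split (R : (∀ n, X n) → (∀ n, X n) → Prop) (f : ℕ → ∀ n, X n → ℝ) (x x' : ∀ n, X n) : Prop :=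
  (∀ i, Le1 (fun n => f i n (x n)) fun n => f i n (x' n)) ∨
    ∃ (x'' : ∀ n, X n) (q : ℕ → ℝ) (κ : ℝ), R x x'' ∧ 0 < κ ∧ (∀ᶠ n in UF, κ ≤ q n ∧ q n ≤ 1) ∧
      ∀ i, Le1 (fun n => f i n (x n)) fun n => q n * f i n (x' n) + (1 - q n) * f i n (x'' n)

theorem cut_closed {p : ℕ → ∀ n, X n → Prop} {R : (∀ n, X n) → (∀ n, X n) → Prop}
    {f : ℕ → ∀ n, X n → ℝ} {i : ℕ} {s : ℝ} (hc : ∀ x x', Cls p x → R x x' → Cls p x')
    (hs : ∀ x x', Cls p x → R x x' → Split R f x x')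
    (hm : ∀ y, Cls p y → Le1 (fun n => f i n (y n)) fun _ => s) (x x' : ∀ n, X n)
    (hx : Cls (cut p (f i) s) x) (r : R x x') : Cls (cut p (f i) s) x' := by
  obtain ⟨a, b, -⟩ := cls_cut.1 hx
  refine cls_cut.2 ⟨hc x x' a r, ?_, hm x' (hc x x' a r)⟩
  rcases hs x x' a r with h | ⟨x'', q, κ, r', hκ, hq, h⟩
  · exact b.trans (h i)
  · intro ε hε
    have e : 0 < ε * κ / 2 := by positivity
    filter_upwards [b.trans (h i) _ e, hm x'' (hc x x'' a r') _ e, hq] with n u v w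
    have h1 : (1 - q n) * f i n (x'' n) ≤ (1 - q n) * (s + ε * κ / 2) :=
      mul_le_mul_of_nonneg_left v (by linarith)
    have h2 : q n * (s - f i n (x' n)) ≤ q n * ε := by nlinarith
    linarith [le_of_mul_le_mul_left h2 (hκ.trans_le w.1)]

/-- Lexicographic maximisation: a subclass, closed under pieces, on which each `f i` tends to a
constant `s i`; `s 0` is the maximum of `f 0`. -/
theorem exact (p : ℕ → ∀ n, X n → Prop) (R : (∀ n, X n) → (∀ n, X n) → Prop)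
    (f : ℕ → ∀ n, X n → ℝ) (C : ℕ → ℝ) (h0 : ∃ x, Cls p x)
    (hb : ∀ i x, Cls p x → ∀ᶠ n in UF, |f i n (x n)| ≤ C i)
    (hc : ∀ x x', Cls p x → R x x' → Cls p x') (hs : ∀ x x', Cls p x → R x x' → Split R f x x') :
    ∃ (s : ℕ → ℝ) (p' : ℕ → ∀ n, X n → Prop), (∃ x, Cls p' x) ∧
      (∀ x, Cls p' x ↔ Cls p x ∧ ∀ i, Le1 (fun _ => s i) (fun n => f i n (x n)) ∧
        Le1 (fun n => f i n (x n)) fun _ => s i) ∧
      (∀ x x', Cls p' x → R x x' → Cls p' x') ∧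
      ∀ y, Cls p y → Le1 (fun n => f 0 n (y n)) fun _ => s 0 := by
  let G : Type u := {q : ℕ → ∀ n, X n → Prop // (∃ x, Cls q x) ∧ (∀ x, Cls q x → Cls p x) ∧
    ∀ x x', Cls q x → R x x' → Cls q x'}
  have st : ∀ (i : ℕ) (g : G), ∃ s : ℝ, (∃ x, Cls (cut g.1 (f i) s) x) ∧
      ∀ y, Cls g.1 y → Le1 (fun n => f i n (y n)) fun _ => s := by
    intro i g
    obtain ⟨s, ⟨x, a, b⟩, c⟩ := sup g.1 (f i) (C i) g.2.1 fun x hx => hb i x (g.2.2.1 x hx)
    exact ⟨s, ⟨x, cls_cut.2 ⟨a, b, c x a⟩⟩, c⟩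
  choose σ h1 h2 using st
  let nx : ℕ → G → G := fun i g => ⟨cut g.1 (f i) (σ i g), h1 i g,
    fun x hx => g.2.2.1 x (cls_cut.1 hx).1,
    cut_closed g.2.2.2 (fun x x' a => hs x x' (g.2.2.1 x a)) (h2 i g)⟩
  let g : ℕ → G := fun i => Nat.rec ⟨p, h0, fun _ a => a, hc⟩ nx i
  have gs : ∀ i x, Cls (g (i + 1)).1 x ↔ Cls (g i).1 x ∧
      Le1 (fun _ => σ i (g i)) (fun n => f i n (x n)) ∧
        Le1 (fun n => f i n (x n)) fun _ => σ i (g i) := fun i x => cls_cut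
  have mo : ∀ k, ∀ i ≤ k, ∀ x, Cls (g k).1 x → Cls (g i).1 x := by
    intro k i hi x
    induction hi with
    | refl => exact id
    | step _ ih => exact fun a => ih ((gs _ x).1 a).1
  choose y hy using fun k => (g k).2.1
  obtain ⟨k, -, e⟩ := diag (fun i => (g i).1) y fun k i hi => mo k i hi _ (hy k)
  have al : ∀ x, Cls (fun j n x => ∀ i ≤ j, ∀ l ≤ j, (g i).1 l n x) x ↔ ∀ i, Cls (g i).1 x :=
    fun x => ⟨fun a i l => (a (max i l)).mono fun n b => b i (le_max_left _ _) l (le_max_right _ _),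
      fun a j => (eventually_all_finite (Set.finite_Iic j)).2 fun i _ =>
        (eventually_all_finite (Set.finite_Iic j)).2 fun l _ => a i l⟩
  refine ⟨fun i => σ i (g i), _, ⟨_, (al _).2 e⟩, fun x => (al x).trans ⟨fun a =>
    ⟨a 0, fun i => ((gs i x).1 (a (i + 1))).2⟩, fun a i => ?_⟩,
    fun x x' a r => (al x').2 fun i => (g i).2.2.2 x x' ((al x).1 a i) r, h2 0 (g 0)⟩
  induction i with
  | zero => exact a.1
  | succ i ih => exact (gs i x).2 ⟨ih, a.2 i⟩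

end Pool.Agent.MP_5168f5_an.R4.K31
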