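import Pool.Agent.MP_5168f5_an.R4.NCt4

/-! The noise step for two blocks of different weight. -/

namespace Pool.Agent.MP_5168f5_an.R4.NCx

open H19 H17S H17F Filter

variable {N : ℕ}

/-- The noise step on one space, integer form. -/
theorem ncSG (S : Finset (Fin N)) {ρ₀ ε₀ : ℝ} (r0 : 0 < ρ₀) (r1 : ρ₀ < 1) (h0 : 0 < ε₀)
    (h1 : ε₀ ≤ 1) : ∃ c : ℝ, 0 < c ∧
    ∀ {Ω T : ℕ → Type} {P : ∀ n, FP (Ω n)} {Θ : ∀ n, Ω n → T n} {A A' : ∀ n, Ω n → Z N}
    {d w : ∀ n, Ω n → ℤ × Z N} {R : ℕ → ℕ} {L : ℕ → ℝ} {C : ℝ}, Big R → Sub R L →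
    NGT S ρ₀ P Θ (fun n ω => ur (R n) (A n ω)) R ε₀ →
    (∀ᶠ n in UF, Det (P n) (A n) (Θ n) (Real.exp (C * R n)) ∧
      Det (P n) (A' n) (Θ n) (Real.exp (C * R n)) ∧
      ∀ ω ∈ (P n).S, (|((d n ω).1 : ℝ)| ≤ 2 ^ R n ∧ |((w n ω).1 : ℝ)| ≤ 2 * 2 ^ R n ∧
        ‖cz (d n ω).2‖ ≤ L n * 2 ^ R n ∧ ‖cz (w n ω).2‖ ≤ L n * 2 ^ R n) ∧
        ∀ j, j ∉ S → (d n ω).2 j = 0) →
    Whp P (fun n ω => ‖bil (R n) (d n ω) (w n ω) - cz (A n ω - A' n ω)‖ ≤ L n) →
    Le R (fun n => ch (P n) (A' n) (Θ n)) (fun n => ch (P n) (A n) (Θ n)) →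
    Sm R (fun n => mi (P n) (A n) (fun ω => (d n ω, w n ω)) (Θ n)) →
    Sm R (fun n => mi (P n) (d n) (w n) (Θ n)) →
    Le R (fun n => R n * lg) (fun n => ch (P n) (fun ω => (d n ω).1) (Θ n)) →
    Le R (fun n => R n * lg) (fun n => ch (P n) (fun ω => (w n ω).1) (Θ n)) →
    Whp P fun n ω => ‖cz (A' n ω - A n ω)‖ ≤ 2 ^ R n * Real.exp (-(c * R n)) := by
  obtain ⟨c, hc, H⟩ := H29N.ncWG S r0 r1 h0 h1
  refine ⟨c, hc, ?_⟩
  intro Ω T P Θ A A' d w R L C hR hL hN hb hw i0 i1 i2 i3 i4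
  have z0 : Sm R fun n => ch (P n) (fun ω => A' n ω - A n ω) fun ω => ((d n ω, w n ω), Θ n ω) := by
    refine (rowKS rowKE).fano P _ _ _ R (fun n => (5 * L n) ^ N) (C + C) hR
      ((hL.const_mul hR (by norm_num)).pow N) hw (hb.mono fun n hn => ⟨?_, fun a _ => ?_⟩)
    · rw [add_mul, Real.exp_add]
      exact det_anti _ (det_sub _ hn.1 hn.2.1) (Fn.snd _ _)
    · obtain ⟨W, k1, k2⟩ := cells_near 0 (-bil (R n) (d n a) (w n a)) (hL.pos n).le
      refine ⟨W, k1.trans ?_, fun b _ e k => ?_⟩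
      · rw [Fintype.card_fin]
        exact pow_le_pow_left₀ (by linarith [hL.1 n]) (by linarith [hL.1 n]) N
      · simp only [Prod.mk.injEq] at e
        rw [← flv_cz (A' n b - A n b)]
        refine k2 _ ?_
        rw [← e.1.1, ← e.1.2, pow_zero, div_one, ← neg_sub (A n b), cz_neg, neg_sub_neg]
        exact k
  let X : Bool → ∀ n, Ω n → Z N := fun t n ω => bif t then A n ω else A' n ω
  let D : Bool → ∀ n, Ω n → ℤ × Z N := fun t n ω => bif t then d n ω else -d n ω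
  have j1 : ∀ t, Sm R fun n => mi (P n) (X t n) (fun ω => (d n ω, w n ω)) (Θ n) := by
    rintro (_ | _)
    · refine Le.of3 i0 i1 z0 (Eventually.of_forall fun n => ?_)
      have a1 := ch_tri (P := P n) (A n) (A' n) fun ω => ((d n ω, w n ω), Θ n ω)
      have a2 : ch (P n) (A n) (fun ω => (A' n ω, (d n ω, w n ω), Θ n ω)) ≤
          ch (P n) (fun ω => A' n ω - A n ω) fun ω => ((d n ω, w n ω), Θ n ω) :=
        ch_le (fun a _ b _ e => by
          simp only [Prod.mk.injEq] at e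
          have := e.1
          rw [e.2.1] at this
          exact sub_right_injective this) (Fn.snd _ _)
      change mi (P n) (A' n) _ _ - 0 ≤ _
      unfold mi at *
      linarith
    · exact i1
  have j2 : ∀ t, Sm R fun n => mi (P n) (X t n) (fun ω => X (!t) n ω - X t n ω) (Θ n) := fun t =>
    ((j1 t).add z0).mono (Eventually.of_forall fun n => (mi_near _ _ _ _).trans
      (add_le_add le_rfl (ch_mono fun a _ b _ e => by
        have e1 := (Prod.mk.inj e).1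
        cases t
        · exact neg_injective (by simpa [X] using e1)
        · exact e1)))
  have fD : ∀ t n, Fn (P n) (D t n) (d n) ∧ Fn (P n) (fun ω => (d n ω).1) fun ω => (D t n ω).1 := by
    rintro (_ | _) n
    · exact ⟨fun a _ b _ e => congrArg Neg.neg e, fun a _ b _ e => neg_injective e⟩
    · exact ⟨Fn.rfl _, Fn.rfl _⟩
  have av : ∀ {f : Bool → ℕ → ℝ} {g : ℕ → ℝ}, (∀ t, Sm R (f t)) →
      (∀ n, g n ≤ (f true n + f false n) / 2 + lg) → Sm R g := fun h e =>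
    Le.of3 ((h true).smul one_half_pos.le) ((h false).smul one_half_pos.le) (hR.sm lg)
      (Eventually.of_forall fun n => by linarith [e n])
  have fu : ∀ {ζ : Bool → ∀ n, Ω n → ℤ} {y : ∀ n, Ω n → ℤ},
      Le R (fun n => R n * lg) (fun n => ch (P n) (y n) (Θ n)) →
      (∀ n, Fn (P n) (y n) fun ω => (d n ω, w n ω)) → (∀ t n, Fn (P n) (y n) (ζ t n)) →
      Le R (fun n => R n * lg) fun n => ch (prod (P n) coin) (fun v => ζ v.2 n v.1)
        fun v => (X v.2 n v.1, Θ n v.1) := fun {ζ y} h f1 f2 => by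
    refine Le.of3 h ((j1 true).smul one_half_pos.le) ((j1 false).smul one_half_pos.le)
      (Eventually.of_forall fun n => ?_)
    have a1 := ch_coin_ge (P n) (fun t => ζ t n) fun t ω => (X t n ω, Θ n ω)
    have a2 : ∀ t, ch (P n) (y n) (Θ n) ≤ ch (P n) (ζ t n) (fun ω => (X t n ω, Θ n ω)) +
        mi (P n) (X t n) (fun ω => (d n ω, w n ω)) (Θ n) := fun t =>
      (ch_le_mi (Fn.rfl _)).trans (add_le_add (ch_mono ((f2 t n).left _))
        ((mi_symm _ _ _).trans_le (mi_mono ((f1 n).left _))))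
    linarith [a2 true, a2 false]
  have hD : ∀ᶠ n in UF, Det (prod (P n) coin) (fun v => X v.2 n v.1) (fun v => Θ n v.1)
      (Real.exp ((C + 1) * R n)) := by
    filter_upwards [hb, hR.ev 1] with n k1 k2
    refine det_mono _ (det_mix _ (X := fun t => X t n) (B := Real.exp (C * R n))
      (Bool.rec k1.2.1 k1.1)) ?_
    rw [add_mul, Real.exp_add, mul_comm]
    exact mul_le_mul_of_nonneg_left (by linarith [Real.add_one_le_exp (1 * (R n : ℝ))])
      (Real.exp_pos _).le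
  have hN' : ∀ t, NGT S ρ₀ P Θ (fun n ω => ur (R n) (X t n ω)) R ε₀ := Bool.rec
    (hN.shift hR hL r1.le (j2 false) (Eventually.of_forall fun n => ⟨(Fn.comp _ _).left _,
      fun a _ b _ e => by
        have e1 : A' n a - A n a = A' n b - A n b :=
          neg_injective (by simpa [X] using (Prod.mk.inj e).1)
        simp only [X, ur, cond_false, ← smul_sub, ← cz_sub, e1, sub_self, norm_zero]
        exact div_nonneg (hL.pos n).le (by positivity)⟩)) hN
  have k := H (P := fun n => prod (P n) coin) (A' := fun n v => X (!v.2) n v.1)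
    (d := fun n v => D v.2 n v.1) (w := fun n v => w n v.1) (C := C + 1) hR hL
    (NGT.mix hR h1 hN' hD) (fun n F => by rw [E_coin, E_coin, add_comm]; rfl) ?_ ?_
    (av j2 fun n => mi_coin (P n) (fun t => X t n) (fun t ω => X (!t) n ω - X t n ω) fun _ => Θ n)
    (av (f := fun t n => mi (P n) (D t n) (w n) fun ω => (X t n ω, Θ n ω)) (fun t =>
      (i2.add (j1 t)).mono (Eventually.of_forall fun n => ?_))
      fun n => mi_coin (P n) (fun t => D t n) (fun _ => w n) fun t ω => (X t n ω, Θ n ω))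
    (fu (ζ := fun t n ω => (D t n ω).1) i3 (fun n a _ b _ e => by simp only [(Prod.mk.inj e).1])
      fun t n => (fD t n).2)
    (fu (ζ := fun _ n ω => (w n ω).1) i4
      (fun n a _ b _ e => by simp only [(Prod.mk.inj e).2]) fun t n => Fn.rfl _)
  · intro ε hε
    filter_upwards [k ε hε] with n hn
    refine le_trans (le_of_eq ?_) hn
    refine ((law_fst (P n)).pb_eq fun ω => ¬‖cz (A' n ω - A n ω)‖ ≤ _).symm.trans
      (pb_congr fun v _ => ?_)
    obtain ⟨x, _ | _⟩ := v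
    · simp only [X, Bool.not_false, cond_true, cond_false]
      rw [← neg_sub (A' n x), cz_neg, norm_neg]
    · rfl
  · filter_upwards [hb, hD] with n k1 k2
    refine ⟨(ch_det k2).trans (Real.log_exp _).le, fun v hv => ?_⟩
    have := k1.2.2 _ (mem_coin _ hv)
    obtain ⟨x, _ | _⟩ := v
    · simpa [D, cz_neg] using this
    · exact this
  · intro ε hε
    filter_upwards [hw ε hε] with n hn
    refine le_trans (le_of_eq ?_) hn
    refine (pb_congr fun v _ => ?_).trans ((law_fst (P n)).pb_eq fun ω =>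
      ¬‖bil (R n) (d n ω) (w n ω) - cz (A n ω - A' n ω)‖ ≤ L n)
    obtain ⟨x, _ | _⟩ := v
    · simp only [X, D, Bool.not_false, cond_true, cond_false]
      rw [bil_neg, ← neg_sub (A n x), cz_neg, ← neg_sub', norm_neg]
    · rfl
  · have a1 : mi (P n) (D t n) (w n) (fun ω => (X t n ω, Θ n ω)) ≤
        mi (P n) (d n) (w n) fun ω => (X t n ω, Θ n ω) := mi_mono' ((fD t n).1.left _)
    have a2 := mi_chain (P := P n) (d n) (X t n) (w n) (Θ n)
    have a3 := mi_chain (P := P n) (d n) (w n) (X t n) (Θ n)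
    have a4 : mi (P n) (d n) (fun ω => (X t n ω, w n ω)) (Θ n) ≤
        mi (P n) (d n) (fun ω => (w n ω, X t n ω)) (Θ n) :=
      mi_mono fun a _ b _ e => by simp only [Prod.mk.injEq] at e ⊢; tauto
    have a5 : mi (P n) (X t n) (d n) (fun ω => (w n ω, Θ n ω)) ≤
        mi (P n) (X t n) (fun ω => (d n ω, w n ω)) (Θ n) :=
      mi_right (Fn.snd _ _) (fun a _ b _ e => by simp only [Prod.mk.injEq] at e ⊢; tauto)
        fun a _ b _ e => by simp only [Prod.mk.injEq] at e ⊢; tauto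
    have a6 := mi_nonneg (P := P n) (d n) (X t n) (Θ n)
    rw [mi_symm (X t n)] at a5
    linarith

/-- The noise step for two blocks of different weight; `g` lies in the heavy block `S`. -/
theorem ncT (S : Finset (Fin N)) {ρ₀ ε₀ : ℝ} (r0 : 0 < ρ₀) (r1 : ρ₀ < 1) (h0 : 0 < ε₀)
    (h1 : ε₀ ≤ 1) : ∃ c : ℝ, 0 < c ∧
    ∀ {Ω T D W : ℕ → Type} {P : ∀ n, FP (Ω n)} {Θ : ∀ n, Ω n → T n} {x x' g p : ∀ n, Ω n → V N}
    {ζ r : ∀ n, Ω n → ℝ} (d : ∀ n, Ω n → D n) (w : ∀ n, Ω n → W n) {R : ℕ → ℕ} {L : ℕ → ℝ},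
    Big R → Sub R L → NGT S ρ₀ P Θ x R ε₀ →
    (∀ᶠ n in UF, Fn (P n) (fun ω => (ζ n ω, g n ω)) (fun ω => (d n ω, Θ n ω)) ∧
      Fn (P n) (fun ω => (r n ω, p n ω)) (fun ω => (w n ω, Θ n ω)) ∧
      (∀ ω ∈ (P n).S, |ζ n ω| ≤ L n ∧ |r n ω| ≤ L n ∧ ∀ j, j ∉ S → g n ω j = 0) ∧
      ∀ a ∈ (P n).S, ∀ b ∈ (P n).S, Θ n a = Θ n b →
        ‖x n a - x n b‖ ≤ L n ∧ ‖x' n a - x' n b‖ ≤ L n) →
    Whp P (fun n ω => ‖g n ω‖ ≤ L n ∧ ‖p n ω‖ ≤ L n ∧
      ‖x n ω - x' n ω - (ζ n ω • p n ω + r n ω • g n ω)‖ ≤ L n / 2 ^ R n) →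
    Le R (fun n => ch (P n) (fun ω => fl (R n) (x' n ω)) (Θ n))
      (fun n => ch (P n) (fun ω => fl (R n) (x n ω)) (Θ n)) →
    Sm R (fun n => mi (P n) (fun ω => fl (R n) (x n ω)) (fun ω => (d n ω, w n ω)) (Θ n)) →
    Sm R (fun n => mi (P n) (d n) (w n) (Θ n)) →
    Le R (fun n => R n * lg) (fun n => ch (P n) (fun ω => fl1 (R n) (ζ n ω)) (Θ n)) →
    Le R (fun n => R n * lg) (fun n => ch (P n) (fun ω => fl1 (R n) (r n ω)) (Θ n)) →
    Whp P fun n ω => ‖x n ω - x' n ω‖ ≤ Real.exp (-(c * R n)) := by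
  classical
  obtain ⟨c₁, hc₁, H⟩ := ncSG S r0 r1 h0 h1
  have hlg := lg_pos
  have hc : 0 < min c₁ (lg / 2) / 2 := half_pos (lt_min hc₁ (half_pos hlg))
  refine ⟨min c₁ (lg / 2) / 2, hc, ?_⟩
  intro Ω T D W P Θ x x' g p ζ r d w R L hR hL hN hb hw i0 i1 i2 i3 i4
  let f : ℕ → ℝ × V N → ℤ × Z N := fun n y =>
    (fl1 (R n) (y.1 / L n), fl (R n) (if ‖y.2‖ ≤ L n then L n • y.2 else 0))
  have f1 : ∀ n (s : ℝ), |s| ≤ L n → |s / L n| ≤ 1 := fun n s h => by
    rw [abs_div, abs_of_pos (hL.pos n)]; exact div_le_one_of_le₀ h (hL.pos n).le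
  have f2 : ∀ n (q : V N), ‖if ‖q‖ ≤ L n then L n • q else 0‖ ≤ L n ^ 2 := fun n q => by
    split_ifs with h
    · rw [norm_smul, Real.norm_eq_abs, abs_of_pos (hL.pos n), pow_two]
      exact mul_le_mul_of_nonneg_left h (hL.pos n).le
    · rw [norm_zero]; positivity
  have f3 : ∀ n y, ‖cz (f n y).2‖ ≤ 7 * L n ^ 2 * 2 ^ R n := fun n y => by
    have a1 := norm_cz_flv (R n) (if ‖y.2‖ ≤ L n then L n • y.2 else 0)
    have a2 := norm_le_norm_add_norm_sub' (cz (flv (R n) (if ‖y.2‖ ≤ L n then L n • y.2 else 0)))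
      ((2 : ℝ) ^ R n • if ‖y.2‖ ≤ L n then L n • y.2 else 0)
    have a3 : (1 : ℝ) ≤ 2 ^ R n := one_le_pow₀ one_le_two
    have a4 : 1 ≤ L n ^ 2 := one_le_pow₀ (hL.1 n)
    rw [norm_smul, Real.norm_eq_abs, abs_of_pos (by positivity)] at a2
    change ‖cz (flv _ _)‖ ≤ _
    nlinarith [mul_le_mul_of_nonneg_left (f2 n y.2) (zero_le_one.trans a3)]
  have k := H (d := fun n ω => f n (ζ n ω, g n ω)) (w := fun n ω => f n (r n ω, p n ω))
    (A' := fun n ω => fl (R n) (x' n ω)) (C := 3 * N) hR ((hL.pow 2).const_mul hR (C := 7)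
    (by norm_num)) (hN.near (x' := fun n ω => ur (R n) (fl (R n) (x n ω))) hR (hR.sub le_rfl) r1.le
      (Eventually.of_forall fun n a _ => (norm_rd _ _).trans (one_div _).ge)) ?_ (hw.mono (hb.mono fun n hn ω hω h => ?_)) i0
    (i1.mono (hb.mono fun n hn => mi_mono fun a ha b hb e => by
      simp only [Prod.mk.injEq] at e
      simp only [hn.1 a ha b hb (Prod.ext e.1.1 e.2), hn.2.1 a ha b hb (Prod.ext e.1.2 e.2)]))
    (i2.mono (hb.mono fun n hn => (mi_mono ((Fn.comp (f n) _).trans hn.2.1)).trans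
      (mi_mono' ((Fn.comp (f n) _).trans hn.1)))) (full_div hR hL i3)
    (full_div hR hL i4)
  · refine k.mono ((hR.sm 1 _ hc).mono fun n hn ω _ h => ?_)
    have a1 := norm_fl_sub (R n) (x' n ω) (x n ω)
    have a2 := norm_le_norm_add_norm_sub (cz (fl (R n) (x' n ω) - fl (R n) (x n ω)))
      ((2 : ℝ) ^ R n • (x' n ω - x n ω))
    have a3 : 1 ≤ min c₁ (lg / 2) / 2 * R n := by simpa using hn
    have a4 := H29N.small (c₁ := c₁) (L := 2) (x := ‖(2 : ℝ) ^ R n • (x' n ω - x n ω)‖)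
      (by linarith [min_le_left c₁ (lg / 2)]) (by linarith [min_le_right c₁ (lg / 2)]) a3
      (by linarith [Real.add_one_le_exp (min c₁ (lg / 2) / 2 * R n)]) (by linarith) h
    rw [norm_smul, Real.norm_eq_abs, abs_of_pos (by positivity), norm_sub_rev] at a4
    exact le_of_mul_le_mul_left a4 (by positivity)
  · filter_upwards [hb, hL.2 1 one_pos, hR.ev 2] with n k1 k2 k3
    refine ⟨det_fl (hL.1 n) k2 k3 fun a ha b hb e => (k1.2.2.2 a ha b hb e).1,
      det_fl (hL.1 n) k2 k3 fun a ha b hb e => (k1.2.2.2 a ha b hb e).2, fun ω hω =>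
        ⟨⟨abs_fl1 _ (f1 n _ (k1.2.2.1 ω hω).1), (abs_fl1 _ (f1 n _ (k1.2.2.1 ω hω).2.1)).trans
          (le_mul_of_one_le_left (by positivity) one_le_two), f3 n _, f3 n _⟩, fun j hj => ?_⟩⟩
    simp only [f, fl]
    split_ifs <;> simp [(k1.2.2.1 ω hω).2.2 j hj]
  · have a1 := prod_err (R n) (f1 n _ (hn.2.2.1 ω hω).1) (f2 n (p n ω))
    have a2 := prod_err (R n) (f1 n _ (hn.2.2.1 ω hω).2.1) (f2 n (g n ω))
    have a3 := norm_fl_sub (R n) (x n ω) (x' n ω)
    have a4 : ‖(2 : ℝ) ^ R n • (x n ω - x' n ω - (ζ n ω • p n ω + r n ω • g n ω))‖ ≤ L n := by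
      rw [norm_smul, Real.norm_eq_abs, abs_of_pos (by positivity), mul_comm]
      exact (le_div_iff₀ (by positivity)).1 h.2.2
    have a5 := hL.1 n
    have e : ∀ (s : ℝ) (q : V N), (s / L n) • L n • q = s • q := fun s q => by
      rw [smul_smul, div_mul_cancel₀ _ (hL.pos n).ne']
    simp only [f, bil, smul_add]
    simp only [if_pos h.1, if_pos h.2.1, e] at a1 a2 ⊢
    have a6 : ∀ a b c a' b' c' : V N, ‖a + b - c‖ ≤ ‖a - a'‖ + ‖b - b'‖ + ‖c - c'‖ +
        ‖c' - (a' + b')‖ := fun a b c a' b' c' => by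
      rw [show a + b - c = (a - a') + (b - b') - (c - c') - (c' - (a' + b')) by abel]
      exact (norm_sub_le _ _).trans (add_le_add ((norm_sub_le _ _).trans
        (add_le_add (norm_add_le _ _) le_rfl)) le_rfl)
    rw [smul_sub, smul_add] at a4
    refine (a6 _ _ _ _ _ _).trans ((add_le_add (add_le_add (add_le_add a1 a2) a3) a4).trans ?_)
    nlinarith

end Pool.Agent.MP_5168f5_an.R4.NCx
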