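import Pool.Agent.MP_5168f5_an.R4.NCx2

/-! The noise step for real variables. -/

namespace Pool.Agent.MP_5168f5_an.R4.NCx

open H19 H17S H17F Filter

/-- No grain for the real vector `x` given `Θ`, on any extension of the space. -/
def NGR {N : ℕ} {Ω T : ℕ → Type} (P : ∀ n, FP (Ω n)) (Θ : ∀ n, Ω n → T n)
    (x : ∀ n, Ω n → V N) (R : ℕ → ℕ) (ε₀ : ℝ) : Prop :=
  ∀ (Ω' K : ℕ → Type) (Q : ∀ n, FP (Ω' n)) (ρ : ∀ n, Ω' n → Ω n) (κ : ∀ n, Ω' n → K n)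
    (β lam : ℕ → ℕ) (i : Fin N) (b : ∀ n, Ω' n → V N) (E : ∀ n, Ω' n → Prop),
    (∀ n, Law (Q n) (ρ n) (P n) id) → (∀ n, β n ≤ lam n ∧ lam n ≤ R n) →
    Sm R (fun n => mi (Q n) (κ n) (ρ n) fun v => Θ n (ρ n v)) →
    (∀ᶠ n in UF, Fn (Q n) (b n) (fun v => (κ n v, Θ n (ρ n v))) ∧
      Fn (Q n) (E n) (fun v => (κ n v, Θ n (ρ n v))) ∧ ∀ v ∈ (Q n).S, b n v i = 1 ∧ ‖b n v‖ ≤ 1) →
    Pos Q E →
    Le R (fun n => ch (cE (Q n) (E n)) (fun v => fl (lam n) (x n (ρ n v))) fun v =>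
        (fl (lam n) (x n (ρ n v) - x n (ρ n v) i • b n v), fl (β n) (x n (ρ n v)), κ n v,
          Θ n (ρ n v))) fun n => (1 - ε₀) * (lam n - β n) * lg

/-- The digits of the real number `u` have rate at most `1 - ε₀` in every window, on every event
of positive probability of every extension of the space. -/
def NG1 {Ω T : ℕ → Type} (P : ∀ n, FP (Ω n)) (Θ : ∀ n, Ω n → T n)
    (u : ∀ n, Ω n → ℝ) (R : ℕ → ℕ) (ε₀ : ℝ) : Prop :=
  ∀ (Ω' : ℕ → Type) (Q : ∀ n, FP (Ω' n)) (ρ : ∀ n, Ω' n → Ω n) (β lam : ℕ → ℕ)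
    (E : ∀ n, Ω' n → Prop), (∀ n, Law (Q n) (ρ n) (P n) id) → (∀ n, β n ≤ lam n ∧ lam n ≤ R n) →
    Pos Q E → Le R (fun n => ch (cE (Q n) (E n)) (fun v => fl1 (lam n) (u n (ρ n v))) fun v =>
        (fl1 (β n) (u n (ρ n v)), Θ n (ρ n v))) fun n => (1 - ε₀) * (lam n - β n) * lg

variable {N : ℕ} {Ω T T' Ω₁ : ℕ → Type} {P : ∀ n, FP (Ω n)} {Θ : ∀ n, Ω n → T n} {R R' : ℕ → ℕ}
  {ε₀ : ℝ} {x : ∀ n, Ω n → V N} {u : ∀ n, Ω n → ℝ} {P₁ : ∀ n, FP (Ω₁ n)} {σ : ∀ n, Ω₁ n → Ω n}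

theorem NGR.frac (h : NGR P Θ x R ε₀) (e : Frac R' R) : NGR P Θ x R' ε₀ :=
  fun Ω' K Q ρ κ β lam i b E h1 h2 h3 h4 h5 => (h Ω' K Q ρ κ β lam i b E h1
    (fun n => ⟨(h2 n).1, (h2 n).2.trans (e.1 n)⟩) (Le.up h3 e.1) h4 h5).frac e

theorem NG1.frac (h : NG1 P Θ u R ε₀) (e : Frac R' R) : NG1 P Θ u R' ε₀ :=
  fun Ω' Q ρ β lam E h1 h2 h5 => (h Ω' Q ρ β lam E h1
    (fun n => ⟨(h2 n).1, (h2 n).2.trans (e.1 n)⟩) h5).frac e

theorem NGR.pull (h : NGR P Θ x R ε₀) (hσ : ∀ n, Law (P₁ n) (σ n) (P n) id) :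
    NGR P₁ (fun n v => Θ n (σ n v)) (fun n v => x n (σ n v)) R ε₀ :=
  fun Ω' K Q ρ κ β lam i b E h1 h2 h3 h4 h5 => h Ω' K Q (fun n v => σ n (ρ n v)) κ β lam i b E
    (fun n => ((h1 n).comp (σ n)).trans (hσ n)) h2
    (h3.mono (Eventually.of_forall fun n => mi_mono ((Fn.comp (σ n) (ρ n)).left _))) h4 h5

theorem NG1.pull (h : NG1 P Θ u R ε₀) (hσ : ∀ n, Law (P₁ n) (σ n) (P n) id) :
    NG1 P₁ (fun n v => Θ n (σ n v)) (fun n v => u n (σ n v)) R ε₀ :=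
  fun Ω' Q ρ β lam E h1 h2 h5 => h Ω' Q (fun n v => σ n (ρ n v)) β lam E
    (fun n => ((h1 n).comp (σ n)).trans (hσ n)) h2 h5

/-- More context. -/
theorem NG1.side (h : NG1 P Θ u R ε₀) {Θ' : ∀ n, Ω n → T' n}
    (e : ∀ᶠ n in UF, Fn (P n) (Θ n) (Θ' n)) : NG1 P Θ' u R ε₀ :=
  fun Ω' Q ρ β lam E h1 h2 h5 => (h Ω' Q ρ β lam E h1 h2 h5).of_sub (e.mono fun n hn =>
    sub_le_sub_right (ch_anti ((Fn.fst _ _).pair ((fn_cE ((h1 n).fn hn) _).right _))) _)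

theorem NG1.ngr (h : NG1 P Θ u R ε₀) : NGR P Θ (fun n ω (_ : Fin 1) => u n ω) R ε₀ :=
  fun Ω' K Q ρ κ β lam i b E h1 h2 _ _ h5 => (h Ω' Q ρ β lam E h1 h2 h5).of_sub
    (Eventually.of_forall fun n => sub_le_sub_right (ch_le
      (fun a _ c _ e => funext fun _ => (Prod.mk.inj e).1) fun a _ c _ e => by
        simp only [Prod.mk.injEq] at e ⊢
        exact ⟨congrFun e.2.1 0, e.2.2.2⟩) _)

theorem co_fl {j R : ℕ} (h : j ≤ R) (y : V N) : co R j (fl R y) = fl j y :=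
  fl_eq_of_le h (funext fun i => by simp [fl, cz])

theorem norm_rd (R : ℕ) (y : V N) : ‖((2 : ℝ) ^ R)⁻¹ • cz (fl R y) - y‖ ≤ ((2 : ℝ) ^ R)⁻¹ := by
  have e : ((2 : ℝ) ^ R)⁻¹ • cz (fl R y) - y =
      ((2 : ℝ) ^ R)⁻¹ • (cz (fl R y) - (2 : ℝ) ^ R • y) := by
    rw [smul_sub, smul_smul, inv_mul_cancel₀ (by positivity), one_smul]
  rw [e, norm_smul, Real.norm_eq_abs, abs_of_pos (by positivity)]
  exact mul_le_of_le_one_right (by positivity) (norm_cz_flv R y)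

theorem norm_quo (y y' b : V N) (i : Fin N) (hb : ‖b‖ ≤ 1) :
    ‖(y - y i • b) - (y' - y' i • b)‖ ≤ 2 * ‖y - y'‖ := by
  have e : (y - y i • b) - (y' - y' i • b) = (y - y') - (y - y') i • b := by
    rw [Pi.sub_apply]; module
  have h := mul_le_mul (norm_le_pi_norm (y - y') i) hb (norm_nonneg _) (norm_nonneg _)
  rw [e]
  refine (norm_sub_le _ _).trans ?_
  rw [norm_smul]
  linarith

theorem NGR.nga (h : NGR P Θ x R ε₀) (hR : Big R) :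
    NGA P Θ (fun n ω => fl (R n) (x n ω)) R ε₀ := by
  intro Ω' K Q ρ κ β lam i b E h1 h2 h3 h4 h5
  refine Le.of2 (h Ω' K Q ρ κ β lam i b E h1 h2 h3 h4 h5) (hR.sm (N * Real.log 13))
    (h4.mono fun n hn => ?_)
  simp only [co_fl (h2 n).2, co_fl ((h2 n).1.trans (h2 n).2)]
  have a1 := ch_drop (P := cE (Q n) (E n)) (fun v => fl (lam n) (x n (ρ n v)))
    (fun v => fl (lam n) (x n (ρ n v) - x n (ρ n v) i • b n v)) fun v =>
      (cq (R n) (lam n) i (b n v) (fl (R n) (x n (ρ n v))), fl (β n) (x n (ρ n v)), κ n v,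
        Θ n (ρ n v))
  have a2 := ch_near (P := cE (Q n) (E n)) (x := fun v => x n (ρ n v) - x n (ρ n v) i • b n v)
    (G := fun v => (cq (R n) (lam n) i (b n v) (fl (R n) (x n (ρ n v))), fl (β n) (x n (ρ n v)),
      κ n v, Θ n (ρ n v))) (j := lam n) (L := 5) (by norm_num) fun a ha c hc e => by
    simp only [Prod.mk.injEq] at e
    have e1 := hn.1 a (cE_sub ha) c (cE_sub hc) (Prod.ext e.2.2.1 e.2.2.2)
    have e2 := (norm_sub_lt_of_fl_eq e.1).le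
    have e3 : ∀ (y t : V N), ((2 : ℝ) ^ R n)⁻¹ • (cz (fl (R n) y) - (fl (R n) y i : ℝ) • t) =
        ((2 : ℝ) ^ R n)⁻¹ • cz (fl (R n) y) - (((2 : ℝ) ^ R n)⁻¹ • cz (fl (R n) y)) i • t :=
      fun y t => by rw [smul_sub, smul_smul]; rfl
    rw [e3, e3, ← e1] at e2
    have hb := (hn.2.2 a (cE_sub ha)).2
    have k : ∀ y : V N, ‖(((2 : ℝ) ^ R n)⁻¹ • cz (fl (R n) y) -
        (((2 : ℝ) ^ R n)⁻¹ • cz (fl (R n) y)) i • b n a) - (y - y i • b n a)‖ ≤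
        2 * ((2 : ℝ) ^ lam n)⁻¹ := fun y => (norm_quo _ _ _ i hb).trans
      (mul_le_mul_of_nonneg_left ((norm_rd _ y).trans (inv_anti₀ (by positivity)
        (pow_le_pow_right₀ one_le_two (h2 n).2))) zero_le_two)
    have k1 := k (x n (ρ n a))
    have k2 := k (x n (ρ n c))
    rw [← e1, div_eq_mul_inv, ← dist_eq_norm] at *
    rw [dist_comm] at k1
    linarith [dist_triangle4 (x n (ρ n a) - x n (ρ n a) i • b n a) _ _
      (x n (ρ n c) - x n (ρ n c) i • b n a) |>.trans (add_le_add (add_le_add k1 e2) k2)]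
  have a3 : ch (cE (Q n) (E n)) (fun v => fl (lam n) (x n (ρ n v))) (fun v =>
      (fl (lam n) (x n (ρ n v) - x n (ρ n v) i • b n v),
        cq (R n) (lam n) i (b n v) (fl (R n) (x n (ρ n v))), fl (β n) (x n (ρ n v)), κ n v,
        Θ n (ρ n v))) ≤ ch (cE (Q n) (E n)) (fun v => fl (lam n) (x n (ρ n v))) fun v =>
      (fl (lam n) (x n (ρ n v) - x n (ρ n v) i • b n v), fl (β n) (x n (ρ n v)), κ n v,
        Θ n (ρ n v)) :=
    ch_anti fun a _ b _ e => by simp only [Prod.mk.injEq] at e ⊢; tauto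
  norm_num [← fl_eq_flv] at a2
  linarith

theorem abs_fl1 (R : ℕ) {s : ℝ} (hs : |s| ≤ 1) : |(fl1 R s : ℝ)| ≤ 2 ^ R := by
  have h : (0 : ℝ) < 2 ^ R := by positivity
  obtain ⟨h1, h2⟩ := abs_le.1 hs
  refine abs_le.2 ⟨?_, (Int.floor_le _).trans (by nlinarith)⟩
  have : -(2 : ℤ) ^ R ≤ fl1 R s := Int.le_floor.2 (by push_cast; nlinarith)
  exact_mod_cast this

theorem prod_err (R : ℕ) {s B : ℝ} (hs : |s| ≤ 1) {q : V N} (hq : ‖q‖ ≤ B) :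
    ‖((2 : ℝ) ^ R)⁻¹ • ((fl1 R s : ℝ) • cz (fl R q)) - (2 : ℝ) ^ R • s • q‖ ≤ 1 + B := by
  have h : (0 : ℝ) < 2 ^ R := by positivity
  have e : ((2 : ℝ) ^ R)⁻¹ • ((fl1 R s : ℝ) • cz (fl R q)) - (2 : ℝ) ^ R • s • q =
      (fl1 R s : ℝ) • (((2 : ℝ) ^ R)⁻¹ • cz (fl R q) - q) + ((fl1 R s : ℝ) - 2 ^ R * s) • q := by
    module
  rw [e]
  refine (norm_add_le _ _).trans (add_le_add ?_ ?_) <;> rw [norm_smul, Real.norm_eq_abs]
  · exact (mul_le_mul (abs_fl1 R hs) (norm_rd R q) (norm_nonneg _) h.le).trans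
      (mul_inv_cancel₀ h.ne').le
  · exact (mul_le_mul (abs_fl1_sub R s) hq (norm_nonneg _) zero_le_one).trans (one_mul B).le

theorem norm_fl_sub (R : ℕ) (y y' : V N) : ‖cz (fl R y - fl R y') - (2 : ℝ) ^ R • (y - y')‖ ≤ 2 := by
  have e : cz (fl R y - fl R y') - (2 : ℝ) ^ R • (y - y') =
      (cz (flv R y) - (2 : ℝ) ^ R • y) - (cz (flv R y') - (2 : ℝ) ^ R • y') := by
    rw [cz_sub, fl_eq_flv, fl_eq_flv]; module
  rw [e]
  linarith [norm_sub_le (cz (flv R y) - (2 : ℝ) ^ R • y) (cz (flv R y') - (2 : ℝ) ^ R • y'),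
    norm_cz_flv R y, norm_cz_flv R y']

theorem det_fl {W β : Type} {Q : FP W} {y : W → V N} {G : W → β} {R : ℕ} {L : ℝ} (hL : 1 ≤ L)
    (h1 : L ≤ Real.exp (1 * R)) (h2 : (2 : ℝ) ≤ R)
    (h : ∀ a ∈ Q.S, ∀ b ∈ Q.S, G a = G b → ‖y a - y b‖ ≤ L) :
    Det Q (fun v => fl R (y v)) G (Real.exp (3 * N * R)) := by
  have p : (1 : ℝ) ≤ 2 ^ R := one_le_pow₀ one_le_two
  refine det_mono _ (det_near (x := y) (j := R) (L := L * 2 ^ R) (by positivity)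
    fun a ha b hb e => by rw [mul_div_cancel_right₀ _ (by positivity)]; exact h a ha b hb e) ?_
  rw [Fintype.card_fin, show 3 * N * (R : ℝ) = N * (R + (1 * R + R)) by ring, Real.exp_nat_mul,
    Real.exp_add, Real.exp_add]
  refine pow_le_pow_left₀ (by positivity) ?_ N
  have a1 : L * 2 ^ R ≤ Real.exp (1 * R) * Real.exp R :=
    mul_le_mul h1 (two_pow_le_exp R) (by positivity) (Real.exp_pos _).le
  have a2 : 5 ≤ Real.exp R := by nlinarith [Real.quadratic_le_exp_of_nonneg (zero_le_two.trans h2)]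
  have a3 : 1 ≤ L * 2 ^ R := one_le_mul_of_one_le_of_one_le hL p
  nlinarith

theorem full_div {L ζ' : ℕ → ℝ} {ζ : ∀ n, Ω n → ℝ} (hR : Big R) (hL : Sub R L)
    (h : Le R ζ' fun n => ch (P n) (fun ω => fl1 (R n) (ζ n ω)) (Θ n)) :
    Le R ζ' fun n => ch (P n) (fun ω => fl1 (R n) (ζ n ω / L n)) (Θ n) := by
  refine Le.of2 h (Sm.near1 (P := P) (x := ζ) (G := fun n ω => (fl1 (R n) (ζ n ω / L n), Θ n ω))
    (j := R) hR hL (Eventually.of_forall fun n a _ b _ e => ?_)) (Eventually.of_forall fun n => by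
      linarith [ch_tri (P := P n) (fun ω => fl1 (R n) (ζ n ω))
        (fun ω => fl1 (R n) (ζ n ω / L n)) (Θ n)])
  have := (abs_sub_lt_of_fl1_eq (Prod.mk.inj e).1).le
  rw [← sub_div, abs_div, abs_of_pos (hL.pos n), div_le_iff₀ (hL.pos n)] at this
  rwa [div_eq_inv_mul]

/-- The noise step.  If `x - x' = ζ p + r g` where `(ζ, g)` and `(r, p)` are almost independent
of each other and of `x`, and `x'` has no more entropy than `x`, then `x'` is close to `x`. -/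
theorem ncR (N : ℕ) {ε₀ : ℝ} (h0 : 0 < ε₀) (h1 : ε₀ ≤ 1) : ∃ c : ℝ, 0 < c ∧
    ∀ {Ω T D W : ℕ → Type} {P : ∀ n, FP (Ω n)} {Θ : ∀ n, Ω n → T n} {x x' g p : ∀ n, Ω n → V N}
    {ζ r : ∀ n, Ω n → ℝ} (d : ∀ n, Ω n → D n) (w : ∀ n, Ω n → W n) {R : ℕ → ℕ} {L : ℕ → ℝ},
    Big R → Sub R L → NGR P Θ x R ε₀ →
    (∀ᶠ n in UF, Fn (P n) (fun ω => (ζ n ω, g n ω)) (fun ω => (d n ω, Θ n ω)) ∧
      Fn (P n) (fun ω => (r n ω, p n ω)) (fun ω => (w n ω, Θ n ω)) ∧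
      (∀ ω ∈ (P n).S, |ζ n ω| ≤ L n ∧ |r n ω| ≤ L n) ∧
      ∀ a ∈ (P n).S, ∀ b ∈ (P n).S, Θ n a = Θ n b →
        ‖x n a - x n b‖ ≤ L n ∧ ‖x' n a - x' n b‖ ≤ L n) →
    Whp P (fun n ω => ‖g n ω‖ ≤ L n ∧ ‖p n ω‖ ≤ L n ∧
      ‖x n ω - x' n ω - (ζ n ω • p n ω + r n ω • g n ω)‖ ≤ L n / 2 ^ R n) →
    Le R (fun n => ch (P n) (fun ω => fl (R n) (x' n ω)) (Θ n))
      (fun n => ch (P n) (fun ω => fl (R n) (x n ω)) (Θ n)) →
    Sm R (fun n => mi (P n) (fun ω => fl (R n) (x n ω)) (fun ω => (d n ω, w n ω)) (Θ n)) →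
    Sm R (fun n => mi (P n) (d n) (w n) (Θ n)) →
    Le R (fun n => R n * lg) (fun n => ch (P n) (fun ω => fl1 (R n) (ζ n ω)) (Θ n)) →
    (Le R (fun n => R n * lg) (fun n => ch (P n) (fun ω => fl1 (R n) (r n ω)) (Θ n)) ∨
      ∀ᶠ n in UF, ∀ ω ∈ (P n).S, g n ω = 0) →
    Whp P fun n ω => ‖x n ω - x' n ω‖ ≤ Real.exp (-(c * R n)) := by
  classical
  obtain ⟨c₁, hc₁, H⟩ := ncS N h0 h1
  have hlg := lg_pos
  have hc : 0 < min c₁ (lg / 2) / 2 := half_pos (lt_min hc₁ (half_pos hlg))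
  refine ⟨min c₁ (lg / 2) / 2, hc, ?_⟩
  intro Ω T D W P Θ x x' g p ζ r d w R L hR hL hN hb hw i0 i1 i2 i3 i4
  let f : ℕ → ℝ × V N → ℤ × Z N := fun n y =>
    (fl1 (R n) (y.1 / L n), fl (R n) (if ‖y.2‖ ≤ L n then L n • y.2 else 0))
  have f1 : ∀ n (s : ℝ), |s| ≤ L n → |s / L n| ≤ 1 := fun n s h => by
    rw [abs_div, abs_of_pos (hL.pos n)]; exact div_le_one_of_le₀ h (hL.pos n).le
  have f2 : ∀ n (q : V N), ‖if ‖q‖ ≤ L n then L n • q else 0‖ ≤ L n ^ 2 := fun n q => by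
    split_ifs with h
    · rw [norm_smul, Real.norm_eq_abs, abs_of_pos (hL.pos n), pow_two]
      exact mul_le_mul_of_nonneg_left h (hL.pos n).le
    · rw [norm_zero]; positivity
  have f3 : ∀ n y, ‖cz (f n y).2‖ ≤ 7 * L n ^ 2 * 2 ^ R n := fun n y => by
    have a1 := norm_cz_flv (R n) (if ‖y.2‖ ≤ L n then L n • y.2 else 0)
    have a2 := norm_le_norm_add_norm_sub' (cz (flv (R n) (if ‖y.2‖ ≤ L n then L n • y.2 else 0)))
      ((2 : ℝ) ^ R n • if ‖y.2‖ ≤ L n then L n • y.2 else 0)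
    have a3 : (1 : ℝ) ≤ 2 ^ R n := one_le_pow₀ one_le_two
    have a4 : 1 ≤ L n ^ 2 := one_le_pow₀ (hL.1 n)
    rw [norm_smul, Real.norm_eq_abs, abs_of_pos (by positivity)] at a2
    change ‖cz (flv _ _)‖ ≤ _
    nlinarith [mul_le_mul_of_nonneg_left (f2 n y.2) (zero_le_one.trans a3)]
  have k := H (d := fun n ω => f n (ζ n ω, g n ω)) (w := fun n ω => f n (r n ω, p n ω))
    (A' := fun n ω => fl (R n) (x' n ω)) (C := 3 * N) hR ((hL.pow 2).const_mul hR (C := 7)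
    (by norm_num)) (hN.nga hR) ?_ (hw.mono (hb.mono fun n hn ω hω h => ?_)) i0
    (i1.mono (hb.mono fun n hn => mi_mono fun a ha b hb e => by
      simp only [Prod.mk.injEq] at e
      simp only [hn.1 a ha b hb (Prod.ext e.1.1 e.2), hn.2.1 a ha b hb (Prod.ext e.1.2 e.2)]))
    (i2.mono (hb.mono fun n hn => (mi_mono ((Fn.comp (f n) _).trans hn.2.1)).trans
      (mi_mono' ((Fn.comp (f n) _).trans hn.1)))) (full_div hR hL i3)
    (i4.imp (full_div hR hL) fun h => h.mono fun n hn ω hω => by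
      funext i; simp [f, hn ω hω, fl])
  · refine k.mono ((hR.sm 1 _ hc).mono fun n hn ω _ h => ?_)
    have a1 := norm_fl_sub (R n) (x' n ω) (x n ω)
    have a2 := norm_le_norm_add_norm_sub (cz (fl (R n) (x' n ω) - fl (R n) (x n ω)))
      ((2 : ℝ) ^ R n • (x' n ω - x n ω))
    have a3 : 1 ≤ min c₁ (lg / 2) / 2 * R n := by simpa using hn
    have a4 := H29N.small (c₁ := c₁) (L := 2) (x := ‖(2 : ℝ) ^ R n • (x' n ω - x n ω)‖)
      (by linarith [min_le_left c₁ (lg / 2)]) (by linarith [min_le_right c₁ (lg / 2)]) a3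
      (by linarith [Real.add_one_le_exp (min c₁ (lg / 2) / 2 * R n)]) (by linarith) h
    rw [norm_smul, Real.norm_eq_abs, abs_of_pos (by positivity), norm_sub_rev] at a4
    exact le_of_mul_le_mul_left a4 (by positivity)
  · filter_upwards [hb, hL.2 1 one_pos, hR.ev 2] with n k1 k2 k3
    refine ⟨det_fl (hL.1 n) k2 k3 fun a ha b hb e => (k1.2.2.2 a ha b hb e).1,
      det_fl (hL.1 n) k2 k3 fun a ha b hb e => (k1.2.2.2 a ha b hb e).2, fun ω hω =>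
        ⟨abs_fl1 _ (f1 n _ (k1.2.2.1 ω hω).1), (abs_fl1 _ (f1 n _ (k1.2.2.1 ω hω).2)).trans
          (le_mul_of_one_le_left (by positivity) one_le_two), f3 n _, f3 n _⟩⟩
  · have a1 := prod_err (R n) (f1 n _ (hn.2.2.1 ω hω).1) (f2 n (p n ω))
    have a2 := prod_err (R n) (f1 n _ (hn.2.2.1 ω hω).2) (f2 n (g n ω))
    have a3 := norm_fl_sub (R n) (x n ω) (x' n ω)
    have a4 : ‖(2 : ℝ) ^ R n • (x n ω - x' n ω - (ζ n ω • p n ω + r n ω • g n ω))‖ ≤ L n := by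
      rw [norm_smul, Real.norm_eq_abs, abs_of_pos (by positivity), mul_comm]
      exact (le_div_iff₀ (by positivity)).1 h.2.2
    have a5 := hL.1 n
    have e : ∀ (s : ℝ) (q : V N), (s / L n) • L n • q = s • q := fun s q => by
      rw [smul_smul, div_mul_cancel₀ _ (hL.pos n).ne']
    simp only [f, bil, smul_add]
    simp only [if_pos h.1, if_pos h.2.1, e] at a1 a2 ⊢
    have a6 : ∀ a b c a' b' c' : V N, ‖a + b - c‖ ≤ ‖a - a'‖ + ‖b - b'‖ + ‖c - c'‖ +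
        ‖c' - (a' + b')‖ := fun a b c a' b' c' => by
      rw [show a + b - c = (a - a') + (b - b') - (c - c') - (c' - (a' + b')) by abel]
      exact (norm_sub_le _ _).trans (add_le_add ((norm_sub_le _ _).trans
        (add_le_add (norm_add_le _ _) le_rfl)) le_rfl)
    rw [smul_sub, smul_add] at a4
    refine (a6 _ _ _ _ _ _).trans ((add_le_add (add_le_add (add_le_add a1 a2) a3) a4).trans ?_)
    nlinarith

/-- The noise step when `x - x' = ζ p`. -/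
theorem ncP (N : ℕ) {ε₀ : ℝ} (h0 : 0 < ε₀) (h1 : ε₀ ≤ 1) : ∃ c : ℝ, 0 < c ∧
    ∀ {Ω T D W : ℕ → Type} {P : ∀ n, FP (Ω n)} {Θ : ∀ n, Ω n → T n} {x x' p : ∀ n, Ω n → V N}
    {ζ : ∀ n, Ω n → ℝ} (d : ∀ n, Ω n → D n) (w : ∀ n, Ω n → W n) {R : ℕ → ℕ} {L : ℕ → ℝ},
    Big R → Sub R L → NGR P Θ x R ε₀ →
    (∀ᶠ n in UF, Fn (P n) (ζ n) (fun ω => (d n ω, Θ n ω)) ∧
      Fn (P n) (p n) (fun ω => (w n ω, Θ n ω)) ∧ (∀ ω ∈ (P n).S, |ζ n ω| ≤ L n) ∧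
      ∀ a ∈ (P n).S, ∀ b ∈ (P n).S, Θ n a = Θ n b →
        ‖x n a - x n b‖ ≤ L n ∧ ‖x' n a - x' n b‖ ≤ L n) →
    Whp P (fun n ω => ‖p n ω‖ ≤ L n ∧ ‖x n ω - x' n ω - ζ n ω • p n ω‖ ≤ L n / 2 ^ R n) →
    Le R (fun n => ch (P n) (fun ω => fl (R n) (x' n ω)) (Θ n))
      (fun n => ch (P n) (fun ω => fl (R n) (x n ω)) (Θ n)) →
    Sm R (fun n => mi (P n) (fun ω => fl (R n) (x n ω)) (fun ω => (d n ω, w n ω)) (Θ n)) →
    Sm R (fun n => mi (P n) (d n) (w n) (Θ n)) →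
    Le R (fun n => R n * lg) (fun n => ch (P n) (fun ω => fl1 (R n) (ζ n ω)) (Θ n)) →
    Whp P fun n ω => ‖x n ω - x' n ω‖ ≤ Real.exp (-(c * R n)) := by
  obtain ⟨c, hc, H⟩ := ncR N h0 h1
  refine ⟨c, hc, fun d w R L hR hL hN hb hw i0 i1 i2 i3 =>
    H (g := fun _ _ => 0) (r := fun _ _ => 0) d w hR hL hN (hb.mono fun n hn =>
      ⟨hn.1.pair fun _ _ _ _ _ => rfl, Fn.pair (fun _ _ _ _ _ => rfl) hn.2.1, fun ω hω =>
        ⟨hn.2.2.1 ω hω, by simpa using (hL.pos n).le⟩, hn.2.2.2⟩)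
      (hw.mono (Eventually.of_forall fun n ω _ h => ⟨by simpa using (hL.pos n).le, h.1,
        by simpa using h.2⟩)) i0 i1 i2 i3 (Or.inr (Eventually.of_forall fun _ _ _ => rfl))⟩

theorem norm_one (s : ℝ) : ‖fun _ : Fin 1 => s‖ = |s| := by simp

theorem ch_fl_one {W β : Type} (Q : FP W) (R : ℕ) (s : W → ℝ) (G : W → β) :
    ch Q (fun v => fl R fun _ : Fin 1 => s v) G = ch Q (fun v => fl1 R (s v)) G :=
  le_antisymm (ch_mono fun _ _ _ _ e => funext fun _ => (Prod.mk.inj e).1)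
    (ch_mono fun _ _ _ _ e => congrFun (Prod.mk.inj e).1 0)

/-- The noise step for real numbers. -/
theorem nc1 {ε₀ : ℝ} (h0 : 0 < ε₀) (h1 : ε₀ ≤ 1) : ∃ c : ℝ, 0 < c ∧
    ∀ {Ω T D W : ℕ → Type} {P : ∀ n, FP (Ω n)} {Θ : ∀ n, Ω n → T n}
    {u u' g p ζ r : ∀ n, Ω n → ℝ} (d : ∀ n, Ω n → D n) (w : ∀ n, Ω n → W n) {R : ℕ → ℕ}
    {L : ℕ → ℝ}, Big R → Sub R L → NG1 P Θ u R ε₀ →
    (∀ᶠ n in UF, Fn (P n) (fun ω => (ζ n ω, g n ω)) (fun ω => (d n ω, Θ n ω)) ∧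
      Fn (P n) (fun ω => (r n ω, p n ω)) (fun ω => (w n ω, Θ n ω)) ∧
      (∀ ω ∈ (P n).S, |ζ n ω| ≤ L n ∧ |r n ω| ≤ L n) ∧
      ∀ a ∈ (P n).S, ∀ b ∈ (P n).S, Θ n a = Θ n b →
        |u n a - u n b| ≤ L n ∧ |u' n a - u' n b| ≤ L n) →
    Whp P (fun n ω => |g n ω| ≤ L n ∧ |p n ω| ≤ L n ∧
      |u n ω - u' n ω - (ζ n ω * p n ω + r n ω * g n ω)| ≤ L n / 2 ^ R n) →
    Le R (fun n => ch (P n) (fun ω => fl1 (R n) (u' n ω)) (Θ n))
      (fun n => ch (P n) (fun ω => fl1 (R n) (u n ω)) (Θ n)) →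
    Sm R (fun n => mi (P n) (fun ω => fl1 (R n) (u n ω)) (fun ω => (d n ω, w n ω)) (Θ n)) →
    Sm R (fun n => mi (P n) (d n) (w n) (Θ n)) →
    Le R (fun n => R n * lg) (fun n => ch (P n) (fun ω => fl1 (R n) (ζ n ω)) (Θ n)) →
    (Le R (fun n => R n * lg) (fun n => ch (P n) (fun ω => fl1 (R n) (r n ω)) (Θ n)) ∨
      ∀ᶠ n in UF, ∀ ω ∈ (P n).S, g n ω = 0) →
    Whp P fun n ω => |u n ω - u' n ω| ≤ Real.exp (-(c * R n)) := by
  obtain ⟨c, hc, H⟩ := ncR 1 h0 h1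
  refine ⟨c, hc, ?_⟩
  intro Ω T D W P Θ u u' g p ζ r d w R L hR hL hN hb hw i0 i1 i2 i3 i4
  refine (H (x' := fun n ω _ => u' n ω) (g := fun n ω _ => g n ω) (p := fun n ω _ => p n ω)
    d w hR hL hN.ngr (hb.mono fun n hn => ⟨fun a ha b hb e => ?_, fun a ha b hb e => ?_,
      hn.2.2.1, fun a ha b hb e => ?_⟩) (hw.mono (Eventually.of_forall fun n ω _ h => ?_))
    (by simpa only [ch_fl_one] using i0) (by simpa only [mi, ch_fl_one] using i1) i2 i3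
    (i4.imp id fun h => h.mono fun n hn ω hω => funext fun _ => hn ω hω)).mono
      (Eventually.of_forall fun n ω _ h => (norm_one _).symm.trans_le h)
  · have := Prod.mk.inj (hn.1 a ha b hb e)
    simp only [this.1, this.2]
  · have := Prod.mk.inj (hn.2.1 a ha b hb e)
    simp only [this.1, this.2]
  · exact ⟨(norm_one _).trans_le (hn.2.2.2 a ha b hb e).1,
      (norm_one _).trans_le (hn.2.2.2 a ha b hb e).2⟩
  · exact ⟨(norm_one _).trans_le h.1, (norm_one _).trans_le h.2.1, (norm_one _).trans_le h.2.2⟩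

/-- The noise step for real numbers when `u - u' = ζ p`. -/
theorem ncP1 {ε₀ : ℝ} (h0 : 0 < ε₀) (h1 : ε₀ ≤ 1) : ∃ c : ℝ, 0 < c ∧
    ∀ {Ω T D W : ℕ → Type} {P : ∀ n, FP (Ω n)} {Θ : ∀ n, Ω n → T n}
    {u u' p ζ : ∀ n, Ω n → ℝ} (d : ∀ n, Ω n → D n) (w : ∀ n, Ω n → W n) {R : ℕ → ℕ}
    {L : ℕ → ℝ}, Big R → Sub R L → NG1 P Θ u R ε₀ →
    (∀ᶠ n in UF, Fn (P n) (ζ n) (fun ω => (d n ω, Θ n ω)) ∧
      Fn (P n) (p n) (fun ω => (w n ω, Θ n ω)) ∧ (∀ ω ∈ (P n).S, |ζ n ω| ≤ L n) ∧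
      ∀ a ∈ (P n).S, ∀ b ∈ (P n).S, Θ n a = Θ n b →
        |u n a - u n b| ≤ L n ∧ |u' n a - u' n b| ≤ L n) →
    Whp P (fun n ω => |p n ω| ≤ L n ∧ |u n ω - u' n ω - ζ n ω * p n ω| ≤ L n / 2 ^ R n) →
    Le R (fun n => ch (P n) (fun ω => fl1 (R n) (u' n ω)) (Θ n))
      (fun n => ch (P n) (fun ω => fl1 (R n) (u n ω)) (Θ n)) →
    Sm R (fun n => mi (P n) (fun ω => fl1 (R n) (u n ω)) (fun ω => (d n ω, w n ω)) (Θ n)) →
    Sm R (fun n => mi (P n) (d n) (w n) (Θ n)) →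
    Le R (fun n => R n * lg) (fun n => ch (P n) (fun ω => fl1 (R n) (ζ n ω)) (Θ n)) →
    Whp P fun n ω => |u n ω - u' n ω| ≤ Real.exp (-(c * R n)) := by
  obtain ⟨c, hc, H⟩ := nc1 h0 h1
  refine ⟨c, hc, fun d w R L hR hL hN hb hw i0 i1 i2 i3 =>
    H (g := fun _ _ => 0) (r := fun _ _ => 0) d w hR hL hN (hb.mono fun n hn =>
      ⟨hn.1.pair fun _ _ _ _ _ => rfl, Fn.pair (fun _ _ _ _ _ => rfl) hn.2.1, fun ω hω =>
        ⟨hn.2.2.1 ω hω, by simpa using (hL.pos n).le⟩, hn.2.2.2⟩)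
      (hw.mono (Eventually.of_forall fun n ω _ h => ⟨by simpa using (hL.pos n).le, h.1,
        by simpa using h.2⟩)) i0 i1 i2 i3 (Or.inr (Eventually.of_forall fun _ _ _ => rfl))⟩

end Pool.Agent.MP_5168f5_an.R4.NCx
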