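import Pool.Agent.MP_5168f5_an.R4.SpecA

/-! A polynomial of a full point of dimension three that has no full window is constant. -/

namespace Pool.Agent.MP_5168f5_an.R4.Web

open H19 H17S H17F Filter NCx Function

namespace ACon3A

theorem sub_fin {J : Type} [Fintype J] {M : ℕ → ℕ} {L : J → ℕ → ℝ} (h : ∀ j, Sub M (L j)) :
    ∃ L', Sub M L' ∧ ∀ j n, L j n ≤ L' n :=
  ⟨_, Sub.exp (Sm.sum Finset.univ fun j _ => (h j).log) fun n =>
    Finset.sum_nonneg fun j _ => Real.log_nonneg ((h j).1 n), fun j n =>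
    (Real.log_le_iff_le_exp ((h j).pos n)).1 (Finset.single_le_sum
      (f := fun j => Real.log (L j n)) (fun j _ => Real.log_nonneg ((h j).1 n))
      (Finset.mem_univ j))⟩

open Classical in
/-- The coefficients of a polynomial function. -/
noncomputable def co (d : ℕ) (f : ℝ → ℝ) : Fin (d + 1) → ℝ := if h : P1 d f then h.choose else 0

/-- The nodes. -/
noncomputable def nd {d : ℕ} (a : Fin (d + 1)) : ℝ := ((a : ℕ) : ℝ) / (d + 1)

/-- The statement `PC` with its constant. -/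
def PK (d : ℕ) (K : ℝ) : Prop := ∀ (c : Fin (d + 1) → ℝ) (ε : ℝ),
  (∀ a : Fin (d + 1), |∑ j, c j * nd a ^ (j : ℕ)| ≤ ε) → ∀ j, |c j| ≤ K * ε

variable {d : ℕ} {f g : ℝ → ℝ} {K B ε : ℝ} {F : V 3 → ℝ}

theorem co_eq (h : P1 d f) (s : ℝ) : f s = ∑ j, co d f j * s ^ (j : ℕ) := by
  rw [co, dif_pos h]
  exact h.choose_spec s

theorem nd_le (a : Fin (d + 1)) : |nd a| ≤ 1 := by
  rw [nd, abs_of_nonneg (by positivity), div_le_one (by positivity)]
  exact_mod_cast a.is_lt.le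

theorem sum_single (e s : ℝ) :
    ∑ j : Fin (d + 1), (Pi.single 0 e : Fin (d + 1) → ℝ) j * s ^ (j : ℕ) = e := by
  simp [Pi.single_apply]

theorem p1_const (e : ℝ) : P1 d fun _ => e := ⟨Pi.single 0 e, fun s => (sum_single e s).symm⟩

theorem p1_sub (h : P1 d f) (h' : P1 d g) : P1 d fun s => f s - g s := by
  obtain ⟨c, hc⟩ := h
  obtain ⟨c', hc'⟩ := h'
  exact ⟨c - c', fun s => by simp only [hc, hc', Pi.sub_apply, sub_mul, Finset.sum_sub_distrib]⟩

theorem p3_up (h : P3 d F) (i : Fin 3) (a : ℝ) : P3 d fun w => F (update w i a) := fun j z => by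
  by_cases e : j = i
  · subst e
    simpa only [update_idem] using p1_const (d := d) (F (update z j a))
  · simpa only [update_comm e] using h j (update z i a)

theorem sum_le {c : Fin (d + 1) → ℝ} {s : ℝ} (hB : 1 ≤ B) (hs : |s| ≤ B) (hc : ∀ j, |c j| ≤ ε) :
    |∑ j, c j * s ^ (j : ℕ)| ≤ (d + 1) * (B ^ d * ε) := by
  refine (Finset.abs_sum_le_sum_abs _ _).trans
    ((Finset.sum_le_card_nsmul _ _ (B ^ d * ε) fun j _ => ?_).trans (by simp))
  rw [abs_mul, abs_pow, mul_comm]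
  exact mul_le_mul ((pow_le_pow_left₀ (abs_nonneg s) hs j).trans (pow_le_pow_right₀ hB j.is_le))
    (hc j) (abs_nonneg _) (by positivity)

theorem ext1 (hK : PK d K) (hf : P1 d f) (hB : 1 ≤ B) {s : ℝ} (hs : |s| ≤ B)
    (h : ∀ a : Fin (d + 1), |f (nd a)| ≤ ε) : |f s| ≤ (d + 1) * (B ^ d * K) * ε := by
  rw [co_eq hf, mul_assoc, mul_assoc]
  exact sum_le hB hs (hK _ _ fun a => co_eq hf _ ▸ h a)

theorem step (hK : PK d K) (hF : P3 d F) (hB : 1 ≤ B) (i : Fin 3) {w : V 3} (hw : |w i| ≤ B)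
    (h : ∀ a : Fin (d + 1), |F (update w i (nd a))| ≤ ε) :
    |F w| ≤ (d + 1) * (B ^ d * K) * ε := by
  simpa only [update_eq_self] using ext1 hK (hF i w) hB hw h

theorem ext3 (hK : PK d K) (hF : P3 d F) (hB : 1 ≤ B)
    (h : ∀ w : V 3, (∀ i, |w i| ≤ 1) → |F w| ≤ ε) {w : V 3} (hw : ∀ i, |w i| ≤ B) :
    |F w| ≤ ((d + 1) * (B ^ d * K)) ^ 3 * ε := by
  rw [pow_three, mul_assoc _ _ ε, mul_assoc (_ * _) _ ε]
  refine step hK hF hB 0 (hw 0) fun a => step hK hF hB 1 (by simpa using hw 1) fun b =>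
    step hK hF hB 2 (by simpa using hw 2) fun c => h _ fun i => ?_
  fin_cases i <;> simp [nd_le]

theorem coef (hK : PK d K) (hf : P1 d f) {e : ℝ} (h : ∀ a : Fin (d + 1), |f (nd a) - e| ≤ ε)
    {j : Fin (d + 1)} (hj : j ≠ 0) : |co d f j| ≤ K * ε := by
  have := hK (co d f - Pi.single 0 e) ε (fun a => by
    simpa only [Pi.sub_apply, sub_mul, Finset.sum_sub_distrib, sum_single, ← co_eq hf] using h a) j
  rwa [Pi.sub_apply, Pi.single_eq_of_ne hj, sub_zero] at this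

theorem dif (hf : P1 d f) (h0 : 0 ≤ ε) (h : ∀ j, j ≠ 0 → |co d f j| ≤ ε) {s : ℝ} (hs : |s| ≤ 1) :
    |f s - f 0| ≤ (d + 1) * ε := by
  have := sum_le (c := co d f - Pi.single 0 (f 0)) (ε := ε) le_rfl hs fun j => by
    by_cases e : j = 0
    · rw [e, co_eq hf 0]
      simpa [Fin.sum_univ_succ] using h0
    · rw [Pi.sub_apply, Pi.single_eq_of_ne e, sub_zero]
      exact h j e
  simpa only [Pi.sub_apply, sub_mul, Finset.sum_sub_distrib, sum_single, ← co_eq hf, one_pow,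
    one_mul] using this

theorem one (hK : PK d K) (h1 : 1 ≤ K) (hD : DenP) (hS : Spr3) {Ω Γ Γ' T : ℕ → Type}
    {P : ∀ n, FP (Ω n)} {u x y z : RV Ω} {Θ : ∀ n, Ω n → T n} {G : ∀ n, Ω n → Γ n}
    {F : ∀ n, Ω n → V 3 → ℝ} {M R k : ℕ → ℕ} {L : ℕ → ℝ} {ε₀ : ℝ} (hM : Big M) (hR : Frac R M)
    (hk : ∀ n, k n ≤ R n) (hL : Sub M L) (h0 : 0 < ε₀) (hN : NG1 P Θ u R ε₀) (gx : Grid P x M)
    (gy : Grid P y M) (gz : Grid P z M) (fx : Ful P x (fun n ω => (y n ω, z n ω, G n ω)) M)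
    (fy : Ful P y (fun n ω => (z n ω, x n ω, G n ω)) M)
    (fz : Ful P z (fun n ω => (x n ω, y n ω, G n ω)) M)
    (hF : ∀ᶠ n in UF, Fn (P n) (F n) (G n) ∧ Fn (P n) (Θ n) (G n) ∧ ∀ ω ∈ (P n).S, P3 d (F n ω))
    (hW : Whp P fun n ω => |u n ω - F n ω ![x n ω, y n ω, z n ω]| ≤ L n / 2 ^ k n ∧
      ∀ w : V 3, (∀ i, |w i| ≤ 1) → |F n ω w - F n ω 0| ≤ L n) (i : Fin 3)
    {G' : ∀ n, Ω n → Γ' n} (fi : Ful P (fun n ω => (![x n ω, y n ω, z n ω] : V 3) i) G' M)
    (e1 : ∀ n, Fn (P n) (G n) (G' n))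
    (e2 : ∀ n, Fn (P n) (fun ω => update (![x n ω, y n ω, z n ω] : V 3) i) (G' n)) :
    ∃ L', Sub M L' ∧ Whp P fun n ω => ∀ w : V 3, (∀ i, |w i| ≤ 1) →
      |F n ω w - F n ω (update w i 0)| ≤ L' n / 2 ^ k n := by
  obtain ⟨Lx, sx, bx⟩ := id gx
  obtain ⟨Ly, sy, b_y⟩ := id gy
  obtain ⟨Lz, sz, bz⟩ := id gz
  have d1 : (1 : ℝ) ≤ d + 1 := by simp
  have sB := (sx.add sy hM).add sz hM
  set B := fun n => Lx n + Ly n + Lz n with hB
  have hp : ∀ᶠ n in UF, ∀ ω ∈ (P n).S, ∀ j, |(![x n ω, y n ω, z n ω] : V 3) j| ≤ B n := by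
    filter_upwards [bx, b_y, bz] with n a b c ω hω j
    have h : 0 < Lx n ∧ 0 < Ly n ∧ 0 < Lz n := ⟨sx.pos n, sy.pos n, sz.pos n⟩
    fin_cases j
    · exact (a.2 ω hω).trans (by linarith [h.2.1, h.2.2])
    · exact (b.2 ω hω).trans (by linarith [h.1, h.2.2])
    · exact (c.2 ω hω).trans (by linarith [h.1, h.2.1])
  have sC := (((((sB.pow d).mul (hM.sub h1)).const_mul hM d1).pow 3).mul hL).const_mul hM h1
  obtain ⟨L1, s1, w1⟩ := hD d P u (fun n ω => (![x n ω, y n ω, z n ω] : V 3) i) Θ G'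
    (fun n ω => co d fun s => F n ω (update ![x n ω, y n ω, z n ω] i s)) M R k _ ε₀ hM hR hk
    ((sC.add sB hM).add hL hM) h0 hN
    (by
      filter_upwards [hF, hp] with n a b
      refine ⟨fun v hv v' hv' q => ?_, a.2.1.trans (e1 n), fun ω hω => (b ω hω i).trans ?_⟩
      · have q1 := e2 n v hv v' hv' q
        simp only at q1
        simp only [q1, a.1 v hv v' hv' (e1 n v hv v' hv' q)]
      · linarith [sC.pos n, hL.pos n]) fi
    (hW.mono (by
      filter_upwards [hF, hp] with n a b ω hω c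
      have h3 := a.2.2 ω hω
      refine ⟨?_, fun j hj => (coef hK (h3 i _) (e := F n ω 0) (fun t =>
        ext3 hK (F := fun w => F n ω w - F n ω 0) (fun j z => p1_sub (h3 j z) (p1_const _))
          (sB.1 n) c.2 fun m => ?_) hj).trans ?_⟩
      · rw [← co_eq (h3 i _), update_eq_self]
        refine c.1.trans (div_le_div_of_nonneg_right ?_ (by positivity))
        linarith [sC.pos n, sB.pos n]
      · by_cases q : m = i
        · rw [q, update_self]
          exact (nd_le t).trans (sB.1 n)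
        · rw [update_of_ne q]
          exact b ω hω m
      · linarith [sB.pos n, hL.pos n]))
  choose L2 s2 w2 using fun a : Fin (d + 1) => hS d P x y z G
    (fun n ω w => F n ω (update w i (nd a)) - F n ω (update w i 0)) M hM gx gy gz fx fy fz
    (hF.mono fun n q => ⟨fun v hv v' hv' r => by simp only [q.1 v hv v' hv' r], fun ω hω j z =>
      p1_sub (p3_up (q.2.2 ω hω) i _ j z) (p3_up (q.2.2 ω hω) i _ j z)⟩)
  obtain ⟨L3, s3, l3⟩ := sub_fin s2
  refine ⟨_, (s3.mul (s1.const_mul hM d1)).const_mul hM (C := (d + 1) * (1 ^ d * K))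
    (by rw [one_pow, one_mul]; nlinarith), (w1.and (Whp.all w2)).mono (hF.mono
      fun n a ω hω c w hw => ?_)⟩
  have h3 := a.2.2 ω hω
  have l1 := s1.pos n
  have := ext1 hK (p1_sub (h3 i w) (p1_const (F n ω (update w i 0)))) le_rfl (hw i)
    (ε := L3 n * ((d + 1) * (L1 n / 2 ^ k n))) fun t => (c.2 t w hw).trans
      (mul_le_mul (l3 t n) (dif (h3 i _) (by positivity) c.1 (nd_le t)) (abs_nonneg _)
        (s3.pos n).le)
  rw [update_eq_self] at this
  exact this.trans_eq (by ring)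

end ACon3A

open ACon3A in
theorem rowCon3 : OfCon3 := by
  intro hC hD hS d Ω Γ T P u x y z Θ G F M R k L ε₀ hM hR hk hL h0 hN gx gy gz fx fy fz hF hW
  obtain ⟨K, h1, hK⟩ := hC d
  have o := fun i => @one d K hK h1 hD hS Ω Γ (fun n => ℝ × ℝ × Γ n) T P u x y z Θ G F M R k L ε₀
    hM hR hk hL h0 hN gx gy gz fx fy fz hF hW i
  have e : ∀ (a b : RV Ω) n, Fn (P n) (G n) fun ω => (a n ω, b n ω, G n ω) := fun a b n =>
    (Fn.snd _ _).right _
  obtain ⟨L0, s0, w0⟩ := o 0 fx (e y z) fun n a _ b _ q => by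
    simp only [Prod.mk.injEq] at q
    ext s j
    fin_cases j <;> simp [q.1, q.2.1]
  obtain ⟨L1, s1, w1⟩ := o 1 fy (e z x) fun n a _ b _ q => by
    simp only [Prod.mk.injEq] at q
    ext s j
    fin_cases j <;> simp [q.1, q.2.1]
  obtain ⟨L2, s2, w2⟩ := o 2 fz (e x y) fun n a _ b _ q => by
    simp only [Prod.mk.injEq] at q
    ext s j
    fin_cases j <;> simp [q.1, q.2.1]
  refine ⟨_, (s0.add s1 hM).add s2 hM, (w0.and (w1.and w2)).mono
    (Eventually.of_forall fun n ω _ c w hw => ?_)⟩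
  have a0 := c.1 w hw
  have a1 := c.2.1 (update w 0 0) fun j => by fin_cases j <;> simp [hw]
  have a2 := c.2.2 (update (update w 0 0) 1 0) fun j => by fin_cases j <;> simp [hw]
  rw [show update (update (update w 0 0) 1 0) 2 0 = 0 by ext j; fin_cases j <;> simp] at a2
  rw [add_div, add_div]
  linarith [abs_sub_le (F n ω w) (F n ω (update w 0 0)) (F n ω 0),
    abs_sub_le (F n ω (update w 0 0)) (F n ω (update (update w 0 0) 1 0)) (F n ω 0)]

end Pool.Agent.MP_5168f5_an.R4.Web
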