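import Pool.Agent.MP_5168f5_an.R4.SpecA

/-! Conditionally independent copies. -/

namespace Pool.Agent.MP_5168f5_an.R4.Web

open H19 H17S H17F Filter

namespace ACopA

variable {Ω W ι : Type} [Fintype ι]

open Classical in
/-- The product law. -/
noncomputable def pw (ι : Type) [Fintype ι] (Q : FP Ω) : FP (ι → Ω) where
  S := Fintype.piFinset fun _ => Q.S
  p := fun f => ∏ i, Q.p (f i)
  pos := fun _ hf => Finset.prod_pos fun i _ => Q.pos _ (Fintype.mem_piFinset.1 hf i)
  sum_one := by
    rw [← Finset.prod_univ_sum (fun _ : ι => Q.S) fun _ a => Q.p a]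
    simp [Q.sum_one]

theorem E_pw (Q : FP Ω) (F : ι → Ω → ℝ) :
    (pw ι Q).E (fun f => ∏ i, F i (f i)) = ∏ i, Q.E (F i) := by
  classical
  simp only [FP.E, pw, ← Finset.prod_mul_distrib]
  exact (Finset.prod_univ_sum (fun _ : ι => Q.S) fun i a => Q.p a * F i a).symm

theorem E_mul' (P : FP Ω) (F : Ω → ℝ) (c : ℝ) : P.E (fun ω => F ω * c) = P.E F * c := by
  simp only [mul_comm _ c, FP.E_mul]

open Classical in
theorem expand (Q : FP W) (ω : ι → W → Ω) (F : (ι → Ω) → ℝ) {A : Finset (ι → Ω)}
    (h : ∀ v ∈ Q.S, (fun i => ω i v) ∈ A) : Q.E (fun v => F fun i => ω i v) =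
      ∑ a ∈ A, F a * Q.E fun v => ∏ i, if ω i v = a i then 1 else 0 := by
  simp only [← FP.E_mul, ← FP.E_sum]
  refine Q.E_congr fun v hv => ?_
  rw [Finset.sum_eq_single_of_mem _ (h v hv) fun a _ ha => ?_]
  · simp
  · obtain ⟨i, hi⟩ := Function.ne_iff.1 ha
    rw [Finset.prod_eq_zero (Finset.mem_univ i) (if_neg hi.symm), mul_zero]

end ACopA

open ACopA in
theorem rowKCop : KCop where
  ex := fun ι _ P S => ⟨_, bind P fun x => pw ι (cv P S (S x)), fun i v => v.2 i, fun F => by
    simp only [E_bind, E_pw]⟩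
  sub := fun P S Q ω σ hσ h F => by
    have e := h (Function.extend σ F fun _ _ => 1)
    refine ((Q.E_congr fun v _ => ?_).trans e).trans (P.E_congr fun x _ => Eq.symm ?_)
    all_goals
      refine Fintype.prod_of_injective σ hσ _ _ (fun i hi => ?_) fun i => by rw [hσ.extend_apply]
      rw [Function.extend_apply' _ _ _ hi]
    exact FP.E_const _ 1
  law := fun P S Q Q' ω ω' h h' F => by
    classical
    rw [expand Q ω F (A := (Q.S.image fun v i => ω i v) ∪ Q'.S.image fun v i => ω' i v)
      fun v hv => Finset.mem_union_left _ (Finset.mem_image_of_mem _ hv), expand Q' ω' F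
      fun v hv => Finset.mem_union_right _ (Finset.mem_image_of_mem _ hv)]
    exact Finset.sum_congr rfl fun a _ => congrArg _
      ((h fun i x => if x = a i then 1 else 0).trans (h' fun i x => if x = a i then 1 else 0).symm)
  g3 := fun P S F => by
    simp only [G3, glue, E_bind, Fin.prod_univ_three, sl, Matrix.cons_val, FP.E_mul, E_mul']
    rw [ke.exp P S fun s x => F 0 x * (cv P S s).E (F 1) * (cv P S s).E (F 2)]
    simp only [E_mul']
  g4 := fun P S F => by
    simp only [G4, G3, glue, E_bind, Fin.prod_univ_four, Matrix.cons_val, FP.E_mul, E_mul']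
    rw [ke.exp P S fun s x =>
      F 0 x * (cv P S s).E (F 1) * (cv P S s).E (F 2) * (cv P S s).E (F 3)]
    simp only [E_mul']

end Pool.Agent.MP_5168f5_an.R4.Web
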