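import Pool.Agent.MP_5168f5_an.R4.SpecA

/-! A variable attached to a cell is replaced by a function of the cell. -/

namespace Pool.Agent.MP_5168f5_an.R4.Web

open H19 H17S H17F Filter

namespace ADerA

variable {Ω W β : Type}

theorem pb_exp (P : FP Ω) (φ : Ω → β) (E : β → Ω → Prop) :
    pb P (fun ω => E (φ ω) ω) = P.E fun ω => pb (cv P φ (φ ω)) (E (φ ω)) :=
  ke.exp P φ fun s ω => @ite ℝ (E s ω) (Classical.propDecidable _) 1 0

theorem pb_glue (Q : FP W) (P : FP Ω) (φ : W → β) (ψ : Ω → β) (E : W × Ω → Prop) :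
    pb (glue Q P φ ψ) E = Q.E fun x => pb (cv P ψ (φ x)) fun y => E (x, y) := E_bind _ _ _

theorem mark (P : FP Ω) {f : Ω → ℝ} {δ : ℝ} (hδ : 0 < δ) (h0 : ∀ ω, 0 ≤ f ω)
    (h : P.E f ≤ δ ^ 2) : pb P (fun ω => ¬f ω ≤ δ) ≤ δ := by
  have h1 : δ * pb P (fun ω => ¬f ω ≤ δ) ≤ P.E f := by
    rw [pb, ← FP.E_mul]
    refine P.E_mono fun ω _ => ?_
    split_ifs with k
    · simpa using h0 ω
    · simpa using (not_le.1 k).le
  nlinarith

theorem le_add (P : FP Ω) {f : Ω → ℝ} {E : Ω → Prop} {δ : ℝ} (hδ : 0 ≤ δ) (h1 : ∀ ω, f ω ≤ 1)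
    (h : ∀ ω ∈ P.S, E ω → f ω ≤ δ) : P.E f ≤ pb P (fun ω => ¬E ω) + δ := by
  rw [pb, ← P.E_const δ, ← FP.E_add]
  refine P.E_mono fun ω hω => ?_
  by_cases k : E ω
  · rw [if_neg (not_not.2 k), zero_add]
    exact h ω hω k
  · rw [if_pos k]
    linarith [h1 ω]

theorem small {a : ℕ → ℝ} (h : ∀ ε : ℝ, 0 < ε → ∀ᶠ n in UF, a n ≤ ε) (ε : ℝ) (hε : 0 < ε) :
    ∀ᶠ n in UF, √(a n) + 1 / (n + 1) ≤ ε := by
  filter_upwards [h ((ε / 2) ^ 2) (by positivity), ev_ge ⌈2 / ε⌉₊] with n k1 k2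
  have h1 : √(a n) ≤ ε / 2 := Real.sqrt_le_iff.2 ⟨by positivity, k1⟩
  have h2 : 2 / ε ≤ n := Nat.ceil_le.1 k2
  have h3 : (1 : ℝ) / (n + 1) ≤ ε / 2 := by
    rw [div_le_iff₀ hε] at h2
    rw [div_le_div_iff₀ (by positivity) two_pos]
    linarith
  linarith

end ADerA

open ADerA Classical in
theorem rowDer : OfDer := by
  intro hC Ω W T U D _ P Q θ S π C Φ M hM hl hθ hi hw
  have hl' : ∀ n, Law (Q n) (fun v => S n (π n v)) (P n) (S n) := fun n => (hl n).comp (S n)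
  set b : ∀ n, D n → U n → ℝ := fun n c s => pb (cv (P n) (S n) s) fun y => ¬Φ n c y with hb
  set δ : ℕ → ℝ := fun n => √(pb (glue (Q n) (P n) (fun v => S n (π n v)) (S n))
    fun v => ¬Φ n (C n v.1) v.2) + 1 / (n + 1) with hδ
  have δ0 : ∀ n, 0 < δ n := fun n => by positivity
  have δ1 : ∀ ε : ℝ, 0 < ε → ∀ᶠ n in UF, δ n ≤ ε := small hw
  obtain ⟨L, Tl, hL, hT, hE⟩ := hC P (fun n => glue (Q n) (P n) (fun v => S n (π n v)) (S n))
    (fun _ => Prod.snd) (fun n v => C n v.1) θ (fun n c ω => b n c (S n ω) ≤ δ n) M hM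
    (fun n => kg.snd _ _ _ _ (hl' n))
    (hi.mono (hθ.mono fun n h => by
      have e : ∀ v ∈ (glue (Q n) (P n) (fun v => S n (π n v)) (S n)).S,
          θ n v.2 = θ n (π n v.1) := fun v hv => by
        obtain ⟨a1, a2, a3⟩ := (kg.mem _ _ _ _ v (hl' n)).1 hv
        exact h _ a2 _ ((hl n).mem a1) a3
      have e1 : ch (glue (Q n) (P n) (fun v => S n (π n v)) (S n)) (fun v => C n v.1)
          (fun v => θ n v.2) = ch (Q n) (C n) fun x => θ n (π n x) :=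
        (ch_ext (fun _ _ => rfl) e).trans ((kg.fst _ _ _ _).ch_id (C n) fun x => θ n (π n x))
      have e2 : ch (glue (Q n) (P n) (fun v => S n (π n v)) (S n)) (fun v => C n v.1)
          (fun v => (v.2, θ n v.2)) = ch (Q n) (C n) fun x => (S n (π n x), θ n (π n x)) :=
        (ch_ext (fun _ _ => rfl) fun v hv => congrArg (Prod.mk v.2) (e v hv)).trans
          (kg.mkv' _ _ _ _ (C n) (fun x => θ n (π n x)) id (hl' n) (Fn.comp (S n) id))
      exact (congrArg₂ (· - ·) e1 e2).le))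
    fun ε hε => (δ1 ε hε).mono fun n h => by
      refine le_trans ?_ h
      rw [pb_congr (F := fun v => ¬b n (C n v.1) (S n (π n v.1)) ≤ δ n) fun v hv => by
        simp only [((kg.mem _ _ _ _ v (hl' n)).1 hv).2.2]]
      refine ((kg.fst _ _ _ _).pb_eq fun x => ¬b n (C n x) (S n (π n x)) ≤ δ n).trans_le
        (mark (Q n) (δ0 n) (fun _ => pb_nonneg _ _) ?_)
      refine (pb_glue (Q n) (P n) (fun v => S n (π n v)) (S n)
        fun v => ¬Φ n (C n v.1) v.2).symm.trans_le ((Real.sq_sqrt (pb_nonneg _ _)).symm.trans_le ?_)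
      exact pow_le_pow_left₀ (Real.sqrt_nonneg _) (le_add_of_nonneg_right (by positivity)) 2
  have hc : ∀ n (s : U n), ∃ c : D n,
      (c = Classical.arbitrary _ ∨ ∃ ω ∈ (P n).S, S n ω = s ∧ c ∈ Tl n (θ n ω)) ∧
      ∀ ω ∈ (P n).S, S n ω = s → (∃ c ∈ Tl n (θ n ω), b n c s ≤ δ n) → b n c s ≤ δ n := by
    intro n s
    by_cases k : ∃ ω ∈ (P n).S, S n ω = s ∧ ∃ c ∈ Tl n (θ n ω), b n c s ≤ δ n
    · obtain ⟨ω, a1, a2, c, a3, a4⟩ := k
      exact ⟨c, Or.inr ⟨ω, a1, a2, a3⟩, fun _ _ _ _ => a4⟩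
    · exact ⟨_, Or.inl rfl, fun ω a1 a2 a3 => absurd ⟨ω, a1, a2, a3⟩ k⟩
  choose c c1 c2 using hc
  refine ⟨fun n ω => c n (S n ω), Eventually.of_forall fun n => Fn.comp _ _,
    (hL.add (hM.sub le_rfl) hM).log.mono (hθ.mono fun n h => ch_det fun a ha =>
      ⟨insert (Classical.arbitrary _) (Tl n (θ n a)), ?_, fun ω hω e => ?_⟩), fun ε hε => ?_⟩
  · have h1 : ((insert (Classical.arbitrary _) (Tl n (θ n a))).card : ℝ)
        ≤ (Tl n (θ n a)).card + 1 := by exact_mod_cast Finset.card_insert_le _ _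
    linarith [hT n (θ n a)]
  · rcases c1 n (S n ω) with k | ⟨ω', a1, a2, a3⟩
    · exact Finset.mem_insert.2 (Or.inl k)
    · exact Finset.mem_insert_of_mem (by rwa [← e, ← h _ a1 _ hω a2])
  · filter_upwards [hE _ (half_pos hε), δ1 _ (half_pos hε)] with n k1 k2
    rw [pb_exp (P n) (S n) fun s ω => ¬Φ n (c n s) ω]
    have := le_add (P n) (f := fun ω => b n (c n (S n ω)) (S n ω)) (δ0 n).le
      (fun _ => pb_le_one _ _) fun ω hω k => c2 n _ ω hω rfl k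
    linarith

end Pool.Agent.MP_5168f5_an.R4.Web
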