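import Pool.Agent.MP_5168f5_an.R4.SpecA

/-! Row AFrE: the potential in the frame of three copies exists. -/

namespace Pool.Agent.MP_5168f5_an.R4.Web

open H19 H17S H17F Filter NCx Matrix

namespace AFrEA

theorem ch_cut {Ω α β : Type} (P : FP Ω) (E : Ω → Prop) {F : Ω → α} {d : α} (G : Ω → β)
    (h : ∀ ω, ¬E ω → F ω = d) : ch P F G ≤ lg + ch (cE P E) F G := by
  have h1 := ke.le P E F G
  have h2 := mul_le_of_le_one_left (ch_nonneg (P := cE P E) F G) (pb_le_one P E)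
  by_cases k : ∃ ω ∈ P.S, ¬E ω
  · rw [ch_zero (P := cE P fun ω => ¬E ω) fun a ha b hb _ =>
      (h a ((mem_cE k a).1 ha).2).trans (h b ((mem_cE k b).1 hb).2).symm] at h1
    linarith
  · push Not at k
    rw [pb_one k] at h1
    linarith

theorem whp_cE {Ω : ℕ → Type} {P : ∀ n, FP (Ω n)} {E F : ∀ n, Ω n → Prop} (hE : Whp P E)
    (h : Whp (fun n => cE (P n) (E n)) F) : Whp P F := fun ε hε => by
  filter_upwards [hE _ (half_pos hε), h _ (half_pos hε)] with n a b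
  have h1 := pb_split (P n) (fun ω => ¬F n ω) (E n)
  have h2 := pb_cE (P n) (E n) fun ω => ¬F n ω
  have h3 : pb (P n) (fun ω => ¬F n ω ∧ E n ω) = pb (P n) fun ω => E n ω ∧ ¬F n ω :=
    pb_congr fun _ _ => and_comm
  have h4 : pb (P n) (fun ω => ¬F n ω ∧ ¬E n ω) ≤ pb (P n) fun ω => ¬E n ω :=
    pb_mono fun _ _ k => k.2
  have h5 := mul_le_of_le_one_left (pb_nonneg (cE (P n) (E n)) fun ω => ¬F n ω)
    (pb_le_one (P n) (E n))
  linarith

theorem mem3 {Ω T : Type} {P : FP Ω} {S : Ω → T} {v : (Ω × Ω) × Ω} (h : v ∈ (G3 P S).S) :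
    v.1.1 ∈ P.S ∧ v.1.2 ∈ P.S ∧ v.2 ∈ P.S := by
  have h1 := (kg.mem _ _ _ _ v ((kg.fst P P S S).comp S)).1 h
  have h2 := (kg.mem _ _ _ _ _ (Law.rfl S)).1 h1.1
  exact ⟨h2.1, h2.2.1, h1.2.1⟩

theorem mem4 {Ω T : Type} {P : FP Ω} {S : Ω → T} {v : ((Ω × Ω) × Ω) × Ω} (h : v ∈ (G4 P S).S) :
    v.2 ∈ P.S :=
  ((kg.mem _ _ _ _ v (((kg.fst (glue P P S S) P (fun v => S v.1) S).comp fun v => S v.1).trans
    ((kg.fst P P S S).comp S))).1 h).2.1

theorem rd_zero (R : ℕ) : rd R 0 = 0 := by simp [rd, fl1]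

theorem up {x a b c : ℝ} (h : x ≤ a / c) (e : a ≤ b) (hc : 0 < c := by positivity) : x ≤ b / c :=
  h.trans (div_le_div_of_nonneg_right e hc.le)

end AFrEA

open AFrEA Classical in
theorem rowFrE : OfFrE := by
  intro hS hP hN h4 h5 Ω T U Λ P γ θ S l M R ε₀ h
  have hM := h.big
  obtain ⟨L₀, hL₀, hg⟩ := h.cp
  have hO := hS P γ θ S l M R ε₀ L₀ h hL₀ hg
  obtain ⟨u, α, hW, -⟩ := id hO
  obtain ⟨k, hk, C₀, L, hL, s0, w0⟩ := hP _ _ _ _ _ _ _ _ _ _ _ _ _ _ _ _ _ _ hW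
  obtain ⟨C, hC⟩ : ∃ C : ∀ n, (Ω n × Ω n) × Ω n → Arr, ∀ n v, C n v =
      if gd (M n) (γ n) (L₀ n) v ∧ ∀ i j m, |C₀ n v i j m| ≤ L n then C₀ n v else 0 :=
    ⟨_, fun _ _ => rfl⟩
  have b : ∀ n v i j m, |C n v i j m| ≤ L n := fun n v i j m => by
    rw [hC]
    split_ifs with e
    exacts [e.2 i j m, by simpa using (hL.pos n).le]
  have s1 : Sm M fun n => ch (cE (G3 (P n) (S n)) (gd (M n) (γ n) (L₀ n))) (C n) fun v =>
      (ty (M n) (γ n) v, θ n v.1.1) :=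
    s0.mono (hg.pos.sure.mono fun n a => ch_mono fun v hv w hw e => by
      simp only [hC, (a v hv).2, (a w hw).2, show C₀ n v = C₀ n w from congrArg Prod.fst e])
  have s2 : Sm M fun n => ch (G3 (P n) (S n)) (C n) fun v => (ty (M n) (γ n) v, θ n v.1.1) :=
    ((hM.sm lg).add s1).mono (Eventually.of_forall fun n => ch_cut (d := 0) _ _ _ fun v e => by
      rw [hC, if_neg fun a => e a.1])
  obtain ⟨n1, n2⟩ := hN _ _ _ _ _ _ _ _ _ _ _ _ _ _ _ C M R k L ε₀ hW hk hL b s1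
    (w0.mono (hg.pos.sure.mono fun n a v hv e => by
      rw [hC, if_pos ⟨(a v hv).2, e.1⟩]
      exact e.2))
  obtain ⟨L', hL', w1⟩ := h4 P γ θ S l M R k ε₀ L L₀ C h hL hL₀ hk hg b s2 n1
  obtain ⟨L3, hL3, w3⟩ := h5 P γ θ S l M R ε₀ L₀ (fun n => L' n / 2 ^ k n) C
    (fun v A => dV v (dV v (dV v A))) h hL₀ hg hO s2
    (w1.mono (Eventually.of_forall fun _ _ _ e => e.2.2))
  obtain ⟨L5, hL5, w5⟩ : ∃ L5, Sub M L5 ∧ (Flat P γ → Whp (fun n => G4 (P n) (S n)) fun n v =>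
      (∀ i j m, |dV (v4 (M n) (γ n) v) (dV (v4 (M n) (γ n) v) (C n v.1)) i j m| ≤
        L5 n / 2 ^ k n) ∧ ∀ i j, |C n v.1 2 i j| ≤ L5 n / 2 ^ k n ∧
        |C n v.1 i 2 j| ≤ L5 n / 2 ^ k n ∧ |C n v.1 i j 2| ≤ L5 n / 2 ^ k n) := by
    by_cases f : Flat P γ
    · obtain ⟨L2, hL2, w2⟩ := h5 P γ θ S l M R ε₀ L₀ (fun n => L' n / 2 ^ k n) C
        (fun v A => dV v (dV v A)) h hL₀ hg hO s2 (w1.mono (f.mono fun n a v hv e => by
          simpa only [a _ (mem4 hv), mul_zero, sub_zero] using e.2.1))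
      obtain ⟨L4, hL4, w4⟩ := n2 (f.mono fun n a v hv => by
        obtain ⟨a1, a2, a3⟩ := mem3 (cE_sub hv)
        simp only [a _ a1, a _ a2, a _ a3, rd_zero, and_self])
      refine ⟨_, (hL2.mul hL').add hL4 hM, fun _ => (w2.and ((K31.dnS_law (Eventually.of_forall
        fun n => kg.fst (G3 (P n) (S n)) (P n) (fun v => S n v.1.1) (S n))).whp
          (whp_cE hg w4))).mono (Eventually.of_forall fun n v _ e => ?_)⟩
      have a1 := le_add_of_nonneg_left (a := L4 n) ((hL2.mul hL').pos n).le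
      exact ⟨fun i j m => up (by rw [mul_div_assoc]; exact e.1 i j m)
        (le_add_of_nonneg_right (hL4.pos n).le),
        fun i j => ⟨up (e.2 i j).1 a1, up (e.2 i j).2.1 a1, up (e.2 i j).2.2 a1⟩⟩
    · exact ⟨L, hL, fun a => absurd a f⟩
  have p1 := hL.pos
  have p2 := hL'.pos
  have p3 := (hL3.mul hL').pos
  have p5 := hL5.pos
  refine ⟨C, fun n => L n + L' n + L3 n * L' n + L5 n, k, hk,
    ((hL.add hL' hM).add (hL3.mul hL') hM).add hL5 hM,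
    fun n v i j m => (b n v i j m).trans (by linarith [p2 n, p3 n, p5 n]), s2,
    w1.mono (Eventually.of_forall fun n v _ e s a1 a2 =>
      up (e.1 s a1 a2) (by linarith [p1 n, p3 n, p5 n])),
    w3.mono (Eventually.of_forall fun n v _ e i j m => up (by rw [mul_div_assoc]; exact e i j m)
      (by linarith [p1 n, p2 n, p5 n])),
    fun f => (w5 f).mono (Eventually.of_forall fun n v _ e => ?_)⟩
  have a1 : L5 n ≤ L n + L' n + L3 n * L' n + L5 n := by linarith [p1 n, p2 n, p3 n]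
  exact ⟨fun i j m => up (e.1 i j m) a1,
    fun i j => ⟨up (e.2 i j).1 a1, up (e.2 i j).2.1 a1, up (e.2 i j).2.2 a1⟩⟩

end Pool.Agent.MP_5168f5_an.R4.Web
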