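import Pool.Agent.MP_5168f5_an.R4.SpecA

/-! Deterministic bounds for the polynomials `tv` and `psi`. -/

namespace Pool.Agent.MP_5168f5_an.R4.Web

open H19 H17S H17F Filter NCx Matrix

namespace AKDA

/-- Polynomial functions of bounded degree. -/
def Qd (d : ℕ) (f : ℝ → ℝ) : Prop :=
  ∃ p : Polynomial ℝ, p.natDegree ≤ d ∧ ∀ s, f s = p.eval s

theorem Qd.p1 {d : ℕ} {f : ℝ → ℝ} (h : Qd d f) : P1 d f := by
  obtain ⟨p, hp, hf⟩ := h
  refine ⟨fun j => p.coeff j, fun s => ?_⟩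
  rw [hf, Polynomial.eval_eq_sum_range' (Nat.lt_succ_of_le hp),
    Finset.sum_range (fun i => p.coeff i * s ^ i)]

theorem Qd.mono {d e : ℕ} {f : ℝ → ℝ} (h : Qd d f) (hde : d ≤ e) : Qd e f := by
  obtain ⟨p, hp, hf⟩ := h
  exact ⟨p, hp.trans hde, hf⟩

theorem qd_const (c : ℝ) : Qd 0 fun _ => c :=
  ⟨Polynomial.C c, by simp, fun s => by simp⟩

theorem qd_id : Qd 1 fun s => s :=
  ⟨Polynomial.X, by simp, fun s => by simp⟩

theorem Qd.add {d : ℕ} {f g : ℝ → ℝ} (h : Qd d f) (h' : Qd d g) : Qd d fun s => f s + g s := by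
  obtain ⟨p, hp, hf⟩ := h
  obtain ⟨q, hq, hg⟩ := h'
  exact ⟨p + q, (Polynomial.natDegree_add_le _ _).trans (max_le hp hq), fun s => by
    simp [hf, hg]⟩

theorem Qd.mul {d e : ℕ} {f g : ℝ → ℝ} (h : Qd d f) (h' : Qd e g) :
    Qd (d + e) fun s => f s * g s := by
  obtain ⟨p, hp, hf⟩ := h
  obtain ⟨q, hq, hg⟩ := h'
  exact ⟨p * q, Polynomial.natDegree_mul_le.trans (add_le_add hp hq), fun s => by
    simp [hf, hg]⟩

theorem Qd.sum3 {d : ℕ} {f : Fin 3 → ℝ → ℝ} (h : ∀ i, Qd d (f i)) :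
    Qd d fun s => ∑ i, f i s := by
  simp only [Fin.sum_univ_three]
  exact ((h 0).add (h 1)).add (h 2)

theorem Qd.pow3 {f : ℝ → ℝ} (h : Qd 1 f) (i : Fin 3) : Qd 2 fun s => f s ^ (i : ℕ) := by
  fin_cases i
  · simpa using (qd_const 1).mono (Nat.zero_le 2)
  · simpa using h.mono (by norm_num : 1 ≤ 2)
  · simpa [pow_two] using h.mul h

theorem Qd.dot {d e : ℕ} {f g : ℝ → V 3} (h : ∀ i, Qd d fun s => f s i)
    (h' : ∀ i, Qd e fun s => g s i) : Qd (d + e) fun s => f s ⬝ᵥ g s :=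
  Qd.sum3 (f := fun i s => f s i * g s i) fun i => (h i).mul (h' i)

theorem qd_tv (C : Arr) {w : ℝ → V 3} (h : ∀ i, Qd 1 fun s => w s i) :
    Qd 6 fun s => tv C (w s) := by
  unfold tv tq
  refine Qd.sum3 fun i => Qd.sum3 fun j => Qd.sum3 fun k => ?_
  exact (((qd_const (C i j k)).mul ((h 0).pow3 i)).mul ((h 1).pow3 j)).mul ((h 2).pow3 k)

theorem qd_quad (q : M3) {w : ℝ → V 3} (h : ∀ i, Qd 1 fun s => w s i) :
    Qd 2 fun s => w s ⬝ᵥ q *ᵥ w s :=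
  Qd.dot (d := 1) (e := 1) h fun i =>
    Qd.dot (d := 0) (e := 1) (f := fun _ => q i) (fun j => qd_const (q i j)) h

theorem qd_psi (p : Pq) (q : M3) {w : ℝ → V 3} (h : ∀ i, Qd 1 fun s => w s i) :
    Qd 4 fun s => psi p q (w s) := by
  unfold psi pq
  have hl : ∀ m : V 3, Qd 1 fun s => m ⬝ᵥ w s := fun m =>
    Qd.dot (d := 0) (e := 1) (f := fun _ => m) (fun j => qd_const (m j)) h
  have hq := qd_quad q h
  refine ((((((qd_const p.1).mono (by norm_num)).add ((hl _).mono (by norm_num))).add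
    ((qd_quad p.2.2.1 h).mono (by norm_num))).add ((hq.mul (hl _)).mono (by norm_num))).add ?_)
  simpa only [pow_two] using (qd_const p.2.2.2.2).mul (hq.mul hq)

theorem qd_upd (z : V 3) (i j : Fin 3) : Qd 1 fun s => Function.update z i s j := by
  by_cases hj : j = i
  · subst hj
    simpa using qd_id
  · simpa [Function.update_of_ne hj] using (qd_const (z j)).mono (Nat.zero_le 1)

theorem qd_line (x v : V 3) (j : Fin 3) : Qd 1 fun s => (x + s • v) j := by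
  have := ((qd_const (x j)).mono (Nat.zero_le 1)).add (qd_id.mul (qd_const (v j)))
  simpa using this

theorem tv3 (C : Arr) : P3 2 (tv C) := by
  intro i z
  fin_cases i
  · refine ⟨fun a => ∑ j, ∑ k, C a j k * z 1 ^ (j : ℕ) * z 2 ^ (k : ℕ), fun s => ?_⟩
    simp [tv, tq, Fin.sum_univ_three]
    ring
  · refine ⟨fun a => ∑ j, ∑ k, C j a k * z 0 ^ (j : ℕ) * z 2 ^ (k : ℕ), fun s => ?_⟩
    simp [tv, tq, Fin.sum_univ_three]
    ring
  · refine ⟨fun a => ∑ j, ∑ k, C j k a * z 0 ^ (j : ℕ) * z 1 ^ (k : ℕ), fun s => ?_⟩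
    simp [tv, tq, Fin.sum_univ_three]
    ring

theorem d1_bd {L : ℝ} {c : Fin 3 → ℝ} (h : ∀ a, |c a| ≤ L) (i : Fin 3) : |d1 c i| ≤ 2 * L := by
  have hL : 0 ≤ L := (abs_nonneg _).trans (h 0)
  fin_cases i
  · have := h 1
    simp only [d1]
    simp
    linarith
  · have := h 2
    simp only [d1]
    simp [abs_mul]
    linarith
  · simp only [d1]
    simp
    linarith

theorem mul_bd {a b A B : ℝ} (ha : |a| ≤ A) (hb : |b| ≤ B) : |a * b| ≤ A * B := by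
  rw [abs_mul]
  exact mul_le_mul ha hb (abs_nonneg _) ((abs_nonneg _).trans ha)

theorem dv (L : ℝ) (v : V 3) (C : Arr) (hv : ∀ i, |v i| ≤ L) (hC : ∀ i j m, |C i j m| ≤ L)
    (i j m : Fin 3) : |dV v C i j m| ≤ 6 * L ^ 2 := by
  unfold dV
  have h0 := mul_bd (hv 0) (d1_bd (c := fun a => C a j m) (fun a => hC a j m) i)
  have h1 := mul_bd (hv 1) (d1_bd (c := fun a => C i a m) (fun a => hC i a m) j)
  have h2 := mul_bd (hv 2) (d1_bd (c := fun a => C i j a) (fun a => hC i j a) m)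
  refine (abs_add_three _ _ _).trans ?_
  nlinarith

theorem arr (hPC : PC) : ∃ K : ℝ, 1 ≤ K ∧ ∀ (C : Arr) (ε : ℝ),
    (∀ z : V 3, (∀ i, |z i| ≤ 1) → |tv C z| ≤ ε) → ∀ i j m, |C i j m| ≤ K * ε := by
  obtain ⟨K, hK, h⟩ := hPC 2
  refine ⟨K * K * K, one_le_mul_of_one_le_of_one_le (one_le_mul_of_one_le_of_one_le hK hK) hK,
    fun C ε hC i j m => ?_⟩
  have hn : ∀ a : Fin (2 + 1), |((a : ℕ) : ℝ) / (((2 : ℕ) : ℝ) + 1)| ≤ 1 := by
    intro a
    fin_cases a <;> norm_num [abs_le]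
  have h1 : ∀ y z : ℝ, |y| ≤ 1 → |z| ≤ 1 → ∀ i : Fin 3,
      |∑ j : Fin 3, (∑ k : Fin 3, C i j k * z ^ (k : ℕ)) * y ^ (j : ℕ)| ≤ K * ε := by
    intro y z hy hz
    refine h (fun i => ∑ j : Fin 3, (∑ k : Fin 3, C i j k * z ^ (k : ℕ)) * y ^ (j : ℕ)) ε
      fun a => ?_
    have := hC ![((a : ℕ) : ℝ) / (((2 : ℕ) : ℝ) + 1), y, z] (by
      intro i
      fin_cases i
      · exact hn a
      · exact hy
      · exact hz)
    convert this using 2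
    simp [tv, tq, Fin.sum_univ_three]
    ring
  have h2 : ∀ z : ℝ, |z| ≤ 1 → ∀ j : Fin 3,
      |∑ k : Fin 3, C i j k * z ^ (k : ℕ)| ≤ K * (K * ε) := by
    intro z hz
    exact h (fun j => ∑ k : Fin 3, C i j k * z ^ (k : ℕ)) (K * ε) fun a => h1 _ z (hn a) hz i
  have h3 := h (fun k => C i j k) (K * (K * ε)) (fun a => h2 _ (hn a) j) m
  calc |C i j m| ≤ K * (K * (K * ε)) := h3
    _ = K * K * K * ε := by ring

/-- Bounded and Lipschitz. -/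
def BL (L δ : ℝ) (a : ℕ) (K u w : ℝ) : Prop :=
  |u| ≤ K * L ^ a ∧ |w| ≤ K * L ^ a ∧ |u - w| ≤ K * L ^ a * δ

variable {L δ : ℝ}

theorem BL.add {a : ℕ} {K K' u w u' w' : ℝ} (h : BL L δ a K u w) (h' : BL L δ a K' u' w') :
    BL L δ a (K + K') (u + u') (w + w') := by
  refine ⟨(abs_add_le _ _).trans (by linarith [h.1, h'.1]),
    (abs_add_le _ _).trans (by linarith [h.2.1, h'.2.1]), ?_⟩
  rw [show u + u' - (w + w') = (u - w) + (u' - w') by ring]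
  exact (abs_add_le _ _).trans (by linarith [h.2.2, h'.2.2])

theorem BL.mono (hL : 1 ≤ L) (hδ : 0 ≤ δ) {a b : ℕ} {K K' u w : ℝ} (h : BL L δ a K u w)
    (hab : a ≤ b) (hK : K ≤ K') (h0 : 0 ≤ K) : BL L δ b K' u w := by
  have : K * L ^ a ≤ K' * L ^ b :=
    mul_le_mul hK (pow_le_pow_right₀ hL hab) (by positivity) (h0.trans hK)
  exact ⟨h.1.trans this, h.2.1.trans this,
    h.2.2.trans (mul_le_mul_of_nonneg_right this hδ)⟩

theorem BL.mul {a b : ℕ} {K K' u w u' w' : ℝ} (h : BL L δ a K u w)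
    (h' : BL L δ b K' u' w') : BL L δ (a + b) (2 * (K * K')) (u * u') (w * w') := by
  have e : K * L ^ a * (K' * L ^ b) = K * K' * L ^ (a + b) := by ring
  have h1 := mul_bd h.1 h'.1
  have h2 := mul_bd h.2.1 h'.2.1
  have h0 : 0 ≤ K * L ^ a * (K' * L ^ b) := (abs_nonneg _).trans h1
  refine ⟨by linarith, by linarith, ?_⟩
  rw [show u * u' - w * w' = u * (u' - w') + (u - w) * w' by ring]
  have h3 := mul_bd h.1 h'.2.2
  have h4 := mul_bd h.2.2 h'.2.1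
  refine (abs_add_le _ _).trans ?_
  calc |u * (u' - w')| + |(u - w) * w'|
      ≤ K * L ^ a * (K' * L ^ b * δ) + K * L ^ a * δ * (K' * L ^ b) := add_le_add h3 h4
    _ = 2 * (K * K') * L ^ (a + b) * δ := by ring

theorem bl_const (hδ : 0 ≤ δ) {c : ℝ} (h : |c| ≤ L) : BL L δ 1 1 c c := by
  have hL : 0 ≤ L := (abs_nonneg _).trans h
  refine ⟨by simpa using h, by simpa using h, ?_⟩
  simp only [sub_self, abs_zero]
  positivity

theorem bl_var (hL : 1 ≤ L) {x y : ℝ} (h : |x| ≤ L ∧ |y| ≤ L ∧ |x - y| ≤ δ) :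
    BL L δ 1 1 x y := by
  have hδ : 0 ≤ δ := (abs_nonneg _).trans h.2.2
  refine ⟨by simpa using h.1, by simpa using h.2.1, ?_⟩
  have := h.2.2
  simp only [pow_one, one_mul]
  nlinarith

theorem BL.pow3 (hL : 1 ≤ L) (hδ : 0 ≤ δ) {x y : ℝ} (h : BL L δ 1 1 x y) (i : Fin 3) :
    BL L δ 2 2 (x ^ (i : ℕ)) (y ^ (i : ℕ)) := by
  fin_cases i
  · have : BL L δ 1 1 1 1 := bl_const hδ (by simpa using hL)
    simpa using this.mono hL hδ (by norm_num : 1 ≤ 2) (by norm_num : (1 : ℝ) ≤ 2) zero_le_one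
  · simpa using h.mono hL hδ (by norm_num : 1 ≤ 2) (by norm_num : (1 : ℝ) ≤ 2) zero_le_one
  · simpa [pow_two] using h.mul h

theorem BL.sum3 {a : ℕ} {K : ℝ} {f g : Fin 3 → ℝ} (h : ∀ i, BL L δ a K (f i) (g i)) :
    BL L δ a (3 * K) (∑ i, f i) (∑ i, g i) := by
  simp only [Fin.sum_univ_three]
  have := ((h 0).add (h 1)).add (h 2)
  rwa [show K + K + K = 3 * K by ring] at this

theorem BL.dot {a b : ℕ} {K K' : ℝ} {f g f' g' : V 3} (h : ∀ i, BL L δ a K (f i) (g i))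
    (h' : ∀ i, BL L δ b K' (f' i) (g' i)) :
    BL L δ (a + b) (3 * (2 * (K * K'))) (f ⬝ᵥ f') (g ⬝ᵥ g') :=
  BL.sum3 (f := fun i => f i * f' i) (g := fun i => g i * g' i) fun i => (h i).mul (h' i)

theorem tvl : ∃ K : ℝ, 1 ≤ K ∧ ∀ (L δ : ℝ) (C : Arr) (x y : V 3), 1 ≤ L →
    (∀ i j m, |C i j m| ≤ L) → (∀ i, |x i| ≤ L ∧ |y i| ≤ L ∧ |x i - y i| ≤ δ) →
    |tv C x| ≤ K * L ^ 7 ∧ |tv C x - tv C y| ≤ K * L ^ 7 * δ := by
  refine ⟨3 * (3 * (3 * (2 * (2 * (2 * (1 * 2) * 2) * 2)))), by norm_num,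
    fun L δ C x y hL hC hx => ?_⟩
  have hδ : 0 ≤ δ := (abs_nonneg _).trans (hx 0).2.2
  have hv : ∀ i, BL L δ 1 1 (x i) (y i) := fun i => bl_var hL (hx i)
  have : BL L δ 7 (3 * (3 * (3 * (2 * (2 * (2 * (1 * 2) * 2) * 2))))) (tv C x) (tv C y) := by
    unfold tv tq
    refine BL.sum3 fun i => BL.sum3 fun j => BL.sum3 fun k => ?_
    exact (((bl_const hδ (hC i j k)).mul ((hv 0).pow3 hL hδ i)).mul
      ((hv 1).pow3 hL hδ j)).mul ((hv 2).pow3 hL hδ k)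
  exact ⟨this.1, this.2.2⟩

theorem psl : ∃ K : ℝ, 1 ≤ K ∧ ∀ (L δ : ℝ) (p : Pq) (q : M3) (x y : V 3), 1 ≤ L → p.Bd L →
    (∀ i j, |q i j| ≤ L) → (∀ i, |x i| ≤ L ∧ |y i| ≤ L ∧ |x i - y i| ≤ δ) →
    |psi p q x| ≤ K * L ^ 7 ∧ |psi p q x - psi p q y| ≤ K * L ^ 7 * δ := by
  refine ⟨1 + 6 + 36 + 432 + 5184, by norm_num, fun L δ p q x y hL hp hq hx => ?_⟩
  have hδ : 0 ≤ δ := (abs_nonneg _).trans (hx 0).2.2
  have hv : ∀ i, BL L δ 1 1 (x i) (y i) := fun i => bl_var hL (hx i)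
  have hl : ∀ m : V 3, (∀ i, |m i| ≤ L) → BL L δ 2 6 (m ⬝ᵥ x) (m ⬝ᵥ y) := fun m hm => by
    have := BL.dot (fun i => bl_const hδ (hm i)) hv
    norm_num at this
    exact this
  have hQ : ∀ G : M3, (∀ i j, |G i j| ≤ L) → BL L δ 3 36 (x ⬝ᵥ G *ᵥ x) (y ⬝ᵥ G *ᵥ y) :=
    fun G hG => by
      have := BL.dot (f' := G *ᵥ x) (g' := G *ᵥ y) hv fun i => hl (G i) (hG i)
      norm_num at this
      exact this
  have h1 := (bl_const hδ hp.1).mono hL hδ (by norm_num : 1 ≤ 7) le_rfl zero_le_one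
  have h2 := (hl _ hp.2.1).mono hL hδ (by norm_num : 2 ≤ 7) le_rfl (by norm_num)
  have h3 := (hQ _ fun i j => (hp.2.2.1 i j).1).mono hL hδ (by norm_num : 3 ≤ 7) le_rfl
    (by norm_num)
  have h4 := ((hQ q hq).mul (hl _ hp.2.2.2.1)).mono hL hδ (by norm_num : 3 + 2 ≤ 7)
    (by norm_num : _ ≤ (432 : ℝ)) (by norm_num)
  have h5 := ((bl_const hδ hp.2.2.2.2).mul ((hQ q hq).mul (hQ q hq))).mono hL hδ
    (by norm_num : 1 + (3 + 3) ≤ 7) (by norm_num : _ ≤ (5184 : ℝ)) (by norm_num)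
  have := (((h1.add h2).add h3).add h4).add h5
  simp only [psi, pq, pow_two]
  exact ⟨this.1, this.2.2⟩

theorem adj_bd {A : M3} (hA : ∀ i j, |A i j| ≤ L) (i j : Fin 3) :
    |A.adjugate i j| ≤ 2 * L ^ 2 := by
  have key : ∀ a b c d e f g h : Fin 3, |A a b * A c d - A e f * A g h| ≤ 2 * L ^ 2 := by
    intro a b c d e f g h
    have h1 := mul_bd (hA a b) (hA c d)
    have h2 := mul_bd (hA e f) (hA g h)
    refine (abs_sub _ _).trans ?_
    nlinarith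
  have key' : ∀ a b c d e f g h : Fin 3, |-(A a b * A c d) + A e f * A g h| ≤ 2 * L ^ 2 := by
    intro a b c d e f g h
    rw [neg_add_eq_sub]
    exact key _ _ _ _ _ _ _ _
  rw [Matrix.adjugate_fin_three]
  fin_cases i <;> fin_cases j <;> first | exact key _ _ _ _ _ _ _ _ | exact key' _ _ _ _ _ _ _ _

theorem inv (L : ℝ) (a b c : V 3) (_hL : 1 ≤ L)
    (h : ∀ i, |a i| ≤ L ∧ |b i| ≤ L ∧ |c i| ≤ L) (hd : 1 ≤ L * |det3 a b c|) :
    (frm a b c).det ≠ 0 ∧ ∀ i j, |(frm a b c)⁻¹ i j| ≤ 2 * L ^ 3 := by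
  have e : (frm a b c).det = det3 a b c := Matrix.det_transpose _
  have h0 : det3 a b c ≠ 0 := by
    intro h0
    rw [h0, abs_zero, mul_zero] at hd
    linarith
  refine ⟨e ▸ h0, fun i j => ?_⟩
  have hA : ∀ i j, |frm a b c i j| ≤ L := by
    intro i j
    fin_cases j
    · exact (h i).1
    · exact (h i).2.1
    · exact (h i).2.2
  have hi : |(det3 a b c)⁻¹| ≤ L := by
    rw [abs_inv]
    have hp : 0 < |det3 a b c| := abs_pos.mpr h0
    rw [inv_le_iff_one_le_mul₀ hp]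
    exact hd
  rw [Matrix.inv_def, e, Ring.inverse_eq_inv', Matrix.smul_apply, smul_eq_mul]
  calc _ ≤ L * (2 * L ^ 2) := mul_bd hi (adj_bd hA i j)
    _ = 2 * L ^ 3 := by ring

end AKDA

theorem rowKD : OfKD := fun hPC =>
  { tv3 := AKDA.tv3
    tv1 := fun C x v => (AKDA.qd_tv C (AKDA.qd_line x v)).p1
    ps3 := fun p q i z => (AKDA.qd_psi p q (AKDA.qd_upd z i)).p1
    dv := AKDA.dv
    arr := AKDA.arr hPC
    tvl := AKDA.tvl
    psl := AKDA.psl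
    inv := AKDA.inv }

end Pool.Agent.MP_5168f5_an.R4.Web
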