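import Pool.Agent.MP_5168f5_an.R4.SpecA

/-! The fourth line. -/

namespace Pool.Agent.MP_5168f5_an.R4.Web

open H19 H17S H17F Filter NCx Matrix

namespace ALine4A

/-! ### Polynomials of degree six -/

/-- The value. -/
def pv (c : Fin 7 → ℝ) (s : ℝ) : ℝ := ∑ j, c j * s ^ (j : ℕ)

/-- The coefficients of the derivative. -/
def dc (c : Fin 7 → ℝ) : Fin 7 → ℝ := ![c 1, 2 * c 2, 3 * c 3, 4 * c 4, 5 * c 5, 6 * c 6, 0]

/-- A polynomial of degree two. -/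
def pad (p : Fin 3 → ℝ) : Fin 7 → ℝ := ![p 0, p 1, p 2, 0, 0, 0, 0]

theorem der (c : Fin 7 → ℝ) (s : ℝ) : HasDerivAt (pv c) (pv (dc c) s) s := by
  refine (HasDerivAt.fun_sum fun (j : Fin 7) _ => (hasDerivAt_pow j s).const_mul (c j)).congr_deriv ?_
  simp [pv, dc, Fin.sum_univ_succ]
  ring

theorem step (ad : AlgD) {C : Arr} {X V : V 3} {c : Fin 7 → ℝ}
    (h : ∀ s, tv C (X + s • V) = pv c s) (s : ℝ) : tv (dV V C) (X + s • V) = pv (dc c) s := by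
  have := ad C X V s
  rw [funext h] at this
  exact this.unique (der c s)

theorem small {p : Fin 3 → ℝ} {c : Fin 7 → ℝ} {ε s : ℝ} (h : ∀ j, j ≠ 0 → |(pad p - c) j| ≤ ε)
    (h0 : 0 ≤ s) (h1 : s ≤ 1) :
    |p 0 + p 1 * s + p 2 * s ^ 2 - pv c s - (p 0 - pv c 0)| ≤ 210 * ε ∧
      |pv (dc (dc c)) s - 2 * p 2| ≤ 210 * ε ∧ |pv (dc (dc (dc c))) s| ≤ 210 * ε := by
  have t : ∀ j, j ≠ 0 → ∀ k : ℕ, -ε ≤ (pad p - c) j * s ^ k ∧ (pad p - c) j * s ^ k ≤ ε :=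
    fun j hj k => abs_le.1 (by
      rw [abs_mul, abs_of_nonneg (pow_nonneg h0 k)]
      exact (mul_le_of_le_one_right (abs_nonneg _) (pow_le_one₀ h0 h1)).trans (h j hj))
  have t1 := t 1 (by decide)
  have t2 := t 2 (by decide)
  have t3 := t 3 (by decide)
  have t4 := t 4 (by decide)
  have t5 := t 5 (by decide)
  have t6 := t 6 (by decide)
  have e0 : 0 ≤ ε := (abs_nonneg _).trans (h 1 (by decide))
  simp only [pad, Pi.sub_apply, cons_val, cons_val_one, cons_val_zero] at t1 t2 t3 t4 t5 t6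
  simp only [pv, dc, Fin.sum_univ_succ, abs_le]
  simp
  refine ⟨⟨?_, ?_⟩, ⟨?_, ?_⟩, ?_, ?_⟩
  · linarith [t1 1, t2 2, t3 3, t4 4, t5 5, t6 6]
  · linarith [t1 1, t2 2, t3 3, t4 4, t5 5, t6 6]
  · linarith [t2 0, t3 1, t4 2, t5 3, t6 4]
  · linarith [t2 0, t3 1, t4 2, t5 3, t6 4]
  · linarith [t3 0, t4 1, t5 2, t6 3]
  · linarith [t3 0, t4 1, t5 2, t6 3]

/-! ### The line in the frame -/

theorem abs_rd (M : ℕ) (x : ℝ) : |x - rd M x| ≤ 1 / 2 ^ M := by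
  have h1 := fl1_le M x
  have h2 := lt_fl1 M x
  rw [rd, div_eq_inv_mul, one_div, abs_le]
  constructor <;> linarith [show (0 : ℝ) < ((2 : ℝ) ^ M)⁻¹ by positivity]

theorem abs_rd' (M : ℕ) {x b : ℝ} (h : |x| ≤ b) : |rd M x| ≤ b + 1 := by
  have h1 := abs_le.1 (abs_rd M x)
  have h2 : (1 : ℝ) / 2 ^ M ≤ 1 := (div_le_one (by positivity)).2 (one_le_pow₀ one_le_two)
  rw [abs_le] at h ⊢
  constructor <;> linarith [h.1, h.2, h1.1, h1.2]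

theorem dr_bd (M : ℕ) {c : Cv} {L A : ℝ} (h : c.Bd L) (hA : L + 1 ≤ A) (j : Fin 3) :
    |c.dr M j| ≤ A := by
  have h0 := (abs_nonneg _).trans (h.1 0).1
  fin_cases j
  exacts [by simp [Cv.dr]; linarith, (abs_rd' M (h.1 0).2).trans hA, (abs_rd' M (h.1 1).2).trans hA]

theorem z_bd {c : Cv} {L A s : ℝ} (h : c.Bd L) (hA : L + 1 ≤ A) (h0 : 0 ≤ s) (j : Fin 3) :
    |c.z s j| ≤ (1 + s) * A := by
  have k : ∀ i, |c.a i + s * c.e i| ≤ (1 + s) * A := fun i => by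
    refine (abs_add_le _ _).trans ?_
    rw [abs_mul, abs_of_nonneg h0]
    nlinarith [(h.1 i).1, (h.1 i).2]
  have h2 := (abs_nonneg _).trans (h.1 0).1
  fin_cases j
  exacts [(abs_of_nonneg h0).trans_le (by nlinarith), k 0, k 1]

theorem z_dr (M : ℕ) (c : Cv) {s : ℝ} (h0 : 0 ≤ s) (h1 : s ≤ 1) (j : Fin 3) :
    |(c.z 0 + s • c.dr M - c.z s) j| ≤ 1 / 2 ^ M := by
  have k : ∀ i, |c.a i + 0 * c.e i + s * rd M (c.e i) - (c.a i + s * c.e i)| ≤ 1 / 2 ^ M :=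
    fun i => by
      rw [show c.a i + 0 * c.e i + s * rd M (c.e i) - (c.a i + s * c.e i) =
        -(s * (c.e i - rd M (c.e i))) by ring, abs_neg, abs_mul, abs_of_nonneg h0]
      exact (mul_le_of_le_one_left (abs_nonneg _) h1).trans (abs_rd M _)
  fin_cases j
  exacts [by simp [Cv.z, Cv.dr], k 0, k 1]

/-- The points of the line in the frame. -/
structure Gm (D δ : ℝ) (N : M3) (c : Cv) (W x : V 3) : Prop where
  v : ∀ i, |W i| ≤ D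
  ln : ∀ s : ℝ, 0 ≤ s → s ≤ 1 → ∀ i, |(N *ᵥ c.z 0 + s • W) i| ≤ D ∧ |(N *ᵥ c.z s) i| ≤ D ∧
    |(N *ᵥ c.z 0 + s • W) i - (N *ᵥ c.z s) i| ≤ δ
  pt : ∀ i, |(N *ᵥ c.z 0 + c.t • W) i| ≤ D ∧ |x i| ≤ D ∧ |(N *ᵥ c.z 0 + c.t • W) i - x i| ≤ δ

theorem gm (M : ℕ) {c₁ c : Cv} {L A : ℝ} {N : M3} (h₁ : c₁.Bd L) (h : c.Bd L) (hA : L + 1 ≤ A)
    (hN : ∀ i j, |N i j| ≤ 2 * A ^ 3) (hp : ∀ i, |c.pt i - c₁.pt i| ≤ L / 2 ^ M) :
    Gm (13 * A ^ 4) (13 * A ^ 4 / 2 ^ M) N c (N *ᵥ c.dr M) fun i => rd M ((N *ᵥ c₁.pt) i) := by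
  have L0 := (abs_nonneg _).trans (h.1 0).1
  have A1 : 1 ≤ A := by linarith
  have A3 : 1 ≤ A ^ 3 := one_le_pow₀ A1
  have A4 : A ^ 4 = A ^ 3 * A := pow_succ A 3
  have mv : ∀ {w : V 3} {b : ℝ}, (∀ j, |w j| ≤ b) → ∀ i, |(N *ᵥ w) i| ≤ 6 * A ^ 3 * b :=
    fun hw i => (abs_mulVec_le hN hw i).trans_eq (by simp; left; ring)
  have m0 : (0 : ℝ) < 1 / 2 ^ M := by positivity
  have e : ∀ s : ℝ, N *ᵥ c.z 0 + s • N *ᵥ c.dr M = N *ᵥ (c.z 0 + s • c.dr M) := fun s => by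
    rw [mulVec_add, mulVec_smul]
  have k1 : ∀ s : ℝ, 0 ≤ s → s ≤ 1 → ∀ i, |(N *ᵥ (c.z 0 + s • c.dr M)) i| ≤ 13 * A ^ 4 :=
    fun s a b i => (mv (b := 2 * A) (fun j => (abs_add_le _ _).trans (by
      rw [Pi.smul_apply, smul_eq_mul, abs_mul, abs_of_nonneg a]
      nlinarith [z_bd h hA le_rfl j, dr_bd M h hA j, abs_nonneg (c.dr M j)])) i).trans
      (by nlinarith)
  have k2 : ∀ {c : Cv}, c.Bd L → ∀ s : ℝ, 0 ≤ s → s ≤ 1 → ∀ i, |(N *ᵥ c.z s) i| ≤ 12 * A ^ 4 :=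
    fun h s a b i => (mv (b := 2 * A) (fun j => (z_bd h hA a j).trans (by nlinarith)) i).trans
      (by nlinarith)
  have k3 : ∀ s : ℝ, 0 ≤ s → s ≤ 1 → ∀ i,
      |(N *ᵥ (c.z 0 + s • c.dr M)) i - (N *ᵥ c.z s) i| ≤ 6 * A ^ 3 * (1 / 2 ^ M) :=
    fun s a b i => by
      rw [← Pi.sub_apply, ← mulVec_sub]
      exact mv (z_dr M c a b) i
  rw [div_eq_mul_one_div (13 * A ^ 4)]
  refine ⟨fun i => (mv (dr_bd M h hA) i).trans (by nlinarith), fun s a b i => ?_, fun i => ?_⟩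
  · rw [e]
    exact ⟨k1 s a b i, (k2 h s a b i).trans (by nlinarith), (k3 s a b i).trans
      (mul_le_mul_of_nonneg_right (by nlinarith) m0.le)⟩
  · rw [e]
    refine ⟨k1 _ h.2.2.1 h.2.2.2.le i,
      (abs_rd' M (k2 h₁ _ h₁.2.2.1 h₁.2.2.2.le i)).trans (by nlinarith), ?_⟩
    have a1 := abs_le.1 (k3 _ h.2.2.1 h.2.2.2.le i)
    have a2 := mv (w := c.pt - c₁.pt) hp i
    have a3 := abs_le.1 (abs_rd M ((N *ᵥ c₁.pt) i))
    have a4 : 6 * A ^ 3 * (1 / 2 ^ M) + 6 * A ^ 3 * (L * (1 / 2 ^ M)) + 1 / 2 ^ M ≤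
        13 * A ^ 4 * (1 / 2 ^ M) := by
      nlinarith [mul_le_mul_of_nonneg_right (show 6 * A ^ 3 + 6 * A ^ 3 * L + 1 ≤ 13 * A ^ 4 by
        nlinarith) m0.le]
    rw [mulVec_sub, Pi.sub_apply, div_eq_mul_one_div, Cv.pt, abs_le] at a2
    rw [abs_le]
    constructor <;> linarith [a1.1, a1.2, a2.1, a2.2, a3.1, a3.2]

/-- The bound for the third derivative. -/
def Hb (D : ℝ) : ℝ := 6 * (6 * (6 * D ^ 2) ^ 2) ^ 2

theorem fin (kd : KD) (ad : AlgD) {K : ℝ} (hK : ∀ (L δ : ℝ) (C : Arr) (x y : V 3), 1 ≤ L →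
      (∀ i j m, |C i j m| ≤ L) → (∀ i, |x i| ≤ L ∧ |y i| ≤ L ∧ |x i - y i| ≤ δ) →
      |tv C x| ≤ K * L ^ 7 ∧ |tv C x - tv C y| ≤ K * L ^ 7 * δ)
    {D δ ε : ℝ} {N : M3} {c : Cv} {W x : V 3} {C : Arr} {co : Fin 7 → ℝ} (hD : 1 ≤ D)
    (g : Gm D δ N c W x) (hC : ∀ i j m, |C i j m| ≤ D) (ht : 0 ≤ c.t ∧ c.t < 1)
    (hc : ∀ s : ℝ, tv C (N *ᵥ c.z 0 + s • W) = pv co s) (h : ∀ j, j ≠ 0 → |(pad c.p - co) j| ≤ ε) :
    c.Fits (fun z => tv C (N *ᵥ z)) (210 * ε + K * Hb D ^ 7 * δ) ∧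
      |tv (dV W (dV W C)) x - 2 * c.p 2| ≤ 210 * ε + K * Hb D ^ 7 * δ ∧
      |tv (dV W (dV W (dV W C))) x| ≤ 210 * ε + K * Hb D ^ 7 * δ := by
  have up : ∀ {y : ℝ}, 1 ≤ y → y ≤ 6 * y ^ 2 := fun a => by nlinarith
  have u1 := up hD
  have u2 := up (hD.trans u1)
  have u3 : _ ≤ Hb D := up ((hD.trans u1).trans u2)
  have u4 : D ≤ Hb D := (u1.trans u2).trans u3
  have d1 := kd.dv _ W _ g.v hC
  have d2 := kd.dv _ W _ (fun i => (g.v i).trans u1) d1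
  have d3 := kd.dv _ W _ (fun i => (g.v i).trans (u1.trans u2)) d2
  have p := fun i => (⟨(g.pt i).1.trans u4, (g.pt i).2.1.trans u4, (g.pt i).2.2⟩ : _ ∧ _ ∧ _)
  have b2 := (hK _ δ _ _ _ (hD.trans u4) (fun i j m => (d2 i j m).trans u3) p).2
  have b3 := (hK _ δ _ _ _ (hD.trans u4) d3 p).2
  rw [step ad (step ad hc)] at b2
  rw [step ad (step ad (step ad hc))] at b3
  obtain ⟨-, s2, s3⟩ := small h ht.1 ht.2.le
  refine ⟨fun s a b => ?_, ?_, ?_⟩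
  · have b1 := (hK _ δ _ _ _ (hD.trans u4) (fun i j m => (hC i j m).trans u4) fun i =>
      ⟨(g.ln s a b i).1.trans u4, (g.ln s a b i).2.1.trans u4, (g.ln s a b i).2.2⟩).2
    have s1 := (small h a b).1
    have e := hc 0
    rw [zero_smul, add_zero] at e
    rw [hc] at b1
    simp only [Cv.f, e]
    rw [abs_le] at b1 s1 ⊢
    constructor <;> linarith [b1.1, b1.2, s1.1, s1.2]
  · rw [abs_le] at b2 s2 ⊢
    constructor <;> linarith [b2.1, b2.2, s2.1, s2.2]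
  · rw [abs_le] at b3 s3 ⊢
    constructor <;> linarith [b3.1, b3.2, s3.1, s3.2]

theorem pre {K K₁ : ℝ} (hK₀ : 1 ≤ K) (hK₁ : 1 ≤ K₁) (pc : ∀ (c : Fin 7 → ℝ) (ε : ℝ),
      (∀ a : Fin 7, |pv c (((a : ℕ) : ℝ) / ((6 : ℕ) + 1))| ≤ ε) → ∀ j, |c j| ≤ K₁ * ε)
    (hK : ∀ (L δ : ℝ) (C : Arr) (x y : V 3), 1 ≤ L →
      (∀ i j m, |C i j m| ≤ L) → (∀ i, |x i| ≤ L ∧ |y i| ≤ L ∧ |x i - y i| ≤ δ) →
      |tv C x| ≤ K * L ^ 7 ∧ |tv C x - tv C y| ≤ K * L ^ 7 * δ)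
    {D δ δ' φ : ℝ} {N : M3} {c : Cv} {W x : V 3} {C : Arr} {co : Fin 7 → ℝ} (hD : 1 ≤ D)
    (g : Gm D δ N c W x) (hC : ∀ i j m, |C i j m| ≤ D) (hp : ∀ i, |c.p i| ≤ D)
    (hc : ∀ s : ℝ, tv C (N *ᵥ c.z 0 + s • W) = pv co s) (hφ : |c.φ - φ| ≤ D * δ')
    (hδ : δ ≤ D * δ') (h0 : 0 ≤ δ') :
    |φ - tv C x - pv (pad c.p - co) c.t| ≤ (D + K₁ * (K * D ^ 7 * D)) * δ' ∧
      ∀ j, j ≠ 0 → |(pad c.p - co) j| ≤ D + K₁ * (K * D ^ 7 * D) := by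
  have y0 : 0 ≤ K * D ^ 7 := by positivity
  refine ⟨?_, fun j _ => ?_⟩
  · have b := (hK _ _ _ _ _ hD hC g.pt).2
    rw [hc] at b
    have b1 := abs_le.1 (b.trans (mul_le_mul_of_nonneg_left hδ y0))
    have b2 := abs_le.1 hφ
    have b3 : K * D ^ 7 * (D * δ') ≤ K₁ * (K * D ^ 7 * (D * δ')) :=
      le_mul_of_one_le_left (by positivity) hK₁
    have b4 : pv (pad c.p - co) c.t = c.φ - pv co c.t := by
      simp [pv, pad, Cv.φ, Cv.f, Fin.sum_univ_succ]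
      ring
    rw [b4, abs_le]
    constructor <;> linarith [b1.1, b1.2, b2.1, b2.2]
  · have b := pc co (K * D ^ 7) (fun a => by
      rw [← hc]
      exact (hK _ _ _ _ _ hD hC (g.ln _ (by positivity)
        ((div_le_one (by positivity)).2 (by exact_mod_cast a.2.le)))).1) j
    have b1 : |pad c.p j| ≤ D := by
      fin_cases j <;> simp [pad, hp, zero_le_one.trans hD]
    refine (abs_sub _ _).trans (add_le_add b1 (b.trans ?_))
    exact mul_le_mul_of_nonneg_left (le_mul_of_one_le_right y0 hD) (by positivity)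

/-! ### Four copies -/

variable {Ω T : Type} (P : FP Ω) (S : Ω → T)

theorem law3 : Law (G3 P S) (fun v => v.1.1) P id :=
  ((kg.fst _ _ _ _).comp Prod.fst).trans (kg.fst _ _ _ _)

theorem law4 : Law (G4 P S) Prod.fst (G3 P S) id ∧ Law (G4 P S) Prod.snd P id :=
  ⟨kg.fst _ _ _ _, kg.snd _ _ _ _ ((law3 P S).comp S)⟩

theorem mem4 {v : ((Ω × Ω) × Ω) × Ω} (h : v ∈ (G4 P S).S) :
    (∀ i, sl i v.1 ∈ P.S) ∧ v.2 ∈ P.S ∧ S v.2 = S v.1.1.1 := by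
  obtain ⟨h1, h2⟩ := (kg.mem _ _ _ _ v ((law3 P S).comp S)).1 h
  obtain ⟨h3, h4, -⟩ := (kg.mem _ _ _ _ v.1 ((kg.fst _ _ _ _).comp S)).1 h1
  obtain ⟨h5, h6, -⟩ := (kg.mem _ _ _ _ v.1.1 (Law.rfl S)).1 h3
  refine ⟨fun i => ?_, h2⟩
  fin_cases i
  exacts [h5, h6, h4]

theorem dr_congr {M : ℕ} {c c' : Cv} (h : fl M c.e = fl M c'.e) : c.dr M = c'.dr M := by
  have : ∀ i, fl1 M (c.e i) = fl1 M (c'.e i) := congrFun h
  simp only [Cv.dr, rd, this]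

theorem det_box {W β : Type} {P : FP W} {z : W → ℝ} (h : ∀ ω ∈ P.S, 0 ≤ z ω ∧ z ω < 1) (m : ℕ)
    (G : W → β) : Det P (fun ω => fl1 m (z ω)) G (2 ^ m) := fun ω _ =>
  ⟨Finset.Ico 0 (2 ^ m), by
    rw [Int.card_Ico, sub_zero, show ((2 : ℤ) ^ m) = ((2 ^ m : ℕ) : ℤ) by push_cast; rfl,
      Int.toNat_natCast]
    push_cast; exact le_rfl, fun b hb _ => by
    have := fl1_mem_Ico (j := 0) (i := m) (x := z b) (y := 0)
      ((fl1_zero_of_box (h b hb).1 (h b hb).2).trans (fl1_zero_of_box le_rfl one_pos).symm)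
    simpa [fl1] using this⟩

theorem whp_up {W : ℕ → Type} {Q : ∀ n, FP (W n)} {E F : ∀ n, W n → Prop} (h : Whp Q E)
    (k : Whp (fun n => cE (Q n) (E n)) F) : Whp Q F := fun ε hε => by
  filter_upwards [h _ (half_pos hε), k _ (half_pos hε)] with n a b
  have h1 := pb_split (Q n) (fun v => ¬F n v) (E n)
  have h2 := pb_cE (Q n) (E n) fun v => ¬F n v
  have h3 : pb (Q n) (fun v => ¬F n v ∧ E n v) ≤ _ := pb_mono fun _ _ => And.symm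
  have h4 : pb (Q n) (fun v => ¬F n v ∧ ¬E n v) ≤ _ := pb_mono fun _ _ => And.right
  nlinarith [pb_le_one (Q n) (E n), pb_nonneg (cE (Q n) (E n)) fun v => ¬F n v]

theorem full (tf : TFul) {Ω T U Λ : ℕ → Type} {P : ∀ n, FP (Ω n)} {γ : ∀ n, Ω n → Cv}
    {θ : ∀ n, Ω n → T n} {S : ∀ n, Ω n → U n} {l : ∀ n, Ω n → Λ n} {M R : ℕ → ℕ} {ε₀ : ℝ}
    {C : ∀ n, (Ω n × Ω n) × Ω n → Arr} (as : AS P γ θ S l M R ε₀)
    (sC : Sm M fun n => ch (G3 (P n) (S n)) (C n) fun v => (ty (M n) (γ n) v, θ n v.1.1))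
    {E : ∀ n, ((Ω n × Ω n) × Ω n) × Ω n → Prop} (hE : Pos (fun n => G4 (P n) (S n)) E) :
    Ful (fun n => cE (G4 (P n) (S n)) (E n)) (fun n v => (γ n v.2).t)
      (fun n v => (l n v.2, C n v.1, ty (M n) (γ n) v.1, θ n v.1.1.1)) M := by
  obtain ⟨Lb, -, hb⟩ := as.bd
  have f4 : Ful (fun n => G4 (P n) (S n)) (fun n v => (γ n v.2).t)
      (fun n v => (l n v.2, C n v.1, ty (M n) (γ n) v.1, θ n v.1.1.1)) M := by
    refine Le.of3 as.hgt sC (tf P θ S (fun n ω => fl (M n) (γ n ω).e) M (hb.mono fun _ b => b.2.1)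
      as.typ).2.2.1 (hb.mono fun n b => ?_)
    have e := fun v hv => b.2.1 _ (mem4 _ _ hv).2.1 _ ((mem4 (v := v) _ _ hv).1 0) (mem4 _ _ hv).2.2
    have a1 := (law4 (P n) (S n)).2.ch_id (fun ω => fl1 (M n) (γ n ω).t) fun ω => (l n ω, θ n ω)
    have a2 := (law4 (P n) (S n)).1.ch_id (C n) fun v => (ty (M n) (γ n) v, θ n v.1.1)
    have a3 : mi (G4 (P n) (S n)) (fun v => fl1 (M n) (γ n v.2).t) (fun v => ty (M n) (γ n) v.1)
        (fun v => (l n v.2, θ n v.2)) ≤ mi (G4 (P n) (S n)) (fun v => ty (M n) (γ n) v.1) Prod.snd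
        fun v => θ n v.2 := by
      rw [mi_symm]
      exact (mi_mono ((Fn.comp (fun ω => fl1 (M n) (γ n ω).t) Prod.snd).left _)).trans
        (mi_cond (Fn.snd _ _) ((Fn.comp (fun ω => (l n ω, θ n ω)) Prod.snd).left _))
    have a4 := ch_drop (P := G4 (P n) (S n)) (fun v => fl1 (M n) (γ n v.2).t) (fun v => C n v.1)
      fun v => (ty (M n) (γ n) v.1, l n v.2, θ n v.2)
    have a5 := ch_anti (P := G4 (P n) (S n)) (F := fun v => C n v.1)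
      (G := fun v => (ty (M n) (γ n) v.1, θ n v.1.1.1))
      (G' := fun v => (ty (M n) (γ n) v.1, l n v.2, θ n v.2)) fun a ha b hb c => by
        simp only [Prod.mk.injEq] at c ⊢
        exact ⟨c.1, (e a ha).symm.trans (c.2.2.trans (e b hb))⟩
    have a6 := ch_anti (P := G4 (P n) (S n)) (F := fun v => fl1 (M n) (γ n v.2).t)
      (G := fun v => (l n v.2, C n v.1, ty (M n) (γ n) v.1, θ n v.1.1.1))
      (G' := fun v => (C n v.1, ty (M n) (γ n) v.1, l n v.2, θ n v.2)) fun a ha b hb c => by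
        simp only [Prod.mk.injEq] at c ⊢
        exact ⟨c.2.2.1, c.1, c.2.1, (e a ha).symm.trans (c.2.2.2.trans (e b hb))⟩
    change _ ≤ _ - _ + (_ - _) + (mi (G4 (P n) (S n)) (fun v => ty (M n) (γ n) v.1) _ _ - _)
    rw [mi] at a3
    linarith
  have := (K31.dnS_cE hE).full as.big (N := fun n => 2 ^ M n)
    (G := fun n v => (l n v.2, C n v.1, ty (M n) (γ n) v.1, θ n v.1.1.1)) (hb.mono fun n b =>
    det_box (P := G4 (P n) (S n)) (z := fun v => (γ n v.2).t)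
      (fun v hv => (b.1 _ (mem4 _ _ hv).2.1).2.2) _ _) (by
      simp only [log_two_pow]; exact f4)
  simp only [log_two_pow] at this
  exact this

end ALine4A

open ALine4A

theorem rowLine4 : OfLine4 := by
  intro pc kd ad tf den Ω T U Λ P γ θ S l M R k ε₀ L L₀ C as hL hL₀ hk hg hC sC ng
  obtain ⟨K₁, hK₁, pc⟩ := pc 6
  obtain ⟨K, hK, tvl⟩ := kd.tvl
  obtain ⟨Lb, hLb, hb⟩ := as.bd
  have hM := as.big
  choose co hco using kd.tv1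
  have hA := ((hLb.add (hM.sub le_rfl) hM).add hL hM).add hL₀ hM
  have hD := (hA.pow 4).const_mul hM (C := 13) (by norm_num)
  obtain ⟨D, eD⟩ : ∃ D : ℕ → ℝ, D = fun n => 13 * (Lb n + 1 + L n + L₀ n) ^ 4 := ⟨_, rfl⟩
  rw [← eD] at hD
  have AD : ∀ n, Lb n ≤ D n ∧ L n ≤ D n := fun n => by
    have := le_self_pow₀ (hA.1 n) (show 4 ≠ 0 by norm_num)
    simp only [eD]
    constructor <;> linarith [hLb.1 n, hL.1 n, hL₀.1 n]
  have km : ∀ n {x : ℝ}, 0 ≤ x → ∀ j, k n ≤ j → x / 2 ^ j ≤ x / 2 ^ k n := fun n x a j b =>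
    div_le_div_of_nonneg_left a (by positivity) (pow_le_pow_right₀ one_le_two b)
  have kM := fun n => (hk.1 n).trans (as.frac.1 n)
  let E := fun n (v : ((Ω n × Ω n) × Ω n) × Ω n) => gd (M n) (γ n) (L₀ n) v.1
  let cc : ∀ n, ((Ω n × Ω n) × Ω n) × Ω n → Fin 7 → ℝ := fun n v =>
    co (C n v.1) ((fm (M n) (γ n) v.1)⁻¹ *ᵥ (γ n v.2).z 0) (v4 (M n) (γ n) v)
  have hE : Whp (fun n => G4 (P n) (S n)) E :=
    (K31.dnS_law (Eventually.of_forall fun n => (law4 (P n) (S n)).1)).whp hg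
  have geo : ∀ᶠ n in UF, ∀ v ∈ (cE (G4 (P n) (S n)) (E n)).S, Gm (D n) (D n / 2 ^ M n)
      (fm (M n) (γ n) v.1)⁻¹ (γ n v.2) (v4 (M n) (γ n) v) (fun i => xc (M n) (γ n) i v.1) ∧
      (γ n v.2).Bd (Lb n) ∧ |(γ n v.2).φ - (γ n v.1.1.1).φ| ≤ Lb n / 2 ^ R n := by
    filter_upwards [hb, hE.pos.sure] with n b e v hv
    obtain ⟨m1, m2, m3⟩ := mem4 _ _ (e v hv).1
    have a : Lb n + 1 ≤ Lb n + 1 + L n + L₀ n := by linarith [hL.1 n, hL₀.1 n]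
    refine ⟨?_, b.1 _ m2, b.2.2.2.2 _ m2 _ (m1 0) m3⟩
    rw [eD]
    exact gm (M n) (b.1 _ (m1 0)) (b.1 _ m2) a (kd.inv _ _ _ _ (hA.1 n) (fun i =>
      ⟨dr_bd _ (b.1 _ (m1 0)) a i, dr_bd _ (b.1 _ (m1 1)) a i, dr_bd _ (b.1 _ (m1 2)) a i⟩)
      ((e v hv).2.trans (mul_le_mul_of_nonneg_right (by linarith [hL.1 n, hLb.1 n])
        (abs_nonneg _)))).2 fun i => b.2.2.2.1 i _ m2 _ (m1 0) m3
  have hL₁ := hD.add ((((hD.pow 7).const_mul hM hK).mul hD).const_mul hM hK₁) hM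
  have lq : ∀ n, Law (cE (G4 (P n) (S n)) (E n)) Prod.fst
      (cE (G3 (P n) (S n)) (gd (M n) (γ n) (L₀ n))) id := fun n =>
    ke.law _ _ _ _ (gd (M n) (γ n) (L₀ n)) (law4 (P n) (S n)).1
  obtain ⟨L', hL', w⟩ := den 6 (fun n => cE (G4 (P n) (S n)) (E n)) (fun n v => (γ n v.1.1.1).φ -
      tq (C n v.1) (xc (M n) (γ n) 0 v.1) (xc (M n) (γ n) 1 v.1) (xc (M n) (γ n) 2 v.1))
    (fun n v => (γ n v.2).t) (fun n v => (C n v.1, ty (M n) (γ n) v.1, θ n v.1.1.1))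
    (fun n v => (l n v.2, C n v.1, ty (M n) (γ n) v.1, θ n v.1.1.1))
    (fun n v => pad (γ n v.2).p - cc n v) M k k _ ε₀ hM (hk.trans as.frac) (fun _ => le_rfl) hL₁
    as.pos (ng.pull (σ := fun _ => Prod.fst) lq) (by
      filter_upwards [geo, hb] with n g b
      refine ⟨fun u hu v hv c => ?_, Fn.snd _ _, fun v hv => ?_⟩
      · obtain ⟨u1, u2, u3⟩ := mem4 _ _ (cE_sub hu)
        obtain ⟨v1, v2, v3⟩ := mem4 _ _ (cE_sub hv)
        simp only [Prod.mk.injEq] at c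
        have c1 := b.2.2.1 _ u2 _ v2 (Prod.ext c.1 ((b.2.1 _ u2 _ (u1 0) u3).trans
          (c.2.2.2.trans (b.2.1 _ v2 _ (v1 0) v3).symm)))
        have c2 : fm (M n) (γ n) u.1 = fm (M n) (γ n) v.1 := by
          have := congr (congr (congrArg frm (dr_congr (congrFun c.2.2.1 0)))
            (dr_congr (congrFun c.2.2.1 1))) (dr_congr (congrFun c.2.2.1 2))
          exact this
        simp only [Cv.crv, Prod.mk.injEq] at c1
        simp only [cc, v4, Cv.z, Cv.dr, c.2.1, c1.1, c1.2.1, c1.2.2, c2]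
      · rw [abs_of_nonneg (g v hv).2.1.2.2.1]
        exact (g v hv).2.1.2.2.2.le.trans (hL₁.1 n))
    (full tf as sC hE.pos) (Whp.of_ev (geo.mono fun n g v hv => by
      have := pre (co := cc n v) (δ' := 1 / 2 ^ k n) hK hK₁ pc tvl (hD.1 n) (g v hv).1
        (fun i j m => (hC n v.1 i j m).trans (AD n).2)
        (fun i => ((g v hv).2.1.2.1 i).trans (AD n).1) (hco _ _ _)
        ((((g v hv).2.2.trans (km n (hLb.pos n).le _ (hk.1 n))).trans (div_le_div_of_nonneg_right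
          (AD n).1 (by positivity))).trans_eq (div_eq_mul_one_div _ _))
        ((km n (hD.pos n).le _ (kM n)).trans_eq (div_eq_mul_one_div _ _)) (by positivity)
      rw [← div_eq_mul_one_div] at this
      exact this))
  have s6 : ∀ {X : ℕ → ℝ}, Sub M X → Sub M fun n => 6 * X n ^ 2 := fun a =>
    (a.pow 2).const_mul hM (by norm_num)
  refine ⟨fun n => 210 * L' n + K * Hb (D n) ^ 7 * D n, (hL'.const_mul hM (by norm_num)).add
    ((((s6 (s6 (s6 hD))).pow 7).const_mul hM hK).mul hD) hM,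
    whp_up hE (w.mono (geo.mono fun n g v hv c => ?_))⟩
  obtain ⟨r1, r2, r3⟩ := fin (co := cc n v) kd ad tvl (hD.1 n) (g v hv).1
    (fun i j m => (hC n v.1 i j m).trans (AD n).2) (g v hv).2.1.2.2 (hco _ _ _) c
  have e : 210 * (L' n / 2 ^ k n) + K * Hb (D n) ^ 7 * (D n / 2 ^ M n) ≤
      (210 * L' n + K * Hb (D n) ^ 7 * D n) / 2 ^ k n := by
    rw [add_div, mul_div_assoc, mul_div_assoc]
    exact add_le_add le_rfl (mul_le_mul_of_nonneg_left (km n (hD.pos n).le _ (kM n))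
      (by unfold Hb; positivity))
  exact ⟨fun s a b => (r1 s a b).trans e, r2.trans e, r3.trans e⟩

end Pool.Agent.MP_5168f5_an.R4.Web
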