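import Pool.Agent.MP_5168f5_an.R4.SpecA

/-! An array that depends on the types and is small at the point is small. -/

namespace Pool.Agent.MP_5168f5_an.R4.Web

open H19 H17S H17F Filter NCx Matrix

namespace ALine5A

variable {V W A B D E T : ℕ → Type} {Q : ∀ n, FP (V n)} {Q' : ∀ n, FP (W n)} {π : ∀ n, W n → V n}
  {M : ℕ → ℕ}

theorem ful (hπ : ∀ n, Law (Q' n) (π n) (Q n) id) {x y z : RV V} {l : ∀ n, V n → A n}
    {Θ : ∀ n, V n → T n} {C : ∀ n, V n → D n} {e : ∀ n, W n → E n} {θ : ∀ n, W n → B n}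
    (h : Ful Q x (fun n v => (l n v, y n v, z n v, Θ n v)) M)
    (hC : Sm M fun n => ch (Q n) (C n) (Θ n)) (he : Sm M fun n => mi (Q' n) (e n) (π n) (θ n))
    (hθ : ∀ᶠ n in UF, Fn (Q' n) (θ n) fun v => Θ n (π n v)) :
    Ful Q' (fun n v => x n (π n v))
      (fun n v => (y n (π n v), z n (π n v), C n (π n v), Θ n (π n v), e n v)) M := by
  refine Le.of3 h hC he (hθ.mono fun n k => ?_)
  have a1 := ch_anti (P := Q n) (F := fun v => fl1 (M n) (x n v))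
    (Fn.snd (l n) fun v => (y n v, z n v, Θ n v))
  have a2 := ch_drop (P := Q n) (fun v => fl1 (M n) (x n v)) (C n) fun v => (y n v, z n v, Θ n v)
  have a3 : ch (Q n) (C n) (fun v => (y n v, z n v, Θ n v)) ≤ ch (Q n) (C n) (Θ n) :=
    ch_anti ((Fn.snd _ _).right _)
  have a4 := (hπ n).ch_id (fun v => fl1 (M n) (x n v)) fun v => (C n v, y n v, z n v, Θ n v)
  have a5 : mi (Q' n) (e n) (fun v => fl1 (M n) (x n (π n v)))
      (fun v => (C n (π n v), y n (π n v), z n (π n v), Θ n (π n v))) ≤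
      mi (Q' n) (e n) (π n) (θ n) :=
    mi_right (((k.right _).right _).right _)
      ((Fn.comp (fun v => (C n v, y n v, z n v, Θ n v)) (π n)).left _)
      ((Fn.comp (fun v => fl1 (M n) (x n v)) (π n)).left _)
  have a6 : ch (Q' n) (fun v => fl1 (M n) (x n (π n v)))
      (fun v => (e n v, C n (π n v), y n (π n v), z n (π n v), Θ n (π n v))) ≤
      ch (Q' n) (fun v => fl1 (M n) (x n (π n v)))
      (fun v => (y n (π n v), z n (π n v), C n (π n v), Θ n (π n v), e n v)) :=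
    ch_anti fun a _ b _ q => by
      simp only [Prod.mk.injEq] at q ⊢
      exact ⟨q.2.2.1, q.2.2.2.1, q.2.1, q.2.2.2.2, q.1⟩
  rw [mi_symm, mi] at a5
  linarith

theorem grid (hπ : ∀ n, Law (Q' n) (π n) (Q n) id) {x : RV V} (h : Grid Q x M) :
    Grid Q' (fun n v => x n (π n v)) M :=
  h.imp fun _ k => ⟨k.1, k.2.mono fun n a => ⟨(hπ n).fn a.1, fun _ hv => a.2 _ ((hπ n).mem hv)⟩⟩

theorem whp {E F : ∀ n, V n → Prop} (hE : Whp Q E) (h : Whp (fun n => cE (Q n) (E n)) F) :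
    Whp Q F := fun ε hε => by
  filter_upwards [hE _ (half_pos hε), h _ (half_pos hε)] with n a b
  have h1 := pb_split (Q n) (fun ω => ¬F n ω) (E n)
  have h2 := pb_cE (Q n) (E n) fun ω => ¬F n ω
  have h3 : pb (Q n) (fun ω => ¬F n ω ∧ E n ω) ≤ pb (Q n) fun ω => E n ω ∧ ¬F n ω :=
    pb_mono fun _ _ k => k.symm
  have h4 : pb (Q n) (fun ω => ¬F n ω ∧ ¬E n ω) ≤ pb (Q n) fun ω => ¬E n ω :=
    pb_mono fun _ _ k => k.2
  have h5 := mul_le_of_le_one_left (pb_nonneg (cE (Q n) (E n)) fun ω => ¬F n ω)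
    (pb_le_one (Q n) (E n))
  linarith

theorem smc {E : ∀ n, V n → Prop} {F : ∀ n, V n → A n} {G : ∀ n, V n → B n} (hE : Pos Q E)
    (h : Sm M fun n => ch (Q n) (F n) (G n)) : Sm M fun n => ch (cE (Q n) (E n)) (F n) (G n) :=
  (K31.dnS_cE hE).sm_ch h

theorem dr {m : ℕ} {c c' : Cv} (h : fl m c.e = fl m c'.e) : c.dr m = c'.dr m := by
  have h0 : fl1 m (c.e 0) = fl1 m (c'.e 0) := congrFun h 0
  have h1 : fl1 m (c.e 1) = fl1 m (c'.e 1) := congrFun h 1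
  rw [Cv.dr, Cv.dr, rd, rd, rd, rd, h0, h1]

theorem v4_eq {Ω : Type} {m : ℕ} {γ : Ω → Cv} {a b : ((Ω × Ω) × Ω) × Ω}
    (h : ty m γ a.1 = ty m γ b.1) (h' : fl m (γ a.2).e = fl m (γ b.2).e) :
    v4 m γ a = v4 m γ b := by
  have h0 : (γ a.1.1.1).dr m = (γ b.1.1.1).dr m := dr (congrFun h 0)
  have h1 : (γ a.1.1.2).dr m = (γ b.1.1.2).dr m := dr (congrFun h 1)
  have h2 : (γ a.1.2).dr m = (γ b.1.2).dr m := dr (congrFun h 2)
  rw [v4, v4, fm, fm, h0, h1, h2, dr h']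

theorem cell {Ω T U : Type} {P : FP Ω} {S : Ω → U} {θ : Ω → T} (h : Fn P θ S)
    {v : ((Ω × Ω) × Ω) × Ω} (hv : v ∈ (G4 P S).S) : θ v.2 = θ v.1.1.1 := by
  have h1 : Law (G3 P S) (fun v => v.1.1) P id :=
    ((kg.fst (glue P P S S) P (fun v => S v.1) S).comp Prod.fst).trans (kg.fst P P S S)
  obtain ⟨a, b, c⟩ := (kg.mem _ _ _ _ v (h1.comp S)).1 hv
  exact h _ b _ (h1.mem a) c

end ALine5A

open ALine5A in
theorem rowLine5 : OfLine5 := by
  intro hD hT hS Ω T U Λ P γ θ S l M R ε₀ L₀ ε C H hA _ hg ⟨u, α, hW, hF⟩ hC hε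
  have hM := hA.big
  obtain ⟨K, K1, hK⟩ := hD.arr
  obtain ⟨L, -, hθ⟩ := hA.bd
  have hθ := hθ.mono fun n a => a.2.1
  have l1 : ∀ n, Law (G4 (P n) (S n)) Prod.fst (G3 (P n) (S n)) id := fun n => kg.fst _ _ _ _
  have l2 : ∀ n, Law (cE (G4 (P n) (S n)) fun v => gd (M n) (γ n) (L₀ n) v.1) Prod.fst
      (cE (G3 (P n) (S n)) (gd (M n) (γ n) (L₀ n))) id := fun n =>
    ke.law _ _ _ _ (gd (M n) (γ n) (L₀ n)) (l1 n)
  have g4 := (K31.dnS_law (Eventually.of_forall l1)).whp hg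
  have c3 := smc hg.pos hC
  have m4 := sm_mi_cE hM g4.pos (hT P θ S (fun n ω => fl (M n) (γ n ω).e) M hθ hA.typ).2.2.2
  have f4 : ∀ᶠ n in UF, Fn (cE (G4 (P n) (S n)) fun v => gd (M n) (γ n) (L₀ n) v.1)
      (fun v => θ n v.2) fun v => (ty (M n) (γ n) v.1, θ n v.1.1.1) :=
    hθ.mono fun n a => fn_cE (fun v hv w hw q =>
      ((cell a hv).trans (congrArg Prod.snd q)).trans (cell a hw).symm) _
  have k := fun i => ful l2 (hF i) c3 m4 f4
  obtain ⟨L', s', h⟩ := hS 2 (fun n => cE (G4 (P n) (S n)) fun v => gd (M n) (γ n) (L₀ n) v.1)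
    (fun n v => xc (M n) (γ n) 0 v.1) (fun n v => xc (M n) (γ n) 1 v.1)
    (fun n v => xc (M n) (γ n) 2 v.1)
    (fun n v => (C n v.1, (ty (M n) (γ n) v.1, θ n v.1.1.1), fl (M n) (γ n v.2).e))
    (fun n v => tv (H (v4 (M n) (γ n) v) (C n v.1))) M hM
    (grid l2 hW.l1.grid) (grid l2 hW.l2.grid) (grid l2 hW.l3.grid) (k 0) (k 1) (k 2)
    (Eventually.of_forall fun n => ⟨fun a _ b _ q => by
      simp only [Prod.mk.injEq] at q
      simp only [v4_eq q.2.1.1 q.2.2, q.1], fun _ _ => hD.tv3 _⟩)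
  refine ⟨fun n => K * L' n, s'.const_mul hM K1, ((whp g4 h).and hε).mono
    (Eventually.of_forall fun n v _ a i j m => ?_)⟩
  rw [mul_assoc]
  exact hK _ _ (fun z hz => (a.1 z hz).trans
    (mul_le_mul_of_nonneg_left a.2 (s'.pos n).le)) i j m

end Pool.Agent.MP_5168f5_an.R4.Web
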