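import Pool.Agent.MP_5168f5_an.R4.SpecA

/-! One line of a frame. -/

namespace Pool.Agent.MP_5168f5_an.R4.Web

open H19 H17S H17F Filter NCx Matrix

namespace ALnOfA

theorem sub_rd (j : ℕ) (x : ℝ) : |x - rd j x| ≤ 1 / 2 ^ j := by
  have h := abs_fl1_sub j x
  have e : x - rd j x = -((fl1 j x : ℝ) - 2 ^ j * x) / 2 ^ j := by rw [rd]; field_simp; ring
  rw [e, abs_div, abs_neg, abs_of_pos (show (0 : ℝ) < 2 ^ j by positivity)]
  gcongr

theorem inv_le (j : ℕ) : (1 : ℝ) / 2 ^ j ≤ 1 :=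
  (div_le_one (by positivity)).2 (one_le_pow₀ one_le_two)

theorem abs_rd {j : ℕ} {x L : ℝ} (h : |x| ≤ L) (hL : 1 ≤ L) : |rd j x| ≤ 2 * L := by
  have h1 := abs_le.1 ((sub_rd j x).trans (inv_le j))
  have h2 := abs_le.1 h
  rw [abs_le]
  constructor <;> linarith [h1.1, h1.2, h2.1, h2.2]

theorem fl1_rd (j : ℕ) (x : ℝ) : fl1 j (rd j x) = fl1 j x := by
  rw [rd, fl1, mul_div_cancel₀ _ (by positivity), Int.floor_intCast]

theorem rd_eq {j : ℕ} {x y : ℝ} (h : fl1 j x = fl1 j y) : rd j x = rd j y := by rw [rd, rd, h]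

/-- The starting point in the frame. -/
noncomputable def w0 (M : ℕ) (c : Cv) (B : M3) : V 3 := B⁻¹ *ᵥ ![0, rd M (c.a 0), rd M (c.a 1)]

theorem w0_eq {M : ℕ} {c c' : Cv} (B : M3) (h : fl M c.a = fl M c'.a) : w0 M c B = w0 M c' B := by
  rw [w0, w0, rd_eq (congrFun h 0), rd_eq (congrFun h 1)]

/-- The pointwise assumptions. -/
def Hy (c : Cv) (B : M3) (z : V 3) (f : ℝ) (i : Fin 3) (M R : ℕ) (L : ℝ) : Prop :=
  c.Bd L ∧ (∀ j, B j i = c.dr M j ∧ B 0 j = 1) ∧ B.det ≠ 0 ∧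
    (∀ j m, |B j m| ≤ L ∧ |B⁻¹ j m| ≤ L) ∧ (∀ j, |z j - c.pt j| ≤ L / 2 ^ M) ∧
    |f - c.φ| ≤ L / 2 ^ R

variable {c c' : Cv} {B : M3} {z z' : V 3} {f f' L : ℝ} {i : Fin 3} {M R : ℕ}

theorem Hy.key (h : Hy c B z f i M R L) (hL : 1 ≤ L) (j : Fin 3) :
    |(B⁻¹ *ᵥ z) j - w0 M c B j - if j = i then c.t else 0| ≤ 9 * L ^ 2 / 2 ^ M := by
  obtain ⟨⟨-, -, t0, t1⟩, h2, h3, h4, h5, -⟩ := h
  have e1 : c.dr M = B *ᵥ Pi.single i 1 := funext fun m => by simp [(h2 m).1]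
  have e2 : B⁻¹ *ᵥ c.dr M = Pi.single i 1 := by
    rw [e1, mulVec_mulVec, nonsing_inv_mul _ (isUnit_iff_ne_zero.2 h3), one_mulVec]
  have e3 : (B⁻¹ *ᵥ z) j - w0 M c B j - (if j = i then c.t else 0) =
      (B⁻¹ *ᵥ (z - ![0, rd M (c.a 0), rd M (c.a 1)] - c.t • c.dr M)) j := by
    rw [mulVec_sub, mulVec_sub, mulVec_smul, e2, w0]
    simp [Pi.single_apply]
  have d0 : (0 : ℝ) < 1 / 2 ^ M := by positivity
  have d1 : 1 / 2 ^ M ≤ L * (1 / 2 ^ M) := le_mul_of_one_le_left d0.le hL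
  have k : ∀ a e y : ℝ, |y - (a + c.t * e)| ≤ L / 2 ^ M →
      |y - rd M a - c.t * rd M e| ≤ 3 * L * (1 / 2 ^ M) := fun a e y hy => by
    have a1 := abs_le.1 (sub_rd M a)
    have a2 := abs_le.1 (sub_rd M e)
    have a3 := abs_le.1 hy
    rw [div_eq_mul_one_div] at a3
    rw [abs_le]
    constructor <;> nlinarith [a1.1, a1.2, a2.1, a2.2, a3.1, a3.2]
  rw [e3]
  refine (abs_mulVec_le (B := 3 * L * (1 / 2 ^ M)) (fun a b => (h4 a b).2) (fun m => ?_) j).trans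
    (le_of_eq (by simp; ring))
  have := h5 m
  fin_cases m
  · have e : |z 0 - c.t| ≤ L * (1 / 2 ^ M) := by
      rw [← div_eq_mul_one_div]
      simpa [Cv.pt, Cv.z] using this
    have e' : |z 0 - c.t| ≤ 3 * L * (1 / 2 ^ M) := by linarith
    simpa [Cv.dr, vecHead, vecTail] using e'
  · simpa [Cv.dr, vecHead, vecTail] using k (c.a 0) (c.e 0) (z 1)
      (by simpa [Cv.pt, Cv.z] using this)
  · simpa [Cv.dr, vecHead, vecTail] using k (c.a 1) (c.e 1) (z 2)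
      (by simpa [Cv.pt, Cv.z] using this)

theorem Hy.key' (h : Hy c B z f i M R L) (hL : 1 ≤ L) (j : Fin 3) :
    |rd M ((B⁻¹ *ᵥ z) j) - w0 M c B j - if j = i then c.t else 0| ≤ 10 * L ^ 2 / 2 ^ M := by
  have a1 := abs_le.1 (h.key hL j)
  have a2 := abs_le.1 (sub_rd M ((B⁻¹ *ᵥ z) j))
  have a3 : (1 : ℝ) / 2 ^ M ≤ L ^ 2 / 2 ^ M := by gcongr; exact one_le_pow₀ hL
  rw [mul_div_assoc] at a1 ⊢
  rw [abs_le]
  constructor <;> linarith [a1.1, a1.2, a2.1, a2.2]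

theorem Hy.w (h : Hy c B z f i M R L) (hL : 1 ≤ L) (j : Fin 3) : |w0 M c B j| ≤ 6 * L ^ 2 := by
  refine (abs_mulVec_le (B := 2 * L) (fun a b => (h.2.2.2.1 a b).2) (fun m => ?_) j).trans
    (le_of_eq (by simp; ring))
  fin_cases m
  · simpa using zero_le_one.trans hL
  · simpa using abs_rd (h.1.1 0).1 hL
  · simpa using abs_rd (h.1.1 1).1 hL

theorem Hy.x (h : Hy c B z f i M R L) (hL : 1 ≤ L) : |rd M ((B⁻¹ *ᵥ z) i)| ≤ 17 * L ^ 2 := by
  have a1 := abs_le.1 ((h.key' hL i).trans (div_le_self (by positivity) (one_le_pow₀ one_le_two)))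
  have a2 := abs_le.1 (h.w hL i)
  have a3 := one_le_pow₀ (n := 2) hL
  obtain ⟨⟨-, -, t0, t1⟩, -⟩ := h
  rw [if_pos rfl] at a1
  rw [abs_le]
  constructor <;> linarith [a1.1, a1.2, a2.1, a2.2]

theorem near {x x' y t t' e : ℝ} (h : |x - y - t| ≤ e) (h' : |x' - y - t'| ≤ e) :
    |x - x' - (t - t')| ≤ 2 * e := by
  have a1 := abs_le.1 h
  have a2 := abs_le.1 h'
  rw [abs_le]
  constructor <;> linarith [a1.1, a1.2, a2.1, a2.2]

theorem Hy.back (h : Hy c B z f i M R L) (h' : Hy c' B z' f' i M R L) (hL : 1 ≤ L)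
    (e1 : rd M ((B⁻¹ *ᵥ z) (i + 1)) = rd M ((B⁻¹ *ᵥ z') (i + 1)))
    (e2 : rd M ((B⁻¹ *ᵥ z) (i + 2)) = rd M ((B⁻¹ *ᵥ z') (i + 2))) :
    ‖c.a - c'.a‖ ≤ 122 * L ^ 3 / 2 ^ M := by
  set d := w0 M c B - w0 M c' B with hd
  have b1 : B *ᵥ d = ![0, rd M (c.a 0) - rd M (c'.a 0), rd M (c.a 1) - rd M (c'.a 1)] := by
    rw [hd, w0, w0, ← mulVec_sub, mulVec_mulVec,
      mul_nonsing_inv _ (isUnit_iff_ne_zero.2 h.2.2.1), one_mulVec]
    ext m
    fin_cases m <;> simp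
  have b2 : ∀ j, j ≠ i → rd M ((B⁻¹ *ᵥ z) j) = rd M ((B⁻¹ *ᵥ z') j) →
      |d j| ≤ 20 * (L ^ 2 / 2 ^ M) := fun j hj e => by
    have a1 := abs_le.1 (h.key' hL j)
    have a2 := abs_le.1 (h'.key' hL j)
    rw [if_neg hj, mul_div_assoc] at a1 a2
    rw [hd, Pi.sub_apply, abs_le]
    constructor <;> linarith [a1.1, a1.2, a2.1, a2.2]
  have b3 := b2 _ ((by decide : ∀ i : Fin 3, i + 1 ≠ i) i) e1
  have b4 := b2 _ ((by decide : ∀ i : Fin 3, i + 2 ≠ i) i) e2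
  have b5 : d i + d (i + 1) + d (i + 2) = 0 := by
    have := congrFun b1 0
    simp only [mulVec, dotProduct, (h.2.1 _).2, one_mul, Fin.sum_univ_three, cons_val_zero] at this
    fin_cases i <;> simp <;> linarith
  have p0 : (0 : ℝ) ≤ L ^ 2 / 2 ^ M := by positivity
  have b6 : ∀ j, |d j| ≤ 40 * (L ^ 2 / 2 ^ M) := fun j => by
    rcases (by decide : ∀ i j : Fin 3, j = i ∨ j = i + 1 ∨ j = i + 2) i j with rfl | rfl | rfl
    · rw [abs_le] at b3 b4 ⊢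
      constructor <;> linarith [b3.1, b3.2, b4.1, b4.2]
    · linarith
    · linarith
  have b7 := abs_mulVec_le (fun a b => (h.2.2.2.1 a b).1) b6
  rw [b1, show (Fintype.card (Fin 3) : ℝ) * L * (40 * (L ^ 2 / 2 ^ M)) = 120 * (L ^ 3 / 2 ^ M) by
    simp; ring] at b7
  have a3 : (1 : ℝ) / 2 ^ M ≤ L ^ 3 / 2 ^ M := by gcongr; exact one_le_pow₀ hL
  refine (pi_norm_le_iff_of_nonneg (by positivity)).2 fun m => ?_
  have a1 := abs_le.1 (sub_rd M (c.a m))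
  have a2 := abs_le.1 (sub_rd M (c'.a m))
  have a4 : |rd M (c.a m) - rd M (c'.a m)| ≤ 120 * (L ^ 3 / 2 ^ M) := by
    fin_cases m
    · simpa using b7 1
    · simpa using b7 2
  rw [abs_le] at a4
  rw [Pi.sub_apply, Real.norm_eq_abs, mul_div_assoc, abs_le]
  constructor <;> linarith [a1.1, a1.2, a2.1, a2.2, a4.1, a4.2]

/-- The constant term. -/
noncomputable def uu (M R : ℕ) (i : Fin 3) (c : Cv) (B : M3) : ℝ :=
  c.p 0 - rd R (c.p 1) * w0 M c B i + rd R (c.p 2) * w0 M c B i ^ 2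

/-- The slope. -/
noncomputable def al (M R : ℕ) (i : Fin 3) (c : Cv) (B : M3) : ℝ :=
  rd R (c.p 1) - 2 * rd R (c.p 2) * w0 M c B i

theorem mul_bd {x y a b : ℝ} (h : |x| ≤ a) (h' : |y| ≤ b) : |x * y| ≤ a * b := by
  rw [abs_mul]
  exact mul_le_mul h h' (abs_nonneg _) ((abs_nonneg _).trans h)

theorem Hy.bd (h : Hy c B z f i M R L) (hL : 1 ≤ L) (hR : R ≤ M) :
    |f| ≤ 300 * L ^ 5 ∧ |uu M R i c B| ≤ 300 * L ^ 5 ∧ |al M R i c B| ≤ 300 * L ^ 5 ∧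
      |rd R (c.p 2)| ≤ 300 * L ^ 5 ∧ |f - (uu M R i c B + al M R i c B * rd M ((B⁻¹ *ᵥ z) i) +
        rd R (c.p 2) * rd M ((B⁻¹ *ᵥ z) i) ^ 2)| ≤ 300 * L ^ 5 / 2 ^ R := by
  have k1 := h.key' hL i
  have k2 := h.w hL i
  obtain ⟨⟨-, hp, t0, t1⟩, -, -, -, -, hf⟩ := h
  rw [if_pos rfl] at k1
  have r1 := abs_rd (j := R) (hp 1) hL
  have r2 := abs_rd (j := R) (hp 2) hL
  have ht : |c.t| ≤ 1 := abs_le.2 ⟨by linarith, t1.le⟩
  have l1 : L ≤ L ^ 3 := le_self_pow₀ hL (by norm_num)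
  have l2 : L ^ 3 ≤ L ^ 5 := pow_le_pow_right₀ hL (by norm_num)
  have l3 := one_le_pow₀ (n := 2) hL
  set x := rd M ((B⁻¹ *ᵥ z) i)
  set y := w0 M c B i with hy
  have p0 := abs_le.1 (hp 0)
  refine ⟨?_, ?_, ?_, by linarith, ?_⟩
  · have a1 := abs_le.1 (hf.trans (div_le_self (by positivity) (one_le_pow₀ one_le_two)))
    have a2 := abs_le.1 (mul_bd (hp 1) ht)
    have a3 := abs_le.1 (mul_bd (hp 2) (mul_bd ht ht))
    rw [Cv.φ, Cv.f, pow_two] at a1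
    rw [abs_le]
    constructor <;> linarith [a1.1, a1.2, a2.1, a2.2, a3.1, a3.2]
  · have a2 := abs_le.1 (mul_bd r1 k2)
    have a3 := abs_le.1 (mul_bd r2 (mul_bd k2 k2))
    rw [uu, ← hy, abs_le]
    constructor <;> linarith [a2.1, a2.2, a3.1, a3.2]
  · have a2 := abs_le.1 r1
    have a3 := abs_le.1 (mul_bd r2 k2)
    rw [al, ← hy, abs_le]
    constructor <;> linarith [a2.1, a2.2, a3.1, a3.2]
  · have d0 : (0 : ℝ) < 1 / 2 ^ R := by positivity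
    have k3 : |x - y - c.t| ≤ 10 * L ^ 2 * (1 / 2 ^ R) := k1.trans (by
      rw [← div_eq_mul_one_div]
      exact div_le_div_of_nonneg_left (by positivity) (by positivity)
        (pow_le_pow_right₀ one_le_two hR))
    have k4 : |x - y + c.t| ≤ 12 * L ^ 2 := by
      have a := abs_le.1 (k1.trans (div_le_self (by positivity) (one_le_pow₀ one_le_two)))
      rw [abs_le]
      constructor <;> linarith [a.1, a.2]
    have a1 := abs_le.1 hf
    have a2 := abs_le.1 (mul_bd (sub_rd R (c.p 1)) ht)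
    have a3 := abs_le.1 (mul_bd (sub_rd R (c.p 2)) (mul_bd ht ht))
    have a4 := abs_le.1 (mul_bd r1 k3)
    have a5 := abs_le.1 (mul_bd r2 (mul_bd k3 k4))
    have m1 := mul_le_mul_of_nonneg_right hL d0.le
    have m2 := mul_le_mul_of_nonneg_right l1 d0.le
    have m3 := mul_le_mul_of_nonneg_right l2 d0.le
    rw [Cv.φ, Cv.f, div_eq_mul_one_div] at a1
    rw [uu, al, ← hy, div_eq_mul_one_div, abs_le]
    constructor <;> linarith [a1.1, a1.2, a2.1, a2.2, a3.1, a3.2, a4.1, a4.2, a5.1, a5.2]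

end ALnOfA

open ALnOfA in
theorem rowLnOf : LnOf := by
  intro W T Λ Q γ l Θ B z₀ φ₀ i M R L hM hR hL h hF hS
  have hy : ∀ᶠ n in UF, ∀ v ∈ (Q n).S, Hy (γ n v) (B n v) (z₀ n v) (φ₀ n v) i (M n) (R n) (L n) :=
    h.mono fun n u => u.2.2
  have hw : ∀ᶠ n in UF, ∀ a ∈ (Q n).S, ∀ b ∈ (Q n).S, l n a = l n b → Θ n a = Θ n b →
      B n a = B n b ∧ (γ n a).p = (γ n b).p ∧
        w0 (M n) (γ n a) (B n a) = w0 (M n) (γ n b) (B n b) := h.mono fun n u a ha b hb e e' => by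
    have e1 := u.1 a ha b hb e'
    have e2 := u.2.1 a ha b hb (Prod.ext e e')
    exact ⟨e1, congrArg (·.2.2) e2, by
      rw [e1]; exact w0_eq _ (congrArg (fun s => fl (M n) s.1) e2)⟩
  have s2 := (hL.pow 2).const_mul hM (show (1 : ℝ) ≤ 20 by norm_num)
  have h1 : ∀ j, j ≠ i → Sm M fun n => ch (Q n) (fun v => fl1 (M n) (((B n v)⁻¹ *ᵥ z₀ n v) j))
      fun v => (l n v, Θ n v) := fun j hj => Sm.near1 hM s2 (by
    filter_upwards [hy, hw] with n u w a ha b hb e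
    have a1 := (u a ha).key (hL.1 n) j
    have a2 := (u b hb).key (hL.1 n) j
    rw [(w a ha b hb (congrArg Prod.fst e) (congrArg Prod.snd e)).2.2] at a1
    have a3 := near a1 a2
    rw [if_neg hj, if_neg hj, sub_zero, sub_zero] at a3
    have : (0 : ℝ) ≤ L n ^ 2 / 2 ^ M n := by positivity
    rw [mul_div_assoc] at a3 ⊢
    linarith)
  have h2 : Sm M fun n => ch (Q n) (fun v => fl1 (M n) (γ n v).t)
      fun v => (fl1 (M n) (rd (M n) (((B n v)⁻¹ *ᵥ z₀ n v) i)), l n v, Θ n v) :=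
    Sm.near1 hM s2 (by
      filter_upwards [hy, hw] with n u w a ha b hb e
      simp only [Prod.mk.injEq, fl1_rd] at e
      have a1 := (u a ha).key' (hL.1 n) i
      have a2 := (u b hb).key' (hL.1 n) i
      rw [(w a ha b hb e.2.1 e.2.2).2.2, rd_eq e.1] at a1
      have a3 := near a1 a2
      rw [if_pos rfl, if_pos rfl, sub_self, zero_sub, abs_neg] at a3
      exact a3.trans_eq (by ring))
  have h3 : Ful Q (fun n v => rd (M n) (((B n v)⁻¹ *ᵥ z₀ n v) i))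
      (fun n v => (l n v, rd (M n) (((B n v)⁻¹ *ᵥ z₀ n v) (i + 1)),
        rd (M n) (((B n v)⁻¹ *ᵥ z₀ n v) (i + 2)), Θ n v)) M := by
    refine Le.of4 hF (h1 _ ((by decide : ∀ i : Fin 3, i + 1 ≠ i) i))
      (h1 _ ((by decide : ∀ i : Fin 3, i + 2 ≠ i) i)) h2 (Eventually.of_forall fun n => ?_)
    set y := fun j v => fl1 (M n) (((B n v)⁻¹ *ᵥ z₀ n v) j) with ey
    set x := fun v => fl1 (M n) (rd (M n) (((B n v)⁻¹ *ᵥ z₀ n v) i))
    have a1 := ch_tri' (P := Q n) (fun v => fl1 (M n) (γ n v).t) (fun v => (l n v, Θ n v))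
      fun v => (x v, l n v, Θ n v)
    have a2 : ch (Q n) (fun v => (x v, l n v, Θ n v)) (fun v => (l n v, Θ n v)) ≤
        ch (Q n) x fun v => (l n v, Θ n v) := ch_mono fun _ _ _ _ e => e
    have a3 := ch_drop (P := Q n) x (y (i + 1)) fun v => (l n v, Θ n v)
    have a4 := ch_drop (P := Q n) x (y (i + 2)) fun v => (y (i + 1) v, l n v, Θ n v)
    have a5 : ch (Q n) (y (i + 2)) (fun v => (y (i + 1) v, l n v, Θ n v)) ≤
        ch (Q n) (y (i + 2)) fun v => (l n v, Θ n v) := ch_anti (Fn.snd _ _)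
    have a6 : ch (Q n) x (fun v => (y (i + 2) v, y (i + 1) v, l n v, Θ n v)) ≤ ch (Q n) x
        fun v => (l n v, rd (M n) (((B n v)⁻¹ *ᵥ z₀ n v) (i + 1)),
          rd (M n) (((B n v)⁻¹ *ᵥ z₀ n v) (i + 2)), Θ n v) := ch_anti fun a _ b _ e => by
      simp only [Prod.mk.injEq, ey] at e ⊢
      exact ⟨e.2.2.1, rd_eq e.2.1, rd_eq e.1, e.2.2.2⟩
    linarith
  have h4 : Sm M fun n => ch (Q n) (fun v => flv (M n) (γ n v).a)
      fun v => (rd (M n) (((B n v)⁻¹ *ᵥ z₀ n v) (i + 1)),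
        rd (M n) (((B n v)⁻¹ *ᵥ z₀ n v) (i + 2)), Θ n v) :=
    Sm.near hM ((hL.pow 3).const_mul hM (show (1 : ℝ) ≤ 122 by norm_num)) (by
      filter_upwards [hy, h] with n u w a ha b hb e
      simp only [Prod.mk.injEq] at e
      have e1 := w.1 a ha b hb e.2.2
      have k := u b hb
      rw [← e1] at k e
      exact (u a ha).back k (hL.1 n) e.1 e.2.1)
  refine ⟨fun n v => uu (M n) (R n) i (γ n v) (B n v), fun n v => al (M n) (R n) i (γ n v) (B n v),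
    ⟨⟨_, (hL.pow 2).const_mul hM (show (1 : ℝ) ≤ 17 by norm_num), hy.mono fun n u =>
      ⟨fun a _ b _ e => rd_eq (by simpa only [fl1_rd] using e), fun v hv => (u v hv).x (hL.1 n)⟩⟩,
    ⟨_, (hL.pow 5).const_mul hM (show (1 : ℝ) ≤ 300 by norm_num),
      hy.mono fun n u v hv => (u v hv).bd (hL.1 n) (hR.1 n)⟩,
    Le.trans h3 (Le.of_ev (hw.mono fun n w => ch_anti fun a ha b hb e => ?_)),
    Le.of2 h4 hS (h.mono fun n w => ?_)⟩, h3⟩
  · simp only [Prod.mk.injEq] at e ⊢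
    obtain ⟨-, e2, e3⟩ := w a ha b hb e.1 e.2.2.2
    exact ⟨by rw [uu, uu, e2, e3], by rw [al, al, e2, e3], by rw [e2], e.2⟩
  · set G := fun v => (rd (M n) (((B n v)⁻¹ *ᵥ z₀ n v) (i + 1)),
      rd (M n) (((B n v)⁻¹ *ᵥ z₀ n v) (i + 2)), Θ n v) with eG
    have a1 := ch_tri (P := Q n) (fun v => (al (M n) (R n) i (γ n v) (B n v),
      rd (R n) ((γ n v).p 2))) (fun v => flv (M n) (γ n v).a) G
    have a2 : ch (Q n) (fun v => (al (M n) (R n) i (γ n v) (B n v), rd (R n) ((γ n v).p 2)))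
        (fun v => (flv (M n) (γ n v).a, G v)) ≤
        ch (Q n) (fun v => (fl1 (R n) ((γ n v).p 1), fl1 (R n) ((γ n v).p 2)))
          fun v => (flv (M n) (γ n v).a, G v) := ch_mono fun a ha b hb e => by
      simp only [Prod.mk.injEq, eG] at e ⊢
      refine ⟨?_, rd_eq e.1.2⟩
      rw [al, al, rd_eq e.1.1, rd_eq e.1.2, w.1 a ha b hb e.2.2.2.2, w0_eq _ e.2.1]
    have a3 : ch (Q n) (fun v => (fl1 (R n) ((γ n v).p 1), fl1 (R n) ((γ n v).p 2)))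
        (fun v => (flv (M n) (γ n v).a, G v)) ≤
        ch (Q n) (fun v => (fl1 (R n) ((γ n v).p 1), fl1 (R n) ((γ n v).p 2)))
          fun v => (fl (M n) (γ n v).a, Θ n v) := ch_anti fun a _ b _ e => by
      simp only [Prod.mk.injEq, eG] at e ⊢
      exact ⟨e.1, e.2.2.2⟩
    linarith

end Pool.Agent.MP_5168f5_an.R4.Web
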