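import Pool.Agent.MP_5168f5_an.R4.SpecA

/-! The base is full given an invariant of the lines that is shared by the lines of a cell. -/

namespace Pool.Agent.MP_5168f5_an.R4.Web

open H19 H17S H17F Filter NCx Matrix K31

namespace AMK3A

theorem three {W K α : Type} (Q : FP W) (k : W → K) (a b c : W → α) :
    ch Q a (fun v => (b v, c v, k v)) + ch Q b (fun v => (c v, a v, k v)) +
      ch Q c (fun v => (a v, b v, k v)) ≤ ch Q (fun v => (a v, b v, c v)) k := by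
  have e1 := ch_chain (P := Q) a (fun v => (b v, c v)) k
  have e2 := ch_chain (P := Q) b c fun v => (a v, k v)
  have e4 : ch Q a (fun v => (b v, c v, k v)) ≤ ch Q a k := ch_anti ((Fn.snd _ _).right _)
  have e5 : ch Q b (fun v => (c v, a v, k v)) ≤ ch Q b fun v => (a v, k v) := ch_anti (Fn.snd _ _)
  have e6 : ch Q c (fun v => (a v, b v, k v)) ≤ ch Q c fun v => (b v, a v, k v) :=
    ch_anti fun _ _ _ _ e => by simp only [Prod.mk.injEq] at e ⊢; tauto
  linarith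

theorem law_sl {Ω T : Type} (P : FP Ω) (S : Ω → T) (i : Fin 3) : Law (G3 P S) (sl i) P id := by
  have h := kg.fst (glue P P S S) P (fun v => S v.1) S
  fin_cases i
  · exact (h.comp Prod.fst).trans (kg.fst P P S S)
  · exact (h.comp Prod.snd).trans (kg.snd P P S S (Law.rfl _))
  · exact kg.snd _ _ _ _ ((kg.fst P P S S).comp S)

theorem mem_sl {Ω T : Type} {P : FP Ω} {S : Ω → T} {v : (Ω × Ω) × Ω} (h : v ∈ (G3 P S).S)
    (i : Fin 3) : sl i v ∈ P.S ∧ S (sl i v) = S v.1.1 := by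
  obtain ⟨h1, h2, h3⟩ := (kg.mem _ _ _ _ v ((kg.fst P P S S).comp S)).1 h
  obtain ⟨h4, h5, h6⟩ := (kg.mem _ _ _ _ v.1 (Law.rfl _)).1 h1
  fin_cases i
  exacts [⟨h4, rfl⟩, ⟨h5, h6⟩, ⟨h2, h3⟩]

theorem abs_rd (j : ℕ) (x : ℝ) : |rd j x - x| ≤ 1 / 2 ^ j := by
  have h : (0 : ℝ) < 2 ^ j := by positivity
  rw [show rd j x - x = (fl1 j x - 2 ^ j * x) / 2 ^ j by rw [rd]; field_simp, abs_div, abs_of_pos h]
  exact div_le_div_of_nonneg_right (abs_fl1_sub j x) h.le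

theorem abs_dr {c : Cv} {L : ℝ} (h : c.Bd L) (hL : 1 ≤ L) (M : ℕ) (i : Fin 3) :
    |c.dr M i| ≤ 2 * L := by
  have k : ∀ j, |rd M (c.e j)| ≤ 2 * L := fun j => by
    have h1 := abs_rd M (c.e j)
    have h2 : (1 : ℝ) / 2 ^ M ≤ 1 := (div_le_one (by positivity)).2 (one_le_pow₀ one_le_two)
    have h3 := abs_sub_abs_le_abs_sub (rd M (c.e j)) (c.e j)
    linarith [(h.1 j).2]
  fin_cases i
  · simp only [Cv.dr, Fin.zero_eta, cons_val_zero, abs_one]; linarith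
  · exact k 0
  · exact k 1

theorem fm_congr {Ω : Type} {M : ℕ} {γ : Ω → Cv} {v w : (Ω × Ω) × Ω} (h : ty M γ v = ty M γ w) :
    fm M γ v = fm M γ w := by
  have k : ∀ i, (γ (sl i v)).dr M = (γ (sl i w)).dr M := fun i => by
    have h0 : fl1 M ((γ (sl i v)).e 0) = fl1 M ((γ (sl i w)).e 0) := congrFun (congrFun h i) 0
    have h1 : fl1 M ((γ (sl i v)).e 1) = fl1 M ((γ (sl i w)).e 1) := congrFun (congrFun h i) 1
    simp only [Cv.dr, rd, h0, h1]
  exact (congr (congr (congrArg frm (k 0)) (k 1)) (k 2) :)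

end AMK3A

open AMK3A

theorem rowMK3 : OfMK3 := by
  intro kd star Ω T U Λ D P γ θ S l M R ε₀ lam h hl hs
  obtain ⟨L, sL, wL⟩ := h.cp
  obtain ⟨-, -, -, hf⟩ := star P γ θ S l M R ε₀ L h sL wL
  obtain ⟨L₀, s₀, b₀⟩ := h.bd
  have big := h.big
  have sure := wL.pos.sure
  have f : ∀ i : Fin 3, Le M (fun n => M n * lg) fun n =>
      ch (cE (G3 (P n) (S n)) (gd (M n) (γ n) (L n))) (fun v => fl1 (M n) (xc (M n) (γ n) i v))
        fun v => (fl1 (M n) (xc (M n) (γ n) (i + 1) v), fl1 (M n) (xc (M n) (γ n) (i + 2) v),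
          lam n v.1.1, ty (M n) (γ n) v, θ n v.1.1) := fun i => by
    have d := ((dnS_cE wL.pos).trans
      (dnS_law (Eventually.of_forall fun n => law_sl (P n) (S n) i))).sm_ch hs
    refine Le.of2 (hf i) d ?_
    filter_upwards [hl, b₀] with n a b
    have e1 := ch_tri' (P := cE (G3 (P n) (S n)) (gd (M n) (γ n) (L n)))
      (fun v => fl1 (M n) (xc (M n) (γ n) i v)) (fun v => (l n (sl i v), xc (M n) (γ n) (i + 1) v,
        xc (M n) (γ n) (i + 2) v, ty (M n) (γ n) v, θ n v.1.1))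
      fun v => (fl1 (M n) (xc (M n) (γ n) (i + 1) v), fl1 (M n) (xc (M n) (γ n) (i + 2) v),
        lam n v.1.1, ty (M n) (γ n) v, θ n v.1.1)
    have k : ∀ v ∈ (cE (G3 (P n) (S n)) (gd (M n) (γ n) (L n))).S,
        lam n (sl i v) = lam n v.1.1 ∧ θ n (sl i v) = θ n v.1.1 := fun v hv => by
      obtain ⟨h1, h2⟩ := mem_sl (cE_sub hv) i
      have h3 : v.1.1 ∈ (P n).S := (mem_sl (cE_sub hv) 0).1
      exact ⟨a _ h1 _ h3 h2, b.2.1 _ h1 _ h3 h2⟩
    have e2 : ch (cE (G3 (P n) (S n)) (gd (M n) (γ n) (L n)))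
        (fun v => (fl1 (M n) (xc (M n) (γ n) (i + 1) v), fl1 (M n) (xc (M n) (γ n) (i + 2) v),
          lam n v.1.1, ty (M n) (γ n) v, θ n v.1.1)) (fun v => (l n (sl i v),
          xc (M n) (γ n) (i + 1) v, xc (M n) (γ n) (i + 2) v, ty (M n) (γ n) v, θ n v.1.1)) ≤
        ch (cE (G3 (P n) (S n)) (gd (M n) (γ n) (L n))) (fun v => lam n (sl i v))
          fun v => (l n (sl i v), θ n (sl i v)) :=
      ch_le (fun v hv w hw u => by
        simp only [Prod.mk.injEq, (k v hv).1, (k w hw).1] at u ⊢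
        simp only [u, and_self]) fun v hv w hw u => by
        simp only [Prod.mk.injEq, (k v hv).2, (k w hw).2] at u ⊢
        exact ⟨u.1, u.2.2.2.2⟩
    simp only [id_eq]
    linarith
  have s₁ : Sub M fun n => 2 * (L₀ n * L n) := (s₀.mul sL).const_mul big one_le_two
  have g : ∀ i : Fin 3, Sm M fun n =>
      ch (cE (G3 (P n) (S n)) (gd (M n) (γ n) (L n))) (fun v => fl1 (M n) (xc (M n) (γ n) i v))
        fun v => (fl (M n) (γ n v.1.1).pt, lam n v.1.1, ty (M n) (γ n) v, θ n v.1.1) := fun i => by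
    refine Sm.near1 big ((s₁.pow 3).const_mul big (by norm_num : (1 : ℝ) ≤ 8)) ?_
    filter_upwards [b₀, sure] with n b a v hv w hw u
    simp only [Prod.mk.injEq] at u
    have l0 := s₀.1 n
    have l1 := sL.1 n
    have bd : ∀ j t, |(γ n (sl j v)).dr (M n) t| ≤ 2 * (L₀ n * L n) := fun j t =>
      (abs_dr (b.1 _ (mem_sl (a v hv).1 j).1) l0 _ t).trans (by nlinarith)
    have inv := (kd.inv (2 * (L₀ n * L n)) _ _ _ (s₁.1 n) (fun t => ⟨bd 0 t, bd 1 t, bd 2 t⟩)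
      ((a v hv).2.trans (mul_le_mul_of_nonneg_right (by nlinarith) (abs_nonneg _)))).2
    have e1 := abs_mulVec_le (A := (fm (M n) (γ n) v)⁻¹) (v := (γ n v.1.1).pt - (γ n w.1.1).pt)
      (B := 1 / 2 ^ M n) inv (fun j => by
        rw [one_div]; exact (abs_sub_lt_of_fl1_eq (congrFun u.1 j)).le) i
    have e2 := abs_rd (M n) (((fm (M n) (γ n) v)⁻¹ *ᵥ (γ n v.1.1).pt) i)
    have e3 := abs_rd (M n) (((fm (M n) (γ n) v)⁻¹ *ᵥ (γ n w.1.1).pt) i)
    have e4 : 1 / 2 ^ M n ≤ (2 * (L₀ n * L n)) ^ 3 * (1 / 2 ^ M n) :=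
      le_mul_of_one_le_left (by positivity) ((s₁.pow 3).1 n)
    rw [mulVec_sub, Pi.sub_apply, Fintype.card_fin] at e1
    unfold xc
    rw [← fm_congr u.2.2.1, div_eq_mul_one_div]
    rw [abs_le] at e1 e2 e3 ⊢
    push_cast at e1
    constructor <;> linarith [e1.1, e1.2, e2.1, e2.2, e3.1, e3.2]
  have t : Le M (fun n => 3 * M n * lg) fun n => ch (cE (G3 (P n) (S n)) (gd (M n) (γ n) (L n)))
      (fun v => fl (M n) (γ n v.1.1).pt) fun v => (lam n v.1.1, θ n v.1.1) := by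
    refine (f 0).of6 (f 1) (f 2) (g 0) (g 1) (g 2) (Eventually.of_forall fun n => ?_)
    have e1 := three (cE (G3 (P n) (S n)) (gd (M n) (γ n) (L n)))
      (fun v => (lam n v.1.1, ty (M n) (γ n) v, θ n v.1.1))
      (fun v => fl1 (M n) (xc (M n) (γ n) 0 v)) (fun v => fl1 (M n) (xc (M n) (γ n) 1 v))
      fun v => fl1 (M n) (xc (M n) (γ n) 2 v)
    have e2 := ch_tri (P := cE (G3 (P n) (S n)) (gd (M n) (γ n) (L n)))
      (fun v => (fl1 (M n) (xc (M n) (γ n) 0 v), fl1 (M n) (xc (M n) (γ n) 1 v),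
        fl1 (M n) (xc (M n) (γ n) 2 v))) (fun v => fl (M n) (γ n v.1.1).pt)
      fun v => (lam n v.1.1, ty (M n) (γ n) v, θ n v.1.1)
    have e3 := ch_subadd (P := cE (G3 (P n) (S n)) (gd (M n) (γ n) (L n)))
      (fun v => fl1 (M n) (xc (M n) (γ n) 0 v))
      (fun v => (fl1 (M n) (xc (M n) (γ n) 1 v), fl1 (M n) (xc (M n) (γ n) 2 v)))
      fun v => (fl (M n) (γ n v.1.1).pt, lam n v.1.1, ty (M n) (γ n) v, θ n v.1.1)
    have e4 := ch_subadd (P := cE (G3 (P n) (S n)) (gd (M n) (γ n) (L n)))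
      (fun v => fl1 (M n) (xc (M n) (γ n) 1 v)) (fun v => fl1 (M n) (xc (M n) (γ n) 2 v))
      fun v => (fl (M n) (γ n v.1.1).pt, lam n v.1.1, ty (M n) (γ n) v, θ n v.1.1)
    have e5 : ch (cE (G3 (P n) (S n)) (gd (M n) (γ n) (L n))) (fun v => fl (M n) (γ n v.1.1).pt)
        (fun v => (lam n v.1.1, ty (M n) (γ n) v, θ n v.1.1)) ≤
        ch (cE (G3 (P n) (S n)) (gd (M n) (γ n) (L n))) (fun v => fl (M n) (γ n v.1.1).pt)
          fun v => (lam n v.1.1, θ n v.1.1) :=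
      ch_anti fun _ _ _ _ u => by simp only [Prod.mk.injEq] at u ⊢; exact ⟨u.1, u.2.2⟩
    simp only [show (0 : Fin 3) + 1 = 1 from rfl, show (0 : Fin 3) + 2 = 2 from rfl,
      show (1 : Fin 3) + 1 = 2 from rfl, show (1 : Fin 3) + 2 = 0 from rfl,
      show (2 : Fin 3) + 1 = 0 from rfl, show (2 : Fin 3) + 2 = 1 from rfl]
    linarith
  refine (t.bmul (C := 1) (p := fun n => pb (G3 (P n) (S n)) (gd (M n) (γ n) (L n)))
    (Eventually.of_forall fun n => ⟨pb_nonneg _ _, pb_le_one _ _⟩)).of2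
    (whp_small (C := 3 * lg) (u := fun n => 3 * M n * lg) wL
      (Eventually.of_forall fun n => le_of_eq (by ring))) (Eventually.of_forall fun n => ?_)
  have e1 := ke.ge (G3 (P n) (S n)) (gd (M n) (γ n) (L n)) (fun v => fl (M n) (γ n v.1.1).pt)
    fun v => (lam n v.1.1, θ n v.1.1)
  have e2 : ch (G3 (P n) (S n)) (fun v => fl (M n) (γ n v.1.1).pt)
      (fun v => (lam n v.1.1, θ n v.1.1)) = _ :=
    (law_sl (P n) (S n) 0).ch_id (fun ω => fl (M n) (γ n ω).pt) fun ω => (lam n ω, θ n ω)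
  have e3 := mul_nonneg (sub_nonneg.2 (pb_le_one (G3 (P n) (S n)) (gd (M n) (γ n) (L n))))
    (ch_nonneg (P := cE (G3 (P n) (S n)) fun v => ¬gd (M n) (γ n) (L n) v)
      (fun v => fl (M n) (γ n v.1.1).pt) fun v => (lam n v.1.1, θ n v.1.1))
  linarith

end Pool.Agent.MP_5168f5_an.R4.Web
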