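import Pool.Agent.MP_5168f5_an.R4.SpecA

/-! Coefficients are bounded by the values at the nodes. -/

namespace Pool.Agent.MP_5168f5_an.R4.Web

open Matrix Finset

theorem rowPC : PC := by
  intro d
  let W := vandermonde fun a : Fin (d + 1) => ((a : ℕ) : ℝ) / (d + 1)
  have hW : W.det ≠ 0 := det_vandermonde_ne_zero_iff.2 fun a b e =>
    Fin.ext (Nat.cast_injective (R := ℝ) ((div_left_inj' (by positivity)).1 e))
  have h0 : 0 ≤ ∑ i, ∑ a, |W⁻¹ i a| := by positivity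
  refine ⟨1 + ∑ i, ∑ a, |W⁻¹ i a|, by linarith, fun c ε h j => ?_⟩
  have hε : 0 ≤ ε := (abs_nonneg _).trans (h 0)
  have e : c = W⁻¹ *ᵥ (W *ᵥ c) := by
    rw [mulVec_mulVec, nonsing_inv_mul _ (isUnit_iff_ne_zero.2 hW), one_mulVec]
  have h1 : ∑ a, |W⁻¹ j a| ≤ ∑ i, ∑ a, |W⁻¹ i a| :=
    single_le_sum (f := fun i => ∑ a, |W⁻¹ i a|) (fun _ _ => by positivity) (mem_univ j)
  rw [show c j = ∑ a, W⁻¹ j a * (W *ᵥ c) a from congrFun e j]
  refine (abs_sum_le_sum_abs _ _).trans ((sum_le_sum (g := fun a => |W⁻¹ j a| * ε)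
    fun a _ => ?_).trans ?_)
  · rw [abs_mul]
    refine mul_le_mul_of_nonneg_left (le_of_eq_of_le (congrArg _ ?_) (h a)) (abs_nonneg _)
    simp only [W, mulVec, dotProduct, vandermonde_apply, mul_comm]
  · rw [← sum_mul]
    exact mul_le_mul_of_nonneg_right (by linarith) hε

end Pool.Agent.MP_5168f5_an.R4.Web
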