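import Pool.Agent.MP_5168f5_an.R4.SpecA

/-! From the frame to a quadric: the curved case. -/

namespace Pool.Agent.MP_5168f5_an.R4.Web

open H19 H17S H17F Filter NCx Matrix

namespace APoCA

section Copies

variable {Ω T W ι : Type} [Fintype ι] {P : FP Ω} {S : Ω → T} {Q : FP W} {ω : ι → W → Ω}

theorem law1 (hc : KCop) (h : Cop P S Q ω) (i : ι) : Law Q (ω i) P id := fun F => by
  have h1 := hc.sub P S Q ω (fun _ : Unit => i) (fun _ _ _ => rfl) h fun _ => F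
  simp only [Fintype.prod_unique] at h1
  exact h1.trans (ke.exp P S fun _ => F).symm

theorem law3 (hc : KCop) (h : Cop P S Q ω) {i j k : ι} (hij : i ≠ j) (hjk : j ≠ k) (hik : i ≠ k) :
    Law Q (fun v => ((ω i v, ω j v), ω k v)) (G3 P S) id := by
  have hi : Function.Injective ![i, j, k] := by
    intro a b e
    fin_cases a <;> fin_cases b <;> simp_all [eq_comm]
  exact (hc.law P S Q (G3 P S) _ _ (hc.sub P S Q ω _ hi h) (hc.g3 P S)).comp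
    fun f => ((f 0, f 1), f 2)

theorem law4 (hc : KCop) (h : Cop P S Q ω) {i j k m : ι} (hij : i ≠ j) (hjk : j ≠ k) (hik : i ≠ k)
    (him : i ≠ m) (hjm : j ≠ m) (hkm : k ≠ m) :
    Law Q (fun v => (((ω i v, ω j v), ω k v), ω m v)) (G4 P S) id := by
  have hi : Function.Injective ![i, j, k, m] := by
    intro a b e
    fin_cases a <;> fin_cases b <;> simp_all [eq_comm]
  exact (hc.law P S Q (G4 P S) _ _ (hc.sub P S Q ω _ hi h) (hc.g4 P S)).comp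
    fun f => (((f 0, f 1), f 2), f 3)

theorem law11 (P : FP Ω) (S : Ω → T) : Law (G3 P S) (fun v => v.1.1) P id :=
  ((kg.fst (glue P P S S) P (fun v => S v.1) S).comp Prod.fst).trans (kg.fst P P S S)

theorem mem3 {v : (Ω × Ω) × Ω} (hv : v ∈ (G3 P S).S) : v.1.1 ∈ P.S ∧ S v.1.2 = S v.1.1 := by
  have h1 := (kg.mem (glue P P S S) P (fun v => S v.1) S v ((kg.fst P P S S).comp S)).1 hv
  have h2 := (kg.mem P P S S v.1 (Law.rfl S)).1 h1.1
  exact ⟨h2.1, h2.2.2⟩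

theorem mem4 {v : ((Ω × Ω) × Ω) × Ω} (hv : v ∈ (G4 P S).S) :
    v.1.1.1 ∈ P.S ∧ v.2 ∈ P.S ∧ S v.2 = S v.1.1.1 := by
  have h1 := (kg.mem (G3 P S) P (fun v => S v.1.1) S v ((law11 P S).comp S)).1 hv
  exact ⟨(mem3 h1.1).1, h1.2⟩

theorem ne2 {N : ℕ} {i : Fin (N + 3)} (h : (i : ℕ) ≠ 2) : i ≠ 2 := fun e =>
  h (e ▸ Fin.val_two)

theorem same {N : ℕ} {ω : Fin (N + 3) → W → Ω} (hc : KCop) (h : Cop P S Q ω) (i : Fin (N + 3))
    {v : W} (hv : v ∈ Q.S) : S (ω i v) = S (ω 0 v) := by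
  by_cases h0 : i = 0
  · rw [h0]
  by_cases h1 : i = 1
  · exact (mem3 ((law3 hc h (Ne.symm h0) (ne2 (by simp [h1])) (ne2 (by simp))).mem hv)).2
  · exact (mem3 ((law3 hc h (Ne.symm h0) h1 (by simp)).mem hv)).2

end Copies

theorem whp_iff {Ω W : ℕ → Type} {P : ∀ n, FP (Ω n)} {Q : ∀ n, FP (W n)} {ρ : ∀ n, W n → Ω n}
    (h : ∀ n, Law (Q n) (ρ n) (P n) id) (E : ∀ n, Ω n → Prop) :
    Whp Q (fun n v => E n (ρ n v)) ↔ Whp P E := by
  have e : ∀ n, pb (Q n) (fun v => ¬E n (ρ n v)) = pb (P n) fun ω => ¬E n ω :=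
    fun n => (h n).pb_eq fun ω => ¬E n ω
  unfold Whp
  simp only [e]

theorem abs_rd (M : ℕ) (x : ℝ) : |rd M x| ≤ |x| + 1 := by
  have h := abs_fl1_sub M x
  have h2 : (1 : ℝ) ≤ 2 ^ M := one_le_pow₀ one_le_two
  have e : rd M x = x + ((fl1 M x : ℝ) - 2 ^ M * x) / 2 ^ M := by unfold rd; field_simp; ring
  rw [e]
  refine (abs_add_le _ _).trans (add_le_add le_rfl ?_)
  rw [abs_div, abs_of_pos (by positivity : (0 : ℝ) < 2 ^ M), div_le_one (by positivity)]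
  linarith

theorem dr_le {c : Cv} {L L' : ℝ} (h : c.Bd L) (hL : 1 ≤ L) (e : 2 * L ≤ L') (M : ℕ) (i : Fin 3) :
    |c.dr M i| ≤ L' := by
  have h0 := (abs_rd M (c.e 0)).trans (add_le_add (h.1 0).2 le_rfl)
  have h1 := (abs_rd M (c.e 1)).trans (add_le_add (h.1 1).2 le_rfl)
  fin_cases i <;> simp [Cv.dr] <;> linarith

theorem z_le {c : Cv} {L L' s : ℝ} (h : c.Bd L) (hL : 1 ≤ L) (e : 2 * L ≤ L') (h0 : 0 ≤ s)
    (h1 : s ≤ 1) (i : Fin 3) : |c.z s i| ≤ L' := by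
  have k : ∀ j, |c.a j + s * c.e j| ≤ L' := fun j => by
    refine (abs_add_le _ _).trans ?_
    rw [abs_mul, abs_of_nonneg h0]
    nlinarith [(h.1 j).1, (h.1 j).2, abs_nonneg (c.e j)]
  fin_cases i
  · simp only [Cv.z, Fin.zero_eta, cons_val_zero]; rw [abs_of_nonneg h0]; linarith
  · exact k 0
  · exact k 1

theorem bd_mono {p : Pq} {L L' : ℝ} (h : p.Bd L) (e : L ≤ L') : p.Bd L' :=
  ⟨h.1.trans e, fun i => (h.2.1 i).trans e, fun i j => ⟨(h.2.2.1 i j).1.trans e, (h.2.2.1 i j).2⟩,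
    fun i => (h.2.2.2.1 i).trans e, h.2.2.2.2.trans e⟩

theorem bd_zero {L : ℝ} (h : 0 ≤ L) : Pq.Bd 0 L := by
  refine ⟨?_, fun i => ?_, fun i j => ⟨?_, rfl⟩, fun i => ?_, ?_⟩ <;> simpa using h

/-- The data `p` approximate the potential `C` in the frame `B`. -/
def Gd (A L ε : ℝ) (B q : M3) (C : Arr) (p : Pq) : Prop :=
  p.Bd A ∧ ∀ z : V 3, (∀ i, |z i| ≤ L) → |tv C (B⁻¹ *ᵥ z) - psi p q z| ≤ ε

/-- A choice of such data. -/
noncomputable def pick (A L ε : ℝ) (B q : M3) (C : Arr) : Pq := Classical.epsilon (Gd A L ε B q C)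

theorem fits {c : Cv} {Ψ Ψ' : V 3 → ℝ} {ε δ η : ℝ} (h : c.Fits Ψ ε)
    (e : ∀ s, 0 ≤ s → s ≤ 1 → |Ψ (c.z s) - Ψ' (c.z s)| ≤ δ) (k : ε + 2 * δ ≤ η) : c.Fits Ψ' η := by
  intro s h0 h1
  have a := abs_le.1 (h s h0 h1)
  have b := abs_le.1 (e s h0 h1)
  have d := abs_le.1 (e 0 le_rfl zero_le_one)
  rw [abs_le]; constructor <;> linarith [a.1, a.2, b.1, b.2, d.1, d.2]

theorem fm_eq {Ω : Type} {M : ℕ} {γ : Ω → Cv} {a b : (Ω × Ω) × Ω} (e : ty M γ a = ty M γ b) :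
    fm M γ a = fm M γ b := by
  have k : ∀ i, (γ (sl i a)).dr M = (γ (sl i b)).dr M := fun i => by
    have h0 : fl1 M ((γ (sl i a)).e 0) = fl1 M ((γ (sl i b)).e 0) := congrFun (congrFun e i) 0
    have h1 : fl1 M ((γ (sl i a)).e 1) = fl1 M ((γ (sl i b)).e 1) := congrFun (congrFun e i) 1
    simp only [Cv.dr, rd, h0, h1]
  exact (congr (congr (congrArg frm (k 0)) (k 1)) (k 2) :)

end APoCA

open APoCA in
theorem rowPoC : OfPoC := by
  intro _ hc hT hC hD hE Ω T U Λ P γ θ S l M R ε₀ q hA hq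
  obtain ⟨C, L, k, hF⟩ := hE P γ θ S l M R ε₀ hA
  obtain ⟨K, m, N, hK, hC⟩ := hC
  obtain ⟨Lq, hLq, hq, hqw⟩ := hq
  obtain ⟨Lb, hLb, hb⟩ := hA.bd
  obtain ⟨Lc, hLc, hcp⟩ := hA.cp
  have hM := hA.big
  obtain ⟨L₁, hL₁, e₁⟩ : ∃ L₁, Sub M L₁ ∧
      ∀ n, L n ≤ L₁ n ∧ Lq n ≤ L₁ n ∧ Lc n ≤ L₁ n ∧ 2 * Lb n ≤ L₁ n :=
    ⟨_, ((hF.sub.add hLq hM).add hLc hM).add (hLb.const_mul hM one_le_two) hM, fun n => by
      have := hF.sub.1 n; have := hLq.1 n; have := hLc.1 n; have := hLb.1 n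
      refine ⟨?_, ?_, ?_, ?_⟩ <;> linarith⟩
  have hA1 : Sub M fun n => K * L₁ n ^ m := (hL₁.pow m).const_mul hM hK
  have hL' : Sub M fun n => 3 * (K * L₁ n ^ m * L₁ n) := (hA1.mul hL₁).const_mul hM (by norm_num)
  have hsm : ∀ᶠ n in UF, K * L₁ n ^ m * (L₁ n / 2 ^ k n) ≤ 1 := by
    filter_upwards [((hA1.mul hL₁).frac (hF.frac.trans hA.frac)).2 (1 / 2) one_half_pos] with n a
    rw [← mul_div_assoc, div_le_one (by positivity)]
    refine a.trans (le_trans (le_of_eq ?_) (exp_le_two_pow (k n)))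
    congr 1; ring
  have hθ : ∀ᶠ n in UF, Fn (P n) (θ n) (S n) := hb.mono fun n a => a.2.1
  have hqS : ∀ᶠ n in UF, Fn (P n) (q n) (S n) := (hq.and hθ).mono fun n a => a.1.1.trans a.2
  choose W Q ω hω using fun n => hc.ex (Fin (N + 3)) (P n) (S n)
  have h01 : (0 : Fin (N + 3)) ≠ 1 := by simp
  have h12 : (1 : Fin (N + 3)) ≠ 2 := ne2 (by simp)
  have h02 : (0 : Fin (N + 3)) ≠ 2 := ne2 (by simp)
  have w1 : Whp Q fun n v => ∀ t : Fin (N + 3) × Fin (N + 3) × Fin (N + 3),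
      t.1 ≠ t.2.1 → t.2.1 ≠ t.2.2 → t.1 ≠ t.2.2 →
      gd (M n) (γ n) (Lc n) ((ω n t.1 v, ω n t.2.1 v), ω n t.2.2 v) := by
    refine Whp.all fun t => ?_
    by_cases h : t.1 ≠ t.2.1 ∧ t.2.1 ≠ t.2.2 ∧ t.1 ≠ t.2.2
    · exact ((whp_iff (fun n => law3 hc (hω n) h.1 h.2.1 h.2.2) _).2 hcp).mono
        (Eventually.of_forall fun _ _ _ a _ _ _ => a)
    · exact Whp.of_ev (Eventually.of_forall fun _ _ _ a b c => absurd ⟨a, b, c⟩ h)
  have w2 := Whp.all fun i : Fin (N + 3) => (whp_iff (fun n => law1 hc (hω n) i) _).2 hqw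
  have w3 := Whp.all fun j : Fin N => (whp_iff (fun n => law4 hc (hω n) h01 h12 h02
    (m := j.succ.succ.succ) (by simp [Fin.ext_iff]) (by simp [Fin.ext_iff])
    (ne2 (by simp)).symm) _).2 hF.d3
  have w4 : Whp (fun n => G3 (P n) (S n)) fun n v => ∃ p, Gd (K * L₁ n ^ m) (L₁ n)
      (K * L₁ n ^ m * (L₁ n / 2 ^ k n)) (fm (M n) (γ n) v) (q n v.1.1) (C n v) p := by
    refine (whp_iff (fun n => law3 hc (hω n) h01 h12 h02) _).1 (((w1.and w2).and w3).mono ?_)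
    filter_upwards [hsm, hb, hq, hqS] with n a1 a2 a3 a4 v hv hw
    have hm : ∀ i, ω n i v ∈ (P n).S := fun i => (law1 hc (hω n) i).mem hv
    obtain ⟨b1, b2, b3, b4⟩ := e₁ n
    have l1 := hL₁.1 n
    have hk : ∀ {x : ℝ} {j : ℕ}, 0 ≤ x → x ≤ L₁ n → k n ≤ j → x / 2 ^ j ≤ L₁ n / 2 ^ k n :=
      fun h0 h1 h2 => div_le_div₀ (by linarith) h1 (by positivity) (pow_le_pow_right₀ one_le_two h2)
    obtain ⟨c1, i₀, j₀, c2⟩ := a3.2 _ (hm 0)
    refine hC (L₁ n) (L₁ n / 2 ^ k n) (fun i => (γ n (ω n i v)).dr (M n)) (q n (ω n 0 v))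
      (C n ((ω n 0 v, ω n 1 v), ω n 2 v)) l1 (by positivity) a1
      (fun i => dr_le (a2.1 _ (hm i)) (hLb.1 n) b4 _)
      (fun i j j' d1 d2 d3 => (hw.1.1 (i, j, j') d1 d2 d3).trans
        (mul_le_mul_of_nonneg_right b3 (abs_nonneg _)))
      (fun i j => ⟨(c1 i j).1.trans b2, (c1 i j).2⟩)
      ⟨i₀, j₀, c2.trans (mul_le_mul_of_nonneg_right b2 (abs_nonneg _))⟩ (fun i => ?_)
      (fun i j j' => (hF.bd n _ i j j').trans b1)
      fun j i i' i'' => (hw.2 j i i' i'').trans (hk (hF.sub.pos n).le b1 le_rfl)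
    rw [← a4 _ (hm i) _ (hm 0) (same hc (hω n) i hv)]
    exact (hw.1.2 i).trans (hk (hLq.pos n).le b2 (hF.frac.1 n))
  obtain ⟨p₀, hp₀⟩ : ∃ p₀ : ∀ n, (Ω n × Ω n) × Ω n → Pq, ∀ n v, p₀ n v =
      pick (K * L₁ n ^ m) (L₁ n) (K * L₁ n ^ m * (L₁ n / 2 ^ k n)) (fm (M n) (γ n) v)
        (q n v.1.1) (C n v) := ⟨_, fun _ _ => rfl⟩
  have hmi : Sm M fun n => mi (G3 (P n) (S n)) (p₀ n) (fun v => S n v.1.1) fun v => θ n v.1.1 := by
    refine ((hT P θ S (fun n ω => fl (M n) (γ n ω).e) M hθ hA.typ).1.add hF.sm).mono ?_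
    filter_upwards [hq] with n a
    rw [mi_symm]
    refine (mi_near _ _ (ty (M n) (γ n)) _).trans (add_le_add (le_of_eq (mi_symm _ _ _))
      (ch_mono fun x hx y hy e => ?_))
    simp only [Prod.mk.injEq] at e
    rw [hp₀, hp₀, e.1, fm_eq e.2.1, a.1 _ (mem3 hx).1 _ (mem3 hy).1 e.2.2]
  obtain ⟨p, h1, h2, h3⟩ := hD P (fun n => G3 (P n) (S n)) θ S (fun n v => v.1.1) p₀
    (fun n p x => p.Bd (3 * (K * L₁ n ^ m * L₁ n)) ∧
      (γ n x).Fits (psi p (q n x)) (3 * (K * L₁ n ^ m * L₁ n) / 2 ^ k n)) M hM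
    (fun n => law11 (P n) (S n)) hθ hmi (by
      refine (((whp_iff (fun n => kg.fst (G3 (P n) (S n)) (P n) (fun v => S n v.1.1) (S n)) _).2
        w4).and hF.fit).mono ?_
      filter_upwards [hb, hqS] with n a2 a4 v hv hw
      obtain ⟨m1, m2, m3⟩ := mem4 hv
      have g := Classical.epsilon_spec hw.1
      rw [hp₀, a4 _ m2 _ m1 m3]
      have l1 := hL₁.1 n
      have l2 := hA1.1 n
      refine ⟨bd_mono g.1 (by nlinarith), fits hw.2 (fun s h0 h1 =>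
        g.2 _ (z_le (a2.1 _ m2) (hLb.1 n) (e₁ n).2.2.2 h0 h1)) ?_⟩
      rw [← mul_div_assoc, ← mul_div_assoc, ← add_div]
      exact div_le_div_of_nonneg_right (by nlinarith [(e₁ n).1]) (by positivity))
  classical
  refine ⟨fun n x => if (p n x).Bd (3 * (K * L₁ n ^ m * L₁ n)) then p n x else 0, _, k,
    hF.frac, hL', ?_, h2.mono (Eventually.of_forall fun n => ch_mono fun x _ y _ e => ?_),
    h3.mono (Eventually.of_forall fun n x _ a => ?_)⟩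
  · filter_upwards [h1, hq] with n a b
    refine ⟨fun x hx y hy e => by simp only [a x hx y hy e], fun x hx => ⟨?_, fun h0 => ?_⟩⟩
    · split_ifs with h
      · exact h
      · exact bd_zero (hL'.pos n).le
    · obtain ⟨-, i, j, c⟩ := b.2 x hx
      rw [h0] at c
      norm_num at c
  · simp only [show p n x = p n y from congrArg Prod.fst e]
  · rw [if_pos a.1]; exact a.2

end Pool.Agent.MP_5168f5_an.R4.Web
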