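import Pool.Agent.MP_5168f5_an.R4.SpecA

/-! From the frame to a quadric: the flat case. -/

namespace Pool.Agent.MP_5168f5_an.R4.Web

open H19 H17S H17F Filter NCx Matrix

namespace APoFA

/-- The direction of a type. -/
noncomputable def dz (M : ℕ) (u : Z 2) : V 3 := ![1, (u 0 : ℝ) / 2 ^ M, (u 1 : ℝ) / 2 ^ M]

/-- `p` approximates the potential `c` in the frame of the types `τ`. -/
def Gp (M : ℕ) (A B ε : ℝ) (τ : Fin 3 → Z 2) (c : Arr) (p : Pq) : Prop :=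
  p.Bd B ∧ p.2.2.2 = (0, 0) ∧ ∀ z : V 3, (∀ i, |z i| ≤ A) →
    |tv c ((frm (dz M (τ 0)) (dz M (τ 1)) (dz M (τ 2)))⁻¹ *ᵥ z) - pq p z 0| ≤ B * ε

theorem bd_mono {p : Pq} {L L' : ℝ} (h : p.Bd L) (e : L ≤ L') : p.Bd L' :=
  ⟨h.1.trans e, fun i => (h.2.1 i).trans e, fun i j => ⟨(h.2.2.1 i j).1.trans e, (h.2.2.1 i j).2⟩,
    fun i => (h.2.2.2.1 i).trans e, h.2.2.2.2.trans e⟩

theorem abs_rd (M : ℕ) {x L : ℝ} (h : |x| ≤ L) (h1 : 1 ≤ L) : |rd M x| ≤ 2 * L := by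
  have h2 := fl1_le M x
  have h3 := lt_fl1 M x
  have h4 : ((2 : ℝ) ^ M)⁻¹ ≤ 1 := inv_le_one_of_one_le₀ (one_le_pow₀ one_le_two)
  have h5 := abs_le.1 h
  rw [rd, div_eq_inv_mul]
  exact abs_le.2 ⟨by linarith, by linarith⟩

theorem abs_dr (M : ℕ) {c : Cv} {L : ℝ} (h : c.Bd L) (h1 : 1 ≤ L) (i : Fin 3) :
    |c.dr M i| ≤ 2 * L := by
  fin_cases i
  · simpa [Cv.dr] using by linarith
  · exact abs_rd M (h.1 0).2 h1
  · exact abs_rd M (h.1 1).2 h1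

theorem abs_z {c : Cv} {L s : ℝ} (h : c.Bd L) (h1 : 1 ≤ L) (s0 : 0 ≤ s) (s1 : s ≤ 1) (i : Fin 3) :
    |c.z s i| ≤ 2 * L := by
  have k : ∀ j, |c.a j + s * c.e j| ≤ 2 * L := fun j => by
    refine (abs_add_le _ _).trans ?_
    rw [abs_mul, abs_of_nonneg s0]
    nlinarith [(h.1 j).1, (h.1 j).2, abs_nonneg (c.e j)]
  fin_cases i
  · exact (abs_of_nonneg s0).trans_le (by linarith)
  · exact k 0
  · exact k 1

variable {Ω T : Type} (P : FP Ω) (S : Ω → T)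

theorem law3 : Law (G3 P S) (fun v => v.1.1) P id :=
  ((kg.fst _ _ _ _).comp Prod.fst).trans (kg.fst _ _ _ _)

theorem mem4 {v : ((Ω × Ω) × Ω) × Ω} (h : v ∈ (G4 P S).S) :
    v.1.1.1 ∈ P.S ∧ v.1.1.2 ∈ P.S ∧ v.1.2 ∈ P.S ∧ v.2 ∈ P.S := by
  obtain ⟨h1, h2, -⟩ := (kg.mem _ _ _ _ v ((law3 P S).comp S)).1 h
  obtain ⟨h3, h4, -⟩ := (kg.mem _ _ _ _ v.1 ((kg.fst _ _ _ _).comp S)).1 h1
  obtain ⟨h5, h6, -⟩ := (kg.mem _ _ _ _ v.1.1 (Law.rfl _)).1 h3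
  exact ⟨h5, h6, h4, h2⟩

/-- The four copies. -/
def s4 {Ω : Type} : Fin 4 → ((Ω × Ω) × Ω) × Ω → Ω :=
  ![fun v => v.1.1.1, fun v => v.1.1.2, fun v => v.1.2, fun v => v.2]

theorem tri (kc : KCop) {Ω T : ℕ → Type} {P : ∀ n, FP (Ω n)} {S : ∀ n, Ω n → T n}
    (E : ∀ n, (Fin 3 → Ω n) → Prop) (h : Whp (fun n => G3 (P n) (S n)) fun n v => E n (sl · v))
    (σ : Fin 3 → Fin 4) (hσ : Function.Injective σ) :
    Whp (fun n => G4 (P n) (S n)) fun n v => E n (fun i => s4 (σ i) v) := fun ε hε =>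
  (h ε hε).mono fun n a => ((kc.law _ _ _ _ _ _ (kc.sub _ _ _ s4 σ hσ (kc.g4 (P n) (S n)))
    (kc.g3 (P n) (S n))).pb_eq fun f => ¬E n f).trans_le a

end APoFA

open APoFA in
theorem rowPoF : OfPoF := by
  intro _ kc tf ⟨K, m, hK, alg⟩ der fre Ω T U Λ P γ θ S l M R ε₀ as flat
  obtain ⟨C, L, k, fr⟩ := fre P γ θ S l M R ε₀ as
  obtain ⟨L0, hL0, bd⟩ := as.bd
  obtain ⟨L1, hL1, cp⟩ := as.cp
  have hθ := bd.mono fun _ a => a.2.1
  have hB := ((((fr.sub.add hL1 as.big).add (hL0.const_mul as.big one_le_two) as.big).pow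
    m).const_mul as.big hK)
  set A : ℕ → ℝ := fun n => L n + L1 n + 2 * L0 n with hA
  set B : ℕ → ℝ := fun n => K * A n ^ m with hBd
  have hL' := ((as.big.sub le_rfl).add (hB.const_mul as.big one_le_two) as.big).mul fr.sub
  set p0 : ∀ n, (Ω n × Ω n) × Ω n → Pq := fun n v =>
    Classical.epsilon (Gp (M n) (A n) (B n) (L n / 2 ^ k n) (ty (M n) (γ n) v) (C n v)) with hp0
  have hmi : Sm M fun n => mi (G3 (P n) (S n)) (p0 n) (fun v => S n v.1.1) fun v => θ n v.1.1 := by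
    refine ((tf P θ S (fun n ω => fl (M n) (γ n ω).e) M hθ as.typ).1.add fr.sm).mono
      (Eventually.of_forall fun n => ?_)
    rw [mi_symm (p0 n), mi_symm _ fun v : (Ω n × Ω n) × Ω n => S n v.1.1]
    refine (mi_near _ _ (ty (M n) (γ n)) _).trans (add_le_add le_rfl (ch_mono ?_))
    intro a _ b _ e
    simp only [Prod.mk.injEq] at e
    simp only [hp0, e.1, e.2.1]
  have tr := tri kc (fun n f => 1 ≤ L1 n * |det3 ((γ n (f 0)).dr (M n)) ((γ n (f 1)).dr (M n))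
    ((γ n (f 2)).dr (M n))|) cp
  obtain ⟨C', h1, h2, h3⟩ := der P (fun n => G3 (P n) (S n)) θ S (fun _ v => v.1.1) p0
    (fun n p ω => (p.Bd ((1 + 2 * B n) * L n) ∧ p.2.2.2 = (0, 0)) ∧
      (γ n ω).Fits (psi p 0) ((1 + 2 * B n) * L n / 2 ^ k n)) M as.big
    (fun n => law3 _ _) hθ hmi (by
      refine ((((((tr ![0, 1, 2] (by decide)).and (tr ![3, 1, 2] (by decide))).and
        (tr ![0, 3, 2] (by decide))).and (tr ![0, 1, 3] (by decide))).and fr.fit).and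
        (fr.d2 flat)).mono ?_
      filter_upwards [bd] with n a v hv ⟨⟨⟨⟨⟨d0, d1⟩, d2⟩, d3⟩, ft⟩, e1, e2⟩
      obtain ⟨m1, m2, m3, m4⟩ := mem4 _ _ hv
      have q0 := hL0.1 n
      have q1 := hL1.1 n
      have q2 := fr.sub.1 n
      have q3 : 1 ≤ B n := hB.1 n
      have a0 : 2 * L0 n ≤ A n := by simp only [hA]; linarith
      have a1 : L1 n ≤ A n := by simp only [hA]; linarith
      have a2 : L n ≤ A n := by simp only [hA]; linarith
      have up : ∀ {x : ℝ}, 1 ≤ L1 n * |x| → 1 ≤ A n * |x| := fun h =>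
        h.trans (mul_le_mul_of_nonneg_right a1 (abs_nonneg _))
      have dr := fun ω h i => (abs_dr (M n) (a.1 ω h) q0 i).trans a0
      obtain ⟨g1, g2, g3⟩ : Gp (M n) (A n) (B n) (L n / 2 ^ k n) (ty (M n) (γ n) v.1) (C n v.1)
          (p0 n v.1) := Classical.epsilon_spec (alg (A n) (L n / 2 ^ k n) _ _ _ ((γ n v.2).dr (M n))
        (C n v.1) (q2.trans a2) (by positivity)
        (fun i => ⟨dr _ m1 i, dr _ m2 i, dr _ m3 i, dr _ m4 i⟩) (up d0) (up d1) (up d2) (up d3)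
        (fun i j m => (fr.bd n _ i j m).trans a2) e2 e1)
      refine ⟨⟨bd_mono g1 (by nlinarith), g2⟩, fun s s0 s1 => ?_⟩
      have k1 := abs_le.1 (g3 _ fun i => (abs_z (a.1 _ m4) q0 s0 s1 i).trans a0)
      have k2 := abs_le.1 (g3 _ fun i => (abs_z (a.1 _ m4) q0 le_rfl zero_le_one i).trans a0)
      have k3 := abs_le.1 (ft s s0 s1)
      simp only [psi, zero_mulVec, dotProduct_zero]
      rw [mul_div_assoc]
      change _ ≤ tv _ ((fm (M n) (γ n) v.1)⁻¹ *ᵥ _) - _ ∧ tv _ ((fm (M n) (γ n) v.1)⁻¹ *ᵥ _) - _ ≤ _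
        at k1 k2
      exact abs_le.2 ⟨by linarith, by linarith⟩)
  classical
  refine ⟨fun n ω => if (C' n ω).Bd ((1 + 2 * B n) * L n) ∧ (C' n ω).2.2.2 = (0, 0) then C' n ω
    else 0, _, k, fr.frac, hL', h1.mono fun n a => ⟨fun x hx y hy e => ?_, fun ω _ => ?_⟩,
    h2.mono (Eventually.of_forall fun n => ch_mono fun x _ y _ e => ?_),
    h3.mono (Eventually.of_forall fun n ω _ a => ?_)⟩
  · simp only [a x hx y hy e]
  · have := (hL'.pos n).le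
    split_ifs with c
    · exact ⟨c.1, fun _ => c.2⟩
    · exact ⟨by simpa [Pq.Bd] using this, fun _ => rfl⟩
  · simp only [congrArg Prod.fst e, show C' n x = C' n y from congrArg Prod.fst e]
  · rw [if_pos a.1]
    exact a.2

end Pool.Agent.MP_5168f5_an.R4.Web
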