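import Pool.Agent.MP_5168f5_an.R4.SpecA

/-! The invariant of a web has no full window; the flat case. -/

namespace Pool.Agent.MP_5168f5_an.R4.Web

open H19 H17S H17F Filter NCx Matrix

namespace APotNA

variable {Ω T Γ Γ' D : ℕ → Type} {P : ∀ n, FP (Ω n)} {M R k : ℕ → ℕ} {G : ∀ n, Ω n → Γ n}
  {G' : ∀ n, Ω n → Γ' n} {x y z φ u α β u' α' β' u'' α'' β'' : RV Ω} {Θ : ∀ n, Ω n → T n}
  {L : ℕ → ℝ}

theorem ful_add {C : ∀ n, Ω n → D n} (h : Ful P x G M) (hC : Sm M fun n => ch (P n) (C n) (Θ n))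
    (e₀ : ∀ n, Fn (P n) (Θ n) (G n)) (e : ∀ n, Fn (P n) (G' n) fun ω => (C n ω, G n ω)) :
    Ful P x G' M := by
  refine Le.of2 h hC (Eventually.of_forall fun n => ?_)
  have a1 := ch_drop (P := P n) (fun ω => fl1 (M n) (x n ω)) (C n) (G n)
  have a2 := ch_anti (F := fun ω => fl1 (M n) (x n ω)) (e n)
  have a3 := ch_anti (F := C n) (e₀ n)
  linarith

theorem ln_add {C : ∀ n, Ω n → D n} (h : Ln P x G φ u α β M R)
    (hC : Sm M fun n => ch (P n) (C n) (Θ n)) (e₀ : ∀ n, Fn (P n) (Θ n) (G n)) :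
    Ln P x (fun n ω => (C n ω, G n ω)) φ u α β M R :=
  ⟨h.grid, h.bd, ful_add h.ful hC (fun n => (((e₀ n).right _).right _).right _)
    fun n a _ b _ e => by simp only [Prod.mk.injEq] at e ⊢; tauto,
    h.sv.mono (Eventually.of_forall fun n => ch_anti (Fn.snd _ _))⟩

/-- A full coordinate is independent of the data. -/
theorem ind {c : ∀ n, Ω n → D n} (hM : Big M) (g : Grid P x M) (h : Ful P x G M)
    (e : ∀ n, Fn (P n) (fun ω => (c n ω, G' n ω)) (G n)) :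
    Sm M fun n => mi (P n) (c n) (x n) (G' n) := by
  obtain ⟨L, l, b⟩ := g
  have h1 := le_fl1 (P := P) (x := x) (G := G') (j := fun _ => 0) (k := M) hM
    (l.const_mul hM one_le_two) (fun _ => Nat.zero_le _) (b.mono fun n a v hv w hw _ => by
      rw [pow_zero, div_one]
      exact (abs_sub _ _).trans (by linarith [a.2 v hv, a.2 w hw]))
  refine h1.of2 h (b.mono fun n a => ?_)
  have a1 : ch (P n) (x n) (G' n) ≤ ch (P n) (fun ω => fl1 (M n) (x n ω)) (G' n) :=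
    ch_mono (a.1.left _)
  have a2 : ch (P n) (fun ω => fl1 (M n) (x n ω)) (G n) ≤
      ch (P n) (x n) fun ω => (c n ω, G' n ω) := ch_le ((Fn.comp _ _).left _) (e n)
  rw [mi_symm, mi, Nat.cast_zero]
  linarith

theorem rot1 (C : Arr) (x y z : ℝ) : tq (fun i j l => C l i j) y z x = tq C x y z := by
  simp only [tq, Fin.sum_univ_three]; ring

theorem rot2 (C : Arr) (x y z : ℝ) : tq (fun i j l => C j l i) z x y = tq C x y z := by
  simp only [tq, Fin.sum_univ_three]; ring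

/-- The array with one slice. -/
def sc (C : Arr) : Arr := ![C 2, 0, 0]

theorem top {C : Arr} {x y z φ u α e e' : ℝ} (h : |φ - tq C x y z - (u - tq C 0 y z)| ≤ e)
    (h' : |φ - (u + α * x + 0 * x ^ 2)| ≤ e') :
    |∑ i : Fin (2 + 1), ![0, bq (C 1) y z - α, bq (C 2) y z] i * x ^ (i : ℕ)| ≤ e' + e := by
  refine le_of_eq_of_le ?_ ((abs_sub _ _).trans (add_le_add h' h))
  congr 1
  simp [tq, bq, Fin.sum_univ_succ]
  ring

theorem tv_sc (C : Arr) (x y z : ℝ) : tv (sc C) ![x, y, z] = bq (C 2) y z := by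
  simp [tv, tq, bq, sc, Fin.sum_univ_three]

theorem flat (hK : KD) (hS : Spr) (h3 : Spr3) {C : ∀ n, Ω n → Arr} (hM : Big M)
    (hk : ∀ n, k n ≤ R n) (hL : Sub M L)
    (l1 : Ln P x (fun n ω => (y n ω, z n ω, Θ n ω)) φ u α β M R)
    (l2 : Ln P y (fun n ω => (z n ω, x n ω, Θ n ω)) φ u' α' β' M R)
    (l3 : Ln P z (fun n ω => (x n ω, y n ω, Θ n ω)) φ u'' α'' β'' M R)
    (hC : Sm M fun n => ch (P n) (C n) (Θ n)) (h0 : ∀ᶠ n in UF, ∀ ω ∈ (P n).S, β n ω = 0)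
    (hw : Whp P fun n ω => |φ n ω - tq (C n ω) (x n ω) (y n ω) (z n ω) -
      (u n ω - tq (C n ω) 0 (y n ω) (z n ω))| ≤ L n / 2 ^ k n) :
    ∃ L', Sub M L' ∧ Whp P fun n ω => ∀ i j, |C n ω 2 i j| ≤ L' n / 2 ^ k n := by
  obtain ⟨L0, s0, b0⟩ := l1.grid
  obtain ⟨L1, s1, b1⟩ := l1.bd
  obtain ⟨K, k1, k2⟩ := hK.arr
  have e0 : ∀ (a b c d e : RV Ω) n, Fn (P n) (Θ n) fun ω =>
      (a n ω, b n ω, c n ω, d n ω, e n ω, Θ n ω) := fun _ _ _ _ _ _ _ _ _ _ q =>
    congrArg (·.2.2.2.2.2) q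
  have e1 : ∀ {t a b c d e : RV Ω}, Ful P t (fun n ω =>
      (a n ω, b n ω, c n ω, d n ω, e n ω, Θ n ω)) M →
      Ful P t (fun n ω => (d n ω, e n ω, C n ω, Θ n ω)) M := fun h =>
    ful_add h hC (e0 _ _ _ _ _) fun _ _ _ _ _ q => by simp only [Prod.mk.injEq] at q ⊢; tauto
  have e2 : Ful P x (fun n ω => (C n ω, u n ω, α n ω, β n ω, y n ω, z n ω, Θ n ω)) M :=
    ful_add l1.ful hC (e0 _ _ _ _ _) fun n => Fn.rfl _
  obtain ⟨L2, s2, w2⟩ := hS 2 P x _
    (fun n ω => ![0, bq (C n ω 1) (y n ω) (z n ω) - α n ω, bq (C n ω 2) (y n ω) (z n ω)]) M L0 hM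
    s0 (b0.mono fun n q => ⟨fun _ _ _ _ e => by
      simp only [Prod.mk.injEq] at e
      simp only [e.1, e.2.2.1, e.2.2.2.2.1, e.2.2.2.2.2.1], q.2⟩) e2
  obtain ⟨L3, s3, w3⟩ := h3 2 P x y z (fun n ω => (C n ω, Θ n ω)) (fun n ω => tv (sc (C n ω))) M
    hM l1.grid l2.grid l3.grid (e1 l1.ful) (e1 l2.ful) (e1 l3.ful)
    (Eventually.of_forall fun n => ⟨fun _ _ _ _ q => by simp only [(Prod.mk.inj q).1],
      fun ω _ => hK.tv3 _⟩)
  refine ⟨fun n => K * (L3 n * (L2 n * (L1 n + L n))),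
    (s3.mul (s2.mul (s1.add hL hM))).const_mul hM k1, (hw.and (w2.and w3)).mono ?_⟩
  filter_upwards [b1, h0] with n c1 c0 ω hω ⟨c2, c3, c4⟩ i j
  have c5 := (c1 ω hω).2.2.2.2.trans (div_le_div_of_nonneg_left (s1.pos n).le (by positivity)
    (pow_le_pow_right₀ one_le_two (hk n)))
  rw [c0 ω hω] at c5
  rw [tv_sc] at c4
  have c6 : |bq (C n ω 2) (y n ω) (z n ω)| ≤ _ :=
    (c3 2).trans (mul_le_mul_of_nonneg_left (top c2 c5) (s2.pos n).le)
  have c7 : |C n ω 2 i j| ≤ _ := k2 (sc (C n ω)) _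
    (fun w hw => (c4 w hw).trans (mul_le_mul_of_nonneg_left c6 (s3.pos n).le)) 0 i j
  exact c7.trans_eq (by ring)

theorem bnd (hK : KD) {C : ∀ n, Ω n → Arr} (hM : Big M) (hL : Sub M L)
    (hb : ∀ n ω i j m, |C n ω i j m| ≤ L n) (g1 : Grid P x M) (g2 : Grid P y M) (g3 : Grid P z M)
    (l : Ln P x G φ u α β M R) : ∃ L', Sub M L' ∧ (∀ n, L n ≤ L' n) ∧ ∀ᶠ n in UF, ∀ ω ∈ (P n).S,
      |φ n ω - tq (C n ω) (x n ω) (y n ω) (z n ω)| ≤ L' n := by
  obtain ⟨L1, s1, b1⟩ := g1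
  obtain ⟨L2, s2, b2⟩ := g2
  obtain ⟨L3, s3, b3⟩ := g3
  obtain ⟨L4, s4, b4⟩ := l.bd
  obtain ⟨K, k1, k2⟩ := hK.tvl
  have s5 := ((hL.add s1 hM).add s2 hM).add s3 hM
  have s6 := (s5.pow 7).const_mul hM k1
  refine ⟨fun n => K * (L n + L1 n + L2 n + L3 n) ^ 7 + L4 n + L n, (s6.add s4 hM).add hL hM,
    fun n => by linarith [s6.pos n, s4.pos n], ?_⟩
  filter_upwards [b1, b2, b3, b4] with n c1 c2 c3 c4 ω hω
  have p := hL.pos n
  have p1 := s1.pos n
  have p2 := s2.pos n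
  have p3 := s3.pos n
  have q1 := c1.2 ω hω
  have q2 := c2.2 ω hω
  have q3 := c3.2 ω hω
  have q : |tq (C n ω) (x n ω) (y n ω) (z n ω)| ≤ K * (L n + L1 n + L2 n + L3 n) ^ 7 :=
    (k2 (L n + L1 n + L2 n + L3 n) 0 (C n ω) ![x n ω, y n ω, z n ω] ![x n ω, y n ω, z n ω]
      (s5.1 n) (fun i j m => by linarith [hb n ω i j m]) fun i => by
        fin_cases i <;> simp <;> linarith).1
  exact (abs_sub _ _).trans (by linarith [(c4 ω hω).1])

end APotNA

open APotNA in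
theorem rowPotN : OfPotN := by
  intro hK hS h3 hN hI Ω T P Θ x y z φ u α β u' α' β' u'' α'' β'' C M R k L ε₀ h fk hL hb hC hw
  have hM := h.big
  refine ⟨?_, fun h0 => ?_⟩
  · obtain ⟨L', s, le, bc⟩ := bnd hK hM hL hb h.l1.grid h.l2.grid h.l3.grid h.l1
    obtain ⟨c, hc⟩ : ∃ c : RV Ω, ∀ n ω, φ n ω - tq (C n ω) (x n ω) (y n ω) (z n ω) = c n ω :=
      ⟨_, fun _ _ => rfl⟩
    simp only [hc] at hw bc ⊢
    have f : ∀ {t a b u α β E : RV Ω}, Ln P t (fun n ω => (a n ω, b n ω, Θ n ω)) φ u α β M R →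
        (∀ n, Fn (P n) (E n) fun ω => (C n ω, a n ω, b n ω, Θ n ω)) →
        Whp P (fun n ω => |c n ω - (u n ω - E n ω)| ≤ L n / 2 ^ k n) →
        Ful P t (fun n ω => (fl1 (k n) (c n ω), C n ω, a n ω, b n ω, Θ n ω)) M := fun l e w =>
      hI P _ _ φ _ _ _ c _ M R k L' hM (fk.trans h.frac).1 s
        (ln_add l hC fun _ _ _ _ _ q => congrArg (·.2.2) q) (bc.mono fun n d => ⟨e n, d⟩)
        (w.mono (Eventually.of_forall fun n ω _ d =>
          d.trans (div_le_div_of_nonneg_right (le n) (by positivity))))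
    have f1 := f h.l1 (fun _ _ _ _ _ q => by simp only [Prod.mk.injEq] at q; simp only [q])
      (hw.mono (Eventually.of_forall fun n ω _ d => d.1))
    have f2 := f h.l2 (fun _ _ _ _ _ q => by simp only [Prod.mk.injEq] at q; simp only [q])
      (hw.mono (Eventually.of_forall fun n ω _ d => d.2.1))
    have f3 := f h.l3 (fun _ _ _ _ _ q => by simp only [Prod.mk.injEq] at q; simp only [q])
      (hw.mono (Eventually.of_forall fun n ω _ d => d.2.2))
    refine hN P φ c (fun n ω => tq (C n ω) (x n ω) (y n ω) (z n ω)) _ _ M R k L ε₀ hM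
      (fk.trans h.frac) fk hL h.ng (Eventually.of_forall fun n => ⟨fun _ _ _ _ q => by
        simp only [Prod.mk.injEq] at q; simp only [q], fun ω _ => ?_⟩) ?_
    · rw [hc, sub_self, abs_zero]
      exact div_nonneg (hL.pos n).le (by positivity)
    · refine ((ind (c := fun n ω => fl1 (k n) (c n ω)) (G' := fun n ω => (C n ω, Θ n ω)) hM
        h.l1.grid f1 ?_).add ((ind (c := fun n ω => fl1 (k n) (c n ω))
        (G' := fun n ω => (x n ω, C n ω, Θ n ω)) hM h.l2.grid f2 ?_).add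
        (ind (c := fun n ω => fl1 (k n) (c n ω)) (G' := fun n ω => (y n ω, x n ω, C n ω, Θ n ω))
          hM h.l3.grid f3 ?_))).mono (Eventually.of_forall fun n => ?_)
      iterate 3
        intro n _ _ _ _ q
        simp only [Prod.mk.injEq] at q ⊢
        tauto
      rw [← mi_chain, ← mi_chain]
      refine mi_mono fun _ _ _ _ q => ?_
      simp only [Prod.mk.injEq] at q ⊢
      tauto
  · obtain ⟨L1, s1, w1⟩ := flat hK hS h3 hM fk.1 hL h.l1 h.l2 h.l3 hC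
      (h0.mono fun n c ω hω => (c ω hω).1) (hw.mono (Eventually.of_forall fun n ω _ c => c.1))
    obtain ⟨L2, s2, w2⟩ := flat (C := fun n ω i j l => C n ω l i j) hK hS h3 hM fk.1 hL h.l2 h.l3
      h.l1 (hC.mono (Eventually.of_forall fun n => ch_mono fun _ _ _ _ q => by
        simp only [(Prod.mk.inj q).1])) (h0.mono fun n c ω hω => (c ω hω).2.1)
      (hw.mono (Eventually.of_forall fun n ω _ c => by
        rw [rot1 (C n ω), rot1 (C n ω)]; exact c.2.1))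
    obtain ⟨L3, s3, w3⟩ := flat (C := fun n ω i j l => C n ω j l i) hK hS h3 hM fk.1 hL h.l3 h.l1
      h.l2 (hC.mono (Eventually.of_forall fun n => ch_mono fun _ _ _ _ q => by
        simp only [(Prod.mk.inj q).1])) (h0.mono fun n c ω hω => (c ω hω).2.2)
      (hw.mono (Eventually.of_forall fun n ω _ c => by
        rw [rot2 (C n ω), rot2 (C n ω)]; exact c.2.2))
    refine ⟨fun n => L1 n + L2 n + L3 n, (s1.add s2 hM).add s3 hM, (w1.and (w2.and w3)).mono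
      (Eventually.of_forall fun n ω _ c i j => ?_)⟩
    have p1 := div_pos (s1.pos n) (pow_pos two_pos (k n))
    have p2 := div_pos (s2.pos n) (pow_pos two_pos (k n))
    have p3 := div_pos (s3.pos n) (pow_pos two_pos (k n))
    rw [add_div, add_div]
    exact ⟨by linarith [c.1 i j], by linarith [c.2.1 j i], by linarith [c.2.2 i j]⟩

end Pool.Agent.MP_5168f5_an.R4.Web
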