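import Pool.Agent.MP_5168f5_an.R4.SpecA

/-! A polynomial in three variables is not small at a full point. -/

namespace Pool.Agent.MP_5168f5_an.R4.Web

open H19 H17S H17F Filter

namespace ASpr3A

theorem sub_bd {J : Type} [Finite J] {M : ℕ → ℕ} (hM : Big M) {L : J → ℕ → ℝ}
    (h : ∀ j, Sub M (L j)) : ∃ L', Sub M L' ∧ ∀ j n, L j n ≤ L' n := by
  classical
  have := Fintype.ofFinite J
  have k : ∀ s : Finset J, ∃ L', Sub M L' ∧ ∀ j ∈ s, ∀ n, L j n ≤ L' n := fun s => by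
    induction s using Finset.induction_on with
    | empty => exact ⟨_, hM.sub le_rfl, by simp⟩
    | insert a s _ ih =>
      obtain ⟨L', b, c⟩ := ih
      refine ⟨_, (h a).mul b, fun j hj n => ?_⟩
      rcases Finset.mem_insert.1 hj with rfl | hj
      · exact le_mul_of_one_le_right ((h j).pos n).le (b.1 n)
      · exact (c j hj n).trans (le_mul_of_one_le_left (b.pos n).le ((h a).1 n))
  exact (k Finset.univ).imp fun _ a => ⟨a.1, fun j => a.2 j (Finset.mem_univ j)⟩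

theorem cf (d : ℕ) : ∃ c : (ℝ → ℝ) → Fin (d + 1) → ℝ,
    ∀ f, P1 d f → ∀ s, f s = ∑ j, c f j * s ^ (j : ℕ) := by
  classical
  refine ⟨fun f => if h : P1 d f then h.choose else 0, fun f h s => ?_⟩
  simp only [dif_pos h]
  exact h.choose_spec s

theorem sum_le {d : ℕ} {c : Fin (d + 1) → ℝ} {B s : ℝ} (h : ∀ j, |c j| ≤ B) (hs : |s| ≤ 1) :
    |∑ j, c j * s ^ (j : ℕ)| ≤ (d + 1) * B := by
  refine (Finset.abs_sum_le_sum_abs _ _).trans
    ((Finset.sum_le_card_nsmul _ _ B fun j _ => ?_).trans (by simp))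
  rw [abs_mul, abs_pow]
  exact (mul_le_of_le_one_right (abs_nonneg _) (pow_le_one₀ (abs_nonneg _) hs)).trans (h j)

/-- The nodes. -/
noncomputable def nd (d : ℕ) (a : Fin (d + 1)) : ℝ := ((a : ℕ) : ℝ) / (d + 1)

theorem abs_nd (d : ℕ) (a : Fin (d + 1)) : |nd d a| ≤ 1 := by
  have h : ((a : ℕ) : ℝ) ≤ d + 1 := by exact_mod_cast a.2.le
  rw [nd, abs_of_nonneg (by positivity), div_le_one (by positivity)]
  exact h

theorem itp (pc : PC) (d : ℕ) : ∃ K : ℝ, 1 ≤ K ∧ ∀ (f : ℝ → ℝ) (ε s : ℝ), P1 d f → |s| ≤ 1 →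
    (∀ a, |f (nd d a)| ≤ ε) → |f s| ≤ K * ε := by
  obtain ⟨K, a, b⟩ := pc d
  refine ⟨(d + 1) * K, one_le_mul_of_one_le_of_one_le (by simp) a, fun f ε s ⟨c, hc⟩ hs h => ?_⟩
  rw [hc, mul_assoc]
  exact sum_le (b c ε fun a => by rw [← nd, ← hc]; exact h a) hs

theorem val (sp : Spr) (d : ℕ) {Ω Γ : ℕ → Type} {J : Type} [Finite J] {P : ∀ n, FP (Ω n)}
    {x : RV Ω} {G : ∀ n, Ω n → Γ n} (f : J → ∀ n, Ω n → ℝ → ℝ) {M : ℕ → ℕ} (hM : Big M)
    (gr : Grid P x M) (fu : Ful P x G M)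
    (h : ∀ᶠ n in UF, ∀ j, Fn (P n) (f j n) (G n) ∧ ∀ ω ∈ (P n).S, P1 d (f j n ω)) :
    ∃ L', Sub M L' ∧ Whp P fun n ω => ∀ j s, |s| ≤ 1 →
      |f j n ω s| ≤ L' n * |f j n ω (x n ω)| := by
  obtain ⟨c, hc⟩ := cf d
  obtain ⟨L, s0, h0⟩ := gr
  choose L1 s1 w using fun j => sp d P x G (fun n ω => c (f j n ω)) M L hM s0
    ((h.and h0).mono fun n a => ⟨(Fn.comp c _).trans (a.1 j).1, a.2.2⟩) fu
  obtain ⟨L2, s2, e⟩ := sub_bd hM s1
  refine ⟨_, s2.const_mul hM (C := d + 1) (by simp), (Whp.all w).mono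
    (h.mono fun n a ω hω k j s hs => ?_)⟩
  rw [hc _ ((a j).2 ω hω) s, hc _ ((a j).2 ω hω) (x n ω), mul_assoc]
  exact sum_le (fun i => (k j i).trans (mul_le_mul_of_nonneg_right (e j n) (abs_nonneg _))) hs

theorem sl0 {d : ℕ} {F : V 3 → ℝ} (h : P3 d F) (y z : ℝ) : P1 d fun s => F ![s, y, z] := by
  convert h 0 ![0, y, z] using 3 with s
  funext i
  fin_cases i <;> rfl

theorem sl1 {d : ℕ} {F : V 3 → ℝ} (h : P3 d F) (x z : ℝ) : P1 d fun s => F ![x, s, z] := by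
  convert h 1 ![x, 0, z] using 3 with s
  funext i
  fin_cases i <;> rfl

theorem sl2 {d : ℕ} {F : V 3 → ℝ} (h : P3 d F) (x y : ℝ) : P1 d fun s => F ![x, y, s] := by
  convert h 2 ![x, y, 0] using 3 with s
  funext i
  fin_cases i <;> rfl

end ASpr3A

open ASpr3A in
theorem rowSpr3 : OfSpr3 := by
  intro pc sp d Ω Γ P x y z G F M hM gx gy gz fx fy fz h
  obtain ⟨K, k1, hK⟩ := itp pc d
  obtain ⟨L1, s1, w1⟩ := val sp d (fun (_ : Unit) n ω s => F n ω ![s, y n ω, z n ω]) hM gx fx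
    (h.mono fun n a _ => ⟨fun u hu v hv e => by
      obtain ⟨e1, e2, e3⟩ : y n u = y n v ∧ z n u = z n v ∧ G n u = G n v := by simpa using e
      simp only [e1, e2, a.1 u hu v hv e3], fun ω hω => sl0 (a.2 ω hω) _ _⟩)
  obtain ⟨L2, s2, w2⟩ := val sp d (fun i n ω s => F n ω ![nd d i, s, z n ω]) hM gy fy
    (h.mono fun n a _ => ⟨fun u hu v hv e => by
      obtain ⟨e1, -, e3⟩ : z n u = z n v ∧ x n u = x n v ∧ G n u = G n v := by simpa using e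
      simp only [e1, a.1 u hu v hv e3], fun ω hω => sl1 (a.2 ω hω) _ _⟩)
  obtain ⟨L3, s3, w3⟩ := val sp d
    (fun (i : Fin (d + 1) × Fin (d + 1)) n ω s => F n ω ![nd d i.1, nd d i.2, s]) hM gz fz
    (h.mono fun n a _ => ⟨fun u hu v hv e => by
      simp only [a.1 u hu v hv (congrArg (·.2.2) e)], fun ω hω => sl2 (a.2 ω hω) _ _⟩)
  refine ⟨_, (((s3.mul (s2.mul s1)).const_mul hM k1).const_mul hM k1),
    ((w1.and w2).and w3).mono (h.mono fun n a ω hω ⟨⟨e1, e2⟩, e3⟩ w hw => ?_)⟩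
  have e : w = ![w 0, w 1, w 2] := by
    funext i
    fin_cases i <;> rfl
  rw [e, mul_assoc, mul_assoc, mul_assoc, mul_assoc]
  exact hK _ _ _ (sl0 (a.2 ω hω) (w 1) (w 2)) (hw 0) fun i =>
    hK _ _ _ (sl1 (a.2 ω hω) (nd d i) (w 2)) (hw 1) fun j => (e3 (i, j) _ (hw 2)).trans
      (mul_le_mul_of_nonneg_left ((e2 i _ (abs_nd d j)).trans
        (mul_le_mul_of_nonneg_left (e1 () _ (abs_nd d i)) (s2.pos n).le)) (s3.pos n).le)

end Pool.Agent.MP_5168f5_an.R4.Web
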