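import Pool.Agent.MP_5168f5_an.R4.SpecA

/-! Independence of the types of three and four copies. -/

namespace Pool.Agent.MP_5168f5_an.R4.Web

open H19 H17S H17F Filter NCx

namespace ATFulA

variable {Ω W T U A B C D : Type} {P : FP Ω} {Q : FP W} {θ : Ω → T} {S : Ω → U} {π : W → Ω}

theorem same (h : Law Q π P id) (hθ : Fn P θ S) {v : W × Ω}
    (hv : v ∈ (glue Q P (fun v => S (π v)) S).S) : θ v.2 = θ (π v.1) := by
  obtain ⟨a, b, c⟩ := (kg.mem Q P _ S v (h.comp S)).1 hv
  exact hθ _ b _ (h.mem a) c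

/-- One more copy adds at most the information of one copy. -/
theorem step (w : Ω → A) {V : W → B} {G : W → C} {K : W → D} (h : Law Q π P id) (hθ : Fn P θ S)
    (h1 : Fn Q (fun v => θ (π v)) K) (h2 : Fn Q (fun v => S (π v)) G) :
    mi (glue Q P (fun v => S (π v)) S) (fun v => (V v.1, w v.2)) (fun v => G v.1)
      (fun v => K v.1) ≤ mi Q V G K + mi P w S θ := by
  have l : Law Q (fun v => S (π v)) P S := h.comp S
  have f := kg.fst Q P (fun v => S (π v)) S
  rw [mi_symm, mi_chain, mi_symm _ (fun v : W × Ω => V v.1), mi_symm _ (fun v : W × Ω => w v.2),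
    f.mi_id V G K]
  refine add_le_add le_rfl (sub_le_sub ?_ ?_)
  · rw [← (kg.snd Q P _ S l).ch_id w θ]
    refine ch_anti fun a ha b hb e => ?_
    rw [same h hθ ha, same h hθ hb]
    exact h1 _ (f.mem ha) _ (f.mem hb) (congrArg Prod.snd e)
  · rw [kg.mk1 Q P _ S w (fun v => (G v, V v, K v)) l (h2.trans (Fn.fst _ _))]
    exact ch_anti (Fn.fst _ _)

theorem l3 (P : FP Ω) (S : Ω → U) : Law (G3 P S) (fun v => v.1.1) P id :=
  Law.trans (g := Prod.fst) ((kg.fst (glue P P S S) P (fun v => S v.1) S).comp Prod.fst)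
    (kg.fst P P S S)

theorem two (w : Ω → A) {G : Ω → C} {K : Ω → D} (hθ : Fn P θ S) (h1 : Fn P θ K) (h2 : Fn P S G) :
    mi (G3 P S) (fun v j => w (sl j v)) (fun v => G v.1.1) (fun v => K v.1.1) ≤
      mi P w G K + mi P w S θ + mi P w S θ := by
  have f := kg.fst P P S S
  have a := step (π := id) w (V := w) (Law.rfl id) hθ h1 h2
  have b := step (π := Prod.fst) w (V := fun v => (w v.1, w v.2)) f hθ (f.fn h1) (f.fn h2)
  refine (mi_mono' fun u _ v _ e => ?_).trans (b.trans (add_le_add a le_rfl))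
  simp only [Prod.mk.injEq] at e
  funext j
  fin_cases j
  exacts [e.1.1.1, e.1.1.2, e.1.2]

theorem sl_same (hθ : Fn P θ S) (i : Fin 3) {v : (Ω × Ω) × Ω} (hv : v ∈ (G3 P S).S) :
    θ (sl i v) = θ v.1.1 := by
  have a : θ v.1.2 = θ v.1.1 := same (π := id) (Law.rfl id) hθ
    ((kg.fst (glue P P S S) P (fun v => S v.1) S).mem hv)
  have b : θ v.2 = θ v.1.1 := same (π := Prod.fst) (kg.fst P P S S) hθ hv
  fin_cases i
  exacts [rfl, a, b]

theorem slot (hK : KCop) (w : Ω → A) (hθ : Fn P θ S) (i : Fin 3) :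
    mi (G3 P S) (fun v j => w (sl j v)) (sl i) (fun v => (w (sl i v), θ v.1.1)) ≤
      mi P w S θ + mi P w S θ := by
  have l := hK.law P S _ _ _ _ (hK.g3 P S)
    (hK.sub P S _ _ _ (Equiv.swap 0 i).injective (hK.g3 P S))
  have a := two w (G := id) (K := fun ω => (w ω, θ ω)) hθ (Fn.snd _ _)
    fun _ _ _ _ e => congrArg S e
  have b : mi P w id (fun ω => (w ω, θ ω)) ≤ 0 := (mi_le _ _ _).trans (ch_zero (Fn.fst _ _)).le
  refine le_trans ?_ (a.trans (by linarith))
  refine (congrArg₂ (· - ·) (l.ch_eq (fun t j => w (t j)) fun t => (w (t i), θ (t 0)))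
    (l.ch_eq (fun t j => w (t j)) fun t => (t i, w (t i), θ (t 0)))).trans_le ?_
  simp only [Equiv.swap_apply_left, Equiv.swap_apply_right]
  refine sub_le_sub (ch_le (fun u _ v _ e => funext fun j => congrFun (congrArg Prod.fst e) _)
    fun u hu v hv e => ?_) (ch_le (fun u _ v _ e => funext fun j => ?_) fun u hu v hv e => ?_)
  · simp only [Prod.mk.injEq, sl_same hθ i hu, sl_same hθ i hv] at e ⊢
    exact e
  · simpa only [Equiv.swap_apply_self] using congrFun (congrArg Prod.fst e) (Equiv.swap 0 i j)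
  · simp only [Prod.mk.injEq, sl_same hθ i hu, sl_same hθ i hv] at e ⊢
    exact e

theorem back (V : (Ω × Ω) × Ω → B) (hθ : Fn P θ S) :
    mi (G4 P S) (fun v => V v.1) Prod.snd (fun v => θ v.2) ≤
      mi (G3 P S) V (fun v => S v.1.1) fun v => θ v.1.1 := by
  refine sub_le_sub ?_ ?_
  · rw [← (kg.fst (G3 P S) P (fun v => S v.1.1) S).ch_id V fun v => θ v.1.1]
    exact ch_anti fun a ha b hb e => by
      rw [← same (l3 P S) hθ ha, ← same (l3 P S) hθ hb]; exact e
  · rw [← kg.mkv' (G3 P S) P (fun v => S v.1.1) S V (fun v => θ v.1.1) id ((l3 P S).comp S)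
      fun _ _ _ _ e => congrArg S e]
    refine ch_anti fun a ha b hb e => ?_
    rw [← same (l3 P S) hθ ha, ← same (l3 P S) hθ hb] at e
    exact e

theorem last (w : Ω → A) :
    mi (G4 P S) (fun v => w v.2) Prod.fst (fun v => θ v.2) = mi P w S θ :=
  congrArg₂ (· - ·) ((kg.snd (G3 P S) P _ S ((l3 P S).comp S)).ch_id w θ)
    (kg.mkv (G3 P S) P _ S w θ id ((l3 P S).comp S)
      fun _ _ _ _ e => congrArg (fun v : (Ω × Ω) × Ω => S v.1.1) e)

end ATFulA

open ATFulA in
theorem rowTFul : OfTFul := by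
  intro hK Ω T U A P θ S w M hθ h
  refine ⟨((h.add h).add h).mono (hθ.mono fun n k => two (w n) k (Fn.rfl _) (Fn.rfl _)),
    fun i => (h.add h).mono (hθ.mono fun n k => slot hK (w n) k i),
    ((h.add h).add h).mono (hθ.mono fun n k => (back (fun v j => w n (sl j v)) k).trans
      (two (w n) k (Fn.rfl _) (Fn.rfl _))),
    h.mono (Eventually.of_forall fun n => (last (w n)).le)⟩

end Pool.Agent.MP_5168f5_an.R4.Web
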