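import Pool.Agent.MP_5168f5_an.R4.SpecA

/-! The potentials at two heights of one line agree. -/

namespace Pool.Agent.MP_5168f5_an.R4.Web

open H19 H17S H17F Filter NCx Matrix

namespace AUpA

theorem rd_near (M : ℕ) (x : ℝ) : |x - rd M x| ≤ 1 / 2 ^ M := by
  rw [show x - rd M x = -((fl1 M x : ℝ) - 2 ^ M * x) / 2 ^ M by rw [rd]; field_simp; ring, abs_div,
    abs_neg, abs_of_pos (a := (2 : ℝ) ^ M) (by positivity)]
  exact div_le_div_of_nonneg_right (abs_fl1_sub M x) (by positivity)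

theorem fl1_rd (M : ℕ) (x : ℝ) : fl1 M (rd M x) = fl1 M x := by
  rw [rd, fl1, mul_div_cancel₀ _ (by positivity), Int.floor_intCast]

theorem dv {a b : ℝ} {j k : ℕ} (h : a ≤ b) (hb : 0 ≤ b) (hk : k ≤ j) : a / 2 ^ j ≤ b / 2 ^ k :=
  div_le_div₀ hb h (by positivity) (pow_le_pow_right₀ one_le_two hk)

theorem crv_eq {c c' : Cv} (h : c.crv = c'.crv) (s : ℝ) : c.f s = c'.f s ∧ c.z s = c'.z s := by
  simp only [Cv.crv, Prod.mk.injEq] at h
  simp only [Cv.f, Cv.z, h.1, h.2.1, h.2.2, and_self]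

theorem cv_bd {c : Cv} {L : ℝ} (hL : 1 ≤ L) (h : c.Bd L) :
    (∀ i, |c.pt i| ≤ 2 * L) ∧ |c.φ| ≤ 3 * L := by
  obtain ⟨h1, h2, h3, h4⟩ := h
  have k : ∀ x s : ℝ, |x| ≤ L → 0 ≤ s → s ≤ 1 → |x * s| ≤ L := fun x s hx s0 s1 => by
    rw [abs_mul, abs_of_nonneg s0]; nlinarith [abs_nonneg x]
  refine ⟨fun i => ?_, ?_⟩
  · have e : ∀ j, |c.a j + c.t * c.e j| ≤ 2 * L := fun j => (abs_add_le _ _).trans (by
      rw [mul_comm c.t]; linarith [(h1 j).1, k _ _ (h1 j).2 h3 h4.le])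
    fin_cases i
    exacts [(abs_of_nonneg h3).trans_le (by linarith), e 0, e 1]
  · exact (abs_add_three _ _ _).trans (by
      linarith [h2 0, k _ _ (h2 1) h3 h4.le, k _ _ (h2 2) (sq_nonneg c.t) (by nlinarith)])

theorem bd_mono {p : Pq} {L L' : ℝ} (h : p.Bd L) (e : L ≤ L') : p.Bd L' :=
  ⟨h.1.trans e, fun i => (h.2.1 i).trans e, fun i j => ⟨(h.2.2.1 i j).1.trans e, (h.2.2.1 i j).2⟩,
    fun i => (h.2.2.2.1 i).trans e, h.2.2.2.2.trans e⟩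

theorem p3 {d : ℕ} {F G : V 3 → ℝ} (c : ℝ) (h : P3 d F) (h' : P3 d G) :
    P3 d fun w => c + F w - G w := fun i z => by
  obtain ⟨a, ha⟩ := h i z
  obtain ⟨b, hb⟩ := h' i z
  refine ⟨fun j => (if j = 0 then c else 0) + a j - b j, fun s => ?_⟩
  simp only at ha hb
  simp [ha, hb, add_mul, sub_mul, Finset.sum_add_distrib, Finset.sum_sub_distrib]

theorem psi_zero (p : Pq) (q : M3) : psi p q 0 = p.1 := by simp [psi, pq]

/-- The invariant of the curve. -/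
def cc (γ : Cv) (p : Pq) (q : M3) : ℝ := γ.φ - psi p q γ.pt

/-- The rounded point. -/
noncomputable def rp (M : ℕ) (γ : Cv) : V 3 :=
  ![rd M (γ.pt 0), rd M (γ.pt 1), rd M (γ.pt 2)]

theorem rp_apply (M : ℕ) (γ : Cv) (i : Fin 3) : rp M γ i = rd M (γ.pt i) := by fin_cases i <;> rfl

theorem der {Ω U : Type} (P : FP Ω) (S : Ω → U) (c : Ω → ℝ) :
    ∃ r : U → ℝ, ∀ ω ∈ P.S, ∃ ω' ∈ P.S, S ω' = S ω ∧ r (S ω) = c ω' := by
  have h : ∀ s, ∃ r : ℝ, ∀ ω ∈ P.S, S ω = s → ∃ ω' ∈ P.S, S ω' = s ∧ r = c ω' := fun s => by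
    by_cases k : ∃ ω' ∈ P.S, S ω' = s
    · obtain ⟨ω', h1, h2⟩ := k
      exact ⟨c ω', fun _ _ _ => ⟨ω', h1, h2, rfl⟩⟩
    · exact ⟨0, fun ω h1 h2 => absurd ⟨ω, h1, h2⟩ k⟩
  choose r hr using h
  exact ⟨r, fun ω hω => hr _ ω hω rfl⟩

/-- The exact facts. -/
structure Ok {Ω T U Λ : Type} (P : FP Ω) (γ : Ω → Cv) (θ : Ω → T) (S : Ω → U) (l : Ω → Λ)
    (q : Ω → M3) (p : Ω → Pq) (r : U → ℝ) (M k : ℕ) (B D : ℝ) : Prop where
  fc : Fn P (fun ω => (γ ω).crv) fun ω => (l ω, θ ω)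
  fq : Fn P q θ
  fp : Fn P p S
  ht : ∀ ω ∈ P.S, 0 ≤ (γ ω).t ∧ (γ ω).t ≤ 1
  pt : ∀ ω ∈ P.S, ∀ i, |(γ ω).pt i| ≤ B ∧ |rd M ((γ ω).pt i)| ≤ B
  alg : ∀ ω ∈ P.S, (p ω).Bd B ∧ (∀ i j, |q ω i j| ≤ B ∧ q ω i j = q ω j i) ∧
    ((∃ i j, 1 ≤ B * |q ω i j|) ∨ q ω = 0) ∧ (q ω = 0 → (p ω).2.2.2 = (0, 0))
  rb : ∀ ω ∈ P.S, |r (S ω)| ≤ D ∧ |cc (γ ω) (p ω) (q ω) - r (S ω)| ≤ D / 2 ^ k
  rd : ∀ ω ∈ P.S, ∀ ω' ∈ P.S, ∀ ω'' ∈ P.S,
    |psi (p ω') (q ω'') (γ ω).pt - psi (p ω') (q ω'') (rp M (γ ω))| ≤ D / 2 ^ k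
  box : ∀ ω ∈ P.S, ∀ ω' ∈ P.S, ∀ w : V 3, (∀ i, |w i| ≤ 1) →
    |psi (p ω) (q ω') w - psi (p ω) (q ω') 0| ≤ D

theorem ok {Ω T U Λ : Type} {P : FP Ω} {γ : Ω → Cv} {θ : Ω → T} {S : Ω → U} {l : Ω → Λ}
    {q : Ω → M3} {p : Ω → Pq} {r : U → ℝ} {M R k : ℕ} {K L B : ℝ} (hK : 1 ≤ K)
    (hps : ∀ (L δ : ℝ) (p : Pq) (q : M3) (x y : V 3), 1 ≤ L → p.Bd L → (∀ i j, |q i j| ≤ L) →
      (∀ i, |x i| ≤ L ∧ |y i| ≤ L ∧ |x i - y i| ≤ δ) →
      |psi p q x| ≤ K * L ^ 7 ∧ |psi p q x - psi p q y| ≤ K * L ^ 7 * δ)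
    (h1 : 1 ≤ L) (hB : 3 * L ≤ B) (hkR : k ≤ R) (hkM : k ≤ M)
    (hb : (∀ ω ∈ P.S, (γ ω).Bd L) ∧ Fn P θ S ∧ Fn P (fun ω => (γ ω).crv) (fun ω => (l ω, θ ω)) ∧
      (∀ i, Near P S (fun ω => (γ ω).pt i) (L / 2 ^ M)) ∧ Near P S (fun ω => (γ ω).φ) (L / 2 ^ R))
    (fq : Fn P q θ) (fp : Fn P p S)
    (alg : ∀ ω ∈ P.S, (p ω).Bd B ∧ (∀ i j, |q ω i j| ≤ B ∧ q ω i j = q ω j i) ∧
      ((∃ i j, 1 ≤ B * |q ω i j|) ∨ q ω = 0) ∧ (q ω = 0 → (p ω).2.2.2 = (0, 0)))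
    (hr : ∀ ω ∈ P.S, ∃ ω' ∈ P.S, S ω' = S ω ∧ r (S ω) = cc (γ ω') (p ω') (q ω')) :
    Ok P γ θ S l q p r M k B (2 * (K * B ^ 7 * B)) := by
  obtain ⟨b1, b2, b3, b4, b5⟩ := hb
  have B1 : 1 ≤ B := by linarith
  have A1 : 1 ≤ K * B ^ 7 := one_le_mul_of_one_le_of_one_le hK (one_le_pow₀ B1)
  have hp := fun δ ω hω ω' hω' x y => hps B δ (p ω) (q ω') x y B1 (alg ω hω).1
    fun i j => ((alg ω' hω').2.1 i j).1
  generalize K * B ^ 7 = A at A1 hp ⊢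
  have pt : ∀ ω ∈ P.S, ∀ i, |(γ ω).pt i| ≤ B ∧ |rd M ((γ ω).pt i)| ≤ B := fun ω hω i => by
    have a := (cv_bd h1 (b1 ω hω)).1 i
    have b := (rd_near M ((γ ω).pt i)).trans (dv (k := 0) le_rfl zero_le_one (Nat.zero_le _))
    have c := abs_sub_abs_le_abs_sub (rd M ((γ ω).pt i)) ((γ ω).pt i)
    rw [abs_sub_comm] at c
    exact ⟨by linarith, by linarith⟩
  refine ⟨b3, fq, fp, fun ω hω => ⟨(b1 ω hω).2.2.1, (b1 ω hω).2.2.2.le⟩, pt, alg, fun ω hω => ?_,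
    fun ω hω ω' hω' ω'' hω'' => ?_, fun ω hω ω' hω' w hw => ?_⟩
  · obtain ⟨ω', hω', e, e'⟩ := hr ω hω
    have a := hp _ ω' hω' ω' hω' _ _ fun i => ⟨(pt ω' hω' i).1, (pt ω hω i).1, b4 i ω' hω' ω hω e⟩
    have b := (b5 ω hω ω' hω' e.symm).trans (dv (b := A * B) (by nlinarith) (by positivity) hkR)
    have c := a.2.trans ((mul_div_assoc _ _ _).ge.trans
      (dv (b := A * B) (by nlinarith) (by positivity) hkM))
    rw [e', cc, cc, ← fp ω' hω' ω hω e, ← fq ω' hω' ω hω (b2 ω' hω' ω hω e), mul_div_assoc, two_mul,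
      two_mul]
    refine ⟨(abs_sub _ _).trans (add_le_add ((cv_bd h1 (b1 ω' hω')).2.trans (by nlinarith))
      (a.1.trans (by nlinarith))), le_trans (le_of_eq ?_) ((abs_add_le _ _).trans (add_le_add b c))⟩
    congr 1
    ring
  · exact (hp _ ω' hω' ω'' hω'' _ _ fun i => by
      rw [rp_apply]; exact ⟨(pt ω hω i).1, (pt ω hω i).2, rd_near _ _⟩).2.trans
      ((mul_div_assoc _ _ _).ge.trans (dv (by nlinarith) (by positivity) hkM))
  · exact (hp 1 ω hω ω' hω' w 0 fun i => ⟨(hw i).trans B1, by simpa using zero_le_one.trans B1,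
      by simpa using hw i⟩).2.trans (by nlinarith)

variable {Ω Γ : ℕ → Type} {P : ∀ n, FP (Ω n)} {G : ∀ n, Ω n → Γ n} {M k : ℕ → ℕ} {L : ℕ → ℝ}

theorem sm_near {x y : RV Ω} (hM : Big M) (hk : ∀ n, k n ≤ M n) (hL : Sub M L)
    (he : ∀ᶠ n in UF, Fn (P n) (y n) (G n) ∧ ∀ ω ∈ (P n).S, |x n ω| ≤ L n)
    (hw : Whp P fun n ω => |x n ω - y n ω| ≤ L n / 2 ^ k n) :
    Sm M fun n => ch (P n) (fun ω => fl1 (k n) (x n ω)) (G n) := by
  refine ks.fano P _ _ _ M _ 2 hM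
    ((hL.const_mul hM one_le_two).add (hM.sub (by norm_num : (1 : ℝ) ≤ 3)) hM) hw ?_
  filter_upwards [he, (hL.const_mul hM (by norm_num : (1 : ℝ) ≤ 7)).2 1 one_pos] with n ⟨e1, e2⟩ e3
  have l1 := hL.1 n
  have p1 : (1 : ℝ) ≤ 2 ^ k n := one_le_pow₀ one_le_two
  refine ⟨fun a ha => (det_near1 (L := 2 * L n * 2 ^ k n) (by positivity) (fun a ha b hb _ => ?_)
    a ha).imp fun T hT => ⟨hT.1.trans ?_, hT.2⟩, fun a ha => ⟨Finset.Icc
      (fl1 (k n) (y n a) - ⌈L n⌉₊) (fl1 (k n) (y n a) + ⌈L n⌉₊), ?_,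
      fun b hb e h => fl1_mem_Icc ?_⟩⟩
  · rw [mul_div_cancel_right₀ _ (by positivity)]
    exact (abs_sub _ _).trans (by linarith [e2 a ha, e2 b hb])
  · have p2 := (two_pow_le_exp (k n)).trans (Real.exp_le_exp.2 (Nat.cast_le.2 (hk n)))
    have p3 := mul_le_mul e3 p2 (by positivity) (Real.exp_pos _).le
    rw [one_mul, ← Real.exp_add, ← two_mul] at p3
    nlinarith
  · rw [show (Finset.Icc (fl1 (k n) (y n a) - ⌈L n⌉₊)
      (fl1 (k n) (y n a) + ⌈L n⌉₊)).card = 2 * ⌈L n⌉₊ + 1 by rw [Int.card_Icc]; omega]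
    push_cast
    linarith [Nat.ceil_lt_add_one (hL.pos n).le]
  · rw [← e1 b hb a ha e]
    refine h.trans ?_
    rw [div_eq_mul_inv]
    exact mul_le_mul_of_nonneg_right (Nat.le_ceil _) (by positivity)

variable {X : ∀ n, Ω n → V 3}

theorem up3 (hM : Big M) (hL : Sub M L) (hb : ∀ᶠ n in UF, ∀ ω ∈ (P n).S, ∀ i, |X n ω i| ≤ L n) :
    Le M (fun n => ch (P n) (fun ω => fl (M n) (X n ω)) (G n)) fun n => 3 * M n * lg :=
  (le_flv Finset.univ (j := fun _ => 0) (k := M) hM (hL.const_mul hM one_le_two)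
    (fun _ => Nat.zero_le _) (hb.mono fun n h a ha b hb _ i => ⟨(abs_sub _ _).trans (by
      linarith [h a ha i, h b hb i]), fun k => absurd (Finset.mem_univ _) k⟩)).congr
    (Eventually.of_forall fun _ => rfl) (Eventually.of_forall fun _ => by simp)

theorem ful3 (hM : Big M) (hL : Sub M L) (hb : ∀ᶠ n in UF, ∀ ω ∈ (P n).S, ∀ i, |X n ω i| ≤ L n)
    (h : Le M (fun n => 3 * M n * lg) fun n => ch (P n) (fun ω => fl (M n) (X n ω)) (G n))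
    (i j m : Fin 3) (hs : ∀ a, a = i ∨ a = j ∨ a = m) : Ful P (fun n ω => rd (M n) (X n ω i))
      (fun n ω => (rd (M n) (X n ω j), rd (M n) (X n ω m), G n ω)) M := by
  have h1 := fun a => le_fl1 (P := P) (G := G) (x := fun n ω => X n ω a) (j := fun _ => 0) (k := M)
    hM (hL.const_mul hM one_le_two) (fun _ => Nat.zero_le _) (hb.mono fun n h b hb c hc _ =>
      (abs_sub _ _).trans (by linarith [h b hb a, h c hc a]))
  refine Le.of3 h (h1 j) (h1 m) (Eventually.of_forall fun n => ?_)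
  have a1 := ch_tri (P := P n) (fun ω => fl (M n) (X n ω)) (fun ω => fl1 (M n) (X n ω j)) (G n)
  have a2 := ch_tri (P := P n) (fun ω => fl (M n) (X n ω)) (fun ω => fl1 (M n) (X n ω m))
    fun ω => (fl1 (M n) (X n ω j), G n ω)
  have a3 : ch (P n) (fun ω => fl1 (M n) (X n ω m)) (fun ω => (fl1 (M n) (X n ω j), G n ω)) ≤
      ch (P n) (fun ω => fl1 (M n) (X n ω m)) (G n) := ch_anti (Fn.snd _ _)
  have a4 : ch (P n) (fun ω => fl (M n) (X n ω))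
      (fun ω => (fl1 (M n) (X n ω m), fl1 (M n) (X n ω j), G n ω)) ≤
      ch (P n) (fun ω => fl1 (M n) (rd (M n) (X n ω i)))
        fun ω => (rd (M n) (X n ω j), rd (M n) (X n ω m), G n ω) := by
    refine ch_le (fun b _ c _ e => funext fun a => ?_) fun b _ c _ e => ?_
    · simp only [Prod.mk.injEq, fl1_rd] at e
      rcases hs a with rfl | rfl | rfl
      exacts [e.1, e.2.2.1, e.2.1]
    · simp only [Prod.mk.injEq] at e ⊢
      exact ⟨by rw [rd, rd, e.2.1], by rw [rd, rd, e.1], e.2.2⟩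
  push_cast
  linarith

theorem grid {x : RV Ω} (hL : Sub M L)
    (hb : ∀ᶠ n in UF, ∀ ω ∈ (P n).S, |rd (M n) (x n ω)| ≤ L n) :
    Grid P (fun n ω => rd (M n) (x n ω)) M :=
  ⟨L, hL, hb.mono fun n h => ⟨fun a _ b _ e => by
    simp only [fl1_rd] at e
    simp only [rd, e], h⟩⟩

end AUpA

open AUpA in
theorem rowUp : OfUp := by
  intro kd ⟨KU, m, hKU, hU⟩ hNG hC hMK Ω T U Λ P γ θ S l M R k ε₀ q p L hA hK hP
  obtain ⟨K, hK1, hps⟩ := kd.psl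
  have hM := hA.big
  have hkM := hP.frac.trans hA.frac
  obtain ⟨L₀, hL₀, hb⟩ := hA.bd
  obtain ⟨Lq, hLq, hq⟩ : ∃ Lq, Sub M Lq ∧ ∀ᶠ n in UF, Fn (P n) (q n) (θ n) ∧ ∀ ω ∈ (P n).S,
      (∀ i j, |q n ω i j| ≤ Lq n ∧ q n ω i j = q n ω j i) ∧
        ((∃ i j, 1 ≤ Lq n * |q n ω i j|) ∨ q n ω = 0) := by
    rcases hK with ⟨-, rfl⟩ | ⟨Lq, h1, h2, -⟩
    · exact ⟨fun _ => 1, hM.sub le_rfl, Eventually.of_forall fun n =>
        ⟨fun _ _ _ _ _ => rfl, fun _ _ => ⟨by simp, Or.inr rfl⟩⟩⟩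
    · exact ⟨Lq, h1, h2.mono fun n h => ⟨h.1, fun ω hω => ⟨(h.2 ω hω).1, Or.inl (h.2 ω hω).2⟩⟩⟩
  choose r hr using fun n => der (P n) (S n) fun ω => cc (γ n ω) (p n ω) (q n ω)
  obtain ⟨B, D, hB, hD, hLD, ok⟩ : ∃ B D : ℕ → ℝ, Sub M B ∧ Sub M D ∧ (∀ n, L n ≤ D n) ∧
      ∀ᶠ n in UF, Ok (P n) (γ n) (θ n) (S n) (l n) (q n) (p n) (r n) (M n) (k n) (B n) (D n) := by
    have hB := ((hL₀.mul hLq).mul hP.sub).const_mul hM (C := 3) (by norm_num)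
    have h0 : ∀ n, 3 * L₀ n ≤ 3 * (L₀ n * Lq n * L n) ∧ Lq n ≤ 3 * (L₀ n * Lq n * L n) ∧
        L n ≤ 3 * (L₀ n * Lq n * L n) := fun n => by
      have a := hL₀.1 n
      have b := hLq.1 n
      have c := hP.sub.1 n
      refine ⟨?_, ?_, ?_⟩ <;> nlinarith [one_le_mul_of_one_le_of_one_le a b,
        one_le_mul_of_one_le_of_one_le b c, one_le_mul_of_one_le_of_one_le a c]
    refine ⟨_, _, hB, (((hB.pow 7).const_mul hM hK1).mul hB).const_mul hM one_le_two, fun n => ?_, ?_⟩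
    · have a := one_le_mul_of_one_le_of_one_le hK1 (one_le_pow₀ (n := 7) (hB.1 n))
      nlinarith [(h0 n).2.2, hB.1 n]
    filter_upwards [hb, hq, hP.alg] with n b ⟨q1, q2⟩ ⟨p1, p2⟩
    exact ok hK1 hps (hL₀.1 n) (h0 n).1 (hP.frac.1 n) (hkM.1 n) b q1 p1 (fun ω hω =>
      ⟨bd_mono (p2 ω hω).1 (h0 n).2.2, fun i j => ⟨((q2 ω hω).1 i j).1.trans (h0 n).2.1,
        ((q2 ω hω).1 i j).2⟩, (q2 ω hω).2.imp_left fun ⟨i, j, e⟩ => ⟨i, j, e.trans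
          (mul_le_mul_of_nonneg_right (h0 n).2.1 (abs_nonneg _))⟩, (p2 ω hω).2⟩) (hr n)
  clear hr hq hb hps
  have two := hD.const_mul hM one_le_two
  have h1 : Sm M fun n => ch (P n) (fun ω => fl1 (k n) (r n (S n ω)))
      fun ω => (p n ω, l n ω, θ n ω) := by
    refine sm_near (y := fun n ω => (γ n ω).f 0 - psi (p n ω) (q n ω) ((γ n ω).z 0)) hM hkM.1 two
      (ok.mono fun n o => ⟨fun a ha b hb e => ?_, fun ω hω => by linarith [(o.rb ω hω).1, hD.1 n]⟩)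
      (hP.fit.mono (ok.mono fun n o ω hω h => ?_))
    · simp only [Prod.mk.injEq] at e
      have c := crv_eq (o.fc a ha b hb (Prod.ext e.2.1 e.2.2)) 0
      simp only [c.1, c.2, e.1, o.fq a ha b hb e.2.2]
    · have a := (h _ (o.ht ω hω).1 (o.ht ω hω).2).trans (dv (hLD n) (hD.pos n).le le_rfl)
      have b := (o.rb ω hω).2
      rw [abs_sub_comm] at b
      rw [mul_div_assoc, two_mul]
      exact (abs_sub_le _ _ _).trans (add_le_add b a)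
  have h3 := hMK P γ θ S l M R ε₀ (fun n ω => (p n ω, fl1 (k n) (r n (S n ω)))) hA
    (ok.mono fun n o => o.fp.pair fun _ _ _ _ e => by simp only [e])
    ((hP.sm.add h1).mono (Eventually.of_forall fun n => (ch_chain _ _ _).trans_le
      (add_le_add (ch_anti (Fn.snd _ _)) le_rfl)))
  have h4 : Sm M fun n => ch (P n) (fun ω => fl1 (k n) (cc (γ n ω) (p n ω) (q n ω)))
      fun ω => ((p n ω, fl1 (k n) (r n (S n ω))), θ n ω) :=
    Sm.near1 hM (hD.const_mul hM (C := 3) (by norm_num)) (ok.mono fun n o a ha b hb e => by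
      have c := abs_sub_lt_of_fl1_eq (Prod.ext_iff.1 (Prod.ext_iff.1 e).1).2
      have d := dv (j := k n) (hD.1 n) (hD.pos n).le le_rfl
      have a1 := abs_le.1 (o.rb a ha).2
      have b1 := abs_le.1 (o.rb b hb).2
      rw [← one_div, abs_lt] at c
      rw [mul_div_assoc, abs_le]
      constructor <;> linarith [c.1, c.2])
  have hN : NG1 P (fun n ω => (p n ω, θ n ω)) (fun n ω => cc (γ n ω) (p n ω) (q n ω)) k ε₀ := by
    refine hNG P _ _ (fun n ω => psi (p n ω) (q n ω) (rp (M n) (γ n ω))) _ _ M R k D ε₀ hM hkM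
      hP.frac hD hA.ng (ok.mono fun n o => ⟨fun a ha b hb e => ?_, fun ω hω => ?_⟩)
      (Le.of3 h3 h4 (up3 (G := fun n ω => (p n ω, θ n ω)) hM hB
        (ok.mono fun n o ω hω i => (o.pt ω hω i).1)) (Eventually.of_forall fun n => ?_))
    · simp only [Prod.mk.injEq] at e
      have c := fun i => (fl_apply _ _ i).symm.trans ((congrFun e.1.1 i).trans (fl_apply _ _ i))
      simp only [rp, rd, c, e.2.1, o.fq a ha b hb e.1.2]
    · rw [cc, show ∀ a b c : ℝ, a - b - (a - c) = c - b from fun _ _ _ => by ring]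
      exact o.rd ω hω ω hω ω hω
    · have a1 := mi_mono (P := P n) (F := fun ω => fl1 (k n) (cc (γ n ω) (p n ω) (q n ω)))
        (G := fun ω => (fl (M n) (γ n ω).pt, θ n ω)) (G' := fun ω => fl (M n) (γ n ω).pt)
        (K := fun ω => (p n ω, θ n ω)) fun _ _ _ _ e => by
          simp only [Prod.mk.injEq] at e ⊢; exact ⟨e.1, e.2.2⟩
      rw [mi_symm _ (fun ω => fl (M n) (γ n ω).pt)] at a1
      unfold mi at a1 ⊢
      have a2 := ch_drop (P := P n) (fun ω => fl (M n) (γ n ω).pt)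
        (fun ω => fl1 (k n) (cc (γ n ω) (p n ω) (q n ω)))
        fun ω => ((p n ω, fl1 (k n) (r n (S n ω))), θ n ω)
      have a3 : ch (P n) (fun ω => fl (M n) (γ n ω).pt) (fun ω => (fl1 (k n)
          (cc (γ n ω) (p n ω) (q n ω)), (p n ω, fl1 (k n) (r n (S n ω))), θ n ω)) ≤
          ch (P n) (fun ω => fl (M n) (γ n ω).pt) fun ω =>
            (fl1 (k n) (cc (γ n ω) (p n ω) (q n ω)), p n ω, θ n ω) := ch_anti fun _ _ _ _ e => by
        simp only [Prod.mk.injEq] at e ⊢; exact ⟨e.1, e.2.1.1, e.2.2⟩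
      linarith
  have mem := fun n v => (kg.mem (P n) (P n) (fun ω => (l n ω, θ n ω)) (fun ω => (l n ω, θ n ω)) v
    (Law.rfl _)).1
  have law := fun n => kg.fst (P n) (P n) (fun ω => (l n ω, θ n ω)) fun ω => (l n ω, θ n ω)
  have law' := fun n => kg.snd (P n) (P n) (fun ω => (l n ω, θ n ω)) (fun ω => (l n ω, θ n ω))
    (Law.rfl _)
  obtain ⟨Q, hQ⟩ : ∃ Q, Q = fun n =>
    glue (P n) (P n) (fun ω => (l n ω, θ n ω)) fun ω => (l n ω, θ n ω) := ⟨_, rfl⟩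
  simp only [← congrFun hQ] at mem law law' ⊢
  clear hQ
  have hb : ∀ᶠ n in UF, ∀ v ∈ (Q n).S, ∀ i, |(γ n v.1).pt i| ≤ B n :=
    ok.mono fun n o v hv i => (o.pt _ (mem n v hv).1 i).1
  have hg := fun i => grid (P := Q) (x := fun n v => (γ n v.1).pt i) hB
    (ok.mono fun n o v hv => (o.pt _ (mem n v hv).1 i).2)
  have h5 : Le M (fun n => 3 * M n * lg) fun n => ch (Q n) (fun v => fl (M n) (γ n v.1).pt)
      fun v => ((p n v.1, fl1 (k n) (r n (S n v.1))), p n v.2, θ n v.2) := by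
    refine Le.of2 h3 hP.sm (Eventually.of_forall fun n => ?_)
    have a1 := ch_drop (P := Q n) (fun v => fl (M n) (γ n v.1).pt) (fun v => p n v.2)
      fun v => ((p n v.1, fl1 (k n) (r n (S n v.1))), θ n v.1)
    have a2 : ch (Q n) (fun v => fl (M n) (γ n v.1).pt)
        (fun v => (p n v.2, (p n v.1, fl1 (k n) (r n (S n v.1))), θ n v.1)) ≤
        ch (Q n) (fun v => fl (M n) (γ n v.1).pt)
          fun v => ((p n v.1, fl1 (k n) (r n (S n v.1))), p n v.2, θ n v.2) :=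
      ch_anti fun a ha b hb e => Prod.ext (Prod.ext_iff.1 (Prod.ext_iff.1 e).2).1
        (Prod.ext (Prod.ext_iff.1 e).1 ((Prod.ext_iff.1 (mem n a ha).2.2).2.trans
          ((Prod.ext_iff.1 (Prod.ext_iff.1 e).2).2.trans (Prod.ext_iff.1 (mem n b hb).2.2).2.symm)))
    have a3 : ch (Q n) (fun v => p n v.2) (fun v => ((p n v.1, fl1 (k n) (r n (S n v.1))), θ n v.1)) ≤
        ch (Q n) (fun v => p n v.2) fun v => θ n v.2 :=
      ch_anti fun a ha b hb e => (Prod.ext_iff.1 (mem n a ha).2.2).2.trans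
        ((Prod.ext_iff.1 e).2.trans (Prod.ext_iff.1 (mem n b hb).2.2).2.symm)
    rw [(law' n).ch_id (p n) (θ n)] at a3
    rw [(law n).ch_id (fun ω => fl (M n) (γ n ω).pt)
      fun ω => ((p n ω, fl1 (k n) (r n (S n ω))), θ n ω)] at a1
    linarith
  obtain ⟨L', hL', hW⟩ := hC 4 Q _ _ _ _ _ _ (fun n v w => rd (k n) (r n (S n v.1)) +
      psi (p n v.1) (q n v.2) w - psi (p n v.2) (q n v.2) w) M k k (fun n => 6 * D n) ε₀ hM hkM
    (fun _ => le_rfl) (hD.const_mul hM (by norm_num)) hA.pos (hN.pull law') (hg 0) (hg 1) (hg 2)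
    (ful3 hM hB hb h5 0 1 2 (by decide)) (ful3 hM hB hb h5 1 2 0 (by decide))
    (ful3 hM hB hb h5 2 0 1 (by decide))
    (ok.mono fun n o => ⟨fun a ha b hb e => by
      simp only [Prod.mk.injEq] at e
      simp only [rd, e.1.1, e.1.2, e.2.1, o.fq _ (mem n a ha).2.1 _ (mem n b hb).2.1 e.2.2],
      Fn.snd _ _, fun v _ => p3 _ (kd.ps3 _ _) (kd.ps3 _ _)⟩)
    (((K31.dnS_law (Eventually.of_forall law')).whp hP.fit).mono (ok.mono fun n o v hv h => by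
      obtain ⟨m1, m2, m3⟩ := mem n v hv
      have c := crv_eq (o.fc _ m2 _ m1 m3) (γ n v.1).t
      have eq := o.fq _ m1 _ m2 (Prod.ext_iff.1 m3).2.symm
      have d := dv (j := k n) (hLD n) (hD.pos n).le le_rfl
      have d' := dv (j := k n) (hD.1 n) (hD.pos n).le le_rfl
      have a1 := abs_le.1 (h _ (o.ht _ m2).1 (o.ht _ m2).2)
      have a2 := abs_le.1 (h _ (o.ht _ m1).1 (o.ht _ m1).2)
      have a3 := abs_le.1 (o.rb _ m1).2
      have a4 := abs_le.1 (rd_near (k n) (r n (S n v.1)))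
      have a5 := abs_le.1 (o.rd _ m1 _ m1 _ m2)
      have a6 := abs_le.1 (o.rd _ m1 _ m2 _ m2)
      rw [c.1, c.2] at a2
      rw [eq] at a3
      refine ⟨?_, fun w hw => ?_⟩
      · simp only [cc, Cv.φ, Cv.pt, rp] at a1 a2 a3 a5 a6 ⊢
        rw [mul_div_assoc, abs_le]
        constructor <;> linarith [a1.1, a2.1, a3.1, a4.1, a5.1, a6.1]
      · have b1 := abs_le.1 (o.box _ m1 _ m2 w hw)
        have b2 := abs_le.1 (o.box _ m2 _ m2 w hw)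
        rw [abs_le]
        constructor <;> linarith [b1.1, b2.1, hD.1 n]))
  refine ⟨fun n => KU * B n ^ m * L' n, ((hB.pow m).const_mul hM hKU).mul hL',
    hW.mono (ok.mono fun n o v hv h => ?_)⟩
  obtain ⟨m1, m2, m3⟩ := mem n v hv
  rw [mul_div_assoc]
  refine hU (B n) _ (q n v.2) _ _ (hB.1 n) (div_nonneg (hL'.pos n).le (by positivity))
    (o.alg _ m1).1 (o.alg _ m2).1 (o.alg _ m2).2.1 ((o.alg _ m2).2.2.1.imp_right fun e => ?_)
    fun z hz => le_trans (le_of_eq ?_) (h z hz)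
  · rw [(o.alg _ m2).2.2.2 e, (o.alg _ m1).2.2.2 ((o.fq _ m1 _ m2 (Prod.ext_iff.1 m3).2.symm).trans e)]
  · simp only [psi_zero]
    congr 1
    simp only [psi]
    ring

end Pool.Agent.MP_5168f5_an.R4.Web
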