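import Pool.Agent.MP_5168f5_an.R4.WAlg0

/-! The derivative along a line and the flat case. -/

namespace Pool.Agent.MP_5168f5_an.R4.Web

open H19 H17S H17F Matrix

namespace WAlgFA

open Ins

section Bw

variable {X : Type} {s : Ins X} {w f g : X → ℝ}

theorem mul (h : s.Bw 1 f) (h' : s.Bw w g) : s.Bw w fun x => f x * g x := by
  have := h.mul h'
  rwa [one_mul] at this

theorem mul' (h : s.Bw w f) (h' : s.Bw 1 g) : s.Bw w fun x => f x * g x := by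
  have := h.mul h'
  rwa [mul_one] at this

theorem sub (hw : ∀ x, 0 ≤ w x) (h : s.Bw w f) (h' : s.Bw w g) : s.Bw w fun x => f x - g x := by
  simp only [sub_eq_add_neg]
  exact h.add hw h'.neg

theorem sum (hw : ∀ x, 0 ≤ w x) {F : Fin 3 → X → ℝ} (h : ∀ i, s.Bw w (F i)) :
    s.Bw w fun x => ∑ i, F i x := by
  simp only [Fin.sum_univ_three]
  exact ((h 0).add hw (h 1)).add hw (h 2)

theorem pow (h : s.Bw 1 f) (k : ℕ) : s.Bw 1 fun x => f x ^ k := s.O.pow_mem h k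

theorem one_nn (x : X) : 0 ≤ (1 : X → ℝ) x := zero_le_one

variable {M N : X → Matrix (Fin 3) (Fin 3) ℝ} {u : X → V 3}

theorem det (h : ∀ i j, s.Bw 1 fun x => M x i j) : s.Bw 1 fun x => (M x).det := by
  have t := fun i j k => mul (mul (h 0 i) (h 1 j)) (h 2 k)
  simp only [det_fin_three]
  exact sub one_nn (((sub one_nn (sub one_nn (t 0 1 2) (t 0 2 1)) (t 1 0 2)).add one_nn
    (t 1 2 0)).add one_nn (t 2 0 1)) (t 2 1 0)

theorem inv (h : ∀ i j, s.Bw 1 fun x => M x i j) (d : ∀ x, 1 ≤ s.L x * |(M x).det|) (i j : Fin 3) :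
    s.Bw 1 fun x => (M x)⁻¹ i j := by
  simp only [inv_def, Ring.inverse_eq_inv', Matrix.smul_apply, smul_eq_mul, adjugate_apply]
  refine mul (bw_inv (K := 1) (m := 1) le_rfl (by simpa using d)) (det fun k l => ?_)
  simp only [updateRow_apply]
  split_ifs
  exacts [bw_const _, h k l]

theorem mulVec (h : ∀ i j, s.Bw 1 fun x => M x i j) (h' : ∀ i, s.Bw 1 fun x => u x i) (i : Fin 3) :
    s.Bw 1 fun x => (M x *ᵥ u x) i := sum one_nn fun j => mul (h i j) (h' j)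

theorem mmul (h : ∀ i j, s.Bw 1 fun x => M x i j) (h' : ∀ i j, s.Bw 1 fun x => N x i j)
    (i j : Fin 3) : s.Bw 1 fun x => (M x * N x) i j := sum one_nn fun k => mul (h i k) (h' k j)

end Bw

theorem det_frm (a b c : V 3) : (frm a b c).det = det3 a b c := det_transpose _

theorem ne_of {L d : ℝ} (h : 1 ≤ L * |d|) : d ≠ 0 := fun e => by
  rw [e, abs_zero, mul_zero] at h; linarith

theorem cram {a b c : V 3} (w : V 3) (h : det3 a b c ≠ 0) :
    ((frm a b c)⁻¹ *ᵥ w) 0 = det3 w b c / det3 a b c ∧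
      ((frm a b c)⁻¹ *ᵥ w) 1 = det3 a w c / det3 a b c := by
  have e := det_smul_inv_mulVec_eq_cramer (frm a b c) w (by rw [det_frm]; exact h.isUnit)
  rw [det_frm] at e
  constructor <;> rw [eq_div_iff h, mul_comm]
  · refine (congrFun e 0).trans ?_
    rw [cramer_apply, ← det_frm]
    congr 1
    ext i j; fin_cases j <;> simp [frm]
  · refine (congrFun e 1).trans ?_
    rw [cramer_apply, ← det_frm]
    congr 1
    ext i j; fin_cases j <;> simp [frm]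

/-- The linear part. -/
def lin (C : Arr) : V 3 := ![C 1 0 0, C 0 1 0, C 0 0 1]

/-- The quadratic part. -/
noncomputable def qd (C : Arr) : Matrix (Fin 3) (Fin 3) ℝ :=
  !![0, 2⁻¹ * C 1 1 0, 2⁻¹ * C 1 0 1; 2⁻¹ * C 1 1 0, 0, 2⁻¹ * C 0 1 1;
    2⁻¹ * C 1 0 1, 2⁻¹ * C 0 1 1, 0]

/-- The rest. -/
def rs (C : Arr) : Arr := fun i j l =>
  if i = 2 ∨ j = 2 ∨ l = 2 ∨ (i = 1 ∧ j = 1 ∧ l = 1) then C i j l else 0

theorem split (C : Arr) (A : Matrix (Fin 3) (Fin 3) ℝ) (z : V 3) :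
    tv C (A *ᵥ z) - pq (C 0 0 0, Aᵀ *ᵥ lin C, Aᵀ * qd C * A, 0, 0) z 0 = tv (rs C) (A *ᵥ z) := by
  have e1 : (Aᵀ *ᵥ lin C) ⬝ᵥ z = lin C ⬝ᵥ A *ᵥ z := by rw [mulVec_transpose, dotProduct_mulVec]
  have e2 : z ⬝ᵥ (Aᵀ * qd C * A) *ᵥ z = (A *ᵥ z) ⬝ᵥ qd C *ᵥ A *ᵥ z := by
    rw [← mulVec_mulVec, ← mulVec_mulVec, dotProduct_mulVec, vecMul_transpose]
  simp only [pq, e1, e2]
  generalize A *ᵥ z = y
  simp [tv, tq, rs, lin, qd, Fin.sum_univ_three, dotProduct, Matrix.mulVec]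
  ring

theorem qd_symm (C : Arr) (A : Matrix (Fin 3) (Fin 3) ℝ) (i j : Fin 3) :
    (Aᵀ * qd C * A) i j = (Aᵀ * qd C * A) j i := by
  have e : (qd C)ᵀ = qd C := by ext i j; fin_cases i <;> fin_cases j <;> rfl
  rw [← transpose_apply (Aᵀ * qd C * A) i j, transpose_mul, transpose_mul, transpose_transpose, e,
    Matrix.mul_assoc]

theorem top (C : Arr) {v : V 3} (h0 : v 0 ≠ 0) (h1 : v 1 ≠ 0) :
    C 1 1 1 = 2⁻¹ * ((v 0)⁻¹ * ((v 1)⁻¹ * (dV v (dV v C) 0 0 1 - 2 * (v 0 * (v 0 * C 2 0 1)) -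
      4 * (v 0 * (v 2 * C 1 0 2)) - 2 * (v 1 * (v 1 * C 0 2 1)) -
      4 * (v 1 * (v 2 * C 0 1 2))))) := by
  simp [dV, d1]
  field_simp
  ring

/-- An instance. -/
structure In where
  L : ℝ
  ε : ℝ
  a : V 3
  b : V 3
  c : V 3
  w : V 3
  C : Arr
  z : V 3
  hL : 1 ≤ L
  hε : 0 ≤ ε
  hb : ∀ i, |a i| ≤ L ∧ |b i| ≤ L ∧ |c i| ≤ L ∧ |w i| ≤ L
  d : 1 ≤ L * |det3 a b c|
  d0 : 1 ≤ L * |det3 w b c|
  d1 : 1 ≤ L * |det3 a w c|
  hC : ∀ i j l, |C i j l| ≤ L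
  h2 : ∀ i j, |C 2 i j| ≤ ε ∧ |C i 2 j| ≤ ε ∧ |C i j 2| ≤ ε
  hE : |dV ((frm a b c)⁻¹ *ᵥ w) (dV ((frm a b c)⁻¹ *ᵥ w) C) 0 0 1| ≤ ε
  hz : ∀ i, |z i| ≤ L

/-- The family of all instances. -/
def S : Ins In := ⟨In.L, In.ε, In.hL, In.hε⟩

theorem hF (i j : Fin 3) : S.Bw 1 fun x => frm x.a x.b x.c i j := bw_L fun x => by
  fin_cases j
  exacts [(x.hb i).1, (x.hb i).2.1, (x.hb i).2.2.1]

theorem hA : ∀ i j, S.Bw 1 fun x => (frm x.a x.b x.c)⁻¹ i j :=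
  inv hF fun x => by rw [det_frm]; exact x.d

theorem hC (i j l : Fin 3) : S.Bw 1 fun x => x.C i j l := bw_L fun x => x.hC i j l

theorem h111 : S.Bw S.ε fun x => x.C 1 1 1 := by
  have v := mulVec hA (u := In.w) fun i => bw_L fun x => (x.hb i).2.2.2
  have dd : S.Bw 1 fun x => det3 x.a x.b x.c := by simpa only [det_frm] using det hF
  have i0 : S.Bw 1 fun x => (((frm x.a x.b x.c)⁻¹ *ᵥ x.w) 0)⁻¹ :=
    (mul dd (bw_inv (K := 1) (m := 1) (f := fun x => det3 x.w x.b x.c) le_rfl fun x => by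
      simpa [S] using x.d0)).of_le fun x => by rw [(cram x.w (ne_of x.d)).1, inv_div, div_eq_mul_inv]
  have i1 : S.Bw 1 fun x => (((frm x.a x.b x.c)⁻¹ *ᵥ x.w) 1)⁻¹ :=
    (mul dd (bw_inv (K := 1) (m := 1) (f := fun x => det3 x.a x.w x.c) le_rfl fun x => by
      simpa [S] using x.d1)).of_le fun x => by rw [(cram x.w (ne_of x.d)).2, inv_div, div_eq_mul_inv]
  have t := fun (k : ℝ) i j {g : In → ℝ} (h : ∀ x, |g x| ≤ x.ε) =>
    mul (bw_const k) (mul (v i) (mul (v j) (bw_w (s := S) (w := S.ε) h)))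
  refine (mul (bw_const 2⁻¹) (mul i0 (mul i1 (sub S.hε (sub S.hε (sub S.hε (sub S.hε
    (bw_w In.hE) (t 2 0 0 fun x => (x.h2 0 1).1)) (t 4 0 2 fun x => (x.h2 1 0).2.2))
    (t 2 1 1 fun x => (x.h2 0 1).2.1)) (t 4 1 2 fun x => (x.h2 0 1).2.2))))).of_le
    fun x => (congrArg abs (top x.C ?_ ?_)).le
  · rw [(cram x.w (ne_of x.d)).1]; exact div_ne_zero (ne_of x.d0) (ne_of x.d)
  · rw [(cram x.w (ne_of x.d)).2]; exact div_ne_zero (ne_of x.d1) (ne_of x.d)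

theorem hrs (i j l : Fin 3) : S.Bw S.ε fun x => rs x.C i j l := by
  simp only [rs]
  split_ifs with h
  · rcases h with rfl | rfl | rfl | ⟨rfl, rfl, rfl⟩
    exacts [bw_w fun x => (x.h2 _ _).1, bw_w fun x => (x.h2 _ _).2.1,
      bw_w fun x => (x.h2 _ _).2.2, h111]
  · exact bw_w fun x => by simpa using S.hε x

theorem herr : S.Bw S.ε fun x => tv (rs x.C) ((frm x.a x.b x.c)⁻¹ *ᵥ x.z) := by
  have v := mulVec hA (u := In.z) fun i => bw_L fun x => x.hz i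
  exact sum S.hε fun i => sum S.hε fun j => sum S.hε fun l =>
    mul' (mul' (mul' (hrs i j l) (pow (v 0) i)) (pow (v 1) j)) (pow (v 2) l)

theorem hlin : ∀ i, S.Bw 1 fun x => ((frm x.a x.b x.c)⁻¹ᵀ *ᵥ lin x.C) i :=
  mulVec (fun i j => hA j i) fun i => by fin_cases i <;> exact hC _ _ _

theorem hqd : ∀ i j, S.Bw 1 fun x => ((frm x.a x.b x.c)⁻¹ᵀ * qd x.C * (frm x.a x.b x.c)⁻¹) i j :=
  mmul (mmul (fun i j => hA j i) fun i j => by
    fin_cases i <;> fin_cases j <;>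
      first | exact bw_const 0 | exact mul (bw_const 2⁻¹) (hC _ _ _)) hA

end WAlgFA

open WAlgFA

theorem rowAlgD : AlgD := by
  intro C x v s
  have h : ∀ t, HasDerivAt (fun s : ℝ => (x + s • v) t) (v t) s := fun t => by
    simpa using ((hasDerivAt_id s).mul_const (v t)).const_add (x t)
  have e := HasDerivAt.fun_sum (u := Finset.univ) fun (i : Fin 3) _ =>
    HasDerivAt.fun_sum (u := Finset.univ) fun (j : Fin 3) _ =>
      HasDerivAt.fun_sum (u := Finset.univ) fun (k : Fin 3) _ =>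
        ((((h 0).fun_pow i).const_mul (C i j k)).fun_mul ((h 1).fun_pow j)).fun_mul
          ((h 2).fun_pow k)
  refine e.congr_deriv ?_
  generalize x + s • v = y
  simp [tv, tq, dV, d1, Fin.sum_univ_three]
  ring

theorem rowAlgF : AlgF := by
  obtain ⟨K, m, h1, h2⟩ := Ins.Bw.all (J := Unit ⊕ Fin 3 ⊕ Fin 3 × Fin 3) (s := S)
    (F := Sum.elim (fun _ x => x.C 0 0 0) (Sum.elim
      (fun i x => ((frm x.a x.b x.c)⁻¹ᵀ *ᵥ lin x.C) i)
      fun i x => ((frm x.a x.b x.c)⁻¹ᵀ * qd x.C * (frm x.a x.b x.c)⁻¹) i.1 i.2)) one_nn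
    (by rintro (_ | i | i); exacts [hC 0 0 0, hlin i, hqd i.1 i.2])
  obtain ⟨K', m', h3, h4⟩ := herr
  refine ⟨K + K', m + m', by linarith, fun L ε a b c w C hL hε hb d d0 d1 _ hC h5 hE =>
    ⟨(C 0 0 0, (frm a b c)⁻¹ᵀ *ᵥ lin C, (frm a b c)⁻¹ᵀ * qd C * (frm a b c)⁻¹, 0, 0), ?_, rfl,
      fun z hz => ?_⟩⟩
  · let x : In := ⟨L, ε, a, b, c, w, C, 0, hL, hε, hb, d, d0, d1, hC, h5, hE 0 0 1,
      fun _ => by simpa using zero_le_one.trans hL⟩
    have u := Ins.le_up (s := S) x h1 (le_add_of_nonneg_right (zero_le_one.trans h3))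
      (Nat.le_add_right m m')
    have e := fun j => (h2 j x).trans ((mul_one _).trans_le u)
    have e0 : |(0 : ℝ)| ≤ (K + K') * L ^ (m + m') := by rw [abs_zero]; positivity
    exact ⟨e (.inl ()), fun i => e (.inr (.inl i)),
      fun i j => ⟨e (.inr (.inr (i, j))), qd_symm _ _ i j⟩, fun _ => e0, e0⟩
  · let x : In := ⟨L, ε, a, b, c, w, C, z, hL, hε, hb, d, d0, d1, hC, h5, hE 0 0 1, hz⟩
    rw [split]
    exact (h4 x).trans (mul_le_mul_of_nonneg_right (Ins.le_up (s := S) x h3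
      (le_add_of_nonneg_left (zero_le_one.trans h1)) (Nat.le_add_left m' m)) hε)

end Pool.Agent.MP_5168f5_an.R4.Web
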