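import Pool.Agent.MP_5168f5_an.R4.WAlg0

/-! Uniqueness of the data of a quadric up to small errors. -/

namespace Pool.Agent.MP_5168f5_an.R4.Web

open H19 H17S H17F Matrix

namespace WAlgUA

/-- The unit cube. -/
def Cb (z : V 3) : Prop := ∀ i, |z i| ≤ 1

theorem Cb.comb {x y : V 3} (hx : Cb x) (hy : Cb y) {a b : ℝ} (h : |a| + |b| ≤ 1) :
    Cb (a • x + b • y) := fun i => by
  simp only [Pi.add_apply, Pi.smul_apply, smul_eq_mul]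
  refine (abs_add_le _ _).trans ?_
  rw [abs_mul, abs_mul]
  nlinarith [hx i, hy i, abs_nonneg a, abs_nonneg b]

theorem cb_e (i : Fin 3) : Cb (Pi.single i 1) := fun j => by
  rw [Pi.single_apply]; split_ifs <;> simp

theorem expd {A : Matrix (Fin 3) (Fin 3) ℝ} (hA : ∀ i j, A i j = A j i) (x y : V 3) (a b : ℝ) :
    (a • x + b • y) ⬝ᵥ A *ᵥ (a • x + b • y) =
      a ^ 2 * (x ⬝ᵥ A *ᵥ x) + 2 * a * b * (x ⬝ᵥ A *ᵥ y) + b ^ 2 * (y ⬝ᵥ A *ᵥ y) := by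
  simp only [dotProduct, mulVec, Fin.sum_univ_three, Pi.add_apply, Pi.smul_apply, smul_eq_mul,
    hA 1 0, hA 2 0, hA 2 1]
  ring

theorem pol {A : Matrix (Fin 3) (Fin 3) ℝ} (hA : ∀ i j, A i j = A j i) (i j : Fin 3) :
    ∃ x y, Cb x ∧ Cb y ∧ A i j = x ⬝ᵥ A *ᵥ x - y ⬝ᵥ A *ᵥ y := by
  refine ⟨_, _, (cb_e i).comb (cb_e j) (a := 1 / 2) (b := 1 / 2) (by norm_num [abs_of_pos]),
    (cb_e i).comb (cb_e j) (a := 1 / 2) (b := -(1 / 2)) (by norm_num [abs_of_pos]), ?_⟩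
  rw [expd hA, expd hA]
  simp
  ring

theorem four {a b c d ε : ℝ}
    (h : ∀ s : ℝ, |s| ≤ 1 → |s * a + s ^ 2 * b + s ^ 3 * c + s ^ 4 * d| ≤ ε) :
    |a| ≤ 8 * ε ∧ |b| ≤ 8 * ε ∧ |c| ≤ 8 * ε ∧ |d| ≤ 8 * ε := by
  have h1 := abs_le.1 (h 1 (by simp))
  have h2 := abs_le.1 (h (-1) (by simp))
  have h3 := abs_le.1 (h (1 / 2) (by norm_num [abs_of_pos]))
  have h4 := abs_le.1 (h (-(1 / 2)) (by norm_num [abs_of_pos]))
  simp only [abs_le]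
  refine ⟨⟨?_, ?_⟩, ⟨?_, ?_⟩, ⟨?_, ?_⟩, ?_, ?_⟩ <;> linarith [h1.1, h1.2, h2.1, h2.2, h3.1, h4.1]

theorem core {L ε k : ℝ} {q G : Matrix (Fin 3) (Fin 3) ℝ} {l m : V 3} (hL : 1 ≤ L) (hε : 0 ≤ ε)
    (hq : ∀ i j, |q i j| ≤ L ∧ q i j = q j i) (hG : ∀ i j, G i j = G j i)
    (ho : (∃ i j, 1 ≤ L * |q i j|) ∨ m = 0 ∧ k = 0)
    (h : ∀ z, Cb z → |l ⬝ᵥ z + z ⬝ᵥ G *ᵥ z + (z ⬝ᵥ q *ᵥ z) * (m ⬝ᵥ z) +
      k * (z ⬝ᵥ q *ᵥ z) ^ 2| ≤ ε) :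
    (∀ i, |l i| ≤ 2240 * L ^ 3 * ε) ∧ (∀ i j, |G i j| ≤ 2240 * L ^ 3 * ε) ∧
      (∀ i, |m i| ≤ 2240 * L ^ 3 * ε) ∧ |k| ≤ 2240 * L ^ 3 * ε := by
  have qs : ∀ i j, q i j = q j i := fun i j => (hq i j).2
  have H : ∀ z, Cb z → _ := fun z hz => four (a := l ⬝ᵥ z) (b := z ⬝ᵥ G *ᵥ z)
    (c := (z ⬝ᵥ q *ᵥ z) * (m ⬝ᵥ z)) (d := k * (z ⬝ᵥ q *ᵥ z) ^ 2) (ε := ε) fun s hs => by
      refine le_of_eq_of_le (congrArg _ ?_) (h _ (hz.comb hz (a := s) (b := 0) (by simpa)))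
      rw [expd qs, expd hG]
      simp
      ring
  have e1 : ε ≤ L ^ 2 * ε := le_mul_of_one_le_left hε (one_le_pow₀ hL)
  have e2 : L ^ 2 * ε ≤ L ^ 3 * ε := by nlinarith
  refine ⟨fun i => ?_, fun i j => ?_, ?_⟩
  · have := (H _ (cb_e i)).1
    simp only [dotProduct_single, mul_one] at this
    linarith
  · obtain ⟨x, y, hx, hy, e⟩ := pol hG i j
    rw [e]
    linarith [abs_sub (x ⬝ᵥ G *ᵥ x) (y ⬝ᵥ G *ᵥ y), (H x hx).2.1, (H y hy).2.1]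
  obtain ⟨i, j, hij⟩ | ⟨rfl, rfl⟩ := ho
  swap
  · simp only [Pi.zero_apply, abs_zero, forall_const, and_self]
    positivity
  obtain ⟨z, hz, b⟩ : ∃ z, Cb z ∧ 1 ≤ 2 * L * |z ⬝ᵥ q *ᵥ z| := by
    obtain ⟨x, y, hx, hy, e⟩ := pol qs i j
    have := mul_le_mul_of_nonneg_left (abs_sub (x ⬝ᵥ q *ᵥ x) (y ⬝ᵥ q *ᵥ y)) (zero_le_one.trans hL)
    rw [← e] at this
    by_contra! k
    linarith [k x hx, k y hy]
  have dv : ∀ u c : ℝ, |z ⬝ᵥ q *ᵥ z| * |u| ≤ c → |u| ≤ 2 * L * c := fun u c e => by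
    nlinarith [mul_le_mul_of_nonneg_right b (abs_nonneg u)]
  refine ⟨fun t => ?_, ?_⟩
  · have m0 := dv _ _ ((abs_mul _ _).symm.trans_le (H z hz).2.2.1)
    have b0 : |z ⬝ᵥ q *ᵥ Pi.single t 1| ≤ 3 * L := by
      have : ∀ u, |z u * q u t| ≤ L := fun u => by
        rw [abs_mul]; nlinarith [hz u, (hq u t).1, abs_nonneg (q u t), abs_nonneg (z u)]
      simp only [mulVec_single_one, dotProduct, Fin.sum_univ_three, col_apply]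
      linarith [abs_add_three (z 0 * q 0 t) (z 1 * q 1 t) (z 2 * q 2 t), this 0, this 1, this 2]
    have c1 := (four (a := ((z ⬝ᵥ q *ᵥ z) * m t + 2 * (z ⬝ᵥ q *ᵥ Pi.single t 1) * (m ⬝ᵥ z)) / 8)
      (b := (2 * (z ⬝ᵥ q *ᵥ Pi.single t 1) * m t + q t t * (m ⬝ᵥ z)) / 8) (c := q t t * m t / 8)
      (d := 0) (ε := 16 * ε) fun s hs => by
        have u := (H _ (hz.comb (cb_e t) (a := 1 / 2) (b := s / 2) (by
          rw [abs_div s, abs_two, abs_of_pos one_half_pos]; linarith))).2.2.1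
        have v := abs_le.1 (H z hz).2.2.1
        rw [expd qs] at u
        simp only [dotProduct_add, dotProduct_smul, dotProduct_single, smul_eq_mul, mul_one,
          single_dotProduct, mulVec_single_one (M := q) t, col_apply, one_mul] at u ⊢
        rw [abs_le] at u ⊢
        constructor <;> linarith [u.1, u.2, v.1, v.2]).1
    refine (dv _ (1120 * L ^ 2 * ε) ?_).trans_eq (by ring)
    have c2 : |2 * (z ⬝ᵥ q *ᵥ Pi.single t 1) * (m ⬝ᵥ z)| ≤ 2 * (3 * L) * (2 * L * (8 * ε)) := by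
      rw [abs_mul, abs_mul, abs_two]; gcongr
    rw [← abs_mul]
    rw [abs_le] at c1 c2 ⊢
    constructor <;> linarith [c1.1, c1.2, c2.1, c2.2]
  · have := dv (k * (z ⬝ᵥ q *ᵥ z)) (8 * ε)
      ((abs_mul _ _).symm.trans_le (le_of_eq_of_le (congrArg _ (by ring)) (H z hz).2.2.2))
    rw [abs_mul, mul_comm] at this
    linarith [dv _ _ this]

end WAlgUA

open WAlgUA in
theorem rowAlgU : AlgU := by
  refine ⟨2240, 3, by norm_num, fun L ε q p p' hL hε hp hp' hq ho h => ?_⟩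
  refine core (l := p.2.1 - p'.2.1) (G := p.2.2.1 - p'.2.2.1) (m := p.2.2.2.1 - p'.2.2.2.1)
    hL hε hq (fun i j => ?_) (ho.imp_right fun e => by simp [e]) fun z hz => ?_
  · rw [Matrix.sub_apply, Matrix.sub_apply, (hp.2.2.1 i j).2, (hp'.2.2.1 i j).2]
  · refine le_of_eq_of_le (congrArg _ ?_) (h z hz)
    simp only [pq, sub_dotProduct, sub_mulVec, dotProduct_sub]
    ring

end Pool.Agent.MP_5168f5_an.R4.Web
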