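import Pool.Agent.MP_5168f5_an.R4.WAll
import Pool.Agent.MP_5168f5_an.R4.WAlgF
import Pool.Agent.MP_5168f5_an.R4.WAlgU
import Pool.Agent.MP_5168f5_an.R4.APC
import Pool.Agent.MP_5168f5_an.R4.AKD
import Pool.Agent.MP_5168f5_an.R4.ACop
import Pool.Agent.MP_5168f5_an.R4.ASpr3
import Pool.Agent.MP_5168f5_an.R4.ACon3
import Pool.Agent.MP_5168f5_an.R4.ADer
import Pool.Agent.MP_5168f5_an.R4.ALnOf
import Pool.Agent.MP_5168f5_an.R4.ATFul
import Pool.Agent.MP_5168f5_an.R4.AStar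
import Pool.Agent.MP_5168f5_an.R4.AMK3
import Pool.Agent.MP_5168f5_an.R4.APotN
import Pool.Agent.MP_5168f5_an.R4.ALine4
import Pool.Agent.MP_5168f5_an.R4.ALine5
import Pool.Agent.MP_5168f5_an.R4.AFrE
import Pool.Agent.MP_5168f5_an.R4.APoF
import Pool.Agent.MP_5168f5_an.R4.APoC
import Pool.Agent.MP_5168f5_an.R4.AUp

/-! Curves of degree two over a base of dimension three: all the statements. -/

namespace Pool.Agent.MP_5168f5_an.R4.Web

open H19 H17S H17F Filter

theorem pc : PC := rowPC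
theorem kd : KD := rowKD pc
theorem kcop : KCop := rowKCop
theorem spr3 : Spr3 := rowSpr3 pc sprW
theorem con3 : Con3 := rowCon3 pc denP spr3
theorem der : Der := rowDer cover
theorem tFul : TFul := rowTFul kcop
theorem star : Star := rowStar kd rowLnOf tFul
theorem mk3 : MK3 := rowMK3 kd star
theorem potN : PotN := rowPotN kd sprW spr3 ngx invW
theorem line4 : Line4 := rowLine4 pc kd rowAlgD tFul denP
theorem line5 : Line5 := rowLine5 kd tFul spr3
theorem frE : FrE := rowFrE star pot potN line4 line5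
theorem poF : PoF := rowPoF kd kcop tFul rowAlgF der frE
theorem upA : Up := rowUp kd rowAlgU ngx con3 mk3

theorem Pq.Bd.mono {p : Pq} {L L' : ℝ} (h : p.Bd L) (e : L ≤ L') : p.Bd L' :=
  ⟨h.1.trans e, fun i => (h.2.1 i).trans e, fun i j => ⟨(h.2.2.1 i j).1.trans e, (h.2.2.1 i j).2⟩,
    fun i => (h.2.2.2.1 i).trans e, h.2.2.2.2.trans e⟩

theorem Pq.Cl.mono {p p' : Pq} {ε ε' : ℝ} (h : p.Cl p' ε) (e : ε ≤ ε') : p.Cl p' ε' :=
  ⟨fun i => (h.1 i).trans e, fun i j => (h.2.1 i j).trans e, fun i => (h.2.2.1 i).trans e,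
    h.2.2.2.trans e⟩

theorem coreA_of (hC : AlgC) : CoreA := by
  intro Ω T U Λ P γ θ S l M R ε₀ q h hk
  obtain ⟨p, L, k, hp⟩ : ∃ p L k, Po P γ θ S M R q p L k := by
    rcases hk with ⟨f, rfl⟩ | c
    · exact poF P γ θ S l M R ε₀ h f
    · exact rowPoC kd kcop tFul hC der frE P γ θ S l M R ε₀ q h c
  obtain ⟨L', s, w⟩ := upA P γ θ S l M R k ε₀ q p L h hk hp
  have a : ∀ n, L n ≤ L n + L' n := fun n => by linarith [s.1 n]
  have b : ∀ n, L' n ≤ L n + L' n := fun n => by linarith [hp.sub.1 n]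
  exact ⟨p, fun n => L n + L' n, k, ⟨hp.frac, hp.sub.add s h.big,
    hp.alg.mono fun n u => ⟨u.1, fun ω hω => ⟨(u.2 ω hω).1.mono (a n), (u.2 ω hω).2⟩⟩, hp.sm,
    hp.fit.mono (Eventually.of_forall fun n ω _ u t t0 t1 => (u t t0 t1).trans
      (div_le_div_of_nonneg_right (a n) (by positivity)))⟩,
    w.mono (Eventually.of_forall fun n v _ u =>
      u.mono (div_le_div_of_nonneg_right (b n) (by positivity)))⟩

end Pool.Agent.MP_5168f5_an.R4.Web
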