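import Pool.Agent.MP_5168f5_an.R4.SpecA

/-! The web of three copies. -/

namespace Pool.Agent.MP_5168f5_an.R4.Web

open H19 H17S H17F Filter NCx Matrix K31

namespace AStarA

theorem abs_rd (M : ℕ) (x : ℝ) : |rd M x - x| ≤ 1 / 2 ^ M := by
  have e : rd M x - x = ((fl1 M x : ℝ) - 2 ^ M * x) / 2 ^ M := by rw [rd]; field_simp
  rw [e, abs_div, abs_of_pos (by positivity : (0 : ℝ) < 2 ^ M)]
  exact div_le_div_of_nonneg_right (abs_fl1_sub M x) (by positivity)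

theorem dr_bd {c : Cv} {L : ℝ} (h : c.Bd L) (hL : 0 ≤ L) (M : ℕ) (j : Fin 3) :
    |c.dr M j| ≤ L + 1 := by
  have k : ∀ i, |rd M (c.e i)| ≤ L + 1 := fun i => by
    have h1 := abs_rd M (c.e i)
    have h2 : (1 : ℝ) / 2 ^ M ≤ 1 := (div_le_one (by positivity)).2 (one_le_pow₀ one_le_two)
    have h3 := (h.1 i).2
    rw [abs_le] at *
    constructor <;> linarith [h1.1, h1.2, h3.1, h3.2]
  fin_cases j
  · simpa [Cv.dr] using hL
  · exact k 0
  · exact k 1

theorem dr_eq {c c' : Cv} {M : ℕ} (h : fl M c.e = fl M c'.e) : c.dr M = c'.dr M := by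
  have k : ∀ i, rd M (c.e i) = rd M (c'.e i) := fun i => by
    rw [rd, rd, show fl1 M (c.e i) = fl1 M (c'.e i) from congrFun h i]
  rw [Cv.dr, Cv.dr, k 0, k 1]

theorem bd_mono {c : Cv} {L L' : ℝ} (h : c.Bd L) (e : L ≤ L') : c.Bd L' :=
  ⟨fun i => ⟨(h.1 i).1.trans e, (h.1 i).2.trans e⟩, fun j => (h.2.1 j).trans e, h.2.2⟩

section One

variable {Ω T : Type} {P : FP Ω} {S : Ω → T} {M : ℕ} {γ : Ω → Cv}

theorem fm_eq {a b : (Ω × Ω) × Ω} (h : ty M γ a = ty M γ b) : fm M γ a = fm M γ b := by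
  rw [fm, fm, dr_eq (c := γ a.1.1) (c' := γ b.1.1) (congrFun h 0),
    dr_eq (c := γ a.1.2) (c' := γ b.1.2) (congrFun h 1),
    dr_eq (c := γ a.2) (c' := γ b.2) (congrFun h 2)]

theorem fm_col (v : (Ω × Ω) × Ω) (j i : Fin 3) : fm M γ v j i = (γ (sl i v)).dr M j := by
  fin_cases i <;> rfl

theorem law_sl (P : FP Ω) (S : Ω → T) (i : Fin 3) : Law (G3 P S) (sl i) P id := by
  have h : Law (G3 P S) Prod.fst (glue P P S S) id := kg.fst _ _ _ _
  fin_cases i
  · exact (h.comp Prod.fst).trans (kg.fst _ _ _ _)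
  · exact (h.comp Prod.snd).trans (kg.snd _ _ _ _ (Law.rfl _))
  · exact kg.snd _ _ _ _ ((kg.fst P P S S).comp S)

theorem mem_sl {v : (Ω × Ω) × Ω} (hv : v ∈ (G3 P S).S) (i : Fin 3) :
    sl i v ∈ P.S ∧ S (sl i v) = S v.1.1 := by
  refine ⟨(law_sl P S i).mem hv, ?_⟩
  have h := (kg.mem _ _ _ _ v ((kg.fst P P S S).comp S)).1 hv
  fin_cases i
  · rfl
  · exact ((kg.mem _ _ _ _ v.1 (Law.rfl _)).1 h.1).2.2
  · exact h.2.2

theorem det_t {β : Type} {t : Ω → ℝ} (h : ∀ ω ∈ P.S, 0 ≤ t ω ∧ t ω < 1) (G : Ω → β) (M : ℕ) :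
    Det P (fun ω => fl1 M (t ω)) G (2 ^ M) := fun a ha =>
  ⟨Finset.Ico 0 (2 ^ M), by rw [Int.card_Ico, sub_zero]; norm_cast, fun b hb _ => by
    have := fl1_mem_Ico (j := 0) (i := M) (x := t b) (y := t b) rfl
    simpa [fl1_zero_of_box (h b hb).1 (h b hb).2] using this⟩

end One

theorem ng_near {Ω T T' : ℕ → Type} {P : ∀ n, FP (Ω n)} {Θ : ∀ n, Ω n → T n}
    {Θ' : ∀ n, Ω n → T' n} {u : RV Ω} {R : ℕ → ℕ} {ε₀ : ℝ} (h : NG1 P Θ u R ε₀)
    (s : Sm R fun n => ch (P n) (Θ n) (Θ' n)) : NG1 P Θ' u R ε₀ := by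
  intro Ω' Q ρ β lam E h1 h2 h3
  refine Le.of2 (h Ω' Q ρ β lam E h1 h2 h3)
    (((dnS_cE h3).trans (dnS_law (Eventually.of_forall h1))).sm_ch s)
    (Eventually.of_forall fun n => ?_)
  have a1 := ch_tri' (P := cE (Q n) (E n)) (fun v => fl1 (lam n) (u n (ρ n v)))
    (fun v => (fl1 (β n) (u n (ρ n v)), Θ' n (ρ n v)))
    fun v => (fl1 (β n) (u n (ρ n v)), Θ n (ρ n v))
  have a2 : ch (cE (Q n) (E n)) (fun v => (fl1 (β n) (u n (ρ n v)), Θ n (ρ n v)))
      (fun v => (fl1 (β n) (u n (ρ n v)), Θ' n (ρ n v))) ≤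
      ch (cE (Q n) (E n)) (fun v => Θ n (ρ n v)) fun v => Θ' n (ρ n v) :=
    ch_le (((Fn.fst _ _).right _).pair (Fn.fst _ _)) (Fn.snd _ _)
  simp only [id]
  linarith

end AStarA

open AStarA in
theorem rowStar : OfStar := by
  intro kd hLn hT Ω T U Λ P γ θ S l M R ε₀ L h hL hg
  obtain ⟨L0, hL0, b⟩ := h.bd
  have hM := h.big
  have pg := hg.pos
  have sK := hL0.add hL hM
  have sL := (sK.pow 3).const_mul hM one_le_two
  have k1 : ∀ n, L0 n + L n ≤ 2 * (L0 n + L n) ^ 3 := fun n => by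
    have h1 : (L0 n + L n) ^ 1 ≤ (L0 n + L n) ^ 3 := pow_le_pow_right₀ (sK.1 n) (by norm_num)
    have h2 := sK.pos n
    rw [pow_one] at h1
    linarith
  have k0 : ∀ n, L0 n ≤ 2 * (L0 n + L n) ^ 3 := fun n => by linarith [k1 n, hL.pos n]
  have dn : ∀ i : Fin 3, DnS (fun n => cE (G3 (P n) (S n)) (gd (M n) (γ n) (L n)))
      (fun _ => sl i) P := fun i =>
    (dnS_cE pg).trans (dnS_law (Eventually.of_forall fun n => law_sl (P n) (S n) i))
  have th : ∀ᶠ n in UF, ∀ v ∈ (G3 (P n) (S n)).S, ∀ i, θ n (sl i v) = θ n v.1.1 :=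
    b.mono fun n k v hv i => k.2.1 _ (mem_sl hv i).1 _ (mem_sl hv 0).1 (mem_sl hv i).2
  have mat : ∀ᶠ n in UF, ∀ v ∈ (cE (G3 (P n) (S n)) (gd (M n) (γ n) (L n))).S,
      (fm (M n) (γ n) v).det ≠ 0 ∧ ∀ j m, |fm (M n) (γ n) v j m| ≤ 2 * (L0 n + L n) ^ 3 ∧
        |(fm (M n) (γ n) v)⁻¹ j m| ≤ 2 * (L0 n + L n) ^ 3 := by
    filter_upwards [b, pg.sure] with n k s v hv
    have d : ∀ i j, |(γ n (sl i v)).dr (M n) j| ≤ L0 n + L n := fun i j =>
      (dr_bd (k.1 _ (mem_sl (s v hv).1 i).1) (hL0.pos n).le _ j).trans (by linarith [hL.1 n])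
    have e := kd.inv (L0 n + L n) _ _ _ (sK.1 n) (fun j => ⟨d 0 j, d 1 j, d 2 j⟩)
      (le_trans (s v hv).2 (mul_le_mul_of_nonneg_right (by linarith [hL0.pos n]) (abs_nonneg _)))
    exact ⟨e.1, fun j m => ⟨by rw [fm_col]; exact (d m j).trans (k1 n), e.2 j m⟩⟩
  have ln := fun i : Fin 3 => hLn (fun n => cE (G3 (P n) (S n)) (gd (M n) (γ n) (L n)))
    (fun n v => γ n (sl i v)) (fun n v => l n (sl i v))
    (fun n v => (ty (M n) (γ n) v, θ n v.1.1)) (fun n => fm (M n) (γ n))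
    (fun n v => (γ n v.1.1).pt) (fun n v => (γ n v.1.1).φ) i M R _ hM h.frac sL
    (by
      filter_upwards [b, th, mat] with n k t m
      refine ⟨fun a _ c _ e => fm_eq (Prod.mk.inj e).1, fun a ha c hc e => ?_, fun v hv => ?_⟩
      · simp only [Prod.mk.injEq] at e
        exact k.2.2.1 _ (mem_sl (cE_sub ha) i).1 _ (mem_sl (cE_sub hc) i).1 (Prod.ext e.1
          (((t a (cE_sub ha) i).trans e.2.2).trans (t c (cE_sub hc) i).symm))
      · have m0 := mem_sl (cE_sub hv) 0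
        have mi := mem_sl (cE_sub hv) i
        exact ⟨bd_mono (k.1 _ mi.1) (k0 n), fun j => ⟨fm_col v j i, by rw [fm_col]; rfl⟩,
          (m v hv).1, (m v hv).2, fun j => (k.2.2.2.1 j _ m0.1 _ mi.1 mi.2.symm).trans
            (div_le_div_of_nonneg_right (k0 n) (by positivity)),
          (k.2.2.2.2 _ m0.1 _ mi.1 mi.2.symm).trans
            (div_le_div_of_nonneg_right (k0 n) (by positivity))⟩)
    (by
      have f1 : Le M (fun n => Real.log (2 ^ M n)) fun n => ch (G3 (P n) (S n))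
          (fun v => fl1 (M n) (γ n (sl i v)).t)
          fun v => (l n (sl i v), ty (M n) (γ n) v, θ n v.1.1) := by
        refine Le.of2 h.hgt ((hT P θ S (fun n ω => fl (M n) (γ n ω).e) M
          (b.mono fun n k => k.2.1) h.typ).2.1 i) ?_
        filter_upwards [b, th] with n k t
        have a0 := (law_sl (P n) (S n) i).ch_id (fun ω => fl1 (M n) (γ n ω).t)
          fun ω => (l n ω, θ n ω)
        have a1 := ch_symm (P := G3 (P n) (S n)) (fun v => fl1 (M n) (γ n (sl i v)).t)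
          (ty (M n) (γ n)) fun v => (l n (sl i v), θ n (sl i v))
        have a2 : ch (G3 (P n) (S n)) (ty (M n) (γ n)) (fun v => (l n (sl i v), θ n (sl i v))) ≤
            ch (G3 (P n) (S n)) (ty (M n) (γ n))
              fun v => (fl (M n) (γ n (sl i v)).e, θ n v.1.1) := ch_anti fun a ha c hc e =>
          Prod.ext (congrArg (fun z => fl (M n) z.2.1)
            (k.2.2.1 _ (mem_sl ha i).1 _ (mem_sl hc i).1 e))
            (((t a ha i).symm.trans (Prod.mk.inj e).2).trans (t c hc i))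
        have a3 : ch (G3 (P n) (S n)) (ty (M n) (γ n))
            (fun v => (sl i v, fl (M n) (γ n (sl i v)).e, θ n v.1.1)) ≤
            ch (G3 (P n) (S n)) (ty (M n) (γ n))
              fun v => (fl1 (M n) (γ n (sl i v)).t, l n (sl i v), θ n (sl i v)) :=
          ch_anti fun a _ c _ e => by simp only [(Prod.mk.inj e).1]
        have a4 : ch (G3 (P n) (S n)) (fun v => fl1 (M n) (γ n (sl i v)).t)
            (fun v => (ty (M n) (γ n) v, l n (sl i v), θ n (sl i v))) ≤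
            ch (G3 (P n) (S n)) (fun v => fl1 (M n) (γ n (sl i v)).t)
              fun v => (l n (sl i v), ty (M n) (γ n) v, θ n v.1.1) := ch_anti fun a ha c hc e => by
          simp only [Prod.mk.injEq] at e ⊢
          exact ⟨e.2.1, e.1, ((t a ha i).symm.trans e.2.2).trans (t c hc i)⟩
        rw [log_two_pow]
        change _ ≤ _ + (ch _ (ty (M n) (γ n)) _ - ch _ (ty (M n) (γ n)) _ - 0)
        linarith
      exact ((dnS_cE pg).full hM (b.mono fun n k => det_t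
        (fun v hv => (k.1 _ (mem_sl hv i).1).2.2) _ _) f1).of_sub
        (Eventually.of_forall fun n => by rw [log_two_pow]; rfl))
    (((dn i).sm_ch h.sv).mono (th.mono fun n t => ch_anti fun a ha c hc e => by
      simp only [Prod.mk.injEq] at e ⊢
      exact ⟨e.1, congrFun e.2.1 i,
        ((t a (cE_sub ha) i).trans e.2.2).trans (t c (cE_sub hc) i).symm⟩))
  choose u α h1 h2 using ln
  refine ⟨u, α, ⟨hM, h.frac, h.pos, h.le, h1 0, h1 1, h1 2, ng_near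
    ((h.ng.pull fun n => law_sl (P n) (S n) 0).cE pg) (Le.frac ?_ h.frac)⟩, h2⟩
  refine (Sm.near (x := fun n v => (γ n v.1.1).pt) (j := M) (G := fun n v =>
    (xc (M n) (γ n) 0 v, xc (M n) (γ n) 1 v, xc (M n) (γ n) 2 v, ty (M n) (γ n) v, θ n v.1.1))
    hM (sL.const_mul hM (by norm_num : (1 : ℝ) ≤ 6)) (mat.mono fun n m a ha c _ e => ?_)).mono
    (Eventually.of_forall fun n => ch_mono fun a _ c _ e => by
      simp only [Prod.mk.injEq] at e ⊢
      exact ⟨e.1, e.2.2.2.2.2⟩)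
  simp only [Prod.mk.injEq] at e
  have e0 := fm_eq e.2.2.2.1
  have e1 : ∀ i, xc (M n) (γ n) i a = xc (M n) (γ n) i c := fun i => by
    fin_cases i
    exacts [e.1, e.2.1, e.2.2.1]
  have e2 : ‖(fm (M n) (γ n) a)⁻¹ *ᵥ ((γ n a.1.1).pt - (γ n c.1.1).pt)‖ ≤ 2 / 2 ^ M n :=
    (pi_norm_le_iff_of_nonneg (by positivity)).2 fun i => by
      have r1 := abs_rd (M n) (((fm (M n) (γ n) a)⁻¹ *ᵥ (γ n a.1.1).pt) i)
      have r2 := abs_rd (M n) (((fm (M n) (γ n) a)⁻¹ *ᵥ (γ n c.1.1).pt) i)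
      have r3 := e1 i
      rw [xc, xc, ← e0] at r3
      have r4 : (2 : ℝ) / 2 ^ M n = 1 / 2 ^ M n + 1 / 2 ^ M n := by ring
      rw [mulVec_sub, Pi.sub_apply, Real.norm_eq_abs, r4]
      rw [abs_le] at *
      constructor <;> linarith [r1.1, r1.2, r2.1, r2.2]
  have e3 := norm_mulVec_le (sL.pos n).le (fun j i => ((m a ha).2 j i).1)
    ((fm (M n) (γ n) a)⁻¹ *ᵥ ((γ n a.1.1).pt - (γ n c.1.1).pt))
  rw [mulVec_mulVec, mul_nonsing_inv _ (Ne.isUnit (m a ha).1), one_mulVec] at e3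
  refine e3.trans ((mul_le_mul_of_nonneg_left e2 (mul_nonneg (Nat.cast_nonneg _)
    (sL.pos n).le)).trans (le_of_eq ?_))
  rw [Fintype.card_fin]
  push_cast
  ring

end Pool.Agent.MP_5168f5_an.R4.Web
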