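import Pool.Agent.MP_5168f5_an.R4.SpecEn

/-! The facts on lines, cells and fans for a member of a tangent class. -/

namespace Pool.Agent.MP_5168f5_an.R4.Eng

open H19 H17S H17F Filter Tan B1

namespace GEngelA

variable {Ω : ℕ → Type} {K : Mb Ω → Prop} {g : Gs 3 Ω} {M mm : ℕ → ℕ} {D : ∀ n, Td (Ω n)}
  {η γ : ℝ} {T : Finset (Fin 3)} {X : Mb Ω}

/-- The height is full given the line. -/
theorem fu (h : Tn K g M mm D η γ T) (hX : K X) {r : ℕ → ℕ} (hr : OM M r) {c : ℝ}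
    (e : ∀ᶠ n in UF, (M n : ℝ) ≤ c * r n) :
    Fu X.P (fun n => (X.G g n).ln) (fun n => (X.G g n).z) r := by
  obtain ⟨C, C0, c1, -, c3⟩ := om_big hr
  have b := (h.cls C C0).bs X hX
  have f : Fu X.P (fun n => (X.G g n).ln) (fun n => (X.G g n).z) fun n => C * M n :=
    ⟨b.big, b.bx.elim fun _ u => u.2.mono fun _ v ω w => (v.bd ω w).2,
      b.hgt.of2 b.inf (Eventually.of_forall fun n => by
        have h1 := ch_le_mi (P := (X n).Q) (F := fun v => fl1 (C * M n) ((X.G g n).z v))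
          (G := (X.G g n).ln) (K := (X.G g n).θ) (K' := (X.G g n).ln) (Fn.fst _ _)
        have h2 := mi_mono' (P := (X n).Q) (F := fun v => fl1 (C * M n) ((X.G g n).z v))
          (F' := (X.G g n).z) (G := (X.G g n).ln) (K := (X.G g n).θ) ((Fn.comp _ _).left _)
        linarith)⟩
  refine ⟨big_unit e h.big, f.box, le_unit e ((le_unit c3
    (f.coarse (j := fun n => min (r n) (C * M n)) fun n => min_le_right _ _)).congr ?_ ?_)⟩ <;>
  filter_upwards [c1] with n u <;> rw [min_eq_left u]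

theorem ln1 {W : Type} (P : FP W) (g : Geo 3 W) (D : Td W) (r σ : ℕ) (h k g₀ : W → ℝ) :
    Fn P (mk g D r σ h k g₀).ln g.ln := fun x _ y _ e => by
  simp only [Geo.ln, Prod.mk.injEq] at e
  simp only [mk, Ev.ln, e.1, e.2.1, e.2.2]

theorem one {W : Type} {g : Geo 3 W} {D : Td W} {r σ m κ : ℕ} {h k g₀ : W → ℝ} {L L' B : ℝ} {ω : W}
    (v : Gv g D r σ m L ω) (a1 : |h ω| ≤ L') (a2 : 1 ≤ L' * 2 ^ κ * |h ω|)
    (a3 : |g.e ω 2 - k ω - h ω * g.a ω 1| ≤ L' / 2 ^ (σ + m))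
    (a4 : |(D.H σ ω).2.2 1 - g₀ ω - g.z ω * h ω| ≤ L' / 2 ^ m) (l : 1 ≤ L')
    (hB : 3 * (L * L') ≤ B) : (mk g D r σ h k g₀).One σ m κ B ω := by
  have l0 := v.one
  have b1 : L ≤ L * L' := le_mul_of_one_le_right (by linarith) l
  have b2 : L' ≤ L * L' := le_mul_of_one_le_left (by linarith) l0
  have c1 : L ≤ B := by linarith
  have c2 : L' ≤ B := by linarith
  have d : ∀ j : ℕ, L' / 2 ^ j ≤ L' := fun j => div_le_self (by linarith) (one_le_pow₀ one_le_two)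
  have hG := (v.h0.2.1 1).1
  have z0 := v.box.2.1
  have z1 := v.box.2.2
  have p1 : |h ω * g.a ω 1| ≤ L * L' := by
    rw [abs_mul, mul_comm]
    exact mul_le_mul (v.box.1 1).1 a1 (abs_nonneg _) (by linarith)
  have p2 : |g.z ω * h ω| ≤ L' := by
    rw [abs_mul, abs_of_nonneg z0]
    nlinarith [abs_nonneg (h ω)]
  refine ⟨v.box.2, ⟨(v.box.1 0).1.trans c1, (v.box.1 0).2.trans c1, (v.box.1 1).1.trans c1,
    (v.box.1 1).2.trans c1, (v.box.1 2).1.trans c1, (v.box.1 2).2.trans c1⟩,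
    ⟨(v.u1.2.1 0).1.trans c1, hG.trans c1, a1.trans c2, ?_, ?_⟩,
    a2.trans (mul_le_mul_of_nonneg_right (mul_le_mul_of_nonneg_right c2 (by positivity))
      (abs_nonneg _)), a3.trans (div_le_div_of_nonneg_right c2 (by positivity)),
    a4.trans (div_le_div_of_nonneg_right c2 (by positivity))⟩
  · have := abs_le.1 (a3.trans (d _))
    have := abs_le.1 p1
    have := abs_le.1 (v.box.1 2).2
    exact abs_le.2 ⟨by change _ ≤ k ω; linarith, by change k ω ≤ _; linarith⟩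
  · have := abs_le.1 (a4.trans (d _))
    have := abs_le.1 p2
    have := abs_le.1 hG
    exact abs_le.2 ⟨by change _ ≤ g₀ ω; linarith, by change g₀ ω ≤ _; linarith⟩

theorem par_mono {W : Type} {D : Ev W} {σ m : ℕ} {L L' : ℝ} {x y : W} (h : D.Par σ m L x y)
    (e : L ≤ L') : D.Par σ m L' x y :=
  have k : ∀ {t : ℝ} {j : ℕ}, t ≤ L / 2 ^ j → t ≤ L' / 2 ^ j := fun u =>
    u.trans (div_le_div_of_nonneg_right e (by positivity))
  ⟨⟨k h.near.1, k h.near.2.1, k h.near.2.2.1, k h.near.2.2.2.1, k h.near.2.2.2.2⟩, k h.sl, k h.pos⟩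

theorem fan_mono {W : Type} {D : Ev W} {σ m : ℕ} {L L' : ℝ} {x y : W} (h : D.Fan σ m L x y)
    (e : L ≤ L') : D.Fan σ m L' x y :=
  have k : ∀ {t : ℝ} {j : ℕ}, t ≤ L / 2 ^ j → t ≤ L' / 2 ^ j := fun u =>
    u.trans (div_le_div_of_nonneg_right e (by positivity))
  ⟨k h.sl, k h.pos, k h.z⟩

theorem en (hD : EnD) (hS : FanS) (hO : OffA) {d : ℝ} (tn : Tn K g M mm D η 2 T) (h0 : 0 ∈ T)
    (nil : NilK K g M 1 2) (hX : K X) {r σ m κ : ℕ → ℕ} {h k g₀ : ∀ n, (X n).W → ℝ}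
    (I : In X.P (X.G g) M (mD X D) d r σ m κ h k g₀) {c : ℝ} (c0 : 0 < c)
    (hc : ∀ᶠ n in UF, c * M n ≤ m n) {L1 L2 : ℕ → ℝ} (s1 : Sub M L1) (s2 : Sub M L2)
    (su : ∀ᶠ n in UF, ∀ ω ∈ (X n).Q.S, Gv (X.G g n) (mD X D n) (r n) (σ n) (m n) (L1 n) ω ∧
      |h n ω| ≤ L2 n ∧ 1 ≤ L2 n * 2 ^ κ n * |h n ω| ∧
      |(X.G g n).e ω 2 - k n ω - h n ω * (X.G g n).a ω 1| ≤ L2 n / 2 ^ (σ n + m n) ∧
      |((mD X D n).H (σ n) ω).2.2 1 - g₀ n ω - (X.G g n).z ω * h n ω| ≤ L2 n / 2 ^ m n) :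
    ∃ L, En X.P (fun n => mk (X.G g n) (mD X D n) (r n) (σ n) (h n) (k n) (g₀ n)) r σ m κ L := by
  have hM := tn.big
  have mr : ∀ n, m n ≤ r n := fun n => by have := I.lev n; omega
  have sr : ∀ n, σ n ≤ r n := fun n => by have := I.lev n; omega
  have oσ : OM M σ := I.om.mono (Eventually.of_forall sr)
  obtain ⟨C, hC⟩ := om_cast I.om
  have up : ∀ᶠ n in UF, (M n : ℝ) ≤ c⁻¹ * r n :=
    inv_unit c0 (hc.mono fun n u => u.trans (by exact_mod_cast mr n))
  have co := tn.com _ hX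
  obtain ⟨A, j, A1, hA⟩ := hD
  obtain ⟨L3, s3, w3⟩ := sep K g mm 0 η _ _ tn.low hX (co.lab r I.om).l
  obtain ⟨L4, s4, w4⟩ := hS K g M mm D η 2 _ _ r σ tn h0 hX I.om oσ
  have s5 := ((((s1.mul s2).const_mul hM (by norm_num : (1 : ℝ) ≤ 3)).add
    ((s1.pow j).const_mul hM A1) hM).add (sub_up tn.sm s3) hM).add s4 hM
  have q : ∀ n, 0 < 3 * (L1 n * L2 n) ∧ 0 < A * L1 n ^ j ∧ 0 < L3 n ∧ 0 < L4 n := fun n =>
    ⟨by have := s1.pos n; have := s2.pos n; positivity,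
      by have := s1.pos n; positivity, s3.pos n, s4.pos n⟩
  refine ⟨_, big_unit up hM, ⟨mr, c / (|C| + 1), by positivity, ?_⟩,
      fun n => ⟨(I.lev n).1, (I.lev n).2.1, (I.lev n).2.2.1⟩, sub_unit up s5, ?_,
      (fu tn hX I.om up).anti (Eventually.of_forall fun n => ln1 _ _ _ _ _ _ _ _), ?_,
      le_unit up (hO K g M mm D η 2 _ _ r σ tn h0 hX I.om sr), ?_, fun q hq => ?_,
      le_unit up I.side, w3.mono ?_, w4.mono ?_⟩
  · filter_upwards [hc, hC] with n u v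
    have a := mul_le_mul_of_nonneg_right ((le_abs_self C).trans
      (le_add_of_nonneg_right zero_le_one)) (Nat.cast_nonneg (α := ℝ) (M n))
    rw [div_mul_eq_mul_div, div_le_iff₀ (by positivity)]
    nlinarith [abs_nonneg C]
  · filter_upwards [co.nest, su] with n u s
    obtain ⟨q1, q2, q3, q4⟩ := q n
    refine ⟨fun x hx y hy e => ?_, (nest_le (fun j => (u.2 j).1) (sr n)).pair
      fun x hx y hy e => ?_, fun ω hω => ?_, fun x hx y hy => ⟨fun e => ?_, fun e => ?_⟩⟩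
    · have := (u.2 (σ n)).2 x hx y hy e
      simp only [Prod.mk.injEq] at this
      exact Prod.ext this.1 (congrArg (·.2.2 1) this.2.2.2.2)
    · have := (u.2 (r n)).2 x hx y hy e
      simp only [Prod.mk.injEq] at this
      exact congrArg (·.2.2 0) this.2.2.2.1
    · obtain ⟨a, b⟩ := s ω hω
      exact one a b.1 b.2.1 b.2.2.1 b.2.2.2 (s2.1 n) (by linarith)
    · obtain ⟨e1, e2⟩ := Prod.mk.inj e
      obtain ⟨e2, e3⟩ := Prod.mk.inj e2
      have := (u.2 (σ n)).2 x hx y hy e1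
      simp only [Prod.mk.injEq] at this
      exact par_mono ((hA _ _ _ _ _ _ _ _ _ x y (I.lev n).1 (I.lev n).2.1 (s x hx).1
        (s y hy).1).1 this.2.2.1 this.2.2.2.1 this.2.2.2.2 e2 e3) (by linarith)
    · have := (u.2 (r n)).2 x hx y hy e
      simp only [Prod.mk.injEq] at this
      exact fan_mono ((hA _ _ _ _ _ _ _ _ _ x y (I.lev n).1 (I.lev n).2.1 (s x hx).1
        (s y hy).1).2 this.2.2.1 this.2.2.2.1 this.2.1) (by linarith)
  · refine le_unit up (Sm.mono (le_up tn.sm (kb.inf _ _ mm σ _ (tn.low.bs _ hX) (co.lab σ oσ).h))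
      (co.nest.mono fun n u => (mi_mono' ((Fn.comp _ _).left _)).trans
        (mi_right (fun x hx y hy e => ?_) ((Fn.snd _ _).left _)
          (((ln1 _ _ _ _ _ _ _ _).left _).left _))))
    have := (u.2 (σ n)).2 x hx y hy e
    simp only [Prod.mk.injEq] at this ⊢
    exact ⟨this.2.1, this.1⟩
  · refine le_unit up ((co.typ r I.om).mono (Eventually.of_forall fun n =>
      mi_mono' (Fn.left (fun x _ y _ e => ?_) _)))
    have := congrFun e 0
    simp only [Tan.ty, if_pos h0] at this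
    exact this
  · refine le_unit up (ND.anti (nil _ hX q q (I.om.mono (Eventually.of_forall hq))
      (Eventually.of_forall fun n => ⟨le_rfl, by linarith⟩))
      (Eventually.of_forall fun n x _ y _ e => ?_))
    simp only [Ev.tb, mk, Prod.mk.injEq] at e
    simp only [bl, e.1, e.2.1, e.2.2]
  · refine Eventually.of_forall fun n v _ u => u.trans
      (mul_le_mul_of_nonneg_right ?_ (abs_nonneg _))
    obtain ⟨q1, q2, q3, q4⟩ := q n
    linarith
  · refine Eventually.of_forall fun n v _ u => u.trans (mul_le_mul_of_nonneg_right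
      (mul_le_mul_of_nonneg_right ?_ (by positivity)) (abs_nonneg _))
    obtain ⟨q1, q2, q3, q4⟩ := q n
    linarith

end GEngelA

open GEngelA in
theorem rowEngel : OfEngel := by
  intro hD hS hO hG hF Ω K g M mm D η d ε₀ X r σ m κ h k g₀ t d2 nil hX I
  obtain ⟨L1, s1, w1⟩ := hG K g M mm D η d ε₀ X r σ m t d2 hX I.om
    fun n => ⟨by have := I.lev n; omega, (I.lev n).2.2.2⟩
  obtain ⟨L2, s2, w2⟩ := I.rel
  obtain ⟨c, c0, hc⟩ := I.frac
  obtain ⟨C, hC⟩ := om_cast I.om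
  have pos := (w1.and w2).pos
  have hY := t.cl.cond X _ hX pos
  have sd := (K31.dnS_cE pos).sm_ch I.side
  have w3 := w2.cE pos
  have su := pos.sure.mono fun n u ω hω => (u ω hω).2
  obtain ⟨L, e⟩ := en (d := d) hD hS hO t.toTn (by simp [wT]) nil hY (h := h) (k := k) (g₀ := g₀)
    ⟨I.om, I.frac, I.lev, sd, L2, s2, w3⟩ c0 hc s1 s2 su
  have f := le_unit hC (hF _ _ r σ m κ L e)
  exact ⟨_, hY, f⟩

end Pool.Agent.MP_5168f5_an.R4.Eng
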