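import Pool.Agent.MP_5168f5_an.R4.NCx4

/-! Kakeya sets in four dimensions: the rectangle step for a web of two families of segments. -/

namespace Pool.Agent.MP_5168f5_an.R4

open H19 H17S H17F Filter NCx

/-- Rows `v = n + b α` (label `ρ`, index `a`) and columns `v = m + a β` (label `σ`, index `b`). -/
structure Web {N : ℕ} {Ω T A B : ℕ → Type} (P : ∀ n, FP (Ω n)) (Θ : ∀ n, Ω n → T n)
    (ρ : ∀ n, Ω n → A n) (σ : ∀ n, Ω n → B n) (a b : ∀ n, Ω n → ℝ)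
    (v n₀ α m β : ∀ n, Ω n → V N) (R J : ℕ → ℕ) (L : ℕ → ℝ) : Prop where
  big : Big R
  sub : Sub R L
  frac : Frac R J
  alg : ∀ᶠ n in UF, Fn (P n) (fun ω => (n₀ n ω, α n ω)) (fun ω => (ρ n ω, Θ n ω)) ∧
    Fn (P n) (fun ω => (m n ω, β n ω)) (fun ω => (σ n ω, Θ n ω)) ∧
    Near (P n) (fun ω => (ρ n ω, Θ n ω)) (a n) (L n / 2 ^ J n) ∧
    Near (P n) (fun ω => (σ n ω, Θ n ω)) (b n) (L n / 2 ^ J n) ∧
    ∀ ω ∈ (P n).S, |a n ω| ≤ L n ∧ |b n ω| ≤ L n ∧ ‖v n ω‖ ≤ L n ∧ ‖α n ω‖ ≤ L n ∧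
      ‖β n ω‖ ≤ L n ∧ ‖v n ω - n₀ n ω - b n ω • α n ω‖ ≤ L n / 2 ^ R n ∧
      ‖v n ω - m n ω - a n ω • β n ω‖ ≤ L n / 2 ^ R n
  fb : Le R (fun n => J n * lg) fun n =>
    ch (P n) (fun ω => fl1 (J n) (b n ω)) fun ω => (ρ n ω, Θ n ω)
  fa : Le R (fun n => J n * lg) fun n =>
    ch (P n) (fun ω => fl1 (J n) (a n ω)) fun ω => (σ n ω, Θ n ω)
  sa : Sm R fun n => ch (P n) (fun ω => fl (R n) (α n ω)) fun ω => (fl1 (J n) (a n ω), Θ n ω)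
  sb : Sm R fun n => ch (P n) (fun ω => fl (R n) (β n ω)) fun ω => (fl1 (J n) (b n ω), Θ n ω)

/-- The slopes are affine in the indices, with coefficients of small entropy. -/
def Aff {N : ℕ} {Ω T : ℕ → Type} (P : ∀ n, FP (Ω n)) (Θ : ∀ n, Ω n → T n)
    (a b : ∀ n, Ω n → ℝ) (α β : ∀ n, Ω n → V N) (R r : ℕ → ℕ) : Prop :=
  ∃ (W : ℕ → Type) (Q : ∀ n, FP (W n)) (π : ∀ n, W n → Ω n) (H s₁ s₂ : ∀ n, W n → V N)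
    (L : ℕ → ℝ), (∀ n, Law (Q n) (π n) (P n) id) ∧ Sub R L ∧
    (Sm R fun n => ch (Q n) (fun w => (H n w, s₁ n w, s₂ n w)) fun w => Θ n (π n w)) ∧
    Whp Q fun n w => ‖H n w‖ ≤ L n ∧ ‖s₁ n w‖ ≤ L n ∧ ‖s₂ n w‖ ≤ L n ∧
      ‖α n (π n w) - s₁ n w - a n (π n w) • H n w‖ ≤ L n / 2 ^ r n ∧
      ‖β n (π n w) - s₂ n w - b n (π n w) • H n w‖ ≤ L n / 2 ^ r n

/-- The rectangle step; the hypothesis is that the intercept of the rows has no grain. -/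
def Rect : Prop := ∀ (N : ℕ) (ε₀ : ℝ), 0 < ε₀ → ε₀ ≤ 1 → ∃ c : ℝ, 0 < c ∧ c ≤ 1 ∧
  ∀ {Ω T A B : ℕ → Type} (P : ∀ n, FP (Ω n)) (Θ : ∀ n, Ω n → T n) (ρ : ∀ n, Ω n → A n)
    (σ : ∀ n, Ω n → B n) (a b : ∀ n, Ω n → ℝ) (v n₀ α m β : ∀ n, Ω n → V N) (R J : ℕ → ℕ)
    (L : ℕ → ℝ), Web P Θ ρ σ a b v n₀ α m β R J L →
    NGR P (fun n ω => (Θ n ω, fl1 (J n) (a n ω), fl (R n) (α n ω))) n₀ R ε₀ →
    Aff P Θ a b α β R (lev R c)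

/-- The scalar case; the hypothesis is a bound for the rate of `v` over the base point. -/
def Rect1 : Prop := ∀ ε₀ : ℝ, 0 < ε₀ → ε₀ ≤ 1 → ∃ c : ℝ, 0 < c ∧ c ≤ 1 ∧
  ∀ {Ω T A B : ℕ → Type} (P : ∀ n, FP (Ω n)) (Θ : ∀ n, Ω n → T n) (ρ : ∀ n, Ω n → A n)
    (σ : ∀ n, Ω n → B n) (a b v n₀ α m β : ∀ n, Ω n → ℝ) (R J : ℕ → ℕ) (L : ℕ → ℝ),
    Web (N := 1) P Θ ρ σ a b (fun n ω _ => v n ω) (fun n ω _ => n₀ n ω) (fun n ω _ => α n ω)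
      (fun n ω _ => m n ω) (fun n ω _ => β n ω) R J L →
    NG1 P (fun n ω => (Θ n ω, fl1 (J n) (a n ω), fl1 (J n) (b n ω))) v R ε₀ →
    Aff (N := 1) P Θ a b (fun n ω _ => α n ω) (fun n ω _ => β n ω) R (lev R c)

end Pool.Agent.MP_5168f5_an.R4
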