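import Pool.Agent.MP_5168f5_an.R4.K80Fr

/-! Tangent systems: passage to the cells of level `a`, and the final list of cases. -/

namespace Pool.Agent.MP_5168f5_an.R4.Tan

open H19 H17S H17F Filter

/-- The system `g'` is the cell of level `a` of `g`, rescaled. -/
def Shf {Ω : ℕ → Type} (P : ∀ n, FP (Ω n)) (g g' : Gs 3 Ω) (D D' : ∀ n, Td (Ω n)) (M a : ℕ → ℕ)
    (γ d : ℝ) : Prop := ∃ nu nf : ℕ → ℤ,
  Eqv M (fun n => nu n) (fun n => γ * a n) ∧ Eqv M (fun n => nf n) (fun n => d * a n) ∧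
  ∀ᶠ n in UF, (Fn (P n) (g' n).θ ((D n).S (a n)) ∧ Fn (P n) ((D n).S (a n)) (g' n).θ ∧
    Fn (P n) (g' n).y (fun ω => ((g n).y ω, (D n).S (a n) ω)) ∧ Fn (P n) (g n).y (g' n).y ∧
    ∀ b, Fn (P n) ((D' n).S b) ((D n).S (a n + b)) ∧ Fn (P n) ((D n).S (a n + b)) ((D' n).S b)) ∧
    ∀ ω ∈ (P n).S, (g' n).z ω = Int.fract (2 ^ a n * (g n).z ω) ∧ ∀ s : ℝ,
      (g' n).lt s ω = ![2 ^ a n * ((g n).lt (ot (g n) (a n) ω s) ω 0 - rd (a n) ((g n).pt ω 0)),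
        2 ^ nu n * ((g n).lt (ot (g n) (a n) ω s) ω 1 -
          pv ((D n).U (a n) ω) (ot (g n) (a n) ω s) ((g n).lt (ot (g n) (a n) ω s) ω)),
        2 ^ nf n * ((g n).lt (ot (g n) (a n) ω s) ω 2 -
          pv ((D n).H (a n) ω) (ot (g n) (a n) ω s) ((g n).lt (ot (g n) (a n) ω s) ω))]

/-- The cells of every level form a class of the same kind. -/
def Sh2 {Ω : ℕ → Type} (K : Mb Ω → Prop) (g : Gs 3 Ω) (M mm : ℕ → ℕ) (D : ∀ n, Td (Ω n))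
    (η γ d ε₀ : ℝ) (p : (Mb Ω → Prop) → Gs 3 Ω → Prop) : Prop :=
  ∀ (X : Mb Ω) (a : ℕ → ℕ), K X → OM M a →
    ∃ (K' : Mb Ω → Prop) (g' : Gs 3 Ω) (D' : ∀ n, Td (Ω n)) (E : ∀ n, (X n).W → Prop),
      Whp X.P E ∧ K' (X.cond E) ∧ T2 K' g' M mm D' η γ d ε₀ ∧ p K' g' ∧
      ∀ Y, K' Y → K Y ∧ Shf Y.P (Y.G g) (Y.G g') (mD Y D) (mD Y D') M a γ d

/-- Case B2, `u` is the lighter axis. -/
def CB2' : Prop := ∀ {Ω : ℕ → Type} (K : Mb Ω → Prop) (g : Gs 3 Ω) (M mm : ℕ → ℕ)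
  (D : ∀ n, Td (Ω n)) (η γ d ε₀ : ℝ), T2 K g M mm D η γ d ε₀ → 1 < γ → γ < d → NilK K g M 1 γ →
  Sh2 K g M mm D η γ d ε₀ (fun K' g' => NilK K' g' M 1 γ) → False

/-- Case B2 for products, `f` is the lighter axis. -/
def CP2' : Prop := ∀ {Ω : ℕ → Type} (K : Mb Ω → Prop) (g : Gs 3 Ω) (M mm : ℕ → ℕ)
  (D : ∀ n, Td (Ω n)) (η γ d ε₀ : ℝ), T2 K g M mm D η γ d ε₀ → 1 < d → d < γ → NilK K g M 2 d →
  Sh2 K g M mm D η γ d ε₀ (fun K' g' => NilK K' g' M 2 d) → False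

/-- Products with `f` of weight one. -/
def CP0' : Prop := ∀ {Ω : ℕ → Type} (K : Mb Ω → Prop) (g : Gs 3 Ω) (M mm : ℕ → ℕ)
  (D : ∀ n, Td (Ω n)) (η γ ε₀ : ℝ), T2 K g M mm D η γ 1 ε₀ → 1 < γ →
  Sh2 K g M mm D η γ 1 ε₀ (fun _ _ => True) → False

/-- Equal weights: mode II is a special case of mode I. -/
def T21 : Prop := ∀ {Ω : ℕ → Type} (K : Mb Ω → Prop) (g : Gs 3 Ω) (M mm : ℕ → ℕ)
  (D : ∀ n, Td (Ω n)) (η d ε₀ : ℝ), T2 K g M mm D η d d ε₀ → T1 K g M mm D η d ε₀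

/-- All the cases. -/
structure Cases2 : Prop where
  af : CAF
  ac : CAC
  b1 : CB1
  b2 : CB2'
  p1 : CP1
  p2 : CP2'
  p0 : CP0'
  ib : CIB
  ic : CIC
  t21 : T21

theorem cb2' (h : CB2) : CB2' := fun K g M mm D η γ d e a b c k _ => h K g M mm D η γ d e a ⟨b, c⟩ k
theorem cp2' (h : CP2) : CP2' := fun K g M mm D η γ d e a b c k _ => h K g M mm D η γ d e a ⟨b, c⟩ k
theorem cp0' (h : CP0) : CP0' := fun K g M mm D η γ e a b _ =>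
  h K g M mm D η γ 1 e a ⟨rfl, b⟩ trivial

end Pool.Agent.MP_5168f5_an.R4.Tan
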