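import Pool.Agent.MP_5168f5_an.R4.SpecB
import Pool.Agent.MP_5168f5_an.R4.SpecRect
import Pool.Agent.MP_5168f5_an.R4.SpecTAN3

/-! Kakeya sets in four dimensions, weight two with a determined slope: statements of the rows. -/

namespace Pool.Agent.MP_5168f5_an.R4.B2

open H19 H17S H17F Filter K31 Tan B1

section Det

variable {Ω : Type} (g : Geo 3 Ω) (D : Td Ω)

/-- The base line and the slope of `u` at depth `r`, the offset of `u` at depth `p`. -/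
noncomputable def ul (p r : ℕ) (ω : Ω) : (ℤ × ℤ) × ℤ × ℤ :=
  (bl g r ω, fl1 r (g.e ω 1), fl1 p (g.a ω 1))

/-- The context of the vertical web. -/
noncomputable def th (p A r : ℕ) (ω : Ω) : ((ℤ × ℤ) × ℤ × ℤ) × (ℤ × ℤ) × g.T :=
  (ul g p r ω, (fl1 A (g.a ω 2), fl1 A (g.e ω 2)), g.θ ω)

/-- The index of the rows. -/
noncomputable def ia (p : ℕ) (ω : Ω) : ℝ := Int.fract (2 ^ p * g.a ω 1)

/-- The slope of the rows. -/
noncomputable def al (A : ℕ) (ω : Ω) : ℝ := Int.fract (2 ^ A * g.e ω 2)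

/-- The intercept of the rows. -/
noncomputable def ni (A : ℕ) (ω : Ω) : ℝ := Int.fract (2 ^ A * g.a ω 2)

/-- The value. -/
noncomputable def vv (A : ℕ) (ω : Ω) : ℝ := ni g A ω + g.z ω * al g A ω

/-- The slope of the columns. -/
noncomputable def be (a s : ℕ) (ω : Ω) : ℝ := (D.H a ω).2.2 1 / 2 ^ s

/-- The intercept of the columns. -/
noncomputable def mc (a A r : ℕ) (ω : Ω) : ℝ :=
  2 ^ A * ((D.H a ω).1 + (D.H a ω).2.1 * g.z ω + (D.H a ω).2.2 0 * U.rd r (g.pt ω 0) +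
    (D.H a ω).2.2 1 * (U.rd (2 * a) (g.a ω 1) + g.z ω * U.rd r (g.e ω 1)) -
    U.rd A (g.a ω 2) - g.z ω * U.rd A (g.e ω 2))

/-- The label of a segment at a copied height. -/
noncomputable def gc (a τ r : ℕ) (ω : Ω) : D.Λ × ℝ × (ℤ × ℤ) × ℤ × ℤ :=
  (D.S a ω, g.z ω, bl g r ω, fl1 r (g.e ω 1), fl1 τ (g.e ω 2))

end Det

section Class

variable {Ω : ℕ → Type} (K : Mb Ω → Prop) (g : Gs 3 Ω) (M mm : ℕ → ℕ) (D : ∀ n, Td (Ω n))

/-- Weight two, the slope of `u` is determined, and the slope of `f` is read from fewer digits. -/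
structure TB (η d ε₀ : ℝ) (C : ℕ) : Prop extends T2 K g M mm D η 2 d ε₀ where
  lt : 2 < d
  nil : NilK K g M 1 2
  xr : ∀ X, K X → ∀ q q' r : ℕ → ℕ, OM M r →
    (∀ᶠ n in UF, 2 * q n ≤ 2 * q' n + M n ∧ 2 * q n + C * M n ≤ r n) →
    ND X.P M (fun n v => fl1 (q n) ((X.G g n).e v 2)) fun n v =>
      (fl1 (q' n) ((X.G g n).pt v 2), ul (X.G g n) (r n) (r n) v, (X.G g n).zt v)

/-- The depths of the vertical web. -/
structure LV (d : ℝ) (C : ℕ) (a A s R J r : ℕ → ℕ) : Prop where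
  om : OM M r
  fs : ∃ κ : ℝ, 0 < κ ∧ ∀ᶠ n in UF, κ * M n ≤ s n ∧ κ * M n ≤ R n
  le : ∀ n, R n ≤ J n ∧ A n + s n = 2 * a n ∧ 2 * a n + J n = r n ∧ a n ≤ J n
  ev : ∀ᶠ n in UF, 2 * R n ≤ M n ∧ 2 * (A n + R n) + C * M n ≤ r n ∧ 4 * a n ≤ r n ∧
    ((A n + R n : ℕ) : ℝ) ≤ d * a n

/-- A member with sure bounds on which the slope of the cells is read from the point. -/
structure PV (X : Mb Ω) (a A R r : ℕ → ℕ) (L : ℕ → ℝ) : Prop where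
  mem : K X
  sub : Sub M L
  su : ∀ᶠ n in UF, (X.G g n).Bx (X n).Q (L n) ∧ ∀ v ∈ (X n).Q.S,
    |((mD X D n).H (a n) v).2.2 0| ≤ L n ∧ |((mD X D n).H (a n) v).2.2 1| ≤ L n ∧
    |(X.G g n).pt v 2 - ((mD X D n).H (a n) v).1 - ((mD X D n).H (a n) v).2.1 * (X.G g n).z v -
      ((mD X D n).H (a n) v).2.2 0 * (X.G g n).pt v 0 -
      ((mD X D n).H (a n) v).2.2 1 * (X.G g n).pt v 1| ≤ L n / 2 ^ (A n + R n)
  gl : ND X.P M (fun n v => fl1 (R n) (Gc (mD X D) a n v)) fun n v =>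
    (fl1 (A n) ((X.G g n).pt v 1), fl1 (A n) ((X.G g n).pt v 2), xz (X.G g n) (r n) v)

/-- The output of the rectangle step. -/
structure VO (X : Mb Ω) (a A s r ρ : ℕ → ℕ) (H s₁ s₂ : ∀ n, (X n).W → ℝ) (L : ℕ → ℝ) : Prop where
  mem : K X
  sub : Sub M L
  sm : ND X.P M (fun n v => (H n v, s₁ n v, s₂ n v)) fun n =>
    th (X.G g n) (2 * a n) (A n) (r n)
  fit : Whp X.P fun n v => |H n v| ≤ L n ∧ |s₁ n v| ≤ L n ∧ |s₂ n v| ≤ L n ∧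
    |al (X.G g n) (A n) v - s₁ n v - ia (X.G g n) (2 * a n) v * H n v| ≤ L n / 2 ^ ρ n ∧
    |be (mD X D n) (a n) (s n) v - s₂ n v - (X.G g n).z v * H n v| ≤ L n / 2 ^ ρ n

/-- The slope of `f` is determined by the cell and the base line beyond the depth of `u`. -/
def Lp (X : Mb Ω) (a τ r : ℕ → ℕ) : Prop :=
  ND X.P M (fun n v => fl1 (τ n) ((X.G g n).e v 2)) fun n v =>
    ((mD X D n).S (a n) v, bl (X.G g n) (r n) v, (X.G g n).z v)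

end Class

/-! ### General facts -/

/-- The direction is independent of the label and the height. -/
def Dir : Prop := ∀ {Ω : ℕ → Type} (K : Mb Ω → Prop) (g : Gs 3 Ω) (M mm : ℕ → ℕ)
  (D : ∀ n, Td (Ω n)) (η γ d : ℝ) (X : Mb Ω) (r : ℕ → ℕ), Tn K g M mm D η γ (wT γ d) → K X →
  OM M r → Sm M fun n => mi (X n).Q (fun v => fl1 (r n) ((X.G g n).e v 0))
    (fun v => ((mD X D n).S (r n) v, (X.G g n).z v)) (X.G g n).θ

/-- The coordinate `u` is full in the cell, also given the direction. -/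
def UFul : Prop := ∀ {Ω : ℕ → Type} (K : Mb Ω → Prop) (g : Gs 3 Ω) (M mm : ℕ → ℕ)
  (D : ∀ n, Td (Ω n)) (η γ d : ℝ) (X : Mb Ω) (a p τ r : ℕ → ℕ), Tn K g M mm D η γ (wT γ d) → K X →
  OM M r → (∀ᶠ n in UF, γ * a n ≤ p n ∧ p n ≤ τ n ∧ τ n ≤ r n) →
  Le M (fun n => (τ n - p n : ℝ) * lg) fun n => ch (X n).Q (fun v => fl1 (τ n) ((X.G g n).pt v 1))
    fun v => (fl1 (p n) ((X.G g n).pt v 1), (mD X D n).S (a n) v, xz (X.G g n) (r n) v,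
      fl1 (r n) ((X.G g n).e v 0))

/-- The rate of the pair `(u, f)` on all refinements of a member. -/
def Up2 : Prop := ∀ {Ω W : ℕ → Type} (K : Mb Ω → Prop) (g : Gs 3 Ω) (M mm : ℕ → ℕ)
  (D : ∀ n, Td (Ω n)) (η γ d ε₀ : ℝ) (X : Mb Ω) (Q : ∀ n, FP (W n)) (f : ∀ n, W n → (X n).W)
  (q q' r : ℕ → ℕ), T2 K g M mm D η γ d ε₀ → γ ≤ d → K X → DnS Q f X.P → OM M r →
  (∀ᶠ n in UF, q n ≤ q' n ∧ γ * q' n ≤ r n) →
  U.Upp Q (fun n v => (fl1 (q' n) ((X.G g n).pt (f n v) 1), fl1 (q' n) ((X.G g n).pt (f n v) 2)))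
    (fun n v => (fl1 (q n) ((X.G g n).pt (f n v) 1), fl1 (q n) ((X.G g n).pt (f n v) 2),
      xz (X.G g n) (r n) (f n v))) M fun n => (2 - ε₀) * (q' n - q n) * lg

/-- Over the line of `(x, u)` the point determines the slope of `f`. -/
def PLp : Prop := ∀ {Ω : ℕ → Type} (K : Mb Ω → Prop) (g : Gs 3 Ω) (M mm : ℕ → ℕ)
  (D : ∀ n, Td (Ω n)) (η γ d ε₀ κ : ℝ) (X : Mb Ω) (q s p r : ℕ → ℕ), T2 K g M mm D η γ d ε₀ →
  γ ≤ d → K X → OM M r → 0 < κ →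
  (∀ᶠ n in UF, κ * M n ≤ s n ∧ q n + s n ≤ p n ∧ p n ≤ r n ∧ γ * (q n + s n : ℕ) ≤ r n) →
  ND X.P M (fun n v => fl1 (q n) ((X.G g n).e v 2)) fun n v =>
    (fl1 (q n + s n) ((X.G g n).pt v 2), ul (X.G g n) (p n) (r n) v, (X.G g n).zt v)

/-- The slope of the cells is a function of the point on an event. -/
def GLip : Prop := ∀ {Ω : ℕ → Type} (K : Mb Ω → Prop) (g : Gs 3 Ω) (M mm : ℕ → ℕ)
  (D : ∀ n, Td (Ω n)) (η γ d ε₀ ε : ℝ) (X : Mb Ω) (b q q' k r : ℕ → ℕ), T2 K g M mm D η γ d ε₀ →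
  γ ≤ d → K X → OM M r → 0 < ε → (∀ᶠ n in UF, γ * b n ≤ q n ∧ q n ≤ q' n ∧ (q' n : ℝ) ≤ d * b n ∧
    γ * q' n ≤ r n ∧ k n + ε * M n ≤ ε₀ * (q' n - q n)) →
  ∃ E : ∀ n, (X n).W → Prop, Pos X.P E ∧ ∀ᶠ n in UF,
    Fn (cE (X n).Q (E n)) (fun v => fl1 (k n) (Gc (mD X D) b n v)) fun v =>
      (fl1 (q' n) ((X.G g n).pt v 1), fl1 (q' n) ((X.G g n).pt v 2), xz (X.G g n) (r n) v)

/-- Passage to the cells of level `M`. -/
def Chl : Prop := ∀ {Ω : ℕ → Type} (K : Mb Ω → Prop) (g : Gs 3 Ω) (M mm : ℕ → ℕ)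
  (D : ∀ n, Td (Ω n)) (η d ε₀ : ℝ), T2 K g M mm D η 2 d ε₀ → 2 < d →
  Sh2 K g M mm D η 2 d ε₀ (fun K' g' => NilK K' g' M 1 2) →
  ∃ (K' : Mb Ω → Prop) (g' : Gs 3 Ω) (D' : ∀ n, Td (Ω n)) (C : ℕ), TB K' g' M mm D' η d ε₀ C

/-! ### The vertical web -/

/-- A statement for all depths. -/
def ForL (F : ∀ {Ω : ℕ → Type}, (Mb Ω → Prop) → Gs 3 Ω → (M : ℕ → ℕ) → (∀ n, Td (Ω n)) →
    (d ε₀ : ℝ) → (a A s R J r : ℕ → ℕ) → Prop) : Prop :=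
  ∀ {Ω : ℕ → Type} (K : Mb Ω → Prop) (g : Gs 3 Ω) (M mm : ℕ → ℕ) (D : ∀ n, Td (Ω n))
    (η d ε₀ : ℝ) (C : ℕ) (a A s R J r : ℕ → ℕ), TB K g M mm D η d ε₀ C → LV M d C a A s R J r →
    F K g M D d ε₀ a A s R J r

/-- The context is determined by the cell, the base line and the height. -/
def Lip : Prop := ForL fun K g M D _ _ a A _ _ _ r => ∀ X, K X →
  ND X.P M (fun n => th (X.G g n) (2 * a n) (A n) (r n)) fun n v =>
    ((mD X D n).S (a n) v, bl (X.G g n) (r n) v, (X.G g n).z v)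

/-- A prepared member. -/
def PrV : Prop := ForL fun K g M D d ε₀ a A _ R _ r => ∀ (b q' : ℕ → ℕ) (ε : ℝ), 0 < ε →
  (∀ᶠ n in UF, b n ≤ a n ∧ 2 * b n ≤ q' n ∧ (q' n : ℝ) ≤ d * b n ∧ q' n ≤ A n ∧
    R n + ε * M n ≤ ε₀ * (q' n - (2 * b n : ℕ)) ∧ (R n : ℝ) ≤ (d - 2) * b n) →
  ∃ X L, PV K g M D X a A R r L

/-- The pointwise part of the web. -/
def WbA : Prop := ForL fun K g M D _ _ a A s R J r => ∀ X L, PV K g M D X a A R r L →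
  ∃ L', Sub M L' ∧ ∀ᶠ n in UF,
    Fn (X n).Q (fun v => ((fun _ : Fin 1 => ni (X.G g n) (A n) v),
        fun _ : Fin 1 => al (X.G g n) (A n) v))
      (fun v => ((X.G g n).ln v, th (X.G g n) (2 * a n) (A n) (r n) v)) ∧
    Fn (X n).Q (fun v => ((fun _ : Fin 1 => mc (X.G g n) (mD X D n) (a n) (A n) (r n) v),
        fun _ : Fin 1 => be (mD X D n) (a n) (s n) v))
      (fun v => (((mD X D n).S (a n) v, xz (X.G g n) (r n) v),
        th (X.G g n) (2 * a n) (A n) (r n) v)) ∧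
    Near (X n).Q (fun v => ((X.G g n).ln v, th (X.G g n) (2 * a n) (A n) (r n) v))
      (ia (X.G g n) (2 * a n)) (L' n / 2 ^ J n) ∧
    Near (X n).Q (fun v => (((mD X D n).S (a n) v, xz (X.G g n) (r n) v),
        th (X.G g n) (2 * a n) (A n) (r n) v)) (X.G g n).z (L' n / 2 ^ J n) ∧
    ∀ v ∈ (X n).Q.S, |ia (X.G g n) (2 * a n) v| ≤ L' n ∧ |(X.G g n).z v| ≤ L' n ∧
      ‖fun _ : Fin 1 => vv (X.G g n) (A n) v‖ ≤ L' n ∧
      ‖fun _ : Fin 1 => al (X.G g n) (A n) v‖ ≤ L' n ∧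
      ‖fun _ : Fin 1 => be (mD X D n) (a n) (s n) v‖ ≤ L' n ∧
      ‖(fun _ : Fin 1 => vv (X.G g n) (A n) v) - (fun _ => ni (X.G g n) (A n) v) -
        (X.G g n).z v • fun _ => al (X.G g n) (A n) v‖ ≤ L' n / 2 ^ R n ∧
      ‖(fun _ : Fin 1 => vv (X.G g n) (A n) v) -
        (fun _ => mc (X.G g n) (mD X D n) (a n) (A n) (r n) v) -
        ia (X.G g n) (2 * a n) v • fun _ => be (mD X D n) (a n) (s n) v‖ ≤ L' n / 2 ^ R n

/-- The indices are full. -/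
def WbF : Prop := ForL fun K g M D _ _ a A _ _ J r => ∀ X, K X →
  (Le M (fun n => J n * lg) fun n => ch (X n).Q (fun v => fl1 (J n) ((X.G g n).z v)) fun v =>
    ((X.G g n).ln v, th (X.G g n) (2 * a n) (A n) (r n) v)) ∧
  Le M (fun n => J n * lg) fun n => ch (X n).Q (fun v => fl1 (J n) (ia (X.G g n) (2 * a n) v))
    fun v => (((mD X D n).S (a n) v, xz (X.G g n) (r n) v), th (X.G g n) (2 * a n) (A n) (r n) v)

/-- The slopes are determined by the indices. -/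
def WbS : Prop := ForL fun K g M D _ _ a A s R J r => ∀ X L, PV K g M D X a A R r L →
  ND X.P M (fun n v => fl (R n) fun _ : Fin 1 => al (X.G g n) (A n) v) (fun n v =>
    (fl1 (J n) (ia (X.G g n) (2 * a n) v), th (X.G g n) (2 * a n) (A n) (r n) v)) ∧
  ND X.P M (fun n v => fl (R n) fun _ : Fin 1 => be (mD X D n) (a n) (s n) v) fun n v =>
    (fl1 (J n) ((X.G g n).z v), th (X.G g n) (2 * a n) (A n) (r n) v)

/-- The rate of the value. -/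
def WbN : Prop := ForL fun K g M _ _ ε₀ a A _ R J r => ∀ X, K X → ∀ α β : ℕ → ℕ,
  (∀ n, α n ≤ β n ∧ β n ≤ R n) →
  Le M (fun n => ch (X n).Q (fun v => fl1 (β n) (vv (X.G g n) (A n) v)) fun v =>
    (fl1 (α n) (vv (X.G g n) (A n) v), th (X.G g n) (2 * a n) (A n) (r n) v,
      fl1 (J n) (ia (X.G g n) (2 * a n) v), fl1 (J n) ((X.G g n).z v)))
    fun n => (1 - ε₀) * (β n - α n) * lg

/-- The rectangle step. -/
def VA : Prop := ∀ ε₀ : ℝ, 0 < ε₀ → ε₀ ≤ 1 → ∃ c : ℝ, 0 < c ∧ c ≤ 1 ∧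
  ForL fun K g M D _ ε a A s R _ r => ε = ε₀ → ∀ X L, PV K g M D X a A R r L →
    ∃ Y H s₁ s₂ L', VO K g M D Y a A s r (lev R c) H s₁ s₂ L'

/-! ### The two alternatives -/

/-- A small mixed coefficient gives more digits of the slope. -/
def Lp1 : Prop := ForL fun K g M D _ _ a A s _ _ r => ∀ X (ρ k τ : ℕ → ℕ) H s₁ s₂ L,
  VO K g M D X a A s r ρ H s₁ s₂ L → Pos X.P (fun n v => |H n v| ≤ 1 / 2 ^ k n) → OM M τ →
  (∀ᶠ n in UF, τ n ≤ A n + k n ∧ τ n ≤ A n + ρ n) → ∃ Y, K Y ∧ Lp g M D Y a τ r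

/-- The cell at a copied height gives a filled segment. -/
def SgC : Prop := ∀ {Ω : ℕ → Type} (K : Mb Ω → Prop) (g : Gs 3 Ω) (M mm : ℕ → ℕ)
  (D : ∀ n, Td (Ω n)) (η d ε₀ : ℝ) (X : Mb Ω) (a τ r : ℕ → ℕ), T2 K g M mm D η 2 d ε₀ → 2 < d →
  NilK K g M 1 2 → K X → OM M r → Lp g M D X a τ r →
  (∀ᶠ n in UF, 2 * a n ≤ τ n ∧ (τ n : ℝ) ≤ d * a n ∧ τ n ≤ r n) →
  Seg (fun n => glue (X n).Q (X n).Q (X.G g n).ln (X.G g n).ln)
    (fun n v => (X.G g n).pt v.1 1) (fun n v => (X.G g n).pt v.1 2)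
    (fun n v => xz (X.G g n) (r n) v.1)
    (fun n v => gc (X.G g n) (mD X D n) (a n) (τ n) (r n) v.2)
    (fun n v => Gc (mD X D) a n v.2) M (fun n => 2 * a n) τ

/-- The slope of the cells is a function of the line. -/
def ShA : Prop := ∀ {Ω : ℕ → Type} (K : Mb Ω → Prop) (g : Gs 3 Ω) (M mm : ℕ → ℕ)
  (D : ∀ n, Td (Ω n)) (η d ε₀ κ : ℝ) (X : Mb Ω) (a τ r : ℕ → ℕ), T2 K g M mm D η 2 d ε₀ → 2 < d →
  NilK K g M 1 2 → K X → OM M r → Lp g M D X a τ r → 0 < κ →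
  (∀ᶠ n in UF, κ * M n ≤ a n ∧ (2 * a n : ℕ) + κ * M n ≤ τ n ∧ (τ n : ℝ) ≤ d * a n ∧
    2 * τ n ≤ r n) →
  ∃ (Y : Mb Ω) (a' k : ℕ → ℕ) (κ' : ℝ), Sh K g M D Y 2 d a' a k ∧ 0 < κ' ∧
    ∀ᶠ n in UF, κ' * M n ≤ a' n

/-- The end after the shear. -/
def ShE : Prop := ∀ {Ω : ℕ → Type} (K : Mb Ω → Prop) (g : Gs 3 Ω) (M mm : ℕ → ℕ)
  (D : ∀ n, Td (Ω n)) (η γ d ε₀ κ : ℝ) (X : Mb Ω) (a b k : ℕ → ℕ), T2 K g M mm D η γ d ε₀ →
  1 < γ → γ < d → NilK K g M 1 γ → Sh K g M D X γ d a b k → 0 < κ →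
  (∀ᶠ n in UF, κ * M n ≤ a n) → False

/-- A large mixed coefficient is impossible. -/
def Eng : Prop := ForL fun K g M D d _ a A s _ _ r => ∀ X (ρ k : ℕ → ℕ) H s₁ s₂ L (ε : ℝ),
  VO K g M D X a A s r ρ H s₁ s₂ L → Whp X.P (fun n v => 1 / 2 ^ k n ≤ |H n v|) → 0 < ε →
  (∀ᶠ n in UF, s n + k n + ε * M n ≤ ρ n ∧ ρ n ≤ a n ∧ (ρ n : ℝ) ≤ (d - 2) * a n) → False

/-- A determined slope of `u` forces weight two. -/
def W2 : Prop := ∀ {Ω : ℕ → Type} (K : Mb Ω → Prop) (g : Gs 3 Ω) (M mm : ℕ → ℕ)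
  (D : ∀ n, Td (Ω n)) (η γ d ε₀ : ℝ), T2 K g M mm D η γ d ε₀ → 1 < γ → γ < d → NilK K g M 1 γ →
  γ = 2

/-- The case of weight two. -/
def TBF : Prop := ∀ {Ω : ℕ → Type} (K : Mb Ω → Prop) (g : Gs 3 Ω) (M mm : ℕ → ℕ)
  (D : ∀ n, Td (Ω n)) (η d ε₀ : ℝ) (C : ℕ), TB K g M mm D η d ε₀ C → False

/-! ### Rows -/

def RUFul : Prop := Dir → UFul
def RUp2 : Prop := NGm → Up2
def RPLp : Prop := NGm → PLp
def RGLip : Prop := SegK → Cor3 → Maj → Up2 → GLip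
def RChl : Prop := PLp → Chl
def RLip : Prop := PLp → Lip
def RPrV : Prop := GLip → PrV
def RWbF : Prop := UFul → Lip → WbF
def RVA : Prop := Rect1 → WbA → WbF → WbS → WbN → VA
def RLp1 : Prop := Lip → Lp1
def RSgC : Prop := UFul → SgC
def RShA : Prop := SegK → Cor3 → Maj → Up2 → SgC → ShA
def RTBF : Prop := PrV → VA → Lp1 → ShA → ShE → Eng → TBF

theorem cb2_of (h1 : W2) (h2 : Chl) (h3 : TBF) : CB2' := by
  intro Ω K g M mm D η γ d ε₀ h a b c s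
  obtain rfl := h1 K g M mm D η γ d ε₀ h a b c
  obtain ⟨K', g', D', C, t⟩ := h2 K g M mm D η d ε₀ h b s
  exact h3 K' g' M mm D' η d ε₀ C t

end Pool.Agent.MP_5168f5_an.R4.B2
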