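import Pool.Agent.MP_5168f5_an.R4.LGlue
import Pool.Agent.MP_5168f5_an.R4.SpecB2

/-! A slope that is determined by the base line: tangent classes. -/

namespace Pool.Agent.MP_5168f5_an.R4.LG

open H19 H17S H17F Filter Tan B1
open Web (RV)

/-- Add a side label to all labels. -/
abbrev sd {Ω Γ : Type} (D : Td Ω) (c : Ω → Γ) : Td Ω :=
  ⟨D.Λ × Γ, fun j ω => (D.S j ω, c ω), D.o, D.U, D.H⟩

/-- Truncated covectors. -/
noncomputable def tc {Ω : ℕ → Type} (M : ℕ → ℕ) (T : CV Ω) : CV Ω := fun n j ω =>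
  (cp (2 ^ M n) (T n j ω).1, cp (2 ^ M n) (T n j ω).2)

/-- The two slopes of a plane. -/
def sp {Ω : ℕ → Type} (d : ∀ n, ℕ → Ω n → ℝ × ℝ × V 3) : CV Ω := fun n j ω =>
  ((d n j ω).2.1, (d n j ω).2.2 0)

theorem Ft.tc {Ω : ℕ → Type} {P : ∀ n, FP (Ω n)} {g : Gs 3 Ω} {M a q : ℕ → ℕ} {β : RV Ω}
    {T : CV Ω} (h : Ft P g M β (fun n => T n (a n)) q) :
    Ft P g M β (fun n => tc M T n (a n)) q :=
  h.imp fun L b => ⟨b.1, b.2.mono ((Sub.le_pow b.1 one_pos (R := M)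
    (Eventually.of_forall fun n => (one_mul _).le)).mono fun n u ω _ w => by
      simpa only [LG.tc, cp_eq (w.1.trans u), cp_eq (w.2.1.trans u)] using w)⟩

/-- A cell over the first coordinate gives a covector. -/
theorem ft_cell {Ω : ℕ → Type} {P : ∀ n, FP (Ω n)} {g : Gs 3 Ω} {M a q : ℕ → ℕ} {i : Fin 3}
    {d : ∀ n, ℕ → Ω n → ℝ × ℝ × V 3} {wt : ℝ} (h : Cell P g M {0} i d wt) (hM : Big M)
    (hw : 0 ≤ wt) (ha : OM M a) (hq : Le M (fun n => q n) fun n => (wt - 1) * a n) :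
    Ft P g M (fun n ω => (g n).e ω i) (fun n => tc M (sp d) n (a n)) q := by
  obtain ⟨L, hL, w⟩ := cell_near (p := fun n => q n + a n) h hM hw ha
    (hq.of_sub (Eventually.of_forall fun n => by push_cast; linarith))
  refine Ft.tc ⟨L, hL, w.mono (Eventually.of_forall fun n ω _ ⟨v1, v2, _, v4⟩ => ?_)⟩
  rw [sum0 fun i => (v2 i).2, pow_add, mul_div_mul_right _ _ (by positivity)] at v4
  exact ⟨v1, (v2 0).1, v4⟩

variable {Ω : ℕ → Type} {K K' : Mb Ω → Prop} {g : Gs 3 Ω} {M mm : ℕ → ℕ} {D : ∀ n, Td (Ω n)}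
  {η γ d ε₀ : ℝ} {T₀ : Finset (Fin 3)}

theorem sk_side (h : Tn K g M mm D η γ T₀) (h0 : 0 ∈ T₀) (hK : Cl0 K') (sub : ∀ X, K' X → K X)
    {Γ : ℕ → Type} (c : ∀ n, Ω n → Γ n) (β : RV Ω) (T : CV Ω) {b : ℕ → ℕ} (hb : OM M b)
    (hf : ∀ X, K' X → (∀ᶠ n in UF,
      Fn (X n).Q (fun v => (β n ((X n).ρ v), c n ((X n).ρ v))) (X.G g n).ln ∧
      Fn (X n).Q (fun v => c n ((X n).ρ v)) ((mD X D n).S (b n)) ∧
      ∀ j, Fn (X n).Q (mT X T n j) fun v => ((mD X D n).S j v, c n ((X n).ρ v))) ∧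
      ∃ L, Sub M L ∧ ∀ᶠ n in UF, ∀ v ∈ (X n).Q.S, |β n ((X n).ρ v)| ≤ L n) :
    SK K' g M mm (fun n => sd (D n) (c n)) β (tc M T) η := by
  have res : ∀ {m}, Cls0 K g m 0 η → Cls0 K' g m 0 η := fun k =>
    ⟨hK, k.pos, fun X a => k.bs X (sub X a), fun X a => k.br X (sub X a)⟩
  refine ⟨hK, h.big, h.sm, res h.low, fun C hC => res (h.cls C hC), fun X hX => ?_⟩
  have co := h.com X (sub X hX)
  obtain ⟨f, bd⟩ := hf X hX
  have up : ∀ j : ℕ → ℕ, ∀ᶠ n in UF, Fn (X n).Q (fun v => ((mD X D n).S (j n) v, c n ((X n).ρ v)))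
      ((mD X D n).S (j n + b n)) := fun j => (f.and co.nest).mono fun n u =>
    (nest_le (fun j => (u.2.2 j).1) (Nat.le_add_right _ _)).pair
      (u.1.2.1.trans (nest_le (fun j => (u.2.2 j).1) (Nat.le_add_left _ _)))
  refine ⟨co.brw, fun r hr => (co.fat 0 r hr).imp fun _ a => ⟨sub_up h.sm a.1, a.2⟩, ?_, bd,
    fun n j ω => ⟨abs_cp (by positivity) _, abs_cp (by positivity) _⟩, fun j hj => ⟨?_, ?_⟩,
    fun a ha => (co.ball a ha).imp fun _ u => ⟨u.1, u.2.mono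
      (Eventually.of_forall fun _ _ _ w => w 0)⟩, fun r hr => ?_⟩
  · filter_upwards [f, co.nest] with n u w
    refine ⟨((Fn.fst _ _).trans u.1).pair ((w.1.trans fun _ _ _ _ e => congrArg (·.2.2) e).pair
      ((Fn.snd _ _).trans u.1)), fun j => ⟨((w.2 j).1.left _).pair (Fn.snd _ _),
        fun x hx y hy e => ?_⟩⟩
    have e1 := (w.2 j).2 x hx y hy (congrArg (·.1) e)
    have e2 := u.2.2 j x hx y hy e
    simp only [Prod.mk.injEq] at e1 ⊢
    simp only [mT] at e2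
    simp only [tc, mT, e1.1, e1.2.1, e1.2.2.1, e2, and_self]
  · exact (co.lab j hj).h.mono (f.mono fun n u => mi_mono'
      ((Fn.fst _ _).pair (((((Fn.snd _ _).trans u.1)).left _).right _)))
  · exact (co.lab _ (hj.add hb)).l.mono ((up j).mono fun n u => mi_mono' (u.left _))
  · refine (co.typ _ (hr.add hb)).mono ((up r).mono fun n u => (mi_mono' (Fn.left
      (fun x _ y _ e => ?_) _)).trans (mi_mono (u.left _)))
    have := congrFun e 0
    simp only [Tan.ty, if_pos h0] at this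
    exact fl1_eq_of_le (Nat.le_add_right _ _) this

theorem mem_wT (γ d : ℝ) : (0 : Fin 3) ∈ wT γ d := by simp [wT]

/-- The class for the slope `i` and the planes `d`, without side label. -/
theorem sk_pl (h : Tn K g M mm D η γ T₀) (h0 : 0 ∈ T₀) (i : Fin 3) (b : Bool) :
    SK K g M mm (fun n => sd (D n) fun _ => ()) (fun n ω => (g n).e ω i)
      (tc M (sp fun n => bif b then (D n).H else (D n).U)) η :=
  sk_side h h0 h.cl.toCl0 (fun _ a => a) _ _ _ OM.rfl fun X hX =>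
    ⟨(h.com X hX).nest.mono fun n u => ⟨Fn.comp (fun l : V 3 × V 3 × _ => (l.2.1 i, ())) _,
      fun _ _ _ _ _ => rfl, fun j x hx y hy e => by
        have e1 := (u.2 j).2 x hx y hy (congrArg (·.1) e)
        simp only [Prod.mk.injEq] at e1
        cases b <;> simp only [mT, sp, cond, e1.2.2.2.1, e1.2.2.2.2]⟩,
      (h.bx hX).imp fun _ u => ⟨u.1, u.2.mono fun _ w v hv => ((w.bd v hv).1 i).2⟩⟩

theorem cst_of {φ : ℝ → ℝ} {s z L : ℝ} {c p : ℕ} (h : ∀ t, φ t - φ z = (t - z) * s)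
    (hs : |s| ≤ L / 2 ^ p) : Cst c z φ (L / 2 ^ (c + p)) := fun t ht => by
  rw [h, abs_mul]
  refine (mul_le_mul (abs_sub_lt_of_fl1_eq ht).le hs (abs_nonneg _) (by positivity)).trans_eq ?_
  rw [pow_add]; field_simp

/-- No gain for `u`. -/
theorem noU (h : Tn K g M mm D η γ T₀) (sub : ∀ X, K' X → K X) {D' : ∀ n, Td (Ω n)}
    {c p : ℕ → ℕ} {κ : ℝ} (hκ : 0 < κ) (hc : OM M c) (hp : OM M p)
    (e : ∀ᶠ n in UF, (γ - 1) * c n + κ * M n ≤ p n)
    (G : Gain K' g M mm D' (fun n ω => (g n).e ω 1) c p) : False := by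
  obtain ⟨X, Λ, lam, a, hX, lab, f, L, hL, w⟩ := G
  refine ((h.com X (sub X hX)).optU Λ lam a L c (fun n => c n + p n) M hc (hc.add hp) OM.rfl lab hL
    (f.mono fun n u => (Fn.fst _ _).trans u) (w.mono ((Sub.le_pow hL one_pos (R := M)
      (Eventually.of_forall fun n => (one_mul _).le)).mono fun n u v _ k =>
        ⟨⟨k.1.trans u, k.2.1.trans u⟩, cst_of (fun t => ?_) k.2.2⟩))).false h.big hκ
    (e.mono fun n u => by push_cast; linarith)
  simp only [Geo.lt, Pi.add_apply, Pi.smul_apply, smul_eq_mul]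
  ring

/-- A hyperplane as a quadric. -/
def qh (a : ℝ × ℝ) (G : ℝ) : Qd := Matrix.of fun i k =>
  if i = 0 then ![0, a.1, a.2, G, 0] k else 0

/-- No gain for `f - G u`. -/
theorem noF (h : T2 K g M mm D η γ d ε₀) (sub : ∀ X, K' X → K X) {D' : ∀ n, Td (Ω n)}
    {G : RV Ω} {c p : ℕ → ℕ} {κ : ℝ} (hκ : 0 < κ) (hc : OM M c) (hp : OM M p)
    (hG : ∀ X, K' X → ∀ᶠ n in UF, Fn (X n).Q (mR X G n) ((mD X D' n).S (c n)) ∧
      ∀ v ∈ (X n).Q.S, |mR X G n v| ≤ 2 ^ M n)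
    (e : ∀ᶠ n in UF, (d - 1) * c n + κ * M n ≤ p n)
    (gn : Gain K' g M mm D' (fun n ω => (g n).e ω 2 - G n ω * (g n).e ω 1) c p) : False := by
  obtain ⟨X, Λ, lam, a, hX, lab, f, L, hL, w⟩ := gn
  refine ((h.fl X (sub X hX)).optF Λ lam (fun n v => qh (a n v) (mR X G n v)) L c
    (fun n => c n + p n) M hc (hc.add hp) OM.rfl lab hL
    ((f.and (hG X hX)).mono fun n u x hx y hy k => ?_)
    (w.mono (((hG X hX).and (Sub.le_pow hL one_pos (R := M)
      (Eventually.of_forall fun n => (one_mul _).le))).mono fun n u v hv k =>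
        ⟨fun i j => ⟨?_, ?_⟩, cst_of (fun t => ?_) k.2.2⟩))).false h.toTn.big hκ
    (e.mono fun n u => by push_cast; linarith)
  · obtain ⟨e1, e2⟩ := Prod.mk.inj (u.1 x hx y hy k)
    beta_reduce
    rw [e1, u.2.1 x hx y hy e2]
  · have p0 : |(0 : ℝ)| ≤ 2 ^ M n := by rw [abs_zero]; positivity
    simp only [qh, Matrix.of_apply]
    split_ifs
    · fin_cases j
      exacts [p0, k.1.trans u.2, k.2.1.trans u.2, u.1.2 v hv, p0]
    · exact p0
  · rintro (rfl | rfl) <;> simp [qh]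
  · simp [ql, qf, hom, qh, Matrix.mulVec, dotProduct, Fin.sum_univ_five, Geo.lt]
    ring

theorem nl_nil {X : Mb Ω} {i : Fin 3} {wt : ℝ} (h : Tn K g M mm D η γ T₀) (hX : K X)
    (nil : NilK K g M i wt) {Γ : ℕ → Type} (s : ∀ n, Ω n → Γ n) {c q r : ℕ → ℕ} (hr : OM M r)
    (e : ∀ᶠ n in UF, q n ≤ r n ∧ (q n : ℝ) ≤ (wt - 1) * r n) :
    Nl X.P (X.G g) M (mD X fun n => sd (D n) (s n)) (fun n v => (X.G g n).e v i) c q r :=
  ND.anti (nil X hX q r hr e) ((h.com X hX).nest.mono fun n u => (Fn.fst _ _).pair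
    ((((Fn.comp (·.1) _).trans (u.2 (c n)).2).left _).right _))

/-- A determined slope has weight two. -/
theorem two_of (lt : Lt) (gt : Gt) (h : Tn K g M mm D η γ T₀) (h0 : 0 ∈ T₀) {i : Fin 3} {b : Bool}
    {wt : ℝ} (h1 : 1 < wt) (nil : NilK K g M i wt)
    (cel : ∀ X, K X → Cell X.P (X.G g) M {0} i
      (fun n => bif b then (mD X D n).H else (mD X D n).U) wt)
    (no : ∀ (c p : ℕ → ℕ) (κ : ℝ), 0 < κ → OM M c → OM M p →
      (∀ᶠ n in UF, (wt - 1) * c n + κ * M n ≤ p n) →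
      ¬Gain K g M mm (fun n => sd (D n) fun _ => ()) (fun n ω => (g n).e ω i) c p) : wt = 2 := by
  obtain ⟨X, hX⟩ := h.ne
  have hM := h.big
  have sk := sk_pl h h0 i b
  obtain ⟨C, hC⟩ := exists_nat_ge (max (wt / (wt - 1)) wt)
  have c1 : wt ≤ (wt - 1) * C := by
    have := (le_max_left _ _).trans hC
    rwa [div_le_iff₀ (by linarith), mul_comm] at this
  have c2 : wt ≤ C := (le_max_right _ _).trans hC
  have m0 := fun n => Nat.cast_nonneg (α := ℝ) (M n)
  have oC : OM M fun n => C * M n := OM.rfl.mul C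
  have oJ : OM M fun n => C * M n + M n := oC.add OM.rfl
  have ft : ∀ a q : ℕ → ℕ, OM M a → (∀ n, (q n : ℝ) ≤ (wt - 1) * a n) →
      Ft X.P (X.G g) M (fun n v => (X.G g n).e v i) (fun n => mT X
        (tc M (sp fun n => bif b then (D n).H else (D n).U)) n (a n)) q := fun a q ha e => by
    have := ft_cell (cel X hX) hM (by linarith) ha (Le.of_le e)
    cases b <;> exact this
  have big : ∀ q : ℕ → ℕ, (∀ n, (q n : ℝ) ≤ wt * M n) → ∀ n, q n ≤ C * M n ∧
      (q n : ℝ) ≤ (wt - 1) * (C * M n : ℕ) ∧ (q n : ℝ) ≤ (wt - 1) * (C * M n + M n : ℕ) :=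
    fun q e n => by
      have a1 := mul_le_mul_of_nonneg_right c1 (m0 n)
      have a2 := mul_le_mul_of_nonneg_right c2 (m0 n)
      refine ⟨by exact_mod_cast (e n).trans a2, ?_, ?_⟩ <;> push_cast <;> nlinarith [e n, m0 n]
  have oL : ∀ x : ℝ, 0 ≤ x → OM M (lev M x) := fun x hx =>
    om_of (Eventually.of_forall (lev_le' M hx))
  rcases lt_trichotomy wt 2 with k | k | k
  · have e := big M fun n => by nlinarith [m0 n]
    refine (no M (lev M (wt / 2)) ((2 - wt) / 4) (by linarith) OM.rfl (oL _ (by linarith)) ?_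
      (lt K g M mm _ _ _ η X sk hX _ M _ _ ((2 - wt) / 2) oJ (by linarith)
        (Eventually.of_forall fun n => ⟨(e n).1, Nat.le_add_right _ _,
          Nat.add_le_add_right (e n).1 _, by linarith [lev_le' M (c := wt / 2) (by linarith) n]⟩)
        (ft _ _ oJ fun n => (e n).2.2)
        (nl_nil h hX nil _ oC (Eventually.of_forall fun n => ⟨(e n).1, (e n).2.1⟩)))).elim
    filter_upwards [hM.ev (4 / (2 - wt))] with n u
    rw [div_le_iff₀ (by linarith)] at u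
    linarith [lt_lev M (wt / 2) n]
  · exact k
  · have l1 := lev_le' M (c := wt - 1) (by linarith)
    have e := big (lev M (wt - 1)) fun n => by nlinarith [m0 n, l1 n]
    have e' := big M fun n => by nlinarith [m0 n]
    refine (no (fun _ => 0) (lev M ((wt - 2) / 2)) ((wt - 2) / 4) (by linarith)
      (OM.rfl.mono (Eventually.of_forall fun _ => Nat.zero_le _)) (oL _ (by linarith)) ?_
      (gt K g M mm _ _ _ η X sk hX _ _ M (lev M (wt - 1)) _ _ ((wt - 2) / 4) oJ (by linarith) ?_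
        (ft _ _ (OM.rfl.mono (Eventually.of_forall fun n => (zero_add _).le)) fun n => by
          rw [zero_add]; exact l1 n)
        (ft _ _ oJ fun n => (e n).2.2)
        (nl_nil h hX nil _ oC (Eventually.of_forall fun n => ⟨(e n).1, (e n).2.1⟩)))).elim <;>
    filter_upwards [hM.ev (4 / (wt - 2))] with n u <;> rw [div_le_iff₀ (by linarith)] at u
    · linarith [lt_lev M ((wt - 2) / 2) n]
    · exact ⟨(e n).1, (zero_add _).trans_le (e' n).1, Nat.le_add_right _ _, by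
        linarith [lt_lev M (wt - 1) n, lev_le' M (c := (wt - 2) / 2) (by linarith) n]⟩

theorem w2_of (lt : Lt) (gt : Gt) : B2.W2 := fun _ _ _ _ _ _ _ _ _ h a _ nil =>
  two_of lt gt h.toTn (mem_wT _ _) (b := false) a nil (fun X hX => (h.com X hX).cellU)
    fun _ _ _ hκ hc hp e => noU h.toTn (fun _ a => a) hκ hc hp e

/-- In the product case a determined slope of `f` forces weight two. -/
theorem d2_of (lt : Lt) (gt : Gt) (h : T2 K g M mm D η γ d ε₀) (h1 : 1 < d) (h2 : d ≤ γ)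
    (nil : NilK K g M 2 d) : d = 2 :=
  two_of lt gt h.toTn (mem_wT _ _) (b := true) h1 nil (fun X hX => (h.fl X hX).cellP h2)
    fun _ _ _ hκ hc hp e gn => noF h (fun _ a => a) (G := fun _ _ => 0) hκ hc hp
      (fun _ _ => Eventually.of_forall fun _ => ⟨fun _ _ _ _ _ => rfl, fun _ _ => by
        rw [abs_zero]; positivity⟩) e (by simpa only [zero_mul, sub_zero] using gn)

end Pool.Agent.MP_5168f5_an.R4.LG
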