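import Pool.Agent.MP_5168f5_an.R4.B2VA
import Pool.Agent.MP_5168f5_an.R4.LInst
import Pool.Agent.MP_5168f5_an.R4.GEngel

/-! A large mixed coefficient is impossible. -/

namespace Pool.Agent.MP_5168f5_an.R4.B2

open H19 H17S H17F Filter Tan B1

namespace EngA

theorem glue_congr {W α β : Type} (P : FP W) {φ : W → α} {ψ : W → β}
    (h : ∀ x y, φ x = φ y ↔ ψ x = ψ y) : glue P P φ φ = glue P P ψ ψ :=
  congrArg (H17F.bind P) (funext fun x => congrArg (cE P) (funext fun y => propext (h y x)))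

theorem alg1 {e a H s₁ L : ℝ} {A s p ρ : ℕ} (hp : A + s = p) (hs : s ≤ ρ)
    (h : |Int.fract (2 ^ A * e) - s₁ - Int.fract (2 ^ p * a) * H| ≤ L / 2 ^ ρ) :
    |e - (U.rd A e + s₁ / 2 ^ A - 2 ^ s * H * U.rd p a) - 2 ^ s * H * a| ≤
      L / 2 ^ (p + (ρ - s)) := by
  have h1 := U.rd_add_fract A e
  have h2 := U.rd_add_fract p a
  have h3 : (2 : ℝ) ^ p = 2 ^ A * 2 ^ s := by rw [← hp, pow_add]
  rw [show p + (ρ - s) = ρ + A by omega, pow_add, ← div_div]
  generalize Int.fract (2 ^ A * e) = x at h h1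
  generalize Int.fract (2 ^ p * a) = y at h h2
  generalize U.rd A e = u at h1
  generalize U.rd p a = v at h2
  have k : e - (u + s₁ / 2 ^ A - 2 ^ s * H * v) - 2 ^ s * H * a = (x - s₁ - y * H) / 2 ^ A := by
    rw [← h1, ← h2, h3]; field_simp; ring
  rw [k, abs_div, abs_of_pos (by positivity : (0 : ℝ) < 2 ^ A)]
  exact div_le_div_of_nonneg_right h (by positivity)

theorem alg2 {G z H s₂ L : ℝ} {s ρ : ℕ} (hs : s ≤ ρ) (h : |G / 2 ^ s - s₂ - z * H| ≤ L / 2 ^ ρ) :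
    |G - 2 ^ s * s₂ - z * (2 ^ s * H)| ≤ L / 2 ^ (ρ - s) := by
  obtain ⟨t, rfl⟩ := Nat.exists_eq_add_of_le hs
  have k : G - 2 ^ s * s₂ - z * (2 ^ s * H) = 2 ^ s * (G / 2 ^ s - s₂ - z * H) := by
    field_simp
  rw [k, abs_mul, abs_of_pos (by positivity : (0 : ℝ) < 2 ^ s), Nat.add_sub_cancel_left]
  refine (mul_le_mul_of_nonneg_left h (by positivity)).trans (le_of_eq ?_)
  rw [pow_add]; field_simp

theorem alg3 {H L : ℝ} {s k : ℕ} (h : 1 / 2 ^ k ≤ |H|) (l : 1 ≤ L) :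
    1 ≤ L * 2 ^ (k - s) * |2 ^ s * H| := by
  rw [div_le_iff₀ (by positivity)] at h
  have e : (2 : ℝ) ^ k ≤ 2 ^ (k - s) * 2 ^ s := by
    rw [← pow_add]; exact pow_le_pow_right₀ one_le_two (by omega)
  rw [abs_mul, abs_of_pos (by positivity : (0 : ℝ) < 2 ^ s), mul_assoc, ← mul_assoc (2 ^ _ : ℝ)]
  refine one_le_mul_of_one_le_of_one_le l (h.trans ?_)
  rw [mul_comm]; exact mul_le_mul_of_nonneg_right e (abs_nonneg _)

end EngA

open EngA

theorem fanS_of (cap : LG.Cap) : Eng.FanS := fun K g M mm _ η _ _ X r σ h h0 hX hr hσ =>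
  (cap K g M mm _ _ _ η X (LG.sk_pl h h0 1 false) hX r σ hr hσ).imp fun _ u => ⟨u.1, by
    have := u.2
    rwa [funext fun n => glue_congr _ fun x y => ?_] at this
    simp only [Prod.mk.injEq, and_true]⟩

section

variable {Ω : ℕ → Type} {K : Mb Ω → Prop} {g : Gs 3 Ω} {M mm : ℕ → ℕ} {D : ∀ n, Td (Ω n)}
  {η d ε₀ ε : ℝ} {X : Mb Ω}

/-- No cell determines the slope of `u` beyond its depth. -/
theorem eng_end (gn : LG.Gn) (tn : Tn K g M mm D η 2 (wT 2 d)) (hX : K X) {c q r : ℕ → ℕ}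
    (hr : OM M r) (e0 : 0 < ε) (e : ∀ᶠ n in UF, q n ≤ r n ∧ c n + ε * M n ≤ q n)
    (f : ND X.P M (fun n v => fl1 (q n) ((X.G g n).e v 1)) fun n v =>
      ((mD X D n).S (c n) v, fl1 (r n) ((X.G g n).e v 0))) : False := by
  have hM := tn.big
  have cr : ∀ᶠ n in UF, c n ≤ r n := e.mono fun n u => by
    have : (c n : ℝ) ≤ q n := le_trans (le_add_of_nonneg_right (by positivity)) u.2
    exact le_trans (by exact_mod_cast this) u.1
  have oc := hr.mono cr
  have ol : OM M (lev M (ε / 2)) := om_of (Eventually.of_forall (lev_le' M (half_pos e0).le))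
  have ft := LG.ft_cell (q := q) (tn.com X hX).cellU hM zero_le_two hr (Le.of_ev (e.mono fun n u => by
    rw [show (2 : ℝ) - 1 = 1 by norm_num, one_mul]; exact_mod_cast u.1))
  have f' := f.anti (G' := fun n v => (fl1 (r n) ((X.G g n).e v 0), (mD X D n).S (c n) v, ()))
    (Eventually.of_forall fun n x _ y _ e => by
      simp only [Prod.mk.injEq] at e ⊢
      exact ⟨e.2.1, e.1⟩)
  have k := gn K g M mm _ _ _ η X (LG.sk_pl tn (LG.mem_wT _ _) 1 false) hX c r q r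
    (fun n => c n + lev M (ε / 2) n) (ε / 2) hr (half_pos e0) (by
      filter_upwards [e, cr] with n u v
      refine ⟨v, u.1, le_rfl, ?_⟩
      push_cast
      linarith [lev_le' M (half_pos e0).le n, u.2]) ft f'
  refine LG.noU tn (fun _ a => a) (κ := ε / 4) (by linarith) oc (oc.add ol) ?_ k
  filter_upwards [hM.ev (4 / ε)] with n u
  rw [div_le_iff₀ e0] at u
  push_cast
  linarith [lt_lev M (ε / 2) n]

theorem eng_in (t : T2 K g M mm D η 2 d ε₀) (d2 : 2 < d) {a A s r ρ k : ℕ → ℕ}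
    {H s₁ s₂ : ∀ n, (X n).W → ℝ} {L : ℕ → ℝ} (hr : OM M r) (hA : ∀ n, A n + s n = 2 * a n)
    (vo : VO K g M D X a A s r ρ H s₁ s₂ L) (w : Whp X.P fun n v => 1 / 2 ^ k n ≤ |H n v|)
    (e0 : 0 < ε) (ev : ∀ᶠ n in UF, s n + k n + ε * M n ≤ ρ n)
    (al : ∀ n, a n = M n ∧ s n + k n ≤ ρ n ∧ ρ n ≤ M n ∧ (ρ n : ℝ) ≤ (d - 2) * a n ∧
      4 * a n ≤ r n) :
    Eng.In X.P (X.G g) M (mD X D) d r (fun n => 2 * a n) (fun n => ρ n - s n)
      (fun n => k n - s n) (fun n v => 2 ^ s n * H n v)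
      (fun n v => U.rd (A n) ((X.G g n).e v 2) + s₁ n v / 2 ^ A n -
        2 ^ s n * H n v * U.rd (2 * a n) ((X.G g n).a v 1)) fun n v => 2 ^ s n * s₂ n v := by
  have tn := t.toTn
  have hM := tn.big
  have hX := vo.mem
  have sρ : ∀ n, s n ≤ ρ n := fun n => by have := al n; omega
  have oa : OM M a := OM.rfl.mono (Eventually.of_forall fun n => (al n).1.le)
  have mρ : ∀ n, ((ρ n - s n : ℕ) : ℝ) ≤ (d - 2) * a n := fun n =>
    le_trans (by exact_mod_cast Nat.sub_le _ _) (al n).2.2.2.1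
  obtain ⟨L1, s1, w1⟩ := (t.fl X hX).conv a (fun n => 2 * a n) (fun n => ρ n - s n) (oa.mul 2)
    (Eventually.of_forall fun n => ⟨by omega, mρ n⟩)
  obtain ⟨L2, s2, w2⟩ := (t.fl X hX).cellH d2.le a (fun _ => 0) oa
    (Eventually.of_forall fun n => by
      rw [Nat.cast_zero]; exact mul_nonneg (by linarith) (Nat.cast_nonneg _))
  have nd := vo.sm.anti (G' := fun n => (X.G g n).ln) (Eventually.of_forall fun n x _ y _ e => by
    simp only [Geo.ln, Prod.mk.injEq] at e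
    simp only [th, ul, bl, e.1, e.2.1, e.2.2])
  have fu := (Eng.GEngelA.fu tn hX OM.rfl (c := 1)
    (Eventually.of_forall fun n => (one_mul _).ge)).near nd
  obtain ⟨L3, s3, w3⟩ := Eng.lin (p := fun n v => 2 ^ s n * s₂ n v)
    (q := fun n v => 2 ^ s n * H n v) fu (Eventually.of_forall fun n x _ y _ e => by
      simp only [Prod.mk.injEq] at e
      simp only [e.1, e.2.2])
  have sL := vo.sub
  have n1 := (vo.sm.pair ND.rfl).mono (F' := fun n v => (2 ^ s n * H n v,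
      U.rd (A n) ((X.G g n).e v 2) + s₁ n v / 2 ^ A n -
        2 ^ s n * H n v * U.rd (2 * a n) ((X.G g n).a v 1), 2 ^ s n * s₂ n v))
    (Eventually.of_forall fun n x _ y _ e => by
      simp only [th, ul, Prod.mk.injEq] at e
      simp only [U.rd, e.1.1, e.1.2.1, e.1.2.2, e.2.1.2.2, e.2.2.1.2])
  refine ⟨hr, ⟨ε, e0, ev.mono fun n u => ?_⟩, fun n => ⟨by have := al n; omega,
    by have := al n; omega, by have := al n; omega, (mρ n).trans ?_⟩,
    n1.anti (Eventually.of_forall fun n x _ y _ e => ?_),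
    _, (s3.mul (s2.add sL hM)).add (sL.add s1 hM) hM,
    ((((vo.fit.and w).and w1).and w2).and w3).mono (Eventually.of_forall fun n v _ u => ?_)⟩
  · rw [Nat.cast_sub (sρ n)]; linarith [Nat.cast_nonneg (α := ℝ) (k n)]
  · push_cast; nlinarith [Nat.cast_nonneg (α := ℝ) (a n)]
  · simp only [Eng.Ev.th, Eng.mk, Prod.mk.injEq] at e
    have hA : A n ≤ 2 * a n := by have := hA n; omega
    simp only [th, ul, bl, e.1, e.2.1, e.2.2.1, e.2.2.2.1, fl1_eq_of_le hA e.2.2.2.2.1,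
      fl1_eq_of_le hA e.2.2.2.2.2.1, e.2.2.2.2.2.2]
  · obtain ⟨⟨⟨⟨⟨-, -, -, u1, u2⟩, u3⟩, u4⟩, u5⟩, u6⟩ := u
    have v1 := alg1 (hA n) (sρ n) u1
    have v2 := alg2 (sρ n) u2
    have q0 := sL.1 n
    have q1 := s1.1 n
    have q2 := s2.1 n
    have q3 := s3.1 n
    have q4 : 0 ≤ L3 n * (L2 n + L n) := by positivity
    have v3 := abs_le.1 (v2.trans (div_le_self (by linarith) (one_le_pow₀ one_le_two)))
    have v4 := abs_le.1 (u5.2.1 1).1
    refine ⟨(u6.trans (mul_le_mul_of_nonneg_left (abs_le.2 ⟨by linarith, by linarith⟩)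
      (by linarith))).trans (le_add_of_nonneg_right (by linarith)), alg3 u3 (by linarith),
      v1.trans (div_le_div_of_nonneg_right (by linarith) (by positivity)), ?_⟩
    have v5 := abs_le.1 v2
    have v6 := abs_le.1 u4
    refine le_trans (abs_le.2 ⟨?_, ?_⟩) (div_le_div_of_nonneg_right
      (le_add_of_nonneg_left q4) (by positivity)) <;> rw [add_div] <;> linarith

end

theorem eng_of (en : Eng.Engel) (gn : LG.Gn) : Eng' := by
  intro Ω K g M mm D η d ε₀ C a A s R J r tb lv X ρ k H s₁ s₂ L ε vo w e0 ev al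
  obtain ⟨Y, hY, f⟩ := en K g M mm D η d ε₀ X r _ _ _ _ _ _ tb.toT2 tb.lt tb.nil vo.mem
    (eng_in tb.toT2 tb.lt lv.om (fun n => (lv.le n).2.1) vo w e0 (ev.mono fun _ u => u.1) al)
  refine eng_end gn tb.toT2.toTn hY lv.om e0 (ev.mono fun n u => ⟨by have := al n; omega, ?_⟩) f
  have h1 : ρ n ≤ ρ n - s n - (k n - s n) + (s n + k n) := by omega
  have h2 : (ρ n : ℝ) ≤ (ρ n - s n - (k n - s n) : ℕ) + (s n + k n) := by exact_mod_cast h1
  rw [Nat.cast_add]
  linarith [u.1]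

end Pool.Agent.MP_5168f5_an.R4.B2
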