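import Pool.Agent.MP_5168f5_an.R4.SpecEn

/-! Case B2 with `u` of weight two: the slope of the plane is affine along the line. -/

namespace Pool.Agent.MP_5168f5_an.R4.Eng

open H19 H17S H17F Filter Tan

namespace GAffA

theorem am {x y a b : ℝ} (h : |x| ≤ a) (h' : |y| ≤ b) : |x * y| ≤ a * b :=
  (abs_mul x y).trans_le (mul_le_mul h h' (abs_nonneg _) ((abs_nonneg _).trans h))

theorem key {L δ ε t f f' k k' h h' b b' β g z G τ da de A E : ℝ} (l : 1 ≤ L) (d0 : 0 < δ)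
    (e0 : 0 < ε) (e1 : 4 * L * ε ≤ 1) (t1 : ε * t ≤ 1) (hz : |z| ≤ 1) (hτ : |τ| ≤ L)
    (hh : |h| ≤ L) (hg : |g| ≤ L) (low : 1 ≤ L * t * |h|) (a1 : |f - k - h * b| ≤ L * (δ * ε))
    (a2 : |f' - k' - h' * b'| ≤ L * (δ * ε)) (a3 : |G - g - z * h| ≤ L * ε)
    (a4 : |h - h'| ≤ L * (3 * L * ε)) (a5 : |b' - β| ≤ δ) (a6 : |de| ≤ L * δ)
    (a7 : |f - f' - G * de| ≤ L * (δ * ε)) (a8 : |b - b' + z * de - τ * da| ≤ L * (δ * ε))
    (a9 : |da - A| ≤ 2 * (δ * ε)) (a10 : |de - E| ≤ 2 * (δ * ε)) (sep : δ ≤ L * |da|) :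
    |(g * E - (k - k' + (h - h') * β)) / (h * A)| ≤ 45 * L ^ 4 ∧ |2 * E / A| ≤ 45 * L ^ 4 ∧
      |τ - (g * E - (k - k' + (h - h') * β)) / (h * A) - 2 * E / A * z| ≤ 45 * L ^ 4 * (ε * t) ∧
      |de - 2 * E / A / 2 * da| ≤ 45 * L ^ 4 * (δ * ε) := by
  have l0 : 0 < L := one_pos.trans_le l
  have p : 0 < δ * ε := mul_pos d0 e0
  have l2 : L ≤ L ^ 2 := le_self_pow₀ l two_ne_zero
  have l4 : L ^ 2 ≤ L ^ 4 := pow_le_pow_right₀ l (by norm_num)
  have w := mul_le_mul_of_nonneg_right l2 p.le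
  have hN : |h * τ * A - (g * E - (k - k' + (h - h') * β)) - 2 * z * h * E| ≤
      16 * L ^ 2 * (δ * ε) := by
    have b1 := abs_le.1 (am a3 a6)
    have b2 := abs_le.1 (am hh a8)
    have b3 := abs_le.1 (am a4 a5)
    have b4 := abs_le.1 (am (am hh hτ) a9)
    have b5 := abs_le.1 (am hg a10)
    have b6 := abs_le.1 (am (am hz hh) a10)
    rw [abs_le] at a1 a2 a7 ⊢
    constructor <;> linarith [a1.1, a1.2, a2.1, a2.2, a7.1, a7.2, b1.1, b1.2, b2.1, b2.2, b3.1,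
      b3.2, b4.1, b4.2, b5.1, b5.2, b6.1, b6.2]
  have hA : δ ≤ 2 * L * |A| := by
    have b1 := mul_le_mul_of_nonneg_left ((abs_sub_abs_le_abs_sub _ _).trans a9) l0.le
    have b2 := mul_le_mul_of_nonneg_left e1 d0.le
    linarith
  have A0 : 0 < |A| := (pos_iff_pos_of_mul_pos (d0.trans_le hA)).1 (by positivity)
  have t0 : 0 < t * |h| :=
    (pos_iff_pos_of_mul_pos (one_pos.trans_le (low.trans_eq (mul_assoc _ _ _)))).1 l0
  have h0 : h ≠ 0 := fun u => by simp [u] at t0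
  have A1 : A ≠ 0 := abs_pos.1 A0
  have c1 : |2 * E / A| ≤ 12 * L ^ 2 := by
    rw [abs_div, div_le_iff₀ A0, abs_mul, abs_two]
    have b1 := (abs_sub_abs_le_abs_sub _ _).trans ((abs_sub_comm _ _).trans_le a10)
    have b2 := mul_le_mul_of_nonneg_left hA (show 0 ≤ 6 * L by positivity)
    have b3 := mul_le_mul_of_nonneg_left (show ε ≤ L by nlinarith) d0.le
    linarith
  have c2 : |τ - (g * E - (k - k' + (h - h') * β)) / (h * A) - 2 * E / A * z| ≤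
      32 * L ^ 4 * (ε * t) := by
    rw [show τ - (g * E - (k - k' + (h - h') * β)) / (h * A) - 2 * E / A * z =
      (h * τ * A - (g * E - (k - k' + (h - h') * β)) - 2 * z * h * E) / (h * A) by field_simp,
      abs_div, div_le_iff₀ (abs_pos.2 (mul_ne_zero h0 A1)), abs_mul]
    have := mul_le_mul_of_nonneg_left (mul_le_mul hA low zero_le_one (by positivity))
      (show 0 ≤ 16 * L ^ 2 * ε by positivity)
    linarith
  have q : 0 ≤ L ^ 4 := by positivity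
  have t2 : 0 ≤ ε * t := mul_nonneg e0.le ((pos_iff_pos_of_mul_pos t0).2 (abs_pos.2 h0)).le
  refine ⟨?_, by linarith, by nlinarith, ?_⟩
  · have b1 := abs_le.1 (am c1 hz)
    have b2 := mul_le_mul_of_nonneg_left t1 q
    rw [abs_le] at c2 hτ ⊢
    constructor <;> linarith [b1.1, b1.2, c2.1, c2.2, hτ.1, hτ.2]
  · rw [show de - 2 * E / A / 2 * da = de - E - 2 * E / A * (da - A) / 2 by field_simp; ring]
    have b1 := abs_le.1 (am c1 a9)
    have b2 := mul_le_mul_of_nonneg_right l4 p.le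
    have b3 := mul_le_mul_of_nonneg_right l p.le
    rw [abs_le] at a10 ⊢
    constructor <;> linarith [b1.1, b1.2, a10.1, a10.2]

/-- Truncation. -/
noncomputable def tr (B x : ℝ) : ℝ := max (-B) (min B x)

theorem tr_le {B : ℝ} (h : 0 ≤ B) (x : ℝ) : |tr B x| ≤ B :=
  abs_le.2 ⟨le_max_left _ _, max_le (by linarith) (min_le_left _ _)⟩

theorem tr_eq {B x : ℝ} (h : |x| ≤ B) : tr B x = x := by
  rw [tr, min_eq_right (abs_le.1 h).2, max_eq_right (abs_le.1 h).1]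

theorem rd2 (r : ℕ) (x y : ℝ) : |x - y - (U.rd r x - U.rd r y)| ≤ 2 * (2 ^ r)⁻¹ := by
  have a := abs_le.1 (U.abs_sub_rd r x)
  have b := abs_le.1 (U.abs_sub_rd r y)
  rw [one_div] at a b
  exact abs_le.2 ⟨by linarith [a.1, b.2], by linarith [a.2, b.1]⟩

end GAffA

open GAffA in
theorem rowAff : OfAff := by
  intro sa fx Ω P D r σ m κ L₀ h
  obtain ⟨L₁, s1, w1⟩ := sa P D r σ m κ L₀ h
  obtain ⟨L₂, s2, w2⟩ := lin (p := fun n v => (D n).g v.1 - (D n).g v.2)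
    (q := fun n v => (D n).h v.1 - (D n).h v.2) (fx P D r σ m κ L₀ h)
    (Eventually.of_forall fun n x _ y _ e => by
      simp only [Ev.xi, Prod.mk.injEq] at e
      simp only [e.1.1.1, e.1.1.2.2, e.2.1.1, e.2.1.2.2])
  have s := (h.sub.mul s1).mul s2
  obtain ⟨-, c, c0, fr⟩ := h.frac
  refine ⟨fun n v => tr (45 * (L₀ n * L₁ n * L₂ n) ^ 4) (((D n).g v.1 * (U.rd (r n) ((D n).e v.1) -
      U.rd (r n) ((D n).e v.2)) - ((D n).k v.1 - (D n).k v.2 + ((D n).h v.1 - (D n).h v.2) *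
      U.rd (σ n) ((D n).b v.2))) / ((D n).h v.1 * (U.rd (r n) ((D n).a v.1) -
      U.rd (r n) ((D n).a v.2)))), fun n v => tr (45 * (L₀ n * L₁ n * L₂ n) ^ 4)
      (2 * (U.rd (r n) ((D n).e v.1) - U.rd (r n) ((D n).e v.2)) /
      (U.rd (r n) ((D n).a v.1) - U.rd (r n) ((D n).a v.2))), _,
    (s.pow 4).const_mul h.big (by norm_num : (1 : ℝ) ≤ 45), Eventually.of_forall fun n =>
      ⟨fun x _ y _ e => ?_, fun v => ⟨tr_le (by positivity) _, tr_le (by positivity) _⟩⟩,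
    (w1.and w2).mono ?_⟩
  · simp only [Ev.xi, Ev.th, Prod.mk.injEq] at e
    obtain ⟨⟨⟨a1, a2, a3⟩, a4, -, a5, -⟩, ⟨b1, b2, -⟩, b4, -, b5, b6, -⟩ := e
    simp only [U.rd, a1, a2, a3, a4, a5, b1, b2, b4, b5, b6]
  filter_upwards [h.alg, Sub.le_pow (s.const_mul h.big (by norm_num : (1 : ℝ) ≤ 4)) c0 fr] with
    n ⟨f1, _, on, pr⟩ sm v hv ⟨u1, u2⟩
  obtain ⟨m1, m2, e⟩ := (U.mem_copy _ _ v).1 hv
  obtain ⟨q1, q2, q3⟩ := h.lev n
  have o := on _ m1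
  have o' := on _ m2
  have p := (pr _ m1 _ m2).1 e.symm
  simp only [Ev.p1, Prod.mk.injEq] at e
  have eG : (D n).G v.2 = (D n).G v.1 := congrArg Prod.snd (f1 _ m2 _ m1 e.1)
  have k0 := h.sub.1 n
  have k1 := s1.1 n
  have k2 := s2.1 n
  have j0 : L₀ n ≤ L₀ n * L₁ n * L₂ n := by
    rw [mul_assoc]; exact le_mul_of_one_le_right (by linarith) (by nlinarith)
  have j1 : L₁ n ≤ L₀ n * L₁ n * L₂ n := by
    rw [mul_right_comm]; exact le_mul_of_one_le_left (by linarith) (by nlinarith)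
  have j2 : L₂ n ≤ L₀ n * L₁ n * L₂ n := le_mul_of_one_le_left (by linarith) (by nlinarith)
  generalize L₀ n * L₁ n * L₂ n = L at *
  have l := k0.trans j0
  have v1 : ∀ {x : ℝ} {j : ℕ}, x ≤ L₀ n / 2 ^ j → x ≤ L * (2 ^ j)⁻¹ := fun u =>
    u.trans (div_le_div_of_nonneg_right j0 (by positivity))
  have v2 : ∀ {x : ℝ}, x ≤ L₀ n / 2 ^ (σ n + m n) → x ≤ L * ((2 ^ σ n)⁻¹ * (2 ^ m n)⁻¹) :=
    fun u => by rw [← mul_inv, ← pow_add]; exact v1 u
  have v3 : ((2 : ℝ) ^ r n)⁻¹ ≤ (2 ^ σ n)⁻¹ * (2 ^ m n)⁻¹ := by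
    rw [← mul_inv, ← pow_add]
    exact inv_anti₀ (by positivity) (pow_le_pow_right₀ one_le_two q2)
  have v4 : ((2 : ℝ) ^ r n)⁻¹ ≤ (2 ^ m n)⁻¹ :=
    inv_anti₀ (by positivity) (pow_le_pow_right₀ one_le_two (by omega))
  have y0 : (0 : ℝ) < 2 ^ m n := by positivity
  have y1 : (0 : ℝ) < 2 ^ σ n := by positivity
  obtain ⟨z1, z2, z3, z4⟩ := key (t := 2 ^ κ n) l (inv_pos.2 y1) (inv_pos.2 y0)
    ((mul_inv_le_iff₀ y0).2 (by linarith))
    ((inv_mul_le_iff₀ y0).2 ((pow_le_pow_right₀ one_le_two q3).trans_eq (mul_one _).symm))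
    (abs_le.2 ⟨by linarith [o.z.1], o.z.2.le⟩) (o.bd.1.trans j0) (o.bd.2.2.1.trans j0)
    (o.bd.2.2.2.2.trans j0) (o.low.trans (by gcongr)) (v2 o.e1) (v2 o'.e1) (v1 o.e2)
    (u2.trans (mul_le_mul j2 (by
      have b1 := abs_le.1 (v1 o.e2)
      have b2 := abs_le.1 (v1 o'.e2)
      have b3 := abs_le.1 (am (o'.bd.2.2.1.trans j0) ((abs_sub_lt_of_fl1_eq e.2.2).le.trans v4))
      rw [eG] at b2
      exact abs_le.2 ⟨by linarith [b1.2, b2.1, b3.1], by linarith [b1.1, b2.2, b3.2]⟩)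
      (abs_nonneg _) (by linarith))) ((U.abs_sub_rd (σ n) _).trans_eq (one_div _))
    (v1 p.near.2.2.1) (v2 p.sl) (v2 p.pos) ((rd2 (r n) _ _).trans (by linarith))
    ((rd2 (r n) _ _).trans (by linarith)) ((inv_le_iff_one_le_mul₀' y1).2 (u1.trans (by
      rw [mul_comm (L₁ n), mul_assoc]; gcongr)))
  rw [tr_eq z1, tr_eq z2, pow_sub₀ _ two_ne_zero q3, pow_add]
  exact ⟨z3.trans_eq (by field_simp), z4.trans_eq (by field_simp)⟩

end Pool.Agent.MP_5168f5_an.R4.Eng
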