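import Pool.Agent.MP_5168f5_an.R4.SpecEn

/-! Case B2 with `u` of weight two: pairs of samples. -/

namespace Pool.Agent.MP_5168f5_an.R4.Eng

open H19 H17S H17F Filter Tan

namespace GEnDA

theorem mb {x y A B : ℝ} (h : |x| ≤ A) (h' : |y| ≤ B) : -(A * B) ≤ x * y ∧ x * y ≤ A * B :=
  abs_le.1 (by rw [abs_mul]; exact mul_le_mul h h' (abs_nonneg _) ((abs_nonneg _).trans h))

theorem parl {L s t ρ a w b e c f z a' w' b' e' c' f' z' U0 U1 U2 H0 H1 H2 τ : ℝ} (l : 1 ≤ L)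
    (r0 : 0 ≤ ρ) (rt : ρ ≤ t) (ts : t ≤ s) (st : s * s ≤ t) (z1 : |z| ≤ 1) (bw : |w'| ≤ L)
    (be : |e'| ≤ L) (bf : |f'| ≤ L) (b0 : |U0| ≤ L) (b2 : |U2| ≤ L) (c0 : |H0| ≤ L)
    (c1 : |H1| ≤ L) (dw : |w - w'| ≤ ρ) (dz : |z - z'| ≤ ρ)
    (p0 : |a + z * w - (a' + z' * w')| ≤ 2 * (L * s))
    (p1 : |b + z * e - (b' + z' * e')| ≤ 2 * (L * s))
    (p2 : |c + z * f - (c' + z' * f')| ≤ 2 * (L * s))
    (u : |b + z * e - U1 - U2 * z - U0 * (a + z * w)| ≤ L * t)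
    (u' : |b' + z' * e' - U1 - U2 * z' - U0 * (a' + z' * w')| ≤ L * t)
    (v : |e - U2 - U0 * w| ≤ 4 * (L * s)) (v' : |e' - U2 - U0 * w'| ≤ 4 * (L * s))
    (h : |f - H2 - (H0 * w + H1 * e)| ≤ 4 * (L * t))
    (h' : |f' - H2 - (H0 * w' + H1 * e')| ≤ 4 * (L * t)) (tt : |U0 - τ| ≤ L * s) :
    (|a - a'| ≤ 21 * (L * (L * s)) ∧ |b - b'| ≤ 21 * (L * (L * s)) ∧
      |e - e'| ≤ 21 * (L * (L * s)) ∧ |c - c'| ≤ 21 * (L * (L * s)) ∧
      |f - f'| ≤ 21 * (L * (L * s))) ∧ |f - f' - H1 * (e - e')| ≤ 21 * (L * (L * t)) ∧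
      |b - b' + z * (e - e') - τ * (a - a')| ≤ 21 * (L * (L * t)) := by
  have l0 : 0 ≤ L := by linarith
  have m0 : ρ ≤ L * ρ := le_mul_of_one_le_left r0 l
  have m1 : L * ρ ≤ L * t := mul_le_mul_of_nonneg_left rt l0
  have m2 : L * t ≤ L * s := mul_le_mul_of_nonneg_left ts l0
  have m3 : L * t ≤ L * (L * t) := le_mul_of_one_le_left (by linarith) l
  have m4 : L * s ≤ L * (L * s) := le_mul_of_one_le_left (by linarith) l
  have m5 : L * (L * ρ) ≤ L * (L * t) := mul_le_mul_of_nonneg_left m1 l0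
  have m6 : L * (L * (s * s)) ≤ L * (L * t) :=
    mul_le_mul_of_nonneg_left (mul_le_mul_of_nonneg_left st l0) l0
  have k1 := mb b0 dw
  have k2 := mb c0 dw
  have k3 := mb z1 dw
  have k4 := mb bw dz
  have k5 := mb be dz
  have k6 := mb bf dz
  have k7 := mb b2 dz
  rw [abs_le] at p0 p1 p2 u u' v v' h h'
  have de : |e - e'| ≤ 9 * (L * s) := abs_le.2 ⟨by linarith, by linarith⟩
  have sl : |f - f' - H1 * (e - e')| ≤ 9 * (L * t) := abs_le.2 ⟨by linarith, by linarith⟩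
  have k8 := mb c1 de
  have k9 := mb z1 de
  have df : |f - f'| ≤ 18 * (L * (L * s)) := by
    rw [abs_le] at sl ⊢; constructor <;> linarith
  have k10 := mb z1 df
  have da : |a - a'| ≤ 4 * (L * s) := abs_le.2 ⟨by linarith, by linarith⟩
  have k11 := mb tt da
  have k12 := mb b0 (abs_le.2 k3)
  have k13 := mb b0 (abs_le.2 k4)
  refine ⟨⟨by linarith, abs_le.2 ⟨by linarith, by linarith⟩, by linarith,
    abs_le.2 ⟨by linarith, by linarith⟩, by linarith⟩, by linarith,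
    abs_le.2 ⟨by linarith, by linarith⟩⟩

theorem two {x y o B : ℝ} (h : |x - o| ≤ B) (h' : |y - o| ≤ B) : |x - y| ≤ 2 * B := by
  rw [abs_le] at *; constructor <;> linarith

theorem anti {i j : ℕ} (h : i ≤ j) : (1 : ℝ) / 2 ^ j ≤ 1 / 2 ^ i :=
  one_div_le_one_div_of_le (by positivity) (pow_le_pow_right₀ one_le_two h)

theorem scj (L : ℝ) (i j : ℕ) : 4 * L * 2 ^ i / 2 ^ (2 * i + j) = 4 * (L * (1 / 2 ^ (i + j))) := by
  rw [show 2 * i + j = i + (i + j) by ring, pow_add]; field_simp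

theorem sc0 (L : ℝ) (i : ℕ) : 4 * L * 2 ^ i / 2 ^ (2 * i) = 4 * (L * (1 / 2 ^ i)) := scj L i 0

end GEnDA

open GEnDA B1 in
theorem rowEnD : EnD := by
  refine ⟨21, 2, by norm_num, fun g D r σ m h k g₀ L ω ω' h1 h2 G G' => ⟨fun o u v w z => ?_,
    fun o u z => ?_⟩⟩
  · obtain ⟨u1, u2⟩ := (kp.iff g _ _ _ _ _ _ _).1 G.u0
    obtain ⟨u1', u2'⟩ := (kp.iff g _ _ _ _ _ _ _).1 G'.u0
    obtain ⟨-, v2⟩ := (kp.iff g _ _ _ _ _ _ _).1 G.h0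
    obtain ⟨-, v2'⟩ := (kp.iff g _ _ _ _ _ _ _).1 G'.h0
    rw [← u] at u1' u2'
    rw [← v] at v2'
    rw [sum0 fun i => (G.u0.2.1 i).2] at u1 u2 u1' u2'
    rw [sum01 fun i => (G.h0.2.1 i).2, scj] at v2 v2'
    rw [sc0] at u2 u2'
    have l0 : 0 ≤ L := zero_le_one.trans G.one
    have q : L / 2 ^ (2 * σ) ≤ L * (1 / 2 ^ (σ + m)) := by
      rw [div_eq_mul_one_div]; exact mul_le_mul_of_nonneg_left (anti (by omega)) l0
    have p : ∀ i, |g.pt ω i - g.pt ω' i| ≤ 2 * (L * (1 / 2 ^ σ)) := fun i => by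
      rw [← div_eq_mul_one_div]; exact two (G.b0 i) (o ▸ G'.b0 i)
    obtain ⟨⟨a1, a2, a3, a4, a5⟩, a6, a7⟩ := parl G.one (by positivity) (anti h2)
      (anti (Nat.le_add_right σ m))
      (by rw [one_div_mul_one_div, ← pow_add]; exact anti (by omega))
      (abs_le.2 ⟨by linarith [G.box.2.1], G.box.2.2.le⟩) (G'.box.1 0).2 (G'.box.1 1).2
      (G'.box.1 2).2 (G.u0.2.1 0).1 G.u0.1 (G.h0.2.1 0).1 (G.h0.2.1 1).1 (U.near_of_fl1 w)
      (U.near_of_fl1 z) (p 0) (p 1) (p 2) (u1.trans q) (u1'.trans q) u2 u2' v2 v2'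
      (G.tt.trans_eq (div_eq_mul_one_div _ _))
    have e : ∀ j : ℕ, 21 * (L * (L * (1 / 2 ^ j))) = 21 * L ^ 2 / 2 ^ j := fun j => by ring
    rw [e] at a1 a2 a3 a4 a5 a6 a7
    exact ⟨⟨a1, a2, a3, a4, a5⟩, a6, a7⟩
  · obtain ⟨-, u2⟩ := (kp.iff g _ _ _ _ _ _ _).1 G.u1
    obtain ⟨-, u2'⟩ := (kp.iff g _ _ _ _ _ _ _).1 G'.u1
    rw [← u] at u2'
    rw [sum0 fun i => (G.u1.2.1 i).2, sc0] at u2 u2'
    have l := G.one
    have dz := U.near_of_fl1 z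
    have p : |g.a ω 0 + g.z ω * g.e ω 0 - (g.a ω' 0 + g.z ω' * g.e ω' 0)| ≤ 2 * (L / 2 ^ r) :=
      two (G.b1 0) (o ▸ G'.b1 0)
    have k1 := mb (G.box.1 0).2 dz
    have m0 : (1 : ℝ) / 2 ^ r ≤ L * (1 / 2 ^ r) := le_mul_of_one_le_left (by positivity) l
    have m1 : L * (1 / 2 ^ r) ≤ L * (1 / 2 ^ (σ + m)) :=
      mul_le_mul_of_nonneg_left (anti h2) (by linarith)
    have m2 : L * (1 / 2 ^ (σ + m)) ≤ L * (L * (1 / 2 ^ (σ + m))) :=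
      le_mul_of_one_le_left (by positivity) l
    have m3 : (0 : ℝ) ≤ 1 / 2 ^ r := by positivity
    have e : 21 * L ^ 2 / 2 ^ (σ + m) = 21 * (L * (L * (1 / 2 ^ (σ + m)))) := by ring
    rw [div_eq_mul_one_div, abs_le] at p
    rw [abs_le] at u2 u2'
    refine ⟨?_, ?_, dz.trans (by linarith)⟩ <;> simp only [mk] <;> rw [abs_le] <;>
      constructor <;> linarith

end Pool.Agent.MP_5168f5_an.R4.Eng
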