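import Pool.Agent.MP_5168f5_an.R4.SpecA
import Pool.Agent.MP_5168f5_an.R4.Api

/-! Three copies given a label have independent directions: the abstract part. -/

namespace Pool.Agent.MP_5168f5_an.R4

open H19 H17S H17F Filter Web

/-- Data attached to a label by a conditionally independent coupling carry no new information. -/
theorem mi_cop {W Ω D Λ α γ : Type} {Q : FP W} {P : FP Ω} {ψ : W → Λ} {lam : Ω → Λ}
    (h : Law Q ψ P lam) (f : W → D) (F : Ω → α) (K : Ω → γ) :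
    mi (glue Q P ψ lam) (fun v => (f v.1, lam v.2)) (fun v => F v.2) (fun v => K v.2) =
      mi P lam F K := by
  rw [mi_symm, mi_symm lam]
  unfold mi
  rw [(kg.snd Q P ψ lam h).ch_id F K,
    ← kg.mkv Q P ψ lam F K (fun x => (f x, ψ x)) h (Fn.snd _ _)]
  congr 1
  exact ch_ext (fun _ _ => rfl) fun v hv => by
    simp only [((kg.mem Q P ψ lam v h).1 hv).2.2]

/-- Data attached to a label give a label. -/
theorem Lab.cop {N : ℕ} {W Ω D Λ : ℕ → Type} {Q : ∀ n, FP (W n)} {P : ∀ n, FP (Ω n)}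
    {g : Gs N Ω} {m j : ℕ → ℕ} {ψ : ∀ n, W n → Λ n} {lam : ∀ n, Ω n → Λ n}
    (h : Lab P g m j lam) (e : ∀ n, Law (Q n) (ψ n) (P n) (lam n)) (f : ∀ n, W n → D n) :
    Lab (fun n => glue (Q n) (P n) (ψ n) (lam n)) (fun n => (g n).pull Prod.snd) m j
      fun n v => (f n v.1, lam n v.2) :=
  ⟨h.h.mono (Eventually.of_forall fun n =>
      (mi_cop (e n) (f n) (g n).core ((g n).win (j n))).le),
    h.l.mono (Eventually.of_forall fun n => (mi_cop (e n) (f n) (g n).core (g n).y).le)⟩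

/-- Labels pass to refinements of bounded density. -/
theorem Lab.dn {N : ℕ} {W Ω Λ : ℕ → Type} {Q : ∀ n, FP (W n)} {P : ∀ n, FP (Ω n)}
    {g : Gs N Ω} {m j : ℕ → ℕ} {lam : ∀ n, Ω n → Λ n} {f : ∀ n, W n → Ω n}
    (h : Lab P g m j lam) (hm : Big m) (e : K31.DnS Q f P) :
    Lab Q (fun n => (g n).pull (f n)) m j fun n v => lam n (f n v) :=
  ⟨e.sm_mi hm (F := lam) (G := fun n => (g n).core) (K := fun n => (g n).win (j n)) h.h,
    e.sm_mi hm (F := lam) (G := fun n => (g n).core) (K := fun n => (g n).y) h.l⟩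

theorem law_g2 {Ω T : Type} (P : FP Ω) (S : Ω → T) : Law (glue P P S S) (fun v => S v.1) P S :=
  (kg.fst P P S S).comp S

theorem law_g3 {Ω T : Type} (P : FP Ω) (S : Ω → T) : Law (G3 P S) Prod.snd P id :=
  kg.snd _ _ _ _ (law_g2 P S)

section

variable {Ω Λ : ℕ → Type} {P : ∀ n, FP (Ω n)} {E : ∀ n, Ω n → Prop} (lam : ∀ n, Ω n → Λ n)

theorem whp_fst (h : Whp P E) :
    Whp (fun n => glue (P n) (P n) (lam n) (lam n)) fun n v => E n v.1 :=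
  (K31.dnS_law (Eventually.of_forall fun n => kg.fst (P n) (P n) (lam n) (lam n))).whp h

theorem whp_snd (h : Whp P E) :
    Whp (fun n => glue (P n) (P n) (lam n) (lam n)) fun n v => E n v.2 :=
  (K31.dnS_law (Eventually.of_forall fun n =>
    kg.snd (P n) (P n) (lam n) (lam n) (Law.rfl _))).whp h

theorem whp_g12 {F : ∀ n, Ω n × Ω n → Prop}
    (h : Whp (fun n => glue (P n) (P n) (lam n) (lam n)) F) :
    Whp (fun n => G3 (P n) (lam n)) fun n v => F n v.1 :=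
  (K31.dnS_law (Eventually.of_forall fun n => kg.fst (glue (P n) (P n) (lam n) (lam n)) (P n)
    (fun v => lam n v.1) (lam n))).whp h

theorem whp_g3 (h : Whp P E) : Whp (fun n => G3 (P n) (lam n)) fun n v => E n v.2 :=
  (K31.dnS_law (Eventually.of_forall fun n => law_g3 (P n) (lam n))).whp h

end

theorem det3_eq (w₁ b₁ w₂ b₂ w₃ b₃ : ℝ) : det3 ![1, w₁, b₁] ![1, w₂, b₂] ![1, w₃, b₃] =
    (w₂ - w₁) * (b₃ - b₁) - (w₃ - w₁) * (b₂ - b₁) := by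
  simp [det3, Matrix.det_fin_three]; ring

theorem Frac.floor_le {M : ℕ → ℕ} {c : ℝ} (hc : 0 ≤ c) (n : ℕ) :
    (2 : ℝ) ^ ⌊c * M n⌋₊ ≤ Real.exp (c * M n) :=
  (two_pow_le_exp _).trans (Real.exp_le_exp.2 (Nat.floor_le (by positivity)))

theorem cp3_alg {w₁ b₁ w₂ b₂ w₃ b₃ L₀ L₁ T : ℝ} (l0 : 1 ≤ L₀) (l1 : 1 ≤ L₁) (x1 : |w₁| ≤ L₀)
    (y1 : |b₁| ≤ L₀) (y2 : |b₂| ≤ L₀) (s : 1 ≤ L₁ * |w₁ - w₂|) (hT : 0 < T)
    (a : T * |det3 ![1, w₁, b₁] ![1, w₂, b₂] ![1, w₃, b₃]| ≤ 1) :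
    |b₁ - (b₂ - b₁) / (w₂ - w₁) * w₁| ≤ 3 * (L₀ * L₀ * L₁) ∧
      |(b₂ - b₁) / (w₂ - w₁)| ≤ 3 * (L₀ * L₀ * L₁) ∧
      |b₃ - (b₁ - (b₂ - b₁) / (w₂ - w₁) * w₁) - (b₂ - b₁) / (w₂ - w₁) * w₃| ≤
        3 * (L₀ * L₀ * L₁) / T := by
  rw [det3_eq] at a
  rw [abs_sub_comm] at s
  have s0 : 0 < |w₂ - w₁| := 
    (pos_iff_pos_of_mul_pos (one_pos.trans_le s)).1 (by positivity)
  have q : ∀ {x B : ℝ}, |x| ≤ B → |x / (w₂ - w₁)| ≤ B * L₁ := fun {x B} h => by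
    rw [abs_div, div_le_iff₀ s0, mul_assoc]
    exact h.trans (le_mul_of_one_le_right ((abs_nonneg _).trans h) s)
  have e1 : |b₂ - b₁| ≤ 2 * L₀ := (abs_sub _ _).trans (by linarith)
  have e2 := q e1
  have u1 : L₀ * L₁ ≤ L₀ * L₀ * L₁ := by
    rw [mul_assoc]; exact le_mul_of_one_le_left (by positivity) l0
  have u2 : L₀ ≤ L₀ * L₁ := le_mul_of_one_le_right (by positivity) l1
  have u3 : L₁ ≤ L₀ * L₁ := le_mul_of_one_le_left (by positivity) l0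
  refine ⟨(abs_sub _ _).trans ?_, by linarith, ?_⟩
  · rw [abs_mul]
    have := mul_le_mul e2 x1 (abs_nonneg _) (by positivity)
    linarith
  · have e4 := q ((le_div_iff₀' hT).2 a)
    have w0 := abs_pos.1 s0
    refine le_trans (le_of_eq (congrArg _ (by field_simp; ring))) (e4.trans ?_)
    rw [one_div_mul_eq_div]
    exact div_le_div_of_nonneg_right (by linarith) hT.le

/-- If no plane attached to the label contains the direction, three copies are independent. -/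
theorem cp3_abs {Ω Λ : ℕ → Type} (P : ∀ n, FP (Ω n)) (lam : ∀ n, Ω n → Λ n)
    (w b : ∀ n, Ω n → ℝ) {M : ℕ → ℕ} {L₀ L₁ : ℕ → ℝ} (hM : Big M) (h₀ : Sub M L₀) (h₁ : Sub M L₁)
    (bd : Whp P fun n ω => |w n ω| ≤ L₀ n ∧ |b n ω| ≤ L₀ n)
    (sp : Whp (fun n => glue (P n) (P n) (lam n) (lam n)) fun n v =>
      1 ≤ L₁ n * |w n v.1 - w n v.2|)
    (ng : ∀ (κ : ℕ → ℕ) (L : ℕ → ℝ) (d : ∀ n, Ω n × Ω n → ℝ × ℝ), Frac κ M → Sub M L →
      ¬Pos (fun n => G3 (P n) (lam n)) fun n v => |(d n v.1).1| ≤ L n ∧ |(d n v.1).2| ≤ L n ∧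
        |b n v.2 - (d n v.1).1 - (d n v.1).2 * w n v.2| ≤ L n / 2 ^ κ n) :
    ∃ L, Sub M L ∧ Whp (fun n => G3 (P n) (lam n)) fun n v => 1 ≤ L n *
      |det3 ![1, w n v.1.1, b n v.1.1] ![1, w n v.1.2, b n v.1.2] ![1, w n v.2, b n v.2]| := by
  refine ks.wsub (fun n => G3 (P n) (lam n)) (fun n v L => 1 ≤ L * |det3 ![1, w n v.1.1, b n v.1.1]
    ![1, w n v.1.2, b n v.1.2] ![1, w n v.2, b n v.2]|) M fun c c0 c1 => by_contra fun k => ?_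
  have p0 := whp_g12 lam (((whp_fst lam bd).and (whp_snd lam bd)).and sp)
  have p1 := (not_whp k).and p0
  have p2 := ng (fun n => ⌊c * M n⌋₊) (fun n => 3 * (L₀ n * L₀ n * L₁ n)) (fun n v =>
    (b n v.1 - (b n v.2 - b n v.1) / (w n v.2 - w n v.1) * w n v.1,
      (b n v.2 - b n v.1) / (w n v.2 - w n v.1))) (hM.frac_floor c0 c1)
    (((h₀.mul h₀).mul h₁).const_mul hM (by norm_num))
  refine p2 (p1.mono (Eventually.of_forall fun n v _ h => ?_))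
  obtain ⟨a, ⟨⟨x1, y1⟩, -, y2⟩, s⟩ := h
  exact cp3_alg (h₀.1 n) (h₁.1 n) x1 y1 y2 s (by positivity) ((mul_le_mul_of_nonneg_right
    (Frac.floor_le c0.le n) (abs_nonneg _)).trans (not_le.1 a).le)

/-- A small change of the directions. -/
theorem det3_near {w₁ b₁ w₂ b₂ w₃ b₃ w₁' b₁' w₂' b₂' w₃' b₃' L δ : ℝ} (hL : 1 ≤ L) (hδ : δ ≤ 1)
    (h₁ : |w₁| ≤ L ∧ |b₁| ≤ L) (h₂ : |w₂| ≤ L ∧ |b₂| ≤ L) (h₃ : |w₃| ≤ L ∧ |b₃| ≤ L)
    (e₁ : |w₁' - w₁| ≤ δ ∧ |b₁' - b₁| ≤ δ) (e₂ : |w₂' - w₂| ≤ δ ∧ |b₂' - b₂| ≤ δ)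
    (e₃ : |w₃' - w₃| ≤ δ ∧ |b₃' - b₃| ≤ δ) :
    |det3 ![1, w₁', b₁'] ![1, w₂', b₂'] ![1, w₃', b₃'] -
      det3 ![1, w₁, b₁] ![1, w₂, b₂] ![1, w₃, b₃]| ≤ 24 * L * δ := by
  have d0 : 0 ≤ δ := (abs_nonneg _).trans e₁.1
  have m : ∀ {a b x y : ℝ}, |a| ≤ x → |b| ≤ y → |a * b| ≤ x * y := fun h h' => by
    rw [abs_mul]; exact mul_le_mul h h' (abs_nonneg _) ((abs_nonneg _).trans h)
  have s : ∀ {a b x : ℝ}, |a| ≤ x → |b| ≤ x → |a - b| ≤ 2 * x := fun h h' =>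
    (abs_sub _ _).trans (by linarith)
  have k : ∀ {A B a b : ℝ}, |A| ≤ 2 * L → |B| ≤ 2 * L → |a| ≤ 2 * δ → |b| ≤ 2 * δ →
      |A * b + a * B + a * b| ≤ 12 * L * δ := fun hA hB ha hb => by
    have k1 := abs_le.1 (m hA hb)
    have k2 := abs_le.1 (m ha hB)
    have k3 := abs_le.1 (m (ha.trans (by linarith : 2 * δ ≤ 2 * L)) hb)
    exact abs_le.2 ⟨by linarith, by linarith⟩
  have k1 := abs_le.1 (k (s h₂.1 h₁.1) (s h₃.2 h₁.2) (s e₂.1 e₁.1) (s e₃.2 e₁.2))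
  have k2 := abs_le.1 (k (s h₃.1 h₁.1) (s h₂.2 h₁.2) (s e₃.1 e₁.1) (s e₂.2 e₁.2))
  rw [det3_eq, det3_eq]
  exact abs_le.2 ⟨by linarith, by linarith⟩

theorem abs_rd_sub (R : ℕ) (x : ℝ) : |rd R x - x| ≤ 1 / 2 ^ R := by
  have h := abs_fl1_sub R x
  rw [le_div_iff₀ (by positivity), ← abs_of_pos (show (0 : ℝ) < 2 ^ R by positivity), ← abs_mul]
  refine le_trans (le_of_eq (congrArg _ ?_)) h
  unfold rd; field_simp

/-- `L ≤ 2^R` when `R` is at least a fixed fraction of the unit. -/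
theorem Sub.le_pow {M R : ℕ → ℕ} {L : ℕ → ℝ} (h : Sub M L) {c : ℝ} (hc : 0 < c)
    (e : ∀ᶠ n in UF, c * M n ≤ R n) : ∀ᶠ n in UF, L n ≤ 2 ^ R n := by
  filter_upwards [h.2 _ (half_pos hc), e] with n a b
  exact a.trans ((Real.exp_le_exp.2 (by linarith)).trans (exp_le_two_pow _))

/-- The rounded directions of three copies. -/
theorem cp3_rd {Ω Λ : ℕ → Type} (P : ∀ n, FP (Ω n)) (lam : ∀ n, Ω n → Λ n)
    (w b : ∀ n, Ω n → ℝ) {M R : ℕ → ℕ} {L₀ L : ℕ → ℝ} {c : ℝ} (hM : Big M) (h₀ : Sub M L₀)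
    (hL : Sub M L) (hc : 0 < c) (hR : ∀ᶠ n in UF, c * M n ≤ R n)
    (bd : Whp P fun n ω => |w n ω| ≤ L₀ n ∧ |b n ω| ≤ L₀ n)
    (h : Whp (fun n => G3 (P n) (lam n)) fun n v => 1 ≤ L n *
      |det3 ![1, w n v.1.1, b n v.1.1] ![1, w n v.1.2, b n v.1.2] ![1, w n v.2, b n v.2]|) :
    Whp (fun n => G3 (P n) (lam n)) fun n v => 1 ≤ 2 * L n *
      |det3 ![1, rd (R n) (w n v.1.1), rd (R n) (b n v.1.1)]
        ![1, rd (R n) (w n v.1.2), rd (R n) (b n v.1.2)]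
        ![1, rd (R n) (w n v.2), rd (R n) (b n v.2)]| := by
  refine (h.and ((whp_g12 lam (whp_fst lam bd)).and ((whp_g12 lam (whp_snd lam bd)).and
    (whp_g3 lam bd)))).mono ?_
  filter_upwards [Sub.le_pow ((hL.mul h₀).const_mul hM (by norm_num : (1 : ℝ) ≤ 48)) hc hR]
    with n e v _ ⟨a, x1, x2, x3⟩
  have k := det3_near (h₀.1 n) (δ := 1 / 2 ^ R n)
    ((div_le_one (by positivity)).2 (one_le_pow₀ one_le_two)) x1 x2 x3
    ⟨abs_rd_sub _ _, abs_rd_sub _ _⟩ ⟨abs_rd_sub _ _, abs_rd_sub _ _⟩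
    ⟨abs_rd_sub _ _, abs_rd_sub _ _⟩
  have k1 := (abs_sub_abs_le_abs_sub _ _).trans ((abs_sub_comm _ _).trans_le k)
  have k2 := mul_le_mul_of_nonneg_left k1 (hL.pos n).le
  have k3 : L n * (24 * L₀ n * (1 / 2 ^ R n)) ≤ 1 / 2 := by
    rw [mul_one_div, ← mul_div_assoc, div_le_iff₀ (by positivity)]; linarith
  linarith

end Pool.Agent.MP_5168f5_an.R4
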