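import Pool.Agent.MP_5168f5_an.R4.SpecC
import Pool.Agent.MP_5168f5_an.R4.NCp3

/-! A covector without leak that kills the direction is small. -/

namespace Pool.Agent.MP_5168f5_an.R4.CI

open H19 H17S H17F Filter NCx Tan

namespace RevKA

theorem alg {a b w w' ε L₀ L₁ : ℝ} (l0 : 1 ≤ L₀) (l1 : 1 ≤ L₁) (h : |a + b * w| ≤ ε)
    (h' : |a + b * w'| ≤ ε) (s : 1 ≤ L₁ * |w - w'|) (x : |w| ≤ L₀) :
    |a| ≤ 3 * (L₀ * L₁) * ε ∧ |b| ≤ 3 * (L₀ * L₁) * ε := by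
  have e0 : 0 ≤ ε := (abs_nonneg _).trans h
  have h1 : |b| * |w - w'| ≤ 2 * ε := by
    rw [← abs_mul, show b * (w - w') = a + b * w - (a + b * w') by ring]
    linarith [abs_sub (a + b * w) (a + b * w')]
  have h2 : |b| ≤ 2 * L₁ * ε := by
    have h3 := mul_le_mul_of_nonneg_left s (abs_nonneg b)
    have h4 := mul_le_mul_of_nonneg_left h1 (show 0 ≤ L₁ by linarith)
    nlinarith
  have h5 : |a| ≤ ε + |b| * L₀ := by
    have h6 := abs_sub (a + b * w) (b * w)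
    rw [add_sub_cancel_right, abs_mul] at h6
    linarith [mul_le_mul_of_nonneg_left x (abs_nonneg b)]
  have h7 := mul_le_mul_of_nonneg_right h2 (show 0 ≤ L₀ by linarith)
  have h8 : ε ≤ L₀ * L₁ * ε := le_mul_of_one_le_left e0 (one_le_mul_of_one_le_of_one_le l0 l1)
  have h9 : L₁ * ε ≤ L₀ * (L₁ * ε) := le_mul_of_one_le_left (by positivity) l0
  constructor <;> nlinarith

end RevKA

open RevKA in
theorem rowRevK : RevK := by
  intro N Ω Φ K g M i η X φ c ε hc hX hl hf hw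
  obtain ⟨L₁, s1, w1⟩ := sep K g M i η X φ hc hX hl
  obtain ⟨L₀, s0, b0⟩ := (hc.bs X hX).bx
  refine ⟨_, (s0.mul s1).const_mul (hc.bs X hX).big (C := 3) (by norm_num), fun δ hδ => ?_⟩
  have w : Whp (fun n => glue (X n).Q (X n).Q (φ n) (φ n)) fun n v =>
      |(c n v.1).1| ≤ 3 * (L₀ n * L₁ n) * ε n ∧ |(c n v.1).2| ≤ 3 * (L₀ n * L₁ n) * ε n :=
    ((w1.and (whp_fst φ hw)).and (whp_snd φ hw)).mono
      ((hf.and b0).mono fun n a v hv ⟨⟨k, k1⟩, k2⟩ => by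
        obtain ⟨m1, m2, m3⟩ := (kg.mem _ _ _ _ v (Law.rfl _)).1 hv
        rw [a.1 _ m2 _ m1 m3] at k2
        exact alg (s0.1 n) (s1.1 n) k1 k2 k ((a.2.bd _ m1).1 i).2)
  refine (w δ hδ).mono fun n a => le_of_eq_of_le ?_ a
  exact ((kg.fst (X n).Q (X n).Q (φ n) (φ n)).pb_eq fun v =>
    ¬(|(c n v).1| ≤ 3 * (L₀ n * L₁ n) * ε n ∧ |(c n v).2| ≤ 3 * (L₀ n * L₁ n) * ε n)).symm

end Pool.Agent.MP_5168f5_an.R4.CI
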