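import Pool.Agent.MP_5168f5_an.R4.SpecEn
import Pool.Agent.MP_5168f5_an.R4.CRevK

/-! The cells are good with high probability. -/

namespace Pool.Agent.MP_5168f5_an.R4.Eng

open H19 H17S H17F Filter Tan

namespace GEnGA

theorem slope {Ω : Type} {g : Geo 3 Ω} {L : ℝ} {d : ℝ × ℝ × V 3} {ω : Ω} {a b : ℕ}
    (h : (g.pl {0} 1).fit L d ω a (2 * a)) (e : b ≤ a) :
    |g.e ω 1 - d.2.1 - d.2.2 0 * g.e ω 0| ≤ 4 * L / 2 ^ b := by
  have v := ((kp.iff g {0} 1 L d ω a (2 * a)).1 h).2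
  rw [B1.sum0 fun i => (h.2.1 i).2, two_mul, pow_add, mul_div_mul_right _ _ (by positivity)] at v
  have l0 : 0 ≤ L := (abs_nonneg _).trans h.1
  exact v.trans (div_le_div_of_nonneg_left (by positivity) (by positivity)
    (pow_le_pow_right₀ one_le_two e))

end GEnGA

open GEnGA in
theorem rowEnG : EnG := by
  intro Ω K g M mm D η d ε₀ X r σ m h hd hX hr hl
  have c := h.com X hX
  have hM := h.toTn.big
  have oσ : OM M σ := hr.mono (Eventually.of_forall fun n => (hl n).1)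
  obtain ⟨L0, s0, b0⟩ := h.toTn.bx hX
  obtain ⟨L1, s1, w1⟩ := c.cellU σ (fun n => 2 * σ n) oσ
    (Eventually.of_forall fun n => by push_cast; exact le_rfl)
  obtain ⟨L2, s2, w2⟩ := c.cellU r (fun n => 2 * r n) hr
    (Eventually.of_forall fun n => by push_cast; exact le_rfl)
  obtain ⟨L3, s3, w3⟩ := (h.fl X hX).cellH hd.le σ (fun n => 2 * σ n + m n) oσ
    (Eventually.of_forall fun n => by push_cast; linarith [(hl n).2])
  obtain ⟨L4, s4, w4⟩ := c.ball σ oσ
  obtain ⟨L5, s5, w5⟩ := c.ball r hr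
  obtain ⟨L6, s6, w6⟩ := CI.rowRevK K g mm 0 η X (fun n => (mD X D n).S (r n))
    (fun n v => (((mD X D n).U (σ n) v).2.1 - ((mD X D n).U (r n) v).2.1,
      ((mD X D n).U (σ n) v).2.2 0 - ((mD X D n).U (r n) v).2.2 0))
    (fun n => (4 * L1 n + 4 * L2 n) / 2 ^ σ n) h.low hX (c.lab r hr).l
    (c.nest.mono fun n a u hu v hv e => by
      have e1 : (mD X D n).U (r n) u = (mD X D n).U (r n) v :=
        congrArg (·.2.2.2.1) ((a.2 (r n)).2 u hu v hv e)
      have e2 : (mD X D n).U (σ n) u = (mD X D n).U (σ n) v :=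
        congrArg (·.2.2.2.1) ((a.2 (σ n)).2 u hu v hv
          (B1.nest_le (fun j => (a.2 j).1) (hl n).1 u hu v hv e))
      exact congrArg₂ (fun p q : ℝ × ℝ × V 3 => (p.2.1 - q.2.1, p.2.2 0 - q.2.2 0)) e2 e1)
    ((w1.and w2).mono (Eventually.of_forall fun n v _ a => by
      have a1 := abs_le.1 (slope a.1 le_rfl)
      have a2 := abs_le.1 (slope a.2 (hl n).1)
      rw [add_div, abs_le]
      constructor <;> linarith [a1.1, a1.2, a2.1, a2.2]))
  have s7 := (sub_up h.sm s6).mul ((s1.const_mul hM (C := 4) (by norm_num)).add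
    (s2.const_mul hM (C := 4) (by norm_num)) hM)
  have sL := (((((s0.add s1 hM).add s2 hM).add s3 hM).add s4 hM).add s5 hM).add s7 hM
  refine ⟨_, sL, (((((w1.and w2).and w3).and w4).and w5).and w6).mono
    (b0.mono fun n b v hv ⟨⟨⟨⟨⟨a1, a2⟩, a3⟩, a4⟩, a5⟩, a6⟩ => ?_)⟩
  have p0 := s0.pos n
  have p1 := s1.pos n
  have p2 := s2.pos n
  have p3 := s3.pos n
  have p4 := s4.pos n
  have p5 := s5.pos n
  have p7 := s7.pos n
  refine ⟨sL.1 n, ⟨fun i => ⟨((b.bd v hv).1 i).1.trans (by linarith),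
    ((b.bd v hv).1 i).2.trans (by linarith)⟩, (b.bd v hv).2⟩,
    (kp.ok _ _ _).monoL _ _ _ _ _ _ (by linarith) a1,
    (kp.ok _ _ _).monoL _ _ _ _ _ _ (by linarith) a2,
    (kp.ok _ _ _).monoL _ _ _ _ _ _ (by linarith) a3,
    fun i => (a4 i).trans (div_le_div_of_nonneg_right (by linarith) (by positivity)),
    fun i => (a5 i).trans (div_le_div_of_nonneg_right (by linarith) (by positivity)),
    a6.2.trans ?_⟩
  rw [← mul_div_assoc]
  exact div_le_div_of_nonneg_right (by linarith) (by positivity)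

end Pool.Agent.MP_5168f5_an.R4.Eng
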