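import Pool.Agent.MP_5168f5_an.R4.SpecEn

/-! The cell and the direction determine the slope. -/

namespace Pool.Agent.MP_5168f5_an.R4.Eng

open H19 H17S H17F Filter Tan B1

namespace GFin1A

theorem drop {Ω : Type} (P : FP Ω) (D : Ev Ω) (r q : ℕ) :
    ch P (fun ω => fl1 q (D.e ω)) (fun ω => (D.S ω, fl1 r (D.w ω))) ≤
      ch (D.Q1 r P) (fun v => fl1 q (D.e v.2)) (fun v => v.1) +
        mi P (fun ω => fl1 r (D.z ω)) D.ln D.S := by
  have h1 := kg.mk1 P P (D.p1 r) (D.p1 r) (fun ω => fl1 q (D.e ω)) id (Law.rfl _) (Fn.comp _ id)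
  have h2 := ch_le_mi (P := P) (F := fun ω => fl1 q (D.e ω)) (G := fun ω => fl1 r (D.z ω))
    (K := fun ω => (D.S ω, fl1 r (D.w ω))) (K' := D.p1 r) fun u _ v _ e => by
      simp only [Ev.p1, Prod.mk.injEq] at e ⊢
      exact ⟨e.2.1, e.2.2, e.1⟩
  have h3 : mi P (fun ω => fl1 q (D.e ω)) (fun ω => fl1 r (D.z ω))
      (fun ω => (D.S ω, fl1 r (D.w ω))) ≤ mi P D.ln (fun ω => fl1 r (D.z ω)) D.S := by
    refine mi_left (Fn.fst _ _) (fun u _ v _ e => ?_) fun u _ v _ e => ?_ <;>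
      simp only [Ev.ln, Prod.mk.injEq] at e ⊢
    · exact ⟨e.2, by rw [e.1.2.1]⟩
    · rw [e.1.2.2.2.1]
  rw [mi_symm D.ln] at h3
  exact h2.trans (add_le_add h1.ge h3)

end GFin1A

theorem rowFin1 : OfFin1 := by
  intro hK Ω P D r σ m κ L h
  obtain ⟨L', s, w⟩ := hK P D r σ m κ L h
  have k := ND.near (P := fun n => (D n).Q1 (r n) (P n)) (G := fun n v => v.1)
    (x := fun n v => (D n).e v.2) (c := fun n v => (D n).e v.1)
    (j := fun n => σ n + (m n - κ n)) h.big (h.sub.add s h.big)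
    ⟨1, Eventually.of_forall fun n => by have := h.lev n; dsimp only; omega⟩
    (h.alg.mono fun n a => ⟨Fn.comp _ _, fun v hv =>
      (a.2.2.1 _ ((kg.mem _ _ _ _ v (Law.rfl _)).1 hv).2.1).ln.2.2.2.1.trans
        (le_add_of_nonneg_right (s.pos n).le)⟩)
    (w.mono (Eventually.of_forall fun n v _ u => (abs_sub_comm _ _).trans_le (u.trans
      (div_le_div_of_nonneg_right (le_add_of_nonneg_left (h.sub.pos n).le) (by positivity)))))
  exact (Sm.add k h.inf).mono (Eventually.of_forall fun n => GFin1A.drop _ _ _ _)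

end Pool.Agent.MP_5168f5_an.R4.Eng
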