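import Pool.Agent.MP_5168f5_an.R4.SpecEn

/-! Case B2 with `u` of weight two: the height of the line of the fan is full. -/

namespace Pool.Agent.MP_5168f5_an.R4.Eng

open H19 H17S H17F Filter Tan B1

namespace GFuPA

/-- Side information that is independent of the digits of a full number. -/
theorem fu_add {Ω A B T : ℕ → Type} {P : ∀ n, FP (Ω n)} {l : ∀ n, Ω n → A n} {z : ∀ n, Ω n → ℝ}
    {M : ℕ → ℕ} {X : ∀ n, Ω n → B n} {K : ∀ n, Ω n → T n} (h : Fu P l z M)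
    (e : ∀ n, Fn (P n) (fun ω => (fl1 (M n) (z n ω), l n ω)) (K n))
    (k : Le M (fun n => ch (P n) (X n) (l n)) fun n => ch (P n) (X n) (K n)) :
    Fu P (fun n ω => (X n ω, l n ω)) z M :=
  ⟨h.big, h.box, h.full.of2 k (Eventually.of_forall fun n => by
    have h1 := ch_symm (P := P n) (fun ω => fl1 (M n) (z n ω)) (X n) (l n)
    have h2 := ch_anti (F := X n) (e n)
    linarith)⟩

section One

variable {Ω : Type} (P : FP Ω) (D : Ev Ω) (r σ : ℕ)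

theorem l0 : Law (D.Q1 r P) (fun v => D.p2 σ v.1) P (D.p2 σ) := (kg.fst P P _ _).comp (D.p2 σ)

theorem l1 : Law (D.Q2 r σ P) Prod.fst (D.Q1 r P) id := kg.fst _ _ _ _

theorem l2 : Law (D.Q2 r σ P) Prod.snd P id := kg.snd _ _ _ _ (l0 P D r σ)

theorem l11 : Law (D.Q2 r σ P) (fun v => v.1.1) P id :=
  ((l1 P D r σ).comp Prod.fst).trans (kg.fst P P _ _)

theorem l12 : Law (D.Q2 r σ P) (fun v => v.1.2) P id :=
  ((l1 P D r σ).comp Prod.snd).trans (kg.snd P P _ _ (Law.rfl _))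

variable {P D r σ}

theorem mem {v : (Ω × Ω) × Ω} (h : v ∈ (D.Q2 r σ P).S) : v.1.1 ∈ P.S ∧ v.1.2 ∈ P.S ∧ v.2 ∈ P.S ∧
    D.p1 r v.1.2 = D.p1 r v.1.1 ∧ D.p2 σ v.2 = D.p2 σ v.1.1 := by
  obtain ⟨a, b, c⟩ := (kg.mem _ _ _ _ v (l0 P D r σ)).1 h
  obtain ⟨d, e, f⟩ := (kg.mem _ _ _ _ v.1 (Law.rfl _)).1 a
  exact ⟨d, e, b, f, c⟩

/-- The context is shared by the three lines. -/
theorem th (h1 : Fn P (fun ω => (D.θ ω, D.G ω)) D.S) (h2 : Fn P (fun ω => (D.S ω, D.τ ω)) D.S')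
    {v : (Ω × Ω) × Ω} (h : v ∈ (D.Q2 r σ P).S) : D.θ v.1.1 = D.θ v.2 ∧ D.θ v.1.2 = D.θ v.2 := by
  obtain ⟨a, b, c, d, e⟩ := mem h
  have u := congrArg Prod.fst (h1 _ c _ a (congrArg Prod.fst (h2 _ c _ a (congrArg Prod.fst e))))
  have w := congrArg Prod.fst (h1 _ b _ a (congrArg Prod.fst d))
  exact ⟨u.symm, w.trans u.symm⟩

/-- The positions of the three lines are close. -/
theorem pos {m κ : ℕ} {L : ℝ} (hL : 1 ≤ L) (h1 : ∀ ω ∈ P.S, D.One σ m κ L ω)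
    (h2 : ∀ ω ∈ P.S, ∀ ω' ∈ P.S, (D.p1 r ω = D.p1 r ω' → D.Par σ m L ω ω') ∧
      (D.S' ω = D.S' ω' → D.Fan σ m L ω ω')) {v : (Ω × Ω) × Ω} (h : v ∈ (D.Q2 r σ P).S) :
    |D.a v.1.1 - D.a v.2| ≤ 2 * L / 2 ^ σ ∧ |D.a v.1.2 - D.a v.2| ≤ 3 * L / 2 ^ σ := by
  obtain ⟨a, b, c, d, e⟩ := mem h
  have u1 := ((h2 _ b _ a).1 d).near.1
  have u2 := ((h2 _ a _ c).2 (congrArg Prod.fst e).symm).pos.trans
    (U.div_pow_le (zero_le_one.trans hL) (Nat.le_add_right σ m))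
  have u3 := (abs_sub_lt_of_fl1_eq (congrArg Prod.snd e).symm).le
  have u4 : |D.z v.2| ≤ 1 := abs_le.2 ⟨by linarith [(h1 _ c).z.1], (h1 _ c).z.2.le⟩
  have u5 := mul_le_mul u4 u3 (abs_nonneg _) zero_le_one
  have u6 : ((2 : ℝ) ^ σ)⁻¹ ≤ L / 2 ^ σ := by
    rw [← one_div]; exact div_le_div_of_nonneg_right hL (by positivity)
  rw [← abs_mul] at u5
  have u7 := abs_sub (D.a v.1.1 - D.a v.2 + D.z v.2 * (D.w v.1.1 - D.w v.2))
    (D.z v.2 * (D.w v.1.1 - D.w v.2))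
  rw [add_sub_cancel_right] at u7
  have u8 := abs_sub_le (D.a v.1.2) (D.a v.1.1) (D.a v.2)
  rw [mul_div_assoc, mul_div_assoc]
  constructor <;> linarith

/-- The direction of the first line says little on the height of the line of the fan. -/
theorem dir (h0 : σ ≤ r) (h1 : Fn P (fun ω => (D.θ ω, D.G ω)) D.S)
    (h2 : Fn P (fun ω => (D.S ω, D.τ ω)) D.S') :
    ch (D.Q2 r σ P) (fun v => fl1 r (D.w v.1.1)) (fun v => D.ln v.2) ≤
      ch (D.Q2 r σ P) (fun v => fl1 r (D.w v.1.1)) (fun v => (v.2, ())) +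
        mi P (fun ω => fl1 r (D.w ω)) D.S' D.θ := by
  have e1 : ch (D.Q2 r σ P) (fun v => fl1 r (D.w v.1.1)) (fun v => D.ln v.2) ≤
      ch (D.Q2 r σ P) (fun v => fl1 r (D.w v.1.1)) fun v => (fl1 σ (D.w v.1.1), D.θ v.1.1) :=
    ch_anti fun a ha b hb q => by
      have ua : fl1 σ (D.w a.2) = fl1 σ (D.w a.1.1) := congrArg Prod.snd (mem ha).2.2.2.2
      have ub : fl1 σ (D.w b.2) = fl1 σ (D.w b.1.1) := congrArg Prod.snd (mem hb).2.2.2.2
      have w1 : D.w a.2 = D.w b.2 := congrArg (fun p => p.2.1) q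
      have w2 : D.θ a.2 = D.θ b.2 := congrArg (fun p => p.2.2.2.2.2.2) q
      exact Prod.ext (ua.symm.trans (w1 ▸ ub))
        ((th h1 h2 ha).1.trans (w2.trans (th h1 h2 hb).1.symm))
  have e2 := (l11 P D r σ).ch_id (fun ω => fl1 r (D.w ω)) fun ω => (fl1 σ (D.w ω), D.θ ω)
  have e3 := kg.mkv' (D.Q1 r P) P _ (D.p2 σ) (fun x => fl1 r (D.w x.1)) (fun _ => ()) id
    (l0 P D r σ) (Fn.comp _ _)
  have e4 := (kg.fst P P (D.p1 r) (D.p1 r)).ch_id (fun ω => fl1 r (D.w ω)) fun ω => (D.p2 σ ω, ())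
  have e5 : mi P (fun ω => fl1 r (D.w ω)) D.S' (fun ω => (fl1 σ (D.w ω), D.θ ω)) ≤
      mi P (fun ω => fl1 r (D.w ω)) D.S' D.θ :=
    mi_left (Fn.snd _ _) (fun _ _ _ _ q => Prod.ext (fl1_eq_of_le h0 (Prod.mk.inj q).1)
      (Prod.mk.inj q).2) (Fn.fst _ _)
  have e6 := ch_le_mi (P := P) (F := fun ω => fl1 r (D.w ω)) (G := D.S')
    (K := fun ω => (fl1 σ (D.w ω), D.θ ω)) (K' := fun ω => (D.p2 σ ω, ()))
    fun _ _ _ _ q => congrArg (fun p => ((p.1, p.2.1), ())) q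
  have e7 : ch (D.Q2 r σ P) (fun v => fl1 r (D.w v.1.1)) (fun v => (v.2, ())) =
      ch P (fun ω => fl1 r (D.w ω)) fun ω => (D.p2 σ ω, ()) := e3.trans e4
  linarith

variable (P D r σ)

/-- The position of the parallel line given the two other lines. -/
theorem off : ch (D.Q2 r σ P) (fun v => fl1 r (D.a v.1.2)) (fun v => (v.2, v.1.1)) =
    ch P (fun ω => fl1 r (D.a ω)) (D.p1 r) :=
  (kg.mkv' (D.Q1 r P) P _ (D.p2 σ) (fun x => fl1 r (D.a x.2)) Prod.fst id (l0 P D r σ)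
    (Fn.comp _ _)).trans (kg.mk1 P P (D.p1 r) (D.p1 r) (fun ω => fl1 r (D.a ω))
      (fun ω => (D.p2 σ ω, ω)) (Law.rfl _) fun _ _ _ _ q => congrArg (fun p => D.p1 r p.2) q)

end One

section Seq

variable {Ω : ℕ → Type} {P : ∀ n, FP (Ω n)} {D : ∀ n, Ev (Ω n)} {r σ m κ : ℕ → ℕ} {L : ℕ → ℝ}

/-- The data that are added first. -/
noncomputable def cx (D : ∀ n, Ev (Ω n)) (r : ℕ → ℕ) (n : ℕ) (v : (Ω n × Ω n) × Ω n) :
    ℤ × ℤ × ℝ × ℝ × ℝ × ℝ × ℝ × ℝ × (D n).T :=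
  (fl1 (r n) ((D n).a v.1.2), fl1 (r n) ((D n).w v.1.1), (D n).ln v.2)

theorem lev (h : En P D r σ m κ L) (n : ℕ) : σ n ≤ r n := by have := (h.lev n).2.1; omega

theorem f1 (h : En P D r σ m κ L) : Fu (fun n => (D n).Q2 (r n) (σ n) (P n))
    (fun n v => (fl1 (r n) ((D n).w v.1.1), (D n).ln v.2)) (fun n v => (D n).z v.2) r :=
  fu_add (K := fun n v => (v.2, ()))
    (h.hgt.dn (K31.dnS_law (Eventually.of_forall fun n => l2 (P n) (D n) (r n) (σ n))))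
    (fun n _ _ _ _ q => congrArg (fun p => (fl1 (r n) ((D n).z p.1), (D n).ln p.1)) q)
    (Le.of_sub h.typ (h.alg.mono fun n u => by linarith [dir (P := P n) (lev h n) u.1 u.2.1]))

theorem f2 (h : En P D r σ m κ L) : Fu (fun n => (D n).Q2 (r n) (σ n) (P n)) (cx D r)
    (fun n v => (D n).z v.2) r := by
  have k1 : Le r (fun n => ch ((D n).Q2 (r n) (σ n) (P n)) (fun v => fl1 (r n) ((D n).a v.1.2))
      fun v => (fl1 (r n) ((D n).w v.1.1), (D n).ln v.2)) fun n => (r n - σ n : ℝ) * lg :=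
    le_fl1 h.big (h.sub.const_mul h.big (by norm_num : (1 : ℝ) ≤ 6)) (lev h)
      (h.alg.mono fun n u a ha b hb q => by
        have w : (D n).a a.2 = (D n).a b.2 := congrArg (fun p => p.2.1) q
        have u1 := (pos (h.sub.1 n) u.2.2.1 u.2.2.2 ha).2
        have u2 := (pos (h.sub.1 n) u.2.2.1 u.2.2.2 hb).2
        rw [← w, abs_sub_comm] at u2
        have := abs_sub_le ((D n).a a.1.2) ((D n).a a.2) ((D n).a b.1.2)
        rw [mul_div_assoc] at u1 u2 ⊢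
        linarith)
  have k2 : Le r (fun n => (r n - σ n : ℝ) * lg) fun n => ch ((D n).Q2 (r n) (σ n) (P n))
      (fun v => fl1 (r n) ((D n).a v.1.2)) fun v => (v.2, v.1.1) :=
    h.off.of_sub (Eventually.of_forall fun n => by rw [off])
  exact fu_add (f1 h) (fun n _ _ _ _ q => congrArg
    (fun p => (fl1 (r n) ((D n).z p.1), fl1 (r n) ((D n).w p.2), (D n).ln p.1)) q) (k1.trans k2)

theorem n1 (h : En P D r σ m κ L) : ND (fun n => (D n).Q2 (r n) (σ n) (P n)) r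
    (fun n v => fl1 (r n) ((D n).e v.1.2)) (cx D r) := by
  have k : ND (fun n => (D n).Q2 (r n) (σ n) (P n)) r (fun n v => fl1 (r n) ((D n).e v.1.2))
      fun n v => (D n).tb (r n) v.1.2 :=
    ND.dn (P := P) (F := fun n ω => fl1 (r n) ((D n).e ω)) (G := fun n => (D n).tb (r n))
      (h.nil r fun _ => le_rfl) (K31.dnS_law (Eventually.of_forall fun n =>
        l12 (P n) (D n) (r n) (σ n)))
  refine k.anti (h.alg.mono fun n u a ha b hb q => ?_)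
  have ua : fl1 (r n) ((D n).w a.1.2) = fl1 (r n) ((D n).w a.1.1) :=
    congrArg (fun p => p.2.1) (mem ha).2.2.2.1
  have ub : fl1 (r n) ((D n).w b.1.2) = fl1 (r n) ((D n).w b.1.1) :=
    congrArg (fun p => p.2.1) (mem hb).2.2.2.1
  have w0 : fl1 (r n) ((D n).a a.1.2) = fl1 (r n) ((D n).a b.1.2) := congrArg Prod.fst q
  have w1 : fl1 (r n) ((D n).w a.1.1) = fl1 (r n) ((D n).w b.1.1) := congrArg (fun p => p.2.1) q
  have w2 : (D n).θ a.2 = (D n).θ b.2 := congrArg (fun p => p.2.2.2.2.2.2.2.2) q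
  exact Prod.ext w0 (Prod.ext (ua.trans (w1.trans ub.symm))
    ((th u.1 u.2.1 ha).2.trans (w2.trans (th u.1 u.2.1 hb).2.symm)))

theorem n2 (h : En P D r σ m κ L) : ND (fun n => (D n).Q2 (r n) (σ n) (P n)) r
    (fun n v => (D n).tb (m n) v.1.1) (cx D r) := by
  have k1 : ND (fun n => (D n).Q2 (r n) (σ n) (P n)) r (fun n v => fl1 (m n) ((D n).a v.1.1))
      (cx D r) :=
    ND.sure (c := fun n v => (D n).a v.2) h.big (h.sub.const_mul h.big one_le_two)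
      (h.alg.mono fun n u => ⟨fun _ _ _ _ q => congrArg (fun p => p.2.2.1) q, fun a ha =>
        (pos (h.sub.1 n) u.2.2.1 u.2.2.2 ha).1.trans
          (U.div_pow_le (by linarith [h.sub.1 n]) (h.lev n).1)⟩)
  have k2 : ND (fun n => (D n).Q2 (r n) (σ n) (P n)) r
      (fun n v => (fl1 (m n) ((D n).w v.1.1), (D n).θ v.1.1)) (cx D r) :=
    ND.of_fn (h.alg.mono fun n u a ha b hb q => by
      have w1 : fl1 (r n) ((D n).w a.1.1) = fl1 (r n) ((D n).w b.1.1) :=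
        congrArg (fun p => p.2.1) q
      have w2 : (D n).θ a.2 = (D n).θ b.2 := congrArg (fun p => p.2.2.2.2.2.2.2.2) q
      exact Prod.ext (fl1_eq_of_le ((h.lev n).1.trans (lev h n)) w1)
        ((th u.1 u.2.1 ha).1.trans (w2.trans (th u.1 u.2.1 hb).1.symm)))
  exact k1.pair k2

end Seq

end GFuPA

open GFuPA

theorem rowFuP : FuP := by
  intro Ω P D r σ m κ L h A C hC
  have n3 : ND (fun n => (D n).Q2 (r n) (σ n) (P n)) r (fun n v => C n v.1)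
      fun n v => (D n).tb (m n) v.1.1 :=
    ND.dn (P := fun n => (D n).Q1 (r n) (P n)) (F := C) (G := fun n v => (D n).tb (m n) v.1) hC
      (K31.dnS_law (Eventually.of_forall fun n => l1 (P n) (D n) (r n) (σ n)))
  have n4 : ND (fun n => (D n).Q2 (r n) (σ n) (P n)) r
      (fun n v => (cx D r n v, fl1 (r n) ((D n).e v.1.2), C n v.1)) (cx D r) :=
    ND.rfl.pair ((n1 h).pair (n3.trans (n2 h)))
  exact ((f2 h).near n4).anti (Eventually.of_forall fun n _ _ _ _ q =>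
    congrArg (fun p => (p.1.1, p.2.1, p.1.2.1, p.1.2.2, p.2.2)) q)

end Pool.Agent.MP_5168f5_an.R4.Eng
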