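import Pool.Agent.MP_5168f5_an.R4.SpecEn

/-! The height is full given the data of two parallel lines. -/

namespace Pool.Agent.MP_5168f5_an.R4.Eng

open H19 H17S H17F Filter Tan B1

namespace GFuXA

theorem mem {Ω : Type} {P : FP Ω} {D : Ev Ω} {r : ℕ} {v : Ω × Ω} (hv : v ∈ (D.Q1 r P).S) :
    v.1 ∈ P.S ∧ v.2 ∈ P.S ∧ D.p1 r v.2 = D.p1 r v.1 := (kg.mem _ _ _ _ v (Law.rfl _)).1 hv

variable {Ω : ℕ → Type} {P : ∀ n, FP (Ω n)} {D : ∀ n, Ev (Ω n)} {r σ m κ : ℕ → ℕ} {L : ℕ → ℝ}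

theorem d1 : K31.DnS (fun n => (D n).Q1 (r n) (P n)) (fun _ => Prod.fst) P :=
  K31.dnS_law (Eventually.of_forall fun _ => kg.fst _ _ _ _)

theorem d2 : K31.DnS (fun n => (D n).Q1 (r n) (P n)) (fun _ => Prod.snd) P :=
  K31.dnS_law (Eventually.of_forall fun _ => kg.snd _ _ _ _ (Law.rfl _))

theorem par (h : En P D r σ m κ L) : ∀ᶠ n in UF, ∀ v ∈ ((D n).Q1 (r n) (P n)).S,
    (D n).Par (σ n) (m n) (L n) v.2 v.1 :=
  h.alg.mono fun _ a _ hv => (a.2.2.2 _ (mem hv).2.1 _ (mem hv).1).1 (mem hv).2.2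

/-- The position of the copy tells nothing on the height. -/
theorem s1 (h : En P D r σ m κ L) : Fu (fun n => (D n).Q1 (r n) (P n))
    (fun n v => (fl1 (r n) ((D n).a v.2), (D n).ln v.1)) (fun n v => (D n).z v.1) r := by
  have f := h.hgt.dn (d1 (D := D) (r := r))
  refine ⟨f.big, f.box, f.full.of3 h.off (le_fl1 (P := fun n => (D n).Q1 (r n) (P n))
    (x := fun n v => (D n).a v.2) (G := fun n v => (D n).ln v.1) (k := r) (j := σ) h.big
    (h.sub.const_mul h.big one_le_two) (fun n => by have := h.lev n; omega)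
    ((par h).mono fun n p u hu v hv e => ?_)) (Eventually.of_forall fun n => ?_)⟩
  · have k := (p v hv).near.1
    rw [← show (D n).a u.1 = (D n).a v.1 from congrArg Prod.fst e, abs_sub_comm] at k
    have := abs_sub_le ((D n).a u.2) ((D n).a u.1) ((D n).a v.2)
    rw [mul_div_assoc]
    linarith [(p u hu).near.1]
  · have h1 := mi_symm (P := (D n).Q1 (r n) (P n)) (fun v => fl1 (r n) ((D n).z v.1))
      (fun v => fl1 (r n) ((D n).a v.2)) fun v => (D n).ln v.1
    have h2 := kg.mk1 (P n) (P n) ((D n).p1 (r n)) ((D n).p1 (r n))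
      (fun ω => fl1 (r n) ((D n).a ω)) id (Law.rfl _) fun _ _ _ _ e => congrArg _ e
    have h3 : ch ((D n).Q1 (r n) (P n)) (fun v => fl1 (r n) ((D n).a v.2)) (fun v => v.1) ≤
        ch ((D n).Q1 (r n) (P n)) (fun v => fl1 (r n) ((D n).a v.2))
          fun v => (fl1 (r n) ((D n).z v.1), (D n).ln v.1) :=
      ch_anti fun _ _ _ _ e => by simp only [show _ = _ from e]
    unfold mi at h1
    have h4 : ch ((D n).Q1 (r n) (P n)) (fun v => fl1 (r n) ((D n).a v.2)) (fun v => v.1) = _ := h2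
    linarith

theorem tb (h : En P D r σ m κ L) : ∀ᶠ n in UF, Fn ((D n).Q1 (r n) (P n))
    (fun v => (D n).tb (r n) v.2) fun v => (fl1 (r n) ((D n).a v.2), (D n).ln v.1) :=
  h.alg.mono fun n a u hu v hv e => by
    have k : ∀ v ∈ ((D n).Q1 (r n) (P n)).S, fl1 (r n) ((D n).w v.2) = fl1 (r n) ((D n).w v.1) ∧
        (D n).θ v.2 = (D n).θ v.1 := fun v hv => ⟨congrArg (·.2.1) (mem hv).2.2,
      congrArg Prod.fst (a.1 _ (mem hv).2.1 _ (mem hv).1 (congrArg Prod.fst (mem hv).2.2))⟩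
    simp only [Ev.ln, Prod.mk.injEq] at e
    simp only [Ev.tb, e, k u hu, k v hv]

theorem sure (h : En P D r σ m κ L) {x : ∀ n, Ω n → ℝ} (e : ∀ n, Fn (P n) (x n) (D n).ln)
    (k : ∀ n u v, (D n).Par (σ n) (m n) (L n) u v → |x n u - x n v| ≤ L n / 2 ^ σ n) :
    ND (fun n => (D n).Q1 (r n) (P n)) r (fun n v => fl1 (σ n) (x n v.2))
      fun n v => (fl1 (r n) ((D n).a v.2), (D n).ln v.1) :=
  ND.sure (c := fun n v => x n v.1) h.big h.sub ((par h).mono fun n p =>
    ⟨fun _ hu _ hv w => e n _ (mem hu).1 _ (mem hv).1 (congrArg Prod.snd w),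
      fun v hv => k n _ _ (p v hv)⟩)

end GFuXA

open GFuXA in
theorem rowFuX : FuX := by
  intro Ω P D r σ m κ L h
  have t1 : ND (fun n => (D n).Q1 (r n) (P n)) r (fun n v => (D n).th (r n) (σ n) v.1)
      fun n v => (fl1 (r n) ((D n).a v.2), (D n).ln v.1) :=
    ND.of_fn (Eventually.of_forall fun n u _ v _ e => by
      simp only [Ev.ln, Prod.mk.injEq] at e
      simp only [Ev.th, e])
  have t := ND.of_fn (M := r) (tb h)
  have t2 : ND (fun n => (D n).Q1 (r n) (P n)) r (fun n v => (D n).th (r n) (σ n) v.2)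
      fun n v => (fl1 (r n) ((D n).a v.2), (D n).ln v.1) :=
    (t.pair (((ND.dn (h.nil r fun _ => le_rfl) d2).trans t).pair
      ((sure h (x := fun n => (D n).b) (fun _ _ _ _ _ e => congrArg (·.2.2.1) e)
        fun _ _ _ p => p.near.2.1).pair
      ((sure h (x := fun n => (D n).c) (fun _ _ _ _ _ e => congrArg (·.2.2.2.2.1) e)
        fun _ _ _ p => p.near.2.2.2.1).pair
      (sure h (x := fun n => (D n).f) (fun _ _ _ _ _ e => congrArg (·.2.2.2.2.2.1) e)
        fun _ _ _ p => p.near.2.2.2.2))))).mono (Eventually.of_forall fun n u _ v _ e => by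
      simp only [Ev.tb, Prod.mk.injEq] at e
      simp only [Ev.th, e])
  exact (s1 h).near ((((ND.dn h.side d1).trans t1).pair t1).pair
    (((ND.dn h.side d2).trans t2).pair t2))

end Pool.Agent.MP_5168f5_an.R4.Eng
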