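import Pool.Agent.MP_5168f5_an.R4.SpecEn

/-! Case B2 with `u` of weight two: parallel lines through a cell have the same slope. -/

namespace Pool.Agent.MP_5168f5_an.R4.Eng

open H19 H17S H17F Filter Tan B1

namespace GKillA

theorem mb {x y a b c : ℝ} (h : |x| ≤ a) (h' : |y| ≤ b) (e : a * b ≤ c) : |x * y| ≤ c := by
  rw [abs_mul]
  exact (mul_le_mul h h' (abs_nonneg _) ((abs_nonneg _).trans h)).trans e

theorem key {s δ H a1 a2 a' e1 e2 e' w1 w2 z1 z2 τ c0 c1 A' E' W C0 C1 : ℝ} (s0 : 0 ≤ s)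
    (s1 : s ≤ 1) (d0 : 0 ≤ δ) (d1 : δ ≤ 1) (H1 : 1 ≤ H) (hw : |w1 - w2| ≤ s)
    (F1 : |e1 - e2 - τ * (w1 - w2)| ≤ H * (s * δ)) (F2 : |a1 - a2 + z2 * (w1 - w2)| ≤ H * (s * δ))
    (F3 : |z1 - z2| ≤ H * (s * δ)) (A1 : |τ - c0 - c1 * z1| ≤ H * δ)
    (A2 : |e1 - e' - c1 / 2 * (a1 - a')| ≤ H * (s * δ)) (Pa : |a1 - a'| ≤ H * s)
    (b0 : |c0| ≤ H) (b1 : |c1| ≤ H) (hz : |z2| ≤ 1) (r0 : |c0 - C0| ≤ δ) (r1 : |c1 - C1| ≤ δ)
    (ra : |a' - A'| ≤ H * (s * δ)) (re : |e' - E'| ≤ H * (s * δ)) (rw' : |w1 - W| ≤ H * (s * δ))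
    (lin : |3 / 2 * (C1 * (W - w2))| ≤
      H * |e2 - E' - C1 / 2 * (a2 - A') + C0 * (W - w2) + 3 / 2 * (C1 * (W - w2)) * z2|)
    (sep : s ≤ H * |w1 - w2|) : |e1 - e'| ≤ 11 * H ^ 5 * (s * δ) := by
  have H0 : 0 ≤ H := zero_le_one.trans H1
  have t0 : 0 ≤ s * δ := mul_nonneg s0 d0
  have u1 : s * δ ≤ H * (s * δ) := le_mul_of_one_le_left t0 H1
  have u2 : H * (s * δ) ≤ H * (H * (s * δ)) := le_mul_of_one_le_left (by positivity) H1
  have u3 : H * (s * δ) ≤ H * s := mul_le_mul_of_nonneg_left (mul_le_of_le_one_right s0 d1) H0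
  have u4 : s ≤ H * s := le_mul_of_one_le_left s0 H1
  have B0 : |C0| ≤ 2 * H := by
    linarith [abs_sub_abs_le_abs_sub C0 c0, abs_sub_comm C0 c0]
  have B1 : |C1| ≤ 2 * H := by
    linarith [abs_sub_abs_le_abs_sub C1 c1, abs_sub_comm C1 c1]
  have zw := mb hz hw (one_mul s).le
  have Pb : |a2 - a'| ≤ 3 * (H * s) := by
    rw [abs_le] at Pa F2 zw ⊢
    constructor <;> linarith [Pa.1, Pa.2, F2.1, F2.2, zw.1, zw.2]
  obtain ⟨u, hu⟩ : ∃ u, u = H * (H * (s * δ)) := ⟨_, rfl⟩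
  have T3 := abs_le.1 (mb (c := u) A1 hw (by linarith))
  have T5 := abs_le.1 (mb (c := u) b1 F2 hu.ge)
  have T4 := abs_le.1 (mb (c := u) (mb b1 F3 hu.ge) (hw.trans s1) (mul_one u).le)
  have T7 := abs_le.1 (mb (c := 3 * u) r1 Pb (by linarith))
  have T8 := abs_le.1 (mb (c := 2 * u) B1 ra (by linarith))
  have T9 := abs_le.1 (mb (c := u) r0 hw (by linarith))
  have T10 := abs_le.1 (mb (c := 2 * u) B0 rw' (by linarith))
  have T11 := abs_le.1 (mb (c := u) hz (mb (c := u) r1 hw (by linarith)) (one_mul u).le)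
  have T13 := mb (c := 2 * u) B1 rw' (by linarith)
  have T12 := abs_le.1 (mb (c := 2 * u) hz T13 (one_mul _).le)
  have X : |e2 - E' - C1 / 2 * (a2 - A') + C0 * (W - w2) + 3 / 2 * (C1 * (W - w2)) * z2| ≤
      16 * u := by
    rw [abs_le] at A2 F1 re ⊢
    constructor <;> linarith [A2.1, A2.2, F1.1, F1.2, re.1, re.2]
  have u0 : 0 ≤ u := by rw [hu]; positivity
  have v1 : u ≤ H * u := le_mul_of_one_le_left u0 H1
  have v2 : H * u ≤ H * (H * u) := le_mul_of_one_le_left (by positivity) H1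
  have v3 : H * (H * u) ≤ H * (H * (H * u)) := le_mul_of_one_le_left (by positivity) H1
  have q1 : |C1 * (w1 - w2)| ≤ 18 * (H * u) := by
    have := lin.trans (mul_le_mul_of_nonneg_left X H0)
    rw [abs_le] at this T13 ⊢
    have p : 0 ≤ H * u := by positivity
    constructor <;> linarith [this.1, this.2, T13.1, T13.2]
  have q2 : |c1| * s ≤ 19 * (H * (H * u)) := by
    have h1 := mul_le_mul_of_nonneg_left sep (abs_nonneg C1)
    have h2 := mul_le_mul_of_nonneg_left q1 H0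
    rw [abs_mul] at h2
    have h3 := mul_le_mul_of_nonneg_right ((abs_sub_abs_le_abs_sub c1 C1).trans r1) s0
    linarith
  have q3 := abs_le.1 (mb (le_refl |c1|) Pa (c := 19 * (H * (H * (H * u)))) (by
    linarith [mul_le_mul_of_nonneg_left q2 H0]))
  rw [show 11 * H ^ 5 * (s * δ) = 11 * (H * (H * (H * u))) by rw [hu]; ring]
  rw [abs_le] at A2 ⊢
  constructor <;> linarith [A2.1, A2.2]

theorem cv {x L H : ℝ} {i k j : ℕ} (h : x ≤ L / 2 ^ j) (e : L ≤ H) (p : 1 ≤ H) (q : i + k ≤ j) :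
    x ≤ H * (1 / 2 ^ i * (1 / 2 ^ k)) := by
  refine h.trans ((div_le_div_of_nonneg_right e (by positivity)).trans
    ((U.div_pow_le (zero_le_one.trans p) q).trans_eq ?_))
  rw [pow_add]; field_simp

theorem cw {x L H : ℝ} {i : ℕ} (h : x ≤ L / 2 ^ i) (e : L ≤ H) : x ≤ H * (1 / 2 ^ i) := by
  rw [mul_one_div]; exact h.trans (div_le_div_of_nonneg_right e (by positivity))

theorem le1 (i : ℕ) : (1 : ℝ) / 2 ^ i ≤ 1 :=
  (div_le_one (by positivity)).2 (one_le_pow₀ one_le_two)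

end GKillA

open GKillA in
theorem rowKill : OfKill := by
  intro td linD fuX aff fuP Ω P D r σ m κ L h
  obtain ⟨c₀, c₁, L1, s1, f1, w1⟩ := aff P D r σ m κ L h
  have l1 : ∀ n, Law ((D n).Q1 (r n) (P n)) Prod.fst (P n) id := fun n => kg.fst _ _ _ _
  have l2 : ∀ n, Law ((D n).Q2 (r n) (σ n) (P n)) Prod.fst ((D n).Q1 (r n) (P n)) id := fun n =>
    kg.fst _ _ _ _
  have t0 : ND P r (fun n ω => fl1 (m n) ((D n).τ ω))
    fun n ω => (fl1 (r n) ((D n).z ω), (D n).tb (m n) ω) := td P D r σ m κ L h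
  have t1 := t0.dn (K31.dnS_law (Eventually.of_forall l1))
  have t2 := t1.mono (F' := fun n v => fl1 (m n - κ n) ((D n).τ v.1))
    (Eventually.of_forall fun n u _ v _ e => fl1_eq_of_le (Nat.sub_le _ _) e)
  have t3 : ∀ᶠ n in UF, Fn ((D n).Q1 (r n) (P n)) (fun v => (c₀ n v, c₁ n v, (D n).tb (m n) v.1))
      (fun v => ((D n).xi (r n) (σ n) v.1, (D n).xi (r n) (σ n) v.2)) ∧
      ∀ v ∈ ((D n).Q1 (r n) (P n)).S, |c₀ n v| ≤ L1 n ∧ |c₁ n v| ≤ L1 n := by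
    refine f1.mono fun n a => ⟨fun u hu v hv e => ?_, fun v _ => a.2 v⟩
    have e1 := a.1 u hu v hv e
    have k : m n ≤ r n := by have := h.lev n; omega
    simp only [Ev.xi, Ev.th, Ev.tb, Prod.mk.injEq] at e e1 ⊢
    exact ⟨e1.1, e1.2, fl1_eq_of_le k e.1.2.1, fl1_eq_of_le k e.1.2.2.1, e.1.2.2.2.2.2.2.2⟩
  have hC := linD _ _ _ _ (fun n v => (D n).τ v.1) c₀ c₁ r
    (fun n => m n - κ n) L1 (fuX P D r σ m κ L h) s1 (fun n => by have := h.lev n; omega) t3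
    (w1.mono (Eventually.of_forall fun _ _ _ a => a.1)) t2
  obtain ⟨L2, s2, w2⟩ := lin (fuP P D r σ m κ L h _ _ hC)
    (p := fun n v => (D n).e v.2 - U.rd (r n) ((D n).e v.1.2) -
      U.rd (m n - κ n) (c₁ n v.1) / 2 * ((D n).a v.2 - U.rd (r n) ((D n).a v.1.2)) +
      U.rd (m n - κ n) (c₀ n v.1) * (U.rd (r n) ((D n).w v.1.1) - (D n).w v.2))
    (q := fun n v => 3 / 2 * (U.rd (m n - κ n) (c₁ n v.1) *
      (U.rd (r n) ((D n).w v.1.1) - (D n).w v.2)))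
    (Eventually.of_forall fun n u _ v _ e => by
      simp only [Ev.ln, Prod.mk.injEq] at e
      obtain ⟨e1, e2, e3, ⟨e4, e5, -, e6, -⟩, e7, e8⟩ := e
      simp only [U.rd, e1, e2, e3, e4, e5, e6, e7, e8])
  have w3 := (K31.dnS_law (Eventually.of_forall fun n =>
    law_glue (l1 n) (P n) ((D n).p2 (σ n)) ((D n).p2 (σ n)))).whp h.sep1
  have w4 := (K31.dnS_law (Eventually.of_forall l2)).whp w1
  have sH := (h.sub.mul s1).mul s2
  refine ⟨_, (sH.pow 5).const_mul h.big (by norm_num : (1 : ℝ) ≤ 11), fun ε hε => ?_⟩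
  have w5 : Whp (fun n => (D n).Q2 (r n) (σ n) (P n)) fun n v =>
      |(D n).e v.1.1 - (D n).e v.1.2| ≤
        11 * (L n * L1 n * L2 n) ^ 5 / 2 ^ (σ n + (m n - κ n)) := by
    refine ((w2.and w3).and w4).mono ?_
    filter_upwards [h.alg, f1] with n ⟨_, _, a3, a4⟩ ⟨_, b⟩ v hv ⟨⟨x1, x2⟩, x3, x4⟩
    obtain ⟨m1, m2, m3⟩ := (kg.mem _ _ _ _ v ((l1 n).comp ((D n).p2 (σ n)))).1 hv
    obtain ⟨m4, m5, m6⟩ := (kg.mem _ _ _ _ v.1 (Law.rfl _)).1 m1
    have pa := (a4 _ m4 _ m5).1 m6.symm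
    have fa := (a4 _ m4 _ m2).2 (congrArg Prod.fst m3).symm
    have y0 := h.sub.1 n
    have y1 := s1.1 n
    have y2 := s2.1 n
    have k0 : L n ≤ L n * L1 n * L2 n := (le_mul_of_one_le_right (by linarith) y1).trans
      (le_mul_of_one_le_right (by positivity) y2)
    have k1 : L1 n ≤ L n * L1 n * L2 n := (le_mul_of_one_le_left (by linarith) y0).trans
      (le_mul_of_one_le_right (by positivity) y2)
    have k2 : L2 n ≤ L n * L1 n * L2 n :=
      le_mul_of_one_le_left (by linarith) (one_le_mul_of_one_le_of_one_le y0 y1)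
    have k3 := y0.trans k0
    generalize L n * L1 n * L2 n = H at k0 k1 k2 k3 ⊢
    have j1 : σ n + (m n - κ n) ≤ σ n + m n := by omega
    have j2 : σ n + (m n - κ n) ≤ r n := j1.trans (h.lev n).2.1
    refine (key (by positivity) (le1 (σ n)) (by positivity) (le1 (m n - κ n)) k3
      (U.near_of_fl1 (congrArg Prod.snd m3).symm) (cv fa.sl k0 k3 j1) (cv fa.pos k0 k3 j1)
      (cv fa.z k0 k3 j1) (cw x3 k1) (cv x4 k1 k3 j1) (cw pa.near.1 k0) ((b _).1.trans k1)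
      ((b _).2.trans k1) ((abs_of_nonneg (a3 _ m2).z.1).trans_le (a3 _ m2).z.2.le)
      (U.abs_sub_rd _ _) (U.abs_sub_rd _ _) (cv (U.abs_sub_rd _ _) k3 k3 j2)
      (cv (U.abs_sub_rd _ _) k3 k3 j2) (cv (U.abs_sub_rd _ _) k3 k3 j2)
      (x1.trans (mul_le_mul_of_nonneg_right k2 (abs_nonneg _))) ?_).trans_eq ?_
    · rw [div_le_iff₀ (by positivity), mul_right_comm]
      exact x2.trans (mul_le_mul_of_nonneg_right
        (mul_le_mul_of_nonneg_right k0 (by positivity)) (abs_nonneg _))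
    · rw [pow_add]; field_simp
  exact (w5 ε hε).mono fun n a => ((l2 n).pb_eq fun v => ¬|(D n).e v.1 - (D n).e v.2| ≤
    11 * (L n * L1 n * L2 n) ^ 5 / 2 ^ (σ n + (m n - κ n))).ge.trans a

end Pool.Agent.MP_5168f5_an.R4.Eng
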