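import Pool.Agent.MP_5168f5_an.R4.SpecEn

/-! An affine function of a full number: the coefficients are determined. -/

namespace Pool.Agent.MP_5168f5_an.R4.Eng

open H19 H17S H17F Filter Tan B1

namespace GLinDA

/-- A full number carries no information. -/
theorem drop {Ω A α β : ℕ → Type} {P : ∀ n, FP (Ω n)} {l : ∀ n, Ω n → A n} {y : ∀ n, Ω n → ℝ}
    {M : ℕ → ℕ} {F : ∀ n, Ω n → α n} {G : ∀ n, Ω n → β n} (h : Fu P l y M)
    (e : ∀ᶠ n in UF, Fn (P n) (fun ω => (F n ω, G n ω)) (l n))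
    (k : ND P M F fun n ω => (fl1 (M n) (y n ω), G n ω)) : ND P M F G := by
  refine Le.of2 (h.anti e).full k (h.box.mono fun n b => ?_)
  have h1 := ch_symm (P := P n) (F n) (fun ω => fl1 (M n) (y n ω)) (G n)
  have h2 := (ch_det (det_box b (M n) (G n))).trans (log_two_pow _).le
  linarith

theorem one {T T' c d c' d' z z' L δ : ℝ} (h : |T - c - d * z| ≤ L * δ)
    (h' : |T' - c' - d' * z'| ≤ L * δ) (hT : |T - T'| ≤ δ) (hz : |z - z'| ≤ δ) (hd : |d'| ≤ L)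
    (hL : 1 ≤ L) : |c - c' + (d - d') * z| ≤ 4 * L * δ := by
  have a := mul_le_mul hd hz (abs_nonneg _) (by linarith)
  rw [← abs_mul] at a
  have b : δ ≤ L * δ := le_mul_of_one_le_left ((abs_nonneg _).trans hz) hL
  rw [abs_le] at *
  constructor <;> linarith [h.1, h.2, h'.1, h'.2, hT.1, hT.2, a.1, a.2]

theorem two {p q z w L B : ℝ} (h : |p + q * z| ≤ B) (h' : |p + q * w| ≤ B) (e : 1 ≤ L * |w - z|)
    (hz : 0 ≤ z ∧ z < 1) (hL : 1 ≤ L) : |p| ≤ 3 * L * B ∧ |q| ≤ 3 * L * B := by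
  have b0 : 0 ≤ B := (abs_nonneg _).trans h
  have a : |q| * |w - z| ≤ 2 * B := by
    rw [← abs_mul, show q * (w - z) = p + q * w - (p + q * z) by ring]
    linarith [abs_sub (p + q * w) (p + q * z)]
  have b : |q| ≤ 2 * L * B := by
    have := mul_le_mul_of_nonneg_left e (abs_nonneg q)
    nlinarith
  have c : |p| ≤ B + |q| := by
    have c1 := abs_sub (p + q * z) (q * z)
    rw [add_sub_cancel_right, abs_mul, abs_of_nonneg hz.1] at c1
    nlinarith [abs_nonneg q]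
  constructor <;> nlinarith

end GLinDA

open GLinDA in
theorem rowLinD : LinD := by
  intro Ω A B P Ξ Γ z T c₀ c₁ M ρ L h hL hρ e w k
  have l1 : ∀ n, Law (glue (P n) (P n) (Ξ n) (Ξ n)) Prod.fst (P n) id := fun n => kg.fst _ _ _ _
  have l2 : ∀ n, Law (glue (P n) (P n) (Ξ n) (Ξ n)) Prod.snd (P n) id := fun n =>
    kg.snd _ _ _ _ (Law.rfl _)
  have d1 := K31.dnS_law (Eventually.of_forall l1)
  have d2 := K31.dnS_law (Eventually.of_forall l2)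
  have mem : ∀ᶠ n in UF, ∀ v ∈ (glue (P n) (P n) (Ξ n) (Ξ n)).S, v.1 ∈ (P n).S ∧ v.2 ∈ (P n).S ∧
      c₀ n v.2 = c₀ n v.1 ∧ c₁ n v.2 = c₁ n v.1 ∧ Γ n v.2 = Γ n v.1 := e.mono fun n a v hv => by
    obtain ⟨u1, u2, u3⟩ := (kg.mem _ _ _ _ v (Law.rfl _)).1 hv
    exact ⟨u1, u2, by simpa only [Prod.mk.injEq] using a.1 _ u2 _ u1 u3⟩
  have f2 : Fu (fun n => glue (P n) (P n) (Ξ n) (Ξ n)) (fun _ v => v.1) (fun n v => z n v.2) M :=
    ⟨h.big, (h.dn d2).box, h.full.trans (Le.of_le fun n => (kg.mk1 (P n) (P n) (Ξ n) (Ξ n)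
      (fun ω => fl1 (M n) (z n ω)) id (Law.rfl _) fun _ _ _ _ q => congrArg _ q).ge)⟩
  obtain ⟨L', hL', w'⟩ := f2.far (x := fun n v => z n v.1)
    (Eventually.of_forall fun n _ _ _ _ q => congrArg _ q)
  have s : Sub M fun n => 3 * L' n * (4 * L n) :=
    (hL'.const_mul h.big (by norm_num)).mul (hL.const_mul h.big (by norm_num))
  have key : ∀ᶠ n in UF, (∀ a ∈ (glue (P n) (P n) (Ξ n) (Ξ n)).S,
      |c₀ n a.1| ≤ 3 * L' n * (4 * L n) * 2 ^ M n ∧ |c₁ n a.1| ≤ 3 * L' n * (4 * L n) * 2 ^ M n) ∧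
      ∀ a ∈ (glue (P n) (P n) (Ξ n) (Ξ n)).S, ∀ b ∈ (glue (P n) (P n) (Ξ n) (Ξ n)).S,
      (|T n a.1 - c₀ n a.1 - c₁ n a.1 * z n a.1| ≤ L n / 2 ^ ρ n ∧
        |T n a.2 - c₀ n a.2 - c₁ n a.2 * z n a.2| ≤ L n / 2 ^ ρ n) ∧
        1 ≤ L' n * |z n a.2 - z n a.1| →
      (|T n b.1 - c₀ n b.1 - c₁ n b.1 * z n b.1| ≤ L n / 2 ^ ρ n ∧
        |T n b.2 - c₀ n b.2 - c₁ n b.2 * z n b.2| ≤ L n / 2 ^ ρ n) ∧
        1 ≤ L' n * |z n b.2 - z n b.1| →
      (fl1 (ρ n) (T n a.1), fl1 (ρ n) (T n a.2), fl1 (M n) (z n a.1), fl1 (M n) (z n a.2)) =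
        (fl1 (ρ n) (T n b.1), fl1 (ρ n) (T n b.2), fl1 (M n) (z n b.1), fl1 (M n) (z n b.2)) →
      |c₀ n a.1 - c₀ n b.1| ≤ 3 * L' n * (4 * L n) / 2 ^ ρ n ∧
        |c₁ n a.1 - c₁ n b.1| ≤ 3 * L' n * (4 * L n) / 2 ^ ρ n := by
    filter_upwards [mem, e, h.box] with n m1 m2 m3
    refine ⟨fun a ha => ?_, fun a ha b hb ⟨⟨u1, u2⟩, u3⟩ ⟨⟨v1, v2⟩, _⟩ q => ?_⟩
    · have p : L n ≤ 3 * L' n * (4 * L n) * 2 ^ M n :=
        le_trans (by nlinarith [hL.1 n, hL'.1 n])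
          (le_mul_of_one_le_right (s.pos n).le (one_le_pow₀ one_le_two))
      exact (m2.2 _ (m1 a ha).1).imp (·.trans p) (·.trans p)
    · simp only [Prod.mk.injEq] at q
      obtain ⟨a1, -, a2, a3, -⟩ := m1 a ha
      obtain ⟨b1, -, b2, b3, -⟩ := m1 b hb
      rw [a2, a3] at u2
      rw [b2, b3] at v2
      rw [div_eq_mul_inv, mul_assoc]
      exact two (one u1 v1 (abs_sub_lt_of_fl1_eq q.1).le
          (abs_sub_lt_of_fl1_eq (fl1_eq_of_le (hρ n) q.2.2.1)).le (m2.2 _ b1).2 (hL.1 n))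
        (one u2 v2 (abs_sub_lt_of_fl1_eq q.2.1).le
          (abs_sub_lt_of_fl1_eq (fl1_eq_of_le (hρ n) q.2.2.2)).le (m2.2 _ b1).2 (hL.1 n))
        u3 (m3 _ a1) (hL'.1 n)
  have W := ((d1.whp w).and (d2.whp w)).and w'
  have n0 := U.UMu4A.nearW (x := fun n v => c₀ n v.1) h.big s W hρ
    (key.mono fun n u => ⟨fun a ha => (u.1 a ha).1, fun a ha b hb x y q => (u.2 a ha b hb x y q).1⟩)
  have n1 := U.UMu4A.nearW (x := fun n v => c₁ n v.1) h.big s W hρ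
    (key.mono fun n u => ⟨fun a ha => (u.1 a ha).2, fun a ha b hb x y q => (u.2 a ha b hb x y q).2⟩)
  have t : ND (fun n => glue (P n) (P n) (Ξ n) (Ξ n)) M (fun n v =>
      (fl1 (ρ n) (T n v.1), fl1 (ρ n) (T n v.2), fl1 (M n) (z n v.1), fl1 (M n) (z n v.2)))
      fun n v => (fl1 (M n) (z n v.2), fl1 (M n) (z n v.1), Γ n v.1) := by
    refine ((ND.dn k d1).anti (Eventually.of_forall fun n => Fn.snd _ _)).pair
      (((ND.dn k d2).anti (mem.mono fun n m a ha b hb q => ?_)).pair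
        (ND.of_fn (Eventually.of_forall fun n a _ b _ q => ?_)))
    · simp only [Prod.mk.injEq] at q ⊢
      exact ⟨q.1, by rw [(m a ha).2.2.2.2, (m b hb).2.2.2.2, q.2.2]⟩
    · simp only [Prod.mk.injEq] at q ⊢
      exact ⟨q.2.1, q.1⟩
  have r := drop f2 (Eventually.of_forall fun n a _ b _ q => by simp only [show a.1 = b.1 from q])
    ((ND.pair n0 n1).trans t)
  refine drop h (e.mono fun n u a ha b hb q => ?_) (Sm.mono r (Eventually.of_forall fun n =>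
    ((l1 n).ch_id (fun ω => (fl1 (ρ n) (c₀ n ω), fl1 (ρ n) (c₁ n ω)))
      fun ω => (fl1 (M n) (z n ω), Γ n ω)).ge))
  have := u.1 a ha b hb q
  simp only [Prod.mk.injEq] at this
  simp only [this.1, this.2.1, this.2.2]

end Pool.Agent.MP_5168f5_an.R4.Eng
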