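import Pool.Agent.MP_5168f5_an.R4.SpecEn

/-! Parallel lines are separated. -/

namespace Pool.Agent.MP_5168f5_an.R4.Eng

open H19 H17S H17F Filter Tan

namespace GSepAA

/-- A number whose digits between `σ` and `r` are full is far from every known number. -/
theorem far {Ω A : ℕ → Type} {P : ∀ n, FP (Ω n)} {G : ∀ n, Ω n → A n} {x y : ∀ n, Ω n → ℝ}
    {r σ m : ℕ → ℕ} {L : ℕ → ℝ} (hr : Big r) (hm : Frac m r) (lev : ∀ n, σ n + m n ≤ r n)
    (hL : Sub r L) (hy : ∀ n, Fn (P n) (y n) (G n))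
    (nr : ∀ᶠ n in UF, ∀ ω ∈ (P n).S, |y n ω - x n ω| ≤ L n / 2 ^ σ n)
    (fu : Le r (fun n => (r n - σ n : ℝ) * lg) fun n => ch (P n) (fun ω => fl1 (r n) (x n ω)) (G n)) :
    ∃ L', Sub r L' ∧ Whp P fun n ω => 1 ≤ L' n * 2 ^ σ n * |y n ω - x n ω| := by
  refine ks.wsub _ (fun n ω L => 1 ≤ L * 2 ^ σ n * |y n ω - x n ω|) r
    fun c c0 c1 => by_contra fun k => ?_
  have pos := not_whp k
  obtain ⟨-, κ, κ0, f2⟩ := hr.frac_floor c0 c1
  obtain ⟨-, κ', κ0', f2'⟩ := hm
  have tri : ∀ n a b, y n a = y n b → ∀ {δ : ℝ}, |y n a - x n a| ≤ δ → |y n b - x n b| ≤ δ →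
      |x n a - x n b| ≤ 2 * δ := fun n a b e δ u v => by
    have := abs_sub_le (x n a) (y n a) (x n b)
    rw [abs_sub_comm] at u
    rw [← e] at v
    linarith
  have pw : ∀ n, (2 : ℝ) ^ r n = 2 ^ σ n * 2 ^ (r n - σ n) := fun n => by
    rw [← pow_add, Nat.add_sub_cancel' (by have := lev n; omega)]
  have lw : ∀ n, Real.log (2 ^ (r n - σ n)) = (r n - σ n : ℝ) * lg := fun n => by
    rw [log_two_pow, Nat.cast_sub (by have := lev n; omega)]
  have h1 := (K31.dnS_cE pos).full hr (N := fun n => 2 ^ (r n - σ n) * (2 * (2 * L n) + 3))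
    (F := fun n ω => fl1 (r n) (x n ω)) (G := G) (nr.mono fun n s a ha =>
      (det_near1 (L := 2 * L n * 2 ^ (r n - σ n)) (by have := hL.pos n; positivity)
        (fun a ha b hb e => (tri n a b (hy n a ha b hb e) (s a ha) (s b hb)).trans_eq (by
          rw [pw]; field_simp)) a ha).imp fun T u => ⟨u.1.trans (by
        have : (1 : ℝ) ≤ 2 ^ (r n - σ n) := one_le_pow₀ one_le_two
        linarith), u.2⟩)
    (fu.of2 ((hL.const_mul hr one_le_two).log3 hr 1) (Eventually.of_forall fun n => by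
      have := hL.pos n
      rw [Real.log_mul (by positivity) (by positivity), lw]
      linarith))
  have h2 := le_fl1 (P := fun n => H17F.cE (P n) fun ω =>
      ¬1 ≤ Real.exp (c * r n) * 2 ^ σ n * |y n ω - x n ω|) (x := x) (G := G) (k := r)
    (j := fun n => σ n + min ⌊c * r n⌋₊ (m n)) hr (hr.sub one_le_two)
    (fun n => by have := lev n; omega) (pos.sure.mono fun n s a ha b hb e => by
      have k : ∀ ω, ¬1 ≤ Real.exp (c * r n) * 2 ^ σ n * |y n ω - x n ω| →
          |y n ω - x n ω| ≤ 1 / 2 ^ (σ n + min ⌊c * r n⌋₊ (m n)) := fun ω u => by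
        have u1 := (pow_le_pow_right₀ one_le_two (min_le_left _ (m n))).trans
          ((two_pow_le_exp ⌊c * r n⌋₊).trans
            (Real.exp_le_exp.2 (Nat.floor_le (show 0 ≤ c * r n by positivity))))
        rw [le_div_iff₀ (by positivity), mul_comm, pow_add, mul_comm (2 ^ σ n)]
        exact le_trans (by gcongr) (not_le.1 u).le
      exact (tri n a b (hy n a (s a ha).1 b (s b hb).1 e) (k a (s a ha).2)
        (k b (s b hb).2)).trans_eq (mul_one_div _ _))
  refine (h1.trans h2).false hr (mul_pos (lt_min κ0 κ0') lg_pos) ?_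
  filter_upwards [f2, f2'] with n a a'
  have l0 := hL.1 n
  have b : min κ κ' * r n ≤ (min ⌊c * r n⌋₊ (m n) : ℕ) := by
    rw [Nat.cast_min]
    exact le_min ((mul_le_mul_of_nonneg_right (min_le_left _ _) (Nat.cast_nonneg _)).trans a)
      ((mul_le_mul_of_nonneg_right (min_le_right _ _) (Nat.cast_nonneg _)).trans a')
  have b' := mul_le_mul_of_nonneg_right b lg_pos.le
  have b'' : 0 ≤ Real.log (2 * (2 * L n) + 3) := Real.log_nonneg (by linarith)
  rw [Real.log_mul (by positivity) (by positivity), lw, Nat.cast_add]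
  linarith

end GSepAA

theorem rowSepA : SepA := fun P D r σ _ _ _ h =>
  GSepAA.far (G := fun _ => Prod.fst) (x := fun n v => (D n).a v.2) (y := fun n v => (D n).a v.1)
    h.big h.frac (fun n => (h.lev n).2.1) h.sub (fun n => Fn.comp (D n).a _)
    (h.alg.mono fun n a v hv => by
      have k := (kg.mem _ _ _ _ v (Law.rfl _)).1 hv
      exact ((a.2.2.2 _ k.1 _ k.2.1).1 k.2.2.symm).near.1)
    (h.off.trans (Le.of_le fun n => (kg.mk1 (P n) (P n) ((D n).p1 (r n)) ((D n).p1 (r n))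
      (fun ω => fl1 (r n) ((D n).a ω)) id (Law.rfl _) (Fn.comp _ _)).ge))

end Pool.Agent.MP_5168f5_an.R4.Eng
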