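import Pool.Agent.MP_5168f5_an.R4.SpecEn

/-! Case B2 with `u` of weight two: the height and the tube determine the slope of the plane. -/

namespace Pool.Agent.MP_5168f5_an.R4.Eng

open H19 H17S H17F Filter Tan B1

namespace GTDA

/-- A variable of the second copy that carries no information on the common label. -/
theorem drop {Ω α β γ δ T : Type} (P : FP Ω) (F : Ω → α) (K : Ω → β) (W : Ω → γ) {S : Ω → δ}
    {θ : Ω → T} (h : Fn P θ S) (h' : Fn P θ K) : ch P F K ≤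
      ch (glue P P S S) (fun v => F v.1) (fun v => (W v.2, K v.1)) + mi P W S θ := by
  have m := fun v => (kg.mem P P S S v (Law.rfl _)).1
  have e1 := (kg.fst P P S S).ch_id F K
  have e2 := (kg.snd P P S S (Law.rfl _)).ch_id W θ
  have e3 := kg.mk1 P P S S W id (Law.rfl _) (Fn.comp S id)
  have e4 := mi_symm (P := glue P P S S) (fun v => F v.1) (fun v => W v.2) fun v => K v.1
  have e5 : ch (glue P P S S) (fun v => W v.2) (fun v => K v.1) ≤
      ch (glue P P S S) (fun v => W v.2) fun v => θ v.2 := ch_anti fun a ha b hb e => by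
    obtain ⟨a1, a2, a3⟩ := m a ha
    obtain ⟨b1, b2, b3⟩ := m b hb
    rw [h _ a2 _ a1 a3, h _ b2 _ b1 b3, h' _ a1 _ b1 e]
  have e6 : ch (glue P P S S) (fun v => W v.2) (fun v => id v.1) ≤
      ch (glue P P S S) (fun v => W v.2) fun v => (F v.1, K v.1) :=
    ch_anti (Fn.comp (fun u => (F u, K u)) _)
  have e7 : ch P W (fun ω => (S ω, θ ω)) ≤ ch P W S := ch_anti (Fn.fst _ _)
  unfold mi at e4 ⊢
  linarith

theorem pos {L t a b a' b' z y z' y' w u w' u' : ℝ} (l : 1 ≤ L) (t0 : 0 ≤ t)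
    (h1 : |a - b + y * (w - u)| ≤ L * t) (h2 : |a' - b' + y' * (w' - u')| ≤ L * t)
    (h3 : |z - y| ≤ L * t) (h4 : |z' - y'| ≤ L * t) (ea : |a - a'| ≤ t) (ez : |z - z'| ≤ t)
    (ew : |w - w'| ≤ t) (eu : |u - u'| ≤ t) (bw : |w| ≤ L) (bu : |u| ≤ L) (y0 : 0 ≤ y')
    (y1 : y' ≤ 1) : |b - b'| ≤ 11 * L ^ 2 * t := by
  have p : t ≤ L * t := le_mul_of_one_le_left t0 l
  have q : L * t ≤ L * (L * t) := le_mul_of_one_le_left (by positivity) l
  have k1 : |(y - y') * (w - u)| ≤ 3 * (L * t) * (2 * L) := by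
    rw [abs_mul]
    refine mul_le_mul ?_ ((abs_sub _ _).trans (by linarith)) (abs_nonneg _) (by positivity)
    rw [abs_le] at *
    constructor <;> linarith
  have k2 : |y' * (w - w' - (u - u'))| ≤ 1 * (2 * t) := by
    rw [abs_mul, abs_of_nonneg y0]
    exact mul_le_mul y1 ((abs_sub _ _).trans (by linarith)) (abs_nonneg _) zero_le_one
  rw [abs_le] at *
  constructor <;> nlinarith

theorem slope {L t τ τ' e f e' f' w u w' u' : ℝ} (l : 1 ≤ L) (t0 : 0 ≤ t)
    (h1 : |e - f - τ * (w - u)| ≤ L * t) (h2 : |e' - f' - τ' * (w' - u')| ≤ L * t)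
    (ee : |e - e'| ≤ t) (ef : |f - f'| ≤ t) (ew : |w - w'| ≤ t) (eu : |u - u'| ≤ t)
    (b : |τ'| ≤ L) (s : 1 ≤ L * |w - u|) : |τ - τ'| ≤ 6 * L ^ 2 * t := by
  have p : t ≤ L * t := le_mul_of_one_le_left t0 l
  have k1 : |τ' * (w - w' - (u - u'))| ≤ L * (2 * t) := by
    rw [abs_mul]
    exact mul_le_mul b ((abs_sub _ _).trans (by linarith)) (abs_nonneg _) (by positivity)
  have k2 : |τ - τ'| * |w - u| ≤ 6 * (L * t) := by
    rw [← abs_mul]
    rw [abs_le] at *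
    constructor <;> linarith
  nlinarith [mul_le_mul_of_nonneg_left s (abs_nonneg (τ - τ')),
    mul_le_mul_of_nonneg_left k2 (zero_le_one.trans l)]

theorem dv {L x : ℝ} {σ m : ℕ} (l : 1 ≤ L) (h : x ≤ L / 2 ^ (σ + m)) : x ≤ L * (2 ^ m)⁻¹ :=
  h.trans (U.div_pow_le (zero_le_one.trans l) (Nat.le_add_left _ _))

end GTDA

open GTDA

theorem rowTD : TD := by
  intro Ω P D r σ m κ L h
  have mr : ∀ n, m n ≤ r n := h.frac.1
  have d1 := K31.dnS_law (Eventually.of_forall fun n => kg.fst (P n) (P n) (D n).S' (D n).S')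
  have d2 := K31.dnS_law (Eventually.of_forall fun n =>
    kg.snd (P n) (P n) (D n).S' (D n).S' (Law.rfl _))
  have mem := fun n v => (kg.mem (P n) (P n) (D n).S' (D n).S' v (Law.rfl _)).1
  have s2 := fun (C : ℝ) hC => (h.sub.pow 2).const_mul h.big (C := C) hC
  let K := fun n (v : Ω n × Ω n) =>
    (fl1 (m n) ((D n).w v.2), fl1 (r n) ((D n).z v.1), (D n).tb (m n) v.1)
  have a1 : ND _ r _ K := (ND.dn (h.nil m mr) d1).anti
    (Eventually.of_forall fun _ _ _ _ _ e => congrArg (·.2.2) e)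
  have a2 : ND (fun n => glue (P n) (P n) (D n).S' (D n).S') r
      (fun n v => fl1 (m n) ((D n).a v.2)) K := by
    refine Sm.near1 h.big (s2 11 (by norm_num)) (h.alg.mono fun n ⟨_, _, o, f⟩ a ha b hb e => ?_)
    obtain ⟨a1, a2, a3⟩ := mem n a ha
    obtain ⟨b1, b2, b3⟩ := mem n b hb
    have fa := (f _ a1 _ a2).2 a3.symm
    have fb := (f _ b1 _ b2).2 b3.symm
    have l := h.sub.1 n
    simp only [K, Ev.tb, Prod.mk.injEq] at e
    exact pos l (by positivity) (dv l fa.pos) (dv l fb.pos) (dv l fa.z) (dv l fb.z)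
      (abs_sub_lt_of_fl1_eq e.2.2.1).le (abs_sub_lt_of_fl1_eq (fl1_eq_of_le (mr n) e.2.1)).le
      (abs_sub_lt_of_fl1_eq e.2.2.2.1).le (abs_sub_lt_of_fl1_eq e.1).le (o _ a1).ln.2.1
      (o _ a2).ln.2.1 (o _ b2).z.1 (o _ b2).z.2.le
  have a3 : ND _ r _ K := (ND.dn (h.nil m mr) d2).trans (a2.pair (ND.of_fn
    (h.alg.mono fun n ⟨f, g, _⟩ a ha b hb e => ?_)))
  · have a4 : ND (fun n => glue (P n) (P n) (D n).S' (D n).S') r
        (fun n v => fl1 (m n) ((D n).τ v.1)) fun n v =>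
          ((fl1 (m n) ((D n).e v.1), fl1 (m n) ((D n).e v.2)), K n v) := by
      refine U.UMu4A.nearW h.big (s2 6 (by norm_num)) h.sep0 mr
        (h.alg.mono fun n ⟨_, _, o, f⟩ => ⟨fun a ha => ?_, fun a ha b hb u _ e => ?_⟩)
      · have := (o _ (mem n a ha).1).bd.1
        have := h.sub.1 n
        have := one_le_pow₀ (M₀ := ℝ) (n := r n) one_le_two
        nlinarith
      obtain ⟨a1, a2, a3⟩ := mem n a ha
      obtain ⟨b1, b2, b3⟩ := mem n b hb
      have l := h.sub.1 n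
      simp only [K, Ev.tb, Prod.mk.injEq] at e
      exact slope l (by positivity) (dv l ((f _ a1 _ a2).2 a3.symm).sl)
        (dv l ((f _ b1 _ b2).2 b3.symm).sl) (abs_sub_lt_of_fl1_eq e.1.1).le
        (abs_sub_lt_of_fl1_eq e.1.2).le (abs_sub_lt_of_fl1_eq e.2.2.2.2.1).le
        (abs_sub_lt_of_fl1_eq e.2.1).le (o _ b1).bd.1 u
    refine Sm.mono (Sm.add ((a1.pair a3).cut a4) h.typ) (h.alg.mono fun n ⟨f, g, _⟩ => ?_)
    refine (drop (P n) _ _ (fun ω => fl1 (m n) ((D n).w ω)) (θ := (D n).θ)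
      (fun a ha b hb e => congrArg Prod.fst (f a ha b hb (congrArg Prod.fst (g a ha b hb e))))
      fun _ _ _ _ e => congrArg (·.2.2.2) e).trans (add_le_add le_rfl (mi_mono' ?_))
    exact fun _ _ _ _ e => fl1_eq_of_le (mr n) (congrArg Prod.fst e)
  · obtain ⟨a1, a2, a3⟩ := mem n a ha
    obtain ⟨b1, b2, b3⟩ := mem n b hb
    have t := fun u hu v hv e => congrArg Prod.fst (f u hu v hv (congrArg Prod.fst (g u hu v hv e)))
    simp only [K, Ev.tb, Prod.mk.injEq] at e t ⊢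
    exact ⟨e.1, (t _ a2 _ a1 a3).trans (e.2.2.2.2.trans (t _ b1 _ b2 b3.symm))⟩

end Pool.Agent.MP_5168f5_an.R4.Eng
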