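import Pool.Agent.MP_5168f5_an.R4.RedDisc
import Pool.Agent.MP_5168f5_an.H17S.COV
import Pool.Agent.MP_5168f5_an.H17S.PICK
import Pool.Agent.MP_5168f5_an.H17S.MEAS
import Pool.Agent.MP_5168f5_an.H17S.FINAL

/-! From the discretised theorem to the Hausdorff dimension. -/

namespace Pool.Agent.MP_5168f5_an.R4

open H19 H17S MeasureTheory Filter

open MEAS in
theorem meas0 {N : ℕ} (hD : Disc0 N) {ε : ℝ} (hε : 0 < ε) (K : Set (V N × ℝ))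
    (A : Set (V N × V N)) {c : ℝ} (hc : 0 < c) (hv : volume (Prod.snd '' A) ≠ 0)
    (hA : ∀ l ∈ A, (∀ i, 0 ≤ l.1 i ∧ l.1 i < 1) ∧ (∀ i, 0 ≤ l.2 i ∧ l.2 i < 1) ∧
      ∃ z₀ : ℝ, 0 ≤ z₀ ∧ z₀ + c < 1 ∧ ∀ z ∈ Set.Icc z₀ (z₀ + c), (l.1 + z • l.2, z) ∈ K) :
    ENNReal.ofReal (N + 1 - ε) ≤ dimH K := by
  obtain ⟨η, hη, M₀, hD⟩ := hD (ε / 4) (by linarith)
  by_contra hlt
  rw [not_le] at hlt
  set d : ℝ := N + 1 - ε with hd
  have hd0 : 0 < d := ENNReal.ofReal_pos.1 (lt_of_le_of_lt zero_le hlt)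
  obtain ⟨b, hb, hP⟩ := rowPICK N K A c hc hv fun l hl => (hA l hl).2
  obtain ⟨M₁, hM₁⟩ := eventually_atTop.1 ((ev_sq hη b⁻¹).and
    ((ev_sq (show 0 < ε / 4 by linarith) b⁻¹).and
    ((ev (half_pos hε) ((2 : ℝ) ^ d * (5 ^ N * 5))).and (eventually_ge_atTop M₀))))
  obtain ⟨C, h1, h2⟩ := rowCOV N K d M₁ hd0 hlt
  obtain ⟨M, hM, G, Y, g1, g2, g3, g4⟩ := hP M₁ C h2
  obtain ⟨m1, m2, m3, m4⟩ := hM₁ M hM
  obtain ⟨E, e1, e2⟩ := pts M (C M)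
  have h3 := hD M m4 G Y E (fun g hg => ⟨(hA g (g1 g hg)).1, (hA g (g1 g hg)).2.1⟩) g2
    (fun g hg => ⟨(g4 g hg).1, ?_⟩) fun g hg t ht => e2 _ t ((g4 g hg).2.2 t ht)
  · have h0 := mul_le_mul_of_nonneg_right (many hb (Nat.cast_nonneg _) m2 g3)
      (show (0 : ℝ) ≤ (2 : ℝ) ^ ((1 - ε / 4) * M) by positivity)
    have h4 : (2 : ℝ) ^ ((N - ε / 4) * M) * (2 : ℝ) ^ ((1 - ε / 4) * M) =
        2 ^ (d * M) * 2 ^ (ε / 2 * M) := by
      rw [← Real.rpow_add (by norm_num), ← Real.rpow_add (by norm_num), hd]; congr 1; ring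
    have h5 : (2 : ℝ) ^ (d * (M + 1)) = 2 ^ (d * M) * 2 ^ d := by
      rw [← Real.rpow_add (by norm_num)]; congr 1; ring
    have h6 := (h0.trans h3).trans (e1.trans (mul_le_mul_of_nonneg_right (h1 M) (by positivity)))
    rw [h4, h5, mul_assoc] at h6
    exact absurd (le_of_mul_le_mul_left h6 (by positivity)) (not_le.2 m3)
  · have := many (k := 1) hb (Nat.cast_nonneg _) m1 (by simpa using (g4 g hg).2.1)
    simpa using this

open FINAL in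
/-- Kakeya sets have full Hausdorff dimension. -/
theorem dim_of_disc {N : ℕ} (hD : Disc0 N) (K : Set (E N)) (hK : IsCompact K)
    (hdir : ∀ v : E N, ‖v‖ = 1 → ∃ p : E N, ∀ t ∈ Set.Icc (0 : ℝ) 1, p + t • v ∈ K) :
    dimH K = (N + 1 : ℕ) := by
  refine le_antisymm ?_ ?_
  · refine (dimH_mono (Set.subset_univ K)).trans ?_
    rw [Real.dimH_univ_eq_finrank, finrank_euclideanSpace_fin]
  obtain ⟨R, R0, hR⟩ := hK.isBounded.exists_pos_norm_lt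
  let L : Set (E N × E N) := {l | inner ℝ l.1 l.2 = (0 : ℝ) ∧
    ∃ t₀ : ℝ, ∀ t ∈ Set.Icc t₀ (t₀ + 1), l.2 + t • l.1 ∈ K}
  have hL : ∀ v : E N, ‖v‖ = 1 → ∃ p, (v, p) ∈ L := by
    intro v hv
    obtain ⟨p, hp⟩ := hdir v hv
    refine ⟨p - (inner ℝ v p : ℝ) • v, ?_, inner ℝ v p, fun t ht => ?_⟩
    · simp only [inner_sub_right, real_inner_smul_right, real_inner_self_eq_norm_sq, hv]
      ring
    · have := hp (t - inner ℝ v p) ⟨by linarith [ht.1], by linarith [ht.2]⟩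
      have e : p - (inner ℝ v p : ℝ) • v + t • v = p + (t - inner ℝ v p) • v := by module
      show p - (inner ℝ v p : ℝ) • v + t • v ∈ K
      rwa [e]
  let A : Z N → Set (E N × E N) := fun j => {l | l ∈ S N R ∧ l ∈ L ∧
    (∀ i, 0 ≤ (Ψ R j l).1 i ∧ (Ψ R j l).1 i < 1) ∧ ∀ i, 0 ≤ (Ψ R j l).2 i ∧ (Ψ R j l).2 i < 1}
  have h1 : (Set.univ.pi fun _ : Fin N => Set.Ico (0 : ℝ) 1) ⊆
      ⋃ j, Prod.snd '' (Ψ R j '' A j) := by
    intro e he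
    have he' : ∀ i, 0 ≤ e i ∧ e i < 1 := fun i => he i trivial
    obtain ⟨v, v1, v2, v3⟩ := dir e he'
    obtain ⟨p, hp⟩ := hL v v1
    obtain ⟨a2, t₀, a3⟩ := id hp
    refine Set.mem_iUnion.2 ⟨fun i => ⌊(p i.succ - (p 0 + R) * (v i.succ / v 0)) / (2 * R)⌋,
      _, ⟨(v, p), ⟨⟨⟨mem_closedBall_zero_iff.2 v1.le, v2⟩, mem_closedBall_zero_iff.2 ?_⟩, hp,
        fun i => ⟨Int.fract_nonneg _, Int.fract_lt_one _⟩, fun i => ?_⟩, rfl⟩, funext v3⟩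
    · exact (norm_le a2 t₀).trans (hR _ (a3 t₀ ⟨le_rfl, by linarith⟩)).le
    · have := he' i
      rwa [← v3] at this
  obtain ⟨j, hj⟩ : ∃ j, volume (Prod.snd '' (Ψ R j '' A j)) ≠ 0 := by
    by_contra h2
    push Not at h2
    have h3 := measure_mono_null h1 (measure_iUnion_null h2)
    rw [Real.volume_pi_Ico] at h3
    simp at h3
  refine ENNReal.le_of_forall_pos_le_add fun ε hε _ => ?_
  have h2 := meas0 hD (show (0 : ℝ) < ε from hε) (Φ R j '' K) (Ψ R j '' A j)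
    (show 0 < 1 / (N + 1 : ℝ) / (2 * R) by positivity) hj (by
      rintro _ ⟨l, ⟨a1, ⟨-, t₀, a5⟩, a3, a4⟩, rfl⟩
      exact ⟨a3, a4, line R0 hR j a1 a5⟩)
  have e : ((N + 1 : ℕ) : ENNReal) = ENNReal.ofReal ((N + 1 - ε) + ε) := by
    rw [sub_add_cancel, ← ENNReal.ofReal_natCast]
    push_cast
    rfl
  rw [e]
  refine ENNReal.ofReal_add_le.trans ?_
  rw [ENNReal.ofReal_coe_nnreal]
  exact add_le_add (h2.trans (dim_le R j K)) le_rfl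

end Pool.Agent.MP_5168f5_an.R4
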