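import Pool.Agent.MP_5168f5_an.R4.All2
import Pool.Agent.MP_5168f5_an.R4.B2Eng
import Pool.Agent.MP_5168f5_an.R4.GAff
import Pool.Agent.MP_5168f5_an.R4.GEnD
import Pool.Agent.MP_5168f5_an.R4.GEnG
import Pool.Agent.MP_5168f5_an.R4.GEngel
import Pool.Agent.MP_5168f5_an.R4.GFin1
import Pool.Agent.MP_5168f5_an.R4.GFuP
import Pool.Agent.MP_5168f5_an.R4.GFuX
import Pool.Agent.MP_5168f5_an.R4.GKill
import Pool.Agent.MP_5168f5_an.R4.GLinD
import Pool.Agent.MP_5168f5_an.R4.GOffA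
import Pool.Agent.MP_5168f5_an.R4.GSepA
import Pool.Agent.MP_5168f5_an.R4.GTD
import Pool.Agent.MP_5168f5_an.R4.RedDim

/-! The entropy theorem in four dimensions. -/

namespace Pool.Agent.MP_5168f5_an.R4

theorem engel : Eng.Engel :=
  Eng.rowEngel Eng.rowEnD (B2.fanS_of LG.cap) Eng.rowOffA Eng.rowEnG
    (Eng.rowFin1 (Eng.rowKill Eng.rowTD Eng.rowLinD Eng.rowFuX
      (Eng.rowAff Eng.rowSepA Eng.rowFuX) Eng.rowFuP))

theorem mu0_three : Mu0 3 := mu0_of1 (B2.eng_of engel LG.gn)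

/-- Kakeya sets in four dimensions have full Hausdorff dimension. -/
theorem fourDim (K : Set (EuclideanSpace ℝ (Fin 4))) (hK : IsCompact K)
    (h : ∀ v : EuclideanSpace ℝ (Fin 4), ‖v‖ = 1 →
      ∃ a : EuclideanSpace ℝ (Fin 4), ∀ t ∈ Set.Icc (0 : ℝ) 1, a + t • v ∈ K) :
    dimH K = 4 :=
  (dim_of_disc (disc0 mu0_three) K hK h).trans (by norm_num)

end Pool.Agent.MP_5168f5_an.R4
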