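import Pool.Agent.MP_5168f5_an.R4.SpecB

/-! Kakeya sets in four dimensions, broad slopes: the end of case B1. -/

namespace Pool.Agent.MP_5168f5_an.R4.B1

open H19 H17S H17F Filter K31 Tan

namespace BB1FA

theorem chain3 {Ω β : Type} (P : FP Ω) (u : Ω → ℝ) (W : Ω → β) {p p' r : ℕ} (h : p ≤ p')
    (h' : p' ≤ r) : ch P (fun ω => fl1 p' (u ω)) (fun ω => (fl1 p (u ω), W ω)) +
      ch P (fun ω => fl1 r (u ω)) (fun ω => (fl1 p' (u ω), W ω)) ≤
      ch P (fun ω => fl1 r (u ω)) fun ω => (fl1 p (u ω), W ω) := by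
  have h1 := ch_chain (P := P) (fun ω => fl1 p' (u ω)) (fun ω => fl1 r (u ω))
    fun ω => (fl1 p (u ω), W ω)
  have h2 : ch P (fun ω => (fl1 p' (u ω), fl1 r (u ω))) (fun ω => (fl1 p (u ω), W ω)) ≤
      ch P (fun ω => fl1 r (u ω)) fun ω => (fl1 p (u ω), W ω) :=
    ch_mono (Fn.pair (fun _ _ _ _ e => fl1_eq_of_le h' (congrArg Prod.fst e)) (Fn.fst _ _))
  have h3 : ch P (fun ω => fl1 r (u ω)) (fun ω => (fl1 p' (u ω), W ω)) ≤
      ch P (fun ω => fl1 r (u ω)) fun ω => (fl1 p' (u ω), fl1 p (u ω), W ω) :=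
    ch_anti ((Fn.fst _ _).pair
      (Fn.pair (fun _ _ _ _ e => fl1_eq_of_le h (congrArg Prod.fst e)) (Fn.snd _ _)))
  linarith

/-- The depths in case B1. -/
structure Dp (γ d : ℝ) (a c p q q' r : ℕ) : Prop where
  ca : c ≤ a
  p1 : (γ - 1) * a ≤ p
  p2 : (p : ℝ) ≤ (γ - 1) * a + 1
  pc : (p : ℝ) ≤ γ * c + (γ + 1)
  cq : d * c ≤ q
  q1 : (q' : ℝ) ≤ (d - 1) * a
  qq : (d / γ - 1) * a - 2 ≤ q' - q
  pr : p + a ≤ r
  qr : γ * q' ≤ r

theorem dp {γ d : ℝ} (h : 1 < γ) (h' : γ < d) (a : ℕ) : Dp γ d a ⌊(γ - 1) * a / γ⌋₊ ⌈(γ - 1) * a⌉₊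
    ⌈d * ⌊(γ - 1) * a / γ⌋₊⌉₊ ⌊(d - 1) * a⌋₊ (⌈γ * d⌉₊ * a + a) := by
  have a0 : (0 : ℝ) ≤ a := Nat.cast_nonneg a
  have g0 : 0 < γ := by linarith
  have g1 : 0 ≤ (γ - 1) * a := mul_nonneg (by linarith) a0
  have e1 := Nat.floor_le (div_nonneg g1 g0.le)
  have e2 := Nat.lt_floor_add_one ((γ - 1) * a / γ)
  have e3 := Nat.ceil_lt_add_one g1
  have e4 := Nat.floor_le (mul_nonneg (by linarith : 0 ≤ d - 1) a0)
  have e5 := Nat.lt_floor_add_one ((d - 1) * a)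
  have e6 := Nat.ceil_lt_add_one (mul_nonneg (by linarith : 0 ≤ d)
    (Nat.cast_nonneg (α := ℝ) ⌊(γ - 1) * a / γ⌋₊))
  have e7 := mul_le_mul_of_nonneg_right (Nat.le_ceil (γ * d)) a0
  have e8 := mul_le_mul_of_nonneg_left e1 (by linarith : 0 ≤ d)
  have e9 : d * ((γ - 1) * a / γ) = (d - 1) * a - (d / γ - 1) * a := by field_simp; ring
  rw [div_lt_iff₀ g0] at e2
  refine ⟨Nat.floor_le_of_le ?_, Nat.le_ceil _, e3.le, by linarith, Nat.le_ceil _, e4, by linarith,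
    Nat.add_le_add_right (Nat.ceil_le.2 ?_) _, ?_⟩
  · rw [div_le_iff₀ g0]; linarith
  · push_cast; nlinarith [mul_nonneg (mul_nonneg g0.le (by linarith : 0 ≤ d - 1)) a0]
  · push_cast; nlinarith [mul_le_mul_of_nonneg_left e4 g0.le, mul_nonneg g0.le a0]

end BB1FA

open BB1FA

theorem rowB1F : RB1F := by
  intro sw ha hb hc hd Ω K g M mm D η γ d ε₀ ρ X a b k t h1 h2 v s κ hκ e
  have hM := v.big
  obtain ⟨c, p, q, q', r, hr, w⟩ : ∃ c p q q' r : ℕ → ℕ, OM M r ∧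
      ∀ n, Dp γ d (a n) (c n) (p n) (q n) (q' n) (r n) :=
    ⟨_, _, _, _, _, ((s.om.mono s.le).mul _).add (s.om.mono s.le), fun n => dp h1 h2 (a n)⟩
  have d0 : 0 < d / γ - 1 := by rw [sub_pos, one_lt_div (by linarith)]; exact h2
  have qr : ∀ n, q' n ≤ r n := fun n => by
    have : (q' n : ℝ) ≤ r n :=
      (le_mul_of_one_le_left (Nat.cast_nonneg _) h1.le).trans (w n).qr
    exact_mod_cast this
  have qq : ∀ᶠ n in UF, q n ≤ q' n ∧ (d / γ - 1) * κ / 2 * M n ≤ q' n - q n := by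
    filter_upwards [e, hM.ev (4 / ((d / γ - 1) * κ))] with n u z
    rw [div_le_iff₀ (by positivity)] at z
    have := mul_le_mul_of_nonneg_left u d0.le
    have := (w n).qq
    exact ⟨by exact_mod_cast (by linarith : (q n : ℝ) ≤ q' n), by linarith⟩
  have a1 := ha K g M mm D η γ d ε₀ ρ X a b k t h1 h2 v s c p q q' r hr
    ((s.le.and qq).mono fun n u => ⟨(w n).ca.trans u.1, (Nat.le_add_right _ _).trans (w n).pr,
      (w n).cq, u.2.1, qr n⟩)
    ((hM.sm (γ + 1)).of_sub (Eventually.of_forall fun n => by linarith [(w n).pc]))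
  have a2 := hb K g M mm D η γ d ε₀ ρ X a b k t h1 h2 v s p a q' r κ hr hκ
    (e.mono fun n u => ⟨(w n).p1, u, (w n).pr, qr n⟩)
    ((hM.sm 1).of_sub (Eventually.of_forall fun n => by push_cast; linarith [(w n).p2]))
    (Le.of_le fun n => (w n).q1)
  have a3 := hc K g M mm D η γ d ε₀ ρ X a b k t h1 h2 v s a (fun n => p n + a n) q' r hr
    (Eventually.of_forall fun n => ⟨le_rfl, by push_cast; linarith [(w n).p1], (w n).pr, qr n⟩)
    (Le.of_le fun n => by linarith [(w n).q1, Nat.cast_nonneg (α := ℝ) (a n)])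
  have a4 := hd K g M mm D η γ d ε₀ ρ X a b k t h1 h2 v s q q' r hr
    (qq.mono fun n u => ⟨u.1, (w n).qr⟩)
  refine Le.false (f := fun n => ε₀ * lg * (q' n - q n)) (g := fun _ => 0)
    (a1.of4 a2 a3 a4 (qq.mono fun n u => ?_)) hM
    (c := ε₀ * lg * ((d / γ - 1) * κ / 2)) (by have := v.e0.1; have := lg_pos; positivity)
    (qq.mono fun n u => by
      rw [zero_add, mul_assoc (ε₀ * lg)]
      exact mul_le_mul_of_nonneg_left u.2 (mul_pos v.e0.1 lg_pos).le)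
  have b1 := sw (X n).Q (fun v => (X.G g n).pt v 1)
    (fun v => fl1 (q n) (sh (Gh D X b k n v) ((X.G g n).pt v)))
    (fun v => fl1 (q' n) (sh (Gh D X b k n v) ((X.G g n).pt v)))
    (fun v => (Gh D X b k n v, xz (X.G g n) (r n) v)) (p n) (r n)
    ((Nat.le_add_right _ _).trans (w n).pr) fun _ _ _ _ e => fl1_eq_of_le u.1 e
  have b2 := chain3 (X n).Q (fun v => (X.G g n).pt v 1)
    (fun v => (fl1 (q' n) (sh (Gh D X b k n v) ((X.G g n).pt v)), Gh D X b k n v,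
      xz (X.G g n) (r n) v)) (Nat.le_add_right (p n) (a n)) (w n).pr
  push_cast
  linarith

theorem rowCP1 : RCP1 := by
  intro ng pa Ω K g M mm D η γ d ε₀ t ⟨h1, h2⟩ br
  have hM := t.toTn.big
  obtain ⟨X, hX⟩ := t.ne
  have g0 : 0 < γ := by linarith
  have t1 : d / γ < 1 := (div_lt_one g0).2 h2
  have t2 : 0 < d / γ := by positivity
  obtain ⟨θ, θ0, θ1, θ2⟩ : ∃ θ : ℝ, 0 < θ ∧ θ ≤ 1 ∧ γ * θ ≤ γ - d :=
    ⟨1 - d / γ, by linarith, by linarith, le_of_eq (by field_simp)⟩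
  have m0 : ∀ n, (0 : ℝ) ≤ M n := fun n => Nat.cast_nonneg _
  have s1 : ∀ n, (⌈(d - 1) * M n⌉₊ : ℝ) < (d - 1) * M n + 1 := fun n =>
    Nat.ceil_lt_add_one (mul_nonneg (by linarith) (m0 n))
  have p1 : ∀ n, (⌊(γ - 1) * M n⌋₊ : ℝ) ≤ (γ - 1) * M n := fun n =>
    Nat.floor_le (mul_nonneg (by linarith) (m0 n))
  have n1 := Nat.le_ceil γ
  have r1 : ∀ n, ⌈(d - 1) * M n⌉₊ + lev M θ n ≤ (⌈γ⌉₊ + 1) * M n := fun n => by
    rw [add_mul, one_mul]
    refine add_le_add (Nat.ceil_le.2 ?_) (lev_le M θ1 n)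
    push_cast
    exact mul_le_mul_of_nonneg_right (by linarith) (m0 n)
  have r2 : ∀ n, ⌊(γ - 1) * M n⌋₊ ≤ (⌈γ⌉₊ + 1) * ((⌈γ⌉₊ + 1) * M n) := fun n =>
    (Nat.floor_le_of_le (by
      push_cast; exact mul_le_mul_of_nonneg_right (by linarith) (m0 n))).trans
      (Nat.le_mul_of_pos_left ((⌈γ⌉₊ + 1) * M n) (Nat.succ_pos _))
  have hr : OM M fun n => (⌈γ⌉₊ + 1) * ((⌈γ⌉₊ + 1) * M n) := (OM.rfl.mul _).mul _
  have e : ∀ᶠ n in UF, θ / 2 * M n ≤ lev M θ n :=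
    (lev_gap hM (c := 0) (c' := θ) (ε := θ / 2) le_rfl (by linarith)).mono fun n u =>
      le_trans (le_add_of_nonneg_left (Nat.cast_nonneg _)) u
  have a1 := pa K g M mm D η γ d ε₀ (θ / 2) X M (fun n => ⌈(d - 1) * M n⌉₊) (lev M θ)
    (fun n => ⌊(γ - 1) * M n⌋₊) _ t h2.le br hX OM.rfl hr (half_pos θ0)
    (e.mono fun n u => ⟨Nat.le_ceil _, u,
      (r1 n).trans (Nat.le_mul_of_pos_left _ (Nat.succ_pos _)), r2 n⟩)
    ((hM.sm 1).of_sub (Eventually.of_forall fun n => by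
      have : (lev M θ n : ℝ) ≤ M n := by exact_mod_cast lev_le M θ1 n
      push_cast; linarith [s1 n])) (Le.of_le p1)
  have a2 := ng K g M mm D η γ d ε₀ X (fun n => ⌈(d - 1) * M n⌉₊)
    (fun n => ⌈(d - 1) * M n⌉₊ + lev M θ n) (fun n => ⌊(γ - 1) * M n⌋₊) _ t hX hr
    (Eventually.of_forall fun n => ⟨Nat.le_add_right _ _, r2 n, by
      rw [Nat.cast_mul]
      exact mul_le_mul (by push_cast; linarith) (by exact_mod_cast r1 n) (Nat.cast_nonneg _)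
        (Nat.cast_nonneg _)⟩)
    ((hM.sm (γ + d)).of_sub (Eventually.of_forall fun n => by
      have b1 := mul_le_mul_of_nonneg_left (s1 n).le g0.le
      have b2 := mul_le_mul_of_nonneg_left (lev_le' M θ0.le n) g0.le
      have b3 := mul_le_mul_of_nonneg_left (Nat.lt_floor_add_one ((γ - 1) * M n)).le
        (by linarith : 0 ≤ d)
      have b4 := mul_le_mul_of_nonneg_right θ2 (m0 n)
      push_cast; linarith)) (Or.inl h2.le)
  exact (a1.trans a2).false hM (c := ε₀ * lg * (θ / 2))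
    (by have := t.e0.1; have := lg_pos; positivity) (e.mono fun n u => by
      have := mul_le_mul_of_nonneg_left u (mul_pos t.e0.1 lg_pos).le
      push_cast; linarith)

end Pool.Agent.MP_5168f5_an.R4.B1
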