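import Pool.Agent.MP_5168f5_an.R4.SpecB

/-! Kakeya sets in four dimensions, broad slopes: the slope of the cells is a function of the
line. -/

namespace Pool.Agent.MP_5168f5_an.R4.B1

open H19 H17S H17F Filter K31 Tan

namespace BB1GA

variable {Ω : ℕ → Type} {K : Mb Ω → Prop} {g : Gs 3 Ω} {M mm : ℕ → ℕ} {D : ∀ n, Td (Ω n)}
  {η γ d ε₀ : ℝ} {X : Mb Ω}

/-- The slice of a cell is a filled segment. -/
theorem cell (h : T2 K g M mm D η γ d ε₀) (e : γ ≤ d) (hX : K X) {b q q' r : ℕ → ℕ}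
    (hb : OM M b) (hr : OM M r) (h1 : ∀ᶠ n in UF, γ * b n ≤ q n ∧ q n ≤ q' n ∧ q' n ≤ r n)
    (h2 : Le M (fun n => q' n) fun n => d * b n) :
    Seg X.P (fun n v => (X.G g n).pt v 1) (fun n v => (X.G g n).pt v 2)
      (fun n => xz (X.G g n) (r n)) (fun n => (mD X D n).S (b n)) (Gc (mD X D) b) M q q' := by
  have c := h.com X hX
  have hM := h.toTn.big
  obtain ⟨L, hL, w⟩ := cell_near ((h.fl X hX).cellH e) hM (zero_le_one.trans h.dge) hb h2
  refine ⟨⟨fun n v => ((mD X D n).H (b n) v).1 + ((mD X D n).H (b n) v).2.1 * (X.G g n).z v +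
    ((mD X D n).H (b n) v).2.2 0 * U.rd (r n) ((X.G g n).pt v 0), _, hL.const_mul hM one_le_two,
    c.nest.mono fun n a => ?_, w.mono (h1.mono fun n a v _ u => ⟨?_, ?_⟩)⟩, ?_⟩
  · have k : Fn (X n).Q ((mD X D n).H (b n)) ((mD X D n).S (b n)) := fun x hx y hy s =>
      congrArg (·.2.2.2.2) ((a.2 (b n)).2 x hx y hy s)
    refine ⟨fun x hx y hy s => congrArg (·.2.2 1) (k x hx y hy s), fun x hx y hy s => ?_⟩
    simp only [xz, Geo.zt, Prod.mk.injEq] at s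
    have k1 : (D n).H (b n) ((X n).ρ x) = (D n).H (b n) ((X n).ρ y) := k x hx y hy s.1
    simp only [U.rd, k1, s.2.1, s.2.2.1]
  · exact (u.2.1 1).1.trans (by linarith [hL.pos n])
  · have v3 := u.2.2.1
    rw [sum01 fun i => (u.2.1 i).2] at v3
    refine le_trans (le_of_eq (congrArg _ ?_)) (near_rd (y := (X.G g n).pt v 2 -
      ((mD X D n).H (b n) v).1 - ((mD X D n).H (b n) v).2.1 * (X.G g n).z v -
      ((mD X D n).H (b n) v).2.2 1 * (X.G g n).pt v 1) (x := (X.G g n).pt v 0)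
      (le_trans (le_of_eq (congrArg _ (by ring))) v3) (u.2.1 0).1 a.2.2)
    simp only [Gc]; ring
  · refine (c.fbU _ _ b hb (c.lab b hb) q q' r (hr.mono (h1.mono fun n a => a.2.2)) hr
      (h1.mono fun n a => ⟨a.1, a.2.1⟩)).trans (Le.of_le fun n => ch_anti fun x _ y _ s => ?_)
    simp only [xz, Prod.mk.injEq] at s ⊢
    tauto

theorem num {γ d c m al b : ℝ} (h1 : 1 < γ) (h2 : γ < d) (hc : c ≤ (d / γ - 1) * (γ - 1))
    (hm : 0 ≤ m) (ha : (γ - 1) * m ≤ al) (hb : al / γ < b + 1) : al + c * m ≤ d * b + d := by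
  have g0 : 0 < γ := by linarith
  have e1 : 0 ≤ d / γ - 1 := by rw [sub_nonneg, le_div_iff₀ g0]; linarith
  have e2 := mul_le_mul_of_nonneg_left ha e1
  have e3 := mul_le_mul_of_nonneg_right hc hm
  have e4 := mul_le_mul_of_nonneg_left hb.le (show 0 ≤ d by linarith)
  have e5 : d * (al / γ) = d / γ * al := by ring
  nlinarith

end BB1GA

open BB1GA in
theorem rowB1G : RB1G := by
  intro sk c3 maj vlab vup Ω K g M mm D η γ d ε₀ ρ h h1 h2 v
  have hM := v.big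
  have g0 : 0 < γ := by linarith
  have e1 : 0 < d / γ - 1 := by rw [sub_pos, lt_div_iff₀ g0]; linarith
  obtain ⟨c, c0, c1, c2⟩ : ∃ c : ℝ, 0 < c ∧ c ≤ 1 ∧ c ≤ (d / γ - 1) * (γ - 1) :=
    ⟨_, lt_min one_pos (mul_pos e1 (by linarith)), min_le_left _ _, min_le_right _ _⟩
  obtain ⟨A, A0, A1, A2⟩ : ∃ A : ℝ, 0 < A ∧ (d - γ) * A ≤ ε₀ * c / 4 ∧ γ * A ≤ γ - 1 := by
    have := v.e0.1
    refine ⟨min (ε₀ * c / 4 / (d - γ)) ((γ - 1) / γ), lt_min (div_pos (by positivity)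
      (by linarith)) (div_pos (by linarith) g0), ?_, ?_⟩
    · rw [← le_div_iff₀' (by linarith)]; exact min_le_left _ _
    · rw [← le_div_iff₀' g0]; exact min_le_right _ _
  obtain ⟨α, a1, a2⟩ : ∃ α : ℕ → ℕ, (∀ n, (γ - 1) * M n ≤ α n) ∧
      ∀ n, (α n : ℝ) ≤ (γ - 1) * M n + 1 := ⟨fun n => ⌈(γ - 1) * M n⌉₊, fun n => Nat.le_ceil _,
    fun n => (Nat.ceil_lt_add_one (mul_nonneg (by linarith) (Nat.cast_nonneg _))).le⟩
  obtain ⟨b, b1, b2⟩ : ∃ b : ℕ → ℕ, (∀ n, γ * b n ≤ α n) ∧ ∀ n, α n / γ < b n + 1 :=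
    ⟨fun n => ⌊α n / γ⌋₊, fun n => by
      rw [← le_div_iff₀' g0]; exact Nat.floor_le (by positivity), fun n => Nat.lt_floor_add_one _⟩
  obtain ⟨r, r1, r2⟩ : ∃ r : ℕ → ℕ, OM M r ∧ ∀ᶠ n in UF, γ * (α n + lev M c n : ℕ) ≤ r n := by
    refine ⟨fun n => ⌈γ * (γ + 1)⌉₊ * M n, OM.rfl.mul _, (hM.ev 1).mono fun n a => ?_⟩
    have := mul_le_mul_of_nonneg_right (Nat.le_ceil (γ * (γ + 1))) (Nat.cast_nonneg (α := ℝ) (M n))
    have k : (lev M c n : ℝ) ≤ M n := by exact_mod_cast lev_le M c1 n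
    have := mul_le_mul_of_nonneg_left (add_le_add (a2 n) k) g0.le
    push_cast; nlinarith
  have qr : ∀ᶠ n in UF, α n + lev M c n ≤ r n := r2.mono fun n a => by
    exact_mod_cast (le_mul_of_one_le_left (Nat.cast_nonneg _) h1.le).trans a
  have R1 : ∀ᶠ n in UF, c / 2 * M n ≤ lev M c n := (hM.sm 1 _ (half_pos c0)).mono fun n a => by
    linarith [lt_lev M c n]
  have p : VP M γ M α (lev M c) r := ⟨⟨OM.rfl, r1⟩, r2.mono fun n a => ⟨a1 n, a⟩,
    (hM.sm 1).of_sub (Eventually.of_forall fun n => by linarith [a2 n]),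
    (hM.sm 1).of_sub (Eventually.of_forall fun n => by
      have k : (lev M c n : ℝ) ≤ M n := by exact_mod_cast lev_le M c1 n
      push_cast; linarith [a2 n]), c / 2, half_pos c0, R1⟩
  obtain ⟨X, β, Λ, l, Γ, G, hX, fl, -, s2⟩ := vlab K g M D 1 2 γ ρ ε₀ M α (lev M c) r v p
  have ob : OM M b := r1.mono (qr.mono fun n a => by
    have : (b n : ℝ) ≤ α n := (le_mul_of_one_le_left (Nat.cast_nonneg _) h1.le).trans (b1 n)
    have : b n ≤ α n := by exact_mod_cast this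
    omega)
  have le : ∀ᶠ n in UF, α n ≤ α n + lev M c n := Eventually.of_forall fun n => Nat.le_add_right _ _
  have s0 := cell (q := α) (q' := fun n => α n + lev M c n) h h2.le hX ob r1
    (qr.mono fun n a => ⟨b1 n, Nat.le_add_right _ _, a⟩)
    ((hM.sm d).of_sub (Eventually.of_forall fun n => by
      have := num h1 h2 c2 (Nat.cast_nonneg (M n)) (a1 n) (b2 n)
      push_cast; linarith [lev_le' M c0.le n]))
  have dn := U.dnS_fst X.P X.P l l
  have s1 := sk.dn _ _ _ _ _ _ M _ _ _ _ hM le s0 dn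
  have up := vup K g M D 1 2 γ ρ ε₀ X _ _ α (fun n => α n + lev M c n) r v hX dn r1
    (r2.mono fun n a => ⟨Nat.le_add_right _ _, a⟩)
  obtain ⟨L₀, hL₀, bx⟩ := h.toTn.bx hX
  have dA : 0 ≤ (d - γ) * A := mul_nonneg (by linarith) A0.le
  have w := c3 _ _ _ _ _ _ _ _ M α (fun n => α n + lev M c n) (lev M ((d - γ) * A)) ε₀
    ⟨hM, r1.mono qr, le, ⟨ε₀ * c / 4, by have := v.e0.1; positivity, R1.mono fun n a => by
      have := mul_le_mul_of_nonneg_left a v.e0.1.le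
      have := mul_le_mul_of_nonneg_right A1 (Nat.cast_nonneg (α := ℝ) (M n))
      push_cast; nlinarith [lev_le' M dA n]⟩,
      ⟨_, hL₀.const_mul hM one_le_two, bx.mono fun n a x hx =>
        ⟨abs_pt a ((U.mem_copy _ _ x).1 hx).1 1, abs_pt a ((U.mem_copy _ _ x).1 hx).1 2⟩⟩,
      s1, s2, up⟩
  obtain ⟨E, hE, fE⟩ := maj X.P X.P l l (Gc (mD X D) b) G _ w
  obtain ⟨_, L, hL, -, wL⟩ := s0.fit
  have hE' := hE.and (wL.mono (F := fun n ω => |Gc (mD X D) b n ω| ≤ L n)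
    (Eventually.of_forall fun n ω _ a => a.1))
  refine ⟨X.cond _, lev M A, b, lev M ((d - γ) * A), A / 2, ⟨v.cl.cond X _ hX hE', ob,
    Eventually.of_forall fun n => ?_, ?_, ?_, L, hL, hE'.sure.mono fun n a x hx => (a x hx).2.2⟩,
    half_pos A0, (hM.sm 1 _ (half_pos A0)).mono fun n a => by linarith [lt_lev M A n]⟩
  · have k1 := mul_le_mul_of_nonneg_left (lev_le' M A0.le n) g0.le
    have k2 := mul_le_mul_of_nonneg_right A2 (Nat.cast_nonneg (α := ℝ) (M n))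
    have k3 : (lev M A n : ℝ) ≤ α n / γ := by rw [le_div_iff₀' g0]; nlinarith [a1 n]
    exact Nat.lt_add_one_iff.1 (by exact_mod_cast k3.trans_lt (b2 n))
  · have k := lev_eqv hM A0.le
    have k' := lev_eqv hM dA
    have e : 0 ≤ d - γ := by linarith
    exact ⟨k'.1.of2 (k.2.smul e) (Eventually.of_forall fun n => by linarith),
      k'.2.of2 (k.1.smul e) (Eventually.of_forall fun n => by linarith)⟩
  · filter_upwards [fE, hE.ex, hE'.sure] with n a e s x hx y hy t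
    exact a x ((mem_cE e x).2 ⟨(s x hx).1, (s x hx).2.1⟩) y
      ((mem_cE e y).2 ⟨(s y hy).1, (s y hy).2.1⟩) (fl n x (s x hx).1 y (s y hy).1 t)

end Pool.Agent.MP_5168f5_an.R4.B1
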