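import Pool.Agent.MP_5168f5_an.R4.SpecB

/-! Broad slopes: fill and rate of the sheared coordinate. -/

namespace Pool.Agent.MP_5168f5_an.R4.B1

open H19 H17S H17F Filter K31 Tan

namespace BB1aA

theorem nd_sh {Ω β : ℕ → Type} {P : ∀ n, FP (Ω n)} {M j r : ℕ → ℕ} {y : ∀ n, Ω n → ℝ}
    (x G u : ∀ n, Ω n → ℝ) {K : ∀ n, Ω n → β n} {L : ℕ → ℝ} (hM : Big M) (hL : Sub M L)
    (h : ∀ᶠ n in UF, j n ≤ r n ∧
      Fn (P n) (fun ω => (fl1 (j n) (x n ω), G n ω, fl1 (r n) (u n ω))) (K n) ∧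
      ∀ ω ∈ (P n).S, |G n ω| ≤ L n ∧ y n ω = x n ω + G n ω * u n ω) :
    ND P M (fun n ω => fl1 (j n) (y n ω)) K :=
  ND.sure (c := fun n ω => U.rd (j n) (x n ω) + G n ω * U.rd (r n) (u n ω)) hM
    (hL.const_mul hM one_le_two) (h.mono fun n ⟨h1, h2, h3⟩ => ⟨fun a ha b hb w => by
      have := h2 a ha b hb w
      simp only [Prod.mk.injEq] at this
      simp only [U.rd, this.1, this.2.1, this.2.2], fun ω hω => by
      rw [← sub_sub]
      refine near_rd ?_ (h3 ω hω).1 h1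
      rw [(h3 ω hω).2, sub_right_comm, add_sub_cancel_right]
      exact (U.abs_sub_rd _ _).trans (div_le_div_of_nonneg_right (hL.1 n) (by positivity))⟩)

theorem gh_bd {Ω : ℕ → Type} {K : Mb Ω → Prop} {g : Gs 3 Ω} {M a b k : ℕ → ℕ} {D : ∀ n, Td (Ω n)}
    {X : Mb Ω} {γ d : ℝ} (hM : Big M) (h : Sh K g M D X γ d a b k) :
    ∃ L, Sub M L ∧ ∀ᶠ n in UF, ∀ v ∈ (X n).Q.S, |Gh D X b k n v| ≤ L n := by
  obtain ⟨L, hL, e⟩ := h.bd
  exact ⟨_, hL.const_mul hM one_le_two, e.mono fun n u v hv =>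
    (U.abs_rd _ _).trans (by linarith [u v hv, hL.1 n])⟩

end BB1aA

open BB1aA

theorem rowB1a : RB1a := by
  intro H Ω K g M mm D η γ d ε₀ ρ X a b k h h1 h2 v s c p q q' r hr e hp
  have big := h.toTn.big
  obtain ⟨L, hL, bd⟩ := gh_bd big s
  have hc : OM M c := s.om.mono (e.mono fun _ u => u.1)
  refine ((h.fl X s.mem).fbF _ _ (Gh D X b k) c M hc OM.rfl
    ((H K g M mm D η γ d ε₀ ρ X a b k h h1 h2 v s).1 c (e.mono fun _ u => u.1)) (by
      filter_upwards [bd, Sub.le_pow hL one_pos (R := M)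
        (Eventually.of_forall fun n => (one_mul _).le)] with n u w
      exact ⟨Fn.snd _ _, fun ω hω => (u ω hω).trans w⟩) q q' r
    (hr.mono (e.mono fun _ u => u.2.2.2.2)) hr (e.mono fun _ u => ⟨u.2.2.1, u.2.2.2.1⟩)).trans
    (ND.le (ND.of_fn (Eventually.of_forall fun n => Fn.fst _ _)) ?_)
  refine (ND.of_fn (Eventually.of_forall fun n => Fn.fst _ _)).pair (ND.pair ?_
    (ND.of_fn (Eventually.of_forall fun n x _ y _ w => ?_)))
  · refine ((v.dpt X s.mem c p r hc hr (e.mono fun _ u => u.2.1) hp).mono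
      (Eventually.of_forall fun n => Fn.fst _ _)).anti
      (Eventually.of_forall fun n x _ y _ w => ?_)
    simp only [xz, Prod.mk.injEq] at w ⊢
    tauto
  · simp only [xz, Prod.mk.injEq] at w ⊢
    tauto

theorem rowB1c : RB1c := by
  intro H H' Ω K g M mm D η γ d ε₀ ρ X a b k h h1 h2 v s c p q' r hr e hq
  have big := h.toTn.big
  obtain ⟨L, hL, bd⟩ := gh_bd big s
  obtain ⟨L₀, s0, bx⟩ := h.toTn.bx s.mem
  have cb : ∀ᶠ n in UF, c n ≤ b n := (e.and s.le).mono fun _ u => u.1.1.trans u.2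
  obtain ⟨A, L₁, s1, fA, w⟩ := H' K g M mm D η γ d ε₀ ρ X a b k h h1 h2 v s c q'
    (e.mono fun _ u => u.1) hq
  refine ((h.com X s.mem).fbU _ _ c (s.om.mono cb)
    ((H K g M mm D η γ d ε₀ ρ X a b k h h1 h2 v s).1 c cb) p r r hr hr
    (e.mono fun _ u => ⟨u.2.1, u.2.2.1⟩)).trans
    (ND.le (ND.of_fn (Eventually.of_forall fun n => Fn.fst _ _)) ?_)
  refine (ND.of_fn (Eventually.of_forall fun n => Fn.fst _ _)).pair (ND.pair ?_
    (ND.of_fn (Eventually.of_forall fun n x _ y _ w => ?_)))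
  · refine ND.near (c := fun n ω => (A n ω).1 + (A n ω).2.1 * (X.G g n).z ω +
      (A n ω).2.2 * U.rd (r n) ((X.G g n).pt ω 0)) big
      (((hL.mul s0).mul s1).const_mul big (by norm_num : (1 : ℝ) ≤ 4))
      (hr.mono (e.mono fun _ u => u.2.2.2)) ?_
      (w.mono (e.mono fun n u ω _ ⟨_, v2, v3, _⟩ => ?_))
    · filter_upwards [fA, bd, bx] with n u1 u2 u3
      refine ⟨fun x hx y hy t => ?_, fun ω hω => (abs_sub _ _).trans ?_⟩
      · simp only [Geo.zt, Prod.mk.injEq] at t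
        simp only [U.rd, u1 x hx y hy (Prod.ext t.2.2.1.1 t.2.2.1.2), t.2.1, t.2.2.2.1]
      · have a1 := mul_le_mul (u2 ω hω) (abs_pt u3 hω 1) (abs_nonneg _) (hL.pos n).le
        have a2 := mul_le_mul_of_nonneg_right (hL.1 n) (s0.pos n).le
        have a3 := mul_le_mul_of_nonneg_left (s1.1 n) (mul_pos (hL.pos n) (s0.pos n)).le
        rw [abs_mul]
        linarith [abs_pt u3 hω 2]
    · have a1 := mul_le_mul_of_nonneg_right ((hL.mul s0).1 n) (s1.pos n).le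
      refine le_trans (le_of_eq (congrArg _ (by ring))) ((near_rd v3 v2 u.2.2.2).trans
        (div_le_div_of_nonneg_right (by linarith [s1.pos n]) (by positivity)))
  · simp only [xz, Prod.mk.injEq] at w ⊢
    tauto

theorem rowB1d : B1d := by
  intro Ω K g M mm D η γ d ε₀ ρ X a b k h h1 _ _ s q q' r hr e
  have big := h.toTn.big
  obtain ⟨L, hL, bd⟩ := gh_bd big s
  have qr : ∀ᶠ n in UF, q' n ≤ r n := e.mono fun n u => by
    exact_mod_cast (le_mul_of_one_le_left (Nat.cast_nonneg (α := ℝ) (q' n)) h1.le).trans u.2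
  refine (ND.le ?_ (ND.pair ?_ (ND.of_fn (Eventually.of_forall fun n x _ y _ w => ?_)))).trans
    ((h.fl X s.mem).ng q q' r hr e)
  · refine nd_sh (r := r) (fun n ω => (X.G g n).pt ω 2) (fun n ω => -Gh D X b k n ω)
      (fun n ω => (X.G g n).pt ω 1) big hL ?_
    filter_upwards [qr, bd] with n u1 u2
    refine ⟨u1, fun x _ y _ t => ?_, fun ω hω => ⟨by rw [abs_neg]; exact u2 ω hω, by
      rw [sh]; ring⟩⟩
    simp only [Prod.mk.injEq, neg_inj] at t ⊢
    tauto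
  · refine nd_sh (r := r) (fun n ω => sh (Gh D X b k n ω) ((X.G g n).pt ω)) (Gh D X b k)
      (fun n ω => (X.G g n).pt ω 1) big hL ?_
    filter_upwards [qr, bd, e] with n u1 u2 u3
    refine ⟨u3.1.trans u1, fun x _ y _ t => ?_, fun ω hω => ⟨u2 ω hω, by rw [sh]; ring⟩⟩
    simp only [Prod.mk.injEq] at t ⊢
    tauto
  · simp only [xz, Prod.mk.injEq] at w ⊢
    tauto

end Pool.Agent.MP_5168f5_an.R4.B1
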