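import Pool.Agent.MP_5168f5_an.R4.SpecB

/-! The coordinate `u` is full in its tube given the sheared coordinate. -/

namespace Pool.Agent.MP_5168f5_an.R4.B1

open H19 H17S H17F Filter K31 Tan

namespace BB1bA

/-- The data of the line. -/
noncomputable def lam {Ω : Type} (g : Geo 3 Ω) (G : Ω → ℝ) (q r : ℕ) (ω : Ω) :
    ℝ × (ℤ × ℤ) × ℤ × ℤ :=
  (G ω, bl g r ω, fl1 q (sh (G ω) (g.a ω)), fl1 q (sh (G ω) (g.e ω)))

theorem abs_sh {G L B : ℝ} {p : V 3} (hG : |G| ≤ L) (h : ∀ i, |p i| ≤ B) :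
    |sh G p| ≤ (1 + L) * B := by
  have := mul_le_mul hG (h 1) (abs_nonneg _) ((abs_nonneg _).trans hG)
  rw [← abs_mul] at this
  rw [sh]
  linarith [abs_sub (p 2) (G * p 1), h 2]

theorem sh_pt {Ω : Type} (g : Geo 3 Ω) (G : ℝ) (ω : Ω) :
    sh G (g.pt ω) = sh G (g.a ω) + g.z ω * sh G (g.e ω) := by
  simp only [sh, Geo.pt, Geo.lt, Pi.add_apply, Pi.smul_apply, smul_eq_mul]
  ring

variable {Ω Λ Y : ℕ → Type} {P : ∀ n, FP (Ω n)} {g : Gs 3 Ω} {G : ∀ n, Ω n → ℝ}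
  {S : ∀ n, Ω n → Λ n} {B : ∀ n, Ω n → Y n} {M a q r : ℕ → ℕ} {L L' : ℕ → ℝ}
  {A : ∀ n, Ω n → ℝ × ℝ × ℝ}

theorem nd_x (hM : Big M) (h : ∀ᶠ n in UF, (g n).Bx (P n) (L n) ∧
    Fn (P n) (fun ω => (bl (g n) (r n) ω, (g n).z ω)) (B n)) :
    ND P M (fun n ω => fl1 (r n) ((g n).pt ω 0)) B :=
  nd_pt (a := fun n ω => (g n).a ω 0) (e := fun n ω => (g n).e ω 0) (z := fun n => (g n).z) hM
    (h.mono fun n e => ⟨(Fn.comp (fun v : (ℤ × ℤ) × ℝ => (v.1.1, v.1.2, v.2)) _).trans e.2,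
      fun ω hω => by
        obtain ⟨-, h1, h2⟩ := e.1.bd ω hω
        rw [abs_of_nonneg h1]
        exact h2.le⟩)

theorem nd_lam (hM : Big M) (hL : Sub M L) (hL' : Sub M L') (hr : OM M r)
    (h : ∀ᶠ n in UF, q n ≤ r n ∧ (g n).Bx (P n) (L n) ∧ (∀ ω ∈ (P n).S, |G n ω| ≤ L n) ∧
      Fn (P n) (fun ω => (bl (g n) (r n) ω, S n ω, (g n).z ω)) (B n) ∧
      Fn (P n) (A n) fun ω => (S n ω, G n ω)) (nG : ND P M G S)
    (w : Whp P fun n v => |(A n v).2.1| ≤ L' n ∧ |(A n v).2.2| ≤ L' n ∧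
      |sh (G n v) ((g n).pt v) - (A n v).1 - (A n v).2.1 * (g n).z v -
        (A n v).2.2 * (g n).pt v 0| ≤ L' n / 2 ^ (q n + a n) ∧
      |sh (G n v) ((g n).e v) - (A n v).2.1 - (A n v).2.2 * (g n).e v 0| ≤
        L' n * 2 ^ a n / 2 ^ (q n + a n)) :
    ND P M (fun n => lam (g n) (G n) (q n) (r n)) B := by
  have hq : OM M q := hr.mono (h.mono fun _ e => e.1)
  have nG' : ND P M G B := nG.anti (h.mono fun n e =>
    (Fn.comp (fun v : (ℤ × ℤ) × Λ n × ℝ => v.2.1) _).trans e.2.2.2.1)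
  have nx := nd_x (B := B) (r := r) hM (h.mono fun n e => ⟨e.2.1,
    (Fn.comp (fun v : (ℤ × ℤ) × Λ n × ℝ => (v.1, v.2.2)) _).trans e.2.2.2.1⟩)
  have s := ((((hM.sub le_rfl).add hL hM).mul (hL.const_mul hM one_le_two)).add
    (hL'.const_mul hM one_le_two) hM)
  have ne : ND P M (fun n ω => fl1 (q n) (sh (G n ω) ((g n).e ω))) B := by
    refine nG'.cut (ND.near (c := fun n ω => (A n ω).2.1 + (A n ω).2.2 * U.rd (r n) ((g n).e ω 0))
      hM s hq (h.mono fun n e => ⟨fun x hx y hy u => ?_, fun ω hω => ?_⟩)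
      (w.mono (h.mono fun n e ω _ ⟨_, v2, _, v4⟩ => ?_)))
    · simp only [Prod.mk.injEq] at u
      have u1 := e.2.2.2.1 x hx y hy u.2
      simp only [Prod.mk.injEq, bl] at u1
      simp only [U.rd, u1.1.2, e.2.2.2.2 x hx y hy (Prod.ext u1.2.1 u.1)]
    · refine (abs_sh (e.2.2.1 ω hω) (B := 2 * L n) fun i =>
        ((e.2.1.bd ω hω).1 i).2.trans (by linarith [hL.pos n])).trans (by linarith [hL'.pos n])
    · rw [pow_add, mul_div_mul_right _ _ (by positivity)] at v4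
      refine le_trans (le_of_eq (congrArg _ (by ring))) ((near_rd v4 v2 e.1).trans
        (div_le_div_of_nonneg_right (le_add_of_nonneg_left ?_) (by positivity)))
      have := hL.pos n
      positivity
  have np : ND P M (fun n ω => fl1 (q n) (sh (G n ω) ((g n).pt ω))) B := by
    refine (nG'.pair nx).cut (ND.near (c := fun n ω => (A n ω).1 + (A n ω).2.1 * (g n).z ω +
      (A n ω).2.2 * U.rd (r n) ((g n).pt ω 0)) hM s hq
      (h.mono fun n e => ⟨fun x hx y hy u => ?_, fun ω hω => ?_⟩)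
      (w.mono (h.mono fun n e ω _ ⟨_, v2, v3, _⟩ => ?_)))
    · simp only [Prod.mk.injEq] at u
      have u1 := e.2.2.2.1 x hx y hy u.2
      simp only [Prod.mk.injEq] at u1
      simp only [U.rd, u.1.2, u1.2.2, e.2.2.2.2 x hx y hy (Prod.ext u1.2.1 u.1.1)]
    · exact (abs_sh (e.2.2.1 ω hω) (abs_pt e.2.1 hω)).trans (by linarith [hL'.pos n])
    · refine le_trans (le_of_eq (congrArg _ (by ring))) ((near_rd (v3.trans
        (U.div_pow_le (hL'.pos n).le (Nat.le_add_right _ _))) v2 e.1).trans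
        (div_le_div_of_nonneg_right (le_add_of_nonneg_left ?_) (by positivity)))
      have := hL.pos n
      positivity
  have na := (np.pair ne).cut (nd_pt (a := fun n ω => sh (G n ω) ((g n).pt ω))
    (e := fun n ω => sh (G n ω) ((g n).e ω)) (z := fun n ω => -(g n).z ω) (r := q) hM
    (h.mono fun n e => ⟨fun x hx y hy u => by
      simp only [Prod.mk.injEq] at u
      have u1 := e.2.2.2.1 x hx y hy u.2
      simp only [Prod.mk.injEq] at u1
      simp only [u.1.1, u.1.2, u1.2.2], fun ω hω => by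
      obtain ⟨-, h1, h2⟩ := e.2.1.bd ω hω
      rw [abs_neg, abs_of_nonneg h1]
      exact h2.le⟩))
  simp only [sh_pt, neg_mul, add_neg_cancel_right] at na
  exact nG'.pair ((ND.of_fn (h.mono fun n e =>
    (Fn.comp (fun v : (ℤ × ℤ) × Λ n × ℝ => v.1) _).trans e.2.2.2.1)).pair (na.pair ne))

end BB1bA

open BB1bA in
theorem rowB1b : RB1b := by
  intro xv shl shp Ω K g M mm D η γ d ε₀ ρ X a b k hT h1 h2 hV hS p R q r κ hr hκ e l1 l2
  have hM := hV.big
  obtain ⟨C, c0, c1, c2, c3⟩ := om_big hr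
  obtain ⟨L1, s1, b1⟩ := hT.toTn.bx hS.mem
  obtain ⟨L2, s2, b2⟩ := hS.bd
  have ha : OM M a := hS.om.mono hS.le
  obtain ⟨A, L', s', fA, w⟩ := shp K g M mm D η γ d ε₀ ρ X a b k hT h1 h2 hV hS a
    (fun n => q n + a n) (Eventually.of_forall fun _ => le_rfl)
    (l2.of_sub (Eventually.of_forall fun n => by push_cast; linarith))
  have fθ := hV.fθ X hS.mem
  have bx : ∀ᶠ n in UF, (X.G g n).Bx (X n).Q (L1 n + (L2 n + 1)) := b1.mono fun n u =>
    ⟨fun ω hω => ⟨fun i => ⟨((u.bd ω hω).1 i).1.trans (by linarith [s2.pos n]),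
      ((u.bd ω hω).1 i).2.trans (by linarith [s2.pos n])⟩, (u.bd ω hω).2⟩, u.fz, u.fθ⟩
  have nl := nd_lam (g := X.G g) (G := Gh D X b k) (S := fun n => (mD X D n).S (a n))
    (B := fun n v => (fl1 (p n) ((X.G g n).e v 1), bl (X.G g n) (r n) v, (mD X D n).S (a n) v,
      (X.G g n).z v)) hM (s1.add (s2.add (hM.sub le_rfl) hM) hM) s' hr (by
      filter_upwards [e, bx, b2, fA] with n u1 u2 u3 u4
      exact ⟨u1.2.2.2, u2, fun ω hω => (U.abs_rd _ _).trans (by linarith [u3 ω hω, s1.pos n]),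
        Fn.snd _ _, u4⟩) (shl K g M mm D η γ d ε₀ ρ X a b k hT h1 h2 hV hS).2 w
  have fz : ∀ᶠ n in UF, Fn (X n).Q (X.G g n).zt fun v => (fl1 (p n) ((X.G g n).e v 1),
      bl (X.G g n) (r n) v, (mD X D n).S (a n) v, (X.G g n).z v) := fθ.mono fun n u =>
    (((Fn.snd _ _).right _).right _).pair ((((u (a n)).left _).right _).right _)
  have nu := ((hV.dpt X hS.mem a (fun n => p n + R n) r ha hr (e.mono fun _ u => u.2.2.1) l1).mono
    (F' := fun n v => fl1 (p n + R n) ((X.G g n).pt v 1))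
    (Eventually.of_forall fun _ => Fn.fst _ _)).trans (ND.pair (ND.of_fn (Eventually.of_forall
      fun _ => ((Fn.fst _ _).right _).right _)) ((nd_x hM (bx.mono fun _ u => ⟨u,
        ((Fn.fst _ _).right _).pair (((Fn.snd _ _).right _).right _)⟩)).pair (ND.of_fn fz)))
  have key := xv X.P (X.G g) 1 (fun n => C * M n) p R
    (fun n => lam (X.G g n) (Gh D X b k n) (q n) (r n)) _ ρ (κ / C) (hV.bs C c0 X hS.mem) hV.pos
    (by positivity) (by
      filter_upwards [e, c1, hS.fn, fz] with n u1 u2 u3 u4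
      refine ⟨?_, u1.2.2.1.trans u2, fun x hx y hy u => ?_, u4.pair (Fn.fst _ _)⟩
      · rw [Nat.cast_mul, ← mul_assoc, div_mul_cancel₀ _ (by positivity)]
        exact u1.2.1
      · have v := u3 x hx y hy u
        simp only [Geo.ln, Prod.mk.injEq] at u v
        simp only [lam, bl, Gh, U.rd, u.1, u.2.1, v]) ((nl.pair nu).unit c2)
    fun l hl W Q f hf => le_unit c2 (hV.brd _ (hV.cl.toCl0.dn hS.mem hf) a p l r ha
      (hr.mono (e.mono fun n u => (hl n).trans ((Nat.le_add_left _ _).trans u.2.2.1))) hr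
      (e.mono fun _ u => u.1) (hr.mono (e.mono fun n u => (Nat.le_add_right _ _).trans u.2.2.1)))
  refine (le_unit c3 key).trans (ND.le (ND.of_fn (Eventually.of_forall fun _ => Fn.fst _ _))
    ((ND.of_fn (Eventually.of_forall fun _ => Fn.fst _ _)).pair (ND.pair ?_ (ND.pair
      (ND.of_fn (Eventually.of_forall fun n x _ y _ u => congrArg (·.2.1.1) u))
      ((nd_x hM (bx.mono fun _ u => ⟨u, fun x _ y _ u =>
        congrArg (fun v => (v.2.1.2.1, v.2.2.1)) u⟩)).pair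
        (ND.of_fn (Eventually.of_forall fun _ => (Fn.snd _ _).right _)))))))
  simp only [sh_pt]
  exact nd_pt hM (bx.mono fun n u => ⟨fun x _ y _ u =>
    congrArg (fun v => (v.2.1.2.2.1, v.2.1.2.2.2, v.2.2.1)) u, fun ω hω => by
      obtain ⟨-, h1, h2⟩ := u.bd ω hω
      rw [abs_of_nonneg h1]
      exact h2.le⟩)

end Pool.Agent.MP_5168f5_an.R4.B1
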