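import Pool.Agent.MP_5168f5_an.R4.SpecB

/-! Kakeya sets in four dimensions, broad slopes: independent segments are parallel. -/

namespace Pool.Agent.MP_5168f5_an.R4.B1

open H19 H17S H17F Filter K31 Tan

namespace BCor2A

/-- The information of `A` on `(Y, B)` in two orders. -/
theorem two {Ω α β γ δ κ : Type} {P : FP Ω} (Y : Ω → δ) (A : Ω → α) (B : Ω → β) (K : Ω → γ)
    (Z : Ω → κ) (h : Fn P Z fun ω => (Y ω, K ω)) (h' : Fn P (fun ω => (Y ω, K ω)) Z) :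
    ch P Y (fun ω => (A ω, K ω)) + ch P Y (fun ω => (B ω, K ω)) ≤
      ch P Y K + ch P Y (fun ω => (A ω, B ω, K ω)) + mi P A B Z := by
  have e1 := mi_chain (P := P) A Y B K
  have e2 := mi_chain (P := P) A B Y K
  have e3 : mi P A (fun ω => (B ω, Y ω)) K ≤ mi P A (fun ω => (Y ω, B ω)) K :=
    mi_mono (((Fn.snd Y B).pair (Fn.fst Y B)).left K)
  have e4 := mi_nonneg (P := P) A B K
  have e5 : mi P A B (fun ω => (Y ω, K ω)) ≤ mi P A B Z := mi_cond h (h'.right B)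
  rw [mi_symm A Y K, mi_symm A Y] at *
  unfold mi at e1 e2 e3 e4 e5 ⊢
  linarith

variable {Ω T Λ Λ' : ℕ → Type} {P : ∀ n, FP (Ω n)} {u f G G' c c' : ∀ n, Ω n → ℝ}
  {Θ : ∀ n, Ω n → T n} {Γ : ∀ n, Ω n → Λ n} {Γ' : ∀ n, Ω n → Λ' n} {M q q' k : ℕ → ℕ}
  {L : ℕ → ℝ}

/-- A segment that holds everywhere. -/
def Sr (P : ∀ n, FP (Ω n)) (u f G c : ∀ n, Ω n → ℝ) (Θ : ∀ n, Ω n → T n) (Γ : ∀ n, Ω n → Λ n)
    (q' : ℕ → ℕ) (L : ℕ → ℝ) : Prop :=
  ∀ᶠ n in UF, Fn (P n) (G n) (Γ n) ∧ Fn (P n) (c n) (fun ω => (Γ n ω, Θ n ω)) ∧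
    ∀ ω ∈ (P n).S, |G n ω| ≤ L n ∧ |f n ω - G n ω * u n ω - c n ω| ≤ L n / 2 ^ q' n

theorem ndf (hM : Big M) (hL : Sub M L) (h : Sr P u f G c Θ Γ q' L)
    (e : ∀ᶠ n in UF, q n ≤ q' n) :
    ND P M (fun n ω => fl1 (q n) (f n ω)) fun n ω => (fl1 (q n) (u n ω), Γ n ω, Θ n ω) :=
  ND.sure (c := fun n ω => c n ω + G n ω * U.rd (q n) (u n ω)) hM (hL.const_mul hM one_le_two)
    ((h.and e).mono fun n ⟨⟨a1, a2, a3⟩, a4⟩ => ⟨fun x hx y hy w => by
      simp only [Prod.mk.injEq] at w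
      simp only [U.rd, w.1, a1 x hx y hy w.2.1, a2 x hx y hy (Prod.ext w.2.1 w.2.2)],
      fun ω hω => by
      have := near_rd (y := f n ω - c n ω) (c := G n ω) (x := u n ω) (p := q n) (r := q n)
        (le_trans (le_of_eq (congrArg _ (by ring)))
          ((a3 ω hω).2.trans (U.div_pow_le (hL.pos n).le a4))) (a3 ω hω).1 le_rfl
      exact le_trans (le_of_eq (congrArg _ (by ring))) this⟩)

theorem low (hM : Big M) (hL : Sub M L) (h : Sr P u f G c Θ Γ q' L) (e : ∀ᶠ n in UF, q n ≤ q' n)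
    (ful : Le M (fun n => (q' n - q n : ℝ) * lg) fun n => ch (P n) (fun ω => fl1 (q' n) (u n ω))
      fun ω => (fl1 (q n) (u n ω), Γ n ω, Θ n ω)) :
    Le M (fun n => (q' n - q n : ℝ) * lg) fun n =>
      ch (P n) (fun ω => (fl1 (q' n) (u n ω), fl1 (q' n) (f n ω))) fun ω =>
        (Γ n ω, fl1 (q n) (u n ω), fl1 (q n) (f n ω), Θ n ω) :=
  ful.trans (ND.le (ND.of_fn (Eventually.of_forall fun _ _ _ _ _ w => congrArg (·.1.1) w))
    ((ND.of_fn (Eventually.of_forall fun _ _ _ _ _ w => congrArg (·.2.1) w)).pair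
      ((ND.of_fn (Eventually.of_forall fun _ _ _ _ _ w => congrArg (·.1) w)).pair
        ((ndf hM hL h e).pair
          (ND.of_fn (Eventually.of_forall fun _ _ _ _ _ w => congrArg (·.2.2) w))))))

theorem close {a b g g' c c' x y L : ℝ} {k j : ℕ} (h1 : |a - g * x - c| ≤ L / 2 ^ j)
    (h2 : |a - g' * x - c'| ≤ L / 2 ^ j) (h3 : |b - g * y - c| ≤ L / 2 ^ j)
    (h4 : |b - g' * y - c'| ≤ L / 2 ^ j) (h : 1 / 2 ^ k < |g - g'|) :
    |x - y| ≤ 2 ^ k * (4 * L) / 2 ^ j := by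
  have e : |g - g'| * |x - y| ≤ 4 * (L / 2 ^ j) := by
    rw [← abs_mul, abs_le] at *
    constructor <;> nlinarith [h1.1, h1.2, h2.1, h2.2, h3.1, h3.2, h4.1, h4.2]
  have e2 := mul_le_mul_of_nonneg_right h.le (abs_nonneg (x - y))
  have e3 := mul_le_mul_of_nonneg_left (e2.trans e) (show (0 : ℝ) ≤ 2 ^ k by positivity)
  rw [← mul_assoc, mul_one_div_cancel (by positivity), one_mul] at e3
  exact e3.trans (le_of_eq (by ring))

theorem upp (hM : Big M) (hL : Sub M L) (h : Sr P u f G c Θ Γ q' L) (h' : Sr P u f G' c' Θ Γ' q' L)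
    (e : ∀ᶠ n in UF, ∀ ω ∈ (P n).S, 1 / 2 ^ k n < |G n ω - G' n ω|) :
    Le M (fun n => ch (P n) (fun ω => (fl1 (q' n) (u n ω), fl1 (q' n) (f n ω))) fun ω =>
      (Γ n ω, Γ' n ω, fl1 (q n) (u n ω), fl1 (q n) (f n ω), Θ n ω)) fun n => k n * lg := by
  refine (ND.le (F' := fun n ω => fl1 (q' n) (u n ω)) (G' := fun n ω => (Γ n ω, Γ' n ω, Θ n ω))
    ((ND.of_fn (Eventually.of_forall fun _ _ _ _ _ w => congrArg (·.1) w)).pair
      ((ndf hM hL h (Eventually.of_forall fun _ => le_rfl)).anti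
        (Eventually.of_forall fun _ _ _ _ _ w => congrArg (fun v => (v.1, v.2.1, v.2.2.2.2.2)) w)))
    (ND.of_fn (Eventually.of_forall fun _ _ _ _ _ w =>
      congrArg (fun v => (v.1, v.2.1, v.2.2.2.2)) w))).trans ?_
  refine ((hL.const_mul hM (by norm_num : (1 : ℝ) ≤ 4)).log3 hM 1).of_sub ?_
  filter_upwards [h, h', e] with n ⟨a1, a2, a3⟩ ⟨b1, b2, b3⟩ d
  have l0 := hL.pos n
  have p1 : (1 : ℝ) ≤ 2 ^ k n := one_le_pow₀ one_le_two
  have t := ch_near1 (P := P n) (x := u n) (G := fun ω => (Γ n ω, Γ' n ω, Θ n ω)) (j := q' n)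
    (L := 2 ^ k n * (4 * L n)) (by positivity) fun x hx y hy w => by
      simp only [Prod.mk.injEq] at w
      have v3 := (a3 y hy).2
      have v4 := (b3 y hy).2
      rw [← a1 x hx y hy w.1, ← a2 x hx y hy (Prod.ext w.1 w.2.2)] at v3
      rw [← b1 x hx y hy w.2.1, ← b2 x hx y hy (Prod.ext w.2.1 w.2.2)] at v4
      exact close (a3 x hx).2 (b3 x hx).2 v3 v4 (d x hx)
  have s : Real.log (2 * (2 ^ k n * (4 * L n)) + 3) ≤ Real.log (2 ^ k n * (2 * (4 * L n) + 3)) :=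
    Real.log_le_log (by positivity) (by nlinarith)
  rw [Real.log_mul (by positivity) (by positivity), Real.log_pow] at s
  unfold lg
  linarith

end BCor2A

open BCor2A in
theorem rowCor2 : RCor2 := by
  intro hS Ω T Λ Λ' P u f Θ Γ Γ' G G' M q q' k ε₀ h hI
  by_contra hn
  obtain ⟨c, L, hL, e1, w1⟩ := h.s1.fit
  obtain ⟨c', L', hL', e2, w2⟩ := h.s2.fit
  have hp := (not_whp hn).and (w1.and w2)
  have hd := dnS_cE hp
  have hL2 := hL.add hL' h.big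
  have dv : ∀ n, L n / 2 ^ q' n ≤ (L n + L' n) / 2 ^ q' n ∧
      L' n / 2 ^ q' n ≤ (L n + L' n) / 2 ^ q' n := fun n =>
    ⟨div_le_div_of_nonneg_right (by linarith [hL'.pos n]) (by positivity),
      div_le_div_of_nonneg_right (by linarith [hL.pos n]) (by positivity)⟩
  have s1 : Sr _ u f G c Θ Γ q' fun n => L n + L' n := (e1.and hp.sure).mono fun n ⟨a, b⟩ =>
    ⟨fn_cE a.1 _, fn_cE a.2 _, fun ω hω => ⟨(b ω hω).2.2.1.1.trans (by linarith [hL'.pos n]),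
      (b ω hω).2.2.1.2.trans (dv n).1⟩⟩
  have s2 : Sr _ u f G' c' Θ Γ' q' fun n => L n + L' n := (e2.and hp.sure).mono fun n ⟨a, b⟩ =>
    ⟨fn_cE a.1 _, fn_cE a.2 _, fun ω hω => ⟨(b ω hω).2.2.2.1.trans (by linarith [hL.pos n]),
      (b ω hω).2.2.2.2.trans (dv n).2⟩⟩
  have l1 := low h.big hL2 s1 h.le (hS.dn P u f Θ Γ G M q q' _ _ h.big h.le h.s1 hd).ful
  have l2 := low h.big hL2 s2 h.le (hS.dn P u f Θ Γ' G' M q q' _ _ h.big h.le h.s2 hd).ful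
  have l3 := upp (q := q) h.big hL2 s1 s2 (hp.sure.mono fun n b ω hω => not_le.1 (b ω hω).2.1)
  have l4 := h.up _ _ _ hd
  have l5 := hd.sm_mi h.big hI
  obtain ⟨ε, hε, eg⟩ := h.gap
  refine Le.false (f := fun n => ε₀ * (q' n - q n) * lg) (g := fun n => k n * lg)
    (l1.of5 l2 l3 l4 l5 (h.le.mono fun n a => ?_)) h.big (mul_pos hε lg_pos)
    (eg.mono fun n a => by nlinarith [lg_pos])
  have := fun Q : FP (Ω n) => two (P := Q) (fun ω => (fl1 (q' n) (u n ω), fl1 (q' n) (f n ω)))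
    (Γ n) (Γ' n) (fun ω => (fl1 (q n) (u n ω), fl1 (q n) (f n ω), Θ n ω))
    (fun ω => (fl1 (q' n) (u n ω), fl1 (q' n) (f n ω), Θ n ω))
    (fun _ _ _ _ w => congrArg (fun v => (v.1.1, v.1.2, v.2.2.2)) w) fun _ _ _ _ w => by
      simp only [Prod.mk.injEq] at w ⊢
      exact ⟨⟨w.1, w.2.1⟩, fl1_eq_of_le a w.1, fl1_eq_of_le a w.2.1, w.2.2⟩
  simp only [id]
  generalize cE (P n) _ = Q
  linarith [this Q]

end Pool.Agent.MP_5168f5_an.R4.B1
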