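import Pool.Agent.MP_5168f5_an.R4.SpecB

/-! Kakeya sets in four dimensions, broad slopes: two segments through a point are parallel. -/

namespace Pool.Agent.MP_5168f5_an.R4.B1

open H19 H17S H17F Filter K31 Tan

theorem rowCor3 : RCor3 := by
  intro sk c2 Ω T Λ Λ' P u f Θ Γ Γ' G G' M q q' k ε₀ h
  obtain ⟨ε, hε, gap⟩ := h.gap
  obtain ⟨L, hL, bd⟩ := h.bd
  obtain ⟨φ, hφ⟩ : ∃ φ : ∀ n, Ω n → ℤ × ℤ × T n, φ = fun n ω =>
    (fl1 (q' n) (u n ω), fl1 (q' n) (f n ω), Θ n ω) := ⟨_, rfl⟩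
  have d := U.dnS_fst P P φ φ
  have f1 : ∀ n, Fn (P n) (fun ω => (fl1 (q' n) (u n ω), fl1 (q' n) (f n ω), Θ n ω)) (φ n) :=
    fun n => by rw [hφ]; exact Fn.rfl _
  have f2 : ∀ n, Fn (P n) (φ n) fun ω => (fl1 (q' n) (u n ω), fl1 (q' n) (f n ω), Θ n ω) :=
    fun n => by rw [hφ]; exact Fn.rfl _
  have s2 := sk.cp P u f Θ Γ' G' M q q' φ h.big (h.le.mono fun n a => ⟨a, f1 n⟩) h.s2
  have up := h.up.ref d
  have key : ∀ {Λ₁ : ℕ → Type} (Γ₁ : ∀ n, Ω n → Λ₁ n) (G₁ : ∀ n, Ω n → ℝ),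
      Seg P u f Θ Γ₁ G₁ M q q' → Whp (fun n => glue (P n) (P n) (φ n) (φ n)) fun n v =>
        |G₁ n v.1 - G' n v.2| ≤ 1 / 2 ^ (k n + 1) := fun Γ₁ G₁ s => by
    have s1 := sk.dn P u f Θ Γ₁ G₁ M q q' _ _ h.big h.le s d
    refine c2 _ _ _ _ _ _ _ _ M q q' (fun n => k n + 1) ε₀
      ⟨h.big, h.om, h.le, ⟨ε / 2, half_pos hε, ?_⟩,
        ⟨L, hL, bd.mono fun n a v hv => a _ ((U.mem_copy _ _ v).1 hv).1⟩, s1, s2, up⟩
      (Le.of_le fun n => ?_)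
    · filter_upwards [gap, h.big.sm 1 _ (half_pos hε)] with n a b
      push_cast; linarith
    · rw [mi_symm]
      exact (kf2.copy (P n) (φ n) (Γ₁ n) (Γ' n) _ (f2 n)).le
  have w : Whp (fun n => glue (P n) (P n) (φ n) (φ n)) fun n v =>
      |G n v.1 - G' n v.1| ≤ 1 / 2 ^ k n := by
    refine ((key Γ G h.s1).and (key Γ' G' h.s2)).mono (Eventually.of_forall fun n v _ a => ?_)
    have := abs_sub_le (G n v.1) (G' n v.2) (G' n v.1)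
    rw [abs_sub_comm (G' n v.2)] at this
    rw [show (1 : ℝ) / 2 ^ k n = 1 / 2 ^ (k n + 1) + 1 / 2 ^ (k n + 1) by ring]
    linarith [a.1, a.2]
  exact U.whp_of_law (E := fun n ω => |G n ω - G' n ω| ≤ 1 / 2 ^ k n)
    (fun n => kg.fst (P n) (P n) (φ n) (φ n)) w

end Pool.Agent.MP_5168f5_an.R4.B1
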