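import Pool.Agent.MP_5168f5_an.R4.SpecB

/-! Rows CpL and BsD: labels from copies, and derived systems. -/

namespace Pool.Agent.MP_5168f5_an.R4.B1

open H19 H17S H17F Filter K31 Tan

namespace BCpLA

theorem leak {Ω α β γ δ ε : Type} (P : FP Ω) (φ : Ω → α) (S : Ω → β) (c : Ω → γ) (F : Ω → δ)
    (y : Ω → ε) : mi (glue P P φ φ) (fun v => (S v.1, c v.2)) (fun v => F v.1) (fun v => y v.1) ≤
      mi P S F y + ch P φ y := by
  have l := kg.fst P P φ φ
  have a1 := kf2.copy P φ F c (fun ω => (φ ω, S ω, y ω)) (Fn.fst _ _)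
  have a2 := ch_drop (P := glue P P φ φ) (fun v => c v.2) (fun v => φ v.1) fun v => (S v.1, y v.1)
  have a3 := ch_anti (P := glue P P φ φ) (F := fun v => φ v.1)
    (Fn.snd (fun v => S v.1) fun v => y v.1)
  have a4 := ch_anti (P := glue P P φ φ) (F := fun v => c v.2)
    (G := fun v => (F v.1, S v.1, y v.1)) (G' := fun v => (F v.1, φ v.1, S v.1, y v.1))
    fun _ _ _ _ u => by
      simp only [Prod.mk.injEq] at u ⊢
      exact ⟨u.1, u.2.2⟩
  rw [mi_symm, mi_chain, mi_symm, l.mi_id, mi_symm (fun v : Ω × Ω => F v.1), ← l.ch_id φ y]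
  unfold mi at a1
  rw [mi.eq_def (glue P P φ φ)]
  linarith

end BCpLA

open BCpLA in
theorem rowCpL : CpL := by
  intro N Ω Λ Φ A P g m j S φ c E hm hS hφ hE hc
  refine ⟨(Lab.dn hS hm ((dnS_cE hE).trans (U.dnS_fst P P φ φ))).h.mono (hc.mono fun n a => ?_),
    (dnS_cE hE).sm_mi hm (F := fun n v => (S n v.1, c n v.2)) (G := fun n v => (g n).core v.1)
      (K := fun n v => (g n).y v.1) ((hS.l.add hφ).mono (Eventually.of_forall fun n =>
        leak (P n) (φ n) (S n) (c n) (g n).core (g n).y))⟩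
  unfold Geo.hk
  rw [mi_symm, mi_symm fun v => S n _]
  exact (mi_near _ _ (fun v : Ω n × Ω n => S n v.1) _).trans_eq (add_eq_left.2 (ch_zero
    ((Fn.fst _ _).pair fun v hv w hw u => a v hv w hw (congrArg (·.2.1) u))))

theorem rowBsD : BsD := by
  intro N N' Ω P g g' M M' L κ h hκ hL e
  have u := inv_unit hκ (e.mono fun _ a => a.1)
  have t : ∀ n, Fn (P n) (g' n).ln (g n).ln → Fn (P n) (g' n).θ fun ω => ((g n).ln ω, (g n).θ ω) :=
    fun n a v hv w hw k => congrArg (·.2.2) (a v hv w hw (congrArg Prod.fst k))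
  refine ⟨big_unit u h.big, ⟨L, sub_unit u hL, e.mono fun _ a => a.2.2.1⟩,
    le_unit u (h.inf.mono (e.mono fun n ⟨_, _, _, a1, a2, a3⟩ => (mi_mono' fun v hv w hw k => by
      rw [a1 v hv, a1 w hw]
      exact congrArg Prod.fst k).trans (mi_right a3 (t n a2) (a2.left _)))),
    le_unit u (Le.of2 h.hgt h.inf (e.mono fun n ⟨_, a0, _, a1, a2, a3⟩ => ?_))⟩
  have b1 : ch (P n) (fun ω => fl1 (M' n) ((g' n).z ω)) (g' n).θ =
      ch (P n) (fun ω => fl1 (M' n) ((g n).z ω)) (g' n).θ :=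
    ch_ext (fun ω a => by rw [a1 ω a]) fun _ _ => rfl
  have b2 := ch_le_mi (F := fun ω => fl1 (M' n) ((g n).z ω)) (t n a2)
  have b3 := mi_mono' (P := P n) (G := (g n).ln) ((Fn.comp (fl1 (M' n)) (g n).z).left (g n).θ)
  have b4 := ch_tri (P := P n) (fun ω => fl1 (M n) ((g n).z ω)) (fun ω => fl1 (M' n) ((g n).z ω))
    (g n).θ
  have b5 := ch_fl1_refine (P := P n) (x := (g n).z) (j := fun _ => M' n)
    (i := fun _ => M n - M' n) (G := fun ω => (fl1 (M' n) ((g n).z ω), (g n).θ ω))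
    (fun _ _ _ _ _ => rfl) (fun _ _ _ _ _ => rfl) (Fn.fst _ _)
  rw [FP.E_const, Nat.add_sub_cancel' a0, Nat.cast_sub a0] at b5
  linarith

end Pool.Agent.MP_5168f5_an.R4.B1
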