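import Pool.Agent.MP_5168f5_an.R4.SpecB

/-! A segment and a full transversal coordinate fill the plane. -/

namespace Pool.Agent.MP_5168f5_an.R4.B1

open H19 H17S H17F Filter K31 Tan

namespace BFin2A

theorem near1 {f u G L : ℝ} (j k : ℕ) (hL : 1 ≤ L) (hG : |G| ≤ L) :
    |f - U.rd k G * u - (U.rd j f - U.rd k G * U.rd j u)| ≤ 3 * L / 2 ^ j := by
  have e1 := U.abs_sub_rd j f
  have e2 := mul_le_mul ((U.abs_rd k G).trans (by linarith : |G| + 1 ≤ 2 * L)) (U.abs_sub_rd j u)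
    (abs_nonneg _) (by linarith)
  rw [← abs_mul] at e2
  have e3 := abs_sub (f - U.rd j f) (U.rd k G * (u - U.rd j u))
  have e4 : (1 : ℝ) / 2 ^ j ≤ L * (1 / 2 ^ j) := le_mul_of_one_le_left (by positivity) hL
  rw [show f - U.rd k G * u - (U.rd j f - U.rd k G * U.rd j u) =
    f - U.rd j f - U.rd k G * (u - U.rd j u) by ring,
    show 3 * L / 2 ^ j = 3 * (L * (1 / 2 ^ j)) by ring]
  linarith

theorem near2 {f u G c L : ℝ} (q k : ℕ) (hL : 1 ≤ L) (h : |f - G * u - c| ≤ L / 2 ^ (q + k)) :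
    |f - U.rd k G * u - ((G - U.rd k G) * U.rd q u + c)| ≤ 2 * L / 2 ^ (q + k) := by
  have e2 := mul_le_mul (U.abs_sub_rd k G) (U.abs_sub_rd q u) (abs_nonneg _) (by positivity)
  rw [← abs_mul] at e2
  have e3 := abs_add_le (f - G * u - c) ((G - U.rd k G) * (u - U.rd q u))
  have e4 : (1 : ℝ) / 2 ^ k * (1 / 2 ^ q) ≤ L / 2 ^ (q + k) := by
    rw [show (1 : ℝ) / 2 ^ k * (1 / 2 ^ q) = 1 / 2 ^ (q + k) by rw [pow_add]; field_simp]
    exact div_le_div_of_nonneg_right hL (by positivity)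
  rw [show f - U.rd k G * u - ((G - U.rd k G) * U.rd q u + c) =
    f - G * u - c + (G - U.rd k G) * (u - U.rd q u) by ring, mul_div_assoc]
  linarith

theorem bd {f u G L : ℝ} (k : ℕ) (hL : 1 ≤ L) (hu : |u| ≤ L) (hf : |f| ≤ L) (hG : |G| ≤ L) :
    |f - U.rd k G * u| ≤ 3 * (L * L) := by
  have e2 := mul_le_mul ((U.abs_rd k G).trans (by linarith : |G| + 1 ≤ 2 * L)) hu
    (abs_nonneg _) (by linarith)
  rw [← abs_mul] at e2
  have e3 := abs_sub f (U.rd k G * u)
  nlinarith

end BFin2A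

open BFin2A in
theorem rowFin2 : Fin2 := by
  intro Ω T Λ Λ' P u f Θ Γ lam G M q k L hM hq hL hb hS hN hs
  obtain ⟨c, L', hL', hc, w⟩ := hS.fit
  have h3 : (1 : ℝ) ≤ 3 := by norm_num
  have hq0 : OM M q := hq.mono (Eventually.of_forall fun n => Nat.le_add_right _ _)
  have n0 : ND P M (fun n ω => fl1 (q n + k n) (f n ω - U.rd (k n) (G n ω) * u n ω))
      fun n ω => ((fl1 (q n + k n) (u n ω), fl1 (q n + k n) (f n ω)),
        (U.rd (k n) (G n ω), fl1 (q n) (u n ω), fl1 (q n) (f n ω), Θ n ω)) :=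
    ND.sure (c := fun n ω => U.rd (q n + k n) (f n ω) -
      U.rd (k n) (G n ω) * U.rd (q n + k n) (u n ω)) hM (hL.const_mul hM h3)
      (hb.mono fun n h => ⟨fun a _ b _ e => by
        simp only [Prod.mk.injEq] at e
        simp only [U.rd_congr e.1.1, U.rd_congr e.1.2, e.2.1],
        fun a ha => near1 _ _ (hL.1 n) (h.2 a ha).2.2⟩)
  have l0 := ND.le (F' := fun n ω => (fl1 (q n + k n) (u n ω), fl1 (q n + k n) (f n ω)))
    (G' := fun n ω => (fl1 (q n) (u n ω), fl1 (q n) (f n ω), Θ n ω))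
    (n0.pair (F' := fun n ω => fl1 (q n + k n) (u n ω)) (ND.of_fn (Eventually.of_forall
      fun n a _ b _ e => congrArg (fun p => p.1.1) e)))
    (ND.of_fn (Eventually.of_forall fun n a _ b _ e => congrArg (fun p => p.2) e))
  have n1 : ND P M (fun n ω => (U.rd (k n) (G n ω), fl1 (q n) (u n ω), fl1 (q n) (f n ω), Θ n ω))
      fun n ω => (fl1 (q n) (f n ω - U.rd (k n) (G n ω) * u n ω), lam n ω, Θ n ω) := by
    have a1 := hN.anti (G' := fun n ω =>
      (fl1 (q n) (f n ω - U.rd (k n) (G n ω) * u n ω), lam n ω, Θ n ω))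
      (Eventually.of_forall fun n a _ b _ e => congrArg (fun p => p.2) e)
    refine (ND.of_fn (hb.mono fun n h a ha b hb e => h.1 a ha b hb
      (congrArg (fun p => p.2.1) e))).pair ?_
    refine (a1.mono (Eventually.of_forall fun n a _ b _ e => congrArg (fun p => p.1) e)).pair ?_
    exact (a1.mono (Eventually.of_forall fun n a _ b _ e => congrArg (fun p => p.2) e)).pair
      (ND.of_fn (Eventually.of_forall fun n a _ b _ e => congrArg (fun p => p.2.2) e))
  have l1 := ND.le (F := fun n ω => fl1 (q n + k n) (f n ω - U.rd (k n) (G n ω) * u n ω))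
    (F' := fun n ω => fl1 (q n + k n) (f n ω - U.rd (k n) (G n ω) * u n ω))
    (ND.of_fn (Eventually.of_forall fun n a _ b _ e => congrArg (fun p => p.1) e)) n1
  have hL2 := (((hL.mul hL).const_mul hM h3).add hL' hM).const_mul hM one_le_two
  have fc : ∀ᶠ n in UF, ∀ a ∈ (P n).S, ∀ b ∈ (P n).S,
      (fl1 (q n) (u n a), Γ n a, Θ n a) = (fl1 (q n) (u n b), Γ n b, Θ n b) →
        U.rd (q n) (u n a) = U.rd (q n) (u n b) ∧ G n a = G n b ∧ c n a = c n b :=
    hc.mono fun n h a ha b hb e => ⟨U.rd_congr (congrArg (fun p => p.1) e),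
      h.1 a ha b hb (congrArg (fun p => p.2.1) e), h.2 a ha b hb (congrArg (fun p => p.2) e)⟩
  have n2 : ND P M (fun n ω => fl1 (q n + k n) (f n ω - U.rd (k n) (G n ω) * u n ω))
      fun n ω => (fl1 (q n) (u n ω), Γ n ω, Θ n ω) := by
    refine ND.near (c := fun n ω => (G n ω - U.rd (k n) (G n ω)) * U.rd (q n) (u n ω) + c n ω)
      hM hL2 hq ?_ (w.mono (Eventually.of_forall fun n ω _ v => ?_))
    · filter_upwards [fc, hb] with n h1 h2
      refine ⟨fun a ha b hb e => ?_, fun a ha => ?_⟩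
      · obtain ⟨e1, e2, e3⟩ := h1 a ha b hb e
        simp only [e1, e2, e3]
      · have := bd (k n) (hL.1 n) (h2.2 a ha).1 (h2.2 a ha).2.1 (h2.2 a ha).2.2
        linarith [hL'.pos n, abs_nonneg (f n a - U.rd (k n) (G n a) * u n a)]
    · refine (near2 _ _ (hL'.1 n) v.2).trans (div_le_div_of_nonneg_right ?_ (by positivity))
      linarith [mul_pos (hL.pos n) (hL.pos n)]
  have n3 : ND P M (fun n ω => fl1 (q n) (f n ω)) fun n ω => (fl1 (q n) (u n ω), Γ n ω, Θ n ω) := by
    refine ND.near (c := fun n ω => c n ω + G n ω * U.rd (q n) (u n ω))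
      hM ((hL.add hL' hM).const_mul hM one_le_two) hq0 ?_
      (w.mono (Eventually.of_forall fun n ω _ v => ?_))
    · filter_upwards [fc, hb] with n h1 h2
      refine ⟨fun a ha b hb e => ?_, fun a ha => ?_⟩
      · obtain ⟨e1, e2, e3⟩ := h1 a ha b hb e
        simp only [e1, e2, e3]
      · linarith [(h2.2 a ha).2.1, hL'.pos n, hL.pos n]
    · have v2 : |f n ω - c n ω - G n ω * u n ω| ≤ L' n / 2 ^ q n :=
        le_trans (le_of_eq (congrArg _ (by ring))) (v.2.trans
          (U.div_pow_le (hL'.pos n).le (Nat.le_add_right _ _)))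
      refine le_trans (le_of_eq (congrArg _ (by ring))) ((near_rd v2 v.1 le_rfl).trans
        (div_le_div_of_nonneg_right (by linarith [hL.pos n]) (by positivity)))
  have n4 : ND P M (fun n ω => (fl1 (q n + k n) (f n ω - U.rd (k n) (G n ω) * u n ω),
      (U.rd (k n) (G n ω), fl1 (q n) (u n ω), fl1 (q n) (f n ω), Θ n ω)))
      fun n ω => (fl1 (q n) (u n ω), Γ n ω, Θ n ω) :=
    n2.pair ((ND.of_fn (fc.mono fun n h a ha b hb e => by
      simp only [(h a ha b hb e).2.1])).pair ((ND.of_fn (Eventually.of_forall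
        fun n a _ b _ e => congrArg (fun p => p.1) e)).pair (n3.pair (ND.of_fn
          (Eventually.of_forall fun n a _ b _ e => congrArg (fun p => p.2.2) e)))))
  have l2 := ND.le (F := fun n ω => fl1 (q n + k n) (u n ω)) (F' := fun n ω => fl1 (q n + k n) (u n ω))
    (ND.of_fn (Eventually.of_forall fun n a _ b _ e => congrArg (fun p => p.1) e)) n4
  refine Le.of5 hs hS.ful l0 l1 l2 (Eventually.of_forall fun n => ?_)
  have := ch_chain (P := P n) (fun ω => fl1 (q n + k n) (f n ω - U.rd (k n) (G n ω) * u n ω))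
    (fun ω => fl1 (q n + k n) (u n ω))
    fun ω => (U.rd (k n) (G n ω), fl1 (q n) (u n ω), fl1 (q n) (f n ω), Θ n ω)
  push_cast
  linarith

end Pool.Agent.MP_5168f5_an.R4.B1
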