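import Pool.Agent.MP_5168f5_an.R4.SpecB

/-! Kakeya sets in four dimensions, broad slopes: the broad case in mode I. -/

namespace Pool.Agent.MP_5168f5_an.R4.B1

open H19 H17S H17F Filter K31 Tan

theorem rowIbG : RIbG := by
  intro hS h3 hMaj hCp hV hU Ω K g M mm D η d ρ ε₀ ε T i i' a α R r k hT hH hP hε hk
  obtain ⟨X, β, Λ, l, Γ, G, hX, hl, s1, s2⟩ := hV K g M D i i' d ρ ε₀ a α R r hH hP
  have hM := hH.big
  have hq : ∀ᶠ n in UF, α n ≤ α n + R n := Eventually.of_forall fun n => Nat.le_add_right _ _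
  have hr : ∀ᶠ n in UF, α n + R n ≤ r n := hP.lo.mono fun n h => by
    exact_mod_cast (le_mul_of_one_le_left (Nat.cast_nonneg _) hH.one).trans h.2
  have t1 := hS.cp X.P _ _ _ Γ G M α _ (fun n => (X.G g n).fp fun _ => r n) hM
    (hr.mono fun n h => ⟨Nat.le_add_right _ _, fun x _ y _ e => by
      simp only [Geo.fp, Prod.mk.injEq] at e
      simp only [xz, Geo.zt, Prod.mk.injEq]
      exact ⟨fl1_eq_of_le h (congrFun e.1 i), fl1_eq_of_le h (congrFun e.1 i'), congrFun e.1 0,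
        e.2⟩⟩) s1
  have d1 := U.dnS_fst X.P X.P (fun n => (X.G g n).fp fun _ => r n)
    fun n => (X.G g n).fp fun _ => r n
  have d3 := U.dnS_fst (fun n => glue (X n).Q (X n).Q ((X.G g n).fp fun _ => r n)
    ((X.G g n).fp fun _ => r n)) X.P (fun n v => l n v.1) l
  obtain ⟨L₀, hL₀, bx⟩ := hT.bx hX
  obtain ⟨C, -, hC⟩ := d3.trans d1
  have u1 := hS.dn _ _ _ _ _ _ M α _ _ _ hM hq t1 d3
  have u2 := hS.dn _ _ _ _ _ _ M α _ _ (fun n (v : ((X n).W × (X n).W) × (X n).W) => (v.1.1, v.2))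
    hM hq s2 (dnS_law (Eventually.of_forall fun n => law_glue (kg.fst (X n).Q (X n).Q
      ((X.G g n).fp fun _ => r n) ((X.G g n).fp fun _ => r n)) _ (l n) (l n)))
  have u3 := hU K g M D i i' d ρ ε₀ X _ _ α (fun n => α n + R n) r hH hX (d3.trans d1) hP.om.2
    (hP.lo.mono fun n h => ⟨Nat.le_add_right _ _, h.2⟩)
  have u4 := h3 _ (fun n v => (X.G g n).pt v.1.1 i) (fun n v => (X.G g n).pt v.1.1 i')
    (fun n v => xz (X.G g n) (r n) v.1.1) (fun n v => Γ n v.1.2) (fun n v => Γ n v.2)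
    (fun n v => G n v.1.2) (fun n v => G n v.2) M α (fun n => α n + R n) k ε₀
    ⟨hM, hP.om.2.mono hr, hq, ⟨ε, hε, hk.mono fun n h => by push_cast; linarith⟩,
      ⟨_, hL₀.const_mul hM one_le_two, (bx.and hC).mono fun n h v hv =>
        ⟨abs_pt h.1 (h.2.mem hv) i, abs_pt h.1 (h.2.mem hv) i'⟩⟩, u1, u2, by exact u3⟩
  obtain ⟨E, hE, fE⟩ := hMaj (fun n => glue (X n).Q (X n).Q ((X.G g n).fp fun _ => r n)
    ((X.G g n).fp fun _ => r n)) X.P (fun n v => l n v.1) l (fun n v => G n v.2) G k u4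
  obtain ⟨c, L, hL, -, hW⟩ := t1.fit
  have hE2 := hE.and (hW.mono (F := fun n v => |G n v.2| ≤ L n)
    (Eventually.of_forall fun _ _ _ h => h.1))
  refine ⟨(X.ext (fun n => glue (X n).Q (X n).Q ((X.G g n).fp fun _ => r n)
    ((X.G g n).fp fun _ => r n)) fun _ => Prod.fst).cond fun n v => E n v ∧ |G n v.2| ≤ L n, Λ,
    fun n (v : (X n).W × (X n).W) => Γ n v.2, fun n (v : (X n).W × (X n).W) => G n v.2, L,
    hT.cl.toCl0.cond _ _ (hT.cl.toCl0.fst hX fun n => (X.G g n).fp fun _ => r n) hE2,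
    hS.dn _ _ _ _ _ _ M α _ _ _ hM hq t1 (dnS_cE hE2), hL,
    hE2.sure.mono fun n h v hv => (h v hv).2.2, fun c hc => ?_⟩
  refine hCp X.P (X.G g) mm c _ _ (fun n v => U.rd (k n) (G n v)) _ hT.bigm ((hT.com X hX).lab c hc)
    ((kb.fatB X.P (X.G g) mm (fun n _ => r n) (hT.low.bs X hX)).2.2
      fun j => (hT.com X hX).fat j r hP.om.2) hE2 ?_
  filter_upwards [hE2.sure, fE] with n h1 h2 x hx y hy e
  obtain ⟨x1, x2, -⟩ := h1 x hx
  obtain ⟨y1, y2, -⟩ := h1 y hy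
  exact U.rd_congr (h2 x ((mem_cE ⟨x, x1, x2⟩ x).2 ⟨x1, x2⟩) y ((mem_cE ⟨x, x1, x2⟩ y).2 ⟨y1, y2⟩)
    (hl n _ ((U.mem_copy _ _ _).1 x1).1 _ ((U.mem_copy _ _ _).1 y1).1 e))

theorem rowIbF : RIbF := by
  intro hS hF hU hG Ω K g M mm D η d ρ ε₀ T i i' hT hH hB
  have hM := hH.big
  have d1 := hH.one
  obtain ⟨e0, e1⟩ := hH.e0
  obtain ⟨α, hα⟩ : ∃ α : ℕ → ℕ, ∀ n, (d - 1) * M n ≤ α n ∧ (α n : ℝ) ≤ (d - 1) * M n + 1 :=
    ⟨fun n => ⌈(d - 1) * M n⌉₊, fun n => ⟨Nat.le_ceil _,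
      (Nat.ceil_lt_add_one (mul_nonneg (by linarith) (Nat.cast_nonneg _))).le⟩⟩
  obtain ⟨r, hr, hd⟩ : ∃ r : ℕ → ℕ, OM M r ∧ ∀ᶠ n in UF, d * (α n + M n : ℕ) ≤ r n :=
    ⟨fun n => ⌈d * (d + 1)⌉₊ * M n, OM.rfl.mul _, (hM.ev 1).mono fun n h => by
      have := mul_le_mul_of_nonneg_right (Nat.le_ceil (d * (d + 1))) (zero_le_one.trans h)
      push_cast
      nlinarith [(hα n).2]⟩
  obtain ⟨c, hc⟩ : ∃ c : ℕ → ℕ, ∀ n, d * c n ≤ α n ∧ (α n : ℝ) ≤ d * c n + d :=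
    ⟨fun n => ⌊α n / d⌋₊, fun n => ⟨(le_div_iff₀' (by linarith)).1 (Nat.floor_le (by positivity)), by
      linarith [(div_lt_iff₀' (by linarith)).1 (Nat.lt_floor_add_one ((α n : ℝ) / d))]⟩⟩
  have hk := lev_le M (c := ε₀ / 2) (by linarith)
  have hk1 := lev_le' M (c := ε₀ / 2) (by linarith)
  have hk2 := lt_lev M (ε₀ / 2)
  generalize lev M (ε₀ / 2) = k at hk hk1 hk2
  have hr1 : ∀ᶠ n in UF, α n + M n ≤ r n := hd.mono fun n h => by
    exact_mod_cast (le_mul_of_one_le_left (Nat.cast_nonneg _) d1).trans h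
  have oc : OM M c := hr.mono (hr1.mono fun n h => by
    have : c n ≤ α n := by
      exact_mod_cast (le_mul_of_one_le_left (Nat.cast_nonneg _) d1).trans (hc n).1
    omega)
  have ok : OM M fun n => α n + k n := hr.mono (hr1.mono fun n h => by linarith [hk n])
  obtain ⟨X, Λ, Γ, G, L, hX, sg, hL, bd, lab⟩ := hG K g M mm D η d ρ ε₀ (ε₀ / 2) T i i' M α M r k
    hT hH ⟨⟨OM.rfl, hr⟩, hd.mono fun n h => ⟨(hα n).1, h⟩,
      (hM.sm 1).of_sub (Eventually.of_forall fun n => by linarith [(hα n).2]),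
      (hM.sm 1).of_sub (Eventually.of_forall fun n => by push_cast; linarith [(hα n).2]),
      1, one_pos, Eventually.of_forall fun n => (one_mul _).le⟩ (by linarith)
    (Eventually.of_forall fun n => by linarith [hk1 n])
  obtain ⟨L₀, hL₀, bx⟩ := hT.bx hX
  have hL' := (hL₀.const_mul hM one_le_two).add hL hM
  have f1 := hB X hX _ _ (fun n v => U.rd (k n) (G n v)) c _ oc (lab c oc) hL'
    (bd.mono fun n h => ⟨Fn.snd _ _, fun v hv => (U.abs_rd _ _).trans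
      (by linarith [h v hv, hL₀.1 n])⟩) α (fun n => α n + k n) r ok hr
    (Eventually.of_forall fun n => ⟨(hc n).1, Nat.le_add_right _ _⟩)
  have f2 := hF X.P _ _ _ Γ (fun n v => ((mD X D n).S (c n) v, U.rd (k n) (G n v))) G M α k _ hM ok
    hL' ((bx.and bd).mono fun n h => ⟨Fn.snd _ _, fun v hv =>
      ⟨(abs_pt h.1 hv i).trans (by linarith [hL.1 n]), (abs_pt h.1 hv i').trans
        (by linarith [hL.1 n]), (h.2 v hv).trans (by linarith [hL₀.1 n])⟩⟩)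
    (hS.sub _ _ _ _ _ _ M α _ _ (Eventually.of_forall fun n =>
      ⟨Nat.le_add_right _ _, Nat.add_le_add_left (hk n) _⟩) sg)
    ((hH.dpt X hX c α r oc hr (hr1.mono fun n h => by omega)
      ((hM.sm d).of_sub (Eventually.of_forall fun n => by linarith [(hc n).2]))).anti
      (Eventually.of_forall fun n x _ y _ e => Prod.ext (Prod.ext_iff.1 (Prod.ext_iff.1 e).1).1
        (Prod.ext_iff.1 e).2))
    (f1.of_sub (Eventually.of_forall fun n => sub_le_sub (le_of_eq (by push_cast; ring))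
      (ch_anti fun x _ y _ e => by
        simp only [xz, Prod.mk.injEq] at e ⊢
        exact ⟨e.1, e.2.2.1, e.2.1, e.2.2.2⟩)))
  have f3 := (hU K g M D i i' d ρ ε₀ X X.P (fun _ => id) α (fun n => α n + k n) r hH hX
    (U.dnS_rfl _) hr (hd.mono fun n h => ⟨Nat.le_add_right _ _, le_trans (mul_le_mul_of_nonneg_left
      (by exact_mod_cast Nat.add_le_add_left (hk n) _) (by linarith)) h⟩)).self
  refine (f2.trans f3).false hM (c := ε₀ * (ε₀ / 4) * lg) (by have := lg_pos; positivity) ?_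
  filter_upwards [hM.ev (4 / ε₀)] with n h
  rw [div_le_iff₀ e0] at h
  have := mul_le_mul_of_nonneg_left (show ε₀ / 4 * M n ≤ k n by linarith [hk2 n])
    (mul_pos e0 lg_pos).le
  push_cast
  linarith

end Pool.Agent.MP_5168f5_an.R4.B1
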