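import Pool.Agent.MP_5168f5_an.R4.SpecB

/-! A variable close to an independent variable is a function of the common data on an event. -/

namespace Pool.Agent.MP_5168f5_an.R4.B1

open H19 H17S H17F Filter K31 Tan

namespace BMajA

theorem ex_le {Ω : Type} (P : FP Ω) (h : Ω → ℝ) : ∃ y, h y ≤ P.E h := by
  obtain ⟨y, -, k⟩ := P.S.exists_min_image h
    ((ex_of_pb (one_pos.trans_eq (pb_true P).symm)).imp fun _ a => a.1)
  exact ⟨y, (P.E_const _).symm.trans_le (P.E_mono k)⟩

theorem sel {Ω Ω' β : Type} (P : FP Ω) (P' : FP Ω') (l : Ω → β) (l' : Ω' → β) (F : Ω × Ω' → ℝ) :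
    ∃ y : β → Ω', P.E (fun x => F (x, y (l x))) ≤ (glue P P' l l').E F := by
  choose y hy using fun b => ex_le (cv P' l' b) fun y => (cv P l b).E fun x => F (x, y)
  refine ⟨y, ?_⟩
  rw [KGA.E_glue, KEA.exp P l fun b x => F (x, y b),
    KEA.exp P l fun b x => (cv P' l' b).E fun y => F (x, y)]
  exact P.E_mono fun a _ => (hy _).trans_eq (KGA.E_swap _ _ fun y x => F (x, y))

end BMajA

theorem rowMaj : Maj := by
  classical
  intro Ω Ω' β P P' l l' G G' k h
  choose y hy using fun n => BMajA.sel (P n) (P' n) (l n) (l' n) fun v =>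
    @ite ℝ (¬|G n v.1 - G' n v.2| ≤ 1 / 2 ^ k n) (Classical.propDecidable _) 1 0
  have w : Whp P fun n x => |G n x - G' n (y n (l n x))| ≤ 1 / 2 ^ k n := fun ε hε =>
    (h ε hε).mono fun n a => (hy n).trans a
  obtain ⟨j, p⟩ := ks.pig P _ (fun n x =>
    SignType.sign (fl1 (k n) (G n x) - fl1 (k n) (G' n (y n (l n x))))) w.pos
  have key : ∀ n x, |G n x - G' n (y n (l n x))| ≤ 1 / 2 ^ k n →
      fl1 (k n) (G n x) = fl1 (k n) (G' n (y n (l n x))) +
        SignType.sign (fl1 (k n) (G n x) - fl1 (k n) (G' n (y n (l n x)))) := fun n x a => by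
    have := Finset.mem_Icc.1 (fl1_mem_Icc (j := k n) (n := 1) (by simpa using a))
    rcases lt_trichotomy (fl1 (k n) (G n x) - fl1 (k n) (G' n (y n (l n x)))) 0 with e | e | e
    · rw [sign_neg e, SignType.coe_neg_one]; omega
    · rw [e, sign_zero, SignType.coe_zero]; omega
    · rw [sign_pos e, SignType.coe_one]; omega
  refine ⟨_, p, p.sure.mono fun n a u hu v hv e => ?_⟩
  have e1 := key n u (a u hu).2.1
  have e2 := key n v (a v hv).2.1
  rw [(a u hu).2.2, e] at e1
  rw [(a v hv).2.2] at e2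
  exact e1.trans e2.symm

end Pool.Agent.MP_5168f5_an.R4.B1
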