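import Pool.Agent.MP_5168f5_an.R4.SpecB

/-! In the product case `f` is full in its tube given `u`. -/

namespace Pool.Agent.MP_5168f5_an.R4.B1

open H19 H17S H17F Filter K31 Tan

theorem rowP1a : RP1a := by
  intro xv Ω K g M mm D η γ d ε₀ κ X a s R p r h hd ⟨ρ, hρ, br⟩ hX ha hr hκ e hs hp
  have hM := h.toTn.big
  have c := h.com X hX
  have γ1 := h.one
  have d1 := h.dge
  obtain ⟨L, hL, bx⟩ := h.toTn.bx hX
  obtain ⟨C, C0, e1, e2, e3⟩ := om_big hr
  have hz : ∀ᶠ n in UF, ∀ ω ∈ (X n).Q.S, |(X.G g n).z ω| ≤ 1 := bx.mono fun n b ω hω =>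
    abs_le.2 ⟨by linarith [(b.bd ω hω).2.1], (b.bd ω hω).2.2.le⟩
  obtain ⟨B, hB⟩ : ∃ B, B = fun n ω => (fl1 (s n) ((X.G g n).e ω 2), bl (X.G g n) (r n) ω,
    (mD X D n).S (a n) ω, (X.G g n).z ω) := ⟨_, rfl⟩
  have b1 : ∀ n, Fn (X n).Q (fun ω => fl1 (s n) ((X.G g n).e ω 2)) (B n) := fun n =>
    hB ▸ Fn.fst _ _
  have b2 : ∀ n, Fn (X n).Q (bl (X.G g n) (r n)) (B n) := fun n => hB ▸ (Fn.fst _ _).right _
  have b3 : ∀ n, Fn (X n).Q ((mD X D n).S (a n)) (B n) := fun n =>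
    hB ▸ ((Fn.fst _ _).right _).right _
  have b4 : ∀ n, Fn (X n).Q (X.G g n).z (B n) := fun n => hB ▸ ((Fn.snd _ _).right _).right _
  have n0 : ND X.P M (fun n ω => fl1 (r n) ((X.G g n).pt ω 0)) B :=
    nd_pt hM (hz.mono fun n u => ⟨((Fn.comp Prod.fst _).trans (b2 n)).pair
      (((Fn.comp Prod.snd _).trans (b2 n)).pair (b4 n)), u⟩)
  have n1 : ND X.P M (fun n ω => fl1 (p n) ((X.G g n).e ω 1)) B :=
    cell0_sl c.cellU hM (by linarith) ha hr hp hL (by
      filter_upwards [e, bx, c.nest] with n u v w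
      exact ⟨u.2.2.2, v, (((Fn.comp (·.2.2.2.1) _).trans (w.2 _).2).trans (b3 n)).pair
        ((Fn.comp Prod.snd _).trans (b2 n))⟩)
  have n2 : ND X.P M (fun n ω => fl1 (p n) ((X.G g n).pt ω 1)) B :=
    n0.cut (cell0_pt c.cellU hM (by linarith) ha hr (hp.of_sub (Eventually.of_forall fun n => by
      linarith [Nat.cast_nonneg (α := ℝ) (a n)])) hL (by
      filter_upwards [e, bx, c.nest] with n u v w
      exact ⟨u.2.2.2, v, ((((Fn.comp (·.2.2.2.1) _).trans (w.2 _).2).trans (b3 n)).right _).pair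
        ((Fn.fst _ _).pair ((b4 n).right _))⟩))
  have n3 : ND X.P M (fun n ω => fl1 (p n) ((X.G g n).a ω 1)) B :=
    (n2.pair n1).cut (ND.mono (nd_pt (a := fun n ω => (X.G g n).pt ω 1)
      (e := fun n ω => (X.G g n).e ω 1) (z := fun n ω => -(X.G g n).z ω) (r := p) hM
      (hz.mono fun n u => ⟨((Fn.fst _ _).left _).pair (((Fn.snd _ _).left _).pair
        (((Fn.comp (fun t => -t) _).trans (b4 n)).right _)), fun ω hω => by
          rw [abs_neg]; exact u ω hω⟩)) (Eventually.of_forall fun n x _ y _ q => by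
      have : ∀ ω, (X.G g n).pt ω 1 + -(X.G g n).z ω * (X.G g n).e ω 1 = (X.G g n).a ω 1 :=
        fun ω => by
          rw [show (X.G g n).pt ω 1 = (X.G g n).a ω 1 + (X.G g n).z ω * (X.G g n).e ω 1 from rfl]
          ring
      simpa only [this] using q))
  have n4 : ND X.P M (fun n ω => fl1 (s n + R n) ((X.G g n).pt ω 2)) B :=
    n0.cut (cell0_pt ((h.fl X hX).cellP hd) hM (by linarith) ha hr hs hL (by
      filter_upwards [e, bx, c.nest] with n u v w
      exact ⟨u.2.2.1, v, ((((Fn.comp (·.2.2.2.2) _).trans (w.2 _).2).trans (b3 n)).right _).pair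
        ((Fn.fst _ _).pair ((b4 n).right _))⟩))
  have oR : OM M fun n => s n + R n := hr.mono (e.mono fun _ u => u.2.2.1)
  have C1 : (0 : ℝ) < C := by exact_mod_cast C0
  have k := xv X.P (X.G g) 2 (fun n => C * M n) s R (fun n ω => (bl (X.G g n) (r n) ω,
    fl1 (p n) ((X.G g n).a ω 1), fl1 (p n) ((X.G g n).e ω 1))) B ρ (κ / C)
    ((h.cls C C0).bs X hX) hρ (by positivity) (by
      filter_upwards [e, e1, c.nest] with n u v w
      refine ⟨?_, u.2.2.1.trans v, Fn.comp (fun l : V 3 × V 3 × _ => ((fl1 (r n) (l.1 0),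
        fl1 (r n) (l.2.1 0)), fl1 (p n) (l.1 1), fl1 (p n) (l.2.1 1))) _, Fn.pair ((b4 n).pair
          (((Fn.comp (·.1) _).trans (w.2 _).2).trans (b3 n))) (b1 n)⟩
      push_cast
      rw [← mul_assoc, div_mul_cancel₀ _ C1.ne']
      exact u.2.1)
    ((((ND.of_fn (Eventually.of_forall b2)).pair (n3.pair n1)).pair n4).unit e2)
    fun l hl W Q f dn => le_unit e2 (hB ▸ br _ (h.cl.toCl0.dn hX dn) a s l r ha
      (oR.mono (Eventually.of_forall fun n => (hl n).trans (Nat.le_add_left _ _))) hr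
      (e.mono fun _ u => u.1) (oR.mono (Eventually.of_forall fun n => Nat.le_add_right _ _)))
  refine (le_unit e3 k).trans (ND.le (ND.of_fn (Eventually.of_forall fun n => Fn.fst _ _))
    ((ND.of_fn (Eventually.of_forall fun n => Fn.fst _ _)).pair (ND.pair ?_ (ND.pair ?_
      (ND.of_fn (Eventually.of_forall fun n => (Fn.snd _ _).right _))))))
  · exact nd_pt hM (hz.mono fun n u => ⟨Fn.right (((((Fn.fst _ _).right _).left _)).pair
      ((((Fn.snd _ _).right _).left _).pair (((Fn.comp Prod.fst (X.G g n).zt)).right _))) _, u⟩)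
  · exact nd_pt hM (hz.mono fun n u => ⟨Fn.right
      (((((Fn.comp Prod.fst (bl (X.G g n) (r n))).left _).left _)).pair
      ((((Fn.comp Prod.snd (bl (X.G g n) (r n))).left _).left _).pair
        (((Fn.comp Prod.fst (X.G g n).zt)).right _))) _, u⟩)

end Pool.Agent.MP_5168f5_an.R4.B1
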