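import Pool.Agent.MP_5168f5_an.R4.SpecB

/-! Segments on refinements, in shorter windows and on copies. -/

namespace Pool.Agent.MP_5168f5_an.R4.B1

open H19 H17S H17F Filter K31 Tan

namespace BSegA

theorem det_ref {Ω β : Type} {P : FP Ω} {x : Ω → ℝ} {G : Ω → β} {j k : ℕ} (e : j ≤ k)
    (h : Fn P (fun ω => fl1 j (x ω)) G) : Det P (fun ω => fl1 k (x ω)) G (2 ^ (k - j)) := by
  obtain ⟨i, rfl⟩ := Nat.exists_eq_add_of_le e
  intro a ha
  rw [Nat.add_sub_cancel_left]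
  refine ⟨Finset.Ico (2 ^ i * fl1 j (x a)) (2 ^ i * fl1 j (x a) + 2 ^ i), ?_,
    fun b hb e => fl1_mem_Ico (h b hb a ha e)⟩
  have : ((2 : ℤ) ^ i).toNat = 2 ^ i := by
    rw [show ((2 : ℤ) ^ i) = ((2 ^ i : ℕ) : ℤ) by push_cast; rfl, Int.toNat_natCast]
  simp [this]

theorem log_ref {j k : ℕ} (e : j ≤ k) : Real.log (2 ^ (k - j)) = (k - j : ℝ) * lg := by
  rw [log_two_pow, Nat.cast_sub e]

theorem num {f f' u u' G c L : ℝ} {q : ℕ} (hL : 1 ≤ L) (hG : |G| ≤ L)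
    (h : |f' - G * u' - c| ≤ L / 2 ^ q) (hu : fl1 q u' = fl1 q u) (hf : fl1 q f' = fl1 q f) :
    |f - G * u - c| ≤ 3 * L / 2 ^ q := by
  have e1 := U.near_of_fl1 hf.symm
  have e2 := mul_le_mul hG (U.near_of_fl1 hu) (abs_nonneg _) (by linarith)
  have e3 : (1 : ℝ) / 2 ^ q ≤ L / 2 ^ q := div_le_div_of_nonneg_right hL (by positivity)
  rw [← abs_mul, mul_one_div] at e2
  rw [show f - G * u - c = f' - G * u' - c + (f - f') + G * (u' - u) by ring, mul_div_assoc]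
  linarith [abs_add_three (f' - G * u' - c) (f - f') (G * (u' - u))]

end BSegA

open BSegA in
theorem rowSegK : SegK where
  dn := fun P u f Θ Γ G M q q' Q ρ hM hq ⟨⟨c, L, hL, h1, h2⟩, h3⟩ hd => by
    refine ⟨⟨fun n v => c n (ρ n v), L, hL, ?_, hd.whp h2⟩, ?_⟩
    · obtain ⟨C, -, b⟩ := hd
      filter_upwards [b, h1] with n x y using ⟨x.fn y.1, x.fn y.2⟩
    · have e := hq.mono fun n => log_ref (j := q n) (k := q' n)
      exact (hd.full hM (hq.mono fun n a => det_ref a (Fn.fst _ _))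
        (h3.congr e (Eventually.of_forall fun _ => rfl))).congr (e.mono fun _ a => a.symm)
        (Eventually.of_forall fun _ => rfl)
  sub := fun P u f Θ Γ G M q p q' hq ⟨⟨c, L, hL, h1, h2⟩, h3⟩ => by
    refine ⟨⟨c, L, hL, h1, h2.mono (hq.mono fun n a ω _ b =>
      ⟨b.1, b.2.trans (U.div_pow_le (hL.pos n).le a.2)⟩)⟩, h3.of_sub (hq.mono fun n a => ?_)⟩
    have e1 := ch_tri (P := P n) (fun ω => fl1 (q' n) (u n ω)) (fun ω => fl1 (p n) (u n ω))
      fun ω => (fl1 (q n) (u n ω), Γ n ω, Θ n ω)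
    have e2 := ch_det (det_ref (P := P n) (x := u n) a.2 (Fn.fst (fun ω => fl1 (p n) (u n ω))
      fun ω => (fl1 (q n) (u n ω), Γ n ω, Θ n ω)))
    rw [log_ref a.2] at e2
    linarith
  cp := fun P u f Θ Γ G M q q' φ hM hq ⟨⟨c, L, hL, h1, h2⟩, h3⟩ => by
    have k : ∀ᶠ n in UF, ∀ v ∈ (glue (P n) (P n) (φ n) (φ n)).S,
        (v.1 ∈ (P n).S ∧ v.2 ∈ (P n).S) ∧ fl1 (q' n) (u n v.2) = fl1 (q' n) (u n v.1) ∧
          fl1 (q' n) (f n v.2) = fl1 (q' n) (f n v.1) ∧ Θ n v.2 = Θ n v.1 :=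
      hq.mono fun n a v hv => by
        obtain ⟨x, y, z⟩ := (U.mem_copy _ _ v).1 hv
        simpa only [Prod.mk.injEq] using And.intro (And.intro x y) (a.2 _ y _ x z)
    refine ⟨⟨fun n v => c n v.2, _, hL.const_mul hM (C := 3) (by norm_num), ?_,
      ((U.dnS_snd P φ).whp h2).mono (k.mono fun n a v hv b =>
        ⟨b.1.trans (by linarith [hL.pos n]), num (hL.1 n) b.1 b.2 (a v hv).2.1 (a v hv).2.2.1⟩)⟩,
      h3.congr (Eventually.of_forall fun _ => rfl) ?_⟩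
    · filter_upwards [k, h1] with n a b
      refine ⟨fun v hv w hw => b.1 _ (a v hv).1.2 _ (a w hw).1.2,
        fun v hv w hw e => b.2 _ (a v hv).1.2 _ (a w hw).1.2 ?_⟩
      simpa only [(a v hv).2.2.2, (a w hw).2.2.2] using e
    · filter_upwards [k, hq] with n a b
      rw [← (kg.snd (P n) (P n) (φ n) (φ n) (Law.rfl _)).ch_id]
      exact ch_ext (fun v hv => (a v hv).2.1.symm) fun v hv => by
        rw [fl1_eq_of_le b.1 (a v hv).2.1, (a v hv).2.2.2]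

end Pool.Agent.MP_5168f5_an.R4.B1
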