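import Pool.Agent.MP_5168f5_an.R4.SpecB

/-! Broad slopes: the shear by the rounded slope. -/

namespace Pool.Agent.MP_5168f5_an.R4.B1

open H19 H17S H17F Filter K31 Tan

namespace BShLA

theorem abs_comb {x y e A B C : ℝ} (hx : |x| ≤ A) (he : |e| ≤ B) (hy : |y| ≤ C) :
    |x + e * y| ≤ A + B * C := by
  refine (abs_add_le _ _).trans (add_le_add hx ?_)
  rw [abs_mul]
  exact mul_le_mul he hy (abs_nonneg _) ((abs_nonneg _).trans he)

theorem fn_H {Ω : Type} {P : FP Ω} {D : Td Ω} {α β γ : Type} {j : ℕ} {x : Ω → α} {y : Ω → β}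
    {z : Ω → γ} (h : Fn P (fun ω => (x ω, y ω, z ω, D.U j ω, D.H j ω)) (D.S j)) :
    Fn P (D.U j) (D.S j) ∧ Fn P (D.H j) (D.S j) :=
  ⟨fun a ha b hb e => congrArg (·.2.2.2.1) (h a ha b hb e),
    fun a ha b hb e => congrArg (·.2.2.2.2) (h a ha b hb e)⟩

end BShLA

open BShLA in
theorem rowShL : ShL := by
  intro Ω K g M mm D η γ d ε₀ ρ X a b k hT _ hd _ hS
  have hC := hT.com X hS.mem
  have hM := hT.toTn.big
  have d0 : 0 ≤ d - γ := by linarith
  have hG : ∀ n, Fn (X n).Q (Gh D X b k n) fun v => fl1 (k n) (Gc (mD X D) b n v) :=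
    fun n u _ v _ e => by simp only [Gh, U.rd, e]
  refine ⟨fun c hc => ⟨(hC.lab c (hS.om.mono hc)).h.mono (hS.fn.mono fun n u => mi_mono' ?_),
    (hC.lab b hS.om).l.mono ((hc.and hC.nest).mono fun n u => mi_mono' (Fn.left ?_ _))⟩, ?_⟩
  · exact (Fn.fst _ _).pair ((((hG n).trans u).left _).right _)
  · exact (nest_le (fun j => (u.2.2 j).1) u.1).pair fun x hx y hy e =>
      congrArg (fun h : ℝ × ℝ × V 3 => U.rd (k n) (h.2.2 1)) ((fn_H (u.2.2 (b n)).2).2 x hx y hy e)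
  obtain ⟨L₁, s₁, w⟩ := (hT.fl X hS.mem).conv a b (fun n => ⌊(d - γ) * a n⌋₊) hS.om
    (hS.le.mono fun n u => ⟨u, Nat.floor_le (by positivity)⟩)
  obtain ⟨L₂, s₂, e₂⟩ := sub_gap (q := k) (τ := fun n => ⌊(d - γ) * a n⌋₊) (hS.eq.1.of2 (hM.sm 1)
    (Eventually.of_forall fun n => by linarith [Nat.lt_floor_add_one ((d - γ) * a n)])) s₁
  obtain ⟨L₃, s₃, e₃⟩ := hS.bd
  obtain ⟨C, hc⟩ := om_cast (hS.om.mono hS.le)
  refine (ND.near (x := Gc (mD X D) b) (c := Gc (mD X D) a) (j := k) hM (s₂.add s₃ hM)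
    (om_of (C := (d - γ) * C + 1) ((hc.and (hS.eq.1 1 one_pos)).mono fun n u => by
      nlinarith [mul_le_mul_of_nonneg_left u.1 d0, u.2]))
    ((hC.nest.and e₃).mono fun n u => ⟨fun x hx y hy e => ?_, fun v hv =>
      (u.2 v hv).trans (le_add_of_nonneg_left (s₂.pos n).le)⟩)
    (w.mono (Eventually.of_forall fun n v _ u => ?_))).mono (Eventually.of_forall hG)
  · exact congrArg (·.2.2 1) ((fn_H (u.1.2 (a n)).2).2 x hx y hy e)
  · rw [abs_sub_comm]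
    exact u.trans ((e₂ n).2.trans (div_le_div_of_nonneg_right
      (le_add_of_nonneg_right (s₃.pos n).le) (by positivity)))

open BShLA in
theorem rowShP : ShP := by
  intro Ω K g M mm D η γ d ε₀ ρ X a b k hT hγ hd _ hS c p hc hp
  have hC := hT.com X hS.mem
  have hF := hT.fl X hS.mem
  have hM := hT.toTn.big
  have d0 : 0 ≤ d - γ := by linarith
  have g0 : 0 ≤ γ := by linarith
  have hcb := (hc.and hS.le).mono fun n u => u.1.trans u.2
  have oc := hS.om.mono hcb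
  obtain ⟨L₁, s₁, w₁⟩ := hF.conv c b (fun n => ⌊(d - γ) * c n⌋₊) hS.om
    (hcb.mono fun n u => ⟨u, Nat.floor_le (by positivity)⟩)
  obtain ⟨L₂, s₂, e₂⟩ := sub_gap (q := fun n => ⌊(d - γ) * c n⌋₊) (τ := k) (hS.eq.2.of_sub
    (hc.mono fun n u => sub_le_sub_right ((Nat.floor_le (by positivity)).trans
      (mul_le_mul_of_nonneg_left (Nat.cast_le.2 u) d0)) _)) (hM.sub le_rfl)
  obtain ⟨L₃, s₃, w₃⟩ := cell_near (hF.cellH hd.le) hM (by linarith) oc hp
  obtain ⟨L₄, s₄, w₄⟩ := cell_near (p := fun n => ⌊γ * c n⌋₊) hC.cellU hM g0 oc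
    (Le.of_le fun n => Nat.floor_le (by positivity))
  obtain ⟨L₅, s₅, e₅⟩ := sub_gap (q := p) (τ := fun n => ⌊(d - γ) * c n⌋₊ + ⌊γ * c n⌋₊)
    (hp.of2 (hM.sm 2) (Eventually.of_forall fun n => by
      push_cast
      linarith [Nat.lt_floor_add_one ((d - γ) * c n), Nat.lt_floor_add_one (γ * c n)]))
    ((s₁.add s₂ hM).mul s₄)
  refine ⟨fun n v =>
    (((mD X D n).H (c n) v).1 + (Gc (mD X D) c n v - Gh D X b k n v) * ((mD X D n).U (c n) v).1,
      ((mD X D n).H (c n) v).2.1 +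
        (Gc (mD X D) c n v - Gh D X b k n v) * ((mD X D n).U (c n) v).2.1,
      ((mD X D n).H (c n) v).2.2 0 +
        (Gc (mD X D) c n v - Gh D X b k n v) * ((mD X D n).U (c n) v).2.2 0), _, s₃.add s₅ hM,
    hC.nest.mono fun n u x hx y hy e => ?_,
    ((w₁.and w₃).and w₄).mono (Eventually.of_forall fun n v _ u => ?_)⟩
  · have e1 := fn_H (u.2 (c n)).2
    beta_reduce
    unfold Gc
    rw [e1.1 x hx y hy (congrArg Prod.fst e), e1.2 x hx y hy (congrArg Prod.fst e),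
      show Gh D X b k n x = Gh D X b k n y from congrArg Prod.snd e]
  obtain ⟨⟨u1, a1, a2, a3, a4⟩, b1, b2, b3, b4⟩ := u
  have k1 : |Gc (mD X D) c n v - Gh D X b k n v| ≤ (L₁ n + L₂ n) / 2 ^ ⌊(d - γ) * c n⌋₊ := by
    rw [add_div]
    exact (abs_sub_le _ (Gc (mD X D) b n v) _).trans
      (add_le_add u1 ((U.abs_sub_rd _ _).trans (e₂ n).2))
  have p1 := (s₁.add s₂ hM).pos n
  have k2 := k1.trans (div_le_self p1.le (one_le_pow₀ one_le_two))
  have k3 := (e₅ n).2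
  rw [pow_add, ← div_mul_div_comm] at k3
  rw [sum01 fun i => (a2 i).2] at a3 a4
  rw [sum0 fun i => (b2 i).2] at b3 b4
  refine ⟨(abs_comb a1 k2 b1).trans (add_le_add le_rfl (e₅ n).1),
    (abs_comb (a2 0).1 k2 (b2 0).1).trans (add_le_add le_rfl (e₅ n).1), ?_, ?_⟩
  · rw [add_div]
    exact le_trans (le_of_eq (congrArg _ (by simp only [sh, Gc]; ring)))
      ((abs_comb a3 k1 b3).trans (add_le_add le_rfl k3))
  · refine le_trans (le_of_eq (congrArg _ (by simp only [sh, Gc]; ring)))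
      ((abs_comb a4 k1 b4).trans ?_)
    have := mul_le_mul_of_nonneg_right k3 (show (0 : ℝ) ≤ 2 ^ c n by positivity)
    calc _ = L₃ n * 2 ^ c n / 2 ^ p n + (L₁ n + L₂ n) / 2 ^ ⌊(d - γ) * c n⌋₊ *
          (L₄ n / 2 ^ ⌊γ * c n⌋₊) * 2 ^ c n := by ring
      _ ≤ L₃ n * 2 ^ c n / 2 ^ p n + L₅ n / 2 ^ p n * 2 ^ c n := add_le_add le_rfl this
      _ = _ := by ring

end Pool.Agent.MP_5168f5_an.R4.B1
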