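import Pool.Agent.MP_5168f5_an.R4.SpecB

/-! Broad slopes: two entropy inequalities. -/

namespace Pool.Agent.MP_5168f5_an.R4.B1

open H19 H17S H17F Filter K31 Tan

theorem rowSwap : Swap := by
  intro Ω α β γ P u F F' Θ p r h hF
  obtain ⟨i, rfl⟩ := Nat.exists_eq_add_of_le h
  have k1 := ch_symm (P := P) F' (fun ω => fl1 (p + i) (u ω)) fun ω => (F ω, fl1 p (u ω), Θ ω)
  have k2 : ch P F' (fun ω => (fl1 (p + i) (u ω), F ω, fl1 p (u ω), Θ ω)) ≤
      ch P F' fun ω => (F ω, fl1 (p + i) (u ω), Θ ω) :=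
    ch_anti fun a _ b _ e => by simp only [Prod.mk.injEq] at e ⊢; tauto
  have k3 : ch P (fun ω => fl1 (p + i) (u ω)) (fun ω => (fl1 p (u ω), F' ω, Θ ω)) ≤
      ch P (fun ω => fl1 (p + i) (u ω)) fun ω => (F' ω, F ω, fl1 p (u ω), Θ ω) :=
    ch_anti fun a ha b hb e => by
      simp only [Prod.mk.injEq] at e ⊢
      exact ⟨e.2.1, hF a ha b hb e.2.1, e.1, e.2.2⟩
  have k4 := ch_fl1_refine (P := P) (x := u) (G := fun ω => (F ω, fl1 p (u ω), Θ ω))
    (j := fun _ => p) (i := fun _ => i) (fun _ _ _ _ _ => rfl) (fun _ _ _ _ _ => rfl)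
    fun a _ b _ e => congrArg (·.2.1) e
  rw [FP.E_const] at k4
  push_cast
  linarith

theorem rowShF : ShF := by
  intro Ω α β γ δ ε P l t κ y lam h1 h2 h3
  have hm := fun v => (kg.mem P P l l v (Law.rfl l)).1
  have q1 := ch_symm (P := glue P P l l) (fun v => y v.1) (fun v => lam v.2)
    fun v => (t v.1, κ v.1)
  have q2 := (kg.fst P P l l).ch_id y fun ω => (t ω, κ ω)
  have q3 : ch (glue P P l l) (fun v => lam v.2) (fun v => (t v.1, κ v.1)) ≤
      ch (glue P P l l) (fun v => lam v.2) fun v => κ v.2 := ch_anti fun a ha b hb e => by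
    rw [h1 _ (hm a ha).2.1 _ (hm a ha).1 (hm a ha).2.2,
      h1 _ (hm b hb).2.1 _ (hm b hb).1 (hm b hb).2.2]
    exact congrArg Prod.snd e
  have q4 := (kg.snd P P l l (Law.rfl l)).ch_id lam κ
  have q5 := kg.mk1 P P l l lam (fun ω => (l ω, t ω)) (Law.rfl l) (Fn.fst l t)
  have q6 : ch (glue P P l l) (fun v => lam v.2) (fun v => (l v.1, t v.1)) ≤
      ch (glue P P l l) (fun v => lam v.2) fun v => (y v.1, t v.1, κ v.1) :=
    ch_anti ((kg.fst P P l l).fn (h2.pair ((Fn.snd l t).pair (h1.left t))))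
  have p1 := ch_symm (P := P) y lam fun ω => (t ω, κ ω)
  have p2 : ch P lam (fun ω => (y ω, t ω, κ ω)) ≤ ch P lam y := ch_anti (Fn.fst _ _)
  have p3 : ch P lam (fun ω => (l ω, y ω)) ≤ ch P lam fun ω => (t ω, l ω) :=
    ch_anti ((((Fn.fst t κ).trans h3).right l).pair (Fn.fst l y))
  have p4 := ch_symm (P := P) lam t κ
  have p5 := ch_symm (P := P) lam t l
  have p6 : ch P t (fun ω => (l ω, κ ω)) ≤ ch P t l := ch_anti (Fn.fst _ _)
  have p7 : ch P t (fun ω => (lam ω, l ω)) ≤ ch P t fun ω => (lam ω, κ ω) :=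
    ch_anti ((Fn.fst lam l).pair (h1.right lam))
  unfold mi
  linarith

end Pool.Agent.MP_5168f5_an.R4.B1
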