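import Pool.Agent.MP_5168f5_an.R4.SpecB

/-! In three dimensions, without full windows some plane label reaches the floor. -/

namespace Pool.Agent.MP_5168f5_an.R4.B1

open H19 H17S H17F Filter K31 Tan

namespace BUFlA

/-- A space with a label, shape data and a thickness. -/
structure Dt (Ω : Type) : Type 1 where
  E : Ext Ω
  Λ : Type
  lam : E.W → Λ
  d : E.W → ℝ × ℝ × V 2
  τ : ℕ

/-- The data describe a thin label on a member, of thickness at least `b`. -/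
def Ok {Ω : ℕ → Type} (K : Mb Ω → Prop) (g : Gs 2 Ω) (M b : ℕ → ℕ) (x : ∀ n, Dt (Ω n)) : Prop :=
  (K (fun n => (x n).E) ∧
    ((Sm M fun n => ((g.fin M n).pull (x n).E.ρ).hk (x n).E.Q 0 (x n).lam) ∧
      Sm M fun n => ((g.fin M n).pull (x n).E.ρ).lk (x n).E.Q (x n).lam)) ∧
  (∃ L, Sub M L ∧ ∀ᶠ n in UF, Fn (x n).E.Q (x n).d (x n).lam ∧ ∀ v ∈ (x n).E.Q.S,
    ((g n).pl {0} 1).fit (L n) ((x n).d v) ((x n).E.ρ v) 0 (x n).τ) ∧
  ∀ᶠ n in UF, b n ≤ (x n).τ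

theorem cf_ok {Ω : ℕ → Type} {K : Mb Ω → Prop} (h : CF K) (g : Gs 2 Ω) (M b : ℕ → ℕ) :
    CF (Ok K g M b) :=
  ((h.comp fun n (x : Dt (Ω n)) => x.E).and
    ((cf_sm (fun n (_ : Dt (Ω n)) => M n) fun n x => ((g.fin M n).pull x.E.ρ).hk x.E.Q 0 x.lam).and
      (cf_sm (fun n (_ : Dt (Ω n)) => M n) fun n x =>
        ((g.fin M n).pull x.E.ρ).lk x.E.Q x.lam))).and
  ((cf_sub (fun n (_ : Dt (Ω n)) => M n) fun n x L => Fn x.E.Q x.d x.lam ∧ ∀ v ∈ x.E.Q.S,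
    ((g n).pl {0} 1).fit L (x.d v) (x.E.ρ v) 0 x.τ).and (cf_ev fun n (x : Dt (Ω n)) => b n ≤ x.τ))

theorem c_le {i k : ℕ} (h : i ≤ k) : 1 - 1 / (i + 2 : ℝ) ≤ 1 - 1 / (k + 2 : ℝ) := by
  have : (i : ℝ) ≤ k := by exact_mod_cast h
  have := one_div_le_one_div_of_le (show (0 : ℝ) < i + 2 by positivity)
    (show (i + 2 : ℝ) ≤ k + 2 by linarith)
  linarith

theorem c_nonneg (i : ℕ) : 0 ≤ 1 - 1 / (i + 2 : ℝ) := by
  have : 1 / (i + 2 : ℝ) ≤ 1 := by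
    rw [div_le_one (by positivity)]
    linarith [Nat.cast_nonneg (α := ℝ) i]
  linarith

end BUFlA

open BUFlA in
theorem rowUFl : RUFl := by
  intro hU Ω K g M η ε₀ hc he hr
  obtain ⟨X₀, h₀⟩ := hc.ne
  have hM := (hc.bs X₀ h₀).big
  have hb : ∀ (k n : ℕ), lev M (1 - 1 / (k + 2 : ℝ)) n ≤ M n := fun k n =>
    lev_le M (sub_le_self _ (by positivity)) n
  have ex : ∀ k : ℕ, ∃ x, Ok K g M (lev M (1 - 1 / (k + 2 : ℝ))) x := fun k => by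
    by_contra hn
    have nl : NoLe K (g.fin M) M (fun n => (g n).pl {0} 1) (fun _ => 0)
        (lev M (1 - 1 / (k + 2 : ℝ))) := fun X τ hX _ ⟨Λ, lam, d, L, l1, l2, l3⟩ => by
      by_contra q
      obtain ⟨ε, hε, e⟩ := not_Le q
      refine hn ⟨fun n => ⟨X n, Λ n, lam n, d n, τ n⟩, ⟨hX, l1.h, l1.l⟩, ⟨L, l2, l3⟩,
        e.mono fun n a => ?_⟩
      have : (0 : ℝ) ≤ ε * M n := by positivity
      exact Nat.cast_le.1 (show ((lev M (1 - 1 / (k + 2 : ℝ)) n : ℕ) : ℝ) ≤ τ n by linarith)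
    refine ((hU K g M _ _ η X₀ hc (hb k) nl h₀).trans (hr X₀ h₀ _ (hb k))).false hM
      (c := ε₀ * (1 / (k + 2 : ℝ)) * lg) (by have := lg_pos; positivity)
      (Eventually.of_forall fun n => ?_)
    have h1 := lev_le' M (c_nonneg k) n
    have h2 := mul_le_mul_of_nonneg_left h1 (mul_pos he lg_pos).le
    nlinarith
  choose y hy using ex
  obtain ⟨k, -, hk⟩ := cf_diag (fun i : ℕ => cf_ok hc.cf g M (lev M (1 - 1 / (i + 2 : ℝ)))) y
    fun k i hi => ⟨(hy k).1, (hy k).2.1,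
      (hy k).2.2.mono fun n a => (lev_mono M (c_le hi) n).trans a⟩
  obtain ⟨⟨a1, a2, a3⟩, ⟨L, a4, a5⟩, -⟩ := hk 0
  refine ⟨fun n => (y (k n) n).E, fun n => (y (k n) n).τ, a1, fun ε hε => ?_,
    fun n => (y (k n) n).Λ, fun n => (y (k n) n).lam, fun n => (y (k n) n).d, L, ⟨a2, a3⟩, a4, a5⟩
  obtain ⟨i, hi⟩ := exists_nat_one_div_lt (half_pos hε)
  have h1 : 1 / (i + 2 : ℝ) ≤ ε / 2 :=
    (one_div_le_one_div_of_le (by positivity) (by linarith)).trans hi.le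
  filter_upwards [(hk i).2.2, hM.sm 1 _ (half_pos hε)] with n a b
  have h2 := lt_lev M (1 - 1 / (i + 2 : ℝ)) n
  have h3 : ((lev M (1 - 1 / (i + 2 : ℝ)) n : ℕ) : ℝ) ≤ (y (k n) n).τ := by exact_mod_cast a
  have h4 := mul_le_mul_of_nonneg_right h1 (Nat.cast_nonneg (α := ℝ) (M n))
  nlinarith

end Pool.Agent.MP_5168f5_an.R4.B1
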