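import Pool.Agent.MP_5168f5_an.R4.SpecB

/-! The vertical system is a broad class. -/

namespace Pool.Agent.MP_5168f5_an.R4.B1

open H19 H17S H17F Filter K31 Tan

namespace BVClsA

theorem one {Ω β : ℕ → Type} {P : ∀ n, FP (Ω n)} {M α R : ℕ → ℕ} {A e z : ∀ n, Ω n → ℝ}
    {G : ∀ n, Ω n → β n} (hM : Big M)
    (hp : ND P M (fun n ω => fl1 (α n + R n) (A n ω + z n ω * e n ω)) G)
    (he : ND P M (fun n ω => fl1 (α n) (e n ω)) G)
    (hz : ∀ᶠ n in UF, Fn (P n) (z n) (G n) ∧ ∀ ω ∈ (P n).S, |z n ω| ≤ 1) :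
    ND P M (fun n ω => fl1 (α n) (A n ω)) G ∧ ND P M (fun n ω =>
      fl1 (R n) (Int.fract (2 ^ α n * A n ω) + z n ω * Int.fract (2 ^ α n * e n ω))) G := by
  have h0 := (hp.pair he).pair (ND.of_fn (hz.mono fun _ u => u.1))
  have h1 : ND P M (fun n ω => fl1 (α n) (A n ω)) G := by
    refine ND.trans (ND.mono (nd_pt (r := α) (a := fun n ω => A n ω + z n ω * e n ω) (e := e)
      (z := fun n ω => -z n ω) hM (hz.mono fun n u => ⟨fun x _ y _ q => ?_, fun ω hω => ?_⟩))
      (Eventually.of_forall fun n x _ y _ q => ?_)) h0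
    · simp only [Prod.mk.injEq] at q ⊢
      exact ⟨fl1_eq_of_le (Nat.le_add_right _ _) q.1.1, q.1.2, by rw [q.2]⟩
    · rw [abs_neg]; exact u.2 ω hω
    · simpa using q
  refine ⟨h1, ND.trans (ND.sure (c := fun n ω => 2 ^ α n * U.rd (α n + R n) (A n ω + z n ω * e n ω) -
    fl1 (α n) (A n ω) - z n ω * fl1 (α n) (e n ω)) hM (hM.sub le_rfl)
    (Eventually.of_forall fun n => ⟨fun x _ y _ q => ?_, fun ω _ => ?_⟩)) (h0.pair h1)⟩
  · simp only [Prod.mk.injEq] at q
    simp only [U.rd, q.1.1.2, q.1.2, q.2]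
    rw [← q.1.2, q.1.1.1, q.1.2]
  · have h2 := mul_le_mul_of_nonneg_left (U.abs_sub_rd (α n + R n) (A n ω + z n ω * e n ω))
      (show (0 : ℝ) ≤ 2 ^ α n by positivity)
    rw [← abs_of_pos (show (0 : ℝ) < 2 ^ α n by positivity), ← abs_mul,
      abs_of_pos (show (0 : ℝ) < 2 ^ α n by positivity)] at h2
    refine (le_of_eq (congrArg _ ?_)).trans (h2.trans (le_of_eq ?_))
    · simp only [Int.fract, fl1]; ring
    · rw [pow_add]; field_simp

theorem fr1 (x : ℝ) : |Int.fract x| ≤ 1 := by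
  rw [abs_of_nonneg (Int.fract_nonneg x)]; exact (Int.fract_lt_one x).le

end BVClsA

open BVClsA

theorem rowVCls : RVCls := by
  intro bsd Ω K g M D i i' wt ρ ε₀ a α R r h p
  obtain ⟨C, hC, c1, c2, c3⟩ := om_big p.om.2
  obtain ⟨κ, hκ, fr⟩ := p.fr
  have le : ∀ᶠ n in UF, α n + R n ≤ r n := p.lo.mono fun n u => by
    exact_mod_cast (le_mul_of_one_le_left (Nat.cast_nonneg _) h.one).trans u.2
  refine ⟨⟨h.cl.toCl0, h.pos, fun X hX => ?_, fun X hX l hl => ?_⟩, h.cl.cf, h.ne⟩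
  · have bs := h.bs C hC X hX
    obtain ⟨L, -, bx⟩ := bs.bx
    refine bsd X.P (X.G g) _ _ R (fun _ => 1) (κ / C) bs (by positivity) (bs.big.sub le_rfl) ?_
    filter_upwards [bx, fr, le, c1] with n b1 b2 b3 b4
    refine ⟨le_trans (le_of_eq ?_) b2, by omega, ⟨fun v hv => ⟨fun j => ?_, (b1.bd v hv).2⟩,
      fun _ _ _ _ q => congrArg (·.2.1) q, fun _ _ _ _ q => congrArg (·.2.2) q⟩, fun _ _ => rfl,
      fun x _ y _ q => ?_, fun _ _ _ _ q => congrArg (·.1) q⟩
    · push_cast; field_simp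
    · fin_cases j <;> exact ⟨fr1 _, fr1 _⟩
    · simp only [Geo.ln, Prod.mk.injEq] at q
      simp only [Geo.ln, vs, vk, bl, q.1, q.2.1, q.2.2]
  · obtain ⟨L, -, bx⟩ := (h.bs C hC X hX).bx
    have oα : OM M α := p.om.2.mono (le.mono fun n u => by omega)
    have ol : OM M l := p.om.2.mono (le.mono fun n u => by have := hl n; omega)
    have br := h.brd X hX a α l r p.om.1 ol p.om.2 (p.lo.mono fun _ u => u.1) oα
    obtain ⟨B, hB⟩ : ∃ B : ∀ n, (X n).W → ℤ × (ℤ × ℤ) × (D n).Λ × ℝ, B = fun n v =>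
      (fl1 (α n) ((X.G g n).e v i), bl (X.G g n) (r n) v, (mD X D n).S (a n) v, (X.G g n).z v) :=
      ⟨_, rfl⟩
    have hz : ∀ᶠ n in UF, Fn (X n).Q (X.G g n).z (B n) ∧ ∀ v ∈ (X n).Q.S, |(X.G g n).z v| ≤ 1 :=
      bx.mono fun n b => ⟨fun _ _ _ _ q => by rw [hB] at q; exact congrArg (·.2.2.2) q,
        fun v hv => by rw [abs_of_nonneg (b.bd v hv).2.1]; exact (b.bd v hv).2.2.le⟩
    have hS : ∀ n, Fn (X n).Q ((mD X D n).S (a n)) (B n) := fun n _ _ _ _ q => by
      rw [hB] at q; exact congrArg (·.2.2.1) q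
    have hb : ∀ n, Fn (X n).Q (bl (X.G g n) (r n)) (B n) := fun n _ _ _ _ q => by
      rw [hB] at q; exact congrArg (·.2.1) q
    have hθ : ∀ᶠ n in UF, Fn (X n).Q (X.G g n).θ (B n) :=
      (h.fθ X hX).mono fun n u => (u (a n)).trans (hS n)
    have x0 : ND X.P M (fun n v => fl1 (r n) ((X.G g n).pt v 0)) B :=
      nd_pt (a := fun n v => (X.G g n).a v 0) (e := fun n v => (X.G g n).e v 0) h.big
        (hz.mono fun n u => ⟨fun x hx y hy q => by
          have k := hb n x hx y hy q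
          simp only [bl, Prod.mk.injEq] at k ⊢
          exact ⟨k.1, k.2, u.1 x hx y hy q⟩, u.2⟩)
    have dp := (h.dpt X hX a (fun n => α n + R n) r p.om.1 p.om.2 le p.fl).trans
      ((ND.of_fn (Eventually.of_forall hS)).pair (x0.pair
        (ND.of_fn ((hz.and hθ).mono fun n u => u.1.1.pair u.2))))
    have ds := (h.dsl X hX a α r p.om.1 p.om.2 (le.mono fun n u => by omega) p.up).anti
      (Eventually.of_forall fun n => (hS n).pair (hb n))
    obtain ⟨u1, u2⟩ := one (α := α) (R := R) (A := fun n v => (X.G g n).a v i)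
      (e := fun n v => (X.G g n).e v i) h.big
      (dp.mono (Eventually.of_forall fun n _ _ _ _ q => congrArg Prod.fst q))
      (ds.mono (Eventually.of_forall fun n _ _ _ _ q => congrArg Prod.fst q)) hz
    obtain ⟨u3, u4⟩ := one (α := α) (R := R) (A := fun n v => (X.G g n).a v i')
      (e := fun n v => (X.G g n).e v i') h.big
      (dp.mono (Eventually.of_forall fun n _ _ _ _ q => congrArg Prod.snd q))
      (ds.mono (Eventually.of_forall fun n _ _ _ _ q => congrArg Prod.snd q)) hz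
    have y : ND X.P M (fun n => (vs (X.G g n) i i' (α n) (r n)).fp fun _ => R n) B :=
      ((((u1.pair u2).pair (u3.pair u4)).pair ds).pair (ND.of_fn ((hz.and hθ).mono fun n u =>
        (u.1.1.pair u.2).pair (hb n)))).mono (Eventually.of_forall fun n x _ y _ q => by
          simp only [Prod.mk.injEq] at q
          obtain ⟨⟨⟨⟨q1, q2⟩, q3, q4⟩, q5, q6⟩, ⟨q7, q8⟩, q9⟩ := q
          refine Prod.ext (funext fun j => ?_) (Prod.ext q7 (Prod.ext q8 (Prod.ext q9
            (Prod.ext (Prod.ext q1 q5) (Prod.ext q3 q6)))))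
          fin_cases j
          exacts [q2, q4])
    refine le_unit (inv_unit hκ fr) (br.trans ?_)
    rw [hB] at y
    exact ND.le (F' := fun n v => fl1 (l n) (Int.fract (2 ^ α n * (X.G g n).e v i)))
      (ND.of_fn (Eventually.of_forall fun n x _ y _ q => by
        simp only [Prod.mk.injEq, U.fl1_fract] at q
        have q1 := q.1
        rw [q.2.1] at q1
        exact sub_left_injective q1)) y

end Pool.Agent.MP_5168f5_an.R4.B1
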