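import Pool.Agent.MP_5168f5_an.R4.SpecB

/-! The vertical facts in mode I. -/

namespace Pool.Agent.MP_5168f5_an.R4.B1

open H19 H17S H17F Filter K31 Tan

namespace BVH1A

variable {Ω β Λ : ℕ → Type} {P : ∀ n, FP (Ω n)} {g : Gs 3 Ω} {M mm a p r : ℕ → ℕ}
  {D : ∀ n, Td (Ω n)} {η d ε₀ : ℝ} {T : Finset (Fin 3)} {G : ∀ n, Ω n → β n} {L : ℕ → ℝ}
  {i i' k : Fin 3} {lam : ∀ n, Ω n → Λ n}

theorem cel (c : Com P g M mm D η d T) (f : Fl1 P g M mm D d ε₀) (hk : k = 1 ∨ k = 2) :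
    ∃ A : ∀ n, ℕ → Ω n → ℝ × ℝ × V 3, Cell P g M {0} k A d ∧
      ∀ᶠ n in UF, ∀ j, Fn (P n) (A n j) ((D n).S j) := by
  rcases hk with rfl | rfl
  · exact ⟨_, c.cellU, c.nest.mono fun n e j u hu v hv w =>
      congrArg (·.2.2.2.1) ((e.2 j).2 u hu v hv w)⟩
  · exact ⟨_, f.cellP, c.nest.mono fun n e j u hu v hv w =>
      congrArg (·.2.2.2.2) ((e.2 j).2 u hu v hv w)⟩

theorem npt (c : Com P g M mm D η d T) (f : Fl1 P g M mm D d ε₀) (hk : k = 1 ∨ k = 2)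
    (hM : Big M) (hd : 1 ≤ d) (hL : Sub M L) (bx : ∀ᶠ n in UF, (g n).Bx (P n) (L n))
    (ha : OM M a) (hr : OM M r) (e : ∀ᶠ n in UF, p n ≤ r n)
    (hp : Le M (fun n => p n) fun n => d * a n) :
    ND P M (fun n ω => fl1 (p n) ((g n).pt ω k)) fun n ω =>
      ((D n).S (a n) ω, xz (g n) (r n) ω) := by
  obtain ⟨A, h1, h2⟩ := cel c f hk
  refine cell0_pt h1 hM (zero_le_one.trans hd) ha hr hp hL ?_
  filter_upwards [e, bx, h2] with n a1 a2 a3
  exact ⟨a1, a2, fun u hu v hv w => Prod.ext (a3 _ u hu v hv (congrArg (·.1) w))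
    (Prod.ext (congrArg (·.2.1) w) (congrArg (·.2.2.1) w))⟩

theorem nsl (c : Com P g M mm D η d T) (f : Fl1 P g M mm D d ε₀) (hk : k = 1 ∨ k = 2)
    (hM : Big M) (hd : 1 ≤ d) (hL : Sub M L) (bx : ∀ᶠ n in UF, (g n).Bx (P n) (L n))
    (ha : OM M a) (hr : OM M r) (e : ∀ᶠ n in UF, p n ≤ r n)
    (hp : Le M (fun n => p n) fun n => (d - 1) * a n) :
    ND P M (fun n ω => fl1 (p n) ((g n).e ω k)) fun n ω =>
      ((D n).S (a n) ω, bl (g n) (r n) ω) := by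
  obtain ⟨A, h1, h2⟩ := cel c f hk
  refine cell0_sl h1 hM (zero_le_one.trans hd) ha hr hp hL ?_
  filter_upwards [e, bx, h2] with n a1 a2 a3
  exact ⟨a1, a2, fun u hu v hv w => Prod.ext (a3 _ u hu v hv (congrArg (·.1) w))
    (congrArg (·.2.2) w)⟩

theorem shear (f : Fl1 P g M mm D d ε₀) (h : i = 1 ∧ i' = 2 ∨ i = 2 ∧ i' = 1)
    {G : ∀ n, Ω n → ℝ} (ha : OM M a) (hl : Lab P g mm a lam) (hL : Sub M L)
    (e : ∀ᶠ n in UF, Fn (P n) (G n) (lam n) ∧ ∀ v ∈ (P n).S, |G n v| ≤ L n) :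
    Fill P g M lam (fun n v => (g n).pt v i' - G n v * (g n).pt v i) d a := by
  rcases h with ⟨rfl, rfl⟩ | ⟨rfl, rfl⟩
  · have := f.fbH _ lam (fun n v => -G n v) (fun _ _ => 1) a L ha hl hL (e.mono fun n u =>
      ⟨fun x hx y hy w => by simp only [u.1 x hx y hy w], fun v hv => by
        simpa using ⟨u.2 v hv, hL.1 n, Or.inr (hL.1 n)⟩⟩)
    convert this using 3
    ring
  · have := f.fbH _ lam (fun _ _ => 1) (fun n v => -G n v) a L ha hl hL (e.mono fun n u =>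
      ⟨fun x hx y hy w => by simp only [u.1 x hx y hy w], fun v hv => by
        simpa using ⟨hL.1 n, u.2 v hv, Or.inl (hL.1 n)⟩⟩)
    convert this using 3
    ring

theorem two (f : Fl1 P g M mm D d ε₀) (h : i = 1 ∧ i' = 2 ∨ i = 2 ∧ i' = 1) {q q' : ℕ → ℕ}
    (hr : OM M r) (e : ∀ᶠ n in UF, q n ≤ q' n ∧ q' n ≤ r n) :
    Le M (fun n => ch (P n) (fun ω => (fl1 (q' n) ((g n).pt ω i), fl1 (q' n) ((g n).pt ω i')))
      fun ω => (fl1 (q n) ((g n).pt ω i), fl1 (q n) ((g n).pt ω i'), xz (g n) (r n) ω))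
      fun n => (2 - ε₀) * (q' n - q n) * lg := by
  rcases h with ⟨rfl, rfl⟩ | ⟨rfl, rfl⟩
  · exact f.ng q q' r hr e
  · exact (Le.of_le fun n => ch_le
      (fun _ _ _ _ w => Prod.ext (congrArg (·.1.2) w) (congrArg (·.1.1) w))
      fun _ _ _ _ w => Prod.ext (congrArg (·.2.1) w) (Prod.ext (congrArg (·.1) w)
        (congrArg (·.2.2) w))).trans (f.ng q q' r hr e)

theorem ng (c : Com P g M mm D η d T) (f : Fl1 P g M mm D d ε₀)
    (h : i = 1 ∧ i' = 2 ∨ i = 2 ∧ i' = 1) (hM : Big M) (hd : 1 ≤ d) (hL : Sub M L)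
    (bx : ∀ᶠ n in UF, (g n).Bx (P n) (L n)) {q q' : ℕ → ℕ} (hr : OM M r)
    (e : ∀ᶠ n in UF, q n ≤ q' n ∧ d * q' n ≤ r n) :
    Le M (fun n => ch (P n) (fun v => fl1 (q' n) ((g n).pt v i')) fun v =>
      (fl1 (q n) ((g n).pt v i'), fl1 (q' n) ((g n).pt v i), xz (g n) (r n) v))
      fun n => (1 - ε₀) * (q' n - q n) * lg := by
  have d0 : 0 < d := one_pos.trans_le hd
  have b1 : ∀ n, d * (⌊q n / d⌋₊ : ℕ) ≤ q n := fun n =>
    (le_div_iff₀' d0).1 (Nat.floor_le (by positivity))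
  have up : ∀ {x y : ℕ}, d * x ≤ y → x ≤ y := fun k =>
    Nat.cast_le.1 ((le_mul_of_one_le_left (Nat.cast_nonneg _) hd).trans k)
  have hb : OM M fun n => ⌊q n / d⌋₊ :=
    hr.mono (e.mono fun n a => (up (b1 n)).trans (a.1.trans (up a.2)))
  have hp : Le M (fun n => q n) fun n => d * (⌊q n / d⌋₊ : ℕ) :=
    (hM.sm d).of_sub (.of_forall fun n => by
      have := (div_lt_iff₀' d0).1 (Nat.lt_floor_add_one (q n / d))
      linarith)
  have N := npt c f (h.symm.imp And.right And.right) hM hd hL bx hb hr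
    (e.mono fun n a => a.1.trans (up a.2)) hp
  have h0 := shear (G := fun _ _ => 0) f (h.symm.imp And.symm And.symm) hb (c.lab _ hb) hL
    (.of_forall fun n => ⟨fun _ _ _ _ _ => rfl, fun _ _ => by simpa using (hL.pos n).le⟩)
  simp only [zero_mul, sub_zero] at h0
  have h1 := h0 q q' r (hr.mono (e.mono fun n a => up a.2)) hr (e.mono fun n a => ⟨b1 n, a.1⟩)
  have h2 := ND.le (F := fun n v => fl1 (q' n) ((g n).pt v i))
    (F' := fun n v => fl1 (q' n) ((g n).pt v i))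
    (G := fun n ω => (fl1 (q n) ((g n).pt ω i), fl1 (r n) ((g n).pt ω 0),
      (D n).S ⌊q n / d⌋₊ ω, (g n).zt ω)) (ND.of_fn (.of_forall fun n => Fn.fst _ _))
    ((ND.of_fn (F := fun n v => fl1 (q n) ((g n).pt v i)) (.of_forall fun n => Fn.fst _ _)).pair
      ((N.anti (.of_forall fun n u _ v _ w => Prod.ext (congrArg (·.2.2.1) w)
        (Prod.ext (congrArg (·.2.1) w) (congrArg (·.2.2.2) w)))).pair
        (ND.of_fn (F := fun n => xz (g n) (r n)) (.of_forall fun n u _ v _ w =>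
          Prod.ext (congrArg (·.2.1) w) (congrArg (·.2.2.2) w)))))
  refine Le.of3 h1 h2 (two f h hr (e.mono fun n a => ⟨a.1, up a.2⟩)) (e.mono fun n a => ?_)
  have s : ch (P n) (fun v => fl1 (q' n) ((g n).pt v i')) (fun v =>
      (fl1 (q n) ((g n).pt v i'), fl1 (q' n) ((g n).pt v i), xz (g n) (r n) v)) ≤
      ch (P n) (fun v => fl1 (q' n) ((g n).pt v i')) fun v => (fl1 (q' n) ((g n).pt v i),
        fl1 (q n) ((g n).pt v i), fl1 (q n) ((g n).pt v i'), xz (g n) (r n) v) :=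
    ch_anti fun _ _ _ _ w => Prod.ext (congrArg (·.2.1) w) (Prod.ext
      (fl1_eq_of_le a.1 (congrArg (·.2.1) w)) (Prod.ext (congrArg (·.1) w) (congrArg (·.2.2) w)))
  rw [ch_chain]
  linarith

end BVH1A

open BVH1A in
theorem rowVH1 : VH1 := by
  intro Ω K g M mm D η d ε₀ i i' h hi ⟨ρ, hρ, hb⟩
  have hM := h.toTn.big
  have k1 : i = 1 ∨ i = 2 := hi.imp And.left And.left
  have k2 : i' = 1 ∨ i' = 2 := hi.symm.imp And.right And.right
  refine ⟨⟨ρ, h.cl, h.ne, hM, h.one, hρ, h.e0, fun C hC => (h.cls C hC).bs, fun X hX =>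
    (h.com X hX).nest.mono fun n e j u hu v hv w => congrArg (·.1) ((e.2 j).2 u hu v hv w), hb,
    fun X hX a p r ha hr e hp => ?_, fun X hX a p r ha hr e hp => ?_, fun X hX q q' r hr e => ?_⟩,
    fun X hX Λ lam G a L ha hl hL e => shear (h.fl X hX) hi ha hl hL e⟩ <;>
  obtain ⟨L, hL, bx⟩ := h.toTn.bx hX
  · exact (npt (h.com X hX) (h.fl X hX) k1 hM h.one hL bx ha hr e hp).pair
      (npt (h.com X hX) (h.fl X hX) k2 hM h.one hL bx ha hr e hp)
  · exact (nsl (h.com X hX) (h.fl X hX) k1 hM h.one hL bx ha hr e hp).pair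
      (nsl (h.com X hX) (h.fl X hX) k2 hM h.one hL bx ha hr e hp)
  · exact ng (h.com X hX) (h.fl X hX) hi hM h.one hL bx hr e

end Pool.Agent.MP_5168f5_an.R4.B1
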