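import Pool.Agent.MP_5168f5_an.R4.SpecB

/-! Broad slopes: the vertical facts when the second coordinate is the lighter axis. -/

namespace Pool.Agent.MP_5168f5_an.R4.B1

open H19 H17S H17F Filter K31 Tan

namespace BVH2A

theorem near2 {y c c' x x' L : ℝ} {p r : ℕ} (h : |y - (c * x + c' * x')| ≤ L / 2 ^ p)
    (hc : |c| ≤ L) (hc' : |c'| ≤ L) (e : p ≤ r) :
    |y - (c * U.rd r x + c' * U.rd p x')| ≤ 4 * L / 2 ^ p := by
  have h1 := near_rd (y := y - c' * x') (x := x) ((le_of_eq (congrArg _ (by ring))).trans h) hc e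
  have h2 := near_rd (y := y - c * U.rd r x) (c := c') (x := x') (L := 2 * L)
    ((le_of_eq (congrArg _ (by ring))).trans h1) (by linarith [abs_nonneg c]) (le_refl p)
  exact (le_of_eq (congrArg _ (by ring))).trans (h2.trans_eq (by ring))

variable {Ω β : ℕ → Type} {P : ∀ n, FP (Ω n)} {g : Gs 3 Ω} {M a p r : ℕ → ℕ} {k : Fin 3}
  {d : ∀ n, ℕ → Ω n → ℝ × ℝ × V 3} {wt : ℝ} {G : ∀ n, Ω n → β n} {L : ℕ → ℝ}

/-- A cell over the first two coordinates determines the point. -/
theorem cell_pt (h : Cell P g M {0, 1} k d wt) (hM : Big M) (hw : 0 ≤ wt) (ha : OM M a)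
    (hr : OM M r) (hp : Le M (fun n => p n) fun n => wt * a n) (hL : Sub M L)
    (e : ∀ᶠ n in UF, p n ≤ r n ∧ (g n).Bx (P n) (L n) ∧ Fn (P n) (fun ω =>
      (d n (a n) ω, fl1 (r n) ((g n).pt ω 0), fl1 (p n) ((g n).pt ω 1), (g n).z ω)) (G n)) :
    ND P M (fun n ω => fl1 (p n) ((g n).pt ω k)) G := by
  obtain ⟨L', hL', w⟩ := cell_near h hM hw ha hp
  refine ND.near (c := fun n ω => (d n (a n) ω).1 + (d n (a n) ω).2.1 * (g n).z ω +
    ((d n (a n) ω).2.2 0 * U.rd (r n) ((g n).pt ω 0) +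
      (d n (a n) ω).2.2 1 * U.rd (p n) ((g n).pt ω 1))) hM
    ((hL.add hL' hM).const_mul hM (by norm_num : (1 : ℝ) ≤ 4)) (hr.mono (e.mono fun _ u => u.1))
    (e.mono fun n u => ⟨fun x hx y hy q => ?_, fun ω hω =>
      (abs_pt u.2.1 hω k).trans (by linarith [hL'.pos n, hL.pos n])⟩)
    (w.mono (e.mono fun n u ω _ ⟨_, v2, v3, _⟩ => ?_))
  · have := u.2.2 x hx y hy q
    simp only [Prod.mk.injEq] at this
    simp only [U.rd, this.1, this.2.1, this.2.2.1, this.2.2.2]
  · rw [sum01 fun i => (v2 i).2] at v3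
    refine le_trans (le_of_eq (congrArg _ (by ring))) ((near2 v3 (v2 0).1 (v2 1).1 u.1).trans
      (div_le_div_of_nonneg_right (by linarith [hL.pos n]) (by positivity)))

/-- A cell over the first two coordinates determines the slope. -/
theorem cell_sl (h : Cell P g M {0, 1} k d wt) (hM : Big M) (hw : 0 ≤ wt) (ha : OM M a)
    (hr : OM M r) (hp : Le M (fun n => p n) fun n => (wt - 1) * a n) (hL : Sub M L)
    (e : ∀ᶠ n in UF, p n ≤ r n ∧ (g n).Bx (P n) (L n) ∧ Fn (P n) (fun ω =>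
      (d n (a n) ω, fl1 (r n) ((g n).e ω 0), fl1 (p n) ((g n).e ω 1))) (G n)) :
    ND P M (fun n ω => fl1 (p n) ((g n).e ω k)) G := by
  obtain ⟨L', hL', w⟩ := cell_near (p := fun n => p n + a n) h hM hw ha
    (hp.of_sub (Eventually.of_forall fun n => by push_cast; linarith))
  refine ND.near (c := fun n ω => (d n (a n) ω).2.1 +
    ((d n (a n) ω).2.2 0 * U.rd (r n) ((g n).e ω 0) +
      (d n (a n) ω).2.2 1 * U.rd (p n) ((g n).e ω 1))) hM
    ((hL.add hL' hM).const_mul hM (by norm_num : (1 : ℝ) ≤ 4)) (hr.mono (e.mono fun _ u => u.1))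
    (e.mono fun n u => ⟨fun x hx y hy q => ?_, fun ω hω =>
      ((u.2.1.bd ω hω).1 k).2.trans (by linarith [hL'.pos n, hL.pos n])⟩)
    (w.mono (e.mono fun n u ω _ ⟨_, v2, _, v4⟩ => ?_))
  · have := u.2.2 x hx y hy q
    simp only [Prod.mk.injEq] at this
    simp only [U.rd, this.1, this.2.1, this.2.2]
  · rw [sum01 fun i => (v2 i).2, pow_add, mul_div_mul_right _ _ (by positivity)] at v4
    refine le_trans (le_of_eq (congrArg _ (by ring))) ((near2 v4 (v2 0).1 (v2 1).1 u.1).trans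
      (div_le_div_of_nonneg_right (by linarith [hL.pos n]) (by positivity)))

end BVH2A

open BVH2A in
theorem rowVH2 : RVH2 := by
  intro ngm Ω K g M mm D η γ d ε₀ t hγ ⟨ρ, hρ, brd⟩
  have tn := t.toTn
  have hM := tn.big
  have g0 : 0 ≤ γ := by linarith [tn.one]
  have up : ∀ (c : ℝ) {a p : ℕ → ℕ}, Le M (fun n => p n) (fun n => (γ - c) * a n) →
      Le M (fun n => p n) fun n => (d - c) * a n := fun c a p h => h.trans (Le.of_le fun n =>
    mul_le_mul_of_nonneg_right (by linarith) (Nat.cast_nonneg _))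
  refine ⟨ρ, tn.cl, tn.ne, hM, tn.one, hρ, t.e0, fun C hC => (tn.cls C hC).bs, fun X hX => ?_, brd,
    fun X hX a p r ha hr hp hl => ?_, fun X hX a p r ha hr hp hl => ?_,
    fun X hX q q' r hr e => ?_⟩
  · exact (tn.com X hX).nest.mono fun n u j x hx y hy e => congrArg Prod.fst ((u.2 j).2 x hx y hy e)
  · obtain ⟨L, hL, bx⟩ := tn.bx hX
    have h1 : ND X.P M (fun n v => fl1 (p n) ((X.G g n).pt v 1))
        fun n v => ((mD X D n).S (a n) v, xz (X.G g n) (r n) v) := by
      refine cell0_pt (tn.com X hX).cellU hM g0 ha hr hl hL ?_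
      filter_upwards [hp, bx, (tn.com X hX).nest] with n u v w
      refine ⟨u, v, fun x hx y hy e => ?_⟩
      have := (w.2 (a n)).2 x hx y hy (congrArg Prod.fst e)
      simp only [xz, Geo.zt, Prod.mk.injEq] at this e ⊢
      tauto
    refine h1.pair (h1.cut (cell_pt ((t.fl X hX).cellH hγ) hM (by linarith) ha hr
      (by simpa using up 0 (by simpa using hl)) hL ?_))
    filter_upwards [hp, bx, (tn.com X hX).nest] with n u v w
    refine ⟨u, v, fun x hx y hy e => ?_⟩
    have := (w.2 (a n)).2 x hx y hy (congrArg (fun s => s.2.1) e)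
    simp only [xz, Geo.zt, Prod.mk.injEq] at this e ⊢
    tauto
  · obtain ⟨L, hL, bx⟩ := tn.bx hX
    have h1 : ND X.P M (fun n v => fl1 (p n) ((X.G g n).e v 1))
        fun n v => ((mD X D n).S (a n) v, bl (X.G g n) (r n) v) := by
      refine cell0_sl (tn.com X hX).cellU hM g0 ha hr hl hL ?_
      filter_upwards [hp, bx, (tn.com X hX).nest] with n u v w
      refine ⟨u, v, fun x hx y hy e => ?_⟩
      have := (w.2 (a n)).2 x hx y hy (congrArg Prod.fst e)
      simp only [bl, Prod.mk.injEq] at this e ⊢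
      tauto
    refine h1.pair (h1.cut (cell_sl ((t.fl X hX).cellH hγ) hM (by linarith) ha hr (up 1 hl) hL ?_))
    filter_upwards [hp, bx, (tn.com X hX).nest] with n u v w
    refine ⟨u, v, fun x hx y hy e => ?_⟩
    have := (w.2 (a n)).2 x hx y hy (congrArg (fun s => s.2.1) e)
    simp only [bl, Prod.mk.injEq] at this e ⊢
    tauto
  · refine ngm K g M mm D η γ d ε₀ X q q' q' r t hX hr (e.mono fun n u => ⟨u.1, ?_, u.2⟩)
      (Le.of_le fun n => mul_le_mul_of_nonneg_right hγ (Nat.cast_nonneg _))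
      (Or.inr (Eventually.of_forall fun _ => le_rfl))
    exact_mod_cast (le_mul_of_one_le_left (Nat.cast_nonneg (q' n)) tn.one).trans u.2

end Pool.Agent.MP_5168f5_an.R4.B1
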