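import Pool.Agent.MP_5168f5_an.R4.SpecB

/-! Kakeya sets in four dimensions, broad slopes: the filled segments of the vertical system. -/

namespace Pool.Agent.MP_5168f5_an.R4.B1

open H19 H17S H17F Filter K31 Tan

theorem rowVLab : RVLab := by
  intro ufl vsh vtr vcls vng Ω K g M D i i' wt ρ ε₀ a α R r h p
  have c := vcls K g M D i i' wt ρ ε₀ a α R r h p
  obtain ⟨X, τ, hX, h1, h2⟩ := ufl K (fun n => vs (g n) i i' (α n) (r n)) R ρ ε₀ c h.e0.1
    (vng K g M D i i' wt ρ ε₀ a α R r h p)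
  obtain ⟨Λ, lam, G, s1, s2⟩ := vsh K _ R τ ρ X c.toCls0 hX h1 h2
  have oR : OM M R := p.om.2.mono (p.lo.mono fun n u => by
    have e : ((α n + R n : ℕ) : ℝ) ≤ r n :=
      (le_mul_of_one_le_left (Nat.cast_nonneg _) h.one).trans u.2
    have : α n + R n ≤ r n := by exact_mod_cast e
    omega)
  obtain ⟨L, -, bx⟩ := (h.bs 1 one_pos X hX).bx
  refine ⟨X, _, _, fun n => (X.G (fun n => vs (g n) i i' (α n) (r n)) n).ln,
    fun n v => (lam n v, vk (X.G g n) i i' (α n) (r n) v), G, hX, fun n u _ v _ e => ?_, ?_, ?_⟩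
  · simp only [Geo.ln, Prod.mk.injEq] at e
    simp only [Geo.ln, vs, vk, bl, e.1, e.2.1, e.2.2]
  · exact vtr X.P (X.G g) i i' M α R r lam _ G h.big oR
      (bx.mono fun n u => ⟨fun ω hω => (u.bd ω hω).2, Fn.rfl _, Fn.rfl _⟩) s1
  · refine vtr _ (fun n => (X.G g n).pull Prod.fst) i i' M α R r (fun n v => lam n v.2) _
      (fun n v => G n v.2) h.big oR (bx.mono fun n u => ?_) s2
    have k : ∀ v ∈ (glue (X n).Q (X n).Q (X.G (fun n => vs (g n) i i' (α n) (r n)) n).ln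
        (X.G (fun n => vs (g n) i i' (α n) (r n)) n).ln).S,
        vk (X.G g n) i i' (α n) (r n) v.2 = vk ((X.G g n).pull Prod.fst) i i' (α n) (r n) v :=
      fun v hv => congrArg (·.2.2) ((U.mem_copy _ _ v).1 hv).2.2
    refine ⟨fun v hv => (u.bd _ ((U.mem_copy _ _ v).1 hv).1).2, fun v hv w hw e => ?_,
      fun v hv w hw e => ?_⟩
    · show (_, _) = (_, _)
      rw [k v hv, k w hw]; exact e
    · show (_, _) = (_, _)
      rw [← k v hv, ← k w hw]; exact e

end Pool.Agent.MP_5168f5_an.R4.B1
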