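import Pool.Agent.MP_5168f5_an.R4.SpecB

/-! Kakeya sets in four dimensions, broad slopes: rates of the vertical system. -/

namespace Pool.Agent.MP_5168f5_an.R4.B1

open H19 H17S H17F Filter K31 Tan

namespace BVNgA

section

variable {Ω β : ℕ → Type} {P : ∀ n, FP (Ω n)} {M α k : ℕ → ℕ} {G : ∀ n, Ω n → β n}
  {x y m : ∀ n, Ω n → ℝ}

theorem nd_dn (hM : Big M) (e : ∀ n ω, y n ω = 2 ^ α n * x n ω - m n ω)
    (h : ∀ n, Fn (P n) (fun ω => fl1 (α n + k n) (x n ω)) (G n))
    (h' : ∀ n, Fn (P n) (m n) (G n)) : ND P M (fun n ω => fl1 (k n) (y n ω)) G :=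
  ND.sure (c := fun n ω => 2 ^ α n * U.rd (α n + k n) (x n ω) - m n ω) hM (hM.sub le_rfl)
    (Eventually.of_forall fun n => ⟨fun a ha b hb w => by
      have h1 := h n a ha b hb w
      simp only at h1
      simp only [U.rd, h1, h' n a ha b hb w], fun a _ => by
      rw [e, sub_sub_sub_cancel_right, ← mul_sub, abs_mul, abs_of_pos (by positivity)]
      refine (mul_le_mul_of_nonneg_left (U.abs_sub_rd _ _) (by positivity)).trans_eq ?_
      rw [pow_add]; field_simp⟩)

theorem nd_up (hM : Big M) (e : ∀ n ω, y n ω = 2 ^ α n * x n ω - m n ω)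
    (h : ∀ n, Fn (P n) (fun ω => fl1 (k n) (y n ω)) (G n))
    (h' : ∀ n, Fn (P n) (m n) (G n)) : ND P M (fun n ω => fl1 (α n + k n) (x n ω)) G :=
  ND.sure (c := fun n ω => (U.rd (k n) (y n ω) + m n ω) / 2 ^ α n) hM (hM.sub le_rfl)
    (Eventually.of_forall fun n => ⟨fun a ha b hb w => by
      have h1 := h n a ha b hb w
      simp only at h1
      simp only [U.rd, h1, h' n a ha b hb w], fun a _ => by
      rw [show x n a - (U.rd (k n) (y n a) + m n a) / 2 ^ α n =
        (y n a - U.rd (k n) (y n a)) / 2 ^ α n by rw [e n a]; field_simp; ring, abs_div,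
        abs_of_pos (show (0 : ℝ) < 2 ^ α n by positivity)]
      refine (div_le_div_of_nonneg_right (U.abs_sub_rd _ _) (by positivity)).trans_eq ?_
      rw [pow_add]; field_simp⟩)

end

theorem fr_eq (α : ℕ) (a e z : ℝ) : Int.fract (2 ^ α * a) + z * Int.fract (2 ^ α * e) =
    2 ^ α * (a + z * e) - (fl1 α a + z * fl1 α e) := by
  simp only [Int.fract, fl1]; ring

theorem cmp {W : ℕ → Type} (Q : ∀ n, FP (W n)) (g : Gs 3 W) (i i' : Fin 3) (M α R r b : ℕ → ℕ)
    (hM : Big M) (hz : ∀ᶠ n in UF, ∀ ω ∈ (Q n).S, |(g n).z ω| ≤ 1) :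
    Le M (fun n => ch (Q n) (fun v => fl1 (R n) ((vs (g n) i i' (α n) (r n)).pt v 1)) fun v =>
      (fl1 (b n) ((vs (g n) i i' (α n) (r n)).pt v 1),
        fl1 (R n) ((vs (g n) i i' (α n) (r n)).pt v 0), (vs (g n) i i' (α n) (r n)).zt v))
      fun n => ch (Q n) (fun v => fl1 (α n + R n) ((g n).pt v i')) fun v =>
        (fl1 (α n + b n) ((g n).pt v i'), fl1 (α n + R n) ((g n).pt v i), xz (g n) (r n) v) := by
  have e0 : ∀ n ω, (vs (g n) i i' (α n) (r n)).pt ω 0 = 2 ^ α n * (g n).pt ω i -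
      (fl1 (α n) ((g n).a ω i) + (g n).z ω * fl1 (α n) ((g n).e ω i)) := fun n ω => fr_eq _ _ _ _
  have e1 : ∀ n ω, (vs (g n) i i' (α n) (r n)).pt ω 1 = 2 ^ α n * (g n).pt ω i' -
      (fl1 (α n) ((g n).a ω i') + (g n).z ω * fl1 (α n) ((g n).e ω i')) := fun n ω => fr_eq _ _ _ _
  have f : ∀ n, Fn (Q n) (fun ω => ((g n).z ω, vk (g n) i i' (α n) (r n) ω))
      (vs (g n) i i' (α n) (r n)).zt := fun n => Fn.rfl _
  have f0 : ∀ n, Fn (Q n) (fun ω => fl1 (α n) ((g n).a ω i) + (g n).z ω * fl1 (α n) ((g n).e ω i))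
      (vs (g n) i i' (α n) (r n)).zt := fun n a ha c hc w => by
    have := f n a ha c hc w
    simp only [vk, Prod.mk.injEq] at this
    simp only [this.1, this.2.2.2.1.1, this.2.2.2.1.2]
  have f1 : ∀ n, Fn (Q n) (fun ω => fl1 (α n) ((g n).a ω i') + (g n).z ω * fl1 (α n) ((g n).e ω i'))
      (vs (g n) i i' (α n) (r n)).zt := fun n a ha c hc w => by
    have := f n a ha c hc w
    simp only [vk, Prod.mk.injEq] at this
    simp only [this.1, this.2.2.2.2.1, this.2.2.2.2.2]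
  refine ND.le (nd_dn hM e1 (fun n => Fn.fst _ _) fun n => (((f1 n).right _).right _).right _)
    ((nd_up hM e1 (fun n => Fn.fst _ _) fun n => ((f1 n).right _).right _).pair
      ((nd_up hM e0 (fun n => (Fn.fst _ _).right _) fun n => ((f0 n).right _).right _).pair
        (ND.pair (nd_pt (a := fun n ω => (g n).a ω 0) (e := fun n ω => (g n).e ω 0)
          (z := fun n => (g n).z) hM (hz.mono fun n u => ⟨Fn.right (Fn.right ?_ _) _, u⟩))
          (ND.of_fn (Eventually.of_forall fun n => Fn.right (Fn.right ?_ _) _)))))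
  · intro a ha c hc w
    have := f n a ha c hc w
    simp only [vk, bl, Prod.mk.injEq] at this
    simp only [this.1, this.2.2.1.1, this.2.2.1.2]
  · intro a ha c hc w
    have := f n a ha c hc w
    simp only [vk, Prod.mk.injEq] at this
    exact Prod.ext this.1 this.2.1

end BVNgA

theorem rowVNg : VNg := by
  intro Ω K g M D i i' wt ρ ε₀ a α R r h hp X hX b hb
  obtain ⟨κ, hκ, e⟩ := hp.fr
  obtain ⟨L, -, hL⟩ := (h.bs 1 one_pos X hX).bx
  have h1 := BVNgA.cmp X.P (X.G g) i i' M α R r b h.big (hL.mono fun n u ω hω => by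
    rw [abs_of_nonneg (u.bd ω hω).2.1]; exact (u.bd ω hω).2.2.le)
  have h2 := h.ng X hX (fun n => α n + b n) (fun n => α n + R n) r hp.om.2
    (hp.lo.mono fun n u => ⟨Nat.add_le_add_left (hb n) _, u.2⟩)
  exact le_unit (inv_unit hκ e) ((h1.trans h2).trans (Le.of_le fun n => le_of_eq (by
    push_cast; ring)))

theorem rowVUp : VUp := by
  intro Ω W K g M D i i' wt ρ ε₀ X Q f q q' r h hX hf hr hq W' Q' σ hσ
  refine (h.ng _ (h.cl.toCl0.dn hX (hσ.trans hf)) q q' r hr hq).of_sub (hq.mono fun n u => ?_)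
  have h1 := ch_fl1_refine (P := Q' n) (x := fun v => (X.G g n).pt (f n (σ n v)) i)
    (G := fun v => (fl1 (q n) ((X.G g n).pt (f n (σ n v)) i),
      fl1 (q n) ((X.G g n).pt (f n (σ n v)) i'), xz (X.G g n) (r n) (f n (σ n v))))
    (j := fun _ => q n) (i := fun _ => q' n - q n) (fun _ _ _ _ _ => rfl) (fun _ _ _ _ _ => rfl)
    (Fn.fst _ _)
  rw [FP.E_const, Nat.add_sub_cancel' u.1, Nat.cast_sub u.1] at h1
  have h2 := ch_anti (P := Q' n) (F := fun v => fl1 (q' n) ((X.G g n).pt (f n (σ n v)) i'))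
    (G := fun v => (fl1 (q n) ((X.G g n).pt (f n (σ n v)) i'),
      fl1 (q' n) ((X.G g n).pt (f n (σ n v)) i), xz (X.G g n) (r n) (f n (σ n v))))
    (G' := fun v => (fl1 (q' n) ((X.G g n).pt (f n (σ n v)) i),
      fl1 (q n) ((X.G g n).pt (f n (σ n v)) i), fl1 (q n) ((X.G g n).pt (f n (σ n v)) i'),
      xz (X.G g n) (r n) (f n (σ n v))))
    ((((Fn.fst _ _).right _).right _).pair ((Fn.fst _ _).pair (((Fn.snd _ _).right _).right _)))
  rw [ch_chain]
  refine le_trans ?_ (sub_le_sub_right h2 _)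
  linarith

end Pool.Agent.MP_5168f5_an.R4.B1
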