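import Pool.Agent.MP_5168f5_an.R4.SpecB

/-! The floor label gives a filled segment, also at a copied height. -/

namespace Pool.Agent.MP_5168f5_an.R4.B1

open H19 H17S H17F Filter K31 Tan

namespace BVShA

theorem fit_at {Ω : Type} {g : Geo 2 Ω} {L L' t : ℝ} {d : ℝ × ℝ × V 2} {ω : Ω} {τ m : ℕ}
    (h : (g.pl {0} 1).fit L d ω 0 τ) (e : L ≤ L' ∧ L / 2 ^ τ ≤ L' / 2 ^ m)
    (ht : fl1 0 t = fl1 0 (g.z ω)) :
    |d.2.2 0| ≤ L' ∧ |g.lt t ω 1 - d.2.2 0 * g.lt t ω 0 - (d.1 + d.2.1 * t)| ≤ L' / 2 ^ m := by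
  obtain ⟨-, h2, h3⟩ := h
  have h4 := h3 t ht
  rw [Fin.sum_univ_two, (h2 1).2 (by decide)] at h4
  exact ⟨(h2 0).1.trans e.1, (le_of_eq (congrArg _ (by ring))).trans (h4.trans e.2)⟩

theorem lt_eq {N : ℕ} {Ω : Type} {g : Geo N Ω} {a b : Ω} (h : g.ln a = g.ln b) (t : ℝ) :
    g.lt t a = g.lt t b := by
  simp only [Geo.ln, Prod.mk.injEq] at h
  simp only [Geo.lt, h.1, h.2.1]

theorem fp_ln {N : ℕ} {Ω : Type} (P : FP Ω) (g : Geo N Ω) (r : Fin N → ℕ) :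
    Fn P (g.fp r) fun ω => (g.ln ω, g.z ω) := fun a _ b _ e => by
  obtain ⟨e1, e2⟩ := Prod.mk.inj e
  have e3 : g.θ a = g.θ b := congrArg (fun p => p.2.2) e1
  simp only [Geo.fp, Geo.pt, e2, e3, lt_eq e1]

theorem main {W Λ : ℕ → Type} (P : ∀ n, FP (W n)) (g : Gs 2 W) (M τ : ℕ → ℕ)
    (lam : ∀ n, W n → Λ n) (d : ∀ n, W n → ℝ × ℝ × V 2) (L : ℕ → ℝ) (sf : ShF)
    (bs : Bs P (g.fin M) M) (lab : Lab P (g.fin M) M (fun _ => 0) lam) (hL : Sub M L)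
    (hτ : Le M (fun n => M n) fun n => τ n)
    (h : ∀ᶠ n in UF, Fn (P n) (d n) (lam n) ∧
      ∀ ω ∈ (P n).S, ((g n).pl {0} 1).fit (L n) (d n ω) ω 0 (τ n))
    (ful : Le M (fun n => (M n - (0 : ℕ) : ℝ) * lg) fun n =>
      ch (P n) (fun ω => fl1 (M n) ((g n).pt ω 0)) fun ω =>
        (fl1 0 ((g n).pt ω 0), lam n ω, (g n).zt ω)) :
    Seg P (fun n v => (g n).pt v 0) (fun n v => (g n).pt v 1) (fun n => (g n).zt) lam
      (fun n v => (d n v).2.2 0) M (fun _ => 0) M ∧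
    Seg (fun n => glue (P n) (P n) (g n).ln (g n).ln) (fun n v => (g n).pt v.1 0)
      (fun n v => (g n).pt v.1 1) (fun n v => (g n).zt v.1) (fun n v => lam n v.2)
      (fun n v => (d n v.2).2.2 0) M (fun _ => 0) M := by
  have hM := bs.big
  obtain ⟨L0, sL0, b0⟩ := bs.bx
  obtain ⟨L', sL', k⟩ := sub_gap hτ hL
  have key : ∀ᶠ n in UF, (∀ a ∈ (glue (P n) (P n) (g n).ln (g n).ln).S,
      ∀ b ∈ (glue (P n) (P n) (g n).ln (g n).ln).S, lam n a.2 = lam n b.2 →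
        d n a.2 = d n b.2) ∧ ∀ v ∈ (glue (P n) (P n) (g n).ln (g n).ln).S,
      |(g n).pt v.1 0| ≤ 2 * L0 n ∧ |(d n v.2).2.2 0| ≤ L' n ∧
        |(g n).pt v.1 1 - (d n v.2).2.2 0 * (g n).pt v.1 0 -
          ((d n v.2).1 + (d n v.2).2.1 * (g n).z v.1)| ≤ L' n / 2 ^ M n := by
    filter_upwards [h, b0] with n hn hb
    refine ⟨fun a ha b hb e => hn.1 _ ((U.mem_copy _ _ a).1 ha).2.1 _
      ((U.mem_copy _ _ b).1 hb).2.1 e, fun v hv => ?_⟩
    obtain ⟨m1, m2, e⟩ := (U.mem_copy _ _ v).1 hv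
    have := fit_at (hn.2 _ m2) (k n) (t := (g n).z v.1)
      ((fl1_zero_of_box (hb.bd _ m1).2.1 (hb.bd _ m1).2.2).trans
        (fl1_zero_of_box (hb.bd _ m2).2.1 (hb.bd _ m2).2.2).symm)
    rw [lt_eq e] at this
    exact ⟨abs_pt hb m1 0, this⟩
  refine ⟨⟨⟨fun n v => (d n v).1 + (d n v).2.1 * (g n).z v, L', sL',
    h.mono fun n hn => ⟨fun a ha b hb e => by simp only [hn.1 a ha b hb e], fun a ha b hb e => ?_⟩,
    Whp.of_ev (h.mono fun n hn v hv => fit_at (hn.2 v hv) (k n) rfl)⟩, ful⟩,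
    ⟨⟨fun n v => (d n v.2).1 + (d n v.2).2.1 * (g n).z v.1, L', sL',
    key.mono fun n hn => ⟨fun a ha b hb e => by simp only [hn.1 a ha b hb e],
      fun a ha b hb e => ?_⟩, Whp.of_ev (key.mono fun n hn v hv => (hn.2 v hv).2)⟩, ?_⟩⟩
  · simp only [Geo.zt, Prod.mk.injEq] at e
    simp only [hn.1 a ha b hb e.1, e.2.1]
  · simp only [Geo.zt, Prod.mk.injEq] at e
    simp only [hn.1 a ha b hb e.1, e.2.1]
  have n1 : ND (fun n => glue (P n) (P n) (g n).ln (g n).ln) M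
      (fun n v => fl1 (M n) ((g n).pt v.1 1))
      fun n v => (fl1 (M n) ((g n).pt v.1 0), lam n v.2, (g n).zt v.1) :=
    ND.sure (c := fun n v => (d n v.2).1 + (d n v.2).2.1 * (g n).z v.1 +
      (d n v.2).2.2 0 * U.rd (M n) ((g n).pt v.1 0)) hM (sL'.const_mul hM one_le_two)
      (key.mono fun n hn => ⟨fun a ha b hb e => by
        simp only [Geo.zt, Prod.mk.injEq] at e
        simp only [U.rd, hn.1 a ha b hb e.2.1, e.1, e.2.2.1], fun v hv => by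
        obtain ⟨-, u2, u3⟩ := hn.2 v hv
        rw [sub_right_comm] at u3
        exact (le_of_eq (congrArg _ (by ring))).trans (near_rd u3 u2 le_rfl)⟩)
  have n2 : ND (fun n => glue (P n) (P n) (g n).ln (g n).ln) M
      (fun n v => (g n).fp (fun _ => M n) v.1)
      fun n v => (fl1 (M n) ((g n).pt v.1 0), lam n v.2, (g n).zt v.1) :=
    n1.cut (ND.of_fn (Eventually.of_forall fun n a _ b _ e => by
      simp only [Geo.zt, Prod.mk.injEq] at e
      simp only [Geo.fp, Prod.mk.injEq]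
      refine ⟨funext fun i => ?_, e.2.2.2⟩
      fin_cases i
      · exact e.2.1
      · exact e.1))
  have n3 : ND (fun n => glue (P n) (P n) (g n).ln (g n).ln) M
      (fun n v => fl1 0 ((g n).pt v.1 0)) fun n v => (lam n v.2, (g n).zt v.1) :=
    ND.sure (j := fun _ => 0) (c := fun _ _ => 0) hM (sL0.const_mul hM one_le_two)
      (key.mono fun n hn => ⟨fun _ _ _ _ _ => rfl, fun v hv => by simpa using (hn.2 v hv).1⟩)
  refine Le.of4 ful (n2.le (n3.pair ND.rfl)) lab.l bs.inf (Eventually.of_forall fun n => ?_)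
  have s1 := sf (P n) (g n).ln (g n).z (g n).θ ((g n).fp fun _ => M n) (lam n)
    (fun _ _ _ _ e => congrArg (fun p => p.2.2) e) (fp_ln _ _ _)
    fun _ _ _ _ e => congrArg Prod.snd e
  have s2 : ch (P n) (fun ω => fl1 (M n) ((g n).pt ω 0))
      (fun ω => (fl1 0 ((g n).pt ω 0), lam n ω, (g n).zt ω)) ≤
      ch (P n) ((g n).fp fun _ => M n) fun ω => (lam n ω, (g n).z ω, (g n).θ ω) :=
    ch_le (fun _ _ _ _ e => congrArg (fun p => p.1.1 0) e) fun _ _ _ _ e => congrArg Prod.snd e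
  have s3 : mi (P n) (lam n) (g n).ln ((g n).fp fun _ => M n) ≤ (g.fin M n).lk (P n) (lam n) :=
    mi_mono fun _ _ _ _ e => congrArg (fun p => p.1.1) e
  have s4 : mi (P n) (g n).z (g n).ln (g n).θ =
      mi (P n) (g.fin M n).z (g.fin M n).ln (g.fin M n).θ := rfl
  simp only [Geo.zt] at s2 ⊢
  linarith

end BVShA

theorem rowVSh : RVSh := by
  rintro sf Ω K g M τ η X hc hX hτ ⟨Λ, lam, d, L, lab, hL, h⟩
  have bs := hc.bs X hX
  exact ⟨Λ, lam, _, BVShA.main X.P (X.G g) M τ lam d L sf bs lab hL hτ h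
    (xa K (g.fin M) M (fun _ => 0) (fun _ => 0) M 0 η X lam hc hX lab
      ((kb.fatB X.P (X.G (g.fin M)) M (fun n _ => M n) bs).2.1 0)
      fun n => ⟨le_rfl, Nat.zero_le _, le_rfl⟩)⟩

end Pool.Agent.MP_5168f5_an.R4.B1
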