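import Pool.Agent.MP_5168f5_an.R4.SpecB

/-! A coordinate with a broad slope is full in its tube. -/

namespace Pool.Agent.MP_5168f5_an.R4.B1

open H19 H17S H17F Filter K31 Tan

namespace BXVA

variable {N : ℕ} {Ω Λ Y : Type} (g : Geo N Ω) (i : Fin N) (s R : ℕ) (lam : Ω → Λ) (B : Ω → Y)

/-- The context of the tube. -/
noncomputable def th (ω : Ω) : (g.T × ℤ × ℤ) × Λ :=
  ((g.θ ω, fl1 s (g.a ω i), fl1 s (g.e ω i)), lam ω)

/-- The coordinate `i` in its tube, rescaled. -/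
noncomputable def g2 : Geo 1 Ω :=
  ⟨_, _, fun ω _ => Int.fract (2 ^ s * g.a ω i), fun ω _ => Int.fract (2 ^ s * g.e ω i), g.z,
    th g i s lam, fun ω => (B ω, th g i s lam ω, fl1 (s + R) (g.pt ω i))⟩

theorem pt2 (ω : Ω) : (g2 g i s R lam B).pt ω 0 =
    2 ^ s * g.pt ω i - fl1 s (g.a ω i) - g.z ω * fl1 s (g.e ω i) := by
  show Int.fract (2 ^ s * g.a ω i) + g.z ω * Int.fract (2 ^ s * g.e ω i) =
    2 ^ s * (g.a ω i + g.z ω * g.e ω i) - _ - _
  simp only [Int.fract, fl1]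
  ring

theorem scale {x y : ℝ} (h : |x - y| ≤ 1 / 2 ^ (s + R)) : |2 ^ s * x - 2 ^ s * y| ≤ 1 / 2 ^ R := by
  rw [← mul_sub, abs_mul, abs_of_pos (by positivity)]
  refine (mul_le_mul_of_nonneg_left h (by positivity)).trans_eq ?_
  rw [pow_add]; field_simp

theorem fr_le (x : ℝ) : |Int.fract x| ≤ 1 := by
  rw [Int.abs_fract]; exact (Int.fract_lt_one x).le

end BXVA

open BXVA in
theorem rowXV : RXV := by
  intro hD N Ω Λ Y P g i M s R lam B ρ κ hB hρ hκ e nd low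
  obtain ⟨L, hL, bx⟩ := hB.bx
  have hM := hB.big
  have u1 := inv_unit hκ (e.mono fun _ a => a.1)
  have u2 : ∀ᶠ n in UF, (R n : ℝ) ≤ 1 * M n := e.mono fun n a => by
    rw [one_mul]; exact_mod_cast (Nat.le_add_left _ _).trans a.2.1
  have hR := big_unit u1 hM
  let G : Gs 1 Ω := fun n => g2 (g n) i (s n) (R n) (lam n) (B n)
  have z1 : ∀ᶠ n in UF, ∀ ω ∈ (P n).S, |(g n).z ω| ≤ 1 := bx.mono fun n a ω h =>
    (abs_of_nonneg (a.bd ω h).2.1).trans_le (a.bd ω h).2.2.le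
  have fz : ∀ᶠ n in UF, Fn (P n) (g n).z (B n) ∧ Fn (P n) (g n).θ (B n) ∧
      Fn (P n) (fun ω => fl1 (s n) ((g n).e ω i)) (B n) := e.mono fun n a =>
    ⟨fun x u y v w => congrArg (·.1.1) (a.2.2.2 x u y v w),
      fun x u y v w => congrArg (·.1.2) (a.2.2.2 x u y v w),
      fun x u y v w => congrArg (·.2) (a.2.2.2 x u y v w)⟩
  have b2 : Bs P G R := hD P g G M R L κ hB hκ hL (by
    filter_upwards [e, bx, fz] with n a b c
    refine ⟨a.1, (Nat.le_add_left _ _).trans a.2.1, ⟨fun ω h => ⟨fun _ =>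
      ⟨(fr_le _).trans (hL.1 n), (fr_le _).trans (hL.1 n)⟩, (b.bd ω h).2⟩,
      fun x u y v w => c.1 x u y v (congrArg (·.1) w), fun _ _ _ _ w => congrArg (·.2.1) w⟩,
      fun _ _ => rfl, fun x u y v w => ?_, fun _ _ _ _ w => congrArg (·.1.1) w⟩
    have k := a.2.2.1 x u y v w
    simp only [Geo.ln, Prod.mk.injEq] at w
    simp only [G, g2, th, Geo.ln, w.1, w.2.1, w.2.2, k])
  have n1 : ND P M (fun n ω => fl1 (s n + R n) ((g n).pt ω i)) B :=
    nd.mono (Eventually.of_forall fun _ => Fn.snd _ _)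
  have n2 : ND P M (fun n ω => fl1 (s n) ((g n).a ω i)) B := by
    refine n1.cut (ND.sure (c := fun n ω => U.rd (s n + R n) ((g n).pt ω i) -
      (g n).z ω * U.rd (s n) ((g n).e ω i)) hM (hM.sub one_le_two) ?_)
    filter_upwards [fz, z1] with n a b
    refine ⟨fun x u y v w => ?_, fun ω h => ?_⟩
    · obtain ⟨w1, w2⟩ := Prod.mk.inj w
      simp only [U.rd, w1, a.1 x u y v w2, a.2.2 x u y v w2]
    · have e1 := (U.abs_sub_rd (s n + R n) ((g n).pt ω i)).trans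
        (U.div_pow_le zero_le_one (Nat.le_add_right _ _))
      have e2 := mul_le_mul (b ω h) (U.abs_sub_rd (s n) ((g n).e ω i)) (abs_nonneg _) zero_le_one
      rw [← abs_mul] at e2
      refine le_trans (le_of_eq (congrArg _ ?_)) ((abs_sub _ _).trans
        ((add_le_add e1 e2).trans_eq (by ring)))
      rw [show (g n).pt ω i = (g n).a ω i + (g n).z ω * (g n).e ω i from rfl]
      ring
  have n3 : ND P M (fun n => (G n).y) B := ND.rfl.pair ((((ND.of_fn (fz.mono fun _ a =>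
    a.2.1)).pair (n2.pair (ND.of_fn (fz.mono fun _ a => a.2.2)))).pair
      (nd.mono (Eventually.of_forall fun _ => Fn.fst _ _))).pair n1)
  have cls : Cls0 (DnK P) G R 0 ρ := by
    refine ⟨cl0_dnK P, hρ, fun X h => (kc2.bs G R).toCl0.dn (X := Mb.base P) b2 h,
      fun X h α hα => le_unit u1 ((low α hα _ _ _ h).trans ?_)⟩
    have n5 : ND P M (fun n ω => fl1 (s n + α n) ((g n).e ω i)) fun n ω =>
        (fl1 (α n) (Int.fract (2 ^ s n * (g n).e ω i)), B n ω) :=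
      ND.of_fn (fz.mono fun n a x u y v w => by
        obtain ⟨w1, w2⟩ := Prod.mk.inj w
        rw [U.fl1_fract, U.fl1_fract, show fl1 (s n) ((g n).e x i) = _ from a.2.2 x u y v w2] at w1
        exact sub_left_injective w1)
    exact ND.le (F' := fun n v => fl1 (α n) (Int.fract (2 ^ s n * (g n).e ((X n).ρ v) i)))
      (n5.dn h) (n3.dn h)
  have t : ∀ {β γ : ℕ → Type} (F : ∀ n, Ω n → β n) (K : ∀ n, Ω n → γ n),
      Sm R fun n => mi (P n) (fun _ => ()) (F n) (K n) := fun F K =>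
    Le.of_le fun n => (mi_le _ _ _).trans_eq (ch_zero fun _ _ _ _ _ => rfl)
  have key := xa (Λ := fun _ => Unit) _ G R (fun _ => 0) (fun _ => 0) R 0 ρ (Mb.base P)
    (fun _ _ => ()) cls (dnK_base P) ⟨t _ _, t _ _⟩ ⟨_, hR.sub le_rfl, fz.mono fun n a x u y v w => by
      obtain ⟨w1, w2⟩ := Prod.mk.inj w
      obtain ⟨w2, w3⟩ := Prod.mk.inj w2
      simp only [th, Prod.mk.injEq, id] at w1 w2 w3
      have := scale (s n) (R n) ((abs_sub_lt_of_fl1_eq w3).le.trans_eq (one_div _).symm)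
      show |(G n).pt x 0 - (G n).pt y 0| ≤ _
      rw [pt2, pt2, w2.1.2.1, w2.1.2.2, a.1 x u y v w1]
      exact le_trans (le_of_eq (congrArg _ (by ring))) this⟩
    fun n => ⟨le_rfl, Nat.zero_le _, le_rfl⟩
  refine ((Le.of_le fun n => by simp).trans (le_unit u2 key)).trans
    (ND.le (F := fun n ω => fl1 (R n) ((G n).pt ω 0))
      (G := fun n ω => (fl1 0 ((G n).pt ω 0), (), (G n).zt ω)) (ND.sure (c := fun n ω =>
        2 ^ s n * U.rd (s n + R n) ((g n).pt ω i) - fl1 (s n) ((g n).a ω i) -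
          (g n).z ω * fl1 (s n) ((g n).e ω i)) hM (hM.sub le_rfl)
      (Eventually.of_forall fun n => ⟨fun x _ y _ w => ?_, fun ω _ => ?_⟩))
      ((nd_pt hM (z1.mono fun n a => ⟨fun x _ y _ w => ?_, a⟩)).pair
        (ND.of_fn (Eventually.of_forall fun n x _ y _ w => ?_))))
  · simp only [G, g2, th, Geo.zt, Prod.mk.injEq] at w
    simp only [U.rd, w.1, w.2.2.2.1, w.2.2.2.2.1.2.1, w.2.2.2.2.1.2.2]
  · rw [pt2]
    exact le_trans (le_of_eq (congrArg _ (by ring))) (scale _ _ (U.abs_sub_rd _ ((g n).pt ω i)))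
  · simp only [G, g2, th, Geo.zt, Prod.mk.injEq] at w
    simp only [w.2.2.1, w.2.2.2.1.2.1, w.2.2.2.1.2.2]
  · simp only [G, g2, th, Geo.zt, Prod.mk.injEq] at w
    simp only [Geo.zt, w.2.2.1, w.2.2.2.1.1, w.2.2.2.2]

end Pool.Agent.MP_5168f5_an.R4.B1
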