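import Pool.Agent.MP_5168f5_an.R4.UAll
import Pool.Agent.MP_5168f5_an.R4.BB1F
import Pool.Agent.MP_5168f5_an.R4.BB1G
import Pool.Agent.MP_5168f5_an.R4.BB1a
import Pool.Agent.MP_5168f5_an.R4.BB1b
import Pool.Agent.MP_5168f5_an.R4.BCor2
import Pool.Agent.MP_5168f5_an.R4.BCor3
import Pool.Agent.MP_5168f5_an.R4.BCpL
import Pool.Agent.MP_5168f5_an.R4.BFin2
import Pool.Agent.MP_5168f5_an.R4.BIbG
import Pool.Agent.MP_5168f5_an.R4.BMaj
import Pool.Agent.MP_5168f5_an.R4.BNGm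
import Pool.Agent.MP_5168f5_an.R4.BP1a
import Pool.Agent.MP_5168f5_an.R4.BSeg
import Pool.Agent.MP_5168f5_an.R4.BShL
import Pool.Agent.MP_5168f5_an.R4.BSwap
import Pool.Agent.MP_5168f5_an.R4.BUFl
import Pool.Agent.MP_5168f5_an.R4.BVCls
import Pool.Agent.MP_5168f5_an.R4.BVH1
import Pool.Agent.MP_5168f5_an.R4.BVH2
import Pool.Agent.MP_5168f5_an.R4.BVLab
import Pool.Agent.MP_5168f5_an.R4.BVNg
import Pool.Agent.MP_5168f5_an.R4.BVSh
import Pool.Agent.MP_5168f5_an.R4.BVTr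
import Pool.Agent.MP_5168f5_an.R4.BXV

/-! Kakeya sets in four dimensions, broad slopes: the three cases. -/

namespace Pool.Agent.MP_5168f5_an.R4.B1

theorem cor3 : Cor3 := rowCor3 rowSegK (rowCor2 rowSegK)
theorem xv : XV := rowXV rowBsD
theorem ufl : UFl := rowUFl thmU0
theorem vlab : VLab := rowVLab ufl (rowVSh rowShF) rowVTr (rowVCls rowBsD) rowVNg
theorem ngm : NGm := rowNGm rowSwap

theorem cb1 : Tan.CB1 := cb1_of (rowVH2 ngm) (rowB1G rowSegK cor3 rowMaj vlab rowVUp)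
  (rowB1F rowSwap (rowB1a rowShL) (rowB1b xv rowShL rowShP) (rowB1c rowShL rowShP) rowB1d)

theorem cp1 : Tan.CP1 := rowCP1 ngm (rowP1a xv)

theorem cib : Tan.CIB := cib_of rowVH1
  (rowIbF rowSegK rowFin2 rowVUp (rowIbG rowSegK cor3 rowMaj rowCpL vlab rowVUp))

end Pool.Agent.MP_5168f5_an.R4.B1
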