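import Pool.Agent.MP_5168f5_an.R4.SpecTAN
import Pool.Agent.MP_5168f5_an.R4.NCp3

/-! Three copies given a label have independent directions: tangent classes of weight one. -/

namespace Pool.Agent.MP_5168f5_an.R4.Tan

open H19 H17S H17F Filter Web

variable {M mm : ℕ → ℕ}

theorem OM.rfl : OM M M := ⟨1, Eventually.of_forall fun n => by simp⟩

theorem OM.add {a b : ℕ → ℕ} (h : OM M a) (h' : OM M b) : OM M fun n => a n + b n := by
  obtain ⟨C, e⟩ := h
  obtain ⟨C', e'⟩ := h'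
  exact ⟨C + C', (e.and e').mono fun n u => by rw [add_mul]; exact add_le_add u.1 u.2⟩

theorem OM.mono {a b : ℕ → ℕ} (h : OM M b) (e : ∀ᶠ n in UF, a n ≤ b n) : OM M a :=
  h.imp fun _ u => (e.and u).mono fun _ v => v.1.trans v.2

theorem OM.mul (C : ℕ) {a : ℕ → ℕ} (h : OM M a) : OM M fun n => C * a n := by
  obtain ⟨C', e⟩ := h
  exact ⟨C * C', e.mono fun n u => by rw [mul_assoc]; exact Nat.mul_le_mul_left _ u⟩

theorem ev_le (h : Sm M fun n => mm n) : ∀ᶠ n in UF, (mm n : ℝ) ≤ M n :=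
  (h 1 one_pos).mono fun n a => by simpa using a

theorem sub_up (h : Sm M fun n => mm n) {L : ℕ → ℝ} (hL : Sub mm L) : Sub M L :=
  ⟨hL.1, fun ε hε => by
    filter_upwards [hL.2 ε hε, ev_le h] with n a b
    exact a.trans (Real.exp_le_exp.2 (mul_le_mul_of_nonneg_left b hε.le))⟩

theorem le_up (h : Sm M fun n => mm n) {f g : ℕ → ℝ} (e : Le mm f g) : Le M f g := fun ε hε => by
  filter_upwards [e ε hε, ev_le h] with n a b
  exact a.trans (add_le_add le_rfl (mul_le_mul_of_nonneg_left b hε.le))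

variable {Ω : ℕ → Type} {K : Mb Ω → Prop} {g : Gs 3 Ω} {D : ∀ n, Td (Ω n)} {η γ : ℝ}
  {T : Finset (Fin 3)} {X : Mb Ω}

theorem Tn.bigm (h : Tn K g M mm D η γ T) : Big mm := h.ne.elim fun X a => (h.low.bs X a).big

theorem Tn.big (h : Tn K g M mm D η γ T) : Big M := tendsto_atTop.2 fun b => by
  filter_upwards [tendsto_atTop.1 h.bigm b, ev_le h.sm] with n u v
  exact u.trans (by exact_mod_cast v)

theorem Tn.bx (h : Tn K g M mm D η γ T) (hX : K X) :
    ∃ L, Sub M L ∧ ∀ᶠ n in UF, (X.G g n).Bx (X n).Q (L n) :=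
  (h.low.bs X hX).bx.imp fun _ a => ⟨sub_up h.sm a.1, a.2⟩

theorem cp3 (h : Tn K g M mm D η 1 T) (hX : K X) {Λ : ℕ → Type} {lam : ∀ n, (X n).W → Λ n}
    {j : ℕ → ℕ} (hj : OM M j) (hl : Lab X.P (X.G g) mm j lam) :
    ∃ L, Sub M L ∧ Whp (fun n => G3 (X n).Q (lam n)) fun n v => 1 ≤ L n *
      |det3 ![1, (X.G g n).e v.1.1 0, (X.G g n).e v.1.1 1]
        ![1, (X.G g n).e v.1.2 0, (X.G g n).e v.1.2 1]
        ![1, (X.G g n).e v.2 0, (X.G g n).e v.2 1]| := by
  obtain ⟨L₀, s0, b0⟩ := h.bx hX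
  obtain ⟨L₁, s1, w1⟩ := sep K g mm 0 η X lam h.low hX hl.l
  refine cp3_abs X.P lam (fun n v => (X.G g n).e v 0) (fun n v => (X.G g n).e v 1) h.big s0
    (sub_up h.sm s1) (Whp.of_ev (b0.mono fun n a ω hω =>
      ⟨((a.bd ω hω).1 0).2, ((a.bd ω hω).1 1).2⟩)) w1 fun κ L d hκ hL p => ?_
  have dn := K31.dnS_cE p
  have d3 := dn.trans (K31.dnS_law (Eventually.of_forall fun n => law_g3 (X n).Q (lam n)))
  have k := (h.com _ (h.cl.toCl0.dn hX d3)).optU _ (fun n v => (d n v.1, lam n v.2))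
    (fun n v => d n v.1) L j (fun n => j n + κ n) M hj
    (hj.add (OM.rfl.mono (Eventually.of_forall hκ.1))) OM.rfl
    ((hl.cop (fun n => law_g2 (X n).Q (lam n)) d).dn h.bigm dn) hL
    (Eventually.of_forall fun n => Fn.fst _ _) (Whp.of_ev (by
      filter_upwards [p.sure, Sub.le_pow hL one_pos (R := M)
        (Eventually.of_forall fun n => (one_mul _).le)] with n a b v hv
      obtain ⟨-, a1, a2, a3⟩ := a v hv
      refine ⟨⟨a1.trans b, a2.trans b⟩, fun t ht => ?_⟩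
      have e := (abs_sub_lt_of_fl1_eq ht).le
      refine le_trans (le_of_eq ?_) ((mul_le_mul e a3 (abs_nonneg _) (by positivity)).trans
        (le_of_eq (by rw [pow_add]; field_simp)))
      rw [← abs_mul]
      congr 1
      simp only [Geo.lt, Pi.add_apply, Pi.smul_apply, smul_eq_mul, id]
      ring))
  obtain ⟨-, c, c0, hc⟩ := hκ
  exact k.false h.big c0 (hc.mono fun n a => by push_cast; linarith)

/-- The same for the directions rounded at a resolution `R` that is comparable with the unit. -/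
theorem cp3r (h : Tn K g M mm D η 1 T) (hX : K X) {Λ : ℕ → Type} {lam : ∀ n, (X n).W → Λ n}
    {j R : ℕ → ℕ} {c : ℝ} (hj : OM M j) (hl : Lab X.P (X.G g) mm j lam) (hc : 0 < c)
    (hR : ∀ᶠ n in UF, c * M n ≤ R n) :
    ∃ L, Sub M L ∧ Whp (fun n => G3 (X n).Q (lam n)) fun n v => 1 ≤ L n *
      |det3 ![1, rd (R n) ((X.G g n).e v.1.1 0), rd (R n) ((X.G g n).e v.1.1 1)]
        ![1, rd (R n) ((X.G g n).e v.1.2 0), rd (R n) ((X.G g n).e v.1.2 1)]
        ![1, rd (R n) ((X.G g n).e v.2 0), rd (R n) ((X.G g n).e v.2 1)]| := by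
  obtain ⟨L₀, s0, b0⟩ := h.bx hX
  obtain ⟨L, s, w⟩ := cp3 h hX hj hl
  exact ⟨_, s.const_mul h.big one_le_two, cp3_rd X.P lam (fun n v => (X.G g n).e v 0)
    (fun n v => (X.G g n).e v 1) h.big s0 s hc hR (Whp.of_ev (b0.mono fun n a ω hω =>
      ⟨((a.bd ω hω).1 0).2, ((a.bd ω hω).1 1).2⟩)) w⟩

end Pool.Agent.MP_5168f5_an.R4.Tan
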