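import Pool.Agent.MP_5168f5_an.R4.SpecW

/-! Planar webs: tools and the noise step. -/

namespace Pool.Agent.MP_5168f5_an.R4.Web

open H19 H17S H17F Filter NCx

namespace WRectA

theorem itv (j : ℕ) (y : ℝ) {r : ℝ} (hr : 0 ≤ r) : ∃ T : Finset ℤ, (T.card : ℝ) ≤ 2 * r + 3 ∧
    ∀ x, |x - y| ≤ r / 2 ^ j → fl1 j x ∈ T := by
  refine ⟨Finset.Icc (fl1 j y - ⌈r⌉₊) (fl1 j y + ⌈r⌉₊), ?_, fun x h => fl1_mem_Icc (h.trans ?_)⟩
  · rw [show (Finset.Icc (fl1 j y - ⌈r⌉₊) (fl1 j y + ⌈r⌉₊)).card = 2 * ⌈r⌉₊ + 1 by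
      rw [Int.card_Icc]; omega]
    push_cast
    linarith [Nat.ceil_lt_add_one hr]
  · rw [div_eq_mul_inv]
    exact mul_le_mul_of_nonneg_right (Nat.le_ceil _) (by positivity)

/-- All the independences follow from joint fullness. -/
theorem four {W TA TB TS TY TK TU TD TW : Type} (Q : FP W) {A : W → TA} {B B' : W → TB}
    {σ : W → TS} {Y : W → TY} {K : W → TK} {U : W → TU} (d : W → TD) (w : W → TW) (Z r : W → ℤ)
    (h1 : Fn Q K fun v => (σ v, Y v)) (h2 : Fn Q σ fun v => (B v, B' v))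
    (h3 : Fn Q B' fun v => (B v, σ v)) (h4 : Fn Q U Y) (h5 : Fn Q σ K) {J : ℝ}
    (hJ : J = ch Q (fun v => (A v, B v, B' v)) Y) :
    mi Q U (fun v => (d v, w v)) K ≤ ch Q A K + ch Q B K + ch Q σ Y - J +
      (ch Q d (fun v => (A v, K v)) + ch Q w fun v => ((B v, B' v), K v)) ∧
    mi Q d w K ≤ ch Q A K + ch Q B Y + ch Q B' Y - J +
      (ch Q d (fun v => (A v, K v)) + ch Q w fun v => ((B v, B' v), K v)) ∧
    J ≤ ch Q Z K + ch Q B Y + ch Q B' Y + ch Q A (fun v => (Z v, Y v)) ∧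
    J ≤ ch Q r K + ch Q σ Y + ch Q A Y + ch Q B fun v => (r v, σ v) := by
  have a1 := ch_tri (P := Q) (fun v => (A v, B v, B' v)) σ Y
  have a2 : ch Q (fun v => (A v, B v, B' v)) (fun v => (σ v, Y v)) ≤
      ch Q (fun v => (A v, B v)) fun v => (σ v, Y v) := ch_mono fun a ha b hb e => by
    simp only [Prod.mk.injEq] at e ⊢
    exact ⟨e.1.1, e.1.2, h3 a ha b hb (Prod.ext e.1.2 e.2.1)⟩
  have a3 := ch_tri (P := Q) (fun v => (A v, B v, B' v)) (fun v => (B v, B' v)) Y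
  have a4 : ch Q (fun v => (A v, B v, B' v)) (fun v => ((B v, B' v), Y v)) ≤
      ch Q A fun v => ((B v, B' v), Y v) :=
    ch_mono fun a _ b _ e => by simp only [Prod.mk.injEq] at e ⊢; tauto
  have a5 := ch_subadd (P := Q) B B' Y
  have hK : Fn Q K fun v => ((B v, B' v), Y v) := h1.trans ((h2.left _).pair (Fn.snd _ _))
  refine ⟨?_, ?_, ?_, ?_⟩
  · have b1 := mi_near (P := Q) U (fun v => (d v, w v)) (fun v => (A v, B v)) K
    have b2 := ch_subadd (P := Q) d w fun v => ((A v, B v), K v)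
    have b3 : ch Q d (fun v => ((A v, B v), K v)) ≤ ch Q d fun v => (A v, K v) :=
      ch_anti fun a _ b _ e => by simp only [Prod.mk.injEq] at e ⊢; tauto
    have b4 : ch Q w (fun v => ((A v, B v), K v)) ≤ ch Q w fun v => ((B v, B' v), K v) :=
      ch_anti fun a ha b hb e => by
        simp only [Prod.mk.injEq] at e ⊢
        exact ⟨⟨e.1.2, h3 a ha b hb (Prod.ext e.1.2 (h5 a ha b hb e.2))⟩, e.2⟩
    have b5 := ch_subadd (P := Q) A B K
    have b6 : ch Q (fun v => (A v, B v)) (fun v => (σ v, Y v)) ≤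
        ch Q (fun v => (A v, B v)) fun v => (U v, K v) := ch_anti ((h4.right _).pair h1)
    rw [mi_symm U fun v => (A v, B v)] at b1
    unfold mi at b1 ⊢
    linarith
  · have b1 := mi_near (P := Q) d w (fun v => (B v, B' v)) K
    have b2 := mi_near (P := Q) (fun v => (B v, B' v)) d A K
    have b3 : ch Q A (fun v => ((B v, B' v), Y v)) ≤ ch Q A fun v => ((B v, B' v), K v) :=
      ch_anti ((Fn.fst _ _).pair hK)
    rw [mi_symm _ d, mi_symm _ A] at b2
    unfold mi at b1 b2 ⊢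
    linarith
  · have b1 := ch_tri (P := Q) A Z fun v => ((B v, B' v), Y v)
    have b2 : ch Q Z (fun v => ((B v, B' v), Y v)) ≤ ch Q Z K := ch_anti hK
    have b3 : ch Q A (fun v => (Z v, (B v, B' v), Y v)) ≤ ch Q A fun v => (Z v, Y v) :=
      ch_anti fun a _ b _ e => by simp only [Prod.mk.injEq] at e ⊢; tauto
    linarith
  · have b1 := ch_subadd (P := Q) A B fun v => (σ v, Y v)
    have b2 : ch Q A (fun v => (σ v, Y v)) ≤ ch Q A Y := ch_anti (Fn.snd _ _)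
    have b3 := ch_tri (P := Q) B r fun v => (σ v, Y v)
    have b4 : ch Q r (fun v => (σ v, Y v)) ≤ ch Q r K := ch_anti h1
    have b5 : ch Q B (fun v => (r v, σ v, Y v)) ≤ ch Q B fun v => (r v, σ v) :=
      ch_anti fun a _ b _ e => by simp only [Prod.mk.injEq] at e ⊢; tauto
    linarith

variable {Ω Ω' Γ : ℕ → Type} {P : ∀ n, FP (Ω n)} {Q : ∀ n, FP (Ω' n)} {G : ∀ n, Ω n → Γ n}
  {x y : RV Ω} {M j s m : ℕ → ℕ} {L : ℕ → ℝ}

theorem whp_law {π : ∀ n, Ω' n → Ω n} {E : ∀ n, Ω n → Prop} (h : ∀ n, Law (Q n) (π n) (P n) id)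
    (w : Whp P E) : Whp Q fun n v => E n (π n v) := fun ε hε =>
  (w ε hε).mono fun n a => ((h n).pb_eq fun ω => ¬E n ω).trans_le a

/-- A variable on a grid that is known up to `L / 2 ^ j`. -/
theorem le_grid (hM : Big M) (hL : Sub M L) (hj : ∀ n, j n ≤ M n)
    (h : ∀ᶠ n in UF, Fn (P n) (x n) (fun ω => fl1 (M n) (x n ω)) ∧ ∀ a ∈ (P n).S, ∀ b ∈ (P n).S,
      G n a = G n b → |x n a - x n b| ≤ L n / 2 ^ j n) :
    Le M (fun n => ch (P n) (x n) (G n)) fun n => (M n - j n : ℝ) * lg :=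
  (Le.of_ev (h.mono fun _ a => ch_mono (a.1.left _))).trans
    (le_fl1 hM hL hj (h.mono fun _ a => a.2))

theorem le_grid0 (hM : Big M) (hL : Sub M L)
    (h : ∀ᶠ n in UF, Fn (P n) (x n) (fun ω => fl1 (M n) (x n ω)) ∧ ∀ a ∈ (P n).S, |x n a| ≤ L n) :
    Le M (fun n => ch (P n) (x n) (G n)) fun n => M n * lg := by
  simpa using le_grid (G := G) (j := fun _ => 0) hM (hL.const_mul hM one_le_two)
    (fun _ => Nat.zero_le _) (h.mono fun n c => ⟨c.1, fun a ha b hb _ => by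
      linarith [abs_sub (x n a) (x n b), c.2 a ha, c.2 b hb]⟩)

theorem det_bd {W β : Type} {S : FP W} {z : W → ℝ} {K : W → β} {l : ℝ} (i : ℕ) (hl : 1 ≤ l)
    (h : ∀ a ∈ S.S, |z a| ≤ l) : Det S (fun v => fl1 i (z v)) K (7 * l * 2 ^ i) := by
  have p1 : (1 : ℝ) ≤ 2 ^ i := one_le_pow₀ one_le_two
  refine det_mono _ (det_near1 (L := 2 * l * 2 ^ i) (by positivity) fun a ha b hb _ => ?_)
    (by nlinarith)
  rw [mul_div_cancel_right₀ _ (by positivity)]
  linarith [abs_sub (z a) (z b), h a ha, h b hb]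

/-- A variable that is close to a function of `G` with high probability. -/
theorem sm_whp (hM : Big M) (hL : Sub M L) (hj : ∀ n, j n ≤ M n)
    (h : ∀ᶠ n in UF, Fn (P n) (y n) (G n) ∧ ∀ a ∈ (P n).S, |x n a| ≤ L n)
    (w : Whp P fun n ω => |x n ω - y n ω| ≤ L n / 2 ^ j n) :
    Sm M fun n => ch (P n) (fun ω => fl1 (j n) (x n ω)) (G n) := by
  refine ks.fano P _ _ _ M _ 2 hM
    ((hL.const_mul hM one_le_two).add (hM.sub (by norm_num : (1 : ℝ) ≤ 3)) hM) w ?_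
  filter_upwards [h, (hL.const_mul hM (by norm_num : (1 : ℝ) ≤ 7)).2 1 one_pos] with n c e
  refine ⟨det_mono _ (det_bd _ (hL.1 n) c.2) ?_, fun a ha => (itv (j n) (y n a) (hL.pos n).le).imp
    fun T hT => ⟨hT.1, fun b hb q k => hT.2 _ (c.1 b hb a ha q ▸ k)⟩⟩
  have p2 := (two_pow_le_exp (j n)).trans (Real.exp_le_exp.2 (Nat.cast_le.2 (hj n)))
  have p3 := mul_le_mul e p2 (by positivity) (Real.exp_pos _).le
  rwa [one_mul, ← Real.exp_add, ← two_mul] at p3

/-- A full variable is not small. -/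
theorem far (hM : Big M) (h : ∀ᶠ n in UF, ∀ a ∈ (P n).S, |x n a| ≤ 1) (hf : Ful P x G M) :
    ∃ L, Sub M L ∧ Whp P fun n ω => 1 ≤ L n * |x n ω| := by
  refine ks.wsub P (fun n ω l => 1 ≤ l * |x n ω|) M fun c hc _ => ?_
  refine (ks.spw P (fun n ω => ¬1 ≤ Real.exp (c * M n) * |x n ω|) _ G M (fun n => 2 ^ M n)
    (fun _ => 7) (min c (1 / 2)) hM (hM.sub (by norm_num)) (by positivity)
    (by simp only [log_two_pow]; exact hf) (h.mono fun n a => ?_)).mono
    (Eventually.of_forall fun n ω _ => not_not.1)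
  have r0 : (0 : ℝ) ≤ M n := Nat.cast_nonneg _
  have e2 : 1 ≤ 2 ^ M n * Real.exp (-(min c (1 / 2) * M n)) := by
    rw [two_pow_eq, ← Real.exp_add]
    refine Real.one_le_exp ?_
    unfold lg
    nlinarith [Real.log_two_gt_d9, min_le_right c (1 / 2)]
  refine ⟨by positivity, by simpa using det_bd (M n) le_rfl a, fun _ _ =>
    (itv (M n) 0 (zero_le_one.trans e2)).imp fun T hT => ⟨by linarith [hT.1], fun b _ _ k =>
      hT.2 _ ?_⟩⟩
  rw [sub_zero, mul_div_cancel_left₀ _ (by positivity), Real.exp_neg, ← one_div,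
    le_div_iff₀ (Real.exp_pos _), mul_comm]
  exact (mul_le_mul_of_nonneg_right (Real.exp_le_exp.2
    (mul_le_mul_of_nonneg_right (min_le_left _ _) r0)) (abs_nonneg _)).trans (not_le.1 k).le

/-- The sum of the two grid points. -/
noncomputable def sg (M : ℕ) (b b' : ℝ) : ℝ := ((2 : ℝ) ^ M)⁻¹ * ((fl1 M b + fl1 M b' : ℤ) : ℝ)

theorem fl1_sg (M : ℕ) (b b' : ℝ) : fl1 M (sg M b b') = fl1 M b + fl1 M b' := by
  rw [sg, fl1, mul_inv_cancel_left₀ (by positivity), Int.floor_intCast]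

theorem abs_sg (M : ℕ) (b b' : ℝ) : |b + b' - sg M b b'| ≤ 2 * ((2 : ℝ) ^ M)⁻¹ := by
  rw [sg, abs_le]
  push_cast
  constructor <;> linarith [fl1_le M b, fl1_le M b', lt_fl1 M b, lt_fl1 M b']

theorem sg_comm (M : ℕ) (b b' : ℝ) : sg M b b' = sg M b' b := by rw [sg, sg, add_comm]

theorem num1 {l t t' m b b' d₁ d₂ p σ u u' z : ℝ} (hl : 1 ≤ l) (t0 : 0 < t) (ht : 1 ≤ t')
    (m1 : m ≤ 1 / t') (h1 : |b| ≤ l) (h2 : |b'| ≤ l) (h3 : |d₁| ≤ l / t) (h4 : |d₂| ≤ l / t)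
    (h5 : |b + b' - σ| ≤ 2 * m)
    (h6 : |u - u' - (z * p + (b - b') * (d₁ + d₂ * (b + b')))| ≤ l / t / t') :
    |t * (d₁ + d₂ * σ)| ≤ 5 * l ^ 2 ∧
      |t * u - t * u' - (t * z * p + (b - b') * (t * (d₁ + d₂ * σ)))| ≤ 5 * l ^ 2 / t' := by
  have t1 : 0 < t' := by linarith
  rw [div_right_comm] at h6
  have k : ∀ {x B : ℝ}, |x| ≤ B / t → |t * x| ≤ B := fun {x B} e => by
    rw [abs_mul, abs_of_pos t0, mul_comm]; exact (le_div_iff₀ t0).1 e
  have m2 : 1 / t' ≤ 1 := (div_le_one t1).2 ht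
  have s1 : |σ| ≤ 4 * l := by
    rw [abs_le] at h1 h2 h5 ⊢
    constructor <;> linarith [h1.1, h1.2, h2.1, h2.2, h5.1, h5.2]
  have s2 : |t * d₂ * σ| ≤ l * (4 * l) := by
    rw [abs_mul]; exact mul_le_mul (k h4) s1 (abs_nonneg _) (by linarith)
  have s3 : |(b - b') * (t * d₂) * (b + b' - σ)| ≤ 2 * l * l * (2 * (1 / t')) := by
    rw [abs_mul, abs_mul]
    exact mul_le_mul (mul_le_mul (by linarith [abs_sub b b']) (k h4) (abs_nonneg _) (by linarith))
      (by linarith) (abs_nonneg _) (by positivity)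
  have s4 : l / t' ≤ l ^ 2 / t' := div_le_div_of_nonneg_right (by nlinarith) t1.le
  constructor
  · rw [mul_add, ← mul_assoc]
    nlinarith [abs_add_le (t * d₁) (t * d₂ * σ), k h3]
  · have e : t * u - t * u' - (t * z * p + (b - b') * (t * (d₁ + d₂ * σ))) =
        t * (u - u' - (z * p + (b - b') * (d₁ + d₂ * (b + b')))) +
          (b - b') * (t * d₂) * (b + b' - σ) := by ring
    rw [e]
    refine (abs_add_le _ _).trans ((add_le_add ((k h6).trans s4) s3).trans (le_of_eq ?_))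
    ring

theorem num2 {l l' t t' κ r c d₁ d₂ p u u' a a' : ℝ} (hl : 1 ≤ l) (hl' : 1 ≤ l') (t0 : 0 < t)
    (t1 : 0 < t') (hκ : 1 / t' ≤ κ) (h1 : |t * u - t * u'| ≤ κ) (h2 : 1 ≤ l' * |t * (a - a')|)
    (h3 : |d₁| ≤ l / t) (h4 : |d₂| ≤ l / t)
    (h6 : |u - u' - ((a - a') * p + r * (d₁ + d₂ * c))| ≤ l / t / t') :
    |p - r * (d₁ / (a' - a) + d₂ / (a' - a) * c)| ≤ 2 * l * l' * κ ∧
      |d₁ / (a' - a)| ≤ 2 * l * l' ∧ |d₂ / (a' - a)| ≤ 2 * l * l' := by
  have z0 : a' - a ≠ 0 := fun e => by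
    rw [← neg_sub, e] at h2; norm_num at h2
  have k : ∀ {x B : ℝ}, |x| ≤ B / t → |x / (a' - a)| ≤ B * l' := fun {x B} e => by
    have e1 := (le_div_iff₀ t0).1 e
    rw [abs_mul, abs_of_pos t0, abs_sub_comm] at h2
    rw [abs_div, div_le_iff₀ (abs_pos.2 z0)]
    have := mul_le_mul e1 (le_refl (l' * |a' - a|)) (by positivity)
      ((by positivity : (0 : ℝ) ≤ |x| * t).trans e1)
    nlinarith [abs_nonneg x]
  have l0 : l * l' ≤ 2 * l * l' := by nlinarith
  refine ⟨?_, (k h3).trans l0, (k h4).trans l0⟩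
  have e : p - r * (d₁ / (a' - a) + d₂ / (a' - a) * c) =
      ((u - u' - ((a - a') * p + r * (d₁ + d₂ * c))) - (u - u')) / (a' - a) := by
    field_simp; ring
  have h7 : |u - u'| ≤ κ / t := by
    rw [← mul_sub, abs_mul, abs_of_pos t0, mul_comm] at h1; exact (le_div_iff₀ t0).2 h1
  have h8 : l / t' ≤ l * κ := by
    rw [div_eq_mul_one_div]; exact mul_le_mul_of_nonneg_left hκ (by linarith)
  have h9 : κ ≤ l * κ := le_mul_of_one_le_left ((by positivity : (0 : ℝ) ≤ 1 / t').trans hκ) hl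
  rw [div_right_comm] at h6
  rw [e]
  refine (k (B := 2 * l * κ) ((abs_sub _ _).trans ((add_le_add h6 h7).trans ?_))).trans
    (le_of_eq (by ring))
  rw [← add_div]
  exact div_le_div_of_nonneg_right (by linarith) t0.le

/-- The noise step on the rectangle. -/
theorem stage {ε₀ : ℝ} (h0 : 0 < ε₀) (h1 : ε₀ ≤ 1) {a a₂ b bt u ut d₁ d₂ τ τt : RV Ω} (hM : Big M)
    (hs : Frac m M) (h2 : ∀ n, s n + m n ≤ M n) (hL : Sub M L)
    (ng : NG1 P G (fun n v => 2 ^ s n * u n v) m ε₀)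
    (ev : ∀ᶠ n in UF, Fn (P n) (a n) (G n) ∧ Fn (P n) (a₂ n) (fun v => fl1 (M n) (a₂ n v)) ∧
      Fn (P n) (b n) (fun v => fl1 (M n) (b n v)) ∧
      Fn (P n) (bt n) (fun v => fl1 (M n) (bt n v)) ∧ ∀ v ∈ (P n).S,
        fl1 (s n) (a₂ n v) = fl1 (s n) (a n v) ∧ fl1 (s n) (ut n v) = fl1 (s n) (u n v) ∧
        |b n v| ≤ L n ∧ |bt n v| ≤ L n ∧ |τ n v - τt n v| ≤ L n ∧
        |u n v - ut n v - ((a n v - a₂ n v) * (τ n v - τt n v) + (b n v - bt n v) *
          (d₁ n v + d₂ n v * (b n v + bt n v)))| ≤ L n / 2 ^ s n / 2 ^ m n)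
    (lip : Whp P fun n v => |d₁ n v| ≤ L n / 2 ^ s n ∧ |d₂ n v| ≤ L n / 2 ^ s n)
    (sym : ∀ n, ch (P n) (fun v => fl1 (m n) (2 ^ s n * ut n v))
        (fun v => (G n v, fl1 (s n) (u n v), sg (M n) (b n v) (bt n v))) ≤
      ch (P n) (fun v => fl1 (m n) (2 ^ s n * u n v))
        fun v => (G n v, fl1 (s n) (u n v), sg (M n) (b n v) (bt n v)))
    (ful : Le M (fun n => (3 * M n - s n) * lg) fun n =>
      ch (P n) (fun v => (a₂ n v, b n v, bt n v)) fun v => (u n v, G n v))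
    (sm1 : Sm M fun n => ch (P n) (fun v => (d₁ n v, d₂ n v)) fun v => (a₂ n v, G n v))
    (sm2 : Sm M fun n => ch (P n) (fun v => (τ n v, τt n v)) fun v => ((b n v, bt n v), G n v)) :
    ∃ (k : ℕ → ℕ) (L' : ℕ → ℝ), Frac k m ∧ Sub M L' ∧ Whp P fun n v =>
      |τ n v - τt n v - (b n v - bt n v) * (d₁ n v / (a₂ n v - a n v) +
        d₂ n v / (a₂ n v - a n v) * (b n v + bt n v))| ≤ L' n / 2 ^ k n ∧
      |d₁ n v / (a₂ n v - a n v)| ≤ L' n ∧ |d₂ n v / (a₂ n v - a n v)| ≤ L' n := by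
  obtain ⟨c, hc, H⟩ := nc1 h0 h1
  have hS := hM.frac hs
  have one := hM.sub le_rfl
  have p1 : ∀ n, (1 : ℝ) ≤ 2 ^ m n := fun n => one_le_pow₀ one_le_two
  have pm : ∀ n, ((2 : ℝ) ^ M n)⁻¹ ≤ 1 / 2 ^ m n := fun n => by
    rw [one_div]; exact inv_anti₀ (by positivity) (pow_le_pow_right₀ one_le_two (hs.1 n))
  have sc : ∀ n {x y : ℝ}, fl1 (s n) x = fl1 (s n) y → |2 ^ s n * x - 2 ^ s n * y| ≤ 1 :=
    fun n x y e => (Int.abs_sub_lt_one_of_floor_eq_floor e).le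
  set K := fun n v => (G n v, fl1 (s n) (u n v), sg (M n) (b n v) (bt n v))
  set Y := fun n v => (u n v, G n v)
  set Z := fun n v => fl1 (m n) (2 ^ s n * (a n v - a₂ n v))
  set r := fun n v => fl1 (m n) (b n v - bt n v)
  have uA : Le M (fun n => ch (P n) (a₂ n) (G n)) fun n => (M n - s n : ℝ) * lg :=
    le_grid hM (hM.sub one_le_two) (fun n => le_of_add_le_left (h2 n)) (ev.mono fun n e => ⟨e.2.1, fun x hx y hy q => by
      have q1 := (e.2.2.2.2 y hy).1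
      rw [← e.1 x hx y hy q, ← (e.2.2.2.2 x hx).1] at q1
      have := abs_sub_lt_of_fl1_eq q1.symm
      rw [div_eq_mul_inv]
      linarith [(by positivity : (0 : ℝ) < (2 ^ s n)⁻¹)]⟩)
  have uB : Le M (fun n => ch (P n) (b n) fun _ => ()) fun n => M n * lg :=
    le_grid0 hM hL (ev.mono fun n e => ⟨e.2.2.1, fun v hv => (e.2.2.2.2 v hv).2.2.1⟩)
  have uB' : Le M (fun n => ch (P n) (bt n) fun _ => ()) fun n => M n * lg :=
    le_grid0 hM hL (ev.mono fun n e => ⟨e.2.2.2.1, fun v hv => (e.2.2.2.2 v hv).2.2.2.1⟩)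
  have uσ : Le M (fun n => ch (P n) (fun v => sg (M n) (b n v) (bt n v)) fun _ => ())
      fun n => M n * lg :=
    le_grid0 (x := fun n v => sg (M n) (b n v) (bt n v)) hM (hL.const_mul hM (C := 4) (by norm_num))
      (ev.mono fun n e => ⟨fun x _ y _ q => by
        simp only [fl1_sg] at q
        simp only [sg, q], fun v hv => by
        have q1 := abs_le.1 (abs_sg (M n) (b n v) (bt n v))
        have q2 := abs_le.1 (e.2.2.2.2 v hv).2.2.1
        have q3 := abs_le.1 (e.2.2.2.2 v hv).2.2.2.1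
        have q4 := (pm n).trans ((div_le_one (by positivity)).2 (p1 n))
        rw [abs_le]
        constructor <;> linarith [hL.1 n]⟩)
  have uZ : Le M (fun n => ch (P n) (a₂ n) fun v => (Z n v, Y n v))
      fun n => (M n - (s n + m n : ℕ) : ℝ) * lg :=
    le_grid hM one h2 (ev.mono fun n e => ⟨e.2.1, fun x hx y hy q => by
      simp only [Z, Y, Prod.mk.injEq, fl1_mul] at q
      have := abs_sub_lt_of_fl1_eq q.1
      rw [e.1 x hx y hy q.2.2, sub_sub_sub_cancel_left, abs_sub_comm] at this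
      rw [one_div]; exact this.le⟩)
  have ur : Le M (fun n => ch (P n) (b n) fun v => (r n v, sg (M n) (b n v) (bt n v)))
      fun n => (M n - m n : ℝ) * lg :=
    le_grid hM (hM.sub (by norm_num : (1 : ℝ) ≤ 3)) hs.1 (ev.mono fun n e =>
      ⟨e.2.2.1, fun x _ y _ q => by
        simp only [r, Prod.mk.injEq] at q
        have q1 := abs_lt.1 (abs_sub_lt_of_fl1_eq q.1)
        have q2 := abs_le.1 (abs_sg (M n) (b n x) (bt n x))
        have q3 := abs_le.1 (abs_sg (M n) (b n y) (bt n y))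
        have q4 := pm n
        rw [one_div] at q4
        rw [div_eq_mul_inv, abs_le]
        constructor <;> linarith [q.2]⟩)
  have key := ev.mono fun n e => And.intro (four (P n) (A := a₂ n) (B := b n) (B' := bt n)
    (σ := fun v => sg (M n) (b n v) (bt n v)) (Y := Y n) (K := K n)
    (U := fun v => fl1 (m n) (2 ^ s n * u n v)) (fun v => (a₂ n v, d₁ n v, d₂ n v))
    (fun v => (b n v, bt n v, τ n v, τt n v)) (Z n) (r n)
    (fun x _ y _ q => by simp only [K, Y, Prod.mk.injEq] at q ⊢; simp only [q, and_self])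
    (fun x _ y _ q => by simp only [Prod.mk.injEq] at q; simp only [q])
    (fun x hx y hy q => e.2.2.2.1 x hx y hy (by
      have q1 := congrArg (fl1 (M n)) (Prod.mk.inj q).2
      simpa only [fl1_sg, (Prod.mk.inj q).1, add_right_inj] using q1))
    (fun x _ y _ q => by simp only [(Prod.mk.inj q).1]) (fun x _ y _ q => congrArg (·.2.2) q) rfl)
    (show ch (P n) (a₂ n) (K n) ≤ ch (P n) (a₂ n) (G n) ∧
      ch (P n) (a₂ n) (Y n) ≤ ch (P n) (a₂ n) (G n) ∧
      ch (P n) (b n) (K n) ≤ ch (P n) (b n) (fun _ => ()) ∧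
      ch (P n) (b n) (Y n) ≤ ch (P n) (b n) (fun _ => ()) ∧
      ch (P n) (bt n) (Y n) ≤ ch (P n) (bt n) (fun _ => ()) ∧
      ch (P n) (fun v => sg (M n) (b n v) (bt n v)) (Y n) ≤
        ch (P n) (fun v => sg (M n) (b n v) (bt n v)) (fun _ => ()) ∧
      ch (P n) (fun v => (a₂ n v, d₁ n v, d₂ n v)) (fun v => (a₂ n v, K n v)) ≤
        ch (P n) (fun v => (d₁ n v, d₂ n v)) (fun v => (a₂ n v, G n v)) ∧
      ch (P n) (fun v => (b n v, bt n v, τ n v, τt n v)) (fun v => ((b n v, bt n v), K n v)) ≤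
        ch (P n) (fun v => (τ n v, τt n v)) fun v => ((b n v, bt n v), G n v) from
      ⟨ch_anti (Fn.fst _ _), ch_anti (Fn.snd _ _), ch_anti fun _ _ _ _ _ => rfl,
        ch_anti fun _ _ _ _ _ => rfl, ch_anti fun _ _ _ _ _ => rfl, ch_anti fun _ _ _ _ _ => rfl,
        ch_le (fun x _ y _ q => by simp only [Prod.mk.injEq] at q ⊢; tauto)
          fun x _ y _ q => by simp only [K, Prod.mk.injEq] at q ⊢; tauto,
        ch_le (fun x _ y _ q => by simp only [Prod.mk.injEq] at q ⊢; tauto)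
          fun x _ y _ q => by simp only [K, Prod.mk.injEq] at q ⊢; tauto⟩)
  have fZ : Ful P (fun n v => 2 ^ s n * (a n v - a₂ n v)) K m :=
    Le.frac (Le.of4 ful uB uB' uZ (key.mono fun n e => by
      push_cast; linarith [e.1.2.2.1, e.2.2.2.2.1, e.2.2.2.2.2.1])) hs
  have nc := H (P := P) (Θ := K) (u := fun n v => 2 ^ s n * u n v)
    (u' := fun n v => 2 ^ s n * ut n v)
    (g := fun n v => 2 ^ s n * (d₁ n v + d₂ n v * sg (M n) (b n v) (bt n v)))
    (p := fun n v => τ n v - τt n v) (ζ := fun n v => 2 ^ s n * (a n v - a₂ n v))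
    (r := fun n v => b n v - bt n v) (fun n v => (a₂ n v, d₁ n v, d₂ n v))
    (fun n v => (b n v, bt n v, τ n v, τt n v)) hS
    (((hL.pow 2).const_mul hM (C := 5) (by norm_num)).frac hs)
    (ng.side (Eventually.of_forall fun n => Fn.fst _ _))
    (ev.mono fun n e => ⟨fun x hx y hy q => by
        simp only [K, Prod.mk.injEq] at q
        simp only [q, e.1 x hx y hy q.2.1],
      fun x _ y _ q => by simp only [Prod.mk.injEq] at q; simp only [q], fun v hv => by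
        obtain ⟨q1, -, q2, q3, -⟩ := e.2.2.2.2 v hv
        rw [mul_sub]
        constructor <;> nlinarith [sc n q1.symm, hL.1 n, abs_sub (b n v) (bt n v)],
      fun x hx y hy q => by
        have q1 : fl1 (s n) (u n x) = fl1 (s n) (u n y) := congrArg (·.2.1) q
        have q2 := sc n ((e.2.2.2.2 x hx).2.1.trans (q1.trans (e.2.2.2.2 y hy).2.1.symm))
        constructor <;> nlinarith [sc n q1, hL.1 n]⟩)
    (lip.mono (ev.mono fun n e v hv q => by
      obtain ⟨-, -, q2, q3, q4, q5⟩ := e.2.2.2.2 v hv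
      have := num1 (hL.1 n) (by positivity) (p1 n) (pm n) q2 q3 q.1 q.2 (abs_sg _ _ _) q5
      exact ⟨this.1, by nlinarith [hL.1 n], this.2⟩))
    (Le.of_le sym)
    (Le.frac (Le.of6 ful uA uB uσ sm1 sm2 (key.mono fun n e => by
      linarith [e.1.1, e.2.1, e.2.2.2.1, e.2.2.2.2.2.2.1, e.2.2.2.2.2.2.2.1, e.2.2.2.2.2.2.2.2])) hs)
    (Le.frac (Le.of6 ful uA uB uB' sm1 sm2 (key.mono fun n e => by
      linarith [e.1.2.1, e.2.1, e.2.2.2.2.1, e.2.2.2.2.2.1, e.2.2.2.2.2.2.2.1,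
        e.2.2.2.2.2.2.2.2])) hs) fZ
    (Or.inl (Le.frac (Le.of4 ful uσ uA ur (key.mono fun n e => by
      linarith [e.1.2.2.2, e.2.2.1, e.2.2.2.2.2.2.1])) hs))
  obtain ⟨L₂, hL₂, w⟩ := far hS (ev.mono fun n e v hv => by
    rw [mul_sub]; exact sc n (e.2.2.2.2 v hv).1.symm) fZ
  have hk := hS.frac_floor (lt_min hc one_pos) (min_le_right c 1)
  refine ⟨_, fun n => 2 * L n * L₂ n, hk, (hL.const_mul hM one_le_two).mul (hL₂.up hs.1),
    ((nc.and w).and lip).mono (ev.mono fun n e v hv q => ?_)⟩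
  have q1 : Real.exp (-(c * m n)) ≤ 1 / 2 ^ ⌊min c 1 * m n⌋₊ := by
    rw [Real.exp_neg, one_div]
    exact inv_anti₀ (by positivity) ((two_pow_le_exp _).trans (Real.exp_le_exp.2
      ((Nat.floor_le (by positivity)).trans
        (mul_le_mul_of_nonneg_right (min_le_left _ _) (Nat.cast_nonneg _)))))
  have := num2 (hL.1 n) (hL₂.1 n) (by positivity) (by positivity)
    (one_div_le_one_div_of_le (by positivity)
    (pow_le_pow_right₀ one_le_two (hk.1 n))) (q.1.1.trans q1) q.1.2 q.2.1 q.2.2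
    (e.2.2.2.2 v hv).2.2.2.2.2
  rwa [mul_one_div] at this

end WRectA

end Pool.Agent.MP_5168f5_an.R4.Web
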