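import Pool.Agent.MP_5168f5_an.R4.SpecC
import Pool.Agent.MP_5168f5_an.R4.NCp3T
import Pool.Agent.MP_5168f5_an.R4.WRectA

/-! The slopes of the planes do not have small entropy. -/

namespace Pool.Agent.MP_5168f5_an.R4.CI

open H19 H17S H17F Filter NCx Tan
open Web (RV rd G3 sl TFul)

namespace ConUA

theorem half {L : ℝ} {k : ℕ} (h : L ≤ 2 ^ (k / 2)) : L / 2 ^ k ≤ 1 / 2 ^ (k / 2) := by
  rw [div_le_div_iff₀ (by positivity) (by positivity), one_mul]
  refine (mul_le_mul_of_nonneg_right h (by positivity)).trans ?_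
  rw [← pow_add]
  exact pow_le_pow_right₀ one_le_two (by omega)

theorem rnd {k : ℕ} {f e a b L L₀ : ℝ} (h : |f - a - b * e| ≤ 4 * L / 2 ^ k) (he : |e| ≤ L₀)
    (h1 : 1 ≤ L) (h0 : 1 ≤ L₀) : |f - rd k a - rd k b * e| ≤ 6 * (L * L₀) / 2 ^ k := by
  rw [show f - rd k a - rd k b * e = f - a - b * e - (rd k a - a) - (rd k b - b) * e by ring]
  refine (abs_sub _ _).trans ((add_le_add ((abs_sub _ _).trans (add_le_add h (abs_rd_sub _ _)))
    ((abs_mul _ _).trans_le (mul_le_mul (abs_rd_sub _ _) he (abs_nonneg _)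
      (by positivity)))).trans ?_)
  rw [one_div_mul_eq_div, ← add_div, ← add_div]
  exact div_le_div_of_nonneg_right (by nlinarith) (by positivity)

theorem unr {k : ℕ} {a b L : ℝ} (h : |rd k a - rd k b| ≤ L / 2 ^ k) (h1 : L + 2 ≤ 2 ^ (k / 2)) :
    |a - b| ≤ 1 / 2 ^ (k / 2) := by
  refine le_trans ?_ (half h1)
  have h2 := abs_le.1 (abs_rd_sub k a)
  have h3 := abs_le.1 (abs_rd_sub k b)
  rw [add_div, show (2 : ℝ) / 2 ^ k = 2 * (1 / 2 ^ k) by ring]
  rw [abs_le] at h ⊢
  constructor <;> linarith [h.1, h.2, h2.1, h2.2, h3.1, h3.2]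

theorem abs_rd {k : ℕ} {a L : ℝ} (h : |a| ≤ L) : |rd k a| ≤ L + 1 := by
  have h1 : (1 : ℝ) / 2 ^ k ≤ 1 := (div_le_one (by positivity)).2 (one_le_pow₀ one_le_two)
  linarith [abs_sub_abs_le_abs_sub (rd k a) a, abs_rd_sub k a]

end ConUA

open ConUA

theorem rowConU : OfConU := by
  intro rk li Ω K g M mm D η γ T X J k h hX hJ hk lv sm
  have bM := h.big
  have co := h.com X hX
  obtain ⟨L, sL, wL⟩ := co.cellU J (fun n => J n + k n) hJ (lv.mono fun n a => by exact_mod_cast a)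
  obtain ⟨L₀, s0, bx⟩ := h.bx hX
  let a := fun n v => ((mD X D n).U (J n) v).2.1
  let b := fun n v => ((mD X D n).U (J n) v).2.2 0
  have w1 : Whp X.P fun n v => |a n v| ≤ L n ∧ |b n v| ≤ L n ∧
      |(X.G g n).e v 1 - a n v - b n v * (X.G g n).e v 0| ≤ 4 * L n / 2 ^ k n :=
    wL.mono (Eventually.of_forall fun n v _ u => by
      have e := ((kp.iff _ _ _ _ _ _ _ _).1 u).2
      rw [Fin.sum_univ_three, (u.2.1 1).2 (by decide), (u.2.1 2).2 (by decide), zero_mul, zero_mul,
        add_zero, add_zero, pow_add, mul_comm _ ((2 : ℝ) ^ J n),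
        mul_div_mul_left _ _ (by positivity)] at e
      exact ⟨u.1, (u.2.1 0).1, e⟩)
  let φ := fun n v => ((X.G g n).ln v, (mD X D n).S 0 v)
  have me := fun n v => (kg.mem (X n).Q (X n).Q (φ n) (φ n) v (Law.rfl _)).1
  have kX := h.cl.toCl0.fst hX φ
  have s1 := sL.mul s0
  obtain ⟨L₂, s2, w2⟩ := rk K g M 0 η
    (X.ext (fun n => glue (X n).Q (X n).Q (φ n) (φ n)) fun _ => Prod.fst)
    (fun n v => (tu (mD X D n) (J n) (k n) v.1, tu (mD X D n) (J n) (k n) v.2))
    (fun n v => (rd (k n) (a n v.1) - rd (k n) (a n v.2), rd (k n) (b n v.1) - rd (k n) (b n v.2)))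
    (fun n => 12 * (L n * L₀ n) / 2 ^ k n) (by simpa only [one_mul] using h.cls 1 one_pos) kX
    ((sm.add sm).mono (bx.mono fun n u => by
      have l1 := kg.fst (X n).Q (X n).Q (φ n) (φ n)
      have l2 := kg.snd (X n).Q (X n).Q (φ n) (φ n) (Law.rfl _)
      refine (mi_le _ _ _).trans ((ch_anti (l1.fn u.fθ)).trans ((ch_subadd _ _ _).trans
        (add_le_add (l1.ch_id _ _).le ((ch_anti fun x hx y hy e => ?_).trans (l2.ch_id _ _).le))))
      exact (congrArg (·.1.2.2) (me n x hx).2.2).trans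
        (e.trans (congrArg (·.1.2.2) (me n y hy).2.2).symm)))
    (Eventually.of_forall fun n x _ y _ e => by
      obtain ⟨⟨e1, e2⟩, e3, e4⟩ : (_ ∧ _) ∧ _ ∧ _ := by simpa only [tu, Prod.mk.injEq] using e
      simp only [rd, a, b, e1, e2, e3, e4])
    (((whp_fst φ w1).and (whp_snd φ w1)).mono (bx.mono fun n u v hv ⟨c1, c2⟩ => by
      obtain ⟨m1, -, m3⟩ := me n v hv
      have ee : (X.G g n).e v.2 = (X.G g n).e v.1 := congrArg (·.1.2.1) m3
      have b0 := ((u.bd _ m1).1 0).2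
      rw [ee] at c2
      have := (abs_sub _ _).trans (add_le_add (rnd c2.2.2 b0 (sL.1 n) (s0.1 n))
        (rnd c1.2.2 b0 (sL.1 n) (s0.1 n)))
      exact (le_of_eq (by congr 1; ring)).trans (this.trans_eq (by ring))))
  have fk : Frac (fun n => k n / 2) M := ((bM.frac hk).frac_div two_pos).trans hk
  obtain ⟨-, c, hc, fk'⟩ := id fk
  have ps := ((w2.mono (F := fun n v => |a n v.1 - a n v.2| ≤ 1 / 2 ^ (k n / 2) ∧
      |b n v.1 - b n v.2| ≤ 1 / 2 ^ (k n / 2)) ((Sub.le_pow ((s2.mul (s1.const_mul bM (C := 12)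
        (by norm_num))).add (bM.sub one_le_two) bM) hc fk').mono fun n u v _ e => by
    rw [← mul_div_assoc] at e
    exact ⟨unr e.1 u, unr e.2 u⟩)).and (whp_snd φ w1)).pos
  have o0 : OM M fun _ => 0 := ⟨0, Eventually.of_forall fun _ => Nat.zero_le _⟩
  have lab := li X.P (X.G g) mm (fun _ => 0) (fun n => (mD X D n).S 0)
    (fun n => (mD X D n).S (J n)) (fun n => tu (mD X D n) (J n) (k n / 2)) _ 25 h.bigm
    (co.lab _ o0) (co.lab _ hJ).l (co.nest.mono fun n u => by
      induction J n with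
      | zero => exact Fn.rfl _
      | succ j ih => exact ih.trans (u.2 j).1) (by norm_num) ps (by
      filter_upwards [ps.sure, co.nest] with n u w x hx
      obtain ⟨T₁, c1, d1⟩ := Web.WRectA.itv (k n / 2) (a n x.1) zero_le_one
      obtain ⟨T₂, c2, d2⟩ := Web.WRectA.itv (k n / 2) (b n x.1) zero_le_one
      refine ⟨T₁ ×ˢ T₂, ?_, fun y hy e => ?_⟩
      · rw [Finset.card_product, Nat.cast_mul]
        exact (mul_le_mul c1 c2 (by positivity) (by norm_num)).trans_eq (by norm_num)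
      · have e1 : (mD X D n).U (J n) y.1 = (mD X D n).U (J n) x.1 := congrArg (·.2.2.2.1)
          ((w.2 (J n)).2 _ (me n y (u y hy).1).1 _ (me n x (u x hx).1).1 e)
        have e2 := (u y hy).2.1
        rw [show a n y.1 = a n x.1 from congrArg (·.2.1) e1,
          show b n y.1 = b n x.1 from congrArg (·.2.2 0) e1] at e2
        exact Finset.mem_product.2 ⟨d1 _ ((abs_sub_comm _ _).trans_le e2.1),
          d2 _ ((abs_sub_comm _ _).trans_le e2.2)⟩)
  have q := (h.com _ (h.cl.toCl0.cond _ _ kX ps)).optU _ _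
    (fun n v => (rd (k n / 2) (a n v.2), rd (k n / 2) (b n v.2))) _ (fun _ => 0)
    (fun n => k n / 2) M o0 (OM.rfl.mono (Eventually.of_forall fk.1)) OM.rfl lab
    (s1.const_mul bM (C := 6) (by norm_num))
    (Eventually.of_forall fun n x _ y _ e => by
      obtain ⟨-, e1, e2⟩ : _ ∧ _ ∧ _ := by simpa only [tu, Prod.mk.injEq] using e
      simp only [rd, a, b, e1, e2]) (Whp.of_ev (by
      filter_upwards [ps.sure, bx, Sub.le_pow (sL.add (bM.sub le_rfl) bM) one_pos (R := M)
        (Eventually.of_forall fun n => (one_mul _).le)] with n u w z v hv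
      obtain ⟨hv', -, c1, c2, c3⟩ := u v hv
      obtain ⟨m1, -, m3⟩ := me n v hv'
      have ee : (X.G g n).e v.2 = (X.G g n).e v.1 := congrArg (·.1.2.1) m3
      rw [ee] at c3
      refine ⟨⟨(abs_rd c1).trans z, (abs_rd c2).trans z⟩, fun t ht => ?_⟩
      have e := (abs_sub_lt_of_fl1_eq ht).le
      have p := sL.pos n
      have e' := rnd (k := k n / 2) (c3.trans (div_le_div_of_nonneg_left (by positivity)
        (by positivity) (pow_le_pow_right₀ one_le_two (Nat.div_le_self _ _))))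
        ((w.bd _ m1).1 0).2 (sL.1 n) (s0.1 n)
      refine le_trans (le_of_eq ?_) ((mul_le_mul e e' (abs_nonneg _) (by positivity)).trans
        (le_of_eq (by simp)))
      rw [← abs_mul]
      congr 1
      simp only [Geo.lt, Pi.add_apply, Pi.smul_apply, smul_eq_mul]
      ring))
  exact q.false bM hc (fk'.mono fun n u => by simpa using u)

end Pool.Agent.MP_5168f5_an.R4.CI
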