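import Pool.Agent.MP_5168f5_an.R4.SpecT

/-! Tangent systems: the interface. Coordinates are the height `t = g.z`, `x` (index 0),
`u` (index 1) and `f` or `h` (index 2). The unit is `M`; labels with errors `o(mm)` are the ones
for which optimality and fill hold. -/

namespace Pool.Agent.MP_5168f5_an.R4.Tan

open H19 H17S H17F Filter Matrix

/-- `j = O(M)`. -/
def OM (M j : ℕ → ℕ) : Prop := ∃ C : ℕ, ∀ᶠ n in UF, j n ≤ C * M n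

/-- Nested labels, centres of the cells, planes for `u` and hyperplanes for `f`. -/
structure Td (Ω : Type) : Type 1 where
  Λ : Type
  S : ℕ → Ω → Λ
  o : ℕ → Ω → V 3
  U : ℕ → Ω → ℝ × ℝ × V 3
  H : ℕ → Ω → ℝ × ℝ × V 3

/-- Pull back. -/
abbrev Td.pull {Ω Ω' : Type} (D : Td Ω) (f : Ω' → Ω) : Td Ω' :=
  ⟨D.Λ, fun j v => D.S j (f v), fun j v => D.o j (f v), fun j v => D.U j (f v),
    fun j v => D.H j (f v)⟩

/-- The data on a member. -/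
abbrev mD {Ω : ℕ → Type} (X : Mb Ω) (D : ∀ n, Td (Ω n)) : ∀ n, Td (X.W n) := fun n =>
  (D n).pull (X n).ρ

/-- Curved data: the quadratic part `q` and the affine part `l` of the surface, the curve `f(t) = ev 2 cf t`, the quadrics of the
cells and the centres of `f`. -/
structure Tq (Ω : Type) : Type where
  q : Ω → Matrix (Fin 3) (Fin 3) ℝ
  l : Ω → ℝ × V 3
  cf : Ω → ℕ → ℝ
  E : ℕ → Ω → Qd
  fo : ℕ → Ω → ℝ

/-- Pull back. -/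
abbrev Tq.pull {Ω Ω' : Type} (D : Tq Ω) (f : Ω' → Ω) : Tq Ω' :=
  ⟨fun v => D.q (f v), fun v => D.l (f v), fun v => D.cf (f v), fun j v => D.E j (f v),
    fun j v => D.fo j (f v)⟩

/-- The surface. -/
def Tq.sf {Ω : Type} (D : Tq Ω) (ω : Ω) (p : V 3) : ℝ :=
  (D.l ω).1 + (D.l ω).2 ⬝ᵥ p + p ⬝ᵥ D.q ω *ᵥ p

/-- The curved data on a member. -/
abbrev mQ {Ω : ℕ → Type} (X : Mb Ω) (D : ∀ n, Tq (Ω n)) : ∀ n, Tq (X.W n) := fun n =>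
  (D n).pull (X n).ρ

/-- The base line at resolution `2^{-r}`. -/
noncomputable def bl {Ω : Type} (g : Geo 3 Ω) (r : ℕ) (ω : Ω) : ℤ × ℤ :=
  (fl1 r (g.a ω 0), fl1 r (g.e ω 0))

/-- The slopes of the coordinates in `T` at resolution `2^{-r}`. -/
noncomputable def ty {Ω : Type} (g : Geo 3 Ω) (T : Finset (Fin 3)) (r : ℕ) (ω : Ω) : Z 3 :=
  fun i => if i ∈ T then fl1 r (g.e ω i) else 0

/-- `φ` moves by at most `δ` on the window of level `j` of the height `z`. -/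
def Cst (j : ℕ) (z : ℝ) (φ : ℝ → ℝ) (δ : ℝ) : Prop :=
  ∀ t : ℝ, fl1 j t = fl1 j z → |φ t - φ z| ≤ δ

/-- The base point `(t, x, u)`. -/
def bp {Ω : Type} (g : Geo 3 Ω) (t : ℝ) (ω : Ω) : V 3 := ![t, g.lt t ω 0, g.lt t ω 1]

/-- A quadric along the line. -/
def ql {Ω : Type} (g : Geo 3 Ω) (A : Qd) (ω : Ω) (t : ℝ) : ℝ := qf A (hom t (g.lt t ω))

section One

variable {Ω : ℕ → Type} (P : ∀ n, FP (Ω n)) (g : Gs 3 Ω) (M mm : ℕ → ℕ) (D : ∀ n, Td (Ω n))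

/-- The variable `s` is full from depth `wt * a` on, given the label, the height and `x`. -/
def Fill {Λ : ℕ → Type} (lam : ∀ n, Ω n → Λ n) (s : ∀ n, Ω n → ℝ) (wt : ℝ) (a : ℕ → ℕ) : Prop :=
  ∀ q q' r : ℕ → ℕ, OM M q' → OM M r → (∀ᶠ n in UF, wt * a n ≤ q n ∧ q n ≤ q' n) →
    Le M (fun n => (q' n - q n : ℝ) * lg) fun n => ch (P n) (fun ω => fl1 (q' n) (s n ω)) fun ω =>
      (fl1 (q n) (s n ω), fl1 (r n) ((g n).pt ω 0), lam n ω, (g n).zt ω)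

/-- No label of level `j` with data `d` makes `φ` constant on windows to depth more than
`wt * j`; `ok n L B j d ω` restricts the data, `B = 2^{O(M)}`. -/
def NoGain {A : Type} (wt : ℝ) (ok : ∀ n, ℝ → ℝ → ℕ → A → Ω n → Prop)
    (φ : ∀ n, A → Ω n → ℝ → ℝ) : Prop :=
  ∀ (Λ : ℕ → Type) (lam : ∀ n, Ω n → Λ n) (d : ∀ n, Ω n → A) (L : ℕ → ℝ) (j τ k : ℕ → ℕ),
    OM M j → OM M τ → OM M k → Lab P g mm j lam → Sub M L → (∀ᶠ n in UF, Fn (P n) (d n) (lam n)) →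
    Whp P (fun n ω => ok n (L n) (2 ^ k n) (j n) (d n ω) ω ∧
      Cst (j n) ((g n).z ω) (φ n (d n ω) ω) (L n / 2 ^ τ n)) →
    Le M (fun n => τ n) fun n => wt * j n

/-- The cells of level `a` lie near the planes `d a` to depth `wt * a`. -/
def Cell (S : Finset (Fin 3)) (k : Fin 3) (d : ∀ n, ℕ → Ω n → ℝ × ℝ × V 3) (wt : ℝ) : Prop :=
  ∀ a τ : ℕ → ℕ, OM M a → (∀ᶠ n in UF, (τ n : ℝ) ≤ wt * a n) → ∃ L, Sub M L ∧
    Whp P fun n ω => ((g n).pl S k).fit (L n) (d n (a n) ω) ω (a n) (τ n)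

/-- The facts on one member that are common to all modes. `T` is the set of coordinates of
weight one. -/
structure Com (η γ : ℝ) (T : Finset (Fin 3)) : Prop where
  brw : ∀ α β : ℕ → ℕ, OM M β → (∀ᶠ n in UF, α n ≤ β n) →
    Le M (fun n => η * (β n - α n) * lg) fun n => ch (P n) (fun ω => fl1 (β n) ((g n).e ω 0))
      fun ω => (fl1 (α n) ((g n).e ω 0), (g n).y ω)
  fat : ∀ (i : Fin 3) (r : ℕ → ℕ), OM M r → Fat P g mm i r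
  nest : ∀ᶠ n in UF, Fn (P n) ((D n).S 0) (g n).θ ∧ ∀ j,
    Fn (P n) ((D n).S j) ((D n).S (j + 1)) ∧
    Fn (P n) (fun ω => ((g n).θ ω, fl1 j ((g n).z ω), (D n).o j ω, (D n).U j ω, (D n).H j ω))
      ((D n).S j)
  lab : ∀ j : ℕ → ℕ, OM M j → Lab P g mm j fun n => (D n).S (j n)
  ball : ∀ a : ℕ → ℕ, OM M a → ∃ L, Sub M L ∧
    Whp P fun n ω => ∀ i, |(g n).pt ω i - (D n).o (a n) ω i| ≤ L n / 2 ^ a n
  typ : ∀ r : ℕ → ℕ, OM M r →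
    Sm M fun n => mi (P n) (ty (g n) T (r n)) ((D n).S (r n)) (g n).θ
  cellU : Cell P g M {0} 1 (fun n => (D n).U) γ
  optU : NoGain P g M mm γ (fun _ _ B _ (d : ℝ × ℝ) _ => |d.1| ≤ B ∧ |d.2| ≤ B) fun n d ω t =>
    (g n).lt t ω 1 - d.1 * t - d.2 * (g n).lt t ω 0
  fbU : ∀ (Λ : ℕ → Type) (lam : ∀ n, Ω n → Λ n) (a : ℕ → ℕ), OM M a → Lab P g mm a lam →
    Fill P g M lam (fun n ω => (g n).pt ω 1) γ a

/-- The rate of `s` given the height, `x` and `u` is at most `1 - ε₀`. -/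
def NGo (s : ∀ n, Ω n → ℝ) (c ε₀ : ℝ) : Prop :=
  ∀ q q' r : ℕ → ℕ, OM M r → (∀ᶠ n in UF, q n ≤ q' n ∧ c * q' n ≤ r n) →
    Le M (fun n => ch (P n) (fun ω => fl1 (q' n) (s n ω)) fun ω => (fl1 (q n) (s n ω),
      fl1 (r n) ((g n).pt ω 0), fl1 (r n) ((g n).pt ω 1), (g n).zt ω))
      fun n => (1 - ε₀) * (q' n - q n) * lg

/-- Mode II, flat. -/
structure Fl2 (γ d ε₀ : ℝ) : Prop where
  cellH : γ ≤ d → Cell P g M {0, 1} 2 (fun n => (D n).H) d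
  cellP : d ≤ γ → Cell P g M {0} 2 (fun n => (D n).H) d
  conv : ∀ a a' τ : ℕ → ℕ, OM M a' → (∀ᶠ n in UF, a n ≤ a' n ∧ (τ n : ℝ) ≤ (d - γ) * a n) →
    ∃ L, Sub M L ∧ Whp P fun n ω =>
      |((D n).H (a n) ω).2.2 1 - ((D n).H (a' n) ω).2.2 1| ≤ L n / 2 ^ τ n
  optF : NoGain P g M mm d
    (fun _ _ B _ (A : Qd) _ => ∀ i k, |A i k| ≤ B ∧ (i = 4 ∨ k = 4 → A i k = 0))
    fun n A ω t => (g n).lt t ω 2 - ql (g n) A ω t
  fbF : ∀ (Λ : ℕ → Type) (lam : ∀ n, Ω n → Λ n) (G : ∀ n, Ω n → ℝ) (a k : ℕ → ℕ), OM M a →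
    OM M k → Lab P g mm a lam →
    (∀ᶠ n in UF, Fn (P n) (G n) (lam n) ∧ ∀ ω ∈ (P n).S, |G n ω| ≤ 2 ^ k n) →
    Fill P g M lam (fun n ω => (g n).pt ω 2 - G n ω * (g n).pt ω 1) d a
  ng : NGo P g M (fun n ω => (g n).pt ω 2) γ ε₀

/-- Mode I: both coordinates have weight `d`. -/
structure Fl1 (d ε₀ : ℝ) : Prop where
  cellP : Cell P g M {0} 2 (fun n => (D n).H) d
  optH : NoGain P g M mm d (fun _ L B _ (c : V 4) _ => |c 0| ≤ B ∧ |c 1| ≤ B ∧ |c 2| ≤ L ∧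
    |c 3| ≤ L ∧ (1 ≤ L * |c 2| ∨ 1 ≤ L * |c 3|)) fun n c ω t =>
    c 0 * t + c 1 * (g n).lt t ω 0 + c 2 * (g n).lt t ω 1 + c 3 * (g n).lt t ω 2
  fbH : ∀ (Λ : ℕ → Type) (lam : ∀ n, Ω n → Λ n) (μ ν : ∀ n, Ω n → ℝ) (a : ℕ → ℕ) (L : ℕ → ℝ),
    OM M a → Lab P g mm a lam → Sub M L →
    (∀ᶠ n in UF, Fn (P n) (fun ω => (μ n ω, ν n ω)) (lam n) ∧ ∀ ω ∈ (P n).S,
      |μ n ω| ≤ L n ∧ |ν n ω| ≤ L n ∧ (1 ≤ L n * |μ n ω| ∨ 1 ≤ L n * |ν n ω|)) →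
    Fill P g M lam (fun n ω => μ n ω * (g n).pt ω 1 + ν n ω * (g n).pt ω 2) d a
  ng : ∀ q q' r : ℕ → ℕ, OM M r → (∀ᶠ n in UF, q n ≤ q' n ∧ q' n ≤ r n) →
    Le M (fun n => ch (P n) (fun ω => (fl1 (q' n) ((g n).pt ω 1), fl1 (q' n) ((g n).pt ω 2)))
      fun ω => (fl1 (q n) ((g n).pt ω 1), fl1 (q n) ((g n).pt ω 2), fl1 (r n) ((g n).pt ω 0),
        (g n).zt ω)) fun n => (2 - ε₀) * (q' n - q n) * lg

/-- Flat, `u` of weight one (mode II, or mode I with `d = 1`). -/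
structure FlA (d ε₀ : ℝ) : Prop where
  cellH : Cell P g M {0, 1} 2 (fun n => (D n).H) d
  optA : NoGain P g M mm d (fun n L B j (A : Qd) ω =>
    (∀ i k, |A i k| ≤ B ∧ (i = 4 ∨ k = 4 → A i k = 0)) ∧
      ∀ i : Fin 4, |pf A (hom ((g n).z ω) ((g n).pt ω)) (bv i.succ)| ≤ L ∧
        ∀ k : Fin 4, |pf A (bv i.succ) (bv k.succ)| ≤ L * 2 ^ j)
    fun n A ω t => (g n).lt t ω 2 - ql (g n) A ω t
  ng : NGo P g M (fun n ω => (g n).pt ω 2) 1 ε₀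

/-- Mode II, curved: the points lie on `h = sf (t, x, u)`, and `f` is a curve of degree two. -/
structure Cu (Q : ∀ n, Tq (Ω n)) (d ε₀ : ℝ) : Prop where
  fn : ∀ᶠ n in UF, Fn (P n) (fun ω => ((Q n).q ω, (Q n).l ω)) (g n).θ ∧
    Fn (P n) (Q n).cf (g n).ln ∧ (∀ ω ∈ (P n).S, ((Q n).q ω).IsSymm) ∧
    ∀ j, Fn (P n) (fun ω => ((Q n).E j ω, (Q n).fo j ω)) ((D n).S j)
  bd : ∃ L, Sub mm L ∧ ∀ᶠ n in UF, ∀ ω ∈ (P n).S, ∀ i, |(Q n).cf ω i| ≤ L n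
  fat : ∀ r : ℕ → ℕ, OM M r → ∃ L, Sub mm L ∧ ∀ᶠ n in UF,
    Near (P n) (g n).y (fun ω => ev 2 ((Q n).cf ω) ((g n).z ω)) (L n / 2 ^ r n)
  nd : ∃ L, Sub M L ∧ Whp P fun n ω =>
    (∀ i k, |(Q n).q ω i k| ≤ L n) ∧ |((Q n).l ω).1| ≤ L n ∧ (∀ i, |((Q n).l ω).2 i| ≤ L n) ∧
      1 ≤ L n * |((Q n).q ω).det|
  surf : ∀ r : ℕ → ℕ, OM M r → Whp P fun n ω => ∀ t : ℝ, 0 ≤ t → t < 1 →
    |(g n).lt t ω 2 - (Q n).sf ω (bp (g n) t ω)| ≤ 1 / 2 ^ r n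
  cell : ∀ a τ : ℕ → ℕ, OM M a → (∀ᶠ n in UF, (τ n : ℝ) ≤ d * a n) → ∃ L, Sub M L ∧
    Whp P fun n ω => (∀ i k, |(Q n).E (a n) ω i k| ≤ L n * 2 ^ (4 * a n)) ∧
      ∀ t : ℝ, fl1 (a n) t = fl1 (a n) ((g n).z ω) →
        |ev 2 ((Q n).cf ω) t - ql (g n) ((Q n).E (a n) ω) ω t| ≤ L n / 2 ^ τ n
  ball : ∀ a : ℕ → ℕ, OM M a → ∃ L, Sub M L ∧
    Whp P fun n ω => |ev 2 ((Q n).cf ω) ((g n).z ω) - (Q n).fo (a n) ω| ≤ L n / 2 ^ a n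
  optE : NoGain P g M mm d (fun _ _ B _ (A : Qd) _ => ∀ i k, |A i k| ≤ B) fun n A ω t =>
    ev 2 ((Q n).cf ω) t - ql (g n) A ω t
  ng : NGo P g M (fun n ω => ev 2 ((Q n).cf ω) ((g n).z ω)) 5 ε₀

/-- The slope `i` of weight `wt` is broad given the base line, at every level. -/
def Brd (i : Fin 3) (wt ρ : ℝ) : Prop :=
  ∀ a s l r : ℕ → ℕ, OM M a → OM M l → OM M r → (∀ᶠ n in UF, (wt - 1) * a n ≤ s n) → OM M s →
    Le M (fun n => ρ * l n * lg) fun n => ch (P n) (fun ω => fl1 (s n + l n) ((g n).e ω i))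
      fun ω => (fl1 (s n) ((g n).e ω i), bl (g n) (r n) ω, (D n).S (a n) ω, (g n).z ω)

/-- The slope `i` of weight `wt` is determined by the base line. -/
def Nil (i : Fin 3) (wt : ℝ) : Prop :=
  ∀ q r : ℕ → ℕ, OM M r → (∀ᶠ n in UF, q n ≤ r n ∧ (q n : ℝ) ≤ (wt - 1) * r n) →
    Sm M fun n => ch (P n) (fun ω => fl1 (q n) ((g n).e ω i)) fun ω =>
      (bl (g n) (r n) ω, (g n).θ ω)

end One

section Class

variable {Ω : ℕ → Type} (K : Mb Ω → Prop) (g : Gs 3 Ω) (M mm : ℕ → ℕ) (D : ∀ n, Td (Ω n))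

/-- A tangent class. -/
structure Tn (η γ : ℝ) (T : Finset (Fin 3)) : Prop where
  cl : Cl K
  ne : ∃ X, K X
  sm : Sm M fun n => mm n
  low : Cls0 K g mm 0 η
  cls : ∀ C : ℕ, 0 < C → Cls0 K g (fun n => C * M n) 0 η
  one : 1 ≤ γ
  com : ∀ X, K X → Com X.P (X.G g) M mm (mD X D) η γ T

/-- The coordinates of weight one. -/
noncomputable def wT (γ d : ℝ) : Finset (Fin 3) :=
  Finset.univ.filter fun i => (![1, γ, d] : V 3) i = 1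

/-- Mode II, flat. -/
structure T2 (η γ d ε₀ : ℝ) : Prop extends Tn K g M mm D η γ (wT γ d) where
  dge : 1 ≤ d
  e0 : 0 < ε₀ ∧ ε₀ ≤ 1
  fl : ∀ X, K X → Fl2 X.P (X.G g) M mm (mD X D) γ d ε₀

/-- Mode I. -/
structure T1 (η d ε₀ : ℝ) : Prop extends Tn K g M mm D η d (wT d d) where
  e0 : 0 < ε₀ ∧ ε₀ ≤ 1
  fl : ∀ X, K X → Fl1 X.P (X.G g) M mm (mD X D) d ε₀

/-- Flat, `u` of weight one. -/
structure TA (η d ε₀ : ℝ) : Prop extends Tn K g M mm D η 1 {0, 1} where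
  dge : 1 ≤ d
  e0 : 0 < ε₀ ∧ ε₀ ≤ 1
  fl : ∀ X, K X → FlA X.P (X.G g) M mm (mD X D) d ε₀

/-- Mode II, curved. -/
structure TC (Q : ∀ n, Tq (Ω n)) (η d ε₀ : ℝ) : Prop extends Tn K g M mm D η 1 {0, 1} where
  dge : 1 ≤ d
  e0 : 0 < ε₀ ∧ ε₀ ≤ 1
  cu : ∀ X, K X → Cu X.P (X.G g) M mm (mD X D) (mQ X Q) d ε₀

/-- Broad slope on the whole class. -/
def BrK (i : Fin 3) (wt : ℝ) : Prop :=
  ∃ ρ : ℝ, 0 < ρ ∧ ∀ X, K X → Brd X.P (X.G g) M (mD X D) i wt ρ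

/-- Determined slope on the whole class. -/
def NilK (i : Fin 3) (wt : ℝ) : Prop := ∀ X, K X → Nil X.P (X.G g) M i wt

end Class

/-! ### The cases -/

/-- A statement on all classes of mode II, flat. -/
def All2 (c : ℝ → ℝ → Prop) (p : ∀ {Ω : ℕ → Type}, (Mb Ω → Prop) → Gs 3 Ω → (ℕ → ℕ) →
    (∀ n, Td (Ω n)) → ℝ → ℝ → Prop) : Prop :=
  ∀ {Ω : ℕ → Type} (K : Mb Ω → Prop) (g : Gs 3 Ω) (M mm : ℕ → ℕ) (D : ∀ n, Td (Ω n))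
    (η γ d ε₀ : ℝ), T2 K g M mm D η γ d ε₀ → c γ d → p K g M D γ d → False

/-- A statement on all classes of mode I. -/
def All1 (c : ℝ → Prop) (p : ∀ {Ω : ℕ → Type}, (Mb Ω → Prop) → Gs 3 Ω → (ℕ → ℕ) →
    (∀ n, Td (Ω n)) → ℝ → Prop) : Prop :=
  ∀ {Ω : ℕ → Type} (K : Mb Ω → Prop) (g : Gs 3 Ω) (M mm : ℕ → ℕ) (D : ∀ n, Td (Ω n))
    (η d ε₀ : ℝ), T1 K g M mm D η d ε₀ → c d → p K g M D d → False

/-- Case A, flat. -/
def CAF : Prop := ∀ {Ω : ℕ → Type} (K : Mb Ω → Prop) (g : Gs 3 Ω) (M mm : ℕ → ℕ)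
  (D : ∀ n, Td (Ω n)) (η d ε₀ : ℝ), TA K g M mm D η d ε₀ → False
/-- Case A, curved. -/
def CAC : Prop := ∀ {Ω : ℕ → Type} (K : Mb Ω → Prop) (g : Gs 3 Ω) (M mm : ℕ → ℕ)
  (D : ∀ n, Td (Ω n)) (Q : ∀ n, Tq (Ω n)) (η d ε₀ : ℝ), TC K g M mm D Q η d ε₀ → False
/-- Case B1, `u` is the lighter axis. -/
def CB1 : Prop := All2 (fun γ d => 1 < γ ∧ γ < d) fun K g M D γ _ => BrK K g M D 1 γ
/-- Case B2, `u` is the lighter axis. -/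
def CB2 : Prop := All2 (fun γ d => 1 < γ ∧ γ < d) fun K g M _ γ _ => NilK K g M 1 γ
/-- Case B1 for products, `f` is the lighter axis. -/
def CP1 : Prop := All2 (fun γ d => 1 < d ∧ d < γ) fun K g M D _ d => BrK K g M D 2 d
/-- Case B2 for products, `f` is the lighter axis. -/
def CP2 : Prop := All2 (fun γ d => 1 < d ∧ d < γ) fun K g M _ _ d => NilK K g M 2 d
/-- Products with `f` of weight one. -/
def CP0 : Prop := All2 (fun γ d => d = 1 ∧ 1 < γ) fun _ _ _ _ _ _ => True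
/-- Mode I, a broad slope. -/
def CIB : Prop := All1 (fun d => 1 < d) fun K g M D d => BrK K g M D 1 d ∨ BrK K g M D 2 d
/-- Case C. -/
def CIC : Prop := All1 (fun d => 1 < d) fun K g M _ d => NilK K g M 1 d ∧ NilK K g M 2 d

/-- All the cases. -/
structure Cases : Prop where
  af : CAF
  ac : CAC
  b1 : CB1
  b2 : CB2
  p1 : CP1
  p2 : CP2
  p0 : CP0
  ib : CIB
  ic : CIC

end Pool.Agent.MP_5168f5_an.R4.Tan
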