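import Pool.Agent.MP_5168f5_an.R4.SVAll
import Pool.Agent.MP_5168f5_an.R4.SpecTAN

/-! The curve over a base line is determined by the label. -/

namespace Pool.Agent.MP_5168f5_an.R4.Tan

open H19 H17S H17F Filter NCx Matrix

/-- The base line in dimension three at resolution `2^{-r}`. -/
noncomputable def bl2 {Ω : Type} (g : Geo 3 Ω) (r : ℕ) (ω : Ω) : ℤ × ℤ × ℤ × ℤ :=
  (fl1 r (g.a ω 0), fl1 r (g.e ω 0), fl1 r (g.a ω 1), fl1 r (g.e ω 1))

namespace SVT

theorem le_unit {M m : ℕ → ℕ} {f g : ℕ → ℝ} (h : Le M f g) {C : ℝ} (hC : 0 < C)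
    (e : ∀ᶠ n in UF, (M n : ℝ) ≤ C * m n) : Le m f g := fun ε hε => by
  filter_upwards [h (ε / C) (by positivity), e] with n a b
  have := mul_le_mul_of_nonneg_left b (show 0 ≤ ε / C by positivity)
  rw [← mul_assoc, div_mul_cancel₀ _ hC.ne'] at this
  linarith

theorem sub_unit {M m : ℕ → ℕ} {L : ℕ → ℝ} (h : Sub M L) {C : ℝ} (hC : 0 < C)
    (e : ∀ᶠ n in UF, (M n : ℝ) ≤ C * m n) : Sub m L := ⟨h.1, fun ε hε => by
  filter_upwards [h.2 (ε / C) (by positivity), e] with n a b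
  have := mul_le_mul_of_nonneg_left b (show 0 ≤ ε / C by positivity)
  rw [← mul_assoc, div_mul_cancel₀ _ hC.ne'] at this
  exact a.trans (Real.exp_le_exp.2 this)⟩

theorem sm_one {M mm : ℕ → ℕ} (h : Sm M fun n => mm n) : ∀ᶠ n in UF, (mm n : ℝ) ≤ 1 * M n :=
  (h 1 one_pos).mono fun n a => by simpa using a

theorem near_pt {Ω : Type} {P : FP Ω} {g : Geo 3 Ω} {L : ℝ} (h : g.Bx P L) {r : ℕ} {a b : Ω}
    (ha : a ∈ P.S) (ez : g.z a = g.z b) {i : Fin 3} (e1 : fl1 r (g.a a i) = fl1 r (g.a b i))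
    (e2 : fl1 r (g.e a i) = fl1 r (g.e b i)) : |g.pt a i - g.pt b i| ≤ 2 / 2 ^ r := by
  have k : g.pt a i - g.pt b i = g.a a i - g.a b i + g.z a * (g.e a i - g.e b i) := by
    rw [PL1A.pt_eq, PL1A.pt_eq, ez]; ring
  rw [k]
  exact PL1A.abs_lin (PL1A.lt_div le_rfl e1) (PL1A.lt_div le_rfl e2) (h.bd a ha).2.1 (h.bd a ha).2.2

variable {Ω : ℕ → Type} {K : Mb Ω → Prop} {g : Gs 3 Ω} {M mm : ℕ → ℕ} {D : ∀ n, Td (Ω n)}
  {η γ ε₀ c₀ : ℝ} {T : Finset (Fin 3)} {X : Mb Ω} {ξ τ q s r : ℕ → ℕ}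

theorem gen (h : Tn K g M mm D η γ T) (hX : K X) (c : ∀ n, Ω n → V 3) (e0 : 0 < ε₀ ∧ ε₀ ≤ 1)
    (h0 : 0 ≤ c₀) (hN : ∀ X, K X → NGo X.P (X.G g) M
      (fun n v => par (c n ((X n).ρ v)) ((X.G g n).z v)) c₀ ε₀)
    (hf : ∀ᶠ n in UF, Fn (X n).Q (fun v => c n ((X n).ρ v)) (X.G g n).ln)
    (hb : ∃ L, Sub M L ∧ ∀ᶠ n in UF, ∀ v ∈ (X n).Q.S, ∀ i, |c n ((X n).ρ v) i| ≤ L n)
    (hξ : OM M ξ) (hr : OM M r) (hs : Frac s M)
    (he : ∀ᶠ n in UF, q n + s n ≤ τ n ∧ c₀ * τ n ≤ r n ∧ τ n ≤ r n)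
    (hφ : Sm M fun n => ch (X n).Q (fun v => fl1 (τ n) (par (c n ((X n).ρ v)) ((X.G g n).z v)))
      fun v => ((mD X D n).S (ξ n) v, (X.G g n).z v, bl2 (X.G g n) (r n) v)) :
    Sm M fun n => ch (X n).Q (fun v => fl (q n) (c n ((X n).ρ v))) fun v =>
      (bl2 (X.G g n) (r n) v, (mD X D n).S (ξ n) v) := by
  obtain ⟨C, hC⟩ := id hr
  obtain ⟨L, hL, hb⟩ := hb
  obtain ⟨-, κ, κ0, hκ⟩ := id hs
  have B1 := (h.cls 1 one_pos).bs X hX
  simp only [one_mul] at B1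
  have hM := B1.big
  have BC := (h.cls (C + 1) C.succ_pos).bs X hX
  have Bm := h.low.bs X hX
  obtain ⟨L₀, -, hL₀⟩ := B1.bx
  have u1 : ∀ᶠ n in UF, (M n : ℝ) ≤ κ⁻¹ * (q n + s n : ℕ) := hκ.mono fun n a => by
    rw [le_inv_mul_iff₀ κ0]; push_cast; linarith [Nat.cast_nonneg (α := ℝ) (q n)]
  have u2 : ∀ᶠ n in UF, q n + s n ≤ (C + 1) * M n := by
    filter_upwards [he, hC] with n a b
    nlinarith [a.1, a.2.2]
  have u3 : ∀ᶠ n in UF, ((q n + s n : ℕ) : ℝ) ≤ (C + 1 : ℝ) * M n := u2.mono fun n a => by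
    exact_mod_cast a
  have c1 : (0 : ℝ) < C + 1 := by positivity
  have k0 : 0 < κ⁻¹ := by positivity
  have big : Big fun n => q n + s n :=
    tendsto_atTop_mono (fun n => Nat.le_add_left _ _) (hM.frac hs)
  have i1 : Sm M fun n => mi (X n).Q (X.G g n).z (fun v => c n ((X n).ρ v)) fun v =>
      (bl2 (X.G g n) (r n) v, (X.G g n).θ v) := B1.inf.mono (hf.mono fun n a =>
    mi_right (Fn.snd _ _) (fun x _ y _ e => by
      simp only [Geo.ln, Prod.mk.injEq] at e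
      simp only [bl2, e.1.1, e.1.2.1, e.2]) (a.left _))
  have f1 : Fu X.P (fun n => (X.G g n).ln) (fun n => (X.G g n).z) fun n => (C + 1) * M n :=
    ⟨BC.big, hL₀.mono fun n a v hv => (a.bd v hv).2, BC.hgt.of2 BC.inf
      (Eventually.of_forall fun n => by
        have a1 := ch_le_mi (P := (X n).Q) (F := fun v => fl1 ((C + 1) * M n) ((X.G g n).z v))
          (G := (X.G g n).ln) (K := (X.G g n).θ) (K' := (X.G g n).ln) (Fn.fst _ _)
        have a2 : mi (X n).Q (fun v => fl1 ((C + 1) * M n) ((X.G g n).z v)) (X.G g n).ln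
            (X.G g n).θ ≤ mi (X n).Q (X.G g n).z (X.G g n).ln (X.G g n).θ :=
          mi_mono' ((Fn.comp (fl1 _) _).left _)
        linarith)⟩
  have f2 : Le (fun n => q n + s n) (fun n => (q n + s n : ℕ) * lg) fun n =>
      ch (X n).Q (fun v => fl1 (q n + s n) ((X.G g n).z v)) fun v =>
        (bl2 (X.G g n) (r n) v, (X.G g n).θ v) := by
    have a1 := f1.coarse (j := fun n => min (q n + s n) ((C + 1) * M n)) fun n => min_le_right _ _
    refine (le_unit a1 (mul_pos c1 k0) (u1.mono fun n a => ?_)).of_sub (u2.mono fun n a => ?_)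
    · push_cast at a ⊢; nlinarith
    · rw [min_eq_left a]
      refine sub_le_sub_left (ch_anti fun x _ y _ e => ?_) _
      simp only [Geo.ln, Prod.mk.injEq] at e
      simp only [bl2, e.1, e.2.1, e.2.2]
  have ng : NG1 X.P (fun n v => ((X.G g n).z v, bl2 (X.G g n) (r n) v, (X.G g n).θ v))
      (fun n v => par (c n ((X n).ρ v)) ((X.G g n).z v)) (fun n => q n + s n) ε₀ := by
    refine NG1.of_cls (Θ := fun n ω => ((g n).z ω, bl2 (g n) (r n) ω, (g n).θ ω))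
      (u := fun n ω => par (c n ω) ((g n).z ω)) h.cl.toCl0 hX fun Y hY a b hab => ?_
    obtain ⟨L₁, -, hL₁⟩ := (h.low.bs Y hY).bx
    refine le_unit (Le.of2 (hN Y hY a b r hr (he.mono fun n e => ⟨(hab n).1, ?_⟩))
      (hM.sm (2 * Real.log (2 * 2 + 3))) (hL₁.mono fun n x => ?_)) k0 u1
    · have : (b n : ℝ) ≤ τ n := by exact_mod_cast (hab n).2.trans e.1
      exact (mul_le_mul_of_nonneg_left this h0).trans e.2.1
    · have k : ∀ i : Fin 3, i = 0 ∨ i = 1 → ch (Y n).Q (fun v => fl1 (r n) ((Y.G g n).pt v i))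
          (fun v => (fl1 (a n) (par (c n ((Y n).ρ v)) ((Y.G g n).z v)), (Y.G g n).z v,
            bl2 (Y.G g n) (r n) v, (Y.G g n).θ v)) ≤ Real.log (2 * 2 + 3) := fun i hi =>
        ch_near1 zero_le_two fun y hy w _ e => by
          simp only [bl2, Prod.mk.injEq] at e
          rcases hi with rfl | rfl
          exacts [near_pt x hy e.2.1 e.2.2.1.1 e.2.2.1.2.1,
            near_pt x hy e.2.1 e.2.2.1.2.2.1 e.2.2.1.2.2.2]
      have k1 := ch_subadd (P := (Y n).Q) (fun v => fl1 (r n) ((Y.G g n).pt v 0))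
        (fun v => fl1 (r n) ((Y.G g n).pt v 1))
        (fun v => (fl1 (a n) (par (c n ((Y n).ρ v)) ((Y.G g n).z v)), (Y.G g n).z v,
            bl2 (Y.G g n) (r n) v, (Y.G g n).θ v))
      have k2 := ch_drop (P := (Y n).Q)
        (fun v => fl1 (b n) (par (c n ((Y n).ρ v)) ((Y.G g n).z v)))
        (fun v => (fl1 (r n) ((Y.G g n).pt v 0), fl1 (r n) ((Y.G g n).pt v 1)))
        (fun v => (fl1 (a n) (par (c n ((Y n).ρ v)) ((Y.G g n).z v)), (Y.G g n).z v,
            bl2 (Y.G g n) (r n) v, (Y.G g n).θ v))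
      have k3 : ch (Y n).Q (fun v => fl1 (b n) (par (c n ((Y n).ρ v)) ((Y.G g n).z v)))
          (fun v => ((fl1 (r n) ((Y.G g n).pt v 0), fl1 (r n) ((Y.G g n).pt v 1)),
            fl1 (a n) (par (c n ((Y n).ρ v)) ((Y.G g n).z v)), (Y.G g n).z v,
            bl2 (Y.G g n) (r n) v, (Y.G g n).θ v)) ≤
          ch (Y n).Q (fun v => fl1 (b n) (par (c n ((Y n).ρ v)) ((Y.G g n).z v))) fun v =>
            (fl1 (a n) (par (c n ((Y n).ρ v)) ((Y.G g n).z v)), fl1 (r n) ((Y.G g n).pt v 0),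
              fl1 (r n) ((Y.G g n).pt v 1), (Y.G g n).zt v) := ch_anti fun y _ w _ e => by
        simp only [Geo.zt, Prod.mk.injEq] at e ⊢; tauto
      exact (sub_le_sub_right (k2.trans (add_le_add k3 (k1.trans
        (add_le_add (k 0 (Or.inl rfl)) (k 1 (Or.inr rfl)))))) _).trans (le_of_eq (by ring))
  have main := le_unit (pl2 X.P (fun n v => (bl2 (X.G g n) (r n) v, (X.G g n).θ v))
    (fun n v => c n ((X n).ρ v)) (fun n => (X.G g n).z) (fun n => q n + s n) q s L ε₀ big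
    (sub_unit hL k0 u1) (by filter_upwards [hb, hL₀] with n a b v hv using ⟨(b.bd v hv).2, a v hv⟩)
    (le_unit i1 k0 u1) f2 e0.1 e0.2 ⟨fun n => Nat.le_add_left _ _, κ / (C + 1), by positivity, by
      filter_upwards [hκ, u3] with n a b
      rw [div_mul_eq_mul_div, div_le_iff₀ c1]; nlinarith⟩ (fun _ => le_rfl) ng) c1 u3
  have com := h.com X hX
  have i2 := le_unit (kb.inf X.P (X.G g) mm ξ _ Bm (com.lab ξ hξ).h) one_pos (sm_one h.sm)
  refine Le.of3 main hφ i2 ?_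
  filter_upwards [com.nest, hf, he] with n a b e
  have fS := (a.2 (ξ n)).2
  have a1 : mi (X n).Q (fun v => fl (q n) (c n ((X n).ρ v))) (X.G g n).z
      (fun v => (bl2 (X.G g n) (r n) v, (mD X D n).S (ξ n) v)) ≤ mi (X n).Q (X.G g n).z
      (fun v => ((X.G g n).ln v, (mD X D n).S (ξ n) v)) fun v =>
        (fl1 (ξ n) ((X.G g n).z v), (X.G g n).θ v) := by
    rw [mi_symm]
    refine mi_right (fun x hx y hy e => ?_) (fun x hx y hy e => ?_) fun x hx y hy e => ?_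
    · have := fS x hx y hy (Prod.mk.inj e).2
      simp only [Prod.mk.injEq] at this ⊢; tauto
    · simp only [Geo.ln, Prod.mk.injEq] at e
      simp only [bl2, e.1.1.1, e.1.1.2.1, e.1.2]
    · exact congrArg (fl (q n)) (b x hx y hy (Prod.mk.inj (Prod.mk.inj e).1).1)
  have a2 := ch_le_mi (P := (X n).Q) (F := fun v => fl (q n) (c n ((X n).ρ v))) (G := (X.G g n).z)
    (K := fun v => (bl2 (X.G g n) (r n) v, (mD X D n).S (ξ n) v))
    (K' := fun v => ((mD X D n).S (ξ n) v, (X.G g n).z v, bl2 (X.G g n) (r n) v))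
    fun x _ y _ e => by simp only [Prod.mk.injEq] at e ⊢; tauto
  have a3 := ch_drop (P := (X n).Q) (fun v => fl (q n) (c n ((X n).ρ v)))
    (fun v => fl1 (τ n) (par (c n ((X n).ρ v)) ((X.G g n).z v)))
    fun v => ((mD X D n).S (ξ n) v, (X.G g n).z v, bl2 (X.G g n) (r n) v)
  have a4 : ch (X n).Q (fun v => fl (q n) (c n ((X n).ρ v))) (fun v =>
      (fl1 (τ n) (par (c n ((X n).ρ v)) ((X.G g n).z v)), (mD X D n).S (ξ n) v, (X.G g n).z v,
        bl2 (X.G g n) (r n) v)) ≤ ch (X n).Q (fun v => fl (q n) (c n ((X n).ρ v))) fun v =>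
      (fl1 (q n + s n) (par (c n ((X n).ρ v)) ((X.G g n).z v)), fl1 (q n + s n) ((X.G g n).z v),
        bl2 (X.G g n) (r n) v, (X.G g n).θ v) := ch_anti fun x hx y hy e' => by
    simp only [Prod.mk.injEq] at e'
    have := fS x hx y hy e'.2.1
    simp only [Prod.mk.injEq] at this ⊢
    exact ⟨fl1_eq_of_le e.1 e'.1, by rw [e'.2.2.1], e'.2.2.2, this.1⟩
  linarith

/-- A variable that is near a function of `G` with high probability. -/
theorem sm_whp {W Γ : ℕ → Type} {P : ∀ n, FP (W n)} {φ : ∀ n, W n → ℝ} {G : ∀ n, W n → Γ n}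
    {L L' : ℕ → ℝ} (hM : Big M) (hL : Sub M L) (hL' : Sub M L') (hτ : OM M τ)
    {E : ∀ n, W n → Prop} (hE : Whp P E) (hb : ∀ᶠ n in UF, (∀ v ∈ (P n).S, |φ n v| ≤ L' n) ∧
      ∀ a ∈ (P n).S, ∀ b ∈ (P n).S, G n a = G n b → E n a → E n b →
        |φ n a - φ n b| ≤ L n / 2 ^ τ n) :
    Sm M fun n => ch (P n) (fun v => fl1 (τ n) (φ n v)) (G n) := by
  obtain ⟨C, hC⟩ := hτ
  refine ks.fano P E _ G M (fun n => 2 * (L n + 1) + 1) (C + 3) hM
    (((hL.add (hM.sub le_rfl) hM).const_mul hM one_le_two).add (hM.sub le_rfl) hM) hE ?_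
  filter_upwards [hb, hC, hL'.2 1 one_pos, hM.ev 7] with n a b c d
  have p0 := (hL'.pos n).le
  have k1 : (2 : ℝ) ^ τ n ≤ Real.exp (C * M n) :=
    (two_pow_le_exp _).trans (Real.exp_le_exp.2 (by exact_mod_cast b))
  have k2 : 7 ≤ Real.exp (2 * M n) := by linarith [Real.add_one_le_exp (2 * M n : ℝ)]
  have k3 : 1 ≤ L' n * 2 ^ τ n := one_le_mul_of_one_le_of_one_le (hL'.1 n) (one_le_pow₀ one_le_two)
  have k4 := mul_le_mul c k1 (by positivity) (Real.exp_pos _).le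
  have k5 := mul_le_mul k2 k4 (by positivity) (Real.exp_pos _).le
  rw [← Real.exp_add, ← Real.exp_add,
    show 2 * (M n : ℝ) + (1 * M n + C * M n) = (C + 3) * M n by ring] at k5
  have k6 := det_near1 (P := P n) (x := φ n) (G := G n) (j := τ n)
    (L := 2 * L' n * 2 ^ τ n) (by positivity) fun y hy w hw _ => by
      rw [mul_div_cancel_right₀ _ (by positivity)]
      linarith [abs_sub (φ n y) (φ n w), a.1 y hy, a.1 w hw]
  refine ⟨fun x hx => (k6 x hx).imp fun T hT => ⟨by linarith [hT.1], hT.2⟩, fun x _ => ?_⟩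
  by_cases k : ∃ y ∈ (P n).S, G n y = G n x ∧ E n y
  · obtain ⟨y, hy, e1, e2⟩ := k
    refine ⟨Finset.Icc (fl1 (τ n) (φ n y) - (⌈L n⌉₊ : ℕ)) (fl1 (τ n) (φ n y) + (⌈L n⌉₊ : ℕ)), ?_,
      fun w hw e3 e4 => fl1_mem_Icc ((a.2 w hw y hy (e3.trans e1.symm) e4 e2).trans ?_)⟩
    · have k1 := Nat.ceil_lt_add_one (hL.pos n).le
      rw [Int.card_Icc]
      generalize ⌈L n⌉₊ = m at k1 ⊢
      rw [show (fl1 (τ n) (φ n y) + m + 1 - (fl1 (τ n) (φ n y) - m)).toNat = 2 * m + 1 by omega]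
      push_cast; linarith
    · rw [div_eq_mul_inv]
      exact mul_le_mul_of_nonneg_right (Nat.le_ceil _) (by positivity)
  · exact ⟨∅, by have := hL.pos n; simp only [Finset.card_empty, Nat.cast_zero]; positivity,
      fun w hw e3 e4 => absurd ⟨w, hw, e3, e4⟩ k⟩

theorem bil {m : ℕ} {A : Matrix (Fin m) (Fin m) ℝ} {u w : V m} {B a b : ℝ} (hB : 0 ≤ B)
    (ha : 0 ≤ a) (hA : ∀ i k, |A i k| ≤ B) (hu : ∀ i, |u i| ≤ a) (hw : ∀ i, |w i| ≤ b) :
    |u ⬝ᵥ A *ᵥ w| ≤ m * (m * (a * (B * b))) := by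
  simp only [dotProduct, mulVec, Finset.mul_sum]
  refine (Finset.abs_sum_le_sum_abs _ _).trans ((Finset.sum_le_card_nsmul _ _ _ fun i _ =>
    (Finset.abs_sum_le_sum_abs _ _).trans (Finset.sum_le_card_nsmul _ _ (a * (B * b))
      fun k _ => ?_)).trans_eq (by simp))
  rw [abs_mul, abs_mul]
  exact mul_le_mul (hu i) (mul_le_mul (hA i k) (hw k) (abs_nonneg _) hB) (by positivity) ha

theorem quad {m : ℕ} {A : Matrix (Fin m) (Fin m) ℝ} {u w : V m} {B a δ : ℝ} (hB : 0 ≤ B)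
    (ha : 0 ≤ a) (hδ : 0 ≤ δ) (hA : ∀ i k, |A i k| ≤ B) (hu : ∀ i, |u i| ≤ a)
    (hw : ∀ i, |w i| ≤ a) (hd : ∀ i, |u i - w i| ≤ δ) :
    |u ⬝ᵥ A *ᵥ u - w ⬝ᵥ A *ᵥ w| ≤ 2 * m ^ 2 * B * a * δ := by
  have e : u ⬝ᵥ A *ᵥ u - w ⬝ᵥ A *ᵥ w = (u - w) ⬝ᵥ A *ᵥ u + w ⬝ᵥ A *ᵥ (u - w) := by
    simp only [mulVec_sub, sub_dotProduct, dotProduct_sub]; ring
  have h1 := bil (u := u - w) hB hδ hA hd hu
  have h2 := bil (w := u - w) hB ha hA hw hd
  rw [e]
  exact (abs_add_le _ _).trans ((add_le_add h1 h2).trans_eq (by ring))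

theorem abs_pt {Ω : Type} {P : FP Ω} {g : Geo 3 Ω} {L : ℝ} (h : g.Bx P L) {v : Ω} (hv : v ∈ P.S)
    (i : Fin 3) : |g.pt v i| ≤ 2 * L := by
  have k := h.bd v hv
  have k1 : |g.z v * g.e v i| ≤ L := by
    rw [abs_mul, abs_of_nonneg k.2.1]
    exact (mul_le_of_le_one_left (abs_nonneg _) k.2.2.le).trans (k.1 i).2
  exact (abs_add_le _ _).trans ((add_le_add (k.1 i).1 k1).trans_eq (two_mul _).symm)

end SVT

open SVT

variable {Ω : ℕ → Type} {K : Mb Ω → Prop} {g : Gs 3 Ω} {M mm : ℕ → ℕ} {D : ∀ n, Td (Ω n)}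
  {η d ε₀ : ℝ} {X : Mb Ω} {ξ τ q s r : ℕ → ℕ}

/-- The flat case. -/
theorem svF (h : TA K g M mm D η d ε₀) (hX : K X) (hξ : OM M ξ) (hr : OM M r) (hs : Frac s M)
    (he : ∀ᶠ n in UF, (τ n : ℝ) ≤ d * ξ n ∧ q n + s n ≤ τ n ∧ τ n ≤ r n) :
    Sm M fun n => ch (X n).Q (fun v => (fl1 (q n) ((X.G g n).a v 2), fl1 (q n) ((X.G g n).e v 2)))
      fun v => (bl2 (X.G g n) (r n) v, (mD X D n).S (ξ n) v) := by
  have B1 := (h.cls 1 one_pos).bs X hX
  simp only [one_mul] at B1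
  obtain ⟨L₀, hL₀, b0⟩ := B1.bx
  have hM := B1.big
  have pe : ∀ n ω, par ![(g n).a ω 2, (g n).e ω 2, 0] ((g n).z ω) = (g n).pt ω 2 := fun n ω => by
    simp [par, PL1A.pt_eq, mul_comm]
  obtain ⟨L, hL, hW⟩ := (h.fl X hX).cellH ξ τ hξ (he.mono fun _ a => a.1)
  refine (gen h.toTn hX (fun n ω => ![(g n).a ω 2, (g n).e ω 2, 0]) h.e0 zero_le_one
    (fun Y hY => by simp only [pe]; exact (h.fl Y hY).ng)
    (Eventually.of_forall fun n x _ y _ e => by
      simp only [Geo.ln, Prod.mk.injEq] at e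
      simp only [e.1, e.2.1])
    ⟨L₀, hL₀, b0.mono fun n a v hv i => by
      fin_cases i
      exacts [((a.bd v hv).1 2).1, ((a.bd v hv).1 2).2, by simpa using (hL₀.pos n).le]⟩
    hξ hr hs (τ := τ) (he.mono fun n a => ⟨a.2.1, by rw [one_mul]; exact_mod_cast a.2.2, a.2.2⟩)
    ?_).mono (Eventually.of_forall fun n => ch_mono fun x _ y _ e => ?_)
  · simp only [pe]
    refine sm_whp (L := fun n => 6 * L n) (L' := fun n => 2 * L₀ n) hM
      (hL.const_mul hM (by norm_num)) (hL₀.const_mul hM one_le_two)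
      (hr.imp fun C a => by filter_upwards [a, he] with n x y using y.2.2.trans x) hW ?_
    filter_upwards [b0, (h.com X hX).nest, he] with n a b e
    refine ⟨fun v hv => ?_, fun x hx y hy e' ex ey => ?_⟩
    · exact abs_pt a hv 2
    · simp only [bl2, Prod.mk.injEq] at e'
      have fS := (b.2 (ξ n)).2 x hx y hy e'.1
      simp only [Prod.mk.injEq] at fS
      have k0 := near_pt a hx e'.2.1 e'.2.2.1 e'.2.2.2.1
      have k1 := near_pt a hx e'.2.1 e'.2.2.2.2.1 e'.2.2.2.2.2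
      have kx := ex.2.2 _ rfl
      have ky := ey.2.2 _ rfl
      have c0 := (ex.2.1 0).1
      have c1 := (ex.2.1 1).1
      have c2 := (ex.2.1 2).2 (by decide)
      have t1 : (2 : ℝ) / 2 ^ r n ≤ 2 / 2 ^ τ n :=
        div_le_div_of_nonneg_left zero_le_two (by positivity) (pow_le_pow_right₀ one_le_two e.2.2)
      have m0 := mul_le_mul c0 (k0.trans t1) (abs_nonneg _) (hL.pos n).le
      have m1 := mul_le_mul c1 (k1.trans t1) (abs_nonneg _) (hL.pos n).le
      rw [← abs_mul] at m0 m1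
      simp only [Fin.sum_univ_three] at kx ky
      rw [← fS.2.2.2.2, ← e'.2.1] at ky
      rw [c2] at kx ky
      have e1 : 6 * L n / 2 ^ τ n = 2 * (L n / 2 ^ τ n) + 2 * (L n * (2 / 2 ^ τ n)) := by ring
      have e2 : (X.G g n).lt ((X.G g n).z x) y = (X.G g n).pt y := by rw [e'.2.1]; rfl
      rw [e2] at ky
      change |(X.G g n).pt x 2 - _ - _ - (_ * (X.G g n).pt x 0 + _ * (X.G g n).pt x 1 + _)| ≤ _ at kx
      change |(X.G g n).pt x 2 - (X.G g n).pt y 2| ≤ _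
      rw [abs_le] at kx ky m0 m1 ⊢
      constructor <;> linarith [kx.1, kx.2, ky.1, ky.2, m0.1, m0.2, m1.1, m1.2]
  · have := (Prod.mk.inj e).1
    exact Prod.ext (congrFun this 0) (congrFun this 1)

/-- The curved case. -/
theorem svC {Q : ∀ n, Tq (Ω n)} (h : TC K g M mm D Q η d ε₀) (hX : K X) (hξ : OM M ξ)
    (hr : OM M r) (hs : Frac s M) (he : ∀ᶠ n in UF, (τ n : ℝ) ≤ d * ξ n ∧ q n + s n ≤ τ n ∧
      5 * τ n ≤ r n ∧ τ n + 4 * ξ n ≤ r n) :
    Sm M fun n => ch (X n).Q (fun v => (fl1 (q n) ((mQ X Q n).cf v 0),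
      fl1 (q n) ((mQ X Q n).cf v 1), fl1 (q n) ((mQ X Q n).cf v 2)))
      fun v => (bl2 (X.G g n) (r n) v, (mD X D n).S (ξ n) v) := by
  have B1 := (h.cls 1 one_pos).bs X hX
  simp only [one_mul] at B1
  obtain ⟨L₀, hL₀, b0⟩ := B1.bx
  have hM := B1.big
  have pe : ∀ (c : ℕ → ℝ) (t : ℝ), par ![c 0, c 1, c 2] t = ev 2 c t := fun c t => by
    simp [par, ev, Finset.sum_range_succ]
  have cu := h.cu X hX
  obtain ⟨L, hL, hW⟩ := cu.cell ξ τ hξ (he.mono fun _ a => a.1)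
  obtain ⟨L₁, hL₁, b1⟩ := cu.bd
  replace hL₁ := sub_unit hL₁ one_pos (sm_one h.sm)
  obtain ⟨L₂, hL₂, b2⟩ := cu.nd
  refine (gen h.toTn hX (fun n ω => ![(Q n).cf ω 0, (Q n).cf ω 1, (Q n).cf ω 2]) h.e0
    (c₀ := 5) (by norm_num) (fun Y hY => by simp only [pe]; exact (h.cu Y hY).ng)
    (cu.fn.mono fun n a x hx y hy e => by
      have := a.2.1 x hx y hy e
      simp only [show (Q n).cf ((X n).ρ x) = (Q n).cf ((X n).ρ y) from this])
    ⟨L₁, hL₁, b1.mono fun n a v hv i => by fin_cases i <;> exact a v hv _⟩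
    hξ hr hs (τ := τ) (he.mono fun n a => ⟨a.2.1, by exact_mod_cast a.2.2.1, by omega⟩)
    ?_).mono (Eventually.of_forall fun n => ch_mono fun x _ y _ e => ?_)
  · simp only [pe]
    refine sm_whp (L := fun n => 2 * L n + 10000 * (L n * L₀ n ^ 2 * L₂ n))
      (L' := fun n => 3 * L₁ n) hM ((hL.const_mul hM one_le_two).add
        (((hL.mul (hL₀.pow 2)).mul hL₂).const_mul hM (by norm_num)) hM)
      (hL₁.const_mul hM (by norm_num))
      (hr.imp fun C a => by filter_upwards [a, he] with n x y; omega)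
      ((hW.and b2).and (cu.surf r hr)) ?_
    filter_upwards [b0, b1, (h.com X hX).nest, cu.fn, he] with n a a1 b f e
    refine ⟨fun v hv => ?_, fun x hx y hy e' ex ey => ?_⟩
    · have k := (a.bd v hv).2
      have k2 : (X.G g n).z v ^ 2 ≤ 1 := by nlinarith [k.1, k.2]
      have m1 := mul_le_mul (a1 v hv 1) ((abs_of_nonneg k.1).trans_le k.2.le) (abs_nonneg _)
        (hL₁.pos n).le
      have m2 := mul_le_mul (a1 v hv 2) ((abs_of_nonneg (sq_nonneg _)).trans_le k2) (abs_nonneg _)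
        (hL₁.pos n).le
      rw [← abs_mul, mul_one] at m1 m2
      rw [← pe]
      exact (abs_add_three _ _ _).trans
        ((add_le_add (add_le_add (a1 v hv 0) m1) m2).trans_eq (by ring))
    · simp only [bl2, Prod.mk.injEq] at e'
      have fS := (b.2 (ξ n)).2 x hx y hy e'.1
      simp only [Prod.mk.injEq] at fS
      have fE := (Prod.mk.inj (f.2.2.2 (ξ n) x hx y hy e'.1)).1
      have fq := Prod.mk.inj (f.1 x hx y hy fS.1)
      have k0 := near_pt a hx e'.2.1 e'.2.2.1 e'.2.2.2.1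
      have k1 := near_pt a hx e'.2.1 e'.2.2.2.2.1 e'.2.2.2.2.2
      have zx := (a.bd x hx).2
      have zy := (a.bd y hy).2
      have l0 := hL₀.1 n
      have l2 := hL₂.1 n
      have d0 : (0 : ℝ) < 1 / 2 ^ r n := by positivity
      have e2 : (2 : ℝ) / 2 ^ r n = 2 * (1 / 2 ^ r n) := by ring
      have sx := ex.2 _ zx.1 zx.2
      have sy := ey.2 _ zy.1 zy.2
      have bx : ∀ v ∈ (X n).Q.S, ∀ i, |bp (X.G g n) ((X.G g n).z v) v i| ≤ 2 * L₀ n :=
        fun v hv i => by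
          fin_cases i
          · exact ((abs_of_nonneg (a.bd v hv).2.1).trans_le (a.bd v hv).2.2.le).trans (by linarith)
          · exact abs_pt a hv 0
          · exact abs_pt a hv 1
      have bd : ∀ i, |bp (X.G g n) ((X.G g n).z x) x i - bp (X.G g n) ((X.G g n).z y) y i| ≤
          2 / 2 ^ r n := fun i => by
        fin_cases i
        · exact (congrArg _ (sub_eq_zero.2 e'.2.1)).trans_le (by rw [abs_zero]; positivity)
        · exact k0
        · exact k1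
      have q1 := quad (by linarith) (by linarith) (by positivity) ex.1.2.1 (bx x hx) (bx y hy) bd
      have q2 := bil (A := 1) (B := 1) (w := bp (X.G g n) ((X.G g n).z x) x -
        bp (X.G g n) ((X.G g n).z y) y) zero_le_one (by linarith)
        (fun i k => by rw [Matrix.one_apply]; split_ifs <;> simp) ex.1.2.2.2.1 bd
      rw [one_mulVec, dotProduct_sub] at q2
      have k2 : |(X.G g n).pt x 2 - (X.G g n).pt y 2| ≤ 100 * (L₀ n * L₂ n) * (1 / 2 ^ r n) := by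
        simp only [Tq.sf] at sx sy
        rw [← fq.1, ← fq.2] at sy
        change |(X.G g n).pt x 2 - _| ≤ _ at sx
        change |(X.G g n).pt y 2 - _| ≤ _ at sy
        have n1 := mul_le_mul_of_nonneg_right (one_le_mul_of_one_le_of_one_le l0 l2) d0.le
        have n2 := mul_le_mul_of_nonneg_right
          (le_mul_of_one_le_left (zero_le_one.trans l2) l0) d0.le
        rw [e2] at q1 q2
        push_cast at q1 q2
        rw [abs_le] at sx sy q1 q2 ⊢
        constructor <;> linarith [sx.1, sx.2, sy.1, sy.2, q1.1, q1.2, q2.1, q2.2]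
      have hb : ∀ v ∈ (X n).Q.S, ∀ i, |hom ((X.G g n).z v) ((X.G g n).pt v) i| ≤ 2 * L₀ n :=
        fun v hv i => by
          fin_cases i
          · exact abs_one.trans_le (by linarith)
          exacts [bx v hv 0, abs_pt a hv 0, abs_pt a hv 1, abs_pt a hv 2]
      have n3 : 2 / 2 ^ r n ≤ 100 * (L₀ n * L₂ n) * (1 / 2 ^ r n) := by
        rw [e2]
        exact mul_le_mul_of_nonneg_right
          (by linarith [one_le_mul_of_one_le_of_one_le l0 l2]) d0.le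
      have q3 := quad (B := L n * 2 ^ (4 * ξ n)) (by have := hL.pos n; positivity) (by linarith)
        (δ := 100 * (L₀ n * L₂ n) * (1 / 2 ^ r n)) (by positivity) ex.1.1.1 (hb x hx) (hb y hy)
        fun i => by
          fin_cases i
          · exact (congrArg _ (sub_self _)).trans_le (by rw [abs_zero]; positivity)
          exacts [(bd 0).trans n3, k0.trans n3, k1.trans n3, k2]
      have kx := ex.1.1.2 _ rfl
      have ky := ey.1.1.2 _ rfl
      rw [← fE] at ky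
      have t1 : (2 : ℝ) ^ (4 * ξ n) * (1 / 2 ^ r n) ≤ 1 / 2 ^ τ n := by
        rw [mul_one_div, div_le_div_iff₀ (by positivity) (by positivity), one_mul, ← pow_add]
        exact pow_le_pow_right₀ one_le_two (by omega)
      have t2 := mul_le_mul_of_nonneg_left t1
        (show 0 ≤ 10000 * (L n * L₀ n ^ 2 * L₂ n) by have := hL.pos n; positivity)
      have e3 : (2 * L n + 10000 * (L n * L₀ n ^ 2 * L₂ n)) / 2 ^ τ n =
        2 * (L n / 2 ^ τ n) + 10000 * (L n * L₀ n ^ 2 * L₂ n) * (1 / 2 ^ τ n) := by ring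
      push_cast at q3
      simp only [ql, qf] at kx ky
      change |_ - hom _ ((X.G g n).pt x) ⬝ᵥ _ *ᵥ hom _ ((X.G g n).pt x)| ≤ _ at kx
      change |_ - hom _ ((X.G g n).pt y) ⬝ᵥ _ *ᵥ hom _ ((X.G g n).pt y)| ≤ _ at ky
      rw [e3]
      rw [abs_le] at kx ky q3 ⊢
      constructor <;> linarith [kx.1, kx.2, ky.1, ky.2, q3.1, q3.2]
  · have := (Prod.mk.inj e).1
    exact Prod.ext (congrFun this 0) (Prod.ext (congrFun this 1) (congrFun this 2))

end Pool.Agent.MP_5168f5_an.R4.Tan
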