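import Pool.Agent.MP_5168f5_an.R4.Defs

/-! Quadrics as shapes. Homogeneous coordinates are `(1, t, x, y₀, y₁)`. -/

namespace Pool.Agent.MP_5168f5_an.R4

open H19 H17S H17F Matrix

/-- A quadric. -/
abbrev Qd : Type := Matrix (Fin 5) (Fin 5) ℝ

/-- The quadratic form. -/
def qf (A : Qd) (Y : V 5) : ℝ := Y ⬝ᵥ A *ᵥ Y

/-- The polar form: the derivative of `qf A` at `Y` in the direction `W`. -/
def pf (A : Qd) (Y W : V 5) : ℝ := Y ⬝ᵥ A *ᵥ W + W ⬝ᵥ A *ᵥ Y

/-- Homogeneous coordinates of the point `(t, y)`. -/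
def hom (t : ℝ) (y : V 3) : V 5 := ![1, t, y 0, y 1, y 2]

/-- Homogeneous coordinates of the vector `(s, w)`. -/
def vec (s : ℝ) (w : V 3) : V 5 := ![0, s, w 0, w 1, w 2]

/-- The basis vectors. -/
def bv (i : Fin 5) : V 5 := Pi.single i 1

/-- Quadrics with Hessian at most `2^τ / 64`, gradient at most `L` on the window, and gradient
in the last two coordinates at least one at the point. -/
noncomputable def Geo.qd {Ω : Type} (g : Geo 3 Ω) : Shp Ω :=
  ⟨Qd, fun L A ω j τ => (∀ i k : Fin 4, |pf A (bv i.succ) (bv k.succ)| ≤ 2 ^ τ / 64) ∧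
    (1 ≤ |pf A (hom (g.z ω) (g.pt ω)) (bv 3)| ∨ 1 ≤ |pf A (hom (g.z ω) (g.pt ω)) (bv 4)|) ∧
    ∀ t : ℝ, fl1 j t = fl1 j (g.z ω) → |qf A (hom t (g.lt t ω))| ≤ L / 2 ^ τ ∧
      ∀ i : Fin 4, |pf A (hom t (g.lt t ω)) (bv i.succ)| ≤ L⟩

variable (A : Qd) (Y W U : V 5) (c : ℝ)

theorem pf_comm : pf A Y W = pf A W Y := add_comm _ _

theorem pf_self : pf A Y Y = 2 * qf A Y := (two_mul _).symm

theorem pf_add_left : pf A (Y + W) U = pf A Y U + pf A W U := by
  simp only [pf, mulVec_add, add_dotProduct, dotProduct_add]; ring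

theorem pf_add_right : pf A U (Y + W) = pf A U Y + pf A U W := by
  simp only [pf, mulVec_add, add_dotProduct, dotProduct_add]; ring

theorem pf_smul_left : pf A (c • Y) W = c * pf A Y W := by
  simp only [pf, mulVec_smul, smul_dotProduct, dotProduct_smul, smul_eq_mul]; ring

theorem pf_smul_right : pf A Y (c • W) = c * pf A Y W := by
  simp only [pf, mulVec_smul, smul_dotProduct, dotProduct_smul, smul_eq_mul]; ring

theorem pf_sub_left : pf A (Y - W) U = pf A Y U - pf A W U := by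
  simp only [pf, mulVec_sub, sub_dotProduct, dotProduct_sub]; ring

theorem pf_sub_right : pf A U (Y - W) = pf A U Y - pf A U W := by
  simp only [pf, mulVec_sub, sub_dotProduct, dotProduct_sub]; ring

theorem qf_add : qf A (Y + W) = qf A Y + pf A Y W + qf A W := by
  simp only [qf, pf, mulVec_add, add_dotProduct, dotProduct_add]; ring

theorem qf_smul : qf A (c • Y) = c ^ 2 * qf A Y := by
  simp only [qf, mulVec_smul, smul_dotProduct, dotProduct_smul, smul_eq_mul]; ring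

theorem qf_sub_qf : qf A Y - qf A W = (pf A Y (Y - W) + pf A W (Y - W)) / 2 := by
  simp only [pf_sub_right, pf_self, pf_comm A W Y]; ring

theorem hom_add (t s : ℝ) (y w : V 3) : hom (t + s) (y + w) = hom t y + vec s w := by
  funext i; fin_cases i <;> simp [hom, vec]

theorem vec_eq (s : ℝ) (w : V 3) :
    vec s w = s • bv 1 + w 0 • bv 2 + w 1 • bv 3 + w 2 • bv 4 := by
  funext i; fin_cases i <;> simp [vec, bv]

theorem hom_lt {Ω : Type} (g : Geo 3 Ω) (t s : ℝ) (ω : Ω) :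
    hom (t + s) (g.lt (t + s) ω) = hom t (g.lt t ω) + s • vec 1 (g.e ω) := by
  funext i; fin_cases i <;> simp [hom, vec, Geo.lt] <;> ring

theorem qd_ok {Ω : Type} (g : Geo 3 Ω) : g.qd.OK g where
  monoL := fun L L' A ω j τ h hf => ⟨hf.1, hf.2.1, fun t ht =>
    ⟨(hf.2.2 t ht).1.trans (div_le_div_of_nonneg_right h (by positivity)),
      fun i => ((hf.2.2 t ht).2 i).trans h⟩⟩
  monoj := fun L A ω j j' τ h hf => ⟨hf.1, hf.2.1, fun t ht => hf.2.2 t (fl1_eq_of_le h ht)⟩
  core := fun L A ω ω' j τ h hf => by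
    simp only [Geo.core, Geo.ln, Prod.mk.injEq] at h
    obtain ⟨⟨h1, h2, -⟩, h3, -⟩ := h
    simpa only [Geo.qd, Geo.pt, Geo.lt, h1, h2, h3] using hf

end Pool.Agent.MP_5168f5_an.R4
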