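import Pool.Agent.MP_5168f5_an.R4.SpecK
import Pool.Agent.MP_5168f5_an.R4.DefQ

/-! Kakeya sets in four dimensions: normal form of the final labels. -/

namespace Pool.Agent.MP_5168f5_an.R4

open H19 H17S H17F Filter

section Defs

variable {N : ℕ} {Ω Λ : ℕ → Type} (P : ∀ n, FP (Ω n)) (g : Gs N Ω) (m j : ℕ → ℕ)
  (lam : ∀ n, Ω n → Λ n)

/-- The height is full in the window of level `j` given the line and `lam`. -/
def WFul : Prop := Le m (fun n => m n * lg) fun n =>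
  ch (P n) (fun ω => fl1 (j n + m n) ((g n).z ω)) fun ω =>
    (fl1 (j n) ((g n).z ω), (g n).ln ω, lam n ω)

/-- Copies given `lam` and the point have separated slopes. -/
def SepL (i : Fin N) : Prop := ∃ L, Sub m L ∧
  Whp (fun n => glue (P n) (P n) (fun ω => (lam n ω, (g n).y ω)) fun ω => (lam n ω, (g n).y ω))
    fun n v => 1 ≤ L n * |(g n).e v.1 i - (g n).e v.2 i|

/-- A label of level `j` in the unit `m`, with the facts on the system stated directly. -/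
structure NL (i : Fin N) : Prop where
  big : Big m
  bx : ∃ L, Sub m L ∧ ∀ᶠ n in UF, (g n).Bx (P n) (L n)
  lab : Lab P g m j lam
  hgt : WFul P g m j lam
  sep : SepL P g m lam i

end Defs

/-- The point of the system in homogeneous coordinates. -/
def Geo.hp {Ω : Type} (g : Geo 3 Ω) (ω : Ω) : V 5 := hom (g.z ω) (g.pt ω)

/-- The size of the gradient in the last two coordinates. -/
noncomputable def gy (A : Qd) (Y : V 5) : ℝ := max |pf A Y (bv 3)| |pf A Y (bv 4)|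

/-- Labels on members of a broad class. -/
def NLof : Prop := ∀ {N : ℕ} {Ω Λ : ℕ → Type} (K : Mb Ω → Prop) (g : Gs N Ω) (M m j : ℕ → ℕ)
  (i : Fin N) (η : ℝ) (X : Mb Ω) (lam : ∀ n, (X n).W → Λ n), Cls0 K g M i η → K X →
  Lab X.P (X.G g) M j lam → Frac m M → (∀ n, j n + m n ≤ M n) → NL X.P (X.G g) m j lam i

/-- Both copies lie in an event of bounded below probability. -/
def PosC : Prop := ∀ {Ω Φ : ℕ → Type} (P : ∀ n, FP (Ω n)) (φ : ∀ n, Ω n → Φ n)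
  (E : ∀ n, Ω n → Prop), Pos P E →
  Pos (fun n => glue (P n) (P n) (φ n) (φ n)) fun n v => E n v.1 ∧ E n v.2

/-- A polynomial in the position inside the window is not small at the height. -/
def WinFit : Prop := ∀ (d : ℕ) {N : ℕ} {Ω Λ : ℕ → Type} (P : ∀ n, FP (Ω n)) (g : Gs N Ω)
  (m j : ℕ → ℕ) (lam : ∀ n, Ω n → Λ n) (C : ∀ n, Ω n → Fin (d + 1) → ℝ), Big m →
  WFul P g m j lam →
  (∀ᶠ n in UF, Fn (P n) (C n) fun ω => (fl1 (j n) ((g n).z ω), (g n).ln ω, lam n ω)) →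
  ∃ L, Sub m L ∧ Whp P fun n ω => ∀ i,
    |C n ω i| ≤ L n * |∑ i, C n ω i * Int.fract (2 ^ j n * (g n).z ω) ^ (i : ℕ)|

/-- The same for a quadratic polynomial of the height. -/
def WinT : Prop := ∀ {N : ℕ} {Ω Λ : ℕ → Type} (P : ∀ n, FP (Ω n)) (g : Gs N Ω)
  (m j : ℕ → ℕ) (lam : ∀ n, Ω n → Λ n) (a b c : ∀ n, Ω n → ℝ), Big m → WFul P g m j lam →
  (∀ᶠ n in UF, Fn (P n) (fun ω => (a n ω, b n ω, c n ω)) fun ω =>
    (fl1 (j n) ((g n).z ω), (g n).ln ω, lam n ω)) →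
  ∃ L, Sub m L ∧ Whp P fun n ω =>
    |b n ω + 2 * c n ω * (g n).z ω| ≤
      L n * 2 ^ j n * |a n ω + b n ω * (g n).z ω + c n ω * (g n).z ω ^ 2| ∧
    |c n ω| ≤ L n * 4 ^ j n * |a n ω + b n ω * (g n).z ω + c n ω * (g n).z ω ^ 2| ∧
    ∀ t : ℝ, fl1 (j n) t = fl1 (j n) ((g n).z ω) → |a n ω + b n ω * t + c n ω * t ^ 2| ≤
      L n * |a n ω + b n ω * (g n).z ω + c n ω * (g n).z ω ^ 2|

/-- The same for a quadric and its gradient along the line. -/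
def WinQ : Prop := ∀ {Ω Λ : ℕ → Type} (P : ∀ n, FP (Ω n)) (g : Gs 3 Ω)
  (m j : ℕ → ℕ) (lam : ∀ n, Ω n → Λ n) (A : ∀ n, Ω n → Qd), Big m → WFul P g m j lam →
  (∀ᶠ n in UF, Fn (P n) (A n) fun ω => (fl1 (j n) ((g n).z ω), (g n).ln ω, lam n ω)) →
  ∃ L, Sub m L ∧ Whp P fun n ω =>
    |pf (A n ω) ((g n).hp ω) (vec 1 ((g n).e ω))| ≤ L n * 2 ^ j n * |qf (A n ω) ((g n).hp ω)| ∧
    ∀ t : ℝ, fl1 (j n) t = fl1 (j n) ((g n).z ω) →
      |qf (A n ω) (hom t ((g n).lt t ω))| ≤ L n * |qf (A n ω) ((g n).hp ω)| ∧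
      ∀ i, |pf (A n ω) (hom t ((g n).lt t ω)) (bv i)| ≤ L n * |pf (A n ω) ((g n).hp ω) (bv i)|

/-- A hyperplane in projective form, supported on the coordinates in `T`, is a graph over the
height and all but one of these coordinates; the broad coordinate is not the missing one. -/
def NormP : Prop := ∀ {N : ℕ} {Ω Λ : ℕ → Type} (P : ∀ n, FP (Ω n)) (g : Gs N Ω)
  (m j τ : ℕ → ℕ) (lam : ∀ n, Ω n → Λ n) (i₀ : Fin N) (T : Finset (Fin N))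
  (d : ∀ n, Ω n → ℝ × ℝ × V N) (L : ℕ → ℝ), NL P g m j lam i₀ → Sub m L →
  (∀ᶠ n in UF, j n + m n ≤ τ n ∧ Fn (P n) (d n) (lam n)) →
  Pos P (fun n ω => (∀ i, i ∉ T → (d n ω).2.2 i = 0) ∧
    ∃ c, (c = (d n ω).2.1 ∨ ∃ i, c = (d n ω).2.2 i) ∧ c ≠ 0 ∧
      |(d n ω).1 + (d n ω).2.1 * (g n).z ω + ∑ i, (d n ω).2.2 i * (g n).pt ω i| ≤
        L n * |c| / 2 ^ τ n) →
  ∃ k ∈ T, k ≠ i₀ ∧ ∃ E : ∀ n, Ω n → Prop, Pos P E ∧
    Thin (fun n => cE (P n) (E n)) g m (fun n => (g n).pl (T.erase k) k) j τ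

/-- A quadric that fits at the point, relative to the size of its gradient. -/
def NormQ : Prop := ∀ {Ω Λ : ℕ → Type} (P : ∀ n, FP (Ω n)) (g : Gs 3 Ω)
  (m j τ p k : ℕ → ℕ) (lam : ∀ n, Ω n → Λ n) (A : ∀ n, Ω n → Qd) (L : ℕ → ℝ),
  NL P g m j lam 0 → Sub m L → Sub m (fun n => k n + 1) → (∀ i, Fat P g m i p) →
  (∀ᶠ n in UF, j n ≤ τ n ∧ τ n ≤ p n ∧ Fn (P n) (A n) (lam n)) →
  Pos P (fun n ω => 1 ≤ 2 ^ k n * gy (A n ω) ((g n).hp ω) ∧ gy (A n ω) ((g n).hp ω) ≤ 2 ^ k n ∧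
    |qf (A n ω) ((g n).hp ω)| ≤ L n * gy (A n ω) ((g n).hp ω) / 2 ^ τ n ∧
    ∀ i l : Fin 4, 128 * |pf (A n ω) (bv i.succ) (bv l.succ)| ≤
      gy (A n ω) ((g n).hp ω) * 2 ^ τ n) →
  ∃ E : ∀ n, Ω n → Prop, Pos P E ∧ Thin (fun n => cE (P n) (E n)) g m (fun n => (g n).qd) j τ

/-- The same with an arbitrary constant `B` and a loss `k` in the thickness. -/
def NormQB : Prop := ∀ {Ω Λ : ℕ → Type} (P : ∀ n, FP (Ω n)) (g : Gs 3 Ω)
  (m j τ p k h : ℕ → ℕ) (lam : ∀ n, Ω n → Λ n) (A : ∀ n, Ω n → Qd) (B : ℕ → ℝ),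
  NL P g m j lam 0 → Sub m (fun n => k n + 1) → (∀ i, Fat P g m i p) →
  (∀ᶠ n in UF, 128 * B n ^ 2 ≤ 2 ^ k n ∧ h n + 2 * k n ≤ τ n ∧ j n + k n ≤ τ n ∧
    τ n ≤ p n + k n ∧ Fn (P n) (A n) (lam n)) →
  Pos P (fun n ω => 1 ≤ B n * gy (A n ω) ((g n).hp ω) ∧ gy (A n ω) ((g n).hp ω) ≤ B n ∧
    |qf (A n ω) ((g n).hp ω)| ≤ B n / 2 ^ τ n ∧
    ∀ i l : Fin 4, |pf (A n ω) (bv i.succ) (bv l.succ)| ≤ 2 ^ h n) →
  ∃ E : ∀ n, Ω n → Prop, Pos P E ∧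
    Thin (fun n => cE (P n) (E n)) g m (fun n => (g n).qd) j fun n => τ n - k n

def OfNLof : Prop := KB → Sep → NLof
def OfWinT : Prop := WinFit → WinT
def OfWinQ : Prop := WinT → WinQ
def OfNormP : Prop := PosC → WinT → KP → NormP
def OfNormQ : Prop := PosC → WinQ → KB → NormQ
def OfNormQB : Prop := NormQ → NormQB

end Pool.Agent.MP_5168f5_an.R4
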