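import Pool.Agent.MP_5168f5_an.R4.NCp3T
import Pool.Agent.MP_5168f5_an.R4.SpecN
import Pool.Agent.MP_5168f5_an.R4.ACop
import Pool.Agent.MP_5168f5_an.R4.SVTan

/-! Tools for tangent classes: joins of labels, full windows, pairs among three copies. -/

namespace Pool.Agent.MP_5168f5_an.R4

open H19 H17S H17F Filter Web

/-- A label glued along the data of the system can be joined with another label. -/
theorem Lab.join {N : ℕ} {Ω Λ Λ' : ℕ → Type} {P : ∀ n, FP (Ω n)} {g : Gs N Ω} {m j j' : ℕ → ℕ}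
    {lam : ∀ n, Ω n → Λ n} {S : ∀ n, Ω n → Λ' n} (h : Lab P g m j lam) (h' : Lab P g m j' S)
    (e : ∀ᶠ n in UF, j n ≤ j' n) :
    Lab (fun n => glue (P n) (P n) (g n).core (g n).core) (fun n => (g n).pull Prod.fst) m j'
      fun n v => (S n v.1, lam n v.2) := by
  refine ⟨(h'.h.add h.h).mono (e.mono fun n a => ?_), (h'.l.add h.l).mono
    (Eventually.of_forall fun n => ?_)⟩
  · have k := kf2.join (P n) (g n).core (S n) (lam n) (g n).core ((g n).win (j' n))
      ((g n).win (j n)) (Fn.fst _ _) fun x _ y _ d => by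
        simp only [Geo.core, Prod.mk.injEq] at d
        simp only [Geo.win, d.1, d.2.1]
    rw [ch_zero (F := (g n).win (j n)) fun x _ y _ d => by
      simp only [Geo.win, Prod.mk.injEq] at d ⊢
      exact ⟨d.2.1, fl1_eq_of_le a d.2.2⟩, add_zero] at k
    exact k
  · have k := kf2.join (P n) (g n).core (S n) (lam n) (g n).core (g n).y (g n).y (Fn.fst _ _)
      fun x _ y _ d => congrArg (·.2.2) d
    rw [ch_zero (Fn.snd _ _), add_zero] at k
    exact k

/-- Any two of three copies are a pair of copies. -/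
theorem whp_pair {Ω Λ : ℕ → Type} {P : ∀ n, FP (Ω n)} (lam : ∀ n, Ω n → Λ n)
    {F : ∀ n, Ω n → Ω n → Prop}
    (h : Whp (fun n => glue (P n) (P n) (lam n) (lam n)) fun n v => F n v.1 v.2) {i l : Fin 3}
    (hil : i ≠ l) : Whp (fun n => G3 (P n) (lam n)) fun n v => F n (sl i v) (sl l v) :=
  fun ε hε => (whp_g12 lam h ε hε).mono fun n a => by
    have i1 : ∀ {a b : Fin 3}, a ≠ b → Function.Injective ![a, b] := fun {a b} c x y d => by
      fin_cases x <;> fin_cases y <;> simp_all [eq_comm]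
    have k := (rowKCop.law (P n) (lam n) _ _ _ _
      (rowKCop.sub (P n) (lam n) _ _ _ (i1 hil) (rowKCop.g3 (P n) (lam n)))
      (rowKCop.sub (P n) (lam n) _ _ _ (i1 (by decide : (0 : Fin 3) ≠ 1))
        (rowKCop.g3 (P n) (lam n)))).pb_eq fun u => ¬F n (u 0) (u 1)
    exact k.trans_le a

theorem whp_sl {Ω Λ : ℕ → Type} {P : ∀ n, FP (Ω n)} (lam : ∀ n, Ω n → Λ n)
    {E : ∀ n, Ω n → Prop} (h : Whp P E) (i : Fin 3) :
    Whp (fun n => G3 (P n) (lam n)) fun n v => E n (sl i v) := by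
  fin_cases i
  exacts [whp_g12 lam (whp_fst lam h), whp_g12 lam (whp_snd lam h), whp_g3 lam h]

theorem mem_g3 {Ω T : Type} {P : FP Ω} {S : Ω → T} {v : (Ω × Ω) × Ω} (hv : v ∈ (G3 P S).S)
    (i : Fin 3) : sl i v ∈ P.S ∧ S (sl i v) = S v.1.1 := by
  obtain ⟨a, b, c⟩ := (kg.mem _ _ _ _ v (law_g2 P S)).1 hv
  obtain ⟨a1, a2, a3⟩ := (kg.mem _ _ _ _ v.1 (Law.rfl _)).1 a
  fin_cases i
  exacts [⟨a1, rfl⟩, ⟨a2, a3⟩, ⟨b, c⟩]

/-- An event of the first of three copies. -/
theorem whp_of_g3 {Ω Λ : ℕ → Type} {P : ∀ n, FP (Ω n)} (lam : ∀ n, Ω n → Λ n)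
    {E : ∀ n, Ω n → Prop} (h : Whp (fun n => G3 (P n) (lam n)) fun n v => E n v.1.1) : Whp P E :=
  fun ε hε => (h ε hε).mono fun n a => by
    have k := ((kg.fst (glue (P n) (P n) (lam n) (lam n)) (P n) (fun v => lam n v.1)
      (lam n)).comp Prod.fst).trans (kg.fst (P n) (P n) (lam n) (lam n))
    exact (k.pb_eq fun ω => ¬E n ω).symm.trans_le a

namespace Tan

variable {Ω : ℕ → Type} {K : Mb Ω → Prop} {g : Gs 3 Ω} {D : ∀ n, Td (Ω n)} {η γ : ℝ}
  {T : Finset (Fin 3)} {X : Mb Ω} {M mm : ℕ → ℕ}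

/-- The height is full in the window of a kernel. -/
theorem Tn.wful (h : Tn K g M mm D η γ T) (hX : K X) {Λ : ℕ → Type} {lam : ∀ n, (X n).W → Λ n}
    {j : ℕ → ℕ} (hj : OM M j) (hl : Hk X.P (X.G g) mm j lam) : WFul X.P (X.G g) M j lam := by
  obtain ⟨C, hC⟩ := hj
  have e : ∀ᶠ n in UF, min (j n) (C * M n) = j n := hC.mono fun n a => min_eq_left a
  have k := kb.hgt X.P (X.G g) (fun n => (C + 1) * M n) (fun n => min (j n) (C * M n))
    (fun n => min (j n) (C * M n)) (fun n => min (j n) (C * M n) + M n) lam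
    ((h.cls (C + 1) C.succ_pos).bs X hX) ((Le.up (le_up h.sm hl) fun n =>
      Nat.le_mul_of_pos_left _ C.succ_pos).of_sub (e.mono fun n a => by simp only [a, le_refl]))
    fun n => ⟨le_rfl, Nat.le_add_right _ _, by
      rw [add_mul, one_mul]; exact Nat.add_le_add_right (min_le_right _ _) _⟩
  refine (SVT.le_unit k (C := C + 1) (by positivity)
    (Eventually.of_forall fun n => by push_cast; exact le_rfl)).of_sub (e.mono fun n a => ?_)
  rw [a]; push_cast; linarith

theorem fn_nest {W Λ : Type} {P : FP W} {S : ℕ → W → Λ} (h : ∀ j, Fn P (S j) (S (j + 1)))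
    {a b : ℕ} (e : a ≤ b) : Fn P (S a) (S b) := by
  induction e with
  | refl => exact Fn.rfl _
  | step _ ih => exact ih.trans (h _)

end Tan

end Pool.Agent.MP_5168f5_an.R4
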