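import Pool.Agent.MP_5168f5_an.R4.SpecC
import Pool.Agent.MP_5168f5_an.R4.P0Tool

/-! Three copies with separated slopes. -/

namespace Pool.Agent.MP_5168f5_an.R4.CI

open H19 H17S H17F Filter NCx Tan
open Web (RV rd G3 sl TFul)

theorem F3AA.law_sl {Ω T : Type} (P : FP Ω) (S : Ω → T) (i : Fin 3) :
    Law (G3 P S) (sl i) P id := by
  fin_cases i
  exacts [((kg.fst (glue P P S S) P (fun v => S v.1) S).comp Prod.fst).trans (kg.fst P P S S),
    ((kg.fst (glue P P S S) P (fun v => S v.1) S).comp Prod.snd).trans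
      (kg.snd P P S S (Law.rfl _)), law_g3 P S]

theorem rowF3A : OfF3A := fun hT Ω P g D M J L h hS => by
  have hp := hS.pos
  have dn : ∀ i, K31.DnS (Q3 P g D J L) (fun _ => sl i) P := fun i =>
    (K31.dnS_cE hp).trans (K31.dnS_law (Eventually.of_forall fun n => F3AA.law_sl _ _ i))
  have in3 : ∀ᶠ n in UF, ∀ v ∈ (Q3 P g D J L n).S, In3 (g n) (D n) (J n) (M n) (L n) v ∧
      ∀ i, (g n).θ (sl i v) = (g n).θ v.1.1 ∧ (D n).S (J n) (sl i v) = (D n).S (J n) v.1.1 := by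
    filter_upwards [hp.sure, h.su, h.fn] with n a b c v hv
    obtain ⟨a1, a2⟩ := a v hv
    have k := fun i => c _ (mem_g3 a1 i).1 _ (mem_g3 a1 0).1 (mem_g3 a1 i).2
    simp only [Prod.mk.injEq] at k
    exact ⟨⟨h.frac.1 n, a2, fun i => ⟨b _ (mem_g3 a1 i).1, (k i).2⟩⟩,
      fun i => ⟨(k i).1, (mem_g3 a1 i).2⟩⟩
  obtain ⟨t1, t2, -⟩ := hT P (fun n => (g n).θ) (fun n => (D n).S (J n))
    (fun n ω => fl1 (J n) ((g n).e ω 0)) M
    (h.fn.mono fun n a => (Fn.fst _ _).trans a) h.typ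
  have ti : ∀ i, Sm M fun n => mi (Q3 P g D J L n) (ty3 (g n) (J n)) (sl i) fun v =>
      (fl1 (J n) ((g n).e (sl i v) 0), (g n).θ (sl i v)) := fun i =>
    (sm_mi_cE h.big hp (t2 i)).mono (in3.mono fun n a => by
      refine mi_left (fun x hx y hy e => ?_) (fun x hx y hy e => ?_) fun x _ y _ e =>
        Prod.ext (congrArg (·.1) e) (congrArg (·.2.2) e)
      · rwa [← ((a x hx).2 i).1, ← ((a y hy).2 i).1]
      · rw [((a x hx).2 i).1, ((a y hy).2 i).1]; exact congrArg (·.2) e)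
  refine ⟨dn, in3, (sm_mi_cE h.big hp t1).mono (Eventually.of_forall fun n =>
    mi_mono' fun _ _ _ _ e => e), ti, fun i => ?_⟩
  have k := (dn i).full h.big (N := fun n => 2 ^ J n)
    (h.su.mono fun n a => det_box (fun ω hω => (a ω hω).box.2) (J n) (g n).ln)
    (by simpa only [log_two_pow] using h.hgt)
  refine (k.add (ti i)).of_sub (Eventually.of_forall fun n => ?_)
  have k1 := ch_le_mi (P := Q3 P g D J L n) (F := fun v => fl1 (J n) ((g n).z (sl i v)))
    (G := ty3 (g n) (J n)) (K := fun v => (g n).ln (sl i v))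
    (K' := fun v => ((g n).ln (sl i v), ty3 (g n) (J n) v)) ((Fn.snd _ _).pair (Fn.fst _ _))
  have k2 := mi_right (P := Q3 P g D J L n) (F := ty3 (g n) (J n)) (G := sl i)
    (G' := fun v => fl1 (J n) ((g n).z (sl i v))) (K' := fun v => (g n).ln (sl i v))
    (K := fun v => (fl1 (J n) ((g n).e (sl i v) 0), (g n).θ (sl i v)))
    (Fn.comp (fun u : V 3 × V 3 × (g n).T => (fl1 (J n) (u.2.1 0), u.2.2)) _)
    ((Fn.comp (g n).ln _).left _) ((Fn.comp (fun ω => fl1 (J n) ((g n).z ω)) _).left _)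
  rw [mi_symm] at k1
  rw [log_two_pow]
  linarith

end Pool.Agent.MP_5168f5_an.R4.CI
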