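import Pool.Agent.MP_5168f5_an.R4.SpecC

/-! A grain can be taken as a kernel of the line. -/

namespace Pool.Agent.MP_5168f5_an.R4.CI

open H19 H17S H17F Filter NCx Tan
open Web (RV rd G3 sl TFul)

namespace GrEA

variable {W Λ T α β : Type}

theorem sh (Q : FP W) (l : W → Λ) {v : W × W} (hv : v ∈ (glue Q Q l l).S) :
    v.2 ∈ Q.S ∧ l v.1 = l v.2 :=
  have h := (kg.mem Q Q l l v (Law.rfl _)).1 hv
  ⟨h.2.1, h.2.2.symm⟩

theorem law (Q : FP W) (l : W → Λ) :
    Law (glue Q Q l l) (fun v => (l v.1, v.2)) Q fun w => (l w, w) :=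
  ((kg.snd Q Q l l (Law.rfl _)).comp fun w => (l w, w)).ext fun _ hv => Prod.ext (sh Q l hv).2 rfl

/-- The offsets read from the line. -/
def fa' (x : V 3 × V 3 × T) : V 2 := ![x.1 1, x.1 2]

/-- The coarse line read from the line. -/
noncomputable def tl' (J M : ℕ) (x : V 3 × V 3 × T) : (ℤ × ℤ) × Z 2 × T :=
  ((fl1 J (x.1 0), fl1 J (x.2.1 0)), fl M ![x.2.1 1, x.2.1 2], x.2.2)

theorem crude (Q : FP W) (x : W → ℝ) (A : W → α) (B : W → β) {s lam : ℕ} (h : s ≤ lam) :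
    ch Q (fun v => fl1 lam (x v)) (fun v => (A v, fl1 s (x v), B v)) ≤ (lam - s : ℕ) * lg := by
  obtain ⟨d, rfl⟩ := Nat.exists_eq_add_of_le h
  have := ch_fl1_refine (P := Q) (x := x) (G := fun v => (A v, fl1 s (x v), B v))
    (j := fun _ => s) (i := fun _ => d) (fun _ _ _ _ _ => rfl) (fun _ _ _ _ _ => rfl)
    fun _ _ _ _ e => congrArg (·.2.1) e
  rwa [FP.E_const, ← Nat.add_sub_cancel_left s d, Nat.add_sub_cancel' h] at this

end GrEA

open GrEA in
theorem rowGrE : GrE := by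
  intro Ω K g M J ε X hK hX hM hε h
  unfold NG2 at h
  push Not at h
  obtain ⟨W, Λ, Q, ρ, κ, s, lam, i, β, h1, h2, h3, h4, h5⟩ := h
  obtain ⟨δ, hδ, h6⟩ := not_Le h5
  refine ⟨X.ext (fun n => glue (Q n) (Q n) (fun w => (X.G g n).ln (ρ n w))
    fun w => (X.G g n).ln (ρ n w)) fun n v => ρ n v.1, Λ, fun n v => κ n v.2, fun n v => β n v.2,
    s, lam, i, hK.dn hX ((K31.dnS_law (Eventually.of_forall fun n => kg.fst _ _ _ _)).trans h1),
    hε.le, h2, ⟨fun n => (Nat.sub_le _ _).trans (h2 n).2, δ / ε, by positivity,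
      h6.mono fun n a => ?_⟩, fun n => (kf2.copy (Q n) _ (fun w => (X n).ρ (ρ n w)) (κ n) _
        (Fn.rfl _)).le, h3.mono (Eventually.of_forall fun n => le_of_eq ?_),
    h4.mono fun n a => ⟨fun u hu v hv e => ?_, fun v hv => a.2 _ (sh _ _ hv).1⟩,
    Le.of_ev (h6.mono fun n a => ?_)⟩
  · have b := a.trans_le (crude _ _ _ _ (h2 n).1)
    have c := mul_le_mul_of_nonneg_left lg_lt_one.le
      (show 0 ≤ ε * (lam n - s n : ℕ) by positivity)
    rw [← Nat.cast_sub (h2 n).1] at b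
    rw [div_mul_eq_mul_div, div_le_iff₀ hε]
    linarith
  · have k := law (Q n) fun w => (X.G g n).ln (ρ n w)
    exact congrArg₂ (· - ·) (k.ch_eq (fun x => κ n x.2) fun x => tl' (J n) (M n) x.1)
      (k.ch_eq (fun x => κ n x.2) fun x => (x.1, tl' (J n) (M n) x.1))
  · obtain ⟨e1, e2⟩ := Prod.mk.inj e
    refine a.1 _ (sh _ _ hu).1 _ (sh _ _ hv).1 (Prod.ext e1 ?_)
    exact (congrArg (tl' (J n) (M n)) (sh _ _ hu).2).symm.trans
      (e2.trans (congrArg (tl' (J n) (M n)) (sh _ _ hv).2))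
  · have k := (law (Q n) fun w => (X.G g n).ln (ρ n w)).ch_eq (fun x => fl1 (lam n) (fa' x.1 i))
      fun x => (fl1 (lam n) (fa' x.1 (i + 1) - β n x.2 * fa' x.1 i), fl1 (s n) (fa' x.1 i),
        fl1 (s n) (fa' x.1 (i + 1)), κ n x.2, tl' (J n) (M n) x.1)
    exact ((le_add_of_nonneg_right (by positivity)).trans a.le).trans_eq k.symm

end Pool.Agent.MP_5168f5_an.R4.CI
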