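import Pool.Agent.MP_5168f5_an.R4.SpecC
import Pool.Agent.MP_5168f5_an.R4.NCp3T

/-! There is no grain. -/

namespace Pool.Agent.MP_5168f5_an.R4.CI

open H19 H17S H17F Filter NCx Tan
open Web (RV rd G3 sl TFul)

namespace GrFA

theorem nest {Ω Λ : Type} {P : FP Ω} {S : ℕ → Ω → Λ} (h : ∀ j, Fn P (S j) (S (j + 1)))
    {i j : ℕ} (e : i ≤ j) : Fn P (S i) (S j) := by
  induction e with
  | refl => exact Fn.rfl _
  | step _ ih => exact ih.trans (h _)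

theorem lvl {d : ℝ} (hd : 1 < d) (s : ℕ) : ⌈s / d⌉₊ ≤ s ∧ (s : ℝ) ≤ d * ⌈s / d⌉₊ ∧
    (⌈d * ⌈s / d⌉₊⌉₊ : ℝ) ≤ s + (d + 1) := by
  have h0 : 0 < d := by linarith
  have h1 : (s : ℝ) / d ≤ ⌈s / d⌉₊ := Nat.le_ceil _
  have h2 : (⌈s / d⌉₊ : ℝ) < s / d + 1 := Nat.ceil_lt_add_one (by positivity)
  have h3 : (⌈d * ⌈s / d⌉₊⌉₊ : ℝ) < d * ⌈s / d⌉₊ + 1 := Nat.ceil_lt_add_one (by positivity)
  have h4 : d * ((s : ℝ) / d + 1) = s + d := by field_simp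
  refine ⟨Nat.ceil_le.2 (div_le_self (by positivity) hd.le), ?_, ?_⟩
  · rwa [div_le_iff₀' h0] at h1
  · linarith [mul_le_mul_of_nonneg_left h2.le h0.le]

theorem fn_pair {Ω α β γ : Type} {P : FP Ω} {S : Ω → γ} {F : Ω → α} {G : Ω → β} (h : Fn P F G) :
    Fn (glue P P S S) (fun v => (F v.1, F v.2)) fun v => (G v.1, G v.2) := fun u hu v hv e => by
  obtain ⟨a1, a2, -⟩ := (kg.mem _ _ _ _ u (Law.rfl _)).1 hu
  obtain ⟨b1, b2, -⟩ := (kg.mem _ _ _ _ v (Law.rfl _)).1 hv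
  exact Prod.ext (h _ a1 _ b1 (congrArg Prod.fst e)) (h _ a2 _ b2 (congrArg Prod.snd e))

theorem det3 {W Ω : Type} {Q : FP (W × Ω)} {β : W → ℝ} {β' : Ω → ℝ} {h : ℕ}
    (e : ∀ v ∈ Q.S, |β v.1 - β' v.2| ≤ 1 / 2 ^ h) :
    Det Q (fun v => fl1 h (β v.1)) Prod.snd 3 := fun a _ =>
  ⟨Finset.Icc (fl1 h (β' a.2) - (1 : ℕ)) (fl1 h (β' a.2) + (1 : ℕ)), by
    rw [Int.card_Icc, show (fl1 h (β' a.2) + (1 : ℕ) + 1 - (fl1 h (β' a.2) - (1 : ℕ))) = 3 by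
      push_cast; ring]
    norm_num, fun b hb k => by
    rw [← k]
    exact fl1_mem_Icc (by simpa using e b hb)⟩

theorem abs_rd {h : ℕ} {x : ℝ} (e : |x| ≤ 1) : |rd h x| ≤ 2 := by
  have h1 := abs_rd_sub h x
  have h2 : (1 : ℝ) / 2 ^ h ≤ 1 := by
    rw [div_le_one (by positivity)]
    exact one_le_pow₀ one_le_two
  linarith [abs_sub_abs_le_abs_sub (rd h x) x]

theorem fn_gp {Ω Λ : Type} {g : Geo 3 Ω} {D : Td Ω} {J M : ℕ} {κ : Ω → Λ} {u v : Ω}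
    (e : gp g D J M κ u = gp g D J M κ v) :
    (fl1 J (g.pt u 0), g.zt u) = (fl1 J (g.pt v 0), g.zt v) := by
  simp only [gp, Prod.mk.injEq] at e ⊢
  exact e.2.2.2

theorem fn_tl {Ω : Type} {g : Geo 3 Ω} {J M : ℕ} {u v : Ω} (e : g.ln u = g.ln v) :
    tl g J M u = tl g J M v := by
  simp only [Geo.ln, Prod.mk.injEq] at e
  simp only [tl, bl, fe, e.1, e.2.1, e.2.2]

end GrFA

open GrFA in
theorem rowGrF : OfGrF := by
  intro hPz hSy hGP hPG hTw hOn hLP Ω K g M mm D η d ε₀ C L X hT hX Λ κ β s lam i hG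
  have hM := Tn.big hT.toTn
  obtain ⟨e0, e1⟩ := hT.e0
  have oJ : OM M fun n => C * M n := OM.mul C OM.rfl
  have mJ : ∀ n, M n ≤ C * M n := fun n => Nat.le_mul_of_pos_left _ hT.lev.1
  have sl : ∀ n, (0 : ℝ) ≤ lam n - s n := fun n => sub_nonneg.2 (by exact_mod_cast (hG.lv n).1)
  obtain ⟨L', pg⟩ := hGP X.P (X.G g) (mD X D) M (fun n => C * M n) L
    (hPz K g M mm D η d ε₀ C L X hT hX L hT.sub fun _ => le_rfl) Ω Λ (fun n => (X n).ρ) κ β s lam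
    i _ hG fun n => Fn.comp (fun ω => ((g n).core ω, (D n).S (C * M n) ω)) (X n).ρ
  obtain ⟨h, hh, hh'⟩ : ∃ h : ℕ → ℕ, (∀ n, (h n : ℝ) ≤ ε₀ / 2 * (lam n - s n)) ∧
      ∀ n, ε₀ / 2 * (lam n - s n : ℝ) < h n + 1 :=
    ⟨fun n => ⌊ε₀ / 2 * (lam n - s n : ℝ)⌋₊, fun n => Nat.floor_le (by have := sl n; positivity),
      fun n => Nat.lt_floor_add_one _⟩
  have sh : ∀ n, s n + h n ≤ lam n := fun n => by
    have h1 := hh n
    have h2 := sl n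
    exact_mod_cast (show (s n : ℝ) + h n ≤ lam n by nlinarith)
  have lJ : ∀ n, lam n ≤ C * M n := fun n => (hG.lv n).2.trans (mJ n)
  have kp := hT.cl.toCl0.fst hX fun n => (mD X D n).S (C * M n)
  have cl := hTw _ _ _ _ _ _ _ M s lam h L' _ ε₀ pg e0 (by nlinarith) hh fun E hE => by
    have t := (hSy K g M mm D η d ε₀ C L _ hT (hT.cl.cond _ E kp hE) i).ng s lam _ oJ
      (Eventually.of_forall fun n => ⟨(hG.lv n).1, lJ n⟩)
    refine Le.trans (Le.of_le fun n => ?_) t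
    refine ch_anti fun u _ v _ e => ?_
    obtain ⟨a1, e⟩ := Prod.ext_iff.1 e
    obtain ⟨a2, e⟩ := Prod.ext_iff.1 e
    exact Prod.ext a1 (Prod.ext a2 (fn_gp (g := X.G g n) e))
  have hE : Pos (fun n => glue (X n).Q (X n).Q ((mD X D n).S (C * M n)) ((mD X D n).S (C * M n)))
      fun n v => |β n v.1 - β n v.2| ≤ 1 / 2 ^ h n := ⟨1 / 2, by norm_num, cl⟩
  have g1 := (hPG _ _ _ _ _ _ _ M s lam L' _ _ pg ((pg.alg.and cl).mono fun n a =>
    ⟨(Fn.comp (fun w : ℝ × ℝ => |w.1 - w.2| ≤ 1 / 2 ^ h n) _).trans (fn_pair a.1.2.2.1),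
      a.2⟩)).1
  have sy := hSy K g M mm D η d ε₀ C L _ hT (hT.cl.cond _ _ kp hE) i
  have lv := fun n => lvl hT.gt (s n)
  have sJ : ∀ n, s n ≤ C * M n := fun n => (hG.lv n).1.trans (lJ n)
  have oa : OM M fun n => ⌈s n / d⌉₊ :=
    oJ.mono (Eventually.of_forall fun n => (lv n).1.trans (sJ n))
  have cm := hT.com X hX
  have lb := hLP X.P (X.G g) mm _ _ (fun n => (mD X D n).S (C * M n)) (fun n v => fl1 (h n) (β n v))
    _ 3 (Tn.bigm hT.toTn) (cm.lab _ oa) (cm.lab _ oJ).l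
    (cm.nest.mono fun n a => nest (fun j => (a.2 j).1) ((lv n).1.trans (sJ n)))
    (Le.of_ev (hG.fn.mono fun n a => ((mi_mono' (F' := κ n) fun u hu v hv e => by
      obtain ⟨a1, e⟩ := Prod.ext_iff.1 e
      exact congrArg (fl1 (h n)) (a.1 u hu v hv (Prod.ext a1 (fn_tl (g := X.G g n) e)))).trans
      (mi_mono (G' := (X n).ρ) ((Fn.comp
        (fun ω => ((g n).core ω, (D n).S ⌈s n / d⌉₊ ω)) (X n).ρ).left _))).trans (hG.ker n)))
    (by norm_num) hE (hE.sure.mono fun n a => det3 fun v hv => (a v hv).2)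
  have b1 : ∀ᶠ n in UF, ∀ v ∈ (cE (glue (X n).Q (X n).Q ((mD X D n).S (C * M n))
      ((mD X D n).S (C * M n))) fun v => |β n v.1 - β n v.2| ≤ 1 / 2 ^ h n).S, |β n v.1| ≤ 1 :=
    hG.fn.mono fun n a v hv => a.2 _ ((kg.mem _ _ _ _ v (Law.rfl _)).1 (cE_sub hv)).1
  obtain ⟨-, c, hc, fr⟩ := hG.frac
  have fr' : ∀ᶠ n in UF, c * M n ≤ (lam n : ℝ) - s n := fr.mono fun n a => by
    rwa [Nat.cast_sub (hG.lv n).1] at a
  have big : ∀ B : ℝ, ∀ᶠ n in UF, B ≤ ε₀ * (lam n - s n : ℝ) := fun B =>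
    ((hM.ev (B / (ε₀ * c))).and fr').mono fun n a => by
      have h1 := a.1
      rw [div_le_iff₀ (by positivity)] at h1
      nlinarith [mul_le_mul_of_nonneg_left a.2 e0.le]
  have fi := sy.fil _ _ (fun n v => rd (h n) (β n v.1)) _ oa lb
    (b1.mono fun n a => ⟨fun u _ v _ e => congrArg (fun z : ℤ => (z : ℝ) / 2 ^ h n)
      (congrArg Prod.snd e), fun v hv => abs_rd (a v hv)⟩)
    (fun n => ⌈d * ⌈s n / d⌉₊⌉₊) (fun n => s n + h n) _
    (oJ.mono (Eventually.of_forall fun n => (sh n).trans (lJ n))) oJ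
    ((big (2 * (d + 2))).mono fun n a => ⟨Nat.le_ceil _, by
      have h1 := (lv n).2.2
      have h2 := hh' n
      exact_mod_cast (show (⌈d * ⌈s n / d⌉₊⌉₊ : ℝ) ≤ s n + h n by linarith)⟩)
  have ce := sy.cel _ s _ oa oJ (Eventually.of_forall fun n => ⟨(lv n).2.1, sJ n⟩)
  have ng := sy.ng s (fun n => s n + h n) _ oJ
    (Eventually.of_forall fun n => ⟨Nat.le_add_right _ _, (sh n).trans (lJ n)⟩)
  have fin := hOn (fun n => cE (glue (X n).Q (X n).Q ((mD X D n).S (C * M n))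
      ((mD X D n).S (C * M n))) fun v => |β n v.1 - β n v.2| ≤ 1 / 2 ^ h n)
    (fun n v => (mD X D n).S ⌈s n / d⌉₊ v.1)
    (fun n v => (fl1 (C * M n) ((X.G g n).pt v.1 0), (X.G g n).zt v.1))
    (fun n v => (gp (X.G g n) (mD X D n) (C * M n) (M n) (κ n) v.1,
      gp (X.G g n) (mD X D n) (C * M n) (M n) (κ n) v.2)) (fun n v => fv (X.G g n) v.1 i)
    (fun n v => fv (X.G g n) v.1 (i + 1))
    (fun n v => β n v.1) M s lam h (fun n => ⌈d * ⌈s n / d⌉₊⌉₊) (2 * (ε₀ ^ 2 / 16)) ε₀ hM sh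
    ((hM.sm (d + 1)).of_sub (Eventually.of_forall fun n => by linarith [(lv n).2.2]))
    ((pg.alg.and b1).mono fun n a => ⟨fun u _ v _ e => fn_gp (g := X.G g n) (congrArg Prod.fst e),
      fun u hu v hv e => congrArg Prod.fst (fn_cE (fn_pair a.1.2.2.1) _ u hu v hv e), a.2⟩) g1
    (by
      refine fi.trans (Le.of_le fun n => ?_)
      refine ch_anti fun u _ v _ e => ?_
      obtain ⟨a1, e⟩ := Prod.ext_iff.1 e
      obtain ⟨a2, e⟩ := Prod.ext_iff.1 e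
      obtain ⟨a3, a4⟩ := Prod.ext_iff.1 e
      exact Prod.ext a1 (Prod.ext (Prod.ext a2 a4) a3)) ce
    (by
      refine ng.trans (Le.of_le fun n => le_of_eq ?_)
      push_cast
      ring)
  refine fin.false hM (c := ε₀ ^ 2 / 4 * c * lg) (by have := lg_pos; positivity)
    (((big 8).and fr').mono fun n a => ?_)
  have h1 := mul_le_mul_of_nonneg_left (hh' n).le e0.le
  have h2 := mul_le_mul_of_nonneg_left a.1 e0.le
  have h3 := mul_le_mul_of_nonneg_left a.2 (sq_nonneg ε₀)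
  have h4 : 2 * (ε₀ ^ 2 / 16) * (lam n - s n : ℝ) + ε₀ ^ 2 / 4 * c * M n ≤ ε₀ * h n := by nlinarith
  nlinarith [mul_le_mul_of_nonneg_right h4 lg_pos.le]

end Pool.Agent.MP_5168f5_an.R4.CI
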