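import Pool.Agent.MP_5168f5_an.R4.SpecK

/-! Finite entropy inequalities. -/

namespace Pool.Agent.MP_5168f5_an.R4

open H19 H17S H17F Filter

theorem rowKF1 : KF1 where
  miE := K31.mi_le_event
  tel P A B C Z a b hab h := by
    have h1 : ∑ k ∈ Finset.Ico a b, mi P (A k) Z (fun ω => (B k ω, C ω)) ≤
        ch P Z (fun ω => (B a ω, C ω)) - ch P Z fun ω => (B b ω, C ω) := by
      induction b, hab using Nat.le_induction with
      | base => simp
      | succ b hab ih =>
        have h2 := ih fun k h1 h2 => h k h1 (by omega)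
        have h3 := h b hab b.lt_succ_self
        have h4 : ch P Z (fun ω => (B (b + 1) ω, C ω)) ≤ ch P Z fun ω => (A b ω, B b ω, C ω) :=
          ch_anti (h3.2.pair (h3.1.pair (Fn.snd _ _)))
        rw [Finset.sum_Ico_succ_top hab, mi_symm (A b)]
        unfold mi at h2 ⊢
        linarith
    have h2 : ch P Z (fun ω => (B b ω, B a ω, C ω)) ≤ ch P Z fun ω => (B b ω, C ω) :=
      ch_anti ((Fn.fst _ _).pair ((Fn.snd _ _).right _))
    rw [mi_symm (B b)]
    refine h1.trans ?_
    unfold mi
    linarith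
  han P A B C G := by
    have h1 := ch_submod (P := P) (A := fun ω => (A ω, B ω)) (B := fun ω => (B ω, C ω)) (M := B)
      (G := G) ((Fn.snd A B).left G) ((Fn.fst B C).left G)
    have h2 := ch_subadd (P := P) B (fun ω => (A ω, C ω)) G
    have h3 : ch P (fun ω => (A ω, B ω, C ω)) G ≤ ch P (fun ω => ((A ω, B ω), B ω, C ω)) G :=
      ch_mono ((((Fn.fst A B).left _).pair (Fn.snd _ _)).left G)
    have h4 : ch P (fun ω => (A ω, B ω, C ω)) G ≤ ch P (fun ω => (B ω, A ω, C ω)) G :=
      ch_mono ((((Fn.fst A C).right B).pair ((Fn.fst _ _).pair ((Fn.snd A C).right B))).left G)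
    linarith
  ci P F A B W := by
    have h1 := mi_near (P := P) A F B W
    rw [mi_symm A F] at h1
    unfold mi at h1 ⊢
    linarith

end Pool.Agent.MP_5168f5_an.R4
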