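import Pool.Agent.MP_5168f5_an.R4.USpec
import Pool.Agent.MP_5168f5_an.R4.XKF1

/-! Kakeya sets in four dimensions, the step for planes: the direction of the central line. -/

namespace Pool.Agent.MP_5168f5_an.R4.U

open H19 H17S H17F Filter K31

namespace UMu4A

/-- A variable that is known up to `L 2^{-j}` on a likely event. -/
theorem nearW {Ω β : ℕ → Type} {P : ∀ n, FP (Ω n)} {E : ∀ n, Ω n → Prop} {x : ∀ n, Ω n → ℝ}
    {G : ∀ n, Ω n → β n} {M j : ℕ → ℕ} {L : ℕ → ℝ} (hM : Big M) (hL : Sub M L) (hE : Whp P E)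
    (hj : ∀ n, j n ≤ M n) (h : ∀ᶠ n in UF, (∀ a ∈ (P n).S, |x n a| ≤ L n * 2 ^ M n) ∧
      ∀ a ∈ (P n).S, ∀ b ∈ (P n).S, E n a → E n b → G n a = G n b →
        |x n a - x n b| ≤ L n / 2 ^ j n) :
    Sm M fun n => ch (P n) (fun ω => fl1 (j n) (x n ω)) (G n) := by
  refine ks.fano P _ _ _ M _ 3 hM
    ((hL.const_mul hM one_le_two).add (hM.sub (by norm_num : (1 : ℝ) ≤ 3)) hM) hE ?_
  filter_upwards [h, (hL.const_mul hM (by norm_num : (1 : ℝ) ≤ 7)).2 1 one_pos] with n ⟨e1, e2⟩ e3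
  have l1 := hL.1 n
  have p1 : (1 : ℝ) ≤ 2 ^ M n * 2 ^ j n :=
    one_le_mul_of_one_le_of_one_le (one_le_pow₀ one_le_two) (one_le_pow₀ one_le_two)
  refine ⟨fun a ha => (det_near1 (L := 2 * L n * 2 ^ M n * 2 ^ j n) (by positivity)
    (fun a ha b hb _ => ?_) a ha).imp fun T hT => ⟨hT.1.trans ?_, hT.2⟩, fun a ha => ?_⟩
  · rw [mul_div_cancel_right₀ _ (by positivity)]
    exact (abs_sub _ _).trans (by linarith [e1 a ha, e1 b hb])
  · by_cases c : ∃ b ∈ (P n).S, E n b ∧ G n b = G n a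
    · obtain ⟨b, hb, c1, c2⟩ := c
      have m := mem_cE (P := P n) ⟨b, hb, c1⟩
      exact (det_near1 (P := cE (P n) (E n)) (x := x n) (G := G n) (j := j n) (hL.pos n).le
        (fun u hu v hv => e2 u ((m u).1 hu).1 v ((m v).1 hv).1 ((m u).1 hu).2 ((m v).1 hv).2) b
        ((m b).2 ⟨hb, c1⟩)).imp fun T hT =>
          ⟨hT.1, fun v hv d d' => hT.2 v ((m v).2 ⟨hv, d'⟩) (d.trans c2.symm)⟩
    · exact ⟨∅, by simp; linarith, fun b hb d d' => absurd ⟨b, hb, d', d⟩ c⟩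
  · have p2 := (two_pow_le_exp (j n)).trans (Real.exp_le_exp.2 (Nat.cast_le.2 (hj n)))
    have p3 := mul_le_mul e3 (mul_le_mul (two_pow_le_exp (M n)) p2 (by positivity)
      (Real.exp_pos _).le) (by positivity) (Real.exp_pos _).le
    rw [one_mul, ← Real.exp_add, ← Real.exp_add, show (M n + (M n + M n) : ℝ) = 3 * M n by ring]
      at p3
    nlinarith

theorem num {x x' β β' α α' m s K D : ℝ} (hx : |x - (β - m * (α - s))| ≤ K / D)
    (hx' : |x' - (β' - m * (α' - s))| ≤ K / D) (hβ : |β - β'| ≤ 1 / D) (hα : |α - α'| ≤ 1 / D)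
    (hm : |m| ≤ K) : |x - x'| ≤ (3 * K + 1) / D := by
  have h : |m * (α - α')| ≤ K / D := by
    rw [abs_mul, ← mul_one_div K]
    exact mul_le_mul hm hα (abs_nonneg _) ((abs_nonneg _).trans hm)
  rw [add_div, mul_div_assoc]
  rw [abs_le] at *
  constructor <;> linarith [hx.1, hx.2, hx'.1, hx'.2, hβ.1, hβ.2, h.1, h.2]

variable (X : U3) (R q ρ B σ : ℕ)

/-- The tube and the direction of the first line. -/
noncomputable def W0 (c : (X.Ω × X.Ω) × X.Ω × X.Ω) : ℤ × ℤ × X.Lb :=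
  (fl1 q (X.a c.1.1), fl1 B (X.w c.1.1), X.S 0 c.1.1)

/-- The data of one of the two lines. -/
noncomputable def W1 (f : (X.Ω × X.Ω) × X.Ω × X.Ω → X.Ω) (c : (X.Ω × X.Ω) × X.Ω × X.Ω) :
    ℤ × ℤ × ℤ × ℤ × ℤ × X.Lb :=
  (fl1 (q + ρ) (X.b (f c)), fl1 B (X.a (f c)), fl1 σ (X.μ R ρ B c.1), W0 X q B c)

variable {X R q ρ B σ}

theorem mem {c : (X.Ω × X.Ω) × X.Ω × X.Ω} (h : c ∈ (X.P4 R q ρ B).S) :
    c.1.1 ∈ X.P.S ∧ c.1.2 ∈ X.P.S ∧ X.S 0 c.2.1 = X.S 0 c.1.1 ∧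
      fl1 q (X.a c.2.1) = fl1 q (X.a c.1.1) ∧ fl1 B (X.w c.2.1) = fl1 B (X.w c.1.1) := by
  obtain ⟨h1, -, h2⟩ := (mem_copy _ _ _).1 h
  obtain ⟨h3, h4, -⟩ := (mem_copy _ _ _).1 h1
  exact ⟨h3, h4, congrArg (·.1.1) h2, congrArg (·.1.2.1) h2, congrArg (·.1.2.2.1) h2⟩

theorem abs_b0 {L : ℝ} (hL : 1 ≤ L) (hB : B ≤ R) {v : X.Ω × X.Ω} (h : |X.b v.1| ≤ L)
    (h1 : |X.px R v.1| ≤ L) (h2 : |X.px R v.2| ≤ L) : |X.b0 R q ρ B σ v| ≤ 7 * L * 2 ^ R := by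
  have p1 : (1 : ℝ) ≤ 2 ^ B := one_le_pow₀ one_le_two
  have p2 : (2 : ℝ) ^ B ≤ 2 ^ R := pow_le_pow_right₀ one_le_two hB
  have k1 : |X.μ R ρ B v| ≤ 4 * L * 2 ^ B := by
    rw [U3.μ, rd, rd, ← sub_div, ← Int.cast_sub]
    rcases eq_or_ne (fl1 B (X.t v.1) - fl1 B (X.t v.2)) 0 with e | e
    · rw [e]; simp only [Int.cast_zero, zero_div, div_zero, abs_zero]; positivity
    · have k2 : (1 : ℝ) ≤ |((fl1 B (X.t v.1) - fl1 B (X.t v.2) : ℤ) : ℝ)| := by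
        exact_mod_cast Int.one_le_abs e
      rw [div_div_eq_mul_div, abs_div, abs_mul, abs_of_pos (by positivity : (0 : ℝ) < 2 ^ B)]
      refine (div_le_self (by positivity) k2).trans (mul_le_mul_of_nonneg_right ?_ (by positivity))
      refine (abs_sub _ _).trans ?_
      linarith [show |X.G R ρ v.1| ≤ _ from abs_rd _ _, show |X.G R ρ v.2| ≤ _ from abs_rd _ _]
  have k2 : |X.r q v.1| ≤ 1 := (abs_sub_rd _ _).trans
    ((div_le_one (by positivity)).2 (one_le_pow₀ one_le_two))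
  have k3 := mul_le_mul (abs_rd σ (X.μ R ρ B v)) k2 (abs_nonneg _) (by positivity)
  refine (abs_sub _ _).trans ?_
  rw [abs_mul]
  nlinarith

theorem chain (hq : q ≤ B) : ch X.P2 (fun c => fl1 (q + σ) (X.b0 R q ρ B σ c))
      (fun c => (fl1 q (X.a c.1), fl1 B (X.w c.1), X.S 0 c.1)) ≤
    ch (X.P4 R q ρ B) (fun c => fl1 (q + σ) (X.b0 R q ρ B σ c.1)) (W1 X R q ρ B σ fun c => c.1.1) +
    ch (X.P4 R q ρ B) (fun c => fl1 (q + σ) (X.b0 R q ρ B σ c.1)) (W1 X R q ρ B σ fun c => c.2.1) +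
    2 * ch X.P (fun ω => fl1 (q + ρ) (X.b ω)) (fun ω => (fl1 B (X.a ω), fl1 B (X.w ω), X.S 0 ω)) +
    2 * ch X.P2 (fun c => fl1 σ (X.μ R ρ B c)) (fun c => X.Xq q c.1) +
    ch (X.P4 R q ρ B) (fun c => fl1 B (X.a c.1.1)) (W0 X q B) +
    ch (X.P4 R q ρ B) (fun c => fl1 B (X.a c.2.1)) (W0 X q B) +
    ch (X.P4 R q ρ B) (fun c => fl1 B (X.t c.1.2)) (W0 X q B) -
    ch (X.P4 R q ρ B) (fun c => (fl1 B (X.t c.1.2), fl1 B (X.a c.1.1), fl1 B (X.a c.2.1)))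
      fun c => (X.A R q ρ c.1.1, X.Θ R q ρ B c.1.1) := by
  have l1 : Law (X.P4 R q ρ B) Prod.fst X.P2 id := kg.fst _ _ _ _
  have l2 : Law (X.P4 R q ρ B) Prod.snd X.P2 id := kg.snd _ _ _ _ (Law.rfl _)
  have l0 : Law X.P2 Prod.fst X.P id := kg.fst _ _ _ _
  have l3 := ((l1.comp Prod.fst).trans l0).ch_id (fun ω => fl1 (q + ρ) (X.b ω))
    fun ω => (fl1 B (X.a ω), fl1 B (X.w ω), X.S 0 ω)
  have l4 := ((l2.comp Prod.fst).trans l0).ch_id (fun ω => fl1 (q + ρ) (X.b ω))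
    fun ω => (fl1 B (X.a ω), fl1 B (X.w ω), X.S 0 ω)
  rw [← l1.ch_id, ← l1.ch_id]
  set Q := X.P4 R q ρ B
  set F := fun c : (X.Ω × X.Ω) × X.Ω × X.Ω => fl1 (q + σ) (X.b0 R q ρ B σ c.1)
  set m := fun c : (X.Ω × X.Ω) × X.Ω × X.Ω => fl1 σ (X.μ R ρ B c.1)
  set A := fun c : (X.Ω × X.Ω) × X.Ω × X.Ω => fl1 B (X.a c.1.1)
  set A' := fun c : (X.Ω × X.Ω) × X.Ω × X.Ω => fl1 B (X.a c.2.1)
  have h1 := ch_drop (P := Q) F m (W0 X q B)
  have h2 : ch Q m (W0 X q B) ≤ ch Q m fun c => X.Xq q c.1.1 := ch_anti fun a _ b _ e =>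
    Prod.ext (congrArg (·.1) e) (Prod.ext (fl1_eq_of_le hq (congrArg (·.2.1) e))
      (congrArg (·.2.2) e))
  have h3 := rowKF1.ci Q F A A' fun c => (m c, W0 X q B c)
  have h4 := ch_drop (P := Q) F (fun c => fl1 (q + ρ) (X.b c.1.1)) fun c => (A c, m c, W0 X q B c)
  have h5 := ch_drop (P := Q) F (fun c => fl1 (q + ρ) (X.b c.2.1)) fun c => (A' c, m c, W0 X q B c)
  have h6 : ch Q (fun c => fl1 (q + ρ) (X.b c.1.1)) (fun c => (A c, m c, W0 X q B c)) ≤ _ :=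
    (ch_anti fun a _ b _ e => Prod.ext (congrArg (·.1) e) (congrArg (·.2.2.2) e)).trans_eq l3
  have h7 : ch Q (fun c => fl1 (q + ρ) (X.b c.2.1)) (fun c => (A' c, m c, W0 X q B c)) ≤ _ :=
    (ch_anti fun a ha b hb e => Prod.ext (congrArg (·.1) e) (Prod.ext
      ((mem ha).2.2.2.2.trans ((congrArg (·.2.2.2.1) e).trans (mem hb).2.2.2.2.symm))
      ((mem ha).2.2.1.trans ((congrArg (·.2.2.2.2) e).trans (mem hb).2.2.1.symm)))).trans_eq l4
  have h8 : ch Q A (fun c => (m c, W0 X q B c)) ≤ ch Q A (W0 X q B) := ch_anti (Fn.snd _ _)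
  have h9 := ch_drop (P := Q) A m fun c => (A' c, W0 X q B c)
  have h10 : ch Q A (fun c => (m c, A' c, W0 X q B c)) ≤ ch Q A fun c => (A' c, m c, W0 X q B c) :=
    ch_anti fun a _ b _ e => by simp only [Prod.mk.injEq] at e ⊢; tauto
  have h11 : ch Q m (fun c => (A' c, W0 X q B c)) ≤ ch Q m (W0 X q B) := ch_anti (Fn.snd _ _)
  have h12 := ch_chain (P := Q) A' A (W0 X q B)
  have h13 := ch_subadd (P := Q) (fun c => fl1 B (X.t c.1.2)) (fun c => (A' c, A c)) (W0 X q B)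
  have h14 : ch Q (fun c => (fl1 B (X.t c.1.2), A c, A' c))
      (fun c => (X.A R q ρ c.1.1, X.Θ R q ρ B c.1.1)) ≤
      ch Q (fun c => (fl1 B (X.t c.1.2), A' c, A c)) (W0 X q B) :=
    ch_le (fun a _ b _ e => by simp only [Prod.mk.injEq] at e ⊢; tauto) fun a _ b _ e =>
      Prod.ext (congrArg (·.2.2.1) e) (Prod.ext (congrArg (·.2.2.2.1) e) (congrArg (·.2.1) e))
  unfold mi at h3
  unfold W1 W0 at *
  linarith

end UMu4A

open UMu4A

theorem rowMu4 : Mu4A := by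
  intro γ e η X R m q ρ B L h hJ σ hσ ⟨L', hL', hE⟩ h2
  have hR := h.tan.big
  have hq : ∀ n, q n ≤ B n := fun n => by have := h.le n; omega
  have key : ∀ f : ∀ n, ((X n).Ω × (X n).Ω) × (X n).Ω × (X n).Ω → (X n).Ω,
      (∀ n c, f n c = c.1.1 ∨ f n c = c.2.1) → Sm R fun n => ch (PP4 X R q ρ B n)
        (fun c => fl1 (q n + σ n) ((X n).b0 (R n) (q n) (ρ n) (B n) (σ n) c.1))
        (W1 (X n) (R n) (q n) (ρ n) (B n) (σ n) (f n)) := fun f hf => by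
    refine nearW hR ((h.sub.const_mul hR (by norm_num : (1 : ℝ) ≤ 7)).mul hL') hE
      (fun n => by have := h.le n; have := hσ n; omega) ?_
    filter_upwards [h.alg, h.slp] with n a s
    have l1 := h.sub.1 n
    have l2 := hL'.1 n
    refine ⟨fun c hc => (abs_b0 l1 (h.le n).2.1 (a.bd _ (mem hc).1).2.2.2.1 (s _ (mem hc).1).2.1
      (s _ (mem hc).2.1).2.1).trans (mul_le_mul_of_nonneg_right (by nlinarith) (by positivity)),
      fun c hc c' hc' g g' k => ?_⟩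
    have k1 : ∀ c ∈ (PP4 X R q ρ B n).S, |(X n).b c.1.1 - (X n).b c.2.1 - (X n).μ (R n) (ρ n) (B n)
        c.1 * ((X n).a c.1.1 - (X n).a c.2.1)| ≤ L' n / 2 ^ (q n + σ n) →
        |(X n).b0 (R n) (q n) (ρ n) (B n) (σ n) c.1 - ((X n).b (f n c) -
          rd (σ n) ((X n).μ (R n) (ρ n) (B n) c.1) * ((X n).a (f n c) - rd (q n) ((X n).a c.1.1)))|
          ≤ (L' n + 1) / 2 ^ (q n + σ n) := fun c hc g => by
      rcases hf n c with u | u <;> rw [u, U3.b0, U3.r]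
      · rw [sub_self, abs_zero]; positivity
      · have k2 := mul_le_mul (near_of_fl1 (mem hc).2.2.2.1.symm)
          (abs_sub_rd (σ n) ((X n).μ (R n) (ρ n) (B n) c.1)) (abs_nonneg _) (by positivity)
        rw [← abs_mul, div_mul_div_comm, one_mul, ← pow_add, abs_le] at k2
        rw [abs_le] at g
        rw [add_div, abs_le]
        constructor <;> linarith [k2.1, k2.2, g.1, g.2]
    have k2 := k1 c' hc' g'.2.2.2
    rw [← rd_congr (j := σ n) (congrArg (·.2.2.1) k), ← rd_congr (j := q n)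
      (congrArg (·.2.2.2.1) k)] at k2
    refine (num (k1 c hc g.2.2.2) k2 ((near_of_fl1 (congrArg (·.1) k)).trans
      (div_pow_le zero_le_one (by have := hσ n; omega))) ((near_of_fl1 (congrArg (·.2.1) k)).trans
      (div_pow_le zero_le_one (by have := hσ n; have := h.le n; omega)))
      ((abs_rd _ _).trans (by linarith [g.1]))).trans ?_
    gcongr
    nlinarith
  have a1 := le_fl1 (P := PP4 X R q ρ B) (x := fun n c => (X n).a c.1.1)
    (G := fun n => W0 (X n) (q n) (B n)) hR (hR.sub le_rfl) hq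
    (Eventually.of_forall fun n a _ b _ e => near_of_fl1 (congrArg (·.1) e))
  have a2 := le_fl1 (P := PP4 X R q ρ B) (x := fun n c => (X n).a c.2.1)
    (G := fun n => W0 (X n) (q n) (B n)) hR (hR.sub le_rfl) hq
    (Eventually.of_forall fun n a ha b hb e => near_of_fl1
      ((mem ha).2.2.2.1.trans ((congrArg (·.1) e).trans (mem hb).2.2.2.1.symm)))
  have a3 := le_fl1 (P := PP4 X R q ρ B) (x := fun n c => (X n).t c.1.2) (j := fun _ => 0) (k := B)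
    (G := fun n => W0 (X n) (q n) (B n)) hR (hR.sub le_rfl) (fun _ => Nat.zero_le _)
    (h.alg.mono fun n u a ha b hb _ => near_of_fl1
      ((u.t0 (mem ha).2.1).trans (u.t0 (mem hb).2.1).symm))
  refine Le.of6 ((key _ fun _ _ => Or.inl rfl).add (key _ fun _ _ => Or.inr rfl))
    ((h.lip.add h2).smul zero_le_two) a1 a2 a3 hJ.j1 (Eventually.of_forall fun n => ?_)
  have := chain (X := X n) (R := R n) (ρ := ρ n) (σ := σ n) (hq n)
  simp only [Nat.cast_zero]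
  linarith

end Pool.Agent.MP_5168f5_an.R4.U
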