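import Mathlib

/-! Real analysis: density points of a deficiency and levels at which monotone profiles are
differentiable. -/

namespace Pool.Agent.MP_5168f5_an.R4.K80

open Set MeasureTheory Filter Topology

/-- Depths at which the slope of `Φ` does not exist or exceeds `1 - e`. -/
def Bad (Φ : ℝ → ℝ) (e : ℝ) : Set ℝ := {q | ¬(DifferentiableAt ℝ Φ q ∧ deriv Φ q ≤ 1 - e)}

/-- Monotone with slope at most one. -/
def Lip1 (Φ : ℝ → ℝ) : Prop := ∀ a b, a ≤ b → 0 ≤ Φ b - Φ a ∧ Φ b - Φ a ≤ b - a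

variable {Φ : ℝ → ℝ} {e : ℝ}

theorem meas_bad (Φ : ℝ → ℝ) (e : ℝ) : MeasurableSet (Bad Φ e) :=
  ((measurableSet_of_differentiableAt ℝ Φ).inter
    (measurableSet_le (measurable_deriv Φ) measurable_const)).compl

theorem Lip1.mono (h : Lip1 Φ) : Monotone Φ := fun a b hab => by linarith [(h a b hab).1]

theorem Lip1.lip (h : Lip1 Φ) : LipschitzWith 1 Φ := by
  refine LipschitzWith.of_dist_le_mul fun a b => ?_
  rw [Real.dist_eq, Real.dist_eq, NNReal.coe_one, one_mul]
  rcases le_total a b with hab | hab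
  · rw [abs_sub_comm, abs_of_nonneg (h a b hab).1, abs_sub_comm, abs_of_nonneg (by linarith)]
    exact (h a b hab).2
  · rw [abs_of_nonneg (h b a hab).1, abs_of_nonneg (by linarith)]
    exact (h b a hab).2

theorem Lip1.deriv_le (h : Lip1 Φ) (q : ℝ) : deriv Φ q ≤ 1 := by
  have := norm_deriv_le_of_lipschitz (x₀ := q) h.lip
  simpa using (le_abs_self _).trans (by simpa using this)

theorem Lip1.ftc (h : Lip1 Φ) (a b : ℝ) : ∫ x in a..b, deriv Φ x = Φ b - Φ a :=
  (h.lip.lipschitzOnWith.absolutelyContinuousOnInterval).integral_deriv_eq_sub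

theorem Lip1.int (h : Lip1 Φ) (a b : ℝ) : IntervalIntegrable (deriv Φ) volume a b := by
  refine (intervalIntegrable_const (c := (1 : ℝ))).mono_fun' (measurable_deriv Φ).aestronglyMeasurable ?_
  exact Eventually.of_forall fun q => by simpa using norm_deriv_le_of_lipschitz (x₀ := q) h.lip

theorem int_ind {s : Set ℝ} (hs : MeasurableSet s) {a b : ℝ} (hab : a ≤ b) :
    IntervalIntegrable (s.indicator fun _ => (1 : ℝ)) volume a b ∧
      ∫ x in a..b, s.indicator (fun _ => (1 : ℝ)) x = (volume (s ∩ Icc a b)).toReal := by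
  refine ⟨⟨(intervalIntegrable_const (c := (1 : ℝ))).1.indicator hs,
    (intervalIntegrable_const (c := (1 : ℝ))).2.indicator hs⟩, ?_⟩
  rw [intervalIntegral.integral_of_le hab, integral_indicator hs, setIntegral_const,
    smul_eq_mul, mul_one, Measure.real, Measure.restrict_apply hs,
    measure_congr (ae_eq_set_inter (ae_eq_refl s) Ioc_ae_eq_Icc)]

/-- Windows are deficient up to the measure of the bad depths. -/
theorem Lip1.win (h : Lip1 Φ) (h1 : e ≤ 1) {a b : ℝ} (hab : a ≤ b) :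
    Φ b - Φ a ≤ (1 - e) * (b - a) + (volume (Bad Φ e ∩ Icc a b)).toReal := by
  obtain ⟨i1, i2⟩ := int_ind (meas_bad Φ e) hab
  have := intervalIntegral.integral_mono_on hab (h.int a b)
    ((intervalIntegrable_const (c := 1 - e)).add i1) fun q _ => by
      by_cases hq : q ∈ Bad Φ e
      · rw [indicator_of_mem hq]; linarith [h.deriv_le q]
      · rw [indicator_of_notMem hq]; linarith [(not_not.1 hq).2]
  rw [h.ftc, intervalIntegral.integral_add intervalIntegrable_const i1, i2,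
    intervalIntegral.integral_const, smul_eq_mul] at this
  linarith

theorem Lip1.good (h : Lip1 Φ) (h0 : 0 ≤ e) {a b : ℝ} (hab : a ≤ b)
    (hd : Φ b - Φ a < (1 - e) * (b - a)) : volume ((Bad Φ e)ᶜ ∩ Ioo a b) ≠ 0 := by
  intro hz
  obtain ⟨i1, i2⟩ := int_ind (meas_bad Φ e).compl hab
  have := intervalIntegral.integral_mono_ae hab
    ((intervalIntegrable_const (c := 1 - e)).sub i1) (h.int a b) (by
      filter_upwards [h.mono.ae_differentiableAt] with q hq
      by_cases hb : q ∈ (Bad Φ e)ᶜ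
      · rw [indicator_of_mem hb]; linarith [h.mono.deriv_nonneg (x := q)]
      · rw [indicator_of_notMem hb]
        have : ¬deriv Φ q ≤ 1 - e := fun k => hb (not_not.2 ⟨hq, k⟩)
        linarith [not_le.1 this])
  rw [h.ftc, intervalIntegral.integral_sub intervalIntegrable_const i1, i2,
    intervalIntegral.integral_const, smul_eq_mul,
    ← measure_congr (ae_eq_set_inter (ae_eq_refl _) Ioo_ae_eq_Icc), hz] at this
  simp only [ENNReal.toReal_zero] at this
  linarith

/-- A density point of the deficient depths. -/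
theorem ra1 (h : Lip1 Φ) (h0 : 0 ≤ e) (h1 : e ≤ 1) {a b : ℝ} (hab : a ≤ b)
    (hd : Φ b - Φ a < (1 - e) * (b - a)) : ∃ p ∈ Ioo a b, ∀ η : ℝ, 0 < η → ∃ X₀ : ℝ, 0 < X₀ ∧
      ∀ X, 0 < X → X ≤ X₀ → volume (Bad Φ e ∩ Icc (p - X) (p + X)) ≤ ENNReal.ofReal (η * X) ∧
        ∀ q q', p - X ≤ q → q ≤ q' → q' ≤ p + X → Φ q' - Φ q ≤ (1 - e) * (q' - q) + η * X := by
  have hae := Besicovitch.ae_tendsto_measure_inter_div_of_measurableSet volume (meas_bad Φ e)
  obtain ⟨p, ⟨hp1, hp2⟩, hp⟩ := Measure.exists_mem_of_measure_ne_zero_of_ae (h.good h0 hab hd)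
    (ae_restrict_of_ae hae)
  refine ⟨p, hp2, fun η hη => ?_⟩
  rw [indicator_of_notMem hp1] at hp
  have hpos : (0 : ENNReal) < ENNReal.ofReal (η / 2) := by simpa using hη
  obtain ⟨X₀, hX, hs⟩ := (nhdsGT_basis (0 : ℝ)).eventually_iff.1 (hp.eventually (gt_mem_nhds hpos))
  refine ⟨X₀ / 2, by positivity, fun X hX0 hX1 => ?_⟩
  have k := (hs (show X ∈ Ioo 0 X₀ from ⟨hX0, by linarith⟩)).le
  rw [Real.volume_closedBall, ENNReal.div_le_iff (by simpa using hX0) ENNReal.ofReal_ne_top,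
    ← ENNReal.ofReal_mul (by positivity), Real.closedBall_eq_Icc,
    show η / 2 * (2 * X) = η * X by ring] at k
  refine ⟨k, fun q q' u v w => (h.win h1 v).trans ?_⟩
  have : (volume (Bad Φ e ∩ Icc q q')).toReal ≤ η * X :=
    ENNReal.toReal_le_of_le_ofReal (by positivity)
      ((measure_mono (inter_subset_inter_right _ (Icc_subset_Icc u w))).trans k)
  linarith

/-- A level at which two monotone profiles are differentiable and the second, which expands,
avoids a small set. -/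
theorem ra2 {nu nf : ℝ → ℝ} {c₁ c₂ : ℝ} {B : Set ℝ} (hu : MonotoneOn nu (Icc c₁ c₂))
    (hf : ∀ a ∈ Icc c₁ c₂, ∀ b ∈ Icc c₁ c₂, a ≤ b → b - a ≤ nf b - nf a)
    (hB : volume (B ∩ Icc (nf c₁) (nf c₂)) < ENNReal.ofReal (c₂ - c₁)) :
    ∃ c ∈ Ioo c₁ c₂, DifferentiableAt ℝ nu c ∧ DifferentiableAt ℝ nf c ∧ nf c ∉ B := by
  have hc : c₁ < c₂ := by
    by_contra k
    rw [ENNReal.ofReal_eq_zero.2 (by linarith [not_lt.1 k])] at hB
    exact not_lt_zero hB
  have hm : MonotoneOn nf (Icc c₁ c₂) := fun a ha b hb hab => by linarith [hf a ha b hb hab]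
  set π : ℝ → ℝ := fun x => max c₁ (min x c₂) with hπ
  have πm : ∀ x, π x ∈ Icc c₁ c₂ := fun x => ⟨le_max_left _ _, max_le hc.le (min_le_right _ _)⟩
  have πl : ∀ a b, a ≤ b → π a ≤ π b := fun a b hab => max_le_max le_rfl (min_le_min hab le_rfl)
  set g : ℝ → ℝ := fun x => nf (π x) + (x - π x) with hg
  have ge : ∀ a b, a ≤ b → b - a ≤ g b - g a := fun a b hab => by
    have := hf _ (πm a) _ (πm b) (πl a b hab)
    simp only [hg]; linarith
  have ga : AntilipschitzWith 1 g := by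
    refine AntilipschitzWith.of_le_mul_dist fun a b => ?_
    rw [Real.dist_eq, Real.dist_eq, NNReal.coe_one, one_mul]
    rcases le_total a b with hab | hab
    · rw [abs_sub_comm, abs_of_nonneg (by linarith), abs_sub_comm]
      exact (ge a b hab).trans (le_abs_self _)
    · rw [abs_of_nonneg (by linarith)]
      exact (ge b a hab).trans (le_abs_self _)
  have pre := ga.hausdorffMeasure_preimage_le zero_le_one (B ∩ Icc (nf c₁) (nf c₂))
  simp only [hausdorffMeasure_real, ENNReal.coe_one, ENNReal.one_rpow, one_mul] at pre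
  have nz : volume (Ioo c₁ c₂ \ g ⁻¹' (B ∩ Icc (nf c₁) (nf c₂))) ≠ 0 := by
    intro hz
    have := measure_le_inter_add_sdiff volume (Ioo c₁ c₂) (g ⁻¹' (B ∩ Icc (nf c₁) (nf c₂)))
    rw [hz, add_zero, Real.volume_Ioo] at this
    exact absurd ((this.trans (measure_mono inter_subset_right)).trans pre) (not_le.2 hB)
  obtain ⟨c, ⟨k1, k2⟩, k3, k4⟩ := Measure.exists_mem_of_measure_ne_zero_of_ae nz
    (ae_restrict_of_ae (hu.ae_differentiableWithinAt_of_mem.and
      hm.ae_differentiableWithinAt_of_mem))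
  have hI : c ∈ Icc c₁ c₂ := Ioo_subset_Icc_self k1
  have nb : Icc c₁ c₂ ∈ 𝓝 c := Icc_mem_nhds k1.1 k1.2
  refine ⟨c, k1, (k3 hI).differentiableAt nb, (k4 hI).differentiableAt nb, fun hb => k2 ?_⟩
  have e : g c = nf c := by simp [hg, hπ, min_eq_left hI.2, max_eq_right hI.1]
  rw [mem_preimage, e]
  exact ⟨hb, hm (left_mem_Icc.2 hc.le) hI hI.1, hm hI (right_mem_Icc.2 hc.le) hI.2⟩

/-- The slope of a function that grows at rate at least `s` to the right of `c`. -/
theorem le_deriv {f : ℝ → ℝ} {c c₂ s : ℝ} (hc : c < c₂) (hd : DifferentiableAt ℝ f c)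
    (h : ∀ b ∈ Ioc c c₂, s * (b - c) ≤ f b - f c) : s ≤ deriv f c := by
  have t := hd.hasDerivAt.tendsto_slope.mono_left (nhdsGT_le_nhdsNE c)
  refine ge_of_tendsto t ?_
  filter_upwards [Ioc_mem_nhdsGT hc] with b hb
  rw [slope_def_field, le_div_iff₀ (by linarith [hb.1])]
  exact h b hb

end Pool.Agent.MP_5168f5_an.R4.K80
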