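import Pool.Agent.MP_5168f5_an.R4.Kit
import Pool.Agent.MP_5168f5_an.R4.DefQ
import Pool.Agent.MP_5168f5_an.R4.K80RA

/-! Kakeya sets in four dimensions: the top level statements. -/

namespace Pool.Agent.MP_5168f5_an.R4

open H19 H17S H17F Filter MeasureTheory

/-- The five kinds of shapes. -/
abbrev I5 : Type := Option (Bool × Bool)

/-- Quadrics. -/
abbrev iQ : I5 := none

/-- Graphs of coordinate `co k` over the height and the first coordinate. -/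
abbrev iU (k : Bool) : I5 := some (false, k)

/-- Graphs of coordinate `co k` over all the other coordinates. -/
abbrev iH (k : Bool) : I5 := some (true, k)

/-- The two last coordinates. -/
def co (k : Bool) : Fin 3 := bif k then 2 else 1

/-- The coordinates over which a plane is a graph. -/
def sS (b k : Bool) : Finset (Fin 3) := bif b then {0, co (!k)} else {0}

/-- The five shapes. -/
noncomputable def Geo.sh5 {Ω : Type} (g : Geo 3 Ω) : I5 → Shp Ω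
  | none => g.qd
  | some v => g.pl (sS v.1 v.2) (co v.2)

theorem sh5_pull {Ω Ω' : Type} (g : Geo 3 Ω) (f : Ω' → Ω) :
    (g.pull f).sh5 = fun i => (g.sh5 i).pull f := by
  funext i; cases i <;> rfl

/-- The systems whose abstract point is the point at the finest resolution. -/
noncomputable abbrev Gs.fin {N : ℕ} {Ω : ℕ → Type} (g : Gs N Ω) (M : ℕ → ℕ) : Gs N Ω := fun n =>
  (g n).fat fun _ => M n

/-- The thickness profile of the shape `i`. -/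
noncomputable def pr {I : Type} {Ω : ℕ → Type} {s : ∀ n, I → Shp (Ω n)} (M : ℕ → ℕ)
    (F : ∀ n, Fam (s n)) (i : I) : ℝ → ℝ := prof M fun n j => (F n).τ i j

/-- The normalised entropy profile of the point. -/
noncomputable def hb (M : ℕ → ℕ) (φ : ℕ → ℕ → ℝ) (c : ℝ) : ℝ := prof M φ c / (3 * lg)

section

variable {Ω : ℕ → Type} (K : Mb Ω → Prop) (g : Gs 3 Ω) (M : ℕ → ℕ) (η : ℝ)
  (F : ∀ n, Fam (g n).sh5)

/-- A broad class with an optimal family of labels. -/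
structure Go : Prop where
  cls : Cls K (g.fin M) M 0 η
  brd : BRD K (g.fin M) M 0 η
  opt : Opt K (g.fin M) M F fun n _ => M n

/-- The same, with exact entropies of the point. -/
structure Gf (φ : ℕ → ℕ → ℝ) : Prop extends Go K g M η F where
  step : ∀ n j, φ n j ≤ φ n (j + 1) ∧ φ n (j + 1) ≤ φ n j + 3 * lg
  bd : ∃ C : ℝ, ∀ᶠ n in UF, ∀ j, |φ n j| ≤ C * M n
  ex : ∀ X, K X → ∀ a b : ℕ → ℕ, (∀ n, a n ≤ b n ∧ b n ≤ M n) →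
    Eqv M (fun n => ch (X n).Q (fun v => fl (b n) ((X.G g n).pt v)) fun v =>
      (fl (a n) ((X.G g n).pt v), (X.G g n).zt v)) fun n => φ n (b n) - φ n (a n)

/-- Facts on the profiles. -/
structure Pr : Prop where
  mono : ∀ i, Monotone (pr M F i)
  bd : ∀ i c, 0 ≤ pr M F i c ∧ pr M F i c ≤ 1
  eqv : ∀ i c, Eqv M (fun n => (F n).τ i (lev M c n)) fun n => pr M F i c * M n
  exp : ∀ i c c', 0 ≤ c → c ≤ c' → c' ≤ 1 → min 1 (pr M F i c + (c' - c)) ≤ pr M F i c'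
  uh : ∀ k c c', 0 ≤ c → c < c' → c' ≤ 1 → pr M F (iU k) c ≤ pr M F (iH k) c'
  hq : ∀ k c c', 0 ≤ c → c < c' → c' ≤ 1 → pr M F (iH k) c ≤ pr M F iQ c'
  thin : ∀ (i : I5) (X : Mb Ω) (j τ : ℕ → ℕ) (c c' : ℝ), K X → 0 ≤ c → c < c' → c' ≤ 1 →
    (∀ᶠ n in UF, j n ≤ lev M c n ∧ τ n ≤ M n) →
    Thin X.P (X.G (g.fin M)) M (fun n => ((g n).sh5 i).pull (X n).ρ) j τ →
    Le M (fun n => τ n) fun n => pr M F i c' * M n

end

def PR : Prop := ∀ {Ω : ℕ → Type} (K : Mb Ω → Prop) (g : Gs 3 Ω) (M : ℕ → ℕ) (η : ℝ)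
  (F : ∀ n, Fam (g n).sh5), Go K g M η F → Pr K g M F

/-- Most depths just below the floor are deficient. -/
def NGd (Φ : ℝ → ℝ) (ε₀ : ℝ) : Prop := ∀ γ : ℝ, 0 < γ → ∃ X₀ : ℝ, 0 < X₀ ∧ ∀ X, 0 < X → X ≤ X₀ →
  volume (K80.Bad Φ ε₀ ∩ Set.Icc (1 - X) 1) ≤ ENNReal.ofReal (γ * X) ∧
    ∀ q q', 1 - X ≤ q → q ≤ q' → q' ≤ 1 → Φ q' - Φ q ≤ (1 - ε₀) * (q' - q) + γ * X

/-- No member of `K` has a label of level `j` with a shape of thickness between `b` and `M`. -/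
def NoLe {N : ℕ} {Ω : ℕ → Type} (K : Mb Ω → Prop) (g : Gs N Ω) (M : ℕ → ℕ)
    (s : ∀ n, Shp (Ω n)) (j b : ℕ → ℕ) : Prop :=
  ∀ (X : Mb Ω) (τ : ℕ → ℕ), K X → (∀ᶠ n in UF, τ n ≤ M n) →
    Thin X.P (X.G g) M (fun n => (s n).pull (X n).ρ) j τ → Le M (fun n => τ n) fun n => b n

/-! ### The two theorems -/

/-- In `ℝ³`: below the best plane thickness the last coordinate is full. -/
def ThmU : Prop := ∀ {Ω : ℕ → Type} (K : Mb Ω → Prop) (g : Gs 2 Ω) (M j b : ℕ → ℕ) (η : ℝ)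
  (X : Mb Ω), Cls K (g.fin M) M 0 η → BRD K (g.fin M) M 0 η → Frac j M → (∀ n, b n ≤ M n) →
  NoLe K (g.fin M) M (fun n => (g n).pl {0} 1) j b → K X →
  Le M (fun n => (M n - b n : ℝ) * lg) fun n =>
    ch (X n).Q (fun v => fl1 (M n) ((X.G g n).pt v 1)) fun v =>
      (fl1 (b n) ((X.G g n).pt v 1), fl1 (M n) ((X.G g n).pt v 0), (X.G g n).zt v)

/-- In `ℝ⁴`: below the best quadric thickness the point is full. -/
def ThmF : Prop := ∀ {Ω : ℕ → Type} (K : Mb Ω → Prop) (g : Gs 3 Ω) (M j b : ℕ → ℕ) (η : ℝ)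
  (X : Mb Ω), Cls K (g.fin M) M 0 η → BRD K (g.fin M) M 0 η → Frac j M → (∀ n, b n ≤ M n) →
  NoLe K (g.fin M) M (fun n => (g n).qd) j b → K X →
  Le M (fun n => 3 * (M n - b n : ℝ) * lg) fun n =>
    ch (X n).Q (fun v => fl (M n) ((X.G g n).pt v)) fun v =>
      (fl (b n) ((X.G g n).pt v), (X.G g n).zt v)

/-- Extension: the quadric profile approaches the floor at a linear rate. -/
def ExtF : Prop := ∀ {Ω : ℕ → Type} (K : Mb Ω → Prop) (g : Gs 3 Ω) (M : ℕ → ℕ) (η : ℝ)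
  (F : ∀ n, Fam (g n).sh5) (φ : ℕ → ℕ → ℝ) (ε₀ cs : ℝ), Gf K g M η F φ → 0 < ε₀ → ε₀ ≤ 1 →
  NGd (hb M φ) ε₀ → 0 < cs → cs < 1 → (∀ c, cs < c → pr M F iQ c = 1) →
  ∃ C : ℝ, 0 < C ∧ ∀ W₀ : ℝ, 0 < W₀ → ∃ W, 0 < W ∧ W ≤ W₀ ∧ 1 - pr M F iQ (cs - W) ≤ C * W

/-- Saturation: at almost every level below the floor the depth of the quadric is not deficient. -/
def SatF : Prop := ∀ {Ω : ℕ → Type} (K : Mb Ω → Prop) (g : Gs 3 Ω) (M : ℕ → ℕ) (η : ℝ)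
  (F : ∀ n, Fam (g n).sh5) (φ : ℕ → ℕ → ℝ) (ε₀ : ℝ), Gf K g M η F φ → 0 < ε₀ → ε₀ ≤ 1 →
  ∀ᵐ c₀ : ℝ, 0 < c₀ → c₀ < 1 → pr M F iQ c₀ < 1 → pr M F iQ c₀ ∈ K80.Bad (hb M φ) ε₀

/-- The end: a direction separated class is not broad. -/
def EndA : Prop := ∀ {Ω : ℕ → Type} (K : Mb Ω → Prop) (g : Gs 3 Ω) (M : ℕ → ℕ) (η : ℝ)
  (F : ∀ n, Fam (g n).sh5), Go K g M η F → (∀ X, K X → DS X.P (X.G g) M) → False

/-! ### Fill given a label -/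

/-- Coordinate `co k` sheared by `G`. -/
def Geo.sv {Ω : Type} (g : Geo 3 Ω) (k : Bool) (G : Ω → ℝ) (ω : Ω) : ℝ :=
  g.pt ω (co k) - G ω * g.pt ω (co (!k))

/-- A sheared coordinate is full below the best plane thickness, given any label. -/
def FB : Prop := ∀ {Ω Λ : ℕ → Type} (K : Mb Ω → Prop) (g : Gs 3 Ω) (M : ℕ → ℕ) (η : ℝ)
  (F : ∀ n, Fam (g n).sh5) (X : Mb Ω) (lam : ∀ n, (X n).W → Λ n) (G : ∀ n, (X n).W → ℝ)
  (L : ℕ → ℝ) (b k : Bool) (j j' lo hi : ℕ → ℕ) (ε : ℝ), Go K g M η F → K X →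
  Lab X.P (X.G (g.fin M)) M j lam → Sub M L → 0 < ε →
  (∀ᶠ n in UF, (j n + ε * M n ≤ j' n ∧ j' n ≤ M n ∧ (F n).τ (some (b, k)) (j' n) ≤ lo n ∧
    j n ≤ lo n ∧ lo n ≤ hi n ∧ hi n ≤ M n) ∧ Fn (X n).Q (G n) (lam n) ∧
      ∀ v ∈ (X n).Q.S, |G n v| ≤ L n ∧ (b = false → G n v = 0)) →
  Le M (fun n => (hi n - lo n : ℝ) * lg) fun n =>
    ch (X n).Q (fun v => fl1 (hi n) ((X.G g n).sv k (G n) v)) fun v =>
      (fl1 (lo n) ((X.G g n).sv k (G n) v), fl1 (M n) ((X.G g n).pt v 0), lam n v, (X.G g n).zt v)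

/-- The point is full below the best quadric thickness, given any label. -/
def FQ : Prop := ∀ {Ω Λ : ℕ → Type} (K : Mb Ω → Prop) (g : Gs 3 Ω) (M : ℕ → ℕ) (η : ℝ)
  (F : ∀ n, Fam (g n).sh5) (X : Mb Ω) (lam : ∀ n, (X n).W → Λ n) (j j' lo hi : ℕ → ℕ) (ε : ℝ),
  Go K g M η F → K X → Lab X.P (X.G (g.fin M)) M j lam → 0 < ε →
  (∀ᶠ n in UF, j n + ε * M n ≤ j' n ∧ j' n ≤ M n ∧ (F n).τ iQ (j' n) ≤ lo n ∧
    j n ≤ lo n ∧ lo n ≤ hi n ∧ hi n ≤ M n) →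
  Le M (fun n => 3 * (hi n - lo n : ℝ) * lg) fun n =>
    ch (X n).Q (fun v => fl (hi n) ((X.G g n).pt v)) fun v =>
      (fl (lo n) ((X.G g n).pt v), lam n v, (X.G g n).zt v)

/-- The uniform form of `FB`. -/
def FBU : Prop := ∀ {Ω : ℕ → Type} (K : Mb Ω → Prop) (g : Gs 3 Ω) (M : ℕ → ℕ) (η : ℝ)
  (F : ∀ n, Fam (g n).sh5) (X : Mb Ω) (C ε : ℝ), Go K g M η F → K X → 0 < ε →
  ∃ δ : ℝ, 0 < δ ∧ ∀ᶠ n in UF, ∀ (W Λ : Type) (Q : FP W) (f : W → (X n).W) (lam : W → Λ)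
    (G : W → ℝ) (b k : Bool) (j j' lo hi : ℕ), K31.Dn C Q f (X n).Q →
    ((X.G (g.fin M) n).pull f).hk Q j lam ≤ δ * M n →
    ((X.G (g.fin M) n).pull f).lk Q lam ≤ δ * M n → Fn Q G lam →
    (∀ v ∈ Q.S, |G v| ≤ Real.exp (δ * M n) ∧ (b = false → G v = 0)) → j + ε * M n ≤ j' →
    j' ≤ M n → (F n).τ (some (b, k)) j' ≤ lo → j ≤ lo → lo ≤ hi → hi ≤ M n →
    (hi - lo : ℝ) * lg ≤ ch Q (fun v => fl1 hi (((X.G g n).pull f).sv k G v)) (fun v =>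
      (fl1 lo (((X.G g n).pull f).sv k G v), fl1 (M n) (((X.G g n).pull f).pt v 0), lam v,
        ((X.G g n).pull f).zt v)) + ε * M n

/-- The uniform form of `XA`. -/
def XAU : Prop := ∀ {N : ℕ} {Ω : ℕ → Type} (K : Mb Ω → Prop) (g : Gs N Ω) (M : ℕ → ℕ) (i : Fin N)
  (η : ℝ) (X : Mb Ω) (C ε : ℝ), Cls0 K g M i η → K X → Fat X.P (X.G g) M i M → 0 < ε →
  ∃ δ : ℝ, 0 < δ ∧ ∀ᶠ n in UF, ∀ (W Λ : Type) (Q : FP W) (f : W → (X n).W) (lam : W → Λ)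
    (j a b : ℕ), K31.Dn C Q f (X n).Q → ((X.G g n).pull f).hk Q j lam ≤ δ * M n →
    ((X.G g n).pull f).lk Q lam ≤ δ * M n → j ≤ a → a ≤ b → b ≤ M n →
    (b - a : ℝ) * lg ≤ ch Q (fun v => fl1 b (((X.G g n).pull f).pt v i)) (fun v =>
      (fl1 a (((X.G g n).pull f).pt v i), lam v, ((X.G g n).pull f).zt v)) + ε * M n

/-! ### Window zoom -/

/-- The context of the window of level `j`. -/
noncomputable def Geo.wc {N : ℕ} {Ω K : Type} (g : Geo N Ω) (j : ℕ) (κ : Ω → K) (ω : Ω) :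
    K × g.T × ℤ × Z N := (κ ω, g.θ ω, fl1 j (g.z ω), fl j (g.lt (g.z0 j ω) ω))

/-- The window of level `j` rescaled to unit size, followed by the linear map `B`. -/
noncomputable abbrev Geo.wz {N N' : ℕ} {Ω K : Type} (g : Geo N Ω) (j : ℕ)
    (B : Ω → Matrix (Fin N') (Fin N) ℝ) (κ : Ω → K) : Geo N' Ω :=
  g.aff j (fun ω => (2 : ℝ) ^ j • B ω)
    (fun ω => ((2 : ℝ) ^ j)⁻¹ • cz (fl j (g.lt (g.z0 j ω) ω))) (fun _ => 0) (g.wc j κ) fun _ => ()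

/-- The members over `X` on which `lam` is a label that determines the bounded matrix `B`. -/
def KW {N N' : ℕ} {Ω Λ : ℕ → Type} (K : Mb Ω → Prop) (g : Gs N Ω) (M j : ℕ → ℕ) (X : Mb Ω)
    (lam : ∀ n, (X n).W → Λ n) (B : ∀ n, (X n).W → Matrix (Fin N') (Fin N) ℝ) (L : ℕ → ℝ)
    (X' : Mb X.W) : Prop :=
  K (X'.map fun n => (X n).ρ) ∧
    Lab X'.P (X'.G (X.G (g.fin M))) M j (fun n v => lam n ((X' n).ρ v)) ∧
    (∀ᶠ n in UF, Fn (X' n).Q (fun v => B n ((X' n).ρ v)) fun v => lam n ((X' n).ρ v)) ∧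
    ∀ᶠ n in UF, ∀ v ∈ (X' n).Q.S, (∀ a b, |B n ((X' n).ρ v) a b| ≤ L n)

/-- The rescaled window is a broad class. -/
def WzC : Prop := ∀ {N N' : ℕ} {Ω Λ : ℕ → Type} (K : Mb Ω → Prop) (g : Gs (N + 1) Ω)
  (M j M' : ℕ → ℕ) (η : ℝ) (X : Mb Ω) (lam : ∀ n, (X n).W → Λ n)
  (B : ∀ n, (X n).W → Matrix (Fin (N' + 1)) (Fin (N + 1)) ℝ) (L : ℕ → ℝ),
  Cls K (g.fin M) M 0 η → BRD K (g.fin M) M 0 η → (∀ n, j n + M' n = M n) → Frac M' M →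
  Sub M L → (∀ n v b, B n v 0 b = if b = 0 then 1 else 0) → KW K g M j X lam B L (Mb.base X.P) →
  Cls (KW K g M j X lam B L) (Gs.fin (fun n => (X.G g n).wz (j n) (B n) (lam n)) M') M' 0 η ∧
    BRD (KW K g M j X lam B L) (Gs.fin (fun n => (X.G g n).wz (j n) (B n) (lam n)) M') M' 0 η

/-- A thin shape in the rescaled window comes with a label of the original system. -/
def WzT : Prop := ∀ {N N' : ℕ} {Ω Λ : ℕ → Type} (K : Mb Ω → Prop) (g : Gs N Ω)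
  (M j M' j₁ τ : ℕ → ℕ) (X : Mb Ω) (lam : ∀ n, (X n).W → Λ n)
  (B : ∀ n, (X n).W → Matrix (Fin N') (Fin N) ℝ) (L : ℕ → ℝ) (s : ∀ n, Shp ((X n).W))
  (X' : Mb X.W), Cl0 K → (∀ X, K X → Bs X.P (X.G (g.fin M)) M) → (∀ n, j n + M' n = M n) →
  Frac M' M → Sub M L →
  (∀ n, (s n).OK (Gs.fin (fun n => (X.G g n).wz (j n) (B n) (lam n)) M' n)) →
  KW K g M j X lam B L X' →
  Thin X'.P (X'.G (Gs.fin (fun n => (X.G g n).wz (j n) (B n) (lam n)) M')) M'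
    (fun n => (s n).pull (X' n).ρ) j₁ τ →
  ∃ (Y : Mb X.W) (Λ' : ℕ → Type) (lam' : ∀ n, (Y n).W → Λ' n) (d : ∀ n, (Y n).W → (s n).D)
    (L' : ℕ → ℝ), KW K g M j X lam B L Y ∧
    Lab Y.P (Y.G (X.G (g.fin M))) M (fun n => j n + j₁ n) lam' ∧ Sub M L' ∧ ∀ᶠ n in UF,
      Fn (Y n).Q (fun v => (d n v, (X.G g n).wc (j n) (lam n) ((Y n).ρ v))) (lam' n) ∧
      ∀ v ∈ (Y n).Q.S, (s n).fit (L' n) (d n v) ((Y n).ρ v) (j₁ n) (τ n)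

/-- The matrix of the projection to the first and the sheared coordinate. -/
def mS (k : Bool) (G : ℝ) : Matrix (Fin 2) (Fin 3) ℝ := fun a b =>
  if a = 0 then (if b = 0 then 1 else 0) else
    if b = co k then 1 else if b = co (!k) then -G else 0

/-- Shapes in the rescaled window are shapes of the original system. -/
structure WzS : Prop where
  pl : ∃ Ψ : ℕ → Bool → ℝ → ℤ × Z 3 → ℝ × ℝ × V 2 → ℝ × ℝ × V 3,
    ∀ {Ω K : Type} (g : Geo 3 Ω) (j j₁ τ : ℕ) (b k : Bool) (G : Ω → ℝ) (κ : Ω → K) (L L' : ℝ)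
      (d : ℝ × ℝ × V 2) (ω : Ω), |G ω| ≤ L → (b = false → G ω = 0) → L ≤ L' →
      ((g.wz j (fun ω => mS k (G ω)) κ).pl {0} 1).fit L' d ω j₁ τ →
      (g.pl (sS b k) (co k)).fit L' (Ψ j k (G ω) (g.wc j κ ω).2.2 d) ω (j + j₁) (j + τ)
  qd : ∃ Ψ : ℕ → ℤ × Z 3 → Qd → Qd,
    ∀ {Ω K : Type} (g : Geo 3 Ω) (j j₁ τ : ℕ) (κ : Ω → K) (L : ℝ) (A : Qd) (ω : Ω),
      (g.wz j (fun _ => (1 : Matrix (Fin 3) (Fin 3) ℝ)) κ).qd.fit L A ω j₁ τ →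
      g.qd.fit L (Ψ j (g.wc j κ ω).2.2 A) ω (j + j₁) (j + τ)

/-- Quadric labels: the trivial one, hyperplanes, and growth. -/
structure KQ : Prop where
  zero : ∃ A : Qd, ∀ {Ω : Type} (P : FP Ω) (g : Geo 3 Ω) (L : ℝ), 1 ≤ L → g.Bx P L →
    ∀ ω ∈ P.S, g.qd.fit (2 * L) A ω 0 0
  pl : ∃ Ψ : Bool → ℝ × ℝ × V 3 → Qd, ∀ {Ω : Type} (g : Geo 3 Ω) (b k : Bool) (L : ℝ)
    (d : ℝ × ℝ × V 3) (ω : Ω) (j τ : ℕ), 1 ≤ L → (g.pl (sS b k) (co k)).fit L d ω j τ →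
    g.qd.fit L (Ψ k d) ω j τ
  grow : ∀ {Ω : ℕ → Type} (P : ∀ n, FP (Ω n)) (g : Gs 3 Ω) (M j i τ : ℕ → ℕ), Bs P g M →
    (∀ m, Fat P g M m M) → (∀ᶠ n in UF, τ n ≤ M n) → Thin P g M (fun n => (g n).qd) j τ →
    Thin P g M (fun n => (g n).qd) (fun n => j n + i n) fun n => min (M n) (τ n + i n)

/-! ### The proof of `ThmF` -/

/-- An optimal family on a subclass. -/
def GoE : Prop := ∀ {Ω : ℕ → Type} (K : Mb Ω → Prop) (g : Gs 3 Ω) (M : ℕ → ℕ) (η : ℝ),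
  Cls K (g.fin M) M 0 η → BRD K (g.fin M) M 0 η →
  ∃ (Ω' : ℕ → Type) (π : ∀ n, Ω' n → Ω n) (K' : Mb Ω' → Prop)
    (F : ∀ n, Fam ((g n).pull (π n)).sh5), (∀ X, K' X → K (X.map π)) ∧
      Go K' (fun n => (g n).pull (π n)) M η F

/-- Raising the floor. -/
def Flr : Prop := ∀ {N : ℕ} {Ω : ℕ → Type} (K : Mb Ω → Prop) (g : Gs N Ω) (M M' : ℕ → ℕ)
  (i : Fin N) (η : ℝ), Frac M' M → Cls K (g.fin M) M i η →
  Cls K (g.fin M') M' i η ∧ (BRD K (g.fin M) M i η → BRD K (g.fin M') M' i η) ∧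
    ∀ (s : ∀ n, Shp (Ω n)) (j b : ℕ → ℕ), (∀ n, (s n).OK (g.fin M' n)) →
      NoLe K (g.fin M) M s j b → NoLe K (g.fin M') M' s j b

/-- A deficiency gives an exact subclass and a good floor. -/
def TF0 : Prop := ∀ {Ω : ℕ → Type} (K : Mb Ω → Prop) (g : Gs 3 Ω) (M b : ℕ → ℕ) (X₀ : Mb Ω),
  Cl K → Big M → (∀ n, b n ≤ M n) → K X₀ →
  (¬Le M (fun n => 3 * (M n - b n : ℝ) * lg) fun n =>
    ch (X₀ n).Q (fun v => fl (M n) ((X₀.G g n).pt v)) fun v =>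
      (fl (b n) ((X₀.G g n).pt v), (X₀.G g n).zt v)) →
  ∃ (K' : Mb Ω → Prop) (φ : ℕ → ℕ → ℝ) (M' : ℕ → ℕ) (ε₀ β : ℝ), Cl K' ∧ (∃ X, K' X) ∧
    (∀ X, K' X → K X) ∧ Frac M' M ∧ 0 < ε₀ ∧ ε₀ ≤ 1 ∧ β < 1 ∧
    Le M' (fun n => b n) (fun n => β * M' n) ∧ NGd (hb M' φ) ε₀ ∧
    (∀ n j, φ n j ≤ φ n (j + 1) ∧ φ n (j + 1) ≤ φ n j + 3 * lg) ∧
    (∃ C : ℝ, ∀ᶠ n in UF, ∀ j, |φ n j| ≤ C * M' n) ∧
    ∀ X, K' X → ∀ a a' : ℕ → ℕ, (∀ n, a n ≤ a' n ∧ a' n ≤ M' n) →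
      Eqv M' (fun n => ch (X n).Q (fun v => fl (a' n) ((X.G g n).pt v)) fun v =>
        (fl (a n) ((X.G g n).pt v), (X.G g n).zt v)) fun n => φ n (a' n) - φ n (a n)

/-- The quadric profile is at the floor at every positive level. -/
def TF2 : Prop := ∀ {Ω : ℕ → Type} (K : Mb Ω → Prop) (g : Gs 3 Ω) (M : ℕ → ℕ) (η : ℝ)
  (F : ∀ n, Fam (g n).sh5) (φ : ℕ → ℕ → ℝ) (ε₀ c : ℝ), Gf K g M η F φ → 0 < ε₀ → ε₀ ≤ 1 →
  NGd (hb M φ) ε₀ → 0 < c → pr M F iQ c = 1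

/-! ### Polynomials at a full point -/

/-- A polynomial with coefficients `C`. -/
def ev (D : ℕ) (C : ℕ → ℝ) (t : ℝ) : ℝ := ∑ i ∈ Finset.range (D + 1), C i * t ^ i

/-- A polynomial at a full point controls the polynomial on the window and its coefficients. -/
structure Spr : Prop where
  win : ∀ {Ω Λ : ℕ → Type} (P : ∀ n, FP (Ω n)) (x : ∀ n, Ω n → ℝ) (κ : ∀ n, Ω n → Λ n)
    (C : ∀ n, Ω n → ℕ → ℝ) (M a b : ℕ → ℕ) (D : ℕ) (ε : ℝ), Big M → 0 < ε →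
    (∀ᶠ n in UF, a n + ε * M n ≤ b n ∧ Fn (P n) (C n) fun ω => (fl1 (a n) (x n ω), κ n ω)) →
    Le M (fun n => (b n - a n : ℝ) * lg) (fun n => ch (P n) (fun ω => fl1 (b n) (x n ω)) fun ω =>
      (fl1 (a n) (x n ω), κ n ω)) →
    ∃ L, Sub M L ∧ Whp P fun n ω => ∀ t : ℝ, fl1 (a n) t = fl1 (a n) (x n ω) →
      |ev D (C n ω) t| ≤ L n * |ev D (C n ω) (x n ω)|
  coef : ∀ {Ω Λ : ℕ → Type} (P : ∀ n, FP (Ω n)) (x : ∀ n, Ω n → ℝ) (κ : ∀ n, Ω n → Λ n)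
    (C : ∀ n, Ω n → ℕ → ℝ) (M a b : ℕ → ℕ) (L₀ : ℕ → ℝ) (D : ℕ) (ε : ℝ), Big M → 0 < ε →
    Sub M L₀ → Whp P (fun n ω => |x n ω| ≤ L₀ n) →
    (∀ᶠ n in UF, a n + ε * M n ≤ b n ∧ Fn (P n) (C n) fun ω => (fl1 (a n) (x n ω), κ n ω)) →
    Le M (fun n => (b n - a n : ℝ) * lg) (fun n => ch (P n) (fun ω => fl1 (b n) (x n ω)) fun ω =>
      (fl1 (a n) (x n ω), κ n ω)) →
    ∃ L, Sub M L ∧ Whp P fun n ω => ∀ i ≤ D,
      |C n ω i| ≤ L n * (2 ^ a n) ^ D * |ev D (C n ω) (x n ω)|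
  fit : ∀ {N : ℕ} {Ω Λ : ℕ → Type} (P : ∀ n, FP (Ω n)) (g : Gs N Ω) (lam : ∀ n, Ω n → Λ n)
    (C : ∀ n, Ω n → ℕ → ℝ) (M j : ℕ → ℕ) (D : ℕ) (ε : ℝ), Bs P g M → Hk P g M j lam → 0 < ε →
    (∀ᶠ n in UF, j n + ε * M n ≤ M n ∧ Fn (P n) (C n) fun ω => ((g n).win (j n) ω, lam n ω)) →
    ∃ L, Sub M L ∧ Whp P fun n ω => ∀ t : ℝ, fl1 (j n) t = fl1 (j n) ((g n).z ω) →
      |ev D (C n ω) t| ≤ L n * |ev D (C n ω) ((g n).z ω)|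

/-! ### Rows -/

def OfPR : Prop := KQ → PR
def OfFB : Prop := WzC → WzT → WzS → ThmU → FB
def OfFQ : Prop := WzC → WzT → WzS → ThmF → FQ
def OfFBU : Prop := FB → FBU
def OfGoE : Prop := KQ → GoE
def OfTF2 : Prop := PR → ExtF → SatF → TF2
def OfThmF : Prop := PR → GoE → Flr → TF0 → TF2 → ThmF
def OfNoBR : Prop := GoE → EndA → NoBR 2

end Pool.Agent.MP_5168f5_an.R4
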