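import Pool.Agent.MP_5168f5_an.R4.UDefs
import Pool.Agent.MP_5168f5_an.R4.SpecT

/-! Kakeya sets in four dimensions, the step for planes: the forms used at the top level. -/

namespace Pool.Agent.MP_5168f5_an.R4

open H19 H17S H17F Filter

/-- The statement `ThmU` without broadness at positive depths. -/
def ThmU0 : Prop := ∀ {Ω : ℕ → Type} (K : Mb Ω → Prop) (g : Gs 2 Ω) (M j b : ℕ → ℕ) (η : ℝ)
  (X : Mb Ω), Cls K (g.fin M) M 0 η → (∀ n, b n ≤ M n) →
  NoLe K (g.fin M) M (fun n => (g n).pl {0} 1) j b → K X →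
  Le M (fun n => (M n - b n : ℝ) * lg) fun n =>
    ch (X n).Q (fun v => fl1 (M n) ((X.G g n).pt v 1)) fun v =>
      (fl1 (b n) ((X.G g n).pt v 1), fl1 (M n) ((X.G g n).pt v 0), (X.G g n).zt v)

theorem thmU0_of (H : U.ThmU) : ThmU0 := by
  intro Ω K g M j b η X hc hb hn hX
  have hM := (hc.bs X hX).big
  by_cases k : Le M (fun n => M n) fun n => b n
  · refine (k.smul lg_pos.le).of_sub (Eventually.of_forall fun n => ?_)
    have := ch_nonneg (P := (X n).Q) (fun v => fl1 (M n) ((X.G g n).pt v 1)) fun v =>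
      (fl1 (b n) ((X.G g n).pt v 1), fl1 (M n) ((X.G g n).pt v 0), (X.G g n).zt v)
    linarith
  obtain ⟨ε, hε, k⟩ := not_Le k
  refine H Ω K (g.fin M) M b M η hc (fun Y hY => ?_) (fun n => ⟨hb n, le_rfl⟩) ?_ X hX
  · have := (kb.fatB Y.P (Y.G (g.fin M)) M (fun n _ => M n) (hc.bs Y hY)).2.1
    exact ⟨this 0, this 1⟩
  · rintro Y τ hY ⟨Λ, lam, d, L, h1, h2, h3⟩
    have h4 := hn Y (fun n => min (τ n) (M n)) hY (Eventually.of_forall fun n => min_le_right _ _)
      ⟨Λ, lam, d, L, ⟨kb.up _ _ _ _ _ _ (Eventually.of_forall fun n => Nat.zero_le _) h1.h, h1.l⟩,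
        h2, h3.mono fun n a => ⟨a.1, fun v hv => kp.anti (g n) _ _ _ _ _ _ _ _ (min_le_left _ _)
          ((kp.ok (g n) {0} 1).monoj _ _ _ _ _ _ (Nat.zero_le _) (a.2 v hv))⟩⟩
    refine h4.congr ?_ (Eventually.of_forall fun _ => rfl)
    filter_upwards [k, h4 ε hε] with n a c
    rcases le_total (τ n) (M n) with e | e
    · rw [min_eq_left e]
    · rw [min_eq_right e] at c; linarith

theorem ThmU0.thmU (H : ThmU0) : ThmU := fun K g M j b η X h _ _ hb hn hX =>
  H K g M j b η X h hb hn hX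

end Pool.Agent.MP_5168f5_an.R4
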