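import Pool.Agent.MP_5168f5_an.R4.NCp3T
import Pool.Agent.MP_5168f5_an.R4.UMu4
import Pool.Agent.MP_5168f5_an.R4.UWrap

/-! Kakeya sets in four dimensions, broad slopes: definitions and small tools. -/

namespace Pool.Agent.MP_5168f5_an.R4.B1

open H19 H17S H17F Filter K31 Tan

/-! ### Units -/

section Unit

variable {M M' : ℕ → ℕ} {f g L : ℕ → ℝ} {C : ℝ}

theorem le_unit (e : ∀ᶠ n in UF, (M n : ℝ) ≤ C * M' n) (h : Le M f g) : Le M' f g := fun ε hε => by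
  filter_upwards [h (ε / (|C| + 1)) (by positivity), e] with n a b
  have h1 : (M n : ℝ) ≤ (|C| + 1) * M' n := b.trans (mul_le_mul_of_nonneg_right
    ((le_abs_self C).trans (le_add_of_nonneg_right zero_le_one)) (Nat.cast_nonneg _))
  have h2 := mul_le_mul_of_nonneg_left h1 (show 0 ≤ ε / (|C| + 1) by positivity)
  rw [← mul_assoc, div_mul_cancel₀ _ (by positivity)] at h2
  linarith

theorem sub_unit (e : ∀ᶠ n in UF, (M n : ℝ) ≤ C * M' n) (h : Sub M L) : Sub M' L :=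
  ⟨h.1, fun ε hε => (le_unit e h.log ε hε).mono fun n a =>
    (Real.log_le_iff_le_exp (h.pos n)).1 (by simpa using a)⟩

theorem big_unit (e : ∀ᶠ n in UF, (M n : ℝ) ≤ C * M' n) (h : Big M) : Big M' :=
  tendsto_atTop.2 fun b => by
    filter_upwards [h.ev ((|C| + 1) * b), e] with n a c
    have h1 := c.trans (mul_le_mul_of_nonneg_right
      ((le_abs_self C).trans (le_add_of_nonneg_right zero_le_one)) (Nat.cast_nonneg (M' n)))
    exact_mod_cast le_of_mul_le_mul_left (a.trans h1) (show 0 < |C| + 1 by positivity)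

theorem om_cast {j : ℕ → ℕ} (h : OM M j) : ∃ C : ℝ, ∀ᶠ n in UF, (j n : ℝ) ≤ C * M n :=
  h.elim fun C e => ⟨C, e.mono fun n a => by exact_mod_cast a⟩

theorem om_of {j : ℕ → ℕ} (e : ∀ᶠ n in UF, (j n : ℝ) ≤ C * M n) : OM M j :=
  ⟨⌈C⌉₊, e.mono fun n a => by
    exact_mod_cast a.trans (mul_le_mul_of_nonneg_right (Nat.le_ceil C) (Nat.cast_nonneg (M n)))⟩

theorem inv_unit {κ : ℝ} (hκ : 0 < κ) (e : ∀ᶠ n in UF, κ * M n ≤ M' n) :
    ∀ᶠ n in UF, (M n : ℝ) ≤ κ⁻¹ * M' n := e.mono fun n a => by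
  rw [← div_eq_inv_mul, le_div_iff₀ hκ]; linarith

/-- A depth that is missed by `o(M)` digits. -/
theorem sub_gap {q τ : ℕ → ℕ} (h : Le M (fun n => q n) fun n => τ n) (hL : Sub M L) :
    ∃ L', Sub M L' ∧ ∀ n, L n ≤ L' n ∧ L n / 2 ^ τ n ≤ L' n / 2 ^ q n := by
  have h1 : Sub M fun n => (2 : ℝ) ^ (q n - τ n) := ⟨fun n => one_le_pow₀ one_le_two, fun ε hε => by
    filter_upwards [h ε hε] with n a
    refine (two_pow_le_exp _).trans (Real.exp_le_exp.2 ?_)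
    rcases le_total (q n) (τ n) with e | e
    · rw [Nat.sub_eq_zero_of_le e, Nat.cast_zero]; positivity
    · rw [Nat.cast_sub e]; linarith⟩
  refine ⟨_, hL.mul h1, fun n => ⟨le_mul_of_one_le_right (hL.pos n).le (h1.1 n), ?_⟩⟩
  rw [div_le_div_iff₀ (by positivity) (by positivity), mul_assoc, ← pow_add]
  exact mul_le_mul_of_nonneg_left (pow_le_pow_right₀ one_le_two (by omega)) (hL.pos n).le

end Unit

/-! ### Variables that are almost determined -/

/-- `F` has entropy `o(M)` given `G`. -/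
def ND {Ω α β : ℕ → Type} (P : ∀ n, FP (Ω n)) (M : ℕ → ℕ) (F : ∀ n, Ω n → α n)
    (G : ∀ n, Ω n → β n) : Prop := Sm M fun n => ch (P n) (F n) (G n)

section ND

variable {Ω α α' β β' γ : ℕ → Type} {P : ∀ n, FP (Ω n)} {M : ℕ → ℕ} {F : ∀ n, Ω n → α n}
  {F' : ∀ n, Ω n → α' n} {G : ∀ n, Ω n → β n} {G' : ∀ n, Ω n → β' n} {K : ∀ n, Ω n → γ n}

theorem ND.of_fn (h : ∀ᶠ n in UF, Fn (P n) (F n) (G n)) : ND P M F G :=
  Le.of_ev (h.mono fun _ a => (ch_zero a).le)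

theorem ND.rfl : ND P M F F := ND.of_fn (Eventually.of_forall fun _ => Fn.rfl _)

theorem ND.trans (h : ND P M F G) (h' : ND P M G K) : ND P M F K :=
  Sm.mono (Sm.add h h') (Eventually.of_forall fun _ => ch_tri' _ _ _)

theorem ND.pair (h : ND P M F G) (h' : ND P M F' G) : ND P M (fun n ω => (F n ω, F' n ω)) G :=
  Sm.mono (Sm.add h h') (Eventually.of_forall fun _ => ch_subadd _ _ _)

theorem ND.anti (h : ND P M F G) (e : ∀ᶠ n in UF, Fn (P n) (G n) (G' n)) : ND P M F G' :=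
  h.trans (ND.of_fn e)

theorem ND.mono (h : ND P M F G) (e : ∀ᶠ n in UF, Fn (P n) (F' n) (F n)) : ND P M F' G :=
  (ND.of_fn e).trans h

/-- First determine `F'`, then use it. -/
theorem ND.cut (h : ND P M F' G) (h' : ND P M F fun n ω => (F' n ω, G n ω)) : ND P M F G :=
  h'.trans (h.pair ND.rfl)

/-- Comparison of conditional entropies. -/
theorem ND.le (h : ND P M F fun n ω => (F' n ω, G n ω)) (h' : ND P M G' G) :
    Le M (fun n => ch (P n) (F n) (G n)) fun n => ch (P n) (F' n) (G' n) :=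
  (Le.add h h').of_sub (Eventually.of_forall fun n => by
    linarith [ch_tri (P := P n) (F n) (F' n) (G n), ch_tri' (P := P n) (F' n) (G n) (G' n)])

theorem ND.dn {W : ℕ → Type} {Q : ∀ n, FP (W n)} {ρ : ∀ n, W n → Ω n} (h : ND P M F G)
    (e : DnS Q ρ P) : ND Q M (fun n v => F n (ρ n v)) fun n v => G n (ρ n v) := e.sm_ch h

theorem ND.unit {M' : ℕ → ℕ} {C : ℝ} (h : ND P M F G) (e : ∀ᶠ n in UF, (M n : ℝ) ≤ C * M' n) :
    ND P M' F G := le_unit e h

/-- A bounded variable that is likely close to a function of `G`. -/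
theorem ND.near {x c : ∀ n, Ω n → ℝ} {j : ℕ → ℕ} {L : ℕ → ℝ} (hM : Big M) (hL : Sub M L)
    (hj : OM M j) (h : ∀ᶠ n in UF, Fn (P n) (c n) (G n) ∧ ∀ a ∈ (P n).S, |x n a| ≤ L n)
    (hE : Whp P fun n ω => |x n ω - c n ω| ≤ L n / 2 ^ j n) :
    ND P M (fun n ω => fl1 (j n) (x n ω)) G := by
  obtain ⟨C, hC⟩ := om_cast hj
  have e1 : ∀ᶠ n in UF, (M n : ℝ) ≤ 1 * (M n + j n : ℕ) := Eventually.of_forall fun n => by
    push_cast; linarith [Nat.cast_nonneg (α := ℝ) (j n)]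
  have e2 : ∀ᶠ n in UF, ((M n + j n : ℕ) : ℝ) ≤ (1 + C) * M n := hC.mono fun n a => by
    push_cast; linarith
  refine le_unit e2 (U.UMu4A.nearW (M := fun n => M n + j n) (L := fun n => 2 * L n)
    (big_unit e1 hM) (sub_unit e1 (hL.const_mul hM one_le_two)) hE (fun n => Nat.le_add_left _ _)
    (h.mono fun n ⟨a1, a2⟩ => ⟨fun a ha => ?_, fun a ha b hb u v w => ?_⟩))
  · have := one_le_pow₀ (M₀ := ℝ) (n := M n + j n) one_le_two
    nlinarith [a2 a ha, hL.1 n]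
  · rw [← a1 a ha b hb w, abs_sub_comm] at v
    have := abs_sub_le (x n a) (c n a) (x n b)
    rw [mul_div_assoc]; linarith

/-- A variable that is surely close to a function of `G`. -/
theorem ND.sure {x c : ∀ n, Ω n → ℝ} {j : ℕ → ℕ} {L : ℕ → ℝ} (hM : Big M) (hL : Sub M L)
    (h : ∀ᶠ n in UF, Fn (P n) (c n) (G n) ∧ ∀ a ∈ (P n).S, |x n a - c n a| ≤ L n / 2 ^ j n) :
    ND P M (fun n ω => fl1 (j n) (x n ω)) G :=
  Sm.near1 hM (hL.const_mul hM one_le_two) (h.mono fun n ⟨a1, a2⟩ a ha b hb w => by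
    have v := a2 b hb
    rw [← a1 a ha b hb w, abs_sub_comm] at v
    have := abs_sub_le (x n a) (c n a) (x n b)
    rw [mul_div_assoc]; linarith [a2 a ha])

end ND

/-- Copies over an extension. -/
theorem law_glue {W Ω Ω' β : Type} {Q : FP W} {P : FP Ω} {ρ : W → Ω} (h : Law Q ρ P id)
    (P' : FP Ω') (l : Ω → β) (l' : Ω' → β) :
    Law (glue Q P' (fun v => l (ρ v)) l') (fun v => (ρ v.1, v.2)) (glue P P' l l') id := fun F => by
  rw [KGA.E_glue, KGA.E_glue]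
  exact h fun x => (cv P' l' (l x)).E fun y => F (x, y)

/-- The cells at the point and for the slopes. -/
theorem cell_near {Ω : ℕ → Type} {P : ∀ n, FP (Ω n)} {g : Gs 3 Ω} {M a p : ℕ → ℕ}
    {S : Finset (Fin 3)} {k : Fin 3} {d : ∀ n, ℕ → Ω n → ℝ × ℝ × V 3} {wt : ℝ}
    (h : Cell P g M S k d wt) (hM : Big M) (hw : 0 ≤ wt) (ha : OM M a)
    (hp : Le M (fun n => p n) fun n => wt * a n) : ∃ L, Sub M L ∧ Whp P fun n ω =>
      |(d n (a n) ω).2.1| ≤ L n ∧
      (∀ i, |(d n (a n) ω).2.2 i| ≤ L n ∧ (i ∉ S → (d n (a n) ω).2.2 i = 0)) ∧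
      |(g n).pt ω k - (d n (a n) ω).1 - (d n (a n) ω).2.1 * (g n).z ω -
        ∑ i, (d n (a n) ω).2.2 i * (g n).pt ω i| ≤ L n / 2 ^ p n ∧
      |(g n).e ω k - (d n (a n) ω).2.1 - ∑ i, (d n (a n) ω).2.2 i * (g n).e ω i| ≤
        L n * 2 ^ a n / 2 ^ p n := by
  obtain ⟨L, hL, e⟩ := h a (fun n => ⌊wt * a n⌋₊) ha
    (Eventually.of_forall fun n => Nat.floor_le (by positivity))
  obtain ⟨L', hL', k⟩ := sub_gap (q := p) (τ := fun n => ⌊wt * a n⌋₊) (hp.of2 (hM.sm 1)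
    (Eventually.of_forall fun n => by linarith [Nat.lt_floor_add_one (wt * a n)])) hL
  refine ⟨_, hL'.const_mul hM (by norm_num : (1 : ℝ) ≤ 4), e.mono
    (Eventually.of_forall fun n ω _ u => ?_)⟩
  obtain ⟨v1, v2⟩ := (kp.iff (g n) S _ (L n) _ ω _ _).1 u
  have l0 := hL'.pos n
  have l1 : L n ≤ 4 * L' n := by linarith [(k n).1]
  have l2 : L' n / 2 ^ p n ≤ 4 * L' n / 2 ^ p n :=
    div_le_div_of_nonneg_right (by linarith) (by positivity)
  refine ⟨u.1.trans l1, fun i => ⟨(u.2.1 i).1.trans l1, (u.2.1 i).2⟩,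
    v1.trans ((k n).2.trans l2), v2.trans ?_⟩
  have := mul_le_mul_of_nonneg_left (k n).2 (show (0 : ℝ) ≤ 4 * 2 ^ a n by positivity)
  calc _ = 4 * 2 ^ a n * (L n / 2 ^ ⌊wt * a n⌋₊) := by ring
    _ ≤ _ := this
    _ = _ := by ring

section Cell

variable {Ω β : ℕ → Type} {P : ∀ n, FP (Ω n)} {g : Gs 3 Ω} {M a p r : ℕ → ℕ} {k : Fin 3}
  {d : ∀ n, ℕ → Ω n → ℝ × ℝ × V 3} {wt : ℝ} {G : ∀ n, Ω n → β n} {L : ℕ → ℝ}

theorem abs_pt {N : ℕ} {Ω : Type} {P : FP Ω} {g : Geo N Ω} {L : ℝ} (h : g.Bx P L) {ω : Ω}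
    (hω : ω ∈ P.S) (i : Fin N) : |g.pt ω i| ≤ 2 * L := by
  obtain ⟨h1, h2, h3⟩ := h.bd ω hω
  have e : g.pt ω i = g.a ω i + g.z ω * g.e ω i := rfl
  have := abs_add_le (g.a ω i) (g.z ω * g.e ω i)
  rw [abs_mul, abs_of_nonneg h2] at this
  rw [e]; nlinarith [(h1 i).1, (h1 i).2, abs_nonneg (g.e ω i)]

/-- The line at depth `r` and the height determine the point at depth `r`. -/
theorem nd_pt {a e z : ∀ n, Ω n → ℝ} (hM : Big M) (h : ∀ᶠ n in UF,
    Fn (P n) (fun ω => (fl1 (r n) (a n ω), fl1 (r n) (e n ω), z n ω)) (G n) ∧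
      ∀ ω ∈ (P n).S, |z n ω| ≤ 1) :
    ND P M (fun n ω => fl1 (r n) (a n ω + z n ω * e n ω)) G :=
  ND.sure (c := fun n ω => U.rd (r n) (a n ω) + z n ω * U.rd (r n) (e n ω)) hM
    (hM.sub one_le_two) (h.mono fun n ⟨h1, h2⟩ => ⟨fun u hu v hv w => by
      have := h1 u hu v hv w
      simp only [Prod.mk.injEq] at this
      simp only [U.rd, this.1, this.2.1, this.2.2], fun ω hω => by
      have e1 := U.abs_sub_rd (r n) (a n ω)
      have e2 := mul_le_mul (h2 ω hω) (U.abs_sub_rd (r n) (e n ω)) (abs_nonneg _) zero_le_one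
      rw [← abs_mul] at e2
      have := abs_add_le (a n ω - U.rd (r n) (a n ω)) (z n ω * (e n ω - U.rd (r n) (e n ω)))
      rw [show a n ω + z n ω * e n ω - (U.rd (r n) (a n ω) + z n ω * U.rd (r n) (e n ω)) =
        a n ω - U.rd (r n) (a n ω) + z n ω * (e n ω - U.rd (r n) (e n ω)) by ring,
        show (2 : ℝ) / 2 ^ r n = 1 / 2 ^ r n + 1 * (1 / 2 ^ r n) by ring]
      linarith⟩)

theorem sum0 {c x : V 3} (h : ∀ i, i ∉ ({0} : Finset (Fin 3)) → c i = 0) :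
    ∑ i, c i * x i = c 0 * x 0 := by
  rw [Fin.sum_univ_three, h 1 (by decide), h 2 (by decide)]; ring

theorem sum01 {c x : V 3} (h : ∀ i, i ∉ ({0, 1} : Finset (Fin 3)) → c i = 0) :
    ∑ i, c i * x i = c 0 * x 0 + c 1 * x 1 := by
  rw [Fin.sum_univ_three, h 2 (by decide)]; ring

theorem near_rd {y c x L : ℝ} {p r : ℕ} (h : |y - c * x| ≤ L / 2 ^ p) (hc : |c| ≤ L) (e : p ≤ r) :
    |y - c * U.rd r x| ≤ 2 * L / 2 ^ p := by
  have l0 := (abs_nonneg c).trans hc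
  have e1 := mul_le_mul hc ((U.abs_sub_rd r x).trans (U.div_pow_le zero_le_one e)) (abs_nonneg _) l0
  rw [← abs_mul] at e1
  have := abs_add_le (y - c * x) (c * (x - U.rd r x))
  rw [show y - c * x + c * (x - U.rd r x) = y - c * U.rd r x by ring] at this
  rw [show 2 * L / 2 ^ p = L / 2 ^ p + L * (1 / 2 ^ p) by ring]
  linarith

/-- A cell over the first coordinate determines the point. -/
theorem cell0_pt (h : Cell P g M {0} k d wt) (hM : Big M) (hw : 0 ≤ wt) (ha : OM M a)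
    (hr : OM M r) (hp : Le M (fun n => p n) fun n => wt * a n) (hL : Sub M L)
    (e : ∀ᶠ n in UF, p n ≤ r n ∧ (g n).Bx (P n) (L n) ∧
      Fn (P n) (fun ω => (d n (a n) ω, fl1 (r n) ((g n).pt ω 0), (g n).z ω)) (G n)) :
    ND P M (fun n ω => fl1 (p n) ((g n).pt ω k)) G := by
  obtain ⟨L', hL', w⟩ := cell_near h hM hw ha hp
  refine ND.near (c := fun n ω => (d n (a n) ω).1 + (d n (a n) ω).2.1 * (g n).z ω +
    (d n (a n) ω).2.2 0 * U.rd (r n) ((g n).pt ω 0)) hM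
    ((hL.add hL' hM).const_mul hM one_le_two) (hr.mono (e.mono fun _ u => u.1))
    (e.mono fun n u => ⟨fun x hx y hy q => ?_, fun ω hω =>
      (abs_pt u.2.1 hω k).trans (by linarith [hL'.pos n])⟩)
    (w.mono (e.mono fun n u ω _ ⟨_, v2, v3, _⟩ => ?_))
  · have := u.2.2 x hx y hy q
    simp only [Prod.mk.injEq] at this
    simp only [U.rd, this.1, this.2.1, this.2.2]
  · rw [sum0 fun i => (v2 i).2] at v3
    refine le_trans (le_of_eq (congrArg _ (by ring))) ((near_rd v3 (v2 0).1 u.1).trans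
      (div_le_div_of_nonneg_right (by linarith [hL.pos n]) (by positivity)))

/-- A cell over the first coordinate determines the slope. -/
theorem cell0_sl (h : Cell P g M {0} k d wt) (hM : Big M) (hw : 0 ≤ wt) (ha : OM M a)
    (hr : OM M r) (hp : Le M (fun n => p n) fun n => (wt - 1) * a n) (hL : Sub M L)
    (e : ∀ᶠ n in UF, p n ≤ r n ∧ (g n).Bx (P n) (L n) ∧
      Fn (P n) (fun ω => (d n (a n) ω, fl1 (r n) ((g n).e ω 0))) (G n)) :
    ND P M (fun n ω => fl1 (p n) ((g n).e ω k)) G := by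
  obtain ⟨L', hL', w⟩ := cell_near (p := fun n => p n + a n) h hM hw ha
    (hp.of_sub (Eventually.of_forall fun n => by push_cast; linarith))
  refine ND.near (c := fun n ω => (d n (a n) ω).2.1 +
    (d n (a n) ω).2.2 0 * U.rd (r n) ((g n).e ω 0)) hM
    ((hL.add hL' hM).const_mul hM one_le_two) (hr.mono (e.mono fun _ u => u.1))
    (e.mono fun n u => ⟨fun x hx y hy q => ?_, fun ω hω =>
      ((u.2.1.bd ω hω).1 k).2.trans (by linarith [hL'.pos n, hL.pos n])⟩)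
    (w.mono (e.mono fun n u ω _ ⟨_, v2, _, v4⟩ => ?_))
  · have := u.2.2 x hx y hy q
    simp only [Prod.mk.injEq] at this
    simp only [U.rd, this.1, this.2]
  · rw [sum0 fun i => (v2 i).2, pow_add, mul_div_mul_right _ _ (by positivity)] at v4
    refine le_trans (le_of_eq (congrArg _ (by ring))) ((near_rd v4 (v2 0).1 u.1).trans
      (div_le_div_of_nonneg_right (by linarith [hL.pos n]) (by positivity)))

theorem nest_le {Ω Λ : Type} {P : FP Ω} {S : ℕ → Ω → Λ} (h : ∀ j, Fn P (S j) (S (j + 1)))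
    {i j : ℕ} (e : i ≤ j) : Fn P (S i) (S j) := by
  induction e with
  | refl => exact Fn.rfl _
  | step _ ih => exact ih.trans (h _)

/-- A multiple of the unit that dominates a given depth. -/
theorem om_big (h : OM M r) : ∃ C : ℕ, 0 < C ∧ (∀ᶠ n in UF, r n ≤ C * M n) ∧
    (∀ᶠ n in UF, (M n : ℝ) ≤ 1 * (C * M n : ℕ)) ∧ ∀ᶠ n in UF, ((C * M n : ℕ) : ℝ) ≤ C * M n := by
  obtain ⟨C, e⟩ := h
  refine ⟨C + 1, C.succ_pos, e.mono fun n u => u.trans (Nat.mul_le_mul_right _ C.le_succ),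
    Eventually.of_forall fun n => ?_, Eventually.of_forall fun n => by push_cast; exact le_rfl⟩
  rw [one_mul]; exact_mod_cast Nat.le_mul_of_pos_left _ C.succ_pos

end Cell

/-! ### Definitions -/

/-- The first coordinate at depth `r`, the height and the context. -/
noncomputable def xz {Ω : Type} (g : Geo 3 Ω) (r : ℕ) (ω : Ω) : ℤ × ℝ × g.T :=
  (fl1 r (g.pt ω 0), g.zt ω)

/-- The context of the vertical system: the base line at depth `r` and the lines of the coordinates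
`i`, `i'` at depth `α`. -/
noncomputable def vk {Ω : Type} (g : Geo 3 Ω) (i i' : Fin 3) (α r : ℕ) (ω : Ω) :
    g.T × (ℤ × ℤ) × (ℤ × ℤ) × ℤ × ℤ :=
  (g.θ ω, bl g r ω, (fl1 α (g.a ω i), fl1 α (g.e ω i)), fl1 α (g.a ω i'), fl1 α (g.e ω i'))

/-- The vertical system: the coordinates `i`, `i'` in the tube of depth `α`, rescaled. -/
noncomputable def vs {Ω : Type} (g : Geo 3 Ω) (i i' : Fin 3) (α r : ℕ) : Geo 2 Ω :=
  ⟨_, Unit, fun ω => ![Int.fract (2 ^ α * g.a ω i), Int.fract (2 ^ α * g.a ω i')],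
    fun ω => ![Int.fract (2 ^ α * g.e ω i), Int.fract (2 ^ α * g.e ω i')], g.z, vk g i i' α r,
    fun _ => ()⟩

/-- Given `Γ` and `Θ` the point `(u, f)` lies on a segment of slope `G` to depth `q'`, and `u` is
full between the depths `q` and `q'`. -/
structure Seg {Ω T Λ : ℕ → Type} (P : ∀ n, FP (Ω n)) (u f : ∀ n, Ω n → ℝ) (Θ : ∀ n, Ω n → T n)
    (Γ : ∀ n, Ω n → Λ n) (G : ∀ n, Ω n → ℝ) (M q q' : ℕ → ℕ) : Prop where
  fit : ∃ (c : ∀ n, Ω n → ℝ) (L : ℕ → ℝ), Sub M L ∧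
    (∀ᶠ n in UF, Fn (P n) (G n) (Γ n) ∧ Fn (P n) (c n) fun ω => (Γ n ω, Θ n ω)) ∧
    Whp P fun n ω => |G n ω| ≤ L n ∧ |f n ω - G n ω * u n ω - c n ω| ≤ L n / 2 ^ q' n
  ful : Le M (fun n => (q' n - q n : ℝ) * lg) fun n => ch (P n) (fun ω => fl1 (q' n) (u n ω))
    fun ω => (fl1 (q n) (u n ω), Γ n ω, Θ n ω)

end Pool.Agent.MP_5168f5_an.R4.B1
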