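import Pool.Agent.MP_5168f5_an.R4.SpecC
import Pool.Agent.MP_5168f5_an.R4.BApi

/-! The grain at the point. -/

namespace Pool.Agent.MP_5168f5_an.R4.CI

open H19 H17S H17F Filter NCx Tan
open Web (RV rd G3 sl TFul)
open B1 (ND nd_pt)

namespace GrPtA

section One

variable {Ω α₁ α₂ α₃ α₄ α₅ α₆ α₇ α₈ α₉ β₁ β₂ β₃ β₄ : Type} {P : FP Ω} {S : Ω → α₁} {Z : Ω → α₂}
  {W : Ω → α₃} {κ : Ω → α₄} {z : Ω → α₅} {l : Ω → α₆} {ρ : Ω → α₇} {t : Ω → α₈} {θ : Ω → α₉}
  {c : Ω → β₁} {G : Ω → β₂}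

theorem inf_le (w : Ω → β₃) (x : Ω → β₄) (hG : Fn P G fun ω => ((W ω, κ ω, z ω), Z ω))
    (h1 : Fn P θ Z) (h2 : Fn P Z S) (h3 : Fn P t W) (h4 : Fn P W ρ) (h5 : Fn P S ρ)
    (h6 : Fn P z ρ) (h7 : Fn P t l) (h8 : Fn P c Z) (h9 : Fn P W fun ω => (x ω, l ω)) :
    mi P S G Z ≤ mi P w S θ + ch P W (fun ω => (w ω, Z ω)) + mi P κ l t +
      mi P z (fun ω => (l ω, S ω)) c + ch P x (fun ω => (κ ω, l ω, S ω)) + 2 * mi P κ ρ l := by
  have a0 := mi_mono (F := S) hG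
  rw [mi_chain, mi_chain] at a0
  have a1 := mi_near (P := P) S W w Z
  have a2 := mi_cond (F := w) (G := S) h1 (h2.left θ)
  have a3 := mi_right (F := κ) (G := ρ) (G' := S) (K := t) (K' := fun ω => (W ω, Z ω)) (h3.left Z)
    ((h4.pair (h2.trans h5)).left t) (h5.left t)
  have a4 := mi_mono (P := P) (F := κ) (K := t) ((Fn.snd l ρ).left t)
  rw [mi_chain] at a4
  have a5 := mi_cond (F := κ) (G := ρ) (Fn.fst (P := P) l t) ((Fn.snd ρ l).pair (h7.right ρ))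
  have a6 := ch_anti (F := z) (G' := fun ω => (κ ω, W ω, Z ω)) ((h8.right W).right κ)
  have a7 := ch_anti (F := z) (G := fun ω => (S ω, κ ω, W ω, Z ω))
    (G' := fun ω => (x ω, κ ω, l ω, S ω)) (((((Fn.snd l S).right κ).right x)).pair
      (((Fn.fst κ _).right x).pair ((h9.trans ((Fn.fst x _).pair
        (((Fn.fst l S).right κ).right x))).pair (((h2.right l).right κ).right x))))
  have a8 := ch_drop (P := P) z x fun ω => (κ ω, l ω, S ω)
  have a9 := mi_right (F := κ) (G := ρ) (G' := z) (K := l) (K' := fun ω => (l ω, S ω)) (Fn.fst l S)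
    ((Fn.snd ρ l).pair (h5.left l)) (h6.left l)
  have a10 := ch_anti (P := P) (F := z) (Fn.fst (fun ω => (l ω, S ω)) c)
  rw [mi_symm S w] at a1
  rw [mi_symm S κ, mi_symm S z] at a0
  rw [mi_symm κ z] at a9
  simp only [mi] at *
  linarith

theorem low_le {F : Ω → β₃} (h1 : Fn P θ c) (h2 : Fn P c fun ω => (l ω, κ ω)) (h3 : Fn P F l)
    (h4 : Fn P z ρ) (h5 : Fn P θ l) :
    ch P F c ≤ ch P F (fun ω => (z ω, c ω)) + mi P z l θ + mi P κ ρ l := by
  have a1 := mi_right (F := z) (G := fun ω => (l ω, κ ω)) (G' := F) h1 (h2.left θ)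
    ((h3.left κ).left θ)
  have a2 := mi_right (F := κ) (G := ρ) (G' := z) (K := l) (K' := fun ω => (l ω, θ ω)) (Fn.fst l θ)
    ((Fn.snd ρ l).pair (h5.right ρ)) (h4.left l)
  rw [mi_chain, mi_symm z F, mi_symm z κ] at a1
  simp only [mi] at *
  linarith

variable (g : Geo 3 Ω)

theorem fv_eq (ω : Ω) (i : Fin 2) : fv g ω i = g.pt ω i.succ := by fin_cases i <;> rfl

theorem fv_add (ω : Ω) (i : Fin 2) : fv g ω i = fa g ω i + g.z ω * fe g ω i := by
  fin_cases i <;> rfl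

theorem fn_tl (J M : ℕ) : Fn P (tl g J M) g.ln := fun a _ b _ e => by
  simp only [Geo.ln, Prod.mk.injEq] at e
  simp only [tl, bl, fe, e.1, e.2.1, e.2.2]

theorem fn_fa : Fn P (fa g) g.ln := fun a _ b _ e => by
  simp only [Geo.ln, Prod.mk.injEq] at e
  simp only [fa, e.1]

theorem fn_fe {J M r : ℕ} (h : r ≤ M) (i : Fin 2) :
    Fn P (fun ω => fl1 r (fe g ω i)) (tl g J M) := fun _ _ _ _ e =>
  fl1_eq_of_le h (congrFun (congrArg (·.2.1) e) i)

theorem fn_pt (J : ℕ) : Fn P (fun ω => fl1 J (g.pt ω 0)) g.core := fun a _ b _ e => by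
  simp only [Geo.core, Geo.ln, Prod.mk.injEq] at e
  simp only [Geo.pt, Geo.lt, e.1.1, e.1.2.1, e.2.1]

theorem nr {J : ℕ} {x y : ℝ} (h : fl1 J x = fl1 J y) : |x - y| ≤ 1 / 2 ^ J :=
  (abs_sub_lt_of_fl1_eq h).le.trans_eq (inv_eq_one_div _)

theorem tri {x y o o' t L : ℝ} (h : |x - o| ≤ L * t) (h' : |y - o'| ≤ L * t) (e : |o - o'| ≤ t) :
    |x - y| ≤ (2 * L + 1) * t := by
  rw [abs_le] at *
  constructor <;> linarith [h.1, h.2, h'.1, h'.2, e.1, e.2]

end One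

theorem nd_eq {Ω β : ℕ → Type} {P : ∀ n, FP (Ω n)} {M r : ℕ → ℕ} {G : ∀ n, Ω n → β n}
    {x : RV Ω} (a e z : RV Ω) (hM : Big M) (hx : ∀ n ω, x n ω = a n ω + z n ω * e n ω)
    (h : ∀ᶠ n in UF, Fn (P n) (fun ω => (fl1 (r n) (a n ω), fl1 (r n) (e n ω), z n ω)) (G n) ∧
      ∀ ω ∈ (P n).S, |z n ω| ≤ 1) : ND P M (fun n ω => fl1 (r n) (x n ω)) G := by
  simp only [hx]
  exact nd_pt hM h

variable {Ω B Λ : ℕ → Type} {P : ∀ n, FP (Ω n)} {g : Gs 3 Ω} {D : ∀ n, Td (Ω n)} {M J : ℕ → ℕ}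
  {L : ℕ → ℝ} {ρ : ∀ n, Ω n → B n} {κ : ∀ n, Ω n → Λ n} {β : RV Ω} {s lam : ℕ → ℕ} {i : Fin 2}
  {ε : ℝ}

theorem fn_zc (h : Pz P g D M J L) :
    ∀ᶠ n in UF, Fn (P n) (zc (g n) (D n) (J n)) ((D n).S (J n)) := h.fn.mono fun n u a ha b hb e => by
  have := u a ha b hb e
  simp only [Prod.mk.injEq] at this
  simp only [zc, this.1, this.2.1, this.2.2.1]

theorem inf (h : Pz P g D M J L) (k : Gr P g M J ρ κ β s lam i ε)
    (hρ : ∀ n, Fn (P n) (fun ω => ((g n).core ω, (D n).S (J n) ω)) (ρ n)) :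
    Sm M fun n => mi (P n) ((D n).S (J n)) (gp (g n) (D n) (J n) (M n) (κ n))
      (zc (g n) (D n) (J n)) := by
  have hM := h.big
  have s1 := (h.sub.const_mul hM one_le_two).add (hM.sub le_rfl) hM
  have nx : ND P M (fun n ω => fl1 (J n) ((g n).pt ω 0)) fun n => zc (g n) (D n) (J n) :=
    Sm.near1 hM s1 (h.su.mono fun n u a ha b hb e => by
      rw [div_eq_mul_one_div]
      exact tri (div_eq_mul_one_div (L n) _ ▸ (u a ha).ball 0)
        (div_eq_mul_one_div (L n) _ ▸ (u b hb).ball 0) (nr (congrArg (·.2.1) e)))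
  have na : ND P M (fun n ω => fl1 (J n) ((g n).a ω 0)) fun n ω =>
      (fl1 (J n) ((g n).e ω 0), zc (g n) (D n) (J n) ω) :=
    Sm.near1 hM ((s1.add h.sub hM).add (hM.sub le_rfl) hM) (h.su.mono fun n u a ha b hb e => by
      have e1 := tri (div_eq_mul_one_div (L n) _ ▸ (u a ha).ball 0)
        (div_eq_mul_one_div (L n) _ ▸ (u b hb).ball 0) (nr (congrArg (·.2.2.1) e))
      have e2 := mul_le_mul ((u a ha).box.1 0).2 (nr (congrArg (·.2.1) e)) (abs_nonneg _)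
        (h.sub.pos n).le
      have e3 := mul_le_mul (u b hb).box.2.2.le (nr (congrArg (·.1) e)) (abs_nonneg _) zero_le_one
      rw [← abs_of_nonneg (u b hb).box.2.1] at e3
      rw [← abs_mul, abs_le] at e2 e3
      rw [show (g n).pt a 0 = (g n).a a 0 + (g n).z a * (g n).e a 0 from rfl,
        show (g n).pt b 0 = (g n).a b 0 + (g n).z b * (g n).e b 0 from rfl, abs_le] at e1
      rw [div_eq_mul_one_div, abs_le]
      constructor <;> linarith [e1.1, e1.2, e2.1, e2.2, e3.1, e3.2])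
  have nb := na.pair (B1.ND.of_fn (Eventually.of_forall fun _ => Fn.fst _ _))
  have nθ : ND P M (fun n => (g n).θ) fun n ω =>
      (fl1 (J n) ((g n).e ω 0), zc (g n) (D n) (J n) ω) :=
    B1.ND.of_fn (Eventually.of_forall fun _ _ _ _ _ e => congrArg (·.2.2.2) e)
  have nW := (nb.pair ((B1.ND.trans h.nil (nb.pair nθ)).pair nθ)).pair
    (nx.anti (Eventually.of_forall fun _ => Fn.snd _ _))
  have nx' := nx.anti (G' := fun n ω => (κ n ω, (g n).ln ω, (D n).S (J n) ω))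
    ((fn_zc h).mono fun _ u => (u.right _).right _)
  refine Le.of5 h.typ nW k.inf h.inJ nx' ((fn_zc h).mono fun n u => ?_)
  have hc : Fn (P n) (g n).core (ρ n) := (Fn.fst _ _).trans (hρ n)
  have := inf_le (W := fun ω => (tl (g n) (J n) (M n) ω, fl1 (J n) ((g n).pt ω 0))) (κ := κ n)
    (Z := zc (g n) (D n) (J n)) (z := (g n).z) (G := gp (g n) (D n) (J n) (M n) (κ n)) (θ := (g n).θ)
    (c := fun ω => (fl1 (J n) ((g n).z ω), (g n).θ ω)) (fun ω => fl1 (J n) ((g n).e ω 0))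
    (fun ω => fl1 (J n) ((g n).pt ω 0))
    (Fn.comp (fun v : ((_ × _) × _ × _) × _ × _ × _ =>
      (v.1.2.1, v.1.1.1, v.2, v.1.1.2, v.1.2.2, v.2.2.2)) _)
    (Fn.comp (·.2.2) (zc (g n) (D n) (J n))) u (Fn.fst _ _)
    ((((fn_tl _ _ _).trans (Fn.comp (·.1) (g n).core)).pair (fn_pt _ _)).trans hc)
    ((Fn.snd _ _).trans (hρ n)) ((Fn.comp (·.2.1) _).trans hc) (fn_tl _ _ _)
    (Fn.comp (fun v : _ × _ × _ => (v.1, v.2.2)) _)
    (((fn_tl _ _ _).right _).pair (Fn.fst _ _))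
  have := k.ker n
  simp only [tl, bl] at *
  linarith

theorem low (h : Pz P g D M J L) (k : Gr P g M J ρ κ β s lam i ε)
    (hρ : ∀ n, Fn (P n) (fun ω => ((g n).core ω, (D n).S (J n) ω)) (ρ n)) :
    Le M (fun n => (1 - ε) * (lam n - s n) * lg) fun n =>
      ch (P n) (fun ω => fl1 (lam n) (fv (g n) ω i)) fun ω =>
        (fl1 (lam n) (fv (g n) ω (i + 1) - β n ω * fv (g n) ω i), fl1 (s n) (fv (g n) ω i),
          fl1 (s n) (fv (g n) ω (i + 1)), gp (g n) (D n) (J n) (M n) (κ n) ω) := by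
  have hM := h.big
  set C := fun n ω => ((g n).z ω, fl1 (lam n) (fa (g n) ω (i + 1) - β n ω * fa (g n) ω i),
    fl1 (s n) (fa (g n) ω i), fl1 (s n) (fa (g n) ω (i + 1)), κ n ω, tl (g n) (J n) (M n) ω)
  have hz : ∀ᶠ n in UF, ∀ ω ∈ (P n).S, |(g n).z ω| ≤ 1 := h.su.mono fun n u ω hω => by
    rw [abs_of_nonneg (u ω hω).box.2.1]
    exact (u ω hω).box.2.2.le
  have fz : ∀ n, Fn (P n) (g n).z (C n) := fun n => Fn.fst _ _
  have ft : ∀ n, Fn (P n) (tl (g n) (J n) (M n)) (C n) := fun n => Fn.comp (·.2.2.2.2.2) (C n)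
  have fθ : ∀ n, Fn (P n) (g n).θ (C n) := fun n => Fn.comp (·.2.2.2.2.2.2.2) (C n)
  have ls : ∀ n, s n ≤ M n := fun n => (k.lv n).1.trans (k.lv n).2
  have n1 : ND P M (fun n ω => fl1 (lam n) (fa (g n) ω i)) fun n ω =>
      (fl1 (lam n) (fv (g n) ω i), C n ω) :=
    nd_eq (fun n ω => fv (g n) ω i) (fun n ω => fe (g n) ω i) (fun n ω => -(g n).z ω) hM
      (fun n ω => by rw [fv_add]; ring) (hz.mono fun n u => ⟨(Fn.fst _ _).pair
        ((((fn_fe _ (k.lv n).2 i).trans (ft n)).pair ((Fn.comp Neg.neg _).trans (fz n))).right _),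
        fun ω hω => (abs_neg _).trans_le (u ω hω)⟩)
  have n2 : ND P M (fun n ω => fl1 (lam n) (fe (g n) ω (i + 1) - β n ω * fe (g n) ω i)) C :=
    nd_eq (fun n ω => fe (g n) ω (i + 1)) (fun n ω => fe (g n) ω i) (fun n ω => -β n ω) hM
      (fun n ω => by ring) (k.fn.mono fun n u => ⟨((fn_fe _ (k.lv n).2 _).trans (ft n)).pair
        (((fn_fe _ (k.lv n).2 i).trans (ft n)).pair ((Fn.comp Neg.neg _).trans
          (u.1.trans (Fn.comp (·.2.2.2.2) (C n))))), fun ω hω => (abs_neg _).trans_le (u.2 ω hω)⟩)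
  have n3 : ND P M (fun n ω => fl1 (lam n) (fv (g n) ω (i + 1) - β n ω * fv (g n) ω i)) C :=
    n2.cut (nd_eq (fun n ω => fa (g n) ω (i + 1) - β n ω * fa (g n) ω i)
      (fun n ω => fe (g n) ω (i + 1) - β n ω * fe (g n) ω i) (fun n => (g n).z) hM
      (fun n ω => by rw [fv_add, fv_add]; ring) (hz.mono fun n u => ⟨Fn.comp
        (fun v : ℤ × ℝ × ℤ × _ => (v.2.2.1, v.1, v.2.1)) _, u⟩))
  have n4 : ∀ j, (∀ n, Fn (P n) (fun ω => fl1 (s n) (fa (g n) ω j)) (C n)) →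
      ND P M (fun n ω => fl1 (s n) (fv (g n) ω j)) C := fun j e =>
    nd_eq (fun n ω => fa (g n) ω j) (fun n ω => fe (g n) ω j) (fun n => (g n).z) hM
      (fun n ω => fv_add _ _ _) (hz.mono fun n u =>
        ⟨(e n).pair (((fn_fe _ (ls n) j).trans (ft n)).pair (fz n)), u⟩)
  have nx : ND P M (fun n ω => fl1 (J n) ((g n).pt ω 0)) C :=
    nd_eq (fun n ω => (g n).a ω 0) (fun n ω => (g n).e ω 0) (fun n => (g n).z) hM
      (fun n ω => rfl) (hz.mono fun n u => ⟨((Fn.comp (·.1.1) (tl (g n) (J n) (M n))).trans (ft n)).pair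
        (((Fn.comp (·.1.2) (tl (g n) (J n) (M n))).trans (ft n)).pair (fz n)), u⟩)
  have no : ND P M (fun n ω => fl1 (J n) ((D n).o (J n) ω 0)) fun n ω =>
      fl1 (J n) ((g n).pt ω 0) :=
    Sm.near1 hM ((h.sub.const_mul hM one_le_two).add (hM.sub le_rfl) hM)
      (h.su.mono fun n u a ha b hb e => by
        rw [div_eq_mul_one_div]
        exact tri ((abs_sub_comm _ _).trans_le (div_eq_mul_one_div (L n) _ ▸ (u a ha).ball 0))
          ((abs_sub_comm _ _).trans_le (div_eq_mul_one_div (L n) _ ▸ (u b hb).ball 0)) (nr e))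
  have nθ := B1.ND.of_fn (M := M) (Eventually.of_forall fθ)
  have nz := B1.ND.of_fn (M := M) (Eventually.of_forall fz)
  have nt := B1.ND.of_fn (M := M) (Eventually.of_forall ft)
  have nκ : ND P M κ C :=
    B1.ND.of_fn (Eventually.of_forall fun n _ _ _ _ e => congrArg (·.2.2.2.2.1) e)
  have nj := nz.mono (F' := fun n ω => fl1 (J n) ((g n).z ω))
    (Eventually.of_forall fun n => Fn.comp (fl1 (J n)) _)
  have nG : ND P M (fun n => gp (g n) (D n) (J n) (M n) (κ n)) C :=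
    nκ.pair (nt.pair ((nj.pair ((no.trans nx).pair nθ)).pair (nx.pair (nz.pair nθ))))
  refine Le.of3 k.low h.in0 (n1.le (n3.pair ((n4 i fun n => Fn.comp (·.2.2.1) (C n)).pair
    ((n4 (i + 1) fun n => Fn.comp (·.2.2.2.1) (C n)).pair nG)))) (k.fn.mono fun n u => ?_)
  have fb : Fn (P n) (β n) fun ω => ((g n).ln ω, κ n ω) :=
    u.1.trans ((Fn.snd _ _).pair ((fn_tl _ _ _).left _))
  have := low_le (z := (g n).z) (θ := (g n).θ) (l := (g n).ln) (κ := κ n) (ρ := ρ n)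
    (c := fun ω => (fl1 (lam n) (fa (g n) ω (i + 1) - β n ω * fa (g n) ω i),
      fl1 (s n) (fa (g n) ω i), fl1 (s n) (fa (g n) ω (i + 1)), κ n ω, tl (g n) (J n) (M n) ω))
    (F := fun ω => fl1 (lam n) (fa (g n) ω i))
    (fun _ _ _ _ e => congrArg (·.2.2.2.2.2.2) e) (fun a ha b hb e => by
      have e1 := fn_fa (g n) a ha b hb (congrArg Prod.fst e)
      have e2 := fn_tl (g n) (J n) (M n) a ha b hb (congrArg Prod.fst e)
      simp only [e1, e2, fb a ha b hb e, show κ n a = κ n b from congrArg Prod.snd e])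
    ((Fn.comp (fun v : V 2 => fl1 (lam n) (v i)) _).trans (fn_fa _))
    (Fn.trans (fun _ _ _ _ e => congrArg (·.1.2.1) e) (hρ n)) fun _ _ _ _ e => congrArg (·.2.2) e
  have := k.ker n
  simp only [C]
  linarith

end GrPtA

open GrPtA in
theorem rowGrPt : GrPt := by
  intro Ω P g D M J L h B Λ ρ κ β s lam i ε k hρ
  refine ⟨_, h.big, h.sub.const_mul h.big one_le_two, k.e0, k.lv, k.frac, ?_, inf h k hρ, low h k hρ⟩
  filter_upwards [fn_zc h, h.fn, h.su, k.fn] with n a1 a2 a3 a4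
  have e : ∀ j, Near (P n) ((D n).S (J n)) (fun ω => fv (g n) ω j) (2 * L n / 2 ^ M n) :=
    fun j a ha b hb e => by
      have e1 := (a3 a ha).ball j.succ
      have e2 := (a3 b hb).ball j.succ
      have e3 := U.div_pow_le (h.sub.pos n).le (h.frac.1 n)
      rw [show (D n).o (J n) a = (D n).o (J n) b from congrArg (·.2.2.1) (a2 a ha b hb e)] at e1
      simp only [fv_eq]
      rw [abs_le] at *
      rw [mul_div_assoc]
      constructor <;> linarith [e1.1, e1.2, e2.1, e2.2]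
  exact ⟨a1, fun _ _ _ _ u => congrArg (·.2.2.1) u,
    a4.1.trans (Fn.comp (fun v : _ × _ × _ => (v.1, v.2.1)) _), a4.2, e i, e (i + 1)⟩

end Pool.Agent.MP_5168f5_an.R4.CI
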