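import Pool.Agent.MP_5168f5_an.R4.SpecC

/-! The third line. -/

namespace Pool.Agent.MP_5168f5_an.R4.CI

open H19 H17S H17F Filter NCx Tan
open Web (RV rd G3 sl TFul)

namespace KAlA

theorem ml {a b A B : ℝ} (ha : |a| ≤ A) (hb : |b| ≤ B) : |a * b| ≤ A * B := by
  rw [abs_mul]
  exact mul_le_mul ha hb (abs_nonneg _) ((abs_nonneg _).trans ha)

theorem ad {a b A B : ℝ} (ha : |a| ≤ A) (hb : |b| ≤ B) : |a + b| ≤ A + B :=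
  (abs_add_le _ _).trans (add_le_add ha hb)

theorem sb {a b A B : ℝ} (ha : |a| ≤ A) (hb : |b| ≤ B) : |a - b| ≤ A + B :=
  (abs_sub _ _).trans (add_le_add ha hb)

theorem low {L p a d : ℝ} (hL : 1 ≤ L) (h : 1 ≤ L * |a|) (hd : |d| ≤ 4 * L) (e : p * d = a) :
    1 ≤ 4 * L ^ 2 * |p| := by
  rw [← e, abs_mul] at h
  have := mul_le_mul_of_nonneg_left hd (show 0 ≤ L * |p| by positivity)
  nlinarith

theorem alg {L ε H s₁ s₂ w₀ w₁ w₂ f₀ f₁ f₂ E₀ E₁ E₂ T₁ T₂ x t a₂ t₂ : ℝ} (hL : 1 ≤ L)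
    (hw₀ : |w₀| ≤ 2 * L) (hw₁ : |w₁| ≤ 2 * L) (hw₂ : |w₂| ≤ 2 * L)
    (s10 : 1 ≤ L * |w₁ - w₀|) (s12 : 1 ≤ L * |w₁ - w₂|) (s20 : 1 ≤ L * |w₂ - w₀|)
    (hf₀ : |w₀ - f₀| ≤ ε) (hf₁ : |w₁ - f₁| ≤ ε) (hf₂ : |w₂ - f₂| ≤ ε) (hT : |T₂| ≤ L)
    (hE₀ : |E₀ - T₁ - T₂ * f₀| ≤ L * ε) (hE₁ : |E₁ - T₁ - T₂ * f₁| ≤ L * ε)
    (hE₂ : |E₂ - T₁ - T₂ * f₂| ≤ L * ε) (hx : |x| ≤ 2 * L) (ht : |t| ≤ 1) (ht₂ : |t₂| ≤ 1)
    (hx₂ : |x - (a₂ + t₂ * f₂)| ≤ 2 * L * ε) (htt : |t - t₂| ≤ ε) (hH : |H| ≤ L)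
    (r₁ : |E₀ - s₁ - (x - w₀ * t) / (w₁ - w₀) * H| ≤ ε)
    (r₂ : |E₁ - s₂ - (t - (x - w₀ * t) / (w₁ - w₀)) * H| ≤ ε) :
    |(w₁ - w₂) / (w₁ - w₀) * s₁ + (w₂ - w₀) / (w₁ - w₀) * s₂ +
        ((w₁ - w₂) / (w₁ - w₀) - (w₂ - w₀) / (w₁ - w₀)) * (a₂ / (w₁ - w₀)) * H - E₂ +
        2 * ((w₁ - w₂) / (w₁ - w₀)) * ((w₂ - w₀) / (w₁ - w₀)) * H * t₂| ≤ 70 * L ^ 5 * ε ∧
      1 ≤ 70 * L ^ 5 * |2 * ((w₁ - w₂) / (w₁ - w₀)) * ((w₂ - w₀) / (w₁ - w₀))| ∧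
      (|H| ≤ ε → |T₁ - (s₁ - w₀ * ((s₂ - s₁) / (w₁ - w₀)))| ≤ 70 * L ^ 5 * ε ∧
        |T₂ - (s₂ - s₁) / (w₁ - w₀)| ≤ 70 * L ^ 5 * ε) := by
  have ne : w₁ - w₀ ≠ 0 := fun e => by rw [e, abs_zero, mul_zero] at s10; linarith
  have e0 : 0 ≤ ε := (abs_nonneg _).trans htt
  have hu : |(w₁ - w₀)⁻¹| ≤ L := by
    rw [abs_inv, inv_le_iff_one_le_mul₀ (abs_pos.2 ne)]; exact s10
  have l : ∀ i j : ℕ, i ≤ j → L ^ i * ε ≤ L ^ j * ε := fun i j h =>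
    mul_le_mul_of_nonneg_right (pow_le_pow_right₀ hL h) e0
  have l0 := l 0 5 (by norm_num)
  have l1 := l 1 5 (by norm_num)
  have l2 := l 2 5 (by norm_num)
  have l3 := l 3 5 (by norm_num)
  have l4 := l 4 5 (by norm_num)
  have k0 := l 0 2 (by norm_num)
  have k1 := l 1 2 (by norm_num)
  have d₀ : |E₀ - T₁ - T₂ * f₀ - T₂ * (w₀ - f₀)| ≤ _ := sb hE₀ (ml hT hf₀)
  have d₁ : |E₁ - T₁ - T₂ * f₁ - T₂ * (w₁ - f₁)| ≤ _ := sb hE₁ (ml hT hf₁)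
  have d₂ : |E₂ - T₁ - T₂ * f₂ - T₂ * (w₂ - f₂)| ≤ _ := sb hE₂ (ml hT hf₂)
  have hp := ml (sb hw₁ hw₂) hu
  have hq := ml (sb hw₂ hw₀) hu
  have hc := ml (sb (sb hx₂ (ml ht₂ hf₂)) (ml hw₀ htt)) hu
  have hc' := sb htt hc
  refine ⟨?_, ?_, fun h => ?_⟩
  · have a := sb (sb (sb (sb (ad (ml hp d₀) (ml hq d₁)) d₂)
      (ml hH (ad (ml hp hc) (ml hq hc')))) (ml hp r₁)) (ml hq r₂)
    refine (le_of_eq (congrArg _ ?_)).trans (a.trans ?_)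
    · field_simp
      ring
    · linarith
  · have b : |w₁ - w₀| ≤ 4 * L := (sb hw₁ hw₀).trans (by linarith)
    have a₁ := low hL s12 b (div_mul_cancel₀ _ ne)
    have a₂ := low hL s20 b (div_mul_cancel₀ _ ne)
    have a₃ := one_le_mul_of_one_le_of_one_le a₁ a₂
    have a₄ : L ^ 4 ≤ L ^ 5 := pow_le_pow_right₀ hL (by norm_num)
    have a₅ := mul_nonneg (abs_nonneg ((w₁ - w₂) / (w₁ - w₀))) (abs_nonneg ((w₂ - w₀) / (w₁ - w₀)))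
    have a₆ := mul_le_mul_of_nonneg_right a₄ a₅
    have a₇ : 0 ≤ L ^ 5 := by positivity
    rw [abs_mul, abs_mul, abs_two]
    linarith [mul_nonneg a₇ a₅]
  · have ca := ml (sb hx (ml hw₀ ht)) hu
    have g₀ := sb (sb d₀ (ml ca h)) r₁
    have g₁ := sb (sb d₁ (ml (sb ht ca) h)) r₂
    have g₀' := g₀.trans (show _ ≤ 7 * L ^ 2 * ε by linarith)
    have g₁' := g₁.trans (show _ ≤ 8 * L ^ 2 * ε by linarith)
    have g₂ := ml (sb g₀' g₁') hu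
    have g₃ := sb (ml hw₀ (ml (sb g₁' g₀') hu)) g₀'
    constructor
    · refine (le_of_eq (congrArg _ ?_)).trans (g₃.trans ?_)
      · field_simp
        ring
      · linarith
    · refine (le_of_eq (congrArg _ ?_)).trans (g₂.trans ?_)
      · field_simp
        ring
      · linarith

end KAlA

open KAlA in
theorem rowKAl : KAl := by
  refine ⟨70, 5, by norm_num, ?_⟩
  intro Ω g D J M L ε H s₁ s₂ v ⟨hM, sp, h⟩ hε hH r₁ r₂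
  have hL := (h 0).1.one
  have p1 : (1 : ℝ) / 2 ^ J ≤ ε :=
    (one_div_le_one_div_of_le (by positivity) (pow_le_pow_right₀ one_le_two hM)).trans hε
  have p2 : (1 : ℝ) / 2 ^ J ≤ 1 := (div_le_one (by positivity)).2 (one_le_pow₀ one_le_two)
  have p3 : L / 2 ^ J ≤ L * ε := by
    rw [div_eq_mul_one_div]; exact mul_le_mul_of_nonneg_left p1 (by linarith)
  have p4 : L / 2 ^ M ≤ L * ε := by
    rw [div_eq_mul_one_div]; exact mul_le_mul_of_nonneg_left hε (by linarith)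
  have f : ∀ i, |wr g J i v - g.e (sl i v) 0| ≤ 1 / 2 ^ J := fun i => abs_rd_sub _ _
  have w : ∀ i, |wr g J i v| ≤ 2 * L := fun i => by
    have a := ad (f i) ((h i).1.box.1 0).2
    rw [sub_add_cancel] at a
    linarith
  have E : ∀ i, |g.e (sl i v) 1 - (D.U J v.1.1).2.1 - (D.U J v.1.1).2.2 0 * g.e (sl i v) 0| ≤
      L * ε := fun i => by
    have a := (h i).1.cu.2.2
    rw [(h i).2.2.2] at a
    exact a.trans p4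
  have z : ∀ i, |g.z (sl i v)| ≤ 1 := fun i =>
    abs_le.2 ⟨by linarith [(h i).1.box.2.1], (h i).1.box.2.2.le⟩
  have x : |g.pt v.1.1 0| ≤ 2 * L := by
    have a := ad ((h 0).1.box.1 0).1 (ml (z 0) ((h 0).1.box.1 0).2)
    exact a.trans (by linarith)
  have x2 : |g.pt v.1.1 0 - (g.a v.2 0 + g.z v.2 * g.e v.2 0)| ≤ 2 * L * ε := by
    have a := (h 0).1.ball 0
    have b := (h 2).1.ball 0
    rw [(h 2).2.2.1] at b
    have c := sb a b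
    refine (le_of_eq (congrArg _ ?_)).trans (c.trans (by linarith))
    simp [sl, Geo.pt, Geo.lt]
  have tt : |g.z v.1.1 - g.z v.2| ≤ ε := by
    have a := abs_sub_lt_of_fl1_eq (h 2).2.1.symm
    exact a.le.trans (by rwa [← one_div])
  exact alg hL (w 0) (w 1) (w 2) (sp 1 0 (by decide)) (sp 1 2 (by decide)) (sp 2 0 (by decide))
    ((f 0).trans p1) ((f 1).trans p1) ((f 2).trans p1) (h 0).1.cu.2.1 (E 0) (E 1) (E 2) x (z 0)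
    (z 2) x2 tt hH r₁ r₂

end Pool.Agent.MP_5168f5_an.R4.CI
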