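import Pool.Agent.MP_5168f5_an.R4.SpecC

/-! The mixed coefficient is small. -/

namespace Pool.Agent.MP_5168f5_an.R4.CI

open H19 H17S H17F Filter NCx Tan
open Web (RV rd G3 sl TFul)

theorem Kil1A.mono {Ω : Type} {g : Geo 3 Ω} {D : Td Ω} {J M : ℕ} {L L' : ℝ} {v : (Ω × Ω) × Ω}
    (h : In3 g D J M L v) (e : L ≤ L') : In3 g D J M L' v :=
  ⟨h.1, fun i k u => (h.2.1 i k u).trans (mul_le_mul_of_nonneg_right e (abs_nonneg _)),
    fun i => ⟨(h.2.2 i).1.mono e, (h.2.2 i).2⟩⟩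

theorem rowKil1 : OfKil1 := by
  rintro ⟨K, m, hK, kal⟩ spr Ω P g D M J L pz f3 W Q π H s₁ s₂ L' r af
  have hM := pz.big
  have hJ : Big J := tendsto_atTop_mono' _ (Eventually.of_forall pz.frac.1) hM
  obtain ⟨L1, s1, w1⟩ := spr 1 Q (fun n w => (g n).z (π n w).2)
    (fun n w => (((g n).ln (π n w).2, ty3 (g n) (J n) (π n w)), H n w, s₁ n w, s₂ n w))
    (fun n w => ![(pq (g n) (J n) (π n w)).1 * s₁ n w 0 + (pq (g n) (J n) (π n w)).2 * s₂ n w 0 +
      ((pq (g n) (J n) (π n w)).1 - (pq (g n) (J n) (π n w)).2) * ab (g n) (J n) 2 (π n w) * H n w 0 -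
        (g n).e (π n w).2 1,
      2 * (pq (g n) (J n) (π n w)).1 * (pq (g n) (J n) (π n w)).2 * H n w 0]) J (fun _ => 1) hJ
    (hJ.sub le_rfl) (f3.in3.mono fun n u => ⟨fun x _ y _ q => by
      simp only [Geo.ln, ty3, Prod.mk.injEq] at q
      obtain ⟨⟨⟨q1, q2, -⟩, q3, -⟩, q4, q5, q6⟩ := q
      have e : ∀ i, wr (g n) (J n) i (π n x) = wr (g n) (J n) i (π n y) := fun i =>
        congrArg (fun t : ℤ => (t : ℝ) / 2 ^ J n) (congrFun q3 i)
      have e2 : (g n).a (sl 2 (π n x)) = (g n).a (sl 2 (π n y)) := q1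
      simp only [pq, ab, e, e2, q2, q4, q5, q6], fun w hw => by
      have := ((u _ ((af.law n).mem hw)).1.2.2 2).1.box.2
      exact abs_le.2 ⟨by linarith [show 0 ≤ (g n).z (π n w).2 from this.1], this.2.le⟩⟩)
    (Le.up (((f3.hg 2).add af.sm).of_sub (Eventually.of_forall fun n => by
      have a1 := (af.law n).ch_id (fun v => fl1 (J n) ((g n).z (sl 2 v))) fun v =>
        ((g n).ln (sl 2 v), ty3 (g n) (J n) v)
      have a2 := ch_tri' (P := Q n) (fun w => fl1 (J n) ((g n).z (π n w).2))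
        (fun w => ((g n).ln (π n w).2, ty3 (g n) (J n) (π n w)))
        fun w => (((g n).ln (π n w).2, ty3 (g n) (J n) (π n w)), H n w, s₁ n w, s₂ n w)
      have a3 : ch (Q n) (fun w => (((g n).ln (π n w).2, ty3 (g n) (J n) (π n w)), H n w, s₁ n w,
          s₂ n w)) (fun w => ((g n).ln (π n w).2, ty3 (g n) (J n) (π n w))) ≤
          ch (Q n) (fun w => (H n w, s₁ n w, s₂ n w)) fun w => ty3 (g n) (J n) (π n w) :=
        ch_le ((Fn.snd _ _).pair (Fn.fst _ _)) (Fn.snd _ _)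
      have a4 : ch (Q3 P g D J L n) (fun v => fl1 (J n) ((g n).z (sl 2 v))) (fun v =>
        ((g n).ln (sl 2 v), ty3 (g n) (J n) v)) = ch (Q n) (fun w => fl1 (J n) ((g n).z (π n w).2))
          fun w => ((g n).ln (π n w).2, ty3 (g n) (J n) (π n w)) := a1.symm
      linarith)) pz.frac.1)
  have sA := ((pz.sub.add af.sub hM).pow m).const_mul hM hK
  refine ⟨_, (sA.mul (s1.frac pz.frac)).mul (sA.mul af.sub), (w1.and af.fit).mono ?_⟩
  filter_upwards [f3.in3] with n u w hw ⟨x, y1, _, _, y4, y5⟩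
  have l0 := pz.sub.pos n
  have l1 := af.sub.1 n
  obtain ⟨k1, k2, -⟩ := kal (g n) (D n) (J n) (M n) (L n + L' n) (L' n / 2 ^ r n) (H n w 0)
    (s₁ n w 0) (s₂ n w 0) (π n w) (Kil1A.mono (u _ ((af.law n).mem hw)).1 (by linarith))
    (div_le_div₀ (by linarith) l1 (by positivity) (pow_le_pow_right₀ one_le_two (af.le n)))
    ((norm_le_pi_norm (H n w) 0).trans (y1.trans (by linarith)))
    ((norm_le_pi_norm _ 0).trans y4) ((norm_le_pi_norm _ 0).trans y5)
  have x1 := x 1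
  rw [Fin.sum_univ_two] at x1
  simp only [Matrix.cons_val_zero, Matrix.cons_val_one, Fin.val_zero, Fin.val_one, pow_zero,
    mul_one, pow_one] at x1
  have x2 := x1.trans (mul_le_mul_of_nonneg_left k1 (s1.pos n).le)
  rw [abs_mul] at x2
  calc |H n w 0| ≤ K * (L n + L' n) ^ m * |2 * (pq (g n) (J n) (π n w)).1 *
        (pq (g n) (J n) (π n w)).2| * |H n w 0| := le_mul_of_one_le_left (abs_nonneg _) k2
    _ ≤ K * (L n + L' n) ^ m * (L1 n * (K * (L n + L' n) ^ m * (L' n / 2 ^ r n))) := by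
      rw [mul_assoc]; exact mul_le_mul_of_nonneg_left x2 (sA.pos n).le
    _ = _ := by ring

end Pool.Agent.MP_5168f5_an.R4.CI
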