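import Pool.Agent.MP_5168f5_an.R4.SpecW

/-! A polynomial is not small at a full point. -/

namespace Pool.Agent.MP_5168f5_an.R4.Web

open H19 H17S H17F Filter NCx

namespace WSprA

open Polynomial

theorem step {L s x : ℝ} {z : ℂ} (hL : 1 ≤ L) (hs1 : s ≤ 1) (hs : 0 < s) (hx : |x| ≤ L)
    (h : s ≤ |x - z.re|) : (1 + ‖z‖) * s ≤ 3 * L * ‖(x : ℂ) - z‖ := by
  have h1 : s ≤ ‖(x : ℂ) - z‖ := h.trans (by simpa using Complex.abs_re_le_norm ((x : ℂ) - z))
  have h2 : ‖z‖ ≤ L + ‖(x : ℂ) - z‖ := by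
    have := norm_sub_le (x : ℂ) ((x : ℂ) - z)
    rw [sub_sub_cancel, Complex.norm_real, Real.norm_eq_abs] at this
    linarith
  generalize ‖(x : ℂ) - z‖ = t at h1 h2
  have h3 : (1 + ‖z‖) * s ≤ (1 + L + t) * s := mul_le_mul_of_nonneg_right (by linarith) hs.le
  have h4 : t * s ≤ t := mul_le_of_le_one_right (by linarith) hs1
  have h5 : (1 + L) * s ≤ (1 + L) * t := mul_le_mul_of_nonneg_left h1 (by linarith)
  nlinarith

theorem roots {L s : ℝ} (hL : 1 ≤ L) (hs1 : s ≤ 1) (hs : 0 < s) (d : ℕ) : ∀ p : ℂ[X],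
    p.natDegree ≤ d → ∃ R : Finset ℝ, R.card ≤ d ∧ ∀ x : ℝ, |x| ≤ L → (∀ r ∈ R, s ≤ |x - r|) →
      ∀ j, ‖p.coeff j‖ * s ^ d ≤ (3 * L) ^ d * ‖p.eval (x : ℂ)‖ := by
  induction d with
  | zero =>
    intro p hp
    refine ⟨∅, le_rfl, fun x _ _ j => ?_⟩
    rw [eq_C_of_natDegree_le_zero hp, coeff_C, eval_C]
    split_ifs <;> simp
  | succ d ih =>
    intro p hp
    rcases Nat.lt_or_ge d p.natDegree with h | h
    · obtain ⟨z, hz⟩ := Complex.exists_root (f := p) (natDegree_pos_iff_degree_pos.1 (by omega))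
      obtain ⟨q, rfl⟩ := dvd_iff_isRoot.2 hz
      have hq : q ≠ 0 := fun e => by simp [e] at h
      rw [natDegree_mul (X_sub_C_ne_zero z) hq, natDegree_X_sub_C] at hp
      obtain ⟨R, h1, h2⟩ := ih q (by omega)
      refine ⟨insert z.re R, (Finset.card_insert_le _ _).trans (by omega), fun x hx hr j => ?_⟩
      have h3 := h2 x hx fun r e => hr r (Finset.mem_insert_of_mem e)
      have h4 := step hL hs1 hs hx (hr _ (Finset.mem_insert_self _ _))
      have h0 : 0 ≤ (3 * L) ^ d * ‖q.eval (x : ℂ)‖ := by positivity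
      have h5 : ‖((X - C z) * q).coeff j‖ * s ^ d
          ≤ (1 + ‖z‖) * ((3 * L) ^ d * ‖q.eval (x : ℂ)‖) := by
        have a : ‖(X * q).coeff j‖ * s ^ d ≤ (3 * L) ^ d * ‖q.eval (x : ℂ)‖ := by
          cases j with
          | zero => simpa using h0
          | succ j => rw [coeff_X_mul]; exact h3 j
        have b := mul_le_mul_of_nonneg_left (h3 j) (norm_nonneg z)
        have c := mul_le_mul_of_nonneg_right (norm_sub_le ((X * q).coeff j) (z * q.coeff j))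
          (pow_pos hs d).le
        rw [sub_mul, coeff_sub, coeff_C_mul]
        rw [norm_mul] at c
        linarith
      rw [eval_mul, eval_sub, eval_X, eval_C, norm_mul]
      calc _ = ‖((X - C z) * q).coeff j‖ * s ^ d * s := by ring
        _ ≤ (1 + ‖z‖) * ((3 * L) ^ d * ‖q.eval (x : ℂ)‖) * s := by gcongr
        _ = (1 + ‖z‖) * s * ((3 * L) ^ d * ‖q.eval (x : ℂ)‖) := by ring
        _ ≤ 3 * L * ‖(x : ℂ) - z‖ * ((3 * L) ^ d * ‖q.eval (x : ℂ)‖) := by gcongr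
        _ = _ := by ring
    · obtain ⟨R, h1, h2⟩ := ih p h
      refine ⟨R, by omega, fun x hx hr j => ?_⟩
      have h3 := h2 x hx hr j
      calc _ = ‖p.coeff j‖ * s ^ d * s := by ring
        _ ≤ (3 * L) ^ d * ‖p.eval (x : ℂ)‖ * (3 * L) := by gcongr; linarith
        _ = _ := by ring

theorem real {L s : ℝ} (hL : 1 ≤ L) (hs1 : s ≤ 1) (hs : 0 < s) {d : ℕ} (c : Fin (d + 1) → ℝ) :
    ∃ R : Finset ℝ, R.card ≤ d ∧ ∀ x : ℝ, |x| ≤ L → (∀ r ∈ R, s ≤ |x - r|) →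
      ∀ j, |c j| * s ^ d ≤ (3 * L) ^ d * |∑ i, c i * x ^ (i : ℕ)| := by
  obtain ⟨R, h1, h2⟩ := roots hL hs1 hs d (∑ i : Fin (d + 1), monomial i (c i : ℂ))
    (natDegree_sum_le_of_forall_le _ _ fun i _ =>
      (natDegree_monomial_le _).trans (Nat.lt_succ_iff.1 i.2))
  refine ⟨R, h1, fun x hx hr j => ?_⟩
  have h3 := h2 x hx hr j
  have e1 : (∑ i : Fin (d + 1), monomial i (c i : ℂ)).coeff j = c j := by
    simp [coeff_monomial, Fin.val_inj]
  have e2 : (∑ i : Fin (d + 1), monomial i (c i : ℂ)).eval (x : ℂ)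
      = ((∑ i, c i * x ^ (i : ℕ) : ℝ) : ℂ) := by
    simp [eval_finsetSum]
  rwa [e1, e2, Complex.norm_real, Complex.norm_real] at h3

theorem cells (j : ℕ) (R : Finset ℝ) {s : ℝ} (hs : 0 ≤ s) : ∃ T : Finset ℤ,
    (T.card : ℝ) ≤ R.card * (2 * (s * 2 ^ j) + 3) ∧
      ∀ x, ∀ r ∈ R, |x - r| ≤ s → fl1 j x ∈ T := by
  refine ⟨R.biUnion fun r => Finset.Icc (fl1 j r - ⌈s * 2 ^ j⌉₊) (fl1 j r + ⌈s * 2 ^ j⌉₊), ?_,
    fun x r hr h => Finset.mem_biUnion.2 ⟨r, hr, fl1_mem_Icc (h.trans ?_)⟩⟩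
  · have h1 := Finset.card_biUnion_le_card_mul R
      (fun r => Finset.Icc (fl1 j r - ⌈s * 2 ^ j⌉₊) (fl1 j r + ⌈s * 2 ^ j⌉₊))
      (2 * ⌈s * 2 ^ j⌉₊ + 1) fun r _ => by rw [Int.card_Icc]; omega
    refine (Nat.cast_le.2 h1).trans ?_
    have := Nat.ceil_lt_add_one (show 0 ≤ s * 2 ^ j by positivity)
    push_cast
    exact mul_le_mul_of_nonneg_left (by linarith) (Nat.cast_nonneg _)
  · rw [← div_eq_mul_inv, le_div_iff₀ (by positivity)]
    exact Nat.le_ceil _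

end WSprA

open WSprA in
theorem rowSpr : Spr := by
  intro d Ω Γ P x G C M L hM hL h hF
  refine ks.wsub P (fun n ω y => ∀ j, |C n ω j| ≤ y * |∑ i, C n ω i * x n ω ^ (i : ℕ)|) M
    fun c c0 c1 => ?_
  have d0 : (0 : ℝ) ≤ d := Nat.cast_nonneg d
  obtain ⟨ε, e0, e1⟩ : ∃ ε : ℝ, 0 < ε ∧ (d + 1) * ε = c / 2 :=
    ⟨c / 2 / (d + 1), by positivity, by field_simp⟩
  have e2 : ε ≤ 1 / 2 := by nlinarith
  refine (ks.spw P (fun n ω => ¬∀ j, |C n ω j| ≤ Real.exp (c * M n) *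
    |∑ i, C n ω i * x n ω ^ (i : ℕ)|) (fun n ω => fl1 (M n) (x n ω)) G M (fun n => 2 ^ M n)
    (fun n => 7 * (d + 1) * L n) ε hM (hL.const_mul hM (by linarith)) e0
    (by simpa only [log_two_pow, Ful] using hF) ?_).mono (Eventually.of_forall fun n ω _ => not_not.1)
  filter_upwards [h, ((hL.const_mul hM (C := 3) (by norm_num)).pow d).2 _ (half_pos c0)]
    with n a b
  have l1 := hL.1 n
  have m0 : (0 : ℝ) ≤ M n := Nat.cast_nonneg _
  have t1 : (1 : ℝ) ≤ 2 ^ M n := one_le_pow₀ one_le_two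
  have s0 := Real.exp_pos (-(ε * M n))
  have s1 : Real.exp (-(ε * M n)) ≤ 1 := Real.exp_le_one_iff.2 (neg_nonpos.2 (by positivity))
  have s2 : 1 ≤ Real.exp (-(ε * M n)) * 2 ^ M n := by
    rw [Real.exp_neg, ← div_eq_inv_mul, one_le_div (Real.exp_pos _)]
    exact (Real.exp_le_exp.2 (by nlinarith)).trans (exp_le_two_pow _)
  have s3 : (3 * L n) ^ d ≤ Real.exp (c * M n) * Real.exp (-(ε * M n)) ^ d := by
    rw [← Real.exp_nat_mul, ← Real.exp_add]
    refine b.trans (Real.exp_le_exp.2 ?_)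
    have : 0 ≤ ε * M n := by positivity
    have : c * M n = 2 * (d + 1) * (ε * M n) := by
      rw [show c = 2 * ((d + 1) * ε) by linarith]; ring
    nlinarith
  refine ⟨by positivity, fun ω hω => ?_, fun ω hω => ?_⟩
  · obtain ⟨T, h1, h2⟩ := cells (M n) {0} (s := L n) (by linarith)
    refine ⟨T, h1.trans ?_, fun ω' hω' _ => h2 _ 0 (Finset.mem_singleton_self _)
      (by simpa using a.2 ω' hω')⟩
    have : 1 ≤ L n * 2 ^ M n := one_le_mul_of_one_le_of_one_le l1 t1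
    rw [Finset.card_singleton, Nat.cast_one, mul_assoc (7 * (d + 1 : ℝ))]
    nlinarith
  · obtain ⟨R, h1, h2⟩ := real l1 s1 s0 (C n ω)
    obtain ⟨T, h3, h4⟩ := cells (M n) R s0.le
    refine ⟨T, h3.trans ?_, fun ω' hω' e hE => ?_⟩
    · have h5 : (R.card : ℝ) ≤ d := by exact_mod_cast h1
      generalize Real.exp (-(ε * M n)) = s at *
      calc _ ≤ (d + 1) * (7 * (s * 2 ^ M n)) := by
            gcongr
            · linarith
            · linarith
        _ = 7 * (d + 1) * 1 * 2 ^ M n * s := by ring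
        _ ≤ _ := by gcongr
    · by_contra hT
      refine hE fun j => ?_
      rw [a.1 ω' hω' ω hω e]
      have h5 := h2 _ (a.2 ω' hω') (fun r hr => not_lt.1 fun k => hT (h4 _ r hr k.le)) j
      refine le_of_mul_le_mul_right (h5.trans ?_) (pow_pos s0 d)
      rw [mul_right_comm]
      exact mul_le_mul_of_nonneg_right s3 (abs_nonneg _)

end Pool.Agent.MP_5168f5_an.R4.Web
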