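import Pool.Agent.MP_5168f5_an.R4.SpecRect
import Pool.Agent.MP_5168f5_an.R4.XKF1
import Pool.Agent.MP_5168f5_an.R4.WSpr

/-! The rectangle step: the space of rectangles and its entropies. -/

namespace Pool.Agent.MP_5168f5_an.R4.XRect

open H19 H17S H17F Filter NCx

section Gen

variable {Ω α β γ δ : Type} {P : FP Ω}

theorem mk1' (P : FP Ω) (φ : Ω → β) (f : Ω → α) (G : Ω → δ) (h : Fn P φ G) :
    ch (glue P P φ φ) (fun v => f v.1) (fun v => G v.2) = ch P f φ :=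
  ((kg.swap P P φ φ (Law.rfl _)).ch_eq (fun v => f v.1) fun v => G v.2).trans
    (kg.mk1 P P φ φ f G (Law.rfl _) h)

theorem mi_ctx (F : Ω → α) (G : Ω → β) (H : Ω → γ) (K : Ω → δ) :
    mi P F G (fun ω => (H ω, K ω)) ≤ mi P F G K + ch P H K := by
  have a1 : ch P F (fun ω => (H ω, K ω)) ≤ ch P F K := ch_anti (Fn.snd _ _)
  have a2 := ch_drop (P := P) F H fun ω => (G ω, K ω)
  have a3 : ch P H (fun ω => (G ω, K ω)) ≤ ch P H K := ch_anti (Fn.snd _ _)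
  have a4 : ch P F (fun ω => (H ω, G ω, K ω)) ≤ ch P F fun ω => (G ω, H ω, K ω) :=
    ch_anti fun a _ b _ e => by simp only [Prod.mk.injEq] at e ⊢; tauto
  unfold mi
  linarith

end Gen

section Seq

variable {N : ℕ} {Ω Γ A B : ℕ → Type} {P : ∀ n, FP (Ω n)} {R r : ℕ → ℕ} {L : ℕ → ℝ}
  {y y₁ y₂ : ∀ n, Ω n → V N} {G : ∀ n, Ω n → Γ n}

theorem sm_whp (hR : Big R) (hL : Sub R L) (hr : ∀ n, r n ≤ R n)
    (h : ∀ᶠ n in UF, Fn (P n) (y₁ n) (G n) ∧ ∀ ω ∈ (P n).S, ‖y n ω‖ ≤ L n)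
    (hw : Whp P fun n ω => ‖y n ω - y₁ n ω‖ ≤ L n / 2 ^ r n) :
    Sm R fun n => ch (P n) (fun ω => fl (r n) (y n ω)) (G n) := by
  classical
  have h2 := hL.const_mul hR one_le_two
  refine ks.fano P _ _ _ R (fun n => (5 * L n) ^ N) (3 * N) hR
    ((hL.const_mul hR (by norm_num)).pow N) hw ?_
  filter_upwards [h, h2.2 1 one_pos, hR.ev 2] with n hn k1 k2
  refine ⟨fun a ha => ?_, fun a ha => ?_⟩
  · obtain ⟨W, w1, w2⟩ := det_fl (Q := P n) (y := y n) (G := G n) (h2.1 n) k1 k2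
      (fun a ha b hb _ => (norm_sub_le _ _).trans (by linarith [hn.2 a ha, hn.2 b hb])) a ha
    refine ⟨W.image (co (R n) (r n)), le_trans (by exact_mod_cast Finset.card_image_le) w1,
      fun b hb e => ?_⟩
    exact Finset.mem_image.2 ⟨_, w2 b hb e, co_fl (hr n) (y n b)⟩
  · obtain ⟨W, k1, k2⟩ := cells_near (r n) (y₁ n a) (hL.pos n).le
    refine ⟨W, k1.trans ?_, fun b hb e k => k2 _ (by rwa [← hn.1 b hb a ha e])⟩
    rw [Fintype.card_fin]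
    exact pow_le_pow_left₀ (by linarith [hL.1 n]) (by linarith [hL.1 n]) N

/-- Common information of two almost independent variables. -/
theorem ciw {F : ∀ n, Ω n → A n} {F' : ∀ n, Ω n → B n} (hR : Big R) (hL : Sub R L)
    (hr : ∀ n, r n ≤ R n) (h : ∀ᶠ n in UF, Fn (P n) (y₁ n) (fun ω => (F n ω, G n ω)) ∧
      Fn (P n) (y₂ n) (fun ω => (F' n ω, G n ω)) ∧ ∀ ω ∈ (P n).S, ‖y n ω‖ ≤ L n)
    (hw : Whp P fun n ω => ‖y n ω - y₁ n ω‖ ≤ L n / 2 ^ r n ∧ ‖y n ω - y₂ n ω‖ ≤ L n / 2 ^ r n)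
    (hi : Sm R fun n => mi (P n) (F n) (F' n) (G n)) :
    Sm R fun n => ch (P n) (fun ω => fl (r n) (y n ω)) (G n) :=
  (((sm_whp hR hL hr (h.mono fun _ hn => ⟨hn.1, hn.2.2⟩)
    (hw.mono (Eventually.of_forall fun _ _ _ => And.left))).add
    (sm_whp hR hL hr (h.mono fun _ hn => ⟨hn.2.1, hn.2.2⟩)
      (hw.mono (Eventually.of_forall fun _ _ _ => And.right)))).add hi).mono
    (Eventually.of_forall fun _ => rowKF1.ci _ _ _ _ _)

/-- A full variable is not small. -/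
theorem sep0 {x : ∀ n, Ω n → ℝ} (hR : Big R) (hL : Sub R L)
    (h : ∀ᶠ n in UF, ∀ ω ∈ (P n).S, |x n ω| ≤ L n)
    (hf : Le R (fun n => R n * lg) fun n => ch (P n) (fun ω => fl1 (R n) (x n ω)) (G n)) :
    ∃ L', Sub R L' ∧ Whp P fun n ω => 1 ≤ L' n * |x n ω| := by
  obtain ⟨L', h1, h2⟩ := Web.rowSpr 1 P x G (fun _ _ => ![0, 1]) R L hR hL
    (h.mono fun n hn => ⟨fun _ _ _ _ _ => rfl, hn⟩) hf
  exact ⟨L', h1, h2.mono (Eventually.of_forall fun n ω _ k => by simpa using k 1)⟩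

/-- Fullness of a difference at a coarser resolution. -/
theorem ful_sub {x z : ∀ n, Ω n → ℝ} {J : ℕ → ℕ} (hR : Big R) (hJ : ∀ n, R n ≤ J n)
    (h : ∀ᶠ n in UF, Fn (P n) (z n) (G n))
    (hf : Le R (fun n => J n * lg) fun n => ch (P n) (fun ω => fl1 (J n) (x n ω)) (G n)) :
    Le R (fun n => R n * lg) fun n => ch (P n) (fun ω => fl1 (R n) (z n ω - x n ω)) (G n) := by
  refine Le.of2 hf (le_fl1 (P := P) (x := x) (k := J)
    (G := fun n ω => (fl1 (R n) (z n ω - x n ω), G n ω)) hR (hR.sub le_rfl) hJ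
    (h.mono fun n hn a ha b hb e => ?_)) (Eventually.of_forall fun n => by
      linarith [ch_tri (P := P n) (fun ω => fl1 (J n) (x n ω))
        (fun ω => fl1 (R n) (z n ω - x n ω)) (G n)])
  have := (abs_sub_lt_of_fl1_eq (Prod.mk.inj e).1).le
  rwa [hn a ha b hb (Prod.mk.inj e).2, sub_sub_sub_cancel_left, abs_sub_comm, ← one_div] at this

end Seq

section Big

variable {Ω T A B I I' K K' : Type} (P : FP Ω) (Θ : Ω → T) (ρ : Ω → A) (σ : Ω → B) (a : Ω → I)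
  (l : Ω → K)

/-- Two points on a column. -/
noncomputable def YY : FP (Ω × Ω) := glue P P (fun ω => (σ ω, Θ ω)) fun ω => (σ ω, Θ ω)

/-- The data shared by two moves. -/
def ph (x : Ω × Ω) : A × T × I × K := (ρ x.1, Θ x.1, a x.2, l x.2)

/-- Two moves from one row to rows with the same index and slope. -/
noncomputable def QQ : FP ((Ω × Ω) × Ω × Ω) :=
  glue (YY P Θ σ) (YY P Θ σ) (ph Θ ρ a l) (ph Θ ρ a l)

theorem law11 : Law (QQ P Θ ρ σ a l) (fun v => v.1.1) P id :=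
  ((kg.fst _ _ _ _).comp Prod.fst).trans (kg.fst _ _ _ _)

theorem law12 : Law (QQ P Θ ρ σ a l) (fun v => v.1.2) P id :=
  ((kg.fst _ _ _ _).comp Prod.snd).trans (kg.snd _ _ _ _ (Law.rfl _))

theorem law21 : Law (QQ P Θ ρ σ a l) (fun v => v.2.1) P id :=
  ((kg.snd _ _ _ _ (Law.rfl _)).comp Prod.fst).trans (kg.fst _ _ _ _)

theorem law22 : Law (QQ P Θ ρ σ a l) (fun v => v.2.2) P id :=
  ((kg.snd _ _ _ _ (Law.rfl _)).comp Prod.snd).trans (kg.snd _ _ _ _ (Law.rfl _))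

variable {P Θ ρ σ a l}

theorem memY {x : Ω × Ω} (h : x ∈ (YY P Θ σ).S) :
    x.1 ∈ P.S ∧ x.2 ∈ P.S ∧ (σ x.2, Θ x.2) = (σ x.1, Θ x.1) := (kg.mem _ _ _ _ x (Law.rfl _)).1 h

theorem memQ {v : (Ω × Ω) × Ω × Ω} (h : v ∈ (QQ P Θ ρ σ a l).S) :
    (v.1.1 ∈ P.S ∧ v.1.2 ∈ P.S ∧ v.2.1 ∈ P.S ∧ v.2.2 ∈ P.S) ∧
      ((σ v.1.2, Θ v.1.2) = (σ v.1.1, Θ v.1.1) ∧ (σ v.2.2, Θ v.2.2) = (σ v.2.1, Θ v.2.1) ∧
        (ρ v.2.1, Θ v.2.1) = (ρ v.1.1, Θ v.1.1)) ∧ a v.1.2 = a v.2.2 ∧ l v.1.2 = l v.2.2 ∧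
      Θ v.1.1 = Θ v.2.2 ∧ Θ v.1.2 = Θ v.2.2 ∧ Θ v.2.1 = Θ v.2.2 := by
  obtain ⟨h1, h2, h3⟩ := (kg.mem _ _ _ _ v (Law.rfl _)).1 h
  obtain ⟨k1, k2, k3⟩ := memY h1
  obtain ⟨k4, k5, k6⟩ := memY h2
  simp only [ph, Prod.mk.injEq] at h3 k3 k6 ⊢
  refine ⟨⟨k1, k2, k4, k5⟩, ⟨k3, k6, h3.1, h3.2.1⟩, h3.2.2.1.symm, h3.2.2.2.symm, ?_, ?_, k6.2.symm⟩
  · rw [k6.2, h3.2.1]
  · rw [k3.2, k6.2, h3.2.1]

variable {b : Ω → I'} {e : Ω → K'}

/-- The three indices are jointly full given the last row. -/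
theorem joint (ha : Fn P a fun ω => (ρ ω, Θ ω)) (hb : Fn P b fun ω => (σ ω, Θ ω)) :
    2 * ch P b (fun ω => (ρ ω, Θ ω)) + 2 * ch P a (fun ω => (σ ω, Θ ω)) - ch P a Θ -
      ch P l (fun ω => (a ω, Θ ω)) ≤ ch (QQ P Θ ρ σ a l)
        (fun v => ((b v.2.1, a v.1.1), b v.1.1)) fun v => (ρ v.2.2, Θ v.2.2) := by
  have y1 : Law (YY P Θ σ) Prod.fst P id := kg.fst _ _ _ _
  have y2 : Law (YY P Θ σ) Prod.snd P id := kg.snd _ _ _ _ (Law.rfl _)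
  have q2 : Law (QQ P Θ ρ σ a l) Prod.snd (YY P Θ σ) id := kg.snd _ _ _ _ (Law.rfl _)
  rw [ch_chain, ch_chain]
  have t1 : ch P b (fun ω => (ρ ω, Θ ω)) = ch (QQ P Θ ρ σ a l) (fun v => b v.2.1)
      fun v => (ρ v.2.2, Θ v.2.2) :=
    ((law22 P Θ ρ σ a l).ch_id b _).symm.trans (ch_ext (fun v hv =>
      hb _ (memQ hv).1.2.2.2 _ (memQ hv).1.2.2.1 (memQ hv).2.1.2.1) fun _ _ => rfl)
  have ea : ∀ v ∈ (QQ P Θ ρ σ a l).S, a v.2.1 = a v.1.1 := fun v hv =>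
    ha _ (memQ hv).1.2.2.1 _ (memQ hv).1.1 (memQ hv).2.1.2.2
  have eb : ∀ v ∈ (QQ P Θ ρ σ a l).S, b v.2.2 = b v.2.1 := fun v hv =>
    hb _ (memQ hv).1.2.2.2 _ (memQ hv).1.2.2.1 (memQ hv).2.1.2.1
  have t2 : ch P a (fun ω => (σ ω, Θ ω)) ≤ ch (QQ P Θ ρ σ a l) (fun v => a v.1.1)
      fun v => (b v.2.1, ρ v.2.2, Θ v.2.2) :=
    (mk1' P (fun ω => (σ ω, Θ ω)) a id fun _ _ _ _ h => by cases h; rfl).symm.trans_le
      ((q2.ch_id (fun x => a x.1) fun x => id x.2).symm.trans_le (ch_le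
        (fun v hv w hw h => by rw [ea v hv, ea w hw]; exact (Prod.mk.inj h).1)
        fun v hv w hw h => by
          simp only [id] at h
          simp only [← eb v hv, ← eb w hw, h]))
  have t3 : ch (YY P Θ σ) (fun x => b x.1) (ph Θ ρ a l) ≤ ch (QQ P Θ ρ σ a l) (fun v => b v.1.1)
      fun v => ((b v.2.1, a v.1.1), ρ v.2.2, Θ v.2.2) :=
    (mk1' (YY P Θ σ) (ph Θ ρ a l) (fun x => b x.1) id fun _ _ _ _ h => congrArg _ h).symm.trans_le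
      (ch_anti fun v hv w hw h => by
        simp only [id] at h
        simp only [← ea v hv, ← ea w hw, h])
  have t4 := ch_chain (P := YY P Θ σ) (fun x => b x.1) (fun x => a x.2) fun x => (ρ x.1, Θ x.1)
  have t5 := y1.ch_id b fun ω => (ρ ω, Θ ω)
  have t6 : ch P a (fun ω => (σ ω, Θ ω)) ≤ ch (YY P Θ σ) (fun x => a x.2)
      fun x => (b x.1, ρ x.1, Θ x.1) :=
    (kg.mk1 P P _ _ a id (Law.rfl _) fun _ _ _ _ h => congrArg _ h).symm.trans_le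
      (ch_anti fun v _ w _ h => by simp only [id] at h; simp only [h])
  have t7 : ch (YY P Θ σ) (fun x => (b x.1, a x.2)) (fun x => (ρ x.1, Θ x.1)) ≤
      ch (YY P Θ σ) (fun x => ((a x.2, l x.2), b x.1)) fun x => (ρ x.1, Θ x.1) :=
    ch_mono fun _ _ _ _ e => by simp only [Prod.mk.injEq] at e ⊢; tauto
  rw [ch_chain (fun x : Ω × Ω => (a x.2, l x.2)), ch_chain (fun x : Ω × Ω => a x.2)] at t7
  have t8 : ch (YY P Θ σ) (fun x => a x.2) (fun x => (ρ x.1, Θ x.1)) ≤ ch P a Θ :=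
    (ch_anti fun v hv w hw h => by
      rw [(Prod.mk.inj (memY hv).2.2).2, (Prod.mk.inj (memY hw).2.2).2]
      exact (Prod.mk.inj h).2).trans_eq (y2.ch_id a Θ)
  have t9 : ch (YY P Θ σ) (fun x => l x.2) (fun x => (a x.2, ρ x.1, Θ x.1)) ≤
      ch P l fun ω => (a ω, Θ ω) :=
    (ch_anti fun v hv w hw h => by
      simp only [Prod.mk.injEq] at h ⊢
      rw [(Prod.mk.inj (memY hv).2.2).2, (Prod.mk.inj (memY hw).2.2).2]
      exact ⟨h.1, h.2.2⟩).trans_eq (y2.ch_id l fun ω => (a ω, Θ ω))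
  have t10 : ch (YY P Θ σ) (fun x => b x.1) (fun x => ((a x.2, l x.2), ρ x.1, Θ x.1)) ≤
      ch (YY P Θ σ) (fun x => b x.1) (ph Θ ρ a l) :=
    ch_anti fun _ _ _ _ e => by simp only [ph, Prod.mk.injEq] at e ⊢; tauto
  linarith

/-- The defect of a web. -/
noncomputable def dft (P : FP Ω) (Θ : Ω → T) (ρ : Ω → A) (σ : Ω → B) (a : Ω → I) (l : Ω → K)
    (b : Ω → I') (e : Ω → K') : ℝ :=
  (ch P a Θ - ch P a fun ω => (σ ω, Θ ω)) + (ch P b Θ - ch P b fun ω => (ρ ω, Θ ω)) +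
    ch P l (fun ω => (a ω, Θ ω)) + ch P e fun ω => (b ω, Θ ω)

/-- Independence of the data of a rectangle. -/
theorem indep (ha : Fn P a fun ω => (ρ ω, Θ ω)) (hl : Fn P l fun ω => (ρ ω, Θ ω))
    (hb : Fn P b fun ω => (σ ω, Θ ω)) :
    mi (QQ P Θ ρ σ a l) (fun v => (ρ v.2.2, Θ v.2.2))
        (fun v => ((a v.1.1, l v.1.1), (b v.1.1, e v.1.1), b v.2.1, e v.2.1))
        (fun v => (Θ v.2.2, a v.2.2, l v.2.2)) ≤ 2 * dft P Θ ρ σ a l b e ∧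
      mi (QQ P Θ ρ σ a l) (fun v => (a v.1.1, l v.1.1))
        (fun v => ((b v.1.1, e v.1.1), b v.2.1, e v.2.1))
        (fun v => (Θ v.2.2, a v.2.2, l v.2.2)) ≤ 2 * dft P Θ ρ σ a l b e ∧
      mi (QQ P Θ ρ σ a l) (fun v => ((a v.1.1, l v.1.1), a v.2.2, l v.2.2))
        (fun v => ((b v.1.1, e v.1.1), b v.2.1, e v.2.1)) (fun v => Θ v.2.2) ≤
        4 * dft P Θ ρ σ a l b e ∧
      mi (QQ P Θ ρ σ a l) (fun v => (a v.1.1, l v.1.1)) (fun v => (a v.2.2, l v.2.2))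
        (fun v => Θ v.2.2) ≤ 3 * dft P Θ ρ σ a l b e ∧
      mi (QQ P Θ ρ σ a l) (fun v => (b v.1.1, e v.1.1)) (fun v => (b v.2.1, e v.2.1))
        (fun v => Θ v.2.2) ≤ 3 * dft P Θ ρ σ a l b e ∧
      ch P a (fun ω => (σ ω, Θ ω)) ≤ ch (QQ P Θ ρ σ a l) (fun v => a v.1.1)
        (fun v => (Θ v.2.2, a v.2.2, l v.2.2)) + 2 * dft P Θ ρ σ a l b e ∧
      ch P b (fun ω => (ρ ω, Θ ω)) ≤ ch (QQ P Θ ρ σ a l) (fun v => b v.1.1)
        (fun v => ((b v.2.1, e v.2.1), Θ v.2.2, a v.2.2, l v.2.2)) + 2 * dft P Θ ρ σ a l b e := by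
  have J := joint (l := l) ha hb
  set Q := QQ P Θ ρ σ a l
  have up : ∀ {X Y : Type} (π : (Ω × Ω) × Ω × Ω → Ω) (f : Ω → X) (g : Ω → Y), Law Q π P id →
      (∀ v ∈ Q.S, Θ (π v) = Θ v.2.2) → ch Q (fun v => f (π v)) (fun v => Θ v.2.2) = ch P f Θ ∧
        ch Q (fun v => (f (π v), g (π v))) (fun v => Θ v.2.2) =
          ch P f Θ + ch P g fun ω => (f ω, Θ ω) := fun π f g h k =>
    ⟨(ch_ext (fun _ _ => rfl) fun v hv => (k v hv).symm).trans (h.ch_id f Θ),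
      ((ch_ext (fun _ _ => rfl) fun v hv => (k v hv).symm).trans
        (h.ch_id (fun ω => (f ω, g ω)) Θ)).trans (ch_chain _ _ _)⟩
  obtain ⟨u1, u2⟩ := up _ a l (law11 P Θ ρ σ a l) fun v hv => (memQ hv).2.2.2.2.1
  obtain ⟨u3, u4⟩ := up _ b e (law11 P Θ ρ σ a l) fun v hv => (memQ hv).2.2.2.2.1
  obtain ⟨u5, u6⟩ := up _ b e (law21 P Θ ρ σ a l) fun v hv => (memQ hv).2.2.2.2.2.2
  have p1 : ch P a (fun ω => (σ ω, Θ ω)) ≤ ch P a Θ := ch_anti (Fn.snd _ _)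
  have p2 : ch P b (fun ω => (ρ ω, Θ ω)) ≤ ch P b Θ := ch_anti (Fn.snd _ _)
  have p3 := ch_nonneg (P := P) l fun ω => (a ω, Θ ω)
  have p4 := ch_nonneg (P := P) e fun ω => (b ω, Θ ω)
  have f0 : Fn Q (fun v => (Θ v.2.2, a v.2.2, l v.2.2)) fun v => (ρ v.2.2, Θ v.2.2) :=
    (Fn.snd _ _).pair (((law22 P Θ ρ σ a l).fn ha).pair ((law22 P Θ ρ σ a l).fn hl))
  have f1 : Fn Q (fun v => Θ v.2.2) fun v => (Θ v.2.2, a v.2.2, l v.2.2) := Fn.fst _ _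
  have w1 := ch_subadd (P := Q) (fun v => (b v.1.1, e v.1.1)) (fun v => (b v.2.1, e v.2.1))
    fun v => Θ v.2.2
  have w2 := ch_subadd (P := Q) (fun v => (a v.1.1, l v.1.1))
    (fun v => ((b v.1.1, e v.1.1), b v.2.1, e v.2.1)) fun v => Θ v.2.2
  have w3 := ch_anti (F := fun v => ((a v.1.1, l v.1.1), (b v.1.1, e v.1.1), b v.2.1, e v.2.1)) f1
  have w4 : ch Q (fun v => ((b v.2.1, a v.1.1), b v.1.1)) (fun v => (ρ v.2.2, Θ v.2.2)) ≤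
      ch Q (fun v => ((a v.1.1, l v.1.1), (b v.1.1, e v.1.1), b v.2.1, e v.2.1))
        fun v => ((ρ v.2.2, Θ v.2.2), Θ v.2.2, a v.2.2, l v.2.2) :=
    (ch_mono fun _ _ _ _ e => by simp only [Prod.mk.injEq] at e ⊢; tauto).trans
      (ch_anti ((Fn.rfl _).pair f0))
  have w5 := ch_anti (P := Q)
    (F := fun v => ((a v.1.1, l v.1.1), (b v.1.1, e v.1.1), b v.2.1, e v.2.1))
    (Fn.snd (fun v => (ρ v.2.2, Θ v.2.2)) fun v => (Θ v.2.2, a v.2.2, l v.2.2))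
  have w6 := ch_chain (P := Q) (fun v => (a v.1.1, l v.1.1))
    (fun v => ((b v.1.1, e v.1.1), b v.2.1, e v.2.1)) fun v => (Θ v.2.2, a v.2.2, l v.2.2)
  have w7 := ch_anti (F := fun v => (a v.1.1, l v.1.1)) f1
  have w8 := ch_anti (F := fun v => ((b v.1.1, e v.1.1), b v.2.1, e v.2.1)) f1
  have w9 : ch Q (fun v => ((b v.1.1, e v.1.1), b v.2.1, e v.2.1))
      (fun v => ((a v.1.1, l v.1.1), Θ v.2.2, a v.2.2, l v.2.2)) ≤
      ch Q (fun v => ((b v.1.1, e v.1.1), b v.2.1, e v.2.1))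
        fun v => (((a v.1.1, l v.1.1), a v.2.2, l v.2.2), Θ v.2.2) :=
    ch_anti fun _ _ _ _ e => by simp only [Prod.mk.injEq] at e ⊢; tauto
  have w10 : ch Q (fun v => (a v.1.1, l v.1.1)) (fun v => (Θ v.2.2, a v.2.2, l v.2.2)) ≤
      ch Q (fun v => (a v.1.1, l v.1.1)) fun v => ((a v.2.2, l v.2.2), Θ v.2.2) :=
    ch_anti fun _ _ _ _ e => by simp only [Prod.mk.injEq] at e ⊢; tauto
  have j1 := J.trans (ch_anti f0)
  have j2 : ch Q (fun v => ((b v.2.1, a v.1.1), b v.1.1)) (fun v => (Θ v.2.2, a v.2.2, l v.2.2)) ≤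
      ch Q (fun v => (((b v.2.1, e v.2.1), b v.1.1), a v.1.1))
        fun v => (Θ v.2.2, a v.2.2, l v.2.2) :=
    ch_mono fun _ _ _ _ e => by simp only [Prod.mk.injEq] at e ⊢; tauto
  have j3 := ch_subadd (P := Q) (fun v => ((b v.2.1, e v.2.1), b v.1.1)) (fun v => a v.1.1)
    fun v => (Θ v.2.2, a v.2.2, l v.2.2)
  have j4 := ch_chain (P := Q) (fun v => (b v.2.1, e v.2.1)) (fun v => b v.1.1)
    fun v => (Θ v.2.2, a v.2.2, l v.2.2)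
  have j5 := ch_anti (F := fun v => (b v.2.1, e v.2.1)) f1
  have j6 := ch_anti (F := fun v => a v.1.1) f1
  have j7 : ch Q (fun v => b v.1.1) (fun v => ((b v.2.1, e v.2.1), Θ v.2.2, a v.2.2, l v.2.2)) ≤
      ch Q (fun v => (b v.1.1, e v.1.1)) fun v => ((b v.2.1, e v.2.1), Θ v.2.2) :=
    ch_le ((Fn.fst _ _).left _) fun _ _ _ _ e => by simp only [Prod.mk.injEq] at e ⊢; tauto
  have j8 : ch Q (fun v => b v.1.1) (fun v => ((b v.2.1, e v.2.1), Θ v.2.2, a v.2.2, l v.2.2)) ≤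
      ch Q (fun v => b v.1.1) fun v => Θ v.2.2 :=
    ch_anti fun _ _ _ _ e => by simp only [Prod.mk.injEq] at e ⊢; tauto
  have j9 : ch Q (fun v => a v.1.1) (fun v => (Θ v.2.2, a v.2.2, l v.2.2)) ≤
      ch Q (fun v => (a v.1.1, l v.1.1)) fun v => (Θ v.2.2, a v.2.2, l v.2.2) :=
    ch_mono ((Fn.fst _ _).left _)
  refine ⟨?_, ?_, ?_, ?_, ?_, ?_, ?_⟩
  · rw [mi_symm]; unfold mi dft; linarith
  · rw [mi_symm]; unfold mi dft; linarith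
  · rw [mi_symm]; unfold mi dft; linarith
  all_goals unfold dft
  · unfold mi; linarith
  · unfold mi; linarith
  · linarith
  · linarith

end Big

end Pool.Agent.MP_5168f5_an.R4.XRect
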