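import Pool.Agent.MP_5168f5_an.R4.SpecC
import Pool.Agent.MP_5168f5_an.R4.XRect1

/-! The slopes of the plane have small entropy. -/

namespace Pool.Agent.MP_5168f5_an.R4.CI

open H19 H17S H17F Filter NCx Tan
open Web (RV rd G3 sl TFul)

namespace Kil2A

theorem nrm {a b c : ℝ} (hc : 0 ≤ c) (h1 : |a| ≤ c) (h2 : |b| ≤ c) : ‖(![a, b] : V 2)‖ ≤ c :=
  (pi_norm_le_iff_of_nonneg hc).2 fun i => by fin_cases i <;> assumption

theorem mono {Ω : Type} {g : Geo 3 Ω} {D : Td Ω} {J M : ℕ} {L L' : ℝ} {v : (Ω × Ω) × Ω}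
    (h : In3 g D J M L v) (e : L ≤ L') : In3 g D J M L' v :=
  ⟨h.1, fun i k c => (h.2.1 i k c).trans (mul_le_mul_of_nonneg_right e (abs_nonneg _)),
    fun i => ⟨(h.2.2 i).1.mono e, (h.2.2 i).2⟩⟩

/-- The slopes read from the types and the coefficients. -/
noncomputable def rs {T : Type} (J : ℕ) (p : ((Fin 3 → ℤ) × T) × V 2 × V 2 × V 2) : V 2 :=
  ![p.2.2.1 0 - p.1.1 0 / 2 ^ J * ((p.2.2.2 0 - p.2.2.1 0) / (p.1.1 1 / 2 ^ J - p.1.1 0 / 2 ^ J)),
    (p.2.2.2 0 - p.2.2.1 0) / (p.1.1 1 / 2 ^ J - p.1.1 0 / 2 ^ J)]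

end Kil2A

open Kil2A in
theorem rowKil2 : OfKil2 := by
  intro ⟨K, m, K1, kal⟩ Ω P g D M J L pz f3 W Q π H s₁ s₂ L' L'' r af sb hw
  obtain ⟨C, -, dn⟩ := f3.dn 0
  have s1 := (((pz.sub.add af.sub pz.big).pow m).const_mul pz.big K1).mul (af.sub.add sb pz.big)
  let y : ∀ n, W n → V 2 := fun n w =>
    ![((D n).U (J n) (π n w).1.1).2.1, ((D n).U (J n) (π n w).1.1).2.2 0]
  let F : ∀ n, W n → ((Fin 3 → ℤ) × (g n).T) × V 2 × V 2 × V 2 := fun n w =>
    (ty3 (g n) (J n) (π n w), H n w, s₁ n w, s₂ n w)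
  have k := XRect.ciw (P := Q) (y := y) (y₁ := y) (y₂ := fun n w => rs (J n) (F n w))
    (G := fun n w => (g n).θ (π n w).1.1) (F := fun n w => (D n).S (J n) (π n w).1.1) (F' := F)
    pz.big (s1.add pz.sub pz.big) af.le ?_ ?_ ?_
  · exact k.mono (Eventually.of_forall fun n => ch_mono fun a _ b _ e =>
      Prod.ext (congrFun (Prod.mk.inj e).1 0) (congrFun (Prod.mk.inj e).1 1))
  · filter_upwards [dn, pz.fn, f3.in3] with n u v t
    refine ⟨fun a ha b hb e => ?_, (Fn.comp (rs (J n)) (F n)).left _, fun w hw => ?_⟩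
    · have := v _ (u.mem ((af.law n).mem ha)) _ (u.mem ((af.law n).mem hb)) (Prod.mk.inj e).1
      exact congrArg (fun d : ℝ × ℝ × V 3 => (![d.2.1, d.2.2 0] : V 2)) (congrArg (·.2.2.2) this)
    · have c := ((t _ ((af.law n).mem hw)).1.2.2 0).1.cu
      exact (nrm (pz.sub.pos n).le c.1 c.2.1).trans (le_add_of_nonneg_left (s1.pos n).le)
  · refine (af.fit.and hw).mono ?_
    filter_upwards [f3.in3] with n t w hw ⟨⟨a1, _, _, a2, a3⟩, a4⟩
    have l0 := pz.sub.pos n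
    have l1 := af.sub.1 n
    have l2 := sb.pos n
    have l3 := s1.pos n
    have e1 : L' n / 2 ^ r n ≤ (L' n + L'' n) / 2 ^ r n := by gcongr; linarith
    have e2 : L'' n / 2 ^ r n ≤ (L' n + L'' n) / 2 ^ r n := by gcongr; linarith
    obtain ⟨b1, b2⟩ := (kal (g n) (D n) (J n) (M n) (L n + L' n) ((L' n + L'' n) / 2 ^ r n)
      (H n w 0) (s₁ n w 0) (s₂ n w 0) (π n w) (mono (t _ ((af.law n).mem hw)).1 (by linarith))
      (by gcongr; exacts [by linarith, one_le_two, af.le n])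
      (((norm_le_pi_norm (H n w) 0).trans a1).trans (by linarith))
      (((norm_le_pi_norm _ 0).trans a2).trans e1) (((norm_le_pi_norm _ 0).trans a3).trans e1)).2.2
      (a4.trans e2)
    have b3 := nrm (by positivity) b1 b2
    rw [← mul_div_assoc (K * (L n + L' n) ^ m)] at b3
    refine ⟨by rw [sub_self, norm_zero]; positivity, le_trans ?_
      (b3.trans (div_le_div_of_nonneg_right (le_add_of_nonneg_right l0.le) (by positivity)))⟩
    exact (congrArg norm (funext fun i => by fin_cases i <;> rfl)).le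
  · refine (Sm.add f3.ts af.sm).mono (Eventually.of_forall fun n => ?_)
    refine (mi_near _ _ (fun w => ty3 (g n) (J n) (π n w)) _).trans (add_le_add ?_ ?_)
    · rw [mi_symm]
      exact ((af.law n).mi_id (ty3 (g n) (J n)) (fun v => (D n).S (J n) v.1.1)
        fun v => (g n).θ v.1.1).le
    · exact ch_le ((((Fn.fst _ _).right _)).pair (Fn.fst _ _)) (Fn.fst _ _)

end Pool.Agent.MP_5168f5_an.R4.CI
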