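import Pool.Agent.MP_5168f5_an.R4.SpecC

/-! A variable of the line that is known to a second line is added to the label. -/

namespace Pool.Agent.MP_5168f5_an.R4.CI

open H19 H17S H17F Filter NCx Tan

theorem rowLabP : LabP := by
  intro N Ω Λ Λ' Φ P g m j S S' F E B hm hl hk hf hF _ hE hD
  have law := fun n => kg.fst (P n) (P n) (S' n) (S' n)
  refine ⟨sm_mi_cE hm hE ((hl.h.add hF).mono (Eventually.of_forall fun n => ?_)), ?_⟩
  · refine ((law n).mi_id (fun ω => (S n ω, F n ω)) (g n).core ((g n).win (j n))).trans_le ?_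
    rw [mi_symm, mi_chain, mi_symm, mi_symm _ (F n)]
    exact add_le_add le_rfl (mi_right (fun _ _ _ _ e => congrArg (·.2.1) e)
      (fun a _ b _ e => Prod.ext (congrArg (·.1.2) e) (Prod.ext (congrArg (·.2) e)
        (congrArg (fl1 (j n)) (congrArg (·.1.1.2.1) e)))) fun _ _ _ _ e => congrArg (·.1.1) e)
  · have h0 : ∀ n, mi (glue (P n) (P n) (S' n) (S' n)) (fun v => (S' n v.1, v.2))
        (fun v => (g n).core v.1) (fun v => (g n).y v.1) ≤ (g n).lk (P n) (S' n) := fun n => by
      have h1 := kf2.copy (P n) (S' n) (g n).core id (fun ω => (S' n ω, (g n).y ω)) (Fn.fst _ _)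
      have h2 := (law n).mi_id (S' n) (g n).core (g n).y
      rw [mi_symm] at h1 h2
      rw [mi_symm, mi_chain]
      exact (congrArg₂ (· + ·) h2 h1).le.trans (add_zero _).le
    have h1 := sm_mi_cE hm hE (hk.mono (Eventually.of_forall h0))
    refine (h1.add (hm.sm (Real.log B))).mono ((hf.and hD).mono fun n a => ?_)
    refine (mi_symm _ _ _).le.trans ((mi_near _ _ (fun v : Ω n × Ω n => (S' n v.1, v.2)) _).trans
      (add_le_add (mi_symm _ _ _).le ((ch_le ?_ ((Fn.snd _ _).left _)).trans (ch_det a.2))))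
    exact ((((fn_cE ((law n).fn a.1) _).left _).left _).right _).pair (Fn.fst _ _)

end Pool.Agent.MP_5168f5_an.R4.CI
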