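import Pool.Agent.MP_5168f5_an.R4.SpecC
import Pool.Agent.MP_5168f5_an.R4.NCp3

/-! Equal weights: no grain for the intercept of the rows. -/

namespace Pool.Agent.MP_5168f5_an.R4.CI

open H19 H17S H17F Filter NCx Tan
open Web (RV rd G3 sl TFul)

namespace NGAA

theorem numA {x y c d D L B δ : ℝ} (hD : D ≠ 0) (hb : |D| ≤ L) (h1 : |c - x / D| ≤ B / δ)
    (h2 : |d - y / D| ≤ B / δ) (h3 : |c - d| < δ⁻¹) : |x - y| ≤ L * (2 * B + 1) / δ := by
  have e : x - y = D * (x / D - y / D) := by field_simp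
  have k : |x / D - y / D| ≤ (2 * B + 1) / δ := by
    rw [show (2 * B + 1) / δ = 2 * (B / δ) + δ⁻¹ by ring]
    rw [abs_le] at h1 h2 ⊢
    rw [abs_lt] at h3
    constructor <;> linarith [h1.1, h1.2, h2.1, h2.2, h3.1, h3.2]
  rw [e, abs_mul, mul_div_assoc]
  exact mul_le_mul hb k (abs_nonneg _) ((abs_nonneg _).trans hb)

theorem numB {x y c d D L B δ : ℝ} (hs : 1 ≤ L * |D|) (h1 : |c - x / D| ≤ B / δ)
    (h2 : |d - y / D| ≤ B / δ) (h3 : |x - y| < δ⁻¹) : |c - d| ≤ (2 * B + L) / δ := by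
  have p : 0 < |D| := abs_pos.2 fun z => by rw [z] at hs; norm_num at hs
  have k : |x / D - y / D| ≤ L * δ⁻¹ := by
    rw [← sub_div, abs_div, div_le_iff₀ p]
    nlinarith [abs_nonneg (x - y)]
  rw [show (2 * B + L) / δ = 2 * (B / δ) + L * δ⁻¹ by ring]
  rw [abs_le] at h1 h2 k ⊢
  constructor <;> linarith [h1.1, h1.2, h2.1, h2.2, k.1, k.2]

variable {Ω : Type} {g : Geo 3 Ω} {D : Td Ω} {J M : ℕ} {L : ℝ} {a b : (Ω × Ω) × Ω}

theorem wr_eq (h : ty3 g J a = ty3 g J b) (i : Fin 3) : wr g J i a = wr g J i b :=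
  congrArg (fun t : ℤ => (t : ℝ) / 2 ^ J) (congrFun (congrArg Prod.fst h) i)

theorem wr_bd (h : In3 g D J M L a) (i : Fin 3) : |wr g J i a| ≤ L + 1 := by
  have h1 := abs_rd_sub J (g.e (sl i a) 0)
  have h2 : (1 : ℝ) / 2 ^ J ≤ 1 := (div_le_one (by positivity)).2 (one_le_pow₀ one_le_two)
  have h3 := ((h.2.2 i).1.box.1 0).2
  rw [wr, abs_le] at *
  constructor <;> linarith [h1.1, h1.2, h3.1, h3.2]

theorem de_bd (h : In3 g D J M L a) : |wr g J 1 a - wr g J 0 a| ≤ 4 * L := by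
  have := (abs_sub _ _).trans (add_le_add (wr_bd h 1) (wr_bd h 0))
  linarith [(h.2.2 0).1.one]

end NGAA

open NGAA in
theorem rowNGA : OfNGA := by
  rintro ⟨K, m, hK, hW⟩ hT Ω P g D M J L pz f ε hN
  have hM := pz.big
  have hB : Sub M fun n => K * L n ^ m := (pz.sub.pow m).const_mul hM hK
  have h2 : Sub M fun n => 2 * (K * L n ^ m) := hB.const_mul hM one_le_two
  refine hT P (Q3 P g D J L) (fun _ => sl 0) _ _ _ _ _
    (fun n v => rd (J n) (ca (g n) (J n) v) • fun i => rd (M n) (fe (g n) v.1.1 i)) M _ ε hM hB hN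
    (f.dn 0) (f.in3.mono fun n h => ⟨fun a _ b _ e => ?_, fun v hv =>
      (hW _ _ _ _ _ v (h v hv).1).2.2.2.2⟩) ?_ ?_
  · have e1 : rd (J n) (ca (g n) (J n) a) = rd (J n) (ca (g n) (J n) b) :=
      congrArg (fun t : ℤ => (t : ℝ) / 2 ^ J n) (congrArg (·.2.1) e)
    have e2 : ∀ i, rd (M n) (fe (g n) a.1.1 i) = rd (M n) (fe (g n) b.1.1 i) := fun i =>
      congrArg (fun t : ℤ => (t : ℝ) / 2 ^ M n) (congrFun (congrArg (·.2.2) e) i)
    simp only [e1, e2]
  · refine (Sm.near1 (P := Q3 P g D J L) (x := fun n v => (g n).a v.1.1 0) (j := J)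
      (G := fun n v => (ty3 (g n) (J n) v, fl1 (J n) (ca (g n) (J n) v), fl (M n) (fe (g n) v.1.1)))
      hM ((pz.sub.const_mul hM (by norm_num : (1 : ℝ) ≤ 4)).mul (h2.add (hM.sub le_rfl) hM))
      (f.in3.mono fun n h a ha b hb e => ?_)).mono
      (Eventually.of_forall fun n => ch_mono fun a _ b _ e => ?_)
    · have t := congrArg Prod.fst e
      have s := (h a ha).1.2.1 1 0 (by decide)
      have u := (hW _ _ _ _ _ b (h b hb).1).2.1.1
      rw [ab, ← wr_eq t, ← wr_eq t] at u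
      refine numA (fun z => ?_) (de_bd (h a ha).1) (hW _ _ _ _ _ a (h a ha).1).2.1.1 u
        (abs_sub_lt_of_fl1_eq (congrArg (·.2.1) e))
      rw [z] at s; norm_num at s
    · have t := congrArg (·.2.1) e
      exact Prod.ext (Prod.ext (congrArg Prod.fst e :) (congrFun (congrArg Prod.fst t) 0))
        (Prod.ext (congrArg (·.2.2.2) e :) (congrArg Prod.snd t :))
  · refine Le.of2 (f.ti 0) (Sm.near1 (P := Q3 P g D J L) (x := fun n => ca (g n) (J n)) (j := J)
      (G := fun n v => (ty3 (g n) (J n) v, tl (g n) (J n) (M n) (sl 0 v))) hM (h2.add pz.sub hM)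
      (f.in3.mono fun n h a ha b hb e => ?_)) (Eventually.of_forall fun n => ?_)
    · have t := congrArg Prod.fst e
      have u := (hW _ _ _ _ _ b (h b hb).1).2.1.1
      rw [ab, ← wr_eq t, ← wr_eq t] at u
      exact numB ((h a ha).1.2.1 1 0 (by decide))
        (hW _ _ _ _ _ a (h a ha).1).2.1.1 u (abs_sub_lt_of_fl1_eq (congrArg (·.2.1.1) e))
    · have k1 := mi_near (P := Q3 P g D J L n) (fun v => (g n).ln (sl 0 v)) (fun v =>
        (ty3 (g n) (J n) v, fl1 (J n) (ca (g n) (J n) v), fl (M n) (fe (g n) v.1.1)))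
        (ty3 (g n) (J n)) fun v => tl (g n) (J n) (M n) (sl 0 v)
      have k2 : mi (Q3 P g D J L n) (ty3 (g n) (J n)) (fun v => (g n).ln (sl 0 v))
          (fun v => tl (g n) (J n) (M n) (sl 0 v)) ≤ mi (Q3 P g D J L n) (ty3 (g n) (J n)) (sl 0)
          fun v => (fl1 (J n) ((g n).e (sl 0 v) 0), (g n).θ (sl 0 v)) :=
        mi_right (fun a _ b _ e => Prod.ext (congrArg (·.1.2) e) (congrArg (·.2.2) e))
          ((Fn.comp _ _).left _) ((Fn.comp _ _).left _)
      have k3 : ch (Q3 P g D J L n) (fun v => (ty3 (g n) (J n) v, fl1 (J n) (ca (g n) (J n) v),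
          fl (M n) (fe (g n) v.1.1))) (fun v => (ty3 (g n) (J n) v, tl (g n) (J n) (M n) (sl 0 v)))
          ≤ ch (Q3 P g D J L n) (fun v => fl1 (J n) (ca (g n) (J n) v))
            fun v => (ty3 (g n) (J n) v, tl (g n) (J n) (M n) (sl 0 v)) :=
        ch_mono fun a _ b _ e => Prod.ext (congrArg (·.2.1) e)
          (Prod.ext (congrArg Prod.fst e :) (congrArg (·.2.2.2.1) e :))
      rw [mi_symm, mi_symm _ (ty3 (g n) (J n))] at k1
      linarith

end Pool.Agent.MP_5168f5_an.R4.CI
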