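import Pool.Agent.MP_5168f5_an.R4.SpecC

/-! Transfer of the absence of grains. -/

namespace Pool.Agent.MP_5168f5_an.R4.CI

open H19 H17S H17F Filter NCx Tan
open Web (RV rd G3 sl TFul)

namespace NGTA

theorem core {W K T : Type} {Q : FP W} {x x' E b : W → V 2} {κ : W → K} (Θ : W → T) (i : Fin 2)
    {s l R : ℕ} {L : ℝ} (hs : s ≤ l) (hl : l ≤ R) (hL : 1 ≤ L) (hE : Fn Q E κ) (hb : Fn Q b κ)
    (h : ∀ v ∈ Q.S, ‖b v‖ ≤ 1 ∧ ‖x' v - x v - E v‖ ≤ L / 2 ^ R) :
    ch Q (fun v => fl l (x' v)) (fun v => (fl l (x' v - x' v i • b v), fl s (x' v), κ v)) ≤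
      ch Q (fun v => fl1 l (x v i)) (fun v => (fl1 l (x v (i + 1) - b v (i + 1) * x v i),
        fl1 s (x v i), fl1 s (x v (i + 1)), κ v, Θ v)) + ch Q Θ κ +
      5 * Real.log (2 * (6 * L) + 3) := by
  have dd : ∀ {j : ℕ}, j ≤ R → ∀ v ∈ Q.S, ∀ m, |x' v m - x v m - E v m| ≤ L / 2 ^ j :=
    fun e v hv m => (norm_le_pi_norm (x' v - x v - E v) m).trans ((h v hv).2.trans
      (div_le_div_of_nonneg_left (by linarith) (by positivity) (pow_le_pow_right₀ one_le_two e)))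
  have bb : ∀ v ∈ Q.S, ∀ {t ε : ℝ}, |t| ≤ ε → |b v (i + 1) * t| ≤ ε := fun v hv t ε k => by
    rw [abs_mul]
    exact (mul_le_of_le_one_left (abs_nonneg _)
      ((norm_le_pi_norm (b v) (i + 1)).trans (h v hv).1)).trans k
  have cc : ∀ {j : ℕ} {y z : ℝ}, fl1 j y = fl1 j z → |y - z| ≤ L / 2 ^ j := fun e =>
    (abs_sub_lt_of_fl1_eq e).le.trans (by
      rw [div_eq_mul_inv]; exact le_mul_of_one_le_left (by positivity) hL)
  have p0 : ∀ j : ℕ, 0 ≤ L / 2 ^ j := fun j => by positivity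
  have t1 := ch_tri (P := Q) (fun v => fl l (x' v)) (fun v => fl1 l (x v i))
    fun v => (fl l (x' v - x' v i • b v), fl s (x' v), κ v)
  have t2 := ch_tri' (P := Q) (fun v => fl1 l (x v i))
    (fun v => (fl l (x' v - x' v i • b v), fl s (x' v), κ v)) fun v =>
      (fl1 l (x v (i + 1) - b v (i + 1) * x v i), fl1 s (x v i), fl1 s (x v (i + 1)), κ v, Θ v)
  have t3 : ∀ m, ch Q (fun v => fl1 s (x v m))
      (fun v => (fl l (x' v - x' v i • b v), fl s (x' v), κ v)) ≤ Real.log (2 * (6 * L) + 3) :=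
    fun m => ch_near1 (by linarith) fun u hu v hv e => by
      have a1 := abs_le.1 (cc (congrFun (congrArg (·.2.1) e) m))
      have a2 := abs_le.1 (dd (hs.trans hl) u hu m)
      have a3 := abs_le.1 (dd (hs.trans hl) v hv m)
      rw [hE u hu v hv (congrArg (·.2.2) e)] at a2
      rw [mul_div_assoc, abs_le]
      constructor <;> linarith [a1.1, a1.2, a2.1, a2.2, a3.1, a3.2, p0 s]
  have t4 : ch Q (fun v => fl1 l (x v (i + 1) - b v (i + 1) * x v i))
      (fun v => (fl l (x' v - x' v i • b v), fl s (x' v), κ v)) ≤ Real.log (2 * (6 * L) + 3) :=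
    ch_near1 (by linarith) fun u hu v hv e => by
      have a1 := abs_le.1 (cc (congrFun (congrArg (·.1) e) (i + 1)))
      have a2 := abs_le.1 (dd hl u hu (i + 1))
      have a3 := abs_le.1 (dd hl v hv (i + 1))
      have a4 := abs_le.1 (bb u hu (dd hl u hu i))
      have a5 := abs_le.1 (bb v hv (dd hl v hv i))
      simp only [Pi.sub_apply, Pi.smul_apply, smul_eq_mul] at a1
      rw [hE u hu v hv (congrArg (·.2.2) e)] at a2 a4
      rw [hb u hu v hv (congrArg (·.2.2) e)] at a1 a4 ⊢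
      rw [mul_div_assoc, abs_le]
      constructor <;> linarith [a1.1, a1.2, a2.1, a2.2, a3.1, a3.2, a4.1, a4.2, a5.1, a5.2, p0 l]
  have t5 : ch Q (fun v => fl l (x' v)) (fun v => (fl1 l (x v i), fl l (x' v - x' v i • b v),
      fl s (x' v), κ v)) ≤ (Fintype.card (Fin 2) : ℝ) * Real.log (2 * (6 * L) + 3) :=
    ch_near (by linarith) fun u hu v hv e => (pi_norm_le_iff_of_nonneg (by positivity)).2 fun m => by
      have a1 := abs_le.1 (cc (congrFun (congrArg (·.2.1) e) (i + 1)))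
      have a2 := abs_le.1 (dd hl u hu i)
      have a3 := abs_le.1 (dd hl v hv i)
      have a4 := abs_le.1 (cc (congrArg (·.1) e))
      rw [hE u hu v hv (congrArg (·.2.2.2) e)] at a2
      have a5 : |x' u i - x' v i| ≤ 3 * (L / 2 ^ l) := by
        rw [abs_le]
        constructor <;> linarith [a2.1, a2.2, a3.1, a3.2, a4.1, a4.2]
      have a6 := abs_le.1 (bb v hv a5)
      simp only [Pi.sub_apply, Pi.smul_apply, smul_eq_mul] at a1
      rw [hb u hu v hv (congrArg (·.2.2.2) e)] at a1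
      rw [Real.norm_eq_abs, Pi.sub_apply, mul_div_assoc]
      rcases (by decide : ∀ i m : Fin 2, m = i ∨ m = i + 1) i m with rfl | rfl
      · linarith [p0 l]
      · rw [abs_le]
        constructor <;> linarith [a1.1, a1.2, a6.1, a6.2, p0 l]
  have t6 : ch Q (fun v => (κ v, Θ v)) (fun v => (fl l (x' v - x' v i • b v), fl s (x' v), κ v)) ≤
      ch Q Θ κ := ch_le (fun _ _ _ _ e => Prod.ext (congrArg (·.2.2.2) e) (congrArg (·.1) e))
    fun _ _ _ _ e => congrArg (·.2.2) e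
  have t7 := (ch_subadd _ _ _).trans (add_le_add t4 ((ch_subadd _ _ _).trans (add_le_add (t3 i)
    ((ch_subadd _ _ _).trans (add_le_add (t3 (i + 1)) t6)))))
  rw [Fintype.card_fin] at t5
  push_cast at t5
  linarith

theorem inf {W K T T' Λ A : Type} (Q : FP W) (κ : W → K) {ρ : W → A} (l : A → Λ) (Θ : A → T)
    (Θ' : A → T') : mi Q (fun v => (κ v, Θ' (ρ v))) (fun v => l (ρ v)) (fun v => Θ (ρ v)) ≤
      mi Q (fun v => Θ' (ρ v)) (fun v => l (ρ v)) (fun v => Θ (ρ v)) +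
        mi Q κ ρ fun v => Θ' (ρ v) := by
  refine (mi_mono' (F' := fun v => (Θ' (ρ v), κ v)) fun a _ b _ e => by
    simp only [Prod.mk.injEq] at e ⊢; tauto).trans ?_
  rw [mi_symm, mi_chain, mi_symm _ (fun v => Θ' (ρ v)), mi_symm _ κ]
  exact add_le_add le_rfl (mi_right (Fn.fst _ _)
    (fun a _ b _ e => by rw [show ρ a = ρ b from congrArg Prod.fst e])
    fun a _ b _ e => by rw [show ρ a = ρ b from congrArg Prod.fst e])

end NGTA

open NGTA in
theorem rowNGT : NGT := by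
  intro Ω W T T' Λ P Q π l Θ Θ' x x' E R L ε hR hL hN hπ hE h1 h2 W' K Q' ρ κ s lam i b F k1 k2 k3
    k4 k5
  have d1 : K31.DnS (fun n => cE (Q' n) (F n)) ρ Q :=
    (K31.dnS_cE k5).trans (K31.dnS_law (Eventually.of_forall k1))
  have a1 := hN W' (fun n => K n × T' n) (fun n => cE (Q' n) (F n)) (fun n v => π n (ρ n v))
    (fun n v => (κ n v, Θ' n (ρ n v))) s lam i (fun n v => b n v (i + 1)) (d1.trans hπ) k2
    (sm_mi_cE hR k5 ((h2.add k3).mono (Eventually.of_forall fun n =>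
      (inf (Q' n) (κ n) (fun w => l n (π n w)) (fun w => Θ n (π n w)) (Θ' n)).trans
        (add_le_add ((k1 n).mi_id (Θ' n) (fun w => l n (π n w)) fun w => Θ n (π n w)).le le_rfl))))
    (k4.mono fun n c => ⟨fun u hu v hv e =>
      congrFun (c.1 u (cE_sub hu) v (cE_sub hv) (congrArg Prod.fst e)) (i + 1), fun v hv =>
        (norm_le_pi_norm (b n v) (i + 1)).trans (c.2.2 v (cE_sub hv)).2⟩)
  refine Le.of3 a1 (d1.sm_ch h1) ((hL.const_mul hR (C := 6) (by norm_num)).log3 hR 5) ?_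
  filter_upwards [hE, k4] with n c e
  have a2 := core (Q := cE (Q' n) (F n)) (x := fun v => x n (π n (ρ n v)))
    (x' := fun v => x' n (ρ n v)) (E := fun v => E n (ρ n v)) (b := b n)
    (κ := fun v => (κ n v, Θ' n (ρ n v))) (fun v => Θ n (π n (ρ n v))) i (k2 n).1 (k2 n).2 (hL.1 n)
    (fn_cE (((k1 n).fn c.1).trans (Fn.snd _ _)) _) (fn_cE e.1 _) fun v hv =>
      ⟨(e.2.2 v (cE_sub hv)).2, c.2 _ ((k1 n).mem (cE_sub hv))⟩
  have a3 : ch (cE (Q' n) (F n)) (fun v => Θ n (π n (ρ n v))) (fun v => (κ n v, Θ' n (ρ n v))) ≤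
      ch (cE (Q' n) (F n)) (fun v => Θ n (π n (ρ n v))) fun v => Θ' n (ρ n v) :=
    ch_anti (Fn.snd _ _)
  linarith

end Pool.Agent.MP_5168f5_an.R4.CI
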