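import Pool.Agent.MP_5168f5_an.R4.SpecC

/-! A grain and a full quotient. -/

namespace Pool.Agent.MP_5168f5_an.R4.CI

open H19 H17S H17F Filter NCx Tan
open Web (RV rd G3 sl TFul)

namespace OneGA

theorem nr {j : ℕ} {x y : ℝ} (e : fl1 j x = fl1 j y) : |x - y| ≤ 1 / 2 ^ j := by
  rw [one_div]
  exact (abs_sub_lt_of_fl1_eq e).le

theorem n1 {p h : ℕ} {A A' B B' b b' : ℝ} (hb : |b| ≤ 1) (e : fl1 h b = fl1 h b')
    (eA : fl1 p A = fl1 p A') (eB : fl1 p B = fl1 p B') :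
    |B - rd h b * A - (B' - rd h b' * A')| ≤ 3 / 2 ^ p := by
  have r : rd h b' = rd h b := by rw [rd, rd, e]
  have h1 : (1 : ℝ) / 2 ^ h ≤ 1 := (div_le_one (by positivity)).2 (one_le_pow₀ one_le_two)
  have h2 : |rd h b| ≤ 2 := by linarith [abs_sub_abs_le_abs_sub (rd h b) b, abs_rd_sub h b]
  have h3 := mul_le_mul h2 (nr eA) (abs_nonneg _) zero_le_two
  rw [r, show B - rd h b * A - (B' - rd h b * A') = B - B' - rd h b * (A - A') by ring]
  refine (abs_sub _ _).trans ?_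
  rw [abs_mul, show (3 : ℝ) / 2 ^ p = 1 / 2 ^ p + 2 * (1 / 2 ^ p) by ring]
  exact add_le_add (nr eB) h3

theorem n2 {s h l : ℕ} {A A' B B' b : ℝ} (hl : s + h ≤ l) (eA : fl1 s A = fl1 s A')
    (e : fl1 l (B - b * A) = fl1 l (B' - b * A')) :
    |B - rd h b * A - (B' - rd h b * A')| ≤ 3 / 2 ^ (s + h) := by
  have h1 : (1 : ℝ) / 2 ^ l ≤ 1 / 2 ^ (s + h) :=
    one_div_le_one_div_of_le (by positivity) (pow_le_pow_right₀ one_le_two hl)
  have h3 := mul_le_mul (abs_rd_sub h b) (nr eA) (abs_nonneg _) (by positivity)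
  have h4 : (0 : ℝ) < 1 / 2 ^ (s + h) := by positivity
  rw [show B - rd h b * A - (B' - rd h b * A') =
    B - b * A - (B' - b * A') - (rd h b - b) * (A - A') by ring]
  refine (abs_sub _ _).trans ?_
  rw [div_mul_div_comm, one_mul, ← pow_add, add_comm h] at h3
  rw [abs_mul, show (3 : ℝ) / 2 ^ (s + h) = 3 * (1 / 2 ^ (s + h)) by ring]
  linarith [nr e]

theorem key {Ω T U Γ : Type} (P : FP Ω) (S : Ω → U) (C : Ω → T) (G : Ω → Γ) (A B β : Ω → ℝ)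
    {s h l : ℕ} (q : ℕ) (hl : s + h ≤ l) (hC : Fn P C G) (hβ : Fn P β G)
    (hb : ∀ ω ∈ P.S, |β ω| ≤ 1) :
    (ch P (fun ω => fl1 l (A ω)) fun ω =>
      (fl1 l (B ω - β ω * A ω), fl1 s (A ω), fl1 s (B ω), G ω)) +
    (ch P (fun ω => fl1 (s + h) (B ω - rd h (β ω) * A ω)) fun ω =>
      (fl1 q (B ω - rd h (β ω) * A ω), C ω, S ω, fl1 h (β ω))) ≤
    (ch P (fun ω => (fl1 s (A ω), fl1 s (B ω))) fun ω => (S ω, C ω)) +
    (ch P (fun ω => (fl1 (s + h) (A ω), fl1 (s + h) (B ω))) fun ω =>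
      (fl1 s (A ω), fl1 s (B ω), C ω)) + (l - (s + h : ℕ) : ℝ) * lg +
      2 * Real.log (2 * 3 + 3) := by
  set W := fun ω => (fl1 l (B ω - β ω * A ω), fl1 s (A ω), fl1 s (B ω), G ω) with hW
  set W' := fun ω => (fl1 q (B ω - rd h (β ω) * A ω), C ω, S ω, fl1 h (β ω)) with hW'
  set c := fun ω => fl1 (s + h) (B ω - rd h (β ω) * A ω) with hc
  set a := fun ω => fl1 (s + h) (A ω) with ha
  set Y := fun ω => (fl1 s (A ω), fl1 s (B ω)) with hY
  set X := fun ω => (fl1 (s + h) (A ω), fl1 (s + h) (B ω)) with hX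
  set K := fun ω => (fl1 s (A ω), fl1 s (B ω), C ω, fl1 h (β ω)) with hK
  have t1 := ch_tri (P := P) (fun ω => fl1 l (A ω)) a W
  have t2 : ch P (fun ω => fl1 l (A ω)) (fun ω => (a ω, W ω)) ≤ (l - (s + h : ℕ) : ℝ) * lg :=
    KBA.refine hl (Fn.fst a W)
  have t3 := ch_tri (P := P) a c W
  have t4 : ch P c W ≤ Real.log (2 * 3 + 3) := ch_near1 (by norm_num) fun u hu v hv w => by
    simp only [hW, Prod.mk.injEq] at w
    have e := hβ u hu v hv w.2.2.2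
    rw [← e] at w ⊢
    exact n2 hl w.2.1 w.1
  have t5 : ch P a (fun ω => (c ω, W ω)) ≤ ch P a fun ω => (c ω, K ω) :=
    ch_anti fun u hu v hv w => by
      simp only [hW, hK, Prod.mk.injEq] at w ⊢
      exact ⟨w.1, w.2.2.1, w.2.2.2.1, hC u hu v hv w.2.2.2.2, by rw [hβ u hu v hv w.2.2.2.2]⟩
  have t6 := ch_tri (P := P) c Y W'
  have t7 : ch P Y W' ≤ ch P Y fun ω => (S ω, C ω) := ch_anti fun u _ v _ w =>
    Prod.ext (congrArg (·.2.2.1) w) (congrArg (·.2.1) w)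
  have t8 : ch P c (fun ω => (Y ω, W' ω)) ≤ ch P c K := ch_anti fun u _ v _ w => by
    simp only [hW', hK, hY, Prod.mk.injEq] at w ⊢
    exact ⟨w.1.1, w.1.2, w.2.2.1, w.2.2.2.2⟩
  have t9 := ch_chain (P := P) c a K
  have u1 := ch_tri (P := P) (fun ω => (c ω, a ω)) X K
  have u2 : ch P (fun ω => (c ω, a ω)) (fun ω => (X ω, K ω)) ≤ ch P c fun ω => (X ω, K ω) :=
    ch_mono fun u _ v _ w => Prod.ext (congrArg (·.1) w) (congrArg (·.2.1.1) w)
  have u3 : ch P c (fun ω => (X ω, K ω)) ≤ Real.log (2 * 3 + 3) :=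
    ch_near1 (by norm_num) fun u hu v _ w => n1 (hb u hu) (congrArg (·.2.2.2.2) w)
      (congrArg (·.1.1) w) (congrArg (·.1.2) w)
  have u4 : ch P X K ≤ ch P X fun ω => (fl1 s (A ω), fl1 s (B ω), C ω) :=
    ch_anti fun u _ v _ w => Prod.ext (congrArg (·.1) w)
      (Prod.ext (congrArg (·.2.1) w) (congrArg (·.2.2.1) w))
  linarith

end OneGA

theorem rowOneG : OneG := by
  intro Ω T U Γ P S C G A B β M s lam h q ε ε₀ hM hl hq e h1 h2 h3 h4
  refine Le.of6 h1 h2 h3 h4 (hq.smul lg_pos.le) (hM.sm (2 * Real.log (2 * 3 + 3)))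
    (e.mono fun n a => ?_)
  have := OneGA.key (P n) (S n) (C n) (G n) (A n) (B n) (β n) (q n) (hl n) a.1 a.2.1 a.2.2
  push_cast at this ⊢
  linarith

end Pool.Agent.MP_5168f5_an.R4.CI
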