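import Pool.Agent.MP_5168f5_an.R4.SpecK

/-! An affine image of a system in a window is a system. -/

namespace Pool.Agent.MP_5168f5_an.R4

open H19 H17S H17F Filter

namespace BsAffA

theorem fl1_fract (i j : ℕ) (x : ℝ) :
    fl1 i (Int.fract (2 ^ j * x)) = fl1 (j + i) x - 2 ^ i * fl1 j x :=
  congrFun (fl_fr i j (fun _ : Fin 1 => x)) 0

end BsAffA

theorem rowBsAff : OfBsAff := by
  intro kb N N' Ω K Y P g M M' j A c d κ y L hb hk hF hj hL h
  refine ⟨hb.big.frac hF, ⟨L, hL.frac hF, h.mono fun n hn => ⟨fun ω hω => ⟨hn.2.2 ω hω,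
    Int.fract_nonneg _, Int.fract_lt_one _⟩, fun a ha b hb' e => ?_, fun a ha b hb' e => ?_⟩⟩,
    ?_, ?_⟩
  · have := congrArg Prod.fst (hn.2.1 a ha b hb' e)
    simp only at this
    simp only [this]
  · exact congrArg Prod.snd (hn.2.1 a ha b hb' e)
  · refine Sm.mono (Le.frac (kb.inf P g M j κ hb hk) hF) (h.mono fun n hn => ?_)
    refine (mi_mono' (F' := (g n).z) ((Fn.comp (fun t => Int.fract (2 ^ j n * t)) _).left _)).trans
      (mi_right (fun a ha b hb' e => ?_) ((Fn.snd _ _).left _) fun a ha b hb' e => ?_)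
    · have := hn.1 a ha b hb' e
      simp only [Prod.mk.injEq] at this
      exact Prod.ext this.2.1 this.1
    · simp only [Prod.mk.injEq, Geo.ln] at e
      have := hn.1 a ha b hb' e.1.2
      simp only [Prod.mk.injEq] at this
      simp only [Geo.ln, Geo.lt, Geo.z0, e.1.1.1, e.1.1.2.1, e.1.2, this.2.1, this.2.2.1,
        this.2.2.2.1, this.2.2.2.2]
  · refine (Le.frac (kb.hgt P g M j j (fun n => j n + M' n) κ hb hk fun n =>
      ⟨le_rfl, Nat.le_add_right _ _, hj n⟩) hF).of_sub (Eventually.of_forall fun n => ?_)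
    have : ch (P n) (fun ω => fl1 (j n + M' n) ((g n).z ω))
        (fun ω => (fl1 (j n) ((g n).z ω), (g n).ln ω, κ n ω)) ≤
        ch (P n) (fun ω => fl1 (M' n) (Int.fract (2 ^ j n * (g n).z ω))) (κ n) := by
      refine ch_le (fun a _ b _ e => ?_) fun a _ b _ e => congrArg (·.2.2) e
      simp only [Prod.mk.injEq, BsAffA.fl1_fract] at e
      have h1 := e.1
      rw [e.2.1] at h1
      exact sub_left_inj.1 h1
    push_cast
    linarith

end Pool.Agent.MP_5168f5_an.R4
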