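import Pool.Agent.MP_5168f5_an.R4.Api

/-! Kakeya sets in four dimensions: passage to a smaller unit. -/

namespace Pool.Agent.MP_5168f5_an.R4

open H19 H17S H17F Filter

namespace DownA

/-- Countably many estimates with error `o(M)` hold with error `o(m)` for some `m = o(M)`. -/
theorem unit {M : ℕ → ℕ} (hM : Big M) {p : ℕ → ℕ → ℝ → Prop}
    (hm : ∀ j n δ δ', δ ≤ δ' → p j n δ → p j n δ')
    (h : ∀ j (ε : ℝ), 0 < ε → ∀ᶠ n in UF, p j n (ε * M n)) :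
    ∃ m : ℕ → ℕ, Big m ∧ Sm M (fun n => m n) ∧ ∀ R : ℕ → ℕ, (∀ᶠ n in UF, m n ≤ R n) →
      ∀ j (ε : ℝ), 0 < ε → ∀ᶠ n in UF, p j n (ε * R n) := by
  obtain ⟨k, hk, e⟩ := ks.spill (fun k n => k * (k + 1) ≤ M n ∧
      ∀ j ∈ Finset.range (k + 1), p j n ((1 / (k + 1 : ℝ)) ^ 2 * M n)) fun k =>
    (tendsto_atTop.1 hM _).and ((eventually_all_finset _).2 fun j _ => h j _ (by positivity))
  refine ⟨fun n => M n / (k n + 1) + 1, tendsto_atTop_mono' _ (e.mono fun n a => ?_) hk,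
    fun ε hε => ?_, fun R hR j ε hε => ?_⟩
  · exact ((Nat.le_div_iff_mul_le (Nat.succ_pos _)).2 (a _ le_rfl).1).trans (Nat.le_succ _)
  · filter_upwards [K31.small (half_pos hε) hk, hM.sm 1 _ (half_pos hε)] with n a b
    have c : ((M n / (k n + 1) : ℕ) : ℝ) ≤ M n / ((k n + 1 : ℕ) : ℝ) := Nat.cast_div_le
    have d := mul_le_mul_of_nonneg_right a (Nat.cast_nonneg (α := ℝ) (M n))
    rw [one_div_mul_eq_div] at d
    rw [Nat.cast_add, Nat.cast_one] at c ⊢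
    linarith
  · filter_upwards [e, hR, K31.small hε hk, tendsto_atTop.1 hk j] with n a b c d
    refine hm _ _ _ _ ?_ ((a _ le_rfl).2 j (Finset.mem_range.2 (Nat.lt_succ_of_le d)))
    have f : (M n : ℝ) ≤ (k n + 1) * R n := by
      exact_mod_cast (Nat.lt_mul_div_succ (M n) (Nat.succ_pos (k n))).le.trans
        (Nat.mul_le_mul_left _ b)
    rw [pow_two, mul_assoc]
    refine mul_le_mul c ?_ (by positivity) hε.le
    rwa [one_div_mul_eq_div, div_le_iff₀' (by positivity)]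

theorem hgt {Ω β : Type} (P : FP Ω) (z : Ω → ℝ) (θ : Ω → β) {R M : ℕ} (h : R ≤ M) :
    ch P (fun ω => fl1 M (z ω)) θ ≤ ch P (fun ω => fl1 R (z ω)) θ + (M - R : ℝ) * lg := by
  obtain ⟨d, rfl⟩ := Nat.exists_eq_add_of_le h
  have a := ch_fl1_refine (P := P) (x := z) (G := fun ω => (fl1 R (z ω), θ ω)) (j := fun _ => R)
    (i := fun _ => d) (fun _ _ _ _ _ => rfl) (fun _ _ _ _ _ => rfl) (Fn.fst _ _)
  rw [FP.E_const] at a
  rw [Nat.cast_add, add_sub_cancel_left]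
  exact (ch_tri _ _ _).trans (add_le_add le_rfl a)

/-- All the estimates for one system with error `δ`. -/
structure U {N : ℕ} {W : Type} (Q : FP W) (G : Geo N W) (M : ℕ) (i : Fin N) (η : ℝ) (b : Prop)
    (a c δ : ℝ) : Prop where
  inf : mi Q G.z G.ln G.θ ≤ 0 + δ
  hgt : M * lg ≤ ch Q (fun ω => fl1 M (G.z ω)) G.θ + δ
  br : ∀ α : ℕ, α ≤ M → η * α * lg ≤ ch Q (fun ω => fl1 α (G.e ω i)) G.y + δ
  brd : b → ∀ s : ℕ × ℕ, s.1 ≤ s.2 ∧ (s.2 : ℝ) ≤ a * M → η * (s.2 - s.1) * lg - c * s.2 ≤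
    ch Q (fun ω => fl1 s.2 (G.e ω i)) (fun ω => (fl s.1 (G.e ω), G.y ω)) + δ

theorem U.mono {N : ℕ} {W : Type} {Q : FP W} {G : Geo N W} {M : ℕ} {i : Fin N} {η : ℝ} {b : Prop}
    {a c δ δ' : ℝ} (h : U Q G M i η b a c δ) (d : δ ≤ δ') : U Q G M i η b a c δ' :=
  ⟨h.inf.trans (add_le_add le_rfl d), h.hgt.trans (add_le_add le_rfl d),
    fun α k => (h.br α k).trans (add_le_add le_rfl d),
    fun k s e => (h.brd k s e).trans (add_le_add le_rfl d)⟩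

theorem one {N : ℕ} {W : ℕ → Type} {Q : ∀ n, FP (W n)} {G : Gs N W} {M : ℕ → ℕ} {i : Fin N}
    {η : ℝ} {b : Prop} {a c ε : ℝ} (h : Bs Q G M) (h' : BR Q G M i η) (a0 : 0 < a)
    (ha : b → ∀ α β : ℕ → ℕ, (∀ n, α n ≤ β n ∧ (β n : ℝ) ≤ a * M n) →
      Le M (fun n => η * (β n - α n) * lg - c * β n) fun n =>
        ch (Q n) (fun v => fl1 (β n) ((G n).e v i)) fun v => (fl (α n) ((G n).e v), (G n).y v))
    (hε : 0 < ε) : ∀ᶠ n in UF, U (Q n) (G n) (M n) i η b a c (ε * M n) := by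
  have r : b → ∀ᶠ n in UF, ∀ s : ℕ × ℕ, s.1 ≤ s.2 ∧ (s.2 : ℝ) ≤ a * M n →
      η * (s.2 - s.1) * lg - c * s.2 ≤ ch (Q n) (fun v => fl1 s.2 ((G n).e v i))
        (fun v => (fl s.1 ((G n).e v), (G n).y v)) + ε * M n := fun k =>
    unif' (fun n => ⟨(0, 0), le_rfl, by rw [Nat.cast_zero]; positivity⟩)
      fun s hs => ha k _ _ hs ε hε
  have r' : ∀ᶠ n in UF, ∀ α : ℕ, α ≤ M n →
      η * α * lg ≤ ch (Q n) (fun v => fl1 α ((G n).e v i)) (G n).y + ε * M n :=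
    unif' (fun n => ⟨0, Nat.zero_le _⟩) fun s hs => h' s hs ε hε
  filter_upwards [h.inf ε hε, h.hgt ε hε, r', eventually_imp_distrib_left.2 r] with n u v w x
  exact ⟨u, v, w, x⟩

end DownA

open DownA

theorem rowDown : OfDown := by
  intro _ N Ω K g M i η X hK hX
  obtain ⟨L, hL, hB⟩ := (hK.bs X hX).bx
  have e : ∀ j : ℕ, ∃ a : ℝ, 0 < a ∧ (BRD K g M i η → ∀ X, K X → ∀ α β : ℕ → ℕ,
      (∀ n, α n ≤ β n ∧ (β n : ℝ) ≤ a * M n) →
      Le M (fun n => η * (β n - α n) * lg - 1 / (j + 1 : ℝ) * β n) fun n =>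
        ch (X n).Q (fun v => fl1 (β n) ((X.G g n).e v i)) fun v =>
          (fl (α n) ((X.G g n).e v), (X.G g n).y v)) := fun j => by
    by_cases h : BRD K g M i η
    · exact (h _ (by positivity)).imp fun a b => ⟨b.1, fun _ => b.2⟩
    · exact ⟨1, one_pos, fun c => absurd c h⟩
  choose a a0 ha using e
  obtain ⟨m, h1, h2, h3⟩ := unit (hK.bs X hX).big (p := fun j n δ => L n ≤ Real.exp δ ∧
      ∀ x : Ext (X n).W, K31.Dn (j + 1) x.Q x.ρ (X n).Q →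
        U x.Q ((X.G g n).pull x.ρ) (M n) i η (BRD K g M i η) (a j) (1 / (j + 1 : ℝ)) δ)
    (fun j n δ δ' d u => ⟨u.1.trans (Real.exp_le_exp.2 d), fun x hx => (u.2 x hx).mono d⟩)
    fun j ε hε => by
    have o : (1 : ℝ) ≤ j + 1 := le_add_of_nonneg_left (Nat.cast_nonneg j)
    refine (hL.2 ε hε).and (unif' (fun n => ⟨⟨_, (X n).Q, id⟩, (K31.dn_rfl _).mono o⟩)
      fun x hx => ?_)
    have k := hK.cl0.dnK hX (X' := x) ⟨_, o, .of_forall hx⟩
    exact one (hK.bs _ k) (hK.br _ k) (a0 j) (fun b => ha j b _ k) hε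
  refine ⟨m, h1, h2, fun R hR => ?_⟩
  have h4 := h3 R (hR.mono fun _ b => b.1)
  have h5 : ∀ X' : Mb X.W, DnK X.P X' → ∀ t : ℝ, ∃ j : ℕ, t ≤ j + 1 ∧ ∀ ε : ℝ, 0 < ε → ∀ᶠ n in UF,
      U (X' n).Q (X'.G (X.G g) n) (M n) i η (BRD K g M i η) (a j) (1 / (j + 1 : ℝ)) (ε * R n) := by
    rintro X' ⟨C, -, c⟩ t
    obtain ⟨j, hj⟩ := exists_nat_ge (max C t)
    refine ⟨j, by linarith [le_max_right C t], fun ε hε => ?_⟩
    filter_upwards [h4 j ε hε, c] with n u v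
    exact u.2 _ (v.mono (by linarith [le_max_left C t]))
  refine ⟨⟨cl0_dnK _, hK.pos, fun X' k => ?_, fun X' k α hα ε hε => ?_⟩,
    fun b s X' k α β C hα ε hε => ?_⟩
  · obtain ⟨j, -, u⟩ := h5 X' k 0
    obtain ⟨C, -, c⟩ := k
    refine ⟨tendsto_atTop_mono' _ (hR.mono fun _ b => b.1) h1,
      ⟨L, ⟨hL.1, fun ε hε => (h4 0 ε hε).mono fun _ b => b.1⟩, ?_⟩,
      fun ε hε => (u ε hε).mono fun _ b => b.inf, fun ε hε => ?_⟩
    · filter_upwards [hB, c] with n v w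
      exact ⟨fun ω h => v.bd _ (w.mem h), w.fn v.fz, w.fn v.fθ⟩
    · filter_upwards [u ε hε, hR] with n v w
      linarith [v.hgt, hgt (X' n).Q (X'.G (X.G g) n).z (X'.G (X.G g) n).θ w.2]
  · obtain ⟨j, -, u⟩ := h5 X' k 0
    filter_upwards [u ε hε, hR] with n v w
    exact v.br _ ((hα n).trans w.2)
  · obtain ⟨j, t, u⟩ := h5 X' k (|C| / (ε / 2))
    filter_upwards [u _ (half_pos hε), Sm.smul s (abs_nonneg C) _ (a0 j)] with n v w
    have c := (hα n).2.trans (mul_le_mul_of_nonneg_right (le_abs_self C) (Nat.cast_nonneg _))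
    have d := v.brd b (α n, β n) ⟨(hα n).1, c.trans (by simpa using w)⟩
    have f : 1 / (j + 1 : ℝ) * β n ≤ ε / 2 * R n := by
      rw [div_le_iff₀ (half_pos hε)] at t
      rw [one_div_mul_eq_div, div_le_iff₀ (by positivity)]
      nlinarith [Nat.cast_nonneg (α := ℝ) (R n)]
    linarith

end Pool.Agent.MP_5168f5_an.R4
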