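import Pool.Agent.MP_5168f5_an.R4.Api

/-! Kakeya sets in four dimensions: a subclass with the same entropies along a chain. -/

namespace Pool.Agent.MP_5168f5_an.R4

open H19 H17S H17F Filter

namespace ExactA

section Fin

variable {Ω α β : Type} {P : FP Ω} {A : ℕ → Ω → α} {B : Ω → β} {J : ℕ} {c : ℝ}

/-- The chain condition. -/
def Ch (P : FP Ω) (A : ℕ → Ω → α) (B : Ω → β) (J : ℕ) (c : ℝ) : Prop :=
  ∀ j < J, Fn P (A j) (fun v => (A (j + 1) v, B v)) ∧
    ch P (A (j + 1)) (fun v => (A j v, B v)) ≤ c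

/-- The entropy of the variable of index `j`. -/
noncomputable def hj (P : FP Ω) (A : ℕ → Ω → α) (B : Ω → β) (j : ℕ) : ℝ :=
  ch P (A j) fun v => (A 0 v, B v)

theorem hj_zero : hj P A B 0 = 0 := ch_zero (Fn.fst _ _)

theorem Ch.fn (h : Ch P A B J c) {a b : ℕ} (hab : a ≤ b) (hb : b ≤ J) :
    Fn P (A a) fun v => (A b v, B v) := by
  induction b, hab using Nat.le_induction with
  | base => exact Fn.fst _ _
  | succ b _ ih => exact (ih (by omega)).trans ((h b (by omega)).1.pair (Fn.snd _ _))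

theorem Ch.chain (h : Ch P A B J c) {a b : ℕ} (hab : a ≤ b) (hb : b ≤ J) :
    ch P (A b) (fun v => (A a v, B v)) = hj P A B b - hj P A B a := by
  have e := ch_chain (P := P) (A a) (A b) fun v => (A 0 v, B v)
  have e1 : ch P (fun v => (A a v, A b v)) (fun v => (A 0 v, B v)) = hj P A B b :=
    ch_congr (((h.fn hab hb).trans ((Fn.fst _ _).pair ((Fn.snd _ _).right _))).pair (Fn.fst _ _))
      ((Fn.snd _ _).left _) (Fn.rfl _) (Fn.rfl _)
  have e2 : ch P (A b) (fun v => (A a v, A 0 v, B v)) = ch P (A b) fun v => (A a v, B v) :=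
    ch_congr (Fn.fst _ _) (Fn.fst _ _)
      ((Fn.fst _ _).pair ((h.fn (Nat.zero_le a) (hab.trans hb)).pair (Fn.snd _ _)))
      ((Fn.fst _ _).pair ((Fn.snd _ _).right _))
  have e3 : ch P (A a) (fun v => (A 0 v, B v)) = hj P A B a := rfl
  linarith

theorem Ch.mono (h : Ch P A B J c) {a b : ℕ} (hab : a ≤ b) (hb : b ≤ J) :
    hj P A B a ≤ hj P A B b := by
  linarith [h.chain hab hb, ch_nonneg (P := P) (A b) fun v => (A a v, B v)]

theorem Ch.lip (h : Ch P A B J c) {a b : ℕ} (hab : a ≤ b) (hb : b ≤ J) :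
    hj P A B b ≤ hj P A B a + c * (b - a : ℝ) := by
  induction b, hab using Nat.le_induction with
  | base => simp
  | succ b _ ih =>
    have h1 := h.chain (Nat.le_succ b) hb
    have h2 := (h b (by omega)).2
    have h3 := ih (by omega)
    push_cast
    linarith

theorem Ch.bd (h : Ch P A B J c) (hc : 0 ≤ c) {b : ℕ} (hb : b ≤ J) {C m : ℝ} (hm : 0 ≤ m)
    (hJ : (J : ℝ) ≤ C * m) : hj P A B b ≤ c * |C| * m := by
  have h1 := h.lip (Nat.zero_le b) hb
  have h2 : (b : ℝ) ≤ J := by exact_mod_cast hb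
  have h3 := mul_le_mul_of_nonneg_right (le_abs_self C) hm
  rw [hj_zero, Nat.cast_zero, sub_zero, zero_add] at h1
  rw [mul_assoc]
  exact h1.trans (mul_le_mul_of_nonneg_left (by linarith) hc)

end Fin

/-- Countably many levels; the level of index `0` is the top. -/
def lv (J i : ℕ) : ℕ := J - i.unpair.1 * (J / (i.unpair.2 + 1) + 1)

theorem lv_zero (J : ℕ) : lv J 0 = J := by simp [lv]

theorem lv_le (J i : ℕ) : lv J i ≤ J := Nat.sub_le _ _

theorem lv_near (J b : ℕ) {j : ℕ} (hj : j ≤ J) : ∃ a ≤ b + 1, lv J (Nat.pair a b) ≤ j ∧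
    (j : ℝ) - lv J (Nat.pair a b) ≤ J / (b + 1 : ℝ) + 1 := by
  have t0 : 0 < J / (b + 1) + 1 := Nat.succ_pos _
  have h1 := Nat.lt_mul_div_succ J (Nat.succ_pos b)
  have h2 := Nat.lt_mul_div_succ (J - j) t0
  have h3 := Nat.mul_div_le (J - j) (J / (b + 1) + 1)
  have h4 : (J - j) / (J / (b + 1) + 1) < b + 1 :=
    (Nat.div_lt_iff_lt_mul t0).2 ((Nat.sub_le _ _).trans_lt h1)
  have h5 : ((J / (b + 1) : ℕ) : ℝ) ≤ J / (b + 1 : ℝ) := by
    simpa using Nat.cast_div_le (α := ℝ) (m := J) (n := b + 1)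
  refine ⟨(J - j) / (J / (b + 1) + 1) + 1, by omega, ?_⟩
  rw [lv, Nat.unpair_pair, mul_comm]
  rw [Nat.mul_succ] at h2 ⊢
  generalize (J / (b + 1) + 1) * ((J - j) / (J / (b + 1) + 1)) = w at h2 h3 ⊢
  generalize J / (b + 1) = t at h2 h5 ⊢
  refine ⟨by omega, ?_⟩
  have h6 : j ≤ J - (w + (t + 1)) + (t + 1) := by omega
  have h7 : (j : ℝ) ≤ (J - (w + (t + 1)) : ℕ) + (t + 1) := by exact_mod_cast h6
  linarith

/-- A comparison at the countably many levels gives the comparison at all levels. -/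
theorem all_lv {M J : ℕ → ℕ} {u w : ℕ → ℕ → ℝ} {c C : ℝ} (hM : Big M) (hc : 0 ≤ c)
    (hJ : ∀ n, (J n : ℝ) ≤ C * M n)
    (hu : ∀ᶠ n in UF, ∀ a b, a ≤ b → b ≤ J n → u n b ≤ u n a + c * (b - a : ℝ))
    (hw : ∀ᶠ n in UF, ∀ a b, a ≤ b → b ≤ J n → w n a ≤ w n b)
    (h : ∀ i, Le M (fun n => u n (lv (J n) i)) fun n => w n (lv (J n) i)) {j : ℕ → ℕ}
    (hj : ∀ n, j n ≤ J n) : Le M (fun n => u n (j n)) fun n => w n (j n) := by
  intro ε hε
  obtain ⟨b, hb⟩ := exists_nat_ge (c * |C| / (ε / 3))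
  rw [div_le_iff₀ (by positivity)] at hb
  have e := (eventually_all_finite (Set.finite_Iic (b + 1))).2 fun a _ =>
    h (Nat.pair a b) (ε / 3) (by positivity)
  filter_upwards [e, hu, hw, hM.sm c (ε / 3) (by positivity)] with n e1 e2 e3 e4
  obtain ⟨a, h1, h2, h3⟩ := lv_near (J n) b (hj n)
  have h4 := e1 a h1
  have h5 := e2 _ _ h2 (hj n)
  have h6 := e3 _ _ h2 (hj n)
  have h7 := mul_le_mul_of_nonneg_left h3 hc
  have m0 : (0 : ℝ) ≤ M n := Nat.cast_nonneg _
  have h8 : c * (J n / (b + 1 : ℝ)) ≤ ε / 3 * M n := by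
    rw [← mul_div_assoc, div_le_iff₀ (by positivity)]
    have h9 := mul_le_mul_of_nonneg_left
      ((hJ n).trans (mul_le_mul_of_nonneg_right (le_abs_self C) m0)) hc
    have h10 := mul_le_mul_of_nonneg_right hb m0
    have h11 : 0 ≤ ε / 3 * M n := by positivity
    linarith
  linarith

end ExactA

open ExactA in
theorem rowExact : Exact := by
  classical
  intro Ω α β K M J A B c C X₀ hK hM h0 hc hJ H
  obtain ⟨p, hp⟩ := hK.cf
  let u : ∀ n, Ext (Ω n) → ℕ → ℝ := fun n x =>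
    hj x.Q (fun j v => A n j (x.ρ v)) fun v => B n (x.ρ v)
  let G : ∀ n, Ext (Ω n) → Prop := fun n x =>
    Ch x.Q (fun j v => A n j (x.ρ v)) (fun v => B n (x.ρ v)) (J n) c
  have HG : ∀ X, K X → ∀ᶠ n in UF, G n (X n) := H
  have bd : ∀ X, K X → ∀ i, ∀ᶠ n in UF, u n (X n) (lv (J n) i) ≤ c * |C| * M n := fun X hX i =>
    (HG X hX).mono fun n a => a.bd hc (lv_le _ _) (Nat.cast_nonneg _) (hJ n)
  obtain ⟨s, p', ⟨Y, hY⟩, h2, h3, h4⟩ := K31.exact p
    (fun y y' : Mb Ω => ∃ e, Pos y.P e ∧ y' = y.cond e)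
    (fun i n y => -u n y (lv (J n) i) / M n) (fun _ => c * |C|) ⟨X₀, (hp _).1 h0⟩
    (fun i x hx => by
      filter_upwards [bd x ((hp x).2 hx) i, hM.ev 1] with n a b
      rw [abs_div, abs_neg, abs_of_nonneg (show 0 ≤ u n (x n) (lv (J n) i) from ch_nonneg _ _),
        Nat.abs_cast, div_le_iff₀ (by linarith)]
      exact a)
    (by rintro x _ hx ⟨e, he, rfl⟩; exact (hp _).1 (hK.cond x e ((hp x).2 hx) he))
    (by
      rintro x _ hx ⟨e, he, rfl⟩
      by_cases hw : Whp (Mb.P x) e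
      · refine Or.inl fun i => (K31.le1_div hM).2 ?_
        exact (K31.whp_le_ch hw (bd _ (hK.cond x e ((hp x).2 hx) he) i)).of_sub
          (Eventually.of_forall fun n => by simp only [u, hj]; linarith)
      · obtain ⟨κ, hκ, hq⟩ := he
        refine Or.inr ⟨_, fun n => pb (x n).Q (e n), κ, ⟨_, not_whp hw, rfl⟩, hκ,
          hq.mono fun n a => ⟨a, pb_le_one _ _⟩, fun i => ?_⟩
        simp only [← mul_div_assoc, ← add_div]
        refine (K31.le1_div hM).2 ?_
        exact (K31.mean_le_ch (P := Mb.P x) (E := e)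
          (F := fun n v => A n (lv (J n) i) ((x n).ρ v))
          (G := fun n v => (A n 0 ((x n).ρ v), B n ((x n).ρ v)))).of_sub
          (Eventually.of_forall fun n => by simp only [u, hj]; linarith))
  have sub : ∀ X, K31.Cls p' X → K X := fun X a => (hp X).2 ((h2 X).1 a).1
  have key : ∀ X X', K31.Cls p' X → K31.Cls p' X' → ∀ j : ℕ → ℕ, (∀ n, j n ≤ J n) →
      Le M (fun n => u n (X n) (j n)) fun n => u n (X' n) (j n) := fun X X' a a' j hj =>
    all_lv (u := fun n => u n (X n)) (w := fun n => u n (X' n)) hM hc hJ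
      ((HG X (sub X a)).mono fun n g _ _ => g.lip) ((HG X' (sub X' a')).mono fun n g _ _ => g.mono)
      (fun i => ((K31.le1_div hM).1 ((((h2 X').1 a').2 i).2.trans (((h2 X).1 a).2 i).1)).of_sub
        (Eventually.of_forall fun n => by linarith)) hj
  let φ : ℕ → ℕ → ℝ := fun n j => if G n (Y n) then u n (Y n) (min j (J n)) else 0
  have hφ : ∀ j : ℕ → ℕ, (∀ n, j n ≤ J n) → ∀ᶠ n in UF, φ n (j n) = u n (Y n) (j n) :=
    fun j hj => (HG Y (sub Y hY)).mono fun n g => by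
      simp only [φ, if_pos g, min_eq_left (hj n)]
  refine ⟨K31.Cls p', φ, ⟨⟨fun X X' a b => ?_, fun X E a b => h3 X _ a ⟨E, b, rfl⟩⟩,
    p', fun _ => Iff.rfl⟩, ⟨Y, hY⟩, sub, fun n => ?_, fun X hX a b hab => ?_, fun k k' => k ?_⟩
  · have e : ∀ i, ∀ᶠ n in UF, -u n (X' n) (lv (J n) i) / M n = -u n (X n) (lv (J n) i) / M n :=
      fun i => b.mono fun n l => by
        rw [show u n (X' n) (lv (J n) i) = u n (X n) (lv (J n) i) from
          l.ch_eq (A n (lv (J n) i)) fun ω => (A n 0 ω, B n ω)]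
    exact (h2 X').2 ⟨(hp _).1 (hK.law X X' (sub X a) b), fun i =>
      ⟨(((h2 X).1 a).2 i).1.trans (K31.Le1.of_ev ((e i).mono fun _ => ge_of_eq)),
        (K31.Le1.of_ev ((e i).mono fun _ => le_of_eq)).trans (((h2 X).1 a).2 i).2⟩⟩
  · by_cases g : G n (Y n)
    · simp only [φ, if_pos g]
      refine ⟨by rw [Nat.zero_min]; exact hj_zero, fun j => ⟨g.mono (by omega) (min_le_right _ _),
        (g.lip (a := min j (J n)) (by omega) (min_le_right _ _)).trans ?_,
        g.mono (by omega) (min_le_right _ _)⟩⟩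
      have e : min (j + 1) (J n) ≤ min j (J n) + 1 := by omega
      have e' : ((min (j + 1) (J n) : ℕ) : ℝ) ≤ (min j (J n) : ℕ) + 1 := by exact_mod_cast e
      exact add_le_add le_rfl (mul_le_of_le_one_right hc (by linarith))
    · simp [φ, if_neg g, hc]
  · have ha : ∀ n, a n ≤ J n := fun n => (hab n).1.trans (hab n).2
    have hb : ∀ n, b n ≤ J n := fun n => (hab n).2
    have e : ∀ᶠ n in UF, ch (X n).Q (fun v => A n (b n) ((X n).ρ v)) (fun v =>
        (A n (a n) ((X n).ρ v), B n ((X n).ρ v))) = u n (X n) (b n) - u n (X n) (a n) :=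
      (HG X (sub X hX)).mono fun n g => g.chain (hab n).1 (hab n).2
    constructor
    · refine ((key X Y hX hY b hb).add (key Y X hY hX a ha)).of_sub ?_
      filter_upwards [e, hφ a ha, hφ b hb] with n e1 e2 e3
      linarith
    · refine ((key Y X hY hX b hb).add (key X Y hX hY a ha)).of_sub ?_
      filter_upwards [e, hφ a ha, hφ b hb] with n e1 e2 e3
      linarith
  · have e := (K31.le1_div hM).1 ((h4 X₀ ((hp _).1 h0)).trans (((h2 Y).1 hY).2 0).1)
    simp only [lv_zero] at e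
    refine (k'.add e).of_sub ?_
    filter_upwards [hφ J fun _ => le_rfl] with n e1
    have e2 : u n (X₀ n) (J n) = ch (X₀ n).Q (fun v => A n (J n) ((X₀ n).ρ v)) fun v =>
      (A n 0 ((X₀ n).ρ v), B n ((X₀ n).ρ v)) := rfl
    linarith

end Pool.Agent.MP_5168f5_an.R4
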