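import Pool.Agent.MP_5168f5_an.R4.SpecK

/-! Points and windows of affine images; labels of derived systems. -/

namespace Pool.Agent.MP_5168f5_an.R4

open H19 H17S H17F Filter

namespace KAA

theorem fl1_fr (j i : ℕ) (x : ℝ) :
    fl1 i (Int.fract (2 ^ j * x)) = fl1 (j + i) x - 2 ^ i * fl1 j x :=
  congrFun (fl_fr i j fun _ : Fin 1 => x) 0

theorem fl1_add (j i : ℕ) (z t : ℝ) : fl1 (j + i) t = fl1 (j + i) z ↔
    fl1 j t = fl1 j z ∧ fl1 i (Int.fract (2 ^ j * t)) = fl1 i (Int.fract (2 ^ j * z)) := by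
  rw [fl1_fr, fl1_fr]
  refine ⟨fun h => ?_, fun h => ?_⟩
  · have := fl1_eq_of_le (Nat.le_add_right j i) h
    exact ⟨this, by rw [h, this]⟩
  · have := h.2
    rwa [h.1, sub_left_inj] at this

theorem win_core {N : ℕ} {Ω : Type} (P : FP Ω) (g : Geo N Ω) (j : ℕ) : Fn P (g.win j) g.core :=
  Fn.comp (fun x : (V N × V N × g.T) × ℝ × g.Y => (x.1, fl1 j x.2.1)) g.core

theorem y_core {N : ℕ} {Ω : Type} (P : FP Ω) (g : Geo N Ω) : Fn P g.y g.core :=
  Fn.comp (fun x : (V N × V N × g.T) × ℝ × g.Y => x.2.2) g.core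

theorem tri {Ω α β γ δ : Type} {P : FP Ω} {c : Ω → α} {F : Ω → β} {S : Ω → γ}
    (h : Fn P c fun ω => (F ω, S ω)) (G : Ω → δ) : Fn P c fun ω => (F ω, S ω, G ω) :=
  h.trans (Fn.comp (fun x : β × γ × δ => (x.1, x.2.1)) fun ω => (F ω, S ω, G ω))

end KAA

open KAA

theorem rowKA : OfKA := fun H =>
  { lt := fun g j A c d κ y ω t => by
      simp only [Geo.lt, ← Matrix.mulVec_smul, ← Matrix.mulVec_add]
      congr 1
      module
    z := fun g j ω => by
      rw [Geo.z0, fl1, ← mul_add, Int.floor_add_fract, inv_mul_cancel_left₀ (by positivity)]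
    fl := fl1_add
    fn := fun P g j i A c d κ y h h' => by
      refine ⟨fun a ha b hb e => ?_, fun a ha b hb e => ?_⟩
      · have e1 := h' a ha b hb e
        have e2 := h a ha b hb (congrArg Prod.snd e)
        simp only [Geo.core, Geo.ln, Prod.mk.injEq] at e e2
        simp only [Geo.core, Geo.ln, Geo.lt, Geo.z0, e1, e2, e]
      · have e2 := h a ha b hb (congrArg Prod.fst e)
        simp only [Geo.win, Geo.ln, Prod.mk.injEq, fl1_add] at e e2
        simp only [Geo.win, Geo.ln, Geo.lt, Geo.z0, e2, e]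
    lab := fun P g g' j j' κ lam h h' => by
      have a := H.join P g'.core κ lam g.core (g.win j) (g'.win j') (tri h _) (win_core P g' j')
      rw [ch_zero h', add_zero] at a
      exact ⟨a, H.join P g'.core κ lam g.core g.y g'.y (tri h _) (y_core P g')⟩ }

end Pool.Agent.MP_5168f5_an.R4
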