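import Pool.Agent.MP_5168f5_an.R4.SpecK

/-! Kakeya sets in four dimensions: heights, contexts, joins. -/

namespace Pool.Agent.MP_5168f5_an.R4

open H19 H17S H17F Filter

namespace KBA

section Fin

variable {Ω α β γ δ : Type} {P : FP Ω}

/-- The chain rule in the first variable. -/
theorem mi_pair (lam : Ω → α) (κ : Ω → β) (C : Ω → γ) (W : Ω → δ) :
    mi P (fun ω => (lam ω, κ ω)) C W = mi P κ C W + mi P lam C fun ω => (κ ω, W ω) := by
  have h1 : mi P (fun ω => (lam ω, κ ω)) C W = mi P (fun ω => (κ ω, lam ω)) C W :=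
    le_antisymm (mi_mono' (((Fn.snd κ lam).pair (Fn.fst κ lam)).left W))
      (mi_mono' (((Fn.snd lam κ).pair (Fn.fst lam κ)).left W))
  rw [h1, mi_symm, mi_chain, mi_symm C κ, mi_symm C lam]

/-- Refining a known dyadic interval. -/
theorem refine {x : Ω → ℝ} {G : Ω → β} {a b : ℕ} (hab : a ≤ b)
    (h : Fn P (fun ω => fl1 a (x ω)) G) :
    ch P (fun ω => fl1 b (x ω)) G ≤ (b - a : ℝ) * lg := by
  obtain ⟨d, rfl⟩ := Nat.exists_eq_add_of_le hab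
  have := ch_fl1_refine (P := P) (x := x) (G := G) (j := fun _ => a) (i := fun _ => d)
    (fun _ _ _ _ _ => rfl) (fun _ _ _ _ _ => rfl) h
  rw [FP.E_const] at this
  refine this.trans (le_of_eq ?_)
  push_cast; ring

variable {N : ℕ} {g : Geo N Ω} {L : ℝ}

theorem fn_fl0 (h : g.Bx P L) (G : Ω → β) : Fn P (fun ω => fl1 0 (g.z ω)) G := by
  intro a ha b hb _
  change fl1 0 (g.z a) = fl1 0 (g.z b)
  rw [fl1_zero_of_box (h.bd a ha).2.1 (h.bd a ha).2.2,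
    fl1_zero_of_box (h.bd b hb).2.1 (h.bd b hb).2.2]

theorem fn_θ_ln (g : Geo N Ω) : Fn P g.θ g.ln := fun _ _ _ _ e => congrArg (·.2.2) e

theorem fn_ln_core (g : Geo N Ω) : Fn P g.ln g.core := fun _ _ _ _ e => congrArg (·.1) e

theorem fn_z_core (g : Geo N Ω) : Fn P g.z g.core := fun _ _ _ _ e => congrArg (·.2.1) e

theorem fn_e_core (g : Geo N Ω) : Fn P g.e g.core := fun _ _ _ _ e => congrArg (·.1.2.1) e

theorem fn_ln_win (g : Geo N Ω) (j : ℕ) : Fn P g.ln (g.win j) :=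
  fun _ _ _ _ e => congrArg (·.1) e

theorem fn_fl_win (g : Geo N Ω) (j : ℕ) : Fn P (fun ω => fl1 j (g.z ω)) (g.win j) :=
  fun _ _ _ _ e => congrArg (·.2) e

theorem fn_win (g : Geo N Ω) (j : ℕ) {G : Ω → β} (h1 : Fn P g.ln G)
    (h2 : Fn P (fun ω => fl1 j (g.z ω)) G) : Fn P (g.win j) G := h1.pair h2

theorem fn_win_core (g : Geo N Ω) (j : ℕ) : Fn P (g.win j) g.core :=
  fn_win g j (fn_ln_core g) ((Fn.comp (fl1 j) g.z).trans (fn_z_core g))

theorem fn_fl_le (x : Ω → ℝ) {j k : ℕ} (h : j ≤ k) :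
    Fn P (fun ω => fl1 j (x ω)) fun ω => fl1 k (x ω) := fun _ _ _ _ e => fl1_eq_of_le h e

theorem inf_le (g : Geo N Ω) (j : ℕ) (lam : Ω → α) :
    mi P g.z (fun ω => (g.ln ω, lam ω)) (fun ω => (fl1 j (g.z ω), g.θ ω)) ≤
      mi P g.z g.ln g.θ + g.hk P j lam := by
  rw [mi_chain]
  refine add_le_add (mi_left (Fn.snd _ _) ?_ (Fn.fst _ _)) ?_
  · exact ((Fn.comp (fl1 j) g.z).left g.θ).pair (Fn.snd _ _)
  · rw [mi_symm]
    refine mi_right ?_ ?_ ((fn_z_core g).left _)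
    · exact fn_win g j (Fn.fst _ _) ((Fn.fst _ _).right _)
    · exact (((fn_ln_win g j).pair ((fn_fl_win g j).pair
        ((fn_θ_ln g).trans (fn_ln_win g j)))).right _)

theorem coarse_le (x : Ω → ℝ) (G : Ω → β) {a b : ℕ} (hab : a ≤ b) :
    ch P (fun ω => fl1 b (x ω)) G ≤ ch P (fun ω => fl1 a (x ω)) G + (b - a : ℝ) * lg :=
  (ch_tri _ (fun ω => fl1 a (x ω)) G).trans (add_le_add le_rfl (refine hab (Fn.fst _ _)))

theorem hgt_le (h : g.Bx P L) (lam : Ω → α) {j a b M : ℕ} (hja : j ≤ a) (hbM : b ≤ M) :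
    ch P (fun ω => fl1 M (g.z ω)) g.θ ≤ (M - b : ℝ) * lg + a * lg +
      ch P (fun ω => fl1 b (g.z ω)) (fun ω => (fl1 a (g.z ω), g.ln ω, lam ω)) +
      mi P g.z (fun ω => (g.ln ω, lam ω)) fun ω => (fl1 j (g.z ω), g.θ ω) := by
  have h1 := coarse_le (P := P) g.z g.θ hbM
  have h2 := ch_tri (P := P) (fun ω => fl1 b (g.z ω)) (fun ω => fl1 a (g.z ω)) g.θ
  have h3 := refine (P := P) (x := g.z) (G := g.θ) (Nat.zero_le a) (fn_fl0 h _)
  have h4 := ch_le_mi (P := P) (F := fun ω => fl1 b (g.z ω)) (G := fun ω => (g.ln ω, lam ω))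
    (K := fun ω => (fl1 a (g.z ω), g.θ ω)) (K' := fun ω => (fl1 a (g.z ω), g.ln ω, lam ω))
    (((Fn.fst _ _).right _).pair (Fn.fst _ _))
  have h5 : mi P (fun ω => fl1 b (g.z ω)) (fun ω => (g.ln ω, lam ω))
      (fun ω => (fl1 a (g.z ω), g.θ ω)) ≤
      mi P g.z (fun ω => (g.ln ω, lam ω)) fun ω => (fl1 j (g.z ω), g.θ ω) :=
    mi_left (((fn_fl_le g.z hja).left _).pair (Fn.snd _ _))
      (((Fn.comp (fl1 a) g.z).left _).pair ((Fn.snd _ _).right _))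
      ((Fn.comp (fl1 b) g.z).left _)
  simp only [Nat.cast_zero, sub_zero] at h3
  linarith

theorem up_le (g : Geo N Ω) {j j' : ℕ} (h : j ≤ j') (lam : Ω → α) :
    g.hk P j' lam ≤ g.hk P j lam :=
  mi_cond (fn_win g j (fn_ln_win g j') ((fn_fl_le g.z h).trans (fn_fl_win g j')))
    ((fn_win_core g j').left _)

theorem brc_le (g : Geo N Ω) (κ : Ω → α) (y : Ω → β) (i : Fin N) (k : ℕ) :
    ch P (fun ω => fl1 k (g.e ω i)) g.y ≤ ch P (fun ω => fl1 k (g.e ω i)) y + g.lk P κ +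
      ch P y fun ω => (κ ω, g.y ω) := by
  have h1 := ch_le_mi (P := P) (F := fun ω => fl1 k (g.e ω i)) (G := κ) (K := g.y)
    (K' := fun ω => (κ ω, g.y ω)) (Fn.rfl _)
  have h2 : mi P (fun ω => fl1 k (g.e ω i)) κ g.y ≤ g.lk P κ := by
    rw [mi_symm]
    exact mi_mono (((Fn.comp (fun v : V N => fl1 k (v i)) g.e).trans (fn_e_core g)).left _)
  have h3 := ch_tri' (P := P) (fun ω => fl1 k (g.e ω i)) (fun ω => (κ ω, g.y ω)) y
  linarith

theorem pair_hk (g : Geo N Ω) (j : ℕ) (lam : Ω → α) (κ : Ω → β) :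
    mi P lam g.core (fun ω => (κ ω, g.win j ω)) = (g.ctx κ).hk P j lam := by
  refine le_antisymm (mi_right ?_ ?_ ?_) (mi_right ?_ ?_ ?_) <;> intro a _ b _ e <;>
    simp only [Geo.core, Geo.win, Geo.ln, Prod.mk.injEq] at e ⊢ <;> tauto

theorem pair_lk (g : Geo N Ω) (lam : Ω → α) (κ : Ω → β) :
    mi P lam g.core (fun ω => (κ ω, g.y ω)) = (g.ctx κ).lk P lam := by
  refine le_antisymm (mi_right ?_ ?_ ?_) (mi_right ?_ ?_ ?_) <;> intro a _ b _ e <;>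
    simp only [Geo.core, Geo.ln, Prod.mk.injEq] at e ⊢ <;> tauto

theorem ctx_inf (h : g.Bx P L) (κ : Ω → α) :
    mi P (g.ctx κ).z (g.ctx κ).ln (g.ctx κ).θ ≤
      mi P g.z (fun ω => (g.ln ω, κ ω)) fun ω => (fl1 0 (g.z ω), g.θ ω) := by
  refine mi_right ((fn_fl0 h _).pair (Fn.snd κ g.θ)) ?_ ?_ <;> intro a _ b _ e <;>
    simp only [Geo.ln, Prod.mk.injEq] at e ⊢ <;> tauto

theorem fp_le (h : g.Bx P L) (r : Fin N → ℕ) :
    ch P (g.fp r) g.y ≤ ∑ i, ch P (fun ω => fl1 (r i) (g.pt ω i)) g.y := by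
  refine le_trans ?_ (ch_pi_le (P := P) Finset.univ (fun i ω => fl1 (r i) (g.pt ω i)) 0 g.y)
  refine ch_mono (Fn.pair ?_ ((h.fz.pair h.fθ).right _))
  intro a _ b _ e
  simpa using congrArg Prod.fst e

end Fin

section Seq

variable {N : ℕ} {Ω Λ : ℕ → Type} {P : ∀ n, FP (Ω n)} {g : Gs N Ω} {M j : ℕ → ℕ}
  {lam : ∀ n, Ω n → Λ n}

theorem inf (h : Bs P g M) (hl : Hk P g M j lam) :
    Sm M fun n => mi (P n) (g n).z (fun ω => ((g n).ln ω, lam n ω)) fun ω =>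
      (fl1 (j n) ((g n).z ω), (g n).θ ω) :=
  (h.inf.add hl).mono (Eventually.of_forall fun n => inf_le (g n) (j n) (lam n))

theorem hgt {a b : ℕ → ℕ} (h : Bs P g M) (hl : Hk P g M j lam)
    (hab : ∀ n, j n ≤ a n ∧ a n ≤ b n ∧ b n ≤ M n) :
    Le M (fun n => (b n - a n : ℝ) * lg) fun n => ch (P n) (fun ω => fl1 (b n) ((g n).z ω))
      fun ω => (fl1 (a n) ((g n).z ω), (g n).ln ω, lam n ω) := by
  obtain ⟨L, -, hL⟩ := h.bx
  refine Le.of2 h.hgt (inf h hl) (hL.mono fun n hn => ?_)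
  have := hgt_le hn (lam n) (hab n).1 (hab n).2.2
  linarith

theorem coarse {M' : ℕ → ℕ} (h : Bs P g M) (hM : Frac M' M) : Bs P g M' := by
  obtain ⟨L, h1, h2⟩ := h.bx
  refine ⟨h.big.frac hM, ⟨L, h1.frac hM, h2⟩, Le.frac h.inf hM, Le.frac ?_ hM⟩
  refine h.hgt.of_sub (Eventually.of_forall fun n => ?_)
  have := coarse_le (P := P n) (g n).z (g n).θ (hM.1 n)
  linarith

theorem ctx (h : Bs P g M) (hl : Hk P g M (fun _ => 0) lam) :
    Bs P (fun n => (g n).ctx (lam n)) M := by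
  obtain ⟨L, h1, h2⟩ := h.bx
  refine ⟨h.big, ⟨L, h1, h2.mono fun n hn => ⟨hn.bd, hn.fz.right _, ?_⟩⟩,
    (inf h hl).mono (h2.mono fun n hn => ctx_inf hn (lam n)), ?_⟩
  · exact (Fn.fst _ _).pair (hn.fθ.right _)
  · refine (hgt (a := fun _ => 0) (b := M) h hl fun n =>
      ⟨le_rfl, Nat.zero_le _, le_rfl⟩).of_sub (Eventually.of_forall fun n => ?_)
    have : ch (P n) (fun ω => fl1 (M n) ((g n).z ω))
        (fun ω => (fl1 0 ((g n).z ω), (g n).ln ω, lam n ω)) ≤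
        ch (P n) (fun ω => fl1 (M n) ((g n).z ω)) fun ω => (lam n ω, (g n).θ ω) :=
      ch_anti (((Fn.snd _ _).pair ((fn_θ_ln (g n)).left _)).right _)
    simp only [Nat.cast_zero, sub_zero]
    linarith

theorem fatB (r : ℕ → Fin N → ℕ) (h : Bs P g M) : Bs P (fun n => (g n).fat (r n)) M ∧
    (∀ i, Fat P (fun n => (g n).fat (r n)) M i fun n => r n i) ∧
    ((∀ i, Fat P g M i fun n => r n i) → Sm M fun n => ch (P n) ((g n).fp (r n)) (g n).y) := by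
  obtain ⟨L, h1, h2⟩ := h.bx
  refine ⟨⟨h.big, ⟨L, h1, h2.mono fun n hn => ⟨hn.bd, fun _ _ _ _ e => congrArg (·.2.1) e,
    fun _ _ _ _ e => congrArg (·.2.2) e⟩⟩, h.inf, h.hgt⟩, fun i => ⟨fun _ => 1,
    h.big.sub le_rfl, Eventually.of_forall fun n a _ b _ e => ?_⟩, fun hf => ?_⟩
  · rw [one_div]
    exact (abs_sub_lt_of_fl1_eq (congrFun (congrArg Prod.fst e) i)).le
  · refine (Sm.sum Finset.univ (F := fun i n =>
      ch (P n) (fun ω => fl1 (r n i) ((g n).pt ω i)) (g n).y) fun i _ => ?_).mono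
      (h2.mono fun n hn => fp_le hn (r n))
    obtain ⟨L', a, b⟩ := hf i
    exact Sm.near1 h.big a b

end Seq

end KBA

theorem rowKB : KB where
  inf _ _ _ _ _ h hl := KBA.inf h hl
  hgt _ _ _ _ _ _ _ h hl hab := KBA.hgt h hl hab
  coarse _ _ _ _ h hM := KBA.coarse h hM
  up _ g _ _ _ lam h hl := Sm.mono hl (h.mono fun n hn => KBA.up_le (g n) hn (lam n))
  ctx _ _ _ _ h hl := KBA.ctx h hl
  brc P g _ κ y i _ h h1 h2 α hα := Le.of3 (h α hα) h1 h2 (Eventually.of_forall fun n => by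
    have := KBA.brc_le (P := P n) (g n) (κ n) (y n) i (α n)
    linarith)
  pair _ g j lam κ := ⟨by rw [← KBA.pair_hk]; exact KBA.mi_pair lam κ _ _,
    by rw [← KBA.pair_lk]; exact KBA.mi_pair lam κ _ _⟩
  add _ _ _ lam κ := ⟨(KBA.mi_pair lam κ _ _).trans_le (add_le_add le_rfl (mi_le _ _ _)),
    (KBA.mi_pair lam κ _ _).trans_le (add_le_add le_rfl (mi_le _ _ _))⟩
  fatB _ _ _ r h := KBA.fatB r h

end Pool.Agent.MP_5168f5_an.R4
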