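import Pool.Agent.MP_5168f5_an.R4.Api

/-! Kakeya sets in four dimensions: properties of variables that define classes. -/

namespace Pool.Agent.MP_5168f5_an.R4

open H19 H17S H17F Filter

namespace KC1A

variable {Ω W W' β : Type}

/-- The law of a point and its copy depends only on the law of the point. -/
theorem law_glue {Q : FP W} {Q' : FP W'} {ρ : W → Ω} {ρ' : W' → Ω} (h : Law Q' ρ' Q ρ)
    (φ : Ω → β) : Law (glue Q' Q' (fun v => φ (ρ' v)) fun v => φ (ρ' v))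
      (fun v => (ρ' v.1, ρ' v.2)) (glue Q Q (fun v => φ (ρ v)) fun v => φ (ρ v))
      fun v => (ρ v.1, ρ v.2) := by
  intro F
  rw [glue, glue, E_bind, E_bind]
  refine Eq.trans (Q'.E_congr fun x _ => ?_)
    (h fun a => (cE Q fun v => φ (ρ v) = φ a).E fun y => F (a, ρ y))
  exact ke.law Q' Q ρ' ρ (fun a => φ a = φ (ρ' x)) h fun b => F (ρ' x, b)

theorem pb_bind (P : FP W) (k : W → FP W') (B : W × W' → Prop) :
    pb (bind P k) B = P.E fun x => pb (k x) fun y => B (x, y) := E_bind P k _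

/-- Copies after conditioning. -/
theorem glue_cE (Q : FP W) (A : W → Prop) (ψ : W → β) (B : W × W → Prop) {τ : ℝ} (hτ : 0 < τ) :
    pb Q A * pb (glue (cE Q A) (cE Q A) ψ ψ) B ≤ τ + τ⁻¹ * pb (glue Q Q ψ ψ) B := by
  classical
  rw [glue, glue, pb_bind, pb_bind, E_cE, ← FP.E_mul]
  have h1 : (Q.E fun x => if pb (cv Q ψ (ψ x)) A < τ then if A x then 1 else 0 else 0) ≤ τ := by
    rw [ke.exp Q ψ fun s x => if pb (cv Q ψ s) A < τ then if A x then 1 else 0 else 0]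
    refine (Q.E_mono fun x _ => ?_).trans (Q.E_const τ).le
    by_cases c : pb (cv Q ψ (ψ x)) A < τ
    · simp only [if_pos c]
      exact c.le
    · simp only [if_neg c]
      rw [FP.E_const]
      exact hτ.le
  refine le_trans ?_ (add_le_add h1 le_rfl)
  rw [← FP.E_add]
  refine Q.E_mono fun x hx => ?_
  have b0 : 0 ≤ τ⁻¹ * pb (cv Q ψ (ψ x)) fun y => B (x, y) :=
    mul_nonneg (inv_nonneg.2 hτ.le) (pb_nonneg _ _)
  by_cases a : A x
  · have e : cv (cE Q A) ψ (ψ x) = cE (cv Q ψ (ψ x)) A := by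
      exact ((cE_cE (E' := fun ω => ψ ω = ψ x) ⟨x, hx, a, rfl⟩).trans
        (cE_congr fun _ _ => and_comm)).trans
        (cE_cE (E := fun ω => ψ ω = ψ x) ⟨x, hx, rfl, a⟩).symm
    simp only [if_pos a, e]
    split_ifs with c
    · linarith [pb_le_one (cE (cv Q ψ (ψ x)) A) fun y => B (x, y)]
    · have h2 := pb_cE (cv Q ψ (ψ x)) A fun y => B (x, y)
      have h3 : (pb (cv Q ψ (ψ x)) fun y => A y ∧ B (x, y)) ≤
          pb (cv Q ψ (ψ x)) fun y => B (x, y) := pb_mono fun _ _ k => k.2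
      have h4 := mul_le_mul_of_nonneg_right (not_lt.1 c)
        (pb_nonneg (cE (cv Q ψ (ψ x)) A) fun y => B (x, y))
      rw [zero_add, le_inv_mul_iff₀ hτ]
      linarith
  · simp only [if_neg a, ite_self, zero_add]
    exact b0

section Seq

variable {Ω α β γ : ℕ → Type}

theorem sure (E : ∀ n, Ω n → Prop) :
    Cl fun X : Mb Ω => ∀ᶠ n in UF, ∀ v ∈ (X n).Q.S, E n ((X n).ρ v) := by
  refine ⟨⟨fun X X' a b => ?_, fun X A a _ => a.mono fun n u v hv => u v (cE_sub hv)⟩,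
    cf_ev fun n (x : Ext (Ω n)) => ∀ v ∈ x.Q.S, E n (x.ρ v)⟩
  filter_upwards [a, b] with n u w v hv
  obtain ⟨y, hy, e⟩ := w.ex hv
  exact e ▸ u y hy

theorem fn (F : ∀ n, Ω n → α n) (G : ∀ n, Ω n → β n) : Cl fun X : Mb Ω => ∀ᶠ n in UF,
    Fn (X n).Q (fun v => F n ((X n).ρ v)) fun v => G n ((X n).ρ v) := by
  refine ⟨⟨fun X X' a b => ?_, fun X A a _ => a.mono fun n u => fn_cE u _⟩,
    cf_ev fun n (x : Ext (Ω n)) => Fn x.Q (fun v => F n (x.ρ v)) fun v => G n (x.ρ v)⟩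
  filter_upwards [a, b] with n u w v hv v' hv' k
  obtain ⟨y, hy, e⟩ := w.ex hv
  obtain ⟨y', hy', e'⟩ := w.ex hv'
  have := u y hy y' hy'
  simp only [e, e'] at this
  exact this k

theorem whp (E : ∀ n, Ω n → Prop) : Cl fun X : Mb Ω => Whp X.P fun n v => E n ((X n).ρ v) := by
  refine ⟨⟨fun X X' a b ε hε => ?_, fun X A a b => a.cE b⟩,
    cf_whp (fun n (x : Ext (Ω n)) => x.Q) fun n x v => E n (x.ρ v)⟩
  filter_upwards [a ε hε, b] with n u w
  exact (w.pb_eq fun ω => ¬E n ω).trans_le u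

theorem copy (φ : ∀ n, Ω n → β n) (E : ∀ n, Ω n → Ω n → Prop) :
    Cl fun X : Mb Ω => Whp (fun n => glue (X n).Q (X n).Q (fun v => φ n ((X n).ρ v))
      fun v => φ n ((X n).ρ v)) fun n v => E n ((X n).ρ v.1) ((X n).ρ v.2) := by
  refine ⟨⟨fun X X' a b ε hε => ?_, fun X A a ⟨κ, hκ, b⟩ ε hε => ?_⟩,
    cf_whp (fun n (x : Ext (Ω n)) => glue x.Q x.Q (fun v => φ n (x.ρ v)) fun v => φ n (x.ρ v))
      fun n x v => E n (x.ρ v.1) (x.ρ v.2)⟩
  · filter_upwards [a ε hε, b] with n u w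
    exact ((law_glue w (φ n)).pb_eq fun p => ¬E n p.1 p.2).trans_le u
  · have hτ : 0 < κ * ε / 2 := by positivity
    filter_upwards [a (κ * ε / 2 * (κ * ε / 2)) (by positivity), b] with n u w
    have h1 := glue_cE (X n).Q (A n) (fun v => φ n ((X n).ρ v))
      (fun v => ¬E n ((X n).ρ v.1) ((X n).ρ v.2)) hτ
    have h2 := (inv_mul_le_iff₀ hτ).2 u
    refine le_of_mul_le_mul_left ((mul_le_mul_of_nonneg_right w (pb_nonneg _ _)).trans
      (h1.trans ?_)) hκ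
    linarith

theorem sm (M : ℕ → ℕ) (F : ∀ n, Ω n → α n) (G : ∀ n, Ω n → β n) : Cl fun X : Mb Ω =>
    Sm M fun n => ch (X n).Q (fun v => F n ((X n).ρ v)) fun v => G n ((X n).ρ v) := by
  refine ⟨⟨fun X X' a b => a.mono (b.mono fun n w => (w.ch_eq (F n) (G n)).le),
    fun X A a b => ?_⟩, cf_sm (fun n _ => M n) fun n (x : Ext (Ω n)) =>
      ch x.Q (fun v => F n (x.ρ v)) fun v => G n (x.ρ v)⟩
  exact (K31.dnS_cE b).sm_ch (F := fun n v => F n ((X n).ρ v)) (G := fun n v => G n ((X n).ρ v)) a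

theorem smi (M : ℕ → ℕ) (F : ∀ n, Ω n → α n) (G : ∀ n, Ω n → β n) (H : ∀ n, Ω n → γ n)
    (hM : Big M) : Cl fun X : Mb Ω => Sm M fun n => mi (X n).Q (fun v => F n ((X n).ρ v))
      (fun v => G n ((X n).ρ v)) fun v => H n ((X n).ρ v) := by
  refine ⟨⟨fun X X' a b => a.mono (b.mono fun n w => le_of_eq ?_), fun X A a b => ?_⟩,
    cf_sm (fun n _ => M n) fun n (x : Ext (Ω n)) =>
      mi x.Q (fun v => F n (x.ρ v)) (fun v => G n (x.ρ v)) fun v => H n (x.ρ v)⟩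
  · unfold mi
    rw [w.ch_eq (F n) (H n), w.ch_eq (F n) fun ω => (G n ω, H n ω)]
  · exact (K31.dnS_cE b).sm_mi (F := fun n v => F n ((X n).ρ v))
      (G := fun n v => G n ((X n).ρ v)) (K := fun n v => H n ((X n).ρ v)) hM a

theorem full (K : Mb Ω → Prop) (M : ℕ → ℕ) (F : ∀ n, Ω n → α n) (G : ∀ n, Ω n → β n)
    (D : ℕ → ℝ) (C : ℝ) (hM : Big M) (hK : Cl K) (hd : ∀ X, K X → ∀ᶠ n in UF,
      Det (X n).Q (fun v => F n ((X n).ρ v)) (fun v => G n ((X n).ρ v)) (Real.exp (C * M n)))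
    (hu : ∀ X, K X →
      Le M (fun n => ch (X n).Q (fun v => F n ((X n).ρ v)) fun v => G n ((X n).ρ v)) D) :
    Cl fun X : Mb Ω => K X ∧
      Le M D fun n => ch (X n).Q (fun v => F n ((X n).ρ v)) fun v => G n ((X n).ρ v) := by
  refine ⟨⟨fun X X' a b => ⟨hK.law X X' a.1 b,
      a.2.trans (Le.of_ev (b.mono fun n w => (w.ch_eq (F n) (G n)).ge))⟩,
    fun X A a b => ⟨hK.cond X A a.1 b, ?_⟩⟩,
    hK.cf.and (cf_le (fun n _ => M n) (fun n _ => D n) fun n (x : Ext (Ω n)) =>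
      ch x.Q (fun v => F n (x.ρ v)) fun v => G n (x.ρ v))⟩
  by_cases c : Whp X.P A
  · refine a.2.trans (K31.ch_le_whp (F := fun n v => F n ((X n).ρ v))
      (G := fun n v => G n ((X n).ρ v)) (C := C) hM c ((hd X a.1).mono fun n u => ?_))
    exact (ch_det (det_cE u _)).trans (Real.log_exp _).le
  · exact ks.full X.P A (fun n v => F n ((X n).ρ v)) (fun n v => G n ((X n).ρ v)) M D hM b a.2
      (hu (X.cond fun n v => ¬A n v) (hK.cond X (fun n v => ¬A n v) a.1 (not_whp c)))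

end Seq

end KC1A

theorem rowKC1 : KC1 :=
  ⟨KC1A.sure, KC1A.fn, KC1A.whp, KC1A.copy, KC1A.sm, KC1A.smi, KC1A.full⟩

end Pool.Agent.MP_5168f5_an.R4
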