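import Pool.Agent.MP_5168f5_an.R4.Api

/-! Kakeya sets in four dimensions: properties of systems that define classes. -/

namespace Pool.Agent.MP_5168f5_an.R4

open H19 H17S H17F Filter

namespace KC2A

/-- The image of the support of `x'` is contained in the image of the support of `x`. -/
def Sb {Ω : Type} (x' x : Ext Ω) : Prop := ∀ v ∈ x'.Q.S, ∃ w ∈ x.Q.S, x.ρ w = x'.ρ v

section One

variable {Ω α β : Type} {x x' : Ext Ω}

theorem Sb.all (h : Sb x' x) {q : Ω → Prop} (k : ∀ w ∈ x.Q.S, q (x.ρ w)) :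
    ∀ v ∈ x'.Q.S, q (x'.ρ v) := fun v hv => by
  obtain ⟨w, a, b⟩ := h v hv
  exact b ▸ k w a

theorem Sb.all2 (h : Sb x' x) {q : Ω → Ω → Prop}
    (k : ∀ w ∈ x.Q.S, ∀ w' ∈ x.Q.S, q (x.ρ w) (x.ρ w')) :
    ∀ v ∈ x'.Q.S, ∀ v' ∈ x'.Q.S, q (x'.ρ v) (x'.ρ v') := fun v hv v' hv' => by
  obtain ⟨w, a, b⟩ := h v hv
  obtain ⟨w', a', b'⟩ := h v' hv'
  exact b ▸ b' ▸ k w a w' a'

theorem Sb.fn (h : Sb x' x) (F : Ω → α) (G : Ω → β)
    (k : Fn x.Q (fun v => F (x.ρ v)) fun v => G (x.ρ v)) :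
    Fn x'.Q (fun v => F (x'.ρ v)) fun v => G (x'.ρ v) :=
  h.all2 (q := fun a b => G a = G b → F a = F b) k

end One

variable {N : ℕ} {Ω : ℕ → Type}

/-- Properties of the support with subexponential constants define classes. -/
theorem cl_sub (M : ℕ → ℕ) (p : ∀ n, Ext (Ω n) → ℝ → Prop)
    (hp : ∀ n x x' L, Sb x' x → p n x L → p n x' L) :
    Cl fun X : Mb Ω => ∃ L, Sub M L ∧ ∀ᶠ n in UF, p n (X n) (L n) := by
  refine ⟨⟨fun X X' ⟨L, a, b⟩ c => ⟨L, a, ?_⟩, fun X E ⟨L, a, b⟩ _ => ⟨L, a, ?_⟩⟩,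
    cf_sub (fun n _ => M n) p⟩
  · filter_upwards [b, c] with n u w using hp n (X n) (X' n) _ (fun v hv => w.ex hv) u
  · exact b.mono fun n u => hp n (X n) (X.cond E n) _
      (fun v (hv : v ∈ (cE (X n).Q (E n)).S) => ⟨v, cE_sub (P := (X n).Q) (E := E n) hv, rfl⟩) u

theorem cl_bx (g : Gs N Ω) (M : ℕ → ℕ) :
    Cl fun X : Mb Ω => ∃ L, Sub M L ∧ ∀ᶠ n in UF, (X.G g n).Bx (X n).Q (L n) :=
  cl_sub M (fun n x L => ((g n).pull x.ρ).Bx x.Q L) fun n _ _ L s u =>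
    ⟨s.all (q := fun ω => (∀ i, |(g n).a ω i| ≤ L ∧ |(g n).e ω i| ≤ L) ∧ 0 ≤ (g n).z ω ∧
      (g n).z ω < 1) u.bd, s.fn (g n).z (g n).y u.fz, s.fn (g n).θ (g n).y u.fθ⟩

theorem det_z {W β : Type} {P : FP W} {z : W → ℝ} (h : ∀ ω ∈ P.S, 0 ≤ z ω ∧ z ω < 1) (G : W → β)
    (m : ℕ) : Det P (fun ω => fl1 m (z ω)) G (Real.exp (lg * m)) := by
  intro a _
  refine ⟨Finset.Ico 0 (2 ^ m), ?_, fun b hb _ => ?_⟩
  · have e : ((2 : ℤ) ^ m).toNat = 2 ^ m := by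
      rw [show ((2 : ℤ) ^ m) = ((2 ^ m : ℕ) : ℤ) by push_cast; rfl, Int.toNat_natCast]
    rw [mul_comm, Real.exp_nat_mul, lg, Real.exp_log two_pos, Int.card_Ico, sub_zero, e]
    push_cast
    exact le_rfl
  · have := fl1_mem_Ico (j := 0) (i := m) (rfl : fl1 0 (z b) = fl1 0 (z b))
    rwa [fl1_zero_of_box (h b hb).1 (h b hb).2, zero_add, mul_zero, zero_add] at this

theorem bs (h : KC1) (g : Gs N Ω) (M : ℕ → ℕ) : Cl fun X : Mb Ω => Bs X.P (X.G g) M := by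
  by_cases hM : Big M
  swap
  · exact (cl_const False).congr fun X => ⟨fun a => hM a.big, False.elim⟩
  have d : ∀ X : Mb Ω, (∃ L, Sub M L ∧ ∀ᶠ n in UF, (X.G g n).Bx (X n).Q (L n)) → ∀ᶠ n in UF,
      Det (X n).Q (fun v => fl1 (M n) ((g n).z ((X n).ρ v))) (fun v => (g n).θ ((X n).ρ v))
        (Real.exp (lg * M n)) := fun X ⟨_, _, b⟩ =>
    b.mono fun n u => det_z (fun v hv => (u.bd v hv).2) _ _
  have h1 := h.full _ M (fun n ω => fl1 (M n) ((g n).z ω)) (fun n => (g n).θ)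
    (fun n => M n * lg) lg hM (cl_bx g M) d fun X a => Le.of_ev ((d X a).mono fun n u =>
      (ch_det u).trans_eq (by rw [Real.log_exp, mul_comm]))
  exact (h1.and (h.smi M (fun n => (g n).z) (fun n => (g n).ln) (fun n => (g n).θ) hM)).congr
    fun X => ⟨fun a => ⟨⟨a.bx, a.hgt⟩, a.inf⟩, fun a => ⟨hM, a.1.1, a.2, a.1.2⟩⟩

theorem hk (h : KC1) {Λ : ℕ → Type} (g : Gs N Ω) (M j : ℕ → ℕ) (lam : ∀ n, Ω n → Λ n)
    (hM : Big M) : Cl fun X : Mb Ω => Hk X.P (X.G g) M j fun n v => lam n ((X n).ρ v) :=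
  h.smi M lam (fun n => (g n).core) (fun n => (g n).win (j n)) hM

theorem lab (h : KC1) {Λ : ℕ → Type} (g : Gs N Ω) (M j : ℕ → ℕ) (lam : ∀ n, Ω n → Λ n)
    (hM : Big M) : Cl fun X : Mb Ω => Lab X.P (X.G g) M j fun n v => lam n ((X n).ρ v) :=
  ((hk h g M j lam hM).and (h.smi M lam (fun n => (g n).core) (fun n => (g n).y) hM)).congr
    fun _ => ⟨fun a => ⟨a.h, a.l⟩, fun a => ⟨a.1, a.2⟩⟩

theorem fam (h : KC1) {I : Type} (g : Gs N Ω) (M : ℕ → ℕ) (s : ∀ n, I → Shp (Ω n))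
    (F : ∀ n, Fam (s n)) (p : ℕ → I → ℕ) (hM : Big M) :
    Cl fun X : Mb Ω => FamOK X.P (X.G g) M (fun n => (F n).pull (X n).ρ) p := by
  have h1 := cl_sub M (fun n x L => ((F n).pull x.ρ).Alg x.Q (p n) L) fun n _ _ L b u =>
    ⟨fun j => b.fn _ _ (u.nest j), fun i j => b.fn _ _ (u.fd i j), fun i j =>
      b.all (q := fun ω => (s n i).fit L ((F n).d i j ω) ω j ((F n).τ i j)) (u.fit i j),
      u.mono, u.le⟩
  have c1 := cf_leU (S := fun n => Ext (Ω n)) (A := fun _ _ => ℕ) (fun _ _ _ => True)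
    (fun _ _ => ⟨0, trivial⟩) (fun n _ => M n)
    (fun n x j => ((g n).pull x.ρ).hk x.Q j fun v => (F n).S j (x.ρ v)) fun _ _ _ => 0
  have c2 := cf_leU (S := fun n => Ext (Ω n)) (A := fun _ _ => ℕ) (fun _ _ _ => True)
    (fun _ _ => ⟨0, trivial⟩) (fun n _ => M n)
    (fun n x j => ((g n).pull x.ρ).lk x.Q fun v => (F n).S j (x.ρ v)) fun _ _ _ => 0
  have h2 : Cl fun X : Mb Ω => ∀ j : ℕ → ℕ,
      Lab X.P (X.G g) M j fun n v => (F n).S (j n) ((X n).ρ v) :=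
    ⟨cl0_all fun j => (lab h g M j (fun n => (F n).S (j n)) hM).toCl0,
      (c1.and c2).congr fun X => ⟨fun a => ⟨fun j _ => (a j).h, fun j _ => (a j).l⟩,
        fun a j => ⟨a.1 j fun _ => trivial, a.2 j fun _ => trivial⟩⟩⟩
  exact (h1.and h2).congr fun X => ⟨fun a => ⟨a.alg, a.lab⟩, fun a => ⟨a.1, a.2⟩⟩

end KC2A

theorem rowKC2 : OfKC2 := fun h =>
  { bs := fun g M => KC2A.bs h g M
    ds := fun g M => h.sm M (fun n => (g n).X (M n)) fun n ω => (fl (M n) ((g n).e ω), (g n).θ ω)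
    fat := fun g M i r _ => KC2A.cl_sub M
      (fun n x L => Near x.Q ((g n).pull x.ρ).y (fun v => ((g n).pull x.ρ).pt v i) (L / 2 ^ r n))
      fun n _ _ L s u => s.all2 (q := fun a b => (g n).y a = (g n).y b →
        |(g n).pt a i - (g n).pt b i| ≤ L / 2 ^ r n) u
    hk := fun g M j lam hM => KC2A.hk h g M j lam hM
    lab := fun g M j lam hM => KC2A.lab h g M j lam hM
    fam := fun g M s F p hM => KC2A.fam h g M s F p hM }

end Pool.Agent.MP_5168f5_an.R4
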