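import Pool.Agent.MP_5168f5_an.R4.SpecK

/-! Kakeya sets in four dimensions: inequalities for conditionally independent copies. -/

namespace Pool.Agent.MP_5168f5_an.R4

open H19 H17S H17F Filter

namespace KF2A

variable {Ω α β γ γ' δ : Type}

theorem ch1 (P : FP Ω) (φ : Ω → δ) (F : Ω → α) (G : Ω → β) :
    ch (glue P P φ φ) (fun v => F v.1) (fun v => G v.1) = ch P F G :=
  (kg.fst P P φ φ).ch_id F G

theorem ch2 (P : FP Ω) (φ : Ω → δ) (F : Ω → α) {G : Ω → β} (h : Fn P G φ) :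
    ch (glue P P φ φ) (fun v => F v.2) (fun v => G v.1) = ch P F G := by
  rw [← (kg.snd P P φ φ (Law.rfl φ)).ch_id F G]
  refine ch_ext (fun _ _ => rfl) fun v hv => ?_
  obtain ⟨h1, h2, h3⟩ := (kg.mem P P φ φ v (Law.rfl φ)).1 hv
  exact h _ h1 _ h2 h3.symm

theorem mk (P : FP Ω) (φ : Ω → δ) (F : Ω → α) {G : Ω → β} (h : Fn P φ G) :
    ch (glue P P φ φ) (fun v => F v.2) (fun v => G v.1) = ch P F φ :=
  kg.mk1 P P φ φ F G (Law.rfl φ) h

theorem copy (P : FP Ω) (φ : Ω → δ) (F : Ω → α) (G : Ω → β) (K : Ω → γ) (h : Fn P φ K) :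
    mi (glue P P φ φ) (fun v => G v.2) (fun v => F v.1) (fun v => K v.1) = 0 := by
  unfold mi
  rw [mk P φ G h, mk P φ G (G := fun ω => (F ω, K ω)) (h.right F), sub_self]

theorem cor (P : FP Ω) (Y : Ω → α) (l : Ω → β) (Θ : Ω → γ) :
    2 * ch P Y (fun ω => (l ω, Θ ω)) - ch P Y Θ ≤
      ch (glue P P (fun ω => (Y ω, Θ ω)) fun ω => (Y ω, Θ ω)) (fun v => Y v.1) fun v =>
        (l v.1, l v.2, Θ v.1) := by
  have e0 : ch (glue P P (fun ω => (Y ω, Θ ω)) fun ω => (Y ω, Θ ω)) (fun v => Y v.1)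
      (fun v => ((l v.1, l v.2), Θ v.1)) ≤
      ch (glue P P (fun ω => (Y ω, Θ ω)) fun ω => (Y ω, Θ ω)) (fun v => Y v.1) fun v =>
        (l v.1, l v.2, Θ v.1) :=
    ch_anti fun a _ b _ e => by simp only [Prod.mk.injEq] at e ⊢; tauto
  have e1 := ch_symm (P := glue P P (fun ω => (Y ω, Θ ω)) fun ω => (Y ω, Θ ω))
    (fun v => Y v.1) (fun v => (l v.1, l v.2)) fun v => Θ v.1
  have e2 := ch_chain (P := glue P P (fun ω => (Y ω, Θ ω)) fun ω => (Y ω, Θ ω))
    (fun v => l v.1) (fun v => l v.2) fun v => (Y v.1, Θ v.1)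
  have e3 := ch_subadd (P := glue P P (fun ω => (Y ω, Θ ω)) fun ω => (Y ω, Θ ω))
    (fun v => l v.1) (fun v => l v.2) fun v => Θ v.1
  have e4 := ch1 P (fun ω => (Y ω, Θ ω)) Y Θ
  have e5 := ch1 P (fun ω => (Y ω, Θ ω)) l Θ
  have e6 := ch1 P (fun ω => (Y ω, Θ ω)) l fun ω => (Y ω, Θ ω)
  have e7 := ch2 P (fun ω => (Y ω, Θ ω)) l (Fn.snd Y Θ)
  have e8 := mk P (fun ω => (Y ω, Θ ω)) l (G := fun ω => (l ω, Y ω, Θ ω))
    (Fn.snd l fun ω => (Y ω, Θ ω))
  have e9 := ch_symm (P := P) Y l Θ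
  beta_reduce at e1 e2 e6 e8
  linarith

theorem lift (P : FP Ω) (c : Ω → δ) (lam : Ω → α) (F : Ω → β) (G : Ω → γ) (G' : Ω → γ')
    (h : Fn P c fun ω => (F ω, G ω)) (h' : Fn P G' c) :
    mi (glue P P c c) (fun v => lam v.2) (fun v => F v.1) (fun v => G v.1) ≤
      mi P lam c G' + ch P G' G := by
  unfold mi
  have e1 := mk P c lam h
  have e2 := ch_tri' (P := glue P P c c) (fun v => lam v.2) (fun v => G v.1) fun v => G' v.1
  have e3 := ch2 P c lam h'
  have e4 := ch1 P c G' G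
  have e5 : ch P lam (fun ω => (c ω, G' ω)) ≤ ch P lam c := ch_anti (Fn.fst c G')
  beta_reduce at e1
  linarith

end KF2A

theorem rowKF2 : KF2 where
  copy := KF2A.copy
  cor := KF2A.cor
  lift := KF2A.lift
  join := fun P c S lam F G G' h h' => by
    have e1 := KF2A.lift P c lam F (fun ω => (S ω, G ω)) G' h h'
    have e2 := mi_chain (P := glue P P c c) (fun v => F v.1) (fun v => S v.1) (fun v => lam v.2)
      fun v => G v.1
    have e3 := (kg.fst P P c c).mi_id F S G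
    have e4 := mi_symm (P := P) F S G
    have e5 := mi_symm (P := glue P P c c) (fun v => F v.1) (fun v => lam v.2)
      fun v => (S v.1, G v.1)
    rw [mi_symm]
    beta_reduce at e1 e2
    linarith

end Pool.Agent.MP_5168f5_an.R4
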