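import Pool.Agent.MP_5168f5_an.R4.SpecK

/-! Finite facts on the sum of the entropies of the digits. -/

namespace Pool.Agent.MP_5168f5_an.R4

open H19 H17S H17F Filter

namespace KG0A

theorem dig {N : ℕ} {Ω : Type} (P : FP Ω) (g : Geo N Ω) (i : Fin N) (s : Finset ℕ) :
    ∑ k ∈ s, ch P (fun ω => fl1 (k + 1) (g.e ω i)) (fun ω => (fl k (g.e ω), g.y ω)) ≤
      s.card * lg := by
  rw [← nsmul_eq_mul]
  refine Finset.sum_le_card_nsmul _ _ _ fun k _ => ?_
  simpa [FP.E_const] using ch_fl1_refine (P := P) (x := fun ω => g.e ω i) (j := fun _ => k)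
    (i := fun _ => 1) (G := fun ω => (fl k (g.e ω), g.y ω)) (fun _ _ _ _ _ => rfl)
    (fun _ _ _ _ _ => rfl) fun _ _ _ _ e => congrFun (congrArg Prod.fst e) i

end KG0A

open KG0A in
theorem rowKG0 : OfKG0 := fun h =>
  { bd := fun P g i M => ⟨Finset.sum_nonneg fun _ _ => ch_nonneg _ _, by
      simpa [Geo.G] using dig P g i (Finset.range M)⟩
    tail := fun P g i a M hM => by
      have := dig P g i (Finset.Ico a M)
      rw [Nat.card_Ico, Nat.cast_sub hM] at this
      rw [Geo.G, ← Finset.sum_range_add_sum_Ico _ hM]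
      exact add_le_add le_rfl this
    head := fun P g i a => by
      induction a with
      | zero => exact ch_nonneg _ _
      | succ a ih =>
        rw [Geo.G, Finset.sum_range_succ]
        refine (add_le_add ih (ch_anti (G := fun ω => (fl1 a (g.e ω i), g.y ω)) fun _ _ _ _ e =>
          Prod.ext (congrFun (congrArg Prod.fst e) i) (Prod.ext_iff.1 e).2)).trans ?_
        rw [← ch_chain]
        exact ch_mono fun _ _ _ _ e => Prod.ext (fl1_eq_of_le a.le_succ (congrArg Prod.fst e))
          (congrArg Prod.fst e)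
    ev := fun P g i M E => by
      have h1 := h.tel P (fun k ω => fl1 (k + 1) (g.e ω i)) (fun k ω => fl k (g.e ω)) g.y E 0 M
        M.zero_le fun k _ _ => ⟨fun _ _ _ _ e => fl_eq_of_le k.le_succ (congrArg Prod.fst e),
          fun _ _ _ _ e => congrFun (congrArg Prod.fst e) i⟩
      have h2 : ch P E (fun ω => (fl 0 (g.e ω), g.y ω)) ≤ lg :=
        ch_det (B := 2) fun _ _ => ⟨Finset.univ, by simp, fun _ _ _ => Finset.mem_univ _⟩
      rw [mi_symm (fun ω => fl M (g.e ω)), ← Finset.range_eq_Ico] at h1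
      simp only [Geo.G, Finset.mul_sum, add_assoc, ← Finset.sum_add_distrib]
      refine le_trans ?_ (add_le_add ((h1.trans (mi_le _ _ _)).trans h2) le_rfl)
      rw [← Finset.sum_add_distrib]
      refine Finset.sum_le_sum fun k _ => ?_
      rw [mi, ← sub_le_iff_le_add', sub_sub_cancel, ke.eq P E _ _ (Fn.fst _ _)]
      exact add_le_add (mul_le_mul_of_nonneg_left (ch_anti (Fn.snd _ _)) (pb_nonneg P E))
        (mul_le_mul_of_nonneg_left (ch_anti (Fn.snd _ _)) (sub_nonneg.2 (pb_le_one P E)))
    sum := fun P g M => by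
      induction M with
      | zero => exact (ch_zero (Fn.fst _ _)).trans_le (by simp [Geo.G])
      | succ M ih =>
        simp only [Geo.G, Finset.sum_range_succ, Finset.sum_add_distrib]
        refine (ch_tri _ (fun ω => fl M (g.e ω)) _).trans (add_le_add ih (le_trans ?_
          (ch_pi_le Finset.univ (fun i ω => fl1 (M + 1) (g.e ω i)) 0 _)))
        simp only [Finset.mem_univ, if_true]
        exact ch_anti fun _ _ _ _ e =>
          Prod.ext (Prod.ext_iff.1 e).1 (Prod.ext_iff.1 (Prod.ext_iff.1 e).2).2 }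

end Pool.Agent.MP_5168f5_an.R4
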