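import Pool.Agent.MP_5168f5_an.R4.SpecK

/-! Kakeya sets in four dimensions: planes. -/

namespace Pool.Agent.MP_5168f5_an.R4

open H19 H17S H17F Filter

namespace KPA

variable {N : ℕ} {Ω : Type}

/-- The defect of the line with respect to the plane at height `t`. -/
noncomputable def df (g : Geo N Ω) (k : Fin N) (d : ℝ × ℝ × V N) (ω : Ω) (t : ℝ) : ℝ :=
  g.lt t ω k - d.1 - d.2.1 * t - ∑ i, d.2.2 i * g.lt t ω i

/-- The slope of the defect. -/
noncomputable def sl (g : Geo N Ω) (k : Fin N) (d : ℝ × ℝ × V N) (ω : Ω) : ℝ :=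
  g.e ω k - d.2.1 - ∑ i, d.2.2 i * g.e ω i

theorem lt_apply (g : Geo N Ω) (t : ℝ) (ω : Ω) (i : Fin N) :
    g.lt t ω i = g.a ω i + t * g.e ω i := rfl

theorem df_aff (g : Geo N Ω) (k : Fin N) (d : ℝ × ℝ × V N) (ω : Ω) (t s : ℝ) :
    df g k d ω t = df g k d ω s + (t - s) * sl g k d ω := by
  have h : ∑ i, d.2.2 i * g.lt t ω i =
      ∑ i, d.2.2 i * g.lt s ω i + (t - s) * ∑ i, d.2.2 i * g.e ω i := by
    rw [Finset.mul_sum, ← Finset.sum_add_distrib]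
    exact Finset.sum_congr rfl fun i _ => by rw [lt_apply, lt_apply]; ring
  unfold df sl
  rw [h, lt_apply, lt_apply]; ring

theorem fl1_mid (j : ℕ) (m : ℤ) {s : ℝ} (h0 : 0 ≤ s) (h1 : s < 1) :
    fl1 j (((2 : ℝ) ^ j)⁻¹ * m + ((2 : ℝ) ^ j)⁻¹ * s) = m := by
  unfold fl1
  have e : (2 : ℝ) ^ j * (((2 : ℝ) ^ j)⁻¹ * m + ((2 : ℝ) ^ j)⁻¹ * s) = m + s := by field_simp
  rw [e, Int.floor_eq_iff]
  constructor <;> linarith

theorem fl1_z0 (g : Geo N Ω) (j : ℕ) (ω : Ω) : fl1 j (g.z0 j ω) = fl1 j (g.z ω) := by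
  have := fl1_mid j (fl1 j (g.z ω)) le_rfl one_pos
  rwa [mul_zero, add_zero] at this

theorem slope (g : Geo N Ω) (S : Finset (Fin N)) (k : Fin N) {L : ℝ} {d : ℝ × ℝ × V N} {ω : Ω}
    {j τ : ℕ} (h : (g.pl S k).fit L d ω j τ) : |sl g k d ω| ≤ 4 * L * 2 ^ j / 2 ^ τ := by
  have h1 : |df g k d ω (g.z0 j ω)| ≤ L / 2 ^ τ := h.2.2 _ (fl1_z0 g j ω)
  have h2 : |df g k d ω (g.z0 j ω + ((2 : ℝ) ^ j)⁻¹ * (1 / 2))| ≤ L / 2 ^ τ :=
    h.2.2 _ (fl1_mid j (fl1 j (g.z ω)) (by norm_num) (by norm_num))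
  rw [df_aff g k d ω _ (g.z0 j ω), add_sub_cancel_left] at h2
  have hj : (0 : ℝ) < 2 ^ j := by positivity
  have h3 : |((2 : ℝ) ^ j)⁻¹ * (1 / 2) * sl g k d ω| ≤ 2 * (L / 2 ^ τ) := by
    rw [abs_le] at h1 h2 ⊢
    constructor <;> linarith [h1.1, h1.2, h2.1, h2.2]
  rw [abs_mul, abs_of_pos (by positivity : (0 : ℝ) < ((2 : ℝ) ^ j)⁻¹ * (1 / 2))] at h3
  have e : |sl g k d ω| = 2 * 2 ^ j * (((2 : ℝ) ^ j)⁻¹ * (1 / 2) * |sl g k d ω|) := by field_simp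
  rw [e]
  refine (mul_le_mul_of_nonneg_left h3 (by positivity)).trans (le_of_eq ?_)
  ring

/-- A short step along a line with a small slope. -/
theorem step {u σ B : ℝ} {j i τ τ' : ℕ} (hB : 0 ≤ B) (hu : |u| ≤ ((2 : ℝ) ^ (j + i))⁻¹)
    (hσ : |σ| ≤ B * 2 ^ j / 2 ^ τ) (hτ : τ' ≤ τ + i) : |u * σ| ≤ B / 2 ^ τ' := by
  rw [abs_mul]
  refine (mul_le_mul hu hσ (abs_nonneg _) (by positivity)).trans ?_
  have e : ((2 : ℝ) ^ (j + i))⁻¹ * (B * 2 ^ j / 2 ^ τ) = B / 2 ^ (τ + i) := by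
    rw [pow_add, pow_add]; field_simp
  rw [e]
  exact div_le_div_of_nonneg_left hB (by positivity) (pow_le_pow_right₀ one_le_two hτ)

theorem ok (g : Geo N Ω) (S : Finset (Fin N)) (k : Fin N) : (g.pl S k).OK g where
  monoL := fun L L' d ω j τ hL h => ⟨h.1.trans hL, fun i => ⟨(h.2.1 i).1.trans hL, (h.2.1 i).2⟩,
    fun t ht => (h.2.2 t ht).trans (div_le_div_of_nonneg_right hL (by positivity))⟩
  monoj := fun L d ω j j' τ hj h => ⟨h.1, h.2.1, fun t ht => h.2.2 t (fl1_eq_of_le hj ht)⟩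
  core := fun L d ω ω' j τ e h => by
    simp only [Geo.core, Geo.ln, Prod.mk.injEq] at e
    refine ⟨h.1, h.2.1, fun t ht => ?_⟩
    have h1 := h.2.2 t (by rw [ht, e.2.1])
    have h2 : g.lt t ω' = g.lt t ω := by simp only [Geo.lt, e.1.1, e.1.2.1]
    rw [h2]; exact h1

theorem anti (g : Geo N Ω) (S : Finset (Fin N)) (k : Fin N) (L : ℝ) (d : ℝ × ℝ × V N) (ω : Ω)
    (j τ τ' : ℕ) (hτ : τ' ≤ τ) (h : (g.pl S k).fit L d ω j τ) : (g.pl S k).fit L d ω j τ' :=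
  ⟨h.1, h.2.1, fun t ht => (h.2.2 t ht).trans (div_le_div_of_nonneg_left
    ((abs_nonneg _).trans h.1) (by positivity) (pow_le_pow_right₀ one_le_two hτ))⟩

theorem conv (g : Geo N Ω) (S : Finset (Fin N)) (k : Fin N) (L : ℝ) (d : ℝ × ℝ × V N) (ω : Ω)
    (j τ : ℕ) (h1 : |d.2.1| ≤ L) (h2 : ∀ i, |d.2.2 i| ≤ L ∧ (i ∉ S → d.2.2 i = 0))
    (h3 : |df g k d ω (g.z ω)| ≤ L / 2 ^ τ) (h4 : |sl g k d ω| ≤ L * 2 ^ j / 2 ^ τ) :
    (g.pl S k).fit (2 * L) d ω j τ := by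
  have hL : 0 ≤ L := (abs_nonneg _).trans h1
  refine ⟨by linarith, fun i => ⟨by linarith [(h2 i).1], (h2 i).2⟩, fun t ht => ?_⟩
  have h5 := step (i := 0) (τ' := τ) hL (abs_sub_lt_of_fl1_eq ht).le h4 le_rfl
  change |df g k d ω t| ≤ _
  rw [df_aff g k d ω t (g.z ω)]
  refine (abs_add_le _ _).trans ((add_le_add h3 h5).trans (le_of_eq ?_))
  ring

theorem zero (P : FP Ω) (g : Geo N Ω) (S : Finset (Fin N)) (k : Fin N) (L : ℝ) (h : g.Bx P L)
    (ω : Ω) (hω : ω ∈ P.S) : (g.pl S k).fit (2 * L) (0, 0, 0) ω 0 0 := by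
  obtain ⟨h1, h2, h3⟩ := h.bd ω hω
  have hL : 0 ≤ L := (abs_nonneg _).trans (h1 k).1
  refine ⟨by simpa using hL, fun i => ⟨by simpa using hL, fun _ => rfl⟩, fun t ht => ?_⟩
  rw [fl1_zero_of_box h2 h3] at ht
  have h4 := fl1_le 0 t
  have h5 := lt_fl1 0 t
  rw [ht] at h4 h5
  simp only [pow_zero, inv_one, Int.cast_zero, mul_zero, zero_add] at h4 h5
  simp only [lt_apply, Pi.zero_apply, zero_mul, Finset.sum_const_zero, sub_zero, pow_zero, div_one]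
  refine (abs_add_le _ _).trans ?_
  rw [abs_mul, abs_of_nonneg h4]
  nlinarith [(h1 k).1, (h1 k).2, abs_nonneg (g.e ω k)]

/-- The new digit of the offset. -/
noncomputable def dg (g : Geo N Ω) (k : Fin N) (d : Ω → ℝ × ℝ × V N) (j τ : ℕ) (ω : Ω) : ℤ :=
  fl1 τ (df g k (d ω) ω (g.z0 j ω))

/-- The plane with the corrected offset. -/
noncomputable def nd (g : Geo N Ω) (k : Fin N) (d : Ω → ℝ × ℝ × V N) (j τ : ℕ) (ω : Ω) :
    ℝ × ℝ × V N := ((d ω).1 + ((2 : ℝ) ^ τ)⁻¹ * dg g k d j τ ω, (d ω).2)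

theorem fit_nd (g : Geo N Ω) (S : Finset (Fin N)) (k : Fin N) {L : ℝ} (hL : 1 ≤ L)
    {d : Ω → ℝ × ℝ × V N} {ω : Ω} {j i τ τ' : ℕ} (hτ : τ' ≤ τ + i)
    (h : (g.pl S k).fit L (d ω) ω j τ) :
    (g.pl S k).fit (5 * L) (nd g k d (j + i) τ' ω) ω (j + i) τ' := by
  refine ⟨h.1.trans (by linarith), fun m => ⟨(h.2.1 m).1.trans (by linarith), (h.2.1 m).2⟩,
    fun t ht => ?_⟩
  have h1 := step (B := 4 * L) (by linarith)
    (abs_sub_lt_of_fl1_eq (ht.trans (fl1_z0 g (j + i) ω).symm)).le (slope g S k h) hτ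
  have h2 := fl1_le τ' (df g k (d ω) ω (g.z0 (j + i) ω))
  have h3 := lt_fl1 τ' (df g k (d ω) ω (g.z0 (j + i) ω))
  have h4 := df_aff g k (d ω) ω t (g.z0 (j + i) ω)
  have e : df g k (nd g k d (j + i) τ' ω) ω t =
      df g k (d ω) ω t - ((2 : ℝ) ^ τ')⁻¹ * fl1 τ' (df g k (d ω) ω (g.z0 (j + i) ω)) := by
    simp only [df, nd, dg]; ring
  change |df g k (nd g k d (j + i) τ' ω) ω t| ≤ _
  have h5 : ((2 : ℝ) ^ τ')⁻¹ ≤ L / 2 ^ τ' := by
    rw [← one_div]; exact div_le_div_of_nonneg_right hL (by positivity)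
  have h6 : 5 * L / 2 ^ τ' = 4 * L / 2 ^ τ' + L / 2 ^ τ' := by ring
  have h7 : (0 : ℝ) < ((2 : ℝ) ^ τ')⁻¹ := by positivity
  rw [e, h6, abs_le]
  rw [abs_le] at h1
  constructor <;> linarith [h1.1, h1.2]

theorem fn_dg {Λ : Type} {P : FP Ω} (g : Geo N Ω) (k : Fin N) {d : Ω → ℝ × ℝ × V N} {lam : Ω → Λ}
    (h : Fn P d lam) (j τ : ℕ) : Fn P (dg g k d j τ) fun ω => (lam ω, g.win j ω) := by
  intro a ha b hb e
  simp only [Geo.win, Geo.ln, Prod.mk.injEq] at e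
  simp only [dg, df, Geo.z0, Geo.lt, h a ha b hb e.1, e.2.1.1, e.2.1.2.1, e.2.2]

theorem fn_nd {Λ : Type} {P : FP Ω} (g : Geo N Ω) (k : Fin N) {d : Ω → ℝ × ℝ × V N} {lam : Ω → Λ}
    (h : Fn P d lam) (j τ : ℕ) : Fn P (nd g k d j τ) fun ω => (dg g k d j τ ω, lam ω) := by
  intro a ha b hb e
  simp only [Prod.mk.injEq] at e
  simp only [nd, h a ha b hb e.2, e.1]

theorem ch_dg {Λ : Type} {P : FP Ω} (g : Geo N Ω) (S : Finset (Fin N)) (k : Fin N)
    {d : Ω → ℝ × ℝ × V N} {lam : Ω → Λ} {L L' : ℝ} {j i τ τ' p : ℕ} (hL : 0 ≤ L) (hL' : 0 ≤ L')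
    (hτ : τ' ≤ τ + i) (hp : τ' ≤ p) (hz : Fn P g.z g.y) (h : Fn P d lam)
    (hf : ∀ ω ∈ P.S, (g.pl S k).fit L (d ω) ω j τ)
    (hn : ∀ m ∈ insert k S, Near P g.y (fun ω => g.pt ω m) (L' / 2 ^ p)) :
    ch P (dg g k d (j + i) τ') (fun ω => (lam ω, g.y ω)) ≤
      Real.log (2 * (L' + N * (L * L') + 8 * L) + 3) := by
  refine ch_near1 (by positivity) fun a ha b hb e => ?_
  simp only [Prod.mk.injEq] at e
  have ed := h a ha b hb e.1
  have ez := hz a ha b hb e.2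
  have e0 : g.z0 (j + i) a = g.z0 (j + i) b := by simp only [Geo.z0, ez]
  have ha1 := step (B := 4 * L) (by linarith)
    (abs_sub_lt_of_fl1_eq (fl1_z0 g (j + i) a)).le (slope g S k (hf a ha)) hτ
  have hb1 := step (B := 4 * L) (by linarith)
    (abs_sub_lt_of_fl1_eq (fl1_z0 g (j + i) b)).le (slope g S k (hf b hb)) hτ
  have hq : L' / 2 ^ p ≤ L' / 2 ^ τ' :=
    div_le_div_of_nonneg_left hL' (by positivity) (pow_le_pow_right₀ one_le_two hp)
  have hk := (hn k (Finset.mem_insert_self _ _) a ha b hb e.2).trans hq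
  have hs : |∑ m, (d b).2.2 m * (g.pt a m - g.pt b m)| ≤ N * (L * (L' / 2 ^ τ')) := by
    refine (Finset.abs_sum_le_sum_abs _ _).trans ?_
    refine (Finset.sum_le_card_nsmul _ _ (L * (L' / 2 ^ τ')) fun m _ => ?_).trans (by simp)
    by_cases hm : m ∈ S
    · rw [abs_mul]
      exact mul_le_mul ((hf b hb).2.1 m).1
        ((hn m (Finset.mem_insert_of_mem hm) a ha b hb e.2).trans hq) (abs_nonneg _) hL
    · rw [((hf b hb).2.1 m).2 hm, zero_mul, abs_zero]; positivity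
  have e1 : df g k (d a) a (g.z a) - df g k (d b) b (g.z b) =
      (g.pt a k - g.pt b k) - ∑ m, (d b).2.2 m * (g.pt a m - g.pt b m) := by
    simp only [df, Geo.pt, mul_sub, Finset.sum_sub_distrib, ed]
    rw [ez]; ring
  have e2 : (L' + N * (L * L') + 8 * L) / 2 ^ τ' =
      L' / 2 ^ τ' + N * (L * (L' / 2 ^ τ')) + 4 * L / 2 ^ τ' + 4 * L / 2 ^ τ' := by ring
  rw [df_aff g k (d a) a _ (g.z a), df_aff g k (d b) b _ (g.z b), e2]
  rw [abs_le] at ha1 hb1 hk hs ⊢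
  constructor <;> linarith [ha1.1, ha1.2, hb1.1, hb1.2, hk.1, hk.2, hs.1, hs.2]

theorem fat_all {Ω : ℕ → Type} (P : ∀ n, FP (Ω n)) (g : Gs N Ω) (M p : ℕ → ℕ) (hM : Big M)
    (T : Finset (Fin N)) (h : ∀ m ∈ T, Fat P g M m p) : ∃ L, Sub M L ∧ ∀ᶠ n in UF, ∀ m ∈ T,
      Near (P n) (g n).y (fun ω => (g n).pt ω m) (L n / 2 ^ p n) := by
  induction T using Finset.induction_on with
  | empty => exact ⟨fun _ => 1, hM.sub le_rfl, Eventually.of_forall fun n m hm => by simp at hm⟩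
  | insert m T _ ih =>
    obtain ⟨L, h1, h2⟩ := ih fun m' hm' => h m' (Finset.mem_insert_of_mem hm')
    obtain ⟨L', h3, h4⟩ := h m (Finset.mem_insert_self _ _)
    refine ⟨fun n => L n + L' n, h1.add h3 hM, ?_⟩
    filter_upwards [h2, h4] with n u v m' hm' a ha b hb e
    rcases Finset.mem_insert.1 hm' with rfl | hm'
    · exact (v a ha b hb e).trans
        (div_le_div_of_nonneg_right (by linarith [h1.pos n]) (by positivity))
    · exact (u m' hm' a ha b hb e).trans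
        (div_le_div_of_nonneg_right (by linarith [h3.pos n]) (by positivity))

theorem grow (kb : KB) {Ω : ℕ → Type} (P : ∀ n, FP (Ω n)) (g : Gs N Ω) (M j i τ p : ℕ → ℕ)
    (S : Finset (Fin N)) (k : Fin N) (hB : Bs P g M) (hk : Fat P g M k p)
    (hS : ∀ m ∈ S, Fat P g M m p) (h : Thin P g M (fun n => (g n).pl S k) j τ) :
    Thin P g M (fun n => (g n).pl S k) (fun n => j n + i n) fun n => min (p n) (τ n + i n) := by
  obtain ⟨Λ, lam, d, L, hl, hL, hf⟩ := h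
  obtain ⟨L', hL', hn⟩ := fat_all P g M p hB.big (insert k S) fun m hm => by
    rcases Finset.mem_insert.1 hm with rfl | hm
    exacts [hk, hS m hm]
  obtain ⟨L₀, -, hb⟩ := hB.bx
  refine ⟨fun n => ℤ × Λ n,
    fun n ω => (dg (g n) k (d n) (j n + i n) (min (p n) (τ n + i n)) ω, lam n ω),
    fun n => nd (g n) k (d n) (j n + i n) (min (p n) (τ n + i n)), fun n => 5 * L n, ⟨?_, ?_⟩,
    hL.const_mul hB.big (by norm_num), ?_⟩
  · have h1 := kb.up P g M j (fun n => j n + i n) lam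
      (Eventually.of_forall fun n => Nat.le_add_right _ _) hl.h
    refine Sm.mono h1 ?_
    filter_upwards [hf] with n u
    have h2 := (kb.add (P n) (g n) (j n + i n)
      (dg (g n) k (d n) (j n + i n) (min (p n) (τ n + i n))) (lam n)).1
    rw [ch_zero (fn_dg (g n) k u.1 _ _), add_zero] at h2
    exact h2
  · have h0 : Sub M fun n => L' n + (N + 1) * (L n * L' n) + 8 * L n :=
      (hL'.add ((hL.mul hL').const_mul hB.big (C := N + 1)
        (le_add_of_nonneg_left (Nat.cast_nonneg N))) hB.big).add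
        (hL.const_mul hB.big (by norm_num)) hB.big
    refine Sm.mono (hl.l.add (h0.log3 hB.big 1)) ?_
    filter_upwards [hf, hn, hb] with n u v w
    have h2 := (kb.add (P n) (g n) (j n + i n)
      (dg (g n) k (d n) (j n + i n) (min (p n) (τ n + i n))) (lam n)).2
    have h3 := ch_dg (g n) S k (hL.pos n).le (hL'.pos n).le (min_le_right (p n) (τ n + i n))
      (min_le_left (p n) (τ n + i n)) w.fz u.1 u.2 v
    have h4 : Real.log (2 * (L' n + N * (L n * L' n) + 8 * L n) + 3) ≤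
        Real.log (2 * (L' n + (N + 1) * (L n * L' n) + 8 * L n) + 3) := by
      have := hL.pos n
      have := hL'.pos n
      exact Real.log_le_log (by positivity) (by nlinarith [mul_pos (hL.pos n) (hL'.pos n)])
    linarith
  · filter_upwards [hf] with n u
    exact ⟨fn_nd (g n) k u.1 _ _, fun ω hω =>
      fit_nd (g n) S k (hL.1 n) (min_le_right _ _) (u.2 ω hω)⟩

end KPA

theorem rowKP : OfKP := fun kb =>
  { ok := KPA.ok
    anti := KPA.anti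
    iff := fun g S k L d ω j τ =>
      ⟨fun h => ⟨h.2.2 _ rfl, KPA.slope g S k h⟩, KPA.conv g S k L d ω j τ⟩
    zero := KPA.zero
    grow := KPA.grow kb }

end Pool.Agent.MP_5168f5_an.R4
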