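import Pool.Agent.MP_5168f5_an.R4.Api

/-! Optimal families exist. -/

namespace Pool.Agent.MP_5168f5_an.R4

open H19 H17S H17F Filter

namespace OptEA

section Fin

variable {N : ℕ} {I Ω Λ : Type} {s : I → Shp Ω} {P : FP Ω}

/-- The label from level `j` on. -/
def cut (j : ℕ) (lam : Ω → Λ) (k : ℕ) (ω : Ω) : Option Λ := if j ≤ k then some (lam ω) else none

open Classical in
/-- Join a family with a label of level `j` that lives on a copy. -/
noncomputable def jn (F : Fam s) (i : I) (j τ : ℕ) (lam : Ω → Λ) (d : Ω → (s i).D) :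
    Fam fun i => (s i).pull (Prod.fst : Ω × Ω → Ω) :=
  ⟨F.Lb × Option Λ, fun k v => (F.S k v.1, cut j lam k v.2),
    fun i' k v => Function.update (fun i' => F.d i' k v.1) i
      (if j ≤ k ∧ F.τ i k ≤ τ then d v.2 else F.d i k v.1) i',
    Function.update F.τ i fun k => if j ≤ k then max (F.τ i k) τ else F.τ i k⟩

theorem win_core (P : FP Ω) (g : Geo N Ω) (j : ℕ) : Fn P (g.win j) g.core :=
  Fn.comp (fun x : (V N × V N × g.T) × ℝ × g.Y => (x.1, fl1 j x.2.1)) g.core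

theorem y_core (P : FP Ω) (g : Geo N Ω) : Fn P g.y g.core :=
  Fn.comp (fun x : (V N × V N × g.T) × ℝ × g.Y => x.2.2) g.core

theorem mi_const {α β γ : Type} (c : α) (G : Ω → β) (K : Ω → γ) : mi P (fun _ => c) G K ≤ 0 :=
  (mi_le _ _ _).trans (ch_zero fun _ _ _ _ _ => rfl).le

theorem cut_lk {β γ : Type} (j k : ℕ) (lam : Ω → Λ) (G : Ω → β) (K : Ω → γ) :
    mi P (cut j lam k) G K ≤ mi P lam G K :=
  mi_mono' ((Fn.comp (fun x => if j ≤ k then some x else none) lam).left K)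

theorem cut_hk (g : Geo N Ω) (j k : ℕ) (lam : Ω → Λ) :
    g.hk P k (cut j lam k) ≤ g.hk P j lam := by
  by_cases h : j ≤ k
  · refine (cut_lk j k lam _ _).trans (mi_cond (fun a _ b _ e => ?_) ((win_core P g k).left _))
    simp only [Geo.win, Prod.mk.injEq] at e ⊢
    exact ⟨e.1, fl1_eq_of_le h e.2⟩
  · have : cut j lam k = fun _ => none := funext fun _ => if_neg h
    rw [this]
    exact (mi_const _ _ _).trans (mi_nonneg _ _ _)

theorem jn_lab (H : KF2) (g : Geo N Ω) (F : Fam s) (i : I) (j τ k : ℕ) (lam : Ω → Λ)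
    (d : Ω → (s i).D) :
    (g.pull Prod.fst).hk (glue P P g.core g.core) k ((jn F i j τ lam d).S k) ≤
        g.hk P k (F.S k) + g.hk P j lam ∧
      (g.pull Prod.fst).lk (glue P P g.core g.core) ((jn F i j τ lam d).S k) ≤
        g.lk P (F.S k) + g.lk P lam := by
  have a := H.join P g.core (F.S k) (cut j lam k) g.core (g.win k) (g.win k) (Fn.fst _ _)
    (win_core P g k)
  have b := H.join P g.core (F.S k) (cut j lam k) g.core g.y g.y (Fn.fst _ _) (y_core P g)
  rw [ch_zero (Fn.snd _ _), add_zero] at a b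
  exact ⟨a.trans (add_le_add le_rfl (cut_hk g j k lam)),
    b.trans (add_le_add le_rfl (cut_lk j k lam _ _))⟩

theorem jn_alg {g : Geo N Ω} (ok : ∀ i, (s i).OK g) {F : Fam s} {p : I → ℕ} {L L' L'' : ℝ}
    (h : F.Alg P p L) {i : I} {j τ : ℕ} {lam : Ω → Λ} {d : Ω → (s i).D} (hd : Fn P d lam)
    (hf : ∀ ω ∈ P.S, (s i).fit L' (d ω) ω j τ) (hτ : τ ≤ p i) (h1 : L ≤ L'') (h2 : L' ≤ L'') :
    (jn F i j τ lam d).Alg (glue P P g.core g.core) p L'' := by
  classical
  have m := fun v => (kg.mem P P g.core g.core v fun _ => rfl).1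
  refine ⟨fun k a ha b hb e => ?_, fun i' k a ha b hb e => ?_, fun i' k v hv => ?_,
    fun i' k k' hk => ?_, fun i' k => ?_⟩
  · refine Prod.ext (h.nest k _ (m a ha).1 _ (m b hb).1 (congrArg Prod.fst e)) ?_
    have e2 : cut j lam (k + 1) a.2 = cut j lam (k + 1) b.2 := congrArg Prod.snd e
    change cut j lam k a.2 = cut j lam k b.2
    unfold cut at e2 ⊢
    split_ifs with c
    · rwa [if_pos (c.trans k.le_succ), if_pos (c.trans k.le_succ)] at e2
    · rfl
  · have e1 := fun i' => h.fd i' k _ (m a ha).1 _ (m b hb).1 (congrArg Prod.fst e)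
    have e2 : cut j lam k a.2 = cut j lam k b.2 := congrArg Prod.snd e
    simp only [jn, e1]
    split_ifs with c
    · simp only [cut, if_pos c.1, Option.some.injEq] at e2
      rw [hd _ (m a ha).2.1 _ (m b hb).2.1 e2]
    · rfl
  · have f1 := fun i' => (ok i').monoL _ _ _ _ _ _ h1 (h.fit i' k _ (m v hv).1)
    by_cases c : i' = i
    · subst c
      simp only [jn, Function.update_self]
      by_cases c1 : j ≤ k ∧ F.τ i' k ≤ τ
      · rw [if_pos c1, if_pos c1.1, max_eq_right c1.2]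
        exact (ok i').monoL _ _ _ _ _ _ h2 ((ok i').monoj _ _ _ _ _ _ c1.1
          ((ok i').core _ _ _ _ _ _ (m v hv).2.2 (hf _ (m v hv).2.1)))
      · rw [if_neg c1]
        split_ifs with c2
        · rw [max_eq_left (not_le.1 fun c3 => c1 ⟨c2, c3⟩).le]
          exact f1 i'
        · exact f1 i'
    · simp only [jn, Function.update_of_ne c]
      exact f1 i'
  · have f1 := fun i' => h.mono i' hk
    by_cases c : i' = i
    · subst c
      simp only [jn, Function.update_self]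
      have := f1 i'
      split_ifs <;> omega
    · simp only [jn, Function.update_of_ne c]
      exact f1 i'
  · by_cases c : i' = i
    · subst c
      simp only [jn, Function.update_self]
      have := h.le i' k
      split_ifs <;> omega
    · simp only [jn, Function.update_of_ne c]
      exact h.le i' k

/-- The total thickness. -/
def tot [Fintype I] (τ : I → ℕ → ℕ) (M : ℕ) : ℝ := ∑ i, ∑ k ∈ Finset.range (M + 1), (τ i k : ℝ)

theorem jn_tot [Fintype I] (F : Fam s) (i : I) (j τ j' M : ℕ) (lam : Ω → Λ) (d : Ω → (s i).D)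
    (hm : Monotone (F.τ i)) {a b : ℝ} (ha : 0 ≤ a) (hb : 0 ≤ b) (h1 : j + a ≤ j') (h2 : j' ≤ M)
    (h3 : F.τ i j' + b ≤ τ) : tot F.τ M + a * b ≤ tot (jn F i j τ lam d).τ M := by
  classical
  have hj : j ≤ j' := by exact_mod_cast (show (j : ℝ) ≤ j' by linarith)
  have k1 : ∀ i' k, F.τ i' k ≤ (jn F i j τ lam d).τ i' k := fun i' k => by
    by_cases c : i' = i
    · subst c
      simp only [jn, Function.update_self]
      split_ifs <;> omega
    · simp only [jn, Function.update_of_ne c, le_rfl]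
  have k0 : ∀ i' k, (0 : ℝ) ≤ ((jn F i j τ lam d).τ i' k : ℝ) - F.τ i' k := fun i' k =>
    sub_nonneg.2 (by exact_mod_cast k1 i' k)
  have k2 : ∀ k ∈ Finset.Ico j j', b ≤ ((jn F i j τ lam d).τ i k : ℝ) - F.τ i k := fun k hk => by
    rw [Finset.mem_Ico] at hk
    simp only [jn, Function.update_self, if_pos hk.1]
    have e1 : (F.τ i k : ℝ) ≤ F.τ i j' := by exact_mod_cast hm hk.2.le
    have e2 : (τ : ℝ) ≤ (max (F.τ i k) τ : ℕ) := by exact_mod_cast le_max_right _ _
    linarith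
  have k3 := Finset.card_nsmul_le_sum _ _ _ k2
  rw [Nat.card_Ico, nsmul_eq_mul, Nat.cast_sub hj] at k3
  have k4 := Finset.sum_le_sum_of_subset_of_nonneg (t := Finset.range (M + 1))
    (s := Finset.Ico j j') (fun k hk => by rw [Finset.mem_Ico] at hk; rw [Finset.mem_range]; omega)
    fun k _ _ => k0 i k
  have k5 := Finset.single_le_sum (f := fun i' => ∑ k ∈ Finset.range (M + 1),
    (((jn F i j τ lam d).τ i' k : ℝ) - F.τ i' k))
    (fun i' _ => Finset.sum_nonneg fun k _ => k0 i' k) (Finset.mem_univ i)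
  simp only [Finset.sum_sub_distrib] at k3 k4 k5
  unfold tot
  nlinarith

theorem tot_bd [Fintype I] {τ : I → ℕ → ℕ} {M : ℕ} {C : ℝ} (hM : (1 : ℝ) ≤ M)
    (h : ∀ i k, (τ i k : ℝ) ≤ C * M) : |tot τ M / (M : ℝ) ^ 2| ≤ Fintype.card I * (2 * |C|) := by
  have h0 : 0 ≤ tot τ M := Finset.sum_nonneg fun _ _ => Finset.sum_nonneg fun _ _ => by positivity
  rw [abs_of_nonneg (by positivity), div_le_iff₀ (by positivity), mul_assoc]
  refine (Finset.sum_le_card_nsmul _ _ (2 * |C| * (M : ℝ) ^ 2) fun i _ => ?_).trans (by simp)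
  refine (Finset.sum_le_card_nsmul _ _ (|C| * M) fun k _ => (h i k).trans
    (mul_le_mul_of_nonneg_right (le_abs_self C) (by positivity))).trans ?_
  rw [Finset.card_range, nsmul_eq_mul]
  push_cast
  nlinarith [mul_nonneg (abs_nonneg C) (zero_le_one.trans hM)]

end Fin

variable {N : ℕ} {Ω : ℕ → Type} {I : Type}

/-- A member with a family. -/
abbrev St (s : ∀ n, I → Shp (Ω n)) (n : ℕ) : Type 1 :=
  Σ x : Ext (Ω n), Fam fun i => (s n i).pull x.ρ

theorem cf_fam (g : Gs N Ω) (M : ℕ → ℕ) (s : ∀ n, I → Shp (Ω n)) (p : ℕ → I → ℕ) :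
    CF fun x : ∀ n, St s n => FamOK (fun n => (x n).1.Q) (fun n => (g n).pull (x n).1.ρ) M
      (fun n => (x n).2) p := by
  have h1 := cf_sub (S := St s) (fun n _ => M n) fun n x L => x.2.Alg x.1.Q (p n) L
  have h2 := cf_leU (S := St s) (A := fun _ _ => ℕ) (fun _ _ _ => True) (fun _ _ => ⟨0, trivial⟩)
    (fun n _ => M n) (fun n x j => ((g n).pull x.1.ρ).hk x.1.Q j (x.2.S j)) fun _ _ _ => 0
  have h3 := cf_leU (S := St s) (A := fun _ _ => ℕ) (fun _ _ _ => True) (fun _ _ => ⟨0, trivial⟩)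
    (fun n _ => M n) (fun n x j => ((g n).pull x.1.ρ).lk x.1.Q (x.2.S j)) fun _ _ _ => 0
  exact (h1.and (h2.and h3)).congr fun x =>
    ⟨fun h => ⟨h.alg, fun j _ => (h.lab j).h, fun j _ => (h.lab j).l⟩,
      fun h => ⟨h.1, fun j => ⟨h.2.1 j fun _ => trivial, h.2.2 j fun _ => trivial⟩⟩⟩

end OptEA

open OptEA

theorem rowOptE : OfOptE := by
  intro H kc N Ω I _ K g M s p C hK hM ok hp ⟨X₀, L₀, d₀, hX₀, hL₀, hf₀⟩
  have := Fintype.ofFinite I
  have cf := (hK.cf.comp fun n (x : St s n) => x.1).and (cf_fam g M s p)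
  obtain ⟨x, ⟨hx, hx'⟩, hmax⟩ := cf.sup (fun n x => tot x.2.τ (M n) / (M n : ℝ) ^ 2)
    (Fintype.card I * (2 * |C|))
    ⟨fun n => ⟨X₀ n, Unit, fun _ _ => (), fun i _ _ => d₀ n i, fun _ _ => 0⟩, hX₀,
      ⟨L₀, hL₀, hf₀.mono fun n a => ⟨fun _ _ _ _ _ _ => rfl, fun _ _ _ _ _ _ _ => rfl,
        fun i j v hv => (ok n i).monoj _ _ _ _ _ _ j.zero_le (a i v hv), fun _ => monotone_const,
        fun _ _ => Nat.zero_le _⟩⟩,
      fun j => ⟨Le.of_le fun n => mi_const _ _ _, Le.of_le fun n => mi_const _ _ _⟩⟩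
    fun x ⟨_, ⟨L, _, a⟩, _⟩ => by
      filter_upwards [a, hM.ev 1] with n a b
      exact tot_bd b fun i k => le_trans (by exact_mod_cast a.le i k) (hp n i)
  refine ⟨fun n => (x n).1.W, fun n => (x n).1.ρ, fun n => (x n).2, _,
    (hK.map fun n => (x n).1.ρ).and (kc.fam (fun n => (g n).pull (x n).1.ρ) M _ (fun n => (x n).2)
      p hM), ⟨Mb.base fun n => (x n).1.Q, hx, hx'⟩, fun X h => h.1, fun X h => h.2, ?_⟩
  rintro i X j j' τ ε ⟨hX, ⟨L, hL, hA⟩, hl⟩ hε hj ⟨Λ, lam, d, L', hlam, hL', hd⟩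
  by_contra c
  obtain ⟨γ, hγ, c⟩ := not_Le c
  let G := X.G fun n => (g n).pull (x n).1.ρ
  let F := fun n => (x n).2.pull (X n).ρ
  have ok' : ∀ n i, (((s n i).pull (x n).1.ρ).pull (X n).ρ).OK (G n) := fun n i =>
    ⟨fun _ _ _ _ => (ok n i).monoL _ _ _ _, fun _ _ _ => (ok n i).monoj _ _ _,
      fun _ _ _ _ => (ok n i).core _ _ _ _⟩
  have lab := fun n k => jn_lab (P := (X n).Q) H (G n) (F n) i (j n) (τ n) k (lam n) (d n)
  have key := hmax (fun n => ⟨⟨_, glue (X n).Q (X n).Q (G n).core (G n).core,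
      fun v => (x n).1.ρ ((X n).ρ v.1)⟩, jn (F n) i (j n) (τ n) (lam n) (d n)⟩)
    ⟨hK.toCl0.fst hX fun n => (G n).core, ⟨_, hL.add hL' hM, by
      filter_upwards [hA, hd, hj] with n a b e
      exact jn_alg (ok' n) a b.1 b.2 e.2.2 (by linarith [hL'.1 n]) (by linarith [hL.1 n])⟩,
      fun k => ⟨(Sm.add (hl k).h hlam.h).mono (Eventually.of_forall fun n => (lab n (k n)).1),
        ((hl k).l.add hlam.l).mono (Eventually.of_forall fun n => (lab n (k n)).2)⟩⟩
    (ε * γ / 2) (by positivity)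
  obtain ⟨n, ⟨a, b⟩, ⟨e, u⟩, w⟩ := ((key.and c).and ((hj.and hA).and (hM.ev 1))).exists
  have t := jn_tot (F n) i (j n) (τ n) (j' n) (M n) (lam n) (d n) (u.mono i)
    (a := ε * M n) (b := γ * M n) (by positivity) (by positivity) e.1 e.2.1 b.le
  have h2 : (0 : ℝ) < (M n : ℝ) ^ 2 := by positivity
  rw [div_add' _ _ _ h2.ne', div_le_div_iff_of_pos_right h2] at a
  have h3 : 0 < ε * γ * (M n : ℝ) ^ 2 := by positivity
  change tot (x n).2.τ (M n) + _ ≤ _ at t
  nlinarith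

end Pool.Agent.MP_5168f5_an.R4
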