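import Pool.Agent.MP_5168f5_an.R4.Api

/-! Optimality with small errors. -/

namespace Pool.Agent.MP_5168f5_an.R4

open H19 H17S H17F Filter

namespace OptUA

/-- The data of a label on a refinement. -/
structure Dat (V D : Type) : Type 1 where
  W : Type
  Λ : Type
  Q : FP W
  f : W → V
  lam : W → Λ
  d : W → D
  L : ℝ
  j : ℕ
  j' : ℕ
  τ : ℕ

end OptUA

open OptUA in
theorem rowOptU : OptU := by
  intro N Ω I K g M s F p X i C ε hK hM ho hX hε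
  have : ∀ n, Nonempty (Dat (X n).W (s n i).D) := fun n =>
    ⟨⟨_, Unit, (X n).Q, id, fun _ => (), fun v => (F n).d i 0 ((X n).ρ v), 0, 0, 0, 0⟩⟩
  obtain ⟨δ, hδ, h⟩ := unif2 (A := fun n => Dat (X n).W (s n i).D)
    (h := fun n a δ => (((X.G g n).pull a.f).hk a.Q a.j a.lam ≤ δ * M n ∧
      ((X.G g n).pull a.f).lk a.Q a.lam ≤ δ * M n ∧ a.L ≤ Real.exp (δ * M n)) ∧
      K31.Dn C a.Q a.f (X n).Q ∧ 1 ≤ a.L ∧ Fn a.Q a.d a.lam ∧
      (∀ v ∈ a.Q.S, (s n i).fit a.L (a.d v) ((X n).ρ (a.f v)) a.j a.τ) ∧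
      a.j + ε * M n ≤ a.j' ∧ a.j' ≤ M n ∧ a.τ ≤ p n i)
    (p := fun n a => (a.τ : ℝ) ≤ (F n).τ i a.j' + ε * M n)
    (fun n a δ δ' e h =>
      have e' := mul_le_mul_of_nonneg_right e (Nat.cast_nonneg (α := ℝ) (M n))
      ⟨⟨h.1.1.trans e', h.1.2.1.trans e', h.1.2.2.trans (Real.exp_le_exp.2 e')⟩, h.2⟩)
    fun a h => by
      have h1 := (h 1 one_pos).mono fun n c => c.2
      obtain ⟨L, l1, l2⟩ := (sub_iff (M := M) (p := fun n L => L = (a n).L)).2 fun δ hδ =>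
        (h δ hδ).mono fun n c => ⟨_, c.2.2.1, c.1.2.2, rfl⟩
      refine ho.opt i (X.ext (fun n => (a n).Q) fun n => (a n).f) (fun n => (a n).j)
        (fun n => (a n).j') (fun n => (a n).τ) ε
        (hK.dn hX ⟨C, h1.exists.choose_spec.1.one_le, h1.mono fun n c => c.1⟩) hε
        (h1.mono fun n c => c.2.2.2.2) ⟨fun n => (a n).Λ, fun n => (a n).lam, fun n => (a n).d, L,
          ⟨fun δ hδ => (h δ hδ).mono fun n c => c.1.1.trans_eq (zero_add _).symm,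
            fun δ hδ => (h δ hδ).mono fun n c => c.1.2.1.trans_eq (zero_add _).symm⟩, l1, ?_⟩ ε hε
      filter_upwards [h1, l2] with n c e
      exact ⟨c.2.2.1, e ▸ c.2.2.2.1⟩
  exact ⟨δ, hδ, h.mono fun n c W Λ Q f lam d L j j' τ a1 a2 a3 a4 a5 a6 a7 a8 a9 a10 =>
    c ⟨W, Λ, Q, f, lam, d, L, j, j', τ⟩ ⟨⟨a2, a3, a5⟩, a1, a4, a6, a7, a8, a9, a10⟩⟩

end Pool.Agent.MP_5168f5_an.R4
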