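import Pool.Agent.MP_5168f5_an.R4.SpecK

/-! Kakeya sets in four dimensions: planarity by iteration of one step. -/

namespace Pool.Agent.MP_5168f5_an.R4

open H19 H17S H17F Filter

namespace PLA

/-- One step of the chain. -/
theorem step {Ω T : Type} (P : FP Ω) (e p : Ω → ℝ) (z : Ω → T) {lo a a' b b' r : ℕ}
    (ha : a' ≤ a + r) (hb : b ≤ b') :
    ch P (fun v => fl1 a' (e v)) (fun v => (fl1 lo (e v), fl1 b' (p v), z v)) ≤
      ch P (fun v => fl1 a (e v)) (fun v => (fl1 lo (e v), fl1 b' (p v), z v)) +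
        ch P (fun v => fl1 (a + r) (e v)) fun v => (fl1 a (e v), fl1 b (p v), z v) := by
  refine (ch_tri _ (fun v => fl1 a (e v)) _).trans (add_le_add le_rfl (ch_le ?_ ?_))
  · intro x _ y _ h
    exact fl1_eq_of_le ha (congrArg Prod.fst h)
  · intro x _ y _ h
    simp only [Prod.mk.injEq] at h ⊢
    exact ⟨h.1, fl1_eq_of_le hb h.2.2.1, h.2.2.2⟩

/-- A bounded number of steps covers the scale. -/
theorem cover {ε c : ℝ} {k M s : ℕ} (hε : 0 < ε) (hc : 0 < c) (hk : 4 / (ε * c) ≤ k)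
    (hM : 4 / (ε * c) ≤ M) (hs : c * M ≤ s) : M ≤ k * ⌊ε * s / 2⌋₊ := by
  have h0 : 0 < ε * c := mul_pos hε hc
  rw [div_le_iff₀ h0] at hk hM
  have h1 := Nat.lt_floor_add_one (ε * s / 2)
  have h2 : ε * (c * M) ≤ ε * s := mul_le_mul_of_nonneg_left hs hε.le
  have h3 : ε * c * M / 4 ≤ (⌊ε * s / 2⌋₊ : ℝ) := by nlinarith
  have h4 : (k : ℝ) * (ε * c * M / 4) ≤ k * (⌊ε * s / 2⌋₊ : ℝ) :=
    mul_le_mul_of_nonneg_left h3 (Nat.cast_nonneg k)
  have h5 : 4 * (M : ℝ) ≤ k * (ε * c) * M := mul_le_mul_of_nonneg_right hk (Nat.cast_nonneg M)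
  have h6 : (M : ℝ) ≤ k * (⌊ε * s / 2⌋₊ : ℝ) := by nlinarith
  exact_mod_cast h6

end PLA

theorem rowPL : OfPL := by
  intro h1 N Ω K g M lo hi q s i ε₀ X hK hB hX hε hs hq hN
  obtain ⟨-, c, hc, hcs⟩ := hs
  have hM : Big M := (hB X hX).big
  have key : ∀ k : ℕ, Sm M fun n =>
      ch (X n).Q (fun v => fl1 (min (q n) (lo n + k * ⌊ε₀ * s n / 2⌋₊)) ((X.G g n).e v i)) fun v =>
        (fl1 (lo n) ((X.G g n).e v i), fl1 (q n + s n) ((X.G g n).pt v i), (X.G g n).zt v) := by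
    intro k
    induction k with
    | zero =>
      refine Le.of_le fun n => le_of_eq (ch_zero fun x _ y _ h => ?_)
      exact fl1_eq_of_le ((min_le_right _ _).trans (by simp)) (congrArg Prod.fst h)
    | succ k ih =>
      have h2 := h1 K g M (fun n => min (q n) (lo n + k * ⌊ε₀ * s n / 2⌋₊)) s
        (fun n => ⌊ε₀ * s n / 2⌋₊) i ε₀ (ε₀ * c / 2) X hK hB hX (by positivity) ?_ ?_
      · refine (ih.add h2).mono (Eventually.of_forall fun n => ?_)
        refine PLA.step _ _ _ _ ?_ (Nat.add_le_add_right (min_le_left _ _) _)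
        rw [Nat.succ_mul]; omega
      · filter_upwards [hcs] with n hn
        refine ⟨?_, ?_⟩
        · have := hq n
          omega
        · have h3 : (⌊ε₀ * s n / 2⌋₊ : ℝ) ≤ ε₀ * s n / 2 := Nat.floor_le (by positivity)
          have h4 : ε₀ * (c * M n) ≤ ε₀ * s n := mul_le_mul_of_nonneg_left hn hε.le
          nlinarith
      · intro Y hY
        refine (hN Y hY (fun n => min (q n) (lo n + k * ⌊ε₀ * s n / 2⌋₊))
          (fun n => min (q n) (lo n + k * ⌊ε₀ * s n / 2⌋₊) + s n) fun n => ?_).trans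
            (Le.of_le fun n => le_of_eq ?_)
        · have := hq n
          omega
        · rw [Nat.cast_add]; ring
  obtain ⟨k, hk⟩ := exists_nat_ge (4 / (ε₀ * c))
  refine (key k).mono ?_
  filter_upwards [hcs, hM.ev (4 / (ε₀ * c))] with n a b
  have h3 := PLA.cover hε hc hk b a
  have h4 := hq n
  rw [min_eq_left (by omega)]

end Pool.Agent.MP_5168f5_an.R4
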