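import Pool.Agent.MP_5168f5_an.R4.SpecK

/-! Kakeya sets in four dimensions: one step of planarity. -/

namespace Pool.Agent.MP_5168f5_an.R4

open H19 H17S H17F Filter

namespace PL1A

section Fin

variable {N : ℕ} {Ω β : Type} {P : FP Ω} {g : Geo N Ω} {L : ℝ} {i : Fin N} {q s r M : ℕ}

/-- The fine height and the point. -/
noncomputable def Yv (g : Geo N Ω) (i : Fin N) (M k : ℕ) (ω : Ω) : ℤ × ℤ :=
  (fl1 M (g.z ω), fl1 k (g.pt ω i))

/-- The context and the coarse line. -/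
noncomputable def Th (g : Geo N Ω) (i : Fin N) (q : ℕ) (ω : Ω) : g.T × ℤ × ℤ :=
  (g.θ ω, fl1 q (g.e ω i), fl1 q (g.a ω i))

/-- The data shared by the copies. -/
noncomputable abbrev Bv (g : Geo N Ω) (i : Fin N) (M k q : ℕ) (ω : Ω) : (ℤ × ℤ) × g.T × ℤ × ℤ :=
  (Yv g i M k ω, Th g i q ω)

theorem pt_eq (g : Geo N Ω) (i : Fin N) (ω : Ω) : g.pt ω i = g.a ω i + g.z ω * g.e ω i := rfl

theorem lt_div {j k : ℕ} (h : j ≤ k) {x y : ℝ} (e : fl1 k x = fl1 k y) : |x - y| ≤ 1 / 2 ^ j := by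
  rw [one_div]; exact (abs_sub_lt_of_fl1_eq (fl1_eq_of_le h e)).le

theorem abs_lin {x y z δ : ℝ} (hx : |x| ≤ 1 / δ) (hy : |y| ≤ 1 / δ) (h0 : 0 ≤ z) (h1 : z < 1) :
    |x + z * y| ≤ 2 / δ := by
  have h2 : |z * y| ≤ 1 / δ := by
    rw [abs_mul, abs_of_nonneg h0]
    exact (mul_le_of_le_one_left (abs_nonneg _) h1.le).trans hy
  have h3 := abs_add_le x (z * y)
  have h4 : 2 / δ = 1 / δ + 1 / δ := by ring
  linarith

theorem det_ref {x : Ω → ℝ} {G : Ω → β} {j : ℕ} (k : ℕ) (h : Fn P (fun ω => fl1 j (x ω)) G) :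
    Det P (fun ω => fl1 (j + k) (x ω)) G (2 ^ k) := fun a ha =>
  ⟨Finset.Ico (2 ^ k * fl1 j (x a)) (2 ^ k * fl1 j (x a) + 2 ^ k), by
    rw [Int.card_Ico, add_sub_cancel_left]
    have : ((2 : ℤ) ^ k).toNat = 2 ^ k := by
      rw [show (2 : ℤ) ^ k = ((2 ^ k : ℕ) : ℤ) by push_cast; rfl, Int.toNat_natCast]
    rw [this]; push_cast; exact le_rfl, fun b hb e => fl1_mem_Ico (h b hb a ha e)⟩

theorem det_z {Ω' : Type} {Q : FP Ω'} {f : Ω' → Ω} (h : g.Bx P L) (hf : ∀ v ∈ Q.S, f v ∈ P.S)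
    (G : Ω' → β) (M : ℕ) : Det Q (fun v => fl1 M (g.z (f v))) G (2 ^ M) := by
  have h1 := det_ref (P := Q) (x := fun v => g.z (f v)) (G := G) (j := 0) M fun a ha b hb _ => by
    have h2 := (h.bd _ (hf a ha)).2
    have h3 := (h.bd _ (hf b hb)).2
    exact (fl1_zero_of_box h2.1 h2.2).trans (fl1_zero_of_box h3.1 h3.2).symm
  simpa only [zero_add] using h1

theorem step (h : g.Bx P L) :
    ch P (fun ω => fl1 (q + r) (g.e ω i))
      (fun ω => (fl1 q (g.e ω i), fl1 (q + s) (g.pt ω i), g.zt ω)) ≤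
    ch P (fun ω => fl1 (q + r) (g.e ω i)) (Bv g i M (q + s) q) + Real.log 7 := by
  refine (ch_tri' _ _ (Bv g i M (q + s) q)).trans (add_le_add le_rfl ?_)
  refine (ch_mono (F' := fun ω => fl1 q (g.a ω i)) fun a _ b _ e => ?_).trans
    ((ch_near1 (L := 2) (by norm_num) fun a ha b _ e => ?_).trans (by norm_num))
  · simp only [Bv, Yv, Th, Geo.zt, Prod.mk.injEq] at e ⊢
    obtain ⟨e1, e2, e3, e4, e5⟩ := e
    exact ⟨⟨by rw [e4], e3⟩, e5, e2, e1⟩
  · simp only [Geo.zt, Prod.mk.injEq] at e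
    obtain ⟨e2, e3, e4, -⟩ := e
    have h1 := lt_div (Nat.le_add_right q s) e3
    have h2 := lt_div le_rfl e2.symm
    have h3 := abs_lin h1 h2 (h.bd a ha).2.1 (h.bd a ha).2.2
    have h4 : g.a a i - g.a b i = g.pt a i - g.pt b i + g.z a * (g.e b i - g.e a i) := by
      rw [pt_eq, pt_eq, e4]; ring
    rw [h4]; exact h3

theorem det_b : Det P (fun ω => fl1 (q + r) (g.e ω i)) (Bv g i M (q + s) q) (2 ^ r) :=
  det_ref r fun _ _ _ _ e => congrArg (·.2.2.1) e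

theorem fn_th : Fn P (Th g i q) g.ln := fun a _ b _ e => by
  simp only [Geo.ln, Prod.mk.injEq] at e
  simp only [Th, e.1, e.2.1, e.2.2]

theorem low (k : ℕ) : ch P (fun ω => fl1 M (g.z ω)) g.θ ≤
    ch P (Yv g i M k) (fun ω => (g.ln ω, Th g i q ω)) + mi P g.z g.ln g.θ := by
  have h1 : ch P (fun ω => fl1 M (g.z ω)) g.θ ≤ ch P (fun ω => fl1 M (g.z ω))
      (fun ω => (g.ln ω, Th g i q ω)) + mi P (fun ω => fl1 M (g.z ω)) g.ln g.θ :=
    ch_le_mi ((Fn.fst _ _).pair (fn_th.left _))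
  have h2 : mi P (fun ω => fl1 M (g.z ω)) g.ln g.θ ≤ mi P g.z g.ln g.θ :=
    mi_mono' ((Fn.comp (fl1 M) g.z).left _)
  have h3 : ch P (fun ω => fl1 M (g.z ω)) (fun ω => (g.ln ω, Th g i q ω)) ≤
      ch P (Yv g i M k) fun ω => (g.ln ω, Th g i q ω) :=
    ch_mono fun _ _ _ _ e => congrArg (·.1.1) e
  linarith

/-- The line and the fine height give the point. -/
theorem near_pt (h : g.Bx P L) {k : ℕ} (hk : k ≤ M) {a b : Ω} (ha : a ∈ P.S) (e : g.ln a = g.ln b)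
    (ez : fl1 M (g.z a) = fl1 M (g.z b)) : |g.pt a i - g.pt b i| ≤ L / 2 ^ k := by
  simp only [Geo.ln, Prod.mk.injEq] at e
  have h1 : g.pt a i - g.pt b i = g.e a i * (g.z a - g.z b) := by
    rw [pt_eq, pt_eq, e.1, e.2.1]; ring
  have h2 := ((h.bd a ha).1 i).2
  rw [h1, abs_mul, div_eq_mul_one_div]
  exact mul_le_mul h2 (lt_div hk ez) (abs_nonneg _) ((abs_nonneg _).trans h2)

theorem up (h : g.Bx P L) (hL : 0 ≤ L) {k : ℕ} (hk : k ≤ M) :
    ch P (Yv g i M k) (Th g i q) ≤ M * lg +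
      ch P (fun ω => fl1 k (g.pt ω i)) (fun ω => (fl1 q (g.pt ω i), g.zt ω)) +
      mi P g.z g.ln g.θ + Real.log (2 * L + 3) + Real.log 7 := by
  have h1 : ch P (Yv g i M k) (Th g i q) = ch P (fun ω => fl1 M (g.z ω)) (Th g i q) +
      ch P (fun ω => fl1 k (g.pt ω i)) fun ω => (fl1 M (g.z ω), Th g i q ω) := ch_chain _ _ _
  have h2 : ch P (fun ω => fl1 M (g.z ω)) (Th g i q) ≤ M * lg :=
    (ch_det (det_z (f := id) h (fun _ hv => hv) _ M)).trans (log_two_pow M).le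
  have h3 : ch P (fun ω => fl1 k (g.pt ω i)) (fun ω => (fl1 M (g.z ω), Th g i q ω)) ≤
      ch P (fun ω => fl1 k (g.pt ω i)) (fun ω => (g.z ω, Th g i q ω)) +
      mi P (fun ω => fl1 k (g.pt ω i)) g.z fun ω => (fl1 M (g.z ω), Th g i q ω) :=
    ch_le_mi fun a _ b _ e => by simp only [Prod.mk.injEq] at e ⊢; tauto
  have h4 := mi_symm (P := P) (fun ω => fl1 k (g.pt ω i)) g.z
    fun ω => (fl1 M (g.z ω), Th g i q ω)
  have h5 := mi_near (P := P) g.z (fun ω => fl1 k (g.pt ω i)) g.ln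
    fun ω => (fl1 M (g.z ω), Th g i q ω)
  have h6 : ch P (fun ω => fl1 k (g.pt ω i)) (fun ω => (g.ln ω, fl1 M (g.z ω), Th g i q ω)) ≤
      Real.log (2 * L + 3) := ch_near1 hL fun a ha b _ e =>
    near_pt h hk ha (congrArg (·.1) e) (congrArg (·.2.1) e)
  have h7 : mi P g.z g.ln (fun ω => (fl1 M (g.z ω), Th g i q ω)) ≤ mi P g.z g.ln (Th g i q) :=
    mi_left (Fn.snd _ _) (((Fn.comp (fl1 M) g.z).left _).pair (Fn.snd _ _)) (Fn.fst _ _)
  have h8 : mi P g.z g.ln (Th g i q) ≤ mi P g.z g.ln g.θ :=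
    mi_cond (fun _ _ _ _ e => congrArg (·.1) e) (fn_th.left _)
  have h9 := ch_tri' (P := P) (fun ω => fl1 k (g.pt ω i)) (fun ω => (g.z ω, Th g i q ω))
    fun ω => (fl1 q (g.pt ω i), g.zt ω)
  have h10 : ch P (fun ω => (fl1 q (g.pt ω i), g.zt ω)) (fun ω => (g.z ω, Th g i q ω)) ≤
      Real.log 7 := by
    refine (ch_mono (F' := fun ω => fl1 q (g.pt ω i)) fun a _ b _ e => ?_).trans
      ((ch_near1 (L := 2) (by norm_num) fun a ha b _ e => ?_).trans (by norm_num))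
    · simp only [Th, Geo.zt, Prod.mk.injEq] at e ⊢
      exact ⟨e.1, e.2.1, e.2.2.1⟩
    · simp only [Th, Prod.mk.injEq] at e
      obtain ⟨e1, -, e2, e3⟩ := e
      have k3 := abs_lin (lt_div le_rfl e3) (lt_div le_rfl e2) (h.bd a ha).2.1 (h.bd a ha).2.2
      have k4 : g.pt a i - g.pt b i = g.a a i - g.a b i + g.z a * (g.e a i - g.e b i) := by
        rw [pt_eq, pt_eq, e1]; ring
      rw [k4]; exact k3
  linarith

/-- Two lines through the same small box. -/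
theorem meet (h : g.Bx P L) {k : ℕ} (hk : k ≤ M) {a b : Ω} (hb : b ∈ P.S)
    (e : Yv g i M k b = Yv g i M k a) :
    |g.a a i - g.a b i + g.z a * (g.e a i - g.e b i)| ≤ (1 + L) / 2 ^ k := by
  simp only [Yv, Prod.mk.injEq] at e
  have h1 := lt_div le_rfl e.2.symm
  have h2 := ((h.bd b hb).1 i).2
  have h3 : |g.e b i * (g.z b - g.z a)| ≤ L * (1 / 2 ^ k) := by
    rw [abs_mul]
    exact mul_le_mul h2 (lt_div hk e.1) (abs_nonneg _) ((abs_nonneg _).trans h2)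
  have h4 : g.a a i - g.a b i + g.z a * (g.e a i - g.e b i) =
      g.pt a i - g.pt b i + g.e b i * (g.z b - g.z a) := by rw [pt_eq, pt_eq]; ring
  have h5 := abs_add_le (g.pt a i - g.pt b i) (g.e b i * (g.z b - g.z a))
  have h6 : (1 + L) / 2 ^ k = 1 / 2 ^ k + L * (1 / 2 ^ k) := by ring
  rw [h4]; linarith

theorem cross_num {c d z z' A : ℝ} {m : ℕ} (hM : s + m = M)
    (h1 : |c + z * d| ≤ A / 2 ^ (q + s)) (h2 : |c + z' * d| ≤ A / 2 ^ (q + s))
    (hd : 1 / 2 ^ (q + r) ≤ |d|) : |z - z'| ≤ 2 * A * 2 ^ (m + r) / 2 ^ M := by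
  have h3 : |z - z'| * |d| ≤ 2 * A / 2 ^ (q + s) := by
    have k1 := abs_sub (c + z * d) (c + z' * d)
    have k2 : c + z * d - (c + z' * d) = (z - z') * d := by ring
    have k3 : 2 * A / 2 ^ (q + s) = A / 2 ^ (q + s) + A / 2 ^ (q + s) := by ring
    rw [k2, abs_mul] at k1; linarith
  have h4 := (mul_le_mul_of_nonneg_left hd (abs_nonneg (z - z'))).trans h3
  rw [mul_one_div, div_le_iff₀ (by positivity)] at h4
  refine h4.trans_eq ?_
  rw [← hM]; simp only [pow_add]; field_simp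

/-- Separated slopes. -/
def Ap (g : Geo N Ω) (i : Fin N) (k : ℕ) (v : Ω × Ω) : Prop :=
  fl1 k (g.e v.2 i) ∉ Finset.Icc (fl1 k (g.e v.1 i) - 1) (fl1 k (g.e v.1 i) + 1)

theorem Ap.le {k : ℕ} {v : Ω × Ω} (h : Ap g i k v) : 1 / 2 ^ k ≤ |g.e v.1 i - g.e v.2 i| := by
  by_contra hc
  refine h (fl1_mem_Icc (n := 1) ?_)
  rw [abs_sub_comm, Nat.cast_one, one_mul, ← one_div]
  exact (not_le.1 hc).le

theorem cross (h : g.Bx P L) (hL : 0 ≤ L) (hM : q + s ≤ M) :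
    ch (glue P P (Bv g i M (q + s) q) (Bv g i M (q + s) q)) (fun v => Yv g i M (q + s) v.1)
      (fun v => (g.ln v.1, g.ln v.2, Th g i q v.1)) ≤
    lg + 3 * Real.log (2 * L + 3) + (M - s + r) * lg +
      pb (glue P P (Bv g i M (q + s) q) (Bv g i M (q + s) q)) (fun v => ¬Ap g i (q + r) v) * M := by
  have hm := fun v => (kg.mem P P (Bv g i M (q + s) q) (Bv g i M (q + s) q) v (Law.rfl _)).1
  generalize glue P P (Bv g i M (q + s) q) (Bv g i M (q + s) q) = Q at hm ⊢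
  obtain ⟨m, hm'⟩ := Nat.exists_eq_add_of_le ((Nat.le_add_left s q).trans hM)
  have h1 : ch Q (fun v => Yv g i M (q + s) v.1) (fun v => (g.ln v.1, g.ln v.2, Th g i q v.1)) =
      ch Q (fun v => fl1 M (g.z v.1)) (fun v => (g.ln v.1, g.ln v.2, Th g i q v.1)) +
      ch Q (fun v => fl1 (q + s) (g.pt v.1 i))
        fun v => (fl1 M (g.z v.1), g.ln v.1, g.ln v.2, Th g i q v.1) := ch_chain _ _ _
  have h2 : ch Q (fun v => fl1 (q + s) (g.pt v.1 i))
      (fun v => (fl1 M (g.z v.1), g.ln v.1, g.ln v.2, Th g i q v.1)) ≤ Real.log (2 * L + 3) :=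
    ch_near1 hL fun a ha b _ e =>
      near_pt h hM (hm a ha).1 (congrArg (·.2.1) e) (congrArg (·.1) e)
  have hp : (1 : ℝ) ≤ 2 ^ (m + r) := one_le_pow₀ one_le_two
  have h3 := ke.sparse Q (Ap g i (q + r)) (fun v => fl1 M (g.z v.1))
    (fun v => (g.ln v.1, g.ln v.2, Th g i q v.1)) (2 ^ M) ((2 * L + 3) ^ 2 * 2 ^ (m + r))
    (det_z h (fun v hv => (hm v hv).1) _ M) fun a ha => by
      refine ⟨Finset.Icc (fl1 M (g.z a.1) - (⌈2 * (1 + L) * 2 ^ (m + r)⌉₊ : ℕ))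
        (fl1 M (g.z a.1) + (⌈2 * (1 + L) * 2 ^ (m + r)⌉₊ : ℕ)), ?_, fun b hb e hE => ?_⟩
      · have k1 := Nat.ceil_lt_add_one (a := 2 * (1 + L) * 2 ^ (m + r)) (by positivity)
        rw [Int.card_Icc]
        generalize ⌈2 * (1 + L) * 2 ^ (m + r)⌉₊ = n at k1 ⊢
        have k2 : (fl1 M (g.z a.1) + n + 1 - (fl1 M (g.z a.1) - n)).toNat = 2 * n + 1 := by omega
        rw [k2]; push_cast
        nlinarith [mul_nonneg hL (zero_le_one.trans hp), mul_nonneg (sq_nonneg L)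
          (zero_le_one.trans hp)]
      · simp only [Geo.ln, Prod.mk.injEq] at e
        have k1 := meet h hM (hm a ha).2.1 (congrArg (·.1) (hm a ha).2.2)
        have k2 := meet h hM (hm b hb).2.1 (congrArg (·.1) (hm b hb).2.2)
        have k3 := hE.le
        rw [e.1.1, e.1.2.1, e.2.1.1, e.2.1.2.1] at k2
        rw [e.1.2.1, e.2.1.2.1] at k3
        refine fl1_mem_Icc ((cross_num hm'.symm k2 k1 k3).trans ?_)
        rw [div_eq_mul_inv]
        exact mul_le_mul_of_nonneg_right (Nat.le_ceil _) (by positivity)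
  have h4 : Real.log ((2 * L + 3) ^ 2 * 2 ^ (m + r)) =
      2 * Real.log (2 * L + 3) + (M - s + r) * lg := by
    rw [Real.log_mul (by positivity) (by positivity), log_two_pow, Real.log_pow, hm']
    push_cast; ring
  have h5 : 0 ≤ Real.log ((2 * L + 3) ^ 2 * 2 ^ (m + r)) :=
    Real.log_nonneg (one_le_mul_of_one_le_of_one_le (one_le_pow₀ (by linarith)) hp)
  have h6 := mul_le_of_le_one_left h5 (pb_le_one Q (Ap g i (q + r)))
  have h7 : pb Q (fun v => ¬Ap g i (q + r) v) * Real.log (2 ^ M) ≤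
      pb Q (fun v => ¬Ap g i (q + r) v) * M := by
    refine mul_le_mul_of_nonneg_left ?_ (pb_nonneg _ _)
    rw [log_two_pow]
    exact mul_le_of_le_one_right (Nat.cast_nonneg M) lg_lt_one.le
  rw [← pb_not] at h3
  linarith

theorem fin (k2 : KF2) (h : g.Bx P L) (hL : 0 ≤ L) (hM : q + s ≤ M) :
    2 * ch P (fun ω => fl1 M (g.z ω)) g.θ ≤ 3 * mi P g.z g.ln g.θ + (2 * M - s + r) * lg +
      ch P (fun ω => fl1 (q + s) (g.pt ω i)) (fun ω => (fl1 q (g.pt ω i), g.zt ω)) +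
      4 * Real.log (2 * L + 3) + (lg + Real.log 7) +
      pb (glue P P (Bv g i M (q + s) q) (Bv g i M (q + s) q)) (fun v => ¬Ap g i (q + r) v) * M := by
  have h1 := k2.cor P (Yv g i M (q + s)) g.ln (Th g i q)
  have h2 := cross (i := i) (r := r) h hL hM
  have h3 := up (i := i) (q := q) h hL hM
  have h4 := low (P := P) (g := g) (i := i) (q := q) (M := M) (q + s)
  linarith

end Fin

end PL1A

open PL1A in
theorem rowPL1 : OfPL1 := by
  intro k2 _ sp N Ω K g M q s r i ε₀ ε X hK hB hX hε hq hN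
  by_contra hc
  have hb := hB X hX
  obtain ⟨L₀, -, hL₀⟩ := hb.bx
  have h1 : ¬Sm M fun n => ch (X n).Q (fun v => fl1 (q n + r n) ((X.G g n).e v i))
      (Bv (X.G g n) i (M n) (q n + s n) (q n)) := fun h =>
    hc ((h.add (hb.big.sm (Real.log 7))).mono (hL₀.mono fun n hn => step hn))
  obtain ⟨E, hE, hS⟩ := sp X.P (fun n v => fl1 (q n + r n) ((X.G g n).e v i))
    (fun n => Bv (X.G g n) i (M n) (q n + s n) (q n)) M |ε₀| hb.big (hq.mono fun n hn a ha => by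
      refine (det_b a ha).imp fun T hT => ⟨hT.1.trans ((two_pow_le_exp _).trans ?_), hT.2⟩
      have k1 : (s n : ℝ) ≤ M n := by exact_mod_cast (Nat.le_add_left _ _).trans hn.1
      have k2 : ε₀ * s n ≤ |ε₀| * M n :=
        mul_le_mul (le_abs_self _) k1 (Nat.cast_nonneg _) (abs_nonneg _)
      have k3 : 0 ≤ ε * M n := by positivity
      exact Real.exp_le_exp.2 (by linarith [hn.2])) h1
  have hW := hS (fun n v => Finset.Icc (fl1 (q n + r n) ((X.G g n).e v i) - 1)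
    (fl1 (q n + r n) ((X.G g n).e v i) + 1)) (fun _ => 3) (hb.big.sub (by norm_num))
    (Eventually.of_forall fun n v => by
      rw [Int.card_Icc]
      have : (fl1 (q n + r n) ((X.G g n).e v i) + 1 + 1 -
        (fl1 (q n + r n) ((X.G g n).e v i) - 1)).toNat = 3 := by omega
      rw [this]; norm_num)
  have hX' := hK.cond X E hX hE
  have hb' := hB _ hX'
  obtain ⟨L, hL, hL'⟩ := hb'.bx
  have hp : Sm M fun n => pb (glue (cE (X n).Q (E n)) (cE (X n).Q (E n))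
      (Bv (X.G g n) i (M n) (q n + s n) (q n)) (Bv (X.G g n) i (M n) (q n + s n) (q n)))
      (fun v => ¬Ap (X.G g n) i (q n + r n) v) * M n := fun δ hδ =>
    (hW δ hδ).mono fun n hn => by
      rw [zero_add]; exact mul_le_mul_of_nonneg_right hn (Nat.cast_nonneg _)
  have h2 : Le M (fun n => ε₀ * s n * lg) fun n => r n * lg := by
    refine Le.of6 (hb'.hgt.smul zero_le_two) (hb'.inf.smul (c := 3) (by norm_num)) (hN _ hX')
      (hL.log3 hb.big 4) (hb.big.sm (lg + Real.log 7)) hp ?_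
    filter_upwards [hq, hL'] with n hn hx
    have k1 := fin (i := i) (r := r n) k2 hx (hL.pos n).le hn.1
    linarith
  refine h2.false hb.big (mul_pos hε lg_pos) (hq.mono fun n hn => ?_)
  have k1 := mul_le_mul_of_nonneg_right hn.2 lg_pos.le
  linarith

end Pool.Agent.MP_5168f5_an.R4
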