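import Pool.Agent.MP_5168f5_an.R4.SpecK

/-! Copies given a variable without leak have separated slopes. -/

namespace Pool.Agent.MP_5168f5_an.R4

open H19 H17S H17F Filter

namespace SepA

theorem fin (h : KF2) {N : ℕ} {Ω Φ : Type} (P : FP Ω) (g : Geo N Ω) (φ : Ω → Φ) (i : Fin N)
    (α : ℕ) (E : Ω × Ω → Prop) (hE : ∃ v ∈ (glue P P φ φ).S, E v)
    (near : ∀ v, E v → |g.e v.1 i - g.e v.2 i| ≤ 1 / 2 ^ α) :
    pb (glue P P φ φ) E * ch (cE (glue P P φ φ) E) (fun v => fl1 α (g.e v.1 i))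
      (fun v => g.y v.1) ≤ Real.log (2 * 2 + 3) + g.lk P φ + lg := by
  have a1 : ch (cE (glue P P φ φ) E) (fun v => fl1 α (g.e v.1 i)) (fun v => v.2) ≤
      Real.log (2 * 2 + 3) := by
    refine ch_near1 (by norm_num) fun a ha b hb e => ?_
    have u := near a ((mem_cE hE a).1 ha).2
    have v := near b ((mem_cE hE b).1 hb).2
    rw [← e, abs_sub_comm] at v
    have := abs_sub_le (g.e a.1 i) (g.e a.2 i) (g.e b.1 i)
    rw [show (2 : ℝ) / 2 ^ α = 1 / 2 ^ α + 1 / 2 ^ α by ring]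
    linarith
  have a2 := ch_le_mi (P := cE (glue P P φ φ) E) (F := fun v => fl1 α (g.e v.1 i))
    (G := fun v => v.2) (K := fun v => g.y v.1) (K' := fun v => v.2) (Fn.fst _ _)
  have a3 := K31.mi_le_event (glue P P φ φ) E (fun v => fl1 α (g.e v.1 i)) (fun v => v.2)
    fun v => g.y v.1
  have a4 := mi_mono (P := glue P P φ φ) (F := fun v => fl1 α (g.e v.1 i)) (G := fun v => v.2)
    (G' := fun v => (φ v.1, v.2)) (K := fun v => g.y v.1) ((Fn.snd _ _).left _)
  have a5 := h.copy P φ (fun ω => fl1 α (g.e ω i)) id (fun ω => (φ ω, g.y ω)) (Fn.fst _ _)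
  have a6 := (kg.fst P P φ φ).mi_id (fun ω => fl1 α (g.e ω i)) φ g.y
  have a7 : mi P (fun ω => fl1 α (g.e ω i)) φ g.y ≤ g.lk P φ := by
    rw [Geo.lk, mi_symm φ]
    exact mi_mono' fun a _ b _ e => by
      rw [show g.e a = g.e b from congrArg (·.1.1.2.1) e]
  rw [mi_chain, mi_symm _ (fun v : Ω × Ω => v.2) fun v => (φ v.1, g.y v.1)] at a4
  have p0 := pb_nonneg (glue P P φ φ) E
  have p1 := pb_le_one (glue P P φ φ) E
  have l0 : 0 ≤ Real.log (2 * 2 + 3) := Real.log_nonneg (by norm_num)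
  simp only [id] at a5
  nlinarith [mul_le_mul_of_nonneg_left (a2.trans (add_le_add_left a1 _)) p0]

end SepA

theorem rowSep : OfSep := by
  intro h N Ω Φ K g M i η X φ hK hX hφ
  have hM := (hK.bs X hX).big
  refine ks.wsub _ (fun n (v : (X n).W × (X n).W) L =>
    1 ≤ L * |(X.G g n).e v.1 i - (X.G g n).e v.2 i|) M fun c c0 c1 => by_contra fun k => ?_
  have pos := not_whp k
  have fr := hM.frac_floor c0 c1
  generalize hE : (fun n (v : (X n).W × (X n).W) =>
    ¬1 ≤ Real.exp (c * M n) * |(X.G g n).e v.1 i - (X.G g n).e v.2 i|) = E at pos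
  have k1 : K (X.ext (fun n => glue (X n).Q (X n).Q (φ n) (φ n)) fun _ => Prod.fst) :=
    hK.cl0.law X _ hX (Eventually.of_forall fun n => (kg.fst _ _ _ _).comp (X n).ρ)
  have br := hK.br _ (hK.cl0.cond _ E k1 pos) (fun n => ⌊c * M n⌋₊) fr.1
  obtain ⟨κ, κ0, hκ⟩ := id pos
  have sm : Sm M fun n => ch (cE (glue (X n).Q (X n).Q (φ n) (φ n)) (E n))
      (fun v => fl1 ⌊c * M n⌋₊ ((X.G g n).e v.1 i)) fun v => (X.G g n).y v.1 := by
    refine Le.of_mul κ0 hκ (Le.of_sub (((hM.sm (Real.log (2 * 2 + 3))).add hφ).add (hM.sm lg))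
      (pos.ex.mono fun n hn => ?_))
    have := SepA.fin h (X n).Q (X.G g n) (φ n) i ⌊c * M n⌋₊ (E n) hn fun v hv => by
      have e : (2 : ℝ) ^ ⌊c * M n⌋₊ ≤ Real.exp (c * M n) :=
        (two_pow_le_exp _).trans (Real.exp_le_exp.2 (Nat.floor_le (by positivity)))
      subst hE
      rw [le_div_iff₀ (by positivity), mul_comm]
      exact (mul_le_mul_of_nonneg_right e (abs_nonneg _)).trans (not_le.1 hv).le
    linarith
  obtain ⟨-, b, b0, hb⟩ := fr
  refine (br.trans sm).false hM (mul_pos (mul_pos hK.pos b0) lg_pos) (hb.mono fun n hn => ?_)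
  have := mul_le_mul_of_nonneg_left hn (mul_pos hK.pos lg_pos).le
  linarith

end Pool.Agent.MP_5168f5_an.R4
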