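import Pool.Agent.MP_5168f5_an.R4.SpecK

/-! A thin shape for a derived system lifts. -/

namespace Pool.Agent.MP_5168f5_an.R4

open H19 H17S H17F Filter

theorem rowThinLift : OfThinLift := by
  intro ka N N' Ω Λ P g g' M j j' τ κ s ok hκ hF hy ⟨Λ', lam, d, L, hl, hL, hd⟩
  have m := fun n v => (kg.mem (P n) (P n) (g' n).core (g' n).core v fun _ => rfl).1
  have e := hF.mono fun n hn => ka.lab (P n) (g n) (g' n) (j n) (j' n) (κ n) (lam n) hn.1 hn.2
  refine ⟨fun n => Λ n × Λ' n, fun n v => (κ n v.1, lam n v.2), fun n v => d n v.2, L,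
    ⟨(Sm.add hκ.h hl.h).mono (e.mono fun n hn => hn.1),
      ((hκ.l.add hl.l).add hy).mono (e.mono fun n hn => hn.2)⟩, hL, hd.mono fun n hn =>
    ⟨fun a ha b hb h => Prod.ext (hn.1 _ (m n a ha).2.1 _ (m n b hb).2.1 (congrArg Prod.snd h))
      (congrArg Prod.fst h), fun v hv => ?_⟩⟩
  exact (ok n).core _ _ _ _ _ _ (m n v hv).2.2 (hn.2 _ (m n v hv).2.1)

end Pool.Agent.MP_5168f5_an.R4
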