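import Pool.Agent.MP_5168f5_an.R4.SpecK

/-! Kakeya sets in four dimensions: the broad coordinate is full given any label. -/

namespace Pool.Agent.MP_5168f5_an.R4

open H19 H17S H17F Filter

namespace XAA

section Fin

variable {N : ℕ} {Ω Λ A B C D : Type} {P : FP Ω}

/-- The entropy inequality: `l` line, `s` label, `θ` context, `z, t, t'` height at three
resolutions, `x, x'` coordinate at two resolutions. -/
theorem fin (h2 : KF2) {l : Ω → A} (s : Ω → Λ) {θ : Ω → B} {z : Ω → C} {t t' x x' : Ω → D}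
    (hθ : Fn P θ l) (ht : Fn P t' t) (hx : Fn P x' x) :
    2 * ch P t (fun ω => (t' ω, l ω, s ω)) ≤
      ch P x (fun ω => (x' ω, s ω, z ω, θ ω)) + ch P t t' +
      ch (glue P P (fun ω => ((t ω, x ω), s ω, θ ω, t' ω, x' ω))
          fun ω => ((t ω, x ω), s ω, θ ω, t' ω, x' ω)) (fun v => t v.1)
        (fun v => (l v.1, l v.2)) +
      mi P z (fun ω => (l ω, s ω)) (fun ω => (t ω, θ ω)) +
      2 * (ch P x' (fun ω => (l ω, t' ω)) + ch P x fun ω => (l ω, t ω)) := by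
  have c := h2.cor P (fun ω => (t ω, x ω)) l fun ω => (s ω, θ ω, t' ω, x' ω)
  set Q := glue P P (fun ω => ((t ω, x ω), s ω, θ ω, t' ω, x' ω))
    fun ω => ((t ω, x ω), s ω, θ ω, t' ω, x' ω) with hQ
  have a1 := ch_drop (P := P) t x' fun ω => (t' ω, l ω, s ω)
  have a2 : ch P t (fun ω => (x' ω, t' ω, l ω, s ω)) ≤
      ch P (fun ω => (t ω, x ω)) fun ω => (l ω, s ω, θ ω, t' ω, x' ω) :=
    ch_le (fun a _ b _ e => congrArg (·.1.1) e) fun a ha b hb e => by
      simp only [Prod.mk.injEq] at e ⊢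
      exact ⟨e.2.2.1, e.2.2.2, hθ a ha b hb e.2.2.1, e.2.1, e.1⟩
  have a3 : ch P x' (fun ω => (t' ω, l ω, s ω)) ≤ ch P x' fun ω => (l ω, t' ω) :=
    ch_anti fun a _ b _ e => by simp only [Prod.mk.injEq] at e ⊢; tauto
  have b1 := ch_chain (P := P) t x fun ω => (s ω, θ ω, t' ω, x' ω)
  have b2 : ch P t (fun ω => (s ω, θ ω, t' ω, x' ω)) ≤ ch P t t' :=
    ch_anti fun a _ b _ e => congrArg (·.2.2.1) e
  have c1 := ch_chain (P := Q) (fun v => t v.1) (fun v => x v.1) fun v =>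
    (l v.1, l v.2, s v.1, θ v.1, t' v.1, x' v.1)
  have c2 : ch Q (fun v => x v.1) (fun v => (t v.1, l v.1, l v.2, s v.1, θ v.1, t' v.1, x' v.1)) ≤
      ch P x fun ω => (l ω, t ω) :=
    (ch_anti fun a _ b _ e => by simp only [Prod.mk.injEq] at e ⊢; tauto).trans_eq
      ((kg.fst P P _ _).ch_id x fun ω => (l ω, t ω))
  have c3 : ch Q (fun v => t v.1) (fun v => (l v.1, l v.2, s v.1, θ v.1, t' v.1, x' v.1)) ≤
      ch Q (fun v => t v.1) fun v => (l v.1, l v.2) :=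
    ch_anti fun a _ b _ e => by simp only [Prod.mk.injEq] at e ⊢; tauto
  have d1 := ch_le_mi (P := P) (F := x) (G := z) (K := fun ω => (t ω, s ω, θ ω, t' ω, x' ω))
    (K' := fun ω => (x' ω, s ω, z ω, θ ω)) fun a _ b _ e => by
      simp only [Prod.mk.injEq] at e ⊢; tauto
  have d2 : mi P x z (fun ω => (t ω, s ω, θ ω, t' ω, x' ω)) ≤
      mi P (fun ω => ((l ω, s ω), x ω)) z fun ω => (t ω, θ ω) :=
    mi_left (fun a _ b _ e => by simp only [Prod.mk.injEq] at e ⊢; tauto) (fun a ha b hb e => by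
      simp only [Prod.mk.injEq] at e ⊢
      exact ⟨e.2.1, e.1.1.2, e.2.2, ht a ha b hb e.2.1, hx a ha b hb e.1.2⟩)
      fun a _ b _ e => congrArg (·.1.2) e
  have d3 := mi_near (P := P) z (fun ω => ((l ω, s ω), x ω)) (fun ω => (l ω, s ω)) fun ω =>
    (t ω, θ ω)
  have d4 : ch P (fun ω => ((l ω, s ω), x ω)) (fun ω => ((l ω, s ω), t ω, θ ω)) ≤
      ch P x fun ω => (l ω, t ω) :=
    ch_le (fun a _ b _ e => by simp only [Prod.mk.injEq] at e ⊢; tauto) fun a _ b _ e => by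
      simp only [Prod.mk.injEq] at e ⊢; tauto
  rw [mi_symm] at d3
  linarith

theorem list (j : ℕ) (y : ℝ) {L : ℝ} (hL : 0 ≤ L) : ∃ T : Finset ℤ, (T.card : ℝ) ≤ 2 * L + 3 ∧
    ∀ x : ℝ, |x - y| ≤ L / 2 ^ j → fl1 j x ∈ T := by
  refine ⟨Finset.Icc (fl1 j y - ⌈L⌉₊) (fl1 j y + ⌈L⌉₊), ?_, fun x hx => fl1_mem_Icc (hx.trans ?_)⟩
  · rw [show (Finset.Icc (fl1 j y - ⌈L⌉₊) (fl1 j y + ⌈L⌉₊)).card = 2 * ⌈L⌉₊ + 1 by
      rw [Int.card_Icc]; omega]
    push_cast
    linarith [Nat.ceil_lt_add_one hL]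
  · rw [div_eq_mul_inv]
    exact mul_le_mul_of_nonneg_right (Nat.le_ceil L) (by positivity)

/-- Two lines cross near the height `z`. -/
theorem cross {a e a' e' z z' L r : ℝ} (h : |e'| ≤ L) (h1 : |z - z'| < r)
    (h2 : |a + z * e - (a' + z' * e')| < r) : |a - a' + z * (e - e')| ≤ (1 + L) * r := by
  have k := mul_le_mul h1.le h (abs_nonneg _) ((abs_nonneg _).trans h1.le)
  rw [← abs_mul] at k
  rw [show a - a' + z * (e - e') = a + z * e - (a' + z' * e') - (z - z') * e' by ring]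
  linarith [abs_sub (a + z * e - (a' + z' * e')) ((z - z') * e')]

theorem close {c d z w L s : ℝ} (hL : 0 ≤ L) (h : 1 ≤ L * |d|) (h1 : |c + z * d| ≤ s)
    (h2 : |c + w * d| ≤ s) : |z - w| ≤ 2 * L * s := by
  have k : |z - w| * |d| ≤ 2 * s := by
    rw [← abs_mul, show (z - w) * d = c + z * d - (c + w * d) by ring]
    linarith [abs_sub (c + z * d) (c + w * d)]
  nlinarith [mul_le_mul_of_nonneg_left k hL, mul_le_mul_of_nonneg_left h (abs_nonneg (z - w))]

end Fin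

variable {N : ℕ} {Ω Φ : ℕ → Type} {P : ∀ n, FP (Ω n)} {g : Gs N Ω} {M : ℕ → ℕ}

/-- The line and the height determine the point. -/
theorem near (h : Bs P g M) (i : Fin N) (c : ℕ → ℕ) : Sm M fun n =>
    ch (P n) (fun ω => fl1 (c n) ((g n).pt ω i)) fun ω => ((g n).ln ω, fl1 (c n) ((g n).z ω)) := by
  obtain ⟨L, hL, e⟩ := h.bx
  refine Sm.near1 h.big hL (e.mono fun n k a ha b _ e => ?_)
  simp only [Geo.ln, Prod.mk.injEq] at e
  have : (g n).pt a i - (g n).pt b i = (g n).e a i * ((g n).z a - (g n).z b) := by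
    simp only [Geo.pt, Geo.lt, Pi.add_apply, Pi.smul_apply, smul_eq_mul, e.1.1, e.1.2.1]
    ring
  rw [this, abs_mul, div_eq_mul_inv]
  exact mul_le_mul ((k.bd a ha).1 i).2 (abs_sub_lt_of_fl1_eq e.2).le (abs_nonneg _) (hL.pos n).le

/-- Two lines with separated slopes determine the height of their crossing. -/
theorem two (h : Bs P g M) (i : Fin N) {b : ℕ → ℕ} (hb : ∀ n, b n ≤ M n) (φ : ∀ n, Ω n → Φ n)
    (hφ : ∀ n, Fn (P n) (fun ω => (fl1 (b n) ((g n).z ω), fl1 (b n) ((g n).pt ω i))) (φ n))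
    {L : ℕ → ℝ} (hL : Sub M L) (hw : Whp (fun n => glue (P n) (P n) (φ n) (φ n)) fun n v =>
      1 ≤ L n * |(g n).e v.1 i - (g n).e v.2 i|) :
    Sm M fun n => ch (glue (P n) (P n) (φ n) (φ n)) (fun v => fl1 (b n) ((g n).z v.1)) fun v =>
      ((g n).ln v.1, (g n).ln v.2) := by
  obtain ⟨L', hL', e⟩ := h.bx
  have one := h.big.sub le_rfl
  refine ks.fano _ _ _ _ M _ 1 h.big (((((hL.const_mul h.big one_le_two).mul
    (one.add hL' h.big)).const_mul h.big one_le_two)).add (h.big.sub (C := 3) (by norm_num)) h.big)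
    hw (e.mono fun n k => ⟨fun u hu => ?_, fun u hu => ?_⟩)
  · have m := fun v hv => (kg.mem (P n) (P n) (φ n) (φ n) v (Law.rfl _)).1 hv
    have z0 := fun v hv => fl1_zero_of_box (k.bd _ (m v hv).1).2.1 (k.bd _ (m v hv).1).2.2
    refine ⟨Finset.Ico 0 (2 ^ b n), ?_, fun v hv _ => ?_⟩
    · rw [Int.card_Ico, sub_zero, one_mul]
      refine le_trans (le_of_eq ?_) ((two_pow_le_exp (b n)).trans
        (Real.exp_le_exp.2 (Nat.cast_le.2 (hb n))))
      rw [show (2 : ℤ) ^ b n = ((2 ^ b n : ℕ) : ℤ) by simp, Int.toNat_natCast]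
      simp
    · simpa [z0 v hv] using fl1_mem_Ico (i := b n) (rfl : fl1 0 ((g n).z v.1) = _)
  · have c : ∀ v ∈ (glue (P n) (P n) (φ n) (φ n)).S, |(g n).a v.1 i - (g n).a v.2 i +
        (g n).z v.1 * ((g n).e v.1 i - (g n).e v.2 i)| ≤ (1 + L' n) * ((2 : ℝ) ^ b n)⁻¹ :=
      fun v hv => by
        obtain ⟨m1, m2, m3⟩ := (kg.mem (P n) (P n) (φ n) (φ n) v (Law.rfl _)).1 hv
        have q := hφ n _ m1 _ m2 m3.symm
        exact cross ((k.bd _ m2).1 i).2 (abs_sub_lt_of_fl1_eq (congrArg Prod.fst q))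
          (abs_sub_lt_of_fl1_eq (congrArg Prod.snd q))
    have := hL.pos n
    have := hL'.pos n
    refine (list (b n) ((g n).z u.1) (L := 2 * L n * (1 + L' n)) (by positivity)).imp
      fun T hT => ⟨hT.1, fun v hv e w => hT.2 _ ?_⟩
    simp only [Geo.ln, Prod.mk.injEq] at e
    have c2 := c u hu
    rw [← e.1.1, ← e.1.2.1, ← e.2.1, ← e.2.2.1] at c2
    rw [div_eq_mul_inv, mul_assoc]
    exact close (hL.pos n).le w (c v hv) c2

end XAA

open XAA in
theorem rowXA : OfXA := by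
  intro h2 hB hS N Ω Λ K g M j a b i η X lam hK hX hl hF hj
  have B := hK.bs X hX
  obtain ⟨L, hL, hw⟩ := hS K g M i η X (fun n ω =>
    ((fl1 (b n) ((X.G g n).z ω), fl1 (b n) ((X.G g n).pt ω i)), lam n ω, (X.G g n).θ ω,
      fl1 (a n) ((X.G g n).z ω), fl1 (a n) ((X.G g n).pt ω i))) hK hX (by
    obtain ⟨L, hL, e⟩ := hF
    obtain ⟨L', -, e'⟩ := B.bx
    refine (hl.l.add (Sm.near1 B.big hL e)).mono (e'.mono fun n k => ?_)
    refine le_trans (mi_mono' fun u hu v hv q => ?_)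
      ((hB.add (X n).Q (X.G g n) 0 (fun ω => fl1 (b n) ((X.G g n).pt ω i)) (lam n)).2.trans
        (add_le_add le_rfl (ch_anti (Fn.snd _ _))))
    simp only [Prod.mk.injEq] at q
    rw [q.1.1, q.1.2, k.fz u hu v hv q.2, k.fθ u hu v hv q.2, fl1_eq_of_le (hj n).2.1 q.1.1])
  have h3 := hB.hgt X.P (X.G g) M j a b lam B hl.h hj
  have h4 := le_fl1 (P := X.P) (x := fun n => (X.G g n).z)
    (G := fun n ω => fl1 (a n) ((X.G g n).z ω)) B.big (B.big.sub le_rfl) (fun n => (hj n).2.1)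
    (.of_forall fun n u _ v _ e => by rw [one_div]; exact (abs_sub_lt_of_fl1_eq e).le)
  have h5 := two B i (fun n => (hj n).2.2) _ (fun n => Fn.fst _ _) hL hw
  have h6 := hB.inf X.P (X.G g) M b lam B
    (hB.up _ _ M j b lam (.of_forall fun n => (hj n).1.trans (hj n).2.1) hl.h)
  refine (h3.smul zero_le_two).of5 h4 h5 h6 (((near B i a).add (near B i b)).smul zero_le_two)
    (.of_forall fun n => ?_)
  have := fin (P := (X n).Q) h2 (l := (X.G g n).ln) (lam n) (θ := (X.G g n).θ) (z := (X.G g n).z)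
    (t := fun ω => fl1 (b n) ((X.G g n).z ω)) (t' := fun ω => fl1 (a n) ((X.G g n).z ω))
    (x := fun ω => fl1 (b n) ((X.G g n).pt ω i)) (x' := fun ω => fl1 (a n) ((X.G g n).pt ω i))
    (fun _ _ _ _ e => congrArg (·.2.2) e) (fun _ _ _ _ e => fl1_eq_of_le (hj n).2.1 e)
    fun _ _ _ _ e => fl1_eq_of_le (hj n).2.1 e
  simp only [Geo.zt]
  linarith

end Pool.Agent.MP_5168f5_an.R4
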