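import Pool.Agent.MP_5168f5_an.R4.SpecK

/-! Kakeya sets in four dimensions: the rescaled tube. -/

namespace Pool.Agent.MP_5168f5_an.R4

open H19 H17S H17F Filter

namespace ZmA

variable {N : ℕ} {Ω : Type}

theorem fr_iff {j k : ℕ} {x y : V N} (h : fl j x = fl j y) (t : Fin N) :
    fl k (fr j x) t = fl k (fr j y) t ↔ fl (j + k) x t = fl (j + k) y t := by
  rw [fl_fr, fl_fr]
  simp only [h, sub_left_inj]

theorem fr_iff' {j k : ℕ} {x y : V N} (h : fl j x = fl j y) :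
    fl k (fr j x) = fl k (fr j y) ↔ fl (j + k) x = fl (j + k) y := by
  rw [funext_iff, funext_iff]
  exact forall_congr' fun t => fr_iff h t

theorem zm_pt (g : Geo N Ω) (j : ℕ) (ω : Ω) : (g.zm j).pt ω = (2 : ℝ) ^ j • g.pt ω -
    ((fun i => (fl j (g.a ω) i : ℝ)) + g.z ω • fun i => (fl j (g.e ω) i : ℝ)) := by
  change fr j (g.a ω) + g.z ω • fr j (g.e ω) = (2 : ℝ) ^ j • (g.a ω + g.z ω • g.e ω) - _
  rw [fr_eq, fr_eq]; module

/-- The position is known up to two cells. -/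
theorem ch_a (P : FP Ω) (g : Geo N Ω) (j m : ℕ) (hz : ∀ ω ∈ P.S, 0 ≤ g.z ω ∧ g.z ω < 1) :
    ch P (fun ω => fl j (g.a ω))
      (fun ω => (fl j (g.e ω), fl (j + m) (g.pt ω), g.z ω, g.θ ω)) ≤ 5 * N := by
  refine ch_fl_near (n := 2) (by norm_num) fun a ha b _ e => ?_
  simp only [Prod.mk.injEq] at e
  obtain ⟨e1, e2, e3, -⟩ := e
  have h1 := norm_sub_lt_of_fl_eq e1
  have h2 := norm_sub_lt_of_fl_eq (fl_eq_of_le (Nat.le_add_right j m) e2)
  have h3 : g.a a - g.a b = (g.pt a - g.pt b) - g.z a • (g.e a - g.e b) := by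
    simp only [Geo.pt, Geo.lt, ← e3]; module
  have h4 : ‖g.z a • (g.e a - g.e b)‖ ≤ ‖g.e a - g.e b‖ := by
    rw [norm_smul, Real.norm_eq_abs, abs_of_nonneg (hz a ha).1]
    exact mul_le_of_le_one_left (norm_nonneg _) (hz a ha).2.le
  rw [h3]
  have h5 := norm_sub_le (g.pt a - g.pt b) (g.z a • (g.e a - g.e b))
  push_cast
  linarith

/-- The rescaled point is known up to one cell. -/
theorem ch_p (P : FP Ω) (g : Geo N Ω) (j m : ℕ) :
    ch P (fun ω => fl m ((g.zm j).pt ω))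
      (fun ω => (fl j (g.a ω), fl j (g.e ω), fl (j + m) (g.pt ω), g.z ω, g.θ ω)) ≤ 5 * N := by
  refine ch_fl_near (n := 1) (by norm_num) fun a _ b _ e => ?_
  simp only [Prod.mk.injEq] at e
  obtain ⟨e0, e1, e2, e3, -⟩ := e
  have h2 := norm_sub_lt_of_fl_eq e2
  have h3 : (g.zm j).pt a - (g.zm j).pt b = (2 : ℝ) ^ j • (g.pt a - g.pt b) := by
    rw [zm_pt, zm_pt, e0, e1, e3]; module
  rw [h3, norm_smul, Real.norm_eq_abs, abs_of_pos (by positivity : (0 : ℝ) < 2 ^ j)]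
  have h4 : (2 : ℝ) ^ j * ((2 : ℝ) ^ (j + m))⁻¹ = ((2 : ℝ) ^ m)⁻¹ := by
    rw [pow_add]; field_simp
  have h5 := mul_le_mul_of_nonneg_left h2.le (by positivity : (0 : ℝ) ≤ 2 ^ j)
  push_cast
  linarith

/-- The fat point of the rescaled tube costs little. -/
theorem ch_y (P : FP Ω) (g : Geo N Ω) (j m : ℕ) (hz : ∀ ω ∈ P.S, 0 ≤ g.z ω ∧ g.z ω < 1) :
    ch P ((g.zm j).fp fun _ => m)
      (fun ω => (fl j (g.e ω), g.fp (fun _ => j + m) ω)) ≤ 10 * N := by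
  have h1 := ch_a P g j m hz
  have h2 := ch_p P g j m
  have h3 := ch_chain (P := P) (fun ω => fl j (g.a ω)) (fun ω => fl m ((g.zm j).pt ω))
    fun ω => (fl j (g.e ω), fl (j + m) (g.pt ω), g.z ω, g.θ ω)
  have h4 : ch P ((g.zm j).fp fun _ => m) (fun ω => (fl j (g.e ω), g.fp (fun _ => j + m) ω)) ≤
      ch P (fun ω => (fl j (g.a ω), fl m ((g.zm j).pt ω)))
        fun ω => (fl j (g.e ω), fl (j + m) (g.pt ω), g.z ω, g.θ ω) := by
    refine ch_le (fun a _ b _ e => ?_) fun a _ b _ e => e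
    simp only [Geo.fp, Geo.X, Prod.mk.injEq] at e ⊢
    obtain ⟨⟨e0, e1⟩, e2, -, e4, e5⟩ := e
    exact ⟨e1, e4, e5, e0, e2⟩
  linarith

/-- One digit. -/
theorem step (P : FP Ω) (g : Geo N Ω) (j m k : ℕ) (i : Fin N) {Y : Type} (y : Ω → Y) :
    ch P (fun ω => fl1 (j + k + 1) (g.e ω i)) (fun ω => (fl (j + k) (g.e ω), y ω)) ≤
      ch P (fun ω => fl1 (k + 1) (fr j (g.e ω) i))
        (fun ω => (fl k (fr j (g.e ω)), (g.zm j).fp (fun _ => m) ω)) +
      mi P (fun ω => fl1 (j + k + 1) (g.e ω i)) ((g.zm j).fp fun _ => m)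
        fun ω => (fl (j + k) (g.e ω), y ω) := by
  have h : ch P (fun ω => fl1 (j + k + 1) (g.e ω i))
      (fun ω => ((g.zm j).fp (fun _ => m) ω, fl (j + k) (g.e ω), y ω)) ≤
      ch P (fun ω => fl1 (k + 1) (fr j (g.e ω) i))
        (fun ω => (fl k (fr j (g.e ω)), (g.zm j).fp (fun _ => m) ω)) := by
    refine ch_le (fun a _ b _ e => ?_) fun a _ b _ e => ?_
    · have e1 : fl (k + 1) (fr j (g.e a)) i = fl (k + 1) (fr j (g.e b)) i := congrArg Prod.fst e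
      have e2 : fl j (g.e a) = fl j (g.e b) := congrArg (fun v => v.2.1.2.2.2.2) e
      exact (fr_iff e2 i).1 e1
    · have e1 : (g.zm j).fp (fun _ => m) a = (g.zm j).fp (fun _ => m) b := congrArg Prod.fst e
      have e2 : fl j (g.e a) = fl j (g.e b) := congrArg (fun v => v.1.2.2.2.2) e
      have e3 : fl (j + k) (g.e a) = fl (j + k) (g.e b) := congrArg (fun v => v.2.1) e
      exact Prod.ext ((fr_iff' e2).2 e3) e1
  unfold mi
  linarith

/-- Subadditivity of `G`. -/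
theorem Gsub (h1 : KF1) (P : FP Ω) (g : Geo N Ω) (j m : ℕ) (i : Fin N)
    (hz : ∀ ω ∈ P.S, 0 ≤ g.z ω ∧ g.z ω < 1) :
    (g.fat fun _ => j + m).G P i (j + m) ≤ (g.fat fun _ => j + m).G P i j +
      ((g.zm j).fat fun _ => m).G P i m + 10 * N := by
  have h2 := h1.tel P (fun k ω => fl1 (j + k + 1) (g.e ω i)) (fun k ω => fl (j + k) (g.e ω))
    (g.fp fun _ => j + m) ((g.zm j).fp fun _ => m) 0 m (Nat.zero_le m) fun k _ _ =>
      ⟨fun a _ b _ e => fl_eq_of_le (by omega) (congrArg Prod.fst e),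
        fun a _ b _ e => congrFun (congrArg Prod.fst e) i⟩
  have h3 := (mi_symm (P := P) (fun ω => fl (j + m) (g.e ω)) ((g.zm j).fp fun _ => m)
    fun ω => (fl (j + 0) (g.e ω), g.fp (fun _ => j + m) ω)).trans_le (mi_le _ _ _)
  have h4 := ch_y P g j m hz
  have h5 := Finset.sum_le_sum fun k (_ : k ∈ Finset.range m) =>
    step P g j m k i (g.fp fun _ => j + m)
  rw [Finset.sum_add_distrib] at h5
  rw [← Finset.range_eq_Ico] at h2
  unfold Geo.G
  rw [Finset.sum_range_add]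
  simp only [Nat.add_zero] at h2 h3
  exact le_trans (add_le_add le_rfl (h5.trans (add_le_add le_rfl (h2.trans (h3.trans h4)))))
    (le_of_eq (add_assoc _ _ _).symm)

theorem fn_X (P : FP Ω) (g : Geo N Ω) (j : ℕ) : Fn P (g.X j) g.ln := by
  intro a _ b _ e
  simp only [Geo.ln, Prod.mk.injEq] at e
  simp only [Geo.X, e.1, e.2.1]

theorem fn_θ (P : FP Ω) (g : Geo N Ω) (j : ℕ) : Fn P (g.zm j).θ fun ω => (g.ln ω, g.θ ω) :=
  (Fn.snd _ _).pair ((fn_X P g j).left _)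

theorem fn_ln (P : FP Ω) (g : Geo N Ω) (j : ℕ) : Fn P (g.zm j).ln fun ω => (g.ln ω, g.θ ω) := by
  intro a ha b hb e
  have e1 := fn_θ P g j a ha b hb e
  simp only [Geo.ln, Prod.mk.injEq] at e
  exact Prod.ext (congrArg (fr j) e.1.1) (Prod.ext (congrArg (fr j) e.1.2.1) e1)

theorem bx {P : FP Ω} {g : Geo N Ω} {L : ℝ} (h : g.Bx P L) (j : ℕ) : (g.zm j).Bx P 1 where
  bd := fun ω hω => ⟨fun i => ⟨by
      rw [abs_of_nonneg (fr_box j _ i).1]; exact (fr_box j _ i).2.le, by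
      rw [abs_of_nonneg (fr_box j _ i).1]; exact (fr_box j _ i).2.le⟩, (h.bd ω hω).2⟩
  fz := h.fz.left _
  fθ := (h.fθ.left _).pair (Fn.snd _ _)

theorem ds (P : FP Ω) (g : Geo N Ω) (j m : ℕ) :
    ch P ((g.zm j).X m) (fun ω => (fl m ((g.zm j).e ω), (g.zm j).θ ω)) ≤
      ch P (g.X (j + m)) fun ω => (fl (j + m) (g.e ω), g.θ ω) := by
  refine ch_le (fun a _ b _ e => ?_) fun a _ b _ e => ?_
  · simp only [Geo.X, Prod.mk.injEq] at e ⊢
    obtain ⟨⟨e0, -⟩, e2, -, e4, -⟩ := e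
    exact ⟨(fr_iff' e4).2 e0, e2⟩
  · simp only [Geo.X, Prod.mk.injEq] at e ⊢
    obtain ⟨e2, e3, -, e5⟩ := e
    exact ⟨(fr_iff' e5).1 e2, e3⟩

end ZmA

theorem rowZm : OfZm := by
  intro h1 hB N Ω P g M j m i hs hM hf
  obtain rfl : M = fun n => j n + m n := funext fun n => (hM n).symm
  have hc := hB.coarse P g _ m hs hf
  obtain ⟨L, -, hL⟩ := hs.bx
  refine ⟨⟨hc.big, ⟨fun _ => 1, hc.big.sub le_rfl, hL.mono fun n h => ZmA.bx h _⟩,
    hc.inf.mono (Eventually.of_forall fun n => mi_right (Fn.fst _ _) (ZmA.fn_θ _ _ _)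
      (ZmA.fn_ln _ _ _)), ?_⟩, fun hd => ?_, ?_⟩
  · refine Le.of2 hc.hgt hc.inf (Eventually.of_forall fun n => ?_)
    have a1 := ch_le_mi (P := P n) (F := fun ω => fl1 (m n) ((g n).z ω)) (ZmA.fn_θ (P n) (g n) (j n))
    have a2 : mi (P n) (fun ω => fl1 (m n) ((g n).z ω)) (g n).ln (g n).θ ≤
        mi (P n) (g n).z (g n).ln (g n).θ := mi_mono' ((Fn.comp (fl1 (m n)) _).left _)
    linarith
  · exact Sm.mono (Le.frac hd hf) (Eventually.of_forall fun n => ZmA.ds _ _ _ _)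
  · refine Le.of_sub (hs.big.sm (10 * N)) (hL.mono fun n h => ?_)
    have := ZmA.Gsub h1 (P n) (g n) (j n) (m n) i fun ω hω => (h.bd ω hω).2
    linarith

end Pool.Agent.MP_5168f5_an.R4
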