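import Pool.Agent.MP_5168f5_an.R4.Api
import Pool.Agent.MP_5168f5_an.R4.XBsAff
import Pool.Agent.MP_5168f5_an.R4.XDown
import Pool.Agent.MP_5168f5_an.R4.XExact
import Pool.Agent.MP_5168f5_an.R4.XKA
import Pool.Agent.MP_5168f5_an.R4.XKB
import Pool.Agent.MP_5168f5_an.R4.XKC1
import Pool.Agent.MP_5168f5_an.R4.XKC2
import Pool.Agent.MP_5168f5_an.R4.XKF1
import Pool.Agent.MP_5168f5_an.R4.XKF2
import Pool.Agent.MP_5168f5_an.R4.XKG0
import Pool.Agent.MP_5168f5_an.R4.XKP
import Pool.Agent.MP_5168f5_an.R4.XLst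
import Pool.Agent.MP_5168f5_an.R4.XOptE
import Pool.Agent.MP_5168f5_an.R4.XOptU
import Pool.Agent.MP_5168f5_an.R4.XPL
import Pool.Agent.MP_5168f5_an.R4.XPL1
import Pool.Agent.MP_5168f5_an.R4.XSep
import Pool.Agent.MP_5168f5_an.R4.XSpread
import Pool.Agent.MP_5168f5_an.R4.XThinLift
import Pool.Agent.MP_5168f5_an.R4.XXA
import Pool.Agent.MP_5168f5_an.R4.XZm

/-! Kakeya sets in four dimensions: the shared kit, proved. -/

namespace Pool.Agent.MP_5168f5_an.R4

theorem kf1 : KF1 := rowKF1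
theorem kf2 : KF2 := rowKF2
theorem spread : Spread := rowSpread
theorem lst : Lst := rowLst
theorem kc1 : KC1 := rowKC1
theorem kc2 : KC2 := rowKC2 kc1
theorem exactK : Exact := rowExact
theorem optE : OptE := rowOptE kf2 kc2
theorem optU : OptU := rowOptU
theorem kb : KB := rowKB
theorem down : Down := rowDown kb
theorem bsAff : BsAff := rowBsAff kb
theorem ka : KA := rowKA kf2
theorem thinLift : ThinLift := rowThinLift ka
theorem kp : KP := rowKP kb
theorem sep : Sep := rowSep kf2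
theorem xa : XA := rowXA kf2 kb sep
theorem pl1 : PL1 := rowPL1 kf2 kb spread
theorem pl : PL := rowPL pl1
theorem kg0 : KG0 := rowKG0 kf1
theorem zm : Zm := rowZm kf1 kb

end Pool.Agent.MP_5168f5_an.R4
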