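import Pool.Agent.MP_5168f5_an.R4.SpecC
import Pool.Agent.MP_5168f5_an.R4.Kit

/-! The grains of two copies on an event that depends on the side variables. -/

namespace Pool.Agent.MP_5168f5_an.R4.CI

open H19 H17S H17F Filter NCx Tan
open Web (RV rd G3 sl TFul)

namespace PGevA

theorem top {W κ : Type} (Q : FP W) (x : W → ℝ) (K : W → κ) {s l : ℕ} (hsl : s ≤ l)
    (h : Fn Q (fun v => fl1 s (x v)) K) : ch Q (fun v => fl1 l (x v)) K ≤ (l - s) * lg := by
  have := ch_fl1_refine (P := Q) (x := x) (G := K) (j := fun _ => s) (i := fun _ => l - s)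
    (fun _ _ _ _ _ => rfl) (fun _ _ _ _ _ => rfl) h
  rw [Nat.add_sub_cancel' hsl, FP.E_const, Nat.cast_sub hsl] at this
  exact this

theorem one {Ω W U T Γ δ κ : Type} {P : FP Ω} {Q : FP W} {π π' : W → Ω} (h1 : Law Q π P id)
    (h2 : Law Q π' P id) {S : Ω → U} {Z : Ω → T} {G : Ω → Γ}
    (hS : ∀ v ∈ Q.S, S (π' v) = S (π v)) (hZS : Fn P Z S) (hZG : Fn P Z G)
    (h0 : mi Q (fun v => G (π' v)) π (fun v => S (π v)) = 0) (A : Ω → ℝ) (C : Ω → δ) {s l : ℕ}
    (hsl : s ≤ l) (K : W → κ) (hK : Fn Q K fun v => (G (π' v), C (π v))) (hG : Fn P G C)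
    (hs : Fn Q (fun v => fl1 s (A (π v))) K) {E : W → Prop} (hE : Fn Q E K)
    (hp : 1 / 2 ≤ pb Q E) :
    (l - s) * lg - ch (cE Q E) (fun v => fl1 l (A (π v))) K ≤
      2 * ((l - s) * lg - ch P (fun ω => fl1 l (A ω)) C + mi P S G Z) := by
  have hZ : ∀ v ∈ Q.S, Z (π' v) = Z (π v) := fun v hv =>
    hZS _ (h2.mem hv) _ (h1.mem hv) (hS v hv)
  have e1 := h1.ch_id (fun ω => fl1 l (A ω)) C
  have e2 := ch_le_mi (P := Q) (F := fun v => fl1 l (A (π v))) hK
  have e3 : mi Q (fun v => fl1 l (A (π v))) (fun v => G (π' v)) (fun v => C (π v)) ≤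
      mi Q π (fun v => G (π' v)) fun v => Z (π v) :=
    mi_left (h1.fn (hZG.trans hG)) (fun a _ b _ e => by rw [(Prod.mk.inj e).1])
      fun a _ b _ e => by rw [(Prod.mk.inj e).1]
  have e4 : mi Q (fun v => G (π' v)) π (fun v => Z (π v)) ≤
      mi Q (fun v => G (π' v)) (fun v => (S (π v), π v)) fun v => Z (π v) :=
    mi_mono fun a _ b _ e => congrArg (fun p => p.1.2) e
  have e5 : mi Q (fun v => G (π' v)) π (fun v => (S (π v), Z (π v))) ≤
      mi Q (fun v => G (π' v)) π fun v => S (π v) :=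
    mi_cond (Fn.fst _ _) fun a _ b _ e => by rw [(Prod.mk.inj e).1]
  have e6 : mi Q (fun v => G (π' v)) (fun v => S (π v)) (fun v => Z (π v)) ≤
      mi Q (fun v => G (π' v)) (fun v => S (π' v)) fun v => Z (π' v) :=
    mi_right (fun a ha b hb e => by simpa only [hZ a ha, hZ b hb] using e)
      (fun a ha b hb e => by simpa only [hZ a ha, hZ b hb] using (Prod.mk.inj e).2)
      fun a ha b hb e => by simpa only [hS a ha, hS b hb] using (Prod.mk.inj e).1
  rw [mi_chain] at e4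
  rw [h2.mi_id, mi_symm G] at e6
  rw [mi_symm π] at e3
  have e7 := ke.eq Q E (fun v => fl1 l (A (π v))) K hE
  have t1 := top (cE Q E) (fun v => A (π v)) K hsl (fn_cE hs _)
  have t2 := top (cE Q fun v => ¬E v) (fun v => A (π v)) K hsl (fn_cE hs _)
  have t3 := mul_le_mul_of_nonneg_left t2 (sub_nonneg.2 (pb_le_one Q E))
  have t4 := mul_le_mul_of_nonneg_right hp (sub_nonneg.2 t1)
  nlinarith

end PGevA

open PGevA in
theorem rowPGev : PGev := by
  intro Ω T U Γ P S Z G A B β M s lam L ε E h hE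
  have hh := (h.low.add h.inf).smul zero_le_two
  have hm : ∀ n, ∀ v ∈ (glue (P n) (P n) (S n) (S n)).S, S n v.2 = S n v.1 := fun n v hv =>
    ((kg.mem _ _ _ _ v (Law.rfl _)).1 hv).2.2
  have hc : ∀ n, mi (glue (P n) (P n) (S n) (S n)) (fun v => G n v.2) Prod.fst
      (fun v => S n v.1) = 0 := fun n => kf2.copy (P n) (S n) id (G n) (S n) (Fn.rfl _)
  refine ⟨hh.of_sub ?_, hh.of_sub ?_⟩
  · filter_upwards [h.alg, hE] with n a e
    have := one (kg.fst _ _ _ _) (kg.snd _ _ _ _ (Law.rfl _)) (hm n) a.1 a.2.1 (hc n) (A n)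
      (fun ω => (fl1 (lam n) (B n ω - β n ω * A n ω), fl1 (s n) (A n ω), fl1 (s n) (B n ω), G n ω))
      (h.lv n).1 (fun v => (fl1 (lam n) (B n v.1 - β n v.1 * A n v.1), fl1 (s n) (A n v.1),
        fl1 (s n) (B n v.1), G n v.1, G n v.2))
      (fun x _ y _ q => by simp only [Prod.mk.injEq] at q ⊢; tauto)
      (fun x _ y _ q => congrArg (fun p => p.2.2.2) q)
      (fun x _ y _ q => congrArg (fun p => p.2.1) q)
      (e.1.trans fun x _ y _ q => congrArg (fun p => p.2.2.2) q) e.2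
    linarith
  · filter_upwards [h.alg, hE] with n a e
    have h0 := ((kg.swap (P n) (P n) (S n) (S n) (Law.rfl _)).symm.mi_id (fun v => G n v.2) Prod.fst
      fun v => S n v.1).trans (hc n)
    have := one (kg.snd _ _ _ _ (Law.rfl _)) (kg.fst _ _ _ _) (fun v hv => (hm n v hv).symm) a.1
      a.2.1 h0 (A n)
      (fun ω => (fl1 (lam n) (B n ω - β n ω * A n ω), fl1 (s n) (A n ω), fl1 (s n) (B n ω), G n ω))
      (h.lv n).1 (fun v => (fl1 (lam n) (B n v.2 - β n v.2 * A n v.2), fl1 (s n) (A n v.2),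
        fl1 (s n) (B n v.2), G n v.1, G n v.2))
      (fun x _ y _ q => by simp only [Prod.mk.injEq] at q ⊢; tauto)
      (fun x _ y _ q => congrArg (fun p => p.2.2.2) q)
      (fun x _ y _ q => congrArg (fun p => p.2.1) q)
      (e.1.trans fun x _ y _ q => congrArg (fun p => p.2.2.2) q) e.2
    linarith

end Pool.Agent.MP_5168f5_an.R4.CI
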