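import Pool.Agent.MP_5168f5_an.R4.SpecC

/-! Sure bounds at one level on a subclass. -/

namespace Pool.Agent.MP_5168f5_an.R4.CI

open H19 H17S H17F Filter NCx Tan

namespace PrepA

theorem cls0 {Ω : ℕ → Type} {K K' : Mb Ω → Prop} {g : Gs 3 Ω} {M : ℕ → ℕ} {η : ℝ}
    (h : Cls0 K g M 0 η) (c : Cl K') (e : ∀ X, K' X → K X) : Cls0 K' g M 0 η :=
  ⟨c.toCl0, h.pos, fun X k => h.bs X (e X k), fun X k => h.br X (e X k)⟩

theorem su {Ω W : Type} {g : Geo 3 Ω} {D : Td Ω} {J M : ℕ} {L : ℝ} (f : W → Ω) (v : W) :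
    Su (g.pull f) (D.pull f) J M L v ↔ Su g D J M L (f v) :=
  ⟨fun u => ⟨u.one, u.box, u.ball, u.cu⟩, fun u => ⟨u.one, u.box, u.ball, u.cu⟩⟩

end PrepA

open PrepA

theorem rowPrep : Prep := by
  intro Ω K g M mm D η d ε₀ h hd n1 n2
  have big := h.toTn.big
  have d0 : 0 < d - 1 := by linarith
  have hC : 1 ≤ (d - 1) * (⌈1 / (d - 1)⌉₊ : ℕ) := by
    rw [← div_le_iff₀' d0]; exact Nat.le_ceil _
  have C0 : 0 < ⌈1 / (d - 1)⌉₊ := Nat.ceil_pos.2 (by positivity)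
  generalize ⌈1 / (d - 1)⌉₊ = C at hC C0
  obtain ⟨X, hX⟩ := h.ne
  obtain ⟨L₀, s₀, b₀⟩ := h.toTn.bx hX
  obtain ⟨L₁, s₁, w₁⟩ := (h.com X hX).ball (fun n => C * M n) (OM.rfl.mul C)
  obtain ⟨L₂, s₂, w₂⟩ := (h.com X hX).cellU (fun n => C * M n) (fun n => C * M n + M n)
    (OM.rfl.mul C) (Eventually.of_forall fun n => by
      have := mul_le_mul_of_nonneg_right hC (Nat.cast_nonneg (α := ℝ) (M n))
      push_cast; linarith)
  have s := (s₀.add s₁ big).add (s₂.const_mul big (by norm_num : (1 : ℝ) ≤ 4)) big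
  have w : Whp X.P fun n v =>
      Su (g n) (D n) (C * M n) (M n) (L₀ n + L₁ n + 4 * L₂ n) ((X n).ρ v) := by
    refine (w₁.and w₂).mono (b₀.mono fun n b v hv u => (su _ _).1 ?_)
    have l0 := s₀.pos n
    have l1 := s₁.pos n
    have l2 := s₂.pos n
    have e := ((kp.iff _ _ _ _ _ _ _ _).1 u.2).2
    rw [Fin.sum_univ_three, (u.2.2.1 1).2 (by decide), (u.2.2.1 2).2 (by decide), zero_mul,
      zero_mul, add_zero, add_zero, pow_add, mul_comm ((2 : ℝ) ^ (C * M n)),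
      mul_div_mul_right _ _ (by positivity)] at e
    refine ⟨s.1 n, ⟨fun i => ⟨((b.bd v hv).1 i).1.trans (by linarith),
      ((b.bd v hv).1 i).2.trans (by linarith)⟩, (b.bd v hv).2⟩, fun i => (u.1 i).trans ?_,
      u.2.1.trans (by linarith), (u.2.2.1 0).1.trans (by linarith), e.trans ?_⟩ <;>
    exact div_le_div_of_nonneg_right (by linarith) (by positivity)
  have c := h.cl.and (kc1.sure fun n ω =>
    Su (g n) (D n) (C * M n) (M n) (L₀ n + L₁ n + 4 * L₂ n) ω)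
  exact ⟨_, C, _, ⟨⟨c, ⟨X.cond _, h.cl.cond X _ hX w.pos, w.pos.sure.mono fun n a v hv =>
    (a v hv).2⟩, h.sm, cls0 h.low c fun _ k => k.1, fun C' hC' => cls0 (h.cls C' hC') c
      fun _ k => k.1, h.one, fun Y k => h.com Y k.1⟩, h.e0, fun Y k => h.fl Y k.1⟩, hd,
    fun Y k => n1 Y k.1, fun Y k => n2 Y k.1, ⟨C0, hC⟩, s,
    fun Y k => k.2.mono fun n a v hv => (su _ _).2 (a v hv)⟩

end Pool.Agent.MP_5168f5_an.R4.CI
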