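import Pool.Agent.MP_5168f5_an.R4.SpecC

/-! Equal weights: the facts on a member at the level `C M`. -/

namespace Pool.Agent.MP_5168f5_an.R4.CI

open H19 H17S H17F Filter NCx Tan

theorem rowPzA : PzA := by
  intro Ω K g M mm D η d ε₀ C L X ts hX L' hL' hle
  have tn := ts.toT1.toTn
  have hC := ts.lev.1
  have c0 : (0 : ℝ) < C := by exact_mod_cast hC
  have le : ∀ n, M n ≤ C * M n := fun n => Nat.le_mul_of_pos_left _ hC
  have fr : Frac M fun n => C * M n := ⟨le, (C : ℝ)⁻¹, inv_pos.2 c0,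
    Eventually.of_forall fun n => by
      rw [Nat.cast_mul, inv_mul_cancel_left₀ c0.ne']⟩
  have oJ : OM M fun n => C * M n := OM.rfl.mul C
  have bs := (tn.cls C hC).bs X hX
  have com := tn.com X hX
  have in0 := le_up tn.sm (tn.low.bs X hX).inf
  have e : ∀ᶠ n in UF, M n ≤ C * M n ∧ (M n : ℝ) ≤ (d - 1) * (C * M n : ℕ) :=
    Eventually.of_forall fun n => ⟨le n, by
      rw [Nat.cast_mul, ← mul_assoc]
      exact le_mul_of_one_le_left (Nat.cast_nonneg _) ts.lev.2⟩
  refine ⟨tn.big, fr, hL', (ts.su X hX).mono fun n a v hv => (a v hv).mono (hle n),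
    com.nest.mono fun n a x hx y hy u => ?_, ?_, in0, ?_, ?_, ?_⟩
  · have := (a.2 (C * M n)).2 x hx y hy u
    simp only [Prod.mk.injEq] at this ⊢
    tauto
  · refine Le.of2 (bs.hgt.frac fr) in0 (Eventually.of_forall fun n => ?_)
    have h1 := ch_le_mi (P := (X n).Q) (F := fun v => fl1 (C * M n) ((X.G g n).z v))
      (G := (X.G g n).ln) (K := (X.G g n).θ) (K' := (X.G g n).ln) (Fn.fst _ _)
    have h2 : mi (X n).Q (fun v => fl1 (C * M n) ((X.G g n).z v)) (X.G g n).ln (X.G g n).θ ≤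
        mi (X n).Q (X.G g n).z (X.G g n).ln (X.G g n).θ :=
      mi_mono' ((Fn.comp (fl1 (C * M n)) _).left _)
    linarith
  · exact Le.frac (kb.inf X.P (X.G g) (fun n => C * M n) (fun n => C * M n)
      (fun n => (mD X D n).S (C * M n)) bs (Le.up (le_up tn.sm (com.lab _ oJ).h) le)) fr
  · refine Sm.mono (com.typ _ oJ) (Eventually.of_forall fun n => mi_mono' fun x _ y _ u => ?_)
    have := congrFun (congrArg Prod.fst u) 0
    simpa [ty, wT] using this
  · refine Sm.mono (Sm.add (ts.n1 X hX M _ oJ e) (ts.n2 X hX M _ oJ e))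
      (Eventually.of_forall fun n => le_trans (ch_mono fun x _ y _ u => ?_) (ch_subadd _ _ _))
    simp only [Prod.mk.injEq] at u
    funext i
    fin_cases i
    · exact u.1.1
    · exact u.1.2

end Pool.Agent.MP_5168f5_an.R4.CI
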