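import Pool.Agent.MP_5168f5_an.R4.SpecC
import Pool.Agent.MP_5168f5_an.R4.P0Tool

/-! Equal weights: the rounded slopes of three copies are separated. -/

namespace Pool.Agent.MP_5168f5_an.R4.CI

open H19 H17S H17F Filter NCx Tan
open Web (RV rd G3 sl TFul)

namespace SpAA

theorem num {L L₁ x y : ℝ} {J : ℕ} (hL : 0 ≤ L) (h0 : 0 ≤ L₁) (h : 1 ≤ L₁ * |x - y|)
    (e : 4 * L₁ ≤ 2 ^ J) : 1 ≤ (L + 2 * L₁) * |rd J x - rd J y| := by
  have a := abs_le.1 (abs_rd_sub J x)
  have b := abs_le.1 (abs_rd_sub J y)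
  have c : |x - y| ≤ |rd J x - rd J y| + 2 * (1 / 2 ^ J) := abs_le.2
    ⟨by linarith [neg_abs_le (rd J x - rd J y)], by linarith [le_abs_self (rd J x - rd J y)]⟩
  have d : 4 * L₁ * (1 / 2 ^ J) ≤ 1 := by rwa [mul_one_div, div_le_one (by positivity)]
  nlinarith [mul_le_mul_of_nonneg_left c h0, mul_nonneg hL (abs_nonneg (rd J x - rd J y))]

end SpAA

theorem rowSpA : SpA := by
  intro Ω K g M mm D η d ε₀ C L X h hX
  have hM := h.toTn.big
  obtain ⟨L₁, s1, w⟩ := sep K g mm 0 η X (fun n => (mD X D n).S (C * M n)) h.low hX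
    ((h.com X hX).lab _ (OM.rfl.mul C)).l
  have s2 := sub_up h.sm s1
  have e := Sub.le_pow (R := fun n => C * M n) (s2.const_mul hM (show (1 : ℝ) ≤ 4 by norm_num))
    one_pos (Eventually.of_forall fun n => by
      rw [one_mul]; exact_mod_cast Nat.le_mul_of_pos_left _ h.lev.1)
  have k : ∀ i k : Fin 3, Whp (fun n => G3 (X n).Q ((mD X D n).S (C * M n))) fun n v => i ≠ k →
      1 ≤ (L n + 2 * L₁ n) * |wr (X.G g n) (C * M n) i v - wr (X.G g n) (C * M n) k v| := by
    intro i k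
    rcases eq_or_ne i k with hik | hik
    · exact Whp.of_ev (Eventually.of_forall fun _ _ _ b => absurd hik b)
    · exact (whp_pair (fun n => (mD X D n).S (C * M n))
        (F := fun n u v => 1 ≤ L₁ n * |(X.G g n).e u 0 - (X.G g n).e v 0|) w hik).mono
        (e.mono fun n a v _ b _ => SpAA.num (h.sub.pos n).le (s2.pos n).le b a)
  exact ⟨_, h.sub.add (s2.const_mul hM one_le_two) hM, fun n => by linarith [s2.pos n],
    Whp.all fun i => Whp.all (k i)⟩

end Pool.Agent.MP_5168f5_an.R4.CI
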