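import Pool.Agent.MP_5168f5_an.R4.SpecC
import Pool.Agent.MP_5168f5_an.R4.SVTan

/-! Equal weights: the facts of mode I in symmetric form. -/

namespace Pool.Agent.MP_5168f5_an.R4.CI

open H19 H17S H17F Filter NCx Tan
open Web (RV rd G3 sl TFul)

namespace SyAA

theorem near {Ω : Type} (g : Geo 3 Ω) (k : Fin 3) {L : ℝ} {c : ℝ × ℝ × V 3} {v w : Ω}
    {j τ r : ℕ} (h : τ ≤ r) (f1 : (g.pl {0} k).fit L c v j τ) (f2 : (g.pl {0} k).fit L c w j τ)
    (ez : g.z v = g.z w) (ex : fl1 r (g.pt v 0) = fl1 r (g.pt w 0)) :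
    |g.pt v k - g.pt w k| ≤ 3 * L / 2 ^ τ := by
  have a1 : |g.pt v k - c.1 - c.2.1 * g.z v - ∑ i, c.2.2 i * g.pt v i| ≤ L / 2 ^ τ :=
    f1.2.2 _ rfl
  have a2 : |g.pt w k - c.1 - c.2.1 * g.z w - ∑ i, c.2.2 i * g.pt w i| ≤ L / 2 ^ τ :=
    f2.2.2 _ rfl
  have z1 := (f1.2.1 1).2 (by simp)
  have z2 := (f1.2.1 2).2 (by simp)
  rw [Fin.sum_univ_three, z1, z2] at a1 a2
  have a3 : |c.2.2 0 * (g.pt v 0 - g.pt w 0)| ≤ L / 2 ^ τ := by
    rw [abs_mul, div_eq_mul_inv]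
    exact mul_le_mul (f1.2.1 0).1 (abs_sub_lt_of_fl1_eq (fl1_eq_of_le h ex)).le (abs_nonneg _)
      ((abs_nonneg _).trans (f1.2.1 0).1)
  rw [ez] at a1
  rw [abs_le] at a1 a2 a3 ⊢
  rw [mul_div_assoc]
  constructor <;> linarith [a1.1, a1.2, a2.1, a2.2, a3.1, a3.2]

variable {Ω : ℕ → Type} {P : ∀ n, FP (Ω n)} {g : Gs 3 Ω} {D : ∀ n, Td (Ω n)} {M a τ r : ℕ → ℕ}
  {L : ℕ → ℝ} {d : ℝ}

theorem one (hM : Big M) (hL : Sub M L) (hb : ∀ᶠ n in UF, (g n).Bx (P n) (L n)) (k : Fin 3)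
    {c : ∀ n, ℕ → Ω n → ℝ × ℝ × V 3} (hc : Cell P g M {0} k c d)
    (hf : ∀ᶠ n in UF, ∀ j, Fn (P n) (c n j) ((D n).S j)) (ha : OM M a) (hr : OM M r)
    (he : ∀ᶠ n in UF, (τ n : ℝ) ≤ d * a n ∧ τ n ≤ r n) :
    Sm M fun n => ch (P n) (fun ω => fl1 (τ n) ((g n).pt ω k))
      fun ω => ((D n).S (a n) ω, fl1 (r n) ((g n).pt ω 0), (g n).zt ω) := by
  obtain ⟨L', sL', w⟩ := hc a τ ha (he.mono fun _ e => e.1)
  refine SVT.sm_whp (φ := fun n ω => (g n).pt ω k) hM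
    (sL'.const_mul hM (show (1 : ℝ) ≤ 3 by norm_num)) (hL.const_mul hM one_le_two)
    (hr.mono (he.mono fun _ e => e.2)) w ?_
  filter_upwards [hb, he, hf] with n b e s
  refine ⟨fun v hv => SVT.abs_pt b hv k, fun v hv w hw q f1 f2 => ?_⟩
  simp only [Prod.mk.injEq, Geo.zt] at q
  exact near (g n) k e.2 f1 (s (a n) v hv w hw q.1 ▸ f2) q.2.2.1 q.2.1

end SyAA

open SyAA in
theorem rowSyA : SyA := by
  intro Ω K g M mm D η d ε₀ C L X h hX i
  have hM := h.toT1.toTn.big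
  obtain ⟨L₀, sL, hb⟩ := h.toT1.toTn.bx hX
  have hC := h.com X hX
  have hF := h.fl X hX
  refine ⟨fun a τ r ha hr he => ?_, fun Λ lam β a ha hl hβ => ?_, fun q q' r hr he => ?_⟩
  · have k1 := one (D := mD X D) hM sL hb 1 hC.cellU (hC.nest.mono fun n s j v hv w hw e =>
      congrArg (·.2.2.2.1) ((s.2 j).2 v hv w hw e)) ha hr he
    have k2 := one (D := mD X D) hM sL hb 2 hF.cellP (hC.nest.mono fun n s j v hv w hw e =>
      congrArg (·.2.2.2.2) ((s.2 j).2 v hv w hw e)) ha hr he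
    fin_cases i
    · exact (k1.add k2).mono (Eventually.of_forall fun n => ch_subadd _ _ _)
    · exact (k2.add k1).mono (Eventually.of_forall fun n => ch_subadd _ _ _)
  · fin_cases i
    · have k := hF.fbH Λ lam (fun n ω => -β n ω) (fun _ _ => 1) a (fun _ => 2) ha hl
        (hM.sub one_le_two) (hβ.mono fun n e => ⟨fun v hv w hw q => by
          simp only [e.1 v hv w hw q], fun v hv => ⟨by rw [abs_neg]; exact e.2 v hv, by norm_num,
            Or.inr (by norm_num)⟩⟩)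
      refine (congrArg (fun s => Fill X.P (X.G g) M lam s d a) ?_).mp k
      funext n ω
      change _ = (X.G g n).pt ω 2 - β n ω * (X.G g n).pt ω 1
      ring
    · have k := hF.fbH Λ lam (fun _ _ => 1) (fun n ω => -β n ω) a (fun _ => 2) ha hl
        (hM.sub one_le_two) (hβ.mono fun n e => ⟨fun v hv w hw q => by
          simp only [e.1 v hv w hw q], fun v hv => ⟨by norm_num, by rw [abs_neg]; exact e.2 v hv,
            Or.inl (by norm_num)⟩⟩)
      refine (congrArg (fun s => Fill X.P (X.G g) M lam s d a) ?_).mp k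
      funext n ω
      change _ = (X.G g n).pt ω 1 - β n ω * (X.G g n).pt ω 2
      ring
  · have k := hF.ng q q' r hr he
    fin_cases i
    · exact k
    · refine (Le.of_le fun n => ?_).trans k
      change ch (X n).Q (fun ω => (fl1 (q' n) ((X.G g n).pt ω 2), fl1 (q' n) ((X.G g n).pt ω 1)))
        (fun ω => (fl1 (q n) ((X.G g n).pt ω 2), fl1 (q n) ((X.G g n).pt ω 1),
          fl1 (r n) ((X.G g n).pt ω 0), (X.G g n).zt ω)) ≤ _
      refine ch_le (fun v _ w _ e => ?_) fun v _ w _ e => ?_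
      · simp only [Prod.mk.injEq] at e ⊢
        exact ⟨e.1.2, e.1.1⟩
      · simp only [Prod.mk.injEq] at e ⊢
        exact ⟨e.2.1, e.1, e.2.2⟩

end Pool.Agent.MP_5168f5_an.R4.CI
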