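import Pool.Agent.MP_5168f5_an.R4.SpecC
import Pool.Agent.MP_5168f5_an.R4.BCor2

/-! Two grains at one point are often close. -/

namespace Pool.Agent.MP_5168f5_an.R4.CI

open H19 H17S H17F Filter NCx Tan
open Web (RV rd G3 sl TFul)

namespace TwoGA

open B1

variable {W Γ Y : ℕ → Type} {Q : ∀ n, FP (W n)} {A B β A' B' β' : RV W} {G G' : ∀ n, W n → Γ n}
  {C : ∀ n, W n → Y n} {M s lam h : ℕ → ℕ} {L : ℕ → ℝ}

theorem shift (hM : Big M) (hL : Sub M L) (e : ∀ᶠ n in UF, s n ≤ M n ∧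
    Fn (Q n) (fun v => fl1 (s n) (A' n v)) (C n) ∧ ∀ v ∈ (Q n).S, |A n v - A' n v| ≤ L n / 2 ^ M n) :
    ND Q M (fun n v => fl1 (s n) (A n v)) C :=
  ND.sure (c := fun n v => U.rd (s n) (A' n v)) hM (hL.add (hM.sub le_rfl) hM)
    (e.mono fun n ⟨a1, a2, a3⟩ => ⟨fun x hx y hy w => U.rd_congr (a2 x hx y hy w), fun v hv => by
      have := abs_sub_le (A n v) (A' n v) (U.rd (s n) (A' n v))
      rw [add_div]
      linarith [(a3 v hv).trans (U.div_pow_le (hL.pos n).le a1), U.abs_sub_rd (s n) (A' n v)]⟩)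

theorem quo (hM : Big M) (e : ∀ᶠ n in UF,
    Fn (Q n) (fun v => (fl1 (lam n) (A n v), fl1 (lam n) (B n v), β n v)) (C n) ∧
      ∀ v ∈ (Q n).S, |β n v| ≤ 1) :
    ND Q M (fun n v => fl1 (lam n) (B n v - β n v * A n v)) C := by
  have := nd_pt (P := Q) (G := C) (r := lam) (a := B) (e := A) (z := fun n v => -β n v) hM
    (e.mono fun n ⟨a1, a2⟩ => ⟨fun x hx y hy w => by
      have := a1 x hx y hy w
      simp only [Prod.mk.injEq] at this
      simp only [this.1, this.2.1, this.2.2], fun v hv => by rw [abs_neg]; exact a2 v hv⟩)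
  simpa only [neg_mul, ← sub_eq_add_neg] using this

theorem core {D D' : ℕ → ℝ} (hM : Big M) (hL : Sub M L) (lv : ∀ n, s n ≤ lam n ∧ lam n ≤ M n)
    (e : ∀ᶠ n in UF, Fn (Q n) (β n) (G n) ∧ Fn (Q n) (β' n) (G' n) ∧ ∀ v ∈ (Q n).S,
      |β n v| ≤ 1 ∧ |β' n v| ≤ 1 ∧ |A n v - A' n v| ≤ L n / 2 ^ M n ∧
      |B n v - B' n v| ≤ L n / 2 ^ M n ∧ 1 / 2 ^ h n < |β n v - β' n v|)
    (l1 : Le M D fun n => ch (Q n) (fun v => fl1 (lam n) (A n v)) fun v =>
      (fl1 (lam n) (B n v - β n v * A n v), fl1 (s n) (A n v), fl1 (s n) (B n v), G n v, G' n v))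
    (l2 : Le M D fun n => ch (Q n) (fun v => fl1 (lam n) (A' n v)) fun v =>
      (fl1 (lam n) (B' n v - β' n v * A' n v), fl1 (s n) (A' n v), fl1 (s n) (B' n v), G n v,
        G' n v))
    (up : Le M (fun n => ch (Q n) (fun v => (fl1 (lam n) (A n v), fl1 (lam n) (B n v))) fun v =>
      (fl1 (s n) (A n v), fl1 (s n) (B n v), G n v)) D') :
    Le M (fun n => 2 * D n) fun n => D' n + h n * lg := by
  have fn : ∀ {α γ : ℕ → Type} {F : ∀ n, W n → α n} {K : ∀ n, W n → γ n} (p : ∀ n, γ n → α n),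
      (∀ n v, F n v = p n (K n v)) → ND Q M F K := fun p k =>
    ND.of_fn (Eventually.of_forall fun n x _ y _ w => by rw [k, k, w])
  have a1 := ND.le (P := Q) (M := M)
    (F := fun n v => (fl1 (lam n) (B n v - β n v * A n v), fl1 (lam n) (A n v)))
    (G := fun n v => (fl1 (s n) (A n v), fl1 (s n) (B n v), G n v, G' n v))
    (F' := fun n v => (fl1 (lam n) (A n v), fl1 (lam n) (B n v)))
    (G' := fun n v => (fl1 (s n) (A n v), fl1 (s n) (B n v), G n v))
    ((quo hM (e.mono fun n k => ⟨fun x hx y hy w => by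
      simp only [Prod.mk.injEq] at w
      simp only [w.1.1, w.1.2, k.1 x hx y hy w.2.2.2.1], fun v hv => (k.2.2 v hv).1⟩)).pair
      (fn (fun _ v => v.1.1) fun _ _ => rfl))
    (fn (fun _ v => (v.1, v.2.1, v.2.2.1)) fun _ _ => rfl)
  have a2 : ND Q M (fun n v => (fl1 (s n) (A n v), fl1 (s n) (B n v), G n v, G' n v)) fun n v =>
      (fl1 (lam n) (B' n v - β' n v * A' n v), fl1 (s n) (A' n v), fl1 (s n) (B' n v), G n v,
        G' n v) :=
    (shift (A' := A') hM hL (e.mono fun n k => ⟨(lv n).1.trans (lv n).2,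
      fun _ _ _ _ w => congrArg (·.2.1) w, fun v hv => (k.2.2 v hv).2.2.1⟩)).pair
    ((shift (A' := B') hM hL (e.mono fun n k => ⟨(lv n).1.trans (lv n).2,
      fun _ _ _ _ w => congrArg (·.2.2.1) w, fun v hv => (k.2.2 v hv).2.2.2.1⟩)).pair
      (fn (fun _ v => v.2.2.2) fun _ _ => rfl))
  have hL' := (hL.const_mul hM one_le_two).add (hM.sub le_rfl) hM
  have a3 := BCor2A.upp (P := Q) (u := A') (f := B') (G := β) (G' := β') (q := s) (q' := lam)
    (k := h) (Θ := fun _ _ => ())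
    (c := fun n v => U.rd (lam n) (B n v - β n v * A n v))
    (c' := fun n v => U.rd (lam n) (B' n v - β' n v * A' n v))
    (Γ := fun n v => (fl1 (lam n) (B n v - β n v * A n v), G n v))
    (Γ' := fun n v => (fl1 (lam n) (B' n v - β' n v * A' n v), G' n v)) hM hL'
    (e.mono fun n k => ⟨k.1.right _, fun _ _ _ _ w => U.rd_congr (congrArg (·.1.1) w),
      fun v hv => ⟨(k.2.2 v hv).1.trans (by linarith [hL.pos n]), by
        obtain ⟨k1, -, k3, k4, -⟩ := k.2.2 v hv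
        have t := U.div_pow_le (hL.pos n).le (lv n).2
        have t1 := mul_le_mul k1 k3 (abs_nonneg _) zero_le_one
        have t2 := U.abs_sub_rd (lam n) (B n v - β n v * A n v)
        rw [← abs_mul] at t1
        rw [add_div, mul_div_assoc]
        rw [abs_le] at *
        constructor <;> nlinarith [t1.1, t1.2, t2.1, t2.2, k4.1, k4.2]⟩⟩)
    (e.mono fun n k => ⟨k.2.1.right _, fun _ _ _ _ w => U.rd_congr (congrArg (·.1.1) w),
      fun v hv => ⟨(k.2.2 v hv).2.1.trans (by linarith [hL.pos n]), (U.abs_sub_rd _ _).trans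
        (div_le_div_of_nonneg_right (by linarith [hL.pos n]) (by positivity))⟩⟩)
    (e.mono fun n k v hv => (k.2.2 v hv).2.2.2.2)
  refine l1.of6 l2 up a1 a2 a3 (Eventually.of_forall fun n => ?_)
  have c1 := ch_chain (P := Q n) (fun v => fl1 (lam n) (B n v - β n v * A n v))
    (fun v => fl1 (lam n) (A n v)) fun v => (fl1 (s n) (A n v), fl1 (s n) (B n v), G n v, G' n v)
  have c2 := ch_tri (P := Q n) (fun v => fl1 (lam n) (A' n v))
    (fun v => fl1 (lam n) (B n v - β n v * A n v)) fun v =>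
      (fl1 (lam n) (B' n v - β' n v * A' n v), fl1 (s n) (A' n v), fl1 (s n) (B' n v), G n v, G' n v)
  have c3 := ch_tri' (P := Q n) (fun v => fl1 (lam n) (B n v - β n v * A n v)) (fun v =>
      (fl1 (lam n) (B' n v - β' n v * A' n v), fl1 (s n) (A' n v), fl1 (s n) (B' n v), G n v,
        G' n v)) fun v => (fl1 (s n) (A n v), fl1 (s n) (B n v), G n v, G' n v)
  have c4 : ch (Q n) (fun v => fl1 (lam n) (A' n v)) (fun v =>
      (fl1 (lam n) (B n v - β n v * A n v), fl1 (lam n) (B' n v - β' n v * A' n v),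
        fl1 (s n) (A' n v), fl1 (s n) (B' n v), G n v, G' n v)) ≤
      ch (Q n) (fun v => (fl1 (lam n) (A' n v), fl1 (lam n) (B' n v))) fun v =>
        ((fl1 (lam n) (B n v - β n v * A n v), G n v),
          (fl1 (lam n) (B' n v - β' n v * A' n v), G' n v), fl1 (s n) (A' n v),
          fl1 (s n) (B' n v), ()) :=
    ch_le (fun _ _ _ _ w => congrArg (·.1.1) w) fun _ _ _ _ w =>
      congrArg (fun v => ((v.1, v.2.2.2.2.1), (v.2.1, v.2.2.2.2.2), v.2.2.1, v.2.2.2.1, ())) w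
  linarith

end TwoGA

theorem rowTwoG : OfTwoG := by
  intro hG Ω T U Γ P S Z G A B β M s lam h L ε ε₀ p h0 hε hh up
  by_contra hn
  have e1 := (not_ev.1 hn).mono fun n k =>
    show 1 / 2 ≤ pb (glue (P n) (P n) (S n) (S n)) fun v => ¬|β n v.1 - β n v.2| ≤ 1 / 2 ^ h n by
      rw [pb_not]; linarith [not_le.1 k]
  have mem : ∀ n v, v ∈ (glue (P n) (P n) (S n) (S n)).S →
      v.1 ∈ (P n).S ∧ v.2 ∈ (P n).S ∧ S n v.2 = S n v.1 := fun n v hv =>
    (kg.mem _ _ _ _ v (Law.rfl _)).1 hv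
  have hp : Pos (fun n => glue (P n) (P n) (S n) (S n)) fun n v =>
      ¬|β n v.1 - β n v.2| ≤ 1 / 2 ^ h n := ⟨_, one_half_pos, e1⟩
  obtain ⟨l1, l2⟩ := hG P S Z G A B β M s lam L ε _ p ((p.alg.and e1).mono fun n ⟨k, k'⟩ =>
    ⟨fun x hx y hy w => by
      rw [k.2.2.1 _ (mem n x hx).1 _ (mem n y hy).1 (congrArg Prod.fst w),
        k.2.2.1 _ (mem n x hx).2.1 _ (mem n y hy).2.1 (congrArg Prod.snd w)], k'⟩)
  have c := TwoGA.core (h := h) p.big p.sub p.lv ((p.alg.and hp.sure).mono fun n ⟨k, k'⟩ =>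
    ⟨fun x hx y hy w => k.2.2.1 _ (mem n x (cE_sub hx)).1 _ (mem n y (cE_sub hy)).1 w,
      fun x hx y hy w => k.2.2.1 _ (mem n x (cE_sub hx)).2.1 _ (mem n y (cE_sub hy)).2.1 w,
      fun v hv => by
        obtain ⟨m1, m2, m3⟩ := mem n v (cE_sub hv)
        exact ⟨k.2.2.2.1 _ m1, k.2.2.2.1 _ m2, k.2.2.2.2.1 _ m1 _ m2 m3.symm,
          k.2.2.2.2.2 _ m1 _ m2 m3.symm, not_le.1 (k' v hv).2⟩⟩) l1 l2 (up _ hp)
  obtain ⟨-, κ, hκ, fr⟩ := p.frac
  refine c.false p.big (c := ε₀ / 4 * κ * lg) (by have := lg_pos; positivity)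
    (fr.mono fun n a => ?_)
  rw [Nat.cast_sub (p.lv n).1] at a
  have d0 : (0 : ℝ) ≤ lam n - s n := sub_nonneg.2 (by exact_mod_cast (p.lv n).1)
  have t1 := mul_le_mul_of_nonneg_left a (show 0 ≤ ε₀ / 4 by positivity)
  have t2 := mul_le_mul_of_nonneg_right hε d0
  have t3 : (2 - ε₀) * (lam n - s n) + h n + ε₀ / 4 * (κ * M n) ≤
      2 * ((1 - 2 * ε) * (lam n - s n)) := by linarith [hh n]
  nlinarith [mul_le_mul_of_nonneg_right t3 lg_pos.le]

end Pool.Agent.MP_5168f5_an.R4.CI
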