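import Pool.Agent.MP_5168f5_an.R4.SpecC
import Pool.Agent.MP_5168f5_an.R4.NCp3

/-! Equal weights: the frame of two lines. -/

namespace Pool.Agent.MP_5168f5_an.R4.CI

open H19 H17S H17F Filter NCx Tan
open Web (RV rd G3 sl TFul)

namespace WebDA

theorem ml {a b c d : ℝ} (h : |a| ≤ c) (h' : |b| ≤ d) : |a * b| ≤ c * d := by
  rw [abs_mul]; exact mul_le_mul h h' (abs_nonneg _) ((abs_nonneg _).trans h)

theorem tri {a b c x y : ℝ} (e : c = a + b) (h : |a| ≤ x) (h' : |b| ≤ y) : |c| ≤ x + y :=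
  e ▸ (abs_add_le a b).trans (add_le_add h h')

theorem up {L x a ε : ℝ} {i : ℕ} (hL : 1 ≤ L) (h0 : 0 ≤ x) (h : x ≤ ε) (hi : i ≤ 3) (a0 : 0 ≤ a)
    (ha : a ≤ 7) : a * L ^ i * x ≤ 7 * L ^ 3 * ε :=
  mul_le_mul (mul_le_mul ha (pow_le_pow_right₀ hL hi) (by positivity) (by norm_num)) h h0
    (by positivity)

/-- The indices. -/
theorem idx {a₀ w₀ a₁ w₁ r₀ r₁ t t₁ L δ : ℝ} (hL : 1 ≤ L) (hs : 1 ≤ L * |r₀ - r₁|)
    (hw : |w₁| ≤ L) (h0 : |r₀ - w₀| ≤ δ) (h1 : |r₁ - w₁| ≤ δ) (ht : |t| ≤ 1)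
    (ht' : |t - t₁| ≤ δ) (hx : |a₁ + t₁ * w₁ - (a₀ + t * w₀)| ≤ 2 * L * δ) :
    |(r₁ - r₀)⁻¹| ≤ L ∧ |(a₀ + t * w₀ - r₀ * t) / (r₁ - r₀) - a₀ / (r₁ - r₀)| ≤ L * δ ∧
      |t - (a₀ + t * w₀ - r₀ * t) / (r₁ - r₀) + a₁ / (r₁ - r₀)| ≤ 4 * L ^ 2 * δ := by
  have p : 0 < |r₁ - r₀| := by
    rw [abs_sub_comm]; exact (mul_pos_iff_of_pos_left (by linarith)).1 (one_pos.trans_le hs)
  have q : |(r₁ - r₀)⁻¹| ≤ L := by
    rw [abs_inv, inv_le_iff_one_le_mul₀ p, abs_sub_comm]; exact hs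
  have n := abs_pos.1 p
  have d : δ ≤ L * δ := le_mul_of_one_le_left ((abs_nonneg _).trans h0) hL
  refine ⟨q, ?_, ?_⟩
  · rw [abs_sub_comm] at h0
    exact (congrArg _ (by ring)).trans_le ((ml q (ml h0 ht)).trans_eq (by ring))
  · have k := tri rfl (tri rfl (ml h1 ht) (ml hw ht')) hx
    exact (congrArg _ (by field_simp; ring)).trans_le
      ((ml q (k.trans (by linarith : _ ≤ 4 * L * δ))).trans_eq (by ring))

end WebDA

open WebDA in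
theorem rowWebD : WebD := by
  refine ⟨7, 3, by norm_num, fun g D J M L v ⟨hM, hs, h⟩ => ?_⟩
  have s0 : Su g D J M L v.1.1 := (h 0).1
  have s1 : Su g D J M L v.1.2 := (h 1).1
  have hL := s0.one
  have t0 : |g.z v.1.1| ≤ 1 := (abs_of_nonneg s0.box.2.1).trans_le s0.box.2.2.le
  have t1 : |g.z v.1.1 - g.z v.1.2| ≤ 1 / 2 ^ J := by
    rw [one_div]; exact (abs_sub_lt_of_fl1_eq (h 1).2.1.symm).le
  have b : ∀ i, |g.pt v.1.1 i - g.pt v.1.2 i| ≤ 2 * L * (1 / 2 ^ J) := fun i => by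
    have e : D.o J v.1.2 = D.o J v.1.1 := (h 1).2.2.1
    have u := s1.ball i
    rw [e, abs_sub_comm] at u
    exact (tri (by ring) (s0.ball i) u).trans_eq (by ring)
  obtain ⟨i0, i1, i2⟩ := idx hL (hs 0 1 (by decide)) (s1.box.1 0).2 (abs_rd_sub J _)
    (abs_rd_sub J _) t0 t1 ((abs_sub_comm _ _).trans_le (b 0))
  replace i1 : |ca g J v - ab g J 0 v| ≤ L * (1 / 2 ^ J) := i1
  replace i2 : |cb g J v + ab g J 1 v| ≤ 4 * L ^ 2 * (1 / 2 ^ J) := i2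
  have a0 : |ab g J 0 v| ≤ L * L := ml (s0.box.1 0).1 i0
  have d0 : (0 : ℝ) ≤ 1 / 2 ^ J := by positivity
  have d1 : (1 : ℝ) / 2 ^ J ≤ 1 / 2 ^ M :=
    one_div_le_one_div_of_le (by positivity) (pow_le_pow_right₀ one_le_two hM)
  have d2 : (1 : ℝ) / 2 ^ J ≤ 1 := (div_le_one (by positivity)).2 (one_le_pow₀ one_le_two)
  have l2 : L ≤ L ^ 2 := le_self_pow₀ hL two_ne_zero
  have l3 : L ^ 2 ≤ L ^ 3 := pow_le_pow_right₀ hL (by norm_num)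
  have m1 := le_mul_of_one_le_left d0 hL
  have m2 := mul_le_mul_of_nonneg_right l2 d0
  have m3 := mul_le_mul_of_nonneg_right l3 d0
  have c0 : |ca g J v| ≤ 2 * L ^ 2 := (tri (by ring) i1 a0).trans (by nlinarith)
  have i3 : |ca g J v - ab g J 1 v - g.z v.1.2| ≤ 5 * L ^ 2 * (1 / 2 ^ J) :=
    (tri (by rw [cb]; ring) t1 ((abs_neg _).trans_le i2)).trans (by linarith)
  have nm : ∀ {x : V 2} {c : ℝ}, 0 ≤ c → |x 0| ≤ c → |x 1| ≤ c → ‖x‖ ≤ c := fun c0 u w =>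
    (pi_norm_le_iff_of_nonneg c0).2 (Fin.forall_fin_two.2 ⟨u, w⟩)
  have p0 : ∀ i, |g.pt v.1.1 i| ≤ 7 * L ^ 3 := fun i =>
    (tri rfl (s0.box.1 i).1 (ml t0 (s0.box.1 i).2)).trans (by linarith)
  have k1 : ∀ i, |g.pt v.1.1 i - (g.a v.1.1 i + ab g J 0 v * g.e v.1.1 i) -
      cb g J v * g.e v.1.1 i| ≤ 7 * L ^ 3 * (1 / 2 ^ M) := fun i =>
    (congrArg _ (by simp only [cb, Geo.pt, Geo.lt, Pi.add_apply, Pi.smul_apply, smul_eq_mul]; ring)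
      ).trans_le ((ml i1 (s0.box.1 i).2).trans
        ((by ring : _ = 1 * L ^ 2 * (1 / 2 ^ J)).trans_le (up hL d0 d1 (by norm_num) zero_le_one
          (by norm_num))))
  have k2 : ∀ i, |g.pt v.1.1 i - (g.a v.1.2 i - ab g J 1 v * g.e v.1.2 i) -
      ca g J v * g.e v.1.2 i| ≤ 7 * L ^ 3 * (1 / 2 ^ M) := fun i =>
    (tri (by simp only [Geo.pt, Geo.lt, Pi.add_apply, Pi.smul_apply, smul_eq_mul]; ring) (b i)
      ((abs_neg _).trans_le (ml i3 (s1.box.1 i).2))).trans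
        ((by linarith : _ ≤ 7 * L ^ 3 * (1 / 2 ^ J)).trans (up hL d0 d1 le_rfl (by norm_num) le_rfl))
  have k3 : ∀ i, |g.a v.1.1 i + ab g J 0 v * g.e v.1.1 i - g.a v.1.1 i -
      rd J (ca g J v) * rd M (g.e v.1.1 i)| ≤ 7 * L ^ 3 * (1 / 2 ^ M) := fun i => by
    have u1 : |rd J (ca g J v) - ab g J 0 v| ≤ 2 * L * (1 / 2 ^ J) :=
      (tri (by ring) (abs_rd_sub J _) i1).trans (by linarith)
    have u2 : |rd J (ca g J v)| ≤ 3 * L ^ 2 :=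
      (tri (by ring) (abs_rd_sub J _) c0).trans (by linarith)
    refine (tri (by ring) ((abs_neg _).trans_le (ml u1 (s0.box.1 i).2))
      ((abs_neg _).trans_le (ml u2 (abs_rd_sub M (g.e v.1.1 i))))).trans ?_
    nlinarith [mul_le_mul_of_nonneg_left d1 (show 0 ≤ L ^ 2 by positivity),
      mul_le_mul_of_nonneg_right l3 (d0.trans d1), mul_nonneg (show 0 ≤ L ^ 3 by positivity)
        (d0.trans d1)]
  have z : (0 : ℝ) ≤ 7 * L ^ 3 * (1 / 2 ^ M) := by positivity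
  simp only [div_eq_mul_one_div (7 * L ^ 3)]
  exact ⟨⟨by linarith, (tri (sub_eq_add_neg _ _) t0 ((abs_neg _).trans_le c0)).trans (by linarith),
    nm (by positivity) (p0 1) (p0 2)⟩, ⟨by linarith, by linarith, by linarith⟩,
    nm z (k1 1) (k1 2), nm z (k2 1) (k2 2), nm z (k3 1) (k3 2)⟩

end Pool.Agent.MP_5168f5_an.R4.CI
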