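import Pool.Agent.MP_5168f5_an.R4.SpecAd

/-! Row LabI: a variable of a second height is added to the label. -/

namespace Pool.Agent.MP_5168f5_an.R4.Tan

open H19 H17S H17F Filter Matrix Web NCx

theorem rowLabI : LabI := by
  intro N Ω Λ Λ' Φ P g m j S S' F E B hm hl hk hf _ hE hD
  have law := fun n => kg.fst (P n) (P n) (fun ω => ((g n).ln ω, S n ω)) fun ω => ((g n).ln ω, S n ω)
  refine ⟨sm_mi_cE hm hE (hl.h.mono (Eventually.of_forall fun n => ?_)), ?_⟩
  · have h1 := kf2.copy (P n) (fun ω => ((g n).ln ω, S n ω)) (g n).core (F n)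
      (fun ω => (S n ω, (g n).win (j n) ω)) fun _ _ _ _ e =>
        Prod.ext (congrArg (·.2.1) e) (congrArg (·.1) e)
    have h2 := (law n).mi_id (S n) (g n).core ((g n).win (j n))
    rw [mi_symm] at h1 h2
    rw [mi_symm, mi_chain]
    exact (congrArg₂ (· + ·) h2 h1).le.trans (add_zero _).le
  · have h1 := sm_mi_cE hm hE (hk.mono (Eventually.of_forall fun n =>
      ((law n).mi_id (S' n) (g n).core (g n).y).le))
    refine (h1.add (hm.sm (Real.log B))).mono ((hf.and hD).mono fun n a => ?_)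
    refine (mi_symm _ _ _).le.trans ((mi_near _ _ (fun v : Ω n × Ω n => S' n v.1) _).trans
      (add_le_add (mi_symm _ _ _).le ((ch_le ?_ (Fn.fst _ _)).trans (ch_det a.2))))
    exact (((fn_cE ((law n).fn a.1) _).left _).right _).pair (Fn.fst _ _)

end Pool.Agent.MP_5168f5_an.R4.Tan
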