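import Pool.Agent.MP_5168f5_an.R4.CGlue
import Pool.Agent.MP_5168f5_an.R4.CWebD
import Pool.Agent.MP_5168f5_an.R4.CKAl
import Pool.Agent.MP_5168f5_an.R4.CNGT
import Pool.Agent.MP_5168f5_an.R4.CPGev
import Pool.Agent.MP_5168f5_an.R4.CTwoG
import Pool.Agent.MP_5168f5_an.R4.COneG
import Pool.Agent.MP_5168f5_an.R4.CLabP
import Pool.Agent.MP_5168f5_an.R4.CRevK
import Pool.Agent.MP_5168f5_an.R4.CConU
import Pool.Agent.MP_5168f5_an.R4.CF3A
import Pool.Agent.MP_5168f5_an.R4.CWebA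
import Pool.Agent.MP_5168f5_an.R4.CNGA
import Pool.Agent.MP_5168f5_an.R4.CKil1
import Pool.Agent.MP_5168f5_an.R4.CKil2
import Pool.Agent.MP_5168f5_an.R4.CGrPt
import Pool.Agent.MP_5168f5_an.R4.CPrep
import Pool.Agent.MP_5168f5_an.R4.CPzA
import Pool.Agent.MP_5168f5_an.R4.CSpA
import Pool.Agent.MP_5168f5_an.R4.CSyA
import Pool.Agent.MP_5168f5_an.R4.CGrE
import Pool.Agent.MP_5168f5_an.R4.CGrF
import Pool.Agent.MP_5168f5_an.R4.ATFul
import Pool.Agent.MP_5168f5_an.R4.ACop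
import Pool.Agent.MP_5168f5_an.R4.WSpr
import Pool.Agent.MP_5168f5_an.R4.DLabI

/-! Equal weights, both slopes determined by the base line: the case is impossible. -/

namespace Pool.Agent.MP_5168f5_an.R4.CI

open Tan

theorem cic : CIC :=
  cic_of rowPrep rowPzA rowSpA (rowF3A (Web.rowTFul Web.rowKCop)) (rowWebA rowWebD)
    (rowNGA rowWebD rowNGT) (rowKil1 rowKAl Web.rowSpr) (rowKil2 rowKAl)
    (rowConU rowRevK rowLabI) rowGrE
    (rowGrF rowPzA rowSyA rowGrPt rowPGev (rowTwoG rowPGev) rowOneG rowLabP)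

end Pool.Agent.MP_5168f5_an.R4.CI
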