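import Pool.Agent.MP_5168f5_an.R4.SpecAd
import Pool.Agent.MP_5168f5_an.R4.SVTan

/-! Case A, curved. -/

namespace Pool.Agent.MP_5168f5_an.R4.Tan

open H19 H17S H17F Filter

theorem rowCAC : OfCAC := by
  intro ub Ω K g M mm D Q η d ε₀ h
  refine ub K g M mm D Q False d ε₀ ⟨h.cl.toCl0, h.ne, h.bigm, h.sm, h.dge, h.e0, fun X hX => ?_⟩
    fun X hX Λ lam A L j τ k a b c e f u v => (h.cu X hX).optE Λ lam A L j τ k a b c e f u
      (v.mono (Eventually.of_forall fun n ω _ w => ⟨w.1.1, w.2⟩))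
  have cu := h.cu X hX
  have com := h.com X hX
  refine ⟨fun C c => (h.cls C c).bs X hX, ?_, com.lab, fun a ha => ?_, com.typ,
    fun j R hj hR => cp3r h.toTn hX hj (com.lab j hj) one_pos
      (Eventually.of_forall fun n => by rw [one_mul]; exact_mod_cast hR n), ?_, False.elim,
    fun _ => cu.surf, fun a τ ha e => ?_, cu.ng, fun ξ τ q s r a b c e => svC h hX a b c e⟩
  · filter_upwards [cu.fn, com.nest] with n a b
    refine ⟨a.2.1, a.2.2.1, fun j => ⟨(b.2 j).1, fun x hx y hy e => ?_⟩⟩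
    have k1 := (b.2 j).2 x hx y hy e
    have k2 := a.2.2.2 j x hx y hy e
    have k3 := a.1 x hx y hy (Prod.mk.inj k1).1
    simp only [Prod.mk.injEq] at k1 k2 k3
    simp only [cd, dd, k1.1, k1.2.1, k1.2.2.1, k2.1, k2.2, k3.1, k3.2]
  · obtain ⟨L, s, w⟩ := com.ball a ha
    obtain ⟨L', s', w'⟩ := cu.ball a ha
    refine ⟨_, s.mul s', (w.and w').mono (Eventually.of_forall fun n ω _ u => ⟨fun i =>
      (u.1 i).trans ?_, u.2.trans ?_⟩)⟩ <;> refine div_le_div_of_nonneg_right ?_ (by positivity)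
    exacts [le_mul_of_one_le_right (s.pos n).le (s'.1 n), le_mul_of_one_le_left (s'.pos n).le (s.1 n)]
  · obtain ⟨L, s, w⟩ := cu.bd
    obtain ⟨L', s', w'⟩ := cu.nd
    replace s := sub_up h.sm s
    refine ⟨_, s.mul s', w'.mono (w.mono fun n a ω hω u => ?_)⟩
    have k := le_mul_of_one_le_left (s'.pos n).le (s.1 n)
    exact ⟨fun i => (a ω hω i).trans (le_mul_of_one_le_right (s.pos n).le (s'.1 n)),
      fun i j => (u.1 i j).trans k, u.2.1.trans k, fun i => (u.2.2.1 i).trans k, fun _ =>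
        u.2.2.2.trans (mul_le_mul_of_nonneg_right k (abs_nonneg _))⟩
  · obtain ⟨L, s, w⟩ := cu.cell a τ ha e
    exact ⟨L, s, w.mono (Eventually.of_forall fun n ω _ u => ⟨u.1, False.elim, u.2⟩)⟩

end Pool.Agent.MP_5168f5_an.R4.Tan
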