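import Pool.Agent.MP_5168f5_an.R4.SpecAd
import Pool.Agent.MP_5168f5_an.R4.SVTan

/-! Case A, flat. -/

namespace Pool.Agent.MP_5168f5_an.R4.Tan

open H19 H17S H17F Filter Matrix Web NCx

namespace CAFA

/-- A plane as a quadric. -/
def pQ (d : ℝ × ℝ × V 3) : Qd := Matrix.of fun i k =>
  if i = 0 then (![d.1, d.2.1, d.2.2 0, d.2.2 1, 0] : V 5) k else 0

/-- The curved data of the flat case. -/
def fQ {Ω : Type} (g : Geo 3 Ω) (D : Td Ω) : Tq Ω :=
  ⟨fun _ => 0, fun _ => (0, 0), fun ω i => if i = 0 then g.a ω 2 else if i = 1 then g.e ω 2 else 0,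
    fun j ω => pQ (D.H j ω), fun j ω => D.o j ω 2⟩

theorem fc_eq {Ω : Type} (g : Geo 3 Ω) (D : Td Ω) (ω : Ω) (t : ℝ) :
    fc (fQ g D) ω t = g.lt t ω 2 := by
  simp [fc, ev, fQ, Finset.sum_range_succ, Geo.lt, mul_comm]

theorem ql_eq {Ω : Type} (g : Geo 3 Ω) (d : ℝ × ℝ × V 3) (ω : Ω) (t : ℝ) : ql g (pQ d) ω t =
    d.1 + d.2.1 * t + d.2.2 0 * g.lt t ω 0 + d.2.2 1 * g.lt t ω 1 := by
  simp [ql, qf, pQ, hom, Matrix.mulVec, dotProduct, Fin.sum_univ_five]

theorem cell {Ω : Type} {P : FP Ω} {g : Geo 3 Ω} {L₀ L : ℝ} {d : ℝ × ℝ × V 3} {ω : Ω} {j τ : ℕ}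
    (b : g.Bx P L₀) (hω : ω ∈ P.S) (h0 : 1 ≤ L₀) (h1 : 1 ≤ L)
    (h : (g.pl {0, 1} 2).fit L d ω j τ) : Hy (pQ d) (8 * (L * L₀)) ∧
      ∀ t : ℝ, fl1 j t = fl1 j (g.z ω) → |g.lt t ω 2 - ql g (pQ d) ω t| ≤ L / 2 ^ τ := by
  obtain ⟨h2, h3, h4⟩ := h
  have h5 : ∀ t : ℝ, fl1 j t = fl1 j (g.z ω) → |g.lt t ω 2 - ql g (pQ d) ω t| ≤ L / 2 ^ τ :=
    fun t ht => by
      refine le_trans (le_of_eq (congrArg _ ?_)) (h4 t ht)
      rw [ql_eq, Fin.sum_univ_three, (h3 2).2 (by decide)]; ring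
  have u1 : L ≤ L * L₀ := le_mul_of_one_le_right (by positivity) h0
  have u2 : L₀ ≤ L * L₀ := le_mul_of_one_le_left (by positivity) h1
  refine ⟨⟨fun i k e => ?_, fun k => ?_⟩, h5⟩
  · rcases e with e | rfl
    · simp [pQ, e]
    · simp [pQ]
  · have m : ∀ {a b x y : ℝ}, |a| ≤ x → |b| ≤ y → |a * b| ≤ x * y := fun h h' => by
      rw [abs_mul]; exact mul_le_mul h h' (abs_nonneg _) ((abs_nonneg _).trans h)
    have k0 := abs_le.1 ((h5 _ rfl).trans (div_le_self (by positivity) (one_le_pow₀ one_le_two)))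
    rw [ql_eq] at k0
    have z := (b.bd ω hω).2
    have k1 := abs_le.1 (m h2 ((abs_of_nonneg z.1).trans_le z.2.le))
    have k2 := abs_le.1 (m (h3 0).1 (SVT.abs_pt b hω 0))
    have k3 := abs_le.1 (m (h3 1).1 (SVT.abs_pt b hω 1))
    have k4 := abs_le.1 (SVT.abs_pt b hω 2)
    have k5 : |d.1| ≤ 8 * (L * L₀) := by
      unfold Geo.pt at k2 k3 k4
      exact abs_le.2 ⟨by linarith, by linarith⟩
    have k6 : L ≤ 8 * (L * L₀) := by linarith
    fin_cases k
    exacts [k5, h2.trans k6, (h3 0).1.trans k6, (h3 1).1.trans k6, by simp [pQ]; positivity]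

end CAFA

open CAFA in
theorem rowCAF : OfCAF := by
  intro ub Ω K g M mm D η d ε₀ h
  refine ub K g M mm D (fun n => fQ (g n) (D n)) True d ε₀
    ⟨h.cl.toCl0, h.ne, h.toTn.bigm, h.sm, h.dge, h.e0, fun X hX => ?_⟩ fun X hX => ?_
  · have c := h.com X hX
    have f := h.fl X hX
    obtain ⟨L₀, s0, b0⟩ := h.toTn.bx hX
    have e : ∀ n v t, fc (mQ X (fun n => fQ (g n) (D n)) n) v t = (X.G g n).lt t v 2 :=
      fun n v t => fc_eq (g n) (D n) _ t
    refine ⟨fun C hC => (h.cls C hC).bs X hX, c.nest.mono fun n a => ⟨fun x _ y _ u => ?_,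
      fun _ _ => Matrix.isSymm_zero, fun j => ⟨(a.2 j).1, fun x hx y hy u => ?_⟩⟩, c.lab,
      fun a ha => ?_, c.typ, fun j R hj hR => cp3r h.toTn hX hj (c.lab j hj) one_pos
        (Eventually.of_forall fun n => by rw [one_mul]; exact_mod_cast hR n),
      ⟨L₀, s0, Whp.of_ev (b0.mono fun n a v hv => ?_)⟩, fun _ _ _ => ⟨rfl, rfl⟩,
      fun u => absurd trivial u, fun a τ ha hτ => ?_, fun q q' r hr u => ?_,
      fun ξ τ q s r hξ hr hs u => ?_⟩
    · simp only [Geo.ln, Prod.mk.injEq] at u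
      simp only [fQ, u.1, u.2.1]
    · have k := (a.2 j).2 x hx y hy u
      simp only [Prod.mk.injEq] at k
      simp only [cd, dd, fQ, k.1, k.2.1, k.2.2.1, k.2.2.2.2]
    · obtain ⟨L, s, w⟩ := c.ball a ha
      exact ⟨L, s, w.mono (Eventually.of_forall fun n v _ u => ⟨u, by rw [e]; exact u 2⟩)⟩
    · have p := (s0.pos n).le
      refine ⟨fun i => ?_, fun _ _ => by simpa [fQ] using p, by simpa [fQ] using p,
        fun _ => by simpa [fQ] using p, fun u => absurd trivial u⟩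
      simp only [fQ]
      split_ifs
      exacts [((a.bd v hv).1 2).1, ((a.bd v hv).1 2).2, by simpa using p]
    · obtain ⟨L, s, w⟩ := f.cellH a τ ha hτ
      refine ⟨_, (s.mul s0).const_mul h.toTn.big (by norm_num : (1 : ℝ) ≤ 8),
        w.mono (b0.mono fun n b v hv u => ?_)⟩
      obtain ⟨k1, k2⟩ := cell b hv (s0.1 n) (s.1 n) u
      have p := s.pos n
      have p0 := s0.pos n
      refine ⟨fun i k => le_trans ?_ (le_mul_of_one_le_right (by positivity)
        (one_le_pow₀ one_le_two)), fun _ => k1, fun t ht => ?_⟩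
      · by_cases z : i = 0
        · rw [z]; exact k1.2 k
        · exact (congrArg _ (k1.1 i k (Or.inl z))).trans_le (by rw [abs_zero]; positivity)
      · rw [e]
        refine (k2 t ht).trans (div_le_div_of_nonneg_right ?_ (by positivity))
        linarith [le_mul_of_one_le_right p.le (s0.1 n)]
    · simp only [e]
      exact f.ng q q' r hr (u.mono fun n a => ⟨a.1, by
        linarith [a.2, Nat.cast_nonneg (α := ℝ) (q' n)]⟩)
    · refine (svF h hX hξ hr hs (u.mono fun n a => ⟨a.1, a.2.1, by omega⟩)).mono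
        (Eventually.of_forall fun n => ch_mono fun x _ y _ u => ?_)
      simp only [Prod.mk.injEq] at u
      simp [cc, fQ, u.1.1, u.1.2]
  · intro Λ lam A L j τ k hj hτ hk hl hL hA w
    refine (h.fl X hX).optA Λ lam A L j τ k hj hτ hk hl hL hA
      (w.mono (Eventually.of_forall fun n v _ u => ⟨⟨fun i l =>
        ⟨u.1.1 i l, (u.1.2 trivial).1 i l⟩, (u.1.2 trivial).2⟩, ?_⟩))
    have := u.2
    simp only [show ∀ t, fc (mQ X (fun n => fQ (g n) (D n)) n) v t = (X.G g n).lt t v 2 from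
      fun t => fc_eq (g n) (D n) _ t] at this
    exact this

end Pool.Agent.MP_5168f5_an.R4.Tan
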