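import Pool.Agent.MP_5168f5_an.R4.SpecAd

/-! Case A: the rescaled cell is a system of curves. -/

namespace Pool.Agent.MP_5168f5_an.R4.Tan

open H19 H17S H17F Filter Matrix Web NCx

namespace DChASA

theorem bd_mono {c : Cv} {L L' : ℝ} (h : c.Bd L) (e : L ≤ L') : c.Bd L' :=
  ⟨fun i => ⟨(h.1 i).1.trans e, (h.1 i).2.trans e⟩, fun j => (h.2.1 j).trans e, h.2.2⟩

theorem dv {x L L' : ℝ} {j : ℕ} (h : x ≤ L / 2 ^ j) (e : L ≤ L') : x ≤ L' / 2 ^ j :=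
  h.trans (div_le_div_of_nonneg_right e (by positivity))

end DChASA

open DChASA in
theorem rowChAS : OfChAS := by
  rintro k0 ⟨K₁, m₁, c₁, k1⟩ ⟨K₂, m₂, c₂, k2⟩ hNG hSV Ω P g M D Q b ξ τ μ L ε₀ h
  have hμ := h.frac.1
  have s1 := (h.sub.pow m₁).const_mul h.big c₁
  have s2 := (h.sub.pow m₂).const_mul h.big c₂
  refine ⟨⟨tendsto_atTop_mono hμ h.big, h.frac, h.e0.1, h.e0.2, ⟨_, (s1.add s2 h.big).up hμ, ?_⟩,
    (h.hgt.trans (Le.of_ev ?_)).up hμ, Le.up (h.typ.mono ?_) hμ, hNG P g M D Q b ξ τ μ L ε₀ h,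
    Le.up (hSV P g M D Q b ξ τ μ L ε₀ h) hμ, h.cp.imp fun _ k => ⟨k.1.up hμ, k.2⟩⟩, ?_⟩
  · filter_upwards [h.gd, h.fn] with n a ⟨f1, f2, f3⟩
    have e1 := le_add_of_nonneg_right (a := K₁ * L n ^ m₁) (s2.pos n).le
    have e2 := le_add_of_nonneg_left (a := K₂ * L n ^ m₂) (s1.pos n).le
    have h2 : ∀ ω ∈ (P n).S, ∀ ω' ∈ (P n).S,
        (D n).S (ξ n + μ n) ω = (D n).S (ξ n + μ n) ω' → _ := fun ω u ω' u' e =>
      (k2 (g n) (D n) (Q n) b (M n) (ξ n) (τ n) (μ n) (L n) ω ω' (h.lv n) (a ω u) (a ω' u')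
        (congrArg Prod.snd (f2 ω u ω' u' (congrArg Prod.fst (f3 ω u ω' u' e))))).1
        (congrArg Prod.snd (f3 ω u ω' u' e))
    refine ⟨fun ω u => bd_mono (k1 _ _ _ b _ _ _ _ _ ω (h.lv n) (a ω u)).1 e1,
      fun ω u ω' u' e => congrArg Prod.fst (f3 ω u ω' u' e), fun ω u ω' u' e => ?_,
      fun i ω u ω' u' e => dv ((h2 ω u ω' u' e).1 i) e2,
      fun ω u ω' u' e => dv (h2 ω u ω' u' e).2 e2⟩
    have e3 := congrArg Prod.fst e
    exact k0.crv _ _ _ _ _ ω ω' (congrArg Prod.fst e3) (congrArg (fun p => p.2.1) e3)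
      (f1 ω u ω' u' e3) (congrArg Prod.snd (f2 ω u ω' u' (congrArg Prod.snd e)))
  · filter_upwards [h.fn] with n ⟨_, f2, _⟩
    exact ch_mono fun ω u ω' u' e => (ka.fl (ξ n) (μ n) _ _).2
      ⟨congrArg (fun p => p.2.1) (f2 ω u ω' u' (congrArg (fun p => p.2.2) e)), congrArg Prod.fst e⟩
  · filter_upwards [h.fn] with n ⟨_, f2, f3⟩
    refine (mi_cond (K := (g n).θ) (fun ω u ω' u' e => congrArg Prod.fst (f2 ω u ω' u' e))
      fun ω u ω' u' e => congrArg Prod.fst (f3 ω u ω' u' (congrArg Prod.fst e))).trans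
      (mi_mono' fun ω _ ω' _ e => funext fun i => ?_)
    have e1 := congrFun (congrArg Prod.fst e)
    fin_cases i
    · exact fl1_eq_of_le (Nat.le_add_left _ _) (by simpa [ty, chl] using e1 0)
    · exact fl1_eq_of_le (Nat.le_add_left _ _) (by simpa [ty, chl] using e1 1)
  by_cases hb : b
  · refine Or.inl ⟨h.gd.mono fun n a ω u => (k1 _ _ _ b _ _ _ _ _ ω (h.lv n) (a ω u)).2.1 hb, ?_⟩
    exact funext fun n => funext fun ω => h.q0 hb n ω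
  refine Or.inr ⟨_, (s1.add h.sub h.big).up hμ, ?_, Whp.of_ev ?_⟩
  · filter_upwards [h.gd, h.fn] with n a ⟨_, f2, _⟩
    refine ⟨fun ω u ω' u' e => congrArg (fun p => p.2.2.2.2.1) (f2 ω u ω' u' e), fun ω u =>
      ⟨fun i j => ⟨((a ω u).sq.2.1 i j).trans (le_add_of_nonneg_left (s1.pos n).le),
        (a ω u).sq.1.apply j i⟩, ?_⟩⟩
    obtain ⟨i, j, e⟩ := ((k1 _ _ _ b _ _ _ _ _ ω (h.lv n) (a ω u)).2.2 hb).1
    exact ⟨i, j, e.trans (mul_le_mul_of_nonneg_right (le_add_of_nonneg_right (h.sub.pos n).le)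
      (abs_nonneg _))⟩
  · filter_upwards [h.gd] with n a ω u
    exact dv ((k1 _ _ _ b _ _ _ _ _ ω (h.lv n) (a ω u)).2.2 hb).2
      (le_add_of_nonneg_right (h.sub.pos n).le)

end Pool.Agent.MP_5168f5_an.R4.Tan
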