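import Pool.Agent.MP_5168f5_an.R4.SpecAd
import Pool.Agent.MP_5168f5_an.R4.AStar

/-! The rate of the fibre coordinate in the rescaled cell. -/

namespace Pool.Agent.MP_5168f5_an.R4.Tan

open H19 H17S H17F Filter Matrix Web NCx

namespace DChNGA

theorem mi_win {Ω α β γ δ ε ζ : Type} (P : FP Ω) (F : Ω → α) {p : Ω → β} (S : Ω → γ) {z : Ω → δ}
    (l : Ω → ε) {w : Ω → ζ} (h : Fn P w p) (h' : Fn P w z) :
    mi P F (fun ω => (z ω, p ω, S ω)) (fun ω => (p ω, S ω)) ≤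
      mi P z l S + ch P F (fun ω => (l ω, w ω, S ω)) + ch P p fun ω => (l ω, w ω, S ω) := by
  have a1 : mi P F (fun ω => (z ω, p ω, S ω)) (fun ω => (p ω, S ω)) ≤
      mi P F z fun ω => (p ω, S ω) := mi_mono (Fn.rfl _)
  have a2 := ch_anti (P := P) (F := z) ((h.left S).pair (Fn.snd p S))
  have a3 : ch P z (fun ω => ((F ω, p ω), w ω, S ω)) ≤ ch P z fun ω => (F ω, p ω, S ω) :=
    ch_anti fun a _ b _ e => by simp only [Prod.mk.injEq] at e ⊢; tauto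
  have a4 := mi_near (P := P) z (fun ω => (F ω, p ω)) l fun ω => (w ω, S ω)
  have a5 := mi_cond (F := l) (Fn.snd w S) ((h'.left S).pair (Fn.snd z S))
  have a6 := ch_subadd (P := P) F p fun ω => (l ω, w ω, S ω)
  rw [mi_symm l, mi_symm l] at a5
  rw [mi_symm F z] at a1
  unfold mi at *
  linarith

theorem near {c c' : Cv} {L ε : ℝ} (hL : 1 ≤ L) (h : c.Bd L) (h' : c'.Bd L) (e : c.crv = c'.crv)
    (t : |c.t - c'.t| ≤ ε) : ‖c.pt - c'.pt‖ ≤ L * ε ∧ |c.φ - c'.φ| ≤ 3 * L * ε := by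
  simp only [Cv.crv, Prod.mk.injEq] at e
  obtain ⟨e1, e2, e3⟩ := e
  have e0 := (abs_nonneg _).trans t
  have k : ∀ x : ℝ, |x| ≤ L → |x * (c.t - c'.t)| ≤ L * ε := fun x hx =>
    (abs_mul _ _).trans_le (mul_le_mul hx t (abs_nonneg _) (by linarith))
  refine ⟨(pi_norm_le_iff_of_nonneg (by positivity)).2 (Fin.forall_fin_succ.2 ⟨?_,
    Fin.forall_fin_two.2 ⟨?_, ?_⟩⟩), ?_⟩
  · exact t.trans (le_mul_of_one_le_left e0 hL)
  · refine le_of_eq_of_le (congrArg _ ?_) (k _ (h.1 0).2)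
    simp [Cv.pt, Cv.z, ← e1, ← e2]
    ring
  · refine le_of_eq_of_le (congrArg _ ?_) (k _ (h.1 1).2)
    simp [Cv.pt, Cv.z, ← e1, ← e2]
    ring
  · have k1 := abs_le.1 (k _ (h.2.1 1))
    have k2 := abs_le.1 (k _ (h.2.1 2))
    simp only [Cv.φ, Cv.f, ← e3]
    exact abs_le.2 ⟨by nlinarith [h.2.2.1, h.2.2.2, h'.2.2.1, h'.2.2.2],
      by nlinarith [h.2.2.1, h.2.2.2, h'.2.2.1, h'.2.2.2]⟩

end DChNGA

theorem rowChNG : OfChNG := by
  intro k0 ⟨K₁, m₁, hK₁, k1⟩ ⟨K₂, m₂, hK₂, k2⟩ ngx Ω P g M D Q b ξ τ μ L ε₀ h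
  have hM := h.big
  have s1 := (h.sub.pow m₁).const_mul hM hK₁
  have s2 := (h.sub.pow m₂).const_mul hM hK₂
  have c2 := (h.gd.and h.fn).mono fun n u a ha a' ha'
    (e : (fl (μ n) (chl (g n) (D n) (Q n) (ξ n) (τ n) a).pt, (D n).S (ξ n) a) =
      (fl (μ n) (chl (g n) (D n) (Q n) (ξ n) (τ n) a').pt, (D n).S (ξ n) a')) =>
    (k2 (g n) (D n) (Q n) b _ _ _ _ _ a a' (h.lv n) (u.1 a ha) (u.1 a' ha')
      (congrArg Prod.snd (u.2.2.1 a ha a' ha' (congrArg Prod.snd e)))).2.1 (congrArg Prod.fst e)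
  have n1 : NG1 P (fun n ω => ((g n).z ω, fl (μ n) (chl (g n) (D n) (Q n) (ξ n) (τ n) ω).pt,
      (D n).S (ξ n) ω)) (fun n ω => 2 ^ τ n * fc (Q n) ω ((g n).z ω)) M ε₀ := by
    refine AStarA.ng_near h.ng ((hM.sm (Real.log (2 * 1 + 3) + Real.log (2 * 1 + 3))).mono ?_)
    filter_upwards [c2, h.fn] with n u w
    refine (ch_subadd _ _ _).trans (add_le_add
      (ch_near1 zero_le_one fun a ha a' ha' e => (u a ha a' ha' (congrArg Prod.snd e)).1)
      ((ch_mono (F' := fun ω => fl1 (μ n) ((g n).pt ω 1)) fun a ha a' ha' e => ?_).trans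
        (ch_near1 zero_le_one fun a ha a' ha' e => (u a ha a' ha' (congrArg Prod.snd e)).2.1)))
    exact Prod.ext (Prod.mk.inj e).1 (Prod.ext (congrArg (·.2.1) e)
      (congrArg Prod.fst (w.2.1 a ha a' ha' (congrArg (·.2.2.2) e))))
  have n2 := n1.lip (u' := fun n ω => (chl (g n) (D n) (Q n) (ξ n) (τ n) ω).φ) hM s2 (by
    filter_upwards [c2] with n u a ha a' ha' e
    have := (u a ha a' ha' (congrArg Prod.snd e)).2.2
    have l1 := s2.1 n
    generalize (chl (g n) (D n) (Q n) (ξ n) (τ n) a).φ - (chl (g n) (D n) (Q n) (ξ n) (τ n) a').φ =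
      x at this ⊢
    generalize 2 ^ τ n * fc (Q n) a ((g n).z a) - 2 ^ τ n * fc (Q n) a' ((g n).z a') = y at this ⊢
    rw [mul_add, mul_add, mul_one_div]
    have d1 := abs_sub_abs_le_abs_sub x y
    have d2 := abs_sub_abs_le_abs_sub y x
    rw [abs_sub_comm] at d2
    constructor <;> nlinarith [abs_nonneg x, abs_nonneg y])
  have c3 := (h.gd.and h.fn).mono fun n u a ha a' ha'
    (e : ((g n).ln a, fl1 (μ n) (chl (g n) (D n) (Q n) (ξ n) (τ n) a).t, (D n).S (ξ n) a) =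
      ((g n).ln a', fl1 (μ n) (chl (g n) (D n) (Q n) (ξ n) (τ n) a').t, (D n).S (ξ n) a')) =>
    DChNGA.near (s1.1 n) (k1 (g n) (D n) (Q n) b _ _ _ _ _ a (h.lv n) (u.1 a ha)).1
      (k1 (g n) (D n) (Q n) b _ _ _ _ _ a' (h.lv n) (u.1 a' ha')).1
      (k0.crv (g n) (D n) (Q n) _ _ a a' (congrArg (·.1.1) e) (congrArg (·.1.2.1) e)
        (u.2.1 a ha a' ha' (congrArg Prod.fst e))
        (congrArg Prod.snd (u.2.2.1 a ha a' ha' (congrArg (·.2.2) e))))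
      (abs_sub_lt_of_fl1_eq (congrArg (·.2.1) e)).le
  refine ngx P _ _ (fun _ _ => 0) _ _ M M M L ε₀ hM Frac.rfl Frac.rfl h.sub n2
    (Eventually.of_forall fun n => ⟨fun _ _ _ _ _ => rfl, fun ω _ => ?_⟩)
    (((h.inf.add (Sm.near1 (j := M) hM (s1.const_mul hM (by norm_num : (1 : ℝ) ≤ 3))
      (c3.mono fun n u a ha a' ha' e => (u a ha a' ha' e).2.trans ?_))).add
      (Sm.near (j := μ) hM s1 (c3.mono fun n u a ha a' ha' e => (u a ha a' ha' e).1))).mono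
      (Eventually.of_forall fun n => DChNGA.mi_win _ _ _ _ (fun _ _ _ _ e => congrFun e 0)
        fun _ _ _ _ e => ?_))
  · rw [sub_zero, sub_self, abs_zero]
    exact div_nonneg (h.sub.pos n).le (by positivity)
  · rw [← div_eq_mul_inv]
    exact div_le_div_of_nonneg_left (by linarith [s1.1 n]) (by positivity)
      (pow_le_pow_right₀ one_le_two (h.frac.1 n))
  · exact congrArg (fun z => fl1 (μ n) (Int.fract (2 ^ ξ n * z))) e

end Pool.Agent.MP_5168f5_an.R4.Tan
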