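import Pool.Agent.MP_5168f5_an.R4.SpecAd

/-! Case A: the base line of the rescaled curve determines its slope and curvature. -/

namespace Pool.Agent.MP_5168f5_an.R4.Tan

open H19 H17S H17F Filter Matrix Web NCx

namespace DChSVA

theorem chain {Ω α β γ δ ζ η : Type} {P : FP Ω} (F F' : Ω → α) (c : Ω → β) (a a' : Ω → γ)
    {B : Ω → δ} {S : Ω → ζ} {W : Ω → η} (h : Fn P B fun ω => ((a ω, a' ω), W ω)) (h' : Fn P S W) :
    ch P (fun ω => (F ω, F' ω)) W ≤ ch P F (fun ω => (c ω, W ω)) +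
      ch P F' (fun ω => (c ω, W ω)) + ch P c (fun ω => (B ω, S ω)) + ch P a W + ch P a' W := by
  have h1 := ch_tri (P := P) (fun ω => (F ω, F' ω)) c W
  have h2 := ch_subadd (P := P) F F' fun ω => (c ω, W ω)
  have h3 := ch_tri (P := P) c B W
  have h4 : ch P c (fun ω => (B ω, W ω)) ≤ ch P c fun ω => (B ω, S ω) :=
    ch_anti ((Fn.fst B W).pair (h'.right B))
  have h5 := ch_mono h
  have h6 := ch_subadd (P := P) a a' W
  linarith

end DChSVA

theorem rowChSV : OfChSV := by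
  rintro ⟨K, m, hK, k⟩ Ω P g M D Q b ξ τ μ L ε₀ h
  let W : ∀ n, Ω n → _ := fun n ω => (fl (μ n) (chl (g n) (D n) (Q n) (ξ n) (τ n) ω).a,
    fl (μ n) (chl (g n) (D n) (Q n) (ξ n) (τ n) ω).e, (D n).S (ξ n) ω)
  have e := (h.gd.and h.fn).mono fun n u ω hω ω' hω' (w : W n ω = W n ω') =>
    (k (g n) (D n) (Q n) b (M n) (ξ n) (τ n) (μ n) (L n) ω ω' (h.lv n) (u.1 ω hω) (u.1 ω' hω')
      (congrArg Prod.snd (u.2.2.1 ω hω ω' hω' (congrArg (·.2.2) w)))).2.2
      (congrArg (·.1) w) (congrArg (·.2.1) w)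
  have s := (h.sub.pow m).const_mul h.big hK
  have s2 := h.big.sub one_le_two
  have a1 := Sm.near1 (P := P) (G := fun n ω => (cc (Q n) (τ n - M n) ω, W n ω)) h.big s
    (e.mono fun n u ω hω ω' hω' w =>
      ((u ω hω ω' hω' (congrArg Prod.snd w)).2.2 (congrArg Prod.fst w)).1)
  have a2 := Sm.near1 (P := P) (G := fun n ω => (cc (Q n) (τ n - M n) ω, W n ω)) h.big s
    (e.mono fun n u ω hω ω' hω' w =>
      ((u ω hω ω' hω' (congrArg Prod.snd w)).2.2 (congrArg Prod.fst w)).2)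
  have a3 := Sm.near1 (P := P) (G := W) h.big s2
    (e.mono fun n u ω hω ω' hω' w => (u ω hω ω' hω' w).1)
  have a4 := Sm.near1 (P := P) (G := W) h.big s2
    (e.mono fun n u ω hω ω' hω' w => (u ω hω ω' hω' w).2.1)
  refine ((((a1.add a2).add h.sv).add a3).add a4).mono (Eventually.of_forall fun n =>
    DChSVA.chain _ _ _ _ _ (fun ω _ ω' _ w => ?_) fun ω _ ω' _ w => congrArg (·.2.2) w)
  exact Prod.ext (congrArg (·.1.1) w) (Prod.ext (congrArg (·.2.2.1 0) w)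
    (Prod.ext (congrArg (·.1.2) w) (congrArg (·.2.2.1 1) w)))

end Pool.Agent.MP_5168f5_an.R4.Tan
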