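import Pool.Agent.MP_5168f5_an.R4.SpecAd

/-! Identities for the rescaled curve. -/

namespace Pool.Agent.MP_5168f5_an.R4.Tan

open H19 H17S H17F Filter Matrix Web NCx

namespace DKCh0A

theorem cq_eq {G : ℝ → ℝ} {A B C : ℝ} (h : ∀ s, G s = A + B * s + C * s ^ 2) (s : ℝ) :
    cq G 0 + cq G 1 * s + cq G 2 * s ^ 2 = G s := by
  simp only [cq, h, cons_val_zero, cons_val_one, cons_val]
  ring

theorem pos (ξ : ℕ) : (0 : ℝ) < 2 ^ ξ := by positivity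

theorem mul_hs {Ω : Type} (g : Geo 3 Ω) (ξ : ℕ) (ω : Ω) (s : ℝ) :
    2 ^ ξ * hs g ξ ω s = fl1 ξ (g.z ω) + s := by
  have := pos ξ
  rw [hs, Geo.z0]; field_simp

end DKCh0A

open DKCh0A in
theorem rowKCh0 : KCh0 where
  f := fun g D Q ξ τ ω s => by
    refine cq_eq
      (G := fun s => 2 ^ τ * (fc Q ω (hs g ξ ω s) - ql g (Q.E ξ ω) ω (hs g ξ ω s)))
      (A := 2 ^ τ * (fc Q ω (g.z0 ξ ω) - ql g (Q.E ξ ω) ω (g.z0 ξ ω)))
      (B := 2 ^ τ * ((2 ^ ξ)⁻¹ * (Q.cf ω 1 + 2 * Q.cf ω 2 * g.z0 ξ ω -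
        pf (Q.E ξ ω) (hom (g.z0 ξ ω) (g.lt (g.z0 ξ ω) ω)) (vec 1 (g.e ω)))))
      (C := 2 ^ τ * ((2 ^ ξ)⁻¹ ^ 2 * (Q.cf ω 2 - qf (Q.E ξ ω) (vec 1 (g.e ω))))) (fun s => ?_) s
    rw [hs, ql, ql, hom_lt, qf_add, qf_smul, pf_smul_right]
    simp only [fc, ev, Finset.sum_range_succ, Finset.sum_range_zero]
    ring
  z := fun g D Q ξ τ ω s => by
    have := (pos ξ).ne'
    funext i
    fin_cases i <;> simp [chl, Cv.z, bp, hs, Geo.lt] <;> field_simp <;> ring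
  t := fun g D Q ξ τ ω => ka.z g ξ ω
  win := fun g ξ ω t => by
    have := (pos ξ).ne'
    constructor
    · intro h
      refine ⟨Int.fract (2 ^ ξ * t), Int.fract_nonneg _, Int.fract_lt_one _, ?_⟩
      refine mul_left_cancel₀ this ?_
      rw [mul_hs, ← h, fl1, Int.floor_add_fract]
    · rintro ⟨s, h0, h1, rfl⟩
      rw [fl1, mul_hs, Int.floor_intCast_add, Int.floor_eq_zero_iff.2 ⟨h0, h1⟩, add_zero]
  box := fun g ξ ω s h0 h1 s0 s1 => by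
    have p := pos ξ
    have e := mul_hs g ξ ω s
    have a : (0 : ℝ) ≤ fl1 ξ (g.z ω) := by exact_mod_cast Int.floor_nonneg.2 (by positivity)
    have b : fl1 ξ (g.z ω) < 2 ^ ξ := Int.floor_lt.2 (by push_cast; nlinarith)
    have c : (fl1 ξ (g.z ω) : ℝ) + 1 ≤ 2 ^ ξ := by exact_mod_cast b
    constructor <;> nlinarith
  crv := fun g D Q ξ τ ω ω' ha he hc h => by
    simp only [cd, Prod.mk.injEq] at h
    simp only [chl, Cv.crv, fc, ql, hs, Geo.z0, Geo.lt, ha, he, hc, h.1, h.2.1, h.2.2.1]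

end Pool.Agent.MP_5168f5_an.R4.Tan
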