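import Pool.Agent.MP_5168f5_an.R4.SpecAd

/-! Bounds for the rescaled curve at one sample. -/

namespace Pool.Agent.MP_5168f5_an.R4.Tan

open H19 H17S H17F Filter Matrix Web NCx

namespace DKCh1A

theorem amul {x y a b : ℝ} (h : |x| ≤ a) (h' : |y| ≤ b) : |x * y| ≤ a * b := by
  rw [abs_mul]
  exact mul_le_mul h h' (abs_nonneg _) ((abs_nonneg _).trans h)

theorem bil_le {q : M3} {x y : V 3} {a b L : ℝ} (hx : ∀ i, |x i| ≤ a) (hq : ∀ i j, |q i j| ≤ L)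
    (hy : ∀ i, |y i| ≤ b) : |x ⬝ᵥ q *ᵥ y| ≤ 9 * (a * (L * b)) := by
  refine (Finset.abs_sum_le_sum_abs _ _).trans ((Finset.sum_le_card_nsmul _ _ _ fun i _ =>
    amul (hx i) (abs_mulVec_le hq hy i)).trans (le_of_eq ?_))
  simp only [Finset.card_univ, Fintype.card_fin, nsmul_eq_mul]
  push_cast
  ring

theorem det_le {q : M3} {x L : ℝ} (hx : ∀ i j, |q i j| ≤ x) (hq : ∀ i j, |q i j| ≤ L) :
    |q.det| ≤ 6 * (x * L * L) := by
  have k := fun a b c d e f => abs_le.1 (amul (amul (hx a b) (hq c d)) (hq e f))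
  rw [det_fin_three, abs_le]
  constructor <;> linarith [k 0 0 1 1 2 2, k 0 0 1 2 2 1, k 0 1 1 0 2 2, k 0 1 1 2 2 0,
    k 0 2 1 0 2 1, k 0 2 1 1 2 0]

theorem qf_hy {A : Qd} {L : ℝ} (h : Hy A L) (Y : V 5) : qf A Y = Y 0 * ∑ k, A 0 k * Y k := by
  rw [qf, dotProduct, Finset.sum_eq_single 0 (fun i _ e => ?_) (by simp)]
  · rfl
  · simp [mulVec, dotProduct, fun k => h.1 i k (Or.inl e)]

theorem second {Ω : Type} (g : Geo 3 Ω) (Q : Tq Ω) (ω : Ω) :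
    ![1, g.e ω 0, g.e ω 1] ⬝ᵥ Q.q ω *ᵥ ![1, g.e ω 0, g.e ω 1] =
      9 / 2 * (2 * (g.lt (1 / 3) ω 2 - Q.sf ω (bp g (1 / 3) ω)) - (g.lt 0 ω 2 - Q.sf ω (bp g 0 ω))
        - (g.lt (2 / 3) ω 2 - Q.sf ω (bp g (2 / 3) ω))) := by
  simp only [Tq.sf, bp, Geo.lt, dotProduct, mulVec, Fin.sum_univ_three, cons_val_zero,
    cons_val_one, cons_val, Pi.add_apply, Pi.smul_apply, smul_eq_mul]
  ring

end DKCh1A

open DKCh1A in
theorem rowKCh1 : OfKCh1 := by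
  intro k0
  refine ⟨45, 3, by norm_num, fun g D Q b M ξ τ μ L ω hl h => ?_⟩
  have l1 := h.one
  have l2 : L ≤ L ^ 2 := le_self_pow₀ l1 two_ne_zero
  have l3 : L ^ 2 ≤ L ^ 3 := pow_le_pow_right₀ l1 (by norm_num)
  have t0 : 0 ≤ (chl g D Q ξ τ ω).t := Int.fract_nonneg _
  have t1 : (chl g D Q ξ τ ω).t < 1 := Int.fract_lt_one _
  have ha : ∀ i, |2 ^ ξ * (g.lt (g.z0 ξ ω) ω i - D.o ξ ω i)| ≤ 45 * L ^ 3 := fun i => by
    have e := k0.t g D Q ξ τ ω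
    have e' : 2 ^ ξ * (g.lt (g.z0 ξ ω) ω i - D.o ξ ω i)
        = (g.pt ω i - D.o ξ ω i) * 2 ^ ξ - (chl g D Q ξ τ ω).t * g.e ω i := by
      rw [Geo.pt, ← e]
      simp only [Geo.lt, hs, Pi.add_apply, Pi.smul_apply, smul_eq_mul]
      field_simp
      ring
    have b1 := h.b0 i
    rw [le_div_iff₀ (by positivity), ← abs_of_pos (show (0 : ℝ) < 2 ^ ξ by positivity),
      ← abs_mul] at b1
    have b2 := amul (abs_le.2 ⟨by linarith, t1.le⟩) (h.box.2.1 i).2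
    rw [e']
    linarith [abs_sub ((g.pt ω i - D.o ξ ω i) * 2 ^ ξ) ((chl g D Q ξ τ ω).t * g.e ω i)]
  have hG : ∀ s : ℝ, 0 ≤ s → s < 1 →
      |2 ^ τ * (fc Q ω (hs g ξ ω s) - ql g (Q.E ξ ω) ω (hs g ξ ω s))| ≤ L := fun s a0 a1 => by
    rw [abs_mul, abs_of_pos (by positivity), ← le_div_iff₀' (by positivity)]
    exact h.cell _ ((k0.win g ξ ω _).2 ⟨s, a0, a1, rfl⟩)
  have g0 := abs_le.1 (hG 0 le_rfl one_pos)
  have g1 := abs_le.1 (hG (1 / 3) (by norm_num) (by norm_num))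
  have g2 := abs_le.1 (hG (2 / 3) (by norm_num) (by norm_num))
  refine ⟨⟨fun i => ?_, fun j => ?_, t0, t1⟩, fun hb => ?_, fun hb => ⟨?_, ?_⟩⟩
  · fin_cases i
    · exact ⟨ha 0, (h.box.2.1 0).2.trans (by linarith)⟩
    · exact ⟨ha 1, (h.box.2.1 1).2.trans (by linarith)⟩
  · fin_cases j <;> simp only [chl, cq, Fin.zero_eta, Fin.mk_one, Fin.reduceFinMk, cons_val_zero,
      cons_val_one, cons_val] <;> rw [abs_le] <;> constructor <;>
      linarith [g0.1, g0.2, g1.1, g1.2, g2.1, g2.2]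
  · obtain ⟨-, c2, hy⟩ := h.flat hb
    simp only [chl, cq, cons_val, fc, ev, ql, qf_hy hy, Finset.sum_range_succ,
      Finset.sum_range_zero, c2, Fin.sum_univ_five, hom, Geo.lt, hs, cons_val_zero, cons_val_one,
      Pi.add_apply, Pi.smul_apply, smul_eq_mul]
    ring
  · obtain ⟨p, -, hp⟩ := Finset.exists_max_image Finset.univ
      (fun p : Fin 3 × Fin 3 => |Q.q ω p.1 p.2|) Finset.univ_nonempty
    have b1 := det_le (fun i j => hp (i, j) (Finset.mem_univ _)) h.sq.2.1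
    have b2 := (h.curv hb).1.trans (mul_le_mul_of_nonneg_left b1 (by linarith))
    have b3 : 0 ≤ L ^ 3 * |Q.q ω p.1 p.2| := by positivity
    exact ⟨p.1, p.2, by linarith⟩
  have c0 := abs_le.1 ((h.curv hb).2 0 le_rfl one_pos)
  have c1 := abs_le.1 ((h.curv hb).2 (1 / 3) (by norm_num) (by norm_num))
  have c2 := abs_le.1 ((h.curv hb).2 (2 / 3) (by norm_num) (by norm_num))
  have e := second g Q ω
  have m0 : (0 : ℝ) < 1 / 2 ^ μ := by positivity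
  have m1 : (1 : ℝ) / 2 ^ μ ≤ 1 := (div_le_one (by positivity)).2 (one_le_pow₀ one_le_two)
  have m2 : (1 : ℝ) / 2 ^ μ ≤ 1 / 2 ^ M := div_le_div_of_nonneg_left zero_le_one (by positivity)
    (pow_le_pow_right₀ one_le_two (by have := hl.2.2; omega))
  have w1 : ∀ i, |![1, g.e ω 0, g.e ω 1] i| ≤ L := fun i => by
    fin_cases i
    exacts [by simpa using l1, (h.box.2.1 0).2, (h.box.2.1 1).2]
  have w2 : ∀ i, |((chl g D Q ξ τ ω).dr μ - ![1, g.e ω 0, g.e ω 1]) i| ≤ 1 / 2 ^ μ := fun i => by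
    fin_cases i
    exacts [by simp [Cv.dr], abs_rd_sub _ _, abs_rd_sub _ _]
  generalize (chl g D Q ξ τ ω).dr μ = v at *
  generalize ![1, g.e ω 0, g.e ω 1] = w at *
  have w3 : ∀ i, |v i| ≤ 2 * L := fun i => by
    have := abs_sub_abs_le_abs_sub (v i) (w i)
    linarith [w1 i, show |v i - w i| ≤ _ from w2 i]
  have d1 := abs_le.1 (bil_le w2 h.sq.2.1 w3)
  have d2 := abs_le.1 (bil_le w1 h.sq.2.1 w2)
  rw [sub_dotProduct] at d1
  rw [mulVec_sub, dotProduct_sub] at d2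
  have d3 : 1 * (1 / 2 ^ μ) ≤ L ^ 2 * (1 / 2 ^ μ) := by gcongr; linarith
  have d4 : L ^ 2 * (1 / 2 ^ μ) ≤ L ^ 3 * (1 / 2 ^ M) := by gcongr
  rw [div_eq_mul_one_div (45 * _), abs_le]
  constructor <;> linarith [c0.1, c0.2, c1.1, c1.2, c2.1, c2.2, d1.1, d1.2, d2.1, d2.2]

end Pool.Agent.MP_5168f5_an.R4.Tan
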