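import Pool.Agent.MP_5168f5_an.R4.SpecAd

/-! Case A: two samples in one cell. -/

namespace Pool.Agent.MP_5168f5_an.R4.Tan

open H19 H17S H17F Filter Matrix Web NCx

namespace DKCh2A

theorem mul_near {x y K δ : ℝ} (h : |x| ≤ K) (h' : |y| ≤ δ) : |x * y| ≤ K * δ := by
  rw [abs_mul]
  exact mul_le_mul h h' (abs_nonneg _) ((abs_nonneg _).trans h)

theorem near {j : ℕ} {x y : ℝ} (h : fl1 j x = fl1 j y) : |x - y| ≤ 1 / 2 ^ j := by
  rw [one_div]; exact (abs_sub_lt_of_fl1_eq h).le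

theorem dpl {L : ℝ} (hL : 0 ≤ L) {i j : ℕ} (h : i ≤ j) : L / 2 ^ j ≤ L / 2 ^ i :=
  div_le_div_of_nonneg_left hL (by positivity) (pow_le_pow_right₀ one_le_two h)

theorem scale {i j k : ℕ} {x K : ℝ} (e : i + k ≤ j) (h : |x| ≤ K / 2 ^ j) :
    |2 ^ i * x| ≤ K / 2 ^ k := by
  have h0 : 0 ≤ K := by
    have := (abs_nonneg _).trans h
    rwa [le_div_iff₀ (by positivity), zero_mul] at this
  refine (mul_near (abs_of_pos (by positivity)).le (h.trans (dpl h0 e))).trans (le_of_eq ?_)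
  rw [pow_add]
  field_simp

theorem unscale {i : ℕ} {x δ : ℝ} (h : |2 ^ i * x| ≤ δ) : |x| ≤ δ := by
  rw [abs_mul, abs_of_pos (by positivity)] at h
  exact (le_mul_of_one_le_left (abs_nonneg _) (one_le_pow₀ one_le_two)).trans h

theorem dot {N : ℕ} {Y W : V N} {a c : ℝ} (hY : ∀ i, |Y i| ≤ a) (hW : ∀ i, |W i| ≤ c) :
    |Y ⬝ᵥ W| ≤ N * (a * c) := by
  refine (Finset.abs_sum_le_sum_abs _ _).trans
    ((Finset.sum_le_card_nsmul _ _ _ fun i _ => mul_near (hY i) (hW i)).trans (by simp))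

theorem quad {N : ℕ} {A : Matrix (Fin N) (Fin N) ℝ} {Y W : V N} {B a δ : ℝ}
    (hA : ∀ i k, |A i k| ≤ B) (hY : ∀ i, |Y i| ≤ a) (hW : ∀ i, |W i| ≤ a)
    (h : ∀ i, |Y i - W i| ≤ δ) : |Y ⬝ᵥ A *ᵥ Y - W ⬝ᵥ A *ᵥ W| ≤ 2 * N ^ 2 * B * a * δ := by
  have h1 := abs_le.1 (dot (W := A *ᵥ (Y - W)) hY fun i => dot (W := Y - W) (hA i) h)
  have h2 := abs_le.1 (dot (Y := Y - W) (W := A *ᵥ W) h fun i => dot (hA i) hW)
  rw [mulVec_sub, dotProduct_sub] at h1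
  rw [sub_dotProduct] at h2
  rw [abs_le]
  constructor <;> linarith [h1.1, h1.2, h2.1, h2.2]

variable {Ω : Type} {g : Geo 3 Ω} {D : Td Ω} {Q : Tq Ω} {b : Prop} {M ξ τ μ : ℕ} {L : ℝ}
  {ω ω' : Ω}

theorem lt_le (h : Gd g D Q b ξ τ μ L ω) {t : ℝ} (h0 : 0 ≤ t) (h1 : t < 1) (i : Fin 3) :
    |g.lt t ω i| ≤ 2 * L := by
  have := mul_near (x := t) (K := 1) (abs_le.2 ⟨by linarith, h1.le⟩) (h.box.2.1 i).2
  refine (abs_add_le _ _).trans ?_
  simp only [Pi.smul_apply, smul_eq_mul]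
  linarith [(h.box.2.1 i).1]

theorem qlip (lv : Lv M ξ τ μ) (h : Gd g D Q b ξ τ μ L ω) (h' : Gd g D Q b ξ τ μ L ω')
    (e : cd g D Q ξ ω = cd g D Q ξ ω') {t t' c : ℝ} (t0 : 0 ≤ t) (t1 : t < 1) (t0' : 0 ≤ t')
    (t1' : t' < 1) (hc : 1 ≤ c) (k : ∀ i, |bp g t ω i - bp g t' ω' i| ≤ c / 2 ^ μ) :
    |2 ^ τ * ql g (Q.E ξ ω) ω t - 2 ^ τ * ql g (Q.E ξ ω') ω' t'| ≤ 4100 * L ^ 4 * c / 2 ^ M := by
  simp only [cd, Prod.mk.injEq] at e
  obtain ⟨-, -, eE, eq, el⟩ := e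
  have l1 := h.one
  have l2 : 1 ≤ L ^ 2 := one_le_pow₀ l1
  have l3 : L ≤ L ^ 2 := le_self_pow₀ l1 two_ne_zero
  have d0 : 0 ≤ c / 2 ^ μ := by positivity
  have d1 : 1 / 2 ^ μ ≤ c / 2 ^ μ := div_le_div_of_nonneg_right hc (by positivity)
  have a0 : |(1 : ℝ)| ≤ 2 * L := abs_one.trans_le (by linarith)
  have a1 : |t| ≤ 2 * L := abs_le.2 ⟨by linarith, by linarith⟩
  have a2 : |t'| ≤ 2 * L := abs_le.2 ⟨by linarith, by linarith⟩
  have key : ∀ y y' : ℝ, |y| ≤ 2 * L → |y'| ≤ 2 * L → |y - y'| ≤ 41 * L ^ 2 * (c / 2 ^ μ) →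
      |2 ^ τ * qf (Q.E ξ ω) ![1, t, g.lt t ω 0, g.lt t ω 1, y] -
        2 ^ τ * qf (Q.E ξ ω) ![1, t', g.lt t' ω' 0, g.lt t' ω' 1, y']|
        ≤ 4100 * L ^ 4 * c / 2 ^ M := fun y y' b1 b2 b3 => by
    have d2 : c / 2 ^ μ ≤ 41 * L ^ 2 * (c / 2 ^ μ) := le_mul_of_one_le_left d0 (by linarith)
    have := quad (a := 2 * L) (δ := 41 * L ^ 2 * (c / 2 ^ μ))
      (Y := ![1, t, g.lt t ω 0, g.lt t ω 1, y]) (W := ![1, t', g.lt t' ω' 0, g.lt t' ω' 1, y'])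
      h.qE (fun i => by
        fin_cases i
        exacts [a0, a1, lt_le h t0 t1 0, lt_le h t0 t1 1, b1])
      (fun i => by
        fin_cases i
        exacts [a0, a2, lt_le h' t0' t1' 0, lt_le h' t0' t1' 1, b2])
      fun i => by
        fin_cases i
        exacts [(by simp : |(1 : ℝ) - 1| ≤ 0).trans (d0.trans d2), (k 0).trans d2,
          (k 1).trans d2, (k 2).trans d2, b3]
    rw [← mul_sub]
    refine scale (j := μ - 4 * ξ) (by have := lv.1; have := lv.2.2; omega)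
      (this.trans (le_of_eq ?_))
    rw [pow_sub₀ _ two_ne_zero (by have := lv.1; have := lv.2.2; omega)]
    push_cast
    field_simp
    ring
  rw [← eE]
  by_cases hb : b
  · have z : ∀ y : V 3, ∀ s, qf (Q.E ξ ω) (hom s y) = qf (Q.E ξ ω) ![1, s, y 0, y 1, 0] :=
      fun y s => by
      have := (h.flat hb).2.2.1
      simp [qf, hom, dotProduct, mulVec, Fin.sum_univ_five, this]
    rw [ql, ql, z, z]
    exact key 0 0 (by simp; linarith) (by simp; linarith) (by simp; positivity)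
  · refine key _ _ (lt_le h t0 t1 2) (lt_le h' t0' t1' 2) ?_
    have s1 := abs_le.1 ((h.curv hb).2 t t0 t1)
    have s2 := abs_le.1 ((h'.curv hb).2 t' t0' t1')
    have s3 := abs_le.1 (dot (W := bp g t ω - bp g t' ω') h.sq.2.2.2 k)
    have s4 := abs_le.1 (quad (a := 2 * L) h.sq.2.1 (fun i => by
      fin_cases i
      exacts [a1, lt_le h t0 t1 0, lt_le h t0 t1 1]) (fun i => by
      fin_cases i
      exacts [a2, lt_le h' t0' t1' 0, lt_le h' t0' t1' 1]) k)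
    have s5 := mul_le_mul_of_nonneg_right l3 d0
    have s6 := mul_le_mul_of_nonneg_right l2 d0
    rw [dotProduct_sub] at s3
    simp only [Tq.sf, ← eq, ← el] at s1 s2
    push_cast at s3 s4
    rw [abs_le]
    constructor <;> nlinarith [s1.1, s1.2, s2.1, s2.2, s3.1, s3.2, s4.1, s4.2]

end DKCh2A

open DKCh2A in
theorem rowKCh2 : OfKCh2 := by
  intro k0
  refine ⟨300000, 5, by norm_num, fun g D Q b M ξ τ μ L ω ω' lv h h' e => ?_⟩
  have l1 := h.one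
  have l4 : L ^ 4 ≤ L ^ 5 := pow_le_pow_right₀ l1 (by norm_num)
  have l5 : L ≤ L ^ 5 := le_self_pow₀ l1 (by norm_num)
  obtain ⟨v1, v2, v3⟩ := id lv
  have e1 : fl1 ξ (g.z ω) = fl1 ξ (g.z ω') := congrArg (·.1) e
  have e2 : D.o ξ ω = D.o ξ ω' := congrArg (·.2.1) e
  have e3 : g.z0 ξ ω = g.z0 ξ ω' := by rw [Geo.z0, Geo.z0, e1]
  have up : ∀ {x K : ℝ} {j : ℕ}, x ≤ K / 2 ^ j → K ≤ 300000 * L ^ 5 → x ≤ 300000 * L ^ 5 / 2 ^ j :=
    fun a c => a.trans (div_le_div_of_nonneg_right c (by positivity))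
  have p1 : ∀ i, (chl g D Q ξ τ ω).pt i - (chl g D Q ξ τ ω').pt i =
      2 ^ ξ * (bp g (g.z ω) ω i - bp g (g.z ω') ω' i) := fun i => by
    rw [Cv.pt, Cv.pt, k0.z, k0.z, k0.t, k0.t, e2, e3]
    simp only [Pi.smul_apply, Pi.sub_apply, smul_eq_mul]
    ring
  have p2 : (chl g D Q ξ τ ω).φ - (chl g D Q ξ τ ω').φ =
      2 ^ τ * (fc Q ω (g.z ω) - fc Q ω' (g.z ω')) -
      (2 ^ τ * ql g (Q.E ξ ω) ω (g.z ω) - 2 ^ τ * ql g (Q.E ξ ω') ω' (g.z ω')) := by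
    rw [Cv.φ, Cv.φ, k0.f, k0.f, k0.t, k0.t]
    ring
  have qz := fun c => qlip (c := c) lv h h' e h.box.1.1 h.box.1.2 h'.box.1.1 h'.box.1.2
  refine ⟨fun d => ?_, fun d => ?_, fun da de => ?_⟩
  · simp only [dd, Prod.mk.injEq] at d
    obtain ⟨d1, d2, d3⟩ := d
    have two : ∀ {x y o : ℝ}, |x - o| ≤ L / 2 ^ (ξ + μ) → |y - o| ≤ L / 2 ^ (ξ + μ) →
        |x - y| ≤ 2 * L / 2 ^ (ξ + μ) := fun a c => by
      rw [abs_le] at *
      rw [mul_div_assoc]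
      constructor <;> linarith [a.1, a.2, c.1, c.2]
    have k : ∀ i, |bp g (g.z ω) ω i - bp g (g.z ω') ω' i| ≤ 2 * L / 2 ^ (ξ + μ) := fun i => by
      fin_cases i
      exacts [(near d1).trans (div_le_div_of_nonneg_right (by linarith) (by positivity)),
        two (h.b1 0) (d2 ▸ h'.b1 0), two (h.b1 1) (d2 ▸ h'.b1 1)]
    refine ⟨fun i => up (by rw [p1]; exact scale le_rfl (k i)) (by linarith), ?_⟩
    have a1 := scale (i := τ) (k := M) (by omega) (two h.bf (d3 ▸ h'.bf))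
    have a2 := qz (2 * L) (by linarith) fun i => (k i).trans (dpl (by linarith) (by omega))
    rw [p2]
    refine up ((abs_sub _ _).trans ((add_le_add a1 a2).trans (add_div _ _ _).ge)) ?_
    nlinarith
  · have k : ∀ i, |bp g (g.z ω) ω i - bp g (g.z ω') ω' i| ≤ 1 / 2 ^ μ := fun i =>
      unscale (i := ξ) (by rw [← p1]; exact near (congrFun d i))
    refine ⟨k 1, k 2, up (K := 4100 * L ^ 4 * 1) ?_ (by linarith)⟩
    rw [p2, mul_sub, sub_sub_cancel_left, abs_neg]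
    exact qz 1 le_rfl k
  · have z0 := k0.box g ξ ω 0 h.box.1.1 h.box.1.2 le_rfl one_pos
    rw [hs, mul_zero, add_zero] at z0
    have z1 : |g.z0 ξ ω| ≤ 1 := abs_le.2 ⟨by linarith, z0.2.le⟩
    have ke : ∀ i : Fin 3, i ≠ 2 → |g.e ω i - g.e ω' i| ≤ 1 / 2 ^ μ := fun i hi => by
      fin_cases i
      exacts [near (congrFun de 0), near (congrFun de 1), absurd rfl hi]
    have ka : ∀ i : Fin 3, i ≠ 2 → |g.a ω i - g.a ω' i| ≤ 2 / 2 ^ μ := fun i hi => by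
      have a1 : |2 ^ ξ * (g.lt (g.z0 ξ ω) ω i - D.o ξ ω i) -
          2 ^ ξ * (g.lt (g.z0 ξ ω') ω' i - D.o ξ ω' i)| ≤ 1 / 2 ^ μ := by
        fin_cases i
        exacts [near (congrFun da 0), near (congrFun da 1), absurd rfl hi]
      rw [← mul_sub, ← e2, ← e3] at a1
      have a2 := abs_le.1 (unscale a1)
      have a3 := abs_le.1 (mul_near z1 (ke i hi))
      simp only [Geo.lt, Pi.add_apply, Pi.smul_apply, smul_eq_mul] at a2
      rw [abs_le, show (2 : ℝ) / 2 ^ μ = 2 * (1 / 2 ^ μ) by ring]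
      constructor <;> linarith [a2.1, a2.2, a3.1, a3.2]
    refine ⟨ka 0 (by decide), ka 1 (by decide), fun dc => ?_⟩
    simp only [cc, Prod.mk.injEq] at dc
    obtain ⟨-, c1, c2⟩ := dc
    have eh : ∀ s, hs g ξ ω' s = hs g ξ ω s := fun s => by rw [hs, hs, e3]
    have qs : ∀ s, 0 ≤ s → s < 1 → |2 ^ τ * ql g (Q.E ξ ω) ω (hs g ξ ω s) -
        2 ^ τ * ql g (Q.E ξ ω') ω' (hs g ξ ω s)| ≤ 12300 * (L ^ 4 / 2 ^ M) := fun s s0 s1 => by
      obtain ⟨t0, t1⟩ := k0.box g ξ ω s h.box.1.1 h.box.1.2 s0 s1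
      have a : ∀ i : Fin 3, i ≠ 2 →
          |g.lt (hs g ξ ω s) ω i - g.lt (hs g ξ ω s) ω' i| ≤ 3 / 2 ^ μ := fun i hi => by
        have a2 := abs_le.1 (ka i hi)
        have a3 := abs_le.1 (mul_near (x := hs g ξ ω s) (K := 1)
          (abs_le.2 ⟨by linarith, t1.le⟩) (ke i hi))
        simp only [Geo.lt, Pi.add_apply, Pi.smul_apply, smul_eq_mul]
        rw [show (2 : ℝ) / 2 ^ μ = 2 * (1 / 2 ^ μ) by ring] at a2
        rw [abs_le, show (3 : ℝ) / 2 ^ μ = 3 * (1 / 2 ^ μ) by ring]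
        constructor <;> linarith [a2.1, a2.2, a3.1, a3.2]
      refine (qlip lv h h' e t0 t1 t0 t1 (by norm_num : (1 : ℝ) ≤ 3) fun i => ?_).trans
        (le_of_eq (by ring))
      fin_cases i
      exacts [(by simp; positivity : |hs g ξ ω s - hs g ξ ω s| ≤ 3 / 2 ^ μ),
        a 0 (by decide), a 1 (by decide)]
    have sc : ∀ {x : ℝ}, |x| ≤ 1 / 2 ^ (τ - M) → |2 ^ τ * ((2 : ℝ) ^ ξ)⁻¹ * x| ≤ 1 / 2 ^ M :=
      fun a => by
      rw [← pow_sub₀ _ two_ne_zero v2]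
      exact scale (by omega) a
    have q0 := abs_le.1 (qs 0 le_rfl one_pos)
    have q1 := abs_le.1 (qs (1 / 3) (by norm_num) (by norm_num))
    have q2 := abs_le.1 (qs (2 / 3) (by norm_num) (by norm_num))
    have r1 := abs_le.1 (sc (near c1))
    have r2 := abs_le.1 (mul_near z1 (sc (near c2)))
    have r3 := abs_le.1 (mul_near (x := ((2 : ℝ) ^ ξ)⁻¹) (K := 1) (by
      rw [abs_of_pos (by positivity)]
      exact inv_le_one_of_one_le₀ (one_le_pow₀ one_le_two)) (sc (near c2)))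
    have r4 : 1 / 2 ^ M ≤ L ^ 5 / 2 ^ M :=
      div_le_div_of_nonneg_right (l1.trans l5) (by positivity)
    have r5 : L ^ 4 / 2 ^ M ≤ L ^ 5 / 2 ^ M := div_le_div_of_nonneg_right l4 (by positivity)
    have r6 : (0 : ℝ) < 1 / 2 ^ M := by positivity
    simp only [chl, cq, eh, cons_val_one, cons_val_zero, cons_val_two, tail_cons, head_cons,
      mul_div_assoc, abs_le]
    generalize ql g (Q.E ξ ω) ω = F, ql g (Q.E ξ ω') ω' = F' at *
    generalize F (hs g ξ ω 0) = x0, F (hs g ξ ω (1 / 3)) = x1, F (hs g ξ ω (2 / 3)) = x2,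
      F' (hs g ξ ω 0) = y0, F' (hs g ξ ω (1 / 3)) = y1, F' (hs g ξ ω (2 / 3)) = y2 at *
    simp only [fc, ev, Finset.sum_range_succ, Finset.sum_range_zero, hs]
    refine ⟨⟨?_, ?_⟩, ?_, ?_⟩ <;>
      linarith [q0.1, q0.2, q1.1, q1.2, q2.1, q2.2, r1.1, r1.2, r2.1, r2.2, r3.1, r3.2]

end Pool.Agent.MP_5168f5_an.R4.Tan
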