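import Pool.Agent.MP_5168f5_an.R4.SpecAd

/-! A potential of the rescaled curve gives a better quadric. -/

namespace Pool.Agent.MP_5168f5_an.R4.Tan

open H19 H17S H17F Filter Matrix Web NCx

namespace DKFinA

/-- The matrix of the quadric with data `p`. -/
def mB (p : Pq) : Qd :=
  !![p.1, p.2.1 0, p.2.1 1, p.2.1 2, 0;
    0, p.2.2.1 0 0, p.2.2.1 0 1, p.2.2.1 0 2, 0;
    0, p.2.2.1 1 0, p.2.2.1 1 1, p.2.2.1 1 2, 0;
    0, p.2.2.1 2 0, p.2.2.1 2 1, p.2.2.1 2 2, 0;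
    0, p.2.2.2.1 0, p.2.2.2.1 1, p.2.2.2.1 2, p.2.2.2.2]

/-- The change of coordinates. -/
def mW (r : ℝ) (c : V 3) (w0 : ℝ) (w : V 3) : Qd :=
  !![1, 0, 0, 0, 0;
    -(r * c 0), r, 0, 0, 0;
    -(r * c 1), 0, r, 0, 0;
    -(r * c 2), 0, 0, r, 0;
    r ^ 2 * w0, r ^ 2 * w 0, r ^ 2 * w 1, r ^ 2 * w 2, r ^ 2]

/-- The centre of a cell. -/
noncomputable def ce (ξ : ℕ) (d : Cd) : V 3 := ![((2 : ℝ) ^ ξ)⁻¹ * d.1, d.2.1 0, d.2.1 1]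

/-- The change of coordinates of a cell. -/
noncomputable def cW (ξ : ℕ) (d : Cd) : Qd :=
  mW (2 ^ ξ) (ce ξ d) (ce ξ d ⬝ᵥ d.2.2.2.1 *ᵥ ce ξ d - d.2.2.2.2.1)
    (-(d.2.2.2.2.2 + ce ξ d ᵥ* d.2.2.2.1 + d.2.2.2.1 *ᵥ ce ξ d))

/-- The new quadric. -/
noncomputable def Ps (ξ τ : ℕ) (d : Cd) (p : Pq) : Qd :=
  d.2.2.1 + ((2 : ℝ) ^ τ)⁻¹ • ((cW ξ d)ᵀ * mB p * cW ξ d)

/-- Drop the last coordinate. -/
def tr (Y : V 5) : V 5 := ![Y 0, Y 1, Y 2, Y 3, 0]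

theorem dot_le {n : ℕ} {Y Z : V n} {y z : ℝ} (hY : ∀ i, |Y i| ≤ y) (hZ : ∀ i, |Z i| ≤ z) :
    |Y ⬝ᵥ Z| ≤ n * (y * z) := by
  refine (Finset.abs_sum_le_sum_abs _ _).trans ?_
  refine (Finset.sum_le_card_nsmul _ _ (y * z) fun i _ => ?_).trans (by simp)
  rw [abs_mul]
  exact mul_le_mul (hY i) (hZ i) (abs_nonneg _) ((abs_nonneg _).trans (hY i))

theorem bil_le {n : ℕ} {A : Matrix (Fin n) (Fin n) ℝ} {Y Z : V n} {a y z : ℝ}
    (hA : ∀ i k, |A i k| ≤ a) (hY : ∀ i, |Y i| ≤ y) (hZ : ∀ i, |Z i| ≤ z) :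
    |Y ⬝ᵥ A *ᵥ Z| ≤ n * (y * (n * (a * z))) :=
  dot_le hY fun i => dot_le (hA i) hZ

theorem conj (W B : Qd) (Y Z : V 5) :
    Y ⬝ᵥ (Wᵀ * B * W) *ᵥ Z = (W *ᵥ Y) ⬝ᵥ B *ᵥ (W *ᵥ Z) := by
  rw [← mulVec_mulVec, ← mulVec_mulVec, dotProduct_mulVec, vecMul_transpose]

theorem entry (A : Qd) (i k : Fin 5) : A i k = bv i ⬝ᵥ A *ᵥ bv k := by
  simp [bv]

theorem colv (W : Qd) (i k : Fin 5) : (W *ᵥ bv k) i = W i k := by
  simp [bv]

theorem bil_Ps (ξ τ : ℕ) (d : Cd) (p : Pq) (Y Z : V 5) : Y ⬝ᵥ Ps ξ τ d p *ᵥ Z =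
    Y ⬝ᵥ d.2.2.1 *ᵥ Z + ((2 : ℝ) ^ τ)⁻¹ * ((cW ξ d *ᵥ Y) ⬝ᵥ mB p *ᵥ (cW ξ d *ᵥ Z)) := by
  rw [Ps, add_mulVec, dotProduct_add, smul_mulVec, dotProduct_smul, conj, smul_eq_mul]

theorem mB_le {p : Pq} {L : ℝ} (h : p.Bd L) (i k : Fin 5) : |mB p i k| ≤ L := by
  have h0 : 0 ≤ L := (abs_nonneg _).trans h.1
  obtain ⟨a, b, c, d, e⟩ := h
  have c' := fun i j => (c i j).1
  fin_cases i <;> fin_cases k <;> simp [mB, h0, a, b, c', d, e]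

theorem mB_tr {p : Pq} (h : p.2.2.2 = (0, 0)) (Y Z : V 5) :
    Y ⬝ᵥ mB p *ᵥ Z = tr Y ⬝ᵥ mB p *ᵥ tr Z := by
  simp [mB, tr, dotProduct, mulVec, Fin.sum_univ_five, h]

theorem mB_qf (p : Pq) (z : V 3) (h : ℝ) :
    ![1, z 0, z 1, z 2, h] ⬝ᵥ mB p *ᵥ ![1, z 0, z 1, z 2, h] = pq p z h := by
  simp [mB, pq, dotProduct, mulVec, Fin.sum_univ_five, Fin.sum_univ_three]
  ring

theorem cW_hom (ξ : ℕ) (d : Cd) (t : ℝ) (y : V 3) (z : V 3)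
    (hz : z = (2 : ℝ) ^ ξ • (![t, y 0, y 1] - ce ξ d)) :
    cW ξ d *ᵥ hom t y = ![1, z 0, z 1, z 2, z ⬝ᵥ d.2.2.2.1 *ᵥ z + (2 ^ ξ) ^ 2 *
      (y 2 - (d.2.2.2.2.1 + d.2.2.2.2.2 ⬝ᵥ ![t, y 0, y 1] +
        ![t, y 0, y 1] ⬝ᵥ d.2.2.2.1 *ᵥ ![t, y 0, y 1]))] := by
  subst hz
  unfold cW
  generalize ce ξ d = c
  funext i
  fin_cases i <;>
    simp [mW, hom, dotProduct, mulVec, vecMul, Fin.sum_univ_five, Fin.sum_univ_three, vecHead,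
      vecTail] <;> ring

theorem mW_le {r B w0 : ℝ} {c w : V 3} (hr : 1 ≤ r) (hB : 1 ≤ B) (hc : ∀ i, |c i| ≤ B)
    (h0 : |w0| ≤ B) (hw : ∀ i, |w i| ≤ B) (i k : Fin 5) : |mW r c w0 w i k| ≤ r ^ 2 * B := by
  have r0 : 0 ≤ r := by linarith
  have r2 : r ≤ r ^ 2 := by nlinarith
  have a1 : r ^ 2 ≤ r ^ 2 * B := le_mul_of_one_le_right (by positivity) hB
  have a2 : ∀ j, r * |c j| ≤ r ^ 2 * B := fun j =>
    mul_le_mul r2 (hc j) (abs_nonneg _) (by positivity)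
  have a3 : ∀ x, |x| ≤ B → r ^ 2 * |x| ≤ r ^ 2 * B := fun x hx =>
    mul_le_mul_of_nonneg_left hx (by positivity)
  have a4 : r ≤ r ^ 2 * B := r2.trans a1
  have a5 : 1 ≤ r ^ 2 * B := hr.trans a4
  have a6 : 0 ≤ r ^ 2 * B := by linarith
  have a7 := a3 _ h0
  have a8 := fun j => a3 _ (hw j)
  fin_cases i <;> fin_cases k <;>
    simp [mW, abs_mul, abs_of_nonneg r0, a1, a2, a4, a5, a6, a7, a8]

theorem tr_col {r w0 : ℝ} {c w : V 3} (hr : 0 ≤ r) (k : Fin 4) (i : Fin 5) :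
    |tr (mW r c w0 w *ᵥ bv k.succ) i| ≤ r := by
  fin_cases i <;> fin_cases k <;> simp [tr, colv, mW, hr, abs_of_nonneg hr]

theorem tr_last (r w0 : ℝ) (c w : V 3) : tr (mW r c w0 w *ᵥ bv 4) = 0 := by
  funext i
  fin_cases i <;> simp [tr, colv, mW]

theorem pq_sub {p : Pq} {L δ : ℝ} {z : V 3} {h h' : ℝ} (hp : p.Bd L) (hL : 1 ≤ L)
    (hz : ∀ i, |z i| ≤ 2 * L) (hh : |h| ≤ 36 * L ^ 3) (hd : |h'| ≤ δ) (h1 : δ ≤ 1) :
    |pq p z (h + h') - pq p z h| ≤ 79 * L ^ 4 * δ := by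
  have e : pq p z (h + h') - pq p z h = h' * (p.2.2.2.1 ⬝ᵥ z + p.2.2.2.2 * (2 * h + h')) := by
    simp only [pq]; ring
  have a1 := dot_le hp.2.2.2.1 hz
  have a2 : |2 * h + h'| ≤ 73 * L ^ 3 := by
    have : 1 ≤ L ^ 3 := one_le_pow₀ hL
    refine (abs_add_le _ _).trans ?_
    rw [abs_mul, abs_two]
    linarith
  have a3 : |p.2.2.2.2 * (2 * h + h')| ≤ L * (73 * L ^ 3) := by
    rw [abs_mul]
    exact mul_le_mul hp.2.2.2.2 a2 (abs_nonneg _) (by linarith)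
  have a4 : L ^ 2 ≤ L ^ 4 := pow_le_pow_right₀ hL (by norm_num)
  have a5 : |p.2.2.2.1 ⬝ᵥ z + p.2.2.2.2 * (2 * h + h')| ≤ 79 * L ^ 4 := by
    refine (abs_add_le _ _).trans ?_
    push_cast at a1
    nlinarith
  rw [e, abs_mul, mul_comm]
  exact mul_le_mul a5 hd (abs_nonneg _) (by positivity)

section Geo

variable {Ω : Type} {g : Geo 3 Ω} {D : Td Ω} {Q : Tq Ω} {b : Prop} {M ξ τ μ : ℕ} {L : ℝ} {ω : Ω}

theorem ce_le (h : Gd g D Q b ξ τ μ L ω) (k0 : KCh0) (i : Fin 3) :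
    |ce ξ (cd g D Q ξ ω) i| ≤ 3 * L := by
  have hL := h.one
  have a0 := k0.box g ξ ω 0 h.box.1.1 h.box.1.2 le_rfl one_pos
  simp only [hs, mul_zero, add_zero, Geo.z0] at a0
  have a1 : ∀ j, |D.o ξ ω j| ≤ 3 * L := fun j => by
    have b1 := h.b0 j
    have b2 : L / 2 ^ ξ ≤ L := div_le_self (by linarith) (one_le_pow₀ one_le_two)
    have b3 : |g.z ω * g.e ω j| ≤ 1 * L := by
      rw [abs_mul]
      exact mul_le_mul (abs_le.2 ⟨by linarith [h.box.1.1], h.box.1.2.le⟩) (h.box.2.1 j).2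
        (abs_nonneg _) zero_le_one
    have b4 := (h.box.2.1 j).1
    simp only [Geo.pt, Geo.lt, Pi.add_apply, Pi.smul_apply, smul_eq_mul] at b1
    rw [abs_le] at b1 b3 b4 ⊢
    constructor <;> linarith [b1.1, b1.2, b3.1, b3.2, b4.1, b4.2]
  fin_cases i
  · simp only [ce, cd, Fin.zero_eta, cons_val_zero]
    exact abs_le.2 ⟨by linarith [a0.1], by linarith [a0.2]⟩
  · simpa [ce, cd] using a1 0
  · simpa [ce, cd] using a1 1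

theorem cW_le (h : Gd g D Q b ξ τ μ L ω) (k0 : KCh0) (i k : Fin 5) :
    |cW ξ (cd g D Q ξ ω) i k| ≤ (2 ^ ξ) ^ 2 * (82 * L ^ 3) := by
  have hL := h.one
  have c := ce_le h k0
  have l1 : L ≤ L ^ 3 := le_self_pow₀ hL (by norm_num)
  have l2 : L ^ 2 ≤ L ^ 3 := pow_le_pow_right₀ hL (by norm_num)
  refine mW_le (one_le_pow₀ one_le_two) (by linarith) (fun j => (c j).trans (by linarith)) ?_
    (fun j => ?_) i k
  · have a1 := bil_le h.sq.2.1 c c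
    have a2 := h.sq.2.2.1
    refine (abs_sub _ _).trans ?_
    push_cast at a1
    simp only [cd] at a1 ⊢
    nlinarith
  · have a1 : |(ce ξ (cd g D Q ξ ω) ᵥ* Q.q ω) j| ≤ _ := dot_le c fun a => h.sq.2.1 a j
    have a2 : |(Q.q ω *ᵥ ce ξ (cd g D Q ξ ω)) j| ≤ _ := dot_le (h.sq.2.1 j) c
    have a3 := h.sq.2.2.2 j
    rw [Pi.neg_apply, abs_neg, Pi.add_apply, Pi.add_apply]
    refine (abs_add_three _ _ _).trans ?_
    push_cast at a1 a2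
    simp only [cd] at a1 a2 ⊢
    nlinarith

theorem z_le (h : Gd g D Q b ξ τ μ L ω) (k0 : KCh0) {s : ℝ} (s0 : 0 ≤ s) (s1 : s < 1)
    (i : Fin 3) : |(chl g D Q ξ τ ω).z s i| ≤ 2 * L := by
  have hL := h.one
  have t0 : 0 ≤ (chl g D Q ξ τ ω).t := Int.fract_nonneg _
  have t1 : (chl g D Q ξ τ ω).t < 1 := Int.fract_lt_one _
  have e := k0.t g D Q ξ τ ω
  have p : (0 : ℝ) < 2 ^ ξ := by positivity
  have a : ∀ j, |2 ^ ξ * (g.lt (g.z0 ξ ω) ω j - D.o ξ ω j) + s * g.e ω j| ≤ 2 * L := fun j => by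
    have b1 := h.b0 j
    have b2 : |(s - (chl g D Q ξ τ ω).t) * g.e ω j| ≤ 1 * L := by
      rw [abs_mul]
      exact mul_le_mul (abs_le.2 ⟨by linarith, by linarith⟩) (h.box.2.1 j).2
        (abs_nonneg _) zero_le_one
    have b3 : 2 ^ ξ * (g.lt (g.z0 ξ ω) ω j - D.o ξ ω j) + s * g.e ω j =
        2 ^ ξ * (g.pt ω j - D.o ξ ω j) + (s - (chl g D Q ξ τ ω).t) * g.e ω j := by
      rw [Geo.pt, ← e]
      simp only [Geo.lt, hs, Pi.add_apply, Pi.smul_apply, smul_eq_mul]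
      field_simp
      ring
    rw [le_div_iff₀ p] at b1
    rw [b3]
    refine (abs_add_le _ _).trans ?_
    rw [abs_mul (2 ^ ξ : ℝ), abs_of_pos p]
    linarith
  fin_cases i
  · simp only [Cv.z, Fin.zero_eta, cons_val_zero]
    exact abs_le.2 ⟨by linarith, by linarith⟩
  · simpa [Cv.z, chl] using a 0
  · simpa [Cv.z, chl] using a 1

theorem W_hom (k0 : KCh0) (s : ℝ) : cW ξ (cd g D Q ξ ω) *ᵥ
    hom (hs g ξ ω s) (g.lt (hs g ξ ω s) ω) = ![1, (chl g D Q ξ τ ω).z s 0,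
      (chl g D Q ξ τ ω).z s 1, (chl g D Q ξ τ ω).z s 2,
      (chl g D Q ξ τ ω).z s ⬝ᵥ Q.q ω *ᵥ (chl g D Q ξ τ ω).z s + (2 ^ ξ) ^ 2 *
        (g.lt (hs g ξ ω s) ω 2 - Q.sf ω (bp g (hs g ξ ω s) ω))] :=
  cW_hom ξ _ _ _ _ (k0.z g D Q ξ τ ω s)

theorem near (k0 : KCh0) {k : ℕ} {p : Pq} (lv : Lv M ξ τ μ) (hk : k ≤ M)
    (h : Gd g D Q b ξ τ μ L ω) (hp : p.Bd L) (hb : b → p.2.2.2 = (0, 0)) {s : ℝ} (s0 : 0 ≤ s)
    (s1 : s < 1) :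
    |2 ^ τ * (fc Q ω (hs g ξ ω s) - ql g (Ps ξ τ (cd g D Q ξ ω) p) ω (hs g ξ ω s)) -
      ((chl g D Q ξ τ ω).f s - psi p (Q.q ω) ((chl g D Q ξ τ ω).z s))| ≤ 79 * L ^ 4 / 2 ^ k := by
  have hL := h.one
  have e : 2 ^ τ * (fc Q ω (hs g ξ ω s) - ql g (Ps ξ τ (cd g D Q ξ ω) p) ω (hs g ξ ω s)) =
      (chl g D Q ξ τ ω).f s - pq p ((chl g D Q ξ τ ω).z s)
        ((chl g D Q ξ τ ω).z s ⬝ᵥ Q.q ω *ᵥ (chl g D Q ξ τ ω).z s + (2 ^ ξ) ^ 2 *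
          (g.lt (hs g ξ ω s) ω 2 - Q.sf ω (bp g (hs g ξ ω s) ω))) := by
    rw [k0.f, ql, qf, bil_Ps, W_hom (τ := τ) k0, mB_qf]
    simp only [ql, qf, cd]
    field_simp
    ring
  rw [e, sub_sub_sub_cancel_left, abs_sub_comm, psi]
  by_cases hb' : b
  · simp only [pq, hb hb', zero_dotProduct, mul_zero, zero_mul, sub_self, abs_zero]
    positivity
  · have z := z_le h k0 s0 s1
    have a1 := bil_le h.sq.2.1 z z
    have t := k0.box g ξ ω s h.box.1.1 h.box.1.2 s0 s1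
    have a2 := (h.curv hb').2 _ t.1 t.2
    rw [div_eq_mul_one_div]
    refine pq_sub hp hL z (a1.trans (le_of_eq (by push_cast; ring))) ?_ ?_
    · rw [abs_mul, abs_of_nonneg (by positivity)]
      refine (mul_le_mul_of_nonneg_left a2 (by positivity)).trans ?_
      rw [mul_one_div, div_le_div_iff₀ (by positivity) (by positivity), one_mul, ← pow_mul,
        ← pow_add]
      obtain ⟨l1, l2, l3⟩ := lv
      exact pow_le_pow_right₀ one_le_two (by omega)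
    · exact (div_le_one (by positivity)).2 (one_le_pow₀ one_le_two)

end Geo

theorem hy_l {E : Qd} {L : ℝ} (h : Hy E L) (i : Fin 4) (Y : V 5) :
    bv i.succ ⬝ᵥ E *ᵥ Y = 0 := by
  have : ∀ k, E i.succ k = 0 := fun k => h.1 _ _ (Or.inl (Fin.succ_ne_zero i))
  rw [bv, single_dotProduct, one_mul]
  simp [mulVec, dotProduct, this]

theorem hy_r {E : Qd} {L : ℝ} (h : Hy E L) (t : ℝ) (y : V 3) (k : Fin 5) :
    hom t y ⬝ᵥ E *ᵥ bv k = E 0 k := by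
  have : ∀ i : Fin 4, E i.succ k = 0 := fun i => h.1 _ _ (Or.inl (Fin.succ_ne_zero i))
  rw [dotProduct, Fin.sum_univ_succ]
  simp [colv, this, hom]

end DKFinA

open DKFinA in
theorem rowKFin : OfKFin := fun k0 => by
  refine ⟨Ps, 200000, 7, by norm_num, ?_⟩
  intro Ω g D Q b M ξ τ μ k L p ω lv hk h hp hb hf
  have hL := h.one
  have l1 : L ≤ L ^ 7 := le_self_pow₀ hL (by norm_num)
  have l2 : L ^ 2 ≤ L ^ 7 := pow_le_pow_right₀ hL (by norm_num)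
  have l4 : L ^ 4 ≤ L ^ 7 := pow_le_pow_right₀ hL (by norm_num)
  have pτ : (0 : ℝ) < 2 ^ τ := by positivity
  have pξ : (0 : ℝ) < 2 ^ ξ := by positivity
  have i1 : ((2 : ℝ) ^ τ)⁻¹ ≤ 1 := inv_le_one_of_one_le₀ (one_le_pow₀ one_le_two)
  have i2 : ((2 : ℝ) ^ τ)⁻¹ * 2 ^ ξ ≤ 1 := by
    rw [inv_mul_le_iff₀ pτ, mul_one]
    exact pow_le_pow_right₀ one_le_two lv.2.1
  have i0 : (0 : ℝ) ≤ (2 ^ τ)⁻¹ := by positivity
  have t0 : 0 ≤ (chl g D Q ξ τ ω).t := Int.fract_nonneg _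
  have t1 : (chl g D Q ξ τ ω).t < 1 := Int.fract_lt_one _
  have et := k0.t g D Q ξ τ ω
  refine ⟨⟨fun i j => ?_, fun hb' => ⟨fun i j hij => ?_, fun i => ⟨?_, fun j => ?_⟩⟩⟩,
    fun t ht => ?_⟩
  · have w : ∀ a c, |(cW ξ (cd g D Q ξ ω) *ᵥ bv a) c| ≤ (2 ^ ξ) ^ 2 * (82 * L ^ 3) :=
      fun a c => by rw [colv]; exact cW_le h k0 c a
    have a1 := bil_le (mB_le hp) (w i) (w j)
    have a2 := h.qE i j
    rw [entry (Ps _ _ _ _), bil_Ps, ← entry]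
    refine (abs_add_le _ _).trans ?_
    rw [abs_mul, abs_of_nonneg i0]
    have a3 := mul_le_mul i1 a1 (abs_nonneg _) zero_le_one
    have e4 : (2 : ℝ) ^ (4 * ξ) = ((2 ^ ξ) ^ 2) ^ 2 := by rw [← pow_mul, ← pow_mul]; ring
    rw [e4] at a2 ⊢
    have a4 := mul_le_mul_of_nonneg_right l1 (sq_nonneg (((2 : ℝ) ^ ξ) ^ 2))
    have a5 : 0 ≤ L ^ 7 * (((2 : ℝ) ^ ξ) ^ 2) ^ 2 := by positivity
    push_cast at a3
    simp only [cd] at a3 ⊢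
    nlinarith
  · rw [entry (Ps _ _ _ _), bil_Ps, ← entry, mB_tr (hb hb')]
    have a1 : Q.E ξ ω i j = 0 := (h.flat hb').2.2.1 i j (hij.imp (fun e => by simp [e]) id)
    rcases hij with rfl | rfl <;> simp [cW, tr_last, cd, a1]
  · have y : ∀ c, |tr (cW ξ (cd g D Q ξ ω) *ᵥ hom (g.z ω) (g.pt ω)) c| ≤ 2 * L := fun c => by
      have z := z_le h k0 t0 t1
      rw [Geo.pt, ← et, W_hom (τ := τ) k0]
      fin_cases c <;> simp [tr, z] <;> linarith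
    have w : ∀ c, |tr (cW ξ (cd g D Q ξ ω) *ᵥ bv i.succ) c| ≤ 2 ^ ξ := tr_col pξ.le i
    have a1 := bil_le (mB_le hp) y w
    have a2 := bil_le (mB_le hp) w y
    have hy := (h.flat hb').2.2
    have a3 := hy.2 i.succ
    rw [pf, bil_Ps, bil_Ps, mB_tr (hb hb'), mB_tr (hb hb') (_ *ᵥ bv _)]
    simp only [cd] at a1 a2 ⊢
    rw [hy_l hy, hy_r hy, zero_add]
    refine (abs_add_three _ _ _).trans ?_
    rw [abs_mul, abs_mul, abs_of_nonneg i0]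
    have a4 := mul_le_mul_of_nonneg_left a1 i0
    have a5 := mul_le_mul_of_nonneg_left a2 i0
    have a6 := mul_le_mul_of_nonneg_right i2 (sq_nonneg L)
    push_cast at a4 a5
    nlinarith
  · have w : ∀ (a : Fin 4) c, |tr (cW ξ (cd g D Q ξ ω) *ᵥ bv a.succ) c| ≤ 2 ^ ξ :=
      fun a => tr_col pξ.le a
    have a1 := bil_le (mB_le hp) (w i) (w j)
    have a2 := bil_le (mB_le hp) (w j) (w i)
    have hy := (h.flat hb').2.2
    rw [pf, bil_Ps, bil_Ps, mB_tr (hb hb'), mB_tr (hb hb') (_ *ᵥ bv j.succ)]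
    simp only [cd] at a1 a2 ⊢
    rw [hy_l hy, hy_l hy, zero_add, zero_add]
    refine (abs_add_le _ _).trans ?_
    rw [abs_mul, abs_mul, abs_of_nonneg i0]
    have a4 := mul_le_mul_of_nonneg_left a1 i0
    have a5 := mul_le_mul_of_nonneg_left a2 i0
    have a6 := mul_le_mul_of_nonneg_right i2 (show 0 ≤ L * 2 ^ ξ by positivity)
    have a7 := mul_le_mul_of_nonneg_right l1 pξ.le
    have a8 : 0 ≤ L * 2 ^ ξ := by positivity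
    push_cast at a4 a5
    nlinarith
  · obtain ⟨s, s0, s1, rfl⟩ := (k0.win g ξ ω t).1 ht
    have a1 := near k0 lv hk h hp hb s0 s1
    have a2 := near k0 lv hk h hp hb t0 t1
    have a3 := hf s s0 s1.le
    have a4 := hf _ t0 t1.le
    rw [et] at a2
    have a5 : 2 * (L / 2 ^ k) + 2 * (79 * L ^ 4 / 2 ^ k) ≤ 200000 * L ^ 7 / 2 ^ k := by
      rw [← mul_div_assoc, ← mul_div_assoc, ← add_div]
      exact div_le_div_of_nonneg_right (by nlinarith) (by positivity)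
    rw [pow_add, mul_comm (2 ^ τ : ℝ), ← div_div, le_div_iff₀ pτ, ← abs_of_pos pτ, ← abs_mul]
    rw [abs_le] at a1 a2 a3 a4 ⊢
    constructor <;> nlinarith [a1.1, a1.2, a2.1, a2.2, a3.1, a3.2, a4.1, a4.2]

end Pool.Agent.MP_5168f5_an.R4.Tan
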