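import Pool.Agent.MP_5168f5_an.R4.SpecAd

/-! Rounding of potentials. -/

namespace Pool.Agent.MP_5168f5_an.R4.Tan

open H19 H17S H17F Filter Matrix Web NCx

namespace DKRndA

/-- The indices of the nonconstant coefficients. -/
abbrev Ix : Type := Fin 3 ⊕ (Fin 3 × Fin 3) ⊕ Fin 3 ⊕ Unit

/-- The nonconstant coefficients. -/
def enc (p : Pq) : Ix → ℝ :=
  Sum.elim p.2.1 (Sum.elim (fun x => p.2.2.1 x.1 x.2) (Sum.elim p.2.2.2.1 fun _ => p.2.2.2.2))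

/-- The data with given nonconstant coefficients. -/
noncomputable def dec (k : ℕ) (u : Ix → ℤ) : Pq :=
  (0, fun i => u (.inl i) / 2 ^ k, fun i j => u (.inr (.inl (i, j))) / 2 ^ k,
    fun i => u (.inr (.inr (.inl i))) / 2 ^ k, u (.inr (.inr (.inr ()))) / 2 ^ k)

theorem cl_enc {p p' : Pq} {ε : ℝ} (h : p.Cl p' ε) : ∀ a, |enc p a - enc p' a| ≤ ε
  | .inl i => h.1 i
  | .inr (.inl x) => h.2.1 x.1 x.2
  | .inr (.inr (.inl i)) => h.2.2.1 i
  | .inr (.inr (.inr _)) => h.2.2.2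

theorem rd_le (k : ℕ) {x L : ℝ} (h : |x| ≤ L) : |rd k x| ≤ L + 1 := by
  have : (1 : ℝ) / 2 ^ k ≤ 1 := div_le_one_of_le₀ (one_le_pow₀ one_le_two) (by positivity)
  linarith [abs_rd_sub k x, abs_sub_abs_le_abs_sub (rd k x) x]

theorem rd_cl (k : ℕ) {x y : ℝ} (h : |x - y| ≤ 1 / 2 ^ k) : |x - rd k y| ≤ 2 / 2 ^ k := by
  have : (2 : ℝ) / 2 ^ k = 1 / 2 ^ k + 1 / 2 ^ k := by ring
  linarith [abs_rd_sub k y, abs_sub_le x y (rd k y), abs_sub_comm y (rd k y)]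

theorem dot_le {x y : V 3} {a b : ℝ} (hx : ∀ i, |x i| ≤ a) (hy : ∀ i, |y i| ≤ b) :
    |x ⬝ᵥ y| ≤ 3 * (a * b) := by
  have : ∀ i, |x i * y i| ≤ a * b := fun i => by
    rw [abs_mul]; exact mul_le_mul (hx i) (hy i) (abs_nonneg _) ((abs_nonneg _).trans (hx i))
  simp only [dotProduct, Fin.sum_univ_three]
  linarith [abs_add_three (x 0 * y 0) (x 1 * y 1) (x 2 * y 2), this 0, this 1, this 2]

theorem psi_cl {p p' : Pq} {q : M3} {L ε : ℝ} {z : V 3} (hL : 1 ≤ L) (h : p.Cl p' ε)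
    (hq : ∀ i j, |q i j| ≤ L) (hz : ∀ i, |z i| ≤ 2 * L) :
    |psi p q z - psi p' q z - (p.1 - p'.1)| ≤ 1554 * (L ^ 6 * ε) := by
  have e0 : 0 ≤ ε := (abs_nonneg _).trans h.2.2.2
  have a := dot_le hz (y := q *ᵥ z) fun i => dot_le (hq i) hz
  have b1 := dot_le (x := p.2.1 - p'.2.1) h.1 hz
  have b2 := dot_le hz (y := (p.2.2.1 - p'.2.2.1) *ᵥ z) fun i => dot_le (h.2.1 i) hz
  have b3 : |z ⬝ᵥ q *ᵥ z * ((p.2.2.2.1 - p'.2.2.2.1) ⬝ᵥ z)| ≤ _ := (abs_mul _ _).trans_le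
    (mul_le_mul a (dot_le (x := p.2.2.2.1 - p'.2.2.2.1) h.2.2.1 hz) (abs_nonneg _) (by positivity))
  have b4 : |(p.2.2.2.2 - p'.2.2.2.2) * (z ⬝ᵥ q *ᵥ z) ^ 2| ≤ _ := (abs_mul _ _).trans_le
    (mul_le_mul h.2.2.2 ((abs_pow _ _).trans_le (pow_le_pow_left₀ (abs_nonneg _) a 2))
      (abs_nonneg _) e0)
  have c : ∀ j ≤ 6, L ^ j * ε ≤ L ^ 6 * ε := fun j hj =>
    mul_le_mul_of_nonneg_right (pow_le_pow_right₀ hL hj) e0
  simp only [psi, pq, sub_dotProduct, sub_mulVec, dotProduct_sub, abs_le] at b1 b2 b3 b4 ⊢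
  constructor <;>
    linarith [b1.1, b1.2, b2.1, b2.2, b3.1, b3.2, b4.1, b4.2, c 1 (by omega), c 2 (by omega),
      c 4 (by omega)]

theorem z_le {c : Cv} {L s : ℝ} (hL : 1 ≤ L) (h : c.Bd L) (h0 : 0 ≤ s) (h1 : s ≤ 1) (i) :
    |c.z s i| ≤ 2 * L := by
  have k : ∀ j, |c.a j + s * c.e j| ≤ 2 * L := fun j => by
    refine (abs_add_le _ _).trans ?_
    rw [abs_mul, abs_of_nonneg h0]
    nlinarith [(h.1 j).1, (h.1 j).2, abs_nonneg (c.e j)]
  fin_cases i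
  exacts [(abs_of_nonneg h0).trans_le (by linarith), k 0, k 1]

end DKRndA

open DKRndA in
theorem rowKRnd : KRnd := by
  classical
  refine ⟨fun k p => dec k (flv k (enc p)), 7 ^ 16, 6, by norm_num, fun k p L h => ?_,
    fun k p h => ?_, fun P p p' G k hf h a ha => ?_, fun c p p' q L k hL hc hq h hp s h0 h1 => ?_⟩
  · exact ⟨abs_zero.trans_le (by linarith [abs_nonneg p.1, h.1]), fun i => rd_le k (h.2.1 i),
      fun i j => ⟨rd_le k (h.2.2.1 i j).1, congrArg (rd k) (h.2.2.1 i j).2⟩,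
      fun i => rd_le k (h.2.2.2.1 i), rd_le k h.2.2.2.2⟩
  · refine Prod.ext (funext fun i => ?_) ?_ <;> simp [dec, flv, enc, fl1, h]
  · obtain ⟨T, t1, t2⟩ := det_near (P := P) (x := fun v => enc (p' v)) (G := G) (j := k)
      zero_le_two (fun a ha b hb e => (pi_norm_le_iff_of_nonneg (by positivity)).2 fun i => by
        have u := cl_enc (h a ha) i
        have v := cl_enc (h b hb) i
        have : (2 : ℝ) / 2 ^ k = 1 / 2 ^ k + 1 / 2 ^ k := by ring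
        rw [hf a ha b hb e, abs_sub_comm] at u
        exact (abs_sub_le _ (enc (p b) i) _).trans (by linarith)) a ha
    refine ⟨T.image (dec k), (Nat.cast_le.2 Finset.card_image_le).trans (t1.trans_eq ?_),
      fun b hb e => Finset.mem_image_of_mem _ (t2 b hb e)⟩
    norm_num
  · have k1 : p.Cl (dec k (flv k (enc p'))) (2 / 2 ^ k) :=
      ⟨fun i => rd_cl k (h.1 i), fun i j => rd_cl k (h.2.1 i j), fun i => rd_cl k (h.2.2.1 i),
        rd_cl k h.2.2.2⟩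
    have u := abs_le.1 (psi_cl hL k1 hq (z_le hL hc h0 h1))
    have v := abs_le.1 (psi_cl hL k1 hq (z_le hL hc le_rfl zero_le_one))
    have w := abs_le.1 (hp s h0 h1)
    have l : L / 2 ^ k ≤ L ^ 6 / 2 ^ k :=
      div_le_div_of_nonneg_right (le_self_pow₀ hL (by omega)) (by positivity)
    have l0 : 0 ≤ L ^ 6 / 2 ^ k := by positivity
    rw [show L ^ 6 * (2 / 2 ^ k) = 2 * (L ^ 6 / 2 ^ k) by ring] at u v
    rw [mul_div_assoc, abs_le]
    constructor <;> linarith [u.1, u.2, v.1, v.2, w.1, w.2]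

end Pool.Agent.MP_5168f5_an.R4.Tan
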