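import Pool.Agent.MP_5168f5_an.R4.SpecAd

/-! Case A: a label that carries a potential. -/

namespace Pool.Agent.MP_5168f5_an.R4.Tan

open H19 H17S H17F Filter Matrix Web NCx

namespace DUAA

theorem gd_pull {Ω W : Type} {g : Geo 3 Ω} {D : Td Ω} {Q : Tq Ω} {b : Prop} {ξ τ μ : ℕ} {L : ℝ}
    (f : W → Ω) {v : W} (h : Gd g D Q b ξ τ μ L (f v)) :
    Gd (g.pull f) (D.pull f) (Q.pull f) b ξ τ μ L v :=
  ⟨h.one, h.box, h.qE, h.cell, h.b0, h.b1, h.bf, h.sq, h.flat, h.curv⟩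

theorem cl_mono {p p' : Pq} {ε ε' : ℝ} (h : p.Cl p' ε) (e : ε ≤ ε') : p.Cl p' ε' :=
  ⟨fun i => (h.1 i).trans e, fun i j => (h.2.1 i j).trans e, fun i => (h.2.2.1 i).trans e,
    h.2.2.2.trans e⟩

theorem bd_mono {p : Pq} {L L' : ℝ} (h : p.Bd L) (e : L ≤ L') : p.Bd L' :=
  ⟨h.1.trans e, fun i => (h.2.1 i).trans e, fun i j => ⟨(h.2.2.1 i j).1.trans e, (h.2.2.1 i j).2⟩,
    fun i => (h.2.2.2.1 i).trans e, h.2.2.2.2.trans e⟩

theorem cv_mono {c : Cv} {L L' : ℝ} (h : c.Bd L) (e : L ≤ L') : c.Bd L' :=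
  ⟨fun i => ⟨(h.1 i).1.trans e, (h.1 i).2.trans e⟩, fun j => (h.2.1 j).trans e, h.2.2⟩

theorem fits_mono {c : Cv} {Ψ : V 3 → ℝ} {ε ε' : ℝ} (h : c.Fits Ψ ε) (e : ε ≤ ε') : c.Fits Ψ ε' :=
  fun s a b => (h s a b).trans e

theorem om_frac {M μ : ℕ → ℕ} (h : Frac M μ) : OM M μ := by
  obtain ⟨-, c, hc, e⟩ := h
  obtain ⟨C, hC⟩ := exists_nat_ge (1 / c)
  rw [div_le_iff₀ hc] at hC
  refine ⟨C, e.mono fun n a => ?_⟩
  have h1 : (μ n : ℝ) ≤ C * M n := by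
    nlinarith [mul_le_mul_of_nonneg_left a (Nat.cast_nonneg (α := ℝ) C),
      mul_le_mul_of_nonneg_right hC (Nat.cast_nonneg (α := ℝ) (μ n))]
  exact_mod_cast h1

theorem half {L : ℝ} {k : ℕ} (h : L ≤ 2 ^ (k / 2)) : L / 2 ^ k ≤ 1 / 2 ^ (k / 2) := by
  rw [div_le_div_iff₀ (by positivity) (by positivity), one_mul]
  refine (mul_le_mul_of_nonneg_right h (by positivity)).trans ?_
  rw [← pow_add]
  exact pow_le_pow_right₀ one_le_two (by omega)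

end DUAA

open DUAA

theorem rowUA : OfUA := by
  rintro ⟨K1, m1, hK1, k1⟩ ⟨rp, K2, m2, hK2, r1, r2, r3, r4⟩ li che cas ca Ω K g M mm D Q b d ε₀ tu
  obtain ⟨X, τ, μ, L, hX, hτ, ch⟩ := che K g M mm D Q b d ε₀ tu
  obtain ⟨as, kind⟩ := cas _ _ _ _ _ _ _ _ _ _ _ ch
  obtain ⟨p, L1, k, po, cl⟩ := ca _ _ _ _ _ μ M ε₀ _ as kind
  have s1 : Sub M L1 := po.sub.frac ch.frac
  have fk : Frac (fun n => k n / 2) M := ((ch.big.frac po.frac).frac_div two_pos).trans po.frac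
  obtain ⟨-, c, hc, fk'⟩ := id fk
  have hh : ∀ᶠ n in UF, L1 n / 2 ^ k n ≤ 1 / 2 ^ (k n / 2) :=
    (Sub.le_pow s1 hc fk').mono fun n => half
  have ps := (cl.mono (F := fun n v => (p n v.1).Cl (p n v.2) (1 / 2 ^ (k n / 2)))
    (hh.mono fun n a _ _ u => cl_mono u a)).pos
  have su := ps.sure.mono fun n a v hv => And.intro ((kg.mem _ _ _ _ v (Law.rfl _)).1 (a v hv).1)
    (a v hv).2
  have un := tu.un X hX
  have o2 : OM M fun n => 2 * M n := OM.mul 2 OM.rfl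
  have lab := li X.P (X.G g) mm (fun n => 2 * M n) (fun n => (mD X D n).S (2 * M n))
    (fun n => (mD X D n).S (2 * M n + μ n)) (fun n ω => rp (k n / 2) (p n ω)) _ K2 tu.big
    (un.lab _ o2) (un.lab _ (o2.add (om_frac ch.frac))).l
    (ch.fn.mono fun n a x hx y hy e => congrArg Prod.fst (a.2.2 x hx y hy e)) hK2 ps (by
      filter_upwards [su, po.alg] with n a u
      exact r3 _ (fun v => p n v.1) (fun v => p n v.2) _ _
        (fun x hx y hy e => u.1 _ (a x hx).1.1 _ (a y hy).1.1 e) fun v hv => (a v hv).2)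
  have s2 : Sub M fun n => K1 * L n ^ m1 := (ch.sub.pow m1).const_mul ch.big hK1
  have s3 : Sub M fun n => K2 * (K1 * L n ^ m1 * L n) ^ m2 :=
    ((s2.mul ch.sub).pow m2).const_mul ch.big hK2
  have s4 : Sub M fun n => L1 n + 1 := s1.add (ch.big.sub le_rfl) ch.big
  refine ⟨(X.ext _ fun _ => Prod.fst).cond _, _,
    fun n v => ((mD X D n).S (2 * M n) v.1, rp (k n / 2) (p n v.2)),
    fun n v => rp (k n / 2) (p n v.2), τ, μ, fun n => k n / 2,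
    fun n => K2 * (K1 * L n ^ m1 * L n) ^ m2 + (L n + (L1 n + 1)),
    tu.cl.cond _ _ (tu.cl.fst hX _) ps, hτ, ch.frac, ch.lv, fk,
    s3.add (ch.sub.add s4 ch.big) ch.big, lab,
    Eventually.of_forall fun n => ⟨Fn.fst _ _, Fn.snd _ _⟩, ((whp_fst _ po.fit).cE ps).mono ?_⟩
  filter_upwards [su, po.alg, ch.gd, hh] with n a u w e v hv z
  obtain ⟨⟨a1, a2, -⟩, a3⟩ := a v hv
  have l0 := ch.sub.1 n
  have l1 := s1.1 n
  have l2 := s2.1 n
  have l3 := s3.1 n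
  have l4 : 1 ≤ K1 * L n ^ m1 * L n := one_le_mul_of_one_le_of_one_le l2 l0
  refine ⟨gd_pull Prod.fst ((w _ a1).mono (by linarith)),
    bd_mono (r1 _ _ _ (u.2 _ a2).1) (by linarith), fun hb => r2 _ _ ((u.2 _ a2).2 (ch.q0 hb n _)),
    fits_mono (r4 _ (p n v.1) _ _ (K1 * L n ^ m1 * L n) _ l4
      (cv_mono (k1 _ _ _ b _ _ _ _ _ _ (ch.lv n) (w _ a1)).1
        (le_mul_of_one_le_right (by linarith) l0))
      (fun i j => ((w _ a1).sq.2.1 i j).trans (le_mul_of_one_le_left (by linarith) l2)) a3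
      (fits_mono z (e.trans (div_le_div_of_nonneg_right l4 (by positivity)))))
      (div_le_div_of_nonneg_right (by linarith) (by positivity))⟩

end Pool.Agent.MP_5168f5_an.R4.Tan
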