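import Pool.Agent.MP_5168f5_an.R4.SpecAd

/-! Case A: a potential of the rescaled curves contradicts the optimality of the cells. -/

namespace Pool.Agent.MP_5168f5_an.R4.Tan

open H19 H17S H17F Filter Matrix Web NCx

namespace DUBA

theorem om_frac {M μ : ℕ → ℕ} (h : Frac M μ) : OM M μ := by
  obtain ⟨-, c, hc, h⟩ := h
  refine ⟨⌈c⁻¹⌉₊, h.mono fun n a => ?_⟩
  have h1 : (μ n : ℝ) ≤ c⁻¹ * M n := (le_inv_mul_iff₀ hc).2 a
  have h2 := mul_le_mul_of_nonneg_right (Nat.le_ceil c⁻¹) (Nat.cast_nonneg (α := ℝ) (M n))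
  exact_mod_cast h1.trans h2

theorem om_mul (M : ℕ → ℕ) (C : ℕ) : OM M fun n => C * M n :=
  ⟨C, Eventually.of_forall fun _ => le_rfl⟩

end DUBA

open DUBA in
theorem rowUB : OfUB := by
  rintro ⟨Ψ, K₀, m, hK, fin⟩ ua Ω K g M mm D Q b d ε₀ tu ng
  obtain ⟨X, Λ, lam, p, τ, μ, k, L, hX, hτ, fμ, lv, fk, sL, lab, fn, whp⟩ :=
    ua K g M mm D Q b d ε₀ tu
  have un := tu.un X hX
  have hM : Big M := by simpa using (un.bs 1 one_pos).big
  have sL' : Sub M fun n => K₀ * L n ^ m := (sL.pow m).const_mul hM hK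
  have o1 : OM M fun n => τ n + k n := by
    obtain ⟨C, h⟩ := om_frac fμ
    refine ⟨C + 1, h.mono fun n a => ?_⟩
    have h1 := (lv n).2.2
    have h2 := fk.1 n
    rw [add_mul, one_mul]
    beta_reduce
    omega
  have key := ng X hX Λ lam
    (fun n v => Ψ (2 * M n) (τ n) (cd (X.G g n) (mD X D n) (mQ X Q n) (2 * M n) v) (p n v))
    (fun n => K₀ * L n ^ m) (fun n => 2 * M n) (fun n => τ n + k n) (fun n => 9 * M n)
    (om_mul M 2) o1 (om_mul M 9) lab sL' ?_ ?_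
  · obtain ⟨-, c, hc, e⟩ := fk
    refine (key.of2 (hM.sm 1) (f := fun n => τ n + k n) (g := fun n => τ n)
      (Eventually.of_forall fun n => ?_)).false hM hc (e.mono fun n a => by linarith)
    have := hτ n
    push_cast at this ⊢
    linarith
  · filter_upwards [fn, un.fn] with n u w v hv v' hv' e
    have e1 := (w.2.2 (2 * M n)).2 v hv v' hv' (u.1 v hv v' hv' e)
    have e2 : cd (X.G g n) (mD X D n) (mQ X Q n) (2 * M n) v =
        cd (X.G g n) (mD X D n) (mQ X Q n) (2 * M n) v' := congrArg (fun x => x.2.1) e1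
    beta_reduce
    rw [e2, u.2 v hv v' hv' e]
  · refine whp.mono ?_
    filter_upwards [Sub.le_pow sL' one_pos (R := M)
      (Eventually.of_forall fun n => (one_mul _).le)] with n a v _ ⟨h1, h2, h3, h4⟩
    obtain ⟨⟨u1, u2⟩, u3⟩ := fin (X.G g n) (mD X D n) (mQ X Q n) b (M n) (2 * M n) (τ n) (μ n)
      (k n) (L n) (p n v) v (lv n) (fk.1 n) h1 h2 h3 h4
    refine ⟨⟨fun i j => (u1 i j).trans ?_, u2⟩, u3⟩
    rw [show 9 * M n = M n + 4 * (2 * M n) by ring, pow_add]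
    exact mul_le_mul_of_nonneg_right a (by positivity)

end Pool.Agent.MP_5168f5_an.R4.Tan
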