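import Pool.Agent.MP_5168f5_an.R4.WAlgC1

/-! The curved case. -/

namespace Pool.Agent.MP_5168f5_an.R4.Web

open H19 H17S H17F Matrix

namespace WAlgCA

theorem core {R : Type} [CommRing R] (h2 : IsUnit (2 : R)) (h3 : IsUnit (3 : R))
    {w : Fin (4 + 3) → Fin 3 → R} {A q : Matrix (Fin 3) (Fin 3) R}
    (hA : (Matrix.of ![w 0, w 1, w 2])ᵀ * A = 1)
    (hd : ∀ i j k, i ≠ j → j ≠ k → i ≠ k → IsUnit (gdet (w i) (w j) (w k)))
    (hq : ∀ i j, q i j = q j i) (hu : IsUnit (∑ i, ∑ j, q i j ^ 2))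
    (h0 : ∀ k, w k ⬝ᵥ q *ᵥ w k = 0) {C : Fin 3 → Fin 3 → Fin 3 → R}
    (hD : ∀ (k : Fin 4) i j l, gV (A *ᵥ w k.succ.succ.succ) (gV (A *ᵥ w k.succ.succ.succ)
      (gV (A *ᵥ w k.succ.succ.succ) C)) i j l = 0) :
    ∃ (l : Fin 3 → R) (k : R), ∀ (S : Type) [CommRing S] (φ : R →+* S) (z : Fin 3 → S),
      hi (fun i j l => φ (C i j l)) (fun i => φ (l i)) (φ k) (A.map φ *ᵥ z)
        (z ⬝ᵥ q.map φ *ᵥ z) = 0 := by
  set a := 2 * (w 1 ⬝ᵥ q *ᵥ w 2) with ea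
  set b := 2 * (w 0 ⬝ᵥ q *ᵥ w 2) with eb
  set c := 2 * (w 0 ⬝ᵥ q *ᵥ w 1) with ec
  have hQ : ∀ (S : Type) [CommRing S] (φ : R →+* S) (z : Fin 3 → S), z ⬝ᵥ q.map φ *ᵥ z =
      φ c * (A.map φ *ᵥ z) 0 * (A.map φ *ᵥ z) 1 + φ b * (A.map φ *ᵥ z) 0 * (A.map φ *ᵥ z) 2 +
        φ a * (A.map φ *ᵥ z) 1 * (A.map φ *ᵥ z) 2 := fun S _ φ z => by
    have e : ((Matrix.of ![w 0, w 1, w 2])ᵀ).map φ *ᵥ A.map φ *ᵥ z = z := by
      rw [mulVec_mulVec, ← Matrix.map_mul, hA, Matrix.map_one _ φ.map_zero φ.map_one, one_mulVec]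
    generalize A.map φ *ᵥ z = s at e
    have a0 := congrArg φ (h0 0)
    have a1 := congrArg φ (h0 1)
    have a2 := congrArg φ (h0 2)
    subst e
    simp [ea, eb, ec, mulVec, dotProduct, Fin.sum_univ_three, hq 1 0, hq 2 0, hq 2 1,
      map_ofNat] at a0 a1 a2 ⊢
    linear_combination s 0 ^ 2 * a0 + s 1 ^ 2 * a1 + s 2 ^ 2 * a2
  have hQ' := hQ R (RingHom.id R)
  simp only [RingHom.coe_id, map_id, RingHom.id_apply] at hQ'
  have hW : ∀ s : Fin 3 → R, (Matrix.of ![w 0, w 1, w 2])ᵀ *ᵥ A *ᵥ s = s := fun s => by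
    rw [mulVec_mulVec, hA, one_mulVec]
  have hA' := mul_eq_one_comm.1 hA
  have u : ∀ i j k, i ≠ j → j ≠ k → i ≠ k → IsUnit (gdet (A *ᵥ w i) (A *ᵥ w j) (A *ᵥ w k)) :=
    fun i j k a1 a2 a3 => by
      have := hd i j k a1 a2 a3
      rw [← hW (w i), ← hW (w j), ← hW (w k)] at this
      refine isUnit_of_mul_isUnit_right (x := gdet (w 0) (w 1) (w 2)) ?_
      convert this using 1
      generalize A *ᵥ w i = x, A *ᵥ w j = y, A *ᵥ w k = z
      simp [gdet, det_fin_three, mulVec, dotProduct, Fin.sum_univ_three]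
      ring
  have e0 : A *ᵥ w 0 = Pi.single 0 1 := by
    rw [← one_mulVec (Pi.single 0 1), ← hA', ← mulVec_mulVec, mulVec_single_one]; rfl
  have e1 : A *ᵥ w 1 = Pi.single 1 1 := by
    rw [← one_mulVec (Pi.single 1 1), ← hA', ← mulVec_mulVec, mulVec_single_one]; rfl
  have e2 : A *ᵥ w 2 = Pi.single 2 1 := by
    rw [← one_mulVec (Pi.single 2 1), ← hA', ← mulVec_mulVec, mulVec_single_one]; rfl
  have n : ∀ k : Fin 4, k.succ.succ.succ ≠ 0 ∧ k.succ.succ.succ ≠ 1 ∧ k.succ.succ.succ ≠ 2 := by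
    decide
  have n' : ∀ k l : Fin 4, k ≠ l → k.succ.succ.succ ≠ l.succ.succ.succ := by decide
  set v : Fin 4 → Fin 3 → R := fun k => A *ᵥ w k.succ.succ.succ with hv
  have x0 : ∀ k, IsUnit (v k 0) := fun k => by
    simpa [gdet, det_fin_three, e1, e2] using u _ 1 2 (n k).2.1 (by decide) (n k).2.2
  have x1 : ∀ k, IsUnit (v k 1) := fun k => by
    simpa [gdet, det_fin_three, e0, e2] using u _ 2 0 (n k).2.2 (by decide) (n k).1
  have x2 : ∀ k, IsUnit (v k 2) := fun k => by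
    simpa [gdet, det_fin_three, e0, e1] using u _ 0 1 (n k).1 (by decide) (n k).2.1
  have m0 : IsUnit (v 0 1 * v 1 2 - v 0 2 * v 1 1) := by
    simpa [gdet, det_fin_three, e0, hv] using u _ _ 0 (n' 0 1 (by decide)) (n 1).1 (n 0).1
  have m1 : IsUnit (-(v 0 0 * v 1 2) + v 0 2 * v 1 0) := by
    simpa [gdet, det_fin_three, e1, hv] using u _ _ 1 (n' 0 1 (by decide)) (n 1).2.1 (n 0).2.1
  have m2 : ∀ k l, k ≠ l → IsUnit (v k 0 * v l 1 - v l 0 * v k 1) := fun k l h => by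
    simpa [gdet, det_fin_three, e2, mul_comm] using u _ _ 2 (n' k l h) (n l).2.2 (n k).2.2
  have hv0 : ∀ k, c * v k 0 * v k 1 + b * v k 0 * v k 2 + a * v k 1 * v k 2 = 0 := fun k =>
    (hQ' _).symm.trans (h0 _)
  have rb : b * (v 0 0 * v 1 0 * (v 0 1 * v 1 2 - v 0 2 * v 1 1)) =
      a * (v 0 1 * v 1 1 * (-(v 0 0 * v 1 2) + v 0 2 * v 1 0)) := by
    linear_combination v 0 0 * v 0 1 * hv0 1 - v 1 0 * v 1 1 * hv0 0
  have rc : c * (v 0 0 * v 1 0 * (v 0 1 * v 1 2 - v 0 2 * v 1 1)) =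
      a * (v 0 2 * v 1 2 * (v 0 0 * v 1 1 - v 1 0 * v 0 1)) := by
    linear_combination v 1 0 * v 1 2 * hv0 0 - v 0 0 * v 0 2 * hv0 1
  have m := ((x0 0).mul (x0 1)).mul m0
  have db : a ∣ b := m.dvd_mul_right.1 ⟨_, rb⟩
  have dc : a ∣ c := m.dvd_mul_right.1 ⟨_, rc⟩
  have dq : ∀ z, a ∣ z ⬝ᵥ q *ᵥ z := fun z => by
    rw [hQ']
    exact dvd_add (dvd_add ((dc.mul_right _).mul_right _) ((db.mul_right _).mul_right _))
      ((dvd_mul_right _ _).mul_right _)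
  have ha : IsUnit a := by
    refine isUnit_of_dvd_unit ?_ (h2.mul hu)
    simp only [Finset.mul_sum]
    refine Finset.dvd_sum fun i _ => Finset.dvd_sum fun j _ => ?_
    convert (dvd_sub (dvd_sub (dq (Pi.single i 1 + Pi.single j 1)) (dq (Pi.single i 1)))
      (dq (Pi.single j 1))).mul_right (q i j) using 1
    simp [mulVec_add, hq j i]
    ring
  obtain ⟨l, k, h⟩ := shape h2 h3 ha
    (isUnit_of_mul_isUnit_left (rb ▸ ha.mul (((x1 0).mul (x1 1)).mul m1)))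
    (isUnit_of_mul_isUnit_left (rc ▸ ha.mul (((x2 0).mul (x2 1)).mul (m2 0 1 (by decide))))) x2 m2
    hv0 hD
  exact ⟨l, k, fun S _ φ z => by rw [hQ S φ z]; exact h S φ _⟩

theorem map_frm {R S : Type} [CommRing R] [CommRing S] (φ : R →+* S) {a b c : Fin 3 → R}
    {A : Matrix (Fin 3) (Fin 3) R} (h : (Matrix.of ![a, b, c])ᵀ * A = 1) :
    (Matrix.of ![fun i => φ (a i), fun i => φ (b i), fun i => φ (c i)])ᵀ * A.map φ = 1 := by
  rw [← Matrix.map_one φ φ.map_zero φ.map_one, ← h, Matrix.map_mul]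
  congr 1
  ext i j
  fin_cases j <;> rfl

theorem map_D {R S : Type} [CommRing R] [CommRing S] (φ : R →+* S) (A : Matrix (Fin 3) (Fin 3) R)
    (w : Fin 3 → R) (C : Fin 3 → Fin 3 → Fin 3 → R) (i j l : Fin 3) :
    φ (gV (A *ᵥ w) (gV (A *ᵥ w) (gV (A *ᵥ w) C)) i j l) =
      gV (A.map φ *ᵥ fun i => φ (w i)) (gV (A.map φ *ᵥ fun i => φ (w i))
        (gV (A.map φ *ᵥ fun i => φ (w i)) fun i j l => φ (C i j l))) i j l := by
  rw [← map_mv, ← map_gV, ← map_gV, ← map_gV]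

theorem lift {O Q : Type} [CommRing O] [CommRing Q] (cl : O →+* Q) (hs : Function.Surjective cl)
    (h2 : IsUnit (2 : O)) (h3 : IsUnit (3 : O))
    {w : Fin (4 + 3) → Fin 3 → O} {A q : Matrix (Fin 3) (Fin 3) O}
    (hA : (Matrix.of ![w 0, w 1, w 2])ᵀ * A = 1)
    (hd : ∀ i j k, i ≠ j → j ≠ k → i ≠ k → IsUnit (gdet (w i) (w j) (w k)))
    (hq : ∀ i j, q i j = q j i) (hu : IsUnit (∑ i, ∑ j, q i j ^ 2))
    (h0 : ∀ k, cl (w k ⬝ᵥ q *ᵥ w k) = 0) {C : Fin 3 → Fin 3 → Fin 3 → O}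
    (hD : ∀ (k : Fin 4) i j l, cl (gV (A *ᵥ w k.succ.succ.succ) (gV (A *ᵥ w k.succ.succ.succ)
      (gV (A *ᵥ w k.succ.succ.succ) C)) i j l) = 0) :
    ∃ (l : Fin 3 → O) (k : O), ∀ (O' S : Type) [CommRing O'] [CommRing S] (π : O →+* O')
      (c : O' →+* S), (∀ f, cl f = 0 → c (π f) = 0) → ∀ z : Fin 3 → O',
      c (hi (fun i j l => π (C i j l)) (fun i => π (l i)) (π k) (A.map π *ᵥ z)
        (z ⬝ᵥ q.map π *ᵥ z)) = 0 := by
  obtain ⟨l, k, h⟩ := core (w := fun k i => cl (w k i)) (q := q.map cl)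
    (C := fun i j l => cl (C i j l)) (map_ofNat cl 2 ▸ h2.map cl) (map_ofNat cl 3 ▸ h3.map cl)
    (map_frm cl hA) (fun i j k a b c => map_gdet cl _ _ _ ▸ (hd i j k a b c).map cl)
    (fun i j => congrArg cl (hq i j)) (by simpa only [map_sum, map_pow, map_apply] using hu.map cl)
    (fun k => (map_qf cl _ _ _).symm.trans (h0 k))
    fun k i j l => (map_D cl _ _ _ i j l).symm.trans (hD k i j l)
  choose l hl using fun i => hs (l i)
  obtain ⟨k, rfl⟩ := hs k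
  refine ⟨l, k, fun O' S _ _ π c hc z => ?_⟩
  obtain ⟨φ, hφ⟩ : ∃ φ : Q →+* S, ∀ f, φ (cl f) = c (π f) :=
    ⟨cl.liftOfSurjective hs ⟨c.comp π, hc⟩, fun f => cl.liftOfRightInverse_comp_apply _ _ _ f⟩
  have := h S φ fun i => c (z i)
  rw [map_hi, map_mv, map_qf]
  simpa only [← hl, hφ, Matrix.map_map, Function.comp_def] using this

/-- The instances. -/
structure X where
  L : ℝ
  ε : ℝ
  w : Fin (4 + 3) → V 3
  q : Matrix (Fin 3) (Fin 3) ℝ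
  C : Arr
  hL : 1 ≤ L
  hε : 0 ≤ ε
  hw : ∀ k i, |w k i| ≤ L
  hd : ∀ i j k, i ≠ j → j ≠ k → i ≠ k → 1 ≤ L * |det3 (w i) (w j) (w k)|
  hq : ∀ i j, |q i j| ≤ L ∧ q i j = q j i
  hu : ∃ i j, 1 ≤ L * |q i j|
  h0 : ∀ k, |w k ⬝ᵥ q *ᵥ w k| ≤ ε
  hC : ∀ i j l, |C i j l| ≤ L
  hD : ∀ k : Fin 4, ∀ i j l,
    |dV ((frm (w 0) (w 1) (w 2))⁻¹ *ᵥ w k.succ.succ.succ)
      (dV ((frm (w 0) (w 1) (w 2))⁻¹ *ᵥ w k.succ.succ.succ)
        (dV ((frm (w 0) (w 1) (w 2))⁻¹ *ᵥ w k.succ.succ.succ) C)) i j l| ≤ ε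

/-- The matrix of the quadratic part. -/
def qm {R : Type} [CommRing R] (t : R) (C : Fin 3 → Fin 3 → Fin 3 → R) :
    Matrix (Fin 3) (Fin 3) R :=
  !![C 2 0 0, t * C 1 1 0, t * C 1 0 1; t * C 1 1 0, C 0 2 0, t * C 0 1 1;
    t * C 1 0 1, t * C 0 1 1, C 0 0 2]

theorem pq_eq (C : Arr) (A : Matrix (Fin 3) (Fin 3) ℝ) (l : V 3) (k : ℝ) (z : V 3) (h : ℝ) :
    tv C (A *ᵥ z) - pq (C 0 0 0, ![C 1 0 0, C 0 1 0, C 0 0 1] ᵥ* A, Aᵀ * qm 2⁻¹ C * A, l ᵥ* A, k) z h =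
      hi C l k (A *ᵥ z) h := by
  simp only [pq, ← dotProduct_mulVec, ← mulVec_mulVec, mulVec_transpose]
  rw [dotProduct_comm z, ← dotProduct_mulVec]
  generalize A *ᵥ z = s
  simp [tv, tq, hi, qm, mulVec, dotProduct, Fin.sum_univ_three]
  ring

theorem map_qm {R : Type} [CommRing R] (φ : R →+* ℝ) {t : R} (h : φ t = 2⁻¹)
    (C : Fin 3 → Fin 3 → Fin 3 → R) (A : Matrix (Fin 3) (Fin 3) R) (i j : Fin 3) :
    φ ((Aᵀ * qm t C * A) i j) =
      ((A.map φ)ᵀ * qm 2⁻¹ (fun i j l => φ (C i j l)) * A.map φ) i j := by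
  have : (qm t C).map φ = qm 2⁻¹ fun i j l => φ (C i j l) := by
    ext i j
    fin_cases i <;> fin_cases j <;> simp [qm, h]
  rw [← this, ← transpose_map, ← Matrix.map_mul, ← Matrix.map_mul, map_apply]

theorem map_vm {R : Type} [CommRing R] (φ : R →+* ℝ) (l : Fin 3 → R)
    (A : Matrix (Fin 3) (Fin 3) R) (i : Fin 3) :
    φ ((l ᵥ* A) i) = ((fun i => φ (l i)) ᵥ* A.map φ) i := by
  simp [vecMul, dotProduct]

/-- The parameters of the instances. -/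
def sX : Ins X := ⟨X.L, X.ε, X.hL, X.hε⟩

/-- The instances with a point. -/
def Y : Type := {y : X × V 3 // ∀ i, |y.2 i| ≤ y.1.L}

/-- The parameters of the instances with a point. -/
def sY : Ins Y := ⟨fun y => y.1.1.L, fun y => y.1.1.ε, fun y => y.1.1.hL, fun y => y.1.1.hε⟩

/-- Pull back. -/
def pY : sX.O →+* sY.O where
  toFun f := ⟨fun y => f.1 y.1.1, Ins.Bw.comp f.2 (t := sY) (fun y => y.1.1) fun _ => rfl⟩
  map_one' := rfl
  map_zero' := rfl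
  map_mul' _ _ := rfl
  map_add' _ _ := rfl

/-- Evaluation. -/
def rv {Z : Type} (s : Ins Z) (x : Z) : s.O →+* ℝ := s.ev x

theorem ev_eq {Z : Type} {s : Ins Z} (f : s.O) (x : Z) : f.1 x = rv s x f := rfl

/-- The class. -/
def qc {Z : Type} (s : Ins Z) : s.O →+* s.Q := Ideal.Quotient.mk s.I

theorem mk_zero {Z : Type} (s : Ins Z) {f : s.O} : qc s f = 0 ↔ s.Bw s.ε f.1 :=
  Ideal.Quotient.eq_zero_iff_mem

theorem qc_surj {Z : Type} (s : Ins Z) : Function.Surjective (qc s) := s.cl_surj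

theorem qc_pY (f : sX.O) (h : qc sX f = 0) : qc sY (pY f) = 0 :=
  (mk_zero sY).2 (Ins.Bw.comp ((mk_zero sX).1 h) (t := sY) (fun y => y.1.1) fun _ => rfl)

theorem small {Z : Type} (s : Ins Z) {f : s.O} (h : ∀ x, |rv s x f| ≤ s.ε x) : qc s f = 0 :=
  (mk_zero s).2 (Ins.bw_w h)

theorem bnd {J : Type} [Finite J] (F : J → sX.O) :
    ∃ (K : ℝ) (m : ℕ), 1 ≤ K ∧ ∀ j (x : X), |rv sX x (F j)| ≤ K * x.L ^ m := by
  obtain ⟨K, m, a, b⟩ := Ins.Bw.all (s := sX) (w := 1) (F := fun j => (F j).1)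
    (fun _ => zero_le_one) fun j => (F j).2
  exact ⟨K, m, a, fun j x => (b j x).trans_eq (mul_one _)⟩

end WAlgCA

open WAlgCA Ins in
theorem rowAlgC : AlgC := by
  let w : Fin (4 + 3) → Fin 3 → sX.O := fun k i => ⟨fun x => x.w k i, bw_L fun x => x.hw k i⟩
  let q : Matrix (Fin 3) (Fin 3) sX.O :=
    Matrix.of fun i j => ⟨fun x => x.q i j, bw_L fun x => (x.hq i j).1⟩
  let C : Fin 3 → Fin 3 → Fin 3 → sX.O :=
    fun i j l => ⟨fun x => x.C i j l, bw_L fun x => x.hC i j l⟩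
  have hd : ∀ i j k, i ≠ j → j ≠ k → i ≠ k → IsUnit (gdet (w i) (w j) (w k)) :=
    fun i j k a b c => isUnit_of (m := 1) le_rfl _ fun x => by
      rw [ev_eq, map_gdet, one_mul, pow_one]
      exact x.hd i j k a b c
  obtain ⟨A, hA⟩ : ∃ A, (Matrix.of ![w 0, w 1, w 2])ᵀ * A = 1 :=
    ⟨_, mul_nonsing_inv _ ((det_transpose (Matrix.of ![w 0, w 1, w 2])).symm ▸
      hd 0 1 2 (by decide) (by decide) (by decide))⟩
  have eA : ∀ x : X, A.map (rv sX x) = (frm (x.w 0) (x.w 1) (x.w 2))⁻¹ := fun x =>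
    (inv_eq_right_inv (map_frm (rv sX x) hA)).symm
  have un : ∀ c : ℝ, c ≠ 0 → IsUnit (algebraMap ℝ sX.O c) := fun c h => h.isUnit.map _
  have h0 : ∀ k, qc sX (w k ⬝ᵥ q *ᵥ w k) = 0 := fun k => by
    refine small sX fun x => ?_
    rw [map_qf]
    exact x.h0 k
  have hD : ∀ (k : Fin 4) i j l, qc sX (gV (A *ᵥ w k.succ.succ.succ) (gV (A *ᵥ w k.succ.succ.succ)
      (gV (A *ᵥ w k.succ.succ.succ) C)) i j l) = 0 := fun k i j l => by
    refine small sX fun x => ?_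
    rw [map_D, eA]
    exact x.hD k i j l
  obtain ⟨l, k, h⟩ := lift (O := sX.O) (Q := sX.Q) (qc sX) (qc_surj sX) (w := w) (q := q) (C := C)
    (map_ofNat (algebraMap ℝ sX.O) 2 ▸ un 2 two_ne_zero)
    (map_ofNat (algebraMap ℝ sX.O) 3 ▸ un 3 three_ne_zero) hA hd
    (fun i j => Subtype.ext (funext fun x => (x.hq i j).2))
    (isUnit_of (m := 2) le_rfl _ fun x => by
      obtain ⟨i, j, e⟩ := x.hu
      have h1 : x.q i j ^ 2 ≤ ∑ i, ∑ j, x.q i j ^ 2 :=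
        (Finset.single_le_sum (fun j _ => sq_nonneg (x.q i j)) (Finset.mem_univ j)).trans
          (Finset.single_le_sum (f := fun i => ∑ j, x.q i j ^ 2)
            (fun i _ => by positivity) (Finset.mem_univ i))
      rw [ev_eq, one_mul]
      simp only [map_sum, map_pow]
      refine (one_le_pow₀ e (n := 2)).trans ?_
      rw [mul_pow, sq_abs]
      exact mul_le_mul_of_nonneg_left (h1.trans (le_abs_self _)) (sq_nonneg _))
    h0 hD
  obtain ⟨K, m, hK, h3⟩ := (mk_zero sY).1 (h sY.O sY.Q pY (qc sY) qc_pY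
    fun i => ⟨fun y => y.1.2 i, bw_L fun y => y.2 i⟩)
  obtain ⟨t, ht⟩ : ∃ t : sX.O, ∀ x, rv sX x t = 2⁻¹ := ⟨algebraMap ℝ sX.O 2⁻¹, fun _ => rfl⟩
  obtain ⟨K', m', hK', h4⟩ := bnd fun j : Fin 3 × Fin 3 × Fin 5 =>
    ![C 0 0 0, (![C 1 0 0, C 0 1 0, C 0 0 1] ᵥ* A) j.1, (Aᵀ * qm t C * A) j.1 j.2.1,
      (l ᵥ* A) j.1, k] j.2.2
  refine ⟨K + K', m + m', 4, by linarith, fun L ε w' q' C' a1 a2 _ a3 a4 a5 a6 a7 a8 a9 => ?_⟩
  let x : X := ⟨L, ε, w', q', C', a1, a2, a3, a4, a5, a6, a7, a8, a9⟩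
  have eC : (fun i j l => rv sX x (C i j l)) = C' := rfl
  have b1 : K * L ^ m ≤ (K + K') * L ^ (m + m') := le_up (s := sX) x hK
    (le_add_of_nonneg_right (zero_le_one.trans hK')) (m.le_add_right m')
  have b3 : K' * L ^ m' ≤ (K + K') * L ^ (m + m') := le_up (s := sX) x hK'
    (le_add_of_nonneg_left (zero_le_one.trans hK)) (m'.le_add_left m)
  have b2 := fun i j n => (h4 (i, j, n) x).trans b3
  refine ⟨(C' 0 0 0, ![C' 1 0 0, C' 0 1 0, C' 0 0 1] ᵥ* A.map (rv sX x),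
    (A.map (rv sX x))ᵀ * qm 2⁻¹ C' * A.map (rv sX x),
    (fun i => rv sX x (l i)) ᵥ* A.map (rv sX x), rv sX x k),
    ⟨b2 0 0 0, fun i => ?_, fun i j => ⟨?_, ?_⟩, fun i => ?_, b2 0 0 4⟩, fun z hz => ?_⟩
  · have := b2 i 0 1
    have e : (fun i => rv sX x (![C 1 0 0, C 0 1 0, C 0 0 1] i)) =
        ![C' 1 0 0, C' 0 1 0, C' 0 0 1] := by
      ext j
      fin_cases j <;> rfl
    simp only [cons_val, map_vm, e] at this
    exact this
  · have := b2 i j 2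
    simp only [cons_val, map_qm _ (ht x), eC] at this
    exact this
  · have : (qm 2⁻¹ C')ᵀ = qm 2⁻¹ C' := by
      ext i j
      fin_cases i <;> fin_cases j <;> rfl
    refine congrFun₂ (?_ : _ = ((A.map (rv sX x))ᵀ * qm 2⁻¹ C' * A.map (rv sX x))ᵀ) i j
    rw [transpose_mul, transpose_mul, this, transpose_transpose, Matrix.mul_assoc]
  · have := b2 i 0 3
    simp only [cons_val, map_vm] at this
    exact this
  · let y : Y := ⟨(x, z), hz⟩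
    have := h3 y
    rw [ev_eq, map_hi, map_mv, map_qf] at this
    rw [← show A.map (rv sX x) = (frm (w' 0) (w' 1) (w' 2))⁻¹ from eA x, pq_eq]
    exact this.trans (mul_le_mul_of_nonneg_right b1 a2)

end Pool.Agent.MP_5168f5_an.R4.Web
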