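import Pool.Agent.MP_5168f5_an.R4.AAll
import Pool.Agent.MP_5168f5_an.R4.WAlgC
import Pool.Agent.MP_5168f5_an.R4.DKCh0
import Pool.Agent.MP_5168f5_an.R4.DKCh1
import Pool.Agent.MP_5168f5_an.R4.DKCh2
import Pool.Agent.MP_5168f5_an.R4.DKFin
import Pool.Agent.MP_5168f5_an.R4.DKRnd
import Pool.Agent.MP_5168f5_an.R4.DLabI
import Pool.Agent.MP_5168f5_an.R4.DChNG
import Pool.Agent.MP_5168f5_an.R4.DChSV
import Pool.Agent.MP_5168f5_an.R4.DChAS
import Pool.Agent.MP_5168f5_an.R4.DChE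
import Pool.Agent.MP_5168f5_an.R4.DUA
import Pool.Agent.MP_5168f5_an.R4.DUB
import Pool.Agent.MP_5168f5_an.R4.DCAF
import Pool.Agent.MP_5168f5_an.R4.DCAC

/-! Case A. -/

namespace Pool.Agent.MP_5168f5_an.R4.Tan

open Web

theorem kch1 : KCh1 := rowKCh1 rowKCh0
theorem kch2 : KCh2 := rowKCh2 rowKCh0
theorem kfin : KFin := rowKFin rowKCh0
theorem chAS : ChAS :=
  rowChAS rowKCh0 kch1 kch2 (rowChNG rowKCh0 kch1 kch2 ngx) (rowChSV kch2)
theorem coreA : CoreA := coreA_of rowAlgC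
theorem ua : UA := rowUA kch1 rowKRnd rowLabI rowChE chAS coreA
theorem ub : UB := rowUB kfin ua
theorem caf : CAF := rowCAF ub
theorem cac : CAC := rowCAC ub

end Pool.Agent.MP_5168f5_an.R4.Tan
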