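import Pool.Agent.MP_5168f5_an.R4.SpecTB

/-! The assembly of the tangent classes, and the four modes. -/

namespace Pool.Agent.MP_5168f5_an.R4.T8

open H19 H17S H17F Filter Matrix Tan

/-- All the conversion rows. -/
structure KitB : Prop where
  fCl : FCl
  fSys : FSys
  fInv : FInv
  fLab : FLab
  fCell : FCell
  optU : OptU'
  optP : OptP
  optI : OptI
  optA : OptA
  optF : OptF
  optQ : OptQ
  fbU : FbU
  fbF : FbF
  fbI : FbI
  zd : ZD
  ngD : NGD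
  ngF : NGF
  ngC : NGC
  ngI : NGI
  cuC : CuC
  parZ : ParZ
  frCan : FrCan
  canCl : CanCl
  twA : TwA
  shC : ShC
  kid : Kid
  fin1 : Fin1

/-- A class of frames is a tangent class. -/
def TWR : Prop := ∀ {Ω : ℕ → Type} (x : Sx Ω) (j r : ℕ → ℕ) (d : ∀ n, Fd (Ω n))
  (K : Mb Ω → Prop), Cl K → (∃ X, K X) → (∀ X, K X → x.Frm j r d X) →
  TW K (x.fg j d) r x.m (x.fd j d) (fun n => x.M n - j n) x.p.η x.γ

/-- The tower is closed. -/
def CzR : Prop := ∀ {Ω : ℕ → Type} (x : Sx Ω) (Nm : (ℕ → ℕ) → (ℕ → ℕ) → Prop) (pr : Bool),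
  x.OK → x.NmOK Nm → (pr = true → x.w ≤ x.γ) → (pr = false → x.γ ≤ x.w) →
  Zoom.Cz (x.tw pr) (x.BB Nm) x.m x.p.η x.γ ∅ (jP pr) ![1, x.γ, x.w] ∧
  SK (x.tw pr) (x.BB Nm) x.γ x.w (jP pr) ∧ ∀ σ r X, x.BB Nm σ r X →
    Cell X.P (X.G (Zoom.gs (x.tw pr) σ)) r {0, 1} 2
      (fun n => (mD X (Zoom.ds (x.tw pr) σ) n).H) x.w ∧
    (pr = true → Cell X.P (X.G (Zoom.gs (x.tw pr) σ)) r {0} 2
      (fun n => (mD X (Zoom.ds (x.tw pr) σ) n).H) x.w) ∧
    Cnv X.P r (mD X (Zoom.ds (x.tw pr) σ)) x.γ x.w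

/-- No tangent member under the condition `c`. -/
def NoM (c : ∀ {Ω : ℕ → Type}, Sx Ω → Prop) : Prop := ∀ {Ω : ℕ → Type} (x : Sx Ω) (j r : ℕ → ℕ)
  (X : Mb Ω), x.OK → x.Tg j r X → c x → False

def MA : Prop := NoM fun x => x.vH = x.vQ ∧ x.γ = 1
def M2 : Prop := NoM fun x => x.vU < x.vH ∧ x.vH = x.vQ ∧ 1 < x.γ
def MI : Prop := NoM fun x => x.vU = x.vQ ∧ 1 < x.γ
def MC : Prop := NoM fun x => x.vH < x.vQ

def OfTWR : Prop := KitB → TWR
def OfCzR : Prop := KitB → TWR → CzR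
def OfMA : Prop := KitB → TWR → CzR → CAF → MA
def OfM2 : Prop := KitB → TWR → CzR → End2 → M2
def OfMI : Prop := KitB → TWR → CzR → EndI → MI
def OfMC : Prop := KitB → TWR → CzR → CAC → MC

theorem noTan2_of (e : Enl) (a : MA) (b : M2) (c : MI) (d : MC) : NoTan2 := by
  intro Ω g F M m p j r X hh h
  have key : ∀ k : Bool, p.v (iU k) ≤ p.v (iU (!k)) → False := fun k hk => by
    let x : Sx Ω := ⟨g, fun n => enl (F n) (M n), M, m, p, k⟩
    have ok : x.OK := ⟨fun n => dg_enl _ _, hk, hh k hk⟩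
    have t : x.Tg j r X := e g F M m p j r X h
    have u : x.vU ≤ x.vH := (h.1.uh k).trans ok.oh
    rcases (h.1.hq (!k)).eq_or_lt with q | q
    · rcases (h.1.one (iU k)).eq_or_lt with o | o
      · exact a x j r X ok t ⟨q, o.symm⟩
      · rcases u.eq_or_lt with s | s
        · exact c x j r X ok t ⟨s.trans q, o⟩
        · exact b x j r X ok t ⟨s, q, o⟩
    · exact d x j r X ok t q
  rcases le_total (p.v (iU false)) (p.v (iU true)) with s | s
  · exact key false s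
  · exact key true s

end Pool.Agent.MP_5168f5_an.R4.T8
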