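import Pool.Agent.MP_5168f5_an.R4.SpecO
import Pool.Agent.MP_5168f5_an.R4.XKB
import Pool.Agent.MP_5168f5_an.R4.XKC1
import Pool.Agent.MP_5168f5_an.R4.XKC2
import Pool.Agent.MP_5168f5_an.R4.XBsAff

/-! Kakeya sets in four dimensions: systems with two units. -/

namespace Pool.Agent.MP_5168f5_an.R4

open H19 H17S H17F Filter

namespace KOA

variable {M m R j : ℕ → ℕ} {C : ℝ}

theorem key (h : ∀ᶠ n in UF, (m n : ℝ) ≤ C * R n) {ε : ℝ} (hε : 0 < ε) :
    ∃ δ : ℝ, 0 < δ ∧ ∀ᶠ n in UF, δ * m n ≤ ε * R n :=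
  ⟨ε / (|C| + 1), by positivity, h.mono fun n a => by
    rw [div_mul_eq_mul_div, div_le_iff₀ (by positivity), mul_assoc]
    refine mul_le_mul_of_nonneg_left (a.trans ?_) hε.le
    nlinarith [le_abs_self C, Nat.cast_nonneg (α := ℝ) (R n)]⟩

theorem le {f g : ℕ → ℝ} (h : ∀ᶠ n in UF, (m n : ℝ) ≤ C * R n) (k : Le m f g) : Le R f g :=
  fun ε hε => by
  obtain ⟨δ, a, b⟩ := key h hε
  filter_upwards [k δ a, b] with n c d using c.trans (add_le_add le_rfl d)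

theorem sub {L : ℕ → ℝ} (h : ∀ᶠ n in UF, (m n : ℝ) ≤ C * R n) (k : Sub m L) : Sub R L :=
  ⟨k.1, fun ε hε => by
    obtain ⟨δ, a, b⟩ := key h hε
    filter_upwards [k.2 δ a, b] with n c d using c.trans (Real.exp_le_exp.2 d)⟩

theorem big (h : ∀ᶠ n in UF, (m n : ℝ) ≤ C * R n) (k : Big m) : Big R := tendsto_atTop.2 fun b => by
  filter_upwards [le h (k.sm b) 1 one_pos] with n a
  rw [zero_add, one_mul] at a
  exact_mod_cast a

variable {N : ℕ} {Ω Λ : ℕ → Type} {P : ∀ n, FP (Ω n)} {g : Gs N Ω} {lam : ∀ n, Ω n → Λ n}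

theorem inf (h : Bs2 P g M m) (hl : Hk P g R j lam) (e : ∀ᶠ n in UF, (m n : ℝ) ≤ C * R n) :
    Sm R fun n => mi (P n) (g n).z (fun ω => ((g n).ln ω, lam n ω)) fun ω =>
      (fl1 (j n) ((g n).z ω), (g n).θ ω) :=
  (Sm.add (le e h.inf) hl).mono (Eventually.of_forall fun n => KBA.inf_le (g n) (j n) (lam n))

theorem hgt {a b : ℕ → ℕ} (h : Bs2 P g M m) (hl : Hk P g R j lam)
    (e : ∀ᶠ n in UF, (m n : ℝ) ≤ C * R n ∧ j n ≤ a n ∧ a n ≤ b n ∧ b n ≤ M n) :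
    Le R (fun n => (b n - a n : ℝ) * lg) fun n => ch (P n) (fun ω => fl1 (b n) ((g n).z ω))
      fun ω => (fl1 (a n) ((g n).z ω), (g n).ln ω, lam n ω) := by
  obtain ⟨L, -, hL⟩ := h.bx
  have e1 := e.mono fun _ a => a.1
  refine Le.of2 (le e1 h.hgt) (inf h hl e1) ((hL.and e).mono fun n hn => ?_)
  have := KBA.hgt_le hn.1 (lam n) hn.2.2.1 hn.2.2.2.2
  linarith

theorem cl (g : Gs N Ω) (M m : ℕ → ℕ) : Cl fun X : Mb Ω => Bs2 X.P (X.G g) M m := by
  by_cases hM : Big m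
  swap
  · exact (cl_const False).congr fun X => ⟨fun a => hM a.big, False.elim⟩
  have h0 := KC2A.cl_bx g m
  have h1 : Cl fun X : Mb Ω => (∃ L, Sub m L ∧ ∀ᶠ n in UF, (X.G g n).Bx (X n).Q (L n)) ∧
      Le m (fun n => M n * lg) fun n => ch (X n).Q (fun v => fl1 (M n) ((g n).z ((X n).ρ v)))
        fun v => (g n).θ ((X n).ρ v) := by
    refine ⟨⟨fun X X' a b => ⟨h0.law X X' a.1 b, a.2.trans (Le.of_ev (b.mono fun n w =>
      (w.ch_eq (fun ω => fl1 (M n) ((g n).z ω)) (g n).θ).ge))⟩,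
      fun X A a b => ⟨h0.cond X A a.1 b, ?_⟩⟩,
      h0.cf.and (cf_le (fun n _ => m n) (fun n _ => M n * lg) fun n (x : Ext (Ω n)) =>
        ch x.Q (fun v => fl1 (M n) ((g n).z (x.ρ v))) fun v => (g n).θ (x.ρ v))⟩
    obtain ⟨⟨L, -, a1⟩, a2⟩ := a
    have := (K31.dnS_cE b).full hM (F := fun n v => fl1 (M n) ((g n).z ((X n).ρ v)))
      (G := fun n v => (g n).θ ((X n).ρ v)) (N := fun n => Real.exp (lg * M n))
      (a1.mono fun n u => KC2A.det_z (fun v hv => (u.bd v hv).2) _ _)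
      (by simpa only [Real.log_exp, mul_comm lg] using a2)
    simp only [Real.log_exp, mul_comm lg] at this
    exact this
  exact (h1.and (KC1A.smi m (fun n => (g n).z) (fun n => (g n).ln) (fun n => (g n).θ) hM)).congr
    fun X => ⟨fun a => ⟨⟨a.bx, a.hgt⟩, a.inf⟩, fun a => ⟨hM, a.1.1, a.2, a.1.2⟩⟩

end KOA

open KOA in
theorem rowKO : KO := by
  refine ⟨fun P g M m R C h e => ?_, cl, fun _ _ _ _ _ _ _ _ _ _ h hl e => hgt h hl e,
    fun P g g' M m D R j C L h hk hL e => ?_⟩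
  · obtain ⟨L, h1, h2⟩ := h.bx
    have e1 := e.mono fun _ a => a.1
    refine ⟨big e1 h.big, ⟨L, sub e1 h1, h2⟩, le e1 h.inf, (le e1 h.hgt).of_sub (e.mono fun n a => ?_)⟩
    have := KBA.coarse_le (P := P n) (g n).z (g n).θ a.2
    linarith
  have e1 := e.mono fun _ a => a.1
  refine ⟨big e1 h.big, ⟨L, hL, e.mono fun _ a => a.2.2.1⟩,
    (inf h hk e1).mono (e.mono fun n ⟨_, _, _, a, b, c⟩ => ?_),
    (hgt (a := j) (b := fun n => j n + D n) h hk (e.mono fun n a =>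
      ⟨a.1, le_rfl, Nat.le_add_right _ _, a.2.1⟩)).of_sub (e.mono fun n ⟨_, _, _, a, _⟩ => ?_)⟩
  · refine (mi_mono' (F' := (g n).z) fun u hu v hv k => ?_).trans
      (mi_right (fun u hu v hv k => ?_) ((Fn.snd _ _).left _) (c.left _))
    · rw [a u hu, a v hv, (Prod.mk.inj k).1]
    · exact congrArg Prod.swap (b u hu v hv k)
  · have : ch (P n) (fun ω => fl1 (j n + D n) ((g n).z ω))
        (fun ω => (fl1 (j n) ((g n).z ω), (g n).ln ω, (g' n).θ ω)) ≤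
        ch (P n) (fun ω => fl1 (D n) ((g' n).z ω)) (g' n).θ := by
      refine ch_le (fun u hu v hv k => ?_) fun _ _ _ _ k => congrArg (·.2.2) k
      simp only [Prod.mk.injEq, a u hu, a v hv, BsAffA.fl1_fract] at k
      have h1 := k.1
      rw [k.2.1] at h1
      exact sub_left_inj.1 h1
    push_cast
    linarith

end Pool.Agent.MP_5168f5_an.R4
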