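import Pool.Agent.MP_5168f5_an.R4.SpecO

/-! Tangent members: the numbers and the old labels along the sequence. -/

namespace Pool.Agent.MP_5168f5_an.R4

open H19 H17S H17F Filter

namespace OA1A

/-- A quantity of size `O(r)` is below `r / ε` with room. -/
theorem oh_ev {r a : ℕ → ℕ} (h : Oh r a) {ε : ℝ} (hε : 0 < ε) : ∃ δ : ℝ, 0 < δ ∧ δ ≤ ε ∧ δ ≤ 1 ∧
    ∀ᶠ n in UF, (a n : ℝ) + δ * r n ≤ r n / δ := by
  obtain ⟨C, h⟩ := h
  have c0 : (0 : ℝ) < C + 1 := by positivity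
  have d0 : 0 < min ε (1 / (C + 1 : ℝ)) := lt_min hε (by positivity)
  have d1 : min ε (1 / (C + 1 : ℝ)) * (C + 1) ≤ 1 := (le_div_iff₀ c0).1 (min_le_right _ _)
  have d2 : min ε (1 / (C + 1 : ℝ)) ≤ 1 := by
    have : (0 : ℝ) ≤ C := Nat.cast_nonneg _
    nlinarith
  refine ⟨_, d0, min_le_left _ _, d2, h.mono fun n b => ?_⟩
  generalize min ε (1 / (C + 1 : ℝ)) = δ at *
  have b' : (a n : ℝ) ≤ C * r n := by exact_mod_cast b
  have r0 : (0 : ℝ) ≤ r n := Nat.cast_nonneg _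
  rw [le_div_iff₀ d0]
  have e1 : δ * r n ≤ r n := by nlinarith
  have e2 : (a n + δ * r n) * δ ≤ (C + 1) * r n * δ :=
    mul_le_mul_of_nonneg_right (by linarith) d0.le
  nlinarith

theorem oh_le {r a b : ℕ → ℕ} (h : Oh r a) (e : ∀ n, b n ≤ a n) : Oh r b :=
  h.imp fun _ c => c.mono fun n d => (e n).trans d

theorem oh_rfl (r : ℕ → ℕ) : Oh r r := ⟨1, Eventually.of_forall fun n => by simp⟩

theorem oh_zero (r : ℕ → ℕ) : Oh r fun _ => 0 := oh_le (oh_rfl r) fun _ => Nat.zero_le _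

theorem rf_rfl {Ω : Type} (E : Ext Ω) {ε : ℝ} (h0 : 0 < ε) (h1 : ε ≤ 1) : Rf ε⁻¹ E E :=
  fun F hF => le_mul_of_one_le_left (E.Q.E_nonneg fun _ _ => hF _) ((one_le_inv₀ h0).2 h1)

theorem le_iQ {p : Par} (h : p.OK) : ∀ i, p.v i ≤ p.v iQ
  | none => le_rfl
  | some (false, k) => (h.uh k).trans (h.hq k)
  | some (true, k) => h.hq k

variable {Ω : ℕ → Type} {g : Gs 3 Ω} {F : ∀ n, Fam (g n).sh5} {M m : ℕ → ℕ} {p : Par}
  {j r : ℕ → ℕ} {X : Mb Ω}

theorem num (h : Tan0 g F M m p j r X) {ε : ℝ} (hε : 0 < ε) :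
    ∀ᶠ n in UF, Num0 (g n) (F n) (M n) (m n) p (j n) (r n) ε := (h.2 ε hε).mono fun _ a => a.num

theorem old (h : Tan0 g F M m p j r X) {ε : ℝ} (hε : 0 < ε) :
    ∀ᶠ n in UF, Old0 (g n) (F n) (M n) (m n) (X n) ε := (h.2 ε hε).mono fun _ a => a.old

theorem bigm (h : Tan0 g F M m p j r X) : Big m := by
  refine tendsto_atTop.2 fun k => (num h (ε := 1 / (k + 1 : ℝ)) (by positivity)).mono fun n a => ?_
  have b := a.unit.2.2
  rw [div_mul_eq_mul_div, one_mul, le_div_iff₀ (by positivity)] at b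
  have : (k : ℝ) ≤ m n := by linarith
  exact_mod_cast this

theorem big (h : Tan0 g F M m p j r X) :
    Big m ∧ Big r ∧ Sm r (fun n => m n) ∧ Sm m fun n => Real.log (M n) := by
  refine ⟨bigm h, tendsto_atTop_mono' _ ((num h one_pos).mono fun n a => ?_) (bigm h),
    fun ε hε => (num h hε).mono fun n a => ?_, fun ε hε => (num h hε).mono fun n a => ?_⟩
  · have b := a.unit.1
    rw [one_mul] at b
    exact_mod_cast b
  · simpa using a.unit.1
  · simpa using a.unit.2.1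

theorem room (h : Tan0 g F M m p j r X) (a : ℕ → ℕ) (ha : Oh r a) :
    ∀ᶠ n in UF, a n ≤ j n ∧ j n + a n ≤ M n ∧ ∀ i, (F n).τ i (j n) + a n ≤ M n := by
  obtain ⟨δ, d0, -, -, e⟩ := oh_ev ha one_pos
  filter_upwards [e, num h d0] with n b c
  have r0 : 0 ≤ δ * r n := by positivity
  have r1 : (r n : ℝ) / δ ≤ j n := by rw [div_le_iff₀ d0, mul_comm]; exact c.room.1
  have t0 : (0 : ℝ) ≤ r n / δ := by positivity
  refine ⟨?_, ?_, fun i => ?_⟩
  · have : (a n : ℝ) ≤ j n := by linarith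
    exact_mod_cast this
  · have : (j n : ℝ) + a n ≤ M n := by linarith [c.room.2.1]
    exact_mod_cast this
  · have : ((F n).τ i (j n) : ℝ) + a n ≤ M n := by
      rcases (le_iQ h.1 i).lt_or_eq with u | u
      · linarith [c.far i iQ u, c.room.2.2]
      · linarith [c.tie i iQ u, c.room.2.2]
    exact_mod_cast this

theorem lin (h : Tan0 g F M m p j r X) (i : I5) (a : ℕ → ℕ) (ha : Oh r a) :
    Eqv r (fun n => (F n).τ i (j n + a n)) fun n => (F n).τ i (j n) + p.sl i * a n := by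
  constructor <;> intro ε hε <;> obtain ⟨δ, d0, d1, -, e⟩ := oh_ev ha hε <;>
    filter_upwards [e, num h d0] with n b c <;>
    have r0 : 0 ≤ δ * r n := (by positivity) <;>
    have r1 : δ * r n ≤ ε * r n := mul_le_mul_of_nonneg_right d1 (Nat.cast_nonneg _) <;>
    have u := abs_le.1 (c.lin i (a n) (by linarith)) <;> linarith [u.1, u.2]

theorem far (h : Tan0 g F M m p j r X) (i i' : I5) (a : ℕ → ℕ) (hi : p.v i < p.v i')
    (ha : Oh r a) : ∀ᶠ n in UF, (F n).τ i (j n) + a n ≤ (F n).τ i' (j n) := by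
  obtain ⟨δ, d0, -, -, e⟩ := oh_ev ha one_pos
  filter_upwards [e, num h d0] with n b c
  have r0 : 0 ≤ δ * r n := by positivity
  have : ((F n).τ i (j n) : ℝ) + a n ≤ (F n).τ i' (j n) := by linarith [c.far i i' hi]
  exact_mod_cast this

theorem tie (h : Tan0 g F M m p j r X) (i i' : I5) (hi : p.v i = p.v i') :
    Eqv r (fun n => (F n).τ i (j n)) fun n => (F n).τ i' (j n) :=
  ⟨fun _ hε => (num h hε).mono fun _ c => c.tie i i' hi,
    fun _ hε => (num h hε).mono fun _ c => c.tie i' i hi.symm⟩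

theorem low (h : Tan0 g F M m p j r X) (i : I5) :
    Le r (fun n => j n) fun n => (F n).τ i (j n) := fun ε hε => (num h hε).mono fun n c => by
  rcases (h.1.cv i).lt_or_eq with u | u
  · have r0 : 0 ≤ ε * r n := by positivity
    have t0 : (0 : ℝ) ≤ r n / ε := by positivity
    linarith [c.far0 i u]
  · linarith [(abs_le.1 (c.tie0 i u.symm)).1]

theorem one_le (ε : ℝ) (hε : 0 < ε) (k : ℕ) : 1 ≤ Real.exp (ε * k) :=
  Real.one_le_exp (by positivity)

theorem bs (h : Tan0 g F M m p j r X) : Bs2 X.P (X.G (g.fin M)) M m where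
  big := bigm h
  bx := sub_iff.2 fun ε hε => (old h hε).mono fun n a => ⟨_, one_le ε hε _, le_rfl, a.bx⟩
  inf := fun ε hε => (old h hε).mono fun n a => a.inf.trans (zero_add _).ge
  hgt := fun ε hε => (old h hε).mono fun n a => a.hgt

theorem fam (h : Tan0 g F M m p j r X) :
    FamOK X.P (X.G (g.fin M)) m (fun n => (F n).pull (X n).ρ) fun n _ => M n where
  alg := sub_iff.2 fun ε hε => (old h hε).mono fun n a => ⟨_, one_le ε hε _, le_rfl, a.alg⟩
  lab := fun k =>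
    ⟨fun ε hε => (old h hε).mono fun n a => (a.lab (k n)).1.trans (zero_add _).ge,
      fun ε hε => (old h hε).mono fun n a => (a.lab (k n)).2.trans (zero_add _).ge⟩

theorem fat (h : Tan0 g F M m p j r X) (i : Fin 3) : Fat X.P (X.G (g.fin M)) m i M :=
  ⟨fun _ => 1, (bigm h).sub le_rfl, Eventually.of_forall fun n a _ b _ e => by
    rw [one_div]
    exact (abs_sub_lt_of_fl1_eq (congrFun (congrArg Prod.fst e) i)).le⟩

theorem bra (h : Tan0 g F M m p j r X) (R α β : ℕ → ℕ) (h1 : Oh R m) (h2 : Oh R β)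
    (h3 : Oh r β) (h4 : ∀ᶠ n in UF, α n ≤ β n) :
    Le R (fun n => p.η * (β n - α n) * lg) fun n =>
      ch (X n).Q (fun v => fl1 (β n) ((X.G g n).e v 0)) fun v =>
        (fl (α n) ((X.G g n).e v), (X.G (g.fin M) n).y v) := by
  intro ε hε
  obtain ⟨C, h1⟩ := h1
  obtain ⟨C', h2⟩ := h2
  have c0 : (0 : ℝ) < C + C' + 1 := by positivity
  obtain ⟨δ, d0, d1, d2, e⟩ := oh_ev h3 (div_pos hε c0)
  rw [le_div_iff₀ c0] at d1
  filter_upwards [e, h.2 δ d0, h1, h2, h4] with n b c u1 u2 u4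
  have r0 : 0 ≤ δ * r n := by positivity
  have w := (c.ref (X n) (rf_rfl _ d0 d2)).1.br (α n) (β n) u4 (by linarith)
  have v1 : (m n : ℝ) ≤ C * R n := by exact_mod_cast u1
  have v2 : (β n : ℝ) ≤ C' * R n := by exact_mod_cast u2
  have R0 : (0 : ℝ) ≤ R n := Nat.cast_nonneg _
  have v3 : δ * (m n + β n) ≤ δ * ((C + C' + 1) * R n) :=
    mul_le_mul_of_nonneg_left (by linarith) d0.le
  have v4 : δ * (C + C' + 1) * R n ≤ ε * R n := mul_le_mul_of_nonneg_right d1 R0
  exact w.trans (add_le_add le_rfl (by linarith))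

theorem cls (ko : KO) (hc : OCl g F M m p) (hp : p.OK) (R : ℕ → ℕ) (h1 : Oh R m) (h2 : Oh r R) :
    Cls0 (Tan0 g F M m p j r) (g.fin M) R 0 p.η where
  cl0 := (hc.cl j r).toCl0
  pos := hp.η
  bs := fun Y hY => by
    obtain ⟨C, h1⟩ := h1
    refine ko.bs _ _ M m R C (bs hY) ?_
    filter_upwards [h1, room hY R h2] with n a b
    exact ⟨by exact_mod_cast a, le_trans (Nat.le_add_left _ _) b.2.1⟩
  br := fun Y hY α hα =>
    (bra hY R (fun _ => 0) α h1 (oh_le (oh_rfl R) hα) (oh_le h2 hα)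
      (Eventually.of_forall fun _ => Nat.zero_le _)).of_sub (Eventually.of_forall fun n => by
        have := ch_anti (P := (Y n).Q) (F := fun v => fl1 (α n) ((Y.G g n).e v 0))
          (Fn.snd (fun v => fl 0 ((Y.G g n).e v)) (Y.G (g.fin M) n).y)
        simp only [Nat.cast_zero, sub_zero]
        linarith)

end OA1A

open OA1A in
theorem rowOA1 : OfOA1 := fun ko ocl _ g F M m p _ _ _ h =>
  ⟨big h, room h, lin h, far h, tie h, low h, bs h, fam h, fat h,
    cls ko (ocl g F M m p) h.1, bra h⟩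

end Pool.Agent.MP_5168f5_an.R4
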