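import Pool.Agent.MP_5168f5_an.R4.SpecO

/-! Optimality, fill and the rate along the sequence. -/

namespace Pool.Agent.MP_5168f5_an.R4

open H19 H17S H17F Filter

namespace OA2A

theorem small {r : ℕ → ℕ} {f g : ℕ → ℝ} {K e : ℝ} (hK : 0 < K) (he : 0 < e)
    (h : ∀ ε : ℝ, 0 < ε → ε ≤ e → ∀ᶠ n in UF, f n ≤ g n + K * (ε * r n)) : Le r f g := fun ε hε => by
  filter_upwards [h (min e (ε / K)) (lt_min he (by positivity)) (min_le_left _ _)] with n a
  have h1 : K * min e (ε / K) ≤ ε := (le_div_iff₀' hK).1 (min_le_right _ _)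
  have h2 := mul_le_mul_of_nonneg_right h1 (Nat.cast_nonneg (α := ℝ) (r n))
  linarith

theorem oh_ceil {r a : ℕ → ℕ} (h : Oh r a) {ε : ℝ} (h1 : ε ≤ 1) :
    Oh r fun n => a n + ⌈ε * r n⌉₊ := by
  obtain ⟨C, h⟩ := h
  refine ⟨C + 1, h.mono fun n k => ?_⟩
  have : ⌈ε * r n⌉₊ ≤ r n := Nat.ceil_le.2 (mul_le_of_le_one_left (Nat.cast_nonneg _) h1)
  rw [add_mul, one_mul]
  exact add_le_add k this

theorem sh_mono {Ω : Type} (g : Geo 3 Ω) (i : I5) : (g.sh5 i).OK g := by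
  cases i with
  | none => exact qd_ok g
  | some v => exact kp.ok _ _ _

variable {Ω : ℕ → Type} {g : Gs 3 Ω} {F : ∀ n, Fam (g n).sh5} {M m j r : ℕ → ℕ} {p : Par}
  {X : Mb Ω}

theorem self (h : Tan0 g F M m p j r X) {ε : ℝ} (h0 : 0 < ε) (h1 : ε ≤ 1) : ∀ᶠ n in UF,
    Ref1 (g n) (F n) (M n) (m n) p (X n) (j n) (r n) ε ∧
      Ref2 (g n) (F n) (M n) (m n) (X n) (r n) ε :=
  (h.2 ε h0).mono fun _ k => k.ref _ fun _ hG =>
    le_mul_of_one_le_left (FP.E_nonneg _ fun _ _ => hG _) ((one_le_inv₀ h0).2 h1)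

theorem slab {Λ : ℕ → Type} {lam : ∀ n, (X n).W → Λ n} {a : ℕ → ℕ}
    (h : Lab X.P (X.G (g.fin M)) m a lam) :
    ∀ᶠ n in UF, sLab (g n) (M n) (X n) (m n) (a n) (lam n) := by
  filter_upwards [h.h 1 one_pos, h.l 1 one_pos] with n u v
  rw [zero_add, one_mul] at u v
  exact ⟨u, v⟩

theorem sub_exp {L : ℕ → ℝ} (h : Sub m L) : ∀ᶠ n in UF, L n ≤ Real.exp (m n) :=
  (h.2 1 one_pos).mono fun n u => by rwa [one_mul] at u

theorem next (h : Tan0 g F M m p j r X) (k : OA1 g F M m p j r X) (i : I5) {a : ℕ → ℕ}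
    (ha : Oh r a) {ε : ℝ} (h0 : 0 < ε) (h1 : ε ≤ 1) : ∀ᶠ n in UF, ∃ a' : ℕ,
      ((j n + a n : ℕ) : ℝ) + ε * r n ≤ a' ∧ a' ≤ M n ∧ ((F n).τ i a' : ℝ)
        ≤ (F n).τ i (j n) + p.sl i * a n + (2 * p.sl i + 1) * (ε * r n) := by
  filter_upwards [k.room _ (oh_ceil ha h1), (k.lin i _ (oh_ceil ha h1)).1 ε h0,
    k.big.2.1.ev (1 / ε)] with n u v w
  rw [div_le_iff₀' h0] at w
  have c1 := Nat.le_ceil (ε * r n)
  have c2 := Nat.ceil_lt_add_one (show 0 ≤ ε * r n by positivity)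
  refine ⟨_, ?_, u.2.1, v.trans ?_⟩
  · push_cast
    linarith
  · have := mul_le_mul_of_nonneg_left (show (⌈ε * r n⌉₊ : ℝ) ≤ 2 * (ε * r n) by linarith)
      (zero_le_one.trans (h.1.one i))
    push_cast
    linarith

end OA2A

open OA2A in
theorem rowOA2 : OfOA2 := by
  intro h1 Ω g F M m p j r X h
  have k := h1 g F M m p j r X h
  refine ⟨fun i a τ ha hτ hT => ?_, fun Λ lam a lo hi hl e => ?_,
    fun Λ lam G L b c a lo hi ha hl hL e hlo => ?_, fun a lo hi ha e => ?_⟩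
  · obtain ⟨Λ, lam, d, L, hl, hL, e⟩ := hT
    refine small (K := 2 * p.sl i + 2) (by linarith [h.1.one i]) one_pos fun ε e0 e1 => ?_
    filter_upwards [self h e0 e1, slab hl, sub_exp hL, next h k i ha e0 e1, hτ, e]
      with n u1 u2 u3 ⟨a', v1, v2, v3⟩ u5 u6
    have := u1.2.opt _ (lam n) i (d n) _ a' _ u2 u6.1
      (fun v hv => (sh_mono _ i).monoL _ _ _ _ _ _ u3 (u6.2 v hv)) v1 v2 u5
    linarith
  · refine small one_pos one_pos fun ε e0 e1 => ?_
    filter_upwards [self h e0 e1, slab hl, e] with n u1 u2 u3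
    rw [one_mul]
    exact u1.2.xa _ (lam n) _ _ _ u2 u3.1 u3.2.1 u3.2.2
  · have s1 := h.1.one (some (b, c))
    refine small (K := 2 * p.sl (some (b, c)) + 3) (by linarith) one_pos fun ε e0 e1 => ?_
    filter_upwards [self h e0 e1, slab hl, sub_exp hL, next h k (some (b, c)) ha e0 e1, e,
      hlo ε e0, k.low (some (b, c)) ε e0] with n u1 u2 u3 ⟨a', v1, v2, v3⟩ ⟨w1, w2, w3, w4⟩ u6 u7
    have r0 : 0 ≤ ε * r n := by positivity
    have r1 : ε * r n ≤ p.sl (some (b, c)) * (ε * r n) := le_mul_of_one_le_left r0 s1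
    have r2 : (a n : ℝ) ≤ p.sl (some (b, c)) * a n := le_mul_of_one_le_left (Nat.cast_nonneg _) s1
    obtain ⟨l, l1, l2, l3, l4⟩ : ∃ l : ℕ, lo n ≤ l ∧ (F n).τ (some (b, c)) a' ≤ l ∧
        j n + a n ≤ l ∧ (l : ℝ) - lo n ≤ (2 * p.sl (some (b, c)) + 2) * (ε * r n) := by
      refine ⟨max (lo n) (max ((F n).τ (some (b, c)) a') (j n + a n)), by omega, by omega,
        by omega, sub_le_iff_le_add.2 ?_⟩
      push_cast
      exact max_le (by linarith) (max_le (by linarith) (by linarith))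
    have l5 : ((l : ℝ) - lo n) * lg ≤ (2 * p.sl (some (b, c)) + 2) * (ε * r n) :=
      (mul_le_of_le_one_right (sub_nonneg.2 (Nat.cast_le.2 l1)) lg_lt_one.le).trans l4
    rcases le_total l (hi n) with q | q
    · have t1 := u1.2.fb _ (lam n) (G n) b c _ a' l (hi n) u2 w1
        (fun v hv => ⟨(w2 v hv).1.trans u3, (w2 v hv).2⟩) v1 v2 l2 l3 q w4
      have t2 := t1.trans (add_le_add (ch_anti (G := fun v =>
        (fl1 (lo n) ((X.G g n).sv c (G n) v), fl1 (M n) ((X.G g n).pt v 0), lam n v,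
          (X.G g n).zt v)) fun _ _ _ _ e => Prod.ext (fl1_eq_of_le l1 (congrArg Prod.fst e))
            (Prod.ext_iff.1 e).2) le_rfl)
      refine le_trans ?_ ((add_le_add t2 l5).trans (le_of_eq ?_))
      · linarith
      · rw [add_assoc]
        congr 1
        ring
    · have t1 : ((hi n : ℝ) - lo n) * lg ≤ ((l : ℝ) - lo n) * lg :=
        mul_le_mul_of_nonneg_right (sub_le_sub_right (Nat.cast_le.2 q) _) lg_pos.le
      exact le_add_of_nonneg_of_le (ch_nonneg _ _) (by linarith)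
  · obtain ⟨C, ha⟩ := ha
    have c0 : (0 : ℝ) ≤ C := Nat.cast_nonneg C
    refine small (e := 1 / (C + 1)) one_pos (by positivity) fun ε e0 e1 => ?_
    rw [le_div_iff₀ (by positivity)] at e1
    filter_upwards [self h e0 (by nlinarith), ha, e] with n u1 u2 ⟨w1, w2, w3⟩
    have t1 : (a n : ℝ) ≤ r n / ε := by
      have t : (a n : ℝ) ≤ C * r n := by exact_mod_cast u2
      rw [le_div_iff₀ e0]
      nlinarith [Nat.cast_nonneg (α := ℝ) (r n)]
    rw [one_mul]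
    exact u1.1.ng _ _ ((Nat.cast_le.2 w1).trans (by push_cast; linarith)) w2
      ((Nat.cast_le.2 w3).trans (by push_cast; linarith))

end Pool.Agent.MP_5168f5_an.R4
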