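import Pool.Agent.MP_5168f5_an.R4.SpecO

/-! Tangent classes: closure properties. -/

namespace Pool.Agent.MP_5168f5_an.R4

open H19 H17S H17F Filter

namespace OClA

section One

variable {Ω : Type} {C C' : ℝ} {Y Y' E : Ext Ω}

theorem rf_trans (h : Rf C' Y' Y) (h' : Rf C Y E) (c : 0 ≤ C') {D : ℝ} (e : C' * C ≤ D) :
    Rf D Y' E := fun F hF =>
  ((h F hF).trans (mul_le_mul_of_nonneg_left (h' F hF) c)).trans (by
    rw [← mul_assoc]; exact mul_le_mul_of_nonneg_right e (E.Q.E_nonneg fun _ _ => hF _))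

/-- What passes from `E` to `Y`. -/
structure Tr (C : ℝ) (Y E : Ext Ω) : Prop where
  sb : KC2A.Sb Y E
  mi : ∀ {α β γ : Type} (F : Ω → α) (G : Ω → β) (K : Ω → γ),
    mi Y.Q (fun v => F (Y.ρ v)) (fun v => G (Y.ρ v)) (fun v => K (Y.ρ v)) ≤
      C * (mi E.Q (fun v => F (E.ρ v)) (fun v => G (E.ρ v)) (fun v => K (E.ρ v)) + lg)
  df : ∀ {α β : Type} (F : Ω → α) (G : Ω → β) (B : ℝ),
    Det E.Q (fun v => F (E.ρ v)) (fun v => G (E.ρ v)) B →
    Real.log B - ch Y.Q (fun v => F (Y.ρ v)) (fun v => G (Y.ρ v)) ≤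
      C * (Real.log B - ch E.Q (fun v => F (E.ρ v)) (fun v => G (E.ρ v)) + lg)
  rf : Rf C Y E

theorem tr_law (h : Law Y.Q Y.ρ E.Q E.ρ) : Tr 1 Y E where
  sb := fun _ hv => h.ex hv
  mi := fun F G K => by
    unfold H17F.mi
    rw [h.ch_eq F K, h.ch_eq F fun ω => (G ω, K ω)]
    linarith [lg_pos]
  df := fun F G B _ => by
    rw [h.ch_eq F G]
    linarith [lg_pos]
  rf := fun F _ => by rw [one_mul]; exact (h F).le

theorem tr_cond (E : Ext Ω) (A : E.W → Prop) {κ : ℝ} (hκ : 0 < κ) (h : κ ≤ pb E.Q A) :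
    Tr κ⁻¹ ⟨E.W, cE E.Q A, E.ρ⟩ E where
  sb := fun v (hv : v ∈ (cE E.Q A).S) => ⟨v, cE_sub (P := E.Q) (E := A) hv, rfl⟩
  mi := fun F G K => (K31.dn_cE A hκ h).mi_le (fun v => F (E.ρ v)) (fun v => G (E.ρ v))
    fun v => K (E.ρ v)
  df := fun F G _ k => (K31.dn_cE A hκ h).def_le (F := fun v => F (E.ρ v))
    (G := fun v => G (E.ρ v)) k
  rf := fun F hF => K31.dn_cE A hκ h (fun v => F (E.ρ v)) fun _ => hF _

variable {g : Geo 3 Ω} {F : Fam g.sh5} {M m j r r' a : ℕ} {p : Par} {ε ε' : ℝ}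

theorem old (t : Tr C Y E) (h : Old0 g F M m E ε) (h' : Old0 g F M m E ε') (c : 0 ≤ C)
    (h1 : 1 ≤ ε * m) (h2 : 2 * C * ε ≤ ε') : Old0 g F M m Y ε' := by
  have k : ∀ {x y : ℝ}, x ≤ C * (y + lg) → y ≤ ε * m → x ≤ ε' * m := fun {x y} u w => by
    have u1 := mul_le_mul_of_nonneg_left (show y + lg ≤ 2 * (ε * m) by linarith [lg_lt_one]) c
    have u2 := mul_le_mul_of_nonneg_right h2 (Nat.cast_nonneg (α := ℝ) m)
    linarith
  refine ⟨⟨t.sb.all (q := fun ω => (∀ i, |g.a ω i| ≤ Real.exp (ε' * m) ∧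
      |g.e ω i| ≤ Real.exp (ε' * m)) ∧ 0 ≤ g.z ω ∧ g.z ω < 1) h'.bx.bd,
      t.sb.fn g.z (g.fp fun _ => M) h'.bx.fz, t.sb.fn g.θ (g.fp fun _ => M) h'.bx.fθ⟩,
    k (t.mi g.z g.ln g.θ) h.inf, ?_,
    ⟨fun j => t.sb.fn _ _ (h'.alg.nest j), fun i j => t.sb.fn _ _ (h'.alg.fd i j), fun i j =>
      t.sb.all (q := fun ω => (g.sh5 i).fit (Real.exp (ε' * m)) (F.d i j ω) ω j (F.τ i j))
        (h'.alg.fit i j), h'.alg.mono, h'.alg.le⟩, fun j =>
    ⟨k (t.mi (F.S j) (g.fat fun _ => M).core (g.win j)) (h.lab j).1,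
      k (t.mi (F.S j) (g.fat fun _ => M).core (g.fp fun _ => M)) (h.lab j).2⟩⟩
  have u := t.df (fun ω => fl1 M (g.z ω)) g.θ _ (KC2A.det_z (fun v hv => (h.bx.bd v hv).2) _ M)
  rw [Real.log_exp, mul_comm lg] at u
  exact sub_le_iff_le_add'.1 (k u (sub_le_iff_le_add'.2 h.hgt))

theorem num (hp : p.OK) (h : Num0 g F M m p j r ε) (e0 : 0 < ε) (e : ε ≤ ε')
    (h2 : 3 * (ε * r) ≤ ε' * r') (h3 : ∀ i, p.sl i * a + 2 * (ε * r) + r' / ε' ≤ r / ε)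
    (h4 : (r' : ℝ) ≤ ε' * j) : Num0 g F M m p (j + a) r' ε' := by
  have e1 := e0.trans_le e
  have a0 : (0 : ℝ) ≤ a := Nat.cast_nonneg a
  have r0 : 0 ≤ ε * r := by positivity
  have r1 : 0 ≤ (r' : ℝ) / ε' := by positivity
  have s1 : ∀ i, (a : ℝ) ≤ p.sl i * a := fun i => le_mul_of_one_le_left a0 (hp.one i)
  have l1 : ∀ i, _ := fun i => abs_le.1 (h.lin i a (by linarith [h3 i, s1 i]))
  have m1 := mul_le_mul_of_nonneg_right e (Nat.cast_nonneg (α := ℝ) m)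
  obtain ⟨u1, u2, u3⟩ := h.unit
  obtain ⟨-, w2, w3⟩ := h.room
  have q1 := h3 iQ
  have q2 := s1 iQ
  have q3 := l1 iQ
  refine ⟨⟨by linarith, by linarith, by linarith⟩, ⟨?_, ?_, by linarith⟩, fun i b hb => ?_,
    fun i i' k => ?_, fun i i' k => ?_, fun i k => ?_, fun i k => ?_⟩
  · push_cast
    nlinarith
  · push_cast
    linarith
  · have b1 := abs_le.1 (h.lin i (a + b) (by push_cast; linarith))
    have b2 := l1 i
    rw [← add_assoc, Nat.cast_add, mul_add] at b1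
    exact abs_le.2 ⟨by linarith, by linarith⟩
  · linarith [h.far i i' k, l1 i, l1 i', h3 i, s1 i']
  · have b1 := l1 i
    rw [hp.tie i i' k] at b1
    linarith [h.tie i i' k, l1 i']
  · push_cast
    linarith [h.far0 i k, l1 i, s1 i]
  · have b1 := l1 i
    have b2 := abs_le.1 (h.tie0 i k)
    rw [hp.tie0 i k] at b1
    push_cast
    exact abs_le.2 ⟨by linarith, by linarith⟩

theorem fin (hp : p.OK) (t : Tr C Y E) (h : Fin0 g F M m p E j r ε) (h' : Old0 g F M m E ε')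
    (c : 0 ≤ C) (e0 : 0 < ε) (e : ε ≤ ε') (h1 : 2 * C * ε ≤ ε') (h2 : 3 * (ε * r) ≤ ε' * r')
    (h3 : ∀ i, p.sl i * a + 2 * (ε * r) + r' / ε' ≤ r / ε) (h4 : (r' : ℝ) ≤ ε' * j) :
    Fin0 g F M m p Y (j + a) r' ε' := by
  have e1 := e0.trans_le e
  refine ⟨num hp h.num e0 e h2 h3 h4, old t h.old h' c h.num.unit.2.2 h1, fun Z hZ => ?_⟩
  obtain ⟨k1, k2⟩ := h.ref Z (rf_trans hZ t.rf (by positivity) (by
    rw [inv_mul_le_iff₀ e1, le_mul_inv_iff₀ e0]; nlinarith))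
  have a0 : (0 : ℝ) ≤ a := Nat.cast_nonneg a
  have r0 : 0 ≤ ε * r := by positivity
  have r1 : 0 ≤ (r' : ℝ) / ε' := by positivity
  have q1 := h3 iQ
  have q2 : (a : ℝ) ≤ p.sl iQ * a := le_mul_of_one_le_left a0 (hp.one iQ)
  have q3 := abs_le.1 (h.num.lin iQ a (by linarith))
  have q4 : ε * r ≤ ε' * r' := by linarith
  refine ⟨⟨fun α β u w => (k1.br α β u (by linarith)).trans (add_le_add le_rfl
      (mul_le_mul_of_nonneg_right e (by positivity))),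
    fun lo hi u v w => (k1.ng lo hi (by linarith) v (by linarith)).trans (add_le_add le_rfl q4)⟩,
    fun Λ lam i d b b' τ u1 u2 u3 u4 u5 u6 =>
      (k2.opt Λ lam i d b b' τ u1 u2 u3 (by linarith) u5 u6).trans (add_le_add le_rfl q4),
    fun Λ lam b lo hi u1 u2 u3 u4 => (k2.xa Λ lam b lo hi u1 u2 u3 u4).trans (add_le_add le_rfl q4),
    fun Λ lam G b k c c' lo hi u1 u2 u3 u4 u5 u6 u7 u8 u9 =>
      (k2.fb Λ lam G b k c c' lo hi u1 u2 u3 (by linarith) u5 u6 u7 u8 u9).trans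
        (add_le_add le_rfl q4)⟩

end One

theorem oh_rfl (r : ℕ → ℕ) : Oh r r := ⟨1, Eventually.of_forall fun n => by omega⟩

theorem oh_zero (r : ℕ → ℕ) : Oh r fun _ => 0 := ⟨0, Eventually.of_forall fun _ => Nat.zero_le _⟩

theorem tan (hM : OMono) {Ω : ℕ → Type} {g : Gs 3 Ω} {F : ∀ n, Fam (g n).sh5} {M m j r r' a : ℕ → ℕ}
    {p : Par} {X X' : Mb Ω} {C : ℝ} (h : Tan0 g F M m p j r X) (c : 0 ≤ C)
    (t : ∀ᶠ n in UF, Tr C (X' n) (X n)) (h0 : Oh r a) (h1 : Oh r r') (h2 : Oh r' r) :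
    Tan0 g F M m p (fun n => j n + a n) r' X' := by
  obtain ⟨C0, h0⟩ := h0
  obtain ⟨C1, h1⟩ := h1
  obtain ⟨C2, h2⟩ := h2
  refine ⟨h.1, fun ε' e1 => ?_⟩
  obtain ⟨S, s0, hS⟩ : ∃ S : ℝ, 0 ≤ S ∧ ∀ i, p.sl i ≤ S :=
    ⟨_, Finset.sum_nonneg fun i _ => zero_le_one.trans (h.1.one i), fun i =>
      Finset.single_le_sum (fun i _ => zero_le_one.trans (h.1.one i)) (Finset.mem_univ i)⟩
  obtain ⟨ε, e0, e2, e3, e4⟩ : ∃ ε : ℝ, 0 < ε ∧ ε ≤ 1 ∧ (C1 + 3 * C2 + 2 * C + 1) * ε ≤ ε' ∧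
      S * C0 + 2 + C1 / ε' ≤ ε⁻¹ := by
    have d1 : 0 ≤ S * C0 := by positivity
    have d2 : 0 ≤ (C1 + 3 * C2 + 2 * C + 1) / ε' := by positivity
    refine ⟨(S * C0 + 2 + (C1 + 3 * C2 + 2 * C + 1) / ε')⁻¹, by positivity,
      inv_le_one_of_one_le₀ (by linarith), ?_, ?_⟩
    · rw [mul_inv_le_iff₀ (by positivity), ← div_le_iff₀' e1]
      linarith
    · rw [inv_inv]
      have : (0 : ℝ) ≤ C2 := Nat.cast_nonneg _
      gcongr
      linarith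
  have c1 : 0 ≤ C1 * ε := by positivity
  have c2 : 0 ≤ C2 * ε := by positivity
  have c3 : 0 ≤ C * ε := by positivity
  have e : ε ≤ ε' := by linarith
  filter_upwards [h.2 ε e0, t, h0, h1, h2] with n k u v0 v1 v2
  have w0 : (a n : ℝ) ≤ C0 * r n := by exact_mod_cast v0
  have w1 : (r' n : ℝ) ≤ C1 * r n := by exact_mod_cast v1
  have w2 : (r n : ℝ) ≤ C2 * r' n := by exact_mod_cast v2
  have r0 : (0 : ℝ) ≤ r n := Nat.cast_nonneg _
  refine fin h.1 u k (hM _ _ _ _ _ _ _ _ _ _ e0 e k).old c e0 e (by linarith) ?_ (fun i => ?_) ?_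
  · have := mul_le_mul_of_nonneg_left w2 e0.le
    have := mul_le_mul_of_nonneg_right (show 3 * (C2 * ε) ≤ ε' by linarith)
      (Nat.cast_nonneg (α := ℝ) (r' n))
    linarith
  · have x1 := mul_le_mul (hS i) w0 (Nat.cast_nonneg _) s0
    have x2 := mul_le_mul_of_nonneg_right e2 r0
    have x3 := div_le_div_of_nonneg_right w1 e1.le
    have x4 := mul_le_mul_of_nonneg_right e4 r0
    rw [mul_div_right_comm] at x3
    rw [div_eq_inv_mul (r n : ℝ) ε]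
    linarith
  · have x1 := mul_le_mul_of_nonneg_left k.num.room.1 (Nat.cast_nonneg (α := ℝ) C1)
    have x2 := mul_le_mul_of_nonneg_right (show C1 * ε ≤ ε' by linarith)
      (Nat.cast_nonneg (α := ℝ) (j n))
    linarith

end OClA

open OClA in
theorem rowOCl : OfOCl := by
  intro hM Ω g F M m p
  have cf : CF fun x : ∀ n, Ext (Ω n) × ℕ × ℕ =>
      Tan0 g F M m p (fun n => (x n).2.1) (fun n => (x n).2.2) fun n => (x n).1 :=
    (cf_const p.OK).and (cf_eps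
      (p := fun ε n (x : Ext (Ω n) × ℕ × ℕ) =>
        Fin0 (g n) (F n) (M n) (m n) p x.1 x.2.1 x.2.2 ε)
      fun ε ε' _ _ a b => hM _ _ _ _ _ _ _ _ ε ε' a b)
  have t0 : ∀ X : Mb Ω, ∀ᶠ n in UF, Tr 1 (X n) (X n) := fun X =>
    Eventually.of_forall fun n => tr_law (Law.rfl _)
  refine ⟨cf, fun j r => ⟨⟨fun X X' h k => ?_, fun X E h ⟨κ, hκ, k⟩ => ?_⟩,
      cf.comp fun n E => (E, j n, r n)⟩,
    fun j r a X h k => tan hM h zero_le_one (t0 X) k (oh_rfl r) (oh_rfl r),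
    fun j r r' X h k k' => tan hM h zero_le_one (t0 X) (oh_zero r) k k'⟩
  · exact tan hM h zero_le_one (k.mono fun n => tr_law) (oh_zero r) (oh_rfl r) (oh_rfl r)
  · exact tan hM h (inv_pos.2 hκ).le (k.mono fun n => tr_cond (X n) (E n) hκ) (oh_zero r)
      (oh_rfl r) (oh_rfl r)

end Pool.Agent.MP_5168f5_an.R4
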