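import Pool.Agent.MP_5168f5_an.R4.SpecO2

/-! The best hyperplane is a graph over the coordinate with the thicker plane. -/

namespace Pool.Agent.MP_5168f5_an.R4

open H19 H17S H17F Filter Topology

namespace OHHA

theorem cont {f : ℝ → ℝ} {a c : ℝ} (hc : ContinuousAt f c) (h1 : c < 1)
    (h : ∀ c', c < c' → c' ≤ 1 → a ≤ f c') : a ≤ f c := by
  refine ge_of_tendsto (hc.tendsto.mono_left (nhdsWithin_le_nhds (s := Set.Ioi c))) ?_
  filter_upwards [Ioo_mem_nhdsGT h1] with x hx using h x hx.1 hx.2.le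

/-- The sum of a hyperplane and a multiple of a plane. -/
noncomputable def cmb (k : Bool) (d d' : ℝ × ℝ × V 3) : ℝ × ℝ × V 3 :=
  (d.1 + d.2.2 (co (!k)) * d'.1, d.2.1 + d.2.2 (co (!k)) * d'.2.1, fun i =>
    if i = 0 then d.2.2 0 + d.2.2 (co (!k)) * d'.2.2 0 else 0)

/-- A hyperplane as a graph over the other coordinate. -/
noncomputable def inv (k : Bool) (d : ℝ × ℝ × V 3) : ℝ × ℝ × V 3 :=
  (-((d.2.2 (co (!k)))⁻¹ * d.1), -((d.2.2 (co (!k)))⁻¹ * d.2.1), fun i =>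
    if i = 0 then -((d.2.2 (co (!k)))⁻¹ * d.2.2 0)
    else if i = co k then (d.2.2 (co (!k)))⁻¹ else 0)

theorem sum3 (k : Bool) (f : Fin 3 → ℝ) : ∑ i, f i = f 0 + f (co k) + f (co (!k)) := by
  rw [Fin.sum_univ_three]
  cases k
  · rfl
  · exact add_right_comm _ _ _

theorem co0 (k : Bool) : co k ≠ 0 := by cases k <;> decide

theorem co1 (k : Bool) : co (!k) ≠ co k := by cases k <;> decide

theorem ns1 (k : Bool) : co k ∉ sS true k := by cases k <;> decide

theorem ns2 (k k' : Bool) : co k ∉ sS false k' := by cases k <;> cases k' <;> decide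

theorem in1 (b k : Bool) : 0 ∈ sS b k := by cases b <;> cases k <;> decide

theorem in2 (k : Bool) : co k ∈ sS true (!k) := by cases k <;> decide

theorem two {a b G L : ℝ} (hG : |G| ≤ 1) (ha : |a| ≤ L) (hb : |b| ≤ L) : |a + G * b| ≤ 2 * L := by
  have h := mul_le_mul hG hb (abs_nonneg _) zero_le_one
  rw [← abs_mul] at h
  exact (abs_add_le _ _).trans (by linarith)

theorem dpl {L : ℝ} (hL : 0 ≤ L) {i j : ℕ} (h : i ≤ j) : L / 2 ^ j ≤ L / 2 ^ i :=
  div_le_div_of_nonneg_left hL (by positivity) (pow_le_pow_right₀ one_le_two h)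

variable {Ω : Type} (g : Geo 3 Ω) (k : Bool) {L L' : ℝ} {d d' : ℝ × ℝ × V 3} {ω : Ω}
  {j τ τ' s : ℕ}

theorem fit1 (h1 : (g.pl (sS true k) (co k)).fit L d ω j τ)
    (h2 : (g.pl (sS false (!k)) (co (!k))).fit L d' ω j τ') (hG : 2 ^ s * |d.2.2 (co (!k))| ≤ 1) :
    (g.pl (sS false k) (co k)).fit (2 * L) (cmb k d d') ω j (min τ (τ' + s)) := by
  obtain ⟨a1, a2, a3⟩ := h1
  obtain ⟨b1, b2, b3⟩ := h2
  have L0 : 0 ≤ L := (abs_nonneg _).trans a1
  have G1 : |d.2.2 (co (!k))| ≤ 1 / 2 ^ s := by rw [le_div_iff₀ (by positivity)]; linarith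
  have G2 : |d.2.2 (co (!k))| ≤ 1 :=
    G1.trans ((div_le_one (by positivity)).2 (one_le_pow₀ one_le_two))
  refine ⟨two G2 a1 b1, fun i => ⟨?_, fun hi => if_neg fun e : i = 0 =>
    hi (by rw [e]; exact in1 false k)⟩,
    fun t ht => ?_⟩
  · simp only [cmb]
    split_ifs
    · exact two G2 (a2 0).1 (b2 0).1
    · rw [abs_zero]; positivity
  · have c1 := a3 t ht
    have c2 := mul_le_mul G1 (b3 t ht) (abs_nonneg _) (by positivity)
    rw [sum3 k, (a2 _).2 (ns1 k)] at c1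
    rw [sum3 k, (b2 _).2 (ns2 k _), (b2 _).2 (ns2 (!k) _), ← abs_mul,
      show 1 / (2 : ℝ) ^ s * (L / 2 ^ τ') = L / 2 ^ (τ' + s) by rw [pow_add]; field_simp] at c2
    have c3 := (abs_add_le _ _).trans (add_le_add (c1.trans (dpl L0 (min_le_left τ (τ' + s))))
      (c2.trans (dpl L0 (min_le_right τ (τ' + s)))))
    rw [sum3 k]
    simp only [cmb, if_true, if_neg (co0 _)]
    rw [mul_div_assoc, two_mul]
    exact le_trans (le_of_eq (congrArg _ (by ring))) c3

theorem fit2 (h1 : (g.pl (sS true k) (co k)).fit L d ω j τ) (hL : 1 ≤ L)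
    (hG : 1 ≤ L' * |d.2.2 (co (!k))|) :
    (g.pl (sS true (!k)) (co (!k))).fit (L' * L) (inv k d) ω j τ := by
  obtain ⟨a1, a2, a3⟩ := h1
  have G0 : d.2.2 (co (!k)) ≠ 0 := fun e => by rw [e, abs_zero, mul_zero] at hG; linarith
  have G1 : |(d.2.2 (co (!k)))⁻¹| ≤ L' := by
    rw [abs_inv, ← one_div, div_le_iff₀ (abs_pos.2 G0)]; exact hG
  have L0 : 0 ≤ L' := (abs_nonneg _).trans G1
  have m : ∀ {a B : ℝ}, |a| ≤ B → |-((d.2.2 (co (!k)))⁻¹ * a)| ≤ L' * B := fun h => by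
    rw [abs_neg, abs_mul]; exact mul_le_mul G1 h (abs_nonneg _) L0
  refine ⟨m a1, fun i => ⟨?_, fun hi => (if_neg fun e : i = 0 =>
    hi (by rw [e]; exact in1 true (!k))).trans (if_neg fun e : i = co k =>
      hi (by rw [e]; exact in2 k))⟩, fun t ht => ?_⟩
  · simp only [inv]
    split_ifs
    · exact m (a2 0).1
    · exact G1.trans (le_mul_of_one_le_right L0 hL)
    · rw [abs_zero]; positivity
  · have c1 := m (a3 t ht)
    rw [sum3 k, (a2 _).2 (ns1 k)] at c1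
    rw [sum3 k]
    simp only [inv, if_true, if_neg (co0 _), if_neg (co1 k)]
    rw [mul_div_assoc]
    refine le_trans (le_of_eq (congrArg _ ?_)) c1
    field_simp
    ring

section Seq

variable {Ω : ℕ → Type} {K : Mb Ω → Prop} {g : Gs 3 Ω} {M : ℕ → ℕ} {F : ∀ n, Fam (g n).sh5}

theorem up (hP : Pr K g M F) (hM : Big M) {c a : ℝ} (h0 : 0 < c) (h1 : c < 1) (i : I5)
    (hc : ContinuousAt (pr M F i) c) {X : Mb Ω} (hX : K X) {τ : ℕ → ℕ}
    (ha : Le M (fun n => a * M n) fun n => τ n) (hτ : ∀ᶠ n in UF, τ n ≤ M n)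
    (hT : Thin X.P (X.G (g.fin M)) M (fun n => ((g n).sh5 i).pull (X n).ρ) (lev M c) τ) :
    a ≤ pr M F i c := cont hc h1 fun c' u v => Le.num hM (ha.trans
  (hP.thin i X (lev M c) τ c c' hX h0.le u v (hτ.mono fun _ w => ⟨le_rfl, w⟩) hT))

theorem mem_pos {W : ℕ → Type} {P : ∀ n, FP (W n)} {E : ∀ n, W n → Prop} (h : Pos P E) :
    ∀ᶠ n in UF, ∀ v ∈ (cE (P n) (E n)).S, E n v := by
  obtain ⟨κ, a, b⟩ := h
  exact b.mono fun n u v hv => ((mem_cE (ex_of_pb (a.trans_le u)) v).1 hv).2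

end Seq

end OHHA

open OHHA in
theorem rowOHH : OfOHH := by
  intro hPR Ω K g M η ε₀ c F hG h0 h1 hc k hk
  have hP := hPR K g M η F hG
  change pr M F (iU k) c ≤ pr M F (iU (!k)) c at hk
  change pr M F (iH k) c ≤ pr M F (iH (!k)) c
  by_cases hA : pr M F (iH k) c ≤ pr M F (iU k) c
  · exact hA.trans (hk.trans (cont (hc _) h1 fun c' u v => hP.uh _ c c' h0.le u v))
  obtain ⟨X, hX⟩ := hG.cls.ne
  have hM := (hG.cls.bs X hX).big
  obtain ⟨L', hL', w⟩ := ks.wsub X.P (fun n v L => 1 ≤ L *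
      |((F n).d (iH k) (lev M c n) ((X n).ρ v) : ℝ × ℝ × V 3).2.2 (co (!k))|) M fun t ht _ => by
    by_contra u
    have hE := not_whp u
    have hY := hG.cls.cl0.cond X _ hX hE
    obtain ⟨⟨L, hL, al⟩, lab⟩ := hG.opt.ok _ hY
    have b := up hP hM h0 h1 (iU k) (hc _) hY
      (a := min (pr M F (iH k) c) (pr M F (iU (!k)) c + t))
      (τ := fun n => min ((F n).τ (iH k) (lev M c n)) ((F n).τ (iU (!k)) (lev M c n) + lev M t n))
      (fun ε hε => by
        filter_upwards [(hP.eqv (iH k) c).2 ε hε,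
          ((hP.eqv (iU (!k)) c).2.add (lev_eqv hM ht.le).2) ε hε] with n e1 e2
        have m0 : (0 : ℝ) ≤ M n := Nat.cast_nonneg _
        have e3 := mul_le_mul_of_nonneg_right
          (min_le_left (pr M F (iH k) c) (pr M F (iU (!k)) c + t)) m0
        have e4 := mul_le_mul_of_nonneg_right
          (min_le_right (pr M F (iH k) c) (pr M F (iU (!k)) c + t)) m0
        rw [Nat.cast_min, Nat.cast_add, ← min_add_add_right]
        exact le_min (by linarith) (by linarith))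
      (al.mono fun n a => (min_le_left _ _).trans (a.le (iH k) _))
      ⟨_, _, fun n v => cmb k ((F n).d (iH k) (lev M c n) ((X n).ρ v))
        ((F n).d (iU (!k)) (lev M c n) ((X n).ρ v)), _, lab (lev M c),
        hL.const_mul hM one_le_two, by
        filter_upwards [al, mem_pos hE] with n a e
        refine ⟨fun x hx y hy q => congrArg₂ (cmb k) (a.fd (iH k) _ x hx y hy q)
          (a.fd (iU (!k)) _ x hx y hy q), fun v hv =>
            fit1 (g n) k (a.fit (iH k) _ v hv) (a.fit (iU (!k)) _ v hv) ?_⟩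
        exact (mul_le_mul_of_nonneg_right ((two_pow_le_exp _).trans
          (Real.exp_le_exp.2 (lev_le' M ht.le n))) (abs_nonneg _)).trans (not_le.1 (e v hv)).le⟩
    exact absurd b (not_le.2 (lt_min (not_le.1 hA) (by linarith)))
  have hY := hG.cls.cl0.cond X _ hX w.pos
  obtain ⟨⟨L, hL, al⟩, lab⟩ := hG.opt.ok _ hY
  refine up hP hM h0 h1 (iH (!k)) (hc _) hY (hP.eqv (iH k) c).2
    (al.mono fun n a => a.le (iH k) _)
    ⟨_, _, fun n v => inv k ((F n).d (iH k) (lev M c n) ((X n).ρ v)), _, lab (lev M c),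
      hL'.mul hL, ?_⟩
  filter_upwards [al, mem_pos w.pos] with n a e
  exact ⟨fun x hx y hy q => congrArg (inv k) (a.fd (iH k) _ x hx y hy q), fun v hv =>
    fit2 (g n) k (a.fit (iH k) _ v hv) (hL.1 n) (e v hv)⟩

end Pool.Agent.MP_5168f5_an.R4
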