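import Pool.Agent.MP_5168f5_an.R4.SpecO

/-! Tangent classes: the finite conditions are monotone in the accuracy. -/

namespace Pool.Agent.MP_5168f5_an.R4

open H19 H17S H17F Filter

namespace OMonoA

theorem sh5_mono {Ω : Type} (g : Geo 3 Ω) (i : I5) {L L' : ℝ} (h : L ≤ L') {d : (g.sh5 i).D}
    {ω : Ω} {j τ : ℕ} (k : (g.sh5 i).fit L d ω j τ) : (g.sh5 i).fit L' d ω j τ := by
  cases i with
  | none => exact (qd_ok g).monoL _ _ _ _ _ _ h k
  | some v => exact (kp.ok g _ _).monoL _ _ _ _ _ _ h k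

theorem rf_mono {Ω : Type} {C C' : ℝ} {Y E : Ext Ω} (h : Rf C Y E) (e : C ≤ C') : Rf C' Y E :=
  fun F hF => (h F hF).trans
    (mul_le_mul_of_nonneg_right e (E.Q.E_nonneg fun v _ => hF (E.ρ v)))

end OMonoA

open OMonoA in
theorem rowOMono : OMono := by
  intro Ω g F M m p E j r ε ε' h0 h ⟨a, b, c⟩
  have e1 : ε * r ≤ ε' * r := mul_le_mul_of_nonneg_right h (Nat.cast_nonneg _)
  have e2 : ε * m ≤ ε' * m := mul_le_mul_of_nonneg_right h (Nat.cast_nonneg _)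
  have e3 : ε * j ≤ ε' * j := mul_le_mul_of_nonneg_right h (Nat.cast_nonneg _)
  have e4 : (r : ℝ) / ε' ≤ r / ε := div_le_div_of_nonneg_left (Nat.cast_nonneg _) h0 h
  have e5 := Real.exp_le_exp.2 e2
  refine ⟨⟨⟨a.unit.1.trans e1, a.unit.2.1.trans e2, a.unit.2.2.trans e2⟩,
    ⟨a.room.1.trans e3, by linarith [a.room.2.1], by linarith [a.room.2.2]⟩,
    fun i k u => (a.lin i k (u.trans e4)).trans e1, fun i i' u => by linarith [a.far i i' u],
    fun i i' u => by linarith [a.tie i i' u], fun i u => by linarith [a.far0 i u],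
    fun i u => (a.tie0 i u).trans e1⟩,
    ⟨⟨fun v hv => ⟨fun i => ⟨((b.bx.bd v hv).1 i).1.trans e5, ((b.bx.bd v hv).1 i).2.trans e5⟩,
      (b.bx.bd v hv).2⟩, b.bx.fz, b.bx.fθ⟩, b.inf.trans e2, by linarith [b.hgt],
      ⟨b.alg.nest, b.alg.fd, fun i k v hv => sh5_mono g i e5 (b.alg.fit i k v hv), b.alg.mono,
        b.alg.le⟩, fun k => ⟨(b.lab k).1.trans e2, (b.lab k).2.trans e2⟩⟩, fun Y hY => ?_⟩
  obtain ⟨c1, c2⟩ := c Y (rf_mono hY (inv_anti₀ h0 h))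
  refine ⟨⟨fun α β u v => ?_, fun lo hi u v w => ?_⟩,
    ⟨fun Λ lam i d k k' τ u1 u2 u3 u4 u5 u6 => ?_, fun Λ lam k lo hi u1 u2 u3 u4 => ?_,
      fun Λ lam G s t k k' lo hi u1 u2 u3 u4 u5 u6 u7 u8 u9 => ?_⟩⟩
  · have e6 : ε * (m + β) ≤ ε' * (m + β) := mul_le_mul_of_nonneg_right h (by positivity)
    linarith [c1.br α β u (v.trans e4)]
  · linarith [c1.ng lo hi (by linarith) v (by linarith)]
  · linarith [c2.opt Λ lam i d k k' τ u1 u2 u3 (by linarith) u5 u6]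
  · linarith [c2.xa Λ lam k lo hi u1 u2 u3 u4]
  · linarith [c2.fb Λ lam G s t k k' lo hi u1 u2 u3 (by linarith) u5 u6 u7 u8 u9]

end Pool.Agent.MP_5168f5_an.R4
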