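import Pool.Agent.MP_5168f5_an.R4.SpecO
import Pool.Agent.MP_5168f5_an.R4.Api

/-! The numbers at a regular level. -/

namespace Pool.Agent.MP_5168f5_an.R4

open H19 H17S H17F Filter Topology

namespace ONumA

theorem abs_ev {M : ℕ → ℕ} {f g : ℕ → ℝ} (h : Eqv M f g) {e : ℝ} (he : 0 < e) :
    ∀ᶠ n in UF, |f n - g n| ≤ e * M n := by
  filter_upwards [h.1 e he, h.2 e he] with n a b
  exact abs_le.2 ⟨by linarith, by linarith⟩

theorem lin_ev {M : ℕ → ℕ} (hM : Big M) {τ : ℕ → ℕ → ℕ} {f : ℝ → ℝ}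
    (hm : ∀ᶠ n in UF, Monotone (τ n))
    (hq : ∀ c, Eqv M (fun n => τ n (lev M c n)) fun n => f c * M n) {c s t e : ℝ} (hs : 0 < s)
    (ht : 0 < t) (he : 0 < e) (hc : 0 ≤ c)
    (hd : ∀ u, 0 ≤ u → u ≤ 2 * t → |f (c + u) - f c - s * u| ≤ e) :
    ∀ᶠ n in UF, ∀ a : ℕ, (a : ℝ) ≤ t * M n →
      |(τ n (lev M c n + a) : ℝ) - τ n (lev M c n) - s * a| ≤ 4 * e * M n := by
  obtain ⟨h, h0, h1, h2⟩ : ∃ h : ℝ, 0 < h ∧ h ≤ t ∧ s * h ≤ e :=
    ⟨min t (e / s), lt_min ht (by positivity), min_le_left _ _,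
      (le_div_iff₀' hs).1 (min_le_right _ _)⟩
  filter_upwards [hm, hM.ev 1, abs_ev (hq c) he, (Finset.range (⌊t / h⌋₊ + 2)).eventually_all.2
    fun k _ => abs_ev (hq (c + k * h)) he] with n mo m1 q0 q a ha
  have m0 : (0 : ℝ) < M n := by linarith
  set k := ⌊(a : ℝ) / (h * M n)⌋₊
  have k1 : (k : ℝ) * (h * M n) ≤ a :=
    (le_div_iff₀ (by positivity)).1 (Nat.floor_le (by positivity))
  have k2 : (a : ℝ) < (k + 1) * (h * M n) :=
    (div_lt_iff₀ (by positivity)).1 (Nat.lt_floor_add_one _)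
  have k3 : k * h ≤ t := le_of_mul_le_mul_right (by linarith) m0
  have k4 : k ≤ ⌊t / h⌋₊ := Nat.le_floor ((le_div_iff₀ h0).2 k3)
  have e0 : lev M c n + a = ⌊c * M n + a⌋₊ := (Nat.floor_add_natCast (by positivity) a).symm
  have l1 : (τ n (lev M (c + k * h) n) : ℝ) ≤ τ n (lev M c n + a) :=
    Nat.cast_le.2 (mo (le_of_le_of_eq (Nat.floor_mono (by linarith)) e0.symm))
  have l2 : (τ n (lev M c n + a) : ℝ) ≤ τ n (lev M (c + (k + 1 : ℕ) * h) n) :=
    Nat.cast_le.2 (mo (e0.trans_le (Nat.floor_mono (by push_cast; linarith))))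
  have q1 := abs_le.1 (q k (Finset.mem_range.2 (by omega)))
  have q2 := abs_le.1 (q (k + 1) (Finset.mem_range.2 (by omega)))
  have d1 := mul_le_mul_of_nonneg_right (abs_le.1 (hd (k * h) (by positivity) (by linarith))).1
    m0.le
  have d2 := mul_le_mul_of_nonneg_right (abs_le.1 (hd ((k + 1 : ℕ) * h) (by positivity)
    (by push_cast; linarith))).2 m0.le
  have s1 := mul_le_mul_of_nonneg_left k1 hs.le
  have s2 := mul_le_mul_of_nonneg_left k2.le hs.le
  have s3 := mul_le_mul_of_nonneg_right h2 m0.le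
  have q3 := abs_le.1 q0
  push_cast at l2 q2 d2
  exact abs_le.2 ⟨by linarith, by linarith⟩

theorem small {x : ℝ} (hx : 0 < x) : ∀ᶠ t in 𝓝[>] (0 : ℝ), 2 * t ≤ x :=
  mem_of_superset (Ioc_mem_nhdsGT (half_pos hx)) fun t ht => by
    have := ht.2
    change 2 * t ≤ x
    linarith

theorem gap (x y : ℝ) : ∀ᶠ t in 𝓝[>] (0 : ℝ), x < y → 2 * t ≤ y - x := by
  by_cases h : x < y
  · exact (small (sub_pos.2 h)).mono fun _ k _ => k
  · exact Eventually.of_forall fun _ k => absurd k h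

theorem der {f : ℝ → ℝ} {c e : ℝ} (hf : DifferentiableAt ℝ f c) (he : 0 < e) :
    ∀ᶠ t in 𝓝[>] (0 : ℝ), ∀ u, 0 ≤ u → u ≤ 2 * t →
      |f (c + u) - f c - deriv f c * u| ≤ 2 * e * t := by
  obtain ⟨w, hw, k⟩ := Metric.eventually_nhds_iff.1
    ((hasDerivAt_iff_isLittleO_nhds_zero.1 hf.hasDerivAt).def he)
  filter_upwards [small (half_pos hw)] with t ht u u0 u1
  have := k (y := u) (by rw [Real.dist_0_eq_abs, abs_of_nonneg u0]; linarith)
  rw [Real.norm_eq_abs, Real.norm_eq_abs, abs_of_nonneg u0, smul_eq_mul, mul_comm u] at this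
  nlinarith

end ONumA

open ONumA

theorem rowONum : OfONum := by
  intro hPR Ω K g M η ε₀ c ε F hG c0 c1 cQ hD hO hε
  have hP := hPR K g M η F hG
  obtain ⟨X, hX⟩ := hG.cls.ne
  have hM : Big M := (hG.cls.bs X hX).big
  obtain ⟨L, -, hL⟩ := (hG.opt.ok X hX).alg
  obtain ⟨t₀, ht₀, H⟩ := mem_nhdsGT_iff_exists_Ioc_subset.1 ((small c0).and <|
    (small (sub_pos.2 c1)).and <| (small (sub_pos.2 cQ)).and <|
    (eventually_all.2 fun i => eventually_all.2 fun i' => gap (pr M F i c) (pr M F i' c)).and <|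
    (eventually_all.2 fun i => gap c (pr M F i c)).and <|
    eventually_all.2 fun i => der (hD i) (show 0 < ε ^ 2 / 16 by positivity))
  refine ⟨ε * t₀, mul_pos hε ht₀, fun ρ δ δ0 hδ hρ => ?_⟩
  obtain ⟨t, rfl⟩ : ∃ t, ρ = ε * t := ⟨ρ / ε, by field_simp⟩
  have t0 : 0 < t := by
    by_contra k
    nlinarith [mul_nonneg (mul_pos hε hε).le (neg_nonneg.2 (not_lt.1 k))]
  obtain ⟨g1, g2, g3, g4, g5, g6⟩ := H ⟨t0, le_of_mul_le_mul_left hρ hε⟩
  obtain ⟨κ, κ0, κ1, κ2⟩ : ∃ κ : ℝ, 0 < κ ∧ 2 * κ ≤ t ∧ 4 * κ ≤ ε * (ε * t) :=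
    ⟨min (t / 2) (ε * (ε * t) / 4), lt_min (by positivity) (by positivity),
      by linarith [min_le_left (t / 2) (ε * (ε * t) / 4)],
      by linarith [min_le_right (t / 2) (ε * (ε * t) / 4)]⟩
  filter_upwards [hM.ev (2 / (ε * t)), hM.ev (2 / δ), hM.ev (2 / c), hM.ev (2 / (ε * δ)),
    (Sub.nat hM).log (ε * δ / 2) (by positivity), abs_ev (lev_eqv hM c0.le) κ0,
    eventually_all.2 fun i => abs_ev (hP.eqv i c) κ0,
    eventually_all.2 fun i => lin_ev hM (hL.mono fun n k => k.mono i) (hP.eqv i)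
      (one_pos.trans_le (hO.one i)) t0 (by positivity) c0.le (g6 i)]
    with n m1 m2 m3 m4 m5 j1 q li
  rw [div_le_iff₀ (by positivity)] at m1 m2 m3 m4
  have m0 : (0 : ℝ) < M n := pos_of_mul_pos_right (by linarith) δ0.le
  have r1 := lev_le' M (mul_pos hε t0).le n
  have r2 := lt_lev M (ε * t) n
  have r3 : (lev M (ε * t) n : ℝ) / ε ≤ t * M n := (div_le_iff₀ hε).2 (by linarith)
  have r4 : ε * (ε * t * M n) ≤ ε * (2 * lev M (ε * t) n) :=
    mul_le_mul_of_nonneg_left (by linarith) hε.le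
  have d1 := lev_le' M δ0.le n
  have d2 : ε * (δ * M n) ≤ ε * (2 * lev M δ n) :=
    mul_le_mul_of_nonneg_left (by linarith [lt_lev M δ n]) hε.le
  have j2 := lev_le' M c0.le n
  have j3 : ε * (c * M n) ≤ ε * (2 * lev M c n) :=
    mul_le_mul_of_nonneg_left (by linarith [lt_lev M c n]) hε.le
  have a1 := mul_le_mul_of_nonneg_right κ1 m0.le
  have a2 := mul_le_mul_of_nonneg_right κ2 m0.le
  have a3 := mul_le_mul_of_nonneg_right hδ m0.le
  have a4 := mul_le_mul_of_nonneg_right (mul_le_mul_of_nonneg_left g1 hε.le) m0.le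
  have a5 := mul_le_mul_of_nonneg_right g2 m0.le
  have a6 := mul_le_mul_of_nonneg_right g3 m0.le
  have a7 := mul_pos t0 m0
  have a8 := Real.log_le_log m0 (le_add_of_nonneg_right zero_le_one)
  refine ⟨⟨by linarith, by linarith, by linarith⟩, ⟨by linarith, by linarith, ?_⟩,
    fun i a ha => (li i a (ha.trans r3)).trans (by nlinarith), fun i i' k => ?_, fun i i' k => ?_,
    fun i k => ?_, fun i k => ?_⟩
  · linarith [(abs_le.1 (q iQ)).2]
  · linarith [(abs_le.1 (q i)).2, (abs_le.1 (q i')).1, mul_le_mul_of_nonneg_right (g4 i i' k) m0.le]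
  · have e : pr M F i c * M n = pr M F i' c * M n := congrArg (· * (M n : ℝ)) k
    linarith [(abs_le.1 (q i)).2, (abs_le.1 (q i')).1]
  · linarith [(abs_le.1 (q i)).1, mul_le_mul_of_nonneg_right (g5 i k) m0.le]
  · have e : pr M F i c * M n = c * M n := congrArg (· * (M n : ℝ)) k
    have := abs_le.1 (q i)
    have := abs_le.1 j1
    exact abs_le.2 ⟨by linarith, by linarith⟩

end Pool.Agent.MP_5168f5_an.R4
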