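import Pool.Agent.MP_5168f5_an.R4.SpecO

/-! The old labels in a smaller unit. -/

namespace Pool.Agent.MP_5168f5_an.R4

open H19 H17S H17F Filter

theorem rowOOld : OOld := by
  intro Ω K g M η ε δ F X h hX hε hδ
  have b := h.cls.bs X hX
  have o := h.opt.ok X hX
  obtain ⟨L, hL, bx⟩ := b.bx
  obtain ⟨L', hL', al⟩ := o.alg
  have p : 0 < ε * (δ / 2) := by positivity
  have l := unif' (A := fun _ => ℕ) (h := fun _ _ => True) (p := fun n j =>
    sLab (g n) (M n) (X n) (0 + ε * (δ / 2) * M n) j fun v => (F n).S j ((X n).ρ v))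
    (fun _ => ⟨0, trivial⟩) fun j _ => ((o.lab j).h _ p).and ((o.lab j).l _ p)
  filter_upwards [bx, al, hL.2 _ p, hL'.2 _ p, b.inf _ p, b.hgt _ p, l, b.big.ev (2 / δ)] with
    n h1 h2 h3 h4 h5 h6 h7 h8
  have e : ε * (δ / 2) * M n ≤ ε * lev M δ n := by
    rw [div_le_iff₀ hδ] at h8
    rw [mul_assoc]
    exact mul_le_mul_of_nonneg_left (by linarith [lt_lev M δ n]) hε.le
  have e1 := h3.trans (Real.exp_le_exp.2 e)
  have e2 := h4.trans (Real.exp_le_exp.2 e)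
  refine ⟨⟨fun ω hω => ⟨fun i => ((h1.bd ω hω).1 i).imp (·.trans e1) (·.trans e1),
    (h1.bd ω hω).2⟩, h1.fz, h1.fθ⟩, h5.trans (by linarith), h6.trans (add_le_add le_rfl e),
    ⟨h2.nest, h2.fd, fun i j ω hω => ?_, h2.mono, h2.le⟩, fun j =>
      (h7 j trivial).imp (·.trans (by linarith)) (·.trans (by linarith))⟩
  have k := h2.fit i j ω hω
  rcases i with _ | ⟨a, c⟩
  · exact (qd_ok (g n)).monoL _ _ _ ((X n).ρ ω) _ _ e2 k
  · exact (kp.ok (g n) (sS a c) (co c)).monoL _ _ _ ((X n).ρ ω) _ _ e2 k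

end Pool.Agent.MP_5168f5_an.R4
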