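import Pool.Agent.MP_5168f5_an.R4.SpecT

/-! A deficiency gives an exact subclass and a good floor. -/

namespace Pool.Agent.MP_5168f5_an.R4

open H19 H17S H17F Filter MeasureTheory

namespace TF0A

variable {M : ℕ → ℕ} {φ : ℕ → ℕ → ℝ} {c₀ C : ℝ}

theorem lip {u : ℕ → ℝ} (h : ∀ j, u j ≤ u (j + 1) ∧ u (j + 1) ≤ u j + c₀)
    {a b : ℕ} {t : ℝ} (h0 : 0 ≤ c₀) (ht : 0 ≤ t) (hab : (b : ℝ) ≤ a + t) : u b ≤ u a + c₀ * t := by
  rcases le_total a b with e | e
  · exact (step_le (fun j => (h j).2) e).trans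
      (add_le_add le_rfl (mul_le_mul_of_nonneg_left (by linarith) h0))
  · exact (monotone_nat_of_le_succ (fun j => (h j).1) e).trans
      (le_add_of_nonneg_right (by positivity))

theorem le_near (h0 : 0 ≤ c₀) (h : ∀ n j, φ n j ≤ φ n (j + 1) ∧ φ n (j + 1) ≤ φ n j + c₀)
    {a b : ℕ → ℕ} (hab : Le M (fun n => b n) fun n => a n) :
    Le M (fun n => φ n (b n)) fun n => φ n (a n) := fun ε hε => by
  filter_upwards [hab (ε / (c₀ + 1)) (by positivity)] with n k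
  refine (lip (h n) h0 (by positivity) k).trans (add_le_add le_rfl ?_)
  rw [← mul_assoc]
  refine mul_le_mul_of_nonneg_right ?_ (Nat.cast_nonneg _)
  rw [← mul_div_assoc, div_le_iff₀ (by positivity)]
  nlinarith

theorem prof_near (hM : Big M) (hb : ∀ᶠ n in UF, ∀ j, |φ n j| ≤ C * M n) (h0 : 0 ≤ c₀)
    (h : ∀ n j, φ n j ≤ φ n (j + 1) ∧ φ n (j + 1) ≤ φ n j + c₀) {a : ℕ → ℕ} {c : ℝ} (hc : 0 ≤ c)
    (ha : Eqv M (fun n => a n) fun n => c * M n) :
    Eqv M (fun n => φ n (a n)) fun n => prof M φ c * M n := by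
  have e := ha.trans (lev_eqv hM hc).symm
  exact Eqv.trans ⟨le_near h0 h e.1, le_near h0 h e.2⟩ (prof_eqv hM hb c)

theorem prof_lev (hM : Big M) (hb : ∀ᶠ n in UF, ∀ j, |φ n j| ≤ C * M n) (h0 : 0 ≤ c₀)
    (h : ∀ n j, φ n j ≤ φ n (j + 1) ∧ φ n (j + 1) ≤ φ n j + c₀) {p : ℝ} (hp : 0 < p) (hp1 : p ≤ 1)
    (q : ℝ) : prof (lev M p) φ q = prof M φ (p * q) / p := by
  have fr : Frac (lev M p) M := hM.frac_floor hp hp1
  have e0 := lev_eqv hM hp.le
  have e1 : Eqv M (fun n => φ n (lev (lev M p) q n)) fun n => prof M φ (p * q) * M n := by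
    rcases le_total 0 q with hq | hq
    · have e2 := lev_eqv (hM.frac fr) hq
      refine prof_near hM hb h0 h (by positivity) ⟨?_, ?_⟩
      · exact ((e2.1.up fr.1).trans (e0.1.smul hq)).trans (Le.of_le fun n => le_of_eq (by ring))
      · exact ((Le.of_le fun n => le_of_eq (by ring)).trans (e0.2.smul hq)).trans (e2.2.up fr.1)
    · have : lev (lev M p) q = lev M (p * q) := funext fun n => by
        unfold lev
        rw [Nat.floor_eq_zero.2 (lt_of_le_of_lt (mul_nonpos_of_nonpos_of_nonneg hq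
          (Nat.cast_nonneg _)) one_pos), Nat.floor_eq_zero.2 (lt_of_le_of_lt
          (mul_nonpos_of_nonpos_of_nonneg (mul_nonpos_of_nonneg_of_nonpos hp.le hq)
            (Nat.cast_nonneg _)) one_pos)]
      rw [this]
      exact prof_eqv hM hb _
  have e3 : Eqv M (fun n => prof M φ (p * q) * M n) fun n => prof M φ (p * q) / p * lev M p n := by
    constructor <;> refine Le.of_sub (hM.sm |prof M φ (p * q) / p|)
      (Eventually.of_forall fun n => ?_) <;>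
    · have a1 := lev_le' M hp.le n
      have a2 := lt_lev M p n
      have a3 : prof M φ (p * q) * M n = prof M φ (p * q) / p * (p * M n) := by field_simp
      have a4 := le_abs_self (prof M φ (p * q) / p)
      have a5 := neg_abs_le (prof M φ (p * q) / p)
      have a6 := abs_nonneg (prof M φ (p * q) / p)
      rw [a3]
      nlinarith
  have e4 := e1.trans e3
  exact Eqv.rt_eq (hM.frac fr) ⟨e4.1.frac fr, e4.2.frac fr⟩

theorem ngd {Φ Φ' : ℝ → ℝ} {e p : ℝ} (hp : 0 < p) (h : ∀ q, Φ' q = Φ (p * q) / p)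
    (hr : ∀ η : ℝ, 0 < η → ∃ X₀ : ℝ, 0 < X₀ ∧ ∀ X, 0 < X → X ≤ X₀ →
      volume (K80.Bad Φ e ∩ Set.Icc (p - X) (p + X)) ≤ ENNReal.ofReal (η * X) ∧
        ∀ q q', p - X ≤ q → q ≤ q' → q' ≤ p + X → Φ q' - Φ q ≤ (1 - e) * (q' - q) + η * X) :
    NGd Φ' e := by
  intro γ hγ
  obtain ⟨X₀, h0, h1⟩ := hr γ hγ
  refine ⟨X₀ / p, by positivity, fun X hX hX' => ?_⟩
  obtain ⟨h2, h3⟩ := h1 (p * X) (by positivity) ((le_div_iff₀' hp).1 hX')
  refine ⟨?_, fun q q' a b c => ?_⟩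
  · have s : K80.Bad Φ' e ∩ Set.Icc (1 - X) 1 ⊆
        (p * ·) ⁻¹' (K80.Bad Φ e ∩ Set.Icc (p - p * X) (p + p * X)) := by
      rintro q ⟨k1, k2, k3⟩
      refine ⟨fun k => k1 ?_, by nlinarith, by nlinarith⟩
      have d : HasDerivAt Φ' (deriv Φ (p * q) * (p * 1) / p) q := by
        rw [show Φ' = fun q => Φ (p * q) / p from funext h]
        exact (k.1.hasDerivAt.comp q ((hasDerivAt_id q).const_mul p)).div_const p
      refine ⟨d.differentiableAt, ?_⟩
      rw [d.deriv, mul_one, mul_div_cancel_right₀ _ hp.ne']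
      exact k.2
    refine (measure_mono s).trans ?_
    rw [Real.volume_preimage_mul_left hp.ne', abs_of_pos (inv_pos.2 hp)]
    refine (mul_le_mul_right h2 _).trans (le_of_eq ?_)
    rw [← ENNReal.ofReal_mul (inv_pos.2 hp).le]
    congr 1; field_simp
  · have := h3 (p * q) (p * q') (by nlinarith) (by nlinarith) (by nlinarith)
    rw [h, h, ← sub_div, div_le_iff₀ hp]
    linarith

theorem stp {Ω : ℕ → Type} (g : Gs 3 Ω) (X : Mb Ω) (n j : ℕ) :
    Fn (X n).Q (fun v => fl j ((g n).pt ((X n).ρ v)))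
      (fun v => (fl (j + 1) ((g n).pt ((X n).ρ v)), (g n).zt ((X n).ρ v))) ∧
    ch (X n).Q (fun v => fl (j + 1) ((g n).pt ((X n).ρ v)))
      (fun v => (fl j ((g n).pt ((X n).ρ v)), (g n).zt ((X n).ρ v))) ≤ 3 * lg :=
  ⟨fun _ _ _ _ e => fl_eq_of_le (Nat.le_succ j) (congrArg Prod.fst e),
    (ch_fl_refine (j := j) (i := 1) (Fn.fst _ _)).trans (le_of_eq (by simp))⟩

end TF0A

open TF0A in
theorem rowTF0 : TF0 := by
  intro Ω K g M b X₀ hK hM hbM h0 hd
  have l0 := lg_pos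
  have l3 : 0 < 3 * lg := by positivity
  obtain ⟨K₁, φ₁, c1, ⟨X₁, x1⟩, s1, p1, e1, d1⟩ := exactK K M (fun n => M n - b n)
    (fun n j ω => fl (b n + j) ((g n).pt ω)) (fun n => (g n).zt) (3 * lg) 1 X₀ hK hM h0 l3.le
    (fun n => by rw [one_mul]; exact_mod_cast Nat.sub_le _ _)
    fun X _ => Eventually.of_forall fun n j _ => stp g X n (b n + j)
  have eb : ∀ n, b n + (M n - b n) = M n := fun n => Nat.add_sub_cancel' (hbM n)
  have ec : ∀ n, ((M n - b n : ℕ) : ℝ) = M n - b n := fun n => Nat.cast_sub (hbM n)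
  simp only [eb, ec] at d1
  have d2 := d1 fun k => hd ((Le.of_le fun n => le_of_eq (by ring)).trans k)
  obtain ⟨K₂, φ, c2, ⟨X₂, x2⟩, s2, p2, e2, -⟩ := exactK K₁ M M
    (fun n j ω => fl j ((g n).pt ω)) (fun n => (g n).zt) (3 * lg) 1 X₁ c1 hM x1 l3.le
    (fun n => by rw [one_mul]) fun X _ => Eventually.of_forall fun n j _ => stp g X n j
  have st : ∀ n j, φ n j ≤ φ n (j + 1) ∧ φ n (j + 1) ≤ φ n j + 3 * lg := fun n j =>
    ⟨((p2 n).2 j).1, ((p2 n).2 j).2.1⟩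
  have bd : ∀ n j, |φ n j| ≤ 3 * M n := fun n j => by
    have a1 := monotone_nat_of_le_succ (fun j => (st n j).1) (Nat.zero_le j)
    have a2 := step_le (fun j => (st n j).2) (Nat.zero_le (M n))
    have a3 := ((p2 n).2 j).2.2
    have a4 := mul_le_mul_of_nonneg_right lg_lt_one.le (Nat.cast_nonneg (α := ℝ) (M n))
    rw [(p2 n).1] at a1 a2
    rw [abs_of_nonneg a1]
    push_cast at a2
    linarith
  have bd' : ∀ᶠ n in UF, ∀ j, |φ n j| ≤ 3 * M n := Eventually.of_forall bd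
  have f1 := e1 X₂ (s2 X₂ x2) (fun _ => 0) (fun n => M n - b n) fun n => ⟨Nat.zero_le _, le_rfl⟩
  have f2 := e2 X₂ x2 b M fun n => ⟨hbM n, le_rfl⟩
  simp only [eb, (p1 _).1, sub_zero, add_zero] at f1
  have bb : Bd1 M fun n => (b n : ℝ) := ⟨1, Eventually.of_forall fun n => by
    rw [abs_of_nonneg (Nat.cast_nonneg _), one_mul]; exact Nat.cast_le.2 (hbM n)⟩
  have eβ := bb.eqv hM
  set β₀ := rt M fun n => (b n : ℝ) with hβ₀
  have β0 : 0 ≤ β₀ := Le.num hM ((Le.of_le fun n => by simp).trans eβ.1)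
  have β1 : β₀ ≤ 1 := Le.num hM (eβ.2.trans (Le.of_le fun n => by
    rw [one_mul]; exact Nat.cast_le.2 (hbM n)))
  have L1 : K80.Lip1 (hb M φ) := fun a a' h => by
    unfold hb
    rw [← sub_div, div_le_iff₀ l3]
    exact ⟨div_nonneg (sub_nonneg.2 (prof_mono hM bd' (Eventually.of_forall fun n =>
      monotone_nat_of_le_succ fun j => (st n j).1) h)) l3.le,
      (prof_lip hM bd' l3.le (Eventually.of_forall fun n j => (st n j).2) h).trans
        (le_of_eq (mul_comm _ _))⟩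
  have g1 := prof_near hM bd' l3.le st β0 eβ
  have g2 := prof_eqv hM bd' 1
  rw [lev_one] at g2
  have df : hb M φ 1 - hb M φ β₀ < 1 - β₀ := by
    by_contra k
    unfold hb at k
    rw [not_lt, ← sub_div, le_div_iff₀ l3] at k
    refine d2 (Le.of5 f2.2 f1.1 g1.1 g2.2 (eβ.2.smul l3.le) (Eventually.of_forall fun n => ?_))
    have := mul_le_mul_of_nonneg_right k (Nat.cast_nonneg (α := ℝ) (M n))
    linarith
  have d0 := (L1 β₀ 1 β1).1
  have β2 : 0 < 1 - β₀ := by linarith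
  set ε₀ := (1 - β₀ - (hb M φ 1 - hb M φ β₀)) / (2 * (1 - β₀)) with hε₀
  have ε0 : 0 < ε₀ := div_pos (by linarith) (by positivity)
  have ε1 : ε₀ * (2 * (1 - β₀)) = 1 - β₀ - (hb M φ 1 - hb M φ β₀) :=
    div_mul_cancel₀ _ (by positivity)
  have ε2 : ε₀ ≤ 1 := by nlinarith
  obtain ⟨p, ⟨q1, q2⟩, hr⟩ := K80.ra1 L1 ε0.le ε2 β1 (by nlinarith)
  have p0 : 0 < p := β0.trans_lt q1
  have fr : Frac (lev M p) M := hM.frac_floor p0 q2.le
  refine ⟨K₂, φ, lev M p, ε₀, β₀ / p, c2, ⟨X₂, x2⟩, fun X h => s1 X (s2 X h), fr, ε0, ε2,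
    (div_lt_one p0).2 q1, ?_, ngd p0 (fun q => ?_) hr, st, ?_, fun X h a a' k => ?_⟩
  · refine Le.frac (eβ.1.trans ((Le.of_le fun n => le_of_eq ?_).trans
      ((lev_eqv hM p0.le).2.smul (c := β₀ / p) (by positivity)))) fr
    field_simp
  · unfold hb
    rw [prof_lev hM bd' l3.le st p0 q2.le, div_right_comm]
  · obtain ⟨c, hc, k⟩ := fr.2
    refine ⟨3 / c, k.mono fun n k j => (bd n j).trans ?_⟩
    rw [div_mul_eq_mul_div, le_div_iff₀ hc]
    linarith
  · have := e2 X h a a' fun n => ⟨(k n).1, (k n).2.trans (fr.1 n)⟩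
    exact ⟨this.1.frac fr, this.2.frac fr⟩

end Pool.Agent.MP_5168f5_an.R4
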