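import Pool.Agent.MP_5168f5_an.R4.SpecO
import Pool.Agent.MP_5168f5_an.R4.XTF0

/-! Broadness and the rate at a regular level. -/

namespace Pool.Agent.MP_5168f5_an.R4

open H19 H17S H17F Filter

namespace ORef1A

theorem uni {Ω : ℕ → Type} {K : Mb Ω → Prop} {P : ∀ n, FP (Ω n)} (cl : Cl0 K)
    (hP : K (Mb.base P)) (C : ℝ) {h w : ℕ → ℕ × ℕ → Prop} {p : ∀ n, Ext (Ω n) → ℕ × ℕ → Prop}
    (h0 : ∀ n, h n (0, 0))
    (H : ∀ X : Mb Ω, K X → ∀ a : ℕ → ℕ × ℕ, (∀ n, h n (a n)) → (∀ᶠ n in UF, w n (a n)) →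
      ∀ᶠ n in UF, p n (X n) (a n)) :
    ∀ᶠ n in UF, ∀ Y : Ext (Ω n), K31.Dn C Y.Q Y.ρ (P n) → ∀ a, h n a → w n a → p n Y a := by
  refine (unif' (A := fun n => Ext (Ω n) × ℕ × ℕ) (h := fun n x => h n x.2)
    (p := fun n x => K31.Dn C x.1.Q x.1.ρ (P n) ∧ w n x.2 → p n x.1 x.2)
    (fun n => ⟨(⟨_, P n, id⟩, 0, 0), h0 n⟩) fun x hx => ?_).mono
    fun n k Y d a b c => k (Y, a) b ⟨d, c⟩
  by_cases e : ∀ᶠ n in UF, K31.Dn C (x n).1.Q (x n).1.ρ (P n) ∧ w n (x n).2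
  · exact (H (fun n => (x n).1) (cl.dn hP (Q := fun n => (x n).1.Q) (f := fun n => (x n).1.ρ)
      ⟨C, e.exists.elim fun _ a => a.1.one_le, e.mono fun _ a => a.1⟩) _ hx
      (e.mono fun _ a => a.2)).mono fun _ a _ => a
  · exact (not_ev.1 e).mono fun _ a b => absurd b a

theorem win {Φ : ℝ → ℝ} {q e γ : ℝ} (h : q ∉ K80.Bad Φ e) (hγ : 0 < γ) :
    ∃ X₀ : ℝ, 0 < X₀ ∧ ∀ W x x', W ≤ X₀ → q - W ≤ x → x ≤ x' → x' ≤ q + W →
      Φ x' - Φ x ≤ (1 - e) * (x' - x) + 2 * γ * W := by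
  obtain ⟨h1, h2⟩ := not_not.1 h
  obtain ⟨r, r0, k⟩ := Metric.eventually_nhds_iff.1
    ((hasDerivAt_iff_isLittleO.1 h1.hasDerivAt).def hγ)
  refine ⟨r / 2, half_pos r0, fun W x x' a b c d => ?_⟩
  have e1 : |x - q| ≤ W := abs_le.2 ⟨by linarith, by linarith⟩
  have e2 : |x' - q| ≤ W := abs_le.2 ⟨by linarith, by linarith⟩
  have k1 := k (y := x) (by rw [Real.dist_eq]; linarith)
  have k2 := k (y := x') (by rw [Real.dist_eq]; linarith)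
  simp only [Real.norm_eq_abs, smul_eq_mul] at k1 k2
  have k3 := mul_le_mul_of_nonneg_left e1 hγ.le
  have k4 := mul_le_mul_of_nonneg_left e2 hγ.le
  have k5 := mul_le_mul_of_nonneg_right h2 (sub_nonneg.2 c)
  linarith [(abs_le.1 k1).1, (abs_le.1 k2).2]

variable {M : ℕ → ℕ}

theorem smul {f g : ℕ → ℝ} (h : Eqv M f g) (c : ℝ) : Le M (fun n => c * f n) fun n => c * g n := by
  rcases le_total 0 c with e | e
  · exact h.1.smul e
  · exact (h.2.smul (neg_nonneg.2 e)).of_sub (.of_forall fun n => by linarith)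

theorem half (hM : Big M) {δ : ℝ} (h : 0 < δ) : ∀ᶠ n in UF, δ / 2 * M n ≤ lev M δ n :=
  ((lev_eqv hM h.le).2 _ (half_pos h)).mono fun n a => by linarith

theorem rate (hM : Big M) {a : ℕ → ℕ} (h : ∀ n, a n ≤ M n) :
    ∃ x : ℝ, 0 ≤ x ∧ Eqv M (fun n => a n) fun n => x * M n := by
  have e := Bd1.eqv (M := M) (f := fun n => (a n : ℝ)) ⟨1, .of_forall fun n => by
    rw [abs_of_nonneg (Nat.cast_nonneg _), one_mul]; exact Nat.cast_le.2 (h n)⟩ hM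
  exact ⟨_, Le.num hM ((Le.of_le fun n => by simp).trans e.1), e⟩

theorem num {φ : ℕ → ℕ → ℝ} {C q W c₁ c₂ : ℝ} {τ : ℕ → ℝ} {lo hi : ℕ → ℕ} (hM : Big M)
    (hb' : ∀ᶠ n in UF, ∀ j, |φ n j| ≤ C * M n)
    (st : ∀ n j, φ n j ≤ φ n (j + 1) ∧ φ n (j + 1) ≤ φ n j + 3 * lg)
    (hτ : Eqv M τ fun n => q * M n) (h : ∀ n, lo n ≤ hi n ∧ hi n ≤ M n)
    (w : ∀ᶠ n in UF, τ n ≤ lo n + W * M n ∧ hi n ≤ τ n + W * M n)
    (H : ∀ x x', q - W ≤ x → x ≤ x' → x' ≤ q + W →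
      hb M φ x' - hb M φ x ≤ c₁ * (x' - x) + c₂) :
    Le M (fun n => φ n (hi n) - φ n (lo n)) fun n =>
      3 * c₁ * (hi n - lo n) * lg + 3 * lg * c₂ * M n := by
  have l3 : 0 < 3 * lg := by linarith [lg_pos]
  obtain ⟨x, x0, e1⟩ := rate hM fun n => (h n).1.trans (h n).2
  obtain ⟨y, y0, e2⟩ := rate hM fun n => (h n).2
  have k := H x y (Le.num hM (Le.of2 hτ.2 e1.1 (w.mono fun n a => by linarith [a.1])))
    (Le.num hM (Le.of2 e1.2 e2.1 (.of_forall fun n => by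
      linarith [(Nat.cast_le (α := ℝ)).2 (h n).1])))
    (Le.num hM (Le.of2 e2.2 hτ.1 (w.mono fun n a => by linarith [a.2])))
  unfold hb at k
  rw [← sub_div, div_le_iff₀ l3] at k
  refine Le.of4 (TF0A.prof_near hM hb' l3.le st y0 e2).1 (TF0A.prof_near hM hb' l3.le st x0 e1).2
    (smul e2.symm (3 * lg * c₁)) (smul e1.symm (-(3 * lg * c₁))) (.of_forall fun n => ?_)
  linarith [mul_le_mul_of_nonneg_right k (Nat.cast_nonneg (α := ℝ) (M n))]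

end ORef1A

open ORef1A in
theorem rowORef1 : OfORef1 := by
  intro hPR Ω K g M η ε₀ c ε F φ P h hP nb q0 q1 hε
  have hM := (h.cls.bs _ hP).big
  have hτ := (hPR K g M η F h.toGo).eqv iQ c
  obtain ⟨C, hC⟩ := h.bd
  obtain ⟨a₀, a0, br⟩ := h.brd ε hε
  obtain ⟨X₀, x0, wi⟩ := win nb (γ := ε ^ 2 / 24) (by positivity)
  have q2 : 0 < (1 - pr M F iQ c) / 2 := by linarith
  refine ⟨ε * min a₀ (min X₀ ((1 - pr M F iQ c) / 2)), by positivity, fun ρ δ ρ0 ρ1 δ0 => ?_⟩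
  rw [← div_le_iff₀' hε, le_min_iff, le_min_iff] at ρ1
  have rr : ∀ n, (lev M ρ n : ℝ) / ε ≤ ρ / ε * M n := fun n => by
    rw [div_mul_eq_mul_div]
    exact div_le_div_of_nonneg_right (lev_le' M ρ0.le n) hε.le
  have u1 := uni h.cls.cl0 hP ε⁻¹ (h := fun n a => a.1 ≤ a.2 ∧ (a.2 : ℝ) ≤ a₀ * M n)
    (w := fun _ _ => True) (p := fun n Y a => η * (a.2 - a.1) * lg - ε * a.2 ≤
      ch Y.Q (fun v => fl1 a.2 ((Y.gf (g n) (M n)).e v 0)) (fun v =>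
        (fl a.1 ((Y.gf (g n) (M n)).e v), (Y.gf (g n) (M n)).y v)) + ε * (δ / 2) * M n)
    (fun n => ⟨le_rfl, by rw [Nat.cast_zero]; positivity⟩)
    fun X hX a ha _ => br X hX (fun n => (a n).1) (fun n => (a n).2) ha (ε * (δ / 2))
      (by positivity)
  have u2 := uni h.cls.cl0 hP ε⁻¹ (h := fun n a => a.1 ≤ a.2 ∧ a.2 ≤ M n)
    (w := fun n a => ((F n).τ iQ (lev M c n) : ℝ) ≤ a.1 + ρ / ε * M n ∧
      (a.2 : ℝ) ≤ (F n).τ iQ (lev M c n) + ρ / ε * M n)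
    (p := fun n Y a => ch Y.Q (fun v => fl a.2 ((Y.gf (g n) (M n)).pt v)) (fun v =>
      (fl a.1 ((Y.gf (g n) (M n)).pt v), (Y.gf (g n) (M n)).zt v)) ≤
      3 * (1 - ε₀) * (a.2 - a.1) * lg + 3 * lg * (2 * (ε ^ 2 / 24) * (ρ / ε)) * M n +
        ε * (ρ / 4) * M n) (fun n => ⟨le_rfl, Nat.zero_le _⟩)
    fun X hX a ha hw => ((h.ex X hX (fun n => (a n).1) (fun n => (a n).2) ha).1.trans
      (num hM hC h.step hτ ha hw fun x y => wi (ρ / ε) x y ρ1.2.1)) (ε * (ρ / 4))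
      (by positivity)
  filter_upwards [u1, u2, half hM δ0, half hM ρ0, hτ.1 _ q2] with n k1 k2 m1 m2 m3 Y d
  have M0 : (0 : ℝ) ≤ M n := Nat.cast_nonneg _
  refine ⟨fun α β a b => ?_, fun lo hi a b e => ?_⟩
  · have := k1 Y d (α, β) ⟨a, (b.trans (rr n)).trans (mul_le_mul_of_nonneg_right ρ1.1 M0)⟩ trivial
    have t := mul_le_mul_of_nonneg_left m1 hε.le
    exact le_trans (sub_le_iff_le_add.1 this) (by linarith)
  · have e1 : (hi : ℝ) ≤ M n := by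
      linarith [rr n, mul_le_mul_of_nonneg_right ρ1.2.2 M0]
    have := k2 Y d (lo, hi) ⟨b, Nat.cast_le.1 e1⟩
      ⟨a.trans (add_le_add le_rfl (rr n)), e.trans (add_le_add le_rfl (rr n))⟩
    have t := mul_le_mul_of_nonneg_left m2 hε.le
    have s : 3 * lg * (2 * (ε ^ 2 / 24) * (ρ / ε)) * M n = lg * (ε * (ρ / 4) * M n) := by
      field_simp
      ring
    have s' := mul_le_of_le_one_left (show 0 ≤ ε * (ρ / 4) * M n by positivity) lg_lt_one.le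
    refine le_trans this ?_
    change _ ≤ 3 * (1 - ε₀) * (hi - lo) * lg + _
    linarith

end Pool.Agent.MP_5168f5_an.R4
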