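import Pool.Agent.MP_5168f5_an.R4.SpecO

/-! Optimality and fill on refinements, with explicit thresholds. -/

namespace Pool.Agent.MP_5168f5_an.R4

open H19 H17S H17F Filter

theorem rowORef2 : OfORef2 := by
  intro fb xa Ω K g M η ε ρ F P h hP hε hρ
  have hB := h.cls.bs _ hP
  have hM := hB.big
  have he : 0 < ε * ρ / 2 := by positivity
  choose δ1 p1 q1 using fun i : I5 => optU K (g.fin M) M (fun n => (g n).sh5) F (fun n _ => M n)
    (Mb.base P) i ε⁻¹ _ h.cls.cl0 hM h.opt hP he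
  obtain ⟨δ2, p2, q2⟩ := xa K (g.fin M) M 0 η (Mb.base P) ε⁻¹ _ h.cls.toCls0 hP
    ((kb.fatB _ _ M (fun n _ => M n) hB).2.1 0) he
  obtain ⟨δ3, p3, q3⟩ := fb K g M η F (Mb.base P) ε⁻¹ _ h hP he
  obtain ⟨i0, -, m0⟩ := Finset.exists_min_image Finset.univ δ1 Finset.univ_nonempty
  refine ⟨min (δ1 i0) (min δ2 δ3), lt_min (p1 _) (lt_min p2 p3), fun δ d0 d1 => ?_⟩
  filter_upwards [eventually_all.2 q1, q2, q3, hM.ev (2 / ρ)] with n a1 a2 a3 a4 Y hY
  have b0 : ∀ s : ℝ, δ ≤ s → (lev M δ n : ℝ) ≤ s * M n := fun s e =>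
    (lev_le' M d0.le n).trans (mul_le_mul_of_nonneg_right e (Nat.cast_nonneg _))
  have b1 := fun i => b0 _ ((d1.trans (min_le_left _ _)).trans (m0 i (Finset.mem_univ i)))
  have b2 := b0 _ ((d1.trans (min_le_right _ _)).trans (min_le_left _ _))
  have b3 := b0 _ ((d1.trans (min_le_right _ _)).trans (min_le_right _ _))
  have b4 : ε * ρ / 2 * M n ≤ ε * lev M ρ n := by
    rw [div_le_iff₀ hρ] at a4
    nlinarith [lt_lev M ρ n]
  refine ⟨fun Λ lam i d a a' τ l f k e1 e2 e3 => ?_, fun Λ lam a lo hi l e1 e2 e3 => ?_,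
    fun Λ lam G b k a a' lo hi l f c e1 e2 e3 e4 e5 e6 => ?_⟩
  · exact (a1 i Y.W Λ Y.Q Y.ρ lam d _ a a' τ hY (l.1.trans (b1 i)) (l.2.trans (b1 i))
      (Real.one_le_exp (Nat.cast_nonneg _)) (Real.exp_le_exp.2 (b1 i)) f k (by linarith) e2
      e3).trans (add_le_add le_rfl b4)
  · exact (a2 Y.W Λ Y.Q Y.ρ lam a lo hi hY (l.1.trans b2) (l.2.trans b2) e1 e2 e3).trans
      (add_le_add le_rfl b4)
  · exact (a3 Y.W Λ Y.Q Y.ρ lam G b k a a' lo hi hY (l.1.trans b3) (l.2.trans b3) f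
      (fun v hv => ⟨(c v hv).1.trans (Real.exp_le_exp.2 b3), (c v hv).2⟩) (by linarith) e2 e3 e4 e5
      e6).trans (add_le_add le_rfl b4)

end Pool.Agent.MP_5168f5_an.R4
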