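import Pool.Agent.MP_5168f5_an.R4.SpecO

/-! Almost every level is regular. -/

namespace Pool.Agent.MP_5168f5_an.R4

open H19 H17S H17F Filter MeasureTheory Set Topology

namespace ORegA

theorem tie (f g : ℝ → ℝ) : ∀ᵐ c : ℝ, DifferentiableAt ℝ f c → DifferentiableAt ℝ g c →
    f c = g c → deriv f c = deriv g c := by
  filter_upwards [(countable_setOfPred_isolated_right_within
    (s := {c : ℝ | f c = g c})).ae_notMem volume] with c h hf hg e
  by_contra q
  refine h ⟨e, ?_⟩
  have h1 := ((hf.hasDerivAt.sub hg.hasDerivAt).eventually_ne (c := 0) (sub_ne_zero.2 q)).filter_mono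
    (nhdsWithin_mono c (s := {c : ℝ | f c = g c} ∩ Ioi c) fun x hx => hx.2.ne')
  rw [← eventually_false_iff_eq_bot]
  filter_upwards [h1, self_mem_nhdsWithin] with x a b
  exact a (sub_eq_zero.2 b.1)

theorem le_at {f : ℝ → ℝ} {a c : ℝ} (hc : c < 1) (hf : DifferentiableAt ℝ f c)
    (h : ∀ c', c < c' → c' ≤ 1 → a ≤ f c') : a ≤ f c := by
  refine ge_of_tendsto (hf.continuousAt.tendsto.mono_left (nhdsWithin_le_nhds (s := Ioi c))) ?_
  filter_upwards [Ioc_mem_nhdsGT hc] with b hb using h b hb.1 hb.2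

end ORegA

open ORegA in
theorem rowOReg : OReg := by
  intro Ω K g M η ε₀ F h hη h0 h1
  filter_upwards [ae_all_iff.2 fun i => (h.mono i).ae_differentiableAt,
    ae_all_iff.2 fun i => ae_all_iff.2 fun i' => tie (pr M F i) (pr M F i'),
    ae_all_iff.2 fun i => tie (pr M F i) id] with c d t t0 c0 c1 q
  have uh : ∀ k, pr M F (iU k) c ≤ pr M F (iH k) c := fun k =>
    le_at c1 (d _) fun c' => h.uh k c c' c0.le
  have hq : ∀ k, pr M F (iH k) c ≤ pr M F iQ c := fun k =>
    le_at c1 (d _) fun c' => h.hq k c c' c0.le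
  refine ⟨d, hη, ⟨h0, h1⟩, fun i => ?_, fun i => ?_, uh, hq, fun i i' => t i i' (d i) (d i'),
    fun i e => (t0 i (d i) differentiableAt_id e).trans (deriv_id c)⟩
  · have v : pr M F i c < 1 := by
      rcases i with _ | ⟨_ | _, k⟩
      exacts [q, ((uh k).trans (hq k)).trans_lt q, (hq k).trans_lt q]
    refine K80.le_deriv (c₂ := min 1 (c + (1 - pr M F i c))) (lt_min c1 (by linarith)) (d i)
      fun b hb => ?_
    have := h.exp i c b c0.le hb.1.le (hb.2.trans (min_le_left _ _))
    rw [min_eq_right (by linarith [hb.2.trans (min_le_right _ _)])] at this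
    linarith
  · exact (le_min c1.le (by linarith [(h.bd i 0).1])).trans (h.exp i 0 c le_rfl c0.le c1.le)

end Pool.Agent.MP_5168f5_an.R4
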