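import Pool.Agent.MP_5168f5_an.R4.SpecO2

/-! Saturation: a deficient regular level gives a tangent member. -/

namespace Pool.Agent.MP_5168f5_an.R4

open H19 H17S H17F Filter MeasureTheory

theorem rowSatF2 : OfSatF2 := by
  intro hP hM hB hR hN hO h1 h2 hH hT Ω K g M η F φ ε₀ G e0 e1
  obtain ⟨X, hX⟩ := G.cls.ne
  have G' := hB K g M η F φ X G hX
  have b : (fun Y : Mb X.W => K (Y.map fun n => (X n).ρ)) (Mb.base X.P) := hX
  filter_upwards [hR _ _ M η ε₀ _ (hP _ _ M η _ G'.toGo) G.cls.pos e0 e1] with c hc c0 c1 c2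
  obtain ⟨d, ok⟩ := hc c0 c1 c2
  by_contra hb
  have key : ∀ k : ℕ, ∃ ρ δ : ℝ, ∀ᶠ n in UF, Fin0 (X.G g n) ((F n).pull5 (X n).ρ) (M n) (lev M δ n)
      (parAt M (fun n => (F n).pull5 (X n).ρ) η ε₀ c) (Mb.base X.P n) (lev M c n) (lev M ρ n)
      (1 / (k + 1)) := fun k => by
    have e : (0 : ℝ) < 1 / (k + 1) := by positivity
    obtain ⟨ρ₀, r0, a0⟩ := hN _ _ M η ε₀ c _ _ G'.toGo c0 c1 c2 d ok e
    obtain ⟨ρ₁, r1, a1⟩ := h1 _ _ M η ε₀ c _ _ φ X.P G' b hb (c0.trans_le (ok.cv iQ)) c2 e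
    have r := lt_min r0 r1
    obtain ⟨δ₀, d0, a2⟩ := h2 _ _ M η _ _ _ X.P G'.toGo b e r
    have s := lt_min d0 (half_pos (mul_pos e r))
    refine ⟨min ρ₀ ρ₁, min δ₀ (1 / (k + 1) * min ρ₀ ρ₁ / 2), ?_⟩
    filter_upwards [a0 _ _ s ((le_div_iff₀' two_pos).1 (min_le_right _ _))
      (min_le_left _ _), a1 _ _ r (min_le_right _ _) s, a2 _ s (min_le_left _ _),
      hO _ _ M η _ _ _ _ G'.toGo b e s] with n u1 u2 u3 u4
    exact ⟨u1, u4, fun Y y => ⟨u2 Y y, u3 Y y⟩⟩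
  choose ρ δ key using key
  obtain ⟨k, bk, hk⟩ := ks.spill _ key
  refine hT (X.G g) (fun n => (F n).pull5 (X n).ρ) M (fun n => lev M (δ (k n)) n) _ (lev M c)
    (fun n => lev M (ρ (k n)) n) (Mb.base X.P)
    (hH _ _ M η ε₀ c _ G'.toGo c0 c1 fun i => (d i).continuousAt) ⟨ok, fun ε hε => ?_⟩
  filter_upwards [hk, K31.small hε bk] with n u v
  exact hM _ _ _ _ _ _ _ _ _ _ (by positivity) v (u _ le_rfl)

end Pool.Agent.MP_5168f5_an.R4
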