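import Pool.Agent.MP_5168f5_an.R4.KitT
import Pool.Agent.MP_5168f5_an.R4.XKO
import Pool.Agent.MP_5168f5_an.R4.XOMono
import Pool.Agent.MP_5168f5_an.R4.XOCl
import Pool.Agent.MP_5168f5_an.R4.XOA1
import Pool.Agent.MP_5168f5_an.R4.XOA2
import Pool.Agent.MP_5168f5_an.R4.XOReg
import Pool.Agent.MP_5168f5_an.R4.XONum
import Pool.Agent.MP_5168f5_an.R4.XORef1
import Pool.Agent.MP_5168f5_an.R4.XORef2
import Pool.Agent.MP_5168f5_an.R4.XOOld
import Pool.Agent.MP_5168f5_an.R4.XOBase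
import Pool.Agent.MP_5168f5_an.R4.XOHH
import Pool.Agent.MP_5168f5_an.R4.XSatF

/-! Kakeya sets in four dimensions: tangent classes in the original coordinates, proved. -/

namespace Pool.Agent.MP_5168f5_an.R4

theorem ko : KO := rowKO
theorem oCl : OClA := rowOCl rowOMono
theorem oA1 : OA1A := rowOA1 ko oCl
theorem oA2 : OA2A := rowOA2 oA1

theorem satF_of (h : ThmU) (h' : NoTan2) : SatF :=
  rowSatF2 prK rowOMono rowOBase rowOReg (rowONum prK) rowOOld (rowORef1 prK)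
    (rowORef2 (fbu_of h) xau) (rowOHH prK) h'

end Pool.Agent.MP_5168f5_an.R4
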