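import Pool.Agent.MP_5168f5_an.R4.SpecTB
import Pool.Agent.MP_5168f5_an.R4.KitO

/-! Closure properties of the triples of the tower. -/

namespace Pool.Agent.MP_5168f5_an.R4.T8

open H19 H17S H17F Filter Matrix Tan

namespace CanClx

variable {Ω : ℕ → Type}

theorem can_iff (x : Sx Ω) (σ : ∀ n, IxT (Ω n)) (r : ℕ → ℕ) (X : Mb Ω) : x.Can σ r X ↔
    (Sm r fun n => ((σ n).2.1 : ℝ)) ∧ ((∀ᶠ n in UF, Fn (X n).Q (fun v => (σ n).2.2 ((X n).ρ v))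
      fun v => (x.F n).S (σ n).1 ((X n).ρ v)) ∧ ∀ᶠ n in UF, ∀ v ∈ (X n).Q.S,
      (2 : ℝ) ^ ((x.F n).τ (iH (!x.k)) (σ n).1 - (σ n).2.1) *
        |gO (x.F n) x.k (σ n).1 ((X n).ρ v) - (σ n).2.2 ((X n).ρ v)| ≤
        2 ^ (x.F n).τ (iU x.k) (σ n).1) ∧
    ∃ L, Sub x.m L ∧ ∀ᶠ n in UF, ∀ v ∈ (X n).Q.S, |(σ n).2.2 ((X n).ρ v)| ≤ L n :=
  ⟨fun h => ⟨h.sm, eventually_and.1 h.fn, h.bd⟩, fun h => ⟨h.1, h.2.1.1.and h.2.1.2, h.2.2⟩⟩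

theorem cl_bd (m : ℕ → ℕ) (φ : ∀ n, Ω n → ℝ) : Cl fun X : Mb Ω =>
    ∃ L, Sub m L ∧ ∀ᶠ n in UF, ∀ v ∈ (X n).Q.S, |φ n ((X n).ρ v)| ≤ L n :=
  ⟨⟨fun X X' ⟨L, a, b⟩ c => ⟨L, a, (kc1.sure fun n ω => |φ n ω| ≤ L n).law X X' b c⟩,
    fun X E ⟨L, a, b⟩ c => ⟨L, a, (kc1.sure fun n ω => |φ n ω| ≤ L n).cond X E b c⟩⟩,
    cf_sub (fun n (_ : Ext (Ω n)) => m n) fun n y L => ∀ v ∈ y.Q.S, |φ n (y.ρ v)| ≤ L⟩

theorem le_om {r r' : ℕ → ℕ} {f g : ℕ → ℝ} (e : OM r' r) (h : Le r f g) : Le r' f g := by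
  obtain ⟨C, e⟩ := e
  intro ε hε
  filter_upwards [h (ε / (C + 1)) (by positivity), e] with n a b
  have h1 : (r n : ℝ) ≤ (C + 1) * r' n := by
    exact_mod_cast b.trans (Nat.mul_le_mul_right _ C.le_succ)
  have h2 := mul_le_mul_of_nonneg_left h1 (show 0 ≤ ε / (C + 1) by positivity)
  rw [← mul_assoc, div_mul_cancel₀ _ (by positivity)] at h2
  linarith

end CanClx

open CanClx

theorem rowCanCl : CanCl where
  cf := fun {Ω} x Nm h =>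
    ((oCl x.g x.F x.M x.m x.p).cf.comp
      fun n (y : Ext (Ω n) × IxT (Ω n) × ℕ) => (y.1, y.2.1.1, y.2.2)).and
    ((((cf_sm (fun n (y : Ext (Ω n) × IxT (Ω n) × ℕ) => y.2.2) fun _ y => (y.2.1.2.1 : ℝ)).and
      (((cf_ev fun n (y : Ext (Ω n) × IxT (Ω n) × ℕ) => Fn y.1.Q (fun v => y.2.1.2.2 (y.1.ρ v))
        fun v => (x.F n).S y.2.1.1 (y.1.ρ v)).and
        (cf_ev fun n (y : Ext (Ω n) × IxT (Ω n) × ℕ) => ∀ v ∈ y.1.Q.S,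
          (2 : ℝ) ^ ((x.F n).τ (iH (!x.k)) y.2.1.1 - y.2.1.2.1) *
            |gO (x.F n) x.k y.2.1.1 (y.1.ρ v) - y.2.1.2.2 (y.1.ρ v)| ≤
            2 ^ (x.F n).τ (iU x.k) y.2.1.1)).and
      (cf_sub (fun n (_ : Ext (Ω n) × IxT (Ω n) × ℕ) => x.m n)
        fun _ y L => ∀ v ∈ y.1.Q.S, |y.2.1.2.2 (y.1.ρ v)| ≤ L))).congr
      fun y => can_iff x (fun n => (y n).2.1) (fun n => (y n).2.2) fun n => (y n).1).and
    (h.cf.comp fun n (y : Ext (Ω n) × IxT (Ω n) × ℕ) => (y.2.1.1, y.2.2)))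
  cl := fun x _ σ r => ((oCl x.g x.F x.M x.m x.p).cl _ r).and
    ((((cl_const _).and (((kc1.fn (fun n => (σ n).2.2) fun n => (x.F n).S (σ n).1).and
      (kc1.sure fun n ω => (2 : ℝ) ^ ((x.F n).τ (iH (!x.k)) (σ n).1 - (σ n).2.1) *
        |gO (x.F n) x.k (σ n).1 ω - (σ n).2.2 ω| ≤ 2 ^ (x.F n).τ (iU x.k) (σ n).1)).and
      (cl_bd x.m fun n => (σ n).2.2))).congr (can_iff x σ r)).and (cl_const _))
  unit := fun x _ _ r r' X h b e e' => ⟨(oCl x.g x.F x.M x.m x.p).unit _ r r' X b.1 e e',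
    ⟨le_om e' b.2.1.sm, b.2.1.fn, b.2.1.bd⟩, h.unit _ r r' e e' b.2.2⟩
  init := fun x j r X h => by
    obtain ⟨L, hL, e⟩ := (oA1 x.g x.F x.M x.m x.p j r X h).fam.alg
    refine ⟨Le.of_le fun n => by simp, e.mono fun n u => ⟨fun a ha b hb w =>
      congrArg (fun d : Pl => d.2.2 (co x.k)) (u.fd (some (true, !x.k)) (j n) a ha b hb w),
      fun v _ => by simp⟩, L, hL, e.mono fun n u v hv => ?_⟩
    exact ((u.fit (some (true, !x.k)) (j n) v hv).2.1 (co x.k)).1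

end Pool.Agent.MP_5168f5_an.R4.T8
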