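import Pool.Agent.MP_5168f5_an.R4.SpecN

/-! Labels on members of a broad class. -/

namespace Pool.Agent.MP_5168f5_an.R4

open H19 H17S H17F Filter

theorem rowNLof : OfNLof := by
  intro kb sep N Ω Λ K g M m j i η X lam h hX lab fr hj
  have bs := h.bs X hX
  obtain ⟨L, a, b⟩ := bs.bx
  obtain ⟨L', a', b'⟩ := sep K g M i η X (fun n v => (lam n v, (X.G g n).y v)) h hX
    (Le.trans (Le.of_le fun n => mi_mono' (Fn.rfl _)) lab.l)
  refine ⟨bs.big.frac fr, ⟨L, a.frac fr, b⟩, ⟨Le.frac lab.h fr, Le.frac lab.l fr⟩, ?_,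
    L', a'.frac fr, b'⟩
  refine Le.trans (Le.of_le fun n => ?_) ((kb.hgt X.P (X.G g) M j j (fun n => j n + m n) lam bs
    lab.h fun n => ⟨le_rfl, Nat.le_add_right _ _, hj n⟩).frac fr)
  rw [Nat.cast_add, add_sub_cancel_left]

end Pool.Agent.MP_5168f5_an.R4
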