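import Pool.Agent.MP_5168f5_an.R4.SpecN

/-! Normal form of a hyperplane. -/

namespace Pool.Agent.MP_5168f5_an.R4

open H19 H17S H17F Filter

namespace NNormPA

variable {N : ℕ}

/-- The size of the linear part. -/
noncomputable def sz (d : ℝ × ℝ × V N) : ℝ := |d.2.1| + ∑ i, |d.2.2 i|

theorem le_sz1 (d : ℝ × ℝ × V N) : |d.2.1| ≤ sz d :=
  le_add_of_nonneg_right (Finset.sum_nonneg fun _ _ => abs_nonneg _)

theorem le_sz2 (d : ℝ × ℝ × V N) (i : Fin N) : |d.2.2 i| ≤ sz d :=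
  (Finset.single_le_sum (f := fun i => |d.2.2 i|) (fun _ _ => abs_nonneg _)
    (Finset.mem_univ i)).trans (le_add_of_nonneg_left (abs_nonneg _))

theorem abs_sum {s : Finset (Fin N)} {D x : V N} {B : ℝ} (h : ∀ i, |x i| ≤ B) :
    |∑ i ∈ s, D i * x i| ≤ B * ∑ i ∈ s, |D i| := by
  rw [Finset.mul_sum]
  refine (Finset.abs_sum_le_sum_abs _ _).trans (Finset.sum_le_sum fun i _ => ?_)
  rw [abs_mul, mul_comm]
  exact mul_le_mul_of_nonneg_right (h i) (abs_nonneg _)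

theorem two {d : ℝ × ℝ × V N} {e e' : V N} {i₀ : Fin N} {A B β : ℝ} (hA : 1 ≤ A) (hB : 1 ≤ B)
    (he : ∀ i, |e i| ≤ A) (he' : ∀ i, |e' i| ≤ A) (hs : 1 ≤ B * |e i₀ - e' i₀|) (h0 : 0 < sz d)
    (h : |d.2.1 + ∑ i, d.2.2 i * e i| ≤ β * sz d) (h' : |d.2.1 + ∑ i, d.2.2 i * e' i| ≤ β * sz d)
    (hβ : 10 * A * B * β ≤ 1) : ∃ k, k ≠ i₀ ∧ sz d ≤ 12 * (N + 1) * (A * A * B) * |d.2.2 k| := by
  have s0 := Finset.add_sum_erase _ (fun i => |d.2.2 i|) (Finset.mem_univ i₀)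
  have a0 := abs_sum (s := Finset.univ) (D := d.2.2) he
  have a1 := abs_sum (s := Finset.univ.erase i₀) (D := d.2.2) he
  have a2 := abs_sum (s := Finset.univ.erase i₀) (D := d.2.2) he'
  have b0 : |d.2.1| ≤ β * sz d + A * ∑ i, |d.2.2 i| := by
    have := abs_sub (d.2.1 + ∑ i, d.2.2 i * e i) (∑ i, d.2.2 i * e i)
    rw [add_sub_cancel_right] at this
    linarith
  rw [← Finset.add_sum_erase _ _ (Finset.mem_univ i₀)] at h h'
  have n0 : 0 ≤ ∑ i ∈ Finset.univ.erase i₀, |d.2.2 i| := Finset.sum_nonneg fun _ _ => abs_nonneg _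
  have b1 : |d.2.2 i₀| * |e i₀ - e' i₀| ≤
      2 * (β * sz d) + 2 * (A * ∑ i ∈ Finset.univ.erase i₀, |d.2.2 i|) := by
    rw [← abs_mul, mul_sub]
    rw [abs_le] at h h' a1 a2 ⊢
    constructor <;> linarith [h.1, h.2, h'.1, h'.2, a1.1, a1.2, a2.1, a2.2]
  have g0 : 0 ≤ β * sz d := (abs_nonneg _).trans h
  have key : sz d ≤ 12 * (A * A * B) * ∑ i ∈ Finset.univ.erase i₀, |d.2.2 i| := by
    have e0 : sz d = |d.2.1| + ∑ i, |d.2.2 i| := rfl
    have b2 := mul_le_mul_of_nonneg_right hβ h0.le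
    rw [← s0] at e0 b0
    generalize ∑ i ∈ Finset.univ.erase i₀, |d.2.2 i| = ν at *
    have p0 := abs_nonneg (d.2.2 i₀)
    have b3 : |d.2.2 i₀| ≤ B * (2 * (β * sz d) + 2 * (A * ν)) :=
      (le_mul_of_one_le_right p0 hs).trans ((mul_left_comm _ _ _).le.trans
        (mul_le_mul_of_nonneg_left b1 (by linarith)))
    have AB : 1 ≤ A * B := one_le_mul_of_one_le_of_one_le hA hB
    have b4 := mul_le_mul_of_nonneg_left b3 (by linarith : 0 ≤ A)
    have b5 := le_mul_of_one_le_left (add_nonneg p0 n0) hA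
    have b6 := le_mul_of_one_le_left g0 AB
    have b7 := le_mul_of_one_le_left (mul_nonneg (by linarith : 0 ≤ A) n0) AB
    linarith
  have c0 : 0 ≤ 12 * (A * A * B) := by positivity
  obtain ⟨k, hk, hm⟩ := Finset.exists_max_image (Finset.univ.erase i₀) (fun i => |d.2.2 i|) (by
    rw [Finset.nonempty_iff_ne_empty]
    intro z
    rw [z, Finset.sum_empty, mul_zero] at key
    linarith)
  refine ⟨k, Finset.ne_of_mem_erase hk, key.trans ?_⟩
  have c1 := Finset.sum_le_card_nsmul _ _ _ hm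
  have c2 : ((Finset.univ.erase i₀).card : ℝ) ≤ N + 1 := by
    exact_mod_cast (Finset.card_le_univ _).trans (by simp)
  rw [nsmul_eq_mul] at c1
  exact (mul_le_mul_of_nonneg_left (c1.trans (mul_le_mul_of_nonneg_right c2 (abs_nonneg _)))
    c0).trans_eq (by ring)

theorem graph {D : V N} {k : Fin N} (h : D k ≠ 0) (x : V N) :
    ∑ i, (if i = k then 0 else -D i / D k) * x i = x k - (∑ i, D i * x i) / D k := by
  rw [Finset.sum_div, eq_sub_iff_add_eq, ← Finset.sum_add_distrib,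
    Finset.sum_eq_single k (fun i _ e => by rw [if_neg e]; ring) (by simp), if_pos rfl]
  field_simp
  ring

theorem quo {x c C B μ : ℝ} (h0 : 0 < μ) (hB : 0 ≤ B) (h1 : μ ≤ C * |c|) (h : |x| ≤ B * μ) :
    |x / c| ≤ C * B := by
  have c0 : 0 < |c| := abs_pos.2 fun z => by simp [z] at h1; linarith
  rw [abs_div, div_le_iff₀ c0]
  exact h.trans ((mul_le_mul_of_nonneg_left h1 hB).trans_eq (by ring))

end NNormPA

open NNormPA

theorem rowNormP : OfNormP := by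
  classical
  intro hPC hW hKP N Ω Λ P g m j τ lam i₀ T d L nl hL hev hE
  obtain ⟨A, hA, bx⟩ := nl.bx
  obtain ⟨B, hB, sep⟩ := nl.sep
  obtain ⟨L1, h1, win⟩ := hW P g m j lam (fun n ω => (d n ω).1 + ∑ i, (d n ω).2.2 i * (g n).a ω i)
    (fun n ω => (d n ω).2.1 + ∑ i, (d n ω).2.2 i * (g n).e ω i) (fun _ _ => 0) nl.big nl.hgt
    (hev.mono fun n h a ha b hb e => by
      simp only [Geo.ln, Prod.mk.injEq] at e
      simp only [h.2 a ha b hb e.2.2, e.2.1.1, e.2.1.2.1])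
  obtain ⟨E1, hE1⟩ : ∃ E1 : ∀ n, Ω n → Prop, E1 = fun n ω => (∀ i, i ∉ T → (d n ω).2.2 i = 0) ∧
      0 < sz (d n ω) ∧ |(d n ω).1 + (d n ω).2.1 * (g n).z ω + ∑ i, (d n ω).2.2 i * (g n).pt ω i| ≤
        L n / 2 ^ τ n * sz (d n ω) ∧ |(d n ω).2.1 + ∑ i, (d n ω).2.2 i * (g n).e ω i| ≤
        L1 n * 2 ^ j n * (L n / 2 ^ τ n) * sz (d n ω) := ⟨_, rfl⟩
  have p1 : Pos P E1 := (hE.and win).mono (Eventually.of_forall fun n ω _ h => by
    obtain ⟨⟨a1, c, a2, a3, a4⟩, a5, -⟩ := h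
    have c1 : |c| ≤ sz (d n ω) := by
      rcases a2 with rfl | ⟨i, rfl⟩
      exacts [le_sz1 _, le_sz2 _ i]
    have a6 := a4.trans ((mul_div_right_comm _ _ _).le.trans
      (mul_le_mul_of_nonneg_left c1 (div_nonneg (hL.pos n).le (by positivity))))
    rw [hE1]
    refine ⟨a1, (abs_pos.2 a3).trans_le c1, a6, ?_⟩
    rw [mul_assoc]
    refine le_trans ?_ (mul_le_mul_of_nonneg_left a6 (mul_nonneg (h1.pos n).le (by positivity)))
    rw [mul_zero, zero_mul, add_zero, zero_mul, add_zero] at a5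
    refine a5.trans_eq ?_
    congr 2
    simp only [Geo.pt, Geo.lt, Pi.add_apply, Pi.smul_apply, smul_eq_mul, mul_add, add_mul,
      Finset.sum_add_distrib, Finset.sum_mul]
    rw [Finset.sum_congr rfl fun i _ => show (d n ω).2.2 i * ((g n).z ω * (g n).e ω i) =
      (d n ω).2.2 i * (g n).e ω i * (g n).z ω by ring]
    ring)
  obtain ⟨C, hC⟩ : ∃ C : ℕ → ℝ, C = fun n => 12 * (N + 1) * (A n * A n * B n) := ⟨_, rfl⟩
  have sC : Sub m C := hC ▸ ((hA.mul hA).mul hB).const_mul nl.big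
    (by linarith [Nat.cast_nonneg (α := ℝ) N])
  have sm := ((((hA.const_mul nl.big (C := 10) (by norm_num)).mul hB).mul h1).mul hL).2 (1 / 2)
    (by norm_num)
  have p2 : Pos P fun n ω => E1 n ω ∧ ∃ k, k ≠ i₀ ∧ sz (d n ω) ≤ C n * |(d n ω).2.2 k| := by
    refine (K31.dnS_law (Eventually.of_forall fun n => kg.fst (P n) (P n) _ _)).pos
      (((hPC P (fun n ω => (lam n ω, (g n).y ω)) E1 p1).and sep).mono ?_)
    filter_upwards [hev, bx, sm] with n e1 e2 e3 v hv h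
    obtain ⟨m1, m2, m3⟩ := (kg.mem _ _ _ _ v (Law.rfl _)).1 hv
    refine ⟨h.1.1, ?_⟩
    rw [hE1] at h
    obtain ⟨⟨⟨-, a1, -, a2⟩, -, -, -, a3⟩, a4⟩ := h
    rw [e1.2 _ m2 _ m1 (congrArg Prod.fst m3)] at a3
    rw [hC]
    refine two (hA.1 n) (hB.1 n) (fun i => ((e2.bd _ m1).1 i).2) (fun i => ((e2.bd _ m2).1 i).2)
      a4 a1 a2 a3 ?_
    have t1 : (2 : ℝ) ^ m n * 2 ^ j n ≤ 2 ^ τ n := by
      rw [← pow_add]
      exact pow_le_pow_right₀ one_le_two (by omega)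
    rw [one_div, ← div_eq_inv_mul] at e3
    have t2 := (mul_le_mul_of_nonneg_right (e3.trans (exp_le_two_pow _))
      (by positivity : (0 : ℝ) ≤ 2 ^ j n)).trans t1
    rw [← mul_div_assoc, ← mul_div_assoc, div_le_one (by positivity)]
    linarith
  have : Nonempty (Fin N) := ⟨i₀⟩
  obtain ⟨k, p3⟩ := ks.pig P _ (fun n ω => Classical.epsilon fun k =>
    k ≠ i₀ ∧ sz (d n ω) ≤ C n * |(d n ω).2.2 k|) p2
  have p4 : Pos P fun n ω => E1 n ω ∧ k ≠ i₀ ∧ sz (d n ω) ≤ C n * |(d n ω).2.2 k| :=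
    p3.mono (Eventually.of_forall fun n ω _ h => ⟨h.1.1, h.2 ▸ Classical.epsilon_spec h.1.2⟩)
  have ne : ∀ n ω, 0 < sz (d n ω) → sz (d n ω) ≤ C n * |(d n ω).2.2 k| → (d n ω).2.2 k ≠ 0 :=
    fun n ω a b z => by
      rw [z, abs_zero, mul_zero] at b
      linarith
  rw [hE1] at p4
  obtain ⟨n0, ω0, -, b1, b2, b3⟩ := p4.ex.exists
  refine ⟨k, by_contra fun z => ne _ _ b1.2.1 b3 (b1.1 k z), b2, _, p4, Λ, lam,
    fun n ω => (-(d n ω).1 / (d n ω).2.2 k, -(d n ω).2.1 / (d n ω).2.2 k,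
      fun i => if i = k then 0 else -(d n ω).2.2 i / (d n ω).2.2 k),
    fun n => 2 * (C n * (L1 n * L n)),
    ⟨(K31.dnS_cE p4).sm_mi nl.big nl.lab.h, (K31.dnS_cE p4).sm_mi nl.big nl.lab.l⟩,
    (sC.mul (h1.mul hL)).const_mul nl.big one_le_two, ?_⟩
  filter_upwards [hev, p4.sure] with n e1 e2
  refine ⟨fn_cE (fun a ha b hb e => by beta_reduce; rw [e1.2 a ha b hb e]) _, fun ω hω => ?_⟩
  obtain ⟨-, ⟨a1, a2, a3, a4⟩, -, a5⟩ := e2 ω hω
  have k0 := ne n ω a2 a5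
  have l1 := one_le_mul_of_one_le_of_one_le (h1.1 n) (hL.1 n)
  have q : ∀ x : ℝ, |x| ≤ sz (d n ω) → |-x / (d n ω).2.2 k| ≤ C n * (L1 n * L n) := fun x hx =>
    quo a2 (by linarith) a5 (by rw [abs_neg]; exact hx.trans (le_mul_of_one_le_left a2.le l1))
  have L0 := hL.pos n
  have L2 := h1.pos n
  refine (hKP.iff (g n) _ k _ _ ω _ _).2 (q _ (le_sz1 _)) (fun i => ⟨?_, fun hi => ?_⟩) ?_ ?_
  · dsimp only
    split_ifs
    · rw [abs_zero]
      exact mul_nonneg (sC.pos n).le (by linarith)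
    · exact q _ (le_sz2 _ i)
  · dsimp only
    split_ifs with e
    · rfl
    · rw [a1 i fun z => hi (Finset.mem_erase.2 ⟨e, z⟩), neg_zero, zero_div]
  · refine le_trans (le_of_eq ?_) ((quo a2 (by positivity) a5 a3).trans ?_)
    · rw [graph k0]
      congr 1
      ring
    · rw [mul_div_assoc]
      exact mul_le_mul_of_nonneg_left (div_le_div_of_nonneg_right
        (le_mul_of_one_le_left L0.le (h1.1 n)) (by positivity)) (sC.pos n).le
  · refine le_trans (le_of_eq ?_) ((quo a2 (by positivity) a5 a4).trans_eq (by ring))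
    rw [graph k0]
    congr 1
    ring

end Pool.Agent.MP_5168f5_an.R4
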