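import Pool.Agent.MP_5168f5_an.R4.SpecN

/-! Normal form of quadric labels. -/

namespace Pool.Agent.MP_5168f5_an.R4

open H19 H17S H17F Filter

namespace NNormQA

theorem pf_smulA (c : ℝ) (A : Qd) (Y W : V 5) : pf (c • A) Y W = c * pf A Y W := by
  simp only [pf, Matrix.smul_mulVec, dotProduct_smul, smul_eq_mul]; ring

theorem qf_smulA (c : ℝ) (A : Qd) (Y : V 5) : qf (c • A) Y = c * qf A Y := by
  simp only [qf, Matrix.smul_mulVec, dotProduct_smul, smul_eq_mul]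

theorem pf_vec (A : Qd) (Y : V 5) (s : ℝ) (e : V 3) : pf A Y (vec s e) =
    s * pf A Y (bv 1) + e 0 * pf A Y (bv 2) + e 1 * pf A Y (bv 3) + e 2 * pf A Y (bv 4) := by
  rw [vec_eq]; simp only [pf_add_right, pf_smul_right]

theorem mul_le {a b x y : ℝ} (h : |a| ≤ x) (h' : |b| ≤ y) : |a * b| ≤ x * y := by
  rw [abs_mul]; exact mul_le_mul h h' (abs_nonneg _) ((abs_nonneg _).trans h)

theorem shift (A : Qd) (z ε H : ℝ) (p q : V 3) (l : Fin 4) (h : ∀ i, |q i - p i| ≤ ε)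
    (hH : ∀ i l : Fin 4, |pf A (bv i.succ) (bv l.succ)| ≤ H) :
    |pf A (hom z q) (bv l.succ) - pf A (hom z p) (bv l.succ)| ≤ 3 * (ε * H) := by
  have e : hom z q = hom z p + vec 0 (q - p) := by rw [← hom_add]; simp
  rw [e, pf_add_left, add_sub_cancel_left, pf_comm, pf_vec]
  have h2 := abs_le.1 (mul_le (h 0) (hH l 1))
  have h3 := abs_le.1 (mul_le (h 1) (hH l 2))
  have h4 := abs_le.1 (mul_le (h 2) (hH l 3))
  simp only [Pi.sub_apply]
  exact abs_le.2 ⟨by linarith! [h2.1, h3.1, h4.1], by linarith! [h2.2, h3.2, h4.2]⟩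

theorem alg {a b c d a' b' c' d' x y w x' y' w' D U : ℝ} (hU : 1 ≤ U) (hc : |c| ≤ D)
    (hd : |d| ≤ D) (ea : |a' - a| ≤ U * D) (eb : |b' - b| ≤ U * D) (ec : |c' - c| ≤ U * D)
    (ed : |d' - d| ≤ U * D) (hx : |x| ≤ U) (hy : |y| ≤ U) (hw : |w| ≤ U) (hx' : |x'| ≤ U)
    (hy' : |y'| ≤ U) (hw' : |w'| ≤ U) (h : |1 * a + x * b + y * c + w * d| ≤ U * D)
    (h' : |1 * a' + x' * b' + y' * c' + w' * d'| ≤ U * D) (s : 1 ≤ U * |x - x'|) :
    |a| ≤ 13 * U ^ 4 * D ∧ |b| ≤ 13 * U ^ 4 * D := by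
  have hD : 0 ≤ D := (abs_nonneg _).trans hc
  have u1 : U * D ≤ U * (U * D) := le_mul_of_one_le_left (by positivity) hU
  have k1 := abs_le.1 (mul_le hx' eb)
  have k2 := abs_le.1 (mul_le hy' ec)
  have k3 := abs_le.1 (mul_le hw' ed)
  have k4 := abs_le.1 (mul_le hy hc)
  have k5 := abs_le.1 (mul_le hw hd)
  have k6 := abs_le.1 (mul_le hy' hc)
  have k7 := abs_le.1 (mul_le hw' hd)
  have k8 := abs_le.1 h
  have k9 := abs_le.1 h'
  have k0 := abs_le.1 ea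
  have m1 : |(x - x') * b| ≤ 10 * (U * (U * D)) :=
    abs_le.2 ⟨by linarith [k1.1, k1.2, k2.1, k2.2, k3.1, k3.2], by linarith [k1.1, k1.2, k2.1, k2.2, k3.1, k3.2]⟩
  have m2 : |b| ≤ U * (10 * (U * (U * D))) := by
    rw [abs_mul] at m1
    calc |b| ≤ U * |x - x'| * |b| := le_mul_of_one_le_left (abs_nonneg _) s
      _ = U * (|x - x'| * |b|) := mul_assoc _ _ _
      _ ≤ _ := mul_le_mul_of_nonneg_left m1 (by positivity)
  have m3 := abs_le.1 (mul_le hx m2)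
  have u2 : U * (U * D) ≤ U * (U * (U * D)) := le_mul_of_one_le_left (by positivity) hU
  have u3 : U * (U * (U * D)) ≤ U * (U * (U * (U * D))) := le_mul_of_one_le_left (by positivity) hU
  have u4 : 0 ≤ U * D := by positivity
  exact ⟨abs_le.2 ⟨by linarith, by linarith⟩, by linarith⟩

/-- The gradient at the first copy is controlled by its last two coordinates. -/
theorem grad (A : Qd) (z U T : ℝ) (p q e e' : V 3) (hU : 1 ≤ U) (hT : 0 < T)
    (h : ∀ i, |q i - p i| ≤ U / T)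
    (hH : ∀ i l : Fin 4, 128 * |pf A (bv i.succ) (bv l.succ)| ≤ gy A (hom z p) * T)
    (he : ∀ i, |e i| ≤ U) (he' : ∀ i, |e' i| ≤ U)
    (h1 : |pf A (hom z p) (vec 1 e)| ≤ U * gy A (hom z p))
    (h2 : |pf A (hom z q) (vec 1 e')| ≤ U * gy A (hom z q)) (s : 1 ≤ U * |e 0 - e' 0|)
    (i : Fin 4) : |pf A (hom z p) (bv i.succ)| ≤ 13 * (2 * U ^ 2) ^ 4 * gy A (hom z p) := by
  have c3 : |pf A (hom z p) (bv 3)| ≤ gy A (hom z p) := le_max_left _ _
  have c4 : |pf A (hom z p) (bv 4)| ≤ gy A (hom z p) := le_max_right _ _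
  have hD : 0 ≤ gy A (hom z p) := (abs_nonneg _).trans c3
  have u0 : U ≤ 2 * U ^ 2 := by nlinarith
  have u1 : 1 ≤ 2 * U ^ 2 := hU.trans u0
  have u2 := mul_le_mul_of_nonneg_right u0 hD
  have k : ∀ l : Fin 4, |pf A (hom z q) (bv l.succ) - pf A (hom z p) (bv l.succ)| ≤
      U * gy A (hom z p) := fun l => by
    refine (shift A z _ (gy A (hom z p) * T / 128) p q l h fun i l => by
      linarith [hH i l]).trans ?_
    have : U / T * (gy A (hom z p) * T / 128) = U * gy A (hom z p) / 128 := by field_simp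
    rw [this]
    have : 0 ≤ U * gy A (hom z p) := by positivity
    linarith
  have u3 : gy A (hom z p) ≤ U * gy A (hom z p) := le_mul_of_one_le_left hD hU
  have d2 : gy A (hom z q) ≤ 2 * (U * gy A (hom z p)) := by
    have a3 := abs_le.1 (k 2)
    have a4 := abs_le.1 (k 3)
    have b3 := abs_le.1 c3
    have b4 := abs_le.1 c4
    exact max_le (abs_le.2 ⟨by linarith! [a3.1], by linarith! [a3.2]⟩)
      (abs_le.2 ⟨by linarith! [a4.1], by linarith! [a4.2]⟩)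
  rw [pf_vec] at h1 h2
  have h3 := h2.trans (mul_le_mul_of_nonneg_left d2 (by positivity))
  have r := alg u1 c3 c4 ((k 0).trans u2) ((k 1).trans u2) ((k 2).trans u2) ((k 3).trans u2)
    ((he 0).trans u0) ((he 1).trans u0) ((he 2).trans u0) ((he' 0).trans u0) ((he' 1).trans u0)
    ((he' 2).trans u0) (h1.trans u2) (h3.trans (le_of_eq (by ring)))
    (s.trans (mul_le_mul_of_nonneg_right u0 (abs_nonneg _)))
  have u4 : gy A (hom z p) ≤ 13 * (2 * U ^ 2) ^ 4 * gy A (hom z p) :=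
    le_mul_of_one_le_left hD (by linarith [one_le_pow₀ (n := 4) u1])
  fin_cases i
  exacts [r.1, r.2, c3.trans u4, c4.trans u4]

/-- The dyadic class of a number between `2^{-k}` and `2^k`. -/
theorem cls (k : ℕ) (D : ℝ) : ∃ i : ℕ, 1 ≤ 2 ^ k * D → D ≤ 2 ^ k →
    i ≤ 2 * k ∧ 1 ≤ 2 ^ k / 2 ^ i * D ∧ 2 ^ k / 2 ^ i * D ≤ 2 := by
  by_cases h : 1 ≤ 2 ^ k * D
  · obtain ⟨i, h1, h2⟩ := exists_nat_pow_near h one_lt_two
    refine ⟨i, fun _ h3 => ⟨?_, ?_, ?_⟩⟩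
    · refine (pow_le_pow_iff_right₀ (one_lt_two (α := ℝ))).1 (h1.trans ?_)
      rw [two_mul, pow_add]
      exact mul_le_mul_of_nonneg_left h3 (by positivity)
    · rwa [div_mul_eq_mul_div, le_div_iff₀ (by positivity), one_mul]
    · rw [div_mul_eq_mul_div, div_le_iff₀ (by positivity), ← pow_succ']
      exact h2.le
  · exact ⟨0, fun k => absurd k h⟩

/-- The rescaled quadric fits. -/
theorem fit {Ω : Type} (g : Geo 3 Ω) (A : Qd) (ω : Ω) (j τ : ℕ) (c U C : ℝ) (hc : 0 < c)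
    (hU : 1 ≤ U) (hC : U ≤ C) (h1 : 1 ≤ c * gy A (g.hp ω)) (h2 : c * gy A (g.hp ω) ≤ 2)
    (hF : |qf A (g.hp ω)| ≤ U * gy A (g.hp ω) / 2 ^ τ)
    (hH : ∀ i l : Fin 4, 128 * |pf A (bv i.succ) (bv l.succ)| ≤ gy A (g.hp ω) * 2 ^ τ)
    (hG : ∀ i : Fin 4, |pf A (g.hp ω) (bv i.succ)| ≤ C * gy A (g.hp ω))
    (hW : ∀ t : ℝ, fl1 j t = fl1 j (g.z ω) →
      |qf A (hom t (g.lt t ω))| ≤ U * |qf A (g.hp ω)| ∧
      ∀ i, |pf A (hom t (g.lt t ω)) (bv i)| ≤ U * |pf A (g.hp ω) (bv i)|) :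
    g.qd.fit (2 * (U * C)) (c • A) ω j τ := by
  have u0 : 0 ≤ U := by positivity
  have c0 : 0 ≤ C := u0.trans hC
  have t0 : (0 : ℝ) < 2 ^ τ := by positivity
  refine ⟨fun i l => ?_, ?_, fun t ht => ⟨?_, fun i => ?_⟩⟩
  · rw [pf_smulA, abs_mul, abs_of_pos hc]
    have a := mul_le_mul_of_nonneg_left (hH i l) hc.le
    have b := mul_le_mul_of_nonneg_right h2 t0.le
    linarith
  · simp only [pf_smulA, abs_mul, abs_of_pos hc]
    rcases max_choice |pf A (g.hp ω) (bv 3)| |pf A (g.hp ω) (bv 4)| with e | e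
    · exact Or.inl (h1.trans_eq (congrArg (c * ·) e))
    · exact Or.inr (h1.trans_eq (congrArg (c * ·) e))
  · rw [qf_smulA, abs_mul, abs_of_pos hc]
    have a := mul_le_mul_of_nonneg_left
      ((hW t ht).1.trans (mul_le_mul_of_nonneg_left hF u0)) hc.le
    refine a.trans ?_
    rw [← mul_div_assoc, ← mul_div_assoc]
    refine div_le_div_of_nonneg_right ?_ t0.le
    have b := mul_le_mul_of_nonneg_left h2 (mul_nonneg u0 u0)
    have d := mul_le_mul_of_nonneg_left hC u0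
    linarith
  · rw [pf_smulA, abs_mul, abs_of_pos hc]
    have a := mul_le_mul_of_nonneg_left
      (((hW t ht).2 i.succ).trans (mul_le_mul_of_nonneg_left (hG i) u0)) hc.le
    have b := mul_le_mul_of_nonneg_left h2 (mul_nonneg u0 c0)
    linarith

theorem prod_ge {a b c d e f g : ℝ} (ha : 1 ≤ a) (hb : 1 ≤ b) (hc : 1 ≤ c) (hd : 1 ≤ d)
    (he : 1 ≤ e) (hf : 1 ≤ f) (hg : 1 ≤ g) {U : ℝ} (h : U = a * b * (c * d) * (e * f * g)) :
    a ≤ U ∧ b ≤ U ∧ c * d ≤ U ∧ c ≤ U ∧ d ≤ U ∧ e ≤ U ∧ f ≤ U ∧ g ≤ U := by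
  have k : ∀ {x y : ℝ}, 1 ≤ x → 1 ≤ y → x ≤ x * y ∧ y ≤ x * y ∧ 1 ≤ x * y := fun hx hy =>
    ⟨le_mul_of_one_le_right (by positivity) hy, le_mul_of_one_le_left (by positivity) hx,
      one_le_mul_of_one_le_of_one_le hx hy⟩
  have h1 := k ha hb
  have h2 := k hc hd
  have h3 := k he hf
  have h4 := k h3.2.2 hg
  have h5 := k h1.2.2 h2.2.2
  have h6 := k h5.2.2 h4.2.2
  rw [← h] at h6
  refine ⟨?_, ?_, ?_, ?_, ?_, ?_, ?_, ?_⟩ <;>
    linarith [h1.1, h1.2.1, h2.1, h2.2.1, h3.1, h3.2.1, h4.1, h4.2.1, h5.1, h5.2.1, h6.1, h6.2.1]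

/-- The slope of the quadric along the line. -/
theorem slope {x y D a b U : ℝ} {j τ : ℕ} (hj : j ≤ τ) (ha : 0 ≤ a) (hD : 0 ≤ D)
    (h : x ≤ a * 2 ^ j * |y|) (h' : |y| ≤ b * D / 2 ^ τ) (hU : a * b ≤ U) : x ≤ U * D := by
  have h1 : (2 : ℝ) ^ j ≤ 2 ^ τ := pow_le_pow_right₀ one_le_two hj
  refine (h.trans (mul_le_mul (mul_le_mul_of_nonneg_left h1 ha) h' (abs_nonneg _)
    (by positivity))).trans ?_
  rw [show a * 2 ^ τ * (b * D / 2 ^ τ) = a * b * D by field_simp]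
  exact mul_le_mul_of_nonneg_right hU hD

theorem back {Ω Φ : ℕ → Type} {P : ∀ n, FP (Ω n)} {φ : ∀ n, Ω n → Φ n} {E : ∀ n, Ω n → Prop}
    (_h : Pos P E) (F : ∀ n, Ω n → Prop) {G : ∀ n, Ω n × Ω n → Prop}
    (h : Pos (fun n => glue (P n) (P n) (φ n) (φ n)) G)
    (k : ∀ᶠ n in UF, ∀ v ∈ (glue (P n) (P n) (φ n) (φ n)).S, G n v → E n v.1 ∧ F n v.1) :
    Pos P fun n ω => E n ω ∧ F n ω :=
  (K31.dnS_law (Eventually.of_forall fun n => kg.fst (P n) (P n) (φ n) (φ n))).pos (h.mono k)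

end NNormQA

open NNormQA in
theorem rowNormQ : OfNormQ := by
  intro pc wq kb Ω Λ P g m j τ p k lam A L h hL hk hf hev hE
  obtain ⟨L0, s0, b0⟩ := h.bx
  obtain ⟨Ls, ss, ws⟩ := h.sep
  obtain ⟨L1, s1, w1⟩ := wq P g m j lam A h.big h.hgt
    (hev.mono fun n a x hx y hy e => a.2.2 x hx y hy (congrArg (·.2.2) e))
  choose Lf sf bf using hf
  obtain ⟨U, hU⟩ : ∃ U : ℕ → ℝ, U = fun n => L0 n * Ls n * (L1 n * L n) *
    (Lf 0 n * Lf 1 n * Lf 2 n) := ⟨_, rfl⟩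
  have sU : Sub m U := hU ▸ ((s0.mul ss).mul (s1.mul hL)).mul (((sf 0).mul (sf 1)).mul (sf 2))
  have ge := fun n => prod_ge (s0.1 n) (ss.1 n) (s1.1 n) (hL.1 n) ((sf 0).1 n) ((sf 1).1 n)
    ((sf 2).1 n) (congrFun hU n)
  have sC : Sub m fun n => 13 * (2 * U n ^ 2) ^ 4 :=
    (((sU.pow 2).const_mul h.big one_le_two).pow 4).const_mul h.big (by norm_num)
  have g0 : ∀ (B : Qd) (Y : V 5), 0 ≤ gy B Y := fun B Y => (abs_nonneg _).trans (le_max_left _ _)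
  have p1 := hE.and w1
  have p2 := (pc P (fun n ω => (lam n ω, (g n).y ω)) _ p1).and ws
  have p3 := back p1 (fun n ω => ∀ i : Fin 4, |pf (A n ω) ((g n).hp ω) (bv i.succ)| ≤
      13 * (2 * U n ^ 2) ^ 4 * gy (A n ω) ((g n).hp ω)) p2 (by
      filter_upwards [b0, hev, eventually_all.2 bf] with n b e f v hv ⟨⟨a1, a2⟩, a3⟩
      refine ⟨a1, ?_⟩
      obtain ⟨m1, m2, m3⟩ := (kg.mem _ _ _ _ v (Law.rfl _)).1 hv
      have eA : A n v.2 = A n v.1 := e.2.2 _ m2 _ m1 (congrArg (·.1) m3)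
      have ey : (g n).y v.2 = (g n).y v.1 := congrArg (·.2) m3
      have ez : (g n).z v.2 = (g n).z v.1 := b.fz _ m2 _ m1 ey
      obtain ⟨u0, us, u1L, -, -, uf0, uf1, uf2⟩ := ge n
      have k1 := slope e.1 (s1.pos n).le (g0 _ _) a1.2.1 a1.1.2.2.1 u1L
      have k2 := slope e.1 (s1.pos n).le (g0 _ _) a2.2.1 a2.1.2.2.1 u1L
      rw [Geo.hp, eA, ez] at k2
      refine grad (A n v.1) ((g n).z v.1) (U n) (2 ^ τ n) ((g n).pt v.1) ((g n).pt v.2)
        ((g n).e v.1) ((g n).e v.2) (sU.1 n) (by positivity) (fun i => ?_) a1.1.2.2.2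
        (fun i => ((b.bd _ m1).1 i).2.trans u0) (fun i => ((b.bd _ m2).1 i).2.trans u0) k1 k2
        (a3.trans (mul_le_mul_of_nonneg_right us (abs_nonneg _)))
      refine (f i _ m2 _ m1 ey).trans (div_le_div₀ (sU.pos n).le ?_ (by positivity)
        (pow_le_pow_right₀ one_le_two e.2.1))
      fin_cases i
      exacts [uf0, uf1, uf2])
  choose ι hι using fun n ω => cls (k n) (gy (A n ω) ((g n).hp ω))
  have su := p3.sure
  have dn := K31.dnS_cE p3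
  have lg3 := hk.log3 h.big 1
  have cb : ∀ {β : ℕ → Type} (G : ∀ n, Ω n → β n), Sm m fun n => ch (cE (P n) _) (ι n) (G n) :=
    fun G => lg3.mono (su.mono fun n a => by
      refine (ch_label (I := 2 * k n) (fun ω hω =>
        (hι n ω (a ω hω).2.1.1.1 (a ω hω).2.1.1.2.1).1) _).trans ?_
      rw [one_mul]
      exact Real.log_le_log (by positivity) (by push_cast; linarith))
  refine ⟨_, p3, fun n => ℕ × Λ n, fun n ω => (ι n ω, lam n ω),
    fun n ω => ((2 : ℝ) ^ k n / 2 ^ ι n ω) • A n ω,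
    fun n => 2 * (U n * (13 * (2 * U n ^ 2) ^ 4)), ⟨?_, ?_⟩,
    (sU.mul sC).const_mul h.big one_le_two, ?_⟩
  · exact ((dn.sm_mi h.big h.lab.h).add (cb _)).mono
      (Eventually.of_forall fun n => (kb.add _ (g n) (j n) (ι n) (lam n)).1)
  · exact ((dn.sm_mi h.big h.lab.l).add (cb _)).mono
      (Eventually.of_forall fun n => (kb.add _ (g n) (j n) (ι n) (lam n)).2)
  · filter_upwards [su, hev] with n a e
    refine ⟨fun x hx y hy d => ?_, fun ω hω => ?_⟩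
    · have d1 : ι n x = ι n y := congrArg (·.1) d
      have d2 := e.2.2 _ (a x hx).1 _ (a y hy).1 (congrArg (·.2) d)
      simp only [d1, d2]
    · obtain ⟨-, ⟨⟨c1, c2, c3, c4⟩, -, c5⟩, c6⟩ := a ω hω
      obtain ⟨-, -, -, u1, uL, -⟩ := ge n
      have u2 := sU.1 n
      refine fit (g n) (A n ω) ω (j n) (τ n) _ (U n) _ (by positivity) u2 ?_
        (hι n ω c1 c2).2.1 (hι n ω c1 c2).2.2 (c3.trans (div_le_div_of_nonneg_right
          (mul_le_mul_of_nonneg_right uL (g0 _ _)) (by positivity))) c4 c6 fun t ht =>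
        ⟨(c5 t ht).1.trans (mul_le_mul_of_nonneg_right u1 (abs_nonneg _)), fun i =>
          ((c5 t ht).2 i).trans (mul_le_mul_of_nonneg_right u1 (abs_nonneg _))⟩
      have u3 : U n ≤ 2 * U n ^ 2 := by nlinarith
      have u4 : 2 * U n ^ 2 ≤ (2 * U n ^ 2) ^ 4 := le_self_pow₀ (u2.trans u3) (by norm_num)
      linarith

end Pool.Agent.MP_5168f5_an.R4
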