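import Pool.Agent.MP_5168f5_an.R4.SpecN

/-! Two copies in one event, and the quadric normal form with a loss. -/

namespace Pool.Agent.MP_5168f5_an.R4

open H19 H17S H17F Filter

namespace NPosCA

open Classical in
theorem sq_le {Ω Φ : Type} (P : FP Ω) (φ : Ω → Φ) (E : Ω → Prop) :
    pb P E ^ 2 ≤ pb (glue P P φ φ) fun v => E v.1 ∧ E v.2 := by
  have e1 : pb P E = P.E fun ω => pb (cv P φ (φ ω)) E :=
    ke.exp P φ fun _ ω => if E ω then 1 else 0
  have e2 : (pb (glue P P φ φ) fun v => E v.1 ∧ E v.2) =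
      P.E fun ω => pb (cv P φ (φ ω)) E * if E ω then 1 else 0 := by
    rw [pb, glue, E_bind]
    refine P.E_congr fun ω _ => ?_
    rw [mul_comm, pb, ← FP.E_mul]
    refine FP.E_congr _ fun y _ => ?_
    by_cases a : E ω <;> by_cases b : E y <;> simp [a, b]
  have e3 := ke.exp P φ fun s ω => pb (cv P φ s) E * if E ω then 1 else 0
  simp only [FP.E_mul] at e3
  have e4 := P.E_mono (F := fun ω => 2 * pb P E * pb (cv P φ (φ ω)) E - pb P E ^ 2)
    (G := fun ω => pb (cv P φ (φ ω)) E * pb (cv P φ (φ ω)) E) fun ω _ => by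
      nlinarith [sq_nonneg (pb P E - pb (cv P φ (φ ω)) E)]
  rw [FP.E_sub, FP.E_mul, FP.E_const, ← e1] at e4
  rw [e2, e3]
  refine le_trans (by linarith) e4

end NPosCA

theorem rowPosC : PosC := fun P φ E ⟨κ, a, b⟩ => ⟨κ ^ 2, by positivity, b.mono fun n c =>
  (pow_le_pow_left₀ a.le c 2).trans (NPosCA.sq_le (P n) (φ n) (E n))⟩

theorem rowNormQB : OfNormQB := by
  intro hQ Ω Λ P g m j τ p k h lam A B nl hk hf e hp
  refine hQ P g m j (fun n => τ n - k n) p k lam A (fun _ => 1) nl (nl.big.sub le_rfl) hk hf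
    (e.mono fun n a => ⟨by omega, by omega, a.2.2.2.2⟩) (hp.mono (e.mono fun n a ω _ b => ?_))
  obtain ⟨a1, a2, a3, -⟩ := a
  obtain ⟨b1, b2, b3, b4⟩ := b
  generalize hy : gy (A n ω) ((g n).hp ω) = y at *
  have y0 : 0 ≤ y := hy ▸ le_max_of_le_left (abs_nonneg _)
  have B1 : 1 ≤ B n := by nlinarith
  have B2 : 128 * B n ≤ 2 ^ k n := by nlinarith
  have e1 : (2 : ℝ) ^ τ n = 2 ^ (τ n - k n) * 2 ^ k n := by
    rw [← pow_add, Nat.sub_add_cancel (by omega)]
  have e2 : (2 : ℝ) ^ k n * 2 ^ h n ≤ 2 ^ (τ n - k n) := by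
    rw [← pow_add]
    exact pow_le_pow_right₀ one_le_two (by omega)
  have h1 := mul_le_mul_of_nonneg_right B2 y0
  refine ⟨by nlinarith, by linarith, b3.trans ?_, fun i l => ?_⟩
  · rw [e1, mul_comm, ← div_div, one_mul]
    refine div_le_div_of_nonneg_right ?_ (by positivity)
    rw [div_le_iff₀ (by positivity)]
    nlinarith [mul_le_mul_of_nonneg_right a1 y0, mul_le_mul_of_nonneg_left b1 (zero_le_one.trans B1)]
  · have h2 : (0 : ℝ) < 2 ^ h n := by positivity
    have h3 : 128 ≤ 2 ^ k n * y := by linarith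
    nlinarith [b4 i l, mul_le_mul_of_nonneg_left e2 y0, mul_le_mul_of_nonneg_right h3 h2.le]

end Pool.Agent.MP_5168f5_an.R4
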