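import Pool.Agent.MP_5168f5_an.R4.SpecN
import Pool.Agent.MP_5168f5_an.R4.WSpr
import Pool.Agent.MP_5168f5_an.R4.XKA
import Pool.Agent.MP_5168f5_an.R4.XKF2

/-! Polynomials on a window. -/

namespace Pool.Agent.MP_5168f5_an.R4

open H19 H17S H17F Filter

theorem rowWinFit : WinFit := by
  intro d N Ω Λ P g m j lam C hm hf hC
  refine Web.rowSpr d P (fun n ω => Int.fract (2 ^ j n * (g n).z ω)) _ C m (fun _ => 1) hm
    (hm.sub le_rfl) (hC.mono fun n a => ⟨a, fun ω _ => ?_⟩) (hf.trans (Le.of_le fun n => ?_))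
  · exact (abs_of_nonneg (Int.fract_nonneg _)).trans_le (Int.fract_lt_one _).le
  · exact ch_mono fun a _ b _ e => ((rowKA rowKF2).fl _ _ _ _).2
      ⟨congrArg (·.2.1) e, congrArg (·.1) e⟩

end Pool.Agent.MP_5168f5_an.R4
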