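import Pool.Agent.MP_5168f5_an.R4.SpecN

/-! A quadric and its gradient along the line inside the window. -/

namespace Pool.Agent.MP_5168f5_an.R4

open H19 H17S H17F Filter

namespace NWinQA

theorem sub_prod {J : Type} {m : ℕ → ℕ} (hm : Big m) {L : J → ℕ → ℝ} (h : ∀ i, Sub m (L i))
    (T : Finset J) : Sub m fun n => ∏ i ∈ T, L i n := by
  classical
  induction T using Finset.induction_on with
  | empty => simpa using hm.sub le_rfl
  | insert j T hj ih => simpa only [Finset.prod_insert hj] using (h j).mul ih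

variable {Ω : Type} (g : Geo 3 Ω) (A : Qd) (ω : Ω)

/-- The point of the line at height zero. -/
def y0 : V 5 := hom 0 (g.lt 0 ω)

/-- The direction of the line. -/
def vv : V 5 := vec 1 (g.e ω)

theorem hom_eq (t : ℝ) : hom t (g.lt t ω) = y0 g ω + t • vv g ω := by
  simpa only [zero_add, y0, vv] using hom_lt g 0 t ω

theorem hp_eq : g.hp ω = y0 g ω + g.z ω • vv g ω := hom_eq g ω _

theorem qf_eq (t : ℝ) : qf A (y0 g ω + t • vv g ω) =
    qf A (y0 g ω) + pf A (y0 g ω) (vv g ω) * t + qf A (vv g ω) * t ^ 2 := by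
  rw [qf_add, qf_smul, pf_smul_right]; ring

theorem pf_eq (t : ℝ) (W : V 5) : pf A (y0 g ω + t • vv g ω) W =
    pf A (y0 g ω) W + pf A (vv g ω) W * t + 0 * t ^ 2 := by
  rw [pf_add_left, pf_smul_left]; ring

theorem pv_eq (t : ℝ) : pf A (y0 g ω + t • vv g ω) (vv g ω) =
    pf A (y0 g ω) (vv g ω) + 2 * qf A (vv g ω) * t := by
  rw [pf_add_left, pf_smul_left, pf_self]; ring

theorem ln_eq {ω ω' : Ω} (h : g.ln ω = g.ln ω') : y0 g ω = y0 g ω' ∧ vv g ω = vv g ω' := by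
  simp only [Geo.ln, Prod.mk.injEq] at h
  simp only [y0, vv, Geo.lt, h.1, h.2.1, and_self]

end NWinQA

open NWinQA

theorem rowWinQ : OfWinQ := by
  intro hT Ω Λ P g m j lam A hm hw hA
  obtain ⟨L₀, s₀, w₀⟩ := hT P g m j lam (fun n ω => qf (A n ω) (y0 (g n) ω))
    (fun n ω => pf (A n ω) (y0 (g n) ω) (vv (g n) ω)) (fun n ω => qf (A n ω) (vv (g n) ω)) hm hw
    (hA.mono fun n h a ha b hb e => by
      obtain ⟨h1, h2⟩ := ln_eq (g n) (congrArg (fun x => x.2.1) e)
      simp only [h a ha b hb e, h1, h2])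
  choose L s w using fun i : Fin 5 => hT P g m j lam
    (fun n ω => pf (A n ω) (y0 (g n) ω) (bv i)) (fun n ω => pf (A n ω) (vv (g n) ω) (bv i))
    (fun _ _ => 0) hm hw (hA.mono fun n h a ha b hb e => by
      obtain ⟨h1, h2⟩ := ln_eq (g n) (congrArg (fun x => x.2.1) e)
      simp only [h a ha b hb e, h1, h2])
  have sp := sub_prod hm s Finset.univ
  refine ⟨_, s₀.mul sp, (w₀.and (Whp.all w)).mono (Eventually.of_forall fun n ω _ k => ?_)⟩
  obtain ⟨⟨k1, -, k2⟩, k3⟩ := k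
  have e0 : L₀ n ≤ L₀ n * ∏ i, L i n := le_mul_of_one_le_right (s₀.pos n).le (sp.1 n)
  have e1 : ∀ i, L i n ≤ L₀ n * ∏ i, L i n := fun i => by
    refine le_trans ?_ (le_mul_of_one_le_left (sp.pos n).le (s₀.1 n))
    rw [← Finset.mul_prod_erase _ _ (Finset.mem_univ i)]
    exact le_mul_of_one_le_right ((s i).pos n).le (Finset.one_le_prod fun l _ => (s l).1 n)
  refine ⟨?_, fun t ht => ⟨?_, fun i => ?_⟩⟩
  · change |pf (A n ω) ((g n).hp ω) (vv (g n) ω)| ≤ _
    rw [hp_eq, pv_eq, qf_eq]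
    exact k1.trans (by gcongr)
  · rw [hom_eq, hp_eq, qf_eq, qf_eq]
    exact (k2 t ht).trans (by gcongr)
  · rw [hom_eq, hp_eq, pf_eq, pf_eq]
    exact ((k3 i).2.2 t ht).trans (mul_le_mul_of_nonneg_right (e1 i) (abs_nonneg _))

end Pool.Agent.MP_5168f5_an.R4
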