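import Pool.Agent.MP_5168f5_an.R4.SpecN

/-! A quadratic polynomial of the height in a window. -/

namespace Pool.Agent.MP_5168f5_an.R4

open H19 H17S H17F Filter

namespace NWinTA

/-- The coefficients in the position inside the window. -/
noncomputable def cq (p : ℝ) (f : ℤ) (v : ℝ × ℝ × ℝ) : Fin 3 → ℝ :=
  ![v.1 + v.2.1 * (f / p) + v.2.2 * (f / p) ^ 2, (v.2.1 + 2 * v.2.2 * (f / p)) / p, v.2.2 / p ^ 2]

theorem val (j : ℕ) (a b c t : ℝ) :
    ∑ i, cq (2 ^ j) (fl1 j t) (a, b, c) i * Int.fract (2 ^ j * t) ^ (i : ℕ) =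
      a + b * t + c * t ^ 2 := by
  simp only [Fin.sum_univ_three, cq, Int.fract, fl1]
  generalize ⌊(2 : ℝ) ^ j * t⌋ = f
  simp
  field_simp
  ring

theorem main (j : ℕ) {a b c z L : ℝ} (hL : 0 ≤ L)
    (h : ∀ i, |cq (2 ^ j) (fl1 j z) (a, b, c) i| ≤ L * |a + b * z + c * z ^ 2|) :
    |b + 2 * c * z| ≤ 3 * L * 2 ^ j * |a + b * z + c * z ^ 2| ∧
    |c| ≤ 3 * L * 4 ^ j * |a + b * z + c * z ^ 2| ∧
    ∀ t : ℝ, fl1 j t = fl1 j z → |a + b * t + c * t ^ 2| ≤ 3 * L * |a + b * z + c * z ^ 2| := by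
  have p0 : (0 : ℝ) < 2 ^ j := by positivity
  have k : ∀ i (t : ℝ) (e : ℕ), |cq (2 ^ j) (fl1 j z) (a, b, c) i * Int.fract t ^ e| ≤
      L * |a + b * z + c * z ^ 2| := fun i t e => by
    rw [abs_mul]
    refine (mul_le_of_le_one_right (abs_nonneg _) ?_).trans (h i)
    rw [abs_pow, Int.abs_fract]
    exact pow_le_one₀ (Int.fract_nonneg t) (Int.fract_lt_one t).le
  refine ⟨?_, ?_, fun t ht => ?_⟩
  · have e : b + 2 * c * z = 2 ^ j * (cq (2 ^ j) (fl1 j z) (a, b, c) 1 +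
        2 * (cq (2 ^ j) (fl1 j z) (a, b, c) 2 * Int.fract (2 ^ j * z) ^ 1)) := by
      simp only [cq, Int.fract, fl1]
      generalize ⌊(2 : ℝ) ^ j * z⌋ = f
      simp
      field_simp
      ring
    have h1 := abs_le.1 (h 1)
    have h2 := abs_le.1 (k 2 (2 ^ j * z) 1)
    rw [e, abs_mul, abs_of_pos p0, mul_right_comm, mul_comm (_ * _)]
    exact mul_le_mul_of_nonneg_left (abs_le.2 ⟨by linarith, by linarith⟩) p0.le
  · have e : c = 4 ^ j * cq (2 ^ j) (fl1 j z) (a, b, c) 2 := by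
      rw [show (4 : ℝ) ^ j = (2 ^ j) ^ 2 by rw [← pow_mul, mul_comm, pow_mul]; norm_num]
      simp only [cq]
      simp
      field_simp
    have h0 : 0 ≤ L * |a + b * z + c * z ^ 2| := by positivity
    calc |c| = 4 ^ j * |cq (2 ^ j) (fl1 j z) (a, b, c) 2| := by
          rw [← abs_of_pos (show (0 : ℝ) < 4 ^ j by positivity), ← abs_mul, ← e]
      _ ≤ 4 ^ j * (3 * (L * |a + b * z + c * z ^ 2|)) := by
          gcongr
          linarith [h 2]
      _ = _ := by ring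
  · rw [← val j a b c t, ht]
    refine (Finset.abs_sum_le_sum_abs _ _).trans
      ((Finset.sum_le_card_nsmul _ _ _ fun i _ => k i _ _).trans_eq ?_)
    simp [mul_assoc]

end NWinTA

open NWinTA in
theorem rowWinT : OfWinT := by
  intro hW N Ω Λ P g m j lam a b c hm hF hf
  obtain ⟨L, hL, h⟩ := hW 2 P g m j lam
    (fun n ω => cq (2 ^ j n) (fl1 (j n) ((g n).z ω)) (a n ω, b n ω, c n ω)) hm hF
    (hf.mono fun n e x hx y hy k => by
      have h1 := e x hx y hy k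
      have h2 := congrArg Prod.fst k
      simp only at h1 h2 ⊢
      rw [h1, h2])
  refine ⟨_, hL.const_mul hm (C := 3) (by norm_num),
    h.mono (Eventually.of_forall fun n ω _ e => main _ (hL.pos n).le fun i => ?_)⟩
  exact val _ _ _ _ _ ▸ e i

end Pool.Agent.MP_5168f5_an.R4
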