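import Pool.Agent.MP_5168f5_an.R4.SpecT
import Pool.Agent.MP_5168f5_an.R4.NNLof
import Pool.Agent.MP_5168f5_an.R4.NPosC
import Pool.Agent.MP_5168f5_an.R4.NWinFit
import Pool.Agent.MP_5168f5_an.R4.NWinT
import Pool.Agent.MP_5168f5_an.R4.NWinQ
import Pool.Agent.MP_5168f5_an.R4.NNormP
import Pool.Agent.MP_5168f5_an.R4.NNormQ

/-! Normal form of the final labels, proved. -/

namespace Pool.Agent.MP_5168f5_an.R4

open H19 H17S H17F Filter

theorem nlOf : NLof := rowNLof kb sep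
theorem posC : PosC := rowPosC
theorem winFit : WinFit := rowWinFit
theorem winT : WinT := rowWinT winFit
theorem winQ : WinQ := rowWinQ winT
theorem normP : NormP := rowNormP posC winT kp
theorem normQ : NormQ := rowNormQ posC winQ kb
theorem normQB : NormQB := rowNormQB normQ

section

variable {Ω Λ : ℕ → Type} {P : ∀ n, FP (Ω n)} {g : Gs 3 Ω} {m j τ : ℕ → ℕ}
  {lam : ∀ n, Ω n → Λ n} {d : ∀ n, Ω n → ℝ × ℝ × V 3} {L : ℕ → ℝ}

/-- A hyperplane in projective form gives a label of one of the two hyperplane types. -/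
theorem normH (h : NL P g m j lam 0) (hL : Sub m L)
    (e : ∀ᶠ n in UF, j n + m n ≤ τ n ∧ Fn (P n) (d n) (lam n))
    (p : Pos P fun n ω => ∃ c, (c = (d n ω).2.1 ∨ ∃ i, c = (d n ω).2.2 i) ∧ c ≠ 0 ∧
      |(d n ω).1 + (d n ω).2.1 * (g n).z ω + ∑ i, (d n ω).2.2 i * (g n).pt ω i| ≤
        L n * |c| / 2 ^ τ n) :
    ∃ (k : Bool) (E : ∀ n, Ω n → Prop), Pos P E ∧
      Thin (fun n => cE (P n) (E n)) g m (fun n => (g n).sh5 (iH k)) j τ := by
  obtain ⟨k, -, k0, E, a, b⟩ := normP P g m j τ lam 0 Finset.univ d L h hL e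
    (p.mono (Eventually.of_forall fun _ _ _ c => ⟨fun i x => absurd (Finset.mem_univ i) x, c⟩))
  fin_cases k
  · exact absurd rfl k0
  · have r : Finset.univ.erase (1 : Fin 3) = sS true false := by decide
    exact ⟨false, E, a, by simp only [Geo.sh5, ← r]; exact b⟩
  · have r : Finset.univ.erase (2 : Fin 3) = sS true true := by decide
    exact ⟨true, E, a, by simp only [Geo.sh5, ← r]; exact b⟩

/-- A hyperplane that does not involve the other coordinate gives a plane label. -/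
theorem normU (k : Bool) (h : NL P g m j lam 0) (hL : Sub m L)
    (e : ∀ᶠ n in UF, j n + m n ≤ τ n ∧ Fn (P n) (d n) (lam n))
    (p : Pos P fun n ω => (d n ω).2.2 (co (!k)) = 0 ∧
      ∃ c, (c = (d n ω).2.1 ∨ ∃ i, c = (d n ω).2.2 i) ∧ c ≠ 0 ∧
      |(d n ω).1 + (d n ω).2.1 * (g n).z ω + ∑ i, (d n ω).2.2 i * (g n).pt ω i| ≤
        L n * |c| / 2 ^ τ n) :
    ∃ E : ∀ n, Ω n → Prop, Pos P E ∧
      Thin (fun n => cE (P n) (E n)) g m (fun n => (g n).sh5 (iU k)) j τ := by
  have q : ∀ i : Fin 3, i ∉ ({0, co k} : Finset (Fin 3)) → i = co (!k) := by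
    cases k <;> decide
  obtain ⟨i, hi, k0, E, a, b⟩ := normP P g m j τ lam 0 {0, co k} d L h hL e
    (p.mono (Eventually.of_forall fun _ _ _ c => ⟨fun i x => q i x ▸ c.1, c.2⟩))
  obtain rfl : i = co k := by simpa [k0] using hi
  have r : ({0, co k} : Finset (Fin 3)).erase (co k) = sS false k := by cases k <;> decide
  rw [r] at b
  exact ⟨E, a, b⟩

end

end Pool.Agent.MP_5168f5_an.R4
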