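import Pool.Agent.MP_5168f5_an.R4.SpecTB
import Pool.Agent.MP_5168f5_an.R4.KitO
import Pool.Agent.MP_5168f5_an.R4.NAll

/-! Optimality for planes in projective form. -/

namespace Pool.Agent.MP_5168f5_an.R4.T8

open H19 H17S H17F Filter Matrix Tan

namespace CorPx

theorem kap {r : ℕ → ℕ} {B : ℕ → ℝ} (hr : Big r) (h : Sub r B) :
    ∃ κ : ℕ → ℕ, Sm r (fun n => κ n) ∧ ∀ n, B n ≤ 2 ^ κ n := by
  refine ⟨fun n => ⌈2 * Real.log (B n)⌉₊, ((h.log.smul zero_le_two).add (hr.sm 1)).mono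
    (Eventually.of_forall fun n => (Nat.ceil_lt_add_one
      (mul_nonneg zero_le_two (Real.log_nonneg (h.1 n)))).le), fun n => ?_⟩
  refine le_trans ?_ (exp_le_two_pow _)
  have := Nat.le_ceil (2 * Real.log (B n))
  rw [← Real.log_le_iff_le_exp (h.pos n)]
  linarith

variable {Ω : ℕ → Type} {x : Sx Ω} {j r a τ : ℕ → ℕ} {X : Mb Ω} {B : ℕ → ℝ}

/-- The constant is absorbed in the thickness. -/
theorem key (i : I5) (h : x.Tg j r X) (hB : Sub r B)
    (hn : ¬Le r (fun n => τ n) fun n => (x.F n).τ i (j n) + x.p.sl i * a n) :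
    ∃ τ' : ℕ → ℕ, (∀ᶠ n in UF, j n + a n + x.m n ≤ τ' n ∧ τ' n ≤ τ n ∧
      ∀ c : ℝ, 0 ≤ c → B n * c / 2 ^ τ n ≤ 1 * c / 2 ^ τ' n) ∧
      ¬Le r (fun n => τ' n) fun n => (x.F n).τ i (j n) + x.p.sl i * a n := by
  have k := oA1 x.g x.F x.M x.m x.p j r X h
  obtain ⟨κ, k1, k2⟩ := kap k.big.2.1 hB
  obtain ⟨ε, e0, e1⟩ := not_Le hn
  refine ⟨fun n => τ n - κ n, ?_, fun c => hn ((c.add k1).of_sub (Eventually.of_forall fun n => ?_))⟩
  · filter_upwards [e1, k1 (ε / 3) (by positivity), k.big.2.2.1 (ε / 3) (by positivity),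
      k.low i (ε / 3) (by positivity)] with n u1 u2 u3 u4
    have s := le_mul_of_one_le_left (Nat.cast_nonneg (α := ℝ) (a n)) (h.1.one i)
    have t : j n + a n + x.m n + κ n ≤ τ n := by
      exact_mod_cast (show (j n : ℝ) + a n + x.m n + κ n ≤ τ n by linarith)
    refine ⟨by omega, Nat.sub_le _ _, fun c c0 => ?_⟩
    obtain ⟨t', ht⟩ : ∃ t', τ n = t' + κ n := ⟨τ n - κ n, by omega⟩
    rw [ht, Nat.add_sub_cancel, pow_add, div_le_div_iff₀ (by positivity) (by positivity)]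
    have := mul_le_mul_of_nonneg_right (k2 n) (show 0 ≤ c * 2 ^ t' by positivity)
    linarith
  · have : (τ n : ℝ) ≤ (τ n - κ n : ℕ) + κ n := by exact_mod_cast le_tsub_add
    linarith

/-- Optimality after conditioning. -/
theorem opt (v : Bool × Bool) (h : x.Tg j r X) (ha : OM r a) {E : ∀ n, (X n).W → Prop}
    (hE : Pos X.P E) (hτ : ∀ᶠ n in UF, τ n ≤ x.M n)
    (hT : Thin (fun n => cE (X.P n) (E n)) (X.G x.gf) x.m (fun n => (X.G x.gf n).sh5 (some v))
      (fun n => j n + a n) τ) :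
    Le r (fun n => τ n) fun n => (x.F n).τ (some v) (j n) + x.p.sl (some v) * a n :=
  (oA2 x.g x.F x.M x.m x.p j r (X.cond E)
    (((oCl x.g x.F x.M x.m x.p).cl j r).cond X E h hE)).opt (some v) a τ ha hτ hT

/-- A smaller value gives a smaller bound. -/
theorem cmp {i i' : I5} (h : x.Tg j r X) (ha : OM r a) (e : x.p.v i ≤ x.p.v i') :
    Le r (fun n => (x.F n).τ i (j n) + x.p.sl i * a n)
      fun n => (x.F n).τ i' (j n) + x.p.sl i' * a n := by
  have k := oA1 x.g x.F x.M x.m x.p j r X h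
  rcases e.eq_or_lt with q | q
  · rw [h.1.tie _ _ q]
    exact (k.tie _ _ q).1.add Le.rfl
  · obtain ⟨C, hC⟩ := ha
    have o : Oh r fun n => ⌈x.p.sl i⌉₊ * a n :=
      ⟨⌈x.p.sl i⌉₊ * C, hC.mono fun n c => by rw [mul_assoc]; exact Nat.mul_le_mul_left _ c⟩
    refine Le.of_ev ((k.far _ _ _ q o).mono fun n c => ?_)
    have c' : ((x.F n).τ i (j n) : ℝ) + ⌈x.p.sl i⌉₊ * a n ≤ (x.F n).τ i' (j n) := by
      exact_mod_cast c
    have a0 := Nat.cast_nonneg (α := ℝ) (a n)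
    have s := mul_le_mul_of_nonneg_right (Nat.le_ceil (x.p.sl i)) a0
    have s' := mul_nonneg (zero_le_one.trans (h.1.one i')) a0
    linarith

end CorPx

open CorPx in
theorem rowCorP : OfCorP := by
  intro hN Ω x j r a τ X Λ lam e B ok h ha hl hB he
  have nl := hN x j r a X Λ lam h ha hl
  have L1 : Sub x.m fun _ => (1 : ℝ) := nl.big.sub le_rfl
  constructor
  · by_contra hn
    obtain ⟨τ', t1, t2⟩ := key (iH (!x.k)) h hB hn
    obtain ⟨k, E, p1, p2⟩ := normH (τ := τ') (d := e) nl L1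
      (by filter_upwards [t1, he] with n u v using ⟨u.1, v.2.1⟩)
      (Whp.of_ev (by
        filter_upwards [t1, he] with n u v ω hω
        obtain ⟨c, c1, c2, c3⟩ := v.2.2 ω hω
        exact ⟨c, c1, c2, c3.trans (u.2.2 _ (abs_nonneg c))⟩)).pos
    have q := opt (true, k) h ha p1
      (by filter_upwards [t1, he] with n u v using u.2.1.trans v.1) p2
    refine t2 (q.trans (cmp h ha ?_))
    have o : x.p.v (iH x.k) ≤ x.p.v (iH (!x.k)) := ok.oh
    rcases (by cases k <;> cases x.k <;> simp : k = x.k ∨ k = !x.k) with rfl | rfl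
    exacts [o, le_rfl]
  · intro h0
    by_contra hn
    obtain ⟨τ', t1, t2⟩ := key (iU x.k) h hB hn
    obtain ⟨E, p1, p2⟩ := normU (τ := τ') (d := e) x.k nl L1
      (by filter_upwards [t1, he] with n u v using ⟨u.1, v.2.1⟩)
      (Whp.of_ev (by
        filter_upwards [t1, he, h0] with n u v w ω hω
        obtain ⟨c, c1, c2, c3⟩ := v.2.2 ω hω
        exact ⟨w ω hω, c, c1, c2, c3.trans (u.2.2 _ (abs_nonneg c))⟩)).pos
    exact t2 (opt (false, x.k) h ha p1
      (by filter_upwards [t1, he] with n u v using u.2.1.trans v.1) p2)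

end Pool.Agent.MP_5168f5_an.R4.T8
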