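import Pool.Agent.MP_5168f5_an.R4.SpecTB
import Pool.Agent.MP_5168f5_an.R4.KitO

/-! The older quadric is small in the frame, and the gradients are bounded and not small. -/

namespace Pool.Agent.MP_5168f5_an.R4.T8

open H19 H17S H17F Filter Matrix Tan

namespace CuBx

section

variable {Ω K : Type} (g : Geo 3 Ω) (M c : ℕ) (k : Bool) (d : Fd Ω) (κ : Ω → K) (ω : Ω)

theorem ot_win {s : ℝ} (h0 : 0 ≤ s) (h1 : s < 1) : fl1 c (ot g c ω s) = fl1 c (g.z ω) := by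
  refine (fl1_ot g c ω 0 s h0 h1).2 ?_
  simp only [fl1, pow_zero, one_mul, Int.floor_eq_zero_iff.2 ⟨h0, h1⟩,
    Int.floor_eq_zero_iff.2 ⟨Int.fract_nonneg _, Int.fract_lt_one _⟩]

theorem val (h : Sup k d ω) {L : ℝ} {A : Qd} {i τ : ℕ} (hA : g.qd.fit L A ω i τ) (hi : i ≤ c)
    {s : ℝ} (h0 : 0 ≤ s) (h1 : s < 1) :
    |ql (fr g M c k d κ) (pq g c k d A ω) ω s| ≤ 2 ^ d.Nf * (L / 2 ^ τ) := by
  rw [ql_pq g M c k d κ ω h, abs_mul, abs_of_pos (by positivity : (0 : ℝ) < 2 ^ d.Nf)]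
  exact mul_le_mul_of_nonneg_left
    (hA.2.2 _ (fl1_eq_of_le hi (ot_win g c ω h0 h1))).1 (by positivity)

theorem slope {L : ℝ} {A : Qd} {i τ : ℕ} (hA : g.qd.fit L A ω i τ) (l : Fin 4) :
    |pf A (vec 1 (g.e ω)) (bv l.succ)| ≤ 2 ^ (i + 2) * L := by
  have a := (hA.2.2 _ (ot_win g i ω le_rfl one_pos)).2 l
  have b := (hA.2.2 _ (ot_win g i ω (s := 1 / 2) (by norm_num) (by norm_num))).2 l
  have e : ot g i ω (1 / 2) = ot g i ω 0 + ((2 : ℝ) ^ (i + 1))⁻¹ := by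
    simp only [ot, pow_succ]; field_simp; ring
  rw [e, hom_lt, pf_add_left, pf_smul_left] at b
  have h := (abs_sub _ _).trans (add_le_add b a)
  rw [add_sub_cancel_left, abs_mul, abs_of_pos (by positivity), inv_mul_le_iff₀ (by positivity)]
    at h
  exact h.trans_eq (by ring)

theorem Tv_vec (h : Sup k d ω) :
    Tv g c k d ω (vec 1 ((fr g M c k d κ).e ω)) = ((2 : ℝ) ^ c)⁻¹ • vec 1 (g.e ω) := by
  have h0 : (2 : ℝ) ^ c ≠ 0 := by positivity
  have h0' : (2 : ℝ) ^ d.Nu ≠ 0 := by positivity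
  have h0'' : (2 : ℝ) ^ d.Nf ≠ 0 := by positivity
  obtain ⟨h1, h2, h3⟩ := h
  funext l
  fin_cases l <;> cases k <;> simp [co] at h3 <;>
    simp [Tv, vec, Tan.fr, ps, co, Fin.sum_univ_three, h1, h2, h3] <;> field_simp <;> ring

theorem dir (h : Sup k d ω) {L : ℝ} {A : Qd} {i τ : ℕ} (hA : g.qd.fit L A ω i τ) :
    |pf (pq g c k d A ω) (vec 1 ((fr g M c k d κ).e ω)) (bv 4)| ≤ 2 ^ (i + 2) * (L / 2 ^ c) := by
  have a := slope g ω hA (co (!k)).succ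
  have e : ∀ y : ℝ, 2 ^ d.Nf * (((2 : ℝ) ^ c)⁻¹ * (((2 : ℝ) ^ d.Nf)⁻¹ * y)) = y / 2 ^ c :=
    fun y => by field_simp
  rw [pf_pq, Tv_vec g M c k d κ ω h, Tv_b4, pf_smul_left, pf_smul_right, e, abs_div,
    abs_of_pos (by positivity : (0 : ℝ) < 2 ^ c), ← mul_div_assoc]
  exact div_le_div_of_nonneg_right a (by positivity)

theorem grad (h : Sup k d ω) {L L' : ℝ} {A : Qd} {i τ : ℕ} (hA : g.qd.fit L A ω i τ) (hL : 1 ≤ L)
    (hL' : 1 ≤ L') (hG : |(d.pf ω).2.2 (co k)| ≤ L') :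
    Gd (pq g c k d A ω) (hom ((fr g M c k d κ).z ω) ((fr g M c k d κ).pt ω))
      (L * L' * 2 ^ (d.Nu - d.Nf)) := by
  have eY : Tv g c k d ω (hom ((fr g M c k d κ).z ω) ((fr g M c k d κ).pt ω)) =
      hom (g.z ω) (g.pt ω) := by
    have := Tv_hom g c k d ω h ((fr g M c k d κ).z ω) (g.pt ω)
    rwa [ot_z, ← fr_pt g M c k d κ] at this
  have hb : |pf A (hom (g.z ω) (g.pt ω)) (bv (co (!k)).succ.succ)| ≤ L :=
    (hA.2.2 _ rfl).2 (co (!k)).succ
  have ho : 1 ≤ |pf A (hom (g.z ω) (g.pt ω)) (bv (co k).succ.succ)| ∨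
      1 ≤ |pf A (hom (g.z ω) (g.pt ω)) (bv (co (!k)).succ.succ)| := by
    cases k
    · exact hA.2.1
    · exact hA.2.1.symm
  have hB : (1 : ℝ) ≤ 2 ^ (d.Nu - d.Nf) := one_le_pow₀ one_le_two
  have hρ : (1 : ℝ) ≤ 2 ^ (d.Nu - d.Nf) * (2 ^ d.Nf * (2 ^ d.Nu)⁻¹) := by
    rw [← mul_assoc, ← pow_add, ← div_eq_mul_inv, one_le_div (by positivity)]
    exact pow_le_pow_right₀ one_le_two (by omega)
  have hp : (0 : ℝ) < 2 ^ d.Nf * (2 ^ d.Nu)⁻¹ := by positivity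
  rw [Gd, pf_pq, pf_pq, eY, Tv_b4, Tv_b3, pf_smul_right, pf_smul_right, pf_add_right,
    pf_smul_right, mul_inv_cancel_left₀ (by positivity), ← mul_assoc, abs_mul, abs_of_pos hp]
  generalize pf A (hom (g.z ω) (g.pt ω)) (bv (co (!k)).succ.succ) = b at *
  generalize pf A (hom (g.z ω) (g.pt ω)) (bv (co k).succ.succ) = a at *
  generalize (d.pf ω).2.2 (co k) = G at *
  generalize (2 : ℝ) ^ d.Nf * (2 ^ d.Nu)⁻¹ = ρ at *
  generalize (2 : ℝ) ^ (d.Nu - d.Nf) = B at *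
  have h1 : 1 ≤ L' * B := one_le_mul_of_one_le_of_one_le hL' hB
  have h2 : L' * B ≤ L * L' * B := by nlinarith
  have h3 : 0 ≤ ρ * |a + G * b| := by positivity
  have h4 := abs_nonneg b
  refine ⟨hb.trans (by nlinarith), le_trans ?_ (mul_le_mul_of_nonneg_right h2 (by positivity))⟩
  rcases ho with ho | ho
  · have h5 : |a| ≤ |a + G * b| + L' * |b| := by
      have := abs_sub (a + G * b) (G * b)
      rw [add_sub_cancel_right, abs_mul] at this
      nlinarith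
    have h6 : |a + G * b| ≤ B * (ρ * |a + G * b|) := by nlinarith [abs_nonneg (a + G * b)]
    have h7 : B * (ρ * |a + G * b|) ≤ L' * B * (ρ * |a + G * b|) := by
      nlinarith [mul_nonneg (zero_le_one.trans hB) h3]
    have h8 : L' * |b| ≤ L' * B * |b| := by nlinarith [mul_nonneg (zero_le_one.trans hL') h4]
    linarith
  · nlinarith

end

theorem pw {L : ℝ} {a b q r : ℕ} (hL : L ≤ 2 ^ r) (h : a + r + q ≤ b) :
    2 ^ a * (L / 2 ^ b) ≤ 1 / (2 : ℝ) ^ q := by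
  rw [← mul_div_assoc, div_le_div_iff₀ (by positivity) (by positivity), one_mul]
  refine le_trans ?_ (pow_le_pow_right₀ one_le_two h)
  rw [pow_add, pow_add]
  gcongr

theorem up {r m : ℕ → ℕ} (h : Sm r fun n => m n) {L : ℕ → ℝ} (hL : Sub m L) : Sub r L :=
  ⟨hL.1, fun ε hε => by
    filter_upwards [h 1 one_pos, hL.2 ε hε] with n a b
    exact b.trans (Real.exp_le_exp.2 (mul_le_mul_of_nonneg_left (by linarith) hε.le))⟩

theorem sub_pow {r a b : ℕ → ℕ} (h : Le r (fun n => a n) fun n => b n) :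
    Sub r fun n => (2 : ℝ) ^ (a n - b n) :=
  ⟨fun _ => one_le_pow₀ one_le_two, fun ε hε => (h ε hε).mono fun n e => by
    refine (two_pow_le_exp _).trans (Real.exp_le_exp.2 ?_)
    rcases le_total (a n) (b n) with l | l
    · rw [Nat.sub_eq_zero_of_le l, Nat.cast_zero]; positivity
    · rw [Nat.cast_sub l]; linarith⟩

end CuBx

theorem rowCuB : OfCuB := by
  intro hI Ω x j r d X h j₀ hp
  have k := hI x j r d X h
  have o := oA1 _ _ _ _ _ _ _ _ h.tg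
  obtain ⟨L, hL, hA⟩ := o.fam.alg
  obtain ⟨L', hL', hF⟩ := h.fit
  have sL := CuBx.up o.big.2.2.1 hL
  refine ⟨fun q ⟨C, hC⟩ => ?_, fun n => L n * L' n * 2 ^ ((d n).Nu - (d n).Nf),
    (sL.mul (CuBx.up o.big.2.2.1 hL')).mul (CuBx.sub_pow ?_), ?_⟩
  · filter_upwards [k, hA, hC, hp (C + 3), h.nf.1 1 one_pos, o.big.2.1.ev 1,
      sL.2 (1 / 2) (by norm_num)] with n k a hq hj hN hr hb v hv
    have e : L n ≤ 2 ^ r n := hb.trans ((Real.exp_le_exp.2 (by linarith)).trans (exp_le_two_pow _))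
    have hN' : (d n).Nf ≤ (x.F n).τ (iH (!x.k)) (j n) + r n := by
      rw [one_mul] at hN; exact_mod_cast hN
    have hr' : 1 ≤ r n := by exact_mod_cast hr
    rw [add_mul] at hj
    exact ⟨fun t h0 h1 => (CuBx.val _ (x.M n) _ _ _ ((x.F n).S (j n)) _ (k.2.2.2.2.1 v hv)
      (a.fit iQ (j₀ n) v hv) (by omega) h0 h1).trans
        (CuBx.pw (b := (x.F n).τ iQ (j₀ n)) e (by omega)),
      (CuBx.dir _ (x.M n) _ _ _ ((x.F n).S (j n)) _ (k.2.2.2.2.1 v hv)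
        (a.fit iQ (j₀ n) v hv)).trans (CuBx.pw e (by omega))⟩
  · refine h.nu.1.trans (Le.trans ?_ h.nf.2)
    rcases ((h.tg.1.uh x.k).trans h.ok.oh).eq_or_lt with e | e
    · exact (o.tie _ _ e).1
    · exact Le.of_ev ((o.far _ _ (fun _ => 0) e ⟨0, Eventually.of_forall fun _ =>
        Nat.zero_le _⟩).mono fun n a => by exact_mod_cast a)
  · filter_upwards [k, hA, hF] with n k a f v hv
    have hG := ((f v hv).2.2.1 (co x.k)).1
    have e := fun i => CuBx.grad _ (x.M n) (j n) _ _ ((x.F n).S (j n)) _ (k.2.2.2.2.1 v hv)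
      (a.fit iQ i v hv) (hL.1 n) (hL'.1 n) hG
    exact ⟨e (j₀ n), fun i => e (j n + i)⟩

end Pool.Agent.MP_5168f5_an.R4.T8
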