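import Pool.Agent.MP_5168f5_an.R4.SpecTB
import Pool.Agent.MP_5168f5_an.R4.KitO

/-! The curved facts in the frame. -/

namespace Pool.Agent.MP_5168f5_an.R4.T8

open H19 H17S H17F Filter Matrix Tan

namespace CuCx

theorem nest {Ω Λ : Type} {P : FP Ω} {S : ℕ → Ω → Λ} (h : ∀ j, Fn P (S j) (S (j + 1))) {i j : ℕ}
    (e : i ≤ j) : Fn P (S i) (S j) := by
  induction j, e using Nat.le_induction with
  | base => exact fun _ _ _ _ k => k
  | succ j _ ih => exact fun a ha b hb k => ih a ha b hb (h j a ha b hb k)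

theorem pq_eq {Ω : Type} (g : Geo 3 Ω) (c : ℕ) (k : Bool) (d : Fd Ω) (A : Qd) {ω ω' : Ω}
    (h1 : fl1 c (g.z ω) = fl1 c (g.z ω')) (h2 : fl1 c (g.pt ω 0) = fl1 c (g.pt ω' 0))
    (h3 : (d.pu ω, d.pf ω) = (d.pu ω', d.pf ω')) : pq g c k d A ω = pq g c k d A ω' := by
  funext i l
  simp only [pq, Tv, Geo.z0, rd, h1, h2, (Prod.mk.inj h3).1, (Prod.mk.inj h3).2]

theorem mb {x y a b : ℝ} (h : |x| ≤ a) (h' : |y| ≤ b) : |x * y| ≤ a * b := by
  rw [abs_mul]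
  exact mul_le_mul h h' (abs_nonneg _) ((abs_nonneg _).trans h)

theorem pf_bd {A : Qd} {Y : V 5} {w : V 3} {b c : ℝ} (hw : ∀ i, |w i| ≤ b)
    (h : ∀ i : Fin 4, |pf A Y (bv i.succ)| ≤ c) : |pf A Y (vec 0 w)| ≤ 3 * (b * c) := by
  have a1 := abs_le.1 (mb (hw 0) (h 1))
  have a2 := abs_le.1 (mb (hw 1) (h 2))
  have a3 := abs_le.1 (mb (hw 2) (h 3))
  rw [vec_eq]
  simp only [pf_add_right, pf_smul_right, zero_mul, zero_add]
  exact abs_le.2 ⟨by linarith! [a1.1, a2.1, a3.1], by linarith! [a1.2, a2.2, a3.2]⟩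

theorem qf_near {A : Qd} {t b c : ℝ} {y w : V 3} (hw : ∀ i, |y i - w i| ≤ b)
    (h : ∀ i : Fin 4, |pf A (hom t y) (bv i.succ)| ≤ c)
    (h' : ∀ i : Fin 4, |pf A (hom t w) (bv i.succ)| ≤ c) :
    |qf A (hom t y) - qf A (hom t w)| ≤ 3 * (b * c) := by
  have e : hom t y - hom t w = vec 0 (y - w) := by
    funext i; fin_cases i <;> simp [hom, vec]
  have a1 := abs_le.1 (pf_bd (w := y - w) hw h)
  have a2 := abs_le.1 (pf_bd (w := y - w) hw h')
  rw [qf_sub_qf, e]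
  exact abs_le.2 ⟨by linarith, by linarith⟩

/-- The value of a quadric of the frame. -/
theorem val {Ω K : Type} (g : Geo 3 Ω) (M c T : ℕ) (k : Bool) (d : Fd Ω) (κ : Ω → K) (ω : Ω)
    (h : Sup k d ω) (A : Qd) (s : ℝ) (e : d.Nf ≤ T) :
    2 ^ (T - d.Nf) * ql (Tan.fr g M c k d κ) (pq g c k d A ω) ω s =
      2 ^ T * qf A (hom (ot g c ω s) (g.lt (ot g c ω s) ω)) := by
  rw [ql_pq g M c k d κ ω h, ← mul_assoc, ← pow_add, Nat.sub_add_cancel e]; rfl

theorem win {Ω : Type} (g : Geo 3 Ω) (c a : ℕ) (ω : Ω) {s : ℝ}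
    (h : fl1 a s = fl1 a (Int.fract (2 ^ c * g.z ω))) :
    fl1 (c + a) (ot g c ω s) = fl1 (c + a) (g.z ω) :=
  have u := win_unit a (Int.fract_nonneg _) (Int.fract_lt_one _) h
  (fl1_ot g c ω a s u.1 u.2).2 h

theorem pw {L y : ℝ} {T T' τ : ℕ} (hL : 0 ≤ L) (h : |y| ≤ L / 2 ^ T') :
    |2 ^ T * y| ≤ L * 2 ^ (T + τ - T') / 2 ^ τ := by
  rw [abs_mul, abs_of_pos (by positivity), le_div_iff₀ (by positivity)]
  rw [le_div_iff₀ (by positivity)] at h
  have e : (2 : ℝ) ^ T * 2 ^ τ ≤ 2 ^ T' * 2 ^ (T + τ - T') := by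
    rw [← pow_add, ← pow_add]; exact pow_le_pow_right₀ one_le_two (by omega)
  have h2 : (0 : ℝ) < 2 ^ (T + τ - T') := by positivity
  nlinarith [mul_le_mul_of_nonneg_left e (abs_nonneg y), mul_le_mul_of_nonneg_right h h2.le]

theorem sub2 {r e : ℕ → ℕ} (h : Sm r fun n => e n) : Sub r fun n => 2 ^ e n :=
  (Sub.exp h fun _ => Nat.cast_nonneg _).mono (fun _ => one_le_pow₀ one_le_two)
    (Eventually.of_forall fun n => by
      rw [← Real.exp_one_pow]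
      exact pow_le_pow_left₀ zero_le_two (by linarith [Real.add_one_le_exp 1]) _)

end CuCx

open CuCx in
theorem rowCuC : OfCuC := by
  intro hI hB Ω x j r d X h hv j₀ hp hH hE
  have hI := hI x j r d X h
  have hB := hB x j r d X h j₀ hp
  have o := oA1 _ _ _ _ _ _ _ _ h.tg
  obtain ⟨L, hL, hA⟩ := o.fam.alg
  have hr : OM r r := ⟨1, Eventually.of_forall fun n => by omega⟩
  have hν : ∀ a : ℕ → ℕ, OM r a → ∀ᶠ n in UF, (d n).Nf + a n ≤ (x.F n).τ iQ (j n) := by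
    rintro a ⟨C, hC⟩
    filter_upwards [o.far _ _ (fun n => a n + r n) hv ⟨C + 1, hC.mono fun n k => by nlinarith⟩,
      h.nf.1 1 one_pos] with n k1 k2
    have : (d n).Nf ≤ (x.F n).τ (iH (!x.k)) (j n) + r n := by
      rw [one_mul] at k2; exact_mod_cast k2
    omega
  have hN : ∀ᶠ n in UF, (d n).Nf ≤ (x.F n).τ iQ (j n) := (hν r hr).mono fun n k => by omega
  have hLr : Sub r L := ⟨hL.1, fun ε hε => by
    filter_upwards [hL.2 ε hε, o.big.2.2.1 1 one_pos] with n k1 k2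
    exact k1.trans (Real.exp_le_exp.2 (mul_le_mul_of_nonneg_left (by linarith) hε.le))⟩
  refine ⟨?_, fun a ha => (hν a ha).mono fun n k => ?_, fun a τ ha hτ => ?_, ⟨L, hL, ?_⟩,
    fun q hq => ⟨fun n => 3 * L n, hL.const_mul o.big.1 (by norm_num), ?_⟩, hB.1, hB.2, hH, hE⟩
  · filter_upwards [hA, h.fn, o.room r hr, hp 0] with n k1 k2 k3 k4
    have key : ∀ (A : Qd), ∀ v ∈ (X n).Q.S, ∀ w ∈ (X n).Q.S, (x.F n).S (j n) ((X n).ρ v) =
        (x.F n).S (j n) ((X n).ρ w) → pq (x.g n) (j n) x.k (d n) A ((X n).ρ v) =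
          pq (x.g n) (j n) x.k (d n) A ((X n).ρ w) := fun A v hv w hw e => by
      have := h.ok.dg n _ _ _ e
      rw [min_eq_left (by omega)] at this
      exact pq_eq _ _ _ _ _ this.2.1 this.2.2 (k2 v hv w hw e)
    refine ⟨fun v hv w hw e => ?_, fun a v hv w hw e => ?_, fun v _ =>
      ⟨IsSymm.ext fun _ _ => pq_symm .., fun a => IsSymm.ext fun _ _ => pq_symm ..⟩⟩
    · have e1 : dQ (x.F n) (j₀ n) ((X n).ρ v) = dQ (x.F n) (j₀ n) ((X n).ρ w) :=
        k1.fd none _ v hv w hw (nest k1.nest (i := j₀ n) (j := j n) (by omega) v hv w hw e)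
      exact (key _ v hv w hw e).trans (congrArg (fun A => pq _ _ _ _ A _) e1)
    · have e1 : dQ (x.F n) (j n + a) ((X n).ρ v) = dQ (x.F n) (j n + a) ((X n).ρ w) :=
        k1.fd none _ v hv w hw e
      exact (key _ v hv w hw (nest k1.nest (i := j n) (j := j n + a) (by omega) v hv w hw e)).trans
        (congrArg (fun A => pq _ _ _ _ A _) e1)
  · exact Nat.le_sub_of_add_le' k
  · refine ⟨fun n => L n * 2 ^ ((x.F n).τ iQ (j n) + τ n - (x.F n).τ iQ (j n + a n)),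
      hLr.mul (sub2 fun ε hε => ?_), ?_⟩
    · filter_upwards [(o.lin iQ a ha).2 ε hε, hτ] with n k1 k2
      rcases le_total ((x.F n).τ iQ (j n) + τ n) ((x.F n).τ iQ (j n + a n)) with e | e
      · rw [Nat.sub_eq_zero_of_le e, Nat.cast_zero]; positivity
      · rw [Nat.cast_sub e, Nat.cast_add]; linarith
    · filter_upwards [hA, hI, hN] with n k1 k2 k3 v hv t ht
      have f := ((k1.fit none (j n + a n) v hv).2.2 _ (win (x.g n) (j n) (a n) _ ht)).1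
      exact (congrArg abs (val (x.g n) (x.M n) (j n) _ x.k (d n) ((x.F n).S (j n)) _
        (k2.2.2.2.2.1 v hv) _ t
        k3)).trans_le (pw (hL.pos n).le f)
  · filter_upwards [hA, hI, hN] with n k1 k2 k3 v hv t h0 h1
    have ht : fl1 0 t = fl1 0 (Int.fract (2 ^ j n * (x.g n).z ((X n).ρ v))) := by
      simp only [fl1, pow_zero, one_mul, Int.floor_eq_zero_iff.2 ⟨h0, h1⟩, Int.floor_fract]
    have f := ((k1.fit none (j n + 0) v hv).2.2 _ (win (x.g n) (j n) 0 _ ht)).1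
    refine (congrArg abs (val (x.g n) (x.M n) (j n) _ x.k (d n) ((x.F n).S (j n)) _
        (k2.2.2.2.2.1 v hv) _ t
      k3)).trans_le ((pw (τ := 0) (hL.pos n).le f).trans_eq ?_)
    simp
  · filter_upwards [hA, hI, hN, o.room q hq] with n k1 k2 k3 k4 v hv w hw e
    have e1 : (x.F n).S (j n) ((X n).ρ v) = (x.F n).S (j n) ((X n).ρ w) := congrArg Prod.fst e
    have e2 : ∀ i, fl1 (x.M n) ((x.g n).pt ((X n).ρ v) i) = fl1 (x.M n) ((x.g n).pt ((X n).ρ w) i) :=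
      fun i => congrFun (congrArg (fun y => y.2.1) e) i
    have e3 : (x.g n).z ((X n).ρ v) = (x.g n).z ((X n).ρ w) := congrArg (fun y => y.2.2.1) e
    have e4 : dQ (x.F n) (j n + 0) ((X n).ρ v) = dQ (x.F n) (j n + 0) ((X n).ρ w) :=
      k1.fd none _ v hv w hw e1
    have a : ∀ u ∈ (X n).Q.S, (mC X (x.fc j j₀ d) n).f (X.G (x.fg j d) n) u
        ((X.G (x.fg j d) n).z u) = 2 ^ (x.F n).τ iQ (j n) * qf (dQ (x.F n) (j n + 0) ((X n).ρ u))
          (hom ((x.g n).z ((X n).ρ u)) ((x.g n).pt ((X n).ρ u))) := fun u hu => by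
      have := val (x.g n) (x.M n) (j n) _ x.k (d n) ((x.F n).S (j n)) _ (k2.2.2.2.2.1 u hu)
        (dQ (x.F n) (j n + 0) ((X n).ρ u))
        ((Tan.fr (x.g n) (x.M n) (j n) x.k (d n) ((x.F n).S (j n))).z ((X n).ρ u)) k3
      rw [ot_z] at this
      exact this
    have f1 : ∀ i : Fin 4, |pf (dQ (x.F n) (j n + 0) ((X n).ρ v)) (hom ((x.g n).z ((X n).ρ v))
      ((x.g n).pt ((X n).ρ v))) (bv i.succ)| ≤ L n := ((k1.fit none (j n + 0) v hv).2.2 _ rfl).2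
    have f2 : ∀ i : Fin 4, |pf (dQ (x.F n) (j n + 0) ((X n).ρ w)) (hom ((x.g n).z ((X n).ρ w))
      ((x.g n).pt ((X n).ρ w))) (bv i.succ)| ≤ L n := ((k1.fit none (j n + 0) w hw).2.2 _ rfl).2
    rw [e3, e4] at f1
    have b := qf_near (fun i => (abs_sub_lt_of_fl1_eq (e2 i)).le) f1 f2
    beta_reduce
    rw [a v hv, a w hw, e3, e4, ← mul_sub]
    refine (pw (L := 3 * L n) (T' := x.M n) (τ := q n) (by linarith [hL.pos n])
      (b.trans_eq (by ring))).trans_eq ?_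
    rw [Nat.sub_eq_zero_of_le (k4.2.2 iQ), pow_zero, mul_one]

end Pool.Agent.MP_5168f5_an.R4.T8
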