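import Pool.Agent.MP_5168f5_an.R4.SpecTG

/-! The tower of frames is closed. -/

namespace Pool.Agent.MP_5168f5_an.R4.T8

open H19 H17S H17F Filter Tan

theorem fit_mono {Ω : Type} (g : Geo 3 Ω) (S : Finset (Fin 3)) (k : Fin 3) {L L' : ℝ} {d : Pl}
    {ω : Ω} {j τ : ℕ} (e : L ≤ L') (h : (g.pl S k).fit L d ω j τ) : (g.pl S k).fit L' d ω j τ :=
  ⟨h.1.trans e, fun i => ⟨(h.2.1 i).1.trans e, (h.2.1 i).2⟩, fun t a =>
    (h.2.2 t a).trans (div_le_div_of_nonneg_right e (by positivity))⟩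

theorem rowCzR : OfCzR := by
  intro k tw Ω x Nm pr ok nm p1 p2
  have fr := fun σ r X (h : x.BB Nm σ r X) => k.frCan x σ r X ok h.1 h.2.1
  have t := fun σ r X (h : x.BB Nm σ r X) =>
    tw x (Sx.lv σ) r (x.cd σ) _ (k.canCl.cl x Nm σ r) ⟨X, h⟩ (fr σ r)
  have w1 := fun σ r X (h : x.BB Nm σ r X) => h.1.1.one (iH (!x.k))
  have f := fun σ r X (h : x.BB Nm σ r X) => k.fin1 _ _ _ _ _ _ _ _ _ pr (t σ r X h) (w1 σ r X h)
    p1 p2 fun Y a => (k.fCell x _ r _ Y (fr σ r Y a)).2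
  have sk : SK (x.tw pr) (x.BB Nm) x.γ x.w (jP pr) := by
    intro σ r a X h ha
    obtain ⟨tn, f2⟩ := f σ r X h
    have hr : Big r := by simpa using ((tn.cls 1 one_pos).bs X h).big
    have g1 := (t σ r X h).one
    obtain ⟨L₁, s1, e1⟩ := (tn.com X h).cellU a (fun _ => 0) ha
      (Eventually.of_forall fun n => by push_cast; positivity)
    obtain ⟨L₂, s2, e2⟩ : ∃ L, Sub r L ∧ Whp X.P fun n v => pr = true →
        ((X.G (Zoom.gs (x.tw pr) σ) n).pl {0} 2).fit (L n)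
          ((mD X (Zoom.ds (x.tw pr) σ) n).H (a n) v) v (a n) 0 := by
      cases pr
      · exact ⟨L₁, s1, e1.mono (Eventually.of_forall fun n v _ _ c => absurd c (by simp))⟩
      · obtain ⟨L, s, e⟩ := (f2 X h).2.2.1 rfl a (fun _ => 0) ha
          (Eventually.of_forall fun n => by have := w1 σ r X h; push_cast; positivity)
        exact ⟨L, s, e.mono (Eventually.of_forall fun n v _ c _ => c)⟩
    obtain ⟨s, E, hE, sub, hB⟩ := k.kid x Nm pr σ r a X _ ok nm h ha (e1.and e2)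
      fun c => ⟨p1 c, (f2 X h).1⟩
    have sh := fun Y (u : x.BB Nm σ r Y) (v : x.BB Nm (x.kd pr σ a s) r Y) =>
      k.twA x pr σ r a s Y (fr _ _ _ u) (fr _ _ _ v) ha
    have h' := (k.canCl.cl x Nm σ r).cond X E h hE.pos
    refine ⟨x.kd pr σ a s, E, hE, hB, ?_, sh⟩
    refine k.shC _ _ _ _ _ r a _ _ _ (fun n => L₁ n * L₂ n) hr g1 (w1 σ r X h)
      (by cases pr <;> simp [jP]) (s1.mul s2) (sh _ h' hB) ?_
    obtain ⟨L, -, bx⟩ := (tn.low.bs _ h').bx
    filter_upwards [((t σ r X h).com _ h').nest, (tn.com _ h').nest, (t σ r X h).hJ a ha, bx,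
      hE.pos.ex] with n c1 c2 c3 c4 c7
    have c5 := s1.1 n
    have c6 := s2.1 n
    refine ⟨fun v hv v' hv' e => ?_, fun v hv => ?_⟩
    · have u1 := (c2.2 (a n)).2 v hv v' hv' e
      have u2 := c1.2.2 (a n) c3 v hv v' hv' e
      simp only [Prod.mk.injEq] at u1 ⊢
      exact ⟨u1.2.1, u2, u1.2.2.2⟩
    · have u := sub n v ((mem_cE c7 v).1 hv).2
      refine ⟨(c4.bd v hv).2.1, (c4.bd v hv).2.2, fit_mono _ _ _ (by nlinarith) u.1, fun c => ?_⟩
      refine fit_mono _ _ _ (by nlinarith) (u.2 ?_)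
      cases pr
      · simp [jP] at c
      · rfl
  refine ⟨⟨k.canCl.cf x Nm nm, fun σ r X h => (f σ r X h).1, fun σ r X h i hi => ?_,
    fun σ r r' X h a b => k.canCl.unit x Nm σ r r' X nm h a b, fun σ r a X h ha => ?_⟩, sk,
    fun σ r X h => ((f σ r X h).2 X h).2⟩
  · have c := (f σ r X h).1.com X h
    have n2 : ∀ᶠ n in UF, ∀ j, Fn (X n).Q (fun v => ((mD X (Zoom.ds (x.tw pr) σ) n).U j v,
        (mD X (Zoom.ds (x.tw pr) σ) n).H j v)) ((mD X (Zoom.ds (x.tw pr) σ) n).S j) :=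
      c.nest.mono fun n u j v hv v' hv' e => by
        have u1 := (u.2 j).2 v hv v' hv' e
        simp only [Prod.mk.injEq] at u1 ⊢
        exact u1.2.2.2
    have : i = 1 ∨ (i = 2 ∧ pr = true) := by
      cases pr <;> simp [jP] at hi ⊢ <;> exact hi
    rcases this with rfl | ⟨rfl, q⟩
    · exact ⟨_, n2.mono fun n u j v hv v' hv' e => congrArg Prod.fst (u j v hv v' hv' e), c.cellU⟩
    · exact ⟨_, n2.mono fun n u j v hv v' hv' e => congrArg Prod.snd (u j v hv v' hv' e),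
        ((f σ r X h).2 X h).2.2.1 q⟩
  · obtain ⟨σ', E, a1, a2, a3, -⟩ := sk σ r a X h ha
    exact ⟨σ', E, a1, a2, a3⟩

end Pool.Agent.MP_5168f5_an.R4.T8
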