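import Pool.Agent.MP_5168f5_an.R4.SpecZ

/-! The dichotomy for slopes in a tower of frames. -/

namespace Pool.Agent.MP_5168f5_an.R4

open H19 H17S H17F Filter Tan Zoom

namespace ZDiA

theorem om_trans {M a b : ℕ → ℕ} (h : OM M a) (h' : OM a b) : OM M b := by
  obtain ⟨C, h⟩ := h
  obtain ⟨C', h'⟩ := h'
  refine ⟨C' * C, ?_⟩
  filter_upwards [h, h'] with n x y
  exact y.trans (by rw [mul_assoc]; exact Nat.mul_le_mul_left _ x)

theorem om_of {M a : ℕ → ℕ} (C : ℝ) (h : ∀ᶠ n in UF, (a n : ℝ) ≤ C * M n) : OM M a :=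
  ⟨⌈C⌉₊, h.mono fun n x => by
    exact_mod_cast x.trans (mul_le_mul_of_nonneg_right (Nat.le_ceil C) (Nat.cast_nonneg (M n)))⟩

theorem om_add {M a b : ℕ → ℕ} (h : OM M a) (h' : OM M b) : OM M fun n => a n + b n := by
  obtain ⟨C, h⟩ := h
  obtain ⟨C', h'⟩ := h'
  refine ⟨C + C', ?_⟩
  filter_upwards [h, h'] with n x y
  rw [add_mul]; exact add_le_add x y

theorem sm_of {M m : ℕ → ℕ} {f : ℕ → ℝ} (h : Sm m f) (h' : Sm M fun n => m n) : Sm M f :=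
  h'.mono ((h 1 one_pos).mono fun n x => by linarith)

theorem big_of {M a : ℕ → ℕ} (h : Big M) (h' : OM a M) : Big a := by
  obtain ⟨C, h'⟩ := h'
  refine tendsto_atTop.2 fun b => ?_
  filter_upwards [tendsto_atTop.1 h (C * b + 1), h'] with n x y
  by_contra k
  have := Nat.mul_le_mul_left C (not_le.1 k).le
  omega

theorem nest {Ω Λ : Type} {P : FP Ω} {S : ℕ → Ω → Λ} (h : ∀ j, Fn P (S j) (S (j + 1))) {a b : ℕ}
    (hab : a ≤ b) : Fn P (S a) (S b) := by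
  induction b, hab using Nat.le_induction with
  | base => exact Fn.rfl _
  | succ b _ ih => exact ih.trans (h b)

theorem bl_le {Ω : Type} (P : FP Ω) (g : Geo 3 Ω) {a b : ℕ} (h : a ≤ b) :
    Fn P (bl g a) (bl g b) := fun _ _ _ _ e =>
  Prod.ext (fl1_eq_of_le h (congrArg Prod.fst e)) (fl1_eq_of_le h (congrArg Prod.snd e))

theorem bl_ln {Ω : Type} (P : FP Ω) (g : Geo 3 Ω) (a : ℕ) : Fn P (bl g a) g.ln :=
  fun u _ v _ e => by
  simp only [Geo.ln, Prod.mk.injEq] at e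
  simp only [bl, e.1, e.2.1]

theorem fin1 {Ω α β β' γ δ ζ : Type} {P : FP Ω} (Y : Ω → α) (F : Ω → ζ) {B B₀ : Ω → β}
    (B' : Ω → β') {S : Ω → γ} {θ : Ω → δ} (h : Fn P S θ) (h' : Fn P B₀ B) :
    ch P Y (fun ω => (B' ω, θ ω)) ≤ ch P B (fun ω => (B' ω, S ω)) + ch P F (fun ω => (B ω, S ω)) +
      ch P Y fun ω => (F ω, B₀ ω, S ω) := by
  have a1 : ch P Y (fun ω => (B' ω, θ ω)) ≤ ch P Y fun ω => (B' ω, S ω) :=
    ch_anti ((Fn.fst _ _).pair (h.right _))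
  have a2 := ch_tri (P := P) Y B fun ω => (B' ω, S ω)
  have a3 : ch P Y (fun ω => (B ω, B' ω, S ω)) ≤ ch P Y fun ω => (B ω, S ω) :=
    ch_anti ((Fn.fst _ _).pair ((Fn.snd _ _).right _))
  have a4 := ch_tri (P := P) Y F fun ω => (B ω, S ω)
  have a5 : ch P Y (fun ω => (F ω, B ω, S ω)) ≤ ch P Y fun ω => (F ω, B₀ ω, S ω) :=
    ch_anti ((Fn.fst _ _).pair (((h'.left _).right _).pair ((Fn.snd _ _).right _)))
  linarith

theorem fin2 {Ω α β γ δ ζ : Type} {P : FP Ω} {F F₀ : Ω → α} {B B₁ : Ω → β} {S S' : Ω → γ}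
    (z : Ω → ℝ) {l : Ω → δ} {c : Ω → ζ} (h1 : Fn P B₁ B) (h2 : Fn P S S') (h3 : Fn P c S')
    (h4 : Fn P F l) (h5 : Fn P F₀ l) (h6 : Fn P B l) :
    ch P F (fun ω => (B ω, S' ω)) ≤ ch P F₀ (fun ω => (B ω, S' ω)) +
      ch P F (fun ω => (F₀ ω, B₁ ω, S ω, z ω)) + mi P z (fun ω => (l ω, S' ω)) c := by
  have a1 := ch_tri (P := P) F F₀ fun ω => (B ω, S' ω)
  have a2 := ch_le_mi (P := P) (F := F) (G := z) (K := fun ω => (F₀ ω, B ω, S' ω))
    (K' := fun ω => (F₀ ω, B₁ ω, S ω, z ω)) (((Fn.fst _ _).right _).pair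
      ((((h1.left _).right _).right _).pair ((((h2.right _).right _).right _).pair (Fn.fst _ _))))
  have a3 : mi P z F (fun ω => (F₀ ω, B ω, S' ω)) ≤ mi P z (fun ω => (l ω, S' ω)) c :=
    mi_right ((h3.right _).right _) (((h5.left _).left _).pair (((h6.left _).left _).pair
      ((Fn.snd _ _).left _))) ((h4.left _).left _)
  rw [mi_symm] at a2
  linarith

variable {Ω : ℕ → Type} {W : ∀ n, Tw (Ω n)} {B : (∀ n, (W n).I) → (ℕ → ℕ) → Mb Ω → Prop}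
  {mm : ℕ → ℕ} {η γ : ℝ} {T J : Finset (Fin 3)} {wt : Fin 3 → ℝ} {i : Fin 3}

theorem big (h : Cz W B mm η γ T J wt) {σ : ∀ n, (W n).I} {r : ℕ → ℕ} {X : Mb Ω} (hB : B σ r X) :
    Big r := by
  simpa using (((h.tn σ r X hB).cls 1 one_pos).bs X hB).big

/-- A failure of broadness gives a cell frame whose slope has small entropy. -/
theorem step (zc : ZCh) (zs : ZSl) (h : Cz W B mm η γ T J wt) (hi : i ∈ J) (hw : 1 < wt i)
    {σ : ∀ n, (W n).I} {r : ℕ → ℕ} {X : Mb Ω} (hB : B σ r X) {ρ : ℝ}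
    (hn : ¬Brd X.P (X.G (gs W σ)) r (mD X (ds W σ)) i (wt i) ρ) :
    ∃ (σ' : ∀ n, (W n).I) (X' : Mb Ω) (l s : ℕ → ℕ), B σ' r X' ∧ OM r s ∧ OM r l ∧ OM l r ∧
      ∀ᶠ n in UF, ch (X' n).Q (fun v => fl1 (l n) ((X'.G (gs W σ') n).e v i)) (fun v =>
        (bl (X'.G (gs W σ') n) (s n) v, (X'.G (gs W σ') n).θ v)) ≤ 2 * (ρ * l n * lg) := by
  unfold Brd at hn
  push Not at hn
  obtain ⟨a, s, l, r', oa, ol, or', hs, os, hn⟩ := hn
  obtain ⟨ε, hε, hn⟩ := not_Le hn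
  have hM := big h hB
  have tn := h.tn σ r X hB
  have w0 : 0 < wt i - 1 := sub_pos.2 hw
  set a' : ℕ → ℕ := fun n => ⌊s n / (wt i - 1)⌋₊ with ha'
  have e1 : ∀ n, (wt i - 1) * a' n ≤ s n := fun n => by
    rw [mul_comm, ← le_div_iff₀ w0]; exact Nat.floor_le (by positivity)
  have e2 : ∀ n, (s n : ℝ) ≤ (wt i - 1) * a' n + (wt i - 1) := fun n => by
    have := Nat.lt_floor_add_one (s n / (wt i - 1))
    rw [div_lt_iff₀ w0] at this
    linarith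
  have e3 : ∀ᶠ n in UF, a n ≤ a' n := hs.mono fun n x =>
    Nat.le_floor (by rw [le_div_iff₀ w0]; linarith)
  have oa' : OM r a' := om_trans os (om_of (wt i - 1)⁻¹ (Eventually.of_forall fun n => by
    rw [inv_mul_eq_div, le_div_iff₀ w0]; linarith [e1 n]))
  obtain ⟨σ', E, hE, hB', hc⟩ := h.child σ r a' X hB oa'
  have ce := zc _ _ _ _ _ _ _ _ _ hM hc
  refine ⟨σ', X.cond E, l, fun n => r' n + (s n + l n), hB', om_add or' (om_add os ol), ol,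
    om_of (ρ * lg / ε) (hn.mono fun n x => ?_), ?_⟩
  · rw [div_mul_eq_mul_div, le_div_iff₀ hε]
    nlinarith [ch_nonneg (P := X.P n) (fun ω => fl1 (s n + l n) ((X.G (gs W σ) n).e ω i)) fun ω =>
      (fl1 (s n) ((X.G (gs W σ) n).e ω i), bl (X.G (gs W σ) n) (r' n) ω,
        (mD X (ds W σ) n).S (a n) ω, (X.G (gs W σ) n).z ω)]
  have c1 := ce.sl i hi l (fun n => s n + l n) (Le.of_le fun n => by push_cast; linarith [e1 n])
  have c2 := ce.bl fun n => r' n + (s n + l n)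
  have c3 := zs _ _ _ _ _ _ _ _ _ X i a' s (fun n => r' n + (s n + l n)) tn hB hw.le
    (h.cel σ r X hB i hi) oa' os ((hM.sm (wt i - 1)).of_sub (Eventually.of_forall fun n => by
      linarith [e2 n])) (Eventually.of_forall fun n => by omega)
  have c4 := sm_of (kb.inf _ _ _ a' _ (tn.low.bs X hB) ((tn.com X hB).lab a' oa').h) tn.sm
  filter_upwards [hn, e3, hc.lab, (tn.com X hB).nest, hE (1 / 2) (by norm_num),
    c1 (ε / 3) (by positivity), c2 (ε / 3) (by positivity), c3 (ε / 3) (by positivity),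
    c4 (ε / 3) (by positivity)] with n x1 x2 x3 x4 x5 x6 x7 x8 x9
  have y1 := fin1 (P := (X.cond E).P n) (fun v => fl1 (l n) ((X.G (gs W σ') n).e v i))
    (fun v => fl1 (s n + l n) ((X.G (gs W σ) n).e v i))
    (bl (X.G (gs W σ') n) (r' n + (s n + l n))) x3.2.1
    (bl_le _ (X.G (gs W σ) n) (show s n + l n ≤ r' n + (s n + l n) by omega))
  have y2 := fin2 (P := X.P n) (F := fun v => fl1 (s n + l n) ((X.G (gs W σ) n).e v i))
    (F₀ := fun v => fl1 (s n) ((X.G (gs W σ) n).e v i)) (X.G (gs W σ) n).z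
    (l := (X.G (gs W σ) n).ln) (c := fun ω => (fl1 (a' n) ((X.G (gs W σ) n).z ω),
      (X.G (gs W σ) n).θ ω))
    (bl_le _ (X.G (gs W σ) n) (show r' n ≤ r' n + (s n + l n) by omega))
    (nest (fun j => (x4.2 j).1) x2)
    (fun u hu v hv e => by
      have := (x4.2 (a' n)).2 u hu v hv e
      simp only [Prod.mk.injEq] at this
      exact Prod.ext this.2.1 this.1)
    (fun u _ v _ e => congrArg (fun t => fl1 (s n + l n) (t.2.1 i)) e)
    (fun u _ v _ e => congrArg (fun t => fl1 (s n) (t.2.1 i)) e)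
    (bl_ln _ _ _)
  have y3 := ke.ge (X.P n) (E n) (fun v => fl1 (s n + l n) ((X.G (gs W σ) n).e v i)) fun v =>
    (bl (X.G (gs W σ) n) (r' n + (s n + l n)) v, (mD X (ds W σ) n).S (a' n) v)
  have y4 := ch_nonneg (P := cE (X.P n) (E n))
    (fun v => fl1 (s n + l n) ((X.G (gs W σ) n).e v i)) fun v =>
      (bl (X.G (gs W σ) n) (r' n + (s n + l n)) v, (mD X (ds W σ) n).S (a' n) v)
  have y5 := mul_nonneg (sub_nonneg.2 (pb_le_one (X.P n) (E n))) (ch_nonneg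
    (P := cE (X.P n) fun ω => ¬E n ω) (fun v => fl1 (s n + l n) ((X.G (gs W σ) n).e v i)) fun v =>
      (bl (X.G (gs W σ) n) (r' n + (s n + l n)) v, (mD X (ds W σ) n).S (a' n) v))
  rw [pb_not] at x5
  have y6 := mul_le_mul_of_nonneg_right (show 1 / 2 ≤ pb (X.P n) (E n) by linarith) y4
  exact y1.trans (by linarith)

variable (W wt i) in
/-- The condition of index `k`. -/
def Pk (k n : ℕ) (x : Ext (Ω n) × (W n).I × ℕ) : Prop := ∀ c : ℕ × ℕ,
  c.2 ≤ (k + 1) * x.2.2 ∧ c.1 ≤ c.2 ∧ (c.1 : ℝ) ≤ (wt i - 1) * c.2 →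
    ch x.1.Q (fun v => fl1 c.1 ((((W n).g x.2.1).pull x.1.ρ).e v i)) (fun v =>
      (bl (((W n).g x.2.1).pull x.1.ρ) c.2 v, (((W n).g x.2.1).pull x.1.ρ).θ v)) ≤
        1 / (k + 1 : ℝ) * x.2.2

theorem Pk.anti {j k n : ℕ} {x : Ext (Ω n) × (W n).I × ℕ} (h : Pk W wt i k n x) (e : j ≤ k) :
    Pk W wt i j n x := fun c hc =>
  (h c ⟨hc.1.trans (Nat.mul_le_mul_right _ (by omega)), hc.2⟩).trans
    (mul_le_mul_of_nonneg_right (Nat.one_div_le_one_div e) (Nat.cast_nonneg _))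

theorem step2 (zc : ZCh) (zs : ZSl) (zr : ZRem) (h : Cz W B mm η γ T J wt) (h0 : 0 ∈ T)
    (hi : i ∈ J) (hw : 1 < wt i) {σ : ∀ n, (W n).I} {r : ℕ → ℕ}
    (hn : ¬BrK (B σ r) (gs W σ) r (ds W σ) i (wt i)) (k : ℕ) :
    ∃ y : ∀ n, Ext (Ω n) × (W n).I × ℕ,
      B (fun n => (y n).2.1) (fun n => (y n).2.2) (fun n => (y n).1) ∧
        ∀ᶠ n in UF, Pk W wt i k n (y n) := by
  unfold BrK at hn
  push Not at hn
  obtain ⟨X₀, hX₀, hn⟩ := hn (1 / (8 * (k + 1 : ℝ) ^ 2)) (by positivity)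
  obtain ⟨σ', X, l, s, hB, os, ol, or', hc⟩ := step zc zs h hi hw hX₀ hn
  have hl : Big l := big_of (big h hB) or'
  have e1 : ∀ᶠ n in UF, l n ≤ 2 * (k + 1) * (l n / (k + 1)) := by
    filter_upwards [tendsto_atTop.1 hl (k + 1)] with n x
    have a1 := Nat.lt_mul_div_succ (l n) (Nat.succ_pos k)
    have a2 : 1 ≤ l n / (k + 1) := (Nat.le_div_iff_mul_le (Nat.succ_pos k)).2 (by omega)
    nlinarith
  have o1 : OM (fun n => l n / (k + 1)) r := om_trans ⟨_, e1⟩ or'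
  have hB' := h.unit σ' r (fun n => l n / (k + 1)) X hB
    (om_trans ol ⟨1, Eventually.of_forall fun n => by
      rw [one_mul]; exact Nat.div_le_self _ _⟩) o1
  refine ⟨fun n => (X n, σ' n, l n / (k + 1)), hB', unif (A := fun _ => ℕ × ℕ) fun c hc' => ?_⟩
  have z := zr _ _ _ _ _ _ _ _ _ X i (fun n => (c n).1) (fun n => (c n).2) s
    (h.tn _ _ X hB') h0 hB' hw.le (h.cel _ _ X hB' i hi) ⟨k + 1, hc'.mono fun n x => x.1⟩
    (om_trans o1 os) (hc'.mono fun n x => x.2)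
  filter_upwards [z (1 / (2 * (k + 1 : ℝ))) (by positivity), hc, hc', e1] with n x1 x2 x3 x4
  have a1 : (c n).1 ≤ l n := x3.2.1.trans (x3.1.trans (Nat.mul_div_le _ _))
  have a2 : ch (X n).Q (fun v => fl1 (c n).1 ((X.G (gs W σ') n).e v i)) (fun v =>
      (bl (X.G (gs W σ') n) (s n) v, (X.G (gs W σ') n).θ v)) ≤
      ch (X n).Q (fun v => fl1 (l n) ((X.G (gs W σ') n).e v i)) fun v =>
        (bl (X.G (gs W σ') n) (s n) v, (X.G (gs W σ') n).θ v) :=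
    ch_mono fun u _ v _ e => fl1_eq_of_le a1 (congrArg Prod.fst e)
  have a3 : (l n : ℝ) ≤ 2 * (k + 1) * (l n / (k + 1) : ℕ) := by exact_mod_cast x4
  have a4 : 2 * (1 / (8 * (k + 1 : ℝ) ^ 2) * l n * lg) ≤
      1 / (2 * (k + 1 : ℝ)) * (l n / (k + 1) : ℕ) := by
    have b1 : (l n : ℝ) * lg ≤ 2 * (k + 1) * (l n / (k + 1) : ℕ) := by
      nlinarith [lg_lt_one, Nat.cast_nonneg (α := ℝ) (l n)]
    calc _ = 1 / (4 * (k + 1 : ℝ) ^ 2) * (l n * lg) := by field_simp; ring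
      _ ≤ 1 / (4 * (k + 1 : ℝ) ^ 2) * (2 * (k + 1) * (l n / (k + 1) : ℕ)) := by gcongr
      _ = _ := by field_simp; ring
  have a5 : 1 / (k + 1 : ℝ) * (l n / (k + 1) : ℕ) = 1 / (2 * (k + 1 : ℝ)) * (l n / (k + 1) : ℕ) +
      1 / (2 * (k + 1 : ℝ)) * (l n / (k + 1) : ℕ) := by field_simp; ring
  exact x1.trans (by rw [a5]; linarith)

end ZDiA

open ZDiA in
theorem rowZDi : Zoom.OfZDi := by
  intro zc zs zr Ω W B mm η γ T J wt i σ r h h0 hi hw
  refine or_iff_not_imp_left.2 fun hn => ?_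
  choose y hy using step2 zc zs zr h h0 hi hw hn
  obtain ⟨k, -, hk⟩ := cf_diag (K := fun j (x : ∀ n, Ext (Ω n) × (W n).I × ℕ) =>
    B (fun n => (x n).2.1) (fun n => (x n).2.2) (fun n => (x n).1) ∧
      ∀ᶠ n in UF, Pk W wt i j n (x n)) (fun j => h.cf.and (cf_ev (Pk W wt i j))) y
    fun k j e => ⟨(hy k).1, (hy k).2.mono fun n x => x.anti e⟩
  refine ⟨_, _, _, (hk 0).1, fun q b ⟨C, ob⟩ hq ε hε => ?_⟩
  obtain ⟨m, hm⟩ := exists_nat_one_div_lt hε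
  filter_upwards [(hk (max m C)).2, ob, hq] with n x1 x2 x3
  refine (x1 (q n, b n) ⟨x2.trans (Nat.mul_le_mul_right _ (by omega)), x3⟩).trans ?_
  rw [zero_add]
  exact mul_le_mul_of_nonneg_right ((Nat.one_div_le_one_div (le_max_left m C)).trans hm.le)
    (Nat.cast_nonneg _)

end Pool.Agent.MP_5168f5_an.R4
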