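import Pool.Agent.MP_5168f5_an.R4.SpecZ

/-! Towers of frames: determined slopes persist. -/

namespace Pool.Agent.MP_5168f5_an.R4

open H19 H17S H17F Filter Tan Zoom

namespace ZNilA

/-- The entropy of the slope given the base line. -/
noncomputable def nf {Ω : Type} (P : FP Ω) (g : Geo 3 Ω) (i : Fin 3) (a : ℕ × ℕ) : ℝ :=
  ch P (fun ω => fl1 a.1 (g.e ω i)) fun ω => (bl g a.2 ω, g.θ ω)

/-- Admissible depths. -/
def Ad (w : ℝ) (C M : ℕ) (a : ℕ × ℕ) : Prop := (a.1 ≤ a.2 ∧ (a.1 : ℝ) ≤ (w - 1) * a.2) ∧ a.2 ≤ C * M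

theorem ad0 (w : ℝ) (C M : ℕ) : Ad w C M (0, 0) := by simp [Ad]

theorem nil_iff {Ω : ℕ → Type} (P : ∀ n, FP (Ω n)) (g : Gs 3 Ω) (M : ℕ → ℕ) (i : Fin 3) (w : ℝ) :
    Nil P g M i w ↔ ∀ C : ℕ, ∀ a : ℕ → ℕ × ℕ, (∀ n, Ad w C (M n) (a n)) →
      Le M (fun n => nf (P n) (g n) i (a n)) fun _ => 0 := by
  classical
  refine ⟨fun h C a ha => h (fun n => (a n).1) (fun n => (a n).2)
    ⟨C, Eventually.of_forall fun n => (ha n).2⟩ (Eventually.of_forall fun n => (ha n).1),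
    fun h q r ⟨C, hC⟩ hq => ?_⟩
  refine (h C (fun n => if Ad w C (M n) (q n, r n) then (q n, r n) else (0, 0)) fun n => ?_).congr
    ?_ (Eventually.of_forall fun _ => rfl)
  · split_ifs with c
    exacts [c, ad0 _ _ _]
  · filter_upwards [hC, hq] with n a b
    rw [if_pos (show Ad w C (M n) (q n, r n) from ⟨b, a⟩)]
    rfl

variable {Ω : ℕ → Type} (W : ∀ n, Tw (Ω n)) (i : Fin 3) (w : ℝ)

theorem cf_nil : CF fun x : ∀ n, Ext (Ω n) × (W n).I × ℕ =>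
    Nil (Mb.P fun n => (x n).1) (Mb.G (fun n => (x n).1) (gs W fun n => (x n).2.1))
      (fun n => (x n).2.2) i w :=
  (cf_all fun C : ℕ => cf_leU (S := fun n => Ext (Ω n) × (W n).I × ℕ) (A := fun _ _ => ℕ × ℕ)
    (fun _ x a => Ad w C x.2.2 a) (fun _ _ => ⟨_, ad0 _ _ _⟩) (fun _ x => x.2.2)
    (fun n x a => nf x.1.Q (((W n).g x.2.1).pull x.1.ρ) i a) fun _ _ _ => 0).congr
    fun _ => nil_iff _ _ _ _ _

theorem cl_nil (σ : ∀ n, (W n).I) (r : ℕ → ℕ) :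
    Cl fun X : Mb Ω => Nil X.P (X.G (gs W σ)) r i w :=
  ⟨cl0_all fun q => cl0_all fun b => cl0_all fun _ => cl0_all fun _ =>
    (kc1.sm r (fun n ω => fl1 (q n) ((gs W σ n).e ω i))
      fun n ω => (bl (gs W σ n) (b n) ω, (gs W σ n).θ ω)).toCl0,
    (cf_nil W i w).comp fun n (x : Ext (Ω n)) => (x, σ n, r n)⟩

theorem om_trans {r r' b : ℕ → ℕ} (h : OM r r') (h' : OM r' b) : OM r b := by
  obtain ⟨C, a⟩ := h
  obtain ⟨C', a'⟩ := h'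
  refine ⟨C' * C, ?_⟩
  filter_upwards [a, a'] with n u v
  rw [mul_assoc]
  exact v.trans (Nat.mul_le_mul_left _ u)

theorem le_om {r r' : ℕ → ℕ} {f g : ℕ → ℝ} (h : Le r f g) (k : OM r' r) : Le r' f g := by
  obtain ⟨C, a⟩ := k
  intro ε hε
  filter_upwards [h (ε / (C + 1)) (by positivity), a] with n u v
  have v1 : (r n : ℝ) ≤ (C + 1) * r' n := by
    have : (r n : ℝ) ≤ C * r' n := by exact_mod_cast v
    nlinarith [Nat.cast_nonneg (α := ℝ) (r' n)]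
  have v2 : ε / (C + 1) * r n ≤ ε * r' n := by
    rw [div_mul_eq_mul_div, div_le_iff₀ (by positivity)]
    nlinarith
  linarith

theorem split {Ω Λ : Type} {P : FP Ω} (g g' : Geo 3 Ω) (S : Ω → Λ) (i : Fin 3) {q s s₂ : ℕ}
    (hs : s ≤ s₂) (h1 : Fn P S g'.θ) (h2 : Fn P g.θ S) :
    ch P (fun ω => fl1 q (g'.e ω i)) (fun ω => (bl g' s₂ ω, g'.θ ω)) ≤
      ch P (bl g s₂) (fun ω => (bl g' s₂ ω, S ω)) +
      ch P (fun ω => fl1 s (g.e ω i)) (fun ω => (bl g s₂ ω, g.θ ω)) +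
      ch P (fun ω => fl1 q (g'.e ω i)) fun ω => (fl1 s (g.e ω i), bl g s ω, S ω) := by
  have a1 : ch P (fun ω => fl1 q (g'.e ω i)) (fun ω => (bl g' s₂ ω, g'.θ ω)) ≤
      ch P (fun ω => fl1 q (g'.e ω i)) fun ω => (bl g' s₂ ω, S ω) :=
    ch_anti ((Fn.fst _ _).pair (h1.right _))
  have a2 := ch_tri (P := P) (fun ω => fl1 q (g'.e ω i)) (bl g s₂) fun ω => (bl g' s₂ ω, S ω)
  have a3 := ch_tri (P := P) (fun ω => fl1 q (g'.e ω i)) (fun ω => fl1 s (g.e ω i))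
    fun ω => (bl g s₂ ω, bl g' s₂ ω, S ω)
  have a4 : ch P (fun ω => fl1 s (g.e ω i)) (fun ω => (bl g s₂ ω, bl g' s₂ ω, S ω)) ≤
      ch P (fun ω => fl1 s (g.e ω i)) fun ω => (bl g s₂ ω, g.θ ω) :=
    ch_anti ((Fn.fst _ _).pair ((h2.right _).right _))
  have a5 : ch P (fun ω => fl1 q (g'.e ω i))
      (fun ω => (fl1 s (g.e ω i), bl g s₂ ω, bl g' s₂ ω, S ω)) ≤
      ch P (fun ω => fl1 q (g'.e ω i)) fun ω => (fl1 s (g.e ω i), bl g s ω, S ω) :=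
    ch_anti fun a _ b _ e => by
      simp only [bl, Prod.mk.injEq] at e ⊢
      exact ⟨e.1, ⟨fl1_eq_of_le hs e.2.1.1, fl1_eq_of_le hs e.2.1.2⟩, e.2.2.2⟩
  linarith

/-- The slope is determined in every child. -/
theorem nilC (zc : ZCh) (zr : ZRem) {Ω : ℕ → Type} {W : ∀ n, Tw (Ω n)}
    {B : (∀ n, (W n).I) → (ℕ → ℕ) → Mb Ω → Prop} {mm : ℕ → ℕ} {η γ : ℝ} {T J : Finset (Fin 3)}
    {wt : Fin 3 → ℝ} {i : Fin 3} {σ σ' : ∀ n, (W n).I} {r a : ℕ → ℕ} {X : Mb Ω}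
    {E : ∀ n, (X n).W → Prop} (h : Cz W B mm η γ T J wt) (h0 : 0 ∈ T) (hi : i ∈ J)
    (hw : 1 < wt i) (k : BN W B i (wt i) σ r X) (ha : OM r a) (e1 : Whp X.P E)
    (e2 : B σ' r (X.cond E)) (e3 : Chd (X.cond E).P (X.G (gs W σ)) (X.G (gs W σ'))
      (mD X (ds W σ)) (mD X (ds W σ')) r a J wt) : BN W B i (wt i) σ' r (X.cond E) := by
  refine ⟨e2, fun q b hb hq => ?_⟩
  have t := h.tn σ r X k.1
  have hr : Big r := by simpa using ((t.cls 1 one_pos).bs X k.1).big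
  have c := zc _ _ _ _ _ _ _ _ _ hr e3
  have n1 := (cl_nil W i (wt i) σ r).cond X E k.2 e1.pos
  have n2 := (t.com _ (t.cl.cond X E k.1 e1.pos)).nest
  obtain ⟨m, hm⟩ := exists_nat_ge (1 / (wt i - 1))
  rw [div_le_iff₀ (by linarith)] at hm
  obtain ⟨s, hs⟩ : ∃ s : ℕ → ℕ, ∀ n, s n = ⌈(wt i - 1) * a n⌉₊ + q n := ⟨_, fun _ => rfl⟩
  have o1 : OM r fun n => (m + 1) * s n := by
    obtain ⟨C, a1⟩ := ha
    obtain ⟨C', a2⟩ := hb
    refine ⟨(m + 1) * (⌈wt i⌉₊ * C + C'), ?_⟩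
    filter_upwards [a1, a2, hq] with n u v y
    have u1 : ⌈(wt i - 1) * a n⌉₊ ≤ ⌈wt i⌉₊ * a n := Nat.ceil_le.2 (by
      push_cast
      exact mul_le_mul_of_nonneg_right (by linarith [Nat.le_ceil (wt i)]) (Nat.cast_nonneg _))
    rw [mul_assoc, hs, add_mul (⌈wt i⌉₊ * C), mul_assoc]
    exact Nat.mul_le_mul_left _ (add_le_add (u1.trans (Nat.mul_le_mul_left _ u)) (y.1.trans v))
  have o2 : ∀ n, s n ≤ (m + 1) * s n := fun n => Nat.le_mul_of_pos_left _ (Nat.succ_pos m)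
  have q1 := zr _ _ _ _ _ _ _ _ _ _ i q b _ (h.tn σ' r _ e2) h0 e2 hw.le (h.cel σ' r _ e2 i hi)
    hb o1 hq
  have q2 := c.sl i hi q s (Le.of_le fun n => by
    rw [hs]
    push_cast
    linarith [Nat.le_ceil ((wt i - 1) * a n)])
  have q3 := c.bl fun n => (m + 1) * s n
  have q4 := n1 s _ o1 (Eventually.of_forall fun n => ⟨o2 n, by
    push_cast
    nlinarith [Nat.cast_nonneg (α := ℝ) (s n)]⟩)
  refine q1.of4 q3 q4 q2 ?_
  filter_upwards [e3.lab, n2] with n u v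
  have y := split (q := q n) (X.G (gs W σ) n) (X.G (gs W σ') n) ((mD X (ds W σ) n).S (a n)) i (o2 n)
    u.2.1 ((Fn.fst _ _).trans (v.2 (a n)).2)
  linarith

end ZNilA

open ZNilA in
theorem rowZNil : Zoom.OfZNil := by
  intro zc zr Ω W B mm η γ T J wt i h h0 hi hw
  refine ⟨h.cf.and (cf_nil W i (wt i)), fun σ r X k => ?_, fun σ r X k => h.cel σ r X k.1,
    fun σ r r' X k a b => ⟨h.unit σ r r' X k.1 a b, fun q s c d =>
      le_om (k.2 q s (om_trans a c) d) b⟩, fun σ r a X k ha => ?_⟩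
  · have t := h.tn σ r X k.1
    exact zSub _ _ _ _ _ _ _ _ _ _ t (t.cl.and (cl_nil W i (wt i) σ r)) ⟨X, k⟩
      fun Y y => ⟨y.1, (t.com Y y.1).typ⟩
  obtain ⟨σ', E, e1, e2, e3⟩ := h.child σ r a X k.1 ha
  exact ⟨σ', E, e1, nilC zc zr h h0 hi hw k ha e1 e2 e3, e3⟩

end Pool.Agent.MP_5168f5_an.R4
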