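import Pool.Agent.MP_5168f5_an.R4.SpecZ

/-! Deep digits of the base line are independent of the cell. -/

namespace Pool.Agent.MP_5168f5_an.R4

open H19 H17S H17F Filter Tan

namespace ZOffA

theorem fan {Ω β : ℕ → Type} (P : ∀ n, FP (Ω n)) (E : ∀ n, Ω n → Prop) (x : ∀ n, Ω n → ℝ)
    (G : ∀ n, Ω n → β n) {M k : ℕ → ℕ} {L L' : ℕ → ℝ} (hM : Big M) (hk : ∀ n, k n ≤ M n)
    (hL : Sub M L) (hL' : Sub M L') (hw : Whp P E) (h : ∀ᶠ n in UF, ∀ a ∈ (P n).S, |x n a| ≤ L n ∧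
      ∃ y, ∀ b ∈ (P n).S, G n b = G n a → E n b → |x n b - y| ≤ L' n / 2 ^ k n) :
    Sm M fun n => ch (P n) (fun ω => fl1 (k n) (x n ω)) (G n) := by
  refine ks.fano P _ _ _ M _ 2 hM
    ((hL'.const_mul hM one_le_two).add (hM.sub (by norm_num : (1 : ℝ) ≤ 3)) hM) hw ?_
  filter_upwards [h, (hL.const_mul hM (by norm_num : (1 : ℝ) ≤ 7)).2 1 one_pos] with n e2 e3
  have l1 := hL.1 n
  have p1 : (1 : ℝ) ≤ 2 ^ k n := one_le_pow₀ one_le_two
  refine ⟨fun a ha => (det_near1 (L := 2 * L n * 2 ^ k n) (by positivity) (fun a ha b hb _ => ?_)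
    a ha).imp fun T hT => ⟨hT.1.trans ?_, hT.2⟩, fun a ha => (e2 a ha).2.elim fun y hy =>
      ⟨Finset.Icc (fl1 (k n) y - ⌈L' n⌉₊) (fl1 (k n) y + ⌈L' n⌉₊), ?_,
      fun b hb e h => fl1_mem_Icc ?_⟩⟩
  · rw [mul_div_cancel_right₀ _ (by positivity)]
    exact (abs_sub _ _).trans (by linarith [(e2 a ha).1, (e2 b hb).1])
  · have p2 := (two_pow_le_exp (k n)).trans (Real.exp_le_exp.2 (Nat.cast_le.2 (hk n)))
    have p3 := mul_le_mul e3 p2 (by positivity) (Real.exp_pos _).le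
    rw [one_mul, ← Real.exp_add, ← two_mul] at p3
    nlinarith
  · rw [show (Finset.Icc (fl1 (k n) y - ⌈L' n⌉₊)
      (fl1 (k n) y + ⌈L' n⌉₊)).card = 2 * ⌈L' n⌉₊ + 1 by rw [Int.card_Icc]; omega]
    push_cast
    linarith [Nat.ceil_lt_add_one (hL'.pos n).le]
  · refine (hy b hb e h).trans ?_
    rw [div_eq_mul_inv]
    exact mul_le_mul_of_nonneg_right (Nat.le_ceil _) (by positivity)

theorem ent {Ω Λ Θ Y : Type} {P : FP Ω} (ar ab xr xb : Ω → ℤ) {wr wb tr tb : Ω → ℤ}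
    {Sb Sr : Ω → Λ} {θ : Ω → Θ} {y : Ω → Y} (h1 : Fn P wb wr) (h2 : Fn P Sb Sr) (h3 : Fn P θ Sb)
    (h4 : Fn P tr Sr) (h5 : Fn P wr y) (h6 : Fn P tb Sb) :
    mi P Sb (fun ω => (ar ω, wr ω)) (fun ω => ((ab ω, wb ω), θ ω)) ≤ ch P xb Sb +
      ch P ab (fun ω => (xb ω, wb ω, tb ω)) + ch P xr (fun ω => (tr ω, ar ω, wr ω)) +
      2 * mi P y Sr θ + ch P xr Sr + ch P ar ab + ch P tr tb - ch P tr Sb -
      ch P xr fun ω => (tr ω, Sb ω) := by
  have u1 := ch_tri (P := P) (fun ω => (ar ω, wr ω)) wr fun ω => ((ab ω, wb ω), θ ω)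
  have u2 : ch P (fun ω => (ar ω, wr ω)) (fun ω => (wr ω, (ab ω, wb ω), θ ω)) ≤ ch P ar ab :=
    ch_le (fun _ _ _ _ e => by simp_all) fun _ _ _ _ e => by simp_all
  have u3 : ch P wr (fun ω => ((ab ω, wb ω), θ ω)) ≤ ch P wr fun ω => (wb ω, θ ω) :=
    ch_anti fun _ _ _ _ e => by simp_all
  have a1 := ch_tri (P := P) (fun ω => (ar ω, wr ω)) ab fun ω => (wb ω, Sb ω)
  have a2 : ch P (fun ω => (ar ω, wr ω)) (fun ω => (ab ω, wb ω, Sb ω)) ≤
      ch P (fun ω => (ar ω, wr ω)) fun ω => (Sb ω, (ab ω, wb ω), θ ω) :=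
    ch_anti fun a ha b hb e => by
      simp only [Prod.mk.injEq] at e ⊢
      exact ⟨e.2.2, ⟨e.1, e.2.1⟩, h3 a ha b hb e.2.2⟩
  have a3 := ch_tri (P := P) ab xb fun ω => (wb ω, Sb ω)
  have a4 : ch P xb (fun ω => (wb ω, Sb ω)) ≤ ch P xb Sb := ch_anti (Fn.snd _ _)
  have a5 : ch P ab (fun ω => (xb ω, wb ω, Sb ω)) ≤ ch P ab fun ω => (xb ω, wb ω, tb ω) :=
    ch_anti fun a ha b hb e => by
      simp only [Prod.mk.injEq] at e ⊢
      exact ⟨e.1, e.2.1, h6 a ha b hb e.2.2⟩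
  have b1 := ch_tri (P := P) (fun ω => (wr ω, tr ω, xr ω)) (fun ω => (ar ω, wr ω)) fun ω =>
    (wb ω, Sb ω)
  have b2 := ch_tri (P := P) (fun ω => (wr ω, tr ω, xr ω)) tr fun ω => ((ar ω, wr ω), wb ω, Sb ω)
  have b3 : ch P tr (fun ω => ((ar ω, wr ω), wb ω, Sb ω)) ≤ ch P tr tb :=
    ch_anti ((h6.right _).right _)
  have b4 : ch P (fun ω => (wr ω, tr ω, xr ω)) (fun ω => (tr ω, (ar ω, wr ω), wb ω, Sb ω)) ≤
      ch P xr fun ω => (tr ω, ar ω, wr ω) :=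
    ch_le (fun _ _ _ _ e => by simp_all) fun _ _ _ _ e => by simp_all
  have c1 := ch_chain (P := P) wr (fun ω => (tr ω, xr ω)) fun ω => (wb ω, Sb ω)
  have c2 : ch P wr (fun ω => (wb ω, θ ω)) ≤ ch P wr (fun ω => (wb ω, Sb ω)) +
      mi P wr Sr fun ω => (wb ω, θ ω) :=
    ch_le_mi (((Fn.fst _ _).right _).pair (h2.left _))
  have c3 : mi P wr Sr (fun ω => (wb ω, θ ω)) ≤ mi P y Sr θ :=
    mi_left (Fn.snd _ _) (((h1.trans h5).left _).pair (Fn.snd _ _)) (h5.left _)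
  have d1 : ch P (fun ω => (tr ω, xr ω)) Sb ≤ ch P (fun ω => (tr ω, xr ω))
      (fun ω => (wr ω, wb ω, Sb ω)) + mi P (fun ω => (tr ω, xr ω)) wr Sb :=
    ch_le_mi ((Fn.fst _ _).pair ((h1.left _).pair (Fn.snd _ _)))
  have d2 := mi_near (P := P) wr (fun ω => (tr ω, xr ω)) Sr Sb
  have d3 : mi P wr Sr Sb ≤ mi P y Sr θ := (mi_cond h3 (h2.left _)).trans (mi_mono' (h5.left _))
  have d4 : ch P (fun ω => (tr ω, xr ω)) (fun ω => (Sr ω, Sb ω)) ≤ ch P xr Sr :=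
    ch_le (((h4.left _).right _).pair (Fn.fst _ _)) (Fn.fst _ _)
  have d5 := ch_chain (P := P) tr xr Sb
  rw [mi_symm] at d1 ⊢
  rw [mi]
  linarith

theorem near {j : ℕ} {x y : ℝ} (h : fl1 j x = fl1 j y) : |x - y| ≤ 1 / 2 ^ j := by
  rw [one_div]; exact (abs_sub_lt_of_fl1_eq h).le

theorem prd {t t' w w' L ε : ℝ} (h0 : 0 ≤ t) (h1 : t < 1) (hw : |w'| ≤ L) (a : |t - t'| ≤ ε)
    (b : |w - w'| ≤ ε) : |t * w - t' * w'| ≤ (1 + L) * ε := by
  rw [show t * w - t' * w' = t * (w - w') + w' * (t - t') by ring, add_mul]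
  refine (abs_add_le _ _).trans (add_le_add ?_ ?_) <;> rw [abs_mul]
  · exact mul_le_mul ((abs_of_nonneg h0).trans_le h1.le) b (abs_nonneg _) zero_le_one
  · exact mul_le_mul hw a (abs_nonneg _) ((abs_nonneg _).trans hw)

theorem main {Ω : ℕ → Type} {K : Mb Ω → Prop} {g : Gs 3 Ω} {M mm : ℕ → ℕ} {D : ∀ n, Td (Ω n)}
    {η γ : ℝ} {T : Finset (Fin 3)} {X : Mb Ω} {b r : ℕ → ℕ} {C : ℕ} (h : Tn K g M mm D η γ T)
    (hT : 0 ∈ T) (hX : K X) (hC : 0 < C) (hb : ∀ n, b n ≤ r n) (hr : ∀ n, r n ≤ C * M n) :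
    Sm (fun n => C * M n) fun n => mi (X n).Q ((mD X D n).S (b n)) (bl (X.G g n) (r n)) fun v =>
      (bl (X.G g n) (b n) v, (X.G g n).θ v) := by
  have c := h.com X hX
  have k := h.cls C hC
  have bs := k.bs X hX
  have hM := bs.big
  have one := hM.sub le_rfl
  obtain ⟨L, hL, bx⟩ := bs.bx
  have up : ∀ n, M n ≤ C * M n := fun n => Nat.le_mul_of_pos_left _ hC
  have ev : ∀ᶠ n in UF, (mm n : ℝ) ≤ (C * M n : ℕ) := (h.sm 1 one_pos).mono fun n a =>
    le_trans (by simpa using a) (Nat.cast_le.2 (up n))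
  have lu : ∀ {f : ℕ → ℝ}, Sm mm f → Sm (fun n => C * M n) f := fun e ε hε => by
    filter_upwards [ev, e ε hε] with n a a'
    exact a'.trans (add_le_add le_rfl (mul_le_mul_of_nonneg_left a hε.le))
  have hb' := fun n => (hb n).trans (hr n)
  have om : ∀ {j : ℕ → ℕ}, (∀ n, j n ≤ C * M n) → OM M j := fun a => ⟨C, Eventually.of_forall a⟩
  have lab : Lab X.P (X.G g) (fun n => C * M n) b fun n => (mD X D n).S (b n) :=
    ⟨lu (c.lab b (om hb')).h, lu (c.lab b (om hb')).l⟩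
  have fat : Fat X.P (X.G g) (fun n => C * M n) 0 r := (c.fat 0 r (om hr)).imp fun L a =>
    ⟨⟨a.1.1, fun ε hε => by
      filter_upwards [ev, a.1.2 ε hε] with n a a'
      exact a'.trans (Real.exp_le_exp.2 (mul_le_mul_of_nonneg_left a hε.le))⟩, a.2⟩
  have pt : ∀ n v, (X.G g n).pt v 0 = (X.G g n).a v 0 + (X.G g n).z v * (X.G g n).e v 0 :=
    fun _ _ => rfl
  have s0 : ∀ j : ℕ → ℕ, (∀ n, j n ≤ C * M n) → Sm (fun n => C * M n) fun n => ch (X n).Q
      (fun v => fl1 (j n) ((X.G g n).pt v 0)) ((mD X D n).S (j n)) := fun j hj => by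
    obtain ⟨L', hL', w⟩ := c.ball j (om hj)
    refine fan X.P _ _ _ hM hj (hL.const_mul hM one_le_two) (hL'.up up) w ?_
    filter_upwards [bx, c.nest] with n e ne a ha
    refine ⟨?_, (mD X D n).o (j n) a 0, fun v hv z w => ?_⟩
    · have := prd (t' := 0) (w' := 0) (L := 0) (e.bd a ha).2.1 (e.bd a ha).2.2 (by simp)
        (ε := L n) (by
          rw [sub_zero, abs_of_nonneg (e.bd a ha).2.1]
          linarith [(e.bd a ha).2.2, hL.1 n])
        (by rw [sub_zero]; exact ((e.bd a ha).1 0).2)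
      rw [pt]
      exact (abs_add_le _ _).trans (by simp at this ⊢; linarith [((e.bd a ha).1 0).1])
    · rw [← show (mD X D n).o (j n) v = (mD X D n).o (j n) a from
        congrArg (·.2.2.1) ((ne.2 (j n)).2 v hv a ha z)]
      exact w 0
  have nr : ∀ {n j : ℕ} {u v : (X n).W}, (X.G g n).Bx (X n).Q (L n) → u ∈ (X n).Q.S →
      v ∈ (X n).Q.S → fl1 j ((X.G g n).z u) = fl1 j ((X.G g n).z v) →
      fl1 j ((X.G g n).e u 0) = fl1 j ((X.G g n).e v 0) →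
      |(X.G g n).z u * (X.G g n).e u 0 - (X.G g n).z v * (X.G g n).e v 0| ≤
        (1 + L n) * (1 / 2 ^ j) := fun e hu hv a a' =>
    prd (e.bd _ hu).2.1 (e.bd _ hu).2.2 ((e.bd _ hv).1 0).2 (near a) (near a')
  have s1 : Sm (fun n => C * M n) fun n => ch (X n).Q (fun v => fl1 (b n) ((X.G g n).a v 0))
      fun v => (fl1 (b n) ((X.G g n).pt v 0), fl1 (b n) ((X.G g n).e v 0),
        fl1 (b n) ((X.G g n).z v)) := by
    refine Sm.near1 hM (one.add (one.add hL hM) hM) (bx.mono fun n e u hu v hv z => ?_)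
    simp only [Prod.mk.injEq] at z
    have z1 := near z.1
    have z2 := nr e hu hv z.2.2 z.2.1
    rw [pt, pt] at z1
    rw [div_eq_mul_one_div, abs_le] at *
    constructor <;> linarith [z1.1, z1.2, z2.1, z2.2]
  have s2 : Sm (fun n => C * M n) fun n => ch (X n).Q (fun v => fl1 (r n) ((X.G g n).pt v 0))
      fun v => (fl1 (r n) ((X.G g n).z v), fl1 (r n) ((X.G g n).a v 0),
        fl1 (r n) ((X.G g n).e v 0)) := by
    refine Sm.near1 hM (one.add (one.add hL hM) hM) (bx.mono fun n e u hu v hv z => ?_)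
    simp only [Prod.mk.injEq] at z
    have z1 := near z.2.1
    have z2 := nr e hu hv z.1 z.2.2
    rw [pt, pt]
    rw [div_eq_mul_one_div, abs_le] at *
    constructor <;> linarith [z1.1, z1.2, z2.1, z2.2]
  have u := fun x : ∀ n, (X n).W → ℝ => le_fl1 (P := X.P) (x := x)
    (G := fun n v => fl1 (b n) (x n v)) hM one hb (Eventually.of_forall fun _ _ _ _ _ => near)
  have hj := fun n => And.intro (le_refl (b n)) (And.intro (hb n) (hr n))
  refine Le.of5 (((((s0 b hb').add s1).add s2).add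
    (Sm.smul ((c.typ r (om hr)).up up) zero_le_two)).add (s0 r hr)) (u fun n v => (X.G g n).a v 0) (u fun n => (X.G g n).z)
    (kb.hgt _ _ _ _ _ _ _ bs lab.h hj) (xa K g _ b b r 0 η X _ k hX lab fat hj) ?_
  filter_upwards [c.nest] with n ne
  have h2 : ∀ j, b n ≤ j → Fn (X n).Q ((mD X D n).S (b n)) ((mD X D n).S j) := fun j hj =>
    Nat.le_induction (Fn.rfl _) (fun j _ a => a.trans (ne.2 j).1) j hj
  have e1 := ent (P := (X n).Q) (fun v => fl1 (r n) ((X.G g n).a v 0))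
    (fun v => fl1 (b n) ((X.G g n).a v 0)) (fun v => fl1 (r n) ((X.G g n).pt v 0))
    (fun v => fl1 (b n) ((X.G g n).pt v 0)) (wr := fun v => fl1 (r n) ((X.G g n).e v 0))
    (wb := fun v => fl1 (b n) ((X.G g n).e v 0)) (y := ty (X.G g n) T (r n))
    (fun _ _ _ _ => fl1_eq_of_le (hb n)) (h2 _ (hb n))
    (fun u hu v hv z => congrArg (·.1) ((ne.2 (b n)).2 u hu v hv z))
    (fun u hu v hv z => congrArg (·.2.1) ((ne.2 (r n)).2 u hu v hv z))
    (fun u _ v _ z => by simpa only [ty, if_pos hT] using congrFun z 0)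
    (fun u hu v hv z => congrArg (·.2.1) ((ne.2 (b n)).2 u hu v hv z))
  have e2 := ch_anti (P := (X n).Q) (F := fun v => fl1 (r n) ((X.G g n).z v))
    (((Fn.rfl ((mD X D n).S (b n))).right (X.G g n).ln).right fun v => fl1 (b n) ((X.G g n).z v))
  have e3 : ch (X n).Q (fun v => fl1 (r n) ((X.G g n).pt v 0)) (fun v =>
      (fl1 (b n) ((X.G g n).pt v 0), (mD X D n).S (b n) v, (X.G g n).zt v)) ≤
      ch (X n).Q (fun v => fl1 (r n) ((X.G g n).pt v 0)) fun v =>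
        (fl1 (r n) ((X.G g n).z v), (mD X D n).S (b n) v) :=
    ch_anti fun _ _ _ _ z => congrArg (fun y => (fl1 (r n) y.2.2.1, y.2.1)) z
  exact (sub_zero _).trans_le (e1.trans (by linarith))

end ZOffA

theorem rowZOff : Zoom.ZOff := by
  classical
  intro Ω K g M mm D η γ T X b r h hT hX ⟨C, hC⟩ hb
  have e : ∀ᶠ n in UF, b n ≤ r n ∧ r n ≤ (C + 1) * M n :=
    hb.and (hC.mono fun n a => a.trans (Nat.mul_le_mul_right _ C.le_succ))
  refine Sm.mono (Le.frac (ZOffA.main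
    (b := fun n => if b n ≤ r n ∧ r n ≤ (C + 1) * M n then b n else 0)
    (r := fun n => if b n ≤ r n ∧ r n ≤ (C + 1) * M n then r n else 0) h hT hX C.succ_pos
    (fun n => ?_) fun n => ?_) ⟨fun n => Nat.le_mul_of_pos_left _ C.succ_pos, 1 / (C + 1),
      by positivity, Eventually.of_forall fun n => le_of_eq ?_⟩) (e.mono fun n a => ?_)
  · split_ifs with a
    exacts [a.1, le_rfl]
  · split_ifs with a
    exacts [a.2, Nat.zero_le _]
  · push_cast
    field_simp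
  · simp only [if_pos a, le_refl]

end Pool.Agent.MP_5168f5_an.R4
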