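import Pool.Agent.MP_5168f5_an.R4.SpecZ

/-! Deep digits of the base line do not help to determine the slope. -/

namespace Pool.Agent.MP_5168f5_an.R4

open H19 H17S H17F Filter Tan

namespace ZRemA

theorem fn_bl {Ω : Type} (P : FP Ω) (g : Geo 3 Ω) {r r' : ℕ} (h : r ≤ r') :
    Fn P (bl g r) (bl g r') := fun _ _ _ _ e =>
  Prod.ext (fl1_eq_of_le h (congrArg Prod.fst e)) (fl1_eq_of_le h (congrArg Prod.snd e))

theorem fin {Ω α β : Type} (P : FP Ω) (g : Geo 3 Ω) (A : Ω → α) (S : Ω → β) (b : ℕ) {r r' : ℕ}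
    (h : r ≤ r') : ch P A (fun v => (bl g b v, g.θ v)) ≤ ch P A (fun v => (bl g r v, g.θ v)) +
      mi P S (bl g r') (fun v => (bl g b v, g.θ v)) + ch P A fun v => (bl g b v, S v) := by
  have h1 : ch P A (fun v => (bl g b v, g.θ v)) ≤ ch P A (fun v => (bl g r v, g.θ v)) +
      mi P A (bl g r') fun v => (bl g b v, g.θ v) :=
    ch_le_mi (((fn_bl P g h).left _).pair ((Fn.snd (bl g b) g.θ).right _))
  have h2 := mi_near (P := P) (bl g r') A S fun v => (bl g b v, g.θ v)
  have h3 : ch P A (fun v => (S v, bl g b v, g.θ v)) ≤ ch P A fun v => (bl g b v, S v) :=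
    ch_anti (((Fn.fst (bl g b) g.θ).right _).pair (Fn.fst S _))
  rw [mi_symm (bl g r') A, mi_symm (bl g r') S] at h2
  linarith

theorem om_max {M a b : ℕ → ℕ} (ha : OM M a) (hb : OM M b) : OM M fun n => max (a n) (b n) := by
  obtain ⟨C, ha⟩ := ha
  obtain ⟨C', hb⟩ := hb
  refine ⟨C + C', ?_⟩
  filter_upwards [ha, hb] with n u v
  rw [add_mul]
  exact max_le (u.trans (Nat.le_add_right _ _)) (v.trans (Nat.le_add_left _ _))

end ZRemA

open ZRemA in
theorem rowZRem : Zoom.OfZRem := by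
  intro off sl Ω K g M mm D η γ w T X i q b r tn h0 hX hw cel hb hr hq
  have h1 := off K g M mm D η γ T X b (fun n => max (r n) (b n)) tn h0 hX (om_max hr hb)
    (Eventually.of_forall fun n => le_max_right _ _)
  have hq' : OM M q := hb.imp fun C c => (c.and hq).mono fun n a => a.2.1.trans a.1
  have h2 := sl K g M mm D η γ w T X i b q b tn hX hw cel hb hq'
    (Le.of_ev (hq.mono fun n a => a.2)) (hq.mono fun n a => a.1)
  refine Le.of2 h1 h2 (Eventually.of_forall fun n => ?_)
  have := fin (X n).Q (X.G g n) (fun v => fl1 (q n) ((X.G g n).e v i)) ((mD X D n).S (b n)) (b n)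
    (le_max_left (r n) (b n))
  linarith

end Pool.Agent.MP_5168f5_an.R4
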