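import Pool.Agent.MP_5168f5_an.R4.SpecZ

/-! The slope is determined by the cell and the base line. -/

namespace Pool.Agent.MP_5168f5_an.R4

open H19 H17S H17F Filter Tan

namespace ZSlA

theorem two_pow_le (k : ℕ) : (2 : ℝ) ^ k ≤ Real.exp k := by
  rw [← mul_one (k : ℝ), Real.exp_nat_mul]
  exact pow_le_pow_left₀ zero_le_two (by linarith [Real.add_one_le_exp 1]) _

/-- A real variable of exponential size that is nearly determined on a likely event. -/
theorem fano1 {Ω β : ℕ → Type} {P : ∀ n, FP (Ω n)} {E : ∀ n, Ω n → Prop} {x : ∀ n, Ω n → ℝ}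
    {G : ∀ n, Ω n → β n} {M j : ℕ → ℕ} {L K : ℕ → ℝ} (C : ℕ) (hM : Big M) (hL : Sub M L)
    (hK : Sub M K) (hE : Whp P E)
    (h : ∀ᶠ n in UF, (∀ a ∈ (P n).S, |x n a| * 2 ^ j n ≤ K n * 2 ^ (C * M n)) ∧
      ∀ a ∈ (P n).S, ∀ b ∈ (P n).S, G n a = G n b → E n a → E n b →
        |x n a - x n b| ≤ L n / 2 ^ j n) :
    Sm M fun n => ch (P n) (fun ω => fl1 (j n) (x n ω)) (G n) := by
  refine ks.fano P E _ G M (fun n => 5 * L n) (1 + C) hM (hL.const_mul hM (by norm_num)) hE ?_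
  filter_upwards [h, (hK.const_mul hM (by norm_num : (1 : ℝ) ≤ 7)).2 1 one_pos] with n a b
  have k1 := hK.1 n
  have l1 := hL.1 n
  have p1 : (1 : ℝ) ≤ 2 ^ (C * M n) := one_le_pow₀ one_le_two
  refine ⟨fun c hc => (det_near1 (L := 2 * (K n * 2 ^ (C * M n))) (by positivity)
    (fun c hc d hd _ => ?_) c hc).imp fun T hT => ⟨hT.1.trans ?_, hT.2⟩, fun c hc => ?_⟩
  · rw [le_div_iff₀ (by positivity)]
    have := mul_le_mul_of_nonneg_right (abs_sub (x n c) (x n d)) (by positivity : (0 : ℝ) ≤ 2 ^ j n)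
    linarith [a.1 c hc, a.1 d hd]
  · by_cases k : ∃ d ∈ (P n).S, G n d = G n c ∧ E n d
    · obtain ⟨d, hd, e, e'⟩ := k
      refine ⟨Finset.Icc (fl1 (j n) (x n d) - ⌈L n⌉₊) (fl1 (j n) (x n d) + ⌈L n⌉₊), ?_,
        fun f hf u v => fl1_mem_Icc ((a.2 f hf d hd (u.trans e.symm) v e').trans ?_)⟩
      · rw [Int.card_Icc, show (fl1 (j n) (x n d) + ⌈L n⌉₊ + 1 -
          (fl1 (j n) (x n d) - ⌈L n⌉₊)).toNat = 2 * ⌈L n⌉₊ + 1 by omega]
        have := Nat.ceil_lt_add_one (zero_le_one.trans l1)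
        push_cast; linarith
      · rw [div_eq_mul_inv]
        exact mul_le_mul_of_nonneg_right (Nat.le_ceil _) (by positivity)
    · exact ⟨∅, by simp only [Finset.card_empty, Nat.cast_zero]; linarith,
        fun f hf u v => (k ⟨f, hf, u, v⟩).elim⟩
  · have e2 : Real.exp ((1 + C) * M n) = Real.exp (1 * M n) * Real.exp (C * M n : ℕ) := by
      rw [← Real.exp_add]; congr 1; push_cast; ring
    have e3 := mul_le_mul b (two_pow_le (C * M n)) (by positivity) (Real.exp_pos _).le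
    have e4 := one_le_mul_of_one_le_of_one_le k1 p1
    rw [e2]; linarith

theorem sum_zero {d e : V 3} (h : ∀ i, i ∉ ({0} : Finset (Fin 3)) → d i = 0) :
    ∑ i, d i * e i = d 0 * e 0 := by
  rw [Fin.sum_univ_three, h 1 (by decide), h 2 (by decide)]; ring

end ZSlA

open ZSlA

theorem rowZSl : Zoom.ZSl := by
  intro Ω K g M mm D η γ w T X i b q s hT hX hw ⟨d, hd, hc⟩ hb ⟨C, hq⟩ hle hs
  have bs := (hT.cls 1 one_pos).bs X hX
  simp only [one_mul] at bs
  have big : Big M := bs.big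
  obtain ⟨L₀, s₀, b₀⟩ := bs.bx
  obtain ⟨L, sL, wL⟩ := hc b (fun n => ⌊w * b n⌋₊) hb
    (Eventually.of_forall fun n => Nat.floor_le (by positivity))
  have sk : Sub M fun n => Real.exp (q n + b n - ⌊w * b n⌋₊ : ℕ) := by
    refine Sub.exp (fun ε hε => ?_) fun n => Nat.cast_nonneg _
    filter_upwards [Le.add hle (big.sm 1) ε hε] with n a
    have h1 := Nat.lt_floor_add_one (w * b n)
    rcases le_total (q n + b n) ⌊w * b n⌋₊ with h | h
    · rw [Nat.sub_eq_zero_of_le h, Nat.cast_zero]; positivity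
    · rw [Nat.cast_sub h]; push_cast; linarith
  refine fano1 C big ((sL.mul sk).const_mul big (by norm_num : (1 : ℝ) ≤ 9)) s₀ wL ?_
  filter_upwards [hd, hq, hs, b₀] with n h1 h2 h3 h4
  refine ⟨fun v hv => mul_le_mul ((h4.bd v hv).1 i).2 (pow_le_pow_right₀ one_le_two h2)
    (by positivity) (s₀.pos n).le, fun v hv v' hv' u f f' => ?_⟩
  simp only [Prod.mk.injEq, bl] at u
  have e0 := h1 (b n) v hv v' hv' u.2
  have e1 := ((kp.iff _ _ _ _ _ _ _ _).1 f).2
  have e2 := ((kp.iff _ _ _ _ _ _ _ _).1 f').2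
  rw [sum_zero fun m => (f.2.1 m).2] at e1
  rw [sum_zero fun m => (f'.2.1 m).2, ← e0] at e2
  have l1 := sL.pos n
  have e3 : |(d n (b n) v).2.2 0 * ((X.G g n).e v 0 - (X.G g n).e v' 0)| ≤ L n * (1 / 2 ^ q n) := by
    rw [abs_mul, one_div]
    exact mul_le_mul (f.2.1 0).1 (abs_sub_lt_of_fl1_eq (fl1_eq_of_le h3 u.1.2)).le (abs_nonneg _)
      l1.le
  have e4 : (2 : ℝ) ^ b n / 2 ^ ⌊w * b n⌋₊ ≤
      Real.exp (q n + b n - ⌊w * b n⌋₊ : ℕ) * (1 / 2 ^ q n) := by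
    refine le_trans ?_ (mul_le_mul_of_nonneg_right (two_pow_le _) (by positivity))
    rw [mul_one_div, div_le_div_iff₀ (by positivity) (by positivity), ← pow_add, ← pow_add]
    exact pow_le_pow_right₀ one_le_two (by omega)
  have e5 := mul_le_mul_of_nonneg_left e4 l1.le
  have e6 : L n * (1 / 2 ^ q n) ≤ L n * (Real.exp (q n + b n - ⌊w * b n⌋₊ : ℕ) * (1 / 2 ^ q n)) :=
    mul_le_mul_of_nonneg_left (le_mul_of_one_le_left (by positivity) (sk.1 n)) l1.le
  rw [mul_div_assoc] at e1 e2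
  rw [div_eq_mul_one_div]
  rw [abs_le] at e1 e2 e3 ⊢
  constructor <;> linarith [e1.1, e1.2, e2.1, e2.2, e3.1, e3.2]

end Pool.Agent.MP_5168f5_an.R4
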