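import Pool.Agent.MP_5168f5_an.R4.SpecZ

/-! Towers of frames: independent types exist. -/

namespace Pool.Agent.MP_5168f5_an.R4

open H19 H17S H17F Filter Tan Zoom

namespace ZTyp1A

section Fin

variable {Ω α β : Type} {P : FP Ω} {S : ℕ → Ω → α} {j j' : ℕ}

theorem nest (h : ∀ j, Fn P (S j) (S (j + 1))) (e : j ≤ j') : Fn P (S j) (S j') := by
  induction j', e using Nat.le_induction with
  | base => exact Fn.rfl _
  | succ b _ ih => exact ih.trans (h b)

theorem mono (g : Geo 3 Ω) (T : Finset (Fin 3)) (θ : Ω → β) (h : ∀ j, Fn P (S j) (S (j + 1)))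
    (e : j ≤ j') : mi P (ty g T j) (S j) θ ≤ mi P (ty g T j') (S j') θ := by
  refine (mi_mono ((nest h e).left θ)).trans (mi_mono' (Fn.left (fun a _ b _ q => ?_) θ))
  funext i
  have := congrFun q i
  unfold ty at this ⊢
  split_ifs at this ⊢ with c
  exacts [fl1_eq_of_le e this, rfl]

theorem pig (h : ℕ → ℝ) {N : ℕ} (hN : 0 < N) (h0 : 0 ≤ h N) :
    ∃ i < N, N * (h i - h (i + 1)) ≤ h 0 := by
  by_contra c
  push Not at c
  have := Finset.sum_lt_sum_of_nonempty (f := fun _ => h 0) (Finset.nonempty_range_iff.2 hN.ne')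
    fun i hi => c i (Finset.mem_range.1 hi)
  rw [← Finset.mul_sum, Finset.sum_range_sub', Finset.sum_const, Finset.card_range,
    nsmul_eq_mul] at this
  nlinarith [Nat.cast_nonneg (α := ℝ) N]

theorem bound {g : Geo 3 Ω} {L : ℝ} (hL : 0 ≤ L) (h : g.Bx P L) (T : Finset (Fin 3)) (s : ℕ)
    (G : Ω → β) : ch P (ty g T s) G ≤ 3 * s * lg + 3 * Real.log (2 * (2 * L) + 3) := by
  have h1 : ch P (ty g T s) G ≤ ch P (fun ω => fl (0 + s) (g.e ω)) G :=
    ch_mono fun a _ b _ q => funext fun i => by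
      have : fl1 (0 + s) (g.e a i) = fl1 (0 + s) (g.e b i) := congrFun (congrArg Prod.fst q) i
      rw [zero_add] at this
      simp only [ty, this]
  have h2 := ch_tri (P := P) (fun ω => fl (0 + s) (g.e ω)) (fun ω => fl 0 (g.e ω)) G
  have h3 := ch_fl_refine (i := s) (Fn.fst (P := P) (fun ω => fl 0 (g.e ω)) G)
  have h4 : ch P (fun ω => fl 0 (g.e ω)) G ≤ _ :=
    ch_near (P := P) (x := g.e) (G := G) (j := 0) (L := 2 * L) (by positivity) fun a ha b hb _ => by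
      rw [pow_zero, div_one]
      refine (pi_norm_le_iff_of_nonneg (by positivity)).2 fun i => ?_
      have := abs_sub (g.e a i) (g.e b i)
      rw [Real.norm_eq_abs, Pi.sub_apply]
      linarith [((h.bd a ha).1 i).2, ((h.bd b hb).1 i).2]
  rw [Fintype.card_fin] at h4
  push_cast at h3 h4
  linarith

theorem info {α' γ γ' δ δ' : Type} {F : Ω → α} {F' : Ω → α'} {G : Ω → γ} {G' : Ω → γ'}
    {K : Ω → δ} {K' : Ω → δ'} (h1 : Fn P K' K) (h2 : Fn P K K') (h3 : Fn P G' G) :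
    mi P F' G' K' ≤ mi P F G K + ch P F' fun ω => (F ω, K ω) := by
  have a1 : mi P F' G' K' ≤ mi P F' G K := mi_right h2 (h1.right _) (h3.left _)
  have a2 := mi_near (P := P) G F' F K
  rw [mi_symm G, mi_symm G] at a2
  exact a1.trans a2

end Fin

variable {Ω : ℕ → Type} {W : ∀ n, Tw (Ω n)} {B : (∀ n, (W n).I) → (ℕ → ℕ) → Mb Ω → Prop}
  {mm : ℕ → ℕ} {η γ : ℝ} {T₀ T J : Finset (Fin 3)} {wt : Fin 3 → ℝ}

/-- The information between the types and the cells at depth `j`. -/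
noncomputable def inf {Ω : Type} (W : Tw Ω) (T : Finset (Fin 3)) (x : Ext Ω) (σ : W.I) (j : ℕ) : ℝ :=
  mi x.Q (ty ((W.g σ).pull x.ρ) T j) (((W.D σ).pull x.ρ).S j) ((W.g σ).pull x.ρ).θ

theorem inf_mono (hC : Cz W B mm η γ T₀ J wt) {σ : ∀ n, (W n).I} {r : ℕ → ℕ} {X : Mb Ω}
    (h : B σ r X) : ∀ᶠ n in UF, Monotone (inf (W n) T (X n) (σ n)) :=
  ((hC.tn σ r X h).com X h).nest.mono fun _ a _ _ e => mono _ _ _ (fun j => (a.2 j).1) e

theorem step (hZ : ZCh) (hC : Cz W B mm η γ T₀ J wt) (h0 : 0 ∈ T)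
    (hT : ∀ i ∈ T, i ≠ 0 → i ∈ J ∧ wt i = 1) {σ : ∀ n, (W n).I} {r : ℕ → ℕ} {X : Mb Ω}
    (h : B σ r X) {k : ℕ} (hk : 0 < k) : ∃ σ' X', B σ' r X' ∧
      ∀ᶠ n in UF, k * inf (W n) T (X' n) (σ' n) (k * r n) ≤ 10 * r n := by
  have tn := hC.tn σ r X h
  have bs := (tn.cls 1 one_pos).bs X h
  simp only [one_mul] at bs
  obtain ⟨L, hL, bx⟩ := bs.bx
  have hr : Big r := bs.big
  have k1 : (1 : ℝ) ≤ k := by exact_mod_cast hk
  choose i hi hp using fun n => pig (fun i => ch (X n).Q (ty (X.G (gs W σ) n) T (k * r n))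
    ((mD X (ds W σ) n).S (i * (k * r n)))) (pow_pos hk 2) (ch_nonneg _ _)
  obtain ⟨σ', E, hE, hB, hc⟩ := hC.child σ r (fun n => i n * (k * r n)) X h
    ⟨k ^ 2 * k, Eventually.of_forall fun n => by
      rw [mul_assoc]
      exact Nat.mul_le_mul_right _ (hi n).le⟩
  refine ⟨σ', X.cond E, hB, ?_⟩
  have e1 := (hZ _ _ _ _ _ _ _ _ _ hr hc).ty T h0 hT (fun n => k * r n) (1 / k) (by positivity)
  have e2 := ((hL.const_mul hr one_le_two).log3 hr 3) 1 one_pos
  filter_upwards [e1, e2, bx, hc.lab, (tn.com X h).nest, hE (1 / 2) one_half_pos,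
    hr.ev (2 * k)] with n a1 a2 a3 a4 a5 a6 a7
  have r0 : (0 : ℝ) ≤ r n := Nat.cast_nonneg _
  have b1 := info (F := ty (X.G (gs W σ) n) T (k * r n))
    (F' := ty (X.G (gs W σ') n) T (k * r n)) a4.1 a4.2.1 (a4.2.2 (k * r n)).1
  have b2 := kf1.miE (X n).Q (E n) (ty (X.G (gs W σ) n) T (k * r n))
    ((mD X (ds W σ) n).S (i n * (k * r n) + k * r n)) ((mD X (ds W σ) n).S (i n * (k * r n)))
  have b3 := mi_nonneg (P := cE (X n).Q (E n)) (ty (X.G (gs W σ) n) T (k * r n))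
    ((mD X (ds W σ) n).S (i n * (k * r n) + k * r n)) ((mD X (ds W σ) n).S (i n * (k * r n)))
  have b4 := ch_anti (F := ty (X.G (gs W σ) n) T (k * r n)) ((Fn.rfl _).pair
    (nest (fun j => (a5.2 j).1) (Nat.le_add_right (i n * (k * r n)) (k * r n))))
  have b5 := bound (hL.pos n).le a3 T (k * r n) ((mD X (ds W σ) n).S (0 * (k * r n)))
  have b6 := hp n
  rw [Nat.add_mul, one_mul] at b6
  rw [pb_not] at a6
  have b7 := mul_le_mul_of_nonneg_right (by linarith : 1 / 2 ≤ pb (X n).Q (E n)) b3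
  rw [mi.eq_1 (X n).Q] at b2
  change (k : ℝ) * mi (cE (X n).Q (E n)) (ty (X.G (gs W σ') n) T (k * r n))
    ((mD X (ds W σ') n).S (k * r n)) (X.G (gs W σ') n).θ ≤ _
  push_cast at b5 b6
  have c1 := mul_le_mul_of_nonneg_left lg_lt_one.le (by positivity : (0 : ℝ) ≤ 3 * (k * r n))
  have c2 := mul_le_mul_of_nonneg_right k1 r0
  have c3 := mul_le_mul_of_nonneg_left lg_lt_one.le (zero_le_one.trans k1)
  have c4 : (k : ℝ) * (1 / k * r n) = r n := by field_simp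
  generalize ch (X n).Q (ty (X.G (gs W σ) n) T (k * r n))
    ((mD X (ds W σ) n).S (i n * (k * r n))) = u at *
  generalize ch (X n).Q (ty (X.G (gs W σ) n) T (k * r n))
    ((mD X (ds W σ) n).S (i n * (k * r n) + k * r n)) = u' at *
  have c5 : k * (u - u') ≤ 4 * r n :=
    le_of_mul_le_mul_left (by nlinarith) (one_pos.trans_le k1)
  have c6 := mul_le_mul_of_nonneg_left (b1.trans (add_le_add
    (by linarith : _ ≤ 2 * (u - u') + 2 * lg) a1)) (zero_le_one.trans k1)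
  linarith

end ZTyp1A

open ZTyp1A in
theorem rowZTyp1 : OfZTyp1 := by
  intro hZ Ω W B mm η γ T₀ T J wt hC h0 hT ⟨σ, r, X, h⟩
  choose σ' X' h1 h2 using fun k : ℕ => step hZ hC h0 hT h k.succ_pos
  obtain ⟨k, -, hk⟩ := cf_diag (S := fun n => Ext (Ω n) × (W n).I × ℕ)
    (K := fun i x => B (fun n => (x n).2.1) (fun n => (x n).2.2) (fun n => (x n).1) ∧ ∀ᶠ n in UF,
      (i.succ : ℝ) * inf (W n) T (x n).1 (x n).2.1 (i.succ * (x n).2.2) ≤ 10 * (x n).2.2)
    (fun i => hC.cf.and (cf_ev fun n (x : Ext (Ω n) × (W n).I × ℕ) =>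
      (i.succ : ℝ) * inf (W n) T x.1 x.2.1 (i.succ * x.2.2) ≤ 10 * x.2.2))
    (fun k n => (X' k n, σ' k n, r n)) fun k i e => ⟨h1 k, by
      filter_upwards [h2 k, inf_mono (T := T) hC (h1 k)] with n a b
      refine le_trans (mul_le_mul (by exact_mod_cast Nat.succ_le_succ e)
        (b (Nat.mul_le_mul_right _ (Nat.succ_le_succ e))) (mi_nonneg _ _ _) (by positivity)) a⟩
  refine ⟨fun n => σ' (k n) n, r, fun n => X' (k n) n, (hk 0).1, fun r' ⟨C, hr⟩ ε hε => ?_⟩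
  obtain ⟨m, hm⟩ := exists_nat_ge (10 / ε)
  filter_upwards [hr, (hk (C + m)).2, inf_mono (T := T) hC (hk 0).1] with n a b c
  have d1 := c (a.trans (Nat.mul_le_mul_right (r n) (by omega : C ≤ (C + m).succ)))
  have d2 : (m : ℝ) ≤ (C + m).succ := by exact_mod_cast (by omega : m ≤ (C + m).succ)
  have d3 : (0 : ℝ) < (C + m).succ := by positivity
  rw [div_le_iff₀ hε] at hm
  refine d1.trans (le_of_mul_le_mul_left (b.trans ?_) d3)
  have := mul_le_mul_of_nonneg_right (hm.trans (mul_le_mul_of_nonneg_right d2 hε.le))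
    (Nat.cast_nonneg (α := ℝ) (r n))
  linarith

end Pool.Agent.MP_5168f5_an.R4
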