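import Pool.Agent.MP_5168f5_an.R4.XZTyp2

/-! Towers of frames: independent types pass to every child. -/

namespace Pool.Agent.MP_5168f5_an.R4

open H19 H17S H17F Filter Tan Zoom ZTyp2A

theorem typC (zch : ZCh) {Ω : ℕ → Type} {W : ∀ n, Tw (Ω n)}
    {B : (∀ n, (W n).I) → (ℕ → ℕ) → Mb Ω → Prop} {mm : ℕ → ℕ} {η γ : ℝ} {T₀ T J : Finset (Fin 3)}
    {wt : Fin 3 → ℝ} (h : Cz W B mm η γ T₀ J wt) (h0 : 0 ∈ T)
    (hT : ∀ i ∈ T, i ≠ 0 → i ∈ J ∧ wt i = 1) {σ σ' : ∀ n, (W n).I} {r a : ℕ → ℕ} {X : Mb Ω}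
    {E : ∀ n, (X n).W → Prop} (k : BT W B T σ r X) (ha : OM r a) (hE : Whp X.P E)
    (hB : B σ' r (X.cond E)) (hC : Chd (X.cond E).P (X.G (gs W σ)) (X.G (gs W σ'))
      (mD X (ds W σ)) (mD X (ds W σ')) r a J wt) : BT W B T σ' r (X.cond E) := by
  have t := h.tn σ r X k.1
  have k' := (cl t).cond X E k hE.pos
  refine ⟨hB, fun s hs => ?_⟩
  refine ((k'.2 _ (om_add ha hs)).add ((zch _ _ _ _ _ _ _ _ _ (big t) hC).ty T h0 hT s)).mono ?_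
  filter_upwards [nest (t.com _ k'.1), hC.lab] with n b c
  refine (mi_symm _ _ _).trans_le ((mi_near _ _ (ty (X.G (gs W σ) n) T (s n)) _).trans
    (add_le_add ((mi_symm _ _ _).trans_le ?_) (ch_anti ((Fn.fst _ _).pair (c.2.1.right _)))))
  exact (mi_right ((b.1 _).trans c.2.1) ((c.1.trans (b.2 _ _ (Nat.le_add_right _ _))).left _)
    ((c.2.2 _).1.left _)).trans (mi_mono' ((fn_ty _ _ _ (Nat.le_add_left _ _)).left _))

end Pool.Agent.MP_5168f5_an.R4
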