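import Pool.Agent.MP_5168f5_an.R4.XZCh
import Pool.Agent.MP_5168f5_an.R4.XZOff
import Pool.Agent.MP_5168f5_an.R4.XZSl
import Pool.Agent.MP_5168f5_an.R4.XZRem
import Pool.Agent.MP_5168f5_an.R4.XZTyp1
import Pool.Agent.MP_5168f5_an.R4.XZTypC
import Pool.Agent.MP_5168f5_an.R4.XZDi
import Pool.Agent.MP_5168f5_an.R4.XZNil

/-! Towers of frames: the statements, proved. -/

namespace Pool.Agent.MP_5168f5_an.R4.Zoom

theorem zCh : ZCh := rowZCh
theorem zOff : ZOff := rowZOff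
theorem zSl : ZSl := rowZSl
theorem zRem : ZRem := rowZRem zOff zSl
theorem zTyp1 : ZTyp1 := rowZTyp1 zCh
theorem zTyp2 : ZTyp2 := rowZTyp2 zCh
theorem zDi : ZDi := rowZDi zCh zSl zRem
theorem zNil : ZNil := rowZNil zCh zRem

end Pool.Agent.MP_5168f5_an.R4.Zoom
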