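import Pool.Agent.MP_5168f5_an.R4.SpecTB
import Pool.Agent.MP_5168f5_an.R4.KitZ

/-! The end in mode II, flat: the tower is reduced to the cases. -/

namespace Pool.Agent.MP_5168f5_an.R4.T8

open H19 H17S H17F Filter Matrix Tan Zoom

namespace End2x

theorem w0 (γ d : ℝ) : (0 : Fin 3) ∈ wT γ d := by simp [wT]

theorem wJ {γ d : ℝ} {pr : Bool} (hγ : 1 < γ) (hp : pr = true ↔ d ≤ γ) :
    ∀ i ∈ wT γ d, i ≠ 0 → i ∈ jP pr ∧ (![1, γ, d] : Fin 3 → ℝ) i = 1 := by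
  intro i hi h0
  have e : (![1, γ, d] : Fin 3 → ℝ) i = 1 := by simpa [wT] using hi
  refine ⟨?_, e⟩
  fin_cases i
  · exact absurd rfl h0
  · cases pr <;> simp [jP]
  · have e' : d = 1 := by simpa using e
    rw [hp.2 (by linarith)]
    simp [jP]

theorem wE {d : ℝ} (hd : 1 < d) : wT d d = {0} := by
  ext i
  fin_cases i <;> simp [wT, hd.ne']

variable {Ω : ℕ → Type} {W : ∀ n, Tw (Ω n)} {B B' : (∀ n, (W n).I) → (ℕ → ℕ) → Mb Ω → Prop}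
  {mm : ℕ → ℕ} {η γ d ε₀ : ℝ} {J : Finset (Fin 3)}

/-- The classes of the tower are of mode II. -/
theorem t2 (h : Cz W B mm η γ (wT γ d) J ![1, γ, d]) (hd : 1 ≤ d) (e0 : 0 < ε₀ ∧ ε₀ ≤ 1)
    (fl : ∀ σ r X, B σ r X → Fl2 X.P (X.G (gs W σ)) r mm (mD X (ds W σ)) γ d ε₀)
    {σ : ∀ n, (W n).I} {r : ℕ → ℕ} {X : Mb Ω} (k : B σ r X) :
    T2 (B σ r) (gs W σ) r mm (ds W σ) η γ d ε₀ :=
  { h.tn σ r X k with dge := hd, e0 := e0, fl := fl σ r }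

/-- A condition that passes to the children keeps the rescaled cells. -/
theorem sk (sub : ∀ σ r X, B' σ r X → B σ r X) (h : SK W B γ d J)
    (per : ∀ (σ σ' : ∀ n, (W n).I) (r a : ℕ → ℕ) (X : Mb Ω) (E : ∀ n, (X n).W → Prop),
      B' σ r X → OM r a → Whp X.P E → B σ' r (X.cond E) →
      Chd (X.cond E).P (X.G (gs W σ)) (X.G (gs W σ')) (mD X (ds W σ)) (mD X (ds W σ')) r a J
        ![1, γ, d] → B' σ' r (X.cond E)) : SK W B' γ d J := by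
  intro σ r a X k ha
  obtain ⟨σ', E, e1, e2, e3, e4⟩ := h σ r a X (sub σ r X k) ha
  exact ⟨σ', E, e1, per σ σ' r a X E k ha e1 e2 e3, e3,
    fun Y y y' => e4 Y (sub σ r Y y) (sub σ' r Y y')⟩

/-- The cells form a class of the same kind. -/
theorem sh2 (h : Cz W B mm η γ (wT γ d) J ![1, γ, d]) (hs : SK W B γ d J) (hd : 1 ≤ d)
    (e0 : 0 < ε₀ ∧ ε₀ ≤ 1)
    (fl : ∀ σ r X, B σ r X → Fl2 X.P (X.G (gs W σ)) r mm (mD X (ds W σ)) γ d ε₀)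
    (σ : ∀ n, (W n).I) (r : ℕ → ℕ) (p : (Mb Ω → Prop) → Gs 3 Ω → Prop)
    (hp : ∀ (σ' : ∀ n, (W n).I) (K : Mb Ω → Prop), (∀ Y, K Y → B σ' r Y) → p K (gs W σ')) :
    Sh2 (B σ r) (gs W σ) r mm (ds W σ) η γ d ε₀ p := by
  intro X a k ha
  obtain ⟨σ', E, e1, e2, -, e4⟩ := hs σ r a X k ha
  have t := h.tn σ r X k
  have t' := h.tn σ' r _ e2
  have k' : B σ r (X.cond E) ∧ B σ' r (X.cond E) := ⟨t.cl.cond X E k e1.pos, e2⟩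
  exact ⟨fun Y => B σ r Y ∧ B σ' r Y, gs W σ', ds W σ', E, e1, k',
    { zSub _ _ _ _ _ _ _ _ _ _ t' (t.cl.and t'.cl) ⟨_, k'⟩
        (fun Y y => ⟨y.2, (t'.com Y y.2).typ⟩) with
      dge := hd, e0 := e0, fl := fun Y y => fl σ' r Y y.2 },
    hp σ' _ fun _ y => y.2, fun Y y => ⟨y.1, e4 Y y.1 y.2⟩⟩

/-- The dichotomy at a coordinate of weight more than one. -/
theorem di (h : Cz W B mm η γ (wT γ d) J ![1, γ, d]) (hs : SK W B γ d J) (hd : 1 ≤ d)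
    (e0 : 0 < ε₀ ∧ ε₀ ≤ 1)
    (fl : ∀ σ r X, B σ r X → Fl2 X.P (X.G (gs W σ)) r mm (mD X (ds W σ)) γ d ε₀)
    (ne : ∃ σ r X, B σ r X) (i : Fin 3) (hi : i ∈ J) (w : ℝ)
    (e : (![1, γ, d] : Fin 3 → ℝ) i = w) (hw : 1 < w)
    (c1 : ∀ (K : Mb Ω → Prop) (g : Gs 3 Ω) (M : ℕ → ℕ) (D : ∀ n, Td (Ω n)),
      T2 K g M mm D η γ d ε₀ → BrK K g M D i w → False)
    (c2 : ∀ (K : Mb Ω → Prop) (g : Gs 3 Ω) (M : ℕ → ℕ) (D : ∀ n, Td (Ω n)),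
      T2 K g M mm D η γ d ε₀ → NilK K g M i w →
      Sh2 K g M mm D η γ d ε₀ (fun K' g' => NilK K' g' M i w) → False) : False := by
  subst e
  obtain ⟨σ, r, X, k⟩ := ne
  rcases zDi W B mm η γ _ J _ i σ r h (w0 γ d) hi hw with b | ⟨σ', r', Y, y⟩
  · exact c1 _ _ _ _ (t2 h hd e0 fl k) b
  have h' := zNil W B mm η γ _ J _ i h (w0 γ d) hi hw
  have fl' : ∀ σ r X, BN W B i ((![1, γ, d] : Fin 3 → ℝ) i) σ r X →
      Fl2 X.P (X.G (gs W σ)) r mm (mD X (ds W σ)) γ d ε₀ := fun σ r X k => fl σ r X k.1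
  exact c2 _ _ _ _ (t2 h' hd e0 fl' y) (fun _ z => z.2)
    (sh2 h' (sk (fun _ _ _ z => z.1) hs fun _ _ _ _ _ _ z ha e1 e2 e3 =>
      ZNilA.nilC zCh zRem h (w0 γ d) hi hw z ha e1 e2 e3) hd e0 fl' σ' r' _
      fun _ _ s Z z => (s Z z).2)

end End2x

open End2x in
theorem rowEnd2 : OfEnd2 := by
  intro c eI Ω W B mm η γ d ε₀ pr h hs hγ hd hp e0 e1 ne fl
  have hT := wJ hγ hp
  have h' := zTyp2 W B mm η γ _ _ _ _ h (w0 γ d) hT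
  have ne' := zTyp1 W B mm η γ _ _ _ _ h (w0 γ d) hT ne
  have fl' : ∀ σ r X, BT W B (wT γ d) σ r X →
      Fl2 X.P (X.G (gs W σ)) r mm (mD X (ds W σ)) γ d ε₀ := fun σ r X k => fl σ r X k.1
  have hs' : SK W (BT W B (wT γ d)) γ d (jP pr) :=
    sk (fun _ _ _ z => z.1) hs fun _ _ _ _ _ _ z ha a1 a2 a3 =>
      typC zCh h (w0 γ d) hT z ha a1 a2 a3
  rcases lt_trichotomy γ d with l | l | l
  · exact di h' hs' hd ⟨e0, e1⟩ fl' ne' 1 (by cases pr <;> simp [jP]) γ rfl hγ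
      (fun K g M D t b => c.b1 K g M mm D η γ d ε₀ t ⟨hγ, l⟩ b)
      fun K g M D t b s => c.b2 K g M mm D η γ d ε₀ t hγ l b s
  · subst l
    obtain rfl := hp.2 le_rfl
    refine eI W B mm η γ ε₀ ∅ h hγ e0 e1 ne fun σ r X k t => ?_
    have k' : BT W B (wT γ γ) σ r X := ⟨k, by rwa [wE hγ]⟩
    exact (c.t21 _ _ _ _ _ _ _ _ (t2 h' hd ⟨e0, e1⟩ fl' k')).fl X k'
  obtain rfl := hp.2 l.le
  rcases hd.eq_or_lt with e | e
  · subst e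
    obtain ⟨σ, r, X, k⟩ := ne'
    exact c.p0 _ _ _ _ _ _ _ _ (t2 h' hd ⟨e0, e1⟩ fl' k) hγ
      (sh2 h' hs' hd ⟨e0, e1⟩ fl' σ r _ fun _ _ _ => trivial)
  exact di h' hs' hd ⟨e0, e1⟩ fl' ne' 2 (by simp [jP]) d rfl e
    (fun K g M D t b => c.p1 K g M mm D η γ d ε₀ t ⟨e, l⟩ b)
    fun K g M D t b s => c.p2 K g M mm D η γ d ε₀ t e l b s

end Pool.Agent.MP_5168f5_an.R4.T8
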