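import Pool.Agent.MP_5168f5_an.R4.SpecTB
import Pool.Agent.MP_5168f5_an.R4.KitZ

/-! The end in mode I. -/

namespace Pool.Agent.MP_5168f5_an.R4.T8

open H19 H17S H17F Filter Matrix Tan

theorem rowEndI : OfEndI := by
  intro ib ic Ω W B mm η d ε₀ T₀ cz hd e0 e1 ne fl
  have h0 : (0 : Fin 3) ∈ ({0} : Finset (Fin 3)) := Finset.mem_singleton_self _
  have hT : ∀ i ∈ ({0} : Finset (Fin 3)), i ≠ 0 →
      i ∈ ({1, 2} : Finset (Fin 3)) ∧ (![1, d, d] : V 3) i = 1 :=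
    fun i a b => absurd (Finset.mem_singleton.1 a) b
  have hw : wT d d = {0} := by
    ext i
    fin_cases i <;> simp [wT, hd.ne']
  have c1 := Zoom.zTyp2 W B mm η d T₀ {0} _ _ cz h0 hT
  have t1 : ∀ B' : (∀ n, (W n).I) → (ℕ → ℕ) → Mb Ω → Prop,
      Zoom.Cz W B' mm η d {0} {1, 2} ![1, d, d] →
      (∀ σ r X, B' σ r X → Zoom.BT W B {0} σ r X) → ∀ σ r X, B' σ r X →
      T1 (B' σ r) (Zoom.gs W σ) r mm (Zoom.ds W σ) η d ε₀ := fun B' c s σ r X h =>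
    ⟨hw ▸ c.tn σ r X h, ⟨e0, e1⟩, fun Y k => fl σ r Y (s σ r Y k).1 (s σ r Y k).2⟩
  obtain ⟨σ, r, X, h⟩ := Zoom.zTyp1 W B mm η d T₀ {0} _ _ cz h0 hT ne
  rcases Zoom.zDi W _ mm η d {0} _ _ 1 σ r c1 h0 (by decide) hd with b | ⟨σ, r, X, h⟩
  · exact ib _ _ _ _ _ _ _ _ (t1 _ c1 (fun _ _ _ k => k) σ r X h) hd (.inl b)
  have c2 := Zoom.zNil W _ mm η d {0} _ _ 1 c1 h0 (by decide) hd
  rcases Zoom.zDi W _ mm η d {0} _ _ 2 σ r c2 h0 (by decide) hd with b | ⟨σ, r, X, h⟩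
  · exact ib _ _ _ _ _ _ _ _ (t1 _ c2 (fun _ _ _ k => k.1) σ r X h) hd (.inr b)
  have c3 := Zoom.zNil W _ mm η d {0} _ _ 2 c2 h0 (by decide) hd
  exact ic _ _ _ _ _ _ _ _ (t1 _ c3 (fun _ _ _ k => k.1.1) σ r X h) hd
    ⟨fun _ k => k.1.2, fun _ k => k.2⟩

end Pool.Agent.MP_5168f5_an.R4.T8
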