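import Pool.Agent.MP_5168f5_an.R4.SpecTB

/-! The labels may be enlarged by the context and the digits. -/

namespace Pool.Agent.MP_5168f5_an.R4.T8

open H19 H17S H17F Filter Matrix Tan

namespace Enlx

theorem mi_add {Ω α β γ δ : Type} (P : FP Ω) (F : Ω → α) (F' : Ω → β) (G : Ω → γ) (K : Ω → δ) :
    mi P F G K ≤ mi P F' G K + ch P F fun ω => (F' ω, K ω) := by
  rw [mi_symm F, mi_symm F']; exact mi_near _ _ _ _

theorem log_le {s : ℝ} (h : 1 ≤ s) : Real.log (2 * Real.exp s + 3) ≤ 3 * s := by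
  have h1 : 2 ≤ Real.exp s := by linarith [Real.add_one_le_exp s]
  rw [Real.log_le_iff_le_exp (by positivity), show 3 * s = s + s + s by ring, Real.exp_add,
    Real.exp_add]
  nlinarith [mul_le_mul h1 h1 zero_le_two (by linarith)]

variable {Ω : Type} {g : Geo 3 Ω} {F : Fam g.sh5} {M m : ℕ} {E : Ext Ω} {s : ℝ}

theorem lab (hs : 1 ≤ s) (bx : (E.gf g M).Bx E.Q (Real.exp s)) (j : ℕ)
    (h : sLab g M E s j fun v => F.S j (E.ρ v)) :
    sLab g M E (4 * s) j fun v => (enl F M).S j (E.ρ v) := by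
  have h1 : ch E.Q (fun v => fl1 (min j M) (g.pt (E.ρ v) 0)) ((E.gf g M).win j) ≤
      Real.log (2 * Real.exp s + 3) := ch_near1 (Real.exp_pos s).le fun a ha b _ e => by
    simp only [Geo.win, Geo.ln, Prod.mk.injEq] at e
    have e1 := mul_le_mul (abs_sub_lt_of_fl1_eq e.2).le ((bx.bd a ha).1 0).2 (abs_nonneg _)
      (by positivity)
    rw [← abs_mul, mul_comm _ (Real.exp s), ← div_eq_mul_inv] at e1
    refine le_trans (le_of_eq (congrArg _ ?_)) (e1.trans (div_le_div_of_nonneg_left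
      (Real.exp_pos s).le (by positivity) (pow_le_pow_right₀ one_le_two (min_le_left _ _))))
    simp only [Geo.pt, Geo.lt, Pi.add_apply, Pi.smul_apply, smul_eq_mul, e.1.1, e.1.2.1]
    ring
  have h2 : ch E.Q (fun v => (enl F M).S j (E.ρ v))
      (fun v => (F.S j (E.ρ v), (E.gf g M).win j v)) ≤
      ch E.Q (fun v => fl1 (min j M) (g.pt (E.ρ v) 0)) ((E.gf g M).win j) :=
    ch_le (fun a _ b _ e => by
      simp only [enl, Geo.win, Geo.ln, Prod.mk.injEq] at e ⊢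
      tauto) (Fn.snd _ _)
  have h3 : ch E.Q (fun v => (enl F M).S j (E.ρ v))
      (fun v => (F.S j (E.ρ v), (E.gf g M).y v)) = 0 := ch_zero fun a _ b _ e => by
    simp only [enl, Geo.fp, Prod.mk.injEq] at e ⊢
    exact ⟨e.1, e.2.2.2, by rw [e.2.2.1], fl1_eq_of_le (min_le_right _ _) (congrFun e.2.1 0)⟩
  exact ⟨(mi_add _ _ (fun v => F.S j (E.ρ v)) _ _).trans
      ((add_le_add h.1 (h2.trans (h1.trans (log_le hs)))).trans_eq (by ring)),
    (mi_add _ _ (fun v => F.S j (E.ρ v)) _ _).trans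
      ((add_le_add h.2 h3.le).trans (by linarith))⟩

end Enlx

theorem rowEnl : Enl := by
  intro Ω g F M m p j r X h
  refine ⟨h.1, fun ε hε => ?_⟩
  filter_upwards [h.2 ε hε, h.2 (ε / 4) (by positivity)] with n ⟨a, b, c⟩ d
  refine ⟨⟨a.unit, a.room, a.lin, a.far, a.tie, a.far0, a.tie0⟩, ⟨b.bx, b.inf, b.hgt,
    ⟨fun k u hu v hv e => ?_, fun i k => (b.alg.fd i k).trans (Fn.fst _ _), b.alg.fit, b.alg.mono,
      b.alg.le⟩, fun k => ?_⟩, fun Y hY => ⟨⟨(c Y hY).1.br, (c Y hY).1.ng⟩,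
    (c Y hY).2.opt, (c Y hY).2.xa, (c Y hY).2.fb⟩⟩
  · simp only [enl, Prod.mk.injEq] at e ⊢
    exact ⟨b.alg.nest k u hu v hv e.1, e.2.1, fl1_eq_of_le k.le_succ e.2.2.1,
      fl1_eq_of_le (min_le_min_right _ k.le_succ) e.2.2.2⟩
  · rw [show ε * m n = 4 * (ε / 4 * m n) by ring]
    exact Enlx.lab d.num.unit.2.2 d.old.bx k (d.old.lab k)

end Pool.Agent.MP_5168f5_an.R4.T8
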