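import Pool.Agent.MP_5168f5_an.R4.SpecTB
import Pool.Agent.MP_5168f5_an.R4.KitO

/-! The cells in the frame lie near the transformed planes. -/

namespace Pool.Agent.MP_5168f5_an.R4.T8

open H19 H17S H17F Filter Matrix Tan

namespace FCellx

/-- A loss of `o(r)` digits is a subexponential constant. -/
theorem gain {r m N τ T : ℕ → ℕ} {L : ℕ → ℝ} (h : Le r (fun n => N n + τ n) fun n => T n)
    (hL : Sub m L) (hm : Sm r fun n => m n) :
    ∃ L', Sub r L' ∧ ∀ n, 2 ^ N n * (L n / 2 ^ T n) ≤ L' n / 2 ^ τ n := by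
  have h1 : Sub r L := ⟨hL.1, fun ε hε => by
    filter_upwards [hL.2 ε hε, hm 1 one_pos] with n a b
    exact a.trans (Real.exp_le_exp.2 (mul_le_mul_of_nonneg_left (by linarith) hε.le))⟩
  have h2 : Sub r fun n => (2 : ℝ) ^ (N n + τ n - T n) :=
    ⟨fun n => one_le_pow₀ one_le_two, fun ε hε => (h ε hε).mono fun n a =>
      (two_pow_le_exp _).trans (Real.exp_le_exp.2 (by
        rcases le_total (N n + τ n) (T n) with e | e
        · rw [Nat.sub_eq_zero_of_le e, Nat.cast_zero]; positivity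
        · rw [Nat.cast_sub e]; push_cast; linarith))⟩
  refine ⟨_, h1.mul h2, fun n => ?_⟩
  rw [← mul_div_assoc, div_le_div_iff₀ (by positivity) (by positivity), mul_comm _ (L n),
    mul_assoc, mul_assoc, ← pow_add, ← pow_add]
  exact mul_le_mul_of_nonneg_left (pow_le_pow_right₀ one_le_two (by omega)) (hL.pos n).le

variable {Ω K : Type} {g : Geo 3 Ω} {M c : ℕ} {k : Bool} {d : Fd Ω} {κ : Ω → K} {ω : Ω} {p : Pl}
  {L L' : ℝ} {a T T' : ℕ} {S : Finset (Fin 3)} {i : Fin 3}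

theorem sup (h : (g.pl {0} (co k)).fit L (d.pu ω) ω c T)
    (h' : (g.pl {0, co k} (co (!k))).fit L' (d.pf ω) ω c T') : Sup k d ω :=
  ⟨(h.2.1 1).2 (by decide), (h.2.1 2).2 (by decide), (h'.2.1 _).2 (by cases k <;> decide)⟩

theorem orig (hp : (g.pl S i).fit L p ω (c + a) T) {t : ℝ}
    (ht : fl1 a t = fl1 a ((Tan.fr g M c k d κ).z ω)) (N : ℕ) :
    |2 ^ N * (g.lt (ot g c ω t) ω i - pv p (ot g c ω t) (g.lt (ot g c ω t) ω))| ≤
      2 ^ N * (L / 2 ^ T) := by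
  obtain ⟨h0, h1⟩ := win_unit a (Int.fract_nonneg _) (Int.fract_lt_one _) ht
  have h2 := hp.2.2 _ ((fl1_ot g c ω a t h0 h1).2 ht)
  rw [abs_mul, abs_of_pos (by positivity), pv, ← sub_sub, ← sub_sub]
  exact mul_le_mul_of_nonneg_left h2 (by positivity)

theorem cu (hs : Sup k d ω) (hp : (g.pl {0} (co k)).fit L p ω (c + a) T) :
    (∀ i, i ∉ ({0} : Finset (Fin 3)) → (tr g c k d d.Nu (d.pu ω) p ω).2.2 i = 0) ∧
    ∀ t, fl1 a t = fl1 a ((Tan.fr g M c k d κ).z ω) →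
      |(Tan.fr g M c k d κ).lt t ω 1 -
        pv (tr g c k d d.Nu (d.pu ω) p ω) t ((Tan.fr g M c k d κ).lt t ω)| ≤
        2 ^ d.Nu * (L / 2 ^ T) := by
  have h1 : p.2.2 1 = 0 := (hp.2.1 1).2 (by decide)
  have h2 : p.2.2 2 = 0 := (hp.2.1 2).2 (by decide)
  refine ⟨fun i hi => ?_, fun t ht => ?_⟩
  · fin_cases i
    · simp at hi
    · cases k <;> simp [tr, co, h1, h2, hs.1, hs.2.1]
    · rfl
  · rw [fr_lt, tr_u g c k d ω hs ⟨h1, h2⟩]
    exact orig hp ht _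

theorem cf (hs : Sup k d ω) (hp : (g.pl (sS true (!k)) (co (!k))).fit L p ω (c + a) T) :
    (∀ i, i ∉ ({0, 1} : Finset (Fin 3)) → (tr g c k d d.Nf (d.pf ω) p ω).2.2 i = 0) ∧
    ∀ t, fl1 a t = fl1 a ((Tan.fr g M c k d κ).z ω) →
      |(Tan.fr g M c k d κ).lt t ω 2 -
        pv (tr g c k d d.Nf (d.pf ω) p ω) t ((Tan.fr g M c k d κ).lt t ω)| ≤
        2 ^ d.Nf * (L / 2 ^ T) := by
  refine ⟨fun i hi => ?_, fun t ht => ?_⟩
  · fin_cases i
    · simp at hi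
    · simp at hi
    · rfl
  · rw [fr_lt, tr_f g c k d ω hs ((hp.2.1 _).2 (by cases k <;> decide))]
    exact orig hp ht _

end FCellx

open FCellx

theorem rowFCell : FCell := by
  intro Ω x j r d X h
  have A := oA1 x.g x.F x.M x.m x.p j r X h.tg
  obtain ⟨L, hL, b⟩ := A.fam.alg
  obtain ⟨L₀, -, b₀⟩ := h.fit
  refine ⟨fun a τ ha hτ => ?_, fun a τ ha hτ => ?_, fun _ => 1, A.big.2.1.sub le_rfl,
    Whp.of_ev (h.g0.mono fun n e v hv => ?_)⟩
  · obtain ⟨L', h1, h2⟩ := gain (N := fun n => (d n).Nu) (τ := τ)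
      (T := fun n => (x.F n).τ (iU x.k) (j n + a n))
      (h.nu.1.of2 (A.lin (iU x.k) a ha).2 (hτ.mono fun n e => by linarith)) hL A.big.2.2.1
    refine ⟨L', h1, Whp.of_ev ?_⟩
    filter_upwards [b, b₀] with n e e₀ v hv
    have k := cu (M := x.M n) (κ := (x.F n).S (j n)) (sup (e₀ v hv).1 (e₀ v hv).2)
      (e.fit (iU x.k) (j n + a n) v hv)
    exact ⟨k.1, fun t ht => (k.2 t ht).trans (h2 n)⟩
  · obtain ⟨L', h1, h2⟩ := gain (N := fun n => (d n).Nf) (τ := τ)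
      (T := fun n => (x.F n).τ (iH (!x.k)) (j n + a n))
      (h.nf.1.of2 (A.lin (iH (!x.k)) a ha).2 (hτ.mono fun n e => by linarith)) hL A.big.2.2.1
    refine ⟨L', h1, Whp.of_ev ?_⟩
    filter_upwards [b, b₀] with n e e₀ v hv
    have k := cf (M := x.M n) (κ := (x.F n).S (j n)) (sup (e₀ v hv).1 (e₀ v hv).2)
      (e.fit (iH (!x.k)) (j n + a n) v hv)
    exact ⟨k.1, fun t ht => (k.2 t ht).trans (h2 n)⟩
  · change |(2 : ℝ) ^ (d n).Nf / 2 ^ (d n).Nu * (gO (x.F n) x.k (j n) ((X n).ρ v) -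
      ((d n).pf ((X n).ρ v)).2.2 (co x.k))| ≤ 1
    rw [abs_mul, abs_of_pos (by positivity), div_mul_eq_mul_div, div_le_one (by positivity)]
    exact e v hv

end Pool.Agent.MP_5168f5_an.R4.T8
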