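import Pool.Agent.MP_5168f5_an.R4.SpecTB
import Pool.Agent.MP_5168f5_an.R4.KitO

/-! Frames form a class. -/

namespace Pool.Agent.MP_5168f5_an.R4.T8

open H19 H17S H17F Filter Matrix Tan

theorem rowFCl : FCl := by
  intro Ω x j r d
  have h1 := (oCl x.g x.F x.M x.m x.p).cl j r
  have h2 := kc1.fn (fun n ω => ((d n).pu ω, (d n).pf ω)) fun n => (x.F n).S (j n)
  have h3 := KC2A.cl_sub x.m (fun n (y : Ext (Ω n)) L => ∀ v ∈ y.Q.S,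
    ((x.g n).pl {0} (co x.k)).fit L ((d n).pu (y.ρ v)) (y.ρ v) (j n) (d n).Nu ∧
    ((x.g n).pl {0, co x.k} (co (!x.k))).fit L ((d n).pf (y.ρ v)) (y.ρ v) (j n) (d n).Nf)
    fun n _ _ L s u => s.all (q := fun ω =>
      ((x.g n).pl {0} (co x.k)).fit L ((d n).pu ω) ω (j n) (d n).Nu ∧
      ((x.g n).pl {0, co x.k} (co (!x.k))).fit L ((d n).pf ω) ω (j n) (d n).Nf) u
  have h4 := kc1.sure fun n ω => (2 : ℝ) ^ (d n).Nf *
    |gO (x.F n) x.k (j n) ω - ((d n).pf ω).2.2 (co x.k)| ≤ 2 ^ (d n).Nu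
  exact ((cl_const (x.OK ∧ (Eqv r (fun n => (d n).Nu) fun n => (x.F n).τ (iU x.k) (j n)) ∧
    Eqv r (fun n => (d n).Nf) fun n => (x.F n).τ (iH (!x.k)) (j n))).and
    (h1.and (h2.and (h3.and h4)))).congr fun X =>
    ⟨fun a => ⟨⟨a.ok, a.nu, a.nf⟩, a.tg, a.fn, a.fit, a.g0⟩,
      fun a => ⟨a.1.1, a.2.1, a.2.2.1, a.2.2.2.1, a.1.2.1, a.1.2.2, a.2.2.2.2⟩⟩

end Pool.Agent.MP_5168f5_an.R4.T8
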