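import Pool.Agent.MP_5168f5_an.R4.SpecTB
import Pool.Agent.MP_5168f5_an.R4.KitO

/-! Given the cell, the data in the frame and the original data determine each other. -/

namespace Pool.Agent.MP_5168f5_an.R4.T8

open H19 H17S H17F Filter Matrix Tan

namespace FInvx

variable {Ω K : Type} {g : Geo 3 Ω} {M c : ℕ} {k : Bool} {d : Fd Ω} {κ : Ω → K} {ω ω' : Ω}

/-- Two points with the same frame. -/
structure Same (g : Geo 3 Ω) (c : ℕ) (d : Fd Ω) (ω ω' : Ω) : Prop where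
  θ : g.θ ω = g.θ ω'
  z : fl1 c (g.z ω) = fl1 c (g.z ω')
  x : fl1 c (g.pt ω 0) = fl1 c (g.pt ω' 0)
  pu : d.pu ω = d.pu ω'
  pf : d.pf ω = d.pf ω'

theorem Same.z0 (h : Same g c d ω ω') : g.z0 c ω = g.z0 c ω' := by simp only [Geo.z0, h.z]

theorem Same.ot (h : Same g c d ω ω') (s : ℝ) : ot g c ω s = ot g c ω' s := by
  simp only [Tan.ot, h.z0]

theorem Same.fk (h : Same g c d ω ω') (t : ℝ) (y : V 3) :
    fk g c k d ω t y = fk g c k d ω' t y := by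
  simp only [Tan.fk, rd, h.x, h.pu, h.pf]

theorem Same.fwd (h : Same g c d ω ω') (e : κ ω = κ ω') (l : g.ln ω = g.ln ω') :
    (fr g M c k d κ).ln ω = (fr g M c k d κ).ln ω' := by
  simp only [Geo.ln, Prod.mk.injEq] at l
  refine Prod.ext ?_ (Prod.ext ?_ e)
  · change Tan.fk g c k d ω (g.z0 c ω) (g.lt (g.z0 c ω) ω) =
      Tan.fk g c k d ω' (g.z0 c ω') (g.lt (g.z0 c ω') ω')
    simp only [h.fk, h.z0, Geo.lt, l.1, l.2.1]
  · simp only [Geo.ln, Tan.fr, l.2.1, h.pu, h.pf]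

theorem fk_inj (u : Sup k d ω) (s : ℝ) {y y' : V 3}
    (e : fk g c k d ω (ot g c ω s) y = fk g c k d ω (ot g c ω s) y') : y = y' := by
  have h1 := Tv_hom g c k d ω u s y
  rw [e, Tv_hom g c k d ω u s y'] at h1
  funext i
  fin_cases i
  · exact (congrFun h1 2).symm
  · exact (congrFun h1 3).symm
  · exact (congrFun h1 4).symm

theorem Same.bwd (h : Same g c d ω ω') (u : Sup k d ω)
    (l : (fr g M c k d κ).ln ω = (fr g M c k d κ).ln ω') : g.ln ω = g.ln ω' := by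
  simp only [Geo.ln, Prod.mk.injEq] at l
  have h1 : ∀ s, g.lt (Tan.ot g c ω s) ω = g.lt (Tan.ot g c ω s) ω' := fun s => by
    have e : (fr g M c k d κ).lt s ω = (fr g M c k d κ).lt s ω' := by
      simp only [Geo.lt, l.1, l.2.1]
    rw [fr_lt, fr_lt, ← h.fk, ← h.ot] at e
    exact fk_inj u s e
  have h0 : ((2 : ℝ) ^ c)⁻¹ ≠ 0 := by positivity
  have h2 : g.e ω = g.e ω' := funext fun i => by
    have a0 := congrFun (h1 0) i
    have a1 := congrFun (h1 1) i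
    simp only [Geo.lt, Tan.ot, Pi.add_apply, Pi.smul_apply, smul_eq_mul] at a0 a1
    exact mul_left_cancel₀ h0 (by linarith)
  have h3 := h1 0
  simp only [Geo.lt, h2, add_left_inj] at h3
  exact Prod.ext h3 (Prod.ext h2 h.θ)

theorem Same.zb (h : Same g c d ω ω')
    (e : (fr g M c k d κ).z ω = (fr g M c k d κ).z ω') : g.z ω = g.z ω' := by
  rw [← ot_z g M c k d κ ω, ← ot_z g M c k d κ ω', e, h.ot]

theorem zf (e : g.z ω = g.z ω') : (fr g M c k d κ).z ω = (fr g M c k d κ).z ω' := by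
  rw [fr_z, fr_z, e]

theorem Same.win (h : Same g c d ω ω') (a : ℕ) :
    fl1 a ((fr g M c k d κ).z ω) = fl1 a ((fr g M c k d κ).z ω') ↔
      fl1 (c + a) (g.z ω) = fl1 (c + a) (g.z ω') := by
  rw [ka.fl c a (g.z ω') (g.z ω)]
  exact ⟨fun u => ⟨h.z, u⟩, fun u => u.2⟩

theorem sup {L : ℝ} (h1 : (g.pl {0} (co k)).fit L (d.pu ω) ω c d.Nu)
    (h2 : (g.pl {0, co k} (co (!k))).fit L (d.pf ω) ω c d.Nf) : Sup k d ω :=
  ⟨(h1.2.1 1).2 (by decide), (h1.2.1 2).2 (by decide), (h2.2.1 _).2 (by cases k <;> decide)⟩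

theorem all (M : ℕ) (h : κ ω = κ ω' → Same g c d ω ω') (u : Sup k d ω) :
    (((g.fat fun _ => M).core ω, κ ω) = ((g.fat fun _ => M).core ω', κ ω') →
      (fr g M c k d κ).core ω = (fr g M c k d κ).core ω') ∧
    ((fr g M c k d κ).core ω = (fr g M c k d κ).core ω' →
      (g.fat fun _ => M).core ω = (g.fat fun _ => M).core ω') ∧
    ((fr g M c k d κ).zt ω = (fr g M c k d κ).zt ω' → (g.zt ω, κ ω) = (g.zt ω', κ ω')) ∧
    ((g.z ω, κ ω) = (g.z ω', κ ω') → (fr g M c k d κ).zt ω = (fr g M c k d κ).zt ω') ∧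
    ∀ a, ((κ ω, g.win (c + a) ω) = (κ ω', g.win (c + a) ω') →
      (fr g M c k d κ).win a ω = (fr g M c k d κ).win a ω') ∧
      ((fr g M c k d κ).win a ω = (fr g M c k d κ).win a ω' →
        (κ ω, g.win (c + a) ω) = (κ ω', g.win (c + a) ω')) := by
  refine ⟨fun e => ?_, fun e => ?_, fun e => ?_, fun e => ?_, fun a => ⟨fun e => ?_, fun e => ?_⟩⟩
  · obtain ⟨e1, e2⟩ := Prod.mk.inj e
    obtain ⟨e3, e4⟩ := Prod.mk.inj e1
    obtain ⟨e5, e6⟩ := Prod.mk.inj e4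
    exact Prod.ext ((h e2).fwd (M := M) e2 e3)
      (Prod.ext (zf (M := M) (k := k) (d := d) (κ := κ) e5) (Prod.ext e2 e6))
  · obtain ⟨e1, e2⟩ := Prod.mk.inj e
    obtain ⟨e3, e4⟩ := Prod.mk.inj e2
    obtain ⟨e5, e6⟩ := Prod.mk.inj e4
    exact Prod.ext ((h e5).bwd u e1) (Prod.ext ((h e5).zb e3) e6)
  · obtain ⟨e1, e2⟩ := Prod.mk.inj e
    exact Prod.ext (Prod.ext ((h e2).zb e1) (h e2).θ) e2
  · obtain ⟨e1, e2⟩ := Prod.mk.inj e
    exact Prod.ext (zf (M := M) (k := k) (d := d) (κ := κ) e1) e2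
  · obtain ⟨e1, e2⟩ := Prod.mk.inj e
    obtain ⟨e3, e4⟩ := Prod.mk.inj e2
    exact Prod.ext ((h e1).fwd e1 e3) (((h e1).win (M := M) (k := k) (κ := κ) a).2 e4)
  · obtain ⟨e1, e2⟩ := Prod.mk.inj e
    have e3 : κ ω = κ ω' := congrArg (fun p => p.2.2) e1
    exact Prod.ext e3 (Prod.ext ((h e3).bwd u e1) (((h e3).win a).1 e2))

end FInvx

open FInvx

theorem rowFInv : FInv := by
  intro Ω x j r d X h
  obtain ⟨L, -, hf⟩ := h.fit
  filter_upwards [h.fn, hf, (oA1 _ _ _ _ _ _ _ _ h.tg).room (fun _ => 0)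
    ⟨0, Eventually.of_forall fun _ => Nat.zero_le _⟩] with n fn ft rm
  have sp : ∀ v ∈ (X n).Q.S, Sup x.k (d n) ((X n).ρ v) := fun v hv => sup (ft v hv).1 (ft v hv).2
  have sa : ∀ v ∈ (X n).Q.S, ∀ w ∈ (X n).Q.S,
      (x.F n).S (j n) ((X n).ρ v) = (x.F n).S (j n) ((X n).ρ w) →
      Same (x.g n) (j n) (d n) ((X n).ρ v) ((X n).ρ w) := fun v hv w hw e => by
    obtain ⟨a1, a2, a3⟩ := h.ok.dg n _ _ _ e
    rw [min_eq_left (show j n ≤ x.M n from rm.2.1)] at a3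
    obtain ⟨b1, b2⟩ := Prod.mk.inj (fn v hv w hw e)
    exact ⟨a1, a2, a3, b1, b2⟩
  have A := fun v hv w hw => all (κ := (x.F n).S (j n)) (x.M n) (sa v hv w hw) (sp v hv)
  exact ⟨fun v hv w hw => (A v hv w hw).1, fun v hv w hw => (A v hv w hw).2.1,
    fun v hv w hw => (A v hv w hw).2.2.1, fun v hv w hw => (A v hv w hw).2.2.2.1, sp,
    fun a => ⟨fun v hv w hw => ((A v hv w hw).2.2.2.2 a).1,
      fun v hv w hw => ((A v hv w hw).2.2.2.2 a).2⟩⟩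

end Pool.Agent.MP_5168f5_an.R4.T8
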