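import Pool.Agent.MP_5168f5_an.R4.SpecTB
import Pool.Agent.MP_5168f5_an.R4.KitO

/-! The label facts in a frame. -/

namespace Pool.Agent.MP_5168f5_an.R4.T8

open H19 H17S H17F Filter Matrix Tan

namespace FLabx

theorem key {Ω α β β' γ γ' δ : Type} {P : FP Ω} {lam : Ω → α} {c : Ω → β} {c' : Ω → β'}
    {W : Ω → γ} {W' : Ω → γ'} {κ : Ω → δ} (h1 : Fn P κ lam) (h2 : Fn P c' fun ω => (c ω, κ ω))
    (h3 : Fn P W' fun ω => (κ ω, W ω)) (h4 : Fn P (fun ω => (κ ω, W ω)) W') :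
    mi P lam c' W' ≤ mi P lam c W := by
  have a1 : ch P lam W' ≤ ch P lam fun ω => (κ ω, W ω) := ch_anti h4
  have a2 : ch P lam (fun ω => (c ω, κ ω, W ω)) ≤ ch P lam fun ω => (c' ω, W' ω) :=
    ch_anti fun a ha b hb e => by
      simp only [Prod.mk.injEq] at e ⊢
      exact ⟨h2 a ha b hb (Prod.ext e.1 e.2.1), h3 a ha b hb (Prod.ext e.2.1 e.2.2)⟩
  have a3 := mi_chain (P := P) c κ lam W
  have a4 : mi P c (fun ω => (κ ω, lam ω)) W ≤ mi P c lam W :=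
    mi_mono ((h1.pair (Fn.rfl lam)).left W)
  have a5 := mi_nonneg (P := P) c κ W
  rw [mi_symm c lam] at a3 a4
  have a6 : mi P lam c' W' ≤ mi P lam c fun ω => (κ ω, W ω) := sub_le_sub a1 a2
  linarith

theorem chain {Ω Λ : Type} {P : FP Ω} {S : ℕ → Ω → Λ} (h : ∀ j, Fn P (S j) (S (j + 1))) (j : ℕ) :
    ∀ a, Fn P (S j) (S (j + a))
  | 0 => Fn.rfl _
  | a + 1 => (chain h j a).trans (h _)

theorem tr_congr {Ω : Type} {g : Geo 3 Ω} {c N : ℕ} {k : Bool} {d : Fd Ω} {u v : Ω} {b p : Pl}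
    (h1 : d.pu u = d.pu v) (h2 : fl1 c (g.z u) = fl1 c (g.z v))
    (h3 : fl1 c (g.pt u 0) = fl1 c (g.pt v 0)) : tr g c k d N b p u = tr g c k d N b p v := by
  simp only [tr, Geo.z0, Tan.rd, h1, h2, h3]

theorem pt0 {Ω K : Type} (g : Geo 3 Ω) (M c : ℕ) (k : Bool) (d : Fd Ω) (κ : Ω → K) (ω : Ω) :
    (fr g M c k d κ).pt ω 0 = Int.fract (2 ^ c * g.pt ω 0) := by
  rw [fr_pt]
  show 2 ^ c * (g.pt ω 0 - ((2 : ℝ) ^ c)⁻¹ * ⌊(2 : ℝ) ^ c * g.pt ω 0⌋) = _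
  rw [Int.fract]
  field_simp

end FLabx

open FLabx

theorem rowFLab : OfFLab := by
  intro hI Ω x j r d X h
  have o := oA1 _ _ _ _ _ _ _ _ h.tg
  obtain ⟨L, -, al⟩ := o.fam.alg
  refine ⟨fun a ha => (o.room a ha).mono fun n b => Nat.le_sub_of_add_le' b.2.1, ?_,
    fun a _ => ⟨(o.fam.lab fun n => j n + a n).h.mono ?_, (o.fam.lab fun n => j n + a n).l.mono ?_⟩⟩
  · filter_upwards [al, h.fn, o.room (fun _ => 0) ⟨0, Eventually.of_forall fun _ => by simp⟩]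
      with n al fn rm
    have jM : j n ≤ x.M n := rm.2.1
    refine ⟨Fn.rfl _, fun a => ⟨al.nest (j n + a), fun u hu v hv e => ?_⟩,
      fun a ha u _ v _ e => ?_⟩
    · have e0 := chain al.nest (j n) a u hu v hv e
      have e1 := fn u hu v hv e0
      obtain ⟨-, e2, e3⟩ := h.ok.dg n (j n) _ _ e0
      rw [min_eq_left jM] at e3
      have e4 := (h.ok.dg n (j n + a) _ _ e).2.1
      have e5 : dP (x.F n) false x.k (j n + a) ((X n).ρ u) = dP (x.F n) false x.k (j n + a)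
        ((X n).ρ v) := al.fd (some (false, x.k)) (j n + a) u hu v hv e
      have e6 : dP (x.F n) true (!x.k) (j n + a) ((X n).ρ u) = dP (x.F n) true (!x.k) (j n + a)
        ((X n).ρ v) := al.fd (some (true, !x.k)) (j n + a) u hu v hv e
      simp only [Prod.mk.injEq] at e1
      refine Prod.ext e0 (Prod.ext ((ka.fl _ _ _ _).1 e4).2 (Prod.ext ?_ ?_))
      · show tr _ _ _ _ _ _ _ _ = tr _ _ _ _ _ _ _ _
        rw [e5, e1.1]; exact tr_congr e1.1 e2 e3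
      · show tr _ _ _ _ _ _ _ _ = tr _ _ _ _ _ _ _ _
        rw [e6, e1.2]; exact tr_congr e1.1 e2 e3
    · have e4 := (h.ok.dg n (j n + a) _ _ e).2.2
      rw [min_eq_left (by omega)] at e4
      exact (congrArg (fl1 a) (pt0 _ (x.M n) _ _ _ ((x.F n).S (j n)) _)).trans
        (((ka.fl _ _ _ _).1 e4).2.trans
          (congrArg (fl1 a) (pt0 _ (x.M n) _ _ _ ((x.F n).S (j n)) _)).symm)
  · filter_upwards [al, hI x j r d X h] with n al i
    exact key (chain al.nest (j n) (a n)) i.1 (i.2.2.2.2.2 (a n)).1 (i.2.2.2.2.2 (a n)).2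
  · filter_upwards [al, hI x j r d X h] with n al i
    exact key (chain al.nest (j n) (a n)) i.1 (Fn.rfl _) (Fn.rfl _)

end Pool.Agent.MP_5168f5_an.R4.T8
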