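import Pool.Agent.MP_5168f5_an.R4.SpecTB
import Pool.Agent.MP_5168f5_an.R4.KitO

/-! Labels on tangent members in normal form. -/

namespace Pool.Agent.MP_5168f5_an.R4.T8

open H19 H17S H17F Filter Matrix Tan

theorem rowFNL : FNL := fun x j r a X Λ lam h ⟨C, hC⟩ hl => by
  have o := oA1 _ _ _ _ _ _ _ _ h
  have mr : ∀ᶠ n in UF, x.m n ≤ r n := (o.big.2.2.1 1 one_pos).mono fun n e => by
    simpa using e
  refine ⟨o.big.1, o.bs.bx, hl, ?_, sep _ x.gf x.m 0 x.p.η X _
    (o.cls x.m ⟨1, .of_forall fun n => (one_mul _).ge⟩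
      ⟨1, mr.mono fun n e => e.trans_eq (one_mul _).symm⟩) h (hl.l.mono (.of_forall fun n => ?_))⟩
  · refine (ko.hgt _ _ x.M x.m x.m _ (fun n => j n + a n) (fun n => j n + a n + x.m n) 1 lam o.bs
      hl.h ?_).congr (.of_forall fun n => by push_cast; ring) (.of_forall fun _ => rfl)
    refine (o.room (fun n => a n + x.m n) ⟨C + 1, ?_⟩).mono fun n e =>
      ⟨(one_mul _).ge, le_rfl, Nat.le_add_right _ _, (add_assoc _ _ _).trans_le e.2.1⟩
    filter_upwards [hC, mr] with n e e' using (add_le_add e e').trans_eq (add_one_mul _ _).symm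
  · exact mi_mono' (Fn.rfl _)

end Pool.Agent.MP_5168f5_an.R4.T8
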