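import Pool.Agent.MP_5168f5_an.R4.SpecTB
import Pool.Agent.MP_5168f5_an.R4.KitO

/-! The system facts in a frame. -/

namespace Pool.Agent.MP_5168f5_an.R4.T8

open H19 H17S H17F Filter Matrix Tan

namespace FSysx

section One

variable {Ω K : Type} {g : Geo 3 Ω} {M c : ℕ} {k : Bool} {d : Fd Ω} {κ : Ω → K} {L : ℝ}

theorem fl1_rd (j : ℕ) (x : ℝ) : fl1 j (rd j x) = fl1 j x := by
  have h : (2 : ℝ) ^ j ≠ 0 := by positivity
  rw [rd, fl1, mul_inv_cancel_left₀ h, Int.floor_intCast]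

theorem scale {N : ℕ} {x : ℝ} (h : |x| ≤ L / 2 ^ N) : |2 ^ N * x| ≤ L := by
  have h0 : (0 : ℝ) < 2 ^ N := by positivity
  rw [abs_mul, abs_of_pos h0, mul_comm]
  exact (le_div_iff₀ h0).1 h

theorem scale2 {N c : ℕ} {x : ℝ} (h : |x| ≤ L * 2 ^ c / 2 ^ N) : |2 ^ N / 2 ^ c * x| ≤ L := by
  have h0 : (0 : ℝ) < 2 ^ c := by positivity
  rw [div_mul_eq_mul_div, abs_div, abs_of_pos h0, div_le_iff₀ h0]
  exact scale h

/-- The position and the slope relative to a plane that fits. -/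
theorem fit_bd {ω : Ω} {S : Finset (Fin 3)} {i : Fin 3} {p : Pl} {N : ℕ} (hL : 0 ≤ L)
    (h : (g.pl S i).fit L p ω c N) :
    |2 ^ N * (g.lt (g.z0 c ω) ω i - pv p (g.z0 c ω) (g.lt (g.z0 c ω) ω))| ≤ 4 * L ∧
      |2 ^ N / 2 ^ c * (g.e ω i - ps p (g.e ω))| ≤ 4 * L := by
  have h1 := h.2.2 (g.z0 c ω) (fl1_rd c (g.z ω))
  have h2 := ((kp.iff g S i L p ω c N).1 h).2
  refine ⟨(scale (L := L) ?_).trans (by linarith), scale2 ?_⟩
  · rw [pv]; convert h1 using 2; ring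
  · rw [ps]; convert h2 using 2; ring

theorem bd {ω : Ω} (hL : 1 ≤ L) (he : |g.e ω 0| ≤ L)
    (hu : (g.pl {0} (co k)).fit L (d.pu ω) ω c d.Nu)
    (hf : (g.pl {0, co k} (co (!k))).fit L (d.pf ω) ω c d.Nf) (i : Fin 3) :
    |(Tan.fr g M c k d κ).a ω i| ≤ 4 * L ∧ |(Tan.fr g M c k d κ).e ω i| ≤ 4 * L := by
  fin_cases i
  · refine ⟨scale (N := c) (x := g.lt (g.z0 c ω) ω 0 - rd c (g.pt ω 0)) ?_,
      he.trans (by linarith)⟩
    have h1 := (abs_sub_lt_of_fl1_eq (fl1_rd c (g.z ω))).le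
    have h2 := (abs_sub_lt_of_fl1_eq (fl1_rd c (g.pt ω 0)).symm).le
    have e : g.lt (g.z0 c ω) ω 0 - rd c (g.pt ω 0) =
        (rd c (g.z ω) - g.z ω) * g.e ω 0 + (g.pt ω 0 - rd c (g.pt ω 0)) := by
      simp only [Geo.lt, Geo.pt, Geo.z0, rd, Pi.add_apply, Pi.smul_apply, smul_eq_mul]; ring
    have h0 : (0 : ℝ) ≤ (2 ^ c)⁻¹ := by positivity
    rw [e, div_eq_mul_inv]
    refine (abs_add_le _ _).trans ?_
    rw [abs_mul]
    nlinarith [mul_le_mul h1 he (abs_nonneg _) h0]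
  · exact fit_bd (by linarith) hu
  · exact fit_bd (by linarith) hf

theorem shrink {N q : ℕ} {x : ℝ} (hL : 0 ≤ L) (hN : N + q ≤ M) (h : |x| ≤ L * (2 ^ M)⁻¹) :
    |2 ^ N * x| ≤ L / 2 ^ q := by
  have h0 : (0 : ℝ) < 2 ^ N := by positivity
  have h1 : (2 : ℝ) ^ N * 2 ^ q ≤ 2 ^ M := by
    rw [← pow_add]; exact pow_le_pow_right₀ one_le_two hN
  rw [abs_mul, abs_of_pos h0]
  refine (mul_le_mul_of_nonneg_left h h0.le).trans ?_
  rw [← div_eq_mul_inv, ← mul_div_assoc, div_le_div_iff₀ (by positivity) (by positivity)]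
  nlinarith [mul_le_mul_of_nonneg_left h1 hL]

theorem near_pv {p : Pl} {y y' : V 3} {t δ : ℝ} (hL : 1 ≤ L) (hp : ∀ i, |p.2.2 i| ≤ L)
    (h : ∀ i, |y i - y' i| ≤ δ) (i : Fin 3) :
    |(y i - pv p t y) - (y' i - pv p t y')| ≤ 4 * L * δ := by
  have e : (y i - pv p t y) - (y' i - pv p t y') = (y i - y' i) -
      (p.2.2 0 * (y 0 - y' 0) + p.2.2 1 * (y 1 - y' 1) + p.2.2 2 * (y 2 - y' 2)) := by
    simp only [pv, Fin.sum_univ_three]; ring
  have h1 : ∀ l, |p.2.2 l * (y l - y' l)| ≤ L * δ := fun l => by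
    rw [abs_mul]; exact mul_le_mul (hp l) (h l) (abs_nonneg _) (by linarith)
  have h0 : 0 ≤ δ := (abs_nonneg _).trans (h 0)
  have a0 := abs_le.1 (h1 0)
  have a1 := abs_le.1 (h1 1)
  have a2 := abs_le.1 (h1 2)
  have a3 := abs_le.1 (h i)
  have a4 : δ ≤ L * δ := by nlinarith
  rw [e, abs_le]; constructor <;> linarith [a0.1, a0.2, a1.1, a1.2, a2.1, a2.2, a3.1, a3.2]

theorem near {a b : Ω} {q : ℕ} (hL : 1 ≤ L) (hu : ∀ i, |(d.pu a).2.2 i| ≤ L)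
    (hf : ∀ i, |(d.pf a).2.2 i| ≤ L) (eu : d.pu a = d.pu b) (ef : d.pf a = d.pf b)
    (e : g.fp (fun _ => M) a = g.fp (fun _ => M) b) (h0 : c + q ≤ M) (h1 : d.Nu + q ≤ M)
    (h2 : d.Nf + q ≤ M) (i : Fin 3) :
    |(Tan.fr g M c k d κ).pt a i - (Tan.fr g M c k d κ).pt b i| ≤ 4 * L / 2 ^ q := by
  have e1 : ∀ l, fl1 M (g.pt a l) = fl1 M (g.pt b l) := congrFun (congrArg Prod.fst e)
  have e2 : g.z a = g.z b := congrArg (·.2.1) e
  have e3 : ∀ l, |g.pt a l - g.pt b l| ≤ (2 ^ M)⁻¹ := fun l => (abs_sub_lt_of_fl1_eq (e1 l)).le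
  have e4 : rd c (g.pt a 0) = rd c (g.pt b 0) := by
    rw [rd, rd, fl1_eq_of_le (le_trans (Nat.le_add_right c q) h0) (e1 0)]
  have hp : (0 : ℝ) ≤ (2 ^ M)⁻¹ := by positivity
  rw [fr_pt, fr_pt]
  fin_cases i
  · show |2 ^ c * (g.pt a 0 - rd c (g.pt a 0)) - 2 ^ c * (g.pt b 0 - rd c (g.pt b 0))| ≤ _
    rw [← mul_sub, e4, sub_sub_sub_cancel_right]
    exact shrink (by linarith) h0 ((e3 0).trans (by nlinarith))
  · show |2 ^ d.Nu * (g.pt a (co k) - pv (d.pu a) (g.z a) (g.pt a)) -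
      2 ^ d.Nu * (g.pt b (co k) - pv (d.pu b) (g.z b) (g.pt b))| ≤ _
    rw [← mul_sub, ← eu, ← e2]
    exact shrink (by linarith) h1 (near_pv hL hu e3 _)
  · show |2 ^ d.Nf * (g.pt a (co (!k)) - pv (d.pf a) (g.z a) (g.pt a)) -
      2 ^ d.Nf * (g.pt b (co (!k)) - pv (d.pf b) (g.z b) (g.pt b))| ≤ _
    rw [← mul_sub, ← ef, ← e2]
    exact shrink (by linarith) h2 (near_pv hL hf e3 _)

/-- A label without leak can be added to the condition. -/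
theorem addl (P : FP Ω) (g : Geo 3 Ω) (κ : Ω → K) (α β : ℕ) :
    ch P (fun ω => fl1 β (g.e ω 0)) (fun ω => (fl α (g.e ω), g.y ω)) ≤
      ch P (fun ω => fl1 β (g.e ω 0)) (fun ω => (fl1 α (g.e ω 0), κ ω, g.y ω)) + g.lk P κ := by
  have h1 : ch P (fun ω => fl1 β (g.e ω 0)) (fun ω => (fl α (g.e ω), g.y ω)) ≤
      ch P (fun ω => fl1 β (g.e ω 0)) fun ω => (fl1 α (g.e ω 0), g.y ω) :=
    ch_anti fun a _ b _ e => Prod.ext (congrFun (Prod.mk.inj e).1 0) (Prod.mk.inj e).2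
  have h2 := ch_le_mi (P := P) (F := fun ω => fl1 β (g.e ω 0)) (G := κ)
    (K := fun ω => (fl1 α (g.e ω 0), g.y ω)) (K' := fun ω => (fl1 α (g.e ω 0), κ ω, g.y ω))
    fun a _ b _ e => by simp only [Prod.mk.injEq] at e ⊢; tauto
  have f : ∀ γ : ℕ, Fn P (fun ω => fl1 γ (g.e ω 0)) fun ω => (g.core ω, g.y ω) :=
    fun γ a _ b _ e => by
      have : g.e a = g.e b := congrArg (·.1.1.2.1) e
      simp only [this]
  have h3 : mi P κ (fun ω => fl1 β (g.e ω 0)) (fun ω => (fl1 α (g.e ω 0), g.y ω)) ≤ g.lk P κ :=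
    mi_right (Fn.snd _ _) ((f α).pair (Fn.snd _ _)) (f β)
  rw [mi_symm] at h2
  linarith

end One

variable {Ω : ℕ → Type} {x : Sx Ω} {j r : ℕ → ℕ} {d : ∀ n, Fd (Ω n)} {X : Mb Ω}

theorem oa (h : x.Frm j r d X) : OA1 x.g x.F x.M x.m x.p j r X := oA1 _ _ _ _ _ _ _ _ h.tg

theorem mr (h : x.Frm j r d X) : ∀ᶠ n in UF, x.m n ≤ r n :=
  ((oa h).big.2.2.1 1 one_pos).mono fun n a => by
    rw [zero_add, one_mul] at a; exact Nat.cast_le.1 a

theorem bx (h : x.Frm j r d X) :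
    ∃ L, Sub x.m L ∧ ∀ᶠ n in UF, (X.G (x.fg j d) n).Bx (X n).Q (L n) := by
  obtain ⟨L, hL, a⟩ := (oa h).bs.bx
  obtain ⟨L', hL', b⟩ := h.fit
  refine ⟨fun n => 4 * (L n * L' n), (hL.mul hL').const_mul (oa h).big.1 (by norm_num), ?_⟩
  filter_upwards [a, b] with n a b
  have l1 : L n ≤ L n * L' n := le_mul_of_one_le_right (hL.pos n).le (hL'.1 n)
  have l2 : L' n ≤ L n * L' n := le_mul_of_one_le_left (hL'.pos n).le (hL.1 n)
  refine ⟨fun v hv => ⟨bd (M := x.M n) (κ := (x.F n).S (j n)) ((hL.1 n).trans l1) (((a.bd v hv).1 0).2.trans l1)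
    ((kp.ok _ _ _).monoL _ _ _ _ _ _ l2 (b v hv).1) ((kp.ok _ _ _).monoL _ _ _ _ _ _ l2 (b v hv).2),
    Int.fract_nonneg _, Int.fract_lt_one _⟩, fun u _ v _ e => ?_, fun u _ v _ e =>
      congrArg Prod.fst e⟩
  have : (x.g n).z ((X n).ρ u) = (x.g n).z ((X n).ρ v) := congrArg (·.2.2.1) e
  exact congrArg (fun t => Int.fract (2 ^ j n * t)) this

theorem bs2 (hI : FInv) (h : x.Frm j r d X) {D : ℕ → ℕ} (hD : OM r D) :
    Bs2 X.P (X.G (x.fg j d)) D x.m := by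
  obtain ⟨L, hL, a⟩ := bx h
  refine ko.der X.P (X.G x.gf) (X.G (x.fg j d)) x.M x.m D x.m j 1 L (oa h).bs
    ((oa h).fam.lab j).h hL ?_
  filter_upwards [a, (oa h).room D hD, hI x j r d X h] with n a b c
  refine ⟨(one_mul _).ge, b.2.1, a, fun _ _ => rfl, fun u _ v _ e => ?_, fun u hu v hv e => ?_⟩
  · have := h.ok.dg n (j n) _ _ e
    exact Prod.ext this.1 this.2.1
  · have e1 : (x.F n).S (j n) ((X n).ρ u) = (x.F n).S (j n) ((X n).ρ v) := congrArg Prod.snd e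
    exact congrArg Prod.fst ((c.2.2.2.2.2 0).1 u hu v hv
      (Prod.ext e1 (Prod.ext (Prod.mk.inj e).1 (h.ok.dg n (j n) _ _ e1).2.1)))

theorem brw (h : x.Frm j r d X) {R α β : ℕ → ℕ} (h1 : OM R x.m) (h2 : OM R β) (h3 : OM r β)
    (h4 : ∀ᶠ n in UF, α n ≤ β n) : Le R (fun n => x.p.η * (β n - α n) * lg) fun n =>
      ch (X n).Q (fun v => fl1 (β n) ((X.G (x.fg j d) n).e v 0)) fun v =>
        (fl1 (α n) ((X.G (x.fg j d) n).e v 0), (X.G (x.fg j d) n).y v) := by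
  have a := (oa h).bra R α β h1 h2 h3 h4
  obtain ⟨C, h1⟩ := h1
  have b := KOA.le (R := R) (C := C) (h1.mono fun n a => by exact_mod_cast a)
    ((oa h).fam.lab j).l
  refine a.of2 b (Eventually.of_forall fun n => ?_)
  have := addl (X n).Q (X.G x.gf n) (fun v => (x.F n).S (j n) ((X n).ρ v)) (α n) (β n)
  exact (fun (u v w t : ℝ) (k : v ≤ w + t) => (by linarith : u - w ≤ u - v + (t - 0))) _ _ _ _ this

theorem br (h : x.Frm j r d X) {R : ℕ → ℕ} (h1 : OM R x.m) (h3 : OM r R) :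
    BR X.P (X.G (x.fg j d)) R 0 x.p.η := fun α hα => by
  obtain ⟨C, h3⟩ := h3
  refine (brw h (α := fun _ => 0) (β := α) h1 ⟨1, Eventually.of_forall fun n => by
    simpa using hα n⟩ ⟨C, h3.mono fun n a => (hα n).trans a⟩
    (Eventually.of_forall fun n => Nat.zero_le _)).of_sub (Eventually.of_forall fun n => ?_)
  have : ch (X n).Q (fun v => fl1 (α n) ((X.G (x.fg j d) n).e v 0)) (fun v =>
      (fl1 0 ((X.G (x.fg j d) n).e v 0), (X.G (x.fg j d) n).y v)) ≤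
      ch (X n).Q (fun v => fl1 (α n) ((X.G (x.fg j d) n).e v 0)) (X.G (x.fg j d) n).y :=
    ch_anti (Fn.snd _ _)
  rw [Nat.cast_zero, sub_zero]
  exact sub_le_sub_left this _

theorem fat (h : x.Frm j r d X) (i : Fin 3) {q : ℕ → ℕ} (hq : OM r q) :
    Fat X.P (X.G (x.fg j d)) x.m i q := by
  obtain ⟨L, hL, b⟩ := h.fit
  obtain ⟨C, hq⟩ := hq
  refine ⟨fun n => 4 * L n, hL.const_mul (oa h).big.1 (by norm_num), ?_⟩
  filter_upwards [b, h.fn, h.nu.1 1 one_pos, h.nf.1 1 one_pos, (oa h).room (fun n => q n + r n)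
    ⟨C + 1, hq.mono fun n a => by rw [add_mul, one_mul]; exact Nat.add_le_add_right a _⟩]
    with n b f nu nf a u hu v hv e
  have e1 := f u hu v hv (congrArg Prod.fst e)
  rw [one_mul] at nu nf
  have nu' : (d n).Nu ≤ (x.F n).τ (iU x.k) (j n) + r n := by exact_mod_cast nu
  have nf' : (d n).Nf ≤ (x.F n).τ (iH (!x.k)) (j n) + r n := by exact_mod_cast nf
  have a1 := a.2.1
  have a2 := a.2.2 (iU x.k)
  have a3 := a.2.2 (iH (!x.k))
  exact near (M := x.M n) (κ := (x.F n).S (j n)) (hL.1 n) (fun l => ((b u hu).1.2.1 l).1)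
    (fun l => ((b u hu).2.2.1 l).1) (congrArg Prod.fst e1) (congrArg Prod.snd e1)
    (congrArg Prod.snd e) (by omega) (by omega) (by omega) i

end FSysx

open FSysx in
theorem rowFSys : OfFSys := by
  intro hI Ω x j r d X h
  have r1 : OM r x.m := ⟨1, (mr h).mono fun n a => by omega⟩
  refine ⟨(oa h).big.2.2.1, ⟨ko.bs _ _ r x.m x.m 1 (bs2 hI h ⟨1, Eventually.of_forall fun n =>
      by omega⟩) ((mr h).mono fun n a => ⟨(one_mul _).ge, a⟩),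
    br h ⟨1, Eventually.of_forall fun n => by omega⟩ r1⟩, fun C hC => ?_,
    fun α β a b => brw h r1 a a b, fun i q hq => fat h i hq⟩
  have c1 : OM r fun n => C * r n := ⟨C, Eventually.of_forall fun n => le_rfl⟩
  have c2 : ∀ᶠ n in UF, x.m n ≤ C * r n :=
    (mr h).mono fun n a => a.trans (Nat.le_mul_of_pos_left _ hC)
  exact ⟨ko.bs _ _ (fun n => C * r n) x.m _ 1 (bs2 hI h c1)
    (c2.mono fun n a => ⟨by rw [one_mul]; exact_mod_cast a, le_rfl⟩),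
    br h ⟨1, c2.mono fun n a => by rw [one_mul]; exact a⟩ c1⟩

end Pool.Agent.MP_5168f5_an.R4.T8
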