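import Pool.Agent.MP_5168f5_an.R4.SpecTB
import Pool.Agent.MP_5168f5_an.R4.KitO

/-! Fill after an affine change of the coordinate. -/

namespace Pool.Agent.MP_5168f5_an.R4.T8

open H19 H17S H17F Filter Matrix Tan

namespace FbCx

theorem mul_le {x y a b : ℝ} (h : |x| ≤ a) (h' : |y| ≤ b) : |x * y| ≤ a * b :=
  (abs_mul x y).trans_le (mul_le_mul h h' (abs_nonneg _) ((abs_nonneg _).trans h))

theorem aff {W β : ℕ → Type} {P : ∀ n, FP (W n)} {u y s : ∀ n, W n → ℝ} {c : ∀ n, W n → V 3}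
    {C : ∀ n, W n → β n} {r N q q' : ℕ → ℕ} {B : ℕ → ℝ} (hr : Big r) (hB : Sub r B)
    (h : ∀ᶠ n in UF, q n ≤ q' n ∧ Fn (P n) (c n) (C n) ∧
      Fn (P n) (fun v => fl1 (N n + q' n) (y n v)) (C n) ∧ ∀ v ∈ (P n).S,
        2 ^ N n ≤ B n * |c n v 0| ∧ |c n v 0| ≤ B n * 2 ^ N n ∧ |c n v 1| ≤ B n * 2 ^ N n ∧
        s n v = c n v 0 * u n v + c n v 1 * y n v + c n v 2) :
    Le r (fun n => ch (P n) (fun v => fl1 (N n + q' n) (u n v)) fun v =>
      (fl1 (N n + q n) (u n v), C n v)) fun n =>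
      ch (P n) (fun v => fl1 (q' n) (s n v)) fun v => (fl1 (q n) (s n v), C n v) := by
  have d : ∀ᶠ n in UF, ∀ a ∈ (P n).S, ∀ b ∈ (P n).S, C n a = C n b →
      s n a - s n b = c n a 0 * (u n a - u n b) + c n a 1 * (y n a - y n b) := h.mono
    fun n k a ha b hb e => by
      rw [(k.2.2.2 a ha).2.2.2, (k.2.2.2 b hb).2.2.2, k.2.1 a ha b hb e]; ring
  have s1 := Sm.near1 (P := P) (x := s) (G := fun n v => (fl1 (N n + q n) (u n v), C n v)) (j := q)
    hr (hB.add hB hr) (by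
      filter_upwards [h, d] with n k d a ha b hb e
      have e2 := congrArg Prod.snd e
      have a1 := mul_le (k.2.2.2 a ha).2.1 (abs_sub_lt_of_fl1_eq (congrArg Prod.fst e)).le
      have a2 := mul_le (k.2.2.2 a ha).2.2.1 (abs_sub_lt_of_fl1_eq
        (fl1_eq_of_le (Nat.add_le_add_left k.1 _) (k.2.2.1 a ha b hb e2))).le
      rw [d a ha b hb e2]
      refine (abs_add_le _ _).trans ((add_le_add a1 a2).trans_eq ?_)
      rw [pow_add]; field_simp)
  have s2 := Sm.near1 (P := P) (x := u) (j := fun n => N n + q' n)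
    (G := fun n v => (fl1 (q' n) (s n v), fl1 (q n) (s n v), C n v)) hr
    (hB.mul (hB.add hB hr)) (by
      filter_upwards [h, d] with n k d a ha b hb e
      have e2 := congrArg (·.2.2) e
      have a1 := (abs_sub_lt_of_fl1_eq (congrArg Prod.fst e)).le
      have a2 := mul_le (k.2.2.2 a ha).2.2.1 (abs_sub_lt_of_fl1_eq (k.2.2.1 a ha b hb e2)).le
      have a3 := (abs_sub _ _).trans (add_le_add a1 a2)
      rw [d a ha b hb e2, add_sub_cancel_right, abs_mul] at a3
      have a4 := mul_le_mul_of_nonneg_right (k.2.2.2 a ha).1 (abs_nonneg (u n a - u n b))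
      have a5 : (2 ^ q' n : ℝ)⁻¹ + B n * 2 ^ N n * (2 ^ (N n + q' n))⁻¹ ≤
          (B n + B n) / 2 ^ q' n := by
        rw [pow_add, le_div_iff₀ (by positivity)]
        field_simp
        linarith [hB.1 n]
      rw [mul_assoc] at a4
      have a6 := a4.trans (mul_le_mul_of_nonneg_left (a3.trans a5) (hB.pos n).le)
      rwa [← mul_div_assoc, ← le_div_iff₀' (by positivity), div_div, ← pow_add, add_comm (q' n)]
        at a6)
  refine s1.of2 s2 (Eventually.of_forall fun n => ?_)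
  have t1 := ch_tri (P := P n) (fun v => fl1 (N n + q' n) (u n v)) (fun v => fl1 (q n) (s n v))
    fun v => (fl1 (N n + q n) (u n v), C n v)
  have t2 : ch (P n) (fun v => fl1 (N n + q' n) (u n v))
      (fun v => (fl1 (q n) (s n v), fl1 (N n + q n) (u n v), C n v)) ≤ _ :=
    ch_anti (G := fun v => (fl1 (q n) (s n v), C n v)) fun _ _ _ _ e =>
      congrArg (fun w => (w.1, w.2.2)) e
  have t3 := ch_tri (P := P n) (fun v => fl1 (N n + q' n) (u n v)) (fun v => fl1 (q' n) (s n v))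
    fun v => (fl1 (q n) (s n v), C n v)
  linarith

end FbCx

theorem rowFbC : FbC := by
  intro Ω x j r a N q q' X Λ lam G s c L B b k hT ha _ hl hL hB h hτ
  have f := (oA2 _ _ _ _ _ _ _ _ hT).fb Λ lam G L b k a (fun n => N n + q n) (fun n => N n + q' n)
    ha hl hL (h.mono fun n e => ⟨e.2.2.1, fun v hv => ⟨(e.2.2.2.2 v hv).1, (e.2.2.2.2 v hv).2.1⟩,
      Nat.add_le_add_left e.1 _, e.2.1⟩) (by simpa only [Nat.cast_add] using hτ)
  refine Le.trans (f.of_sub (Eventually.of_forall fun n => ?_))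
    (FbCx.aff (u := fun n => (X.G x.g n).sv k (G n)) (y := fun n v => (X.G x.g n).pt v 0) (c := c)
      (N := N) (oA1 _ _ _ _ _ _ _ _ hT).big.2.1 hB (h.mono fun n e =>
        ⟨e.1, fun u hu v hv w => e.2.2.2.1 u hu v hv (congrArg Prod.snd w),
          fun u _ v _ w => fl1_eq_of_le e.2.1 (congrArg Prod.fst w),
          fun v hv => (e.2.2.2.2 v hv).2.2⟩))
  push_cast
  rw [add_sub_add_left_eq_sub]
  rfl

end Pool.Agent.MP_5168f5_an.R4.T8
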