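import Pool.Agent.MP_5168f5_an.R4.VFbU

/-! Fill for the sheared last coordinate in a frame. -/

namespace Pool.Agent.MP_5168f5_an.R4.T8

open H19 H17S H17F Filter Matrix Tan FbUx

theorem rowFbF : OfFbF := by
  intro hI hL hC Ω x j r d X h hv Λ lam G a k ha hk lab hG q q' r' hq' hr' hq
  have o := oA1 _ _ _ _ _ _ _ _ h.tg
  obtain ⟨L, sL, fit⟩ := h.fit
  have sL2 := sL.const_mul o.big.1 one_le_two
  refine (hC x j r a (fun n => (d n).Nf) q q' X _ _
    (fun n v => ((d n).pf ((X n).ρ v)).2.2 (co x.k) + G n v * 2 ^ (d n).Nu / 2 ^ (d n).Nf)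
    (fun n v => (X.G (x.fg j d) n).pt v 2 - G n v * (X.G (x.fg j d) n).pt v 1)
    (fun n v => ![2 ^ (d n).Nf, -(2 ^ (d n).Nf * ((d n).pf ((X n).ρ v)).2.2 0) +
        G n v * 2 ^ (d n).Nu * ((d n).pu ((X n).ρ v)).2.2 0,
      -(2 ^ (d n).Nf * (((d n).pf ((X n).ρ v)).1 + ((d n).pf ((X n).ρ v)).2.1 * (X.G x.g n).z v)) +
        G n v * 2 ^ (d n).Nu *
          (((d n).pu ((X n).ρ v)).1 + ((d n).pu ((X n).ρ v)).2.1 * (X.G x.g n).z v)])
    _ _ true (!x.k) h.tg ha hq' (hL x j r d X h Λ lam a lab) sL2 (sub_up o.big.2.2.1 sL2) ?_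
    (h.nf.2.of_sub (hq.mono fun n u => by linarith [u.1]))).trans (Le.of_ev ?_)
  · filter_upwards [hq, h.fn, fit, h.nu.1 1 one_pos, h.nf.1 1 one_pos, h.nf.2 1 one_pos,
      o.room _ (OM.rfl.add hq'), o.far _ _ _ hv (hk.add (OM.rfl.add OM.rfl)), hG]
      with n u1 u2 u3 u4 u5 u6 u7 u8 u9
    rw [one_mul] at u4 u5 u6
    have e1 : (d n).Nu ≤ (x.F n).τ (iU x.k) (j n) + r n := by exact_mod_cast u4
    have e2 : (d n).Nf ≤ (x.F n).τ (iH (!x.k)) (j n) + r n := by exact_mod_cast u5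
    have e3 : (x.F n).τ (iH (!x.k)) (j n) ≤ (d n).Nf + r n := by exact_mod_cast u6
    have e4 := u7.2.2 (iH (!x.k))
    have f : ∀ v ∈ (X n).Q.S, ∀ w ∈ (X n).Q.S, (x.F n).S (j n) ((X n).ρ v) =
        (x.F n).S (j n) ((X n).ρ w) → lam n v = lam n w →
        (d n).pu ((X n).ρ v) = (d n).pu ((X n).ρ w) ∧ (d n).pf ((X n).ρ v) = (d n).pf ((X n).ρ w) ∧
          G n v = G n w := fun v hv w hw k1 k2 =>
      ⟨congrArg (·.1) (u2 v hv w hw k1), congrArg (·.2) (u2 v hv w hw k1), u9.1 v hv w hw k2⟩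
    refine ⟨u1.2, by omega, fun v hv w hw e => ?_, fun v hv w hw e => ?_, fun v hv => ?_⟩
    · obtain ⟨-, k2, k3⟩ := f v hv w hw (congrArg (·.1) e) (congrArg (·.2) e)
      simp only [k2, k3]
    · obtain ⟨⟨k1, k0⟩, k2, -⟩ : (_ ∧ _) ∧ _ ∧ _ := by simpa only [Geo.zt, Prod.mk.injEq] using e
      obtain ⟨k3, k4, k5⟩ := f v hv w hw k1 k0
      simp only [k2, k3, k4, k5]
    · have p0 : (0 : ℝ) < 2 ^ (d n).Nf := by positivity
      have l1 := sL.1 n
      have p1 := le_mul_of_one_le_left p0.le (sL2.1 n)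
      obtain ⟨-, b, -⟩ := (u3 v hv).1
      obtain ⟨-, b', -⟩ := (u3 v hv).2
      have p2 : |G n v * 2 ^ (d n).Nu| ≤ 2 ^ (d n).Nf := by
        rw [abs_mul, abs_of_pos (show (0 : ℝ) < 2 ^ (d n).Nu by positivity)]
        refine (mul_le_mul_of_nonneg_right (u9.2 v hv) (by positivity)).trans ?_
        rw [← pow_add]
        exact pow_le_pow_right₀ one_le_two (by omega)
      refine ⟨(abs_add_le _ _).trans ?_, nofun, (by simpa [abs_of_pos p0] using p1),
        by simpa [abs_of_pos p0] using p1, (abs_add_le _ _).trans ?_, ?_⟩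
      · rw [abs_div, abs_of_pos p0]
        linarith [(b' (co x.k)).1, (div_le_one p0).2 p2]
      · rw [abs_neg, abs_mul, abs_mul _ (((d n).pu ((X n).ρ v)).2.2 0), abs_of_pos p0]
        linarith [mul_le_mul_of_nonneg_left (b' 0).1 p0.le,
          mul_le_mul p2 (b 0).1 (abs_nonneg _) p0.le]
      · have f := congrFun (fr_pt (x.g n) (x.M n) (j n) x.k (d n) ((x.F n).S (j n)) ((X n).ρ v))
        have z : ((d n).pf ((X n).ρ v)).2.2 (co (!x.k)) = 0 := (b' _).2 (by cases x.k <;> decide)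
        refine (congrArg₂ (· - G n v * ·) (f 2) (f 1)).trans ?_
        generalize x.k = k' at z ⊢
        cases k' <;> simp [co] at z <;>
          simp [fk, pv, co, Fin.sum_univ_three, (b 1).2, (b 2).2, z, Geo.sv, Geo.pt, Geo.lt] <;>
          field_simp <;> ring
  · filter_upwards [hI x j r d X h, o.room _ hr'] with n u1 u2
    refine ch_anti fun v hv w hw e => ?_
    obtain ⟨k1, k2, ⟨k3, k4⟩, k5, -⟩ : _ ∧ _ ∧ (_ ∧ _) ∧ _ ∧ _ := by
      simpa only [Geo.zt, Prod.mk.injEq] using e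
    refine Prod.ext k1 (Prod.ext ?_ (Prod.ext k4 (u1.2.2.2.1 v hv w hw (Prod.ext k5 k3))))
    have f := fun v => congrFun (fr_pt (x.g n) (x.M n) (j n) x.k (d n) ((x.F n).S (j n)) v) 0
    refine (congrArg _ (f _)).trans (((fl1_fr _ _ _).trans ?_).trans
      ((congrArg _ (f _)).trans (fl1_fr _ _ _)).symm)
    rw [fl1_eq_of_le u2.2.1 k2, fl1_eq_of_le ((Nat.le_add_right _ _).trans u2.2.1) k2]

end Pool.Agent.MP_5168f5_an.R4.T8
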