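import Pool.Agent.MP_5168f5_an.R4.NCx1
import Pool.Agent.MP_5168f5_an.H17F.KS
import Pool.Agent.MP_5168f5_an.H17F.Sq2

/-! The noise step on a single space: a random reflection replaces the equality of laws. -/

namespace Pool.Agent.MP_5168f5_an.R4.NCx

open H19 H17S H17F Filter

section Coin

variable {Ω α β γ : Type} (P : FP Ω)

/-- A fair coin. -/
noncomputable def coin : FP Bool where
  S := Finset.univ
  p := fun _ => 1 / 2
  pos := fun _ _ => by norm_num
  sum_one := by simp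

theorem E_coin (F : Ω × Bool → ℝ) : (prod P coin).E F =
    (P.E (fun x => F (x, true)) + P.E fun x => F (x, false)) / 2 := by
  rw [prod, E_bind, ← FP.E_add, div_eq_inv_mul, ← FP.E_mul]
  refine P.E_congr fun x _ => ?_
  simp [FP.E, coin]
  ring

theorem mem_coin {v : Ω × Bool} (h : v ∈ (prod P coin).S) : v.1 ∈ P.S := ((mem_bind _ _ v).1 h).1

theorem law_fst : Law (prod P coin) Prod.fst P id := fun F => by
  rw [E_coin]; simp

theorem pb_coin (t : Bool) : pb (prod P coin) (fun v => v.2 = t) = 1 / 2 := by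
  rw [pb, E_coin]
  cases t <;> simp [FP.E_const]

theorem law_coin (t : Bool) : Law (cE (prod P coin) fun v => v.2 = t) Prod.fst P id := fun F => by
  have h := E_cE (prod P coin) (fun v => v.2 = t) fun v => F v.1
  rw [pb_coin, E_coin] at h
  cases t <;> simp [FP.E_const] at h ⊢ <;> linarith

theorem ch_coin (F : Bool → Ω → α) (G : Bool → Ω → β) :
    ch (prod P coin) (fun v => F v.2 v.1) (fun v => (G v.2 v.1, v.2)) =
      (ch P (F true) (G true) + ch P (F false) (G false)) / 2 := by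
  rw [rowKE.ent (prod P coin) Prod.snd (fun t v => F t v.1) fun t v => G t v.1, E_coin]
  have h : ∀ t, ch (cv (prod P coin) Prod.snd t) (fun v => F t v.1) (fun v => G t v.1) =
      ch P (F t) (G t) := fun t => (law_coin P t).ch_id (F t) (G t)
  simp only [h, FP.E_const]

theorem ch_bool (s : Ω → Bool) (G : Ω → β) : ch P s G ≤ lg :=
  ch_det (B := 2) fun _ _ => ⟨Finset.univ, by simp, fun _ _ _ => Finset.mem_univ _⟩

theorem ch_coin_ge (F : Bool → Ω → α) (G : Bool → Ω → β) :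
    (ch P (F true) (G true) + ch P (F false) (G false)) / 2 ≤
      ch (prod P coin) (fun v => F v.2 v.1) fun v => G v.2 v.1 := by
  rw [← ch_coin]; exact ch_anti (Fn.fst _ _)

theorem ch_coin_le (F : Bool → Ω → α) (G : Bool → Ω → β) :
    ch (prod P coin) (fun v => F v.2 v.1) (fun v => G v.2 v.1) ≤
      (ch P (F true) (G true) + ch P (F false) (G false)) / 2 + lg := by
  rw [← ch_coin]
  have h1 := ch_tri' (P := prod P coin) (fun v => F v.2 v.1) (fun v => G v.2 v.1)
    fun v => (G v.2 v.1, v.2)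
  have h2 : ch (prod P coin) (fun v => (G v.2 v.1, v.2)) (fun v => G v.2 v.1) ≤
      ch (prod P coin) Prod.snd fun v => G v.2 v.1 := ch_mono ((Fn.snd _ _).pair (Fn.fst _ _))
  linarith [ch_bool (prod P coin) Prod.snd fun v => G v.2 v.1]

theorem mi_coin (F : Bool → Ω → α) (G : Bool → Ω → β) (K : Bool → Ω → γ) :
    mi (prod P coin) (fun v => F v.2 v.1) (fun v => G v.2 v.1) (fun v => K v.2 v.1) ≤
      (mi P (F true) (G true) (K true) + mi P (F false) (G false) (K false)) / 2 + lg := by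
  have h1 := ch_coin_le P F K
  have h2 := ch_coin_ge P F fun t x => (G t x, K t x)
  unfold mi
  linarith

/-- Information on an event. -/
theorem mi_cE (E : Ω → Prop) (F : Ω → α) (G : Ω → β) (K : Ω → γ) :
    pb P E * mi (cE P E) F G K ≤ mi P F G K + lg := by
  classical
  have h1 := rowKE.inf P E (fun ω => (F ω, decide (E ω))) G K
    fun a _ b _ e => by simpa using (Prod.mk.inj (Prod.mk.inj e).1).2
  have h2 : mi (cE P E) F G K ≤ mi (cE P E) (fun ω => (F ω, decide (E ω))) G K :=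
    mi_mono' ((Fn.fst _ _).left _)
  have h3 := mi_chain (P := P) G F (fun ω => decide (E ω)) K
  have h4 := mi_le (P := P) (fun ω => decide (E ω)) G fun ω => (F ω, K ω)
  have h5 := mul_le_mul_of_nonneg_left h2 (pb_nonneg P E)
  rw [mi_symm G, mi_symm G, mi_symm G] at h3
  linarith [ch_bool P (fun ω => decide (E ω)) fun ω => (F ω, K ω)]

theorem ch_shift {α' β' δ ζ : Type} {F : Ω → α} {F' : Ω → α'} {G : Ω → β} {G' : Ω → β'}
    {K : Ω → γ} {A : Ω → δ} (W : Ω → ζ) (h1 : Fn P F' fun ω => (A ω, K ω))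
    (h2 : Fn P G' fun ω => (A ω, K ω)) :
    ch P F' (fun ω => (G' ω, K ω)) ≤ ch P F (fun ω => (G ω, K ω)) + mi P A W K +
      ch P F' (fun ω => (F ω, W ω, K ω)) + ch P G fun ω => (G' ω, W ω, K ω) := by
  have a1 : mi P F' W (fun ω => (G' ω, K ω)) ≤ mi P A W K :=
    mi_left (Fn.snd _ _) (h2.pair (Fn.snd _ _)) h1
  have a2 := ch_tri (P := P) F' F fun ω => (W ω, G' ω, K ω)
  have a3 : ch P F' (fun ω => (F ω, W ω, G' ω, K ω)) ≤ ch P F' fun ω => (F ω, W ω, K ω) :=
    ch_anti fun a _ b _ e => by simp only [Prod.mk.injEq] at e ⊢; tauto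
  have a4 := ch_drop (P := P) F G fun ω => (W ω, G' ω, K ω)
  have a5 : ch P F (fun ω => (G ω, W ω, G' ω, K ω)) ≤ ch P F fun ω => (G ω, K ω) :=
    ch_anti fun a _ b _ e => by simp only [Prod.mk.injEq] at e ⊢; tauto
  have a6 : ch P G (fun ω => (W ω, G' ω, K ω)) ≤ ch P G fun ω => (G' ω, W ω, K ω) :=
    ch_anti fun a _ b _ e => by simp only [Prod.mk.injEq] at e ⊢; tauto
  unfold mi at a1 ⊢
  linarith

theorem det_sub {N : ℕ} {A A' : Ω → Z N} {G : Ω → β} {B B' : ℝ} (h : Det P A G B)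
    (h' : Det P A' G B') : Det P (fun ω => A' ω - A ω) G (B' * B) := fun a ha => by
  classical
  obtain ⟨T, h1, h2⟩ := h a ha
  obtain ⟨T', h3, h4⟩ := h' a ha
  refine ⟨Finset.image₂ (· - ·) T' T, ?_, fun b hb e =>
    Finset.mem_image₂_of_mem (h4 b hb e) (h2 b hb e)⟩
  refine le_trans ?_ (mul_le_mul h3 h1 (Nat.cast_nonneg _) ((Nat.cast_nonneg _).trans h3))
  exact_mod_cast Finset.card_image₂_le _ _ _

theorem det_anti {F : Ω → α} {G : Ω → β} {G' : Ω → γ} {B : ℝ} (h : Det P F G B) (k : Fn P G G') :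
    Det P F G' B := fun a ha => (h a ha).imp fun _ hT => ⟨hT.1, fun b hb e =>
      hT.2 b hb (k b hb a ha e)⟩

theorem det_law {Ω' : Type} {Q : FP Ω'} {ρ : Ω' → Ω} {F : Ω → α} {G : Ω → β} {B : ℝ}
    (h : Det P F G B) (k : ∀ v ∈ Q.S, ρ v ∈ P.S) : Det Q (fun v => F (ρ v)) (fun v => G (ρ v)) B :=
  fun a ha => (h _ (k a ha)).imp fun _ hT => ⟨hT.1, fun b hb e => hT.2 _ (k b hb) e⟩

theorem det_mix {X : Bool → Ω → α} {G : Ω → β} {B : ℝ} (h : ∀ t, Det P (X t) G B) :
    Det (prod P coin) (fun v => X v.2 v.1) (fun v => G v.1) (2 * B) := fun a ha => by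
  classical
  obtain ⟨T, h1, h2⟩ := h true a.1 (mem_coin P ha)
  obtain ⟨T', h3, h4⟩ := h false a.1 (mem_coin P ha)
  refine ⟨T ∪ T', ?_, fun b hb e => ?_⟩
  · have : ((T ∪ T').card : ℝ) ≤ T.card + T'.card := by exact_mod_cast Finset.card_union_le _ _
    linarith
  · obtain ⟨x, t⟩ := b
    cases t
    · exact Finset.mem_union_right _ (h4 x (mem_coin P hb) e)
    · exact Finset.mem_union_left _ (h2 x (mem_coin P hb) e)

theorem det_mono {F : Ω → α} {G : Ω → β} {B B' : ℝ} (h : Det P F G B) (k : B ≤ B') :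
    Det P F G B' := fun a ha => (h a ha).imp fun _ hT => ⟨hT.1.trans k, hT.2⟩

end Coin

variable {N : ℕ} {Ω T : ℕ → Type} {P : ∀ n, FP (Ω n)} {Θ : ∀ n, Ω n → T n} {R : ℕ → ℕ} {ε₀ : ℝ}

theorem sm_mi_cE {α β γ : ℕ → Type} {E : ∀ n, Ω n → Prop} {F : ∀ n, Ω n → α n}
    {G : ∀ n, Ω n → β n} {K : ∀ n, Ω n → γ n} (hR : Big R) (hE : Pos P E)
    (h : Sm R fun n => mi (P n) (F n) (G n) (K n)) :
    Sm R fun n => mi (cE (P n) (E n)) (F n) (G n) (K n) := by
  obtain ⟨κ, hκ, hp⟩ := hE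
  exact Le.of_mul hκ hp (Le.of_sub (h.add (hR.sm lg)) (Eventually.of_forall fun n => by
    linarith [mi_cE (P n) (E n) (F n) (G n) (K n)]))

theorem ch_co {W β : Type} {Q : FP W} {x y : W → V N} {G : W → β} (j : ℕ)
    (h : ∀ a ∈ Q.S, ∀ b ∈ Q.S, G a = G b → fl j (y a) = fl j (y b) ∧ x a - y a = x b - y b) :
    ch Q (fun v => fl j (x v)) G ≤ N * Real.log 5 := by
  have := ch_near (P := Q) (x := x) (G := G) (j := j) zero_le_one fun a ha b hb e => by
    have h1 := (norm_sub_lt_of_fl_eq (h a ha b hb e).1).le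
    have h2 : x a - x b = y a - y b := by
      rw [sub_eq_sub_iff_sub_eq_sub]; exact (h a ha b hb e).2
    rwa [h2, one_div]
  norm_num at this
  exact this

/-- The absence of grains passes to an almost independent shift. -/
theorem nga_shift {A A' : ∀ n, Ω n → Z N} (hR : Big R) (hN : NGA P Θ A R ε₀)
    (h : Sm R fun n => mi (P n) (A' n) (fun ω => A' n ω - A n ω) (Θ n)) : NGA P Θ A' R ε₀ := by
  intro Ω' K Q ρ κ β lam i b E hl hb hκ hf hE
  have k1 : Sm R fun n => mi (Q n) (fun v => A' n (ρ n v)) (fun v => A' n (ρ n v) - A n (ρ n v))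
      fun v => (κ n v, Θ n (ρ n v)) := (h.add hκ).mono (Eventually.of_forall fun n => by
    have a1 := (hl n).mi_id (A' n) (fun ω => A' n ω - A n ω) (Θ n)
    have a2 := mi_chain (P := Q n) (fun v => A' n (ρ n v)) (κ n)
      (fun v => A' n (ρ n v) - A n (ρ n v)) fun v => Θ n (ρ n v)
    have a3 := mi_chain (P := Q n) (fun v => A' n (ρ n v))
      (fun v => A' n (ρ n v) - A n (ρ n v)) (κ n) fun v => Θ n (ρ n v)
    have a4 : mi (Q n) (fun v => A' n (ρ n v)) (fun v => (κ n v, A' n (ρ n v) - A n (ρ n v)))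
        (fun v => Θ n (ρ n v)) ≤ mi (Q n) (fun v => A' n (ρ n v))
        (fun v => (A' n (ρ n v) - A n (ρ n v), κ n v)) fun v => Θ n (ρ n v) :=
      mi_mono fun a _ b _ e => by simp only [Prod.mk.injEq] at e ⊢; tauto
    have a5 : mi (Q n) (fun v => A' n (ρ n v)) (κ n)
        (fun v => (A' n (ρ n v) - A n (ρ n v), Θ n (ρ n v))) ≤
        mi (Q n) (ρ n) (κ n) fun v => Θ n (ρ n v) :=
      mi_left (Fn.snd _ _) (fun a _ b _ e => by rw [(Prod.mk.inj e).1])
        fun a _ b _ e => by rw [(Prod.mk.inj e).1]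
    have a6 := mi_nonneg (P := Q n) (fun v => A' n (ρ n v)) (κ n) fun v => Θ n (ρ n v)
    rw [mi_symm (ρ n)] at a5
    linarith)
  refine Le.of3 (hN Ω' K Q ρ κ β lam i b E hl hb hκ hf hE) (sm_mi_cE hR hE k1)
    (hR.sm (3 * (N * Real.log 5))) (hf.mono fun n hn => ?_)
  have a0 := ch_shift (cE (Q n) (E n)) (F := fun v => co (R n) (lam n) (A n (ρ n v)))
    (F' := fun v => co (R n) (lam n) (A' n (ρ n v)))
    (G := fun v => (cq (R n) (lam n) i (b n v) (A n (ρ n v)), co (R n) (β n) (A n (ρ n v))))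
    (G' := fun v => (cq (R n) (lam n) i (b n v) (A' n (ρ n v)), co (R n) (β n) (A' n (ρ n v))))
    (K := fun v => (κ n v, Θ n (ρ n v))) (A := fun v => A' n (ρ n v))
    (fun v => A' n (ρ n v) - A n (ρ n v)) (fun a _ b _ e => by simp only [(Prod.mk.inj e).1])
    fun a ha c hc e => by
      simp only [(Prod.mk.inj e).1, hn.1 a (cE_sub ha) c (cE_sub hc) (Prod.mk.inj e).2]
  have as : ∀ X : Ω n → Z N, ch (cE (Q n) (E n)) (fun v => co (R n) (lam n) (X (ρ n v)))
      (fun v => ((cq (R n) (lam n) i (b n v) (X (ρ n v)), co (R n) (β n) (X (ρ n v))),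
        κ n v, Θ n (ρ n v))) = ch (cE (Q n) (E n)) (fun v => co (R n) (lam n) (X (ρ n v)))
      fun v => (cq (R n) (lam n) i (b n v) (X (ρ n v)), co (R n) (β n) (X (ρ n v)),
        κ n v, Θ n (ρ n v)) := fun X =>
    le_antisymm (ch_anti fun a _ b _ e => by simp only [Prod.mk.injEq] at e ⊢; tauto)
      (ch_anti fun a _ b _ e => by simp only [Prod.mk.injEq] at e ⊢; tauto)
  rw [as, as] at a0
  have a1 := ch_co (Q := cE (Q n) (E n)) (x := fun v => ((2 : ℝ) ^ R n)⁻¹ • cz (A' n (ρ n v)))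
    (y := fun v => ((2 : ℝ) ^ R n)⁻¹ • cz (A n (ρ n v))) (G := fun v =>
      (co (R n) (lam n) (A n (ρ n v)), A' n (ρ n v) - A n (ρ n v), κ n v, Θ n (ρ n v))) (lam n)
    fun a _ c _ e => by
      simp only [Prod.mk.injEq] at e
      exact ⟨e.1, by rw [← smul_sub, ← smul_sub, ← cz_sub, ← cz_sub, e.2.1]⟩
  have a2 := ch_co (Q := cE (Q n) (E n)) (x := fun v => ((2 : ℝ) ^ R n)⁻¹ • cz (A n (ρ n v)))
    (y := fun v => ((2 : ℝ) ^ R n)⁻¹ • cz (A' n (ρ n v))) (G := fun v =>
      ((cq (R n) (lam n) i (b n v) (A' n (ρ n v)), co (R n) (β n) (A' n (ρ n v))),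
        A' n (ρ n v) - A n (ρ n v), κ n v, Θ n (ρ n v))) (β n)
    fun a _ c _ e => by
      simp only [Prod.mk.injEq] at e
      refine ⟨e.1.2, ?_⟩
      rw [← smul_sub, ← smul_sub, ← cz_sub, ← cz_sub, ← neg_sub, e.2.1, neg_sub]
  have a3 := ch_co (Q := cE (Q n) (E n))
    (x := fun v => ((2 : ℝ) ^ R n)⁻¹ • (cz (A n (ρ n v)) - (A n (ρ n v) i : ℝ) • b n v))
    (y := fun v => ((2 : ℝ) ^ R n)⁻¹ • (cz (A' n (ρ n v)) - (A' n (ρ n v) i : ℝ) • b n v))
    (G := fun v => ((cq (R n) (lam n) i (b n v) (A' n (ρ n v)), co (R n) (β n) (A' n (ρ n v))),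
        A' n (ρ n v) - A n (ρ n v), κ n v, Θ n (ρ n v))) (lam n)
    fun a ha c hc e => by
      simp only [Prod.mk.injEq] at e
      refine ⟨e.1.1, ?_⟩
      have e1 : ∀ (u u' : Z N) (t : V N), cz u - (u i : ℝ) • t - (cz u' - (u' i : ℝ) • t) =
          ((u' - u) i : ℝ) • t - cz (u' - u) := fun u u' t => by
        rw [cz_sub, Pi.sub_apply]; push_cast; module
      rw [← smul_sub, ← smul_sub, e1, e1, e.2.1,
        hn.1 a (cE_sub ha) c (cE_sub hc) (Prod.ext e.2.2.1 e.2.2.2)]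
  have a4 := ch_subadd (P := cE (Q n) (E n)) (fun v => cq (R n) (lam n) i (b n v) (A n (ρ n v)))
    (fun v => co (R n) (β n) (A n (ρ n v))) fun v =>
      ((cq (R n) (lam n) i (b n v) (A' n (ρ n v)), co (R n) (β n) (A' n (ρ n v))),
        A' n (ρ n v) - A n (ρ n v), κ n v, Θ n (ρ n v))
  change ch _ (fun v => co (R n) (lam n) (A' n (ρ n v))) _ ≤ _ at a1
  change ch _ (fun v => co (R n) (β n) (A n (ρ n v))) _ ≤ _ at a2
  change ch _ (fun v => cq (R n) (lam n) i (b n v) (A n (ρ n v))) _ ≤ _ at a3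
  linarith

/-- A piece of an event that has a small probability contributes little. -/
theorem piece {E : ∀ n, Ω n → Prop} {u B : ℕ → ℝ} {C : ℝ} (hB : ∀ n, 0 ≤ B n)
    (h : Pos P E → Le R u B) (hu : ∀ᶠ n in UF, u n ≤ C * R n) :
    Le R (fun n => pb (P n) (E n) * u n) fun n => pb (P n) (E n) * B n := by
  by_cases hE : Pos P E
  · exact (h hE).bmul (C := 1) (Eventually.of_forall fun n => ⟨pb_nonneg _ _, pb_le_one _ _⟩)
  intro ε hε
  have h1 : ¬∀ᶠ n in UF, ε / (|C| + 1) ≤ pb (P n) (E n) := fun h => hE ⟨_, by positivity, h⟩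
  filter_upwards [not_ev.1 h1, hu] with n a b
  have p0 := pb_nonneg (P n) (E n)
  have m0 : (0 : ℝ) ≤ R n := Nat.cast_nonneg _
  have h2 : u n ≤ (|C| + 1) * R n := b.trans (mul_le_mul_of_nonneg_right
    (by linarith [le_abs_self C]) m0)
  have h4 := mul_le_mul_of_nonneg_left h2 p0
  have h5 : pb (P n) (E n) * ((|C| + 1) * R n) ≤ ε / (|C| + 1) * ((|C| + 1) * R n) :=
    mul_le_mul_of_nonneg_right (not_le.1 a).le (by positivity)
  have h6 : ε / (|C| + 1) * ((|C| + 1) * R n) = ε * R n := by field_simp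
  nlinarith [mul_nonneg p0 (hB n)]

/-- The absence of grains passes to a mixture. -/
theorem nga_mix {X : Bool → ∀ n, Ω n → Z N} {C : ℝ} (hR : Big R) (h1 : ε₀ ≤ 1)
    (hN : ∀ t, NGA P Θ (X t) R ε₀)
    (hD : ∀ᶠ n in UF, Det (prod (P n) coin) (fun v => X v.2 n v.1) (fun v => Θ n v.1)
      (Real.exp (C * R n))) :
    NGA (fun n => prod (P n) coin) (fun n v => Θ n v.1) (fun n v => X v.2 n v.1) R ε₀ := by
  intro Ω' K Q ρ κ β lam i b E hl hb hκ hf hE
  have hp : ∀ t n, pb (Q n) (fun v => (ρ n v).2 = t) = 1 / 2 := fun t n =>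
    ((hl n).pb_eq fun v => v.2 = t).trans (pb_coin _ t)
  have key : ∀ t : Bool, Le R (fun n => pb (cE (Q n) (E n)) (fun v => (ρ n v).2 = t) *
      ch (cE (cE (Q n) (E n)) fun v => (ρ n v).2 = t)
        (fun v => co (R n) (lam n) (X (ρ n v).2 n (ρ n v).1)) fun v =>
        (cq (R n) (lam n) i (b n v) (X (ρ n v).2 n (ρ n v).1),
          co (R n) (β n) (X (ρ n v).2 n (ρ n v).1), κ n v, Θ n (ρ n v).1))
      fun n => pb (cE (Q n) (E n)) (fun v => (ρ n v).2 = t) * ((1 - ε₀) * (lam n - β n) * lg) := by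
    intro t
    refine piece (C := C) (fun n => ?_) (fun h => ?_) ?_
    · have : (β n : ℝ) ≤ lam n := by exact_mod_cast (hb n).1
      exact mul_nonneg (mul_nonneg (by linarith) (by linarith)) lg_pos.le
    · have h2 := Pos.of_cE hE h
      have h3 : Pos Q fun n v => (ρ n v).2 = t ∧ E n v :=
        h2.mono (Eventually.of_forall fun _ _ _ => And.symm)
      have h4 := hN t Ω' K (fun n => cE (Q n) fun v => (ρ n v).2 = t) (fun n v => (ρ n v).1) κ β lam
        i b E (fun n => ((rowKE.law _ _ _ _ (fun v => v.2 = t) (hl n)).comp Prod.fst).trans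
          (law_coin _ t)) hb ((sm_mi_cE hR ⟨1 / 2, one_half_pos, Eventually.of_forall fun n =>
            (hp t n).ge⟩ hκ).mono (Eventually.of_forall fun n => mi_mono
              fun a _ c _ e => by simp only [(Prod.mk.inj e).1]))
        (hf.mono fun n hn => ⟨fn_cE hn.1 _, fn_cE hn.2.1 _, fun v hv => hn.2.2 v (cE_sub hv)⟩)
        h3.cE
      refine h4.congr ?_ (Eventually.of_forall fun _ => rfl)
      filter_upwards [h2.ex, h3.ex, h2.sure] with n a1 a2 a3
      rw [cE_cE a1, cE_cE a2, cE_congr (E' := fun v => E n v ∧ (ρ n v).2 = t)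
        fun _ _ => and_comm]
      exact ch_ext (fun v hv => by rw [(a3 v hv).2.2]) fun v hv => by rw [(a3 v hv).2.2]
    · filter_upwards [hD] with n a1
      refine le_trans (ch_le (fun a _ c _ e => ?_) fun a _ c _ e => ?_) ((ch_det (det_cE (det_cE
        (det_law _ a1 fun v hv => (hl n).mem hv) _) _)).trans (Real.log_exp _).le)
      · simp only [(Prod.mk.inj e).1]
      · simp only [Prod.mk.injEq] at e; exact e.2.2.2
  refine Le.of3 (key true) (key false) (hR.sm lg) (Eventually.of_forall fun n => ?_)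
  have a1 := rowKE.le (cE (Q n) (E n)) (fun v => (ρ n v).2 = true)
    (fun v => co (R n) (lam n) (X (ρ n v).2 n (ρ n v).1)) fun v =>
      (cq (R n) (lam n) i (b n v) (X (ρ n v).2 n (ρ n v).1),
        co (R n) (β n) (X (ρ n v).2 n (ρ n v).1), κ n v, Θ n (ρ n v).1)
  have a2 := pb_not (cE (Q n) (E n)) fun v => (ρ n v).2 = true
  simp only [Bool.not_eq_true] at a1 a2
  rw [a2]
  linarith

theorem bil_neg (R : ℕ) (d w : ℤ × Z N) : bil R (-d) w = -bil R d w := by
  simp only [bil, Prod.fst_neg, Prod.snd_neg, cz_neg]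
  push_cast
  module

/-- The noise step on one space, integer form. -/
theorem ncS (N : ℕ) {ε₀ : ℝ} (h0 : 0 < ε₀) (h1 : ε₀ ≤ 1) : ∃ c : ℝ, 0 < c ∧
    ∀ {Ω T : ℕ → Type} {P : ∀ n, FP (Ω n)} {Θ : ∀ n, Ω n → T n} {A A' : ∀ n, Ω n → Z N}
    {d w : ∀ n, Ω n → ℤ × Z N} {R : ℕ → ℕ} {L : ℕ → ℝ} {C : ℝ}, Big R → Sub R L →
    NGA P Θ A R ε₀ →
    (∀ᶠ n in UF, Det (P n) (A n) (Θ n) (Real.exp (C * R n)) ∧
      Det (P n) (A' n) (Θ n) (Real.exp (C * R n)) ∧
      ∀ ω ∈ (P n).S, |((d n ω).1 : ℝ)| ≤ 2 ^ R n ∧ |((w n ω).1 : ℝ)| ≤ 2 * 2 ^ R n ∧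
        ‖cz (d n ω).2‖ ≤ L n * 2 ^ R n ∧ ‖cz (w n ω).2‖ ≤ L n * 2 ^ R n) →
    Whp P (fun n ω => ‖bil (R n) (d n ω) (w n ω) - cz (A n ω - A' n ω)‖ ≤ L n) →
    Le R (fun n => ch (P n) (A' n) (Θ n)) (fun n => ch (P n) (A n) (Θ n)) →
    Sm R (fun n => mi (P n) (A n) (fun ω => (d n ω, w n ω)) (Θ n)) →
    Sm R (fun n => mi (P n) (d n) (w n) (Θ n)) →
    Le R (fun n => R n * lg) (fun n => ch (P n) (fun ω => (d n ω).1) (Θ n)) →
    (Le R (fun n => R n * lg) (fun n => ch (P n) (fun ω => (w n ω).1) (Θ n)) ∨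
      ∀ᶠ n in UF, ∀ ω ∈ (P n).S, (d n ω).2 = 0) →
    Whp P fun n ω => ‖cz (A' n ω - A n ω)‖ ≤ 2 ^ R n * Real.exp (-(c * R n)) := by
  obtain ⟨c, hc, H⟩ := H29N.ncW N ε₀ h0 h1
  refine ⟨c, hc, ?_⟩
  intro Ω T P Θ A A' d w R L C hR hL hN hb hw i0 i1 i2 i3 i4
  have z0 : Sm R fun n => ch (P n) (fun ω => A' n ω - A n ω) fun ω => ((d n ω, w n ω), Θ n ω) := by
    refine (rowKS rowKE).fano P _ _ _ R (fun n => (5 * L n) ^ N) (C + C) hR
      ((hL.const_mul hR (by norm_num)).pow N) hw (hb.mono fun n hn => ⟨?_, fun a _ => ?_⟩)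
    · rw [add_mul, Real.exp_add]
      exact det_anti _ (det_sub _ hn.1 hn.2.1) (Fn.snd _ _)
    · obtain ⟨W, k1, k2⟩ := cells_near 0 (-bil (R n) (d n a) (w n a)) (hL.pos n).le
      refine ⟨W, k1.trans ?_, fun b _ e k => ?_⟩
      · rw [Fintype.card_fin]
        exact pow_le_pow_left₀ (by linarith [hL.1 n]) (by linarith [hL.1 n]) N
      · simp only [Prod.mk.injEq] at e
        rw [← flv_cz (A' n b - A n b)]
        refine k2 _ ?_
        rw [← e.1.1, ← e.1.2, pow_zero, div_one, ← neg_sub (A n b), cz_neg, neg_sub_neg]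
        exact k
  let X : Bool → ∀ n, Ω n → Z N := fun t n ω => bif t then A n ω else A' n ω
  let D : Bool → ∀ n, Ω n → ℤ × Z N := fun t n ω => bif t then d n ω else -d n ω
  have j1 : ∀ t, Sm R fun n => mi (P n) (X t n) (fun ω => (d n ω, w n ω)) (Θ n) := by
    rintro (_ | _)
    · refine Le.of3 i0 i1 z0 (Eventually.of_forall fun n => ?_)
      have a1 := ch_tri (P := P n) (A n) (A' n) fun ω => ((d n ω, w n ω), Θ n ω)
      have a2 : ch (P n) (A n) (fun ω => (A' n ω, (d n ω, w n ω), Θ n ω)) ≤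
          ch (P n) (fun ω => A' n ω - A n ω) fun ω => ((d n ω, w n ω), Θ n ω) :=
        ch_le (fun a _ b _ e => by
          simp only [Prod.mk.injEq] at e
          have := e.1
          rw [e.2.1] at this
          exact sub_right_injective this) (Fn.snd _ _)
      change mi (P n) (A' n) _ _ - 0 ≤ _
      unfold mi at *
      linarith
    · exact i1
  have j2 : ∀ t, Sm R fun n => mi (P n) (X t n) (fun ω => X (!t) n ω - X t n ω) (Θ n) := fun t =>
    ((j1 t).add z0).mono (Eventually.of_forall fun n => (mi_near _ _ _ _).trans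
      (add_le_add le_rfl (ch_mono fun a _ b _ e => by
        have e1 := (Prod.mk.inj e).1
        cases t
        · exact neg_injective (by simpa [X] using e1)
        · exact e1)))
  have fD : ∀ t n, Fn (P n) (D t n) (d n) ∧ Fn (P n) (fun ω => (d n ω).1) fun ω => (D t n ω).1 := by
    rintro (_ | _) n
    · exact ⟨fun a _ b _ e => congrArg Neg.neg e, fun a _ b _ e => neg_injective e⟩
    · exact ⟨Fn.rfl _, Fn.rfl _⟩
  have av : ∀ {f : Bool → ℕ → ℝ} {g : ℕ → ℝ}, (∀ t, Sm R (f t)) →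
      (∀ n, g n ≤ (f true n + f false n) / 2 + lg) → Sm R g := fun h e =>
    Le.of3 ((h true).smul one_half_pos.le) ((h false).smul one_half_pos.le) (hR.sm lg)
      (Eventually.of_forall fun n => by linarith [e n])
  have fu : ∀ {ζ : Bool → ∀ n, Ω n → ℤ} {y : ∀ n, Ω n → ℤ},
      Le R (fun n => R n * lg) (fun n => ch (P n) (y n) (Θ n)) →
      (∀ n, Fn (P n) (y n) fun ω => (d n ω, w n ω)) → (∀ t n, Fn (P n) (y n) (ζ t n)) →
      Le R (fun n => R n * lg) fun n => ch (prod (P n) coin) (fun v => ζ v.2 n v.1)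
        fun v => (X v.2 n v.1, Θ n v.1) := fun {ζ y} h f1 f2 => by
    refine Le.of3 h ((j1 true).smul one_half_pos.le) ((j1 false).smul one_half_pos.le)
      (Eventually.of_forall fun n => ?_)
    have a1 := ch_coin_ge (P n) (fun t => ζ t n) fun t ω => (X t n ω, Θ n ω)
    have a2 : ∀ t, ch (P n) (y n) (Θ n) ≤ ch (P n) (ζ t n) (fun ω => (X t n ω, Θ n ω)) +
        mi (P n) (X t n) (fun ω => (d n ω, w n ω)) (Θ n) := fun t =>
      (ch_le_mi (Fn.rfl _)).trans (add_le_add (ch_mono ((f2 t n).left _))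
        ((mi_symm _ _ _).trans_le (mi_mono ((f1 n).left _))))
    linarith [a2 true, a2 false]
  have hD : ∀ᶠ n in UF, Det (prod (P n) coin) (fun v => X v.2 n v.1) (fun v => Θ n v.1)
      (Real.exp ((C + 1) * R n)) := by
    filter_upwards [hb, hR.ev 1] with n k1 k2
    refine det_mono _ (det_mix _ (X := fun t => X t n) (B := Real.exp (C * R n))
      (Bool.rec k1.2.1 k1.1)) ?_
    rw [add_mul, Real.exp_add, mul_comm]
    exact mul_le_mul_of_nonneg_left (by linarith [Real.add_one_le_exp (1 * (R n : ℝ))])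
      (Real.exp_pos _).le
  have hN' : ∀ t, NGA P Θ (X t) R ε₀ := Bool.rec (nga_shift hR hN ((j2 false).mono
    (Eventually.of_forall fun n => mi_mono fun a _ b _ e =>
      neg_injective (by simpa [X] using (Prod.mk.inj e).1)))) hN
  have k := H _ _ T _ _ _ (fun n => prod (P n) coin) (fun n v => Θ n v.1) (fun n v => X v.2 n v.1)
    (fun n v => X (!v.2) n v.1) (fun n v => D v.2 n v.1) (fun n v => w n v.1) R L (C + 1) hR hL
    (nga_mix hR h1 hN' hD) (fun n => ⟨Law.rfl _, fun F => by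
      rw [E_coin, E_coin, add_comm]; rfl⟩) ?_ ?_
    (av j2 fun n => mi_coin (P n) (fun t => X t n) (fun t ω => X (!t) n ω - X t n ω) fun _ => Θ n)
    (av (f := fun t n => mi (P n) (D t n) (w n) fun ω => (X t n ω, Θ n ω)) (fun t =>
      (i2.add (j1 t)).mono (Eventually.of_forall fun n => ?_))
      fun n => mi_coin (P n) (fun t => D t n) (fun _ => w n) fun t ω => (X t n ω, Θ n ω))
    (fu (ζ := fun t n ω => (D t n ω).1) i3 (fun n a _ b _ e => by simp only [(Prod.mk.inj e).1])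
      fun t n => (fD t n).2)
    (i4.imp (fun h => fu (ζ := fun _ n ω => (w n ω).1) h
      (fun n a _ b _ e => by simp only [(Prod.mk.inj e).2]) fun t n => Fn.rfl _) fun h =>
        h.mono fun n hn v hv => by
          have := hn _ (mem_coin _ hv)
          obtain ⟨x, _ | _⟩ := v <;> simpa [D] using this)
  · intro ε hε
    filter_upwards [k ε hε] with n hn
    refine le_trans (le_of_eq ?_) hn
    refine ((law_fst (P n)).pb_eq fun ω => ¬‖cz (A' n ω - A n ω)‖ ≤ _).symm.trans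
      (pb_congr fun v _ => ?_)
    obtain ⟨x, _ | _⟩ := v
    · simp only [X, Bool.not_false, cond_true, cond_false]
      rw [← neg_sub (A' n x), cz_neg, norm_neg]
    · rfl
  · filter_upwards [hb, hD] with n k1 k2
    refine ⟨(ch_det k2).trans (Real.log_exp _).le, fun v hv => ?_⟩
    have := k1.2.2 _ (mem_coin _ hv)
    obtain ⟨x, _ | _⟩ := v
    · simpa [D, cz_neg] using this
    · exact this
  · intro ε hε
    filter_upwards [hw ε hε] with n hn
    refine le_trans (le_of_eq ?_) hn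
    refine (pb_congr fun v _ => ?_).trans ((law_fst (P n)).pb_eq fun ω =>
      ¬‖bil (R n) (d n ω) (w n ω) - cz (A n ω - A' n ω)‖ ≤ L n)
    obtain ⟨x, _ | _⟩ := v
    · simp only [X, D, Bool.not_false, cond_true, cond_false]
      rw [bil_neg, ← neg_sub (A n x), cz_neg, ← neg_sub', norm_neg]
    · rfl
  · have a1 : mi (P n) (D t n) (w n) (fun ω => (X t n ω, Θ n ω)) ≤
        mi (P n) (d n) (w n) fun ω => (X t n ω, Θ n ω) := mi_mono' ((fD t n).1.left _)
    have a2 := mi_chain (P := P n) (d n) (X t n) (w n) (Θ n)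
    have a3 := mi_chain (P := P n) (d n) (w n) (X t n) (Θ n)
    have a4 : mi (P n) (d n) (fun ω => (X t n ω, w n ω)) (Θ n) ≤
        mi (P n) (d n) (fun ω => (w n ω, X t n ω)) (Θ n) :=
      mi_mono fun a _ b _ e => by simp only [Prod.mk.injEq] at e ⊢; tauto
    have a5 : mi (P n) (X t n) (d n) (fun ω => (w n ω, Θ n ω)) ≤
        mi (P n) (X t n) (fun ω => (d n ω, w n ω)) (Θ n) :=
      mi_right (Fn.snd _ _) (fun a _ b _ e => by simp only [Prod.mk.injEq] at e ⊢; tauto)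
        fun a _ b _ e => by simp only [Prod.mk.injEq] at e ⊢; tauto
    have a6 := mi_nonneg (P := P n) (d n) (X t n) (Θ n)
    rw [mi_symm (X t n)] at a5
    linarith

end Pool.Agent.MP_5168f5_an.R4.NCx
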