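import Pool.Agent.MP_5168f5_an.R4.SpecTB
import Pool.Agent.MP_5168f5_an.R4.KitO
import Pool.Agent.MP_5168f5_an.R4.NCx2

/-! Fill in mode I, in a frame. -/

namespace Pool.Agent.MP_5168f5_an.R4.T8

open H19 H17S H17F Filter Matrix Tan

namespace FbIx

section Det

variable {Ω : Type} (g : Geo 3 Ω) (k : Bool) (d : Fd Ω)

/-- The coefficients of the two last coordinates. -/
def cf (μ ν : ℝ) (ω : Ω) (t : Bool) : ℝ :=
  bif t then ν * 2 ^ d.Nf else μ * 2 ^ d.Nu - ν * 2 ^ d.Nf * (d.pf ω).2.2 (co k)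

/-- The coefficient of `x`. -/
def c1 (μ ν : ℝ) (ω : Ω) : ℝ := -(μ * 2 ^ d.Nu * (d.pu ω).2.2 0) - ν * 2 ^ d.Nf * (d.pf ω).2.2 0

/-- The constant. -/
def c2 (μ ν : ℝ) (ω : Ω) (z : ℝ) : ℝ :=
  -(μ * 2 ^ d.Nu * ((d.pu ω).1 + (d.pu ω).2.1 * z)) - ν * 2 ^ d.Nf * ((d.pf ω).1 + (d.pf ω).2.1 * z)

theorem lin {K : Type} (M c : ℕ) (κ : Ω → K) (ω : Ω) (h : Sup k d ω) (μ ν : ℝ) (t : Bool)
    (G : Ω → ℝ) (hG : cf k d μ ν ω t * G ω = -cf k d μ ν ω (!t)) :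
    μ * (Tan.fr g M c k d κ).pt ω 1 + ν * (Tan.fr g M c k d κ).pt ω 2 =
      cf k d μ ν ω t * g.sv (xor k t) G ω + c1 d μ ν ω * g.pt ω 0 + c2 d μ ν ω (g.z ω) := by
  obtain ⟨h1, h2, h3⟩ := h
  rw [fr_pt, Geo.sv, mul_sub, ← mul_assoc, hG]
  cases k <;> cases t <;> simp [co] at h3 <;>
    simp [fk, pv, cf, c1, c2, co, Fin.sum_univ_three, h1, h2, h3] <;> ring

theorem num {μ ν G a b U N L B K : ℝ} (hL : 1 ≤ L) (hB : 1 ≤ B) (hK : 1 ≤ K) (hU : 0 < U)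
    (hN : 0 < N) (h1 : U ≤ B * N) (h2 : N ≤ B * U) (m1 : |μ| ≤ L) (m2 : |ν| ≤ L)
    (m3 : 1 ≤ L * |μ| ∨ 1 ≤ L * |ν|) (g1 : |G| ≤ K) (g2 : |a| ≤ K) (g3 : |b| ≤ K) :
    |ν * N| ≤ L * B * (2 * K) * N ∧ |μ * U - ν * N * G| ≤ L * B * (2 * K) * N ∧
      |-(μ * U * a) - ν * N * b| ≤ L * B * (2 * K) * N ∧
      ∀ c, |ν * N| ≤ c → |μ * U - ν * N * G| ≤ c → N ≤ L * B * (2 * K) * c := by
  have a1 : |μ * U| ≤ L * B * N := by
    rw [abs_mul, abs_of_pos hU, mul_assoc]; exact mul_le_mul m1 h1 hU.le (by positivity)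
  have a2 : |ν * N| ≤ L * B * N := by
    rw [abs_mul, abs_of_pos hN]
    exact mul_le_mul_of_nonneg_right (m2.trans (le_mul_of_one_le_right (by positivity) hB)) hN.le
  have p : 0 ≤ L * B * N := by positivity
  have m : ∀ {x y : ℝ}, |x| ≤ L * B * N → |y| ≤ K → |x * y| ≤ L * B * N * K := fun u v => by
    rw [abs_mul]; exact mul_le_mul u v (abs_nonneg _) p
  have e : L * B * N ≤ L * B * N * K := le_mul_of_one_le_right p hK
  refine ⟨by nlinarith, ?_, ?_, fun c u v => ?_⟩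
  · have := abs_sub (μ * U) (ν * N * G); nlinarith [m a2 g1]
  · have := abs_sub (-(μ * U * a)) (ν * N * b)
    rw [abs_neg] at this; nlinarith [m a1 g2, m a2 g3]
  have c0 : 0 ≤ c := (abs_nonneg _).trans u
  have LB : L ≤ L * B * (2 * K) := by nlinarith [mul_le_mul hB hK zero_le_one (by positivity)]
  rcases m3 with w | w
  · have b1 : |μ * U| ≤ 2 * K * c := by
      have := abs_add_le (μ * U - ν * N * G) (ν * N * G)
      rw [sub_add_cancel, abs_mul (ν * N)] at this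
      nlinarith [mul_le_mul u g1 (abs_nonneg _) c0]
    rw [abs_mul, abs_of_pos hU] at b1
    have b2 : U ≤ L * (2 * K * c) := by nlinarith
    nlinarith [mul_le_mul_of_nonneg_left b2 (by positivity : 0 ≤ B)]
  · rw [abs_mul, abs_of_pos hN] at u
    nlinarith [mul_le_mul_of_nonneg_left u (by positivity : 0 ≤ L),
      mul_le_mul_of_nonneg_right LB c0]

theorem fl_x {K : Type} (M c ρ : ℕ) (κ : Ω → K) (h : c + ρ ≤ M) {ω ω' : Ω}
    (e : fl1 M (g.pt ω 0) = fl1 M (g.pt ω' 0)) :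
    fl1 ρ ((Tan.fr g M c k d κ).pt ω 0) = fl1 ρ ((Tan.fr g M c k d κ).pt ω' 0) := by
  have f : ∀ y : ℝ, fl1 ρ (2 ^ c * (y - rd c y)) = fl1 (c + ρ) y - 2 ^ ρ * fl1 c y := fun y => by
    have : (2 : ℝ) ^ ρ * (2 ^ c * (y - rd c y)) =
        2 ^ (c + ρ) * y - ((2 ^ ρ * fl1 c y : ℤ) : ℝ) := by
      simp only [rd]; push_cast; rw [pow_add]; field_simp
    rw [fl1, this, Int.floor_sub_intCast]; rfl
  rw [fr_pt, fr_pt]
  change fl1 ρ (2 ^ c * (_ - rd c _)) = fl1 ρ (2 ^ c * (_ - rd c _))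
  rw [f, f, fl1_eq_of_le h e, fl1_eq_of_le (le_of_add_le_left h) e]

end Det

theorem sub_pow {r a b : ℕ → ℕ} (h : Eqv r (fun n => a n) fun n => b n) :
    ∃ B, Sub r B ∧ ∀ n, (2 : ℝ) ^ a n ≤ B n * 2 ^ b n ∧ (2 : ℝ) ^ b n ≤ B n * 2 ^ a n := by
  refine ⟨fun n => 2 ^ (a n - b n + (b n - a n)), ⟨fun n => one_le_pow₀ one_le_two,
    fun ε hε => ?_⟩, fun n => ?_⟩
  · filter_upwards [h.1 ε hε, h.2 ε hε] with n u v
    refine (two_pow_le_exp _).trans (Real.exp_le_exp.2 ?_)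
    rcases le_total (a n) (b n) with w | w
    · rw [Nat.sub_eq_zero_of_le w, zero_add, Nat.cast_sub w]; linarith
    · rw [Nat.sub_eq_zero_of_le w, add_zero, Nat.cast_sub w]; linarith
  · constructor <;> rw [← pow_add] <;> exact pow_le_pow_right₀ one_le_two (by omega)

theorem core (hI : FInv) (hT : Lft) (hC : FbC) {Ω Λ : ℕ → Type} {x : Sx Ω} {j r : ℕ → ℕ}
    {d : ∀ n, Fd (Ω n)} {X : Mb Ω} (h : x.Frm j r d X) (hv : x.vU = x.vQ)
    {lam : ∀ n, (X n).W → Λ n} {μ ν : ∀ n, (X n).W → ℝ} {a : ℕ → ℕ} {L : ℕ → ℝ} (ha : OM r a)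
    (hl : Lab X.P (X.G (x.fg j d)) x.m a lam) (hL : Sub r L)
    (hμ : ∀ᶠ n in UF, Fn (X n).Q (fun ω => (μ n ω, ν n ω)) (lam n) ∧ ∀ ω ∈ (X n).Q.S,
      |μ n ω| ≤ L n ∧ |ν n ω| ≤ L n ∧ (1 ≤ L n * |μ n ω| ∨ 1 ≤ L n * |ν n ω|)) (t : Bool)
    (ht : ∀ᶠ n in UF, ∀ v ∈ (X n).Q.S, |cf x.k (d n) (μ n v) (ν n v) ((X n).ρ v) (!t)| ≤
      |cf x.k (d n) (μ n v) (ν n v) ((X n).ρ v) t|) :
    Fill X.P (X.G (x.fg j d)) r lam (fun n v => μ n v * (X.G (x.fg j d) n).pt v 1 +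
      ν n v * (X.G (x.fg j d) n).pt v 2) x.w a := by
  intro q q' ρ hq hρ hw
  have o := oA1 _ _ _ _ _ _ _ _ h.tg
  have ok := h.tg.1
  have v1 : x.vU = x.vH := le_antisymm ((ok.uh _).trans h.ok.oh) ((ok.hq _).trans hv.ge)
  have v2 : x.p.v (iH (xor x.k t)) = x.vH := by
    cases t
    · rw [Bool.xor_false]; exact le_antisymm h.ok.oh (v1.ge.trans (ok.uh _))
    · rw [Bool.xor_true]
  obtain ⟨B, sB, hB⟩ := sub_pow (h.nu.trans ((o.tie _ _ v1).trans h.nf.symm))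
  obtain ⟨K, sK, hK⟩ := h.fit
  have sK' : Sub r K := ⟨sK.1, fun ε hε => by
    filter_upwards [sK.2 ε hε, o.big.2.2.1 1 one_pos] with n u v
    exact u.trans (Real.exp_le_exp.2 (mul_le_mul_of_nonneg_left (by linarith) hε.le))⟩
  have r1 : OM r fun n => r n + q' n := by
    obtain ⟨C, e⟩ := hq
    exact ⟨C + 1, e.mono fun n u => by rw [add_mul]; change r n + q' n ≤ _; omega⟩
  have key := hC x j r a (fun n => (d n).Nf) q q' X _
    (fun n v => ((x.F n).S (j n) ((X n).ρ v), lam n v))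
    (fun n v => -cf x.k (d n) (μ n v) (ν n v) ((X n).ρ v) (!t) /
      cf x.k (d n) (μ n v) (ν n v) ((X n).ρ v) t)
    (fun n v => μ n v * (X.G (x.fg j d) n).pt v 1 + ν n v * (X.G (x.fg j d) n).pt v 2)
    (fun n v => ![cf x.k (d n) (μ n v) (ν n v) ((X n).ρ v) t, c1 (d n) (μ n v) (ν n v) ((X n).ρ v),
      c2 (d n) (μ n v) (ν n v) ((X n).ρ v) ((X.G x.g n).z v)]) (fun _ => 1)
    (fun n => L n * B n * (2 * K n)) true (xor x.k t) h.tg ha hq (hT x j r d X h _ lam a hl)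
    (o.big.1.sub le_rfl) ((hL.mul sB).mul (sK'.const_mul o.big.2.1 one_le_two)) (by
      filter_upwards [hw, o.room _ r1, h.nf.1 1 one_pos, h.fn, hμ, hK, ht, hI x j r d X h] with
        n a1 a2 a3 a4 a5 a6 a7 a8
      have e : ∀ u ∈ (X n).Q.S, ∀ v ∈ (X n).Q.S, ((x.F n).S (j n) ((X n).ρ u), lam n u) =
          ((x.F n).S (j n) ((X n).ρ v), lam n v) → (d n).pu ((X n).ρ u) = (d n).pu ((X n).ρ v) ∧
          (d n).pf ((X n).ρ u) = (d n).pf ((X n).ρ v) ∧ μ n u = μ n v ∧ ν n u = ν n v :=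
        fun u hu v hv e => by
          have b1 := Prod.mk.inj (a4 u hu v hv (Prod.mk.inj e).1)
          have b2 := Prod.mk.inj (a5.1 u hu v hv (Prod.mk.inj e).2)
          exact ⟨b1.1, b1.2, b2.1, b2.2⟩
      refine ⟨a1.2, ?_, fun u hu v hv w => ?_, fun u hu v hv w => ?_, fun v hv => ?_⟩
      · have b := a2.2.2 (iH (!x.k))
        have : ((d n).Nf : ℝ) + q' n ≤ x.M n := by
          have : (((x.F n).τ (iH (!x.k)) (j n) + (r n + q' n) : ℕ) : ℝ) ≤ x.M n := by exact_mod_cast b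
          push_cast at this; linarith
        exact_mod_cast this
      · obtain ⟨-, b2, b3, b4⟩ := e u hu v hv w
        simp only [cf, b2, b3, b4]
      · obtain ⟨b1, b2, b3, b4⟩ := e u hu v hv (Prod.mk.inj w).1
        have b5 : (x.g n).z ((X n).ρ u) = (x.g n).z ((X n).ρ v) :=
          (Prod.mk.inj (Prod.mk.inj w).2).1
        simp only [cf, c1, c2, b1, b2, b3, b4, b5]
      obtain ⟨b1, b2, b3⟩ := a5.2 v hv
      obtain ⟨f1, f2⟩ := a6 v hv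
      obtain ⟨n1, n2, n3, n4⟩ := num (hL.1 n) (sB.1 n) (sK.1 n) (by positivity) (by positivity)
        (hB n).1 (hB n).2 b1 b2 b3 (f2.2.1 (co x.k)).1 (f1.2.1 0).1 (f2.2.1 0).1
      have b4 := a7 v hv
      have b5 : 2 ^ (d n).Nf ≤ L n * B n * (2 * K n) *
          |cf x.k (d n) (μ n v) (ν n v) ((X n).ρ v) t| := by
        cases t
        · exact n4 _ b4 le_rfl
        · exact n4 _ le_rfl b4
      have b6 : cf x.k (d n) (μ n v) (ν n v) ((X n).ρ v) t ≠ 0 := fun z => by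
        rw [z, abs_zero, mul_zero] at b5; exact absurd b5 (not_le.2 (by positivity))
      refine ⟨?_, fun z => absurd z (by decide), b5, ?_, n3, ?_⟩
      · rw [abs_div, abs_neg]; exact div_le_one_of_le₀ b4 (abs_nonneg _)
      · cases t
        · exact n2
        · exact n1
      · exact lin (x.g n) x.k (d n) (x.M n) (j n) ((x.F n).S (j n)) ((X n).ρ v) (a8.2.2.2.2.1 v hv) _ _ t
          (fun _ => -cf x.k (d n) (μ n v) (ν n v) ((X n).ρ v) (!t) /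
            cf x.k (d n) (μ n v) (ν n v) ((X n).ρ v) t) (by field_simp))
    (((o.tie _ _ v2).trans h.nf.symm).1.of_sub (hw.mono fun n u => by
      have := ok.tie _ _ v2
      have := u.1
      simp only [Sx.w] at *
      rw [show x.p.sl (some (true, xor x.k t)) = x.p.sl (iH (!x.k)) by assumption]
      linarith))
  refine key.trans (Le.of_ev ?_)
  filter_upwards [o.room _ hρ, hI x j r d X h] with n a1 a2
  refine ch_anti fun u hu v hv e => ?_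
  simp only [Prod.mk.injEq] at e ⊢
  exact ⟨e.1,
    fl_x (x.g n) x.k (d n) (x.M n) (j n) (ρ n) ((x.F n).S (j n)) a1.2.1 e.2.1, e.2.2.1.2,
    a2.2.2.2.1 u hu v hv (Prod.ext (Prod.mk.inj e.2.2.2).1 e.2.2.1.1)⟩

end FbIx

open FbIx in
theorem rowFbI : OfFbI := by
  intro hK hI hT hC Ω x j r d X h hv Λ lam μ ν a L ha hl hL hμ q q' ρ hq hρ hw
  have o := oA1 _ _ _ _ _ _ _ _ h.tg
  obtain ⟨C, hC'⟩ := id hq
  let E : ∀ n, (X n).W → Prop := fun n v => |cf x.k (d n) (μ n v) (ν n v) ((X n).ρ v) false| ≤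
    |cf x.k (d n) (μ n v) (ν n v) ((X n).ρ v) true|
  have k : ∀ (E : ∀ n, (X n).W → Prop) (t : Bool), (∀ n v, E n v →
      |cf x.k (d n) (μ n v) (ν n v) ((X n).ρ v) (!t)| ≤
        |cf x.k (d n) (μ n v) (ν n v) ((X n).ρ v) t|) → _ := fun E t e =>
    NCx.piece (P := X.P) (E := E) (R := r) (C := C * lg) (fun n => ch_nonneg _ _)
      (fun p => core hI hT hC ((hK x j r d).cond X E h p) hv ha
        ((kc2.lab (X.G (x.fg j d)) x.m a lam o.big.1).cond (Mb.base X.P) E hl p) hL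
        (hμ.mono fun n u => ⟨fn_cE u.1 _, fun v w => u.2 v (cE_sub w)⟩) t
        (p.sure.mono fun n u v w => e n v (u v w).2) q q' ρ hq hρ hw)
      (hC'.mono fun n u => by
        have : (q' n : ℝ) ≤ C * r n := by exact_mod_cast u
        nlinarith [lg_pos, (Nat.cast_nonneg (q n) : (0 : ℝ) ≤ q n)])
  refine (k E true fun n v e => e).of2 (k (fun n v => ¬E n v) false fun n v e => (not_le.1 e).le)
    (Eventually.of_forall fun n => ?_)
  have e : ∀ {p D A B T : ℝ}, p * A + (1 - p) * B ≤ T →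
      D - T ≤ p * D - p * A + ((1 - p) * D - (1 - p) * B) := fun u => by linarith
  rw [pb_not]
  exact e (ke.ge (X n).Q (E n) _ _)

end Pool.Agent.MP_5168f5_an.R4.T8
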