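import Pool.Agent.MP_5168f5_an.R4.SpecTB
import Pool.Agent.MP_5168f5_an.R4.KitO
import Pool.Agent.MP_5168f5_an.R4.NCp3T

/-! Fill for the second coordinate in a frame. -/

namespace Pool.Agent.MP_5168f5_an.R4.T8

open H19 H17S H17F Filter Matrix Tan

namespace FbUx

theorem fl1_fr (i j : ℕ) (x : ℝ) :
    fl1 i (2 ^ j * (x - rd j x)) = fl1 (j + i) x - 2 ^ i * fl1 j x := by
  rw [fl1, fl1, rd, show (2 : ℝ) ^ i * (2 ^ j * (x - (2 ^ j)⁻¹ * fl1 j x)) =
    2 ^ (j + i) * x - ((2 ^ i * fl1 j x : ℤ) : ℝ) by push_cast; rw [pow_add]; field_simp,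
    Int.floor_sub_intCast]

end FbUx

open FbUx

theorem rowFbU : OfFbU := by
  intro hI hL hC Ω x j r d X h Λ lam a ha lab q q' r' hq' hr' hq
  have o := oA1 _ _ _ _ _ _ _ _ h.tg
  obtain ⟨L, sL, fit⟩ := h.fit
  refine (hC x j r a (fun n => (d n).Nu) q q' X _ _ (fun _ _ => 0)
    (fun n v => (X.G (x.fg j d) n).pt v 1)
    (fun n v => ![2 ^ (d n).Nu, -(2 ^ (d n).Nu * ((d n).pu ((X n).ρ v)).2.2 0),
      -(2 ^ (d n).Nu * (((d n).pu ((X n).ρ v)).1 + ((d n).pu ((X n).ρ v)).2.1 * (X.G x.g n).z v))])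
    L L false x.k h.tg ha hq' (hL x j r d X h Λ lam a lab) sL (sub_up o.big.2.2.1 sL) ?_
    (h.nu.2.of_sub (hq.mono fun n u => by linarith [u.1]))).trans (Le.of_ev ?_)
  · filter_upwards [hq, h.fn, fit, h.nu.1 1 one_pos, o.room _ (OM.rfl.add hq')]
      with n u1 u2 u3 u4 u5
    have e1 : (d n).Nu ≤ (x.F n).τ (iU x.k) (j n) + r n := by
      rw [one_mul] at u4; exact_mod_cast u4
    have e2 := u5.2.2 (iU x.k)
    refine ⟨u1.2, by omega, fun _ _ _ _ _ => rfl, fun v hv w hw e => ?_, fun v hv => ?_⟩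
    · obtain ⟨⟨k1, -⟩, k2, -⟩ : (_ ∧ _) ∧ _ ∧ _ := by simpa only [Geo.zt, Prod.mk.injEq] using e
      have k3 : (d n).pu ((X n).ρ v) = (d n).pu ((X n).ρ w) := congrArg (·.1) (u2 v hv w hw k1)
      simp only [k2, k3]
    · have p0 : (0 : ℝ) < 2 ^ (d n).Nu := by positivity
      have p1 := le_mul_of_one_le_left p0.le (sL.1 n)
      obtain ⟨-, b, -⟩ := (u3 v hv).1
      refine ⟨by simpa using (sL.pos n).le, fun _ => rfl, (by simpa [abs_of_pos p0] using p1),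
        by simpa [abs_of_pos p0] using p1, ?_, ?_⟩
      · simpa [abs_mul, abs_of_pos p0] using
          (mul_comm _ _).trans_le (mul_le_mul_of_nonneg_right (b 0).1 p0.le)
      · refine (congrFun (fr_pt (x.g n) (x.M n) (j n) x.k (d n) ((x.F n).S (j n))
          ((X n).ρ v)) 1).trans ?_
        simp [fk, pv, Fin.sum_univ_three, (b 1).2, (b 2).2, Geo.sv, Geo.pt, Geo.lt]
        ring
  · filter_upwards [hI x j r d X h, o.room _ hr'] with n u1 u2
    refine ch_anti fun v hv w hw e => ?_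
    obtain ⟨k1, k2, ⟨k3, k4⟩, k5, -⟩ : _ ∧ _ ∧ (_ ∧ _) ∧ _ ∧ _ := by
      simpa only [Geo.zt, Prod.mk.injEq] using e
    refine Prod.ext k1 (Prod.ext ?_ (Prod.ext k4 (u1.2.2.2.1 v hv w hw (Prod.ext k5 k3))))
    have f := fun v => congrFun (fr_pt (x.g n) (x.M n) (j n) x.k (d n) ((x.F n).S (j n)) v) 0
    refine (congrArg _ (f _)).trans (((fl1_fr _ _ _).trans ?_).trans
      ((congrArg _ (f _)).trans (fl1_fr _ _ _)).symm)
    rw [fl1_eq_of_le u2.2.1 k2, fl1_eq_of_le ((Nat.le_add_right _ _).trans u2.2.1) k2]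

end Pool.Agent.MP_5168f5_an.R4.T8
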