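import Pool.Agent.MP_5168f5_an.R4.SpecTB
import Pool.Agent.MP_5168f5_an.R4.KitO

/-! The canonical frame of an index. -/

namespace Pool.Agent.MP_5168f5_an.R4.T8

open H19 H17S H17F Filter Matrix Tan

namespace FrCanx

theorem co_ne (k : Bool) : co k ≠ 0 := by cases k <;> decide

theorem fit {Ω : Type} {g : Geo 3 Ω} {ω : Ω} {k : Bool} {j a b N : ℕ} {U H : Pl} {L L' G : ℝ}
    (hL : 1 ≤ L) (hU : (g.pl {0} (co k)).fit L U ω j a)
    (hH : (g.pl (sS true (!k)) (co (!k))).fit L H ω j b) (hG : |G| ≤ L') (hN : N ≤ b)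
    (e : 2 ^ N * |H.2.2 (co k) - G| ≤ 2 ^ a) :
    (g.pl {0, co k} (co (!k))).fit (L + (L + L') * L) (prd (co k) G H U) ω j N := by
  rw [show sS true (!k) = {0, co k} by cases k <;> rfl] at hH
  obtain ⟨u1, u2, u3⟩ := hU
  obtain ⟨h1, h2, h3⟩ := hH
  have l0 := (abs_nonneg G).trans hG
  have d1 : |H.2.2 (co k) - G| ≤ L + L' := (abs_sub _ _).trans (add_le_add (h2 _).1 hG)
  have d2 : ∀ x y : ℝ, |x| ≤ L → |y| ≤ L → |x + (H.2.2 (co k) - G) * y| ≤ L + (L + L') * L :=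
    fun x y p q => (abs_add_le _ _).trans (add_le_add p (by
      rw [abs_mul]
      exact mul_le_mul d1 q (abs_nonneg _) (by linarith)))
  refine ⟨d2 _ _ h1 u1, fun i => ⟨?_, fun c => ?_⟩, fun t ht => ?_⟩
  · simp only [prd]
    split_ifs
    · exact d2 _ _ (h2 _).1 (u2 _).1
    · nlinarith
    · rw [abs_zero]
      nlinarith
  · simp only [Finset.mem_insert, Finset.mem_singleton, not_or] at c
    simp only [prd, if_neg c.1, if_neg c.2]
  · have q := prd_pv (co_ne k) G (H := H) (U := U) (fun l p q => (h2 l).2 (by simp [p, q]))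
      ⟨(u2 1).2 (by decide), (u2 2).2 (by decide)⟩ t (g.lt t ω)
    have a1 := (h3 t ht).trans (div_le_div_of_nonneg_left (by linarith) (by positivity)
      (pow_le_pow_right₀ one_le_two hN))
    have a2 : |H.2.2 (co k) - G| * (L / 2 ^ a) ≤ L / 2 ^ N := by
      rw [← mul_div_assoc, div_le_div_iff₀ (by positivity) (by positivity)]
      nlinarith
    have a3 := (mul_le_mul_of_nonneg_left (u3 t ht) (abs_nonneg (H.2.2 (co k) - G))).trans a2
    have a4 : 2 * L / 2 ^ N ≤ (L + (L + L') * L) / 2 ^ N :=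
      div_le_div_of_nonneg_right (by nlinarith) (by positivity)
    rw [← abs_mul] at a3
    refine le_trans (le_of_eq (congrArg _ ?_)) (((abs_add_le _ _).trans
      (add_le_add a1 a3)).trans (le_of_eq_of_le (by ring) a4))
    unfold pv at q
    linarith

end FrCanx

open FrCanx in
theorem rowFrCan : FrCan := by
  intro Ω x σ r X ok tg h
  have o := oA1 _ _ _ _ _ _ _ _ tg
  obtain ⟨L, hL, al⟩ := o.fam.alg
  obtain ⟨L', hL', bd⟩ := h.bd
  refine ⟨ok, tg, ?_, ⟨_, hL.add ((hL.add hL' o.big.1).mul hL) o.big.1, ?_⟩, Eqv.rfl,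
    ⟨Le.of_le fun n => Nat.cast_le.2 (Nat.sub_le _ _), h.sm.of_sub (.of_forall fun n => ?_)⟩,
    h.fn.mono fun n a v hv => ?_⟩
  · filter_upwards [al, h.fn] with n a b u hu v hv e
    have e1 : dP (x.F n) false x.k (σ n).1 ((X n).ρ u) = dP (x.F n) false x.k (σ n).1 ((X n).ρ v) :=
      a.fd (iU x.k) _ u hu v hv e
    have e2 : dP (x.F n) true (!x.k) (σ n).1 ((X n).ρ u) =
        dP (x.F n) true (!x.k) (σ n).1 ((X n).ρ v) := a.fd (iH (!x.k)) _ u hu v hv e
    have e3 : (σ n).2.2 ((X n).ρ u) = (σ n).2.2 ((X n).ρ v) := b.1 u hu v hv e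
    simp only [cfr, e1, e2, e3]
  · filter_upwards [al, h.fn, bd] with n a b c v hv
    have u1 : ((x.g n).pl {0} (co x.k)).fit (L n) (dP (x.F n) false x.k (σ n).1 ((X n).ρ v))
      ((X n).ρ v) (σ n).1 ((x.F n).τ (iU x.k) (σ n).1) := a.fit (iU x.k) _ v hv
    refine ⟨(kp.ok _ _ _).monoL _ _ _ _ _ _ (le_add_of_nonneg_right ?_) u1,
      fit (hL.1 n) u1 (a.fit (iH (!x.k)) _ v hv) (c v hv) (Nat.sub_le _ _) (b.2 v hv)⟩
    exact mul_nonneg (add_pos (hL.pos n) (hL'.pos n)).le (hL.pos n).le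
  · have : ((x.F n).τ (iH (!x.k)) (σ n).1 : ℝ) ≤
        ((x.F n).τ (iH (!x.k)) (σ n).1 - (σ n).2.1 : ℕ) + ((σ n).2.1 : ℕ) := by
      exact_mod_cast le_tsub_add
    simp only [cfr]
    linarith
  · simpa only [cfr, prd, if_neg (co_ne x.k), if_true] using a.2 v hv

end Pool.Agent.MP_5168f5_an.R4.T8
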