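import Pool.Agent.MP_5168f5_an.R4.SpecTW
import Pool.Agent.MP_5168f5_an.R4.Kit

/-! Tangent systems: the offset is free. -/

namespace Pool.Agent.MP_5168f5_an.R4.T8

open H19 H17S H17F Filter Matrix Tan

namespace Offx

theorem ex_lev {M : ℕ → ℕ} {L : ℕ → ℝ} (hM : Big M) (h : Sub M L) :
    ∃ s : ℕ → ℕ, (Sm M fun n => s n) ∧ ∀ n, L n ≤ 2 ^ s n := by
  refine ⟨fun n => ⌈lg⁻¹ * Real.log (L n)⌉₊, ((h.log.smul (inv_pos.2 lg_pos).le).add
    (hM.sm 1)).mono (Eventually.of_forall fun n => (Nat.ceil_lt_add_one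
      (mul_nonneg (inv_pos.2 lg_pos).le (Real.log_nonneg (h.1 n)))).le), fun n => ?_⟩
  rw [two_pow_eq, ← Real.log_le_iff_le_exp (h.pos n), mul_comm, ← inv_mul_le_iff₀ lg_pos]
  exact Nat.le_ceil _

/-- A digit that the window determines and the point nearly determines is added to a label. -/
theorem lab_add {Ω Λ : ℕ → Type} {P : ∀ n, FP (Ω n)} {g : Gs 3 Ω} {m j r : ℕ → ℕ}
    {lam : ∀ n, Ω n → Λ n} {ψ : ∀ n, Ω n → ℝ} (hm : Big m) (h : Lab P g m j lam)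
    (h1 : ∀ᶠ n in UF, Fn (P n) (ψ n) fun ω => (lam n ω, (g n).win (j n) ω))
    (h2 : ∀ᶠ n in UF, Near (P n) (fun ω => (lam n ω, (g n).y ω)) (ψ n) (3 / 2 ^ r n)) :
    Lab P g m j fun n ω => (fl1 (r n) (ψ n ω), lam n ω) :=
  ⟨Sm.mono h.h (h1.mono fun n a => by
      have := (kb.add (P n) (g n) (j n) (fun ω => fl1 (r n) (ψ n ω)) (lam n)).1
      rwa [ch_zero ((Fn.comp (fl1 (r n)) (ψ n)).trans a), add_zero] at this),
    (h.l.add (Sm.near1 hm (hm.sub (C := 3) (by norm_num)) h2)).mono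
      (Eventually.of_forall fun n => (kb.add (P n) (g n) (j n) _ (lam n)).2)⟩

theorem off0 {Ω : ℕ → Type} {A : Type} (K : Mb Ω → Prop) (g : Gs 3 Ω) (M mm : ℕ → ℕ)
    (wt : ℝ) (ok : ∀ n, ℝ → ℝ → ℕ → A → Ω n → Prop) (φ : ∀ n, A → Ω n → ℝ → ℝ) (hK : Cl0 K)
    (hM : Big M) (hm : Big mm) (hw : 0 ≤ wt)
    (h0 : ∀ n L B B' j d ω, B ≤ B' → ok n L B j d ω → ok n L B' j d ω)
    (h1 : ∀ X, K X → ∀ᶠ n in UF, ∀ v ∈ (X n).Q.S, ∀ v' ∈ (X n).Q.S,
      (X.G g n).ln v = (X.G g n).ln v' → ∀ d t, φ n d ((X n).ρ v) t = φ n d ((X n).ρ v') t)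
    (h2 : ∀ X, K X → ∀ k r : ℕ → ℕ, OM M k → OM M r → ∀ᶠ n in UF, ∀ L j d, ∀ v ∈ (X n).Q.S,
      ∀ v' ∈ (X n).Q.S, L ≤ 2 ^ k n → ok n L (2 ^ k n) j d ((X n).ρ v) →
        (X.G g n).y v = (X.G g n).y v' → |φ n d ((X n).ρ v) ((X.G g n).z v) -
          φ n d ((X n).ρ v') ((X.G g n).z v')| ≤ 1 / 2 ^ r n)
    (h3 : ∀ X, K X → NoPt X.P (X.G g) M mm wt (fun n L B j d v => ok n L B j d ((X n).ρ v))
      fun n d v => φ n d ((X n).ρ v)) (X : Mb Ω) (hX : K X) :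
    NoGain X.P (X.G g) M mm wt (fun n L B j d v => ok n L B j d ((X n).ρ v))
      fun n d v => φ n d ((X n).ρ v) := by
  intro Λ lam d L j τ k oj oτ ok' hl hL hd hE
  obtain ⟨s, s1, s2⟩ := ex_lev hM hL
  rcases ev_em fun n => s n + 1 ≤ τ n with hs | hs
  swap
  · refine s1.of_sub (hs.mono fun n a => ?_)
    have a1 : (τ n : ℝ) ≤ s n := by exact_mod_cast (by omega : τ n ≤ s n)
    linarith [mul_nonneg hw (Nat.cast_nonneg (α := ℝ) (j n))]
  let E : ∀ n, (X n).W → Prop := fun n v => ok n (L n) (2 ^ k n) (j n) (d n v) ((X n).ρ v) ∧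
    Cst (j n) ((X.G g n).z v) (φ n (d n v) ((X n).ρ v)) (L n / 2 ^ τ n)
  have hp : Pos X.P E := hE.pos
  have hX' := hK.cond X E hX hp
  have o1 : OM M fun n => k n + M n := ok'.elim fun C a => ⟨C + 1, a.mono fun n b => by
    rw [add_mul, one_mul]; exact Nat.add_le_add_right b _⟩
  have o2 : ∀ i : ℕ → ℕ, OM M fun n => τ n - i n := fun i =>
    oτ.imp fun C a => a.mono fun n b => (Nat.sub_le _ _).trans b
  have e1 : ∀ᶠ n in UF, L n ≤ 2 ^ (k n + M n) := (s1 1 one_pos).mono fun n a =>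
    (s2 n).trans (pow_le_pow_right₀ one_le_two (by
      have : s n ≤ M n := by exact_mod_cast (by linarith : (s n : ℝ) ≤ M n)
      omega))
  have e2 : ∀ᶠ n in UF, ∀ v ∈ (cE (X n).Q (E n)).S, v ∈ (X n).Q.S ∧
      ok n (L n) (2 ^ (k n + M n)) (j n) (d n v) ((X n).ρ v) ∧
      |φ n (d n v) ((X n).ρ v) ((X.G g n).z0 (j n) v) - φ n (d n v) ((X n).ρ v) ((X.G g n).z v)| ≤
        1 / 2 ^ (τ n - s n) := by
    filter_upwards [hp.sure, hs] with n a b v hv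
    refine ⟨(a v hv).1, h0 _ _ _ _ _ _ _ (pow_le_pow_right₀ one_le_two (by omega)) (a v hv).2.1,
      ((a v hv).2.2 _ (KPA.fl1_z0 _ _ _)).trans ?_⟩
    rw [div_le_div_iff₀ (by positivity) (by positivity), one_mul,
      show (2 : ℝ) ^ τ n = 2 ^ s n * 2 ^ (τ n - s n) by rw [← pow_add]; congr 1; omega]
    exact mul_le_mul_of_nonneg_right (s2 n) (by positivity)
  have hl' := lab_add (r := fun n => τ n - s n)
    (ψ := fun n v => φ n (d n v) ((X n).ρ v) ((X.G g n).z0 (j n) v)) hm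
    ((kc2.lab (X.G g) mm j lam hm).cond (Mb.base X.P) _ hl hp)
    (by
      filter_upwards [e2, hd, h1 X hX] with n a b c v hv v' hv' e
      have e3 : (X.G g n).z0 (j n) v = (X.G g n).z0 (j n) v' :=
        congrArg (fun z : ℤ => ((2 : ℝ) ^ j n)⁻¹ * z) (congrArg (fun p => p.2.2) e)
      show φ n (d n v) _ _ = φ n (d n v') _ _
      rw [b v (a v hv).1 v' (a v' hv').1 (congrArg Prod.fst e), e3]
      exact c v (a v hv).1 v' (a v' hv').1 (congrArg (fun p => p.2.1) e) _ _)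
    (by
      filter_upwards [e1, e2, hd, h2 X hX _ _ o1 (o2 s)] with n u a b c v hv v' hv' e
      have e3 := abs_le.1 (c _ _ _ v (a v hv).1 v' (a v' hv').1 u (a v hv).2.1
        (congrArg Prod.snd e))
      have e4 := abs_le.1 (a v hv).2.2
      have e5 := abs_le.1 (a v' hv').2.2
      have e6 : d n v = d n v' := b v (a v hv).1 v' (a v' hv').1 (congrArg Prod.fst e)
      rw [← e6] at e5
      show |φ n (d n v) _ _ - φ n (d n v') _ _| ≤ _
      rw [← e6, abs_le, div_eq_mul_one_div 3]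
      constructor <;> linarith [e3.1, e3.2, e4.1, e4.2, e5.1, e5.2])
  have h4 := h3 _ hX' _ _ d (fun n v => rd (τ n - s n)
    (φ n (d n v) ((X n).ρ v) ((X.G g n).z0 (j n) v))) L j (fun n => τ n - (s n + 1))
    (fun n => k n + M n) oj (o2 _) o1 hl' hL (by
      filter_upwards [e2, hd, hs] with n a b c
      refine ⟨fun v hv v' hv' e => Prod.ext (b v (a v hv).1 v' (a v' hv').1 (congrArg Prod.snd e))
        (congrArg (fun z : ℤ => ((2 : ℝ) ^ (τ n - s n))⁻¹ * z) (congrArg Prod.fst e)),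
        fun v hv => ⟨(a v hv).2.1, ?_⟩⟩
      have e4 := abs_le.1 (a v hv).2.2
      have e5 := fl1_le (τ n - s n) (φ n (d n v) ((X n).ρ v) ((X.G g n).z0 (j n) v))
      have e6 := lt_fl1 (τ n - s n) (φ n (d n v) ((X n).ρ v) ((X.G g n).z0 (j n) v))
      have e7 : (1 : ℝ) / 2 ^ (τ n - (s n + 1)) = 2 * (2 ^ (τ n - s n))⁻¹ := by
        rw [show τ n - s n = τ n - (s n + 1) + 1 by omega, pow_succ]; field_simp
      rw [one_div] at e4
      show |φ n (d n v) ((X n).ρ v) ((X.G g n).z v) - _| ≤ _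
      rw [e7, rd, abs_le]
      constructor <;> linarith [e4.1, e4.2])
  refine h4.of3 s1 (hM.sm 1) (hs.mono fun n a => ?_)
  rw [Nat.cast_sub a]
  push_cast
  linarith

end Offx

theorem rowOff : Off := @Offx.off0

end Pool.Agent.MP_5168f5_an.R4.T8
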