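import Pool.Agent.MP_5168f5_an.R4.SpecTB
import Pool.Agent.MP_5168f5_an.R4.KitO
import Pool.Agent.MP_5168f5_an.R4.NCp3T
import Pool.Agent.MP_5168f5_an.R4.YOff

/-! The index of the cells. -/

namespace Pool.Agent.MP_5168f5_an.R4.T8

open H19 H17S H17F Filter Matrix Tan

namespace Kidx

theorem nest {W Λ : Type} {P : FP W} {S : ℕ → W → Λ} (h : ∀ j, Fn P (S j) (S (j + 1)))
    (a b : ℕ) : Fn P (S a) (S (a + b)) := by
  induction b with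
  | zero => exact Fn.rfl _
  | succ b ih => exact ih.trans (h _)

/-- The slope of the hyperplane in the frame. -/
theorem slope {Ω : Type} {g : Geo 3 Ω} (F : Fam g.sh5) (k : Bool) (σ : IxT Ω) (a : ℕ) (ω : Ω) :
    ((frD F σ.1 k (cfr F k σ)).H a ω).2.2 1 = 2 ^ (F.τ (iH (!k)) σ.1 - σ.2.1) /
      2 ^ F.τ (iU k) σ.1 * (gO F k (σ.1 + a) ω - σ.2.2 ω) := by
  have e : (prd (co k) (σ.2.2 ω) (dP F true (!k) σ.1 ω) (dP F false k σ.1 ω)).2.2 (co k) =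
      σ.2.2 ω := by
    have h : co k ≠ 0 := by cases k <;> decide
    simp only [prd, if_neg h, if_true]
  show 2 ^ (F.τ (iH (!k)) σ.1 - σ.2.1) / 2 ^ F.τ (iU k) σ.1 * (gO F k (σ.1 + a) ω -
    (prd (co k) (σ.2.2 ω) (dP F true (!k) σ.1 ω) (dP F false k σ.1 ω)).2.2 (co k)) = _
  rw [e]

theorem num {f u h u' l s : ℕ} {Δ L : ℝ} (hL : L ≤ 2 ^ l) (e : |2 ^ f / 2 ^ u * Δ| ≤ L * 2 ^ s)
    (k : h + (l + s + u) ≤ f + u') : 2 ^ h * |Δ| ≤ 2 ^ u' := by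
  rw [abs_mul, abs_of_pos (by positivity), div_mul_eq_mul_div, div_le_iff₀ (by positivity)] at e
  have k1 : (2 : ℝ) ^ (h + (l + s + u)) ≤ 2 ^ (f + u') := pow_le_pow_right₀ one_le_two k
  have k2 : L * 2 ^ s * 2 ^ u ≤ 2 ^ l * 2 ^ s * 2 ^ u := by gcongr
  simp only [pow_add] at k1
  refine le_of_mul_le_mul_left ?_ (by positivity : (0 : ℝ) < 2 ^ f)
  calc (2 : ℝ) ^ f * (2 ^ h * |Δ|) = 2 ^ h * (2 ^ f * |Δ|) := by ring
    _ ≤ 2 ^ h * (2 ^ l * 2 ^ s * 2 ^ u) := mul_le_mul_of_nonneg_left (e.trans k2) (by positivity)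
    _ ≤ _ := k1

end Kidx

theorem rowKid : OfKid := fun _ hC Ω x Nm pr σ r a X E₁ _ hN ⟨tg, can, nm⟩ ha hE hp => by
  have cl := oCl x.g x.F x.M x.m x.p
  have tg' := cl.shift _ _ a X tg ha
  have nm' := hN.shift _ _ a X tg ha nm
  cases pr
  · have t := (cl.cl _ _).cond X E₁ tg' hE.pos
    exact ⟨fun _ => 0, E₁, hE, fun _ _ h => h, t, hC.init x _ r _ t, nm'⟩
  obtain ⟨hw, gb⟩ := hp rfl
  have o := oA1 _ _ _ _ _ _ _ _ tg
  have o' := oA1 _ _ _ _ _ _ _ _ tg'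
  have big := o.big.2.1
  have c0 : ∀ n, 0 ≤ (x.γ - x.w) * a n := fun n => mul_nonneg (sub_nonneg.2 hw) (Nat.cast_nonneg _)
  obtain ⟨L, sL, wL⟩ := gb a (fun n => ⌈(x.γ - x.w) * a n⌉₊)
    ha ((ha.mul ⌈x.γ - x.w⌉₊).mono (Eventually.of_forall fun n => Nat.ceil_le.2 (by
      push_cast; exact mul_le_mul_of_nonneg_right (Nat.le_ceil _) (Nat.cast_nonneg _))))
    (Eventually.of_forall fun n => Nat.le_ceil _)
  obtain ⟨l, sl, hl⟩ := Offx.ex_lev big sL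
  obtain ⟨s, hs⟩ : ∃ s : ℕ → ℕ, ∀ n, s n = (x.F n).τ (iH (!x.k)) ((σ n).1 + a n) +
      (l n + ⌈(x.γ - x.w) * a n⌉₊ + (x.F n).τ (iU x.k) (σ n).1) -
      ((x.F n).τ (iH (!x.k)) (σ n).1 - (σ n).2.1 + (x.F n).τ (iU x.k) ((σ n).1 + a n)) :=
    ⟨_, fun _ => rfl⟩
  have sm : Sm r fun n => (s n : ℝ) := fun ε hε => by
    filter_upwards [(((((o.lin (iH (!x.k)) a ha).1.add (o.lin (iU x.k) a ha).2).add sl).add
      can.sm).add (big.sm 1)) ε hε] with n u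
    have p1 := (Nat.ceil_lt_add_one (c0 n)).le
    have p2 : ((x.F n).τ (iH (!x.k)) (σ n).1 : ℝ) ≤
        ((x.F n).τ (iH (!x.k)) (σ n).1 - (σ n).2.1 : ℕ) + (σ n).2.1 := by
      exact_mod_cast le_tsub_add
    rw [hs]
    rcases le_total ((x.F n).τ (iH (!x.k)) (σ n).1 - (σ n).2.1 +
      (x.F n).τ (iU x.k) ((σ n).1 + a n)) ((x.F n).τ (iH (!x.k)) ((σ n).1 + a n) +
      (l n + ⌈(x.γ - x.w) * a n⌉₊ + (x.F n).τ (iU x.k) (σ n).1)) with c | c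
    · rw [Nat.cast_sub c]
      simp only [Nat.cast_add]
      linarith
    · rw [Nat.sub_eq_zero_of_le c, Nat.cast_zero, zero_add]
      positivity
  have le : ∀ᶠ n in UF, s n ≤ (x.F n).τ (iH (!x.k)) ((σ n).1 + a n) := by
    filter_upwards [sm 1 one_pos, o'.low (iH (!x.k)) 1 one_pos,
      o'.room (fun n => 2 * r n) (OM.rfl.mul 2)] with n u v w
    have : ((2 * r n : ℕ) : ℝ) ≤ ((σ n).1 + a n : ℕ) := by exact_mod_cast w.1
    rw [Nat.cast_mul, Nat.cast_ofNat] at this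
    exact_mod_cast (by linarith : (s n : ℝ) ≤ (x.F n).τ (iH (!x.k)) ((σ n).1 + a n))
  have W := hE.and wL
  obtain ⟨L₁, -, alg⟩ := o.fam.alg
  obtain ⟨L₂, s2, bd⟩ := can.bd
  refine ⟨s, _, W, fun _ _ h => h.1, (cl.cl _ _).cond X _ tg' W.pos, ⟨sm, ?_, L₂, s2,
    bd.mono fun n u v hv => u v (cE_sub hv)⟩, nm'⟩
  filter_upwards [can.fn, alg, W.pos.sure, le] with n u v w y
  refine ⟨fn_cE (u.1.trans (Kidx.nest v.nest _ _)) _, fun t ht => ?_⟩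
  have k := (w t ht).2.2
  exact Kidx.num (hl n) ((congrArg abs (Kidx.slope (x.F n) x.k (σ n) (a n) _)).symm.trans_le k)
    (by have := hs n; show (x.F n).τ (iH (!x.k)) ((σ n).1 + a n) - s n + _ ≤
      _ + (x.F n).τ (iU x.k) ((σ n).1 + a n); omega)

end Pool.Agent.MP_5168f5_an.R4.T8
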