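import Pool.Agent.MP_5168f5_an.R4.SpecTB
import Pool.Agent.MP_5168f5_an.R4.XKB

/-! Labels in the frame are labels. -/

namespace Pool.Agent.MP_5168f5_an.R4.T8

open H19 H17S H17F Filter Matrix Tan

namespace Lftx

theorem split {Ω α β γ γ' δ δ' : Type} {P : FP Ω} (S : Ω → α) (lam : Ω → β) {C : Ω → γ}
    {C' : Ω → γ'} {W : Ω → δ} {W' : Ω → δ'} (h : Fn P C C') (h₁ : Fn P W' fun ω => (S ω, W ω))
    (h₂ : Fn P (fun ω => (S ω, W ω)) W') :
    mi P (fun ω => (S ω, lam ω)) C W ≤ mi P S C W + mi P lam C' W' := by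
  have e := KBA.mi_pair (P := P) lam S C W
  have a : mi P (fun ω => (S ω, lam ω)) C W ≤ mi P (fun ω => (lam ω, S ω)) C W :=
    mi_mono' (((Fn.snd lam S).pair (Fn.fst lam S)).left W)
  have b : mi P lam C (fun ω => (S ω, W ω)) ≤ mi P lam C' W' :=
    mi_right h₁ (h₂.right _) (h.left _)
  linarith

end Lftx

theorem rowLft : OfLft := by
  intro hI Ω x j r d X h Λ lam a hl
  have k := hI x j r d X h
  refine ⟨fun ε hε => ?_, fun ε hε => ?_⟩
  · filter_upwards [k, hl.h _ (half_pos hε), h.tg.2 _ (half_pos hε)] with n k b c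
    have e := Lftx.split (fun v => (x.F n).S (j n) ((X n).ρ v)) (lam n) k.2.1
      (k.2.2.2.2.2 (a n)).1 (k.2.2.2.2.2 (a n)).2
    have u := KBA.up_le (P := (X n).Q) (X.G x.gf n) (Nat.le_add_right (j n) (a n))
      fun v => (x.F n).S (j n) ((X n).ρ v)
    have w := u.trans (c.old.lab (j n)).1
    exact e.trans ((add_le_add w b).trans_eq (by ring))
  · filter_upwards [k, hl.l _ (half_pos hε), h.tg.2 _ (half_pos hε)] with n k b c
    have e := Lftx.split (W := (X.G x.gf n).y) (W' := (X.G (x.fg j d) n).y)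
      (fun v => (x.F n).S (j n) ((X n).ρ v)) (lam n) k.2.1 (Fn.rfl _) (Fn.rfl _)
    exact e.trans ((add_le_add (c.old.lab (j n)).2 b).trans_eq (by ring))

end Pool.Agent.MP_5168f5_an.R4.T8
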