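import Pool.Agent.MP_5168f5_an.R4.SpecTW

/-! The fibre coordinate is nearly constant on the cells. -/

namespace Pool.Agent.MP_5168f5_an.R4.T8

open H19 H17S H17F Filter Matrix Tan

namespace BallEx

theorem lag (C : ℕ → ℝ) (s ρ x S : ℝ) (hρ : 0 ≤ ρ) (hx : |x| ≤ 1)
    (h : ∀ t, |t - s| ≤ ρ → |ev 4 C t| ≤ S) :
    |ev 4 C (s + ρ * x) - ev 4 C s| ≤ 15 * S * |x| := by
  have k : ∀ y : ℝ, |y| ≤ 1 → |ev 4 C (s + ρ * y)| ≤ S := fun y hy => h _ (by
    rw [add_sub_cancel_left, abs_mul, abs_of_nonneg hρ]; exact mul_le_of_le_one_right hρ hy)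
  have e : ev 4 C (s + ρ * x) - ev 4 C s = x * (ev 4 C (s + ρ * 1) * ((x + 1) * (4 * x ^ 2 - 1) / 6) +
      ev 4 C (s + ρ * (-1)) * ((x - 1) * (4 * x ^ 2 - 1) / 6) +
      ev 4 C (s + ρ * (1 / 2)) * (-(4 / 3) * (2 * x + 1) * (x ^ 2 - 1)) +
      ev 4 C (s + ρ * (-(1 / 2))) * (-(4 / 3) * (2 * x - 1) * (x ^ 2 - 1)) +
      ev 4 C (s + ρ * 0) * (x * (4 * x ^ 2 - 5))) := by
    simp only [ev, Finset.sum_range_succ, Finset.sum_range_zero]; ring
  obtain ⟨x1, x2⟩ := abs_le.1 hx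
  have x3 : x ^ 2 ≤ 1 := by nlinarith
  have x4 := sq_nonneg x
  have m : ∀ y u c : ℝ, |y| ≤ 1 → |u| ≤ c → |ev 4 C (s + ρ * y) * u| ≤ S * c := fun y u c a b => by
    rw [abs_mul]; exact mul_le_mul (k y a) b (abs_nonneg _) ((abs_nonneg _).trans (k y a))
  have p : ∀ u v a b : ℝ, |u| ≤ a → |v| ≤ b → |u * v| ≤ a * b := fun u v a b c d => by
    rw [abs_mul]; exact mul_le_mul c d (abs_nonneg _) ((abs_nonneg _).trans c)
  have q1 : |4 * x ^ 2 - 1| ≤ 3 := abs_le.2 ⟨by linarith, by linarith⟩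
  have q2 : |x ^ 2 - 1| ≤ 1 := abs_le.2 ⟨by linarith, by linarith⟩
  have b1 := abs_le.1 (m 1 ((x + 1) * (4 * x ^ 2 - 1) / 6) 1 (by norm_num) (by
    have := abs_le.1 (p (x + 1) _ 2 3 (abs_le.2 ⟨by linarith, by linarith⟩) q1)
    exact abs_le.2 ⟨by linarith, by linarith⟩))
  have b2 := abs_le.1 (m (-1) ((x - 1) * (4 * x ^ 2 - 1) / 6) 1 (by norm_num) (by
    have := abs_le.1 (p (x - 1) _ 2 3 (abs_le.2 ⟨by linarith, by linarith⟩) q1)
    exact abs_le.2 ⟨by linarith, by linarith⟩))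
  have b3 := abs_le.1 (m (1 / 2) (-(4 / 3) * (2 * x + 1) * (x ^ 2 - 1)) (4 * 1)
    (abs_le.2 ⟨by norm_num, by norm_num⟩) (p _ _ 4 1 (abs_le.2 ⟨by linarith, by linarith⟩) q2))
  have b4 := abs_le.1 (m (-(1 / 2)) (-(4 / 3) * (2 * x - 1) * (x ^ 2 - 1)) (4 * 1)
    (abs_le.2 ⟨by norm_num, by norm_num⟩) (p _ _ 4 1 (abs_le.2 ⟨by linarith, by linarith⟩) q2))
  have b5 := abs_le.1 (m 0 (x * (4 * x ^ 2 - 5)) (1 * 5) (by norm_num)
    (p _ _ 1 5 hx (abs_le.2 ⟨by linarith, by linarith⟩)))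
  rw [e, abs_mul, mul_comm]
  exact mul_le_mul_of_nonneg_right (abs_le.2 ⟨by linarith, by linarith⟩) (abs_nonneg _)

/-- One coordinate changes. -/
theorem var1 {F : V 3 → ℝ} (hF : Q4 F) {b p : V 3} {ρ δ S u : ℝ} (hρ : 0 < ρ) (i : Fin 3)
    (h : ∀ p : V 3, (∀ l, |p l - b l| ≤ ρ) → |F p| ≤ S) (hp : ∀ l, |p l - b l| ≤ ρ)
    (hi : p i = b i) (hu : |u - b i| ≤ δ) (hδ : δ ≤ ρ) :
    |F (Function.update p i u) - F p| ≤ 15 * S * (δ / ρ) := by
  obtain ⟨C, hC⟩ := hF i p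
  have e1 : F p = ev 4 C (b i) := by rw [← hC, ← hi, Function.update_eq_self]
  have e2 : u = b i + ρ * ((u - b i) / ρ) := by field_simp; ring
  have e3 : |(u - b i) / ρ| ≤ δ / ρ := by
    rw [abs_div, abs_of_pos hρ]; exact div_le_div_of_nonneg_right hu hρ.le
  have S0 : 0 ≤ S := (abs_nonneg _).trans (h p hp)
  rw [hC, e1, e2]
  refine (lag C _ ρ _ S hρ.le (e3.trans ((div_le_one hρ).2 hδ)) fun t ht => ?_).trans
    (mul_le_mul_of_nonneg_left e3 (by positivity))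
  rw [← hC]
  refine h _ fun l => ?_
  by_cases k : l = i
  · subst k; rwa [Function.update_self]
  · rw [Function.update_of_ne k]; exact hp l

theorem var3 {F : V 3 → ℝ} (hF : Q4 F) {b c : V 3} {ρ δ S : ℝ} (hρ : 0 < ρ)
    (h : ∀ p : V 3, (∀ l, |p l - b l| ≤ ρ) → |F p| ≤ S) (hc : ∀ l, |c l - b l| ≤ δ)
    (hδ : δ ≤ ρ) : |F c - F b| ≤ 45 * S * (δ / ρ) := by
  have z : ∀ l, |b l - b l| ≤ ρ := fun l => by simpa using hρ.le
  have up1 : ∀ (p : V 3) (i : Fin 3), (∀ l, |p l - b l| ≤ ρ) →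
      ∀ l, |Function.update p i (c i) l - b l| ≤ ρ := fun p i hp l => by
    by_cases k : l = i
    · subst k; rw [Function.update_self]; exact (hc l).trans hδ
    · rw [Function.update_of_ne k]; exact hp l
  have h0 := var1 hF hρ 0 h z rfl (hc 0) hδ
  have h1 := var1 hF hρ 1 h (up1 b 0 z) (by simp) (hc 1) hδ
  have h2 := var1 hF hρ 2 h (up1 _ 1 (up1 b 0 z)) (by simp) (hc 2) hδ
  have e : Function.update (Function.update (Function.update b 0 (c 0)) 1 (c 1)) 2 (c 2) = c := by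
    funext l; fin_cases l <;> simp
  rw [e] at h2
  have := abs_le.1 h0; have := abs_le.1 h1; have := abs_le.1 h2
  exact abs_le.2 ⟨by linarith, by linarith⟩

theorem q4 (A B : Qd) : Q4 fun p => qf B (up A p) := by
  intro i p
  set q := Function.update p i 0
  set e : V 3 := Pi.single i 1
  have h1 : ∀ s : ℝ, Function.update p i s = q + s • e := fun s => by
    funext l
    by_cases k : l = i
    · subst k; simp [q, e]
    · simp [q, e, k]
  set U : V 5 := ![0, e 0, e 1, e 2, (sa A).2 ⬝ᵥ e + (q ⬝ᵥ sq A *ᵥ e + e ⬝ᵥ sq A *ᵥ q)]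
  set U' : V 5 := ![0, 0, 0, 0, e ⬝ᵥ sq A *ᵥ e]
  have h2 : ∀ s : ℝ, up A (q + s • e) = up A q + s • U + s ^ 2 • U' := fun s => by
    funext l
    fin_cases l <;> simp [up, U, U', sf, mulVec_add, mulVec_smul, add_dotProduct, dotProduct_add]
    ring
  refine ⟨fun k => if k = 0 then qf B (up A q) else if k = 1 then pf B (up A q) U else
    if k = 2 then qf B U + pf B (up A q) U' else if k = 3 then pf B U U' else qf B U', fun s => ?_⟩
  simp only [h1, h2, qf_add, qf_smul, pf_add_left, pf_smul_left, pf_smul_right, ev,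
    Finset.sum_range_succ, Finset.sum_range_zero]
  norm_num
  ring

theorem qf_sub (A B : Qd) (Y : V 5) : qf (A - B) Y = qf A Y - qf B Y := by
  simp only [qf, sub_mulVec, dotProduct_sub]

/-- Moving the last coordinate. -/
theorem last {E : Qd} {Y : V 5} {B R δ ε : ℝ} (hE : ∀ i k, |E i k| ≤ B) (hY : ∀ i, |Y i| ≤ R)
    (hR : 1 ≤ R) (hδ : |δ| ≤ ε) (hε : ε ≤ 1) :
    |qf E (Y + δ • bv 4) - qf E Y| ≤ 11 * B * R * ε := by
  have B0 : 0 ≤ B := (abs_nonneg _).trans (hE 0 0)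
  have e : qf E (Y + δ • bv 4) - qf E Y = δ * (∑ i, (Y i * E i 4 + E 4 i * Y i) + δ * E 4 4) := by
    rw [qf_add, pf_smul_right, qf_smul]
    simp [pf, qf, bv, dotProduct, mulVec, Fin.sum_univ_five]
    ring
  have h1 : ∀ i, |Y i * E i 4 + E 4 i * Y i| ≤ 2 * (B * R) := fun i => by
    refine (abs_add_le _ _).trans ?_
    rw [abs_mul, abs_mul]
    linarith [mul_le_mul (hE i 4) (hY i) (abs_nonneg _) B0,
      mul_le_mul (hE 4 i) (hY i) (abs_nonneg _) B0]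
  have h2 : |∑ i, (Y i * E i 4 + E 4 i * Y i)| ≤ 10 * (B * R) :=
    (Finset.abs_sum_le_sum_abs _ _).trans ((Finset.sum_le_sum fun i _ => h1 i).trans (by
      simp; linarith))
  have h3 : |δ * E 4 4| ≤ B * R := by
    rw [abs_mul]
    nlinarith [mul_le_mul (hδ.trans hε) (hE 4 4) (abs_nonneg _) zero_le_one]
  rw [e, abs_mul, mul_comm]
  exact mul_le_mul ((abs_add_le _ _).trans (by linarith)) hδ (abs_nonneg _) (by positivity)

variable {Ω : ℕ → Type} {P : ∀ n, FP (Ω n)} {g : Gs 3 Ω} {M mm : ℕ → ℕ} {D : ∀ n, Td (Ω n)}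
  {C : ∀ n, Tc (Ω n)} {d w : ℝ}

/-- The quadric of the cell on the surface. -/
noncomputable def ψ (C : ∀ n, Tc (Ω n)) (n b : ℕ) (ω : Ω n) (p : V 3) : ℝ :=
  qf ((C n).E b ω) (up ((C n).Ap ω) p)

theorem om5 {b : ℕ → ℕ} (h : OM M b) : OM M fun n => 5 * b n :=
  h.elim fun c hc => ⟨5 * c, hc.mono fun n a => (Nat.mul_le_mul_left 5 a).trans_eq (mul_assoc _ _ _).symm⟩

theorem point (hB : Bs P g M) (h : CH P g M mm D C d w) (hE : CelE P g M C d) {b : ℕ → ℕ}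
    (hb : OM M b) : WL P M fun n L ω =>
      |(C n).f (g n) ω ((g n).z ω) - ψ C n (b n) ω (bp (g n) ((g n).z ω) ω)| ≤ L / 2 ^ b n := by
  obtain ⟨L, a1, a2⟩ := hE b b hb (Eventually.of_forall fun n =>
    le_mul_of_one_le_left (Nat.cast_nonneg _) h.one)
  obtain ⟨L₀, b1, b2⟩ := hB.bx
  refine ⟨fun n => 23 * (L n * L₀ n), (a1.mul b1).const_mul hB.big (by norm_num),
    (a2.and (h.srf.surf _ (om5 hb))).mono (b2.mono fun n hx ω hω ⟨⟨u, v⟩, s⟩ => ?_)⟩
  obtain ⟨c1, c2, c3⟩ := hx.bd ω hω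
  have l1 := a1.1 n
  have l0 := b1.1 n
  have hp : ∀ i, |(g n).pt ω i| ≤ 2 * L₀ n := fun i => by
    simp only [Geo.pt, Geo.lt, Pi.add_apply, Pi.smul_apply, smul_eq_mul]
    refine (abs_add_le _ _).trans ?_
    rw [abs_mul, abs_of_nonneg c2]
    nlinarith [(c1 i).1, (c1 i).2, abs_nonneg ((g n).e ω i)]
  have e : up ((C n).Ap ω) (bp (g n) ((g n).z ω) ω) = hom ((g n).z ω) ((g n).pt ω) +
      (sf ((C n).Ap ω) (bp (g n) ((g n).z ω) ω) - (g n).pt ω 2) • bv 4 := by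
    funext i; fin_cases i <;> simp [up, hom, bp, bv, Geo.pt]
  have k := last (Y := hom ((g n).z ω) ((g n).pt ω)) (R := 2 * L₀ n) u (fun i => by
    fin_cases i
    · simp [hom]; linarith
    · simp [hom, abs_of_nonneg c2]; linarith
    · exact hp 0
    · exact hp 1
    · exact hp 2) (by linarith) ((abs_sub_comm _ _).trans_le (s _ c2 c3))
    (by rw [div_le_one (by positivity)]; exact one_le_pow₀ one_le_two)
  have e2 : 11 * (L n * 2 ^ (4 * b n)) * (2 * L₀ n) * (1 / 2 ^ (5 * b n)) =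
      22 * (L n * L₀ n) / 2 ^ b n := by
    rw [show 5 * b n = 4 * b n + b n by ring, pow_add]; field_simp; ring
  have e3 : L n / 2 ^ b n ≤ L n * L₀ n / 2 ^ b n := by gcongr; nlinarith
  have v' := abs_le.1 (v _ rfl)
  have k' := abs_le.1 (k.trans_eq e2)
  unfold ψ
  rw [e]
  simp only [ql, Geo.pt, mul_div_assoc] at v' k' e3 ⊢
  exact abs_le.2 ⟨by linarith, by linarith⟩

theorem fnS {n : ℕ} (h : ∀ j, Fn (P n) ((D n).S j) ((D n).S (j + 1))) {a b : ℕ} (e : a ≤ b) :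
    Fn (P n) ((D n).S a) ((D n).S b) := by
  induction b, e using Nat.le_induction with
  | base => exact Fn.rfl _
  | succ b _ ih => exact ih.trans (h b)

/-- The variation between the point and the centre. -/
def Va (P : ∀ n, FP (Ω n)) (g : Gs 3 Ω) (M : ℕ → ℕ) (C : ∀ n, Tc (Ω n)) (c : ∀ n, Ω n → V 3)
    (a k b : ℕ → ℕ) : Prop := WL P M fun n L ω =>
  |ψ C n (b n) ω (c n ω) - ψ C n (b n) ω (bp (g n) ((g n).z ω) ω)| ≤ L * 2 ^ k n / 2 ^ a n

theorem step {J : ℕ → ℕ} {η γ : ℝ} (hB : Bs P g M) (hC : ComW P g M mm D J η γ)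
    (h : CH P g M mm D C d w) (hE : CelE P g M C d) {c : ∀ n, Ω n → V 3} {a k b b' : ℕ → ℕ}
    (ha : OM M a) (hc : WL P M fun n L ω => ∀ i, |c n ω i - bp (g n) ((g n).z ω) ω i| ≤ L / 2 ^ a n)
    (hb : ∀ n, b n ≤ b' n ∧ b' n ≤ a n ∧ b' n ≤ b n + k n) (hV : Va P g M C c a k b) :
    Va P g M C c a k b' := by
  have ob' : OM M b' := ha.imp fun _ x => x.mono fun n y => (hb n).2.1.trans y
  have ob : OM M b := ob'.imp fun _ x => x.mono fun n y => (hb n).1.trans y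
  obtain ⟨L₁, a1, b1⟩ := point hB h hE ob
  obtain ⟨L₂, a2, b2⟩ := point hB h hE ob'
  obtain ⟨L₃, a3, b3⟩ := hc
  obtain ⟨L₄, a4, b4⟩ := hV
  obtain ⟨L₅, a5, b5⟩ := h.sub b' ob'
    (fun n ω p => qf ((C n).E (b' n) ω - (C n).E (b n) ω) (up ((C n).Ap ω) p)) L₃ a3 (by
      filter_upwards [h.cu.fn, hC.nest] with n ⟨u1, u2, _⟩ ⟨_, v, _⟩
      refine ⟨fun x hx y hy e => ?_, fun ω _ => q4 _ _⟩
      have f := fun j (e' : j ≤ b' n) => u2 j x hx y hy (fnS (fun j => (v j).1) e' x hx y hy e)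
      have f' := u1 x hx y hy (congrArg Prod.fst ((v (b' n)).2 x hx y hy e))
      simp only [Tc.E, f 0 (Nat.zero_le _), f _ le_rfl, f _ (hb n).1, f'])
  refine ⟨fun n => L₄ n + 45 * (L₅ n * (L₁ n + L₂ n)), a4.add
    ((a5.mul (a1.add a2 hB.big)).const_mul hB.big (by norm_num)) hB.big,
    ((b1.and b2).and (b3.and (b4.and b5))).mono (Eventually.of_forall
      fun n ω _ ⟨⟨u1, u2⟩, u3, u4, u5⟩ => ?_)⟩
  have p3 := a3.pos n
  have m1 : (2 : ℝ) ^ b n ≤ 2 ^ b' n := pow_le_pow_right₀ one_le_two (hb n).1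
  have m2 : (2 : ℝ) ^ b' n ≤ 2 ^ a n := pow_le_pow_right₀ one_le_two (hb n).2.1
  have m3 : (2 : ℝ) ^ b' n ≤ 2 ^ b n * 2 ^ k n := by
    rw [← pow_add]; exact pow_le_pow_right₀ one_le_two (hb n).2.2
  have s1 : |qf ((C n).E (b' n) ω - (C n).E (b n) ω) (up ((C n).Ap ω) (bp (g n) ((g n).z ω) ω))| ≤
      (L₁ n + L₂ n) / 2 ^ b n := by
    have : L₂ n / 2 ^ b' n ≤ L₂ n / 2 ^ b n := by have := a2.pos n; gcongr
    have := abs_le.1 u1; have := abs_le.1 u2
    rw [qf_sub, add_div]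
    unfold ψ at *
    exact abs_le.2 ⟨by linarith, by linarith⟩
  have s2 := var3 (q4 ((C n).Ap ω) ((C n).E (b' n) ω - (C n).E (b n) ω))
    (ρ := L₃ n / 2 ^ b' n) (by positivity)
    (fun p hp => (u5 p hp).trans (mul_le_mul_of_nonneg_left s1 (a5.pos n).le)) u3 (by gcongr)
  have s3 : 45 * (L₅ n * ((L₁ n + L₂ n) / 2 ^ b n)) * (L₃ n / 2 ^ a n / (L₃ n / 2 ^ b' n)) ≤
      45 * (L₅ n * (L₁ n + L₂ n)) * 2 ^ k n / 2 ^ a n := by
    have := a1.pos n; have := a2.pos n; have := a5.pos n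
    calc _ = 45 * (L₅ n * (L₁ n + L₂ n)) * (2 ^ b' n / 2 ^ b n) / 2 ^ a n := by field_simp
      _ ≤ _ := by gcongr; rw [div_le_iff₀ (by positivity), mul_comm]; exact m3
  have := abs_le.1 (s2.trans s3); have := abs_le.1 u4
  simp only [qf_sub, add_mul, add_div] at *
  unfold ψ at *
  exact abs_le.2 ⟨by linarith, by linarith⟩

end BallEx

open BallEx in
theorem rowBallE : BallE := by
  intro Ω K g M mm D J η γ X hT hX C d w o h h4 hE hb a ha
  have hB : Bs X.P (X.G g) M := by simpa only [one_mul] using (hT.cls 1 one_pos).bs X hX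
  have hM := hB.big
  set c : ∀ n, (X n).W → V 3 := fun n v =>
    ![(X.G g n).z0 (a n) v, o n (a n) v 0, o n (a n) v 1] with hc
  have hc' : WL X.P M fun n L v => ∀ i, |c n v i - bp (X.G g n) ((X.G g n).z v) v i| ≤ L / 2 ^ a n := by
    obtain ⟨L, a1, a2⟩ := hb a ha
    refine ⟨L, a1, a2.mono (Eventually.of_forall fun n v _ u i => ?_)⟩
    fin_cases i
    · have e := ka.z (X.G g n) (a n) v
      have e1 := Int.fract_nonneg (2 ^ a n * (X.G g n).z v)
      have e2 := Int.fract_lt_one (2 ^ a n * (X.G g n).z v)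
      have e3 : (0 : ℝ) < (2 ^ a n)⁻¹ := by positivity
      have e4 := a1.1 n
      change |(X.G g n).z0 (a n) v - (X.G g n).z v| ≤ _
      rw [div_eq_mul_inv]
      exact abs_le.2 ⟨by nlinarith, by nlinarith⟩
    · exact (abs_sub_comm _ _).trans_le (u 0)
    · exact (abs_sub_comm _ _).trans_le (u 1)
  have chain : ∀ (k : ℕ → ℕ) (i : ℕ), Va X.P (X.G g) M C c a k fun n => min (a n) (i * k n) := by
    intro k i
    induction i with
    | zero =>
      obtain ⟨L, a1, a2⟩ := h4 (fun _ => 0) (fun _ => 0) ⟨0, by simp⟩ ⟨0, by simp⟩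
      refine ⟨L, a1, a2.mono (Eventually.of_forall fun n v _ u => ?_)⟩
      have e : (C n).A 0 v 0 4 ≠ 0 := fun e => by
        have := u.2.1; rw [e] at this; norm_num at this
      have := a1.pos n
      simp only [zero_mul, Nat.min_zero, ψ, Tc.E, div_self e, one_smul, sub_self, smul_zero, qf,
        zero_mulVec, dotProduct_zero, abs_zero]
      positivity
    | succ i ih =>
      exact step hB (hT.com X hX) h hE ha hc' (fun n => by rw [add_mul, one_mul]; omega) ih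
  obtain ⟨L₀, a0, b0⟩ := point hB h hE ha
  refine ks.wsub X.P (fun n v L => |(C n).f (X.G g n) v ((X.G g n).z v) -
    (mkQ (X.G g n) (o n) (C n)).fo (a n) v| ≤ L / 2 ^ a n) M fun ε hε _ => ?_
  obtain ⟨N, hN⟩ := ha
  obtain ⟨L, a1, a2⟩ := chain (fun n => lev M (ε / 2) n + 1) ⌈N / (ε / 2)⌉₊
  refine (b0.and a2).mono ?_
  filter_upwards [hN, ((a0.add a1 hM).const_mul hM (C := 3) (by norm_num)).2 (ε / 2)
    (half_pos hε)] with n u1 u2 v _ ⟨x, y⟩
  have e1 : a n ≤ ⌈N / (ε / 2)⌉₊ * (lev M (ε / 2) n + 1) := by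
    have f1 := Nat.le_ceil (N / (ε / 2) : ℝ)
    have f2 := (lt_lev M (ε / 2) n).le
    have f3 : (a n : ℝ) ≤ N * M n := by exact_mod_cast u1
    have f4 := mul_le_mul f1 f2 (by positivity) (Nat.cast_nonneg _)
    have f5 : (N / (ε / 2) * (ε / 2 * M n) : ℝ) = N * M n := by field_simp
    exact_mod_cast (f3.trans (f5.symm.le.trans f4))
  simp only [min_eq_left e1] at y
  have e2 : (2 : ℝ) ^ (lev M (ε / 2) n + 1) ≤ 3 * Real.exp (ε / 2 * M n) := by
    have := (two_pow_le_exp (lev M (ε / 2) n)).trans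
      (Real.exp_le_exp.2 (lev_le' M (half_pos hε).le n))
    rw [pow_succ]; linarith [Real.exp_pos (ε / 2 * M n)]
  have e3 : Real.exp (ε * M n) = Real.exp (ε / 2 * M n) * Real.exp (ε / 2 * M n) := by
    rw [← Real.exp_add]; ring_nf
  have e4 : L₀ n + L n * 2 ^ (lev M (ε / 2) n + 1) ≤ Real.exp (ε * M n) := by
    have := a0.pos n; have := a1.pos n
    have := Real.one_le_exp (x := ε / 2 * M n) (by positivity)
    rw [e3]; nlinarith [mul_le_mul_of_nonneg_left e2 (a1.pos n).le]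
  refine le_trans ?_ (div_le_div_of_nonneg_right e4 (by positivity))
  have := abs_le.1 x; have := abs_le.1 y
  rw [add_div]
  change |_ - ψ C n (a n) v (c n v)| ≤ _
  exact abs_le.2 ⟨by linarith, by linarith⟩

end Pool.Agent.MP_5168f5_an.R4.T8
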