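import Pool.Agent.MP_5168f5_an.R4.SpecTW

/-! The cells are small: the centre of a cell is near the point. -/

namespace Pool.Agent.MP_5168f5_an.R4.T8

open H19 H17S H17F Filter Matrix Tan

namespace BallFx

theorem abs_rd (a : ℕ) (x : ℝ) : |x - rd a x| ≤ 1 / 2 ^ a := by
  have h1 := fl1_le a x
  have h2 := lt_fl1 a x
  rw [rd, abs_of_nonneg (by linarith), one_div]
  linarith

/-- A plane evaluated at a nearby point. -/
theorem near {Ω : Type} (g : Geo 3 Ω) {S : Finset (Fin 3)} {k : Fin 3} {L B : ℝ} {p : Pl} {ω : Ω}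
    {a : ℕ} (h : (g.pl S k).fit L p ω a a) (hB : 1 ≤ B) {y : V 3}
    (hy : ∀ i ∈ S, |g.pt ω i - y i| ≤ B / 2 ^ a) :
    |g.pt ω k - pv p (g.z0 a ω) y| ≤ 5 * L * B / 2 ^ a := by
  obtain ⟨h1, h2, h3⟩ := h
  have L0 : 0 ≤ L := (abs_nonneg _).trans h1
  have e0 : |g.pt ω k - p.1 - p.2.1 * g.z ω - ∑ i, p.2.2 i * g.pt ω i| ≤ L / 2 ^ a := h3 _ rfl
  have e1 : |p.2.1 * (g.z ω - g.z0 a ω)| ≤ L * (1 / 2 ^ a) := by
    rw [abs_mul]
    exact mul_le_mul h1 (abs_rd a (g.z ω)) (abs_nonneg _) L0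
  have e2 : ∀ i, |p.2.2 i * (g.pt ω i - y i)| ≤ L * (B / 2 ^ a) := fun i => by
    by_cases hi : i ∈ S
    · rw [abs_mul]
      exact mul_le_mul (h2 i).1 (hy i hi) (abs_nonneg _) L0
    · rw [(h2 i).2 hi, zero_mul, abs_zero]
      positivity
  have e3 : L * (1 / 2 ^ a) ≤ L * (B / 2 ^ a) := by gcongr
  have e4 : L / 2 ^ a = L * (1 / 2 ^ a) := by ring
  have e5 : 5 * L * B / 2 ^ a = 5 * (L * (B / 2 ^ a)) := by ring
  have a0 := abs_le.1 e0
  have a1 := abs_le.1 e1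
  have b0 := abs_le.1 (e2 0)
  have b1 := abs_le.1 (e2 1)
  have b2 := abs_le.1 (e2 2)
  simp only [pv, Fin.sum_univ_three] at a0 ⊢
  rw [abs_le]
  constructor <;> linarith [a0.1, a0.2, a1.1, a1.2, b0.1, b0.2, b1.1, b1.2, b2.1, b2.2]

end BallFx

open BallFx in
theorem rowBallF : BallF := by
  intro Ω K g M mm D J η γ X tw hX H d hd cU cH a ha
  have hM : Big M := by simpa using ((tw.cls 1 one_pos).bs X hX).big
  have k : ∀ w : ℝ, 1 ≤ w → ∀ᶠ n in UF, (a n : ℝ) ≤ w * a n := fun w hw =>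
    Eventually.of_forall fun n => le_mul_of_one_le_left (Nat.cast_nonneg _) hw
  obtain ⟨L₁, s₁, w₁⟩ := cU a a ha (k γ tw.one)
  obtain ⟨L₂, s₂, w₂⟩ := cH a a ha (k d hd)
  refine ⟨fun n => 25 * (L₁ n * L₂ n), (s₁.mul s₂).const_mul hM (by norm_num),
    (w₁.and w₂).mono ?_⟩
  filter_upwards [tw.hJ a ha] with n hJ v _ ⟨u₁, u₂⟩ i
  have l₁ := s₁.1 n
  have l₂ := s₂.1 n
  have e0 := abs_rd (a n) ((X.G g n).pt v 0)
  have e1 := near (X.G g n) u₁ le_rfl (y := ![rd (a n) ((X.G g n).pt v 0), 0, 0]) fun i hi => by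
    rw [Finset.mem_singleton.1 hi]; exact e0
  have m0 : (1 : ℝ) / 2 ^ a n ≤ 5 * L₁ n * 1 / 2 ^ a n := by gcongr; linarith
  have e2 := near (X.G g n) u₂ (B := 5 * L₁ n * 1) (by linarith)
    (y := ![rd (a n) ((X.G g n).pt v 0), pv ((mD X D n).U (a n) v) ((X.G g n).z0 (a n) v)
      ![rd (a n) ((X.G g n).pt v 0), 0, 0], 0]) fun i hi => by
    rcases Finset.mem_insert.1 hi with rfl | hi
    · exact e0.trans m0
    · rw [Finset.mem_singleton.1 hi]; exact e1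
  have m1 : 5 * L₁ n * 1 / 2 ^ a n ≤ 25 * (L₁ n * L₂ n) / 2 ^ a n :=
    div_le_div_of_nonneg_right (by nlinarith) (by positivity)
  rw [cen, if_pos hJ]
  fin_cases i
  · exact (e0.trans m0).trans m1
  · exact e1.trans m1
  · exact e2.trans_eq (by ring)

end Pool.Agent.MP_5168f5_an.R4.T8
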