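import Pool.Agent.MP_5168f5_an.R4.SpecTW

/-! The cells in the curved case. -/

namespace Pool.Agent.MP_5168f5_an.R4.T8

open H19 H17S H17F Filter Matrix Tan

namespace CellEx

theorem f_sub {Ω : Type} (C : Tc Ω) (g : Geo 3 Ω) (a : ℕ) (ω : Ω) (t : ℝ) :
    C.f g ω t - ql g (C.E a ω) ω t =
      C.A 0 ω 0 4 / C.A a ω 0 4 * (2 ^ C.ν * ql g (C.A a ω) ω t) := by
  simp only [Tc.f, Tc.E, ql, qf, smul_mulVec, sub_mulVec, dotProduct_smul, dotProduct_sub,
    smul_eq_mul]
  ring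

theorem nest {Ω Λ : Type} {P : FP Ω} {S : ℕ → Ω → Λ} (h : ∀ j, Fn P (S j) (S (j + 1))) (a : ℕ) :
    Fn P (S 0) (S a) := by
  induction a with
  | zero => exact fun _ _ _ _ e => e
  | succ a ih => exact ih.trans (h a)

end CellEx

open CellEx in
theorem rowCellE : OfCellE := by
  classical
  intro hQ Ω K g M mm D J η γ X hT hX C d w h hP a τ ha hτ
  have up : ∀ᶠ n in UF, (mm n : ℝ) ≤ M n := (hT.sm 1 one_pos).mono fun n a => by simpa using a
  have big : Big M := tendsto_atTop.2 fun b => by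
    filter_upwards [tendsto_atTop.1 (hT.low.bs X hX).big b, up] with n u v
    exact u.trans (by exact_mod_cast v)
  have om0 : OM M fun _ => 0 := ⟨0, Eventually.of_forall fun _ => Nat.zero_le _⟩
  obtain ⟨L0, s0, w0⟩ := hP _ _ om0 om0
  obtain ⟨L1, s1, w1⟩ := hP a _ ha om0
  obtain ⟨L2, s2, w2⟩ := h.cu.thin a τ ha hτ
  obtain ⟨L3, s3, w3⟩ := h.cu.bd
  have s3' : Sub M L3 := ⟨s3.1, fun ε hε => by
    filter_upwards [s3.2 ε hε, up] with n a b
    exact a.trans (Real.exp_le_exp.2 (mul_le_mul_of_nonneg_left b hε.le))⟩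
  obtain ⟨_, -, w5⟩ := (hT.low.bs X hX).bx
  obtain ⟨L4, s4, w4⟩ := hQ K g M mm D J η γ X hT hX (fun n => (C n).Ap)
    (fun n v => if (C n).A (a n) v 0 4 = 0 then 0 else (C n).E (a n) v) a ha (by
      filter_upwards [h.cu.fn, (hT.com X hX).nest] with n u u'
      refine ⟨u.1, fun x hx y hy e => ?_, fun v hv => ⟨(u.2.2 v hv).1, ?_⟩⟩
      · have e1 := u.2.1 (a n) x hx y hy e
        have e2 := u.2.1 0 x hx y hy (nest (fun j => (u'.2.1 j).1) (a n) x hx y hy e)
        simp only [Tc.E, e1, e2]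
      · split_ifs with c
        · exact ⟨isSymm_zero, rfl⟩
        · refine ⟨(((u.2.2 v hv).2 0).sub (((u.2.2 v hv).2 _).smul _)).smul _, ?_⟩
          simp [Tc.E, c]) h.srf h.nq (h.sub a ha)
  refine ⟨fun n => L4 n * (L3 n + L0 n * L1 n * L2 n),
    s4.mul (s3'.add ((s0.mul s1).mul s2) big), ((w0.and w1).and w4).mono ?_⟩
  filter_upwards [w2, w3, w5] with n u2 u3 u5 v hv ⟨⟨⟨u0, _⟩, _, u1, _⟩, u4⟩
  have p0 := s0.pos n
  have p1 := s1.pos n
  have p2 := s2.pos n
  have p3 := s3.pos n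
  have p4 := s4.1 n
  have ne : (C n).A (a n) v 0 4 ≠ 0 := fun e => by
    rw [e, abs_zero, mul_zero] at u1
    exact absurd u1 (by norm_num)
  have key : ∀ t : ℝ, fl1 (a n) t = fl1 (a n) ((X.G g n).z v) →
      |(C n).f (X.G g n) v t - ql (X.G g n) ((C n).E (a n) v) v t|
        ≤ L0 n * L1 n * L2 n / 2 ^ τ n := fun t ht => by
    rw [f_sub, abs_mul, mul_div_assoc]
    refine mul_le_mul ?_ (u2 v hv t ht) (abs_nonneg _) (by positivity)
    rw [abs_div, div_le_iff₀ (abs_pos.2 ne), mul_assoc]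
    exact u0.trans (le_mul_of_one_le_right p0.le u1)
  refine ⟨fun i k => ?_, fun t ht => (key t ht).trans
    (div_le_div_of_nonneg_right ?_ (by positivity))⟩
  · have k1 := u4 i k
    rw [if_neg ne] at k1
    refine k1.trans ?_
    rw [mul_right_comm (L4 n) (L3 n + _)]
    refine mul_le_mul_of_nonneg_left ?_ (by positivity)
    have k2 := abs_le.1 ((key _ rfl).trans (div_le_self (by positivity) (one_le_pow₀ one_le_two)))
    have k3 := abs_le.1 (u3 v hv _ (u5.bd v hv).2.1 (u5.bd v hv).2.2)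
    show |ql (X.G g n) ((C n).E (a n) v) v ((X.G g n).z v)| ≤ _
    rw [abs_le]
    constructor <;> linarith [k2.1, k2.2, k3.1, k3.2]
  · exact (le_add_of_nonneg_left p3.le).trans (le_mul_of_one_le_left (by positivity) p4)

end Pool.Agent.MP_5168f5_an.R4.T8
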