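import Pool.Agent.MP_5168f5_an.R4.SpecTW

/-! A null vector of a nearly degenerate form lies near one of two planes. -/

namespace Pool.Agent.MP_5168f5_an.R4.T8

open H19 H17S H17F Filter Matrix Tan

namespace DegAlgx

theorem spec {q : Matrix (Fin 3) (Fin 3) ℝ} (h : q.IsSymm) :
    ∃ (μ : Fin 3 → ℝ) (e : Fin 3 → V 3), (Monotone fun k => |μ k|) ∧
      (∀ k l, e k ⬝ᵥ e l = if k = l then 1 else 0) ∧
      (∀ i l, q i l = ∑ k, μ k * e k i * e k l) ∧ q.det = ∏ k, μ k := by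
  have hA : q.IsHermitian := isHermitian_iff_isSymm.2 h
  let π := Tuple.sort fun k => |hA.eigenvalues k|
  let U : Matrix (Fin 3) (Fin 3) ℝ := hA.eigenvectorUnitary
  have h1 : star U * U = 1 := hA.eigenvectorUnitary.2.1
  have h2 : q = U * diagonal hA.eigenvalues * star U := by
    have := hA.spectral_theorem
    rw [Unitary.conjStarAlgAut_apply] at this
    simpa using this
  refine ⟨fun k => hA.eigenvalues (π k), fun k i => U i (π k),
    Tuple.monotone_sort fun k => |hA.eigenvalues k|, fun k l => ?_, fun i l => ?_, ?_⟩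
  · have := congrFun (congrFun h1 (π k)) (π l)
    simpa [mul_apply, one_apply, dotProduct] using this
  · rw [Equiv.sum_comp π fun k => hA.eigenvalues k * U i k * U l k]
    conv_lhs => rw [h2]
    simp only [mul_apply (M := U * _), mul_diagonal, star_apply, star_trivial]
    exact Finset.sum_congr rfl fun k _ => by ring
  · rw [Equiv.prod_comp π hA.eigenvalues]
    simpa using hA.det_eq_prod_eigenvalues

theorem two {s t r B : ℝ} (hB : 0 ≤ B) (h : |s ^ 2 + r * t ^ 2| ≤ B ^ 2) :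
    |s + √(-r) * t| ≤ B ∨ |s - √(-r) * t| ≤ B := by
  by_contra k
  push Not at k
  have h1 := mul_lt_mul'' k.1 k.2 hB hB
  rw [← abs_mul] at h1
  rcases le_total 0 r with h2 | h2
  · rw [Real.sqrt_eq_zero'.2 (by linarith), zero_mul, add_zero, sub_zero, abs_mul_self] at h1
    nlinarith [le_abs_self (s ^ 2 + r * t ^ 2), mul_nonneg h2 (sq_nonneg t)]
  · rw [show (s + √(-r) * t) * (s - √(-r) * t) = s ^ 2 - √(-r) ^ 2 * t ^ 2 by ring,
      Real.sq_sqrt (by linarith), neg_mul, sub_neg_eq_add] at h1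
    linarith

theorem core (q : Matrix (Fin 3) (Fin 3) ℝ) : ∃ c : Bool → V 3, ∀ (v : V 3) (L σ : ℝ), 1 ≤ L →
    0 < σ → σ ≤ 1 → q.IsSymm → (∃ i l, 1 ≤ L * |q i l|) → (∀ i, |v i| ≤ L) → |q.det| ≤ σ ^ 4 →
    |v ⬝ᵥ q *ᵥ v| ≤ σ ^ 4 → ∃ b, (∃ i, 1 ≤ 3 * |c b i|) ∧ |c b ⬝ᵥ v| ≤ 8 * L ^ 2 * σ := by
  by_cases hq : q.IsSymm
  swap
  · exact ⟨0, fun _ _ _ _ _ _ h => absurd h hq⟩
  obtain ⟨μ, e, h1, h2, h3, h4⟩ := spec hq
  refine ⟨fun b => e 2 + (bif b then √(-(μ 1 / μ 2)) else -√(-(μ 1 / μ 2))) • e 1, ?_⟩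
  rintro v L σ hL h0 hσ - ⟨i, l, hi⟩ hv hd hz
  have a1 : ∀ k i, |e k i| ≤ 1 := fun k i => by
    have := h2 k k
    rw [if_pos rfl, dotProduct] at this
    exact abs_le_one_iff_mul_self_le_one.2 (this ▸ Finset.single_le_sum
      (fun j _ => mul_self_nonneg (e k j)) (Finset.mem_univ i))
  have a2 : ∀ (k : Fin 3) (w : V 3) (B : ℝ), (∀ i, |w i| ≤ B) → |e k ⬝ᵥ w| ≤ 3 * B :=
    fun k w B hw => (Finset.abs_sum_le_sum_abs _ _).trans ((Finset.sum_le_card_nsmul _ _ B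
      fun j _ => by
        rw [abs_mul]
        exact (mul_le_of_le_one_left (abs_nonneg _) (a1 k j)).trans (hw j)).trans (by simp))
  have a3 : 1 ≤ 3 * L * |μ 2| := by
    have : |q i l| ≤ 3 * |μ 2| := by
      rw [h3]
      refine (Finset.abs_sum_le_sum_abs _ _).trans ((Finset.sum_le_card_nsmul _ _ |μ 2|
        fun j _ => ?_).trans (by simp))
      rw [abs_mul, abs_mul]
      exact (mul_le_of_le_one_right (by positivity) (a1 j l)).trans
        ((mul_le_of_le_one_right (abs_nonneg _) (a1 j i)).trans (h1 (Fin.le_last j)))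
    nlinarith
  have a4 : 0 < |μ 2| := by
    by_contra k
    nlinarith [abs_nonneg (μ 2)]
  have a5 : |μ 0| ≤ 2 * L * σ ^ 2 := by
    have b1 : |μ 0| ≤ |μ 1| := h1 (show (0 : Fin 3) ≤ 1 by decide)
    rw [h4, Fin.prod_univ_three, abs_mul, abs_mul] at hd
    have b2 := mul_le_mul_of_nonneg_left b1 (abs_nonneg (μ 0))
    have b3 := mul_le_mul_of_nonneg_left a3 (mul_nonneg (abs_nonneg (μ 0)) (abs_nonneg (μ 1)))
    have b4 := mul_le_mul_of_nonneg_left hd (show 0 ≤ 3 * L by positivity)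
    have b5 := mul_le_mul_of_nonneg_right (show 3 * L ≤ 4 * L ^ 2 by nlinarith)
      (show 0 ≤ σ ^ 4 by positivity)
    exact abs_le_of_sq_le_sq' (by nlinarith) (by positivity) |>.2
  have a6 : v ⬝ᵥ q *ᵥ v = μ 0 * (e 0 ⬝ᵥ v) ^ 2 + μ 1 * (e 1 ⬝ᵥ v) ^ 2 + μ 2 * (e 2 ⬝ᵥ v) ^ 2 := by
    simp only [dotProduct, mulVec, h3, Fin.sum_univ_three]; ring
  have a7 : |μ 0 * (e 0 ⬝ᵥ v) ^ 2| ≤ 2 * L * σ ^ 2 * (3 * L) ^ 2 := by
    rw [abs_mul, abs_pow]
    exact mul_le_mul a5 (pow_le_pow_left₀ (abs_nonneg _) (a2 0 v L hv) 2) (by positivity)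
      (by positivity)
  have a8 : |μ 2| * |(e 2 ⬝ᵥ v) ^ 2 + μ 1 / μ 2 * (e 1 ⬝ᵥ v) ^ 2| ≤ 19 * L ^ 3 * σ ^ 2 := by
    have b1 : σ ^ 4 ≤ σ ^ 2 := pow_le_pow_of_le_one h0.le hσ (by norm_num)
    have b2 := mul_le_mul_of_nonneg_right (one_le_pow₀ hL : 1 ≤ L ^ 3) (sq_nonneg σ)
    have b3 := abs_pos.1 a4
    rw [← abs_mul, show μ 2 * ((e 2 ⬝ᵥ v) ^ 2 + μ 1 / μ 2 * (e 1 ⬝ᵥ v) ^ 2) =
      v ⬝ᵥ q *ᵥ v - μ 0 * (e 0 ⬝ᵥ v) ^ 2 by rw [a6]; field_simp; ring]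
    exact (abs_sub _ _).trans (by linarith)
  have a9 : |(e 2 ⬝ᵥ v) ^ 2 + μ 1 / μ 2 * (e 1 ⬝ᵥ v) ^ 2| ≤ (8 * L ^ 2 * σ) ^ 2 := by
    have b1 := mul_le_mul_of_nonneg_right a3
      (abs_nonneg ((e 2 ⬝ᵥ v) ^ 2 + μ 1 / μ 2 * (e 1 ⬝ᵥ v) ^ 2))
    have b2 := mul_le_mul_of_nonneg_left a8 (show 0 ≤ 3 * L by positivity)
    have b3 : 0 ≤ L ^ 4 * σ ^ 2 := by positivity
    linarith
  have a10 : ∀ r : ℝ, ∃ i, 1 ≤ 3 * |(e 2 + r • e 1) i| := fun r => by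
    obtain ⟨j, -, hj⟩ := Finset.exists_max_image Finset.univ (fun j => |(e 2 + r • e 1) j|)
      Finset.univ_nonempty
    have := a2 2 _ _ fun i => hj i (Finset.mem_univ i)
    rw [dotProduct_add, dotProduct_smul, h2, h2, if_pos rfl, if_neg (by decide), smul_zero,
      add_zero, abs_one] at this
    exact ⟨j, this⟩
  rcases two (by positivity) a9 with k | k
  · exact ⟨true, a10 _, by
      simpa only [add_dotProduct, smul_dotProduct, cond_true, smul_eq_mul] using k⟩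
  · exact ⟨false, a10 _, by
      simpa only [add_dotProduct, smul_dotProduct, cond_false, smul_eq_mul, neg_mul,
        sub_eq_add_neg] using k⟩

end DegAlgx

theorem rowDegAlg : DegAlg := by
  choose c hc using DegAlgx.core
  refine ⟨8, fun q _ _ => c q, by norm_num, fun q v L σ hL h0 h1 hq _ h2 h3 h4 h5 => ?_⟩
  obtain ⟨b, ⟨i, hi⟩, k⟩ := hc q v L σ hL h0 h1 hq h2 h3 h4 h5
  refine ⟨b, ⟨i, hi.trans (mul_le_mul_of_nonneg_right (by linarith) (abs_nonneg _))⟩, k.trans ?_⟩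
  have : L ^ 2 ≤ L ^ 10 := pow_le_pow_right₀ hL (by norm_num)
  gcongr

end Pool.Agent.MP_5168f5_an.R4.T8
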