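import Pool.Agent.MP_5168f5_an.R4.SpecTW

/-! The cell and the other coordinates determine a coordinate. -/

namespace Pool.Agent.MP_5168f5_an.R4.T8

open H19 H17S H17F Filter Matrix Tan

namespace DetCx

/-- A real variable of exponential size that is nearly determined on a likely event. -/
theorem fano1 {Ω β : ℕ → Type} {P : ∀ n, FP (Ω n)} {E : ∀ n, Ω n → Prop} {x : ∀ n, Ω n → ℝ}
    {G : ∀ n, Ω n → β n} {M j : ℕ → ℕ} {L K : ℕ → ℝ} (C : ℕ) (hM : Big M) (hL : Sub M L)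
    (hK : Sub M K) (hE : Whp P E)
    (h : ∀ᶠ n in UF, (∀ a ∈ (P n).S, |x n a| * 2 ^ j n ≤ K n * 2 ^ (C * M n)) ∧
      ∀ a ∈ (P n).S, ∀ b ∈ (P n).S, G n a = G n b → E n a → E n b →
        |x n a - x n b| ≤ L n / 2 ^ j n) :
    Sm M fun n => ch (P n) (fun ω => fl1 (j n) (x n ω)) (G n) := by
  refine ks.fano P E _ G M (fun n => 5 * L n) (1 + C) hM (hL.const_mul hM (by norm_num)) hE ?_
  filter_upwards [h, (hK.const_mul hM (by norm_num : (1 : ℝ) ≤ 7)).2 1 one_pos] with n a b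
  have k1 := hK.1 n
  have l1 := hL.1 n
  have p1 : (1 : ℝ) ≤ 2 ^ (C * M n) := one_le_pow₀ one_le_two
  refine ⟨fun c hc => (det_near1 (L := 2 * (K n * 2 ^ (C * M n))) (by positivity)
    (fun c hc d hd _ => ?_) c hc).imp fun T hT => ⟨hT.1.trans ?_, hT.2⟩, fun c hc => ?_⟩
  · rw [le_div_iff₀ (by positivity)]
    have := mul_le_mul_of_nonneg_right (abs_sub (x n c) (x n d)) (by positivity : (0 : ℝ) ≤ 2 ^ j n)
    linarith [a.1 c hc, a.1 d hd]
  · by_cases k : ∃ d ∈ (P n).S, G n d = G n c ∧ E n d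
    · obtain ⟨d, hd, e, e'⟩ := k
      refine ⟨Finset.Icc (fl1 (j n) (x n d) - ⌈L n⌉₊) (fl1 (j n) (x n d) + ⌈L n⌉₊), ?_,
        fun f hf u v => fl1_mem_Icc ((a.2 f hf d hd (u.trans e.symm) v e').trans ?_)⟩
      · rw [Int.card_Icc, show (fl1 (j n) (x n d) + ⌈L n⌉₊ + 1 -
          (fl1 (j n) (x n d) - ⌈L n⌉₊)).toNat = 2 * ⌈L n⌉₊ + 1 by omega]
        have := Nat.ceil_lt_add_one (zero_le_one.trans l1)
        push_cast; linarith
      · rw [div_eq_mul_inv]
        exact mul_le_mul_of_nonneg_right (Nat.le_ceil _) (by positivity)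
    · exact ⟨∅, by simp only [Finset.card_empty, Nat.cast_zero]; linarith,
        fun f hf u v => (k ⟨f, hf, u, v⟩).elim⟩
  · have e2 : Real.exp ((1 + C) * M n) = Real.exp (1 * M n) * Real.exp (C * M n : ℕ) := by
      rw [← Real.exp_add]; congr 1; push_cast; ring
    have e3 := mul_le_mul b (two_pow_le_exp (C * M n)) (by positivity) (Real.exp_pos _).le
    have e4 := one_le_mul_of_one_le_of_one_le k1 p1
    rw [e2]; linarith

theorem ref {Ω β : Type} {P : FP Ω} (x : Ω → ℝ) (G : Ω → β) {τ q : ℕ} (h : τ ≤ q) :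
    ch P (fun ω => fl1 q (x ω)) G ≤ ch P (fun ω => fl1 τ (x ω)) G + (q - τ : ℝ) * lg := by
  obtain ⟨i, rfl⟩ := Nat.exists_eq_add_of_le h
  have h1 := ch_fl1_refine (P := P) (x := x) (G := fun ω => (fl1 τ (x ω), G ω)) (j := fun _ => τ)
    (i := fun _ => i) (fun _ _ _ _ _ => rfl) (fun _ _ _ _ _ => rfl) (Fn.fst _ _)
  rw [FP.E_const] at h1
  have h2 := ch_tri (P := P) (fun ω => fl1 (τ + i) (x ω)) (fun ω => fl1 τ (x ω)) G
  push_cast
  linarith

theorem core {Ω Γ : ℕ → Type} {P : ∀ n, FP (Ω n)} {g : Gs 3 Ω} {M : ℕ → ℕ} (hB : Bs P g M)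
    {S : Finset (Fin 3)} {k : Fin 3} {d : ∀ n, ℕ → Ω n → ℝ × ℝ × V 3} {wt : ℝ} (hw : 0 ≤ wt)
    (hC : Cell P g M S k d wt) {b q : ℕ → ℕ} (ob : OM M b) (oq : OM M q)
    (hq : Le M (fun n => q n) fun n => wt * b n) (G : ∀ n, Ω n → Γ n)
    (hG : ∀ᶠ n in UF, Fn (P n) (d n (b n)) (G n) ∧ Fn (P n) (g n).z (G n) ∧
      ∀ i ∈ S, Fn (P n) (fun ω => fl1 (q n) ((g n).pt ω i)) (G n)) :
    Sm M fun n => ch (P n) (fun ω => fl1 (q n) ((g n).pt ω k)) (G n) := by
  have hM := hB.big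
  obtain ⟨L0, hL0, hb⟩ := hB.bx
  obtain ⟨C, hc⟩ := oq
  obtain ⟨L, hL, hE⟩ := hC b (fun n => min (q n) ⌊wt * b n⌋₊) ob (Eventually.of_forall fun n =>
    le_trans (by exact_mod_cast min_le_right _ _) (Nat.floor_le (by positivity)))
  have h1 := fano1 (x := fun n ω => (g n).pt ω k) (G := G) (j := fun n => min (q n) ⌊wt * b n⌋₊) C
    hM (hL.const_mul hM (by norm_num : (1 : ℝ) ≤ 5)) (hL0.const_mul hM one_le_two) hE (by
      filter_upwards [hb, hc, hG] with n a1 a2 ⟨g1, g2, g3⟩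
      have l1 := hL.1 n
      refine ⟨fun ω hω => mul_le_mul ?_ (pow_le_pow_right₀ one_le_two
        ((min_le_left _ _).trans a2)) (by positivity) (by linarith [hL0.1 n]),
        fun u hu v hv e f1 f2 => ?_⟩
      · obtain ⟨b1, b2, b3⟩ := a1.bd ω hω
        have e : (g n).pt ω k = (g n).a ω k + (g n).z ω * (g n).e ω k := by simp [Geo.pt, Geo.lt]
        rw [e]
        refine (abs_add_le _ _).trans ?_
        rw [abs_mul, abs_of_nonneg b2]
        nlinarith [(b1 k).1, (b1 k).2, abs_nonneg ((g n).e ω k)]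
      · obtain ⟨-, c1, c2⟩ := f1
        obtain ⟨-, -, c3⟩ := f2
        have c4 := abs_le.1 (c2 _ rfl)
        have c5 := abs_le.1 (c3 _ rfl)
        rw [← g1 u hu v hv e, ← g2 u hu v hv e] at c5
        have c6 : ∀ i, |(d n (b n) u).2.2 i * (g n).lt ((g n).z u) u i -
            (d n (b n) u).2.2 i * (g n).lt ((g n).z u) v i| ≤
            L n / 2 ^ min (q n) ⌊wt * b n⌋₊ := fun i => by
          rw [← mul_sub, abs_mul]
          by_cases hi : i ∈ S
          · have c7 := (abs_sub_lt_of_fl1_eq (g3 i hi u hu v hv e)).le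
            simp only [Geo.pt, ← g2 u hu v hv e] at c7
            rw [div_eq_mul_inv]
            refine mul_le_mul (c1 i).1 (c7.trans ?_) (abs_nonneg _) (by linarith)
            exact inv_anti₀ (by positivity) (pow_le_pow_right₀ one_le_two (min_le_left _ _))
          · rw [(c1 i).2 hi, abs_zero, zero_mul]; positivity
        have d0 := abs_le.1 (c6 0)
        have d1 := abs_le.1 (c6 1)
        have d2 := abs_le.1 (c6 2)
        simp only [Fin.sum_univ_three] at c4 c5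
        simp only [Geo.pt, ← g2 u hu v hv e]
        rw [mul_div_assoc, abs_le]
        constructor <;> linarith)
  have h2 : Sm M fun n => (q n - (min (q n) ⌊wt * b n⌋₊ : ℕ) : ℝ) := fun ε hε => by
    filter_upwards [hq _ (half_pos hε), hM.sm 1 _ (half_pos hε)] with n a1 a2
    have a3 := Nat.lt_floor_add_one (wt * b n)
    have a4 : 0 ≤ ε * M n := by positivity
    rcases min_cases (q n) ⌊wt * b n⌋₊ with c | c <;> rw [c.1] <;> linarith
  refine (h1.add (h2.smul lg_pos.le)).mono (Eventually.of_forall fun n => ?_)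
  linarith [ref (P := P n) (fun ω => (g n).pt ω k) (G n) (min_le_left (q n) ⌊wt * b n⌋₊)]

theorem bs {Ω : ℕ → Type} {K : Mb Ω → Prop} {g : Gs 3 Ω} {M mm : ℕ → ℕ} {D : ∀ n, Td (Ω n)}
    {J : ℕ → ℕ} {η γ : ℝ} (h : TW K g M mm D J η γ) {X : Mb Ω} (hX : K X) :
    Bs X.P (X.G g) M := by
  simpa only [one_mul] using (h.cls 1 one_pos).bs X hX

end DetCx

open DetCx

theorem rowDetC : DetC where
  u := by
    intro Ω K g M mm D J η γ X hT hX hC b q r ob or hq hr
    refine core (bs hT hX) (zero_le_one.trans hT.one) hC ob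
      (or.imp fun _ u => (hr.and u).mono fun _ v => v.1.trans v.2) hq _ ?_
    filter_upwards [(hT.com X hX).nest, hr] with n a c
    refine ⟨fun u hu v hv e => ?_, fun u _ v _ e => congrArg (·.2.2.1) e, fun i hi u _ v _ e => ?_⟩
    · exact congrArg (·.2.2.1) ((a.2.1 (b n)).2 u hu v hv (congrArg (·.1) e))
    · rw [Finset.mem_singleton.1 hi]
      exact fl1_eq_of_le c (congrArg (·.2.1) e)
  f := by
    intro Ω K g M mm D J η γ X hT hX H d hd hH hC b q r r' ob or hq hr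
    refine core (bs hT hX) hd hC ob
      (or.imp fun _ u => (hr.and u).mono fun _ v => v.1.1.trans v.2) hq _ ?_
    filter_upwards [hH, hr] with n a c
    refine ⟨fun u hu v hv e => a (b n) u hu v hv (congrArg (·.1) e),
      fun u _ v _ e => congrArg (·.2.2.2.1) e, fun i hi u _ v _ e => ?_⟩
    rcases Finset.mem_insert.1 hi with rfl | hi
    · exact fl1_eq_of_le c.1 (congrArg (·.2.1) e)
    · rw [Finset.mem_singleton.1 hi]
      exact fl1_eq_of_le c.2 (congrArg (·.2.2.1) e)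

end Pool.Agent.MP_5168f5_an.R4.T8
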