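import Pool.Agent.MP_5168f5_an.R4.SpecTW

/-! The cell and the base point determine the fibre coordinate. -/

namespace Pool.Agent.MP_5168f5_an.R4.T8

open H19 H17S H17F Filter Matrix Tan

namespace DetEx

/-- A bounded variable that is usually close to a function of the condition. -/
theorem fano1 {Ω β : ℕ → Type} {P : ∀ n, FP (Ω n)} {x : ∀ n, Ω n → ℝ} (y : ∀ n, Ω n → ℝ)
    {G : ∀ n, Ω n → β n} {R k : ℕ → ℕ} {L D : ℕ → ℝ} {C : ℕ} (hR : Big R) (hL : Sub R L)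
    (hD : Sub R D) (hk : ∀ᶠ n in UF, k n ≤ C * R n)
    (hE : Whp P fun n ω => |x n ω - y n ω| ≤ L n / 2 ^ k n)
    (h : ∀ᶠ n in UF, ∀ ω ∈ (P n).S, |x n ω| ≤ D n) (h' : ∀ᶠ n in UF, Fn (P n) (y n) (G n)) :
    Sm R fun n => ch (P n) (fun ω => fl1 (k n) (x n ω)) (G n) := by
  refine ks.fano P _ _ G R (fun n => 2 * L n + 3) (1 + C) hR
    ((hL.const_mul hR one_le_two).add (hR.sub (by norm_num)) hR) hE ?_
  filter_upwards [h, h', hk, (hD.const_mul hR (C := 7) (by norm_num)).2 1 one_pos] with n a a' k1 b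
  have d1 := hD.1 n
  have p2 : (1 : ℝ) ≤ 2 ^ k n := one_le_pow₀ one_le_two
  have p3 : (2 : ℝ) ^ k n ≤ Real.exp (C * R n) :=
    (two_pow_le_exp _).trans (Real.exp_le_exp.2 (by exact_mod_cast k1))
  refine ⟨fun u hu => (det_near1 (L := 2 * D n * 2 ^ k n) (by positivity)
    (fun u hu v hv _ => ?_) u hu).imp fun T c => ⟨c.1.trans ?_, c.2⟩, fun u hu =>
    ⟨Finset.Icc (fl1 (k n) (y n u) - ⌈L n⌉₊) (fl1 (k n) (y n u) + ⌈L n⌉₊), ?_,
      fun v hv e c => fl1_mem_Icc ?_⟩⟩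
  · rw [mul_div_cancel_right₀ _ (by positivity)]
    linarith [abs_sub (x n u) (x n v), a u hu, a v hv]
  · have p4 := one_le_mul_of_one_le_of_one_le d1 p2
    have p5 := mul_le_mul b p3 (by positivity) (by positivity)
    rw [← Real.exp_add, ← add_mul] at p5
    linarith
  · rw [Int.card_Icc, show fl1 (k n) (y n u) + ⌈L n⌉₊ + 1 - (fl1 (k n) (y n u) - ⌈L n⌉₊) =
      ((2 * ⌈L n⌉₊ + 1 : ℕ) : ℤ) by push_cast; ring, Int.toNat_natCast]
    push_cast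
    linarith [Nat.ceil_lt_add_one (hL.pos n).le]
  · rw [← a' v hv u hu e, ← div_eq_mul_inv]
    exact c.trans (div_le_div_of_nonneg_right (Nat.le_ceil _) (by positivity))

theorem dot {N : ℕ} {u v : V N} {a b : ℝ} (hu : ∀ i, |u i| ≤ a) (hv : ∀ i, |v i| ≤ b) :
    |u ⬝ᵥ v| ≤ N * a * b := by
  have := abs_mulVec_le (A := Matrix.of fun _ : Unit => u) (fun _ => hu) hv ()
  rwa [Fintype.card_fin] at this

theorem quad {N : ℕ} {A : Matrix (Fin N) (Fin N) ℝ} {Y Y' : V N} {B β δ : ℝ}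
    (hA : ∀ i k, |A i k| ≤ B) (hY : ∀ i, |Y i| ≤ β) (hδ : ∀ i, |Y i - Y' i| ≤ δ) :
    |Y ⬝ᵥ A *ᵥ Y - Y' ⬝ᵥ A *ᵥ Y'| ≤ N ^ 2 * B * δ * (2 * β + δ) := by
  have h1 : ∀ i, |Y' i| ≤ β + δ := fun i => by
    linarith [abs_sub_abs_le_abs_sub (Y' i) (Y i), abs_sub_comm (Y' i) (Y i), hY i, hδ i]
  have h2 := dot (u := Y - Y') hδ (abs_mulVec_le hA hY)
  have h3 := dot h1 (abs_mulVec_le (v := Y - Y') hA hδ)
  rw [show Y ⬝ᵥ A *ᵥ Y - Y' ⬝ᵥ A *ᵥ Y' = (Y - Y') ⬝ᵥ A *ᵥ Y + Y' ⬝ᵥ A *ᵥ (Y - Y') by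
    rw [sub_dotProduct, mulVec_sub, dotProduct_sub]; ring]
  refine (abs_add_le _ _).trans ((add_le_add h2 h3).trans_eq ?_)
  rw [Fintype.card_fin]; ring

theorem det {E A : Qd} {z L₀ L₂ ε K x' u' : ℝ} {y : V 3} (h0 : 1 ≤ L₀) (h2 : 1 ≤ L₂) (hε : ε ≤ 1)
    (hz : |z| ≤ 1) (hy : ∀ i, |y i| ≤ L₀) (hx : |y 0 - x'| ≤ ε) (hu : |y 1 - u'| ≤ ε)
    (hE : ∀ i k, |E i k| ≤ K) (hq : ∀ i k, |sq A i k| ≤ L₂) (ha : ∀ i, |(sa A).2 i| ≤ L₂)
    (hs : |y 2 - sf A ![z, y 0, y 1]| ≤ ε) :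
    |qf E (hom z y) - qf E (up A ![z, x', u'])| ≤ 25575 * (L₀ * L₂) ^ 2 * (K * ε) := by
  have e0 := (abs_nonneg _).trans hx
  have k0 := (abs_nonneg _).trans (hE 0 0)
  have l1 := one_le_mul_of_one_le_of_one_le h0 h2
  have p1 : ∀ i, |(![z, y 0, y 1] : V 3) i| ≤ L₀ := fun i => by
    fin_cases i
    exacts [hz.trans h0, hy 0, hy 1]
  have p2 : ∀ i, |(![z, y 0, y 1] : V 3) i - (![z, x', u'] : V 3) i| ≤ ε := fun i => by
    fin_cases i
    exacts [by simpa using e0, hx, hu]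
  have p3 := quad hq p1 p2
  have p4 := dot (v := ![z, y 0, y 1] - ![z, x', u']) ha p2
  rw [dotProduct_sub] at p4
  have e1 : ε ≤ 31 * (L₀ * L₂) * ε := by nlinarith
  have p5 : |y 2 - sf A ![z, x', u']| ≤ 31 * (L₀ * L₂) * ε := by
    have q1 : L₂ * ε * (2 * L₀ + ε) ≤ L₂ * ε * (3 * L₀) := by gcongr; linarith
    have q2 : L₂ * ε ≤ L₀ * (L₂ * ε) := le_mul_of_one_le_left (by positivity) h0
    have q3 : ε ≤ L₀ * L₂ * ε := le_mul_of_one_le_left e0 l1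
    unfold sf at hs ⊢
    push_cast at p3 p4
    rw [abs_le] at hs p3 p4 ⊢
    constructor <;> linarith [hs.1, hs.2, p3.1, p3.2, p4.1, p4.2]
  have p6 : ∀ i, |hom z y i| ≤ L₀ := fun i => by
    fin_cases i
    exacts [by simpa [hom] using h0, hz.trans h0, hy 0, hy 1, hy 2]
  have p7 : ∀ i, |hom z y i - up A ![z, x', u'] i| ≤ 31 * (L₀ * L₂) * ε := fun i => by
    fin_cases i
    exacts [by simpa [hom, up] using e0.trans e1, by simpa [hom, up] using e0.trans e1,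
      hx.trans e1, hu.trans e1, p5]
  refine (quad hE p6 p7).trans ?_
  have q4 : 2 * L₀ + 31 * (L₀ * L₂) * ε ≤ 33 * (L₀ * L₂) := by nlinarith
  refine (mul_le_mul_of_nonneg_left q4 (by positivity)).trans_eq ?_
  push_cast; ring

theorem abs_rd (j : ℕ) (x : ℝ) : |x - rd j x| ≤ 1 / 2 ^ j := by
  rw [one_div, rd, abs_of_nonneg (by linarith [fl1_le j x])]; linarith [lt_fl1 j x]

end DetEx

open DetEx

theorem rowDetE : DetE := by
  intro Ω K g M mm D J η γ X T hX C d w H hC q r ⟨C₀, hr⟩ hq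
  have bs := (T.cls 1 one_pos).bs X hX
  simp only [one_mul] at bs
  have bM := bs.big
  obtain ⟨L₀, l₀, bx⟩ := bs.bx
  replace hq : ∀ᶠ n in UF, 5 * q n ≤ r n := hq.mono fun n a => by exact_mod_cast a
  have oq := (hq.and hr).mono fun n a => show q n ≤ C₀ * M n by omega
  obtain ⟨L₁, l₁, w₁⟩ := hC q q ⟨C₀, oq⟩
    (Eventually.of_forall fun n => le_mul_of_one_le_left (Nat.cast_nonneg _) H.one)
  obtain ⟨L₂, l₂, w₂⟩ := H.srf.bd
  obtain ⟨L₃, l₃, b₃⟩ := H.cu.bd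
  have l₄ : Sub M L₃ := ⟨l₃.1, fun ε hε => by
    filter_upwards [l₃.2 ε hε, T.sm 1 one_pos] with n a b
    exact a.trans (Real.exp_le_exp.2 (mul_le_mul_of_nonneg_left (by linarith) hε.le))⟩
  refine fano1 (fun n v => qf ((C n).E (q n) v) (up ((C n).Ap v)
    ![(X.G g n).z v, rd (r n) ((X.G g n).pt v 0), rd (r n) ((X.G g n).pt v 1)])) bM
    (l₁.add ((((((l₀.const_mul bM one_le_two).mul l₂).pow 2).const_mul bM (C := 25575)
      (by norm_num))).mul l₁) bM) l₄ oq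
    ((w₁.and (w₂.and (H.srf.surf r ⟨C₀, hr⟩))).mono ?_) ?_ ?_
  · filter_upwards [bx, hq] with n a b v hv ⟨⟨c1, c2⟩, ⟨c3, _, c4⟩, c5⟩
    obtain ⟨a1, a2, a3⟩ := a.bd v hv
    have z1 : |(X.G g n).z v| ≤ 1 := abs_le.2 ⟨by linarith, a3.le⟩
    have p0 := l₀.1 n
    have p1 := l₁.pos n
    have e := det (L₀ := 2 * L₀ n) (y := (X.G g n).pt v) (by linarith) (l₂.1 n)
      ((div_le_one (by positivity)).2 (one_le_pow₀ one_le_two)) z1 (fun i => by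
        refine (abs_add_le ((X.G g n).a v i) ((X.G g n).z v * (X.G g n).e v i)).trans ?_
        rw [abs_mul]
        nlinarith [(a1 i).1, (a1 i).2, abs_nonneg ((X.G g n).z v), abs_nonneg ((X.G g n).e v i)])
      (abs_rd (r n) _) (abs_rd (r n) _) c1 c3 c4 (c5 _ a2 a3)
    have e2 : L₁ n * 2 ^ (4 * q n) * (1 / 2 ^ r n) ≤ L₁ n / 2 ^ q n := by
      rw [mul_one_div, div_le_div_iff₀ (by positivity) (by positivity), mul_assoc, ← pow_add]
      exact mul_le_mul_of_nonneg_left (pow_le_pow_right₀ one_le_two (by omega)) p1.le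
    refine (abs_sub_le _ _ _).trans ((add_le_add (c2 _ rfl) (e.trans
      (mul_le_mul_of_nonneg_left e2 (by positivity)))).trans_eq (by ring))
  · filter_upwards [bx, b₃] with n a b v hv using b v hv _ (a.bd v hv).2.1 (a.bd v hv).2.2
  · filter_upwards [H.cu.fn, (T.com X hX).nest] with n a b u hu v hv e
    obtain ⟨e1, e2, e3, e4, e5⟩ : _ ∧ _ ∧ _ ∧ _ ∧ _ := by
      simpa only [Geo.zt, Prod.mk.injEq] using e
    have e6 := a.2.1 0 u hu v hv (b.1 u hu v hv e5)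
    simp only [Tc.E, rd, e2, e3, e4, e6, a.1 u hu v hv e5, a.2.1 (q n) u hu v hv e1]

end Pool.Agent.MP_5168f5_an.R4.T8
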