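import Pool.Agent.MP_5168f5_an.R4.SpecTW

/-! The quadratic part of the surface is not degenerate. -/

namespace Pool.Agent.MP_5168f5_an.R4.T8

open H19 H17S H17F Filter Matrix Tan

namespace DetQx

theorem symm {A : Qd} (h : A.IsSymm) : (sq A).IsSymm := by
  ext i l
  simp only [transpose_apply, sq, h.apply (ix i) (ix l)]

/-- The direction of a line on the surface is nearly a null vector. -/
theorem null {Ω : Type} (g : Geo 3 Ω) (A : Qd) (ω : Ω) {ε : ℝ}
    (h : ∀ t : ℝ, 0 ≤ t → t < 1 → |g.lt t ω 2 - sf A (bp g t ω)| ≤ ε) :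
    |![1, g.e ω 0, g.e ω 1] ⬝ᵥ sq A *ᵥ ![1, g.e ω 0, g.e ω 1]| ≤ 32 * ε := by
  have e : ∀ t : ℝ, bp g t ω = ![0, g.a ω 0, g.a ω 1] + t • ![1, g.e ω 0, g.e ω 1] := fun t => by
    funext i; fin_cases i <;> simp [bp, Geo.lt]
  have a0 := abs_le.1 (h 0 le_rfl one_pos)
  have a1 := abs_le.1 (h (1 / 4) (by norm_num) (by norm_num))
  have a2 := abs_le.1 (h (1 / 2) (by norm_num) (by norm_num))
  simp only [e, sf, Geo.lt, Pi.add_apply, Pi.smul_apply, mulVec_add, mulVec_smul, add_dotProduct,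
    dotProduct_add, smul_dotProduct, dotProduct_smul, smul_eq_mul] at a0 a1 a2
  rw [abs_le]
  constructor <;> linarith [a0.1, a0.2, a1.1, a1.2, a2.1, a2.2]

end DetQx

open DetQx in
theorem rowDetQ : OfDetQ := by
  rintro ⟨C, c, C1, hc⟩ hD Ω K g M mm D J η γ X hT hX A hA hS ⟨L2, s2, w2⟩
  have hB := (hT.cls 1 one_pos).bs X hX
  simp only [one_mul] at hB
  obtain ⟨L0, s0, h0⟩ := hB.bx
  obtain ⟨L1, s1, w1⟩ := hS.bd
  have sL := (s0.mul s1).mul s2
  refine ks.wsub X.P (fun n v s => 1 ≤ s * |(sq (A n v)).det|) M fun ε e0 e1 => ?_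
  have dir := fun b => hD K g M mm D J η γ X hT hX
    (fun n v => c (sq (A n v)) (L0 n * L1 n * L2 n) (Real.exp (-(ε / 4 * M n))) b)
    (hA.mono fun n k a ha b hb e => by simp only [k.1 a ha b hb e])
  obtain ⟨La, sa, wa⟩ := dir false
  obtain ⟨Lb, sb, wb⟩ := dir true
  refine (((w1.and w2).and (hS.surf (fun n => 3 * M n) ⟨3, Eventually.of_forall fun _ => le_rfl⟩)).and
    (wa.and wb)).mono ?_
  filter_upwards [h0, hA, hB.big.eventually_ge_atTop 5, (((sL.pow 11).mul (sa.mul sb)).const_mul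
    hB.big (C := 2 * C ^ 2) (by nlinarith)).2 (ε / 4) (by positivity)] with n k0 kA k5 k6 v hv
    ⟨⟨⟨u1, u2⟩, u3⟩, u4, u5⟩
  by_contra hn
  have l0 := s0.1 n
  have l1 := s1.1 n
  have l2 := s2.1 n
  have l01 := (s0.mul s1).1 n
  have m0 : (0 : ℝ) ≤ M n := Nat.cast_nonneg _
  have b0 : L0 n ≤ L0 n * L1 n * L2 n := by nlinarith
  have b1 : L1 n ≤ L0 n * L1 n * L2 n := by nlinarith
  have b2 : L2 n ≤ L0 n * L1 n * L2 n := by nlinarith
  have q4 : Real.exp (-(ε / 4 * M n)) ^ 4 = (Real.exp (ε * M n))⁻¹ := by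
    rw [← Real.exp_nat_mul, ← Real.exp_neg]; congr 1; push_cast; ring
  obtain ⟨b, ⟨i, t1⟩, t2⟩ := hc (sq (A n v)) ![1, (X.G g n).e v 0, (X.G g n).e v 1] _
    (Real.exp (-(ε / 4 * M n))) (sL.1 n) (Real.exp_pos _)
    (Real.exp_le_one_iff.2 (neg_nonpos.2 (by positivity))) (symm (kA.2 v hv))
    (fun i l => (u1.1 i l).trans b1) (u2.imp fun i => Exists.imp fun l a =>
      a.trans (mul_le_mul_of_nonneg_right b2 (abs_nonneg _)))
    (fun i => by
      fin_cases i
      exacts [abs_one.trans_le (sL.1 n), ((k0.bd v hv).1 0).2.trans b0,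
        ((k0.bd v hv).1 1).2.trans b0])
    (by rw [q4, inv_eq_one_div, le_div_iff₀' (Real.exp_pos _)]; exact (not_le.1 hn).le)
    ((null _ _ _ u3).trans (by
      have a1 := exp_le_two_pow (2 * M n)
      have a2 : (2 : ℝ) ^ 5 ≤ 2 ^ M n := pow_le_pow_right₀ one_le_two k5
      have a3 : Real.exp (ε * M n) ≤ 2 ^ (2 * M n) :=
        le_trans (Real.exp_le_exp.2 (by push_cast; nlinarith)) a1
      rw [q4, mul_one_div, inv_eq_one_div, div_le_div_iff₀ (by positivity) (Real.exp_pos _),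
        show 3 * M n = M n + 2 * M n by ring, pow_add, one_mul]
      exact mul_le_mul (by linarith) a3 (Real.exp_pos _).le (by positivity)))
  have t3 : |c (sq (A n v)) (L0 n * L1 n * L2 n) (Real.exp (-(ε / 4 * M n))) b i| ≤ La n * Lb n *
      |c (sq (A n v)) (L0 n * L1 n * L2 n) (Real.exp (-(ε / 4 * M n))) b ⬝ᵥ
        ![1, (X.G g n).e v 0, (X.G g n).e v 1]| := by
    cases b
    exacts [(u4 i).trans (mul_le_mul_of_nonneg_right
      (le_mul_of_one_le_right (sa.pos n).le (sb.1 n)) (abs_nonneg _)),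
      (u5 i).trans (mul_le_mul_of_nonneg_right
        (le_mul_of_one_le_left (sb.pos n).le (sa.1 n)) (abs_nonneg _))]
  have t4 := t1.trans (mul_le_mul_of_nonneg_left (t3.trans (mul_le_mul_of_nonneg_left t2
    ((sa.mul sb).pos n).le)) (by positivity))
  have t5 := mul_le_mul_of_nonneg_right k6 (Real.exp_pos (-(ε / 4 * M n))).le
  rw [← Real.exp_add, add_neg_cancel, Real.exp_zero] at t5
  linarith

end Pool.Agent.MP_5168f5_an.R4.T8
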