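import Pool.Agent.MP_5168f5_an.R4.SpecTW

/-! A covector of the context does not kill the directions `(1, e 0, e 1)`. -/

namespace Pool.Agent.MP_5168f5_an.R4.T8

open H19 H17S H17F Filter Matrix Tan

namespace DirUx

theorem mi0 {Ω α β γ : Type} {P : FP Ω} {F : Ω → α} (G : Ω → β) {K : Ω → γ} (h : Fn P F K) :
    mi P F G K ≤ 0 := (mi_le F G K).trans (ch_zero h).le

/-- The context is a label of every level. -/
theorem labT {N : ℕ} {Ω : ℕ → Type} {P : ∀ n, FP (Ω n)} {g : Gs N Ω} {M : ℕ → ℕ}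
    (h : Bs P g M) (mm j : ℕ → ℕ) : Lab P g mm j fun n => (g n).θ := by
  obtain ⟨L, -, hL⟩ := h.bx
  exact ⟨Le.of_le fun n => mi0 _ fun _ _ _ _ e => congrArg (fun p => p.1.2.2) e,
    Le.of_ev (hL.mono fun n hn => mi0 _ hn.fθ)⟩

theorem dot3 (c : V 3) (a b : ℝ) : c ⬝ᵥ ![1, a, b] = c 0 + c 1 * a + c 2 * b := by
  simp [dotProduct, Fin.sum_univ_three]

/-- The first two coefficients as a polynomial. -/
def cf (c : V 3) : ℕ → ℝ := fun l => if l = 0 then c 0 else if l = 1 then c 1 else 0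

theorem ev_cf (c : V 3) (a : ℝ) : ev 2 (cf c) a = c 0 + c 1 * a := by
  simp [ev, cf, Finset.sum_range_succ]

theorem win0 {t z : ℝ} (h : fl1 0 t = fl1 0 z) : |t - z| ≤ 1 := by
  simp only [fl1, pow_zero, one_mul] at h
  have h1 := Int.floor_le t
  have h2 := Int.lt_floor_add_one t
  have h3 := Int.floor_le z
  have h4 := Int.lt_floor_add_one z
  rw [h] at h1 h2
  rw [abs_le]; constructor <;> linarith

theorem tri {c0 c1 c2 a b L : ℝ} (hb : |b| ≤ L) :
    |c0 + c1 * a| ≤ |c0 + c1 * a + c2 * b| + L * |c2| := by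
  have h1 : |c0 + c1 * a| ≤ |c0 + c1 * a + c2 * b| + |c2 * b| := by
    have := abs_sub (c0 + c1 * a + c2 * b) (c2 * b)
    rwa [add_sub_cancel_right] at this
  rw [abs_mul] at h1
  nlinarith [abs_nonneg c2]

theorem quo {x c2 s E L1 L0 B : ℝ} (hE : 1 ≤ E) (hs : 0 ≤ s) (h : E * s < |c2|) (h1 : 0 ≤ L1)
    (hx : |x| ≤ L1 * (s + L0 * |c2|)) (hB : L1 * (1 + L0) ≤ B) : |-x / c2| ≤ B := by
  have h0 : 0 < |c2| := (by positivity : 0 ≤ E * s).trans_lt h
  rw [abs_div, abs_neg, div_le_iff₀ h0]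
  have h2 : s ≤ |c2| := by nlinarith
  have h3 : L1 * (s + L0 * |c2|) ≤ L1 * ((1 + L0) * |c2|) :=
    mul_le_mul_of_nonneg_left (by linarith) h1
  nlinarith

theorem slope {c0 c1 c2 a0 a1 e0 e1 t z E T : ℝ} (hT : 0 < T) (hE : T ≤ E) (ht : |t - z| ≤ 1)
    (h : E * |c0 + c1 * e0 + c2 * e1| < |c2|) :
    |(a1 + t * e1 - -c0 / c2 * t - -c1 / c2 * (a0 + t * e0)) -
      (a1 + z * e1 - -c0 / c2 * z - -c1 / c2 * (a0 + z * e0))| ≤ 1 / T := by
  have hs := abs_nonneg (c0 + c1 * e0 + c2 * e1)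
  have h0 : 0 < |c2| := (mul_nonneg (hT.le.trans hE) hs).trans_lt h
  have hc : c2 ≠ 0 := abs_pos.1 h0
  have e : (a1 + t * e1 - -c0 / c2 * t - -c1 / c2 * (a0 + t * e0)) -
      (a1 + z * e1 - -c0 / c2 * z - -c1 / c2 * (a0 + z * e0)) =
      (t - z) * (c0 + c1 * e0 + c2 * e1) / c2 := by
    field_simp; ring
  rw [e, abs_div, abs_mul, div_le_div_iff₀ h0 hT]
  have h1 : |t - z| * |c0 + c1 * e0 + c2 * e1| ≤ |c0 + c1 * e0 + c2 * e1| :=
    mul_le_of_le_one_left hs ht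
  have h2 := mul_le_mul_of_nonneg_right h1 hT.le
  have h3 := mul_le_mul_of_nonneg_right hE hs
  linarith

end DirUx

open DirUx

theorem rowDirU : OfDirU := by
  intro R2 Ω K g M mm D J η γ X T hX c hc
  have C0 : Cls0 K g M 0 η := by simpa only [one_mul] using T.cls 1 one_pos
  have hM : Big M := (C0.bs X hX).big
  obtain ⟨L0, sL0, b0⟩ := (C0.bs X hX).bx
  obtain ⟨L1, sL1, w1⟩ := R2 K g M 0 η X (fun n => (X.G g n).θ) (fun n v => cf (c n v)) C0 hX
    (labT (C0.bs X hX) M fun _ => 0).l (hc.mono fun n hn => (Fn.comp cf (c n)).trans hn)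
  have w2 : Whp X.P fun n v => ∀ i : Fin 2, |c n v i.castSucc| ≤ L1 n *
      (|c n v 0 + c n v 1 * (X.G g n).e v 0 + c n v 2 * (X.G g n).e v 1| + L0 n * |c n v 2|) := by
    refine w1.mono (b0.mono fun n hn v hv h i => ?_)
    have h1 := tri (c0 := c n v 0) (c1 := c n v 1) (c2 := c n v 2) (a := (X.G g n).e v 0)
      ((hn.bd v hv).1 1).2
    have h2 := mul_le_mul_of_nonneg_left h1 (sL1.pos n).le
    simp only [ev_cf] at h
    fin_cases i
    · exact (h 0 (by norm_num)).trans h2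
    · exact (h 1 (by norm_num)).trans h2
  obtain ⟨L2, sL2, w3⟩ := ks.wsub X.P (fun n v L => |c n v 2| ≤ L *
      |c n v 0 + c n v 1 * (X.G g n).e v 0 + c n v 2 * (X.G g n).e v 1|) M fun ε hε hε1 => by
    by_contra hw
    have hp := not_whp hw
    have hY := T.cl.cond X _ hX hp
    have sB := sL1.mul ((hM.sub le_rfl).add sL0 hM)
    have hle := (T.com _ hY).optU _ (fun n => (X.G g n).θ)
      (fun n v => (-c n v 0 / c n v 2, -c n v 1 / c n v 2)) (fun _ => 1) (fun _ => 0)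
      (fun n => ⌊ε * M n⌋₊) M ⟨0, Eventually.of_forall fun n => Nat.zero_le _⟩
      ⟨1, Eventually.of_forall fun n => by
        rw [one_mul]; exact (hM.frac_floor hε hε1).1 n⟩
      ⟨1, Eventually.of_forall fun n => by rw [one_mul]⟩
      (labT (C0.bs _ hY) mm fun _ => 0) (hM.sub le_rfl)
      (hc.mono fun n hn a ha b hb e => by
        have := hn a (cE_sub ha) b (cE_sub hb) e
        simp only [this])
      (((w2.cE hp).and (Whp.of_ev hp.sure)).mono (by
        filter_upwards [sB.2 lg (Real.log_pos one_lt_two)] with n hB v _ h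
        obtain ⟨h1, -, h2⟩ := h
        rw [not_le] at h2
        have hE : 1 ≤ Real.exp (ε * M n) := Real.one_le_exp (by positivity)
        have hB' : L1 n * (1 + L0 n) ≤ 2 ^ M n := by
          refine hB.trans (le_of_eq ?_)
          rw [lg, mul_comm, Real.exp_nat_mul, Real.exp_log two_pos]
        refine ⟨⟨quo hE (abs_nonneg _) h2 (sL1.pos n).le (h1 0) hB',
          quo hE (abs_nonneg _) h2 (sL1.pos n).le (h1 1) hB'⟩, fun t ht => ?_⟩
        have hT : (2 : ℝ) ^ ⌊ε * M n⌋₊ ≤ Real.exp (ε * M n) :=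
          (two_pow_le_exp _).trans (Real.exp_le_exp.2 (Nat.floor_le (by positivity)))
        exact slope (by positivity) hT (win0 ht) h2))
    obtain ⟨-, κ, hκ, hf⟩ := hM.frac_floor hε hε1
    exact hle.false hM hκ (hf.mono fun n hn => by simpa using hn)
  refine ⟨fun n => L1 n * (1 + L0 n * L2 n) + L2 n,
    (sL1.mul ((hM.sub le_rfl).add (sL0.mul sL2) hM)).add sL2 hM,
    (w2.and w3).mono (Eventually.of_forall fun n v _ h i => ?_)⟩
  obtain ⟨h1, h2⟩ := h
  rw [dot3]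
  have p0 := (sL0.pos n).le
  have p1 := (sL1.pos n).le
  have p2 := (sL2.pos n).le
  generalize |c n v 0 + c n v 1 * (X.G g n).e v 0 + c n v 2 * (X.G g n).e v 1| = s at h1 h2 ⊢
  have hs : 0 ≤ L2 n * s := (abs_nonneg _).trans h2
  have hs' : 0 ≤ s := nonneg_of_mul_nonneg_right hs (sL2.pos n)
  have h3 : L1 n * (s + L0 n * |c n v 2|) ≤ L1 n * (s + L0 n * (L2 n * s)) := by gcongr
  have h4 : 0 ≤ L1 n * (1 + L0 n * L2 n) * s := by positivity
  fin_cases i
  · have := h1 0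
    change |c n v 0| ≤ _ at this ⊢
    nlinarith
  · have := h1 1
    change |c n v 1| ≤ _ at this ⊢
    nlinarith
  · change |c n v 2| ≤ _
    nlinarith

end Pool.Agent.MP_5168f5_an.R4.T8
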