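import Pool.Agent.MP_5168f5_an.R4.SpecTW

/-! Chains of levels for the slopes of the hyperplanes. -/

namespace Pool.Agent.MP_5168f5_an.R4.T8

open H19 H17S H17F Filter Matrix Tan

namespace GChainx

theorem step {γ d s e : ℝ} {u v : ℕ} (hγ : 1 ≤ γ) (h1 : (γ - d) * u ≤ s)
    (h2 : (v : ℝ) ≤ u + e) (he : 0 ≤ e) :
    (2 : ℝ) ^ ⌈γ * v⌉₊ / 2 ^ ⌊d * u⌋₊ ≤ Real.exp (γ * e + 2) * Real.exp (s * lg) := by
  have a1 := Nat.ceil_lt_add_one (show 0 ≤ γ * v by positivity)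
  have a2 := Nat.lt_floor_add_one (d * u)
  have a3 : γ * v ≤ γ * (u + e) := mul_le_mul_of_nonneg_left h2 (by linarith)
  have a4 : ((⌈γ * v⌉₊ : ℝ) - ⌊d * u⌋₊) * lg ≤ (s + (γ * e + 2)) * lg :=
    mul_le_mul_of_nonneg_right (by linarith) lg_pos.le
  have a5 : (γ * e + 2) * lg ≤ γ * e + 2 :=
    mul_le_of_le_one_right (by positivity) lg_lt_one.le
  rw [two_pow_eq, two_pow_eq, ← Real.exp_sub, ← Real.exp_add]
  exact Real.exp_le_exp.2 (by linarith)

theorem gap (k i N : ℕ) : ((k * (i + 1) / N : ℕ) : ℝ) ≤ (k * i / N : ℕ) + (k / N + 1) := by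
  have h1 : ((k * (i + 1) / N : ℕ) : ℝ) ≤ ((k * (i + 1) : ℕ) : ℝ) / N := Nat.cast_div_le
  have h2 := Nat.lt_floor_add_one (((k * i : ℕ) : ℝ) / N)
  rw [Nat.floor_div_eq_div] at h2
  rw [Nat.cast_mul, Nat.cast_succ, mul_add (k : ℝ), add_div, mul_one] at h1
  rw [Nat.cast_mul] at h2
  linarith

variable {Ω : ℕ → Type} {P : ∀ n, FP (Ω n)} {M : ℕ → ℕ} {G : ∀ n, ℕ → Ω n → ℝ} {γ d : ℝ}

theorem key (hM : Big M) (hγ : 1 ≤ γ) (hd : 1 ≤ d) (h : GSt P M G γ d) (a a' : ℕ → ℕ)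
    (s : ℕ → ℝ) (ha : OM M a')
    (e : ∀ᶠ n in UF, a n ≤ a' n ∧ ∀ b : ℕ, a n ≤ b → b ≤ a' n → (γ - d) * b ≤ s n) :
    WL P M fun n L ω => |G n (a n) ω - G n (a' n) ω| ≤ L * Real.exp (s n * lg) := by
  obtain ⟨C, hC⟩ := ha
  refine ks.wsub P (fun n ω L => |G n (a n) ω - G n (a' n) ω| ≤ L * Real.exp (s n * lg)) M
    fun c hc _ => ?_
  obtain ⟨N, hN⟩ := exists_nat_gt (2 * γ * C / c)
  have N1 : (0 : ℝ) < N := lt_of_le_of_lt (by positivity) hN
  have N0 : 0 < N := Nat.cast_pos.1 N1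
  rw [div_lt_iff₀ hc] at hN
  let b : ℕ → ℕ → ℕ := fun i n => a n + (a' n - a n) * i / N
  have mono : ∀ i j n, i ≤ j → b i n ≤ b j n := fun i j n k =>
    Nat.add_le_add_left (Nat.div_le_div_right (Nat.mul_le_mul_left _ k)) _
  have last : ∀ n, a n ≤ a' n → b N n = a' n := fun n k => by
    simp only [b, Nat.mul_div_cancel _ N0]
    omega
  have le : ∀ i : Fin N, ∀ᶠ n in UF, b (i + 1) n ≤ C * M n := fun i => by
    filter_upwards [e, hC] with n u v
    exact ((mono _ _ n i.2).trans (last n u.1).le).trans v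
  choose L sL wL using fun i : Fin N => h (b i) (b (i + 1)) (fun n => ⌊d * b i n⌋₊)
    (fun n => ⌈γ * b (i + 1) n⌉₊) ⟨C, le i⟩
    ⟨⌈γ⌉₊ * C, (le i).mono fun n u => Nat.ceil_le.2 (by
      rw [mul_assoc, Nat.cast_mul]
      exact mul_le_mul (Nat.le_ceil γ) (Nat.cast_le.2 u) (Nat.cast_nonneg _) (Nat.cast_nonneg _))⟩
    (Eventually.of_forall fun n =>
      ⟨mono _ _ n (Nat.le_succ _), Nat.floor_le (by positivity), Nat.le_ceil _⟩)
  have c1 : (1 : ℝ) ≤ N * Real.exp (γ + 2) :=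
    one_le_mul_of_one_le_of_one_le (Nat.one_le_cast.2 N0) (Real.one_le_exp (by positivity))
  refine (Whp.all wL).mono ?_
  filter_upwards [e, hC, eventually_all.2 fun i => (((hM.sub c1).mul (sL i)).2 (c / 2)
    (half_pos hc))] with n u v w ω _ k
  have t := dist_le_range_sum_dist (fun i => G n (b i n) ω) N
  rw [last n u.1, show b 0 n = a n by simp [b], Finset.sum_range] at t
  simp only [Real.dist_eq] at t
  refine t.trans ((Finset.sum_le_card_nsmul _ _
    (Real.exp (c * M n) * Real.exp (s n * lg) / N) fun i _ => (k i).trans ?_).trans_eq ?_)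
  · have g1 : ((a' n - a n : ℕ) : ℝ) ≤ C * M n := by exact_mod_cast (Nat.sub_le _ _).trans v
    have g2 := step (u := b i n) (v := b (i + 1) n) (e := ((a' n - a n : ℕ) : ℝ) / N + 1) hγ
      (u.2 _ (Nat.le_add_right _ _) ((mono _ _ n i.2.le).trans (last n u.1).le))
      (by simp only [b, Nat.cast_add]; linarith [gap (a' n - a n) i N]) (by positivity)
    have g3 : γ * (((a' n - a n : ℕ) : ℝ) / N) ≤ c / 2 * M n := by
      rw [← mul_div_assoc, div_le_iff₀ N1]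
      have := mul_le_mul_of_nonneg_left g1 (show 0 ≤ γ by linarith)
      nlinarith [Nat.cast_nonneg (α := ℝ) (M n)]
    have g4 : Real.exp (γ * (((a' n - a n : ℕ) : ℝ) / N + 1) + 2) ≤
        Real.exp (γ + 2) * Real.exp (c / 2 * M n) := by
      rw [← Real.exp_add]
      exact Real.exp_le_exp.2 (by linarith)
    have g5 : Real.exp (c * M n) = Real.exp (c / 2 * M n) * Real.exp (c / 2 * M n) := by
      rw [← Real.exp_add]
      exact congrArg _ (by ring)
    have l0 := (sL i).pos n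
    rw [mul_div_assoc, le_div_iff₀ N1, g5]
    calc _ ≤ L i n * (Real.exp (γ + 2) * Real.exp (c / 2 * M n) * Real.exp (s n * lg)) * N := by
          gcongr
          exact g2.trans (by gcongr)
      _ = N * Real.exp (γ + 2) * L i n * Real.exp (c / 2 * M n) * Real.exp (s n * lg) := by ring
      _ ≤ _ := by
          gcongr
          exact w i
  · rw [Finset.card_univ, Fintype.card_fin, nsmul_eq_mul, mul_div_cancel₀ _ N1.ne']

end GChainx

open GChainx in
theorem rowGChain : GChain := by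
  intro Ω P M G γ d hM hγ hd h ⟨L0, s0, w0⟩
  refine ⟨fun a σ ha _ e => ?_, fun hγd a a' τ ha e => ?_⟩
  · obtain ⟨L, s1, w1⟩ := key hM hγ hd h (fun _ => 0) a (fun n => σ n) ha
      (e.mono fun n u => ⟨Nat.zero_le _, fun b _ k => (le_total γ d).elim
        (fun g => (mul_nonpos_of_nonpos_of_nonneg (sub_nonpos.2 g) (Nat.cast_nonneg _)).trans
          (Nat.cast_nonneg _))
        fun g => (mul_le_mul_of_nonneg_left (Nat.cast_le.2 k) (sub_nonneg.2 g)).trans u⟩)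
    refine ⟨_, s0.add s1 hM, (w0.and w1).mono (Eventually.of_forall fun n ω _ ⟨u, v⟩ => ?_)⟩
    beta_reduce at u v ⊢
    rw [← two_pow_eq] at v
    have t := abs_sub (G n 0 ω) (G n 0 ω - G n (a n) ω)
    rw [sub_sub_cancel] at t
    have := le_mul_of_one_le_right (s0.pos n).le (one_le_pow₀ (n := σ n) (one_le_two (α := ℝ)))
    linarith
  · obtain ⟨L, s1, w1⟩ := key hM hγ hd h a a' (fun n => -τ n) ha
      (e.mono fun n u => ⟨u.1, fun b k _ => by
        have := mul_le_mul_of_nonneg_left (Nat.cast_le (α := ℝ).2 k) (sub_nonneg.2 hγd)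
        linarith [u.2]⟩)
    refine ⟨L, s1, w1.mono (Eventually.of_forall fun n ω _ v => ?_)⟩
    beta_reduce at v ⊢
    rwa [neg_mul, Real.exp_neg, ← two_pow_eq, ← div_eq_mul_inv] at v

end Pool.Agent.MP_5168f5_an.R4.T8
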