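import Pool.Agent.MP_5168f5_an.R4.SpecT

/-! Kakeya sets in four dimensions: a sheared coordinate is full given a label. -/

namespace Pool.Agent.MP_5168f5_an.R4

open H19 H17S H17F Filter

namespace FBA

section

variable {N N' : ℕ} {W Λ : Type}

/-- The point in the rescaled window. -/
theorem wz_pt (g : Geo N W) (j : ℕ) (B : W → Matrix (Fin N') (Fin N) ℝ) (κ : W → Λ) (ω : W) :
    (g.wz j B κ).pt ω = (2 : ℝ) ^ j • (B ω).mulVec
      (g.pt ω - ((2 : ℝ) ^ j)⁻¹ • cz (g.wc j κ ω).2.2.2) := by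
  have e : g.z ω = g.z0 j ω + Int.fract (2 ^ j * g.z ω) * ((2 : ℝ) ^ j)⁻¹ := by
    rw [Geo.z0, fl1, Int.fract]
    field_simp
    ring
  simp only [Geo.pt, Geo.lt, Geo.wc]
  rw [← Matrix.mulVec_smul, ← Matrix.mulVec_add, Matrix.smul_mulVec]
  congr 2
  conv_rhs => rw [e]
  module

theorem z_eq (g : Geo N W) (j : ℕ) {a b : W} (h : fl1 j (g.z a) = fl1 j (g.z b))
    (h' : Int.fract (2 ^ j * g.z a) = Int.fract (2 ^ j * g.z b)) : g.z a = g.z b := by
  refine mul_left_cancel₀ (a := (2 : ℝ) ^ j) (by positivity) ?_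
  rw [← Int.floor_add_fract (2 ^ j * g.z a), ← Int.floor_add_fract (2 ^ j * g.z b), h']
  exact congrArg (fun u : ℤ => (u : ℝ) + _) h

theorem mS_zero (k : Bool) (G : ℝ) (v : V 3) : (mS k G).mulVec v 0 = v 0 := by
  simp [mS, Matrix.mulVec, dotProduct]

theorem mS_one (k : Bool) (G : ℝ) (v : V 3) :
    (mS k G).mulVec v 1 = v (co k) - G * v (co (!k)) := by
  cases k <;> simp [mS, co, Matrix.mulVec, dotProduct, Fin.sum_univ_three] <;> ring

theorem mS_ent (k : Bool) (G : ℝ) : mS k G 1 (co (!k)) = -G := by cases k <;> simp [mS, co]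

theorem up {x y : ℝ} {j m r : ℕ} (h : fl1 r x = fl1 r y) (e : r ≤ j + m) :
    |2 ^ j * (x - y)| ≤ 2 ^ (j + m - r) / 2 ^ m := by
  obtain ⟨d, hd⟩ := Nat.exists_eq_add_of_le e
  rw [hd, Nat.add_sub_cancel_left, abs_mul, abs_of_pos (by positivity : (0 : ℝ) < 2 ^ j),
    le_div_iff₀ (by positivity), mul_right_comm, ← pow_add, hd, pow_add, mul_right_comm]
  have := (mul_lt_mul_of_pos_left (abs_sub_lt_of_fl1_eq h) (by positivity : (0 : ℝ) < 2 ^ r)).le
  rw [mul_inv_cancel₀ (by positivity)] at this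
  exact mul_le_of_le_one_left (by positivity) this

theorem dn {x y u : ℝ} {j r : ℕ} (h : fl1 r x = fl1 r y) (e : x - y = 2 ^ j * u) :
    |u| ≤ 1 / 2 ^ (j + r) := by
  have := (abs_sub_lt_of_fl1_eq h).le
  rw [e, abs_mul, abs_of_pos (by positivity : (0 : ℝ) < 2 ^ j), ← le_div_iff₀' (by positivity)]
    at this
  exact this.trans_eq (by rw [pow_add]; field_simp)

/-- The dictionary between the window and the original system. -/
theorem dict (P : FP W) (g : Geo 3 W) (k : Bool) (G : W → ℝ) (lam : W → Λ) (hG : Fn P G lam)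
    {j m lo hi : ℕ} (h1 : j ≤ lo) (h3 : hi ≤ j + m) :
    ch P (fun v => fl1 m ((g.wz j (fun v => mS k (G v)) lam).pt v 1)) (fun v =>
      (fl1 (lo - j) ((g.wz j (fun v => mS k (G v)) lam).pt v 1),
        fl1 m ((g.wz j (fun v => mS k (G v)) lam).pt v 0),
        (g.wz j (fun v => mS k (G v)) lam).zt v)) ≤
    ch P (fun v => fl1 hi (g.sv k G v)) (fun v =>
      (fl1 lo (g.sv k G v), fl1 (j + m) (g.pt v 0), lam v, g.zt v)) +
      (j + m - hi : ℝ) * lg + 15 := by
  set p := (g.wz j (fun v => mS k (G v)) lam).pt with hp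
  set C := fun v => (fl1 (lo - j) (p v 1), fl1 m (p v 0),
    (g.wz j (fun v => mS k (G v)) lam).zt v) with hC
  have key : ∀ a ∈ P.S, ∀ b ∈ P.S, C a = C b → (lam a, g.zt a) = (lam b, g.zt b) ∧
      p a 1 - p b 1 = 2 ^ j * (g.sv k G a - g.sv k G b) ∧
      p a 0 - p b 0 = 2 ^ j * (g.pt a 0 - g.pt b 0) := fun a ha b hb e => by
    have e1 : g.wc j lam a = g.wc j lam b := congrArg (fun u => u.2.2.2) e
    have e2 : lam a = lam b := congrArg (fun u => u.1) e1
    have e3 := z_eq g j (congrArg (fun u => u.2.2.1) e1) (congrArg (fun u => u.2.2.1) e)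
    refine ⟨Prod.ext e2 (Prod.ext e3 (congrArg (fun u => u.2.1) e1)), ?_, ?_⟩
    · simp only [hp, wz_pt, Pi.smul_apply, mS_one, e1, hG a ha b hb e2, Geo.sv, Pi.sub_apply,
        smul_eq_mul]
      ring
    · simp only [hp, wz_pt, Pi.smul_apply, mS_zero, e1, Pi.sub_apply, smul_eq_mul]
      ring
  have l5 : Real.log (2 * 1 + 3) ≤ 5 := log_le_five (by norm_num) (by norm_num)
  have a1 := ch_tri (P := P) (fun v => fl1 m (p v 1)) (fun v => fl1 hi (g.sv k G v)) C
  have a2 := ch_near1 (P := P) (x := fun v => p v 1) (G := fun v => (fl1 hi (g.sv k G v), C v))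
    (j := m) (L := 2 ^ (j + m - hi)) (by positivity) fun a ha b hb e => by
      rw [(key a ha b hb (congrArg Prod.snd e)).2.1]
      exact up (congrArg Prod.fst e) h3
  have a3 := ch_tri' (P := P) (fun v => fl1 hi (g.sv k G v)) C fun v =>
    (fl1 lo (g.sv k G v), fl1 (j + m) (g.pt v 0), lam v, g.zt v)
  have a4 := ch_subadd (P := P) (fun v => fl1 lo (g.sv k G v))
    (fun v => (fl1 (j + m) (g.pt v 0), lam v, g.zt v)) C
  have a5 := ch_subadd (P := P) (fun v => fl1 (j + m) (g.pt v 0)) (fun v => (lam v, g.zt v)) C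
  have a6 := ch_zero (P := P) (F := fun v => (lam v, g.zt v)) (G := C) fun a ha b hb e =>
    (key a ha b hb e).1
  have a7 := ch_near1 (P := P) (x := g.sv k G) (G := C) (j := lo) (L := 1) zero_le_one
    fun a ha b hb e => by
      have := dn (congrArg Prod.fst e) (key a ha b hb e).2.1
      rwa [Nat.add_sub_cancel' h1] at this
  have a8 := ch_near1 (P := P) (x := fun v => g.pt v 0) (G := C) (j := j + m) (L := 1) zero_le_one
    fun a ha b hb e => dn (congrArg (fun u => u.2.1) e) (key a ha b hb e).2.2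
  have a9 : Real.log (2 * 2 ^ (j + m - hi) + 3) ≤ 5 + (j + m - hi : ℝ) * lg := by
    have : (1 : ℝ) ≤ 2 ^ (j + m - hi) := one_le_pow₀ one_le_two
    refine (Real.log_le_log (y := (2 * 1 + 3) * 2 ^ (j + m - hi)) (by positivity)
      (by linarith)).trans ?_
    rw [Real.log_mul (by norm_num) (by positivity), log_two_pow, Nat.cast_sub h3, Nat.cast_add]
    linarith
  linarith

end

/-- No thin plane in the window. -/
theorem nole (hT : WzT) (hS : WzS) {Ω Λ : ℕ → Type} {K : Mb Ω → Prop} {g : Gs 3 Ω}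
    {M M' j j₁ j' b' : ℕ → ℕ} {η ε : ℝ} {F : ∀ n, Fam (g n).sh5} {X : Mb Ω}
    {lam : ∀ n, (X n).W → Λ n} {G : ∀ n, (X n).W → ℝ} {L : ℕ → ℝ} {b k : Bool}
    (h : Go K g M η F) (hL : Sub M L) (hε : 0 < ε) (hj : ∀ n, j n + M' n = M n) (hM : Frac M' M)
    (h0 : b = false → ∀ n v, G n v = 0)
    (e : ∀ᶠ n in UF, (j n + j₁ n : ℕ) + ε * M n ≤ j' n ∧ j' n ≤ M n ∧
      (F n).τ (some (b, k)) (j' n) ≤ j n + b' n) :
    NoLe (KW K g M j X lam (fun n v => mS k (G n v)) L)
      (Gs.fin (fun n => (X.G g n).wz (j n) (fun v => mS k (G n v)) (lam n)) M') M'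
      (fun n => ((X.G g n).wz (j n) (fun v => mS k (G n v)) (lam n)).pl {0} 1) j₁ b' := by
  intro X' τ hX' hτ th
  obtain ⟨Ψ, hΨ⟩ := hS.pl
  obtain ⟨Y, Λ', lam', d, L', y1, y2, y3, y4⟩ := hT K g M j M' j₁ τ X lam _ L _ X' h.cls.cl0
    h.cls.bs hj hM hL (fun n => kp.ok _ _ _) hX' th
  refine ((h.opt.opt (some (b, k)) (Y.map fun n => (X n).ρ) (fun n => j n + j₁ n) j'
    (fun n => j n + τ n) ε y1.1 hε ?_ ⟨Λ', lam', fun n v => Ψ (j n) k (G n ((Y n).ρ v))
      ((X.G g n).wc (j n) (lam n) ((Y n).ρ v)).2.2 (d n v), _, y2, hL.mul y3, ?_⟩).of_sub ?_).frac hM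
  · filter_upwards [e, hτ] with n a c
    exact ⟨a.1, a.2.1, hj n ▸ Nat.add_le_add_left c _⟩
  · filter_upwards [y4, y1.2.2.1, y1.2.2.2] with n a c c'
    refine ⟨fun u hu v hv e => ?_, fun v hv => ?_⟩
    · have e1 := a.1 u hu v hv e
      have e2 := congrArg Prod.snd e1
      have e3 := congrFun (congrFun (c u hu v hv (congrArg Prod.fst e2)) 1) (co (!k))
      simp only [mS_ent, neg_inj] at e2 e3
      simp only [e2, e3, show d n u = d n v from congrArg Prod.fst e1]
    · refine hΨ (X.G g n) (j n) (j₁ n) (τ n) b k (G n) (lam n) (L n) _ _ _ ?_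
        (fun c => h0 c _ _) (le_mul_of_one_le_right (hL.pos n).le (y3.1 n))
        ((kp.ok _ _ _).monoL _ _ _ _ _ _ (le_mul_of_one_le_left (y3.pos n).le (hL.1 n)) (a.2 v hv))
      simpa [mS_ent] using c' v hv 1 (co (!k))
  · filter_upwards [e] with n a
    have : ((F n).τ (some (b, k)) (j' n) : ℝ) ≤ j n + b' n := by exact_mod_cast a.2.2
    push_cast
    linarith

end FBA

open FBA in
theorem rowFB : OfFB := by
  intro hC hT hS hU Ω Λ K g M η F X lam G L b k j j' lo hi ε h hX hl hL hε e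
  have big := (h.cls.bs X hX).big
  set j0 : ℕ → ℕ := fun n => min (j n) (M n) with hj0
  set M' : ℕ → ℕ := fun n => M n - j0 n with hM'
  set G' : ∀ n, (X n).W → ℝ := fun n v => bif b then G n v else 0 with hG'
  have hj : ∀ n, j0 n + M' n = M n := fun n => Nat.add_sub_cancel' (min_le_right _ _)
  have e0 : ∀ᶠ n in UF, j0 n = j n := e.mono fun n a => min_eq_left (by omega)
  have e1 : ∀ᶠ n in UF, ∀ v ∈ (X n).Q.S, G' n v = G n v := e.mono fun n a v hv => by
    cases b
    exacts [((a.2.2 v hv).2 rfl).symm, rfl]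
  have e2 : ∀ᶠ n in UF, Fn (X n).Q (G' n) (lam n) := by
    filter_upwards [e, e1] with n a c u hu v hv e'
    rw [c u hu, c v hv, a.2.1 u hu v hv e']
  have fr : Frac M' M := ⟨fun n => Nat.sub_le _ _, ε, hε, by
    filter_upwards [e, e0] with n a c
    have h1 : (j0 n : ℝ) + M' n = M n := by exact_mod_cast hj n
    have h2 : (j' n : ℝ) ≤ M n := by exact_mod_cast a.1.2.1
    rw [c] at h1
    linarith [a.1.1]⟩
  have kw : KW K g M j0 X lam (fun n v => mS k (G' n v)) L (Mb.base X.P) := by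
    refine ⟨hX, ⟨hl.h.mono (e0.mono fun n a => by rw [a]; rfl), hl.l⟩,
      e2.mono fun n a u hu v hv e' => congrArg (mS k) (a u hu v hv e'), ?_⟩
    filter_upwards [e, e1] with n a c v hv x y
    have h1 := (a.2.2 v hv).1
    have h2 := hL.1 n
    simp only [mS, id, c v hv]
    split_ifs <;> simp [h1, h2, (hL.pos n).le]
  obtain ⟨c1, c2⟩ := hC K g M j0 M' η X lam (fun n v => mS k (G' n v)) L h.cls h.brd hj fr hL
    (fun n v x => if_pos rfl) kw
  have hc : 0 < min (ε / 2) 1 := lt_min (half_pos hε) one_pos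
  have key := hU _ _ M' _ (fun n => min (lo n - j n) (M' n)) η _ c1 c2
    ((big.frac fr).frac_floor hc (min_le_right _ _)) (fun n => min_le_right _ _)
    (nole (j' := j') (b := b) hT hS h hL (half_pos hε) hj fr (by rintro rfl n v; rfl) (by
      filter_upwards [e, e0] with n a c
      have h1 := hj n
      have h2 : (M' n : ℝ) ≤ M n := by exact_mod_cast fr.1 n
      have h3 : (⌊min (ε / 2) 1 * M' n⌋₊ : ℝ) ≤ ε / 2 * M n := (Nat.floor_le (by positivity)).trans
        (mul_le_mul (min_le_left _ _) h2 (by positivity) (by positivity))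
      refine ⟨?_, a.1.2.1, by omega⟩
      rw [c]
      push_cast
      linarith [a.1.1])) kw
  refine (key.up fr.1).of2 (big.sm 15) ?_
  filter_upwards [e, e0, e1, e2] with n a c c1 c2
  have h1 := hj n
  have h2 := dict (X n).Q (X.G g n) k (G' n) (lam n) c2 (j := j0 n) (m := M' n) (lo := lo n)
    (hi := hi n) (by omega) (by omega)
  have h3 : min (lo n - j n) (M' n) = lo n - j0 n := by omega
  have h4 : (j0 n : ℝ) + M' n = M n := by exact_mod_cast h1
  have h5 : ∀ v ∈ (X n).Q.S, (X.G g n).sv k (G' n) v = (X.G g n).sv k (G n) v := fun v hv => by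
    rw [Geo.sv, Geo.sv, c1 v hv]
  rw [h1, ch_ext (F := fun v => fl1 (hi n) ((X.G g n).sv k (G' n) v))
    (F' := fun v => fl1 (hi n) ((X.G g n).sv k (G n) v))
    (G' := fun v => (fl1 (lo n) ((X.G g n).sv k (G n) v), fl1 (M n) ((X.G g n).pt v 0), lam n v,
      (X.G g n).zt v)) (fun v hv => by rw [h5 v hv]) fun v hv => by rw [h5 v hv]] at h2
  rw [h3, Nat.cast_sub (show j0 n ≤ lo n by omega)]
  refine le_trans ?_ (add_le_add_left (sub_le_sub_left h2 _) _)
  rw [h4, eq_sub_of_add_eq' h4]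
  linarith

end Pool.Agent.MP_5168f5_an.R4
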