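import Pool.Agent.MP_5168f5_an.R4.SpecT

/-! Fullness of a sheared coordinate with small errors. -/

namespace Pool.Agent.MP_5168f5_an.R4

open H19 H17S H17F Filter

namespace FBUA

/-- The data of a label on a refinement. -/
structure Dat (V : Type) : Type 1 where
  W : Type
  Λ : Type
  Q : FP W
  f : W → V
  lam : W → Λ
  G : W → ℝ
  b : Bool
  k : Bool
  j : ℕ
  j' : ℕ
  lo : ℕ
  hi : ℕ

end FBUA

open FBUA in
theorem rowFBU : OfFBU := by
  intro hF Ω K g M η F X C ε hg hX hε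
  have : ∀ n, Nonempty (Dat (X n).W) := fun n =>
    ⟨⟨_, Unit, (X n).Q, id, fun _ => (), fun _ => 0, true, true, 0, 0, 0, 0⟩⟩
  obtain ⟨δ, hδ, h⟩ := unif2 (A := fun n => Dat (X n).W)
    (h := fun n a δ => (((X.G (g.fin M) n).pull a.f).hk a.Q a.j a.lam ≤ δ * M n ∧
      ((X.G (g.fin M) n).pull a.f).lk a.Q a.lam ≤ δ * M n ∧
      ∀ v ∈ a.Q.S, |a.G v| ≤ Real.exp (δ * M n)) ∧
      K31.Dn C a.Q a.f (X n).Q ∧ Fn a.Q a.G a.lam ∧ (∀ v ∈ a.Q.S, a.b = false → a.G v = 0) ∧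
      a.j + ε * M n ≤ a.j' ∧ a.j' ≤ M n ∧ (F n).τ (some (a.b, a.k)) a.j' ≤ a.lo ∧ a.j ≤ a.lo ∧
      a.lo ≤ a.hi ∧ a.hi ≤ M n)
    (p := fun n a => (a.hi - a.lo : ℝ) * lg ≤
      ch a.Q (fun v => fl1 a.hi (((X.G g n).pull a.f).sv a.k a.G v)) (fun v =>
        (fl1 a.lo (((X.G g n).pull a.f).sv a.k a.G v), fl1 (M n) (((X.G g n).pull a.f).pt v 0),
          a.lam v, ((X.G g n).pull a.f).zt v)) + ε * M n)
    (fun n a δ δ' e h =>
      have e' := mul_le_mul_of_nonneg_right e (Nat.cast_nonneg (α := ℝ) (M n))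
      ⟨⟨h.1.1.trans e', h.1.2.1.trans e', fun v hv =>
        (h.1.2.2 v hv).trans (Real.exp_le_exp.2 e')⟩, h.2⟩)
    fun a h => by
      have h1 := (h 1 one_pos).mono fun n c => c.2
      obtain ⟨L, l1, l2⟩ := (sub_iff (M := M)
        (p := fun n L => ∀ v ∈ (a n).Q.S, |(a n).G v| ≤ L)).2 fun δ hδ =>
        (h δ hδ).mono fun n c => ⟨_, Real.one_le_exp (by positivity), le_rfl, c.1.2.2⟩
      obtain ⟨u, hu⟩ := ev_ex (J := Bool × Bool) (p := fun u n => (a n).b = u.1 ∧ (a n).k = u.2)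
        (Eventually.of_forall fun n => ⟨((a n).b, (a n).k), rfl, rfl⟩)
      have h2 := hF K g M η F (X.ext (fun n => (a n).Q) fun n => (a n).f) (fun n => (a n).lam)
        (fun n => (a n).G) L u.1 u.2 (fun n => (a n).j) (fun n => (a n).j') (fun n => (a n).lo)
        (fun n => (a n).hi) ε hg
        (hg.cls.cl0.dn hX ⟨C, h1.exists.choose_spec.1.one_le, h1.mono fun n c => c.1⟩)
        ⟨fun δ hδ => (h δ hδ).mono fun n c => c.1.1.trans_eq (zero_add _).symm,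
          fun δ hδ => (h δ hδ).mono fun n c => c.1.2.1.trans_eq (zero_add _).symm⟩ l1 hε (by
          filter_upwards [h1, l2, hu] with n c e d
          rw [← d.1, ← d.2]
          exact ⟨c.2.2.2, c.2.1, fun v hv => ⟨e v hv, c.2.2.1 v hv⟩⟩) ε hε
      filter_upwards [h2, hu] with n c d
      rw [d.2]
      exact c
  exact ⟨δ, hδ, h.mono fun n c W Λ Q f lam G b k j j' lo hi a1 a2 a3 a4 a5 a6 a7 a8 a9 a10 a11 =>
    c ⟨W, Λ, Q, f, lam, G, b, k, j, j', lo, hi⟩ ⟨⟨a2, a3, fun v hv => (a5 v hv).1⟩, a1, a4,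
      fun v hv => (a5 v hv).2, a6, a7, a8, a9, a10, a11⟩⟩

end Pool.Agent.MP_5168f5_an.R4
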