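import Pool.Agent.MP_5168f5_an.R4.SpecT

/-! Row FQ: the point is full below the best quadric thickness, given any label. -/

namespace Pool.Agent.MP_5168f5_an.R4

open H19 H17S H17F Filter

namespace FQA

variable {N : ℕ} {Ω K : Type} (P : FP Ω) (g : Geo N Ω) (κ : Ω → K)

theorem fl_wz (j i : ℕ) (ω : Ω) :
    fl i ((g.wz j (fun _ => (1 : Matrix (Fin N) (Fin N) ℝ)) κ).pt ω) =
      fl (j + i) (g.pt ω) - (2 : ℤ) ^ i • (g.wc j κ ω).2.2.2 := by
  funext t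
  rw [Geo.pt, ka.lt, ka.z]
  simp only [fl, Geo.wc, Geo.pt, cz, Matrix.smul_mulVec, Matrix.one_mulVec, smul_zero, sub_zero,
    Pi.smul_apply, Pi.sub_apply, smul_eq_mul]
  rw [← Int.floor_sub_intCast]
  congr 1
  push_cast
  field_simp
  ring

theorem dict {j b m hi : ℕ} (h : hi ≤ j + m) :
    ch P (fun v => fl m ((g.wz j (fun _ => (1 : Matrix (Fin N) (Fin N) ℝ)) κ).pt v)) (fun v =>
      (fl b ((g.wz j (fun _ => (1 : Matrix (Fin N) (Fin N) ℝ)) κ).pt v),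
        (g.wz j (fun _ => (1 : Matrix (Fin N) (Fin N) ℝ)) κ).zt v)) ≤
    ch P (fun v => fl hi (g.pt v)) (fun v => (fl (j + b) (g.pt v), κ v, g.zt v)) +
      N * (j + m - hi : ℝ) * lg := by
  obtain ⟨i, e⟩ := Nat.exists_eq_add_of_le h
  have h1 := ch_fl_refine (P := P) (x := g.pt) (i := i) (Fn.fst (fun v => fl hi (g.pt v))
    fun v => (fl (j + b) (g.pt v), κ v, g.zt v))
  have h2 : (j + m - hi : ℝ) = i := by rw [sub_eq_iff_eq_add']; exact_mod_cast e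
  rw [h2]
  refine le_trans (ch_le (fun x _ y _ c => ?_) fun x _ y _ c => ?_)
    ((ch_tri _ _ _).trans (add_le_add le_rfl h1))
  · simp only [Geo.zt, Prod.mk.injEq] at c
    simp only [fl_wz, e, c.1, c.2.2.2]
  · simp only [Geo.zt, Prod.mk.injEq, fl_wz] at c
    obtain ⟨c1, c2, c3⟩ := c
    rw [c3, sub_left_inj] at c1
    simp only [Geo.wc, Prod.mk.injEq] at c3
    have c4 : g.z x = g.z y := by rw [← ka.z g j x, ← ka.z g j y, Geo.z0, Geo.z0, c2, c3.2.2.1]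
    simp only [Geo.zt, c1, c3.1, c3.2.1, c4]

end FQA

theorem rowFQ : OfFQ := by
  intro hC hT hS hF Ω Λ K g M η F X lam j j' lo hi ε hG hX hl hε hev
  have hM : Big M := (hG.cls.bs X hX).big
  obtain ⟨Ψ, hΨ⟩ := hS.qd
  obtain ⟨j0, hj⟩ : ∃ j0 : ℕ → ℕ, ∀ n, j0 n = min (j n) (M n) := ⟨_, fun _ => rfl⟩
  obtain ⟨M', hM'⟩ : ∃ M' : ℕ → ℕ, ∀ n, j0 n + M' n = M n :=
    ⟨fun n => M n - j0 n, fun n => Nat.add_sub_cancel' (hj n ▸ min_le_right _ _)⟩
  obtain ⟨b, hb⟩ : ∃ b : ℕ → ℕ, ∀ n, j0 n + b n = max (j0 n) (min (lo n) (M n)) :=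
    ⟨fun n => min (lo n) (M n) - j0 n, fun n => add_tsub_eq_max⟩
  have ev : ∀ᶠ n in UF, j0 n + ε * M n ≤ j' n ∧ j' n ≤ M n ∧ (F n).τ iQ (j' n) ≤ j0 n + b n ∧
      j n ≤ j0 n ∧ j0 n + b n = lo n ∧ hi n ≤ M n := hev.mono fun n ⟨a1, a2, a3, a4, a5, a6⟩ => by
    have := hj n
    have := hb n
    exact ⟨by rwa [show j0 n = j n by omega], a2, by omega, by omega, by omega, a6⟩
  have e1 : ∀ n, (j0 n : ℝ) + M' n = M n := fun n => by exact_mod_cast hM' n
  have fr : Frac M' M := ⟨fun n => by have := hM' n; omega, ε, hε, ev.mono fun n a => by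
    have : (j' n : ℝ) ≤ M n := by exact_mod_cast a.2.1
    linarith [a.1, e1 n]⟩
  have c0 : 0 < min 1 (ε / 2) := lt_min one_pos (half_pos hε)
  have h0 : KW K g M j0 X lam (fun _ _ => (1 : Matrix (Fin 3) (Fin 3) ℝ)) (fun _ => 1)
      (Mb.base X.P) :=
    ⟨hX, ⟨kb.up _ _ M j j0 lam (ev.mono fun n a => a.2.2.2.1) hl.h, hl.l⟩,
      Eventually.of_forall fun _ _ _ _ _ _ => rfl, Eventually.of_forall fun n v _ a c => by
        simp only [Matrix.one_apply]; split_ifs <;> simp⟩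
  obtain ⟨h1, h2⟩ := hC K g M j0 M' η X lam _ _ hG.cls hG.brd hM' fr (hM.sub le_rfl)
    (fun _ _ c => by simp only [Matrix.one_apply, eq_comm]) h0
  have h3 := hF _ _ M' _ b η _ h1 h2 ((hM.frac fr).frac_floor c0 (min_le_left _ _))
    (fun n => by have := hM' n; have := hb n; omega) (fun X' τ k1 k2 k3 => ?_) h0
  · refine (h3.up fr.1).of_sub (ev.mono fun n a => ?_)
    have := FQA.dict (X n).Q (X.G g n) (lam n) (b := b n) (a.2.2.2.2.2.trans (hM' n).ge)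
    rw [a.2.2.2.2.1] at this
    have e2 : (j0 n : ℝ) + b n = lo n := by exact_mod_cast a.2.2.2.2.1
    rw [← e2]
    push_cast at this
    exact le_trans (by linarith) (sub_le_sub_left this _)
  · obtain ⟨Y, Λ', lam', d, L', l1, l2, l3, l4⟩ := hT K g M j0 M' _ τ X lam _ _ _ X' hG.cls.cl0
      hG.cls.bs hM' fr (hM.sub le_rfl) (fun n => qd_ok _) k1 k3
    have := hG.opt.opt iQ _ _ j' (fun n => j0 n + τ n) _ l1.1 (half_pos hε) ?_
      ⟨Λ', lam', fun n v => Ψ (j0 n) ((X.G g n).wc (j0 n) (lam n) ((Y n).ρ v)).2.2 (d n v), L', l2,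
        l3, l4.mono fun n a => ⟨(Fn.comp (fun x : Qd × Λ n × (g n).T × ℤ × Z 3 =>
          Ψ (j0 n) x.2.2.2 x.1) _).trans a.1, fun v hv => hΨ _ _ _ _ _ _ _ _ (a.2 v hv)⟩⟩
    · refine (this.frac fr).of_sub (ev.mono fun n a => ?_)
      have : ((F n).τ iQ (j' n) : ℝ) ≤ j0 n + b n := by exact_mod_cast a.2.2.1
      push_cast
      linarith
    · filter_upwards [ev, k2] with n a c
      refine ⟨?_, a.2.1, by have := hM' n; omega⟩
      have h4 := Nat.floor_le (show 0 ≤ min 1 (ε / 2) * M' n by positivity)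
      have h5 : min 1 (ε / 2) * M' n ≤ ε / 2 * M n :=
        mul_le_mul (min_le_right _ _) (by exact_mod_cast fr.1 n) (Nat.cast_nonneg _) (by positivity)
      push_cast
      linarith [a.1]

end Pool.Agent.MP_5168f5_an.R4
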