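import Pool.Agent.MP_5168f5_an.R4.SpecT

/-! Raising the floor. -/

namespace Pool.Agent.MP_5168f5_an.R4

open H19 H17S H17F Filter

namespace FlrA

theorem fp_eq {N : ℕ} {Ω : Type} (g : Geo N Ω) {m m' : ℕ} (h : m' ≤ m) {a b : Ω}
    (e : g.fp (fun _ => m) a = g.fp (fun _ => m) b) :
    g.fp (fun _ => m') a = g.fp (fun _ => m') b :=
  Prod.ext (funext fun i => fl1_eq_of_le h (congrFun (congrArg Prod.fst e) i))
    (congrArg (·.2) e)

theorem sm_unit {Ω α β : ℕ → Type} (P : ∀ n, FP (Ω n)) (M : ℕ → ℕ) (G : ∀ n, Ω n → α n)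
    (K : ∀ n, Ω n → β n) : Sm M fun n => mi (P n) (fun _ => ()) (G n) (K n) :=
  Le.of_le fun _ => (mi_le _ _ _).trans (ch_zero fun _ _ _ _ _ => rfl).le

theorem thin_up {N : ℕ} {Ω : ℕ → Type} {P : ∀ n, FP (Ω n)} {g : Gs N Ω} {M M' j τ : ℕ → ℕ}
    {s : ∀ n, Shp (Ω n)} (e : ∀ n, M' n ≤ M n) (h : Thin P g M' s j τ) : Thin P g M s j τ := by
  obtain ⟨Λ, lam, d, L, a, b, c⟩ := h
  exact ⟨Λ, lam, d, L, ⟨Le.up a.h e, Le.up a.l e⟩, b.up e, c⟩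

end FlrA

theorem rowFlr : Flr := by
  intro N Ω K g M M' i η fr h
  have fy : ∀ (X : Mb Ω) (n : ℕ), Fn (X n).Q (X.G (g.fin M') n).y (X.G (g.fin M) n).y :=
    fun X n a _ b _ e => FlrA.fp_eq (g n) (fr.1 n) e
  refine ⟨⟨⟨h.cl0, h.pos, fun X hX =>
    (kb.fatB X.P _ M' (fun n _ => M' n) (kb.coarse _ _ _ _ (h.bs X hX) fr)).1, fun X hX α hα =>
    ((h.br X hX α fun n => (hα n).trans (fr.1 n)).frac fr).trans
      (Le.of_le fun n => ch_anti (fy X n))⟩, h.cf, h.ne⟩, fun b ε hε => ?_,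
    fun s j b ok no X τ hX hτ th => ?_⟩
  · obtain ⟨a₀, a0, ha⟩ := b ε hε
    refine ⟨a₀, a0, fun X hX α β k => ((ha X hX α β fun n => ⟨(k n).1, (k n).2.trans
      (mul_le_mul_of_nonneg_left (Nat.cast_le.2 (fr.1 n)) a0.le)⟩).frac fr).trans
      (Le.of_le fun n => ch_anti ((Fn.fst _ _).pair ((fy X n).right _)))⟩
  · obtain ⟨Λ, lam, d, L, a1, a2, a3⟩ := thinLift X.P (X.G (g.fin M)) (X.G (g.fin M')) M j j τ
      (fun _ _ => ()) (fun n => (s n).pull (X n).ρ)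
      (fun n => ⟨fun L L' d v => (ok n).monoL L L' d _, fun L d v => (ok n).monoj L d _,
        fun L d v w => (ok n).core L d _ _⟩)
      ⟨FlrA.sm_unit _ _ _ _, FlrA.sm_unit _ _ _ _⟩
      (.of_forall fun n => ⟨fun a ha b hb e => Prod.ext (congrArg (·.1.1) e)
        (Prod.ext (congrArg (·.1.2.1) e) (fy X n a ha b hb (congrArg (·.1.2.2) e))),
        fun a _ b _ e => congrArg (·.2) e⟩)
      (Le.of_le fun n => (ch_zero ((fy X n).right _)).le) (FlrA.thin_up fr.1 th)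
    exact (no _ τ (h.cl0.fst hX _) (hτ.mono fun n a => a.trans (fr.1 n))
      ⟨Λ, lam, d, L, a1, a2, a3.mono fun n c => ⟨(Fn.fst _ _).trans c.1, c.2⟩⟩).frac fr

end Pool.Agent.MP_5168f5_an.R4
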