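import Pool.Agent.MP_5168f5_an.R4.SpecT

/-! Kakeya sets in four dimensions: an optimal family of the five shapes on a subclass. -/

namespace Pool.Agent.MP_5168f5_an.R4

open H19 H17S H17F Filter

namespace GoEA

theorem tr {N : ℕ} {Ω : ℕ → Type} {I : Type} {K : Mb Ω → Prop} {g : Gs N Ω} {M : ℕ → ℕ}
    {s s' : ∀ n, I → Shp (Ω n)} (e : s' = s) {F : ∀ n, Fam (s n)} {p : ℕ → I → ℕ}
    (h : Opt K g M F p) : ∃ F' : ∀ n, Fam (s' n), Opt K g M F' p := by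
  subst e; exact ⟨F, h⟩

theorem ok {Ω : Type} (g : Geo 3 Ω) (r : Fin 3 → ℕ) : ∀ i, (g.sh5 i).OK (g.fat r)
  | none => qd_ok (g.fat r)
  | some v => kp.ok (g.fat r) (sS v.1 v.2) (co v.2)

/-- The trivial shape data. -/
def d0 {Ω : Type} (g : Geo 3 Ω) (A : Qd) : ∀ i, (g.sh5 i).D
  | none => A
  | some _ => (0, 0, 0)

end GoEA

open GoEA in
theorem rowGoE : OfGoE := by
  intro kq Ω K g M η hc hb
  obtain ⟨X, hX⟩ := hc.ne
  obtain ⟨L, hL, hx⟩ := (hc.bs X hX).bx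
  obtain ⟨A, hA⟩ := kq.zero
  have hM := (hc.bs X hX).big
  obtain ⟨Ω', π, F, K', h1, h2, h3, h4⟩ := optE K (g.fin M) M (fun n => (g n).sh5)
    (fun n _ => M n) 1 ⟨hc.cl0, hc.cf⟩ hM (fun n => ok (g n) _) (fun n _ => (one_mul _).ge)
    ⟨X, fun n => 2 * L n, fun n => d0 (g n) A, hX, hL.const_mul hM one_le_two,
      hx.mono fun n h i v hv => by
        cases i with
        | none => exact hA _ (X.G (g.fin M) n) _ (hL.1 n) h v hv
        | some w => exact kp.zero _ (X.G (g.fin M) n) (sS w.1 w.2) (co w.2) _ h v hv⟩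
  obtain ⟨F', h5⟩ := tr (funext fun n => sh5_pull (g n) (π n)) h4
  refine ⟨Ω', π, K', F', h3, ⟨⟨h1.toCl0, hc.pos, fun Y hY => hc.bs _ (h3 Y hY),
    fun Y hY => hc.br _ (h3 Y hY)⟩, h1.cf, h2⟩, fun ε hε => ?_, h5⟩
  obtain ⟨a, ha, h6⟩ := hb ε hε
  exact ⟨a, ha, fun Y hY => h6 _ (h3 Y hY)⟩

end Pool.Agent.MP_5168f5_an.R4
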