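import Pool.Agent.MP_5168f5_an.R4.SpecT

/-! Kakeya sets in four dimensions: quadric labels. -/

namespace Pool.Agent.MP_5168f5_an.R4

open H19 H17S H17F Filter Matrix

namespace KQA

variable {Ω : Type}

/-- The product of the first coordinate and a linear form. -/
def lin (l : V 5) : Qd := Matrix.of fun a b => if a = 0 then l b else 0

theorem lin_apply (l Y W : V 5) : Y ⬝ᵥ lin l *ᵥ W = Y 0 * (l ⬝ᵥ W) := by
  simp [lin, dotProduct, mulVec, Fin.sum_univ_succ]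

theorem bv_succ (i : Fin 4) : bv i.succ 0 = 0 := Pi.single_eq_of_ne (Fin.succ_ne_zero i).symm _

theorem pf_lin (l Y : V 5) (i : Fin 4) : pf (lin l) Y (bv i.succ) = Y 0 * l i.succ := by
  rw [pf, lin_apply, lin_apply, bv_succ, zero_mul, add_zero, bv, dotProduct_single, mul_one]

/-- The linear form of a plane. -/
def frm (k : Bool) (d : ℝ × ℝ × V 3) : V 5 :=
  ![-d.1, -d.2.1, -d.2.2 0, (bif k then 0 else 1) - d.2.2 1, (bif k then 1 else 0) - d.2.2 2]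

theorem pl (g : Geo 3 Ω) (b k : Bool) (L : ℝ) (d : ℝ × ℝ × V 3) (ω : Ω) (j τ : ℕ) (hL : 1 ≤ L)
    (h : (g.pl (sS b k) (co k)).fit L d ω j τ) : g.qd.fit L (lin (frm k d)) ω j τ := by
  have h0 : d.2.2 (co k) = 0 := (h.2.1 _).2 (by cases b <;> cases k <;> decide)
  have h1 := fun i => (h.2.1 i).1
  refine ⟨fun i m => ?_, ?_, fun t ht => ⟨?_, fun i => ?_⟩⟩
  · rw [pf_lin, bv_succ, zero_mul, abs_zero]
    positivity
  · have a := pf_lin (frm k d) (hom (g.z ω) (g.pt ω)) 2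
    have c := pf_lin (frm k d) (hom (g.z ω) (g.pt ω)) 3
    cases k
    · exact Or.inl (by rw [show (3 : Fin 5) = Fin.succ 2 from rfl, a]; simp [hom, frm, co] at h0 ⊢
                       simp [h0])
    · exact Or.inr (by rw [show (4 : Fin 5) = Fin.succ 3 from rfl, c]; simp [hom, frm, co] at h0 ⊢
                       simp [h0])
  · refine le_trans (le_of_eq ?_) (h.2.2 t ht)
    rw [qf, lin_apply]
    congr 1
    cases k <;> simp [hom, frm, co, dotProduct, Fin.sum_univ_succ] <;> ring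
  · rw [pf_lin]
    have h2 := h.1
    cases k <;> fin_cases i <;> simp [hom, frm, co] at h0 ⊢ <;> simp [h0, h1, h2, hL]

/-- The quadric along the line. -/
noncomputable def q (g : Geo 3 Ω) (A : Qd) (ω : Ω) (t : ℝ) : ℝ := qf A (hom t (g.lt t ω))

theorem q_add (g : Geo 3 Ω) (A : Qd) (ω : Ω) (t s : ℝ) : q g A ω (t + s) =
    q g A ω t + s * pf A (hom t (g.lt t ω)) (vec 1 (g.e ω)) + s ^ 2 * qf A (vec 1 (g.e ω)) := by
  rw [q, hom_lt, qf_add, pf_smul_right, qf_smul, q]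

theorem num {a b c h B x y : ℝ} (hh : 0 < h) (h0 : |a| ≤ B)
    (h1 : |a + h * (1 / 4) * b + (h * (1 / 4)) ^ 2 * c| ≤ B)
    (h2 : |a + h * (1 / 2) * b + (h * (1 / 2)) ^ 2 * c| ≤ B) (hx : |x| ≤ h) (hy : |y| ≤ h) :
    h * |b + c * (x + y)| ≤ 80 * B := by
  have k1 : |h * h * c| ≤ 32 * B := by
    rw [abs_le] at h0 h1 h2 ⊢
    constructor <;> nlinarith [h0.1, h0.2, h1.1, h1.2, h2.1, h2.2]
  have k2 : |h * b| ≤ 16 * B := by
    rw [abs_le] at h0 h1 k1 ⊢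
    constructor <;> nlinarith [h0.1, h0.2, h1.1, h1.2, k1.1, k1.2]
  rw [abs_mul, abs_of_pos (by positivity)] at k1 k2
  have k3 : |c * (x + y)| ≤ |c| * (h + h) := by
    rw [abs_mul]
    exact mul_le_mul_of_nonneg_left ((abs_add_le _ _).trans (add_le_add hx hy)) (abs_nonneg _)
  nlinarith [mul_le_mul_of_nonneg_left ((abs_add_le b _).trans (add_le_add le_rfl k3)) hh.le]

theorem move {g : Geo 3 Ω} {L : ℝ} {A : Qd} {ω : Ω} {j i τ τ' : ℕ} (hL : 0 ≤ L) (hτ : τ' ≤ τ + i)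
    (h : g.qd.fit L A ω j τ) {t s : ℝ} (ht : fl1 (j + i) t = fl1 (j + i) (g.z ω))
    (hs : fl1 (j + i) s = fl1 (j + i) (g.z ω)) : |q g A ω t - q g A ω s| ≤ 80 * L / 2 ^ τ' := by
  have w : ∀ u : ℝ, 0 ≤ u → u < 1 → |q g A ω (g.z0 j ω + ((2 : ℝ) ^ j)⁻¹ * u)| ≤ L / 2 ^ τ :=
    fun u a b => (h.2.2 _ (KPA.fl1_mid j (fl1 j (g.z ω)) a b)).1
  have n : ∀ u : ℝ, fl1 (j + i) u = fl1 (j + i) (g.z ω) → |u - g.z0 j ω| ≤ ((2 : ℝ) ^ j)⁻¹ :=
    fun u a => (abs_sub_lt_of_fl1_eq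
      ((fl1_eq_of_le (Nat.le_add_right j i) a).trans (KPA.fl1_z0 g j ω).symm)).le
  have h1 := w (1 / 4) (by norm_num) (by norm_num)
  have h2 := w (1 / 2) (by norm_num) (by norm_num)
  rw [q_add] at h1 h2
  have h3 := num (by positivity) (h.2.2 _ (KPA.fl1_z0 g j ω)).1 h1 h2 (n t ht) (n s hs)
  rw [inv_mul_le_iff₀ (by positivity)] at h3
  have h4 := KPA.step (B := 80 * L) (by positivity) (abs_sub_lt_of_fl1_eq (ht.trans hs.symm)).le
    (h3.trans_eq (by ring)) hτ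
  have e1 := q_add g A ω (g.z0 j ω) (t - g.z0 j ω)
  have e2 := q_add g A ω (g.z0 j ω) (s - g.z0 j ω)
  rw [add_sub_cancel] at e1 e2
  rw [e1, e2]
  exact (congrArg _ (by ring)).trans_le h4

/-- The new digit of the constant term. -/
noncomputable def dg (g : Geo 3 Ω) (d : Ω → Qd) (j τ : ℕ) (ω : Ω) : ℤ :=
  fl1 τ (q g (d ω) ω (g.z0 j ω))

/-- The quadric with the corrected constant term. -/
noncomputable def nd (g : Geo 3 Ω) (d : Ω → Qd) (j τ : ℕ) (ω : Ω) : Qd :=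
  d ω - lin ((((2 : ℝ) ^ τ)⁻¹ * dg g d j τ ω) • bv 0)

theorem pf_nd (A : Qd) (c : ℝ) (Y : V 5) (i : Fin 4) :
    pf (A - lin (c • bv 0)) Y (bv i.succ) = pf A Y (bv i.succ) := by
  have h := pf_lin (c • bv 0) Y i
  rw [Pi.smul_apply, bv, bv, Pi.single_eq_of_ne (Fin.succ_ne_zero i), smul_zero, mul_zero] at h
  simp only [pf, bv, sub_mulVec, dotProduct_sub] at h ⊢
  linarith

theorem q_nd (g : Geo 3 Ω) (A : Qd) (c : ℝ) (ω : Ω) (t : ℝ) :
    q g (A - lin (c • bv 0)) ω t = q g A ω t - c := by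
  rw [q, q, qf, qf, sub_mulVec, dotProduct_sub, lin_apply]
  simp [bv, hom]

theorem fit_nd (g : Geo 3 Ω) {L : ℝ} (hL : 1 ≤ L) {d : Ω → Qd} {ω : Ω} {j i τ τ' : ℕ}
    (hτ : τ' ≤ τ + i) (hτ' : τ ≤ τ') (h : g.qd.fit L (d ω) ω j τ) :
    g.qd.fit (81 * L) (nd g d (j + i) τ' ω) ω (j + i) τ' := by
  refine ⟨fun a b => ?_, ?_, fun t ht => ⟨?_, fun a => ?_⟩⟩
  · rw [nd, pf_nd]
    exact (h.1 a b).trans
      (div_le_div_of_nonneg_right (pow_le_pow_right₀ one_le_two hτ') (by norm_num))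
  · have := h.2.1
    rwa [nd, show (3 : Fin 5) = Fin.succ 2 from rfl, show (4 : Fin 5) = Fin.succ 3 from rfl, pf_nd,
      pf_nd]
  · have h1 := abs_le.1 (move (by linarith) hτ h ht (KPA.fl1_z0 g (j + i) ω))
    have h2 := fl1_le τ' (q g (d ω) ω (g.z0 (j + i) ω))
    have h3 := lt_fl1 τ' (q g (d ω) ω (g.z0 (j + i) ω))
    have h5 : ((2 : ℝ) ^ τ')⁻¹ ≤ L / 2 ^ τ' := by
      rw [← one_div]; exact div_le_div_of_nonneg_right hL (by positivity)
    have h6 : 81 * L / 2 ^ τ' = 80 * L / 2 ^ τ' + L / 2 ^ τ' := by ring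
    have h7 : (0 : ℝ) < ((2 : ℝ) ^ τ')⁻¹ := by positivity
    change |q g _ ω t| ≤ _
    rw [nd, q_nd, dg, h6, abs_le]
    constructor <;> linarith [h1.1, h1.2]
  · rw [nd, pf_nd]
    exact ((h.2.2 t (fl1_eq_of_le (Nat.le_add_right j i) ht)).2 a).trans (by linarith)

theorem fn_dg {Λ : Type} {P : FP Ω} (g : Geo 3 Ω) {d : Ω → Qd} {lam : Ω → Λ}
    (h : Fn P d lam) (j τ : ℕ) : Fn P (dg g d j τ) fun ω => (lam ω, g.win j ω) := by
  intro a ha b hb e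
  simp only [Geo.win, Geo.ln, Prod.mk.injEq] at e
  simp only [dg, q, Geo.z0, Geo.lt, h a ha b hb e.1, e.2.1.1, e.2.1.2.1, e.2.2]

theorem fn_nd {Λ : Type} {P : FP Ω} (g : Geo 3 Ω) {d : Ω → Qd} {lam : Ω → Λ}
    (h : Fn P d lam) (j τ : ℕ) : Fn P (nd g d j τ) fun ω => (dg g d j τ ω, lam ω) := by
  intro a ha b hb e
  simp only [Prod.mk.injEq] at e
  simp only [nd, h a ha b hb e.2, e.1]

theorem pf_vec {A : Qd} {Y : V 5} {w : V 3} {L e : ℝ} (h : ∀ i : Fin 4, |pf A Y (bv i.succ)| ≤ L)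
    (hw : ∀ i, |w i| ≤ e) : |pf A Y (vec 0 w)| ≤ 3 * (e * L) := by
  have k : ∀ (m : Fin 3) (i : Fin 4), |w m * pf A Y (bv i.succ)| ≤ e * L := fun m i => by
    rw [abs_mul]
    exact mul_le_mul (hw m) (h i) (abs_nonneg _) ((abs_nonneg _).trans (hw m))
  have k1 : |w 0 * pf A Y (bv 2)| ≤ e * L := k 0 1
  have k2 : |w 1 * pf A Y (bv 3)| ≤ e * L := k 1 2
  have k3 : |w 2 * pf A Y (bv 4)| ≤ e * L := k 2 3
  simp only [vec_eq, pf_add_right, pf_smul_right, zero_mul, zero_add]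
  rw [abs_le] at k1 k2 k3 ⊢
  constructor <;> linarith [k1.1, k1.2, k2.1, k2.2, k3.1, k3.2]

theorem ch_dg {Λ : Type} {P : FP Ω} (g : Geo 3 Ω) {d : Ω → Qd} {lam : Ω → Λ} {L L' : ℝ}
    {j i τ τ' p : ℕ} (hL : 0 ≤ L) (hL' : 0 ≤ L') (hτ : τ' ≤ τ + i) (hp : τ' ≤ p)
    (hz : Fn P g.z g.y) (h : Fn P d lam) (hf : ∀ ω ∈ P.S, g.qd.fit L (d ω) ω j τ)
    (hn : ∀ m ∈ Finset.univ, Near P g.y (fun ω => g.pt ω m) (L' / 2 ^ p)) :
    ch P (dg g d (j + i) τ') (fun ω => (lam ω, g.y ω)) ≤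
      Real.log (2 * (3 * (L * L') + 160 * L) + 3) := by
  refine ch_near1 (by positivity) fun a ha b hb e => ?_
  simp only [Prod.mk.injEq] at e
  have ed := h a ha b hb e.1
  have ez := hz a ha b hb e.2
  have ha1 := move hL hτ (hf a ha) (KPA.fl1_z0 g (j + i) a) rfl
  have hb1 := move hL hτ (hf b hb) (KPA.fl1_z0 g (j + i) b) rfl
  have hq : L' / 2 ^ p ≤ L' / 2 ^ τ' :=
    div_le_div_of_nonneg_left hL' (by positivity) (pow_le_pow_right₀ one_le_two hp)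
  have hw : ∀ m, |(g.pt a - g.pt b) m| ≤ L' / 2 ^ τ' := fun m =>
    (hn m (Finset.mem_univ m) a ha b hb e.2).trans hq
  have e1 : hom (g.z a) (g.lt (g.z a) a) - hom (g.z b) (g.lt (g.z b) b) =
      vec 0 (g.pt a - g.pt b) := by
    rw [sub_eq_iff_eq_add', ← hom_add, add_zero, Geo.pt, Geo.pt, add_sub_cancel, ez]
  have k1 := pf_vec ((hf a ha).2.2 _ rfl).2 hw
  have k2 := pf_vec ((hf b hb).2.2 _ rfl).2 hw
  have k3 := qf_sub_qf (d b) (hom (g.z a) (g.lt (g.z a) a)) (hom (g.z b) (g.lt (g.z b) b))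
  rw [e1] at k3
  have e2 : (3 * (L * L') + 160 * L) / 2 ^ τ' =
      3 * (L' / 2 ^ τ' * L) + 80 * L / 2 ^ τ' + 80 * L / 2 ^ τ' := by ring
  rw [ed] at ha1 k1 ⊢
  change q g (d b) a (g.z a) - q g (d b) b (g.z b) = _ at k3
  rw [e2]
  rw [abs_le] at ha1 hb1 k1 k2 ⊢
  constructor <;> linarith [ha1.1, ha1.2, hb1.1, hb1.2, k1.1, k1.2, k2.1, k2.2]

theorem grow {Ω : ℕ → Type} (P : ∀ n, FP (Ω n)) (g : Gs 3 Ω) (M j i τ : ℕ → ℕ) (hB : Bs P g M)
    (hS : ∀ m, Fat P g M m M) (hτ : ∀ᶠ n in UF, τ n ≤ M n)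
    (h : Thin P g M (fun n => (g n).qd) j τ) :
    Thin P g M (fun n => (g n).qd) (fun n => j n + i n) fun n => min (M n) (τ n + i n) := by
  obtain ⟨Λ, lam, d, L, hl, hL, hf⟩ := h
  obtain ⟨L', hL', hn⟩ := KPA.fat_all P g M M hB.big Finset.univ fun m _ => hS m
  obtain ⟨L₀, -, hb⟩ := hB.bx
  refine ⟨fun n => ℤ × Λ n,
    fun n ω => (dg (g n) (d n) (j n + i n) (min (M n) (τ n + i n)) ω, lam n ω),
    fun n => nd (g n) (d n) (j n + i n) (min (M n) (τ n + i n)), fun n => 81 * L n, ⟨?_, ?_⟩,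
    hL.const_mul hB.big (by norm_num), ?_⟩
  · have h1 := kb.up P g M j (fun n => j n + i n) lam
      (Eventually.of_forall fun n => Nat.le_add_right _ _) hl.h
    refine Sm.mono h1 ?_
    filter_upwards [hf] with n u
    have h2 := (kb.add (P n) (g n) (j n + i n)
      (dg (g n) (d n) (j n + i n) (min (M n) (τ n + i n))) (lam n)).1
    rw [ch_zero (fn_dg (g n) u.1 _ _), add_zero] at h2
    exact h2
  · have h0 : Sub M fun n => 3 * (L n * L' n) + 160 * L n :=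
      ((hL.mul hL').const_mul hB.big (by norm_num)).add (hL.const_mul hB.big (by norm_num)) hB.big
    refine Sm.mono (hl.l.add (h0.log3 hB.big 1)) ?_
    filter_upwards [hf, hn, hb] with n u v w
    have h2 := (kb.add (P n) (g n) (j n + i n)
      (dg (g n) (d n) (j n + i n) (min (M n) (τ n + i n))) (lam n)).2
    have h3 := ch_dg (g n) (hL.pos n).le (hL'.pos n).le (min_le_right (M n) (τ n + i n))
      (min_le_left (M n) (τ n + i n)) w.fz u.1 u.2 v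
    linarith
  · filter_upwards [hf, hτ] with n u v
    exact ⟨fn_nd (g n) u.1 _ _, fun ω hω => fit_nd (g n) (hL.1 n) (min_le_right _ _)
      (le_min v (Nat.le_add_right _ _)) (u.2 ω hω)⟩

end KQA

theorem rowKQ : KQ where
  zero := ⟨_, fun P g L hL h ω hω =>
    KQA.pl g false false _ _ ω 0 0 (by linarith) (kp.zero P g _ _ L h ω hω)⟩
  pl := ⟨fun k d => KQA.lin (KQA.frm k d), KQA.pl⟩
  grow := KQA.grow

end Pool.Agent.MP_5168f5_an.R4
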