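import Pool.Agent.MP_5168f5_an.R4.SpecT

/-! A polynomial at a full point controls the polynomial on the window. -/

namespace Pool.Agent.MP_5168f5_an.R4

open H19 H17S H17F Filter

namespace SprA

section Poly

open Polynomial

/-- The polynomial with coefficients `c`. -/
noncomputable def pol (D : ℕ) (c : ℕ → ℝ) : ℝ[X] := ∑ i ∈ Finset.range (D + 1), monomial i (c i)

theorem pol_eval (D : ℕ) (c : ℕ → ℝ) (t : ℝ) : (pol D c).eval t = ev D c t := by
  simp only [pol, ev, eval_finsetSum, eval_monomial]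

theorem pol_coeff (D : ℕ) (c : ℕ → ℝ) (i : ℕ) :
    (pol D c).coeff i = if i ≤ D then c i else 0 := by
  simp [pol, coeff_monomial]

/-- Lagrange interpolation at separated nodes. -/
theorem lag {ι : Type} [DecidableEq ι] (φ : ℝ[X] →ₗ[ℝ] ℝ) (s : Finset ι) (v : ι → ℝ) {D : ℕ}
    (c : ℕ → ℝ) (hs : s.card = D + 1) {r K m : ℝ} (hr : 0 < r)
    (hv : ∀ i ∈ s, ∀ j ∈ s, i ≠ j → r ≤ |v i - v j|)
    (hK : ∀ i ∈ s, |φ (Lagrange.basis s v i)| ≤ K) (hm : ∀ i ∈ s, |ev D c (v i)| ≤ m) :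
    |φ (pol D c)| ≤ (D + 1) * K * m := by
  have hi : Set.InjOn v s := fun i hi j hj e => by
    by_contra h
    have := hv i hi j hj h
    rw [e, sub_self, abs_zero] at this
    linarith
  have hd : (pol D c).degree < s.card := by
    rw [hs, degree_lt_iff_coeff_zero]
    intro k hk
    rw [pol_coeff, if_neg (by omega)]
  rw [Lagrange.eq_interpolate hi hd, Lagrange.interpolate_apply, map_sum]
  refine (Finset.abs_sum_le_sum_abs _ _).trans
    ((Finset.sum_le_card_nsmul _ _ (K * m) fun i hi => ?_).trans_eq ?_)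
  · rw [← smul_eq_C_mul, map_smul, smul_eq_mul, abs_mul, pol_eval, mul_comm]
    exact mul_le_mul (hK i hi) (hm i hi) (abs_nonneg _) ((abs_nonneg _).trans (hK i hi))
  · rw [hs, nsmul_eq_mul]; push_cast; ring

theorem inv_le {r x : ℝ} (hr : 0 < r) (h : r ≤ |x|) : |x⁻¹| ≤ r⁻¹ := by
  rw [abs_inv]; exact inv_anti₀ hr h

theorem lag_eval {ι : Type} [DecidableEq ι] (s : Finset ι) (v : ι → ℝ) {D : ℕ} (c : ℕ → ℝ)
    (hs : s.card = D + 1) {r w m : ℝ} (hr : 0 < r)
    (hv : ∀ i ∈ s, ∀ j ∈ s, i ≠ j → r ≤ |v i - v j|) (t : ℝ) (ht : ∀ i ∈ s, |t - v i| ≤ w)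
    (hm : ∀ i ∈ s, |ev D c (v i)| ≤ m) : |ev D c t| ≤ (D + 1) * (r⁻¹ * w) ^ D * m := by
  rw [← pol_eval]
  refine lag (leval t) s v c hs hr hv (fun i hi => ?_) hm
  have hc : (s.erase i).card = D := by rw [Finset.card_erase_of_mem hi, hs]; rfl
  rw [leval_apply, Lagrange.basis, eval_prod, Finset.abs_prod, ← hc, ← Finset.prod_const]
  refine Finset.prod_le_prod (fun _ _ => abs_nonneg _) fun j hj => ?_
  obtain ⟨h1, h2⟩ := Finset.mem_erase.1 hj
  rw [Lagrange.basisDivisor, eval_mul, eval_C, eval_sub, eval_X, eval_C, abs_mul]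
  exact mul_le_mul (inv_le hr (hv i hi j h2 h1.symm)) (ht j h2) (abs_nonneg _) (by positivity)

theorem coeff_prod {ι : Type} [DecidableEq ι] (u : Finset ι) (d v : ι → ℝ) {K B : ℝ} (hK : 0 ≤ K)
    (hB : 0 ≤ B) (h : ∀ j ∈ u, |d j| ≤ K ∧ |v j| ≤ B) (i : ℕ) :
    |(∏ j ∈ u, C (d j) * (X - C (v j))).coeff i| ≤ (K * (1 + B)) ^ u.card := by
  induction u using Finset.induction_on generalizing i with
  | empty => rw [Finset.prod_empty, coeff_one]; split_ifs <;> simp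
  | insert a u ha ih =>
    have ih' := ih fun j hj => h j (Finset.mem_insert_of_mem hj)
    obtain ⟨h1, h2⟩ := h a (Finset.mem_insert_self a u)
    rw [Finset.prod_insert ha, Finset.card_insert_of_notMem ha, mul_assoc, coeff_C_mul, abs_mul,
      pow_succ', mul_assoc K]
    refine mul_le_mul h1 ?_ (abs_nonneg _) hK
    generalize (∏ j ∈ u, C (d j) * (X - C (v j))) = q at ih' ⊢
    have h3 : |v a * q.coeff i| ≤ B * (K * (1 + B)) ^ u.card := by
      rw [abs_mul]; exact mul_le_mul h2 (ih' i) (abs_nonneg _) hB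
    have h4 : |(X * q).coeff i| ≤ (K * (1 + B)) ^ u.card := by
      cases i with
      | zero => rw [coeff_X_mul_zero, abs_zero]; positivity
      | succ i => rw [coeff_X_mul]; exact ih' i
    rw [sub_mul, coeff_sub, coeff_C_mul]
    linarith [abs_sub ((X * q).coeff i) (v a * q.coeff i)]

theorem lag_coeff {ι : Type} [DecidableEq ι] (s : Finset ι) (v : ι → ℝ) {D : ℕ} (c : ℕ → ℝ)
    (hs : s.card = D + 1) {r B m : ℝ} (hr : 0 < r) (hB : 0 ≤ B)
    (hv : ∀ i ∈ s, ∀ j ∈ s, i ≠ j → r ≤ |v i - v j|) (hb : ∀ i ∈ s, |v i| ≤ B)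
    (hm : ∀ i ∈ s, |ev D c (v i)| ≤ m) {k : ℕ} (hk : k ≤ D) :
    |c k| ≤ (D + 1) * (r⁻¹ * (1 + B)) ^ D * m := by
  have h := lag (lcoeff ℝ k) s v c hs hr hv (K := (r⁻¹ * (1 + B)) ^ D) (fun i hi => ?_) hm
  · rwa [lcoeff_apply, pol_coeff, if_pos hk] at h
  have hc : (s.erase i).card = D := by rw [Finset.card_erase_of_mem hi, hs]; rfl
  rw [lcoeff_apply, Lagrange.basis, ← hc]
  exact coeff_prod _ (fun j => (v i - v j)⁻¹) v (by positivity) hB (fun j hj =>
    ⟨inv_le hr (hv i hi j (Finset.mem_erase.1 hj).2 (Finset.mem_erase.1 hj).1.symm),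
      hb j (Finset.mem_erase.1 hj).2⟩) k

end Poly

/-- A set without `D + 1` separated points is covered by `D` short intervals. -/
theorem cover {r : ℝ} (hr : 0 < r) (D : ℕ) (A : ℝ → Prop)
    (h : ∀ s : Finset ℝ, s.card = D + 1 → (∀ x ∈ s, A x) →
      ¬∀ x ∈ s, ∀ y ∈ s, x ≠ y → r ≤ |x - y|) :
    ∃ s : Finset ℝ, s.card ≤ D ∧ ∀ x, A x → ∃ y ∈ s, |x - y| ≤ r := by
  classical
  induction D generalizing A with
  | zero => exact ⟨∅, le_rfl, fun x hx => (h {x} rfl (by simpa using hx) (by simp)).elim⟩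
  | succ D ih =>
    by_cases h0 : ∃ y, A y
    swap
    · exact ⟨∅, by simp, fun x hx => (h0 ⟨x, hx⟩).elim⟩
    obtain ⟨y, hy⟩ := h0
    obtain ⟨s, h1, h2⟩ := ih (fun x => A x ∧ r ≤ |x - y|) fun s hs hA hsep => by
      have hy' : y ∉ s := fun k => by
        have := (hA y k).2
        rw [sub_self, abs_zero] at this
        linarith
      refine h (insert y s) (by rw [Finset.card_insert_of_notMem hy', hs]) (fun x hx => ?_)
        fun x hx z hz hne => ?_
      · rcases Finset.mem_insert.1 hx with rfl | hx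
        exacts [hy, (hA x hx).1]
      · rcases Finset.mem_insert.1 hx with e | hx <;> rcases Finset.mem_insert.1 hz with e' | hz
        · exact (hne (e.trans e'.symm)).elim
        · rw [abs_sub_comm, e]; exact (hA z hz).2
        · rw [e']; exact (hA x hx).2
        · exact hsep x hx z hz hne
    refine ⟨insert y s, (Finset.card_insert_le _ _).trans (by omega), fun x hx => ?_⟩
    by_cases k : r ≤ |x - y|
    · obtain ⟨z, hz, e⟩ := h2 x ⟨hx, k⟩
      exact ⟨z, Finset.mem_insert_of_mem hz, e⟩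
    · exact ⟨y, Finset.mem_insert_self _ _, (not_le.1 k).le⟩

/-- The bad points of a window lie in few cells. -/
theorem bad (D a b : ℕ) (c : ℕ → ℝ) (q : ℤ) {L : ℝ} (hL : 0 < L) : ∃ T : Finset ℤ,
    (T.card : ℝ) ≤ D * (2 * (2 ^ b / 2 ^ a / L) + 3) ∧ ∀ x : ℝ, fl1 a x = q →
      (¬∀ t : ℝ, fl1 a t = fl1 a x → |ev D c t| ≤ (D + 1) * L ^ D * |ev D c x|) → fl1 b x ∈ T := by
  classical
  have hr : (0 : ℝ) < (2 ^ a * L)⁻¹ := by positivity
  obtain ⟨s, h1, h2⟩ := cover hr D (fun x => fl1 a x = q ∧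
      ¬∀ t : ℝ, fl1 a t = fl1 a x → |ev D c t| ≤ (D + 1) * L ^ D * |ev D c x|) fun s hs hA hsep => by
    obtain ⟨x, hx, hm⟩ := s.exists_max_image (fun x => |ev D c x|) (Finset.card_pos.1 (by omega))
    refine (hA x hx).2 fun t ht => ?_
    have h := lag_eval s id c hs hr hsep t (w := (2 ^ a)⁻¹) (fun y hy =>
      (abs_sub_lt_of_fl1_eq (ht.trans ((hA x hx).1.trans (hA y hy).1.symm))).le) hm
    rwa [show ((2 : ℝ) ^ a * L)⁻¹⁻¹ * (2 ^ a)⁻¹ = L by field_simp] at h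
  have hB : (0 : ℝ) ≤ 2 ^ b / 2 ^ a / L := by positivity
  choose T hT1 hT2 using fun y : ℝ => cells_near (ι := Unit) b (fun _ => y) hB
  refine ⟨s.biUnion fun y => (T y).image fun u => u (), ?_, fun x hx hb => ?_⟩
  · have h3 : ∀ y ∈ s, ((((T y).image fun u => u ()).card : ℕ) : ℝ) ≤
        2 * (2 ^ b / 2 ^ a / L) + 3 := fun y _ => by
      have h4 := hT1 y
      rw [Fintype.card_unit, pow_one] at h4
      exact le_trans (by exact_mod_cast Finset.card_image_le) h4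
    have h5 := Finset.sum_le_card_nsmul _ _ _ h3
    have h6 : (s.card : ℝ) ≤ D := by exact_mod_cast h1
    rw [nsmul_eq_mul] at h5
    refine le_trans ?_ (h5.trans (mul_le_mul_of_nonneg_right h6 (by positivity)))
    exact_mod_cast Finset.card_biUnion_le
  · obtain ⟨y, hy, e⟩ := h2 x ⟨hx, hb⟩
    refine Finset.mem_biUnion.2 ⟨y, hy, Finset.mem_image.2 ⟨_, hT2 y (fun _ => x) ?_, rfl⟩⟩
    rw [pi_norm_le_iff_of_nonneg (by positivity)]
    intro _
    rw [show (2 : ℝ) ^ b / 2 ^ a / L / 2 ^ b = (2 ^ a * L)⁻¹ by field_simp]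
    exact e

theorem win {Ω Λ : ℕ → Type} (P : ∀ n, FP (Ω n)) (x : ∀ n, Ω n → ℝ) (κ : ∀ n, Ω n → Λ n)
    (C : ∀ n, Ω n → ℕ → ℝ) (M a b : ℕ → ℕ) (D : ℕ) (ε : ℝ) (hM : Big M) (hε : 0 < ε)
    (h : ∀ᶠ n in UF, a n + ε * M n ≤ b n ∧ Fn (P n) (C n) fun ω => (fl1 (a n) (x n ω), κ n ω))
    (hf : Le M (fun n => (b n - a n : ℝ) * lg) fun n => ch (P n) (fun ω => fl1 (b n) (x n ω))
      fun ω => (fl1 (a n) (x n ω), κ n ω)) :
    ∃ L, Sub M L ∧ Whp P fun n ω => ∀ t : ℝ, fl1 (a n) t = fl1 (a n) (x n ω) →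
      |ev D (C n ω) t| ≤ L n * |ev D (C n ω) (x n ω)| := by
  have hD : (1 : ℝ) ≤ D + 1 := by linarith [(Nat.cast_nonneg D : (0 : ℝ) ≤ D)]
  obtain ⟨L, hL, hW⟩ := ks.wsub P (fun n ω L => ∀ t : ℝ, fl1 (a n) t = fl1 (a n) (x n ω) →
      |ev D (C n ω) t| ≤ (D + 1) * L ^ D * |ev D (C n ω) (x n ω)|) M fun c hc _ => by
    have h0 := ks.spw P (fun n ω => ¬∀ t : ℝ, fl1 (a n) t = fl1 (a n) (x n ω) →
        |ev D (C n ω) t| ≤ (D + 1) * Real.exp (c * M n) ^ D * |ev D (C n ω) (x n ω)|)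
      (fun n ω => fl1 (b n) (x n ω)) (fun n ω => (fl1 (a n) (x n ω), κ n ω)) M
      (fun n => 2 ^ b n / 2 ^ a n) (fun _ => 5 * (D + 1)) (min c (ε * lg)) hM
      (hM.sub (by linarith)) (lt_min hc (mul_pos hε lg_pos))
      (hf.congr (Eventually.of_forall fun n => by
        rw [Real.log_div (by positivity) (by positivity), log_two_pow, log_two_pow]; ring)
        (Eventually.of_forall fun _ => rfl)) ?_
    · simpa only [not_not] using h0
    filter_upwards [h] with n ⟨h1, h2⟩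
    have m0 : (0 : ℝ) ≤ M n := Nat.cast_nonneg _
    have hab : a n ≤ b n := by
      have : (a n : ℝ) ≤ b n := by nlinarith
      exact_mod_cast this
    have hB : (2 : ℝ) ^ b n / 2 ^ a n = 2 ^ (b n - a n) := (pow_sub₀ _ two_ne_zero hab).symm
    refine ⟨by positivity, fun ω _ => ?_, fun ω hω => ?_⟩
    · refine ⟨Finset.Ico (2 ^ (b n - a n) * fl1 (a n) (x n ω))
        (2 ^ (b n - a n) * fl1 (a n) (x n ω) + 2 ^ (b n - a n)), ?_, fun ω' _ e => ?_⟩
      · rw [Int.card_Ico, add_sub_cancel_left, hB, show ((2 : ℤ) ^ (b n - a n)) =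
          ((2 ^ (b n - a n) : ℕ) : ℤ) by push_cast; rfl, Int.toNat_natCast]
        push_cast
        nlinarith [(by positivity : (0 : ℝ) < 2 ^ (b n - a n))]
      · have h3 := fl1_mem_Ico (i := b n - a n) (Prod.ext_iff.1 e).1
        rwa [Nat.add_sub_cancel' hab] at h3
    · obtain ⟨T, h3, h4⟩ := bad D (a n) (b n) (C n ω) (fl1 (a n) (x n ω)) (Real.exp_pos (c * M n))
      refine ⟨T, h3.trans ?_, fun ω' hω' e k => h4 _ (Prod.ext_iff.1 e).1 (h2 ω' hω' ω hω e ▸ k)⟩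
      have e1 : (2 : ℝ) ^ b n / 2 ^ a n / Real.exp (c * M n) ≤
          2 ^ b n / 2 ^ a n * Real.exp (-(min c (ε * lg) * M n)) := by
        rw [div_eq_mul_inv _ (Real.exp _), ← Real.exp_neg]
        exact mul_le_mul_of_nonneg_left (Real.exp_le_exp.2 (neg_le_neg
          (mul_le_mul_of_nonneg_right (min_le_left _ _) m0))) (by positivity)
      have e2 : 1 ≤ (2 : ℝ) ^ b n / 2 ^ a n * Real.exp (-(min c (ε * lg) * M n)) := by
        rw [hB, two_pow_eq, ← Real.exp_add, Nat.cast_sub hab]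
        refine Real.one_le_exp ?_
        nlinarith [mul_le_mul_of_nonneg_right (min_le_right c (ε * lg)) m0, lg_pos]
      rw [mul_assoc (5 * _ : ℝ)]
      nlinarith
  exact ⟨fun n => (D + 1) * L n ^ D, (hL.pow D).const_mul hM hD, hW⟩

/-- Equally spaced nodes in the window. -/
theorem coef0 {D a : ℕ} {c : ℕ → ℝ} {x B m : ℝ} (hB : 1 ≤ B) (hx : |x| ≤ B)
    (h : ∀ t : ℝ, fl1 a t = fl1 a x → |ev D c t| ≤ m) {k : ℕ} (hk : k ≤ D) :
    |c k| ≤ (D + 1) * ((D + 1) * 3 * B) ^ D * (2 ^ a) ^ D * m := by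
  have hD : (0 : ℝ) < D + 1 := by positivity
  have hw : ∀ j ∈ Finset.range (D + 1),
      fl1 a (((fl1 a x : ℝ) + j / (D + 1)) / 2 ^ a) = fl1 a x := fun j hj => by
    have h1 : (j : ℝ) < D + 1 := by exact_mod_cast Finset.mem_range.1 hj
    rw [fl1, mul_div_cancel₀ _ (by positivity), Int.floor_intCast_add,
      Int.floor_eq_zero_iff.2 ⟨by positivity, (div_lt_one hD).2 h1⟩, add_zero]
  have h0 := lag_coeff (Finset.range (D + 1)) (fun j : ℕ => ((fl1 a x : ℝ) + j / (D + 1)) / 2 ^ a)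
    c (Finset.card_range _) (r := ((D + 1) * 2 ^ a)⁻¹) (B := B + 1) (by positivity) (by linarith)
    (fun i _ j _ hne => ?_) (fun j hj => ?_) (fun j hj => h _ (hw j hj)) hk
  · have hm : 0 ≤ m := (abs_nonneg _).trans (h x rfl)
    refine h0.trans (mul_le_mul_of_nonneg_right ?_ hm)
    rw [mul_assoc, ← mul_pow, inv_inv]
    refine mul_le_mul_of_nonneg_left (pow_le_pow_left₀ (by positivity) ?_ _) hD.le
    nlinarith [(by positivity : (0 : ℝ) < (D + 1) * 2 ^ a)]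
  · have h1 : (1 : ℝ) ≤ |(i : ℝ) - j| := by
      have : (1 : ℤ) ≤ |(i : ℤ) - j| := Int.one_le_abs (by omega)
      exact_mod_cast this
    rw [show ((fl1 a x : ℝ) + i / (D + 1)) / 2 ^ a - ((fl1 a x : ℝ) + j / (D + 1)) / 2 ^ a =
      ((i : ℝ) - j) * ((D + 1) * 2 ^ a : ℝ)⁻¹ by field_simp; ring, abs_mul,
      abs_of_pos (a := ((D + 1) * 2 ^ a : ℝ)⁻¹) (by positivity)]
    exact le_mul_of_one_le_left (by positivity) h1
  · have h1 := abs_sub_lt_of_fl1_eq (hw j hj)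
    have h2 : ((2 : ℝ) ^ a)⁻¹ ≤ 1 := inv_le_one_of_one_le₀ (one_le_pow₀ one_le_two)
    have h3 := abs_sub_abs_le_abs_sub (((fl1 a x : ℝ) + j / (D + 1)) / 2 ^ a) x
    linarith

end SprA

open SprA in
theorem rowSpr : Spr where
  win := win
  coef P x κ C M a b L₀ D ε hM hε hL₀ hx h hf := by
    obtain ⟨L, hL, hW⟩ := win P x κ C M a b D ε hM hε h hf
    have hD : (1 : ℝ) ≤ D + 1 := by linarith [(Nat.cast_nonneg D : (0 : ℝ) ≤ D)]
    refine ⟨fun n => (D + 1) * ((D + 1) * 3 * L₀ n) ^ D * L n,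
      (((hL₀.const_mul hM (C := (D + 1) * 3) (by linarith)).pow D).const_mul hM hD).mul hL,
      (hx.and hW).mono (Eventually.of_forall fun n ω _ k i hi => ?_)⟩
    exact (coef0 (hL₀.1 n) k.1 k.2 hi).trans_eq (by ring)
  fit P g lam C M j D ε hB hk hε h := by
    have hj : ∀ᶠ n in UF, min (j n) (M n) = j n := h.mono fun n k => by
      have : (j n : ℝ) ≤ M n := by nlinarith [k.1, (Nat.cast_nonneg (M n) : (0 : ℝ) ≤ M n)]
      exact min_eq_left (by exact_mod_cast this)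
    have h1 := kb.hgt P g M (fun n => min (j n) (M n)) (fun n => min (j n) (M n)) M lam hB
      (kb.up P g M j _ lam (hj.mono fun _ k => k.ge) hk) fun n => ⟨le_rfl, min_le_right _ _, le_rfl⟩
    refine win P (fun n => (g n).z) (fun n ω => ((g n).ln ω, lam n ω)) C M j M D ε hB.big hε
      (h.mono fun n k => ⟨k.1, k.2.trans fun a _ b _ e => ?_⟩)
      (h1.congr (hj.mono fun n k => by simp only [k]) (hj.mono fun n k => by simp only [k]))
    simp only [Geo.win, Prod.mk.injEq] at e ⊢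
    exact ⟨⟨e.2.1, e.1⟩, e.2.2⟩

end Pool.Agent.MP_5168f5_an.R4
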