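import Pool.Agent.MP_5168f5_an.R4.SpecT

/-! Kakeya sets in four dimensions: the quadric profile is at the floor. -/

namespace Pool.Agent.MP_5168f5_an.R4

open H19 H17S H17F Filter MeasureTheory

namespace TF2A

open Set

/-- An expanding map that sends almost all points of an interval into `B`. -/
theorem expand {f : ℝ → ℝ} {a b : ℝ} {B : Set ℝ}
    (hf : ∀ x ∈ Ioo a b, ∀ y ∈ Ioo a b, x ≤ y → y - x ≤ f y - f x)
    (hB : ∀ᵐ x : ℝ, x ∈ Ioo a b → f x ∈ B) : ENNReal.ofReal (b - a) ≤ volume B := by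
  have d : ∀ x ∈ Ioo a b, ∀ y ∈ Ioo a b, dist x y ≤ dist (f x) (f y) := fun x hx y hy => by
    rw [Real.dist_eq, Real.dist_eq]
    rcases le_total x y with h | h
    · rw [abs_sub_comm, abs_of_nonneg (sub_nonneg.2 h), abs_sub_comm]
      exact (hf x hx y hy h).trans (le_abs_self _)
    · rw [abs_of_nonneg (sub_nonneg.2 h)]
      exact (hf y hy x hx h).trans (le_abs_self _)
  have i : LeftInvOn (Function.invFunOn f (Ioo a b)) f (Ioo a b) :=
    InjOn.leftInvOn_invFunOn fun x hx y hy e => dist_le_zero.1 (by simpa [e] using d x hx y hy)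
  have l : LipschitzOnWith 1 (Function.invFunOn f (Ioo a b)) (B ∩ f '' Ioo a b) := by
    refine LipschitzOnWith.of_dist_le_mul ?_
    rintro _ ⟨-, x, hx, rfl⟩ _ ⟨-, y, hy, rfl⟩
    rw [i hx, i hy, NNReal.coe_one, one_mul]
    exact d x hx y hy
  have m := l.hausdorffMeasure_image_le zero_le_one
  simp only [hausdorffMeasure_real, ENNReal.coe_one, ENNReal.one_rpow, one_mul] at m
  rw [← Real.volume_Ioo]
  exact (measure_mono_ae (hB.mono fun x k hx => ⟨f x, ⟨k hx, x, hx, rfl⟩, i hx⟩)).trans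
    (m.trans (measure_mono inter_subset_left))

theorem main {f : ℝ → ℝ} {B : Set ℝ} (hm : Monotone f) (hb : ∀ c, 0 ≤ f c ∧ f c ≤ 1)
    (he : ∀ c c', 0 ≤ c → c ≤ c' → c' ≤ 1 → min 1 (f c + (c' - c)) ≤ f c')
    (hN : ∀ γ : ℝ, 0 < γ → ∃ X₀ : ℝ, 0 < X₀ ∧ ∀ X, 0 < X → X ≤ X₀ →
      volume (B ∩ Icc (1 - X) 1) ≤ ENNReal.ofReal (γ * X))
    (hE : ∀ s, 0 < s → s < 1 → (∀ c, s < c → f c = 1) →
      ∃ C : ℝ, 0 < C ∧ ∀ W₀ : ℝ, 0 < W₀ → ∃ W, 0 < W ∧ W ≤ W₀ ∧ 1 - f (s - W) ≤ C * W)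
    (hS : ∀ᵐ c : ℝ, 0 < c → c < 1 → f c < 1 → f c ∈ B) {c : ℝ} (hc : 0 < c) : f c = 1 := by
  by_contra k
  have k' : c ∈ {x | f x < 1} := (hb c).2.lt_of_ne k
  have lo : ∀ x, 0 ≤ x → x ≤ 1 → x ≤ f x := fun x a b =>
    (le_min b (by linarith [(hb 0).1])).trans (he 0 x le_rfl a b)
  have u : 1 ∈ upperBounds {x | f x < 1} := fun x hx => le_of_not_gt fun h =>
    ((lo 1 zero_le_one le_rfl).trans (hm h.le)).not_gt hx
  obtain ⟨s, hs⟩ := Real.exists_isLUB ⟨c, k'⟩ ⟨1, u⟩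
  have s0 := hc.trans_le (hs.1 k')
  have s1 := hs.2 u
  have lt : ∀ x, x < s → f x < 1 := fun x hx =>
    have ⟨y, a, b, _⟩ := hs.exists_between hx
    (hm b.le).trans_lt a
  obtain ⟨C, C0, hC⟩ : ∃ C : ℝ, 0 < C ∧ ∀ W₀ : ℝ, 0 < W₀ →
      ∃ W, 0 < W ∧ W ≤ W₀ ∧ 1 - f (s - W) ≤ C * W := by
    rcases s1.eq_or_lt with rfl | h
    · refine ⟨1, one_pos, fun W h => ⟨min W 1, lt_min h one_pos, min_le_left _ _, ?_⟩⟩
      linarith [lo (1 - min W 1) (sub_nonneg.2 (min_le_right _ _))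
        (sub_le_self _ (lt_min h one_pos).le)]
    · exact hE s s0 h fun x hx => by_contra fun e => (hs.1 ((hb x).2.lt_of_ne e)).not_gt hx
  obtain ⟨X, X0, hX⟩ := hN (1 / (2 * C)) (by positivity)
  obtain ⟨W, W0, W1, W2⟩ := hC (min (X / C) s) (by positivity)
  have W3 := W1.trans (min_le_right _ _)
  have a := hX (C * W) (by positivity) ((le_div_iff₀' C0).1 (W1.trans (min_le_left _ _)))
  have b := expand (f := f) (a := s - W) (b := s) (B := B ∩ Icc (1 - C * W) 1)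
    (fun x hx y hy h => by
      have := (min_le_iff.1 (he x y (by linarith [hx.1]) h (hy.2.le.trans s1))).resolve_left
        (lt y hy.2).not_ge
      linarith)
    (hS.mono fun x h hx => ⟨h (by linarith [hx.1]) (hx.2.trans_le s1) (lt x hx.2),
      by linarith [hm hx.1.le], (hb x).2⟩)
  have d := (ENNReal.ofReal_le_ofReal_iff (by positivity)).1 (b.trans a)
  rw [show 1 / (2 * C) * (C * W) = W / 2 by field_simp] at d
  linarith

end TF2A

theorem rowTF2 : OfTF2 := by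
  intro hP hE hS Ω K g M η F φ ε₀ c h e0 e1 hN hc
  have P := hP K g M η F h.toGo
  exact TF2A.main (P.mono iQ) (P.bd iQ) (P.exp iQ)
    (fun γ hγ => (hN γ hγ).imp fun _ a => ⟨a.1, fun X u v => (a.2 X u v).1⟩)
    (fun s => hE K g M η F φ ε₀ s h e0 e1 hN) (hS K g M η F φ ε₀ h e0 e1) hc

end Pool.Agent.MP_5168f5_an.R4
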