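import Pool.Agent.MP_5168f5_an.R4.SpecT

/-! Kakeya sets in four dimensions: below the best quadric thickness the point is full. -/

namespace Pool.Agent.MP_5168f5_an.R4

open H19 H17S H17F Filter

theorem rowThmF : OfThmF := by
  intro hPR hGo hFl h0 h2 Ω K g M j b η X hC hB hj hb hN hX
  by_contra hc
  have hM : Big M := (hC.bs X hX).big
  obtain ⟨K', φ, M', ε₀, β, cl, ne, sub, fr, e0, e1, hβ, hbβ, ng, step, bd, ex⟩ :=
    h0 K g M b X hC.cl hM hb hX hc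
  obtain ⟨C1, B1, N1⟩ := hFl K g M M' 0 η fr hC
  obtain ⟨Ω', π, K'', F, sub', go⟩ := hGo K' g M' η
    ⟨⟨cl.toCl0, C1.pos, fun X h => C1.bs X (sub X h), fun X h => C1.br X (sub X h)⟩, cl.cf, ne⟩
    fun ε hε => (B1 hB ε hε).imp fun a h => ⟨h.1, fun X hX => h.2 X (sub X hX)⟩
  obtain ⟨-, c, c0, hc⟩ := hj
  have e2 := ((hPR _ _ _ _ F go).eqv iQ c).2
  rw [h2 _ _ _ _ F φ ε₀ c ⟨go, step, bd, fun X hX => ex (X.map π) (sub' X hX)⟩ e0 e1 ng c0] at e2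
  obtain ⟨Y, hY⟩ := go.cls.ne
  obtain ⟨⟨L, hL, alg⟩, lab⟩ := go.opt.ok Y hY
  have hl : ∀ᶠ n in UF, lev M' c n ≤ j n := hc.mono fun n a => Nat.cast_le.1
    ((lev_le' M' c0.le n).trans
      ((mul_le_mul_of_nonneg_left (Nat.cast_le.2 (fr.1 n)) c0.le).trans a))
  have e3 := N1 (fun n => (g n).qd) j b (fun n => qd_ok (g.fin M' n)) hN (Y.map π)
    (fun n => (F n).τ iQ (lev M' c n)) (sub _ (sub' Y hY)) (alg.mono fun n a => a.le iQ _)
    ⟨_, _, fun n v => (F n).d iQ (lev M' c n) ((Y n).ρ v), L,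
      ⟨kb.up _ _ _ _ _ _ hl (lab (lev M' c)).h, (lab (lev M' c)).l⟩, hL,
      (alg.and hl).mono fun n a => ⟨a.1.fd iQ _, fun ω hω =>
        (qd_ok (g n)).monoj _ _ _ _ _ _ a.2 (a.1.fit iQ _ ω hω)⟩⟩
  exact absurd (Le.num (hM.frac fr) ((e2.trans e3).trans hbβ)) (not_le.2 hβ)

end Pool.Agent.MP_5168f5_an.R4
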