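import Pool.Agent.MP_5168f5_an.R4.SpecT

/-! Kakeya sets in four dimensions: the rescaled window is a broad class. -/

namespace Pool.Agent.MP_5168f5_an.R4

open H19 H17S H17F Filter

namespace WzCA

section Fin

variable {N N' : ℕ} {Ω Λ β : Type} {P : FP Ω} (g : Geo N Ω) (j : ℕ)
  (B : Ω → Matrix (Fin N') (Fin N) ℝ) (lam : Ω → Λ)

/-- The cell of the left end point of the window. -/
noncomputable def u (ω : Ω) : Z N := fl j (g.lt (g.z0 j ω) ω)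

theorem scale (A : Matrix (Fin N') (Fin N) ℝ) (x c : V N) :
    ((2 : ℝ) ^ j • A).mulVec (x - ((2 : ℝ) ^ j)⁻¹ • c) = A.mulVec ((2 : ℝ) ^ j • x - c) := by
  rw [Matrix.smul_mulVec, ← Matrix.mulVec_smul, smul_sub, smul_smul,
    mul_inv_cancel₀ (by positivity), one_smul]

theorem wz_e (ω : Ω) : (g.wz j B lam).e ω = (B ω).mulVec (g.e ω) := by
  change ((2 : ℝ) ^ j • B ω).mulVec (((2 : ℝ) ^ j)⁻¹ • g.e ω - 0) = _
  rw [sub_zero, Matrix.smul_mulVec, ← Matrix.mulVec_smul, smul_smul,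
    mul_inv_cancel₀ (by positivity), one_smul]

theorem wz_a (ω : Ω) : (g.wz j B lam).a ω =
    (B ω).mulVec ((2 : ℝ) ^ j • g.lt (g.z0 j ω) ω - cz (u g j ω)) := scale j _ _ _

theorem wz_pt (ω : Ω) : (g.wz j B lam).pt ω =
    (B ω).mulVec ((2 : ℝ) ^ j • g.pt ω - cz (u g j ω)) := by
  refine (ka.lt g j _ _ _ _ _ ω _).trans ?_
  rw [ka.z, smul_zero, sub_zero]
  exact scale j _ _ _

variable {g j B lam} {L L₀ : ℝ} {ω : Ω}

theorem bd (h : ∀ a b, |B ω a b| ≤ L) (h1 : 1 ≤ L) (h2 : 1 ≤ L₀) (he : ∀ i, |g.e ω i| ≤ L₀)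
    (i : Fin N') : |(g.wz j B lam).a ω i| ≤ (N + 1) * (L * L₀) ∧
      |(g.wz j B lam).e ω i| ≤ (N + 1) * (L * L₀) := by
  rw [wz_a, wz_e]
  have k1 := abs_mulVec_le h (B := L₀)
    (v := (2 : ℝ) ^ j • g.lt (g.z0 j ω) ω - cz (u g j ω)) (fun b => by
      rw [Pi.sub_apply, abs_sub_comm]; exact (abs_fl1_sub j _).trans h2) i
  have k2 := abs_mulVec_le h he i
  rw [Fintype.card_fin] at k1 k2
  have : 0 ≤ L * L₀ := by positivity
  constructor <;> nlinarith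

theorem near_mul {A : Matrix (Fin N') (Fin N) ℝ} (h : ∀ a b, |A a b| ≤ L) (h1 : 1 ≤ L) {x y : V N}
    {k : ℕ} (e : fl k x = fl k y) : ‖A.mulVec (x - y)‖ ≤ (N + 1) * L / 2 ^ k := by
  refine (norm_mulVec_le (by linarith) h _).trans ?_
  rw [Fintype.card_fin, div_eq_mul_inv]
  exact mul_le_mul (by nlinarith) (norm_sub_lt_of_fl_eq e).le (norm_nonneg _) (by positivity)

theorem near_lt (he : ∀ i, |g.e ω i| ≤ L₀) (h2 : 1 ≤ L₀) :
    ‖g.lt (g.z0 j ω) ω - g.pt ω‖ ≤ L₀ / 2 ^ j := by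
  have e : g.lt (g.z0 j ω) ω - g.pt ω = (g.z0 j ω - g.z ω) • g.e ω := by
    simp only [Geo.pt, Geo.lt]; module
  have h3 : |g.z0 j ω - g.z ω| ≤ ((2 : ℝ) ^ j)⁻¹ := by
    have a := fl1_le j (g.z ω)
    have b := lt_fl1 j (g.z ω)
    rw [abs_le, Geo.z0]; constructor <;> linarith [show (0 : ℝ) < ((2 : ℝ) ^ j)⁻¹ by positivity]
  rw [e, norm_smul, div_eq_inv_mul]
  exact mul_le_mul h3 ((pi_norm_le_iff_of_nonneg (by linarith)).2 he) (norm_nonneg _)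
    (by positivity)

theorem near_u {a b : Ω} (ha : ∀ i, |g.e a i| ≤ L₀) (hb : ∀ i, |g.e b i| ≤ L₀) (h2 : 1 ≤ L₀)
    {k : ℕ} (hk : j ≤ k) (e : fl k (g.pt a) = fl k (g.pt b)) :
    ‖g.lt (g.z0 j a) a - g.lt (g.z0 j b) b‖ ≤ 3 * L₀ / 2 ^ j := by
  have h3 := (norm_sub_lt_of_fl_eq (fl_eq_of_le hk e)).le
  have h4 := near_lt (j := j) ha h2
  have h5 := near_lt (j := j) hb h2
  have h6 := norm_sub_le_norm_sub_add_norm_sub (g.lt (g.z0 j a) a) (g.pt a) (g.lt (g.z0 j b) b)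
  have h7 := norm_sub_le_norm_sub_add_norm_sub (g.pt a) (g.pt b) (g.lt (g.z0 j b) b)
  rw [norm_sub_rev] at h5
  have h8 : ((2 : ℝ) ^ j)⁻¹ ≤ L₀ / 2 ^ j := by
    rw [inv_eq_one_div]; exact div_le_div_of_nonneg_right h2 (by positivity)
  rw [mul_div_assoc]
  linarith

theorem near_pt {a b : Ω} (h : ∀ c d, |B a c d| ≤ L) (h1 : 1 ≤ L) (eB : B a = B b)
    (eu : u g j a = u g j b) {k : ℕ} (e : fl (j + k) (g.pt a) = fl (j + k) (g.pt b)) :
    ‖(g.wz j B lam).pt a - (g.wz j B lam).pt b‖ ≤ (N + 1) * L / 2 ^ k := by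
  rw [wz_pt, wz_pt, ← eB, eu, ← Matrix.mulVec_sub, sub_sub_sub_cancel_right, ← smul_sub,
    Matrix.mulVec_smul, norm_smul, Real.norm_of_nonneg (by positivity)]
  refine (mul_le_mul_of_nonneg_left (near_mul h h1 e) (by positivity)).trans (le_of_eq ?_)
  rw [pow_add]; field_simp

theorem hk_le (g : Geo N Ω) (j : ℕ) (lam : Ω → Λ) : g.hk P j (g.wc j lam) ≤ g.hk P j lam := by
  refine mi_mono' fun a _ b _ e => ?_
  simp only [Geo.win, Geo.ln, Prod.mk.injEq] at e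
  simp only [Geo.wc, Geo.lt, Geo.z0, e]

theorem fn_z (g : Geo N Ω) (j : ℕ) (B : Ω → Matrix (Fin N') (Fin N) ℝ) (lam : Ω → Λ)
    (r : Fin N' → ℕ) : Fn P (fun ω => (g.z ω, g.wc j lam ω)) ((g.wz j B lam).fp r) := by
  intro a _ b _ e
  have e1 : Int.fract (2 ^ j * g.z a) = Int.fract (2 ^ j * g.z b) := congrArg (·.2.1) e
  have e2 : g.wc j lam a = g.wc j lam b := congrArg (·.2.2) e
  have e3 : fl1 j (g.z a) = fl1 j (g.z b) := congrArg (·.2.2.1) e2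
  refine Prod.ext ?_ e2
  change g.z a = g.z b
  rw [← ka.z g j a, ← ka.z g j b, e1, Geo.z0, Geo.z0, e3]

theorem y_le (g : Geo N Ω) (j : ℕ) (B : Ω → Matrix (Fin N') (Fin N) ℝ) (lam : Ω → Λ) (k m : ℕ) :
    ch P ((g.wz j B lam).fp fun _ => k) (fun ω => (lam ω, g.fp (fun _ => m) ω)) ≤
      ch P (u g j) (fun ω => (lam ω, g.fp (fun _ => m) ω)) +
        ch P (fun ω => flv k ((g.wz j B lam).pt ω))
          fun ω => (u g j ω, lam ω, g.fp (fun _ => m) ω) := by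
  refine (ch_tri _ (u g j) _).trans (add_le_add le_rfl (ch_mono fun a _ b _ e => ?_))
  simp only [Geo.fp, Prod.mk.injEq] at e
  refine Prod.ext e.1 (Prod.ext ?_ (Prod.ext e.2.2.1 (Prod.ext e.2.2.2.2.2 (Prod.ext ?_ e.2.1))))
  · exact congrArg (fun z => Int.fract (2 ^ j * z)) e.2.2.2.2.1
  · exact congrArg (fl1 j) e.2.2.2.2.1

theorem brd_le (g : Geo N Ω) (lam : Ω → Λ) {γ : Type} (w : Ω → γ) (y : Ω → β) (i : Fin N)
    (a b : ℕ) : ch P (fun ω => fl1 b (g.e ω i)) (fun ω => (fl a (g.e ω), g.y ω)) ≤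
      ch P (fun ω => fl1 b (g.e ω i)) (fun ω => (w ω, y ω)) + g.lk P lam +
        ch P w (fun ω => (lam ω, fl a (g.e ω), g.y ω)) + ch P y fun ω => (lam ω, g.y ω) := by
  have h1 := ch_le_mi (P := P) (F := fun ω => fl1 b (g.e ω i)) (G := lam)
    (K := fun ω => (fl a (g.e ω), g.y ω)) (Fn.rfl _)
  have h2 : mi P (fun ω => fl1 b (g.e ω i)) lam (fun ω => (fl a (g.e ω), g.y ω)) ≤
      g.lk P lam := by
    rw [mi_symm]
    exact mi_right (Fn.snd _ _)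
      ((((Fn.comp (fl a) g.e).trans (KBA.fn_e_core g)).left _).pair (Fn.snd _ _))
      (((Fn.comp (fun v : V N => fl1 b (v i)) g.e).trans (KBA.fn_e_core g)).left _)
  have h3 := ch_tri' (P := P) (fun ω => fl1 b (g.e ω i))
    (fun ω => (lam ω, fl a (g.e ω), g.y ω)) fun ω => (w ω, y ω)
  have h4 := ch_subadd (P := P) w y fun ω => (lam ω, fl a (g.e ω), g.y ω)
  have h5 : ch P y (fun ω => (lam ω, fl a (g.e ω), g.y ω)) ≤ ch P y fun ω => (lam ω, g.y ω) :=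
    ch_anti ((Fn.fst _ _).pair ((Fn.snd _ _).right _))
  linarith

end Fin

section Seq

variable {N N' : ℕ} {Ω Λ : ℕ → Type} {P : ∀ n, FP (Ω n)} {g : Gs N Ω} {M j M' : ℕ → ℕ}
  {lam : ∀ n, Ω n → Λ n} {B : ∀ n, Ω n → Matrix (Fin N') (Fin N) ℝ} {L : ℕ → ℝ}

theorem one_le (N : ℕ) : (1 : ℝ) ≤ N + 1 := by linarith [Nat.cast_nonneg (α := ℝ) N]

theorem bs (hs : Bs P (g.fin M) M) (hl : Hk P (g.fin M) M j lam) (hj : ∀ n, j n + M' n = M n)
    (hM : Frac M' M) (hL : Sub M L) (hf : ∀ᶠ n in UF, Fn (P n) (B n) (lam n))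
    (hb : ∀ᶠ n in UF, ∀ v ∈ (P n).S, ∀ a b, |B n v a b| ≤ L n) :
    Bs P (Gs.fin (fun n => (g n).wz (j n) (B n) (lam n)) M') M' := by
  obtain ⟨L₀, h1, h2⟩ := hs.bx
  refine bsAff P (g.fin M) M M' j (fun n ω => (2 : ℝ) ^ j n • B n ω)
    (fun n ω => ((2 : ℝ) ^ j n)⁻¹ • cz (u (g n) (j n) ω)) (fun _ _ => 0)
    (fun n => (g n).wc (j n) (lam n))
    (fun n => ((g n).wz (j n) (B n) (lam n)).fp fun _ => M' n) _ hs
    (Sm.mono hl (Eventually.of_forall fun n => hk_le (g.fin M n) (j n) (lam n))) hM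
    (fun n => (hj n).le) ((hL.mul h1).const_mul hs.big (one_le N)) ?_
  filter_upwards [h2, hf, hb] with n a b c
  refine ⟨fun v hv w hw e => ?_, fn_z (g n) _ _ _ _, fun ω hω i =>
    bd (g := g n) (lam := lam n) (c ω hω) (hL.1 n) (h1.1 n) (fun i => ((a.bd ω hω).1 i).2) i⟩
  have e1 := b v hv w hw (congrArg (·.1) e)
  have e2 : u (g n) (j n) v = u (g n) (j n) w := congrArg (·.2.2.2) e
  exact Prod.ext (congrArg (·.2.1) e) (Prod.ext (congrArg (·.2.2.1) e) (by simp only [e1, e2]))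

theorem sm_y (hs : Bs P (g.fin M) M) (hj : ∀ n, j n + M' n = M n) (hL : Sub M L)
    (hf : ∀ᶠ n in UF, Fn (P n) (B n) (lam n))
    (hb : ∀ᶠ n in UF, ∀ v ∈ (P n).S, ∀ a b, |B n v a b| ≤ L n) :
    Sm M fun n => ch (P n) (((g n).wz (j n) (B n) (lam n)).fp fun _ => M' n) fun ω =>
      (lam n ω, (g n).fp (fun _ => M n) ω) := by
  obtain ⟨L₀, h1, h2⟩ := hs.bx
  refine (Sm.add (Sm.near (x := fun n ω => (g n).lt ((g n).z0 (j n) ω) ω) (j := j) hs.big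
    (h1.const_mul hs.big (C := 3) (by norm_num)) ?_)
    (Sm.near hs.big (hL.const_mul hs.big (one_le N)) ?_)).mono
    (Eventually.of_forall fun n => y_le (g n) (j n) (B n) (lam n) (M' n) (M n))
  · filter_upwards [h2] with n a v hv w hw e
    exact near_u (fun i => ((a.bd v hv).1 i).2) (fun i => ((a.bd w hw).1 i).2) (h1.1 n)
      (k := M n) (by have := hj n; omega) (congrArg (·.2.1) e)
  · filter_upwards [hf, hb] with n b c v hv w hw e
    exact near_pt (c v hv) (hL.1 n) (b v hv w hw (congrArg (·.2.1) e)) (congrArg (·.1) e)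
      (by rw [hj n]; exact congrArg (·.2.2.1) e)

theorem sm_e (hM : Big M) (hL : Sub M L) (hf : ∀ᶠ n in UF, Fn (P n) (B n) (lam n))
    (hb : ∀ᶠ n in UF, ∀ v ∈ (P n).S, ∀ a b, |B n v a b| ≤ L n) (α : ℕ → ℕ) {Y : ℕ → Type}
    (y : ∀ n, Ω n → Y n) :
    Sm M fun n => ch (P n) (fun ω => fl (α n) (((g n).wz (j n) (B n) (lam n)).e ω)) fun ω =>
      (lam n ω, fl (α n) ((g n).e ω), y n ω) := by
  refine Sm.near (x := fun n => ((g n).wz (j n) (B n) (lam n)).e) hM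
    (hL.const_mul hM (one_le N)) ?_
  filter_upwards [hf, hb] with n b c v hv w hw e
  refine (congrArg norm (congrArg₂ (· - ·) (wz_e (g n) (j n) (B n) (lam n) v)
    (wz_e (g n) (j n) (B n) (lam n) w))).trans_le ?_
  rw [← b v hv w hw (congrArg (·.1) e), ← Matrix.mulVec_sub]
  exact near_mul (c v hv) (hL.1 n) (congrArg (·.2.1) e)

end Seq

theorem e0 {N N' : ℕ} {Ω Λ : Type} (g : Geo (N + 1) Ω) (j : ℕ)
    {B : Ω → Matrix (Fin (N' + 1)) (Fin (N + 1)) ℝ} (lam : Ω → Λ) {ω : Ω}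
    (h : ∀ b, B ω 0 b = if b = 0 then 1 else 0) : (g.wz j B lam).e ω 0 = g.e ω 0 := by
  rw [wz_e]
  simp [Matrix.mulVec, dotProduct, h]

theorem arith (a : ℝ) {b c d e f : ℝ} (h : b ≤ c + d + e + f) :
    a - c ≤ a - b + (d - 0) + (e - 0) + (f - 0) := by linarith

end WzCA

open WzCA in
theorem rowWzC : WzC := by
  intro N N' Ω Λ K g M j M' η X lam B L hC hB hj hM hL h0 hX
  have big : Big M := (hC.bs _ hX.1).big
  have cl : Cl (KW K g M j X lam B L) := (hC.cl.map fun n => (X n).ρ).and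
    ((kc2.lab (X.G (g.fin M)) M j lam big).and ((kc1.fn B lam).and
      (kc1.sure fun n v => ∀ a b, |B n v a b| ≤ L n)))
  have y := fun (X' : Mb X.W) (h : KW K g M j X lam B L X') =>
    sm_y (g := X'.G (X.G g)) (hC.bs _ h.1) hj hL h.2.2.1 h.2.2.2
  refine ⟨⟨⟨cl.toCl0, hC.pos, fun X' h =>
    bs (g := X'.G (X.G g)) (hC.bs _ h.1) h.2.1.h hj hM hL h.2.2.1 h.2.2.2, fun X' h α hα => ?_⟩,
    cl.cf, _, hX⟩, fun ε hε => ?_⟩
  · refine (Le.frac (kb.brc X'.P _ M _ _ 0 η (hC.br _ h.1) h.2.1.l (y X' h) α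
      fun n => (hα n).trans (hM.1 n)) hM).trans (Le.of_le fun n => le_of_eq ?_)
    exact congrArg (ch _ · _) (funext fun v =>
      congrArg (fl1 (α n)) (e0 (X.G g n) (j n) (lam n) (h0 n _)).symm)
  · obtain ⟨a₀, ha, H⟩ := hB ε hε
    refine ⟨a₀, ha, fun X' h α β hαβ => Le.frac (Le.of4 (H _ h.1 α β fun n => ⟨(hαβ n).1,
      (hαβ n).2.trans (mul_le_mul_of_nonneg_left (by exact_mod_cast hM.1 n) ha.le)⟩) h.2.1.l
      (sm_e (g := X'.G (X.G g)) (j := j) big hL h.2.2.1 h.2.2.2 α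
        fun n => (X'.G (X.G (g.fin M)) n).y)
      (y X' h) (Eventually.of_forall fun n => ?_)) hM⟩
    have k := brd_le (P := (X' n).Q) (X'.G (X.G (g.fin M)) n) (fun v => lam n ((X' n).ρ v))
      (fun v => fl (α n) ((X'.G (Gs.fin (fun n => (X.G g n).wz (j n) (B n) (lam n)) M') n).e v))
      (X'.G (Gs.fin (fun n => (X.G g n).wz (j n) (B n) (lam n)) M') n).y 0 (α n) (β n)
    have e : (fun v => fl1 (β n)
        ((X'.G (Gs.fin (fun n => (X.G g n).wz (j n) (B n) (lam n)) M') n).e v 0)) =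
        fun v => fl1 (β n) ((X'.G (X.G (g.fin M)) n).e v 0) := funext fun v =>
      congrArg (fl1 (β n)) (e0 (X.G g n) (j n) (lam n) (h0 n _))
    rw [e]
    exact arith _ k

end Pool.Agent.MP_5168f5_an.R4
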