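import Pool.Agent.MP_5168f5_an.R4.SpecT

/-! Shapes in the rescaled window are shapes of the original system. -/

namespace Pool.Agent.MP_5168f5_an.R4

open H19 H17S H17F Matrix

namespace WzSA

theorem fr {j : ℕ} {t z : ℝ} (h : fl1 j t = fl1 j z) :
    Int.fract ((2 : ℝ) ^ j * t) = 2 ^ j * t - fl1 j z := by
  rw [← h]; rfl

theorem lt {N N' : ℕ} {Ω K : Type} (g : Geo N Ω) (j : ℕ) (B : Ω → Matrix (Fin N') (Fin N) ℝ)
    (κ : Ω → K) (ω : Ω) (t : ℝ) :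
    (g.wz j B κ).lt (2 ^ j * t - fl1 j (g.z ω)) ω =
      B ω *ᵥ ((2 : ℝ) ^ j • g.lt t ω - cz (fl j (g.lt (g.z0 j ω) ω))) := by
  have h0 : (2 : ℝ) ^ j ≠ 0 := by positivity
  have e : g.z0 j ω + ((2 : ℝ) ^ j)⁻¹ * (2 ^ j * t - fl1 j (g.z ω)) = t := by
    unfold Geo.z0
    field_simp
    ring
  rw [ka.lt, e, smul_zero, sub_zero, smul_mulVec, ← mulVec_smul, smul_sub, smul_inv_smul₀ h0]

/-- The affine map in homogeneous coordinates. -/
def T (s m : ℝ) (u : V 3) : Qd :=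
  !![1, 0, 0, 0, 0; -m, s, 0, 0, 0; -u 0, 0, s, 0, 0; -u 1, 0, 0, s, 0; -u 2, 0, 0, 0, s]

theorem T_hom (s m t : ℝ) (u y : V 3) : T s m u *ᵥ hom t y = hom (s * t - m) (s • y - u) := by
  funext i
  fin_cases i <;> simp [T, hom, mulVec, dotProduct, Fin.sum_univ_five] <;> ring

theorem T_bv (s m : ℝ) (u : V 3) (i : Fin 4) : T s m u *ᵥ bv i.succ = s • bv i.succ := by
  funext a
  fin_cases i <;> fin_cases a <;> simp [T, bv]

theorem bil (r : ℝ) (A T : Qd) (Y W : V 5) :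
    Y ⬝ᵥ (r • (Tᵀ * A * T)) *ᵥ W = r * ((T *ᵥ Y) ⬝ᵥ A *ᵥ (T *ᵥ W)) := by
  rw [smul_mulVec, dotProduct_smul, smul_eq_mul, ← mulVec_mulVec, ← mulVec_mulVec,
    dotProduct_mulVec, vecMul_transpose]

theorem pf_T (r : ℝ) (A T : Qd) (Y W : V 5) :
    pf (r • (Tᵀ * A * T)) Y W = r * pf A (T *ᵥ Y) (T *ᵥ W) := by
  simp only [pf, bil, mul_add]

theorem qf_T (r : ℝ) (A T : Qd) (Y : V 5) : qf (r • (Tᵀ * A * T)) Y = r * qf A (T *ᵥ Y) :=
  bil r A T Y Y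

theorem sc {x L : ℝ} {j τ : ℕ} (h : |x| ≤ L / 2 ^ τ) :
    |((2 : ℝ) ^ j)⁻¹ * x| ≤ L / 2 ^ (j + τ) := by
  rw [abs_mul, abs_of_pos (by positivity : 0 < ((2 : ℝ) ^ j)⁻¹), pow_add, mul_comm (2 ^ j : ℝ),
    ← div_div, div_eq_inv_mul (L / 2 ^ τ)]
  exact mul_le_mul_of_nonneg_left h (by positivity)

end WzSA

open WzSA in
theorem rowWzS : WzS where
  pl := by
    refine ⟨fun j k G w d => (((2 : ℝ) ^ j)⁻¹ * (w.2 (co k) - G * w.2 (co (!k)) + d.1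
      - d.2.1 * w.1 - d.2.2 0 * w.2 0), d.2.1,
      fun i => if i = 0 then d.2.2 0 else if i = co (!k) then G else 0), ?_⟩
    intro Ω K g j j₁ τ b k G κ L L' d ω hG hb hL ⟨h1, h2, h3⟩
    refine ⟨h1, fun i => ⟨?_, fun hi => ?_⟩, fun t ht => ?_⟩
    · dsimp only
      split_ifs
      exacts [(h2 0).1, hG.trans hL, by simpa using (abs_nonneg _).trans h1]
    · cases b
      · have : i ≠ 0 := by simpa [sS] using hi
        simp [this, hb rfl]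
      · have : i ≠ 0 ∧ i ≠ co (!k) := by simpa [sS] using hi
        simp [this.1, this.2]
    · obtain ⟨e1, e2⟩ := (ka.fl j j₁ _ _).1 ht
      have h4 := h3 _ e2
      rw [fr e1, lt, Fin.sum_univ_two, (h2 1).2 (by simp)] at h4
      have h0 : (2 : ℝ) ^ j ≠ 0 := by positivity
      convert sc (j := j) h4 using 2
      cases k <;>
        simp [mS, co, mulVec, dotProduct, Fin.sum_univ_three, cz, Geo.wc] <;> field_simp <;> ring
  qd := by
    refine ⟨fun j w A => ((2 : ℝ) ^ j)⁻¹ •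
      ((T (2 ^ j) w.1 (cz w.2))ᵀ * A * T (2 ^ j) w.1 (cz w.2)), ?_⟩
    intro Ω K g j j₁ τ κ L A ω ⟨h1, h2, h3⟩
    have h0 : (0 : ℝ) < 2 ^ j := by positivity
    have hg : ∀ (t : ℝ) (i : Fin 4), pf (((2 : ℝ) ^ j)⁻¹ •
        ((T (2 ^ j) (g.wc j κ ω).2.2.1 (cz (g.wc j κ ω).2.2.2))ᵀ * A *
          T (2 ^ j) (g.wc j κ ω).2.2.1 (cz (g.wc j κ ω).2.2.2))) (hom t (g.lt t ω)) (bv i.succ)
        = pf A (hom (2 ^ j * t - fl1 j (g.z ω)) ((g.wz j (fun _ => 1) κ).lt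
          (2 ^ j * t - fl1 j (g.z ω)) ω)) (bv i.succ) := fun t i => by
      rw [pf_T, T_hom, T_bv, pf_smul_right, inv_mul_cancel_left₀ h0.ne', lt, one_mulVec]
      rfl
    refine ⟨fun i k => ?_, ?_, fun t ht => ?_⟩
    · rw [pf_T, T_bv, T_bv, pf_smul_right, inv_mul_cancel_left₀ h0.ne', pf_smul_left, abs_mul,
        abs_of_pos h0, pow_add, mul_div_assoc]
      exact mul_le_mul_of_nonneg_left (h1 i k) h0.le
    · have e3 := hg (g.z ω) 2
      have e4 := hg (g.z ω) 3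
      rw [← fr rfl] at e3 e4
      exact h2.imp (fun h => (congrArg abs e3).symm ▸ h) fun h => (congrArg abs e4).symm ▸ h
    · obtain ⟨e1, e2⟩ := (ka.fl j j₁ _ _).1 ht
      have h4 := h3 _ e2
      rw [fr e1] at h4
      refine ⟨?_, fun i => (hg t i).symm ▸ h4.2 i⟩
      rw [qf_T, T_hom]
      have h5 := h4.1
      rw [lt, one_mulVec] at h5
      exact sc h5

end Pool.Agent.MP_5168f5_an.R4
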