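import Pool.Agent.MP_5168f5_an.R4.SpecT

/-! A thin shape in the rescaled window comes with a label of the original system. -/

namespace Pool.Agent.MP_5168f5_an.R4

open H19 H17S H17F Filter

namespace WzTA

variable {N N' : ℕ}

theorem ok_pull {Ω Ω' : Type} {s : Shp Ω} {g : Geo N Ω} (h : s.OK g) (f : Ω' → Ω) :
    (s.pull f).OK (g.pull f) :=
  ⟨fun L L' d v => h.monoL L L' d (f v), fun L d v => h.monoj L d (f v),
    fun L d v v' => h.core L d (f v) (f v')⟩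

section One

variable {Ω Λ : Type} {P : FP Ω} {g : Geo N Ω} {j m m' : ℕ} {L : ℝ} {a b : Ω}

theorem near_pt (e : g.fp (fun _ => m) a = g.fp (fun _ => m) b) :
    ‖g.pt a - g.pt b‖ ≤ ((2 : ℝ) ^ m)⁻¹ :=
  (norm_sub_lt_of_fl_eq (j := m) (congrArg Prod.fst e)).le

theorem near_lt (hj : j ≤ m) (hL : 1 ≤ L) (ha : ∀ i, |g.e a i| ≤ L) (hb : ∀ i, |g.e b i| ≤ L)
    (e : g.fp (fun _ => m) a = g.fp (fun _ => m) b) :
    ‖g.lt (g.z0 j a) a - g.lt (g.z0 j b) b‖ ≤ 3 * L / 2 ^ j := by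
  have ez : g.z a = g.z b := congrArg (·.2.1) e
  have e1 : g.lt (g.z0 j a) a - g.lt (g.z0 j b) b =
      (g.pt a - g.pt b) + (g.z0 j a - g.z a) • (g.e a - g.e b) := by
    simp only [Geo.pt, Geo.lt, Geo.z0, ← ez]
    module
  have h0 : (0 : ℝ) < ((2 : ℝ) ^ j)⁻¹ := by positivity
  have h1 : ((2 : ℝ) ^ m)⁻¹ ≤ ((2 : ℝ) ^ j)⁻¹ :=
    inv_anti₀ (by positivity) (pow_le_pow_right₀ one_le_two hj)
  have h2 : |g.z0 j a - g.z a| ≤ ((2 : ℝ) ^ j)⁻¹ := by
    have u := fl1_le j (g.z a)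
    have w := lt_fl1 j (g.z a)
    rw [abs_le, Geo.z0]
    constructor <;> linarith
  have h3 : ‖g.e a - g.e b‖ ≤ 2 * L :=
    (pi_norm_le_iff_of_nonneg (by linarith)).2 fun i => by
      have u := abs_le.1 (ha i)
      have w := abs_le.1 (hb i)
      rw [Real.norm_eq_abs, Pi.sub_apply, abs_le]
      constructor <;> linarith [u.1, u.2, w.1, w.2]
  have h4 := mul_le_mul h2 h3 (norm_nonneg _) h0.le
  rw [e1, div_eq_mul_inv]
  refine (norm_add_le _ _).trans ?_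
  rw [norm_smul, Real.norm_eq_abs]
  nlinarith [near_pt e]

variable {B : Ω → Matrix (Fin N') (Fin N) ℝ} {lam : Ω → Λ}

theorem pt_wz (a : Ω) : (g.wz j B lam).pt a = ((2 : ℝ) ^ j • B a).mulVec
    (g.pt a - ((2 : ℝ) ^ j)⁻¹ • cz (fl j (g.lt (g.z0 j a) a))) := by
  refine (ka.lt g j _ _ _ _ _ a _).trans ?_
  rw [ka.z, smul_zero, sub_zero]
  rfl

theorem near_wz (hj : j + m' = m) (hL : 0 ≤ L) (hB : ∀ i k, |B a i k| ≤ L) (eB : B a = B b)
    (ew : g.wc j lam a = g.wc j lam b) (e : g.fp (fun _ => m) a = g.fp (fun _ => m) b) :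
    ‖(g.wz j B lam).pt a - (g.wz j B lam).pt b‖ ≤ (N + 1) * L / 2 ^ m' := by
  have e1 : fl j (g.lt (g.z0 j a) a) = fl j (g.lt (g.z0 j b) b) := congrArg (·.2.2.2) ew
  rw [pt_wz, pt_wz, ← eB, e1, ← Matrix.mulVec_sub, sub_sub_sub_cancel_right, Matrix.smul_mulVec,
    norm_smul, Real.norm_eq_abs, abs_of_pos (by positivity)]
  have h1 := (norm_mulVec_le hL hB (g.pt a - g.pt b)).trans
    (mul_le_mul_of_nonneg_left (near_pt e) (by positivity))
  refine (mul_le_mul_of_nonneg_left h1 (by positivity)).trans ?_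
  rw [← hj, pow_add, Fintype.card_fin, le_div_iff₀ (by positivity)]
  field_simp
  nlinarith

theorem fn_wz (i : ℕ) (hB : Fn P B lam) :
    Fn P ((g.wz j B lam).fat fun _ => m').core
        (fun ω => ((g.fat fun _ => m).core ω, g.wc j lam ω)) ∧
      Fn P (((g.wz j B lam).fat fun _ => m').win i)
        fun ω => (g.wc j lam ω, (g.fat fun _ => m).win (j + i) ω) := by
  have h1 : Fn P (fun ω => ((2 : ℝ) ^ j • B ω,
      ((2 : ℝ) ^ j)⁻¹ • cz (fl j (g.lt (g.z0 j ω) ω)), (0 : V N))) (g.wc j lam) :=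
    fun a ha b hb e => by
      have e1 : fl j (g.lt (g.z0 j a) a) = fl j (g.lt (g.z0 j b) b) := congrArg (·.2.2.2) e
      simp only [hB a ha b hb (congrArg Prod.fst e), e1]
  have h2 := (ka.fn P (g.fat fun _ => m) j i _ _ _ (g.wc j lam) (fun _ => ()) h1
    fun _ _ _ _ _ => rfl).1
  refine ka.fn P (g.fat fun _ => m) j i _ _ _ (g.wc j lam) _ h1 ?_
  exact (Fn.comp (fun c : (V N' × V N' × Λ × g.T × ℤ × Z N) × ℝ × Unit =>
    (fun t => fl1 m' ((c.1.1 + c.2.1 • c.1.2.1) t), c.2.1, c.1.2.2)) _).trans h2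

end One

variable {Ω Λ : ℕ → Type} {P : ∀ n, FP (Ω n)} {g : Gs N Ω} {M j M' j₁ : ℕ → ℕ}
  {lam : ∀ n, Ω n → Λ n} {B : ∀ n, Ω n → Matrix (Fin N') (Fin N) ℝ} {L : ℕ → ℝ}

theorem lab_wc (hb : Bs P (g.fin M) M) (hj : ∀ n, j n ≤ M n) (hl : Lab P (g.fin M) M j lam) :
    Lab P (g.fin M) M (fun n => j n + j₁ n) fun n => (g n).wc (j n) (lam n) := by
  obtain ⟨L, hL, e⟩ := hb.bx
  refine ⟨kb.up P _ M j _ _ (Eventually.of_forall fun n => Nat.le_add_right _ _)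
    (hl.h.mono (Eventually.of_forall fun n => mi_mono' fun a _ b _ e => ?_)), ?_⟩
  · simp only [Geo.win, Geo.ln, Prod.mk.injEq] at e
    simp only [Geo.wc, Geo.z0, Geo.lt, e.1, e.2.1.1, e.2.1.2.1, e.2.1.2.2, e.2.2]
  · have h1 := Sm.near (P := P) (x := fun n ω => (g n).lt ((g n).z0 (j n) ω) ω)
      (G := fun n => (g.fin M n).y) (j := j) hb.big (hL.const_mul hb.big (C := 3) (by norm_num))
      (e.mono fun n c a ha b hb' u => near_lt (hj n) (hL.1 n) (fun i => ((c.bd a ha).1 i).2)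
        (fun i => ((c.bd b hb').1 i).2) u)
    refine (hl.l.add h1).mono (Eventually.of_forall fun n => ?_)
    have h2 := (kb.add (P n) (g.fin M n) 0 ((g n).wc (j n) (lam n)) (lam n)).2
    have h3 : (g.fin M n).lk (P n) ((g n).wc (j n) (lam n)) ≤ _ :=
      mi_mono' ((Fn.fst _ (lam n)).left _)
    refine (h3.trans h2).trans (add_le_add le_rfl (ch_le (fun a _ b _ u => ?_) (Fn.snd _ _)))
    simp only [Geo.fp, Prod.mk.injEq] at u
    exact Prod.ext u.2.1 (Prod.ext u.2.2.2.2 (Prod.ext (congrArg (fl1 (j n)) u.2.2.2.1) u.1))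

theorem sm_y (hM : Big M) (hj : ∀ n, j n + M' n = M n) (hL : Sub M L)
    (hB : ∀ᶠ n in UF, Fn (P n) (B n) (lam n))
    (hB' : ∀ᶠ n in UF, ∀ v ∈ (P n).S, ∀ a b, |B n v a b| ≤ L n) :
    Sm M fun n => ch (P n) (Gs.fin (fun n => (g n).wz (j n) (B n) (lam n)) M' n).y fun ω =>
      ((g n).wc (j n) (lam n) ω, (g.fin M n).y ω) := by
  have h1 := Sm.near (P := P) (x := fun n => ((g n).wz (j n) (B n) (lam n)).pt)
    (G := fun n ω => ((g n).wc (j n) (lam n) ω, (g.fin M n).y ω)) (j := M') hM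
    (hL.const_mul hM (C := N + 1) (by simp))
    ((hB.and hB').mono fun n c a ha b hb u => near_wz (hj n) (hL.pos n).le (c.2 a ha)
      (c.1 a ha b hb (congrArg (·.1.1) u)) (congrArg Prod.fst u) (congrArg Prod.snd u))
  refine h1.mono (Eventually.of_forall fun n => ch_mono fun a _ b _ u => ?_)
  have e1 : (g n).z a = (g n).z b := congrArg (·.2.2.2.1) u
  have e2 := congrArg Prod.fst u
  have e3 := congrArg (·.2.1) u
  exact Prod.ext e2 (Prod.ext (congrArg (fun t : ℝ => Int.fract (2 ^ j n * t)) e1) e3)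

end WzTA

open WzTA in
theorem rowWzT : WzT := by
  intro N N' Ω Λ K g M j M' j₁ τ X lam B L s X' hK hb hj hf hL hs ⟨h1, h2, h3, h4⟩
    ⟨Λ₁, l₁, d₁, L₁, t1, t2, t3⟩
  have hb' : Bs X'.P (Gs.fin (X'.G (X.G g)) M) M := hb _ h1
  obtain ⟨Λ', lam', d, L', u1, u2, u3⟩ := thinLift X'.P (X'.G (X.G (g.fin M)))
    (X'.G (Gs.fin (fun n => (X.G g n).wz (j n) (B n) (lam n)) M')) M (fun n => j n + j₁ n) j₁ τ
    (fun n v => (X.G g n).wc (j n) (lam n) ((X' n).ρ v)) (fun n => (s n).pull (X' n).ρ)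
    (fun n => ok_pull (hs n) _)
    (lab_wc (g := X'.G (X.G g)) hb' (fun n => (Nat.le_add_right _ _).trans (hj n).le) h2)
    (h3.mono fun n c => fn_wz (g := X'.G (X.G g) n) (j₁ n) c)
    (sm_y (g := X'.G (X.G g)) hb'.big hj hL h3 h4)
    ⟨Λ₁, l₁, d₁, L₁, ⟨Le.up t1.h hf.1, Le.up t1.l hf.1⟩, t2.up hf.1, t3⟩
  refine ⟨X'.ext _ fun _ => Prod.fst, Λ', lam', d, L', ⟨?_, ?_, ?_, ?_⟩, u1, u2, u3⟩
  · exact (hK.map fun n => (X n).ρ).fst h1 _
  · exact (kc2.lab (X.G (g.fin M)) M j lam hb'.big).toCl0.fst h2 _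
  · exact (kc1.fn B lam).toCl0.fst h3 _
  · exact (kc1.sure fun n v => ∀ a b, |B n v a b| ≤ L n).toCl0.fst h4 _

end Pool.Agent.MP_5168f5_an.R4
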