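import Pool.Agent.MP_5168f5_an.R4.SpecT

/-! The uniform form of the fill in one coordinate. -/

namespace Pool.Agent.MP_5168f5_an.R4

open H19 H17S H17F Filter

namespace XAUA

/-- The data of a label on a refinement, with three levels. -/
structure Dat (V : Type) (m : ℕ) : Type 1 where
  W : Type
  Λ : Type
  Q : FP W
  f : W → V
  lam : W → Λ
  j : ℕ
  a : ℕ
  b : ℕ
  h : j ≤ a ∧ a ≤ b ∧ b ≤ m

end XAUA

open XAUA in
theorem rowXAU : XAU := by
  intro N Ω K g M i η X C ε hK hX ⟨L, l1, l2⟩ hε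
  have : ∀ n, Nonempty (Dat (X n).W (M n)) := fun n =>
    ⟨⟨_, Unit, (X n).Q, id, fun _ => (), 0, 0, 0, le_rfl, le_rfl, Nat.zero_le _⟩⟩
  obtain ⟨δ, hδ, h⟩ := unif2 (A := fun n => Dat (X n).W (M n))
    (h := fun n a δ => (((X.G g n).pull a.f).hk a.Q a.j a.lam ≤ δ * M n ∧
      ((X.G g n).pull a.f).lk a.Q a.lam ≤ δ * M n) ∧ K31.Dn C a.Q a.f (X n).Q)
    (p := fun n a => (a.b - a.a : ℝ) * lg ≤
      ch a.Q (fun v => fl1 a.b (((X.G g n).pull a.f).pt v i)) (fun v =>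
        (fl1 a.a (((X.G g n).pull a.f).pt v i), a.lam v, ((X.G g n).pull a.f).zt v)) + ε * M n)
    (fun n a δ δ' e h =>
      have e' := mul_le_mul_of_nonneg_right e (Nat.cast_nonneg (α := ℝ) (M n))
      ⟨⟨h.1.1.trans e', h.1.2.trans e'⟩, h.2⟩)
    fun a h => by
      have h1 := (h 1 one_pos).mono fun n c => c.2
      refine xa K g M (fun n => (a n).j) (fun n => (a n).a) (fun n => (a n).b) i η
        (X.ext (fun n => (a n).Q) fun n => (a n).f) (fun n => (a n).lam) hK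
        (hK.cl0.dn hX ⟨C, h1.exists.choose_spec.one_le, h1⟩)
        ⟨fun δ hδ => (h δ hδ).mono fun n c => c.1.1.trans_eq (zero_add _).symm,
          fun δ hδ => (h δ hδ).mono fun n c => c.1.2.trans_eq (zero_add _).symm⟩
        ⟨L, l1, ?_⟩ (fun n => (a n).h) ε hε
      filter_upwards [h1, l2] with n c e u hu v hv huv
      refine (e _ (c.mem hu) _ (c.mem hv) huv).trans ?_
      exact div_le_div_of_nonneg_left (zero_le_one.trans (l1.1 n)) (by positivity)
        (pow_le_pow_right₀ one_le_two (a n).h.2.2)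
  exact ⟨δ, hδ, h.mono fun n c W Λ Q f lam j a b a1 a2 a3 a4 a5 a6 =>
    c ⟨W, Λ, Q, f, lam, j, a, b, a4, a5, a6⟩ ⟨⟨a2, a3⟩, a1⟩⟩

end Pool.Agent.MP_5168f5_an.R4
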