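import Pool.Agent.MP_5168f5_an.R4.XPR
import Pool.Agent.MP_5168f5_an.R4.XKQ
import Pool.Agent.MP_5168f5_an.R4.XWzS
import Pool.Agent.MP_5168f5_an.R4.XWzC
import Pool.Agent.MP_5168f5_an.R4.XWzT
import Pool.Agent.MP_5168f5_an.R4.XFB
import Pool.Agent.MP_5168f5_an.R4.XFQ
import Pool.Agent.MP_5168f5_an.R4.XFBU
import Pool.Agent.MP_5168f5_an.R4.XXAU
import Pool.Agent.MP_5168f5_an.R4.XGoE
import Pool.Agent.MP_5168f5_an.R4.XFlr
import Pool.Agent.MP_5168f5_an.R4.XTF0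
import Pool.Agent.MP_5168f5_an.R4.XTF2
import Pool.Agent.MP_5168f5_an.R4.XThmF
import Pool.Agent.MP_5168f5_an.R4.XSpr

/-! Kakeya sets in four dimensions: the top level glue. -/

namespace Pool.Agent.MP_5168f5_an.R4

theorem kq : KQ := rowKQ
theorem prK : PR := rowPR kq
theorem wzS : WzS := rowWzS
theorem wzC : WzC := rowWzC
theorem wzT : WzT := rowWzT
theorem xau : XAU := rowXAU
theorem goE : GoE := rowGoE kq
theorem flr : Flr := rowFlr
theorem spr : Spr := rowSpr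
theorem fb_of (h : ThmU) : FB := rowFB wzC wzT wzS h
theorem fbu_of (h : ThmU) : FBU := rowFBU (fb_of h)
theorem fq_of (h : ThmF) : FQ := rowFQ wzC wzT wzS h

theorem thmF_of (h : ExtF) (h' : SatF) : ThmF :=
  rowThmF prK goE flr rowTF0 (rowTF2 prK h h')

theorem noBR_of (h : EndA) : NoBR 2 := fun _ K g M η hK hB hD => by
  obtain ⟨Ω', π, K', F, h1, h2⟩ := goE K g M η hK hB
  exact h K' _ M η F h2 fun X hX => hD _ (h1 X hX)

end Pool.Agent.MP_5168f5_an.R4
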