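import Pool.Agent.MP_5168f5_an.R4.SpecTW
import Pool.Agent.MP_5168f5_an.R4.KitT

/-! The slopes of the hyperplanes in `u` at two levels. -/

namespace Pool.Agent.MP_5168f5_an.R4.T8

open H19 H17S H17F Filter Matrix Tan

namespace GStepx

theorem sub_up {M mm : ℕ → ℕ} (h : Sm M fun n => mm n) {L : ℕ → ℝ} (hL : Sub mm L) : Sub M L :=
  ⟨hL.1, fun ε hε => by
    filter_upwards [h 1 one_pos, hL.2 ε hε] with n h1 h2
    refine h2.trans (Real.exp_le_exp.2 (mul_le_mul_of_nonneg_left ?_ hε.le))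
    linarith⟩

theorem om_add {M a b : ℕ → ℕ} (ha : OM M a) (hb : OM M b) : OM M fun n => a n + b n := by
  obtain ⟨C, hC⟩ := ha
  obtain ⟨C', hC'⟩ := hb
  refine ⟨C + C', ?_⟩
  filter_upwards [hC, hC'] with n h1 h2
  rw [add_mul]; omega

theorem om_self (M : ℕ → ℕ) : OM M M := ⟨1, Eventually.of_forall fun n => by simp⟩

theorem om_le {M a b : ℕ → ℕ} (hb : OM M b) (h : ∀ᶠ n in UF, a n ≤ b n) : OM M a := by
  obtain ⟨C, hC⟩ := hb
  exact ⟨C, by filter_upwards [hC, h] with n h1 h2 using h2.trans h1⟩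

theorem fl1_add (j : ℕ) (z s : ℝ) (h0 : 0 ≤ s) (h1 : s < 1) :
    fl1 j (rd j z + ((2 : ℝ) ^ j)⁻¹ * s) = fl1 j z := by
  have h : (2 : ℝ) ^ j ≠ 0 := by positivity
  have e : (2 : ℝ) ^ j * (rd j z + ((2 : ℝ) ^ j)⁻¹ * s) = (fl1 j z : ℝ) + s := by
    rw [rd]; field_simp
  rw [fl1, e, Int.floor_eq_iff]
  constructor <;> linarith

theorem abs_rd (j : ℕ) (x : ℝ) : |x - rd j x| ≤ 1 / 2 ^ j := by
  have h : (0 : ℝ) < 2 ^ j := by positivity
  have e : x - rd j x = -((fl1 j x : ℝ) - 2 ^ j * x) / 2 ^ j := by rw [rd]; field_simp; ring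
  rw [e, abs_div, abs_neg, abs_of_pos h]
  exact div_le_div_of_nonneg_right (abs_fl1_sub j x) h.le

theorem slope {A B δ z : ℝ} (j : ℕ) (h : ∀ t, fl1 j t = fl1 j z → |A + B * t| ≤ δ) :
    |B| ≤ 4 * δ * 2 ^ j := by
  have hp : (0 : ℝ) < 2 ^ j := by positivity
  have h1 := abs_le.1 (h _ (fl1_add j z 0 le_rfl one_pos))
  have h2 := abs_le.1 (h _ (fl1_add j z (1 / 2) (by norm_num) (by norm_num)))
  have e : B = 2 * (A + B * (rd j z + ((2 : ℝ) ^ j)⁻¹ * (1 / 2)) -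
      (A + B * (rd j z + ((2 : ℝ) ^ j)⁻¹ * 0))) * 2 ^ j := by field_simp; ring
  rw [e, abs_mul, abs_of_pos hp]
  refine mul_le_mul_of_nonneg_right (abs_le.2 ⟨?_, ?_⟩) hp.le <;> linarith [h1.1, h1.2, h2.1, h2.2]

theorem fin {c α β Γ z x x' u e0 e1 L L₂ L₆ B T A S W : ℝ} (hT : 0 < T) (hA : 1 ≤ A) (hS : 1 ≤ S)
    (hW : 1 ≤ W) (hL : 1 ≤ L) (h₂ : 1 ≤ L₂) (h₆ : 1 ≤ L₆) (hB : 1 ≤ B)
    (h1 : |c + α * z + β * x + Γ * u| ≤ L / T) (h2 : |α + β * e0 + Γ * e1| ≤ 4 * (L / T) * A)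
    (h3 : |e1| ≤ B) (h4 : |β| ≤ L₂ * |α + β * e0|) (h5 : |x - x'| ≤ 1 / (S * A * W))
    (h6 : |Γ| ≤ L₆ * S * |c + α * z + β * x' + Γ * u|) (h7 : 2 * (L₆ * L₂ * B) ≤ W) :
    |Γ| ≤ 10 * (L₆ * L₂ * L) * S / T := by
  have hδ : 0 < L / T := by positivity
  have hG := abs_nonneg Γ
  have k1 : |α + β * e0| ≤ 4 * (L / T) * A + |Γ| * B := by
    have e : α + β * e0 = (α + β * e0 + Γ * e1) - Γ * e1 := by ring
    have := abs_sub (α + β * e0 + Γ * e1) (Γ * e1)
    rw [← e, abs_mul] at this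
    linarith [mul_le_mul_of_nonneg_left h3 hG]
  have k2 : |β| ≤ L₂ * (4 * (L / T) * A + |Γ| * B) :=
    h4.trans (mul_le_mul_of_nonneg_left k1 (by linarith))
  have k3 : |c + α * z + β * x' + Γ * u| ≤
      L / T + L₂ * (4 * (L / T) * A + |Γ| * B) * (1 / (S * A * W)) := by
    have e : c + α * z + β * x' + Γ * u = (c + α * z + β * x + Γ * u) - β * (x - x') := by ring
    have := abs_sub (c + α * z + β * x + Γ * u) (β * (x - x'))
    rw [← e, abs_mul] at this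
    have := mul_le_mul k2 h5 (abs_nonneg _) (by positivity)
    linarith
  have k4 : A * (1 / (S * A * W)) ≤ 1 := by
    rw [mul_one_div, div_le_one (by positivity)]
    have : 1 * 1 ≤ S * W := mul_le_mul hS hW zero_le_one (by linarith)
    nlinarith
  have k5 : L₆ * L₂ * B * (S * (1 / (S * A * W))) ≤ 1 / 2 := by
    have e : L₆ * L₂ * B * (S * (1 / (S * A * W))) = L₆ * L₂ * B / (A * W) := by field_simp
    rw [e, div_le_iff₀ (by positivity)]
    nlinarith
  have k6 := h6.trans (mul_le_mul_of_nonneg_left k3 (by positivity))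
  have e : L₆ * S * (L / T + L₂ * (4 * (L / T) * A + |Γ| * B) * (1 / (S * A * W))) =
      L₆ * S * (L / T) + 4 * (L₆ * S * (L / T) * L₂) * (A * (1 / (S * A * W))) +
        |Γ| * (L₆ * L₂ * B * (S * (1 / (S * A * W)))) := by ring
  have p1 : 0 ≤ L₆ * S * (L / T) := by positivity
  have k7 := mul_le_mul_of_nonneg_left k4 (by positivity : 0 ≤ 4 * (L₆ * S * (L / T) * L₂))
  have k8 := mul_le_mul_of_nonneg_left k5 hG
  have k9 := mul_le_mul_of_nonneg_left h₂ p1
  have e' : 10 * (L₆ * L₂ * L) * S / T = 10 * (L₆ * S * (L / T) * L₂) := by ring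
  rw [e']
  rw [e] at k6
  linarith

theorem nest_le {Ω Λ : Type} {P : FP Ω} {S : ℕ → Ω → Λ} (h : ∀ j, Fn P (S j) (S (j + 1))) {a b : ℕ}
    (hab : a ≤ b) : Fn P (S a) (S b) := by
  induction b, hab using Nat.le_induction with
  | base => exact Fn.rfl _
  | succ k _ ih => exact ih.trans (h k)

end GStepx

open GStepx in
theorem rowGStep : OfGStep := by
  intro hR Ω K g M mm D J η γ X hT hX d hd hH a a' τ σ ha' hσ hev
  have hc := hT.com X hX
  have hM : Big M := by simpa using ((hT.cls 1 one_pos).bs X hX).big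
  obtain ⟨B, hB, hbx⟩ := (hT.low.bs X hX).bx
  have hB' := sub_up hT.sm hB
  have ha : OM M a := om_le ha' (hev.mono fun n h => h.1)
  obtain ⟨L, hL, w1⟩ := hH a τ ha (hev.mono fun n h => h.2.1)
  obtain ⟨L', hL', w2⟩ := hH a' τ ha' (hev.mono fun n h => h.2.1.trans
    (mul_le_mul_of_nonneg_left (by exact_mod_cast h.1) (by linarith)))
  have hF : ∀ᶠ n in UF, Fn (X n).Q (fun v => ((mD X D n).H (a n) v, (mD X D n).H (a' n) v))
      ((mD X D n).S (a' n)) := by
    filter_upwards [hc.nest, hev] with n h1 h2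
    intro v hv w hw e
    have e1 := (h1.2.1 (a n)).2 v hv w hw (nest_le (fun j => (h1.2.1 j).1) h2.1 v hv w hw e)
    have e2 := (h1.2.1 (a' n)).2 v hv w hw e
    simp only [Prod.mk.injEq] at e1 e2 ⊢
    exact ⟨e1.2.2.2, e2.2.2.2⟩
  obtain ⟨L₂, hL₂, w3⟩ := hR K g mm 0 η X (fun n => (mD X D n).S (a' n))
    (fun n v i => if i = 0 then ((mD X D n).H (a n) v).2.1 - ((mD X D n).H (a' n) v).2.1 else
      if i = 1 then ((mD X D n).H (a n) v).2.2 0 - ((mD X D n).H (a' n) v).2.2 0 else 0)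
    hT.low hX (hc.lab a' ha').l (by
      filter_upwards [hF] with n h v hv w hw e
      have e1 := h v hv w hw e
      simp only [Prod.mk.injEq] at e1
      simp only [e1.1, e1.2])
  have hL₂' := sub_up hT.sm hL₂
  have hr : OM M fun n => σ n + a' n + M n := om_add (om_add hσ ha') (om_self M)
  have hfill := hc.fbU _ (fun n => (mD X D n).S (a' n)) a' ha' (hc.lab a' ha') σ
    (fun n => σ n + M n) _ (om_add hσ (om_self M)) hr
    (hev.mono fun n h => ⟨h.2.2, Nat.le_add_right _ _⟩)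
  obtain ⟨L₆, hL₆, w4⟩ := spr.coef X.P (fun n v => (X.G g n).pt v 1)
    (fun n v => (fl1 (σ n + a' n + M n) ((X.G g n).pt v 0), (mD X D n).S (a' n) v, (X.G g n).zt v))
    (fun n v i => if i = 0 then ((mD X D n).H (a n) v).1 - ((mD X D n).H (a' n) v).1 +
        (((mD X D n).H (a n) v).2.1 - ((mD X D n).H (a' n) v).2.1) * (X.G g n).z v +
        (((mD X D n).H (a n) v).2.2 0 - ((mD X D n).H (a' n) v).2.2 0) *
          rd (σ n + a' n + M n) ((X.G g n).pt v 0)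
      else ((mD X D n).H (a n) v).2.2 1 - ((mD X D n).H (a' n) v).2.2 1)
    M σ (fun n => σ n + M n) (fun n => 2 * B n) 1 1 hM one_pos (hB'.const_mul hM one_le_two)
    (Whp.of_ev (by
      filter_upwards [hbx] with n h v hv
      obtain ⟨h1, h2, h3⟩ := h.bd v hv
      have e : (X.G g n).pt v 1 = (X.G g n).a v 1 + (X.G g n).z v * (X.G g n).e v 1 := rfl
      rw [e]
      have := abs_add_le ((X.G g n).a v 1) ((X.G g n).z v * (X.G g n).e v 1)
      rw [abs_mul, abs_of_nonneg h2] at this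
      have := mul_le_mul h3.le (h1 1).2 (abs_nonneg _) zero_le_one
      linarith [(h1 1).1]))
    (by
      filter_upwards [hF] with n h
      refine ⟨by push_cast; linarith, fun v hv w hw e => ?_⟩
      simp only [Prod.mk.injEq, Geo.zt] at e
      have e1 := h v hv w hw e.2.2.1
      simp only [Prod.mk.injEq] at e1
      simp only [e1.1, e1.2, rd, e.2.1, e.2.2.2.1]) hfill
  have hLL := hL.add hL' hM
  refine ⟨fun n => 10 * (L₆ n * L₂ n * (L n + L' n)),
    ((hL₆.mul hL₂').mul hLL).const_mul hM (by norm_num), ?_⟩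
  refine (((w1.and w2).and w3).and w4).mono ?_
  filter_upwards [hev, hbx, (((hL₆.mul hL₂').mul hB').const_mul hM one_le_two).2 (1 / 2)
    (by norm_num)] with n h1 h2 h3 v hv hw
  obtain ⟨⟨⟨⟨z1, f1⟩, ⟨z2, f2⟩⟩, f3⟩, f4⟩ := hw
  have z1' := z1 2 (by decide)
  have z2' := z2 2 (by decide)
  have key : ∀ t, fl1 (a' n) t = fl1 (a' n) ((X.G g n).z v) →
      |((mD X D n).H (a n) v).1 - ((mD X D n).H (a' n) v).1 +
        (((mD X D n).H (a n) v).2.1 - ((mD X D n).H (a' n) v).2.1) * t +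
        (((mD X D n).H (a n) v).2.2 0 - ((mD X D n).H (a' n) v).2.2 0) * (X.G g n).lt t v 0 +
        (((mD X D n).H (a n) v).2.2 1 - ((mD X D n).H (a' n) v).2.2 1) * (X.G g n).lt t v 1| ≤
        (L n + L' n) / 2 ^ τ n := by
    intro t ht
    have g1 := abs_le.1 (f1 t (fl1_eq_of_le h1.1 ht))
    have g2 := abs_le.1 (f2 t ht)
    simp only [pv, Fin.sum_univ_three, z1', z2'] at g1 g2
    rw [add_div, abs_le]
    constructor <;> linarith [g1.1, g1.2, g2.1, g2.2]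
  have s := slope (A := ((mD X D n).H (a n) v).1 - ((mD X D n).H (a' n) v).1 +
      (((mD X D n).H (a n) v).2.2 0 - ((mD X D n).H (a' n) v).2.2 0) * (X.G g n).a v 0 +
      (((mD X D n).H (a n) v).2.2 1 - ((mD X D n).H (a' n) v).2.2 1) * (X.G g n).a v 1)
    (B := ((mD X D n).H (a n) v).2.1 - ((mD X D n).H (a' n) v).2.1 +
      (((mD X D n).H (a n) v).2.2 0 - ((mD X D n).H (a' n) v).2.2 0) * (X.G g n).e v 0 +
      (((mD X D n).H (a n) v).2.2 1 - ((mD X D n).H (a' n) v).2.2 1) * (X.G g n).e v 1)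
    (a' n) fun t ht => by
      refine le_of_eq_of_le (congrArg _ ?_) (key t ht)
      simp only [Geo.lt, Pi.add_apply, Pi.smul_apply, smul_eq_mul]
      ring
  have f3' := f3 1 (by norm_num)
  have f4' := f4 1 le_rfl
  simp only [ev, Finset.sum_range_succ, Finset.sum_range_zero] at f3' f4'
  norm_num at f3' f4'
  have q := abs_rd (σ n + a' n + M n) ((X.G g n).pt v 0)
  rw [pow_add, pow_add] at q
  refine fin (by positivity) (one_le_pow₀ one_le_two) (one_le_pow₀ one_le_two)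
    (one_le_pow₀ one_le_two) (hLL.1 n) (hL₂.1 n) (hL₆.1 n) (hB.1 n) (key _ rfl) s
    ((h2.bd v hv).1 1).2 f3' q f4' (h3.trans ?_)
  rw [one_div, inv_mul_eq_div]
  exact exp_le_two_pow _

end Pool.Agent.MP_5168f5_an.R4.T8
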