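import Pool.Agent.MP_5168f5_an.R4.SpecTW

/-! On a curved surface the weight of the second coordinate is one. -/

namespace Pool.Agent.MP_5168f5_an.R4.T8

open H19 H17S H17F Filter Matrix Tan

namespace Gam1x

/-- The coefficients of the form on the plane spanned by `(1, 0, u)` and `(0, 1, w)`. -/
def cf (q : Matrix (Fin 3) (Fin 3) ℝ) (u w : ℝ) (l : ℕ) : ℝ :=
  if l = 0 then q 0 0 + 2 * u * q 0 2 + u ^ 2 * q 2 2 else
    if l = 1 then 2 * (q 0 1 + w * q 0 2 + u * q 1 2 + u * w * q 2 2) else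
      q 1 1 + 2 * w * q 1 2 + w ^ 2 * q 2 2

theorem abs_mul_le {x y a b : ℝ} (h : |x| ≤ a) (k : |y| ≤ b) : |x * y| ≤ a * b := by
  rw [abs_mul]; exact mul_le_mul h k (abs_nonneg _) ((abs_nonneg _).trans h)

/-- The second difference along the line. -/
theorem null {Ω : Type} (g : Geo 3 Ω) (A : Qd) (ω : Ω) {σ : ℝ}
    (h : ∀ t : ℝ, 0 ≤ t → t < 1 → |g.lt t ω 2 - sf A (bp g t ω)| ≤ σ) :
    |![1, g.e ω 0, g.e ω 1] ⬝ᵥ sq A *ᵥ ![1, g.e ω 0, g.e ω 1]| ≤ 32 * σ := by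
  have h0 := abs_le.1 (h 0 le_rfl one_pos)
  have h1 := abs_le.1 (h (1 / 4) (by norm_num) (by norm_num))
  have h2 := abs_le.1 (h (1 / 2) (by norm_num) (by norm_num))
  have e : ![1, g.e ω 0, g.e ω 1] ⬝ᵥ sq A *ᵥ ![1, g.e ω 0, g.e ω 1] =
      -8 * (g.lt 0 ω 2 - sf A (bp g 0 ω) - 2 * (g.lt (1 / 4) ω 2 - sf A (bp g (1 / 4) ω)) +
        (g.lt (1 / 2) ω 2 - sf A (bp g (1 / 2) ω))) := by
    simp only [sf, bp, Geo.lt, dotProduct, mulVec, Fin.sum_univ_three, Pi.add_apply, Pi.smul_apply,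
      smul_eq_mul, cons_val_zero, cons_val_one, cons_val_two, head_cons, tail_cons]
    ring
  rw [e, abs_le]
  constructor <;> linarith [h0.1, h0.2, h1.1, h1.2, h2.1, h2.2]

theorem ev_le {q : Matrix (Fin 3) (Fin 3) ℝ} (hs : ∀ i l, q i l = q l i) {L σ u w x y : ℝ}
    (hL : 1 ≤ L) (h1 : σ ≤ 1) (hq : ∀ i l, |q i l| ≤ L) (hx : |x| ≤ L) (hy : |y| ≤ L)
    (he : |y - u - w * x| ≤ 4 * L * σ) (hv : |![1, x, y] ⬝ᵥ q *ᵥ ![1, x, y]| ≤ 32 * σ) :
    |ev 2 (cf q u w) x| ≤ 72 * L ^ 3 * σ := by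
  have e : ev 2 (cf q u w) x = ![1, x, y] ⬝ᵥ q *ᵥ ![1, x, y] -
      2 * ((y - u - w * x) * q 0 2) - 2 * ((y - u - w * x) * (q 1 2 * x)) -
      2 * ((y - u - w * x) * (q 2 2 * y)) + (y - u - w * x) * (y - u - w * x) * q 2 2 := by
    simp only [ev, cf, Finset.sum_range_succ, Finset.sum_range_zero, dotProduct, mulVec,
      Fin.sum_univ_three, cons_val_zero, cons_val_one, cons_val_two, head_cons, tail_cons,
      hs 1 0, hs 2 0, hs 2 1]
    norm_num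
    ring
  have s0 : 0 ≤ σ := by linarith [abs_nonneg (![1, x, y] ⬝ᵥ q *ᵥ ![1, x, y])]
  have a1 := abs_le.1 (abs_mul_le he (hq 0 2))
  have a2 := abs_le.1 (abs_mul_le he (abs_mul_le (hq 1 2) hx))
  have a3 := abs_le.1 (abs_mul_le he (abs_mul_le (hq 2 2) hy))
  have a4 := abs_le.1 (abs_mul_le (abs_mul_le he he) (hq 2 2))
  have a0 := abs_le.1 hv
  have b0 : σ ≤ L ^ 3 * σ := le_mul_of_one_le_left s0 (one_le_pow₀ hL)
  have b1 : L ^ 2 * σ ≤ L ^ 3 * σ :=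
    mul_le_mul_of_nonneg_right (pow_le_pow_right₀ hL (by norm_num)) s0
  have b2 : L ^ 3 * σ * σ ≤ L ^ 3 * σ := mul_le_of_le_one_right (by positivity) h1
  rw [e, abs_le]
  constructor <;> nlinarith [a0.1, a0.2, a1.1, a1.2, a2.1, a2.2, a3.1, a3.2, a4.1, a4.2]

theorem det_le {q : Matrix (Fin 3) (Fin 3) ℝ} (hs : ∀ i l, q i l = q l i) {L κ u w : ℝ}
    (hL : 1 ≤ L) (h1 : κ ≤ 1) (hq : ∀ i l, |q i l| ≤ L) (hu : |u| ≤ L) (hw : |w| ≤ L)
    (hc : ∀ l ≤ 2, |cf q u w l| ≤ κ) : |q.det| ≤ 18 * L ^ 4 * κ := by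
  have e : q.det = cf q u w 0 * cf q u w 2 * q 2 2 -
      cf q u w 0 * ((q 1 2 + w * q 2 2) * (q 1 2 + w * q 2 2)) -
      cf q u w 1 * cf q u w 1 * q 2 2 / 4 + cf q u w 1 * ((q 0 2 + u * q 2 2) * (q 1 2 + w * q 2 2)) -
      cf q u w 2 * ((q 0 2 + u * q 2 2) * (q 0 2 + u * q 2 2)) := by
    simp only [det_fin_three, cf, hs 1 0, hs 2 0, hs 2 1]
    norm_num
    ring
  have c0 := hc 0 (by norm_num)
  have c1 := hc 1 (by norm_num)
  have c2 := hc 2 le_rfl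
  have k0 : 0 ≤ κ := (abs_nonneg _).trans c0
  have l2 : L ≤ L * L := le_mul_of_one_le_left (by linarith) hL
  have s : |q 0 2 + u * q 2 2| ≤ 2 * (L * L) :=
    (abs_add_le _ _).trans (by linarith [hq 0 2, abs_mul_le hu (hq 2 2)])
  have t : |q 1 2 + w * q 2 2| ≤ 2 * (L * L) :=
    (abs_add_le _ _).trans (by linarith [hq 1 2, abs_mul_le hw (hq 2 2)])
  have a1 := abs_le.1 (abs_mul_le (abs_mul_le c0 (c2.trans h1)) (hq 2 2))
  have a2 := abs_le.1 (abs_mul_le c0 (abs_mul_le t t))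
  have a3 := abs_le.1 (abs_mul_le (abs_mul_le c1 (c1.trans h1)) (hq 2 2))
  have a4 := abs_le.1 (abs_mul_le c1 (abs_mul_le s t))
  have a5 := abs_le.1 (abs_mul_le c2 (abs_mul_le s s))
  have b0 : L * κ ≤ L ^ 4 * κ :=
    mul_le_mul_of_nonneg_right (le_self_pow₀ hL (by norm_num)) k0
  have b1 : 0 ≤ L * κ := by positivity
  rw [e, abs_le]
  constructor <;> nlinarith [a1.1, a1.2, a2.1, a2.2, a3.1, a3.2, a4.1, a4.2, a5.1, a5.2]

theorem fin {q : Matrix (Fin 3) (Fin 3) ℝ} (hs : ∀ i l, q i l = q l i) {L σ u w x y : ℝ}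
    (hL : 1 ≤ L) (h0 : 0 ≤ σ) (hq : ∀ i l, |q i l| ≤ L) (hx : |x| ≤ L) (hy : |y| ≤ L)
    (hu : |u| ≤ L) (hw : |w| ≤ L) (he : |y - u - w * x| ≤ 4 * L * σ)
    (hv : |![1, x, y] ⬝ᵥ q *ᵥ ![1, x, y]| ≤ 32 * σ)
    (hc : ∀ l ≤ 2, |cf q u w l| ≤ L * |ev 2 (cf q u w) x|) (hd : 1 ≤ L * |q.det|) :
    1 ≤ 1296 * L ^ 9 * σ := by
  by_contra hn
  have b0 : σ ≤ L ^ 9 * σ := le_mul_of_one_le_left h0 (one_le_pow₀ hL)
  have b1 : L ^ 4 * σ ≤ L ^ 9 * σ :=
    mul_le_mul_of_nonneg_right (pow_le_pow_right₀ hL (by norm_num)) h0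
  have b2 : 0 ≤ L ^ 4 * σ := by positivity
  have e1 := ev_le hs hL (by linarith) hq hx hy he hv
  have e2 := det_le hs hL (κ := L * (72 * L ^ 3 * σ)) (by nlinarith) hq hu hw fun l hl =>
    (hc l hl).trans (mul_le_mul_of_nonneg_left e1 (by linarith))
  exact hn (hd.trans ((mul_le_mul_of_nonneg_left e2 (by linarith)).trans_eq (by ring)))

end Gam1x

open Gam1x in
theorem rowGam1 : OfGam1 := by
  intro rev Ω K g M mm D J η γ X tw hX A hA cU srf ⟨L₅, s₅, w₅⟩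
  by_contra hγ
  have d0 : 0 < min (γ - 1) 1 := lt_min (sub_pos.2 (lt_of_le_of_ne tw.one (Ne.symm hγ))) one_pos
  have cls : Cls0 K g M 0 η := by simpa using tw.cls 1 one_pos
  have hM := (cls.bs X hX).big
  have oM : OM M M := ⟨1, Eventually.of_forall fun n => by simp⟩
  obtain ⟨hR, c, hc, hR'⟩ := hM.frac_floor d0 (min_le_right _ _)
  set R : ℕ → ℕ := fun n => ⌊min (γ - 1) 1 * M n⌋₊
  obtain ⟨L₁, s₁, w₁⟩ := cU M (fun n => M n + R n) oM (Eventually.of_forall fun n => by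
    have h1 : (R n : ℝ) ≤ min (γ - 1) 1 * M n := Nat.floor_le (by positivity)
    have h2 := mul_le_mul_of_nonneg_right (min_le_left (γ - 1) 1) (Nat.cast_nonneg (α := ℝ) (M n))
    push_cast
    linarith)
  obtain ⟨L₂, s₂, w₂⟩ := srf.bd
  obtain ⟨L₃, s₃, w₃⟩ := (cls.bs X hX).bx
  have w₀ := srf.surf R ⟨1, Eventually.of_forall fun n => by simpa using hR n⟩
  have com := tw.com X hX
  obtain ⟨L₄, s₄, w₄⟩ := rev K g M 0 η X (fun n => (mD X D n).S (M n))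
    (fun n v => cf (sq (A n v)) ((mD X D n).U (M n) v).2.1 (((mD X D n).U (M n) v).2.2 0)) cls hX
    (fun ε hε => by
      filter_upwards [(com.lab M oM).l ε hε, tw.sm 1 one_pos] with n a b
      exact a.trans (add_le_add le_rfl (mul_le_mul_of_nonneg_left (by linarith) hε.le))) (by
      filter_upwards [hA, com.nest] with n a b v hv v' hv' e
      have e1 := (b.2.1 (M n)).2 v hv v' hv' e
      have e2 : (mD X D n).U (M n) v = (mD X D n).U (M n) v' := congrArg (fun x => x.2.2.1) e1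
      beta_reduce
      rw [e2, a.1 v hv v' hv' (congrArg Prod.fst e1)])
  have sL := (((s₁.mul s₂).mul s₃).mul s₄).mul s₅
  have s' := ((sL.pow 9).const_mul hM (C := 2592) (by norm_num)).2 _ (half_pos hc)
  obtain ⟨n, ⟨v, hv, ⟨⟨⟨u₀, u₁⟩, u₂⟩, u₄⟩, u₅⟩, a, b, e, f⟩ :=
    (((((w₀.and w₁).and w₂).and w₄).and w₅).pos.ex.and (hA.and (w₃.and (s'.and hR')))).exists
  have l₁ := s₁.1 n
  have l₂ := s₂.1 n
  have l₃ := s₃.1 n
  have l₄ := s₄.1 n
  have l₅ := s₅.1 n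
  have p₂ : 1 ≤ L₁ n * L₂ n := one_le_mul_of_one_le_of_one_le l₁ l₂
  have p₃ : 1 ≤ L₁ n * L₂ n * L₃ n := one_le_mul_of_one_le_of_one_le p₂ l₃
  have p₄ : 1 ≤ L₁ n * L₂ n * L₃ n * L₄ n := one_le_mul_of_one_le_of_one_le p₃ l₄
  have q₅ : L₅ n ≤ L₁ n * L₂ n * L₃ n * L₄ n * L₅ n := le_mul_of_one_le_left (by linarith) p₄
  have r₄ := le_mul_of_one_le_right (a := L₁ n * L₂ n * L₃ n * L₄ n) (by linarith) l₅
  have q₄ : L₄ n ≤ L₁ n * L₂ n * L₃ n * L₄ n := le_mul_of_one_le_left (by linarith) p₃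
  have r₃ := le_mul_of_one_le_right (a := L₁ n * L₂ n * L₃ n) (by linarith) l₄
  have q₃ : L₃ n ≤ L₁ n * L₂ n * L₃ n := le_mul_of_one_le_left (by linarith) p₂
  have r₂ := le_mul_of_one_le_right (a := L₁ n * L₂ n) (by linarith) l₃
  have q₂ : L₂ n ≤ L₁ n * L₂ n := le_mul_of_one_le_left (by linarith) l₁
  have q₁ := le_mul_of_one_le_right (a := L₁ n) (by linarith) l₂
  beta_reduce at e
  generalize L₁ n * L₂ n * L₃ n * L₄ n * L₅ n = L at *
  have k := ((kp.iff _ _ _ _ _ _ _ _).1 u₁).2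
  rw [Fin.sum_univ_three, (u₁.2.1 1).2 (by decide), (u₁.2.1 2).2 (by decide), zero_mul, zero_mul,
    add_zero, add_zero] at k
  have t0 : (0 : ℝ) < 2 ^ R n := by positivity
  have key := fin (q := sq (A n v)) (L := L) (σ := 1 / 2 ^ R n)
    (fun i l => by rw [sq, sq, (a.2 v hv).apply]) (by linarith) (by positivity)
    (fun i l => (u₂.1 i l).trans (by linarith)) (((b.bd v hv).1 0).2.trans (by linarith))
    (((b.bd v hv).1 1).2.trans (by linarith)) (u₁.1.trans (by linarith))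
    ((u₁.2.1 0).1.trans (by linarith)) (k.trans (by
      rw [pow_add, mul_div_assoc, div_mul_cancel_left₀ (by positivity), one_div]
      exact mul_le_mul_of_nonneg_right (by linarith) (by positivity))) (null _ _ _ u₀)
    (fun l hl => (u₄ l hl).trans (mul_le_mul_of_nonneg_right (by linarith) (abs_nonneg _)))
    (u₅.trans (mul_le_mul_of_nonneg_right q₅ (abs_nonneg _)))
  have h2 : 2592 * L ^ 9 ≤ 2 ^ R n :=
    e.trans ((Real.exp_le_exp.2 (by linarith)).trans (exp_le_two_pow (R n)))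
  rw [mul_one_div, le_div_iff₀ t0] at key
  linarith

end Pool.Agent.MP_5168f5_an.R4.T8
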