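import Pool.Agent.MP_5168f5_an.R4.SpecTW

/-! The final curved data. -/

namespace Pool.Agent.MP_5168f5_an.R4.T8

open H19 H17S H17F Filter Matrix Tan

namespace MkQx

theorem ev_eq {Ω : Type} (g : Geo 3 Ω) (o : ℕ → Ω → V 3) (C : Tc Ω) (ω : Ω) (t : ℝ) :
    ev 2 ((mkQ g o C).cf ω) t = C.f g ω t := by
  have h := hom_lt g 0 t ω
  rw [zero_add, show g.lt 0 ω = g.a ω by simp [Geo.lt]] at h
  rw [Tc.f, ql, h, qf_add, qf_smul, pf_smul_right]
  simp [ev, mkQ, Finset.sum_range_succ]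
  ring

theorem quad {c : ℕ → ℝ} {L : ℝ} (h : ∀ t : ℝ, 0 ≤ t → t < 1 → |ev 2 c t| ≤ L) :
    |c 0| ≤ 32 * L ∧ |c 1| ≤ 32 * L ∧ |c 2| ≤ 32 * L := by
  have h0 := h 0 le_rfl one_pos
  have h1 := h (1 / 4) (by norm_num) (by norm_num)
  have h2 := h (1 / 2) (by norm_num) (by norm_num)
  have h3 := (abs_nonneg _).trans h0
  simp only [ev, Finset.sum_range_succ, Finset.sum_range_zero, abs_le] at h0 h1 h2 ⊢
  refine ⟨⟨?_, ?_⟩, ⟨?_, ?_⟩, ?_, ?_⟩ <;> linarith [h0.1, h0.2, h1.1, h1.2, h2.1, h2.2]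

end MkQx

open MkQx

theorem rowMkQ : MkQ where
  ev := ev_eq
  bd g o C ω L h i := by
    have k := quad (c := (mkQ g o C).cf ω) fun t h0 h1 => by rw [ev_eq]; exact h t h0 h1
    match i with
    | 0 => exact k.1
    | 1 => exact k.2.1
    | 2 => exact k.2.2
    | i + 3 => simpa [mkQ] using (abs_nonneg _).trans (h 0 le_rfl one_pos)
  fn P g D C h1 h2 h3 h4 h5 := by
    refine ⟨fun a ha b hb e => ?_, fun a ha b hb e => ?_, fun ω hω => ?_, fun j a ha b hb e => ?_⟩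
    · simp only [mkQ, h1 a ha b hb e]
    · simp only [Geo.ln, Prod.mk.injEq] at e
      simp only [mkQ, h2 0 a ha b hb (h4 a ha b hb e.2.2), e.1, e.2.1]
    · ext i l
      simp only [mkQ, sq, transpose_apply, (h3 ω hω).apply (ix i) (ix l)]
    · have k := h5 j a ha b hb e
      simp only [Prod.mk.injEq] at k
      simp only [mkQ, Tc.E, Geo.z0, h2 0 a ha b hb (h4 a ha b hb k.1), h2 j a ha b hb e,
        h1 a ha b hb k.1, k.2.1, k.2.2]

end Pool.Agent.MP_5168f5_an.R4.T8
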