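import Pool.Agent.MP_5168f5_an.R4.SpecTW

/-! The value of the quadric and the base point determine the last coordinate. -/

namespace Pool.Agent.MP_5168f5_an.R4.T8

open H19 H17S H17F Filter Matrix Tan

namespace MonoEx

theorem sumb {n : ℕ} (a S : Fin n → ℝ) {B C : ℝ} (ha : ∀ i, |a i| ≤ B) (hS : ∀ i, |S i| ≤ C) :
    |∑ i, a i * S i| ≤ n * (B * C) := by
  refine (Finset.abs_sum_le_sum_abs _ _).trans ?_
  have h := Finset.sum_le_card_nsmul Finset.univ (fun i => |a i * S i|) (B * C) fun i _ => by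
    rw [abs_mul]
    exact mul_le_mul (ha i) (hS i) (abs_nonneg _) ((abs_nonneg _).trans (ha i))
  rwa [Finset.card_univ, Fintype.card_fin, nsmul_eq_mul] at h

theorem dif {A : Qd} (hs : A.IsSymm) (t : ℝ) (Y Y' : V 3) :
    qf A (hom t Y) - qf A (hom t Y') =
      (Y 0 - Y' 0) * (∑ i, A i 2 * (hom t Y i + hom t Y' i)) +
      (Y 1 - Y' 1) * (∑ i, A i 3 * (hom t Y i + hom t Y' i)) +
      (Y 2 - Y' 2) * ∑ i, A i 4 * (hom t Y i + hom t Y' i) := by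
  have s := hs.apply
  simp only [qf, hom, dotProduct, mulVec, Fin.sum_univ_five, cons_val_zero, cons_val_one,
    cons_val]
  rw [s 0 2, s 0 3, s 0 4, s 1 2, s 1 3, s 1 4, s 2 3, s 2 4, s 3 4]
  ring

theorem num {q d0 d1 d2 g2 g3 β e L G : ℝ} (h : q = d0 * g2 + d1 * g3 + d2 * (β * 2 + e))
    (hβ : 1 ≤ L * |β|) (he : L * |e| ≤ 1) (hL : 0 ≤ L) (hG : 1 ≤ G) (h2 : |g2| ≤ G)
    (h3 : |g3| ≤ G) : |d2| ≤ L * G * (|q| + |d0| + |d1|) := by
  have a1 : |β * 2| ≤ |β * 2 + e| + |e| := by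
    have := abs_sub (β * 2 + e) e
    rwa [add_sub_cancel_right] at this
  rw [abs_mul, abs_two] at a1
  have a2 : 1 ≤ L * |β * 2 + e| := by nlinarith [mul_le_mul_of_nonneg_left a1 hL]
  have a3 : |d2 * (β * 2 + e)| ≤ |q| + |d0 * g2| + |d1 * g3| := by
    rw [show d2 * (β * 2 + e) = q - d0 * g2 - d1 * g3 by rw [h]; ring]
    exact (abs_sub _ _).trans (add_le_add (abs_sub _ _) le_rfl)
  rw [abs_mul, abs_mul, abs_mul] at a3
  have a4 := mul_le_mul_of_nonneg_left h2 (abs_nonneg d0)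
  have a5 := mul_le_mul_of_nonneg_left h3 (abs_nonneg d1)
  have a6 := mul_le_mul_of_nonneg_left hG (abs_nonneg q)
  have a7 : |d2| * |β * 2 + e| ≤ G * (|q| + |d0| + |d1|) := by linarith
  have a8 := mul_le_mul_of_nonneg_left a7 hL
  have a9 := mul_le_mul_of_nonneg_left a2 (abs_nonneg d2)
  linarith

theorem alg {A : Qd} (hs : A.IsSymm) {L B δ T : ℝ} (hL : 0 ≤ L) (hB : 1 ≤ B)
    (hβ : 1 ≤ L * |A 0 4|) (h4 : ∀ i : Fin 4, |A i.succ 4| ≤ δ)
    (hA : ∀ i, |A i 2| ≤ B ∧ |A i 3| ≤ B) (hδ : 8 * L * δ * T ≤ 1) : Mn A (10 * (L * B)) T := by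
  intro R t Y Y' hR hT ht hY
  have hS : ∀ i, |hom t Y i + hom t Y' i| ≤ 2 * R := by
    have k : ∀ {a b : ℝ}, |a| ≤ R → |b| ≤ R → |a + b| ≤ 2 * R := fun u v =>
      (abs_add_le _ _).trans (by linarith)
    have o : |(1 : ℝ)| ≤ R := by rwa [abs_one]
    intro i
    fin_cases i
    exacts [k o o, k (ht.trans hR) (ht.trans hR), k (hY 0).1 (hY 0).2, k (hY 1).1 (hY 1).2,
      k (hY 2).1 (hY 2).2]
  have d0 : 0 ≤ δ := (abs_nonneg _).trans (h4 0)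
  have e := dif hs t Y Y'
  rw [Fin.sum_univ_succ fun i => A i 4 * (hom t Y i + hom t Y' i),
    show hom t Y 0 + hom t Y' 0 = 2 from one_add_one_eq_two] at e
  have e1 := mul_le_mul_of_nonneg_left (sumb _ _ h4 fun i => hS i.succ) hL
  have e2 := mul_le_mul_of_nonneg_left hT (show 0 ≤ 8 * L * δ by positivity)
  have e3 := one_le_mul_of_one_le_of_one_le hB hR
  refine (num (G := (5 : ℕ) * (B * (2 * R))) e hβ (e1.trans ?_) hL ?_
    (sumb _ _ (fun i => (hA i).1) hS) (sumb _ _ (fun i => (hA i).2) hS)).trans (le_of_eq ?_)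
  · push_cast; linarith
  · push_cast; linarith
  · push_cast; ring

theorem ent {a β s c δ L L₁ : ℝ} (h : |a + c * β * s| ≤ δ) (hδ : δ ≤ L * L₁) (hβ : |β| ≤ L)
    (hs : |s| ≤ L₁) (h0 : 0 ≤ c) (hc : c ≤ 2) : |a| ≤ 3 * (L * L₁) := by
  have a1 := abs_sub (a + c * β * s) (c * β * s)
  rw [add_sub_cancel_right, mul_assoc, abs_mul c, abs_of_nonneg h0, abs_mul] at a1
  have a2 := mul_le_mul hβ hs (abs_nonneg _) ((abs_nonneg _).trans hβ)
  have a3 := mul_le_mul hc a2 (by positivity) zero_le_two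
  rw [mul_assoc] at h
  linarith

end MonoEx

open MonoEx in
theorem rowMonoE : MonoE := by
  intro Ω P g M C hM hs hS hP
  obtain ⟨L₁, s1, w1⟩ := hS.bd
  obtain ⟨L, s, w⟩ := hP (fun _ => 0) (fun n => 2 * M n)
    ⟨0, Eventually.of_forall fun n => Nat.zero_le _⟩ ⟨2, Eventually.of_forall fun n => le_rfl⟩
  refine ⟨fun n => 10 * (L n * (3 * (L n * L₁ n))), (s.mul ((s.mul s1).const_mul hM
    (by norm_num))).const_mul hM (by norm_num), (w.and w1).mono ?_⟩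
  filter_upwards [hs, (s.const_mul hM (by norm_num : (1 : ℝ) ≤ 8)).2 (1 / 2) (by norm_num)]
    with n a b ω hω ⟨⟨c1, c2, c3, _, c5⟩, d1, _, d3⟩
  have l1 := one_le_mul_of_one_le_of_one_le (s.1 n) (s1.1 n)
  have p1 : (1 : ℝ) / 2 ^ (2 * M n) ≤ L n * L₁ n :=
    ((div_le_one (by positivity)).2 (one_le_pow₀ one_le_two)).trans l1
  have k0 : ∀ i, |(C n).A 0 ω 0 (ix i)| ≤ 3 * (L n * L₁ n) := fun i =>
    ent (c := 1) (by rw [one_mul]; exact (c5 i).1) p1 c1 (d3 i) zero_le_one one_le_two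
  have k1 : ∀ i l, |(C n).A 0 ω (ix i) (ix l)| ≤ 3 * (L n * L₁ n) := fun i l =>
    ent ((c5 i).2 l) p1 c1 (d1 i l) zero_le_two le_rfl
  have k2 : ∀ i : Fin 4, |(C n).A 0 ω 4 i.succ| ≤ 3 * (L n * L₁ n) := fun i => by
    rw [(a ω hω).2.apply]
    linarith [c3 i]
  refine alg (a ω hω).2 (s.pos n).le (by linarith) c2 c3 (fun i => ?_) ?_
  · fin_cases i
    exacts [⟨k0 1, k0 2⟩, ⟨k1 0 1, k1 0 2⟩, ⟨k1 1 1, k1 1 2⟩, ⟨k1 2 1, k1 2 2⟩, ⟨k2 1, k2 2⟩]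
  · have b1 := exp_le_two_pow (M n)
    rw [show (M n : ℝ) / 2 = 1 / 2 * M n by ring] at b1
    rw [show 8 * L n * (1 / 2 ^ (2 * M n)) * 2 ^ M n = 8 * L n / 2 ^ M n by
      rw [two_mul, pow_add]; field_simp, div_le_one (by positivity)]
    exact b.trans b1

end Pool.Agent.MP_5168f5_an.R4.T8
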