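import Pool.Agent.MP_5168f5_an.R4.SpecTW

/-! Row NGb: removal of the deep digits. -/

namespace Pool.Agent.MP_5168f5_an.R4.T8

open H19 H17S H17F Filter Matrix Tan

namespace NGbx

theorem deep {Ω α α' β γ δ ε : Type} {P : FP Ω} (F : Ω → α) (K : Ω → α') (B : Ω → β) (S : Ω → γ)
    (Z : Ω → δ) (T : Ω → ε) (h1 : Fn P B K) (h2 : Fn P K fun ω => (F ω, B ω))
    (h3 : Fn P T fun ω => (Z ω, K ω)) :
    ch P F K ≤ mi P S Z B + ch P F T + ch P F fun ω => (S ω, B ω) := by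
  have a1 := ch_le_mi (F := F) h3
  have a2 := mi_left (G := Z) h1 h2 (Fn.fst F B)
  have a3 := mi_near (P := P) Z F S B
  rw [mi_symm Z, mi_symm Z] at a3
  linarith

theorem om_le {M a b : ℕ → ℕ} (h : OM M b) (e : ∀ᶠ n in UF, a n ≤ b n) : OM M a :=
  h.imp fun _ k => (e.and k).mono fun _ u => u.1.trans u.2

theorem le_mul {M q : ℕ → ℕ} {c : ℝ} (h : 1 ≤ c) : Le M (fun n => q n) fun n => c * q n :=
  Le.of_le fun _ => le_mul_of_one_le_left (Nat.cast_nonneg _) h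

end NGbx

open NGbx in
theorem rowNGb : OfNGb := by
  refine fun hD => ⟨fun P g M D Z s γ c ε₀ h1 h2 hd hn hs q q' r hr h => ?_,
    fun K g M mm D J η γ X hT hX A Z H d ε₀ h1 hH cU cH hn q q' r hr h => ?_,
    fun K g M mm D J η γ X hT hX H ε₀ hH cH hn q q' r hr h => ?_⟩
  · have e : ∀ᶠ n in UF, q' n ≤ r n := h.mono fun n a => by
      exact_mod_cast (le_mul_of_one_le_left (Nat.cast_nonneg (α := ℝ) _) h1).trans a.2
    refine Le.of3 (hd q' r hr ((e.and h).mono fun n a => ⟨a.1,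
      (mul_le_mul_of_nonneg_right h2 (Nat.cast_nonneg _)).trans a.2.2⟩))
      (hn q q' (om_le hr e) (h.mono fun _ a => a.1)) (hs q' r hr (h.mono fun _ a => a.2))
      (h.mono fun n a => ?_)
    have := deep (P := P n) (fun ω => fl1 (q' n) (s n ω)) (fun ω => (fl1 (q n) (s n ω),
      fl1 (r n) ((g n).pt ω 0), fl1 (r n) ((g n).pt ω 1), (g n).zt ω))
      (fun ω => (fl1 (r n) ((g n).pt ω 0), fl1 (r n) ((g n).pt ω 1), (g n).zt ω))
      ((D n).S (q' n)) (Z n) (fun ω => (fl1 (q n) (s n ω), Z n ω, (g n).zt ω)) (Fn.snd _ _)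
      (fun _ _ _ _ u => Prod.ext (fl1_eq_of_le a.1 (Prod.ext_iff.1 u).1) (Prod.ext_iff.1 u).2)
      fun _ _ _ _ u => by
        simp only [Prod.mk.injEq] at u ⊢
        exact ⟨u.2.1, u.1, u.2.2.2.2⟩
    linarith
  · have e : ∀ᶠ n in UF, q' n ≤ r n := h.mono fun _ a => a.2
    have o := om_le hr e
    refine Le.of4 (hn.deep q' r hr e) (hn.ng q q' o (h.mono fun _ a => a.1))
      (hD.u K g M mm D J η γ X hT hX cU q' q' r o hr (le_mul hT.one) e)
      (hD.f K g M mm D J η γ X hT hX H d (zero_le_one.trans h1) hH cH q' q' r q' o hr (le_mul h1)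
        (e.mono fun _ a => ⟨a, le_rfl⟩)) (h.mono fun n a => ?_)
    have a1 := deep (P := (X n).Q)
      (fun ω => (fl1 (q' n) ((X.G g n).pt ω 1), fl1 (q' n) ((X.G g n).pt ω 2)))
      (fun ω => (fl1 (q n) ((X.G g n).pt ω 1), fl1 (q n) ((X.G g n).pt ω 2),
        fl1 (r n) ((X.G g n).pt ω 0), (X.G g n).zt ω))
      (fun ω => (fl1 (r n) ((X.G g n).pt ω 0), (X.G g n).zt ω)) ((mD X D n).S (q' n)) (Z n)
      (fun ω => (fl1 (q n) ((X.G g n).pt ω 1), fl1 (q n) ((X.G g n).pt ω 2), Z n ω,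
        (X.G g n).zt ω)) (fun _ _ _ _ u => congrArg (·.2.2) u)
      (fun _ _ _ _ u => by
        simp only [Prod.mk.injEq] at u ⊢
        exact ⟨fl1_eq_of_le a.1 u.1.1, fl1_eq_of_le a.1 u.1.2, u.2⟩)
      fun _ _ _ _ u => by
        simp only [Prod.mk.injEq] at u ⊢
        exact ⟨u.2.1, u.2.2.1, u.1, u.2.2.2.2⟩
    have a2 := ch_chain (P := (X n).Q) (fun ω => fl1 (q' n) ((X.G g n).pt ω 1))
      (fun ω => fl1 (q' n) ((X.G g n).pt ω 2)) fun ω =>
        ((mD X D n).S (q' n) ω, fl1 (r n) ((X.G g n).pt ω 0), (X.G g n).zt ω)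
    have a3 := ch_anti (P := (X n).Q) (F := fun ω => fl1 (q' n) ((X.G g n).pt ω 2))
      (G := fun ω => ((mD X D n).S (q' n) ω, fl1 (r n) ((X.G g n).pt ω 0),
        fl1 (q' n) ((X.G g n).pt ω 1), (X.G g n).zt ω))
      (G' := fun ω => (fl1 (q' n) ((X.G g n).pt ω 1), (mD X D n).S (q' n) ω,
        fl1 (r n) ((X.G g n).pt ω 0), (X.G g n).zt ω)) fun _ _ _ _ u => by
        simp only [Prod.mk.injEq] at u ⊢
        exact ⟨u.2.1, u.2.2.1, u.1, u.2.2.2⟩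
    linarith
  · have e : ∀ᶠ n in UF, q' n ≤ r n := h.mono fun n a => by exact_mod_cast (one_mul _).ge.trans a.2
    have e' : ∀ᶠ n in UF, q n ≤ r n := (h.and e).mono fun _ a => a.1.1.trans a.2
    have hM : Big M := by simpa using ((hT.cls 1 one_pos).bs X hX).big
    have g0 := one_pos.trans_le hT.one
    have b1 : ∀ n, γ * (⌊q n / γ⌋₊ : ℕ) ≤ q n := fun n =>
      (le_div_iff₀' g0).1 (Nat.floor_le (by positivity))
    have o : OM M fun n => ⌊q n / γ⌋₊ := om_le hr (e'.mono fun n a => le_trans (by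
      exact_mod_cast (le_mul_of_one_le_left (Nat.cast_nonneg (α := ℝ) _) hT.one).trans (b1 n)) a)
    have hC := hT.com X hX
    refine Le.of3 (hn q q' r hr ((h.and e).mono fun _ a => ⟨a.1.1, a.2⟩))
      (hC.fbU _ _ _ o (hC.lab _ o) q q' r (om_le hr e) hr (h.mono fun n a => ⟨b1 n, a.1⟩))
      (hD.f K g M mm D J η γ X hT hX H γ g0.le hH cH _ q r q o hr
        ((hM.sm γ).of_sub (Eventually.of_forall fun n => by
          linarith [(div_lt_iff₀' g0).1 (Nat.lt_floor_add_one (q n / γ))]))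
        (e'.mono fun _ a => ⟨a, le_rfl⟩)) ((h.and e).mono fun n a => ?_)
    have a1 := ch_chain (P := (X n).Q) (fun ω => fl1 (q' n) ((X.G g n).pt ω 1))
      (fun ω => fl1 (q' n) ((X.G g n).pt ω 2)) fun ω => (fl1 (q n) ((X.G g n).pt ω 1),
        fl1 (q n) ((X.G g n).pt ω 2), fl1 (r n) ((X.G g n).pt ω 0), (X.G g n).zt ω)
    have a2 := ch_anti (P := (X n).Q) (F := fun ω => fl1 (q' n) ((X.G g n).pt ω 2))
      (G := fun ω => (fl1 (q' n) ((X.G g n).pt ω 1), fl1 (q n) ((X.G g n).pt ω 1),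
        fl1 (q n) ((X.G g n).pt ω 2), fl1 (r n) ((X.G g n).pt ω 0), (X.G g n).zt ω))
      (G' := fun ω => (fl1 (q n) ((X.G g n).pt ω 2), fl1 (r n) ((X.G g n).pt ω 0),
        fl1 (r n) ((X.G g n).pt ω 1), (X.G g n).zt ω)) fun _ _ _ _ u => by
        simp only [Prod.mk.injEq] at u ⊢
        exact ⟨fl1_eq_of_le a.2 u.2.2.1, fl1_eq_of_le (a.1.1.trans a.2) u.2.2.1, u.1, u.2.1,
          u.2.2.2⟩
    have a3 := ch_tri (P := (X n).Q) (fun ω => fl1 (q' n) ((X.G g n).pt ω 1))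
      (fun ω => fl1 (q n) ((X.G g n).pt ω 2)) fun ω => (fl1 (q n) ((X.G g n).pt ω 1),
        fl1 (r n) ((X.G g n).pt ω 0), (mD X D n).S ⌊q n / γ⌋₊ ω, (X.G g n).zt ω)
    have a4 := ch_anti (P := (X n).Q) (F := fun ω => fl1 (q' n) ((X.G g n).pt ω 1))
      (G := fun ω => (fl1 (q n) ((X.G g n).pt ω 1), fl1 (q n) ((X.G g n).pt ω 2),
        fl1 (r n) ((X.G g n).pt ω 0), (X.G g n).zt ω))
      (G' := fun ω => (fl1 (q n) ((X.G g n).pt ω 2), fl1 (q n) ((X.G g n).pt ω 1),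
        fl1 (r n) ((X.G g n).pt ω 0), (mD X D n).S ⌊q n / γ⌋₊ ω, (X.G g n).zt ω))
      fun _ _ _ _ u => by
        simp only [Prod.mk.injEq] at u ⊢
        exact ⟨u.2.1, u.1, u.2.2.1, u.2.2.2.2⟩
    have a5 := ch_anti (P := (X n).Q) (F := fun ω => fl1 (q n) ((X.G g n).pt ω 2))
      (G := fun ω => ((mD X D n).S ⌊q n / γ⌋₊ ω, fl1 (r n) ((X.G g n).pt ω 0),
        fl1 (q n) ((X.G g n).pt ω 1), (X.G g n).zt ω))
      (G' := fun ω => (fl1 (q n) ((X.G g n).pt ω 1), fl1 (r n) ((X.G g n).pt ω 0),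
        (mD X D n).S ⌊q n / γ⌋₊ ω, (X.G g n).zt ω)) fun _ _ _ _ u => by
        simp only [Prod.mk.injEq] at u ⊢
        exact ⟨u.2.2.1, u.2.1, u.1, u.2.2.2⟩
    linarith

end Pool.Agent.MP_5168f5_an.R4.T8
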