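import Pool.Agent.MP_5168f5_an.R4.SpecTW

/-! The surface is curved. -/

namespace Pool.Agent.MP_5168f5_an.R4.T8

open H19 H17S H17F Filter Matrix Tan

namespace NQx

theorem dot_le {n : ℕ} {Y Z : V n} {y z : ℝ} (hY : ∀ i, |Y i| ≤ y) (hZ : ∀ i, |Z i| ≤ z) :
    |Y ⬝ᵥ Z| ≤ n * (y * z) := by
  refine (Finset.abs_sum_le_sum_abs _ _).trans ?_
  refine (Finset.sum_le_card_nsmul _ _ (y * z) fun i _ => ?_).trans (by simp)
  rw [abs_mul]
  exact mul_le_mul (hY i) (hZ i) (abs_nonneg _) ((abs_nonneg _).trans (hY i))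

theorem bp_le {Ω : Type} (g : Geo 3 Ω) (ω : Ω) {L t : ℝ} (hL : 1 ≤ L)
    (h : ∀ i, |g.a ω i| ≤ L ∧ |g.e ω i| ≤ L) (t0 : 0 ≤ t) (t1 : t < 1) (i : Fin 3) :
    |bp g t ω i| ≤ 2 * L := by
  have a : ∀ j, |g.lt t ω j| ≤ 2 * L := fun j => by
    have b : |t * g.e ω j| ≤ 1 * L := by
      rw [abs_mul]
      exact mul_le_mul (abs_le.2 ⟨by linarith, t1.le⟩) (h j).2 (abs_nonneg _) zero_le_one
    simp only [Geo.lt, Pi.add_apply, Pi.smul_apply, smul_eq_mul]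
    exact (abs_add_le _ _).trans (by linarith [(h j).1])
  fin_cases i
  · simp only [bp, Fin.zero_eta, cons_val_zero]
    exact abs_le.2 ⟨by linarith, by linarith⟩
  · simpa [bp] using a 0
  · simpa [bp] using a 1

theorem one {Ω : Type} (g : Geo 3 Ω) (ω : Ω) (A : Qd) {L δ t : ℝ} (hL : 1 ≤ L)
    (h : ∀ i, |g.a ω i| ≤ L ∧ |g.e ω i| ≤ L) (t0 : 0 ≤ t) (t1 : t < 1)
    (hq : ∀ i l, |sq A i l| ≤ δ) (hs : |g.lt t ω 2 - sf A (bp g t ω)| ≤ δ) :
    |g.lt t ω 2 - (sa A).2 ⬝ᵥ bp g t ω - (sa A).1| ≤ 37 * L ^ 2 * δ := by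
  have b := bp_le g ω hL h t0 t1
  have a : |bp g t ω ⬝ᵥ sq A *ᵥ bp g t ω| ≤ _ := dot_le b fun i => dot_le (hq i) b
  have d0 : 0 ≤ δ := (abs_nonneg _).trans hs
  have l : δ ≤ L ^ 2 * δ := le_mul_of_one_le_left d0 (one_le_pow₀ hL)
  push_cast at a
  rw [sf] at hs
  rw [abs_le] at a hs ⊢
  constructor <;> nlinarith [a.1, a.2, hs.1, hs.2]

end NQx

open NQx in
theorem rowNQ : NQ := by
  intro Ω K g M mm D J η γ X tw hX w A oh fA srf
  have bs : Bs X.P (X.G g) M := by simpa using (tw.cls 1 one_pos).bs X hX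
  obtain ⟨L₀, s₀, bx⟩ := bs.bx
  obtain ⟨L₁, s₁, bd⟩ := srf.bd
  refine ks.wsub X.P (fun n v L => ∃ i l, 1 ≤ L * |sq (A n v) i l|) M fun c c0 c1 => ?_
  by_contra k
  have pos := not_whp k
  have hY := tw.cl.cond X _ hX pos
  have com := tw.com _ hY
  have fr := bs.big.frac_floor c0 c1
  have o0 : OM M fun _ => 0 := ⟨0, Eventually.of_forall fun _ => Nat.zero_le _⟩
  have oM : OM M M := ⟨1, Eventually.of_forall fun _ => by omega⟩
  have oτ : OM M fun n => ⌊c * M n⌋₊ := ⟨1, Eventually.of_forall fun n => by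
    have := fr.1 n; omega⟩
  have key := oh _ hY _ _ (fun n v => (sa (A n v)).2) (fun n => 74 * L₀ n ^ 2) (fun _ => 0)
    (fun n => ⌊c * M n⌋₊) M o0 oτ oM (com.lab _ o0)
    ((s₀.pow 2).const_mul bs.big (by norm_num)) ?_ ?_
  · obtain ⟨-, κ, κ0, e⟩ := fr
    exact key.false bs.big κ0 (e.mono fun n a => by simpa using a)
  · filter_upwards [com.nest, fA] with n a b u hu v hv e
    have e1 := (a.2.1 0).2 u hu v hv e
    simp only [Prod.mk.injEq] at e1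
    exact congrArg (fun B => (sa B).2) (b u (cE_sub hu) v (cE_sub hv) e1.1)
  · refine ((bd.and (srf.surf M oM)).cE pos).mono ?_
    filter_upwards [pos.sure, bx, s₁.2 _ one_half_pos] with n a b d v hv e
    obtain ⟨hv0, hE⟩ := a v hv
    have b1 := b.bd v hv0
    have p1 : (2 : ℝ) ^ ⌊c * M n⌋₊ ≤ Real.exp (c * M n) := (two_pow_le_exp _).trans
      (Real.exp_le_exp.2 (Nat.floor_le (by positivity)))
    have hq : ∀ i l, |sq (A n v) i l| ≤ 1 / 2 ^ ⌊c * M n⌋₊ := fun i l => by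
      rw [le_div_iff₀ (by positivity), mul_comm]
      refine (mul_le_mul_of_nonneg_right p1 (abs_nonneg _)).trans (not_le.1 fun u => ?_).le
      exact hE ⟨i, l, u⟩
    have p2 : (1 : ℝ) / 2 ^ M n ≤ 1 / 2 ^ ⌊c * M n⌋₊ :=
      one_div_le_one_div_of_le (by positivity) (pow_le_pow_right₀ one_le_two (fr.1 n))
    refine ⟨fun i => (e.1.2.2 i).trans (d.trans ?_), fun t ht => ?_⟩
    · simpa [div_eq_inv_mul] using exp_le_two_pow (M n)
    · have ht' : fl1 0 t = 0 := ht.trans (fl1_zero_of_box b1.2.1 b1.2.2)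
      have t01 : 0 ≤ t ∧ t < 1 := by
        simpa [fl1, Int.floor_eq_iff] using ht'
      have u1 := one (X.G g n) v (A n v) (s₀.1 n) b1.1 t01.1 t01.2 hq
        ((e.2 t t01.1 t01.2).trans p2)
      have u2 := one (X.G g n) v (A n v) (s₀.1 n) b1.1 b1.2.1 b1.2.2 hq
        ((e.2 _ b1.2.1 b1.2.2).trans p2)
      rw [div_eq_mul_one_div]
      rw [abs_le] at u1 u2 ⊢
      constructor <;> linarith [u1.1, u1.2, u2.1, u2.2]

end Pool.Agent.MP_5168f5_an.R4.T8
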