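import Pool.Agent.MP_5168f5_an.R4.SpecTW

/-! Product cells. -/

namespace Pool.Agent.MP_5168f5_an.R4.T8

open H19 H17S H17F Filter Matrix Tan

theorem rowPrd : Prd := by
  intro Ω P g M U H γ d hM hd hγ hU hH hG a τ ha hτ
  obtain ⟨L₁, s₁, w₁⟩ := hH a τ ha hτ
  obtain ⟨L₂, s₂, w₂⟩ := hU a (fun n => ⌊γ * a n⌋₊) ha
    (Eventually.of_forall fun n => Nat.floor_le (mul_nonneg (by linarith) (Nat.cast_nonneg _)))
  obtain ⟨L₃, s₃, w₃⟩ := hG a (fun n => ⌈(γ - d) * a n⌉₊) ha (by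
    obtain ⟨C, hC⟩ := ha
    refine ⟨⌈γ - d⌉₊ * C, hC.mono fun n k => Nat.ceil_le.2 ?_⟩
    push_cast
    rw [mul_assoc]
    exact mul_le_mul (Nat.le_ceil _) (by exact_mod_cast k) (Nat.cast_nonneg _) (Nat.cast_nonneg _))
    (Eventually.of_forall fun n => Nat.le_ceil _)
  refine ⟨_, s₁.add ((s₃.mul s₂).const_mul hM (by norm_num : (1 : ℝ) ≤ 4)) hM,
    ((w₁.and w₂).and w₃).mono (hτ.mono fun n k ω _ h => ⟨fun i hi => ?_, fun t ht => ?_⟩)⟩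
  · simp only [prd, if_neg (Finset.notMem_singleton.1 hi), ite_self]
  obtain ⟨⟨⟨a1, a2⟩, b1, b2⟩, c⟩ := h
  have e : ⌈(γ - d) * a n⌉₊ + τ n ≤ ⌊γ * a n⌋₊ + 2 := by
    have k1 := Nat.ceil_lt_add_one (mul_nonneg (sub_nonneg.2 hγ) (Nat.cast_nonneg (α := ℝ) (a n)))
    have k2 := Nat.lt_floor_add_one (γ * a n)
    exact_mod_cast (by linarith : (⌈(γ - d) * a n⌉₊ + τ n : ℝ) ≤ ⌊γ * a n⌋₊ + 2)
  have e' := pow_le_pow_right₀ (one_le_two (α := ℝ)) e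
  have p2 := s₂.pos n
  have p3 := s₃.pos n
  rw [prd_pv (by decide) 0 (fun l h0 h1 => a1 l (by simp [h0, h1]))
    ⟨b1 1 (by decide), b1 2 (by decide)⟩, sub_zero, ← sub_add, add_div]
  refine (abs_add_le _ _).trans (add_le_add (a2 t ht) ?_)
  rw [abs_mul]
  refine (mul_le_mul c (b2 t ht) (abs_nonneg _) (by positivity)).trans ?_
  rw [← mul_div_assoc, div_le_div_iff₀ (by positivity) (by positivity)]
  rw [pow_add, pow_add] at e'
  nlinarith [mul_le_mul_of_nonneg_left e' (mul_pos p3 p2).le]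

end Pool.Agent.MP_5168f5_an.R4.T8
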