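import Pool.Agent.MP_5168f5_an.R4.SpecTW
import Pool.Agent.MP_5168f5_an.R4.NCp3T

/-! The quadrics of the cells are multiples of the surface. -/

namespace Pool.Agent.MP_5168f5_an.R4.T8

open H19 H17S H17F Filter Matrix Tan

namespace PropAx

/-- The matrix of the form `h - sf`. -/
noncomputable def hat (A : Qd) : Qd :=
  !![-(sa A).1, -(sa A).2 0 / 2, -(sa A).2 1 / 2, -(sa A).2 2 / 2, 1 / 2;
    -(sa A).2 0 / 2, -sq A 0 0, -sq A 0 1, -sq A 0 2, 0;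
    -(sa A).2 1 / 2, -sq A 1 0, -sq A 1 1, -sq A 1 2, 0;
    -(sa A).2 2 / 2, -sq A 2 0, -sq A 2 1, -sq A 2 2, 0;
    1 / 2, 0, 0, 0, 0]

/-- The remainder. -/
noncomputable def rem (A Ap : Qd) : Qd := A - (2 * A 0 4) • hat Ap

variable {A Ap : Qd} {L : ℝ}

theorem rem_symm (h : A.IsSymm) (h' : Ap.IsSymm) : (rem A Ap).IsSymm := by
  have k : ∀ i l, sq Ap i l = sq Ap l i := fun i l => by rw [sq, sq, h'.apply]
  refine h.sub (IsSymm.smul (IsSymm.ext fun i l => ?_) _)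
  fin_cases i <;> fin_cases l <;> simp [hat, k 1 0, k 2 0, k 2 1]

theorem rem04 : rem A Ap 0 4 = 0 := by
  simp [rem, hat]
  ring

theorem qf_rem (t : ℝ) (y : V 3) :
    qf (rem A Ap) (hom t y) = qf A (hom t y) - 2 * A 0 4 * (y 2 - sf Ap ![t, y 0, y 1]) := by
  simp [rem, hat, qf, hom, sf, mulVec, dotProduct, Fin.sum_univ_succ]
  ring

theorem pf_rem (Y W : V 5) : pf A Y W = pf (rem A Ap) Y W + 2 * A 0 4 * pf (hat Ap) Y W := by
  simp only [rem, pf, sub_mulVec, smul_mulVec, dotProduct_sub, dotProduct_smul, smul_eq_mul]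
  ring

theorem pf_hat (t : ℝ) (y : V 3) : pf (hat Ap) (hom t y) (bv 4) = 1 := by
  simp [hat, pf, hom, bv, mulVec, dotProduct, Fin.sum_univ_succ]
  norm_num

theorem pf_le {Y : V 5} {c : ℝ} (h : ∀ i l, |A i l| ≤ c) (hY : ∀ i, |Y i| ≤ L) (k : Fin 5) :
    |pf A Y (bv k)| ≤ 10 * (L * c) := by
  have e : ∀ i l, |Y i * A i l| ≤ L * c ∧ |A l i * Y i| ≤ L * c := fun i l => by
    rw [abs_mul, abs_mul, mul_comm |A l i|]
    exact ⟨mul_le_mul (hY i) (h _ _) (abs_nonneg _) ((abs_nonneg _).trans (hY i)),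
      mul_le_mul (hY i) (h _ _) (abs_nonneg _) ((abs_nonneg _).trans (hY i))⟩
  have : pf A Y (bv k) = ∑ i, (Y i * A i k + A k i * Y i) := by
    simp [pf, bv, Finset.sum_add_distrib, mulVec, dotProduct, Pi.single_apply]
  rw [this]
  refine (Finset.abs_sum_le_sum_abs _ _).trans ((Finset.sum_le_card_nsmul _ _ (L * c + L * c)
    fun i _ => (abs_add_le _ _).trans (add_le_add (e i k).1 (e i k).2)).trans_eq ?_)
  simp
  ring

theorem hat_le (hL : 1 ≤ L) (h : (∀ i k, |sq Ap i k| ≤ L) ∧ |(sa Ap).1| ≤ L ∧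
    ∀ i, |(sa Ap).2 i| ≤ L) (i l : Fin 5) : |hat Ap i l| ≤ L := by
  have k : ∀ i, |(sa Ap).2 i| / 2 ≤ L := fun i => by linarith [h.2.2 i]
  have k' : (2 : ℝ)⁻¹ ≤ L := by linarith [show (2 : ℝ)⁻¹ ≤ 1 by norm_num]
  have k0 : 0 ≤ L := by linarith
  fin_cases i <;> fin_cases l <;> simp [hat, abs_div, h.1, h.2.1, k, k', k0]

theorem main {t T ε δ : ℝ} {y : V 3} (hL : 1 ≤ L) (hT : 0 ≤ T) (hε : 0 ≤ ε)
    (hY : ∀ i, |hom t y i| ≤ L)
    (hb : (∀ i k, |sq Ap i k| ≤ L) ∧ |(sa Ap).1| ≤ L ∧ ∀ i, |(sa Ap).2 i| ≤ L)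
    (hg : Gd A (hom t y) L) (hq : |qf A (hom t y)| ≤ L * ε)
    (hs : |y 2 - sf Ap ![t, y 0, y 1]| ≤ ε)
    (hB : ∀ i l, |rem A Ap i l| ≤ L * T * |qf (rem A Ap) (hom t y)|)
    (h1 : 200 * L ^ 4 * (T * ε) ≤ δ) (h2 : δ ≤ 1) :
    |A 0 4| ≤ 80 * L ^ 3 ∧ 1 ≤ 80 * L ^ 3 * |A 0 4| ∧ ∀ i l, |rem A Ap i l| ≤ δ := by
  have b0 := abs_nonneg (A 0 4)
  have q1 : |qf (rem A Ap) (hom t y)| ≤ (L + 2 * |A 0 4|) * ε := by
    rw [qf_rem]
    refine (abs_sub _ _).trans ?_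
    rw [abs_mul, abs_mul, abs_two]
    nlinarith
  have q2 : ∀ i l, |rem A Ap i l| ≤ L * (T * ε) * (L + 2 * |A 0 4|) := fun i l =>
    (hB i l).trans ((mul_le_mul_of_nonneg_left q1 (by positivity)).trans_eq (by ring))
  have s0 := mul_nonneg hT hε
  generalize T * ε = s at h1 q2 s0
  have l2 : 1 ≤ L ^ 2 := one_le_pow₀ hL
  have s1 : 200 * (L ^ 2 * s) ≤ δ := by nlinarith [mul_nonneg (sq_nonneg L) s0]
  have p4 := pf_le q2 hY 4
  have p3 := pf_le q2 hY 3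
  have p5 := pf_le (hat_le hL hb) hY 3
  obtain ⟨g1, g2⟩ := hg
  rw [pf_rem (Ap := Ap), pf_hat, mul_one] at g1
  rw [pf_rem (Ap := Ap), pf_rem (Ap := Ap) _ (bv 3), pf_hat, mul_one] at g2
  generalize pf (rem A Ap) (hom t y) (bv 4) = x4 at p4 g1 g2
  generalize pf (rem A Ap) (hom t y) (bv 3) = x3 at p3 g2
  generalize pf (hat Ap) (hom t y) (bv 3) = x5 at p5 g2
  have a1 := abs_add_le (x4 + 2 * A 0 4) (-x4)
  have a2 := abs_add_le x4 (2 * A 0 4)
  have a3 := abs_add_le x3 (2 * A 0 4 * x5)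
  rw [add_neg_cancel_comm, abs_neg] at a1
  simp only [abs_mul, abs_two] at a1 a2 a3
  have b1 : |A 0 4| ≤ 2 * L := by nlinarith [mul_nonneg (sq_nonneg L) s0]
  have b2 : L * s * (L + 2 * |A 0 4|) ≤ 5 * (L ^ 2 * s) :=
    (mul_le_mul_of_nonneg_left (by linarith : L + 2 * |A 0 4| ≤ 5 * L) (by positivity)).trans_eq
      (by ring)
  have b3 := mul_le_mul_of_nonneg_left b2 (by linarith : 0 ≤ L)
  have b4 := mul_le_mul_of_nonneg_left p5 b0
  have b5 := mul_le_mul_of_nonneg_left l2 b0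
  refine ⟨by nlinarith, ?_, fun i l => (q2 i l).trans (by nlinarith)⟩
  have := mul_le_mul_of_nonneg_left (show |x4 + 2 * A 0 4| + |x3 + 2 * A 0 4 * x5| ≤
    100 * (L * (L ^ 2 * s)) + 40 * (|A 0 4| * L ^ 2) by nlinarith) (by linarith : 0 ≤ L)
  nlinarith

end PropAx

open PropAx in
theorem rowPropA : OfPropA := by
  intro qs Ω K g M mm D J η γ X hT hX C d w h a r ha hr
  have bs := (hT.cls 1 one_pos).bs X hX
  simp only [one_mul] at bs
  have hM := bs.big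
  have hr' := (hr.add (ha.mul 4)).add OM.rfl
  obtain ⟨L₀, s₀, e₀⟩ := bs.bx
  obtain ⟨L₁, s₁, e₁⟩ := h.srf.bd
  obtain ⟨L₂, s₂, e₂⟩ := h.cu.grad
  obtain ⟨L₃, s₃, e₃⟩ := h.cu.thin a (fun _ => 0) ha (Eventually.of_forall fun n => by
    rw [Nat.cast_zero]
    exact mul_nonneg (by linarith [h.one]) (Nat.cast_nonneg _))
  obtain ⟨L₄, s₄, e₄⟩ := qs K g M mm D J η γ X hT hX (fun n => (C n).Ap)
    (fun n v => rem ((C n).A (a n) v) ((C n).Ap v)) a ha (by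
      filter_upwards [h.cu.fn, (hT.com X hX).nest] with n u v
      refine ⟨u.1, fun x hx y hy e => ?_, fun x hx =>
        ⟨(u.2.2 x hx).1, rem_symm ((u.2.2 x hx).2 _) (u.2.2 x hx).1, rem04⟩⟩
      exact congrArg₂ rem (u.2.1 _ x hx y hy e)
        (u.1 x hx y hy (congrArg Prod.fst ((v.2.1 _).2 x hx y hy e)))) h.srf h.nq (h.sub a ha)
  have s := ((((s₀.add s₀ hM).add s₁ hM).add s₂ hM).add s₃ hM).add s₄ hM
  refine ⟨_, (s.pow 3).const_mul hM (by norm_num : (1 : ℝ) ≤ 80),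
    ((e₁.and e₄).and (h.srf.surf _ hr')).mono ?_⟩
  filter_upwards [e₀, e₂, e₃, h.cu.nu _ hr',
    ((s.pow 4).const_mul hM (by norm_num : (1 : ℝ) ≤ 200)).2 (1 / 2) (by norm_num)]
    with n u₀ u₂ u₃ u₄ u₅ v hv ⟨⟨w₁, w₄⟩, w₅⟩
  have := s₀.1 n; have := s₁.1 n; have := s₂.1 n; have := s₃.1 n; have := s₄.1 n
  obtain ⟨b1, b2, b3⟩ := u₀.bd v hv
  have pt : ∀ i, |(X.G g n).pt v i| ≤ L₀ n + L₀ n := fun i =>
    (abs_add_le _ _).trans (add_le_add (b1 i).1 ((abs_mul _ _).trans_le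
      ((mul_le_of_le_one_left (abs_nonneg _) ((abs_of_nonneg b2).trans_le b3.le)).trans (b1 i).2)))
  obtain ⟨m1, m2, m3⟩ := main (A := (C n).A (a n) v) (Ap := (C n).Ap v)
    (L := L₀ n + L₀ n + L₁ n + L₂ n + L₃ n + L₄ n) (t := (X.G g n).z v) (y := (X.G g n).pt v)
    (T := 2 ^ (4 * a n)) (ε := 1 / 2 ^ (r n + 4 * a n + M n)) (δ := 1 / 2 ^ r n) (s.1 n)
    (by positivity) (by positivity)
    (Fin.forall_fin_succ.2 ⟨abs_one.trans_le (s.1 n), Fin.forall_fin_succ.2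
      ⟨(abs_of_nonneg b2).trans_le (by linarith), fun i => by
        fin_cases i <;> exact (pt _).trans (by linarith)⟩⟩)
    ⟨fun i k => (w₁.1 i k).trans (by linarith), w₁.2.1.trans (by linarith),
      fun i => (w₁.2.2 i).trans (by linarith)⟩
    ⟨((u₂ v hv).2 _).1.trans (by linarith), ((u₂ v hv).2 _).2.trans
      (mul_le_mul_of_nonneg_right (by linarith) (by positivity))⟩
    (by
      have k := u₃ v hv _ rfl
      rw [abs_mul, pow_zero, div_one, abs_of_pos (by positivity)] at k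
      rw [mul_one_div, le_div_iff₀' (by positivity)]
      exact (mul_le_mul_of_nonneg_right (pow_le_pow_right₀ one_le_two u₄) (abs_nonneg _)).trans
        (k.trans (by linarith)))
    (w₅ _ b2 b3) (fun i l => (w₄ i l).trans (by gcongr; linarith))
    (by
      refine (mul_le_mul_of_nonneg_right (u₅.trans (le_of_eq_of_le (by rw [one_div_mul_eq_div])
        (exp_le_two_pow (M n)))) (by positivity)).trans_eq ?_
      rw [pow_add, pow_add]
      field_simp)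
    ((div_le_one (by positivity)).2 (one_le_pow₀ one_le_two))
  refine ⟨m1, m2, fun i => le_of_eq_of_le (congrArg _ ?_) (m3 i.succ 4),
    le_of_eq_of_le (congrArg _ ?_) (m3 0 0), fun i => ⟨le_of_eq_of_le (congrArg _ ?_) (m3 0 (ix i)),
      fun l => le_of_eq_of_le (congrArg _ ?_) (m3 (ix i) (ix l))⟩⟩
  · fin_cases i <;> simp [rem, hat]
  · simp [rem, hat]
  · fin_cases i <;> simp [rem, hat, ix] <;> ring
  · fin_cases i <;> fin_cases l <;> simp [rem, hat, ix]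

end Pool.Agent.MP_5168f5_an.R4.T8
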