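import Pool.Agent.MP_5168f5_an.R4.SpecTW

/-! A quadric without the linear term in the last coordinate is not small on a curved surface. -/

namespace Pool.Agent.MP_5168f5_an.R4.T8

open H19 H17S H17F Filter Matrix Tan

namespace QSx

theorem coef {c0 c1 c2 c3 c4 U : ℝ}
    (h : ∀ s : ℝ, |s| ≤ 1 → |c0 + c1 * s + c2 * s ^ 2 + c3 * s ^ 3 + c4 * s ^ 4| ≤ U) :
    |c0| ≤ 16 * U ∧ |c1| ≤ 16 * U ∧ |c2| ≤ 16 * U ∧ |c3| ≤ 16 * U ∧ |c4| ≤ 16 * U := by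
  have a0 := abs_le.1 (h 0 (by norm_num))
  have a1 := abs_le.1 (h 1 (by norm_num))
  have a2 := abs_le.1 (h (-1) (by norm_num))
  have a3 := abs_le.1 (h (1 / 2) (by norm_num [abs_le]))
  have a4 := abs_le.1 (h (-1 / 2) (by norm_num [abs_le]))
  simp only [abs_le]
  refine ⟨⟨?_, ?_⟩, ⟨?_, ?_⟩, ⟨?_, ?_⟩, ⟨?_, ?_⟩, ?_, ?_⟩ <;>
    linarith [a0.1, a0.2, a1.1, a1.2, a2.1, a2.2, a3.1, a3.2, a4.1, a4.2]

theorem mul_le {x y a b : ℝ} (h : |x| ≤ a) (h' : |y| ≤ b) : |x * y| ≤ a * b :=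
  (abs_mul x y).trans_le (mul_le_mul h h' (abs_nonneg _) ((abs_nonneg _).trans h))

theorem dot_le {u v : V 3} {a b : ℝ} (h : ∀ i, |u i| ≤ a) (h' : ∀ i, |v i| ≤ b) :
    |u ⬝ᵥ v| ≤ 3 * (a * b) :=
  (Finset.abs_sum_le_sum_abs _ _).trans ((Finset.sum_le_card_nsmul _ _ _
    fun i _ => mul_le (h i) (h' i)).trans_eq (by simp))

theorem bil_le {u v : V 3} {q : Matrix (Fin 3) (Fin 3) ℝ} {a b L : ℝ} (h : ∀ i, |u i| ≤ a)
    (hq : ∀ i l, |q i l| ≤ L) (h' : ∀ i, |v i| ≤ b) : |u ⬝ᵥ q *ᵥ v| ≤ 9 * (a * L * b) :=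
  (dot_le h fun i => dot_le (hq i) h').trans_eq (by ring)

theorem e1 (i j : Fin 3) : |(Pi.single i 1 : V 3) j| ≤ 1 := by
  rw [Pi.single_apply]; split_ifs <;> simp

theorem e2 (i l j : Fin 3) : |(Pi.single i 1 + Pi.single l 1 : V 3) j| ≤ 2 :=
  (abs_add_le _ _).trans (by linarith [e1 i j, e1 l j])

theorem pol {q : Matrix (Fin 3) (Fin 3) ℝ} (hq : q.IsSymm) {U : ℝ}
    (h : ∀ w : V 3, (∀ i, |w i| ≤ 2) → |w ⬝ᵥ q *ᵥ w| ≤ U) (i l : Fin 3) : |q i l| ≤ 2 * U := by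
  have a1 := abs_le.1 (h _ fun j => (e1 i j).trans one_le_two)
  have a2 := abs_le.1 (h _ fun j => (e1 l j).trans one_le_two)
  have a3 := abs_le.1 (h _ (e2 i l))
  simp only [mulVec_add, dotProduct_add, add_dotProduct, single_one_dotProduct, mulVec_single_one,
    col_apply, hq.apply i l] at a1 a2 a3
  exact abs_le.2 ⟨by linarith [a1.1, a1.2, a2.2, a3.1], by linarith [a1.1, a1.2, a2.1, a3.2]⟩

theorem lin {q : Matrix (Fin 3) (Fin 3) ℝ} {c w : V 3} {L U : ℝ} (hL : 1 ≤ L)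
    (hq : ∀ i l, |q i l| ≤ L) (hw : ∀ i, |w i| ≤ 2) (h1 : 1 ≤ 4 * L * |w ⬝ᵥ q *ᵥ w|)
    (h : ∀ v : V 3, (∀ i, |v i| ≤ 3) → |v ⬝ᵥ q *ᵥ v * (c ⬝ᵥ v)| ≤ U) (j : Fin 3) :
    |c j| ≤ 10000 * L ^ 3 * U := by
  have a1 := bil_le hw hq (e1 j)
  have a2 := bil_le (e1 j) hq hw
  obtain ⟨b0, b1, -⟩ := coef (c0 := w ⬝ᵥ q *ᵥ w * (c ⬝ᵥ w)) (c1 := w ⬝ᵥ q *ᵥ w * c j +
    (w ⬝ᵥ q *ᵥ Pi.single j 1 + Pi.single j 1 ⬝ᵥ q *ᵥ w) * (c ⬝ᵥ w))
    (c2 := (w ⬝ᵥ q *ᵥ Pi.single j 1 + Pi.single j 1 ⬝ᵥ q *ᵥ w) * c j +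
      Pi.single j 1 ⬝ᵥ q *ᵥ Pi.single j 1 * (c ⬝ᵥ w))
    (c3 := Pi.single j 1 ⬝ᵥ q *ᵥ Pi.single j 1 * c j) (c4 := 0) (U := U) fun s hs => by
      refine le_of_eq_of_le (congrArg _ ?_) (h (w + s • Pi.single j 1) fun i =>
        (abs_add_le _ _).trans ((add_le_add (hw i) (mul_le hs (e1 j i))).trans (by norm_num)))
      simp only [mulVec_add, mulVec_smul, dotProduct_add, add_dotProduct, dotProduct_smul,
        smul_dotProduct, smul_eq_mul, dotProduct_single_one c]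
      ring
  have k : ∀ x y : ℝ, |w ⬝ᵥ q *ᵥ w * x| ≤ y → |x| ≤ 4 * L * y := fun x y e => by
    rw [abs_mul] at e
    nlinarith [abs_nonneg x]
  have b2 := mul_le ((abs_add_le _ _).trans (add_le_add a1 a2)) (k _ _ b0)
  have u0 : 0 ≤ U := by linarith [abs_nonneg (w ⬝ᵥ q *ᵥ w * (c ⬝ᵥ w))]
  refine (k _ (16 * U + 2304 * L ^ 2 * U) ?_).trans ?_
  · rw [abs_le] at b1 b2 ⊢
    constructor <;> linarith [b1.1, b1.2, b2.1, b2.2]
  · nlinarith [mul_nonneg (mul_nonneg u0 (one_pos.trans_le hL).le)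
      (sub_nonneg.2 (one_le_pow₀ hL : 1 ≤ L ^ 2))]

variable {A B : Qd}

/-- The quadric on the surface. -/
noncomputable def Ph (A B : Qd) (p : V 3) : ℝ := qf B (up A p)

theorem ray (A B : Qd) (p w : V 3) : ∃ c0 c1 c2 c3 c4 : ℝ, ∀ s : ℝ,
    Ph A B (p + s • w) = c0 + c1 * s + c2 * s ^ 2 + c3 * s ^ 3 + c4 * s ^ 4 := by
  obtain ⟨Y, Y', e⟩ : ∃ Y Y' : V 5, ∀ s : ℝ, up A (p + s • w) = up A p + s • Y + s ^ 2 • Y' :=
    ⟨![0, w 0, w 1, w 2, (sa A).2 ⬝ᵥ w + p ⬝ᵥ sq A *ᵥ w + w ⬝ᵥ sq A *ᵥ p],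
      ![0, 0, 0, 0, w ⬝ᵥ sq A *ᵥ w], fun s => funext fun i => by
        fin_cases i <;> simp [up, sf, mulVec_add, mulVec_smul]
        ring⟩
  refine ⟨qf B (up A p), pf B (up A p) Y, qf B Y + pf B (up A p) Y', pf B Y Y', qf B Y',
    fun s => ?_⟩
  simp only [Ph, e, qf, pf, mulVec_add, mulVec_smul, dotProduct_add, add_dotProduct,
    dotProduct_smul, smul_dotProduct, smul_eq_mul]
  ring

theorem q4 (A B : Qd) : Q4 (Ph A B) := fun i p => by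
  obtain ⟨c0, c1, c2, c3, c4, e⟩ := ray A B (Function.update p i 0) (Pi.single i 1)
  refine ⟨fun k => [c0, c1, c2, c3, c4].getD k 0, fun s => ?_⟩
  rw [show Function.update p i s = Function.update p i 0 + s • Pi.single i 1 from
    funext fun j => by by_cases h : j = i <;> simp [h], e]
  simp [ev, Finset.sum_range_succ]

theorem ext {p : V 3} {L T U : ℝ} (hL : 1 ≤ L) (hT : 1 ≤ T) (hp : ∀ i, |p i| ≤ L)
    (h : ∀ v : V 3, (∀ i, |v i - p i| ≤ 1 / T) → |Ph A B v| ≤ U) (v : V 3) (hv : ∀ i, |v i| ≤ 3) :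
    |Ph A B v| ≤ 80 * (4 * L * T) ^ 4 * U := by
  have s1 : 1 ≤ 4 * L * T := one_le_mul_of_one_le_of_one_le (by linarith) hT
  obtain ⟨c0, c1, c2, c3, c4, e⟩ := ray A B p ((4 * L * T)⁻¹ • (v - p))
  obtain ⟨b0, b1, b2, b3, b4⟩ := coef (U := U) fun s hs => e s ▸ h _ fun i => by
    have := mul_le hs (mul_le (abs_of_pos (inv_pos.2 (one_pos.trans_le s1))).le
      ((abs_sub _ _).trans (by linarith [hv i, hp i] : |v i| + |p i| ≤ 4 * L)))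
    refine le_of_eq_of_le (by simp) (this.trans_eq ?_)
    field_simp
  have e' := e (4 * L * T)
  rw [smul_smul, mul_inv_cancel₀ (by positivity), one_smul, add_sub_cancel] at e'
  generalize 4 * L * T = S at *
  have k : ∀ (c : ℝ) (j : ℕ), j ≤ 4 → |c| ≤ 16 * U → |c * S ^ j| ≤ 16 * U * S ^ 4 :=
    fun c j hj hc => mul_le hc ((abs_of_pos (by positivity)).trans_le (pow_le_pow_right₀ s1 hj))
  have d0 := abs_le.1 (k _ 0 (by omega) b0)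
  have d1 := abs_le.1 (k _ 1 (by omega) b1)
  have d2 := abs_le.1 (k _ 2 (by omega) b2)
  have d3 := abs_le.1 (k _ 3 (by omega) b3)
  have d4 := abs_le.1 (k _ 4 (by omega) b4)
  rw [e', abs_le]
  constructor <;> linarith [d0.1, d0.2, d1.1, d1.2, d2.1, d2.2, d3.1, d3.2, d4.1, d4.2]

theorem dec (hB : B.IsSymm) (h0 : B 0 4 = 0) (p : V 3) (s : ℝ) : qf B ![1, p 0, p 1, p 2, s] =
    B 0 0 + 2 * ((fun i => B 0 (ix i)) ⬝ᵥ p) + p ⬝ᵥ B.submatrix ix ix *ᵥ p +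
      2 * s * ((fun i => B (ix i) 4) ⬝ᵥ p) + B 4 4 * s ^ 2 := by
  have e := hB.apply
  simp [qf, dotProduct, mulVec, Fin.sum_univ_succ, ix]
  simp [e 0 1, e 0 2, e 0 3, e 0 4, e 1 4, e 2 4, e 3 4, h0]
  ring

theorem ent {β : ℝ} (hB : B.IsSymm) (h0 : B 0 4 = 0) (h1 : |B 0 0| ≤ β) (h2 : |B 4 4| ≤ β)
    (h3 : ∀ i, |B 0 (ix i)| ≤ β ∧ |B (ix i) 4| ≤ β ∧ ∀ l, |B (ix i) (ix l)| ≤ β) (i l : Fin 5) :
    |B i l| ≤ β := by
  have c : ∀ i : Fin 5, i = 0 ∨ i = 4 ∨ ∃ j, i = ix j := by decide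
  have z : |B 0 4| ≤ β := by rw [h0, abs_zero]; exact (abs_nonneg _).trans h1
  rcases c i with rfl | rfl | ⟨i, rfl⟩ <;> rcases c l with rfl | rfl | ⟨l, rfl⟩
  exacts [h1, z, (h3 l).1, hB.apply 4 0 ▸ z, h2, hB.apply 4 (ix l) ▸ (h3 l).2.1,
    hB.apply (ix i) 0 ▸ (h3 i).1, (h3 i).2.1, (h3 i).2.2 l]

theorem top {L U : ℝ} (hL : 1 ≤ L) (hA : A.IsSymm) (hB : B.IsSymm) (h0 : B 0 4 = 0)
    (hq : ∀ i l, |sq A i l| ≤ L) (h1 : |(sa A).1| ≤ L) (h2 : ∀ i, |(sa A).2 i| ≤ L)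
    (h3 : ∃ i l, 1 ≤ L * |sq A i l|) (h : ∀ v : V 3, (∀ i, |v i| ≤ 3) → |Ph A B v| ≤ U) (i l) :
    |B i l| ≤ 10 ^ 9 * L ^ 4 * U := by
  have qs : (sq A).IsSymm := IsSymm.ext fun i l => by simp only [sq, hA.apply (ix i)]
  have bs : (B.submatrix ix ix).IsSymm := hB.submatrix ix
  have u0 : 0 ≤ U := (abs_nonneg _).trans (h 0 (by simp))
  have l0 : 0 < L := one_pos.trans_le hL
  obtain ⟨b, hb⟩ : ∃ b : V 3, b = fun i => B (ix i) 4 := ⟨_, rfl⟩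
  obtain ⟨b', hb'⟩ : ∃ b : V 3, b = fun i => B 0 (ix i) := ⟨_, rfl⟩
  have k := fun (w : V 3) (hw : ∀ i, |w i| ≤ 3) => coef (c0 := B 0 0 + B 4 4 * (sa A).1 ^ 2)
    (c1 := 2 * (b' ⬝ᵥ w) + 2 * ((sa A).1 * (b ⬝ᵥ w)) + 2 * (B 4 4 * ((sa A).1 * ((sa A).2 ⬝ᵥ w))))
    (c2 := w ⬝ᵥ B.submatrix ix ix *ᵥ w + 2 * ((sa A).2 ⬝ᵥ w * (b ⬝ᵥ w)) + B 4 4 *
      ((sa A).2 ⬝ᵥ w * ((sa A).2 ⬝ᵥ w)) + 2 * (B 4 4 * ((sa A).1 * (w ⬝ᵥ sq A *ᵥ w))))
    (c3 := 2 * (w ⬝ᵥ sq A *ᵥ w * ((b + B 4 4 • (sa A).2) ⬝ᵥ w)))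
    (c4 := B 4 4 * (w ⬝ᵥ sq A *ᵥ w) ^ 2) (U := U) fun s hs => by
      refine le_of_eq_of_le (congrArg _ ?_) (h (s • w) fun i =>
        (mul_le hs (hw i)).trans_eq (one_mul _))
      rw [Ph, up, dec hB h0, ← hb, ← hb']
      simp only [sf, mulVec_smul, add_dotProduct, dotProduct_smul, smul_dotProduct, smul_eq_mul]
      ring
  obtain ⟨w, w1, w2⟩ : ∃ w : V 3, (∀ i, |w i| ≤ 2) ∧ 1 ≤ 4 * L * |w ⬝ᵥ sq A *ᵥ w| := by
    by_contra c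
    obtain ⟨i, l, e⟩ := h3
    have c1 : ∀ w : V 3, (∀ i, |w i| ≤ 2) → |w ⬝ᵥ sq A *ᵥ w| ≤ (4 * L)⁻¹ := fun w hw => by
      rw [inv_eq_one_div, le_div_iff₀' (by positivity)]
      exact (not_le.1 fun x => c ⟨w, hw, x⟩).le
    have c2 := mul_le_mul_of_nonneg_left (pol qs c1 i l) l0.le
    have : L * (2 * (4 * L)⁻¹) = 1 / 2 := by field_simp; norm_num
    linarith
  have p2 : L ^ 2 * U ≤ L ^ 4 * U := by gcongr; norm_num
  have p0 : 1 * U ≤ L ^ 4 * U := by gcongr; exact one_le_pow₀ hL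
  have p3 : L ^ 3 * U ≤ L ^ 4 * U := by gcongr; norm_num
  have d4 : |B 4 4| ≤ 256 * L ^ 2 * U := by
    have a := (k w fun i => (w1 i).trans (by norm_num)).2.2.2.2
    rw [abs_mul, abs_pow] at a
    have := mul_le_mul_of_nonneg_left (one_le_pow₀ (n := 2) w2) (abs_nonneg (B 4 4))
    nlinarith [mul_le_mul_of_nonneg_left a (sq_nonneg L)]
  have d3 : ∀ j, |b j| ≤ 10 ^ 5 * L ^ 3 * U := fun j => by
    have a1 := abs_le.1 (lin (U := 8 * U) hL hq w1 w2 (fun v hv => by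
      have := (k v hv).2.2.2.1
      rw [abs_mul, abs_two] at this
      linarith) j)
    have a2 := abs_le.1 (mul_le d4 (h2 j))
    have a3 : 0 ≤ L ^ 3 * U := by positivity
    simp only [Pi.add_apply, Pi.smul_apply, smul_eq_mul] at a1
    exact abs_le.2 ⟨by linarith [a1.1, a2.2], by linarith [a1.2, a2.1]⟩
  refine ent hB h0 ?_ (by linarith) (fun j => ⟨?_, (congrFun hb j ▸ d3 j).trans (by linarith),
    fun l => (pol (U := 10 ^ 8 * L ^ 4 * U) bs (fun v hv => ?_) j l).trans (by linarith)⟩) i l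
  · have a1 := abs_le.1 (k 0 (by simp)).1
    have a2 := abs_le.1 (mul_le d4 ((abs_pow _ 2).trans_le (pow_le_pow_left₀ (abs_nonneg _) h1 2)))
    exact abs_le.2 ⟨by linarith [a1.1, a2.2], by linarith [a1.2, a2.1]⟩
  · have a1 := abs_le.1 (k (Pi.single j 1) fun i => (e1 j i).trans (by norm_num)).2.1
    have a2 := abs_le.1 (mul_le h1 (d3 j))
    have a3 := abs_le.1 (mul_le d4 (mul_le h1 (h2 j)))
    simp only [dotProduct_single_one, hb'] at a1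
    exact abs_le.2 ⟨by linarith [a1.1, a2.2, a3.2], by linarith [a1.2, a2.1, a3.1]⟩
  · have a1 := abs_le.1 (k v fun i => (hv i).trans (by norm_num)).2.2.1
    have a2 := abs_le.1 (mul_le (dot_le h2 hv) (dot_le d3 hv))
    have a3 := abs_le.1 (mul_le d4 (mul_le (dot_le h2 hv) (dot_le h2 hv)))
    have a4 := abs_le.1 (mul_le d4 (mul_le h1 (bil_le hv hq hv)))
    exact abs_le.2 ⟨by linarith [a1.1, a2.2, a3.2, a4.2], by linarith [a1.2, a2.1, a3.1, a4.1]⟩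

theorem core {L T ε z : ℝ} {y : V 3} (hL : 1 ≤ L) (hT : 1 ≤ T) (hA : A.IsSymm) (hB : B.IsSymm)
    (h0 : B 0 4 = 0) (hq : ∀ i l, |sq A i l| ≤ L) (h1 : |(sa A).1| ≤ L)
    (h2 : ∀ i, |(sa A).2 i| ≤ L) (h3 : ∃ i l, 1 ≤ L * |sq A i l|) (hz : |z| ≤ L)
    (hy : ∀ i, |y i| ≤ L) (he : |y 2 - sf A ![z, y 0, y 1]| ≤ ε)
    (h : ∀ v : V 3, (∀ i, |v i - ![z, y 0, y 1] i| ≤ 1 / T) →
      |Ph A B v| ≤ L * |Ph A B ![z, y 0, y 1]|) (hε : 10 ^ 15 * L ^ 10 * T ^ 4 * ε ≤ 1) (i l) :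
    |B i l| ≤ 10 ^ 15 * L ^ 10 * T ^ 4 * |qf B (hom z y)| := by
  have hp : ∀ i, |![z, y 0, y 1] i| ≤ L := fun i => by
    fin_cases i
    exacts [hz, hy 0, hy 1]
  obtain ⟨⟨a, b⟩, m⟩ := Finite.exists_max fun x : Fin 5 × Fin 5 => |B x.1 x.2|
  have k1 := top hL hA hB h0 hq h1 h2 h3 (ext hL hT hp h) a b
  have e0 := (abs_nonneg _).trans he
  have p1 : 1 ≤ L ^ 9 * T ^ 4 := one_le_mul_of_one_le_of_one_le (one_le_pow₀ hL) (one_le_pow₀ hT)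
  have p2 : 1 ≤ L * (L ^ 9 * T ^ 4) := one_le_mul_of_one_le_of_one_le hL p1
  have e1 : ε ≤ L := by nlinarith
  have k2 : |Ph A B ![z, y 0, y 1]| ≤ |qf B (hom z y)| + 9 * (ε * |B a b| * L) := by
    have a0 : Ph A B ![z, y 0, y 1] = _ := dec hB h0 ![z, y 0, y 1] _
    have a1 : qf B (hom z y) = _ := dec hB h0 ![z, y 0, y 1] (y 2)
    have a2 := mul_le he (dot_le (fun i => m (ix i, 4)) hp)
    have a3 := mul_le he (mul_le (m (4, 4)) (show |2 * y 2 - (y 2 - sf A ![z, y 0, y 1])| ≤ 3 * L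
      from (abs_sub _ _).trans (by rw [abs_mul, abs_two]; linarith [hy 2])))
    refine sub_le_iff_le_add'.1 ((abs_sub_abs_le_abs_sub _ _).trans ?_)
    dsimp only at a2 a3
    rw [a0, a1, abs_le]
    rw [abs_le] at a2 a3
    constructor <;> linarith [a2.1, a2.2, a3.1, a3.2]
  have q1 := mul_le_mul_of_nonneg_left k2 (zero_le_one.trans p1)
  have q2 := mul_le_mul_of_nonneg_right hε (abs_nonneg (B a b))
  have q3 : 0 ≤ L ^ 9 * T ^ 4 * |qf B (hom z y)| := by positivity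
  exact (m (i, l)).trans (by linarith [le_mul_of_one_le_left q3 hL, abs_nonneg (B a b)])

end QSx

theorem rowQS : QS := by
  intro Ω K g M mm D J η γ X hT hX A B a ⟨C, hC⟩ hF hS ⟨L2, s2, w2⟩ hsub
  have bs := (hT.cls 1 one_pos).bs X hX
  simp only [one_mul] at bs
  obtain ⟨L0, s0, w0⟩ := bs.bx
  obtain ⟨L1, s1, w1⟩ := hS.bd
  obtain ⟨L3, s3, w3⟩ := hsub (fun n v => QSx.Ph (A n v) (B n v)) (fun _ => 1)
    (by simpa using s0.pow 0) (by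
      filter_upwards [hF, (hT.com X hX).nest] with n e k
      refine ⟨fun u hu v hv c => ?_, fun v _ => QSx.q4 _ _⟩
      simp only [e.2.1 u hu v hv c,
        e.1 u hu v hv (congrArg (·.1) ((k.2.1 (a n)).2 u hu v hv c))])
  have s4 := ((s0.add s0 bs.big).mul s1).mul (s2.mul s3)
  have s5 := (s4.pow 10).const_mul bs.big (C := 10 ^ 15) (by norm_num)
  refine ⟨_, s5, (w1.and (w2.and (w3.and (hS.surf (fun n => 4 * a n + M n)
    ⟨4 * C + 1, hC.mono fun n e => by nlinarith⟩)))).mono ?_⟩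
  filter_upwards [w0, hF, s5.2 _ (Real.log_pos one_lt_two)] with n b e c v hv ⟨d1, d2, d3, d4⟩ i l
  have p0 := s0.1 n
  have p1 := s1.1 n
  have p2 := s2.1 n
  have p3 := s3.1 n
  obtain ⟨f1, f2, f3⟩ := b.bd v hv
  have p4 := one_le_mul_of_one_le_of_one_le p2 p3
  have p5 : 1 ≤ (L0 n + L0 n) * L1 n := one_le_mul_of_one_le_of_one_le (by linarith) p1
  have m0 := (le_mul_of_one_le_right (by linarith : 0 ≤ L0 n + L0 n) p1).trans
    (le_mul_of_one_le_right (by linarith) p4)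
  have m1 := (le_mul_of_one_le_left (by linarith : 0 ≤ L1 n) (by linarith : 1 ≤ L0 n + L0 n)).trans
    (le_mul_of_one_le_right (by linarith) p4)
  have m2 := (le_mul_of_one_le_right (by linarith : 0 ≤ L2 n) p3).trans
    (le_mul_of_one_le_left (by linarith) p5)
  have m3 := (le_mul_of_one_le_left (by linarith : 0 ≤ L3 n) p2).trans
    (le_mul_of_one_le_left (by linarith) p5)
  rw [pow_mul' 2 4]
  refine QSx.core (s4.1 n) (one_le_pow₀ one_le_two) (e.2.2 v hv).1 (e.2.2 v hv).2.1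
    (e.2.2 v hv).2.2 (fun i l => (d1.1 i l).trans m1) (d1.2.1.trans m1)
    (fun i => (d1.2.2 i).trans m1) (d2.imp fun i x => x.imp fun l x =>
      x.trans (mul_le_mul_of_nonneg_right m2 (abs_nonneg _))) (by rw [abs_of_nonneg f2]; linarith)
    (fun i => ((abs_add_le _ _).trans (add_le_add (f1 i).1 ((QSx.mul_le
      ((abs_of_nonneg f2).trans_le f3.le) (f1 i).2).trans_eq (one_mul _)))).trans m0)
    (d4 _ f2 f3) (fun p hp => (d3 p hp).trans (mul_le_mul_of_nonneg_right m3 (abs_nonneg _))) ?_ i l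
  rw [mul_comm (Real.log 2), Real.exp_nat_mul, Real.exp_log two_pos] at c
  rw [← pow_mul', pow_add, mul_one_div, div_le_one (by positivity), mul_comm _ (2 ^ (4 * a n))]
  exact mul_le_mul_of_nonneg_left c (by positivity)

end Pool.Agent.MP_5168f5_an.R4.T8
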