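import Pool.Agent.MP_5168f5_an.R4.SpecTW

/-! The coefficients of the planes of the cells are bounded. -/

namespace Pool.Agent.MP_5168f5_an.R4.T8

open H19 H17S H17F Filter Matrix Tan

namespace Revx

theorem le_up {M mm : ℕ → ℕ} (h : Sm M fun n => mm n) {f g : ℕ → ℝ} (e : Le mm f g) :
    Le M f g := fun ε hε => by
  filter_upwards [e ε hε, h 1 one_pos] with n a b
  nlinarith

/-- The slope of the distance to the plane along the line. -/
theorem slope {Ω : Type} (g : Geo 3 Ω) (v : Ω) (i : Fin 3) (d : Pl) (a : ℕ) {L : ℝ}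
    (h : ∀ t : ℝ, fl1 a t = fl1 a (g.z v) → |g.lt t v i - pv d t (g.lt t v)| ≤ L / 2 ^ a) :
    |g.e v i - ps d (g.e v)| ≤ 4 * L := by
  have p0 : (0 : ℝ) < 2 ^ a := by positivity
  have f : ∀ s : ℝ, 0 ≤ s → s < 1 → fl1 a (((fl1 a (g.z v) : ℝ) + s) / 2 ^ a) = fl1 a (g.z v) := by
    intro s h0 h1
    rw [fl1, mul_div_cancel₀ _ p0.ne', Int.floor_intCast_add, Int.floor_eq_zero_iff.2 ⟨h0, h1⟩,
      add_zero]
  have h0 := (le_div_iff₀ p0).1 (h _ (f 0 le_rfl one_pos))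
  have h1 := (le_div_iff₀ p0).1 (h _ (f (1 / 2) (by norm_num) (by norm_num)))
  rw [← abs_of_pos p0, ← abs_mul, abs_of_pos p0, abs_le] at h0 h1
  have e : ∀ t : ℝ, g.lt t v i - pv d t (g.lt t v) =
      g.a v i - pv d 0 (g.a v) + t * (g.e v i - ps d (g.e v)) := fun t => by
    simp only [Geo.lt, pv, ps, Fin.sum_univ_three, Pi.add_apply, Pi.smul_apply, smul_eq_mul]
    ring
  rw [e, add_mul, mul_right_comm, div_mul_cancel₀ _ p0.ne'] at h0 h1
  rw [abs_le]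
  constructor <;> nlinarith [h0.1, h0.2, h1.1, h1.2]

/-- The coefficients as a polynomial in the broad slope. -/
def cf (d : Pl) (l : ℕ) : ℝ := if l = 0 then d.2.1 else if l = 1 then d.2.2 0 else 0

theorem ev_cf (d : Pl) (x : ℝ) : ev 2 (cf d) x = d.2.1 + d.2.2 0 * x := by
  simp [ev, cf, Finset.sum_range_succ]

theorem num {d : Pl} {e : V 3} {i : Fin 3} {B L₁ L₂ : ℝ} (h2 : d.2.2 2 = 0)
    (he : ∀ l, |e l| ≤ B) (hs : |e i - ps d e| ≤ 4 * L₁) (hu : |d.2.2 1| ≤ L₂) :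
    |ev 2 (cf d) (e 0)| ≤ B + 4 * L₁ + L₂ * B := by
  have e1 : ev 2 (cf d) (e 0) = e i - (e i - ps d e) - d.2.2 1 * e 1 := by
    rw [ev_cf, ps, Fin.sum_univ_three, h2]; ring
  have e2 : |d.2.2 1 * e 1| ≤ L₂ * B := by
    rw [abs_mul]; exact mul_le_mul hu (he 1) (abs_nonneg _) ((abs_nonneg _).trans hu)
  rw [e1]
  exact (abs_sub _ _).trans (add_le_add ((abs_sub _ _).trans (add_le_add (he i) hs)) e2)

end Revx

open Revx in
theorem rowRev : OfRev := by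
  intro H Ω K g M mm D J η γ X h hX S i d wt hw hS hF hC hu a τ ha hτ
  have hc : Cls0 K g M 0 η := by simpa only [one_mul] using h.cls 1 one_pos
  obtain ⟨hM, ⟨B, hB, hb⟩, -, -⟩ := hc.bs X hX
  obtain ⟨L₁, s₁, w₁⟩ := hC a a ha
    (Eventually.of_forall fun n => le_mul_of_one_le_left (Nat.cast_nonneg _) hw)
  obtain ⟨L₂, s₂, w₂⟩ := hu a ha
  obtain ⟨L₃, s₃, w₃⟩ := H K g M 0 η X (fun n => (mD X D n).S (a n))
    (fun n v => cf (d n (a n) v)) hc hX (le_up h.sm ((h.com X hX).lab a ha).l)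
    (hF.mono fun n c => (Fn.comp cf _).trans (c (a n)))
  obtain ⟨L₄, s₄, w₄⟩ := hC a τ ha hτ
  have s₅ := s₃.mul ((hB.add (s₁.const_mul hM (C := 4) (by norm_num)) hM).add (s₂.mul hB) hM)
  refine ⟨_, (s₅.add s₂ hM).add s₄ hM, (((w₁.and w₂).and w₃).and w₄).mono ?_⟩
  filter_upwards [hb] with n b v hv ⟨⟨⟨x₁, x₂⟩, x₃⟩, x₄⟩
  have z2 := x₁.1 2 hS
  have k := mul_le_mul_of_nonneg_left
    (num z2 (fun l => ((b.bd v hv).1 l).2) (slope _ v i _ _ x₁.2) x₂) (s₃.pos n).le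
  have k0 : |(d n (a n) v).2.1| ≤ _ := (x₃ 0 (by norm_num)).trans k
  have k1 : |(d n (a n) v).2.2 0| ≤ _ := (x₃ 1 (by norm_num)).trans k
  have p₂ := s₂.pos n
  have p₄ := s₄.pos n
  have p₅ := s₅.pos n
  refine ⟨by linarith, fun l => ⟨?_, x₁.1 l⟩, fun t ht => ?_⟩
  · fin_cases l
    · exact k1.trans (by linarith)
    · exact x₂.trans (by linarith)
    · exact (congrArg abs z2).trans_le (by rw [abs_zero]; linarith)
  · have e := x₄.2 t ht
    rw [pv, ← sub_sub, ← sub_sub] at e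
    exact e.trans (div_le_div_of_nonneg_right (by linarith) (by positivity))

end Pool.Agent.MP_5168f5_an.R4.T8
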