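import Pool.Agent.MP_5168f5_an.R4.SpecTW
import Pool.Agent.MP_5168f5_an.R4.XSpr

/-! A polynomial in three jointly full variables is controlled by its value at the point. -/

namespace Pool.Agent.MP_5168f5_an.R4.T8

open H19 H17S H17F Filter Matrix Tan

namespace Sub3x

/-- Polynomial functions of degree at most four. -/
def P4 (f : ℝ → ℝ) : Prop := ∃ C : ℕ → ℝ, ∀ s, f s = ev 4 C s

theorem sl0 {F : V 3 → ℝ} (h : Q4 F) (y z : ℝ) : P4 fun s => F ![s, y, z] := by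
  obtain ⟨C, e⟩ := h 0 ![0, y, z]
  refine ⟨C, fun s => (congrArg F ?_).trans (e s)⟩
  funext i
  fin_cases i <;> rfl

theorem sl1 {F : V 3 → ℝ} (h : Q4 F) (x z : ℝ) : P4 fun s => F ![x, s, z] := by
  obtain ⟨C, e⟩ := h 1 ![x, 0, z]
  refine ⟨C, fun s => (congrArg F ?_).trans (e s)⟩
  funext i
  fin_cases i <;> rfl

theorem sl2 {F : V 3 → ℝ} (h : Q4 F) (x y : ℝ) : P4 fun s => F ![x, y, s] := by
  obtain ⟨C, e⟩ := h 2 ![x, y, 0]
  refine ⟨C, fun s => (congrArg F ?_).trans (e s)⟩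
  funext i
  fin_cases i <;> rfl

/-- The nodes. -/
def nd (c h : ℝ) (k : Fin 5) : ℝ := c + ((k : ℕ) : ℝ) * h

theorem nd_le {c h : ℝ} (h0 : 0 < h) (k : Fin 5) : 0 ≤ nd c h k - c ∧ nd c h k - c ≤ 4 * h := by
  have h1 : ((k : ℕ) : ℝ) ≤ 4 := by exact_mod_cast Nat.lt_succ_iff.1 k.2
  have h2 : (0 : ℝ) ≤ ((k : ℕ) : ℝ) := Nat.cast_nonneg _
  rw [nd, add_sub_cancel_left]
  exact ⟨by positivity, mul_le_mul_of_nonneg_right h1 h0.le⟩

theorem nd_near {c x h L : ℝ} (h0 : 0 < h) (e : |x - c| ≤ L * h) (k : Fin 5) :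
    |nd c h k - x| ≤ (L + 4) * h := by
  obtain ⟨a, b⟩ := nd_le (c := c) h0 k
  obtain ⟨d, f⟩ := abs_le.1 e
  rw [abs_le]
  constructor <;> nlinarith

/-- Growth from the nodes. -/
theorem gr {f : ℝ → ℝ} (hf : P4 f) {c h m W t : ℝ} (h0 : 0 < h) (hm : ∀ k, |f (nd c h k)| ≤ m)
    (ht : |t - c| ≤ W * h) : |f t| ≤ 5 * (W + 4) ^ 4 * m := by
  obtain ⟨C, e⟩ := hf
  have k := SprA.lag_eval (D := 4) Finset.univ (nd c h) C (by simp) h0 (fun i _ j _ hne => by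
      have h1 : (1 : ℝ) ≤ |((i : ℕ) : ℝ) - ((j : ℕ) : ℝ)| := by
        have h2 : (1 : ℤ) ≤ |((i : ℕ) : ℤ) - ((j : ℕ) : ℤ)| :=
          Int.one_le_abs (sub_ne_zero.2 fun q => hne (Fin.ext (by exact_mod_cast q)))
        exact_mod_cast h2
      rw [show nd c h i - nd c h j = (((i : ℕ) : ℝ) - ((j : ℕ) : ℝ)) * h by unfold nd; ring,
        abs_mul, abs_of_pos h0]
      exact le_mul_of_one_le_left h0.le h1) t (w := (W + 4) * h)
    (fun i _ => by rw [abs_sub_comm]; exact nd_near h0 ht i) (fun i _ => by rw [← e]; exact hm i)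
  rw [show h⁻¹ * ((W + 4) * h) = W + 4 by field_simp] at k
  rw [e]
  exact k.trans_eq (by norm_num)

/-- A Lipschitz bound. -/
theorem lip {f : ℝ → ℝ} (hf : P4 f) {x h m r ε : ℝ} (h0 : 0 < h) (h1 : ε ≤ 1)
    (hm : ∀ u, |u - x| ≤ 5 * h → |f u| ≤ m) (hr : |r - x| ≤ ε * h) :
    |f r - f x| ≤ 12960 * ε * m := by
  obtain ⟨C, e⟩ := hf
  have hq : P4 fun u => C 1 + C 2 * (u + x) + C 3 * (u ^ 2 + u * x + x ^ 2) +
      C 4 * (u ^ 3 + u ^ 2 * x + u * x ^ 2 + x ^ 3) :=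
    ⟨fun i => if i = 0 then C 1 + C 2 * x + C 3 * x ^ 2 + C 4 * x ^ 3 else
      if i = 1 then C 2 + C 3 * x + C 4 * x ^ 2 else if i = 2 then C 3 + C 4 * x else
        if i = 3 then C 4 else 0, fun s => by simp [ev, Finset.sum_range_succ]; ring⟩
  have hd : ∀ u, f u - f x = (u - x) * (C 1 + C 2 * (u + x) + C 3 * (u ^ 2 + u * x + x ^ 2) +
      C 4 * (u ^ 3 + u ^ 2 * x + u * x ^ 2 + x ^ 3)) := fun u => by
    rw [e, e]; simp [ev, Finset.sum_range_succ]; ring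
  have hx : |f x| ≤ m := hm x (by rw [sub_self, abs_zero]; positivity)
  have m0 : 0 ≤ m := (abs_nonneg _).trans hx
  have k := gr hq (c := x + h) (m := 2 * m / h) (W := 2) (t := r) h0 (fun k => by
      obtain ⟨a, b⟩ := nd_le (c := x + h) h0 k
      have h2 := hm (nd (x + h) h k) (by rw [abs_le]; constructor <;> linarith)
      have h3 := (abs_sub (f (nd (x + h) h k)) (f x)).trans (add_le_add h2 hx)
      rw [hd, abs_mul, abs_of_nonneg (by linarith)] at h3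
      rw [le_div_iff₀ h0]
      nlinarith [abs_nonneg (C 1 + C 2 * (nd (x + h) h k + x) +
        C 3 * (nd (x + h) h k ^ 2 + nd (x + h) h k * x + x ^ 2) +
        C 4 * (nd (x + h) h k ^ 3 + nd (x + h) h k ^ 2 * x + nd (x + h) h k * x ^ 2 + x ^ 3))])
    (by obtain ⟨a, b⟩ := abs_le.1 hr; rw [abs_le]; constructor <;> nlinarith)
  rw [hd, abs_mul]
  refine (mul_le_mul hr k (abs_nonneg _) ((abs_nonneg _).trans hr)).trans_eq ?_
  field_simp
  ring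

/-- Growth from a dyadic cell. -/
theorem cell {f : ℝ → ℝ} (hf : P4 f) {a : ℕ} {x m W t : ℝ}
    (hm : ∀ u, fl1 a u = fl1 a x → |f u| ≤ m) (ht : |t - x| ≤ W * (2 ^ a)⁻¹) :
    |f t| ≤ 5 * (5 * W + 9) ^ 4 * m := by
  have h0 : (0 : ℝ) < (2 ^ a)⁻¹ := by positivity
  have k := gr hf (c := (2 ^ a)⁻¹ * fl1 a x) (h := (2 ^ a)⁻¹ / 5) (W := 5 * W + 5) (t := t)
    (by positivity) (fun k => hm _ (by
      have h1 : ((k : ℕ) : ℝ) ≤ 4 := by exact_mod_cast Nat.lt_succ_iff.1 k.2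
      have h2 : (0 : ℝ) ≤ ((k : ℕ) : ℝ) := Nat.cast_nonneg _
      rw [show nd ((2 ^ a)⁻¹ * fl1 a x) ((2 ^ a)⁻¹ / 5) k =
        (2 ^ a)⁻¹ * (fl1 a x + ((k : ℕ) : ℝ) / 5) by unfold nd; ring, fl1,
        mul_inv_cancel_left₀ (by positivity), Int.floor_eq_iff]
      constructor <;> linarith)) (by
      obtain ⟨b, c⟩ := abs_le.1 ht
      have h1 := fl1_le a x
      have h2 := lt_fl1 a x
      rw [abs_le]
      constructor <;> nlinarith)
  exact k.trans_eq (by ring)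

/-- The deterministic step. -/
theorem core {F : V 3 → ℝ} (hF : Q4 F) {x y z o₁ o₂ h W L₀ L₁ A B C ε r : ℝ} (h0 : 0 < h)
    (l0 : 1 ≤ L₀) (l1 : 1 ≤ L₁) (hW : W = L₀ + L₁ + 4) (hA : 1 ≤ A) (hB : 1 ≤ B) (hC : 1 ≤ C)
    (e1 : |y - o₁| ≤ L₀ * h) (e2 : |z - o₂| ≤ L₀ * h)
    (G0 : ∀ i j t, |t - x| ≤ W * h → |F ![t, nd o₁ h i, nd o₂ h j]| ≤
      A * |F ![x, nd o₁ h i, nd o₂ h j]|)
    (G1 : ∀ j t, |t - y| ≤ W * h → |F ![x, t, nd o₂ h j]| ≤ B * |F ![x, y, nd o₂ h j]|)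
    (G2 : ∀ t, |t - z| ≤ W * h → |F ![x, r, t]| ≤ C * |F ![x, r, z]|)
    (hr : |r - y| ≤ ε * h) (hε : 0 ≤ ε)
    (hs : 2 * (C + 1) * (12960 * (5 * (W + 4) ^ 4 * B)) * ε ≤ 1) {u v w : ℝ}
    (hu : |u - x| ≤ L₁ * h) (hv : |v - y| ≤ L₁ * h) (hw : |w - z| ≤ L₁ * h) :
    |F ![u, v, w]| ≤
      5 * (W + 4) ^ 4 * (5 * (W + 4) ^ 4 * (A * (B * (2 * C)))) * |F ![x, y, z]| := by
  obtain ⟨j, hj⟩ := Finite.exists_max fun j : Fin 5 => |F ![x, y, nd o₂ h j]|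
  have hK : 1 ≤ 5 * (W + 4) ^ 4 := by
    have := one_le_pow₀ (n := 4) (show (1 : ℝ) ≤ W + 4 by linarith)
    linarith
  have up : ∀ {s L : ℝ}, L ≤ W → s ≤ L * h → s ≤ W * h := fun a b =>
    b.trans (mul_le_mul_of_nonneg_right a h0.le)
  have tri : ∀ {a b c : ℝ}, |a - b| ≤ L₁ * h → |b - c| ≤ L₀ * h → |a - c| ≤ W * h :=
    fun {a b c} p q => up (L := L₁ + L₀) (by linarith) (by linarith [abs_sub_le a b c])
  generalize hμ : |F ![x, y, nd o₂ h j]| = μ at hj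
  have μ0 : 0 ≤ μ := hμ ▸ abs_nonneg _
  have T1 : ∀ k t, |t - y| ≤ W * h → |F ![x, t, nd o₂ h k]| ≤ B * μ := fun k t a =>
    (G1 k t a).trans (mul_le_mul_of_nonneg_left (hj k) (by linarith))
  have T2 : ∀ t s, |t - y| ≤ W * h → |s - o₂| ≤ W * h →
      |F ![x, t, s]| ≤ 5 * (W + 4) ^ 4 * (B * μ) := fun t s a b =>
    gr (sl2 hF x t) h0 (fun k => T1 k t a) b
  have T3 : |F ![u, v, w]| ≤ 5 * (W + 4) ^ 4 * (5 * (W + 4) ^ 4 * (A * (B * μ))) :=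
    gr (sl2 hF u v) h0 (fun k => gr (sl1 hF u (nd o₂ h k)) h0 (fun i =>
      (G0 i k u (up (by linarith) hu)).trans (mul_le_mul_of_nonneg_left
        (T1 k _ (up (by linarith) (nd_near h0 e1 i))) (by linarith))) (tri hv e1)) (tri hw e2)
  generalize 5 * (W + 4) ^ 4 = K at hK hs T2 T3 ⊢
  have q1 : 1 ≤ K * B := one_le_mul_of_one_le_of_one_le hK hB
  have q2 : 1 ≤ 2 * (C + 1) * (12960 * (K * B)) :=
    one_le_mul_of_one_le_of_one_le (by linarith) (by linarith)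
  have ε1 : ε ≤ 1 := (le_mul_of_one_le_left hε q2).trans hs
  have T4 : ∀ s, |s - o₂| ≤ W * h → |F ![x, r, s] - F ![x, y, s]| ≤ 12960 * ε * (K * (B * μ)) :=
    fun s b => lip (sl1 hF x s) h0 ε1 (fun t a => T2 t s (up (by linarith) a) b) hr
  have a1 := T4 z (up (by linarith) e2)
  have a2 := T4 (nd o₂ h j) (up (L := 4) (by linarith) (by
    obtain ⟨a, b⟩ := nd_le (c := o₂) h0 j
    rwa [abs_of_nonneg a]))
  have a3 := G2 (nd o₂ h j) (up (by linarith) (nd_near h0 e2 j))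
  have a4 := abs_sub_abs_le_abs_sub (F ![x, y, nd o₂ h j]) (F ![x, r, nd o₂ h j])
  have a5 := abs_sub_abs_le_abs_sub (F ![x, r, z]) (F ![x, y, z])
  rw [abs_sub_comm, hμ] at a4
  have a6 := mul_le_mul_of_nonneg_left (a5.trans a1) (show 0 ≤ C by linarith)
  have a7 := mul_le_mul_of_nonneg_right hs μ0
  have a8 : μ ≤ 2 * C * |F ![x, y, z]| := by nlinarith
  refine T3.trans ?_
  have K0 : 0 ≤ K := by linarith
  have A0 : 0 ≤ A := by linarith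
  have B0 : 0 ≤ B := by linarith
  calc K * (K * (A * (B * μ))) ≤ K * (K * (A * (B * (2 * C * |F ![x, y, z]|)))) := by gcongr
    _ = _ := by ring

theorem sub_bd {J : Type} [Finite J] {M : ℕ → ℕ} (hM : Big M) {L : J → ℕ → ℝ}
    (h : ∀ j, Sub M (L j)) : ∃ L', Sub M L' ∧ ∀ j n, L j n ≤ L' n := by
  classical
  have := Fintype.ofFinite J
  have k : ∀ s : Finset J, ∃ L', Sub M L' ∧ ∀ j ∈ s, ∀ n, L j n ≤ L' n := fun s => by
    induction s using Finset.induction_on with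
    | empty => exact ⟨_, hM.sub le_rfl, by simp⟩
    | insert a s _ ih =>
      obtain ⟨L', b, c⟩ := ih
      refine ⟨_, (h a).mul b, fun j hj n => ?_⟩
      rcases Finset.mem_insert.1 hj with rfl | hj
      · exact le_mul_of_one_le_right ((h j).pos n).le (b.1 n)
      · exact (c j hj n).trans (le_mul_of_one_le_left (b.pos n).le ((h a).1 n))
  exact (k Finset.univ).imp fun _ a => ⟨a.1, fun j => a.2 j (Finset.mem_univ j)⟩

/-- Polynomials read from the context are controlled near a full point. -/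
theorem val {Ω Λ : ℕ → Type} {J : Type} [Finite J] {P : ∀ n, FP (Ω n)} {x : ∀ n, Ω n → ℝ}
    {κ : ∀ n, Ω n → Λ n} (f : J → ∀ n, Ω n → ℝ → ℝ) {M a : ℕ → ℕ} {W : ℕ → ℝ} (hM : Big M)
    (hW : Sub M W) (fu : Le M (fun n => M n * lg) fun n =>
      ch (P n) (fun ω => fl1 (a n + M n) (x n ω)) fun ω => (fl1 (a n) (x n ω), κ n ω))
    (h : ∀ᶠ n in UF, ∀ j, Fn (P n) (f j n) (κ n) ∧ ∀ ω ∈ (P n).S, P4 (f j n ω)) :
    ∃ L, Sub M L ∧ Whp P fun n ω => ∀ j t, |t - x n ω| ≤ W n * (2 ^ a n)⁻¹ →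
      |f j n ω t| ≤ L n * |f j n ω (x n ω)| := by
  classical
  obtain ⟨c, hc⟩ : ∃ c : (ℝ → ℝ) → ℕ → ℝ, ∀ f, P4 f → ∀ s, f s = ev 4 (c f) s :=
    ⟨fun f => if h : P4 f then h.choose else 0, fun f h s => by
      simp only [dif_pos h]; exact h.choose_spec s⟩
  choose L s w using fun j => rowSpr.win P x κ (fun n ω => c (f j n ω)) M a (fun n => a n + M n)
    4 1 hM one_pos (h.mono fun n b => ⟨by simp, ((Fn.comp c _).trans (b j).1).right _⟩)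
    (by simpa using fu)
  obtain ⟨L', s', e⟩ := sub_bd hM s
  refine ⟨_, ((((hW.const_mul hM (C := 5) (by norm_num)).add (hM.sub (C := 9) (by norm_num))
    hM).pow 4).const_mul hM (C := 5) (by norm_num)).mul s', (Whp.all w).mono
      (h.mono fun n b ω hω k j t ht => ?_)⟩
  have p := (b j).2 ω hω
  rw [mul_assoc _ (L' n)]
  refine cell p (fun u hu => ?_) ht
  rw [hc _ p u, hc _ p (x n ω)]
  exact (k j u hu).trans (mul_le_mul_of_nonneg_right (e j n) (abs_nonneg _))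

theorem sub_le {M : ℕ → ℕ} {L : ℕ → ℝ} (h : Sub M L) : ∀ᶠ n in UF, L n * (2 ^ M n)⁻¹ ≤ 1 :=
  (h.2 _ (Real.log_pos one_lt_two)).mono fun n a => by
    rw [mul_comm, Real.exp_nat_mul, Real.exp_log two_pos] at a
    rwa [← div_eq_mul_inv, div_le_one (by positivity)]

end Sub3x

open Sub3x in
theorem rowSub3 : Sub3 := by
  intro Ω Λ P lam p o Φ M a L₀ L₁ hM s0 s1 hf wo f0 f1 f2
  have sW := (s0.add s1 hM).add (hM.sub (C := 4) (by norm_num)) hM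
  obtain ⟨A, sA, wA⟩ := val (fun (i : Fin 5 × Fin 5) n ω s =>
    Φ n ω ![s, nd (o n ω 1) (2 ^ a n)⁻¹ i.1, nd (o n ω 2) (2 ^ a n)⁻¹ i.2]) hM sW f0
    (hf.mono fun n b _ => ⟨fun u hu v hv e => by
      obtain ⟨e1, e2⟩ := Prod.ext_iff.1 (b.1 u hu v hv e)
      simp only at e1 e2
      simp only [e1, e2], fun ω hω => sl0 (b.2 ω hω) _ _⟩)
  obtain ⟨B, sB, wB⟩ := val (fun (i : Fin 5) n ω s =>
    Φ n ω ![p n ω 0, s, nd (o n ω 2) (2 ^ a n)⁻¹ i]) hM sW f1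
    (hf.mono fun n b _ => ⟨fun u hu v hv e => by
      obtain ⟨e0, e⟩ := Prod.ext_iff.1 e
      obtain ⟨e1, e2⟩ := Prod.ext_iff.1 (b.1 u hu v hv e)
      simp only at e0 e1 e2
      simp only [e0, e1, e2], fun ω hω => sl1 (b.2 ω hω) _ _⟩)
  obtain ⟨C, sC, wC⟩ := val (fun (_ : Unit) n ω s =>
    Φ n ω ![p n ω 0, (2 ^ (a n + M n))⁻¹ * fl1 (a n + M n) (p n ω 1), s]) hM sW f2
    (hf.mono fun n b _ => ⟨fun u hu v hv e => by
      obtain ⟨e3, e⟩ := Prod.ext_iff.1 e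
      obtain ⟨e0, e⟩ := Prod.ext_iff.1 e
      obtain ⟨e1, -⟩ := Prod.ext_iff.1 (b.1 u hu v hv e)
      simp only at e0 e1 e3
      simp only [e0, e1, e3], fun ω hω => sl2 (b.2 ω hω) _ _⟩)
  have sK := ((sW.add (hM.sub (C := 4) (by norm_num)) hM).pow 4).const_mul hM (C := 5) (by norm_num)
  have sm := sub_le (((sC.add (hM.sub le_rfl) hM).const_mul hM one_le_two).mul
    ((sK.mul sB).const_mul hM (C := 12960) (by norm_num)))
  refine ⟨_, sK.mul (sK.mul (sA.mul (sB.mul (sC.const_mul hM one_le_two)))),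
    (((wo.and wA).and wB).and wC).mono
      ((hf.and sm).mono fun n b ω hω ⟨⟨⟨k, kA⟩, kB⟩, kC⟩ q hq => ?_)⟩
  have e : ∀ w : V 3, w = ![w 0, w 1, w 2] := fun w => by
    funext i
    fin_cases i <;> rfl
  simp only [div_eq_mul_inv] at k hq
  rw [e q, congrArg (Φ n ω) (e (p n ω))]
  refine core (b.1.2 ω hω) (by positivity) (s0.1 n) (s1.1 n) rfl (sA.1 n) (sB.1 n) (sC.1 n) (k 1)
    (k 2) (fun i j => kA (i, j)) kB (kC ()) ?_ (by positivity) b.2 (hq 0) (hq 1) (hq 2)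
  have h1 := fl1_le (a n + M n) (p n ω 1)
  have h2 := lt_fl1 (a n + M n) (p n ω 1)
  have h3 : ((2 : ℝ) ^ M n)⁻¹ * (2 ^ a n)⁻¹ = (2 ^ (a n + M n))⁻¹ := by
    rw [pow_add, _root_.mul_inv_rev]
  rw [h3, abs_le]
  constructor <;> linarith [show (0 : ℝ) < (2 ^ (a n + M n))⁻¹ by positivity]

end Pool.Agent.MP_5168f5_an.R4.T8
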