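import Pool.Agent.MP_5168f5_an.R4.SpecTW

/-! Tangent systems: a polynomial on a cell is controlled by its value at the point. -/

namespace Pool.Agent.MP_5168f5_an.R4.T8

open H19 H17S H17F Filter Matrix Tan

namespace SubTx

theorem near (j : ℕ) (x : ℝ) : |x - rd j x| ≤ 1 / 2 ^ j := by
  rw [rd, one_div, abs_of_nonneg (by linarith [fl1_le j x])]; linarith [lt_fl1 j x]

theorem core (h3 : Sub3) {Ω : ℕ → Type} {K : Mb Ω → Prop} {g : Gs 3 Ω} {M mm : ℕ → ℕ}
    {D : ∀ n, Td (Ω n)} {J : ℕ → ℕ} {η γ : ℝ} {X : Mb Ω} (h : TW K g M mm D J η γ) (hX : K X)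
    (hc : Cell X.P (X.G g) M {0} 1 (fun n => (mD X D n).U) γ) {a : ℕ → ℕ} {C : ℕ}
    (ha : ∀ n, a n ≤ C * M n) (hγ : ∀ᶠ n in UF, γ * a n ≤ a n) :
    SubA X.P (X.G g) M (mD X D) a := by
  intro Φ L₁ hL₁ hΦ
  have c := h.com X hX
  have k := h.cls (C + 1) C.succ_pos
  have hM : Big M := by simpa using ((h.cls 1 one_pos).bs X hX).big
  have oa : OM M a := ⟨C, Eventually.of_forall ha⟩
  have hb : ∀ n, a n ≤ a n ∧ a n ≤ a n + M n ∧ a n + M n ≤ (C + 1) * M n := fun n =>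
    ⟨le_rfl, Nat.le_add_right _ _, by rw [add_mul, one_mul]; exact Nat.add_le_add_right (ha n) _⟩
  have ob : OM M fun n => a n + M n := ⟨C + 1, Eventually.of_forall fun n => (hb n).2.2⟩
  have m1 : ∀ n, M n ≤ (C + 1) * M n := fun n => Nat.le_mul_of_pos_left _ C.succ_pos
  have fr : Frac M fun n => (C + 1) * M n := ⟨m1, 1 / (C + 1), by positivity,
    Eventually.of_forall fun n => by push_cast; exact le_of_eq (by field_simp)⟩
  have ev : ∀ ε : ℝ, 0 < ε → ∀ᶠ n in UF, ε * mm n ≤ ε * ((C + 1) * M n : ℕ) := fun ε hε =>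
    (h.sm 1 one_pos).mono fun n e => mul_le_mul_of_nonneg_left
      (e.trans (by rw [zero_add, one_mul]; exact_mod_cast m1 n)) hε.le
  have up : ∀ {f : ℕ → ℝ}, Sm mm f → Sm (fun n => (C + 1) * M n) f := fun e ε hε =>
    ((e ε hε).and (ev ε hε)).mono fun n u => u.1.trans (add_le_add le_rfl u.2)
  have lab : Lab X.P (X.G g) (fun n => (C + 1) * M n) a fun n => (mD X D n).S (a n) :=
    ⟨up (c.lab a oa).h, up (c.lab a oa).l⟩
  have fat : Fat X.P (X.G g) (fun n => (C + 1) * M n) 0 fun n => a n + M n :=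
    (c.fat 0 _ ob).imp fun L e => ⟨⟨e.1.1, fun ε hε => ((e.1.2 ε hε).and (ev ε hε)).mono
      fun n u => u.1.trans (Real.exp_le_exp.2 u.2)⟩, e.2⟩
  have f0 := (kb.hgt _ _ _ _ _ _ _ (k.bs X hX) lab.h hb).frac fr
  have f1 := (xa K g _ a a _ 0 η X _ k hX lab fat hb).frac fr
  have f2 := c.fbU _ _ a oa (c.lab a oa) a _ _ ob ob (hγ.mono fun n e => ⟨e, (hb n).2.1⟩)
  obtain ⟨L, hL, w⟩ := hc a a oa (Eventually.of_forall fun n =>
    le_mul_of_one_le_left (Nat.cast_nonneg _) h.one)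
  have e0 : ∀ n, ((a n + M n : ℕ) - a n : ℝ) * lg = M n * lg := fun n => by push_cast; ring
  refine h3 X.P (fun n => (mD X D n).S (a n)) (fun n v => bp (X.G g n) ((X.G g n).z v) v)
    (fun n v => ![rd (a n) ((X.G g n).z v), rd (a n) ((X.G g n).pt v 0),
      ((mD X D n).U (a n) v).1 + ((mD X D n).U (a n) v).2.1 * rd (a n) ((X.G g n).z v) +
        ((mD X D n).U (a n) v).2.2 0 * rd (a n) ((X.G g n).pt v 0)]) Φ M a _ L₁ hM
    (hL.const_mul hM (show (1 : ℝ) ≤ 3 by norm_num)) hL₁ ?_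
    (w.mono (Eventually.of_forall fun n v _ e i => ?_))
    (f0.of_sub (Eventually.of_forall fun n => ?_)) (f1.of_sub (Eventually.of_forall fun n => ?_))
    (f2.of_sub (Eventually.of_forall fun n => ?_))
  · filter_upwards [hΦ, c.nest, h.hJ a oa] with n u e j
    refine ⟨fun x hx y hy q => Prod.ext (u.1 x hx y hy q) ?_, u.2⟩
    have q1 := (e.2.1 (a n)).2 x hx y hy q
    have q2 := e.2.2 _ j x hx y hy q
    simp only [Prod.mk.injEq] at q1 q2
    simp only [rd, q1.2.1, q1.2.2.1, q2]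
  · have p0 : (0 : ℝ) < 1 / 2 ^ a n := by positivity
    have l1 : 1 * (1 / 2 ^ a n) ≤ L n * (1 / 2 ^ a n) :=
      mul_le_mul_of_nonneg_right (hL.1 n) p0.le
    have n0 := near (a n) ((X.G g n).z v)
    have n1 := near (a n) ((X.G g n).pt v 0)
    rw [div_eq_mul_one_div]
    fin_cases i
    · exact n0.trans (by linarith)
    · exact n1.trans (by linarith)
    · have e1 := ((kp.iff _ _ _ _ _ _ _ _).1 e).1
      rw [Fin.sum_univ_three, (e.2.1 1).2 (by decide), (e.2.1 2).2 (by decide),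
        div_eq_mul_one_div] at e1
      have e2 := mul_le_mul e.1 n0 (abs_nonneg _) (hL.pos n).le
      have e3 := mul_le_mul (e.2.1 0).1 n1 (abs_nonneg _) (hL.pos n).le
      rw [← abs_mul, abs_le] at e2 e3
      rw [abs_le] at e1
      change |(X.G g n).pt v 1 - (_ + _ + _)| ≤ _
      rw [abs_le]
      constructor <;> linarith [e1.1, e1.2, e2.1, e2.2, e3.1, e3.2]
  · rw [e0]
    refine sub_le_sub_left (ch_anti fun x hx y hy q => ?_) _
    simp only [Prod.mk.injEq, bp, cons_val] at q ⊢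
    exact ⟨q.1, q.2.2⟩
  · rw [e0]
    refine sub_le_sub_left (ch_anti fun x hx y hy q => ?_) _
    simp only [Prod.mk.injEq, Geo.zt, bp, cons_val] at q ⊢
    exact ⟨q.1, q.2.2.1, q.2.1⟩
  · rw [e0]
    refine sub_le_sub_left (ch_anti fun x hx y hy q => ?_) _
    simp only [Prod.mk.injEq, Geo.zt, bp, cons_val] at q ⊢
    exact ⟨q.1, q.2.1, q.2.2.2.1, q.2.2.1⟩

end SubTx

theorem rowSubT : OfSubT := by
  intro h3 Ω K g M mm D J η γ X h hX hc a ⟨C, ha⟩ hγ Φ L₁ hL hΦ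
  have e : ∀ᶠ n in UF, min (a n) (C * M n) = a n := ha.mono fun n => min_eq_left
  obtain ⟨L, u, w⟩ := SubTx.core h3 h hX hc (fun n => min_le_right (a n) (C * M n))
    ((e.and hγ).mono fun n v => by rw [v.1]; exact v.2) Φ L₁ hL
    ((e.and hΦ).mono fun n v => by rw [v.1]; exact v.2)
  exact ⟨L, u, w.mono (e.mono fun n v _ _ q => by simpa only [v] using q)⟩

end Pool.Agent.MP_5168f5_an.R4.T8
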