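import Pool.Agent.MP_5168f5_an.R4.SpecTW

/-! Tangent systems: the normal form of the surface. -/

namespace Pool.Agent.MP_5168f5_an.R4.T8

open H19 H17S H17F Filter Matrix Tan

namespace Surfx

/-- The part of the quadric that does not involve the last coordinate. -/
def R (A : Qd) (p : V 3) : ℝ :=
  A 0 0 + 2 * ∑ i, A 0 (ix i) * p i + ∑ i, ∑ l, A (ix i) (ix l) * p i * p l

theorem ix0 : ix 0 = 1 := rfl
theorem ix1 : ix 1 = 2 := rfl
theorem ix2 : ix 2 = 3 := rfl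

theorem ml {a b c d : ℝ} (h : |a| ≤ c) (h' : |b| ≤ d) : |a * b| ≤ c * d := by
  rw [abs_mul]; exact mul_le_mul h h' (abs_nonneg _) ((abs_nonneg _).trans h)

theorem q4 (A : Qd) : Q4 (R A) := fun i p => by
  refine ⟨fun k => if k = 0 then R A (Function.update p i 0) else if k = 1 then
    (R A (Function.update p i 1) - R A (Function.update p i (-1))) / 2 else
      if k = 2 then A (ix i) (ix i) else 0, fun s => ?_⟩
  fin_cases i <;> simp [ev, R, Finset.sum_range_succ, Fin.sum_univ_three] <;> ring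

theorem qf_eq {A : Qd} (h : A.IsSymm) (t : ℝ) (y : V 3) : qf A (hom t y) =
    R A ![t, y 0, y 1] + 2 * A 0 4 * y 2 +
      (2 * (y 2 * (A 1 4 * t + A 2 4 * y 0 + A 3 4 * y 1)) + y 2 * (A 4 4 * y 2)) := by
  simp [qf, hom, R, dotProduct, mulVec, Fin.sum_univ_five, Fin.sum_univ_three, ix0, ix1, ix2,
    h.apply 0 1, h.apply 0 2, h.apply 0 3, h.apply 0 4, h.apply 1 4, h.apply 2 4, h.apply 3 4]
  ring

theorem pf_eq {A : Qd} (h : A.IsSymm) (Y : V 5) (k : Fin 5) : pf A Y (bv k) =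
    2 * (A 0 k * Y 0 + A 1 k * Y 1 + A 2 k * Y 2 + A 3 k * Y 3 + A 4 k * Y 4) := by
  simp [pf, bv, dotProduct, Fin.sum_univ_five, mulVec, Pi.single_apply, fun i => h.apply i k]
  ring

theorem sf_eq {A : Qd} (h : A 0 4 ≠ 0) (p : V 3) (y : ℝ) :
    y - sf A p = (R A p + 2 * A 0 4 * y) / (2 * A 0 4) := by
  simp [sf, sa, sq, R, dotProduct, mulVec, Fin.sum_univ_three]
  field_simp
  ring

/-- A bound on the unit box bounds the coefficients. -/
theorem coef {A : Qd} (h : A.IsSymm) {ρ : ℝ} (b : ∀ p : V 3, (∀ i, |p i| ≤ 1) → |R A p| ≤ ρ) :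
    |A 0 0| ≤ ρ ∧ (∀ i, |A 0 (ix i)| ≤ ρ) ∧ ∀ i l, |A (ix i) (ix l)| ≤ 2 * ρ := by
  have n : ∀ p : V 3, (∀ i, |p i| ≤ 1) → |R A (-p)| ≤ ρ := fun p e => b _ fun i => by
    simpa using e i
  refine ⟨by simpa [R] using b 0 (by simp), fun i => ?_, fun i l => ?_⟩
  · have s : ∀ j, |(Pi.single i 1 : V 3) j| ≤ 1 := fun j => by
      rw [Pi.single_apply]; split_ifs <;> simp
    have e : R A (Pi.single i 1) - R A (-Pi.single i 1) = 4 * A 0 (ix i) := by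
      fin_cases i <;> simp [R, Fin.sum_univ_three] <;> ring
    have h1 := abs_le.1 (b _ s)
    have h2 := abs_le.1 (n _ s)
    rw [abs_le]; constructor <;> linarith [h1.1, h1.2, h2.1, h2.2]
  · have s : ∀ c : ℝ, |c| ≤ 1 / 2 → ∀ j, |(Pi.single i (1 / 2) + Pi.single l c : V 3) j| ≤ 1 :=
      fun c k j => by
        have := abs_le.1 k
        rw [Pi.add_apply, Pi.single_apply, Pi.single_apply, abs_le]
        split_ifs <;> constructor <;> linarith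
    have e : R A (Pi.single i (1 / 2) + Pi.single l (1 / 2)) +
        R A (-(Pi.single i (1 / 2) + Pi.single l (1 / 2))) -
        R A (Pi.single i (1 / 2) + Pi.single l (-(1 / 2))) -
        R A (-(Pi.single i (1 / 2) + Pi.single l (-(1 / 2)))) =
        A (ix i) (ix l) + A (ix l) (ix i) := by
      fin_cases i <;> fin_cases l <;> simp [R, Fin.sum_univ_three] <;> ring
    have u : |(1 / 2 : ℝ)| ≤ 1 / 2 := (abs_of_pos one_half_pos).le
    have h1 := abs_le.1 (b _ (s _ u))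
    have h2 := abs_le.1 (n _ (s _ u))
    have h3 := abs_le.1 (b _ (s _ ((abs_neg _).trans_le u)))
    have h4 := abs_le.1 (n _ (s _ ((abs_neg _).trans_le u)))
    rw [h.apply (ix i) (ix l)] at e
    rw [abs_le]; constructor <;> linarith [h1.1, h1.2, h2.1, h2.2, h3.1, h3.2, h4.1, h4.2]

theorem num {a Λ δ : ℝ} (hΛ : 1 ≤ Λ) (h0 : 0 ≤ δ) (ha : 0 ≤ a) (hδ : 480 * Λ ^ 7 * δ ≤ 1)
    (h : 1 ≤ Λ * (2 * a + 10 * (Λ * δ * Λ) + 14 * (Λ * (8 * Λ ^ 3 * δ + 2 * a * Λ) * Λ))) :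
    1 ≤ 60 * Λ ^ 4 * a ∧ Λ * (8 * Λ ^ 3 * δ + 2 * a * Λ) ≤ 3 * Λ ^ 2 * a := by
  have p : ∀ i j : ℕ, i ≤ j → ∀ x : ℝ, 0 ≤ x → Λ ^ i * x ≤ Λ ^ j * x := fun i j e x k =>
    mul_le_mul_of_nonneg_right (pow_le_pow_right₀ hΛ e) k
  have h1 : 1 ≤ 60 * Λ ^ 4 * a := by
    nlinarith [p 1 4 (by norm_num) a ha, p 3 7 (by norm_num) δ h0, p 6 7 (by norm_num) δ h0]
  refine ⟨h1, ?_⟩
  have h2 := mul_le_mul_of_nonneg_left h1 (show 0 ≤ 8 * Λ ^ 4 * δ by positivity)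
  have h3 := mul_le_mul_of_nonneg_left hδ (show 0 ≤ Λ * a by positivity)
  nlinarith [p 1 2 (by norm_num) a ha]

/-- The statement at one point. -/
theorem det {A : Qd} (h : A.IsSymm) {y : ℝ → V 3} {z Λ δ : ℝ} (hΛ : 1 ≤ Λ) (h0 : 0 ≤ δ)
    (hδ : 480 * Λ ^ 7 * δ ≤ 1) (z0 : 0 ≤ z) (z1 : z < 1)
    (hy : ∀ t, 0 ≤ t → t < 1 → (∀ i, |y t i| ≤ Λ) ∧ |qf A (hom t (y t))| ≤ δ)
    (hc : ∀ i : Fin 4, |A i.succ 4| ≤ Λ * δ)
    (hg : 1 ≤ Λ * (|pf A (hom z (y z)) (bv 4)| + |pf A (hom z (y z)) (bv 3)|))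
    (hr : ∀ p : V 3, (∀ i, |p i| ≤ 1) → |R A p| ≤ Λ * |R A ![z, y z 0, y z 1]|) :
    ((∀ i k, |sq A i k| ≤ 3 * Λ ^ 2) ∧ |(sa A).1| ≤ 3 * Λ ^ 2 ∧ ∀ i, |(sa A).2 i| ≤ 3 * Λ ^ 2) ∧
      ∀ t, 0 ≤ t → t < 1 → |y t 2 - sf A ![t, y t 0, y t 1]| ≤ 480 * Λ ^ 7 * δ := by
  have c1 : |A 1 4| ≤ Λ * δ := hc 0
  have c2 : |A 2 4| ≤ Λ * δ := hc 1
  have c3 : |A 3 4| ≤ Λ * δ := hc 2
  have c4 : |A 4 4| ≤ Λ * δ := hc 3
  have a : ∀ t : ℝ, 0 ≤ t → t < 1 → |t| ≤ Λ := fun t u v => by rw [abs_of_nonneg u]; linarith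
  have s : ∀ t, 0 ≤ t → t < 1 →
      |R A ![t, y t 0, y t 1] + 2 * A 0 4 * y t 2| ≤ 8 * Λ ^ 3 * δ := fun t u v => by
    obtain ⟨k1, k2⟩ := hy t u v
    have k3 := abs_le.1 (ml (k1 2) ((abs_add_three _ _ _).trans
      (add_le_add_three (ml c1 (a t u v)) (ml c2 (k1 0)) (ml c3 (k1 1)))))
    have k4 := abs_le.1 (ml (k1 2) (ml c4 (k1 2)))
    have k5 := le_mul_of_one_le_left h0 (one_le_pow₀ hΛ (n := 3))
    rw [qf_eq h, abs_le] at k2
    rw [abs_le]; constructor <;> linarith [k2.1, k2.2, k3.1, k3.2, k4.1, k4.2]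
  obtain ⟨k1, -⟩ := hy z z0 z1
  have r : |R A ![z, y z 0, y z 1]| ≤ 8 * Λ ^ 3 * δ + 2 * |A 0 4| * Λ := by
    have e1 := abs_le.1 (s z z0 z1)
    have e2 := abs_le.1 (ml (le_refl |A 0 4|) (k1 2))
    rw [abs_le]; constructor <;> linarith [e1.1, e1.2, e2.1, e2.2]
  obtain ⟨b1, b2, b3⟩ := coef h fun p e =>
    (hr p e).trans (mul_le_mul_of_nonneg_left r (by linarith))
  set ρ := Λ * (8 * Λ ^ 3 * δ + 2 * |A 0 4| * Λ) with hρ
  have g4 : |pf A (hom z (y z)) (bv 4)| ≤ 2 * |A 0 4| + 8 * (Λ * δ * Λ) := by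
    have e1 := abs_le.1 (ml c1 (a z z0 z1))
    have e2 := abs_le.1 (ml c2 (k1 0))
    have e3 := abs_le.1 (ml c3 (k1 1))
    have e4 := abs_le.1 (ml c4 (k1 2))
    rw [pf_eq h, abs_le]
    simp only [hom, cons_val]
    constructor <;> linarith [e1.1, e1.2, e2.1, e2.2, e3.1, e3.2, e4.1, e4.2, le_abs_self (A 0 4),
      neg_abs_le (A 0 4)]
  have g3 : |pf A (hom z (y z)) (bv 3)| ≤ 14 * (ρ * Λ) + 2 * (Λ * δ * Λ) := by
    have e0 : -ρ ≤ A 0 3 ∧ A 0 3 ≤ ρ := abs_le.1 (b2 2)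
    have e1 := abs_le.1 (ml (a := A 1 3) (b3 0 2) (a z z0 z1))
    have e2 := abs_le.1 (ml (a := A 2 3) (b3 1 2) (k1 0))
    have e3 := abs_le.1 (ml (a := A 3 3) (b3 2 2) (k1 1))
    have e4 := abs_le.1 (ml c3 (k1 2))
    have e5 := le_mul_of_one_le_right ((abs_nonneg _).trans b1) hΛ
    rw [pf_eq h, abs_le, h.apply 3 4]
    simp only [hom, cons_val]
    constructor <;> linarith [e0.1, e0.2, e1.1, e1.2, e2.1, e2.2, e3.1, e3.2, e4.1, e4.2]
  obtain ⟨n1, n2⟩ := num hΛ h0 (abs_nonneg (A 0 4)) hδ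
    (hg.trans (mul_le_mul_of_nonneg_left (by linarith) (by linarith)))
  have p : 0 < |A 0 4| := (mul_pos_iff_of_pos_left (by positivity)).1 (one_pos.trans_le n1)
  have q : 0 ≤ Λ ^ 2 * |A 0 4| := by positivity
  refine ⟨⟨fun i k => ?_, ?_, fun i => ?_⟩, fun t u v => ?_⟩
  · rw [sq, abs_div, abs_neg, abs_mul, abs_two, div_le_iff₀ (by positivity)]
    linarith [b3 i k]
  · rw [sa, abs_div, abs_neg, abs_mul, abs_two, div_le_iff₀ (by positivity)]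
    linarith
  · rw [sa]
    simp only
    rw [abs_div, abs_neg, div_le_iff₀ p]
    linarith [b2 i]
  · rw [sf_eq (abs_pos.1 p), abs_div, abs_mul, abs_two, div_le_iff₀ (by positivity)]
    have := mul_le_mul_of_nonneg_left n1 (show 0 ≤ 8 * Λ ^ 3 * δ by positivity)
    have : 0 ≤ Λ ^ 7 * δ * |A 0 4| := by positivity
    linarith [s t u v]

end Surfx

open Surfx in
theorem rowSurf : Surf := by
  intro Ω K g M mm D J η γ X T hX C d w cu h4 hs
  obtain ⟨hM, ⟨L₀, s0, b0⟩, -, -⟩ := (T.cls 1 one_pos).bs X hX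
  simp only [one_mul] at hM s0
  obtain ⟨L₁, s1, b1⟩ := h4 (fun n v i => (C n).Ap v i.succ 4)
    (cu.fn.mono fun n a => (Fn.comp (fun (A : Qd) (i : Fin 4) => A i.succ 4) _).trans a.1)
  obtain ⟨L₂, s2, b2⟩ := hs (fun n v => R ((C n).Ap v)) _ (s0.const_mul hM (C := 3) (by norm_num))
    ((cu.fn.and (T.com X hX).nest).mono fun n a => ⟨((Fn.comp R _).trans a.1.1).trans
      fun u hu v hv e => congrArg (·.1) ((a.2.2.1 0).2 u hu v hv e), fun _ _ => q4 _⟩)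
  obtain ⟨L₃, s3, b3⟩ := cu.grad
  have s4 := (((s0.const_mul hM one_le_two).add s1 hM).add s2 hM).add s3 hM
  set Λ : ℕ → ℝ := fun n => 2 * L₀ n + L₁ n + L₂ n + L₃ n with hΛ
  have key : ∀ r : ℕ → ℕ, OM M r → Whp X.P fun n v =>
      ((∀ i k, |sq ((C n).Ap v) i k| ≤ 3 * Λ n ^ 2) ∧ |(sa ((C n).Ap v)).1| ≤ 3 * Λ n ^ 2 ∧
        ∀ i, |(sa ((C n).Ap v)).2 i| ≤ 3 * Λ n ^ 2) ∧ ∀ t : ℝ, 0 ≤ t → t < 1 →
        |(X.G g n).lt t v 2 - sf ((C n).Ap v) (bp (X.G g n) t v)| ≤ 1 / 2 ^ r n := by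
    rintro r ⟨c, hc⟩
    refine (b1.and b2).mono ?_
    filter_upwards [b0, b3, cu.fn, cu.par (fun n => r n + M n)
      ⟨c + 1, hc.mono fun n a => by rw [add_mul, one_mul]; exact Nat.add_le_add_right a _⟩,
      ((s4.pow 7).const_mul hM (C := 480) (by norm_num)).2 _ one_half_pos]
      with n a0 a3 a4 a5 a6 v hv ⟨k1, k2⟩
    obtain ⟨u1, u2, u3⟩ := a0.bd v hv
    have l0 := s0.1 n
    have l1 := s1.1 n
    have l2 := s2.1 n
    have l3 := s3.1 n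
    have e : 480 * Λ n ^ 7 * (1 / 2 ^ (r n + M n)) ≤ 1 / 2 ^ r n := by
      rw [mul_one_div, div_le_div_iff₀ (by positivity) (by positivity), pow_add, one_mul, mul_comm]
      exact mul_le_mul_of_nonneg_left (a6.trans ((congrArg _ (by ring)).trans_le
        (exp_le_two_pow (M n)))) (by positivity)
    have y : ∀ t : ℝ, 0 ≤ t → t < 1 → ∀ i, |(X.G g n).lt t v i| ≤ 2 * L₀ n := fun t t0 t1 i => by
      have := ml ((abs_of_nonneg t0).trans_le t1.le) (u1 i).2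
      exact (abs_add_le _ _).trans ((add_le_add (u1 i).1 this).trans_eq (by ring))
    have := det (a4.2.2 v hv).1 (y := fun t => (X.G g n).lt t v) (Λ := Λ n) (s4.1 n)
      (by positivity) (e.trans ((div_le_one (by positivity)).2 (one_le_pow₀ one_le_two))) u2 u3
      (fun t t0 t1 => ⟨fun i => (y t t0 t1 i).trans (by simp only [hΛ]; linarith),
        (a5 v hv).1 t t0 t1⟩) (fun i => (k1 i).trans ?_)
      ((a3 v hv).1.2.trans (mul_le_mul_of_nonneg_right (by simp only [hΛ]; linarith)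
        (by positivity))) fun p hp => (k2 p fun i => ?_).trans
          (mul_le_mul_of_nonneg_right (by simp only [hΛ]; linarith) (abs_nonneg _))
    · exact ⟨this.1, fun t t0 t1 => (this.2 t t0 t1).trans e⟩
    · refine mul_le_mul (by simp only [hΛ]; linarith) ?_ (abs_nonneg _) (s4.pos n).le
      have := (a5 v hv).2
      rw [pf_eq (a4.2.2 v hv).1, abs_mul, abs_two] at this
      refine le_trans ((le_mul_of_one_le_left (abs_nonneg _) one_le_two).trans_eq ?_) this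
      simp [vec, dotProduct, Fin.sum_univ_four]
    · have : |bp (X.G g n) ((X.G g n).z v) v i| ≤ 2 * L₀ n := by
        fin_cases i
        exacts [(abs_of_nonneg u2).trans_le (by linarith), y _ u2 u3 0, y _ u2 u3 1]
      rw [pow_zero, div_one]
      linarith [abs_sub (p i) (bp (X.G g n) ((X.G g n).z v) v i), hp i]
  exact ⟨⟨_, (s4.pow 2).const_mul hM (by norm_num),
    (key (fun _ => 0) ⟨0, Eventually.of_forall fun _ => Nat.zero_le _⟩).mono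
      (Eventually.of_forall fun _ _ _ k => k.1)⟩,
    fun r hr => (key r hr).mono (Eventually.of_forall fun _ _ _ k => k.2)⟩

end Pool.Agent.MP_5168f5_an.R4.T8
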