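import Pool.Agent.MP_5168f5_an.R4.YRev2
import Pool.Agent.MP_5168f5_an.R4.YRev
import Pool.Agent.MP_5168f5_an.R4.YGStep
import Pool.Agent.MP_5168f5_an.R4.YGChain
import Pool.Agent.MP_5168f5_an.R4.YPrd
import Pool.Agent.MP_5168f5_an.R4.YBallF
import Pool.Agent.MP_5168f5_an.R4.YDetC
import Pool.Agent.MP_5168f5_an.R4.YNGb
import Pool.Agent.MP_5168f5_an.R4.YOff
import Pool.Agent.MP_5168f5_an.R4.YSub3
import Pool.Agent.MP_5168f5_an.R4.YSubT
import Pool.Agent.MP_5168f5_an.R4.YDirU
import Pool.Agent.MP_5168f5_an.R4.YDirH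
import Pool.Agent.MP_5168f5_an.R4.YSurf
import Pool.Agent.MP_5168f5_an.R4.YNQ
import Pool.Agent.MP_5168f5_an.R4.YDegAlg
import Pool.Agent.MP_5168f5_an.R4.YDetQ
import Pool.Agent.MP_5168f5_an.R4.YGam1
import Pool.Agent.MP_5168f5_an.R4.YQS
import Pool.Agent.MP_5168f5_an.R4.YPropA
import Pool.Agent.MP_5168f5_an.R4.YCellE
import Pool.Agent.MP_5168f5_an.R4.YBallE
import Pool.Agent.MP_5168f5_an.R4.YMonoE
import Pool.Agent.MP_5168f5_an.R4.YDetE
import Pool.Agent.MP_5168f5_an.R4.YMkQ

/-! The rows in the coordinates of the frame, proved. -/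

namespace Pool.Agent.MP_5168f5_an.R4.T8

theorem rev2 : Rev2 := rowRev2
theorem rev : Rev := rowRev rev2
theorem gStep : GStep := rowGStep rev2
theorem gChain : GChain := rowGChain
theorem prdW : Prd := rowPrd
theorem ballF : BallF := rowBallF
theorem detC : DetC := rowDetC
theorem nGb : NGb := rowNGb detC
theorem offW : Off := rowOff
theorem sub3 : Sub3 := rowSub3
theorem subT : SubT := rowSubT sub3
theorem dirU : DirU := rowDirU rev2
theorem dirH : DirH := rowDirH dirU
theorem surfW : Surf := rowSurf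
theorem nQ : NQ := rowNQ
theorem degAlg : DegAlg := rowDegAlg
theorem detQ : DetQ := rowDetQ degAlg dirU
theorem gam1 : Gam1 := rowGam1 rev2
theorem qS : QS := rowQS
theorem propA : PropA := rowPropA qS
theorem cellE : CellE := rowCellE qS
theorem ballE : BallE := rowBallE
theorem monoE : MonoE := rowMonoE
theorem detE : DetE := rowDetE
theorem mkQK : MkQ := rowMkQ

end Pool.Agent.MP_5168f5_an.R4.T8
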