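import Pool.Agent.MP_5168f5_an.R4.SpecTG
import Pool.Agent.MP_5168f5_an.R4.KitW
import Pool.Agent.MP_5168f5_an.R4.KitZ
import Pool.Agent.MP_5168f5_an.R4.KitO

/-! The flat modes with `u` of weight greater than one. -/

namespace Pool.Agent.MP_5168f5_an.R4.T8

open H19 H17S H17F Filter Tan

theorem nm_triv {Ω : ℕ → Type} (x : Sx Ω) : x.NmOK fun _ _ => True :=
  ⟨cf_const True, fun _ _ _ _ _ _ _ => trivial, fun _ _ _ _ _ _ => trivial⟩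

theorem fnH {Ω : ℕ → Type} {P : ∀ n, FP (Ω n)} {g : Gs 3 Ω} {M mm : ℕ → ℕ} {D : ∀ n, Td (Ω n)}
    {η γ : ℝ} {T : Finset (Fin 3)} (c : Com P g M mm D η γ T) : FnS P D fun n => (D n).H :=
  c.nest.mono fun n u j v hv v' hv' e => by
    have u1 := (u.2 j).2 v hv v' hv' e
    simp only [Prod.mk.injEq] at u1
    exact u1.2.2.2.2

/-- The cell and the base point determine the last coordinate. -/
theorem detF {Ω : ℕ → Type} {K : Mb Ω → Prop} {g : Gs 3 Ω} {M mm J : ℕ → ℕ} {D : ∀ n, Td (Ω n)}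
    {η γ d c : ℝ} {X : Mb Ω} (t : TW K g M mm D J η γ) (h : K X) {H : ∀ n, ℕ → (X n).W → Pl}
    (hd : 1 ≤ d) (hc : 1 ≤ c) (f : FnS X.P (mD X D) H) (ce : Cell X.P (X.G g) M {0, 1} 2 H d) :
    DetS X.P (X.G g) M (mD X D) (fun n v => (X.G g n).pt v 2) c := by
  intro q r hr e
  have e' : ∀ᶠ n in UF, q n ≤ r n := e.mono fun n a => by
    have : (q n : ℝ) ≤ r n := by nlinarith [(Nat.cast_nonneg (q n) : (0 : ℝ) ≤ q n)]
    exact_mod_cast this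
  obtain ⟨C, hC⟩ := hr
  refine detC.f K g M mm D J η γ X t h H d (by linarith) f ce q q r r
    ⟨C, by filter_upwards [e', hC] with n a b using a.trans b⟩ ⟨C, hC⟩
    (Le.of_ev (Eventually.of_forall fun n => ?_)) (e'.mono fun n a => ⟨a, a⟩)
  nlinarith [(Nat.cast_nonneg (q n) : (0 : ℝ) ≤ q n)]

theorem rowM2 : OfM2 := by
  classical
  intro k tw cz en Ω x j r X ok h ⟨c1, c2, c3⟩
  have p := h.1
  obtain ⟨z1, z2, z3⟩ := cz x (fun _ _ => True) (decide (x.w ≤ x.γ)) ok (nm_triv x) (by simp)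
    (fun a => le_of_lt (by simpa using a))
  refine en _ _ _ _ _ _ x.p.ε₀ _ z1 z2 c3 (p.one _) (by simp) p.e0.1 p.e0.2
    ⟨_, r, X, h, k.canCl.init x j r X h, trivial⟩ fun σ r Y b => ?_
  have f := k.frCan x σ r Y ok b.1 b.2.1
  have t := tw x (Sx.lv σ) r (x.cd σ) _ (k.canCl.cl x _ σ r) ⟨Y, b⟩
    fun Z a => k.frCan x σ r Z ok a.1 a.2.1
  obtain ⟨y1, y2, y3⟩ := z3 σ r Y b
  have fh := fnH ((z1.tn σ r Y b).com Y b)
  have de := detF t b (p.one _) c3.le fh y1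
  refine ⟨fun _ => y1, fun a => y2 (by simpa using a), y3, k.optF x _ r _ Y f c1 c2,
    k.fbF x _ r _ Y f c1, nGb.one _ _ _ _ _ _ _ _ _ c3.le le_rfl (k.zd x _ r _ Y f)
      (k.ngD x _ r _ Y f (c1.trans_eq c2) _ _ _ (f.nf.trans ((oA1 _ _ _ _ _ _ _ _ b.1).tie _ _ c2))
        (k.ngF x _ r _ Y f) de) de⟩

theorem rowMI : OfMI := by
  intro k tw cz en Ω x j r X ok h ⟨c1, c3⟩
  have p := h.1
  have u : x.vU = x.vH := le_antisymm ((p.uh _).trans ok.oh) ((p.hq _).trans c1.ge)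
  have e : x.w = x.γ := (p.tie _ _ u).symm
  obtain ⟨z1, -, z3⟩ := cz x (fun _ _ => True) true ok (nm_triv x) (fun _ => e.le) (by simp)
  rw [e] at z1
  refine en _ _ _ _ _ x.p.ε₀ _ z1 c3 p.e0.1 p.e0.2
    ⟨_, r, X, h, k.canCl.init x j r X h, trivial⟩ fun σ r Y b _ => ?_
  have f := k.frCan x σ r Y ok b.1 b.2.1
  have t := tw x (Sx.lv σ) r (x.cd σ) _ (k.canCl.cl x _ σ r) ⟨Y, b⟩
    fun Z a => k.frCan x σ r Z ok a.1 a.2.1
  obtain ⟨y1, y2, -⟩ := z3 σ r Y b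
  have c := (z1.tn σ r Y b).com Y b
  have fh := fnH c
  exact ⟨e ▸ y2 rfl, e ▸ k.optI x _ r _ Y f c1, e ▸ k.fbI x _ r _ Y f c1,
    nGb.two _ _ _ _ _ _ _ _ Y t b _ _ _ _ (p.one _) fh c.cellU y1 (k.ngI x _ r _ Y f c1)⟩

theorem rowMA : OfMA := by
  intro k tw cz en Ω x j r X ok h ⟨c1, c3⟩
  have p := h.1
  obtain ⟨z1, -, z3⟩ := cz x (fun _ _ => True) false ok (nm_triv x) (by simp)
    fun _ => c3.le.trans (p.one _)
  have hT : ∀ i ∈ ({0, 1} : Finset (Fin 3)), i ≠ 0 → i ∈ jP false ∧ (![1, x.γ, x.w] : V 3) i = 1 := by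
    intro i hi h0
    have : i = 1 := by simpa [h0] using hi
    subst this
    exact ⟨by simp [jP], c3⟩
  obtain ⟨σ, r, X, hX⟩ := Zoom.zTyp1 _ _ _ _ _ _ {0, 1} _ _ z1 (by simp) hT
    ⟨_, r, X, h, k.canCl.init x j r X h, trivial⟩
  have tn := (Zoom.zTyp2 _ _ _ _ _ _ {0, 1} _ _ z1 (by simp) hT).tn σ r X hX
  refine en _ _ r x.m _ x.p.η x.w x.p.ε₀ ⟨c3 ▸ tn, p.one _, p.e0, fun Y b' => ?_⟩
  have b := b'.1
  have f := k.frCan x σ r Y ok b.1 b.2.1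
  have t := tw x (Sx.lv σ) r (x.cd σ) _ (k.canCl.cl x _ σ r) ⟨Y, b⟩
    fun Z a => k.frCan x σ r Z ok a.1 a.2.1
  obtain ⟨y1, -, -⟩ := z3 σ r Y b
  have c := (z1.tn σ r Y b).com Y b
  have fh := fnH c
  refine ⟨y1, k.optA x _ r _ Y f c1, ?_⟩
  rcases (((p.uh _).trans ok.oh).trans c1.le : x.vU ≤ x.vQ).eq_or_lt with q | q
  · have e : x.w = x.γ := p.tie _ _ (c1.trans q.symm)
    exact nGb.out _ _ _ _ _ _ _ _ Y t b _ _ fh (e ▸ y1)
      (nGb.two _ _ _ _ _ _ _ _ Y t b _ _ _ _ (p.one _) fh c.cellU y1 (k.ngI x _ r _ Y f q))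
  · have de := detF t b (p.one _) le_rfl fh y1
    exact nGb.one _ _ _ _ _ _ _ _ _ le_rfl c3.le (k.zd x _ r _ Y f)
      (k.ngD x _ r _ Y f q _ _ _ (f.nf.trans ((oA1 _ _ _ _ _ _ _ _ b.1).tie _ _ c1))
        (k.ngF x _ r _ Y f) de) de

end Pool.Agent.MP_5168f5_an.R4.T8
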