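import Pool.Agent.MP_5168f5_an.R4.SpecTG
import Pool.Agent.MP_5168f5_an.R4.KitW
import Pool.Agent.MP_5168f5_an.R4.KitZ
import Pool.Agent.MP_5168f5_an.R4.KitO

/-! The curved mode. -/

namespace Pool.Agent.MP_5168f5_an.R4.T8

open H19 H17S H17F Filter Tan

namespace MCx

variable {Ω : ℕ → Type} {K : Mb Ω → Prop} {g : Gs 3 Ω} {M mm J : ℕ → ℕ} {D : ∀ n, Td (Ω n)}
  {η γ d w : ℝ} {X : Mb Ω} {C : ∀ n, Tc (X.W n)}

theorem om0 : OM M fun _ => 0 := ⟨0, Eventually.of_forall fun _ => Nat.zero_le _⟩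

theorem cellU (t : TW K g M mm D J η γ) (h : K X) :
    Cell X.P (X.G g) M {0} 1 (fun n => (mD X D n).U) γ := by
  refine rev K g M mm D J η γ X t h {0} 1 _ γ t.one (by simp) ((t.com X h).nest.mono
    fun n u j v hv v' hv' e => ?_) (t.com X h).wU fun a ha => ?_
  · have u1 := (u.2.1 j).2 v hv v' hv' e
    simp only [Prod.mk.injEq] at u1
    exact u1.2.2.1
  · obtain ⟨L, s, e⟩ := (t.com X h).wU a (fun _ => 0) ha (Eventually.of_forall fun n => by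
      have := t.one; push_cast; positivity)
    exact ⟨L, s, e.mono (Eventually.of_forall fun n v _ u =>
      ((congrArg abs (u.1 1 (by simp))).trans abs_zero).le.trans (s.pos n).le)⟩

theorem one (t : TW K g M mm D J η γ) (h : K X) (hd : 1 ≤ d)
    (o : ∀ Y, K Y → OH Y.P (Y.G g) M mm w) (cu : CuW X.P (X.G g) M mm (mD X D) C d w) :
    γ = 1 ∧ CH X.P (X.G g) M mm (mD X D) C d w ∧
      WL X.P M fun n L v => 1 ≤ L * |(sq ((C n).Ap v)).det| := by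
  have c := cellU t h
  have srf := surfW K g M mm D J η γ X t h C d w cu (dirH K g M mm D J η γ X t h w o)
    (subT K g M mm D J η γ X t h c _ om0 (by simp))
  have f : ∀ᶠ n in UF, Fn (X n).Q (C n).Ap (X.G g n).θ ∧ ∀ v ∈ (X n).Q.S, ((C n).Ap v).IsSymm :=
    cu.fn.mono fun n u => ⟨u.1, fun v hv => (u.2.2 v hv).1⟩
  have nq := nQ K g M mm D J η γ X t h w _ o (f.mono fun _ u => u.1) srf
  have det := detQ K g M mm D J η γ X t h _ f srf nq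
  have e := gam1 K g M mm D J η γ X t h _ f c srf det
  exact ⟨e, ⟨hd, cu, srf, nq, fun a ha => subT K g M mm D J η γ X t h c a ha (by simp [e])⟩, det⟩

end MCx

open MCx in
theorem rowMC : OfMC := by
  intro k tw cz en Ω x j₀ r₀ X₀ ok h₀ c
  have p := h₀.1
  obtain ⟨j₁, r₁, h₁, pr⟩ := k.parZ.ex x j₀ r₀ X₀ h₀ c
  have fr := fun σ r Y (b : x.BB (x.Prt j₀) σ r Y) => k.frCan x σ r Y ok b.1 b.2.1
  have t := fun σ r Y (b : x.BB (x.Prt j₀) σ r Y) =>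
    tw x (Sx.lv σ) r (x.cd σ) _ (k.canCl.cl x _ σ r) ⟨Y, b⟩ (fr σ r)
  have o := fun σ r Y (b : x.BB (x.Prt j₀) σ r Y) => one (t σ r Y b) b (p.one iQ)
    (fun Z a => k.optP x _ r _ Z (fr σ r Z a)) (k.cuC x _ r _ Y (fr σ r Y b) c j₀ b.2.2
      (k.optP x _ r _ Y (fr σ r Y b)) (k.optQ x _ r _ Y (fr σ r Y b) c j₀))
  have b₁ : x.BB (x.Prt j₀) _ r₁ X₀ := ⟨h₁, k.canCl.init x j₁ r₁ X₀ h₁, pr⟩
  have c3 : x.γ = 1 := (o _ _ _ b₁).1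
  obtain ⟨z1, -, -⟩ := cz x (x.Prt j₀) false ok (k.parZ.nm x j₀) (by simp)
    fun _ => c3.le.trans (p.one _)
  have hT : ∀ i ∈ ({0, 1} : Finset (Fin 3)), i ≠ 0 → i ∈ jP false ∧ (![1, x.γ, x.w] : V 3) i = 1 := by
    intro i hi h0
    have : i = 1 := by simpa [h0] using hi
    subst this
    exact ⟨by simp [jP], c3⟩
  obtain ⟨σ, r, X, hX⟩ := Zoom.zTyp1 _ _ _ _ _ _ {0, 1} _ _ z1 (by simp) hT ⟨_, r₁, X₀, b₁⟩
  have tn := (Zoom.zTyp2 _ _ _ _ _ _ {0, 1} _ _ z1 (by simp) hT).tn σ r X hX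
  have hr : Big r := by simpa using ((tn.cls 1 one_pos).bs X hX).big
  have p4 := fun Y (b : x.BB (x.Prt j₀) σ r Y) =>
    propA _ _ _ _ _ _ _ _ Y (t σ r Y b) b _ _ _ (o σ r Y b).2.1
  obtain ⟨L, sL, wL⟩ := monoE _ _ r _ hr ((o σ r X hX.1).2.1.cu.fn.mono fun n u v hv =>
    ⟨(u.2.2 v hv).1, (u.2.2 v hv).2 0⟩) (o σ r X hX.1).2.1.srf (p4 X hX.1)
  have tn' := Zoom.zSub _ (fun Y => Zoom.BT (x.tw false) (x.BB (x.Prt j₀)) {0, 1} σ r Y ∧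
      ∀ᶠ n in UF, ∀ v ∈ (Y n).Q.S,
        Mn ((x.fc (Sx.lv σ) j₀ (x.cd σ) n).A 0 ((Y n).ρ v)) (L n) (2 ^ r n)) _ _ _ _ _ _ _ {0, 1}
    tn (tn.cl.and (kc1.sure fun n ω => Mn ((x.fc (Sx.lv σ) j₀ (x.cd σ) n).A 0 ω) (L n) (2 ^ r n)))
    ⟨_, tn.cl.cond X _ hX wL.pos, wL.pos.sure.mono fun n u v hv => (u v hv).2⟩
    fun Y a => ⟨a.1, a.1.2⟩
  refine en _ _ r x.m _ (fun n => mkQ (Zoom.gs (x.tw false) σ n) (Zoom.ds (x.tw false) σ n).o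
    (x.fc (Sx.lv σ) j₀ (x.cd σ) n)) x.p.η x.dq x.p.ε₀ ⟨c3 ▸ tn', p.one _, p.e0, fun Y a => ?_⟩
  have b := a.1.1
  obtain ⟨-, ch, det⟩ := o σ r Y b
  have cm := tn.com Y a.1
  have ce := cellE _ _ _ _ _ _ _ _ Y (t σ r Y b) b _ _ _ ch (p4 Y b)
  have de := detE _ _ _ _ _ _ _ _ Y (t σ r Y b) b _ _ _ ch ce
  have ev : ∀ n v s, ev 2 ((mQ Y (fun n => mkQ (Zoom.gs (x.tw false) σ n)
      (Zoom.ds (x.tw false) σ n).o (x.fc (Sx.lv σ) j₀ (x.cd σ) n)) n).cf v) s =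
      (mC Y (x.fc (Sx.lv σ) j₀ (x.cd σ)) n).f (Y.G (x.fg (Sx.lv σ) (x.cd σ)) n) v s :=
    fun n v s => mkQK.ev (Zoom.gs (x.tw false) σ n) (Zoom.ds (x.tw false) σ n).o
      (x.fc (Sx.lv σ) j₀ (x.cd σ) n) ((Y n).ρ v) s
  refine ⟨?_, ?_, ?_, ?_, ch.srf.surf, ?_, ?_, ?_, ?_⟩
  · filter_upwards [ch.cu.fn, cm.nest] with n u v
    exact mkQK.fn (Y n).Q (Y.G (Zoom.gs (x.tw false) σ) n) (mD Y (Zoom.ds (x.tw false) σ) n)
      (mC Y (x.fc (Sx.lv σ) j₀ (x.cd σ)) n) u.1 u.2.1 (fun ω hω => (u.2.2 ω hω).1) v.1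
      fun i ω hω ω' hω' e => by
        have u1 := (v.2 i).2 ω hω ω' hω' e
        simp only [Prod.mk.injEq] at u1 ⊢
        exact ⟨u1.1, u1.2.1, u1.2.2.1⟩
  · obtain ⟨L₁, s, e⟩ := ch.cu.bd
    exact ⟨_, s.const_mul (tn.low.bs Y a.1).big (by norm_num : (1 : ℝ) ≤ 32),
      e.mono fun n u v hv => mkQK.bd (Zoom.gs (x.tw false) σ n) (Zoom.ds (x.tw false) σ n).o
        (x.fc (Sx.lv σ) j₀ (x.cd σ) n) ((Y n).ρ v) _ (u v hv)⟩
  · simp only [ev]; exact ch.cu.fat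
  · obtain ⟨L₁, s₁, e₁⟩ := ch.srf.bd
    obtain ⟨L₂, s₂, e₂⟩ := det
    refine ⟨_, s₁.mul s₂, (e₁.and e₂).mono (Eventually.of_forall fun n v _ u => ?_)⟩
    have a1 : L₁ n ≤ L₁ n * L₂ n := le_mul_of_one_le_right (s₁.pos n).le (s₂.1 n)
    have a2 : L₂ n ≤ L₁ n * L₂ n := le_mul_of_one_le_left (s₂.pos n).le (s₁.1 n)
    exact ⟨fun i l => (u.1.1 i l).trans a1, u.1.2.1.trans a1, fun i => (u.1.2.2 i).trans a1,
      u.2.trans (mul_le_mul_of_nonneg_right a2 (abs_nonneg _))⟩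
  · simp only [ev]; exact ce
  · simp only [ev]
    exact ballE _ _ _ _ _ _ _ _ Y (t σ r Y b) b _ _ _
      (fun n => (mD Y (Zoom.ds (x.tw false) σ) n).o) ch (p4 Y b) ce cm.ball
  · simp only [ev]; exact ch.cu.optE
  · simp only [ev]
    exact nGb.one _ _ _ _ _ _ _ _ _ (by norm_num) (c3.le.trans (by norm_num))
      (k.zd x _ r _ Y (fr σ r Y b)) (k.ngD x _ r _ Y (fr σ r Y b)
        (((p.uh _).trans ok.oh).trans_lt c) _ _ _ Eqv.rfl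
        (k.ngC x _ r _ Y (fr σ r Y b) c j₀ L sL a.2) de) de

end Pool.Agent.MP_5168f5_an.R4.T8
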