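import Pool.Agent.MP_5168f5_an.R4.VNGF

/-! The value of the quadric and the last original coordinate determine each other. -/

namespace Pool.Agent.MP_5168f5_an.R4.T8

open H19 H17S H17F Filter Matrix Tan

namespace NGCx

theorem qf_near {A : Qd} {L δ t : ℝ} {y y' : V 3}
    (h : ∀ i : Fin 4, |pf A (hom t y) (bv i.succ)| ≤ L)
    (h' : ∀ i : Fin 4, |pf A (hom t y') (bv i.succ)| ≤ L) (e : ∀ i, |y i - y' i| ≤ δ) :
    |qf A (hom t y) - qf A (hom t y')| ≤ 3 * L * δ := by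
  have hL : 0 ≤ L := (abs_nonneg _).trans (h 0)
  have e0 : hom t y - hom t y' =
      (y 0 - y' 0) • bv 2 + (y 1 - y' 1) • bv 3 + (y 2 - y' 2) • bv 4 := by
    funext i; fin_cases i <;> simp [hom, bv]
  have b : ∀ Y : V 5, (∀ i : Fin 4, |pf A Y (bv i.succ)| ≤ L) →
      |pf A Y (hom t y - hom t y')| ≤ 3 * L * δ := fun Y hY => by
    rw [e0, pf_add_right, pf_add_right, pf_smul_right, pf_smul_right, pf_smul_right]
    have c : ∀ (i : Fin 3) (l : Fin 4), |(y i - y' i) * pf A Y (bv l.succ)| ≤ L * δ := fun i l => by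
      rw [abs_mul, mul_comm]; exact mul_le_mul (hY l) (e i) (abs_nonneg _) hL
    have c0 : |(y 0 - y' 0) * pf A Y (bv 2)| ≤ L * δ := c 0 1
    have c1 : |(y 1 - y' 1) * pf A Y (bv 3)| ≤ L * δ := c 1 2
    have c2 : |(y 2 - y' 2) * pf A Y (bv 4)| ≤ L * δ := c 2 3
    refine (abs_add_three _ _ _).trans ?_
    linarith
  have b1 := abs_le.1 (b _ h)
  have b2 := abs_le.1 (b _ h')
  rw [qf_sub_qf, abs_le]
  constructor <;> linarith [b1.1, b1.2, b2.1, b2.2]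

theorem all3 (k : Bool) {p : Fin 3 → Prop} (h0 : p 0) (h1 : p (co k)) (h2 : p (co (!k))) :
    ∀ i, p i := by
  intro i
  cases k <;> fin_cases i <;> assumption

theorem sc_up {a b C : ℝ} {N q : ℕ} (h : |a - b| ≤ C * ((2 : ℝ) ^ (N + q))⁻¹) :
    |2 ^ N * a - 2 ^ N * b| ≤ C / 2 ^ q := by
  have p : (0 : ℝ) < 2 ^ N := by positivity
  have e : C / 2 ^ q = (2 : ℝ) ^ N * (C * ((2 : ℝ) ^ (N + q))⁻¹) := by
    rw [pow_add]; field_simp
  rw [← mul_sub, abs_mul, abs_of_pos p, e]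
  exact mul_le_mul_of_nonneg_left h p.le

theorem sc_dn {a b : ℝ} {N q : ℕ} (h : |2 ^ N * a - 2 ^ N * b| ≤ ((2 : ℝ) ^ q)⁻¹) :
    |a - b| ≤ ((2 : ℝ) ^ (N + q))⁻¹ := by
  have p : (0 : ℝ) < 2 ^ N := by positivity
  rw [← mul_sub, abs_mul, abs_of_pos p] at h
  rw [pow_add, mul_inv, ← div_eq_inv_mul, le_div_iff₀ p, mul_comm]
  exact h

theorem sc_le {a δ C : ℝ} {N : ℕ} (h : |a| ≤ δ) (hC : (2 : ℝ) ^ N ≤ C) : |2 ^ N * a| ≤ C * δ := by
  have p : (0 : ℝ) < 2 ^ N := by positivity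
  rw [abs_mul, abs_of_pos p]
  exact mul_le_mul hC h (abs_nonneg _) (p.le.trans hC)

theorem dn_fin {Ω : Type} (g : Geo 3 Ω) (c : ℕ) (k : Bool) (d : Fd Ω) (ω : Ω) (Q : Qd) (s : ℝ)
    (y y' : V 3) {L R B Lf K δ : ℝ} (hS : Sup k d ω) (hM : Mn (pq g c k d Q ω) L B) (hR : 1 ≤ R)
    (hB : R ≤ B) (hs : |s| ≤ 1) (hb : ∀ i, |fk g c k d ω (ot g c ω s) y i| ≤ R ∧
      |fk g c k d ω (ot g c ω s) y' i| ≤ R) (hL : 0 ≤ L) (hu : ∀ i, |(d.pu ω).2.2 i| ≤ Lf)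
    (hf : ∀ i, |(d.pf ω).2.2 i| ≤ Lf)
    (hq : |qf Q (hom (ot g c ω s) y) - qf Q (hom (ot g c ω s) y')| ≤ δ) (e0 : |y 0 - y' 0| ≤ δ)
    (e1 : |y (co k) - y' (co k)| ≤ δ) (kc : (2 : ℝ) ^ c ≤ K * 2 ^ d.Nf)
    (ku : (2 : ℝ) ^ d.Nu ≤ K * 2 ^ d.Nf) :
    |y (co (!k)) - y' (co (!k))| ≤ (L * R * (1 + K + K * (1 + 2 * Lf)) + 2 * Lf) * δ := by
  have m := hM R s _ _ hR hB hs hb
  rw [qf_pq, qf_pq, Tv_hom g c k d ω hS, Tv_hom g c k d ω hS] at m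
  generalize ot g c ω s = t at m hq
  have pu : |pv (d.pu ω) t y - pv (d.pu ω) t y'| ≤ 2 * Lf * δ :=
    NGFx.pv_near (k := k) hu (by cases k; exacts [hS.2.1, hS.1]) t e0 e1
  have pf' : |pv (d.pf ω) t y - pv (d.pf ω) t y'| ≤ 2 * Lf * δ := NGFx.pv_near hf hS.2.2 t e0 e1
  have f0 : fk g c k d ω t y 0 - fk g c k d ω t y' 0 = 2 ^ c * (y 0 - y' 0) := by
    simp only [fk, cons_val_zero]; ring
  have f1 : fk g c k d ω t y 1 - fk g c k d ω t y' 1 =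
      2 ^ d.Nu * ((y (co k) - y' (co k)) - (pv (d.pu ω) t y - pv (d.pu ω) t y')) := by
    simp only [fk, cons_val_one, cons_val_zero]; ring
  have f2 : fk g c k d ω t y 2 - fk g c k d ω t y' 2 =
      2 ^ d.Nf * ((y (co (!k)) - y' (co (!k))) - (pv (d.pf ω) t y - pv (d.pf ω) t y')) := by
    simp only [fk, cons_val_two, tail_cons, head_cons]; ring
  have p : (0 : ℝ) < 2 ^ d.Nf := by positivity
  rw [f0, f1, f2, ← mul_sub, abs_mul, abs_of_pos p] at m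
  have a0 := sc_le hq (le_refl ((2 : ℝ) ^ d.Nf))
  have a1 := sc_le e0 kc
  have a2 := sc_le ((abs_sub _ _).trans (add_le_add e1 pu)) ku
  have m' := m.trans (mul_le_mul_of_nonneg_left (add_le_add (add_le_add a0 a1) a2)
    (mul_nonneg hL (zero_le_one.trans hR)))
  have m2 : |(y (co (!k)) - y' (co (!k))) - (pv (d.pf ω) t y - pv (d.pf ω) t y')| ≤
      L * R * (1 + K + K * (1 + 2 * Lf)) * δ :=
    le_of_mul_le_mul_left (m'.trans (le_of_eq (by ring))) p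
  have := abs_sub_abs_le_abs_sub (y (co (!k)) - y' (co (!k)))
    (pv (d.pf ω) t y - pv (d.pf ω) t y')
  linarith

theorem fk_congr {Ω : Type} (g : Geo 3 Ω) (c : ℕ) (k : Bool) (d : Fd Ω) {ω ω' : Ω}
    (h0 : fl1 c (g.pt ω 0) = fl1 c (g.pt ω' 0)) (h : (d.pu ω, d.pf ω) = (d.pu ω', d.pf ω')) :
    fk g c k d ω = fk g c k d ω' := by
  obtain ⟨h1, h2⟩ := Prod.mk.inj h
  funext t y
  simp only [fk, rd, h0, h1, h2]

theorem pt_bd {Ω : Type} {g : Geo 3 Ω} {P : FP Ω} {L : ℝ} (h : g.Bx P L) {ω : Ω} (hω : ω ∈ P.S)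
    (i : Fin 3) : |g.pt ω i| ≤ 2 * L := by
  obtain ⟨a, b, c⟩ := h.bd ω hω
  have e : g.pt ω i = g.a ω i + g.z ω * g.e ω i := rfl
  rw [e]
  refine (abs_add_le _ _).trans ?_
  rw [abs_mul, abs_of_nonneg b]
  have := mul_le_mul c.le (a i).2 (abs_nonneg _) zero_le_one
  linarith [(a i).1]

theorem sub2 {r a b : ℕ → ℕ} (h : Le r (fun n => a n) fun n => b n) :
    Sub r fun n => (2 : ℝ) ^ (a n - b n) :=
  ⟨fun n => one_le_pow₀ one_le_two, fun ε hε => (h ε hε).mono fun n hn =>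
    (two_pow_le_exp _).trans (Real.exp_le_exp.2 (by
      rcases le_total (a n) (b n) with e | e
      · rw [Nat.sub_eq_zero_of_le e, Nat.cast_zero]; positivity
      · rw [Nat.cast_sub e]; linarith))⟩

theorem pw (a b : ℕ) {K : ℝ} (hK : 1 ≤ K) : (2 : ℝ) ^ a ≤ 2 ^ (a - b) * K * 2 ^ b := by
  have : (2 : ℝ) ^ a ≤ 2 ^ (a - b) * 2 ^ b := by
    rw [← pow_add]; exact pow_le_pow_right₀ one_le_two (by omega)
  refine this.trans (mul_le_mul_of_nonneg_right ?_ (by positivity))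
  exact le_mul_of_one_le_right (by positivity) hK

variable {Ω : ℕ → Type} (x : Sx Ω) (j j₀ : ℕ → ℕ) (d : ∀ n, Fd (Ω n)) (X : Mb Ω)

theorem val (n : ℕ) (v : (X n).W) (hS : Sup x.k (d n) ((X n).ρ v))
    (hN : (d n).Nf ≤ (x.F n).τ iQ (j n)) :
    (mC X (x.fc j j₀ d) n).f (X.G (x.fg j d) n) v ((X.G (x.fg j d) n).z v) =
      2 ^ (x.F n).τ iQ (j n) * qf (dQ (x.F n) (j n) ((X n).ρ v))
        (hom ((X.G x.g n).z v) ((X.G x.g n).pt v)) := by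
  have e := ql_pq (x.g n) (x.M n) (j n) x.k (d n) ((x.F n).S (j n)) ((X n).ρ v) hS
    (dQ (x.F n) (j n) ((X n).ρ v)) ((x.fg j d n).z ((X n).ρ v))
  rw [ot_z] at e
  have e2 : (2 : ℝ) ^ (x.F n).τ iQ (j n) = 2 ^ ((x.F n).τ iQ (j n) - (d n).Nf) * 2 ^ (d n).Nf := by
    rw [← pow_add, Nat.sub_add_cancel hN]
  rw [e2, mul_assoc]
  exact congrArg (fun a : ℝ => 2 ^ ((x.F n).τ iQ (j n) - (d n).Nf) * a) e

theorem vUH (h : x.p.OK) (ho : x.OK) : x.vU ≤ x.vH := (h.uh x.k).trans ho.oh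

end NGCx

open NGCx in
theorem rowNGC : OfNGC := fun hs hi Ω x j r d X h hv j₀ L hL hM q hq => by
  have o := oA1 x.g x.F x.M x.m x.p j r X h.tg
  obtain ⟨Lf, hLf, hf⟩ := h.fit
  obtain ⟨La, hLa, ha⟩ := o.fam.alg
  obtain ⟨Lb, hLb, hb⟩ := (hs x j r d X h).low.1.bx
  have hr : Big r := o.big.2.1
  have sf := NGFx.sup o.big.2.2.1 hLf
  have sa := NGFx.sup o.big.2.2.1 hLa
  have sb := (NGFx.sup o.big.2.2.1 hLb).const_mul hr one_le_two
  have r1 : Oh r r := ⟨1, .of_forall fun n => by omega⟩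
  have far := o.far (iH (!x.k)) iQ r hv r1
  have hN : ∀ᶠ n in UF, (d n).Nf ≤ (x.F n).τ iQ (j n) ∧ j n ≤ (x.F n).τ iQ (j n) := by
    filter_upwards [far, h.nf.1 1 one_pos, o.low (iH (!x.k)) 1 one_pos] with n a b c
    have b' : (d n).Nf ≤ (x.F n).τ (iH (!x.k)) (j n) + r n := by
      rw [one_mul] at b; exact_mod_cast b
    have c' : j n ≤ (x.F n).τ (iH (!x.k)) (j n) + r n := by
      rw [one_mul] at c; exact_mod_cast c
    omega
  have lj : Le r (fun n => j n) fun n => (d n).Nf := (o.low _).trans h.nf.2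
  have lu : Le r (fun n => (d n).Nu) fun n => (d n).Nf := by
    refine h.nu.1.trans (Le.trans ?_ h.nf.2)
    rcases (vUH x h.tg.1 h.ok).eq_or_lt with e | e
    · exact (o.tie _ _ e).1
    · exact Le.of_ev ((o.far _ _ r e r1).mono fun n a => by exact_mod_cast (by omega))
  have sK := (sub2 lj).mul (sub2 lu)
  have s2 := sf.const_mul hr one_le_two
  have s1 : Sub r fun _ => (1 : ℝ) := hr.sub le_rfl
  refine ⟨Sm.near1 hr (sa.const_mul hr (by norm_num : (1 : ℝ) ≤ 3)) ?_, Sm.near1 hr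
    (((hL.mul sb).mul ((s1.add sK hr).add (sK.mul (s1.add s2 hr)) hr)).add s2 hr) ?_⟩
  · filter_upwards [hi x j r d X h, ha, hN, o.room q hq] with n a b c m v hv w hw e
    simp only [Prod.mk.injEq, Sx.Z2] at e
    obtain ⟨e1, ⟨e2, e3⟩, e4, e5⟩ := e
    have eQ : dQ (x.F n) (j n) ((X n).ρ v) = dQ (x.F n) (j n) ((X n).ρ w) :=
      b.fd none (j n) v hv w hw e4
    have fv := ((b.fit none (j n) v hv).2.2 _ rfl).2
    have fw := ((b.fit none (j n) w hw).2.2 _ rfl).2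
    rw [val x j j₀ d X n v (a.2.2.2.2.1 v hv) c.1, val x j j₀ d X n w (a.2.2.2.2.1 w hw) c.1,
      ← eQ, ← e5]
    refine sc_up (qf_near fv ?_ (all3 x.k
      (abs_sub_lt_of_fl1_eq (fl1_eq_of_le (m.2.2 iQ) e2)).le
      (abs_sub_lt_of_fl1_eq (fl1_eq_of_le (m.2.2 iQ) e3)).le (abs_sub_lt_of_fl1_eq e1).le))
    rw [eQ, e5]
    exact fw
  · filter_upwards [hi x j r d X h, ha, hN, hf, h.fn, hb, hM, sb.2 (1 / 2) one_half_pos] with
      n a b c f fn bx mn rb v hv w hw e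
    simp only [Prod.mk.injEq] at e
    obtain ⟨e1, e2, e3, e4, e5⟩ := e
    have eQ : dQ (x.F n) (j n) ((X n).ρ v) = dQ (x.F n) (j n) ((X n).ρ w) :=
      b.fd none (j n) v hv w hw e4
    rw [val x j j₀ d X n v (a.2.2.2.2.1 v hv) c.1, val x j j₀ d X n w (a.2.2.2.2.1 w hw) c.1,
      ← eQ, ← e5] at e1
    have ek := fk_congr (x.g n) (j n) x.k (d n)
      (fl1_eq_of_le (c.2.trans (Nat.le_add_right _ (q n))) e2) (fn v hv w hw e4)
    have oz := ot_z (x.g n) (x.M n) (j n) x.k (d n) ((x.F n).S (j n)) ((X n).ρ v)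
    have pv' := fr_pt (x.g n) (x.M n) (j n) x.k (d n) ((x.F n).S (j n)) ((X n).ρ v)
    have pw' := fr_pt (x.g n) (x.M n) (j n) x.k (d n) ((x.F n).S (j n)) ((X n).ρ w)
    have e6 : (x.g n).z ((X n).ρ v) = (x.g n).z ((X n).ρ w) := e5
    rw [← ek, ← e6] at pw'
    have z1 := (bx.bd v hv).2
    rw [div_eq_mul_inv]
    refine dn_fin (x.g n) (j n) x.k (d n) ((X n).ρ v) (dQ (x.F n) (j n) ((X n).ρ v))
      ((x.fg j d n).z ((X n).ρ v)) ((x.g n).pt ((X n).ρ v)) ((x.g n).pt ((X n).ρ w))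
      (a.2.2.2.2.1 v hv) (mn v hv) (sb.1 n) (rb.trans ?_) (abs_le.2 ⟨by linarith [z1.1], z1.2.le⟩)
      (fun i => ?_) (hL.pos n).le (fun i => ((f v hv).1.2.1 i).1) (fun i => ((f v hv).2.2.1 i).1)
      ?_ (abs_sub_lt_of_fl1_eq e2).le (abs_sub_lt_of_fl1_eq e3).le (pw _ _ ((sub2 lu).1 n)) ?_
    · rw [one_div_mul_eq_div]; exact exp_le_two_pow _
    · rw [oz, ← pv', ← pw']
      exact ⟨pt_bd bx hv i, pt_bd bx hw i⟩
    · rw [oz]
      exact sc_dn (abs_sub_lt_of_fl1_eq e1).le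
    · rw [mul_comm ((2 : ℝ) ^ (j n - (d n).Nf))]
      exact pw _ _ ((sub2 lj).1 n)

end Pool.Agent.MP_5168f5_an.R4.T8
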