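import Pool.Agent.MP_5168f5_an.R4.SpecTB
import Pool.Agent.MP_5168f5_an.R4.KitO

/-! The last frame coordinate and the last original coordinate determine each other. -/

namespace Pool.Agent.MP_5168f5_an.R4.T8

open H19 H17S H17F Filter Matrix Tan

namespace NGFx

theorem pv_near {p : Pl} {L δ : ℝ} {k : Bool} (hL : ∀ i, |p.2.2 i| ≤ L) (h0 : p.2.2 (co (!k)) = 0)
    (t : ℝ) {y y' : V 3} (e0 : |y 0 - y' 0| ≤ δ) (e1 : |y (co k) - y' (co k)| ≤ δ) :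
    |pv p t y - pv p t y'| ≤ 2 * L * δ := by
  have e : pv p t y - pv p t y' =
      p.2.2 0 * (y 0 - y' 0) + p.2.2 (co k) * (y (co k) - y' (co k)) := by
    cases k <;> simp [co] at h0 <;> simp [pv, co, Fin.sum_univ_three, h0] <;> ring
  have hL0 : 0 ≤ L := (abs_nonneg _).trans (hL 0)
  rw [e]
  refine (abs_add_le _ _).trans ?_
  rw [abs_mul, abs_mul]
  have a := mul_le_mul (hL 0) e0 (abs_nonneg _) hL0
  have b := mul_le_mul (hL (co k)) e1 (abs_nonneg _) hL0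
  linarith

theorem up {a b a' b' L : ℝ} {N q : ℕ} (h1 : |a - a'| ≤ ((2 : ℝ) ^ (N + q))⁻¹)
    (h2 : |b - b'| ≤ 2 * L * ((2 : ℝ) ^ (N + q))⁻¹) :
    |2 ^ N * (a - b) - 2 ^ N * (a' - b')| ≤ (2 * L + 1) / 2 ^ q := by
  have p : (0 : ℝ) < 2 ^ N := by positivity
  have e : 2 ^ N * (a - b) - 2 ^ N * (a' - b') = 2 ^ N * ((a - a') - (b - b')) := by ring
  have e' : (2 * L + 1) / 2 ^ q =
      (2 : ℝ) ^ N * (((2 : ℝ) ^ (N + q))⁻¹ + 2 * L * ((2 : ℝ) ^ (N + q))⁻¹) := by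
    rw [pow_add]; field_simp; ring
  rw [e, abs_mul, abs_of_pos p, e']
  exact mul_le_mul_of_nonneg_left ((abs_sub _ _).trans (add_le_add h1 h2)) p.le

theorem dn {a b a' b' L : ℝ} {N q : ℕ}
    (h1 : |2 ^ N * (a - b) - 2 ^ N * (a' - b')| ≤ ((2 : ℝ) ^ q)⁻¹)
    (h2 : |b - b'| ≤ 2 * L * ((2 : ℝ) ^ (N + q))⁻¹) : |a - a'| ≤ (2 * L + 1) / 2 ^ (N + q) := by
  have p : (0 : ℝ) < 2 ^ N := by positivity
  have e : a - a' = ((2 : ℝ) ^ N)⁻¹ * (2 ^ N * (a - b) - 2 ^ N * (a' - b')) + (b - b') := by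
    field_simp; ring
  have e' : (2 * L + 1) / 2 ^ (N + q) =
      ((2 : ℝ) ^ N)⁻¹ * ((2 : ℝ) ^ q)⁻¹ + 2 * L * ((2 : ℝ) ^ (N + q))⁻¹ := by
    rw [pow_add]; field_simp; ring
  rw [e, e']
  refine (abs_add_le _ _).trans (add_le_add ?_ h2)
  rw [abs_mul, abs_of_pos (inv_pos.2 p)]
  exact mul_le_mul_of_nonneg_left h1 (inv_pos.2 p).le

theorem sup {M m : ℕ → ℕ} (h : Sm M fun n => m n) {L : ℕ → ℝ} (hL : Sub m L) : Sub M L :=
  ⟨hL.1, fun ε hε => by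
    filter_upwards [hL.2 ε hε, h 1 one_pos] with n a b
    exact a.trans (Real.exp_le_exp.2 (mul_le_mul_of_nonneg_left (by linarith) hε.le))⟩

variable {Ω : ℕ → Type} (x : Sx Ω) (j : ℕ → ℕ) (d : ∀ n, Fd (Ω n)) (X : Mb Ω)

theorem val (n : ℕ) (v : (X n).W) : (X.G (x.fg j d) n).pt v 2 = 2 ^ (d n).Nf *
    ((X.G x.g n).pt v (co (!x.k)) -
      pv ((d n).pf ((X n).ρ v)) ((X.G x.g n).z v) ((X.G x.g n).pt v)) :=
  congrFun (fr_pt (x.g n) (x.M n) (j n) x.k (d n) ((x.F n).S (j n)) ((X n).ρ v)) 2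

end NGFx

open NGFx in
theorem rowNGF : OfNGF := fun _ Ω x j r d X h q hq => by
  have o := oA1 x.g x.F x.M x.m x.p j r X h.tg
  obtain ⟨L, hL, hf⟩ := h.fit
  have hr : Big r := o.big.2.1
  have hL' : Sub r fun n => 2 * L n + 1 :=
    ((sup o.big.2.2.1 hL).const_mul hr one_le_two).add (hr.sub le_rfl) hr
  obtain ⟨C, hC⟩ := hq
  have hM : ∀ᶠ n in UF, (d n).Nf + q n ≤ x.M n := by
    filter_upwards [o.room (fun n => (C + 1) * r n) ⟨C + 1, .of_forall fun _ => le_rfl⟩, hC,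
      h.nf.1 1 one_pos] with n a b c
    have a' := a.2.2 (iH (!x.k))
    have c' : (d n).Nf ≤ (x.F n).τ (iH (!x.k)) (j n) + r n := by
      rw [one_mul] at c; exact_mod_cast c
    rw [add_mul] at a'; omega
  refine ⟨Sm.near1 hr hL' ?_, Sm.near1 hr hL' ?_⟩
  · filter_upwards [hf, h.fn, hM] with n a b c v hv w hw e
    simp only [Prod.mk.injEq, Sx.Z2] at e
    obtain ⟨e1, ⟨e2, e3⟩, e4, e5⟩ := e
    have ep : (d n).pf ((X n).ρ v) = (d n).pf ((X n).ρ w) := congrArg Prod.snd (b v hv w hw e4)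
    have f := (a w hw).2.2.1
    rw [val, val, ep, e5]
    refine NGFx.up (abs_sub_lt_of_fl1_eq e1).le (pv_near (k := x.k) (fun i => (f i).1) ((f _).2 ?_) _
      (abs_sub_lt_of_fl1_eq (fl1_eq_of_le c e2)).le (abs_sub_lt_of_fl1_eq (fl1_eq_of_le c e3)).le)
    cases x.k <;> decide
  · filter_upwards [hf, h.fn] with n a b v hv w hw e
    simp only [Prod.mk.injEq] at e
    obtain ⟨e1, e2, e3, e4, e5⟩ := e
    have ep : (d n).pf ((X n).ρ v) = (d n).pf ((X n).ρ w) := congrArg Prod.snd (b v hv w hw e4)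
    have f := (a w hw).2.2.1
    rw [val, val, ep, e5] at e1
    refine NGFx.dn (abs_sub_lt_of_fl1_eq e1).le (pv_near (k := x.k) (fun i => (f i).1) ((f _).2 ?_) _
      (abs_sub_lt_of_fl1_eq e2).le (abs_sub_lt_of_fl1_eq e3).le)
    cases x.k <;> decide

end Pool.Agent.MP_5168f5_an.R4.T8
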