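import Pool.Agent.MP_5168f5_an.R4.SpecTB
import Pool.Agent.MP_5168f5_an.R4.KitO

/-! The rate of the two last frame coordinates given the finest digits of the first one. -/

namespace Pool.Agent.MP_5168f5_an.R4.T8

open H19 H17S H17F Filter Matrix Tan

namespace NGIx

theorem gap {r a b : ℕ → ℕ} (h : Le r (fun n => a n) fun n => b n) :
    Sub r fun n => (2 : ℝ) ^ (a n - b n) := ⟨fun n => one_le_pow₀ one_le_two, fun ε hε => by
  filter_upwards [h ε hε] with n u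
  refine (two_pow_le_exp _).trans (Real.exp_le_exp.2 ?_)
  rcases le_total (a n) (b n) with e | e
  · rw [Nat.sub_eq_zero_of_le e, Nat.cast_zero]; positivity
  · rw [Nat.cast_sub e]; linarith⟩

theorem sub_up {r m : ℕ → ℕ} (h : Sm r fun n => m n) {L : ℕ → ℝ} (hL : Sub m L) : Sub r L :=
  ⟨hL.1, fun ε hε => by
    filter_upwards [hL.2 ε hε, h 1 one_pos] with n a b
    exact a.trans (Real.exp_le_exp.2 (mul_le_mul_of_nonneg_left (by linarith) hε.le))⟩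

theorem fe {a b : ℝ} {j : ℕ} (h : fl1 j a = fl1 j b) : |a - b| ≤ 1 / 2 ^ j := by
  rw [one_div]; exact (abs_sub_lt_of_fl1_eq h).le

theorem ml {l a L B : ℝ} (hl : |l| ≤ L) (ha : |a| ≤ B) : |l * a| ≤ L * B := by
  rw [abs_mul]; exact mul_le_mul hl ha (abs_nonneg _) ((abs_nonneg _).trans hl)

theorem upR {T L a b c l m : ℝ} {s N q : ℕ} (h : 2 ^ s ≤ T * 2 ^ N) (ha : |a| ≤ 1 / 2 ^ (N + q))
    (hb : |b| ≤ 1 / 2 ^ (N + q)) (hc : |c| ≤ 1 / 2 ^ (N + q)) (hl : |l| ≤ L) (hm : |m| ≤ L) :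
    |2 ^ s * (a - l * b - m * c)| ≤ T * (1 + 2 * L) / 2 ^ q := by
  have h1 : |a - l * b - m * c| ≤ _ := (abs_sub _ _).trans
    (add_le_add ((abs_sub _ _).trans (add_le_add ha (ml hl hb))) (ml hm hc))
  refine (ml (le_of_eq_of_le (abs_of_pos (by positivity)) h) h1).trans_eq ?_
  rw [pow_add]; field_simp; ring

theorem dnR {T a R B : ℝ} {s N q : ℕ} (h : 2 ^ N ≤ T * 2 ^ s) (h1 : |2 ^ s * (a - R)| ≤ 1 / 2 ^ q)
    (h2 : |R| ≤ B * (1 / 2 ^ (N + q))) : |a| ≤ (T + B) * (1 / 2 ^ (N + q)) := by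
  rw [abs_mul, abs_of_pos (by positivity : (0 : ℝ) < 2 ^ s)] at h1
  have h3 : |a - R| ≤ T * (1 / 2 ^ (N + q)) := by
    refine le_of_mul_le_mul_left (h1.trans ?_) (by positivity : (0 : ℝ) < 2 ^ s)
    rw [show (1 : ℝ) / 2 ^ q = 2 ^ N * (1 / 2 ^ (N + q)) by rw [pow_add]; field_simp, ← mul_assoc,
      mul_comm _ T]
    exact mul_le_mul_of_nonneg_right h (by positivity)
  have := abs_add_le (a - R) R
  rw [sub_add_cancel] at this
  linarith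

theorem ent {W α β γ δ : Type} {P : FP W} (A₁ A₂ x₁ x₀ : W → α) (H L : W → β) {K : W → γ}
    {z : W → δ} (h1 : Fn P x₁ H) (h2 : Fn P x₁ K) (h3 : Fn P z K) :
    ch P (fun v => (A₁ v, A₂ v)) K + ch P x₁ (fun v => (x₀ v, L v, z v)) ≤
      ch P L K + ch P A₁ (fun v => (H v, K v)) + ch P A₂ (fun v => (H v, K v)) +
        ch P H fun v => (L v, z v) := by
  have a1 := ch_tri (P := P) (fun v => (A₁ v, A₂ v)) H K
  have a2 := ch_subadd (P := P) A₁ A₂ fun v => (H v, K v)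
  have a3 := ch_tri (P := P) H L K
  have a4 : ch P H (fun v => (L v, K v)) ≤ ch P H fun v => (x₁ v, L v, z v) :=
    ch_anti ((h2.right L).pair ((Fn.fst L K).pair (h3.right L)))
  have a5 := ch_chain (P := P) x₁ H fun v => (L v, z v)
  have a6 : ch P (fun v => (x₁ v, H v)) (fun v => (L v, z v)) ≤ ch P H fun v => (L v, z v) :=
    ch_mono ((h1.pair (Fn.rfl H)).left _)
  have a7 : ch P x₁ (fun v => (x₀ v, L v, z v)) ≤ ch P x₁ fun v => (L v, z v) :=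
    ch_anti (Fn.snd _ _)
  linarith

section One

variable {Ω K : Type} (g : Geo 3 Ω) (M c : ℕ) (k : Bool) (d : Fd Ω) (κ : Ω → K) {ω ω' : Ω}

theorem x0 (ω : Ω) : (Tan.fr g M c k d κ).pt ω 0 = Int.fract (2 ^ c * g.pt ω 0) := by
  rw [fr_pt]
  simp only [fk, Tan.rd, fl1, Int.fract, Matrix.cons_val_zero]
  field_simp

theorem xfl (q : ℕ) (ω ω' : Ω) : fl1 (c + q) (g.pt ω 0) = fl1 (c + q) (g.pt ω' 0) ↔
    fl1 c (g.pt ω 0) = fl1 c (g.pt ω' 0) ∧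
      fl1 q ((Tan.fr g M c k d κ).pt ω 0) = fl1 q ((Tan.fr g M c k d κ).pt ω' 0) := by
  rw [x0, x0]; exact ka.fl _ _ _ _

theorem dif (h : Sup k d ω) (e : (d.pu ω', d.pf ω') = (d.pu ω, d.pf ω)) (ez : g.z ω' = g.z ω) :
    (Tan.fr g M c k d κ).pt ω 1 - (Tan.fr g M c k d κ).pt ω' 1 =
      2 ^ d.Nu * ((g.pt ω - g.pt ω') (co k) - (d.pu ω).2.2 0 * (g.pt ω - g.pt ω') 0) ∧
    (Tan.fr g M c k d κ).pt ω 2 - (Tan.fr g M c k d κ).pt ω' 2 =
      2 ^ d.Nf * ((g.pt ω - g.pt ω') (co (!k)) - ((d.pf ω).2.2 0 * (g.pt ω - g.pt ω') 0 +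
        (d.pf ω).2.2 (co k) * (g.pt ω - g.pt ω') (co k))) := by
  obtain ⟨h1, h2, h3⟩ := h
  obtain ⟨e1, e2⟩ := Prod.mk.inj e
  rw [fr_pt, fr_pt, ez]
  cases k <;> simp [co] at h3 <;>
    simp [fk, pv, co, Fin.sum_univ_three, h1, h2, h3, e1, e2] <;> constructor <;> ring

variable {T L : ℝ} {N q : ℕ} (h : Sup k d ω) (e : (d.pu ω', d.pf ω') = (d.pu ω, d.pf ω))
  (ez : g.z ω' = g.z ω) (hu : ∀ i, |(d.pu ω).2.2 i| ≤ L) (hf : ∀ i, |(d.pf ω).2.2 i| ≤ L)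

include h e ez hu hf

theorem upw (t1 : 2 ^ d.Nu ≤ T * 2 ^ N) (t2 : 2 ^ d.Nf ≤ T * 2 ^ N)
    (hp : fl (N + q) (g.pt ω) = fl (N + q) (g.pt ω')) :
    |(Tan.fr g M c k d κ).pt ω 1 - (Tan.fr g M c k d κ).pt ω' 1| ≤ T * (1 + 2 * L) / 2 ^ q ∧
    |(Tan.fr g M c k d κ).pt ω 2 - (Tan.fr g M c k d κ).pt ω' 2| ≤ T * (1 + 2 * L) / 2 ^ q := by
  have b : ∀ i, |(g.pt ω - g.pt ω') i| ≤ 1 / 2 ^ (N + q) := fun i => fe (congrFun hp i)
  obtain ⟨e1, e2⟩ := dif g M c k d κ h e ez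
  rw [e1, e2, ← sub_sub]
  refine ⟨?_, upR t2 (b _) (b _) (b _) (hf _) (hf _)⟩
  simpa only [zero_mul, sub_zero] using upR (m := 0) t1 (b (co k)) (b 0) (b 0) (hu 0)
    (by simpa using (abs_nonneg _).trans (hu 0))

theorem dn (hT : 1 ≤ T) (t1 : 2 ^ N ≤ T * 2 ^ d.Nu) (t2 : 2 ^ N ≤ T * 2 ^ d.Nf)
    (p0 : fl1 (N + q) (g.pt ω 0) = fl1 (N + q) (g.pt ω' 0))
    (p1 : fl1 q ((Tan.fr g M c k d κ).pt ω 1) = fl1 q ((Tan.fr g M c k d κ).pt ω' 1))
    (p2 : fl1 q ((Tan.fr g M c k d κ).pt ω 2) = fl1 q ((Tan.fr g M c k d κ).pt ω' 2)) :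
    ‖g.pt ω - g.pt ω'‖ ≤ (T + L) * (1 + L) / 2 ^ (N + q) := by
  have L0 : 0 ≤ L := (abs_nonneg _).trans (hu 0)
  obtain ⟨e1, e2⟩ := dif g M c k d κ h e ez
  have b0 : |(g.pt ω - g.pt ω') 0| ≤ 1 / 2 ^ (N + q) := fe p0
  have b1 := dnR t1 (e1 ▸ fe p1) (ml (hu 0) b0)
  have b2 := dnR (B := L + L * (T + L)) t2 (e2 ▸ fe p2) ((abs_add_le _ _).trans
    ((add_le_add (ml (hf 0) b0) (ml (hf _) b1)).trans_eq (by ring)))
  have d0 : (0 : ℝ) ≤ 1 / 2 ^ (N + q) := by positivity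
  have d1 := mul_nonneg L0 d0
  have d2 := mul_le_mul_of_nonneg_right hT d0
  have d3 := mul_nonneg (mul_nonneg L0 (show 0 ≤ T + L by linarith)) d0
  rw [div_eq_mul_one_div]
  refine (pi_norm_le_iff_of_nonneg (by nlinarith)).2 fun i => ?_
  have : i = 0 ∨ i = co k ∨ i = co (!k) := by revert i; cases k <;> decide
  rw [Real.norm_eq_abs]
  rcases this with rfl | rfl | rfl <;> nlinarith

end One

theorem lab {Ω : ℕ → Type} {P : ∀ n, FP (Ω n)} {g : Gs 3 Ω} {M m a : ℕ → ℕ}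
    (h : Bs2 P (g.fin M) M m) (ha : ∀ᶠ n in UF, a n ≤ M n) :
    Lab P (g.fin M) m a fun n ω => fl (a n) ((g n).pt ω) := by
  obtain ⟨L, hL, bx⟩ := h.bx
  refine ⟨(Sm.near (P := P) (x := fun n => (g n).pt) (G := fun n => (g.fin M n).win (a n)) (j := a)
    h.big hL (bx.mono fun n bx u hu v _ e => ?_)).mono
    (Eventually.of_forall fun n => mi_le _ _ _), Le.of_ev (ha.mono fun n b =>
      (mi_le _ _ _).trans (ch_zero fun u _ v _ e => fl_eq_of_le b (congrArg Prod.fst e)).le)⟩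
  simp only [Geo.win, Geo.ln, Prod.mk.injEq] at e
  refine (pi_norm_le_iff_of_nonneg (div_nonneg (hL.pos n).le (by positivity))).2 fun i => ?_
  have e1 : ((g n).pt u - (g n).pt v) i = (g n).e u i * ((g n).z u - (g n).z v) := by
    simp only [Geo.pt, Geo.lt, ← e.1.1, ← e.1.2.1, Pi.sub_apply, Pi.add_apply, Pi.smul_apply,
      smul_eq_mul]
    ring
  rw [Real.norm_eq_abs, e1, div_eq_mul_one_div]
  exact ml ((bx.bd u hu).1 i).2 (fe e.2)

end NGIx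

open NGIx in
theorem rowNGI : OfNGI := by
  intro inv Ω x j r d X h uq
  have iv := inv x j r d X h
  have o1 := oA1 _ _ _ _ _ j r X h.tg
  have o2 := oA2 _ _ _ _ _ j r X h.tg
  refine ⟨fun b q hq bq => ?_, fun q q' hq qq => ?_⟩
  · obtain ⟨L, -, alg⟩ := o1.fam.alg
    refine (o2.xa _ _ (fun n => j n + b n) (fun n => j n + q n) x.M (o1.fam.lab _)
      ((bq.and (o1.room q hq)).mono fun n u => ⟨by omega, u.2.2.1, le_rfl⟩)).of_sub ?_
    filter_upwards [o1.room q hq, alg] with n ⟨_, hM, _⟩ alg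
    have nest : ∀ a, Fn (X n).Q (fun v => (x.F n).S (j n) ((X n).ρ v))
        fun v => (x.F n).S (j n + a) ((X n).ρ v) := fun a => by
      induction a with
      | zero => exact Fn.rfl _
      | succ a ih => exact ih.trans (alg.nest _)
    have xf := xfl (x.g n) (x.M n) (j n) x.k (d n) ((x.F n).S (j n)) (q n)
    have a1 := ch_fl1_refine (P := (X n).Q) (x := fun v => (x.g n).pt ((X n).ρ v) 0)
      (G := fun v => (fl1 (q n) ((X.G (x.fg j d) n).pt v 0), (X.G (x.fg j d) n).zt v))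
      (j := fun _ => j n + q n) (i := fun _ => x.M n - (j n + q n)) (fun _ _ _ _ _ => rfl)
      (fun _ _ _ _ _ => rfl) fun u _ v _ e => (xf _ _).2 ⟨by
        have := (h.ok.dg n _ _ _ (congrArg (·.2.2) e)).2.2
        rwa [min_eq_left (by omega)] at this, congrArg Prod.fst e⟩
    simp only [Nat.add_sub_cancel' hM, FP.E_const, Nat.cast_sub hM] at a1
    have a2 : ch (X n).Q (fun v => x.Z1 n ((X n).ρ v)) (fun v =>
        (fl1 (j n + q n) ((X.G x.g n).pt v 0), (x.F n).S (j n + b n) ((X n).ρ v),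
          (X.G x.g n).zt v)) ≤ ch (X n).Q (fun v => x.Z1 n ((X n).ρ v)) fun v =>
        ((x.F n).S (j n + b n) ((X n).ρ v), fl1 (q n) ((X.G (x.fg j d) n).pt v 0),
          (X.G (x.fg j d) n).zt v) := ch_anti fun u hu v hv e => by
      refine Prod.ext (congrArg (·.2.1) e) (Prod.ext ?_ (Prod.ext ?_
        (nest _ u hu v hv (congrArg (·.2.1) e))))
      · exact ((xf ((X n).ρ u) ((X n).ρ v)).1 (congrArg (·.1) e)).2
      · exact congrArg (fun t => Int.fract (2 ^ j n * t.2.2.1)) e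
    rw [mi_symm]
    have aux : ∀ a b c D : ℝ, a ≤ D → c ≤ b → a - b - 0 ≤ D - c := by intros; linarith
    exact aux _ _ _ _ a1 a2
  have hq0 : x.vH = x.vQ := le_antisymm (h.tg.1.hq _) (uq ▸ (h.tg.1.uh _).trans h.ok.oh)
  have eu := h.nu.1.trans (o1.tie _ _ uq).1
  have eu' := (o1.tie _ _ uq).2.trans h.nu.2
  have ef := h.nf.1.trans (o1.tie _ _ hq0).1
  have ef' := (o1.tie _ _ hq0).2.trans h.nf.2
  obtain ⟨T, hT, t⟩ : ∃ T, Sub r T ∧ ∀ n, (2 ^ (d n).Nu ≤ T n * 2 ^ (x.F n).τ iQ (j n) ∧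
      2 ^ (d n).Nf ≤ T n * 2 ^ (x.F n).τ iQ (j n)) ∧ 2 ^ (x.F n).τ iQ (j n) ≤ T n * 2 ^ (d n).Nu ∧
      2 ^ (x.F n).τ iQ (j n) ≤ T n * 2 ^ (d n).Nf :=
    ⟨_, ((gap eu).mul (gap eu')).mul ((gap ef).mul (gap ef')), fun n => by
      simp only [← pow_add]
      refine ⟨⟨?_, ?_⟩, ?_, ?_⟩ <;> exact pow_le_pow_right₀ one_le_two (by omega)⟩
  obtain ⟨L, hL, fit⟩ := h.fit
  replace hL := sub_up o1.big.2.2.1 hL
  have big := o1.big.2.1
  have room := (qq.and (o1.room q' hq)).mono fun n u => And.intro u.1 (u.2.2.2 iQ)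
  have com : ∀ᶠ n in UF, ∀ u ∈ (X n).Q.S, ∀ v ∈ (X n).Q.S,
      (X.G (x.fg j d) n).zt u = (X.G (x.fg j d) n).zt v → Sup x.k (d n) ((X n).ρ u) ∧
      ((d n).pu ((X n).ρ v), (d n).pf ((X n).ρ v)) = ((d n).pu ((X n).ρ u), (d n).pf ((X n).ρ u)) ∧
      (x.g n).z ((X n).ρ v) = (x.g n).z ((X n).ρ u) ∧ (∀ i, |((d n).pu ((X n).ρ u)).2.2 i| ≤ L n) ∧
      ∀ i, |((d n).pf ((X n).ρ u)).2.2 i| ≤ L n := by
    filter_upwards [iv, h.fn, fit] with n iv fn fit u hu v hv e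
    have e1 := iv.2.2.1 v hv u hu e.symm
    exact ⟨iv.2.2.2.2.1 u hu, fn v hv u hu (congrArg Prod.snd e1), congrArg (·.1.1) e1,
      fun i => ((fit u hu).1.2.1 i).1, fun i => ((fit u hu).2.2.1 i).1⟩
  have s1 := Sm.near (P := X.P) (x := fun n => (X.G x.g n).pt)
    (G := fun n v => (fl1 (q n) ((X.G (x.fg j d) n).pt v 1), fl1 (q n) ((X.G (x.fg j d) n).pt v 2),
      x.Z1 n ((X n).ρ v), (X.G (x.fg j d) n).zt v)) (j := fun n => (x.F n).τ iQ (j n) + q n) big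
    ((hT.add hL big).mul ((big.sub le_rfl).add hL big)) (by
      filter_upwards [com, room] with n com rm u hu v hv e
      obtain ⟨c1, c2, c3, c4, c5⟩ := com u hu v hv (congrArg (·.2.2.2) e)
      exact dn (x.g n) (x.M n) (j n) x.k (d n) ((x.F n).S (j n)) c1 c2 c3 c4 c5 (hT.1 n)
        (t n).2.1 (t n).2.2
        (fl1_eq_of_le (by omega) (congrArg (·.2.2.1) e)) (congrArg (·.1) e) (congrArg (·.2.1) e))
  have s2 : ∀ i : Fin 3, i = 1 ∨ i = 2 → Sm r fun n => ch (X n).Q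
      (fun v => fl1 (q' n) ((X.G (x.fg j d) n).pt v i)) fun v =>
      (fl ((x.F n).τ iQ (j n) + q' n) ((X.G x.g n).pt v), fl1 (q n) ((X.G (x.fg j d) n).pt v 1),
        fl1 (q n) ((X.G (x.fg j d) n).pt v 2), x.Z1 n ((X n).ρ v), (X.G (x.fg j d) n).zt v) :=
    fun i hi => Sm.near1 big (hT.mul ((big.sub le_rfl).add (hL.const_mul big one_le_two) big)) (by
      filter_upwards [com] with n com u hu v hv e
      obtain ⟨c1, c2, c3, c4, c5⟩ := com u hu v hv (congrArg (·.2.2.2.2) e)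
      have := upw (x.g n) (x.M n) (j n) x.k (d n) ((x.F n).S (j n)) c1 c2 c3 c4 c5 (t n).1.1
        (t n).1.2 (congrArg (·.1) e)
      rcases hi with rfl | rfl
      exacts [this.1, this.2])
  have s4 := o2.xa _ _ _ (fun n => (x.F n).τ iQ (j n) + q n) (fun n => (x.F n).τ iQ (j n) + q' n)
    (lab (g := X.G x.g) (a := fun n => (x.F n).τ iQ (j n) + q n) o1.bs
      (room.mono fun n u => by omega)) (room.mono fun n u => ⟨le_rfl, by omega, u.2⟩)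
  have s5 := o2.ng q' (fun n => (x.F n).τ iQ (j n) + q n) (fun n => (x.F n).τ iQ (j n) + q' n) hq
    (room.mono fun n u => ⟨by omega, by omega, le_rfl⟩)
  refine s1.of5 (s2 1 (Or.inl rfl)) (s2 2 (Or.inr rfl)) s4 s5 ?_
  filter_upwards [room, iv] with n rm iv
  have a := ent (P := (X n).Q) (fun v => fl1 (q' n) ((X.G (x.fg j d) n).pt v 1))
    (fun v => fl1 (q' n) ((X.G (x.fg j d) n).pt v 2))
    (fun v => fl1 ((x.F n).τ iQ (j n) + q' n) ((X.G x.g n).pt v 0))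
    (fun v => fl1 ((x.F n).τ iQ (j n) + q n) ((X.G x.g n).pt v 0))
    (fun v => fl ((x.F n).τ iQ (j n) + q' n) ((X.G x.g n).pt v))
    (fun v => fl ((x.F n).τ iQ (j n) + q n) ((X.G x.g n).pt v))
    (K := fun v => (fl1 (q n) ((X.G (x.fg j d) n).pt v 1), fl1 (q n) ((X.G (x.fg j d) n).pt v 2),
      x.Z1 n ((X n).ρ v), (X.G (x.fg j d) n).zt v)) (z := (X.G x.g n).zt)
    (fun _ _ _ _ e => congrFun e 0)
    (fun _ _ _ _ e => fl1_eq_of_le rm.2 (congrArg (·.2.2.1) e))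
    fun u hu v hv e => congrArg Prod.fst (iv.2.2.1 u hu v hv (congrArg (·.2.2.2) e))
  have e0 : 0 ≤ x.p.ε₀ * (q' n - q n : ℝ) * lg := mul_nonneg (mul_nonneg h.tg.1.e0.1.le
    (sub_nonneg.2 (by exact_mod_cast rm.1))) lg_pos.le
  have aux : ∀ A X s₁ s₂ s₃ Y N a b ε l : ℝ, A + X ≤ s₁ + s₂ + s₃ + Y → 0 ≤ ε * (b - a) * l →
      A - (2 - ε) * (b - a) * l ≤ s₁ - 0 + (s₂ - 0) + (s₃ - 0) + ((N + b - (N + a)) * l - X) +
        (Y - 3 * (1 - ε) * (N + b - (N + a)) * l) := by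
    intros; linarith
  rw [Nat.cast_add, Nat.cast_add]
  exact aux _ _ _ _ _ _ _ _ _ _ _ a e0

end Pool.Agent.MP_5168f5_an.R4.T8
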