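import Pool.Agent.MP_5168f5_an.R4.SpecTB
import Pool.Agent.MP_5168f5_an.R4.KitO

/-! No gain for quadrics with bounded gradient in the frame. -/

namespace Pool.Agent.MP_5168f5_an.R4.T8

open H19 H17S H17F Filter Matrix Tan

namespace OptAx

theorem bil {N : ℕ} (A : Matrix (Fin N) (Fin N) ℝ) (U W : V N) {a b B : ℝ} (hU : ∀ i, |U i| ≤ a)
    (hA : ∀ i k, |A i k| ≤ B) (hW : ∀ i, |W i| ≤ b) : |U ⬝ᵥ A *ᵥ W| ≤ N * (a * (N * (B * b))) := by
  have s : ∀ (f : Fin N → ℝ) (c : ℝ), (∀ i, |f i| ≤ c) → |∑ i, f i| ≤ N * c := fun f c h =>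
    (Finset.abs_sum_le_sum_abs _ _).trans
      ((Finset.sum_le_card_nsmul _ _ c fun i _ => h i).trans_eq (by simp))
  have m : ∀ {x y c e : ℝ}, |x| ≤ c → |y| ≤ e → |x * y| ≤ c * e := fun h h' =>
    (abs_mul _ _).trans_le (mul_le_mul h h' (abs_nonneg _) ((abs_nonneg _).trans h))
  exact s _ _ fun i => m (hU i) (s _ _ fun k => m (hA i k) (hW k))

theorem qlip (A : Qd) (Y W : V 5) {B R δ : ℝ} (hA : ∀ i k, |A i k| ≤ B) (hY : ∀ i, |Y i| ≤ R)
    (hW : ∀ i, |W i| ≤ R) (h : ∀ i, |(Y - W) i| ≤ δ) : |qf A Y - qf A W| ≤ 50 * (B * R * δ) := by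
  have e : qf A Y - qf A W = (Y - W) ⬝ᵥ A *ᵥ Y + W ⬝ᵥ A *ᵥ (Y - W) := by
    simp only [qf, mulVec_sub, sub_dotProduct, dotProduct_sub]; ring
  rw [e]
  refine (abs_add_le _ _).trans ((add_le_add (bil A _ _ h hA hY) (bil A _ _ hW hA h)).trans_eq ?_)
  push_cast; ring

theorem cont {W : Type} {P : FP W} {g : Geo 3 W} {L δ B : ℝ} (bx : g.Bx P L) (hL : 1 ≤ L)
    (nr : ∀ i, Near P g.y (fun ω => g.pt ω i) δ) {A : Qd} (hA : ∀ i k, |A i k| ≤ B) (hB : 1 ≤ B)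
    {v v' : W} (hv : v ∈ P.S) (hv' : v' ∈ P.S) (e : g.y v = g.y v') :
    |g.pt v 2 - qf A (g.hp v) - (g.pt v' 2 - qf A (g.hp v'))| ≤ 101 * (B * L * δ) := by
  have b : ∀ v ∈ P.S, ∀ i, |g.hp v i| ≤ 2 * L := fun v hv i => by
    obtain ⟨h, z0, z1⟩ := bx.bd v hv
    have k : ∀ i, |g.pt v i| ≤ 2 * L := fun i => by
      have := mul_le_mul z1.le (h i).2 (abs_nonneg _) zero_le_one
      have u := abs_add_le (g.a v i) (g.z v * g.e v i)
      rw [abs_mul, abs_of_nonneg z0] at u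
      exact u.trans (by linarith [(h i).1])
    fin_cases i
    · exact abs_one.trans_le (by linarith)
    · exact (abs_of_nonneg z0).trans_le (by linarith)
    exacts [k 0, k 1, k 2]
  have n := fun i => nr i v hv v' hv' e
  have d0 : 0 ≤ δ := (abs_nonneg _).trans (n 0)
  have q := qlip A _ _ hA (b v hv) (b v' hv') (δ := δ) fun i => by
    fin_cases i
    · exact (congrArg abs (sub_self 1)).trans_le (by simpa using d0)
    · exact (congrArg abs (sub_eq_zero.2 (bx.fz v hv v' hv' e))).trans_le (by simpa using d0)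
    exacts [n 0, n 1, n 2]
  have u := abs_sub (g.pt v 2 - g.pt v' 2) (qf A (g.hp v) - qf A (g.hp v'))
  have w : δ ≤ B * L * δ := le_mul_of_one_le_left d0 (one_le_mul_of_one_le_of_one_le hB hL)
  rw [show g.pt v 2 - qf A (g.hp v) - (g.pt v' 2 - qf A (g.hp v')) =
    g.pt v 2 - g.pt v' 2 - (qf A (g.hp v) - qf A (g.hp v')) by ring]
  linarith [n 2]

/-- The graph of `A` plus `c`, as a quadric. -/
def qa (s c : ℝ) (A : Qd) : Qd := fun i l =>
  s * ((if i = 0 ∧ l = 4 then 1 else 0) - A i l - if i = 0 ∧ l = 0 then c else 0)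

theorem pf_qa (s c : ℝ) (A : Qd) (Y W : V 5) : pf (qa s c A) Y W =
    s * (Y 0 * W 4 + W 0 * Y 4 - pf A Y W - 2 * c * Y 0 * W 0) := by
  simp [pf, qa, mulVec, dotProduct, Fin.sum_univ_five]; ring

theorem qf_qa (s c : ℝ) (A : Qd) (t : ℝ) (y : V 3) :
    qf (qa s c A) (hom t y) = s * (y 2 - qf A (hom t y) - c) := by
  have := pf_qa s c A (hom t y) (hom t y)
  rw [pf_self, pf_self] at this
  simp only [hom, cons_val_zero, cons_val] at this ⊢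
  linarith

theorem hess {A : Qd} (h4 : ∀ i k, i = 4 ∨ k = 4 → A i k = 0) {H T : ℝ}
    (hH : ∀ i k : Fin 4, |pf A (bv i.succ) (bv k.succ)| ≤ H) {W W' : V 5}
    (h : W 0 = 0 ∧ |W 1| ≤ T ∧ |W 2| ≤ T ∧ |W 3| ≤ T)
    (h' : W' 0 = 0 ∧ |W' 1| ≤ T ∧ |W' 2| ≤ T ∧ |W' 3| ≤ T) : |pf A W W'| ≤ 16 * (H * T ^ 2) := by
  have b : ∀ {W : V 5}, W 0 = 0 ∧ |W 1| ≤ T ∧ |W 2| ≤ T ∧ |W 3| ≤ T →
      ∀ i, |(![W 1, W 2, W 3, 0] : V 4) i| ≤ T := fun h i => by
    fin_cases i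
    exacts [h.2.1, h.2.2.1, h.2.2.2, abs_zero.trans_le ((abs_nonneg _).trans h.2.1)]
  have e : pf A W W' = ![W 1, W 2, W 3, 0] ⬝ᵥ
      (Matrix.of fun i k : Fin 4 => pf A (bv i.succ) (bv k.succ)) *ᵥ ![W' 1, W' 2, W' 3, 0] := by
    simp [pf, bv, mulVec, dotProduct, Fin.sum_univ_succ, Pi.single_apply, h.1, h'.1, h4]
    ring
  rw [e]
  refine (bil _ _ _ (b h) hH (b h')).trans_eq ?_
  push_cast; ring

section

variable {Ω : Type} (g : Geo 3 Ω) (c : ℕ) (k : Bool) (d : Fd Ω) (ω : Ω)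

theorem col {L : ℝ} (hL : 1 ≤ L) (h1 : |(d.pu ω).2.1| ≤ L) (h2 : ∀ m, |(d.pu ω).2.2 m| ≤ L)
    (i : Fin 4) : (Ti g c k d ω *ᵥ bv i.succ) 0 = 0 ∧ |(Ti g c k d ω *ᵥ bv i.succ) 1| ≤ 2 ^ c ∧
      |(Ti g c k d ω *ᵥ bv i.succ) 2| ≤ 2 ^ c ∧
      |(Ti g c k d ω *ᵥ bv i.succ) 3| ≤ 2 ^ d.Nu * (2 * L) := by
  have a := fun m => abs_le.1 (h2 m)
  have b := abs_le.1 h1
  simp only [bv, mulVec_single_one]
  refine ⟨?_, ?_, ?_, ?_⟩
  · fin_cases i <;> simp [Ti, bv]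
  · fin_cases i <;> simp [Ti, bv]
  · fin_cases i <;> simp [Ti, bv]
  · change |(2 : ℝ) ^ d.Nu * _| ≤ _
    rw [abs_mul, abs_of_nonneg (by positivity)]
    refine mul_le_mul_of_nonneg_left (abs_le.2 ?_) (by positivity)
    have := a 0
    have := a 1
    have := a 2
    fin_cases i <;> cases k <;> simp [bv, co, Fin.sum_univ_three] <;>
      first | linarith | (constructor <;> linarith)

theorem col_f (h : Sup k d ω) :
    Ti g c k d ω *ᵥ bv (co (!k)).succ.succ = (2 : ℝ) ^ d.Nf • bv 4 := by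
  obtain ⟨h1, h2, h3⟩ := h
  funext i
  simp only [bv, mulVec_single_one]
  fin_cases i <;> cases k <;> simp [co] at h3 <;>
    simp [Ti, bv, co, Fin.sum_univ_three, h1, h2, h3]

theorem col_u (h : Sup k d ω) : Ti g c k d ω *ᵥ bv (co k).succ.succ =
    (2 : ℝ) ^ d.Nu • bv 3 - (2 ^ d.Nf * (d.pf ω).2.2 (co k)) • bv 4 := by
  obtain ⟨h1, h2, h3⟩ := h
  funext i
  simp only [bv, mulVec_single_one]
  fin_cases i <;> cases k <;> simp [Ti, bv, co, Fin.sum_univ_three, h1, h2]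

theorem gy_eq (A : Qd) (Y : V 5) :
    gy A Y = max |pf A Y (bv (co k).succ.succ)| |pf A Y (bv (co (!k)).succ.succ)| := by
  cases k
  exacts [rfl, max_comm _ _]

theorem key {K L s : ℝ} {a τ : ℕ} {A : Qd} {t : ℝ} {y : V 3} (h : Sup k d ω) (hK : 1 ≤ K)
    (hL : 1 ≤ L) (h1 : |(d.pu ω).2.1| ≤ K) (h2 : ∀ m, |(d.pu ω).2.2 m| ≤ K)
    (h3 : |(d.pf ω).2.2 (co k)| ≤ K) (hu : (2 : ℝ) ^ d.Nu ≤ K * 2 ^ d.Nf)
    (hc : (2 : ℝ) ^ c ≤ K * 2 ^ d.Nf) (h4 : ∀ i k, i = 4 ∨ k = 4 → A i k = 0) {z : ℝ} {w : V 3}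
    (e : Ti g c k d ω *ᵥ hom t y = hom z w) (hg : |pf A (hom z w) (bv 3)| ≤ L)
    (hh : ∀ i k : Fin 4, |pf A (bv i.succ) (bv k.succ)| ≤ L * 2 ^ a)
    (hv : |w 2 - qf A (hom z w) - s| ≤ 1 / 2 ^ τ) {A₀ : Qd}
    (e₀ : A₀ = oq g c k d (qa (2 ^ d.Nf)⁻¹ s A) ω) :
    1 ≤ 64 * K ^ 4 * L * gy A₀ (hom t y) ∧ gy A₀ (hom t y) ≤ 64 * K ^ 4 * L ∧
      |qf A₀ (hom t y)| ≤ 64 * K ^ 4 * L / 2 ^ (d.Nf + τ) ∧
      ∀ i l : Fin 4, |pf A₀ (bv i.succ) (bv l.succ)| ≤ 64 * K ^ 4 * L * 2 ^ (d.Nf + a) := by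
  have p : (0 : ℝ) < 2 ^ d.Nf := by positivity
  have k4 : K ≤ K ^ 4 := le_self_pow₀ hK (by norm_num)
  have b : K * L ≤ K ^ 4 * L := mul_le_mul_of_nonneg_right k4 (by linarith)
  have b1 : K ≤ K * L := le_mul_of_one_le_right (by linarith) hL
  have z4 : pf A (hom z w) (bv 4) = 0 := by
    simp [pf, bv, mulVec, dotProduct, Fin.sum_univ_five, h4]
  have gf : pf A₀ (hom t y) (bv (co (!k)).succ.succ) = 1 := by
    rw [e₀, pf_oq, e, col_f g c k d ω h, pf_qa, pf_smul_right, z4]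
    simp [hom, bv]
  have gu : |pf A₀ (hom t y) (bv (co k).succ.succ)| ≤ 2 * (K * L) := by
    have : pf A₀ (hom t y) (bv (co k).succ.succ) =
        -(d.pf ω).2.2 (co k) - 2 ^ d.Nu / 2 ^ d.Nf * pf A (hom z w) (bv 3) := by
      rw [e₀, pf_oq, e, col_u g c k d ω h, pf_qa, pf_sub_right, pf_smul_right, pf_smul_right, z4]
      simp [hom, bv]
      field_simp
    rw [this]
    refine (abs_sub _ _).trans ?_
    rw [abs_neg, abs_mul, abs_of_nonneg (a := _ / _) (by positivity)]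
    linarith [mul_le_mul ((div_le_iff₀ p).2 hu) hg (abs_nonneg _) (by linarith)]
  rw [gy_eq k, gf, abs_one]
  refine ⟨one_le_mul_of_one_le_of_one_le (by linarith) (le_max_right _ _),
    max_le (by linarith) (by linarith), ?_, fun i l => ?_⟩
  · rw [e₀, qf_oq, e, qf_qa, abs_mul, abs_of_nonneg (by positivity)]
    refine (mul_le_mul_of_nonneg_left hv (by positivity)).trans ?_
    rw [pow_add, ← div_div, ← div_eq_inv_mul, div_right_comm]
    gcongr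
    linarith
  · have u : ∀ i : Fin 4, (Ti g c k d ω *ᵥ bv i.succ) 0 = 0 ∧
        |(Ti g c k d ω *ᵥ bv i.succ) 1| ≤ 2 * K ^ 2 * 2 ^ d.Nf ∧
        |(Ti g c k d ω *ᵥ bv i.succ) 2| ≤ 2 * K ^ 2 * 2 ^ d.Nf ∧
        |(Ti g c k d ω *ᵥ bv i.succ) 3| ≤ 2 * K ^ 2 * 2 ^ d.Nf := fun i => by
      obtain ⟨a0, a1, a2, a3⟩ := col g c k d ω hK h1 h2 i
      have q : K * 2 ^ d.Nf ≤ 2 * K ^ 2 * 2 ^ d.Nf :=
        mul_le_mul_of_nonneg_right (by nlinarith) p.le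
      exact ⟨a0, a1.trans (hc.trans q), a2.trans (hc.trans q), a3.trans
        ((mul_le_mul_of_nonneg_right hu (by linarith)).trans_eq (by ring))⟩
    rw [e₀, pf_oq, pf_qa, (u i).1, (u l).1]
    simp only [zero_mul, mul_zero, add_zero, sub_zero, zero_sub, abs_mul, abs_neg]
    rw [abs_of_nonneg (by positivity)]
    refine (mul_le_mul_of_nonneg_left (hess h4 hh (u i) (u l)) (by positivity)).trans_eq ?_
    field_simp
    ring

theorem Ti_eq {ω' : Ω} (h1 : fl1 c (g.z ω) = fl1 c (g.z ω'))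
    (h2 : fl1 c (g.pt ω 0) = fl1 c (g.pt ω' 0)) (h3 : d.pu ω = d.pu ω') (h4 : d.pf ω = d.pf ω') :
    Ti g c k d ω = Ti g c k d ω' := by
  funext i l
  simp only [Ti, Geo.z0, Tan.rd, h1, h2, h3, h4]

end

theorem sub_le {M : ℕ → ℕ} {L : ℕ → ℝ} (h : Sub M L) : ∀ᶠ n in UF, L n ≤ 2 ^ M n :=
  (h.2 (Real.log 2) (by positivity)).mono fun n a => by
    rwa [mul_comm, Real.exp_nat_mul, Real.exp_log two_pos] at a

theorem sub_up {M mm : ℕ → ℕ} (h : Sm M fun n => mm n) {L : ℕ → ℝ} (hL : Sub mm L) : Sub M L :=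
  ⟨hL.1, fun ε hε => by
    filter_upwards [hL.2 ε hε, h 1 one_pos] with n a b
    exact a.trans (Real.exp_le_exp.2 (mul_le_mul_of_nonneg_left (by simpa using b) hε.le))⟩

theorem om_add {M a b : ℕ → ℕ} (h : OM M a) (h' : OM M b) : OM M fun n => a n + b n := by
  obtain ⟨C, e⟩ := h
  obtain ⟨C', e'⟩ := h'
  exact ⟨C + C', (e.and e').mono fun n u => by rw [add_mul]; exact add_le_add u.1 u.2⟩

theorem om_rfl (M : ℕ → ℕ) : OM M M := ⟨1, Eventually.of_forall fun n => by simp⟩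

theorem gap {M q τ : ℕ → ℕ} (h : Le M (fun n => q n) fun n => τ n) :
    ∃ L, Sub M L ∧ ∀ n, (2 : ℝ) ^ q n ≤ L n * 2 ^ τ n := by
  refine ⟨fun n => (2 : ℝ) ^ (q n - τ n), ⟨fun n => one_le_pow₀ one_le_two, fun ε hε => ?_⟩,
    fun n => ?_⟩
  · filter_upwards [h ε hε] with n a
    refine (two_pow_le_exp _).trans (Real.exp_le_exp.2 ?_)
    rcases le_total (q n) (τ n) with e | e
    · rw [Nat.sub_eq_zero_of_le e, Nat.cast_zero]; positivity
    · rw [Nat.cast_sub e]; linarith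
  · rw [← pow_add]
    exact pow_le_pow_right₀ one_le_two (by omega)

/-- The admissible quadrics. -/
def ok {Ω : ℕ → Type} (g : Gs 3 Ω) (n : ℕ) (L B : ℝ) (j : ℕ) (A : Qd) (ω : Ω n) : Prop :=
  (∀ i k, |A i k| ≤ B ∧ (i = 4 ∨ k = 4 → A i k = 0)) ∧
    ∀ i : Fin 4, |pf A (hom ((g n).z ω) ((g n).pt ω)) (bv i.succ)| ≤ L ∧
      ∀ k : Fin 4, |pf A (bv i.succ) (bv k.succ)| ≤ L * 2 ^ j

theorem off (hO : Off) {Ω : ℕ → Type} (K : Mb Ω → Prop) (g : Gs 3 Ω) (M mm : ℕ → ℕ) (wt η : ℝ)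
    (hK : Cl0 K) (hM : Big M) (hm : Big mm) (hw : 0 ≤ wt)
    (hS : ∀ X, K X → FrS X.P (X.G g) M mm η)
    (h : ∀ X, K X → NoPt X.P (X.G g) M mm wt (ok (X.G g))
      fun n A v t => (X.G g n).lt t v 2 - ql (X.G g n) A v t) (X : Mb Ω) (hX : K X) :
    OA X.P (X.G g) M mm wt := by
  refine hO K g M mm wt (ok g) (fun n A ω t => (g n).lt t ω 2 - ql (g n) A ω t) hK hM hm hw
    (fun n L B B' j A ω e a => ⟨fun i k => ⟨(a.1 i k).1.trans e, (a.1 i k).2⟩, a.2⟩)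
    (fun X _ => Eventually.of_forall fun n v _ v' _ e A t => ?_) (fun X hX k r hk hr => ?_) h X hX
  · simp only [Geo.ln, Prod.mk.injEq] at e
    simp only [ql, Geo.lt, e.1, e.2.1]
  · have S := hS X hX
    obtain ⟨L, sL, bx⟩ := S.low.1.bx
    choose L' s' nr using fun i => S.fat i _ (om_add (om_add hr hk) (om_rfl M))
    have s3 := ((s' 0).mul (s' 1)).mul (s' 2)
    filter_upwards [bx, nr 0, nr 1, nr 2,
      sub_le ((sub_up S.sm (sL.mul s3)).const_mul hM (C := 101) (by norm_num))]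
      with n bx n0 n1 n2 b _ _ A v hv v' hv' _ hA e
    have a0 := (s' 0).1 n
    have a1 := (s' 1).1 n
    have a2 := (s' 2).1 n
    have l : ∀ i, L' i n ≤ L' 0 n * L' 1 n * L' 2 n := fun i => by
      have := one_le_mul_of_one_le_of_one_le a0 a1
      have := one_le_mul_of_one_le_of_one_le a0 a2
      fin_cases i <;> simp only [Fin.zero_eta, Fin.mk_one, Fin.reduceFinMk] <;> nlinarith
    refine (cont bx (sL.1 n) (δ := L' 0 n * L' 1 n * L' 2 n / 2 ^ (r n + k n + M n))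
      (fun i a ha a' ha' e => ?_) (fun i l => (hA.1 i l).1) (one_le_pow₀ one_le_two) hv hv' e).trans ?_
    · refine le_trans ?_ (div_le_div_of_nonneg_right (l i) (by positivity))
      fin_cases i
      exacts [n0 a ha a' ha' e, n1 a ha a' ha' e, n2 a ha a' ha' e]
    · rw [pow_add, pow_add]
      field_simp
      linarith

end OptAx

open OptAx in
theorem rowOptA : OfOptA := by
  intro hO hC hS hI hL hQ Ω x j r d X hX e
  have A₀ := oA1 _ _ _ _ _ _ _ _ hX.tg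
  refine off hO _ _ r x.m x.w x.p.η (hC x j r d).toCl0 A₀.big.2.1 A₀.big.1
    (zero_le_one.trans (hX.tg.1.one _)) (hS x j r d) ?_ X hX
  intro X h Λ lam A c L a τ k ha hτ hk hl sL hA
  have O := oA1 _ _ _ _ _ _ _ _ h.tg
  have P := h.tg.1
  have uh : Le r (fun n => (x.F n).τ (iU x.k) (j n)) fun n => (x.F n).τ (iH (!x.k)) (j n) := by
    rcases ((P.uh x.k).trans h.ok.oh).eq_or_lt with z | z
    · exact (O.tie _ _ z).1
    · exact Le.of_ev ((O.far _ _ (fun _ => 0) z ⟨0, Eventually.of_forall fun _ => by simp⟩).mono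
        fun n b => by exact_mod_cast b)
  obtain ⟨L₁, s₁, b₁⟩ := gap (h.nu.1.trans (uh.trans h.nf.2))
  obtain ⟨L₂, s₂, b₂⟩ := gap ((O.low _).trans h.nf.2)
  obtain ⟨L₀, s₀, b₀⟩ := h.fit
  have sK := ((sub_up O.big.2.2.1 s₀).mul s₁).mul s₂
  have T := O.tie _ _ e
  have w : x.w = x.dq := P.tie _ _ e
  have Q := hQ x j r a (fun n => (d n).Nf + τ n) (fun n => (d n).Nf + a n) X _ _
    (fun n v => oq (x.g n) (j n) x.k (d n) (qa (2 ^ (d n).Nf)⁻¹ (c n v) (A n v)) ((X n).ρ v)) _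
    h.tg ha (hL x j r d X h Λ lam a hl)
    (((sK.pow 4).const_mul O.big.2.1 (C := 64) (by norm_num)).mul sL)
    (h.nf.1.of2 T.1 (Eventually.of_forall fun n => by
      have := le_mul_of_one_le_left (Nat.cast_nonneg (a n)) (P.one iQ)
      push_cast
      linarith)) ?_
  · exact Q.of3 T.2 h.nf.2 (Eventually.of_forall fun n => by rw [w]; push_cast; linarith)
  filter_upwards [hA, b₀, h.fn, hI x j r d X h, O.room _ (om_add (om_rfl r) hτ), h.nf.1 1 one_pos]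
    with n hA b₀ fn I rm nf
  refine ⟨?_, fun v hv v' hv' z => ?_, fun v hv => ?_⟩
  · have : (d n).Nf ≤ (x.F n).τ (iH (!x.k)) (j n) + r n := by
      rw [one_mul] at nf
      exact_mod_cast nf
    have := rm.2.2 (iH (!x.k))
    omega
  · have z1 := congrArg Prod.fst z
    have u := hA.1 v hv v' hv' (congrArg Prod.snd z)
    have f := fn v hv v' hv' z1
    have g := h.ok.dg n _ _ _ z1
    rw [min_eq_left (by omega)] at g
    simp only [Prod.mk.injEq] at u f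
    simp only [oq, Ti_eq _ _ _ _ _ g.2.1 g.2.2 f.1 f.2, u.1, u.2]
  · obtain ⟨⟨o1, o2⟩, o3⟩ := hA.2 v hv
    obtain ⟨fu, ff⟩ := b₀ v hv
    have a0 := s₀.1 n
    have a1 := s₁.1 n
    have a2 := s₂.1 n
    have k0 : L₀ n ≤ L₀ n * L₁ n * L₂ n := by
      nlinarith [one_le_mul_of_one_le_of_one_le a1 a2]
    have k1 : L₁ n ≤ L₀ n * L₁ n * L₂ n := by
      nlinarith [one_le_mul_of_one_le_of_one_le a0 a2]
    have k2 : L₂ n ≤ L₀ n * L₁ n * L₂ n := by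
      nlinarith [one_le_mul_of_one_le_of_one_le a0 a1]
    exact key (x.g n) (j n) x.k (d n) ((X n).ρ v) (I.2.2.2.2.1 v hv) (sK.1 n) (sL.1 n)
      (fu.1.trans k0) (fun m => (fu.2.1 m).1.trans k0) ((ff.2.1 _).1.trans k0)
      ((b₁ n).trans (mul_le_mul_of_nonneg_right k1 (by positivity)))
      ((b₂ n).trans (mul_le_mul_of_nonneg_right k2 (by positivity))) (fun i l => (o1 i l).2)
      (z := (x.fg j d n).z ((X n).ρ v)) (w := (x.fg j d n).pt ((X n).ρ v))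
      (by rw [Ti_hom, fr_pt, ← ot_inv (x.g n) (j n) ((X n).ρ v) ((x.fg j d n).z _), ot_z]; rfl)
      (o2 2).1 (fun i => (o2 i).2) o3 rfl

end Pool.Agent.MP_5168f5_an.R4.T8
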