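import Pool.Agent.MP_5168f5_an.R4.SpecTB
import Pool.Agent.MP_5168f5_an.R4.KitO
import Pool.Agent.MP_5168f5_an.R4.SVTan
import Pool.Agent.MP_5168f5_an.R4.NCp3T

/-! No gain for quadrics in the frame. -/

namespace Pool.Agent.MP_5168f5_an.R4.T8

open H19 H17S H17F Filter Matrix Tan

namespace OptFx

theorem bil {A : Qd} {Y W : V 5} {B ρ ρ' : ℝ}
    (h : ∀ i k, |A i k| ≤ B ∧ (i = 4 ∨ k = 4 → A i k = 0)) (hY : ∀ i, i ≠ 4 → |Y i| ≤ ρ)
    (hW : ∀ i, i ≠ 4 → |W i| ≤ ρ') : |Y ⬝ᵥ A *ᵥ W| ≤ 25 * (B * ρ * ρ') := by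
  have b0 := (abs_nonneg _).trans (h 0 0).1
  have r0 := (abs_nonneg _).trans (hY 0 (by decide))
  have r1 := (abs_nonneg _).trans (hW 0 (by decide))
  have t : ∀ i k, |Y i * (A i k * W k)| ≤ B * ρ * ρ' := fun i k => by
    by_cases u : i = 4 ∨ k = 4
    · rw [(h i k).2 u, zero_mul, mul_zero, abs_zero]; positivity
    · rw [not_or] at u
      rw [abs_mul, abs_mul, mul_comm B, mul_assoc]
      exact mul_le_mul (hY i u.1) (mul_le_mul (h i k).1 (hW k u.2) (abs_nonneg _) b0)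
        (by positivity) r0
  simp only [dotProduct, mulVec, Finset.mul_sum]
  refine (Finset.abs_sum_le_sum_abs _ _).trans ((Finset.sum_le_sum fun i _ =>
    (Finset.abs_sum_le_sum_abs _ _).trans (Finset.sum_le_sum fun k _ => t i k)).trans_eq ?_)
  simp only [Finset.sum_const, Finset.card_univ, Fintype.card_fin, nsmul_eq_mul]
  push_cast; ring

theorem pfb {A : Qd} {Y W : V 5} {B ρ ρ' : ℝ}
    (h : ∀ i k, |A i k| ≤ B ∧ (i = 4 ∨ k = 4 → A i k = 0)) (hY : ∀ i, i ≠ 4 → |Y i| ≤ ρ)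
    (hW : ∀ i, i ≠ 4 → |W i| ≤ ρ') : |pf A Y W| ≤ 50 * (B * ρ * ρ') := by
  have a1 := bil h hY hW
  have a2 := bil h hW hY
  have := abs_add_le (Y ⬝ᵥ A *ᵥ W) (W ⬝ᵥ A *ᵥ Y)
  unfold pf
  linarith

theorem pf4 {A : Qd} {B : ℝ} (h : ∀ i k, |A i k| ≤ B ∧ (i = 4 ∨ k = 4 → A i k = 0)) (Y : V 5) :
    pf A Y (bv 4) = 0 := by
  simp [pf, bv, dotProduct, mulVec, Fin.sum_univ_five, (h _ 4).2 (Or.inr rfl),
    (h 4 _).2 (Or.inl rfl)]

/-- The graph of the quadric `A` with offset `c`. -/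
def gr (A : Qd) (c : ℝ) : Qd := fun i k =>
  (if i = 0 ∧ k = 4 then 1 else 0) - A i k - if i = 0 ∧ k = 0 then c else 0

theorem pf_gr (A : Qd) (c : ℝ) (Y W : V 5) :
    pf (gr A c) Y W = Y 0 * W 4 + W 0 * Y 4 - pf A Y W - 2 * c * Y 0 * W 0 := by
  simp [pf, gr, dotProduct, mulVec, Fin.sum_univ_five]; ring

theorem pf_sm (a : ℝ) (A : Qd) (Y W : V 5) : pf (a • A) Y W = a * pf A Y W := by
  simp only [pf, smul_mulVec, dotProduct_smul, smul_eq_mul]; ring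

variable {Ω : Type} (g : Geo 3 Ω) (c : ℕ) (k : Bool) (d : Fd Ω) (ω : Ω)

theorem ti_f (h : Sup k d ω) :
    Ti g c k d ω *ᵥ bv (co (!k)).succ.succ = (2 : ℝ) ^ d.Nf • bv 4 := by
  obtain ⟨h1, h2, h3⟩ := h
  funext i
  fin_cases i <;> cases k <;> simp [co] at h3 <;>
    simp [Ti, bv, co, Fin.sum_univ_three, h1, h2, h3, Pi.single_apply]

theorem ti_u (h : Sup k d ω) : Ti g c k d ω *ᵥ bv (co k).succ.succ =
    (2 : ℝ) ^ d.Nu • bv 3 + (-(2 ^ d.Nf * (d.pf ω).2.2 (co k))) • bv 4 := by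
  obtain ⟨h1, h2, h3⟩ := h
  funext i
  fin_cases i <;> cases k <;>
    simp [Ti, bv, co, Fin.sum_univ_three, h1, h2, Pi.single_apply]

theorem ti_col {L R : ℝ} (l1 : 1 ≤ L) (h1 : (2 : ℝ) ^ c ≤ R) (h2 : (2 : ℝ) ^ d.Nu ≤ R)
    (h3 : |(d.pu ω).2.1| ≤ L) (h4 : ∀ m, |(d.pu ω).2.2 m| ≤ L) (l : Fin 4) :
    (Ti g c k d ω *ᵥ bv l.succ) 0 = 0 ∧ ∀ i, i ≠ 4 → |(Ti g c k d ω *ᵥ bv l.succ) i| ≤ 5 * L * R := by
  have e : ∀ i, (Ti g c k d ω *ᵥ bv l.succ) i = Ti g c k d ω i l.succ := fun i => by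
    simp [bv]
  have b0 : bv 0 l.succ = 0 := by simp [bv]
  have b1 : ∀ a, |bv a l.succ| ≤ 1 := fun a => by
    simp only [bv, Pi.single_apply]; split_ifs <;> simp
  have r0 : 0 < R := lt_of_lt_of_le (by positivity) h1
  have t : ∀ (s : ℕ) (y : ℝ), (2 : ℝ) ^ s ≤ R → |y| ≤ 5 * L → |2 ^ s * y| ≤ 5 * L * R :=
    fun s y a b => by
      rw [abs_mul, abs_of_pos (by positivity), mul_comm]
      exact mul_le_mul b a (by positivity) (by linarith)
  have u : ∀ (y : ℝ) a, |y| ≤ L → |y * bv a l.succ| ≤ L := fun y a b => by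
    rw [abs_mul]; exact (mul_le_of_le_one_right (abs_nonneg _) (b1 a)).trans b
  simp only [e]
  refine ⟨b0, fun i hi => ?_⟩
  fin_cases i
  · exact (show |bv 0 l.succ| ≤ _ by rw [b0, abs_zero]; positivity)
  · exact t c _ h1 (by rw [b0, mul_zero, sub_zero]; linarith [b1 1])
  · exact t c _ h1 (by rw [b0, mul_zero, sub_zero]; linarith [b1 2])
  · refine t d.Nu _ h2 ?_
    rw [b0, mul_zero, sub_zero, Fin.sum_univ_three]
    have a1 := abs_le.1 (b1 (co k).succ.succ)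
    have a2 := abs_le.1 (u _ 1 h3)
    have a3 := abs_le.1 (u _ (0 : Fin 3).succ.succ (h4 0))
    have a4 := abs_le.1 (u _ (1 : Fin 3).succ.succ (h4 1))
    have a5 := abs_le.1 (u _ (2 : Fin 3).succ.succ (h4 2))
    exact abs_le.2 ⟨by linarith, by linarith⟩
  · exact absurd rfl hi

/-- The graph in the original coordinates. -/
theorem orig {K : Type} (κ : Ω → K) (M : ℕ) (h : Sup k d ω) {A : Qd} {B L R ρ c0 δ : ℝ}
    (hA : ∀ i k, |A i k| ≤ B ∧ (i = 4 ∨ k = 4 → A i k = 0)) (l1 : 1 ≤ L) (h1 : (2 : ℝ) ^ c ≤ R)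
    (h2 : (2 : ℝ) ^ d.Nu ≤ R) (h3 : |(d.pu ω).2.1| ≤ L) (h4 : ∀ m, |(d.pu ω).2.2 m| ≤ L)
    (h5 : |(d.pf ω).2.2 (co k)| ≤ L) (r1 : 1 ≤ ρ) (hz : |(fr g M c k d κ).z ω| ≤ ρ)
    (hp : ∀ i, |(fr g M c k d κ).pt ω i| ≤ ρ) (hB : 1 ≤ B) (e : B * R ≤ 2 ^ d.Nf)
    (v : |(fr g M c k d κ).pt ω 2 - ql (fr g M c k d κ) A ω ((fr g M c k d κ).z ω) - c0| ≤ δ) :
    1 ≤ gy (((2 : ℝ) ^ d.Nf)⁻¹ • oq g c k d (gr A c0) ω) (g.hp ω) ∧
      gy (((2 : ℝ) ^ d.Nf)⁻¹ • oq g c k d (gr A c0) ω) (g.hp ω) ≤ 50 * ρ + L ∧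
      |qf (((2 : ℝ) ^ d.Nf)⁻¹ • oq g c k d (gr A c0) ω) (g.hp ω)| ≤ δ / 2 ^ d.Nf ∧
      ∀ i l : Fin 4, |pf (((2 : ℝ) ^ d.Nf)⁻¹ • oq g c k d (gr A c0) ω) (bv i.succ) (bv l.succ)| ≤
        1250 * L ^ 2 * 2 ^ d.Nf := by
  have n0 : (0 : ℝ) < 2 ^ d.Nf := by positivity
  have r0 : 0 < R := lt_of_lt_of_le (by positivity) h1
  obtain ⟨Y, hY⟩ : ∃ Y, Y = hom ((fr g M c k d κ).z ω) ((fr g M c k d κ).pt ω) := ⟨_, rfl⟩
  have eY : Ti g c k d ω *ᵥ g.hp ω = Y := by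
    have := ot_inv g c ω ((fr g M c k d κ).z ω)
    rw [ot_z] at this
    rw [Geo.hp, Ti_hom, this, hY, fr_pt]
  have y0 : Y 0 = 1 := by rw [hY]; rfl
  have yb : ∀ i, i ≠ 4 → |Y i| ≤ ρ := fun i _ => by
    rw [hY]
    fin_cases i
    · exact (show |(1 : ℝ)| ≤ ρ by rwa [abs_one])
    exacts [hz, hp 0, hp 1, hp 2]
  have b4 : pf (gr A c0) Y (bv 4) = 1 := by rw [pf_gr, pf4 hA, y0]; simp [bv]
  have b3 : |pf (gr A c0) Y (bv 3)| ≤ 50 * (B * ρ * 1) := by
    rw [pf_gr, show Y 0 * bv 3 4 + bv 3 0 * Y 4 - pf A Y (bv 3) - 2 * c0 * Y 0 * bv 3 0 =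
      -pf A Y (bv 3) by simp [bv], abs_neg]
    exact pfb hA yb fun a _ => by simp only [bv, Pi.single_apply]; split_ifs <;> simp
  have gf : pf (((2 : ℝ) ^ d.Nf)⁻¹ • oq g c k d (gr A c0) ω) (g.hp ω)
      (bv (co (!k)).succ.succ) = 1 := by
    rw [pf_sm, pf_oq, eY, ti_f g c k d ω h, pf_smul_right, b4, mul_one, inv_mul_cancel₀ n0.ne']
  have gu : |pf (((2 : ℝ) ^ d.Nf)⁻¹ • oq g c k d (gr A c0) ω) (g.hp ω)
      (bv (co k).succ.succ)| ≤ 50 * ρ + L := by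
    rw [pf_sm, pf_oq, eY, ti_u g c k d ω h, pf_add_right, pf_smul_right, pf_smul_right, b4, abs_mul,
      abs_of_pos (inv_pos.2 n0), inv_mul_le_iff₀ n0]
    refine (abs_add_le _ _).trans ?_
    rw [abs_mul, mul_one, abs_neg, abs_mul, abs_of_pos n0, abs_of_pos (by positivity)]
    have a1 := mul_le_mul h2 b3 (abs_nonneg _) r0.le
    have a2 := mul_le_mul_of_nonneg_left h5 n0.le
    have a3 := mul_le_mul_of_nonneg_right e (show 0 ≤ 50 * ρ by linarith)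
    linarith
  refine ⟨?_, ?_, ?_, fun i l => ?_⟩
  · cases k
    · exact le_max_of_le_right (le_of_eq (by rw [← abs_one, ← gf]; rfl))
    · exact le_max_of_le_left (le_of_eq (by rw [← abs_one, ← gf]; rfl))
  · have gf' : |pf (((2 : ℝ) ^ d.Nf)⁻¹ • oq g c k d (gr A c0) ω) (g.hp ω)
        (bv (co (!k)).succ.succ)| ≤ 50 * ρ + L := by rw [gf, abs_one]; linarith
    cases k
    · exact max_le gu gf'
    · exact max_le gf' gu
  · have a1 := pf_sm ((2 : ℝ) ^ d.Nf)⁻¹ (oq g c k d (gr A c0) ω) (g.hp ω) (g.hp ω)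
    rw [pf_oq, eY, pf_gr, pf_self, pf_self, y0] at a1
    have a2 : qf (((2 : ℝ) ^ d.Nf)⁻¹ • oq g c k d (gr A c0) ω) (g.hp ω) =
        (Y 4 - qf A Y - c0) / 2 ^ d.Nf := by rw [div_eq_inv_mul]; linarith
    rw [a2, abs_div, abs_of_pos n0, hY]
    exact div_le_div_of_nonneg_right v n0.le
  · obtain ⟨i0, ib⟩ := ti_col g c k d ω l1 h1 h2 h3 h4 i
    obtain ⟨l0, lb⟩ := ti_col g c k d ω l1 h1 h2 h3 h4 l
    rw [pf_sm, pf_oq, pf_gr, i0, l0, abs_mul, abs_of_pos (inv_pos.2 n0), inv_mul_le_iff₀ n0]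
    simp only [zero_mul, mul_zero, add_zero, zero_sub, sub_zero, abs_neg]
    refine (pfb hA ib lb).trans ?_
    have a1 : R ≤ 2 ^ d.Nf := (le_mul_of_one_le_left r0.le hB).trans e
    have a2 := mul_le_mul_of_nonneg_left (mul_le_mul e a1 r0.le n0.le)
      (show 0 ≤ 1250 * L ^ 2 by positivity)
    linarith

end OptFx

open OptFx in
theorem rowOptF : OfOptF := by
  intro off fcl fsys finv lft cq Ω x j r d X h v1 v2
  have o1 := oA1 _ _ _ _ _ _ _ _ h.tg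
  have hr := o1.big.2.1
  have sm := o1.big.2.2.1
  refine off (x.Frm j r d) (x.fg j d) r x.m x.w
    (fun _ _ B _ A _ => ∀ i k, |A i k| ≤ B ∧ (i = 4 ∨ k = 4 → A i k = 0))
    (fun n A ω t => (x.fg j d n).lt t ω 2 - ql (x.fg j d n) A ω t) (fcl x j r d).toCl0 hr o1.big.1
    (zero_le_one.trans (h.tg.1.one _))
    (fun _ _ _ _ _ _ _ e u i k => ⟨(u i k).1.trans e, (u i k).2⟩)
    (fun X _ => Eventually.of_forall fun n v _ v' _ e A t => ?_) (fun X hX κ q hκ hq => ?_)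
    (fun X hX Λ lam A c L a τ κ ha hτ hκ hl hL e => ?_) X h
  · simp only [Geo.ln, Prod.mk.injEq] at e
    simp only [ql, Geo.lt, e.1, e.2.1]
  · have fs := fsys x j r d X hX
    obtain ⟨L0, s0, b0⟩ := fs.low.1.bx
    choose L1 s1 b1 using fun i => fs.fat i _ ((hq.add hκ).add OM.rfl)
    have sL := ((s1 0).add (s1 1) o1.big.1).add (s1 2) o1.big.1
    filter_upwards [b0, eventually_all.2 b1, Sub.le_pow (((sub_up sm (s0.mul sL))).const_mul hr
      (by norm_num : (1 : ℝ) ≤ 101)) one_pos (R := r)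
      (Eventually.of_forall fun n => (one_mul _).le)] with n b f e L _ A v hv v' hv' _ ok u
    have ez : (x.fg j d n).z ((X n).ρ v') = (x.fg j d n).z ((X n).ρ v) := (b.fz v hv v' hv' u).symm
    have p0 := s0.1 n
    have p1 := fun i => (s1 i).pos n
    have df : ∀ i, |(X.G (x.fg j d) n).pt v i - (X.G (x.fg j d) n).pt v' i| ≤
        (L1 0 n + L1 1 n + L1 2 n) / 2 ^ (q n + κ n + r n) := fun i =>
      (f i v hv v' hv' u).trans (div_le_div_of_nonneg_right (by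
        fin_cases i <;> simp only [Fin.zero_eta, Fin.mk_one, Fin.reduceFinMk] <;>
          linarith [p1 0, p1 1, p1 2]) (by positivity))
    have yb : ∀ w ∈ (X n).Q.S, ∀ i, i ≠ 4 → |(X.G (x.fg j d) n).hp w i| ≤ 2 * L0 n :=
      fun w hw i _ => by
        have t := fun l => SVT.abs_pt b hw l
        have z := (b.bd w hw).2
        fin_cases i
        · exact (show |(1 : ℝ)| ≤ _ by rw [abs_one]; linarith)
        · exact (show |(X.G (x.fg j d) n).z w| ≤ _ from abs_le.2 ⟨by linarith, by linarith⟩)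
        exacts [t 0, t 1, t 2]
    have db : ∀ i, i ≠ 4 → |((X.G (x.fg j d) n).hp v - (X.G (x.fg j d) n).hp v') i| ≤
        (L1 0 n + L1 1 n + L1 2 n) / 2 ^ (q n + κ n + r n) := fun i _ => by
      have z := (abs_nonneg _).trans (df 0)
      fin_cases i
      · exact (show |(1 : ℝ) - 1| ≤ _ by rwa [sub_self, abs_zero])
      · exact (show |(x.fg j d n).z ((X n).ρ v) - (x.fg j d n).z ((X n).ρ v')| ≤ _ by
          rwa [ez, sub_self, abs_zero])
      exacts [df 0, df 1, df 2]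
    have a1 := abs_le.1 (pfb ok (yb v hv) db)
    have a2 := abs_le.1 (pfb ok (yb v' hv') db)
    have a3 := qf_sub_qf A ((X.G (x.fg j d) n).hp v) ((X.G (x.fg j d) n).hp v')
    have a4 := abs_le.1 (df 2)
    have a5 : (L1 0 n + L1 1 n + L1 2 n) / 2 ^ (q n + κ n + r n) * 1 ≤
        (L1 0 n + L1 1 n + L1 2 n) / 2 ^ (q n + κ n + r n) * (2 ^ κ n * L0 n) :=
      mul_le_mul_of_nonneg_left (one_le_mul_of_one_le_of_one_le (one_le_pow₀ one_le_two) p0)
        ((abs_nonneg _).trans (df 0))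
    have a6 : 101 * ((L1 0 n + L1 1 n + L1 2 n) / 2 ^ (q n + κ n + r n) * (2 ^ κ n * L0 n)) ≤
        1 / 2 ^ q n := by
      rw [show 101 * ((L1 0 n + L1 1 n + L1 2 n) / 2 ^ (q n + κ n + r n) * (2 ^ κ n * L0 n)) =
        101 * (L0 n * (L1 0 n + L1 1 n + L1 2 n)) / 2 ^ r n / 2 ^ q n by
          rw [pow_add, pow_add]; field_simp]
      exact div_le_div_of_nonneg_right ((div_le_one (by positivity)).2 e) (by positivity)
    change |(X.G (x.fg j d) n).pt v 2 - qf A ((X.G (x.fg j d) n).hp v) -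
      ((X.G (x.fg j d) n).pt v' 2 - qf A ((X.G (x.fg j d) n).hp v'))| ≤ _
    exact abs_le.2 ⟨by linarith, by linarith⟩
  · have o2 := oA1 _ _ _ _ _ _ _ _ hX.tg
    obtain ⟨L0, s0, b0⟩ := (fsys x j r d X hX).low.1.bx
    obtain ⟨L1, s1, b1⟩ := hX.fit
    have t := o2.tie _ _ v2
    have sB := ((((sub_up sm s0).const_mul hr (by norm_num : (1 : ℝ) ≤ 100)).add (sub_up sm s1)
      hr)).add (((sub_up sm s1).pow 2).const_mul hr (by norm_num : (1 : ℝ) ≤ 1250)) hr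
    have k := cq x j r a (fun n => (d n).Nf + τ n) (fun n => (d n).Nf) X _ _
      (fun n v => ((2 : ℝ) ^ (d n).Nf)⁻¹ •
        oq (x.g n) (j n) x.k (d n) (gr (A n v) (c n v)) ((X n).ρ v)) _ hX.tg ha
      (lft x j r d X hX Λ lam a hl) sB (hX.nf.1.of2 t.1 (Eventually.of_forall fun n => by
        linarith [mul_nonneg (zero_le_one.trans (hX.tg.1.one iQ)) (Nat.cast_nonneg (α := ℝ) (a n))]))
      (by
        filter_upwards [e, b0, b1, hX.fn, finv x j r d X hX, o2.room _ (hτ.add OM.rfl),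
          o2.far _ _ _ v1 (hκ.add (OM.rfl.mul 4)), hX.nf.1 1 one_pos, hX.nf.2 1 one_pos,
          hX.nu.1 1 one_pos, hX.nu.2 1 one_pos, o2.low (iU x.k) 1 one_pos] with n e b f fn fi ro fa
          n1 n2 n3 n4 n5
        simp only [one_mul] at n1 n2 n3 n4 n5
        have n1 : (d n).Nf ≤ (x.F n).τ (iH (!x.k)) (j n) + r n := by exact_mod_cast n1
        have n2 : (x.F n).τ (iH (!x.k)) (j n) ≤ (d n).Nf + r n := by exact_mod_cast n2
        have n3 : (d n).Nu ≤ (x.F n).τ (iU x.k) (j n) + r n := by exact_mod_cast n3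
        have n4 : (x.F n).τ (iU x.k) (j n) ≤ (d n).Nu + r n := by exact_mod_cast n4
        have n5 : j n ≤ (x.F n).τ (iU x.k) (j n) + r n := by exact_mod_cast n5
        have ro2 := ro.2.2 (iH (!x.k))
        refine ⟨by omega, fun v hv v' hv' u => ?_, fun v hv => ?_⟩
        · have u1 := e.1 v hv v' hv' (congrArg Prod.snd u)
          have u2 := fn v hv v' hv' (congrArg Prod.fst u)
          have u3 := hX.ok.dg n _ _ _ (congrArg Prod.fst u)
          rw [min_eq_left (by omega : j n ≤ x.M n)] at u3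
          simp only [Prod.mk.injEq] at u1 u2
          have u4 : Ti (x.g n) (j n) x.k (d n) ((X n).ρ v) =
              Ti (x.g n) (j n) x.k (d n) ((X n).ρ v') := by
            funext i l
            simp only [Ti, Geo.z0, Tan.rd, u2.1, u2.2, u3.2.1, u3.2.2]
          simp only [oq, u1.1, u1.2, u4]
        · have p0 := s0.1 n
          have p1 := s1.1 n
          have z := (b.bd v hv).2
          obtain ⟨g1, g2, g3, g4⟩ := orig (x.g n) (j n) x.k (d n) ((X n).ρ v) ((x.F n).S (j n))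
            (x.M n) (fi.2.2.2.2.1 v hv) (e.2 v hv).1 p1 (R := 2 ^ ((d n).Nu + 2 * r n))
            (ρ := 2 * L0 n) (pow_le_pow_right₀ one_le_two (by omega))
            (pow_le_pow_right₀ one_le_two (by omega)) (f v hv).1.1 (fun m => ((f v hv).1.2.1 m).1)
            ((f v hv).2.2.1 _).1 (by linarith) (show |(X.G (x.fg j d) n).z v| ≤ _ from
              abs_le.2 ⟨by linarith, by linarith⟩) (SVT.abs_pt b hv)
            (one_le_pow₀ one_le_two)
            (by rw [← pow_add]; exact pow_le_pow_right₀ one_le_two (by omega)) (e.2 v hv).2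
          have p2 : 0 ≤ 1250 * L1 n ^ 2 := by positivity
          refine ⟨one_le_mul_of_one_le_of_one_le (sB.1 n) g1, g2.trans (by linarith),
            g3.trans ?_, fun i l => (g4 i l).trans
              (mul_le_mul_of_nonneg_right (by linarith) (by positivity))⟩
          rw [div_div, pow_add, mul_comm]
          exact div_le_div_of_nonneg_right (sB.1 n) (by positivity))
    refine k.of3 hX.nf.2 t.2 (Eventually.of_forall fun n => ?_)
    rw [show x.dq = x.w from (hX.tg.1.tie _ _ v2).symm]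
    push_cast; linarith

end Pool.Agent.MP_5168f5_an.R4.T8
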