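import Pool.Agent.MP_5168f5_an.R4.SpecTB
import Pool.Agent.MP_5168f5_an.R4.KitO

/-! No gain for hyperplanes in mode I, in the frame. -/

namespace Pool.Agent.MP_5168f5_an.R4.T8

open H19 H17S H17F Filter Matrix Tan

namespace OptIx

/-- The hyperplane in the original coordinates. -/
noncomputable def eP (j Nu Nf : ℕ) (k : Bool) (z x : ℝ) (u f : Pl) (c : V 4) (o : ℝ) : Pl :=
  (-o - c 0 * 2 ^ j * z - c 1 * 2 ^ j * x - c 2 * 2 ^ Nu * u.1 - c 3 * 2 ^ Nf * f.1,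
    c 0 * 2 ^ j - c 2 * 2 ^ Nu * u.2.1 - c 3 * 2 ^ Nf * f.2.1,
    fun i => c 1 * 2 ^ j * (if i = 0 then 1 else 0) +
      c 2 * 2 ^ Nu * ((if i = co k then 1 else 0) - u.2.2 i) +
      c 3 * 2 ^ Nf * ((if i = co (!k) then 1 else 0) - f.2.2 i))

variable {j Nu Nf : ℕ} {k : Bool} {z x : ℝ} {u f : Pl} {c : V 4} {o L G : ℝ}

theorem pv_eP (t : ℝ) (y : V 3) : pv (eP j Nu Nf k z x u f c o) t y =
    c 0 * (2 ^ j * (t - z)) + c 1 * (2 ^ j * (y 0 - x)) + c 2 * (2 ^ Nu * (y (co k) - pv u t y)) +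
      c 3 * (2 ^ Nf * (y (co (!k)) - pv f t y)) - o := by
  cases k <;> simp [eP, pv, co, Fin.sum_univ_three] <;> ring

theorem big (hu : ∀ i, i ≠ 0 → u.2.2 i = 0) (hf : f.2.2 (co (!k)) = 0) (hG : |f.2.2 (co k)| ≤ G)
    (hL : 1 ≤ L) (h : 1 ≤ L * |c 2| ∨ 1 ≤ L * |c 3|) :
    ∃ i, 2 ^ Nf ≤ L * (1 + G) * 2 ^ (Nf - Nu) * |(eP j Nu Nf k z x u f c o).2.2 i| := by
  have e1 : (eP j Nu Nf k z x u f c o).2.2 (co (!k)) = c 3 * 2 ^ Nf := by
    have := hu (co (!k)) (by cases k <;> decide)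
    cases k <;> simp [co] at this hf <;> simp [eP, co, this, hf]
  have e2 : (eP j Nu Nf k z x u f c o).2.2 (co k) =
      c 2 * 2 ^ Nu - c 3 * 2 ^ Nf * f.2.2 (co k) := by
    have := hu (co k) (by cases k <;> decide)
    cases k <;> simp [co] at this <;> simp [eP, co, this] <;> ring
  have g0 := (abs_nonneg _).trans hG
  have d1 : (1 : ℝ) ≤ 2 ^ (Nf - Nu) := one_le_pow₀ one_le_two
  have d2 : (2 : ℝ) ^ Nf ≤ 2 ^ (Nf - Nu) * 2 ^ Nu := by
    rw [← pow_add]; exact pow_le_pow_right₀ one_le_two le_tsub_add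
  obtain ⟨i, i1, i2⟩ : ∃ i, |c 3 * 2 ^ Nf| ≤ |(eP j Nu Nf k z x u f c o).2.2 i| ∧
      |c 2 * 2 ^ Nu - c 3 * 2 ^ Nf * f.2.2 (co k)| ≤ |(eP j Nu Nf k z x u f c o).2.2 i| := by
    rcases le_total |c 3 * 2 ^ Nf| |c 2 * 2 ^ Nu - c 3 * 2 ^ Nf * f.2.2 (co k)| with a | a
    · exact ⟨co k, by rwa [e2], by rw [e2]⟩
    · exact ⟨co (!k), by rw [e1], by rwa [e1]⟩
  refine ⟨i, ?_⟩
  generalize |(eP j Nu Nf k z x u f c o).2.2 i| = E at i1 i2 ⊢
  have E0 := (abs_nonneg _).trans i1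
  rcases h with h | h
  · have a1 : |c 2| * 2 ^ Nu ≤ (1 + G) * E := by
      have a := abs_add_le (c 2 * 2 ^ Nu - c 3 * 2 ^ Nf * f.2.2 (co k)) (c 3 * 2 ^ Nf * f.2.2 (co k))
      rw [sub_add_cancel, abs_mul, abs_mul _ (f.2.2 _), abs_of_pos (a := (2 : ℝ) ^ Nu)
        (by positivity)] at a
      linarith [mul_le_mul i1 hG (abs_nonneg _) E0]
    calc (2 : ℝ) ^ Nf ≤ 2 ^ (Nf - Nu) * 2 ^ Nu * (L * |c 2|) :=
          d2.trans (le_mul_of_one_le_right (by positivity) h)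
      _ = L * 2 ^ (Nf - Nu) * (|c 2| * 2 ^ Nu) := by ring
      _ ≤ L * 2 ^ (Nf - Nu) * ((1 + G) * E) := by gcongr
      _ = _ := by ring
  · rw [abs_mul, abs_of_pos (a := (2 : ℝ) ^ Nf) (by positivity)] at i1
    calc (2 : ℝ) ^ Nf ≤ 2 ^ Nf * (L * |c 3|) := le_mul_of_one_le_right (by positivity) h
      _ = L * 1 * 1 * (|c 3| * 2 ^ Nf) := by ring
      _ ≤ _ := by gcongr; linarith

theorem sup {m r : ℕ → ℕ} {L : ℕ → ℝ} (h : Sub m L) (e : Sm r fun n => m n) : Sub r L :=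
  ⟨h.1, fun ε hε => by
    filter_upwards [h.2 ε hε, e 1 one_pos] with n a b
    exact a.trans (Real.exp_le_exp.2 (mul_le_mul_of_nonneg_left (by linarith) hε.le))⟩

theorem two {r a b : ℕ → ℕ} (h : Le r (fun n => a n) fun n => b n) :
    Sub r fun n => 2 ^ (a n - b n) :=
  (Sub.exp (f := fun n => (a n - b n : ℕ)) (fun ε hε => (h ε hε).mono fun n e => by
    beta_reduce at e ⊢
    rcases le_total (a n) (b n) with l | l
    · rw [Nat.sub_eq_zero_of_le l, Nat.cast_zero]; positivity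
    · rw [Nat.cast_sub l]; linarith) fun _ => Nat.cast_nonneg _).mono
    (fun _ => one_le_pow₀ one_le_two) (Eventually.of_forall fun _ => two_pow_le_exp _)

theorem om_add {r a b : ℕ → ℕ} (h : OM r a) (h' : OM r b) : OM r fun n => a n + b n := by
  obtain ⟨C, h⟩ := h
  obtain ⟨C', h'⟩ := h'
  exact ⟨C + C', by filter_upwards [h, h'] with n a b using add_mul C C' _ ▸ add_le_add a b⟩

theorem om_rfl {r : ℕ → ℕ} : OM r r := ⟨1, Eventually.of_forall fun _ => (one_mul _).ge⟩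

theorem near {c : V 4} {p p' : V 3} {t t' B D : ℝ} {l : Fin 3 → ℝ} (h0 : t' = t) (h1 : |c 1| ≤ B)
    (h2 : |c 2| ≤ B) (h3 : |c 3| ≤ B) (h : ∀ i, |p i - p' i| ≤ l i / D) :
    |c 0 * t + c 1 * p 0 + c 2 * p 1 + c 3 * p 2 - (c 0 * t' + c 1 * p' 0 + c 2 * p' 1 + c 3 * p' 2)|
      ≤ B * (l 0 + l 1 + l 2) / D := by
  subst h0
  have k : ∀ {a : ℝ} (i), |a| ≤ B → |a * (p i - p' i)| ≤ B * (l i / D) := fun i e =>
    (abs_mul _ _).trans_le (mul_le_mul e (h i) (abs_nonneg _) ((abs_nonneg _).trans e))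
  have a := abs_le.1 (k 0 h1)
  have b := abs_le.1 (k 1 h2)
  have d := abs_le.1 (k 2 h3)
  have e : B * (l 0 + l 1 + l 2) / D = B * (l 0 / D) + B * (l 1 / D) + B * (l 2 / D) := by ring
  rw [e, abs_le]
  constructor <;> linarith [a.1, a.2, b.1, b.2, d.1, d.2]

end OptIx

open OptIx in
theorem rowOptI : OfOptI := by
  intro hOff hCl hSys _ hL hC Ω x j r d X h hv
  have A := oA1 _ _ _ _ _ _ _ _ h.tg
  refine hOff (x.Frm j r d) (x.fg j d) r x.m x.w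
    (fun _ L B _ (c : V 4) _ => |c 0| ≤ B ∧ |c 1| ≤ B ∧ |c 2| ≤ L ∧ |c 3| ≤ L ∧
      (1 ≤ L * |c 2| ∨ 1 ≤ L * |c 3|))
    (fun n c ω t => c 0 * t + c 1 * (x.fg j d n).lt t ω 0 + c 2 * (x.fg j d n).lt t ω 1 +
      c 3 * (x.fg j d n).lt t ω 2) (hCl x j r d).toCl0 A.big.2.1 A.big.1
    (zero_le_one.trans (h.tg.1.one _))
    (fun _ _ _ _ _ _ _ e a => ⟨a.1.trans e, a.2.1.trans e, a.2.2⟩)
    (fun Y _ => Eventually.of_forall fun n v _ v' _ e c t => ?_) (fun Y hY k s hk hs => ?_)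
    (fun Y hY Λ lam c o L a τ k ha hτ _ hl hL' he => ?_) X h
  · have e1 : (x.fg j d n).a ((Y n).ρ v) = (x.fg j d n).a ((Y n).ρ v') := congrArg Prod.fst e
    have e2 : (x.fg j d n).e ((Y n).ρ v) = (x.fg j d n).e ((Y n).ρ v') := congrArg (·.2.1) e
    simp only [Geo.lt, e1, e2]
  · choose l l1 l2 using fun i => (hSys x j r d Y hY).fat i _ (om_add (om_add hk hs) om_rfl)
    have l3 := sup (((l1 0).add (l1 1) A.big.1).add (l1 2) A.big.1) A.big.2.2.1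
    filter_upwards [eventually_all.2 l2, l3.2 _ one_half_pos] with n b1 b2 L _ c v hv v' hv' e1 e2 e3
    have e4 : (Y.G (x.fg j d) n).z v' = (Y.G (x.fg j d) n).z v :=
      congrArg (fun w : ℝ => Int.fract (2 ^ j n * w)) (congrArg (·.2.2.1) e3.symm)
    have b3 := near e4 e2.2.1 (e2.2.2.1.trans e1)
      (e2.2.2.2.1.trans e1) fun i => b1 i v hv v' hv' e3
    have b4 := b2.trans ((by rw [one_div_mul_eq_div] : _ = _).trans_le (exp_le_two_pow (r n)))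
    refine le_trans b3 ?_
    rw [div_le_div_iff₀ (by positivity) (by positivity), pow_add, pow_add, one_mul,
      mul_right_comm]
    gcongr
  · have B := oA1 _ _ _ _ _ _ _ _ hY.tg
    have P := hY.tg.1
    obtain ⟨G, G1, G2⟩ := hY.fit
    have e : x.vH = x.vU := le_antisymm ((P.hq _).trans hv.ge) ((P.uh _).trans hY.ok.oh)
    have D := two ((hY.nf.1.trans (B.tie _ _ e).1).trans hY.nu.2)
    have S := (hL'.mul ((B.big.2.1.sub le_rfl).add (sup G1 B.big.2.2.1) B.big.2.1)).mul D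
    refine (hC x j r a (fun n => (d n).Nf + τ n) Y _ _ (fun n v =>
      eP (j n) (d n).Nu (d n).Nf x.k ((x.g n).z0 (j n) ((Y n).ρ v))
        (rd (j n) ((x.g n).pt ((Y n).ρ v) 0)) ((d n).pu ((Y n).ρ v)) ((d n).pf ((Y n).ρ v))
        (c n v) (o n v)) _ hY.ok hY.tg ha (hL x j r d Y hY Λ lam a hl) S ?_).1.of2 hY.nf.2
      (Eventually.of_forall fun n => by push_cast; linarith)
    filter_upwards [he, G2, hY.fn, B.room _ (om_add om_rfl hτ), hY.nf.1 1 one_pos]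
      with n b1 b2 b3 b4 b5
    refine ⟨?_, fun v hv v' hv' e => ?_, fun v hv => ?_⟩
    · have b6 : (d n).Nf ≤ (x.F n).τ (iH (!x.k)) (j n) + r n := by exact_mod_cast one_mul (r n : ℝ) ▸ b5
      have := b4.2.2 (iH (!x.k))
      omega
    · have a1 := hY.ok.dg n _ _ _ (congrArg Prod.fst e)
      have a2 := b3 v hv v' hv' (congrArg Prod.fst e)
      have a3 := b1.1 v hv v' hv' (congrArg Prod.snd e)
      rw [min_eq_left (le_of_add_le_left b4.2.1)] at a1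
      simp only [Prod.mk.injEq] at a2 a3
      simp only [Geo.z0, rd, a1.2.1, a1.2.2, a2.1, a2.2, a3.1, a3.2]
    · obtain ⟨i, hi⟩ := big (k := x.k) (j := j n) (Nu := (d n).Nu) (Nf := (d n).Nf)
        (z := (x.g n).z0 (j n) ((Y n).ρ v)) (x := rd (j n) ((x.g n).pt ((Y n).ρ v) 0)) (o := o n v)
        (fun i hi => ((b2 v hv).1.2.1 i).2 (by simpa using hi))
        (((b2 v hv).2.2.1 _).2 (by cases x.k <;> decide)) ((b2 v hv).2.2.1 _).1 (hL'.1 n)
        (b1.2 v hv).1.2.2.2.2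
      refine ⟨_, .inr ⟨i, rfl⟩, fun e => ?_, ?_⟩
      · rw [e, abs_zero, mul_zero] at hi
        exact absurd hi (not_le.2 (by positivity))
      · have a1 := (b1.2 v hv).2
        have a2 := fr_pt (x.g n) (x.M n) (j n) x.k (d n) ((x.F n).S (j n)) ((Y n).ρ v)
        have a3 := ot_inv (x.g n) (j n) ((Y n).ρ v) ((x.fg j d n).z ((Y n).ρ v))
        rw [ot_z] at a3
        change |_ * (x.fg j d n).z ((Y n).ρ v) + _ * (x.fg j d n).pt ((Y n).ρ v) 0 +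
          _ * (x.fg j d n).pt ((Y n).ρ v) 1 + _ * (x.fg j d n).pt ((Y n).ρ v) 2 - _| ≤ _ at a1
        rw [a2, ← a3] at a1
        rw [pv_eP]
        refine le_trans a1 ?_
        rw [div_le_div_iff₀ (by positivity) (by positivity), pow_add, one_mul]
        gcongr

end Pool.Agent.MP_5168f5_an.R4.T8
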