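import Pool.Agent.MP_5168f5_an.R4.SpecTB
import Pool.Agent.MP_5168f5_an.R4.KitO

/-! No gain for hyperplanes in the frame. -/

namespace Pool.Agent.MP_5168f5_an.R4.T8

open H19 H17S H17F Filter Matrix Tan

namespace OptPx

/-- A covector of the frame in the original coordinates. -/
noncomputable def ePl (k : Bool) (j Nu Nf : ℕ) (w : V 4) (c z₀ x₀ : ℝ) (pu pf : Pl) : Pl :=
  (-c - w 0 * 2 ^ j * z₀ - w 1 * 2 ^ j * x₀ - w 2 * 2 ^ Nu * pu.1 - w 3 * 2 ^ Nf * pf.1,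
    w 0 * 2 ^ j - w 2 * 2 ^ Nu * pu.2.1 - w 3 * 2 ^ Nf * pf.2.1,
    fun i => w 1 * 2 ^ j * (if i = 0 then 1 else 0) +
      w 2 * 2 ^ Nu * ((if i = co k then 1 else 0) - pu.2.2 i) +
      w 3 * 2 ^ Nf * ((if i = co (!k) then 1 else 0) - pf.2.2 i))

variable {Ω K : Type} (g : Geo 3 Ω) (M j : ℕ) (k : Bool) (d : Fd Ω) (κ : Ω → K) (ω : Ω)

theorem pv_e (w : V 4) (c : ℝ) :
    pv (ePl k j d.Nu d.Nf w c (g.z0 j ω) (rd j (g.pt ω 0)) (d.pu ω) (d.pf ω)) (g.z ω) (g.pt ω) =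
      w 0 * (fr g M j k d κ).z ω + w 1 * (fr g M j k d κ).pt ω 0 + w 2 * (fr g M j k d κ).pt ω 1 +
        w 3 * (fr g M j k d κ).pt ω 2 - c := by
  have e := ot_inv g j ω ((fr g M j k d κ).z ω)
  rw [ot_z] at e
  rw [← e, fr_pt]
  cases k <;> simp [ePl, pv, fk, co, Fin.sum_univ_three] <;> ring

theorem e_f (h : Sup k d ω) (w : V 4) (c z₀ x₀ : ℝ) :
    (ePl k j d.Nu d.Nf w c z₀ x₀ (d.pu ω) (d.pf ω)).2.2 (co (!k)) = w 3 * 2 ^ d.Nf := by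
  obtain ⟨h1, h2, h3⟩ := h
  cases k <;> simp [co] at h3 <;> simp [ePl, co, h1, h2, h3]

theorem e_u (h : Sup k d ω) (w : V 4) (c z₀ x₀ : ℝ) :
    (ePl k j d.Nu d.Nf w c z₀ x₀ (d.pu ω) (d.pf ω)).2.2 (co k) =
      w 2 * 2 ^ d.Nu - w 3 * 2 ^ d.Nf * (d.pf ω).2.2 (co k) := by
  obtain ⟨h1, h2, -⟩ := h
  cases k <;> simp [ePl, co, h1, h2] <;> ring

theorem sub_le {m r : ℕ → ℕ} {L : ℕ → ℝ} (h : Sub m L) (hs : Sm r fun n => m n) :
    ∀ᶠ n in UF, L n ≤ 2 ^ r n := by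
  filter_upwards [h.2 (1 / 2) (by norm_num), hs 1 one_pos] with n a b
  exact a.trans ((Real.exp_le_exp.2 (by linarith)).trans (exp_le_two_pow (r n)))

theorem om_add {r a b : ℕ → ℕ} (h : OM r a) (h' : OM r b) : OM r fun n => a n + b n := by
  obtain ⟨C, h⟩ := h
  obtain ⟨C', h'⟩ := h'
  exact ⟨C + C', by filter_upwards [h, h'] with n u v using by rw [add_mul]; omega⟩

theorem om_self (r : ℕ → ℕ) : OM r r := ⟨1, Eventually.of_forall fun n => by omega⟩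

theorem est {L₀ L₁ L₂ a₀ a₁ a₂ c₁ c₂ : ℝ} {q k r : ℕ} (h : L₀ + L₁ + L₂ ≤ 2 ^ r) (l₂ : 0 ≤ L₂)
    (e₀ : |a₀| ≤ L₀ / 2 ^ (q + k + r)) (e₁ : |a₁| ≤ L₁ / 2 ^ (q + k + r))
    (e₂ : |a₂| ≤ L₂ / 2 ^ (q + k + r)) (b₁ : |c₁| ≤ 2 ^ k) (b₂ : |c₂| ≤ 2 ^ k) :
    |a₂ - c₁ * a₀ - c₂ * a₁| ≤ 1 / 2 ^ q := by
  have p : (0 : ℝ) < 2 ^ (q + k + r) := by positivity
  have k1 : (1 : ℝ) ≤ 2 ^ k := one_le_pow₀ one_le_two
  have f₀ := mul_le_mul b₁ e₀ (abs_nonneg _) (by positivity)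
  have f₁ := mul_le_mul b₂ e₁ (abs_nonneg _) (by positivity)
  have f₂ : L₂ / 2 ^ (q + k + r) ≤ 2 ^ k * (L₂ / 2 ^ (q + k + r)) :=
    le_mul_of_one_le_left (by positivity) k1
  have t₁ := abs_sub (a₂ - c₁ * a₀) (c₂ * a₁)
  have t₂ := abs_sub a₂ (c₁ * a₀)
  rw [abs_mul] at t₁ t₂
  have s : (2 : ℝ) ^ k * ((L₀ + L₁ + L₂) / 2 ^ (q + k + r)) ≤ 1 / 2 ^ q := by
    refine (mul_le_mul_of_nonneg_left (div_le_div_of_nonneg_right h p.le) (by positivity)).trans_eq ?_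
    rw [pow_add, pow_add]; field_simp
  rw [add_div, add_div, mul_add, mul_add] at s
  linarith

end OptPx

open OptPx in
theorem rowOptP : OfOptP := by
  intro off fcl fs fi lft cor Ω x j r d X h
  have b := (oA1 _ _ _ _ _ _ _ _ h.tg).big
  refine off (x.Frm j r d) (x.fg j d) r x.m x.w (fun _ _ B _ (c : V 3) _ => ∀ i, |c i| ≤ B)
    (fun n c ω t => (x.fg j d n).lt t ω 2 - c ⬝ᵥ bp (x.fg j d n) t ω) (fcl x j r d).toCl0 b.2.1 b.1
    (zero_le_one.trans (h.tg.1.one _)) (fun _ _ _ _ _ _ _ e u i => (u i).trans e)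
    (fun X _ => Eventually.of_forall fun n v _ v' _ e c t => ?_) (fun X h k q hk hq => ?_)
    (fun X h Λ lam c c₀ L a τ k ha hτ _ hl _ he => ?_) X h
  · have e1 : (x.fg j d n).a ((X n).ρ v) = (x.fg j d n).a ((X n).ρ v') := congrArg (·.1) e
    have e2 : (x.fg j d n).e ((X n).ρ v) = (x.fg j d n).e ((X n).ρ v') := congrArg (·.2.1) e
    simp only [bp, Geo.lt, e1, e2]
  · have S := fs x j r d X h
    have o := om_add (om_add hq hk) (om_self r)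
    obtain ⟨L₀, s₀, n₀⟩ := S.fat 0 _ o
    obtain ⟨L₁, s₁, n₁⟩ := S.fat 1 _ o
    obtain ⟨L₂, s₂, n₂⟩ := S.fat 2 _ o
    obtain ⟨_, -, bx⟩ := S.low.1.bx
    filter_upwards [n₀, n₁, n₂, bx, sub_le ((s₀.add s₁ b.1).add s₂ b.1) S.sm] with n n₀ n₁ n₂ bx hL
      _ _ c v hv v' hv' _ hc e
    have ez : (x.fg j d n).z ((X n).ρ v) = (x.fg j d n).z ((X n).ρ v') := bx.fz v hv v' hv' e
    refine (congrArg abs ?_).trans_le (est hL (s₂.pos n).le (n₀ v hv v' hv' e) (n₁ v hv v' hv' e)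
      (n₂ v hv v' hv' e) (hc 1) (hc 2))
    simp only [Geo.pt, Geo.lt, bp, dotProduct, Fin.sum_univ_three, cons_val_zero, cons_val_one,
      cons_val, ez]
    ring
  · have A := oA1 _ _ _ _ _ _ _ _ h.tg
    have key := (cor x j r a (fun n => (d n).Nf + τ n) X _ _
      (fun n v => ePl x.k (j n) (d n).Nu (d n).Nf ![-c n v 0, -c n v 1, -c n v 2, 1] (c₀ n v)
        ((x.g n).z0 (j n) ((X n).ρ v)) (rd (j n) ((x.g n).pt ((X n).ρ v) 0))
        ((d n).pu ((X n).ρ v)) ((d n).pf ((X n).ρ v))) (fun _ => 1) h.ok h.tg ha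
      (lft x j r d X h Λ lam a hl) (b.2.1.sub le_rfl) ?_).1
    · exact Le.of2 key h.nf.2 (Eventually.of_forall fun n => by push_cast; linarith)
    filter_upwards [he, fi x j r d X h, h.fn, h.nf.1 1 one_pos,
      A.room _ (om_add hτ (om_self r))] with n he inv fn nf rm
    refine ⟨?_, fun v hv v' hv' e => ?_, fun v hv => ⟨2 ^ (d n).Nf, Or.inr ⟨co (!x.k), ?_⟩,
      by positivity, ?_⟩⟩
    · have h1 := rm.2.2 (iH (!x.k))
      have h2 : (d n).Nf ≤ (x.F n).τ (iH (!x.k)) (j n) + r n := by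
        rw [one_mul] at nf; exact_mod_cast nf
      omega
    · have e1 : (x.F n).S (j n) ((X n).ρ v) = (x.F n).S (j n) ((X n).ρ v') := congrArg Prod.fst e
      have e2 := he.1 v hv v' hv' (congrArg Prod.snd e)
      have e3 := fn v hv v' hv' e1
      obtain ⟨-, e4, e5⟩ := h.ok.dg n _ _ _ e1
      rw [min_eq_left (le_of_add_le_left rm.2.1)] at e5
      simp only [Prod.mk.injEq] at e2 e3
      simp only [Geo.z0, rd, e2.1, e2.2, e3.1, e3.2, e4, e5]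
    · rw [e_f _ _ _ _ (inv.2.2.2.2.1 v hv)]; simp
    · have e := pv_e (x.g n) (x.M n) (j n) x.k (d n) ((x.F n).S (j n)) ((X n).ρ v)
        ![-c n v 0, -c n v 1, -c n v 2, 1] (c₀ n v)
      refine (congrArg abs (e.trans ?_)).trans_le ((he.2 v hv).2.trans_eq ?_)
      · simp only [Geo.pt, bp, dotProduct, Fin.sum_univ_three, cons_val_zero, cons_val_one,
          cons_val]
        ring
      · rw [abs_of_pos (by positivity), pow_add]; field_simp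

end Pool.Agent.MP_5168f5_an.R4.T8
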