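import Pool.Agent.MP_5168f5_an.R4.SpecTB
import Pool.Agent.MP_5168f5_an.R4.KitO

/-! No gain for the fibre coordinate in a frame. -/

namespace Pool.Agent.MP_5168f5_an.R4.T8

open H19 H17S H17F Filter Matrix Tan

namespace OptQx

theorem mul_bd {x y a b : ℝ} (h : |x| ≤ a) (h' : |y| ≤ b) : |x * y| ≤ a * b := by
  rw [abs_mul]
  exact mul_le_mul h h' (abs_nonneg _) ((abs_nonneg _).trans h)

theorem sum_bd {n : ℕ} {f : Fin n → ℝ} {a : ℝ} (h : ∀ i, |f i| ≤ a) : |∑ i, f i| ≤ n * a :=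
  (Finset.abs_sum_le_sum_abs _ _).trans
    ((Finset.sum_le_card_nsmul _ _ a fun i _ => h i).trans_eq (by simp))

theorem pf_bd {A : Qd} {Y W : V 5} {B a b : ℝ} (h : ∀ i l, |A i l| ≤ B) (hY : ∀ i, |Y i| ≤ a)
    (hW : ∀ i, |W i| ≤ b) : |pf A Y W| ≤ 50 * B * a * b := by
  have h1 : |Y ⬝ᵥ A *ᵥ W| ≤ _ :=
    sum_bd fun i => mul_bd (hY i) (sum_bd fun l => mul_bd (h i l) (hW l))
  have h2 : |W ⬝ᵥ A *ᵥ Y| ≤ _ :=
    sum_bd fun i => mul_bd (hW i) (sum_bd fun l => mul_bd (h i l) (hY l))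
  refine (abs_add_le _ _).trans ((add_le_add h1 h2).trans_eq ?_)
  push_cast; ring

theorem bv_bd (i l : Fin 5) : |bv i l| ≤ 1 := by
  rw [bv, Pi.single_apply]; split_ifs <;> simp

theorem row_bd {p : Pl} {L : ℝ} (hL : 1 ≤ L) (h : |p.2.1| ≤ L ∧ ∀ i, |p.2.2 i| ≤ L) (i : Fin 5)
    (l : Fin 4) : |bv i l.succ - p.1 * bv 0 l.succ - p.2.1 * bv 1 l.succ -
      ∑ m, p.2.2 m * bv m.succ.succ l.succ| ≤ 5 * L := by
  have h1 := abs_le.1 (bv_bd i l.succ)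
  have h2 := abs_le.1 (mul_bd h.1 (bv_bd 1 l.succ))
  have h3 := abs_le.1 (sum_bd fun m => mul_bd (h.2 m) (bv_bd m.succ.succ l.succ))
  rw [show bv 0 l.succ = 0 from Pi.single_eq_of_ne l.succ_ne_zero _, abs_le]
  push_cast at h3
  constructor <;> linarith [h1.1, h1.2, h2.1, h2.2, h3.1, h3.2]

/-- The value of a quadric at two close points. -/
theorem nr {A : Qd} {z L : ℝ} {y y' : V 3} {N M q r : ℕ}
    (h : ∀ i : Fin 4, |pf A (hom z y) (bv i.succ)| ≤ L)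
    (h' : ∀ i : Fin 4, |pf A (hom z y') (bv i.succ)| ≤ L) (e : ∀ i, fl1 M (y i) = fl1 M (y' i))
    (hN : N + (q + r) ≤ M) (hL : 3 * L ≤ 2 ^ r) :
    |2 ^ N * qf A (hom z y) - 2 ^ N * qf A (hom z y')| ≤ 1 / 2 ^ q := by
  have e1 : hom z y - hom z y' = vec 0 (y - y') := by
    funext i; fin_cases i <;> simp [hom, vec]
  have e2 : ∀ i, |(y - y') i| ≤ ((2 : ℝ) ^ M)⁻¹ := fun i => (abs_sub_lt_of_fl1_eq (e i)).le
  have h1 := abs_le.1 (KQA.pf_vec h e2)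
  have h2 := abs_le.1 (KQA.pf_vec h' e2)
  have h3 : |qf A (hom z y) - qf A (hom z y')| ≤ (2 ^ M)⁻¹ * (3 * L) := by
    rw [qf_sub_qf, e1, abs_le]
    constructor <;> linarith [h1.1, h1.2, h2.1, h2.2]
  have h4 : (2 : ℝ) ^ (N + (q + r)) ≤ 2 ^ M := pow_le_pow_right₀ one_le_two hN
  rw [← mul_sub, abs_mul, abs_of_pos (by positivity : (0 : ℝ) < 2 ^ N)]
  calc _ ≤ (2 : ℝ) ^ N * ((2 ^ (N + (q + r)))⁻¹ * 2 ^ r) := by
        gcongr
        exact h3.trans (by gcongr; linarith [abs_nonneg (pf A (hom z y) (bv (0 : Fin 4).succ)), h 0])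
    _ = _ := by rw [pow_add, pow_add]; field_simp

section Pt

variable {Ω K : Type} (g : Geo 3 Ω) (M c : ℕ) (k : Bool) (d : Fd Ω) (κ : Ω → K)

/-- The perturbed quadric. -/
noncomputable def aq (N : ℕ) (Q A : Qd) (y : ℝ) (ω : Ω) : Qd :=
  Q - ((2 : ℝ) ^ N)⁻¹ • (oq g c k d A ω + y • Matrix.single 0 0 1)

theorem cg {ω ω' : Ω} (h1 : fl1 c (g.z ω) = fl1 c (g.z ω'))
    (h2 : fl1 c (g.pt ω 0) = fl1 c (g.pt ω' 0)) (h3 : (d.pu ω, d.pf ω) = (d.pu ω', d.pf ω'))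
    (A : Qd) : pq g c k d A ω = pq g c k d A ω' ∧ oq g c k d A ω = oq g c k d A ω' := by
  unfold pq oq Tv Ti Geo.z0 Tan.rd
  rw [h1, h2, (Prod.mk.inj h3).1, (Prod.mk.inj h3).2]
  exact ⟨rfl, rfl⟩

theorem pf_aq (N : ℕ) (Q A : Qd) (y : ℝ) (ω : Ω) (Y : V 5) (i : Fin 4) :
    pf (aq g c k d N Q A y ω) Y (bv i.succ) = pf Q Y (bv i.succ) -
      (2 ^ N)⁻¹ * pf A (Ti g c k d ω *ᵥ Y) (Ti g c k d ω *ᵥ bv i.succ) := by
  have e : pf (Matrix.single 0 0 1) Y (bv i.succ) = 0 := by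
    simp [pf, bv, single_mulVec, dotProduct, Fin.sum_univ_succ, i.succ_ne_zero.symm]
  rw [← pf_oq]
  simp only [aq, pf, sub_mulVec, add_mulVec, smul_mulVec, dotProduct_sub, dotProduct_add,
    dotProduct_smul, smul_eq_mul] at e ⊢
  linear_combination -(2 ^ N)⁻¹ * y * e

theorem key {N e : ℕ} {L L' B : ℝ} {Q A : Qd} {ω : Ω} (hs : Sup k d ω) (hL : 1 ≤ L) (hB : 1 ≤ B)
    (hA : ∀ i l, |A i l| ≤ B) (hu : |(d.pu ω).2.1| ≤ L ∧ ∀ i, |(d.pu ω).2.2 i| ≤ L)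
    (hf : |(d.pf ω).2.1| ≤ L ∧ ∀ i, |(d.pf ω).2.2 i| ≤ L)
    (hp : ∀ i, |(Tan.fr g M c k d κ).pt ω i| ≤ L) (he : c ≤ e ∧ d.Nu ≤ e ∧ d.Nf ≤ e ∧ d.Nf ≤ N)
    (hN : 500 * L * L * B * 2 ^ e ≤ 2 ^ N) (hQ : g.qd.fit L' Q ω c N) (y : ℝ) :
    (∀ i : Fin 4, |pf (aq g c k d N Q A y ω) (g.hp ω) (bv i.succ)| ≤ L' + 1) ∧
    1 ≤ 2 * gy (aq g c k d N Q A y ω) (g.hp ω) ∧
    (∀ i l : Fin 4, |pf (aq g c k d N Q A y ω) (bv i.succ) (bv l.succ)| ≤ 2 ^ N) ∧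
    2 ^ (N - d.Nf) * ql (Tan.fr g M c k d κ) (pq g c k d Q ω) ω ((Tan.fr g M c k d κ).z ω) -
      ql (Tan.fr g M c k d κ) A ω ((Tan.fr g M c k d κ).z ω) - y =
      2 ^ N * qf (aq g c k d N Q A y ω) (g.hp ω) := by
  have p2 : ∀ a : ℕ, a ≤ e → |(2 : ℝ) ^ a| ≤ 2 ^ e := fun a h =>
    (abs_of_pos (by positivity)).trans_le (pow_le_pow_right₀ one_le_two h)
  have e1 : (1 : ℝ) ≤ 2 ^ e := one_le_pow₀ one_le_two
  have N0 : (0 : ℝ) < 2 ^ N := by positivity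
  have hT : ∀ (l : Fin 4) i, |(Ti g c k d ω *ᵥ bv l.succ) i| ≤ 2 ^ e * (5 * L) := fun l i => by
    have z : bv 0 l.succ = 0 := Pi.single_eq_of_ne l.succ_ne_zero _
    have b : ∀ a s, |bv a l.succ - s * bv 0 l.succ| ≤ 5 * L := fun a s => by
      rw [z, mul_zero, sub_zero]; linarith [bv_bd a l.succ]
    rw [bv, mulVec_single_one]
    fin_cases i
    · exact (congrArg abs z).trans_le (by rw [abs_zero]; positivity)
    · exact mul_bd (p2 _ he.1) (b _ _)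
    · exact mul_bd (p2 _ he.1) (b _ _)
    · exact mul_bd (p2 _ he.2.1) (row_bd hL hu _ _)
    · exact mul_bd (p2 _ he.2.2.1) (row_bd hL hf _ _)
  have hY : ∀ i, |(Ti g c k d ω *ᵥ g.hp ω) i| ≤ L := fun i => by
    have z : 2 ^ c * (g.z ω - g.z0 c ω) = Int.fract (2 ^ c * g.z ω) := by
      rw [← fr_z g M c k d κ, ← ot_inv g c ω ((Tan.fr g M c k d κ).z ω), ot_z]
    rw [Geo.hp, Ti_hom, ← fr_pt g M c k d κ, z]
    fin_cases i
    exacts [abs_one.trans_le hL, (abs_of_nonneg (Int.fract_nonneg _)).trans_le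
      ((Int.fract_lt_one _).le.trans hL), hp 0, hp 1, hp 2]
  have sm : ∀ {u a : ℝ}, |u| ≤ 2 ^ N * a → |(2 ^ N)⁻¹ * u| ≤ a := fun h => by
    rwa [abs_mul, abs_of_pos (inv_pos.2 N0), inv_mul_le_iff₀ N0]
  have g1 : ∀ i : Fin 4, |(2 ^ N)⁻¹ * pf A (Ti g c k d ω *ᵥ g.hp ω) (Ti g c k d ω *ᵥ bv i.succ)| ≤
      1 / 2 := fun i => sm ((pf_bd hA hY (hT i)).trans (by linarith))
  refine ⟨fun i => ?_, ?_, fun i l => ?_, ?_⟩
  · rw [pf_aq]
    exact (abs_sub _ _).trans (add_le_add ((hQ.2.2 _ rfl).2 i) ((g1 i).trans (by norm_num)))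
  · have t : ∀ i : Fin 4, 1 ≤ |pf Q (g.hp ω) (bv i.succ)| →
        1 ≤ 2 * |pf (aq g c k d N Q A y ω) (g.hp ω) (bv i.succ)| := fun i h => by
      rw [pf_aq]
      linarith [g1 i, abs_sub_abs_le_abs_sub (pf Q (g.hp ω) (bv i.succ))
        ((2 ^ N)⁻¹ * pf A (Ti g c k d ω *ᵥ g.hp ω) (Ti g c k d ω *ᵥ bv i.succ))]
    exact hQ.2.1.elim (fun h => (t 2 h).trans (by gcongr; exact le_max_left _ _))
      fun h => (t 3 h).trans (by gcongr; exact le_max_right _ _)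
  · have u : 500 * L * B * 2 ^ e ≤ 2 ^ N :=
      le_trans (by gcongr; exact le_mul_of_one_le_right (by positivity) hL) hN
    have u' : 500 * L * 2 ^ e ≤ 2 ^ N :=
      le_trans (mul_le_mul_of_nonneg_right (le_mul_of_one_le_right (by positivity) hB)
        (by positivity)) u
    have w : 50 * B * (2 ^ e * (5 * L)) * (2 ^ e * (5 * L)) ≤ 2 ^ N * (2 ^ N / 2) := by
      rw [mul_comm]
      exact mul_le_mul (by nlinarith) (by linarith) (by positivity) N0.le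
    rw [pf_aq]
    exact (abs_sub _ _).trans ((add_le_add (hQ.1 i l)
      (sm ((pf_bd hA (hT i) (hT l)).trans w))).trans (by linarith))
  · have a1 := ql_oq g M c k d κ ω A ((Tan.fr g M c k d κ).z ω)
    have a2 : qf (Matrix.single 0 0 1) (g.hp ω) = 1 := by
      simp [qf, Geo.hp, hom, single_mulVec, dotProduct, Fin.sum_univ_succ]
    rw [ql_pq g M c k d κ ω hs, ← a1, ot_z, ← mul_assoc, ← pow_add, Nat.sub_add_cancel he.2.2.2]
    change 2 ^ N * qf Q (g.hp ω) - qf _ (g.hp ω) - y = _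
    simp only [aq, qf, sub_mulVec, add_mulVec, smul_mulVec, dotProduct_sub, dotProduct_add,
      dotProduct_smul, smul_eq_mul] at a2 ⊢
    rw [a2]
    field_simp
    ring

end Pt

theorem sub_le {M : ℕ → ℕ} {L : ℕ → ℝ} (h : Sub M L) : ∀ᶠ n in UF, L n ≤ 2 ^ M n :=
  (h.2 _ (Real.log_pos one_lt_two)).mono fun n h =>
    h.trans_eq (by rw [mul_comm, Real.exp_nat_mul, Real.exp_log two_pos])

theorem om_add {M a b : ℕ → ℕ} (ha : OM M a) (hb : OM M b) : OM M fun n => a n + b n := by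
  obtain ⟨C, hC⟩ := ha
  obtain ⟨C', hC'⟩ := hb
  exact ⟨C + C', by filter_upwards [hC, hC'] with n h1 h2 using add_mul C C' _ ▸ add_le_add h1 h2⟩

theorem om_self (M : ℕ → ℕ) : OM M M := ⟨1, Eventually.of_forall fun n => by simp⟩

variable {Ω : ℕ → Type} {x : Sx Ω} {j r : ℕ → ℕ} {d : ∀ n, Fd (Ω n)} {X : Mb Ω}

/-- The perturbed quadric along the sequence. -/
noncomputable abbrev bq (x : Sx Ω) (j : ℕ → ℕ) (d : ∀ n, Fd (Ω n)) (n : ℕ) (A : Qd) (y : ℝ)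
    (ω : Ω n) : Qd :=
  aq (x.g n) (j n) x.k (d n) ((x.F n).τ iQ (j n)) (dQ (x.F n) (j n) ω) A y ω

theorem fnq (h : x.Frm j r d X) (j₀ : ℕ → ℕ) : ∀ᶠ n in UF, ∀ v ∈ (X n).Q.S, ∀ v' ∈ (X n).Q.S,
    (x.F n).S (j n) ((X n).ρ v) = (x.F n).S (j n) ((X n).ρ v') →
      (x.fc j j₀ d n).A 0 ((X n).ρ v) = (x.fc j j₀ d n).A 0 ((X n).ρ v') ∧
        ∀ A y, bq x j d n A y ((X n).ρ v) = bq x j d n A y ((X n).ρ v') := by
  have o := oA1 _ _ _ _ _ _ _ _ h.tg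
  obtain ⟨L, -, al⟩ := o.fam.alg
  filter_upwards [h.fn, al, o.room r (om_self r)] with n fn al rm v hv v' hv' e
  have dg := h.ok.dg n _ _ _ e
  rw [min_eq_left (le_of_add_le_left rm.2.1)] at dg
  have c := cg (x.g n) (j n) x.k (d n) dg.2.1 dg.2.2 (fn v hv v' hv' e)
  have q : dQ (x.F n) (j n) ((X n).ρ v) = dQ (x.F n) (j n) ((X n).ρ v') :=
    al.fd none (j n) v hv v' hv' e
  exact ⟨(c _).1.trans (congrArg (pq _ _ _ _ · _) q), fun A y => by rw [bq, aq, q, (c A).2]; rfl⟩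

theorem std (hS : FSys) (hI : FInv) (h : x.Frm j r d X) (hv : x.vH < x.vQ) (j₀ : ℕ → ℕ) :
    ∃ L, Sub r L ∧ ∀ k, OM r k → ∀ᶠ n in UF, ∀ v ∈ (X n).Q.S, ∀ (A : Qd) (y : ℝ),
      (∀ i l, |A i l| ≤ 2 ^ k n) →
      (∀ i : Fin 4, |pf (bq x j d n A y ((X n).ρ v)) ((X.G x.g n).hp v) (bv i.succ)| ≤ L n) ∧
      1 ≤ 2 * gy (bq x j d n A y ((X n).ρ v)) ((X.G x.g n).hp v) ∧
      (∀ i l : Fin 4, |pf (bq x j d n A y ((X n).ρ v)) (bv i.succ) (bv l.succ)| ≤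
        2 ^ (x.F n).τ iQ (j n)) ∧
      (x.fc j j₀ d n).f (x.fg j d n) ((X n).ρ v) ((X.G (x.fg j d) n).z v) -
        ql (x.fg j d n) A ((X n).ρ v) ((X.G (x.fg j d) n).z v) - y =
        2 ^ (x.F n).τ iQ (j n) * qf (bq x j d n A y ((X n).ρ v)) ((X.G x.g n).hp v) := by
  have o := oA1 _ _ _ _ _ _ _ _ h.tg
  have R := o.big.2.1
  have up : ∀ {L}, Sub x.m L → Sub r L := fun hL => ⟨hL.1, fun ε hε => by
    filter_upwards [o.big.2.2.1 1 one_pos, hL.2 ε hε] with n h1 h2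
    exact h2.trans (Real.exp_le_exp.2 (mul_le_mul_of_nonneg_left (by linarith) hε.le))⟩
  obtain ⟨L₁, s₁, al⟩ := o.fam.alg
  obtain ⟨L₂, s₂, ft⟩ := h.fit
  obtain ⟨L₃, s₃, bx⟩ := (hS x j r d X h).low.1.bx
  have s := (up s₂).add ((up s₃).const_mul R one_le_two) R
  refine ⟨_, (up s₁).add (R.sub le_rfl) R, fun k hk => ?_⟩
  have hk' := om_add (om_add hk (om_self r)) (om_self r)
  filter_upwards [al, ft, bx, hI x j r d X h, h.nu.1 1 one_pos, h.nf.1 1 one_pos,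
    o.low (iU x.k) 1 one_pos, o.far _ _ _ hv hk',
    o.far _ _ _ (((h.tg.1.uh x.k).trans h.ok.oh).trans_lt hv) hk',
    sub_le (((s.const_mul R (by norm_num : (1 : ℝ) ≤ 500))).mul s)]
    with n al ft bx fi nu nf lo f1 f2 sl v hv A y hA
  rw [one_mul, ← Nat.cast_add, Nat.cast_le] at nu nf lo
  have l2 := s₂.1 n
  have l3 := s₃.1 n
  have m : ∀ {a : ℝ}, |a| ≤ L₂ n → |a| ≤ L₂ n + 2 * L₃ n := fun h => by linarith
  refine key (x.g n) (x.M n) (j n) x.k (d n) ((x.F n).S (j n))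
    (N := (x.F n).τ iQ (j n)) (e := (x.F n).τ iQ (j n) - (k n + r n)) (fi.2.2.2.2.1 v hv) (s.1 n) (one_le_pow₀ one_le_two) hA
    ⟨m (ft v hv).1.1, fun i => m ((ft v hv).1.2.1 i).1⟩
    ⟨m (ft v hv).2.1, fun i => m ((ft v hv).2.2.1 i).1⟩ (fun i => ?_) (by omega) ?_
    (al.fit none (j n) v hv) y
  · obtain ⟨h1, h2, h3⟩ := bx.bd v hv
    refine (abs_add_le _ _).trans ((add_le_add (h1 i).1 (mul_bd
      ((abs_of_nonneg h2).trans_le h3.le) (h1 i).2)).trans (by linarith))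
  · calc _ ≤ (2 : ℝ) ^ r n * 2 ^ k n * 2 ^ ((x.F n).τ iQ (j n) - (k n + r n)) := by gcongr
      _ = _ := by rw [← pow_add, ← pow_add]; congr 1; omega

end OptQx

open OptQx

theorem rowOptQ : OfOptQ := by
  intro hO hC hS hI hL hQ Ω x j r d X h hv j₀
  have o := oA1 _ _ _ _ _ _ _ _ h.tg
  refine hO (x.Frm j r d) (x.fg j d) r x.m x.dq (fun _ _ B _ (A : Qd) _ => ∀ i k, |A i k| ≤ B)
    (fun n A ω t => (x.fc j j₀ d n).f (x.fg j d n) ω t - ql (x.fg j d n) A ω t)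
    (hC x j r d).toCl0 o.big.2.1 o.big.1 (zero_le_one.trans (h.tg.1.one _))
    (fun _ _ _ _ _ _ _ a b i k => (b i k).trans a)
    (fun X h => ?_) (fun X h k q hk hq => ?_) (fun X h Λ lam A c _ a τ k ha hτ hk lb _ H => ?_) X h
  · filter_upwards [fnq h j₀] with n fn v hv v' hv' e A t
    have e1 : (x.fg j d n).lt t ((X n).ρ v) = (x.fg j d n).lt t ((X n).ρ v') :=
      congrArg (fun p => p.1 + t • p.2.1) e
    simp only [Tc.f, ql, e1, (fn v hv v' hv' (congrArg (·.2.2) e)).1]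
  · obtain ⟨L, sL, H⟩ := std hS hI h hv j₀
    filter_upwards [fnq h j₀, H k hk, o.room _ (om_add hq (om_self r)),
      sub_le (sL.const_mul o.big.2.1 (by norm_num : (1 : ℝ) ≤ 3))]
      with n fn H rm sl _ _ A v hv v' hv' _ hA e
    obtain ⟨a1, -, -, a2⟩ := H v hv A 0 hA
    obtain ⟨b1, -, -, b2⟩ := H v' hv' A 0 hA
    have ez : (X.G x.g n).z v' = (X.G x.g n).z v := (congrArg (·.2.2.1) e).symm
    rw [← (fn v hv v' hv' (congrArg (·.1) e)).2, Geo.hp, ez] at b1 b2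
    rw [sub_zero] at a2 b2
    exact (congrArg abs (congrArg₂ _ a2 b2)).trans_le
      (nr a1 b1 (congrFun (congrArg (·.2.1) e)) (rm.2.2 _) sl)
  · obtain ⟨L, sL, G⟩ := std hS hI h hv j₀
    have dq : (0 : ℝ) ≤ x.dq := zero_le_one.trans (h.tg.1.one _)
    refine (hQ x j r a (fun n => (x.F n).τ iQ (j n) + τ n) (fun n => (x.F n).τ iQ (j n)) X _ _
      (fun n v => bq x j d n (A n v) (c n v) ((X n).ρ v)) _ h.tg ha (hL x j r d X h Λ lam a lb)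
      (sL.const_mul o.big.2.1 one_le_two) (Le.of_le fun n => le_add_of_nonneg_right (by positivity))
      ?_).of_sub (.of_forall fun n => by push_cast; linarith)
    filter_upwards [fnq h j₀, G k hk, o.room τ hτ, H] with n fn G rm H
    refine ⟨rm.2.2 _, fun v hv v' hv' e => ?_, fun v hv => ?_⟩
    · have e' := Prod.mk.inj (H.1 v hv v' hv' (Prod.mk.inj e).2)
      simp only [e'.1, e'.2, (fn v hv v' hv' (Prod.mk.inj e).1).2]
    · obtain ⟨a1, a2, a3, a4⟩ := G v hv _ (c n v) (H.2 v hv).1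
      have l := sL.1 n
      have b := (congrArg abs a4).symm.trans_le (H.2 v hv).2
      rw [abs_mul, abs_of_pos (by positivity), ← le_div_iff₀' (by positivity), div_div,
        ← pow_add, add_comm] at b
      refine ⟨a2.trans (mul_le_mul_of_nonneg_right (by linarith) (by linarith)),
        max_le ((a1 2).trans (by linarith)) ((a1 3).trans (by linarith)),
        b.trans (by gcongr; linarith), fun i i' => (a3 i i').trans ?_⟩
      exact le_mul_of_one_le_left (by positivity) (by linarith)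

end Pool.Agent.MP_5168f5_an.R4.T8
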