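import Pool.Agent.MP_5168f5_an.R4.SpecTB
import Pool.Agent.MP_5168f5_an.R4.KitO

/-! No gain for planes in the frame. -/

namespace Pool.Agent.MP_5168f5_an.R4.T8

open H19 H17S H17F Filter Matrix Tan

namespace OptUx

/-- The affine form in the original coordinates. -/
noncomputable def aff (N j : ℕ) (k : Bool) (p : Pl) (z0 x0 : ℝ) (d : ℝ × ℝ) (c : ℝ) : Pl :=
  (-(2 ^ N * p.1) + d.1 * (2 ^ j * z0) + d.2 * (2 ^ j * x0) - c, -(2 ^ N * p.2.1) - d.1 * 2 ^ j,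
    fun i => 2 ^ N * ((if i = co k then 1 else 0) - p.2.2 i) - if i = 0 then d.2 * 2 ^ j else 0)

theorem pv_aff (N j : ℕ) (k : Bool) (p : Pl) (z0 x0 : ℝ) (d : ℝ × ℝ) (c t : ℝ) (y : V 3) :
    pv (aff N j k p z0 x0 d c) t y = 2 ^ N * (y (co k) - pv p t y) - d.1 * (2 ^ j * (t - z0)) -
      d.2 * (2 ^ j * (y 0 - x0)) - c := by
  cases k <;> simp [aff, pv, co, Fin.sum_univ_three] <;> ring

theorem aff_co (N j : ℕ) (k : Bool) {p : Pl} (z0 x0 : ℝ) (d : ℝ × ℝ) (c : ℝ)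
    (h1 : p.2.2 1 = 0) (h2 : p.2.2 2 = 0) :
    (aff N j k p z0 x0 d c).2.2 (co k) = 2 ^ N ∧ (aff N j k p z0 x0 d c).2.2 (co (!k)) = 0 := by
  cases k <;> simp [aff, co, h1, h2]

theorem om_add {M a b : ℕ → ℕ} (ha : OM M a) (hb : OM M b) : OM M fun n => a n + b n := by
  obtain ⟨C, e⟩ := ha
  obtain ⟨C', e'⟩ := hb
  exact ⟨C + C', (e.and e').mono fun n u => by rw [add_mul]; exact add_le_add u.1 u.2⟩

theorem om_rfl (M : ℕ → ℕ) : OM M M := ⟨1, Eventually.of_forall fun n => by simp⟩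

theorem le_pow {r m : ℕ → ℕ} {L : ℕ → ℝ} (hr : Big r) (hs : Sm r fun n => m n) (hL : Sub m L) :
    ∀ᶠ n in UF, 2 * L n ≤ 2 ^ r n := by
  have h1 : Sub r L := ⟨hL.1, fun ε hε => by
    filter_upwards [hs 1 one_pos, hL.2 ε hε] with n h1 h2
    refine h2.trans (Real.exp_le_exp.2 (mul_le_mul_of_nonneg_left ?_ hε.le))
    linarith⟩
  filter_upwards [(h1.const_mul hr one_le_two).2 (1 / 2) (by norm_num)] with n a
  exact a.trans ((Real.exp_le_exp.2 (by linarith)).trans (exp_le_two_pow _))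

theorem near_num {a a' b b' d₁ d₂ z L₀ L₁ : ℝ} {k q r : ℕ} (h0 : |b - b'| ≤ L₀ / 2 ^ (k + q + r))
    (h1 : |a - a'| ≤ L₁ / 2 ^ (k + q + r)) (l0 : 2 * L₀ ≤ 2 ^ r) (l1 : 2 * L₁ ≤ 2 ^ r)
    (hd : |d₂| ≤ 2 ^ k) : |a - d₁ * z - d₂ * b - (a' - d₁ * z - d₂ * b')| ≤ 1 / 2 ^ q := by
  have e : a - d₁ * z - d₂ * b - (a' - d₁ * z - d₂ * b') = (a - a') - d₂ * (b - b') := by ring
  have k1 : (1 : ℝ) ≤ 2 ^ k := one_le_pow₀ one_le_two
  have p : (0 : ℝ) < 2 ^ (k + q + r) := by positivity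
  have u0 : L₀ / 2 ^ (k + q + r) ≤ 2 ^ r / 2 / 2 ^ (k + q + r) :=
    div_le_div_of_nonneg_right (by linarith) p.le
  have u1 : L₁ / 2 ^ (k + q + r) ≤ 2 ^ r / 2 / 2 ^ (k + q + r) :=
    div_le_div_of_nonneg_right (by linarith) p.le
  have w : (0 : ℝ) ≤ 2 ^ r / 2 / 2 ^ (k + q + r) := by positivity
  have f : (2 : ℝ) ^ k * (2 ^ r / 2 / 2 ^ (k + q + r)) = 1 / 2 ^ q / 2 := by
    rw [pow_add, pow_add]; field_simp
  have m : |d₂ * (b - b')| ≤ 2 ^ k * (2 ^ r / 2 / 2 ^ (k + q + r)) := by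
    rw [abs_mul]; exact mul_le_mul hd (h0.trans u0) (abs_nonneg _) (by positivity)
  rw [e]
  have := abs_sub (a - a') (d₂ * (b - b'))
  nlinarith

end OptUx

open OptUx

theorem rowOptU : OfOptU := by
  intro hO hC hS hI hL hP Ω x j r d X h
  have A := oA1 _ _ _ _ _ _ _ _ h.tg
  refine hO (x.Frm j r d) (x.fg j d) r x.m x.γ
    (fun _ _ B _ (c : ℝ × ℝ) _ => |c.1| ≤ B ∧ |c.2| ≤ B)
    (fun n c ω t => (x.fg j d n).lt t ω 1 - c.1 * t - c.2 * (x.fg j d n).lt t ω 0)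
    (hC x j r d).toCl0 A.big.2.1 A.big.1 (zero_le_one.trans (h.tg.1.one _))
    (fun _ _ _ _ _ _ _ b a => ⟨a.1.trans b, a.2.trans b⟩) ?_ ?_ ?_ X h
  · intro Y _
    refine Eventually.of_forall fun n v _ v' _ e c t => ?_
    have e1 : (x.fg j d n).a ((Y n).ρ v) = (x.fg j d n).a ((Y n).ρ v') := congrArg Prod.fst e
    have e2 : (x.fg j d n).e ((Y n).ρ v) = (x.fg j d n).e ((Y n).ρ v') :=
      congrArg (fun p => p.2.1) e
    simp only [Geo.lt, e1, e2]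
  · intro Y hY k q hk hq
    have S := hS x j r d Y hY
    have o := om_add (om_add hk hq) (om_rfl r)
    obtain ⟨L₀, a0, b0⟩ := S.fat 0 _ o
    obtain ⟨L₁, a1, b1⟩ := S.fat 1 _ o
    obtain ⟨L, -, bx⟩ := S.low.1.bx
    filter_upwards [b0, b1, bx, le_pow A.big.2.1 S.sm a0, le_pow A.big.2.1 S.sm a1] with
      n b0 b1 bx l0 l1 _ _ c v hv v' hv' _ ok e
    have ez : (Y.G (x.fg j d) n).z v = (Y.G (x.fg j d) n).z v' := bx.fz v hv v' hv' e
    have u := near_num (d₁ := c.1) (z := (Y.G (x.fg j d) n).z v) (b0 v hv v' hv' e)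
      (b1 v hv v' hv' e) l0 l1 ok.2
    nth_rewrite 2 [ez] at u
    exact u
  · intro Y hY Λ lam c c' L a τ k ha hτ _ hl _ he
    have B := oA1 _ _ _ _ _ _ _ _ hY.tg
    have I := hI x j r d Y hY
    have key := (hP x j r a (fun n => (d n).Nu + τ n) Y _ _
      (fun n v => aff (d n).Nu (j n) x.k ((d n).pu ((Y n).ρ v)) ((x.g n).z0 (j n) ((Y n).ρ v))
        (rd (j n) ((x.g n).pt ((Y n).ρ v) 0)) (c n v) (c' n v)) (fun _ => 1) hY.ok hY.tg ha
      (hL x j r d Y hY Λ lam a hl) (B.big.2.1.sub le_rfl) ?_).2 ?_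
    · refine key.of2 hY.nu.2 (Eventually.of_forall fun n => ?_)
      push_cast
      linarith
    · filter_upwards [he, I, hY.fn, hY.nu.1 1 one_pos, B.room _ (om_add (om_rfl r) hτ)] with
        n he I fn nu rm
      refine ⟨?_, fun v hv v' hv' e => ?_, fun v hv => ?_⟩
      · have h1 : (d n).Nu ≤ (x.F n).τ (iU x.k) (j n) + r n := by
          rw [one_mul] at nu; exact_mod_cast nu
        have h2 := rm.2.2 (iU x.k)
        omega
      · have e1 : (x.F n).S (j n) ((Y n).ρ v) = (x.F n).S (j n) ((Y n).ρ v') := congrArg Prod.fst e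
        have e2 := he.1 v hv v' hv' (congrArg Prod.snd e)
        have e3 := hY.ok.dg n _ _ _ e1
        have e4 : (d n).pu ((Y n).ρ v) = (d n).pu ((Y n).ρ v') :=
          congrArg Prod.fst (fn v hv v' hv' e1)
        have e5 : c n v = c n v' := congrArg Prod.fst e2
        have e6 : c' n v = c' n v' := congrArg Prod.snd e2
        rw [min_eq_left (by have := rm.2.1; omega)] at e3
        simp only [Geo.z0, rd, e3.2.1, e3.2.2, e4, e5, e6]
      · have s := I.2.2.2.2.1 v hv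
        refine ⟨2 ^ (d n).Nu, Or.inr ⟨co x.k, (aff_co _ _ _ _ _ _ _ s.1 s.2.1).1.symm⟩,
          by positivity, ?_⟩
        have u := (he.2 v hv).2
        have e1 : (x.fg j d n).lt ((Y.G (x.fg j d) n).z v) ((Y n).ρ v) = _ :=
          fr_pt (x.g n) (x.M n) (j n) x.k (d n) ((x.F n).S (j n)) ((Y n).ρ v)
        have e2 := ot_inv (x.g n) (j n) ((Y n).ρ v) ((Y.G (x.fg j d) n).z v)
        rw [show ot (x.g n) (j n) ((Y n).ρ v) ((Y.G (x.fg j d) n).z v) = (x.g n).z ((Y n).ρ v) from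
          ot_z (x.g n) (x.M n) (j n) x.k (d n) ((x.F n).S (j n)) ((Y n).ρ v)] at e2
        rw [e1, ← e2] at u
        rw [pv_aff]
        refine le_trans (le_of_eq ?_) (u.trans (le_of_eq ?_))
        · rfl
        · rw [abs_of_pos (by positivity), pow_add]; field_simp
    · filter_upwards [I] with n I v hv
      have s := I.2.2.2.2.1 v hv
      exact (aff_co _ _ _ _ _ _ _ s.1 s.2.1).2

end Pool.Agent.MP_5168f5_an.R4.T8
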