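import Pool.Agent.MP_5168f5_an.R4.SpecTB
import Pool.Agent.MP_5168f5_an.R4.KitO

/-! An older level exists and persists. -/

namespace Pool.Agent.MP_5168f5_an.R4.T8

open H19 H17S H17F Filter Matrix Tan

namespace ParZx

theorem grow {Ω : ℕ → Type} (x : Sx Ω) {j r a : ℕ → ℕ} {X : Mb Ω} (h : x.Tg j r X) (i : I5) {A : ℕ}
    (e : ∀ᶠ n in UF, a n ≤ A * r n) : ∀ᶠ n in UF,
    (x.F n).τ i (j n + a n) ≤ (x.F n).τ i (j n) + (⌈x.p.sl i⌉₊ * A + 1) * r n := by
  filter_upwards [((oA1 _ _ _ _ _ _ _ _ h).lin i a ⟨A, e⟩).1 1 one_pos, e] with n u v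
  have v' : (a n : ℝ) ≤ A * r n := by exact_mod_cast v
  have w := mul_le_mul (Nat.le_ceil (x.p.sl i)) v' (Nat.cast_nonneg _) (Nat.cast_nonneg _)
  have : ((x.F n).τ i (j n + a n) : ℝ) ≤ (x.F n).τ i (j n) + (⌈x.p.sl i⌉₊ * A + 1) * r n := by
    linarith
  exact_mod_cast this

end ParZx

open ParZx in
theorem rowParZ : ParZ where
  ex := fun {Ω} x j r X h hv => by
    have c := oCl x.g x.F x.M x.m x.p
    have a := oA1 _ _ _ _ _ _ _ _ h
    have o : ∀ᶠ n in UF, r n ≤ 1 * r n := Eventually.of_forall fun n => by omega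
    obtain ⟨k, hk, e⟩ := cf_diag (fun _ => c.cf) (fun k n => (X n, j n + r n, r n / (k + 1)))
      fun k _ _ => c.unit _ r _ X (c.shift j r r X h ⟨1, o⟩)
        ⟨1, o.mono fun n u => (Nat.div_le_self _ _).trans u⟩ ⟨2 * (k + 1), by
          filter_upwards [tendsto_atTop.1 a.big.2.1 (k + 1)] with n u
          have a1 := Nat.lt_mul_div_succ (r n) (Nat.succ_pos k)
          have a2 : 1 ≤ r n / (k + 1) := (Nat.le_div_iff_mul_le (Nat.succ_pos k)).2 (by omega)
          nlinarith⟩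
    refine ⟨_, _, e 0, fun C => ?_⟩
    filter_upwards [tendsto_atTop.1 hk C, grow x h (iH (!x.k)) o,
      a.far _ _ (fun n => (⌈x.w⌉₊ * 1 + 2) * r n) hv ⟨_, Eventually.of_forall fun _ => le_rfl⟩]
      with n u v w
    have b : C * (r n / (k n + 1)) ≤ r n :=
      (Nat.mul_le_mul_right _ (by omega)).trans (Nat.mul_div_le _ (k n + 1))
    exact ⟨Nat.add_le_add_left b _, by nlinarith⟩
  nm := fun {Ω} x j₀ =>
    { cf := cf_all fun C : ℕ => cf_ev fun n (y : ℕ × ℕ) => j₀ n + C * y.2 ≤ y.1 ∧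
        (x.F n).τ (iH (!x.k)) y.1 + C * y.2 ≤ (x.F n).τ iQ (j₀ n)
      shift := fun j r a X h ⟨A, e⟩ k C => by
        filter_upwards [k (C + (⌈x.w⌉₊ * A + 1)), grow x h (iH (!x.k)) e] with n u v
        rw [add_mul] at u
        exact ⟨by omega, by linarith [u.2]⟩
      unit := fun j r r' ⟨A, e⟩ _ k C => by
        filter_upwards [k (C * A), e] with n u v
        have := Nat.mul_le_mul_left C v
        rw [← mul_assoc] at this
        exact ⟨by omega, by omega⟩ }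

end Pool.Agent.MP_5168f5_an.R4.T8
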