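import Pool.Agent.MP_5168f5_an.R4.SpecTB

/-! The rescaled cell is a child frame. -/

namespace Pool.Agent.MP_5168f5_an.R4.T8

open H19 H17S H17F Filter Matrix Tan

namespace ShCx

theorem sc {M a : ℕ → ℕ} {nu : ℕ → ℤ} {w : ℝ} (hM : Big M) (hw : 1 ≤ w)
    (h : Le M (fun n => nu n) fun n => w * a n) : ∃ (K : ℕ → ℝ) (t : ℕ → ℕ), Sub M K ∧
      Le M (fun n => t n) (fun n => (w - 1) * a n) ∧
        ∀ n, |(2 : ℝ) ^ nu n / 2 ^ a n| ≤ K n * 2 ^ t n := by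
  refine ⟨fun n => Real.exp (max 0 ((nu n - a n - ⌊(w - 1) * a n⌋₊ : ℝ) * Real.log 2)),
    fun n => ⌊(w - 1) * a n⌋₊, Sub.exp (fun ε hε => ?_) fun n => le_max_left _ _,
    Le.of_le fun n => Nat.floor_le (mul_nonneg (by linarith) (Nat.cast_nonneg _)), fun n => ?_⟩
  · filter_upwards [h (ε / 2) (by linarith), hM.sm 1 (ε / 2) (by linarith)] with n h1 h2
    have h3 := Nat.lt_floor_add_one ((w - 1) * a n)
    have h4 := Real.log_two_lt_d9
    have h5 := Real.log_pos one_lt_two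
    have h6 : (nu n - a n - ⌊(w - 1) * a n⌋₊ : ℝ) ≤ ε * M n := by linarith
    exact max_le (by linarith) (by nlinarith)
  · rw [abs_of_pos (by positivity), ← div_le_iff₀ (by positivity)]
    refine (Real.exp_log (by positivity)).ge.trans (Real.exp_le_exp.2 (le_max_of_le_right ?_))
    rw [Real.log_div (by positivity) (by positivity), Real.log_div (by positivity) (by positivity),
      Real.log_zpow, Real.log_pow, Real.log_pow]
    linarith

theorem pw {Ω : Type} {g g' : Geo 3 Ω} {ω : Ω} {a : ℕ} {x c₁ c₂ : ℝ} {U H : Pl}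
    (h : ∀ s : ℝ, g'.lt s ω = ![2 ^ a * (g.lt (ot g a ω s) ω 0 - x),
      c₁ * (g.lt (ot g a ω s) ω 1 - pv U (ot g a ω s) (g.lt (ot g a ω s) ω)),
      c₂ * (g.lt (ot g a ω s) ω 2 - pv H (ot g a ω s) (g.lt (ot g a ω s) ω))]) :
    g'.e ω 0 = g.e ω 0 ∧ g.a ω 0 = x + (2 ^ a)⁻¹ * g'.a ω 0 + -g.z0 a ω * g.e ω 0 ∧
      g'.e ω 1 = c₁ / 2 ^ a * (g.e ω 1 - ps U (g.e ω)) ∧
      g'.e ω 2 = c₂ / 2 ^ a * (g.e ω 2 - ps H (g.e ω)) := by
  have h0 : (2 : ℝ) ^ a ≠ 0 := by positivity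
  have e : ∀ i, g'.e ω i = g'.lt 1 ω i - g'.lt 0 ω i := fun i => by simp [Geo.lt]
  have e' : g'.a ω 0 = g'.lt 0 ω 0 := by simp [Geo.lt]
  rw [e, e, e, e', h, h]
  refine ⟨?_, ?_, ?_, ?_⟩ <;> simp [ot, Geo.lt, pv, ps, Fin.sum_univ_three] <;> field_simp <;> ring

theorem z0 {Ω : Type} (g : Geo 3 Ω) (ω : Ω) (a : ℕ) (h0 : 0 ≤ g.z ω) (h1 : g.z ω < 1) :
    |-g.z0 a ω| ≤ 1 := by
  have a1 : g.z0 a ω ≤ g.z ω := fl1_le a (g.z ω)
  have a2 : (0 : ℝ) ≤ fl1 a (g.z ω) := by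
    exact_mod_cast Int.floor_nonneg.2 (mul_nonneg (by positivity) h0)
  rw [abs_neg, abs_of_nonneg (show 0 ≤ g.z0 a ω from mul_nonneg (by positivity) a2)]
  exact a1.trans h1.le

theorem fit {Ω : Type} {g : Geo 3 Ω} {ω : Ω} {a : ℕ} {i : Fin 3} {L K : ℝ} {U : Pl}
    (h : (g.pl {0} i).fit L U ω a 0) (hK : 1 ≤ K) :
    |U.2.2 0| ≤ K * L ∧ ps U (g.e ω) = U.2.1 + U.2.2 0 * g.e ω 0 := by
  have h0 := (h.2.1 0).1
  refine ⟨h0.trans (le_mul_of_one_le_left ((abs_nonneg _).trans h0) hK), ?_⟩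
  rw [ps, Fin.sum_univ_three, (h.2.1 1).2 (by decide), (h.2.1 2).2 (by decide)]
  ring

end ShCx

open ShCx in
theorem rowShC : ShC := by
  intro Ω P g g' D D' M a γ d J L hM hγ hd hJ hL ⟨nu, nf, hu, hf, hS⟩ h
  refine ⟨hS.mono fun n k => ⟨k.1.1, k.1.2.1, k.1.2.2.2.2⟩, ?_, fun i hi => ?_⟩
  · filter_upwards [hS, h] with n k k'
    refine ⟨fun ω => (rd (a n) ((g n).pt ω 0), (2 ^ a n)⁻¹, -(g n).z0 (a n) ω),
      fun u hu v hv e => ?_, fun ω hω => ?_⟩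
    · have := k'.1 u hu v hv e
      simp only [Prod.mk.injEq] at this
      simp only [rd, Geo.z0, this.1, this.2.1]
    · have p := pw (k.2 ω hω).2
      refine ⟨p.1, ?_, z0 _ _ _ (k'.2 ω hω).1 (k'.2 ω hω).2.1, p.2.1⟩
      rw [abs_of_pos (by positivity)]
      exact inv_le_one_of_one_le₀ (one_le_pow₀ one_le_two)
  · have : i = 1 ∨ i = 2 := by
      have : i ≠ 0 := fun e => hJ (e ▸ hi)
      omega
    rcases this with rfl | rfl
    · obtain ⟨K, t, h1, h2, h3⟩ := sc hM hγ hu.1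
      refine ⟨_, t, h1.mul hL, h2, ?_⟩
      filter_upwards [hS, h] with n k k'
      refine ⟨fun ω => (2 ^ nu n / 2 ^ a n, ((D n).U (a n) ω).2.1, ((D n).U (a n) ω).2.2 0),
        fun u hu v hv e => ?_, fun ω hω => ?_⟩
      · have := k'.1 u hu v hv e
        simp only [Prod.mk.injEq] at this
        simp only [this.2.2.1]
      · have q := fit (k'.2 ω hω).2.2.1 (h1.1 n)
        refine ⟨(h3 n).trans (mul_le_mul_of_nonneg_right
          (le_mul_of_one_le_right (h1.pos n).le (hL.1 n)) (by positivity)), q.1, ?_⟩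
        rw [(pw (k.2 ω hω).2).2.2.1, q.2, sub_sub]
    · obtain ⟨K, t, h1, h2, h3⟩ := sc hM hd hf.1
      refine ⟨_, t, h1.mul hL, h2, ?_⟩
      filter_upwards [hS, h] with n k k'
      refine ⟨fun ω => (2 ^ nf n / 2 ^ a n, ((D n).H (a n) ω).2.1, ((D n).H (a n) ω).2.2 0),
        fun u hu v hv e => ?_, fun ω hω => ?_⟩
      · have := k'.1 u hu v hv e
        simp only [Prod.mk.injEq] at this
        simp only [this.2.2.2]
      · have q := fit ((k'.2 ω hω).2.2.2 hi) (h1.1 n)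
        refine ⟨(h3 n).trans (mul_le_mul_of_nonneg_right
          (le_mul_of_one_le_right (h1.pos n).le (hL.1 n)) (by positivity)), q.1, ?_⟩
        rw [(pw (k.2 ω hω).2).2.2.2, q.2, sub_sub]

end Pool.Agent.MP_5168f5_an.R4.T8
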