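import Pool.Agent.MP_5168f5_an.R4.SpecTG

/-! A class of frames is a tangent class. -/

namespace Pool.Agent.MP_5168f5_an.R4.T8

open H19 H17S H17F Filter Tan

theorem rowTWR : OfTWR := by
  intro k Ω x j r d K cl ne h
  obtain ⟨X₀, h0⟩ := ne
  have f0 := h X₀ h0
  have s := fun X (a : K X) => k.fSys x j r d X (h X a)
  have l := fun X (a : K X) => k.fLab x j r d X (h X a)
  exact
    { cl := cl, ne := ⟨X₀, h0⟩, sm := (s X₀ h0).sm, one := f0.tg.1.one _, hJ := (l X₀ h0).hJ
      low := ⟨cl.toCl0, f0.tg.1.η, fun X a => (s X a).low.1, fun X a => (s X a).low.2⟩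
      cls := fun C hC => ⟨cl.toCl0, f0.tg.1.η, fun X a => ((s X a).cls C hC).1,
        fun X a => ((s X a).cls C hC).2⟩
      com := fun X a =>
        { brw := (s X a).brw, fat := (s X a).fat, nest := (l X a).nest, lab := (l X a).lab
          wU := (k.fCell x j r d X (h X a)).1, optU := k.optU x j r d X (h X a)
          fbU := k.fbU x j r d X (h X a) } }

end Pool.Agent.MP_5168f5_an.R4.T8
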