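import Pool.Agent.MP_5168f5_an.R4.SpecTB

/-! The frame of the cells of level `a` is the rescaled cell. -/

namespace Pool.Agent.MP_5168f5_an.R4.T8

open H19 H17S H17F Filter Matrix Tan

namespace TwAx

theorem fl1_add (j a : ℕ) (x : ℝ) :
    (fl1 (j + a) x : ℝ) = 2 ^ a * fl1 j x + fl1 a (Int.fract (2 ^ j * x)) := by
  have e : (2 : ℝ) ^ (j + a) * x =
      2 ^ a * Int.fract (2 ^ j * x) + ((2 ^ a * ⌊(2 : ℝ) ^ j * x⌋ : ℤ) : ℝ) := by
    rw [Int.fract]; push_cast; ring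
  simp only [fl1]
  rw [e, Int.floor_add_intCast]; push_cast; ring

theorem fract_add (j a : ℕ) (x : ℝ) :
    Int.fract ((2 : ℝ) ^ (j + a) * x) = Int.fract (2 ^ a * Int.fract (2 ^ j * x)) := by
  have e : (2 : ℝ) ^ (j + a) * x =
      2 ^ a * Int.fract (2 ^ j * x) + ((2 ^ a * ⌊(2 : ℝ) ^ j * x⌋ : ℤ) : ℝ) := by
    rw [Int.fract]; push_cast; ring
  rw [e, Int.fract_add_intCast]

theorem zp (N N' : ℕ) (w : ℝ) : (2 : ℝ) ^ ((N' : ℤ) - N) * (2 ^ N * w) = 2 ^ N' * w := by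
  rw [zpow_sub₀ two_ne_zero, zpow_natCast, zpow_natCast]; field_simp

section

variable {Ω K K' : Type} (g : Geo 3 Ω) (M j a : ℕ) (k : Bool) (d d' : Fd Ω) (κ : Ω → K)
  (κ' : Ω → K') (ω : Ω)

theorem ot_ot (s : ℝ) : ot g j ω (ot (Tan.fr g M j k d κ) a ω s) = ot g (j + a) ω s := by
  simp only [ot, Geo.z0, fr_z, fl1_add]
  field_simp
  ring

theorem pt0 : (Tan.fr g M j k d κ).pt ω 0 = Int.fract (2 ^ j * g.pt ω 0) := by
  rw [fr_pt]
  simp only [fk, rd, fl1, Int.fract, cons_val_zero]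
  field_simp

theorem c0 (y : ℝ) : (2 : ℝ) ^ (j + a) * (y - rd (j + a) (g.pt ω 0)) =
    2 ^ a * (2 ^ j * (y - rd j (g.pt ω 0)) - rd a ((Tan.fr g M j k d κ).pt ω 0)) := by
  rw [pt0]
  simp only [rd, fl1_add]
  field_simp
  ring

theorem co_ne (k : Bool) : co k ≠ 0 := by cases k <;> decide

/-- The last coordinate of the two frames. -/
theorem c2 (pr : Bool) (h : Sup k d ω) {H U : Pl} (hH : H.2.2 (co (!k)) = 0)
    (hU : U.2.2 1 = 0 ∧ U.2.2 2 = 0) (s : ℝ) (y : V 3) :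
    fk g j k d ω (ot g j ω s) y 2 -
      pv (bif pr then prd 1 0 (tr g j k d d.Nf (d.pf ω) H ω) (tr g j k d d.Nu (d.pu ω) U ω)
        else tr g j k d d.Nf (d.pf ω) H ω) s (fk g j k d ω (ot g j ω s) y) =
      2 ^ d.Nf * (y (co (!k)) - pv (prd (co k) (bif pr then (d.pf ω).2.2 (co k) else H.2.2 (co k))
        H U) (ot g j ω s) y) := by
  have hl : ∀ l, l ≠ 0 → l ≠ co k → H.2.2 l = 0 := by
    intro l h0 h1
    have : l = co (!k) := by revert l; cases k <;> decide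
    rw [this, hH]
  have e1 := tr_u g j k d ω h hU s y
  have e2 := tr_f g j k d ω h hH s y
  rw [prd_pv (co_ne k) _ hl hU]
  cases pr
  · simp only [cond_false, sub_self, zero_mul, sub_zero]
    exact e2
  · have u : U.2.2 (co k) = 0 ∧ (d.pu ω).2.2 (co k) = 0 := by
      cases k
      · exact ⟨hU.1, h.1⟩
      · exact ⟨hU.2, h.2.1⟩
    have t1 : (tr g j k d d.Nu (d.pu ω) U ω).2.2 1 = 0 := by simp [tr, u.1, u.2]
    have t2 : (tr g j k d d.Nf (d.pf ω) H ω).2.2 1 =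
        2 ^ d.Nf / 2 ^ d.Nu * (H.2.2 (co k) - (d.pf ω).2.2 (co k)) := rfl
    have t3 : ∀ l : Fin 3, l ≠ 0 → l ≠ 1 → (tr g j k d d.Nf (d.pf ω) H ω).2.2 l = 0 := by
      intro l h0 h1
      have : l = 2 := by revert l; decide
      rw [this]; rfl
    simp only [cond_true]
    rw [prd_pv (by decide) _ t3 ⟨t1, rfl⟩, e1, t2, ← sub_add, e2]
    field_simp
    ring

/-- The identity between the two frames. -/
theorem key (pr : Bool) (h : Sup k d ω) {H U : Pl} (hH : H.2.2 (co (!k)) = 0)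
    (hU : U.2.2 1 = 0 ∧ U.2.2 2 = 0) (eu : d'.pu ω = U)
    (ef : d'.pf ω = prd (co k) (bif pr then (d.pf ω).2.2 (co k) else H.2.2 (co k)) H U) (s : ℝ) :
    (Tan.fr g M (j + a) k d' κ').lt s ω =
      ![2 ^ a * ((Tan.fr g M j k d κ).lt (ot (Tan.fr g M j k d κ) a ω s) ω 0 -
          rd a ((Tan.fr g M j k d κ).pt ω 0)),
        2 ^ ((d'.Nu : ℤ) - d.Nu) * ((Tan.fr g M j k d κ).lt (ot (Tan.fr g M j k d κ) a ω s) ω 1 -
          pv (tr g j k d d.Nu (d.pu ω) U ω) (ot (Tan.fr g M j k d κ) a ω s)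
            ((Tan.fr g M j k d κ).lt (ot (Tan.fr g M j k d κ) a ω s) ω)),
        2 ^ ((d'.Nf : ℤ) - d.Nf) * ((Tan.fr g M j k d κ).lt (ot (Tan.fr g M j k d κ) a ω s) ω 2 -
          pv (bif pr then prd 1 0 (tr g j k d d.Nf (d.pf ω) H ω) (tr g j k d d.Nu (d.pu ω) U ω)
              else tr g j k d d.Nf (d.pf ω) H ω) (ot (Tan.fr g M j k d κ) a ω s)
            ((Tan.fr g M j k d κ).lt (ot (Tan.fr g M j k d κ) a ω s) ω))] := by
  rw [fr_lt, fr_lt, tr_u g j k d ω h hU, c2 g j k d ω pr h hH hU, zp, zp, ot_ot, fk, c0 g M j a k d κ,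
    eu, ef]
  rfl

end

theorem nestA {Ω Λ : Type} {P : FP Ω} {S : ℕ → Ω → Λ} (h : ∀ j, Fn P (S j) (S (j + 1))) (j a : ℕ) :
    Fn P (S j) (S (j + a)) := by
  induction a with
  | zero => exact fun _ _ _ _ e => e
  | succ a ih => exact fun u hu v hv e => ih u hu v hv (h _ u hu v hv e)

theorem lin {Ω : ℕ → Type} {x : Sx Ω} {j r a : ℕ → ℕ} {X : Mb Ω} (h : x.Tg j r X) (ha : OM r a)
    (i : I5) {ε : ℝ} (hε : 0 < ε) : ∀ᶠ n in UF,
      |((x.F n).τ i (j n + a n) : ℝ) - (x.F n).τ i (j n) - x.p.sl i * a n| ≤ ε * r n := by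
  obtain ⟨C, hC⟩ := ha
  have h1 : (0 : ℝ) < (C : ℝ) + 1 := by positivity
  have h2 : 0 < min ε (1 / ((C : ℝ) + 1)) := lt_min hε (by positivity)
  filter_upwards [hC, h.2 _ h2] with n hn hf
  have hr : (0 : ℝ) ≤ r n := Nat.cast_nonneg _
  refine (hf.num.lin i (a n) ?_).trans (mul_le_mul_of_nonneg_right (min_le_left _ _) hr)
  rw [le_div_iff₀ h2]
  have h3 : (a n : ℝ) ≤ C * r n := by exact_mod_cast hn
  calc (a n : ℝ) * min ε (1 / ((C : ℝ) + 1)) ≤ ((C + 1) * r n) * (1 / ((C : ℝ) + 1)) :=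
        mul_le_mul (by nlinarith) (min_le_right _ _) h2.le (by positivity)
    _ = r n := by field_simp

theorem eqv {r : ℕ → ℕ} {N N' : ℕ → ℕ} {f f' w : ℕ → ℝ} (h : Eqv r (fun n => N n) f)
    (h' : Eqv r (fun n => N' n) f')
    (hl : ∀ ε : ℝ, 0 < ε → ∀ᶠ n in UF, |f' n - f n - w n| ≤ ε * r n) :
    Eqv r (fun n => (((N' n : ℤ) - N n : ℤ) : ℝ)) w := by
  constructor <;> intro ε hε
  · filter_upwards [h.2 _ (by positivity : 0 < ε / 3), h'.1 _ (by positivity : 0 < ε / 3),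
      hl _ (by positivity : 0 < ε / 3)] with n a b c
    push_cast
    linarith [(abs_le.1 c).2]
  · filter_upwards [h.1 _ (by positivity : 0 < ε / 3), h'.2 _ (by positivity : 0 < ε / 3),
      hl _ (by positivity : 0 < ε / 3)] with n a b c
    push_cast
    linarith [(abs_le.1 c).1]

end TwAx

open TwAx in
theorem rowTwA : OfTwA := by
  intro hI Ω x pr σ r a s Y h h' ha
  refine ⟨fun n => ((x.cd (x.kd pr σ a s) n).Nu : ℤ) - (x.cd σ n).Nu,
    fun n => ((x.cd (x.kd pr σ a s) n).Nf : ℤ) - (x.cd σ n).Nf,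
    eqv h.nu h'.nu fun ε hε => lin h.tg ha _ hε, eqv h.nf h'.nf fun ε hε => lin h.tg ha _ hε, ?_⟩
  filter_upwards [hI x _ r _ Y h, hI x _ r _ Y h', h.tg.2 1 one_pos] with n i i' hf
  have al := hf.old.alg
  refine ⟨⟨fun _ _ _ _ e => e, fun _ _ _ _ e => e, fun u _ v _ e => ?_, fun u hu v hv e => ?_,
    fun b => ?_⟩, fun v hv => ⟨fract_add _ _ _, fun t => ?_⟩⟩
  · exact Prod.ext (congrArg Prod.snd e) (congrArg (fun p => p.1.2) e)
  · have e1 := congrArg Prod.fst e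
    have e2 := congrArg Prod.snd e
    exact Prod.ext (nestA al.nest (σ n).1 (a n) u hu v hv e1) e2
  · have e : (σ n).1 + a n + b = (σ n).1 + (a n + b) := add_assoc _ _ _
    exact ⟨fun u _ v _ w => by
        change (x.F n).S ((σ n).1 + a n + b) _ = (x.F n).S ((σ n).1 + a n + b) _
        rw [e]; exact w,
      fun u _ v _ w => by
        change (x.F n).S ((σ n).1 + (a n + b)) _ = (x.F n).S ((σ n).1 + (a n + b)) _
        rw [← e]; exact w⟩
  · have s1 := i.2.2.2.2.1 v hv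
    have s2 := i'.2.2.2.2.1 v hv
    have hH : (dP (x.F n) true (!x.k) ((σ n).1 + a n) ((Y n).ρ v)).2.2 (co (!x.k)) = 0 :=
      ((al.fit (iH (!x.k)) ((σ n).1 + a n) v hv).2.1 (co (!x.k))).2
        (by cases x.k <;> decide)
    refine key (x.g n) (x.M n) (σ n).1 (a n) x.k (x.cd σ n) (x.cd (x.kd pr σ a s) n)
      ((x.F n).S (σ n).1) ((x.F n).S ((σ n).1 + a n)) ((Y n).ρ v) pr s1 hH ⟨s2.1, s2.2.1⟩ rfl ?_ t
    have e : ((x.cd σ n).pf ((Y n).ρ v)).2.2 (co x.k) = (σ n).2.2 ((Y n).ρ v) := by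
      simp [cfr, prd, co_ne]
    rw [e]
    cases pr <;> rfl

end Pool.Agent.MP_5168f5_an.R4.T8
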