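import Pool.Agent.MP_5168f5_an.R4.VNGD
import Pool.Agent.MP_5168f5_an.R4.VFbU

/-! The deep digits are independent of the cells in a frame. -/

namespace Pool.Agent.MP_5168f5_an.R4.T8

open H19 H17S H17F Filter Matrix Tan

namespace ZDx

theorem ent {W Λ Λ' Y T : Type} (P : FP W) (xM yM xa ya x' u' : W → ℤ) (Sb : W → Λ)
    (lam : W → Λ') (c : W → Y) (t : W → T)
    (h1 : Fn P (fun v => (Sb v, x' v, u' v, c v)) fun v => (xa v, lam v, t v))
    (h2 : Fn P (fun v => (x' v, c v)) fun v => (xM v, Sb v, t v)) :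
    mi P Sb (fun v => (xM v, yM v)) (fun v => (x' v, u' v, c v)) ≤
      ch P xM (fun v => (x' v, u' v, c v)) + ch P yM (fun v => (xM v, x' v, u' v, c v)) -
      ch P xM (fun v => (xa v, lam v, t v)) - ch P yM (fun v => (ya v, xM v, Sb v, t v)) +
      ch P u' fun v => (ya v, xM v, Sb v, t v) := by
  have c1 := ch_chain (P := P) xM yM fun v => (x' v, u' v, c v)
  have c2 := ch_chain (P := P) xM yM fun v => (Sb v, x' v, u' v, c v)
  have t1 := ch_anti (F := xM) h1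
  have t2 := ch_tri (P := P) yM u' fun v => (ya v, xM v, Sb v, t v)
  have t3 : ch P yM (fun v => (u' v, ya v, xM v, Sb v, t v)) ≤
      ch P yM fun v => (xM v, Sb v, x' v, u' v, c v) := ch_anti fun a ha b hb e => by
    have e' := h2 a ha b hb (congrArg (·.2.2) e)
    simp only [Prod.mk.injEq] at e e' ⊢
    exact ⟨e.2.2.1, e.2.2.2.1, e'.1, e.1, e'.2⟩
  rw [mi_symm, mi]
  linarith

theorem near_y {p : Pl} {L t : ℝ} {a b : V 3} {N R : ℕ} (i : Fin 3)
    (h0 : ∀ i, |p.2.2 i| ≤ L ∧ (i ∉ ({0} : Finset (Fin 3)) → p.2.2 i = 0))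
    (e1 : fl1 R (2 ^ N * (a i - pv p t a)) = fl1 R (2 ^ N * (b i - pv p t b)))
    (e2 : fl1 (N + R) (a 0) = fl1 (N + R) (b 0)) : |a i - b i| ≤ (1 + L) / 2 ^ (N + R) := by
  have h1 := (abs_sub_lt_of_fl1_eq e1).le
  have h2 := mul_le_mul (h0 0).1 (abs_sub_lt_of_fl1_eq e2).le (abs_nonneg _)
    ((abs_nonneg _).trans (h0 0).1)
  have e : a i - b i = ((2 : ℝ) ^ N)⁻¹ * (2 ^ N * (a i - pv p t a) - 2 ^ N * (b i - pv p t b)) +
      p.2.2 0 * (a 0 - b 0) := by
    simp only [pv, Fin.sum_univ_three, (h0 1).2 (by decide), (h0 2).2 (by decide)]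
    field_simp
    ring
  have h3 := mul_le_mul_of_nonneg_left h1 (by positivity : (0 : ℝ) ≤ ((2 : ℝ) ^ N)⁻¹)
  rw [← abs_mul] at h2
  rw [e]
  refine (abs_add_le _ _).trans ?_
  rw [abs_mul, abs_of_pos (by positivity : (0 : ℝ) < ((2 : ℝ) ^ N)⁻¹)]
  refine (add_le_add h3 h2).trans_eq ?_
  rw [pow_add]; field_simp

/-- A digit of the point together with an older label is a label. -/
theorem lab {Ω Λ : ℕ → Type} {P : ∀ n, FP (Ω n)} {g : Gs 3 Ω} {m b q : ℕ → ℕ}
    {lam : ∀ n, Ω n → Λ n} (i : Fin 3) (h : Bs P g m) (hf : Fat P g m i q)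
    (hl : Lab P g m b lam) (e : ∀ᶠ n in UF, b n ≤ q n) :
    Lab P g m q fun n v => (fl1 (q n) ((g n).pt v i), lam n v) := by
  obtain ⟨L, s, bx⟩ := h.bx
  obtain ⟨L', s', f⟩ := hf
  have s1 := Sm.near1 (P := P) (x := fun n v => (g n).pt v i) (j := q)
    (G := fun n v => (lam n v, (g n).win (q n) v)) h.big s (bx.mono fun n u a ha c _ w => by
      simp only [Geo.win, Geo.ln, Prod.mk.injEq] at w
      obtain ⟨-, ⟨w1, w2, -⟩, w3⟩ := w
      have h2 := mul_le_mul (abs_sub_lt_of_fl1_eq w3).le ((u.bd a ha).1 i).2 (abs_nonneg _)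
        (by positivity)
      rw [← abs_mul] at h2
      refine le_trans (le_of_eq ?_) (h2.trans_eq (by rw [div_eq_inv_mul]))
      simp only [Geo.pt, Geo.lt, Pi.add_apply, Pi.smul_apply, smul_eq_mul, ← w1, ← w2]
      congr 1
      ring)
  have s2 := Sm.near1 (P := P) (x := fun n v => (g n).pt v i) (j := q)
    (G := fun n v => (lam n v, (g n).y v)) h.big s'
    (f.mono fun n u a ha c hc w => u a ha c hc (congrArg Prod.snd w))
  exact ⟨Sm.mono (Sm.add (kb.up P g m b q lam e hl.h) s1)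
      (Eventually.of_forall fun n => (kb.add _ _ _ _ _).1),
    Sm.mono (Sm.add hl.l s2) (Eventually.of_forall fun n => (kb.add _ _ (q n) _ _).2)⟩

end ZDx

open ZDx in
theorem rowZD : OfZD := by
  intro hS hI hF hL Ω x j r d X h b q oq hq
  have A := oA1 _ _ _ _ _ j r X h.tg
  have B := oA2 _ _ _ _ _ j r X h.tg
  have fs := hS x j r d X h
  have ob : OM r b := oq.mono (hq.mono fun n a => a.1)
  obtain ⟨L, sL, fit⟩ := h.fit
  obtain ⟨L', -, alg⟩ := A.fam.alg
  have sL1 := (A.big.2.1.sub le_rfl).add (sub_up A.big.2.2.1 sL) A.big.2.1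
  have num : ∀ᶠ n in UF, j n + q n ≤ x.M n ∧ (d n).Nu + q n ≤ x.M n := by
    filter_upwards [h.nu.1 1 one_pos, A.room _ (oq.add OM.rfl)] with n a4 a5
    rw [one_mul] at a4
    have b4 : (d n).Nu ≤ (x.F n).τ (iU x.k) (j n) + r n := by exact_mod_cast a4
    have b5 := a5.2.2 (iU x.k)
    omega
  have l1 := hL x j r d X h _ _ q (lab 1 fs.low.1 (fs.fat 1 q oq) ((hF x j r d X h).lab b ob)
    (hq.mono fun n a => a.1))
  have xa := B.xa _ _ _ (fun n => j n + q n) x.M l1 (num.mono fun n a => ⟨le_rfl, a.1, le_rfl⟩)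
  have fb := B.fb _ _ (fun _ _ => 0) L false x.k b (fun n => (d n).Nu + q n) x.M ob
    (A.fam.lab fun n => j n + b n) sL (num.mono fun n a => ⟨fun _ _ _ _ _ => rfl,
      fun v _ => ⟨by simpa using (sL.pos n).le, fun _ => rfl⟩, a.2, le_rfl⟩)
    (h.nu.2.of_sub (hq.mono fun n u => by push_cast; linarith [u.2]))
  simp only [Geo.sv, zero_mul, sub_zero] at fb
  have hp : ∀ n v, (X.G (x.fg j d) n).pt v = fk (x.g n) (j n) x.k (d n) ((X n).ρ v)
      ((X.G x.g n).z v) ((X.G x.g n).pt v) := fun n v =>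
    fr_pt (x.g n) (x.M n) (j n) x.k (d n) ((x.F n).S (j n)) _
  have h0 : ∀ n v, fl1 (q n) ((X.G (x.fg j d) n).pt v 0) =
      fl1 (j n + q n) ((X.G x.g n).pt v 0) - 2 ^ q n * fl1 (j n) ((X.G x.g n).pt v 0) :=
    fun n v => by rw [hp]; exact FbUx.fl1_fr _ _ _
  have h1 : ∀ n v, (X.G (x.fg j d) n).pt v 1 = 2 ^ (d n).Nu * ((X.G x.g n).pt v (co x.k) -
      pv ((d n).pu ((X n).ρ v)) ((X.G x.g n).z v) ((X.G x.g n).pt v)) :=
    fun n v => by rw [hp]; rfl
  have nest : ∀ᶠ n in UF, Fn (X n).Q (fun v => (x.F n).S (j n) ((X n).ρ v))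
      fun v => (x.F n).S (j n + b n) ((X n).ρ v) := alg.mono fun n a => by
    induction b n with
    | zero => exact Fn.rfl _
    | succ i ih => exact ih.trans (a.nest _)
  have eU := Sm.near1 (P := X.P) (x := fun n v => (X.G (x.fg j d) n).pt v 1)
    (G := fun n v => (fl1 ((d n).Nu + q n) ((X.G x.g n).pt v (co x.k)),
      fl1 (x.M n) ((X.G x.g n).pt v 0), (x.F n).S (j n + b n) ((X n).ρ v), (X.G x.g n).zt v))
    (j := q) A.big.2.1 sL1 (by
      filter_upwards [num, nest, h.fn, fit] with n a a1 a2 a3 u hu v hv e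
      simp only [Prod.mk.injEq, Geo.zt] at e
      have e1 : (d n).pu ((X n).ρ u) = (d n).pu ((X n).ρ v) :=
        congrArg Prod.fst (a2 u hu v hv (a1 u hu v hv e.2.2.1))
      rw [h1, h1, show (X.G x.g n).z u = (X.G x.g n).z v from e.2.2.2.1, e1]
      exact NGDx.near_u (co x.k) (a3 v hv).1.2.1 e.1 (fl1_eq_of_le a.2 e.2.1))
  have eY := Sm.near1 (P := X.P) (x := fun n v => (X.G x.g n).pt v (co x.k))
    (G := fun n v => (fl1 (x.M n) ((X.G x.g n).pt v 0), fl1 (q n) ((X.G (x.fg j d) n).pt v 0),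
      fl1 (q n) ((X.G (x.fg j d) n).pt v 1), (X.G (x.fg j d) n).zt v))
    (j := fun n => (d n).Nu + q n) A.big.2.1 sL1 (by
      filter_upwards [num, hI x j r d X h, h.fn, fit] with n a a1 a2 a3 u hu v hv e
      have e0 := a1.2.2.1 u hu v hv (congrArg (·.2.2.2) e)
      have e2 : fl1 (q n) ((X.G (x.fg j d) n).pt u 1) = fl1 (q n) ((X.G (x.fg j d) n).pt v 1) :=
        congrArg (·.2.2.1) e
      have e1 : (d n).pu ((X n).ρ u) = (d n).pu ((X n).ρ v) :=
        congrArg Prod.fst (a2 u hu v hv (congrArg Prod.snd e0))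
      rw [h1, h1, show (X.G x.g n).z u = (X.G x.g n).z v from congrArg (·.1.1) e0, e1] at e2
      exact near_y (co x.k) (a3 v hv).1.2.1 e2 (fl1_eq_of_le a.2 (congrArg Prod.fst e)))
  refine Le.of3 xa fb (Sm.add eU eY) ?_
  filter_upwards [num, nest, hI x j r d X h] with n a a1 a2
  have jM : j n ≤ x.M n := (Nat.le_add_right _ _).trans a.1
  have k := ent (X n).Q (fun v => fl1 (x.M n) ((X.G x.g n).pt v 0))
    (fun v => fl1 (x.M n) ((X.G x.g n).pt v (co x.k)))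
    (fun v => fl1 (j n + q n) ((X.G x.g n).pt v 0))
    (fun v => fl1 ((d n).Nu + q n) ((X.G x.g n).pt v (co x.k)))
    (fun v => fl1 (q n) ((X.G (x.fg j d) n).pt v 0))
    (fun v => fl1 (q n) ((X.G (x.fg j d) n).pt v 1)) (fun v => (x.F n).S (j n + b n) ((X n).ρ v))
    (fun v => ((x.F n).S (j n) ((X n).ρ v), fl1 (q n) ((X.G (x.fg j d) n).pt v 1),
      (x.F n).S (j n + b n) ((X n).ρ v))) (X.G (x.fg j d) n).zt (X.G x.g n).zt
    (fun u hu v hv e => by
      have e1 : fl1 (j n + q n) ((X.G x.g n).pt u 0) = fl1 (j n + q n) ((X.G x.g n).pt v 0) :=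
        congrArg Prod.fst e
      refine Prod.ext (congrArg (·.2.1.2.2) e) (Prod.ext ?_ (Prod.ext (congrArg (·.2.1.2.1) e)
        (a2.2.2.2.1 u hu v hv (Prod.ext (congrArg (·.2.2.1) e) (congrArg (·.2.1.1) e)))))
      exact (h0 n u).trans (Eq.trans (by rw [e1, fl1_eq_of_le (Nat.le_add_right _ _) e1])
        (h0 n v).symm))
    (fun u hu v hv e => by
      have e1 : fl1 (x.M n) ((X.G x.g n).pt u 0) = fl1 (x.M n) ((X.G x.g n).pt v 0) :=
        congrArg Prod.fst e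
      refine Prod.ext ?_ (a2.2.2.2.1 u hu v hv (Prod.ext (congrArg (·.2.2.1) e)
        (a1 u hu v hv (congrArg (·.2.1) e))))
      exact (h0 n u).trans (Eq.trans (by rw [fl1_eq_of_le a.1 e1, fl1_eq_of_le jM e1])
        (h0 n v).symm))
  have k1 := KBA.refine (P := (X n).Q) (x := fun v => (X.G x.g n).pt v 0)
    (G := fun v => (fl1 (q n) ((X.G (x.fg j d) n).pt v 0), fl1 (q n) ((X.G (x.fg j d) n).pt v 1),
      (X.G (x.fg j d) n).zt v)) a.1 fun u hu v hv e => by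
    have e1 : fl1 (q n) ((X.G (x.fg j d) n).pt u 0) = fl1 (q n) ((X.G (x.fg j d) n).pt v 0) :=
      congrArg Prod.fst e
    have e2 := (h.ok.dg n _ _ _ (congrArg (·.2.2.2) e)).2.2
    rw [min_eq_left jM] at e2
    rw [h0, h0, show fl1 (j n) ((X.G x.g n).pt u 0) = fl1 (j n) ((X.G x.g n).pt v 0) from e2] at e1
    exact sub_left_inj.1 e1
  have k2 := KBA.coarse_le (P := (X n).Q) (fun v => (X.G x.g n).pt v (co x.k))
    (fun v => (fl1 (x.M n) ((X.G x.g n).pt v 0), fl1 (q n) ((X.G (x.fg j d) n).pt v 0),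
      fl1 (q n) ((X.G (x.fg j d) n).pt v 1), (X.G (x.fg j d) n).zt v)) a.2
  have e : ∀ {I A B C D E F s t : ℝ}, I ≤ A + B - C - D + E → A ≤ s → B ≤ F + t →
      I - 0 ≤ s - C + (t - D) + (E + F - 0) := fun k k1 k2 => by linarith
  exact e k k1 k2

end Pool.Agent.MP_5168f5_an.R4.T8
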