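import Pool.Agent.MP_5168f5_an.R4.KitW
import Pool.Agent.MP_5168f5_an.R4.SpecTG
import Pool.Agent.MP_5168f5_an.R4.VEnl
import Pool.Agent.MP_5168f5_an.R4.VFCl
import Pool.Agent.MP_5168f5_an.R4.VFInv
import Pool.Agent.MP_5168f5_an.R4.VFSys
import Pool.Agent.MP_5168f5_an.R4.VFLab
import Pool.Agent.MP_5168f5_an.R4.VLft
import Pool.Agent.MP_5168f5_an.R4.VFCell
import Pool.Agent.MP_5168f5_an.R4.VFNL
import Pool.Agent.MP_5168f5_an.R4.VCorP
import Pool.Agent.MP_5168f5_an.R4.VCorQ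
import Pool.Agent.MP_5168f5_an.R4.VOptU
import Pool.Agent.MP_5168f5_an.R4.VOptP
import Pool.Agent.MP_5168f5_an.R4.VOptI
import Pool.Agent.MP_5168f5_an.R4.VOptA
import Pool.Agent.MP_5168f5_an.R4.VOptF
import Pool.Agent.MP_5168f5_an.R4.VOptQ
import Pool.Agent.MP_5168f5_an.R4.VFbC
import Pool.Agent.MP_5168f5_an.R4.VFbU
import Pool.Agent.MP_5168f5_an.R4.VFbF
import Pool.Agent.MP_5168f5_an.R4.VFbI
import Pool.Agent.MP_5168f5_an.R4.VZD
import Pool.Agent.MP_5168f5_an.R4.VNGD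
import Pool.Agent.MP_5168f5_an.R4.VNGF
import Pool.Agent.MP_5168f5_an.R4.VNGC
import Pool.Agent.MP_5168f5_an.R4.VNGI
import Pool.Agent.MP_5168f5_an.R4.VCuB
import Pool.Agent.MP_5168f5_an.R4.VCuC
import Pool.Agent.MP_5168f5_an.R4.VParZ
import Pool.Agent.MP_5168f5_an.R4.VFrCan
import Pool.Agent.MP_5168f5_an.R4.VCanCl
import Pool.Agent.MP_5168f5_an.R4.VTwA
import Pool.Agent.MP_5168f5_an.R4.VShC
import Pool.Agent.MP_5168f5_an.R4.VKid
import Pool.Agent.MP_5168f5_an.R4.VFin1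
import Pool.Agent.MP_5168f5_an.R4.VEndI
import Pool.Agent.MP_5168f5_an.R4.VEnd2
import Pool.Agent.MP_5168f5_an.R4.VTWR
import Pool.Agent.MP_5168f5_an.R4.VCzR
import Pool.Agent.MP_5168f5_an.R4.VM2
import Pool.Agent.MP_5168f5_an.R4.VMC

/-! No member is tangent, given the list of cases. -/

namespace Pool.Agent.MP_5168f5_an.R4.T8

open Tan

theorem fInv : FInv := rowFInv
theorem fSys : FSys := rowFSys fInv
theorem fLab : FLab := rowFLab fInv
theorem lft : Lft := rowLft fInv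
theorem corP : CorP := rowCorP rowFNL
theorem corQ : CorQ := rowCorQ rowFNL

theorem kitB : KitB where
  fCl := rowFCl
  fSys := fSys
  fInv := fInv
  fLab := fLab
  fCell := rowFCell
  optU := rowOptU offW rowFCl fSys fInv lft corP
  optP := rowOptP offW rowFCl fSys fInv lft corP
  optI := rowOptI offW rowFCl fSys fInv lft corP
  optA := rowOptA offW rowFCl fSys fInv lft corQ
  optF := rowOptF offW rowFCl fSys fInv lft corQ
  optQ := rowOptQ offW rowFCl fSys fInv lft corQ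
  fbU := rowFbU fInv lft rowFbC
  fbF := rowFbF fInv lft rowFbC
  fbI := rowFbI rowFCl fInv lft rowFbC
  zd := rowZD fSys fInv fLab lft
  ngD := rowNGD fInv
  ngF := rowNGF fInv
  ngC := rowNGC fSys fInv
  ngI := rowNGI fInv
  cuC := rowCuC fInv (rowCuB fInv)
  parZ := rowParZ
  frCan := rowFrCan
  canCl := rowCanCl
  twA := rowTwA fInv
  shC := rowShC
  kid := rowKid rowFrCan rowCanCl
  fin1 := rowFin1 rev gStep gChain prdW ballF

theorem twr : TWR := rowTWR kitB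
theorem czr : CzR := rowCzR kitB twr

theorem noTan2 (h : Cases2) : NoTan2 :=
  noTan2_of rowEnl (rowMA kitB twr czr h.af)
    (rowM2 kitB twr czr (rowEnd2 h (rowEndI h.ib h.ic))) (rowMI kitB twr czr (rowEndI h.ib h.ic))
    (rowMC kitB twr czr h.ac)

end Pool.Agent.MP_5168f5_an.R4.T8
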