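import Pool.Agent.MP_5168f5_an.R4.SpecP0

/-! Three lines through almost the same point. -/

namespace Pool.Agent.MP_5168f5_an.R4.P0

open H19 H17S H17F Filter Web Tan

namespace AlgA

theorem mul_le {a b x y : ℝ} (h : |a| ≤ x) (h' : |b| ≤ y) : |a * b| ≤ x * y := by
  rw [abs_mul]; exact mul_le_mul h h' (abs_nonneg _) ((abs_nonneg _).trans h)

theorem pf_vec (A : Qd) (Y : V 5) (e : V 3) (h : pf A Y (bv 4) = 0) : pf A Y (vec 1 e) =
    pf A Y (bv 1) + pf A Y (bv 2) * e 0 + pf A Y (bv 3) * e 1 := by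
  rw [vec_eq]; simp only [pf_add_right, pf_smul_right, h]; ring

/-- The rule of Cramer. -/
theorem cr {a b c r U : ℝ} {w v : Fin 3 → ℝ} (hU : 1 ≤ U) (hw : ∀ i, |w i| ≤ U)
    (hv : ∀ i, |v i| ≤ U) (hd : 1 ≤ U * |(w 1 - w 0) * (v 2 - v 0) - (w 2 - w 0) * (v 1 - v 0)|)
    (h : ∀ i, |a + b * w i + c * v i| ≤ r) :
    |a| ≤ 6 * U ^ 3 * r ∧ |b| ≤ 6 * U ^ 3 * r ∧ |c| ≤ 6 * U ^ 3 * r := by
  have k : ∀ x p q s : ℝ, |p| ≤ U * U + U * U → |q| ≤ U * U + U * U → |s| ≤ U * U + U * U →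
      ((w 1 - w 0) * (v 2 - v 0) - (w 2 - w 0) * (v 1 - v 0)) * x = (a + b * w 0 + c * v 0) * p +
        (a + b * w 1 + c * v 1) * q + (a + b * w 2 + c * v 2) * s → |x| ≤ 6 * U ^ 3 * r :=
    fun x p q s hp hq hs e => by
      have := ((abs_add_three _ _ _).trans (add_le_add_three (mul_le (h 0) hp) (mul_le (h 1) hq)
        (mul_le (h 2) hs)))
      rw [← e, abs_mul] at this
      exact (le_mul_of_one_le_left (abs_nonneg x) hd).trans ((mul_assoc _ _ _).trans_le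
        ((mul_le_mul_of_nonneg_left this (by linarith)).trans_eq (by ring)))
  have k1 : ∀ i j k l, |w i * v j - w k * v l| ≤ U * U + U * U := fun i j k l =>
    (abs_sub _ _).trans (add_le_add (mul_le (hw i) (hv j)) (mul_le (hw k) (hv l)))
  have k2 : ∀ {u : Fin 3 → ℝ}, (∀ i, |u i| ≤ U) → ∀ i j, |u i - u j| ≤ U * U + U * U :=
    fun hu i j => (abs_sub _ _).trans (by nlinarith [hu i, hu j])
  exact ⟨k a _ _ _ (k1 1 2 2 1) (k1 2 0 0 2) (k1 0 1 1 0) (by ring),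
    k b _ _ _ (k2 hv 1 2) (k2 hv 2 0) (k2 hv 0 1) (by ring),
    k c _ _ _ (k2 hw 2 1) (k2 hw 0 2) (k2 hw 1 0) (by ring)⟩

/-- Interpolation at three separated points. -/
theorem lag {a b c r L : ℝ} {w : Fin 3 → ℝ} (hL : 1 ≤ L) (hw : ∀ i, |w i| ≤ L)
    (hs : ∀ i l, i ≠ l → 1 ≤ L * |w i - w l|) (h : ∀ i, |a + b * w i + c * (w i * w i)| ≤ r) :
    |a| ≤ 6 * (L ^ 3) ^ 3 * r ∧ |b| ≤ 6 * (L ^ 3) ^ 3 * r ∧ |c| ≤ 6 * (L ^ 3) ^ 3 * r := by
  refine cr (v := fun i => w i * w i) (one_le_pow₀ hL)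
    (fun i => (hw i).trans (le_self_pow₀ hL (by norm_num)))
    (fun i => (mul_le (hw i) (hw i)).trans ?_) ?_ h
  · rw [← pow_two]
    exact pow_le_pow_right₀ hL (by norm_num)
  · refine (one_le_mul_of_one_le_of_one_le (one_le_mul_of_one_le_of_one_le
      (hs 1 0 (by decide)) (hs 2 0 (by decide))) (hs 2 1 (by decide))).trans_eq ?_
    rw [show (w 1 - w 0) * (w 2 * w 2 - w 0 * w 0) - (w 2 - w 0) * (w 1 * w 1 - w 0 * w 0) =
      (w 1 - w 0) * (w 2 - w 0) * (w 2 - w 1) by ring, abs_mul, abs_mul]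
    ring

end AlgA

open AlgA in
theorem rowAlg3 : Alg3 := by
  refine ⟨4512, 19, by norm_num, fun A Y e h₀ h₁ L s J hL hs hJ hA he hd hw h1 h2 h3 h4 => ?_⟩
  have z : ∀ W, pf A W (bv 4) = 0 := fun W => by
    simp [pf, bv, Matrix.mulVec, dotProduct, Pi.single_apply, fun i => hA i 4 (Or.inr rfl),
      fun k => hA 4 k (Or.inl rfl)]
  rw [det3_eq] at hd
  have pw : ∀ {x : ℝ} (a b : ℕ), 0 ≤ x → a ≤ b → L ^ a * x ≤ L ^ b * x := fun a b hx h =>
    mul_le_mul_of_nonneg_right (pow_le_pow_right₀ hL h) hx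
  have hJs : 0 ≤ J * s := by positivity
  have a1 := (cr (a := pf A (Y 0) (bv 1) - h₀) (b := pf A (Y 0) (bv 2) - h₁)
    (c := pf A (Y 0) (bv 3)) (r := 4 * L * s) hL (fun i => he i 0) (fun i => he i 1) hd
    fun i => by
      have b0 := abs_le.1 (h1 i)
      have b1 := abs_le.1 (h2 i 0)
      have b2 := abs_le.1 (mul_le (h2 i 1) (he i 0))
      have b3 := abs_le.1 (mul_le (h2 i 2) (he i 1))
      have b4 := pw 0 1 hs zero_le_one
      rw [pf_vec _ _ _ (z _)] at b0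
      simp only [Fin.reduceSucc] at b1 b2 b3
      exact abs_le.2 ⟨by linarith, by linarith⟩).2.2
  obtain ⟨a2, a3, a4⟩ := cr (a := pf A (bv 3) (bv 1)) (b := pf A (bv 3) (bv 2))
    (c := pf A (bv 3) (bv 3)) (r := L * J * (25 * L ^ 4 * s)) hL (fun i => he i 0)
    (fun i => he i 1) hd fun i => by
      rw [← pf_vec _ _ _ (z _), pf_comm]
      refine (h4 i).trans (mul_le_mul_of_nonneg_left ?_ (by positivity))
      have b0 := abs_le.1 a1
      have b1 := abs_le.1 (h2 i 2)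
      have b4 := pw 0 4 hs (by norm_num)
      simp only [Fin.reduceSucc] at b1
      exact abs_le.2 ⟨by linarith, by linarith⟩
  obtain ⟨a5, a6, a7⟩ := lag (a := pf A (bv 1) (bv 1)) (b := 2 * pf A (bv 2) (bv 1))
    (c := pf A (bv 2) (bv 2)) (r := 752 * L ^ 10 * (J * s)) hL (fun i => he i 0) hw fun i => by
      have b0 := abs_le.1 (h3 i)
      have b1 := pf_self A (vec 1 (e i))
      rw [pf_vec _ _ _ (z _), pf_comm _ _ (bv 1), pf_comm _ _ (bv 2), pf_comm _ _ (bv 3),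
        pf_vec _ _ _ (z _), pf_vec _ _ _ (z _), pf_vec _ _ _ (z _), pf_comm _ (bv 1) (bv 2),
        pf_comm _ (bv 1) (bv 3), pf_comm _ (bv 2) (bv 3)] at b1
      have b2 := abs_le.1 (mul_le a2 (he i 1))
      have b3 := abs_le.1 (mul_le (mul_le a3 (he i 0)) (he i 1))
      have b4 := abs_le.1 (mul_le (mul_le a4 (he i 1)) (he i 1))
      have b5 := pw 1 10 hJs (by norm_num)
      have b6 := pw 9 10 hJs (by norm_num)
      exact abs_le.2 ⟨by linarith, by linarith⟩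
  rw [abs_mul, abs_two] at a6
  have c1 := pw 4 19 hs (by norm_num)
  have c2 := pw 8 19 hJs (by norm_num)
  have c3 : 0 ≤ L ^ 19 * s := by positivity
  have c4 : 0 ≤ L ^ 19 * (J * s) := by positivity
  refine ⟨by linarith, fun i l => ?_⟩
  fin_cases i <;> fin_cases l <;> simp only [Fin.reduceFinMk, Fin.reduceSucc, z,
    pf_comm A (bv 4), pf_comm A (bv 1) (bv 2), pf_comm A (bv 1) (bv 3), pf_comm A (bv 2) (bv 3),
    abs_zero] <;> linarith

end Pool.Agent.MP_5168f5_an.R4.P0
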