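import Pool.Agent.MP_5168f5_an.R4.SpecP0

/-! The common facts after the exchange of the last two coordinates. -/

namespace Pool.Agent.MP_5168f5_an.R4.P0

open H19 H17S H17F Filter Web Tan

namespace ComA

/-- A plane as a quadric. -/
def qd (d : ℝ × ℝ) : Qd := Matrix.of fun i k =>
  if i = 0 ∧ k = 1 then d.1 else if i = 0 ∧ k = 2 then d.2 else 0

theorem ql_qd {Ω : Type} (g : Geo 3 Ω) (d : ℝ × ℝ) (ω : Ω) (t : ℝ) :
    ql g (qd d) ω t = d.1 * t + d.2 * g.lt t ω 0 := by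
  simp [ql, qf, hom, qd, Matrix.mulVec, dotProduct, Fin.sum_univ_five]

theorem qd_bd {d : ℝ × ℝ} {B : ℝ} (h : |d.1| ≤ B ∧ |d.2| ≤ B) (i k : Fin 5) :
    |qd d i k| ≤ B ∧ (i = 4 ∨ k = 4 → qd d i k = 0) := by
  refine ⟨?_, ?_⟩
  · simp only [qd, Matrix.of_apply]
    split_ifs
    exacts [h.1, h.2, by simpa using (abs_nonneg _).trans h.1]
  · rintro (rfl | rfl) <;> simp [qd]

theorem ty_fn {Ω : Type} (P : FP Ω) (g : Geo 3 Ω) (γ : ℝ) (r : ℕ) :
    Fn P (Tan.ty (sg g) {0, 1} r) (Tan.ty g (wT γ 1) r) := fun a _ b _ e => by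
  have h0 := congrFun e 0
  have h2 := congrFun e 2
  simp only [Tan.ty, wT, Finset.mem_filter, Finset.mem_univ, true_and,
    Matrix.cons_val_zero,
    Matrix.cons_val, if_true] at h0 h2
  funext i
  fin_cases i <;> simp [Tan.ty, sv, h0, h2]

end ComA

open ComA in
theorem rowSwCom : OfSwCom := by
  intro hK Ω P g M mm D η γ ε₀ hγ h h2
  refine ⟨h.brw, fun i r hr => ?_, h.nest.mono fun n c => ⟨c.1, fun j => ⟨(c.2 j).1,
    fun a u b v e => ?_⟩⟩, fun j hj => (hK.lab P g mm j _).2 (h.lab j hj), fun a ha => ?_,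
    fun r hr => (h.typ r hr).mono (Eventually.of_forall fun n =>
      mi_mono' ((ty_fn (P n) (g n) γ (r n)).left _)),
    hK.c21 P g M (fun n => (D n).H) 1 (h2.cellP hγ.le),
    fun Λ lam d L j τ k h3 h4 h5 h6 h7 h8 h9 => ?_, fun Λ lam a ha hl => ?_⟩
  · fin_cases i
    exacts [h.fat 0 r hr, h.fat 2 r hr, h.fat 1 r hr]
  · have := (c.2 j).2 a u b v e
    simp only [Prod.mk.injEq] at this ⊢
    simp only [this, and_self]
  · obtain ⟨L, l, w⟩ := h.ball a ha
    refine ⟨L, l, w.mono (Eventually.of_forall fun n ω _ c i => ?_)⟩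
    fin_cases i
    exacts [c 0, c 2, c 1]
  · refine h2.optF Λ lam (fun n ω => qd (d n ω)) L j τ k h3 h4 h5 ((hK.lab P g mm j _).1 h6) h7
      (h8.mono fun n c => (Fn.comp qd _).trans c) (h9.mono (Eventually.of_forall
        fun n ω _ c => ⟨qd_bd c.1, ?_⟩))
    simp only [ql_qd, ← sub_sub]
    exact c.2
  · have := h2.fbF Λ lam (fun _ _ => 0) a (fun _ => 0) ha
      ⟨0, Eventually.of_forall fun _ => Nat.zero_le _⟩ ((hK.lab P g mm a _).1 hl)
      (Eventually.of_forall fun n => ⟨fun _ _ _ _ _ => rfl, fun _ _ => by simp⟩)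
    simp only [zero_mul, sub_zero] at this
    exact this

end Pool.Agent.MP_5168f5_an.R4.P0
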