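import Pool.Agent.MP_5168f5_an.R4.SpecP0

/-! Deterministic facts on one line. -/

namespace Pool.Agent.MP_5168f5_an.R4.P0

open H19 H17S H17F Filter Web Tan

namespace KLA

theorem ml {a b x y : ℝ} (h : |a| ≤ x) (h' : |b| ≤ y) : |a * b| ≤ x * y := by
  rw [abs_mul]; exact mul_le_mul h h' (abs_nonneg _) ((abs_nonneg _).trans h)

theorem vecL (A : Qd) (s H ε : ℝ) (w : V 3) (l : Fin 5) (hs : |s| ≤ ε) (hw : ∀ i, |w i| ≤ ε)
    (hH : ∀ i : Fin 4, |pf A (bv i.succ) (bv l)| ≤ H) : |pf A (vec s w) (bv l)| ≤ 4 * (ε * H) := by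
  rw [vec_eq]
  simp only [pf_add_left, pf_smul_left]
  have h1 := abs_le.1 (ml hs (hH 0))
  have h2 := abs_le.1 (ml (hw 0) (hH 1))
  have h3 := abs_le.1 (ml (hw 1) (hH 2))
  have h4 := abs_le.1 (ml (hw 2) (hH 3))
  exact abs_le.2 ⟨by linarith! [h1.1, h2.1, h3.1, h4.1], by linarith! [h1.2, h2.2, h3.2, h4.2]⟩

theorem bb (A : Qd) (B : ℝ) (h : ∀ i k, |A i k| ≤ B) (i l : Fin 5) :
    |pf A (bv i) (bv l)| ≤ 2 * B := by
  have e : pf A (bv i) (bv l) = A i l + A l i := by simp [pf, bv]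
  rw [e]
  linarith [abs_add_le (A i l) (A l i), h i l, h l i]

theorem hsub (t t' : ℝ) (p p' : V 3) : hom t p - hom t' p' = vec (t - t') (p - p') := by
  funext i; fin_cases i <;> simp [hom, vec]

theorem z4 (A : Qd) (h : ∀ i k, i = 4 ∨ k = 4 → A i k = 0) (Y : V 5) : pf A Y (bv 4) = 0 := by
  simp [pf, bv, dotProduct, Matrix.mulVec, Fin.sum_univ_five, h _ 4 (Or.inr rfl),
    h 4 _ (Or.inl rfl)]

theorem three {b k u h δ : ℝ} (hh : 0 < h) (u0 : 0 ≤ u) (u1 : u ≤ 3 * h)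
    (f : ∀ i : ℝ, i = 0 ∨ i = 1 ∨ i = 2 → |b * (i * h - u) - k * (i * h - u) ^ 2| ≤ δ) :
    |b| * h ≤ 14 * δ ∧ |k| * h ^ 2 ≤ 2 * δ := by
  have f0 := abs_le.1 (f 0 (by simp))
  have f1 := abs_le.1 (f 1 (by simp))
  have f2 := abs_le.1 (f 2 (by simp))
  have hk : |k * h ^ 2| ≤ 2 * δ := abs_le.2 ⟨by nlinarith, by nlinarith⟩
  have hk' : |k| * h ^ 2 ≤ 2 * δ := by rwa [abs_mul, abs_of_pos (pow_pos hh 2)] at hk
  refine ⟨?_, hk'⟩
  have h1 : |b * h - k * h * (h - 2 * u)| ≤ 2 * δ := abs_le.2 ⟨by nlinarith, by nlinarith⟩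
  have h2 : |k * h * (h - 2 * u)| ≤ |k| * h * (6 * h) :=
    ml (by rw [abs_mul, abs_of_pos hh]) (abs_le.2 ⟨by linarith, by linarith⟩)
  have h3 := abs_add_le (b * h - k * h * (h - 2 * u)) (k * h * (h - 2 * u))
  rw [sub_add_cancel, abs_mul, abs_of_pos hh] at h3
  nlinarith

end KLA

open KLA

theorem rowKL : KL where
  mkv := by
    intro Ω g A ω j δ hc
    have p2 : (0 : ℝ) < 2 ^ j := by positivity
    have δ0 : 0 ≤ δ := by simpa using hc (g.z ω) rfl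
    have hf : ∀ s : ℝ, (g.lt (g.z ω + s) ω 2 - ql g A ω (g.z ω + s)) -
        (g.lt (g.z ω) ω 2 - ql g A ω (g.z ω)) =
        (g.e ω 2 - pf A (g.hp ω) (vec 1 (g.e ω))) * s - qf A (vec 1 (g.e ω)) * s ^ 2 := by
      intro s
      simp only [ql, hom_lt, qf_add, qf_smul, pf_smul_right, Geo.hp, Geo.pt]
      simp only [Geo.lt, Pi.add_apply, Pi.smul_apply, smul_eq_mul]
      ring
    have a1 := fl1_le j (g.z ω)
    have a2 := lt_fl1 j (g.z ω)
    obtain ⟨h1, h2⟩ := three (b := g.e ω 2 - pf A (g.hp ω) (vec 1 (g.e ω)))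
      (k := qf A (vec 1 (g.e ω))) (u := g.z ω - (2 ^ j)⁻¹ * fl1 j (g.z ω))
      (h := (2 ^ j)⁻¹ / 3) (δ := δ) (by positivity) (by linarith) (by linarith) fun i hi => by
        rw [← hf]
        refine hc _ ?_
        have e : (2 : ℝ) ^ j * (g.z ω + (i * ((2 ^ j)⁻¹ / 3) -
            (g.z ω - (2 ^ j)⁻¹ * fl1 j (g.z ω)))) = fl1 j (g.z ω) + i / 3 := by
          field_simp; ring
        rw [fl1, e, Int.floor_eq_iff]
        rcases hi with rfl | rfl | rfl <;> constructor <;> linarith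
    have e4 : (4 : ℝ) ^ j = (2 ^ j) ^ 2 := by rw [← pow_mul, mul_comm, pow_mul]; norm_num
    rw [← le_div_iff₀ (by positivity)] at h1 h2
    refine ⟨h1.trans ?_, h2.trans ?_⟩
    · calc _ = 42 * 2 ^ j * δ := by field_simp; ring
        _ ≤ _ := by gcongr; norm_num
    · calc _ = 18 * (2 ^ j) ^ 2 * δ := by field_simp; ring
        _ ≤ _ := by rw [e4]; gcongr; norm_num
  lip := by
    intro A B ε t t' p p' l hA ht hp
    rw [← pf_sub_left, hsub]
    exact (vecL A _ _ ε _ l ht hp fun i => bb A B hA _ l).trans (le_of_eq (by ring))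
  bd := by
    intro A B ρ t p l hA hρ ht hp
    have e : hom t p = bv 0 + vec t p := by funext i; fin_cases i <;> simp [hom, vec, bv]
    have h1 := vecL A t _ ρ p l ht hp fun i => bb A B hA _ l
    have h2 := bb A B hA 0 l
    have B0 : 0 ≤ B := (abs_nonneg _).trans (hA 0 0)
    rw [e, pf_add_left]
    refine (abs_add_le _ _).trans ?_
    nlinarith
  fin := by
    intro Ω g A ω o j L s hL hs hA he ho h1 h2 h3 t ht
    have p2 : (0 : ℝ) < 2 ^ j := by positivity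
    have a1 := fl1_le j (g.z ω)
    have a2 := lt_fl1 j (g.z ω)
    have hz : |g.z ω - g.z0 j ω| ≤ L / 2 ^ j := by
      have : ((2 : ℝ) ^ j)⁻¹ ≤ L / 2 ^ j := by rw [← one_div]; gcongr
      rw [Geo.z0, abs_of_nonneg (by linarith)]; linarith
    have hd : ∀ l : Fin 4, |pf A (g.hp ω) (bv l.succ) - pf A (hom (g.z0 j ω) o) (bv l.succ)| ≤
        4 * (L ^ 2 * s) := fun l => by
      rw [← pf_sub_left, Geo.hp, hsub]
      refine (vecL A _ _ _ _ l.succ hz ho fun i => h3 i l).trans (le_of_eq ?_)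
      field_simp
    have e1 : pf A (g.hp ω) (vec 1 (g.e ω)) = pf A (g.hp ω) (bv 1) +
        g.e ω 0 * pf A (g.hp ω) (bv 2) + g.e ω 1 * pf A (g.hp ω) (bv 3) := by
      rw [vec_eq]; simp only [pf_add_right, pf_smul_right, z4 A hA]; ring
    have b1 := abs_le.1 (hd 0)
    have b2 := abs_le.1 (ml (he 0) (hd 1))
    have b3 := abs_le.1 (ml (he 1) h2)
    have b4 := abs_le.1 h1
    have c1 : L * s ≤ L ^ 3 * s := by gcongr; exact le_self_pow₀ hL (by norm_num)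
    have c2 : L ^ 2 * s ≤ L ^ 3 * s := by gcongr; norm_num
    have hb : |g.e ω 2 - pf A (hom (g.z0 j ω) o) (bv 1) -
        pf A (hom (g.z0 j ω) o) (bv 2) * g.e ω 0| ≤ 10 * L ^ 3 * s := by
      rw [e1] at b4
      exact abs_le.2 ⟨by linarith! [b1.1, b2.1, b3.1, b4.1], by linarith! [b1.2, b2.2, b3.2, b4.2]⟩
    have h5 := ml (abs_sub_lt_of_fl1_eq ht).le hb
    refine le_trans (le_of_eq ?_) (h5.trans (le_of_eq ?_))
    · congr 1
      simp only [Geo.lt, Pi.add_apply, Pi.smul_apply, smul_eq_mul]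
      ring
    · field_simp

end Pool.Agent.MP_5168f5_an.R4.P0
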