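import Pool.Agent.MP_5168f5_an.R4.SpecP0
import Pool.Agent.MP_5168f5_an.R4.P0Tool
import Pool.Agent.MP_5168f5_an.R4.NAll

/-! Product cells: quadrics gain nothing over planes. -/

namespace Pool.Agent.MP_5168f5_an.R4.P0

open H19 H17S H17F Filter Web Tan

namespace OptA

variable {Ω : ℕ → Type} {K : Mb Ω → Prop} {g : Gs 3 Ω} {M mm : ℕ → ℕ} {D : ∀ n, Td (Ω n)}
  {η γ : ℝ} {T : Finset (Fin 3)} {X : Mb Ω} {Λ : ℕ → Type} {lam : ∀ n, (X n).W → Λ n}
  {A : ∀ n, (X n).W → Qd} {L : ℕ → ℝ} {j ξ σ k : ℕ → ℕ}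

theorem hp_eq {W : Type} (g : Geo 3 W) (B : Qd) (ω : W) :
    pf B (hom 0 (g.lt 0 ω)) (bv 3) + pf B (vec 1 (g.e ω)) (bv 3) * g.z ω + 0 * g.z ω ^ 2 =
      pf B (g.hp ω) (bv 3) := by
  have := hom_lt g 0 (g.z ω) ω
  rw [zero_add] at this
  rw [Geo.hp, Geo.pt, this, pf_add_left, pf_smul_left]; ring

/-- The derivative in the direction of `f` and the Hessian are small. -/
theorem small (al : Alg3) (kl : KL) (h : Tn K g M mm D η 1 T) (hX : K X)
    (cell : Cell X.P (X.G g) M {0} 2 (fun n => (mD X D n).H) γ) (hj : OM M j) (hξ : OM M ξ)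
    (hσ : OM M σ) (hk : OM M k) (hl : ∀ i : ℕ → ℕ, OM M i → (∀ n, j n ≤ i n) →
      Lab X.P (X.G g) mm i fun n v => ((mD X D n).S (i n) v, lam n v)) (hL : Sub M L)
    (hA : ∀ᶠ n in UF, Fn (X n).Q (A n) (lam n))
    (e : ∀ᶠ n in UF, ((σ n + ξ n : ℕ) : ℝ) ≤ γ * (j n + ξ n : ℕ))
    (w : Whp X.P fun n v => (∀ i l, |A n v i l| ≤ 2 ^ k n ∧ (i = 4 ∨ l = 4 → A n v i l = 0)) ∧
      Cst (j n) ((X.G g n).z v) (fun t => (X.G g n).lt t v 2 - ql (X.G g n) (A n v) v t)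
        (L n / 2 ^ σ n)) :
    ∃ U, Sub M U ∧ Whp X.P fun n v =>
      |pf (A n v) ((X.G g n).hp v) (bv 3)| ≤ U n * (2 ^ j n / 2 ^ σ n) ∧ ∀ i l : Fin 4,
        |pf (A n v) (bv i.succ) (bv l.succ)| ≤ U n * 2 ^ j n * (2 ^ j n / 2 ^ σ n) := by
  obtain ⟨C, m, hC, alg⟩ := al
  have c := h.com X hX
  have hM := h.big
  obtain ⟨r, hr⟩ : ∃ r : ℕ → ℕ, r = fun n => j n + ξ n + (k n + σ n + M n) := ⟨_, rfl⟩
  have or : OM M r := hr ▸ (hj.add hξ).add ((hk.add hσ).add OM.rfl)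
  have lr := hl r or fun n => by simp only [hr]; omega
  obtain ⟨L0, s0, b0⟩ := h.bx hX
  obtain ⟨La, sa, wa⟩ := cell _ _ (hj.add hξ) e
  obtain ⟨Lb, sb, wb⟩ := c.ball r or
  obtain ⟨L1, s1, w1⟩ := winT X.P (X.G g) M j _
    (fun n v => pf (A n v) (hom 0 ((X.G g n).lt 0 v)) (bv 3))
    (fun n v => pf (A n v) (vec 1 ((X.G g n).e v)) (bv 3)) (fun _ _ => 0) hM
    (h.wful hX hj (hl j hj fun _ => le_rfl).h) (hA.mono fun n a x hx y hy u => by
      simp only [Geo.ln, Prod.mk.injEq] at u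
      simp only [Geo.lt, a x hx y hy u.2.2.2, u.2.1.1, u.2.1.2.1])
  obtain ⟨Lc, sc, wc⟩ := cp3 h hX or lr
  obtain ⟨Ls, ss, ws⟩ := sep K g mm 0 η X _ h.low hX lr.l
  have sU := (((s0.add hL hM).add (sa.add s1 hM) hM).add (sc.add (sub_up h.sm ss) hM) hM).const_mul
    hM (by norm_num : (1 : ℝ) ≤ 54)
  refine ⟨_, (sU.pow m).const_mul hM hC, whp_of_g3 (fun n v => ((mD X D n).S (r n) v, lam n v)) ?_⟩
  have w2 := Whp.all fun i => whp_sl (fun n v => ((mD X D n).S (r n) v, lam n v))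
    ((w.and wa).and (wb.and w1)) i
  have w3 : Whp (fun n => G3 (X n).Q fun v => ((mD X D n).S (r n) v, lam n v)) fun n v =>
      ∀ i l, i ≠ l → 1 ≤ Ls n * |(X.G g n).e (sl i v) 0 - (X.G g n).e (sl l v) 0| :=
    Whp.all fun i => Whp.all fun l => by
      by_cases u : i = l
      · exact Whp.of_ev (Eventually.of_forall fun _ _ _ d => absurd u d)
      · exact (whp_pair (F := fun n x y => 1 ≤ Ls n * |(X.G g n).e x 0 - (X.G g n).e y 0|) _ ws
          u).mono (Eventually.of_forall fun _ _ _ d _ => d)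
  refine (w2.and (w3.and wc)).mono ?_
  filter_upwards [b0, hA, c.nest, Sub.le_pow (sb.const_mul hM (by norm_num : (1 : ℝ) ≤ 16)) one_pos
    (R := M) (Eventually.of_forall fun n => (one_mul _).le)] with n b fA ns lb v hv ⟨x, y, z⟩
  have mem := mem_g3 hv
  have m0 := (mem 0).1
  have eS : ∀ i, (mD X D n).S (r n) (sl i v) = (mD X D n).S (r n) v.1.1 := fun i =>
    congrArg (·.1) (mem i).2
  have eA : ∀ i, A n (sl i v) = A n v.1.1 := fun i =>
    fA _ (mem i).1 _ m0 (congrArg (·.2) (mem i).2)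
  have eH : ∀ i, (mD X D n).H (j n + ξ n) (sl i v) = (mD X D n).H (j n + ξ n) v.1.1 := fun i =>
    congrArg (·.2.2.2.2) ((ns.2 _).2 _ (mem i).1 _ m0 (fn_nest (fun i => (ns.2 i).1)
      (by simp only [hr]; omega : j n + ξ n ≤ r n) _ (mem i).1 _ m0 (eS i)))
  have er := fun i => (ns.2 (r n)).2 _ (mem i).1 _ m0 (eS i)
  have p0 := s0.pos n
  have pL := hL.pos n
  have pa := sa.pos n
  have p1 := s1.pos n
  have pc := sc.pos n
  have ps := ss.pos n
  have pb := sb.1 n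
  have s0' : (0 : ℝ) < 2 ^ j n / 2 ^ σ n := by positivity
  have j0 : (0 : ℝ) < 2 ^ j n := by positivity
  refine alg (A n v.1.1) (fun i => (X.G g n).hp (sl i v)) (fun i => (X.G g n).e (sl i v))
    ((mD X D n).H (j n + ξ n) v.1.1).2.1 (((mD X D n).H (j n + ξ n) v.1.1).2.2 0) _ _ _ (sU.1 n)
    s0'.le j0.le (fun i l => ((x 0).1.1.1 i l).2)
    (fun i l => ((b.bd _ (mem i).1).1 l).2.trans (by linarith))
    (z.trans (mul_le_mul_of_nonneg_right (by linarith) (abs_nonneg _)))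
    (fun i l u => (y i l u).trans (mul_le_mul_of_nonneg_right (by linarith) (abs_nonneg _)))
    (fun i => ?_) (fun i l => ?_) (fun i => ?_) fun i => ?_
  · have a1 := abs_le.1 (kl.mkv (X.G g n) _ (sl i v) _ _ (x i).1.1.2).1
    have a2 := abs_le.1 ((kp.iff _ _ _ _ _ _ _ _).1 (x i).1.2).2
    rw [Fin.sum_univ_three, ((x i).1.2.2.1 1).2 (by decide), ((x i).1.2.2.1 2).2 (by decide),
      show 4 * La n * 2 ^ (j n + ξ n) / 2 ^ (σ n + ξ n) = 4 * (La n * (2 ^ j n / 2 ^ σ n)) by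
        rw [pow_add, pow_add]; field_simp, eH i] at a2
    rw [eA i, show 50 * 2 ^ j n * (L n / 2 ^ σ n) = 50 * (L n * (2 ^ j n / 2 ^ σ n)) by ring] at a1
    have a3 := mul_le_mul_of_nonneg_right (show 50 * L n + 4 * La n ≤
      54 * (L0 n + L n + (La n + L1 n) + (Lc n + Ls n)) by linarith) s0'.le
    exact abs_le.2 ⟨by linarith, by linarith⟩
  · have a0 : (1 : ℝ) / 2 ^ r n ≤ Lb n / 2 ^ r n := div_le_div_of_nonneg_right pb (by positivity)
    have a1 : (0 : ℝ) < 1 / 2 ^ r n := by positivity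
    refine (kl.lip _ (2 ^ k n) (2 * (Lb n / 2 ^ r n)) _ _ _ _ _ (fun i l => ((x 0).1.1.1 i l).1)
      ((abs_sub_lt_of_fl1_eq (congrArg (·.2.1) (er i))).le.trans (by rw [← one_div]; linarith))
      fun l => ?_).trans ?_
    · have a2 := abs_le.1 ((x i).2.1 l)
      have a3 := abs_le.1 ((x 0).2.1 l)
      rw [show (mD X D n).o (r n) (sl i v) = (mD X D n).o (r n) (sl 0 v) from
        congrArg (·.2.2.1) (er i)] at a2
      exact abs_le.2 ⟨by linarith, by linarith⟩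
    · have a2 : (1 : ℝ) ≤ 2 ^ j n * 2 ^ (j n + ξ n) := one_le_mul_of_one_le_of_one_le
        (one_le_pow₀ one_le_two) (one_le_pow₀ one_le_two)
      rw [show (8 : ℝ) * 2 ^ k n * (2 * (Lb n / 2 ^ r n)) = 16 * Lb n * 2 ^ k n / 2 ^ r n by ring,
        div_le_div_iff₀ (by positivity) (by positivity)]
      simp only [hr]
      calc 16 * Lb n * 2 ^ k n * 2 ^ σ n ≤ 2 ^ M n * 2 ^ k n * 2 ^ σ n := by gcongr
        _ ≤ 2 ^ j n * 2 ^ (j n + ξ n) * (2 ^ M n * 2 ^ k n * 2 ^ σ n) :=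
          le_mul_of_one_le_left (by positivity) a2
        _ = _ := by ring
  · have a1 := (kl.mkv _ _ _ _ _ (x i).1.1.2).2
    rw [eA i, show (50 : ℝ) * 4 ^ j n * (L n / 2 ^ σ n) = 50 * L n * 2 ^ j n * (2 ^ j n / 2 ^ σ n) by
      rw [show (4 : ℝ) = 2 * 2 by norm_num, mul_pow]; ring] at a1
    exact a1.trans (by gcongr ?_ * _ * _; linarith)
  · have a1 := (x i).2.2.1
    rw [hp_eq, mul_zero, zero_mul, add_zero, eA i] at a1
    exact a1.trans (by gcongr; linarith)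

/-- The tangent plane at the centre of the cell is as good as the quadric. -/
theorem key (al : Alg3) (kl : KL) (h : Tn K g M mm D η 1 T) (hX : K X)
    (cell : Cell X.P (X.G g) M {0} 2 (fun n => (mD X D n).H) γ)
    (opt : NoGain X.P (X.G g) M mm γ (fun _ _ B _ (d : ℝ × ℝ) _ => |d.1| ≤ B ∧ |d.2| ≤ B)
      fun n d ω t => (X.G g n).lt t ω 2 - d.1 * t - d.2 * (X.G g n).lt t ω 0)
    (hj : OM M j) (hξ : OM M ξ)
    (hσ : OM M σ) (hk : OM M k) (hl : ∀ i : ℕ → ℕ, OM M i → (∀ n, j n ≤ i n) →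
      Lab X.P (X.G g) mm i fun n v => ((mD X D n).S (i n) v, lam n v)) (hL : Sub M L)
    (hA : ∀ᶠ n in UF, Fn (X n).Q (A n) (lam n))
    (e : ∀ᶠ n in UF, ((σ n + ξ n : ℕ) : ℝ) ≤ γ * (j n + ξ n : ℕ))
    (w : Whp X.P fun n v => (∀ i l, |A n v i l| ≤ 2 ^ k n ∧ (i = 4 ∨ l = 4 → A n v i l = 0)) ∧
      Cst (j n) ((X.G g n).z v) (fun t => (X.G g n).lt t v 2 - ql (X.G g n) (A n v) v t)
        (L n / 2 ^ σ n)) : Le M (fun n => σ n) fun n => γ * j n := by
  obtain ⟨U, sU, wU⟩ := small al kl h hX cell hj hξ hσ hk hl hL hA e w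
  have c := h.com X hX
  have hM := h.big
  obtain ⟨L0, s0, b0⟩ := h.bx hX
  obtain ⟨Lj, sj, wj⟩ := c.ball j hj
  have sV := ((sU.add hL hM).add (s0.add sj hM) hM).const_mul hM (by norm_num : (1 : ℝ) ≤ 50)
  refine opt _ _ (fun n v => (pf (A n v) (hom ((X.G g n).z0 (j n) v) ((mD X D n).o (j n) v)) (bv 1),
    pf (A n v) (hom ((X.G g n).z0 (j n) v) ((mD X D n).o (j n) v)) (bv 2))) _ j σ
    (fun n => k n + M n) hj hσ (hk.add OM.rfl) (hl j hj fun _ => le_rfl)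
    ((sV.pow 3).const_mul hM (by norm_num : (1 : ℝ) ≤ 10)) ?_ ((w.and (wU.and wj)).mono ?_)
  · filter_upwards [hA, c.nest] with n a b x hx y hy u
    have u1 := (b.2 (j n)).2 x hx y hy (congrArg (·.1) u)
    simp only [Prod.mk.injEq] at u1
    simp only [Geo.z0, a x hx y hy (congrArg (·.2) u), u1.2.1, u1.2.2.1]
  · filter_upwards [b0, Sub.le_pow (sV.const_mul hM (by norm_num : (1 : ℝ) ≤ 10)) one_pos
      (R := M) (Eventually.of_forall fun n => (one_mul _).le)] with n b lb v hv ⟨x, y, z⟩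
    have p0 := s0.pos n
    have pL := hL.pos n
    have pU := sU.pos n
    have pj := sj.pos n
    have s0' : (0 : ℝ) < 2 ^ j n / 2 ^ σ n := by positivity
    have j1 : (1 : ℝ) ≤ 2 ^ j n := one_le_pow₀ one_le_two
    have bd : ∀ l, |pf (A n v) (hom ((X.G g n).z0 (j n) v) ((mD X D n).o (j n) v)) (bv l)| ≤
        2 ^ (k n + M n) := fun l => by
      refine (kl.bd _ (2 ^ k n) _ _ _ l (fun i l => (x.1 i l).1) (sV.1 n) (le_trans ?_ (sV.1 n))
        fun i => ?_).trans ?_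
      · have a1 := fl1_le (j n) ((X.G g n).z v)
        have a2 := lt_fl1 (j n) ((X.G g n).z v)
        have a3 := inv_le_one_of_one_le₀ j1
        have a4 := (b.bd v hv).2
        exact abs_le.2 ⟨by unfold Geo.z0; linarith, by unfold Geo.z0; linarith⟩
      · have a1 := abs_le.1 ((z i).trans (div_le_self pj.le j1))
        have a2 := abs_le.1 (SVT.abs_pt b hv i)
        exact abs_le.2 ⟨by linarith, by linarith⟩
      · rw [pow_add, mul_comm 10, mul_assoc]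
        exact mul_le_mul_of_nonneg_left lb (by positivity)
    refine ⟨⟨bd 1, bd 2⟩, fun t ht => (kl.fin _ _ _ _ _ _ _ (sV.1 n) s0'.le
      (fun i l => (x.1 i l).2) (fun i => ((b.bd v hv).1 i).2.trans (by linarith))
      (fun i => (z i).trans (by gcongr; linarith))
      ((kl.mkv _ _ _ _ _ x.2).1.trans ?_) (y.1.trans (by gcongr; linarith))
      (fun i l => (y.2 i l).trans (by gcongr; linarith)) t ht).trans (le_of_eq (by field_simp))⟩
    rw [show 50 * 2 ^ j n * (L n / 2 ^ σ n) = 50 * L n * (2 ^ j n / 2 ^ σ n) by ring]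
    gcongr; linarith

end OptA

open OptA in
theorem rowOptP : OfOptP := by
  intro al kl Ω K g M mm D η γ T X h hγ cell opt hX Λ lam A L j τ k hj hτ hk hl hL hA w
  by_contra hn
  obtain ⟨ε, ε0, hε⟩ := not_Le hn
  have γ0 : 0 < γ := one_pos.trans hγ
  have c0 : 0 < min 1 (ε / γ) := lt_min one_pos (by positivity)
  obtain ⟨f1, κ, κ0, f2⟩ := h.big.frac_floor c0 (min_le_left _ _)
  obtain ⟨ξ, hξ⟩ : ∃ ξ : ℕ → ℕ, ξ = fun n => ⌊min 1 (ε / γ) * M n⌋₊ := ⟨_, rfl⟩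
  have x1 : ∀ n, γ * ξ n ≤ ε * M n := fun n => by
    have a : (ξ n : ℝ) ≤ ε / γ * M n := hξ ▸ (Nat.floor_le (by positivity)).trans
      (mul_le_mul_of_nonneg_right (min_le_right _ _) (Nat.cast_nonneg _))
    rwa [div_mul_eq_mul_div, le_div_iff₀' γ0] at a
  have x2 : ∀ n, ⌊γ * (j n + ξ n : ℕ)⌋₊ - ξ n + ξ n = ⌊γ * (j n + ξ n : ℕ)⌋₊ := fun n =>
    Nat.sub_add_cancel ((Nat.le_add_left _ _).trans (Nat.le_floor
      (le_mul_of_one_le_left (Nat.cast_nonneg _) hγ.le)))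
  have x3 : ∀ n, ((⌊γ * (j n + ξ n : ℕ)⌋₊ - ξ n + ξ n : ℕ) : ℝ) ≤ γ * (j n + ξ n : ℕ) := fun n => by
    rw [x2]; exact Nat.floor_le (by positivity)
  have x4 : ∀ᶠ n in UF, ⌊γ * (j n + ξ n : ℕ)⌋₊ - ξ n ≤ τ n := hε.mono fun n a => by
    have b := x3 n
    have d := x1 n
    have : ((⌊γ * (j n + ξ n : ℕ)⌋₊ - ξ n + ξ n : ℕ) : ℝ) ≤ τ n := by
      refine b.trans ?_
      push_cast; linarith
    exact (Nat.le_add_right _ _).trans (by exact_mod_cast this)
  have hX' := h.cl.toCl0.fst hX fun n => (X.G g n).core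
  have kk := key (ξ := ξ) (σ := fun n => ⌊γ * (j n + ξ n : ℕ)⌋₊ - ξ n)
    (X := X.ext (fun n => glue (X n).Q (X n).Q (X.G g n).core (X.G g n).core) fun _ => Prod.fst)
    (lam := fun n v => lam n v.2) (A := fun n v => A n v.2) al kl h hX' (cell _ hX') (opt _ hX') hj
    (OM.rfl.mono (Eventually.of_forall (hξ ▸ f1))) (hτ.mono x4) hk
    (fun i hi u => hl.join ((h.com X hX).lab i hi) (Eventually.of_forall u)) hL
    (hA.mono fun n a => (kg.snd _ _ _ _ (Law.rfl _)).fn a) (Eventually.of_forall x3)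
    ((whp_snd (fun n => (X.G g n).core) w).mono (x4.mono fun n a v hv u => ⟨u.1, fun t ht => by
      have e := ((kg.mem _ _ _ _ v (Law.rfl _)).1 hv).2.2
      simp only [Geo.core, Geo.ln, Prod.mk.injEq] at e
      have u2 := u.2 t (by rw [e.2.1]; exact ht)
      simp only [ql, Geo.lt, e.1.1, e.1.2.1, e.2.1] at u2
      exact u2.trans (div_le_div_of_nonneg_left (hL.pos n).le (by positivity)
        (pow_le_pow_right₀ one_le_two a))⟩))
  have g1 : 0 < (γ - 1) * κ := mul_pos (sub_pos.2 hγ) κ0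
  refine kk.false h.big (half_pos g1) ?_
  filter_upwards [f2, h.big.ev (2 / ((γ - 1) * κ))] with n a b
  rw [div_le_iff₀ g1] at b
  have d := Nat.lt_floor_add_one (γ * (j n + ξ n : ℕ))
  rw [← x2] at d
  have a' : κ * M n ≤ ξ n := hξ ▸ a
  have a2 := mul_le_mul_of_nonneg_left a' (sub_pos.2 hγ).le
  push_cast [Nat.cast_add] at d ⊢
  linarith

end Pool.Agent.MP_5168f5_an.R4.P0
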