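import Pool.Agent.MP_5168f5_an.R4.SpecP0

/-! The exchange of the last two coordinates, and the reduction to the flat case. -/

namespace Pool.Agent.MP_5168f5_an.R4.P0

open H19 H17S H17F Filter Web Tan

namespace SwKA

variable {Ω α β β' γ γ' : Type} {P : FP Ω}

theorem mi_congr (F : Ω → α) {G : Ω → β} {G' : Ω → β'} {K : Ω → γ} {K' : Ω → γ'}
    (h : ∀ a b, G a = G b ↔ G' a = G' b) (h' : ∀ a b, K a = K b ↔ K' a = K' b) :
    mi P F G K = mi P F G' K' := by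
  unfold mi
  congr 1 <;> refine ch_congr (Fn.fst _ _) (Fn.fst _ _) (fun a _ b _ e => ?_) fun a _ b _ e => ?_
  exacts [(h' a b).2 e, (h' a b).1 e, by simpa [h, h'] using e, by simpa [h, h'] using e]

theorem sv_inj {u v : V 3} : sv u = sv v ↔ u = v :=
  ⟨fun h => by rw [← sv_sv u, h, sv_sv], congrArg _⟩

theorem ln_iff (g : Geo 3 Ω) (a b : Ω) : (sg g).ln a = (sg g).ln b ↔ g.ln a = g.ln b := by
  simp only [Geo.ln, Prod.mk.injEq, sv_inj]

theorem core_iff (g : Geo 3 Ω) (a b : Ω) :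
    (sg g).core a = (sg g).core b ↔ g.core a = g.core b := by
  simp only [Geo.core, Prod.mk.injEq]
  exact and_congr_left' (ln_iff g a b)

theorem hk (g : Geo 3 Ω) (j : ℕ) (lam : Ω → α) : (sg g).hk P j lam = g.hk P j lam :=
  mi_congr _ (core_iff g) fun a b => by
    simp only [Geo.win, Prod.mk.injEq]
    exact and_congr_left' (ln_iff g a b)

theorem lk (g : Geo 3 Ω) (lam : Ω → α) : (sg g).lk P lam = g.lk P lam :=
  mi_congr _ (core_iff g) fun _ _ => Iff.rfl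

theorem all3 {p : Fin 3 → Prop} (h0 : p 0) (h1 : p 1) (h2 : p 2) (i : Fin 3) : p i := by
  fin_cases i
  exacts [h0, h1, h2]

theorem fit {g : Geo 3 Ω} {k k' : Fin 3} (e : ∀ v : V 3, sv v k' = v k) {L : ℝ} {d : ℝ × ℝ × V 3}
    {ω : Ω} {j τ : ℕ} (h : (g.pl {0} k).fit L d ω j τ) :
    ((sg g).pl {0} k').fit L (sp d) ω j τ := by
  refine ⟨h.1, all3 (h.2.1 0) ⟨(h.2.1 2).1, fun _ => (h.2.1 2).2 (by decide)⟩
    ⟨(h.2.1 1).1, fun _ => (h.2.1 1).2 (by decide)⟩, fun t ht => ?_⟩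
  refine le_trans (le_of_eq ?_) (h.2.2 t ht)
  simp only [sg_lt, e, sp, Fin.sum_univ_three, sv0, sv1, sv2]
  congr 1
  ring

end SwKA

open SwKA

theorem rowSwK : SwK where
  lab := fun P g m j lam => by
    constructor <;> exact fun h => ⟨by simpa only [Hk, hk] using h.h, by simpa only [lk] using h.l⟩
  cls := fun K g M η h => ⟨h.cl0, h.pos, fun X hX => by
    obtain ⟨b1, ⟨L, hL, b2⟩, b3, b4⟩ := h.bs X hX
    refine ⟨b1, ⟨L, hL, b2.mono fun n b => ⟨fun ω hω => ⟨all3 ((b.bd ω hω).1 0)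
      ((b.bd ω hω).1 2) ((b.bd ω hω).1 1), (b.bd ω hω).2⟩, b.fz, b.fθ⟩⟩,
      b3.mono (.of_forall fun n => le_of_eq ?_), b4⟩
    exact mi_congr _ (ln_iff (X.G g n)) fun _ _ => Iff.rfl, h.br⟩
  c21 := fun P g M d wt h a τ ha hτ => (h a τ ha hτ).imp fun L k =>
    ⟨k.1, k.2.mono (.of_forall fun n ω _ => fit sv1)⟩
  c12 := fun P g M d wt h a τ ha hτ => (h a τ ha hτ).imp fun L k =>
    ⟨k.1, k.2.mono (.of_forall fun n ω _ => fit sv2)⟩

theorem rowCP0 : OfCP0 := by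
  intro sw hC hN hO hA Ω K g M mm D η γ d ε₀ h c _
  obtain ⟨rfl, c⟩ := c
  have tn : Tn K (sG g) M mm (sD D) η 1 {0, 1} :=
    ⟨h.cl, h.ne, h.sm, sw.cls _ _ _ _ h.low, fun C hC => sw.cls _ _ _ _ (h.cls C hC), le_rfl,
      fun X hX => hC _ _ _ _ _ _ _ _ c (h.com X hX) (h.fl X hX)⟩
  have ce := fun X hX => sw.c12 _ _ _ _ _ (h.com X hX).cellU
  refine hA K (sG g) M mm (sD D) η γ (ε₀ / γ) ⟨tn, c.le, ⟨div_pos h.e0.1 (by linarith),
    (div_le_one (by linarith)).2 (by linarith [h.e0.2])⟩, fun X hX => ⟨fun a τ ha hτ => ?_,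
      fun Λ lam A L j τ k h1 h2 h3 h4 h5 h6 h7 => ?_, fun q q' r hr hq => ?_⟩⟩
  · refine (ce X hX a τ ha hτ).imp fun L k => ⟨k.1, k.2.mono (.of_forall fun n ω _ e =>
      ⟨e.1, fun i => ⟨(e.2.1 i).1, fun hi => (e.2.1 i).2 fun hi' => hi ?_⟩, e.2.2⟩)⟩
    exact Finset.mem_insert.2 (.inl (Finset.mem_singleton.1 hi'))
  · exact hO K (sG g) M mm (sD D) η γ _ X tn c ce (fun X hX Λ lam A L j τ k h1 h2 h3 h4 =>
      (h.com X hX).optU Λ lam A L j τ k h1 h2 h3 ((sw.lab _ (X.G g) _ _ _).1 h4)) hX Λ lam A L j τ k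
      h1 h2 h3 h4 h5 h6 (h7.mono (.of_forall fun n ω _ e => ⟨e.1.1, e.2⟩))
  · exact hN _ _ _ _ _ _ _ _ _ h.toTn.big (h.toTn.bx hX) c.le h.e0.1.le (h.com X hX) (h.fl X hX)
      q q' r hr (hq.mono fun n e => ⟨e.1, by exact_mod_cast (one_mul _).symm.trans_le e.2⟩)

end Pool.Agent.MP_5168f5_an.R4.P0
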