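import Pool.Agent.MP_5168f5_an.R4.P0NG
import Pool.Agent.MP_5168f5_an.R4.P0Alg
import Pool.Agent.MP_5168f5_an.R4.P0KL
import Pool.Agent.MP_5168f5_an.R4.P0Com
import Pool.Agent.MP_5168f5_an.R4.P0SwK
import Pool.Agent.MP_5168f5_an.R4.P0Opt
import Pool.Agent.MP_5168f5_an.R4.DCAF

/-! Products with `f` of weight one: the case reduces to the first adapter. -/

namespace Pool.Agent.MP_5168f5_an.R4.P0

open Tan

theorem cp0 (h : CAF) : CP0 :=
  rowCP0 rowSwK (rowSwCom rowSwK) rowSwNG (rowOptP rowAlg3 rowKL) h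

theorem cp0u (h : UB) : CP0 := cp0 (rowCAF h)

end Pool.Agent.MP_5168f5_an.R4.P0
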