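import Pool.Agent.MP_5168f5_an.R4.T21a
import Pool.Agent.MP_5168f5_an.R4.SpecTAN3

/-! Kakeya sets in four dimensions, equal weights: fill for covectors. -/

namespace Pool.Agent.MP_5168f5_an.R4.B1

open H19 H17S H17F Filter K31 Tan

variable {Ω : ℕ → Type} {K : Mb Ω → Prop} {g : Gs 3 Ω} {M mm : ℕ → ℕ} {D : ∀ n, Td (Ω n)}
  {η γ d ε₀ : ℝ} {T : Finset (Fin 3)} {X : Mb Ω}

/-- A lower bound for an average of two terms. -/
theorem le_split {p u v f B : ℕ → ℝ} {C : ℝ}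
    (e : ∀ᶠ n in UF, 0 ≤ p n ∧ p n ≤ 1 ∧ 0 ≤ u n ∧ 0 ≤ v n ∧ B n ≤ C * M n ∧
      p n * u n + (1 - p n) * v n ≤ f n)
    (h1 : (∃ κ : ℝ, 0 < κ ∧ ∀ᶠ n in UF, κ ≤ p n) → Le M B u)
    (h2 : (∃ κ : ℝ, 0 < κ ∧ ∀ᶠ n in UF, κ ≤ 1 - p n) → Le M B v) : Le M B f := by
  have key : ∀ p u : ℕ → ℝ, (∀ᶠ n in UF, 0 ≤ p n ∧ p n ≤ 1 ∧ 0 ≤ u n ∧ B n ≤ C * M n) →
      ((∃ κ : ℝ, 0 < κ ∧ ∀ᶠ n in UF, κ ≤ p n) → Le M B u) →
      Le M (fun n => p n * B n) fun n => p n * u n := fun p u e h ε hε => by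
    have c0 : 0 < ε / (|C| + 1) := by positivity
    rcases ev_em fun n => ε / (|C| + 1) ≤ p n with k | k
    · exact (h ⟨_, c0, k⟩).bmul (e.mono fun n a => ⟨a.1, a.2.1⟩) ε hε
    · filter_upwards [e, k] with n a b
      have m0 := Nat.cast_nonneg (α := ℝ) (M n)
      have b1 : B n ≤ (|C| + 1) * M n := a.2.2.2.trans (mul_le_mul_of_nonneg_right
        ((le_abs_self C).trans (le_add_of_nonneg_right zero_le_one)) m0)
      have b2 := (mul_le_mul_of_nonneg_left b1 a.1).trans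
        (mul_le_mul_of_nonneg_right (not_le.1 b).le (by positivity))
      rw [← mul_assoc, div_mul_cancel₀ _ (by positivity)] at b2
      nlinarith [mul_nonneg a.1 a.2.2.1]
  exact (key p u (e.mono fun n a => ⟨a.1, a.2.1, a.2.2.1, a.2.2.2.2.1⟩) h1).of2
    (key (fun n => 1 - p n) v (e.mono fun n a =>
      ⟨by linarith [a.2.1], by linarith [a.1], a.2.2.2.1, a.2.2.2.2.1⟩) h2)
    (e.mono fun n a => by linarith [a.2.2.2.2.2])

variable {Λ : ℕ → Type} {lam : ∀ n, (X n).W → Λ n} {μ ν : ∀ n, (X n).W → ℝ} {a : ℕ → ℕ}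
  {L : ℕ → ℝ}

theorem lin_near {μ ν u f L : ℝ} (p : ℕ) (h : |μ| ≤ L) (h' : |ν| ≤ L) :
    |μ * u + ν * f - (μ * U.rd p u + ν * U.rd p f)| ≤ 2 * L / 2 ^ p := by
  have e1 := mul_le_mul h (U.abs_sub_rd p u) (abs_nonneg _) ((abs_nonneg _).trans h)
  have e2 := mul_le_mul h' (U.abs_sub_rd p f) (abs_nonneg _) ((abs_nonneg _).trans h)
  rw [← abs_mul] at e1 e2
  rw [show μ * u + ν * f - (μ * U.rd p u + ν * U.rd p f) =
    μ * (u - U.rd p u) + ν * (f - U.rd p f) by ring,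
    show 2 * L / 2 ^ p = L * (1 / 2 ^ p) + L * (1 / 2 ^ p) by ring]
  exact (abs_add_le _ _).trans (add_le_add e1 e2)

/-- The coefficient of `f` is not small. -/
theorem fb_big (h : T2 K g M mm D η d d ε₀) (hX : K X) (ha : OM M a)
    (hl : Lab X.P (X.G g) mm a lam) (hL : Sub M L) {k q q' r : ℕ → ℕ} (ok : OM M k)
    (oq : OM M q') (hr : OM M r)
    (e : ∀ᶠ n in UF, (d * a n ≤ q n ∧ q n ≤ q' n) ∧ Fn (X n).Q (fun ω => (μ n ω, ν n ω)) (lam n) ∧
      ∀ ω ∈ (X n).Q.S, |μ n ω| ≤ L n ∧ |ν n ω| ≤ L n ∧ 1 ≤ 2 ^ k n * |ν n ω|) :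
    Le M (fun n => (q' n - q n - k n : ℝ) * lg) fun n => ch (X n).Q
      (fun ω => fl1 (q' n) (μ n ω * (X.G g n).pt ω 1 + ν n ω * (X.G g n).pt ω 2)) fun ω =>
      (fl1 (q n) (μ n ω * (X.G g n).pt ω 1 + ν n ω * (X.G g n).pt ω 2),
        fl1 (r n) ((X.G g n).pt ω 0), lam n ω, (X.G g n).zt ω) := by
  have hM := h.toTn.big
  have n0 : ∀ {n ω}, 1 ≤ 2 ^ k n * |ν n ω| → ν n ω ≠ 0 := fun b z => by
    rw [z, abs_zero, mul_zero] at b; linarith
  have k1 := (h.fl X hX).fbF Λ lam (fun n ω => -(μ n ω / ν n ω)) a (fun n => k n + M n) ha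
    (ok.add OM.rfl) hl (by
      filter_upwards [e, Sub.le_pow hL one_pos (Eventually.of_forall fun n => (one_mul _).le)]
        with n u v
      refine ⟨(Fn.comp (fun x : ℝ × ℝ => -(x.1 / x.2)) _).trans u.2.1, fun ω hω => ?_⟩
      rw [abs_neg, pow_add]
      exact abs_div_le ((u.2.2 ω hω).1.trans v) (u.2.2 ω hω).2.2)
    q (fun n => max (q n) (q' n - k n)) r
    (oq.mono (e.mono fun n u => max_le u.1.2 (Nat.sub_le _ _))) hr
    (e.mono fun n u => ⟨u.1.1, le_max_left _ _⟩)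
  refine Le.trans (Le.of_le fun n => mul_le_mul_of_nonneg_right ?_ lg_pos.le) (k1.trans (ND.le
    (ND.sure (c := fun n ω => if q' n - k n ≤ q n then
        U.rd (q n) ((X.G g n).pt ω 2 - -(μ n ω / ν n ω) * (X.G g n).pt ω 1) else
        U.rd (q' n) (μ n ω * (X.G g n).pt ω 1 + ν n ω * (X.G g n).pt ω 2) / ν n ω) hM
      (hM.sub le_rfl) (e.mono fun n u => ⟨fun x hx y hy s => ?_, fun ω hω => ?_⟩))
    ((ND.sure (c := fun n ω => ν n ω *
        U.rd (q n) ((X.G g n).pt ω 2 - -(μ n ω / ν n ω) * (X.G g n).pt ω 1)) hM hL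
      (e.mono fun n u => ⟨fun x hx y hy s => ?_, fun ω hω => ?_⟩)).pair
      (ND.of_fn (Eventually.of_forall fun n => Fn.snd _ _)))))
  · have : q' n ≤ max (q n) (q' n - k n) + k n := by omega
    have : (q' n : ℝ) ≤ max (q n) (q' n - k n) + k n := by exact_mod_cast this
    linarith
  · simp only [Prod.mk.injEq] at s
    have := congrArg Prod.snd (u.2.1 x hx y hy s.2.2.2.1)
    simp only at this
    beta_reduce
    rw [U.rd_congr s.1, U.rd_congr s.2.1, this]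
  · split_ifs with c
    · rw [max_eq_left c]; exact U.abs_sub_rd _ _
    · have b := (u.2.2 ω hω).2.2
      have c := (not_le.1 c).le
      have := abs_div_le (U.abs_sub_rd (q' n)
        (μ n ω * (X.G g n).pt ω 1 + ν n ω * (X.G g n).pt ω 2)) b
      rw [max_eq_right c]
      refine le_trans (le_of_eq (congrArg _ ?_)) (this.trans ?_)
      · have := n0 b
        field_simp; ring
      · rw [mul_one_div, div_le_div_iff₀ (by positivity) (by positivity), one_mul, ← pow_add]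
        exact pow_le_pow_right₀ one_le_two (by omega)
  · simp only [Prod.mk.injEq] at s
    have := congrArg Prod.snd (u.2.1 x hx y hy s.2.2.1)
    simp only at this
    beta_reduce
    rw [U.rd_congr s.1, this]
  · have b := u.2.2 ω hω
    have := mul_le_mul b.2.1 (U.abs_sub_rd (q n)
      ((X.G g n).pt ω 2 - -(μ n ω / ν n ω) * (X.G g n).pt ω 1)) (abs_nonneg _) (hL.pos n).le
    rw [← abs_mul, mul_one_div] at this
    refine le_trans (le_of_eq (congrArg _ ?_)) this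
    have := n0 b.2.2
    field_simp; ring

/-- The coefficient of `f` is small: one short window. -/
theorem fb_step (h : T2 K g M mm D η d d ε₀) (hX : K X) (hl : Lab X.P (X.G g) mm a lam)
    (hL : Sub M L) {k p p' r : ℕ → ℕ} (hr : OM M r)
    (e : ∀ᶠ n in UF, (d * a n ≤ p n ∧ p n ≤ p' n ∧ p' n ≤ p n + k n ∧ p' n ≤ r n) ∧
      Fn (X n).Q (fun ω => (μ n ω, ν n ω)) (lam n) ∧
      ∀ ω ∈ (X n).Q.S, |μ n ω| ≤ L n ∧ 1 ≤ L n * |μ n ω| ∧ |ν n ω| ≤ 1 / 2 ^ k n) :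
    Le M (fun n => (p' n - p n : ℝ) * lg) fun n => ch (X n).Q
      (fun ω => fl1 (p' n) (μ n ω * (X.G g n).pt ω 1 + ν n ω * (X.G g n).pt ω 2)) fun ω =>
      (fl1 (p n) (μ n ω * (X.G g n).pt ω 1 + ν n ω * (X.G g n).pt ω 2),
        fl1 (r n) ((X.G g n).pt ω 0), lam n ω, (X.G g n).zt ω) := by
  have hM := h.toTn.big
  have d0 : 0 < d := one_pos.trans_le h.dge
  obtain ⟨c, c1, c2⟩ : ∃ c : ℕ → ℕ, (∀ n, d * c n ≤ p n) ∧ ∀ n, p n / d < c n + 1 :=
    ⟨fun n => ⌊p n / d⌋₊, fun n => by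
      rw [← le_div_iff₀' d0]; exact Nat.floor_le (by positivity), fun n => Nat.lt_floor_add_one _⟩
  have op : OM M p' := hr.mono (e.mono fun n u => u.1.2.2.2)
  have oc : OM M c := op.mono (e.mono fun n u => by
    have : (c n : ℝ) ≤ p n := (le_mul_of_one_le_left (Nat.cast_nonneg _) h.dge).trans (c1 n)
    exact le_trans (by exact_mod_cast this) u.1.2.1)
  have hZ := h.cl.toCl0.fst hX fun n => (X.G g n).core
  have lab := Lab.join hl ((h.com X hX).lab c oc) (e.mono fun n u => by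
    have : (a n : ℝ) ≤ p n / d := by rw [le_div_iff₀' d0]; exact u.1.1
    exact Nat.lt_add_one_iff.1 (by exact_mod_cast this.trans_lt (c2 n)))
  have k1 := (h.com _ hZ).fbU _ _ c oc lab p p' r op hr (e.mono fun n u => ⟨c1 n, u.1.2.1⟩)
  obtain ⟨L₀, hL₀, bx⟩ := h.toTn.bx hZ
  have k2 := cell0_pt (p := p) (G := fun n (v : (X n).W × (X n).W) =>
      (fl1 (p n) ((X.G g n).pt v.1 1), fl1 (r n) ((X.G g n).pt v.1 0),
        ((mD X D n).S (c n) v.1, lam n v.2), (X.G g n).zt v.1))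
    ((h.fl _ hZ).cellP le_rfl) hM d0.le oc hr ((hM.sm d).of_sub (Eventually.of_forall fun n => by
      have := c2 n
      rw [div_lt_iff₀' d0] at this; linarith)) hL₀ (by
      filter_upwards [e, bx, (h.com _ hZ).nest] with n u v w
      refine ⟨u.1.2.1.trans u.1.2.2.2, v, fun x hx y hy s => ?_⟩
      simp only [Geo.zt, Prod.mk.injEq] at s
      exact Prod.ext (congrArg (·.2.2.2.2) ((w.2 (c n)).2 x hx y hy s.2.2.1.1))
        (Prod.ext s.2.1 s.2.2.2.1))
  have mem : ∀ {n} {v : (X n).W × (X n).W},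
      v ∈ (glue (X n).Q (X n).Q (X.G g n).core (X.G g n).core).S → v.2 ∈ (X n).Q.S :=
    fun hv => ((U.mem_copy _ _ _).1 hv).2.1
  have k3 := ND.le (M := M) (P := fun n => glue (X n).Q (X n).Q (X.G g n).core (X.G g n).core)
    (F := fun n v => fl1 (p' n) ((X.G g n).pt v.1 1))
    (F' := fun n v => fl1 (p' n) (μ n v.2 * (X.G g n).pt v.1 1 + ν n v.2 * (X.G g n).pt v.1 2))
    (G := fun n v => (fl1 (p n) ((X.G g n).pt v.1 1), fl1 (r n) ((X.G g n).pt v.1 0),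
        ((mD X D n).S (c n) v.1, lam n v.2), (X.G g n).zt v.1))
    (G' := fun n v => (fl1 (p n) (μ n v.2 * (X.G g n).pt v.1 1 + ν n v.2 * (X.G g n).pt v.1 2),
        fl1 (r n) ((X.G g n).pt v.1 0), lam n v.2, (X.G g n).zt v.1))
    (ND.cut (k2.anti (Eventually.of_forall fun n => Fn.snd _ _))
      (ND.sure (c := fun n v => (U.rd (p' n) (μ n v.2 * (X.G g n).pt v.1 1 +
        ν n v.2 * (X.G g n).pt v.1 2) - ν n v.2 * U.rd (p n) ((X.G g n).pt v.1 2)) / μ n v.2) hM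
        (hL.const_mul hM one_le_two) (e.mono fun n u => ⟨fun x hx y hy s => ?_, fun v hv => ?_⟩)))
    ((ND.cut k2 (ND.sure (c := fun n v => μ n v.2 * U.rd (p n) ((X.G g n).pt v.1 1) +
        ν n v.2 * U.rd (p n) ((X.G g n).pt v.1 2)) hM (hL.const_mul hM one_le_two)
        (e.mono fun n u => ⟨fun x hx y hy s => ?_, fun v hv => ?_⟩))).pair
      (ND.of_fn (Eventually.of_forall fun n x _ y _ s => ?_)))
  · refine (k1.trans k3).congr (Eventually.of_forall fun _ => rfl) (Eventually.of_forall fun n => ?_)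
    have ep : ∀ v ∈ (glue (X n).Q (X n).Q (X.G g n).core (X.G g n).core).S,
        (X.G g n).pt v.1 = (X.G g n).pt v.2 ∧ (X.G g n).zt v.1 = (X.G g n).zt v.2 := fun v hv => by
      have x3 := ((U.mem_copy _ _ v).1 hv).2.2
      simp only [Geo.core, Geo.ln, Prod.mk.injEq] at x3
      simp only [Geo.pt, Geo.lt, Geo.zt, x3.1.1, x3.1.2.1, x3.1.2.2, x3.2.1, and_self]
    rw [← (kg.snd (X n).Q (X n).Q (X.G g n).core (X.G g n).core (Law.rfl _)).ch_id]
    exact ch_ext (fun v hv => by rw [(ep v hv).1]) fun v hv => by rw [(ep v hv).1, (ep v hv).2]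
  · simp only [Prod.mk.injEq] at s
    have := u.2.1 _ (mem hx) _ (mem hy) s.2.2.2.2.1.2
    simp only [Prod.mk.injEq] at this
    have s1 : fl1 (p n) ((X.G g n).pt x.1 2) = fl1 (p n) ((X.G g n).pt y.1 2) := s.1
    beta_reduce
    rw [U.rd_congr s.2.1, U.rd_congr s1, this.1, this.2]
  · obtain ⟨-, b2, b3⟩ := u.2.2 _ (mem hv)
    have e1 := U.abs_sub_rd (p' n) (μ n v.2 * (X.G g n).pt v.1 1 + ν n v.2 * (X.G g n).pt v.1 2)
    have e2 := mul_le_mul b3 (U.abs_sub_rd (p n) ((X.G g n).pt v.1 2)) (abs_nonneg _)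
      (by positivity)
    rw [← abs_mul, one_div_mul_one_div, ← pow_add] at e2
    have e3 := (abs_sub _ _).trans (add_le_add e1
      (e2.trans (U.div_pow_le zero_le_one (by omega : p' n ≤ k n + p n))))
    have m0 : μ n v.2 ≠ 0 := fun z => by rw [z, abs_zero, mul_zero] at b2; linarith
    refine le_trans (le_of_eq (congrArg _ ?_)) ((abs_div_le e3 b2).trans (le_of_eq (by ring)))
    field_simp; ring
  · simp only [Prod.mk.injEq] at s
    have := u.2.1 _ (mem hx) _ (mem hy) s.2.2.2.1.2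
    simp only [Prod.mk.injEq] at this
    have s1 : fl1 (p n) ((X.G g n).pt x.1 2) = fl1 (p n) ((X.G g n).pt y.1 2) := s.1
    beta_reduce
    rw [U.rd_congr s.2.1, U.rd_congr s1, this.1, this.2]
  · obtain ⟨b1, -, b3⟩ := u.2.2 _ (mem hv)
    exact lin_near _ b1 (b3.trans ((div_le_one_of_le₀ (one_le_pow₀ one_le_two)
      (by positivity)).trans (hL.1 n)))
  · simp only [Prod.mk.injEq] at s ⊢
    tauto

/-- The coefficient of `f` is small. -/
theorem fb_small (h : T2 K g M mm D η d d ε₀) (hX : K X) (hl : Lab X.P (X.G g) mm a lam)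
    (hL : Sub M L) {k q q' r : ℕ → ℕ} (hr : OM M r)
    (e : ∀ᶠ n in UF, (d * a n ≤ q n ∧ q n ≤ q' n ∧ q' n ≤ r n) ∧
      Fn (X n).Q (fun ω => (μ n ω, ν n ω)) (lam n) ∧
      ∀ ω ∈ (X n).Q.S, |μ n ω| ≤ L n ∧ 1 ≤ L n * |μ n ω| ∧ |ν n ω| ≤ 1 / 2 ^ k n) (i : ℕ) :
    Le M (fun n => ((min (q' n) (q n + i * k n) : ℕ) - q n : ℝ) * lg) fun n => ch (X n).Q
      (fun ω => fl1 (min (q' n) (q n + i * k n))
        (μ n ω * (X.G g n).pt ω 1 + ν n ω * (X.G g n).pt ω 2)) fun ω =>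
      (fl1 (q n) (μ n ω * (X.G g n).pt ω 1 + ν n ω * (X.G g n).pt ω 2),
        fl1 (r n) ((X.G g n).pt ω 0), lam n ω, (X.G g n).zt ω) := by
  induction i with
  | zero => exact Le.of_ev (e.mono fun n u => by
      rw [zero_mul, add_zero, min_eq_right u.1.2.1, sub_self, zero_mul]; exact ch_nonneg _ _)
  | succ i ih =>
    have k1 := fb_step (k := k) (p := fun n => min (q' n) (q n + i * k n))
      (p' := fun n => min (q' n) (q n + (i + 1) * k n)) h hX hl hL hr (e.mono fun n u =>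
        ⟨⟨u.1.1.trans (by exact_mod_cast le_min u.1.2.1 (Nat.le_add_right _ _)),
          by rw [add_mul]; omega, by rw [add_mul]; omega, (min_le_left _ _).trans u.1.2.2⟩, u.2⟩)
    refine ih.of2 k1 (e.mono fun n u => ?_)
    have s1 := ch_chain (P := (X n).Q) (fun ω => fl1 (min (q' n) (q n + i * k n))
        (μ n ω * (X.G g n).pt ω 1 + ν n ω * (X.G g n).pt ω 2))
      (fun ω => fl1 (min (q' n) (q n + (i + 1) * k n))
        (μ n ω * (X.G g n).pt ω 1 + ν n ω * (X.G g n).pt ω 2)) fun ω =>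
      (fl1 (q n) (μ n ω * (X.G g n).pt ω 1 + ν n ω * (X.G g n).pt ω 2),
        fl1 (r n) ((X.G g n).pt ω 0), lam n ω, (X.G g n).zt ω)
    have s2 := s1.ge.trans (ch_mono (F' := fun ω => fl1 (min (q' n) (q n + (i + 1) * k n))
        (μ n ω * (X.G g n).pt ω 1 + ν n ω * (X.G g n).pt ω 2)) fun x _ y _ s =>
      Prod.ext (fl1_eq_of_le (by rw [add_mul]; omega) (congrArg Prod.fst s)) (congrArg Prod.fst s))
    have s3 := ch_anti (P := (X n).Q) (F := fun ω => fl1 (min (q' n) (q n + (i + 1) * k n))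
        (μ n ω * (X.G g n).pt ω 1 + ν n ω * (X.G g n).pt ω 2))
      (G := fun ω => (fl1 (min (q' n) (q n + i * k n))
        (μ n ω * (X.G g n).pt ω 1 + ν n ω * (X.G g n).pt ω 2),
        fl1 (q n) (μ n ω * (X.G g n).pt ω 1 + ν n ω * (X.G g n).pt ω 2),
        fl1 (r n) ((X.G g n).pt ω 0), lam n ω, (X.G g n).zt ω))
      (G' := fun ω => (fl1 (min (q' n) (q n + i * k n))
        (μ n ω * (X.G g n).pt ω 1 + ν n ω * (X.G g n).pt ω 2),
        fl1 (r n) ((X.G g n).pt ω 0), lam n ω, (X.G g n).zt ω)) fun x _ y _ s => by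
      simp only [Prod.mk.injEq] at s ⊢
      exact ⟨s.1, fl1_eq_of_le (le_min u.1.2.1 (Nat.le_add_right _ _)) s.1, s.2⟩
    linarith

theorem t21_fb (h : T2 K g M mm D η d d ε₀) (hX : K X) (ha : OM M a)
    (hl : Lab X.P (X.G g) mm a lam) (hL : Sub M L)
    (e : ∀ᶠ n in UF, Fn (X n).Q (fun ω => (μ n ω, ν n ω)) (lam n) ∧ ∀ ω ∈ (X n).Q.S,
      |μ n ω| ≤ L n ∧ |ν n ω| ≤ L n ∧ (1 ≤ L n * |μ n ω| ∨ 1 ≤ L n * |ν n ω|)) :
    Fill X.P (X.G g) M lam
      (fun n ω => μ n ω * (X.G g n).pt ω 1 + ν n ω * (X.G g n).pt ω 2) d a := by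
  intro q q' r oq hr e'
  have hM := h.toTn.big
  refine Le.trans (g := fun n => ch (X n).Q
      (fun ω => fl1 (q' n) (μ n ω * (X.G g n).pt ω 1 + ν n ω * (X.G g n).pt ω 2)) fun ω =>
      (fl1 (q n) (μ n ω * (X.G g n).pt ω 1 + ν n ω * (X.G g n).pt ω 2),
        fl1 (r n + q' n) ((X.G g n).pt ω 0), lam n ω, (X.G g n).zt ω)) (Le.eps fun ε hε => ?_)
    (Le.of_le fun n => ch_anti fun x _ y _ s => Prod.ext (congrArg (·.1) s) (Prod.ext
      (fl1_eq_of_le (Nat.le_add_right _ _) (congrArg (·.2.1) s)) (congrArg (·.2.2) s)))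
  obtain ⟨C, hC⟩ := om_cast oq
  have k1 : ∀ᶠ n in UF, ε / 2 * M n ≤ lev M ε n := (hM.sm 1 _ (half_pos hε)).mono fun n a => by
    linarith [lt_lev M ε n]
  have ok : OM M (lev M ε) := om_of (Eventually.of_forall (lev_le' M hε.le))
  have key := le_split (M := M) (C := C)
    (B := fun n => (q' n - q n - lev M ε n : ℝ) * lg) (by
      filter_upwards [e, hC] with n u v
      refine ⟨pb_nonneg _ _, pb_le_one _ _, ch_nonneg _ _, ch_nonneg _ _, ?_,
        (ke.eq (X n).Q (fun ω => 1 ≤ 2 ^ lev M ε n * |ν n ω|)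
          (fun ω => fl1 (q' n) (μ n ω * (X.G g n).pt ω 1 + ν n ω * (X.G g n).pt ω 2))
          (fun ω => (fl1 (q n) (μ n ω * (X.G g n).pt ω 1 + ν n ω * (X.G g n).pt ω 2),
            fl1 (r n + q' n) ((X.G g n).pt ω 0), lam n ω, (X.G g n).zt ω)) fun x hx y hy s => by
          have := congrArg Prod.snd (u.1 x hx y hy (congrArg (·.2.2.1) s))
          simp only at this
          beta_reduce
          rw [this]).ge⟩
      nlinarith [lg_pos, lg_lt_one, Nat.cast_nonneg (α := ℝ) (q n),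
        Nat.cast_nonneg (α := ℝ) (q' n), Nat.cast_nonneg (α := ℝ) (lev M ε n)])
    (fun hE => ?_) fun hE => ?_
  · refine key.of_sub (Eventually.of_forall fun n => ?_)
    nlinarith [lg_pos, lg_lt_one, lev_le' M hε.le n, Nat.cast_nonneg (α := ℝ) (lev M ε n)]
  · have hE : Pos X.P fun n ω => 1 ≤ 2 ^ lev M ε n * |ν n ω| := hE
    exact fb_big (X := X.cond _) h (h.cl.cond X _ hX hE) ha (hl.dn h.toTn.bigm (dnS_cE hE)) hL ok
      oq (hr.add oq) (by
        filter_upwards [e, e', hE.sure] with n u v w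
        exact ⟨v, fn_cE u.1 _, fun ω hω =>
          ⟨(u.2 ω (w ω hω).1).1, (u.2 ω (w ω hω).1).2.1, (w ω hω).2⟩⟩)
  · have hE : Pos X.P fun n ω => ¬1 ≤ 2 ^ lev M ε n * |ν n ω| :=
      hE.imp fun κ u => ⟨u.1, u.2.mono fun n v => by rw [pb_not]; exact v⟩
    have k2 := fb_small (X := X.cond _) (μ := μ) (ν := ν) (k := lev M ε) (q := q) (q' := q') h
      (h.cl.cond X _ hX hE) (hl.dn h.toTn.bigm (dnS_cE hE)) hL (hr.add oq) (by
        filter_upwards [e, e', hE.sure, Sub.le_pow hL (half_pos hε) k1] with n u v w pw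
        refine ⟨⟨v.1, v.2, Nat.le_add_left _ _⟩, fn_cE u.1 _, fun ω hω => ?_⟩
        have b := u.2 ω (w ω hω).1
        have c := not_le.1 (w ω hω).2
        refine ⟨b.1, b.2.2.resolve_right fun z => ?_, ?_⟩
        · linarith [mul_le_mul_of_nonneg_right pw (abs_nonneg (ν n ω))]
        · rw [le_div_iff₀ (by positivity), mul_comm]; exact c.le) ⌈|C| / (ε / 2)⌉₊
    have eq : ∀ᶠ n in UF, min (q' n) (q n + ⌈|C| / (ε / 2)⌉₊ * lev M ε n) = q' n := by
      filter_upwards [hC, k1] with n u v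
      have z := mul_le_mul (Nat.le_ceil (|C| / (ε / 2))) v (by positivity) (Nat.cast_nonneg _)
      rw [← mul_assoc, div_mul_cancel₀ _ (by positivity)] at z
      have z1 := u.trans ((mul_le_mul_of_nonneg_right (le_abs_self C) (Nat.cast_nonneg _)).trans z)
      exact min_eq_left (le_trans (by exact_mod_cast z1) (Nat.le_add_left _ _))
    refine Le.trans (Le.of_ev (eq.mono fun n u => ?_)) (k2.congr (Eventually.of_forall fun _ => rfl)
      (eq.mono fun n u => by rw [u]))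
    rw [u]
    nlinarith [lg_pos, Nat.cast_nonneg (α := ℝ) (lev M ε n)]

theorem t21 : T21 := fun _ _ _ _ _ _ _ _ h => ⟨h.toTn, h.e0, fun X hX =>
  ⟨(h.fl X hX).cellP le_rfl, t21_opt h hX, fun _ _ _ _ _ _ ha hl hL e => t21_fb h hX ha hl hL e,
    t21_ng h hX⟩⟩

end Pool.Agent.MP_5168f5_an.R4.B1
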