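import Pool.Agent.MP_5168f5_an.R4.Top
import Pool.Agent.MP_5168f5_an.R4.NoTanAll
import Pool.Agent.MP_5168f5_an.R4.DAll
import Pool.Agent.MP_5168f5_an.R4.P0All
import Pool.Agent.MP_5168f5_an.R4.BAll
import Pool.Agent.MP_5168f5_an.R4.T21b
import Pool.Agent.MP_5168f5_an.R4.CAll

/-! The entropy theorem in four dimensions from the two cases with a determined slope. -/

namespace Pool.Agent.MP_5168f5_an.R4

theorem mu0_of2 (b : Tan.CB2') (p : Tan.CP2') : Mu0 3 :=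
  mu0_of (T8.noTan2 ⟨Tan.caf, Tan.cac, B1.cb1, b, B1.cp1, p, Tan.cp0' (P0.cp0 Tan.caf), B1.cib,
    CI.cic, B1.t21⟩)

end Pool.Agent.MP_5168f5_an.R4
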