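import Pool.Agent.MP_5168f5_an.R4.SpecB2

/-! In the cells of level `M` the slope of `f` is read from fewer digits of the point. -/

namespace Pool.Agent.MP_5168f5_an.R4.B2

open H19 H17S H17F Filter K31 Tan B1

namespace ChlA

theorem alg {Ω : Type} {g g' : Geo 3 Ω} {U H : Pl} {a : ℕ} {A B : ℝ} {ω : Ω} (hA : A ≠ 0)
    (hB : B ≠ 0) (hz : g'.z ω = Int.fract (2 ^ a * g.z ω))
    (h : ∀ s : ℝ, g'.lt s ω = ![2 ^ a * (g.lt (ot g a ω s) ω 0 - rd a (g.pt ω 0)),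
      A * (g.lt (ot g a ω s) ω 1 - pv U (ot g a ω s) (g.lt (ot g a ω s) ω)),
      B * (g.lt (ot g a ω s) ω 2 - pv H (ot g a ω s) (g.lt (ot g a ω s) ω))]) :
    (g.e ω 0 = g'.e ω 0 ∧ g.pt ω 0 = rd a (g.pt ω 0) + (2 ^ a)⁻¹ * g'.pt ω 0) ∧
    (U.2.2 1 = 0 → U.2.2 2 = 0 →
      g.pt ω 1 = U.1 + U.2.1 * g.z ω + A⁻¹ * g'.pt ω 1 + U.2.2 0 * g.pt ω 0 + 0 * g.pt ω 0 ∧
      g.e ω 1 = U.2.1 + 2 ^ a / A * g'.e ω 1 + U.2.2 0 * g.e ω 0 + 0 * g.e ω 0) ∧
    (H.2.2 2 = 0 →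
      g.pt ω 2 = H.1 + H.2.1 * g.z ω + B⁻¹ * g'.pt ω 2 + H.2.2 0 * g.pt ω 0 + H.2.2 1 * g.pt ω 1 ∧
      g'.e ω 2 = -(B / 2 ^ a * H.2.1) + B / 2 ^ a * g.e ω 2 + -(B / 2 ^ a * H.2.2 0) * g.e ω 0 +
        -(B / 2 ^ a * H.2.2 1) * g.e ω 1) := by
  have h2 : (2 : ℝ) ^ a ≠ 0 := by positivity
  have o : ot g a ω (g'.z ω) = g.z ω := by rw [hz]; exact ka.z g a ω
  have p := h (g'.z ω)
  rw [o] at p
  have p0 : g'.pt ω 0 = _ := congrFun p 0
  have p1 : g'.pt ω 1 = _ := congrFun p 1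
  have p2 : g'.pt ω 2 = _ := congrFun p 2
  have k : ∀ i, g'.e ω i = g'.lt 1 ω i - g'.lt 0 ω i := fun i => by simp [Geo.lt]
  have e0 := k 0
  have e1 := k 1
  have e2 := k 2
  rw [h 1, h 0] at e0 e1 e2
  change g'.pt ω 0 = 2 ^ a * (g.pt ω 0 - _) at p0
  change g'.pt ω 1 = A * (g.pt ω 1 - pv U _ (g.pt ω)) at p1
  change g'.pt ω 2 = B * (g.pt ω 2 - pv H _ (g.pt ω)) at p2
  simp only [pv, Fin.sum_univ_three] at p1 p2
  simp only [Matrix.cons_val_zero, Matrix.cons_val_one, Matrix.cons_val_two, Matrix.tail_cons,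
    Matrix.head_cons, pv, Fin.sum_univ_three, Geo.lt, ot, Pi.add_apply, Pi.smul_apply,
    smul_eq_mul] at e0 e1 e2
  refine ⟨⟨?_, ?_⟩, fun u1 u2 => ⟨?_, ?_⟩, fun u2 => ⟨?_, ?_⟩⟩
  · rw [e0]; field_simp; ring
  · rw [p0]; field_simp; ring
  · rw [p1, u1, u2]; field_simp; ring
  · rw [e1, u1, u2]; field_simp; ring
  · rw [p2, u2]; field_simp; ring
  · rw [e2, u2]; field_simp; ring

variable {Ω β : ℕ → Type} {P : ∀ n, FP (Ω n)} {M p r₁ r₂ r₃ : ℕ → ℕ} {G : ∀ n, Ω n → β n}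
  {L : ℕ → ℝ}

theorem mul_rd {k x δ : ℝ} {r : ℕ} (h : |k| / 2 ^ r ≤ δ) : |k * x - k * U.rd r x| ≤ δ := by
  rw [← mul_sub, abs_mul]
  exact (mul_le_mul_of_nonneg_left (U.abs_sub_rd r x) (abs_nonneg _)).trans
    (by rwa [mul_one_div])

/-- An affine combination of three determined variables. -/
theorem nd_lin {y c k₁ k₂ k₃ x₁ x₂ x₃ : ∀ n, Ω n → ℝ} (hM : Big M) (hL : Sub M L) (hp : OM M p)
    (h1 : ND P M (fun n ω => fl1 (r₁ n) (x₁ n ω)) G)
    (h2 : ND P M (fun n ω => fl1 (r₂ n) (x₂ n ω)) G)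
    (h3 : ND P M (fun n ω => fl1 (r₃ n) (x₃ n ω)) G)
    (hc : ∀ᶠ n in UF, Fn (P n) (fun ω => (c n ω, k₁ n ω, k₂ n ω, k₃ n ω)) (G n) ∧
      ∀ ω ∈ (P n).S, |y n ω| ≤ L n)
    (hE : Whp P fun n ω => y n ω = c n ω + k₁ n ω * x₁ n ω + k₂ n ω * x₂ n ω + k₃ n ω * x₃ n ω ∧
      |k₁ n ω| / 2 ^ r₁ n ≤ L n / 2 ^ p n ∧ |k₂ n ω| / 2 ^ r₂ n ≤ L n / 2 ^ p n ∧
      |k₃ n ω| / 2 ^ r₃ n ≤ L n / 2 ^ p n) :
    ND P M (fun n ω => fl1 (p n) (y n ω)) G :=
  (h1.pair (h2.pair h3)).cut (ND.near (c := fun n ω => c n ω + k₁ n ω * U.rd (r₁ n) (x₁ n ω) +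
    k₂ n ω * U.rd (r₂ n) (x₂ n ω) + k₃ n ω * U.rd (r₃ n) (x₃ n ω)) hM
    (hL.const_mul hM (by norm_num : (1 : ℝ) ≤ 3)) hp (hc.mono fun n u => ⟨fun a ha b hb w => by
      obtain ⟨w1, w2⟩ := Prod.mk.inj w
      have := u.1 a ha b hb w2
      simp only [Prod.mk.injEq] at this w1
      simp only [U.rd, this.1, this.2.1, this.2.2.1, this.2.2.2, w1.1, w1.2.1, w1.2.2],
      fun ω hω => (u.2 ω hω).trans (by linarith [hL.pos n])⟩)
    (hE.mono (Eventually.of_forall fun n ω _ ⟨e, u1, u2, u3⟩ => by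
      have v1 := abs_le.1 (mul_rd (x := x₁ n ω) u1)
      have v2 := abs_le.1 (mul_rd (x := x₂ n ω) u2)
      have v3 := abs_le.1 (mul_rd (x := x₃ n ω) u3)
      rw [e, mul_div_assoc, abs_le]
      constructor <;> linarith [v1.1, v1.2, v2.1, v2.2, v3.1, v3.2])))

theorem sub_z {k : ℕ → ℤ} (h : Sm M fun n => (k n : ℝ)) :
    ∃ L, Sub M L ∧ ∀ n, (2 : ℝ) ^ k n ≤ L n :=
  ⟨fun n => 2 ^ (k n).toNat, ⟨fun n => one_le_pow₀ one_le_two, fun ε hε => by
    filter_upwards [h ε hε] with n a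
    refine (two_pow_le_exp _).trans (Real.exp_le_exp.2 ?_)
    rcases le_total (k n) 0 with e | e
    · rw [Int.toNat_eq_zero.2 e, Nat.cast_zero]; positivity
    · have : (((k n).toNat : ℤ) : ℝ) = k n := by rw [Int.toNat_of_nonneg e]
      rw [Int.cast_natCast] at this
      linarith⟩, fun n => by
    show _ ≤ (2 : ℝ) ^ (k n).toNat
    rw [← zpow_natCast]
    exact zpow_le_zpow_right₀ one_le_two (Int.self_le_toNat _)⟩

theorem dv {x L : ℝ} {p r : ℕ} (h : |x| ≤ L) (e : p ≤ r) : |x| / 2 ^ r ≤ L / 2 ^ p :=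
  (div_le_div_of_nonneg_right h (by positivity)).trans (U.div_pow_le ((abs_nonneg _).trans h) e)

end ChlA

open ChlA

theorem rowChl : RChl := by
  intro plp Ω K g M mm D η d ε₀ h hd sh
  obtain ⟨X, hX⟩ := h.ne
  obtain ⟨K', g', D', E, -, -, h', nil, rel⟩ := sh X M hX OM.rfl
  refine ⟨K', g', D', 2 * ⌈d⌉₊ + 1, h', hd, nil, fun Y hY q q' r hr e => ?_⟩
  obtain ⟨kY, nu, nf, hnu, hnf, sf⟩ := rel Y hY
  have hM := h.toTn.big
  have c := h.com Y kY
  obtain ⟨L, hL, bx⟩ := h.toTn.bx kY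
  obtain ⟨L', hL', bx'⟩ := h'.toTn.bx hY
  obtain ⟨Q, hQ⟩ : ∃ Q : ℕ → ℕ, Q = fun n => q n + ⌈(d - 1) * M n⌉₊ := ⟨_, rfl⟩
  have q1 : ∀ n, q n + (d - 1) * M n ≤ Q n ∧ (Q n : ℝ) ≤ q n + (d - 1) * M n + 1 := fun n => by
    have := Nat.le_ceil ((d - 1) * M n)
    have := Nat.ceil_lt_add_one (show 0 ≤ (d - 1) * M n from
      mul_nonneg (by linarith) (Nat.cast_nonneg _))
    rw [hQ]; push_cast; constructor <;> linarith
  have s1 : ∀ n, 2 * ((M n / 2 : ℕ) : ℝ) ≤ M n ∧ (M n : ℝ) ≤ 2 * (M n / 2 : ℕ) + 1 := fun n =>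
    ⟨by exact_mod_cast Nat.mul_div_le (M n) 2, by exact_mod_cast (by omega)⟩
  have q2 : ∀ᶠ n in UF, 2 * ((Q n + M n / 2 : ℕ) : ℝ) ≤ r n := by
    filter_upwards [e, hM.ev 1] with n u v
    have u2 : (2 * q n + (2 * ⌈d⌉₊ + 1) * M n : ℝ) ≤ r n := by exact_mod_cast u.2
    have := mul_le_mul_of_nonneg_right (Nat.le_ceil d) (Nat.cast_nonneg (α := ℝ) (M n))
    push_cast
    nlinarith [(q1 n).2, (s1 n).1]
  have q3 : ∀ᶠ n in UF, Q n + M n / 2 ≤ r n := q2.mono fun n u => by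
    have : 2 * (Q n + M n / 2) ≤ r n := by exact_mod_cast u
    omega
  have oQ : OM M fun n => Q n + M n / 2 := hr.mono q3
  have oq : OM M q := hr.mono (e.mono fun n u => by omega)
  obtain ⟨LU, hU, wU⟩ := cell_near (p := fun _ => 0) c.cellU hM zero_le_two OM.rfl
    (Le.of_le fun n => by simp)
  obtain ⟨LH, hH, wH⟩ := cell_near (p := fun _ => 0) ((h.fl Y kY).cellH hd.le) hM (by linarith)
    OM.rfl (Le.of_le fun n => by rw [Nat.cast_zero]; positivity)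
  obtain ⟨Z₂, z2, y2⟩ := sub_z (M := M) (k := fun n => M n - nu n)
    (hnu.2.of_sub (Eventually.of_forall fun n => by
      push_cast; linarith [Nat.cast_nonneg (α := ℝ) (M n)]))
  obtain ⟨Z₃, z3, y3⟩ := sub_z (M := M) (k := fun n => (Q n + M n / 2 : ℕ) - q' n - nf n)
    (hnf.2.of2 (hM.sm 1) (e.mono fun n u => by
      have u1 : (2 * q n : ℝ) ≤ 2 * q' n + M n := by exact_mod_cast u.1
      rw [Int.cast_sub, Int.cast_sub, Int.cast_natCast, Int.cast_natCast, Nat.cast_add]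
      linarith [(q1 n).2, (s1 n).1]))
  obtain ⟨Z₄, z4, y4⟩ := sub_z (M := M) (k := fun n => nf n - M n + q n - Q n)
    (hnf.1.of_sub (Eventually.of_forall fun n => by push_cast; linarith [(q1 n).1]))
  have A := sf.mono fun n u ω (hω : ω ∈ (Y n).Q.S) =>
    alg (zpow_ne_zero _ two_ne_zero) (zpow_ne_zero _ two_ne_zero) (u.2 ω hω).1 (u.2 ω hω).2
  refine ND.cut (F' := fun n v => fl1 (M n) ((Y.G g n).pt v 0)) ?_ ?_
  · obtain ⟨L₁, l1, w⟩ := c.ball M OM.rfl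
    refine ND.near (c := fun n v => (mD Y D n).o (M n) v 0) hM
      ((hL.const_mul hM one_le_two).add l1 hM) OM.rfl ?_ (w.mono (Eventually.of_forall
        fun n v _ u => (u 0).trans (div_le_div_of_nonneg_right (by linarith [hL.pos n])
          (by positivity))))
    filter_upwards [sf, c.nest, bx] with n u v b
    exact ⟨((((Fn.comp (·.2.2.1 0) _).trans (v.2 _).2).trans u.1.2.1).trans
      (Fn.comp Prod.snd (Y.G g' n).zt)).right _ |>.right _,
      fun ω hω => (abs_pt b hω 0).trans (by linarith [l1.pos n])⟩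
  obtain ⟨B, hB⟩ : ∃ B, B = fun n v => (fl1 (M n) ((Y.G g n).pt v 0),
    fl1 (q' n) ((Y.G g' n).pt v 2), ul (Y.G g' n) (r n) (r n) v, (Y.G g' n).zt v) := ⟨_, rfl⟩
  rw [← hB]
  have b0 : ∀ n, Fn (Y n).Q (fun v => fl1 (M n) ((Y.G g n).pt v 0)) (B n) := fun n =>
    hB ▸ Fn.fst _ _
  have b1 : ∀ n, Fn (Y n).Q (fun v => fl1 (q' n) ((Y.G g' n).pt v 2)) (B n) := fun n =>
    hB ▸ (Fn.fst _ _).right _
  have b2 : ∀ n, Fn (Y n).Q (ul (Y.G g' n) (r n) (r n)) (B n) := fun n =>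
    hB ▸ ((Fn.fst _ _).right _).right _
  have b3 : ∀ n, Fn (Y n).Q (Y.G g' n).zt (B n) := fun n => hB ▸ ((Fn.snd _ _).right _).right _
  have bS : ∀ᶠ n in UF, Fn (Y n).Q (fun v => ((Y.G g n).θ v, fl1 (M n) ((Y.G g n).z v),
      (mD Y D n).o (M n) v, (mD Y D n).U (M n) v, (mD Y D n).H (M n) v)) (B n) := by
    filter_upwards [sf, c.nest] with n u v
    exact ((v.2 _).2.trans u.1.2.1).trans ((Fn.comp Prod.snd _).trans (b3 n))
  have bz : ∀ᶠ n in UF, Fn (Y n).Q (Y.G g n).z (B n) := by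
    filter_upwards [sf, bS] with n u v a ha b hb w
    have w1 : fl1 (M n) ((Y.G g n).z a) = fl1 (M n) ((Y.G g n).z b) :=
      congrArg (·.2.1) (v a ha b hb w)
    have w2 : Int.fract (2 ^ M n * (Y.G g n).z a) = Int.fract (2 ^ M n * (Y.G g n).z b) :=
      (u.2 a ha).1.symm.trans ((congrArg Prod.fst (b3 n a ha b hb w)).trans (u.2 b hb).1)
    refine (ka.z (Y.G g n) (M n) a).symm.trans (Eq.trans ?_ (ka.z (Y.G g n) (M n) b))
    rw [Geo.z0, Geo.z0, w1, w2]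
  have hz : ∀ {G : Gs 3 Y.W} {L : ℕ → ℝ}, (∀ᶠ n in UF, (G n).Bx (Y n).Q (L n)) →
      ∀ᶠ n in UF, ∀ ω ∈ (Y n).Q.S, |(G n).z ω| ≤ 1 := fun b => b.mono fun n b ω hω =>
    abs_le.2 ⟨by linarith [(b.bd ω hω).2.1], (b.bd ω hω).2.2.le⟩
  have w' : ND Y.P M (fun n v => fl1 (r n) ((Y.G g' n).e v 0)) B :=
    ND.of_fn (Eventually.of_forall fun n => (Fn.comp (·.1.2) _).trans (b2 n))
  have e' : ND Y.P M (fun n v => fl1 (r n) ((Y.G g' n).e v 1)) B :=
    ND.of_fn (Eventually.of_forall fun n => (Fn.comp (·.2.1) _).trans (b2 n))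
  have x' : ND Y.P M (fun n v => fl1 (r n) ((Y.G g' n).pt v 0)) B :=
    nd_pt hM ((hz bx').mono fun n u => ⟨((Fn.comp (·.1.1) _).trans (b2 n)).pair
      (((Fn.comp (·.1.2) _).trans (b2 n)).pair ((Fn.comp Prod.fst _).trans (b3 n))), u⟩)
  have u' : ND Y.P M (fun n v => fl1 (r n) ((Y.G g' n).pt v 1)) B :=
    nd_pt hM ((hz bx').mono fun n u => ⟨((Fn.comp (·.2.2) _).trans (b2 n)).pair
      (((Fn.comp (·.2.1) _).trans (b2 n)).pair ((Fn.comp Prod.fst _).trans (b3 n))), u⟩)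
  have nw : ND Y.P M (fun n v => fl1 (r n) ((Y.G g n).e v 0)) B :=
    w'.mono (A.mono fun n u a ha b hb w => (congrArg (fl1 (r n)) (u a ha).1.1).trans
      (w.trans (congrArg (fl1 (r n)) (u b hb).1.1).symm))
  have l1 := fun n => hL.1 n
  have nx : ND Y.P M (fun n v => fl1 (r n) ((Y.G g n).pt v 0)) B :=
    nd_lin (c := fun n v => rd (M n) ((Y.G g n).pt v 0)) (k₁ := fun n _ => (2 ^ M n)⁻¹)
      (k₂ := fun _ _ => 0) (k₃ := fun _ _ => 0) hM (hL.const_mul hM one_le_two) hr x' x' x'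
      (bx.mono fun n b => ⟨fun a ha a' ha' w => by simp only [rd, b0 n a ha a' ha' w],
        fun ω hω => abs_pt b hω 0⟩)
      (Whp.of_ev (A.mono fun n u ω hω => ⟨by linarith [(u ω hω).1.2], dv (by
        rw [abs_of_nonneg (by positivity)]
        linarith [inv_le_one_of_one_le₀ (one_le_pow₀ (M₀ := ℝ) (n := M n) one_le_two), l1 n])
        le_rfl, dv (by rw [abs_zero]; linarith [l1 n]) le_rfl,
        dv (by rw [abs_zero]; linarith [l1 n]) le_rfl⟩))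
  have t2 : ∀ n, |(2 : ℝ) ^ M n / 2 ^ nu n| ≤ Z₂ n ∧ |((2 : ℝ) ^ nu n)⁻¹| ≤ Z₂ n := fun n => by
    have := y2 n
    rw [zpow_sub₀ two_ne_zero, zpow_natCast] at this
    rw [abs_of_nonneg (by positivity), abs_of_nonneg (by positivity), inv_eq_one_div]
    exact ⟨this, (div_le_div_of_nonneg_right (one_le_pow₀ one_le_two) (by positivity)).trans this⟩
  have sU := ((hL.const_mul hM one_le_two).add z2 hM).add hU hM
  have nu1 : ND Y.P M (fun n v => fl1 (r n) ((Y.G g n).pt v 1)) B :=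
    nd_lin (c := fun n v => ((mD Y D n).U (M n) v).1 + ((mD Y D n).U (M n) v).2.1 * (Y.G g n).z v)
      (k₁ := fun n _ => (2 ^ nu n)⁻¹) (k₂ := fun n v => ((mD Y D n).U (M n) v).2.2 0)
      (k₃ := fun _ _ => 0) hM sU hr u' nx nx (by
        filter_upwards [bS, bz, bx] with n u v b
        exact ⟨fun a ha a' ha' w => by
          have := congrArg (·.2.2.2.1) (u a ha a' ha' w)
          simp only at this
          simp only [this, v a ha a' ha' w],
          fun ω hω => (abs_pt b hω 1).trans (by linarith [z2.pos n, hU.pos n])⟩)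
      (wU.mono (A.mono fun n u ω hω w => ⟨((u ω hω).2.1 ((w.2.1 1).2 (by decide))
        ((w.2.1 2).2 (by decide))).1, dv ((t2 n).2.trans (by linarith [l1 n, hU.pos n])) le_rfl,
        dv ((w.2.1 0).1.trans (by linarith [l1 n, z2.pos n])) le_rfl,
        dv (by rw [abs_zero]; exact (sU.pos n).le) le_rfl⟩))
  have ne : ND Y.P M (fun n v => fl1 (r n) ((Y.G g n).e v 1)) B :=
    nd_lin (c := fun n v => ((mD Y D n).U (M n) v).2.1)
      (k₁ := fun n _ => 2 ^ M n / 2 ^ nu n) (k₂ := fun n v => ((mD Y D n).U (M n) v).2.2 0)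
      (k₃ := fun _ _ => 0) hM sU hr e' nw nw (by
        filter_upwards [bS, bx] with n u b
        exact ⟨fun a ha a' ha' w => by
          have := congrArg (·.2.2.2.1) (u a ha a' ha' w)
          simp only at this
          simp only [this],
          fun ω hω => ((b.bd ω hω).1 1).2.trans (by linarith [l1 n, z2.pos n, hU.pos n])⟩)
      (wU.mono (A.mono fun n u ω hω w => ⟨((u ω hω).2.1 ((w.2.1 1).2 (by decide))
        ((w.2.1 2).2 (by decide))).2, dv ((t2 n).1.trans (by linarith [l1 n, hU.pos n])) le_rfl,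
        dv ((w.2.1 0).1.trans (by linarith [l1 n, z2.pos n])) le_rfl,
        dv (by rw [abs_zero]; exact (sU.pos n).le) le_rfl⟩))
  have nf1 : ND Y.P M (fun n v => fl1 (Q n + M n / 2) ((Y.G g n).pt v 2)) B :=
    nd_lin (c := fun n v => ((mD Y D n).H (M n) v).1 + ((mD Y D n).H (M n) v).2.1 * (Y.G g n).z v)
      (k₁ := fun n _ => (2 ^ nf n)⁻¹) (k₂ := fun n v => ((mD Y D n).H (M n) v).2.2 0)
      (k₃ := fun n v => ((mD Y D n).H (M n) v).2.2 1) hM
      (((hL.const_mul hM one_le_two).add z3 hM).add hH hM) oQ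
      (ND.of_fn (Eventually.of_forall b1)) nx nu1 (by
        filter_upwards [bS, bz, bx] with n u v b
        exact ⟨fun a ha a' ha' w => by
          have := congrArg (·.2.2.2.2) (u a ha a' ha' w)
          simp only at this
          simp only [this, v a ha a' ha' w],
          fun ω hω => (abs_pt b hω 2).trans (by linarith [z3.pos n, hH.pos n])⟩)
      (wH.mono ((A.and q3).mono fun n u ω hω w => ⟨((u.1 ω hω).2.2
        ((w.2.1 2).2 (by decide))).1, by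
          have := y3 n
          rw [zpow_sub₀ two_ne_zero, zpow_sub₀ two_ne_zero, zpow_natCast, zpow_natCast] at this
          rw [abs_of_nonneg (by positivity), le_div_iff₀ (by positivity)]
          refine le_trans (le_of_eq (by field_simp)) (this.trans (by linarith [l1 n, hH.pos n])),
        dv ((w.2.1 0).1.trans (by linarith [l1 n, z3.pos n])) u.2,
        dv ((w.2.1 1).1.trans (by linarith [l1 n, z3.pos n])) u.2⟩))
  have na : ∀ i, ND Y.P M (fun n v => fl1 (r n) ((Y.G g n).pt v i)) B →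
      ND Y.P M (fun n v => fl1 (r n) ((Y.G g n).e v i)) B →
      ND Y.P M (fun n v => fl1 (r n) ((Y.G g n).a v i)) B := fun i h1 h2 =>
    nd_lin (c := fun _ _ => 0) (k₁ := fun _ _ => 1) (k₂ := fun n v => -(Y.G g n).z v)
      (k₃ := fun _ _ => 0) hM hL hr h1 h2 h2 ((bz.and bx).mono fun n u =>
        ⟨(Fn.comp (fun t : ℝ => ((0 : ℝ), (1 : ℝ), -t, (0 : ℝ))) _).trans u.1, fun ω hω =>
          ((u.2.bd ω hω).1 i).1⟩)
      (Whp.of_ev ((hz bx).mono fun n u ω hω => ⟨by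
        rw [show (Y.G g n).pt ω i = (Y.G g n).a ω i + (Y.G g n).z ω * (Y.G g n).e ω i from rfl]
        ring, dv (by rw [abs_one]; exact l1 n) le_rfl,
        dv (by rw [abs_neg]; exact (u ω hω).trans (l1 n)) le_rfl,
        dv (by rw [abs_zero]; linarith [l1 n]) le_rfl⟩))
  have n2 : ND Y.P M (fun n v => fl1 (Q n) ((Y.G g n).e v 2)) B :=
    (plp K g M mm D η 2 d ε₀ (1 / 4) Y Q (fun n => M n / 2) r r h hd.le kY hr (by norm_num) (by
      filter_upwards [q2, q3, hM.ev 2] with n u v w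
      exact ⟨by linarith [(s1 n).2], v, le_rfl, u⟩)).trans
      (nf1.pair ((((na 0 nx nw).pair nw).pair (ne.pair (na 1 nu1 ne))).pair
        (ND.of_fn ((bz.and bS).mono fun n u => u.1.pair ((Fn.comp (·.1) _).trans u.2)))))
  have t4 : ∀ n (x : ℝ) (j : ℕ), |x| ≤ LH n → Q n ≤ j →
      |(2 : ℝ) ^ nf n / 2 ^ M n * x| / 2 ^ j ≤ (L' n + Z₄ n * LH n) / 2 ^ q n := fun n x j u v => by
    have := y4 n
    rw [zpow_sub₀ two_ne_zero, zpow_add₀ two_ne_zero, zpow_sub₀ two_ne_zero, zpow_natCast,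
      zpow_natCast, zpow_natCast] at this
    refine (U.div_pow_le (abs_nonneg _) v).trans ?_
    rw [abs_mul, abs_of_nonneg (by positivity), le_div_iff₀ (by positivity)]
    have k := mul_le_mul this u (abs_nonneg _) (z4.pos n).le
    refine le_trans (le_of_eq (by ring)) (k.trans (by linarith [hL'.pos n]))
  refine nd_lin (c := fun n v => -(2 ^ nf n / 2 ^ M n * ((mD Y D n).H (M n) v).2.1))
    (k₁ := fun n _ => 2 ^ nf n / 2 ^ M n)
    (k₂ := fun n v => -(2 ^ nf n / 2 ^ M n * ((mD Y D n).H (M n) v).2.2 0))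
    (k₃ := fun n v => -(2 ^ nf n / 2 ^ M n * ((mD Y D n).H (M n) v).2.2 1)) hM
    (hL'.add (z4.mul hH) hM) oq n2 nw ne (by
      filter_upwards [bS, bx'] with n u b
      exact ⟨fun a ha a' ha' w => by
        have := congrArg (·.2.2.2.2) (u a ha a' ha' w)
        simp only at this
        simp only [this], fun ω hω => ((b.bd ω hω).1 2).2.trans
          (le_add_of_nonneg_right ((z4.mul hH).pos n).le)⟩)
    (wH.mono ((A.and q3).mono fun n u ω hω w => ⟨((u.1 ω hω).2.2 ((w.2.1 2).2 (by decide))).2,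
      ?_, ?_, ?_⟩))
  · simpa only [mul_one] using t4 n 1 _ (by rw [abs_one]; exact hH.1 n) le_rfl
  · rw [abs_neg]; exact t4 n _ _ (w.2.1 0).1 (by omega)
  · rw [abs_neg]; exact t4 n _ _ (w.2.1 1).1 (by omega)

end Pool.Agent.MP_5168f5_an.R4.B2
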