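import Pool.Agent.MP_5168f5_an.R4.SpecB2

/-! Kakeya sets in four dimensions: the direction is independent of the label and the height. -/

namespace Pool.Agent.MP_5168f5_an.R4.B2

open H19 H17S H17F Filter K31 Tan B1

theorem rowDir : Dir := by
  intro Ω K g M mm D η γ d X r h hX hr
  have com := h.com X hX
  have h1 : Sm M fun n => mi (X n).Q (fun v => fl1 (r n) ((X.G g n).e v 0)) ((mD X D n).S (r n))
      (X.G g n).θ :=
    Sm.mono (com.typ _ hr) (Eventually.of_forall fun n => mi_mono' fun x _ y _ u => by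
      simpa [ty, wT] using congrFun (congrArg Prod.fst u) 0)
  refine Sm.mono (h1.add (le_up h.sm (kb.inf X.P (X.G g) mm r (fun n => (mD X D n).S (r n))
    (h.low.bs X hX) (com.lab r hr).h))) (com.nest.mono fun n a => ?_)
  rw [mi_chain, mi_symm _ (X.G g n).z]
  refine add_le_add le_rfl (mi_right (fun x hx y hy u => ?_) (fun x _ y _ u => ?_)
    fun x _ y _ u => ?_)
  · exact Prod.ext (congrArg (·.2.1) ((a.2 (r n)).2 x hx y hy (congrArg Prod.fst u)) :)
      (congrArg Prod.snd u :)
  · exact Prod.ext (congrArg (·.1.2) u :) (congrArg (·.2.2) u :)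
  · exact (congrArg (fun s => fl1 (r n) (s.1.1.2.1 0)) u :)

theorem rowUFul : RUFul := by
  intro dir Ω K g M mm D η γ d X a p τ r h hX hr e
  have com := h.com X hX
  have ar : ∀ᶠ n in UF, a n ≤ r n := e.mono fun n u => by
    have : (a n : ℝ) ≤ p n := (le_mul_of_one_le_left (Nat.cast_nonneg _) h.one).trans u.1
    exact (Nat.cast_le.1 this).trans (u.2.1.trans u.2.2)
  have f := com.fbU _ (fun n => (mD X D n).S (a n)) a (hr.mono ar) (com.lab a (hr.mono ar)) p τ r
    (hr.mono (e.mono fun _ u => u.2.2)) hr (e.mono fun _ u => ⟨u.1, u.2.1⟩)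
  obtain ⟨L, hL, bx⟩ := h.bx hX
  obtain ⟨L', hL', bl⟩ := com.ball r hr
  have nd : ∀ i, ND X.P M (fun n v => fl1 (r n) ((X.G g n).pt v i)) fun n v =>
      (((mD X D n).S (r n) v, (X.G g n).z v), (X.G g n).θ v) := fun i =>
    ND.near (c := fun n v => (mD X D n).o (r n) v i) h.big
      ((hL.const_mul h.big one_le_two).add hL' h.big) hr ((com.nest.and bx).mono fun n u =>
        ⟨fun x hx y hy w => (congrArg (fun s => s.2.2.1 i) ((u.1.2 (r n)).2 x hx y hy
          (congrArg (·.1.1) w)) :), fun v hv => (abs_pt u.2 hv i).trans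
            (le_add_of_nonneg_right (hL'.pos n).le)⟩)
      (bl.mono (Eventually.of_forall fun n v _ w => (w i).trans
        (div_le_div_of_nonneg_right (by linarith [hL.pos n]) (by positivity))))
  have n1 := ((nd 1).mono (F' := fun n v => fl1 (τ n) ((X.G g n).pt v 1))
    (e.mono fun n u _ _ _ _ w => fl1_eq_of_le u.2.2 w)).pair
    (((nd 1).mono (F' := fun n v => fl1 (p n) ((X.G g n).pt v 1))
      (e.mono fun n u _ _ _ _ w => fl1_eq_of_le (u.2.1.trans u.2.2) w)).pair ((nd 0).pair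
      (ND.of_fn (F := fun n v => ((mD X D n).S (a n) v, (X.G g n).zt v))
        ((com.nest.and ar).mono fun n u x hx y hy w => Prod.ext
          (nest_le (fun j => (u.1.2 j).1) u.2 x hx y hy (congrArg (·.1.1) w))
          (Prod.ext (congrArg (·.1.2) w :) (congrArg (·.2) w :))))))
  refine f.of3 (dir K g M mm D η γ d X r h hX hr) n1 (Eventually.of_forall fun n => ?_)
  have h1 := ch_le_mi (P := (X n).Q) (F := fun v => fl1 (τ n) ((X.G g n).pt v 1))
    (G := fun v => fl1 (r n) ((X.G g n).e v 0))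
    (K := fun v => (fl1 (p n) ((X.G g n).pt v 1), fl1 (r n) ((X.G g n).pt v 0),
      (mD X D n).S (a n) v, (X.G g n).zt v))
    (K' := fun v => (fl1 (p n) ((X.G g n).pt v 1), (mD X D n).S (a n) v, xz (X.G g n) (r n) v,
      fl1 (r n) ((X.G g n).e v 0))) fun x _ y _ u => by
      simp only [xz, Prod.mk.injEq] at u ⊢
      tauto
  have h2 := mi_left (P := (X n).Q) (F' := fun v => fl1 (τ n) ((X.G g n).pt v 1))
    (G := fun v => fl1 (r n) ((X.G g n).e v 0)) (K := (X.G g n).θ)
    (K' := fun v => (fl1 (p n) ((X.G g n).pt v 1), fl1 (r n) ((X.G g n).pt v 0),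
      (mD X D n).S (a n) v, (X.G g n).zt v)) (fun _ _ _ _ u => (congrArg (·.2.2.2.2) u :))
    ((Fn.snd _ _).left _) ((Fn.fst _ _).left _)
  have h3 := mi_near (P := (X n).Q) (fun v => fl1 (r n) ((X.G g n).e v 0))
    (fun v => (fl1 (τ n) ((X.G g n).pt v 1), fl1 (p n) ((X.G g n).pt v 1),
      fl1 (r n) ((X.G g n).pt v 0), (mD X D n).S (a n) v, (X.G g n).zt v))
    (fun v => ((mD X D n).S (r n) v, (X.G g n).z v)) (X.G g n).θ
  rw [mi_symm _ _ (X.G g n).θ] at h2
  linarith

end Pool.Agent.MP_5168f5_an.R4.B2
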