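import Pool.Agent.MP_5168f5_an.R4.SpecB2
import Pool.Agent.MP_5168f5_an.R4.BB1b

/-! The context of the vertical web is determined by the cell, the base line and the height. -/

namespace Pool.Agent.MP_5168f5_an.R4.B2

open H19 H17S H17F Filter K31 Tan B1

namespace B2LipA

variable {Ω Y : ℕ → Type} {P : ∀ n, FP (Ω n)} {g : Gs 3 Ω} {B : ∀ n, Ω n → Y n} {M q r : ℕ → ℕ}
  {L : ℕ → ℝ}

/-- The point and the slope give the offset. -/
theorem nd_off (hM : Big M) (i : Fin 3) (h : ∀ᶠ n in UF, (g n).Bx (P n) (L n) ∧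
    Fn (P n) (g n).z (B n)) (np : ND P M (fun n ω => fl1 (q n) ((g n).pt ω i)) B)
    (ne : ND P M (fun n ω => fl1 (q n) ((g n).e ω i)) B) :
    ND P M (fun n ω => fl1 (q n) ((g n).a ω i)) B := by
  have na := (np.pair ne).cut (nd_pt (a := fun n ω => (g n).pt ω i) (e := fun n ω => (g n).e ω i)
    (z := fun n ω => -(g n).z ω) (r := q) hM (h.mono fun n e => ⟨fun x hx y hy u => by
      simp only [Prod.mk.injEq] at u
      simp only [u.1.1, u.1.2, e.2 x hx y hy u.2], fun ω hω => by
      obtain ⟨-, h1, h2⟩ := e.1.bd ω hω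
      rw [abs_neg, abs_of_nonneg h1]
      exact h2.le⟩))
  have e : ∀ n ω, (g n).pt ω i = (g n).a ω i + (g n).z ω * (g n).e ω i := fun _ _ => rfl
  simpa only [e, neg_mul, add_neg_cancel_right] using na

theorem coarse {f : ∀ n, Ω n → ℝ} (h : ND P M (fun n ω => fl1 (r n) (f n ω)) B)
    (e : ∀ᶠ n in UF, q n ≤ r n) : ND P M (fun n ω => fl1 (q n) (f n ω)) B :=
  h.mono (e.mono fun _ u _ _ _ _ => fl1_eq_of_le u)

end B2LipA

open B2LipA in
theorem rowLip : RLip := by
  intro plp Ω K g M mm D η d ε₀ C a A s R J r hT lv X hX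
  have hM := hT.toTn.big
  obtain ⟨L, hL, bx⟩ := hT.toTn.bx hX
  have cm := hT.com X hX
  have h2 : ∀ᶠ n in UF, 2 * a n ≤ r n := lv.ev.mono fun n u => by omega
  have ha : OM M a := lv.om.mono (h2.mono fun n u => by omega)
  have fS : ∀ᶠ n in UF, Fn (X n).Q (fun v => ((X.G g n).θ v, fl1 (a n) ((X.G g n).z v),
      (mD X D n).o (a n) v, (mD X D n).U (a n) v, (mD X D n).H (a n) v)) fun v =>
      ((mD X D n).S (a n) v, bl (X.G g n) (r n) v, (X.G g n).z v) :=
    cm.nest.mono fun n u x hx y hy e => (u.2 (a n)).2 x hx y hy (congrArg (·.1) e)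
  have fz : ∀ n, Fn (X n).Q (X.G g n).z fun v =>
      ((mD X D n).S (a n) v, bl (X.G g n) (r n) v, (X.G g n).z v) :=
    fun n x _ y _ e => congrArg (·.2.2) e
  have nb := ND.of_fn (M := M) (P := X.P) (F := fun n => bl (X.G g n) (r n)) (G := fun n v =>
    ((mD X D n).S (a n) v, bl (X.G g n) (r n) v, (X.G g n).z v))
    (.of_forall fun n x _ y _ e => congrArg (·.2.1) e)
  have nθ := ND.of_fn (M := M) (P := X.P) (F := fun n => (X.G g n).θ)
    (fS.mono fun n u x hx y hy e => congrArg (·.1) (u x hx y hy e))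
  have bz := bx.mono fun n u => And.intro u (fz n)
  have ne1 := ND.trans (hT.nil X hX r r lv.om (.of_forall fun n => ⟨le_rfl, by norm_num⟩))
    (nb.pair nθ)
  have nx := BB1bA.nd_x (g := X.G g) (r := r) (B := fun n v =>
    ((mD X D n).S (a n) v, bl (X.G g n) (r n) v, (X.G g n).z v)) hM
    (bx.mono fun n u => ⟨u, fun x _ y _ e => congrArg (·.2) e⟩)
  have nu := nx.cut (cell0_pt (p := fun n => 2 * a n) cm.cellU hM zero_le_two ha lv.om
    (Le.of_le fun n => by push_cast; exact le_rfl) hL (by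
      filter_upwards [h2, bx, fS] with n u1 u2 u3
      refine ⟨u1, u2, fun x hx y hy e => ?_⟩
      have e2 := congrArg (·.2) e
      exact Prod.ext (congrArg (·.2.2.2.1) (u3 x hx y hy e2))
        (Prod.ext (congrArg (·.1) e) (congrArg (·.2.2) e2))))
  have na1 := nd_off hM 1 bz nu (coarse ne1 h2)
  obtain ⟨L', hL', w⟩ := cell_near (p := fun n => 2 * a n) ((hT.fl X hX).cellH hT.lt.le) hM
    (by linarith [hT.lt]) ha (Le.of_le fun n => by
      push_cast
      exact mul_le_mul_of_nonneg_right hT.lt.le (Nat.cast_nonneg _))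
  have nf := (nx.pair nu).cut (ND.near (x := fun n v => (X.G g n).pt v 2) (j := fun n => 2 * a n)
    (c := fun n v => ((mD X D n).H (a n) v).1 + ((mD X D n).H (a n) v).2.1 * (X.G g n).z v +
      ((mD X D n).H (a n) v).2.2 0 * U.rd (r n) ((X.G g n).pt v 0) +
      ((mD X D n).H (a n) v).2.2 1 * U.rd (2 * a n) ((X.G g n).pt v 1)) hM
    ((hL.add hL' hM).const_mul hM (C := 4) (by norm_num)) (lv.om.mono h2) (by
      filter_upwards [bx, fS] with n u2 u3
      refine ⟨fun x hx y hy e => ?_, fun v hv =>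
        (abs_pt u2 hv 2).trans (by linarith [hL'.pos n, hL.pos n])⟩
      have e2 := congrArg (·.2) e
      have e3 := congrArg (·.2.2.2.2) (u3 x hx y hy e2)
      simp only [Prod.mk.injEq] at e e3
      simp only [U.rd, e3, e.1.1, e.1.2, e.2.2.2]) (w.mono (h2.mono fun n u v _ ⟨_, v2, v3, _⟩ => by
      rw [sum01 fun i => (v2 i).2, ← sub_sub] at v3
      have l0 := hL'.pos n
      have k1 := near_rd v3 (v2 1).1 le_rfl
      rw [sub_right_comm] at k1
      refine le_trans (le_of_eq (congrArg _ (by ring))) ((near_rd k1 ((v2 0).1.trans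
        (by linarith)) u).trans (div_le_div_of_nonneg_right (by linarith [hL.pos n])
          (by positivity))))))
  obtain ⟨κ, k0, k1⟩ := lv.fs
  have nul := nb.pair (ne1.pair na1)
  have ne2 := ND.trans (plp K g M mm D η 2 d ε₀ κ X A s (fun n => 2 * a n) r hT.toT2 hT.lt.le hX
    lv.om k0 (by
      filter_upwards [k1, lv.ev, h2] with n u1 u2 u3
      refine ⟨u1.1, (lv.le n).2.1.le, u3, ?_⟩
      rw [(lv.le n).2.1]
      exact_mod_cast (show 2 * (2 * a n) ≤ r n by omega)))
    ((coarse nf (.of_forall fun n => (lv.le n).2.1.le)).pair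
      (nul.pair ((ND.of_fn (.of_forall fz)).pair nθ)))
  exact nul.pair (((nd_off hM 2 bz (coarse nf (.of_forall fun n => by
    have := (lv.le n).2.1; omega)) ne2).pair ne2).pair nθ)

end Pool.Agent.MP_5168f5_an.R4.B2
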