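import Pool.Agent.MP_5168f5_an.R4.SpecB2

/-! Kakeya sets in four dimensions, weight two: a small mixed coefficient. -/

namespace Pool.Agent.MP_5168f5_an.R4.B2

open H19 H17S H17F Filter K31 Tan B1

namespace B2Lp1A

theorem err {e s i H L : ℝ} {A ρ k τ : ℕ} (h : |Int.fract (2 ^ A * e) - s - i * H| ≤ L / 2 ^ ρ)
    (i0 : 0 ≤ i) (i1 : i < 1) (hH : |H| ≤ 1 / 2 ^ k) (l : 0 ≤ L) (t1 : τ ≤ A + k) (t2 : τ ≤ A + ρ) :
    |e - (U.rd A e + s / 2 ^ A)| ≤ (L + 1) / 2 ^ τ := by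
  have e1 : e - (U.rd A e + s / 2 ^ A) = (Int.fract (2 ^ A * e) - s - i * H + i * H) / 2 ^ A := by
    simp only [U.rd, fl1, Int.fract]
    field_simp
    ring
  have e2 : |i * H| ≤ 1 / 2 ^ k := by
    rw [abs_mul, abs_of_nonneg i0]
    exact (mul_le_of_le_one_left (abs_nonneg _) i1.le).trans hH
  rw [e1, abs_div, abs_of_pos (show (0 : ℝ) < 2 ^ A by positivity)]
  refine (div_le_div_of_nonneg_right ((abs_add_le _ _).trans (add_le_add h e2))
    (by positivity)).trans ?_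
  rw [add_div, add_div, div_div, div_div, ← pow_add, ← pow_add]
  exact add_le_add (U.div_pow_le l (by omega)) (U.div_pow_le zero_le_one (by omega))

end B2Lp1A

open B2Lp1A in
theorem rowLp1 : RLp1 := by
  intro lip Ω K g M mm D η d ε₀ C a A s R J r tb lv X ρ k τ H s₁ s₂ L v hE _ ht
  have hM := tb.toT2.toTn.big
  have p := hE.and v.fit
  have hY := tb.cl.cond X _ v.mem p
  refine ⟨_, hY, ND.trans (ND.cut (v.sm.dn (dnS_cE p)) (ND.sure
    (c := fun n w => U.rd (A n) ((X.G g n).e w 2) + s₁ n w / 2 ^ A n) hM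
    (v.sub.add (hM.sub le_rfl) hM) ?_)) (lip K g M mm D η d ε₀ C a A s R J r tb lv _ hY)⟩
  filter_upwards [p.sure, ht] with n u t
  refine ⟨fun x _ y _ q => ?_, fun w hw => err (u w hw).2.2.2.2.2.1 (Int.fract_nonneg _)
    (Int.fract_lt_one _) (u w hw).2.1 (v.sub.pos n).le t.1 t.2⟩
  have e1 : s₁ n x = s₁ n y := congrArg (·.1.2.1) q
  have e2 : fl1 (A n) ((X.G g n).e x 2) = fl1 (A n) ((X.G g n).e y 2) := congrArg (·.2.2.1.2) q
  simp only [U.rd, e1, e2]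

end Pool.Agent.MP_5168f5_an.R4.B2
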