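import Pool.Agent.MP_5168f5_an.R4.BApi

/-! Planarity for a variable that is affine along the lines, on a class. -/

namespace Pool.Agent.MP_5168f5_an.R4.B2L

open H19 H17S H17F Filter Tan B1

/-- The plane of the height and of the variable `α + t s`, in the context `κ`. -/
def g1 {N : ℕ} {Ω T : Type} (g : Geo N Ω) (α s : Ω → ℝ) (κ : Ω → T) : Geo 1 Ω :=
  ⟨T, ℝ × T, fun ω _ => α ω, fun ω _ => s ω, g.z, κ, fun ω => (g.z ω, κ ω)⟩

theorem bs_g1 {N : ℕ} {Ω T : ℕ → Type} {P : ∀ n, FP (Ω n)} {g : Gs N Ω} {M : ℕ → ℕ}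
    {α s : ∀ n, Ω n → ℝ} {κ : ∀ n, Ω n → T n} {L : ℕ → ℝ} (h : Bs P g M) (hL : Sub M L)
    (e : ∀ᶠ n in UF, Fn (P n) (fun ω => (α n ω, s n ω, κ n ω)) (g n).ln ∧
      Fn (P n) (g n).θ (κ n) ∧ ∀ ω ∈ (P n).S, |α n ω| ≤ L n ∧ |s n ω| ≤ L n) :
    Bs P (fun n => g1 (g n) (α n) (s n) (κ n)) M := by
  obtain ⟨L₀, -, b⟩ := h.bx
  have k : ∀ᶠ n in UF, Fn (P n) (κ n) (g n).ln := e.mono fun n u =>
    (Fn.comp (fun x : ℝ × ℝ × T n => x.2.2) _).trans u.1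
  have i : Sm M fun n => mi (P n) (g n).z (g n).ln (κ n) :=
    h.inf.mono ((e.and k).mono fun n u => mi_cond u.1.2.1 (u.2.left _))
  refine ⟨h.big, ⟨L, hL, (e.and b).mono fun n u =>
    ⟨fun ω hω => ⟨fun _ => u.1.2.2 ω hω, (u.2.bd ω hω).2⟩, Fn.fst _ _, Fn.snd _ _⟩⟩,
    i.mono (e.mono fun n u => mi_mono (Fn.left ((Fn.comp
      (fun x : ℝ × ℝ × T n => ((fun _ => x.1 : V 1), (fun _ => x.2.1 : V 1), x.2.2)) _).trans u.1)
      _)), h.hgt.of2 h.inf ((e.and k).mono fun n u => ?_)⟩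
  have h1 : mi (P n) (fun ω => fl1 (M n) ((g n).z ω)) (g n).ln (g n).θ ≤
      mi (P n) (g n).z (g n).ln (g n).θ := mi_mono' ((Fn.comp _ _).left _)
  have h2 : ch (P n) (fun ω => fl1 (M n) ((g n).z ω)) (fun ω => ((g n).ln ω, (g n).θ ω)) ≤
      ch (P n) (fun ω => fl1 (M n) ((g n).z ω)) (κ n) := ch_anti (u.2.left _)
  unfold mi at h1
  change _ - ch (P n) (fun ω => fl1 (M n) ((g n).z ω)) (κ n) ≤ _
  unfold mi
  linarith

/-- The value at the height determines the slope. -/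
theorem plc {N : ℕ} {Ω T : ℕ → Type} {K : Mb Ω → Prop} {g : Gs N Ω} {M q s₀ : ℕ → ℕ}
    (α s : ∀ n, Ω n → ℝ) (κ : ∀ n, Ω n → T n) {c ε₀ : ℝ} {X : Mb Ω} (cl : Cl0 K)
    (bs : ∀ C : ℕ, 0 < C → ∀ X, K X → Bs X.P (X.G g) fun n => C * M n)
    (fn : ∀ X, K X → ∃ L, Sub M L ∧ ∀ᶠ n in UF,
      Fn (X n).Q (fun v => (α n ((X n).ρ v), s n ((X n).ρ v), κ n ((X n).ρ v))) (X.G g n).ln ∧
      Fn (X n).Q (X.G g n).θ (fun v => κ n ((X n).ρ v)) ∧
      ∀ v ∈ (X n).Q.S, |α n ((X n).ρ v)| ≤ L n ∧ |s n ((X n).ρ v)| ≤ L n)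
    (hq : OM M q) (hs : OM M s₀) (hc : 0 < c) (cs : ∀ᶠ n in UF, c * M n ≤ s₀ n) (e0 : 0 < ε₀)
    (ng : ∀ X, K X → ∀ a b : ℕ → ℕ, (∀ᶠ n in UF, a n ≤ b n ∧ b n ≤ q n + s₀ n) →
      Le M (fun n => ch (X n).Q
        (fun v => fl1 (b n) (α n ((X n).ρ v) + (X.G g n).z v * s n ((X n).ρ v))) fun v =>
          (fl1 (a n) (α n ((X n).ρ v) + (X.G g n).z v * s n ((X n).ρ v)), (X.G g n).z v,
            κ n ((X n).ρ v))) fun n => (1 - ε₀) * (b n - a n) * lg) (hX : K X) :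
    ND X.P M (fun n v => fl1 (q n) (s n ((X n).ρ v))) fun n v =>
      (fl1 (q n + s₀ n) (α n ((X n).ρ v) + (X.G g n).z v * s n ((X n).ρ v)), (X.G g n).z v,
        κ n ((X n).ρ v)) := by
  obtain ⟨C, C0, e1, e2, e3⟩ := om_big (hq.add hs)
  have C1 : (0 : ℝ) < C := by exact_mod_cast C0
  have hM : Big M := big_unit e3 (bs C C0 X hX).big
  have k := pl K (fun n => g1 (g n) (α n) (s n) (κ n)) (fun n => C * M n) (fun _ => 0)
    (fun n => min (q n + s₀ n) (C * M n))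
    (fun n => min (q n + s₀ n) (C * M n) - min (s₀ n) (C * M n))
    (fun n => min (s₀ n) (C * M n)) 0 ε₀ X cl (fun Y hY => by
      obtain ⟨L, hL, e⟩ := fn Y hY
      exact bs_g1 (bs C C0 Y hY) (sub_unit e2 hL) e) hX e0
    ⟨fun n => min_le_right _ _, c / C, by positivity, by
      filter_upwards [e1, cs] with n u v
      rw [min_eq_left (by omega)]
      push_cast
      rwa [← mul_assoc, div_mul_cancel₀ _ C1.ne']⟩
    (fun n => ⟨Nat.zero_le _, by omega, min_le_right _ _⟩)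
    (fun Y hY a b e => le_unit e2 (ng Y hY a b (Eventually.of_forall fun n =>
      ⟨(e n).2.1, (e n).2.2.trans (min_le_left _ _)⟩)))
  obtain ⟨L, hL, e⟩ := fn X hX
  refine ND.cut (F' := fun n v => fl1 0 (s n ((X n).ρ v)))
    (ND.sure (c := fun _ _ => 0) (j := fun _ => 0) hM hL (e.mono fun n u =>
      ⟨fun _ _ _ _ _ => rfl, fun v hv => by simpa using (u.2.2 v hv).2⟩)) ?_
  refine Sm.mono (le_unit e3 k) (e1.mono fun n u => le_of_eq ?_)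
  have u1 : min (q n + s₀ n) (C * M n) - min (s₀ n) (C * M n) = q n := by omega
  have u2 : min (s₀ n) (C * M n) = s₀ n := by omega
  simp only [u1]
  simp only [u2]
  rfl

end Pool.Agent.MP_5168f5_an.R4.B2L
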