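import Pool.Agent.MP_5168f5_an.R4.SpecB2
import Pool.Agent.MP_5168f5_an.R4.BPlc

/-! The point and the lines of the other coordinates determine the last slope. -/

namespace Pool.Agent.MP_5168f5_an.R4.B2

open H19 H17S H17F Filter K31 Tan B1

theorem rowPLp : RPLp := by
  intro ng Ω K g M mm D η γ d ε₀ κ X q s p r h hd hX hr hκ e
  have hM := h.toTn.big
  have g0 : 0 ≤ γ := zero_le_one.trans h.one
  have hqs : OM M fun n => q n + s n := hr.mono (e.mono fun n u => u.2.1.trans u.2.2.1)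
  have k := B2L.plc (K := K) (g := g) (M := M) (q := q) (s₀ := s) (fun n ω => (g n).a ω 2)
    (fun n ω => (g n).e ω 2) (fun n ω => (ul (g n) (p n) (r n) ω, (g n).θ ω)) (X := X)
    h.cl.toCl0 (fun C hC Y hY => (h.cls C hC).bs Y hY) (fun Y hY => by
      obtain ⟨L, hL, bx⟩ := h.toTn.bx hY
      exact ⟨L, hL, bx.mono fun n b => ⟨Fn.comp (fun l : V 3 × V 3 × _ => (l.1 2, l.2.1 2,
        ((fl1 (r n) (l.1 0), fl1 (r n) (l.2.1 0)), fl1 (r n) (l.2.1 1), fl1 (p n) (l.1 1)), l.2.2))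
        _, Fn.snd _ _, fun v hv => (b.bd v hv).1 2⟩⟩)
    (hqs.mono (Eventually.of_forall fun n => Nat.le_add_right _ _))
    (hqs.mono (Eventually.of_forall fun n => Nat.le_add_left _ _)) hκ (e.mono fun _ u => u.1)
    h.e0.1 (fun Y hY a b hab => by
      obtain ⟨L, -, bx⟩ := h.toTn.bx hY
      have hz : ∀ᶠ n in UF, ∀ ω ∈ (Y n).Q.S, |(Y.G g n).z ω| ≤ 1 := bx.mono fun n b ω hω =>
        abs_le.2 ⟨by linarith [(b.bd ω hω).2.1], (b.bd ω hω).2.2.le⟩
      refine (ND.le (ND.of_fn (Eventually.of_forall fun n => Fn.fst _ _))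
        ((ND.of_fn (Eventually.of_forall fun n => Fn.fst _ _)).pair (ND.pair ?_ (ND.pair ?_
          (ND.of_fn (Eventually.of_forall fun n _ _ _ _ w =>
            Prod.ext (congrArg (·.2.1) w) (congrArg (·.2.2.2) w))))))).trans
        (ng K g M mm D η γ d ε₀ Y a b p r h hY hr ((e.and hab).mono fun n u =>
          ⟨u.2.1, u.1.2.2.1, le_trans (mul_le_mul_of_nonneg_left (Nat.cast_le.2 u.2.2) g0)
            u.1.2.2.2⟩) (Le.of_ev ((e.and hab).mono fun n u => mul_le_mul hd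
              (Nat.cast_le.2 (u.2.2.trans u.1.2.1)) (Nat.cast_nonneg _) (g0.trans hd)))
          (Or.inr ((e.and hab).mono fun n u => u.2.2.trans u.1.2.1)))
      · exact nd_pt hM ((hz.and e).mono fun n u => ⟨fun _ _ _ _ w => Prod.ext
          (congrArg (·.2.2.1.2.2) w) (Prod.ext (fl1_eq_of_le u.2.2.2.1 (congrArg (·.2.2.1.2.1) w))
            (congrArg (·.2.1) w)), u.1⟩)
      · exact nd_pt hM (hz.mono fun n u => ⟨fun _ _ _ _ w => Prod.ext
          (congrArg (·.2.2.1.1.1) w) (Prod.ext (congrArg (·.2.2.1.1.2) w)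
            (congrArg (·.2.1) w)), u⟩)) hX
  exact k.anti (Eventually.of_forall fun n _ _ _ _ w => Prod.ext (congrArg (·.1) w)
    (Prod.ext (congrArg (·.2.2.1) w) (Prod.ext (congrArg (·.2.1) w) (congrArg (·.2.2.2) w))))

end Pool.Agent.MP_5168f5_an.R4.B2
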