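import Pool.Agent.MP_5168f5_an.R4.SpecB2

/-! Kakeya sets in four dimensions, weight two with a determined slope: a prepared member. -/

namespace Pool.Agent.MP_5168f5_an.R4.B2

open H19 H17S H17F Filter K31 Tan B1

theorem rowPrV : RPrV := by
  intro gl Ω K g M mm D η d ε₀ C a A s R J r h v b q' ε hε e
  obtain ⟨X, hX⟩ := h.ne
  have hM := h.toTn.big
  have oa : OM M a := v.om.mono (v.ev.mono fun n u => by omega)
  have oR : OM M R := OM.rfl.mono (v.ev.mono fun n u => by omega)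
  obtain ⟨E, hE, fE⟩ := gl K g M mm D η 2 d ε₀ ε X b (fun n => 2 * b n) q' R r h.toT2 h.lt.le hX
    v.om hε (by
      filter_upwards [e, v.ev] with n u w
      exact ⟨by push_cast; exact le_rfl, u.2.1, u.2.2.1,
        by exact_mod_cast (by omega : 2 * q' n ≤ r n), u.2.2.2.2.1⟩)
  obtain ⟨L, hL, w⟩ := cell_near (p := fun n => A n + R n) ((h.fl X hX).cellH h.lt.le) hM
    (zero_le_one.trans h.dge) oa (Le.of_ev (v.ev.mono fun n u => u.2.2.2))
  have hE' := hE.and w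
  have hY := h.cl.cond X _ hX hE'
  obtain ⟨L₀, hL₀, bx⟩ := h.toTn.bx hY
  obtain ⟨L₁, hL₁, cv⟩ := (h.fl _ hY).conv b a R oa (e.mono fun n u => ⟨u.1, u.2.2.2.2.2⟩)
  refine ⟨_, _, hY, hL₀.add hL hM, ?_, ND.near (c := fun n v => U.rd (R n) (Gc (mD X D) b n v)) hM
    ((hL.add hL₁ hM).add (hM.sub le_rfl) hM) oR ?_ (cv.mono (.of_forall fun n x _ u => ?_))⟩
  · filter_upwards [bx, hE'.sure] with n u z
    have p := hL.pos n
    have p0 := hL₀.pos n
    refine ⟨⟨fun ω hω => ⟨fun i => ⟨((u.bd ω hω).1 i).1.trans (by linarith),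
      ((u.bd ω hω).1 i).2.trans (by linarith)⟩, (u.bd ω hω).2⟩, u.fz, u.fθ⟩, fun x hx => ?_⟩
    obtain ⟨-, -, -, v2, v3, -⟩ := z x hx
    rw [sum01 fun i => (v2 i).2, ← sub_sub] at v3
    exact ⟨(v2 0).1.trans (by linarith), (v2 1).1.trans (by linarith),
      v3.trans (div_le_div_of_nonneg_right (by linarith) (by positivity))⟩
  · filter_upwards [fE, hE.ex, hE'.sure, e] with n f k z u
    refine ⟨fun x hx y hy t => U.rd_congr (f x ((mem_cE k x).2 ⟨(z x hx).1, (z x hx).2.1⟩) y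
      ((mem_cE k y).2 ⟨(z y hy).1, (z y hy).2.1⟩) ?_), fun x hx =>
        ((z x hx).2.2.2.1 1).1.trans (by linarith [hL₁.pos n])⟩
    obtain ⟨t1, t⟩ := Prod.mk.inj t
    obtain ⟨t2, t3⟩ := Prod.mk.inj t
    exact Prod.ext (fl1_eq_of_le u.2.2.2.1 t1) (Prod.ext (fl1_eq_of_le u.2.2.2.1 t2) t3)
  · have k := U.abs_sub_rd (R n) (Gc (mD X D) b n x)
    have k2 : |Gc (mD X D) a n x - Gc (mD X D) b n x| ≤ L₁ n / 2 ^ R n := (abs_sub_comm _ _).trans_le u
    refine ((abs_sub_le _ _ _).trans (add_le_add k2 k)).trans ?_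
    rw [← add_div]
    exact div_le_div_of_nonneg_right (by linarith [hL.pos n]) (by positivity)

end Pool.Agent.MP_5168f5_an.R4.B2
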