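import Pool.Agent.MP_5168f5_an.R4.SpecB2
import Pool.Agent.MP_5168f5_an.R4.BB1a

/-! Kakeya sets in four dimensions: the cell at a copied height gives a filled segment. -/

namespace Pool.Agent.MP_5168f5_an.R4.B2

open H19 H17S H17F Filter K31 Tan B1

namespace B2SgCA

section One

variable {Ω : Type} {P : FP Ω} {g : Geo 3 Ω} {L : ℝ}

theorem cop {v : Ω × Ω} (h : v ∈ (glue P P g.ln g.ln).S) : v.1 ∈ P.S ∧ v.2 ∈ P.S ∧
    g.a v.1 = g.a v.2 ∧ g.e v.1 = g.e v.2 ∧ g.θ v.1 = g.θ v.2 := by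
  obtain ⟨a, b, c⟩ := (U.mem_copy _ _ v).1 h
  simp only [Geo.ln, Prod.mk.injEq] at c
  exact ⟨a, b, c.1.symm, c.2.1.symm, c.2.2.symm⟩

theorem pt_eq {v : Ω × Ω} (h : v ∈ (glue P P g.ln g.ln).S) (i : Fin 3) :
    g.pt v.1 i = g.pt v.2 i + (g.z v.1 - g.z v.2) * g.e v.2 i := by
  change g.a v.1 i + g.z v.1 * g.e v.1 i = g.a v.2 i + g.z v.2 * g.e v.2 i + _
  rw [(cop h).2.2.1, (cop h).2.2.2.1]
  ring

theorem dz (b : g.Bx P L) {v : Ω × Ω} (h : v ∈ (glue P P g.ln g.ln).S) :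
    |g.z v.1 - g.z v.2| ≤ 1 ∧ |g.z v.1| ≤ 1 ∧ |g.z v.2| ≤ 1 := by
  have h1 := (b.bd _ (cop h).1).2
  have h2 := (b.bd _ (cop h).2.1).2
  simp only [abs_le]
  refine ⟨⟨?_, ?_⟩, ⟨?_, ?_⟩, ?_, ?_⟩ <;> linarith [h1.1, h1.2, h2.1, h2.2]

theorem drop {α β : Type} (F : Ω → α) (G : Ω → β) (h : Fn P g.θ G) :
    ch P F G ≤ ch (glue P P g.ln g.ln) (fun v => F v.2) (fun v => (g.z v.1, G v.2)) +
      mi P g.z g.ln g.θ := by
  have l2 := kg.snd P P g.ln g.ln (Law.rfl _)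
  have h1 := ch_le_mi (P := glue P P g.ln g.ln) (F := fun v => F v.2) (G := fun v => g.z v.1)
    (K := fun v => G v.2) (Fn.rfl _)
  have h2 : mi (glue P P g.ln g.ln) (fun v => g.z v.1) (fun v => F v.2) (fun v => G v.2) ≤
      mi (glue P P g.ln g.ln) (fun v => g.z v.1) (fun v => (g.ln v.1, v.2)) fun v => g.θ v.1 :=
    mi_right (fun a ha b hb e => (cop ha).2.2.2.2.trans
      ((h _ (cop ha).2.1 _ (cop hb).2.1 e).trans (cop hb).2.2.2.2.symm))
      (fun _ _ _ _ e => congrArg (fun x => G x.1.2) e) fun _ _ _ _ e =>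
        congrArg (fun x => F x.1.2) e
  have h3 : mi (glue P P g.ln g.ln) (fun v => g.z v.1) Prod.snd
      (fun v => (g.ln v.1, g.θ v.1)) = 0 :=
    (mi_symm _ _ _).trans (kf2.copy P g.ln g.z id (fun ω => (g.ln ω, g.θ ω)) (Fn.fst _ _))
  rw [mi_chain, (kg.fst P P g.ln g.ln).mi_id, h3, mi_symm] at h2
  rw [← l2.ch_id]
  linarith

end One

theorem ful {Ω Λ : ℕ → Type} {P : ∀ n, FP (Ω n)} {g : Gs 3 Ω} {S : ∀ n, Ω n → Λ n}
    {M p τ r : ℕ → ℕ} {L : ℕ → ℝ} (hM : Big M) (bx : ∀ᶠ n in UF, (g n).Bx (P n) (L n))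
    (le : ∀ᶠ n in UF, p n ≤ τ n ∧ τ n ≤ r n)
    (nil : ND P M (fun n v => fl1 (r n) ((g n).e v 1)) fun n v => (bl (g n) (r n) v, (g n).θ v))
    (lp : ND P M (fun n v => fl1 (τ n) ((g n).e v 2)) fun n v =>
      (S n v, bl (g n) (r n) v, (g n).z v)) :
    Le M (fun n => ch (glue (P n) (P n) (g n).ln (g n).ln) (fun v => fl1 (τ n) ((g n).pt v.2 1))
      fun v => ((g n).z v.1, fl1 (p n) ((g n).pt v.2 1), S n v.2, xz (g n) (r n) v.2,
        fl1 (r n) ((g n).e v.2 0)))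
      fun n => ch (glue (P n) (P n) (g n).ln (g n).ln) (fun v => fl1 (τ n) ((g n).pt v.1 1))
        fun v => (fl1 (p n) ((g n).pt v.1 1), (S n v.2, (g n).z v.2, bl (g n) (r n) v.2,
          fl1 (r n) ((g n).e v.2 1), fl1 (τ n) ((g n).e v.2 2)), xz (g n) (r n) v.1) := by
  have dn := U.dnS_snd P fun n => (g n).ln
  have one := hM.sub (le_refl (1 : ℝ))
  have hb : ND (fun n => glue (P n) (P n) (g n).ln (g n).ln) M (fun n v => bl (g n) (r n) v.2)
      fun n v => ((g n).z v.1, fl1 (p n) ((g n).pt v.2 1), S n v.2, xz (g n) (r n) v.2,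
        fl1 (r n) ((g n).e v.2 0)) := by
    refine ND.pair ((nd_pt (r := r) (a := fun n v => (g n).pt v.2 0) (e := fun n v => (g n).e v.2 0)
      (z := fun n v => -(g n).z v.2) hM (bx.mono fun n b => ⟨fun x _ y _ w => ?_, fun v hv => by
        rw [abs_neg]; exact (dz b hv).2.2⟩)).mono (Eventually.of_forall fun n x _ y _ w => ?_))
      (ND.of_fn (Eventually.of_forall fun n x _ y _ w => congrArg (·.2.2.2.2) w))
    · simp only [xz, Geo.zt, Prod.mk.injEq, neg_inj] at w ⊢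
      tauto
    · simpa [Geo.pt, Geo.lt] using w
  have h1 := (nil.dn dn).trans (hb.pair (ND.of_fn
    (Eventually.of_forall fun n x _ y _ w => congrArg (·.2.2.2.1.2.2) w)))
  have h2 := (lp.dn dn).trans ((ND.of_fn (Eventually.of_forall fun n x _ y _ w =>
    congrArg (·.2.2.1) w)).pair (hb.pair (ND.of_fn
      (Eventually.of_forall fun n x _ y _ w => congrArg (·.2.2.2.1.2.1) w))))
  refine ND.le (ND.cut (h1.anti (Eventually.of_forall fun n => Fn.snd _ _)) ?_) (ND.pair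
    (ND.cut h1 ?_) (ND.pair ((ND.of_fn (Eventually.of_forall fun n x _ y _ w =>
      congrArg (·.2.2.1) w)).pair ((ND.of_fn (Eventually.of_forall fun n x _ y _ w =>
        congrArg (·.2.2.2.1.2.1) w)).pair (hb.pair (h1.pair h2)))) (ND.pair (ND.cut hb ?_)
          (ND.of_fn (Eventually.of_forall fun n x hx y hy w => ?_)))))
  · refine BB1aA.nd_sh (r := r) (fun n v => (g n).pt v.1 1) (fun n v => (g n).z v.2 - (g n).z v.1)
      (fun n v => (g n).e v.2 1) hM one ?_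
    filter_upwards [bx, le] with n b l
    refine ⟨l.2, fun x _ y _ w => ?_, fun v hv => ⟨by rw [abs_sub_comm]; exact (dz b hv).1,
      by rw [pt_eq hv]; ring⟩⟩
    simp only [xz, Geo.zt, Prod.mk.injEq] at w ⊢
    exact ⟨w.2.1, by rw [w.2.2.1, w.2.2.2.2.2.1.2.1], w.1⟩
  · refine BB1aA.nd_sh (r := r) (fun n v => (g n).pt v.2 1) (fun n v => (g n).z v.1 - (g n).z v.2)
      (fun n v => (g n).e v.2 1) hM one ?_
    filter_upwards [bx, le] with n b l
    refine ⟨l.1.trans l.2, fun x _ y _ w => ?_, fun v hv => ⟨(dz b hv).1, pt_eq hv 1⟩⟩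
    simp only [xz, Geo.zt, Prod.mk.injEq] at w ⊢
    exact ⟨w.2.2.1, by rw [w.2.1, w.2.2.2.2.1.2.1], w.1⟩
  · refine (nd_pt (r := r) (a := fun n v => (g n).a v.1 0) (e := fun n v => (g n).e v.1 0)
      (z := fun n v => (g n).z v.1) hM (bx.mono fun n b => ⟨fun x hx y hy w => ?_,
        fun v hv => (dz b hv).2.1⟩)).mono (Eventually.of_forall fun n x _ y _ w => by
          simpa [Geo.pt, Geo.lt] using w)
    simp only [bl, Prod.mk.injEq, (cop hx).2.2.1, (cop hy).2.2.1, (cop hx).2.2.2.1,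
      (cop hy).2.2.2.1] at w ⊢
    tauto
  · simp only [xz, Geo.zt, Prod.mk.injEq, (cop hx).2.2.2.2, (cop hy).2.2.2.2] at w ⊢
    tauto

theorem alg {y h₀ G s t a₀ w e₁ e₂ L : ℝ} {τ r : ℕ} (l : 1 ≤ L) (e : τ ≤ r) (h : |y| ≤ L / 2 ^ τ)
    (h0 : |h₀| ≤ L) (hG : |G| ≤ L) (hs : |s| ≤ 1) (ht : |t| ≤ 1) :
    |y + h₀ * (a₀ - U.rd r a₀ + t * (w - U.rd r w)) + s * (e₂ - U.rd τ e₂) -
      s * (G * (e₁ - U.rd r e₁))| ≤ 5 * L / 2 ^ τ := by
  have k : ∀ x, |x - U.rd r x| ≤ 1 / 2 ^ τ := fun x =>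
    (U.abs_sub_rd r x).trans (U.div_pow_le zero_le_one e)
  have m : ∀ {x y u v : ℝ}, |x| ≤ u → |y| ≤ v → |x * y| ≤ u * v := fun {x y _ _} a b =>
    (abs_mul x y).trans_le (mul_le_mul a b (abs_nonneg _) ((abs_nonneg _).trans a))
  refine ((abs_sub _ _).trans (add_le_add ((abs_add_le _ _).trans (add_le_add
    ((abs_add_le _ _).trans (add_le_add h (m h0 ((abs_add_le _ _).trans
      (add_le_add (k _) (m ht (k _))))))) (m hs (U.abs_sub_rd τ _)))) (m hs (m hG (k _))))).trans ?_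
  have := mul_le_mul_of_nonneg_right l (show (0 : ℝ) ≤ 1 / 2 ^ τ by positivity)
  rw [div_eq_mul_one_div L, div_eq_mul_one_div (5 * L)]
  linarith

end B2SgCA

open B2SgCA

theorem rowSgC : RSgC := by
  intro uf Ω K g M mm D η d ε₀ X a τ r h hd nil hX hr lp le
  have c := h.com X hX
  have hM := h.toTn.big
  obtain ⟨L₀, -, bx⟩ := h.toTn.bx hX
  have ha : OM M a := hr.mono (le.mono fun n u => by omega)
  obtain ⟨L, hL, w⟩ := cell_near (p := τ) ((h.fl X hX).cellH hd.le) hM (by linarith) ha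
    (Le.of_ev (le.mono fun n u => u.2.1))
  refine ⟨⟨fun n v => ((mD X D n).H (a n) v.2).1 + ((mD X D n).H (a n) v.2).2.1 * (X.G g n).z v.2 +
    ((mD X D n).H (a n) v.2).2.2 0 * (U.rd (r n) ((X.G g n).a v.2 0) +
      (X.G g n).z v.2 * U.rd (r n) ((X.G g n).e v.2 0)) + ((X.G g n).z v.1 - (X.G g n).z v.2) *
      (U.rd (τ n) ((X.G g n).e v.2 2) - Gc (mD X D) a n v.2 * U.rd (r n) ((X.G g n).e v.2 1)), _,
    hL.const_mul hM (C := 5) (by norm_num), c.nest.mono fun n u => ?_,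
    ((U.dnS_snd X.P fun n => (X.G g n).ln).whp w).mono ?_⟩, ?_⟩
  · have k : ∀ x ∈ (glue (X n).Q (X n).Q (X.G g n).ln (X.G g n).ln).S,
        ∀ y ∈ (glue (X n).Q (X n).Q (X.G g n).ln (X.G g n).ln).S,
        (mD X D n).S (a n) x.2 = (mD X D n).S (a n) y.2 →
        (D n).H (a n) ((X n).ρ x.2) = (D n).H (a n) ((X n).ρ y.2) := fun x hx y hy s =>
      congrArg (·.2.2.2.2) ((u.2 (a n)).2 _ (cop hx).2.1 _ (cop hy).2.1 s)
    refine ⟨fun x hx y hy s => congrArg (·.2.2 1) (k x hx y hy (congrArg (·.1) s)),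
      fun x hx y hy s => ?_⟩
    simp only [gc, bl, xz, Geo.zt, Prod.mk.injEq] at s
    simp only [Gc, U.rd, k x hx y hy s.1.1, s.1.2.1, s.1.2.2.1.1, s.1.2.2.1.2, s.1.2.2.2.1,
      s.1.2.2.2.2, s.2.2.1]
  · filter_upwards [bx, le] with n b l v hv u
    refine ⟨(u.2.1 1).1.trans (by linarith [hL.pos n]), ?_⟩
    have v3 := u.2.2.1
    rw [sum01 fun i => (u.2.1 i).2] at v3
    refine le_of_eq_of_le (congrArg _ ?_) (alg (a₀ := (X.G g n).a v.2 0) (w := (X.G g n).e v.2 0)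
      (e₁ := (X.G g n).e v.2 1) (e₂ := (X.G g n).e v.2 2) (hL.1 n) l.2.2 v3 (u.2.1 0).1 (u.2.1 1).1
      (dz b hv).1 (dz b hv).2.2)
    rw [pt_eq hv 1, pt_eq hv 2, show (X.G g n).pt v.2 0 =
      (X.G g n).a v.2 0 + (X.G g n).z v.2 * (X.G g n).e v.2 0 from rfl]
    simp only [Gc]
    ring
  · have i := le_unit (M' := M) (C := 1) (Eventually.of_forall fun n => by simp)
      ((h.cls 1 one_pos).bs X hX).inf
    refine Le.of3 (uf K g M mm D η 2 d X a (fun n => 2 * a n) τ r h.toTn hX hr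
      (le.mono fun n u => ⟨by push_cast; exact le_rfl, u.1, u.2.2⟩)) i
      (ful (p := fun n => 2 * a n) hM bx (le.mono fun n u => ⟨u.1, u.2.2⟩)
        (nil X hX r r hr (Eventually.of_forall fun n => ⟨le_rfl, by norm_num⟩)) lp)
      (Eventually.of_forall fun n => ?_)
    have := drop (P := (X n).Q) (g := X.G g n) (fun v => fl1 (τ n) ((X.G g n).pt v 1))
      (fun v => (fl1 (2 * a n) ((X.G g n).pt v 1), (mD X D n).S (a n) v, xz (X.G g n) (r n) v,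
        fl1 (r n) ((X.G g n).e v 0))) fun _ _ _ _ e => congrArg (·.2.2.1.2.2) e
    unfold gc
    linarith

end Pool.Agent.MP_5168f5_an.R4.B2
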