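import Pool.Agent.MP_5168f5_an.R4.SpecB2
import Pool.Agent.MP_5168f5_an.R4.BB1G

/-! Kakeya sets in four dimensions, weight two: the slope of the cells is a function of the
line. -/

namespace Pool.Agent.MP_5168f5_an.R4.B2

open H19 H17S H17F Filter K31 Tan B1

theorem rowShA : RShA := by
  intro sk c3 maj up2 sgc Ω K g M mm D η d ε₀ κ X a τ r h h2 nil hX r1 lp k0 ev
  have hM := h.toTn.big
  have e0 := h.e0.1
  have e : 0 < d - 2 := by linarith
  obtain ⟨A, A0, A1, A2⟩ : ∃ A : ℝ, 0 < A ∧ (d - 2) * A ≤ ε₀ * κ / 2 ∧ A ≤ κ := by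
    refine ⟨min (ε₀ * κ / 2 / (d - 2)) κ, lt_min (by positivity) k0, ?_, min_le_right _ _⟩
    rw [← le_div_iff₀' e]; exact min_le_left _ _
  have le : ∀ᶠ n in UF, 2 * a n ≤ τ n := ev.mono fun n u => by
    have : 0 ≤ κ * M n := by positivity
    exact_mod_cast (show ((2 * a n : ℕ) : ℝ) ≤ τ n by linarith [u.2.1])
  have tr : ∀ᶠ n in UF, τ n ≤ r n := ev.mono fun n u => by have := u.2.2.2; omega
  have ob : OM M a := r1.mono ((le.and tr).mono fun n u => by omega)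
  have s0 := BB1GA.cell (q := fun n => 2 * a n) (q' := τ) h h2.le hX ob r1
    ((le.and tr).mono fun n u => ⟨by push_cast; exact le_rfl, u.1, u.2⟩)
    (Le.of_ev (ev.mono fun n u => u.2.2.1))
  have dn := U.dnS_fst X.P X.P (fun n => (X.G g n).ln) fun n => (X.G g n).ln
  have s1 := sk.dn _ _ _ _ _ _ M _ _ _ _ hM le s0 dn
  have s2 := sgc K g M mm D η d ε₀ X a τ r h h2 nil hX r1 lp
    ((le.and (ev.and tr)).mono fun n u => ⟨u.1, u.2.1.2.2.1, u.2.2⟩)
  have up := up2 K g M mm D η 2 d ε₀ X _ _ (fun n => 2 * a n) τ r h h2.le hX dn r1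
    ((le.and ev).mono fun n u => ⟨u.1, by exact_mod_cast u.2.2.2.2⟩)
  obtain ⟨L₀, hL₀, bx⟩ := h.toTn.bx hX
  have dA : 0 ≤ (d - 2) * A := mul_nonneg e.le A0.le
  have w := c3 _ _ _ _ _ _ _ _ M (fun n => 2 * a n) τ (lev M ((d - 2) * A)) ε₀
    ⟨hM, r1.mono tr, le, ⟨ε₀ * κ / 2, by positivity, ev.mono fun n u => by
      have := mul_le_mul_of_nonneg_left u.2.1 e0.le
      have := mul_le_mul_of_nonneg_right A1 (Nat.cast_nonneg (α := ℝ) (M n))
      nlinarith [lev_le' M dA n]⟩,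
      ⟨_, hL₀.const_mul hM one_le_two, bx.mono fun n a x hx =>
        ⟨abs_pt a ((U.mem_copy _ _ x).1 hx).1 1, abs_pt a ((U.mem_copy _ _ x).1 hx).1 2⟩⟩,
      s1, s2, up⟩
  obtain ⟨E, hE, fE⟩ := maj X.P X.P _ _ (Gc (mD X D) a) (Gc (mD X D) a) _ w
  obtain ⟨_, L, hL, -, wL⟩ := s0.fit
  have hE' := hE.and (wL.mono (F := fun n ω => |Gc (mD X D) a n ω| ≤ L n)
    (Eventually.of_forall fun n ω _ u => u.1))
  refine ⟨X.cond _, lev M A, lev M ((d - 2) * A), A / 2, ⟨h.cl.cond X _ hX hE', ob,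
    ev.mono fun n u => ?_, ?_, ?_, L, hL, hE'.sure.mono fun n u x hx => (u x hx).2.2⟩,
    half_pos A0, (hM.sm 1 _ (half_pos A0)).mono fun n u => by linarith [lt_lev M A n]⟩
  · have k2 := mul_le_mul_of_nonneg_right A2 (Nat.cast_nonneg (α := ℝ) (M n))
    exact_mod_cast (lev_le' M A0.le n).trans (k2.trans u.1)
  · have k := lev_eqv hM A0.le
    have k' := lev_eqv hM dA
    exact ⟨k'.1.of2 (k.2.smul e.le) (Eventually.of_forall fun n => by linarith),
      k'.2.of2 (k.1.smul e.le) (Eventually.of_forall fun n => by linarith)⟩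
  · filter_upwards [fE, hE.ex, hE'.sure] with n u v s x hx y hy t
    exact u x ((mem_cE v x).2 ⟨(s x hx).1, (s x hx).2.1⟩) y
      ((mem_cE v y).2 ⟨(s y hy).1, (s y hy).2.1⟩) t

end Pool.Agent.MP_5168f5_an.R4.B2
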