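import Pool.Agent.MP_5168f5_an.R4.SpecB2
import Pool.Agent.MP_5168f5_an.R4.BB1G

/-! Kakeya sets in four dimensions, weight two: the rate of the pair and the slope of the cells. -/

namespace Pool.Agent.MP_5168f5_an.R4.B2

open H19 H17S H17F Filter K31 Tan B1

theorem B2UpA.le {γ : ℝ} (h : 1 ≤ γ) {a b : ℕ} (k : γ * a ≤ b) : a ≤ b :=
  Nat.cast_le.1 ((le_mul_of_one_le_left (Nat.cast_nonneg _) h).trans k)

theorem rowUp2 : RUp2 := by
  intro ng Ω W K g M mm D η γ d ε₀ X Q f q q' r h e hX hf hr hq W' Q' σ hσ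
  refine (ng K g M mm D η γ d ε₀ _ q q' q' r h (h.cl.toCl0.dn hX (hσ.trans hf)) hr
    (hq.mono fun n u => ⟨u.1, B2UpA.le h.one u.2, u.2⟩) (Le.of_le fun n =>
      mul_le_mul_of_nonneg_right e (Nat.cast_nonneg _))
    (Or.inr (Eventually.of_forall fun _ => le_rfl))).of_sub (hq.mono fun n u => ?_)
  have h1 := ch_fl1_refine (P := Q' n) (x := fun v => (X.G g n).pt (f n (σ n v)) 1)
    (G := fun v => (fl1 (q n) ((X.G g n).pt (f n (σ n v)) 1),
      fl1 (q n) ((X.G g n).pt (f n (σ n v)) 2), xz (X.G g n) (r n) (f n (σ n v))))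
    (j := fun _ => q n) (i := fun _ => q' n - q n) (fun _ _ _ _ _ => rfl) (fun _ _ _ _ _ => rfl)
    (Fn.fst _ _)
  rw [FP.E_const, Nat.add_sub_cancel' u.1, Nat.cast_sub u.1] at h1
  have h2 := ch_anti (P := Q' n) (F := fun v => fl1 (q' n) ((X.G g n).pt (f n (σ n v)) 2))
    (G := fun v => (fl1 (q n) ((X.G g n).pt (f n (σ n v)) 2),
      fl1 (q' n) ((X.G g n).pt (f n (σ n v)) 1), xz (X.G g n) (r n) (f n (σ n v))))
    (G' := fun v => (fl1 (q' n) ((X.G g n).pt (f n (σ n v)) 1),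
      fl1 (q n) ((X.G g n).pt (f n (σ n v)) 1), fl1 (q n) ((X.G g n).pt (f n (σ n v)) 2),
      xz (X.G g n) (r n) (f n (σ n v))))
    ((((Fn.fst _ _).right _).right _).pair ((Fn.fst _ _).pair (((Fn.snd _ _).right _).right _)))
  rw [ch_chain]
  refine le_trans ?_ (sub_le_sub_right h2 _)
  linarith

theorem rowGLip : RGLip := by
  intro sk c3 maj up Ω K g M mm D η γ d ε₀ ε X b q q' k r h e hX hr e0 hq
  have hM := h.toTn.big
  have le : ∀ᶠ n in UF, q n ≤ q' n := hq.mono fun n u => u.2.1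
  have qr : ∀ᶠ n in UF, q' n ≤ r n := hq.mono fun n u => B2UpA.le h.one u.2.2.2.1
  have s0 := BB1GA.cell (q := q) (q' := q') h e hX (hr.mono ((hq.and qr).mono fun n u =>
    ((B2UpA.le h.one u.1.1).trans u.1.2.1).trans u.2)) hr
    ((hq.and qr).mono fun n u => ⟨u.1.1, u.1.2.1, u.2⟩) (Le.of_ev (hq.mono fun n u => u.2.2.1))
  let l := fun n v => (fl1 (q' n) ((X.G g n).pt v 1), fl1 (q' n) ((X.G g n).pt v 2),
    xz (X.G g n) (r n) v)
  have dn := U.dnS_fst X.P X.P l l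
  obtain ⟨L, hL, bx⟩ := h.toTn.bx hX
  exact maj X.P X.P l l _ _ k (c3 _ _ _ _ _ _ _ _ M q q' k ε₀ ⟨hM, hr.mono qr, le,
    ⟨ε, e0, hq.mono fun n u => u.2.2.2.2⟩, ⟨_, hL.const_mul hM one_le_two, bx.mono fun n a x hx =>
      ⟨abs_pt a ((U.mem_copy _ _ x).1 hx).1 1, abs_pt a ((U.mem_copy _ _ x).1 hx).1 2⟩⟩,
    sk.dn _ _ _ _ _ _ M _ _ _ _ hM le s0 dn,
    sk.cp _ _ _ _ _ _ M _ _ l hM (le.mono fun n u => ⟨u, Fn.rfl _⟩) s0,
    up K g M mm D η γ d ε₀ X _ _ q q' r h e hX dn hr (hq.mono fun n u => ⟨u.2.1, u.2.2.2.1⟩)⟩)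

end Pool.Agent.MP_5168f5_an.R4.B2
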