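import Pool.Agent.MP_5168f5_an.R4.SpecB2

/-! Kakeya sets in four dimensions: the pointwise part of the vertical web. -/

namespace Pool.Agent.MP_5168f5_an.R4.B2

open H19 H17S H17F Filter K31 Tan B1

namespace B2WbAA

theorem fr_eq (j : ℕ) (x : ℝ) : Int.fract (2 ^ j * x) = 2 ^ j * (x - U.rd j x) := by
  have := U.rd_add_fract j x
  rw [sub_eq_iff_eq_add'.2 this.symm, mul_div_cancel₀ _ (by positivity)]

theorem fr_abs (x : ℝ) : |Int.fract x| ≤ 1 :=
  (abs_of_nonneg (Int.fract_nonneg x)).trans_le (Int.fract_lt_one x).le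

theorem est {Ω : Type} (g : Geo 3 Ω) (D : Td Ω) {a A s R r : ℕ} {L : ℝ} {v : Ω} (e : A + s = 2 * a)
    (hr : A + R ≤ r) (hz : |g.z v| ≤ 1) (h0 : |(D.H a v).2.2 0| ≤ L) (h1 : |(D.H a v).2.2 1| ≤ L)
    (h : |g.pt v 2 - (D.H a v).1 - (D.H a v).2.1 * g.z v - (D.H a v).2.2 0 * g.pt v 0 -
      (D.H a v).2.2 1 * g.pt v 1| ≤ L / 2 ^ (A + R)) :
    |vv g A v - mc g D a A r v - ia g (2 * a) v * be D a s v| ≤ 3 * L / 2 ^ R := by
  have l0 := (abs_nonneg _).trans h0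
  have q : vv g A v - mc g D a A r v - ia g (2 * a) v * be D a s v = 2 ^ A *
      (g.pt v 2 - (D.H a v).1 - (D.H a v).2.1 * g.z v - (D.H a v).2.2 0 * g.pt v 0 -
        (D.H a v).2.2 1 * g.pt v 1 + (D.H a v).2.2 0 * (g.pt v 0 - U.rd r (g.pt v 0)) +
        (D.H a v).2.2 1 * g.z v * (g.e v 1 - U.rd r (g.e v 1))) := by
    have p1 : g.pt v 1 = g.a v 1 + g.z v * g.e v 1 := rfl
    have p2 : g.pt v 2 = g.a v 2 + g.z v * g.e v 2 := rfl
    have p3 : (2 : ℝ) ^ (2 * a) = 2 ^ A * 2 ^ s := by rw [← e, pow_add]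
    simp only [vv, ni, al, mc, ia, be, fr_eq]
    rw [p1, p2, p3]
    field_simp
    ring
  have b1 := mul_le_mul h0 ((U.abs_sub_rd r (g.pt v 0)).trans (U.div_pow_le zero_le_one hr))
    (abs_nonneg _) l0
  have b2 := mul_le_mul (mul_le_mul h1 hz (abs_nonneg _) l0)
    ((U.abs_sub_rd r (g.e v 1)).trans (U.div_pow_le zero_le_one hr)) (abs_nonneg _) (by linarith)
  rw [← abs_mul, mul_one_div] at b1
  rw [← abs_mul, ← abs_mul, mul_one, mul_one_div] at b2
  rw [q, abs_mul, abs_of_pos (by positivity),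
    show 3 * L / 2 ^ R = 2 ^ A * (3 * (L / 2 ^ (A + R))) by rw [pow_add]; field_simp]
  exact mul_le_mul_of_nonneg_left ((abs_add_three _ _ _).trans (by linarith)) (by positivity)

end B2WbAA

open B2WbAA

theorem rowWbA : WbA := by
  intro Ω K g M mm D η d ε₀ C a A s R J r tb lv X L pv
  refine ⟨_, pv.sub.const_mul tb.toT2.toTn.big (C := 3) (by norm_num), ?_⟩
  filter_upwards [pv.su, (tb.com X pv.mem).nest, lv.ev] with n ⟨bx, su⟩ ⟨_, ne⟩ ev
  have l1 := pv.sub.1 n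
  have fH : ∀ u ∈ (X n).Q.S, ∀ v ∈ (X n).Q.S, (mD X D n).S (a n) u = (mD X D n).S (a n) v →
      (mD X D n).H (a n) u = (mD X D n).H (a n) v := fun u hu v hv e =>
    congrArg (fun y => y.2.2.2.2) ((ne (a n)).2 u hu v hv e)
  refine ⟨fun u _ v _ e => ?_, fun u hu v hv e => ?_, fun u _ v _ e => ?_, fun u _ v _ e => ?_,
    fun v hv => ?_⟩
  · simp only [Geo.ln, Prod.mk.injEq] at e
    simp only [ni, al, e.1.1, e.1.2.1]
  · simp only [xz, Geo.zt, th, ul, Prod.mk.injEq] at e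
    obtain ⟨⟨e1, e2, e3, -⟩, ⟨-, e4, e5⟩, ⟨e6, e7⟩, -⟩ := e
    have e0 : (D n).H (a n) ((X n).ρ u) = (D n).H (a n) ((X n).ρ v) := fH u hu v hv e1
    simp only [mc, be, e0, U.rd_congr e2, e3, U.rd_congr e4, U.rd_congr e5,
      U.rd_congr e6, U.rd_congr e7]
  · simp only [Geo.ln, Prod.mk.injEq] at e
    simp only [ia, e.1.1, sub_self, abs_zero]
    positivity
  · simp only [xz, Geo.zt, Prod.mk.injEq] at e
    simp only [e.1.2.2.1, sub_self, abs_zero]
    positivity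
  · obtain ⟨-, z0, z1⟩ := bx.bd v hv
    obtain ⟨s0, s1, s2⟩ := su v hv
    have hz : |(X.G g n).z v| ≤ 1 := (abs_of_nonneg z0).trans_le z1.le
    have nm : ∀ {f : Fin 1 → ℝ} {B : ℝ}, |f 0| ≤ B → ‖f‖ ≤ B := fun h =>
      (pi_norm_le_iff_of_nonneg ((abs_nonneg _).trans h)).2 fun i => Subsingleton.elim 0 i ▸ h
    refine ⟨(fr_abs _).trans (by linarith), hz.trans (by linarith), nm ?_,
      nm ((fr_abs _).trans (by linarith)), nm ?_, nm ?_,
      nm (est _ _ (lv.le n).2.1 (by omega) hz s0 s1 s2)⟩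
    · have := mul_le_mul hz (fr_abs (2 ^ A n * (X.G g n).e v 2)) (abs_nonneg _) zero_le_one
      rw [← abs_mul] at this
      exact (abs_add_le _ _).trans ((add_le_add (fr_abs _) this).trans (by linarith))
    · change |_ / _| ≤ _
      rw [abs_div, abs_of_pos (a := (2 : ℝ) ^ s n) (by positivity)]
      exact (div_le_self (abs_nonneg _) (one_le_pow₀ one_le_two)).trans (s1.trans (by linarith))
    · change |vv _ _ _ - _ - _ * _| ≤ _
      rw [vv, add_sub_cancel_left, sub_self, abs_zero]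
      positivity

end Pool.Agent.MP_5168f5_an.R4.B2
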