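import Pool.Agent.MP_5168f5_an.R4.SpecB2

/-! The indices of the vertical web are full. -/

namespace Pool.Agent.MP_5168f5_an.R4.B2

open H19 H17S H17F Filter K31 Tan B1

namespace B2WbFA

variable {Ω : Type} {P : FP Ω} (g : Geo 3 Ω)

theorem th_ln (p A r : ℕ) : Fn P (th g p A r) g.ln := fun u _ v _ e => by
  simp only [Geo.ln, Prod.mk.injEq] at e
  simp only [th, ul, bl, e.1, e.2.1, e.2.2]

theorem a0 (ω : Ω) : g.pt ω 0 + -g.z ω * g.e ω 0 = g.a ω 0 := by
  have e : g.pt ω 0 = g.a ω 0 + g.z ω * g.e ω 0 := rfl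
  rw [e]; ring

theorem dig {p J r : ℕ} (h : p + J = r) {x y : ℝ} (a : fl1 p x = fl1 p y)
    (b : fl1 J (Int.fract (2 ^ p * x)) = fl1 J (Int.fract (2 ^ p * y))) : fl1 r x = fl1 r y := by
  rw [U.fl1_fract, U.fl1_fract, h, a] at b
  linarith

end B2WbFA

open B2WbFA in
theorem rowWbF : RWbF := by
  intro hU hL Ω K g M mm D η d ε₀ C a A s R J r tb lv X hX
  have tn := tb.toT2.toTn
  obtain ⟨L, -, bx⟩ := tn.bx hX
  have z1 : ∀ᶠ n in UF, ∀ v ∈ (X n).Q.S, |(X.G g n).z v| ≤ 1 := bx.mono fun n b v hv =>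
    abs_le.2 ⟨by linarith [(b.bd v hv).2.1], (b.bd v hv).2.2.le⟩
  refine ⟨?_, ?_⟩
  · obtain ⟨C', c0, c1, -, c2⟩ := om_big lv.om
    refine (le_unit c2 (kb.hgt X.P (X.G g) (fun n => C' * M n) (fun _ => 0) (fun _ => 0)
      (fun n => min (J n) (C' * M n)) (fun n => th (X.G g n) (2 * a n) (A n) (r n))
      ((tn.cls C' c0).bs X hX) (Le.of_le fun n => (mi_le _ _ _).trans
        (ch_zero ((th_ln _ _ _ _).left _)).le)
      fun n => ⟨le_rfl, Nat.zero_le _, min_le_right _ _⟩)).of_sub (c1.mono fun n e => ?_)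
    rw [min_eq_left (by have := lv.le n; omega), Nat.cast_zero, sub_zero]
    exact sub_le_sub_left (ch_anti (Fn.snd _ _)) _
  · have h1 := hU K g M mm D η 2 d X a (fun n => 2 * a n) r r tn hX lv.om
      (Eventually.of_forall fun n => ⟨by push_cast; exact le_rfl, by have := lv.le n; omega, le_rfl⟩)
    have h2 := nd_pt (P := X.P) (r := r) (a := fun n v => (X.G g n).pt v 0)
      (e := fun n v => (X.G g n).e v 0) (z := fun n v => -(X.G g n).z v)
      (G := fun n v => (fl1 (2 * a n) ((X.G g n).pt v 1), (mD X D n).S (a n) v,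
        xz (X.G g n) (r n) v, fl1 (r n) ((X.G g n).e v 0))) tn.big
      (z1.mono fun n b => ⟨fun u _ v _ e => by
        simp only [xz, Geo.zt, Prod.mk.injEq] at e ⊢
        exact ⟨e.2.2.1.1, e.2.2.2, by rw [e.2.2.1.2.1]⟩, fun v hv => by
        rw [abs_neg]; exact b v hv⟩)
    simp only [a0] at h2
    have h3 := (hL K g M mm D η d ε₀ C a A s R J r tb lv X hX).trans
      (h2.cut (ND.of_fn (Eventually.of_forall fun n u _ v _ e => by
        simp only [xz, bl, Geo.zt, Prod.mk.injEq] at e ⊢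
        exact ⟨e.2.2.1, ⟨e.1, e.2.2.2.2⟩, e.2.2.2.1.2.1⟩)))
    refine (h1.trans (ND.le (F' := fun n v => fl1 (J n) (ia (X.G g n) (2 * a n) v))
      (G' := fun n v => (((mD X D n).S (a n) v, xz (X.G g n) (r n) v),
        th (X.G g n) (2 * a n) (A n) (r n) v))
      ((h3.anti (Eventually.of_forall fun n => Fn.snd _ _)).cut (nd_pt (r := r)
        (a := fun n v => (X.G g n).a v 1) (e := fun n v => (X.G g n).e v 1)
        (z := fun n v => (X.G g n).z v) tn.big (z1.mono fun n b => ⟨fun u _ v _ e => ?_, b⟩)))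
      ((ND.of_fn (Eventually.of_forall fun n u _ v _ e => ?_)).pair h3))).of_sub
      (Eventually.of_forall fun n => ?_)
    · simp only [th, ul, xz, Geo.zt, Prod.mk.injEq] at e ⊢
      exact ⟨dig (lv.le n).2.2.1 e.1.1.2.2 e.2.1, e.1.1.2.1, e.2.2.2.2.1.2.1⟩
    · simp only [Prod.mk.injEq] at e ⊢
      exact ⟨e.2.1, e.2.2.1⟩
    · rw [← (lv.le n).2.2.1, Nat.cast_add, add_sub_cancel_left]

end Pool.Agent.MP_5168f5_an.R4.B2
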