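import Pool.Agent.MP_5168f5_an.R4.SpecB2
import Pool.Agent.MP_5168f5_an.R4.BVNg

/-! Kakeya sets in four dimensions, weight two: the rate of the value in the vertical web. -/

namespace Pool.Agent.MP_5168f5_an.R4.B2

open H19 H17S H17F Filter K31 Tan B1

namespace B2WbNA

/-- Adding the height to the context. -/
theorem drop {Ω α β γ δ T : Type} {P : FP Ω} (F : Ω → α) {G : Ω → β} {z : Ω → ℝ} (l : Ω → γ)
    {w : Ω → δ} {θ : Ω → T} (h1 : Fn P (fun ω => (w ω, θ ω)) G) (h2 : Fn P w z) :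
    ch P F G ≤ ch P F (fun ω => (z ω, G ω)) + mi P z l θ +
      ch P (fun ω => (F ω, G ω)) fun ω => (l ω, w ω, θ ω) := by
  have k1 := ch_le_mi (P := P) (F := F) (Fn.rfl fun ω => (z ω, G ω))
  have k2 := mi_symm (P := P) F z G
  have k3 : mi P z F G ≤ mi P z (fun ω => (F ω, G ω)) fun ω => (w ω, θ ω) :=
    mi_right h1 ((Fn.snd F G).left _) ((Fn.fst F G).left _)
  have k4 := mi_near (P := P) z (fun ω => (F ω, G ω)) l fun ω => (w ω, θ ω)
  have k5 : mi P l z (fun ω => (w ω, θ ω)) ≤ mi P l z θ :=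
    mi_cond (Fn.snd w θ) ((h2.left θ).pair (Fn.snd z θ))
  linarith [mi_symm (P := P) z l θ, mi_symm (P := P) z l fun ω => (w ω, θ ω)]

variable {W : ℕ → Type} (Q : ∀ n, FP (W n)) (g : Gs 3 W) {M a A J r α β : ℕ → ℕ}

/-- The value is read from the line and the rounded height. -/
theorem one (hM : Big M) (h : ∀ n, α n ≤ β n ∧ β n ≤ J n) :
    ND Q M (fun n v => (fl1 (β n) (vv (g n) (A n) v), fl1 (α n) (vv (g n) (A n) v),
      th (g n) (2 * a n) (A n) (r n) v, fl1 (J n) (ia (g n) (2 * a n) v), fl1 (J n) ((g n).z v)))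
      fun n v => ((g n).ln v, fl1 (J n) ((g n).z v), (g n).θ v) := by
  have k : ND Q M (fun n v => fl1 (β n) (vv (g n) (A n) v))
      fun n v => ((g n).ln v, fl1 (J n) ((g n).z v), (g n).θ v) :=
    ND.sure (c := fun n v => ni (g n) (A n) v + U.rd (J n) ((g n).z v) * al (g n) (A n) v) hM
      (hM.sub le_rfl) (Eventually.of_forall fun n => ⟨fun x _ y _ e => by
        simp only [Geo.ln, Prod.mk.injEq] at e
        simp only [ni, al, U.rd, e.1.1, e.1.2.1, e.2.1], fun v _ => by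
        rw [vv, add_sub_add_left_eq_sub, ← sub_mul, abs_mul]
        refine le_trans (mul_le_of_le_one_right (abs_nonneg _) ?_)
          ((U.abs_sub_rd _ _).trans (U.div_pow_le zero_le_one (h n).2))
        rw [al, abs_of_nonneg (Int.fract_nonneg _)]
        exact (Int.fract_lt_one _).le⟩)
  refine (k.pair ND.rfl).mono (Eventually.of_forall fun n x _ y _ e => ?_)
  simp only [Geo.ln, Prod.mk.injEq] at e
  simp only [th, ul, bl, ia, e.1, e.2.1.1, e.2.1.2.1, e.2.1.2.2, e.2.2.1,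
    fl1_eq_of_le (h n).1 e.1]

/-- Comparison with the rate of the third coordinate. -/
theorem two (hM : Big M) (hr : ∀ n, 2 * a n + J n = r n)
    (hz : ∀ᶠ n in UF, ∀ ω ∈ (Q n).S, |(g n).z ω| ≤ 1) :
    Le M (fun n => ch (Q n) (fun v => fl1 (β n) (vv (g n) (A n) v)) fun v => ((g n).z v,
      fl1 (α n) (vv (g n) (A n) v), th (g n) (2 * a n) (A n) (r n) v,
        fl1 (J n) (ia (g n) (2 * a n) v), fl1 (J n) ((g n).z v)))
      fun n => ch (Q n) (fun v => fl1 (A n + β n) ((g n).pt v 2)) fun v =>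
        (fl1 (A n + α n) ((g n).pt v 2), fl1 (r n) ((g n).pt v 0), fl1 (r n) ((g n).pt v 1),
          (g n).zt v) := by
  have e : ∀ n ω, vv (g n) (A n) ω = 2 ^ A n * (g n).pt ω 2 -
      (fl1 (A n) ((g n).a ω 2) + (g n).z ω * fl1 (A n) ((g n).e ω 2)) :=
    fun n ω => BVNgA.fr_eq _ _ _ _
  have f : ∀ n, Fn (Q n) (fun ω => fl1 (A n) ((g n).a ω 2) + (g n).z ω * fl1 (A n) ((g n).e ω 2))
      fun v => ((g n).z v, fl1 (α n) (vv (g n) (A n) v), th (g n) (2 * a n) (A n) (r n) v,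
        fl1 (J n) (ia (g n) (2 * a n) v), fl1 (J n) ((g n).z v)) := fun n x _ y _ w => by
    simp only [th, Prod.mk.injEq] at w
    simp only [w.1, w.2.2.1.2.1.1, w.2.2.1.2.1.2]
  refine ND.le (BVNgA.nd_dn hM e (fun n => Fn.fst _ _) fun n => (f n).right _)
    ((BVNgA.nd_up hM e (fun n => (Fn.fst _ _).right _) f).pair
      (ND.pair (nd_pt (a := fun n ω => (g n).a ω 0) (e := fun n ω => (g n).e ω 0)
        (z := fun n => (g n).z) hM (hz.mono fun n u => ⟨fun x _ y _ w => ?_, u⟩))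
        (ND.pair (nd_pt (a := fun n ω => (g n).a ω 1) (e := fun n ω => (g n).e ω 1)
          (z := fun n => (g n).z) hM (hz.mono fun n u => ⟨fun x _ y _ w => ?_, u⟩))
          (ND.of_fn (Eventually.of_forall fun n x _ y _ w => ?_)))))
  · simp only [th, ul, bl, Prod.mk.injEq] at w
    simp only [w.1, w.2.2.1.1.1.1, w.2.2.1.1.1.2]
  · simp only [th, ul, ia, U.fl1_fract, hr, Prod.mk.injEq] at w
    have := w.2.2.2.1
    rw [w.2.2.1.1.2.2, sub_left_inj] at this
    simp only [w.1, w.2.2.1.1.2.1, this]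
  · simp only [th, Prod.mk.injEq] at w
    exact Prod.ext w.1 w.2.2.1.2.2

end B2WbNA

open B2WbNA in
theorem rowWbN : WbN := by
  intro Ω K g M mm D η d ε₀ C a A s R J r h hl X hX α β hb
  have hM := h.toTn.big
  obtain ⟨L, -, hL⟩ := h.toTn.bx hX
  have h1 := one X.P (X.G g) (a := a) (A := A) (r := r) hM
    fun n => ⟨(hb n).1, (hb n).2.trans (hl.le n).1⟩
  have h2 := two X.P (X.G g) (A := A) (α := α) (β := β) hM (fun n => (hl.le n).2.2.1)
    (hL.mono fun n u ω hω => by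
      rw [abs_of_nonneg (u.bd ω hω).2.1]; exact (u.bd ω hω).2.2.le)
  have h3 := (h.fl X hX).ng (fun n => A n + α n) (fun n => A n + β n) r hl.om
    (hl.ev.mono fun n u => ⟨Nat.add_le_add_left (hb n).1 _, by
      have : 2 * (A n + β n) ≤ r n := by have := (hb n).2; omega
      exact_mod_cast this⟩)
  have h4 : Sm M _ := le_unit (C := 1) (Eventually.of_forall fun n => by simp)
    ((h.cls 1 one_pos).bs X hX).inf
  refine (h2.trans h3).of3 h1 h4 (Eventually.of_forall fun n => ?_)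
  have := drop (P := (X n).Q) (fun v => fl1 (β n) (vv (X.G g n) (A n) v))
    (G := fun v => (fl1 (α n) (vv (X.G g n) (A n) v), th (X.G g n) (2 * a n) (A n) (r n) v,
      fl1 (J n) (ia (X.G g n) (2 * a n) v), fl1 (J n) ((X.G g n).z v))) (z := (X.G g n).z)
    (X.G g n).ln (w := fun v => fl1 (J n) ((X.G g n).z v)) (θ := (X.G g n).θ)
    (fun _ _ _ _ e => Prod.ext (congrArg (·.2.2.2) e) (congrArg (·.2.1.2.2) e)) (Fn.comp _ _)
  push_cast
  linarith

end Pool.Agent.MP_5168f5_an.R4.B2
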