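import Pool.Agent.MP_5168f5_an.R4.SpecB2

/-! Kakeya sets in four dimensions, weight two: the slopes are determined by the indices. -/

namespace Pool.Agent.MP_5168f5_an.R4.B2

open H19 H17S H17F Filter K31 Tan B1

namespace B2WbSA

theorem drop {Ω α β γ δ ζ : ℕ → Type} {P : ∀ n, FP (Ω n)} {M : ℕ → ℕ} {F : ∀ n, Ω n → α n}
    {G : ∀ n, Ω n → β n} {Y : ∀ n, Ω n → γ n} {K : ∀ n, Ω n → δ n} {Z : ∀ n, Ω n → ζ n}
    (h : ND P M F fun n ω => (Z n ω, G n ω)) (i : Sm M fun n => mi (P n) (Z n) (Y n) (K n))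
    (e : ∀ᶠ n in UF, Fn (P n) (K n) (G n) ∧ Fn (P n) (G n) (fun ω => (Y n ω, K n ω)) ∧
      Fn (P n) (F n) fun ω => (Y n ω, K n ω)) : ND P M F G :=
  Sm.mono (Sm.add h i) (e.mono fun n a => by
    have h1 := ch_le_mi (P := P n) (F := F n) (Fn.rfl fun ω => (Z n ω, G n ω))
    have h2 := mi_right (F := Z n) a.1 a.2.1 a.2.2
    rw [mi_symm] at h1
    linarith)

theorem fl1_div (j s : ℕ) (x : ℝ) : fl1 j (x / 2 ^ s) = fl1 j x / (2 ^ s : ℕ) := by
  unfold fl1
  rw [← Int.floor_div_natCast, mul_div_assoc]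
  norm_num

end B2WbSA

open B2WbSA in
theorem rowWbS : WbS := by
  intro Ω K g M mm D η d ε₀ C a A s R J r h v X L p
  have hM := h.toTn.big
  have hX := p.mem
  have c := h.com X hX
  have bs := h.low.bs X hX
  have un : ∀ᶠ n in UF, (mm n : ℝ) ≤ 1 * M n := (h.sm 1 one_pos).mono fun n e => by simpa using e
  have zb : ∀ᶠ n in UF, ∀ ω ∈ (X n).Q.S, |(X.G g n).z ω| ≤ 1 := p.su.mono fun n e ω hω =>
    abs_le.2 ⟨by linarith [(e.1.bd ω hω).2.1], (e.1.bd ω hω).2.2.le⟩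
  constructor
  · have x := h.xr X hX (fun n => A n + R n) A r v.om (v.ev.mono fun n e => ⟨by omega, e.2.1⟩)
    have y : ND X.P M (fun n ω => fl1 (A n + R n) ((X.G g n).e ω 2)) fun n ω =>
        ((X.G g n).z ω, fl1 (J n) (ia (X.G g n) (2 * a n) ω),
          th (X.G g n) (2 * a n) (A n) (r n) ω) := by
      refine x.trans (ND.pair (nd_pt hM (zb.mono fun n e => ⟨fun u _ w _ k => ?_, e⟩))
        (ND.of_fn (.of_forall fun n u _ w _ k => ?_)))
      · simp only [th, Prod.mk.injEq] at k ⊢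
        exact ⟨k.2.2.2.1.1, k.2.2.2.1.2, k.1⟩
      · simp only [th, ul, ia, U.fl1_fract, (v.le n).2.2.1, Geo.zt, Prod.mk.injEq] at k ⊢
        obtain ⟨k1, k2, ⟨k3, k4, k5⟩, -, k6⟩ := k
        rw [k5] at k2
        exact ⟨⟨k3, k4, sub_left_injective k2⟩, k1, k6⟩
    refine (drop y (le_unit un bs.inf) (.of_forall fun n => ⟨fun u _ w _ k => ?_,
      fun u _ w _ k => ?_, fun u _ w _ k => ?_⟩)).mono (.of_forall fun n u _ w _ k => ?_)
    · exact congrArg (·.2.2.2) k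
    · simp only [Geo.ln, Prod.mk.injEq] at k
      simp only [th, ul, ia, bl, k.1.1, k.1.2.1, k.2]
    · simp only [Geo.ln, Prod.mk.injEq] at k
      simp only [k.1.2.1]
    · funext i
      show fl1 _ _ = fl1 _ _
      simp only [al, U.fl1_fract]
      rw [fl1_eq_of_le (Nat.le_add_right _ _) k]
      exact congrArg (· - _) k
  · have y : ND X.P M (fun n ω => fl1 (R n) (Gc (mD X D) a n ω)) fun n ω =>
        ((X.G g n).z ω, fl1 (J n) ((X.G g n).z ω), th (X.G g n) (2 * a n) (A n) (r n) ω) := by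
      refine p.gl.trans (ND.pair (nd_pt hM (zb.mono fun n e => ⟨fun u _ w _ k => ?_, e⟩))
        (ND.pair (nd_pt hM (zb.mono fun n e => ⟨fun u _ w _ k => ?_, e⟩))
          (ND.pair (nd_pt hM (zb.mono fun n e => ⟨fun u _ w _ k => ?_, e⟩))
            (ND.of_fn (.of_forall fun n u _ w _ k => ?_)))))
      · simp only [th, ul, Prod.mk.injEq] at k ⊢
        have := v.le n
        exact ⟨fl1_eq_of_le (by omega) k.2.2.1.2.2, fl1_eq_of_le (by omega) k.2.2.1.2.1, k.1⟩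
      · simp only [th, Prod.mk.injEq] at k ⊢
        exact ⟨k.2.2.2.1.1, k.2.2.2.1.2, k.1⟩
      · simp only [th, ul, bl, Prod.mk.injEq] at k ⊢
        exact ⟨k.2.2.1.1.1, k.2.2.1.1.2, k.1⟩
      · simp only [th, Geo.zt, Prod.mk.injEq] at k ⊢
        exact ⟨k.1, k.2.2.2.2⟩
    have oJ : OM M J := v.om.mono (.of_forall fun n => by have := v.le n; omega)
    refine (drop y (le_unit un (kb.inf X.P (X.G g) mm J _ bs (c.lab J oJ).h))
      (c.nest.mono fun n e => ⟨fun u _ w _ k => ?_, fun u _ w _ k => ?_,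
        fun u hu w hw k => ?_⟩)).mono (.of_forall fun n u _ w _ k => ?_)
    · exact Prod.ext (congrArg (·.1) k) (congrArg (·.2.2.2) k)
    · simp only [Geo.ln, Prod.mk.injEq] at k
      simp only [th, ul, bl, k.1.1.1, k.1.1.2.1, k.2.1, k.2.2]
    · exact congrArg (fun t => fl1 (R n) (t.2.2.2.2.2.2 1)) ((e.2 (a n)).2 u hu w hw
        (nest_le (fun j => (e.2 j).1) (v.le n).2.2.2 u hu w hw (congrArg (·.1.2) k)))
    · funext i
      show fl1 _ _ = fl1 _ _
      simp only [be, fl1_div]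
      exact congrArg (· / _) k

end Pool.Agent.MP_5168f5_an.R4.B2
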