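import Pool.Agent.MP_5168f5_an.R4.SpecAd
import Pool.Agent.MP_5168f5_an.R4.SpecRect

/-! Equal weights, both slopes determined by the base line. -/

namespace Pool.Agent.MP_5168f5_an.R4.CI

open H19 H17S H17F Filter NCx Tan
open Web (RV rd G3 sl TFul)

section Det

variable {Ω : Type} (g : Geo 3 Ω) (D : Td Ω) (J M : ℕ)

/-- The fibre coordinates of the point. -/
def fv (ω : Ω) : V 2 := ![g.pt ω 1, g.pt ω 2]

/-- The fibre slopes. -/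
def fe (ω : Ω) : V 2 := ![g.e ω 1, g.e ω 2]

/-- The fibre offsets. -/
def fa (ω : Ω) : V 2 := ![g.a ω 1, g.a ω 2]

/-- The base line, the rounded slopes and the context. -/
noncomputable def tl (ω : Ω) : (ℤ × ℤ) × Z 2 × g.T := (bl g J ω, fl M (fe g ω), g.θ ω)

/-- The base point read from the cell. -/
noncomputable def zc (ω : Ω) : ℤ × ℤ × g.T := (fl1 J (g.z ω), fl1 J (D.o J ω 0), g.θ ω)

/-- The context of a grain at the point. -/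
noncomputable def gp {Λ : Type} (κ : Ω → Λ) (ω : Ω) :
    Λ × ((ℤ × ℤ) × Z 2 × g.T) × (ℤ × ℤ × g.T) × ℤ × ℝ × g.T :=
  (κ ω, tl g J M ω, zc g D J ω, fl1 J (g.pt ω 0), g.zt ω)

/-- The two slopes of the plane of level `J`, rounded. -/
noncomputable def tu (k : ℕ) (ω : Ω) : ℤ × ℤ := (fl1 k (D.U J ω).2.1, fl1 k ((D.U J ω).2.2 0))

/-- The bounds at one sample. -/
structure Su (L : ℝ) (ω : Ω) : Prop where
  one : 1 ≤ L
  box : (∀ i, |g.a ω i| ≤ L ∧ |g.e ω i| ≤ L) ∧ 0 ≤ g.z ω ∧ g.z ω < 1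
  ball : ∀ i, |g.pt ω i - D.o J ω i| ≤ L / 2 ^ J
  cu : |(D.U J ω).2.1| ≤ L ∧ |(D.U J ω).2.2 0| ≤ L ∧
    |g.e ω 1 - (D.U J ω).2.1 - (D.U J ω).2.2 0 * g.e ω 0| ≤ L / 2 ^ M

/-- The rounded slope of the copy `i`. -/
noncomputable def wr (i : Fin 3) (v : (Ω × Ω) × Ω) : ℝ := rd J (g.e (sl i v) 0)

/-- The three slopes are separated. -/
def sp3 (L : ℝ) (v : (Ω × Ω) × Ω) : Prop := ∀ i k, i ≠ k → 1 ≤ L * |wr g J i v - wr g J k v|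

/-- The types and the context. -/
noncomputable def ty3 (v : (Ω × Ω) × Ω) : (Fin 3 → ℤ) × g.T :=
  (fun i => fl1 J (g.e (sl i v) 0), g.θ v.1.1)

/-- The index of the rows. -/
noncomputable def ca (v : (Ω × Ω) × Ω) : ℝ :=
  (g.pt v.1.1 0 - wr g J 0 v * g.z v.1.1) / (wr g J 1 v - wr g J 0 v)

/-- The index of the columns. -/
noncomputable def cb (v : (Ω × Ω) × Ω) : ℝ := g.z v.1.1 - ca g J v

/-- The index read from the line of the copy `i`. -/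
noncomputable def ab (i : Fin 3) (v : (Ω × Ω) × Ω) : ℝ :=
  g.a (sl i v) 0 / (wr g J 1 v - wr g J 0 v)

/-- The intercept of the row. -/
noncomputable def n0 (v : (Ω × Ω) × Ω) : V 2 := fa g v.1.1 + ab g J 0 v • fe g v.1.1

/-- The intercept of the column. -/
noncomputable def m0 (v : (Ω × Ω) × Ω) : V 2 := fa g v.1.2 - ab g J 1 v • fe g v.1.2

/-- The coefficients of the third direction in the frame. -/
noncomputable def pq (v : (Ω × Ω) × Ω) : ℝ × ℝ :=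
  ((wr g J 1 v - wr g J 2 v) / (wr g J 1 v - wr g J 0 v),
    (wr g J 2 v - wr g J 0 v) / (wr g J 1 v - wr g J 0 v))

/-- Three samples with bounds in one cell. -/
def In3 (L : ℝ) (v : (Ω × Ω) × Ω) : Prop := M ≤ J ∧ sp3 g J L v ∧ ∀ i, Su g D J M L (sl i v) ∧
  fl1 J (g.z (sl i v)) = fl1 J (g.z v.1.1) ∧ D.o J (sl i v) = D.o J v.1.1 ∧
  D.U J (sl i v) = D.U J v.1.1

theorem Su.mono {g : Geo 3 Ω} {D : Td Ω} {J M : ℕ} {L L' : ℝ} {ω : Ω} (h : Su g D J M L ω)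
    (e : L ≤ L') : Su g D J M L' ω :=
  have k : ∀ {x : ℝ} {j : ℕ}, x ≤ L / 2 ^ j → x ≤ L' / 2 ^ j := fun u =>
    u.trans (div_le_div_of_nonneg_right e (by positivity))
  ⟨h.one.trans e, ⟨fun i => ⟨(h.box.1 i).1.trans e, (h.box.1 i).2.trans e⟩, h.box.2⟩,
    fun i => k (h.ball i), h.cu.1.trans e, h.cu.2.1.trans e, k h.cu.2.2⟩

end Det

/-! ### Deterministic facts -/

/-- The frame of two lines. -/
def WebD : Prop := ∃ (K : ℝ) (m : ℕ), 1 ≤ K ∧ ∀ {Ω : Type} (g : Geo 3 Ω) (D : Td Ω) (J M : ℕ)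
  (L : ℝ) (v : (Ω × Ω) × Ω), In3 g D J M L v →
  (|ca g J v| ≤ K * L ^ m ∧ |cb g J v| ≤ K * L ^ m ∧ ‖fv g v.1.1‖ ≤ K * L ^ m) ∧
  (|ca g J v - ab g J 0 v| ≤ K * L ^ m / 2 ^ J ∧ |cb g J v + ab g J 1 v| ≤ K * L ^ m / 2 ^ J ∧
    |ca g J v - ab g J 1 v - g.z v.1.2| ≤ K * L ^ m / 2 ^ J) ∧
  ‖fv g v.1.1 - n0 g J v - cb g J v • fe g v.1.1‖ ≤ K * L ^ m / 2 ^ M ∧
  ‖fv g v.1.1 - m0 g J v - ca g J v • fe g v.1.2‖ ≤ K * L ^ m / 2 ^ M ∧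
  ‖n0 g J v - fa g v.1.1 - rd J (ca g J v) • fun i => rd M (fe g v.1.1 i)‖ ≤ K * L ^ m / 2 ^ M

/-- The third line. -/
def KAl : Prop := ∃ (K : ℝ) (m : ℕ), 1 ≤ K ∧ ∀ {Ω : Type} (g : Geo 3 Ω) (D : Td Ω) (J M : ℕ)
  (L ε H s₁ s₂ : ℝ) (v : (Ω × Ω) × Ω), In3 g D J M L v → 1 / 2 ^ M ≤ ε → |H| ≤ L →
  |g.e v.1.1 1 - s₁ - ca g J v * H| ≤ ε → |g.e v.1.2 1 - s₂ - cb g J v * H| ≤ ε →
  |(pq g J v).1 * s₁ + (pq g J v).2 * s₂ + ((pq g J v).1 - (pq g J v).2) * ab g J 2 v * H -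
      g.e v.2 1 + 2 * (pq g J v).1 * (pq g J v).2 * H * g.z v.2| ≤ K * L ^ m * ε ∧
    1 ≤ K * L ^ m * |2 * (pq g J v).1 * (pq g J v).2| ∧
    (|H| ≤ ε →
      |(D.U J v.1.1).2.1 - (s₁ - wr g J 0 v * ((s₂ - s₁) / (wr g J 1 v - wr g J 0 v)))| ≤
        K * L ^ m * ε ∧
      |(D.U J v.1.1).2.2 0 - (s₂ - s₁) / (wr g J 1 v - wr g J 0 v)| ≤ K * L ^ m * ε)

/-! ### Grains -/

section Abs

variable {Ω T Λ U Γ : ℕ → Type} (P : ∀ n, FP (Ω n))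

/-- No grain for `x` given `Θ`, against side variables with small information on `l`. -/
def NG2 (l : ∀ n, Ω n → Λ n) (Θ : ∀ n, Ω n → T n) (x : ∀ n, Ω n → V 2) (R : ℕ → ℕ) (ε : ℝ) :
    Prop :=
  ∀ (W K : ℕ → Type) (Q : ∀ n, FP (W n)) (ρ : ∀ n, W n → Ω n) (κ : ∀ n, W n → K n)
    (s lam : ℕ → ℕ) (i : Fin 2) (β : RV W), K31.DnS Q ρ P → (∀ n, s n ≤ lam n ∧ lam n ≤ R n) →
    Sm R (fun n => mi (Q n) (κ n) (fun v => l n (ρ n v)) fun v => Θ n (ρ n v)) →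
    (∀ᶠ n in UF, Fn (Q n) (β n) (fun v => (κ n v, Θ n (ρ n v))) ∧ ∀ v ∈ (Q n).S, |β n v| ≤ 1) →
    Le R (fun n => ch (Q n) (fun v => fl1 (lam n) (x n (ρ n v) i)) fun v =>
        (fl1 (lam n) (x n (ρ n v) (i + 1) - β n v * x n (ρ n v) i), fl1 (s n) (x n (ρ n v) i),
          fl1 (s n) (x n (ρ n v) (i + 1)), κ n v, Θ n (ρ n v)))
      fun n => (1 - ε) * (lam n - s n) * lg

/-- A grain of slope `β` for the point `(A, B)` of the cell `S`. -/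
structure PG (S : ∀ n, Ω n → U n) (Z : ∀ n, Ω n → T n) (G : ∀ n, Ω n → Γ n) (A B β : RV Ω)
    (M s lam : ℕ → ℕ) (L : ℕ → ℝ) (ε : ℝ) : Prop where
  big : Big M
  sub : Sub M L
  e0 : 0 ≤ ε
  lv : ∀ n, s n ≤ lam n ∧ lam n ≤ M n
  frac : Frac (fun n => lam n - s n) M
  alg : ∀ᶠ n in UF, Fn (P n) (Z n) (S n) ∧ Fn (P n) (Z n) (G n) ∧ Fn (P n) (β n) (G n) ∧
    (∀ ω ∈ (P n).S, |β n ω| ≤ 1) ∧ Near (P n) (S n) (A n) (L n / 2 ^ M n) ∧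
    Near (P n) (S n) (B n) (L n / 2 ^ M n)
  inf : Sm M fun n => mi (P n) (S n) (G n) (Z n)
  low : Le M (fun n => (1 - ε) * (lam n - s n) * lg) fun n =>
    ch (P n) (fun ω => fl1 (lam n) (A n ω)) fun ω =>
      (fl1 (lam n) (B n ω - β n ω * A n ω), fl1 (s n) (A n ω), fl1 (s n) (B n ω), G n ω)

end Abs

/-- Transfer of the absence of grains. -/
def NGT : Prop := ∀ {Ω W T T' Λ : ℕ → Type} (P : ∀ n, FP (Ω n)) (Q : ∀ n, FP (W n))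
  (π : ∀ n, W n → Ω n) (l : ∀ n, Ω n → Λ n) (Θ : ∀ n, Ω n → T n) (Θ' : ∀ n, W n → T' n)
  (x : ∀ n, Ω n → V 2) (x' E : ∀ n, W n → V 2) (R : ℕ → ℕ) (L : ℕ → ℝ) (ε : ℝ), Big R →
  Sub R L → NG2 P l Θ x R ε → K31.DnS Q π P →
  (∀ᶠ n in UF, Fn (Q n) (E n) (Θ' n) ∧
    ∀ v ∈ (Q n).S, ‖x' n v - x n (π n v) - E n v‖ ≤ L n / 2 ^ R n) →
  Sm R (fun n => ch (Q n) (fun v => Θ n (π n v)) (Θ' n)) →
  Sm R (fun n => mi (Q n) (Θ' n) (fun v => l n (π n v)) fun v => Θ n (π n v)) →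
  NGR Q Θ' x' R ε

/-- The grains of two copies on an event that depends on the side variables. -/
def PGev : Prop := ∀ {Ω T U Γ : ℕ → Type} (P : ∀ n, FP (Ω n)) (S : ∀ n, Ω n → U n)
  (Z : ∀ n, Ω n → T n) (G : ∀ n, Ω n → Γ n) (A B β : RV Ω) (M s lam : ℕ → ℕ) (L : ℕ → ℝ) (ε : ℝ)
  (E : ∀ n, Ω n × Ω n → Prop), PG P S Z G A B β M s lam L ε →
  (∀ᶠ n in UF, Fn (glue (P n) (P n) (S n) (S n)) (E n) (fun v => (G n v.1, G n v.2)) ∧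
    1 / 2 ≤ pb (glue (P n) (P n) (S n) (S n)) (E n)) →
  (Le M (fun n => (1 - 2 * ε) * (lam n - s n) * lg) fun n =>
    ch (cE (glue (P n) (P n) (S n) (S n)) (E n)) (fun v => fl1 (lam n) (A n v.1)) fun v =>
      (fl1 (lam n) (B n v.1 - β n v.1 * A n v.1), fl1 (s n) (A n v.1), fl1 (s n) (B n v.1),
        G n v.1, G n v.2)) ∧
  Le M (fun n => (1 - 2 * ε) * (lam n - s n) * lg) fun n =>
    ch (cE (glue (P n) (P n) (S n) (S n)) (E n)) (fun v => fl1 (lam n) (A n v.2)) fun v =>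
      (fl1 (lam n) (B n v.2 - β n v.2 * A n v.2), fl1 (s n) (A n v.2), fl1 (s n) (B n v.2),
        G n v.1, G n v.2)

/-- Two grains at one point are often close. -/
def TwoG : Prop := ∀ {Ω T U Γ : ℕ → Type} (P : ∀ n, FP (Ω n)) (S : ∀ n, Ω n → U n)
  (Z : ∀ n, Ω n → T n) (G : ∀ n, Ω n → Γ n) (A B β : RV Ω) (M s lam h : ℕ → ℕ) (L : ℕ → ℝ)
  (ε ε₀ : ℝ), PG P S Z G A B β M s lam L ε → 0 < ε₀ → 16 * ε ≤ ε₀ →
  (∀ n, (h n : ℝ) ≤ ε₀ / 2 * (lam n - s n)) →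
  (∀ E : ∀ n, Ω n × Ω n → Prop, Pos (fun n => glue (P n) (P n) (S n) (S n)) E →
    Le M (fun n => ch (cE (glue (P n) (P n) (S n) (S n)) (E n))
      (fun v => (fl1 (lam n) (A n v.1), fl1 (lam n) (B n v.1))) fun v =>
        (fl1 (s n) (A n v.1), fl1 (s n) (B n v.1), G n v.1))
      fun n => (2 - ε₀) * (lam n - s n) * lg) →
  ∀ᶠ n in UF, 1 / 2 ≤ pb (glue (P n) (P n) (S n) (S n)) fun v => |β n v.1 - β n v.2| ≤ 1 / 2 ^ h n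

/-- A grain and a full quotient. -/
def OneG : Prop := ∀ {Ω T U Γ : ℕ → Type} (P : ∀ n, FP (Ω n)) (S : ∀ n, Ω n → U n)
  (C : ∀ n, Ω n → T n) (G : ∀ n, Ω n → Γ n) (A B β : RV Ω) (M s lam h q : ℕ → ℕ) (ε ε₀ : ℝ),
  Big M → (∀ n, s n + h n ≤ lam n) → Le M (fun n => q n) (fun n => s n) →
  (∀ᶠ n in UF, Fn (P n) (C n) (G n) ∧ Fn (P n) (β n) (G n) ∧ ∀ ω ∈ (P n).S, |β n ω| ≤ 1) →
  (Le M (fun n => (1 - ε) * (lam n - s n) * lg) fun n =>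
    ch (P n) (fun ω => fl1 (lam n) (A n ω)) fun ω =>
      (fl1 (lam n) (B n ω - β n ω * A n ω), fl1 (s n) (A n ω), fl1 (s n) (B n ω), G n ω)) →
  (Le M (fun n => ((s n + h n : ℕ) - q n : ℝ) * lg) fun n =>
    ch (P n) (fun ω => fl1 (s n + h n) (B n ω - rd (h n) (β n ω) * A n ω)) fun ω =>
      (fl1 (q n) (B n ω - rd (h n) (β n ω) * A n ω), C n ω, S n ω, fl1 (h n) (β n ω))) →
  (Sm M fun n => ch (P n) (fun ω => (fl1 (s n) (A n ω), fl1 (s n) (B n ω))) fun ω =>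
    (S n ω, C n ω)) →
  Le M (fun n => ch (P n) (fun ω => (fl1 (s n + h n) (A n ω), fl1 (s n + h n) (B n ω))) fun ω =>
    (fl1 (s n) (A n ω), fl1 (s n) (B n ω), C n ω)) (fun n => (2 - ε₀) * h n * lg) →
  Le M (fun n => ε₀ * h n * lg) fun n => ε * (lam n - s n) * lg

/-- A variable of the line that is nearly a function of a second line through the cell can be
added to a label. -/
def LabP : Prop := ∀ {N : ℕ} {Ω Λ Λ' Φ : ℕ → Type} (P : ∀ n, FP (Ω n)) (g : Gs N Ω)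
  (m j : ℕ → ℕ) (S : ∀ n, Ω n → Λ n) (S' : ∀ n, Ω n → Λ' n) (F : ∀ n, Ω n → Φ n)
  (E : ∀ n, Ω n × Ω n → Prop) (B : ℝ), Big m → Lab P g m j S →
  (Sm m fun n => (g n).lk (P n) (S' n)) → (∀ᶠ n in UF, Fn (P n) (S n) (S' n)) →
  (Sm m fun n => mi (P n) (F n) (fun ω => ((g n).core ω, S n ω)) (g n).ln) → 1 ≤ B →
  Pos (fun n => glue (P n) (P n) (S' n) (S' n)) E →
  (∀ᶠ n in UF, Det (cE (glue (P n) (P n) (S' n) (S' n)) (E n)) (fun v => F n v.1) Prod.snd B) →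
  Lab (fun n => cE (glue (P n) (P n) (S' n) (S' n)) (E n)) (fun n => (g n).pull Prod.fst) m j
    fun n v => (S n v.1, F n v.1)

/-- A covector without leak that kills the direction is small. -/
def RevK : Prop := ∀ {N : ℕ} {Ω Φ : ℕ → Type} (K : Mb Ω → Prop) (g : Gs N Ω) (M : ℕ → ℕ)
  (i : Fin N) (η : ℝ) (X : Mb Ω) (φ : ∀ n, (X n).W → Φ n) (c : ∀ n, (X n).W → ℝ × ℝ)
  (ε : ℕ → ℝ), Cls0 K g M i η → K X → (Sm M fun n => (X.G g n).lk (X n).Q (φ n)) →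
  (∀ᶠ n in UF, Fn (X n).Q (c n) (φ n)) →
  Whp X.P (fun n v => |(c n v).1 + (c n v).2 * (X.G g n).e v i| ≤ ε n) →
  ∃ L, Sub M L ∧ Whp X.P fun n v => |(c n v).1| ≤ L n * ε n ∧ |(c n v).2| ≤ L n * ε n

/-- The slopes of the planes do not have small entropy. -/
def ConU : Prop := ∀ {Ω : ℕ → Type} (K : Mb Ω → Prop) (g : Gs 3 Ω) (M mm : ℕ → ℕ)
  (D : ∀ n, Td (Ω n)) (η γ : ℝ) (T : Finset (Fin 3)) (X : Mb Ω) (J k : ℕ → ℕ),
  Tn K g M mm D η γ T → K X → OM M J → Frac k M → (∀ᶠ n in UF, (J n + k n : ℝ) ≤ γ * J n) →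
  ¬Sm M fun n => ch (X n).Q (tu (mD X D n) (J n) (k n)) (X.G g n).θ

/-! ### One member -/

section One

variable {Ω : ℕ → Type} (P : ∀ n, FP (Ω n)) (g : Gs 3 Ω) (D : ∀ n, Td (Ω n)) (M J : ℕ → ℕ)

/-- The facts at the level `J`. -/
structure Pz (L : ℕ → ℝ) : Prop where
  big : Big M
  frac : Frac M J
  sub : Sub M L
  su : ∀ᶠ n in UF, ∀ ω ∈ (P n).S, Su (g n) (D n) (J n) (M n) (L n) ω
  fn : ∀ᶠ n in UF, Fn (P n) (fun ω => ((g n).θ ω, fl1 (J n) ((g n).z ω), (D n).o (J n) ω,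
    (D n).U (J n) ω)) ((D n).S (J n))
  hgt : Le M (fun n => J n * lg) fun n => ch (P n) (fun ω => fl1 (J n) ((g n).z ω)) (g n).ln
  in0 : Sm M fun n => mi (P n) (g n).z (g n).ln (g n).θ
  inJ : Sm M fun n => mi (P n) (g n).z (fun ω => ((g n).ln ω, (D n).S (J n) ω)) fun ω =>
    (fl1 (J n) ((g n).z ω), (g n).θ ω)
  typ : Sm M fun n => mi (P n) (fun ω => fl1 (J n) ((g n).e ω 0)) ((D n).S (J n)) (g n).θ
  nil : Sm M fun n => ch (P n) (fun ω => fl (M n) (fe (g n) ω)) fun ω =>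
    (bl (g n) (J n) ω, (g n).θ ω)

/-- The three slopes are separated with high probability. -/
def Sp (L : ℕ → ℝ) : Prop :=
  Whp (fun n => G3 (P n) ((D n).S (J n))) fun n => sp3 (g n) (J n) (L n)

/-- Three copies with separated slopes. -/
noncomputable abbrev Q3 (L : ℕ → ℝ) : ∀ n, FP ((Ω n × Ω n) × Ω n) := fun n =>
  cE (G3 (P n) ((D n).S (J n))) (sp3 (g n) (J n) (L n))

/-- Facts on the three copies. -/
structure F3 (L : ℕ → ℝ) : Prop where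
  dn : ∀ i, K31.DnS (Q3 P g D J L) (fun _ => sl i) P
  in3 : ∀ᶠ n in UF, ∀ v ∈ (Q3 P g D J L n).S, In3 (g n) (D n) (J n) (M n) (L n) v ∧
    ∀ i, (g n).θ (sl i v) = (g n).θ v.1.1 ∧ (D n).S (J n) (sl i v) = (D n).S (J n) v.1.1
  ts : Sm M fun n => mi (Q3 P g D J L n) (ty3 (g n) (J n)) (fun v => (D n).S (J n) v.1.1)
    fun v => (g n).θ v.1.1
  ti : ∀ i, Sm M fun n => mi (Q3 P g D J L n) (ty3 (g n) (J n)) (sl i) fun v =>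
    (fl1 (J n) ((g n).e (sl i v) 0), (g n).θ (sl i v))
  hg : ∀ i, Le M (fun n => J n * lg) fun n => ch (Q3 P g D J L n)
    (fun v => fl1 (J n) ((g n).z (sl i v))) fun v => ((g n).ln (sl i v), ty3 (g n) (J n) v)

/-- The slopes of the frame are affine. -/
structure Af (L : ℕ → ℝ) {W : ℕ → Type} (Q : ∀ n, FP (W n)) (π : ∀ n, W n → (Ω n × Ω n) × Ω n)
    (H s₁ s₂ : ∀ n, W n → V 2) (L' : ℕ → ℝ) (r : ℕ → ℕ) : Prop where
  law : ∀ n, Law (Q n) (π n) (Q3 P g D J L n) id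
  sub : Sub M L'
  le : ∀ n, r n ≤ M n
  sm : Sm M fun n => ch (Q n) (fun w => (H n w, s₁ n w, s₂ n w)) fun w => ty3 (g n) (J n) (π n w)
  fit : Whp Q fun n w => ‖H n w‖ ≤ L' n ∧ ‖s₁ n w‖ ≤ L' n ∧ ‖s₂ n w‖ ≤ L' n ∧
    ‖fe (g n) (π n w).1.1 - s₁ n w - ca (g n) (J n) (π n w) • H n w‖ ≤ L' n / 2 ^ r n ∧
    ‖fe (g n) (π n w).1.2 - s₂ n w - cb (g n) (J n) (π n w) • H n w‖ ≤ L' n / 2 ^ r n

/-- A grain of the offsets that is a kernel of the line; `ρ` is the rest of the data. -/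
structure Gr {B Λ : ℕ → Type} (ρ : ∀ n, Ω n → B n) (κ : ∀ n, Ω n → Λ n) (β : RV Ω)
    (s lam : ℕ → ℕ) (i : Fin 2) (ε : ℝ) : Prop where
  e0 : 0 ≤ ε
  lv : ∀ n, s n ≤ lam n ∧ lam n ≤ M n
  frac : Frac (fun n => lam n - s n) M
  ker : ∀ n, mi (P n) (κ n) (ρ n) (g n).ln ≤ 0
  inf : Sm M fun n => mi (P n) (κ n) (g n).ln (tl (g n) (J n) (M n))
  fn : ∀ᶠ n in UF, Fn (P n) (β n) (fun ω => (κ n ω, tl (g n) (J n) (M n) ω)) ∧
    ∀ ω ∈ (P n).S, |β n ω| ≤ 1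
  low : Le M (fun n => (1 - ε) * (lam n - s n) * lg) fun n =>
    ch (P n) (fun ω => fl1 (lam n) (fa (g n) ω i)) fun ω =>
      (fl1 (lam n) (fa (g n) ω (i + 1) - β n ω * fa (g n) ω i), fl1 (s n) (fa (g n) ω i),
        fl1 (s n) (fa (g n) ω (i + 1)), κ n ω, tl (g n) (J n) (M n) ω)

/-- The facts of mode I for the coordinates `i` and `i + 1`. -/
structure Sy (mm : ℕ → ℕ) (d ε₀ : ℝ) (i : Fin 2) : Prop where
  cel : ∀ a τ r : ℕ → ℕ, OM M a → OM M r → (∀ᶠ n in UF, (τ n : ℝ) ≤ d * a n ∧ τ n ≤ r n) →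
    Sm M fun n => ch (P n) (fun ω => (fl1 (τ n) (fv (g n) ω i), fl1 (τ n) (fv (g n) ω (i + 1))))
      fun ω => ((D n).S (a n) ω, fl1 (r n) ((g n).pt ω 0), (g n).zt ω)
  fil : ∀ (Λ : ℕ → Type) (lam : ∀ n, Ω n → Λ n) (β : RV Ω) (a : ℕ → ℕ), OM M a →
    Lab P g mm a lam → (∀ᶠ n in UF, Fn (P n) (β n) (lam n) ∧ ∀ ω ∈ (P n).S, |β n ω| ≤ 2) →
    Fill P g M lam (fun n ω => fv (g n) ω (i + 1) - β n ω * fv (g n) ω i) d a
  ng : ∀ q q' r : ℕ → ℕ, OM M r → (∀ᶠ n in UF, q n ≤ q' n ∧ q' n ≤ r n) →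
    Le M (fun n => ch (P n)
      (fun ω => (fl1 (q' n) (fv (g n) ω i), fl1 (q' n) (fv (g n) ω (i + 1)))) fun ω =>
        (fl1 (q n) (fv (g n) ω i), fl1 (q n) (fv (g n) ω (i + 1)), fl1 (r n) ((g n).pt ω 0),
          (g n).zt ω)) fun n => (2 - ε₀) * (q' n - q n) * lg

end One

/-- A statement for all prepared members. -/
def ForP (F : ∀ {Ω : ℕ → Type}, (∀ n, FP (Ω n)) → Gs 3 Ω → (∀ n, Td (Ω n)) → (ℕ → ℕ) →
    (ℕ → ℕ) → (ℕ → ℝ) → Prop) : Prop :=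
  ∀ {Ω : ℕ → Type} (P : ∀ n, FP (Ω n)) (g : Gs 3 Ω) (D : ∀ n, Td (Ω n)) (M J : ℕ → ℕ)
    (L : ℕ → ℝ), Pz P g D M J L → F P g D M J L

def F3A : Prop := ForP fun P g D M J L => Sp P g D J L → F3 P g D M J L

/-- The web of two lines through the point. -/
def WebA : Prop := ForP fun P g D M J L => F3 P g D M J L → ∃ L', R4.Web (Q3 P g D J L)
  (fun n => ty3 (g n) (J n)) (fun n v => (g n).ln v.1.1) (fun n v => (g n).ln v.1.2)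
  (fun n => ca (g n) (J n)) (fun n => cb (g n) (J n)) (fun n v => fv (g n) v.1.1)
  (fun n => n0 (g n) (J n)) (fun n v => fe (g n) v.1.1) (fun n => m0 (g n) (J n))
  (fun n v => fe (g n) v.1.2) M J L'

/-- No grain for the intercept of the rows. -/
def NGA : Prop := ForP fun P g D M J L => F3 P g D M J L → ∀ ε : ℝ,
  NG2 P (fun n => (g n).ln) (fun n => tl (g n) (J n) (M n)) (fun n => fa (g n)) M ε →
  NGR (Q3 P g D J L) (fun n v => (ty3 (g n) (J n) v, fl1 (J n) (ca (g n) (J n) v),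
    fl (M n) (fe (g n) v.1.1))) (fun n => n0 (g n) (J n)) M ε

/-- The mixed coefficient is small. -/
def Kil1 : Prop := ForP fun {Ω} P g D M J L => F3 P g D M J L → ∀ (W : ℕ → Type)
  (Q : ∀ n, FP (W n)) (π : ∀ n, W n → (Ω n × Ω n) × Ω n) (H s₁ s₂ : ∀ n, W n → V 2) (L' : ℕ → ℝ)
  (r : ℕ → ℕ), Af P g D M J L Q π H s₁ s₂ L' r →
  ∃ L'', Sub M L'' ∧ Whp Q fun n w => |H n w 0| ≤ L'' n / 2 ^ r n

/-- The slopes of the plane have small entropy. -/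
def Kil2 : Prop := ForP fun {Ω} P g D M J L => F3 P g D M J L → ∀ (W : ℕ → Type)
  (Q : ∀ n, FP (W n)) (π : ∀ n, W n → (Ω n × Ω n) × Ω n) (H s₁ s₂ : ∀ n, W n → V 2)
  (L' L'' : ℕ → ℝ) (r : ℕ → ℕ), Af P g D M J L Q π H s₁ s₂ L' r → Sub M L'' →
  Whp Q (fun n w => |H n w 0| ≤ L'' n / 2 ^ r n) →
  Sm M fun n => ch (Q n) (fun w => tu (D n) (J n) (r n) (π n w).1.1) fun w => (g n).θ (π n w).1.1

/-- The grain at the point. -/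
def GrPt : Prop := ForP fun {Ω} P g D M J _ => ∀ (B Λ : ℕ → Type) (ρ : ∀ n, Ω n → B n)
  (κ : ∀ n, Ω n → Λ n) (β : RV Ω) (s lam : ℕ → ℕ) (i : Fin 2) (ε : ℝ),
  Gr P g M J ρ κ β s lam i ε →
  (∀ n, Fn (P n) (fun ω => ((g n).core ω, (D n).S (J n) ω)) (ρ n)) →
  ∃ L', PG P (fun n => (D n).S (J n)) (fun n => zc (g n) (D n) (J n))
    (fun n => gp (g n) (D n) (J n) (M n) (κ n)) (fun n ω => fv (g n) ω i)
    (fun n ω => fv (g n) ω (i + 1)) β M s lam L' ε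

/-! ### Classes -/

/-- A class of mode I with determined slopes and sure bounds at the level `C M`. -/
structure TS {Ω : ℕ → Type} (K : Mb Ω → Prop) (g : Gs 3 Ω) (M mm : ℕ → ℕ) (D : ∀ n, Td (Ω n))
    (η d ε₀ : ℝ) (C : ℕ) (L : ℕ → ℝ) : Prop extends T1 K g M mm D η d ε₀ where
  gt : 1 < d
  n1 : NilK K g M 1 d
  n2 : NilK K g M 2 d
  lev : 0 < C ∧ 1 ≤ (d - 1) * C
  sub : Sub M L
  su : ∀ X, K X → ∀ᶠ n in UF, ∀ v ∈ (X n).Q.S, Su (X.G g n) (mD X D n) (C * M n) (M n) (L n) v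

def Prep : Prop := ∀ {Ω : ℕ → Type} (K : Mb Ω → Prop) (g : Gs 3 Ω) (M mm : ℕ → ℕ)
  (D : ∀ n, Td (Ω n)) (η d ε₀ : ℝ), T1 K g M mm D η d ε₀ → 1 < d → NilK K g M 1 d →
  NilK K g M 2 d → ∃ (K' : Mb Ω → Prop) (C : ℕ) (L : ℕ → ℝ), TS K' g M mm D η d ε₀ C L

/-- A statement for all members of all prepared classes. -/
def ForS (F : ∀ {Ω : ℕ → Type}, (Mb Ω → Prop) → Gs 3 Ω → (ℕ → ℕ) → (ℕ → ℕ) → (∀ n, Td (Ω n)) →
    ℝ → ℝ → ℕ → (ℕ → ℝ) → Mb Ω → Prop) : Prop :=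
  ∀ {Ω : ℕ → Type} (K : Mb Ω → Prop) (g : Gs 3 Ω) (M mm : ℕ → ℕ) (D : ∀ n, Td (Ω n))
    (η d ε₀ : ℝ) (C : ℕ) (L : ℕ → ℝ) (X : Mb Ω), TS K g M mm D η d ε₀ C L → K X →
    F K g M mm D d ε₀ C L X

def PzA : Prop := ForS fun _ g M _ D _ _ C L X => ∀ L' : ℕ → ℝ, Sub M L' → (∀ n, L n ≤ L' n) →
  Pz X.P (X.G g) (mD X D) M (fun n => C * M n) L'

def SpA : Prop := ForS fun _ g M _ D _ _ C L X => ∃ L' : ℕ → ℝ, Sub M L' ∧ (∀ n, L n ≤ L' n) ∧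
  Sp X.P (X.G g) (mD X D) (fun n => C * M n) L'

def SyA : Prop := ForS fun _ g M mm D d ε₀ _ _ X => ∀ i, Sy X.P (X.G g) (mD X D) M mm d ε₀ i

/-- A grain can be taken as a kernel of the line. -/
def GrE : Prop := ∀ {Ω : ℕ → Type} (K : Mb Ω → Prop) (g : Gs 3 Ω) (M J : ℕ → ℕ) (ε : ℝ)
  (X : Mb Ω), Cl0 K → K X → Big M → 0 < ε →
  ¬NG2 X.P (fun n => (X.G g n).ln) (fun n => tl (X.G g n) (J n) (M n)) (fun n => fa (X.G g n))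
    M ε →
  ∃ (Y : Mb Ω) (Λ : ℕ → Type) (κ : ∀ n, (Y n).W → Λ n) (β : RV Y.W) (s lam : ℕ → ℕ) (i : Fin 2),
    K Y ∧ Gr Y.P (Y.G g) M J (fun n => (Y n).ρ) κ β s lam i ε

/-- There is no grain. -/
def GrF : Prop := ForS fun _ g M _ _ _ ε₀ C _ X => ∀ (Λ : ℕ → Type) (κ : ∀ n, (X n).W → Λ n)
  (β : RV X.W) (s lam : ℕ → ℕ) (i : Fin 2),
  ¬Gr X.P (X.G g) M (fun n => C * M n) (fun n => (X n).ρ) κ β s lam i (ε₀ ^ 2 / 16)

/-! ### Rows -/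

def OfTwoG : Prop := PGev → TwoG
def OfConU : Prop := RevK → LabI → ConU
def OfF3A : Prop := TFul → F3A
def OfWebA : Prop := WebD → WebA
def OfNGA : Prop := WebD → NGT → NGA
def OfKil1 : Prop := KAl → Web.Spr → Kil1
def OfKil2 : Prop := KAl → Kil2
def OfGrF : Prop := PzA → SyA → GrPt → PGev → TwoG → OneG → LabP → GrF

end Pool.Agent.MP_5168f5_an.R4.CI
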