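import Pool.Agent.MP_5168f5_an.R4.SpecB
import Pool.Agent.MP_5168f5_an.R4.SpecC

/-! A slope that is determined by the base line: weights less than two and greater than two. -/

namespace Pool.Agent.MP_5168f5_an.R4.LG

open H19 H17S H17F Filter Tan B1
open Web (RV)

/-- A pair at resolution `2^{-k}`. -/
noncomputable def tk (k : ℕ) (T : ℝ × ℝ) : ℤ × ℤ := (fl1 k T.1, fl1 k T.2)

/-- Covectors of the cells. -/
abbrev CV (Ω : ℕ → Type) : Type := ∀ n, ℕ → Ω n → ℝ × ℝ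

/-- A variable of size at most `2 ^ M` that is likely close to a function of `G`. -/
theorem ndB {Ω β : ℕ → Type} {P : ∀ n, FP (Ω n)} {M j : ℕ → ℕ} {G : ∀ n, Ω n → β n}
    {x c : RV Ω} {L : ℕ → ℝ} (hM : Big M) (hL : Sub M L) (hj : OM M j)
    (h : ∀ᶠ n in UF, Fn (P n) (c n) (G n) ∧ ∀ a ∈ (P n).S, |x n a| ≤ 2 ^ M n)
    (hE : Whp P fun n ω => |x n ω - c n ω| ≤ L n / 2 ^ j n) :
    ND P M (fun n ω => fl1 (j n) (x n ω)) G := by
  obtain ⟨C, hC⟩ := om_cast hj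
  have e1 : ∀ᶠ n in UF, (M n : ℝ) ≤ 1 * (M n + j n : ℕ) := Eventually.of_forall fun n => by
    push_cast; linarith [Nat.cast_nonneg (α := ℝ) (j n)]
  have e2 : ∀ᶠ n in UF, ((M n + j n : ℕ) : ℝ) ≤ (1 + C) * M n := hC.mono fun n a => by
    push_cast; linarith
  refine le_unit e2 (U.UMu4A.nearW (M := fun n => M n + j n) (L := fun n => 2 * L n)
    (big_unit e1 hM) (sub_unit e1 (hL.const_mul hM one_le_two)) hE (fun n => Nat.le_add_left _ _)
    (h.mono fun n ⟨a1, a2⟩ => ⟨fun a ha => ?_, fun a ha b hb u v w => ?_⟩))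
  · have := pow_le_pow_right₀ (one_le_two (α := ℝ)) (Nat.le_add_right (M n) (j n))
    have p : (0 : ℝ) < 2 ^ M n := by positivity
    nlinarith [a2 a ha, hL.1 n]
  · rw [← a1 a ha b hb w, abs_sub_comm] at v
    have := abs_sub_le (x n a) (c n a) (x n b)
    rw [mul_div_assoc]; linarith

/-- Truncation at size `B`. -/
noncomputable def cp (B x : ℝ) : ℝ := max (-B) (min B x)

theorem abs_cp {B : ℝ} (h : 0 ≤ B) (x : ℝ) : |cp B x| ≤ B :=
  abs_le.2 ⟨le_max_left _ _, max_le (by linarith) (min_le_left _ _)⟩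

theorem cp_eq {B x : ℝ} (h : |x| ≤ B) : cp B x = x := by
  rw [cp, min_eq_right (abs_le.1 h).2, max_eq_right (abs_le.1 h).1]

section One

variable {Ω : ℕ → Type} (P : ∀ n, FP (Ω n)) (g : Gs 3 Ω) (M mm : ℕ → ℕ) (D : ∀ n, Td (Ω n))
  (β : RV Ω) (T : CV Ω)

/-- The slope `β` is the value of the covector `d` on the direction, to depth `q`. -/
def Ft (d : ∀ n, Ω n → ℝ × ℝ) (q : ℕ → ℕ) : Prop := ∃ L, Sub M L ∧ Whp P fun n ω =>
  |(d n ω).1| ≤ L n ∧ |(d n ω).2| ≤ L n ∧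
    |β n ω - (d n ω).1 - (d n ω).2 * (g n).e ω 0| ≤ L n / 2 ^ q n

/-- The base line and the cell of level `c` determine the slope to depth `q`. -/
def Nl (c q r : ℕ → ℕ) : Prop :=
  ND P M (fun n ω => fl1 (q n) (β n ω)) fun n ω => (bl (g n) (r n) ω, (D n).S (c n) ω)

/-- The facts on one member. -/
structure Sl (η : ℝ) : Prop where
  brw : ∀ a b : ℕ → ℕ, OM M b → (∀ᶠ n in UF, a n ≤ b n) →
    Le M (fun n => η * (b n - a n) * lg) fun n => ch (P n) (fun ω => fl1 (b n) ((g n).e ω 0))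
      fun ω => (fl1 (a n) ((g n).e ω 0), (g n).y ω)
  fat : ∀ r : ℕ → ℕ, OM M r → Fat P g M 0 r
  nest : ∀ᶠ n in UF, Fn (P n) (fun ω => (β n ω, (D n).S 0 ω)) (g n).ln ∧ ∀ j,
    Fn (P n) ((D n).S j) ((D n).S (j + 1)) ∧
    Fn (P n) (fun ω => ((g n).θ ω, fl1 j ((g n).z ω), (D n).o j ω 0, T n j ω)) ((D n).S j)
  bd : ∃ L, Sub M L ∧ ∀ᶠ n in UF, ∀ ω ∈ (P n).S, |β n ω| ≤ L n
  bT : ∀ n j ω, |(T n j ω).1| ≤ 2 ^ M n ∧ |(T n j ω).2| ≤ 2 ^ M n
  lab : ∀ j : ℕ → ℕ, OM M j → Lab P g mm j fun n => (D n).S (j n)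
  ball : ∀ a : ℕ → ℕ, OM M a → ∃ L, Sub M L ∧
    Whp P fun n ω => |(g n).pt ω 0 - (D n).o (a n) ω 0| ≤ L n / 2 ^ a n
  typ : ∀ r : ℕ → ℕ, OM M r →
    Sm M fun n => mi (P n) (fun ω => fl1 (r n) ((g n).e ω 0)) ((D n).S (r n)) (g n).θ

end One

section Class

variable {Ω : ℕ → Type} (K : Mb Ω → Prop) (g : Gs 3 Ω) (M mm : ℕ → ℕ) (D : ∀ n, Td (Ω n))
  (β : RV Ω) (T : CV Ω)

/-- A variable on a member. -/
abbrev mR (X : Mb Ω) (β : RV Ω) : RV X.W := fun n v => β n ((X n).ρ v)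

/-- The covectors on a member. -/
abbrev mT (X : Mb Ω) (T : CV Ω) : CV X.W := fun n j v => T n j ((X n).ρ v)

/-- A class with a slope and covectors. -/
structure SK (η : ℝ) : Prop where
  cl : Cl0 K
  big : Big M
  sm : Sm M fun n => mm n
  low : Cls0 K g mm 0 η
  cls : ∀ C : ℕ, 0 < C → Cls0 K g (fun n => C * M n) 0 η
  sl : ∀ X, K X → Sl X.P (X.G g) M mm (mD X D) (mR X β) (mT X T) η

/-- A label of level `c` carries a covector that fits to depth `p`. -/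
def Gain (c p : ℕ → ℕ) : Prop := ∃ (X : Mb Ω) (Λ : ℕ → Type) (lam : ∀ n, (X n).W → Λ n)
  (d : ∀ n, (X n).W → ℝ × ℝ), K X ∧ Lab X.P (X.G g) mm c lam ∧
  (∀ᶠ n in UF, Fn (X n).Q (fun v => (d n v, (mD X D n).S (c n) v)) (lam n)) ∧
  Ft X.P (X.G g) M (mR X β) d p

end Class

/-- A statement on all members of all classes. -/
def ForK (F : ∀ {Ω : ℕ → Type}, (Mb Ω → Prop) → Gs 3 Ω → (M mm : ℕ → ℕ) → (∀ n, Td (Ω n)) →
    RV Ω → CV Ω → Mb Ω → Prop) : Prop :=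
  ∀ {Ω : ℕ → Type} (K : Mb Ω → Prop) (g : Gs 3 Ω) (M mm : ℕ → ℕ) (D : ∀ n, Td (Ω n)) (β : RV Ω)
    (T : CV Ω) (η : ℝ) (X : Mb Ω), SK K g M mm D β T η → K X → F K g M mm D β T X

/-- A covector of small entropy given the cell of level `c` joins the label. -/
def Con : Prop := ForK fun K g M mm D β T X => ∀ (c J k p : ℕ → ℕ) (κ : ℝ), OM M J → OM M k →
  0 < κ → (∀ᶠ n in UF, c n ≤ J n ∧ p n + κ * M n ≤ k n) →
  Ft X.P (X.G g) M (mR X β) (fun n => mT X T n (J n)) k →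
  ND X.P M (fun n v => tk (k n) (mT X T n (J n) v)) (fun n => (mD X D n).S (c n)) →
  Gain K g M mm D β c p

/-- Two lines through a cell determine the covector. -/
def Cra : Prop := ForK fun _ g M _ D β T X => ∀ (Φ : ℕ → Type) (Z : ∀ n, (X n).W → Φ n)
  (J k r : ℕ → ℕ), OM M J → (∀ᶠ n in UF, k n ≤ r n ∧ r n ≤ J n ∧
    Fn (X n).Q (Z n) ((mD X D n).S (J n)) ∧ Fn (X n).Q (X.G g n).θ (Z n)) →
  Ft X.P (X.G g) M (mR X β) (fun n => mT X T n (J n)) k →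
  ND X.P M (fun n v => fl1 (k n) (mR X β n v)) (fun n v => (fl1 (r n) ((X.G g n).e v 0), Z n v)) →
  ND X.P M (fun n v => tk (k n) (mT X T n (J n) v)) Z

/-- The base point determines the covector. -/
def Pt : Prop := ForK fun _ g M _ D β T X => ∀ c J k r : ℕ → ℕ, OM M J →
  (∀ᶠ n in UF, c n ≤ J n ∧ k n ≤ r n ∧ r n ≤ J n) →
  Ft X.P (X.G g) M (mR X β) (fun n => mT X T n (J n)) k →
  Nl X.P (X.G g) M (mD X D) (mR X β) c k r →
  ND X.P M (fun n v => tk (k n) (mT X T n (J n) v)) fun n v =>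
    (xz (X.G g n) (J n) v, (mD X D n).S (c n) v)

/-- In a cap the slope is determined by the cell of the same size. -/
def Nar : Prop := ForK fun _ g M _ D β T X => ∀ J j : ℕ → ℕ, OM M J →
  (∀ᶠ n in UF, j n + M n ≤ J n) → Ft X.P (X.G g) M (mR X β) (fun n => mT X T n (J n)) j →
  (ND X.P M (fun n v => tk (j n) (mT X T n (J n) v)) fun n v =>
    (xz (X.G g n) (J n) v, (mD X D n).S 0 v)) →
  ND X.P M (fun n v => fl1 (j n) (mR X β n v)) fun n v =>
    (fl1 (j n) ((X.G g n).e v 0), (mD X D n).S (j n) v)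

/-- Copies in a cap are separated at the scale of the cap. -/
def Cap : Prop := ForK fun _ g M _ D _ _ X => ∀ J j : ℕ → ℕ, OM M J → OM M j →
  ∃ L, Sub M L ∧ Whp (fun n => glue (X n).Q (X n).Q
    (fun v => ((mD X D n).S (J n) v, fl1 (j n) ((X.G g n).e v 0)))
    fun v => ((mD X D n).S (J n) v, fl1 (j n) ((X.G g n).e v 0))) fun n v =>
    1 ≤ L n * 2 ^ j n * |(X.G g n).e v.1 0 - (X.G g n).e v.2 0|

/-- The deep digits of the position of the base line are not needed. -/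
def Loc : Prop := ForK fun _ g M _ D β T X => ∀ c j q r : ℕ → ℕ, OM M r →
  (∀ᶠ n in UF, c n ≤ j n ∧ j n ≤ r n ∧ q n ≤ r n) →
  Ft X.P (X.G g) M (mR X β) (fun n => mT X T n (j n)) q →
  Nl X.P (X.G g) M (mD X D) (mR X β) c q r →
  ND X.P M (fun n v => fl1 (q n) (mR X β n v)) fun n v =>
    (fl1 (r n) ((X.G g n).e v 0), fl1 (j n) ((X.G g n).a v 0), (mD X D n).S (c n) v)

/-- The line determines the covector. -/
def Tri : Prop := ForK fun _ g M _ D β T X => ∀ c J j k q r : ℕ → ℕ, OM M J →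
  (∀ᶠ n in UF, k n + j n ≤ q n ∧ q n ≤ r n ∧ c n + j n ≤ r n ∧ r n ≤ J n) →
  Ft X.P (X.G g) M (mR X β) (fun n => mT X T n (J n)) q →
  (ND X.P M (fun n v => fl1 (q n) (mR X β n v)) fun n v =>
    (fl1 (r n) ((X.G g n).e v 0), fl1 (c n + j n) ((X.G g n).a v 0), (mD X D n).S (c n) v)) →
  ND X.P M (fun n v => tk (k n) (mT X T n (J n) v)) fun n v =>
    ((X.G g n).ln v, (mD X D n).S (c n) v)

/-- A variable of a cell that is determined by the line and by the base point is determined by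
the larger cell. -/
def Zer : Prop := ForK fun _ g M _ D _ _ X => ∀ (Φ : ℕ → Type) (F : ∀ n, (X n).W → Φ n)
  (c J r : ℕ → ℕ), OM M J → OM M r →
  (∀ᶠ n in UF, c n ≤ J n ∧ c n ≤ r n ∧ Fn (X n).Q (F n) ((mD X D n).S (J n))) →
  ND X.P M F (fun n v => ((X.G g n).ln v, (mD X D n).S (c n) v)) →
  ND X.P M F (fun n v => (xz (X.G g n) (r n) v, (mD X D n).S (c n) v)) →
  ND X.P M F fun n => (mD X D n).S (c n)

/-- A slope that is determined by the direction and the cell of level `c`. -/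
def Gn : Prop := ForK fun K g M mm D β T X => ∀ (c J k r p : ℕ → ℕ) (κ : ℝ), OM M J → 0 < κ →
  (∀ᶠ n in UF, c n ≤ J n ∧ k n ≤ r n ∧ r n ≤ J n ∧ p n + κ * M n ≤ k n) →
  Ft X.P (X.G g) M (mR X β) (fun n => mT X T n (J n)) k →
  (ND X.P M (fun n v => fl1 (k n) (mR X β n v)) fun n v =>
    (fl1 (r n) ((X.G g n).e v 0), (mD X D n).S (c n) v)) →
  Gain K g M mm D β c p

/-- The covector is a Lipschitz function of the point. -/
def Lt : Prop := ForK fun K g M mm D β T X => ∀ (J j r p : ℕ → ℕ) (κ : ℝ), OM M J → 0 < κ →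
  (∀ᶠ n in UF, j n ≤ r n ∧ r n ≤ J n ∧ j n + M n ≤ J n ∧ p n + κ * M n ≤ j n) →
  Ft X.P (X.G g) M (mR X β) (fun n => mT X T n (J n)) j →
  Nl X.P (X.G g) M (mD X D) (mR X β) (fun _ => 0) j r → Gain K g M mm D β j p

/-- A covector that is better than Lipschitz is constant. -/
def Gt : Prop := ForK fun K g M mm D β T X => ∀ (c J j q r p : ℕ → ℕ) (κ : ℝ), OM M J → 0 < κ →
  (∀ᶠ n in UF, q n ≤ r n ∧ c n + j n ≤ r n ∧ r n ≤ J n ∧ p n + κ * M n + j n ≤ q n) →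
  Ft X.P (X.G g) M (mR X β) (fun n => mT X T n (c n + j n)) q →
  Ft X.P (X.G g) M (mR X β) (fun n => mT X T n (J n)) q →
  Nl X.P (X.G g) M (mD X D) (mR X β) c q r → Gain K g M mm D β c p

/-! ### Rows -/

def OfCon : Prop := CI.RevK → LabI → Con
def OfPt : Prop := Cra → Pt
def OfNar : Prop := XV → Nar
def OfCap : Prop := BsD → Cap
def OfTri : Prop := Cap → Tri

end Pool.Agent.MP_5168f5_an.R4.LG
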