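import Pool.Agent.MP_5168f5_an.R4.ShE2
import Pool.Agent.MP_5168f5_an.R4.SpecLG
import Pool.Agent.MP_5168f5_an.R4.SpecB2

/-! The end after the shear. -/

namespace Pool.Agent.MP_5168f5_an.R4.B2S

open H19 H17S H17F Filter K31 Tan B1 BShLA BB1aA LG
open Web (RV)

section Data

variable {Ω : ℕ → Type} (g : Gs 3 Ω) (M : ℕ → ℕ) (D : ∀ n, Td (Ω n)) (X : Mb Ω) (b k : ℕ → ℕ)

/-- The cells with the rounded slope as a side label. -/
noncomputable def sD : ∀ n, Td (X n).W := fun n =>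
  ⟨(D n).Λ × ℝ, fun j v => ((mD X D n).S j v, Gh D X b k n v), (mD X D n).o, (mD X D n).U,
    (mD X D n).H⟩

/-- The covector of the sheared coordinate. -/
noncomputable def sA (n j : ℕ) (v : (X n).W) : ℝ × ℝ :=
  (((mD X D n).H j v).2.1 + (((mD X D n).H j v).2.2 1 - Gh D X b k n v) * ((mD X D n).U j v).2.1,
    ((mD X D n).H j v).2.2 0 +
      (((mD X D n).H j v).2.2 1 - Gh D X b k n v) * ((mD X D n).U j v).2.2 0)

/-- The truncated covector. -/
noncomputable def sT : CV X.W := fun n j v =>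
  (cp (2 ^ M n) (sA D X b k n j v).1, cp (2 ^ M n) (sA D X b k n j v).2)

/-- The slope of the sheared coordinate. -/
noncomputable def sB : RV X.W := fun n v => sh (Gh D X b k n v) ((X.G g n).e v)

end Data

section

variable {Ω : ℕ → Type} {K : Mb Ω → Prop} {g : Gs 3 Ω} {M mm : ℕ → ℕ} {D : ∀ n, Td (Ω n)}
  {η γ d ε₀ : ℝ} {X : Mb Ω} {a b k : ℕ → ℕ}

theorem sl_sh (t : T2 K g M mm D η γ d ε₀) (h1 : 1 < γ) (h2 : γ < d)
    (s : Sh K g M D X γ d a b k) :
    Sl X.P (X.G g) M mm (sD D X b k) (sB g D X b k) (sT M D X b k) η := by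
  have hM := t.toTn.big
  have com := t.com X s.mem
  obtain ⟨L₀, s0, bx⟩ := t.toTn.bx s.mem
  obtain ⟨L, hL, bd⟩ := sh_bd hM s s0 bx
  have oa : OM M a := s.om.mono s.le
  have sl := shL t h1 h2 s
  have ty0 : ∀ r : ℕ → ℕ, OM M r → (∀ᶠ n in UF, a n ≤ r n) → Sm M fun n =>
      mi (X n).Q (fun v => fl1 (r n) ((X.G g n).e v 0)) ((sD D X b k n).S (r n)) (X.G g n).θ :=
    fun r hr e => by
    refine Sm.mono (Sm.add (com.typ r hr) (ND.rfl.pair (sl.2.anti
      (G' := fun n v => ((mD X D n).S (r n) v, (X.G g n).θ v)) ((e.and com.nest).mono fun n u =>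
        (nest_le (fun j => (u.2.2 j).1) u.1).left _)))) (Eventually.of_forall fun n => ?_)
    refine (mi_near _ _ ((mD X D n).S (r n)) _).trans (add_le_add (mi_mono' fun x _ y _ w => ?_)
      (ch_mono fun x _ y _ w => ?_))
    · have := congrFun (congrArg Prod.fst w) 0
      simpa [Tan.ty, wT] using this
    · exact Prod.ext (congrArg (·.1.1.1) w) (congrArg (·.1.2) w)
  refine ⟨com.brw, fun r hr => (com.fat 0 r hr).imp fun _ u => ⟨sub_up t.sm u.1, u.2⟩, ?_,
    ⟨L, hL, bd.mono fun n u v hv => (u v hv).2⟩,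
    fun n j v => ⟨abs_cp (by positivity) _, abs_cp (by positivity) _⟩, fun j hj => ?_,
    fun j hj => (com.ball j hj).imp fun _ u => ⟨u.1, u.2.mono
      (Eventually.of_forall fun _ _ _ w => w 0)⟩, fun r hr => ?_⟩
  · filter_upwards [com.nest, gh_fn s] with n u w
    refine ⟨fun x hx y hy e => ?_, fun j => ⟨fun x hx y hy e => Prod.ext
      ((u.2 j).1 x hx y hy (congrArg Prod.fst e)) (show Gh D X b k n x = Gh D X b k n y from
        congrArg Prod.snd e), fun x hx y hy e => ?_⟩⟩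
    · have e1 := w x hx y hy e
      have e2 := u.1 x hx y hy (congrArg (·.2.2) e)
      have e3 : (g n).e ((X n).ρ x) = (g n).e ((X n).ρ y) := congrArg (·.2.1) e
      simp only [sB, sD, e1, e2, e3]
    · have e1 := (u.2 j).2 x hx y hy (congrArg Prod.fst e)
      have e2 : Gh D X b k n x = Gh D X b k n y := congrArg Prod.snd e
      simp only [Prod.mk.injEq] at e1
      simp only [sT, sA, sD, e1.1, e1.2.1, e1.2.2.1, e1.2.2.2.1, e1.2.2.2.2, e2]
  · rcases ev_or (Eventually.of_forall fun n => le_total (j n) (b n)) with e | e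
    · exact sl.1 j e
    have f : ∀ᶠ n in UF, Fn (X n).Q ((sD D X b k n).S (j n)) ((mD X D n).S (j n)) :=
      (e.and com.nest).mono fun n u => (Fn.rfl _).pair (Fn.trans (fun x hx y hy e =>
        congrArg (fun h : ℝ × ℝ × V 3 => U.rd (k n) (h.2.2 1))
          ((fn_H (D := mD X D n) (u.2.2 (b n)).2).2 x hx y hy e))
        (nest_le (fun j => (u.2.2 j).1) u.1))
    exact ⟨(com.lab j hj).h.mono (f.mono fun n u => mi_mono' (u.left _)),
      (com.lab j hj).l.mono (f.mono fun n u => mi_mono' (u.left _))⟩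
  · rcases ev_or (Eventually.of_forall fun n => le_total (a n) (r n)) with e | e
    · exact ty0 r hr e
    refine (ty0 a oa (Eventually.of_forall fun _ => le_rfl)).mono ((e.and com.nest).mono
      fun n u => (mi_mono' fun x _ y _ w => fl1_eq_of_le u.1 (congrArg Prod.fst w)).trans
        (mi_mono fun x hx y hy w => Prod.ext ?_ (congrArg (·.1.2) w)))
    exact nest_le (fun j => (u.2.2 j).1) u.1 x hx y hy (congrArg (·.1.1) w)

theorem sk_sh (t : T2 K g M mm D η γ d ε₀) (h1 : 1 < γ) (h2 : γ < d)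
    (s : Sh K g M D X γ d a b k) :
    SK (DnK X.P) (X.G g) M mm (sD D X b k) (sB g D X b k) (sT M D X b k) η :=
  have c : ∀ {m}, Cls0 K g m 0 η → Cls0 (DnK X.P) (X.G g) m 0 η := fun h =>
    ⟨cl0_dnK _, h.pos, fun _ hY => h.bs _ (t.cl.toCl0.dnK s.mem hY),
      fun _ hY => h.br _ (t.cl.toCl0.dnK s.mem hY)⟩
  ⟨cl0_dnK _, t.toTn.big, t.sm, c t.low, fun C hC => c (t.cls C hC),
    fun _ hY => sl_sh t h1 h2 (sh_dn t.cl.toCl0 s hY)⟩

/-- The covector fits. -/
theorem ft_sh (t : T2 K g M mm D η γ d ε₀) (h1 : 1 < γ) (h2 : γ < d) (hX : K X)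
    {J τ q : ℕ → ℕ} {L₁ : ℕ → ℝ} (hJ : OM M J) (s₁ : Sub M L₁)
    (w₁ : Whp X.P fun n v => |Gc (mD X D) J n v - Gh D X b k n v| ≤ L₁ n / 2 ^ τ n)
    (q1 : Le M (fun n => (q n + J n : ℕ)) fun n => d * J n)
    (q2 : Le M (fun n => (q n + J n : ℕ)) fun n => τ n + γ * J n) :
    Ft X.P (X.G g) M (sB g D X b k) (fun n => sT M D X b k n (J n)) q := by
  have hM := t.toTn.big
  have g0 : 0 ≤ γ := by linarith
  obtain ⟨L₃, s₃, w₃⟩ := cell_near ((t.fl X hX).cellH h2.le) hM (by linarith) hJ q1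
  obtain ⟨L₄, s₄, w₄⟩ := cell_near (p := fun n => ⌊γ * J n⌋₊) (t.com X hX).cellU hM g0 hJ
    (Le.of_le fun n => Nat.floor_le (by positivity))
  obtain ⟨L₅, s₅, e₅⟩ := sub_gap (q := fun n => q n + J n) (τ := fun n => τ n + ⌊γ * J n⌋₊)
    (q2.of2 (hM.sm 1) (Eventually.of_forall fun n => by
      push_cast
      linarith [Nat.lt_floor_add_one (γ * J n)])) (s₁.mul s₄)
  refine ⟨_, s₃.add s₅ hM, ((w₁.and w₃).and w₄).mono ((Sub.le_pow (s₃.add s₅ hM) one_pos
    (Eventually.of_forall fun n => (one_mul _).le)).mono fun n pw v _ u => ?_)⟩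
  obtain ⟨⟨k1, a1, a2, -, a4⟩, b1, b2, -, b4⟩ := u
  have k2 := k1.trans (div_le_self (s₁.pos n).le (one_le_pow₀ one_le_two))
  have k3 := (e₅ n).2
  rw [pow_add, ← div_mul_div_comm] at k3
  rw [sum01 fun i => (a2 i).2] at a4
  rw [sum0 fun i => (b2 i).2] at b4
  have c1 : |(sA D X b k n (J n) v).1| ≤ L₃ n + L₅ n :=
    (abs_comb a1 k2 b1).trans (add_le_add le_rfl (e₅ n).1)
  have c2 : |(sA D X b k n (J n) v).2| ≤ L₃ n + L₅ n :=
    (abs_comb (a2 0).1 k2 (b2 0).1).trans (add_le_add le_rfl (e₅ n).1)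
  simp only [sT, cp_eq (c1.trans pw), cp_eq (c2.trans pw)]
  refine ⟨c1, c2, le_trans (le_of_eq (congrArg _ (by simp only [sB, sA, sh, Gc]; ring)))
    ((abs_comb a4 k1 b4).trans ?_)⟩
  have := mul_le_mul_of_nonneg_right k3 (show (0 : ℝ) ≤ 2 ^ J n by positivity)
  calc _ = L₃ n * 2 ^ J n / 2 ^ (q n + J n) + L₁ n / 2 ^ τ n *
        (L₄ n / 2 ^ ⌊γ * J n⌋₊) * 2 ^ J n := by ring
    _ ≤ L₃ n * 2 ^ J n / 2 ^ (q n + J n) + L₅ n / 2 ^ (q n + J n) * 2 ^ J n :=
        add_le_add le_rfl this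
    _ = _ := by rw [pow_add]; field_simp

/-- The plane as a quadric. -/
noncomputable def qs (p : (ℝ × ℝ) × ℝ) : Qd := fun i l =>
  if i = 0 then ![0, p.1.1, p.1.2, p.2, 0] l else 0

theorem qf_qs (p : (ℝ × ℝ) × ℝ) (t : ℝ) (y : V 3) :
    qf (qs p) (hom t y) = p.1.1 * t + p.1.2 * y 0 + p.2 * y 1 := by
  simp [qf, qs, hom, dotProduct, Matrix.mulVec, Fin.sum_univ_five]

/-- A gain for the sheared slope is bounded by the optimality of the hyperplanes. -/
theorem gain_le (t : T2 K g M mm D η γ d ε₀) (s : Sh K g M D X γ d a b k) {c p : ℕ → ℕ}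
    (hc : OM M c) (hp : OM M p)
    (h : Gain (DnK X.P) (X.G g) M mm (sD D X b k) (sB g D X b k) c p) :
    Le M (fun n => (p n + c n : ℕ)) fun n => d * c n := by
  obtain ⟨Y, Λ, lam, e, hY, hl, fn, L, hL, w⟩ := h
  have hM := t.toTn.big
  have s' := sh_dn t.cl.toCl0 s hY
  obtain ⟨L₁, s₁, bd⟩ := gh_bd hM s'
  refine (t.fl _ s'.mem).optF Λ lam
    (fun n v => qs (e n v, Gh D X b k n ((Y n).ρ v))) L c (fun n => p n + c n) M hc
    (hp.add hc) OM.rfl hl hL (fn.mono fun n u x hx y hy v => ?_) (w.mono ?_)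
  · have := u x hx y hy v
    exact congrArg qs (Prod.ext (congrArg (·.1) this) (congrArg (·.2.2) this))
  filter_upwards [bd, Sub.le_pow hL one_pos (Eventually.of_forall fun n => (one_mul _).le),
    Sub.le_pow s₁ one_pos (Eventually.of_forall fun n => (one_mul _).le)] with n u p1 p2 v hv z
  refine ⟨fun i l => ⟨?_, ?_⟩, fun r hr => ?_⟩
  · have u0 := z.1.trans p1
    have u1 := z.2.1.trans p1
    have u2 := (u v hv).trans p2
    unfold qs
    split_ifs
    · fin_cases l <;> simp <;> assumption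
    · rw [abs_zero]; positivity
  · rintro (rfl | rfl) <;> simp [qs]
  · have := mul_le_mul (abs_sub_lt_of_fl1_eq hr).le z.2.2 (abs_nonneg _) (by positivity)
    rw [← abs_mul] at this
    refine le_trans (le_of_eq (congrArg _ ?_)) (this.trans (le_of_eq ?_))
    · simp only [ql, qf_qs, sB, sh, Geo.lt, Pi.add_apply, Pi.smul_apply, smul_eq_mul]
      ring
    · rw [pow_add]; field_simp

theorem shEnd (gt : Gt) (t : T2 K g M mm D η γ d ε₀) (h1 : 1 < γ) (h2 : γ < d) (h3 : 2 < d)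
    (nil : NilK K g M 1 γ) (s : Sh K g M D X γ d a b k) {κ : ℝ} (hκ : 0 < κ)
    (ha : ∀ᶠ n in UF, κ * M n ≤ a n) : False := by
  have hM := t.toTn.big
  have oa : OM M a := s.om.mono s.le
  obtain ⟨N, hN⟩ := exists_nat_ge d
  obtain ⟨C, hC⟩ := exists_nat_ge (max (γ * d) ((γ + d + 1) / (γ - 1)))
  have C1 : γ * d ≤ C := (le_max_left _ _).trans hC
  have C2 : γ + d + 1 ≤ (γ - 1) * C := by
    have := (le_max_right _ _).trans hC
    rwa [div_le_iff₀ (by linarith), mul_comm] at this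
  have N0 : (0 : ℝ) < N + 1 := by positivity
  let j : ℕ → ℕ := fun n => a n / (N + 1)
  let c : ℕ → ℕ := fun n => N * j n
  let q : ℕ → ℕ := fun n => ⌊(d - 1) * (c n + j n : ℕ)⌋₊
  let r : ℕ → ℕ := fun n => C * a n
  let p : ℕ → ℕ := fun n => ⌊(d - 1) * c n + (d - 2) / 2 * j n⌋₊
  let κ' : ℝ := κ / (N + 1) / 2
  have k0 : 0 < κ' := by positivity
  have ja : ∀ n, c n + j n ≤ a n := fun n => by
    have := Nat.mul_div_le (a n) (N + 1)
    simp only [c, j]; linarith
  have cN : ∀ n, (c n : ℝ) = N * j n := fun n => Nat.cast_mul _ _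
  have rC : ∀ n, (r n : ℝ) = C * a n := fun n => Nat.cast_mul _ _
  have ja' : ∀ n, (c n : ℝ) + j n ≤ a n := fun n => by exact_mod_cast ja n
  have jl : ∀ᶠ n in UF, κ' * M n ≤ j n := by
    filter_upwards [ha, hM.ev κ'⁻¹] with n u w
    have e1 : (a n : ℝ) < (N + 1) * (j n + 1) := by
      exact_mod_cast Nat.lt_mul_div_succ (a n) N.succ_pos
    have e2 : 1 ≤ κ' * M n := by rwa [← div_le_iff₀' k0, one_div]
    have e3 : κ * M n = (N + 1) * (2 * (κ' * M n)) := by simp only [κ']; field_simp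
    have e4 : 2 * (κ' * M n) < j n + 1 := lt_of_mul_lt_mul_left (by linarith) N0.le
    linarith
  have j1 : ∀ᶠ n in UF, (1 : ℝ) ≤ j n := by
    filter_upwards [jl, hM.ev κ'⁻¹] with n u w
    exact le_trans (by rwa [← div_le_iff₀' k0, one_div]) u
  have j0 : ∀ n, (0 : ℝ) ≤ j n := fun n => Nat.cast_nonneg _
  have c0 : ∀ n, (0 : ℝ) ≤ c n := fun n => Nat.cast_nonneg _
  have q1 : ∀ n, (q n : ℝ) ≤ (d - 1) * (c n + j n) := fun n => by
    rw [← Nat.cast_add]; exact Nat.floor_le (mul_nonneg (by linarith) (Nat.cast_nonneg _))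
  have q2 : ∀ n, (d - 1) * (c n + j n) < q n + 1 := fun n => by
    rw [← Nat.cast_add]; exact Nat.lt_floor_add_one _
  have p1 : ∀ n, (p n : ℝ) ≤ (d - 1) * c n + (d - 2) / 2 * j n := fun n =>
    Nat.floor_le (add_nonneg (mul_nonneg (by linarith) (c0 n)) (mul_nonneg (by linarith) (j0 n)))
  have q3 : ∀ n, (q n : ℝ) + j n ≤ d * c n := fun n => by
    have := mul_le_mul_of_nonneg_right hN (j0 n)
    linarith [q1 n, cN n]
  have a0 : ∀ n, (0 : ℝ) ≤ a n := fun n => Nat.cast_nonneg _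
  have dc : ∀ n, d * c n ≤ d * a n := fun n =>
    mul_le_mul_of_nonneg_left (by linarith [ja' n, j0 n]) (by linarith)
  have gr : ∀ n, γ * (q n + j n) ≤ r n := fun n => by
    have u1 := mul_le_mul_of_nonneg_left ((q3 n).trans (dc n)) (show 0 ≤ γ by linarith)
    have u2 := mul_le_mul_of_nonneg_right C1 (a0 n)
    linarith [rC n]
  have qr : ∀ n, q n + j n ≤ r n := fun n => by
    have : (q n : ℝ) + j n ≤ r n :=
      (le_mul_of_one_le_left (by positivity) h1.le).trans (gr n)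
    exact_mod_cast this
  have rr : ∀ n, (γ + d + 1) * a n ≤ (γ - 1) * r n := fun n => by
    have := mul_le_mul_of_nonneg_right C2 (a0 n)
    rw [rC]; linarith
  have ar : ∀ n, (γ * a n + a n : ℝ) ≤ r n := fun n => by
    have u1 : γ + 1 ≤ γ * d := by nlinarith
    have u2 := mul_le_mul_of_nonneg_right (u1.trans C1) (a0 n)
    rw [rC]; linarith
  have ar' : ∀ n, a n ≤ r n := fun n => by
    have : (a n : ℝ) ≤ r n := by nlinarith [ar n, a0 n]
    exact_mod_cast this
  have or : OM M r := by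
    obtain ⟨C', e⟩ := oa
    exact ⟨C * C', e.mono fun n u => by rw [mul_assoc]; exact Nat.mul_le_mul_left _ u⟩
  have ocj : OM M fun n => c n + j n := oa.mono (Eventually.of_forall ja)
  have oc : OM M c := oa.mono (Eventually.of_forall fun n => (Nat.le_add_right _ _).trans (ja n))
  have d0 : 0 ≤ d - γ := by linarith
  have f1 : Ft X.P (X.G g) M (sB g D X b k) (fun n => sT M D X b k n (c n + j n)) q := by
    obtain ⟨L₁, s₁, w₁⟩ := (t.fl X s.mem).conv (fun n => c n + j n) b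
      (fun n => ⌊(d - γ) * (c n + j n : ℕ)⌋₊) s.om
      (s.le.mono fun n u => ⟨(ja n).trans u, Nat.floor_le (by positivity)⟩)
    obtain ⟨L₂, s₂, e₂⟩ := sub_gap (q := fun n => ⌊(d - γ) * (c n + j n : ℕ)⌋₊) (τ := k)
      (s.eq.2.of_sub (Eventually.of_forall fun n => sub_le_sub_right ((Nat.floor_le
        (by positivity)).trans (mul_le_mul_of_nonneg_left (Nat.cast_le.2 (ja n)) d0)) _))
      (hM.sub le_rfl)
    refine ft_sh (τ := fun n => ⌊(d - γ) * (c n + j n : ℕ)⌋₊) t h1 h2 s.mem ocj (s₁.add s₂ hM)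
      (w₁.mono (Eventually.of_forall fun n v _ u => ?_))
      (Le.of_le fun n => by push_cast; linarith [q1 n]) ((hM.sm 1).of_sub
        (Eventually.of_forall fun n => ?_))
    · rw [add_div]
      exact (abs_sub_le _ (Gc (mD X D) b n v) _).trans
        (add_le_add u ((U.abs_sub_rd _ _).trans (e₂ n).2))
    · have := Nat.lt_floor_add_one ((d - γ) * (c n + j n : ℕ))
      push_cast at this ⊢
      linarith [q1 n]
  have f2 : Ft X.P (X.G g) M (sB g D X b k) (fun n => sT M D X b k n (r n)) q := by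
    obtain ⟨L₁, s₁, w₁⟩ := cell_near (p := fun _ => 0) ((t.fl X s.mem).cellH h2.le) hM
      (by linarith) or (Le.of_le fun n => by
        rw [Nat.cast_zero]; exact mul_nonneg (by linarith) (Nat.cast_nonneg _))
    obtain ⟨L₂, s₂, e₂⟩ := gh_bd hM s
    have qd : ∀ n, (q n : ℝ) ≤ (γ - 1) * r n := fun n => by
      nlinarith [rr n, q3 n, dc n, j0 n, a0 n]
    refine ft_sh (τ := fun _ => 0) t h1 h2 s.mem or (s₁.add s₂ hM)
      (w₁.mono (e₂.mono fun n y v hv u => ?_))
      (Le.of_le fun n => ?_) (Le.of_le fun n => by push_cast; linarith [qd n])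
    · rw [pow_zero, div_one]
      exact (abs_sub _ _).trans (add_le_add (u.2.1 1).1 (y v hv))
    · have := mul_le_mul_of_nonneg_right h2.le (Nat.cast_nonneg (α := ℝ) (r n))
      push_cast; linarith [qd n]
  have nl : Nl X.P (X.G g) M (sD D X b k) (sB g D X b k) c q r :=
    (shNil (c := c) (q := q) (σ := j) (p := fun n => ⌈γ * c n⌉₊) t h1 h2 nil s k0 or (by
      filter_upwards [jl, j1] with n u w
      have u1 := (Nat.ceil_lt_add_one (mul_nonneg (show 0 ≤ γ by linarith) (c0 n))).le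
      have u2 : γ * c n ≤ γ * a n :=
        mul_le_mul_of_nonneg_left (by linarith [ja' n, j0 n]) (by linarith)
      have u3 : (1 : ℝ) ≤ a n := by linarith [ja' n, c0 n]
      refine ⟨(Nat.le_add_right _ _).trans (ja n), u, Nat.le_ceil _, ?_, ?_, by
        push_cast; exact gr n⟩
      · have : (⌈γ * c n⌉₊ : ℝ) ≤ r n := by linarith [ar n]
        exact_mod_cast this
      · nlinarith [rr n])
      ((hM.sm 1).of_sub (Eventually.of_forall fun n => by
        linarith [Nat.ceil_lt_add_one (mul_nonneg (show 0 ≤ γ by linarith) (c0 n))]))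
      (Le.of_le fun n => by push_cast; exact q3 n)).anti
      (Eventually.of_forall fun n x _ y _ w => by
        simp only [sD, Prod.mk.injEq] at w ⊢
        tauto)
  have k1 : 0 < (d - 2) / 4 * κ' := mul_pos (by linarith) k0
  have G := gt _ _ M mm _ _ _ η (Mb.base X.P) (sk_sh t h1 h2 s) (dnK_base _) c r j q r p _ or k1
    (by
      filter_upwards [jl, hM.ev ((d - 2) / 4 * κ')⁻¹] with n u w
      refine ⟨(Nat.le_add_right _ _).trans (qr n), (ja n).trans (ar' n), le_rfl, ?_⟩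
      have e2 : 1 ≤ (d - 2) / 4 * κ' * M n := by rwa [← div_le_iff₀' k1, one_div]
      have e3 := mul_le_mul_of_nonneg_left u (show 0 ≤ (d - 2) / 4 by linarith)
      linarith [p1 n, q2 n]) f1 f2 nl
  have op : OM M p := or.mono (Eventually.of_forall fun n => by
    have : (p n : ℝ) ≤ r n := by
      have u1 : (q n : ℝ) + j n ≤ r n := by exact_mod_cast qr n
      nlinarith [p1 n, gr n, j0 n, c0 n, ja' n, a0 n, rC n,
        mul_le_mul_of_nonneg_right C1 (a0 n)]
    exact_mod_cast this)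
  obtain ⟨n, u1, u2, u3⟩ := ((gain_le t s oc op G _ (half_pos k1)).and
    (jl.and (hM.ev ((d - 2) / 4 * κ')⁻¹))).exists
  have e2 : 1 ≤ (d - 2) / 4 * κ' * M n := by rwa [← div_le_iff₀' k1, one_div]
  have e3 := mul_le_mul_of_nonneg_left u2 (show 0 ≤ (d - 2) / 4 by linarith)
  have e4 := Nat.lt_floor_add_one ((d - 1) * c n + (d - 2) / 2 * j n)
  push_cast at u1
  linarith

end

theorem shE (w : B2.W2) (gt : Gt) : B2.ShE := by
  intro Ω K g M mm D η γ d ε₀ κ X a b k t h1 h2 nil s hκ ha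
  obtain rfl := w K g M mm D η γ d ε₀ t h1 h2 nil
  exact shEnd gt t h1 h2 h2 nil s hκ ha

end Pool.Agent.MP_5168f5_an.R4.B2S
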