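import Pool.Agent.MP_5168f5_an.R4.SpecW

/-! The rate passes to the variable which is independent of the base. -/

namespace Pool.Agent.MP_5168f5_an.R4.Web

open H19 H17S H17F Filter NCx

namespace WNGxA

theorem num {a b c d e L t : ℝ} (hL : 1 ≤ L) (h1 : |a - e - c| ≤ L / t)
    (h2 : |b - e - d| ≤ L / t) :
    |c - d| ≤ 2 * L * (|a - b| + 1 / t) ∧ |a - b| ≤ 2 * L * (|c - d| + 1 / t) := by
  have e1 : 2 * L * (1 / t) = 2 * (L / t) := by ring
  have k : ∀ s : ℝ, |s| ≤ 2 * L * |s| := fun s =>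
    le_mul_of_one_le_left (abs_nonneg s) (by linarith)
  have k1 := k (a - b)
  have k2 := k (c - d)
  obtain ⟨a1, a2⟩ := abs_le.1 h1
  obtain ⟨b1, b2⟩ := abs_le.1 h2
  rw [mul_add, mul_add, e1]
  constructor <;> rw [abs_le] <;> constructor <;>
    linarith [le_abs_self (a - b), neg_abs_le (a - b), le_abs_self (c - d), neg_abs_le (c - d)]

end WNGxA

theorem rowNGx : NGx := by
  intro Ω Γ T P u u' E B G M R k L ε₀ hM hkM hkR hL hN he hi
  have hk := hM.frac hkM
  have h1 : NG1 P (fun n ω => (B n ω, G n ω)) u k ε₀ :=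
    (hN.frac hkR).side (Eventually.of_forall fun n => Fn.fst _ _)
  have h2 : NG1 P (fun n ω => (B n ω, G n ω)) u' k ε₀ :=
    h1.lip hk ((hL.frac hkM).const_mul hk one_le_two) (he.mono fun n hn a ha b hb e => by
      have e1 := hn.2 b hb
      rw [← hn.1 a ha b hb e] at e1
      exact WNGxA.num (hL.1 n) (hn.2 a ha) e1)
  intro Ω' Q ρ β lam F g1 g2 g3
  have h3 : Sm k fun n => mi (Q n) (fun v => fl1 (k n) (u' n (ρ n v))) (fun v => B n (ρ n v))
      fun v => G n (ρ n v) :=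
    Sm.mono (Le.frac hi hkM) (Eventually.of_forall fun n =>
      ((g1 n).mi_id (fun ω => fl1 (k n) (u' n ω)) (B n) (G n)).le)
  refine Le.of2 (h2 Ω' Q ρ β lam F g1 g2 g3) (sm_mi_cE hk g3 h3) (Eventually.of_forall fun n => ?_)
  have a1 := ch_le_mi (P := cE (Q n) (F n)) (F := fun v => fl1 (lam n) (u' n (ρ n v)))
    (G := fun v => B n (ρ n v)) (K := fun v => (fl1 (β n) (u' n (ρ n v)), G n (ρ n v)))
    (K' := fun v => (fl1 (β n) (u' n (ρ n v)), B n (ρ n v), G n (ρ n v)))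
    fun _ _ _ _ e => by simp only [Prod.mk.injEq] at e ⊢; tauto
  have a2 := mi_left (P := cE (Q n) (F n)) (F := fun v => fl1 (k n) (u' n (ρ n v)))
    (F' := fun v => fl1 (lam n) (u' n (ρ n v))) (G := fun v => B n (ρ n v))
    (K := fun v => G n (ρ n v)) (K' := fun v => (fl1 (β n) (u' n (ρ n v)), G n (ρ n v)))
    (Fn.snd _ _) (fun _ _ _ _ e => Prod.ext
      (fl1_eq_of_le ((g2 n).1.trans (g2 n).2) (Prod.mk.inj e).1) (Prod.mk.inj e).2)
    fun _ _ _ _ e => fl1_eq_of_le (g2 n).2 (Prod.mk.inj e).1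
  linarith

end Pool.Agent.MP_5168f5_an.R4.Web
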