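import Pool.Agent.MP_5168f5_an.R4.XRect3
import Pool.Agent.MP_5168f5_an.R4.WNGx

/-! The rectangle step. -/

namespace Pool.Agent.MP_5168f5_an.R4.XRect

open H19 H17S H17F Filter NCx

/-- The grid point with a given digit. -/
noncomputable def gq (j : ℕ) (k : ℤ) : ℝ := ((2 : ℝ) ^ j)⁻¹ * k

theorem fl1_gq (j : ℕ) (k : ℤ) : fl1 j (gq j k) = k := by
  rw [fl1, gq, mul_inv_cancel_left₀ (by positivity), Int.floor_intCast]

theorem fl_gp {N : ℕ} (j : ℕ) (u : Z N) : fl j (gp j u) = u := funext fun i => fl1_gq j (u i)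

theorem gq_fl {j k : ℕ} (h : j ≤ k) (x : ℝ) : |gq k (fl1 k x) - x| ≤ 1 / 2 ^ j := by
  have a1 := fl1_le k x
  have a2 := lt_fl1 k x
  have a3 : ((2 : ℝ) ^ k)⁻¹ ≤ 1 / 2 ^ j := by
    rw [one_div]; exact inv_anti₀ (by positivity) (pow_le_pow_right₀ one_le_two h)
  have a4 : (0 : ℝ) < 1 / 2 ^ j := by positivity
  unfold gq
  rw [abs_le]; constructor <;> linarith

theorem err {N : ℕ} {x y y' : V N} {s s' A B t : ℝ} (h : ‖x - s • y‖ ≤ A / t) (h1 : |s' - s| ≤ 1 / t)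
    (h2 : ‖y' - y‖ ≤ 1 / t) (h3 : |s| ≤ A) (h4 : ‖y'‖ ≤ B) : ‖x - s' • y'‖ ≤ (2 * A + B) / t := by
  have e : x - s' • y' = x - s • y - ((s' - s) • y' + s • (y' - y)) := by module
  rw [e]
  refine ((norm_sub_le _ _).trans (add_le_add h ((norm_add_le _ _).trans
    (add_le_add (norm_smul_le' h1 h4) (norm_smul_le' h3 h2))))).trans (le_of_eq ?_)
  ring

variable {N : ℕ} {Ω T A B : ℕ → Type} {P : ∀ n, FP (Ω n)} {Θ : ∀ n, Ω n → T n}
  {ρ : ∀ n, Ω n → A n} {σ : ∀ n, Ω n → B n} {a b : ∀ n, Ω n → ℝ} {v n₀ α m β : ∀ n, Ω n → V N}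
  {R J : ℕ → ℕ} {L : ℕ → ℝ}

/-- Round the indices and the slopes. -/
theorem hat (w : Web P Θ ρ σ a b v n₀ α m β R J L) :
    Web P Θ (fun n ω => (ρ n ω, fl1 (J n) (a n ω))) (fun n ω => (σ n ω, fl1 (J n) (b n ω)))
      (fun n ω => gq (J n) (fl1 (J n) (a n ω))) (fun n ω => gq (J n) (fl1 (J n) (b n ω))) v n₀
      (fun n ω => gp (R n) (fl (R n) (α n ω))) m (fun n ω => gp (R n) (fl (R n) (β n ω))) R J
      fun n => 4 * L n := by
  have hL := w.sub
  have f : ∀ {X : ℕ → Type} {x y : ∀ n, Ω n → ℝ} {κ : ∀ n, Ω n → X n},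
      (∀ᶠ n in UF, Near (P n) (fun ω => (κ n ω, Θ n ω)) (x n) (L n / 2 ^ J n)) →
      (Le R (fun n => J n * lg) fun n => ch (P n) (fun ω => fl1 (J n) (y n ω))
        fun ω => (κ n ω, Θ n ω)) → Le R (fun n => J n * lg) fun n =>
      ch (P n) (fun ω => fl1 (J n) (y n ω)) fun ω => ((κ n ω, fl1 (J n) (x n ω)), Θ n ω) :=
    fun {X x y κ} h1 h2 => via h2 (Sm.near1 w.big hL h1) (Eventually.of_forall fun n =>
      (ch_drop _ _ _).trans (add_le_add (ch_anti fun _ _ _ _ e => by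
        simp only [Prod.mk.injEq] at e ⊢; tauto) le_rfl))
  refine ⟨w.big, hL.const_mul w.big (by norm_num), w.frac, w.alg.mono fun n hn => ?_, ?_, ?_, ?_, ?_⟩
  · have p := hL.1 n
    have g : ∀ {X : Type} {x : Ω n → ℝ} {κ : Ω n → X} {y z : Ω n → V N},
        Fn (P n) (fun ω => (y ω, z ω)) (fun ω => (κ ω, Θ n ω)) →
        Fn (P n) (fun ω => (y ω, gp (R n) (fl (R n) (z ω))))
          (fun ω => ((κ ω, fl1 (J n) (x ω)), Θ n ω)) ∧
        Near (P n) (fun ω => ((κ ω, fl1 (J n) (x ω)), Θ n ω)) (fun ω => gq (J n) (fl1 (J n) (x ω)))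
          (4 * L n / 2 ^ J n) := fun h => ⟨fun x hx y hy e => by
        simp only [Prod.mk.injEq] at e
        have := Prod.mk.inj (h x hx y hy (Prod.ext e.1.1 e.2))
        simp only [this.1, this.2], fun x _ y _ e => by
        simp only [Prod.mk.injEq] at e
        simp only [e.1.2, sub_self, abs_zero]
        positivity⟩
    refine ⟨(g hn.1).1, (g hn.2.1).1, (g hn.1).2, (g hn.2.1).2, fun ω hω => ?_⟩
    obtain ⟨u1, u2, u3, u4, u5, u6, u7⟩ := hn.2.2.2.2 ω hω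
    have k : ∀ x : ℝ, |x| ≤ L n → |gq (J n) (fl1 (J n) x)| ≤ 4 * L n := fun x hx => by
      linarith [abs_sub_abs_le_abs_sub (gq (J n) (fl1 (J n) x)) x, gq_fl (le_refl (J n)) x,
        one_div_le (J n)]
    have q : (2 * L n + (L n + 1)) / 2 ^ R n ≤ 4 * L n / 2 ^ R n :=
      div_le_div_of_nonneg_right (by linarith) (by positivity)
    exact ⟨k _ u1, k _ u2, by linarith, by linarith [norm_gp (R n) u4],
      by linarith [norm_gp (R n) u5],
      (err u6 (gq_fl (w.frac.1 n) _) (gp_fl _ _) u2 (norm_gp _ u4)).trans q,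
      (err u7 (gq_fl (w.frac.1 n) _) (gp_fl _ _) u1 (norm_gp _ u5)).trans q⟩
  · simpa only [fl1_gq] using f (w.alg.mono fun n hn => hn.2.2.1) w.fb
  · simpa only [fl1_gq] using f (w.alg.mono fun n hn => hn.2.2.2.1) w.fa
  · simpa only [fl1_gq, fl_gp] using w.sa
  · simpa only [fl1_gq, fl_gp] using w.sb

theorem rect : Rect := by
  intro N ε₀ h0 h1
  obtain ⟨c, hc, hc1, H⟩ := core N h0 h1
  refine ⟨c, hc, hc1, fun P Θ ρ σ a b v n₀ α m β R J L w hN => ?_⟩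
  obtain ⟨W, Q, π, G, s₁, s₂, L', g1, g2, g3, g4⟩ := H (hat w) (Eventually.of_forall fun n => by
    simp only [fl1_gq, fl_gp]
    exact ⟨Fn.comp _ _, Fn.comp _ _, Fn.comp _ _, Fn.comp _ _, ((Fn.comp _ _).right _).left _,
      ((Fn.comp _ _).right _).left _⟩) (by simpa only [fl1_gq, fl_gp] using hN)
  refine ⟨W, Q, π, G, s₁, s₂, fun n => 3 * L' n, g1, g2.const_mul w.big (by norm_num), g3,
    g4.mono (Eventually.of_forall fun n u _ k => ?_)⟩
  have p := g2.1 n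
  have hr := lev_le R hc1 n
  have e : ∀ (x : ℝ) (y s : V N), ‖gp (R n) (fl (R n) y) - s - gq (J n) (fl1 (J n) x) • G n u‖ ≤
      L' n / 2 ^ lev R c n → ‖y - s - x • G n u‖ ≤ 3 * L' n / 2 ^ lev R c n := fun x y s h => by
    have a1 := (gp_fl (R n) y).trans (div_le_div₀ (g2.pos n).le p (by positivity)
      (pow_le_pow_right₀ one_le_two hr))
    have a2 := norm_smul_le' (gq_fl (hr.trans (w.frac.1 n)) x) k.1
    have a3 : y - s - x • G n u = gp (R n) (fl (R n) y) - s - gq (J n) (fl1 (J n) x) • G n u -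
      (gp (R n) (fl (R n) y) - y) + (gq (J n) (fl1 (J n) x) - x) • G n u := by module
    rw [a3]
    refine ((norm_add_le _ _).trans (add_le_add ((norm_sub_le _ _).trans (add_le_add h a1))
      a2)).trans (le_of_eq ?_)
    ring
  exact ⟨by linarith [k.1], by linarith [k.2.1], by linarith [k.2.2.1], e _ _ _ k.2.2.2.1,
    e _ _ _ k.2.2.2.2⟩

theorem rect1 : Rect1 := by
  intro ε₀ h0 h1
  obtain ⟨c, hc, hc1, H⟩ := rect 1 ε₀ h0 h1
  refine ⟨c, hc, hc1, fun P Θ ρ σ a b v n₀ α m β R J L w hN => H P Θ ρ σ a b _ _ _ _ _ R J L w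
    (NG1.ngr (Web.rowNGx P v n₀ (fun n ω => gq (J n) (fl1 (J n) (b n ω)) *
      gp (R n) (fl (R n) fun _ : Fin 1 => α n ω) 0) _ _ R R R _ ε₀ w.big Frac.rfl Frac.rfl
      (hat w).sub hN ((hat w).alg.mono fun n hn => ⟨fun x _ y _ e => ?_, fun ω hω => ?_⟩) ?_))⟩
  · simp only [Prod.mk.injEq] at e
    simp only [e.1.2.2, e.2.2.2]
  · rw [sub_right_comm]
    exact (norm_le_pi_norm _ (0 : Fin 1)).trans (hn.2.2.2.2 ω hω).2.2.2.2.2.1
  · refine Le.of2 (le_top (J := J) (fun n ω => (Θ n ω, fl1 (J n) (a n ω),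
      fl (R n) fun _ : Fin 1 => α n ω)) w.big w.sub (w.alg.mono fun n hn ω hω =>
        (hn.2.2.2.2 ω hω).2.1)) (hat w).fb (w.alg.mono fun n hn => ?_)
    have a1 : mi (P n) (fun ω => fl1 (R n) (n₀ n ω))
        (fun ω => (Θ n ω, fl1 (J n) (a n ω), fl1 (J n) (b n ω)))
        (fun ω => (Θ n ω, fl1 (J n) (a n ω), fl (R n) fun _ : Fin 1 => α n ω)) ≤
        mi (P n) (fun ω => fl1 (R n) (n₀ n ω)) (fun ω => fl1 (J n) (b n ω))
          fun ω => (Θ n ω, fl1 (J n) (a n ω), fl (R n) fun _ : Fin 1 => α n ω) :=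
      mi_mono fun _ _ _ _ e => by simp only [Prod.mk.injEq] at e ⊢; tauto
    have a2 : ch (P n) (fun ω => fl1 (J n) (b n ω))
        (fun ω => ((ρ n ω, fl1 (J n) (a n ω)), Θ n ω)) ≤ ch (P n) (fun ω => fl1 (J n) (b n ω))
        fun ω => (fl1 (R n) (n₀ n ω), Θ n ω, fl1 (J n) (a n ω),
          fl (R n) fun _ : Fin 1 => α n ω) := ch_anti fun x hx y hy e => by
      simp only [Prod.mk.injEq] at e
      have := Prod.mk.inj (hn.1 x hx y hy (Prod.ext e.1.1 e.2))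
      simp only [congrFun this.1 0, this.2, e.1.2, e.2]
    rw [mi_symm (fun ω => fl1 (R n) (n₀ n ω)) fun ω => fl1 (J n) (b n ω)] at a1
    simp only [fl1_gq]
    unfold mi at a1 ⊢
    linarith

end Pool.Agent.MP_5168f5_an.R4.XRect
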