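import Pool.Agent.MP_5168f5_an.R4.BAll
import Pool.Agent.MP_5168f5_an.R4.XRect
import Pool.Agent.MP_5168f5_an.R4.B2Chl
import Pool.Agent.MP_5168f5_an.R4.B2Dir
import Pool.Agent.MP_5168f5_an.R4.B2Lip
import Pool.Agent.MP_5168f5_an.R4.B2Lp1
import Pool.Agent.MP_5168f5_an.R4.B2PLp
import Pool.Agent.MP_5168f5_an.R4.B2PrV
import Pool.Agent.MP_5168f5_an.R4.B2SgC
import Pool.Agent.MP_5168f5_an.R4.B2ShA
import Pool.Agent.MP_5168f5_an.R4.B2Up
import Pool.Agent.MP_5168f5_an.R4.B2VA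
import Pool.Agent.MP_5168f5_an.R4.B2WbA
import Pool.Agent.MP_5168f5_an.R4.B2WbF
import Pool.Agent.MP_5168f5_an.R4.B2WbN
import Pool.Agent.MP_5168f5_an.R4.B2WbS
import Pool.Agent.MP_5168f5_an.R4.ShE3

/-! Weight two with a determined slope: assembly. -/

namespace Pool.Agent.MP_5168f5_an.R4.B2

open B1

theorem plp : PLp := rowPLp ngm
theorem up2 : Up2 := rowUp2 ngm
theorem uful : UFul := rowUFul rowDir
theorem lip : Lip := rowLip plp
theorem va : VA := rowVA XRect.rect1 rowWbA (rowWbF uful lip) rowWbS rowWbN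
theorem prv : PrV := rowPrV (rowGLip rowSegK cor3 rowMaj up2)
theorem sha : ShA := rowShA rowSegK cor3 rowMaj up2 (rowSgC uful)

theorem cb2_of' (w : W2) (gt : LG.Gt) (eng : Eng') : Tan.CB2' :=
  cb2_of w (rowChl plp) (tbf_of prv va (rowLp1 lip) sha (B2S.shE w gt) eng)

theorem Eng.weak (eng : Eng) : Eng' :=
  fun K g M mm D η d ε₀ C a A s R J r h lv X ρ k H s₁ s₂ L ε vo w e0 e _ =>
    eng K g M mm D η d ε₀ C a A s R J r h lv X ρ k H s₁ s₂ L ε vo w e0 e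

end Pool.Agent.MP_5168f5_an.R4.B2
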