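import Pool.Agent.MP_5168f5_an.R4.SpecLG

/-! Copies in a cap are separated at the scale of the cap. -/

namespace Pool.Agent.MP_5168f5_an.R4.LG

open H19 H17S H17F Filter Tan B1

namespace LCapA

/-- The slope in its cap, rescaled. -/
noncomputable def g2 {Ω : Type} (g : Geo 3 Ω) (j : ℕ) : Geo 1 Ω :=
  ⟨_, _, fun _ _ => 0, fun ω _ => Int.fract (2 ^ j * g.e ω 0), g.z,
    fun ω => (g.θ ω, fl1 j (g.e ω 0)), fun ω => (g.y ω, fl1 j (g.e ω 0))⟩

end LCapA

open LCapA in
theorem rowCap : OfCap := by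
  intro hD Ω K g M mm D β T η X h hX J j hJ hj
  have c1 := h.cls 1 one_pos
  simp only [one_mul] at c1
  have cls : Cls0 K (fun n => g2 (g n) (j n)) M 0 η := by
    refine ⟨h.cl, c1.pos, fun Y hY => ?_, fun Y hY α hα => ?_⟩
    · obtain ⟨L, hL, bx⟩ := (c1.bs Y hY).bx
      refine hD _ _ _ M M L 1 (c1.bs Y hY) one_pos hL (bx.mono fun n b => ⟨(one_mul _).le, le_rfl,
        ⟨fun ω u => ⟨fun _ => ⟨?_, ?_⟩, (b.bd ω u).2⟩,
          fun x u y v w => b.fz x u y v (congrArg (·.1) w),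
          fun x u y v w => Prod.ext (b.fθ x u y v (congrArg (·.1) w)) (congrArg (·.2) w)⟩,
        fun _ _ => rfl, fun x u y v w => ?_, fun _ _ _ _ w => congrArg (·.1) w⟩)
      · exact abs_zero.trans_le (hL.pos n).le
      · exact (Int.abs_fract.trans_le (Int.fract_lt_one _).le).trans (hL.1 n)
      · simp only [Geo.ln, Prod.mk.injEq] at w
        simp only [g2, Geo.ln, w.2.1, w.2.2]
    · obtain ⟨C, hC⟩ := hj
      refine ((h.sl Y hY).brw j (fun n => j n + α n) ⟨C + 1, hC.mono fun n a => by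
        rw [add_mul, one_mul]; exact add_le_add a (hα n)⟩
        (.of_forall fun n => Nat.le_add_right _ _)).of_sub (.of_forall fun n => ?_)
      refine sub_le_sub (le_of_eq (by push_cast; ring)) (ch_le (fun x _ y _ w => ?_)
        fun x _ y _ w => ?_)
      · simp only [g2, Prod.mk.injEq, U.fl1_fract] at w
        rw [w.2.1] at w
        exact sub_left_injective w.1
      · simp only [Prod.mk.injEq] at w
        simp only [g2, w.1, w.2]
  refine (sep K _ M 0 η X
    (fun n v => ((mD X D n).S (J n) v, fl1 (j n) ((X.G g n).e v 0))) cls hX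
    (Sm.mono (le_up h.sm ((h.sl X hX).lab J hJ).l) (.of_forall fun n => (mi_left (Fn.rfl _)
      (Fn.snd _ _) fun _ _ _ _ w => Prod.ext (congrArg (·.1) w) (congrArg (·.2.2) w)).trans
      (mi_right (fun _ _ _ _ w => congrArg (·.1) w) (fun x _ y _ w => ?_)
        fun x _ y _ w => ?_)))).imp fun L k =>
    ⟨k.1, k.2.mono (.of_forall fun n v hv w => w.trans (le_of_eq ?_))⟩
  · simp only [Geo.core, Geo.ln, Prod.mk.injEq] at w
    simp only [g2, w.1.1.2.1, w.2]
  · simp only [Geo.core, Geo.ln, Prod.mk.injEq] at w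
    simp only [g2, Geo.core, Geo.ln, w.1.1.2.1, w.1.1.2.2, w.1.2.1, w.2]
  · have e : fl1 (j n) ((X.G g n).e v.1 0) = fl1 (j n) ((X.G g n).e v.2 0) :=
      (congrArg Prod.snd ((kg.mem _ _ _ _ v (Law.rfl _)).1 hv).2.2).symm
    simp only [fl1] at e
    simp only [g2, Int.fract]
    rw [e, sub_sub_sub_cancel_right, ← mul_sub, abs_mul, abs_of_pos (by positivity), mul_assoc]

end Pool.Agent.MP_5168f5_an.R4.LG
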