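import Pool.Agent.MP_5168f5_an.R4.SpecLG
import Pool.Agent.MP_5168f5_an.R4.CConU

/-! A covector of small entropy given the cell joins the label. -/

namespace Pool.Agent.MP_5168f5_an.R4.LG

open H19 H17S H17F Filter Tan B1
open Web (RV rd)
open CI.ConUA (rnd abs_rd)

namespace ConA

theorem unr {k p : ℕ} {a b L : ℝ} (h : |rd k a - rd k b| ≤ L / 2 ^ k) (e : p ≤ k)
    (h1 : L + 2 ≤ 2 ^ (k - p)) : |a - b| ≤ 1 / 2 ^ p := by
  have h0 : (L + 2) / 2 ^ k ≤ 1 / 2 ^ p := by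
    rw [div_le_div_iff₀ (by positivity) (by positivity), one_mul]
    refine (mul_le_mul_of_nonneg_right h1 (by positivity)).trans_eq ?_
    rw [← pow_add, Nat.sub_add_cancel e]
  refine le_trans ?_ h0
  have h2 := abs_le.1 (abs_rd_sub k a)
  have h3 := abs_le.1 (abs_rd_sub k b)
  rw [add_div, show (2 : ℝ) / 2 ^ k = 2 * (1 / 2 ^ k) by ring]
  rw [abs_le] at h ⊢
  constructor <;> linarith [h.1, h.2, h2.1, h2.2, h3.1, h3.2]

theorem four {x L : ℝ} {k p : ℕ} (h : x ≤ L / 2 ^ k) (h1 : 1 ≤ L) (e : p ≤ k) :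
    x ≤ 4 * L / 2 ^ p :=
  h.trans (div_le_div₀ (by linarith) (by linarith) (by positivity)
    (pow_le_pow_right₀ one_le_two e))

theorem leak {Ω Λ Φ : Type} (P : FP Ω) (g : Geo 3 Ω) (S : Ω → Λ) (F : Ω → Φ) :
    (g.pull Prod.fst).lk (glue P P (fun v => (g.ln v, S v)) fun v => (g.ln v, S v))
      (fun v => ((F v.1, F v.2), S v.1)) ≤ g.lk P S + (ch P F S + ch P F S) := by
  have l1 := kg.fst P P (fun v => (g.ln v, S v)) fun v => (g.ln v, S v)
  have l2 := kg.snd P P (fun v => (g.ln v, S v)) (fun v => (g.ln v, S v)) (Law.rfl _)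
  have me := fun v => (kg.mem P P (fun v => (g.ln v, S v)) (fun v => (g.ln v, S v)) v (Law.rfl _)).1
  refine (kb.add _ _ 0 _ _).2.trans (add_le_add (l1.mi_id S g.core g.y).le
    ((ch_anti (Fn.fst _ _)).trans ((ch_subadd _ _ _).trans (add_le_add (l1.ch_id F S).le
      ((ch_anti fun x hx y hy e => ?_).trans (l2.ch_id F S).le)))))
  exact (congrArg Prod.snd (me x hx).2.2).trans (e.trans (congrArg Prod.snd (me y hy).2.2).symm)

end ConA

open ConA in
theorem rowCon : OfCon := by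
  intro rk li Ω K g M mm D β T η X h hX c J k p κ hJ hk hκ lv ⟨L, sL, w1⟩ nd
  have bM := h.big
  have sl := h.sl X hX
  have hc : Cls0 K g M 0 η := by simpa only [one_mul] using h.cls 1 one_pos
  obtain ⟨L₀, s0, bx⟩ := (hc.bs X hX).bx
  have pk : ∀ᶠ n in UF, p n ≤ k n := lv.mono fun n u => by
    exact_mod_cast (le_add_of_nonneg_right (by positivity)).trans u.2
  have lc := sl.lab c (hJ.mono (lv.mono fun _ u => u.1))
  let a := fun n v => (mT X T n (J n) v).1
  let b := fun n v => (mT X T n (J n) v).2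
  let φ := fun n v => ((X.G g n).ln v, (mD X D n).S (c n) v)
  have me := fun n v => (kg.mem (X n).Q (X n).Q (φ n) (φ n) v (Law.rfl _)).1
  have kX := h.cl.fst hX φ
  have s1 := sL.mul s0
  have sb : ∀ᶠ n in UF, ∀ v ∈ (glue (X n).Q (X n).Q (φ n) (φ n)).S,
      mR X β n v.2 = mR X β n v.1 ∧ (X.G g n).e v.2 = (X.G g n).e v.1 ∧
        |(X.G g n).e v.1 0| ≤ L₀ n := (sl.nest.and bx).mono fun n u v hv => by
    obtain ⟨m1, m2, m3⟩ := me n v hv
    exact ⟨congrArg Prod.fst (u.1.1 _ m2 _ m1 (congrArg Prod.fst m3)), congrArg (·.1.2.1) m3,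
      ((u.2.bd _ m1).1 0).2⟩
  obtain ⟨L₂, s2, w2⟩ := rk K g M 0 η
    (X.ext (fun n => glue (X n).Q (X n).Q (φ n) (φ n)) fun _ => Prod.fst)
    (fun n v => ((tk (k n) (mT X T n (J n) v.1), tk (k n) (mT X T n (J n) v.2)),
      (mD X D n).S (c n) v.1))
    (fun n v => (rd (k n) (a n v.1) - rd (k n) (a n v.2), rd (k n) (b n v.1) - rd (k n) (b n v.2)))
    (fun n => 12 * (L n * L₀ n) / 2 ^ k n) hc kX
    ((Sm.add (le_up h.sm lc.l) (Sm.add nd nd)).mono (Eventually.of_forall fun n =>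
      leak (X n).Q (X.G g n) ((mD X D n).S (c n)) fun v => tk (k n) (mT X T n (J n) v)))
    (Eventually.of_forall fun n x _ y _ e => by
      obtain ⟨⟨⟨e1, e2⟩, e3, e4⟩, -⟩ : ((_ ∧ _) ∧ _ ∧ _) ∧ _ := by
        simpa only [tk, Prod.mk.injEq] using e
      simp only [rd, a, b, e1, e2, e3, e4])
    (((whp_fst φ w1).and (whp_snd φ w1)).mono (sb.mono fun n u v hv ⟨c1, c2⟩ => by
      obtain ⟨eb, ee, b0⟩ := u v hv
      rw [ee, eb] at c2
      have := (abs_sub _ _).trans (add_le_add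
        (rnd (four c2.2.2 (sL.1 n) le_rfl) b0 (sL.1 n) (s0.1 n))
        (rnd (four c1.2.2 (sL.1 n) le_rfl) b0 (sL.1 n) (s0.1 n)))
      exact (le_of_eq (by congr 1; ring)).trans (this.trans_eq (by ring))))
  have ps := ((w2.mono (F := fun n v => |a n v.1 - a n v.2| ≤ 1 / 2 ^ p n ∧
      |b n v.1 - b n v.2| ≤ 1 / 2 ^ p n) (((Sub.le_pow (R := fun n => k n - p n)
        ((s2.mul (s1.const_mul bM (C := 12) (by norm_num))).add (bM.sub one_le_two) bM) hκ
        ((lv.and pk).mono fun n u => by rw [Nat.cast_sub u.2]; linarith [u.1.2])).and pk).mono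
        fun n u v _ e => by
    rw [← mul_div_assoc] at e
    exact ⟨unr e.1 u.2 u.1, unr e.2 u.2 u.1⟩)).and (whp_snd φ w1)).pos
  have lab := li X.P (X.G g) mm c (fun n => (mD X D n).S (c n))
    (fun n => (mD X D n).S (J n)) (fun n v => tk (p n) (mT X T n (J n) v)) _ 25
    (h.low.bs X hX).big lc (sl.lab _ hJ).l
    ((sl.nest.and lv).mono fun n u => nest_le (fun j => (u.1.2 j).1) u.2.1) (by norm_num) ps (by
      filter_upwards [ps.sure, sl.nest] with n u w x hx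
      obtain ⟨T₁, c1, d1⟩ := Web.WRectA.itv (p n) (a n x.1) zero_le_one
      obtain ⟨T₂, c2, d2⟩ := Web.WRectA.itv (p n) (b n x.1) zero_le_one
      refine ⟨T₁ ×ˢ T₂, ?_, fun y hy e => ?_⟩
      · rw [Finset.card_product, Nat.cast_mul]
        exact (mul_le_mul c1 c2 (by positivity) (by norm_num)).trans_eq (by norm_num)
      · have e1 : mT X T n (J n) y.1 = mT X T n (J n) x.1 := congrArg (·.2.2.2)
          ((w.2 (J n)).2 _ (me n y (u y hy).1).1 _ (me n x (u x hx).1).1 e)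
        have e2 := (u y hy).2.1
        rw [show a n y.1 = a n x.1 from congrArg Prod.fst e1,
          show b n y.1 = b n x.1 from congrArg Prod.snd e1] at e2
        exact Finset.mem_product.2 ⟨d1 _ ((abs_sub_comm _ _).trans_le e2.1),
          d2 _ ((abs_sub_comm _ _).trans_le e2.2)⟩)
  refine ⟨(X.ext (fun n => glue (X n).Q (X n).Q (φ n) (φ n)) fun _ => Prod.fst).cond _, _, _,
    fun n v => (rd (p n) (a n v.2), rd (p n) (b n v.2)), h.cl.cond _ _ kX ps, lab,
    Eventually.of_forall fun n x _ y _ e => ?_, _, s1.const_mul bM (C := 6) (by norm_num),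
    Whp.of_ev ?_⟩
  · obtain ⟨e0, e1, e2⟩ : _ ∧ _ ∧ _ := by simpa only [tk, Prod.mk.injEq] using e
    simp only [rd, a, b, e0, e1, e2]
  · filter_upwards [ps.sure, sb, pk] with n u w z v hv
    obtain ⟨hv', -, c1, c2, c3⟩ := u v hv
    obtain ⟨eb, ee, b0⟩ := w v hv'
    rw [ee, eb] at c3
    have l : L n + 1 ≤ 6 * (L n * L₀ n) := by nlinarith [sL.1 n, s0.1 n]
    exact ⟨(abs_rd c1).trans l, (abs_rd c2).trans l, rnd (four c3 (sL.1 n) z) b0 (sL.1 n) (s0.1 n)⟩

end Pool.Agent.MP_5168f5_an.R4.LG
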