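import Pool.Agent.MP_5168f5_an.R4.SpecLG

/-! Two lines through a cell determine the covector. -/

namespace Pool.Agent.MP_5168f5_an.R4.LG

open H19 H17S H17F Filter Tan B1

namespace LCraA

open Classical in
/-- The slope through two points that are far enough apart. -/
noncomputable def sl (L b b' u u' : ℝ) : ℝ := if 1 ≤ 2 * L * |u - u'| then (b - b') / (u - u') else 0

theorem er {β b w u s t L δ : ℝ} (hL : 1 ≤ L) (h1 : |β - b| ≤ δ) (h2 : |w - u| ≤ δ) (h3 : |t| ≤ L)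
    (h4 : |β - s - t * w| ≤ L * δ) : |b - s - t * u| ≤ 3 * L * δ := by
  have a1 : |t * (w - u)| ≤ L * δ := by
    rw [abs_mul]; exact mul_le_mul h3 h2 (abs_nonneg _) (by linarith)
  have a2 := le_mul_of_one_le_left ((abs_nonneg _).trans h1) hL
  rw [abs_le] at *
  constructor <;> linarith [h1.1, h1.2, h4.1, h4.2, a1.1, a1.2]

theorem cr {b b' u u' w w' s t L L₁ B δ : ℝ} (hL : 1 ≤ L) (hL₁ : 1 ≤ L₁) (h1 : |w - u| ≤ δ)
    (h2 : |w' - u'| ≤ δ) (h3 : |t| ≤ L) (h4 : |b - s - t * u| ≤ 3 * L * δ)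
    (h5 : |b' - s - t * u'| ≤ 3 * L * δ) (h6 : 1 ≤ L₁ * |w - w'|) (h7 : |u| ≤ B) :
    |t - sl L₁ b b' u u'| ≤ 12 * (L * L₁) * δ ∧
      |s - (b - sl L₁ b b' u u' * u)| ≤ (3 * L + 12 * (L * L₁) * B) * δ := by
  have d0 := (abs_nonneg _).trans h1
  have k : |t - sl L₁ b b' u u'| ≤ 12 * (L * L₁) * δ := by
    unfold sl
    split_ifs with e
    · have u0 : u - u' ≠ 0 := fun z => by rw [z] at e; norm_num at e
      have a1 : |t - (b - b') / (u - u')| * |u - u'| ≤ 6 * L * δ := by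
        rw [← abs_mul, sub_mul, div_mul_cancel₀ _ u0]
        rw [abs_le] at *
        constructor <;> linarith [h4.1, h4.2, h5.1, h5.2]
      nlinarith [abs_nonneg (t - (b - b') / (u - u'))]
    · have a1 : |w - w'| ≤ |u - u'| + 2 * δ := by
        have := le_abs_self (u - u')
        have := neg_abs_le (u - u')
        rw [abs_le] at *
        constructor <;> linarith [h1.1, h1.2, h2.1, h2.2]
      have a2 : 1 ≤ 4 * (L₁ * δ) := by nlinarith
      rw [sub_zero]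
      nlinarith
  refine ⟨k, ?_⟩
  have a1 : |(t - sl L₁ b b' u u') * u| ≤ 12 * (L * L₁) * δ * B := by
    rw [abs_mul]; exact mul_le_mul k h7 (abs_nonneg _) (by positivity)
  rw [abs_le] at *
  constructor <;> linarith [h4.1, h4.2, a1.1, a1.2]

theorem rem {Ω α β γ δ ε : Type} (P : FP Ω) {S : Ω → α} {T : Ω → β} {Z : Ω → γ} {θ : Ω → δ}
    (w : Ω → ε) (hT : Fn P T S) (hZ : Fn P Z S) (hθ : Fn P θ Z) :
    ch P T Z ≤ ch (glue P P S S) (fun v => T v.1) (fun v => ((w v.1, w v.2), Z v.1)) +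
      2 * mi P w S θ := by
  have l1 := kg.fst P P S S
  have l2 := kg.snd P P S S (Law.rfl _)
  have m := fun v => (kg.mem P P S S v (Law.rfl _)).1
  have a0 := kf2.copy P S w w S (Fn.rfl _)
  generalize glue P P S S = Q at l1 l2 m a0 ⊢
  have a1 := ch_symm (P := Q) (fun v => T v.1) (fun v => (w v.1, w v.2)) fun v => Z v.1
  have a2 : ch Q (fun v => (w v.1, w v.2)) (fun v => Z v.1) ≤
      ch Q (fun v => (w v.1, w v.2)) fun v => θ v.1 := ch_anti (l1.fn hθ)
  have a3 : ch Q (fun v => (w v.1, w v.2)) (fun v => S v.1) ≤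
      ch Q (fun v => (w v.1, w v.2)) fun v => (T v.1, Z v.1) := ch_anti (l1.fn (hT.pair hZ))
  have a4 := ch_subadd (P := Q) (fun v => w v.1) (fun v => w v.2) fun v => θ v.1
  have a5 := ch_chain (P := Q) (fun v => w v.1) (fun v => w v.2) fun v => S v.1
  have a6 : ch Q (fun v => w v.2) (fun v => θ v.1) = ch Q (fun v => w v.2) fun v => θ v.2 :=
    ch_ext (fun _ _ => rfl) fun v hv => (hθ.trans hZ) _ (m v hv).1 _ (m v hv).2.1 (m v hv).2.2.symm
  have a7 : ch Q (fun v => w v.2) (fun v => S v.1) = ch Q (fun v => w v.2) fun v => S v.2 :=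
    ch_ext (fun _ _ => rfl) fun v hv => (m v hv).2.2.symm
  have a8 : ch P w (fun ω => (S ω, θ ω)) ≤ ch P w S := ch_anti (Fn.fst _ _)
  unfold mi at a0 ⊢
  linarith [l1.ch_id T Z, l1.ch_id w θ, l1.ch_id w S, l2.ch_id w θ, l2.ch_id w S]

end LCraA

open LCraA in
theorem rowCra : Cra := by
  intro Ω K g M mm D β T η X h hX Φ Z J k r hJ ev ⟨L, hL, w⟩ nd
  have s := h.sl X hX
  have big := h.big
  have c1 : Cls0 K g M 0 η := by simpa only [one_mul] using h.cls 1 one_pos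
  obtain ⟨L₀, hL₀, bx⟩ := (c1.bs X hX).bx
  obtain ⟨L₁, hL₁, w₁⟩ := sep K g M 0 η X (fun n => (mD X D n).S (J n)) c1 hX
    (le_up h.sm (s.lab J hJ).l)
  have hk : OM M k := hJ.mono (ev.mono fun n u => u.1.trans u.2.1)
  have fT : ∀ᶠ n in UF, Fn (X n).Q (mT X T n (J n)) ((mD X D n).S (J n)) :=
    s.nest.mono fun n u a ha b hb e => congrArg (·.2.2.2) ((u.2 _).2 a ha b hb e)
  have mem := fun n v => (kg.mem (X n).Q (X n).Q ((mD X D n).S (J n)) ((mD X D n).S (J n)) v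
    (Law.rfl _)).1
  have d1 := K31.dnS_law (Eventually.of_forall fun n =>
    kg.fst (X n).Q (X n).Q ((mD X D n).S (J n)) ((mD X D n).S (J n)))
  have d2 := K31.dnS_law (Eventually.of_forall fun n =>
    kg.snd (X n).Q (X n).Q ((mD X D n).S (J n)) ((mD X D n).S (J n)) (Law.rfl _))
  have w₂ := (((d1.whp w).and (d2.whp w)).and w₁).mono (F := fun n v =>
      |(mT X T n (J n) v.1).2 - sl (L₁ n) (U.rd (k n) (mR X β n v.1)) (U.rd (k n) (mR X β n v.2))
        (U.rd (r n) ((X.G g n).e v.1 0)) (U.rd (r n) ((X.G g n).e v.2 0))| ≤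
        12 * (L n * L₁ n) / 2 ^ k n ∧
      |(mT X T n (J n) v.1).1 - (U.rd (k n) (mR X β n v.1) - sl (L₁ n) (U.rd (k n) (mR X β n v.1))
        (U.rd (k n) (mR X β n v.2)) (U.rd (r n) ((X.G g n).e v.1 0))
        (U.rd (r n) ((X.G g n).e v.2 0)) * U.rd (r n) ((X.G g n).e v.1 0))| ≤
        (3 * L n + 12 * (L n * L₁ n) * (L₀ n + 1)) / 2 ^ k n) (by
    filter_upwards [ev, fT, bx] with n e fT bx v hv ⟨⟨⟨_, a2, a3⟩, _, b2, b3⟩, c⟩
    obtain ⟨m1, m2, m3⟩ := mem n v hv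
    rw [fT _ m2 _ m1 m3] at b2 b3
    rw [div_eq_mul_one_div] at a3 b3
    have u := fun x => (U.abs_sub_rd (r n) x).trans (U.div_pow_le zero_le_one e.1)
    rw [div_eq_mul_one_div, div_eq_mul_one_div (3 * L n + _)]
    exact cr (hL.1 n) (hL₁.1 n) (u _) (u _) a2 (er (hL.1 n) (U.abs_sub_rd _ _) (u _) a2 a3)
      (er (hL.1 n) (U.abs_sub_rd _ _) (u _) a2 b3) c
      ((U.abs_rd _ _).trans (add_le_add ((bx.bd _ m1).1 0).2 le_rfl)))
  have s1 := (hL.mul hL₁).const_mul big (by norm_num : (1 : ℝ) ≤ 12)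
  have n1 := (ndB (G := fun n v => ((fl1 (k n) (mR X β n v.1), fl1 (k n) (mR X β n v.2)),
      fl1 (r n) ((X.G g n).e v.1 0), fl1 (r n) ((X.G g n).e v.2 0))) big
    ((hL.const_mul big (by norm_num)).add (s1.mul (hL₀.add (big.sub le_rfl) big)) big) hk
    (Eventually.of_forall fun n => ⟨fun a _ b _ e => by
      simp only [Prod.mk.injEq] at e
      simp only [U.rd, e.1.1, e.1.2, e.2.1, e.2.2], fun v _ => (s.bT n _ v.1).1⟩)
    (w₂.mono (Eventually.of_forall fun _ _ _ u => u.2))).pair (ndB big s1 hk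
    (Eventually.of_forall fun n => ⟨fun a _ b _ e => by
      simp only [Prod.mk.injEq] at e
      simp only [U.rd, e.1.1, e.1.2, e.2.1, e.2.2], fun v _ => (s.bT n _ v.1).2⟩)
    (w₂.mono (Eventually.of_forall fun _ _ _ u => u.1)))
  have n2 := n1.trans (K := fun n v => ((fl1 (r n) ((X.G g n).e v.1 0),
      fl1 (r n) ((X.G g n).e v.2 0)), Z n v.1))
    ((((nd.dn d1).anti (Eventually.of_forall fun n a _ b _ e =>
      Prod.ext (congrArg (·.1.1) e) (congrArg (·.2) e))).pair ((nd.dn d2).anti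
      (ev.mono fun n u a ha b hb e => Prod.ext (congrArg (·.1.2) e) (by
        obtain ⟨m1, m2, m3⟩ := mem n a ha
        obtain ⟨m4, m5, m6⟩ := mem n b hb
        exact (u.2.2.1 _ m2 _ m1 m3).trans ((congrArg (·.2) e).trans
          (u.2.2.1 _ m5 _ m4 m6).symm))))).pair
      (ND.of_fn (Eventually.of_forall fun n => Fn.fst _ _)))
  refine (Sm.add n2 ((s.typ J hJ).smul zero_le_two)).mono ?_
  filter_upwards [ev, fT] with n e fT
  refine (rem (X n).Q (fun v => fl1 (r n) ((X.G g n).e v 0))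
    ((Fn.comp (tk (k n)) _).trans fT) e.2.2.1 e.2.2.2).trans (add_le_add le_rfl
      (mul_le_mul_of_nonneg_left (mi_mono' (Fn.left ?_ _)) zero_le_two))
  exact fun _ _ _ _ q => fl1_eq_of_le e.2.1 q

end Pool.Agent.MP_5168f5_an.R4.LG
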