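import Pool.Agent.MP_5168f5_an.R4.SpecLG

/-! The deep digits of the position of the base line are not needed. -/

namespace Pool.Agent.MP_5168f5_an.R4.LG

open H19 H17S H17F Filter Tan B1
open Web (RV)

namespace LocA

variable {Ω : ℕ → Type} {K : Mb Ω → Prop} {g : Gs 3 Ω} {M mm : ℕ → ℕ} {D : ∀ n, Td (Ω n)}
  {β : RV Ω} {T : CV Ω} {η : ℝ} {X : Mb Ω}

/-- The first coordinate is full given any label. -/
theorem ful (h : SK K g M mm D β T η) (hX : K X) {Λ : ℕ → Type} {lam : ∀ n, (X n).W → Λ n}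
    {j a b : ℕ → ℕ} (hl : Lab X.P (X.G g) mm j lam) (hb : OM M b)
    (e : ∀ᶠ n in UF, j n ≤ a n ∧ a n ≤ b n) :
    Le M (fun n => (b n - a n : ℝ) * lg) fun n =>
      ch (X n).Q (fun v => fl1 (b n) ((X.G g n).pt v 0)) fun v =>
        (fl1 (a n) ((X.G g n).pt v 0), lam n v, (X.G g n).zt v) := by
  obtain ⟨C, C0, c1, c2, c3⟩ := om_big hb
  have up : ∀ {f}, Sm mm f → Sm (fun n => C * M n) f := fun k => le_unit c2 (le_up h.sm k)
  obtain ⟨L, hL, f⟩ := (h.sl X hX).fat b hb
  have e1 : ∀ᶠ n in UF, min (b n) (C * M n) = b n := c1.mono fun n u => min_eq_left u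
  have e2 : ∀ᶠ n in UF, min (a n) (min (b n) (C * M n)) = a n := (e.and e1).mono fun n u => by
    rw [u.2]; exact min_eq_left u.1.2
  have k := xa K g (fun n => C * M n) (fun n => min (j n) (min (a n) (min (b n) (C * M n))))
    (fun n => min (a n) (min (b n) (C * M n))) (fun n => min (b n) (C * M n)) 0 η X lam
    (h.cls C C0) hX ⟨kb.up _ _ _ _ _ _ ((e.and e2).mono fun n u => by
      rw [u.2]; exact le_min le_rfl u.1.1) (up hl.h), up hl.l⟩
    ⟨L, sub_unit c2 hL, (f.and e1).mono fun n u => by beta_reduce; rw [u.2]; exact u.1⟩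
    fun n => ⟨min_le_right _ _, min_le_right _ _, min_le_right _ _⟩
  refine (le_unit c3 k).congr ?_ ?_ <;> filter_upwards [e1, e2] with n u v
  · rw [v, u]
  · rw [v, u]

theorem split {W α α' γ δ : Type} (P : FP W) (b : W → α) (A : W → α') (S : W → γ) (G : W → δ) :
    ch P b G ≤ ch P b (fun ω => (A ω, G ω)) + ch P b (fun ω => (S ω, G ω)) +
      (ch P A G - ch P A fun ω => (S ω, G ω)) := by
  have a1 := mi_near (P := P) A b S G
  rw [mi_symm] at a1
  unfold mi at a1
  linarith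

theorem info {W α α' γ δ σ τ : Type} {P : FP W} {w : W → α} (x : W → α') {H : W → γ} (S : W → δ)
    (t : W → σ) {θ : W → τ} (h : Fn P θ H) :
    ch P x H ≤ ch P x (fun ω => (w ω, H ω)) + (mi P w S θ + mi P t w (fun ω => (S ω, θ ω)) +
      ch P (fun ω => (x ω, H ω)) fun ω => ((S ω, t ω), θ ω)) := by
  have a1 : mi P w x H ≤ mi P w (fun ω => (x ω, H ω)) θ :=
    mi_right h ((Fn.snd _ _).left _) ((Fn.fst _ _).left _)
  have a2 := mi_near (P := P) w (fun ω => (x ω, H ω)) (fun ω => (S ω, t ω)) θ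
  rw [mi_chain w S t, mi_symm w t] at a2
  rw [mi_symm] at a1
  have a3 := a1.trans a2
  rw [mi] at a3
  linarith

end LocA

open LocA in
theorem rowLoc : Loc := by
  intro Ω K g M mm D β T η X h hX c j q r hr e ⟨L1, s1, ft⟩ nl
  have hM := h.big
  have sl := h.sl X hX
  obtain ⟨L, hL, bx⟩ := (h.low.bs X hX).bx
  replace hL := sub_up h.sm hL
  have hj : OM M j := hr.mono (e.mono fun _ u => u.2.1)
  have hz : ∀ᶠ n in UF, ∀ ω ∈ (X n).Q.S, |(X.G g n).z ω| ≤ 1 := bx.mono fun n b ω hω =>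
    abs_le.2 ⟨by linarith [(b.bd ω hω).2.1], (b.bd ω hω).2.2.le⟩
  have n1 : ND X.P M (fun n v => fl1 (q n) (mR X β n v)) fun n v => ((mD X D n).S (j n) v,
      fl1 (r n) ((X.G g n).e v 0), fl1 (j n) ((X.G g n).a v 0), (mD X D n).S (c n) v) := by
    obtain ⟨L2, s2, bd⟩ := sl.bd
    refine ND.near (c := fun n v => (mT X T n (j n) v).1 + (mT X T n (j n) v).2 *
      U.rd (r n) ((X.G g n).e v 0)) hM (s2.add (s1.const_mul hM one_le_two) hM)
      (hr.mono (e.mono fun _ u => u.2.2)) ?_ (ft.mono (e.mono fun n u v _ w => ?_))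
    · filter_upwards [bd, sl.nest] with n u k
      refine ⟨fun x hx y hy s => ?_, fun v hv => (u v hv).trans (by linarith [s1.pos n])⟩
      have a1 := (k.2 (j n)).2 x hx y hy (congrArg Prod.fst s)
      simp only [Prod.mk.injEq] at a1 s
      simp only [U.rd, a1.2.2.2, s.2.1]
    · rw [← sub_sub]
      exact (near_rd w.2.2 w.2.1 u.2.2).trans
        (div_le_div_of_nonneg_right (by linarith [s2.pos n]) (by positivity))
  have n2 : ND X.P M (fun n v => fl1 (q n) (mR X β n v)) fun n v => (fl1 (r n) ((X.G g n).a v 0),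
      fl1 (r n) ((X.G g n).e v 0), fl1 (j n) ((X.G g n).a v 0), (mD X D n).S (c n) v) :=
    ND.anti nl (Eventually.of_forall fun n x _ y _ s => by
      simp only [bl, Prod.mk.injEq] at s ⊢
      tauto)
  have n3 : ND X.P M (fun n v => fl1 (r n) ((X.G g n).pt v 0))
      fun n => (mD X D n).S (r n) := by
    obtain ⟨L2, s2, w⟩ := sl.ball r hr
    refine ND.near (c := fun n v => (mD X D n).o (r n) v 0) hM
      ((hL.const_mul hM one_le_two).add s2 hM) hr ?_
      (w.mono (Eventually.of_forall fun n v _ u => u.trans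
        (div_le_div_of_nonneg_right (by linarith [hL.pos n]) (by positivity))))
    filter_upwards [bx, sl.nest] with n u k
    exact ⟨fun x hx y hy s => congrArg (·.2.2.1) ((k.2 (r n)).2 x hx y hy s),
      fun v hv => (abs_pt u hv 0).trans (by linarith [s2.pos n])⟩
  have n4 : ND X.P M (fun n v => (fl1 (r n) ((X.G g n).pt v 0), fl1 (j n) ((X.G g n).pt v 0),
      (mD X D n).S (j n) v, (X.G g n).zt v))
      fun n v => (((mD X D n).S (r n) v, (X.G g n).z v), (X.G g n).θ v) :=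
    (n3.anti (Eventually.of_forall fun n => (Fn.fst _ _).left _)).cut (ND.of_fn (by
      filter_upwards [e, sl.nest] with n u k x hx y hy s
      simp only [Geo.zt, Prod.mk.injEq] at s ⊢
      exact ⟨s.1, fl1_eq_of_le u.2.1 s.1, nest_le (fun i => (k.2 i).1) u.2.1 x hx y hy s.2.1.1,
        s.2.1.2, s.2.2⟩))
  have i1 : Sm M fun n => mi (X n).Q (X.G g n).z (fun v => fl1 (r n) ((X.G g n).e v 0))
      fun v => ((mD X D n).S (r n) v, (X.G g n).θ v) :=
    Sm.mono (le_up h.sm (kb.inf _ _ _ _ _ (h.low.bs X hX) (sl.lab r hr).h))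
      (sl.nest.mono fun n k => mi_right
        ((((Fn.comp (·.2.1) _).trans (k.2 (r n)).2).left _).pair (Fn.snd _ _))
        (((Fn.snd _ _).left _).pair ((Fn.snd _ _).right _))
        (((Fn.comp (fun l : V 3 × V 3 × _ => fl1 (r n) (l.2.1 0)) (X.G g n).ln).left _).left _))
  have n5 : ND X.P M (fun n v => fl1 (j n) ((X.G g n).a v 0)) fun n v =>
      (fl1 (r n) ((X.G g n).e v 0), fl1 (j n) ((X.G g n).pt v 0), (mD X D n).S (j n) v,
        (X.G g n).zt v) :=
    ND.mono (nd_pt (a := fun n ω => (X.G g n).pt ω 0) (e := fun n ω => (X.G g n).e ω 0)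
      (z := fun n ω => -(X.G g n).z ω) (r := j) hM ((hz.and e).mono fun n u =>
        ⟨fun x _ y _ s => by
          simp only [Geo.zt, Prod.mk.injEq] at s ⊢
          exact ⟨s.2.1, fl1_eq_of_le u.2.2.1 s.1, by rw [s.2.2.2.1]⟩, fun ω hω => by
          rw [abs_neg]; exact u.1 ω hω⟩)) (Eventually.of_forall fun n x _ y _ s => by
      have : ∀ ω, (X.G g n).pt ω 0 + -(X.G g n).z ω * (X.G g n).e ω 0 = (X.G g n).a ω 0 :=
        fun ω => by
          rw [show (X.G g n).pt ω 0 = (X.G g n).a ω 0 + (X.G g n).z ω * (X.G g n).e ω 0 from rfl]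
          ring
      simpa only [this] using s)
  have k1 := ND.le (P := X.P) (M := M) (F := fun n v => fl1 (r n) ((X.G g n).pt v 0))
    (F' := fun n v => fl1 (r n) ((X.G g n).a v 0))
    (G := fun n v => (fl1 (r n) ((X.G g n).e v 0), fl1 (j n) ((X.G g n).pt v 0),
      (mD X D n).S (j n) v, (X.G g n).zt v))
    (G' := fun n v => ((mD X D n).S (j n) v, fl1 (r n) ((X.G g n).e v 0),
      fl1 (j n) ((X.G g n).a v 0), (mD X D n).S (c n) v))
    (nd_pt hM (hz.mono fun n u => ⟨fun x _ y _ s => by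
      simp only [Geo.zt, Prod.mk.injEq] at s ⊢
      exact ⟨s.1, s.2.1, s.2.2.2.2.1⟩, u⟩))
    (n5.cut (ND.of_fn (by
      filter_upwards [e, sl.nest] with n u k x hx y hy s
      simp only [Prod.mk.injEq] at s ⊢
      exact ⟨s.2.2.2.1, s.2.1, s.1, nest_le (fun i => (k.2 i).1) u.1 x hx y hy s.2.2.2.1⟩)))
  have k2 := ful h hX (sl.lab j hj) hr (e.mono fun n u => ⟨le_rfl, u.2.1⟩)
  refine ((((Sm.add n1 n2).add ((sl.typ r hr).add i1)).add n4).of3 k1 k2 (e.mono fun n u => ?_))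
  have a1 := split (X n).Q (fun v => fl1 (q n) (mR X β n v)) (fun v => fl1 (r n) ((X.G g n).a v 0))
    ((mD X D n).S (j n)) fun v =>
      (fl1 (r n) ((X.G g n).e v 0), fl1 (j n) ((X.G g n).a v 0), (mD X D n).S (c n) v)
  have a2 := KBA.refine (P := (X n).Q) (x := fun v => (X.G g n).a v 0) (G := fun v =>
    (fl1 (r n) ((X.G g n).e v 0), fl1 (j n) ((X.G g n).a v 0), (mD X D n).S (c n) v)) u.2.1
    ((Fn.fst _ _).right _)
  have a3 := info (P := (X n).Q) (w := fun v => fl1 (r n) ((X.G g n).e v 0))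
    (fun v => fl1 (r n) ((X.G g n).pt v 0)) (H := fun v => (fl1 (j n) ((X.G g n).pt v 0),
      (mD X D n).S (j n) v, (X.G g n).zt v)) ((mD X D n).S (r n)) (X.G g n).z (θ := (X.G g n).θ)
    (((Fn.comp Prod.snd (X.G g n).zt).right _).right _)
  linarith

end Pool.Agent.MP_5168f5_an.R4.LG
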