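import Pool.Agent.MP_5168f5_an.R4.SpecLG

/-! In a cap the slope is determined by the cell of the same size. -/

namespace Pool.Agent.MP_5168f5_an.R4.LG

open H19 H17S H17F Filter Tan B1

namespace LNarA

theorem nr {b w A : ℝ} {T : ℝ × ℝ} {j : ℕ} (h1 : 1 ≤ A) (hw : |w| ≤ A) (hT : |T.2| ≤ A)
    (h : |b - T.1 - T.2 * w| ≤ A / 2 ^ j) :
    |b - (U.rd j T.1 + U.rd j w * U.rd j T.2)| ≤ 8 * A / 2 ^ j := by
  have a0 : |U.rd j w| ≤ 2 * A := by
    have := (U.abs_sub_rd j w).trans (U.div_pow_le zero_le_one (Nat.zero_le j))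
    rw [pow_zero, div_one, abs_sub_comm] at this
    linarith [abs_sub_abs_le_abs_sub (U.rd j w) w]
  have a1 := near_rd (mul_comm T.2 _ ▸ near_rd h hT le_rfl) a0 le_rfl
  have a2 := near_rd (y := b - U.rd j w * U.rd j T.2) (c := 1) (x := T.1)
    (le_of_eq_of_le (congrArg _ (by ring)) a1) (by rw [abs_one]; linarith) le_rfl
  exact (le_of_eq_of_le (congrArg _ (by ring)) a2).trans_eq (by ring)

end LNarA

theorem rowNar : OfNar := by
  intro xv Ω K g M mm D β T η X h hX J j hJ e ⟨L₁, s₁, ft⟩ hT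
  have hM := h.big
  have c := h.sl X hX
  obtain ⟨L₀, s₀, bx⟩ := (h.low.bs X hX).bx
  obtain ⟨L₂, s₂, bd⟩ := c.bd
  replace s₀ := sub_up h.sm s₀
  obtain ⟨C, C0, e1, e2, e3⟩ := om_big hJ
  have oj : OM M j := hJ.mono (e.mono fun _ u => le_of_add_le_left u)
  have sA := (s₀.add s₁ hM).add s₂ hM
  have n1 : ND X.P M (fun n v => fl1 (j n) (mR X β n v)) fun n v =>
      (tk (j n) (mT X T n (J n) v), fl1 (j n) ((X.G g n).e v 0)) := by
    refine ND.near (c := fun n v => U.rd (j n) (mT X T n (J n) v).1 +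
      U.rd (j n) ((X.G g n).e v 0) * U.rd (j n) (mT X T n (J n) v).2) hM
      (sA.const_mul hM (by norm_num : (1 : ℝ) ≤ 8)) oj (bd.mono fun n u => ⟨fun a _ b _ q => ?_,
        fun a ha => (u a ha).trans (by linarith [s₀.pos n, s₁.pos n, s₂.pos n])⟩)
      (ft.mono (bx.mono fun n u v hv w => ?_))
    · simp only [tk, Prod.mk.injEq] at q
      simp only [U.rd, q.1.1, q.1.2, q.2]
    · have := s₀.pos n
      have := s₁.pos n
      have := s₂.pos n
      exact LNarA.nr (sA.1 n) (((u.bd v hv).1 0).2.trans (by linarith)) (w.2.1.trans (by linarith))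
        (w.2.2.trans (div_le_div_of_nonneg_right (by linarith) (by positivity)))
  have nx : ∀ a a' : ℕ → ℕ, OM M a → (∀ᶠ n in UF, a' n ≤ a n) → ND X.P M
      (fun n v => fl1 (a' n) ((X.G g n).pt v 0)) fun n => (mD X D n).S (a n) := fun a a' ha u => by
    obtain ⟨L, s, w⟩ := c.ball a ha
    refine ND.near (c := fun n v => (mD X D n).o (a n) v 0) hM
      (s.add (s₀.const_mul hM one_le_two) hM) (ha.mono u) ?_
      (w.mono (u.mono fun n u v _ q => q.trans ((U.div_pow_le (s.pos n).le u).trans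
        (div_le_div_of_nonneg_right (by linarith [s₀.pos n]) (by positivity)))))
    filter_upwards [c.nest, bx] with n p q
    exact ⟨(Fn.comp (·.2.2.1) _).trans (p.2 _).2, fun v hv =>
      (abs_pt q hv 0).trans (by linarith [s.pos n])⟩
  have C1 : (0 : ℝ) < C := by exact_mod_cast C0
  have k := xv X.P (X.G g) 0 (fun n => C * M n) j (fun n => J n - j n)
    (fun n v => (fl1 (j n) (mR X β n v), fl1 (j n) ((X.G g n).e v 0), (mD X D n).S 0 v))
    (fun n v => ((mD X D n).S (J n) v, fl1 (j n) ((X.G g n).e v 0), (X.G g n).y v)) η (1 / C)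
    ((h.cls C C0).bs X hX) h.low.pos (by positivity) (by
      filter_upwards [e, e1, c.nest, bx] with n u v w b
      refine ⟨?_, by omega, ((Fn.comp (fun p => fl1 (j n) p.1) _).trans w.1).pair
        ((Fn.comp (fun l : V 3 × V 3 × _ => fl1 (j n) (l.2.1 0)) _).pair
          ((Fn.comp Prod.snd _).trans w.1)),
        ((((b.fz.pair b.fθ).right _).pair (Fn.fst _ _))).right _⟩
      push_cast
      rw [← mul_assoc, div_mul_cancel₀ _ C1.ne', one_mul, Nat.cast_le]
      omega)
    ((((n1.anti (c.nest.mono fun n w => ((((Fn.comp (fun p => tk (j n) p.2.2.2) _).trans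
      (w.2 _).2).left _).pair ((Fn.fst _ _).right _)))).pair (ND.of_fn (c.nest.mono fun n w =>
        ((Fn.fst _ _).right _).pair ((nest_le (fun i => (w.2 i).1) (Nat.zero_le _)).left _)))).pair
      ((nx J _ hJ (e.mono fun _ u => by omega)).anti (.of_forall fun _ => Fn.fst _ _))).unit e2)
    fun l hl W Q f dn => by
      have c' := h.sl _ (h.cl.dn hX dn)
      refine le_unit e2 ((c'.brw j (fun n => j n + l n) (hJ.mono (e.mono fun n u => by
        have := hl n; omega)) (.of_forall fun n => Nat.le_add_right _ _)).of2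
        (le_up h.sm (c'.lab J hJ).l) (.of_forall fun n => ?_))
      have a1 := mi_right (P := Q n) (F := fun v => (mD X D n).S (J n) (f n v))
        (G := ((X.G g n).pull (f n)).core) (K := ((X.G g n).pull (f n)).y)
        (G' := fun v => fl1 (j n + l n) ((X.G g n).e (f n v) 0))
        (K' := fun v => (fl1 (j n) ((X.G g n).e (f n v) 0), (X.G g n).y (f n v))) (Fn.snd _ _)
        (Fn.pair (fun _ _ _ _ q => congrArg (fun p => fl1 (j n) (p.1.1.2.1 0)) q) (Fn.snd _ _))
        fun _ _ _ _ q => congrArg (fun p => fl1 (j n + l n) (p.1.1.2.1 0)) q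
      rw [mi_symm, mi] at a1
      simp only [Geo.lk]
      push_cast
      linarith
  have n2 : ND X.P M (fun n v => fl1 (j n) (mR X β n v)) fun n v => (fl1 (j n) ((X.G g n).pt v 0),
      fl1 (j n) ((X.G g n).e v 0), (mD X D n).S 0 v, (X.G g n).zt v) := by
    refine (le_unit e3 k).of2 (n1.trans (K := fun n v =>
      (fl1 (j n + (J n - j n)) ((X.G g n).pt v 0), fl1 (j n) ((X.G g n).pt v 0),
        fl1 (j n) ((X.G g n).e v 0), (mD X D n).S 0 v, (X.G g n).zt v))
      ((hT.anti (e.mono fun n u a _ b _ q => ?_)).pair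
        (ND.of_fn (.of_forall fun n => ((Fn.fst _ _).right _).right _)))) (.of_forall fun n => ?_)
    · simp only [xz, Prod.mk.injEq] at q ⊢
      exact ⟨⟨fl1_eq_of_le (by omega) q.1, q.2.2.2.2⟩, q.2.2.2.1⟩
    · set Z := fun v => (fl1 (j n) ((X.G g n).pt v 0), fl1 (j n) ((X.G g n).e v 0),
        (mD X D n).S 0 v, (X.G g n).zt v)
      have a1 := mi_symm (P := (X n).Q) (fun v => fl1 (j n) (mR X β n v))
        (fun v => fl1 (j n + (J n - j n)) ((X.G g n).pt v 0)) Z
      have a2 := (ch_fl1_refine (P := (X n).Q) (G := Z) (j := fun _ => j n)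
        (i := fun _ => J n - j n) (fun _ _ _ _ _ => rfl) (fun _ _ _ _ _ => rfl)
        (Fn.fst _ _)).trans_eq (FP.E_const _ _)
      have a3 := ch_anti (P := (X n).Q) (F := fun v => fl1 (j n + (J n - j n)) ((X.G g n).pt v 0))
        (G := fun v => (fl1 (j n) (mR X β n v), Z v)) (G' := fun v =>
          (fl1 (j n) ((X.G g n).pt v 0), (fl1 (j n) (mR X β n v), fl1 (j n) ((X.G g n).e v 0),
            (mD X D n).S 0 v), (X.G g n).zt v)) fun a _ b _ q => by
          simp only [Z, Prod.mk.injEq] at q ⊢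
          exact ⟨q.2.1.1, q.1, q.2.1.2.1, q.2.1.2.2, q.2.2⟩
      simp only [mi] at a1
      linarith
  have n3 := n2.trans (K := fun n v => ((X.G g n).z v, fl1 (j n) ((X.G g n).e v 0),
      (mD X D n).S (j n) v)) (((nx j j oj (.of_forall fun _ => le_rfl)).anti
    (.of_forall fun _ => (Fn.snd _ _).right _)).pair (ND.of_fn (c.nest.mono fun n w =>
      ((Fn.fst _ _).right _).pair
        ((((nest_le (fun i => (w.2 i).1) (Nat.zero_le _)).right _).right _).pair ((Fn.fst _ _).pair
          ((((Fn.comp Prod.fst _).trans (w.2 _).2).right _).right _))))))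
  refine Le.of2 n3 (le_up h.sm (kb.inf _ _ _ _ _ (h.low.bs X hX) (c.lab j oj).h))
    (c.nest.mono fun n w => ?_)
  have a1 := mi_right (P := (X n).Q) (F := (X.G g n).z)
    (G := fun v => ((X.G g n).ln v, (mD X D n).S (j n) v))
    (K := fun v => (fl1 (j n) ((X.G g n).z v), (X.G g n).θ v))
    (G' := fun v => fl1 (j n) (mR X β n v))
    (K' := fun v => (fl1 (j n) ((X.G g n).e v 0), (mD X D n).S (j n) v))
    (((Fn.comp (fun p => (p.2.1, p.1)) _).trans (w.2 _).2).right _)
    (fun _ _ _ _ q => congrArg (fun p => (fl1 (j n) (p.1.1.2.1 0), p.1.2)) q)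
    ((((Fn.comp (fun p => fl1 (j n) p.1) _).trans w.1).left _).left _)
  rw [mi_symm, mi] at a1
  linarith

end Pool.Agent.MP_5168f5_an.R4.LG
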