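import Pool.Agent.MP_5168f5_an.R4.SpecLG

/-! A slope that is determined by the base line: the base point determines the covector. -/

namespace Pool.Agent.MP_5168f5_an.R4.LG

open H19 H17S H17F Filter Tan B1

namespace PtA

theorem cp_near {B x o : ℝ} (h : |x| ≤ B) : |x - cp B o| ≤ |x - o| := by
  obtain ⟨h1, h2⟩ := abs_le.1 h
  have a1 := le_abs_self (x - o)
  have a2 := neg_abs_le (x - o)
  unfold cp
  rw [abs_le]
  rcases le_total B o with e | e
  · rw [min_eq_left e, max_eq_right (by linarith)]; constructor <;> linarith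
  · rw [min_eq_right e]
    rcases le_total (-B) o with e' | e'
    · rw [max_eq_right e']; constructor <;> linarith
    · rw [max_eq_left e']; constructor <;> linarith

theorem pos_near {a w t o L L0 : ℝ} {r J : ℕ} (e : r ≤ J) (h : |a + t * w - o| ≤ L / 2 ^ J)
    (hL : 1 ≤ L) (hL0 : 1 ≤ L0) (hw : |w| ≤ L0) (t0 : 0 ≤ t) (t1 : t < 1) :
    |a - (U.rd J o - U.rd J t * U.rd r w)| ≤ 2 * (L + L0) / 2 ^ r := by
  have d : (1 : ℝ) / 2 ^ J ≤ 1 / 2 ^ r := U.div_pow_le zero_le_one e
  have p : (0 : ℝ) < 1 / 2 ^ r := by positivity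
  have e1 := h.trans (U.div_pow_le (by linarith) e)
  have e2 := (U.abs_sub_rd J o).trans d
  have e3 := mul_le_mul ((U.abs_sub_rd J t).trans d) hw (abs_nonneg _) p.le
  have e4 : |U.rd J t| ≤ 1 := by
    rw [abs_of_nonneg (U.rd_nonneg J t0)]; linarith [U.rd_le J t]
  have e5 := mul_le_mul e4 (U.abs_sub_rd r w) (abs_nonneg _) zero_le_one
  rw [← abs_mul] at e3 e5
  rw [div_eq_mul_one_div L] at e1
  rw [div_eq_mul_one_div (2 * (L + L0))]
  have q1 := mul_le_mul_of_nonneg_right hL p.le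
  have q2 := mul_le_mul_of_nonneg_right hL0 p.le
  rw [abs_le] at e1 e2 e3 e5 ⊢
  constructor <;> nlinarith [e1.1, e1.2, e2.1, e2.2, e3.1, e3.2, e5.1, e5.2]

end PtA

open PtA in
theorem rowPt : OfPt := by
  intro cra Ω K g M mm D β T η X h hX c J k r hJ e ft nl
  have s := h.sl X hX
  obtain ⟨L0, hL0, bx⟩ := ((h.cls 1 one_pos).bs X hX).bx
  replace hL0 : Sub M L0 := sub_unit (C := 1) (Eventually.of_forall fun n => by simp) hL0
  obtain ⟨L, hL, ball⟩ := s.ball J hJ
  have hS := (hL.add hL0 h.big).const_mul h.big one_le_two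
  set o : ∀ n, (X n).W → ℝ := fun n v => cp (2 * L0 n) ((mD X D n).o (J n) v 0) with ho
  have bo : Whp X.P fun n v => |(X.G g n).pt v 0 - o n v| ≤ L n / 2 ^ J n :=
    ball.mono (bx.mono fun n b v hv u => (cp_near (abs_pt b hv 0)).trans u)
  set Z : ∀ n, (X n).W → ℤ × ℤ × (g n).T × (D n).Λ := fun n v =>
    (fl1 (J n) ((X.G g n).z v), fl1 (J n) (o n v), (X.G g n).θ v, (mD X D n).S (c n) v) with hZ
  have a1 : ND X.P M (fun n v => fl1 (r n) ((X.G g n).a v 0)) fun n v =>
      (fl1 (r n) ((X.G g n).e v 0), Z n v) := by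
    refine ND.near (c := fun n v => U.rd (J n) (o n v) -
      U.rd (J n) ((X.G g n).z v) * U.rd (r n) ((X.G g n).e v 0)) h.big hS
      (hJ.mono (e.mono fun _ u => u.2.2)) (bx.mono fun n b => ⟨fun u _ v _ y => ?_, fun v hv =>
        ((b.bd v hv).1 0).1.trans (by linarith [hL.pos n, hL0.pos n])⟩)
      (bo.mono ((bx.and e).mono fun n ⟨b, y⟩ v hv u => pos_near y.2.2 u (hL.1 n) (hL0.1 n)
        ((b.bd v hv).1 0).2 (b.bd v hv).2.1 (b.bd v hv).2.2))
    simp only [hZ, Prod.mk.injEq] at y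
    simp only [U.rd_congr y.1, U.rd_congr y.2.1, U.rd_congr y.2.2.1]
  have a2 : ND X.P M (fun n v => fl1 (k n) (mR X β n v)) fun n v =>
      (fl1 (r n) ((X.G g n).e v 0), Z n v) :=
    ND.trans nl ((a1.pair (ND.of_fn (Eventually.of_forall fun n => Fn.fst _ _))).pair
      (ND.of_fn (Eventually.of_forall fun n u _ v _ y => congrArg (fun z => z.2.2.2.2) y)))
  have a3 := cra K g M mm D β T η X h hX _ Z J k r hJ (by
    filter_upwards [e, s.nest] with n y z
    refine ⟨y.2.1, y.2.2, fun u hu v hv w => ?_, fun u _ v _ w => congrArg (fun z => z.2.2.1) w⟩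
    have p := (z.2 (J n)).2 u hu v hv w
    have q := nest_le (fun j => (z.2 j).1) y.1 u hu v hv w
    simp only [Prod.mk.injEq] at p
    simp only [hZ, ho, p.1, p.2.1, p.2.2.1, q]) ft a2
  have a4 : ND X.P M (fun n v => fl1 (J n) (o n v)) fun n v =>
      (xz (X.G g n) (J n) v, (mD X D n).S (c n) v) := by
    refine ND.near (c := fun n v => U.rd (J n) ((X.G g n).pt v 0)) h.big hS hJ
      (Eventually.of_forall fun n => ⟨fun u _ v _ y => U.rd_congr (congrArg (fun z => z.1.1) y),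
        fun v _ => (abs_cp (by linarith [hL0.pos n]) _).trans (by linarith [hL.pos n])⟩)
      (bo.mono (Eventually.of_forall fun n v _ u => ?_))
    have b1 := U.abs_sub_rd (J n) ((X.G g n).pt v 0)
    have b2 := abs_sub_le (o n v) ((X.G g n).pt v 0) (U.rd (J n) ((X.G g n).pt v 0))
    rw [abs_sub_comm] at u
    have b3 : L n / 2 ^ J n + 1 / 2 ^ J n ≤ 2 * (L n + L0 n) / 2 ^ J n := by
      rw [← add_div]
      exact div_le_div_of_nonneg_right (by linarith [hL.pos n, hL0.1 n]) (by positivity)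
    linarith
  exact a3.trans ((ND.of_fn (Eventually.of_forall fun n u _ v _ y =>
    congrArg (fun z => fl1 (J n) z.1.2.1) y)).pair (a4.pair (ND.of_fn (Eventually.of_forall
      fun n u _ v _ y => congrArg (fun z => (z.1.2.2, z.2)) y))))

end Pool.Agent.MP_5168f5_an.R4.LG
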