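import Pool.Agent.MP_5168f5_an.R4.SpecLG

/-! The line determines the covector. -/

namespace Pool.Agent.MP_5168f5_an.R4.LG

open H19 H17S H17F Filter Tan B1
open Web (RV)

namespace LTriA

/-- A variable whose likely values on a fibre of `G` are close. -/
theorem nd2 {Ω β : ℕ → Type} {P : ∀ n, FP (Ω n)} {E : ∀ n, Ω n → Prop} {M j : ℕ → ℕ}
    {G : ∀ n, Ω n → β n} {x : RV Ω} {L : ℕ → ℝ} (hM : Big M) (hL : Sub M L) (hj : OM M j)
    (hE : Whp P E) (h : ∀ᶠ n in UF, (∀ a ∈ (P n).S, |x n a| ≤ L n * 2 ^ M n) ∧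
      ∀ a ∈ (P n).S, ∀ b ∈ (P n).S, E n a → E n b → G n a = G n b →
        |x n a - x n b| ≤ L n / 2 ^ j n) : ND P M (fun n ω => fl1 (j n) (x n ω)) G := by
  obtain ⟨C, hC⟩ := om_cast hj
  have e1 : ∀ᶠ n in UF, (M n : ℝ) ≤ 1 * (M n + j n : ℕ) := Eventually.of_forall fun n => by
    push_cast; linarith [Nat.cast_nonneg (α := ℝ) (j n)]
  have e2 : ∀ᶠ n in UF, ((M n + j n : ℕ) : ℝ) ≤ (1 + C) * M n := hC.mono fun n a => by
    push_cast; linarith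
  exact le_unit e2 (U.UMu4A.nearW (M := fun n => M n + j n) (big_unit e1 hM) (sub_unit e1 hL) hE
    (fun n => Nat.le_add_left _ _) (h.mono fun n a => ⟨fun u hu => (a.1 u hu).trans
      (mul_le_mul_of_nonneg_left (pow_le_pow_right₀ one_le_two (Nat.le_add_right _ _))
        (hL.pos n).le), a.2⟩))

theorem mul_bd {a b x y : ℝ} (h : |a| ≤ x) (h' : |b| ≤ y) : |a * b| ≤ x * y := by
  rw [abs_mul]; exact mul_le_mul h h' (abs_nonneg _) ((abs_nonneg _).trans h)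

theorem alg0 {a₁ a₂ w₁ w₂ t₁ t₂ o ε δ L : ℝ} (h₁ : |a₁ + t₁ * w₁ - o| ≤ ε)
    (h₂ : |a₂ + t₂ * w₂ - o| ≤ ε) (h : |t₁ - t₂| ≤ δ) (hw : |w₂| ≤ L) :
    |a₂ - a₁ - (w₁ - w₂) * t₁| ≤ 2 * ε + δ * L := by
  have := abs_le.1 (mul_bd h hw)
  rw [abs_le] at *
  constructor <;> linarith [h₁.1, h₁.2, h₂.1, h₂.2, this.1, this.2]

theorem alg1 {a₁ a a' w₁ w w' t t' ε α γ ρ : ℝ} (h : |a - a₁ - (w₁ - w) * t| ≤ ε)
    (h' : |a' - a₁ - (w₁ - w') * t'| ≤ ε) (h3 : |w₁ - w| ≤ α) (h4 : |t - t'| ≤ γ)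
    (h5 : |w - w'| ≤ ρ) (h6 : |t'| ≤ 1) : |a - a'| ≤ 2 * ε + α * γ + ρ := by
  have e1 := abs_le.1 (mul_bd h3 h4)
  have e2 := abs_le.1 (mul_bd h5 h6)
  rw [abs_le] at *
  constructor <;> linarith [h.1, h.2, h'.1, h'.2, e1.1, e1.2, e2.1, e2.2]

theorem alg2 {b₁ b b' w₁ w w' A B A' B' ε δ L S : ℝ} (h1 : |b₁ - A - B * w₁| ≤ ε)
    (h2 : |b - A - B * w| ≤ ε) (h1' : |b₁ - A' - B' * w₁| ≤ ε) (h2' : |b' - A' - B' * w'| ≤ ε)
    (hb : |b - b'| ≤ δ) (hw : |w - w'| ≤ δ) (hB : |B'| ≤ L) (hS : 0 ≤ S)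
    (s : 1 ≤ S * |w₁ - w|) : |B - B'| ≤ S * (4 * ε + δ + L * δ) := by
  have e1 := abs_le.1 (mul_bd hB hw)
  have e2 : |(B - B') * (w₁ - w)| ≤ 4 * ε + δ + L * δ := by
    rw [abs_le] at *
    constructor <;> linarith [h1.1, h1.2, h2.1, h2.2, h1'.1, h1'.2, h2'.1, h2'.2, hb.1, hb.2,
      e1.1, e1.2]
  rw [abs_mul] at e2
  nlinarith [mul_le_mul_of_nonneg_left e2 hS, mul_le_mul_of_nonneg_left s (abs_nonneg (B - B'))]

theorem alg3 {b₁ w₁ A B A' B' ε δ L : ℝ} (h1 : |b₁ - A - B * w₁| ≤ ε)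
    (h1' : |b₁ - A' - B' * w₁| ≤ ε) (hB : |B - B'| ≤ δ) (hw : |w₁| ≤ L) :
    |A - A'| ≤ 2 * ε + δ * L := by
  have e1 := abs_le.1 (mul_bd hB hw)
  rw [abs_le] at *
  constructor <;> linarith [h1.1, h1.2, h1'.1, h1'.2, e1.1, e1.2]

theorem num2 {a b : ℝ} {k j q : ℕ} (ha : 1 ≤ a) (hb : 1 ≤ b) (e : k + j ≤ q) :
    a * 2 ^ j * (4 * (b / 2 ^ q) + 1 / 2 ^ q + b * (1 / 2 ^ q)) ≤ 6 * (a * b) / 2 ^ k := by
  have h := U.div_pow_le (L := 6 * (a * b) * 2 ^ j) (by positivity) e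
  rw [pow_add, mul_div_mul_right _ _ (by positivity)] at h
  refine le_trans ?_ h
  rw [show a * 2 ^ j * (4 * (b / 2 ^ q) + 1 / 2 ^ q + b * (1 / 2 ^ q)) =
    a * 2 ^ j * (5 * b + 1) / 2 ^ q by ring]
  refine div_le_div_of_nonneg_right ?_ (by positivity)
  nlinarith [mul_le_mul_of_nonneg_left hb (show 0 ≤ a * 2 ^ j by positivity)]

theorem tri {Ω : ℕ → Type} {P : ∀ n, FP (Ω n)} {g : Gs 3 Ω} {M mm : ℕ → ℕ} {D : ∀ n, Td (Ω n)}
    {β : RV Ω} {T : CV Ω} {η : ℝ} {L₀ Lc : ℕ → ℝ} {c J j k q r : ℕ → ℕ}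
    (s : Sl P g M mm D β T η) (hM : Big M) (h₀ : Sub M L₀)
    (bx : ∀ᶠ n in UF, (g n).Bx (P n) (L₀ n)) (hJ : OM M J)
    (e : ∀ᶠ n in UF, k n + j n ≤ q n ∧ q n ≤ r n ∧ c n + j n ≤ r n ∧ r n ≤ J n) (hc : Sub M Lc)
    {φ : ∀ n, Ω n → (D n).Λ × ℤ} (hφ : φ = fun n v => ((D n).S (J n) v, fl1 (j n) ((g n).e v 0)))
    (cap : Whp (fun n => glue (P n) (P n) (φ n) (φ n)) fun n v =>
      1 ≤ Lc n * 2 ^ j n * |(g n).e v.1 0 - (g n).e v.2 0|)
    (ft : Ft P g M β (fun n => T n (J n)) q)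
    (nd : ND P M (fun n v => fl1 (q n) (β n v)) fun n v =>
      (fl1 (r n) ((g n).e v 0), fl1 (c n + j n) ((g n).a v 0), (D n).S (c n) v)) :
    ND P M (fun n v => tk (k n) (T n (J n) v)) fun n v => ((g n).ln v, (D n).S (c n) v) := by
  obtain ⟨Lb, hb, ball⟩ := s.ball J hJ
  obtain ⟨Lf, hf, ft⟩ := ft
  have m : ∀ n, ∀ v ∈ (glue (P n) (P n) (φ n) (φ n)).S, v.1 ∈ (P n).S ∧ v.2 ∈ (P n).S ∧
      (D n).S (J n) v.2 = (D n).S (J n) v.1 ∧
      fl1 (j n) ((g n).e v.2 0) = fl1 (j n) ((g n).e v.1 0) := fun n v hv => by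
    simpa only [hφ, Prod.mk.injEq] using (kg.mem _ _ _ _ v (Law.rfl _)).1 hv
  have oj : OM M fun n => c n + j n := hJ.mono (e.mono fun _ u => u.2.2.1.trans u.2.2.2)
  have ok : OM M k := hJ.mono (e.mono fun _ u => by omega)
  have n1 : ND (fun n => glue (P n) (P n) (φ n) (φ n)) M
      (fun n v => fl1 (c n + j n) ((g n).a v.2 0)) fun n v =>
        (fl1 (r n) ((g n).e v.2 0), (g n).ln v.1, (D n).S (c n) v.1) := by
    refine nd2 (E := fun n v => |(g n).a v.2 0 - (g n).a v.1 0 -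
      ((g n).e v.1 0 - (g n).e v.2 0) * (g n).z v.1| ≤
        2 * (Lb n / 2 ^ J n) + 1 / 2 ^ J n * L₀ n) hM
      ((hb.mul h₀).const_mul hM (C := 8) (by norm_num)) oj
      (((whp_fst φ ball).and (whp_snd φ ball)).mono ?_) ?_
    · filter_upwards [s.nest, bx] with n u b v hv w
      obtain ⟨m1, m2, m3, -⟩ := m n v hv
      have := (u.2 (J n)).2 _ m1 _ m2 m3.symm
      simp only [Prod.mk.injEq] at this
      exact alg0 w.1 (this.2.2.1 ▸ w.2) (U.near_of_fl1 this.2.1) ((b.bd _ m2).1 0).2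
    · filter_upwards [s.nest, bx, e] with n u b e
      have l0 := h₀.1 n
      have l1 := hb.1 n
      have l2 := le_mul_of_one_le_left (zero_le_one.trans l0) l1
      have l3 := le_mul_of_one_le_right (zero_le_one.trans l1) l0
      refine ⟨fun v hv => ((b.bd _ (m n v hv).2.1).1 0).1.trans (le_trans (by linarith)
        (le_mul_of_one_le_right (by positivity) (one_le_pow₀ one_le_two))),
        fun v hv v' hv' w w' k => ?_⟩
      simp only [Geo.ln, Prod.mk.injEq] at k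
      obtain ⟨m1, -, -, m4⟩ := m n v hv
      obtain ⟨m1', -⟩ := m n v' hv'
      have z := (u.2 (c n)).2 _ m1 _ m1' k.2.2
      simp only [Prod.mk.injEq] at z
      rw [← k.2.1.1, ← k.2.1.2.1] at w'
      refine (alg1 w w' (U.near_of_fl1 m4.symm) (U.near_of_fl1 z.2.1) (U.near_of_fl1 k.1)
        ((abs_of_nonneg (b.bd _ m1').2.1).trans_le (b.bd _ m1').2.2.le)).trans ?_
      have d1 := U.div_pow_le (L := 4 * Lb n + 2 * L₀ n) (by positivity) (e.2.2.1.trans e.2.2.2)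
      have d2 := U.div_pow_le zero_le_one e.2.2.1
      have d3 : (4 * Lb n + 2 * L₀ n + 1 + 1) / 2 ^ (c n + j n) ≤
          8 * (Lb n * L₀ n) / 2 ^ (c n + j n) :=
        div_le_div_of_nonneg_right (by linarith) (by positivity)
      rw [add_div, add_div] at d3
      rw [show (1 : ℝ) / 2 ^ j n * (1 / 2 ^ c n) = 1 / 2 ^ (c n + j n) by rw [pow_add]; ring,
        show 2 * (2 * (Lb n / 2 ^ J n) + 1 / 2 ^ J n * L₀ n) = (4 * Lb n + 2 * L₀ n) / 2 ^ J n by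
          ring]
      linarith
  have n2 : ND (fun n => glue (P n) (P n) (φ n) (φ n)) M (fun n v => fl1 (q n) (β n v.2))
      fun n v => (fl1 (r n) ((g n).e v.2 0), (g n).ln v.1, (D n).S (c n) v.1) := by
    refine (nd.dn (U.dnS_snd P φ)).trans ((ND.of_fn (Eventually.of_forall fun n =>
      Fn.fst _ _)).pair (n1.pair (ND.of_fn ?_)))
    filter_upwards [s.nest, e] with n u e v hv v' hv' w
    have f := nest_le (fun j => (u.2 j).1) (show c n ≤ J n by omega)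
    obtain ⟨m1, m2, m3, -⟩ := m n v hv
    obtain ⟨m1', m2', m3', -⟩ := m n v' hv'
    exact (f _ m2 _ m1 m3).trans ((congrArg (·.2.2) w).trans (f _ m2' _ m1' m3').symm)
  let F : ∀ n, Ω n → Prop := fun n ω => |(T n (J n) ω).1| ≤ Lf n ∧ |(T n (J n) ω).2| ≤ Lf n ∧
    |β n ω - (T n (J n) ω).1 - (T n (J n) ω).2 * (g n).e ω 0| ≤ Lf n / 2 ^ q n
  let G : ∀ n, Ω n × Ω n → Prop := fun n v => (F n v.1 ∧ F n v.2) ∧
    1 ≤ Lc n * 2 ^ j n * |(g n).e v.1 0 - (g n).e v.2 0|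
  have E : Whp _ G := ((whp_fst φ ft).and (whp_snd φ ft)).and cap
  have hL := ((hc.mul hf).mul h₀).const_mul hM (C := 8) (by norm_num)
  have key : ∀ᶠ n in UF, ∀ v ∈ (glue (P n) (P n) (φ n) (φ n)).S,
      ∀ v' ∈ (glue (P n) (P n) (φ n) (φ n)).S, G n v → G n v' →
      (fl1 (q n) (β n v.2), fl1 (r n) ((g n).e v.2 0), (g n).ln v.1, (D n).S (c n) v.1) =
      (fl1 (q n) (β n v'.2), fl1 (r n) ((g n).e v'.2 0), (g n).ln v'.1, (D n).S (c n) v'.1) →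
      |(T n (J n) v.1).1 - (T n (J n) v'.1).1| ≤ 8 * (Lc n * Lf n * L₀ n) / 2 ^ k n ∧
      |(T n (J n) v.1).2 - (T n (J n) v'.1).2| ≤ 8 * (Lc n * Lf n * L₀ n) / 2 ^ k n := by
    filter_upwards [s.nest, bx, e] with n u b e v hv v' hv' w w' z
    obtain ⟨⟨⟨-, -, w1⟩, -, -, w2⟩, w3⟩ := w
    obtain ⟨⟨⟨-, w0, w1'⟩, -, -, w2'⟩, -⟩ := w'
    obtain ⟨m1, m2, m3, -⟩ := m n v hv
    obtain ⟨m1', m2', m3', -⟩ := m n v' hv'
    simp only [Prod.mk.injEq] at z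
    have fT : Fn (P n) (T n (J n)) _ := (Fn.comp (·.2.2.2) _).trans (u.2 (J n)).2
    rw [fT _ m2 _ m1 m3] at w2
    rw [fT _ m2' _ m1' m3'] at w2'
    rw [← show β n v.1 = β n v'.1 from congrArg (·.1) (u.1 _ m1 _ m1' z.2.2.1),
      ← show (g n).e v.1 = (g n).e v'.1 from congrArg (·.2.1) z.2.2.1] at w1'
    have l0 := h₀.1 n
    have l1 := hc.1 n
    have l2 := hf.1 n
    have l3 := le_mul_of_one_le_left (zero_le_one.trans l2) l1
    have l4 := le_mul_of_one_le_right (zero_le_one.trans (l2.trans l3)) l0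
    have t2 := (alg2 w1 w2 w1' w2' (U.near_of_fl1 z.1) ((U.near_of_fl1 z.2.1).trans
      (U.div_pow_le zero_le_one e.2.1)) w0 (by positivity) w3).trans (num2 l1 l2 e.1)
    refine ⟨(alg3 w1 w1' t2 ((b.bd _ m1).1 0).2).trans ?_, t2.trans
      (div_le_div_of_nonneg_right (by linarith) (by positivity))⟩
    have d1 := U.div_pow_le (zero_le_one.trans l2) (show k n ≤ q n by omega)
    have d2 : (2 * Lf n + 6 * (Lc n * Lf n * L₀ n)) / 2 ^ k n ≤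
        8 * (Lc n * Lf n * L₀ n) / 2 ^ k n :=
      div_le_div_of_nonneg_right (by linarith) (by positivity)
    refine le_trans ?_ d2
    rw [show (2 * Lf n + 6 * (Lc n * Lf n * L₀ n)) / 2 ^ k n =
      2 * (Lf n / 2 ^ k n) + 6 * (Lc n * Lf n) / 2 ^ k n * L₀ n by ring]
    linarith
  have n3 : ND (fun n => glue (P n) (P n) (φ n) (φ n)) M (fun n v => tk (k n) (T n (J n) v.1))
      fun n v => (fl1 (r n) ((g n).e v.2 0), (g n).ln v.1, (D n).S (c n) v.1) :=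
    n2.cut ((nd2 hM hL ok E (key.mono fun n u => ⟨fun v _ => (s.bT n _ _).1.trans
      (le_mul_of_one_le_left (by positivity) (hL.1 n)), fun v hv v' hv' w w' z =>
        (u v hv v' hv' w w' z).1⟩)).pair (nd2 hM hL ok E (key.mono fun n u =>
      ⟨fun v _ => (s.bT n _ _).2.trans (le_mul_of_one_le_left (by positivity) (hL.1 n)),
        fun v hv v' hv' w w' z => (u v hv v' hv' w w' z).2⟩)))
  refine Sm.mono (Sm.add n3 (s.typ J hJ)) ?_
  filter_upwards [s.nest, e] with n u e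
  have f1 : Fn (P n) (fun ω => (fl1 (j n) ((g n).e ω 0), (g n).θ ω)) (φ n) := by
    rw [hφ]
    exact (Fn.snd _ _).pair (((Fn.comp (·.1) _).trans (u.2 (J n)).2).left _)
  have i1 := kf2.lift (P n) (φ n) (fun ω => fl1 (r n) ((g n).e ω 0)) id
    (fun ω => (fl1 (j n) ((g n).e ω 0), (g n).θ ω)) _ ((Fn.comp (φ n) id).left _) f1
  rw [ch_zero (Fn.rfl _), add_zero] at i1
  have i2 : mi (P n) (fun ω => fl1 (r n) ((g n).e ω 0)) (φ n)
      (fun ω => (fl1 (j n) ((g n).e ω 0), (g n).θ ω)) ≤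
      mi (P n) (fun ω => fl1 (J n) ((g n).e ω 0)) ((D n).S (J n)) (g n).θ :=
    (mi_mono (G' := (D n).S (J n)) (by
      rw [hφ]; exact (Fn.fst _ _).pair ((Fn.fst _ _).right _))).trans
      (mi_left (Fn.snd _ _) (Fn.pair (fun _ _ _ _ w => fl1_eq_of_le (by omega)
        (congrArg (·.1) w)) (Fn.snd _ _)) fun _ _ _ _ w => fl1_eq_of_le e.2.2.2 (congrArg (·.1) w))
  have i3 := ch_le_mi (P := glue (P n) (P n) (φ n) (φ n))
    (F := fun v => tk (k n) (T n (J n) v.1)) (G := fun v => fl1 (r n) ((g n).e v.2 0))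
    (K := fun v => ((g n).ln v.1, (D n).S (c n) v.1)) (Fn.rfl _)
  rw [(kg.fst (P n) (P n) (φ n) (φ n)).ch_id (fun v => tk (k n) (T n (J n) v))
    fun v => ((g n).ln v, (D n).S (c n) v)] at i3
  rw [mi_symm (fun v : Ω n × Ω n => fl1 (r n) ((g n).e v.2 0))] at i1
  refine i3.trans (add_le_add_right (le_trans (mi_left ?_ ?_ ?_) (i1.trans i2)) _)
  · exact fun _ _ _ _ w => congrArg
      (fun l : (V 3 × V 3 × _) × _ => (fl1 (j n) (l.1.2.1 0), l.1.2.2)) w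
  · exact (Fn.comp (fun ω => ((g n).ln ω, (D n).S (c n) ω)) _).left _
  · exact (Fn.comp (fun ω => tk (k n) (T n (J n) ω)) _).left _

end LTriA

theorem rowTri : OfTri := by
  intro cap Ω K g M mm D β T η X h hX c J j k q r hJ e ft nd
  obtain ⟨L, hL, bx⟩ := (h.low.bs X hX).bx
  obtain ⟨Lc, hc, w⟩ := cap K g M mm D β T η X h hX J j hJ
    (hJ.mono (e.mono fun _ u => by omega))
  exact LTriA.tri (h.sl X hX) h.big (sub_up h.sm hL) bx hJ e hc rfl w ft nd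

end Pool.Agent.MP_5168f5_an.R4.LG
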