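import Pool.Agent.MP_5168f5_an.R4.SpecLG

/-! A variable that is determined by the line and by the base point is determined by the cell. -/

namespace Pool.Agent.MP_5168f5_an.R4.LG

open H19 H17S H17F Filter Tan B1

namespace ZerA

theorem fin {Ω α β γ δ : Type} {P : FP Ω} (F : Ω → α) {S : Ω → β} (x : Ω → ℝ) {z : Ω → ℝ}
    {θ : Ω → γ} (l : Ω → δ) {c r : ℕ} (h : c ≤ r) (hS : Fn P (fun ω => (fl1 c (z ω), θ ω)) S) :
    ch P F S ≤ ch P F (fun ω => ((fl1 r (x ω), z ω, θ ω), S ω)) + ch P (fun ω => fl1 c (x ω)) S +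
      mi P z (fun ω => (l ω, F ω, S ω)) (fun ω => (fl1 c (z ω), θ ω)) + ((r - c : ℝ) * lg -
        ch P (fun ω => fl1 r (x ω)) fun ω => (fl1 c (x ω), (F ω, S ω), z ω, θ ω)) := by
  have a := ch_symm (P := P) F (fun ω => fl1 r (x ω)) fun ω => (fl1 c (x ω), z ω, S ω)
  have b : ch P F (fun ω => (fl1 r (x ω), fl1 c (x ω), z ω, S ω)) ≤
      ch P F fun ω => ((fl1 r (x ω), z ω, θ ω), S ω) := ch_anti fun u hu v hv e => by
    simp only [Prod.mk.injEq] at e ⊢
    exact ⟨⟨e.1, e.2.2.1, congrArg Prod.snd (hS u hu v hv e.2.2.2)⟩, e.2.2.2⟩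
  have k := ch_fl1_refine (P := P) (x := x) (G := fun ω => (fl1 c (x ω), z ω, S ω))
    (j := fun _ => c) (i := fun _ => r - c) (fun _ _ _ _ _ => rfl) (fun _ _ _ _ _ => rfl)
    (Fn.fst _ _)
  rw [FP.E_const, Nat.cast_sub h, Nat.add_sub_cancel' h] at k
  have d : ch P (fun ω => fl1 r (x ω)) (fun ω => (fl1 c (x ω), (F ω, S ω), z ω, θ ω)) ≤
      ch P (fun ω => fl1 r (x ω)) fun ω => (F ω, fl1 c (x ω), z ω, S ω) :=
    ch_anti fun u _ v _ e => by
      simp only [Prod.mk.injEq] at e ⊢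
      exact ⟨e.2.1.1, e.1, e.2.2.1, e.2.1.2⟩
  have e := ch_tri (P := P) F (fun ω => fl1 c (x ω)) fun ω => (z ω, S ω)
  have e' : ch P (fun ω => fl1 c (x ω)) (fun ω => (z ω, S ω)) ≤ _ := ch_anti (Fn.snd z S)
  have f : mi P z F S ≤ mi P z (fun ω => (l ω, F ω, S ω)) fun ω => (fl1 c (z ω), θ ω) :=
    mi_right hS (((Fn.snd F S).right l).left _) (((Fn.fst F S).right l).left _)
  rw [mi_symm, mi] at f
  linarith

end ZerA

theorem rowZer : Zer := by
  intro Ω K g M mm D β T η X h hX Φ F c J r hJ hr e h1 h2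
  have s := h.sl X hX
  have hc : OM M c := hr.mono (e.mono fun _ u => u.2.1)
  obtain ⟨C, C0, c1, c2, c3⟩ := om_big hr
  have bs := (h.cls C C0).bs X hX
  have lh : Hk X.P (X.G g) M c fun n v => (F n v, (mD X D n).S (c n) v) :=
    Sm.mono (Sm.add (le_up h.sm (s.lab c hc).h) h1) (Eventually.of_forall fun n =>
      (kb.add _ _ _ _ _).1.trans (add_le_add le_rfl (ch_anti fun _ _ _ _ u =>
        Prod.ext (congrArg (·.2.1) u) (congrArg (·.1) u))))
  have ll : Sm M fun n => (X.G g n).lk (X n).Q fun v => (F n v, (mD X D n).S (c n) v) :=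
    Sm.mono (le_up h.sm (s.lab J hJ).l) ((e.and s.nest).mono fun n u =>
      mi_mono' ((u.1.2.2.pair (nest_le (fun j => (u.2.2 j).1) u.1.1)).left _))
  obtain ⟨L, hL, f⟩ := s.fat r hr
  have e1 : ∀ᶠ n in UF, min (r n) (C * M n) = r n := c1.mono fun n u => min_eq_left u
  have e2 : ∀ᶠ n in UF, min (c n) (min (r n) (C * M n)) = c n := (e.and e1).mono fun n u => by
    rw [u.2]; exact min_eq_left u.1.2.1
  have k := le_unit c3 (xa K g (fun n => C * M n) (fun n => min (c n) (min (r n) (C * M n)))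
    (fun n => min (c n) (min (r n) (C * M n))) (fun n => min (r n) (C * M n)) 0 η X _
    (h.cls C C0) hX ⟨kb.up _ _ _ _ _ _ (e2.mono fun n u => u.ge) (le_unit c2 lh), le_unit c2 ll⟩
    ⟨L, sub_unit c2 hL, (f.and e1).mono fun n u => by beta_reduce; rw [u.2]; exact u.1⟩
    fun n => ⟨le_rfl, min_le_right _ _, min_le_right _ _⟩)
  have i := le_unit c3 (kb.inf _ _ _ _ _ bs (le_unit c2 lh))
  obtain ⟨L₁, hL₁, w⟩ := s.ball c hc
  obtain ⟨L₀, hL₀, bx⟩ := bs.bx
  replace hL₀ := sub_unit c3 hL₀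
  have b : ND X.P M (fun n v => fl1 (c n) ((X.G g n).pt v 0)) fun n => (mD X D n).S (c n) := by
    refine ND.near (c := fun n v => (mD X D n).o (c n) v 0) h.big
      ((hL₀.const_mul h.big one_le_two).add hL₁ h.big) hc ?_
      (w.mono (Eventually.of_forall fun n v _ u => u.trans
        (div_le_div_of_nonneg_right (by linarith [hL₀.pos n]) (by positivity))))
    filter_upwards [bx, s.nest] with n u q
    exact ⟨fun x hx y hy t => congrArg (·.2.2.1) ((q.2 (c n)).2 x hx y hy t),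
      fun v hv => (abs_pt u hv 0).trans (by linarith [hL₁.pos n])⟩
  refine Le.of2 (Sm.add (Sm.add h2 b) i) k ?_
  filter_upwards [e, e1, e2, s.nest] with n u v1 v2 q
  rw [v2, v1, sub_zero, sub_zero]
  exact ZerA.fin (F n) (fun v => (X.G g n).pt v 0) (X.G g n).ln u.2.1 fun x hx y hy t =>
    Prod.ext (congrArg (·.2.1) ((q.2 (c n)).2 x hx y hy t))
      (congrArg (·.1) ((q.2 (c n)).2 x hx y hy t))

end Pool.Agent.MP_5168f5_an.R4.LG
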