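import Pool.Agent.MP_5168f5_an.R4.LInst
import Pool.Agent.MP_5168f5_an.R4.LCon
import Pool.Agent.MP_5168f5_an.R4.LCra
import Pool.Agent.MP_5168f5_an.R4.LPt
import Pool.Agent.MP_5168f5_an.R4.LNar
import Pool.Agent.MP_5168f5_an.R4.LCap
import Pool.Agent.MP_5168f5_an.R4.LLoc
import Pool.Agent.MP_5168f5_an.R4.LTri
import Pool.Agent.MP_5168f5_an.R4.LZer
import Pool.Agent.MP_5168f5_an.R4.CRevK
import Pool.Agent.MP_5168f5_an.R4.DLabI
import Pool.Agent.MP_5168f5_an.R4.BXV
import Pool.Agent.MP_5168f5_an.R4.BCpL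

/-! A slope that is determined by the base line: the results. -/

namespace Pool.Agent.MP_5168f5_an.R4.LG

theorem con : Con := rowCon CI.rowRevK Tan.rowLabI
theorem pt : Pt := rowPt rowCra
theorem nar : Nar := rowNar (B1.rowXV B1.rowBsD)
theorem cap : Cap := rowCap B1.rowBsD
theorem tri : Tri := rowTri cap
theorem gn : Gn := gn_of con rowCra
theorem lt : Lt := lt_of gn pt nar
theorem gt : Gt := gt_of con pt rowLoc tri rowZer
theorem w2 : B2.W2 := w2_of lt gt

end Pool.Agent.MP_5168f5_an.R4.LG
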