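import Pool.Agent.MP_5168f5_an.R4.P2Nil
import Pool.Agent.MP_5168f5_an.R4.LInst
import Pool.Agent.MP_5168f5_an.R4.BAll

/-! Products with a determined slope of `f`. -/

namespace Pool.Agent.MP_5168f5_an.R4.P2

open H19 H17S H17F Filter Tan B1 LG

theorem cp2_of (lt : Lt) (gt : Gt) : CP2' := by
  intro Ω K g M mm D η γ d ε₀ h h1 h2 nil _
  obtain rfl := d2_of lt gt h h1 h2.le nil
  obtain ⟨X, hX⟩ := h.toTn.ne
  have hM := h.toTn.big
  obtain ⟨C, hC⟩ := exists_nat_ge γ
  have m0 := fun n => Nat.cast_nonneg (α := ℝ) (M n)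
  have oC : OM M fun n => C * M n := OM.rfl.mul C
  have oR : OM M fun n => C * (2 * C + 3) * M n := OM.rfl.mul _
  have c0 : (0 : ℝ) ≤ C := Nat.cast_nonneg _
  have x0 : 0 ≤ (γ - 1) * (C + 1) := mul_nonneg (by linarith) (by linarith)
  have y0 : 0 ≤ (γ - 1) * C + (γ - 2) / 2 := by nlinarith
  have l1 := lev_le' M x0
  have a1 : ∀ n, (lev M ((γ - 1) * (C + 1)) n : ℝ) + M n ≤ γ * (C * M n : ℕ) := fun n => by
    have := mul_le_mul_of_nonneg_right hC (m0 n)
    push_cast; nlinarith [l1 n]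
  have a2 : ∀ n, γ * (C * M n : ℕ) ≤ (C * (2 * C + 3) * M n : ℕ) := fun n => by
    have := mul_le_mul_of_nonneg_right hC (mul_nonneg c0 (m0 n))
    have := mul_nonneg c0 (mul_nonneg c0 (m0 n))
    have := mul_nonneg c0 (m0 n)
    push_cast; nlinarith
  have a3 : ∀ n, C * M n + M n ≤ C * (2 * C + 3) * M n := fun n => by
    have : 2 ≤ C := by exact_mod_cast h2.le.trans hC
    rw [← add_one_mul]; exact Nat.mul_le_mul_right _ (by nlinarith)
  have a4 : ∀ n, lev M ((γ - 1) * (C + 1)) n + M n ≤ C * (2 * C + 3) * M n := fun n => by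
    exact_mod_cast (a1 n).trans (a2 n)
  have ft : ∀ a : ℕ → ℕ, OM M a → (∀ n, C * M n + M n ≤ a n) →
      Ft X.P (X.G g) M (fun n v => (X.G g n).e v 1) (fun n => mT X
        (tc M (sp fun n => bif false then (D n).H else (D n).U)) n (a n))
        (lev M ((γ - 1) * (C + 1))) := fun a ha e => by
    have := ft_cell (q := lev M ((γ - 1) * (C + 1))) (h.com X hX).cellU hM (by linarith) ha
      (Le.of_le fun n => (l1 n).trans (by
        have : ((C * M n + M n : ℕ) : ℝ) ≤ a n := Nat.cast_le.2 (e n)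
        push_cast at this
        nlinarith))
    exact this
  have e1 := hM.ev 1
  have e2 : ∀ᶠ n in UF, 4 ≤ M n * (γ - 2) := (hM.ev (4 / (γ - 2))).mono fun n u =>
    (div_le_iff₀ (by linarith)).1 u
  have nu := nilU (c := fun n => C * M n) (q := lev M ((γ - 1) * (C + 1))) (s := M)
    (p := fun n => 2 * (C * M n) + 3) rowSwap ngm h h2.le nil hX oC oR one_pos (e1.mono fun n u => by
      have k1 : (γ : ℝ) * (2 * (C * M n) + 3 : ℕ) ≤ (C * (2 * C + 3) * M n : ℕ) := by
        have := mul_le_mul_of_nonneg_right hC (mul_nonneg c0 (m0 n))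
        push_cast; nlinarith
      have k2 : (0 : ℝ) ≤ (2 * (C * M n) + 3 : ℕ) := Nat.cast_nonneg _
      refine ⟨(one_mul _).le, a4 n, ?_, k1, by nlinarith⟩
      have := a1 n
      rw [add_assoc, ← le_sub_iff_add_le, div_le_iff₀ (by linarith)]
      push_cast at this ⊢
      linarith) (Le.of_le fun n => by exact_mod_cast a1 n)
    ((hM.sm 3).of_sub (Eventually.of_forall fun n => by push_cast; linarith))
  have nl : Nl X.P (X.G g) M (mD X fun n => sd (D n) fun _ => ()) (fun n v => (X.G g n).e v 1)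
      (fun n => C * M n) (lev M ((γ - 1) * (C + 1))) fun n => C * (2 * C + 3) * M n :=
    ND.anti nu (Eventually.of_forall fun n => (Fn.fst _ _).pair ((Fn.fst _ _).right _))
  refine noU h.toTn (fun _ a => a) (κ := (γ - 2) / 4) (by linarith) oC
    (om_of (Eventually.of_forall (lev_le' M y0))) (e2.mono fun n u => ?_)
    (gt K g M mm _ _ _ η X (sk_pl h.toTn (mem_wT _ _) 1 false) hX (fun n => C * M n)
      (fun n => C * (2 * C + 3) * M n) M (lev M ((γ - 1) * (C + 1)))
      (fun n => C * (2 * C + 3) * M n) (lev M ((γ - 1) * C + (γ - 2) / 2)) ((γ - 2) / 4) oR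
      (by linarith) (e2.mono fun n u => ?_) (ft _ (oC.add OM.rfl) fun _ => le_rfl) (ft _ oR a3) nl)
  · push_cast; linarith [lt_lev M ((γ - 1) * C + (γ - 2) / 2) n]
  · exact ⟨(Nat.le_add_right _ _).trans (a4 n), a3 n, le_rfl, by
      linarith [lt_lev M ((γ - 1) * (C + 1)) n, lev_le' M y0 n]⟩

end Pool.Agent.MP_5168f5_an.R4.P2
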