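import Pool.Agent.MP_5168f5_an.R4.All1
import Pool.Agent.MP_5168f5_an.R4.LAll
import Pool.Agent.MP_5168f5_an.R4.P2All
import Pool.Agent.MP_5168f5_an.R4.B2All0

/-! The entropy theorem in four dimensions from the last step. -/

namespace Pool.Agent.MP_5168f5_an.R4

theorem mu0_of1 (e : B2.Eng') : Mu0 3 :=
  mu0_of2 (B2.cb2_of' LG.w2 LG.gt e) (P2.cp2_of LG.lt LG.gt)

end Pool.Agent.MP_5168f5_an.R4
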