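import Pool.Agent.MP_5168f5_an.R4.B2All0
import Pool.Agent.MP_5168f5_an.R4.LAll
import Pool.Agent.MP_5168f5_an.R4.B2Eng
import Pool.Agent.MP_5168f5_an.R4.GAff
import Pool.Agent.MP_5168f5_an.R4.GEnD
import Pool.Agent.MP_5168f5_an.R4.GEnG
import Pool.Agent.MP_5168f5_an.R4.GFin1
import Pool.Agent.MP_5168f5_an.R4.GFuP
import Pool.Agent.MP_5168f5_an.R4.GFuX
import Pool.Agent.MP_5168f5_an.R4.GKill
import Pool.Agent.MP_5168f5_an.R4.GLinD
import Pool.Agent.MP_5168f5_an.R4.GOffA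
import Pool.Agent.MP_5168f5_an.R4.GSepA
import Pool.Agent.MP_5168f5_an.R4.GTD

/-! A determined slope of the lighter axis is impossible. -/

namespace Pool.Agent.MP_5168f5_an.R4.B2

open R4.Eng

theorem engel : Engel :=
  rowEngel rowEnD (fanS_of LG.cap) rowOffA rowEnG
    (rowFin1 (rowKill rowTD rowLinD rowFuX (rowAff rowSepA rowFuX) rowFuP))

theorem eng : Eng' := eng_of engel LG.gn

theorem cb2 : Tan.CB2' := cb2_of' LG.w2 LG.gt eng

end Pool.Agent.MP_5168f5_an.R4.B2
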