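import Pool.Agent.MP_5168f5_an.R4.SpecB2

/-! Weight two with a determined slope: the rectangle step and the numerical choices. -/

namespace Pool.Agent.MP_5168f5_an.R4.B2

open H19 H17S H17F Filter K31 Tan B1

theorem rowVA : RVA := by
  intro rect wa wf ws wn ε₀ e0 e1
  obtain ⟨c, c0, c1, R1⟩ := rect ε₀ e0 e1
  refine ⟨c, c0, c1, ?_⟩
  intro Ω K g M mm D η d ε C a A s R J r h lv he X L pv
  subst he
  have hM := h.toT2.toTn.big
  obtain ⟨κ, κ0, hκ⟩ := lv.fs
  have u : ∀ᶠ n in UF, (M n : ℝ) ≤ κ⁻¹ * R n := inv_unit κ0 (hκ.mono fun _ a => a.2)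
  have u' : ∀ᶠ n in UF, (R n : ℝ) ≤ 1 * M n := lv.ev.mono fun n a => by
    rw [one_mul]; exact_mod_cast (by omega : R n ≤ M n)
  obtain ⟨L', sL, alg⟩ := wa K g M mm D η d ε C a A s R J r h lv X L pv
  obtain ⟨f1, f2⟩ := wf K g M mm D η d ε C a A s R J r h lv X pv.mem
  obtain ⟨s1, s2⟩ := ws K g M mm D η d ε C a A s R J r h lv X L pv
  obtain ⟨C', hC⟩ := om_cast lv.om
  have fr : Frac R J := ⟨fun n => (lv.le n).1, κ / (|C'| + 1), by positivity, by
    filter_upwards [hκ, hC] with n a b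
    have j : (J n : ℝ) ≤ r n := by exact_mod_cast (by have := lv.le n; omega : J n ≤ r n)
    have k := mul_le_mul_of_nonneg_right ((le_abs_self C').trans
      (le_add_of_nonneg_right zero_le_one)) (Nat.cast_nonneg (α := ℝ) (M n))
    rw [div_mul_eq_mul_div, div_le_iff₀ (by positivity)]
    nlinarith [mul_le_mul_of_nonneg_left (j.trans (b.trans k)) κ0.le,
      mul_le_mul_of_nonneg_right a.2 (show 0 ≤ |C'| + 1 by positivity)]⟩
  obtain ⟨W, Q, π, H, s₁, s₂, L₃, a1, a2, a3, a4⟩ := R1 X.P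
    (fun n => th (X.G g n) (2 * a n) (A n) (r n)) (fun n => (X.G g n).ln)
    (fun n v => ((mD X D n).S (a n) v, xz (X.G g n) (r n) v)) (fun n => ia (X.G g n) (2 * a n))
    (fun n => (X.G g n).z) (fun n => vv (X.G g n) (A n)) (fun n => ni (X.G g n) (A n))
    (fun n => al (X.G g n) (A n)) (fun n => mc (X.G g n) (mD X D n) (a n) (A n) (r n))
    (fun n => be (mD X D n) (a n) (s n)) R J L'
    ⟨big_unit u hM, sub_unit u sL, fr, alg, le_unit u f1, le_unit u f2, le_unit u s1, le_unit u s2⟩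
    (NCx.NG1.of_cls (Θ := fun n ω => (th (g n) (2 * a n) (A n) (r n) ω,
      fl1 (J n) (ia (g n) (2 * a n) ω), fl1 (J n) ((g n).z ω))) (u := fun n => vv (g n) (A n))
      h.cl.toCl0 pv.mem fun Y hY α β hab =>
        le_unit u (wn K g M mm D η d ε C a A s R J r h lv Y hY α β hab))
  refine ⟨X.ext Q π, fun n v => H n v 0, fun n v => s₁ n v 0, fun n v => s₂ n v 0, L₃,
    h.cl.toCl0.dn pv.mem (dnS_law (Eventually.of_forall a1)), sub_unit u' a2,
    ND.mono (le_unit u' a3) (Eventually.of_forall fun n x _ y _ e => ?_),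
    a4.mono (Eventually.of_forall fun n v _ e => ⟨(norm_le_pi_norm _ 0).trans e.1,
      (norm_le_pi_norm _ 0).trans e.2.1, (norm_le_pi_norm _ 0).trans e.2.2.1,
      (norm_le_pi_norm _ 0).trans e.2.2.2.1, (norm_le_pi_norm _ 0).trans e.2.2.2.2⟩)⟩
  simp only [Prod.mk.injEq] at e
  simp only [e.1, e.2.1, e.2.2]

/-- The form of `Eng` that is used. -/
def Eng' : Prop := ForL fun K g M D d _ a A s _ _ r => ∀ X (ρ k : ℕ → ℕ) H s₁ s₂ L (ε : ℝ),
  VO K g M D X a A s r ρ H s₁ s₂ L → Whp X.P (fun n v => 1 / 2 ^ k n ≤ |H n v|) → 0 < ε →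
  (∀ᶠ n in UF, s n + k n + ε * M n ≤ ρ n ∧ ρ n ≤ a n ∧ (ρ n : ℝ) ≤ (d - 2) * a n) →
  (∀ n, a n = M n ∧ s n + k n ≤ ρ n ∧ ρ n ≤ M n ∧ (ρ n : ℝ) ≤ (d - 2) * a n ∧ 4 * a n ≤ r n) →
  False

theorem tbf_of (prv : PrV) (va : VA) (lp1 : Lp1) (sha : ShA) (she : ShE) (eng : Eng') : TBF := by
  intro Ω K g M mm D η d ε₀ C h
  have hM := h.toT2.toTn.big
  have hd := h.lt
  have e0 := h.e0
  have d0 : 0 < d := by linarith
  have d1 : 0 < 1 - 2 / d := by rw [sub_pos, div_lt_one d0]; exact hd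
  have d2 : 1 - 2 / d ≤ d - 2 := by
    rw [sub_le_iff_le_add, ← sub_le_iff_le_add', le_div_iff₀ d0]; nlinarith
  obtain ⟨c, c0, c1, V⟩ := va ε₀ e0.1 e0.2
  obtain ⟨t, t0, t1, t2⟩ : ∃ t : ℝ, 0 < t ∧ t ≤ 1 / 2 ∧ t ≤ ε₀ * (1 - 2 / d) / 2 :=
    ⟨_, lt_min one_half_pos (by have := e0.1; positivity), min_le_left _ _, min_le_right _ _⟩
  have t3 : t ≤ (1 - 2 / d) / 2 := t2.trans (by nlinarith [e0.2])
  have r1 := lev_le' M t0.le
  have r2 := lt_lev M t
  have p1 := lev_le (lev M t) c1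
  have p2 := lt_lev (lev M t) c
  have m0 : ∀ n, (0 : ℝ) ≤ M n := fun n => Nat.cast_nonneg _
  have rM : ∀ n, 2 * lev M t n ≤ M n := fun n => by
    have : (2 : ℝ) * lev M t n ≤ M n := by nlinarith [r1 n, m0 n]
    exact_mod_cast this
  have ct : 0 < c * t := mul_pos c0 t0
  have p3 : ∀ᶠ n in UF, c * t / 2 * M n + 8 ≤ lev (lev M t) c n :=
    (hM.sm 10 _ (half_pos ct)).mono fun n a => by
      nlinarith [r2 n, p2 n, mul_le_mul_of_nonneg_left (r2 n).le c0.le]
  have q4 : ∀ n, (lev (lev M t) c n : ℝ) ≤ 4 * (lev (lev M t) c n / 4 : ℕ) + 3 ∧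
      4 * ((lev (lev M t) c n / 4 : ℕ) : ℝ) ≤ lev (lev M t) c n := fun n =>
    ⟨by exact_mod_cast (by omega), by exact_mod_cast (by omega)⟩
  have lv : LV M d C M (fun n => 2 * M n - lev (lev M t) c n / 4)
      (fun n => lev (lev M t) c n / 4) (lev M t) (fun n => (C + 4) * M n)
      fun n => 2 * M n + (C + 4) * M n := by
    refine ⟨⟨C + 6, Eventually.of_forall fun n => le_of_eq (by ring)⟩,
      ⟨c * t / 8, by positivity, p3.mono fun n a => ⟨by linarith [(q4 n).1], ?_⟩⟩,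
      fun n => ?_, Eventually.of_forall fun n => ?_⟩
    · have : (lev (lev M t) c n : ℝ) ≤ lev M t n := by exact_mod_cast p1 n
      nlinarith [m0 n]
    · have := rM n
      have := p1 n
      refine ⟨by nlinarith, by omega, rfl, by nlinarith⟩
    · have := rM n
      refine ⟨this, by rw [add_mul]; omega, by rw [add_mul]; omega, ?_⟩
      have k : ((2 * M n - lev (lev M t) c n / 4 + lev M t n : ℕ) : ℝ) ≤
          (2 * M n + lev M t n : ℕ) := by exact_mod_cast (by omega)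
      push_cast at k ⊢
      nlinarith [r1 n, m0 n]
  have b1 := lev_le' M (show 0 ≤ 1 / d by positivity)
  have b2 := lt_lev M (1 / d)
  have b3 : ∀ n, d * lev M (1 / d) n ≤ M n := fun n => by
    have := mul_le_mul_of_nonneg_left (b1 n) d0.le
    rwa [← mul_assoc, mul_one_div_cancel d0.ne', one_mul] at this
  have b4 : ∀ n, (1 - 2 / d) * M n - (d - 2) ≤ (d - 2) * lev M (1 / d) n := fun n => by
    have := mul_le_mul_of_nonneg_left (b2 n).le (show 0 ≤ d - 2 by linarith)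
    rw [← mul_assoc, show (d - 2) * (1 / d) = 1 - 2 / d by field_simp] at this
    linarith
  obtain ⟨X, L, pv⟩ := prv K g M mm D η d ε₀ C _ _ _ _ _ _ h lv (lev M (1 / d))
    (fun n => ⌊d * lev M (1 / d) n⌋₊) (t / 2) (half_pos t0) (by
      filter_upwards [hM.sm (d - 1) _ (half_pos t0)] with n a
      have f1 := Nat.floor_le (show 0 ≤ d * lev M (1 / d) n by positivity)
      have f2 := Nat.lt_floor_add_one (d * lev M (1 / d) n)
      have f3 : ⌊d * lev M (1 / d) n⌋₊ ≤ M n := by exact_mod_cast f1.trans (b3 n)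
      have := rM n
      have := p1 n
      refine ⟨lev_le M (by rw [div_le_one d0]; linarith) n, Nat.le_floor ?_, f1, by omega, ?_, ?_⟩
      · push_cast; nlinarith [Nat.cast_nonneg (α := ℝ) (lev M (1 / d) n)]
      · have k : (1 - 2 / d) * M n - (d - 1) ≤
            ⌊d * lev M (1 / d) n⌋₊ - (2 * lev M (1 / d) n : ℕ) := by
          push_cast; linarith [b4 n]
        have k1 := mul_le_mul_of_nonneg_left k e0.1.le
        have k2 := mul_le_mul_of_nonneg_right t2 (m0 n)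
        have k3 := mul_le_mul_of_nonneg_right e0.2 (show 0 ≤ d - 1 by linarith)
        nlinarith [r1 n]
      · nlinarith [r1 n, b4 n, mul_le_mul_of_nonneg_right t3 (m0 n), m0 n])
  obtain ⟨Y, H, s₁, s₂, L', vo⟩ := V K g M mm D η d ε₀ C _ _ _ _ _ _ h lv rfl X L pv
  have pd : ∀ n, (lev (lev M t) c n : ℝ) ≤ (d - 2) * M n := fun n => by
    have : (lev (lev M t) c n : ℝ) ≤ lev M t n := by exact_mod_cast p1 n
    nlinarith [r1 n, m0 n]
  by_cases w : Whp Y.P fun n v => 1 / 2 ^ (2 * (lev (lev M t) c n / 4)) ≤ |H n v|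
  · refine eng K g M mm D η d ε₀ C _ _ _ _ _ _ h lv Y _ _ H s₁ s₂ L' (c * t / 8) vo w
      (by positivity) (p3.mono fun n a => ⟨?_, ?_, pd n⟩) fun n => ?_
    · push_cast; linarith [(q4 n).2]
    · have := rM n
      have := p1 n
      omega
    · have := rM n
      have := p1 n
      exact ⟨rfl, by omega, by omega, pd n, by rw [add_mul]; omega⟩
  obtain ⟨Z, hZ, lp⟩ := lp1 K g M mm D η d ε₀ C _ _ _ _ _ _ h lv Y _ _
    (fun n => 2 * M n + lev (lev M t) c n / 4) H s₁ s₂ L' vo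
    ((not_whp w).mono (Eventually.of_forall fun n v _ a => (not_le.1 a).le))
    ⟨3, Eventually.of_forall fun n => by have := rM n; have := p1 n; beta_reduce; omega⟩
    (Eventually.of_forall fun n => by have := rM n; have := p1 n; omega)
  obtain ⟨Z', a', k, κ', sh, k0, e⟩ := sha K g M mm D η d ε₀ (c * t / 8) Z M _ _ h.toT2 hd h.nil hZ
    lv.om lp (by positivity) (p3.mono fun n a => by
      have := rM n
      have := p1 n
      refine ⟨?_, by push_cast; linarith [(q4 n).1], ?_, by rw [add_mul]; omega⟩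
      · nlinarith [m0 n, mul_le_mul c1 t1 t0.le zero_le_one]
      · push_cast; nlinarith [pd n, (q4 n).2, Nat.cast_nonneg (α := ℝ) (lev (lev M t) c n / 4)])
  exact she K g M mm D η 2 d ε₀ κ' Z' a' M k h.toT2 one_lt_two hd h.nil sh k0 e

theorem rowTBF : RTBF := fun prv va lp1 sha she eng => tbf_of prv va lp1 sha she
  fun K g M mm D η d ε₀ C a A s R J r h lv X ρ k H s₁ s₂ L ε vo w e0 e _ =>
    eng K g M mm D η d ε₀ C a A s R J r h lv X ρ k H s₁ s₂ L ε vo w e0 e

end Pool.Agent.MP_5168f5_an.R4.B2
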