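import Pool.Agent.MP_5168f5_an.R4.SpecB

/-! The rate of the last coordinate given the second one at the matching depth. -/

namespace Pool.Agent.MP_5168f5_an.R4.B1

open H19 H17S H17F Filter K31 Tan

namespace BNGmA

variable {Ω β : ℕ → Type} {P : ∀ n, FP (Ω n)} {g : Gs 3 Ω} {M a p r s : ℕ → ℕ}
  {d : ∀ n, ℕ → Ω n → ℝ × ℝ × V 3} {wt : ℝ} {G : ∀ n, Ω n → β n} {L : ℕ → ℝ}

theorem cell01 (h : Cell P g M {0, 1} 2 d wt) (hM : Big M) (hw : 0 ≤ wt) (ha : OM M a)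
    (hr : OM M r) (hp : Le M (fun n => p n) fun n => wt * a n) (hL : Sub M L)
    (e : ∀ᶠ n in UF, (p n ≤ r n ∧ p n ≤ s n) ∧ (g n).Bx (P n) (L n) ∧ Fn (P n) (fun ω =>
      (d n (a n) ω, fl1 (r n) ((g n).pt ω 0), fl1 (s n) ((g n).pt ω 1), (g n).z ω)) (G n)) :
    ND P M (fun n ω => fl1 (p n) ((g n).pt ω 2)) G := by
  obtain ⟨L', hL', w⟩ := cell_near h hM hw ha hp
  refine ND.near (c := fun n ω => (d n (a n) ω).1 + (d n (a n) ω).2.1 * (g n).z ω +
    (d n (a n) ω).2.2 0 * U.rd (r n) ((g n).pt ω 0) +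
    (d n (a n) ω).2.2 1 * U.rd (s n) ((g n).pt ω 1)) hM
    ((hL.add hL' hM).const_mul hM (C := 4) (by norm_num)) (hr.mono (e.mono fun _ u => u.1.1))
    (e.mono fun n u => ⟨fun x hx y hy q => ?_, fun ω hω =>
      (abs_pt u.2.1 hω 2).trans (by linarith [hL'.pos n, hL.pos n])⟩)
    (w.mono (e.mono fun n u ω _ ⟨_, v2, v3, _⟩ => ?_))
  · have := u.2.2 x hx y hy q
    simp only [Prod.mk.injEq] at this
    simp only [U.rd, this.1, this.2.1, this.2.2.1, this.2.2.2]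
  · rw [sum01 fun i => (v2 i).2, add_comm, ← sub_sub] at v3
    have v4 := near_rd v3 (v2 0).1 u.1.1
    rw [sub_right_comm] at v4
    refine le_trans (le_of_eq (congrArg _ (by ring)))
      ((near_rd v4 ((v2 1).1.trans (by linarith [hL'.pos n])) u.1.2).trans
        (div_le_div_of_nonneg_right (by linarith [hL.pos n]) (by positivity)))

end BNGmA

theorem rowNGm : RNGm := by
  intro sw Ω K g M mm D η γ d ε₀ X q q' p r h hX hr e hq hd
  have hM := h.toTn.big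
  obtain ⟨L, hL, bx⟩ := h.toTn.bx hX
  have c := h.com X hX
  have f := h.fl X hX
  have g0 : 0 < γ := one_pos.trans_le h.one
  have d0 : 0 ≤ d := zero_le_one.trans h.dge
  have b1 : ∀ n, γ * (⌊p n / γ⌋₊ : ℕ) ≤ p n := fun n =>
    (le_div_iff₀' g0).1 (Nat.floor_le (by positivity))
  have up : ∀ {x y : ℕ}, γ * x ≤ y → x ≤ y := fun k =>
    Nat.cast_le.1 ((le_mul_of_one_le_left (Nat.cast_nonneg _) h.one).trans k)
  have hb : OM M fun n => ⌊p n / γ⌋₊ := hr.mono (e.mono fun n a => (up (b1 n)).trans a.2.1)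
  have hp : Le M (fun n => q' n) fun n => d * (⌊p n / γ⌋₊ : ℕ) :=
    Le.of2 (hq.smul (inv_pos.2 g0).le) (hM.sm d) (.of_forall fun n => by
      have := mul_le_mul_of_nonneg_left (Nat.lt_floor_add_one (p n / γ)).le d0
      rw [inv_mul_cancel_left₀ g0.ne', mul_left_comm, ← div_eq_inv_mul]
      linarith)
  have fH : ∀ᶠ n in UF, Fn (X n).Q ((mD X D n).H ⌊p n / γ⌋₊) ((mD X D n).S ⌊p n / γ⌋₊) :=
    c.nest.mono fun n a u hu v hv k => congrArg (·.2.2.2.2) ((a.2 _).2 u hu v hv k)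
  have N : ND X.P M (fun n v => fl1 (q' n) ((X.G g n).pt v 2)) fun n v =>
      (fl1 (p n) ((X.G g n).pt v 1), fl1 (r n) ((X.G g n).pt v 0), (mD X D n).S ⌊p n / γ⌋₊ v,
        (X.G g n).zt v) := by
    by_cases k : d ≤ γ
    · refine cell0_pt (f.cellP k) hM d0 hb hr hp hL ?_
      filter_upwards [e, bx, fH] with n a1 a2 a3
      exact ⟨up a1.2.2, a2, fun u hu v hv w => Prod.ext (a3 u hu v hv (congrArg (·.2.2.1) w))
        (Prod.ext (congrArg (·.2.1) w) (congrArg (·.2.2.2.1) w))⟩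
    · refine BNGmA.cell01 (s := p) (f.cellH (not_le.1 k).le) hM d0 hb hr hp hL ?_
      filter_upwards [e, bx, fH, hd.resolve_left k] with n a1 a2 a3 a4
      exact ⟨⟨up a1.2.2, a4⟩, a2, fun u hu v hv w => Prod.ext
        (a3 u hu v hv (congrArg (·.2.2.1) w)) (Prod.ext (congrArg (·.2.1) w)
          (Prod.ext (congrArg (·.1) w) (congrArg (·.2.2.2.1) w)))⟩
  have h1 := c.fbU _ _ _ hb (c.lab _ hb) p r r hr hr (e.mono fun n a => ⟨b1 n, a.2.1⟩)
  have h2 := ND.le (F := fun n v => fl1 (r n) ((X.G g n).pt v 1))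
    (F' := fun n v => fl1 (r n) ((X.G g n).pt v 1)) (ND.of_fn (.of_forall fun n => Fn.fst _ _))
    ((ND.of_fn (F := fun n v => fl1 (p n) ((X.G g n).pt v 1)) (.of_forall fun n => Fn.fst _ _)).pair
      (N.pair (ND.of_fn (F := fun n => xz (X.G g n) (r n)) (.of_forall fun n u _ v _ w =>
        Prod.ext (congrArg (·.2.1) w) (congrArg (·.2.2.2) w)))))
  refine Le.of3 h1 h2 (f.ng q q' r hr (e.mono fun n a => ⟨a.1, a.2.2⟩)) (e.mono fun n a => ?_)
  have s1 := sw (X n).Q (fun v => (X.G g n).pt v 1) (fun v => fl1 (q n) ((X.G g n).pt v 2))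
    (fun v => fl1 (q' n) ((X.G g n).pt v 2)) (xz (X.G g n) (r n)) (p n) (r n) a.2.1
    fun _ _ _ _ w => fl1_eq_of_le a.1 w
  have s2 : ch (X n).Q (fun v => fl1 (q' n) ((X.G g n).pt v 2)) (fun v =>
      (fl1 (q n) ((X.G g n).pt v 2), fl1 (r n) ((X.G g n).pt v 1), xz (X.G g n) (r n) v)) ≤
      ch (X n).Q (fun v => fl1 (q' n) ((X.G g n).pt v 2)) fun v => (fl1 (q n) ((X.G g n).pt v 2),
        fl1 (r n) ((X.G g n).pt v 0), fl1 (r n) ((X.G g n).pt v 1), (X.G g n).zt v) :=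
    ch_anti fun _ _ _ _ w => Prod.ext (congrArg (·.1) w) (Prod.ext (congrArg (·.2.2.1) w)
      (Prod.ext (congrArg (·.2.1) w) (congrArg (·.2.2.2) w)))
  linarith

end Pool.Agent.MP_5168f5_an.R4.B1
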