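import Pool.Agent.MP_5168f5_an.R4.SpecB

/-! From the vertical system to the original coordinates. -/

namespace Pool.Agent.MP_5168f5_an.R4.B1

open H19 H17S H17F Filter K31 Tan

namespace BVTrA

theorem tp (j : ℕ) : (0 : ℝ) < 2 ^ j := by positivity

variable {W : Type} (g : Geo 3 W) (i i' : Fin 3) (α r : ℕ)

/-- The centre of the tube. -/
noncomputable def mj (j : Fin 3) (ω : W) : ℝ := fl1 α (g.a ω j) + g.z ω * fl1 α (g.e ω j)

theorem pt0 (ω : W) : (vs g i i' α r).pt ω 0 = 2 ^ α * g.pt ω i - mj g α i ω := by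
  show Int.fract (2 ^ α * g.a ω i) + g.z ω * Int.fract (2 ^ α * g.e ω i) =
    2 ^ α * (g.a ω i + g.z ω * g.e ω i) - mj g α i ω
  unfold Int.fract mj fl1
  ring

theorem pt1 (ω : W) : (vs g i i' α r).pt ω 1 = 2 ^ α * g.pt ω i' - mj g α i' ω := by
  show Int.fract (2 ^ α * g.a ω i') + g.z ω * Int.fract (2 ^ α * g.e ω i') =
    2 ^ α * (g.a ω i' + g.z ω * g.e ω i') - mj g α i' ω
  unfold Int.fract mj fl1
  ring

theorem adiv (x : ℝ) : |x| / 2 ^ α = |x / 2 ^ α| := by rw [abs_div, abs_of_pos (tp α)]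

theorem abs0 {ω : W} (h : 0 ≤ g.z ω ∧ g.z ω < 1) : |(vs g i i' α r).pt ω 0| ≤ 2 := by
  have e : (vs g i i' α r).pt ω 0 =
      Int.fract (2 ^ α * g.a ω i) + g.z ω * Int.fract (2 ^ α * g.e ω i) := rfl
  have a1 := Int.fract_nonneg (2 ^ α * g.a ω i)
  have a2 := Int.fract_lt_one (2 ^ α * g.a ω i)
  have a3 := mul_nonneg h.1 (Int.fract_nonneg (2 ^ α * g.e ω i))
  have a4 := mul_le_one₀ h.2.le (Int.fract_nonneg (2 ^ α * g.e ω i)) (Int.fract_lt_one _).le
  rw [e, abs_of_nonneg (by linarith)]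
  linarith

variable {g i i' α r}

theorem mj_eq {u v : W} (z : g.z u = g.z v) (e : vk g i i' α r u = vk g i i' α r v) :
    mj g α i u = mj g α i v ∧ mj g α i' u = mj g α i' v := by
  simp only [vk, Prod.mk.injEq] at e
  simp only [mj, z, e.2.2.1.1, e.2.2.1.2, e.2.2.2.1, e.2.2.2.2, and_self]

end BVTrA

open BVTrA in
theorem rowVTr : VTr := by
  intro W Λ Λ' Q g i i' M α R r lam Γ G hM hR e ⟨⟨c, L, hL, h1, h2⟩, ful⟩
  obtain ⟨C, hC⟩ := om_cast hR
  refine ⟨⟨fun n ω => (mj (g n) (α n) i' ω - G n ω * mj (g n) (α n) i ω + c n ω) / 2 ^ α n, L,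
    sub_unit hC hL, ?_, h2.mono (.of_forall fun n ω _ a => ⟨a.1, ?_⟩)⟩,
    Le.trans (Le.of_le fun n => le_of_eq (by push_cast; ring)) ((le_unit hC ful).trans
      (ND.le ?_ (ND.pair ?_ (ND.pair ?_ (ND.pair ?_ ?_)))))⟩
  · filter_upwards [e, h1] with n a b
    refine ⟨b.1.trans ((Fn.fst _ _).trans a.2.2), fun u hu v hv w => ?_⟩
    have k := a.2.2 u hu v hv (congrArg (·.1) w)
    have z : (g n).z u = (g n).z v := congrArg (·.2.2.1) w
    obtain ⟨m1, m2⟩ := mj_eq z (congrArg (·.2) k)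
    simp only [m1, m2, b.1 u hu v hv (congrArg (·.1) k), b.2 u hu v hv
      (Prod.ext (congrArg (·.1) k) (Prod.ext z (congrArg (·.2) k)))]
  · have := div_le_div_of_nonneg_right a.2 (show (0 : ℝ) ≤ 2 ^ α n by positivity)
    rw [adiv, pt0, pt1, div_div, ← pow_add, add_comm (R n)] at this
    exact (congrArg _ (by field_simp; ring)).trans_le this
  · refine ND.sure (c := fun n ω => 2 ^ α n * U.rd (α n + R n) ((g n).pt ω i) -
      mj (g n) (α n) i ω) hM (hM.sub le_rfl) (.of_forall fun n => ⟨fun u _ v _ w => ?_,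
        fun ω _ => ?_⟩)
    · simp only [U.rd_congr (congrArg (·.1) w),
        (mj_eq (congrArg (·.2.2.2.1) w) (congrArg (·.2.2.2.2) w)).1]
    · rw [pt0, sub_sub_sub_cancel_right, ← mul_sub, abs_mul, abs_of_pos (tp (α n))]
      refine (mul_le_mul_of_nonneg_left (U.abs_sub_rd _ _) (by positivity)).trans_eq ?_
      rw [pow_add]
      field_simp
  · refine ND.sure (c := fun n ω => mj (g n) (α n) i ω / 2 ^ α n) hM (hM.sub one_le_two)
      (e.mono fun n a => ⟨fun u _ v _ w => ?_, fun ω hω => ?_⟩)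
    · simp only [(mj_eq (congrArg (·.2.2.1) w) (congrArg (·.2.2.2) w)).1]
    · have := div_le_div_of_nonneg_right (abs0 (g n) i i' (α n) (r n) (a.1 ω hω))
        (show (0 : ℝ) ≤ 2 ^ α n by positivity)
      rw [adiv, pt0] at this
      exact (congrArg _ (by field_simp)).trans_le this
  · exact ND.of_fn (e.mono fun n a u hu v hv w => a.2.1 u hu v hv
      (Prod.ext (congrArg (·.2.1) w) (congrArg (·.2.2.2) w)))
  · exact nd_pt (a := fun n ω => (g n).a ω 0) (e := fun n ω => (g n).e ω 0)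
      (z := fun n => (g n).z) hM (e.mono fun n a => ⟨fun u _ v _ w => Prod.ext
        (congrArg (·.2.2.2.2.1.1) w) (Prod.ext (congrArg (·.2.2.2.2.1.2) w)
          (congrArg (·.2.2.1) w)), fun ω hω => abs_le.2
            ⟨by linarith [(a.1 ω hω).1], (a.1 ω hω).2.le⟩⟩)
  · exact ND.of_fn (.of_forall fun n u _ v _ w =>
      Prod.ext (congrArg (·.2.2.1) w) (congrArg (·.2.2.2.1) w))

end Pool.Agent.MP_5168f5_an.R4.B1
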