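import Pool.Agent.MP_5168f5_an.R4.SpecC
import Pool.Agent.MP_5168f5_an.R4.XRect

/-! Equal weights, both slopes determined by the base line: assembly. -/

namespace Pool.Agent.MP_5168f5_an.R4.CI

open H19 H17S H17F Filter NCx Tan
open Web (RV rd G3 sl TFul)

theorem cic_of (prep : Prep) (pza : PzA) (spa : SpA) (f3a : F3A) (weba : WebA) (nga : NGA)
    (k1 : Kil1) (k2 : Kil2) (conu : ConU) (gre : GrE) (grf : GrF) : CIC := by
  intro Ω K₀ g M mm D η d ε₀ h₀ hd hn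
  obtain ⟨K, C, L, h⟩ := prep K₀ g M mm D η d ε₀ h₀ hd hn.1 hn.2
  obtain ⟨X, hX⟩ := h.ne
  have hM := h.toTn.big
  have e0 : 0 < ε₀ ^ 2 / 16 := by have := h.e0.1; positivity
  have e1 : ε₀ ^ 2 / 16 ≤ 1 := by nlinarith [h.e0.1, h.e0.2]
  by_cases ng : NG2 X.P (fun n => (X.G g n).ln) (fun n => tl (X.G g n) (C * M n) (M n))
    (fun n => fa (X.G g n)) M (ε₀ ^ 2 / 16)
  swap
  · obtain ⟨Y, Λ, κ, β, s, lam, i, hY, gr⟩ := gre K g M _ _ X h.cl.toCl0 hX hM e0 ng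
    exact grf K g M mm D η d ε₀ C L Y h hY Λ κ β s lam i gr
  obtain ⟨L₁, s1, l1, sp⟩ := spa K g M mm D η d ε₀ C L X h hX
  have pz := pza K g M mm D η d ε₀ C L X h hX L₁ s1 l1
  have f3 := f3a _ _ _ _ _ _ pz sp
  obtain ⟨L₂, w⟩ := weba _ _ _ _ _ _ pz f3
  obtain ⟨c, c0, c1, R⟩ := XRect.rect 2 _ e0 e1
  obtain ⟨W, Q, π, H, s₁, s₂, L₃, a1, a2, a3, a4⟩ :=
    R _ _ _ _ _ _ _ _ _ _ _ _ _ _ w (nga _ _ _ _ _ _ pz f3 _ ng)
  have af : Af X.P (X.G g) (mD X D) M (fun n => C * M n) L₁ Q π H s₁ s₂ L₃ (lev M c) :=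
    ⟨a1, a2, lev_le M c1, a3, a4⟩
  obtain ⟨L₄, s4, w4⟩ := k1 _ _ _ _ _ _ pz f3 W Q π H s₁ s₂ L₃ _ af
  have sm := k2 _ _ _ _ _ _ pz f3 W Q π H s₁ s₂ L₃ L₄ _ af s4 w4
  have dn := (K31.dnS_law (Eventually.of_forall a1)).trans (f3.dn 0)
  have fr : Frac (lev M c) M := ⟨lev_le M c1, c / 2, half_pos c0, by
    filter_upwards [hM.ev (2 / c)] with n u
    have := lt_lev M c n
    rw [div_le_iff₀ c0] at u
    nlinarith⟩
  refine conu K g M mm D η d _ _ (fun n => C * M n) (lev M c) h.toTn (h.cl.toCl0.dn hX dn)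
    ⟨C, Eventually.of_forall fun _ => le_rfl⟩ fr (Eventually.of_forall fun n => ?_) sm
  have u1 : (lev M c n : ℝ) ≤ M n := by exact_mod_cast lev_le M c1 n
  have u2 := mul_le_mul_of_nonneg_right h.lev.2 (Nat.cast_nonneg (α := ℝ) (M n))
  push_cast
  nlinarith

end Pool.Agent.MP_5168f5_an.R4.CI
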