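import Pool.Agent.MP_5168f5_an.R4.SpecC

/-! Equal weights: the web of two lines through the point. -/

namespace Pool.Agent.MP_5168f5_an.R4.CI

open H19 H17S H17F Filter NCx Tan
open Web (RV rd G3 sl TFul)

namespace WebAA

section Det

variable {Ω : Type} {g : Geo 3 Ω} {D : Td Ω} {J M : ℕ} {L : ℝ} {a b : (Ω × Ω) × Ω}

theorem wr_eq (h : ty3 g J a = ty3 g J b) (i : Fin 3) : wr g J i a = wr g J i b :=
  congrArg (fun t : (Fin 3 → ℤ) × g.T => (t.1 i : ℝ) / 2 ^ J) h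

theorem ln_eq (i : Fin 3) (h : (g.ln (sl i a), ty3 g J a) = (g.ln (sl i b), ty3 g J b)) :
    ab g J i a = ab g J i b ∧ fa g (sl i a) = fa g (sl i b) ∧ fe g (sl i a) = fe g (sl i b) := by
  have h1 : g.a (sl i a) = g.a (sl i b) := congrArg (·.1.1) h
  have h2 : g.e (sl i a) = g.e (sl i b) := congrArg (·.1.2.1) h
  simp only [ab, fa, fe, h1, h2, wr_eq (congrArg Prod.snd h), and_self]

theorem wr_le (h : In3 g D J M L b) (i : Fin 3) : |wr g J i b| ≤ 2 * L := by
  have h1 := abs_le.1 (abs_fl1_sub J (g.e (sl i b) 0))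
  have h2 := abs_le.1 ((h.2.2 i).1.box.1 0).2
  have h3 := (h.2.2 i).1.one
  have h4 : (1 : ℝ) ≤ 2 ^ J := one_le_pow₀ one_le_two
  rw [wr, rd, abs_div, abs_of_pos (by positivity : (0 : ℝ) < 2 ^ J), div_le_iff₀ (by positivity),
    abs_le]
  constructor <;> nlinarith [h1.1, h1.2, h2.1, h2.2]

theorem off (i : Fin 3) (h : In3 g D J M L b) (e : ty3 g J a = ty3 g J b) {ε : ℝ}
    (k : |ab g J i a - ab g J i b| ≤ ε) : |g.a (sl i a) 0 - g.a (sl i b) 0| ≤ 4 * L * ε := by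
  have h1 : wr g J 1 b - wr g J 0 b ≠ 0 := fun z => by
    have := h.2.1 1 0 (by decide)
    rw [z, abs_zero, mul_zero] at this
    linarith
  have h2 : g.a (sl i a) 0 - g.a (sl i b) 0 =
      (wr g J 1 b - wr g J 0 b) * (ab g J i a - ab g J i b) := by
    simp only [ab, wr_eq e]
    field_simp
  rw [h2, abs_mul]
  exact mul_le_mul ((abs_sub _ _).trans (by linarith [wr_le h 1, wr_le h 0])) k (abs_nonneg _)
    (by linarith [(h.2.2 i).1.one])

theorem fe_le (h : In3 g D J M L b) (i : Fin 3) : ‖fe g (sl i b)‖ ≤ L :=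
  (pi_norm_le_iff_of_nonneg (by linarith [(h.2.2 i).1.one])).2 fun k => by
    fin_cases k
    exacts [((h.2.2 i).1.box.1 1).2, ((h.2.2 i).1.box.1 2).2]

theorem two {x y x' y' B c : ℝ} (h : |x - y| ≤ B / c) (h' : |x' - y'| ≤ B / c) (e : y = y') :
    |x - x'| ≤ 2 * B / c := by
  rw [mul_div_assoc, abs_le]
  constructor <;> linarith [abs_le.1 h, abs_le.1 h']

theorem three {x y x' y' B : ℝ} (h : |x - y - (x' - y')| ≤ B / 2 ^ J) (e : fl1 J y = fl1 J y') :
    |x - x'| ≤ (B + 1) / 2 ^ J := by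
  have := abs_lt.1 (abs_sub_lt_of_fl1_eq e)
  rw [add_div, one_div, abs_le]
  constructor <;> linarith [abs_le.1 h]

end Det

theorem full {W Γ : ℕ → Type} {Q : ∀ n, FP (W n)} {G : ∀ n, W n → Γ n} {x y : RV W}
    {M J : ℕ → ℕ} {B f : ℕ → ℝ} (hM : Big M) (hB : Sub M B)
    (h : Le M f fun n => ch (Q n) (fun v => fl1 (J n) (x n v)) (G n))
    (e : ∀ᶠ n in UF, ∀ a ∈ (Q n).S, ∀ b ∈ (Q n).S, G n a = G n b →
      |x n a - y n a - (x n b - y n b)| ≤ B n / 2 ^ J n) :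
    Le M f fun n => ch (Q n) (fun v => fl1 (J n) (y n v)) (G n) :=
  h.of2 (Sm.near1 (P := Q) (x := x) (G := fun n v => (fl1 (J n) (y n v), G n v)) (j := J) hM
    (hB.add (hM.sub le_rfl) hM) (e.mono fun n u a ha b hb k =>
      three (u a ha b hb (congrArg Prod.snd k)) (congrArg Prod.fst k)))
    (Eventually.of_forall fun n => by
      linarith [ch_tri (P := Q n) (fun v => fl1 (J n) (x n v)) (fun v => fl1 (J n) (y n v)) (G n)])

theorem slp {Ω : ℕ → Type} {P : ∀ n, FP (Ω n)} {g : Gs 3 Ω} {D : ∀ n, Td (Ω n)} {M J : ℕ → ℕ}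
    {L B : ℕ → ℝ} (pz : Pz P g D M J L) (f : F3 P g D M J L) (i : Fin 3)
    {y : RV fun n => (Ω n × Ω n) × Ω n} (hB : Sub M B)
    (e : ∀ᶠ n in UF, ∀ a ∈ (Q3 P g D J L n).S, ∀ b ∈ (Q3 P g D J L n).S,
      fl1 (J n) (y n a) = fl1 (J n) (y n b) →
        |ab (g n) (J n) i a - ab (g n) (J n) i b| ≤ B n / 2 ^ J n) :
    Sm M fun n => ch (Q3 P g D J L n) (fun v => fl (M n) (fe (g n) (sl i v))) fun v =>
      (fl1 (J n) (y n v), ty3 (g n) (J n) v) := by
  have h1 := (f.dn i).sm_ch pz.nil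
  have h2 := Sm.near1 (P := Q3 P g D J L) (x := fun n v => (g n).a (sl i v) 0)
    (G := fun n v => (fl1 (J n) (y n v), ty3 (g n) (J n) v)) (j := J) pz.big
    ((pz.sub.const_mul pz.big (by norm_num : (1 : ℝ) ≤ 4)).mul hB) (by
      filter_upwards [e, f.in3] with n u w a ha b hb k
      rw [mul_div_assoc]
      exact off i (w b hb).1 (congrArg Prod.snd k) (u a ha b hb (congrArg Prod.fst k)))
  refine (h1.add h2).mono (f.in3.mono fun n w => (ch_tri' _ _ _).trans (add_le_add le_rfl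
    (ch_mono fun a ha b hb k => Prod.ext (Prod.ext ?_ ?_) ?_)))
  · exact congrArg (·.1) k
  · exact congrArg (·.2.2.1 i) k
  · exact ((w a ha).2 i).1.trans ((congrArg (·.2.2.2) k).trans ((w b hb).2 i).1.symm)

end WebAA

open WebAA in
theorem rowWebA : OfWebA := by
  rintro ⟨K, m, hK, hD⟩ Ω P g D M J L pz f
  have hB := (pz.sub.pow m).const_mul pz.big hK
  have h2 := hB.const_mul pz.big one_le_two
  have h3 := h2.add (pz.big.sub le_rfl) pz.big
  have w := f.in3.mono fun n u v hv => hD _ _ _ _ _ v (u v hv).1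
  refine ⟨_, pz.big, h2.mul pz.sub, pz.frac, ?_, full pz.big h2 (f.hg 0) (w.mono ?_),
    full pz.big h2 (f.hg 1) (w.mono ?_), slp pz f 0 h3 (w.mono ?_), slp pz f 1 h3 (w.mono ?_)⟩
  · filter_upwards [f.in3, w] with n i3 u
    have l1 := pz.sub.1 n
    have l2 := hB.1 n
    have k1 : 2 * (K * L n ^ m) ≤ 2 * (K * L n ^ m) * L n := by nlinarith
    have k2 : K * L n ^ m ≤ 2 * (K * L n ^ m) * L n := by linarith
    have k3 : L n ≤ 2 * (K * L n ^ m) * L n := by nlinarith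
    refine ⟨fun a _ b _ e => ?_, fun a _ b _ e => ?_, fun a ha b hb e => ?_,
      fun a ha b hb e => ?_, fun v hv => ⟨(u v hv).1.1.trans k2, (u v hv).1.2.1.trans k2,
        (u v hv).1.2.2.trans k2, (fe_le (i3 v hv).1 0).trans k3, (fe_le (i3 v hv).1 1).trans k3,
        (u v hv).2.2.1.trans (by gcongr), (u v hv).2.2.2.1.trans (by gcongr)⟩⟩
    · obtain ⟨e1, e2, e3⟩ := ln_eq 0 e
      exact Prod.ext (congrArg₂ (· + ·) e2 (congrArg₂ (· • ·) e1 e3)) e3
    · obtain ⟨e1, e2, e3⟩ := ln_eq 1 e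
      exact Prod.ext (congrArg₂ (· - ·) e2 (congrArg₂ (· • ·) e1 e3)) e3
    · exact (two (u a ha).2.1.1 (u b hb).2.1.1 (ln_eq 0 e).1).trans (by gcongr)
    · refine (two (y := -ab (g n) (J n) 1 a) (y' := -ab (g n) (J n) 1 b) ?_ ?_
        (congrArg Neg.neg (ln_eq 1 e).1)).trans (by gcongr)
      exacts [by simpa only [sub_neg_eq_add] using (u a ha).2.1.2.1,
        by simpa only [sub_neg_eq_add] using (u b hb).2.1.2.1]
  · intro n u a ha b hb e
    simpa only [cb, sl, Matrix.cons_val_zero, sub_sub_cancel] using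
      two (u a ha).2.1.1 (u b hb).2.1.1 (ln_eq 0 e).1
  · intro n u a ha b hb e
    have e1 := abs_le.1 (u a ha).2.1.2.2
    have e2 := abs_le.1 (u b hb).2.1.2.2
    have e3 := (ln_eq 1 e).1
    change |(g n).z a.1.2 - _ - ((g n).z b.1.2 - _)| ≤ _
    rw [mul_div_assoc, abs_le]
    constructor <;> linarith
  · intro n u a ha b hb e
    have e1 := abs_le.1 (u a ha).2.1.1
    have e2 := abs_le.1 (u b hb).2.1.1
    refine three ?_ e
    rw [mul_div_assoc, abs_le]
    constructor <;> linarith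
  · intro n u a ha b hb e
    have e1 := abs_le.1 (u a ha).2.1.2.1
    have e2 := abs_le.1 (u b hb).2.1.2.1
    rw [abs_sub_comm, ← neg_sub_neg]
    refine three ?_ e
    rw [mul_div_assoc, abs_le]
    constructor <;> linarith

end Pool.Agent.MP_5168f5_an.R4.CI
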