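import Pool.Agent.MP_5168f5_an.R4.SpecAd
import Pool.Agent.MP_5168f5_an.R4.XKB

/-! Case A: a member with sure bounds. -/

namespace Pool.Agent.MP_5168f5_an.R4.Tan

open H19 H17S H17F Filter Matrix Web NCx

namespace DChEA

theorem om_mul (M : ℕ → ℕ) (C : ℕ) : OM M fun n => C * M n :=
  ⟨C, Eventually.of_forall fun _ => le_rfl⟩

theorem frac_mul (M : ℕ → ℕ) {C : ℕ} (h : 0 < C) : Frac M fun n => C * M n := by
  have h' : (0 : ℝ) < C := by exact_mod_cast h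
  refine ⟨fun n => Nat.le_mul_of_pos_left _ h, 1 / C, by positivity,
    Eventually.of_forall fun n => le_of_eq ?_⟩
  push_cast; field_simp

theorem nest {Ω Λ : Type} {P : FP Ω} {S : ℕ → Ω → Λ} (h : ∀ j, Fn P (S j) (S (j + 1))) (j k : ℕ) :
    Fn P (S j) (S (j + k)) := by
  induction k with
  | zero => exact Fn.rfl _
  | succ k ih => exact ih.trans (h (j + k))

variable {Ω : ℕ → Type} {P : ∀ n, FP (Ω n)} {g : Gs 3 Ω} {M mm : ℕ → ℕ} {D : ∀ n, Td (Ω n)}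
  {Q : ∀ n, Tq (Ω n)} {b : Prop} {d ε₀ : ℝ}

theorem bs (h : Un P g M mm D Q b d ε₀) : Bs P g M := by
  have := h.bs 1 one_pos
  simpa only [one_mul] using this

theorem good (h : Un P g M mm D Q b d ε₀) {ξ τ μ : ℕ → ℕ} (hξ : OM M ξ) (hμ : OM M μ)
    (hτ : ∀ n, (τ n : ℝ) ≤ d * ξ n) : ∃ L, Sub M L ∧
      Whp P fun n ω => Gd (g n) (D n) (Q n) b (ξ n) (τ n) (μ n) (L n) ω := by
  have hM := (bs h).big
  obtain ⟨L0, s0, b0⟩ := (bs h).bx
  obtain ⟨L1, s1, w1⟩ := h.bd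
  obtain ⟨L2, s2, w2⟩ := h.cell ξ τ hξ (Eventually.of_forall hτ)
  obtain ⟨L3, s3, w3⟩ := h.ball ξ hξ
  obtain ⟨L4, s4, w4⟩ := h.ball _ (hξ.add hμ)
  have w5 : Whp P fun n ω => ¬b → ∀ t : ℝ, 0 ≤ t → t < 1 →
      |(g n).lt t ω 2 - (Q n).sf ω (bp (g n) t ω)| ≤ 1 / 2 ^ μ n := by
    by_cases e : b
    · exact Whp.of_ev (Eventually.of_forall fun _ _ _ k => absurd e k)
    · exact (h.surf e μ hμ).mono (Eventually.of_forall fun _ _ _ k _ => k)
  refine ⟨_, (((s0.add s1 hM).add s2 hM).add s3 hM).add s4 hM,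
    ((((w1.and w2).and w3).and w4).and w5).mono ?_⟩
  filter_upwards [b0, h.fn] with n a0 a1 ω hω ⟨⟨⟨⟨c1, c2⟩, c3⟩, c4⟩, c5⟩
  have q0 := s0.1 n
  have q1 := s1.pos n
  have q2 := s2.pos n
  have q3 := s3.pos n
  have q4 := s4.pos n
  obtain ⟨Λ, hΛ⟩ : ∃ Λ, Λ = L0 n + L1 n + L2 n + L3 n + L4 n := ⟨_, rfl⟩
  rw [← hΛ]
  have e0 : L0 n ≤ Λ := by linarith
  have e1 : L1 n ≤ Λ := by linarith
  have e2 : L2 n ≤ Λ := by linarith
  have e3 : L3 n ≤ Λ := by linarith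
  have e4 : L4 n ≤ Λ := by linarith
  have k : ∀ {x L : ℝ} {j : ℕ}, x ≤ L / 2 ^ j → L ≤ Λ → x ≤ Λ / 2 ^ j := fun u e =>
    u.trans (div_le_div_of_nonneg_right e (by positivity))
  exact ⟨q0.trans e0, ⟨(a0.bd ω hω).2, fun i => ⟨((a0.bd ω hω).1 i).1.trans e0,
      ((a0.bd ω hω).1 i).2.trans e0⟩, fun i => (c1.1 i).trans e1⟩,
    fun i j => (c2.1 i j).trans (mul_le_mul_of_nonneg_right e2 (by positivity)),
    fun t u => k (c2.2.2 t u) e2, fun i => k (c3.1 i) e3, fun i => k (c4.1 i) e4, k c4.2 e4,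
    ⟨a1.2.1 ω hω, fun i j => (c1.2.1 i j).trans e1, c1.2.2.1.trans e1,
      fun i => (c1.2.2.2.1 i).trans e1⟩,
    fun u => ⟨(h.flat u n ω).1, (h.flat u n ω).2, (c2.2.1 u).mono e2⟩,
    fun u => ⟨(c1.2.2.2.2 u).trans (mul_le_mul_of_nonneg_right e1 (abs_nonneg _)), c5 u⟩⟩

theorem inf (h : Un P g M mm D Q b d ε₀) (hs : Sm M fun n => mm n) {ξ : ℕ → ℕ} (hξ : OM M ξ) :
    Sm M fun n => mi (P n) (g n).z (g n).ln ((D n).S (ξ n)) :=
  (rowKB.inf P g M ξ _ (bs h) (le_up hs (h.lab ξ hξ).h)).mono (h.fn.mono fun n a =>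
    mi_right (fun x hx y hy e => by
      have := (a.2.2 (ξ n)).2 x hx y hy e
      simp only [cd, Prod.mk.injEq] at this ⊢
      exact ⟨this.2.1.1, this.1⟩) ((Fn.snd _ _).left _) ((Fn.fst _ _).left _))

theorem hgt (h : Un P g M mm D Q b d ε₀) (hs : Sm M fun n => mm n) (C : ℕ) :
    Le M (fun n => (C * M n : ℕ) * lg) fun n => ch (P n)
      (fun ω => fl1 (2 * M n + C * M n) ((g n).z ω)) fun ω => ((g n).ln ω, (D n).S (2 * M n) ω) := by
  have f := frac_mul M (C := C + 2) (by omega)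
  have a := rowKB.hgt P g (fun n => (C + 2) * M n) (fun n => 2 * M n) (fun n => 2 * M n)
    (fun n => 2 * M n + C * M n) _ (h.bs (C + 2) (by omega))
    ((le_up hs (h.lab _ (om_mul M 2)).h).up f.1)
    fun n => ⟨le_rfl, Nat.le_add_right _ _, le_of_eq (by ring)⟩
  refine (a.frac f).of_sub (Eventually.of_forall fun n => ?_)
  have a1 := ch_anti (P := P n) (F := fun ω => fl1 (2 * M n + C * M n) ((g n).z ω))
    (Fn.snd (fun ω => fl1 (2 * M n) ((g n).z ω)) fun ω => ((g n).ln ω, (D n).S (2 * M n) ω))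
  have a2 : ((2 * M n + C * M n : ℕ) - (2 * M n : ℕ) : ℝ) = (C * M n : ℕ) := by push_cast; ring
  simp only [a2]
  linarith

end DChEA

open DChEA in
theorem rowChE : ChE := by
  intro Ω K g M mm D Q b d ε₀ h
  obtain ⟨X₀, hX₀⟩ := h.ne
  obtain ⟨τ, hτ⟩ : ∃ τ : ℕ → ℕ, τ = fun n => ⌊d * (2 * M n : ℕ)⌋₊ := ⟨_, rfl⟩
  obtain ⟨C, hC⟩ : ∃ C : ℕ, C = 10 * ⌈d⌉₊ + 10 := ⟨_, rfl⟩
  have d0 : 0 ≤ d := zero_le_one.trans h.dge
  have t1 : ∀ n, (τ n : ℝ) ≤ d * (2 * M n : ℕ) := fun n => by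
    rw [hτ]; exact Nat.floor_le (by positivity)
  have t2 : ∀ n, d * (2 * M n : ℕ) ≤ τ n + 1 := fun n => by
    rw [hτ]; exact (Nat.lt_floor_add_one _).le
  have t3 : ∀ n, 2 * M n ≤ τ n := fun n => by
    rw [hτ]; exact Nat.le_floor (le_mul_of_one_le_left (Nat.cast_nonneg _) h.dge)
  have t4 : ∀ n, 5 * τ n + 10 * M n ≤ C * M n := fun n => by
    have a1 : (τ n : ℝ) ≤ (⌈d⌉₊ * (2 * M n) : ℕ) := (t1 n).trans (by
      rw [Nat.cast_mul ⌈d⌉₊]; exact mul_le_mul_of_nonneg_right (Nat.le_ceil d) (Nat.cast_nonneg _))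
    have a2 : τ n ≤ ⌈d⌉₊ * (2 * M n) := by exact_mod_cast a1
    rw [hC]; nlinarith
  have o2 := om_mul M 2
  have oC := om_mul M C
  have f := frac_mul M (C := C) (by omega)
  obtain ⟨L, sL, w⟩ := good (h.un X₀ hX₀) o2 oC t1
  have hX := h.cl.cond X₀ _ hX₀ w.pos
  have u := h.un _ hX
  refine ⟨_, τ, fun n => C * M n, L, hX, t2, (bs u).big, f, fun n => ⟨rfl, t3 n, t4 n⟩, sL, h.e0,
    fun e n ω => (u.flat e n ω).1, w.pos.sure.mono fun n a ω hω => (a ω hω).2,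
    u.fn.mono fun n a => ⟨a.1, fun x hx y hy e => ?_, (nest (fun j => (a.2.2 j).1) _ _).pair
      fun x hx y hy e => congrArg (·.2.2) ((a.2.2 _).2 x hx y hy e)⟩,
    inf u h.sm o2, hgt u h.sm C, u.typ _ (o2.add oC), ?_, ?_, u.cp _ _ (o2.add oC) f.1⟩
  · have := (a.2.2 _).2 x hx y hy e
    exact Prod.ext (congrArg (·.1) this) (congrArg (·.2.1) this)
  · refine NG1.of_cls (Θ := fun n ω => (fl1 (C * M n) ((g n).pt ω 0), fl1 (C * M n) ((g n).pt ω 1),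
      (g n).zt ω)) (u := fun n ω => 2 ^ τ n * fc (Q n) ω ((g n).z ω)) h.cl hX fun X hX a a' ha => ?_
    refine ((h.un X hX).ng (fun n => τ n + a n) (fun n => τ n + a' n) _ oC
      (Eventually.of_forall fun n => ⟨Nat.add_le_add_left (ha n).1 _, ?_⟩)).congr
      (Eventually.of_forall fun n => ?_) (Eventually.of_forall fun n => ?_)
    · have a1 : 5 * (τ n + a' n) ≤ C * M n := by linarith [t4 n, (ha n).2]
      exact_mod_cast a1
    · simp only [fl1_mul]; rfl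
    · push_cast; ring
  · exact u.sv (fun n => 2 * M n) τ (fun n => τ n - M n) M _ o2 oC Frac.rfl
      (Eventually.of_forall fun n => ⟨t1 n, by have := t3 n; omega, by linarith [t4 n],
        by linarith [t4 n]⟩)

end Pool.Agent.MP_5168f5_an.R4.Tan
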