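import Pool.Agent.MP_5168f5_an.R4.SpecE2

/-! The two quadrics agree. -/

namespace Pool.Agent.MP_5168f5_an.R4

open H19 H17S H17F Matrix Filter

namespace EAgreeA

theorem le_pow {R : ℕ → ℕ} {L : ℕ → ℝ} (h : Sub R L) :
    ∀ᶠ n in UF, ∀ m : ℕ, R n ≤ 4 * m → L n ≤ 2 ^ m := by
  have l : 0 < Real.log 2 := Real.log_pos one_lt_two
  filter_upwards [h.2 (Real.log 2 / 4) (by positivity)] with n a m b
  have c : (R n : ℝ) ≤ 4 * m := by exact_mod_cast b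
  refine a.trans ((Real.exp_le_exp.2 (by nlinarith : _ ≤ m * Real.log 2)).trans_eq ?_)
  rw [Real.exp_nat_mul, Real.exp_log two_pos]

theorem tame {A : Qd} {Y v : V 5} {Λ Λ' : ℝ} (h : Tame A Y v Λ) (e : Λ ≤ Λ') : Tame A Y v Λ' :=
  ⟨h.1.trans e, h.2.trans (pow_le_pow_left₀ ((abs_nonneg _).trans h.1) e 2)⟩

end EAgreeA

open EAgreeA in
theorem rowEAgree : OfEAgree := by
  rintro ⟨C, hC, hA⟩ hT hV x R k p ε₀ h
  obtain ⟨L, hL, a⟩ := h.alg
  obtain ⟨T, hT, t⟩ := hT x R k p ε₀ h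
  have s := ((hL.mul hT).pow 3).const_mul h.big hC
  refine ⟨_, s, (t.and (Whp.all fun i => hV x R k p ε₀ i T h hT)).mono ?_⟩
  filter_upwards [a, le_pow hL, le_pow (hL.mul s), h.big.ev 2] with n a b c r ω hω u
  have r : 2 ≤ R n := by exact_mod_cast r
  have l1 : L n ≤ L n * T n := le_mul_of_one_le_right (hL.pos n).le (hT.1 n)
  have l2 : T n ≤ L n * T n := le_mul_of_one_le_left (hT.pos n).le (hL.1 n)
  have v : L n * (2 ^ p n)⁻¹ ≤ 2 ^ (3 * R n / 4) / 2 ^ p n :=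
    div_le_div_of_nonneg_right (b _ (by omega)) (by positivity)
  have q₁ := a.q₁ ω hω
  have q₂ := a.q₂ ω hω
  refine hA _ _ _ _ _ _ ((hL.1 n).trans l1) (by positivity) q₁.d.1 (q₁.d.2.trans l1) q₂.d.1
    (q₂.d.2.trans l1) (q₁.val.trans v) (q₂.val.trans v) ?_ fun i =>
      ⟨tame (u.1 i).1 l2, tame (u.1 i).2 l2, u.2 i (u.1 i).1 (u.1 i).2⟩
  have s0 := s.pos n
  have c := c (R n - 3 * R n / 4) (by omega)
  refine (mul_le_mul_of_nonneg_right q₁.top (by positivity)).trans ?_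
  have e : (2 : ℝ) ^ R n = 2 ^ (R n - 3 * R n / 4) * 2 ^ (3 * R n / 4) := by
    rw [← pow_add, Nat.sub_add_cancel (by omega)]
  generalize C * (L n * T n) ^ 3 = D at *
  rw [e, show L n * 2 ^ p n / (2 ^ (R n - 3 * R n / 4) * 2 ^ (3 * R n / 4)) *
    (D * (2 ^ (3 * R n / 4) / 2 ^ p n)) = L n * D / 2 ^ (R n - 3 * R n / 4) by field_simp]
  exact div_le_one_of_le₀ c (by positivity)

end Pool.Agent.MP_5168f5_an.R4
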