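import Pool.Agent.MP_5168f5_an.R4.SpecE1

/-! Row EAlg: small jets in the sixteen directions. -/

namespace Pool.Agent.MP_5168f5_an.R4

open H19 H17S H17F Matrix

namespace EAlgA

theorem qfG (A B : Qd) (c : ℝ) (u : V 5) : qf (A - c • B) u = qf A u - c * qf B u := by
  simp only [qf, sub_mulVec, smul_mulVec, dotProduct_sub, dotProduct_smul, smul_eq_mul]

theorem pfG (A B : Qd) (c : ℝ) (u v : V 5) : pf (A - c • B) u v = pf A u v - c * pf B u v := by
  simp only [pf, sub_mulVec, smul_mulVec, dotProduct_sub, dotProduct_smul, smul_eq_mul]; ring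

theorem pdir (A : Qd) (U : Fin 3 → V 5) (i : Fin 4 × Fin 4) (v : V 5) : pf A (dir U i) v =
    pf A (U 0) v + ((i.1 : ℕ) : ℝ) * pf A (U 1) v + ((i.2 : ℕ) : ℝ) * pf A (U 2) v := by
  simp only [dir, pf_add_left, pf_smul_left]

theorem tl1 (A B : Qd) (Y v : V 5) (h : pf A Y (bv 4) ≠ 0) :
    pf A (tl B Y v) (bv 4) =
      pf A (tl A Y v) (bv 4) + pf A Y (tl B Y v) / pf A Y (bv 4) * (2 * qf A (bv 4)) := by
  simp only [tl, pf_sub_left, pf_sub_right, pf_smul_left, pf_smul_right, pf_self]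
  field_simp
  ring

theorem quo {x D M : ℝ} (hD : 1 ≤ D) (h : |x| ≤ M) : |x / D| ≤ M := by
  rw [abs_div, abs_of_pos (one_pos.trans_le hD)]
  exact (div_le_self (abs_nonneg _) hD).trans h

theorem rest {p x y η M : ℝ} (hp : |p| ≤ η) (hx : |x| ≤ M) (h : |-p * x + y| ≤ η) :
    |y| ≤ η * M + η := by
  have h1 := abs_add_le (p * x) (-p * x + y)
  rw [show p * x + (-p * x + y) = y by ring, abs_mul] at h1
  have := mul_le_mul hp hx (abs_nonneg _) ((abs_nonneg _).trans hp)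
  linarith

end EAlgA

open EAlgA

theorem rowEAlg : OfEAlg := by
  refine fun hJ hG => ⟨2000000, by norm_num, ?_⟩
  intro A₁ A₂ Y W L η hL hη d1 d2 D1 D2 v1 v2 hα h
  have hu : ∀ i, tl A₂ Y (dir W i) = dir (fun a => tl A₂ Y (W a)) i := fun i => by
    rw [dir, dir, (hJ.tl _ _ _ _ 0).2, (hJ.tl _ _ _ _ 0).2, (hJ.tl _ _ _ 0 _).1, (hJ.tl _ _ _ 0 _).1]
  have L2 : L ≤ L ^ 2 := by nlinarith
  have L3 : L ^ 2 ≤ L ^ 3 := by nlinarith
  have e1 : η ≤ L * η := le_mul_of_one_le_left hη hL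
  have e2 := mul_le_mul_of_nonneg_right L2 hη
  have e3 := mul_le_mul_of_nonneg_right L3 hη
  have D0 := one_pos.trans_le D1
  have j1 : ∀ i, |pf A₁ Y (tl A₂ Y (dir W i))| ≤ η := fun i => by
    simpa only [jet, abs_neg] using (h i).2.2 1
  have j3 : ∀ i, |qf A₂ (tl A₂ Y (dir W i))| *
      |pf (A₁ - (pf A₁ Y (bv 4) / pf A₂ Y (bv 4)) • A₂) (tl A₂ Y (dir W i)) (bv 4)|
        ≤ 2 * L ^ 3 * η := fun i => by
    have := rest (j1 i) (quo (one_le_pow₀ D1) (h i).2.1.2) ((h i).2.2 3)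
    rw [← pfG, abs_mul, abs_div, abs_of_pos D0, div_mul_eq_mul_div, div_le_iff₀ D0] at this
    have := mul_le_mul_of_nonneg_left D2 (show 0 ≤ η * L ^ 2 + η by positivity)
    nlinarith
  obtain ⟨k, hk⟩ : ∃ k : Fin 3 × Fin 3,
      curv A₂ Y W ≤ |pf A₂ (tl A₂ Y (W k.1)) (tl A₂ Y (W k.2))| := by
    obtain ⟨k, hk⟩ := Finite.exists_max
      fun k : Fin 3 × Fin 3 => |pf A₂ (tl A₂ Y (W k.1)) (tl A₂ Y (W k.2))|
    exact ⟨k, (pi_norm_le_iff_of_nonneg (abs_nonneg _)).2 hk⟩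
  obtain ⟨m, hm⟩ := Finite.exists_max fun i => |qf A₂ (dir (fun a => tl A₂ Y (W a)) i)|
  have c0 : 0 ≤ curv A₂ Y W := norm_nonneg _
  have c1 := hk.trans (hG.quad A₂ _ _ hm k.1 k.2)
  rw [← hu] at c1
  have c2 : curv A₂ Y W ^ 2 * |qf (A₁ - (pf A₁ Y (bv 4) / pf A₂ Y (bv 4)) • A₂) (bv 4)|
      ≤ 400 * (L ^ 2 * η) := by
    have := (h m).2.2 4
    rw [jet, ← qfG, abs_mul, abs_pow, abs_div, abs_of_pos D0, div_pow, div_mul_eq_mul_div,
      div_le_iff₀ (by positivity)] at this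
    have h1 := mul_le_mul_of_nonneg_left (pow_le_pow_left₀ D0.le D2 2) hη
    have h2 := mul_le_mul_of_nonneg_right (pow_le_pow_left₀ c0 c1 2)
      (abs_nonneg (qf (A₁ - (pf A₁ Y (bv 4) / pf A₂ Y (bv 4)) • A₂) (bv 4)))
    rw [mul_pow, mul_assoc] at h2
    linarith
  refine ⟨⟨d1, by linarith⟩, ⟨D1, by linarith⟩, ⟨by linarith, by linarith⟩, fun a => ?_,
    fun a b => ?_, fun a => ?_, by linarith, fun a => ?_, ?_⟩
  · have := hG.lin (fun a => pf A₁ (tl A₂ Y (W a)) Y) η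
      (fun i => by have := j1 i; rwa [hu, pf_comm, pdir] at this) a
    rw [pf_comm] at this
    linarith
  · have := hG.quad (A₁ - (pf A₁ Y (bv 4) / pf A₂ Y (bv 4)) • A₂) (fun a => tl A₂ Y (W a)) _
      (fun i => by rw [← hu, qfG]; exact rest (j1 i) (quo D1 (h i).2.1.1) ((h i).2.2 2)) a b
    linarith
  · have := hG.prod A₂ (fun a => tl A₂ Y (W a)) (fun a => pf (A₁ - (pf A₁ Y (bv 4) /
      pf A₂ Y (bv 4)) • A₂) (tl A₂ Y (W a)) (bv 4)) (2 * L ^ 3 * η)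
      (fun i => by have := j3 i; rwa [hu, pdir] at this) k.1 k.2 a
    exact (mul_le_mul_of_nonneg_right hk (abs_nonneg _)).trans (this.trans_eq (by ring))
  · have := hG.lin (fun a => pf A₁ (tl A₂ Y (W a)) (bv 4)) (L + 2) (fun i => by
      rw [← pdir A₁ fun a => tl A₂ Y (W a), ← hu, tl1 _ _ _ _ (one_pos.trans_le d1).ne']
      refine (abs_add_le _ _).trans (add_le_add (h i).1.1 ?_)
      rw [abs_mul, abs_mul, abs_two]
      have h1 := mul_le_mul_of_nonneg_right (quo d1 (j1 i)) (abs_nonneg (qf A₁ (bv 4)))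
      have h2 := mul_le_mul_of_nonneg_left (show η ≤ 2000000 * L ^ 3 * η by linarith)
        (abs_nonneg (qf A₁ (bv 4)))
      linarith) a
    linarith
  · rcases le_or_gt (curv A₂ Y W) (2000000 * L ^ 3 * η) with c | c
    · rw [max_eq_right c]; linarith
    · rw [max_eq_left c.le]
      have h1 : |qf A₁ (bv 4)| ≤ |qf (A₁ - (pf A₁ Y (bv 4) / pf A₂ Y (bv 4)) • A₂) (bv 4)| +
          L * |qf A₂ (bv 4)| := by
        have := abs_add_le (qf A₁ (bv 4) - pf A₁ Y (bv 4) / pf A₂ Y (bv 4) * qf A₂ (bv 4))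
          (pf A₁ Y (bv 4) / pf A₂ Y (bv 4) * qf A₂ (bv 4))
        rw [sub_add_cancel, ← qfG, abs_mul] at this
        exact this.trans (add_le_add le_rfl (mul_le_mul_of_nonneg_right
          (quo D1 ((abs_of_pos (one_pos.trans_le d1)).trans_le d2)) (abs_nonneg _)))
      have h2 : |qf (A₁ - (pf A₁ Y (bv 4) / pf A₂ Y (bv 4)) • A₂) (bv 4)| * curv A₂ Y W ≤ 1 :=
        le_of_mul_le_mul_left (a := curv A₂ Y W) (by linarith) (by linarith)
      have h3 := (h m).2.1.2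
      rw [abs_mul] at h3
      have h4 := mul_le_mul_of_nonneg_left ((mul_le_mul_of_nonneg_left c1
        (abs_nonneg (qf A₂ (bv 4)))).trans (show _ ≤ 20 * L ^ 2 by linarith)) (zero_le_one.trans hL)
      have h5 := mul_le_mul_of_nonneg_right h1 c0
      nlinarith

end Pool.Agent.MP_5168f5_an.R4
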