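import Pool.Agent.MP_5168f5_an.R4.SpecE3

/-! The number of values of the coordinates in a cell. -/

namespace Pool.Agent.MP_5168f5_an.R4

open H19 H17S H17F Matrix

namespace ECntA

variable {Ω α β : Type} {P : FP Ω} {G : Ω → β}

theorem det1 {x : Ω → ℝ} {j : ℕ} {B B' : ℝ} (hB : 1 ≤ B) (hB' : 5 * B ≤ B')
    (h : ∀ a ∈ P.S, ∀ b ∈ P.S, G a = G b → |x a - x b| ≤ B / 2 ^ j) :
    Det P (fun ω => fl1 j (x ω)) G B' := fun a ha => by
  obtain ⟨T, h1, h2⟩ := det_fl1_near (P := P) (x := x) (G := G) (j := fun _ => j) (n := ⌈B⌉₊)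
    (fun _ _ _ _ _ => rfl) (fun a ha b hb e => (h a ha b hb e).trans
      (mul_le_mul_of_nonneg_right (Nat.le_ceil B) (by positivity))) a ha
  exact ⟨T, by linarith [Nat.ceil_lt_add_one (show 0 ≤ B by linarith)], h2⟩

theorem det2 {F : Ω → α} (σ : Ω → Prop) {B : ℝ} (hB : 0 ≤ B)
    (h : Det P F (fun ω => (G ω, σ ω)) B) : Det P F G (2 * B) := fun a _ => by
  classical
  have k : ∀ q : Prop, ∃ T : Finset α, (T.card : ℝ) ≤ B ∧
      ∀ b ∈ P.S, G b = G a → σ b = q → F b ∈ T := fun q => by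
    by_cases e : ∃ c ∈ P.S, G c = G a ∧ σ c = q
    · obtain ⟨c, hc, e, e'⟩ := e
      obtain ⟨T, h1, h2⟩ := h c hc
      exact ⟨T, h1, fun b hb u v => h2 b hb (Prod.ext (u.trans e.symm) (v.trans e'.symm))⟩
    · exact ⟨∅, by simpa, fun b hb u v => absurd ⟨b, hb, u, v⟩ e⟩
  obtain ⟨T, h1, h2⟩ := k True
  obtain ⟨T', h3, h4⟩ := k False
  refine ⟨T ∪ T', (Nat.cast_le.2 (Finset.card_union_le T T')).trans (by push_cast; linarith),
    fun b hb e => Finset.mem_union.2 ((em (σ b)).imp (fun u => h2 b hb e (eq_true u))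
      fun u => h4 b hb e (eq_false u))⟩

theorem sc {j a : ℕ} (h : j ≤ a) (B : ℝ) : B * 2 ^ (a - j) / 2 ^ a = B * ((2 : ℝ) ^ j)⁻¹ := by
  obtain ⟨i, rfl⟩ := Nat.exists_eq_add_of_le h
  rw [Nat.add_sub_cancel_left, pow_add]
  field_simp

theorem num {x y f D D' u u' w w' q q' L L' r : ℝ} (hL : 1 ≤ L') (hx : |x| ≤ r) (hy : |y| ≤ r)
    (hu : |u| ≤ L) (hu' : |u'| ≤ L) (hw : |w| ≤ L) (hw' : |w'| ≤ L) (hq : |q| ≤ L * r)
    (hq' : |q'| ≤ L * r) (hD : 1 ≤ L' * |D|) (hD' : 1 ≤ L' * |D'|) (hs : 0 ≤ D ↔ 0 ≤ D')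
    (e : q - q' = (x * u + y * w + f * D + (x * u' + y * w' + f * D')) / 2) :
    |f| ≤ 4 * L * L' * r := by
  have h1 : |D + D'| = |D| + |D'| := by
    rcases le_or_gt 0 D with h | h
    · rw [abs_of_nonneg h, abs_of_nonneg (hs.1 h), abs_of_nonneg (add_nonneg h (hs.1 h))]
    · have h' := not_le.1 (mt hs.2 h.not_ge)
      rw [abs_of_neg h, abs_of_neg h', abs_of_neg (add_neg h h'), neg_add]
  have k : ∀ {a b : ℝ}, |a| ≤ r → |b| ≤ L → |a * b| ≤ L * r := fun ha hb => by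
    rw [abs_mul, mul_comm L]
    exact mul_le_mul ha hb (abs_nonneg _) ((abs_nonneg _).trans ha)
  have h2 : |f| * (|D| + |D'|) ≤ 8 * (L * r) := by
    rw [← h1, ← abs_mul, abs_le]
    have := abs_le.1 (k hx hu)
    have := abs_le.1 (k hx hu')
    have := abs_le.1 (k hy hw)
    have := abs_le.1 (k hy hw')
    rw [abs_le] at hq hq'
    constructor <;> linarith [hq.1, hq.2, hq'.1, hq'.2]
  have h3 := mul_le_mul_of_nonneg_left h2 (show 0 ≤ L' by linarith)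
  have h4 := mul_le_mul_of_nonneg_left (add_le_add hD hD') (abs_nonneg f)
  linarith

end ECntA

open ECntA in
theorem rowECnt : ECnt := by
  refine ⟨40, by norm_num, fun {W} Q g s L j m p a hL h => ⟨fun hj => ⟨fun v hv => ?_, ?_⟩,
    fun hm => ?_, fun L' hL' hp hD => ?_⟩⟩
  · obtain ⟨i, rfl⟩ := Nat.exists_eq_add_of_le hj
    refine ⟨_, ?_, fun w hw e => fl1_mem_Ico (congrArg (·.2.2.2.2.2.1) (h.fn w hw v hv e))⟩
    rw [Int.card_Ico, add_sub_cancel_left, Nat.add_sub_cancel_left,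
      show ((2 : ℤ) ^ i) = ((2 ^ i : ℕ) : ℤ) by push_cast; rfl, Int.toNat_natCast]
    push_cast
    exact le_rfl
  · have h0 : (1 : ℝ) ≤ L * 2 ^ (a - j) := one_le_mul_of_one_le_of_one_le hL (one_le_pow₀ one_le_two)
    refine det1 (B := 3 * L * 2 ^ (a - j)) (by linarith) (by linarith) fun v hv w hw e => ?_
    simp only [Geo.zt, Prod.mk.injEq] at e
    have h1 := (abs_sub_lt_of_fl1_eq
      (congrFun (congrArg (·.2.2.2.2.2.2) (h.fn v hv w hw e.1)) 0)).le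
    have h2 := fl1_le j (g.z w)
    have h3 := lt_fl1 j (g.z w)
    have h4 := abs_le.1 ((h.bx.bd v hv).1 0).2
    have h5 := abs_le.1 ((h.bx.bd w hw).1 0).2
    simp only [Geo.pt, Geo.lt, Geo.z0, Pi.add_apply, Pi.smul_apply, smul_eq_mul, e.2.1] at h1 ⊢
    rw [sc hj, abs_le] at *
    generalize ((2 : ℝ) ^ j)⁻¹ * fl1 j (g.z w) = z0 at *
    generalize ((2 : ℝ) ^ j)⁻¹ = r at *
    constructor <;> nlinarith [h1.1, h1.2, h4.1, h4.2, h5.1, h5.2]
  · have h0 : (1 : ℝ) ≤ L * 2 ^ (a - m) := one_le_mul_of_one_le_of_one_le hL (one_le_pow₀ one_le_two)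
    refine det1 (B := 3 * L * 2 ^ (a - m)) (by linarith) (by linarith) fun v hv w hw e => ?_
    simp only [Geo.zt, Prod.mk.injEq] at e
    have h1 := (abs_sub_lt_of_fl1_eq (fl1_eq_of_le hm e.1)).le
    have hd : s.d false v = s.d false w := congrArg (·.2.1) (h.fn v hv w hw e.2.1)
    obtain ⟨-, -, h2⟩ := (h.fit v hv).2 false
    obtain ⟨-, h3, h4⟩ := (h.fit w hw).2 false
    have h5 := h2 _ rfl
    have h6 := h4 _ rfl
    have h7 : |(s.d false w).2.2 0 * (g.pt v 0 - g.pt w 0)| ≤ L * (2 ^ m)⁻¹ := by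
      rw [abs_mul]
      exact mul_le_mul (h3 0).1 h1 (abs_nonneg _) (by linarith)
    rw [Fin.sum_univ_three, div_eq_mul_inv] at h5 h6
    rw [hd] at h5
    rw [(h3 1).2 (by decide), (h3 2).2 (by decide)] at h5 h6
    change |g.pt v 1 - _ - _ - (_ * g.pt v 0 + _ + _)| ≤ _ at h5
    change |g.pt w 1 - _ - _ - (_ * g.pt w 0 + _ + _)| ≤ _ at h6
    rw [e.2.2.1] at h5
    rw [sc hm, abs_le] at *
    constructor <;> linarith [h5.1, h5.2, h6.1, h6.2, h7.1, h7.2]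
  · have h0 : (1 : ℝ) ≤ L * L' := one_le_mul_of_one_le_of_one_le hL hL'
    rw [show 40 * L * L' = 2 * (20 * L * L') by ring]
    refine det2 (fun v => 0 ≤ g.dv (s.A v) v) (by linarith)
      (det1 (B := 4 * L * L') (by linarith) (by linarith) fun v hv w hw e => ?_)
    simp only [Geo.zt, Prod.mk.injEq, eq_iff_iff] at e
    obtain ⟨⟨e0, e1, eS, ez, -⟩, es⟩ := e
    have hA : s.A v = s.A w := congrArg (·.1) (h.fn v hv w hw eS)
    have h1 := (h.fit v hv).1 _ rfl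
    have h2 := (h.fit w hw).1 _ rfl
    have h3 := hD v hv
    rw [hA] at h1 h3 es
    have h4 : L / 2 ^ p ≤ L * (2 ^ a)⁻¹ :=
      div_le_div_of_nonneg_left (by linarith) (by positivity) (pow_le_pow_right₀ one_le_two hp)
    have h5 : g.hp v - g.hp w = vec 0 (g.pt v - g.pt w) := by
      funext i; fin_cases i <;> simp [Geo.hp, hom, vec, ez]
    have h6 := qf_sub_qf (s.A w) (g.hp v) (g.hp w)
    simp only [h5, vec_eq, pf_add_right, pf_smul_right, zero_mul, zero_add] at h6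
    exact num hL' (abs_sub_lt_of_fl1_eq e0).le (abs_sub_lt_of_fl1_eq e1).le (h1.2 1) (h2.2 1)
      (h1.2 2) (h2.2 2) (h1.1.trans h4) (h2.1.trans h4) h3 (hD w hw) es h6

end Pool.Agent.MP_5168f5_an.R4
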