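import Pool.Agent.MP_5168f5_an.R4.SpecE3

/-! The gradient is controlled by the last derivative. -/

namespace Pool.Agent.MP_5168f5_an.R4

open H19 H17S H17F Matrix Filter

namespace EDnAA

theorem num {s k r : ℕ} {x y Γ D L K : ℝ} (hr : r ≤ k) (hL : 1 ≤ L) (hK : 8 * L ≤ K) (hD : 0 ≤ D)
    (h1 : |x - y| ≤ 3 * L / 2 ^ s) (h2 : |Γ| ≤ 2 * L)
    (h3 : |(x - y) * Γ| ≤ 6 * L / 2 ^ (s + k) + 3 * L / 2 ^ s * D) :
    |(fl1 (s + k) x : ℝ) - fl1 (s + k) y| ≤ K * 2 ^ k ∧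
      |((fl1 (s + k) x : ℝ) - fl1 (s + k) y) / 2 ^ k * Γ| ≤ K / 2 ^ r + K * D := by
  obtain ⟨θ, e, hθ⟩ : ∃ θ : ℝ, (fl1 (s + k) x : ℝ) - fl1 (s + k) y = θ + 2 ^ k * (2 ^ s * (x - y)) ∧
      |θ| ≤ 1 := by
    refine ⟨_, (sub_add_cancel _ _).symm, ?_⟩
    have a1 := Int.floor_le ((2 : ℝ) ^ (s + k) * x)
    have a2 := Int.lt_floor_add_one ((2 : ℝ) ^ (s + k) * x)
    have a3 := Int.floor_le ((2 : ℝ) ^ (s + k) * y)
    have a4 := Int.lt_floor_add_one ((2 : ℝ) ^ (s + k) * y)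
    rw [← mul_assoc, ← pow_add, add_comm k s, abs_le, fl1, fl1]
    constructor <;> linarith
  have s0 : (0 : ℝ) < 2 ^ s := by positivity
  have k1 : (1 : ℝ) ≤ 2 ^ k := one_le_pow₀ one_le_two
  rw [le_div_iff₀ s0] at h1
  rw [e]
  refine ⟨(abs_add_le _ _).trans ?_, ?_⟩
  · rw [abs_mul, abs_mul, abs_of_pos s0, abs_of_nonneg (zero_le_one.trans k1)]
    nlinarith
  · rw [show (θ + 2 ^ k * (2 ^ s * (x - y))) / 2 ^ k * Γ = θ * Γ / 2 ^ k + 2 ^ s * ((x - y) * Γ) by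
      field_simp]
    refine (abs_add_le _ _).trans ?_
    have b1 : |θ * Γ / 2 ^ k| ≤ 2 * L / 2 ^ k := by
      rw [abs_div, abs_mul, abs_of_nonneg (zero_le_one.trans k1)]
      exact div_le_div_of_nonneg_right ((mul_le_of_le_one_left (abs_nonneg _) hθ).trans h2)
        (by positivity)
    have b2 : |2 ^ s * ((x - y) * Γ)| ≤ 6 * L / 2 ^ k + 3 * L * D := by
      rw [abs_mul, abs_of_pos s0]
      refine (mul_le_mul_of_nonneg_left h3 s0.le).trans (le_of_eq ?_)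
      rw [pow_add]; field_simp
    have b3 : 8 * L / 2 ^ k ≤ K / 2 ^ r :=
      div_le_div₀ (by linarith) hK (by positivity) (pow_le_pow_right₀ one_le_two hr)
    have b4 : 8 * L / 2 ^ k = 2 * L / 2 ^ k + 6 * L / 2 ^ k := by ring
    nlinarith

theorem win (j : ℕ) (z : ℝ) : ∃ σ : ℝ, |σ| = 1 / 4 ∧ fl1 j (z + σ / 2 ^ j) = fl1 j z ∧
    fl1 j (z + 2 * (σ / 2 ^ j)) = fl1 j z := by
  have a1 := Int.floor_le ((2 : ℝ) ^ j * z)
  have a2 := Int.lt_floor_add_one ((2 : ℝ) ^ j * z)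
  have e : ∀ c σ : ℝ, (2 : ℝ) ^ j * (z + c * (σ / 2 ^ j)) = 2 ^ j * z + c * σ := fun c σ => by
    field_simp
  have e' : ∀ σ : ℝ, (2 : ℝ) ^ j * (z + σ / 2 ^ j) = 2 ^ j * z + σ := fun σ => by field_simp
  unfold fl1
  rcases lt_or_ge ((2 : ℝ) ^ j * z) (⌊(2 : ℝ) ^ j * z⌋ + 1 / 2) with h | h
  · refine ⟨1 / 4, by norm_num, ?_, ?_⟩ <;> rw [Int.floor_eq_iff] <;> simp only [e, e'] <;>
      constructor <;> linarith
  · refine ⟨-(1 / 4), by norm_num, ?_, ?_⟩ <;> rw [Int.floor_eq_iff] <;> simp only [e, e'] <;>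
      constructor <;> linarith

variable {W : Type} {g : Geo 3 W} {Q : FP W} {s : Lq W} {L : ℝ} {j m p : ℕ}

/-- The derivative along the line. -/
theorem along {A : Qd} {v : W} (h : g.wf L A v j p) :
    |pf A (g.hp v) (vec 1 (g.e v))| ≤ 16 * (L / 2 ^ p) * 2 ^ j := by
  obtain ⟨σ, h0, h1, h2⟩ := win j (g.z v)
  have a0 := abs_le.1 (h _ rfl).1
  have a1 := abs_le.1 (h _ h1).1
  have a2 := abs_le.1 (h _ h2).1
  rw [hom_lt, qf_add, pf_smul_right, qf_smul] at a1 a2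
  have b : |σ / 2 ^ j * pf A (g.hp v) (vec 1 (g.e v))| ≤ 4 * (L / 2 ^ p) := by
    unfold Geo.hp Geo.pt
    rw [abs_le]
    constructor <;> linarith [a0.1, a0.2, a1.1, a1.2, a2.1, a2.2]
  rw [abs_mul, abs_div, h0, abs_of_pos (by positivity : (0 : ℝ) < 2 ^ j), div_mul_eq_mul_div,
    div_le_iff₀ (by positivity)] at b
  linarith

theorem ident (A : Qd) {a b : W} (e : g.z a = g.z b) :
    (g.pt a 0 - g.pt b 0) * (pf A (g.hp a) (bv 2) + pf A (g.hp b) (bv 2)) +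
      (g.pt a 1 - g.pt b 1) * (pf A (g.hp a) (bv 3) + pf A (g.hp b) (bv 3)) +
      (g.pt a 2 - g.pt b 2) * (pf A (g.hp a) (bv 4) + pf A (g.hp b) (bv 4)) =
      2 * (qf A (g.hp a) - qf A (g.hp b)) := by
  have : g.hp a - g.hp b = vec 0 (g.pt a - g.pt b) := by
    funext i; fin_cases i <;> simp [Geo.hp, hom, vec, e]
  rw [qf_sub_qf, this, vec_eq]
  simp only [pf_add_right, pf_smul_right, Pi.sub_apply]
  ring

theorem cell (h : s.Alg g Q L j m p) (hL : 1 ≤ L) {a b : W} (ha : a ∈ Q.S) (hb : b ∈ Q.S)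
    (e : s.S a = s.S b) (ez : g.z a = g.z b) (i : Fin 3) : |g.pt a i - g.pt b i| ≤ 3 * L / 2 ^ j := by
  have h1 := abs_le.1 (abs_sub_lt_of_fl1_eq
    (congrFun (congrArg (·.2.2.2.2.2.2) (h.fn a ha b hb e)) i)).le
  have h2 : ∀ c ∈ Q.S, |(g.z c - g.z0 j c) * g.e c i| ≤ L * (2 ^ j)⁻¹ := fun c hc => by
    rw [abs_mul, mul_comm]
    refine mul_le_mul ((h.bx.bd c hc).1 i).2 ?_ (abs_nonneg _) (by linarith)
    rw [Geo.z0, abs_of_nonneg (by linarith [fl1_le j (g.z c)])]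
    linarith [lt_fl1 j (g.z c)]
  have a1 := abs_le.1 (h2 a ha)
  have a2 := abs_le.1 (h2 b hb)
  have a3 : ((2 : ℝ) ^ j)⁻¹ ≤ L * (2 ^ j)⁻¹ := le_mul_of_one_le_left (by positivity) hL
  simp only [Geo.pt, Geo.lt, Pi.add_apply, Pi.smul_apply, smul_eq_mul] at h1 ⊢
  rw [div_eq_mul_inv, abs_le]
  constructor <;> linarith [h1.1, h1.2, a1.1, a1.2, a2.1, a2.2]

theorem plane (h : s.Alg g Q L j m p) (hm : m ≤ p) {a b : W} (ha : a ∈ Q.S) (hb : b ∈ Q.S)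
    (e : s.S a = s.S b) (ez : g.z a = g.z b) (ex : g.cx p 0 a = g.cx p 0 b) (k : Bool) :
    |g.pt a (co k) - g.pt b (co k)| ≤ 3 * L / 2 ^ m := by
  have e1 : s.d k a = s.d k b := by
    cases k
    exacts [congrArg (·.2.1) (h.fn a ha b hb e), congrArg (·.2.2.1) (h.fn a ha b hb e)]
  obtain ⟨-, a1, a2⟩ := (h.fit a ha).2 k
  have a3 := abs_le.1 (a2 _ rfl)
  have a4 := abs_le.1 (((h.fit b hb).2 k).2.2 _ rfl)
  have a5 : |(s.d k a).2.2 0 * (g.pt a 0 - g.pt b 0)| ≤ L / 2 ^ m := by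
    rw [abs_mul, div_eq_mul_inv]
    exact mul_le_mul (a1 0).1 ((abs_sub_lt_of_fl1_eq ex).le.trans (inv_anti₀ (by positivity)
      (pow_le_pow_right₀ one_le_two hm))) (abs_nonneg _) ((abs_nonneg _).trans (a1 0).1)
  rw [← e1, ← ez] at a4
  rw [Fin.sum_univ_three, (a1 1).2 (by decide), (a1 2).2 (by decide)] at a3 a4
  rw [abs_le] at a5
  rw [mul_div_assoc, abs_le]
  unfold Geo.pt at *
  rw [← ez] at *
  constructor <;> linarith [a3.1, a3.2, a4.1, a4.2, a5.1, a5.2]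

theorem bound (h : s.Alg g Q L j m p) {a b : W} (ha : a ∈ Q.S) (hb : b ∈ Q.S) (e : s.S a = s.S b) :
    s.A b = s.A a ∧ |2 * (qf (s.A a) (g.hp a) - qf (s.A a) (g.hp b))| ≤ 4 * (L / 2 ^ p) ∧
      ∀ i : Fin 4, |pf (s.A a) (g.hp a) (bv i.succ) + pf (s.A a) (g.hp b) (bv i.succ)| ≤ 2 * L := by
  have e1 : s.A b = s.A a := (congrArg (·.1) (h.fn a ha b hb e)).symm
  obtain ⟨a1, a2⟩ := (h.fit a ha).1 _ rfl
  obtain ⟨b1, b2⟩ := (h.fit b hb).1 _ rfl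
  rw [e1] at b1 b2
  refine ⟨e1, ?_, fun i => (abs_add_le _ _).trans ((add_le_add (a2 i) (b2 i)).trans (by linarith))⟩
  rw [abs_le] at a1 b1 ⊢
  unfold Geo.hp Geo.pt
  constructor <;> linarith [a1.1, a1.2, b1.1, b1.2]

theorem mul_add_le {d ε u v : ℝ} (h : |d| ≤ ε) : |d * (u + v)| ≤ ε * (|u| + |v|) := by
  rw [abs_mul]
  exact mul_le_mul h (abs_add_le _ _) (abs_nonneg _) ((abs_nonneg _).trans h)

theorem stepx {K : ℝ} {k r : ℕ} (h : s.Alg g Q L j m (j + k)) (hL : 1 ≤ L) (hK : 8 * L ≤ K)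
    (hr : r ≤ k) {a b : W} (ha : a ∈ Q.S) (hb : b ∈ Q.S) (e : (s.S a, g.zt a) = (s.S b, g.zt b)) :
    |(g.cx (j + k) 0 a : ℝ) - g.cx (j + k) 0 b| ≤ K * 2 ^ k ∧
      |((g.cx (j + k) 0 a : ℝ) - g.cx (j + k) 0 b) / 2 ^ k *
        (pf (s.A a) (g.hp a) (bv 2) + pf (s.A b) (g.hp b) (bv 2))| ≤ K / 2 ^ r +
        K * (|(|pf (s.A a) (g.hp a) (bv 3)| + |g.dv (s.A a) a|)| +
          |(|pf (s.A b) (g.hp b) (bv 3)| + |g.dv (s.A b) b|)|) := by
  have e1 := congrArg Prod.fst e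
  have ez : g.z a = g.z b := congrArg (·.2.1) e
  obtain ⟨c1, c2, c3⟩ := bound h ha hb e1
  rw [c1]
  refine num hr hL hK (by positivity) (cell h hL ha hb e1 ez 0) (c3 1) ?_
  have d1 := abs_le.1 (mul_add_le (u := pf (s.A a) (g.hp a) (bv 3))
    (v := pf (s.A a) (g.hp b) (bv 3)) (cell h hL ha hb e1 ez 1))
  have d2 := abs_le.1 (mul_add_le (u := pf (s.A a) (g.hp a) (bv 4))
    (v := pf (s.A a) (g.hp b) (bv 4)) (cell h hL ha hb e1 ez 2))
  have d3 := ident (s.A a) ez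
  have d4 : 0 ≤ L / 2 ^ (j + k) := by positivity
  rw [abs_le] at c2
  have d5 : ∀ u v : ℝ, |(|u| + |v|)| = |u| + |v| := fun u v => abs_of_nonneg (by positivity)
  rw [d5, d5, mul_div_assoc, abs_le, Geo.dv, Geo.dv]
  constructor <;> linarith [d1.1, d1.2, d2.1, d2.2, c2.1, c2.2]

theorem stepu {K : ℝ} {k r : ℕ} (h : s.Alg g Q L j m (m + k)) (hL : 1 ≤ L) (hK : 8 * L ≤ K)
    (hr : r ≤ k) {a b : W} (ha : a ∈ Q.S) (hb : b ∈ Q.S)
    (e : (g.cx (m + k) 0 a, s.S a, g.zt a) = (g.cx (m + k) 0 b, s.S b, g.zt b)) :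
    |(g.cx (m + k) 1 a : ℝ) - g.cx (m + k) 1 b| ≤ K * 2 ^ k ∧
      |((g.cx (m + k) 1 a : ℝ) - g.cx (m + k) 1 b) / 2 ^ k *
        (pf (s.A a) (g.hp a) (bv 3) + pf (s.A b) (g.hp b) (bv 3))| ≤ K / 2 ^ r +
        K * (|g.dv (s.A a) a| + |g.dv (s.A b) b|) := by
  have e0 := congrArg Prod.fst e
  have e1 : s.S a = s.S b := congrArg (·.2.1) e
  have ez : g.z a = g.z b := congrArg (·.2.2.1) e
  obtain ⟨c1, c2, c3⟩ := bound h ha hb e1
  have pl := plane h (Nat.le_add_right m k) ha hb e1 ez e0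
  rw [c1]
  refine num hr hL hK (by positivity) (pl false) (c3 2) ?_
  have d1 : |(g.pt a 0 - g.pt b 0) * (pf (s.A a) (g.hp a) (bv 2) + pf (s.A a) (g.hp b) (bv 2))| ≤
      2 * (L / 2 ^ (m + k)) := by
    rw [abs_mul, mul_comm, ← mul_div_assoc, div_eq_mul_inv]
    exact mul_le_mul (c3 1) (abs_sub_lt_of_fl1_eq e0).le (abs_nonneg _) (by linarith)
  have d2 : |(g.pt a 2 - g.pt b 2) * _| ≤ _ := mul_add_le (u := pf (s.A a) (g.hp a) (bv 4))
    (v := pf (s.A a) (g.hp b) (bv 4)) (pl true)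
  have d3 := ident (s.A a) ez
  rw [abs_le] at c2 d1 d2
  rw [mul_div_assoc, abs_le, Geo.dv, Geo.dv]
  constructor <;> linarith [d1.1, d1.2, d2.1, d2.2, c2.1, c2.2]

theorem stept {L' : ℝ} {k : ℕ} (h : s.Alg g Q L j m (j + k)) (hL : 1 ≤ L) (hL' : 1 ≤ L')
    (hk : 32 * (L' * L) ≤ 2 ^ k) {v : W} (hv : v ∈ Q.S)
    (e : ∃ i : Fin 4, 1 ≤ L' * |pf (s.A v) (g.hp v) (bv i.succ)|) :
    1 ≤ 8 * (L' * L) * |pf (s.A v) (g.hp v) (bv 2)| ∨
      1 ≤ 8 * (L' * L) * |pf (s.A v) (g.hp v) (bv 3)| ∨ 1 ≤ 8 * (L' * L) * |g.dv (s.A v) v| := by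
  obtain ⟨i, e⟩ := e
  have up : ∀ t : ℝ, 1 ≤ L' * |t| → 1 ≤ 8 * (L' * L) * |t| := fun t c =>
    c.trans (mul_le_mul_of_nonneg_right (by nlinarith) (abs_nonneg _))
  fin_cases i
  · by_contra hn
    push Not at hn
    obtain ⟨n1, n2, n3⟩ := hn
    have a := along (h.fit v hv).1
    rw [vec_eq] at a
    simp only [pf_add_right, pf_smul_right, one_mul] at a
    have b : ∀ (i : Fin 3) (t : ℝ), |g.e v i * t| ≤ L * |t| := fun i t => by
      rw [abs_mul]; exact mul_le_mul_of_nonneg_right ((h.bx.bd v hv).1 i).2 (abs_nonneg _)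
    have b0 := abs_le.1 (b 0 (pf (s.A v) (g.hp v) (bv 2)))
    have b1 := abs_le.1 (b 1 (pf (s.A v) (g.hp v) (bv 3)))
    have b2 := abs_le.1 (b 2 (pf (s.A v) (g.hp v) (bv 4)))
    have c : |pf (s.A v) (g.hp v) (bv 1)| ≤ 16 * L / 2 ^ k + (L * |pf (s.A v) (g.hp v) (bv 2)| +
        L * |pf (s.A v) (g.hp v) (bv 3)| + L * |pf (s.A v) (g.hp v) (bv 4)|) := by
      rw [show 16 * (L / 2 ^ (j + k)) * 2 ^ j = 16 * L / 2 ^ k by rw [pow_add]; field_simp,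
        abs_le] at a
      rw [abs_le]
      constructor <;> linarith [a.1, a.2, b0.1, b0.2, b1.1, b1.2, b2.1, b2.2]
    have d : L' * (16 * L / 2 ^ k) ≤ 1 / 2 := by
      rw [← mul_div_assoc, div_le_iff₀ (by positivity)]; linarith
    have f := (show 1 ≤ L' * |pf (s.A v) (g.hp v) (bv 1)| from e).trans
      (mul_le_mul_of_nonneg_left c (by linarith))
    unfold Geo.dv at n3
    linarith
  exacts [.inl (up _ e), .inr (.inl (up _ e)), .inr (.inr (up _ e))]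

end EDnAA

open EDnAA in
theorem rowEDnA : OfEDnA := by
  intro hD W Q g R j m p s L h sL hn
  obtain ⟨L0, s0, h0⟩ := h.alg
  obtain ⟨k, rfl⟩ : ∃ k : ℕ → ℕ, p = fun n => m n + k n :=
    ⟨fun n => p n - m n, funext fun n => by have := h.le n; beta_reduce; omega⟩
  obtain ⟨i, rfl⟩ : ∃ i : ℕ → ℕ, m = fun n => j n + i n :=
    ⟨fun n => m n - j n, funext fun n => by have := (h.le n).1; beta_reduce; omega⟩
  beta_reduce at h hn h0
  have fr : Frac (fun n => min (R n) (k n)) R := by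
    obtain ⟨ε, a, b⟩ := not_Le hn
    refine ⟨fun n => min_le_left _ _, min ε 1, lt_min a one_pos, b.mono fun n u => ?_⟩
    have r0 : (0 : ℝ) ≤ R n := Nat.cast_nonneg _
    push_cast at u ⊢
    exact le_min (mul_le_of_le_one_left r0 (min_le_right _ _))
      ((mul_le_mul_of_nonneg_right (min_le_left _ _) r0).trans (by linarith))
  have hB := h.big.frac fr
  have sK := ((sL.mul s0).frac fr).const_mul hB (C := 8) (by norm_num)
  have l8 : ∀ n, 8 * L0 n ≤ 8 * (L n * L0 n) := fun n => by nlinarith [sL.1 n, s0.1 n]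
  obtain ⟨Lx, sx, wx⟩ := hD Q (fun n => (g n).cx (j n + (i n + k n)) 0)
    (fun n v => ((s n).S v, (g n).zt v)) (fun n v => pf ((s n).A v) ((g n).hp v) (bv 2))
    (fun n v => |pf ((s n).A v) ((g n).hp v) (bv 3)| + |(g n).dv ((s n).A v) v|) _
    (fun n => i n + k n) _ hB sK (h0.mono fun n c => ⟨by omega, fun a ha b hb e =>
      stepx (by rwa [add_assoc] at c) (s0.1 n) (l8 n) (by omega) ha hb e⟩)
    ((h.ful.x.frac fr).of_sub (Eventually.of_forall fun n => by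
      simp only [add_assoc]; push_cast; linarith))
  have sU := (sK.mul sx).const_mul hB one_le_two
  have lu : ∀ n, 8 * (L n * L0 n) ≤ 2 * (8 * (L n * L0 n) * Lx n) ∧
      2 * Lx n ≤ 2 * (8 * (L n * L0 n) * Lx n) := fun n => by
    constructor <;> nlinarith [sK.1 n, sx.1 n]
  obtain ⟨Lu, su, wu⟩ := hD Q (fun n => (g n).cx (j n + i n + k n) 1)
    (fun n v => ((g n).cx (j n + i n + k n) 0 v, (s n).S v, (g n).zt v))
    (fun n v => pf ((s n).A v) ((g n).hp v) (bv 3)) (fun n v => (g n).dv ((s n).A v) v) _ k _ hB sU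
    (h0.mono fun n c => ⟨min_le_right _ _, fun a ha b hb e =>
      stepu c (s0.1 n) ((l8 n).trans (lu n).1) (min_le_right _ _) ha hb e⟩)
    ((h.ful.u.frac fr).of_sub (Eventually.of_forall fun n => by push_cast; linarith))
  refine ⟨_, (sU.mul su).up fr.1, (wx.and wu).mono ?_⟩
  filter_upwards [h0, (sK.const_mul hB (C := 4) (by norm_num)).2 _ one_half_pos] with n c d v hv
    ⟨a1, a2⟩ e
  have up : ∀ {A B t : ℝ}, A ≤ B → 1 ≤ A * |t| → 1 ≤ B * |t| := fun c d =>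
    d.trans (mul_le_mul_of_nonneg_right c (abs_nonneg _))
  have u1 : ∀ {A : ℝ}, A ≤ 2 * (8 * (L n * L0 n) * Lx n) → A ≤ 2 * (8 * (L n * L0 n) * Lx n) * Lu n :=
    fun c => c.trans (le_mul_of_one_le_right (sU.pos n).le (su.1 n))
  have u2 : ∀ {A : ℝ}, A ≤ 2 * (8 * (L n * L0 n) * Lx n) →
      1 ≤ A * |pf ((s n).A v) ((g n).hp v) (bv 3)| →
      1 ≤ 2 * (8 * (L n * L0 n) * Lx n) * Lu n * |(g n).dv ((s n).A v) v| := fun c d =>
    up (le_mul_of_one_le_left (su.pos n).le (sU.1 n)) (a2 (up c d))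
  rcases stept (k := i n + k n) (by rwa [add_assoc] at c) (s0.1 n) (sL.1 n) (by
    have := exp_le_two_pow (min (R n) (k n))
    have : (2 : ℝ) ^ min (R n) (k n) ≤ 2 ^ (i n + k n) := pow_le_pow_right₀ one_le_two (by omega)
    rw [one_div_mul_eq_div] at d
    linarith) hv e with t | t | t
  · have t1 := a1 t
    rw [abs_of_nonneg (add_nonneg (abs_nonneg _) (abs_nonneg _))] at t1
    rcases le_total |pf ((s n).A v) ((g n).hp v) (bv 3)| |(g n).dv ((s n).A v) v| with r | r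
    · exact up (u1 (lu n).2) (by nlinarith [sx.pos n])
    · exact u2 (lu n).2 (by nlinarith [sx.pos n])
  · exact u2 (lu n).1 t
  · exact up (u1 (lu n).1) t

end Pool.Agent.MP_5168f5_an.R4
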