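import Pool.Agent.MP_5168f5_an.R4.SpecE3

/-! Extension step for quadrics: the common rounding is a label. -/

namespace Pool.Agent.MP_5168f5_an.R4

open H19 H17S H17F Matrix Filter

namespace EFinA

theorem prod_eq {Ω Ω' : Type} (P : FP Ω) (U : FP Ω') :
    prod P U = glue P U (fun _ => ()) fun _ => () := by
  unfold prod glue cv
  simp only [cE_true]

theorem law_fst {Ω Ω' : Type} (P : FP Ω) (U : FP Ω') : Law (prod P U) Prod.fst P id := by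
  rw [prod_eq]; exact kg.fst _ _ _ _

/-- Independent noise carries no information. -/
theorem mi_noise {Ω Ω' α β γ : Type} (P : FP Ω) (U : FP Ω') (S : Ω → α) (c : Ω → β) (y : Ω → γ) :
    mi (prod P U) (fun v => (S v.1, v.2)) (fun v => c v.1) (fun v => y v.1) ≤ mi P S c y := by
  have e1 := (law_fst P U).ch_id c y
  have e2 := kg.mkv' P U (fun _ => ()) (fun _ => ()) c (fun ω => (S ω, y ω)) id
    (fun F => by simp only [FP.E_const]) fun _ _ _ _ _ => rfl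
  rw [← prod_eq] at e2
  have e3 : ch P c (fun ω => (S ω, y ω)) ≤ ch P c fun ω => ((), S ω, y ω) :=
    ch_anti (Fn.comp (fun x => ((), x)) _)
  have e4 : ch (prod P U) (fun v => c v.1) (fun v => (id v.2, S v.1, y v.1)) ≤
      ch (prod P U) (fun v => c v.1) fun v => ((S v.1, v.2), y v.1) :=
    ch_anti (Fn.comp (fun x : Ω' × α × γ => ((x.2.1, x.1), x.2.2)) _)
  rw [mi_symm, mi_symm S, mi, mi]
  linarith

theorem near {Ω α β γ δ : Type} {P : FP Ω} {lam : Ω → α} {S : Ω → β} (c : Ω → γ) {K : Ω → δ}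
    {N : ℝ} (h : Det P lam (fun v => (S v, K v)) N) : mi P lam c K ≤ mi P S c K + Real.log N := by
  rw [mi_symm, mi_symm S]
  exact (mi_near _ _ S _).trans (add_le_add le_rfl (ch_det h))

variable {W : Type} {Q : FP W} {g : Geo 3 W} {s₁ s₂ : Lq W} {L : ℝ} {j m q R p : ℕ}

theorem wc_eq {d : W → Pd} {a b : W} (e : g.wc j d a = g.wc j d b) :
    d a = d b ∧ g.z0 j a = g.z0 j b ∧ g.ox j a = g.ox j b ∧
      fl1 j (g.lt (g.z0 j a) a 0) = fl1 j (g.lt (g.z0 j b) b 0) := by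
  obtain ⟨e1, -, e2, e3⟩ : _ ∧ _ ∧ _ ∧ _ := by simpa only [Geo.wc, Prod.mk.injEq] using e
  have e4 : fl1 j (g.lt (g.z0 j a) a 0) = fl1 j (g.lt (g.z0 j b) b 0) := congrFun e3 0
  exact ⟨e1, by rw [Geo.z0, Geo.z0, e2], by rw [Geo.ox, Geo.ox, rd, rd, e4], e4⟩

theorem fn1 (h : LA Q g s₁ s₂ L j m q R) {T : FP (W × ℕ)} (hT : ∀ v ∈ T.S, v.1 ∈ Q.S) :
    Fn T (fun v => (s₁.A v.1, (mkL Q g s₁ s₂ j m q).O v, (mkL Q g s₁ s₂ j m q).W (q - j) v,
      g.dl j m (s₁.d false v.1) v.1, hom (g.z0 j v.1) (g.lt (g.z0 j v.1) v.1),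
      ((2 : ℝ) ^ j)⁻¹ • vec 1 (g.e v.1))) fun v => (s₁.S v.1, g.win j v.1) := by
  intro a ha b hb e
  obtain ⟨e0, ⟨e1, e2, -⟩, -⟩ : _ ∧ (_ ∧ _ ∧ _) ∧ _ := by
    simpa only [Geo.win, Geo.ln, Prod.mk.injEq] using e
  obtain ⟨k1, k2, k3, -⟩ := wc_eq (h.a₁.wc _ (hT a ha) _ (hT b hb) e0)
  have k4 : s₁.A a.1 = s₁.A b.1 := congrArg (·.1) (h.a₁.fn _ (hT a ha) _ (hT b hb) e0)
  unfold Lm.W
  simp only [mkL, Geo.dl, Geo.lt, k1, k2, k3, k4, e1, e2]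

theorem fn2 (h : LA Q g s₁ s₂ L j m q R) {T : FP (W × ℕ)} (hT : ∀ v ∈ T.S, v.1 ∈ Q.S)
    (hy : Fn Q (g.fp fun _ => p) g.y) (hq : q ≤ p) :
    Fn T (fun v => (s₂.A v.1, (mkL Q g s₁ s₂ j m q).Y v, (mkL Q g s₁ s₂ j m q).O v,
      (mkL Q g s₁ s₂ j m q).W (q - j) v, g.dl j m (s₁.d false v.1) v.1)) fun v =>
        ((s₂.S v.1, v.2), g.y v.1) := by
  intro a ha b hb e
  obtain ⟨⟨e0, e1⟩, e2⟩ : (_ ∧ _) ∧ _ := by simpa only [Prod.mk.injEq] using e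
  obtain ⟨k1, k2, k3, k5⟩ := wc_eq (h.a₂.wc _ (hT a ha) _ (hT b hb) e0)
  rw [← h.fr] at k1
  have k4 : s₂.A a.1 = s₂.A b.1 := congrArg (·.1) (h.a₂.fn _ (hT a ha) _ (hT b hb) e0)
  obtain ⟨e3, e4, -⟩ : _ ∧ _ ∧ _ := by
    simpa only [Geo.fp, Prod.mk.injEq] using hy _ (hT a ha) _ (hT b hb) e2
  have e5 : ∀ i, fl1 q (g.pt a.1 i) = fl1 q (g.pt b.1 i) := fun i =>
    fl1_eq_of_le hq (congrFun e3 i)
  unfold Lm.W Lm.Y
  simp only [mkL, Geo.dl, Geo.cz, Geo.cx, rd, k5]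
  simp only [k1, k2, k3, k4, e1, e4, e5]

theorem lg_le {C B : ℝ} (hC : 1 ≤ C) (hq : q ≤ p) (hB : 1 + Real.log (p + 1) ≤ B) :
    1 ≤ B ∧ Real.log (C * (((3 * q : ℕ) : ℝ) + 1) ^ 2) ≤ (9 * C + 2) * B := by
  have h1 : (q : ℝ) ≤ p := by exact_mod_cast hq
  have h0 : (0 : ℝ) ≤ q := Nat.cast_nonneg q
  have h2 : 0 ≤ Real.log (p + 1) := Real.log_nonneg (by linarith)
  have h3 : Real.log (C * (((3 * q : ℕ) : ℝ) + 1) ^ 2) ≤ Real.log (9 * C * (p + 1) ^ 2) := by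
    refine Real.log_le_log (by positivity) ?_
    push_cast
    nlinarith [mul_le_mul_of_nonneg_left (pow_le_pow_left₀ (by positivity)
      (show 3 * (q : ℝ) + 1 ≤ 3 * (p + 1) by linarith) 2) (zero_le_one.trans hC)]
  rw [Real.log_mul (by positivity) (by positivity : ((p : ℝ) + 1) ^ 2 ≠ 0), Real.log_pow] at h3
  have h4 := Real.log_le_sub_one_of_pos (show 0 < 9 * C by positivity)
  push_cast at h3 ⊢
  exact ⟨by linarith, by nlinarith⟩

end EFinA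

open EFinA

theorem rowEFin : OfEFin := by
  intro hA ⟨C₂, c₂, hR⟩ hL ⟨C₁, c₁, hG⟩ hN W P g R j m p q η e₀ B X s₁ s₂ T
  obtain ⟨L₀, l₀, w⟩ := hA _ _ _ _ _ (hL P g R j m p q η e₀ B X s₁ s₂ T)
  obtain ⟨L, l, la⟩ := T.la
  have bR := T.tw.sd₁.big
  have lΛ := (l.const_mul bR (C := 5) (by norm_num)).mul l₀
  obtain ⟨CX, cx, dn⟩ := T.tw.dn
  obtain ⟨Ch, hk⟩ := T.tw.hk
  obtain ⟨Cl, lk⟩ := T.tw.lk
  refine ⟨2 * CX + 2 * |Ch| + 2 * |Cl| + 9 * C₂ + 4, ?_⟩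
  filter_upwards [w _ one_half_pos, la, dn, hk, lk, T.gap, T.eb.fy,
    hN R m q L _ C₁ bR l lΛ c₁ T.gap, hN R m q L _ C₂ bR l lΛ c₂ T.gap]
    with n w la dn hk lk gap fy n1 n2
  obtain ⟨a1, a2, a3, a4, -⟩ := n1 _ _ rfl rfl
  obtain ⟨-, -, -, -, a5, a6, a7, a8⟩ := n2 _ _ rfl rfl
  rw [pb_not] at w
  set x := mkL (X n).Q (X.G g n) (s₁ n) (s₂ n) (j n) (m n) (q n) with hx
  set E := fun ω => Agr (x.A₁ ω) (x.A₂ ω) (x.Y ω) (x.W (q n - j n) ω) (L₀ n)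
    (L₀ n * (2 ^ (3 * R n / 4) / 2 ^ q n))
  have w' : 2⁻¹ ≤ pb x.P E := by linarith
  have d1 : K31.Dn 2 (cE x.P E) id x.P := by simpa using K31.dn_cE E (by norm_num) w'
  have d2 : K31.Dn 2 (cE x.P E) Prod.fst (X n).Q := by
    simpa using d1.trans (K31.dn_law (law_fst _ _))
  have me := fun v => (mem_cE (ex_of_pb (lt_of_lt_of_le (by norm_num) w')) v).1
  have l1 := l.1 n
  have G := fun v hv => hG (X n).Q (X.G g n) (s₁ n) (s₂ n) (L n) _ _ (j n) (m n) (q n) (R n) v la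
    (me v hv).1 (le_mul_of_one_le_right (by linarith) (l₀.1 n)) a1 a2 (by
      rw [mul_assoc _ (L₀ n)]; exact (me v hv).2.scale (by linarith))
  obtain ⟨hq1, hq, hq2⟩ := T.le n
  obtain ⟨Lb, lam, A, t1, t2, fa, o⟩ := hR (cE x.P E) _ _ _ _ _ _ _ _ _ _ _ _ _ _ _ _ (3 * q n)
    (fn1 la fun _ => d2.mem) (fn2 la (fun _ => d2.mem) (dn.fn fy.2) hq)
    (fun v hv => ⟨(G v hv).1, (G v hv).2.1.trans a3⟩) a4 a5
  obtain ⟨b1, b2⟩ := lg_le c₂ hq (T.eb.hB n)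
  have b3 := lg_lt_one
  have b4 := abs_nonneg Ch
  have b5 := abs_nonneg Cl
  refine ⟨_, Lb, cE x.P E, fun v => (X n).ρ v.1, lam, A, q n - R n + R n / 16,
    (d2.trans dn).mono (by linarith), ?_, ?_, fa, by omega, by omega, fun v hv => ?_⟩
  · have e1 := near (fun v => (X.G g n).core v.1) t1
    have e2 := d2.mi_le (s₁ n).S (X.G g n).core ((X.G g n).win (j n))
    have e3 := hk.trans (mul_le_mul_of_nonneg_right (le_abs_self Ch) (by linarith))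
    refine (e1.trans (add_le_add (e2.trans
      (mul_le_mul_of_nonneg_left (add_le_add e3 b3.le) zero_le_two)) b2)).trans ?_
    nlinarith
  · have e1 := near (fun v => (X.G g n).core v.1) t2
    have e2 := d1.mi_le (fun v => ((s₂ n).S v.1, v.2)) (fun v => (X.G g n).core v.1) fun v =>
      (X.G g n).y v.1
    have e3 := (mi_noise _ (uN (m n - j n)) _ _ _).trans
      (lk.trans (mul_le_mul_of_nonneg_right (le_abs_self Cl) (by linarith)))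
    refine (e1.trans (add_le_add (e2.trans
      (mul_le_mul_of_nonneg_left (add_le_add e3 b3.le) zero_le_two)) b2)).trans ?_
    nlinarith
  · have o1 := (o v hv).d
    have o2 := (o v hv).fit _ (G v hv).1.pos.2.2.1 (G v hv).1.pos.2.2.2
    rw [(G v hv).2.2] at o1 o2
    have o3 := fun i => (o2.2 i).trans (a7.trans (pow_le_pow_right₀ one_le_two hq))
    exact ⟨o1.trans ((le_abs_self _).trans (le_max_right _ _)), max_le (o3 2) (o3 3),
      o2.1.trans a6, fun i k => ((o v hv).hs i k).trans a8⟩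

end Pool.Agent.MP_5168f5_an.R4
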