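import Pool.Agent.MP_5168f5_an.R4.SpecE3

/-! Extension step for quadrics: the labels of an optimal family. -/

namespace Pool.Agent.MP_5168f5_an.R4

open H19 H17S H17F Matrix Filter

namespace EFixA

variable {W Λ : Type} {P : FP W} {g : Geo 3 W}

theorem wc_win {j c : ℕ} (e : j ≤ c) : Fn P (g.wc j fun _ => ()) (g.win c) := fun a _ b _ h => by
  simp only [Geo.win, Geo.ln, Prod.mk.injEq] at h
  obtain ⟨⟨h1, h2, h3⟩, h4⟩ := h
  simp only [Geo.wc, Geo.z0, Geo.lt, h1, h2, h3, fl1_eq_of_le e h4]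

theorem near_pt {L : ℝ} (h : g.Bx P L) (j : ℕ) {a : W} (ha : a ∈ P.S) (i : Fin 3) :
    |g.lt (g.z0 j a) a i - g.pt a i| ≤ L / 2 ^ j := by
  have e : g.lt (g.z0 j a) a i - g.pt a i = (g.z0 j a - g.z a) * g.e a i := by
    simp only [Geo.pt, Geo.lt, Pi.add_apply, Pi.smul_apply, smul_eq_mul]; ring
  rw [e, abs_mul, div_eq_inv_mul]
  refine mul_le_mul (abs_le.2 ⟨?_, ?_⟩) ((h.bd a ha).1 i).2 (abs_nonneg _) (by positivity)
  · linarith [lt_fl1 j (g.z a), Geo.z0.eq_1 g j a]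
  · linarith [fl1_le j (g.z a), Geo.z0.eq_1 g j a, (by positivity : 0 ≤ ((2 : ℝ) ^ j)⁻¹)]

theorem near_wc {L : ℝ} (hL : 1 ≤ L) (h : g.Bx P L) {j M : ℕ} (e : j ≤ M) {a b : W}
    (ha : a ∈ P.S) (hb : b ∈ P.S) (c : g.fp (fun _ => M) a = g.fp (fun _ => M) b) :
    ‖g.lt (g.z0 j a) a - g.lt (g.z0 j b) b‖ ≤ 3 * L / 2 ^ j := by
  refine (pi_norm_le_iff_of_nonneg (by positivity)).2 fun i => ?_
  have h1 := abs_le.1 (near_pt h j ha i)
  have h2 := abs_le.1 (near_pt h j hb i)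
  have h3 := abs_lt.1 (abs_sub_lt_of_fl1_eq (fl1_eq_of_le e (congrFun (congrArg Prod.fst c) i)))
  have h4 : ((2 : ℝ) ^ j)⁻¹ ≤ L / 2 ^ j := by rw [← one_div]; gcongr
  rw [mul_div_assoc, Real.norm_eq_abs, Pi.sub_apply, abs_le]
  constructor <;> linarith [h1.1, h1.2, h2.1, h2.2, h3.1, h3.2]

theorem wc_fp (j M : ℕ) (κ : W → Λ) : ch P (g.wc j fun _ => ())
    (fun v => (κ v, g.fp (fun _ => M) v)) ≤
      ch P (fun v => flv j (g.lt (g.z0 j v) v)) (g.fp fun _ => M) :=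
  ch_le (fun a _ b _ h => by
    simp only [Geo.fp, Prod.mk.injEq] at h
    obtain ⟨h1, -, -, h2, h3⟩ := h
    exact Prod.ext rfl (Prod.ext h3 (Prod.ext (congrArg (fl1 j) h2) h1))) (Fn.snd _ _)

theorem qd_up {L : ℝ} (hL : 0 ≤ L) {A : Qd} {v : W} {c τ M : ℕ} (e : τ ≤ M)
    (h : g.qd.fit L A v c τ) : g.qd.fit (L * 2 ^ (M - τ)) A v c M := by
  obtain ⟨d, rfl⟩ := Nat.exists_eq_add_of_le e
  rw [Nat.add_sub_cancel_left]
  refine ⟨fun i k => (h.1 i k).trans (by gcongr; exact one_le_two), h.2.1, fun t ht =>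
    ⟨(h.2.2 t ht).1.trans (le_of_eq ?_), fun i => ((h.2.2 t ht).2 i).trans
      (le_mul_of_one_le_right hL (one_le_pow₀ one_le_two))⟩⟩
  rw [pow_add]; field_simp

end EFixA

open EFixA in
theorem rowEFix : OfEFix := by
  intro hPR hFB Ω K g M η F X c₀ c c' Δ go hX h0 h1 h2 h3 hQ hU hΔ
  have p := hPR K g M η F go
  obtain ⟨⟨L, hL, hA⟩, hlab⟩ := go.opt.ok X hX
  have bs := go.cls.bs X hX
  have hM := bs.big
  obtain ⟨L₀, hL₀, hB⟩ := bs.bx
  have hc : 0 ≤ c := h0.trans h1.le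
  have hc1 : c ≤ 1 := h2.le.trans h3
  have hD : 0 ≤ Δ := by linarith
  have jc := lev_mono M h1.le
  have lab : Lab X.P (X.G (g.fin M)) M (lev M c) fun n =>
      ((lq (g n) (F n) (lev M c₀ n) (lev M c n)).pull (X n).ρ).S := by
    have e := fun n => kb.add (X n).Q (X.G (g.fin M) n) (lev M c n)
      ((X.G (g.fin M) n).wc (lev M c₀ n) fun _ => ()) fun v => (F n).S (lev M c n) ((X n).ρ v)
    refine ⟨(hlab (lev M c)).h.mono (Eventually.of_forall fun n => ?_), ((hlab (lev M c)).l.add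
      (Sm.near (j := lev M c₀) hM (hL₀.const_mul hM (C := 3) (by norm_num))
        (hB.mono fun n a _ u _ v w => near_wc (hL₀.1 n) a ((jc n).trans (lev_le M hc1 n)) u v w))).mono
      (Eventually.of_forall fun n => ?_)⟩
    · refine (mi_mono' (((Fn.snd _ _).pair (Fn.fst _ _)).left _)).trans ((e n).1.trans ?_)
      rw [ch_zero ((wc_win (jc n)).right _), add_zero]
    · exact (mi_mono' (((Fn.snd _ _).pair (Fn.fst _ _)).left _)).trans
        ((e n).2.trans (add_le_add le_rfl (wc_fp _ _ _)))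
  have low : ∀ k x x', 0 ≤ x → x < x' → x' ≤ 1 →
      ∀ᶠ n in UF, lev M x n ≤ (F n).τ (iU k) (lev M x' n) := fun k x x' a b d => by
    have e : x' ≤ pr M F (iU k) x' := (le_min d (by linarith [(p.bd (iU k) 0).1])).trans
      (p.exp (iU k) 0 x' le_rfl (a.trans b.le) d)
    filter_upwards [(p.eqv (iU k) x').2 _ (sub_pos.2 b)] with n u
    have := mul_le_mul_of_nonneg_right e (Nat.cast_nonneg (α := ℝ) (M n))
    exact_mod_cast (show (lev M x n : ℝ) ≤ (F n).τ (iU k) (lev M x' n) by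
      linarith [lev_le' M a n])
  have fx := xa K (g.fin M) M (lev M c) (lev M c) M 0 η X _ go.cls.toCls0 hX lab
    ((kb.fatB X.P (X.G (g.fin M)) M (fun n _ => M n) bs).2.1 0)
    fun n => ⟨le_rfl, lev_le M hc1 n, le_rfl⟩
  have fu : ∀ k, Le M (fun n => (M n - (F n).τ (iU k) (lev M c n) : ℝ) * lg) fun n =>
      ch (X n).Q ((X.G (g.fin M) n).cx (M n) (co k)) (fun v => ((X.G (g.fin M) n).cx (M n) 0 v,
        ((lq (g n) (F n) (lev M c₀ n) (lev M c n)).pull (X n).ρ).S v,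
        (X.G (g.fin M) n).zt v)) + Δ * M n := fun k => by
    have a := hFB K g M η F X _ (fun _ _ => 0) (fun _ => 1) false k (lev M c) (lev M c')
      (fun n => (F n).τ (iU k) (lev M c' n)) M ((c' - c) / 2) go hX lab (hM.sub le_rfl)
      (by linarith) (by
        filter_upwards [lev_gap hM (ε := (c' - c) / 2) (c' := c') hc (by linarith), hA,
          low k c c' hc h2 h3] with n u v w
        exact ⟨⟨u, lev_le M h3 n, le_rfl, w, v.le _ _, le_rfl⟩, fun _ _ _ _ _ => rfl,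
          fun _ _ => ⟨by simp, fun _ => rfl⟩⟩)
    refine a.of3 ((p.eqv (iU k) c').1.smul lg_pos.le) ((p.eqv (iU k) c).2.smul lg_pos.le)
      (Eventually.of_forall fun n => ?_)
    simp only [Geo.sv, zero_mul, sub_zero]
    have b := ch_anti (P := (X n).Q) (F := (X.G (g.fin M) n).cx (M n) (co k))
      (Fn.snd (fun v => fl1 ((F n).τ (iU k) (lev M c' n)) ((X.G g n).pt v (co k))) fun v =>
        ((X.G (g.fin M) n).cx (M n) 0 v,
          ((lq (g n) (F n) (lev M c₀ n) (lev M c n)).pull (X n).ρ).S v, (X.G (g.fin M) n).zt v))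
    have d := mul_le_mul_of_nonneg_right (hU k) (Nat.cast_nonneg (α := ℝ) (M n))
    have d' := mul_le_mul_of_nonneg_left d lg_pos.le
    have d'' := mul_le_of_le_one_left (show 0 ≤ Δ * M n by positivity) lg_lt_one.le
    exact le_trans (b := _) (by linarith) (add_le_add (add_le_add
      (sub_le_sub_left b _) le_rfl) le_rfl)
  refine ⟨lab.l, fun ε hε => ?_⟩
  filter_upwards [hA, hM.ev (1 / ε), eventually_all.2 fun k => low k c₀ c h0 h1 hc1,
    hL.2 _ (half_pos hε), (p.eqv iQ c).2 _ (half_pos hε), lab.h ε hε, lab.l ε hε, bs.hgt ε hε,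
    fx ε hε, eventually_all.2 fun k => fu k ε hε] with n a a1 a2 a4 a5 a6 a7 a8 a9 b1
  have e0 : 0 ≤ Δ * M n := by positivity
  obtain ⟨b, hb⟩ := Finite.exists_min fun k => (F n).τ (iU k) (lev M c n)
  have e1 : 1 ≤ (2 : ℝ) ^ (M n - (F n).τ iQ (lev M c n)) := one_le_pow₀ one_le_two
  refine ⟨_, b, ⟨jc n, ?_, a2 b, a.le _ _⟩, ⟨L n * 2 ^ (M n - (F n).τ iQ (lev M c n)),
    one_le_mul_of_one_le_of_one_le (hL.1 n) e1, ?_, ((a.fd iQ _).left _).pair
      (((a.fd (iU false) _).left _).pair (((a.fd (iU true) _).left _).pair (Fn.snd _ _))),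
    fun v hv => ⟨qd_up (hL.pos n).le (a.le _ _) (a.fit iQ _ v hv), fun k =>
      (kp.ok _ _ _).monoL _ _ _ _ _ _ (le_mul_of_one_le_right (hL.pos n).le e1)
        (kp.anti _ _ _ _ _ _ _ _ _ (hb k) (a.fit (iU k) _ v hv))⟩⟩,
    by linarith, by linarith, ?_, ?_, by linarith [b1 b]⟩
  · rw [div_le_iff₀ hε] at a1
    nlinarith [lev_le' M hc n, lt_lev M c₀ n, Nat.cast_nonneg (α := ℝ) (M n)]
  · refine (mul_le_mul a4 (two_pow_le_exp _) (by positivity) (Real.exp_pos _).le).trans ?_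
    rw [← Real.exp_add, Nat.cast_sub (a.le iQ _)]
    rw [hQ] at a5
    exact Real.exp_le_exp.2 (by linarith)
  · exact a8.trans (add_le_add le_rfl (by linarith))
  · exact a9.trans (add_le_add (ch_anti (Fn.snd _ _)) (by linarith))

end Pool.Agent.MP_5168f5_an.R4
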