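import Pool.Agent.MP_5168f5_an.R4.SpecE3
import Pool.Agent.MP_5168f5_an.R4.Kit

/-! The two labels get the same first plane. -/

namespace Pool.Agent.MP_5168f5_an.R4

open H19 H17S H17F Filter

namespace EFrameA

theorem pick {A : ℕ → Type} [∀ n, Nonempty (A n)] {q : ∀ n, A n → Prop}
    (h : ∀ᶠ n in UF, ∃ a, q n a) : ∃ a : ∀ n, A n, ∀ᶠ n in UF, q n (a n) :=
  ⟨fun n => Classical.epsilon (q n), h.mono fun _ e => Classical.epsilon_spec e⟩

section One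

variable {W Λ : Type} {g : Geo 3 W} {Q : FP W} {L L' : ℝ} {j m p : ℕ}

theorem fit1 {d : Pd} {v : W} (h : (g.pl {0} 1).fit L d v j m) :
    |g.e v 1 - d.2.1 - d.2.2 0 * g.e v 0| ≤ 4 * L * 2 ^ j / 2 ^ m := by
  have := ((kp.iff g {0} 1 L d v j m).1 h).2
  rwa [Fin.sum_univ_three, (h.2.1 1).2 (by decide), (h.2.1 2).2 (by decide), zero_mul, zero_mul,
    add_zero, add_zero] at this

theorem slope {d₁ d₂ : Pd} {v w : W} (hL : 0 ≤ L') (a : (g.pl {0} 1).fit L d₁ v j m)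
    (b : (g.pl {0} 1).fit L d₂ v j m) (c : (g.pl {0} 1).fit L d₁ w j m)
    (d : (g.pl {0} 1).fit L d₂ w j m) (h : 1 ≤ L' * |g.e v 0 - g.e w 0|) :
    |d₁.2.2 0 - d₂.2.2 0| ≤ 16 * L * L' * 2 ^ j / 2 ^ m := by
  have a := abs_le.1 (fit1 a)
  have b := abs_le.1 (fit1 b)
  have c := abs_le.1 (fit1 c)
  have d := abs_le.1 (fit1 d)
  have e : |(g.e v 0 - g.e w 0) * (d₁.2.2 0 - d₂.2.2 0)| ≤ 4 * (4 * L * 2 ^ j / 2 ^ m) :=
    abs_le.2 ⟨by linarith, by linarith⟩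
  rw [abs_mul] at e
  exact (le_mul_of_one_le_left (abs_nonneg _) h).trans ((mul_assoc _ _ _).trans_le
    ((mul_le_mul_of_nonneg_left e hL).trans_eq (by ring)))

/-- Replace the label and the first plane. -/
abbrev rep (s : Lq W) (S : W → Λ) (d : W → Pd) : Lq W :=
  ⟨Λ, S, s.A, fun k => bif k then s.d true else d⟩

theorem alg {s : Lq W} {S : W → Λ} {d : W → Pd} (h : s.Alg g Q L j m p) (hS : Fn Q s.S S)
    (hd : Fn Q d S) (hf : ∀ v ∈ Q.S, (g.pl {0} 1).fit L (d v) v j m) :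
    (rep s S d).Alg g Q L j m p where
  bx := h.bx
  fn := fun a ha b hb e => by
    have := h.fn a ha b hb (hS a ha b hb e)
    simp only [Lq.dat, Prod.mk.injEq] at this
    exact Prod.ext this.1 (Prod.ext (hd a ha b hb e) (Prod.ext this.2.2.1 this.2.2.2))
  fit := fun v hv => ⟨(h.fit v hv).1, fun k => by
    cases k
    exacts [hf v hv, (h.fit v hv).2 true]⟩

end One

variable {W : ℕ → Type} {P : ∀ n, FP (W n)} {g : Gs 3 W} {R j m p : ℕ → ℕ} {B L : ℕ → ℝ}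
  {X : Mb W} {s₁ s₂ : ∀ n, Lq (X n).W}

theorem same (hd : ESd) (hp : EPl) (hB : ∀ n, 1 ≤ B n) (h : Tw P g R j m p B X s₁ s₂)
    (hL : Sub R L) (hc : ∀ᶠ n in UF, ∀ v ∈ (X n).Q.S,
      |((s₁ n).d false v).2.2 0 - ((s₂ n).d false v).2.2 0| ≤ L n * 2 ^ j n / 2 ^ m n) :
    ∃ d : ∀ n, (X n).W → Pd, Tw P g R j m p B X (fun n => rep (s₁ n) (s₁ n).S (d n)) fun n =>
      rep (s₂ n) (fun v => (d n v, (s₂ n).S v)) (d n) := by
  obtain ⟨C, hC, hp⟩ := hp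
  obtain ⟨L₁, l₁, a₁⟩ := h.sd₁.alg
  obtain ⟨L₂, l₂, a₂⟩ := h.sd₂.alg
  obtain ⟨C₂, c₂⟩ := h.lk
  have hR := h.sd₁.big
  have l := (l₁.add l₂ hR).add hL hR
  set U := fun n => L₁ n + L₂ n + L n with hU
  have k : ∀ᶠ n in UF, (s₁ n).Alg (X.G g n) (X n).Q (U n) (j n) (m n) (p n) ∧
      (s₂ n).Alg (X.G g n) (X n).Q (U n) (j n) (m n) (p n) ∧ ∃ d : (X n).W → Pd,
      Fn (X n).Q d (s₁ n).S ∧ Det (X n).Q d (s₂ n).S C ∧ ∀ v ∈ (X n).Q.S,
        ((X.G g n).pl {0} 1).fit (C * U n ^ 3) (d v) v (j n) (m n) := by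
    filter_upwards [a₁, a₂, hc] with n a₁ a₂ hc
    have p₁ := l₁.pos n
    have p₂ := l₂.pos n
    have p₃ := hL.pos n
    have b₁ := a₁.mono (L' := U n) (by simp only [hU]; linarith)
    have b₂ := a₂.mono (L' := U n) (by simp only [hU]; linarith)
    refine ⟨b₁, b₂, hp _ _ _ _ _ _ _ _ _ (l.1 n) (h.sd₁.le n).1 b₁.bx b₁.wc b₂.wc fun v hv =>
      ⟨(b₁.fit v hv).2 false, (b₂.fit v hv).2 false, (hc v hv).trans ?_⟩⟩
    have : L n ≤ U n := by simp only [hU]; linarith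
    gcongr
  obtain ⟨d, e⟩ := pick (k.mono fun n c => c.2.2)
  have u : ∀ n, U n ≤ C * U n ^ 3 := fun n =>
    (le_self_pow₀ (l.1 n) three_ne_zero).trans (le_mul_of_one_le_left (by
      have := l.pos n; positivity) hC)
  have l' := (l.pow 3).const_mul hR hC
  have c := e.mono fun n e => ch_det e.2.1
  refine ⟨d, h.dn, ⟨hR, h.sd₁.le, ⟨_, l', ?_⟩, h.sd₁.ful⟩, ⟨hR, h.sd₁.le, ⟨_, l', ?_⟩, ?_⟩, h.hk,
    ⟨C₂ + Real.log C, ?_⟩, ?_⟩
  · filter_upwards [k, e] with n k e using alg (k.1.mono (u n)) (Fn.rfl _) e.1 e.2.2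
  · filter_upwards [k, e] with n k e using alg (k.2.1.mono (u n)) (Fn.snd _ _) (Fn.fst _ _) e.2.2
  · exact hd.add _ _ _ _ _ _ _ _ h.sd₂.ful ((hR.sm _).mono (c.mono fun n c =>
      (ch_mono (Fn.rfl _)).trans c))
  · filter_upwards [c, c₂] with n c c₂
    have := mul_le_mul_of_nonneg_left (hB n) (Real.log_nonneg hC)
    have k := (kb.add (X n).Q (X.G g n) 0 (d n) (s₂ n).S).2.trans
      (add_le_add c₂ ((ch_anti (Fn.fst _ _)).trans c))
    exact k.trans (by linarith)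
  · refine (Sm.add h.inf (hR.sm (Real.log C))).mono (c.mono fun n c => ?_)
    refine (mi_near _ _ _ _).trans (add_le_add le_rfl ((ch_le (fun a _ b _ q => ?_)
      ((Fn.snd _ _).left _)).trans c))
    simp only [Prod.mk.injEq] at q ⊢
    tauto

end EFrameA

open EFrameA in
theorem rowEFrame : OfEFrame := fun hd hs hp W P g R j m p η e₀ B X s₁ s₂ eb h ⟨D, hD, d⟩ hi => by
  have hB : ∀ n, 1 ≤ B n := fun n => le_trans (le_add_of_nonneg_right
    (Real.log_nonneg (le_add_of_nonneg_left (Nat.cast_nonneg _)))) (eb.hB n)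
  obtain ⟨L, hL, w⟩ := hs _ g R η X _ eb.cls h.dn hi
  obtain ⟨L₁, l₁, a₁⟩ := h.sd₁.alg
  obtain ⟨L₂, l₂, a₂⟩ := h.sd₂.alg
  have hR := h.sd₁.big
  obtain ⟨d', t⟩ := same hd hp hB (hd.tw P g R j m p B X s₁ s₂ _ _ hB h (K31.dnS_cE w.pos))
    (((l₁.add l₂ hR).const_mul hR (C := 16) (by norm_num)).mul hL) (by
      filter_upwards [a₁, a₂, w.pos.sure] with n a₁ a₂ e v hv
      obtain ⟨hv, v', hv', q, sp⟩ := e v hv
      have b₁ := a₁.mono (le_add_of_nonneg_right (l₂.pos n).le)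
      have b₂ := a₂.mono (le_add_of_nonneg_left (l₁.pos n).le)
      have q₁ : (s₁ n).d false v' = (s₁ n).d false v :=
        congrArg (·.1) (b₁.wc v' hv' v hv (congrArg (·.1) q))
      have q₂ : (s₂ n).d false v' = (s₂ n).d false v :=
        congrArg (·.1) (b₂.wc v' hv' v hv (congrArg (·.2) q))
      exact slope (hL.pos n).le ((b₁.fit v hv).2 false) ((b₂.fit v hv).2 false)
        (q₁ ▸ (b₁.fit v' hv').2 false) (q₂ ▸ (b₂.fit v' hv').2 false) sp)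
  exact ⟨_, _, _, t, ⟨D, hD, d.mono fun n d v hv => d v (cE_sub hv)⟩, fun _ => rfl⟩

end Pool.Agent.MP_5168f5_an.R4
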