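import Pool.Agent.MP_5168f5_an.R4.SpecE3

/-! Extension step for quadrics: the diagonal argument. -/

namespace Pool.Agent.MP_5168f5_an.R4

open H19 H17S H17F Filter

theorem ext1F (h₁ : EIni) (h₂ : EShare) (h₃ : EFrame) (h₄ : EPlane) (h₅ : EPrep) (h₆ : EFin) :
    Ext1 false := by
  intro W P g R j c m p η e₀ B s hb hH hl
  obtain ⟨s', h0⟩ := h₁ P g R j c m p η e₀ B s hb hH hl
  obtain ⟨X, s₁, s₂, a, b, d⟩ := h₂ P g R j m p η e₀ B s' hb h0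
  obtain ⟨X', t₁, t₂, a', b', d'⟩ := h₃ P g R j m p η e₀ B X s₁ s₂ hb a b d
  rcases ev_em fun n => m n + 4 * R n ≤ p n with e | e
  · obtain ⟨q, X'', u₁, u₂, h⟩ := h₅ P g R j m p η e₀ B X' t₁ t₂ hb a' b' d' e
    exact h₆ P g R j m p q η e₀ B X'' u₁ u₂ h
  · exact h₄ P g R j m p η e₀ B X' t₁ t₂ hb a' d' (e.mono fun n h => (not_le.1 h).le)

namespace EGlueA

variable {Ω : ℕ → Type} (g : Gs 3 Ω) (M : ℕ → ℕ) (F : ∀ n, Fam (g n).sh5) (X : Mb Ω)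

/-- The label on the member. -/
noncomputable abbrev sl (n j c : ℕ) : Lq (X n).W := (lq (g n) (F n) j c).pull (X n).ρ

/-- The size of the errors. -/
noncomputable def er (n j c : ℕ) : ℝ :=
  |(X.G (g.fin M) n).lk (X n).Q (sl g F X n j c).S| + (1 + Real.log (M n + 1))

/-- The facts at one index. -/
structure H (m₀ : ℕ → ℕ) (ε₀ δ C : ℝ) (n R j c m : ℕ) (b : Bool) : Prop where
  le : m₀ n ≤ R ∧ R ≤ M n ∧ j + 5 * R ≤ M n ∧ Real.log (M n + 1) ≤ δ * R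
  eh : EH (X.G (g.fin M) n) (X n).Q (sl g F X n j c) j c m (M n) b (δ * R)
  ng : ∀ (W : Type) (Q : FP W) (f : W → (X n).W) (a b : ℕ), K31.Dn C Q f (X n).Q →
    M n ≤ a + 3 * R → a ≤ b → b ≤ M n →
    ch Q (fun v => fl b ((X.G g n).pt (f v))) (fun v =>
      (fl a ((X.G g n).pt (f v)), (X.G g n).zt (f v))) ≤ (3 - ε₀) * (b - a) * lg + δ * R
  no : ¬(X.G (g.fin M) n).Pi (X n).Q C (er g M F X n j c) j R (M n)

variable {g M F X} {K : Mb Ω → Prop} {η ε₀ cs : ℝ} {φ : ℕ → ℕ → ℝ} {m₀ : ℕ → ℕ}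

theorem er_ge (n j c : ℕ) : 1 + Real.log (M n + 1) ≤ er g M F X n j c :=
  le_add_of_nonneg_left (abs_nonneg _)

theorem log_nonneg' (n : ℕ) : 0 ≤ Real.log ((n : ℝ) + 1) :=
  Real.log_nonneg (by linarith [Nat.cast_nonneg (α := ℝ) n])

theorem fixed (h₁ : EFix) (h₂ : ELemA) (h₃ : ENg) (h₄ : EPar) (hP : Pr K g M F)
    (hG : Gf K g M η F φ) (h0 : 0 < ε₀) (hN : NGd (hb M φ) ε₀) (c0 : 0 < cs) (c1 : cs < 1)
    (hQ : ∀ c, cs < c → pr M F iQ c = 1) (hX : K X) (hm : Sm M fun n => m₀ n)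
    (hn : ∀ C : ℝ, 0 < C → ∃ W₀ : ℝ, 0 < W₀ ∧ ∀ W, 0 < W → W ≤ W₀ →
      C * W < 1 - pr M F iQ (cs - W)) {δ : ℝ} (hδ : 0 < δ) (C : ℝ) :
    ∀ᶠ n in UF, ∃ R j c m b, H g M F X m₀ ε₀ δ C n R j c m b := by
  have hM : Big M := (hG.cls.bs X hX).big
  obtain ⟨r₀, a0, a1⟩ := h₃ K g M η F φ ε₀ δ X hG h0 hN hX hδ
  obtain ⟨r, c₀, c₁, c, c', b0, b1, b2, b3, b4, b5, b6, b7, b8, b9, b10, b11⟩ :=
    h₄ (pr M F iQ) (fun k => pr M F (iU k)) cs (δ / 4) r₀ (fun k => hP.mono _)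
      (fun k => hP.bd _) c0 c1 (by positivity) a0 hn
  obtain ⟨d1, d2⟩ := h₁ K g M η F X c₀ c c' (δ / 4 * r) hG.toGo hX b2 (by linarith) b6 b7
    (hQ c b5) b10 b9
  have hR : Frac (lev M r) M := hM.frac_floor b0 (by linarith)
  have hj : ∀ n, lev M c₀ n + 5 * lev M r n ≤ M n := fun n => by
    have e1 := lev_le' M b2 n
    have e2 := lev_le' M b0.le n
    have e3 : (lev M c₀ n + 5 * lev M r n : ℝ) ≤ M n := by
      nlinarith [Nat.cast_nonneg (α := ℝ) (M n)]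
    exact_mod_cast e3
  have hl : Sm M fun n => Real.log (M n + 1) := (Sub.nat hM).log
  have hB : Sm M fun n => er g M F X n (lev M c₀ n) (lev M c n) :=
    (d1.add ((hM.sm 1).add hl)).mono (Eventually.of_forall fun n => by
      unfold er; rw [abs_of_nonneg (by exact mi_nonneg _ _ _)])
  have no : ¬PiS X.P (X.G (g.fin M)) (lev M r) (lev M c₀) M fun n =>
      er g M F X n (lev M c₀ n) (lev M c n) := fun h => by
    have e := h₂ K g M η F X (lev M c₀) (lev M r) _ c₀ c₁ hG.toGo hX hR hB b2 b3 (by linarith) hj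
      (Eventually.of_forall fun _ => le_rfl) h
    have e2 : 1 - 5 * r ≤ pr M F iQ c₁ := Le.num hM (e.of_sub (Eventually.of_forall fun n => by
      linarith [lev_le' M b0.le n]))
    linarith
  have no' := not_ev.1 fun h => no ⟨C, h⟩
  filter_upwards [d2 (δ / 4 * r) (by positivity), a1 r C b0 b1, no', (hm.frac hR) 1 one_pos,
    (hl.frac hR) δ hδ, hM.ev (2 / r)] with n ⟨m, b, u⟩ v w x y z
  refine ⟨lev M r n, lev M c₀ n, lev M c n, m, b, ⟨?_, hR.1 n, hj n, by linarith⟩, u.mono ?_, v, w⟩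
  · have : (m₀ n : ℝ) ≤ lev M r n := by linarith
    exact_mod_cast this
  · rw [div_le_iff₀ b0] at z
    nlinarith [lt_lev M r n]

end EGlueA

open EGlueA in
theorem extF_of (h₁ : EFix) (h₂ : ELemA) (h₃ : ENg) (h₄ : EPar) (h₅ : ∀ b, Ext1 b) (hP : PR) :
    ExtF := by
  intro Ω K g M η F φ ε₀ cs hG h0 h1 hN c0 c1 hQ
  by_contra hn
  simp only [not_exists, not_and, not_forall, not_le] at hn
  obtain ⟨X, hX⟩ := hG.cls.ne
  obtain ⟨m₀, -, hm, hd⟩ := down K (g.fin M) M 0 η X hG.cls.toCls0 hX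
  obtain ⟨k, hk, hs⟩ := ks.spill _ fun k : ℕ => fixed (δ := 1 / (k + 1)) h₁ h₂ h₃ h₄
    (hP K g M η F hG.toGo) hG h0 hN c0 c1 hQ hX hm
    (fun C hC => let ⟨W₀, a, b⟩ := hn C hC; ⟨W₀, a, b⟩) (by positivity) k
  have ex : ∀ n, ∃ R j c m b, (j ≤ m ∧ m ≤ M n ∧ j + 5 * R ≤ M n) ∧
      ((∃ R j c m b, H g M F X m₀ ε₀ (1 / (k n + 1)) (k n) n R j c m b) →
        H g M F X m₀ ε₀ (1 / (k n + 1)) (k n) n R j c m b) := fun n => by
    by_cases e : ∃ R j c m b, H g M F X m₀ ε₀ (1 / (k n + 1)) (k n) n R j c m b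
    · obtain ⟨R, j, c, m, b, h⟩ := e
      exact ⟨R, j, c, m, b, ⟨h.eh.le.2.2.1, h.eh.le.2.2.2, h.le.2.2.1⟩, fun _ => h⟩
    · exact ⟨0, 0, 0, 0, false, by simp, fun h => (e h).elim⟩
  choose R j c m b hle hH using ex
  have hH' := hs.mono fun n h => hH n (h _ le_rfl)
  have hδ : ∀ ε : ℝ, 0 < ε → ∀ᶠ n in UF, 1 / (k n + 1 : ℝ) * R n ≤ ε * R n := fun ε hε =>
    (hk.ev (1 / ε)).mono fun n a => mul_le_mul_of_nonneg_right (by
      rw [div_le_iff₀ hε] at a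
      rw [div_le_iff₀ (by positivity)]; linarith) (Nat.cast_nonneg _)
  obtain ⟨b₀, hb₀⟩ := ev_ex (p := fun b₀ n => b n = b₀) (Eventually.of_forall fun n => ⟨_, rfl⟩)
  have key : PiS X.P (X.G (g.fin M)) R j M fun n => er g M F X n (j n) (c n) := by
    refine h₅ b₀ X.P (X.G (g.fin M)) R j c m M η ε₀ _ (fun n => sl g F X n (j n) (c n))
      ⟨(hd R (hH'.mono fun n h => ⟨h.le.1, h.le.2.1⟩)).1, ⟨h0, h1⟩,
        ⟨fun n => by linarith [Nat.cast_nonneg (α := ℝ) (M n)], fun ε hε => ?_⟩, hle,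
        Eventually.of_forall fun n => ⟨fun _ _ _ _ e => e, fun _ _ _ _ e => e⟩,
        fun n => er_ge n _ _, fun X' a a' ⟨C, _, hC⟩ ha ε hε => ?_⟩ (fun ε hε => ?_)
      (Eventually.of_forall fun n => (le_abs_self _).trans
        (le_add_of_nonneg_right (by linarith [log_nonneg' (M n)])))
    · filter_upwards [hH', hδ ε hε] with n u v
      exact (Real.log_le_iff_le_exp (by positivity)).1 (u.le.2.2.2.trans v)
    · filter_upwards [hH', hδ ε hε, hC, hk.ev C] with n u v w x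
      exact (u.ng _ _ _ _ _ (w.mono x) (ha n).1 (ha n).2.1 (ha n).2.2).trans (by linarith)
    · filter_upwards [hH', hδ ε hε, hb₀] with n u v w
      exact w ▸ u.eh.mono v
  obtain ⟨C, hC⟩ := key
  obtain ⟨n, u, v, w⟩ := (hC.and (hH'.and (hk.ev C))).exists
  exact v.no (u.mono w (le_trans (by linarith [log_nonneg' (M n)]) (er_ge n _ _)))

end Pool.Agent.MP_5168f5_an.R4
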