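import Pool.Agent.MP_5168f5_an.R4.SpecE3
import Pool.Agent.MP_5168f5_an.R4.XKB

/-! The label at the start of the extension step. -/

namespace Pool.Agent.MP_5168f5_an.R4

open H19 H17S H17F Matrix Filter

namespace EIniA

theorem sub2 {R a b : ℕ → ℕ} (h : Sm R fun n => (a n - b n : ℝ)) (e : ∀ᶠ n in UF, b n ≤ a n) :
    Sub R fun n => 2 ^ (a n - b n) := ⟨fun _ => one_le_pow₀ one_le_two, fun ε hε => by
  filter_upwards [h ε hε, e] with n x y
  refine (two_pow_le_exp _).trans (Real.exp_le_exp.2 ?_)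
  rw [Nat.cast_sub y]
  linarith⟩

/-- The second plane as a quadric. -/
def hq (d : Pd) : Qd := vecMulVec (bv 0) ![-d.1, -d.2.1, -d.2.2 0, 0, 1]

theorem pf_hq (d : Pd) (t : ℝ) (y : V 3) (i : Fin 4) :
    pf (hq d) (hom t y) (bv i.succ) = ![-d.2.1, -d.2.2 0, 0, 1] i := by
  rw [hq, pf_hyp]
  fin_cases i <;> simp [hom, bv]

theorem wf_hq {W : Type} {g : Geo 3 W} {L : ℝ} {d : Pd} {v : W} {j m p : ℕ} (hL : 1 ≤ L)
    (e : m ≤ p) (h : (g.pl {0} 2).fit L d v j m) : g.wf (L * 2 ^ (p - m)) (hq d) v j p := by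
  obtain ⟨h1, h2, h3⟩ := h
  have h4 : L ≤ L * 2 ^ (p - m) := le_mul_of_one_le_right (by linarith) (one_le_pow₀ one_le_two)
  refine fun t ht => ⟨?_, fun i => le_trans ?_ h4⟩
  · have h5 : L * 2 ^ (p - m) / 2 ^ p = L / 2 ^ m := by
      obtain ⟨k, rfl⟩ := Nat.exists_eq_add_of_le e
      rw [Nat.add_sub_cancel_left, pow_add]
      field_simp
    rw [h5, hq, qf_hyp]
    refine le_of_eq_of_le (congrArg _ ?_) (h3 t ht)
    simp [hom, dotProduct, Fin.sum_univ_succ, (h2 1).2 (by simp), (h2 2).2 (by simp)]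
    ring
  · rw [pf_hq]
    fin_cases i
    · simpa using h1
    · simpa using (h2 0).1
    · simpa using zero_le_one.trans hL
    · simpa using hL

end EIniA

open EIniA

theorem rowEIni : OfEIni := by
  intro rm dn W P g R j c m p η e₀ B s eb eh lkB
  have bs : Bs P g R := eb.cls.bs _ (dnK_base P)
  have hb := bs.big
  obtain ⟨L₁, hL₁, bx⟩ := bs.bx
  have jc : ∀ᶠ n in UF, j n ≤ c n := (eh 1 one_pos).mono fun n a => a.le.1
  have sm : ∀ {f : ℕ → ℝ}, (∀ n e, EH (g n) (P n) (s n) (j n) (c n) (m n) (p n) false e → f n ≤ e) →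
      Sm R f := fun {f} h ε hε => (eh ε hε).mono fun n a => by simpa using h n _ a
  have cj := sm (f := fun n => c n - j n) fun _ _ a => a.le.2.1
  have cl : Sm R fun n => (c n - j n : ℝ) * lg := cj.mono (jc.mono fun n a =>
    mul_le_of_le_one_right (sub_nonneg.2 (Nat.cast_le.2 a)) lg_lt_one.le)
  have inf := KBA.inf bs (j := c) (lam := fun n => (s n).S) (sm fun _ _ a => a.hk)
  obtain ⟨L₂, hL₂, al⟩ := sub_iff.2 fun ε hε => (eh ε hε).mono fun n a => a.alg
  have hL := (hL₁.mul ((((sub2 cj jc).pow 2).const_mul hb (C := 100) (by norm_num)).mul hL₂))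
  have alg : ∀ᶠ n in UF, (s n).Alg (g n) (P n) (L₁ n * (100 * (2 ^ (c n - j n)) ^ 2 * L₂ n))
      (j n) (m n) (p n) := by
    filter_upwards [bx, al, jc] with n a b d
    have e1 : (1 : ℝ) ≤ 100 * (2 ^ (c n - j n)) ^ 2 * L₂ n :=
      ((((sub2 cj jc).pow 2).const_mul hb (C := 100) (by norm_num)).mul hL₂).1 n
    have e2 : (100 : ℝ) * 4 ^ (c n - j n) * L₂ n ≤ L₁ n * (100 * (2 ^ (c n - j n)) ^ 2 * L₂ n) := by
      rw [← pow_mul, mul_comm _ 2, pow_mul, show (2 : ℝ) ^ 2 = 4 by norm_num] at e1 ⊢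
      exact le_mul_of_one_le_left (by linarith) (hL₁.1 n)
    refine ⟨a.mono' (le_mul_of_one_le_right (hL₁.pos n).le e1), b.1, fun v hv => ⟨?_, fun k => ?_⟩⟩
    · exact ((rm (g n) _ v _ _ _ d).1 _ (b.2 v hv).1.2.2).mono e2
    · exact (kp.ok (g n) _ _).monoL _ _ _ _ _ _ e2 ((rm (g n) _ v _ _ _ d).2 _ _ ((b.2 v hv).2 k))
  have ful : Ful P g R j m p fun n => (s n).S := by
    refine ⟨Le.of3 (sm (f := fun n => p n * lg - ch (P n) ((g n).cz (p n)) (g n).θ)
      fun _ _ a => by linarith [a.hgt]) cl inf (bx.mono fun n a => ?_),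
      Le.of2 (sm (f := fun n => (p n - c n : ℝ) * lg - ch (P n) ((g n).cx (p n) 0) fun v =>
        ((s n).S v, (g n).zt v)) fun _ _ a => by linarith [a.fx]) cl
        (Eventually.of_forall fun n => by linarith),
      fun ε hε => (eh ε hε).mono fun n a => a.fu⟩
    have h1 := KBA.hgt_le a (s n).S (le_refl (c n)) (le_refl (p n))
    have h2 : ch (P n) (fun ω => fl1 (p n) ((g n).z ω))
        (fun ω => (fl1 (c n) ((g n).z ω), (g n).ln ω, (s n).S ω)) ≤
        ch (P n) ((g n).cz (p n)) (s n).S := ch_anti ((Fn.snd _ _).right _)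
    change ch (P n) ((g n).cz (p n)) _ ≤ _ at h1
    linarith
  have le : ∀ n, j n ≤ m n ∧ m n ≤ p n := fun n => ⟨(eb.le n).1, (eb.le n).2.1⟩
  have inf' : Inf P g R (fun n => j n + R n) fun n => (s n).S :=
    inf.mono ((eh 1 one_pos).mono fun n a => by
      have e : c n ≤ j n + R n := by
        have := a.le.2.1
        exact_mod_cast (by linarith : (c n : ℝ) ≤ j n + R n)
      exact mi_left (((KBA.fn_fl_le (g n).z e).left _).pair (Fn.snd _ _))
        (((Fn.comp (fl1 (j n + R n)) (g n).z).left _).pair ((Fn.snd _ _).right _)) (Fn.fst _ _))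
  have lk : Sm R fun n => (g n).lk (P n) (s n).S := sm fun _ _ a => a.lk
  by_cases h : Sm R fun n => (p n - m n : ℝ)
  · have h2 := sub2 h (Eventually.of_forall fun n => (le n).2)
    refine ⟨fun n => ⟨(s n).Λ, (s n).S, fun v => hq ((s n).d true v), (s n).d⟩,
      ⟨hb, le, ⟨_, hL.mul h2, alg.mono fun n a => ?_⟩, ful⟩, inf', lk, lkB, fun _ => 1,
      hb.sub le_rfl, Whp.of_ev (Eventually.of_forall fun n v _ => ?_)⟩
    · have a' := a.mono (le_mul_of_one_le_right (hL.pos n).le (h2.1 n))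
      refine ⟨a'.bx, fun x hx y hy e => ?_, fun v hv =>
        ⟨wf_hq (hL.1 n) (le n).2 ((a.fit v hv).2 true), (a'.fit v hv).2⟩⟩
      have := a.fn x hx y hy e
      simp only [Lq.dat, Prod.mk.injEq] at this ⊢
      exact ⟨by rw [this.2.2.1], this.2⟩
    · have := pf_hq ((s n).d true v) ((g n).z v) ((g n).pt v) 3
      change Geo.dv _ _ _ = 1 at this
      rw [this]
      simp
  · have sd : Sd P g R j m p s := ⟨hb, le, ⟨_, hL, alg⟩, ful⟩
    obtain ⟨L', hL', w⟩ := dn P g R j m p s (fun _ => 1) sd (hb.sub le_rfl) h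
    refine ⟨s, sd, inf', lk, lkB, L', hL', w.mono (al.mono fun n a v hv k => k ?_)⟩
    rcases (a.2 v hv).1.2.1 with e | e
    · exact ⟨2, by rw [one_mul]; exact e⟩
    · exact ⟨3, by rw [one_mul]; exact e⟩

end Pool.Agent.MP_5168f5_an.R4
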