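import Pool.Agent.MP_5168f5_an.R4.SpecE3

/-! The exact conditions of the lattice model. -/

namespace Pool.Agent.MP_5168f5_an.R4

open H19 H17S H17F Matrix

namespace ELatAA

/-- A short vector. -/
def Sh (U : V 5) (N : ℝ) : Prop := U 0 = 0 ∧ |U 1| + |U 2| + |U 3| + |U 4| ≤ N

theorem Sh.le {U : V 5} {N G : ℝ} (h : Sh U N) {A : Qd} {Y : V 5}
    (k : ∀ i : Fin 4, |pf A Y (bv i.succ)| ≤ G) : |pf A Y U| ≤ N * G := by
  have e : U = U 1 • bv 1 + U 2 • bv 2 + U 3 • bv 3 + U 4 • bv 4 := by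
    funext i; fin_cases i <;> simp [bv, h.1]
  have f : ∀ i : Fin 4, |U i.succ * pf A Y (bv i.succ)| ≤ |U i.succ| * G := fun i => by
    rw [abs_mul]; exact mul_le_mul_of_nonneg_left (k i) (abs_nonneg _)
  have e' : pf A Y U = U 1 * pf A Y (bv 1) + U 2 * pf A Y (bv 2) + U 3 * pf A Y (bv 3) +
      U 4 * pf A Y (bv 4) := by
    conv_lhs => rw [e]
    simp only [pf_add_right, pf_smul_right]
  have f1 : |U 1 * pf A Y (bv 1)| ≤ |U 1| * G := f 0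
  have f2 : |U 2 * pf A Y (bv 2)| ≤ |U 2| * G := f 1
  have f3 : |U 3 * pf A Y (bv 3)| ≤ |U 3| * G := f 2
  have f4 : |U 4 * pf A Y (bv 4)| ≤ |U 4| * G := f 3
  have := mul_le_mul_of_nonneg_right h.2 ((abs_nonneg _).trans (k 0))
  rw [abs_le] at f1 f2 f3 f4 ⊢
  constructor <;> linarith [f1.1, f1.2, f2.1, f2.2, f3.1, f3.2, f4.1, f4.2]

theorem qok {A : Qd} {Y δ : V 5} {w : Fin 3 → V 5} {L ε H L' h : ℝ} (hL : 1 ≤ L) (hε : 0 < ε)
    (hH : 5 * ε * H ≤ 1) (hs : Hs A H) (hδ : Sh δ (5 * ε)) (hw : ∀ a, Sh (w a) (2 * L * ε))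
    (h0 : |qf A Y| ≤ L * ε) (h1 : ∀ i : Fin 4, |pf A Y (bv i.succ)| ≤ L)
    (h2 : 2 ≤ pf A Y (bv 4)) (hL' : 9 * L ^ 2 ≤ L') (hh : H ≤ h) : QOK A (Y + δ) w L' ε h := by
  have a1 : ∀ i : Fin 4, |pf A δ (bv i.succ)| ≤ 1 := fun i => by
    rw [pf_comm]; exact (hδ.le (hs i)).trans hH
  have a2 : ∀ i : Fin 4, |pf A (Y + δ) (bv i.succ)| ≤ 2 * L := fun i => by
    rw [pf_add_left]; linarith [abs_add_le (pf A Y (bv i.succ)) (pf A δ (bv i.succ)), h1 i, a1 i]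
  have a3 : ∀ a, ∀ i : Fin 4, |pf A (w a) (bv i.succ)| ≤ L := fun a i => by
    rw [pf_comm]; exact ((hw a).le (hs i)).trans (by nlinarith)
  have b1 : L ≤ L ^ 2 := by nlinarith
  have b2 := mul_le_mul_of_nonneg_right hL' hε.le
  have b3 := mul_le_mul_of_nonneg_right b1 hε.le
  have b4 := mul_le_mul_of_nonneg_right hL hε.le
  have c1 : |pf A δ (bv 4)| ≤ 1 := a1 3
  have c2 : |pf A (Y + δ) (bv 4)| ≤ 2 * L := a2 3
  have c3 : |pf A (bv 4) (bv 4)| ≤ H := hs 3 3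
  refine ⟨?_, ⟨?_, by linarith [le_abs_self (pf A (Y + δ) (bv 4))]⟩,
    fun a => ((hw a).le a2).trans (by linarith), fun a => (a3 a 3).trans (by linarith),
    fun a b => ((hw b).le (a3 a)).trans (by linarith), ?_⟩
  · have d1 := abs_le.1 (hδ.le h1)
    have d2 := abs_le.1 (hδ.le a1)
    have d3 := abs_le.1 h0
    rw [pf_self] at d2
    rw [qf_add, abs_le]
    constructor <;> linarith [d1.1, d1.2, d2.1, d2.2, d3.1, d3.2]
  · rw [pf_add_left]; linarith [(abs_le.1 c1).1]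
  · rw [pf_self, abs_mul, abs_two] at c3
    linarith [abs_nonneg (qf A (bv 4))]

theorem fd (a b : ℝ) {s : ℝ} (hs : 1 ≤ s) : |(⌊a⌋ : ℝ) - s * ⌊b⌋| ≤ |a - s * b| + s := by
  have h1 := Int.floor_le a
  have h2 := Int.lt_floor_add_one a
  have h3 := mul_le_mul_of_nonneg_left (Int.floor_le b) (zero_le_one.trans hs)
  have h4 := mul_le_mul_of_nonneg_left (Int.lt_floor_add_one b).le (zero_le_one.trans hs)
  rw [abs_le]
  constructor <;> linarith [le_abs_self (a - s * b), neg_abs_le (a - s * b)]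

theorem rd_abs (q : ℕ) (x : ℝ) : |rd q x - x| ≤ ((2 : ℝ) ^ q)⁻¹ := by
  have := rd_le q x
  rw [abs_le]; constructor <;> linarith [this.1, this.2]

variable {W : Type} {Q : FP W} {g : Geo 3 W} {s₁ s₂ : Lq W} {L : ℝ} {j r k R : ℕ}

theorem mem {m q : ℕ} {v : W × ℕ} (h : v ∈ (mkL Q g s₁ s₂ j m q).P.S) :
    v.1 ∈ Q.S ∧ (v.2 : ℝ) ≤ 2 ^ (m - j) := by
  have := (mem_bind _ _ v).1 h
  exact ⟨this.1, by exact_mod_cast (Finset.mem_range.1 this.2).le⟩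

/-- The plane at the rounded base point. -/
noncomputable def pv (g : Geo 3 W) (d : Pd) (q : ℕ) (v : W) : ℝ :=
  plv d (rd q (g.z v)) (rd q (g.pt v 0))

theorem Y_eq (v : W × ℕ) : (mkL Q g s₁ s₂ j (j + r) (j + k)).Y v =
    hom (rd (j + k) (g.z v.1)) ![rd (j + k) (g.pt v.1 0), rd (j + k) (g.pt v.1 1) +
      (pv g (s₁.d false v.1) (j + k) v.1 - rd (j + k) (pv g (s₁.d false v.1) (j + k) v.1)) +
        ((2 : ℝ) ^ (j + k))⁻¹ * (v.2 / 2 ^ r), rd (j + k) (g.pt v.1 2)] := by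
  have e : pv g (s₁.d false v.1) (j + k) v.1 - rd (j + k) (pv g (s₁.d false v.1) (j + k) v.1) =
      plv (s₁.d false v.1) (rd (j + k) (g.z v.1)) (rd (j + k) (g.pt v.1 0)) -
        ((2 : ℝ) ^ (j + k))⁻¹ * fl1 (j + k) (pv g (s₁.d false v.1) (j + k) v.1) := rfl
  have e' : (mkL Q g s₁ s₂ j (j + r) (j + k)).n v 2 = 2 ^ (j + r - j) * (g.cx (j + k) 1 v.1 -
      fl1 (j + k) (pv g (s₁.d false v.1) (j + k) v.1)) + v.2 := rfl
  rw [e]
  unfold Lm.Y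
  rw [Fin.sum_univ_three, e']
  generalize fl1 (j + k) (pv g (s₁.d false v.1) (j + k) v.1) = c
  have b3 : bv 3 = ![0, 0, 0, 1, 0] := by funext i; fin_cases i <;> simp [bv]
  have b4 : bv 4 = ![0, 0, 0, 0, 1] := by funext i; fin_cases i <;> simp [bv]
  funext i
  fin_cases i <;> simp [mkL, hom, vec, b3, b4, rd, plv, Geo.ox, Geo.z0, pow_add] <;>
    field_simp <;> ring

theorem sh_Y {v : W × ℕ} (h : v ∈ (mkL Q g s₁ s₂ j (j + r) (j + k)).P.S) :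
    Sh ((mkL Q g s₁ s₂ j (j + r) (j + k)).Y v - g.hp v.1) (5 * ((2 : ℝ) ^ (j + k))⁻¹) := by
  have h1 := (mem h).2
  rw [Nat.add_sub_cancel_left, ← div_le_one (by positivity)] at h1
  have h2 := mul_le_mul_of_nonneg_left h1 (show (0 : ℝ) ≤ (2 ^ (j + k))⁻¹ by positivity)
  have h3 : (0 : ℝ) ≤ (2 ^ (j + k))⁻¹ * (v.2 / 2 ^ r) := by positivity
  have h4 := rd_le (j + k) (g.pt v.1 1)
  have h5 := rd_le (j + k) (pv g (s₁.d false v.1) (j + k) v.1)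
  have h6 : |rd (j + k) (g.pt v.1 1) +
      (pv g (s₁.d false v.1) (j + k) v.1 - rd (j + k) (pv g (s₁.d false v.1) (j + k) v.1)) +
        ((2 : ℝ) ^ (j + k))⁻¹ * (v.2 / 2 ^ r) - g.pt v.1 1| ≤ 2 * ((2 : ℝ) ^ (j + k))⁻¹ := by
    rw [abs_le]; constructor <;> linarith [h4.1, h4.2, h5.1, h5.2]
  rw [Y_eq]
  refine ⟨sub_self (1 : ℝ), (add_le_add (add_le_add (add_le_add (rd_abs (j + k) (g.z v.1))
    (rd_abs (j + k) (g.pt v.1 0))) h6) (rd_abs (j + k) (g.pt v.1 2))).trans_eq (by ring)⟩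

theorem sh_w {q : ℕ} (hL : 1 ≤ L) (v : W × ℕ) (h1 : |(s₁.d false v.1).2.1| ≤ L)
    (h2 : |(s₁.d false v.1).2.2 0| ≤ L) (a : Fin 3) :
    Sh ((mkL Q g s₁ s₂ j (j + r) q).w v a) (2 * L * ((2 : ℝ) ^ q)⁻¹) := by
  have h0 : (0 : ℝ) < (2 ^ q)⁻¹ := by positivity
  have h3 : ((2 : ℝ) ^ r)⁻¹ ≤ 1 := inv_le_one_of_one_le₀ (one_le_pow₀ one_le_two)
  have h4 : ((2 : ℝ) ^ q)⁻¹ * 2 ^ j / 2 ^ (j + r) = (2 ^ q)⁻¹ * (2 ^ r)⁻¹ := by
    rw [pow_add]; field_simp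
  fin_cases a <;> simp [Sh, mkL, vec, bv, h4, abs_mul] <;> nlinarith

theorem bd (hL : 1 ≤ L) (hr : r ≤ k) (A : s₁.Alg g Q L j (j + r) (j + k)) {v : W × ℕ}
    (h : v ∈ (mkL Q g s₁ s₂ j (j + r) (j + k)).P.S) (a : Fin 3) :
    |((mkL Q g s₁ s₂ j (j + r) (j + k)).n v a : ℝ)| ≤ 5 * L * 2 ^ k := by
  obtain ⟨hv, h1⟩ := mem h
  rw [Nat.add_sub_cancel_left] at h1
  have k0 : (1 : ℝ) ≤ 2 ^ k := one_le_pow₀ one_le_two
  have k1 : (2 : ℝ) ^ r ≤ 2 ^ k := pow_le_pow_right₀ one_le_two hr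
  have k2 := mul_le_mul_of_nonneg_right hL (zero_le_one.trans k0)
  fin_cases a
  · have := fd (2 ^ (j + k) * g.z v.1) (2 ^ j * g.z v.1) k0
    rw [show (2 : ℝ) ^ (j + k) * g.z v.1 - 2 ^ k * (2 ^ j * g.z v.1) = 0 by ring, abs_zero] at this
    simp only [mkL, fl1, Nat.add_sub_cancel_left]
    simpa using this.trans (by linarith)
  · have := fd (2 ^ (j + k) * g.pt v.1 0) (2 ^ j * g.lt (g.z0 j v.1) v.1 0) k0
    have h2 : |g.z0 j v.1 - g.z v.1| ≤ ((2 : ℝ) ^ j)⁻¹ := rd_abs j _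
    have h3 := mul_le_mul h2 ((A.bx.bd _ hv).1 0).2 (abs_nonneg _) (by positivity)
    have h4 := mul_le_mul_of_nonneg_left h3 (show (0 : ℝ) ≤ 2 ^ k * 2 ^ j by positivity)
    rw [show (2 : ℝ) ^ (j + k) * g.pt v.1 0 - 2 ^ k * (2 ^ j * g.lt (g.z0 j v.1) v.1 0) =
      -(2 ^ k * 2 ^ j * ((g.z0 j v.1 - g.z v.1) * g.e v.1 0)) by
        simp only [Geo.pt, Geo.lt, Pi.add_apply, Pi.smul_apply, smul_eq_mul]; ring,
      abs_neg, abs_mul, abs_mul (_ - _),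
      abs_of_pos (show (0 : ℝ) < 2 ^ k * 2 ^ j by positivity)] at this
    rw [show (2 : ℝ) ^ k * 2 ^ j * ((2 ^ j)⁻¹ * L) = L * 2 ^ k by field_simp] at h4
    simp only [mkL, fl1, Nat.add_sub_cancel_left]
    simpa using this.trans (by linarith)
  · obtain ⟨f1, f2, f3⟩ := (A.fit _ hv).2 false
    have f4 := f3 _ rfl
    rw [Fin.sum_univ_three, (f2 1).2 (by decide), (f2 2).2 (by decide)] at f4
    have f5 := mul_le_mul f1 (rd_abs (j + k) (g.z v.1)) (abs_nonneg _) (by linarith)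
    have f6 := mul_le_mul (f2 0).1 (rd_abs (j + k) (g.pt v.1 0)) (abs_nonneg _) (by linarith)
    rw [← abs_mul] at f5 f6
    have f7 : |g.pt v.1 1 - pv g (s₁.d false v.1) (j + k) v.1| ≤
        L / 2 ^ (j + r) + 2 * (L * (2 ^ (j + k))⁻¹) := by
      have g4 := abs_le.1 f4
      have g5 := abs_le.1 f5
      have g6 := abs_le.1 f6
      simp only [co, cond_false] at g4
      rw [pv, plv, abs_le]
      unfold Geo.pt at *
      constructor <;> linarith [g4.1, g4.2, g5.1, g5.2, g6.1, g6.2]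
    have f8 := fd (2 ^ (j + k) * g.pt v.1 1) (2 ^ (j + k) * pv g (s₁.d false v.1) (j + k) v.1) le_rfl
    rw [one_mul, one_mul, ← mul_sub, abs_mul,
      abs_of_pos (show (0 : ℝ) < 2 ^ (j + k) by positivity)] at f8
    have f9 := mul_le_mul_of_nonneg_left (f8.trans (add_le_add (mul_le_mul_of_nonneg_left f7
      (by positivity)) le_rfl)) (show (0 : ℝ) ≤ 2 ^ r by positivity)
    rw [show (2 : ℝ) ^ r * (2 ^ (j + k) * (L / 2 ^ (j + r) + 2 * (L * (2 ^ (j + k))⁻¹)) + 1) =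
      L * 2 ^ k + 2 * (L * 2 ^ r) + 2 ^ r by simp only [pow_add]; field_simp] at f9
    have e : (((mkL Q g s₁ s₂ j (j + r) (j + k)).n v 2 : ℤ) : ℝ) = 2 ^ r *
        ((⌊2 ^ (j + k) * g.pt v.1 1⌋ : ℝ) - ⌊2 ^ (j + k) * pv g (s₁.d false v.1) (j + k) v.1⌋) +
          v.2 := by
      simp [mkL, fl1, pv]
    refine (congrArg abs e).trans_le ((abs_add_le _ _).trans ?_)
    rw [abs_mul, abs_of_pos (show (0 : ℝ) < 2 ^ r by positivity), Nat.abs_cast]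
    linarith [mul_le_mul_of_nonneg_left k1 (zero_le_one.trans hL)]

end ELatAA

open ELatAA in
theorem rowELatA : ELatA := by
  refine ⟨9, by norm_num, fun Q g s₁ s₂ L j m q R h => ?_⟩
  obtain ⟨hL, h1, h2, h3⟩ := h.le
  obtain ⟨r, rfl⟩ := Nat.exists_eq_add_of_le h1
  obtain ⟨k, rfl⟩ := Nat.exists_eq_add_of_le (h1.trans h2)
  have l1 : L ^ 2 ≤ L ^ 3 := pow_le_pow_right₀ hL (by norm_num)
  have l2 : L ≤ L ^ 2 := by nlinarith
  have key : ∀ s : Lq _, s.Alg g Q L j (j + r) (j + k) → ∀ v ∈ (mkL Q g s₁ s₂ j (j + r) (j + k)).P.S,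
      Hs (s.A v.1) (L * 2 ^ (j + k) / 2 ^ R) → 2 ≤ g.dv (s.A v.1) v.1 →
      QOK (s.A v.1) ((mkL Q g s₁ s₂ j (j + r) (j + k)).Y v) ((mkL Q g s₁ s₂ j (j + r) (j + k)).w v)
        (9 * L ^ 3) (2 ^ (j + k))⁻¹ (9 * L ^ 3 * 2 ^ (j + k) / 2 ^ R) := fun s A v hv a b => by
    have f := (h.a₁.fit _ (mem hv).1).2 false
    have w := (A.fit _ (mem hv).1).1 _ rfl
    rw [← add_sub_cancel (g.hp v.1) ((mkL Q g s₁ s₂ j (j + r) (j + k)).Y v)]
    refine qok hL (by positivity) ?_ a (sh_Y hv) (sh_w hL v f.1 (f.2.1 0).1) w.1 w.2 b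
      (by linarith) (by gcongr; linarith)
    rw [show 5 * ((2 : ℝ) ^ (j + k))⁻¹ * (L * 2 ^ (j + k) / 2 ^ R) = 5 * L / 2 ^ R by field_simp]
    exact (div_le_one (by positivity)).2 h3
  refine ⟨fun a ha b hb e => ?_, fun a ha b hb e => ?_, fun a _ b _ e => ?_, fun a _ b _ e => ?_,
    fun v hv a => (bd hL (by omega) h.a₁ hv a).trans ?_,
    fun v hv => key s₁ h.a₁ v hv (h.hs _ (mem hv).1).1.1 (h.hs _ (mem hv).1).1.2,
    fun v hv => key s₂ h.a₂ v hv (h.hs _ (mem hv).1).2.1 (h.hs _ (mem hv).1).2.2⟩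
  · exact Prod.ext (Prod.mk.inj (h.a₁.fn _ (mem ha).1 _ (mem hb).1 e)).1
      (h.a₁.wc _ (mem ha).1 _ (mem hb).1 e)
  · exact Prod.ext (Prod.mk.inj (h.a₂.fn _ (mem ha).1 _ (mem hb).1 e)).1
      ((h.fr ▸ h.a₂.wc) _ (mem ha).1 _ (mem hb).1 e)
  · obtain ⟨e1, e2⟩ := Prod.mk.inj e
    refine Prod.ext ?_ e2
    simp only [mkL, cons_val_zero, Geo.cz, e1]
  · obtain ⟨e1, e2⟩ := Prod.mk.inj e
    obtain ⟨e3, e4⟩ := Prod.mk.inj (Prod.mk.inj e2).2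
    have e5 : g.z0 j a.1 = g.z0 j b.1 := congrArg (fun c : ℤ => ((2 : ℝ) ^ j)⁻¹ * c) e3
    have e6 : g.ox j a.1 = g.ox j b.1 := congrArg (fun c : Z 3 => ((2 : ℝ) ^ j)⁻¹ * c 0) e4
    simp only [mkL, e1, e5, e6]
  · rw [Nat.add_sub_cancel_left]
    exact mul_le_mul_of_nonneg_right (by linarith) (by positivity)

end Pool.Agent.MP_5168f5_an.R4
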