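import Pool.Agent.MP_5168f5_an.R4.SpecE3

/-! The entropy of the lattice point given a label. -/

namespace Pool.Agent.MP_5168f5_an.R4

open H19 H17S H17F Matrix Filter

namespace ELatFA

theorem noise {W α β : Type} (Q : FP W) (h : ℕ) (T : W → α) (S : W → β) :
    ch (prod Q (uN h)) (fun v => (T v.1, v.2)) (fun v => S v.1) = ch Q T S + h * lg := by
  have e : prod Q (uN h) = glue Q (uN h) (fun _ => ()) fun _ => () :=
    congrArg (H17F.bind Q) (funext fun _ =>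
      ((cE_congr fun _ _ => by simp).trans (cE_true (uN h))).symm)
  rw [e, ch_chain, (kg.fst _ _ _ _).ch_id T S]
  refine congrArg _ ((kg.mk1 Q (uN h) _ _ id (fun w => (T w, S w))
    (fun F => by simp [FP.E_const]) fun _ _ _ _ _ => rfl).trans ?_)
  rw [ch_unit, ← log_two_pow, hh, FP.H_congr (T := ⊥) _ fun _ _ _ _ => by simp [Setoid.ker_def],
    uN, FP.H_unif]
  simp

theorem digit {N x y : ℤ} {u v : ℕ} (hu : (u : ℤ) < N) (hv : (v : ℤ) < N)
    (e : N * x + u = N * y + v) : x = y ∧ u = v := by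
  have h : x = y := by
    rcases lt_trichotomy x y with h | h | h
    · nlinarith [Int.natCast_nonneg v]
    · exact h
    · nlinarith [Int.natCast_nonneg u]
  rw [h] at e
  exact ⟨h, by exact_mod_cast add_left_cancel e⟩

end ELatFA

open ELatFA

theorem rowELatF : ELatF := by
  intro W Λ Q g s₁ s₂ j m q S hS
  have a1 := noise Q (m - j) (fun v => (g.cz q v, g.cx q 0 v, g.cx q 1 v)) S
  rw [ch_chain (g.cz q) fun v => (g.cx q 0 v, g.cx q 1 v), ch_chain (g.cx q 0)] at a1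
  have a2 := ch_anti (P := Q) (F := g.cx q 0) (G := fun v => (g.cz q v, S v))
    (G' := fun v => (S v, g.zt v)) fun _ _ _ _ e => by
      simp only [Geo.zt, Geo.cz, Prod.mk.injEq] at e ⊢
      exact ⟨by rw [e.2.1], e.1⟩
  have a3 := ch_anti (P := Q) (F := g.cx q 1) (G := fun v => (g.cx q 0 v, g.cz q v, S v))
    (G' := fun v => (g.cx q 0 v, S v, g.zt v)) fun _ _ _ _ e => by
      simp only [Geo.zt, Geo.cz, Prod.mk.injEq] at e ⊢
      exact ⟨e.1, by rw [e.2.2.1], e.2.1⟩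
  refine le_trans (le_trans (by linarith) a1.ge) (ch_mono fun a ha b hb e => ?_)
  obtain ⟨h1, h2⟩ := (mem_bind _ _ a).1 ha
  obtain ⟨h3, h4⟩ := (mem_bind _ _ b).1 hb
  obtain ⟨e1, e2⟩ := Prod.mk.inj e
  have e3 := hS _ h1 _ h3 e2
  simp only [Geo.wc, Prod.mk.injEq] at e3
  have c0 : g.cz q a.1 - 2 ^ (q - j) * fl1 j (g.z a.1) = g.cz q b.1 - 2 ^ (q - j) * fl1 j (g.z b.1) :=
    congrFun e1 0
  have c1 : g.cx q 0 a.1 - 2 ^ (q - j) * fl j (g.lt (g.z0 j a.1) a.1) 0 =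
      g.cx q 0 b.1 - 2 ^ (q - j) * fl j (g.lt (g.z0 j b.1) b.1) 0 := congrFun e1 1
  rw [e3.2.2.1, sub_left_inj] at c0
  rw [e3.2.2.2, sub_left_inj] at c1
  have c2 : 2 ^ (m - j) * (g.cx q 1 a.1 - fl1 q (plv (s₁.d false a.1)
      (((2 : ℝ) ^ q)⁻¹ * g.cz q a.1) (((2 : ℝ) ^ q)⁻¹ * g.cx q 0 a.1))) + a.2 =
      2 ^ (m - j) * (g.cx q 1 b.1 - fl1 q (plv (s₁.d false b.1)
      (((2 : ℝ) ^ q)⁻¹ * g.cz q b.1) (((2 : ℝ) ^ q)⁻¹ * g.cx q 0 b.1))) + b.2 := congrFun e1 2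
  rw [e3.1, c0, c1] at c2
  obtain ⟨c3, c4⟩ := digit (by exact_mod_cast Finset.mem_range.1 h2)
    (by exact_mod_cast Finset.mem_range.1 h4) c2
  exact Prod.ext (Prod.ext c0 (Prod.ext c1 (sub_left_inj.1 c3))) c4

end Pool.Agent.MP_5168f5_an.R4
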