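import Pool.Agent.MP_5168f5_an.R4.SpecE3

/-! The lattice model: the height is independent of the second label and the lattice point. -/

namespace Pool.Agent.MP_5168f5_an.R4

open H19 H17S H17F Matrix Filter

namespace ELatIA

variable {W W' α β γ : Type}

theorem prod_eq (Q : FP W) (U : FP W') : prod Q U = glue Q U (fun _ => ()) fun _ => () := by
  unfold prod glue cv
  congr 1
  funext _
  rw [cE_congr (E' := fun _ => True) fun _ _ => by simp, cE_true]

theorem law_fst (Q : FP W) (U : FP W') : Law (prod Q U) Prod.fst Q id := by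
  rw [prod_eq]; exact kg.fst _ _ _ _

/-- Independent noise does not help. -/
theorem noise (Q : FP W) (U : FP W') (F : W → α) (G : W → β) :
    ch Q F G ≤ ch (prod Q U) (fun v => F v.1) fun v => (v.2, G v.1) := by
  rw [prod_eq, kg.mkv' Q U _ _ F G (fun v => v) (fun _ => by simp [FP.E_const])
    fun _ _ _ _ _ => rfl]
  exact ch_anti fun _ _ _ _ e => congrArg (Prod.mk ()) e

theorem mi_noise (Q : FP W) (U : FP W') (F : W → α) (G : W → β) (K : W → γ) :
    mi (prod Q U) (fun v => F v.1) (fun v => (G v.1, v.2)) (fun v => K v.1) ≤ mi Q F G K := by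
  have h1 := (law_fst Q U).ch_id F K
  have h2 := noise Q U F fun v => (G v, K v)
  have h3 : ch (prod Q U) (fun v => F v.1) (fun v => (v.2, G v.1, K v.1)) ≤
      ch (prod Q U) (fun v => F v.1) fun v => ((G v.1, v.2), K v.1) :=
    ch_anti fun a _ b _ e => by simp only [Prod.mk.injEq] at e ⊢; tauto
  unfold mi
  linarith

/-- The lattice point as a function of the cells, the context and the noise. -/
noncomputable def nf {T : Type} (j m q : ℕ) (c x u : ℤ) (w : Pd × T × ℤ × Z 3) (U : ℕ) : Z 3 :=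
  ![c - 2 ^ (q - j) * w.2.2.1, x - 2 ^ (q - j) * w.2.2.2 0,
    2 ^ (m - j) * (u - fl1 q (plv w.1 (((2 : ℝ) ^ q)⁻¹ * c) (((2 : ℝ) ^ q)⁻¹ * x))) + U]

theorem ch_cx {Q : FP W} {g : Geo 3 W} {L : ℝ} (hL : 1 ≤ L) (h : g.Bx Q L) (q : ℕ) (i : Fin 3) :
    ch Q (g.cx q i) (fun v => (g.ln v, g.cz q v)) ≤ Real.log (8 * L) := by
  refine (ch_near1 (x := fun v => g.pt v i) (L := L) (by linarith) fun a ha b _ e => ?_).trans
    (Real.log_le_log (by linarith) (by linarith))
  have e1 : g.a a = g.a b := congrArg (fun x => x.1.1) e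
  have e2 : g.e a = g.e b := congrArg (fun x => x.1.2.1) e
  have e3 := (abs_sub_lt_of_fl1_eq (congrArg Prod.snd e : fl1 q (g.z a) = fl1 q (g.z b))).le
  have e4 : g.pt a i - g.pt b i = g.e a i * (g.z a - g.z b) := by
    simp only [Geo.pt, Geo.lt, Pi.add_apply, Pi.smul_apply, smul_eq_mul, ← e1, ← e2]; ring
  rw [e4, abs_mul, div_eq_mul_inv]
  exact mul_le_mul ((h.bd a ha).1 i).2 e3 (abs_nonneg _) (by linarith)

end ELatIA

open ELatIA in
theorem rowELatI : ELatI := by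
  intro W Q g s₁ s₂ L j m q a hL bx _ aq fn
  set U := uN (m - j)
  set w := g.wc j (s₁.d false)
  let G : W → (V 3 × V 3 × g.T) × s₂.Λ := fun v => (g.ln v, s₂.S v)
  let K : W → ℤ × Pd × g.T × ℤ × Z 3 := fun v => (g.cz q v, w v)
  let n : W × ℕ → Z 3 := fun v => nf j m q (g.cz q v.1) (g.cx q 0 v.1) (g.cx q 1 v.1) (w v.1) v.2
  change mi (prod Q U) (fun v => (g.z v.1, w v.1)) (fun v => (s₂.S v.1, n v))
    (fun v => (n v 0, w v.1)) ≤ mi Q g.z G (fun v => (g.cz a v, g.θ v)) + _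
  have h1 : mi (prod Q U) (fun v => (g.z v.1, w v.1)) (fun v => (s₂.S v.1, n v))
      (fun v => (n v 0, w v.1)) ≤ mi (prod Q U) (fun v => g.z v.1) (fun v => (s₂.S v.1, n v))
      fun v => (n v 0, w v.1) :=
    mi_mono' fun a _ b _ e => by simp only [Prod.mk.injEq] at e ⊢; tauto
  have h2 : mi (prod Q U) (fun v => g.z v.1) (fun v => (s₂.S v.1, n v)) (fun v => (n v 0, w v.1)) ≤
      mi (prod Q U) (fun v => g.z v.1)
        (fun v => ((G v.1, v.2), g.cx q 0 v.1, g.cx q 1 v.1)) fun v => K v.1 := by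
    refine mi_right (fun a _ b _ e => ?_) (fun a _ b _ e => ?_) fun a _ b _ e => ?_
    · have e1 : w a.1 = w b.1 := congrArg Prod.snd e
      have e2 : g.cz q a.1 - 2 ^ (q - j) * (w a.1).2.2.1 =
          g.cz q b.1 - 2 ^ (q - j) * (w b.1).2.2.1 := congrArg Prod.fst e
      rw [e1, sub_left_inj] at e2
      exact Prod.ext e2 e1
    · simp only [K, Prod.mk.injEq] at e
      have : n a 0 = n b 0 := by
        change g.cz q a.1 - 2 ^ (q - j) * (w a.1).2.2.1 = g.cz q b.1 - 2 ^ (q - j) * (w b.1).2.2.1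
        rw [e.2.1, e.2.2]
      exact Prod.ext this e.2.2
    · simp only [K, G, Prod.mk.injEq] at e
      obtain ⟨⟨⟨⟨-, e1⟩, e2⟩, e3, e4⟩, e5, e6⟩ := e
      refine Prod.ext e1 ?_
      change nf j m q _ _ _ _ _ = nf j m q _ _ _ _ _
      rw [e2, e3, e4, e5, e6]
  rw [mi_chain _ fun v : W × ℕ => (G v.1, v.2), mi_symm _ fun v : W × ℕ => (g.cx q 0 v.1, g.cx q 1 v.1)] at h2
  have h3 := mi_le (P := prod Q U) (fun v : W × ℕ => (g.cx q 0 v.1, g.cx q 1 v.1))
    (fun v => g.z v.1) fun v => ((G v.1, v.2), K v.1)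
  have h4 : ch (prod Q U) (fun v : W × ℕ => (g.cx q 0 v.1, g.cx q 1 v.1))
      (fun v => ((G v.1, v.2), K v.1)) ≤ ch (prod Q U)
      (fun v : W × ℕ => (g.cx q 0 v.1, g.cx q 1 v.1)) fun v => (g.ln v.1, g.cz q v.1) :=
    ch_anti fun a _ b _ e => by simp only [K, G, Prod.mk.injEq] at e ⊢; tauto
  have h5 := (law_fst Q U).ch_id (fun v => (g.cx q 0 v, g.cx q 1 v)) fun v => (g.ln v, g.cz q v)
  have h6 := ch_subadd (P := Q) (g.cx q 0) (g.cx q 1) fun v => (g.ln v, g.cz q v)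
  have h7 := mi_noise Q U g.z G K
  have h8 : mi Q g.z G K ≤ mi Q g.z G fun v => (g.cz q v, g.θ v) :=
    mi_right (fun a _ b _ e => Prod.ext (congrArg Prod.fst e :) (congrArg (fun x => x.2.2.1) e :))
      (fun a ha b hb e => Prod.ext (congrArg (fun x => x.2.1) e :)
        (fn a ha b hb (congrArg (fun x => x.1.2) e :))) (Fn.fst _ _)
  have h9 : mi Q g.z G (fun v => (g.cz q v, g.θ v)) ≤ mi Q g.z G fun v => (g.cz a v, g.θ v) :=
    mi_left (fun a _ b _ e => Prod.ext (fl1_eq_of_le aq (congrArg Prod.fst e :))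
        (congrArg Prod.snd e :))
      (fun a _ b _ e => Prod.ext (congrArg (fun x => fl1 q x.1) e :)
        (congrArg (fun x => x.2.2) e :)) (Fn.fst _ _)
  linarith [ch_cx hL bx q 0, ch_cx hL bx q 1]

end Pool.Agent.MP_5168f5_an.R4
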