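import Pool.Agent.MP_5168f5_an.R4.SpecE3

/-! The first two coordinates are full in every window. -/

namespace Pool.Agent.MP_5168f5_an.R4

open H19 H17S H17F Filter

namespace ELatUA

variable {W Λ : Type} {Q : FP W}

theorem cnt {α β : Type} {F : W → α} {G : W → β} {c : ℝ} {a i : ℕ} (hc : 0 < c) (hi : i ≤ a)
    (h : Det Q F G (c * 2 ^ (a - i))) : ch Q F G ≤ Real.log c + (a - i) * lg := by
  have := ch_det h
  rwa [Real.log_mul hc.ne' (by positivity), log_two_pow, Nat.cast_sub hi] at this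

theorem fin (g : Geo 3 W) (S : W → Λ) (a : ℕ) {b p : ℕ} (h : b ≤ p) :
    ch Q (g.cx p 0) (fun v => (S v, g.zt v)) + ch Q (g.cx p 1) (fun v => (g.cx p 0 v, S v, g.zt v))
      ≤ ch Q (g.cx a 0) (fun v => (S v, g.zt v)) +
        ch Q (g.cx a 1) (fun v => (g.cx a 0 v, S v, g.zt v)) +
        ch Q (g.cx a 2) (fun v => (g.cx a 0 v, g.cx a 1 v, S v, g.zt v)) +
        ch Q (fun v => (g.cx b 0 v, g.cx b 1 v)) (fun v => (fl a (g.pt v), g.zt v)) +
        2 * (p - b) * lg := by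
  have h1 := ch_chain (P := Q) (g.cx p 0) (g.cx p 1) fun v => (S v, g.zt v)
  have h2 := ch_tri (P := Q) (fun v => (g.cx p 0 v, g.cx p 1 v)) (g.cx a 0)
    fun v => (S v, g.zt v)
  have h3 := ch_tri (P := Q) (fun v => (g.cx p 0 v, g.cx p 1 v)) (g.cx a 1)
    fun v => (g.cx a 0 v, S v, g.zt v)
  have h4 := ch_tri (P := Q) (fun v => (g.cx p 0 v, g.cx p 1 v)) (g.cx a 2)
    fun v => (g.cx a 1 v, g.cx a 0 v, S v, g.zt v)
  have h5 := ch_tri (P := Q) (fun v => (g.cx p 0 v, g.cx p 1 v))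
    (fun v => (g.cx b 0 v, g.cx b 1 v)) fun v => (g.cx a 2 v, g.cx a 1 v, g.cx a 0 v, S v, g.zt v)
  have h6 := ch_subadd (P := Q) (g.cx p 0) (g.cx p 1) fun v =>
    ((g.cx b 0 v, g.cx b 1 v), g.cx a 2 v, g.cx a 1 v, g.cx a 0 v, S v, g.zt v)
  have h7 := KBA.refine (P := Q) (x := fun v => g.pt v 0) (G := fun v =>
    ((g.cx b 0 v, g.cx b 1 v), g.cx a 2 v, g.cx a 1 v, g.cx a 0 v, S v, g.zt v)) h
    fun _ _ _ _ e => congrArg (·.1.1) e
  have h8 := KBA.refine (P := Q) (x := fun v => g.pt v 1) (G := fun v =>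
    ((g.cx b 0 v, g.cx b 1 v), g.cx a 2 v, g.cx a 1 v, g.cx a 0 v, S v, g.zt v)) h
    fun _ _ _ _ e => congrArg (·.1.2) e
  have h9 : ch Q (g.cx a 2) (fun v => (g.cx a 1 v, g.cx a 0 v, S v, g.zt v)) ≤
      ch Q (g.cx a 2) fun v => (g.cx a 0 v, g.cx a 1 v, S v, g.zt v) :=
    ch_anti fun _ _ _ _ e => Prod.ext (congrArg (·.2.1) e)
      (Prod.ext (congrArg (·.1) e) (congrArg (·.2.2) e))
  have h10 : ch Q (fun v => (g.cx b 0 v, g.cx b 1 v))
      (fun v => (g.cx a 2 v, g.cx a 1 v, g.cx a 0 v, S v, g.zt v)) ≤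
      ch Q (fun v => (g.cx b 0 v, g.cx b 1 v)) fun v => (fl a (g.pt v), g.zt v) :=
    ch_anti fun _ _ _ _ e => Prod.ext (funext fun i => by
      fin_cases i
      exacts [congrArg (·.2.2.1) e, congrArg (·.2.1) e, congrArg (·.1) e])
      (congrArg (·.2.2.2.2) e)
  linarith

end ELatUA

theorem rowELatU : OfELatU := by
  intro ⟨C, c1, cnt⟩ W Q g R j m p a b s h k
  obtain ⟨L, sL, al⟩ := h.alg
  have s1 := sL.const_mul h.big c1
  refine Le.of3 h.ful.x h.ful.u (s1.log.smul (c := 3) (by norm_num)) ?_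
  filter_upwards [al, k] with n u ⟨k1, k2, k3, k4⟩
  obtain ⟨d1, d2, d3⟩ := cnt (Q n) (g n) (s n) (L n) (j n) (m n) (p n) (a n) (sL.1 n) u
  have ja := (h.le n).1.trans k1
  have e1 := ELatUA.cnt (s1.pos n) ja (d1 ja).2
  have e2 := ELatUA.cnt (s1.pos n) k1 (d2 k1)
  have e3 := ch_det (d3 1 le_rfl (k2.trans k3) fun v hv =>
    ((k4 v hv).trans (le_abs_self _)).trans (one_mul _).ge)
  rw [mul_one] at e3
  linarith [ELatUA.fin (Q := Q n) (g n) (s n).S (a n) k3]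

end Pool.Agent.MP_5168f5_an.R4
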