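import Pool.Agent.MP_5168f5_an.R4.SpecE3

/-! The conclusion of the extension step bounds the quadric profile from below. -/

namespace Pool.Agent.MP_5168f5_an.R4

open H19 H17S H17F Matrix Filter

namespace ELemAA

theorem thin_up {N : ℕ} {Ω : ℕ → Type} {P : ∀ n, FP (Ω n)} {g : Gs N Ω} {R M j τ : ℕ → ℕ}
    {s : ∀ n, Shp (Ω n)} (h : Thin P g R s j τ) (e : ∀ n, R n ≤ M n) : Thin P g M s j τ := by
  obtain ⟨Λ, lam, d, L, a, b, c⟩ := h
  exact ⟨Λ, lam, d, L, ⟨Le.up a.h e, Le.up a.l e⟩, b.up e, c⟩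

theorem pick {W : Type} (g : Geo 3 W) (P : FP W) (C B : ℝ) (j R p : ℕ) :
    ∃ (W' Λ : Type) (Q : FP W') (ρ : W' → W) (lam : W' → Λ) (A : W' → Qd) (τ : ℕ),
      g.Pi P C B j R p → K31.Dn C Q ρ P ∧ (g.pull ρ).hk Q j lam ≤ C * B ∧
        (g.pull ρ).lk Q lam ≤ C * B ∧ Fn Q A lam ∧ p ≤ τ + 5 * R ∧ τ ≤ p ∧
        ∀ v ∈ Q.S, 1 ≤ gy (A v) (g.hp (ρ v)) ∧ gy (A v) (g.hp (ρ v)) ≤ 2 ^ p ∧
          |qf (A v) (g.hp (ρ v))| ≤ 1 / 2 ^ τ ∧ Hs (A v) (2 ^ τ / 128) := by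
  by_cases h : g.Pi P C B j R p
  · obtain ⟨W', Λ, Q, ρ, lam, A, τ, h⟩ := h
    exact ⟨W', Λ, Q, ρ, lam, A, τ, fun _ => h⟩
  · exact ⟨W, Unit, P, id, fun _ => (), fun _ => 0, 0, fun k => absurd k h⟩

end ELemAA

open ELemAA in
theorem rowELemA : OfELemA := by
  intro pr' nl nq Ω K g M η F X j R B c c' go hX hR hB h0 hc h1 hj hl ⟨C, hC⟩
  choose W Λ Q ρ lam A τ h using fun n =>
    pick (X.G (g.fin M) n) (X n).Q C (B n) (j n) (R n) (M n)
  have ev := hC.mono fun n a => h n a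
  have hM : Big M := (go.cls.bs X hX).big
  have C1 : 1 ≤ C := ev.exists.elim fun n a => a.1.one_le
  have hX' : K (X.ext Q ρ) := go.cls.cl0.dn hX ⟨C, by linarith, ev.mono fun n a => a.1⟩
  have hCB := hB.smul (zero_le_one.trans C1)
  have lab : Lab (X.ext Q ρ).P ((X.ext Q ρ).G (g.fin M)) M j lam :=
    ⟨hCB.mono (ev.mono fun n a => a.2.1), hCB.mono (ev.mono fun n a => a.2.2.1)⟩
  obtain ⟨E, hE, th⟩ := nq (X.ext Q ρ).P ((X.ext Q ρ).G (g.fin M)) R j τ M M lam A (fun _ => 1)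
    (nl K (g.fin M) M R j 0 η _ lam go.cls.toCls0 hX' lab hR fun n => by have := hj n; omega)
    ((hM.frac hR).sub le_rfl) ((Sub.nat hM).frac hR)
    (fun i => ⟨fun _ => 1, (hM.frac hR).sub le_rfl, Eventually.of_forall fun n a _ b _ e => by
      rw [one_div]; exact (abs_sub_lt_of_fl1_eq (congrFun (congrArg Prod.fst e) i)).le⟩)
    (ev.mono fun n a => ⟨by have := hj n; omega, a.2.2.2.2.2.1, a.2.2.2.1⟩)
    (Pos.of_ev (ev.mono fun n a v hv => by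
      obtain ⟨b1, b2, b3, b4⟩ := a.2.2.2.2.2.2 v hv
      have t1 : (1 : ℝ) ≤ 2 ^ M n := one_le_pow₀ one_le_two
      have t2 : (0 : ℝ) < 2 ^ τ n := by positivity
      refine ⟨one_le_mul_of_one_le_of_one_le t1 b1, b2, b3.trans ?_, fun i l => ?_⟩
      · rw [one_mul]; exact div_le_div_of_nonneg_right b1 t2.le
      · have b5 := b4 i l
        have b6 := le_mul_of_one_le_left t2.le b1
        exact le_trans (by linarith) b6))
  refine ((pr' K g M η F go).thin iQ ((X.ext Q ρ).cond E) j τ c c' (go.cls.cl0.cond _ E hX' hE)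
    h0 hc h1 (hl.and (ev.mono fun n a => a.2.2.2.2.2.1)) (thin_up th hR.1)).of_sub
    (ev.mono fun n a => ?_)
  have : (M n : ℝ) ≤ τ n + 5 * R n := by exact_mod_cast a.2.2.2.2.1
  linarith

end Pool.Agent.MP_5168f5_an.R4
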