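import Pool.Agent.MP_5168f5_an.R4.SpecE3

/-! The lattice model satisfies the hypotheses of the core. -/

namespace Pool.Agent.MP_5168f5_an.R4

open H19 H17S H17F Filter

namespace ELmA

theorem dig {h a b : ℕ} {x y : ℤ} (ha : a < 2 ^ h) (hb : b < 2 ^ h)
    (e : 2 ^ h * x + a = 2 ^ h * y + b) : x = y := by
  have p : (0 : ℤ) < 2 ^ h := by positivity
  have k : ∀ (x : ℤ) (a : ℕ), a < 2 ^ h → (2 ^ h * x + a) / 2 ^ h = x := fun x a ha => by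
    rw [add_comm, Int.add_mul_ediv_left _ _ p.ne',
      Int.ediv_eq_zero_of_lt (Nat.cast_nonneg _) (by exact_mod_cast ha), zero_add]
  rw [← k x a ha, e, k y b hb]

variable {W : Type} {Q : FP W} {g : Geo 3 W} {s₁ s₂ : Lq W} {j m q : ℕ}

theorem det {u v : W × ℕ} (hu : u ∈ (mkL Q g s₁ s₂ j m q).P.S)
    (hv : v ∈ (mkL Q g s₁ s₂ j m q).P.S)
    (e1 : (mkL Q g s₁ s₂ j m q).n u = (mkL Q g s₁ s₂ j m q).n v)
    (e2 : (mkL Q g s₁ s₂ j m q).σ u = (mkL Q g s₁ s₂ j m q).σ v) :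
    g.cx q 0 u.1 = g.cx q 0 v.1 ∧ g.cx q 1 u.1 = g.cx q 1 v.1 ∧ g.zt u.1 = g.zt v.1 := by
  have z : g.z u.1 = g.z v.1 := congrArg (·.1) e2
  have d : s₁.d false u.1 = s₁.d false v.1 := congrArg (·.2.1) e2
  have t : g.θ u.1 = g.θ v.1 := congrArg (·.2.2.1) e2
  have c : fl1 j (g.lt (g.z0 j u.1) u.1 0) = fl1 j (g.lt (g.z0 j v.1) v.1 0) :=
    congrArg (·.2.2.2.2 0) e2
  have n1 : g.cx q 0 u.1 - 2 ^ (q - j) * fl1 j (g.lt (g.z0 j u.1) u.1 0) =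
      g.cx q 0 v.1 - 2 ^ (q - j) * fl1 j (g.lt (g.z0 j v.1) v.1 0) := congrFun e1 1
  rw [c, sub_left_inj] at n1
  have n2 := dig (Finset.mem_range.1 ((mem_bind _ _ u).1 hu).2)
    (Finset.mem_range.1 ((mem_bind _ _ v).1 hv).2) (congrFun e1 2)
  have r : rd q (g.pt u.1 0) = rd q (g.pt v.1 0) :=
    congrArg (fun x : ℤ => ((2 : ℝ) ^ q)⁻¹ * x) n1
  rw [z, d, r, sub_left_inj] at n2
  exact ⟨n1, n2, Prod.ext z t⟩

theorem fin {W' : Type} (Q' : FP W') (ρ : W' → W × ℕ) {a b : ℕ} (ha : a ≤ b) (hb : b ≤ q)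
    (hρ : ∀ v ∈ Q'.S, ρ v ∈ (mkL Q g s₁ s₂ j m q).P.S) :
    ch Q' (fun v => (g.cx b 0 (ρ v).1, g.cx b 1 (ρ v).1))
        (fun v => (fl a (g.pt (ρ v).1), g.zt (ρ v).1)) +
      ch Q' (fun v => fl1 b ((mkL Q g s₁ s₂ j m q).f (ρ v))) (fun v =>
        (fl1 a ((mkL Q g s₁ s₂ j m q).f (ρ v)), (mkL Q g s₁ s₂ j m q).n (ρ v),
          (mkL Q g s₁ s₂ j m q).σ (ρ v))) ≤
      ch Q' (fun v => fl b (g.pt (ρ v).1)) fun v => (fl a (g.pt (ρ v).1), g.zt (ρ v).1) := by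
  have e : (fun v => fl1 b ((mkL Q g s₁ s₂ j m q).f (ρ v))) = fun v => g.cx b 2 (ρ v).1 :=
    funext fun v => fl1_rd hb _
  rw [e]
  refine le_trans (add_le_add le_rfl (ch_anti fun u hu v hv k => ?_))
    ((ch_chain _ (fun v => g.cx b 2 (ρ v).1) _).symm.trans_le (ch_mono fun u _ v _ k => ?_))
  · obtain ⟨k0, k1, k2⟩ := det (hρ u hu) (hρ v hv) (congrArg (·.2.1) k) (congrArg (·.2.2) k)
    have k3 : fl1 a (rd q (g.pt (ρ u).1 2)) = fl1 a (rd q (g.pt (ρ v).1 2)) := congrArg (·.1) k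
    rw [fl1_rd (ha.trans hb), fl1_rd (ha.trans hb)] at k3
    refine Prod.ext (Prod.ext (fl1_eq_of_le hb k0) (fl1_eq_of_le hb k1))
      (Prod.ext (funext fun i => ?_) k2)
    fin_cases i
    exacts [fl1_eq_of_le (ha.trans hb) k0, fl1_eq_of_le (ha.trans hb) k1, k3]
  · exact Prod.ext (Prod.ext (congrArg (·.1 0) k) (congrArg (·.1 1) k)) (congrArg (·.1 2) k)

end ELmA

theorem rowELm : OfELm := by
  intro sd ⟨C, c1, lA⟩ lF lI lU W P g R j m p q η e₀ B X s₁ s₂ h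
  have hR := h.tw.sd₁.big
  obtain ⟨L, sL, la⟩ := h.la
  have n1 := h.eb.le
  have n2 := h.le
  have ful : ∀ {Λ : ℕ → Type} (S : ∀ n, (X n).W → Λ n), Ful X.P (X.G g) R j m q S →
      (∀ᶠ n in UF, Fn (X n).Q ((X.G g n).wc (j n) ((s₁ n).d false)) (S n)) →
      Le R (fun n => 3 * ((q n - j n : ℕ) : ℝ) * lg) fun n =>
        ch (mkL (X n).Q (X.G g n) (s₁ n) (s₂ n) (j n) (m n) (q n)).P
          (mkL (X n).Q (X.G g n) (s₁ n) (s₂ n) (j n) (m n) (q n)).n fun v => S n v.1 :=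
    fun S f k => Le.of3 f.t f.x f.u (k.mono fun n a => by
      have := lF (X n).Q (X.G g n) (s₁ n) (s₂ n) (j n) (m n) (q n) (S n) a
      rw [Nat.cast_sub (n1 n).1] at this
      rw [Nat.cast_sub ((n1 n).1.trans (n2 n).1)]
      linarith)
  have w2 : ∀ᶠ n in UF, Fn (X n).Q ((X.G g n).wc (j n) ((s₁ n).d false)) (s₂ n).S :=
    la.mono fun n a => a.fr ▸ a.a₂.wc
  refine ⟨hR, h.eb.pos, h.eb.sub.mono (fun n => by simp) (.of_forall fun n =>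
      add_le_add (Nat.cast_le.2 ((Nat.sub_le _ _).trans (n2 n).2.1)) le_rfl),
    fun n => by have := n1 n; have := n2 n; omega,
    ⟨_, (sL.pow 3).const_mul hR c1, la.mono fun n a => lA _ _ _ _ _ _ _ _ _ a⟩,
    ful _ h.tw.sd₁.ful (la.mono fun n a => a.a₁.wc), ful _ h.tw.sd₂.ful w2,
    (Sm.add h.tw.inf ((sL.const_mul hR (C := 8) (by norm_num)).log.smul zero_le_two)).mono
      ((la.and w2).mono fun n a => lI _ _ _ _ _ _ _ _ _ a.1.le.1 a.1.a₁.bx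
        (a.1.le.2.1.trans a.1.le.2.2.1)
        (show j n + R n ≤ q n by have := n1 n; have := n2 n; omega) a.2),
    fun W' Q ρ a b d k => ?_⟩
  have d1 : K31.DnS Q (fun n v => (ρ n v).1) X.P :=
    d.trans (K31.dnS_law (.of_forall fun n F => KGA.E_bind_fst _ _ F))
  have mem : ∀ᶠ n in UF, ∀ v ∈ (Q n).S,
      ρ n v ∈ (mkL (X n).Q (X.G g n) (s₁ n) (s₂ n) (j n) (m n) (q n)).P.S :=
    d.elim fun _ c => c.2.mono fun n e v hv => e.mem hv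
  have h1 := h.eb.ng (X.ext Q fun n v => (ρ n v).1) a b (d1.trans h.tw.dn)
    fun n => by have := k n; have := n2 n; omega
  have h2 := lU Q _ R j m q a b _ (sd.dn _ _ R j m q s₂ Q _ h.tw.sd₂ d1) (by
    filter_upwards [la, mem, h.gap] with n u v w
    exact ⟨by have := k n; omega, (k n).2.1, (k n).2.2, fun x hx =>
      one_le_two.trans (u.hs _ ((mem_bind _ _ _).1 (v x hx)).1).2.2⟩)
  refine Le.of2 h1 h2 (mem.mono fun n e => ?_)
  have := ELmA.fin (Q n) (ρ n) (k n).2.1 (k n).2.2 e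
  exact sub_le_iff_le_add.2 ((le_sub_iff_add_le'.2 this).trans (le_of_eq (by ring_nf; rfl)))

end Pool.Agent.MP_5168f5_an.R4
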