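import Pool.Agent.MP_5168f5_an.R4.SpecE3
import Pool.Agent.MP_5168f5_an.R4.XORef1

/-! The rate in windows near the floor. -/

namespace Pool.Agent.MP_5168f5_an.R4

open H19 H17S H17F Filter

open ORef1A in
theorem rowENg : ENg := by
  intro Ω K g M η F φ ε₀ γ X h h0 hN hX hγ
  have hM := (h.cls.bs _ hX).big
  obtain ⟨C₀, hC⟩ := h.bd
  obtain ⟨X₀, x0, k⟩ := hN (γ / 36) (by positivity)
  refine ⟨X₀ / 3, by positivity, fun r C r0 r1 => ?_⟩
  have u := uni (P := X.P) (h.cls.cl0.map fun n => (X n).ρ) hX C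
    (h := fun n a => a.1 ≤ a.2 ∧ a.2 ≤ M n) (w := fun n a => M n ≤ a.1 + 3 * lev M r n)
    (p := fun n Y a => ch Y.Q (fun v => fl a.2 ((X.G g n).pt (Y.ρ v))) (fun v =>
      (fl a.1 ((X.G g n).pt (Y.ρ v)), (X.G g n).zt (Y.ρ v))) ≤
      3 * (1 - ε₀) * (a.2 - a.1) * lg + 3 * lg * (γ / 36 * (3 * r)) * M n + γ * (r / 4) * M n)
    (fun n => ⟨le_rfl, Nat.zero_le _⟩) fun Y hY a ha hw =>
      ((h.ex _ hY (fun n => (a n).1) (fun n => (a n).2) ha).1.trans
        (num (q := 1 - 3 * r / 2) (W := 3 * r / 2) hM hC h.step Eqv.rfl ha (hw.mono fun n c => by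
          have c1 : (M n : ℝ) ≤ (a n).1 + 3 * lev M r n := by exact_mod_cast c
          have c2 : ((a n).2 : ℝ) ≤ M n := by exact_mod_cast (ha n).2
          constructor <;> linarith [lev_le' M r0.le n]) fun x y a b c =>
          (k (3 * r) (by positivity) (by linarith)).2 x y (by linarith) b (by linarith)))
        (γ * (r / 4)) (by positivity)
  filter_upwards [u, half hM r0] with n k1 m W Q f a b d e1 e2 e3
  refine (k1 ⟨W, Q, f⟩ d (a, b) ⟨e2, e3⟩ e1).trans ?_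
  have t := mul_le_mul_of_nonneg_left m hγ.le
  have s := mul_le_of_le_one_left (show 0 ≤ γ * (r / 4) * M n by positivity) lg_lt_one.le
  have s' : 0 ≤ ε₀ * (b - a) * lg :=
    mul_nonneg (mul_nonneg h0.le (sub_nonneg.2 (Nat.cast_le.2 e2))) lg_pos.le
  simp only
  linarith

end Pool.Agent.MP_5168f5_an.R4
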