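import Pool.Agent.MP_5168f5_an.R4.SpecE3

/-! The numbers at the end of the rounding. -/

namespace Pool.Agent.MP_5168f5_an.R4

open H19 H17S H17F Filter

namespace ENumA

theorem pw {i j : ℕ} (h : i ≤ j) : (2 : ℝ) ^ i ≤ 2 ^ j := pow_le_pow_right₀ one_le_two h

theorem num {K L Λ A B S T U m : ℝ} (hK : 1 ≤ K) (hL : 1 ≤ L) (hΛ : 1 ≤ Λ) (hA : 1 ≤ A)
    (hB : 1 ≤ B) (hT : 1 ≤ T) (hm : 1 ≤ m) (hD : 10 ^ 4 * (K * Λ * L ^ 2) ≤ S)
    (h1 : A * B * S ^ 2 ≤ T) (h2 : T ≤ 8 * (A ^ 2 * B)) (h3 : m * T ≤ U) :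
    K * A * (Λ * (B / (U * T))) ≤ 1 / (U * S) ∧
    K * (1 + A * (Λ * (B / (U * T))) * (L * m)) ≤ U * T ∧
    K * (L * (U * T) / T + (A ^ 2 * (Λ * (B / (U * T))))⁻¹ + Λ * (B / (U * T)) * (L * m) ^ 2) ≤
      U * S / 128 := by
  have l2 : L ≤ L ^ 2 := by nlinarith
  have k1 : 1 ≤ Λ * L ^ 2 := by nlinarith
  have k2 : K * Λ ≤ K * Λ * L ^ 2 := le_mul_of_one_le_right (by positivity) (hL.trans l2)
  have k3 : K * Λ * L ≤ K * Λ * L ^ 2 := by gcongr
  have k4 : K ≤ K * Λ := le_mul_of_one_le_right (by positivity) hΛ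
  have hS : 1 ≤ S := by linarith
  have hU : 1 ≤ U := by nlinarith
  have s2 : 1 ≤ S ^ 2 := one_le_pow₀ hS
  have ab : A * B ≤ T := (le_mul_of_one_le_right (by positivity) s2).trans h1
  have st : S ≤ T := by nlinarith [mul_le_mul hA hB zero_le_one (by positivity : 0 ≤ A)]
  have mu : m ≤ U := by nlinarith
  refine ⟨?_, ?_, ?_⟩
  · rw [show K * A * (Λ * (B / (U * T))) = K * Λ * (A * B) / (U * T) by ring,
      div_le_div_iff₀ (by positivity) (by positivity)]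
    calc K * Λ * (A * B) * (U * S) ≤ S * (A * B) * (U * S) := by gcongr; linarith
      _ = U * (A * B * S ^ 2) := by ring
      _ ≤ _ := by rw [one_mul]; gcongr
  · have : A * (Λ * (B / (U * T))) * (L * m) ≤ Λ * L := by
      rw [show A * (Λ * (B / (U * T))) * (L * m) = Λ * L * (m * (A * B) / (U * T)) by ring]
      refine mul_le_of_le_one_right (by positivity) ((div_le_one (by positivity)).2 (by gcongr))
    nlinarith
  · have e1 : (A ^ 2 * (Λ * (B / (U * T))))⁻¹ ≤ 8 * U := by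
      rw [show (A ^ 2 * (Λ * (B / (U * T))))⁻¹ = U * T / (Λ * (A ^ 2 * B)) by field_simp,
        div_le_iff₀ (by positivity)]
      calc U * T ≤ U * (8 * (1 * (A ^ 2 * B))) := by rw [one_mul]; gcongr
        _ ≤ U * (8 * (Λ * (A ^ 2 * B))) := by gcongr
        _ = _ := by ring
    have e2 : Λ * (B / (U * T)) * (L * m) ^ 2 ≤ Λ * L ^ 2 * U := by
      rw [show Λ * (B / (U * T)) * (L * m) ^ 2 = Λ * L ^ 2 * (B * m * m / (U * T)) by ring]
      gcongr
      rw [div_le_iff₀ (by positivity)]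
      have : B ≤ T := by nlinarith
      calc B * m * m ≤ T * U * U := by gcongr
        _ = _ := by ring
    have e3 : L * (U * T) / T = L * U := by field_simp
    have e4 : L * U ≤ Λ * L ^ 2 * U := by gcongr; nlinarith
    have e5 : U ≤ Λ * L ^ 2 * U := le_mul_of_one_le_left (by positivity) k1
    calc _ ≤ K * (10 * (Λ * L ^ 2 * U)) := by gcongr; linarith
      _ = U * (10 * (K * Λ * L ^ 2)) := by ring
      _ ≤ U * (S / 128) := by gcongr; linarith
      _ = _ := by ring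

end ENumA

open ENumA in
theorem rowENum : ENum := by
  intro R m q L Λ C hR hL hΛ hC hq
  filter_upwards [hq, (((((hΛ.pow 51).const_mul hR hC).mul (hL.pow 5)).const_mul hR
    (show (1 : ℝ) ≤ 10 ^ 4 by norm_num)).frac (hR.frac_div (K := 16) (by norm_num))).2 lg lg_pos]
    with n e d κ η e1 e2
  rw [mul_comm lg, ← two_pow_eq] at d
  have l1 := hL.1 n
  have l2 := hΛ.1 n
  have p1 : ∀ k : ℕ, (1 : ℝ) ≤ 2 ^ k := fun k => one_le_pow₀ one_le_two
  have k0 : 1 ≤ Λ n ^ 50 := one_le_pow₀ l2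
  have k1 : 1 ≤ C * Λ n ^ 50 := one_le_mul_of_one_le_of_one_le hC k0
  have k2 : L n ^ 2 ≤ L n ^ 5 := pow_le_pow_right₀ l1 (by norm_num)
  have k3 : L n ≤ L n ^ 2 := by nlinarith
  have k4 : C * Λ n ^ 50 * Λ n * L n ^ 2 ≤ C * Λ n ^ 51 * L n ^ 5 := by
    rw [mul_assoc C, ← pow_succ]; gcongr
  have k5 : Λ n * L n ≤ C * Λ n ^ 50 * Λ n * L n ^ 2 := by
    rw [mul_assoc (C * _)]
    exact (by gcongr : _ ≤ Λ n * L n ^ 2).trans (le_mul_of_one_le_left (by positivity) k1)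
  have k6 : C * L n ^ 5 ≤ C * Λ n ^ 51 * L n ^ 5 := by
    gcongr; exact le_mul_of_one_le_right (by positivity) (one_le_pow₀ l2)
  have k7 : C * Λ n ^ 50 ≤ C * Λ n ^ 50 * Λ n * L n ^ 2 := by
    rw [mul_assoc (C * _)]; exact le_mul_of_one_le_right (by positivity) (by nlinarith)
  have k8 : L n ≤ Λ n * L n := le_mul_of_one_le_left (by positivity) l2
  have k9 : Λ n ≤ Λ n * L n := le_mul_of_one_le_right (by positivity) l1
  have N := num (A := 2 ^ (R n / 8)) (B := 2 ^ (3 * R n / 4)) (S := 2 ^ (R n / 16))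
    (T := 2 ^ R n) (U := 2 ^ (q n - R n)) (m := 2 ^ m n) k1 l1 l2 (p1 _) (p1 _) (p1 _) (p1 _)
    (by linarith) (by rw [← pow_mul, ← pow_add, ← pow_add]; exact pw (by omega))
    (by rw [← pow_mul, ← pow_add, show (8 : ℝ) = 2 ^ 3 by norm_num, ← pow_add]; exact pw (by omega))
    (by rw [← pow_add]; exact pw (by omega))
  rw [← pow_add, ← pow_add, Nat.sub_add_cancel (by omega)] at N
  subst e1 e2
  refine ⟨?_, ?_, ?_, ?_, ?_, N⟩
  · rw [← mul_div_assoc]
    have := pw (show R n / 16 ≤ 3 * R n / 4 by omega)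
    gcongr
    nlinarith
  · calc _ ≤ (2 : ℝ) ^ (R n / 16) * 2 ^ m n := by gcongr; linarith
      _ ≤ _ := by rw [← pow_add]; exact pw (by omega)
  · have := pw (show R n / 16 ≤ q n by omega)
    calc _ ≤ (2 : ℝ) ^ q n * 2 ^ q n := by gcongr; linarith
      _ = 2 ^ (3 * q n) * (1 * (1 / 2 ^ q n)) := by rw [pow_mul']; field_simp
      _ ≤ _ := by gcongr; exact p1 _
  · linarith [pw (show R n / 16 ≤ 3 * q n by omega)]
  · linarith [pw (show R n / 16 ≤ R n / 8 by omega)]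

end Pool.Agent.MP_5168f5_an.R4
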