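import Pool.Agent.MP_5168f5_an.R4.SpecE3

/-! Two labels of the same line: all four derivatives are not small. -/

namespace Pool.Agent.MP_5168f5_an.R4

open H19 H17S H17F Matrix Filter

namespace EPairA

section One

variable {W Λ : Type} (P : FP W) (g : Geo 3 W) (j : ℕ)

/-- Two copies with the same line and window. -/
noncomputable abbrev Q0 : FP (W × W) := glue P P (g.win j) (g.win j)

theorem mem {v : W × W} (h : v ∈ (Q0 P g j).S) :
    v.1 ∈ P.S ∧ v.2 ∈ P.S ∧ g.win j v.2 = g.win j v.1 :=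
  (kg.mem P P (g.win j) (g.win j) v (Law.rfl _)).1 h

theorem law1 : Law (Q0 P g j) Prod.fst P id := kg.fst P P (g.win j) (g.win j)

theorem law2 : Law (Q0 P g j) Prod.snd P id := kg.snd P P (g.win j) (g.win j) (Law.rfl _)

theorem lawS : Law (Q0 P g j) Prod.swap (Q0 P g j) id :=
  (kg.swap P P (g.win j) (g.win j) (Law.rfl _)).symm

theorem ful_le (S : W → Λ) {a p : ℕ} (hap : a ≤ p)
    (hS : Fn P (fun v => (fl1 j (g.z v), g.θ v)) S) :
    ch P (fun v => fl1 p (g.z v)) S ≤ (p - a : ℝ) * lg +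
      ch (Q0 P g j) (fun v => fl1 a (g.z v.1))
        (fun v => (fl1 j (g.z v.1), g.ln v.1, S v.2)) + mi P g.z g.ln g.θ := by
  have h1 := KBA.coarse_le (P := P) g.z S hap
  have h2 : ch P (fun v => fl1 a (g.z v)) S ≤
      ch P (fun v => fl1 a (g.z v)) (fun v => (fl1 j (g.z v), g.θ v)) := ch_anti hS
  have h3 := (law1 P g j).ch_id (fun v => fl1 a (g.z v)) (fun v => (fl1 j (g.z v), g.θ v))
  have h4 := ch_le_mi (P := Q0 P g j) (F := fun v => fl1 a (g.z v.1))
    (G := fun v => (g.ln v.1, S v.2)) (K := fun v => (fl1 j (g.z v.1), g.θ v.1))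
    (K' := fun v => (fl1 j (g.z v.1), g.ln v.1, S v.2))
    (((Fn.fst _ _).right _).pair (Fn.fst _ _))
  have h5 : mi (Q0 P g j) (fun v => fl1 a (g.z v.1)) (fun v => (g.ln v.1, S v.2))
      (fun v => (fl1 j (g.z v.1), g.θ v.1)) ≤
      mi (Q0 P g j) (fun v => g.z v.1) (fun v => (g.ln v.1, S v.2))
        fun v => (fl1 j (g.z v.1), g.θ v.1) :=
    mi_mono' ((Fn.comp (fl1 a) fun v : W × W => g.z v.1).left _)
  have h6 : mi (Q0 P g j) (fun v => g.z v.1) (fun v => (g.ln v.1, S v.2))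
      (fun v => (fl1 j (g.z v.1), g.θ v.1)) ≤
      mi (Q0 P g j) (fun v => g.z v.1) (fun v => g.ln v.1) (fun v => g.θ v.1) +
        mi (Q0 P g j) (fun v => S v.2) (fun v => g.core v.1) fun v => g.win j v.1 :=
    KBA.inf_le (P := Q0 P g j) (g.pull Prod.fst) j fun v => S v.2
  have h7 := kf2.copy P (g.win j) g.core S (g.win j) (Fn.rfl _)
  have h8 := (law1 P g j).mi_id g.z g.ln g.θ
  linarith

theorem hp_eq {v : W × W} (h : v ∈ (Q0 P g j).S) :
    hom (g.z v.2) (g.lt (g.z v.2) v.1) = g.hp v.2 := by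
  have e : g.ln v.2 = g.ln v.1 := congrArg Prod.fst (mem P g j h).2.2
  have ea : g.a v.2 = g.a v.1 := congrArg Prod.fst e
  have ee : g.e v.2 = g.e v.1 := congrArg (fun x : V 3 × V 3 × g.T => x.2.1) e
  simp only [Geo.hp, Geo.pt, Geo.lt, ea, ee]

end One

section Seq

variable {W : ℕ → Type} {P : ∀ n, FP (W n)} {g : Gs 3 W} {R j m p : ℕ → ℕ} {η e₀ : ℝ}
  {B : ℕ → ℝ} {s : ∀ n, Lq (W n)}

theorem wful (eb : EB P g R j m p η e₀ B) (e0 : E0 P g R j m p B s) :
    WFul (fun n => Q0 (P n) (g n) (j n)) (fun n => (g n).pull Prod.fst) R j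
      fun n v => (s n).S v.2 := by
  obtain ⟨L, -, hA⟩ := e0.sd.alg
  have h1 : Sm R fun n => mi (P n) (g n).z (g n).ln (g n).θ :=
    (eb.cls.bs _ (dnK_base P)).inf
  refine Le.of2 e0.sd.ful.t h1 ?_
  filter_upwards [hA] with n hn
  have hS : Fn (P n) (fun v => (fl1 (j n) ((g n).z v), (g n).θ v)) (s n).S := by
    intro a ha b hb e
    have q := hn.fn a ha b hb e
    simp only [Lq.dat, Geo.wc, Prod.mk.injEq] at q
    simp only [q]
  have k := ful_le (P n) (g n) (j n) (s n).S (a := j n + R n) (p := p n)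
    (by have := (eb.le n).2.2; omega) hS
  push_cast at k
  have k' : ch (P n) ((g n).cz (p n)) (s n).S ≤ (p n - (j n + R n) : ℝ) * lg +
      ch (Q0 (P n) (g n) (j n)) (fun v => fl1 (j n + R n) ((g n).z v.1))
        (fun v => (fl1 (j n) ((g n).z v.1), (g n).ln v.1, (s n).S v.2)) +
        mi (P n) (g n).z (g n).ln (g n).θ := k
  change (R n : ℝ) * lg - ch (Q0 (P n) (g n) (j n)) (fun v => fl1 (j n + R n) ((g n).z v.1))
        (fun v => (fl1 (j n) ((g n).z v.1), (g n).ln v.1, (s n).S v.2)) ≤ _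
  linarith

theorem cross (H : WinQ) (eb : EB P g R j m p η e₀ B) (e0 : E0 P g R j m p B s) :
    ∃ L, Sub R L ∧ Whp (fun n => Q0 (P n) (g n) (j n)) fun n v =>
      |(g n).dv ((s n).A v.2) v.2| ≤ L n * |(g n).dv ((s n).A v.2) v.1| := by
  obtain ⟨L₀, -, hA⟩ := e0.sd.alg
  obtain ⟨L, hL, hw⟩ := H (fun n => Q0 (P n) (g n) (j n)) (fun n => (g n).pull Prod.fst) R j
    (fun n v => (s n).S v.2) (fun n v => (s n).A v.2) e0.sd.big (wful eb e0) (by
      filter_upwards [hA] with n hn a ha b hb e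
      have q := hn.fn a.2 (mem _ _ _ ha).2.1 b.2 (mem _ _ _ hb).2.1
        (by simp only [Prod.mk.injEq] at e; exact e.2.2)
      exact congrArg Prod.fst q)
  refine ⟨L, hL, hw.mono (Eventually.of_forall fun n v hv h => ?_)⟩
  have e : fl1 (j n) ((g n).z v.2) = fl1 (j n) ((g n).z v.1) :=
    congrArg Prod.snd (mem _ _ _ hv).2.2
  have k : |pf ((s n).A v.2) (hom ((g n).z v.2) ((g n).lt ((g n).z v.2) v.1)) (bv 4)| ≤
      L n * |pf ((s n).A v.2) ((g n).hp v.1) (bv 4)| := (h.2 ((g n).z v.2) e).2 4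
  rw [hp_eq _ _ _ hv] at k
  exact k

end Seq

end EPairA

open EPairA in
theorem rowEPair : OfEPair := by
  intro H W P g R j m p η e₀ B s eb e0
  obtain ⟨L₁, hL₁, w₁⟩ := e0.dv
  obtain ⟨L₂, hL₂, w₂⟩ := cross H eb e0
  have a1 := (K31.dnS_law (Eventually.of_forall fun n => law1 (P n) (g n) (j n))).whp w₁
  have a2 := (K31.dnS_law (Eventually.of_forall fun n => law2 (P n) (g n) (j n))).whp w₁
  have a3 := (K31.dnS_law (Eventually.of_forall fun n => lawS (P n) (g n) (j n))).whp w₂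
  refine ⟨fun n => L₁ n * L₂ n, hL₁.mul hL₂,
    ((a1.and a2).and (w₂.and a3)).mono (Eventually.of_forall fun n v _ h => ?_)⟩
  obtain ⟨⟨h1, h2⟩, h3, h4⟩ := h
  simp only [Prod.fst_swap, Prod.snd_swap] at h4
  have p1 := hL₁.pos n
  have p2 := hL₂.1 n
  have up : ∀ x : ℝ, 1 ≤ L₁ n * |x| → 1 ≤ L₁ n * L₂ n * |x| := fun x hx => by
    have := mul_le_mul_of_nonneg_left (le_mul_of_one_le_left (abs_nonneg x) p2) p1.le
    rw [mul_assoc]; linarith
  have cr : ∀ x y : ℝ, 1 ≤ L₁ n * |x| → |x| ≤ L₂ n * |y| → 1 ≤ L₁ n * L₂ n * |y| :=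
    fun x y hx hy => by
      have := mul_le_mul_of_nonneg_left hy p1.le
      rw [mul_assoc]; linarith
  intro a ha b hb
  simp only [List.mem_cons, List.not_mem_nil, or_false] at ha hb
  rcases ha with rfl | rfl <;> rcases hb with rfl | rfl
  · exact up _ h1
  · exact cr _ _ h1 h4
  · exact cr _ _ h2 h3
  · exact up _ h2

end Pool.Agent.MP_5168f5_an.R4
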