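import Pool.Agent.MP_5168f5_an.R4.SpecE3

/-! The choice of the levels. -/

namespace Pool.Agent.MP_5168f5_an.R4

namespace EParA

theorem flat (v : ℝ → ℝ) (hv : ∀ c, 0 ≤ v c ∧ v c ≤ 2) {a b ε : ℝ} (hab : a < b) (hε : 0 < ε) :
    ∃ c c', a ≤ c ∧ c < c' ∧ c' ≤ b ∧ v c' - v c ≤ ε := by
  by_contra h
  push Not at h
  obtain ⟨N, hN⟩ := exists_nat_gt (2 / ε)
  have N0 : (0 : ℝ) < N := lt_trans (by positivity) hN
  have w0 : 0 < (b - a) / N := div_pos (sub_pos.2 hab) N0
  have key : ∀ i : ℕ, i ≤ N → i * ε ≤ v (a + i * ((b - a) / N)) := by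
    intro i
    induction i with
    | zero => intro _; simpa using (hv a).1
    | succ i ih =>
      intro hi
      have h1 := ih (by omega)
      have h2 : ((i + 1 : ℕ) : ℝ) ≤ N := by exact_mod_cast hi
      have h3 : ((i + 1 : ℕ) : ℝ) * ((b - a) / N) ≤ b - a := by
        calc _ ≤ N * ((b - a) / N) := by gcongr
          _ = b - a := by field_simp
      have h4 := h (a + i * ((b - a) / N)) (a + (i + 1 : ℕ) * ((b - a) / N))
        (le_add_of_nonneg_right (by positivity)) (by push_cast; linarith) (by linarith)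
      push_cast at h4 ⊢
      linarith
  have h5 := key N le_rfl
  rw [div_lt_iff₀ hε] at hN
  linarith [(hv (a + N * ((b - a) / N))).2]

end EParA

theorem rowEPar : EPar := by
  intro Φ u cs δ r₀ hm hu c0 c1 hδ hr hΦ
  obtain ⟨W₀, hW₀, hW⟩ := hΦ (18 / δ) (by positivity)
  have s1 : 0 < 1 - cs := sub_pos.2 c1
  obtain ⟨W, W0, a1, a2, a3, a4, a5⟩ : ∃ W : ℝ, 0 < W ∧ W ≤ W₀ ∧ W ≤ cs / 2 ∧ W ≤ 1 - cs ∧
      W ≤ r₀ * δ / 3 ∧ W ≤ (1 - cs) * δ / 15 := by
    refine ⟨min W₀ (min (cs / 2) (min (1 - cs) (min (r₀ * δ / 3) ((1 - cs) * δ / 15)))),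
      by positivity, min_le_left _ _, ?_, ?_, ?_, ?_⟩ <;> simp
  have r0 : 0 < 3 * W / δ := by positivity
  have e : δ * (3 * W / δ) = 3 * W := by field_simp
  obtain ⟨c, c', b1, b2, b3, b4⟩ := EParA.flat (fun c => u false c + u true c)
    (fun c => ⟨by linarith [(hu false c).1, (hu true c).1],
      by linarith [(hu false c).2, (hu true c).2]⟩)
    (a := cs + W / 2) (b := cs + W) (ε := 3 * W) (by linarith) (by linarith)
  have m1 := hm false b2.le
  have m2 := hm true b2.le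
  have h1 : 3 * W / δ ≤ (1 - cs) / 5 := by rw [div_le_iff₀ hδ]; linarith
  refine ⟨3 * W / δ, cs - 2 * W, cs - W, c, c', r0, ?_, by linarith, by linarith, by linarith,
    by linarith, b2, by linarith, by linarith, by linarith, fun k => ?_, ?_⟩
  · rw [div_le_iff₀ hδ]; linarith
  · cases k <;> linarith
  · have h2 := hW W W0 a1
    have e2 : 18 / δ * W = 6 * (3 * W / δ) := by ring
    linarith

end Pool.Agent.MP_5168f5_an.R4
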