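import Pool.Agent.MP_5168f5_an.R4.SpecE3

/-! A common rounding of two planes with close slopes. -/

namespace Pool.Agent.MP_5168f5_an.R4

open H19 H17S H17F Matrix Filter

namespace EPlA

theorem fl_err {δ : ℝ} (hδ : 0 < δ) (p : ℝ) : |p - δ * ⌊p / δ⌋| ≤ δ := by
  have h1 := (le_div_iff₀' hδ).1 (Int.floor_le (p / δ))
  have h2 := (div_lt_iff₀' hδ).1 (Int.lt_floor_add_one (p / δ))
  exact abs_le.2 ⟨by linarith, by linarith⟩

theorem fl_near {p q δ : ℝ} (hδ : 0 < δ) (h : |p - q| ≤ δ) :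
    ⌊p / δ⌋ ∈ Finset.Icc (⌊q / δ⌋ - 1) (⌊q / δ⌋ + 1) := by
  obtain ⟨h1, h2⟩ := abs_le.1 h
  rw [Finset.mem_Icc, ← Int.floor_sub_one, ← Int.floor_add_one, div_sub_one hδ.ne',
    div_add_one hδ.ne']
  exact ⟨Int.floor_mono (by gcongr; linarith), Int.floor_mono (by gcongr; linarith)⟩

theorem mul_le {a b A B : ℝ} (h : |a| ≤ A) (h' : |b| ≤ B) : |a * b| ≤ A * B := by
  rw [abs_mul]; exact mul_le_mul h h' (abs_nonneg _) ((abs_nonneg _).trans h)

/-- The three integers. -/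
noncomputable def nn (δ J t x : ℝ) (d : Pd) : Fin 3 → ℤ :=
  ![⌊plv d t x / δ⌋, ⌊d.2.1 / (δ * J)⌋, ⌊d.2.2 0 / (δ * J)⌋]

/-- The plane with given integers. -/
noncomputable def mkp (δ J t x : ℝ) (n : Fin 3 → ℤ) : Pd :=
  (δ * n 0 - δ * J * n 1 * t - δ * J * n 2 * x, δ * J * n 1, Pi.single 0 (δ * J * n 2))

variable {W : Type} {g : Geo 3 W} {v : W} {L : ℝ} {j m : ℕ} {d : Pd}

theorem fit (h : (g.pl {0} 1).fit L d v j m) :
    |g.pt v 1 - d.1 - d.2.1 * g.z v - d.2.2 0 * g.pt v 0| ≤ L * (1 / 2 ^ m) ∧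
      |g.e v 1 - d.2.1 - d.2.2 0 * g.e v 0| ≤ 4 * L * (1 / 2 ^ m) * 2 ^ j := by
  have h1 := (kp.iff g _ _ _ _ _ _ _).1 h
  simp only [Fin.sum_univ_three, (h.2.1 1).2 (by simp), (h.2.1 2).2 (by simp), zero_mul,
    add_zero] at h1
  exact ⟨h1.1.trans_eq (by ring), h1.2.trans_eq (by ring)⟩

theorem near (hL : 1 ≤ L) (he : |g.e v 0| ≤ L) :
    |g.z v - g.z0 j v| ≤ (2 ^ j)⁻¹ ∧ |g.pt v 0 - g.ox j v| ≤ 2 * L * (2 ^ j)⁻¹ := by
  have h1 : |g.z v - g.z0 j v| ≤ (2 ^ j)⁻¹ :=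
    abs_le.2 ⟨by linarith [(rd_le j (g.z v)).1, show g.z0 j v = rd j (g.z v) from rfl,
      show (0 : ℝ) < (2 ^ j)⁻¹ by positivity],
      by linarith [(rd_le j (g.z v)).2, show g.z0 j v = rd j (g.z v) from rfl]⟩
  have h2 := abs_le.1 (mul_le h1 he)
  have h3 := rd_le j (g.lt (g.z0 j v) v 0)
  have h4 : g.pt v 0 = g.lt (g.z0 j v) v 0 + (g.z v - g.z0 j v) * g.e v 0 := by
    simp only [Geo.pt, Geo.lt, Pi.add_apply, Pi.smul_apply, smul_eq_mul]; ring
  have h5 := le_mul_of_one_le_left (show (0 : ℝ) ≤ (2 ^ j)⁻¹ by positivity) hL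
  have h6 : (0 : ℝ) < (2 ^ j)⁻¹ := by positivity
  exact ⟨h1, abs_le.2 ⟨by unfold Geo.ox; linarith, by unfold Geo.ox; linarith⟩⟩

theorem wc_eq {K : Type} {κ : W → K} {a b : W} (e : g.wc j κ a = g.wc j κ b) :
    κ a = κ b ∧ g.z0 j a = g.z0 j b ∧ g.ox j a = g.ox j b := by
  simp only [Geo.wc, Prod.mk.injEq] at e
  exact ⟨e.1, congrArg (fun n : ℤ => ((2 : ℝ) ^ j)⁻¹ * n) e.2.2.1,
    congrArg (fun n : Z 3 => ((2 : ℝ) ^ j)⁻¹ * n 0) e.2.2.2⟩

end EPlA

open EPlA in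
theorem rowEPl : EPl := by
  classical
  refine ⟨106, by norm_num, ?_⟩
  intro W Λ₁ Λ₂ Q g S₁ S₂ d₁ d₂ L j m hL hjm bx f₁ f₂ hf
  set u : ℝ := 1 / 2 ^ m with hu
  set J : ℝ := 2 ^ j with hJ
  have u0 : 0 < u := by positivity
  have J0 : 0 < J := by positivity
  have uJ : u * J ≤ 1 := by
    rw [hu, one_div_mul_eq_div, div_le_one (by positivity)]
    exact pow_le_pow_right₀ one_le_two hjm
  have L2 : L ≤ L ^ 2 := by nlinarith
  have L3 : L ^ 2 ≤ L ^ 3 := pow_le_pow_right₀ hL (by norm_num)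
  have δ0 : 0 < 13 * L ^ 2 * u := by positivity
  have δJ := mul_pos δ0 J0
  have a1 := mul_le_mul_of_nonneg_right L2 u0.le
  have a2 := mul_le_mul_of_nonneg_right L3 u0.le
  have a3 := mul_le_mul_of_nonneg_right a1 J0.le
  have a4 := mul_le_mul_of_nonneg_right a2 J0.le
  have a5 : 0 < L * u := by positivity
  have a6 : 0 < L * u * J := by positivity
  refine ⟨fun v => mkp (13 * L ^ 2 * u) J (g.z0 j v) (g.ox j v)
    (nn (13 * L ^ 2 * u) J (g.z0 j v) (g.ox j v) (d₁ v)), fun a ha b hb e => ?_, fun a ha => ?_,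
    fun v hv => ?_⟩
  · obtain ⟨e1, e2, e3⟩ := wc_eq (f₁ a ha b hb e)
    simp only [e1, e2, e3]
  · refine ⟨(Fintype.piFinset fun i => Finset.Icc
      (nn (13 * L ^ 2 * u) J (g.z0 j a) (g.ox j a) (d₂ a) i - 1)
      (nn (13 * L ^ 2 * u) J (g.z0 j a) (g.ox j a) (d₂ a) i + 1)).image
      (mkp (13 * L ^ 2 * u) J (g.z0 j a) (g.ox j a)), ?_, fun b hb e => ?_⟩
    · refine (Nat.cast_le.2 Finset.card_image_le).trans ?_
      have : ∀ n : ℤ, (n + 1 + 1 - (n - 1)).toNat = 3 := fun n => by omega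
      simp only [Fintype.card_piFinset, Int.card_Icc, this, Finset.prod_const]
      norm_num
    · obtain ⟨e1, e2, e3⟩ := wc_eq (f₂ b hb a ha e)
      rw [← e1, ← e2, ← e3]
      refine Finset.mem_image_of_mem _ (Fintype.mem_piFinset.2 fun i => ?_)
      obtain ⟨h1, h2, h3⟩ := hf b hb
      have he := ((bx.bd b hb).1 0).2
      have k1 := abs_le.1 (fit h1).1
      have k2 := abs_le.1 (fit h1).2
      have k3 := abs_le.1 (fit h2).1
      have k4 := abs_le.1 (fit h2).2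
      have h4 : |(d₁ b).2.2 0 - (d₂ b).2.2 0| ≤ L * u * J := h3.trans_eq (by rw [hu]; ring)
      have k5 := abs_le.1 (mul_le h4 he)
      have h5 : |(d₁ b).2.1 - (d₂ b).2.1| ≤ 9 * L ^ 2 * u * J :=
        abs_le.2 ⟨by linarith, by linarith⟩
      have k6 := abs_le.1 ((mul_le h5 (near (j := j) hL he).1).trans_eq
        (mul_inv_cancel_right₀ J0.ne' _))
      have k7 := abs_le.1 ((mul_le h4 (near (j := j) hL he).2).trans_eq
        (show _ = 2 * L ^ 2 * u by rw [← hJ]; field_simp))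
      fin_cases i
      · exact fl_near δ0 (abs_le.2 ⟨by unfold plv; linarith, by unfold plv; linarith⟩)
      · exact fl_near δJ (h5.trans (by linarith))
      · exact fl_near δJ (h4.trans (by linarith))
  · obtain ⟨h1, -⟩ := hf v hv
    have he := ((bx.bd v hv).1 0).2
    have k1 := abs_le.1 (fit h1).1
    have k2 := abs_le.1 (fit h1).2
    have r1 := fl_err δJ (d₁ v).2.1
    have r2 := fl_err δJ ((d₁ v).2.2 0)
    have k3 := abs_le.1 (fl_err δ0 (plv (d₁ v) (g.z0 j v) (g.ox j v)))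
    have k4 := abs_le.1 r1
    have k5 := abs_le.1 r2
    have k6 := abs_le.1 ((mul_le r1 (near (j := j) hL he).1).trans_eq
      (mul_inv_cancel_right₀ J0.ne' _))
    have k7 := abs_le.1 ((mul_le r2 (near (j := j) hL he).2).trans_eq
      (show _ = 26 * L ^ 3 * u by rw [← hJ]; field_simp; norm_num))
    have k8 := abs_le.1 (mul_le r2 he)
    have k9 := abs_le.1 h1.1
    have k10 := abs_le.1 (h1.2.1 0).1
    have b1 := mul_le_mul_of_nonneg_left uJ (sq_nonneg L)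
    have hs : ∀ (c : ℝ) (y : Fin 3 → ℝ), ∑ i, (Pi.single 0 c : Fin 3 → ℝ) i * y i = c * y 0 :=
      fun c y => by simp [Fin.sum_univ_three]
    rw [show 106 * L ^ 3 = 2 * (53 * L ^ 3) by ring]
    refine (kp.iff g _ _ _ _ _ _ _).2 (abs_le.2 ⟨?_, ?_⟩) (fun i => ⟨?_, fun hi => ?_⟩) ?_ ?_
    · simp only [mkp, nn, cons_val]; linarith
    · simp only [mkp, nn, cons_val]; linarith
    · rcases eq_or_ne i 0 with rfl | hi
      · simp only [mkp, nn, cons_val, Pi.single_eq_same]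
        exact abs_le.2 ⟨by linarith, by linarith⟩
      · simp only [mkp, Pi.single_eq_of_ne hi, abs_zero]; positivity
    · exact Pi.single_eq_of_ne (by simpa using hi) _
    · rw [← mul_one_div, ← hu]
      simp only [mkp, nn, cons_val, hs]
      simp only [plv] at k3 ⊢
      exact abs_le.2 ⟨by linarith, by linarith⟩
    · rw [← mul_one_div, ← hu, ← hJ]
      simp only [mkp, nn, cons_val, hs]
      exact abs_le.2 ⟨by linarith, by linarith⟩

end Pool.Agent.MP_5168f5_an.R4
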