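import Pool.Agent.MP_5168f5_an.R4.SpecE3

/-! Extension step for quadrics: the common plane is the label. -/

namespace Pool.Agent.MP_5168f5_an.R4

open H19 H17S H17F Matrix Filter

namespace EPlaneA

/-- The plane as a quadric. -/
def hq (d : Pd) : Qd := vecMulVec (bv 0) ![-d.1, -d.2.1, -d.2.2 0, 1, 0]

theorem gy_hq (d : Pd) (t : ℝ) (y : V 3) : gy (hq d) (hom t y) = 1 := by
  rw [gy, hq, pf_hyp, pf_hyp]
  simp [hom, bv]

theorem hs_hq (d : Pd) {h : ℝ} (e : 0 ≤ h) : Hs (hq d) h := fun i k => by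
  rw [hq, pf_hyp]
  simpa [bv] using e

theorem qf_hq {W : Type} {g : Geo 3 W} {L : ℝ} {d : Pd} {v : W} {j m : ℕ}
    (h : (g.pl {0} 1).fit L d v j m) : |qf (hq d) (g.hp v)| ≤ L / 2 ^ m := by
  rw [hq, qf_hyp]
  refine le_of_eq_of_le (congrArg _ ?_) (h.2.2 _ rfl)
  simp [Geo.hp, Geo.pt, hom, dotProduct, Fin.sum_univ_succ, (h.2.1 1).2 (by simp),
    (h.2.1 2).2 (by simp)]
  ring

end EPlaneA

open EPlaneA in
theorem rowEPlane : EPlane := by
  intro W P g R j m p η e₀ B X s₁ s₂ hE hT hF hp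
  obtain ⟨C, -, d⟩ := hT.dn
  obtain ⟨C₁, k₁⟩ := hT.hk
  obtain ⟨C₂, k₂⟩ := hT.lk
  obtain ⟨L₁, a₁, b₁⟩ := hT.sd₁.alg
  obtain ⟨L₂, -, b₂⟩ := hT.sd₂.alg
  refine ⟨max C (max C₁ C₂), ?_⟩
  filter_upwards [d, k₁, k₂, b₁, b₂, hp, a₁.2 lg lg_pos] with n d k₁ k₂ b₁ b₂ hp hL
  have B0 : 0 ≤ B n := by
    have := Real.log_nonneg (show (1 : ℝ) ≤ p n + 1 by simp)
    linarith [hE.hB n]
  obtain ⟨l1, l2, l3⟩ := hE.le n
  have f₁ : Fn (X n).Q ((s₁ n).d false) (s₁ n).S := fun a ha b hb e =>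
    congrArg (·.2.1) (b₁.fn a ha b hb e)
  have f₂ : Fn (X n).Q ((s₁ n).d false) (s₂ n).S := fun a ha b hb e => by
    rw [hF n]; exact congrArg (·.2.1) (b₂.fn a ha b hb e)
  refine ⟨_, _, (X n).Q, (X n).ρ, (s₁ n).d false, fun v => hq ((s₁ n).d false v), m n - R n,
    d.mono (le_max_left _ _), (mi_mono' (f₁.left _)).trans (k₁.trans (mul_le_mul_of_nonneg_right
      ((le_max_left _ _).trans (le_max_right _ _)) B0)),
    (mi_mono' (f₂.left _)).trans (k₂.trans (mul_le_mul_of_nonneg_right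
      ((le_max_right _ _).trans (le_max_right _ _)) B0)), Fn.comp hq _, by omega, by omega,
    fun v hv => ⟨(gy_hq _ _ _).ge, (gy_hq _ _ _).trans_le (one_le_pow₀ one_le_two),
      (qf_hq (g := X.G g n) ((b₁.fit v hv).2 false)).trans ?_, hs_hq _ (by positivity)⟩⟩
  rw [mul_comm, ← two_pow_eq] at hL
  rw [div_le_div_iff₀ (by positivity) (by positivity), one_mul]
  calc L₁ n * 2 ^ (m n - R n) ≤ 2 ^ R n * 2 ^ (m n - R n) := by gcongr
    _ = 2 ^ m n := by rw [← pow_add, Nat.add_sub_cancel' (by omega)]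

end Pool.Agent.MP_5168f5_an.R4
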