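import Pool.Agent.MP_5168f5_an.R4.SpecE3

/-! Extension step for quadrics: small Hessians and positive derivatives. -/

namespace Pool.Agent.MP_5168f5_an.R4

open H19 H17S H17F Matrix Filter

namespace EPrepA

theorem pg {Ω : ℕ → Type} {P : ∀ n, FP (Ω n)} {J : Type} [Finite J] [Nonempty J]
    (G : J → ∀ n, Ω n → Prop) (h : Pos P fun n ω => ∃ j, G j n ω) : ∃ j, Pos P (G j) := by
  obtain ⟨j, hj⟩ := ks.pig P _ (fun n ω => Classical.epsilon fun j => G j n ω) h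
  exact ⟨j, hj.mono (Eventually.of_forall fun n ω _ e => e.2 ▸ Classical.epsilon_spec e.1)⟩

theorem pf_sm (c : ℝ) (A : Qd) (Y U : V 5) : pf (c • A) Y U = c * pf A Y U := by
  simp only [pf, smul_mulVec, dotProduct_smul, smul_eq_mul]; ring

theorem qf_sm (c : ℝ) (A : Qd) (Y : V 5) : qf (c • A) Y = c * qf A Y := by
  simp only [qf, smul_mulVec, dotProduct_smul, smul_eq_mul]

theorem ab {c K x y : ℝ} (h : |c| ≤ K) (e : |x| ≤ y) : |c * x| ≤ K * y := by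
  rw [abs_mul]
  exact mul_le_mul h e (abs_nonneg _) ((abs_nonneg _).trans h)

theorem wf_sm {W : Type} {g : Geo 3 W} {L c K : ℝ} {A : Qd} {v : W} {j τ : ℕ}
    (h : g.wf L A v j τ) (e : |c| ≤ K) : g.wf (K * L) (c • A) v j τ := fun t ht =>
  ⟨by rw [qf_sm, mul_div_assoc]; exact ab e (h t ht).1,
    fun i => by rw [pf_sm]; exact ab e ((h t ht).2 i)⟩

theorem hs_sm {c K y : ℝ} {A : Qd} (h : Hs A y) (e : |c| ≤ K) : Hs (c • A) (K * y) :=
  fun i k => by rw [pf_sm]; exact ab e (h i k)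

/-- A large entry of the Hessian. -/
def Lg (q : ℕ) (A : Qd) : Prop := ∃ i k : Fin 4, 2 ^ q ≤ |pf A (bv i.succ) (bv k.succ)|

/-- The Hessian is small or large. -/
def Gd (q R : ℕ) (A : Qd) : Prop := Hs A (2 ^ q / 2 ^ R) ∨ Lg q A

theorem gd {a b R : ℕ} (h : b + R ≤ a) (A : Qd) : Gd a R A ∨ Gd b R A := by
  by_cases e : Hs A (2 ^ a / 2 ^ R)
  · exact .inl (.inl e)
  · simp only [Hs, not_forall, not_le] at e
    obtain ⟨i, k, e⟩ := e
    refine .inr (.inr ⟨i, k, le_trans ?_ e.le⟩)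
    rw [le_div_iff₀ (by positivity), ← pow_add]
    exact pow_le_pow_right₀ one_le_two h

/-- Change the quadric. -/
abbrev mp {W : Type} (s : Lq W) (T : Qd → Qd) : Lq W := ⟨s.Λ, s.S, fun v => T (s.A v), s.d⟩

variable {W : ℕ → Type} {Q : ∀ n, FP (W n)} {g : Gs 3 W} {R j m q : ℕ → ℕ} {s : ∀ n, Lq (W n)}
  {L : ℕ → ℝ}

theorem sd_mp (h : Sd Q g R j m q s) (T : ℕ → Qd → Qd) (hL : Sub R L)
    (e : ∀ᶠ n in UF, ∀ v ∈ (Q n).S, (g n).wf (L n) (T n ((s n).A v)) v (j n) (q n)) :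
    Sd Q g R j m q fun n => mp (s n) (T n) := by
  obtain ⟨L₀, a, b⟩ := h.alg
  refine ⟨h.big, h.le, ⟨_, a.mul hL, ?_⟩, h.ful⟩
  filter_upwards [b, e] with n u w
  have u' := u.mono (le_mul_of_one_le_right (a.pos n).le (hL.1 n))
  refine ⟨u'.bx, fun x hx y hy k => ?_, fun v hv =>
    ⟨(w v hv).mono (le_mul_of_one_le_left (hL.pos n).le (a.1 n)), (u'.fit v hv).2⟩⟩
  have := u.fn x hx y hy k
  exact Prod.ext (congrArg (T n) (congrArg Prod.fst this)) (congrArg Prod.snd this :)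

theorem side (hD : EDnA) (hP : EShp) (h : Sd Q g R j m q s)
    (hq : ∀ᶠ n in UF, m n + 2 * R n ≤ q n) (hL : Sub R L)
    (hd : ∀ᶠ n in UF, ∀ v ∈ (Q n).S, 1 ≤ L n * |(g n).dv ((s n).A v) v|) :
    ∃ (K : ℕ → ℝ) (T : Bool → ℕ → Qd → Qd), Sub R K ∧
      (∀ σ, Sd Q g R j m q fun n => mp (s n) (T σ n)) ∧ Whp Q fun n v =>
        Gd (q n) (R n) ((s n).A v) → ∃ σ, Hs (T σ n ((s n).A v)) (K n * 2 ^ q n / 2 ^ R n) ∧
          2 ≤ (g n).dv (T σ n ((s n).A v)) v := by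
  classical
  obtain ⟨Φ, hΦ⟩ := hP
  obtain ⟨L₀, h0, al⟩ := h.alg
  obtain ⟨T, t1, t2⟩ : ∃ T : ℕ → Qd → Qd, (∀ n A, Lg (q n) A → T n A = Φ A) ∧
      ∀ n A, ¬Lg (q n) A → T n A = A :=
    ⟨fun n A => if Lg (q n) A then Φ A else A, fun _ _ e => if_pos e, fun _ _ e => if_neg e⟩
  have s1 := sd_mp h T h0 (al.mono fun n u v hv => by
    by_cases e : Lg (q n) ((s n).A v)
    · rw [t1 _ _ e]; exact (hΦ _ _ v _ _ _ _ (h0.1 n) e (u.fit v hv).1).1
    · rw [t2 _ _ e]; exact (u.fit v hv).1)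
  obtain ⟨K, h1, w⟩ := hD Q g R j m q _ L s1 hL fun k => k.false h.big two_pos
    (hq.mono fun n u => by
      have : (m n + 2 * R n : ℝ) ≤ q n := by exact_mod_cast u
      linarith)
  have h2 := h1.const_mul h.big one_le_two
  have h3 : ∀ (σ : Bool) n, |cond σ (2 * K n) (-(2 * K n))| ≤ 2 * K n := fun σ n => by
    cases σ <;> simp only [cond, abs_neg, abs_of_pos (h2.pos n), le_refl]
  refine ⟨_, fun σ n A => cond σ (2 * K n) (-(2 * K n)) • T n A, h2, fun σ => ?_, w.mono ?_⟩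
  · obtain ⟨L₁, h4, a1⟩ := s1.alg
    exact sd_mp h _ (h2.mul h4) (a1.mono fun n u v hv => wf_sm (u.fit v hv).1 (h3 σ n))
  · filter_upwards [al, hd] with n u d v hv k G
    have e1 : Hs (T n ((s n).A v)) (2 ^ q n / 2 ^ R n) ∧
        ∃ i : Fin 4, 1 ≤ L n * |pf (T n ((s n).A v)) ((g n).hp v) (bv i.succ)| := by
      by_cases e : Lg (q n) ((s n).A v)
      · obtain ⟨-, x, i, y⟩ := hΦ _ _ v _ _ _ _ (h0.1 n) e (u.fit v hv).1
        rw [t1 _ _ e]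
        exact ⟨x.mono (by positivity), i, one_le_mul_of_one_le_of_one_le (hL.1 n) y⟩
      · rw [t2 _ _ e]
        exact ⟨G.resolve_right e, 3, d v hv⟩
    have e2 : 1 ≤ K n * |pf (T n ((s n).A v)) ((g n).hp v) (bv 4)| := k e1.2
    simp only [mul_div_assoc, Geo.dv, pf_sm]
    rcases le_total 0 (pf (T n ((s n).A v)) ((g n).hp v) (bv 4)) with e | e
    · rw [abs_of_nonneg e] at e2
      exact ⟨true, hs_sm e1.1 (h3 _ n), by simp only [cond]; linarith⟩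
    · rw [abs_of_nonpos e] at e2
      exact ⟨false, hs_sm e1.1 (h3 _ n), by simp only [cond]; linarith⟩

end EPrepA

open EPrepA in
theorem rowEPrep : OfEPrep := by
  rintro hS hD hP W P g R j m p η e₀ B X s₁ s₂ eb tw ⟨L, hL, hd⟩ fr hp
  obtain ⟨a, ha⟩ := pg (P := X.P) (fun (a : Fin 3) n v =>
    Gd (max (m n) (p n - a * R n)) (R n) ((s₁ n).A v) ∧
      Gd (max (m n) (p n - a * R n)) (R n) ((s₂ n).A v))
    (Pos.of_ev (hp.mono fun n u v _ => by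
      have k : ∀ x y : ℕ, x < y → y ≤ 2 → max (m n) (p n - y * R n) + R n ≤
          max (m n) (p n - x * R n) := fun x y h h' => by
        have := Nat.mul_le_mul_right (R n) h'
        have := Nat.mul_le_mul_right (R n) (Nat.succ_le_of_lt h)
        rw [Nat.succ_mul] at this
        omega
      have k1 := gd (k 0 1 (by omega) (by omega))
      have k2 := gd (k 0 2 (by omega) (by omega))
      have k3 := gd (k 1 2 (by omega) (by omega))
      have := k1 ((s₁ n).A v); have := k2 ((s₁ n).A v); have := k3 ((s₁ n).A v)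
      have := k1 ((s₂ n).A v); have := k2 ((s₂ n).A v); have := k3 ((s₂ n).A v)
      simp only [Fin.exists_fin_succ, Fin.val_zero, Fin.val_succ, zero_add, Nat.reduceAdd]
      tauto))
  have a2 : ∀ n, a * R n ≤ 2 * R n := fun n => Nat.mul_le_mul_right _ (by omega)
  obtain ⟨q, hq⟩ : ∃ q : ℕ → ℕ, ∀ n, max (m n) (p n - a * R n) = q n := ⟨_, fun _ => rfl⟩
  simp only [hq] at ha
  have h1 : ∀ n, m n ≤ q n ∧ q n ≤ p n ∧ p n ≤ q n + 2 * R n := fun n => by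
    have := a2 n; have := hq n; have := eb.le n; omega
  have h2 : ∀ᶠ n in UF, m n + 2 * R n ≤ q n := hp.mono fun n u => by
    have := a2 n; have := hq n; omega
  have h3 := fun n => And.intro (h1 n).1 (h1 n).2.1
  obtain ⟨L₁, T₁, a₁, b₁, c₁⟩ := side hD hP (hS.coarse _ _ _ _ _ _ q _ tw.sd₁ h3) h2 hL
    (hd.mono fun n u v hv => (u v hv).1)
  obtain ⟨L₂, T₂, a₂, b₂, c₂⟩ := side hD hP (hS.coarse _ _ _ _ _ _ q _ tw.sd₂ h3) h2 hL
    (hd.mono fun n u v hv => (u v hv).2)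
  obtain ⟨σ, hσ⟩ := pg (P := X.P) (fun (σ : Bool × Bool) n v =>
    (Hs (T₁ σ.1 n ((s₁ n).A v)) (L₁ n * 2 ^ q n / 2 ^ R n) ∧
      2 ≤ (X.G g n).dv (T₁ σ.1 n ((s₁ n).A v)) v) ∧
    Hs (T₂ σ.2 n ((s₂ n).A v)) (L₂ n * 2 ^ q n / 2 ^ R n) ∧
      2 ≤ (X.G g n).dv (T₂ σ.2 n ((s₂ n).A v)) v)
    ((ha.and (c₁.and c₂)).mono (Eventually.of_forall fun n v _ e => by
      obtain ⟨x, hx⟩ := e.2.1 e.1.1
      obtain ⟨y, hy⟩ := e.2.2 e.1.2
      exact ⟨(x, y), hx, hy⟩))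
  refine ⟨q, _, _, _, eb, h1, h2, hS.tw P g R j m q B X (fun n => mp (s₁ n) (T₁ σ.1 n))
    (fun n => mp (s₂ n) (T₂ σ.2 n)) _ _ (fun n => ?_)
    ⟨tw.dn, b₁ _, b₂ _, tw.hk, tw.lk, tw.inf⟩ (K31.dnS_cE hσ), fun n => fr n, _, a₁.mul a₂,
    hσ.sure.mono fun n u v hv => ?_⟩
  · have := Real.log_nonneg (le_add_of_nonneg_left (Nat.cast_nonneg (p n)) : (1 : ℝ) ≤ p n + 1)
    linarith [eb.hB n]
  · obtain ⟨-, x, y⟩ := u v hv
    have e₁ := a₁.1 n
    have e₂ := a₂.1 n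
    exact ⟨⟨x.1.mono (by gcongr; nlinarith), x.2⟩, y.1.mono (by gcongr; nlinarith), y.2⟩

end Pool.Agent.MP_5168f5_an.R4
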