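import Pool.Agent.MP_5168f5_an.R4.SpecE3

/-! A fit on a window extends to a larger window. -/

namespace Pool.Agent.MP_5168f5_an.R4

open H19 H17S H17F Matrix

namespace ERmzA

theorem node (c : ℕ) (k : ℤ) {u : ℝ} (h0 : 0 ≤ u) (h1 : u < 1) :
    fl1 c (((2 : ℝ) ^ c)⁻¹ * (k + u)) = k := by
  rw [fl1, mul_inv_cancel_left₀ (by positivity), Int.floor_eq_iff]
  constructor <;> linarith

theorem rem {φ : ℝ → ℝ} {a b e z ε t : ℝ} {j c : ℕ} (hφ : ∀ t, φ t = a + b * t + e * t ^ 2)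
    (hj : j ≤ c) (h : ∀ t, fl1 c t = fl1 c z → |φ t| ≤ ε) (ht : fl1 j t = fl1 j z) :
    |φ t| ≤ 100 * 4 ^ (c - j) * ε := by
  have h0 := h _ (node c (fl1 c z) le_rfl one_pos)
  have h1 := h _ (node c (fl1 c z) (u := 1 / 4) (by norm_num) (by norm_num))
  have h2 := h _ (node c (fl1 c z) (u := 1 / 2) (by norm_num) (by norm_num))
  have h3 := abs_sub_lt_of_fl1_eq
    (ht.trans (fl1_eq_of_le hj (node c (fl1 c z) le_rfl one_pos)).symm)
  obtain ⟨s, hs⟩ : ∃ s : ℝ, t = ((2 : ℝ) ^ c)⁻¹ * (fl1 c z + s) :=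
    ⟨2 ^ c * t - fl1 c z, by field_simp; ring⟩
  obtain ⟨N, hN⟩ : ∃ N : ℝ, N = 2 ^ (c - j) := ⟨_, rfl⟩
  have n1 : 1 ≤ N := hN ▸ one_le_pow₀ one_le_two
  have n2 : (4 : ℝ) ^ (c - j) = N ^ 2 := by rw [hN, ← pow_mul, mul_comm, pow_mul]; norm_num
  have n3 : |s| ≤ N := by
    have e1 : (2 : ℝ) ^ c = 2 ^ j * N := by rw [hN, ← pow_add, Nat.add_sub_cancel' hj]
    have p : (0 : ℝ) < 2 ^ j := by positivity
    rw [hs, ← mul_sub, add_zero, add_sub_cancel_left, abs_mul, abs_of_pos (by positivity), e1,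
      mul_inv, mul_assoc, mul_lt_iff_lt_one_right (by positivity),
      inv_mul_lt_iff₀ (by linarith)] at h3
    linarith
  have e : φ t = 8 * ((s - 1 / 4) * (s - 1 / 2)) * φ (((2 : ℝ) ^ c)⁻¹ * (fl1 c z + 0)) -
      16 * (s * (s - 1 / 2)) * φ (((2 : ℝ) ^ c)⁻¹ * (fl1 c z + 1 / 4)) +
      8 * (s * (s - 1 / 4)) * φ (((2 : ℝ) ^ c)⁻¹ * (fl1 c z + 1 / 2)) := by
    rw [hφ, hφ, hφ, hφ, hs]
    ring
  have m : ∀ x y w : ℝ, |x| ≤ 3 / 2 * N → |y| ≤ 3 / 2 * N → |w| ≤ ε →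
      |x * y * w| ≤ 9 / 4 * (N ^ 2 * ε) := fun x y w p q r => by
    rw [abs_mul, abs_mul, show 9 / 4 * (N ^ 2 * ε) = 3 / 2 * N * (3 / 2 * N) * ε by ring]
    gcongr
  have s0 : |s| ≤ 3 / 2 * N := by linarith
  have s1 : |s - 1 / 4| ≤ 3 / 2 * N := by
    rw [abs_le] at n3 ⊢; constructor <;> linarith [n3.1, n3.2]
  have s2 : |s - 1 / 2| ≤ 3 / 2 * N := by
    rw [abs_le] at n3 ⊢; constructor <;> linarith [n3.1, n3.2]
  have m0 := abs_le.1 (m _ _ _ s1 s2 h0)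
  have m1 := abs_le.1 (m _ _ _ s0 s2 h1)
  have m2 := abs_le.1 (m _ _ _ s0 s1 h2)
  have m3 : 0 ≤ N ^ 2 * ε := mul_nonneg (sq_nonneg _) ((abs_nonneg _).trans h0)
  rw [e, n2, abs_le]
  constructor <;> linarith [m0.1, m0.2, m1.1, m1.2, m2.1, m2.2]

theorem hom_eq {W : Type} (g : Geo 3 W) (t : ℝ) (v : W) :
    hom t (g.lt t v) = hom 0 (g.lt 0 v) + t • vec 1 (g.e v) := by
  simpa only [zero_add] using hom_lt g 0 t v

end ERmzA

open ERmzA in
theorem rowERmz : ERmz := by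
  intro W g L v j c τ hj
  refine ⟨fun A h t ht => ⟨?_, fun i => ?_⟩, fun k d h => ?_⟩
  · rw [mul_div_assoc]
    exact rem (φ := fun t => qf A (hom t (g.lt t v))) (a := qf A (hom 0 (g.lt 0 v)))
      (b := pf A (hom 0 (g.lt 0 v)) (vec 1 (g.e v))) (e := qf A (vec 1 (g.e v))) (fun t => by
        rw [hom_eq g t, qf_add, qf_smul, pf_smul_right]
        ring) hj (fun t k => (h t k).1) ht
  · exact rem (φ := fun t => pf A (hom t (g.lt t v)) (bv i.succ))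
      (a := pf A (hom 0 (g.lt 0 v)) (bv i.succ)) (b := pf A (vec 1 (g.e v)) (bv i.succ)) (e := 0)
      (fun t => by
        rw [hom_eq g t, pf_add_left, pf_smul_left]
        ring) hj (fun t k => (h t k).2 i) ht
  · have h1 : L ≤ 100 * 4 ^ (c - j) * L := le_mul_of_one_le_left ((abs_nonneg _).trans h.1)
      (one_le_mul_of_one_le_of_one_le (by norm_num) (one_le_pow₀ (by norm_num)))
    refine ⟨h.1.trans h1, fun i => ⟨(h.2.1 i).1.trans h1, (h.2.1 i).2⟩, fun t ht => ?_⟩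
    rw [mul_div_assoc]
    exact rem (φ := fun t => g.lt t v k - d.1 - d.2.1 * t - ∑ i, d.2.2 i * g.lt t v i)
      (a := g.a v k - d.1 - ∑ i, d.2.2 i * g.a v i)
      (b := g.e v k - d.2.1 - ∑ i, d.2.2 i * g.e v i) (e := 0) (fun t => by
        simp only [Geo.lt, Pi.add_apply, Pi.smul_apply, smul_eq_mul, Fin.sum_univ_three]
        ring) hj h.2.2 ht

end Pool.Agent.MP_5168f5_an.R4
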