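import Pool.Agent.MP_5168f5_an.R4.SpecE3

/-! Filled cells: refinements, coarser resolutions, and labels that are almost determined. -/

namespace Pool.Agent.MP_5168f5_an.R4

open H19 H17S H17F Filter

namespace ESdA

theorem full {W W' A B : ℕ → Type} {Q : ∀ n, FP (W n)} {Q' : ∀ n, FP (W' n)}
    {f : ∀ n, W' n → W n} {R a p : ℕ → ℕ} {L : ℕ → ℝ} {F : ∀ n, W n → A n} {G : ∀ n, W n → B n}
    (h : K31.DnS Q' f Q) (hR : Big R) (hL : Sub R L) (hp : ∀ n, a n ≤ p n)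
    (d : ∀ᶠ n in UF, Det (Q n) (F n) (G n) (L n * 2 ^ (p n - a n)))
    (k : Le R (fun n => (p n - a n : ℝ) * lg) fun n => ch (Q n) (F n) (G n)) :
    Le R (fun n => (p n - a n : ℝ) * lg) fun n =>
      ch (Q' n) (fun v => F n (f n v)) fun v => G n (f n v) := by
  have e : ∀ n, Real.log (L n * 2 ^ (p n - a n)) = Real.log (L n) + (p n - a n : ℝ) * lg :=
    fun n => by rw [Real.log_mul (hL.pos n).ne' (by positivity), log_two_pow, Nat.cast_sub (hp n)]
  refine (Le.of_le fun n => ?_).trans (h.full hR d (Le.of2 k hL.log (Eventually.of_forall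
    fun n => by rw [e]; linarith)))
  rw [e]
  exact le_add_of_nonneg_left (Real.log_nonneg (hL.1 n))

theorem alg {W W' : Type} {Q : FP W} {Q' : FP W'} {f : W' → W} {C L : ℝ} {g : Geo 3 W} {s : Lq W}
    {j m p : ℕ} (h : K31.Dn C Q' f Q) (k : s.Alg g Q L j m p) :
    (s.pull f).Alg (g.pull f) Q' L j m p :=
  ⟨⟨fun _ hv => k.bx.bd _ (h.mem hv), h.fn k.bx.fz, h.fn k.bx.fθ⟩, h.fn k.fn,
    fun _ hv => k.fit _ (h.mem hv)⟩

theorem dn (hC : ECnt) {W W' : ℕ → Type} (Q : ∀ n, FP (W n)) (g : Gs 3 W) (R j m p : ℕ → ℕ)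
    (s : ∀ n, Lq (W n)) (Q' : ∀ n, FP (W' n)) (f : ∀ n, W' n → W n) (h : Sd Q g R j m p s)
    (k : K31.DnS Q' f Q) :
    Sd Q' (fun n => (g n).pull (f n)) R j m p fun n => (s n).pull (f n) := by
  obtain ⟨C, c1, hC⟩ := hC
  obtain ⟨L, hL, a⟩ := h.alg
  have jp := fun n => (h.le n).1.trans (h.le n).2
  have d := a.mono fun n e => hC _ _ _ _ _ _ _ (p n) (hL.1 n) e
  have a1 := full k h.big (h.big.sub le_rfl) jp (d.mono fun n e => by
    rw [one_mul]
    exact (e.1 (jp n)).1) h.ful.t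
  have a2 := full k h.big (hL.const_mul h.big c1) jp (d.mono fun n e => (e.1 (jp n)).2) h.ful.x
  have a3 := full k h.big (hL.const_mul h.big c1) (fun n => (h.le n).2)
    (d.mono fun n e => e.2.1 (h.le n).2) h.ful.u
  exact ⟨h.big, h.le, ⟨L, hL, k.elim fun _ k => (k.2.and a).mono fun n e => alg e.1 e.2⟩,
    a1, a2, a3⟩

theorem lab {W W' A D E : ℕ → Type} {Q : ∀ n, FP (W n)} {Q' : ∀ n, FP (W' n)}
    {f : ∀ n, W' n → W n} {B : ℕ → ℝ} {F : ∀ n, W n → A n} {G : ∀ n, W n → D n}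
    {K : ∀ n, W n → E n} (hB : ∀ n, 1 ≤ B n) (k : K31.DnS Q' f Q)
    (h : ∃ C : ℝ, ∀ᶠ n in UF, mi (Q n) (F n) (G n) (K n) ≤ C * B n) : ∃ C : ℝ, ∀ᶠ n in UF,
      mi (Q' n) (fun v => F n (f n v)) (fun v => G n (f n v)) (fun v => K n (f n v)) ≤ C * B n := by
  obtain ⟨C, h⟩ := h
  obtain ⟨C', -, k⟩ := k
  refine ⟨C' * (C + 1), (k.and h).mono fun n e => (e.1.mi_le _ _ _).trans ?_⟩
  rw [mul_assoc]
  exact mul_le_mul_of_nonneg_left (by linarith [e.2, lg_lt_one, hB n])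
    (zero_le_one.trans e.1.one_le)

end ESdA

open ESdA

theorem rowESd : OfESd := fun hC => by
  refine ⟨dn hC, fun Q g R j m p q s h e => ?_, fun Q g R j m p S S' h k => ?_,
    fun P g R j m p B X s₁ s₂ Q' f hB h k => ?_⟩
  · refine ⟨h.big, fun n => ⟨(h.le n).1, (e n).1⟩, h.alg.imp fun L a => ⟨a.1, a.2.mono fun n b =>
      ⟨b.bx, b.fn, fun v hv => ⟨fun t ht => ⟨((b.fit v hv).1 t ht).1.trans
        (div_le_div_of_nonneg_left (a.1.pos n).le (by positivity)
          (pow_le_pow_right₀ one_le_two (e n).2)), ((b.fit v hv).1 t ht).2⟩, (b.fit v hv).2⟩⟩⟩,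
      h.ful.t.of_sub (Eventually.of_forall fun n => ?_),
      h.ful.x.of_sub (Eventually.of_forall fun n => ?_),
      h.ful.u.of_sub (Eventually.of_forall fun n => ?_)⟩
    · linarith [KBA.coarse_le (P := Q n) (g n).z (s n).S (e n).2]
    · linarith [KBA.coarse_le (P := Q n) (fun v => (g n).pt v 0)
        (fun v => ((s n).S v, (g n).zt v)) (e n).2]
    · linarith [KBA.coarse_le (P := Q n) (fun v => (g n).pt v 1)
        (fun v => ((g n).cx (p n) 0 v, (s n).S v, (g n).zt v)) (e n).2,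
        ch_anti (P := Q n) (F := (g n).cx (q n) 1)
          (G' := fun v => ((g n).cx (p n) 0 v, (s n).S v, (g n).zt v))
          (((KBA.fn_fl_le (fun v => (g n).pt v 0) (e n).2).left _).pair
            (Fn.snd _ fun v => ((s n).S v, (g n).zt v)))]
  · refine ⟨h.t.of2 k (Eventually.of_forall fun n => ?_),
      h.x.of2 k (Eventually.of_forall fun n => ?_), h.u.of2 k (Eventually.of_forall fun n => ?_)⟩
    · linarith [ch_tri' (P := Q n) ((g n).cz (p n)) (S n) (S' n)]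
    · have : ch (Q n) (fun v => (S' n v, (g n).zt v)) (fun v => (S n v, (g n).zt v)) ≤
          ch (Q n) (S' n) (S n) := ch_le (fun _ _ _ _ e => by simp_all) (Fn.fst _ _)
      linarith [ch_tri' (P := Q n) ((g n).cx (p n) 0) (fun v => (S n v, (g n).zt v)) fun v =>
        (S' n v, (g n).zt v)]
    · have : ch (Q n) (fun v => ((g n).cx (p n) 0 v, S' n v, (g n).zt v))
          (fun v => ((g n).cx (p n) 0 v, S n v, (g n).zt v)) ≤ ch (Q n) (S' n) (S n) :=
        ch_le (fun _ _ _ _ e => by simp_all) ((Fn.fst _ _).right _)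
      linarith [ch_tri' (P := Q n) ((g n).cx (p n) 1)
        (fun v => ((g n).cx (p n) 0 v, S n v, (g n).zt v)) fun v =>
          ((g n).cx (p n) 0 v, S' n v, (g n).zt v)]
  · have a1 := k.trans h.dn
    have a2 := dn hC _ _ _ _ _ _ _ _ _ h.sd₁ k
    have a3 := dn hC _ _ _ _ _ _ _ _ _ h.sd₂ k
    have a4 := lab hB k h.hk
    have a5 := lab hB k h.lk
    have a6 := k.sm_mi h.sd₁.big h.inf
    exact ⟨a1, a2, a3, a4, a5, a6⟩

end Pool.Agent.MP_5168f5_an.R4
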