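import Pool.Agent.MP_5168f5_an.R4.SpecE3

/-! Extension step for quadrics: fibres with separated slopes. -/

namespace Pool.Agent.MP_5168f5_an.R4

open H19 H17S H17F Matrix Filter

namespace ESepDA

/-- The system that keeps the rounded first slope only. -/
noncomputable abbrev g1 {W : Type} (g : Geo 3 W) (r : ℕ) : Geo 1 W :=
  ⟨g.T, g.Y, fun _ => 0, fun w _ => rd r (g.e w 0), g.z, g.θ, g.y⟩

theorem abs_rd {L x : ℝ} (r : ℕ) (hL : 1 ≤ L) (h : |x| ≤ L) : |rd r x| ≤ 2 * L := by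
  have h1 := rd_le r x
  have h2 : ((2 : ℝ) ^ r)⁻¹ ≤ 1 := inv_le_one_of_one_le₀ (one_le_pow₀ one_le_two)
  have h3 := abs_le.1 h
  exact abs_le.2 ⟨by linarith [h1.2, h3.1], by linarith [h1.1, h3.2]⟩

theorem sep_rd {L x y : ℝ} {r : ℕ} (h0 : 0 ≤ L) (hL : 2 * L ≤ 2 ^ r)
    (h : 1 ≤ L * |rd r x - rd r y|) : 1 ≤ 2 * L * |x - y| := by
  have h1 := rd_le r x
  have h2 := rd_le r y
  have h3 : |rd r x - rd r y| ≤ |x - y| + ((2 : ℝ) ^ r)⁻¹ := abs_le.2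
    ⟨by linarith [h1.2, h2.1, neg_abs_le (x - y)], by linarith [h1.1, h2.2, le_abs_self (x - y)]⟩
  have h4 : 2 * L * ((2 : ℝ) ^ r)⁻¹ ≤ 1 := mul_inv_le_one_of_le₀ hL (by positivity)
  nlinarith [mul_le_mul_of_nonneg_left h3 h0]

theorem cls {W : ℕ → Type} {K : Mb W → Prop} {g : Gs 3 W} {R : ℕ → ℕ} {η : ℝ}
    (h : Cls0 K g R 0 η) : Cls0 K (fun n => g1 (g n) (R n)) R 0 η := by
  refine ⟨h.cl0, h.pos, fun X hX => ?_, fun X hX α a => ?_⟩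
  · have b := h.bs X hX
    obtain ⟨L, hL, c⟩ := b.bx
    refine ⟨b.big, ⟨fun n => 2 * L n, hL.const_mul b.big one_le_two, c.mono fun n d =>
      ⟨fun v hv => ⟨fun i => ⟨?_, abs_rd _ (hL.1 n) ((d.bd v hv).1 0).2⟩, (d.bd v hv).2⟩,
        d.fz, d.fθ⟩⟩, b.inf.mono (Eventually.of_forall fun n => mi_mono fun u _ v _ e => ?_), b.hgt⟩
    · simpa using (hL.pos n).le
    · simp only [Geo.ln, Prod.mk.injEq] at e ⊢
      exact ⟨trivial, by rw [e.1.2.1], e.2⟩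
  · simpa only [fl1_rd (a _)] using h.br X hX α a

end ESepDA

open ESepDA in
theorem rowESepD : ESepD := by
  intro W Φ K g R η X φ h hX hφ
  have b := h.bs X hX
  obtain ⟨L₀, -, c⟩ := b.bx
  obtain ⟨L, hL, hW⟩ := sep K _ R 0 η X φ (cls h) hX (hφ.mono (c.mono fun n d =>
    mi_mono fun u hu v hv e => by
      simp only [Geo.core, Geo.ln, Prod.mk.injEq] at e ⊢
      exact ⟨⟨trivial, by rw [rd, rd, e.1], d.fθ u hu v hv e.2⟩, d.fz u hu v hv e.2, e.2⟩))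
  have h2 := hL.const_mul b.big one_le_two
  refine ⟨_, h2, fun ε hε => ?_⟩
  filter_upwards [hW ε hε, h2.2 lg lg_pos] with n u v
  rw [mul_comm lg, ← two_pow_eq] at v
  refine ((kg.fst _ (X n).Q (φ n) (φ n)).pb_eq fun ω => ¬∃ v' ∈ (X n).Q.S, φ n v' = φ n ω ∧
    1 ≤ 2 * L n * |(X.G g n).e ω 0 - (X.G g n).e v' 0|).symm.trans_le ((pb_mono ?_).trans u)
  intro w hw k k'
  obtain ⟨-, a1, a2⟩ := (kg.mem _ _ _ _ w (Law.rfl _)).1 hw
  exact k ⟨w.2, a1, a2, sep_rd (hL.pos n).le v k'⟩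

end Pool.Agent.MP_5168f5_an.R4
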