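import Pool.Agent.MP_5168f5_an.R4.SpecE3

/-! A cell that is filled at one height is filled at the other. -/

namespace Pool.Agent.MP_5168f5_an.R4

open H19 H17S H17F Matrix Filter

namespace EShBA

variable {W Λ : Type} {Q : FP W}

theorem lower (g : Geo 3 W) (S : W → Λ) (p : ℕ) :
    ch Q (g.cx p 0) (fun v => (S v, g.zt v)) +
      ch Q (g.cx p 1) (fun v => (g.cx p 0 v, S v, g.zt v)) ≤
    ch Q (fun v => fl p (g.pt v)) fun v => (S v, g.zt v) := by
  rw [← ch_chain]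
  refine ch_mono fun a _ b _ e => ?_
  have h := congrArg Prod.fst e
  exact Prod.ext (congrFun h 0) (congrFun h 1)

theorem upper (g : Geo 3 W) (S : W → Λ) (p : ℕ) {B : ℝ}
    (h : Det Q (g.cx p 2) (fun v => (g.cx p 0 v, g.cx p 1 v, S v, g.zt v)) B) :
    ch Q (fun v => fl p (g.pt v)) (fun v => (S v, g.zt v)) ≤
      ch Q (g.cx p 0) (fun v => (S v, g.zt v)) +
        ch Q (g.cx p 1) (fun v => (g.cx p 0 v, S v, g.zt v)) + Real.log B := by
  have h1 := ch_tri (P := Q) (fun v => fl p (g.pt v)) (fun v => (g.cx p 0 v, g.cx p 1 v))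
    fun v => (S v, g.zt v)
  rw [ch_chain] at h1
  have h2 : ch Q (fun v => fl p (g.pt v)) (fun v => ((g.cx p 0 v, g.cx p 1 v), S v, g.zt v)) ≤
      ch Q (g.cx p 2) fun v => (g.cx p 0 v, g.cx p 1 v, S v, g.zt v) := by
    refine ch_le (fun a _ b _ e => ?_) fun a _ b _ e => ?_
    · simp only [Prod.mk.injEq] at e
      funext i
      fin_cases i
      · exact e.2.1.1
      · exact e.2.1.2
      · exact e.1
    · simp only [Prod.mk.injEq] at e ⊢
      tauto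
  linarith [ch_det h]

theorem top (g : Geo 3 W) (S : W → Λ) (j p : ℕ) :
    ch Q (g.cz p) (fun v => (g.cz j v, g.θ v)) ≤ ch Q (g.cz p) S +
      mi Q g.z (fun v => (g.ln v, S v)) fun v => (g.cz j v, g.θ v) := by
  have h1 : mi Q (g.cz p) (fun v => (g.ln v, S v)) (fun v => (g.cz j v, g.θ v)) ≤
      mi Q g.z (fun v => (g.ln v, S v)) fun v => (g.cz j v, g.θ v) :=
    mi_mono' ((Fn.comp (fl1 p) g.z).left _)
  have h2 : ch Q (g.cz p) (fun v => ((g.ln v, S v), g.cz j v, g.θ v)) ≤ ch Q (g.cz p) S :=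
    ch_anti ((Fn.snd g.ln S).left _)
  unfold mi at h1 ⊢
  linarith

theorem log_bd {c : ℝ} (hc : 0 < c) {j p : ℕ} (h : j ≤ p) :
    Real.log (c * 2 ^ (p - j)) = (p - j : ℝ) * lg + Real.log c := by
  rw [Real.log_mul hc.ne' (by positivity), log_two_pow, Nat.cast_sub h, add_comm]

theorem swap {Ω α β : Type} {ρ₁ ρ₂ : W → Ω} (h : Law Q ρ₁ Q ρ₂) (S : W → Λ) (F : Ω → α)
    (G : Ω → β) :
    ch Q (fun v => F (ρ₁ v)) (fun v => (S v, G (ρ₁ v))) +
      mi Q S (fun v => F (ρ₁ v)) (fun v => G (ρ₁ v)) =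
    ch Q (fun v => F (ρ₂ v)) (fun v => (S v, G (ρ₂ v))) +
      mi Q S (fun v => F (ρ₂ v)) fun v => G (ρ₂ v) := by
  rw [mi_symm, mi_symm S]
  have := h.ch_eq F G
  unfold mi
  linarith

end EShBA

theorem rowEShB : OfEShB := by
  rintro ⟨C, hC, cnt⟩ ⟨C', esh⟩ Ω W Q g ρ₁ ρ₂ R j m p s L sd hL ev hI inf ht
  have big := sd.big
  have hjp : ∀ n, j n ≤ p n := fun n => (sd.le n).1.trans (sd.le n).2
  have l1 := (hL.const_mul big hC).log
  have l2 := ((hL.const_mul big hC).mul hL).log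
  have l3 := big.sm C'
  have err := ((hI.add inf).add (l1.smul zero_le_two)).add (l2.add l3)
  have key : ∀ᶠ n in UF, ∃ X U I : ℝ,
      X = ch (Q n) (((g n).pull (ρ₁ n)).cx (p n) 0)
        (fun v => ((s n).S v, ((g n).pull (ρ₁ n)).zt v)) ∧
      U = ch (Q n) (((g n).pull (ρ₁ n)).cx (p n) 1)
        (fun v => (((g n).pull (ρ₁ n)).cx (p n) 0 v, (s n).S v, ((g n).pull (ρ₁ n)).zt v)) ∧
      I = mi (Q n) (s n).S (fun v => fl (p n - j n) ((g n).e (ρ₁ n v)))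
        (fun v => (g n).fp (fun _ => p n) (ρ₁ n v)) ∧
      X ≤ (p n - j n : ℝ) * lg + Real.log (C * L n) ∧
      U ≤ (p n - m n : ℝ) * lg + Real.log (C * L n) ∧ 0 ≤ I ∧ 0 ≤ Real.log (C * L n) ∧
      ch (Q n) (((g n).pull (ρ₂ n)).cx (p n) 0)
          (fun v => ((s n).S v, ((g n).pull (ρ₂ n)).zt v)) +
        ch (Q n) (((g n).pull (ρ₂ n)).cx (p n) 1)
          (fun v => (((g n).pull (ρ₂ n)).cx (p n) 0 v, (s n).S v, ((g n).pull (ρ₂ n)).zt v)) + I ≤
        X + U + (mi (Q n) (s n).S (fun v => fl (p n - j n) ((g n).e (ρ₂ n v)))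
          (fun v => (g n).fp (fun _ => p n) (ρ₂ n v)) +
          mi (Q n) ((g n).pull (ρ₁ n)).z (fun v => (((g n).pull (ρ₁ n)).ln v, (s n).S v))
            (fun v => (((g n).pull (ρ₁ n)).cz (j n) v, ((g n).pull (ρ₁ n)).θ v))) +
          (Real.log (C * L n * L n) + C') := by
    filter_upwards [ev] with n ⟨law, alg, hv⟩
    have hc := cnt (Q n) ((g n).pull (ρ₁ n)) (s n) (L n) (j n) (m n) (p n) (p n) (hL.1 n) alg
    have h0 : 1 ≤ C * L n := one_le_mul_of_one_le_of_one_le hC (hL.1 n)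
    have hp : 0 < C * L n := one_pos.trans_le h0
    have hx := ch_det (hc.1 (hjp n)).2
    have hu := ch_det (hc.2.1 (sd.le n).2)
    rw [EShBA.log_bd hp (hjp n)] at hx
    rw [EShBA.log_bd hp (sd.le n).2] at hu
    have a1 := EShBA.upper _ _ _ (hc.2.2 (L n) (hL.1 n) le_rfl fun v h => (hv v h).2)
    have a2 := EShBA.lower (Q := Q n) ((g n).pull (ρ₂ n)) (s n).S (p n)
    have a3 := EShBA.swap law (s n).S (fun w => fl (p n - j n) ((g n).e w))
      ((g n).fp fun _ => p n)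
    have a4 := esh (Q n) (g n) (ρ₁ n) (ρ₂ n) (s n).S (j n) (p n) (hjp n) (fun v h => (hv v h).1)
      fun a ha b hb e => by
        have := alg.fn a ha b hb e
        simp only [Lq.dat, Geo.wc, Prod.mk.injEq] at this
        exact Prod.ext this.2.2.2.2.2.1 this.2.2.2.2.1
    refine ⟨_, _, _, rfl, rfl, rfl, hx, hu, mi_nonneg _ _ _, Real.log_nonneg h0, ?_⟩
    have aux : ∀ x1 u1 x2 u2 t1 t2 d1 d2 i1 i2 J a c : ℝ, t1 ≤ x1 + u1 + a → x2 + u2 ≤ t2 →
        d1 + i1 = d2 + i2 → t2 + d2 ≤ t1 + d1 + J + c →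
        x2 + u2 + i1 ≤ x1 + u1 + (i2 + J) + (a + c) := by
      intros; linarith
    exact aux _ _ _ _ _ _ _ _ _ _ _ _ _ a1 a2 a3 a4
  refine ⟨⟨big, sd.le, ⟨L, hL, ev.mono fun n h => h.2.1⟩, ?_, ?_, ?_⟩, ?_⟩
  · refine ht.of2 inf (Eventually.of_forall fun n => ?_)
    have a := EShBA.top (Q := Q n) ((g n).pull (ρ₁ n)) (s n).S (j n) (p n)
    have aux : ∀ a x y J : ℝ, y ≤ x + J → a - x ≤ a - y + (J - 0) := by intros; linarith
    exact aux _ _ _ _ a
  · refine sd.ful.x.of3 sd.ful.u err (key.mono fun n ⟨X, U, I, e1, e2, e3, h⟩ => ?_)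
    rw [← e1]
    obtain ⟨h1, h2, h3, h4, h5⟩ := h
    linarith
  · refine sd.ful.x.of3 sd.ful.u err (key.mono fun n ⟨X, U, I, e1, e2, e3, h⟩ => ?_)
    rw [← e2]
    obtain ⟨h1, h2, h3, h4, h5⟩ := h
    linarith
  · refine sd.ful.x.of3 sd.ful.u err (key.mono fun n ⟨X, U, I, e1, e2, e3, h⟩ => ?_)
    rw [← e3]
    obtain ⟨h1, h2, h3, h4, h5⟩ := h
    linarith

end Pool.Agent.MP_5168f5_an.R4
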