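import Pool.Agent.MP_5168f5_an.R4.SpecE3

/-! The label of a second height in the same window. -/

namespace Pool.Agent.MP_5168f5_an.R4

open H19 H17S H17F Filter K31

namespace EShareA

theorem law_sym {Ω β : Type} (P : FP Ω) (φ : Ω → β) (E : Ω × Ω → Prop)
    (h : ∀ v, E v.swap ↔ E v) :
    Law (cE (glue P P φ φ) E) Prod.fst (cE (glue P P φ φ) E) Prod.snd := by
  have h1 := (ke.law _ _ _ _ E (kg.swap P P φ φ (Law.rfl _))).comp Prod.fst
  rw [cE_congr (E := fun v : Ω × Ω => E v.swap) (E' := E) fun v _ => h v] at h1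
  exact h1

theorem hk_pull {W W' Λ : Type} (g : Geo 3 W) (Q : FP W') (f : W' → W) (j : ℕ) (lam : W' → Λ) :
    (g.pull f).hk Q j lam = mi Q lam (fun v => g.core (f v)) fun v => g.win j (f v) := rfl

theorem lk_pull {W W' Λ : Type} (g : Geo 3 W) (Q : FP W') (f : W' → W) (lam : W' → Λ) :
    (g.pull f).lk Q lam = mi Q lam (fun v => g.core (f v)) fun v => g.y (f v) := rfl

variable {W : Type} {g : Geo 3 W} {s : Lq W} {L : ℝ} {j m p : ℕ}

theorem alg {Q : FP (W × W)} (h1 : (g.pull Prod.fst).Bx Q L)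
    (h2 : (s.pull Prod.snd).Alg (g.pull Prod.snd) Q L j m p)
    (e : ∀ v ∈ Q.S, g.win j v.1 = g.win j v.2) :
    (s.pull Prod.snd).Alg (g.pull Prod.fst) Q L j m p := by
  refine ⟨h1, fun a ha b hb u => ?_, fun v hv => ?_⟩
  · have k := h2.fn a ha b hb u
    have ea := e a ha
    have eb := e b hb
    simp only [Geo.win, Geo.ln, Prod.mk.injEq] at ea eb
    simp only [Lq.dat, Geo.wc, Geo.lt, Geo.z0, ea, eb] at k ⊢
    exact k
  · have k := h2.fit v hv
    have ev := e v hv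
    simp only [Geo.win, Geo.ln, Prod.mk.injEq] at ev
    simp only [Geo.wf, Geo.pl, Geo.lt, ev] at k ⊢
    exact k

end EShareA

open EShareA

theorem rowEShare : OfEShare := by
  intro sd pair shb W P g R j m p η e₀ B s eb e0
  obtain ⟨L, sL, wL⟩ := pair P g R j m p η e₀ B s eb e0
  obtain ⟨E, hE⟩ : ∃ E : ∀ n, W n × W n → Prop, E = fun n v => ∀ a ∈ [v.1, v.2], ∀ b ∈ [v.1, v.2],
    1 ≤ L n * |(g n).dv ((s n).A a) b| := ⟨_, rfl⟩
  rw [← hE] at wL
  have big := e0.sd.big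
  have B1 : ∀ n, lg ≤ B n := fun n => by
    linarith [eb.hB n, lg_lt_one, Real.log_nonneg (show (1 : ℝ) ≤ p n + 1 by simp)]
  obtain ⟨Q, hQ⟩ : ∃ Q : ∀ n, FP (W n × W n), Q = fun n =>
    cE (glue (P n) (P n) ((g n).win (j n)) ((g n).win (j n))) (E n) := ⟨_, rfl⟩
  have d0 : DnS Q (fun _ => id) fun n => glue (P n) (P n) ((g n).win (j n)) ((g n).win (j n)) :=
    hQ ▸ dnS_cE wL.pos
  have d1 : DnS Q (fun _ => Prod.fst) P :=
    d0.trans (dnS_law (Eventually.of_forall fun n => kg.fst _ _ _ _))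
  have d2 : DnS Q (fun _ => Prod.snd) P :=
    d0.trans (dnS_law (Eventually.of_forall fun n => kg.snd _ _ _ _ (Law.rfl _)))
  have sure : ∀ᶠ n in UF, ∀ v ∈ (Q n).S, (g n).win (j n) v.1 = (g n).win (j n) v.2 ∧
      1 ≤ L n * |(g n).dv ((s n).A v.2) v.1| ∧ 1 ≤ L n * |(g n).dv ((s n).A v.1) v.1| := by
    rw [hQ]
    refine wL.pos.sure.mono fun n a v hv => ?_
    obtain ⟨h1, h2⟩ := a v hv
    rw [hE] at h2
    exact ⟨((kg.mem _ _ _ _ v (Law.rfl _)).1 h1).2.2.symm, h2 _ (by simp) _ (by simp),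
      h2 _ (by simp) _ (by simp)⟩
  have law : ∀ n, Law (Q n) Prod.fst (Q n) Prod.snd := fun n => by
    rw [hQ]
    refine law_sym _ _ _ fun v => ?_
    simp only [hE, List.mem_cons, List.not_mem_nil, or_false, forall_eq_or_imp, forall_eq,
      Prod.fst_swap, Prod.snd_swap]
    tauto
  have s1 := sd.dn P g R j m p s Q _ e0.sd d1
  have s2 := sd.dn P g R j m p s Q _ e0.sd d2
  have zs : ∀ {K K' : ℕ → Type} (κ : ∀ n, W n → K n) (F : ∀ n, W n → K' n),
      (∀ n, Fn (P n) ((g n).win (j n)) (κ n)) → Sm R fun n =>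
      mi (Q n) (fun v => (s n).S v.2) (fun v => F n v.1) fun v => κ n v.1 := by
    intro K K' κ F h
    exact d0.sm_mi big (F := fun n v => (s n).S v.2) (G := fun n v => F n v.1)
      (K := fun n v => κ n v.1) (Le.of_le fun n => (kf2.copy _ _ (F n) (s n).S _ (h n)).le)
  have bs : Bs Q (fun n => (g n).pull Prod.fst) R := eb.cls.bs (fun n => ⟨_, Q n, Prod.fst⟩) d1
  have hk : Hk Q (fun n => (g n).pull Prod.fst) R j fun n v => (s n).S v.2 := by
    unfold Hk
    simp only [hk_pull]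
    exact zs (fun n => (g n).win (j n)) (fun n => (g n).core) fun n => Fn.rfl _
  have inf := KBA.inf bs hk
  obtain ⟨L₁, a₁, b₁⟩ := s1.alg
  obtain ⟨L₂, a₂, b₂⟩ := s2.alg
  obtain ⟨t1, t2⟩ := shb Q g (fun _ => Prod.fst) (fun _ => Prod.snd) R j m p
    (fun n => (s n).pull Prod.snd) (fun n => L₁ n * L₂ n * L n) s2 ((a₁.mul a₂).mul sL) (by
      filter_upwards [b₁, b₂, sure] with n x y u
      have e₁ := a₁.1 n
      have e₂ := a₂.1 n
      have e₃ := sL.1 n
      have e₄ : 1 ≤ L₁ n * L₂ n := one_le_mul_of_one_le_of_one_le e₁ e₂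
      exact ⟨law n, alg (x.bx.mono' (by nlinarith)) (y.mono (by nlinarith)) fun v hv => (u v hv).1,
        fun v hv => ⟨(u v hv).1, (u v hv).2.1.trans
          (mul_le_mul_of_nonneg_right (by nlinarith) (abs_nonneg _))⟩⟩)
    (d2.sm_mi big (F := fun n => (s n).S) (G := fun n ω => fl (p n - j n) ((g n).e ω))
      (K := fun n => (g n).fp fun _ => p n) (e0.lk.mono (eb.fy.mono fun n a =>
        mi_right a.1 (a.2.right _) (((Fn.comp (fl (p n - j n)) _).trans
          (KBA.fn_e_core _)).left _)))) inf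
    (s1.ful.t.trans (Le.of_ev (b₁.mono fun n x => ch_anti fun a ha b hb u => by
      have k := x.fn a ha b hb u
      simp only [Lq.dat, Geo.wc, Prod.mk.injEq] at k ⊢
      exact ⟨k.2.2.2.2.2.1, k.2.2.2.2.1⟩)))
  have u1 : ∃ C : ℝ, ∀ᶠ n in UF,
      ((g n).pull Prod.fst).hk (Q n) (j n) (fun v => (s n).S v.2) ≤ C * B n := by
    obtain ⟨C, c1, c2⟩ := d0
    refine ⟨C, c2.mono fun n a => ?_⟩
    have := a.mi_le (fun v => (s n).S v.2) (fun v => (g n).core v.1) fun v => (g n).win (j n) v.1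
    rw [kf2.copy _ _ (g n).core (s n).S _ (Fn.rfl _), zero_add] at this
    rw [hk_pull]
    exact this.trans (mul_le_mul_of_nonneg_left (B1 n) (by linarith))
  have u2 : ∃ C : ℝ, ∀ᶠ n in UF,
      ((g n).pull Prod.fst).lk (Q n) (fun v => (s n).S v.1) ≤ C * B n := by
    obtain ⟨C, c1, c2⟩ := d1
    refine ⟨C * 2, (c2.and e0.lkB).mono fun n a => ?_⟩
    rw [lk_pull, mul_assoc]
    refine (a.1.mi_le (s n).S (g n).core (g n).y).trans (mul_le_mul_of_nonneg_left ?_ (by linarith))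
    linarith [B1 n, show mi (P n) (s n).S (g n).core (g n).y ≤ B n from a.2]
  have u3 : Inf Q (fun n => (g n).pull Prod.fst) R (fun n => j n + R n) fun n v => (s n).S v.1 :=
    d1.sm_mi big (F := fun n => (g n).z) (G := fun n v => ((g n).ln v, (s n).S v))
      (K := fun n v => ((g n).cz (j n + R n) v, (g n).θ v)) e0.inf
  have u4 : Sm R fun n => mi (Q n) (fun v => ((s n).S v.2, (s n).S v.1))
      (fun v => fl1 (R n) ((g n).e v.1 0)) fun v => (g n).y v.1 := by
    have l1 := d1.sm_mi big (F := fun n => (s n).S) (G := fun n => (g n).core)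
      (K := fun n => (g n).y) e0.lk
    have l2 := zs (fun n ω => ((g n).core ω, (g n).y ω)) (fun n => (s n).S)
      fun n => (KBA.fn_win_core _ _).left _
    obtain ⟨C, -, c2⟩ := d1
    refine ((t2.add l1).add l2).mono ?_
    filter_upwards [c2, eb.fy] with n a b
    have e1 : mi (Q n) (fun v => ((s n).S v.2, (s n).S v.1)) (fun v => fl1 (R n) ((g n).e v.1 0))
        (fun v => (g n).y v.1) ≤ mi (Q n) (fun v => ((s n).S v.1, (s n).S v.2))
        (fun v => fl1 (R n) ((g n).e v.1 0)) fun v => (g n).y v.1 :=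
      mi_mono' (((Fn.snd _ _).pair (Fn.fst _ _)).left _)
    have e2 := KBA.mi_pair (P := Q n) (fun v => (s n).S v.1) (fun v => (s n).S v.2)
      (fun v => fl1 (R n) ((g n).e v.1 0)) fun v => (g n).y v.1
    have e3 : mi (Q n) (fun v => (s n).S v.2) (fun v => fl1 (R n) ((g n).e v.1 0))
        (fun v => (g n).y v.1) ≤ mi (Q n) (fun v => (s n).S v.2)
        (fun v => fl (p n - j n) ((g n).e v.1)) fun v => (g n).fp (fun _ => p n) v.1 :=
      mi_right (a.fn b.2) ((a.fn b.1).right _) fun v _ w _ u =>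
        fl1_eq_of_le (by have := eb.le n; omega) (congrFun (congrArg Prod.fst u) 0)
    have e4 : mi (Q n) (fun v => (s n).S v.1) (fun v => fl1 (R n) ((g n).e v.1 0))
        (fun v => ((s n).S v.2, (g n).y v.1)) ≤ mi (Q n) (fun v => (s n).S v.1)
        (fun v => ((g n).core v.1, (s n).S v.2)) fun v => (g n).y v.1 :=
      mi_right (Fn.snd _ _) (((Fn.snd _ _).left _).pair (Fn.snd _ _)) fun v _ w _ u => by
        simp only [Geo.core, Geo.ln, Prod.mk.injEq] at u
        simp only [u.1.1.1.2.1]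
    rw [mi_chain, mi_symm (fun v : W n × W n => (s n).S v.1) fun v => (s n).S v.2] at e4
    linarith
  exact ⟨fun n => ⟨_, Q n, Prod.fst⟩, fun n => (s n).pull Prod.snd, fun n => (s n).pull Prod.fst,
    ⟨d1, t1, s1, u1, u2, u3⟩, ⟨L, sL, sure.mono fun n a v hv => (a v hv).2⟩, u4⟩

end Pool.Agent.MP_5168f5_an.R4
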