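import Pool.Agent.MP_5168f5_an.R4.SpecE3

/-! The two last coordinates can be exchanged in the extension step. -/

namespace Pool.Agent.MP_5168f5_an.R4

open H19 H17S H17F Matrix Filter

namespace ESwpA

/-- The exchange of the two last coordinates. -/
def sg : Fin 3 → Fin 3 := ![0, 2, 1]

/-- The exchange on the four affine coordinates. -/
def s4 : Fin 4 → Fin 4 := ![0, 1, 3, 2]

/-- The exchange on the homogeneous coordinates. -/
def s5 : Fin 5 → Fin 5 := ![0, 1, 2, 4, 3]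

theorem sg_sg (i : Fin 3) : sg (sg i) = i := by fin_cases i <;> rfl

theorem sg_co (k : Bool) : sg (co k) = co (!k) := by cases k <;> rfl

theorem comp_inj {α : Type} {x y : Fin 3 → α} : x ∘ sg = y ∘ sg ↔ x = y :=
  ⟨fun h => funext fun i => by simpa only [Function.comp, sg_sg] using congrFun h (sg i),
    fun h => h ▸ rfl⟩

/-- The quadric in the new coordinates. -/
def tq (A : Qd) : Qd := A.submatrix s5 s5

theorem bl_tq (A : Qd) (Y U : V 5) : Y ⬝ᵥ tq A *ᵥ U = (Y ∘ s5) ⬝ᵥ A *ᵥ (U ∘ s5) := by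
  simp [tq, dotProduct, mulVec, Fin.sum_univ_five, s5]
  ring

theorem qf_tq (A : Qd) (Y : V 5) : qf (tq A) Y = qf A (Y ∘ s5) := bl_tq A Y Y

theorem pf_tq (A : Qd) (Y U : V 5) : pf (tq A) Y U = pf A (Y ∘ s5) (U ∘ s5) := by
  simp only [pf, bl_tq]

theorem bv_succ (i : Fin 4) : bv i.succ ∘ s5 = bv (s4 i).succ := by
  funext k; fin_cases i <;> fin_cases k <;> simp [bv, s4, s5]

theorem bv3 : bv 3 ∘ s5 = bv 4 := bv_succ 2

theorem bv4 : bv 4 ∘ s5 = bv 3 := bv_succ 3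

theorem hom_s5 (t : ℝ) (y : V 3) : hom t y ∘ s5 = hom t (y ∘ sg) := by
  funext k; fin_cases k <;> rfl

theorem hom_sg (t : ℝ) (y : V 3) : hom t (y ∘ sg) ∘ s5 = hom t y := by
  funext k; fin_cases k <;> rfl

/-- Two functions with the same fibres. -/
def Kq {Ω α β : Type} (F : Ω → α) (G : Ω → β) : Prop := ∀ a b, F a = F b ↔ G a = G b

section Kq

variable {Ω α α' β β' γ γ' : Type} {P : FP Ω} {F : Ω → α} {F' : Ω → α'} {G : Ω → β}
  {G' : Ω → β'} {K : Ω → γ} {K' : Ω → γ'}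

theorem Kq.rfl (F : Ω → α) : Kq F F := fun _ _ => Iff.rfl

theorem Kq.pair (h : Kq F F') (k : Kq G G') : Kq (fun ω => (F ω, G ω)) fun ω => (F' ω, G' ω) :=
  fun a b => by simp only [Prod.mk.injEq, h a b, k a b]

theorem Kq.fn (h : Kq F F') : Fn P F' F := fun a _ b _ => (h a b).1

theorem Kq.fn' (h : Kq F F') : Fn P F F' := fun a _ b _ => (h a b).2

theorem Kq.ch (h : Kq F F') (k : Kq G G') : ch P F G = ch P F' G' :=
  ch_congr (h.fn'.left _) (h.fn.left _) k.fn' k.fn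

theorem Kq.mi (h : Kq F F') (k : Kq G G') (l : Kq K K') : mi P F G K = mi P F' G' K' := by
  unfold H17F.mi
  rw [h.ch l, h.ch (k.pair l)]

theorem kq_sg {α : Type} (x : Ω → Fin 3 → α) : Kq (fun ω => x ω ∘ sg) x := fun _ _ => comp_inj

end Kq

section One

variable {W : Type} (g : Geo 3 W)

/-- The system in the new coordinates. -/
abbrev sw : Geo 3 W := ⟨g.T, g.Y, fun ω => g.a ω ∘ sg, fun ω => g.e ω ∘ sg, g.z, g.θ, g.y⟩

/-- The label in the new coordinates. -/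
abbrev sl (s : Lq W) : Lq W := ⟨s.Λ, s.S, fun v => tq (s.A v), fun k => s.d (!k)⟩

theorem lt_sw (t : ℝ) (v : W) : (sw g).lt t v = g.lt t v ∘ sg := rfl

theorem pt_sw (v : W) : (sw g).pt v = g.pt v ∘ sg := rfl

theorem kq_ln : Kq (sw g).ln g.ln := (kq_sg g.a).pair ((kq_sg g.e).pair (Kq.rfl g.θ))

theorem kq_core : Kq (sw g).core g.core := (kq_ln g).pair (Kq.rfl fun ω => (g.z ω, g.y ω))

theorem kq_win (j : ℕ) : Kq ((sw g).win j) (g.win j) :=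
  (kq_ln g).pair (Kq.rfl fun ω => fl1 j (g.z ω))

theorem kq_fl (j : ℕ) : Kq (fun v => fl j ((sw g).pt v)) fun v => fl j (g.pt v) :=
  kq_sg fun v => fl j (g.pt v)

theorem kq_fp (p : ℕ) : Kq ((sw g).fp fun _ => p) (g.fp fun _ => p) :=
  (kq_fl g p).pair (Kq.rfl fun ω => (g.z ω, g.θ ω))

theorem kq_wc (j : ℕ) : Kq ((sw g).wc j fun _ => ()) (g.wc j fun _ => ()) :=
  (Kq.rfl fun _ => ()).pair ((Kq.rfl g.θ).pair ((Kq.rfl fun ω => fl1 j (g.z ω)).pair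
    (kq_sg fun ω => fl j (g.lt (g.z0 j ω) ω))))

theorem hk_sw {Λ : Type} (P : FP W) (j : ℕ) (lam : W → Λ) :
    (sw g).hk P j lam = g.hk P j lam := (Kq.rfl lam).mi (kq_core g) (kq_win g j)

theorem lk_sw {Λ : Type} (P : FP W) (lam : W → Λ) : (sw g).lk P lam = g.lk P lam :=
  (Kq.rfl lam).mi (kq_core g) (Kq.rfl g.y)

variable {g}

theorem bx_sw {P : FP W} {L : ℝ} (h : g.Bx P L) : (sw g).Bx P L :=
  ⟨fun ω hω => ⟨fun i => (h.bd ω hω).1 (sg i), (h.bd ω hω).2⟩, h.fz, h.fθ⟩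

theorem qd_sw {L : ℝ} {A : Qd} {v : W} {c p : ℕ} (h : g.qd.fit L A v c p) :
    (sw g).qd.fit L (tq A) v c p := by
  obtain ⟨h1, h2, h3⟩ := h
  refine ⟨fun i k => ?_, ?_, fun t ht => ?_⟩
  · rw [pf_tq, bv_succ, bv_succ]; exact h1 _ _
  · rw [pf_tq, pf_tq, pt_sw, hom_sg, bv3, bv4]; exact h2.symm
  · rw [qf_tq, lt_sw, hom_sg]
    refine ⟨(h3 t ht).1, fun i => ?_⟩
    rw [pf_tq, hom_sg, bv_succ]; exact (h3 t ht).2 _

theorem pl_sw {L : ℝ} {d : Pd} {v : W} {c m : ℕ} {k : Bool}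
    (h : (g.pl {0} (co (!k))).fit L d v c m) : ((sw g).pl {0} (co k)).fit L d v c m := by
  obtain ⟨h1, h2, h3⟩ := h
  refine ⟨h1, h2, fun t ht => ?_⟩
  have e := h3 t ht
  have e1 : d.2.2 1 = 0 := (h2 1).2 (by decide)
  have e2 : d.2.2 2 = 0 := (h2 2).2 (by decide)
  rw [lt_sw]
  simp only [Fin.sum_univ_three, e1, e2, zero_mul, Function.comp, sg_co] at e ⊢
  exact e

theorem eh_sw {P : FP W} {s : Lq W} {j c m p : ℕ} {e : ℝ} (h : EH g P s j c m p true e) :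
    EH (sw g) P (sl s) j c m p false e := by
  obtain ⟨L, a, b, f, w⟩ := h.alg
  refine ⟨h.le, ⟨L, a, b, fun x hx y hy e => ?_, fun v hv =>
    ⟨qd_sw (w v hv).1, fun k => pl_sw ((w v hv).2 (!k))⟩⟩, (hk_sw g ..).trans_le h.hk,
    (lk_sw g ..).trans_le h.lk, h.hgt, h.fx, h.fu⟩
  have e1 := f x hx y hy e
  simp only [Lq.dat, Prod.mk.injEq] at e1 ⊢
  exact ⟨congrArg tq e1.1, e1.2.2.1, e1.2.1, (kq_wc g j x y).2 e1.2.2.2⟩

theorem pi_sw {P : FP W} {C B : ℝ} {j R p : ℕ} (h : (sw g).Pi P C B j R p) :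
    g.Pi P C B j R p := by
  obtain ⟨W', Λ, Q, ρ, lam, A, τ, a, b, c, d, e, f, w⟩ := h
  refine ⟨W', Λ, Q, ρ, lam, fun v => tq (A v), τ, a, (hk_sw (g.pull ρ) ..).symm.trans_le b,
    (lk_sw (g.pull ρ) ..).symm.trans_le c, (Fn.comp tq A).trans d, e, f, fun v hv => ?_⟩
  have e1 : g.hp (ρ v) ∘ s5 = (sw g).hp (ρ v) := hom_s5 _ _
  have e2 : gy (tq (A v)) (g.hp (ρ v)) = gy (A v) ((sw g).hp (ρ v)) := by
    rw [gy, gy, pf_tq, pf_tq, bv3, bv4, e1, max_comm]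
  rw [e2, qf_tq, e1]
  refine ⟨(w v hv).1, (w v hv).2.1, (w v hv).2.2.1, fun i k => ?_⟩
  rw [pf_tq, bv_succ, bv_succ]; exact (w v hv).2.2.2 _ _

end One

theorem eb_sw {W : ℕ → Type} {P : ∀ n, FP (W n)} {g : Gs 3 W} {R j m p : ℕ → ℕ} {η e₀ : ℝ}
    {B : ℕ → ℝ} (h : EB P g R j m p η e₀ B) : EB P (fun n => sw (g n)) R j m p η e₀ B := by
  refine ⟨⟨h.cls.cl0, h.cls.pos, fun X hX => ?_, fun X hX => h.cls.br X hX⟩, h.pos, h.sub, h.le,
    h.fy.mono fun n a => ⟨a.1.trans (kq_fp (g n) _).fn, (kq_fp (g n) _).fn'.trans a.2⟩, h.hB,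
    fun X a b hX hab => ?_⟩
  · obtain ⟨h1, ⟨L, h2, h3⟩, h4, h5⟩ := h.cls.bs X hX
    refine ⟨h1, ⟨L, h2, h3.mono fun n c => bx_sw c⟩, ?_, h5⟩
    refine Le.trans (Le.of_le fun n => le_of_eq ?_) h4
    exact (Kq.rfl _).mi (kq_ln (X.G g n)) (Kq.rfl _)
  · refine Le.trans (Le.of_le fun n => le_of_eq ?_) (h.ng X a b hX hab)
    exact (kq_fl (X.G g n) _).ch ((kq_fl (X.G g n) _).pair (Kq.rfl _))

end ESwpA

open ESwpA in
theorem rowESwp : ESwp := fun H _ P g R j c m p η e₀ B s h1 h2 h3 => by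
  obtain ⟨C, hC⟩ := H P (fun n => sw (g n)) R j c m p η e₀ B (fun n => sl (s n)) (eb_sw h1)
    (fun ε hε => (h2 ε hε).mono fun _ a => eh_sw a)
    (h3.mono fun n a => (lk_sw (g n) ..).trans_le a)
  exact ⟨C, hC.mono fun _ a => pi_sw a⟩

end Pool.Agent.MP_5168f5_an.R4
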