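import Pool.Agent.MP_5168f5_an.R4.EAll0
import Pool.Agent.MP_5168f5_an.R4.EGlue
import Pool.Agent.MP_5168f5_an.R4.NNLof
import Pool.Agent.MP_5168f5_an.R4.NNormQ
import Pool.Agent.MP_5168f5_an.R4.NPosC
import Pool.Agent.MP_5168f5_an.R4.NWinFit
import Pool.Agent.MP_5168f5_an.R4.NWinQ
import Pool.Agent.MP_5168f5_an.R4.NWinT
import Pool.Agent.MP_5168f5_an.R4.EFin
import Pool.Agent.MP_5168f5_an.R4.EDnA
import Pool.Agent.MP_5168f5_an.R4.ELatA
import Pool.Agent.MP_5168f5_an.R4.ERG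
import Pool.Agent.MP_5168f5_an.R4.EPrep
import Pool.Agent.MP_5168f5_an.R4.EShare
import Pool.Agent.MP_5168f5_an.R4.ESwp
import Pool.Agent.MP_5168f5_an.R4.ELm
import Pool.Agent.MP_5168f5_an.R4.EFix
import Pool.Agent.MP_5168f5_an.R4.EIni
import Pool.Agent.MP_5168f5_an.R4.ECnt
import Pool.Agent.MP_5168f5_an.R4.EPl
import Pool.Agent.MP_5168f5_an.R4.EFrame
import Pool.Agent.MP_5168f5_an.R4.ENg
import Pool.Agent.MP_5168f5_an.R4.ESd
import Pool.Agent.MP_5168f5_an.R4.ESh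
import Pool.Agent.MP_5168f5_an.R4.EShB
import Pool.Agent.MP_5168f5_an.R4.ELatF
import Pool.Agent.MP_5168f5_an.R4.ELatI
import Pool.Agent.MP_5168f5_an.R4.ELatU
import Pool.Agent.MP_5168f5_an.R4.EPair
import Pool.Agent.MP_5168f5_an.R4.ESepD
import Pool.Agent.MP_5168f5_an.R4.ELemA
import Pool.Agent.MP_5168f5_an.R4.ENum
import Pool.Agent.MP_5168f5_an.R4.EPlane
import Pool.Agent.MP_5168f5_an.R4.ERmz
import Pool.Agent.MP_5168f5_an.R4.EPar
import Pool.Agent.MP_5168f5_an.R4.EShp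

/-! The extension step for quadrics. -/

namespace Pool.Agent.MP_5168f5_an.R4

theorem eWinQ : WinQ := rowWinQ (rowWinT rowWinFit)

theorem eSd : ESd := rowESd rowECnt

theorem eDnA : EDnA := rowEDnA eDn

theorem ext1_false : Ext1 false :=
  ext1F (rowEIni rowERmz eDnA) (rowEShare eSd (rowEPair eWinQ) (rowEShB rowECnt rowESh))
    (rowEFrame eSd rowESepD rowEPl) rowEPlane (rowEPrep eSd eDnA rowEShp)
    (rowEFin eAgree eRound (rowELm eSd rowELatA rowELatF rowELatI (rowELatU rowECnt)) rowERG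
      rowENum)

theorem ext1 : ∀ b, Ext1 b
  | false => ext1_false
  | true => rowESwp ext1_false

theorem extF' (hP : PR) (hF : FB) : ExtF :=
  extF_of (rowEFix hP hF) (rowELemA hP (rowNLof kb sep) (rowNormQ rowPosC eWinQ kb)) rowENg rowEPar
    ext1 hP

theorem extF : PR → FB → FBU → XAU → Spr → KQ → ExtF := fun hP hF _ _ _ _ => extF' hP hF

end Pool.Agent.MP_5168f5_an.R4
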