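import Pool.Agent.MP_5168f5_an.R4.ECor1

/-! Curves that cross transversally fill the fibre. -/

namespace Pool.Agent.MP_5168f5_an.R4

open H19 H17S H17F Finset

namespace ECorA

variable {Ω α β Θ : Type} (P : FP Ω)

theorem ch_eq (F : Ω → α) (G : Ω → β) :
    ch P F G = P.E fun ω => -Real.log (ms (cv P G (G ω)) F (F ω)) :=
  (ke.ent1 P G fun _ => F).trans
    (ke.exp P G fun t x => -Real.log (ms (cv P G t) F (F x))).symm

/-- Markov inequality for a logarithmic density. -/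
theorem mark (θ : Ω → Θ) (X : Θ → Ω → ℝ) {d : ℝ} (hd : 0 ≤ d) (h0 : ∀ ω ∈ P.S, 0 < X (θ ω) ω)
    (h1 : ∀ ω ∈ P.S, (cv P θ (θ ω)).E (fun x => (X (θ ω) x)⁻¹) ≤ 1)
    (h2 : P.E (fun ω => Real.log (X (θ ω) ω)) ≤ d) :
    pb P (fun ω => ¬X (θ ω) ω ≤ Real.exp (50 * (d + 1))) ≤ 1 / 50 := by
  have h3 := ((ke.exp P θ fun t x => (X t x)⁻¹).trans_le (P.E_mono h1)).trans_eq (P.E_const 1)
  refine le_of_mul_le_mul_left ?_ (by linarith : 0 < 50 * (d + 1))
  rw [pb, ← FP.E_mul]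
  refine (P.E_mono (G := fun ω => Real.log (X (θ ω) ω) + (X (θ ω) ω)⁻¹) fun ω hω => ?_).trans ?_
  · have := Real.one_sub_inv_le_log_of_pos (h0 ω hω)
    have := inv_pos.2 (h0 ω hω)
    split_ifs with c
    · linarith
    · linarith [(Real.lt_log_iff_exp_lt (h0 ω hω)).2 (not_le.1 c)]
  · rw [FP.E_add]
    linarith

theorem mem_cv {θ : Ω → Θ} {ω x : Ω} (h : ω ∈ P.S) :
    x ∈ (cv P θ (θ ω)).S ↔ x ∈ P.S ∧ θ x = θ ω :=
  mem_cE (E := fun x => θ x = θ ω) ⟨ω, h, rfl⟩ x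

theorem ms_pos (θ : Ω → Θ) (f : Ω → α) {ω : Ω} (h : ω ∈ P.S) :
    0 < ms (cv P θ (θ ω)) f (f ω) := pb_pos _ ⟨ω, (mem_cv P h).2 ⟨h, rfl⟩, rfl⟩

theorem mark1 (θ : Ω → Θ) (f : Ω → α) {N : Ω → ℝ} {d : ℝ} (hd : 0 ≤ d) (fN : Fn P N θ)
    (h0 : ∀ ω ∈ P.S, 0 < N ω)
    (h1 : ∀ ω ∈ P.S, ∃ F : Finset α, (F.card : ℝ) ≤ N ω ∧ ∀ x ∈ P.S, θ x = θ ω → f x ∈ F)
    (h2 : P.E (fun ω => Real.log (N ω)) - d ≤ ch P f θ) :
    pb P (fun ω => ¬N ω * ms (cv P θ (θ ω)) f (f ω) ≤ Real.exp (50 * (d + 1))) ≤ 1 / 50 := by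
  refine mark P θ (fun t x => N x * ms (cv P θ t) f (f x)) hd
    (fun ω hω => mul_pos (h0 ω hω) (ms_pos P θ f hω)) (fun ω hω => ?_) ?_
  · obtain ⟨F, a, b⟩ := h1 ω hω
    refine le_of_eq_of_le (FP.E_congr _ fun x hx => ?_) (inv_le (cv P θ (θ ω)) f
      (fun x hx => b x ((mem_cv P hω).1 hx).1 ((mem_cv P hω).1 hx).2) (h0 ω hω) a)
    rw [fN x ((mem_cv P hω).1 hx).1 ω hω ((mem_cv P hω).1 hx).2]
  · rw [ch_eq, FP.E_neg] at h2
    rw [P.E_congr fun ω hω => Real.log_mul (h0 ω hω).ne' (ms_pos P θ f hω).ne', FP.E_add]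
    linarith

theorem mark2 (θ : Ω → Θ) (f : Ω → α) (g : Ω → β) {d : ℝ} (hd : 0 ≤ d) (h : mi P f g θ ≤ d) :
    pb P (fun ω => ¬ms (cv P θ (θ ω)) (fun x => (f x, g x)) (f ω, g ω) /
      (ms (cv P θ (θ ω)) f (f ω) * ms (cv P θ (θ ω)) g (g ω)) ≤ Real.exp (50 * (d + 1))) ≤
      1 / 50 := by
  have p := fun ω hω => ms_pos P θ (fun x => (f x, g x)) (ω := ω) hω
  refine mark P θ (fun t x => ms (cv P θ t) (fun x => (f x, g x)) (f x, g x) /
      (ms (cv P θ t) f (f x) * ms (cv P θ t) g (g x))) hd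
    (fun ω hω => div_pos (p ω hω) (mul_pos (ms_pos P θ f hω) (ms_pos P θ g hω)))
    (fun ω _ => ?_) ?_
  · have := indep (cv P θ (θ ω)) f g (Ψ := fun _ _ => 1) fun _ _ => zero_le_one
    simpa only [one_mul, FP.E_const] using this
  · have h1 := ch_chain (P := P) f g θ
    rw [mi_symm, mi, ch_eq P g θ, FP.E_neg] at h
    rw [ch_eq P f θ, ch_eq P _ θ, FP.E_neg, FP.E_neg] at h1
    rw [P.E_congr fun ω hω => (Real.log_div (p ω hω).ne'
      (mul_pos (ms_pos P θ f hω) (ms_pos P θ g hω)).ne').trans (congrArg _ (Real.log_mul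
        (ms_pos P θ f hω).ne' (ms_pos P θ g hω).ne')), FP.E_sub, FP.E_add]
    linarith

open Classical in
/-- Restriction to the fibres where the event is dense, and Jensen's inequality. -/
theorem jen (y : Ω → β) (v : Ω → α) (E : Ω → Prop) (hE : 3 / 4 ≤ pb P E) {c : ℝ} (hc : 0 < c)
    (h : P.E (fun ω => if E ω then pb (cv P y (y ω)) (fun x => E x ∧ v x = v ω) else 0) ≤ c / 8) :
    ∃ E' : Ω → Prop, (∀ ω, E' ω → E ω) ∧ 1 / 4 ≤ pb P E' ∧ -Real.log c ≤ ch (cE P E') v y := by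
  have h1 : pb P (fun ω => E ω ∧ ¬1 / 4 ≤ pb (cv P y (y ω)) E) ≤ 1 / 4 := by
    refine le_of_eq_of_le ((P.E_congr fun _ _ => by congr).trans (ke.exp P y fun t x =>
      if E x ∧ ¬1 / 4 ≤ pb (cv P y t) E then 1 else 0))
      ((P.E_mono fun ω _ => ?_).trans_eq (P.E_const _))
    by_cases e : 1 / 4 ≤ pb (cv P y (y ω)) E
    · simp only [e, not_true, and_false, if_false, FP.E_const]
      norm_num
    · refine le_trans (le_of_eq (FP.E_congr _ fun x _ => ?_)) (not_le.1 e).le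
      simp only [e, not_false_iff, and_true]
  have h2 := pb_split P E fun ω => 1 / 4 ≤ pb (cv P y (y ω)) E
  refine ⟨fun ω => E ω ∧ 1 / 4 ≤ pb (cv P y (y ω)) E, fun _ e => e.1, by linarith, ?_⟩
  generalize hF : (fun ω => E ω ∧ 1 / 4 ≤ pb (cv P y (y ω)) E) = F at h2 ⊢
  have hF' : ∀ ω, F ω ↔ E ω ∧ 1 / 4 ≤ pb (cv P y (y ω)) E := fun ω => hF ▸ Iff.rfl
  have h3 : 1 / 2 ≤ pb P F := by linarith
  have ex := ex_of_pb (P := P) (E := F) (by linarith)
  have h4 : ∀ ω ∈ P.S, F ω → ms (cv (cE P F) y (y ω)) v (v ω) ≤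
      4 * pb (cv P y (y ω)) fun x => E x ∧ v x = v ω := fun ω hω e => by
    have k : cv (cE P F) y (y ω) = cE (cv P y (y ω)) E := by
      rw [cv, cv, cE_cE ⟨ω, hω, e, by rfl⟩, cE_cE ⟨ω, hω, by rfl, ((hF' ω).1 e).1⟩]
      refine cE_congr fun x _ => ⟨fun b => ⟨b.2, ((hF' x).1 b.1).1⟩,
        fun b => ⟨(hF' x).2 ⟨b.2, ?_⟩, b.1⟩⟩
      rw [b.1]
      exact ((hF' ω).1 e).2
    rw [k, ← pb_cE]
    nlinarith [((hF' ω).1 e).2, pb_nonneg (cE (cv P y (y ω)) E) fun x => v x = v ω]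
  have h5 : pb P F * (cE P F).E (fun ω => ms (cv (cE P F) y (y ω)) v (v ω)) ≤ c / 2 := by
    rw [E_cE]
    refine le_trans ?_ ((mul_le_mul_of_nonneg_left h (by norm_num : (0 : ℝ) ≤ 4)).trans_eq
      (by ring))
    rw [← FP.E_mul]
    refine P.E_mono fun ω hω => ?_
    split_ifs with e1 e2 e2
    exacts [h4 ω hω e1, (e2 ((hF' ω).1 e1).1).elim, mul_nonneg (by norm_num) (pb_nonneg _ _),
      (mul_zero _).ge]
  have h6 : (cE P F).E (fun ω => ms (cv (cE P F) y (y ω)) v (v ω)) ≤ c := by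
    nlinarith [(cE P F).E_nonneg (F := fun ω => ms (cv (cE P F) y (y ω)) v (v ω))
      fun _ _ => pb_nonneg _ _]
  rw [ch_eq]
  refine le_trans ?_ (FP.E_mono _ (F := fun ω => 1 - Real.log c -
    c⁻¹ * ms (cv (cE P F) y (y ω)) v (v ω)) fun ω hω => ?_)
  · rw [FP.E_sub, FP.E_mul, FP.E_const]
    linarith [(inv_mul_le_one₀ hc).2 h6]
  · have := Real.log_le_sub_one_of_pos (mul_pos (inv_pos.2 hc) (ms_pos _ y v hω))
    rw [Real.log_mul (inv_pos.2 hc).ne' (ms_pos _ y v hω).ne', Real.log_inv] at this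
    linarith

end ECorA

open ECorA in
theorem rowECor : ECor := by
  classical
  intro Ω Θ Γ S U P θ γ σ v a T G Ns Na B d n1 n2 hd hG fa fT fN hN da dT ea eT es co
  have m1 := mark1 P θ a (N := fun _ => Na) hd (fun _ _ _ _ _ => rfl) (fun _ _ => by linarith) da
    (by rwa [FP.E_const])
  have m2 := mark1 P θ T hd fN (fun ω hω => by linarith [hN ω hω]) dT eT
  have m3 := mark2 P θ σ γ hd es
  have K1 : 1 ≤ Real.exp (50 * (d + 1)) := Real.one_le_exp (by linarith)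
  have K4 : Real.exp (50 * (d + 1)) ^ 4 = Real.exp (200 * (d + 1)) := by
    rw [← Real.exp_nat_mul]
    congr 1
    push_cast
    ring
  generalize Real.exp (50 * (d + 1)) = K at m1 m2 m3 K1 K4
  obtain ⟨E, hE⟩ : ∃ E : Ω → Prop, ∀ ω, E ω ↔ G ω ∧ Na * ms (cv P θ (θ ω)) a (a ω) ≤ K ∧
      Ns ω * ms (cv P θ (θ ω)) T (T ω) ≤ K ∧ ms (cv P θ (θ ω)) (fun x => (σ x, γ x)) (σ ω, γ ω) /
        (ms (cv P θ (θ ω)) σ (σ ω) * ms (cv P θ (θ ω)) γ (γ ω)) ≤ K := ⟨_, fun _ => Iff.rfl⟩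
  have l0 := Real.log_nonneg n1
  have c0 : 0 < 100 * B * (1 + Real.log Na) := by positivity
  have p1 : 3 / 4 ≤ pb P E := by
    have := (pb_mono (P := P) (E := fun ω => ¬E ω) fun ω _ e =>
      (not_and_or.1 (mt (hE ω).2 e)).imp_right fun e => (not_and_or.1 e).imp_right
        not_and_or.1).trans ((pb_or _ _ _).trans (add_le_add le_rfl
        ((pb_or _ _ _).trans (add_le_add m1 ((pb_or _ _ _).trans (add_le_add m2 m3))))))
    rw [pb_not, pb_not] at this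
    linarith
  obtain ⟨E', e1, e2, e3⟩ := jen P (fun ω => (σ ω, θ ω)) v E p1
    (c := K ^ 4 * (100 * B * (1 + Real.log Na)) / Na) (by positivity) (by
      refine le_of_eq_of_le ((P.E_congr fun ω hω => ?_).trans (ke.exp P θ fun t x => if E x then
        pb (cv (cv P θ t) σ (σ x)) (fun y => E y ∧ v y = v x) else 0))
        ((P.E_mono fun ω hω => ?_).trans_eq (P.E_const _))
      · rw [cv, cv, cv, cE_cE ⟨ω, hω, by rfl, by rfl⟩,
          cE_congr (E := fun x => (σ x, θ x) = (σ ω, θ ω)) fun x _ => Prod.mk_inj.trans and_comm]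
      · obtain ⟨A, a1, a2⟩ := da ω hω
        have m := fun x hx => (mem_cv P (θ := θ) (x := x) hω).1 hx
        have k := fun x hx (e : E x) => (m x hx).2 ▸ (hE x).1 e
        refine (Hy.main (γ := γ) (a := a) (T := T) (Ns := Ns ω) (B := B) (K := K) (A := A)
          ⟨⟨n1, hN ω hω, n2, K1⟩, fun x hx y hy e => fa x (m x hx).1 y (m y hy).1
            (Prod.ext e ((m x hx).2.trans (m y hy).2.symm)), fun x hx y hy e => fT x (m x hx).1 y
            (m y hy).1 (Prod.ext e ((m x hx).2.trans (m y hy).2.symm)),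
            ⟨a1, fun x hx => a2 x (m x hx).1 (m x hx).2⟩, fun x hx e => (k x hx e).2.1,
            fun x hx e => fN x (m x hx).1 ω hω (m x hx).2 ▸ (k x hx e).2.2.1,
            fun x hx e => (k x hx e).2.2.2,
            fun x hx x' hx' y hy y' hy' f1 f2 f3 f4 => fN x (m x hx).1 ω hω (m x hx).2 ▸
              co x (m x hx).1 x' (m x' hx').1 y (m y hy).1 y' (m y' hy').1 (k x hx f1).1
                (k x' hx' f2).1 (k y hy f3).1 (k y' hy' f4).1
                ((m x' hx').2.trans (m x hx).2.symm) ((m y hy).2.trans (m x hx).2.symm)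
                ((m y' hy').2.trans (m x hx).2.symm)⟩).trans ?_
        rw [div_right_comm]
        refine div_le_div_of_nonneg_right ?_ (by linarith)
        nlinarith [mul_pos c0 (by positivity : 0 < K ^ 4)])
  refine ⟨E', fun ω e => ((hE ω).1 (e1 ω e)).1, e2, le_of_eq_of_le ?_ e3⟩
  rw [K4, Real.log_div (by positivity) (by positivity), Real.log_mul (by positivity) c0.ne',
    Real.log_exp]
  ring

end Pool.Agent.MP_5168f5_an.R4
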