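import Pool.Agent.MP_5168f5_an.R4.SpecE2

/-! Curves with full feet and full parameter that cross transversally fill a window. -/

namespace Pool.Agent.MP_5168f5_an.R4

open H19 H17S H17F Filter

namespace ECorAA

theorem quot (t : ℤ) (u : ℕ) : t / 2 ^ u * 2 ^ u ≤ t ∧ t < t / 2 ^ u * 2 ^ u + 2 ^ u := by
  have hp : (0 : ℤ) < 2 ^ u := by positivity
  exact ⟨Int.ediv_mul_le t hp.ne', by linarith [Int.lt_ediv_add_one_mul_self t hp]⟩

theorem near (t t' : ℤ) (u : ℕ) :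
    |((t / 2 ^ u : ℤ) : ℝ) - (t' / 2 ^ u : ℤ)| * 2 ^ u ≤ |(t : ℝ) - t'| + 2 ^ u ∧
      (t / 2 ^ u = t' / 2 ^ u → |(t : ℝ) - t'| ≤ 2 ^ u) := by
  have h1 : ((t / 2 ^ u : ℤ) : ℝ) * 2 ^ u ≤ t ∧ (t : ℝ) < (t / 2 ^ u : ℤ) * 2 ^ u + 2 ^ u := by
    exact_mod_cast quot t u
  have h2 : ((t' / 2 ^ u : ℤ) : ℝ) * 2 ^ u ≤ t' ∧ (t' : ℝ) < (t' / 2 ^ u : ℤ) * 2 ^ u + 2 ^ u := by
    exact_mod_cast quot t' u
  refine ⟨?_, fun e => ?_⟩
  · rw [← abs_of_pos (show (0 : ℝ) < 2 ^ u by positivity), ← abs_mul,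
      abs_of_pos (show (0 : ℝ) < 2 ^ u by positivity), sub_mul, abs_le]
    constructor <;> linarith [le_abs_self ((t : ℝ) - t'), neg_abs_le ((t : ℝ) - t'), h1.1, h2.1]
  · rw [e] at h1
    rw [abs_le]
    constructor <;> linarith [h1.1, h2.1]

/-- The integers with a given quotient. -/
theorem cell (q : ℤ) (u : ℕ) :
    ∃ F : Finset ℤ, (F.card : ℝ) ≤ 2 ^ u ∧ ∀ t : ℤ, t / 2 ^ u = q → t ∈ F := by
  refine ⟨Finset.Ico (q * 2 ^ u) (q * 2 ^ u + 2 ^ u), ?_, fun t e =>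
    Finset.mem_Ico.2 (e ▸ quot t u)⟩
  have h : ((Finset.Ico (q * 2 ^ u) (q * 2 ^ u + 2 ^ u)).card : ℤ) = 2 ^ u := by
    rw [Int.card_Ico_of_le _ _ (le_add_of_nonneg_right (by positivity))]; ring
  exact le_of_eq (by exact_mod_cast h)

/-- The integers near a given one. -/
theorem ball (q : ℤ) (u : ℕ) :
    ∃ F : Finset ℤ, (F.card : ℝ) ≤ 3 * 2 ^ u ∧ ∀ t : ℤ, |(t : ℝ) - q| ≤ 2 ^ u → t ∈ F := by
  refine ⟨Finset.Icc (q - 2 ^ u) (q + 2 ^ u), ?_, fun t e => ?_⟩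
  · have h0 : (1 : ℤ) ≤ 2 ^ u := one_le_pow₀ one_le_two
    have h : ((Finset.Icc (q - 2 ^ u) (q + 2 ^ u)).card : ℤ) ≤ 3 * 2 ^ u := by
      rw [Int.card_Icc_of_le _ _ (by linarith)]; linarith
    exact_mod_cast h
  · have h : |t - q| ≤ 2 ^ u := by exact_mod_cast e
    rw [abs_le] at h
    exact Finset.mem_Icc.2 ⟨by linarith, by linarith⟩

theorem ev_choose {A : ℕ → Type} {p q : ∀ n, A n → Prop} (h0 : ∀ n, ∃ a, p n a)
    (h : ∀ᶠ n in UF, ∃ a, p n a ∧ q n a) :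
    ∃ a : ∀ n, A n, (∀ n, p n (a n)) ∧ ∀ᶠ n in UF, q n (a n) := by
  have h1 : ∀ n, ∃ a, p n a ∧ ((∃ a, p n a ∧ q n a) → q n a) := fun n => by
    by_cases k : ∃ a, p n a ∧ q n a
    · obtain ⟨a, h1, h2⟩ := k
      exact ⟨a, h1, fun _ => h2⟩
    · obtain ⟨a, h1⟩ := h0 n
      exact ⟨a, h1, fun k' => absurd k' k⟩
  choose a h1 h2 using h1
  exact ⟨a, h1, h.mono h2⟩

theorem sm_max {M : ℕ → ℕ} {f g : ℕ → ℝ} (h : Le M f g) : Sm M fun n => max 0 (f n - g n) :=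
  fun ε hε => (h ε hε).mono fun n k => max_le (by positivity) (by linarith)

/-- The finite statement. -/
theorem fin (hC : ECor) (hW : EWin) (hS : ESpa) {Ω Γ₁ Γ₂ S Th U : Type} (P : FP Ω) (T : Ω → ℤ)
    (G₁ : Ω → Γ₁) (G₂ : Ω → Γ₂) (σ : Ω → S) (θ : Ω → Th) (ι : Ω → ℕ) (w : ℕ → ℕ) (v : Ω × Ω → U)
    (k r s I : ℕ) (L B d : ℝ) (hL : 1 ≤ L) (h1 : Fn P θ G₁) (h2 : Fn P θ G₂) (h3 : Fn P T σ)
    (hsr : s ≤ r) (hB : 1 ≤ B)
    (hb : ∀ ω ∈ P.S, |(T ω : ℝ)| ≤ L * 2 ^ k ∧ ι ω ≤ I ∧ r ≤ w (ι ω) ∧ w (ι ω) ≤ k) (hd0 : 0 ≤ d)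
    (hd1 : k * lg - ch P T G₁ + Real.log (I + 1) + Real.log (2 * L + 2) ≤ d)
    (hd2 : k * lg - ch P T G₂ + 2 * Real.log (I + 1) + Real.log (2 * L + 2) +
      mi P σ G₂ (fun ω => (T ω, θ ω)) ≤ d) (hs : 8 * (lg + d) + Real.log 3 ≤ s * lg)
    (hx : ∀ y₁ y₁' y₂ y₂' : Ω × Ω,
      (∀ y ∈ [y₁, y₁', y₂, y₂'], y ∈ (glue P P (cpy T G₂ ι w) (cpy T G₂ ι w)).S ∧ far T ι w s y ∧
        cpy T G₁ ι w y.1 = cpy T G₁ ι w y₁.1) →
      y₁'.1 = y₁.1 → y₂'.1 = y₂.1 → σ y₂.2 = σ y₁.2 → v y₂ = v y₁ → σ y₂'.2 = σ y₁'.2 →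
      v y₂' = v y₁' → |(T y₁.2 : ℝ) - T y₁'.2| * |(T y₁.1 : ℝ) - T y₂.1| * 2 ^ r ≤
        B * (2 ^ w (ι y₁.1)) ^ 2) :
    ∃ E : Ω × Ω → Prop, (∀ y, E y → far T ι w s y) ∧
      1 / 4 ≤ pb (glue P P (cpy T G₂ ι w) (cpy T G₂ ι w)) E ∧
      r * lg - 200 * (d + 1) - Real.log (100 * (B + 1) * (1 + r * lg)) ≤
        ch (cE (glue P P (cpy T G₂ ι w) (cpy T G₂ ι w)) E) v
          fun y => (σ y.2, cpy T G₁ ι w y.1) := by
  have mem := fun y => (kg.mem P P (cpy T G₂ ι w) (cpy T G₂ ι w) y (Law.rfl _)).1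
  have law := kg.fst P P (cpy T G₂ ι w) (cpy T G₂ ι w)
  have law' := kg.snd P P (cpy T G₂ ι w) (cpy T G₂ ι w) (Law.rfl _)
  have mT := kg.mk1 P P (cpy T G₂ ι w) (cpy T G₂ ι w) T id (Law.rfl _)
    fun _ _ _ _ e => congrArg _ e
  have mσ := kg.mk1 P P (cpy T G₂ ι w) (cpy T G₂ ι w) σ (fun x => (x, cpy T G₁ ι w x)) (Law.rfl _)
    fun _ _ _ _ e => congrArg _ (Prod.ext_iff.1 e).1
  generalize glue P P (cpy T G₂ ι w) (cpy T G₂ ι w) = Q at *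
  have quo : ∀ y ∈ Q.S, T y.2 / 2 ^ w (ι y.1) = T y.1 / 2 ^ w (ι y.1) := fun y hy => by
    have e := (mem y hy).2.2
    simp only [cpy, Prod.mk.injEq] at e
    rw [← e.2.2, e.2.1]
  have hI : 0 ≤ Real.log (I + 1) := Real.log_nonneg (by linarith [(Nat.cast_nonneg I : (0 : ℝ) ≤ I)])
  have hmi := mi_nonneg (P := P) σ G₂ fun ω => (T ω, θ ω)
  have eQ : (Q.E fun y => Real.log ((2 : ℝ) ^ w (ι y.1))) = P.E fun ω => w (ι ω) * lg :=
    (law fun ω => Real.log ((2 : ℝ) ^ w (ι ω))).trans (P.E_congr fun ω _ => log_two_pow _)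
  have w1 := hW P T G₁ ι (fun i => w i - r) w k I L hL
    (fun ω hω => ⟨(hb ω hω).2.1, Nat.sub_le _ _, (hb ω hω).2.2.2⟩) fun ω hω => (hb ω hω).1
  rw [P.E_congr (G := fun _ => r * lg) fun ω hω => by
    rw [Nat.cast_sub (hb ω hω).2.2.1, sub_sub_cancel], P.E_const] at w1
  have w2 := hW P T G₂ ι (fun _ => 0) w k I L hL
    (fun ω hω => ⟨(hb ω hω).2.1, Nat.zero_le _, (hb ω hω).2.2.2⟩) fun ω hω => (hb ω hω).1
  simp only [pow_zero, Int.ediv_one, Nat.cast_zero, sub_zero] at w2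
  have cT : ∀ y ∈ Q.S, ∃ F : Finset ℤ, (F.card : ℝ) ≤ 2 ^ w (ι y.1) ∧ ∀ y' ∈ Q.S,
      ι y'.1 = ι y.1 → T y'.1 / 2 ^ w (ι y'.1) = T y.1 / 2 ^ w (ι y.1) → T y'.2 ∈ F := fun y _ => by
    obtain ⟨F, c, m⟩ := cell (T y.1 / 2 ^ w (ι y.1)) (w (ι y.1))
    exact ⟨F, c, fun y' hy' e e' => m _ (by rw [← e', ← e, quo y' hy'])⟩
  have hfar : 7 / 8 ≤ pb Q (far T ι w s) := by
    have h4 := hS Q (fun y => ¬far T ι w s y) (fun y => T y.2) (fun y => y.1)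
      (fun y => 2 ^ w (ι y.1)) (s * lg - Real.log 3) (fun _ _ _ _ e => by simp only [e])
      (fun y hy => (cT y hy).imp fun F h => ⟨h.1, fun y' hy' e => h.2 y' hy' (by rw [e]) (by rw [e])⟩)
      fun y hy => by
        obtain ⟨F, c, m⟩ := ball (T y.1) (w (ι y.1) - s)
        have e0 : (2 : ℝ) ^ w (ι y.1) = 2 ^ s * 2 ^ (w (ι y.1) - s) := by
          rw [← pow_add, Nat.add_sub_cancel' (hsr.trans (hb _ (mem y hy).1).2.2.1)]
        refine ⟨F, c.trans_eq ?_, fun y' _ e h => m _ ?_⟩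
        · rw [e0, neg_sub, Real.exp_sub, Real.exp_log three_pos, ← two_pow_eq]
          field_simp
        · rw [far, not_le, e, e0] at h
          exact (lt_of_mul_lt_mul_left h (by positivity)).le
    have h5 : ch Q (fun y => T y.2) (fun y => y.1) = ch P T (cpy T G₂ ι w) := mT
    rw [h5, eQ, pb_not] at h4
    have h6 : 0 < lg + d := by linarith [lg_pos]
    by_contra h7
    nlinarith [not_le.1 h7]
  obtain ⟨E, hE⟩ := hC Q (fun y => cpy T G₁ ι w y.1) (fun y => y.1) (fun y => σ y.2) v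
    (fun y => T y.1 / 2 ^ (w (ι y.1) - r)) (fun y => T y.2) (far T ι w s) (fun y => 2 ^ w (ι y.1))
    (2 ^ r) (B + 1) d (one_le_pow₀ one_le_two) (by linarith) hd0 hfar
    (fun a _ b _ e => by simp only [show a.1 = b.1 from (Prod.ext_iff.1 e).1])
    (fun a ha b hb e => h3 _ (mem a ha).2.1 _ (mem b hb).2.1 (Prod.ext_iff.1 e).1)
    (fun _ _ _ _ e => by simp only [cpy, Prod.mk.injEq] at e; simp only [e.2.1])
    (fun y hy => pow_le_pow_right₀ one_le_two (hb _ (mem y hy).1).2.2.1)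
    (fun y hy => by
      obtain ⟨F, c, m⟩ := cell (T y.1 / 2 ^ w (ι y.1)) r
      refine ⟨F, c, fun y' hy' e => m _ ?_⟩
      simp only [cpy, Prod.mk.injEq] at e
      rw [Int.ediv_ediv_of_nonneg (by positivity), ← pow_add,
        Nat.sub_add_cancel (hb _ (mem y' hy').1).2.2.1, e.2.2])
    (fun y hy => (cT y hy).imp fun F h => ⟨h.1, fun y' hy' e => by
      simp only [cpy, Prod.mk.injEq] at e
      exact h.2 y' hy' e.2.1 e.2.2⟩)
    (by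
      rw [log_two_pow, law.ch_id (fun ω => T ω / 2 ^ (w (ι ω) - r)) (cpy T G₁ ι w)]
      linarith)
    (by
      have h4 : ch Q (fun y => T y.2) (fun y => y.1) ≤
          ch Q (fun y => T y.2) fun y => cpy T G₁ ι w y.1 := ch_anti fun _ _ _ _ e => by rw [e]
      have h5 : ch Q (fun y => T y.2) (fun y => y.1) = ch P T (cpy T G₂ ι w) := mT
      rw [eQ]
      linarith)
    (by
      have h4 : ch Q (fun y => σ y.2) (fun y => cpy T G₁ ι w y.1) ≤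
          ch Q (fun y => σ y.2) fun y => cpy T θ ι w y.2 := ch_anti fun a ha b hb e => by
        obtain ⟨a1, a2, a3⟩ := mem a ha
        obtain ⟨b1, b2, b3⟩ := mem b hb
        simp only [cpy, Prod.mk.injEq] at e a3 b3 ⊢
        exact ⟨(h2 _ a2 _ a1 a3.1).trans ((h1 _ a1 _ b1 e.1).trans (h2 _ b2 _ b1 b3.1).symm),
          a3.2.1.trans (e.2.1.trans b3.2.1.symm), a3.2.2.trans (e.2.2.trans b3.2.2.symm)⟩
      rw [law'.ch_id σ (cpy T θ ι w)] at h4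
      have h5 := ch_tri (P := P) σ T (cpy T θ ι w)
      have h6 : ch P T (cpy T θ ι w) ≤ P.E fun ω => Real.log ((2 : ℝ) ^ w (ι ω)) :=
        ch_detE _ (fun _ _ _ _ e => by simp only [cpy, Prod.mk.injEq] at e; simp only [e.2.1])
          fun a _ => (cell (T a / 2 ^ w (ι a)) (w (ι a))).imp fun F h => ⟨h.1, fun b _ e => by
            simp only [cpy, Prod.mk.injEq] at e
            exact h.2 _ (by rw [← e.2.2, e.2.1])⟩
      simp only [log_two_pow] at h6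
      have h7 : ch P σ (fun ω => (T ω, cpy T θ ι w ω)) ≤ ch P σ fun ω => (T ω, θ ω) :=
        ch_anti fun _ _ _ _ e => by
          simp only [cpy, Prod.mk.injEq] at e ⊢
          exact ⟨e.1, e.2.1⟩
      have h8 := ch_chain (P := P) T σ (cpy T G₂ ι w)
      have h9 : ch P (fun ω => (T ω, σ ω)) (cpy T G₂ ι w) ≤ ch P σ (cpy T G₂ ι w) :=
        ch_mono ((h3.pair (Fn.rfl σ)).left _)
      have h10 := ch_drop (P := P) σ ι fun ω => (G₂ ω, T ω, θ ω)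
      have h11 := ch_label (P := P) (fun ω hω => (hb ω hω).2.1) fun ω => (G₂ ω, T ω, θ ω)
      have h12 : ch P σ (fun ω => (ι ω, G₂ ω, T ω, θ ω)) ≤
          ch P σ fun ω => (T ω, cpy T G₂ ι w ω) := ch_anti fun _ _ _ _ e => by
        simp only [cpy, Prod.mk.injEq] at e ⊢
        exact ⟨e.2.2.1, e.2.1, e.1, by rw [e.2.2.1, e.1]⟩
      unfold mi at hd2 ⊢
      rw [mσ]
      linarith)
    fun y₁ m₁ y₁' m₁' y₂ m₂ y₂' m₂' f₁ f₁' f₂ f₂' t₁' t₂ t₂' e₁ e₂ e₃ e₄ e₅ e₆ => by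
      have h4 := hx y₁ y₁' y₂ y₂' (by
        simp only [List.mem_cons, List.not_mem_nil, or_false, forall_eq_or_imp, forall_eq]
        exact ⟨⟨m₁, f₁, trivial⟩, ⟨m₁', f₁', t₁'⟩, ⟨m₂, f₂, t₂⟩, m₂', f₂', t₂'⟩) e₁ e₂ e₃ e₄ e₅ e₆
      simp only [cpy, Prod.mk.injEq] at t₂
      have h5 := (near (T y₁.1) (T y₂.1) (w (ι y₁.1) - r)).1
      have h6 := (near (T y₁.2) (T y₁'.2) (w (ι y₁.1))).2 (by rw [quo _ m₁, ← e₁, quo _ m₁'])
      have e0 : (2 : ℝ) ^ w (ι y₁.1) = 2 ^ r * 2 ^ (w (ι y₁.1) - r) := by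
        rw [← pow_add, Nat.add_sub_cancel' (hb _ (mem _ m₁).1).2.2.1]
      rw [t₂.2.1]
      have p1 : (0 : ℝ) < 2 ^ r := by positivity
      have p2 : (0 : ℝ) < 2 ^ (w (ι y₁.1) - r) := by positivity
      have h7 := mul_le_mul_of_nonneg_left h5 (mul_nonneg (abs_nonneg ((T y₁.2 : ℝ) - T y₁'.2)) p1.le)
      have h8 := mul_le_mul_of_nonneg_right h6 (mul_pos p1 p2).le
      rw [e0] at h4 h8 ⊢
      refine le_of_mul_le_mul_right ?_ (mul_pos p1 p2)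
      nlinarith
  rw [log_two_pow] at hE
  exact ⟨E, hE⟩

end ECorAA

open ECorAA in
theorem rowECorA : OfECorA := by
  intro hC hW hS Ω Γ₁ Γ₂ S Th U P T G₁ G₂ σ θ ι w v R k r s I L B hR hs hL hI h g1 g2 g3 hx
  have hd : Sm R fun n => max 0 (k n * lg - ch (P n) (T n) (G₁ n)) +
      max 0 (k n * lg - ch (P n) (T n) (G₂ n)) + 2 * Real.log (I n + 1) +
      1 * Real.log (2 * L n + 3) + mi (P n) (σ n) (G₂ n) fun ω => (T n ω, θ n ω) :=
    ((((sm_max g1).add (sm_max g2)).add (hI.log.smul zero_le_two)).add (hL.log3 hR 1)).add g3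
  generalize hD : (fun n => max 0 (k n * lg - ch (P n) (T n) (G₁ n)) +
      max 0 (k n * lg - ch (P n) (T n) (G₂ n)) + 2 * Real.log (I n + 1) +
      1 * Real.log (2 * L n + 3) + mi (P n) (σ n) (G₂ n) fun ω => (T n ω, θ n ω)) = d at hd
  obtain ⟨c, hc, hs'⟩ := hs.2
  have key : ∀ᶠ n in UF, ∃ E : Ω n × Ω n → Prop, (∀ y, E y → far (T n) (ι n) (w n) (s n) y) ∧
      1 / 4 ≤ pb (glue (P n) (P n) (cpy (T n) (G₂ n) (ι n) (w n)) (cpy (T n) (G₂ n) (ι n) (w n))) E ∧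
      r n * lg - 200 * (d n + 1) - Real.log (100 * (B n + 1) * (1 + r n * lg)) ≤
        ch (cE (glue (P n) (P n) (cpy (T n) (G₂ n) (ι n) (w n)) (cpy (T n) (G₂ n) (ι n) (w n))) E)
          (v n) fun y => (σ n y.2, cpy (T n) (G₁ n) (ι n) (w n) y.1) := by
    filter_upwards [h, hx, hs', ((hd.smul (c := 8) (by norm_num)).add
      (hR.sm (8 * lg + Real.log 3))) (c * lg) (mul_pos hc lg_pos)]
      with n ⟨h1, h2, _, h3, h4, _, h5, h6⟩ h7 h8 h9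
    have e := congrFun hD n
    have l1 := Real.log_nonneg (hI.1 n)
    have l2 : Real.log (2 * L n + 2) ≤ Real.log (2 * L n + 3) :=
      Real.log_le_log (by linarith [hL.1 n]) (by linarith)
    have l3 := Real.log_nonneg (show 1 ≤ 2 * L n + 2 by linarith [hL.1 n])
    have l4 := mi_nonneg (P := P n) (σ n) (G₂ n) fun ω => (T n ω, θ n ω)
    have l5 := le_max_left 0 (k n * lg - ch (P n) (T n) (G₁ n))
    have l6 := le_max_right 0 (k n * lg - ch (P n) (T n) (G₁ n))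
    have l7 := le_max_left 0 (k n * lg - ch (P n) (T n) (G₂ n))
    have l8 := le_max_right 0 (k n * lg - ch (P n) (T n) (G₂ n))
    exact fin hC hW hS (P n) (T n) (G₁ n) (G₂ n) (σ n) (θ n) (ι n) (w n) (v n) (k n) (r n) (s n)
      (I n) (L n) (B n) (d n) (hL.1 n) h1 h2 h3 h4 h5 h6 (by linarith) (by linarith) (by linarith)
      (by nlinarith [mul_le_mul_of_nonneg_right h8 lg_pos.le]) h7
  obtain ⟨E, hE, hE'⟩ := ev_choose (fun n => ⟨fun _ => False, fun _ k => False.elim k⟩) key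
  refine ⟨E, ⟨1 / 4, by norm_num, hE'.mono fun _ k => k.1⟩, hE, ?_⟩
  refine (((hd.smul (c := 200) (by norm_num)).add (hR.sm 200)).add
    ((Sub.nat hR).const_mul hR (C := 200) (by norm_num)).log).of_sub ?_
  filter_upwards [hE', h] with n ⟨_, h1⟩ ⟨_, _, _, _, _, h2, h3, _⟩
  have r0 : (0 : ℝ) ≤ r n := Nat.cast_nonneg _
  have r1 : (r n : ℝ) ≤ R n := by exact_mod_cast h2
  have r2 := mul_nonneg r0 lg_pos.le
  have r3 : r n * lg ≤ R n := by nlinarith [lg_lt_one]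
  have h4 : Real.log (100 * (B n + 1) * (1 + r n * lg)) ≤ Real.log (B n * (200 * (R n + 1))) :=
    Real.log_le_log (by positivity) (by nlinarith)
  rw [Real.log_mul (x := B n) (by positivity) (by positivity)] at h4
  linarith

end Pool.Agent.MP_5168f5_an.R4
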