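import Pool.Agent.MP_5168f5_an.R4.ECoreV1

/-! Small jets in one direction: the entropy count. -/

namespace Pool.Agent.MP_5168f5_an.R4

open H19 H17S H17F Matrix Filter

namespace ECoreVA

theorem det_int {Ω Γ : Type} {P : FP Ω} {u : Ω → ℤ} (G : Ω → Γ) {B : ℝ} (hB : 1 ≤ B)
    (h : ∀ ω ∈ P.S, |(u ω : ℝ)| ≤ B) : Det P u G (7 * B) := fun a ha => by
  obtain ⟨T, h1, h2⟩ := det_near1 (P := P) (x := fun ω => (u ω : ℝ)) (G := G) (j := 0)
    (L := 2 * B) (by linarith) (fun a ha b hb _ => by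
      linarith [abs_sub (u a : ℝ) (u b), h a ha, h b hb, show 2 * B / 2 ^ 0 = 2 * B by simp]) a ha
  exact ⟨T, by linarith, fun b hb e => by simpa [fl1] using h2 b hb e⟩

theorem xi_eq {x : Lm} {i : Fin 4 × Fin 4} {u v : x.Ω} (h : xi x i u = xi x i v)
    (h0 : x.n u 0 = x.n v 0) : x.n u = x.n v := by
  obtain ⟨h1, h2⟩ := Prod.mk.inj h
  rw [h0, sub_left_inj] at h1 h2
  funext a
  fin_cases a
  exacts [h0, h1, h2]

theorem ful0 (x : Lm) (i : Fin 4 × Fin 4) {Λ : Type} (S : x.Ω → Λ) {B : ℝ} (hB : 1 ≤ B)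
    (h : ∀ ω ∈ x.P.S, ∀ a, |(x.n ω a : ℝ)| ≤ B) : ch x.P x.n S ≤ 2 * Real.log (7 * (4 * B)) +
      ch x.P (fun ω => x.n ω 0) fun ω => (S ω, xi x i ω) := by
  have key : ∀ (a : Fin 3) (c : Fin 4), ch x.P (fun ω => x.n ω a - (c : ℕ) * x.n ω 0) S ≤
      Real.log (7 * (4 * B)) := fun a c => ch_det (det_int S (by linarith) fun ω hω => by
    have h1 : ((c : ℕ) : ℝ) ≤ 3 := by exact_mod_cast Nat.lt_succ_iff.1 c.2
    push_cast
    refine (abs_sub _ _).trans ?_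
    rw [abs_mul, Nat.abs_cast]
    linarith [h ω hω a, mul_le_mul h1 (h ω hω 0) (abs_nonneg _) zero_le_three])
  have h1 := ch_tri (P := x.P) x.n (xi x i) S
  have h2 : ch x.P (xi x i) S ≤ _ := ch_subadd _ _ S
  have h3 : ch x.P x.n (fun ω => (xi x i ω, S ω)) ≤
      ch x.P (fun ω => x.n ω 0) fun ω => (S ω, xi x i ω) :=
    ch_le (fun a _ b _ e => xi_eq (congrArg (·.2.1) e) (congrArg (·.1) e))
      ((Fn.snd _ _).pair (Fn.fst _ _))
  linarith [key 1 i.1, key 2 i.2]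

theorem ful {x : ℕ → Lm} (i : Fin 4 × Fin 4) {Λ : ℕ → Type} {S : ∀ n, (x n).Ω → Λ n}
    {R k : ℕ → ℕ} {L : ℕ → ℝ} {E : ∀ n, (x n).Ω → Prop} (hR : Big R) (hL : Sub R L)
    (h : ∀ᶠ n in UF, ∀ ω ∈ (x n).P.S, ∀ a, |((x n).n ω a : ℝ)| ≤ L n * 2 ^ k n)
    (hS : Le R (fun n => 3 * k n * lg) fun n => ch (x n).P (x n).n (S n))
    (hE : Pos (fun n => (x n).P) E) : Le R (fun n => k n * lg) fun n =>
      ch (cE (x n).P (E n)) (fun ω => (x n).n ω 0) fun ω => (S n ω, xi (x n) i ω) := by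
  have h0 : ∀ n, 1 ≤ L n * 2 ^ k n := fun n =>
    one_le_mul_of_one_le_of_one_le (hL.1 n) (one_le_pow₀ one_le_two)
  have h1 : ∀ n, Real.log (7 * (4 * (L n * 2 ^ k n))) = Real.log (28 * L n) + k n * lg := fun n => by
    rw [← log_two_pow, ← Real.log_mul (by linarith [hL.1 n]) (by positivity)]
    congr 1
    ring
  refine (Le.of_le fun n => ?_).trans ((K31.dnS_cE hE).full hR
    (F := fun n ω => (x n).n ω 0) (G := fun n ω => (S n ω, xi (x n) i ω))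
    (N := fun n => 7 * (4 * (L n * 2 ^ k n))) (h.mono fun n h => det_int _ (by linarith [h0 n])
      fun ω hω => by linarith [h ω hω 0, h0 n]) (hS.of2
        ((hL.const_mul hR (C := 28) (by norm_num)).log.smul zero_le_three) (h.mono fun n h => ?_)))
  · linarith [h1 n, Real.log_nonneg (show 1 ≤ 28 * L n by linarith [hL.1 n])]
  · linarith [h1 n, ful0 (x n) i (S n) (h0 n) h]

theorem upper {W Γ Δ : Type} {Q : FP W} (φ D f : W → ℝ) {g : W → ℕ} {Θ : W → Γ} {C : W → Δ}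
    {L : ℝ} {a : ℕ} (b : ℕ) (hL : 0 ≤ L) (hC : Fn Q C Θ) (hg : ∀ u ∈ Q.S, g u ≤ 1)
    (h1 : ∀ u ∈ Q.S, (1 / 2 ≤ |D u| ∧ |D u| ≤ L) ∧ |φ u| ≤ 2 / 2 ^ a)
    (h2 : ∀ u ∈ Q.S, ∀ v ∈ Q.S, Θ u = Θ v → φ u - φ v = (f u - f v) * ((D u + D v) / 2)) :
    ch Q (fun u => (fl1 b (φ u), g u)) Θ ≤
      ch Q (fun u => fl1 b (f u)) (fun u => (fl1 a (f u), C u)) + Real.log (2 * L + 3) + 15 := by
  have k0 : Real.log (((1 : ℕ) : ℝ) + 1) ≤ 5 := log_le_five (by norm_num) (by norm_num)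
  have k1 := ch_subadd (P := Q) (fun u => fl1 b (φ u)) g Θ
  have k2 := ch_label hg Θ
  have k3 := ch_tri (P := Q) (fun u => fl1 b (φ u)) (fun u => fl1 b (f u)) Θ
  have k4 := ch_tri (P := Q) (fun u => fl1 b (f u)) (fun u => fl1 a (f u)) Θ
  have k5 := ch_tri (P := Q) (fun u => fl1 a (f u)) (fun u => sg (D u)) Θ
  have k6 := ch_label (P := Q) (fun u _ => sg_le (D u)) Θ
  have k7 : ch Q (fun u => fl1 b (f u)) (fun u => (fl1 a (f u), Θ u)) ≤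
      ch Q (fun u => fl1 b (f u)) fun u => (fl1 a (f u), C u) :=
    ch_anti ((Fn.fst _ _).pair (hC.right _))
  have k8 : ch Q (fun u => fl1 b (φ u)) (fun u => (fl1 b (f u), Θ u)) ≤ _ :=
    ch_near1 hL fun u hu v hv e => by
      obtain ⟨e1, e2⟩ := Prod.mk.inj e
      rw [h2 u hu v hv e2, abs_mul, div_eq_inv_mul L, abs_div, abs_two]
      refine mul_le_mul (abs_sub_lt_of_fl1_eq e1).le ?_ (by positivity) (by positivity)
      linarith [abs_add_le (D u) (D v), (h1 u hu).1.2, (h1 v hv).1.2]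
  have k9 : ch Q (fun u => fl1 a (f u)) (fun u => (sg (D u), Θ u)) ≤ _ :=
    ch_near1 (L := 8) (by norm_num) fun u hu v hv e => by
      obtain ⟨e1, e2⟩ := Prod.mk.inj e
      obtain ⟨⟨a1, -⟩, a2⟩ := h1 u hu
      obtain ⟨⟨b1, -⟩, b2⟩ := h1 v hv
      have c1 := sg_mul e1 (abs_pos.1 (by linarith)) (abs_pos.1 (by linarith))
      have c2 : 1 / 2 ≤ |(D u + D v) / 2| := by
        rw [abs_div, abs_two, (abs_add_eq_add_abs_iff _ _).2 (mul_nonneg_iff.1 c1.le)]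
        linarith
      have c3 := abs_sub (φ u) (φ v)
      rw [h2 u hu v hv e2, abs_mul] at c3
      have c4 := mul_le_mul_of_nonneg_left c2 (abs_nonneg (f u - f v))
      rw [show (8 : ℝ) / 2 ^ a = 4 * (2 / 2 ^ a) by ring]
      linarith
  linarith [log_le_five (x := 2 * 8 + 3) (by norm_num) (by norm_num)]

theorem sub_le {M : ℕ → ℕ} {L : ℕ → ℝ} (h : Sub M L) : ∀ᶠ n in UF, L n ≤ 2 ^ M n :=
  (h.2 (1 / 2) one_half_pos).mono fun n h =>
    (h.trans_eq (by rw [one_div_mul_eq_div])).trans (exp_le_two_pow _)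

theorem qf_diff {x : Lm} {L : ℝ} {k p R : ℕ} (al : x.Alg L k p R) {u v : x.Ω} (hu : u ∈ x.P.S)
    (hv : v ∈ x.P.S) (e1 : x.σ u = x.σ v) (e2 : x.n u = x.n v) (A : Qd) :
    qf A (x.Y u) - qf A (x.Y v) =
      (x.f u - x.f v) * ((pf A (x.Y u) (bv 4) + pf A (x.Y v) (bv 4)) / 2) := by
  obtain ⟨f1, f2⟩ := Prod.mk.inj (al.fO _ hu _ hv (Prod.mk.inj (al.fs _ hu _ hv e1)).2)
  have e : x.Y u - x.Y v = (x.f u - x.f v) • bv 4 := by
    rw [Lm.Y, Lm.Y, f1, f2, e2, add_sub_add_left_eq_sub, sub_smul]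
  rw [qf_sub_qf, e, pf_smul_right, pf_smul_right]
  ring

theorem up2 {x : Lm} {i : Fin 4 × Fin 4} {L : ℝ} {k p R r s a : ℕ} (al : x.Alg L k p R)
    (hL : 1 ≤ L) {Q : FP (x.Ω × x.Ω)} {ι : x.Ω → ℕ} (b : ℕ) (q : ∀ y ∈ Q.S, (y.1 ∈ x.P.S ∧
      y.2 ∈ x.P.S ∧ xi x i y.2 = xi x i y.1) ∧ Pr2 x i L r s a (ι y.1) y.1 y.2) :
    ch Q (fun y => (fl1 b (qf (x.A₁ y.1) (x.Y y.2)), sg ((x.n y.1 0 : ℝ) - x.n y.2 0)))
      (fun y => (x.σ y.2, cpy (fun ω => x.n ω 0) (fun ω => (x.S₁ ω, xi x i ω)) ι (· / 5) y.1)) ≤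
    ch Q (fun y => fl1 b (x.f y.2)) (fun y => (fl1 a (x.f y.2), x.n y.2, x.σ y.2)) +
      Real.log (2 * (2 * L) + 3) + 15 := by
  have key : ∀ u ∈ Q.S, ∀ v ∈ Q.S, x.σ u.2 = x.σ v.2 → xi x i u.1 = xi x i v.1 →
      x.n u.2 = x.n v.2 := fun u hu v hv e1 e2 =>
    xi_eq (((q u hu).1.2.2.trans e2).trans (q v hv).1.2.2.symm)
      (congrArg Prod.fst (al.fs _ (q u hu).1.2.1 _ (q v hv).1.2.1 e1))
  refine upper (Q := Q) (fun y => qf (x.A₁ y.1) (x.Y y.2))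
    (fun y => pf (x.A₁ y.1) (x.Y y.2) (bv 4)) (fun y => x.f y.2) (a := a) b (by linarith)
    (fun u hu v hv e => ?_) (fun _ _ => sg_le _) (fun y hy => ⟨(q y hy).2.d, (q y hy).2.small⟩)
    fun u hu v hv e => ?_
  all_goals
    simp only [Prod.mk.injEq] at e
    obtain ⟨e1, ⟨e2, e3⟩, -⟩ := e
  · exact Prod.ext (key u hu v hv e1 e3) e1
  · rw [show x.A₁ u.1 = x.A₁ v.1 from congrArg Prod.fst (al.f₁ _ (q u hu).1.1 _ (q v hv).1.1 e2)]
    exact qf_diff al (q u hu).1.2.1 (q v hv).1.2.1 e1 (key u hu v hv e1 e3) _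

end ECoreVA

open ECoreVA

theorem rowECoreV : OfECoreV := by
  intro hS hJ hC hX hA x R k p ε₀ i L ok hL
  by_contra hc
  obtain ⟨L₀, hL₀, al⟩ := ok.alg
  have hR := ok.big
  obtain ⟨e0, e1⟩ := ok.pos
  obtain ⟨s, hs, s1⟩ : ∃ s : ℕ → ℕ, Frac s R ∧ ∀ n, (s n : ℝ) ≤ ε₀ / 4000 * R n :=
    ⟨_, hR.frac_floor (c := ε₀ / 4000) (by positivity) (by linarith),
      fun n => Nat.floor_le (by positivity)⟩
  obtain ⟨T, hT⟩ : ∃ T : ℕ, ∀ᶠ n in UF, R n ≤ T * s n := by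
    obtain ⟨c, c0, c1⟩ := hs.2
    refine ⟨⌈c⁻¹⌉₊, c1.mono fun n h => Nat.cast_le (α := ℝ).1 ?_⟩
    rw [Nat.cast_mul]
    exact ((le_inv_mul_iff₀ c0).2 h).trans (mul_le_mul_of_nonneg_right (Nat.le_ceil _) (by positivity))
  have fr := hR.frac_div (K := 200) (by norm_num)
  have nm : ∀ᶠ n in UF, Nm (L₀ n) (L n) (R n) (k n) (p n) (R n / 200) (s n) := by
    filter_upwards [sub_le (hL.frac fr), sub_le ((((hL₀.const_mul hR (C := 49) (by norm_num)).pow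
      10).const_mul hR (C := 100) (by norm_num)).frac fr), hR.ev 4000] with n h1 h2 h3
    have h4 : (4000 * s n : ℝ) ≤ R n := by
      nlinarith [s1 n, mul_le_of_le_one_left (Nat.cast_nonneg (α := ℝ) (R n)) e1]
    have h5 : 4000 * s n ≤ R n := by exact_mod_cast h4
    have h6 : 4000 ≤ R n := by exact_mod_cast h3
    exact ⟨⟨(hL.pos n).le, h1⟩, ⟨hL₀.1 n, h2⟩, by omega, by omega, ok.le n⟩
  obtain ⟨E, hE, hE'⟩ : ∃ E : ∀ n, (x n).Ω → Prop, Pos (fun n => (x n).P) E ∧ ∀ᶠ n in UF,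
      ∀ ω ∈ (x n).P.S, E n ω → ∃ (t : Fin (T + 1)) (ι : ℕ), Gd (x n) i (L n) (k n) (p n)
        (R n / 200) (s n) (p n - 142 * (R n / 200) + t * s n) ι ω := by
    refine ⟨_, not_whp hc, ?_⟩
    filter_upwards [al, nm, hT] with n al nm hT ω hω h
    push Not at h
    obtain ⟨t1, t2, j, hj⟩ := h
    exact exists_comm.1 (sel hS hJ al nm hT hω t1 t2 hj)
  obtain ⟨t, ht⟩ : ∃ t : Fin (T + 1), Pos (fun n => (x n).P) fun n ω => ∃ ι : ℕ,
      Gd (x n) i (L n) (k n) (p n) (R n / 200) (s n) (p n - 142 * (R n / 200) + t * s n) ι ω := by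
    obtain ⟨t, h⟩ := KSA.pig _ _ (fun n ω => Classical.epsilon fun t : Fin (T + 1) => ∃ ι : ℕ,
      Gd (x n) i (L n) (k n) (p n) (R n / 200) (s n) (p n - 142 * (R n / 200) + t * s n) ι ω) hE
    exact ⟨t, h.mono (hE'.mono fun n h ω hω e => e.2 ▸ Classical.epsilon_spec (h ω hω e.1))⟩
  obtain ⟨a, a0, ht⟩ : ∃ a : ℕ → ℕ, (∀ n, p n ≤ a n + R n) ∧ Pos (fun n => (x n).P) fun n ω =>
      ∃ ι : ℕ, Gd (x n) i (L n) (k n) (p n) (R n / 200) (s n) (a n) ι ω :=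
    ⟨_, fun n => by omega, ht⟩
  clear hE hE' E hc hT
  obtain ⟨E, hE, ι, g⟩ : ∃ E : ∀ n, (x n).Ω → Prop, Pos (fun n => (x n).P) E ∧
      ∃ ι : ∀ n, (x n).Ω → ℕ, ∀ᶠ n in UF, ∀ ω ∈ (cE (x n).P (E n)).S,
        Gd (x n) i (L n) (k n) (p n) (R n / 200) (s n) (a n) (ι n ω) ω :=
    ⟨_, ht, fun n ω => Classical.epsilon fun ι =>
      Gd (x n) i (L n) (k n) (p n) (R n / 200) (s n) (a n) ι ω,
      ht.sure.mono fun n h ω hω => Classical.epsilon_spec (h ω hω).2⟩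
  have pr : ∀ᶠ n in UF, ∀ y ∈ (glue (cE (x n).P (E n)) (cE (x n).P (E n))
      (cpy (fun ω => (x n).n ω 0) (fun ω => ((x n).S₂ ω, xi (x n) i ω)) (ι n) (· / 5))
      (cpy (fun ω => (x n).n ω 0) (fun ω => ((x n).S₂ ω, xi (x n) i ω)) (ι n) (· / 5))).S,
      far (fun ω => (x n).n ω 0) (ι n) (· / 5) (s n) y → (y.1 ∈ (x n).P.S ∧ y.2 ∈ (x n).P.S ∧
        xi (x n) i y.2 = xi (x n) i y.1) ∧
        Pr2 (x n) i (L₀ n) (R n / 200) (s n) (a n) (ι n y.1) y.1 y.2 := by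
    filter_upwards [al, nm, g] with n al nm g y hy fa
    obtain ⟨y1, y2, e⟩ := (KGA.mem _ _ _ _ y (Law.rfl _)).1 hy
    simp only [Prod.mk.injEq] at e
    obtain ⟨⟨f1, f2⟩, f3, f4⟩ := e
    rw [f3] at f4
    exact ⟨⟨cE_sub y1, cE_sub y2, f2⟩,
      pair hC al nm (cE_sub y1) (cE_sub y2) (g _ y1) f1 f2 f4 fa⟩
  obtain ⟨F, hF, F1, F2⟩ := hA (fun n => cE (x n).P (E n)) (fun n ω => (x n).n ω 0)
    (fun n ω => ((x n).S₁ ω, xi (x n) i ω)) (fun n ω => ((x n).S₂ ω, xi (x n) i ω))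
    (fun n => (x n).σ) (fun n => (x n).θ) ι (fun _ m => m / 5)
    (fun n y => (fl1 (a n + s n + R n / 200) (qf ((x n).A₁ y.1) ((x n).Y y.2)),
      sg (((x n).n y.1 0 : ℝ) - (x n).n y.2 0))) R k (fun n => R n / 200) s (fun n => 5 * k n + 4)
    L₀ (fun n => 1000 * 2 ^ (4 * s n)) hR hs hL₀
    ((ok.sub.const_mul hR (C := 5) (by norm_num)).mono (fun n => le_add_of_nonneg_left (by positivity))
      (.of_forall fun n => le_of_eq (by push_cast; ring)))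
    (by
      filter_upwards [al, nm, g] with n al nm g
      obtain ⟨n1, n2, -⟩ := nm.r
      refine ⟨fn_cE (((Fn.snd _ _).trans al.f₁).left _) _, fn_cE (((Fn.snd _ _).trans al.f₂).left _) _,
        fn_cE ((Fn.snd _ _).trans al.fs) _, fn_cE ((Fn.fst _ _).trans al.fs) _, by omega, by omega,
        one_le_mul_of_one_le_of_one_le (by norm_num) (one_le_pow₀ one_le_two), fun ω hω => ?_⟩
      have := (g ω hω).w
      exact ⟨al.bd ω (cE_sub hω) 0, by omega, by omega, by omega⟩)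
    (ful i hR hL₀ (al.mono fun n h => h.bd) ok.ful₁ hE)
    (ful i hR hL₀ (al.mono fun n h => h.bd) ok.ful₂ hE)
    (((K31.dnS_cE hE).sm_mi hR ok.ind).mono (.of_forall fun n => mi_mono fun u _ v _ e => by
      simp only [id, Prod.mk.injEq] at e
      simp only [xi, e.1.1, e.1.2]))
    (by
      filter_upwards [al, nm, pr] with n al nm pr y₁ y₁' y₂ y₂' hy b1 b2 b3 b4 b5 b6
      simp only [List.mem_cons, List.not_mem_nil, or_false, forall_eq_or_imp, forall_eq] at hy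
      obtain ⟨⟨c1, c2, -⟩, ⟨c3, c4, -⟩, ⟨c5, c6, c7⟩, c8, c9, -⟩ := hy
      obtain ⟨m1, p1⟩ := pr _ c1 c2
      obtain ⟨m3, p3⟩ := pr _ c3 c4
      obtain ⟨m2, p2⟩ := pr _ c5 c6
      obtain ⟨m4, p4⟩ := pr _ c8 c9
      have d : ι n y₂.1 = ι n y₁.1 := congrArg (·.2.1) c7
      rw [b1] at p3
      rw [b2, d] at p4
      rw [d] at p2
      rw [b1, b2] at b6
      exact cross hX nm.r.2.1 p1 p2 p3 p4 (congrArg Prod.fst (al.fs _ m2.2.1 _ m1.2.1 b3))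
        (congrArg Prod.fst (al.fs _ m4.2.1 _ m3.2.1 b5)) b4 b6)
  have ng := ok.ng _ _ _ (fun n => min (a n) (p n)) (fun n => min (a n + s n + R n / 200) (p n))
    (((K31.dnS_cE hF).trans (K31.dnS_law (.of_forall fun n =>
      KGA.snd _ _ _ _ rowKE (Law.rfl _)))).trans (K31.dnS_cE hE)) fun n => by
        have := a0 n
        omega
  have c0 : 0 < ε₀ * lg / 800 := by have := lg_pos; positivity
  refine Le.false (f := fun n => ε₀ * lg / 800 * R n) (g := fun _ => 0) (F2.of4 ng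
    ((hL₀.const_mul hR one_le_two).log3 hR 1) (hR.sm (16 + Real.log 1000)) ?_) hR c0
    (.of_forall fun n => (zero_add _).le)
  filter_upwards [al, nm, pr, hF.sure, g, hE.ex] with n al nm pr su g ex
  have b1 := (g _ ((mem_cE ex _).2 ex.choose_spec)).a.2
  obtain ⟨n1, n2, -⟩ := nm.r
  have up := up2 al (hL₀.1 n) (a n + s n + R n / 200)
    fun y hy => pr y (su y hy).1 (F1 n y (su y hy).2)
  have r1 : (R n : ℝ) ≤ 200 * (R n / 200 : ℕ) + 200 := by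
    exact_mod_cast (by omega : R n ≤ 200 * (R n / 200) + 200)
  have l0 := lg_pos
  have r2 := mul_le_mul_of_nonneg_left r1 (mul_pos e0 l0).le
  have r3 := mul_le_mul_of_nonneg_right (s1 n) l0.le
  have r4 := mul_le_one₀ e1 l0.le lg_lt_one.le
  have r5 : 0 ≤ ε₀ * s n * lg := by positivity
  have r6 : 0 ≤ ε₀ * lg * R n := by positivity
  rw [min_eq_left (by omega), min_eq_left (by omega), Real.log_mul (by norm_num) (by positivity),
    log_two_pow]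
  simp only [id]
  push_cast at up ⊢
  linarith

end Pool.Agent.MP_5168f5_an.R4
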