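import Pool.Agent.MP_5168f5_an.R4.SpecE1

/-! Two monomial curves cross at most once. -/

namespace Pool.Agent.MP_5168f5_an.R4

namespace ECrossA

theorem kap {a b φ ψ ε : ℝ} (ha : a ≠ 0) (h0 : 0 ≤ ε) (h1 : ε ≤ 1 / 100)
    (e1 : |φ - a| ≤ ε * |a|) (e2 : |ψ - b| ≤ ε * |b|) (e3 : |φ - ψ| ≤ ε * |a|) :
    |b / a - 1| ≤ 4 * ε := by
  have p : 0 < |a| := abs_pos.2 ha
  have k1 : |b - a| ≤ 2 * (ε * |a|) + ε * |b| := by
    have t1 := abs_sub_le b ψ a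
    have t2 := abs_sub_le ψ φ a
    rw [abs_sub_comm b ψ] at t1
    rw [abs_sub_comm ψ φ] at t2
    linarith
  have k2 : |b| ≤ |b - a| + |a| := by simpa using abs_add_le (b - a) a
  have k3 := mul_le_mul_of_nonneg_left k2 h0
  have k4 := mul_le_mul_of_nonneg_right h1 (abs_nonneg (b - a))
  have k5 := mul_nonneg h0 p.le
  rw [div_sub_one ha, abs_div, div_le_iff₀ p]
  linarith

theorem pw {w : ℝ} {j : ℕ} (hw : 0 < w) (hj : 1 ≤ j) : |w - 1| ≤ |w ^ j - 1| := by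
  rcases le_total 1 w with h | h
  · have := le_self_pow₀ h (Nat.one_le_iff_ne_zero.1 hj)
    rw [abs_of_nonneg (by linarith), abs_of_nonneg (by linarith)]
    linarith
  · have := pow_le_of_le_one hw.le h (Nat.one_le_iff_ne_zero.1 hj)
    rw [abs_of_nonpos (by linarith), abs_of_nonpos (by linarith)]
    linarith

theorem rat {k k' ε : ℝ} (h0 : 0 ≤ ε) (h1 : ε ≤ 1 / 100) (e : |k - 1| ≤ 4 * ε)
    (e' : |k' - 1| ≤ 4 * ε) : |k' / k - 1| ≤ 10 * ε := by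
  have p : 24 / 25 ≤ k := by linarith [(abs_le.1 e).1]
  have q : 0 < k := by linarith
  have t := abs_sub_le k' 1 k
  rw [abs_sub_comm 1 k] at t
  rw [div_sub_one q.ne', abs_div, abs_of_pos q, div_le_iff₀ q]
  nlinarith

end ECrossA

theorem rowECross : ECross := by
  intro C₁ C₂ z₁ z₂ z₁' z₂' φ₁ φ₂ φ₁' φ₂' ε j hj hC p p' h0 h1 a1 a2 b1 b2 c1 c2
  have n1 := left_ne_zero_of_mul p.ne'
  have n2 := right_ne_zero_of_mul p.ne'
  have m1 := left_ne_zero_of_mul p'.ne'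
  have m2 := right_ne_zero_of_mul p'.ne'
  simp only [← abs_pow, ← abs_mul] at a1 a2 b1 b2 c1 c2
  have k := ECrossA.kap (mul_ne_zero hC (pow_ne_zero j n1)) h0 h1 a1 a2 c1
  have k' := ECrossA.kap (mul_ne_zero hC (pow_ne_zero j m1)) h0 h1 b1 b2 c2
  have r := ECrossA.rat h0 h1 k k'
  have nC : C₂ ≠ 0 := by
    rintro rfl
    rw [zero_mul, zero_div, zero_sub, abs_neg, abs_one] at k
    linarith
  have w0 : 0 < z₁ * z₂' / (z₂ * z₁') := by
    have e : z₁ * z₂' / (z₂ * z₁') = z₁ * z₂ * (z₁' * z₂') / (z₂ * z₁') ^ 2 := by field_simp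
    rw [e]
    exact div_pos (mul_pos p p') (sq_pos_of_ne_zero (mul_ne_zero n2 m1))
  have e : C₂ * z₂' ^ j / (C₁ * z₁' ^ j) / (C₂ * z₂ ^ j / (C₁ * z₁ ^ j))
      = (z₁ * z₂' / (z₂ * z₁')) ^ j := by
    rw [div_pow, mul_pow, mul_pow]
    field_simp
  rw [e] at r
  have t := (ECrossA.pw w0 hj).trans r
  rwa [div_sub_one (mul_ne_zero n2 m1), abs_div, div_le_iff₀ (abs_pos.2 (mul_ne_zero n2 m1)),
    abs_mul z₂] at t

end Pool.Agent.MP_5168f5_an.R4
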