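import Pool.Agent.MP_5168f5_an.R4.SpecE1

/-! Row ECurve: the value of one quadric along the conic of another. -/

namespace Pool.Agent.MP_5168f5_an.R4

open H19 H17S H17F Matrix

namespace ECurveA

theorem root {β μ κ : ℝ} (h0 : 0 < κ) (h1 : κ ≤ 1 / 100) (hβ : |β| ≤ κ) (hμ : |μ| ≤ κ ^ 2) :
    ∃ u, |u - 1| ≤ 2 * κ ∧ μ * u ^ 2 - (1 + β) * u + 1 = 0 := by
  obtain ⟨b1, b2⟩ := abs_le.1 hβ
  have key : ∀ u : ℝ, 0 ≤ u → u ≤ 11 / 10 → |μ * u ^ 2| ≤ κ / 10 := fun u a b => by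
    rw [abs_mul, abs_of_nonneg (sq_nonneg u)]
    calc _ ≤ κ ^ 2 * 2 := mul_le_mul hμ (by nlinarith) (sq_nonneg u) (sq_nonneg κ)
      _ ≤ _ := by nlinarith
  have k1 := abs_le.1 (key (1 - 2 * κ) (by linarith) (by linarith))
  have k2 := abs_le.1 (key (1 + 2 * κ) (by linarith) (by linarith))
  obtain ⟨u, hu, e⟩ := intermediate_value_Icc' (f := fun u => μ * u ^ 2 - (1 + β) * u + 1)
    (show 1 - 2 * κ ≤ 1 + 2 * κ by linarith) (by fun_prop)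
    (show (0 : ℝ) ∈ Set.Icc _ _ from ⟨by nlinarith, by nlinarith⟩)
  exact ⟨u, abs_le.2 ⟨by linarith [hu.1], by linarith [hu.2]⟩, e⟩

theorem close {a B c g g0 ε : ℝ} (h0 : a * g0 ^ 2 + B * g0 + c = 0)
    (h : |a * g ^ 2 + B * g + c| ≤ 2 * ε) (h1 : 0 ≤ B + 2 * a * g) (h2 : 9 / 10 ≤ B + 2 * a * g0) :
    |g - g0| ≤ 5 * ε := by
  have e : a * g ^ 2 + B * g + c = (g - g0) * ((B + 2 * a * g + (B + 2 * a * g0)) / 2) := by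
    linear_combination h0
  rw [e, abs_mul, abs_of_nonneg (by linarith : 0 ≤ (B + 2 * a * g + (B + 2 * a * g0)) / 2)] at h
  nlinarith [abs_nonneg (g - g0)]

theorem dom {J : ℕ → ℝ} {K x ζ θ₁ θ₃ θ₄ : ℝ} {j : ℕ} (hK : 100 ≤ K) (h : Dom J K x j) (hζ : |ζ| ≤ x)
    (h1 : |θ₁ - 1| ≤ 5 * K⁻¹) (h3 : |θ₃ - 1| ≤ 5 * K⁻¹) (h4 : |θ₄ - 1| ≤ 5 * K⁻¹) :
    |J j * (-ζ) ^ j| ≤ |J j| * x ^ j ∧
    |J 1 * (-ζ) ^ 1 * θ₁ + J 2 * (-ζ) ^ 2 * 1 + J 3 * (-ζ) ^ 3 * θ₃ + J 4 * (-ζ) ^ 4 * θ₄ -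
      J j * (-ζ) ^ j| ≤ 20 * (K⁻¹ * (|J j| * x ^ j)) := by
  have K0 : 0 < K := by linarith
  have k1 : K⁻¹ ≤ 1 / 100 := by rw [one_div]; exact inv_anti₀ (by norm_num) hK
  have hm : ∀ i, |J i * (-ζ) ^ i| ≤ |J i| * x ^ i := fun i => by
    rw [abs_mul, abs_pow, abs_neg]
    gcongr
  have key : ∀ i θ, 1 ≤ i → i ≤ 4 → |θ - 1| ≤ 5 * K⁻¹ →
      |J i * (-ζ) ^ i * θ - if i = j then J j * (-ζ) ^ j else 0| ≤
        5 * (K⁻¹ * (|J j| * x ^ j)) := fun i θ a b c => by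
    split_ifs with e
    · rw [e, ← mul_sub_one, abs_mul]
      exact (mul_le_mul (hm j) c (abs_nonneg _) ((abs_nonneg _).trans (hm j))).trans_eq (by ring)
    · have h5 := (hm i).trans ((le_inv_mul_iff₀ K0).2 (h.2.2 i a b e))
      have h6 : |θ| ≤ 5 := by
        obtain ⟨c1, c2⟩ := abs_le.1 c
        exact abs_le.2 ⟨by linarith, by linarith⟩
      rw [sub_zero, abs_mul]
      exact (mul_le_mul h5 h6 (abs_nonneg _) ((abs_nonneg _).trans h5)).trans_eq (mul_comm _ _)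
  have a1 := abs_le.1 (key 1 θ₁ le_rfl (by norm_num) h1)
  have a2 := abs_le.1 (key 2 1 (by norm_num) (by norm_num) (by simp [K0.le]))
  have a3 := abs_le.1 (key 3 θ₃ (by norm_num) (by norm_num) h3)
  have a4 := abs_le.1 (key 4 θ₄ (by norm_num) le_rfl h4)
  refine ⟨hm j, ?_⟩
  obtain ⟨j1, j2, -⟩ := h
  rw [abs_le]
  interval_cases j <;> norm_num at a1 a2 a3 a4 ⊢ <;> constructor <;> linarith

theorem size {P d s r L : ℝ} (hd : 1 ≤ d) (hL : d ≤ L) (e : P ^ 2 = (d + s) ^ 2 + r)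
    (hs : |s| ≤ 1 / 100) (hr : |r| ≤ 1 / 10) : 9 / 10 ≤ |P| ∧ |P| ≤ 11 / 10 * L := by
  obtain ⟨s1, s2⟩ := abs_le.1 hs
  obtain ⟨r1, r2⟩ := abs_le.1 hr
  rw [← sq_abs P] at e
  exact ⟨by nlinarith [abs_nonneg P], by nlinarith [abs_nonneg P]⟩

theorem core {P R d s r α q h L κ ε N E : ℝ} (h0 : 0 < κ) (h1 : κ ≤ 1 / 100) (hd : 1 ≤ d)
    (hL : d ≤ L) (e : P ^ 2 = (d + s) ^ 2 + (4 * (α * R) - 4 * r)) (hs : |s| ≤ κ) (hr : |r| ≤ κ ^ 2)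
    (hq : |q| ≤ ε) (hh : |h| ≤ 5 * ε) (hε : 40 * L * ε ≤ κ * N) (hα : |α| * N ≤ κ) (hE : |E| ≤ N)
    (hR : |R - E| ≤ 20 * (κ * N)) :
    |q + R + h * (P + h * α) - E| ≤ 100 * (κ * N) ∧ 1 / 2 ≤ |P + 2 * (h * α)| ∧
      |P + 2 * (h * α)| ≤ 2 * L := by
  have N0 : 0 ≤ N := (abs_nonneg _).trans hE
  have e0 : 0 ≤ ε := (abs_nonneg _).trans hq
  have a0 := abs_nonneg α
  have a1 : |R| ≤ 6 / 5 * N := by
    have := abs_sub_abs_le_abs_sub R E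
    nlinarith
  have a2 : |α * R| ≤ 6 / 5 * κ := by
    rw [abs_mul]
    nlinarith
  have a3 : ε ≤ L * ε := le_mul_of_one_le_left e0 (hd.trans hL)
  have a4 : |h * α| ≤ 1 / 100 := by
    rw [abs_mul]
    have : ε ≤ N / 100 := by nlinarith
    nlinarith
  obtain ⟨p1, p2⟩ := size hd hL e (hs.trans h1) (by
    obtain ⟨b1, b2⟩ := abs_le.1 a2
    obtain ⟨b3, b4⟩ := abs_le.1 hr
    exact abs_le.2 ⟨by nlinarith, by nlinarith⟩)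
  have a5 : |h * (P + h * α)| ≤ 5 * ε * (2 * L) := by
    rw [abs_mul]
    exact mul_le_mul hh (by linarith [abs_add_le P (h * α)]) (abs_nonneg _) (by linarith)
  have a6 : |2 * (h * α)| ≤ 1 / 50 := by
    rw [abs_mul, abs_two]
    linarith
  refine ⟨?_, ?_, by linarith [abs_add_le P (2 * (h * α))]⟩
  · obtain ⟨b1, b2⟩ := abs_le.1 a5
    obtain ⟨b3, b4⟩ := abs_le.1 hq
    obtain ⟨b5, b6⟩ := abs_le.1 hR
    exact abs_le.2 ⟨by nlinarith, by nlinarith⟩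
  · have := abs_sub_abs_le_abs_add P (2 * (h * α))
    linarith

theorem qf3 (A : Qd) (Y W e : V 5) (ζ g : ℝ) : qf A (Y + ζ • W + g • e) = qf A Y + ζ * pf A Y W +
    g * pf A Y e + ζ ^ 2 * qf A W + ζ * g * pf A W e + g ^ 2 * qf A e := by
  simp only [qf_add, qf_smul, pf_add_left, pf_smul_left, pf_smul_right]
  ring

theorem pf3 (A : Qd) (Y W e : V 5) (ζ g : ℝ) :
    pf A (Y + ζ • W + g • e) e = pf A Y e + ζ * pf A W e + 2 * g * qf A e := by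
  simp only [pf_add_left, pf_smul_left, pf_self]
  ring

theorem div1 {b c : ℝ} (h : 1 ≤ c) : |b / c| ≤ |b| := by
  rw [abs_div, abs_of_nonneg (zero_le_one.trans h)]
  exact div_le_self (abs_nonneg _) h

theorem real {J : ℕ → ℝ} {D d t B₁ B₂ Q₁ Q₂ α₁ α₂ r₁ r₂ ζ g L K ε x : ℝ} {j : ℕ} (hD : 1 ≤ D)
    (hd : 1 ≤ d) (hL : d ≤ L) (hK : 100 ≤ K) (z2 : |ζ| ≤ x) (q1 : |r₁| ≤ ε) (q2 : |r₂| ≤ ε)
    (hβ : |ζ * (B₂ / D)| ≤ K⁻¹) (hμ : |ζ ^ 2 * (α₂ * Q₂ / D ^ 2)| ≤ K⁻¹ ^ 2)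
    (T₁ : |ζ * (B₁ + -(t / d) * (2 * α₁))| ≤ K⁻¹)
    (T₂ : |ζ ^ 2 * (α₁ * (Q₁ + -(t / d) * B₁ + (-(t / d)) ^ 2 * α₁))| ≤ K⁻¹ ^ 2)
    (q3 : |r₂ + ζ * 0 + g * D + ζ ^ 2 * Q₂ + ζ * g * B₂ + g ^ 2 * α₂| ≤ ε)
    (p2 : 0 ≤ D + ζ * B₂ + 2 * g * α₂) (hdom : Dom J K x j) (hε : K * (40 * L * ε) ≤ |J j| * x ^ j)
    (hα : |α₁| * (|J j| * x ^ j) * K ≤ 1) (j1 : J 1 = -t)
    (j2 : J 2 = -t * (B₂ / D) + (Q₁ - d / D * Q₂))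
    (j3 : J 3 = -t * (α₂ * Q₂ / D ^ 2) + Q₂ / D * (B₁ - d / D * B₂))
    (j4 : J 4 = (Q₂ / D) ^ 2 * (α₁ - d / D * α₂)) :
    |r₁ + ζ * t + g * d + ζ ^ 2 * Q₁ + ζ * g * B₁ + g ^ 2 * α₁ - J j * (-ζ) ^ j| ≤
      100 * (K⁻¹ * (|J j| * x ^ j)) ∧ 1 / 2 ≤ |d + ζ * B₁ + 2 * g * α₁| ∧
      |d + ζ * B₁ + 2 * g * α₁| ≤ 2 * L := by
  have K0 : 0 < K := by linarith
  have k0 : 0 < K⁻¹ := inv_pos.2 K0
  have k1 : K⁻¹ ≤ 1 / 100 := by rw [one_div]; exact inv_anti₀ (by norm_num) hK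
  have D0 : 0 < D := by linarith
  have d0 : d ≠ 0 := by linarith
  obtain ⟨u, hu, eu⟩ := root k0 k1 hβ hμ
  obtain ⟨u1, u2⟩ := abs_le.1 hu
  have k2 : K⁻¹ ^ 2 * 4 ≤ K⁻¹ := by nlinarith only [k0, k1]
  have hμ' : |ζ ^ 2 * (α₂ * Q₂ / D ^ 2) * u| ≤ K⁻¹ := by
    rw [abs_mul, abs_of_nonneg (by linarith : 0 ≤ u)]
    exact (mul_le_mul hμ (by linarith : u ≤ 4) (by linarith) (sq_nonneg _)).trans k2
  obtain ⟨b1, b2⟩ := abs_le.1 hβ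
  obtain ⟨m1, m2⟩ := abs_le.1 hμ'
  have hg := close (a := α₂ / D) (B := 1 + ζ * (B₂ / D)) (c := Q₂ / D * ζ ^ 2) (g := g) (ε := ε)
    (g0 := -(Q₂ / D * ζ ^ 2 * u)) (by linear_combination Q₂ / D * ζ ^ 2 * eu) (by
      have e : α₂ / D * g ^ 2 + (1 + ζ * (B₂ / D)) * g + Q₂ / D * ζ ^ 2 =
          (r₂ + ζ * 0 + g * D + ζ ^ 2 * Q₂ + ζ * g * B₂ + g ^ 2 * α₂ - r₂) / D := by
        field_simp; ring
      rw [e]
      exact (div1 hD).trans ((abs_sub _ _).trans (by linarith only [q2, q3])))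
    ((div_nonneg p2 D0.le).trans_eq (by field_simp))
    (by
      have e : 2 * (α₂ / D) * -(Q₂ / D * ζ ^ 2 * u) = -(2 * (ζ ^ 2 * (α₂ * Q₂ / D ^ 2) * u)) := by
        ring
      linarith only [e, b1, m2, k1])
  obtain ⟨hE, hR⟩ := dom (θ₁ := 1 + ζ * (B₂ / D) - ζ ^ 2 * (α₂ * Q₂ / D ^ 2) * u) (θ₃ := u)
    (θ₄ := u ^ 2) hK hdom z2
    (abs_le.2 ⟨by linarith only [b1, m2, k0], by linarith only [b2, m1, k0]⟩)
    (hu.trans (by linarith only [k0]))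
    (abs_le.2 ⟨by nlinarith only [u1, k0, sq_nonneg (u - 1)], by nlinarith only [u1, u2, k0, k2]⟩)
  generalize hg0 : -(Q₂ / D * ζ ^ 2 * u) = g0 at hg
  have eR : J 1 * (-ζ) ^ 1 * (1 + ζ * (B₂ / D) - ζ ^ 2 * (α₂ * Q₂ / D ^ 2) * u) +
      J 2 * (-ζ) ^ 2 * 1 + J 3 * (-ζ) ^ 3 * u + J 4 * (-ζ) ^ 4 * u ^ 2 =
      ζ * t + g0 * d + ζ ^ 2 * Q₁ + ζ * g0 * B₁ + g0 ^ 2 * α₁ := by
    rw [j1, j2, j3, j4, ← hg0]
    linear_combination -(Q₂ / D * d * ζ ^ 2) * eu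
  rw [eR] at hR
  obtain ⟨c1, c2⟩ := core (P := d + ζ * B₁ + 2 * g0 * α₁) (α := α₁) k0 k1 hd hL
    (by field_simp; ring)
    T₁ T₂ q1 hg ((le_inv_mul_iff₀ K0).2 hε) (by rw [← one_div, le_div_iff₀ K0]; exact hα) hE hR
  exact ⟨(le_of_eq (congrArg _ (by ring))).trans c1, by convert c2 using 3 <;> ring⟩

end ECurveA

open ECurveA in
theorem rowECurve : ECurve := by
  intro A₁ A₂ Y v ζ g L Λ K ε σ x j hD hd hL T₁ T₂ hK hΛ hx σ0 σ1 x0 z1 z2 q1 q2 q3 p2 hdom hε hα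
  have K0 : 0 < K := by linarith
  have D0 : pf A₂ Y (bv 4) ≠ 0 := by linarith
  have d0 : pf A₁ Y (bv 4) ≠ 0 := by linarith
  have hz : |ζ| * Λ ≤ K⁻¹ := (mul_le_mul_of_nonneg_right z2 hΛ).trans (by
    rw [← one_div, le_div_iff₀ K0]; exact hx)
  have l1 : ∀ b : ℝ, |b| ≤ Λ → |ζ * b| ≤ K⁻¹ := fun b h => by
    rw [abs_mul]
    exact (mul_le_mul_of_nonneg_left h (abs_nonneg _)).trans hz
  have l2 : ∀ b : ℝ, |b| ≤ Λ ^ 2 → |ζ ^ 2 * b| ≤ K⁻¹ ^ 2 := fun b h => by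
    rw [abs_mul, abs_pow]
    refine (mul_le_mul_of_nonneg_left h (by positivity)).trans ?_
    rw [← mul_pow]
    gcongr
  have e0 : pf A₂ Y (tl A₂ Y v) = 0 := by
    rw [tl, pf_sub_right, pf_smul_right, div_mul_cancel₀ _ D0, sub_self]
  have e1 : Y + ζ • v + g • bv 4 =
      Y + ζ • tl A₂ Y v + (g + ζ * (pf A₂ Y v / pf A₂ Y (bv 4))) • bv 4 := by
    rw [tl]; module
  have e2 : tl A₁ Y v = tl A₂ Y v + (-(pf A₁ Y (tl A₂ Y v) / pf A₁ Y (bv 4))) • bv 4 := by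
    simp only [tl, pf_sub_right, pf_smul_right, sub_div, mul_div_cancel_right₀ _ d0]
    module
  unfold Tame at T₁
  rw [e2, pf_add_left, pf_smul_left, pf_self, qf_add, qf_smul, pf_smul_right] at T₁
  rw [e1] at q3 p2 ⊢
  rw [qf3, e0] at q3
  rw [pf3] at p2
  rw [qf3, pf3]
  obtain ⟨c1, c2⟩ := real hD hd hL hK z2 q1 q2 (l1 _ ((div1 hD).trans T₂.1))
    (l2 _ ((div1 (one_le_pow₀ hD)).trans T₂.2)) (l1 _ T₁.1) (l2 _ T₁.2) q3 p2 hdom hε hα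
    rfl rfl rfl rfl
  refine ⟨c1.trans ?_, c2⟩
  have s1 : σ ^ 4 * x ^ j ≤ |ζ| ^ j :=
    (mul_le_mul_of_nonneg_right (pow_le_pow_of_le_one σ0.le σ1 hdom.2.1) (by positivity)).trans (by
      rw [← mul_pow]
      gcongr)
  rw [div_mul_eq_mul_div, le_div_iff₀ (by positivity)]
  calc _ = 100 * (|jet A₁ A₂ Y v j| * (σ ^ 4 * x ^ j)) := by field_simp
    _ ≤ _ := by gcongr

end Pool.Agent.MP_5168f5_an.R4
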