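import Pool.Agent.MP_5168f5_an.R4.SpecE1

/-! A full integer has two well separated companions. -/

namespace Pool.Agent.MP_5168f5_an.R4

open H19 H17S H17F Filter

namespace ESprA

theorem itv (x : ℤ) {r : ℝ} (hr : 0 ≤ r) :
    ∃ F : Finset ℤ, (F.card : ℝ) ≤ 2 * r + 1 ∧ ∀ y : ℤ, |(y : ℝ) - x| ≤ r → y ∈ F := by
  refine ⟨Finset.Icc (x - ⌊r⌋₊) (x + ⌊r⌋₊), ?_, fun y hy => ?_⟩
  · have h : (Finset.Icc (x - ⌊r⌋₊) (x + ⌊r⌋₊)).card = 2 * ⌊r⌋₊ + 1 := by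
      rw [Int.card_Icc]; omega
    rw [h]
    push_cast
    linarith [Nat.floor_le hr]
  · have h : (y - x).natAbs ≤ ⌊r⌋₊ := by
      refine Nat.le_floor ?_
      rw [Nat.cast_natAbs]
      push_cast
      exact hy
    rw [Finset.mem_Icc]
    omega

theorem two {Ω Γ : Type} (P : FP Ω) (T : Ω → ℤ) (Θ : Ω → Γ) {B D : ℝ} (hB : 0 ≤ B) (hD : 0 < D)
    (a : Ω) : ∃ F : Finset ℤ, (F.card : ℝ) ≤ 4 * (B / D) + 2 ∧ ∀ b ∈ P.S, Θ b = Θ a →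
      (¬∃ ω₁ ∈ P.S, ∃ ω₂ ∈ P.S, Θ ω₁ = Θ b ∧ Θ ω₂ = Θ b ∧ B ≤ D * |(T ω₁ : ℝ) - T b| ∧
        B ≤ D * |(T ω₂ : ℝ) - T b| ∧ B ≤ D * |(T ω₁ : ℝ) - T ω₂|) → T b ∈ F := by
  classical
  have hs : 0 ≤ B / D := by positivity
  have cl : ∀ x y : ℤ, ¬B ≤ D * |(y : ℝ) - x| → |(y : ℝ) - x| ≤ B / D := fun x y h => by
    rw [le_div_iff₀ hD]; linarith [not_le.1 h]
  by_cases h0 : ∃ b ∈ P.S, Θ b = Θ a ∧ ¬∃ ω₁ ∈ P.S, ∃ ω₂ ∈ P.S, Θ ω₁ = Θ b ∧ Θ ω₂ = Θ b ∧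
      B ≤ D * |(T ω₁ : ℝ) - T b| ∧ B ≤ D * |(T ω₂ : ℝ) - T b| ∧ B ≤ D * |(T ω₁ : ℝ) - T ω₂|
  swap
  · exact ⟨∅, by simpa using by positivity, fun b hb e h => absurd ⟨b, hb, e, h⟩ h0⟩
  obtain ⟨b0, -, e0, h0⟩ := h0
  obtain ⟨F0, c0, m0⟩ := itv (T b0) hs
  by_cases h1 : ∃ b ∈ P.S, Θ b = Θ a ∧ B ≤ D * |(T b : ℝ) - T b0|
  swap
  · exact ⟨F0, by linarith, fun b hb e _ => m0 _ (cl _ _ fun h => h1 ⟨b, hb, e, h⟩)⟩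
  obtain ⟨b1, hb1, e1, h1⟩ := h1
  obtain ⟨F1, c1, m1⟩ := itv (T b1) hs
  refine ⟨F0 ∪ F1, ?_, fun b hb e _ => ?_⟩
  · have : ((F0 ∪ F1).card : ℝ) ≤ F0.card + F1.card := by exact_mod_cast Finset.card_union_le _ _
    linarith
  · by_cases h2 : B ≤ D * |(T b : ℝ) - T b0|
    · exact Finset.mem_union_right _ (m1 _ (cl _ _ fun h3 =>
        h0 ⟨b, hb, b1, hb1, e.trans e0.symm, e1.trans e0.symm, h2, h1, h3⟩))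
    · exact Finset.mem_union_left _ (m0 _ (cl _ _ h2))

end ESprA

theorem rowESpr : ESpr := by
  intro Ω Γ P T Θ R k L hR hL hb hf
  refine ks.wsub P (fun n ω D => ∃ ω₁ ∈ (P n).S, ∃ ω₂ ∈ (P n).S, Θ n ω₁ = Θ n ω ∧
    Θ n ω₂ = Θ n ω ∧ 2 ^ k n ≤ D * |(T n ω₁ : ℝ) - T n ω| ∧
    2 ^ k n ≤ D * |(T n ω₂ : ℝ) - T n ω| ∧ 2 ^ k n ≤ D * |(T n ω₁ : ℝ) - T n ω₂|) R
    fun c hc _ => ?_
  have h := ks.spw P (fun n ω => ¬∃ ω₁ ∈ (P n).S, ∃ ω₂ ∈ (P n).S, Θ n ω₁ = Θ n ω ∧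
    Θ n ω₂ = Θ n ω ∧ 2 ^ k n ≤ Real.exp (c * R n) * |(T n ω₁ : ℝ) - T n ω| ∧
    2 ^ k n ≤ Real.exp (c * R n) * |(T n ω₂ : ℝ) - T n ω| ∧
    2 ^ k n ≤ Real.exp (c * R n) * |(T n ω₁ : ℝ) - T n ω₂|) T Θ R (fun n => 2 ^ k n)
    (fun n => 6 * L n) (min c (1 / 2)) hR (hL.const_mul hR (by norm_num)) (by positivity)
    (by simpa only [Real.log_pow, lg] using hf) ?_
  · simpa only [not_not] using h
  filter_upwards [hb] with n ⟨h1, h2⟩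
  have b1 : (1 : ℝ) ≤ 2 ^ k n := one_le_pow₀ one_le_two
  have l1 := hL.1 n
  have l2 : 1 ≤ L n * 2 ^ k n := one_le_mul_of_one_le_of_one_le l1 b1
  refine ⟨by positivity, fun a ha => ?_, fun a _ => ?_⟩
  · obtain ⟨F, c0, m0⟩ := ESprA.itv (T n a) (r := L n * 2 ^ k n) (by positivity)
    exact ⟨F, by linarith, fun b hb e => m0 _ (h2 b hb a ha e)⟩
  · obtain ⟨F, c0, m0⟩ := ESprA.two (P n) (T n) (Θ n) (B := 2 ^ k n) (by positivity)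
      (Real.exp_pos (c * R n)) a
    refine ⟨F, c0.trans ?_, m0⟩
    have r0 : (0 : ℝ) ≤ R n := Nat.cast_nonneg _
    have r1 : (R n : ℝ) ≤ k n := by exact_mod_cast h1
    have e1 : (2 : ℝ) ^ k n / Real.exp (c * R n) ≤ 2 ^ k n * Real.exp (-(min c (1 / 2) * R n)) := by
      rw [div_eq_mul_inv, ← Real.exp_neg]
      exact mul_le_mul_of_nonneg_left (Real.exp_le_exp.2 (neg_le_neg
        (mul_le_mul_of_nonneg_right (min_le_left _ _) r0))) (by positivity)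
    have e2 : 1 ≤ 2 ^ k n * Real.exp (-(min c (1 / 2) * R n)) := by
      rw [← Real.exp_log (show (0 : ℝ) < 2 ^ k n by positivity), ← Real.exp_add, Real.log_pow]
      refine Real.one_le_exp ?_
      nlinarith [Real.log_two_gt_d9, min_le_right c (1 / 2)]
    nlinarith

end Pool.Agent.MP_5168f5_an.R4
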