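import Pool.Agent.MP_5168f5_an.R4.SpecE2
import Pool.Agent.MP_5168f5_an.R4.ESpr

/-! A large derivative along a full coordinate forces a large derivative across. -/

namespace Pool.Agent.MP_5168f5_an.R4

open H19 H17S H17F Filter

namespace EDnA

theorem num {t B g g' s L u d d' x : ℝ} (hB : 0 < B) (hL : 1 ≤ L) (hs : |s| = 1)
    (h1 : 1 ≤ L * (s * g)) (h2 : 1 ≤ L * (s * g')) (hu : u ≤ x) (hd : d ≤ x) (hd' : d' ≤ x)
    (h : |t / B * (g + g')| ≤ L * u + L * (d + d')) : |t| ≤ 2 * (L * L * B * x) := by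
  have k1 : 2 ≤ L * |g + g'| := by
    have := le_abs_self (s * (g + g'))
    rw [abs_mul, hs, one_mul] at this
    nlinarith
  rw [abs_mul, abs_div, abs_of_pos hB] at h
  have k2 : 0 ≤ |t| / B := by positivity
  have k3 : |t| / B * |g + g'| ≤ 3 * (L * x) := by nlinarith
  have k4 : |t| / B * 2 ≤ L * (3 * (L * x)) := by
    nlinarith [mul_le_mul_of_nonneg_left k1 k2, mul_le_mul_of_nonneg_left k3 (zero_le_one.trans hL)]
  have k5 : 0 ≤ L * (L * x) := by linarith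
  have k6 : |t| / B ≤ 2 * (L * (L * x)) := by linarith
  rw [div_le_iff₀ hB] at k6
  linarith

end EDnA

theorem rowEDn : OfEDn := by
  intro _ Ω Γ P T Θ γ D R k L hR hL hb hf
  refine ks.wsub P (fun n ω y => 1 ≤ L n * |γ n ω| → 1 ≤ y * |D n ω|) R fun c hc _ => ?_
  have key : ∀ s : ℝ, |s| = 1 → Whp P fun n ω =>
      ¬(1 ≤ L n * (s * γ n ω) ∧ Real.exp (c * R n) * |D n ω| < 1) := fun s hs => by
    refine ks.spw P _ T Θ R (fun n => 2 ^ k n) (fun n => 5 * (L n * L n)) (min c (1 / 2)) hR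
      ((hL.mul hL).const_mul hR (by norm_num)) (by positivity)
      (by simpa only [Real.log_pow, lg] using hf) ?_
    filter_upwards [hb] with n ⟨h1, h2⟩
    have b1 : (1 : ℝ) ≤ 2 ^ k n := one_le_pow₀ one_le_two
    have l1 := hL.1 n
    have l2 : 1 ≤ L n * 2 ^ k n := one_le_mul_of_one_le_of_one_le l1 b1
    refine ⟨by positivity, fun a ha => ?_, fun a _ => ?_⟩
    · obtain ⟨F, c0, m0⟩ := ESprA.itv (T n a) (r := L n * 2 ^ k n) (by positivity)
      exact ⟨F, by nlinarith, fun b hb e => m0 _ (h2 b hb a ha e).1⟩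
    by_cases h0 : ∃ b ∈ (P n).S, Θ n b = Θ n a ∧
      1 ≤ L n * (s * γ n b) ∧ Real.exp (c * R n) * |D n b| < 1
    swap
    · exact ⟨∅, by simpa using by positivity, fun b hb e h => absurd ⟨b, hb, e, h⟩ h0⟩
    obtain ⟨b0, m0, e0, g0, d0⟩ := h0
    have r0 : (0 : ℝ) ≤ R n := Nat.cast_nonneg _
    have r1 : (R n : ℝ) ≤ k n := by exact_mod_cast h1
    obtain ⟨x, hx⟩ : ∃ x, x = Real.exp (-(min c (1 / 2) * R n)) := ⟨_, rfl⟩
    have x0 : 0 < x := hx ▸ Real.exp_pos _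
    have e1 : ∀ d : ℝ, Real.exp (c * R n) * d < 1 → d ≤ x := fun d h => by
      rw [← lt_div_iff₀' (Real.exp_pos _), one_div, ← Real.exp_neg] at h
      exact h.le.trans (hx ▸ Real.exp_le_exp.2 (neg_le_neg
        (mul_le_mul_of_nonneg_right (min_le_left _ _) r0)))
    have e2 : ∀ j : ℕ, R n ≤ j → ((2 : ℝ) ^ j)⁻¹ ≤ x := fun j h => by
      have : (R n : ℝ) ≤ j := by exact_mod_cast h
      rw [← Real.exp_log (show (0 : ℝ) < 2 ^ j by positivity), ← Real.exp_neg, Real.log_pow, hx]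
      refine Real.exp_le_exp.2 (neg_le_neg ?_)
      nlinarith [Real.log_two_gt_d9, min_le_right c (1 / 2)]
    have e3 : 1 ≤ 2 ^ k n * x := (inv_le_iff_one_le_mul₀' (by positivity)).1 (e2 _ h1)
    obtain ⟨F, c0, m1⟩ := ESprA.itv (T n b0) (r := 2 * (L n * L n * 2 ^ k n * x)) (by positivity)
    refine ⟨F, c0.trans ?_, fun b hb e h => m1 _ ?_⟩
    · rw [← hx]
      nlinarith [one_le_mul_of_one_le_of_one_le (one_le_mul_of_one_le_of_one_le l1 l1) e3]
    · exact EDnA.num (by positivity) l1 hs h.1 g0 (e2 _ le_rfl) (e1 _ h.2) (e1 _ d0)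
        (by simpa only [div_eq_mul_inv] using (h2 b hb b0 m0 (e.trans e0.symm)).2)
  refine ((key 1 abs_one).and (key (-1) (by simp))).mono
    (Eventually.of_forall fun n ω _ ⟨a, b⟩ h => ?_)
  by_contra e
  rcases abs_choice (γ n ω) with u | u <;> rw [u] at h
  · exact a ⟨by rwa [one_mul], not_le.1 e⟩
  · exact b ⟨by rwa [neg_one_mul], not_le.1 e⟩

end Pool.Agent.MP_5168f5_an.R4
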