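import Pool.Agent.MP_5168f5_an.R4.SpecE2

/-! Kakeya sets in four dimensions: a direction separated class is not broad. -/

namespace Pool.Agent.MP_5168f5_an.R4

open H19 H17S H17F Filter

namespace EEndA

theorem tele {f : ℝ → ℝ} (hf : ∀ c, 0 ≤ f c ∧ f c ≤ 3) {c₀ δ : ℝ} (h0 : 0 < c₀) (hδ : 0 < δ) :
    ∃ c h : ℝ, 0 ≤ c ∧ 0 < h ∧ c + h ≤ c₀ ∧ f (c + h) - f c < δ := by
  by_contra k
  push Not at k
  obtain ⟨m, hm⟩ := exists_nat_gt (3 / δ)
  have m0 : (0 : ℝ) < m := lt_trans (by positivity) hm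
  have h1 : 0 < c₀ / m := by positivity
  have h2 : ∀ i : ℕ, i ≤ m → i * δ ≤ f (i * (c₀ / m)) := fun i => by
    induction i with
    | zero => intro _; simpa using (hf 0).1
    | succ i ih =>
      intro hi
      have h3 : ((i + 1 : ℕ) : ℝ) ≤ m := by exact_mod_cast hi
      have h4 : ((i + 1 : ℕ) : ℝ) * (c₀ / m) = i * (c₀ / m) + c₀ / m := by push_cast; ring
      have h5 := k (i * (c₀ / m)) (c₀ / m) (by positivity) h1 (by
        rw [← h4]
        refine (mul_le_mul_of_nonneg_right h3 h1.le).trans_eq ?_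
        field_simp)
      rw [h4]
      push_cast
      linarith [ih (Nat.le_of_succ_le hi)]
  rw [div_lt_iff₀ hδ] at hm
  linarith [h2 m le_rfl, (hf (m * (c₀ / m))).2]

section One

variable {Ω Λ : Type} {P : FP Ω} (g : Geo 3 Ω) (S : Ω → Λ) {M : ℕ}

theorem near (hz : ∀ ω ∈ P.S, 0 ≤ g.z ω ∧ g.z ω < 1) :
    ch P (fun ω => fl M (g.pt ω)) (fun ω => (g.X M ω, S ω, g.zt ω)) ≤ 3 * Real.log 7 := by
  have := ch_near (P := P) (x := g.pt) (G := fun ω => (g.X M ω, S ω, g.zt ω)) (j := M) (L := 2)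
    zero_le_two fun a ha b _ e => by
      simp only [Geo.X, Geo.zt, Prod.mk.injEq] at e
      refine (pi_norm_le_iff_of_nonneg (by positivity)).2 fun i => ?_
      have h1 := abs_sub_lt_of_fl1_eq (congrFun e.1.1 i : fl1 M (g.a a i) = fl1 M (g.a b i))
      have h2 := abs_sub_lt_of_fl1_eq (congrFun e.1.2 i : fl1 M (g.e a i) = fl1 M (g.e b i))
      have h3 : (g.pt a - g.pt b) i = (g.a a i - g.a b i) + g.z a * (g.e a i - g.e b i) := by
        simp only [Geo.pt, Geo.lt, Pi.sub_apply, Pi.add_apply, Pi.smul_apply, smul_eq_mul,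
          ← e.2.2.1]
        ring
      have h4 : |g.z a * (g.e a i - g.e b i)| ≤ |g.e a i - g.e b i| := by
        rw [abs_mul, abs_of_nonneg (hz a ha).1]
        exact mul_le_of_le_one_left (abs_nonneg _) (hz a ha).2.le
      rw [Real.norm_eq_abs, h3, div_eq_mul_inv]
      linarith [abs_add_le (g.a a i - g.a b i) (g.z a * (g.e a i - g.e b i))]
  norm_num at this
  exact this

theorem low (j lo : ℕ) {hi : ℕ} (k : Bool) (h : hi ≤ M) :
    ch P (fun ω => fl M (g.pt ω)) (fun ω => (fl hi (g.pt ω), S ω, g.zt ω)) +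
      ch P (fun ω => fl1 hi (g.pt ω 0)) (fun ω => (fl1 j (g.pt ω 0), S ω, g.zt ω)) +
      ch P (fun ω => fl1 hi (g.sv k (fun _ => 0) ω)) (fun ω =>
        (fl1 lo (g.sv k (fun _ => 0) ω), fl1 M (g.pt ω 0), S ω, g.zt ω)) ≤
    ch P (fun ω => fl M (g.pt ω)) fun ω => (S ω, g.zt ω) := by
  have h1 := ch_chain (P := P) (fun ω => fl hi (g.pt ω)) (fun ω => fl M (g.pt ω))
    fun ω => (S ω, g.zt ω)
  have h2 : ch P (fun ω => (fl hi (g.pt ω), fl M (g.pt ω))) (fun ω => (S ω, g.zt ω)) ≤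
      ch P (fun ω => fl M (g.pt ω)) fun ω => (S ω, g.zt ω) :=
    ch_mono fun a _ b _ e => by
      have e1 : fl M (g.pt a) = fl M (g.pt b) := (Prod.ext_iff.1 e).1
      exact Prod.ext (flv_eq_of_le h e1) e1
  have h3 := ch_chain (P := P) (fun ω => fl1 hi (g.pt ω 0)) (fun ω => fl1 hi (g.pt ω (co k)))
    fun ω => (S ω, g.zt ω)
  have h4 : ch P (fun ω => (fl1 hi (g.pt ω 0), fl1 hi (g.pt ω (co k)))) (fun ω => (S ω, g.zt ω)) ≤
      ch P (fun ω => fl hi (g.pt ω)) fun ω => (S ω, g.zt ω) :=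
    ch_mono fun a _ b _ e => by
      have e1 : fl hi (g.pt a) = fl hi (g.pt b) := (Prod.ext_iff.1 e).1
      exact Prod.ext (congrFun e1 0) (congrFun e1 (co k))
  have h5 : ch P (fun ω => fl1 hi (g.pt ω 0)) (fun ω => (fl1 j (g.pt ω 0), S ω, g.zt ω)) ≤
      ch P (fun ω => fl1 hi (g.pt ω 0)) fun ω => (S ω, g.zt ω) := ch_anti (Fn.snd _ _)
  have h6 : ch P (fun ω => fl1 hi (g.pt ω (co k))) (fun ω =>
        (fl1 lo (g.pt ω (co k)), fl1 M (g.pt ω 0), S ω, g.zt ω)) ≤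
      ch P (fun ω => fl1 hi (g.pt ω (co k))) fun ω => (fl1 hi (g.pt ω 0), S ω, g.zt ω) :=
    ch_anti fun a _ b _ e => by
      simp only [Prod.mk.injEq] at e ⊢
      exact ⟨fl1_eq_of_le h e.2.1, e.2.2⟩
  simp only [Geo.sv, zero_mul, sub_zero]
  linarith

theorem up (j : ℕ) (hz : ∀ ω ∈ P.S, 0 ≤ g.z ω ∧ g.z ω < 1) :
    ch P (fun ω => fl1 M (g.e ω 0)) (g.fp fun _ => M) +
      ch P (fun ω => fl M (g.pt ω)) (fun ω => (S ω, g.zt ω)) ≤
    (g.fat fun _ => M).lk P S + ch P (fun ω => fl M (g.e ω)) (fun ω => (S ω, fl1 j (g.z ω))) +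
      ch P (g.X M) (fun ω => (fl M (g.e ω), g.θ ω)) + 3 * Real.log 7 := by
  have h1 : mi P (fun ω => fl1 M (g.e ω 0)) S (g.fp fun _ => M) ≤ (g.fat fun _ => M).lk P S := by
    rw [mi_symm]
    refine mi_mono fun a _ b _ e => ?_
    simp only [Geo.core, Geo.ln, Prod.mk.injEq] at e
    simp only [e.1.1.2.1]
  have h2 : ch P (fun ω => fl1 M (g.e ω 0)) (fun ω => (S ω, g.fp (fun _ => M) ω)) ≤
      ch P (g.X M) fun ω => (fl M (g.pt ω), S ω, g.zt ω) :=
    ch_le (fun a _ b _ e => congrFun (Prod.ext_iff.1 (Prod.ext_iff.1 e).1).2 0) fun a _ b _ e => by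
      simp only [Geo.fp, Geo.zt, Prod.mk.injEq] at e ⊢
      exact ⟨e.2.1, e.1, e.2.2⟩
  have h3 := ch_symm (P := P) (g.X M) (fun ω => fl M (g.pt ω)) fun ω => (S ω, g.zt ω)
  have h4 := ch_tri (P := P) (g.X M) (fun ω => fl M (g.e ω)) fun ω => (S ω, g.zt ω)
  have h5 : ch P (fun ω => fl M (g.e ω)) (fun ω => (S ω, g.zt ω)) ≤
      ch P (fun ω => fl M (g.e ω)) fun ω => (S ω, fl1 j (g.z ω)) :=
    ch_anti fun a _ b _ e => by
      simp only [Geo.zt, Prod.mk.injEq] at e ⊢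
      exact ⟨e.1, congrArg _ e.2.1⟩
  have h6 : ch P (g.X M) (fun ω => (fl M (g.e ω), S ω, g.zt ω)) ≤
      ch P (g.X M) fun ω => (fl M (g.e ω), g.θ ω) :=
    ch_anti fun a _ b _ e => by
      simp only [Geo.zt, Prod.mk.injEq] at e ⊢
      exact ⟨e.1, e.2.2.2⟩
  unfold mi at h1
  linarith [near (M := M) g S hz]

theorem bx_mono {N : ℕ} {g : Geo N Ω} {L L' : ℝ} (h : g.Bx P L) (e : L ≤ L') : g.Bx P L' :=
  ⟨fun ω hω => ⟨fun i => ⟨((h.bd ω hω).1 i).1.trans e, ((h.bd ω hω).1 i).2.trans e⟩,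
    (h.bd ω hω).2⟩, h.fz, h.fθ⟩

end One

theorem le_max {M : ℕ → ℕ} {a b : ℕ → ℕ} {f : ℕ → ℝ} (h : Le M (fun n => a n) f)
    (h' : Le M (fun n => b n) f) : Le M (fun n => (max (a n) (b n) : ℕ)) f := fun ε hε => by
  filter_upwards [h ε hε, h' ε hε] with n u v
  rw [Nat.cast_max]
  exact max_le u v

end EEndA

open EEndA in
theorem rowEEnd : OfEndA := by
  intro ⟨C, hC, ek⟩ hpr fb fq Ω K g M η F go ds
  obtain ⟨X, hX⟩ := go.cls.ne
  have p := hpr K g M η F go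
  have bs := go.cls.bs X hX
  have hM := bs.big
  have η0 := go.cls.pos
  obtain ⟨c, h, c0, h0, c1, c2⟩ := tele (f := fun c => pr M F iQ c + pr M F (iU false) c +
    pr M F (iU true) c) (fun c => by
      have := p.bd iQ c
      have := p.bd (iU false) c
      have := p.bd (iU true) c
      constructor <;> linarith) (lt_min one_pos (show 0 < η / 12 by positivity)) (half_pos η0)
  obtain ⟨c3, c4⟩ := le_min_iff.1 c1
  obtain ⟨j, hj⟩ : ∃ j, j = lev M c := ⟨_, rfl⟩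
  obtain ⟨j', hj'⟩ : ∃ j', j' = lev M (c + h / 3) := ⟨_, rfl⟩
  have j1 : ∀ n, j n ≤ M n := fun n => hj ▸ lev_le M (by linarith) n
  have j2 : ∀ n, j' n ≤ M n := fun n => hj' ▸ lev_le M (by linarith) n
  have j3 : ∀ᶠ n in UF, j n + h / 6 * M n ≤ j' n := hj ▸ hj' ▸ lev_gap hM c0 (by linarith)
  have j4 : Le M (fun n => j n) fun n => c * M n := hj ▸ (lev_eqv hM c0).1
  obtain ⟨k, hk⟩ := ev_ex (p := fun k n => ∀ k', (F n).τ (iU k) (j n) ≤ (F n).τ (iU k') (j n))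
    (Eventually.of_forall fun n => Finite.exists_min fun k => (F n).τ (iU k) (j n))
  have ok := go.opt.ok X hX
  have lab := ok.lab j
  obtain ⟨L₁, s1, a1⟩ := ok.alg
  obtain ⟨L₂, s2, a2⟩ := bs.bx
  obtain ⟨lo, hlo⟩ : ∃ lo : ℕ → ℕ, ∀ n, lo n = max ((F n).τ (iU k) (j' n)) (j n) := ⟨_, fun _ => rfl⟩
  obtain ⟨hi, hhi⟩ : ∃ hi : ℕ → ℕ, ∀ n, hi n = min (M n) (max ((F n).τ iQ (j' n)) (lo n)) :=
    ⟨_, fun _ => rfl⟩
  have i1 : ∀ n, j n ≤ j n ∧ j n ≤ hi n ∧ hi n ≤ M n := fun n => by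
    have := j1 n
    have := hlo n
    have := hhi n
    omega
  have i2 : ∀ᶠ n in UF, (F n).τ iQ (j' n) ≤ hi n ∧ lo n ≤ hi n := a1.mono fun n u => by
    have := j1 n
    have := hlo n
    have := hhi n
    have : (F n).τ iQ (j' n) ≤ M n := u.le iQ (j' n)
    have : (F n).τ (iU k) (j' n) ≤ M n := u.le (iU k) (j' n)
    omega
  have q1 := fq K g M η F X _ j j' hi M (h / 6) go hX lab (by positivity) (by
    filter_upwards [j3, i2] with n u v using ⟨u, j2 n, v.1, (i1 n).2.1, (i1 n).2.2, le_rfl⟩)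
  have q2 : Le M (fun n => (hi n - j n : ℝ) * lg) fun n =>
      ch (X n).Q (fun v => fl1 (hi n) ((X.G g n).pt v 0)) fun v =>
        (fl1 (j n) ((X.G g n).pt v 0), (F n).S (j n) ((X n).ρ v), (X.G g n).zt v) :=
    xa K (g.fin M) M j j hi 0 η X _ go.cls.toCls0 hX lab
    ⟨fun _ => 1, hM.sub le_rfl, Eventually.of_forall fun n a _ b _ e => by
      refine (abs_sub_lt_of_fl1_eq (fl1_eq_of_le (i1 n).2.2
        (congrFun (Prod.ext_iff.1 e).1 0))).le.trans_eq (inv_eq_one_div _)⟩ i1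
  have q3 := fb K g M η F X _ (fun _ _ => 0) (fun _ => 1) false k j j' lo hi (h / 6) go hX lab
    (hM.sub le_rfl) (by positivity) (by
      filter_upwards [j3, i2] with n u v
      exact ⟨⟨u, j2 n, hlo n ▸ le_max_left _ _, hlo n ▸ le_max_right _ _, v.2, (i1 n).2.2⟩,
        fun _ _ _ _ _ => rfl, fun _ _ => ⟨by simp, fun _ => rfl⟩⟩)
  have q4 : Le M (fun n => η * M n * lg) fun n =>
      ch (X n).Q (fun v => fl1 (M n) ((X.G g n).e v 0)) ((X.G g n).fp fun _ => M n) :=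
    go.cls.br X hX M fun _ => le_rfl
  have q6 : Sm M fun n => ((X.G g n).fat fun _ => M n).lk (X n).Q fun v =>
      (F n).S (j n) ((X n).ρ v) := lab.l
  have q5 : Le M (fun n => ch (X n).Q (fun v => fl (M n) ((X.G g n).e v)) fun v =>
      ((F n).S (j n) ((X n).ρ v), fl1 (j n) ((X.G g n).z v))) fun n =>
      (3 * M n + 3 * j n - (F n).τ iQ (j n) - (F n).τ (iU k) (j n) : ℝ) * lg := by
    refine (((hM.sm 1).add (s1.mul s2).log).smul hC).of_sub ?_
    filter_upwards [a1, a2, hk] with n u v w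
    have m1 : L₁ n ≤ L₁ n * L₂ n := le_mul_of_one_le_right (s1.pos n).le (s2.1 n)
    have m2 : L₂ n ≤ L₁ n * L₂ n := le_mul_of_one_le_left (s2.pos n).le (s1.1 n)
    have := ek (X n).Q (X.G (g.fin M) n) (fun v => (F n).S (j n) ((X n).ρ v))
      (fun v => (F n).d iQ (j n) ((X n).ρ v)) (fun k v => (F n).d (iU k) (j n) ((X n).ρ v))
      (L₁ n * L₂ n) (j n) ((F n).τ iQ (j n)) ((F n).τ (iU k) (j n)) (M n)
      (fun k => (F n).τ (iU k) (j n)) ((s1.mul s2).1 n) (bx_mono v m2) (u.fd iQ (j n))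
      (fun k' => ⟨u.fd (iU k') (j n), w k'⟩) (u.le iQ (j n)) (u.le (iU k) (j n)) fun ω hω =>
        ⟨(qd_ok _).monoL _ _ _ _ _ _ m1 (u.fit iQ (j n) ω hω),
          fun k' => (kp.ok _ _ _).monoL _ _ _ _ _ _ m1 (u.fit (iU k') (j n) ω hω)⟩
    linarith
  have r1 : Le M (fun n => η * M n * lg) fun n =>
      (4 * j n + hi n + lo n - (F n).τ iQ (j n) - (F n).τ (iU k) (j n) : ℝ) * lg := by
    refine (((q1.add q2).add q3).add q4).of5 q5 q6 (ds X hX) (hM.sm (3 * Real.log 7)) ?_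
    filter_upwards [a2] with n v
    have u1 := up (M := M n) (X.G g n) (fun v => (F n).S (j n) ((X n).ρ v)) (j n)
      fun ω hω => (v.bd ω hω).2
    have u2 := low (P := (X n).Q) (X.G g n) (fun v => (F n).S (j n) ((X n).ρ v)) (j n) (lo n) k
      (i1 n).2.2
    linarith
  have r2 : Le M (fun n => η * M n) fun n =>
      (4 * j n + hi n + lo n - (F n).τ iQ (j n) - (F n).τ (iU k) (j n) : ℝ) :=
    Le.of_mul (p := fun _ => lg) lg_pos (Eventually.of_forall fun _ => le_rfl)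
      (r1.congr (Eventually.of_forall fun _ => mul_comm _ _)
        (Eventually.of_forall fun _ => mul_comm _ _))
  have t1 := (hj ▸ p.eqv iQ c).2
  have t2 := (hj ▸ p.eqv (iU k) c).2
  have t3 := (hj' ▸ p.eqv iQ (c + h / 3)).1
  have t4 := (hj' ▸ p.eqv (iU k) (c + h / 3)).1
  have y1 : pr M F iQ (c + h / 3) ≤ pr M F iQ (c + h) := p.mono iQ (by linarith)
  have y2 : pr M F (iU k) (c + h / 3) ≤ pr M F iQ (c + h) :=
    (p.uh k _ (c + 2 * h / 3) (by linarith) (by linarith) (by linarith)).trans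
      (p.hq k _ _ (by linarith) (by linarith) c3)
  have y3 : pr M F (iU k) (c + h / 3) ≤ pr M F (iU k) (c + h) := p.mono _ (by linarith)
  have t5 := le_max (t3.trans (Le.of_le fun n => mul_le_mul_of_nonneg_right y1 (Nat.cast_nonneg _)))
    (t4.trans (Le.of_le fun n => mul_le_mul_of_nonneg_right y2 (Nat.cast_nonneg _)))
  have r3 : η ≤ 6 * c + pr M F iQ (c + h) + pr M F (iU k) (c + h / 3) - pr M F iQ c -
      pr M F (iU k) c := by
    refine Le.num hM (r2.of6 (j4.smul (by norm_num : (0 : ℝ) ≤ 6)) t1 t2 t4 t5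
      (Eventually.of_forall fun n => ?_))
    have e1 : hi n ≤ max ((F n).τ iQ (j' n)) ((F n).τ (iU k) (j' n)) + j n := by
      have := hlo n
      have := hhi n
      omega
    have e2 : lo n ≤ (F n).τ (iU k) (j' n) + j n := by
      have := hlo n
      omega
    have e3 : (hi n : ℝ) ≤ (max ((F n).τ iQ (j' n)) ((F n).τ (iU k) (j' n)) : ℕ) + j n := by
      exact_mod_cast e1
    have e4 : (lo n : ℝ) ≤ (F n).τ (iU k) (j' n) + j n := by exact_mod_cast e2
    linarith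
  have y4 : pr M F (iU false) c ≤ pr M F (iU false) (c + h) := p.mono _ (by linarith)
  have y5 : pr M F (iU true) c ≤ pr M F (iU true) (c + h) := p.mono _ (by linarith)
  cases k <;> linarith

end Pool.Agent.MP_5168f5_an.R4
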