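import Pool.Agent.MP_5168f5_an.R4.SpecE1

/-! Kakeya sets in four dimensions: linear and quadratic forms on a grid. -/

namespace Pool.Agent.MP_5168f5_an.R4

open H19 H17S H17F

namespace EGridA

theorem uniq {a b : ℝ} {i i' j : Fin 4} (h : 7 * |a + ((i : ℕ) : ℝ) * b| < |a + ((j : ℕ) : ℝ) * b|)
    (h' : 7 * |a + ((i' : ℕ) : ℝ) * b| < |a + ((j : ℕ) : ℝ) * b|) : i' = i := by
  by_contra e
  have h1 : (1 : ℝ) ≤ |((i' : ℕ) : ℝ) - (i : ℕ)| := by
    have := Int.one_le_abs (sub_ne_zero.2 (show ((i' : ℕ) : ℤ) ≠ (i : ℕ) from fun c =>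
      e (Fin.ext (by exact_mod_cast c))))
    exact_mod_cast this
  have h2 : |((j : ℕ) : ℝ) - (i : ℕ)| ≤ 3 := by
    have a1 : ((i : ℕ) : ℝ) ≤ 3 := by exact_mod_cast Nat.le_of_lt_succ i.2
    have a2 : ((j : ℕ) : ℝ) ≤ 3 := by exact_mod_cast Nat.le_of_lt_succ j.2
    rw [abs_le]
    constructor <;> linarith [Nat.cast_nonneg (α := ℝ) i, Nat.cast_nonneg (α := ℝ) j]
  have h3 := abs_sub (a + ((i' : ℕ) : ℝ) * b) (a + ((i : ℕ) : ℝ) * b)
  have h4 := abs_add_le (a + ((i : ℕ) : ℝ) * b) ((((j : ℕ) : ℝ) - (i : ℕ)) * b)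
  rw [add_sub_add_left_eq_sub, ← sub_mul, abs_mul] at h3
  rw [add_assoc, ← add_mul, add_sub_cancel, abs_mul] at h4
  nlinarith [abs_nonneg b]

theorem row {q : Fin 4 → ℝ} {a b η : ℝ} (hq : q 0 - 3 * q 1 + 3 * q 2 - q 3 = 0)
    (h : ∀ i : Fin 4, |q i| * |a + ((i : ℕ) : ℝ) * b| ≤ η) (i j : Fin 4) :
    |q i| * |a + ((j : ℕ) : ℝ) * b| ≤ 49 * η := by
  have h0 : 0 ≤ η := le_trans (by positivity) (h 0)
  have g : ∀ k : Fin 4, ¬7 * |a + ((k : ℕ) : ℝ) * b| < |a + ((j : ℕ) : ℝ) * b| →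
      |q k * abs (a + ((j : ℕ) : ℝ) * b)| ≤ 7 * η := fun k hk => by
    rw [abs_mul, abs_abs]
    nlinarith [h k, mul_le_mul_of_nonneg_left (not_lt.1 hk) (abs_nonneg (q k))]
  rw [← abs_abs (a + _), ← abs_mul]
  by_cases hb : 7 * |a + ((i : ℕ) : ℝ) * b| < |a + ((j : ℕ) : ℝ) * b|
  swap
  · linarith [g i hb]
  have g' : ∀ k, k ≠ i → |q k * abs (a + ((j : ℕ) : ℝ) * b)| ≤ 7 * η := fun k hk =>
    g k fun c => hk (uniq hb c)
  generalize abs (a + ((j : ℕ) : ℝ) * b) = M at g' ⊢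
  have e : q 0 * M - 3 * (q 1 * M) + 3 * (q 2 * M) - q 3 * M = 0 := by linear_combination M * hq
  simp only [abs_le] at g' ⊢
  have : i = 0 ∨ i = 1 ∨ i = 2 ∨ i = 3 := by fin_cases i <;> simp
  rcases this with rfl | rfl | rfl | rfl
  · constructor <;> linarith [g' 1 (by decide), g' 2 (by decide), g' 3 (by decide)]
  · constructor <;> linarith [g' 0 (by decide), g' 2 (by decide), g' 3 (by decide)]
  · constructor <;> linarith [g' 0 (by decide), g' 1 (by decide), g' 3 (by decide)]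
  · constructor <;> linarith [g' 0 (by decide), g' 1 (by decide), g' 2 (by decide)]

theorem qf_dir (A : Qd) (U : Fin 3 → V 5) (i k : Fin 4) : qf A (dir U (i, k)) =
    qf A (U 0) + (i : ℕ) * pf A (U 0) (U 1) + (k : ℕ) * pf A (U 0) (U 2) +
      ((i : ℕ) : ℝ) ^ 2 * qf A (U 1) + (i : ℕ) * (k : ℕ) * pf A (U 1) (U 2) +
        ((k : ℕ) : ℝ) ^ 2 * qf A (U 2) := by
  simp only [dir, qf_add, qf_smul, pf_add_left, pf_smul_left, pf_smul_right]; ring

theorem lin (l : Fin 3 → ℝ) (η : ℝ)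
    (h : ∀ i : Fin 4 × Fin 4, |l 0 + ((i.1 : ℕ) : ℝ) * l 1 + ((i.2 : ℕ) : ℝ) * l 2| ≤ η) (a : Fin 3) :
    |l a| ≤ 2 * η := by
  have h0 := h (0, 0)
  have h1 := h (1, 0)
  have h2 := h (0, 1)
  norm_num [abs_le] at h0 h1 h2
  have : a = 0 ∨ a = 1 ∨ a = 2 := by fin_cases a <;> simp
  rw [abs_le]
  rcases this with rfl | rfl | rfl <;> constructor <;> linarith

theorem quad (A : Qd) (U : Fin 3 → V 5) (η : ℝ) (h : ∀ i, |qf A (dir U i)| ≤ η) (a b : Fin 3) :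
    |pf A (U a) (U b)| ≤ 20 * η := by
  have h0 := h (0, 0)
  have h1 := h (1, 0)
  have h2 := h (0, 1)
  have h3 := h (2, 0)
  have h4 := h (0, 2)
  have h5 := h (1, 1)
  rw [qf_dir] at h0 h1 h2 h3 h4 h5
  norm_num [abs_le] at h0 h1 h2 h3 h4 h5
  have ha : a = 0 ∨ a = 1 ∨ a = 2 := by fin_cases a <;> simp
  have hb : b = 0 ∨ b = 1 ∨ b = 2 := by fin_cases b <;> simp
  have e1 := pf_comm A (U 1) (U 0)
  have e2 := pf_comm A (U 2) (U 0)
  have e3 := pf_comm A (U 2) (U 1)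
  have e4 := pf_self A (U 0)
  have e5 := pf_self A (U 1)
  have e6 := pf_self A (U 2)
  rw [abs_le]
  rcases ha with rfl | rfl | rfl <;> rcases hb with rfl | rfl | rfl <;> constructor <;> linarith

end EGridA

open EGridA in
theorem rowEGrid : EGrid := by
  refine ⟨lin, quad, fun A U l η h a b c => ?_⟩
  have h0 : 0 ≤ η := le_trans (by positivity) (h (0, 0))
  have h1 : ∀ i k k' : Fin 4, |qf A (dir U (i, k))| *
      |l 0 + ((i : ℕ) : ℝ) * l 1 + ((k' : ℕ) : ℝ) * l 2| ≤ 49 * η := fun i k k' =>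
    row (q := fun k => qf A (dir U (i, k))) (by simp only [qf_dir]; norm_num; ring)
      (fun k => h (i, k)) k k'
  have h2 : ∀ i k i' k' : Fin 4, |qf A (dir U (i, k))| *
      |l 0 + ((i' : ℕ) : ℝ) * l 1 + ((k' : ℕ) : ℝ) * l 2| ≤ 49 * (49 * η) := fun i k i' k' => by
    rw [add_right_comm]
    exact row (q := fun i => qf A (dir U (i, k))) (by simp only [qf_dir]; norm_num; ring)
      (fun i => by rw [add_right_comm]; exact h1 i k k') i i'
  have h3 : ∀ i, |qf A (dir U i)| * |l c| ≤ 2 * (49 * (49 * η)) := fun i => by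
    have := lin (fun a => qf A (dir U i) * l a) (49 * (49 * η)) (fun j => by
      refine le_trans (le_of_eq ?_) (h2 i.1 i.2 j.1 j.2)
      rw [← abs_mul]; congr 1; ring) c
    rwa [abs_mul] at this
  rcases (abs_nonneg (l c)).eq_or_lt with e | e
  · rw [← e, mul_zero]; positivity
  · have := quad A U _ (fun i => (le_div_iff₀ e).2 (h3 i)) a b
    rw [← mul_div_assoc, le_div_iff₀ e] at this
    linarith

end Pool.Agent.MP_5168f5_an.R4
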