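import Pool.Agent.MP_5168f5_an.R4.SpecE1

/-! Row EJet: homogeneity of the jets and a priori bounds. -/

namespace Pool.Agent.MP_5168f5_an.R4

open H19 H17S H17F Matrix

namespace EJetA

theorem ml {x y X Y : ℝ} (h : |x| ≤ X) (h' : |y| ≤ Y) : |x * y| ≤ X * Y := by
  rw [abs_mul]; exact mul_le_mul h h' (abs_nonneg _) ((abs_nonneg _).trans h)

theorem ad {x y X Y : ℝ} (h : |x| ≤ X) (h' : |y| ≤ Y) : |x + y| ≤ X + Y :=
  (abs_add_le _ _).trans (add_le_add h h')

theorem sb {x y X Y : ℝ} (h : |x| ≤ X) (h' : |y| ≤ Y) : |x - y| ≤ X + Y :=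
  (abs_sub _ _).trans (add_le_add h h')

theorem dv {x X D : ℝ} (h : |x| ≤ X) (hD : 1 ≤ D) : |x / D| ≤ X := by
  rw [abs_div, abs_of_pos (one_pos.trans_le hD)]
  exact (div_le_self (abs_nonneg _) hD).trans h

theorem mq {q x C L ε : ℝ} (h : |q| * ε ≤ L) (h' : |x| ≤ C * ε) (hC : 0 ≤ C) :
    |q * x| ≤ C * L := by
  rw [abs_mul]
  nlinarith [mul_le_mul_of_nonneg_left h' (abs_nonneg q), mul_le_mul_of_nonneg_left h hC]

theorem tl_smul (A : Qd) (Y v : V 5) (s : ℝ) : tl A Y (s • v) = s • tl A Y v := by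
  rw [tl, tl, pf_smul_right, smul_sub, smul_smul, mul_div_assoc]

theorem tl_add (A : Qd) (Y v v' : V 5) : tl A Y (v + v') = tl A Y v + tl A Y v' := by
  rw [tl, tl, tl, pf_add_right, add_div, add_smul]; abel

theorem qf_sub (A : Qd) (v e : V 5) (k : ℝ) :
    qf A (v - k • e) = qf A v - k * pf A v e + k * (qf A e * k) := by
  rw [sub_eq_add_neg, ← neg_smul, qf_add, qf_smul, pf_smul_right]; ring

theorem bd {A : Qd} {v e : V 5} {k L ε : ℝ} (hL : 1 ≤ L) (hε : 0 < ε) (hk : |k| ≤ L * ε)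
    (h1 : |qf A v| ≤ L * ε) (h2 : |pf A v e| ≤ L) (h3 : |qf A e| * ε ≤ L) :
    |pf A (v - k • e) e| ≤ 3 * L ^ 2 ∧ |qf A (v - k • e)| ≤ 3 * L ^ 3 * ε := by
  have h4 := mq h3 hk (zero_le_one.trans hL)
  have p1 : L ≤ L ^ 2 := by nlinarith
  have p2 : L ^ 2 ≤ L ^ 3 := by nlinarith
  constructor
  · have e1 : pf A (v - k • e) e = pf A v e - (qf A e * k + qf A e * k) := by
      rw [pf_sub_left, pf_smul_left, pf_self]; ring
    rw [e1]
    exact (sb h2 (ad h4 h4)).trans (by nlinarith)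
  · rw [qf_sub]
    exact (ad (sb h1 (ml hk h2)) (ml hk h4)).trans (by nlinarith)

end EJetA

open EJetA in
theorem rowEJet : EJet where
  tl A Y v v' s := ⟨tl_smul A Y v s, tl_add A Y v v'⟩
  jet A₁ A₂ Y v s i := by
    match i with
    | 0 => simp [jet]
    | 1 => simp only [jet, tl_smul, pf_smul_right]; ring
    | 2 => simp only [jet, tl_smul, pf_smul_right, pf_smul_left, qf_smul]; ring
    | 3 => simp only [jet, tl_smul, pf_smul_right, pf_smul_left, qf_smul]; ring
    | 4 => simp only [jet, tl_smul, qf_smul]; ring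
    | n + 5 => simp [jet]
  tame A Y v s Λ h := by
    refine ⟨?_, ?_⟩
    · rw [tl_smul, pf_smul_left]
      exact ml (abs_abs s).ge h.1 |>.trans (by rw [abs_abs])
    · rw [tl_smul, qf_smul, mul_left_comm, mul_pow]
      exact ml (by rw [abs_pow]) h.2
  apr A₁ A₂ Y v L ε hL hε hD hD1 a1 a2 c1 c2 b1 b2 q1 q2 i := by
    have hk := dv a2 hD
    have ht := dv hD1 hD
    have h0 : 0 ≤ L := zero_le_one.trans hL
    obtain ⟨B1, C1⟩ := bd hL hε hk c1 b1 q1
    obtain ⟨B2, C2⟩ := bd hL hε hk c2 b2 q2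
    have hP : ∀ i, i ≤ 10 → L ^ i * ε ≤ L ^ 10 * ε := fun i hi =>
      mul_le_mul_of_nonneg_right (pow_le_pow_right₀ hL hi) hε.le
    have hz : 0 ≤ L ^ 10 * ε := by positivity
    have hA : |-pf A₁ Y (tl A₂ Y v)| ≤ L * ε + L * ε * L := by
      rw [abs_neg, tl, pf_sub_right, pf_smul_right]
      exact sb a1 (ml hk hD1)
    match i with
    | 0 => simp only [jet, abs_zero]; linarith
    | 1 => exact hA.trans (by linarith [hP 1 (by omega), hP 2 (by omega)])
    | 2 =>
      exact (ad (ml hA (dv B2 hD)) (sb C1 (ml ht C2))).trans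
        (by linarith [hP 3 (by omega), hP 4 (by omega)])
    | 3 =>
      exact (ad (ml hA (dv (mq q2 C2 (by positivity)) (one_le_pow₀ hD)))
        (ml (dv C2 hD) (sb B1 (ml ht B2)))).trans
        (by linarith [hP 5 (by omega), hP 6 (by omega)])
    | 4 =>
      have C3 := dv C2 hD
      have e1 : ∀ c x y t : ℝ, c ^ 2 * (x - t * y) = c * (x * c - t * (y * c)) := fun c x y t => by
        ring
      rw [jet, e1]
      exact (ml C3 (sb (mq q1 C3 (by positivity)) (ml ht (mq q2 C3 (by positivity))))).trans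
        (by linarith [hP 7 (by omega), hP 8 (by omega)])
    | n + 5 => simp only [jet, abs_zero]; linarith

end Pool.Agent.MP_5168f5_an.R4
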