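import Pool.Agent.MP_5168f5_an.R4.SpecE2

/-! Extension step for quadrics: the tangent hyperplanes are close. -/

namespace Pool.Agent.MP_5168f5_an.R4

open H19 H17S H17F Matrix Filter

namespace ERnd1A

variable {A₁ A₂ : Qd} {Y O Z E : V 5} {W l : Fin 3 → V 5} {s₀ Λ η H Γ : ℝ}

theorem par (h : RG A₁ A₂ Y O Z E W l s₀ Λ η H Γ) (s : ℝ) : Z + s • E =
    Y + ∑ a, (l a ⬝ᵥ (Z - Y) + s * (l a ⬝ᵥ E)) • W a + ((Z - Y) 4 + s * E 4) • bv 4 := by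
  have e := h.dec (Z - Y + s • E)
  have e0 : (Z - Y + s • E) 0 = 0 := by simp [h.one.1, h.one.2.1, h.one.2.2]
  simp only [e0, zero_smul, zero_add, dotProduct_add, dotProduct_smul, smul_eq_mul] at e
  rw [add_assoc]
  exact (show Z + s • E = Y + (Z - Y + s • E) by abel).trans (congrArg (Y + ·) e)

theorem anc_spec (h : RG A₁ A₂ Y O Z E W l s₀ Λ η H Γ) : 1 / 6 ≤ |pf A₁ (anc A₁ Z E) (bv 4)| ∧
    ∃ s : ℝ, 0 ≤ s ∧ s < 1 ∧ anc A₁ Z E = Z + s • E := by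
  unfold anc
  split_ifs with c
  · exact ⟨c, 0, le_rfl, one_pos, by simp⟩
  · refine ⟨le_trans ?_ (le_abs_self _), 1 / 2, by norm_num, by norm_num, rfl⟩
    have d := h.d
    obtain ⟨-, -, h0, h1⟩ := h.pos
    obtain ⟨c1, c2⟩ := abs_lt.1 (not_le.1 c)
    rw [pf_add_left, pf_smul_left] at d ⊢
    by_contra k
    push Not at k
    rcases le_total s₀ (1 / 2) with u | u <;> nlinarith

theorem dot_le (h : RG A₁ A₂ Y O Z E W l s₀ Λ η H Γ) {s : ℝ} (h0 : 0 ≤ s) (h1 : s < 1)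
    (a : Fin 3) : |l a ⬝ᵥ (Z + s • E)| ≤ 3 * Λ := by
  obtain ⟨b1, b2, b3⟩ := h.bd a
  obtain ⟨p1, -, p2, p3⟩ := h.pos
  have e : l a ⬝ᵥ (Z + s • E) =
      l a ⬝ᵥ Y + l a ⬝ᵥ (Z + s₀ • E - Y) + (s - s₀) * (l a ⬝ᵥ E) := by
    simp only [dotProduct_add, dotProduct_sub, dotProduct_smul, smul_eq_mul]; ring
  have k1 : |(s - s₀) * (l a ⬝ᵥ E)| ≤ Λ := by
    rw [abs_mul]
    exact (mul_le_of_le_one_left (abs_nonneg _) (abs_le.2 ⟨by linarith, by linarith⟩)).trans b2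
  have k2 : |l a ⬝ᵥ (Z + s₀ • E - Y)| ≤ Λ := by
    nlinarith [abs_nonneg (l a ⬝ᵥ (Z + s₀ • E - Y))]
  rw [e]
  linarith [abs_add_three (l a ⬝ᵥ Y) (l a ⬝ᵥ (Z + s₀ • E - Y)) ((s - s₀) * (l a ⬝ᵥ E))]

theorem hyp_succ {X : V 5} (h : pf A₁ X (bv 4) ≠ 0) (a : Fin 3) :
    (hyp A₁ X O W - hyp A₂ Y O W) a.succ = -pf A₁ X (tl A₂ Y (W a)) / pf A₁ X (bv 4) := by
  simp only [hyp, tl, Pi.sub_apply, Fin.cons_succ, pf_sub_right, pf_smul_right]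
  field_simp
  ring

theorem hyp_zero {X : V 5} {c : Fin 3 → ℝ} {t : ℝ} (h : pf A₁ X (bv 4) ≠ 0)
    (h' : pf A₂ Y (bv 4) ≠ 0) (e : X - O = ∑ a, c a • W a + t • bv 4) :
    (hyp A₁ X O W - hyp A₂ Y O W) 0 =
      ht A₂ Y X - ∑ a, c a * (hyp A₁ X O W - hyp A₂ Y O W) a.succ := by
  have e1 : Y - O = (X - O) - (X - Y) := by abel
  simp only [hyp, ht, Pi.sub_apply, Fin.cons_succ, Fin.cons_zero]
  rw [e1, pf_sub_right A₂ (X - O), e]
  simp only [Fin.sum_univ_three, pf_add_right, pf_smul_right]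
  field_simp
  ring

end ERnd1A

open ERnd1A in
theorem rowERnd1 : OfERnd1 := by
  rintro ⟨C, hC, H⟩
  refine ⟨55 * C, by linarith, fun A₁ A₂ Y O Z E W l s₀ Λ η H' Γ h => ?_⟩
  obtain ⟨p1, p2, p3, p4⟩ := h.pos
  have T := H A₁ A₂ Y W Λ η _ _ _ _ s₀ (fun s => Z + s • E) p1 h.agr (par h) p3 p4
    (fun a => ⟨by
      have := (h.bd a).2.2
      rwa [show Z + s₀ • E - Y = Z - Y + s₀ • E by abel, dotProduct_add, dotProduct_smul,
        smul_eq_mul] at this, (h.bd a).2.1⟩) h.d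
    fun s a b => ⟨(h.fit s a b).1, (h.fit s a b).2 3⟩
  obtain ⟨d, s, s0, s1, e⟩ := anc_spec h
  have m0 : 0 ≤ C * max (curv A₂ Y W) η := mul_nonneg (by linarith) (le_max_of_le_right p2.le)
  have q2 : Λ ^ 2 ≤ Λ ^ 4 := pow_le_pow_right₀ p1 (by norm_num)
  have q3 : Λ ^ 3 ≤ Λ ^ 4 := pow_le_pow_right₀ p1 (by norm_num)
  have q4 : 0 ≤ Λ ^ 4 * (C * max (curv A₂ Y W) η) := by positivity
  have r2 := mul_le_mul_of_nonneg_right q2 m0
  have r3 := mul_le_mul_of_nonneg_right q3 m0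
  refine ⟨d, ?_, fun s a b => (T s a b).1.trans (by linarith)⟩
  rw [e] at d ⊢
  have d0 : pf A₁ (Z + s • E) (bv 4) ≠ 0 := abs_pos.1 (by linarith)
  have k1 : ∀ a : Fin 3, |(hyp A₁ (Z + s • E) O W - hyp A₂ Y O W) a.succ| ≤
      6 * (C * Λ ^ 3 * max (curv A₂ Y W) η) := fun a => by
    have := (T s s0 s1).2 a
    rw [hyp_succ d0, abs_div, abs_neg, div_le_iff₀ (by linarith)]
    nlinarith [abs_nonneg (pf A₁ (Z + s • E) (tl A₂ Y (W a)))]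
  refine (pi_norm_le_iff_of_nonneg (by linarith)).2 fun i => ?_
  refine Fin.cases ?_ (fun a => (k1 a).trans (by linarith)) i
  have e1 := h.dec (Z + s • E)
  rw [show (Z + s • E) 0 = 1 by simp [h.one.2.1, h.one.2.2], one_smul, add_assoc,
    ← sub_eq_iff_eq_add'] at e1
  rw [Real.norm_eq_abs, hyp_zero d0 (by linarith [h.agr.d₂.1]) e1]
  refine (abs_sub _ _).trans ?_
  have k2 := (Finset.abs_sum_le_sum_abs _ _).trans (Finset.sum_le_card_nsmul Finset.univ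
    (fun a : Fin 3 => |l a ⬝ᵥ (Z + s • E) * (hyp A₁ (Z + s • E) O W - hyp A₂ Y O W) a.succ|)
    (3 * Λ * (6 * (C * Λ ^ 3 * max (curv A₂ Y W) η))) fun a _ => by
      rw [abs_mul]
      exact mul_le_mul (dot_le h s0 s1 a) (k1 a) (abs_nonneg _) (by linarith))
  simp only [Finset.card_univ, Fintype.card_fin, nsmul_eq_mul, Nat.cast_ofNat] at k2
  linarith [(T s s0 s1).1]

end Pool.Agent.MP_5168f5_an.R4
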