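import Pool.Agent.MP_5168f5_an.R4.SpecE2

/-! In the curved case the normalised matrices of two quadrics that agree are close. -/

namespace Pool.Agent.MP_5168f5_an.R4

open H19 H17S H17F Matrix

namespace ERnd2A

theorem pf_mat (A B : Qd) (t : ℝ) (U W : V 5) : pf (A - t • B) U W = pf A U W - t * pf B U W := by
  simp only [pf, sub_mulVec, smul_mulVec, dotProduct_sub, dotProduct_smul, smul_eq_mul]; ring

theorem lin (A : Qd) (T : Fin 5 → V 5) (U : V 5) (c : Fin 5 → ℝ) {B S : ℝ}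
    (h : ∀ i, |pf A (T i) U| ≤ B) (hS : ∑ i, |c i| ≤ S) : |pf A (∑ i, c i • T i) U| ≤ S * B := by
  have e : pf A (∑ i, c i • T i) U = ∑ i, c i * pf A (T i) U := by
    simp only [Fin.sum_univ_five, pf_add_left, pf_smul_left]
  rw [e]
  refine (Finset.abs_sum_le_sum_abs _ _).trans (le_trans ?_
    (mul_le_mul_of_nonneg_right hS ((abs_nonneg _).trans (h 0))))
  rw [Finset.sum_mul]
  exact Finset.sum_le_sum fun i _ => by
    rw [abs_mul]; exact mul_le_mul_of_nonneg_left (h i) (abs_nonneg _)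

theorem mat_le (A : Qd) (T F : Fin 5 → V 5) (c : Fin 5 → Fin 5 → ℝ) {B S : ℝ} (hS0 : 0 ≤ S)
    (hF : ∀ i, F i = ∑ j, c i j • T j) (h : ∀ i j, |pf A (T i) (T j)| ≤ B)
    (hS : ∀ i, ∑ j, |c i j| ≤ S) : ‖mat A F‖ ≤ S * (S * B) := by
  have b0 : 0 ≤ B := (abs_nonneg _).trans (h 0 0)
  refine (pi_norm_le_iff_of_nonneg (by positivity)).2 fun i => ?_
  rw [Real.norm_eq_abs, mat, hF i.1]
  refine lin A T _ _ (fun k => ?_) (hS _)
  rw [pf_comm, hF i.2]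
  exact lin A T _ _ (fun j => h j k) (hS _)

/-- A bound for all entries from the six kinds of entries. -/
theorem ent {X : Type} (φ : X → X → Prop) (hφ : ∀ x y, φ x y → φ y x) (Y e : X) (U : Fin 3 → X)
    (h1 : φ Y Y) (h2 : ∀ a, φ Y (U a)) (h3 : φ Y e) (h4 : ∀ a b, φ (U a) (U b))
    (h5 : ∀ a, φ (U a) e) (h6 : φ e e) (i j : Fin 5) :
    φ (![Y, U 0, U 1, U 2, e] i) (![Y, U 0, U 1, U 2, e] j) := by
  fin_cases i <;> fin_cases j <;>
    first | exact h1 | exact h2 _ | exact h3 | exact h4 _ _ | exact h5 _ | exact h6 |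
      exact hφ _ _ (h2 _) | exact hφ _ _ h3 | exact hφ _ _ (h5 _)

theorem nrm {E : Type} [NormedAddCommGroup E] [NormedSpace ℝ E] (u v : E) {t : ℝ} (ht : 0 < t)
    (hu : 0 < ‖u‖) : ‖‖u‖⁻¹ • u - ‖v‖⁻¹ • v‖ ≤ 2 * ‖u - t • v‖ * ‖u‖⁻¹ := by
  have i0 : 0 ≤ ‖u‖⁻¹ := by positivity
  have e : ‖u‖⁻¹ • u - ‖v‖⁻¹ • v = ‖u‖⁻¹ • (u - t • v) + (‖u‖⁻¹ * t - ‖v‖⁻¹) • v := by
    rw [smul_sub, sub_smul, smul_smul]; abel
  have h1 : ‖(‖u‖⁻¹ * t - ‖v‖⁻¹) • v‖ ≤ ‖u‖⁻¹ * ‖u - t • v‖ := by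
    rcases (norm_nonneg v).eq_or_lt with h | h
    · rw [norm_smul, ← h, mul_zero]; positivity
    · have h2 := abs_norm_sub_norm_le (t • v) u
      rw [norm_sub_rev, norm_smul, Real.norm_of_nonneg ht.le] at h2
      refine le_trans (le_of_eq ?_) (mul_le_mul_of_nonneg_left h2 i0)
      rw [norm_smul, Real.norm_eq_abs, ← abs_of_pos h, ← abs_mul, abs_of_pos h,
        ← abs_of_nonneg i0, ← abs_mul, abs_of_nonneg i0]
      congr 1
      field_simp
  rw [e]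
  refine (norm_add_le _ _).trans ?_
  rw [norm_smul, Real.norm_of_nonneg i0]
  linarith

end ERnd2A

open ERnd2A in
theorem rowERnd2 : ERnd2 := by
  refine ⟨3456, by norm_num, fun A₁ A₂ Y O Z E W l s₀ Λ η H Γ Λ' μ h g k1 k2 k3 k4 k5 => ?_⟩
  obtain ⟨⟨d1, d2⟩, ⟨D1, D2⟩, ⟨v1, v2⟩, a4, a5, a6, a7, a8, a9⟩ := g.agr
  obtain ⟨L1, η0, -⟩ := g.pos
  rw [max_eq_left k1] at a9
  have hV : ∀ a b, |pf A₂ (tl A₂ Y (W a)) (tl A₂ Y (W b))| ≤ curv A₂ Y W := fun a b =>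
    norm_le_pi_norm (fun i : Fin 3 × Fin 3 => pf A₂ (tl A₂ Y (W i.1)) (tl A₂ Y (W i.2))) (a, b)
  have hr : ∀ i, |(h i - hyp A₂ Y O W i) / μ| ≤ 2 := fun i => by
    rw [abs_div, abs_of_pos (by linarith : 0 < μ), div_le_iff₀ (by linarith)]
    exact (norm_le_pi_norm (h - hyp A₂ Y O W) i).trans k5
  have hy : ∀ a, |l a ⬝ᵥ Y| ≤ Λ := fun a => (g.bd a).1
  have hY := g.dec Y
  rw [g.one.1, one_smul, Fin.sum_univ_three] at hY
  generalize curv A₂ Y W = κ at *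
  have μ0 : 0 < μ := by linarith
  have D0 : pf A₂ Y (bv 4) ≠ 0 := (one_pos.trans_le D1).ne'
  have hT : ∀ a, pf A₂ Y (tl A₂ Y (W a)) = 0 := fun a => by
    rw [tl, pf_sub_right, pf_smul_right, div_mul_cancel₀ _ D0, sub_self]
  have t0 : 0 < pf A₁ Y (bv 4) / pf A₂ Y (bv 4) := by positivity
  have t1 : pf A₁ Y (bv 4) / pf A₂ Y (bv 4) ≤ Λ := (div_le_self (by linarith) D1).trans d2
  have t2 : pf A₁ Y (bv 4) / pf A₂ Y (bv 4) * pf A₂ Y (bv 4) = pf A₁ Y (bv 4) :=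
    div_mul_cancel₀ _ D0
  have e0 : hyp A₂ Y O W 0 = Y 4 - (l 0 ⬝ᵥ Y) * hyp A₂ Y O W 1 - (l 1 ⬝ᵥ Y) * hyp A₂ Y O W 2 -
      (l 2 ⬝ᵥ Y) * hyp A₂ Y O W 3 := by
    have : Y - O = (l 0 ⬝ᵥ Y) • W 0 + (l 1 ⬝ᵥ Y) • W 1 + (l 2 ⬝ᵥ Y) • W 2 + Y 4 • bv 4 := by
      rw [sub_eq_iff_eq_add', ← add_assoc]; exact hY
    change pf A₂ Y (Y - O) / _ = Y 4 - _ * (-pf A₂ Y (W 0) / pf A₂ Y (bv 4)) -
      _ * (-pf A₂ Y (W 1) / pf A₂ Y (bv 4)) - _ * (-pf A₂ Y (W 2) / pf A₂ Y (bv 4))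
    rw [this]
    simp only [pf_add_right, pf_smul_right]
    field_simp
    ring
  have eV : ∀ a : Fin 3, tl A₂ Y (W a) = W a + hyp A₂ Y O W a.succ • bv 4 := fun a => by
    rw [tl, hyp, Fin.cons_succ, neg_div, neg_smul, sub_eq_add_neg]
  generalize pf A₁ Y (bv 4) / pf A₂ Y (bv 4) = t at *
  generalize hyp A₂ Y O W = p at *
  set r : Fin 4 → ℝ := fun i => (h i - p i) / μ with hr'
  have er : ∀ i, h i = p i + r i * μ := fun i => by
    rw [hr', div_mul_cancel₀ _ μ0.ne', add_sub_cancel]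
  have hy0 := hy 0
  have hy1 := hy 1
  have hy2 := hy 2
  generalize l 0 ⬝ᵥ Y = y0, l 1 ⬝ᵥ Y = y1, l 2 ⬝ᵥ Y = y2, Y 4 = y4 at hY e0 hy0 hy1 hy2
  have hr : ∀ i, |r i| ≤ 2 := hr
  have eO : O = Y - (y0 • W 0 + y1 • W 1 + y2 • W 2) - y4 • bv 4 := by
    conv_rhs => rw [hY]
    abel
  have eV0 : tl A₂ Y (W 0) = W 0 + p 1 • bv 4 := eV 0
  have eV1 : tl A₂ Y (W 1) = W 1 + p 2 • bv 4 := eV 1
  have eV2 : tl A₂ Y (W 2) = W 2 + p 3 • bv 4 := eV 2
  have hF : ∀ i, frm O W h μ i = ∑ j, ![![1, -y0, -y1, -y2, r 0], ![0, 1, 0, 0, r 1],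
      ![0, 0, 1, 0, r 2], ![0, 0, 0, 1, r 3], ![0, 0, 0, 0, 1]] i j •
      ![Y, tl A₂ Y (W 0), tl A₂ Y (W 1), tl A₂ Y (W 2), μ • bv 4] j := fun i => by
    rw [eV0, eV1, eV2]
    fin_cases i <;> simp [frm, Fin.sum_univ_five, er, eO, e0] <;> module
  have hS : ∀ i, ∑ j, |![![1, -y0, -y1, -y2, r 0], ![0, 1, 0, 0, r 1], ![0, 0, 1, 0, r 2],
      ![0, 0, 0, 1, r 3], ![0, 0, 0, 0, 1]] i j| ≤ 6 * Λ := fun i => by
    fin_cases i <;> simp [Fin.sum_univ_five] <;> linarith [hr 0, hr 1, hr 2, hr 3]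
  have sy : ∀ (A : Qd) (B : ℝ) x y, |pf A x y| ≤ B → |pf A y x| ≤ B := fun A B x y a =>
    pf_comm A x y ▸ a
  have L2 : 1 ≤ Λ' := L1.trans k4
  have κ0 : 0 < κ := by linarith
  have m1 : μ ≤ Λ * μ := le_mul_of_one_le_left μ0.le L1
  have m2 : Λ * μ ≤ Λ' * (Λ * μ) := le_mul_of_one_le_left (by positivity) L2
  have n1 : Λ' * η ≤ Λ' * (Λ' * η) := le_mul_of_one_le_left (by positivity) L2
  have n2 : η ≤ Λ' * η := le_mul_of_one_le_left η0.le L2
  have n3 : Λ * η ≤ Λ' * η := mul_le_mul_of_nonneg_right k4 η0.le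
  have u1 := mat_le A₁ _ _ _ (B := 2 * (Λ' * (Λ * μ))) (by positivity) hF
    (ent (fun x y => |pf A₁ x y| ≤ _) (sy _ _) Y (μ • bv 4) (fun a => tl A₂ Y (W a))
      (by rw [pf_self, abs_mul, abs_two]; linarith) (fun a => by linarith [a4 a])
      (by rw [pf_smul_right, abs_of_pos (by positivity)]; nlinarith)
      (fun a b => by
        have h1 := abs_le.1 (a5 a b)
        have h2 : |t * pf A₂ (tl A₂ Y (W a)) (tl A₂ Y (W b))| ≤ Λ * μ := by
          rw [abs_mul, abs_of_pos t0]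
          exact mul_le_mul t1 ((hV a b).trans k2) (abs_nonneg _) (by linarith)
        rw [pf_mat] at h1
        rw [abs_le] at h2 ⊢
        constructor <;> linarith [h1.1, h1.2, h2.1, h2.2])
      (fun a => by
        rw [pf_smul_right, abs_mul, abs_of_pos μ0]
        nlinarith [mul_le_mul_of_nonneg_left (a8 a) μ0.le])
      (by
        rw [pf_smul_right, pf_smul_left, pf_self, abs_mul, abs_mul, abs_mul, abs_two, abs_of_pos μ0]
        have h1 := mul_le_mul_of_nonneg_right k3 (abs_nonneg (qf A₁ (bv 4)))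
        have h2 := mul_le_mul_of_nonneg_left a9 (zero_le_one.trans L2)
        have h3 : μ * |qf A₁ (bv 4)| ≤ Λ' * Λ := by linarith
        nlinarith [mul_le_mul_of_nonneg_left h3 μ0.le])) hS
  have u2 := mat_le (A₁ - t • A₂) _ _ _ (B := 4 * (Λ' * (Λ' * η))) (by positivity) hF
    (ent (fun x y => |pf (A₁ - t • A₂) x y| ≤ _) (sy _ _) Y (μ • bv 4) (fun a => tl A₂ Y (W a))
      (by
        have h2 : |t * qf A₂ Y| ≤ Λ * η := by
          rw [abs_mul, abs_of_pos t0]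
          exact mul_le_mul t1 v2 (abs_nonneg _) (by linarith)
        rw [pf_mat, pf_self, pf_self]
        rw [abs_le] at h2 v1 ⊢
        constructor <;> linarith [v1.1, v1.2, h2.1, h2.2])
      (fun a => by rw [pf_mat, hT, mul_zero, sub_zero]; linarith [a4 a])
      (by rw [pf_smul_right, pf_mat, t2, sub_self, mul_zero, abs_zero]; positivity)
      (fun a b => by linarith [a5 a b])
      (fun a => by
        rw [pf_smul_right, abs_mul, abs_of_pos μ0]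
        have h1 := mul_le_mul_of_nonneg_right k3
          (abs_nonneg (pf (A₁ - t • A₂) (tl A₂ Y (W a)) (bv 4)))
        have h2 := mul_le_mul_of_nonneg_left (a6 a) (zero_le_one.trans L2)
        linarith)
      (by
        rw [pf_smul_right, pf_smul_left, pf_self, abs_mul, abs_mul, abs_mul, abs_two, abs_of_pos μ0]
        have h1 := mul_le_mul_of_nonneg_right (pow_le_pow_left₀ μ0.le k3 2)
          (abs_nonneg (qf (A₁ - t • A₂) (bv 4)))
        have h2 := mul_le_mul_of_nonneg_left a7 (sq_nonneg Λ')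
        nlinarith)) hS
  have u3 : μ ≤ 12 * Λ * ‖mat A₁ (frm O W h μ)‖ := by
    have h1 : Y = ∑ i, ![1, y0, y1, y2, -(r 0 + y0 * r 1 + y1 * r 2 + y2 * r 3)] i •
        frm O W h μ i := by
      simp [frm, Fin.sum_univ_five, er, eO, e0]
      module
    have h2 := lin A₁ (frm O W h μ) (frm O W h μ 4)
      ![1, y0, y1, y2, -(r 0 + y0 * r 1 + y1 * r 2 + y2 * r 3)] (S := 12 * Λ)
      (fun i => norm_le_pi_norm (mat A₁ (frm O W h μ)) (i, 4)) (by
        have b : ∀ y i, |y| ≤ Λ → |y * r i| ≤ Λ * 2 := fun y i a => by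
          rw [abs_mul]
          exact mul_le_mul a (hr i) (abs_nonneg _) (by linarith)
        have : |r 0 + y0 * r 1 + y1 * r 2 + y2 * r 3| ≤ 2 + Λ * 2 + Λ * 2 + Λ * 2 :=
          (abs_add_le _ _).trans (add_le_add ((abs_add_le _ _).trans (add_le_add
            ((abs_add_le _ _).trans (add_le_add (hr 0) (b _ _ hy0))) (b _ _ hy1))) (b _ _ hy2))
        rw [← abs_neg] at this
        simp only [Fin.sum_univ_five]
        change |1| + |y0| + |y1| + |y2| + |-(r 0 + y0 * r 1 + y1 * r 2 + y2 * r 3)| ≤ _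
        rw [abs_one]
        linarith)
    rw [← h1] at h2
    change |pf A₁ Y (μ • bv 4)| ≤ _ at h2
    rw [pf_smul_right, abs_of_pos (by positivity)] at h2
    exact (le_mul_of_one_le_right μ0.le d1).trans h2
  have u0 : 0 < ‖mat A₁ (frm O W h μ)‖ :=
    (mul_pos_iff_of_pos_left (by positivity)).1 (μ0.trans_le u3)
  have p3 : Λ ^ 3 ≤ Λ' ^ 3 := pow_le_pow_left₀ (by linarith) k4 3
  refine ⟨u3, u1.trans ?_, (nrm _ _ t0 u0).trans ?_⟩
  · nlinarith [mul_le_mul_of_nonneg_right p3 (by positivity : 0 ≤ Λ' * μ),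
      (by positivity : 0 ≤ Λ' ^ 4 * μ)]
  · have e : mat A₁ (frm O W h μ) - t • mat A₂ (frm O W h μ) = mat (A₁ - t • A₂) (frm O W h μ) :=
      funext fun i => (pf_mat _ _ _ _ _).symm
    have i1 : ‖mat A₁ (frm O W h μ)‖⁻¹ ≤ 12 * Λ / μ := by
      rw [inv_le_iff_one_le_mul₀ u0, div_mul_eq_mul_div, one_le_div μ0]
      exact u3
    rw [e]
    refine (mul_le_mul (mul_le_mul_of_nonneg_left u2 zero_le_two) i1 (by positivity)
      (by positivity)).trans ?_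
    rw [← mul_div_assoc]
    refine div_le_div_of_nonneg_right ?_ μ0.le
    nlinarith [mul_le_mul_of_nonneg_right p3 (by positivity : 0 ≤ Λ' ^ 2 * η)]

end Pool.Agent.MP_5168f5_an.R4
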