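import Pool.Agent.MP_5168f5_an.R4.SpecE2

/-! The rounded quadric and the rounded hyperplane fit the segment. -/

namespace Pool.Agent.MP_5168f5_an.R4

open H19 H17S H17F Matrix

namespace ERnd3A

variable {A : Qd} {Y O U U' : V 5} {W l : Fin 3 → V 5} {h h' : V 4} {μ : ℝ}

theorem bv_dot (i : Fin 5) (U : V 5) : bv i ⬝ᵥ U = U i := by simp [bv]

theorem dot_bv (i : Fin 5) (U : V 5) : U ⬝ᵥ bv i = U i := by simp [bv]

theorem bv_zero (i : Fin 4) : bv i.succ 0 = 0 := by simp [bv]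

theorem cov_dot (l : Fin 3 → V 5) (h : V 4) (U : V 5) :
    cov l h ⬝ᵥ U = U 4 - h 0 * U 0 - ∑ a, h a.succ * (l a ⬝ᵥ U) := by
  simp only [cov, sub_dotProduct, smul_dotProduct, sum_dotProduct, bv_dot, smul_eq_mul]

theorem pf_sum {ι : Type} [Fintype ι] (A : Qd) (Y : V 5) (x : ι → ℝ) (T : ι → V 5) :
    pf A Y (∑ a, x a • T a) = ∑ a, x a * pf A Y (T a) := by
  simp only [pf, mulVec_sum, mulVec_smul, dotProduct_sum, sum_dotProduct, dotProduct_smul,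
    smul_dotProduct, smul_eq_mul, mul_add, Finset.sum_add_distrib]

theorem cov_hyp (hd : U = U 0 • O + ∑ a, (l a ⬝ᵥ U) • W a + U 4 • bv 4)
    (h0 : pf A Y (bv 4) ≠ 0) :
    cov l (hyp A Y O W) ⬝ᵥ U = pf A Y (U - U 0 • Y) / pf A Y (bv 4) := by
  have e := congrArg (pf A Y) hd
  rw [pf_add_right, pf_add_right, pf_sum, pf_smul_right, pf_smul_right] at e
  rw [cov_dot, pf_sub_right, pf_smul_right, e]
  simp only [hyp, Fin.cons_zero, Fin.cons_succ, pf_sub_right, Fin.sum_univ_three]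
  field_simp
  ring

theorem cov_sub {ε b : ℝ} (hh : ‖h - h'‖ ≤ ε) (hb : ∀ a, |l a ⬝ᵥ U| ≤ b) :
    |cov l h ⬝ᵥ U| ≤ |cov l h' ⬝ᵥ U| + ε * (|U 0| + 3 * b) := by
  have k : ∀ i, |h i - h' i| ≤ ε := fun i => (norm_le_pi_norm (h - h') i).trans hh
  have k' : ∀ (i) {x y : ℝ}, |x| ≤ y → |(h i - h' i) * x| ≤ ε * y := fun i x y e => by
    rw [abs_mul]
    exact mul_le_mul (k i) e (abs_nonneg _) ((abs_nonneg _).trans (k i))
  have a0 := abs_le.1 (k' 0 (le_refl |U 0|))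
  have a1 := abs_le.1 (k' (Fin.succ 0) (hb 0))
  have a2 := abs_le.1 (k' (Fin.succ 1) (hb 1))
  have a3 := abs_le.1 (k' (Fin.succ 2) (hb 2))
  have b1 := le_abs_self (cov l h' ⬝ᵥ U)
  have b2 := neg_abs_le (cov l h' ⬝ᵥ U)
  generalize |cov l h' ⬝ᵥ U| = t at *
  rw [cov_dot, Fin.sum_univ_three] at *
  rw [abs_le]
  constructor <;> linarith [a0.1, a0.2, a1.1, a1.2, a2.1, a2.2, a3.1, a3.2]

theorem frame (hd : U = U 0 • O + ∑ a, (l a ⬝ᵥ U) • W a + U 4 • bv 4) (h0 : μ ≠ 0) :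
    U = ∑ a, (crd l h μ a ⬝ᵥ U) • frm O W h μ a := by
  refine hd.trans ?_
  simp only [Fin.sum_univ_five, crd, frm, cons_val_zero, cons_val_one, cons_val, smul_dotProduct,
    bv_dot, cov_dot, Fin.sum_univ_three, smul_eq_mul]
  have e1 : (Fin.succ 0 : Fin 4) = 1 := rfl
  have e2 : (Fin.succ 1 : Fin 4) = 2 := rfl
  have e3 : (Fin.succ 2 : Fin 4) = 3 := rfl
  rw [e1, e2, e3, smul_smul (μ⁻¹ * _), mul_right_comm, inv_mul_cancel₀ h0]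
  module

theorem pf_mat {T : Fin 5 → V 5} {x y : Fin 5 → ℝ} (hU : U = ∑ a, x a • T a)
    (hU' : U' = ∑ a, y a • T a) : pf A U U' = ∑ p, mat A T p * (x p.1 * y p.2) := by
  rw [hU, hU', pf_comm, pf_sum, Fintype.sum_prod_type]
  refine Finset.sum_congr rfl fun a _ => ?_
  rw [pf_comm, pf_sum, Finset.mul_sum]
  exact Finset.sum_congr rfl fun b _ => by simp only [mat]; ring

theorem dot_back (N : Fin 5 × Fin 5 → ℝ) (c : Fin 5 → V 5) (U U' : V 5) :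
    U ⬝ᵥ back N c *ᵥ U' = (∑ p, N p * ((c p.1 ⬝ᵥ U) * (c p.2 ⬝ᵥ U'))) / 2 := by
  have e : back N c = ∑ p, (N p / 2) • vecMulVec (c p.1) (c p.2) := by
    ext i j
    simp only [back, of_apply, Matrix.sum_apply, Matrix.smul_apply, vecMulVec_apply,
      smul_eq_mul, Finset.sum_div]
    exact Finset.sum_congr rfl fun p _ => by ring
  rw [e, sum_mulVec, dotProduct_sum, Finset.sum_div]
  refine Finset.sum_congr rfl fun p _ => ?_
  rw [smul_mulVec, vecMulVec_mulVec, dotProduct_smul, op_smul_eq_smul, dotProduct_smul,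
    dotProduct_comm U]
  simp only [smul_eq_mul]
  ring

theorem sum_le {N : Fin 5 × Fin 5 → ℝ} {δ : ℝ} (hN : ‖N‖ ≤ δ) (x y : Fin 5 → ℝ) :
    |∑ p, N p * (x p.1 * y p.2)| ≤ δ * ((∑ a, |x a|) * ∑ a, |y a|) := by
  rw [Finset.sum_mul_sum, ← Fintype.sum_prod_type', Finset.mul_sum]
  refine (Finset.abs_sum_le_sum_abs _ _).trans (Finset.sum_le_sum fun p _ => ?_)
  rw [abs_mul, abs_mul]
  exact mul_le_mul_of_nonneg_right ((norm_le_pi_norm N p).trans hN) (by positivity)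

theorem err {T c : Fin 5 → V 5} (hd : ∀ U : V 5, U = ∑ a, (c a ⬝ᵥ U) • T a)
    {N : Fin 5 × Fin 5 → ℝ} {κ δ x y : ℝ} (hN : ‖N - κ • mat A T‖ ≤ δ)
    (hx : ∑ a, |c a ⬝ᵥ U| ≤ x) (hy : ∑ a, |c a ⬝ᵥ U'| ≤ y) :
    |pf (back N c) U U' - κ * pf A U U'| ≤ δ * (x * y) := by
  have h1 := sum_le hN (fun a => c a ⬝ᵥ U) fun a => c a ⬝ᵥ U'
  have h2 := sum_le hN (fun a => c a ⬝ᵥ U') fun a => c a ⬝ᵥ U
  simp only [Pi.sub_apply, Pi.smul_apply, smul_eq_mul, sub_mul, Finset.sum_sub_distrib,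
    mul_assoc κ, ← Finset.mul_sum] at h1 h2
  rw [← pf_mat (hd U) (hd U')] at h1
  rw [← pf_mat (hd U') (hd U), pf_comm, mul_comm (∑ a, _)] at h2
  have h0 : ∀ U : V 5, 0 ≤ ∑ a, |c a ⬝ᵥ U| := fun U => Finset.sum_nonneg fun a _ => abs_nonneg _
  have h3 : δ * ((∑ a, |c a ⬝ᵥ U|) * ∑ a, |c a ⬝ᵥ U'|) ≤ δ * (x * y) :=
    mul_le_mul_of_nonneg_left (mul_le_mul hx hy (h0 _) ((h0 _).trans hx))
      ((norm_nonneg _).trans hN)
  rw [pf, dot_back, dot_back]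
  rw [abs_le] at *
  constructor <;> linarith [h1.1, h1.2, h2.1, h2.2]

theorem crd_le {b t : ℝ} (h0 : 0 < μ) (hb : ∀ a, |l a ⬝ᵥ U| ≤ b) (ht : |cov l h ⬝ᵥ U| ≤ t) :
    ∑ a, |crd l h μ a ⬝ᵥ U| ≤ |U 0| + 3 * b + μ⁻¹ * t := by
  simp only [Fin.sum_univ_five, crd, cons_val_zero, cons_val_one, cons_val, smul_dotProduct,
    bv_dot, smul_eq_mul, abs_mul, abs_of_pos (inv_pos.2 h0)]
  have := mul_le_mul_of_nonneg_left ht (inv_pos.2 h0).le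
  linarith [hb 0, hb 1, hb 2]

theorem dot_vm (v U U' : V 5) : U ⬝ᵥ vecMulVec (bv 0) v *ᵥ U' = U 0 * (v ⬝ᵥ U') := by
  rw [vecMulVec_mulVec, op_smul_eq_smul, dotProduct_smul, dot_bv, smul_eq_mul, mul_comm]

theorem tri {x y κ e b : ℝ} (h : |x - κ * y| ≤ e) (hy : |y| ≤ b) (h4 : 4 ≤ κ) (h8 : κ ≤ 8) :
    |x| ≤ 8 * b + e := by
  have h1 : |κ * y| ≤ 8 * b := by
    rw [abs_mul, abs_of_nonneg (by linarith)]
    exact mul_le_mul h8 hy (abs_nonneg _) (by norm_num)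
  linarith [abs_sub_abs_le_abs_sub x (κ * y)]

end ERnd3A

open ERnd3A in
theorem rowERnd3 : ERnd3 := by
  refine ⟨1000, by norm_num, fun A₁ A₂ Y O Z E W l s₀ Λ η H Γ μ h r m0 hD h1 h2 ht' => ?_⟩
  obtain ⟨l1, -, s0, s1⟩ := r.pos
  have g0 : 0 ≤ Γ := (abs_nonneg _).trans (r.gam 0 0)
  have x0 : ∀ s : ℝ, (Z + s • E) 0 = 1 := fun s => by simp [r.one.2.1, r.one.2.2]
  have xb : ∀ s : ℝ, 0 ≤ s → s < 1 → ∀ a, |l a ⬝ᵥ (Z + s • E)| ≤ 3 * Λ := fun s a0 a1 a => by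
    obtain ⟨b1, b2, b3⟩ := r.bd a
    have e : l a ⬝ᵥ (Z + s • E)
        = l a ⬝ᵥ Y + l a ⬝ᵥ (Z + s₀ • E - Y) + (s - s₀) * (l a ⬝ᵥ E) := by
      simp only [dotProduct_add, dotProduct_sub, dotProduct_smul, smul_eq_mul]
      ring
    have b4 : |(s - s₀) * (l a ⬝ᵥ E)| ≤ 1 * Λ := by
      rw [abs_mul]
      exact mul_le_mul (abs_le.2 ⟨by linarith, by linarith⟩) b2 (abs_nonneg _) zero_le_one
    have b5 : |l a ⬝ᵥ (Z + s₀ • E - Y)| ≤ Λ := by nlinarith [abs_nonneg (l a ⬝ᵥ (Z + s₀ • E - Y))]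
    rw [e]
    linarith [abs_add_three (l a ⬝ᵥ Y) (l a ⬝ᵥ (Z + s₀ • E - Y)) ((s - s₀) * (l a ⬝ᵥ E))]
  have xc : ∀ s : ℝ, 0 ≤ s → s < 1 → |cov l h ⬝ᵥ (Z + s • E)| ≤ 21 * Λ * μ := fun s a0 a1 => by
    have b1 := cov_sub h2 (xb s a0 a1)
    rw [cov_hyp (r.dec _) (by linarith [r.agr.d₂.1]), x0, one_smul, abs_one] at b1
    have b2 : |pf A₂ Y (Z + s • E - Y) / pf A₂ Y (bv 4)| ≤ μ := ht' s a0 a1
    nlinarith
  have vb : ∀ (i : Fin 4) a, |l a ⬝ᵥ bv i.succ| ≤ Γ := fun i a => by rw [dot_bv]; exact r.gam a i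
  have vc : ∀ i : Fin 4, |cov l h ⬝ᵥ bv i.succ| ≤ 6 * Λ + 3 * (μ * Γ) := fun i => by
    have b1 := cov_sub h1 (vb i)
    have b0 : 0 < |pf A₁ (anc A₁ Z E) (bv 4)| := by linarith
    rw [cov_hyp (r.dec _) (abs_pos.1 b0), bv_zero, zero_smul, sub_zero, abs_zero, abs_div] at b1
    have b2 : |pf A₁ (anc A₁ Z E) (bv i.succ)| ≤ Λ := by
      unfold anc
      split_ifs
      · simpa using (r.fit 0 le_rfl one_pos).2 i
      · exact (r.fit _ (by norm_num) (by norm_num)).2 i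
    have b3 : |pf A₁ (anc A₁ Z E) (bv i.succ)| / |pf A₁ (anc A₁ Z E) (bv 4)| ≤ 6 * Λ := by
      rw [div_le_iff₀ b0]
      nlinarith
    linarith
  have e0 : bv 4 0 = 0 := bv_zero 3
  have ec : cov l h ⬝ᵥ bv 4 = 1 := by
    rw [cov_dot, e0]
    simp only [dot_bv, r.l4]
    simp [bv]
  have mg : 0 ≤ μ * Γ := by positivity
  refine ⟨⟨?_, fun s a0 a1 => ⟨?_, fun i => ?_⟩, fun i k => ?_⟩, fun N c δ c4 c8 hN hδ => ?_⟩
  · rw [pf, dot_vm, dot_vm, x0, e0, ec]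
    norm_num
  · rw [qf, dot_vm, x0, one_mul]
    nlinarith [xc s a0 a1, mul_pos (one_pos.trans_le l1) m0]
  · rw [pf, dot_vm, dot_vm, x0, bv_zero, one_mul, zero_mul, add_zero]
    nlinarith [vc i]
  · simp [pf, dot_vm, bv_zero]
  have d0 : 0 ≤ δ := (norm_nonneg _).trans hN
  have i0 : 0 < μ⁻¹ := inv_pos.2 m0
  have i1 : μ⁻¹ * μ = 1 := inv_mul_cancel₀ m0.ne'
  have hd := fun U => frame (h := h) (r.dec U) m0.ne'
  have xs : ∀ s : ℝ, 0 ≤ s → s < 1 → ∑ a, |crd l h μ a ⬝ᵥ (Z + s • E)| ≤ 31 * Λ :=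
    fun s a0 a1 => (crd_le m0 (xb s a0 a1) (xc s a0 a1)).trans (by
      rw [x0, abs_one, mul_left_comm μ⁻¹, i1]
      linarith)
  have vs : ∀ i : Fin 4, ∑ a, |crd l h μ a ⬝ᵥ bv i.succ| ≤ 6 * Λ * (μ⁻¹ + Γ) :=
    fun i => (crd_le m0 (vb i) (vc i)).trans (by
      rw [bv_zero, abs_zero, mul_add μ⁻¹, mul_left_comm μ⁻¹ 3, ← mul_assoc μ⁻¹ μ, i1]
      nlinarith)
  have es : ∑ a, |crd l h μ a ⬝ᵥ bv 4| ≤ μ⁻¹ :=
    (crd_le (b := 0) (t := 1) m0 (fun a => by rw [dot_bv, r.l4, abs_zero])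
      (by rw [ec, abs_one])).trans (by simp [e0])
  have p0 : 0 ≤ Λ ^ 2 * δ := by positivity
  have p1 : 0 ≤ Λ ^ 2 * δ * (μ⁻¹ + Γ) := by positivity
  have p2 : 0 ≤ Λ ^ 2 * δ * (μ⁻¹ + Γ) ^ 2 := by positivity
  refine ⟨?_, fun s a0 a1 => ⟨?_, fun i => ?_⟩, fun i k => ?_⟩
  · have b1 := (abs_le.1 (err hd hN (xs s₀ s0 s1) es)).1
    have b2 := mul_le_mul_of_nonneg_left hδ i0.le
    have b3 := mul_le_mul c4 r.d (by norm_num) (by linarith)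
    have b4 : 0 ≤ μ⁻¹ * (Λ * δ) := by positivity
    linarith
  · have b1 := err hd hN (xs s a0 a1) (xs s a0 a1)
    rw [pf_self, pf_self, mul_left_comm c, ← mul_sub, abs_mul, abs_two] at b1
    exact tri (by linarith) (r.fit s a0 a1).1 c4 c8
  · exact tri ((err hd hN (xs s a0 a1) (vs i)).trans (by linarith)) ((r.fit s a0 a1).2 i) c4 c8
  · exact tri ((err hd hN (vs i) (vs k)).trans (by linarith)) (r.hs i k) c4 c8

end Pool.Agent.MP_5168f5_an.R4
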