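import Pool.Agent.MP_5168f5_an.R4.SpecE2

/-! Extension step for quadrics: a common rounding of two quadrics that agree. -/

namespace Pool.Agent.MP_5168f5_an.R4

open H19 H17S H17F Matrix Filter

namespace ERoundA

section Det

variable {Ω α α' β ι : Type} {P : FP Ω} {G : Ω → β}

theorem det_chain {F : Ω → α} {F' : Ω → α'} {B B' : ℝ} (h : Det P F G B)
    (h' : Det P F' (fun ω => (F ω, G ω)) B') (h0 : 0 ≤ B') :
    Det P (fun ω => (F ω, F' ω)) G (B * B') := by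
  classical
  intro a ha
  obtain ⟨T, h1, h2⟩ := h a ha
  have e : ∀ u, ∃ T' : Finset α', (T'.card : ℝ) ≤ B' ∧
      ∀ b ∈ P.S, G b = G a → F b = u → F' b ∈ T' := fun u => by
    by_cases c : ∃ b ∈ P.S, G b = G a ∧ F b = u
    · obtain ⟨b, hb, c1, c2⟩ := c
      exact (h' b hb).imp fun T' k => ⟨k.1, fun b' hb' e1 e2 =>
        k.2 b' hb' (Prod.ext (e2.trans c2.symm) (e1.trans c1.symm))⟩
    · exact ⟨∅, by simpa using h0, fun b hb e1 e2 => absurd ⟨b, hb, e1, e2⟩ c⟩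
  choose T' h3 h4 using e
  refine ⟨T.biUnion fun u => (T' u).image fun v => (u, v), ?_, fun b hb e =>
    Finset.mem_biUnion.2 ⟨_, h2 b hb e, Finset.mem_image_of_mem _ (h4 _ b hb e rfl)⟩⟩
  refine (Nat.cast_le.2 Finset.card_biUnion_le).trans ?_
  rw [Nat.cast_sum]
  refine (Finset.sum_le_card_nsmul _ _ B' fun u _ =>
    (Nat.cast_le.2 Finset.card_image_le).trans (h3 u)).trans ?_
  rw [nsmul_eq_mul]
  exact mul_le_mul_of_nonneg_right h1 h0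

theorem det_cen [Fintype ι] {y c : Ω → ι → ℝ} (hc : Fn P c G) (h : ∀ ω ∈ P.S, ‖y ω - c ω‖ ≤ 1) :
    Det P (fun ω => flv 0 (y ω)) G (5 ^ Fintype.card ι) := fun a ha =>
  (cells_near 0 (c a) zero_le_one).imp fun _ k => ⟨k.1.trans (by norm_num), fun b hb e =>
    k.2 _ (by rw [← hc b hb a ha e]; simpa using h b hb)⟩

theorem det_idx {F : Ω → α} {i i' : Ω → ℕ} (t : Ω → Bool) {m : ℕ} (hF : Fn P F G)
    (h : ∀ ω ∈ P.S, i ω ≤ m ∧ i' ω ≤ m) :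
    Det P (fun ω => (F ω, i ω, i' ω, t ω)) G (2 * (m + 1) ^ 2) := fun a ha =>
  ⟨{F a} ×ˢ Finset.range (m + 1) ×ˢ Finset.range (m + 1) ×ˢ Finset.univ, by simp; linarith,
    fun b hb e => by simp [hF b hb a ha e, h b hb]⟩

end Det

theorem dy {r : ℝ} {m : ℕ} (h1 : 1 ≤ r) (h2 : r ≤ 2 ^ m) :
    ∃ i ≤ m + 1, r ≤ 2 ^ i ∧ 2 ^ i ≤ 2 * r := by
  obtain ⟨n, a, b⟩ := exists_nat_pow_near h1 one_lt_two
  exact ⟨n + 1, Nat.succ_le_succ ((pow_le_pow_iff_right₀ one_lt_two).1 (a.trans h2)), b.le, by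
    rw [pow_succ]; linarith⟩

theorem rnd {ι : Type} [Fintype ι] (x : ι → ℝ) {a b : ℝ} (ha : 0 < a) (hb : 0 ≤ b) :
    ‖(b * a) • cz (flv 0 (a⁻¹ • x)) - b • x‖ ≤ b * a := by
  have h := norm_cz_flv 0 (a⁻¹ • x)
  rw [pow_zero, one_smul] at h
  rw [show b • x = (b * a) • a⁻¹ • x by rw [smul_smul, mul_assoc, mul_inv_cancel₀ ha.ne', mul_one],
    ← smul_sub, norm_smul, Real.norm_of_nonneg (by positivity)]
  exact mul_le_of_le_one_right (by positivity) h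

theorem scl {ι : Type} [Fintype ι] {x y : ι → ℝ} {a : ℝ} (ha : 0 < a) (h : ‖x - y‖ ≤ a) :
    ‖a⁻¹ • x - a⁻¹ • y‖ ≤ 1 := by
  rw [← smul_sub, norm_smul, norm_inv, Real.norm_of_nonneg ha.le]
  exact inv_mul_le_one_of_le₀ h ha.le

theorem out_mono {A : Qd} {Z E : V 5} {s₀ a b h a' b' h' : ℝ} (o : Out A Z E s₀ a b h)
    (ha : a ≤ a') (hb : b ≤ b') (hh : h ≤ h') : Out A Z E s₀ a' b' h' :=
  ⟨o.d, fun s s0 s1 => ⟨(o.fit s s0 s1).1.trans ha, fun i => ((o.fit s s0 s1).2 i).trans hb⟩,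
    fun i k => (o.hs i k).trans hh⟩

theorem num {Λ η H Γ κ μ G L : ℝ} (h1 : 1 ≤ Λ) (h2 : 0 < η) (h3 : 0 ≤ H) (h4 : 0 ≤ Γ) (h5 : 0 ≤ G)
    (h6 : 8 * Λ + 2 * G ≤ L) (h7 : L ≤ κ) (h8 : κ * η ≤ μ) :
    G * η ≤ μ ∧ 8 * η + G * η ≤ L * κ * η ∧ 8 * Λ + G * η * (μ⁻¹ + Γ) ≤ L * (1 + κ * η * Γ) ∧
      8 * H + G * η * (μ⁻¹ + Γ) ^ 2 ≤ L * (H + (κ ^ 2 * η)⁻¹ + η * Γ ^ 2) := by
  have k1 : 1 ≤ κ := by linarith
  have m0 : 0 < μ := lt_of_lt_of_le (by positivity) h8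
  have a1 : η * μ⁻¹ ≤ 1 := by
    rw [← div_eq_mul_inv, div_le_one m0]
    nlinarith
  have a2 : η * μ⁻¹ ^ 2 ≤ (κ ^ 2 * η)⁻¹ := by
    refine (mul_le_mul_of_nonneg_left (pow_le_pow_left₀ (by positivity)
      (inv_anti₀ (by positivity) h8) 2) h2.le).trans (le_of_eq ?_)
    field_simp
  have a3 : G ≤ L * κ := by nlinarith
  have a4 : η * (μ⁻¹ + Γ) ^ 2 ≤ 2 * ((κ ^ 2 * η)⁻¹ + η * Γ ^ 2) := by
    nlinarith [mul_nonneg h2.le (sq_nonneg (μ⁻¹ - Γ))]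
  have a5 : 0 ≤ (κ ^ 2 * η)⁻¹ + η * Γ ^ 2 := by positivity
  refine ⟨by nlinarith, mul_le_mul_of_nonneg_right (show 8 + G ≤ L * κ by nlinarith) h2.le |>.trans'
    (by linarith), ?_, ?_⟩
  · nlinarith [mul_le_mul_of_nonneg_left a1 h5, mul_le_mul_of_nonneg_right a3 (mul_nonneg h2.le h4)]
  · nlinarith [mul_le_mul_of_nonneg_left a4 h5, mul_le_mul_of_nonneg_right (show 8 ≤ L by linarith) h3,
      mul_le_mul_of_nonneg_right (show 2 * G ≤ L by linarith) a5]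

/-- The normalised matrix in units of the accuracy. -/
noncomputable def yy (a : ℝ) (t : Bool) (A : Qd) (T : Fin 5 → V 5) : Fin 5 × Fin 5 → ℝ :=
  bif t then a⁻¹ • ‖mat A T‖⁻¹ • mat A T else 0

/-- The rounded quadric. -/
noncomputable def AA (η K : ℝ) (l : Fin 3 → V 5) (i i' : ℕ) (t : Bool) (hz : Fin 4 → ℤ)
    (Nz : Fin 5 × Fin 5 → ℤ) : Qd :=
  bif t then back ((η * 2 ^ i' * (K * η / (η * 2 ^ i))) • cz Nz)
    (crd l ((η * 2 ^ i) • cz hz) (η * 2 ^ i)) else vecMulVec (bv 0) (cov l ((η * 2 ^ i) • cz hz))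

theorem key (r1 : ERnd1) (r2 : ERnd2) (r3 : ERnd3) : ∃ (C₀ : ℝ) (c : ℕ) (K : ℝ → ℝ), 1 ≤ C₀ ∧
    ∀ (C : ℝ) (A₁ A₂ : Qd) (Y O Z E : V 5) (W l : Fin 3 → V 5) (s₀ Λ η H Γ κ : ℝ) (I : ℕ), C₀ ≤ C →
    RG A₁ A₂ Y O Z E W l s₀ Λ η H Γ → curv A₂ Y W ≤ 2 ^ I * η → Λ ≤ 2 ^ I → C * Λ ^ 50 ≤ κ →
    ∃ (i i' : ℕ) (t : Bool), (i ≤ c + 21 * I + 1 ∧ i' ≤ c + 21 * I + 1) ∧
      ‖(η * 2 ^ i)⁻¹ • hyp A₁ (anc A₁ Z E) O W - (η * 2 ^ i)⁻¹ • hyp A₂ Y O W‖ ≤ 1 ∧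
      ∀ hz, hz = flv 0 ((η * 2 ^ i)⁻¹ • hyp A₁ (anc A₁ Z E) O W) →
      ∀ T, T = frm O W ((η * 2 ^ i) • cz hz) (η * 2 ^ i) →
      ‖yy (K Λ * η / (η * 2 ^ i)) t A₁ T - yy (K Λ * η / (η * 2 ^ i)) t A₂ T‖ ≤ 1 ∧
      Out (AA η (K Λ) l i i' t hz (flv 0 (yy (K Λ * η / (η * 2 ^ i)) t A₁ T))) Z E s₀
        (C * Λ ^ 50 * κ * η) (C * Λ ^ 50 * (1 + κ * η * Γ))
        (C * Λ ^ 50 * (H + (κ ^ 2 * η)⁻¹ + η * Γ ^ 2)) := by
  obtain ⟨C1, c1, r1⟩ := r1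
  obtain ⟨C2, c2, r2⟩ := r2
  obtain ⟨C3, c3, r3⟩ := r3
  obtain ⟨c, hc⟩ := pow_unbounded_of_one_lt (4 * C2 * (2 * C1) ^ 5) (one_lt_two (α := ℝ))
  have d0 : 0 ≤ 8 * C3 * C2 ^ 2 * (2 * C1) ^ 9 := by positivity
  refine ⟨8 + 2 * (8 * C3 * C2 ^ 2 * (2 * C1) ^ 9), c, fun Λ => C2 * (2 * (C1 * Λ ^ 4)) ^ 5,
    by linarith, fun C A₁ A₂ Y O Z E W l s₀ Λ η H Γ κ I hC g hI hΛ hκ => ?_⟩
  obtain ⟨l1, e0, -⟩ := g.pos
  have H0 : 0 ≤ H := (abs_nonneg _).trans (g.hs 0 0)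
  have Γ0 : 0 ≤ Γ := (abs_nonneg _).trans (g.gam 0 0)
  obtain ⟨a1, a2, a3⟩ := r1 A₁ A₂ Y O Z E W l s₀ Λ η H Γ g
  have p1 : ∀ {a b : ℕ}, a ≤ b → Λ ^ a ≤ Λ ^ b := fun h => pow_le_pow_right₀ l1 h
  have p4 : Λ ≤ Λ ^ 4 := by simpa using p1 (show 1 ≤ 4 by omega)
  have p2 : Λ ≤ Λ ^ 2 := by simpa using p1 (show 1 ≤ 2 by omega)
  have I1 : (1 : ℝ) ≤ 2 ^ I := l1.trans hΛ
  have x1 := le_max_right (curv A₂ Y W) η
  have x2 : max (curv A₂ Y W) η ≤ 2 ^ I * η := max_le hI (le_mul_of_one_le_left e0.le I1)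
  have q1 : 3 * Λ ≤ C1 * Λ ^ 4 := by gcongr
  have bg : 4 * C2 * (2 * (C1 * Λ ^ 4)) ^ 5 * 2 ^ I ≤ 2 ^ (c + 21 * I) := by
    rw [show (2 : ℝ) ^ (c + 21 * I) = 2 ^ c * (2 ^ I) ^ 20 * 2 ^ I by ring,
      show 4 * C2 * (2 * (C1 * Λ ^ 4)) ^ 5 = 4 * C2 * (2 * C1) ^ 5 * Λ ^ 20 by ring]
    gcongr
  have hG : 8 * Λ + 2 * (C3 * Λ ^ 2 * (8 * C2 ^ 2 * (2 * (C1 * Λ ^ 4)) ^ 9)) ≤ C * Λ ^ 50 := by
    have := mul_le_mul_of_nonneg_left (p1 (show 38 ≤ 50 by omega)) d0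
    have := mul_le_mul_of_nonneg_right hC (show 0 ≤ Λ ^ 50 by positivity)
    have : Λ ≤ Λ ^ 50 := by simpa using p1 (show 1 ≤ 50 by omega)
    linarith
  beta_reduce
  generalize C1 * Λ ^ 4 = B at *
  generalize C * Λ ^ 50 = L at *
  have B0 : 0 < B := by linarith
  have B1 : 1 ≤ 2 * B := by linarith
  have B2 : ∀ k : ℕ, 2 * B ≤ (2 * B) ^ (k + 1) := fun k => le_self_pow₀ B1 k.succ_ne_zero
  obtain ⟨i, hi, m1, m2⟩ := dy (r := B * max (curv A₂ Y W) η / η) (m := c + 21 * I)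
    ((one_le_div e0).2 (x1.trans (le_mul_of_one_le_left (by linarith) (by linarith)))) (by
      rw [div_le_iff₀ e0]
      refine le_trans ?_ (mul_le_mul_of_nonneg_right bg e0.le)
      rw [mul_assoc _ _ η]
      exact mul_le_mul (((by linarith : B ≤ 2 * B).trans (B2 4)).trans
        (le_mul_of_one_le_left (by positivity) (by linarith))) x2 (by linarith) (by positivity))
  rw [div_le_iff₀' e0] at m1
  rw [← mul_div_assoc, le_div_iff₀' e0, ← mul_assoc] at m2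
  have μ0 : 0 < η * 2 ^ i := by positivity
  have b0 := scl μ0 (a2.trans m1)
  have b1 := rnd (hyp A₁ (anc A₁ Z E) O W) μ0 zero_le_one
  rw [one_mul, one_smul] at b1
  have b2 := (norm_sub_le_norm_sub_add_norm_sub _ _ _).trans (add_le_add b1 (a2.trans m1))
  rw [← two_mul] at b2
  obtain ⟨o1, o2⟩ := r3 A₁ A₂ Y O Z E W l s₀ Λ η H Γ _ _ g μ0 a1 b1 b2 fun s s0 s1 =>
    (a3 s s0 s1).trans m1
  have G0 : 0 ≤ C3 * Λ ^ 2 * (8 * C2 ^ 2 * (2 * B) ^ 9) := by positivity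
  have k1 : 1 ≤ κ := by linarith
  have k2 : η ≤ κ * η := le_mul_of_one_le_left e0.le k1
  rcases le_total (curv A₂ Y W) (κ * η) with f | f
  · refine ⟨i, 0, false, ⟨hi, Nat.zero_le _⟩, b0, ?_⟩
    rintro _ rfl _ rfl
    have u1 : η * 2 ^ i ≤ 2 * B * (κ * η) := m2.trans (by gcongr; exact max_le f k2)
    have u2 : C3 * Λ * (2 * B) ≤ L := by
      have : C3 * Λ * (1 * (2 * B)) ≤ C3 * Λ ^ 2 * (8 * C2 ^ 2 * (2 * B) ^ 9) := by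
        gcongr
        exacts [by linarith [one_le_pow₀ c2 (n := 2)], B2 8]
      linarith
    have u3 : 1 + η * 2 ^ i * Γ ≤ 2 * B * (1 + κ * η * Γ) := by
      linarith [mul_le_mul_of_nonneg_right u1 Γ0]
    refine ⟨by simp [yy], out_mono o1 ?_ ?_ (mul_nonneg (by linarith) (by positivity))⟩
    · refine (mul_le_mul_of_nonneg_left u1 (by positivity)).trans ?_
      rw [← mul_assoc, mul_assoc L]
      gcongr
    · refine (mul_le_mul_of_nonneg_left u3 (by positivity)).trans ?_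
      rw [← mul_assoc]
      gcongr
  · rw [max_eq_left (k2.trans f)] at m1 m2
    have u0 : curv A₂ Y W ≤ η * 2 ^ i := (le_mul_of_one_le_left (by linarith) (by linarith)).trans m1
    obtain ⟨n1, n2, n3⟩ := r2 A₁ A₂ Y O Z E W l s₀ Λ η H Γ (2 * B) _ _ g (k2.trans f) u0 m2
      (by linarith) b2
    obtain ⟨v1, v2, v3, v4⟩ := num l1 e0 H0 Γ0 G0 hG hκ (f.trans u0)
    generalize hT : frm O W _ (η * 2 ^ i) = T at n1 n2 n3 o2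
    have ν1 : η ≤ 4 * ‖mat A₁ T‖ := le_of_mul_le_mul_left (a := 3 * Λ)
      (by linarith [mul_le_mul q1 (k2.trans f) e0.le B0.le]) (by linarith)
    have ν0 : 0 < ‖mat A₁ T‖ := by linarith
    obtain ⟨i', hi', m3, m4⟩ := dy (r := 4 * ‖mat A₁ T‖ / η) (m := c + 21 * I)
      ((one_le_div e0).2 ν1) (by
        rw [div_le_iff₀ e0]
        refine le_trans ?_ (mul_le_mul_of_nonneg_right bg e0.le)
        have : C2 * (2 * B) ^ 4 * (η * 2 ^ i) ≤ C2 * (2 * B) ^ 4 * (2 * B * (2 ^ I * η)) := by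
          gcongr C2 * (2 * B) ^ 4 * ?_
          exact m2.trans (by gcongr)
        linarith)
    rw [div_le_iff₀' e0] at m3
    rw [← mul_div_assoc, le_div_iff₀' e0] at m4
    have ac : 0 < C2 * (2 * B) ^ 5 * η / (η * 2 ^ i) := by positivity
    refine ⟨i, i', true, ⟨hi, hi'⟩, b0, ?_⟩
    rintro _ rfl _ rfl
    rw [hT]
    have w1 := rnd (‖mat A₁ T‖⁻¹ • mat A₁ T) ac (show 0 ≤ η * 2 ^ i' by positivity)
    rw [smul_smul (η * 2 ^ i'), ← div_eq_mul_inv] at w1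
    have w2 : η * 2 ^ i' * (C2 * (2 * B) ^ 5 * η / (η * 2 ^ i)) ≤ 8 * C2 ^ 2 * (2 * B) ^ 9 * η := by
      refine (mul_le_mul_of_nonneg_right (show _ ≤ 8 * (C2 * (2 * B) ^ 4 * (η * 2 ^ i)) by linarith)
        ac.le).trans (le_of_eq ?_)
      field_simp
    refine ⟨scl ac n3, out_mono (o2 _ _ _ ((le_div_iff₀ ν0).2 m3)
      ((div_le_iff₀ ν0).2 (by linarith)) (w1.trans w2) (le_trans ?_ v1)) ?_ ?_ ?_⟩
    · rw [← mul_assoc]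
      gcongr
    all_goals rwa [← mul_assoc (C3 * Λ ^ 2)]

end ERoundA

open ERoundA in
theorem rowERound : OfERound := by
  intro r1 r2 r3
  obtain ⟨C₀, c, K, c0, h⟩ := key r1 r2 r3
  have c1 : (0 : ℝ) ≤ 2 * (c + 21) ^ 2 * 5 ^ 4 * 5 ^ 25 := by positivity
  refine ⟨C₀ + 2 * (c + 21) ^ 2 * 5 ^ 4 * 5 ^ 25, by linarith, ?_⟩
  intro Ω X₁ X₂ P x₁ x₂ A₁ A₂ Y O Z E W l s₀ Λ η H Γ κ I f1 f2 hR hΛ hκ
  choose! i i' t h1 h2 h3 using fun ω (hω : ω ∈ P.S) => h _ (A₁ ω) (A₂ ω) (Y ω) (O ω) (Z ω) (E ω)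
    (W ω) (l ω) (s₀ ω) Λ η H Γ κ I (le_add_of_nonneg_right c1) (hR ω hω).1 (hR ω hω).2 hΛ hκ
  obtain ⟨y, hy⟩ : ∃ y : Ω → V 4, y = fun ω =>
    (η * 2 ^ i ω)⁻¹ • hyp (A₁ ω) (anc (A₁ ω) (Z ω) (E ω)) (O ω) (W ω) := ⟨_, rfl⟩
  obtain ⟨u, hu⟩ : ∃ u : (Ω → Qd) → Ω → Fin 5 × Fin 5 → ℝ, u = fun A ω =>
    yy (K Λ * η / (η * 2 ^ i ω)) (t ω) (A ω)
      (frm (O ω) (W ω) ((η * 2 ^ i ω) • cz (flv 0 (y ω))) (η * 2 ^ i ω)) := ⟨_, rfl⟩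
  have h4 := fun ω hω => h3 ω hω (flv 0 (y ω)) (by rw [hy]) _ rfl
  have D : ∀ {X : Type} (x : Ω → X) (A : Ω → Qd) (y' : Ω → V 4),
      Fn P (fun ω => (A ω, O ω, W ω, l ω)) x → Fn P y' (fun ω => (i ω, x ω)) →
      (∀ ω ∈ P.S, ‖y ω - y' ω‖ ≤ 1 ∧ ‖u A₁ ω - u A ω‖ ≤ 1) →
      Det P (fun ω => ((((O ω, W ω, l ω), i ω, i' ω, t ω), flv 0 (y ω)), flv 0 (u A₁ ω))) x
        ((C₀ + 2 * (c + 21) ^ 2 * 5 ^ 4 * 5 ^ 25) * (I + 1) ^ 2) := fun x A y' f f' k a ha => by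
    refine (det_chain (det_chain (det_idx t (fun a ha b hb e => congrArg Prod.snd (f a ha b hb e)) h1)
      (det_cen (fun a ha b hb e => f' a ha b hb ?_) fun ω hω => (k ω hω).1) (by positivity))
      (det_cen (fun a ha b hb e => ?_) fun ω hω => (k ω hω).2) (by positivity) a ha).imp
      fun T hT => ⟨hT.1.trans ?_, hT.2⟩
    · simp only [Prod.mk.injEq] at e ⊢
      exact ⟨e.1.2.1, e.2⟩
    · simp only [Prod.mk.injEq] at e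
      obtain ⟨⟨⟨⟨e1, e2, -⟩, e3, -, e4⟩, e5⟩, e6⟩ := e
      simp only [hu, e1, e2, e3, e4, e5, show A a = A b from congrArg Prod.fst (f a ha b hb e6)]
    · have I0 : (0 : ℝ) ≤ I := I.cast_nonneg
      have c2 : (0 : ℝ) ≤ c := c.cast_nonneg
      have e : ((c + 21 * I + 1 : ℕ) + 1 : ℝ) ^ 2 ≤ ((c + 21) * (I + 1)) ^ 2 := by
        push_cast
        gcongr
        nlinarith
      simp only [Fintype.card_prod, Fintype.card_fin, Nat.reduceMul]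
      linarith [mul_nonneg (zero_le_one.trans c0) (sq_nonneg (I + 1 : ℝ))]
  refine ⟨_, _, fun ω => AA η (K Λ) (l ω) (i ω) (i' ω) (t ω) (flv 0 (y ω)) (flv 0 (u A₁ ω)),
    D x₁ A₁ y (fun a ha b hb e => ?_) (fun a ha b hb e => ?_) fun ω _ => by simp,
    D x₂ A₂ (fun ω => (η * 2 ^ i ω)⁻¹ • hyp (A₂ ω) (Y ω) (O ω) (W ω)) (fun a ha b hb e => ?_)
      (fun a ha b hb e => ?_) fun ω hω => ⟨hy ▸ h2 ω hω, hu ▸ (h4 ω hω).1⟩,
    fun a _ b _ e => ?_, fun ω hω => hu ▸ (h4 ω hω).2⟩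
  · have := f1 a ha b hb e
    simp only [Prod.mk.injEq] at this ⊢
    tauto
  · have := f1 a ha b hb (congrArg Prod.snd e)
    simp only [Prod.mk.injEq] at this e
    simp only [hy, this, e]
  · have := f2 a ha b hb e
    simp only [Prod.mk.injEq] at this ⊢
    tauto
  · have := f2 a ha b hb (congrArg Prod.snd e)
    simp only [Prod.mk.injEq] at this e
    simp only [this, e]
  · simp only [Prod.mk.injEq] at e
    simp only [e]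

end Pool.Agent.MP_5168f5_an.R4
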