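import Pool.Agent.MP_5168f5_an.R4.SpecE1

/-! A dyadic scale at which one monomial dominates. -/

namespace Pool.Agent.MP_5168f5_an.R4

open Finset

namespace ESelA

theorem two {a b K x y : ℝ} {i j : ℕ} (hij : i < j) (hb : 0 ≤ b) (hK : 1 ≤ K) (hx : 0 < x)
    (hy : K ^ 2 * x ≤ y) (h : a * x ^ i < K * (b * x ^ j)) (h' : b * y ^ j < K * (a * y ^ i)) :
    False := by
  obtain ⟨d, rfl⟩ := Nat.exists_eq_add_of_lt hij
  have y0 : 0 < y := lt_of_lt_of_le (by positivity) hy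
  have h1 : a < K * (b * x ^ (d + 1)) :=
    lt_of_mul_lt_mul_right (h.trans_eq (by ring)) (pow_pos hx i).le
  have h2 : b * y ^ (d + 1) < K * a :=
    lt_of_mul_lt_mul_right (((by ring : _ = _).trans_lt h').trans_eq (by ring)) (pow_pos y0 i).le
  have h3 : K ^ 2 * x ^ (d + 1) ≤ y ^ (d + 1) := by
    refine le_trans ?_ (pow_le_pow_left₀ (by positivity) hy _)
    rw [mul_pow]
    exact mul_le_mul_of_nonneg_right (le_self_pow₀ (one_le_pow₀ hK) d.succ_ne_zero) (by positivity)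
  nlinarith [mul_le_mul_of_nonneg_left h3 hb, mul_lt_mul_of_pos_left h1 (one_pos.trans_le hK)]

theorem alt (c : ℕ → ℝ) {K x m : ℝ} (hK : 1 < K) (hm : 0 < m)
    (h : ∃ i, 1 ≤ i ∧ i ≤ 4 ∧ m ≤ |c i| * x ^ i) : (∃ j, Dom c K x j ∧ m ≤ |c j| * x ^ j) ∨
    ∃ p ∈ (Icc 1 4 ×ˢ Icc 1 4).filter fun p : ℕ × ℕ => p.1 < p.2,
      |c p.1| * x ^ p.1 < K * (|c p.2| * x ^ p.2) ∧ |c p.2| * x ^ p.2 < K * (|c p.1| * x ^ p.1) := by
  obtain ⟨j, hj, hm'⟩ := (Icc 1 4).exists_max_image (fun i => |c i| * x ^ i) ⟨1, by simp⟩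
  obtain ⟨i, i1, i4, hi⟩ := h
  have h1 := hi.trans (hm' i (mem_Icc.2 ⟨i1, i4⟩))
  refine or_iff_not_imp_left.2 fun hn => ?_
  obtain ⟨l, l1, l4, ne, hl⟩ : ∃ l, 1 ≤ l ∧ l ≤ 4 ∧ l ≠ j ∧ |c j| * x ^ j < K * (|c l| * x ^ l) := by
    by_contra! e
    exact hn ⟨j, ⟨(mem_Icc.1 hj).1, (mem_Icc.1 hj).2, e⟩, h1⟩
  have h2 : |c l| * x ^ l < K * (|c j| * x ^ j) :=
    (hm' l (mem_Icc.2 ⟨l1, l4⟩)).trans_lt (lt_mul_of_one_lt_left (hm.trans_le h1) hK)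
  rcases ne.lt_or_gt with e | e
  · exact ⟨(l, j), mem_filter.2 ⟨mem_product.2 ⟨mem_Icc.2 ⟨l1, l4⟩, hj⟩, e⟩, h2, hl⟩
  · exact ⟨(j, l), mem_filter.2 ⟨mem_product.2 ⟨hj, mem_Icc.2 ⟨l1, l4⟩⟩, e⟩, hl, h2⟩

end ESelA

open ESelA in
theorem rowESel : ESel := by
  classical
  intro c r k ε r1 ε0 h0 hk
  have K1 : (1 : ℝ) < 2 ^ r := one_lt_pow₀ one_lt_two (by omega)
  obtain ⟨w, wk, hw, i, i1, i4, hi⟩ : ∃ w, w < k ∧
      (∀ i, 1 ≤ i → i ≤ 4 → |c i| * (2 ^ w) ^ i ≤ (2 ^ r) ^ 141 * ε) ∧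
      ∃ i, 1 ≤ i ∧ i ≤ 4 ∧ (2 ^ r) ^ 141 * ε < |c i| * (2 ^ (w + 1)) ^ i := by
    induction k with
    | zero =>
      obtain ⟨i, i1, i4, hi⟩ := hk
      have := (h0 i i1 i4).trans (le_mul_of_one_le_left ε0.le (one_le_pow₀ (n := 141) K1.le))
      simp only [pow_zero, one_pow, mul_one] at hi
      exact absurd hi this.not_gt
    | succ k ih =>
      by_cases e : ∃ i, 1 ≤ i ∧ i ≤ 4 ∧ (2 ^ r) ^ 141 * ε < |c i| * (2 ^ k) ^ i
      · exact (ih e).imp fun w h => ⟨by omega, h.2⟩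
      · exact ⟨k, by omega, by simpa using e, hk⟩
  obtain ⟨v, rfl⟩ : ∃ v, w = v + r + 18 * r := by
    have h1 : ((2 : ℝ) ^ r) ^ 141 * ε < (2 ^ (w + 1)) ^ 4 * ε := hi.trans_le (by
      rw [mul_comm]
      exact mul_le_mul (pow_le_pow_right₀ (one_le_pow₀ one_le_two) i4) (h0 i i1 i4) (abs_nonneg _)
        (by positivity))
    have h2 := lt_of_mul_lt_mul_right h1 ε0.le
    rw [← pow_mul, ← pow_mul, pow_lt_pow_iff_right₀ one_lt_two] at h2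
    exact ⟨w - 19 * r, by omega⟩
  by_contra hn
  have key := fun t (ht : t ∈ range 7) => (alt c (x := 2 ^ (v + r + 3 * r * t))
    (m := (2 ^ r) ^ 17 * ε) K1 (by positivity) ⟨i, i1, i4, by
      refine le_of_mul_le_mul_left (le_trans (le_of_eq (by ring)) (hi.le.trans ?_))
        (show (0 : ℝ) < (2 ^ r) ^ 124 by positivity)
      rw [mul_left_comm]
      refine mul_le_mul_of_nonneg_left ?_ (abs_nonneg _)
      rw [← pow_mul, ← pow_mul, ← pow_mul, ← pow_add]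
      refine pow_le_pow_right₀ one_le_two ?_
      interval_cases i <;> omega⟩).resolve_left fun ⟨j, h1, h2⟩ => by
    have : 3 * r * t ≤ 3 * r * 6 := Nat.mul_le_mul_left _ (Nat.lt_succ_iff.1 (mem_range.1 ht))
    refine hn ⟨_, j, by omega, by omega, h1, h2, le_trans ?_ (hw j h1.1 h1.2.1)⟩
    exact mul_le_mul_of_nonneg_left (pow_le_pow_left₀ (by positivity)
      (pow_le_pow_right₀ one_le_two (by omega)) _) (abs_nonneg _)
  choose! p h1 h2 h3 using key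
  have no : ∀ t ∈ range 7, ∀ s ∈ range 7, t < s → p t ≠ p s := fun t ht s hs l e => by
    refine two (mem_filter.1 (h1 t ht)).2 (abs_nonneg _) K1.le (by positivity) ?_ (h2 t ht)
      (e ▸ h3 s hs)
    rw [← pow_mul, ← pow_add]
    have : 3 * r * (t + 1) ≤ 3 * r * s := Nat.mul_le_mul_left _ l
    exact pow_le_pow_right₀ one_le_two (by nlinarith)
  obtain ⟨t, ht, s, hs, ne, e⟩ := exists_ne_map_eq_of_card_lt_of_maps_to (by decide) h1
  rcases ne.lt_or_gt with l | l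
  exacts [no t ht s hs l e, no s hs t ht l e.symm]

end Pool.Agent.MP_5168f5_an.R4
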