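import Pool.Agent.MP_5168f5_an.R4.SpecE2

/-! A sparse event with a variable number of values. -/

namespace Pool.Agent.MP_5168f5_an.R4

open H19 H17S H17F Filter

theorem rowESpa : ESpa := by
  intro Ω α β P E F G B c hB h1 h2
  classical
  have a1 := ch_tri (P := P) F (fun ω => if E ω then 1 else 0 : Ω → ℕ) G
  have a2 := ch_label (P := P) (ι := fun ω => if E ω then 1 else 0) (I := 1)
    (fun ω _ => by split_ifs <;> simp) G
  have a3 := ch_detE (P := P) (F := F) (G := fun ω => ((if E ω then 1 else 0 : ℕ), G ω))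
    (fun ω => B ω * Real.exp (-c * (if E ω then 1 else 0 : ℕ)))
    (fun a ha b hb e => by simp only [hB a ha b hb (congrArg Prod.snd e), (Prod.mk.inj e).1])
    fun a ha => by
      by_cases e : E a
      · obtain ⟨T, t1, t2⟩ := h2 a ha
        refine ⟨T, by simpa [e] using t1, fun b hb e' => t2 b hb (congrArg Prod.snd e') ?_⟩
        simpa [e] using (Prod.mk.inj e').1
      · obtain ⟨T, t1, t2⟩ := h1 a ha
        exact ⟨T, by simpa [e] using t1, fun b hb e' => t2 b hb (congrArg Prod.snd e')⟩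
  have a4 : (P.E fun ω => Real.log (B ω * Real.exp (-c * (if E ω then 1 else 0 : ℕ)))) =
      (P.E fun ω => Real.log (B ω)) - pb P E * c := by
    rw [mul_comm, pb, ← P.E_mul, ← P.E_sub]
    refine P.E_congr fun a ha => ?_
    obtain ⟨T, t1, t2⟩ := h1 a ha
    have : (0 : ℝ) < T.card := Nat.cast_pos.2 (Finset.card_pos.2 ⟨_, t2 a ha rfl⟩)
    rw [Real.log_mul (this.trans_le t1).ne' (Real.exp_pos _).ne', Real.log_exp]
    split_ifs <;> simp [sub_eq_add_neg]
  rw [show ((1 : ℕ) : ℝ) + 1 = 2 by norm_num] at a2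
  unfold lg
  linarith

end Pool.Agent.MP_5168f5_an.R4
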