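import Pool.Agent.MP_5168f5_an.R4.SpecE1

/-! Three spread points of the conic make it tame. -/

namespace Pool.Agent.MP_5168f5_an.R4

open H19 H17S H17F Matrix

namespace ETameA

theorem disc (A : Qd) (Y W e : V 5) (ζ g : ℝ) (h : pf A Y W = 0) :
    pf A (Y + ζ • W + g • e) e ^ 2 - 4 * qf A e * qf A (Y + ζ • W + g • e) =
      pf A Y e ^ 2 - 4 * qf A e * qf A Y +
        ζ * (2 * pf A Y e * pf A W e + ζ * (pf A W e ^ 2 - 4 * (qf A e * qf A W))) := by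
  simp only [qf_add, qf_smul, pf_add_left, pf_smul_left, pf_smul_right, pf_self, h]
  ring

theorem one (A : Qd) (Y v : V 5) (ζ g L ε : ℝ) (hL : 1 ≤ L) (h1 : 1 ≤ pf A Y (bv 4))
    (h2 : pf A Y (bv 4) ≤ L) (h3 : |qf A Y| ≤ ε) (h4 : |qf A (bv 4)| * ε ≤ 1)
    (h5 : |qf A (Y + ζ • v + g • bv 4)| ≤ ε) (h6 : |pf A (Y + ζ • v + g • bv 4) (bv 4)| ≤ L)
    (h7 : 1 ≤ L * |ζ|) : |2 * pf A Y (bv 4) * pf A (tl A Y v) (bv 4) + ζ *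
      (pf A (tl A Y v) (bv 4) ^ 2 - 4 * (qf A (bv 4) * qf A (tl A Y v)))| ≤ 9 * L ^ 3 := by
  have e : Y + ζ • v + g • bv 4 =
      Y + ζ • tl A Y v + (g + ζ * (pf A Y v / pf A Y (bv 4))) • bv 4 := by
    unfold tl
    module
  have h0 : pf A Y (tl A Y v) = 0 := by
    rw [tl, pf_sub_right, pf_smul_right, div_mul_cancel₀ _ (by linarith), sub_self]
  have d := disc A Y (tl A Y v) (bv 4) ζ (g + ζ * (pf A Y v / pf A Y (bv 4))) h0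
  rw [← e] at d
  generalize 2 * pf A Y (bv 4) * pf A (tl A Y v) (bv 4) + ζ *
    (pf A (tl A Y v) (bv 4) ^ 2 - 4 * (qf A (bv 4) * qf A (tl A Y v))) = u at d ⊢
  have k : ∀ x : ℝ, |x| ≤ ε → |qf A (bv 4) * x| ≤ 1 := fun x hx => by
    rw [abs_mul]
    exact (mul_le_mul_of_nonneg_left hx (abs_nonneg _)).trans h4
  have k1 := abs_le.1 (k _ h3)
  have k2 := abs_le.1 (k _ h5)
  have k3 := sq_le_sq' (abs_le.1 h6).1 (abs_le.1 h6).2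
  have k4 := pow_le_pow_left₀ (by linarith) h2 2
  have k5 : 1 ≤ L ^ 2 := one_le_pow₀ hL
  have k6 : |ζ * u| ≤ 9 * L ^ 2 := by
    rw [abs_le]
    constructor <;> nlinarith [sq_nonneg (pf A Y (bv 4)),
      sq_nonneg (pf A (Y + ζ • v + g • bv 4) (bv 4))]
  rw [abs_mul] at k6
  nlinarith [mul_le_mul_of_nonneg_right h7 (abs_nonneg u),
    mul_le_mul_of_nonneg_left k6 (show 0 ≤ L by linarith)]

theorem num {D b c ζ₁ ζ₂ L : ℝ} (hL : 1 ≤ L) (hD : 1 ≤ D) (h1 : |ζ₁| ≤ L)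
    (h2 : 1 ≤ L * |ζ₁ - ζ₂|) (a₁ : |2 * D * b + ζ₁ * (b ^ 2 - 4 * c)| ≤ 9 * L ^ 3)
    (a₂ : |2 * D * b + ζ₂ * (b ^ 2 - 4 * c)| ≤ 9 * L ^ 3) :
    |b| ≤ 100 * L ^ 6 ∧ |c| ≤ (100 * L ^ 6) ^ 2 := by
  have p : ∀ i j : ℕ, i ≤ j → L ^ i ≤ L ^ j := fun i j => pow_le_pow_right₀ hL
  have L0 : 0 ≤ L := by linarith
  obtain ⟨u, hu⟩ : ∃ u, u = b ^ 2 - 4 * c := ⟨_, rfl⟩
  rw [← hu] at a₁ a₂
  have k1 : |ζ₁ - ζ₂| * |u| ≤ 18 * L ^ 3 := by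
    rw [← abs_mul, show (ζ₁ - ζ₂) * u = 2 * D * b + ζ₁ * u - (2 * D * b + ζ₂ * u) by ring]
    exact (abs_sub _ _).trans (by linarith)
  have k2 : |u| ≤ 18 * L ^ 4 := by
    nlinarith [mul_le_mul_of_nonneg_right h2 (abs_nonneg u), mul_le_mul_of_nonneg_left k1 L0]
  have k3 : |ζ₁ * u| ≤ 18 * L ^ 5 := by
    rw [abs_mul]
    exact (mul_le_mul h1 k2 (abs_nonneg _) L0).trans_eq (by ring)
  have k4 : 2 * D * |b| ≤ 27 * L ^ 5 := by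
    rw [← abs_of_nonneg (show 0 ≤ 2 * D by linarith), ← abs_mul,
      show 2 * D * b = 2 * D * b + ζ₁ * u - ζ₁ * u by ring]
    exact (abs_sub _ _).trans (by linarith [p 3 5 (by norm_num)])
  have k5 : |b| ≤ 14 * L ^ 6 := by
    nlinarith [abs_nonneg b, p 5 6 (by norm_num), pow_nonneg L0 6]
  have k6 := pow_le_pow_left₀ (abs_nonneg b) k5 2
  rw [sq_abs] at k6
  have k7 := abs_le.1 k2
  refine ⟨by linarith [pow_nonneg L0 6], abs_le.2 ⟨?_, ?_⟩⟩ <;>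
    nlinarith [p 4 12 (by norm_num), sq_nonneg b, pow_nonneg L0 12]

end ETameA

theorem rowETame : ETame := fun A Y v ζ₁ ζ₂ g₁ g₂ L ε hL h1 h2 h3 h4 a₁ b₁ a₂ b₂ c₁ _ d₁ d₂ d =>
  ETameA.num hL h1 c₁ d (ETameA.one A Y v ζ₁ g₁ L ε hL h1 h2 h3 h4 a₁ b₁ d₁)
    (ETameA.one A Y v ζ₂ g₂ L ε hL h1 h2 h3 h4 a₂ b₂ d₂)

end Pool.Agent.MP_5168f5_an.R4
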