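import Pool.Agent.MP_5168f5_an.R4.SpecE1

/-! A segment on a quadric stays near the tangent hyperplane. -/

namespace Pool.Agent.MP_5168f5_an.R4

open H19 H17S H17F Matrix

namespace ETrA

theorem pf_mat (A₁ A₂ : Qd) (c : ℝ) (X Y : V 5) :
    pf (A₁ - c • A₂) X Y = pf A₁ X Y - c * pf A₂ X Y := by
  simp only [pf, sub_mulVec, smul_mulVec, dotProduct_sub, dotProduct_smul, smul_eq_mul]; ring

theorem pf_sum (A : Qd) (U : Fin 3 → V 5) (B : Fin 3 → ℝ) (T : V 5) :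
    pf A (∑ a, B a • U a) T = ∑ a, B a * pf A (U a) T := by
  simp only [Fin.sum_univ_three, pf_add_left, pf_smul_left]

theorem sum_bd {A : Qd} {U : Fin 3 → V 5} {B : Fin 3 → ℝ} {T : V 5} {n m : ℝ}
    (hB : ∀ a, |B a| ≤ n) (h : ∀ a, |pf A (U a) T| ≤ m) :
    |pf A (∑ a, B a • U a) T| ≤ 3 * (n * m) := by
  rw [pf_sum]
  refine (Finset.abs_sum_le_sum_abs _ _).trans ((Finset.sum_le_card_nsmul _ _ (n * m)
    fun a _ => ?_).trans (by simp))
  rw [abs_mul]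
  exact mul_le_mul (hB a) (h a) (abs_nonneg _) ((abs_nonneg _).trans (hB a))

theorem loc {A : Qd} {Y e : V 5} {U : Fin 3 → V 5} {B : Fin 3 → ℝ} {γ Λ μ n : ℝ} (hΛ : 1 ≤ Λ)
    (hn : n * Λ = 1 / 50) (hD : 1 ≤ pf A Y e) (hq : |qf A Y| ≤ μ) (ht : ∀ a, |pf A Y (U a)| ≤ μ)
    (hs : ∀ a b, |pf A (U a) (U b)| ≤ 2 * Λ * μ) (hβ : ∀ a, |pf A (U a) e| ≤ Λ)
    (hB : ∀ a, |B a| ≤ n) (hp : 46 / 100 ≤ pf A (Y + ∑ a, B a • U a + γ • e) e)
    (hz : |qf A (Y + ∑ a, B a • U a + γ • e)| ≤ μ) : |γ| ≤ 3 * μ := by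
  have μ0 : 0 ≤ μ := (abs_nonneg _).trans hq
  have n0 : 0 ≤ n := (abs_nonneg _).trans (hB 0)
  have n1 : n ≤ 1 / 50 := hn ▸ le_mul_of_one_le_right n0 hΛ
  have h1 := sum_bd hB hβ
  have h2 := sum_bd (T := Y) hB fun a => (pf_comm A _ _ ▸ ht a)
  have h3 := sum_bd (T := ∑ a, B a • U a) hB fun a =>
    (pf_comm A _ _ ▸ sum_bd hB fun b => hs b a)
  have h4 := qf_sub_qf A (Y + ∑ a, B a • U a + γ • e) (Y + ∑ a, B a • U a)
  rw [add_sub_cancel_left, pf_smul_right, pf_smul_right, qf_add A Y, pf_add_left A Y,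
    pf_comm A Y (∑ a, B a • U a)] at h4
  rw [pf_self] at h3
  rw [hn] at h1
  have e1 : n * (3 * (n * (2 * Λ * μ))) = 6 / 50 * (n * μ) := by
    linear_combination 6 * n * μ * hn
  rw [e1] at h3
  have h5 : n * μ ≤ 1 / 50 * μ := mul_le_mul_of_nonneg_right n1 μ0
  generalize pf A (Y + ∑ a, B a • U a + γ • e) e = p at *
  generalize qf A (Y + ∑ a, B a • U a + γ • e) = z at *
  generalize qf A (∑ a, B a • U a) = u at *
  generalize pf A (∑ a, B a • U a) Y = v at *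
  generalize pf A (∑ a, B a • U a) e = w at *
  rw [abs_le] at h1 h2 h3 hq hz
  have h6 : 7 / 10 ≤ (p + (pf A Y e + w)) / 2 := by linarith
  have h7 : |γ * ((p + (pf A Y e + w)) / 2)| ≤ 21 / 10 * μ := by
    rw [abs_le]
    constructor <;> linarith
  rw [abs_mul, abs_of_nonneg (by linarith : 0 ≤ (p + (pf A Y e + w)) / 2)] at h7
  linarith [mul_le_mul_of_nonneg_left h6 (abs_nonneg γ)]

end ETrA

open ETrA in
theorem rowETr : ETr := by
  refine ⟨1000, by norm_num, fun A₁ A₂ Y W Λ η b b' g g' s₀ Z hΛ h hZ s0 s1 hb hp hs => ?_⟩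
  set μ := max (curv A₂ Y W) η with hμ
  set U := fun a => tl A₂ Y (W a) with hU
  have hη : η ≤ μ := le_max_right _ _
  have μ0 : 0 ≤ μ := ((abs_nonneg _).trans h.val.1).trans hη
  have D0 : pf A₂ Y (bv 4) ≠ 0 := by linarith [h.d₂.1]
  have Λ0 : 0 < Λ := by linarith
  obtain ⟨c, c', hc⟩ : ∃ c c' : ℝ, ∀ s, Z s = Y + ∑ a, (b a + s * b' a) • U a +
      (c + s * c') • bv 4 := by
    refine ⟨g + ∑ a, b a * (pf A₂ Y (W a) / pf A₂ Y (bv 4)),
      g' + ∑ a, b' a * (pf A₂ Y (W a) / pf A₂ Y (bv 4)), fun s => ?_⟩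
    rw [hZ]
    simp only [hU, tl, Fin.sum_univ_three]
    module
  have hht : ∀ s, ht A₂ Y (Z s) = c + s * c' := fun s => by
    have z : ∀ a, pf A₂ (U a) Y = 0 := fun a => by
      rw [pf_comm, hU]
      simp only [tl, pf_sub_right, pf_smul_right]
      field_simp
      ring
    rw [ht, hc, add_assoc, add_sub_cancel_left, pf_add_right, pf_comm _ Y (∑ a, _), pf_sum,
      pf_smul_right]
    simp only [z, mul_zero, Finset.sum_const_zero, zero_add]
    field_simp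
  have hsec : ∀ a a', |pf A₁ (U a) (U a')| ≤ 2 * Λ * μ := fun a a' => by
    have h1 := h.sec a a'
    rw [pf_mat] at h1
    have h2 : |pf A₂ (U a) (U a')| ≤ μ :=
      (norm_le_pi_norm (fun i : Fin 3 × Fin 3 => pf A₂ (U i.1) (U i.2)) (a, a')).trans
        (le_max_left _ _)
    have h3 : |pf A₁ Y (bv 4) / pf A₂ Y (bv 4)| ≤ Λ := by
      rw [abs_of_nonneg (div_nonneg (by linarith [h.d₁.1]) (by linarith [h.d₂.1]))]
      exact (div_le_self (by linarith [h.d₁.1]) h.d₂.1).trans h.d₁.2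
    have h4 := mul_le_mul h3 h2 (abs_nonneg _) Λ0.le
    rw [← abs_mul] at h4
    have h5 := abs_sub_abs_le_abs_sub (pf A₁ (U a) (U a'))
      (pf A₁ Y (bv 4) / pf A₂ Y (bv 4) * pf A₂ (U a) (U a'))
    have h6 := le_mul_of_one_le_left μ0 hΛ
    linarith
  obtain ⟨p, p', hpp⟩ : ∃ p p' : ℝ, ∀ s, pf A₁ (Z s) (bv 4) = p + s * p' := by
    refine ⟨pf A₁ Y (bv 4) + ∑ a, b a * pf A₁ (U a) (bv 4) + c * pf A₁ (bv 4) (bv 4),
      ∑ a, b' a * pf A₁ (U a) (bv 4) + c' * pf A₁ (bv 4) (bv 4), fun s => ?_⟩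
    rw [hc, pf_add_left, pf_add_left, pf_sum, pf_smul_left]
    simp only [Fin.sum_univ_three]
    ring
  have hp' : |p'| ≤ 4 * Λ := by
    have h1 := (hs 0 le_rfl one_pos).2
    have h2 := (hs (1 / 2) (by norm_num) (by norm_num)).2
    rw [hpp, abs_le] at h1 h2
    rw [abs_le]
    constructor <;> linarith
  have hb0 : ∀ a, |b a + s₀ * b' a| ≤ 1 / (100 * Λ) := fun a => by
    rw [le_div_iff₀ (by positivity), mul_comm]
    exact (hb a).1
  have near : ∀ d, |d| ≤ 1 / (100 * Λ ^ 2) → 0 ≤ s₀ + d → s₀ + d < 1 →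
      |c + (s₀ + d) * c'| ≤ 3 * μ := fun d hd a1 a2 => by
    have k : ∀ x y : ℝ, |x| ≤ y * Λ → |d * x| ≤ y / (100 * Λ) := fun x y hx => by
      rw [abs_mul]
      refine (mul_le_mul hd hx (abs_nonneg _) (by positivity)).trans_eq ?_
      field_simp
    have k1 : 4 / (100 * Λ) ≤ 4 / 100 := div_le_div_of_nonneg_left (by norm_num) (by norm_num)
      (by linarith)
    refine loc (A := A₁) (Y := Y) (e := bv 4) (U := U) (B := fun a => b a + (s₀ + d) * b' a)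
      (n := 1 / (50 * Λ)) hΛ (by field_simp) h.d₁.1 (h.val.1.trans hη)
      (fun a => (h.tan a).trans hη) hsec h.bet (fun a => ?_) ?_ (hc _ ▸ (hs _ a1 a2).1.trans hη)
    · have h1 := abs_add_le (b a + s₀ * b' a) (d * b' a)
      have h2 := k (b' a) 1 (by rw [one_mul]; exact (hb a).2)
      have h3 : 1 / (50 * Λ) = 1 / (100 * Λ) + 1 / (100 * Λ) := by field_simp; norm_num
      rw [add_mul, ← add_assoc]
      linarith [hb0 a]
    · have h1 := (abs_le.1 (k p' 4 hp')).1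
      rw [hpp] at hp
      rw [← hc, hpp, add_mul]
      linarith
  have hd : 0 < 1 / (100 * Λ ^ 2) := by positivity
  have L2 : 1 ≤ Λ ^ 2 := one_le_pow₀ hΛ
  have hd1 : 1 / (100 * Λ ^ 2) ≤ 1 / 100 :=
    one_div_le_one_div_of_le (by norm_num) (by linarith)
  have n0 := near 0 (by rw [abs_zero]; exact hd.le) (by linarith) (by linarith)
  rw [add_zero] at n0
  have hc' : |c'| ≤ 600 * Λ ^ 2 * μ := by
    obtain ⟨d, e, a1, a2⟩ : ∃ d, |d| = 1 / (100 * Λ ^ 2) ∧ 0 ≤ s₀ + d ∧ s₀ + d < 1 := by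
      rcases le_total s₀ (1 / 2) with a | a
      · exact ⟨_, abs_of_pos hd, by linarith, by linarith⟩
      · exact ⟨-_, (abs_neg _).trans (abs_of_pos hd), by linarith, by linarith⟩
    have n1 := near d e.le a1 a2
    have h1 : |d * c'| ≤ 6 * μ := by
      rw [abs_le] at n0 n1 ⊢
      constructor <;> linarith
    rw [abs_mul, e, one_div_mul_eq_div, div_le_iff₀ (by positivity)] at h1
    linarith
  intro s a1 a2
  have ds : |s - s₀| ≤ 1 := abs_le.2 ⟨by linarith, by linarith⟩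
  have ext : ∀ x y : ℝ, |x + s * y| ≤ |x + s₀ * y| + |y| := fun x y => by
    have h1 := abs_add_le (x + s₀ * y) ((s - s₀) * y)
    rw [abs_mul, show x + s₀ * y + (s - s₀) * y = x + s * y by ring] at h1
    linarith [mul_le_of_le_one_left (abs_nonneg y) ds]
  have m2 : μ ≤ Λ ^ 2 * μ := le_mul_of_one_le_left μ0 L2
  have m3 : Λ ^ 2 * μ ≤ Λ ^ 3 * μ :=
    mul_le_mul_of_nonneg_right (pow_le_pow_right₀ hΛ (by norm_num)) μ0
  have hg : |c + s * c'| ≤ 603 * (Λ ^ 2 * μ) := by linarith [ext c c']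
  refine ⟨by rw [hht]; linarith, fun a => ?_⟩
  have hB : ∀ a, |b a + s * b' a| ≤ 2 * Λ := fun a => by
    have : 1 / (100 * Λ) ≤ 1 := div_le_one_of_le₀ (by linarith) (by positivity)
    linarith [ext (b a) (b' a), hb0 a, (hb a).2]
  have h1 := sum_bd hB fun a' => hsec a' a
  have h2 := mul_le_mul hg (h.bet a) (abs_nonneg _) (by positivity)
  rw [← abs_mul, pf_comm] at h2
  have h3 := (h.tan a).trans hη
  change |pf A₁ (Z s) (U a)| ≤ _
  rw [hc, pf_add_left, pf_add_left, pf_smul_left]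
  refine (abs_add_three _ _ _).trans ?_
  have e1 : 3 * (2 * Λ * (2 * Λ * μ)) = 12 * (Λ ^ 2 * μ) := by ring
  have e2 : 603 * (Λ ^ 2 * μ) * Λ = 603 * (Λ ^ 3 * μ) := by ring
  linarith

end Pool.Agent.MP_5168f5_an.R4
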