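import Pool.Agent.MP_5168f5_an.R4.SpecE1

/-! Row `EWin`: the entropy of a window of digits of a bounded integer. -/

namespace Pool.Agent.MP_5168f5_an.R4

open H19 H17S H17F

namespace EWinA

/-- The quotient of a bounded integer by `2 ^ w` lies in a short interval. -/
theorem quot_mem {t : ℤ} {L : ℝ} {k w : ℕ} (hw : w ≤ k) (ht : |(t : ℝ)| ≤ L * 2 ^ k) :
    t / 2 ^ w ∈ Finset.Icc (-⌊L * 2 ^ (k - w)⌋ - 1) ⌊L * 2 ^ (k - w)⌋ := by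
  have hp : (0 : ℤ) < 2 ^ w := by positivity
  have hpr : (0 : ℝ) < 2 ^ w := by positivity
  have h1 : t / 2 ^ w * 2 ^ w ≤ t := Int.ediv_mul_le t hp.ne'
  have h2 : t < (t / 2 ^ w + 1) * 2 ^ w := Int.lt_ediv_add_one_mul_self t hp
  have h1r : ((t / 2 ^ w : ℤ) : ℝ) * 2 ^ w ≤ t := by exact_mod_cast h1
  have h2r : (t : ℝ) < (((t / 2 ^ w : ℤ) : ℝ) + 1) * 2 ^ w := by exact_mod_cast h2
  have hk : (2 : ℝ) ^ k = 2 ^ (k - w) * 2 ^ w := by rw [← pow_add, Nat.sub_add_cancel hw]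
  rw [hk, ← mul_assoc, abs_le] at ht
  have h3 : ((t / 2 ^ w : ℤ) : ℝ) ≤ L * 2 ^ (k - w) := le_of_mul_le_mul_right (h1r.trans ht.2) hpr
  have h4 : -(L * 2 ^ (k - w)) < ((t / 2 ^ w : ℤ) : ℝ) + 1 :=
    lt_of_mul_lt_mul_right (by rw [neg_mul]; exact ht.1.trans_lt h2r) hpr.le
  have h5 := Int.lt_floor_add_one (L * 2 ^ (k - w))
  rw [Finset.mem_Icc]
  refine ⟨?_, Int.le_floor.2 h3⟩
  have h6 : ((-⌊L * 2 ^ (k - w)⌋ - 2 : ℤ) : ℝ) < ((t / 2 ^ w : ℤ) : ℝ) := by push_cast; linarith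
  have h7 : -⌊L * 2 ^ (k - w)⌋ - 2 < t / 2 ^ w := by exact_mod_cast h6
  omega

theorem card_Icc_le {L : ℝ} (hL : 1 ≤ L) (j : ℕ) :
    ((Finset.Icc (-⌊L * 2 ^ j⌋ - 1) ⌊L * 2 ^ j⌋).card : ℝ) ≤ (2 * L + 2) * 2 ^ j := by
  have h1 : (1 : ℝ) ≤ 2 ^ j := one_le_pow₀ (by norm_num)
  have h0 : 0 ≤ ⌊L * 2 ^ j⌋ := Int.floor_nonneg.2 (by positivity)
  have h2 := Int.floor_le (L * 2 ^ j)
  have h3 : ((Finset.Icc (-⌊L * 2 ^ j⌋ - 1) ⌊L * 2 ^ j⌋).card : ℤ) = 2 * ⌊L * 2 ^ j⌋ + 2 := by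
    rw [Int.card_Icc_of_le _ _ (by omega)]; ring
  have h4 : ((Finset.Icc (-⌊L * 2 ^ j⌋ - 1) ⌊L * 2 ^ j⌋).card : ℝ) = 2 * (⌊L * 2 ^ j⌋ : ℝ) + 2 := by
    exact_mod_cast h3
  rw [h4]; nlinarith

theorem low_mem (t : ℤ) (u : ℕ) :
    t ∈ Finset.Ico (t / 2 ^ u * 2 ^ u) (t / 2 ^ u * 2 ^ u + 2 ^ u) := by
  have hp : (0 : ℤ) < 2 ^ u := by positivity
  have h1 : t / 2 ^ u * 2 ^ u ≤ t := Int.ediv_mul_le t hp.ne'
  have h2 : t < (t / 2 ^ u + 1) * 2 ^ u := Int.lt_ediv_add_one_mul_self t hp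
  rw [Finset.mem_Ico]; exact ⟨h1, by linarith⟩

theorem card_Ico_eq (q : ℤ) (u : ℕ) : ((Finset.Ico q (q + 2 ^ u)).card : ℝ) = 2 ^ u := by
  have hp : (0 : ℤ) < 2 ^ u := by positivity
  have h3 : ((Finset.Ico q (q + 2 ^ u)).card : ℤ) = 2 ^ u := by
    rw [Int.card_Ico_of_le _ _ (by omega)]; ring
  exact_mod_cast h3

end EWinA

open EWinA in
theorem rowEWin : EWin := by
  intro Ω Γ P T Θ ι u w k I L hL hι hT
  have t1 := ch_tri (P := P) T ι Θ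
  have t2 := ch_tri (P := P) T (fun ω => T ω / 2 ^ w (ι ω)) fun ω => (ι ω, Θ ω)
  have t3 := ch_tri (P := P) T (fun ω => T ω / 2 ^ u (ι ω))
    fun ω => (T ω / 2 ^ w (ι ω), ι ω, Θ ω)
  have b1 : ch P ι Θ ≤ Real.log (I + 1) := ch_label (fun ω hω => (hι ω hω).1) Θ
  have b2 : ch P (fun ω => T ω / 2 ^ w (ι ω)) (fun ω => (ι ω, Θ ω)) ≤
      P.E fun ω => Real.log ((2 * L + 2) * 2 ^ (k - w (ι ω))) := by
    refine ch_detE (fun ω => (2 * L + 2) * 2 ^ (k - w (ι ω))) (fun a _ b _ e => ?_) fun a _ => ?_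
    · simp only [Prod.mk.injEq] at e
      simp only [e.1]
    · refine ⟨_, card_Icc_le hL (k - w (ι a)), fun b hb e => ?_⟩
      simp only [Prod.mk.injEq] at e
      rw [← e.1]
      exact quot_mem (hι b hb).2.2 (hT b hb)
  have b3 : ch P (fun ω => T ω / 2 ^ u (ι ω)) (fun ω => (T ω / 2 ^ w (ι ω), ι ω, Θ ω)) ≤
      ch P (fun ω => T ω / 2 ^ u (ι ω)) fun ω => (Θ ω, ι ω, T ω / 2 ^ w (ι ω)) :=
    ch_anti fun a _ b _ e => by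
      simp only [Prod.mk.injEq] at e ⊢
      exact ⟨e.2.2, e.2.1, e.1⟩
  have b4 : ch P T (fun ω => (T ω / 2 ^ u (ι ω), T ω / 2 ^ w (ι ω), ι ω, Θ ω)) ≤
      P.E fun ω => Real.log ((2 : ℝ) ^ u (ι ω)) := by
    refine ch_detE (fun ω => (2 : ℝ) ^ u (ι ω)) (fun a _ b _ e => ?_) fun a _ => ?_
    · simp only [Prod.mk.injEq] at e
      simp only [e.2.2.1]
    · refine ⟨_, (card_Ico_eq (T a / 2 ^ u (ι a) * 2 ^ u (ι a)) (u (ι a))).le, fun b _ e => ?_⟩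
      simp only [Prod.mk.injEq] at e
      rw [← e.1, ← e.2.2.1]
      exact low_mem (T b) (u (ι b))
  have e2 : (P.E fun ω => Real.log ((2 * L + 2) * 2 ^ (k - w (ι ω)))) +
      (P.E fun ω => Real.log ((2 : ℝ) ^ u (ι ω))) +
      (P.E fun ω => ((w (ι ω) : ℝ) - u (ι ω)) * lg) = Real.log (2 * L + 2) + k * lg := by
    rw [← FP.E_add, ← FP.E_add, ← P.E_const (Real.log (2 * L + 2) + k * lg)]
    refine P.E_congr fun ω hω => ?_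
    rw [Real.log_mul (by linarith) (by positivity), log_two_pow, log_two_pow,
      Nat.cast_sub (hι ω hω).2.2]
    ring
  linarith

end Pool.Agent.MP_5168f5_an.R4
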