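import Pool.Agent.MP_5168f5_an.R4.EKr
import Pool.Agent.MP_5168f5_an.R4.EEnd
import Pool.Agent.MP_5168f5_an.R4.ECoreV
import Pool.Agent.MP_5168f5_an.R4.ECorA
import Pool.Agent.MP_5168f5_an.R4.ECor
import Pool.Agent.MP_5168f5_an.R4.EWin
import Pool.Agent.MP_5168f5_an.R4.ESpa
import Pool.Agent.MP_5168f5_an.R4.ESel
import Pool.Agent.MP_5168f5_an.R4.EJet
import Pool.Agent.MP_5168f5_an.R4.ECurve
import Pool.Agent.MP_5168f5_an.R4.ECross
import Pool.Agent.MP_5168f5_an.R4.ETame
import Pool.Agent.MP_5168f5_an.R4.ETameW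
import Pool.Agent.MP_5168f5_an.R4.ESpr
import Pool.Agent.MP_5168f5_an.R4.EDn
import Pool.Agent.MP_5168f5_an.R4.EAlg
import Pool.Agent.MP_5168f5_an.R4.EGrid
import Pool.Agent.MP_5168f5_an.R4.EAgree
import Pool.Agent.MP_5168f5_an.R4.ETr
import Pool.Agent.MP_5168f5_an.R4.ERnd1
import Pool.Agent.MP_5168f5_an.R4.ERnd2
import Pool.Agent.MP_5168f5_an.R4.ERnd3
import Pool.Agent.MP_5168f5_an.R4.ERound

/-! The end of the argument, the agreement of two quadrics, and the common rounding. -/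

namespace Pool.Agent.MP_5168f5_an.R4

theorem endA : PR → FB → FQ → EndA := rowEEnd rowEKr

theorem eDn : EDn := rowEDn rowESpr

theorem eAgree : EAgree :=
  rowEAgree (rowEAlg rowEJet rowEGrid) (rowETameW rowEJet rowETame rowESpr)
    (rowECoreV rowESel rowEJet rowECurve rowECross (rowECorA rowECor rowEWin rowESpa))

theorem eRound : ERound := rowERound (rowERnd1 rowETr) rowERnd2 rowERnd3

end Pool.Agent.MP_5168f5_an.R4
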