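import Pool.Agent.MP_5168f5_an.R4.SpecE1

/-! The second moment bound for curves that cross transversally. -/

namespace Pool.Agent.MP_5168f5_an.R4

open H19 H17S H17F Finset

namespace ECorA

variable {Ω α β Γ S U : Type} (P : FP Ω)

/-- The mass of a value. -/
noncomputable abbrev ms (f : Ω → α) (t : α) : ℝ := pb P fun x => f x = t

theorem E_fib' [DecidableEq α] (f : Ω → α) (F : Finset α) (G : α → ℝ) :
    P.E (fun x => if f x ∈ F then G (f x) else 0) = ∑ t ∈ F, G t * ms P f t := by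
  simp only [pb, ← FP.E_mul]
  rw [← FP.E_sum]
  exact P.E_congr fun x _ => by simp

theorem E_fib (f : Ω → α) {F : Finset α} (h : ∀ x ∈ P.S, f x ∈ F) (G : α → ℝ) :
    P.E (fun x => G (f x)) = ∑ t ∈ F, G t * ms P f t := by
  classical
  exact (P.E_congr fun x hx => (if_pos (h x hx)).symm).trans (E_fib' P f F G)

theorem inv_le (f : Ω → α) {F : Finset α} (h : ∀ x ∈ P.S, f x ∈ F) {N : ℝ} (h0 : 0 < N)
    (hN : (F.card : ℝ) ≤ N) : P.E (fun x => (N * ms P f (f x))⁻¹) ≤ 1 := by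
  rw [E_fib P f h fun t => (N * ms P f t)⁻¹]
  refine (sum_le_card_nsmul _ _ N⁻¹ fun t _ => ?_).trans ?_
  · rw [mul_inv, mul_assoc]
    exact mul_le_of_le_one_right (inv_pos.2 h0).le (inv_mul_le_one_of_le₀ le_rfl (pb_nonneg _ _))
  · rwa [nsmul_eq_mul, mul_inv_le_iff₀ h0, one_mul]

theorem light [DecidableEq α] (f : Ω → α) (F : Finset α) {w : α → ℝ} (hw : ∀ t, 0 ≤ w t)
    {N K : ℝ} (h0 : 0 < N) (hK : 0 ≤ K) : P.E (fun x => if f x ∈ F then if N * ms P f (f x) ≤ K then w (f x) else 0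
      else 0) ≤ K / N * ∑ t ∈ F, w t := by
  rw [E_fib' P f F fun t => if N * ms P f t ≤ K then w t else 0, mul_sum]
  refine sum_le_sum fun t _ => ?_
  split_ifs with h
  · rw [mul_comm]
    exact mul_le_mul_of_nonneg_right ((le_div_iff₀' h0).2 h) (hw t)
  · rw [zero_mul]
    exact mul_nonneg (div_nonneg hK h0.le) (hw t)

theorem indep (f : Ω → α) (g : Ω → β) {Ψ : α → β → ℝ} (h : ∀ s t, 0 ≤ Ψ s t) :
    P.E (fun x => Ψ (f x) (g x) * (ms P (fun x => (f x, g x)) (f x, g x) /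
      (ms P f (f x) * ms P g (g x)))⁻¹) ≤ P.E fun x => P.E fun y => Ψ (f x) (g y) := by
  classical
  have hf : ∀ x ∈ P.S, f x ∈ P.S.image f := fun x hx => mem_image_of_mem f hx
  have hg : ∀ x ∈ P.S, g x ∈ P.S.image g := fun x hx => mem_image_of_mem g hx
  rw [E_fib P (fun x => (f x, g x)) (fun x hx => mk_mem_product (hf x hx) (hg x hx))
    fun p => Ψ p.1 p.2 * (ms P (fun x => (f x, g x)) p / (ms P f p.1 * ms P g p.2))⁻¹,
    E_fib P f hf fun s => P.E fun y => Ψ s (g y), sum_product]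
  refine sum_le_sum fun s _ => ?_
  rw [E_fib P g hg (Ψ s), sum_mul]
  refine sum_le_sum fun t _ => ?_
  rw [mul_assoc, mul_assoc, inv_div, div_mul_comm, mul_comm (ms P g t)]
  exact mul_le_mul_of_nonneg_left (mul_le_of_le_one_left
    (mul_nonneg (pb_nonneg _ _) (pb_nonneg _ _)) (div_self_le_one _)) (h s t)

open Classical in
theorem trans (f : Ω → α) (g : Ω → β) {Ψ : α → β → ℝ} (h : ∀ s t, 0 ≤ Ψ s t) {E : Ω → Prop}
    {K : ℝ} (hK : 0 ≤ K) (hE : ∀ x ∈ P.S, E x →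
      ms P (fun x => (f x, g x)) (f x, g x) / (ms P f (f x) * ms P g (g x)) ≤ K) :
    P.E (fun x => if E x then Ψ (f x) (g x) else 0) ≤
      K * P.E fun x => P.E fun y => Ψ (f x) (g y) := by
  refine le_trans ?_ (mul_le_mul_of_nonneg_left (indep P f g h) hK)
  rw [← FP.E_mul]
  refine P.E_mono fun x hx => ?_
  have p : 0 < ms P (fun x => (f x, g x)) (f x, g x) / (ms P f (f x) * ms P g (g x)) :=
    div_pos (pb_pos P ⟨x, hx, rfl⟩) (mul_pos (pb_pos P ⟨x, hx, rfl⟩) (pb_pos P ⟨x, hx, rfl⟩))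
  split_ifs with e
  · rw [mul_left_comm]
    exact le_mul_of_one_le_right (h _ _) ((one_le_div p).2 (hE x hx e))
  · exact mul_nonneg hK (mul_nonneg (h _ _) (inv_pos.2 p).le)

theorem harm (F : Finset ℕ) : ∑ n ∈ F, 1 / ((n : ℝ) + 1) ≤ harmonic F.card := by
  induction F using Finset.induction_on_max with
  | empty => simp
  | insert a s h ih =>
    have n : a ∉ s := fun e => (h a e).false
    have c : (s.card : ℝ) ≤ a := by
      exact_mod_cast (card_le_card fun x hx => mem_range.2 (h x hx)).trans_eq (card_range a)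
    rw [sum_insert n, card_insert_of_notMem n, harmonic_succ]
    push_cast
    rw [add_comm, one_div]
    exact add_le_add ih (inv_anti₀ (by positivity) (by linarith))

theorem harm1 (c : ℤ) {A : Finset ℤ} {N : ℝ} (h1 : 1 ≤ N) (hN : (A.card : ℝ) ≤ N)
    (h : Set.InjOn (fun t => (c - t).natAbs) A) :
    ∑ t ∈ A, 1 / (|(c : ℝ) - t| + 1) ≤ 1 + Real.log N := by
  have := harm (A.image fun t => (c - t).natAbs)
  rw [sum_image h, card_image_of_injOn h] at this
  refine ((sum_congr rfl fun t _ => by simp).trans_le this).trans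
    ((harmonic_le_one_add_log _).trans (add_le_add_right ?_ _))
  rcases A.card.eq_zero_or_pos with e | e
  · simpa [e] using Real.log_nonneg h1
  · exact Real.log_le_log (Nat.cast_pos.2 e) hN

theorem harm2 (c : ℤ) {A : Finset ℤ} {N : ℝ} (h1 : 1 ≤ N) (hN : (A.card : ℝ) ≤ N) :
    ∑ t ∈ A, 1 / (|(c : ℝ) - t| + 1) ≤ 2 * (1 + Real.log N) := by
  have k : ∀ (p : ℤ → Prop) [DecidablePred p], ((A.filter p).card : ℝ) ≤ N := fun p _ =>
    (Nat.cast_le.2 (card_filter_le _ _)).trans hN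
  rw [← sum_filter_add_sum_filter_not A (· ≤ c), two_mul]
  refine add_le_add (harm1 c h1 (k _) fun s hs t ht e => ?_)
    (harm1 c h1 (k _) fun s hs t ht e => ?_)
  all_goals
    have := (mem_filter.1 hs).2
    have := (mem_filter.1 ht).2
    simp only at e
    omega

variable (γ : Ω → Γ) (σ : Ω → S) (v : Ω → U) (a T : Ω → ℤ) (E : Ω → Prop)

/-- The curves `g` and `g'` collide over `s`. -/
def Co (g g' : Γ) (s : S) : Prop := ∃ x ∈ P.S, ∃ y ∈ P.S, E x ∧ E y ∧ γ x = g ∧ γ y = g' ∧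
  σ x = s ∧ σ y = s ∧ v y = v x

/-- The hypotheses on one fibre. -/
structure Hy (Na Ns B K : ℝ) (A : Finset ℤ) : Prop where
  one : 1 ≤ Na ∧ Na ≤ Ns ∧ 1 ≤ B ∧ 1 ≤ K
  fa : Fn P a γ
  fT : Fn P T σ
  mem : (A.card : ℝ) ≤ Na ∧ ∀ x ∈ P.S, a x ∈ A
  la : ∀ x ∈ P.S, E x → Na * ms P a (a x) ≤ K
  lT : ∀ x ∈ P.S, E x → Ns * ms P T (T x) ≤ K
  ls : ∀ x ∈ P.S, E x → ms P (fun x => (σ x, γ x)) (σ x, γ x) / (ms P σ (σ x) * ms P γ (γ x)) ≤ K
  co : ∀ x ∈ P.S, ∀ x' ∈ P.S, ∀ y ∈ P.S, ∀ y' ∈ P.S, E x → E x' → E y → E y' → γ x' = γ x →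
    γ y' = γ y → σ y = σ x → v y = v x → σ y' = σ x' → v y' = v x' →
    |(T x : ℝ) - T x'| * |(a x : ℝ) - a y| ≤ B * Ns

variable {P γ σ v a T E} {Na Ns B K : ℝ} {A : Finset ℤ} (h : Hy P γ σ v a T E Na Ns B K A)

include h

open Classical in
theorem Hy.pair {x₁ x₂ : Ω} (h₁ : x₁ ∈ P.S) (h₂ : x₂ ∈ P.S) :
    pb P (fun x => Co P γ σ v E (γ x₁) (γ x₂) (σ x)) ≤ if a x₂ ∈ A then
      if Na * ms P a (a x₂) ≤ K then K * (1 / Na + 4 * B * (1 / (|(a x₁ : ℝ) - a x₂| + 1))) else 0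
      else 0 := by
  obtain ⟨n1, n2, n3, n4⟩ := h.one
  by_cases e : ∃ x ∈ P.S, Co P γ σ v E (γ x₁) (γ x₂) (σ x)
  swap
  · rw [pb_zero fun x hx k => e ⟨x, hx, k⟩]
    split_ifs <;> positivity
  obtain ⟨z, -, x, hx, y, hy, e1, e2, e3, e4, e5, e6, e7⟩ := e
  rw [if_pos (h.mem.2 x₂ h₂), ← h.fa x hx x₁ h₁ e3, ← h.fa y hy x₂ h₂ e4, if_pos (h.la y hy e2)]
  by_cases d : a x = a y
  · refine (pb_le_one _ _).trans (one_le_mul_of_one_le_of_one_le n4 ?_)
    have : 0 ≤ 1 / Na := by positivity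
    simp only [d, sub_self, abs_zero, zero_add, div_one]
    linarith
  have d1 : (1 : ℝ) ≤ |(a x : ℝ) - a y| := by exact_mod_cast Int.one_le_abs (sub_ne_zero.2 d)
  have k : ∀ u ∈ P.S, Co P γ σ v E (γ x₁) (γ x₂) (σ u) → Ns * ms P T (T u) ≤ K ∧
      T u ∈ Icc (T x - ⌊B * Ns / |(a x : ℝ) - a y|⌋₊) (T x + ⌊B * Ns / |(a x : ℝ) - a y|⌋₊) := by
    rintro u hu ⟨x', hx', y', hy', f1, f2, f3, f4, f5, f6, f7⟩
    rw [← h.fT x' hx' u hu f5]
    have := (le_div_iff₀ (by linarith)).2 (h.co x hx x' hx' y hy y' hy' e1 f1 e2 f2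
      (f3.trans e3.symm) (f4.trans e4.symm) (e6.trans e5.symm) e7 (f6.trans f5.symm) f7)
    have : (T x - T x').natAbs ≤ ⌊B * Ns / |(a x : ℝ) - a y|⌋₊ := Nat.le_floor (by simpa)
    exact ⟨h.lT x' hx' f1, mem_Icc.2 (by omega)⟩
  have r := Nat.floor_le (a := B * Ns / |(a x : ℝ) - a y|)
    (div_nonneg (mul_nonneg (by linarith) (by linarith)) (abs_nonneg _))
  generalize ⌊B * Ns / |(a x : ℝ) - a y|⌋₊ = m at k r
  refine le_trans (P.E_mono fun u hu => ?_) ((light P T (Icc (T x - m) (T x + m))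
    (w := fun _ => 1) (fun _ => zero_le_one) (by linarith : 0 < Ns) (by linarith : 0 ≤ K)).trans ?_)
  · split_ifs with c c1 c2
    exacts [le_rfl, (c2 (k u hu c).1).elim, (c1 (k u hu c).2).elim, zero_le_one, le_rfl, le_rfl]
  · have : (Icc (T x - m) (T x + m)).card = 2 * m + 1 := by rw [Int.card_Icc]; omega
    rw [sum_const, this, nsmul_eq_mul, mul_one, div_mul_eq_mul_div, mul_div_assoc]
    refine mul_le_mul_of_nonneg_left ((div_le_iff₀ (by linarith)).2 ?_) (by linarith)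
    have b1 : 1 ≤ 1 / Na * Ns := by rwa [one_div, le_inv_mul_iff₀ (by linarith), mul_one]
    have b2 : B * Ns / |(a x : ℝ) - a y| ≤ 2 * (B * Ns) * (1 / (|(a x : ℝ) - a y| + 1)) := by
      rw [mul_one_div, div_le_div_iff₀ (by linarith) (by linarith)]
      nlinarith [mul_pos (by linarith : 0 < B) (by linarith : 0 < Ns)]
    push_cast
    linarith

open Classical in
theorem Hy.main : P.E (fun x => if E x then pb (cv P σ (σ x)) (fun y => E y ∧ v y = v x) else 0) ≤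
    9 * K ^ 4 * B * (1 + Real.log Na) / Na := by
  obtain ⟨n1, n2, n3, n4⟩ := h.one
  have K0 : 0 ≤ K := by linarith
  have s1 : ∀ x ∈ P.S, E x → pb (cv P σ (σ x)) (fun y => E y ∧ v y = v x) ≤
      K * pb P fun y => Co P γ σ v E (γ x) (γ y) (σ x) := fun x hx e => by
    refine le_of_mul_le_mul_left ?_ (pb_pos P (E := fun y => σ y = σ x) ⟨x, hx, rfl⟩)
    have := trans P σ γ (Ψ := fun s g => if s = σ x ∧ Co P γ σ v E (γ x) g (σ x) then 1 else 0)
      (fun _ _ => by positivity) K0 h.ls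
    rw [cv, pb_cE, mul_left_comm]
    refine le_trans (P.E_mono fun y hy => ?_) (this.trans_eq (congrArg _ ?_))
    · split_ifs with c c1 c2
      exacts [le_rfl, (c2 ⟨c.1, x, hx, y, hy, e, c1, rfl, rfl, rfl, c.1, c.2.2⟩).elim,
        (c1 c.2.1).elim, zero_le_one, le_rfl, le_rfl]
    · rw [mul_comm, pb, pb, ← FP.E_mul]
      refine P.E_congr fun z _ => ?_
      by_cases c : σ z = σ x <;> simp [c, FP.E_const]
  have s2 := trans P σ γ (Ψ := fun s g => pb P fun y => Co P γ σ v E g (γ y) s)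
    (fun _ _ => pb_nonneg _ _) K0 h.ls
  have s3 : ∀ x ∈ P.S, P.E (fun z => pb P fun y => Co P γ σ v E (γ x) (γ y) (σ z)) ≤
      K / Na * (K * (9 * B * (1 + Real.log Na))) := fun x hx => by
    refine ((P.E_comm _).trans_le (P.E_mono fun y hy => h.pair hx hy)).trans ((light P a A
      (w := fun t => K * (1 / Na + 4 * B * (1 / (|(a x : ℝ) - t| + 1)))) (fun _ => by positivity)
      (by linarith : 0 < Na) K0).trans (mul_le_mul_of_nonneg_left ?_ (by positivity)))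
    rw [← mul_sum, sum_add_distrib, ← mul_sum, sum_const, nsmul_eq_mul, mul_one_div]
    refine mul_le_mul_of_nonneg_left ?_ K0
    have := (div_le_one (by linarith)).2 h.mem.1
    have := mul_le_mul_of_nonneg_left (harm2 (a x) n1 h.mem.1) (by linarith : 0 ≤ 4 * B)
    nlinarith [Real.log_nonneg n1]
  have s4 := ((P.E_comm _).trans_le (P.E_mono s3)).trans_eq (P.E_const _)
  calc _ ≤ P.E fun x => K * if E x then pb P fun y => Co P γ σ v E (γ x) (γ y) (σ x) else 0 :=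
        P.E_mono fun x hx => by
          split_ifs with e
          exacts [s1 x hx e, (mul_zero K).ge]
    _ ≤ K * (K * (K / Na * (K * (9 * B * (1 + Real.log Na))))) := by
        rw [FP.E_mul]
        exact mul_le_mul_of_nonneg_left (s2.trans (mul_le_mul_of_nonneg_left s4 K0)) K0
    _ = _ := by ring

end ECorA

end Pool.Agent.MP_5168f5_an.R4
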