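import Pool.Agent.MP_5168f5_an.R4.SpecE2

/-! Small jets in one direction: the pointwise geometry. -/

namespace Pool.Agent.MP_5168f5_an.R4.ECoreVA

open H19 H17S H17F Matrix Filter

theorem pf_dir {A : Qd} {Y : V 5} {w : Fin 3 → V 5} {B : ℝ} (h : ∀ a, |pf A Y (w a)| ≤ B)
    (i : Fin 4 × Fin 4) : |pf A Y (dir w i)| ≤ 7 * B := by
  have h1 : ((i.1 : ℕ) : ℝ) ≤ 3 := by exact_mod_cast Nat.lt_succ_iff.1 i.1.2
  have h2 : ((i.2 : ℕ) : ℝ) ≤ 3 := by exact_mod_cast Nat.lt_succ_iff.1 i.2.2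
  rw [dir, pf_add_right, pf_add_right, pf_smul_right, pf_smul_right]
  refine (abs_add_three _ _ _).trans ?_
  rw [abs_mul, abs_mul, Nat.abs_cast, Nat.abs_cast]
  linarith [h 0, mul_le_mul h1 (h 1) (abs_nonneg _) zero_le_three,
    mul_le_mul h2 (h 2) (abs_nonneg _) zero_le_three]

theorem qok_dir {A : Qd} {Y : V 5} {w : Fin 3 → V 5} {L ε h : ℝ} (q : QOK A Y w L ε h)
    (hε : 0 < ε) (i : Fin 4 × Fin 4) : |pf A Y (dir w i)| ≤ 49 * L * ε ∧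
    |qf A (dir w i)| ≤ 49 * L * ε ∧ |pf A (dir w i) (bv 4)| ≤ 49 * L := by
  have h0 : 1 ≤ L := q.d.1.trans q.d.2
  have h1 : 0 ≤ L * ε := by positivity
  have h2 := pf_dir (A := A) (Y := dir w i) (fun a => pf_comm A _ _ ▸ pf_dir (q.hs a) i) i
  have h3 := pf_dir (A := A) (Y := bv 4) (fun a => pf_comm A _ _ ▸ q.mx a) i
  rw [pf_self, abs_mul, abs_two] at h2
  rw [pf_comm] at h3
  exact ⟨by linarith [pf_dir q.gr i], by linarith, by linarith⟩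

theorem pow_div {r m p : ℕ} (h : m * r ≤ p) :
    ((2 : ℝ) ^ r) ^ m * (2 ^ p)⁻¹ = (2 ^ (p - m * r))⁻¹ := by
  obtain ⟨d, rfl⟩ := Nat.exists_eq_add_of_le h
  rw [Nat.add_sub_cancel_left, ← pow_mul, pow_add, mul_comm r]
  field_simp

theorem cls (u : ℕ → ℝ) {v : ℝ} (h0 : v ≤ u 0) (T : ℕ) (h : u (T + 1) < v) :
    ∃ t ≤ T, v ≤ u t ∧ u (t + 1) < v := by
  induction T with
  | zero => exact ⟨0, le_rfl, h0, h⟩
  | succ T ih =>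
    by_cases c : v ≤ u (T + 1)
    · exact ⟨T + 1, le_rfl, c, h⟩
    · obtain ⟨t, h1, h2⟩ := ih (not_le.1 c)
      exact ⟨t, h1.trans (Nat.le_succ _), h2⟩

theorem inv_le {a b : ℕ} : ((2 : ℝ) ^ a)⁻¹ ≤ (2 ^ b)⁻¹ ↔ b ≤ a := by
  rw [inv_le_inv₀ (by positivity) (by positivity), pow_le_pow_iff_right₀ one_lt_two]

/-- The sign. -/
noncomputable def sg (t : ℝ) : ℕ := if 0 < t then 1 else 0

theorem sg_le (t : ℝ) : sg t ≤ 1 := by unfold sg; split_ifs <;> simp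

theorem sg_mul {a b : ℝ} (h : sg a = sg b) (ha : a ≠ 0) (hb : b ≠ 0) : 0 < a * b := by
  by_cases h1 : 0 < a <;> by_cases h2 : 0 < b
  · exact mul_pos h1 h2
  · simp [sg, h1, h2] at h
  · simp [sg, h1, h2] at h
  · exact mul_pos_of_neg_of_neg (ha.lt_of_le (not_lt.1 h1)) (hb.lt_of_le (not_lt.1 h2))

/-- The numerical conditions. -/
structure Nm (L₀ L : ℝ) (R k p r s : ℕ) : Prop where
  l0 : 0 ≤ L ∧ L ≤ 2 ^ r
  l1 : 1 ≤ L₀ ∧ 100 * (49 * L₀) ^ 10 ≤ 2 ^ r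
  r : 200 * r ≤ R ∧ 4 * s + 14 ≤ r ∧ R ≤ k ∧ R ≤ p

variable (x : Lm) (i : Fin 4 × Fin 4)

/-- The coefficients. -/
noncomputable def cf (ω : x.Ω) : ℕ → ℝ := jet (x.A₁ ω) (x.A₂ ω) (x.Y ω) (dir (x.w ω) i)

/-- The line of the base. -/
def xi (ω : x.Ω) : ℤ × ℤ := (x.n ω 1 - (i.1 : ℕ) * x.n ω 0, x.n ω 2 - (i.2 : ℕ) * x.n ω 0)

/-- A point with a dominant monomial of given size. -/
structure Gd (L : ℝ) (k p r s a ι : ℕ) (ω : x.Ω) : Prop where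
  w : r ≤ ι / 5 ∧ ι / 5 + 2 * r ≤ k
  t1 : Tame (x.A₁ ω) (x.Y ω) (dir (x.w ω) i) (L / 2 ^ k)
  t2 : Tame (x.A₂ ω) (x.Y ω) (dir (x.w ω) i) (L / 2 ^ k)
  dom : Dom (cf x i ω) (2 ^ r) (2 ^ (ι / 5)) (ι % 5)
  lo : (2 ^ (a + s))⁻¹ < |cf x i ω (ι % 5)| * (2 ^ (ι / 5)) ^ (ι % 5)
  hi : |cf x i ω (ι % 5)| * (2 ^ (ι / 5)) ^ (ι % 5) ≤ (2 ^ a)⁻¹
  a : p ≤ a + 142 * r ∧ a + 18 * r ≤ p

/-- The value of the first quadric at a second point. -/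
structure Pr2 (L₀ : ℝ) (r s a ι : ℕ) (ω ω' : x.Ω) : Prop where
  near : |qf (x.A₁ ω) (x.Y ω') - cf x i ω (ι % 5) * ((x.n ω 0 : ℝ) - x.n ω' 0) ^ (ι % 5)| ≤
    100 * 2 ^ (4 * s) / 2 ^ r * (|cf x i ω (ι % 5)| * |(x.n ω 0 : ℝ) - x.n ω' 0| ^ (ι % 5))
  d : 1 / 2 ≤ |pf (x.A₁ ω) (x.Y ω') (bv 4)| ∧ |pf (x.A₁ ω) (x.Y ω') (bv 4)| ≤ 2 * L₀
  z : (x.n ω 0 : ℝ) - x.n ω' 0 ≠ 0 ∧ |(x.n ω 0 : ℝ) - x.n ω' 0| ≤ 2 ^ (ι / 5)
  c : 1 ≤ ι % 5 ∧ cf x i ω (ι % 5) ≠ 0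
  big : (2 ^ (a + s + r))⁻¹ ≤
    100 * 2 ^ (4 * s) / 2 ^ r * (|cf x i ω (ι % 5)| * |(x.n ω 0 : ℝ) - x.n ω' 0| ^ (ι % 5))
  small : |qf (x.A₁ ω) (x.Y ω')| ≤ 2 / 2 ^ a

variable {x i} {L₀ L : ℝ} {R k p r s a ι : ℕ} {ω ω' : x.Ω}

theorem sel (hS : ESel) (hJ : EJet) (al : x.Alg L₀ k p R) (nm : Nm L₀ L R k p r s) {T j : ℕ}
    (hT : R ≤ T * s) (hω : ω ∈ x.P.S) (t1 : Tame (x.A₁ ω) (x.Y ω) (dir (x.W k ω) i) L)
    (t2 : Tame (x.A₂ ω) (x.Y ω) (dir (x.W k ω) i) L)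
    (hj : 2 ^ (3 * R / 4) / 2 ^ p < |jet (x.A₁ ω) (x.A₂ ω) (x.Y ω) (dir (x.W k ω) i) j|) :
    ∃ (ι : ℕ) (t : Fin (T + 1)), Gd x i L k p r s (p - 142 * r + t * s) ι ω := by
  obtain ⟨n1, n2, n3, n4⟩ := nm.r
  have e : dir (x.W k ω) i = (2 : ℝ) ^ k • dir (x.w ω) i := by
    simp only [dir, Lm.W, smul_add, smul_comm ((2 : ℝ) ^ k)]
  have tm : ∀ A, Tame A (x.Y ω) (dir (x.W k ω) i) L → Tame A (x.Y ω) (dir (x.w ω) i) (L / 2 ^ k) :=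
    fun A h => by
      have := hJ.tame _ _ _ ((2 : ℝ) ^ k)⁻¹ _ h
      rwa [e, inv_smul_smul₀ (by positivity), abs_of_pos (by positivity), inv_mul_eq_div] at this
  have ε0 : (0 : ℝ) < (2 ^ p)⁻¹ := by positivity
  have l1 := nm.l1.1
  have top : ∀ A, QOK A (x.Y ω) (x.w ω) L₀ (2 ^ p)⁻¹ (L₀ * 2 ^ p / 2 ^ R) →
      |qf A (bv 4)| * (2 ^ p)⁻¹ ≤ 49 * L₀ := fun A q => by
    refine (mul_le_mul_of_nonneg_right q.top ε0.le).trans ?_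
    rw [show L₀ * 2 ^ p / 2 ^ R * (2 ^ p)⁻¹ = L₀ / 2 ^ R by field_simp]
    exact (div_le_self (by linarith) (one_le_pow₀ one_le_two)).trans (by linarith)
  have q1 := al.q₁ ω hω
  have q2 := al.q₂ ω hω
  obtain ⟨a1, a2, a3⟩ := qok_dir q1 ε0 i
  obtain ⟨b1, b2, b3⟩ := qok_dir q2 ε0 i
  have apr := hJ.apr _ _ _ _ (49 * L₀) _ (by linarith) ε0 q2.d.1
    (by rw [abs_of_pos (by linarith [q1.d.1])]; linarith [q1.d.2]) a1 b1 a2 b2 a3 b3 (top _ q1)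
    (top _ q2)
  rw [e, hJ.jet, abs_mul, abs_of_pos (by positivity : (0 : ℝ) < (2 ^ k) ^ j)] at hj
  have j4 : 1 ≤ j ∧ j ≤ 4 := by
    by_contra c
    have : jet (x.A₁ ω) (x.A₂ ω) (x.Y ω) (dir (x.w ω) i) j = 0 := by
      rcases j with _ | _ | _ | _ | _ | j <;> first | rfl | omega
    rw [this, abs_zero, mul_zero] at hj
    exact absurd hj (not_lt.2 (by positivity))
  obtain ⟨w, j', w1, w2, dm, h1, h2⟩ := hS (cf x i ω) r (k - 2 * r) (2 ^ r * (2 ^ p)⁻¹) (by omega)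
    (by positivity) (fun m _ _ => (apr m).trans (mul_le_mul_of_nonneg_right nm.l1.2 ε0.le))
    ⟨j, j4.1, j4.2, by
      refine lt_of_mul_lt_mul_right (a := (2 ^ (2 * r)) ^ j) ?_ (by positivity)
      rw [mul_assoc |_|, ← mul_pow, ← pow_add, Nat.sub_add_cancel (by omega), mul_comm |_|]
      refine lt_of_le_of_lt ?_ hj
      rw [div_eq_mul_inv, ← mul_assoc, mul_right_comm, ← pow_mul, ← pow_mul, ← pow_add, ← pow_add]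
      refine mul_le_mul_of_nonneg_right (pow_le_pow_right₀ one_le_two ?_) ε0.le
      have := Nat.mul_le_mul_left (2 * r) j4.2
      omega⟩
  rw [← mul_assoc, ← pow_succ, pow_div (by omega)] at h1 h2
  obtain ⟨t, t0, h3, h4⟩ := cls (fun t => ((2 : ℝ) ^ (p - 142 * r + t * s))⁻¹)
    (v := |cf x i ω j'| * (2 ^ w) ^ j') (by simpa using h2) T (by
      refine lt_of_lt_of_le (not_le.1 fun c => ?_) h1
      have := inv_le.1 c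
      rw [add_mul] at this
      omega)
  have e1 : (5 * w + j') / 5 = w := by have := dm.2.1; omega
  have e2 : (5 * w + j') % 5 = j' := by have := dm.2.1; omega
  refine ⟨5 * w + j', ⟨t, Nat.lt_succ_of_le t0⟩, by omega, tm _ t1, tm _ t2, ?_, ?_, ?_, by omega,
    ?_⟩
  · rwa [e1, e2]
  · rw [e1, e2, add_assoc, ← add_one_mul]
    exact h4
  · rwa [e1, e2]
  · have := inv_le.1 (h1.trans h3)
    simp only
    omega

theorem ediv_near {u v m : ℤ} (hm : 0 < m) (h : u / m = v / m) : |u - v| ≤ m := by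
  have h1 := Int.emod_add_mul_ediv u m
  have h2 := Int.emod_add_mul_ediv v m
  have h3 := Int.emod_nonneg u hm.ne'
  have h4 := Int.emod_nonneg v hm.ne'
  have h5 := Int.emod_lt_of_pos u hm
  have h6 := Int.emod_lt_of_pos v hm
  rw [h] at h1
  rw [abs_le]
  constructor <;> linarith

theorem pair (hC : ECurve) (al : x.Alg L₀ k p R) (nm : Nm L₀ L R k p r s) (hω : ω ∈ x.P.S)
    (hω' : ω' ∈ x.P.S) (g : Gd x i L k p r s a ι ω) (e1 : x.S₂ ω' = x.S₂ ω)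
    (e2 : xi x i ω' = xi x i ω) (e3 : x.n ω' 0 / 2 ^ (ι / 5) = x.n ω 0 / 2 ^ (ι / 5))
    (fr : (2 : ℝ) ^ (ι / 5) ≤ 2 ^ s * |(x.n ω' 0 : ℝ) - x.n ω 0|) : Pr2 x i L₀ r s a ι ω ω' := by
  obtain ⟨n1, n2, n3, n4⟩ := nm.r
  obtain ⟨n5, n6⟩ := g.a
  obtain ⟨f1, f2⟩ := Prod.mk.inj (al.f₂ _ hω' _ hω e1)
  obtain ⟨f3, f4⟩ := Prod.mk.inj (al.fO _ hω' _ hω f2)
  obtain ⟨f5, f6⟩ := Prod.mk.inj e2
  have f7 := congrArg (Int.cast : ℤ → ℝ) f5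
  have f8 := congrArg (Int.cast : ℤ → ℝ) f6
  push_cast at f7 f8
  have e : x.Y ω' = x.Y ω + ((x.n ω' 0 : ℝ) - x.n ω 0) • dir (x.w ω) i +
      (x.f ω' - x.f ω) • bv 4 := by
    simp only [Lm.Y, dir, Fin.sum_univ_three, f3, f4, eq_add_of_sub_eq f7, eq_add_of_sub_eq f8]
    module
  have z1 : |(x.n ω' 0 : ℝ) - x.n ω 0| ≤ 2 ^ (ι / 5) := by
    exact_mod_cast ediv_near (by positivity) e3
  have z2 : (2 ^ s)⁻¹ * (2 : ℝ) ^ (ι / 5) ≤ |(x.n ω' 0 : ℝ) - x.n ω 0| := by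
    rwa [inv_mul_le_iff₀ (by positivity)]
  have q1 := al.q₁ ω hω
  have q2 := al.q₂ ω hω
  have q3 := al.q₂ ω' hω'
  have l1 := nm.l1.1
  have l2 : 100 * L₀ ^ 2 ≤ 2 ^ r := by
    refine le_trans ?_ nm.l1.2
    gcongr
    exact (pow_le_pow_left₀ (by linarith) (by linarith) 2).trans
      (pow_le_pow_right₀ (by linarith) (by norm_num))
  have σ1 : ((2 : ℝ) ^ s)⁻¹ ≤ 1 := inv_le_one_of_one_le₀ (one_le_pow₀ one_le_two)
  rw [f1, e] at q3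
  obtain ⟨c1, c2⟩ := hC _ _ _ _ _ _ L₀ _ (2 ^ r) _ (2 ^ s)⁻¹ _ _ q2.d.1 q1.d.1 q1.d.2 g.t1 g.t2
    (by nlinarith) (div_nonneg nm.l0.1 (by positivity)) (by
      rw [← mul_div_assoc, div_mul_eq_mul_div, div_le_one (by positivity)]
      calc (2 : ℝ) ^ (ι / 5) * L * 2 ^ r ≤ 2 ^ (ι / 5) * 2 ^ r * 2 ^ r := by gcongr; exact nm.l0.2
        _ ≤ _ := by
          rw [← pow_add, ← pow_add]
          exact pow_le_pow_right₀ one_le_two (by have := g.w.2; omega))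
    (by positivity) σ1 (by positivity) z2 z1 q1.val q2.val q3.val (by linarith [q3.d.1]) g.dom (by
      refine le_trans ?_ g.lo.le
      refine le_trans ?_ ((pow_div (show 2 * r ≤ p by omega)).trans_le (inv_le.2 (by omega)))
      have := mul_le_mul_of_nonneg_right (show 40 * L₀ ^ 2 ≤ 2 ^ r by nlinarith)
        (by positivity : (0 : ℝ) ≤ 2 ^ r * (2 ^ p)⁻¹)
      linarith) (by
      calc _ ≤ L₀ * 2 ^ p / 2 ^ R * (2 ^ a)⁻¹ * 2 ^ r := by gcongr; exacts [q1.top, g.hi]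
        _ ≤ 2 ^ r * 2 ^ p / 2 ^ R * (2 ^ a)⁻¹ * 2 ^ r := by gcongr; nlinarith
        _ = 2 ^ (r + p + r) / 2 ^ (R + a) := by rw [pow_add, pow_add, pow_add]; field_simp
        _ ≤ 1 := by
          rw [div_le_one (by positivity)]
          exact pow_le_pow_right₀ one_le_two (by omega))
  rw [← e] at c1 c2
  rw [neg_sub, abs_sub_comm (x.n ω' 0 : ℝ), show (100 : ℝ) / (((2 : ℝ) ^ s)⁻¹ ^ 4 * 2 ^ r) =
    100 * 2 ^ (4 * s) / 2 ^ r by rw [mul_comm 4, pow_mul]; field_simp] at c1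
  rw [abs_sub_comm] at z1 z2
  change |_ - cf x i ω _ * _| ≤ _ * (|cf x i ω _| * _) at c1
  have hi := g.hi
  have lo := g.lo
  have j4 := g.dom.2.1
  refine ⟨c1, c2, ⟨abs_pos.1 (lt_of_lt_of_le (by positivity) z2), z1⟩, ⟨g.dom.1, fun c => ?_⟩,
    ?_, ?_⟩
  · rw [c, abs_zero, zero_mul] at lo
    exact absurd lo (not_lt.2 (by positivity))
  · calc ((2 : ℝ) ^ (a + s + r))⁻¹ ≤ 100 * 2 ^ (4 * s) / 2 ^ r *
          ((2 ^ s)⁻¹ ^ 4 * (2 ^ (a + s))⁻¹) := by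
          rw [mul_comm 4, pow_mul, pow_add _ _ r]
          field_simp
          norm_num
      _ ≤ 100 * 2 ^ (4 * s) / 2 ^ r * ((2 ^ s)⁻¹ ^ (ι % 5) *
          (|cf x i ω (ι % 5)| * (2 ^ (ι / 5)) ^ (ι % 5))) := by
          have := pow_le_pow_of_le_one (by positivity) σ1 j4
          gcongr
      _ ≤ _ := by
          rw [mul_left_comm _ |_|, ← mul_pow]
          gcongr
  · have h1 : |cf x i ω (ι % 5)| * |(x.n ω 0 : ℝ) - x.n ω' 0| ^ (ι % 5) ≤ (2 ^ a)⁻¹ :=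
      le_trans (by gcongr) hi
    have h2 : (100 : ℝ) * 2 ^ (4 * s) / 2 ^ r ≤ 1 := by
      rw [div_le_one (by positivity)]
      refine le_trans ?_ (pow_le_pow_right₀ one_le_two n2)
      rw [pow_add, mul_comm]
      gcongr
      norm_num
    have h3 := abs_sub_abs_le_abs_sub (qf (x.A₁ ω) (x.Y ω'))
      (cf x i ω (ι % 5) * ((x.n ω 0 : ℝ) - x.n ω' 0) ^ (ι % 5))
    rw [abs_mul, abs_pow] at h3
    have h4 := mul_le_of_le_one_left (by positivity : 0 ≤ |cf x i ω (ι % 5)| *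
      |(x.n ω 0 : ℝ) - x.n ω' 0| ^ (ι % 5)) h2
    rw [div_eq_mul_inv]
    linarith

theorem cross (hX : ECross) (n2 : 4 * s + 14 ≤ r) {ω₁ ω₂ u₁ u₂ v₁ v₂ : x.Ω}
    (p1 : Pr2 x i L₀ r s a ι ω₁ u₁) (p2 : Pr2 x i L₀ r s a ι ω₂ u₂)
    (p3 : Pr2 x i L₀ r s a ι ω₁ v₁) (p4 : Pr2 x i L₀ r s a ι ω₂ v₂)
    (e1 : x.n u₂ 0 = x.n u₁ 0) (e2 : x.n v₂ 0 = x.n v₁ 0)
    (e3 : (fl1 (a + s + r) (qf (x.A₁ ω₂) (x.Y u₂)), sg ((x.n ω₂ 0 : ℝ) - x.n u₂ 0)) =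
      (fl1 (a + s + r) (qf (x.A₁ ω₁) (x.Y u₁)), sg ((x.n ω₁ 0 : ℝ) - x.n u₁ 0)))
    (e4 : (fl1 (a + s + r) (qf (x.A₁ ω₂) (x.Y v₂)), sg ((x.n ω₂ 0 : ℝ) - x.n v₂ 0)) =
      (fl1 (a + s + r) (qf (x.A₁ ω₁) (x.Y v₁)), sg ((x.n ω₁ 0 : ℝ) - x.n v₁ 0))) :
    |(x.n u₁ 0 : ℝ) - x.n v₁ 0| * |(x.n ω₁ 0 : ℝ) - x.n ω₂ 0| * 2 ^ r ≤
      1000 * 2 ^ (4 * s) * (2 ^ (ι / 5)) ^ 2 := by
  obtain ⟨f1, f2⟩ := Prod.mk.inj e3.symm
  obtain ⟨f3, f4⟩ := Prod.mk.inj e4.symm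
  have h := hX _ _ _ _ _ _ _ _ _ _ _ _ p1.c.1 p1.c.2 (sg_mul f2 p1.z.1 p2.z.1)
    (sg_mul f4 p3.z.1 p4.z.1) (by positivity) (by
      rw [div_le_div_iff₀ (by positivity) (by positivity), one_mul]
      refine le_trans ?_ (pow_le_pow_right₀ one_le_two n2)
      rw [pow_add]
      nlinarith [show (0 : ℝ) < 2 ^ (4 * s) by positivity]) p1.near p2.near p3.near p4.near
    ((abs_sub_lt_of_fl1_eq f1).le.trans p1.big) ((abs_sub_lt_of_fl1_eq f3).le.trans p3.big)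
  have h1 := mul_le_mul p2.z.2 p3.z.2 (abs_nonneg _) (by positivity)
  rw [← abs_mul, ← le_div_iff₀ (by positivity)]
  refine le_trans (le_of_eq ?_) (h.trans
    ((mul_le_mul_of_nonneg_left h1 (by positivity)).trans (le_of_eq (by ring))))
  rw [e1, e2]
  congr 1
  ring

end Pool.Agent.MP_5168f5_an.R4.ECoreVA
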