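import Pool.Agent.MP_5168f5_an.R4.SpecE2
import Pool.Agent.MP_5168f5_an.H55K.KR

/-! The number of directions of the lines in a cell. -/

namespace Pool.Agent.MP_5168f5_an.R4

open H19 H17S H17F Matrix Filter

namespace EKrA

theorem fac {Ω α β : Type} [Nonempty α] {P : FP Ω} {F : Ω → α} {G : Ω → β} (h : Fn P F G) :
    ∃ f : β → α, ∀ ω ∈ P.S, f (G ω) = F ω := by
  have : ∀ l, ∃ x, ∀ ω ∈ P.S, G ω = l → x = F ω := fun l => by
    by_cases k : ∃ ω ∈ P.S, G ω = l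
    · obtain ⟨a, ha, e⟩ := k
      exact ⟨F a, fun b hb e' => h a ha b hb (e.trans e'.symm)⟩
    · exact ⟨Classical.arbitrary α, fun b hb e => absurd ⟨b, hb, e⟩ k⟩
  choose f hf using this
  exact ⟨f, fun ω hω => hf _ ω hω rfl⟩

theorem win {k : ℕ} {z t : ℝ} (h1 : ((2 : ℝ) ^ k)⁻¹ * fl1 k z ≤ t)
    (h2 : t ≤ ((2 : ℝ) ^ k)⁻¹ * fl1 k z + ((2 : ℝ) ^ k)⁻¹ / 2) : fl1 k t = fl1 k z := by
  have h : (0 : ℝ) < 2 ^ k := by positivity
  have h3 := mul_le_mul_of_nonneg_left h2 h.le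
  rw [inv_mul_le_iff₀ h] at h1
  rw [mul_add, mul_inv_cancel_left₀ h.ne', ← mul_div_assoc, mul_inv_cancel₀ h.ne'] at h3
  exact Int.floor_eq_iff.2 ⟨h1, by linarith⟩

theorem abs_vec {A : Qd} {Y : V 5} {w : V 3} {b δ : ℝ} (hw : ∀ i, |w i| ≤ δ)
    (h : ∀ i : Fin 4, |pf A Y (bv i.succ)| ≤ b) : |pf A Y (vec 0 w)| ≤ 3 * (δ * b) := by
  have k : ∀ (i : Fin 3) (m : Fin 4), |w i * pf A Y (bv m.succ)| ≤ δ * b := fun i m => by
    rw [abs_mul]; exact mul_le_mul (hw i) (h m) (abs_nonneg _) ((abs_nonneg _).trans (hw i))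
  have k0 : |w 0 * pf A Y (bv 2)| ≤ δ * b := k 0 1
  have k1 : |w 1 * pf A Y (bv 3)| ≤ δ * b := k 1 2
  have k2 : |w 2 * pf A Y (bv 4)| ≤ δ * b := k 2 3
  rw [vec_eq, zero_smul, zero_add, pf_add_right, pf_add_right, pf_smul_right, pf_smul_right,
    pf_smul_right]
  exact (abs_add_three _ _ _).trans (by linarith)

variable {Ω : Type} {g : Geo 3 Ω} {A : Qd} {ω : Ω} {L δ s : ℝ} {j i τ : ℕ} {w : V 3}

theorem hom_w (s : ℝ) (y w : V 3) : hom s (y + w) = hom s y + vec 0 w := by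
  rw [← hom_add, add_zero]

theorem val_le (h : g.qd.fit L A ω j τ) (hL : 0 ≤ L) (hs : fl1 j s = fl1 j (g.z ω))
    (hw : ∀ i, |w i| ≤ δ) (hδ : δ ≤ 1 / 2 ^ τ) :
    |qf A (hom s (g.lt s ω + w))| ≤ (8 * L + 2) / 2 ^ τ * (1 / 2) := by
  obtain ⟨h1, -, h3⟩ := h
  obtain ⟨h4, h5⟩ := h3 s hs
  have h0 : 0 ≤ δ := (abs_nonneg _).trans (hw 0)
  have hp : (0 : ℝ) < 2 ^ τ := by positivity
  have h6 := abs_vec hw h5
  have h7 := abs_vec (A := A) (Y := vec 0 w) hw fun m => by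
    rw [pf_comm]; exact abs_vec hw (h1 m)
  have h8 : δ * 2 ^ τ ≤ 1 := (le_div_iff₀ hp).1 hδ
  have h9 : δ * (δ * 2 ^ τ) ≤ 1 / 2 ^ τ := (mul_le_of_le_one_right h0 h8).trans hδ
  have h10 : δ * L ≤ 1 / 2 ^ τ * L := mul_le_mul_of_nonneg_right hδ hL
  have h11 : (0 : ℝ) ≤ 1 / 2 ^ τ := by positivity
  rw [pf_self, abs_mul, abs_two] at h7
  rw [hom_w, qf_add]
  refine (abs_add_three _ _ _).trans ?_
  rw [div_eq_mul_one_div] at h4 ⊢
  linarith

theorem der_ge (h : g.qd.fit L A ω j τ) (hi : 16 * L ≤ 2 ^ i) (m : Fin 4)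
    (hm : 1 ≤ |pf A (hom (g.z ω) (g.pt ω)) (bv m.succ)|) (hs : fl1 (j + i) s = fl1 (j + i) (g.z ω))
    (hw : ∀ i, |w i| ≤ δ) (hδ : δ ≤ 1 / 2 ^ τ) :
    1 / 2 ≤ |pf A (hom s (g.lt s ω + w)) (bv m.succ)| := by
  obtain ⟨h1, -, h3⟩ := h
  have hp : (0 : ℝ) < ((2 : ℝ) ^ j)⁻¹ := by positivity
  have e : ∀ t u, pf A (hom (t + u) (g.lt (t + u) ω)) (bv m.succ) =
      pf A (hom t (g.lt t ω)) (bv m.succ) + u * pf A (vec 1 (g.e ω)) (bv m.succ) := fun t u => by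
    rw [hom_lt, pf_add_left, pf_smul_left]
  have h4 := (h3 _ (win le_rfl (le_add_of_nonneg_right (half_pos hp).le))).2 m
  have h5 := (h3 _ (win (le_add_of_nonneg_right (half_pos hp).le) le_rfl)).2 m
  rw [e] at h5
  have e' := e (g.z ω) (s - g.z ω)
  rw [add_sub_cancel] at e'
  generalize pf A (vec 1 (g.e ω)) (bv m.succ) = κ at h5 e'
  have h6 : ((2 : ℝ) ^ j)⁻¹ * |κ| ≤ 4 * L := by
    have k1 := abs_le.1 h4
    have k2 := abs_le.1 h5
    rw [← abs_of_pos hp, ← abs_mul]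
    exact abs_le.2 ⟨by linarith, by linarith⟩
  have h7 : |(s - g.z ω) * κ| ≤ 1 / 4 := by
    have k1 := mul_le_mul_of_nonneg_right (abs_sub_lt_of_fl1_eq hs).le (abs_nonneg κ)
    have k2 : (0 : ℝ) < 2 ^ i := by positivity
    rw [pow_add, _root_.mul_inv_rev, mul_assoc] at k1
    rw [abs_mul]
    refine k1.trans ((inv_mul_le_iff₀ k2).2 (by linarith))
  have h8 := abs_vec hw (h1 m)
  have h9 : δ * 2 ^ τ ≤ 1 := (le_div_iff₀ (by positivity)).1 hδ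
  rw [hom_w, pf_add_left, e', pf_comm A (vec 0 w)]
  have k1 := abs_le.1 h7
  have k2 := abs_le.1 h8
  rcases le_abs.1 hm with k | k
  · exact le_abs.2 (Or.inl (by change 1 ≤ pf A (hom _ (g.lt _ ω)) _ at k; linarith))
  · exact le_abs.2 (Or.inr (by change 1 ≤ -pf A (hom _ (g.lt _ ω)) _ at k; linarith))

theorem pl_le {d : ℝ × ℝ × V 3} {c : Fin 3} {σ : ℕ} (h : (g.pl {0} c).fit L d ω j σ) (hσ : τ ≤ σ)
    (hs : fl1 j s = fl1 j (g.z ω)) (hw : ∀ i, |w i| ≤ δ) (hδ : δ ≤ 1 / 2 ^ τ) :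
    |(g.lt s ω + w) c - (d.1 + d.2.1 * s) - d.2.2 0 * (g.lt s ω + w) 0| ≤ (2 * L + 1) / 2 ^ τ := by
  obtain ⟨h1, h2, h3⟩ := h
  have hL : 0 ≤ L := (abs_nonneg _).trans h1
  have h4 := (h3 s hs).trans (div_le_div_of_nonneg_left hL (by positivity)
    (pow_le_pow_right₀ one_le_two hσ))
  rw [Fin.sum_univ_three, (h2 1).2 (by decide), (h2 2).2 (by decide), div_eq_mul_one_div] at h4
  have h5 : |d.2.2 0 * w 0| ≤ L * (1 / 2 ^ τ) := by
    rw [abs_mul]; exact mul_le_mul (h2 0).1 ((hw 0).trans hδ) (abs_nonneg _) hL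
  have k1 := abs_le.1 h4
  have k2 := abs_le.1 h5
  have k3 := abs_le.1 ((hw c).trans hδ)
  rw [div_eq_mul_one_div, Pi.add_apply, Pi.add_apply]
  exact abs_le.2 ⟨by linarith, by linarith⟩

theorem box_le {P : FP Ω} (h : g.Bx P L) (hω : ω ∈ P.S) (hs : fl1 j s = fl1 j (g.z ω))
    (hw : ∀ i, |w i| ≤ 1) (c : Fin 3) : |(g.lt s ω + w) c| ≤ 2 * L + 1 := by
  obtain ⟨h1, h2, h3⟩ := h.bd ω hω
  have h4 := (fl1_eq_of_le (Nat.zero_le j) hs).trans (fl1_zero_of_box h2 h3)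
  simp only [fl1, pow_zero, one_mul, Int.floor_eq_zero_iff, Set.mem_Ico] at h4
  have h5 : |s * g.e ω c| ≤ L := by
    rw [abs_mul, abs_of_nonneg h4.1]
    exact (mul_le_of_le_one_left (abs_nonneg _) h4.2.le).trans (h1 c).2
  exact (abs_add_three (g.a ω c) (s * g.e ω c) (w c)).trans (by linarith [(h1 c).1, hw c])

/-- The order of the coordinates. -/
def u (k : Bool) : Fin 3 → Fin 3 := ![0, co k, co (!k)]

theorem u_u (k : Bool) (c : Fin 3) : u k (u k c) = c := by revert k c; decide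

theorem poly_dot (A : Qd) {φ ψ : V 3 → V 5} (h : ∀ i, H83.IsPoly 1 fun z => φ z i)
    (h' : ∀ i, H83.IsPoly 1 fun z => ψ z i) : H83.IsPoly 2 fun z => φ z ⬝ᵥ A *ᵥ ψ z :=
  H83.IsPoly.sum Finset.univ fun i _ =>
    (h i).mul (H83.IsPoly.sum Finset.univ fun m _ => (h' m).const_mul (A i m))

theorem isQ (A : Qd) (k : Bool) : H55K.IsQ (fun s z => qf A (hom s fun c => z (u k c)))
    fun s z => pf A (hom s fun c => z (u k c)) (bv (co (!k)).succ.succ) := by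
  intro s
  have h : ∀ i, H83.IsPoly 1 fun z : V 3 => hom s (fun c => z (u k c)) i := fun i => by
    fin_cases i
    exacts [H83.IsPoly.const 1 1, H83.IsPoly.const 1 s, H83.IsPoly.coord (u k 0),
      H83.IsPoly.coord (u k 1), H83.IsPoly.coord (u k 2)]
  have h' : ∀ i, H83.IsPoly 1 fun _ : V 3 => bv (co (!k)).succ.succ i := fun i =>
    H83.IsPoly.const 1 _
  refine ⟨poly_dot A h h, (poly_dot A h h').add (poly_dot A h' h), fun z z' h0 h1 => ?_⟩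
  have e : (hom s fun c => z (u k c)) - (hom s fun c => z' (u k c)) =
      (z 2 - z' 2) • bv (co (!k)).succ.succ := by
    funext i
    cases k <;> fin_cases i <;> simp [hom, u, co, bv, h0, h1]
  simp only []
  rw [qf_sub_qf, e, pf_smul_right, pf_smul_right]; ring

end EKrA

open EKrA in
theorem rowEKr : EKr := by
  obtain ⟨C, hC, H⟩ := H55K.kr_det
  have hC1 : 0 ≤ Real.log (C * 90 * 64 ^ 3) := Real.log_nonneg (by linarith)
  refine ⟨Real.log (C * 90 * 64 ^ 3) + 7, by linarith, ?_⟩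
  intro Ω Λ P g S A d L j τ τ' M σ hL hb hA hd hτ hτ' hf
  obtain ⟨i, hi, hi'⟩ : ∃ i : ℕ, 16 * L ≤ 2 ^ i ∧ 2 ^ i ≤ 32 * L := by
    obtain ⟨n, h1, h2⟩ := exists_nat_pow_near (x := 16 * L) (y := 2) (by linarith) one_lt_two
    exact ⟨n + 1, h2.le, by rw [pow_succ]; linarith⟩
  obtain ⟨A', hA'⟩ := fac hA
  choose d' hd' using fun k => fac (hd k).1
  have hk : ∀ ω ∈ P.S, ∃ k : Bool,
      1 ≤ |pf (A ω) (hom (g.z ω) (g.pt ω)) (bv (co (!k)).succ.succ)| := fun ω hω =>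
    (hf ω hω).1.2.1.elim (fun h => ⟨true, h⟩) fun h => ⟨false, h⟩
  choose! k hk using hk
  have hT : (0 : ℝ) < ((2 : ℝ) ^ (j + i))⁻¹ / 2 := by positivity
  have hT1 : ((2 : ℝ) ^ (j + i))⁻¹ / 2 ≤ 1 := by
    linarith [inv_le_one_of_one_le₀ (one_le_pow₀ (M₀ := ℝ) one_le_two (n := j + i))]
  have hδ : ∀ m ≤ M, ((2 : ℝ) ^ (j + i))⁻¹ / 2 / 2 ^ M ≤ 1 / 2 ^ m := fun m hm =>
    div_le_div₀ zero_le_one hT1 (by positivity) (pow_le_pow_right₀ one_le_two hm)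
  have h1 := ch_det (H P (fun ω => (k ω, fl1 (j + i) (g.z ω), S ω)) (fun ω c => g.a ω (u (k ω) c))
    (fun ω c => g.e ω (u (k ω) c)) (fun l s z => qf (A' l.2.2) (hom s fun c => z (u l.1 c)))
    (fun l s z => pf (A' l.2.2) (hom s fun c => z (u l.1 c)) (bv (co (!l.1)).succ.succ))
    (fun _ _ => 0) (fun l s => (d' l.1 l.2.2).1 + (d' l.1 l.2.2).2.1 * s)
    (fun l _ => (d' l.1 l.2.2).2.2 0) (fun _ _ => 1 / 2) (fun l => ((2 : ℝ) ^ (j + i))⁻¹ * l.2.1)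
    (((2 : ℝ) ^ (j + i))⁻¹ / 2) (2 * L + 1) (2 * L + 1) ((2 * L + 1) / 2 ^ τ')
    ((8 * L + 2) / 2 ^ τ) M (fun l => isQ _ _) hT (by positivity) (by positivity) (by positivity)
    (fun _ _ => one_half_pos) fun ω hω s w a1 a2 a3 => by
      have b1 := win a1 a2
      have b2 := fl1_eq_of_le (Nat.le_add_right j i) b1
      have b3 : ∀ c, |w (u (k ω) c)| ≤ ((2 : ℝ) ^ (j + i))⁻¹ / 2 / 2 ^ M := fun c =>
        (norm_le_pi_norm w _).trans a3
      have b4 := box_le hb hω b2 fun c => (b3 c).trans ((hδ 0 (Nat.zero_le M)).trans (by simp))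
      generalize hz : ((fun c => g.a ω (u (k ω) c)) + s • (fun c => g.e ω (u (k ω) c)) + w) = z
      have e1 : (fun c => z (u (k ω) c)) = g.lt s ω + fun c => w (u (k ω) c) := by
        funext c
        simp only [← hz, Pi.add_apply, Pi.smul_apply, u_u, Geo.lt]
      have e2 : ∀ c, z c = (g.lt s ω + fun c => w (u (k ω) c)) (u (k ω) c) := fun c => by
        simp only [← e1, u_u]
      simp only [H55K.InCell, hA' ω hω, hd' _ ω hω, e1, sub_zero]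
      refine ⟨(pi_norm_le_iff_of_nonneg (by positivity)).2 fun c => e2 c ▸ b4 _, e2 0 ▸ b4 _, ?_,
        val_le (hf ω hω).1 (by linarith) b2 b3 (hδ τ hτ),
        der_ge (hf ω hω).1 hi _ (hk ω hω) b1 b3 (hδ τ hτ)⟩
      rw [e2 0, e2 1]
      exact pl_le ((hf ω hω).2 (k ω)) (hd _).2 b2 b3 (hδ τ' hτ'))
  have h2 : ch P (fun ω => fl M (g.e ω)) (fun ω => (k ω, fl1 (j + i) (g.z ω), S ω)) ≤
      ch P (fun ω => fl M fun c => g.e ω (u (k ω) c))
        fun ω => (k ω, fl1 (j + i) (g.z ω), S ω) := ch_mono fun a _ b _ e => funext fun c => by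
    simp only [Prod.mk.injEq] at e
    have := congrFun e.1 (u (k a) c)
    simp only [fl_apply, ← e.2.1, u_u] at this
    exact this
  have h3 := ch_tri' (P := P) (fun ω => fl M (g.e ω)) (fun ω => (S ω, fl1 j (g.z ω)))
    fun ω => (k ω, fl1 (j + i) (g.z ω), S ω)
  have h4 := ch_subadd (P := P) k (fun ω => (fl1 (j + i) (g.z ω), S ω))
    fun ω => (S ω, fl1 j (g.z ω))
  have h5 : ch P k (fun ω => (S ω, fl1 j (g.z ω))) ≤ lg :=
    ch_det fun _ _ => ⟨Finset.univ, by simp, fun _ _ _ => Finset.mem_univ _⟩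
  have h6 : ch P (fun ω => (fl1 (j + i) (g.z ω), S ω)) (fun ω => (S ω, fl1 j (g.z ω))) ≤ i * lg :=
    (ch_mono ((Fn.fst _ _).pair ((Fn.fst _ _).right _))).trans
      ((ch_fl1_refine (j := fun _ => j) (i := fun _ => i) (fun _ _ _ _ _ => rfl)
        (fun _ _ _ _ _ => rfl) (Fn.snd _ _)).trans (P.E_const _).le)
  have hL0 : 0 < L := by linarith
  have h7 : i * lg ≤ 5 * lg + Real.log L := by
    have := Real.log_le_log (by positivity) hi'
    rwa [log_two_pow, Real.log_mul (by norm_num) hL0.ne', show (32 : ℝ) = 2 ^ 5 by norm_num,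
      log_two_pow] at this
  have h8 : C * ((2 * L + 1) * ((2 * L + 1) / 2 ^ τ') * ((8 * L + 2) / 2 ^ τ)) *
      (2 ^ M / (((2 : ℝ) ^ (j + i))⁻¹ / 2)) ^ 3 ≤
      C * 90 * 64 ^ 3 * L ^ 6 * (2 ^ (3 * M + 3 * j) / (2 ^ τ * 2 ^ τ')) := by
    calc _ = C * ((2 * L + 1) * (2 * L + 1) * (8 * L + 2)) * (2 * 2 ^ i) ^ 3 *
          (2 ^ (3 * M + 3 * j) / (2 ^ τ * 2 ^ τ')) := by field_simp; ring
      _ ≤ C * (3 * L * (3 * L) * (10 * L)) * (2 * (32 * L)) ^ 3 *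
          (2 ^ (3 * M + 3 * j) / (2 ^ τ * 2 ^ τ')) := by gcongr <;> linarith
      _ = _ := by ring
  have h9 := Real.log_le_log (by positivity) h8
  rw [Real.log_mul (x := C * 90 * 64 ^ 3 * L ^ 6) (by positivity) (by positivity),
    Real.log_mul (x := C * 90 * 64 ^ 3) (by positivity) (by positivity),
    Real.log_div (by positivity) (by positivity),
    Real.log_mul (x := 2 ^ τ) (by positivity) (by positivity),
    log_two_pow, log_two_pow, log_two_pow, Real.log_pow L] at h9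
  have h10 := Real.log_nonneg hL
  have h11 := mul_nonneg hC1 h10
  have h12 := lg_lt_one
  refine (h3.trans (add_le_add (h2.trans (h1.trans h9))
    (h4.trans (add_le_add h5 (h6.trans h7))))).trans ?_
  push_cast
  linarith

end Pool.Agent.MP_5168f5_an.R4
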