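import Pool.Agent.MP_5168f5_an.R4.SpecE3
import Pool.Agent.MP_5168f5_an.R4.XKP

/-! Extension step for quadrics: the hypotheses of the rounding. -/

namespace Pool.Agent.MP_5168f5_an.R4

open H19 H17S H17F Matrix Filter

namespace ERGA

theorem rd_bd (q : ℕ) (x : ℝ) : 0 ≤ x - rd q x ∧ x - rd q x ≤ ((2 : ℝ) ^ q)⁻¹ :=
  ⟨sub_nonneg.2 (fl1_le q x), by rw [rd]; linarith [lt_fl1 q x]⟩

theorem bv3 : bv 3 = ![0, 0, 0, 1, 0] := by funext i; fin_cases i <;> simp [bv]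

theorem bv4 : bv 4 = ![0, 0, 0, 0, 1] := by funext i; fin_cases i <;> simp [bv]

theorem mul_bd {x y a b : ℝ} (h : |x| ≤ a) (h' : |y| ≤ b) : |x * y| ≤ a * b := by
  rw [abs_mul]
  exact mul_le_mul h h' (abs_nonneg _) ((abs_nonneg _).trans h)

theorem pf_bd {A : Qd} {Y T : V 5} {b c : ℝ} (h0 : T 0 = 0) (hT : ∀ i : Fin 4, |T i.succ| ≤ b)
    (h : ∀ i : Fin 4, |pf A Y (bv i.succ)| ≤ c) : |pf A Y T| ≤ 4 * b * c := by
  have e : T = T 1 • bv 1 + T 2 • bv 2 + T 3 • bv 3 + T 4 • bv 4 := by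
    funext i; fin_cases i <;> simp [bv, h0]
  have a1 := abs_le.1 (mul_bd (hT 0) (h 0))
  have a2 := abs_le.1 (mul_bd (hT 1) (h 1))
  have a3 := abs_le.1 (mul_bd (hT 2) (h 2))
  have a4 := abs_le.1 (mul_bd (hT 3) (h 3))
  have e' := congrArg (pf A Y) e
  simp only [pf_add_right, pf_smul_right] at e'
  rw [e', abs_le]
  exact ⟨by linarith! [a1.1, a2.1, a3.1, a4.1], by linarith! [a1.2, a2.2, a3.2, a4.2]⟩

variable {W : Type} (Q : FP W) (g : Geo 3 W) (s₁ s₂ : Lq W) {j m q : ℕ} (v : W × ℕ)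

theorem Y_eq (hj : j ≤ m) (hm : m ≤ q) : (mkL Q g s₁ s₂ j m q).Y v =
    ![1, rd q (g.z v.1), rd q (g.pt v.1 0), rd q (g.pt v.1 1) +
      (plv (s₁.d false v.1) (rd q (g.z v.1)) (rd q (g.pt v.1 0)) -
        rd q (plv (s₁.d false v.1) (rd q (g.z v.1)) (rd q (g.pt v.1 0)))) +
      ((2 : ℝ) ^ q)⁻¹ * (v.2 * 2 ^ j / 2 ^ m), rd q (g.pt v.1 2)] := by
  have e1 : (2 : ℝ) ^ (q - j) = 2 ^ q / 2 ^ j := pow_sub₀ _ two_ne_zero (hj.trans hm)
  have e2 : (2 : ℝ) ^ (m - j) = 2 ^ m / 2 ^ j := pow_sub₀ _ two_ne_zero hj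
  have e3 : ∀ x, (fl1 q x : ℝ) = 2 ^ q * rd q x := fun x => by rw [rd]; field_simp
  have e4 : (fl1 j (g.z v.1) : ℝ) = 2 ^ j * g.z0 j v.1 := by rw [Geo.z0]; field_simp
  have e5 : (fl1 j (g.lt (g.z0 j v.1) v.1 0) : ℝ) = 2 ^ j * g.ox j v.1 := by
    rw [Geo.ox, rd]; field_simp
  funext i
  fin_cases i <;>
    simp [Lm.Y, mkL, hom, vec, bv3, bv4, Fin.sum_univ_three, e1, e2, e3, e4, e5, plv] <;>
    field_simp <;> ring

theorem W_eq (hq : j ≤ q) : (mkL Q g s₁ s₂ j m q).W (q - j) v =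
    ![((2 : ℝ) ^ j)⁻¹ • ![0, 1, 0, (s₁.d false v.1).2.1, 0],
      ((2 : ℝ) ^ j)⁻¹ • ![0, 0, 1, (s₁.d false v.1).2.2 0, 0], ((2 : ℝ) ^ m)⁻¹ • bv 3] := by
  have e1 : (2 : ℝ) ^ (q - j) = 2 ^ q / 2 ^ j := pow_sub₀ _ two_ne_zero hq
  funext a i
  fin_cases a <;> fin_cases i <;> simp [Lm.W, mkL, vec, bv3, e1] <;> field_simp

theorem dl_dot (d : Pd) (ω : W) (U : V 5) :
    g.dl j m d ω 0 ⬝ᵥ U = 2 ^ j * (U 1 - g.z0 j ω * U 0) ∧
    g.dl j m d ω 1 ⬝ᵥ U = 2 ^ j * (U 2 - g.ox j ω * U 0) ∧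
    g.dl j m d ω 2 ⬝ᵥ U = 2 ^ m * (U 3 - d.1 * U 0 - d.2.1 * U 1 - d.2.2 0 * U 2) := by
  refine ⟨?_, ?_, ?_⟩ <;> simp [Geo.dl, dotProduct, Fin.sum_univ_five] <;> ring

theorem sg_eq (ω : W) (s : ℝ) : hom (g.z0 j ω) (g.lt (g.z0 j ω) ω) + s • ((2 : ℝ) ^ j)⁻¹ •
    vec 1 (g.e ω) = hom (g.z0 j ω + ((2 : ℝ) ^ j)⁻¹ * s)
      (g.lt (g.z0 j ω + ((2 : ℝ) ^ j)⁻¹ * s) ω) := by
  rw [hom_lt, smul_smul, mul_comm s]

theorem z_eq (ω : W) : g.z0 j ω + ((2 : ℝ) ^ j)⁻¹ * Int.fract (2 ^ j * g.z ω) = g.z ω := by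
  rw [Geo.z0, Int.fract, fl1]
  field_simp
  ring

end ERGA

open ERGA in
theorem rowERG : ERG := by
  refine ⟨2704, by norm_num, fun {W} Q g s₁ s₂ L Λ η j m q R v h hv hΛ hη hq hA => ?_⟩
  obtain ⟨hL, hj, hm, hR⟩ := h.le
  obtain ⟨hω, hU⟩ := (mem_bind _ _ v).1 hv
  have hp : hom (g.z0 j v.1) (g.lt (g.z0 j v.1) v.1) +
      Int.fract (2 ^ j * g.z v.1) • ((2 : ℝ) ^ j)⁻¹ • vec 1 (g.e v.1) = g.hp v.1 := by
    rw [sg_eq, z_eq]; rfl
  have hY := Y_eq Q g s₁ s₂ v hj hm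
  have hW := W_eq (m := m) Q g s₁ s₂ v (hj.trans hm)
  generalize (mkL Q g s₁ s₂ j m q).Y v = Y at *
  generalize (mkL Q g s₁ s₂ j m q).W (q - j) v = Wf at *
  have hf := (h.a₁.fit _ hω).2 false
  have hs := KPA.slope g _ _ hf
  obtain ⟨hγ, hβ, hf⟩ := hf
  have hf := hf _ rfl
  have sm : ∀ x : V 3, ∑ i, (s₁.d false v.1).2.2 i * x i = (s₁.d false v.1).2.2 0 * x 0 :=
    fun x => by simp [Fin.sum_univ_three, (hβ 1).2, (hβ 2).2]
  rw [KPA.sl, sm] at hs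
  rw [sm] at hf
  have hβ := (hβ 0).1
  set d := s₁.d false v.1
  set ε := ((2 : ℝ) ^ q)⁻¹ with hε
  have ε0 : 0 < ε := by positivity
  have J0 : (0 : ℝ) < 2 ^ j := by positivity
  have M0 : (0 : ℝ) < 2 ^ m := by positivity
  have J1 : (1 : ℝ) ≤ 2 ^ j := one_le_pow₀ one_le_two
  have JM : (2 : ℝ) ^ j ≤ 2 ^ m := pow_le_pow_right₀ one_le_two hj
  have ML : (2 : ℝ) ^ m ≤ 2 ^ m * L := le_mul_of_one_le_right M0.le hL
  have u1 : (v.2 : ℝ) * 2 ^ j / 2 ^ m ≤ 1 := by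
    have : (v.2 : ℝ) ≤ 2 ^ (m - j) := by exact_mod_cast (Finset.mem_range.1 hU).le
    rwa [pow_sub₀ _ two_ne_zero hj, ← div_eq_mul_inv, le_div_iff₀ J0, ← div_le_one M0] at this
  have u2 : 0 ≤ ε * ((v.2 : ℝ) * 2 ^ j / 2 ^ m) := by positivity
  have u3 := mul_le_of_le_one_right ε0.le u1
  have D0 : (g.hp v.1 - Y) 0 = 0 := by simp [hY, Geo.hp, hom]
  have D1 : |(g.hp v.1 - Y) 1| ≤ ε := by
    have := rd_bd q (g.z v.1)
    simpa [hY, Geo.hp, hom] using abs_le.2 ⟨by linarith, this.2⟩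
  have D2 : |(g.hp v.1 - Y) 2| ≤ ε := by
    have := rd_bd q (g.pt v.1 0)
    simpa [hY, Geo.hp, hom] using abs_le.2 ⟨by linarith, this.2⟩
  have D4 : |(g.hp v.1 - Y) 4| ≤ ε := by
    have := rd_bd q (g.pt v.1 2)
    simpa [hY, Geo.hp, hom] using abs_le.2 ⟨by linarith, this.2⟩
  have D3 : |(g.hp v.1 - Y) 3| ≤ 2 * ε := by
    have a := rd_bd q (g.pt v.1 1)
    have b := rd_bd q (plv d (rd q (g.z v.1)) (rd q (g.pt v.1 0)))
    rw [hY, abs_le]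
    simp only [Geo.hp, hom, Pi.sub_apply, cons_val]
    constructor <;> linarith [a.1, a.2, b.1, b.2]
  have k1 : ∀ a, |g.dl j m d v.1 a ⬝ᵥ (g.hp v.1 - Y)| ≤ 2 ^ m * (4 * L * ε) := fun a => by
    obtain ⟨e0, e1, e2⟩ := dl_dot (j := j) (m := m) g d v.1 (g.hp v.1 - Y)
    have l1 : ε ≤ L * ε := le_mul_of_one_le_left ε0.le hL
    simp only [D0, mul_zero, sub_zero] at e0 e1 e2
    fin_cases a
    · exact e0 ▸ mul_bd ((abs_of_pos J0).trans_le JM) (by linarith)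
    · exact e1 ▸ mul_bd ((abs_of_pos J0).trans_le JM) (by linarith)
    · have b1 := abs_le.1 (mul_bd hγ D1)
      have b2 := abs_le.1 (mul_bd hβ D2)
      have b3 := abs_le.1 D3
      exact e2 ▸ mul_bd (abs_of_pos M0).le (abs_le.2
        ⟨by linarith [b1.2, b2.2, b3.1], by linarith [b1.1, b2.1, b3.2]⟩)
  have k2 : ∀ a, 100 * Λ * |g.dl j m d v.1 a ⬝ᵥ (g.hp v.1 - Y)| ≤ 1 := fun a => by
    have b := mul_le_mul_of_nonneg_right hq ε0.le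
    rw [hε, mul_inv_cancel₀ (by positivity), ← hε] at b
    linarith [mul_le_mul_of_nonneg_left (k1 a) (show 0 ≤ 100 * Λ by linarith)]
  have he := (h.a₁.bx.bd _ hω).1
  have k3 : ∀ a, |g.dl j m d v.1 a ⬝ᵥ g.hp v.1| ≤ 2 * L := fun a => by
    obtain ⟨e0, e1, e2⟩ := dl_dot (j := j) (m := m) g d v.1 (g.hp v.1)
    have f0 := Int.fract_nonneg (2 ^ j * g.z v.1)
    have f1 := Int.fract_lt_one (2 ^ j * g.z v.1)
    have z1 : 2 ^ j * (g.z v.1 - g.z0 j v.1) = Int.fract (2 ^ j * g.z v.1) := by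
      nth_rw 1 [← z_eq (j := j) g v.1]
      field_simp
      ring
    simp only [Geo.hp, hom, cons_val, mul_one] at e0 e1 e2
    fin_cases a
    · exact e0 ▸ z1 ▸ abs_le.2 ⟨by linarith, by linarith⟩
    · have b1 := rd_bd j (g.lt (g.z0 j v.1) v.1 0)
      have b2 := mul_le_mul_of_nonneg_left b1.2 J0.le
      have b3 := mul_nonneg J0.le b1.1
      have b4 := abs_le.1 (mul_bd ((abs_of_nonneg f0).trans_le f1.le) (he 0).2)
      rw [mul_inv_cancel₀ J0.ne'] at b2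
      have b5 : 2 ^ j * (g.pt v.1 0 - g.ox j v.1) = 2 ^ j * (g.lt (g.z0 j v.1) v.1 0 -
          rd j (g.lt (g.z0 j v.1) v.1 0)) + Int.fract (2 ^ j * g.z v.1) * g.e v.1 0 := by
        rw [← z1, Geo.pt, Geo.ox, KPA.lt_apply g (g.z v.1), KPA.lt_apply g (g.z0 j v.1)]
        ring
      exact e1 ▸ b5 ▸ abs_le.2 ⟨by linarith [b4.1], by linarith [b4.2]⟩
    · have b := mul_bd (abs_of_pos M0).le hf
      rw [mul_div_cancel₀ _ M0.ne'] at b
      exact e2 ▸ b.trans (by linarith)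
  have hD : ∀ i : Fin 4, |(g.hp v.1 - Y) i.succ| ≤ 2 * ε := fun i => by
    fin_cases i
    exacts [D1.trans (by linarith), D2.trans (by linarith), D3, D4.trans (by linarith)]
  refine ⟨⟨hA, fun U => ?_, fun a => ?_, ⟨by simp [hY], rfl, by simp [vec]⟩,
    ⟨by linarith, lt_of_lt_of_le (by positivity) hη, Int.fract_nonneg _, Int.fract_lt_one _⟩,
    fun a => ⟨?_, ?_, hp ▸ k2 a⟩, ?_, fun s s0 s1 => ?_, (h.hs _ hω).1.1, fun a i => ?_⟩, ?_, hp⟩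
  · obtain ⟨e0, e1, e2⟩ := dl_dot (j := j) (m := m) g d v.1 U
    rw [Fin.sum_univ_three, e0, e1, e2, hW]
    funext i
    fin_cases i <;> simp [mkL, hom, bv3, bv4, plv, d] <;> field_simp <;> ring
  · fin_cases a <;> simp [Geo.dl]
  · have b1 := abs_le.1 (k3 a)
    have b2 : |g.dl j m d v.1 a ⬝ᵥ (g.hp v.1 - Y)| ≤ 1 :=
      (le_mul_of_one_le_left (abs_nonneg _) (by linarith)).trans (k2 a)
    rw [dotProduct_sub, abs_le] at b2
    exact abs_le.2 ⟨by linarith [b1.1, b2.2], by linarith [b1.2, b2.1]⟩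
  · obtain ⟨e0, e1, e2⟩ := dl_dot (j := j) (m := m) g d v.1 (((2 : ℝ) ^ j)⁻¹ • vec 1 (g.e v.1))
    simp only [vec, Pi.smul_apply, cons_val, smul_eq_mul, mul_zero, sub_zero, mul_one,
      mul_inv_cancel₀ J0.ne', mul_inv_cancel_left₀ J0.ne'] at e0 e1 e2
    fin_cases a
    · exact (congrArg _ e0).trans_le (abs_one.trans_le (by linarith))
    · exact e1 ▸ (he 0).2.trans (by linarith)
    · have b := mul_bd (abs_of_pos (div_pos M0 J0)).le hs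
      refine e2 ▸ (le_of_eq (congrArg _ ?_)).trans (b.trans ((le_of_eq ?_).trans
        (show 4 * L ≤ Λ by linarith)))
      · simp only [co, cond_false]; field_simp
      · field_simp
  · rw [hp]
    exact le_trans (by norm_num) (h.hs _ hω).1.2
  · rw [sg_eq]
    have b := (h.a₁.fit _ hω).1 _ (KPA.fl1_mid j (fl1 j (g.z v.1)) s0 s1)
    exact ⟨b.1.trans hη, fun i => (b.2 i).trans (by linarith)⟩
  · have b1 := mul_le_mul_of_nonneg_left hγ M0.le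
    have b2 := mul_le_mul_of_nonneg_left hβ M0.le
    fin_cases a <;> fin_cases i <;> simp [Geo.dl] <;> linarith
  · have hH := (h.hs _ hω).2.1
    have g1 : ∀ i : Fin 4, |pf (s₂.A v.1) Y (bv i.succ)| ≤ 3 * L := fun i => by
      have b1 := abs_le.1 (((h.a₂.fit _ hω).1 _ rfl).2 i)
      have b2 := pf_bd D0 hD (hH i)
      have b3 : 4 * (2 * ε) * (L * 2 ^ q / 2 ^ R) ≤ 2 * L := by
        have : 4 * (2 * ε) * (L * 2 ^ q / 2 ^ R) = 8 * L / 2 ^ R := by rw [hε]; field_simp; ring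
        rw [this, div_le_iff₀ (by positivity)]
        nlinarith
      rw [pf_comm, pf_sub_left, abs_le] at b2
      exact abs_le.2 ⟨by linarith! [b1.1, b2.2], by linarith! [b1.2, b2.1]⟩
    have j1 : ((2 : ℝ) ^ j)⁻¹ ≤ 1 := inv_le_one_of_one_le₀ J1
    have j2 : ((2 : ℝ) ^ m)⁻¹ ≤ 1 := inv_le_one_of_one_le₀ (J1.trans JM)
    have w0 : ∀ a, Wf a 0 = 0 := fun a => by fin_cases a <;> simp [hW, bv3]
    have w1 : ∀ a (i : Fin 4), |Wf a i.succ| ≤ L := fun a i => by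
      have b1 := mul_le_mul j1 hγ (abs_nonneg _) zero_le_one
      have b2 := mul_le_mul j1 hβ (abs_nonneg _) zero_le_one
      fin_cases a <;> fin_cases i <;> simp [hW, bv3] <;> linarith
    have t0 : ∀ a, tl (s₂.A v.1) Y (Wf a) 0 = 0 := fun a => by simp [tl, w0, bv]
    have t1 : ∀ a (i : Fin 4), |tl (s₂.A v.1) Y (Wf a) i.succ| ≤ 13 * L ^ 2 := fun a i => by
      have b1 : |pf (s₂.A v.1) Y (Wf a) / pf (s₂.A v.1) Y (bv 4)| ≤ 4 * L * (3 * L) := by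
        rw [abs_div]
        exact (div_le_self (abs_nonneg _) (hA.d₂.1.trans (le_abs_self _))).trans
          (pf_bd (w0 a) (w1 a) g1)
      have b2 : |bv 4 i.succ| ≤ 1 := by fin_cases i <;> simp [bv]
      have b3 := abs_le.1 (mul_bd b1 b2)
      have b4 := abs_le.1 (w1 a i)
      have b5 : L ≤ L ^ 2 := le_self_pow₀ hL two_ne_zero
      rw [tl, Pi.sub_apply, Pi.smul_apply, smul_eq_mul, abs_le]
      constructor <;> linarith [b3.1, b3.2, b4.1, b4.2]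
    refine (pi_norm_le_iff_of_nonneg (by positivity)).2 fun i => ?_
    refine (pf_bd (t0 i.2) (t1 i.2) fun k => (congrArg _ (pf_comm _ _ _)).trans_le
      (pf_bd (t0 i.1) (t1 i.1) (hH k))).trans ?_
    have b : L * 2 ^ q / 2 ^ R ≤ L * 2 ^ q := div_le_self (by positivity) (one_le_pow₀ one_le_two)
    linarith [mul_le_mul_of_nonneg_left b (show 0 ≤ 2704 * L ^ 4 by positivity)]

end Pool.Agent.MP_5168f5_an.R4
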