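import Pool.Agent.MP_5168f5_an.R4.SpecE3

/-! The entropy of the line computed at two heights of the same window. -/

namespace Pool.Agent.MP_5168f5_an.R4

open H19 H17S H17F Matrix Filter

namespace EShA

theorem near1 {j : ℕ} {x y : ℝ} (h : fl1 j x = fl1 j y) : |x - y| ≤ ((2 : ℝ) ^ j)⁻¹ := by
  have h1 := fl1_le j x
  have h2 := lt_fl1 j x
  have h3 := fl1_le j y
  have h4 := lt_fl1 j y
  rw [h] at h1 h2
  rw [abs_le]; constructor <;> linarith

/-- Moving a point by a short time along a direction known at the finer resolution. -/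
theorem shift {j p : ℕ} (hjp : j ≤ p) {x x' e e' : V 3} {t : ℝ} (ht : |t| ≤ ((2 : ℝ) ^ j)⁻¹)
    (hx : fl p x = fl p x') (he : fl (p - j) e = fl (p - j) e') :
    ‖(x + t • e) - (x' + t • e')‖ ≤ (2 : ℕ) * ((2 : ℝ) ^ p)⁻¹ := by
  refine (pi_norm_le_iff_of_nonneg (by positivity)).2 fun i => ?_
  have h1 : |x i - x' i| ≤ ((2 : ℝ) ^ p)⁻¹ := near1 (congrFun hx i)
  have h2 : |e i - e' i| ≤ ((2 : ℝ) ^ (p - j))⁻¹ := near1 (congrFun he i)
  have h3 : |t * (e i - e' i)| ≤ ((2 : ℝ) ^ p)⁻¹ := by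
    rw [abs_mul]
    refine (mul_le_mul ht h2 (abs_nonneg _) (by positivity)).trans (le_of_eq ?_)
    rw [← mul_inv, ← pow_add, Nat.add_sub_cancel' hjp]
  have e1 : (x + t • e - (x' + t • e')) i = (x i - x' i) + t * (e i - e' i) := by
    simp only [Pi.sub_apply, Pi.add_apply, Pi.smul_apply, smul_eq_mul]; ring
  rw [Real.norm_eq_abs, e1]
  refine (abs_add_le _ _).trans ?_
  push_cast; linarith

variable {Ω : Type} (g : Geo 3 Ω)

theorem z0_near (j : ℕ) (ω : Ω) : |g.z ω - g.z0 j ω| ≤ ((2 : ℝ) ^ j)⁻¹ := by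
  have h1 := fl1_le j (g.z ω)
  have h2 := lt_fl1 j (g.z ω)
  have h3 : (0 : ℝ) < ((2 : ℝ) ^ j)⁻¹ := by positivity
  unfold Geo.z0
  rw [abs_le]; constructor <;> linarith

theorem pt_eq (j : ℕ) (ω : Ω) : g.pt ω = g.lt (g.z0 j ω) ω + (g.z ω - g.z0 j ω) • g.e ω := by
  unfold Geo.pt Geo.lt
  rw [add_assoc, ← add_smul]; congr 2; ring

theorem lt_eq (j : ℕ) (ω : Ω) : g.lt (g.z0 j ω) ω = g.pt ω + (-(g.z ω - g.z0 j ω)) • g.e ω := by
  rw [pt_eq g j ω, add_assoc, ← add_smul]; simp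

/-- The line at the left end of the window. -/
noncomputable def ll (j p : ℕ) (ω : Ω) : Z 3 × Z 3 :=
  (fl p (g.lt (g.z0 j ω) ω), fl (p - j) (g.e ω))

theorem ll_win {j p : ℕ} {a b : Ω} (h : g.win j a = g.win j b) : ll g j p a = ll g j p b := by
  have h1 : g.a a = g.a b := congrArg (fun x => x.1.1) h
  have h2 : g.e a = g.e b := congrArg (fun x => x.1.2.1) h
  have h3 : fl1 j (g.z a) = fl1 j (g.z b) := congrArg (fun x => x.2) h
  unfold ll Geo.lt Geo.z0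
  rw [h1, h2, h3]

variable {W Λ : Type} (Q : FP W) (ρ : W → Ω) (S : W → Λ) {j p : ℕ}

theorem sum_eq : ch Q (fun v => fl p (g.pt (ρ v))) (fun v => (S v, g.zt (ρ v))) +
      ch Q (fun v => fl (p - j) (g.e (ρ v))) (fun v => (S v, g.fp (fun _ => p) (ρ v))) =
    ch Q (fun v => (fl p (g.pt (ρ v)), fl (p - j) (g.e (ρ v)))) fun v => (S v, g.zt (ρ v)) := by
  rw [ch_chain]
  congr 1
  refine ch_congr (Fn.fst _ _) (Fn.fst _ _) (fun a _ b _ e => ?_) fun a _ b _ e => ?_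
  · obtain ⟨e1, e2⟩ := Prod.mk.inj e
    obtain ⟨e2, e3⟩ := Prod.mk.inj e2
    exact Prod.ext e2 (Prod.ext e1 e3)
  · obtain ⟨e1, e2⟩ := Prod.mk.inj e
    obtain ⟨e2, e3⟩ := Prod.mk.inj e2
    exact Prod.ext e2 (Prod.ext e1 e3)

theorem up (hjp : j ≤ p) :
    ch Q (fun v => (fl p (g.pt (ρ v)), fl (p - j) (g.e (ρ v)))) (fun v => (S v, g.zt (ρ v))) ≤
      ch Q (fun v => ll g j p (ρ v)) (fun v => (S v, g.zt (ρ v))) + 15 := by
  refine (ch_tri _ (fun v => ll g j p (ρ v)) _).trans (add_le_add le_rfl ?_)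
  refine (ch_mono (F' := fun v => fl p (g.pt (ρ v))) ((Fn.fst _ _).pair fun a _ b _ e =>
    congrArg (fun x => x.2.1.2) e)).trans ?_
  refine (ch_fl_near (n := 2) (by norm_num) fun a _ b _ e => ?_).trans (by norm_num)
  have h1 : ll g j p (ρ a) = ll g j p (ρ b) := congrArg (fun x => x.1) e
  have h2 : g.z (ρ a) = g.z (ρ b) := congrArg (fun x => x.2.2.1) e
  have h3 : g.z (ρ b) - g.z0 j (ρ b) = g.z (ρ a) - g.z0 j (ρ a) := by unfold Geo.z0; rw [h2]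
  rw [pt_eq g j (ρ a), pt_eq g j (ρ b), h3]
  exact shift hjp (z0_near g j _) (congrArg Prod.fst h1) (congrArg Prod.snd h1)

theorem down (hjp : j ≤ p) :
    ch Q (fun v => ll g j p (ρ v)) (fun v => (S v, g.zt (ρ v))) ≤
      ch Q (fun v => (fl p (g.pt (ρ v)), fl (p - j) (g.e (ρ v)))) (fun v => (S v, g.zt (ρ v))) +
        15 := by
  refine (ch_tri _ (fun v => (fl p (g.pt (ρ v)), fl (p - j) (g.e (ρ v)))) _).trans
    (add_le_add le_rfl ?_)
  refine (ch_mono (F' := fun v => fl p (g.lt (g.z0 j (ρ v)) (ρ v))) ((Fn.fst _ _).pair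
    fun a _ b _ e => congrArg (fun x => x.2.1.2) e)).trans ?_
  refine (ch_fl_near (n := 2) (by norm_num) fun a _ b _ e => ?_).trans (by norm_num)
  have h0 : fl p (g.pt (ρ a)) = fl p (g.pt (ρ b)) := congrArg (fun x => x.1.1) e
  have h1 : fl (p - j) (g.e (ρ a)) = fl (p - j) (g.e (ρ b)) := congrArg (fun x => x.1.2) e
  have h2 : g.z (ρ a) = g.z (ρ b) := congrArg (fun x => x.2.2.1) e
  have h3 : g.z (ρ b) - g.z0 j (ρ b) = g.z (ρ a) - g.z0 j (ρ a) := by unfold Geo.z0; rw [h2]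
  rw [lt_eq g j (ρ a), lt_eq g j (ρ b), h3]
  exact shift hjp (by rw [abs_neg]; exact z0_near g j _) h0 h1

end EShA

open EShA in
theorem rowESh : ESh := by
  refine ⟨30, fun Q g ρ₁ ρ₂ S j p hjp hw hS => ?_⟩
  rw [sum_eq, sum_eq]
  have h1 := EShA.up g Q ρ₂ S hjp
  have h2 := EShA.down g Q ρ₁ S hjp
  have h3 : ch Q (fun v => ll g j p (ρ₂ v)) (fun v => (S v, g.zt (ρ₂ v))) ≤
      ch Q (fun v => ll g j p (ρ₁ v)) S :=
    ch_le (fun a ha b hb e => by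
      have e1 : ll g j p (ρ₁ a) = ll g j p (ρ₁ b) := congrArg Prod.fst e
      show ll g j p (ρ₂ a) = ll g j p (ρ₂ b)
      rw [← ll_win g (hw a ha), ← ll_win g (hw b hb), e1]) (Fn.fst _ _)
  have h4 := ch_symm (P := Q) (fun v => ll g j p (ρ₁ v)) (fun v => g.z (ρ₁ v)) S
  have h5 : ch Q (fun v => ll g j p (ρ₁ v)) (fun v => (g.z (ρ₁ v), S v)) ≤
      ch Q (fun v => ll g j p (ρ₁ v)) (fun v => (S v, g.zt (ρ₁ v))) :=
    ch_anti fun a ha b hb e => by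
      have e1 : g.z (ρ₁ a) = g.z (ρ₁ b) := congrArg Prod.fst e
      have e2 : S a = S b := congrArg Prod.snd e
      have e3 : g.θ (ρ₁ a) = g.θ (ρ₁ b) := congrArg Prod.snd (hS a ha b hb e2)
      exact Prod.ext e2 (Prod.ext e1 e3)
  have h6 : ch Q (fun v => g.z (ρ₁ v)) S ≤
      ch Q (fun v => g.z (ρ₁ v)) fun v => (g.cz j (ρ₁ v), g.θ (ρ₁ v)) := ch_anti hS
  have h7 : ch Q (fun v => g.z (ρ₁ v))
      (fun v => ((g.ln (ρ₁ v), S v), g.cz j (ρ₁ v), g.θ (ρ₁ v))) ≤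
      ch Q (fun v => g.z (ρ₁ v)) fun v => (ll g j p (ρ₁ v), S v) :=
    ch_anti fun a _ b _ e => by
      have e1 : g.ln (ρ₁ a) = g.ln (ρ₁ b) := congrArg (fun x => x.1.1) e
      have e2 : S a = S b := congrArg (fun x => x.1.2) e
      have e3 : g.cz j (ρ₁ a) = g.cz j (ρ₁ b) := congrArg (fun x => x.2.1) e
      exact Prod.ext (ll_win g (Prod.ext e1 e3)) e2
  unfold mi
  linarith

end Pool.Agent.MP_5168f5_an.R4
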