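import Pool.Agent.MP_5168f5_an.R4.SpecE3

/-! A quadric with a large Hessian gives a hyperplane. -/

namespace Pool.Agent.MP_5168f5_an.R4

open H19 H17S H17F Matrix Filter

namespace EShpA

theorem dot (A : Qd) (U Y : V 5) (H : ℝ) :
    (fun l => pf A (bv l) U / H) ⬝ᵥ Y = pf A Y U / H := by
  simp only [pf, bv, dotProduct, mulVec, Pi.single_apply, Fin.sum_univ_five]
  simp
  ring

end EShpA

theorem rowEShp : EShp := by
  choose q hq using fun A : Qd =>
    Finite.exists_max fun x : Fin 4 × Fin 4 => |pf A (bv x.1.succ) (bv x.2.succ)|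
  refine ⟨fun A => vecMulVec (bv 0) fun l => pf A (bv l) (bv (q A).2.succ) /
    |pf A (bv (q A).1.succ) (bv (q A).2.succ)|, ?_⟩
  rintro W g A v L j p τ hL ⟨i, k, h⟩ w
  have h1 := h.trans (hq A (i, k))
  have h0 : 0 < |pf A (bv (q A).1.succ) (bv (q A).2.succ)| := lt_of_lt_of_le (by positivity) h1
  have b0 : ∀ l : Fin 4, bv l.succ 0 = 0 := fun l => by simp [bv]
  have e0 : ∀ t y, hom t y 0 = 1 := fun _ _ => rfl
  refine ⟨fun t ht => ⟨?_, fun l => ?_⟩, fun a b => ?_, (q A).1, ?_⟩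
  · rw [qf_hyp, e0, one_mul, EShpA.dot, abs_div, abs_abs]
    exact div_le_div₀ (by linarith) ((w t ht).2 _) (by positivity) h1
  · rw [pf_hyp, e0, b0, one_mul, zero_mul, add_zero, EShpA.dot, abs_div, abs_abs]
    exact ((div_le_one h0).2 (hq A (l, (q A).2))).trans hL
  · rw [pf_hyp, b0, b0]
    simp
  · rw [pf_hyp, Geo.hp, e0, b0, one_mul, zero_mul, add_zero, EShpA.dot, abs_div, abs_abs,
      div_self h0.ne']

end Pool.Agent.MP_5168f5_an.R4
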