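import Pool.Agent.MP_5168f5_an.R4.SpecE2

/-! Both conics are tame with high probability. -/

namespace Pool.Agent.MP_5168f5_an.R4

open H19 H17S H17F Matrix Filter

namespace ETameWA

theorem sub_fin {J : Type} [Fintype J] {M : ℕ → ℕ} {L : J → ℕ → ℝ} (h : ∀ j, Sub M (L j)) :
    ∃ L', Sub M L' ∧ ∀ j n, L j n ≤ L' n :=
  ⟨_, Sub.exp (Sm.sum Finset.univ fun j _ => (h j).log) fun n =>
    Finset.sum_nonneg fun j _ => Real.log_nonneg ((h j).1 n), fun j n =>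
    (Real.log_le_iff_le_exp ((h j).pos n)).1 (Finset.single_le_sum
      (f := fun j => Real.log (L j n)) (fun j _ => Real.log_nonneg ((h j).1 n))
      (Finset.mem_univ j))⟩

theorem le_int {Ω β : ℕ → Type} {P : ∀ n, FP (Ω n)} {G : ∀ n, Ω n → β n} {z : ∀ n, Ω n → ℤ}
    {M k : ℕ → ℕ} {L : ℕ → ℝ} (hM : Big M) (hL : Sub M L)
    (h : ∀ᶠ n in UF, ∀ a ∈ (P n).S, |(z n a : ℝ)| ≤ L n * 2 ^ k n) :
    Le M (fun n => ch (P n) (z n) (G n)) fun n => k n * lg := by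
  refine (le_fl1 (P := P) (G := G) (x := fun n ω => z n ω / 2 ^ k n) (j := fun _ => 0) (k := k) hM
    (hL.const_mul hM one_le_two) (fun _ => Nat.zero_le _) (h.mono fun n e a ha b hb _ => ?_)).congr
    (Eventually.of_forall fun n => ?_) (Eventually.of_forall fun n => by simp)
  · rw [← sub_div, abs_div, abs_of_pos (show (0 : ℝ) < 2 ^ k n by positivity), pow_zero, div_one,
      div_le_iff₀ (by positivity)]
    linarith [abs_sub (z n a : ℝ) (z n b), e a ha, e b hb]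
  · congr 1
    funext ω
    rw [fl1, mul_div_cancel₀ _ (by positivity), Int.floor_intCast]

theorem Tame.mono {A : Qd} {Y v : V 5} {L L' : ℝ} (h : Tame A Y v L) (e : L ≤ L') :
    Tame A Y v L' :=
  ⟨h.1.trans e, h.2.trans (pow_le_pow_left₀ ((abs_nonneg _).trans h.1) e 2)⟩

/-- The coordinates across the direction `i`. -/
def xi (x : Lm) (i : Fin 4 × Fin 4) (ω : x.Ω) : ℤ × ℤ :=
  (x.n ω 1 - (i.1 : ℕ) * x.n ω 0, x.n ω 2 - (i.2 : ℕ) * x.n ω 0)

theorem Y_eq (x : Lm) (i : Fin 4 × Fin 4) (k : ℕ) {a b : x.Ω} (h : xi x i b = xi x i a)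
    (e : (x.O b, x.w b) = (x.O a, x.w a)) :
    x.Y a + (((x.n b 0 : ℝ) - x.n a 0) / 2 ^ k) • dir (x.W k a) i + (x.f b - x.f a) • bv 4 =
      x.Y b := by
  simp only [xi, Prod.mk.injEq, sub_eq_iff_eq_add] at h e
  simp only [Lm.Y, Lm.W, dir, Fin.sum_univ_three, e.1, e.2, h.1, h.2]
  push_cast
  match_scalars <;> field_simp <;> ring

theorem bnd {a b L : ℝ} (c : Fin 4) (ha : |a| ≤ L) (hb : |b| ≤ L) :
    |a - (c : ℕ) * b| ≤ 4 * L := by
  have h1 : ((c : ℕ) : ℝ) ≤ 3 := by exact_mod_cast c.is_le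
  have h2 := abs_sub a ((c : ℕ) * b)
  rw [abs_mul, Nat.abs_cast] at h2
  nlinarith [abs_nonneg b, Nat.cast_nonneg (α := ℝ) c]

theorem one (hT : ETame) (hS : ESpr) (x : ℕ → Lm) {R k p : ℕ → ℕ} {L : ℕ → ℝ} {Λ : ℕ → Type}
    (S : ∀ n, (x n).Ω → Λ n) (A : ∀ n, (x n).Ω → Qd) (hR : Big R) (hk : ∀ n, R n ≤ k n)
    (hL : Sub R L) (h : ∀ᶠ n in UF, (x n).Alg (L n) (k n) (p n) (R n) ∧
      Fn (x n).P (fun ω => (A n ω, (x n).θ ω)) (S n) ∧ ∀ ω ∈ (x n).P.S,
        QOK (A n ω) ((x n).Y ω) ((x n).w ω) (L n) (2 ^ p n)⁻¹ (L n * 2 ^ p n / 2 ^ R n))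
    (hf : Le R (fun n => 3 * k n * lg) fun n => ch (x n).P (x n).n (S n)) (i : Fin 4 × Fin 4) :
    ∃ L', Sub R L' ∧ Whp (fun n => (x n).P) fun n ω =>
      Tame (A n ω) ((x n).Y ω) (dir ((x n).W (k n) ω) i) (L' n) := by
  have h4 := hL.const_mul hR (C := 4) (by norm_num)
  have h2 := hL.const_mul hR one_le_two
  obtain ⟨L1, hL1, hW⟩ := hS (fun n => (x n).P) (fun n ω => (x n).n ω 0)
    (fun n ω => (xi (x n) i ω, S n ω)) R k _ hR h2
    (h.mono fun n e => ⟨hk n, fun a ha b hb _ => by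
      linarith [abs_sub ((x n).n a 0 : ℝ) ((x n).n b 0), e.1.bd a ha 0, e.1.bd b hb 0]⟩)
    (Le.of3 hf (le_int (P := fun n => (x n).P) (G := S) (k := k)
      (z := fun n ω => (xi (x n) i ω).1) hR h4 (h.mono fun n e a ha => by
        simpa [xi, mul_assoc] using bnd i.1 (e.1.bd a ha 1) (e.1.bd a ha 0)))
      (le_int (P := fun n => (x n).P) (G := S) (k := k)
      (z := fun n ω => (xi (x n) i ω).2) hR h4 (h.mono fun n e a ha => by
        simpa [xi, mul_assoc] using bnd i.2 (e.1.bd a ha 2) (e.1.bd a ha 0)))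
      (Eventually.of_forall fun n => by
        have a1 := ch_tri (P := (x n).P) (x n).n (xi (x n) i) (S n)
        have a2 : ch (x n).P (xi (x n) i) (S n) ≤ _ :=
          ch_subadd (fun ω => (xi (x n) i ω).1) (fun ω => (xi (x n) i ω).2) (S n)
        have a3 : ch (x n).P (x n).n (fun ω => (xi (x n) i ω, S n ω)) ≤
            ch (x n).P (fun ω => (x n).n ω 0) fun ω => (xi (x n) i ω, S n ω) :=
          ch_mono fun a _ b _ e => by
            simp only [xi, Prod.mk.injEq] at e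
            obtain ⟨e0, ⟨e1, e2⟩, -⟩ := e
            rw [e0, sub_left_inj] at e1 e2
            funext j
            fin_cases j
            exacts [e0, e1, e2]
        linarith))
  refine ⟨_, ((h2.mul hL1).pow 6).const_mul hR (C := 100) (by norm_num), hW.mono ?_⟩
  filter_upwards [h, (hL.mul hL).2 _ one_half_pos] with n ⟨e, e1, e2⟩ e3 a ha
    ⟨b, hb, c, hc, b1, c1, b2, c2, d2⟩
  have l0 := hL.1 n
  have l1 := hL1.1 n
  have p0 : (0 : ℝ) < 2 ^ k n := by positivity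
  have l2 : 2 * L n ≤ 2 * L n * L1 n := le_mul_of_one_le_right (by linarith) l1
  have l3 : L1 n ≤ 2 * L n * L1 n := le_mul_of_one_le_left (by linarith) (by linarith)
  have k1 : ∀ b ∈ (x n).P.S, (xi (x n) i b, S n b) = (xi (x n) i a, S n a) →
      QOK (A n a) ((x n).Y a + ((((x n).n b 0 : ℝ) - (x n).n a 0) / 2 ^ k n) •
        dir ((x n).W (k n) a) i + ((x n).f b - (x n).f a) • bv 4) ((x n).w b) (L n) (2 ^ p n)⁻¹
        (L n * 2 ^ p n / 2 ^ R n) ∧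
      |(((x n).n b 0 : ℝ) - (x n).n a 0) / 2 ^ k n| ≤ 2 * L n * L1 n := fun b hb g => by
    have g1 := Prod.mk.inj (e1 b hb a ha (Prod.mk.inj g).2)
    rw [Y_eq (x n) i (k n) (Prod.mk.inj g).1 (e.fO b hb a ha g1.2), ← g1.1, abs_div, abs_of_pos p0]
    refine ⟨e2 b hb, le_trans ((div_le_iff₀ p0).2 ?_) l2⟩
    linarith [abs_sub ((x n).n b 0 : ℝ) ((x n).n a 0), e.bd a ha 0, e.bd b hb 0]
  have k2 : ∀ t : ℝ, 2 ^ k n ≤ L1 n * |t| → 1 ≤ 2 * L n * L1 n * |t / 2 ^ k n| := fun t g => by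
    rw [abs_div, abs_of_pos p0, ← mul_div_assoc, one_le_div p0]
    exact g.trans (mul_le_mul_of_nonneg_right l3 (abs_nonneg t))
  obtain ⟨q1, r1⟩ := k1 b hb b1
  obtain ⟨q2, r2⟩ := k1 c hc c1
  have q0 := e2 a ha
  have k3 : ∀ t : ℝ, 1 ≤ t ∧ t ≤ L n → |t| ≤ 2 * L n * L1 n := fun t g =>
    abs_le.2 ⟨by linarith, by linarith⟩
  refine hT _ _ _ _ _ _ _ _ _ (by linarith) q0.d.1 (by linarith [q0.d.2]) q0.val ?_ q1.val
    (k3 _ q1.d) q2.val (k3 _ q2.d) r1 r2 (k2 _ b2) (k2 _ c2) ?_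
  · refine (mul_le_mul_of_nonneg_right q0.top (by positivity)).trans ?_
    rw [show L n * 2 ^ p n / 2 ^ R n * (L n * (2 ^ p n)⁻¹) = L n * L n / 2 ^ R n by field_simp,
      div_le_one (by positivity)]
    exact e3.trans (by simpa [div_eq_inv_mul] using exp_le_two_pow (R n))
  · rw [← sub_div, sub_sub_sub_cancel_right]
    exact k2 _ d2

end ETameWA

open ETameWA in
theorem rowETameW : OfETameW := by
  intro _ hT hS x R k p ε₀ h
  obtain ⟨L, hL, e⟩ := h.alg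
  choose L1 a1 b1 using one hT hS x (fun n => (x n).S₁) (fun n => (x n).A₁) h.big
    (fun n => (h.le n).1) hL (e.mono fun n a => ⟨a, a.f₁, a.q₁⟩) h.ful₁
  choose L2 a2 b2 using one hT hS x (fun n => (x n).S₂) (fun n => (x n).A₂) h.big
    (fun n => (h.le n).1) hL (e.mono fun n a => ⟨a, a.f₂, a.q₂⟩) h.ful₂
  obtain ⟨L', a, b⟩ := sub_fin fun i => (a1 i).add (a2 i) h.big
  refine ⟨L', a, Whp.all fun i => ((b1 i).and (b2 i)).mono
    (Eventually.of_forall fun n ω _ c => ⟨Tame.mono c.1 ?_, Tame.mono c.2 ?_⟩)⟩ <;>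
  linarith [b i n, (a1 i).1 n, (a2 i).1 n]

end Pool.Agent.MP_5168f5_an.R4
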