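import Pool.Agent.MP_5168f5_an.R4.BNGm
import Pool.Agent.MP_5168f5_an.R4.BSwap
import Pool.Agent.MP_5168f5_an.R4.P0Tool

/-! Kakeya sets in four dimensions, equal weights: the rate of the pair and optimality for
covectors. -/

namespace Pool.Agent.MP_5168f5_an.R4.B1

open H19 H17S H17F Filter K31 Tan Matrix

variable {Ω : ℕ → Type} {K : Mb Ω → Prop} {g : Gs 3 Ω} {M mm : ℕ → ℕ} {D : ∀ n, Td (Ω n)}
  {η γ d ε₀ : ℝ} {T : Finset (Fin 3)} {X : Mb Ω}

/-- The first coordinate is full given any label. -/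
theorem tn_xa (h : Tn K g M mm D η γ T) (hX : K X) {Λ : ℕ → Type} {lam : ∀ n, (X n).W → Λ n}
    {j a b : ℕ → ℕ} (hl : Lab X.P (X.G g) mm j lam) (hb : OM M b)
    (e : ∀ᶠ n in UF, j n ≤ a n ∧ a n ≤ b n) :
    Le M (fun n => (b n - a n : ℝ) * lg) fun n =>
      ch (X n).Q (fun v => fl1 (b n) ((X.G g n).pt v 0)) fun v =>
        (fl1 (a n) ((X.G g n).pt v 0), lam n v, (X.G g n).zt v) := by
  obtain ⟨C, C0, c1, c2, c3⟩ := om_big hb
  have up : ∀ {f}, Sm mm f → Sm (fun n => C * M n) f := fun k => le_unit c2 (le_up h.sm k)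
  obtain ⟨L, hL, f⟩ := (h.com X hX).fat 0 b hb
  have e1 : ∀ᶠ n in UF, min (b n) (C * M n) = b n := c1.mono fun n u => min_eq_left u
  have e2 : ∀ᶠ n in UF, min (a n) (min (b n) (C * M n)) = a n := (e.and e1).mono fun n u => by
    rw [u.2]; exact min_eq_left u.1.2
  have k := xa K g (fun n => C * M n) (fun n => min (j n) (min (a n) (min (b n) (C * M n))))
    (fun n => min (a n) (min (b n) (C * M n))) (fun n => min (b n) (C * M n)) 0 η X lam
    (h.cls C C0) hX ⟨kb.up _ _ _ _ _ _ ((e.and e2).mono fun n u => by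
      rw [u.2]; exact le_min le_rfl u.1.1) (up hl.h), up hl.l⟩
    ⟨L, sub_unit c2 (sub_up h.sm hL), (f.and e1).mono fun n u => by
      beta_reduce; rw [u.2]; exact u.1⟩
    fun n => ⟨min_le_right _ _, min_le_right _ _, min_le_right _ _⟩
  refine (le_unit c3 k).congr ?_ ?_ <;> filter_upwards [e1, e2] with n u v
  · rw [v, u]
  · rw [v, u]

/-- The label of level `a` determines the point at depth `a`. -/
theorem tn_ball (h : Tn K g M mm D η γ T) (hX : K X) {a : ℕ → ℕ} (ha : OM M a) (i : Fin 3) :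
    ND X.P M (fun n v => fl1 (a n) ((X.G g n).pt v i)) fun n => (mD X D n).S (a n) := by
  obtain ⟨L, hL, w⟩ := (h.com X hX).ball a ha
  obtain ⟨L₀, hL₀, bx⟩ := h.bx hX
  refine ND.near (c := fun n v => (mD X D n).o (a n) v i) h.big
    ((hL₀.const_mul h.big one_le_two).add hL h.big) ha ?_
    (w.mono (Eventually.of_forall fun n v _ u => (u i).trans
      (div_le_div_of_nonneg_right (by linarith [hL₀.pos n]) (by positivity))))
  filter_upwards [bx, (h.com X hX).nest] with n u k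
  exact ⟨fun x hx y hy s => congrArg (·.2.2.1 i) ((k.2 (a n)).2 x hx y hy s),
    fun v hv => (abs_pt u hv i).trans (by linarith [hL.pos n])⟩

theorem t21_ng (h : T2 K g M mm D η d d ε₀) (hX : K X) (q q' r : ℕ → ℕ) (hr : OM M r)
    (e : ∀ᶠ n in UF, q n ≤ q' n ∧ q' n ≤ r n) :
    Le M (fun n => ch (X n).Q (fun ω => (fl1 (q' n) ((X.G g n).pt ω 1),
        fl1 (q' n) ((X.G g n).pt ω 2))) fun ω => (fl1 (q n) ((X.G g n).pt ω 1),
        fl1 (q n) ((X.G g n).pt ω 2), fl1 (r n) ((X.G g n).pt ω 0), (X.G g n).zt ω))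
      fun n => (2 - ε₀) * (q' n - q n) * lg := by
  have oq : OM M q' := hr.mono (e.mono fun _ u => u.2)
  have o2 : OM M fun n => r n + ⌈d⌉₊ * q' n := hr.add (oq.mul _)
  have k1 := rowNGm rowSwap K g M mm D η d d ε₀ X q q' q' _ h hX o2 (e.mono fun n u =>
    ⟨u.1, u.2.trans (Nat.le_add_right _ _), by
      have := mul_le_mul_of_nonneg_right (Nat.le_ceil d) (Nat.cast_nonneg (α := ℝ) (q' n))
      push_cast; linarith [Nat.cast_nonneg (α := ℝ) (r n)]⟩) Le.rfl (Or.inl le_rfl)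
  have k2 := tn_xa h.toTn hX ((h.com X hX).lab q' oq) o2
    (e.mono fun n u => ⟨u.2, Nat.le_add_right _ _⟩)
  have k3 := ND.le (P := X.P) (M := M)
    (F := fun n v => fl1 (r n + ⌈d⌉₊ * q' n) ((X.G g n).pt v 0))
    (F' := fun n v => fl1 (r n + ⌈d⌉₊ * q' n) ((X.G g n).pt v 0))
    (G := fun n v => (fl1 (r n) ((X.G g n).pt v 0), (mD X D n).S (q' n) v, (X.G g n).zt v))
    (G' := fun n v => (fl1 (r n) ((X.G g n).pt v 0), fl1 (q' n) ((X.G g n).pt v 2),
      fl1 (q' n) ((X.G g n).pt v 1), (X.G g n).zt v))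
    (ND.of_fn (Eventually.of_forall fun n => Fn.fst _ _))
    ((ND.of_fn (Eventually.of_forall fun n => Fn.fst _ _)).pair
      (((tn_ball h.toTn hX oq 2).anti (Eventually.of_forall fun n => (Fn.fst _ _).right _)).pair
      (((tn_ball h.toTn hX oq 1).anti (Eventually.of_forall fun n => (Fn.fst _ _).right _)).pair
      (ND.of_fn (Eventually.of_forall fun n => (Fn.snd _ _).right _)))))
  refine k1.of3 k2 k3 (e.mono fun n u => ?_)
  have s := rowSwap (X n).Q (fun v => (X.G g n).pt v 0) (fun v => fl1 (q n) ((X.G g n).pt v 2))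
    (fun v => fl1 (q' n) ((X.G g n).pt v 2))
    (fun v => (fl1 (q' n) ((X.G g n).pt v 1), (X.G g n).zt v)) (r n) (r n + ⌈d⌉₊ * q' n)
    (Nat.le_add_right _ _) fun x _ y _ s => fl1_eq_of_le u.1 s
  have s1 : ch (X n).Q (fun v => fl1 (q' n) ((X.G g n).pt v 2)) (fun v =>
      (fl1 (q n) ((X.G g n).pt v 2), fl1 (r n + ⌈d⌉₊ * q' n) ((X.G g n).pt v 0),
        fl1 (q' n) ((X.G g n).pt v 1), (X.G g n).zt v)) ≤
      ch (X n).Q (fun v => fl1 (q' n) ((X.G g n).pt v 2)) fun v =>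
      (fl1 (q n) ((X.G g n).pt v 2), fl1 (q' n) ((X.G g n).pt v 1),
        xz (X.G g n) (r n + ⌈d⌉₊ * q' n) v) := ch_anti fun x _ y _ s => by
    simp only [xz, Prod.mk.injEq] at s ⊢; tauto
  have s2 : ch (X n).Q (fun v => fl1 (q' n) ((X.G g n).pt v 2)) (fun v =>
      (fl1 (q' n) ((X.G g n).pt v 1), fl1 (q n) ((X.G g n).pt v 1),
        fl1 (q n) ((X.G g n).pt v 2), fl1 (r n) ((X.G g n).pt v 0), (X.G g n).zt v)) ≤
      ch (X n).Q (fun v => fl1 (q' n) ((X.G g n).pt v 2)) fun v =>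
      (fl1 (q n) ((X.G g n).pt v 2), fl1 (r n) ((X.G g n).pt v 0),
        fl1 (q' n) ((X.G g n).pt v 1), (X.G g n).zt v) := ch_anti fun x _ y _ s => by
    simp only [Prod.mk.injEq] at s ⊢; tauto
  have s3 := rowSwap (X n).Q (fun v => (X.G g n).pt v 1) (fun _ => ()) (fun _ => ())
    (fun v => (fl1 (q n) ((X.G g n).pt v 2), fl1 (r n) ((X.G g n).pt v 0), (X.G g n).zt v))
    (q n) (q' n) u.1 (Fn.rfl _)
  rw [ch_zero (F := fun _ => ()) fun _ _ _ _ _ => rfl,
    ch_zero (F := fun _ => ()) fun _ _ _ _ _ => rfl] at s3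
  have s4 : ch (X n).Q (fun v => fl1 (q' n) ((X.G g n).pt v 1)) (fun v =>
      (fl1 (q n) ((X.G g n).pt v 1), fl1 (q n) ((X.G g n).pt v 2),
        fl1 (r n) ((X.G g n).pt v 0), (X.G g n).zt v)) ≤
      ch (X n).Q (fun v => fl1 (q' n) ((X.G g n).pt v 1)) fun v =>
      (fl1 (q n) ((X.G g n).pt v 1), (), fl1 (q n) ((X.G g n).pt v 2),
        fl1 (r n) ((X.G g n).pt v 0), (X.G g n).zt v) := ch_anti fun x _ y _ s => by
    simp only [Prod.mk.injEq] at s ⊢; tauto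
  rw [ch_chain]
  linarith

/-- The linear form as a quadric. -/
noncomputable def qm (c : V 4) : Qd := fun i k =>
  if i = 0 then ![0, -(c 0 / c 3), -(c 1 / c 3), -(c 2 / c 3), 0] k else 0

theorem qf_qm (c : V 4) (t : ℝ) (y : V 3) :
    qf (qm c) (hom t y) = -(c 0 / c 3) * t - c 1 / c 3 * y 0 - c 2 / c 3 * y 1 := by
  simp [qf, qm, hom, dotProduct, mulVec, Fin.sum_univ_five]; ring

theorem abs_div_le {a b A L : ℝ} (h : |a| ≤ A) (hb : 1 ≤ L * |b|) : |a / b| ≤ L * A := by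
  have b0 : 0 < |b| := by
    rcases (abs_nonneg b).eq_or_lt with e | e
    · rw [← e] at hb; linarith
    · exact e
  rw [abs_div, div_le_iff₀ b0]
  nlinarith [abs_nonneg a]

theorem t21_opt (h : T2 K g M mm D η d d ε₀) (hX : K X) :
    NoGain X.P (X.G g) M mm d (fun _ L B _ (c : V 4) _ => |c 0| ≤ B ∧ |c 1| ≤ B ∧ |c 2| ≤ L ∧
      |c 3| ≤ L ∧ (1 ≤ L * |c 2| ∨ 1 ≤ L * |c 3|)) fun n c ω t =>
      c 0 * t + c 1 * (X.G g n).lt t ω 0 + c 2 * (X.G g n).lt t ω 1 +
        c 3 * (X.G g n).lt t ω 2 := by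
  intro Λ lam c L j τ k oj oτ ok hl hL fc w
  have hM := h.toTn.big
  have pw : ∀ {L'}, Sub M L' → ∀ᶠ n in UF, L' n ≤ 2 ^ M n := fun a =>
    Sub.le_pow a one_pos (Eventually.of_forall fun n => (one_mul _).le)
  by_cases A : ∃ L', Sub M L' ∧ Whp X.P fun n ω => 1 ≤ L' n * |c n ω 3|
  · obtain ⟨L', hL', w'⟩ := A
    refine (h.fl X hX).optF Λ lam (fun n ω => qm (c n ω)) _ j τ (fun n => M n + k n) oj oτ
      (OM.rfl.add ok) hl (hL'.mul hL) (fc.mono fun n a => (Fn.comp qm _).trans a)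
      ((w.and w').mono ((pw (hL'.mul hL)).mono fun n a ω _ ⟨⟨⟨b0, b1, b2, _⟩, cs⟩, b⟩ =>
        ⟨fun i l => ⟨?_, ?_⟩, fun t ht => ?_⟩))
    · have p1 : (1 : ℝ) ≤ 2 ^ k n := one_le_pow₀ one_le_two
      have l1 : L' n ≤ 2 ^ M n := (le_mul_of_one_le_right (hL'.pos n).le (hL.1 n)).trans a
      have e1 : L' n * 2 ^ k n ≤ 2 ^ (M n + k n) := by
        rw [pow_add]; exact mul_le_mul_of_nonneg_right l1 (by positivity)
      have e2 : L' n * L n ≤ 2 ^ (M n + k n) := by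
        rw [pow_add]; exact a.trans (le_mul_of_one_le_right (by positivity) p1)
      have u0 := (abs_div_le b0 b).trans e1
      have u1 := (abs_div_le b1 b).trans e1
      have u2 := (abs_div_le b2 b).trans e2
      unfold qm
      split_ifs
      · fin_cases l <;> simp <;> assumption
      · rw [abs_zero]; positivity
    · rintro (rfl | rfl) <;> simp [qm]
    · have c0 : c n ω 3 ≠ 0 := fun z => by rw [z, abs_zero, mul_zero] at b; linarith
      have := abs_div_le (cs t ht) b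
      rw [← mul_div_assoc] at this
      refine le_trans (le_of_eq (congrArg _ ?_)) this
      simp only [ql, qf_qm]; field_simp; ring
  obtain ⟨ε, ε0, ε1, nw⟩ : ∃ ε : ℝ, 0 < ε ∧ ε ≤ 1 ∧
      ¬Whp X.P fun n ω => 1 ≤ Real.exp (ε * M n) * |c n ω 3| := by
    by_contra k
    push Not at k
    exact A (ks.wsub _ (fun n ω L => 1 ≤ L * |c n ω 3|) M k)
  obtain ⟨L₁, hL₁, w₁⟩ := (h.fl X hX).cellP le_rfl j (fun n => ⌊d * j n⌋₊) oj
    (Eventually.of_forall fun n => Nat.floor_le (by have := h.dge; positivity))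
  have hE := ((not_whp nw).and w).and w₁
  have hY := h.cl.cond X _ hX hE
  have hZ := h.cl.toCl0.fst hY fun n => ((X.cond _).G g n).core
  have lab := Lab.join (hl.dn h.toTn.bigm (dnS_cE hE)) ((h.com _ hY).lab j oj)
    (Eventually.of_forall fun n => le_rfl)
  have key := (h.com _ hZ).optU _ _ (fun n v =>
      (-((c n v.2 0 + c n v.2 3 * ((mD X D n).H (j n) v.1).2.1) / c n v.2 2),
        -((c n v.2 1 + c n v.2 3 * ((mD X D n).H (j n) v.1).2.2 0) / c n v.2 2)))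
    (fun n => L n * (L n + 2 * L₁ n)) j (fun n => min (τ n) (⌊d * j n⌋₊ + ⌊ε * M n⌋₊))
    (fun n => M n + k n) oj (oτ.mono (Eventually.of_forall fun n => min_le_left _ _))
    (OM.rfl.add ok) lab (hL.mul (hL.add (hL₁.const_mul hM one_le_two) hM)) ?_ (Whp.of_ev ?_)
  · intro δ hδ
    filter_upwards [key (min δ (ε / 2)) (lt_min hδ (half_pos ε0)), hM.sm 2 _ (half_pos ε0)]
      with n a b
    have m0 := Nat.cast_nonneg (α := ℝ) (M n)
    rcases min_choice (τ n) (⌊d * j n⌋₊ + ⌊ε * M n⌋₊) with e | e <;> rw [e] at a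
    · exact a.trans (add_le_add le_rfl (mul_le_mul_of_nonneg_right (min_le_left _ _) m0))
    · have := mul_le_mul_of_nonneg_right (min_le_right δ (ε / 2)) m0
      push_cast at a
      linarith [Nat.lt_floor_add_one (d * j n), Nat.lt_floor_add_one (ε * M n)]
  · filter_upwards [fc, (h.com X hX).nest] with n a b x hx y hy s
    obtain ⟨x1, x2, -⟩ := (U.mem_copy _ _ x).1 hx
    obtain ⟨y1, y2, -⟩ := (U.mem_copy _ _ y).1 hy
    have e1 := a _ (cE_sub x2) _ (cE_sub y2) (congrArg Prod.snd s)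
    have e2 : (mD X D n).H (j n) x.1 = (mD X D n).H (j n) y.1 := congrArg (·.2.2.2.2)
      ((b.2 (j n)).2 _ (cE_sub x1) _ (cE_sub y1) (congrArg Prod.fst s))
    beta_reduce
    rw [e1, show (D n).H (j n) ((X n).ρ x.1) = (D n).H (j n) ((X n).ρ y.1) from e2]
  · filter_upwards [hE.sure, hL.2 ε ε0, pw (hL.mul ((hM.sub le_rfl).add hL₁ hM))]
      with n s a pL v hv
    obtain ⟨x1, x2, x3⟩ := (U.mem_copy _ _ v).1 hv
    obtain ⟨-, ⟨sm, ⟨b0, b1, -, -, b4⟩, cs⟩, -⟩ := s _ x2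
    obtain ⟨-, -, f1, f2, f3⟩ := s _ x1
    have sm := (not_le.1 sm).le
    have b5 : 1 ≤ L n * |c n v.2 2| := b4.resolve_right fun u => by
      linarith [mul_le_mul_of_nonneg_right a (abs_nonneg (c n v.2 3)), not_le.1 (s _ x2).2.1.1]
    have s1 : |c n v.2 3| ≤ 1 / 2 ^ ⌊ε * M n⌋₊ := by
      rw [le_div_iff₀ (by positivity), mul_comm]
      exact (mul_le_mul_of_nonneg_right (Frac.floor_le ε0.le n) (abs_nonneg _)).trans sm
    have s2 : |c n v.2 3| ≤ 1 := s1.trans (div_le_one_of_le₀ (one_le_pow₀ one_le_two) (by positivity))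
    have p1 : (1 : ℝ) ≤ 2 ^ k n := one_le_pow₀ one_le_two
    have bd : ∀ x y : ℝ, |x| ≤ 2 ^ k n → |y| ≤ L₁ n →
        |-((x + c n v.2 3 * y) / c n v.2 2)| ≤ 2 ^ (M n + k n) := fun x y u1 u2 => by
      have u3 : |x + c n v.2 3 * y| ≤ (1 + L₁ n) * 2 ^ k n := by
        have := abs_add_le x (c n v.2 3 * y)
        rw [abs_mul] at this
        nlinarith [mul_le_mul s2 u2 (abs_nonneg _) zero_le_one, hL₁.pos n]
      rw [abs_neg, pow_add]
      refine (abs_div_le u3 b5).trans ?_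
      rw [← mul_assoc]; exact mul_le_mul_of_nonneg_right pL (by positivity)
    refine ⟨⟨bd _ _ b0 f1, bd _ _ b1 (f2 0).1⟩, fun t ht => ?_⟩
    have ez : (g n).z ((X n).ρ v.2) = (g n).z ((X n).ρ v.1) := congrArg (·.2.1) x3
    have el : ∀ t, (X.G g n).lt t v.2 = (X.G g n).lt t v.1 := fun t => by
      have e1 : (X.G g n).a v.2 = (X.G g n).a v.1 := congrArg (·.1.1) x3
      have e2 : (X.G g n).e v.2 = (X.G g n).e v.1 := congrArg (·.1.2.1) x3
      unfold Geo.lt; rw [e1, e2]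
    have c1 := cs t (ht.trans (congrArg _ ez.symm))
    simp only [ez, el] at c1
    have g1 := f3 t ht
    have g2 := f3 _ rfl
    rw [sum0 fun i => (f2 i).2] at g1 g2
    have g3 := mul_le_mul s1 ((abs_sub _ _).trans (add_le_add g1 g2)) (abs_nonneg _)
      (by positivity)
    rw [← abs_mul] at g3
    have g4 := (abs_sub _ _).trans (add_le_add c1 g3)
    have g5 : L n / 2 ^ τ n + 1 / 2 ^ ⌊ε * M n⌋₊ * (L₁ n / 2 ^ ⌊d * j n⌋₊ + L₁ n / 2 ^ ⌊d * j n⌋₊) ≤
        (L n + 2 * L₁ n) / 2 ^ min (τ n) (⌊d * j n⌋₊ + ⌊ε * M n⌋₊) := by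
      rw [add_div]
      refine add_le_add (U.div_pow_le (hL.pos n).le (min_le_left _ _)) (le_trans (le_of_eq ?_)
        (U.div_pow_le (by linarith [hL₁.pos n]) (min_le_right _ _)))
      rw [pow_add]; field_simp; ring
    have := abs_div_le (g4.trans g5) b5
    rw [← mul_div_assoc] at this
    have c0 : c n v.2 2 ≠ 0 := fun z => by rw [z, abs_zero, mul_zero] at b5; linarith
    refine le_trans (le_of_eq (congrArg _ ?_)) this
    show (X.G g n).lt t v.1 1 - _ * t - _ * (X.G g n).lt t v.1 0 -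
      ((X.G g n).lt ((X.G g n).z v.1) v.1 1 - _ * (X.G g n).z v.1 -
        _ * (X.G g n).lt ((X.G g n).z v.1) v.1 0) = _
    field_simp; ring

end Pool.Agent.MP_5168f5_an.R4.B1
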