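import Pool.Agent.MP_5168f5_an.R4.SpecEn
import Pool.Agent.MP_5168f5_an.R4.T21a

/-! The deep digits of the position are full. -/

namespace Pool.Agent.MP_5168f5_an.R4.Eng

open H19 H17S H17F Filter Tan B1

namespace GOffAA

theorem ent {Ω Λ Θ Y Z : Type} {P : FP Ω} (a x : Ω → ℤ) {w t : Ω → ℤ} {S S' : Ω → Λ} {θ : Ω → Θ}
    {y : Ω → Y} {Γ : Ω → Z} (h1 : Fn P S S') (h2 : Fn P θ S) (h3 : Fn P t S') (h4 : Fn P w y)
    (h5 : Fn P (fun ω => (S ω, t ω)) Γ) :
    ch P x Γ ≤ ch P a (fun ω => (S ω, w ω, t ω)) + ch P x (fun ω => (a ω, w ω, t ω)) +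
      mi P y S' θ + ch P x S' := by
  have u1 : ch P x Γ ≤ ch P x fun ω => (S ω, t ω) := ch_anti h5
  have u2 : ch P x (fun ω => (S ω, t ω)) ≤ ch P x (fun ω => (S ω, w ω, t ω)) +
      mi P x w fun ω => (S ω, t ω) :=
    ch_le_mi fun _ _ _ _ e => by simp only [Prod.mk.injEq] at e ⊢; tauto
  have u3 := mi_near (P := P) w x S' fun ω => (S ω, t ω)
  have u4 : mi P w S' (fun ω => (S ω, t ω)) ≤ mi P y S' θ :=
    (mi_cond (h2.left _) ((h1.pair h3).left _)).trans (mi_mono' (h4.left _))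
  have u5 : ch P x (fun ω => (S' ω, S ω, t ω)) ≤ ch P x S' := ch_anti (Fn.fst _ _)
  have u6 := ch_tri (P := P) x a fun ω => (S ω, w ω, t ω)
  have u7 : ch P x (fun ω => (a ω, S ω, w ω, t ω)) ≤ ch P x fun ω => (a ω, w ω, t ω) :=
    ch_anti fun _ _ _ _ e => by simp only [Prod.mk.injEq] at e ⊢; tauto
  rw [mi_symm] at u2
  linarith

theorem near {a a' t t' w w' L ε : ℝ} (h0 : 0 ≤ t) (h1 : t < 1) (hw : |w'| ≤ L) (c : |a - a'| ≤ ε)
    (b : |w - w'| ≤ ε) (e : |t - t'| ≤ ε) : |a + t * w - (a' + t' * w')| ≤ (2 + L) * ε := by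
  rw [show a + t * w - (a' + t' * w') = a - a' + (t * (w - w') + w' * (t - t')) by ring]
  have u := mul_le_mul ((abs_of_nonneg h0).trans_le h1.le) b (abs_nonneg _) zero_le_one
  have v := mul_le_mul hw e (abs_nonneg _) ((abs_nonneg _).trans hw)
  rw [← abs_mul] at u v
  linarith [abs_add_le (a - a') (t * (w - w') + w' * (t - t')),
    abs_add_le (t * (w - w')) (w' * (t - t'))]

end GOffAA

open GOffAA in
theorem rowOffA : OffA := by
  intro Ω K g M mm D η γ T X r σ h hT hX hr hσ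
  have c := h.com X hX
  obtain ⟨L, hL, bx⟩ := h.bx hX
  have s : Sm M fun n => ch (X n).Q (fun v => fl1 (r n) ((X.G g n).pt v 0)) fun v =>
      (fl1 (r n) ((X.G g n).a v 0), fl1 (r n) ((X.G g n).e v 0), fl1 (r n) ((X.G g n).z v)) := by
    refine Sm.near1 h.big ((h.big.sub one_le_two).add hL h.big) (bx.mono fun n e u hu v hv z => ?_)
    simp only [Prod.mk.injEq] at z
    rw [div_eq_mul_inv]
    exact near (e.bd u hu).2.1 (e.bd u hu).2.2 ((e.bd v hv).1 0).2 (abs_sub_lt_of_fl1_eq z.1).le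
      (abs_sub_lt_of_fl1_eq z.2.1).le (abs_sub_lt_of_fl1_eq z.2.2).le
  refine (tn_xa h hX (c.lab σ (hr.mono (Eventually.of_forall hσ))) hr
    (Eventually.of_forall fun n => ⟨le_rfl, hσ n⟩)).of4 s (c.typ r hr) (tn_ball h hX hr 0) ?_
  filter_upwards [c.nest] with n ne
  have := ent (P := (X n).Q) (fun v => fl1 (r n) ((X.G g n).a v 0))
    (fun v => fl1 (r n) ((X.G g n).pt v 0)) (w := fun v => fl1 (r n) ((X.G g n).e v 0))
    (y := ty (X.G g n) T (r n)) (Γ := fun v => (fl1 (σ n) ((X.G g n).pt v 0),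
      (mD X D n).S (σ n) v, (X.G g n).zt v)) (nest_le (fun j => (ne.2 j).1) (hσ n))
    (fun u hu v hv z => congrArg (·.1) ((ne.2 (σ n)).2 u hu v hv z))
    (fun u hu v hv z => congrArg (·.2.1) ((ne.2 (r n)).2 u hu v hv z))
    (fun u _ v _ z => by simpa only [ty, if_pos hT] using congrFun z 0)
    fun _ _ _ _ z => congrArg (fun y => (y.2.1, fl1 (r n) y.2.2.1)) z
  linarith

end Pool.Agent.MP_5168f5_an.R4.Eng
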