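import Pool.Agent.MP_5168f5_an.R4.Defs
import Pool.Agent.MP_5168f5_an.R4.K31Dn

/-! block sums of the digit entropies of a slope: finite facts. -/

namespace Pool.Agent.MP_5168f5_an.R4.F0

open H19 H17S H17F Filter

variable {Ω Ω' α β γ : Type} {N : ℕ}

/-- Telescoping: revealing `Z` costs `ch Z` once along a filtration. -/
theorem tel (P : FP Ω) (A : ℕ → Ω → α) (B : ℕ → Ω → β) (Z : Ω → γ)
    (hB : ∀ k, Fn P (B k) (B (k + 1))) (hA : ∀ k, Fn P (A k) (B (k + 1))) {a b : ℕ} (h : a ≤ b) :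
    ∑ k ∈ Finset.Ico a b, ch P (A k) (B k) + ch P Z (B b) ≤
      ∑ k ∈ Finset.Ico a b, ch P (A k) (fun ω => (Z ω, B k ω)) + ch P Z (B a) := by
  induction h with
  | refl => simp
  | @step m hm ih =>
    rw [Finset.sum_Ico_succ_top hm, Finset.sum_Ico_succ_top hm]
    have h1 := ch_symm (P := P) (A m) Z (B m)
    have h2 : ch P Z (B (m + 1)) ≤ ch P Z fun ω => (A m ω, B m ω) := ch_anti ((hA m).pair (hB m))
    linarith

theorem ch_prop (P : FP Ω) (E : Ω → Prop) (G : Ω → β) : ch P E G ≤ lg := by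
  classical
  refine ch_det (B := 2) fun a _ => ⟨{True, False}, ?_, fun b _ _ => ?_⟩
  · exact_mod_cast Finset.card_le_two
  · by_cases h : E b <;> simp [h]

/-- The sum over the digits in `[a, b)`. -/
noncomputable def Gp (g : Geo N Ω) (P : FP Ω) (i : Fin N) (a b : ℕ) : ℝ :=
  ∑ k ∈ Finset.Ico a b, ch P (fun ω => fl1 (k + 1) (g.e ω i)) fun ω => (fl k (g.e ω), g.y ω)

variable (g : Geo N Ω) (P : FP Ω) (i : Fin N)

theorem G_eq (M : ℕ) : g.G P i M = Gp g P i 0 M := by rw [Gp, Geo.G, Finset.range_eq_Ico]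

theorem Gp_add {a b c : ℕ} (h : a ≤ b) (h' : b ≤ c) : Gp g P i a b + Gp g P i b c = Gp g P i a c :=
  Finset.sum_Ico_consecutive _ h h'

theorem Gp_nonneg (a b : ℕ) : 0 ≤ Gp g P i a b := Finset.sum_nonneg fun _ _ => ch_nonneg _ _

theorem ch_digits {x : Ω → ℝ} {G : Ω → β} {a b : ℕ} (h : a ≤ b)
    (k : Fn P (fun ω => fl1 a (x ω)) G) : ch P (fun ω => fl1 b (x ω)) G ≤ (b - a : ℝ) * lg := by
  obtain ⟨c, rfl⟩ := Nat.exists_eq_add_of_le h
  have := ch_fl1_refine (P := P) (x := x) (G := G) (j := fun _ => a) (i := fun _ => c)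
    (fun _ _ _ _ _ => rfl) (fun _ _ _ _ _ => rfl) k
  rw [FP.E_const] at this
  push_cast
  rwa [add_sub_cancel_left]

theorem Gp_le {a b : ℕ} (h : a ≤ b) : Gp g P i a b ≤ (b - a : ℝ) * lg := by
  have h1 := Finset.sum_le_card_nsmul (Finset.Ico a b) (fun k =>
    ch P (fun ω => fl1 (k + 1) (g.e ω i)) fun ω => (fl k (g.e ω), g.y ω)) lg fun k _ => by
      simpa using ch_digits P (x := fun ω => g.e ω i) (G := fun ω => (fl k (g.e ω), g.y ω))
        (Nat.le_succ k) fun _ _ _ _ e => congrFun (congrArg Prod.fst e) i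
  rwa [Nat.card_Ico, nsmul_eq_mul, Nat.cast_sub h] at h1

theorem nest (k : ℕ) : Fn P (fun ω => (fl k (g.e ω), g.y ω)) fun ω => (fl (k + 1) (g.e ω), g.y ω) :=
  fun _ _ _ _ e => Prod.ext (fl_eq_of_le (Nat.le_succ k) (congrArg Prod.fst e))
    (Prod.ext_iff.1 e).2

theorem dig (k : ℕ) :
    Fn P (fun ω => fl1 (k + 1) (g.e ω i)) fun ω => (fl (k + 1) (g.e ω), g.y ω) :=
  fun _ _ _ _ e => congrFun (congrArg Prod.fst e) i

/-- The block sum is a lower bound for the entropy of the block of digits. -/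
theorem Gp_le_ch {a b : ℕ} (h : a ≤ b) :
    Gp g P i a b ≤ ch P (fun ω => fl1 b (g.e ω i)) fun ω => (fl a (g.e ω), g.y ω) := by
  induction h with
  | refl => simpa [Gp] using ch_nonneg _ _
  | @step m hm ih =>
    rw [Gp, Finset.sum_Ico_succ_top hm]
    have h1 := ch_chain (P := P) (fun ω => fl1 m (g.e ω i)) (fun ω => fl1 (m + 1) (g.e ω i))
      fun ω => (fl a (g.e ω), g.y ω)
    have h2 : ch P (fun ω => (fl1 m (g.e ω i), fl1 (m + 1) (g.e ω i)))
        (fun ω => (fl a (g.e ω), g.y ω)) ≤ ch P (fun ω => fl1 (m + 1) (g.e ω i))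
        fun ω => (fl a (g.e ω), g.y ω) := ch_mono fun _ _ _ _ e =>
      Prod.ext (fl1_eq_of_le (Nat.le_succ m) (congrArg Prod.fst e)) (congrArg Prod.fst e)
    have h3 : ch P (fun ω => fl1 (m + 1) (g.e ω i)) (fun ω => (fl m (g.e ω), g.y ω)) ≤
        ch P (fun ω => fl1 (m + 1) (g.e ω i))
          fun ω => (fl1 m (g.e ω i), fl a (g.e ω), g.y ω) := ch_anti fun _ _ _ _ e =>
      Prod.ext (congrFun (congrArg Prod.fst e) i)
        (Prod.ext (fl_eq_of_le hm (congrArg Prod.fst e)) (Prod.ext_iff.1 e).2)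
    unfold Gp at ih
    linarith

/-- The entropy of the direction at a point is at most the sum over the slopes. -/
theorem ch_le_sum (M : ℕ) : ch P (fun ω => fl M (g.e ω)) g.y ≤
    ch P (fun ω => fl 0 (g.e ω)) g.y + ∑ i, Gp g P i 0 M := by
  induction M with
  | zero => simp [Gp]
  | succ m ih =>
    have h1 := ch_tri (P := P) (fun ω => fl (m + 1) (g.e ω)) (fun ω => fl m (g.e ω)) g.y
    have h2 := ch_pi_le (P := P) Finset.univ (fun (i : Fin N) ω => fl1 (m + 1) (g.e ω i)) 0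
      fun ω => (fl m (g.e ω), g.y ω)
    simp only [Finset.mem_univ, if_true] at h2
    simp only [Gp, Finset.sum_Ico_succ_top (Nat.zero_le m), Finset.sum_add_distrib] at ih ⊢
    exact h1.trans (by rw [← add_assoc]; exact add_le_add ih h2)

/-- Side information costs its entropy once. -/
theorem Gp_side {Y : Type} (y : Ω → Y) {a b : ℕ} (h : a ≤ b) :
    Gp g P i a b ≤ Gp (g.setY y) P i a b + ch P y fun ω => (fl a (g.e ω), g.y ω) := by
  have h1 := tel P (fun k ω => fl1 (k + 1) (g.e ω i)) (fun k ω => (fl k (g.e ω), g.y ω)) y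
    (nest g P) (dig g P i) h
  have h2 : ∑ k ∈ Finset.Ico a b, ch P (fun ω => fl1 (k + 1) (g.e ω i))
      (fun ω => (y ω, fl k (g.e ω), g.y ω)) ≤ Gp (g.setY y) P i a b :=
    Finset.sum_le_sum fun k _ => ch_anti fun _ _ _ _ e =>
      Prod.ext (congrArg (·.2.1) e) (congrArg Prod.fst e)
  have h3 := ch_nonneg (P := P) y fun ω => (fl b (g.e ω), g.y ω)
  unfold Gp at h2 ⊢
  linarith

/-- The block sums are subaffine under conditioning. -/
theorem Gp_event (E : Ω → Prop) (a b : ℕ) : Gp g P i a b ≤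
    pb P E * Gp g (cE P E) i a b + (1 - pb P E) * Gp g (cE P fun ω => ¬E ω) i a b + lg := by
  rcases le_total a b with h | h
  swap
  · simp [Gp, Finset.Ico_eq_empty_of_le h, lg_pos.le]
  have h1 := tel P (fun k ω => fl1 (k + 1) (g.e ω i)) (fun k ω => (fl k (g.e ω), g.y ω)) E
    (nest g P) (dig g P i) h
  have h2 := ch_prop P E fun ω => (fl a (g.e ω), g.y ω)
  have h3 := ch_nonneg (P := P) E fun ω => (fl b (g.e ω), g.y ω)
  have h4 : ∑ k ∈ Finset.Ico a b, ch P (fun ω => fl1 (k + 1) (g.e ω i))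
      (fun ω => (E ω, fl k (g.e ω), g.y ω)) ≤
      pb P E * Gp g (cE P E) i a b + (1 - pb P E) * Gp g (cE P fun ω => ¬E ω) i a b := by
    unfold Gp
    rw [Finset.mul_sum, Finset.mul_sum, ← Finset.sum_add_distrib]
    refine Finset.sum_le_sum fun k _ => ?_
    rw [ke.eq P E _ _ (Fn.fst _ _)]
    exact add_le_add (mul_le_mul_of_nonneg_left (ch_anti (Fn.snd _ _)) (pb_nonneg _ _))
      (mul_le_mul_of_nonneg_left (ch_anti (Fn.snd _ _)) (sub_nonneg.2 (pb_le_one _ _)))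
  unfold Gp at h4 ⊢
  linarith

theorem Gp_law {Ω₁ Ω₂ : Type} {Q₁ : FP Ω₁} {Q₂ : FP Ω₂} {f₁ : Ω₁ → Ω} {f₂ : Ω₂ → Ω}
    (h : Law Q₁ f₁ Q₂ f₂) (a b : ℕ) : Gp (g.pull f₁) Q₁ i a b = Gp (g.pull f₂) Q₂ i a b :=
  Finset.sum_congr rfl fun k _ =>
    h.ch_eq (fun ω => fl1 (k + 1) (g.e ω i)) fun ω => (fl k (g.e ω), g.y ω)

end Pool.Agent.MP_5168f5_an.R4.F0
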