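import Pool.Agent.MP_5168f5_an.R4.F0a

/-! Tube zoom and permutation of the coordinates: finite facts. -/

namespace Pool.Agent.MP_5168f5_an.R4.F0

open H19 H17S H17F Filter

variable {Ω : Type} {N : ℕ} (g : Geo N Ω) (P : FP Ω)

/-- Rescale the tube of width `2^{-j}` to unit size. -/
noncomputable abbrev tz (j : ℕ) : Geo N Ω :=
  ⟨g.T × Z N × Z N, g.Y, fun ω => fr j (g.a ω), fun ω => fr j (g.e ω), g.z,
    fun ω => (g.θ ω, g.X j ω), g.y⟩

/-- Permute the coordinates. -/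
abbrev pm (σ : Equiv.Perm (Fin N)) : Geo N Ω :=
  ⟨g.T, g.Y, fun ω i => g.a ω (σ i), fun ω i => g.e ω (σ i), g.z, g.θ, g.y⟩

theorem fl_fr_eq {j k : ℕ} {x y : V N} (h : fl (j + k) x = fl (j + k) y) :
    fl k (fr j x) = fl k (fr j y) := by
  rw [fl_fr, fl_fr, h, fl_eq_of_le (Nat.le_add_right j k) h]

theorem fl1_of_fr {j k : ℕ} {x y : V N} {i : Fin N} (h : fl1 k (fr j x i) = fl1 k (fr j y i))
    (h' : fl j x = fl j y) : fl1 (j + k) (x i) = fl1 (j + k) (y i) := by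
  have h1 := congrFun (fl_fr k j x) i
  have h2 := congrFun (fl_fr k j y) i
  simp only [fl_apply] at h1 h2
  have h3 := congrFun h' i
  simp only [fl_apply] at h3
  rw [h1, h2, h3] at h
  linarith

theorem fl_of_fr {j k : ℕ} {x y : V N} (h : fl k (fr j x) = fl k (fr j y))
    (h' : fl j x = fl j y) : fl (j + k) x = fl (j + k) y :=
  funext fun i => fl1_of_fr (congrFun h i) h'

theorem bx_fat {L : ℝ} (h : g.Bx P L) (r : Fin N → ℕ) : (g.fat r).Bx P L :=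
  ⟨h.bd, fun _ _ _ _ e => congrArg (·.2.1) e, fun _ _ _ _ e => congrArg (·.2.2) e⟩

theorem tz_bx {L : ℝ} {r : Fin N → ℕ} (h : (g.fat r).Bx P L) (j : ℕ) (r' : Fin N → ℕ) :
    ((tz g j).fat r').Bx P 1 :=
  ⟨fun ω hω => ⟨fun i => ⟨abs_le.2 ⟨by linarith [(fr_box j (g.a ω) i).1], (fr_box j _ i).2.le⟩,
    abs_le.2 ⟨by linarith [(fr_box j (g.e ω) i).1], (fr_box j _ i).2.le⟩⟩, (h.bd ω hω).2⟩,
    fun _ _ _ _ e => congrArg (·.2.1) e, fun _ _ _ _ e => congrArg (·.2.2) e⟩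

theorem fn_tz (j : ℕ) : Fn P (tz g j).θ fun ω => (g.ln ω, g.θ ω) := fun a _ b _ e => by
  simp only [Geo.ln, Geo.X, Prod.mk.injEq] at e ⊢
  rw [e.1.1, e.1.2.1, e.2]; exact ⟨rfl, rfl, rfl⟩

theorem tz_inf (j : ℕ) : mi P g.z (tz g j).ln (tz g j).θ ≤ mi P g.z g.ln g.θ :=
  mi_right (Fn.fst _ _) (fn_tz g P j) fun a _ b _ e => by
    simp only [Geo.ln, Geo.X, Prod.mk.injEq] at e ⊢
    rw [e.1.1, e.1.2.1, e.2]; exact ⟨rfl, rfl, rfl, rfl, rfl⟩

theorem tz_hgt (j : ℕ) {m M : ℕ} (h : m ≤ M) : ch P (fun ω => fl1 M (g.z ω)) g.θ ≤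
    ch P (fun ω => fl1 m (g.z ω)) (tz g j).θ + mi P g.z g.ln g.θ + (M - m : ℝ) * lg := by
  have h1 := ch_tri (P := P) (fun ω => fl1 M (g.z ω)) (fun ω => fl1 m (g.z ω)) g.θ
  have h2 := ch_digits P (x := g.z) (G := fun ω => (fl1 m (g.z ω), g.θ ω)) h (Fn.fst _ _)
  have h3 := ch_le_mi (P := P) (F := fun ω => fl1 m (g.z ω)) (fn_tz g P j)
  have h4 : mi P (fun ω => fl1 m (g.z ω)) g.ln g.θ ≤ mi P g.z g.ln g.θ :=
    mi_mono' ((Fn.comp _ _).left _)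
  linarith

theorem tz_ds (j m : ℕ) : ch P ((tz g j).X m) (fun ω => (fl m ((tz g j).e ω), (tz g j).θ ω)) ≤
    ch P (g.X (j + m)) fun ω => (fl (j + m) (g.e ω), g.θ ω) :=
  ch_le (fun a _ b _ e => by
      simp only [Geo.X, Prod.mk.injEq] at e ⊢
      exact ⟨fl_fr_eq e.1.1, fl_fr_eq e.1.2⟩)
    fun a _ b _ e => by
      simp only [Geo.X, Prod.mk.injEq] at e ⊢
      exact ⟨fl_of_fr e.1 e.2.2.2, e.2.1⟩

theorem tz_pt (j : ℕ) (ω : Ω) : (tz g j).pt ω = (2 : ℝ) ^ j • g.pt ω -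
    (fun i => (fl j (g.a ω) i : ℝ)) - g.z ω • fun i => (fl j (g.e ω) i : ℝ) := by
  simp only [Geo.pt, Geo.lt, fr_eq]
  module

theorem tz_pnt {L : ℝ} {j m a : ℕ} (h : (g.fat fun _ => j + m).Bx P L) :
    ch P ((tz g j).fp fun _ => m) (fun ω => (fl (j + a) (g.e ω), g.fp (fun _ => j + m) ω)) ≤
      10 * N := by
  have p0 : (0 : ℝ) < 2 ^ j := by positivity
  have h1 := ch_tri (P := P) ((tz g j).fp fun _ => m) (fun ω => fl j (g.a ω))
    fun ω => (fl (j + a) (g.e ω), g.fp (fun _ => j + m) ω)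
  have h2 : ch P (fun ω => fl j (g.a ω))
      (fun ω => (fl (j + a) (g.e ω), g.fp (fun _ => j + m) ω)) ≤ 5 * N := by
    refine ch_fl_near (n := 2) (by norm_num) fun x hx y _ e => ?_
    simp only [Geo.fp, Prod.mk.injEq] at e
    have e1 := norm_sub_lt_of_fl_eq (fl_eq_of_le (Nat.le_add_right j a) e.1)
    have e2 := norm_sub_lt_of_fl_eq (fl_eq_of_le (Nat.le_add_right j m)
      (show fl (j + m) (g.pt x) = fl (j + m) (g.pt y) from e.2.1))
    have e3 : g.a x - g.a y = (g.pt x - g.pt y) - g.z x • (g.e x - g.e y) := by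
      simp only [Geo.pt, Geo.lt, ← e.2.2.1]; module
    have e4 := (h.bd x hx).2
    have e5 : ‖g.z x • (g.e x - g.e y)‖ ≤ ‖g.e x - g.e y‖ := by
      rw [norm_smul, Real.norm_of_nonneg e4.1]
      exact mul_le_of_le_one_left (norm_nonneg _) e4.2.le
    rw [e3]
    refine (norm_sub_le _ _).trans ?_
    push_cast
    linarith
  have h3 : ch P ((tz g j).fp fun _ => m) (fun ω => (fl j (g.a ω), fl (j + a) (g.e ω),
      g.fp (fun _ => j + m) ω)) ≤ ch P (fun ω => fl m ((tz g j).pt ω))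
      fun ω => (fl j (g.a ω), fl (j + a) (g.e ω), g.fp (fun _ => j + m) ω) :=
    ch_mono fun x _ y _ e => by
      simp only [Geo.fp, Geo.X, Prod.mk.injEq] at e ⊢
      exact ⟨e.1, e.2.2.2.2.1, e.2.2.2.2.2, e.2.1, fl_eq_of_le (Nat.le_add_right j a) e.2.2.1⟩
  have h4 : ch P (fun ω => fl m ((tz g j).pt ω))
      (fun ω => (fl j (g.a ω), fl (j + a) (g.e ω), g.fp (fun _ => j + m) ω)) ≤ 5 * N := by
    refine ch_fl_near (n := 1) (by norm_num) fun x _ y _ e => ?_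
    simp only [Geo.fp, Prod.mk.injEq] at e
    have e2 := norm_sub_lt_of_fl_eq (show fl (j + m) (g.pt x) = fl (j + m) (g.pt y) from e.2.2.1)
    have e3 : (tz g j).pt x - (tz g j).pt y = (2 : ℝ) ^ j • (g.pt x - g.pt y) := by
      rw [tz_pt, tz_pt, e.1, fl_eq_of_le (Nat.le_add_right j a) e.2.1, e.2.2.2.1]; module
    rw [e3, norm_smul, Real.norm_of_nonneg p0.le]
    refine (mul_le_mul_of_nonneg_left e2.le p0.le).trans (le_of_eq ?_)
    rw [pow_add]; push_cast; field_simp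
  linarith

theorem tz_Gp {L : ℝ} {j m : ℕ} (h : (g.fat fun _ => j + m).Bx P L) (i : Fin N) {a b : ℕ}
    (hab : a ≤ b) : Gp (g.fat fun _ => j + m) P i (j + a) (j + b) ≤
      Gp ((tz g j).fat fun _ => m) P i a b + 10 * N := by
  refine (Gp_side _ P i ((tz g j).fp fun _ => m) (Nat.add_le_add_left hab j)).trans
    (add_le_add ?_ (tz_pnt g P h))
  unfold Gp
  rw [add_comm j a, add_comm j b, ← Finset.sum_Ico_add']
  refine Finset.sum_le_sum fun k _ => ch_le (fun x _ y _ e => ?_) fun x _ y _ e => ?_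
  · simp only [Geo.fp, Geo.X, Prod.mk.injEq] at e
    rw [show k + j + 1 = j + (k + 1) by ring]
    exact fl1_of_fr e.1 e.2.2.2.2.2.2
  · simp only [Prod.mk.injEq] at e ⊢
    exact ⟨fl_fr_eq (by rw [add_comm j k]; exact e.1), e.2⟩

variable (σ : Equiv.Perm (Fin N))

theorem fl_pm {j : ℕ} {x y : V N} : (fl j (fun i => x (σ i)) = fl j fun i => y (σ i)) ↔
    fl j x = fl j y :=
  ⟨fun h => funext fun i => by simpa [fl_apply] using congrFun h (σ.symm i),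
    fun h => funext fun i => congrFun h (σ i)⟩

theorem pm_bx {L : ℝ} (h : g.Bx P L) : (pm g σ).Bx P L :=
  ⟨fun ω hω => ⟨fun i => (h.bd ω hω).1 (σ i), (h.bd ω hω).2⟩, h.fz, h.fθ⟩

theorem pm_inf : mi P g.z (pm g σ).ln g.θ ≤ mi P g.z g.ln g.θ :=
  mi_mono fun a _ b _ e => by
    simp only [Geo.ln, Prod.mk.injEq] at e ⊢
    rw [e.1.1, e.1.2.1, e.2]; exact ⟨rfl, rfl, rfl⟩

theorem pm_ds (m : ℕ) : ch P ((pm g σ).X m) (fun ω => (fl m ((pm g σ).e ω), g.θ ω)) ≤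
    ch P (g.X m) fun ω => (fl m (g.e ω), g.θ ω) :=
  ch_le (fun a _ b _ e => by
      simp only [Geo.X, Prod.mk.injEq] at e ⊢
      exact ⟨(fl_pm σ).2 e.1.1, (fl_pm σ).2 e.1.2⟩)
    fun a _ b _ e => by
      simp only [Prod.mk.injEq] at e ⊢
      exact ⟨(fl_pm σ).1 e.1, e.2⟩

theorem pm_Gp (m : ℕ) (i : Fin N) (a b : ℕ) :
    Gp (g.fat fun _ => m) P (σ i) a b ≤ Gp ((pm g σ).fat fun _ => m) P i a b :=
  Finset.sum_le_sum fun k _ => ch_anti fun x _ y _ e => by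
    simp only [Geo.fp, Prod.mk.injEq] at e ⊢
    exact ⟨(fl_pm σ).2 e.1, funext fun l => congrFun e.2.1 (σ l), e.2.2⟩

end Pool.Agent.MP_5168f5_an.R4.F0
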