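import Pool.Agent.MP_5168f5_an.R4.F0b

/-! A good starting angle, and classes of direction separated systems. -/

namespace Pool.Agent.MP_5168f5_an.R4.F0

open H19 H17S H17F Filter K31 MeasureTheory Set

/-- A point after which `ψ` grows at rate `η`, at all small scales from every starting point. -/
theorem ex_start {ψ : ℝ → ℝ} (h : ∀ a b, a ≤ b → 0 ≤ ψ b - ψ a ∧ ψ b - ψ a ≤ b - a) {η : ℝ}
    (h0 : 0 < η) (h1 : η < ψ 1 - ψ 0) : ∃ a, 0 ≤ a ∧ a < 1 ∧
      (∀ b, a ≤ b → b ≤ 1 → η * (b - a) ≤ ψ b - ψ a) ∧ ∀ ε : ℝ, 0 < ε → ∃ c : ℝ, 0 < c ∧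
        ∀ u v, 0 ≤ u → u ≤ v → v ≤ c → η * (v - u) - ε * v ≤ ψ (a + v) - ψ (a + u) := by
  have mo : Monotone ψ := fun a b e => by linarith [(h a b e).1]
  set χ : ℝ → ℝ := fun x => ψ x - η * x with hχ
  have lp : LipschitzWith (1 + η).toNNReal χ := LipschitzWith.of_le_add_mul' _ fun x y => by
    rw [Real.dist_eq]
    rcases le_total x y with e | e
    · rw [abs_sub_comm, abs_of_nonneg (sub_nonneg.2 e)]
      have := h x y e
      simp only [hχ]; nlinarith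
    · rw [abs_of_nonneg (sub_nonneg.2 e)]
      have := h y x e
      simp only [hχ]; nlinarith
  have nu : volume (χ '' {x | ¬DifferentiableAt ℝ ψ x}) = 0 := by
    have h2 := lp.hausdorffMeasure_image_le (d := 1) zero_le_one {x | ¬DifferentiableAt ℝ ψ x}
    rw [hausdorffMeasure_real, show volume {x | ¬DifferentiableAt ℝ ψ x} = 0 from
      mo.ae_differentiableAt, mul_zero] at h2
    exact le_antisymm h2 zero_le
  have lt : χ 0 < χ 1 := by simp only [hχ]; linarith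
  obtain ⟨s, hs, hn⟩ : ∃ s ∈ Ioo (χ 0) (χ 1), s ∉ χ '' {x | ¬DifferentiableAt ℝ ψ x} := by
    by_contra k
    push Not at k
    have := measure_mono_null k nu
    rw [Real.volume_Ioo, ENNReal.ofReal_eq_zero] at this
    linarith
  have iv : ∀ b, b ≤ 1 → χ b ≤ s → ∃ x ∈ Icc b 1, χ x = s := fun b e e' =>
    intermediate_value_Icc e lp.continuous.continuousOn ⟨e', hs.2.le⟩
  obtain ⟨a, ⟨ha, ha'⟩, hm⟩ := (isCompact_Icc.inter_right (isClosed_singleton.preimage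
    lp.continuous) : IsCompact (Icc (0 : ℝ) 1 ∩ χ ⁻¹' {s})).exists_isGreatest
    (iv 0 zero_le_one hs.1.le)
  have ha1 : χ a = s := ha'
  have a1 : a < 1 := lt_of_le_of_ne ha.2 fun e => by rw [e] at ha1; exact hs.2.ne' ha1
  have gr : ∀ b, a ≤ b → b ≤ 1 → η * (b - a) ≤ ψ b - ψ a := by
    intro b e e'
    by_contra k
    have k1 : χ b < s := by rw [← ha1]; simp only [hχ]; linarith
    obtain ⟨x, hx, hx'⟩ := iv b e' k1.le
    have : x ≤ a := hm ⟨⟨ha.1.trans (e.trans hx.1), hx.2⟩, hx'⟩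
    rw [le_antisymm (hx.1.trans this) e] at k1
    exact k1.ne ha1
  refine ⟨a, ha.1, a1, gr, ?_⟩
  have hd : DifferentiableAt ℝ ψ a := not_not.1 fun k => hn ⟨a, k, ha1⟩
  have ap : ∀ ε : ℝ, 0 < ε → ∃ c : ℝ, 0 < c ∧ ∀ u, 0 ≤ u → u ≤ c →
      |ψ (a + u) - ψ a - u * deriv ψ a| ≤ ε * u := by
    intro ε hε
    obtain ⟨c, hc, e⟩ := Metric.eventually_nhds_iff.1
      ((hasDerivAt_iff_isLittleO_nhds_zero.1 hd.hasDerivAt).def hε)
    refine ⟨c / 2, half_pos hc, fun u u0 u1 => ?_⟩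
    have := e (y := u) (by rw [Real.dist_eq, sub_zero, abs_of_nonneg u0]; linarith)
    simpa only [Real.norm_eq_abs, smul_eq_mul, abs_of_nonneg u0] using this
  have la : η ≤ deriv ψ a := le_of_forall_pos_le_add fun ε hε => by
    obtain ⟨c, hc, e⟩ := ap ε hε
    have u0 : 0 < min c (1 - a) := lt_min hc (by linarith)
    have e1 := (abs_le.1 (e _ u0.le (min_le_left _ _))).2
    have e2 := gr (a + min c (1 - a)) (by linarith) (by linarith [min_le_right c (1 - a)])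
    exact le_of_mul_le_mul_left (by linarith) u0
  intro ε hε
  obtain ⟨c, hc, e⟩ := ap _ (half_pos hε)
  refine ⟨c, hc, fun u v u0 uv vc => ?_⟩
  have e1 := (abs_le.1 (e u u0 (uv.trans vc))).2
  have e2 := (abs_le.1 (e v (u0.trans uv) vc)).1
  nlinarith [mul_le_mul_of_nonneg_right la (sub_nonneg.2 uv)]

theorem ex_lim (f : ℕ → ℝ) (C : ℝ) (h : ∀ᶠ n in UF, |f n| ≤ C) :
    ∃ s, Le1 (fun _ => s) f ∧ Le1 f fun _ => s := by
  obtain ⟨s, ⟨_, -, a⟩, b⟩ := sup (X := fun _ => Unit) (fun _ _ _ => True) (fun n _ => f n) C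
    ⟨fun _ => (), fun _ => Eventually.of_forall fun _ => trivial⟩ fun _ _ => h
  exact ⟨s, a, b (fun _ => ()) fun _ => Eventually.of_forall fun _ => trivial⟩

variable {M : ℕ → ℕ}

theorem le_iff {f g : ℕ → ℝ} :
    Le M f g ↔ ∀ j : ℕ, ∀ᶠ n in UF, f n ≤ g n + 1 / (j + 1 : ℝ) * M n := by
  refine ⟨fun h j => h _ (by positivity), fun h ε hε => ?_⟩
  obtain ⟨m, hm⟩ := exists_nat_one_div_lt hε
  exact (h m).mono fun n a => a.trans (add_le_add le_rfl
    (mul_le_mul_of_nonneg_right hm.le (Nat.cast_nonneg _)))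

theorem eqv_of (hM : Big M) {s : ℝ} {f : ℕ → ℝ}
    (h : Le1 (fun _ => s) (fun n => f n / M n) ∧ Le1 (fun n => f n / M n) fun _ => s) :
    Eqv M f fun n => s * M n := by
  have e : ∀ᶠ n in UF, s * M n / M n = s := (hM.ev 1).mono fun n u =>
    mul_div_cancel_right₀ _ (by linarith)
  exact ⟨(le1_div hM).1 (h.2.trans (Le1.of_ev (e.mono fun _ => ge_of_eq))),
    (le1_div hM).1 ((Le1.of_ev (e.mono fun _ => le_of_eq)).trans h.1)⟩

theorem ex_rate (hM : Big M) (f : ℕ → ℝ) (C : ℝ) (h : ∀ᶠ n in UF, |f n| ≤ C * M n) :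
    ∃ s : ℝ, Eqv M f fun n => s * M n := by
  obtain ⟨s, hs⟩ := ex_lim (fun n => f n / M n) C (by
    filter_upwards [h, hM.ev 1] with n a b
    rwa [abs_div, Nat.abs_cast, div_le_iff₀ (by linarith)])
  exact ⟨s, eqv_of hM hs⟩

end Pool.Agent.MP_5168f5_an.R4.F0
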