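import Pool.Agent.MP_5168f5_an.R4.F0c

/-! A system whose points do not determine a slope gives a broad class. -/

namespace Pool.Agent.MP_5168f5_an.R4

open H19 H17S H17F Filter K31

namespace F0

variable {N : ℕ} {Ω : ℕ → Type} (g : Gs N Ω) (M : ℕ → ℕ) (L : ℕ → ℝ) (i : Fin N)

/-- The block sums on a member. -/
noncomputable def φ (n : ℕ) (x : Ext (Ω n)) (j : ℕ) : ℝ :=
  Gp (((g n).fat fun _ => M n).pull x.ρ) x.Q i 0 j

/-- The conditions on a direction separated system. -/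
def K0 (X : Mb Ω) : Prop :=
  (∀ᶠ n in UF, (((g n).fat fun _ => M n).pull (X n).ρ).Bx (X n).Q (L n)) ∧
  (Sm M fun n => mi (X n).Q (X.G g n).z (X.G g n).ln (X.G g n).θ) ∧
  (Le M (fun n => M n * lg) fun n =>
    ch (X n).Q (fun ω => fl1 (M n) ((X.G g n).z ω)) (X.G g n).θ) ∧ DS X.P (X.G g) M

variable {g M L i}

theorem φ_lip (n : ℕ) (x : Ext (Ω n)) {a b : ℕ} (h : a ≤ b) :
    0 ≤ φ g M i n x b - φ g M i n x a ∧ φ g M i n x b - φ g M i n x a ≤ (b - a : ℝ) * lg := by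
  unfold φ
  rw [← Gp_add _ _ i (Nat.zero_le a) h, add_sub_cancel_left]
  exact ⟨Gp_nonneg _ _ _ _ _, Gp_le _ _ _ h⟩

theorem φ_abs (n : ℕ) (x : Ext (Ω n)) (a b : ℕ) :
    |φ g M i n x b - φ g M i n x a| ≤ |(b - a : ℝ)| := by
  have k : ∀ a b : ℕ, a ≤ b → |φ g M i n x b - φ g M i n x a| ≤ |(b - a : ℝ)| := by
    intro a b h
    have h1 := φ_lip (g := g) (M := M) (i := i) n x h
    have h2 : (0 : ℝ) ≤ b - a := sub_nonneg.2 (by exact_mod_cast h)
    rw [abs_of_nonneg h1.1, abs_of_nonneg h2]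
    nlinarith [lg_lt_one]
  rcases le_total a b with h | h
  · exact k a b h
  · rw [abs_sub_comm, abs_sub_comm (b : ℝ)]; exact k b a h

theorem φ_bd (n : ℕ) (x : Ext (Ω n)) {a : ℕ} (h : a ≤ M n) : |φ g M i n x a| ≤ 1 * M n := by
  have h1 := φ_abs (g := g) (M := M) (i := i) n x 0 a
  have h2 : φ g M i n x 0 = 0 := by simp [φ, Gp]
  rw [h2] at h1
  simp only [Nat.cast_zero, sub_zero, Nat.abs_cast] at h1
  rw [one_mul]; exact h1.trans (by exact_mod_cast h)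

theorem K0.law {X X' : Mb Ω} (h : K0 g M L X)
    (e : ∀ᶠ n in UF, Law (X' n).Q (X' n).ρ (X n).Q (X n).ρ) : K0 g M L X' := by
  refine ⟨?_, h.2.1.mono (e.mono fun n u => le_of_eq ?_), h.2.2.1.trans (Le.of_ev
    (e.mono fun n u => (u.ch_eq (fun ω => fl1 (M n) ((g n).z ω)) (g n).θ).ge)),
    h.2.2.2.mono (e.mono fun n u => (u.ch_eq ((g n).X (M n))
      fun ω => (fl (M n) ((g n).e ω), (g n).θ ω)).le)⟩
  · filter_upwards [h.1, e] with n a u
    refine ⟨fun ω hω => ?_, fun _ _ _ _ e => congrArg (·.2.1) e, fun _ _ _ _ e => congrArg (·.2.2) e⟩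
    obtain ⟨v, hv, k⟩ := u.ex hω
    have := a.bd v hv
    dsimp only at this ⊢
    rwa [k] at this
  · exact congrArg₂ (· - ·) (u.ch_eq (g n).z (g n).θ)
      (u.ch_eq (g n).z fun ω => ((g n).ln ω, (g n).θ ω))

theorem det_hgt {W β : Type} {P : FP W} {z : W → ℝ} (h : ∀ ω ∈ P.S, 0 ≤ z ω ∧ z ω < 1) (m : ℕ)
    (G : W → β) : Det P (fun ω => fl1 m (z ω)) G (2 ^ m) := fun ω _ =>
  ⟨Finset.Ico 0 (2 ^ m), by
    rw [Int.card_Ico, sub_zero, show ((2 : ℤ) ^ m) = ((2 ^ m : ℕ) : ℤ) by push_cast; rfl,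
      Int.toNat_natCast]
    push_cast; exact le_rfl, fun b hb _ => by
    have h1 := fl1_mem_Ico (j := 0) (i := m) (y := 0)
      ((fl1_zero_of_box (h b hb).1 (h b hb).2).trans (fl1_zero_of_box le_rfl one_pos).symm)
    simpa [fl1_zero_of_box le_rfl one_pos] using h1⟩

theorem full_hgt {W β : ℕ → Type} {P : ∀ n, FP (W n)} {z : ∀ n, W n → ℝ} {G : ∀ n, W n → β n}
    {E : ∀ n, W n → Prop} (hM : Big M) (e : Pos P E)
    (h : ∀ᶠ n in UF, ∀ ω ∈ (P n).S, 0 ≤ z n ω ∧ z n ω < 1)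
    (k : Le M (fun n => M n * lg) fun n => ch (P n) (fun ω => fl1 (M n) (z n ω)) (G n)) :
    Le M (fun n => M n * lg) fun n => ch (cE (P n) (E n)) (fun ω => fl1 (M n) (z n ω)) (G n) := by
  have := (dnS_cE e).full hM (N := fun n => 2 ^ M n) (F := fun n ω => fl1 (M n) (z n ω)) (G := G)
    (h.mono fun n a => det_hgt a _ _) (by simpa only [log_two_pow] using k)
  simpa only [log_two_pow, id] using this

theorem mi_cE {W A B D : ℕ → Type} {P : ∀ n, FP (W n)} {F : ∀ n, W n → A n} {G : ∀ n, W n → B n}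
    {K : ∀ n, W n → D n} {E : ∀ n, W n → Prop} (hM : Big M) (e : Pos P E)
    (k : Sm M fun n => mi (P n) (F n) (G n) (K n)) :
    Sm M fun n => mi (cE (P n) (E n)) (F n) (G n) (K n) := (dnS_cE e).sm_mi hM k

theorem ch_cE {W A B : ℕ → Type} {P : ∀ n, FP (W n)} {F : ∀ n, W n → A n} {G : ∀ n, W n → B n}
    {E : ∀ n, W n → Prop} (e : Pos P E) (k : Sm M fun n => ch (P n) (F n) (G n)) :
    Sm M fun n => ch (cE (P n) (E n)) (F n) (G n) := (dnS_cE e).sm_ch k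

theorem K0.cond (hM : Big M) {X : Mb Ω} (h : K0 g M L X) {E : ∀ n, (X n).W → Prop}
    (e : Pos X.P E) : K0 g M L (X.cond E) := by
  obtain ⟨h1, h2, h3, h4⟩ := h
  have a2 := mi_cE hM e h2
  have a3 := full_hgt hM e (h1.mono fun _ a ω hω => (a.bd ω hω).2) h3
  have a4 := ch_cE e h4
  exact ⟨h1.mono fun _ a => ⟨fun ω hω => a.bd ω (cE_sub hω), fn_cE a.fz _, fn_cE a.fθ _⟩,
    a2, a3, a4⟩

theorem K0_cls : ∃ p : ℕ → ∀ n, Ext (Ω n) → Prop, ∀ X : Mb Ω, K31.Cls p X ↔ K0 g M L X := by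
  refine ⟨fun j n x => (((g n).fat fun _ => M n).pull x.ρ).Bx x.Q (L n) ∧
    mi x.Q ((g n).pull x.ρ).z ((g n).pull x.ρ).ln ((g n).pull x.ρ).θ ≤ 0 + 1 / (j + 1 : ℝ) * M n ∧
    M n * lg ≤ ch x.Q (fun ω => fl1 (M n) (((g n).pull x.ρ).z ω)) ((g n).pull x.ρ).θ +
      1 / (j + 1 : ℝ) * M n ∧
    ch x.Q (((g n).pull x.ρ).X (M n)) (fun ω => (fl (M n) (((g n).pull x.ρ).e ω),
      ((g n).pull x.ρ).θ ω)) ≤ 0 + 1 / (j + 1 : ℝ) * M n, fun X => ?_⟩
  simp only [K31.Cls, K0, DS, Sm, le_iff, eventually_and, forall_and, forall_const]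

/-- The grid of levels. -/
def lv (M : ℕ → ℕ) (k n : ℕ) : ℕ := M n - k.unpair.1 * M n / (k.unpair.2 + 1)

theorem lv_near (hM : Big M) {γ : ℕ → ℕ} (h : ∀ᶠ n in UF, γ n ≤ M n) {ε : ℝ} (hε : 0 < ε) :
    ∃ k, ∀ᶠ n in UF, |(γ n - lv M k n : ℝ)| ≤ ε * M n := by
  obtain ⟨K, hK⟩ := exists_nat_one_div_lt (half_pos hε)
  obtain ⟨t, ht⟩ := ev_ex (J := Fin (K + 2))
    (p := fun t n => (t : ℕ) = (M n - γ n) * (K + 1) / M n) ((hM.ev 1).mono fun n a => by
      refine ⟨⟨_, Nat.lt_succ_of_le (Nat.div_le_of_le_mul ?_)⟩, rfl⟩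
      exact Nat.mul_le_mul_right _ (Nat.sub_le _ _))
  refine ⟨Nat.pair t K, ?_⟩
  filter_upwards [h, ht, hM.ev 1, hM.ev (2 / ε)] with n a b c d
  have m0 : 0 < M n := by exact_mod_cast one_pos.trans_le c
  have k0 : (0 : ℝ) < K + 1 := by positivity
  have h1 : t * M n ≤ (M n - γ n) * (K + 1) := by rw [b]; exact Nat.div_mul_le_self _ _
  have h2 : (M n - γ n) * (K + 1) < M n * (t + 1) := by rw [b]; exact Nat.lt_mul_div_succ _ m0
  have h3 : t * M n / (K + 1) ≤ M n - γ n := Nat.div_le_of_le_mul (by rwa [mul_comm (K + 1)])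
  have h4 : t * M n < (K + 1) * (t * M n / (K + 1) + 1) := Nat.lt_mul_div_succ _ (Nat.succ_pos K)
  simp only [lv, Nat.unpair_pair]
  set q := t * M n / (K + 1)
  rw [Nat.cast_sub (h3.trans (Nat.sub_le _ _))]
  have r2 : ((M n : ℝ) - γ n) * (K + 1) < M n * (t + 1) := by
    rw [← Nat.cast_sub a]; exact_mod_cast h2
  have r3 : (q : ℝ) ≤ M n - γ n := by rw [← Nat.cast_sub a]; exact_mod_cast h3
  have r4 : (t : ℝ) * M n < (K + 1) * (q + 1) := by exact_mod_cast h4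
  rw [div_lt_iff₀ k0] at hK
  rw [div_le_iff₀ hε] at d
  rw [abs_sub_comm, abs_of_nonneg (by linarith)]
  refine le_of_mul_le_mul_left ?_ k0
  nlinarith

/-- A class on which the block sums do not depend on the member. -/
theorem ex_exact (hM : Big M) {X₀ : Mb Ω} (h0 : K0 g M L X₀) :
    ∃ (K : Mb Ω → Prop) (Y : Mb Ω), Cl K ∧ K Y ∧ (∀ X, K X → K0 g M L X) ∧
      Le M (fun n => φ g M i n (X₀ n) (M n)) (fun n => φ g M i n (Y n) (M n)) ∧
      ∀ X, K X → ∀ γ : ℕ → ℕ, (∀ᶠ n in UF, γ n ≤ M n) →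
        Eqv M (fun n => φ g M i n (X n) (γ n)) fun n => φ g M i n (Y n) (γ n) := by
  obtain ⟨p, hp⟩ := K0_cls (g := g) (M := M) (L := L)
  obtain ⟨s, p', ⟨Y, hY⟩, h2, h3, h4⟩ := exact p
    (fun X X' : Mb Ω => ∃ E, Pos X.P E ∧ X' = X.cond E)
    (fun k n x => φ g M i n x (lv M k n) / M n) (fun _ => 1) ⟨X₀, (hp _).2 h0⟩
    (fun k x _ => (hM.ev 1).mono fun n a => by
      rw [abs_div, Nat.abs_cast, div_le_iff₀ (by linarith)]
      exact φ_bd n _ (Nat.sub_le _ _))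
    (by rintro X _ hX ⟨E, hE, rfl⟩; exact (hp _).2 (((hp _).1 hX).cond hM hE)) (by
      rintro X _ - ⟨E, hE, rfl⟩
      have ev : ∀ k, Le M (fun n => φ g M i n (X n) (lv M k n)) fun n =>
          pb (X n).Q (E n) * φ g M i n (Mb.cond X E n) (lv M k n) + (1 - pb (X n).Q (E n)) *
            φ g M i n (Mb.cond X (fun n ω => ¬E n ω) n) (lv M k n) := fun k =>
        (hM.sm lg).of_sub (Eventually.of_forall fun n => by
          have := Gp_event (((g n).fat fun _ => M n).pull (X n).ρ) (X n).Q i (E n) 0 (lv M k n)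
          unfold φ; linarith)
      by_cases hw : Whp (Mb.P X) E
      · refine Or.inl fun k => (le1_div hM).2 ((ev k).of2 (whp_small (C := 1) hw
          (Eventually.of_forall fun n => (le_abs_self _).trans (φ_bd (g := g) (i := i) n
            (Mb.cond X (fun n ω => ¬E n ω) n) (a := lv M k n) (Nat.sub_le _ _))))
          (Eventually.of_forall fun n => ?_))
        have := mul_le_of_le_one_left (Gp_nonneg (((g n).fat fun _ => M n).pull (X n).ρ)
          (cE (X n).Q (E n)) i 0 (lv M k n)) (pb_le_one (X n).Q (E n))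
        have e : φ g M i n (Mb.cond X E n) (lv M k n) =
            Gp (((g n).fat fun _ => M n).pull (X n).ρ) (cE (X n).Q (E n)) i 0 (lv M k n) := rfl
        rw [← e] at this
        simp only [Mb.P]
        linarith
      · obtain ⟨κ, hκ, hq⟩ := hE
        refine Or.inr ⟨_, fun n => pb (X n).Q (E n), κ, ⟨_, not_whp hw, rfl⟩, hκ,
          hq.mono fun n u => ⟨u, pb_le_one _ _⟩, fun k => ?_⟩
        simp only [← mul_div_assoc, ← add_div]
        exact (le1_div hM).2 (ev k))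
  refine ⟨K31.Cls p', Y, ⟨⟨fun X X' hX e => ?_, fun X E hX hE => h3 X _ hX ⟨E, hE, rfl⟩⟩,
    p', fun _ => Iff.rfl⟩, hY, fun X hX => (hp _).1 ((h2 X).1 hX).1, ?_, fun X hX γ hγ => ?_⟩
  · have e' : ∀ k, ∀ᶠ n in UF, φ g M i n (X' n) (lv M k n) / M n =
        φ g M i n (X n) (lv M k n) / M n := fun k => e.mono fun n u => by
      unfold φ; rw [Gp_law _ i u]
    obtain ⟨a, b⟩ := (h2 X).1 hX
    exact (h2 X').2 ⟨(hp _).2 (((hp _).1 a).law e), fun k =>
      ⟨(b k).1.trans (Le1.of_ev ((e' k).mono fun _ => ge_of_eq)),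
        (Le1.of_ev ((e' k).mono fun _ => le_of_eq)).trans (b k).2⟩⟩
  · have := (le1_div hM).1 ((h4 X₀ ((hp _).2 h0)).trans (((h2 Y).1 hY).2 0).1)
    simpa [lv] using this
  · have k : ∀ A B : Mb Ω, K31.Cls p' A → K31.Cls p' B →
        Le M (fun n => φ g M i n (A n) (γ n)) fun n => φ g M i n (B n) (γ n) := by
      intro A B hA hB
      refine Le.eps fun ε hε => ?_
      obtain ⟨k, hk⟩ := lv_near hM hγ (half_pos hε)
      refine ((le1_div hM).1 ((((h2 A).1 hA).2 k).2.trans (((h2 B).1 hB).2 k).1)).of_sub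
        (hk.mono fun n u => ?_)
      have a := (abs_le.1 ((φ_abs (g := g) (M := M) (i := i) n (A n) (lv M k n) (γ n)).trans u)).2
      have b := (abs_le.1 ((φ_abs (g := g) (M := M) (i := i) n (B n) (lv M k n) (γ n)).trans u)).1
      linarith
    exact ⟨k X Y hX hY, k Y X hY hX⟩

end F0

end Pool.Agent.MP_5168f5_an.R4
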