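import Pool.Agent.MP_5168f5_an.R4.RedAll
import Pool.Agent.MP_5168f5_an.R4.Defs

/-! The entropy theorem in the language of systems. -/

namespace Pool.Agent.MP_5168f5_an.R4

open H19 H17S H17F Filter

/-- In a direction separated system the point determines the direction. -/
def TopMu (N : ℕ) : Prop := ∀ (Ω : ℕ → Type) (P : ∀ n, FP (Ω n)) (g : Gs N Ω) (M : ℕ → ℕ),
  Bs P g M → DS P g M →
  Sm M fun n => ch (P n) (fun ω => fl (M n) ((g n).e ω)) ((g n).fp fun _ => M n)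

/-- A configuration as a system. -/
def geo {N : ℕ} (c : Cfg N) : Geo N c.Ω := ⟨c.T, ℝ × c.T, c.a, c.e, c.z, c.θ, fun ω => (c.z ω, c.θ ω)⟩

theorem DS0.bs {N : ℕ} {x : ℕ → Cfg N} {M : ℕ → ℕ} (h : DS0 x M) :
    Bs (fun n => (x n).P) (fun n => geo (x n)) M := by
  have a : ∀ n, ch (x n).P (x n).z (x n).θ ≤ M n * lg := fun n => by
    refine (ch_mono (((h.grid n).left _))).trans ?_
    have := ch_fl1_refine (P := (x n).P) (x := (x n).z) (G := (x n).θ) (j := fun _ => 0)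
      (i := fun _ => M n) (fun _ _ _ _ _ => rfl) (fun _ _ _ _ _ => rfl) fun a ha b hb _ =>
        (fl1_zero_of_box (h.box n a ha).2.2.1 (h.box n a ha).2.2.2).trans
          (fl1_zero_of_box (h.box n b hb).2.2.1 (h.box n b hb).2.2.2).symm
    simpa [FP.E_const] using this
  refine ⟨h.big, ⟨fun _ => 1, h.big.sub le_rfl, Eventually.of_forall fun n =>
    ⟨fun ω hω => ⟨fun i => ⟨?_, ?_⟩, (h.box n ω hω).2.2⟩, Fn.fst _ _, Fn.snd _ _⟩⟩,
    h.hgt.of_sub (Eventually.of_forall fun n => ?_), h.hgt.trans (Le.of_le fun n => ?_)⟩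
  · have := (h.box n ω hω).1 i
    exact (abs_of_nonneg this.1).trans_le this.2.le
  · have := (h.box n ω hω).2.1 i
    exact (abs_of_nonneg this.1).trans_le this.2.le
  · have b : ch (x n).P (fun ω => fl1 (M n) ((x n).z ω)) (x n).ln ≤
        ch (x n).P (x n).z fun ω => ((x n).ln ω, (x n).θ ω) :=
      ch_le ((Fn.comp (fl1 (M n)) (x n).z).left _) ((Fn.rfl _).pair (x n).fn_θ_ln)
    have := a n
    show ch (x n).P (x n).z (x n).θ - ch (x n).P (x n).z (fun ω => ((x n).ln ω, (x n).θ ω)) - 0 ≤ _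
    linarith
  · exact ch_anti (x n).fn_θ_ln

theorem DS0.ds {N : ℕ} {x : ℕ → Cfg N} {M : ℕ → ℕ} (h : DS0 x M) :
    DS (fun n => (x n).P) (fun n => geo (x n)) M :=
  Le.of_le fun n => (ch_zero ((((x n).fn_X_ln (M n)).trans (h.sep n)).left _)).le

theorem mu0_of_top {N : ℕ} (h : TopMu N) : Mu0 N := fun x M hx =>
  (h _ _ _ M hx.bs hx.ds).mono (Eventually.of_forall fun n => ch_anti fun a ha b hb e =>
    Prod.ext (congrArg Prod.fst e :) (Prod.ext (hx.grid n a ha b hb (congrArg (·.2.1) e :))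
      (congrArg (·.2.2) e :)))

end Pool.Agent.MP_5168f5_an.R4
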