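import Pool.Agent.MP_5168f5_an.R4.Defs

/-! Kakeya sets in four dimensions: statements of the shared kit. -/

namespace Pool.Agent.MP_5168f5_an.R4

open H19 H17S H17F Filter

/-! ### Finite inequalities -/

/-- Information and events, telescoping, common information. -/
structure KF1 : Prop where
  miE : ∀ {Ω α β γ : Type} (P : FP Ω) (E : Ω → Prop) (F : Ω → α) (G : Ω → β) (K : Ω → γ),
    pb P E * mi (cE P E) F G K ≤ mi P F G K + lg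
  tel : ∀ {Ω α β γ δ : Type} (P : FP Ω) (A : ℕ → Ω → α) (B : ℕ → Ω → β) (C : Ω → γ) (Z : Ω → δ)
    (a b : ℕ), a ≤ b → (∀ k, a ≤ k → k < b → Fn P (B k) (fun ω => (B (k + 1) ω, C ω)) ∧
      Fn P (A k) fun ω => (B (k + 1) ω, C ω)) →
    ∑ k ∈ Finset.Ico a b, mi P (A k) Z (fun ω => (B k ω, C ω)) ≤
      mi P (B b) Z fun ω => (B a ω, C ω)
  han : ∀ {Ω α β γ δ : Type} (P : FP Ω) (A : Ω → α) (B : Ω → β) (C : Ω → γ) (G : Ω → δ),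
    2 * ch P (fun ω => (A ω, B ω, C ω)) G ≤ ch P (fun ω => (A ω, B ω)) G +
      ch P (fun ω => (B ω, C ω)) G + ch P (fun ω => (A ω, C ω)) G
  ci : ∀ {Ω α β γ δ : Type} (P : FP Ω) (F : Ω → γ) (A : Ω → α) (B : Ω → β) (W : Ω → δ),
    ch P F W ≤ ch P F (fun ω => (A ω, W ω)) + ch P F (fun ω => (B ω, W ω)) + mi P A B W

/-- Copies. -/
structure KF2 : Prop where
  copy : ∀ {Ω α β γ δ : Type} (P : FP Ω) (φ : Ω → δ) (F : Ω → α) (G : Ω → β) (K : Ω → γ),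
    Fn P φ K → mi (glue P P φ φ) (fun v => G v.2) (fun v => F v.1) (fun v => K v.1) = 0
  cor : ∀ {Ω α β γ : Type} (P : FP Ω) (Y : Ω → α) (l : Ω → β) (Θ : Ω → γ),
    2 * ch P Y (fun ω => (l ω, Θ ω)) - ch P Y Θ ≤
      ch (glue P P (fun ω => (Y ω, Θ ω)) fun ω => (Y ω, Θ ω)) (fun v => Y v.1) fun v =>
        (l v.1, l v.2, Θ v.1)
  lift : ∀ {Ω α β γ γ' δ : Type} (P : FP Ω) (c : Ω → δ) (lam : Ω → α) (F : Ω → β) (G : Ω → γ)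
    (G' : Ω → γ'), Fn P c (fun ω => (F ω, G ω)) → Fn P G' c →
    mi (glue P P c c) (fun v => lam v.2) (fun v => F v.1) (fun v => G v.1) ≤
      mi P lam c G' + ch P G' G
  join : ∀ {Ω α α' β γ γ' δ : Type} (P : FP Ω) (c : Ω → δ) (S : Ω → α') (lam : Ω → α) (F : Ω → β)
    (G : Ω → γ) (G' : Ω → γ'), Fn P c (fun ω => (F ω, S ω, G ω)) → Fn P G' c →
    mi (glue P P c c) (fun v => (S v.1, lam v.2)) (fun v => F v.1) (fun v => G v.1) ≤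
      mi P S F G + mi P lam c G' + ch P G' fun ω => (S ω, G ω)

/-! ### Spread and short lists -/

/-- Linear entropy: on an event, a copy avoids every short list. -/
def Spread : Prop := ∀ {Ω α β : ℕ → Type} (P : ∀ n, FP (Ω n)) (A : ∀ n, Ω n → α n)
  (B : ∀ n, Ω n → β n) (M : ℕ → ℕ) (C : ℝ), Big M →
  (∀ᶠ n in UF, Det (P n) (A n) (B n) (Real.exp (C * M n))) →
  (¬Sm M fun n => ch (P n) (A n) (B n)) → ∃ E : ∀ n, Ω n → Prop, Pos P E ∧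
    ∀ (T : ∀ n, Ω n → Finset (α n)) (L : ℕ → ℝ), Sub M L →
      (∀ᶠ n in UF, ∀ ω, ((T n ω).card : ℝ) ≤ L n) →
      Whp (fun n => glue (cE (P n) (E n)) (cE (P n) (E n)) (B n) (B n)) fun n v =>
        A n v.2 ∉ T n v.1

/-- Small entropy: a short list. -/
def Lst : Prop := ∀ {Ω α β : ℕ → Type} (P : ∀ n, FP (Ω n)) (A : ∀ n, Ω n → α n)
  (B : ∀ n, Ω n → β n) (M : ℕ → ℕ), Big M → (Sm M fun n => ch (P n) (A n) (B n)) →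
  ∃ (L : ℕ → ℝ) (T : ∀ n, β n → Finset (α n)), Sub M L ∧ (∀ n b, ((T n b).card : ℝ) ≤ L n) ∧
    Whp P fun n ω => A n ω ∈ T n (B n ω)

/-! ### Classes -/

/-- Properties of variables on the base that define classes. -/
structure KC1 : Prop where
  sure : ∀ {Ω : ℕ → Type} (E : ∀ n, Ω n → Prop),
    Cl fun X : Mb Ω => ∀ᶠ n in UF, ∀ v ∈ (X n).Q.S, E n ((X n).ρ v)
  fn : ∀ {Ω α β : ℕ → Type} (F : ∀ n, Ω n → α n) (G : ∀ n, Ω n → β n),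
    Cl fun X : Mb Ω => ∀ᶠ n in UF,
      Fn (X n).Q (fun v => F n ((X n).ρ v)) fun v => G n ((X n).ρ v)
  whp : ∀ {Ω : ℕ → Type} (E : ∀ n, Ω n → Prop),
    Cl fun X : Mb Ω => Whp X.P fun n v => E n ((X n).ρ v)
  copy : ∀ {Ω β : ℕ → Type} (φ : ∀ n, Ω n → β n) (E : ∀ n, Ω n → Ω n → Prop),
    Cl fun X : Mb Ω => Whp (fun n => glue (X n).Q (X n).Q (fun v => φ n ((X n).ρ v))
      fun v => φ n ((X n).ρ v)) fun n v => E n ((X n).ρ v.1) ((X n).ρ v.2)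
  sm : ∀ {Ω α β : ℕ → Type} (M : ℕ → ℕ) (F : ∀ n, Ω n → α n) (G : ∀ n, Ω n → β n),
    Cl fun X : Mb Ω => Sm M fun n =>
      ch (X n).Q (fun v => F n ((X n).ρ v)) fun v => G n ((X n).ρ v)
  smi : ∀ {Ω α β γ : ℕ → Type} (M : ℕ → ℕ) (F : ∀ n, Ω n → α n) (G : ∀ n, Ω n → β n)
    (H : ∀ n, Ω n → γ n), Big M → Cl fun X : Mb Ω => Sm M fun n =>
      mi (X n).Q (fun v => F n ((X n).ρ v)) (fun v => G n ((X n).ρ v)) fun v => H n ((X n).ρ v)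
  full : ∀ {Ω α β : ℕ → Type} (K : Mb Ω → Prop) (M : ℕ → ℕ) (F : ∀ n, Ω n → α n)
    (G : ∀ n, Ω n → β n) (D : ℕ → ℝ) (C : ℝ), Big M → Cl K →
    (∀ X, K X → ∀ᶠ n in UF,
      Det (X n).Q (fun v => F n ((X n).ρ v)) (fun v => G n ((X n).ρ v)) (Real.exp (C * M n))) →
    (∀ X, K X → Le M (fun n => ch (X n).Q (fun v => F n ((X n).ρ v)) fun v => G n ((X n).ρ v)) D) →
    Cl fun X : Mb Ω => K X ∧
      Le M D fun n => ch (X n).Q (fun v => F n ((X n).ρ v)) fun v => G n ((X n).ρ v)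

/-- Properties of systems that define classes. -/
structure KC2 : Prop where
  bs : ∀ {N : ℕ} {Ω : ℕ → Type} (g : Gs N Ω) (M : ℕ → ℕ), Cl fun X : Mb Ω => Bs X.P (X.G g) M
  ds : ∀ {N : ℕ} {Ω : ℕ → Type} (g : Gs N Ω) (M : ℕ → ℕ), Cl fun X : Mb Ω => DS X.P (X.G g) M
  fat : ∀ {N : ℕ} {Ω : ℕ → Type} (g : Gs N Ω) (M : ℕ → ℕ) (i : Fin N) (r : ℕ → ℕ), Big M →
    Cl fun X : Mb Ω => Fat X.P (X.G g) M i r
  hk : ∀ {N : ℕ} {Ω Λ : ℕ → Type} (g : Gs N Ω) (M j : ℕ → ℕ) (lam : ∀ n, Ω n → Λ n), Big M →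
    Cl fun X : Mb Ω => Hk X.P (X.G g) M j fun n v => lam n ((X n).ρ v)
  lab : ∀ {N : ℕ} {Ω Λ : ℕ → Type} (g : Gs N Ω) (M j : ℕ → ℕ) (lam : ∀ n, Ω n → Λ n), Big M →
    Cl fun X : Mb Ω => Lab X.P (X.G g) M j fun n v => lam n ((X n).ρ v)
  fam : ∀ {N : ℕ} {Ω : ℕ → Type} {I : Type} (g : Gs N Ω) (M : ℕ → ℕ) (s : ∀ n, I → Shp (Ω n))
    (F : ∀ n, Fam (s n)) (p : ℕ → I → ℕ), Big M →
    Cl fun X : Mb Ω => FamOK X.P (X.G g) M (fun n => (F n).pull (X n).ρ) p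

/-- A subclass on which the entropies of a chain of variables are the same for all members. -/
def Exact : Prop := ∀ {Ω α β : ℕ → Type} (K : Mb Ω → Prop) (M J : ℕ → ℕ)
  (A : ∀ n, ℕ → Ω n → α n) (B : ∀ n, Ω n → β n) (c C : ℝ) (X₀ : Mb Ω), Cl K → Big M → K X₀ →
  0 ≤ c → (∀ n, (J n : ℝ) ≤ C * M n) →
  (∀ X, K X → ∀ᶠ n in UF, ∀ j < J n,
    Fn (X n).Q (fun v => A n j ((X n).ρ v))
      (fun v => (A n (j + 1) ((X n).ρ v), B n ((X n).ρ v))) ∧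
    ch (X n).Q (fun v => A n (j + 1) ((X n).ρ v))
      (fun v => (A n j ((X n).ρ v), B n ((X n).ρ v))) ≤ c) →
  ∃ (K' : Mb Ω → Prop) (φ : ℕ → ℕ → ℝ), Cl K' ∧ (∃ X, K' X) ∧ (∀ X, K' X → K X) ∧
    (∀ n, φ n 0 = 0 ∧ ∀ j, φ n j ≤ φ n (j + 1) ∧ φ n (j + 1) ≤ φ n j + c ∧ φ n j ≤ φ n (J n)) ∧
    (∀ X, K' X → ∀ a b : ℕ → ℕ, (∀ n, a n ≤ b n ∧ b n ≤ J n) →
      Eqv M (fun n => ch (X n).Q (fun v => A n (b n) ((X n).ρ v)) fun v =>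
        (A n (a n) ((X n).ρ v), B n ((X n).ρ v))) fun n => φ n (b n) - φ n (a n)) ∧
    ((¬Le M (fun n => c * J n) fun n => ch (X₀ n).Q (fun v => A n (J n) ((X₀ n).ρ v)) fun v =>
        (A n 0 ((X₀ n).ρ v), B n ((X₀ n).ρ v))) → ¬Le M (fun n => c * J n) fun n => φ n (J n))

/-- Optimal families exist. -/
def OptE : Prop := ∀ {N : ℕ} {Ω : ℕ → Type} {I : Type} [Finite I] (K : Mb Ω → Prop) (g : Gs N Ω)
  (M : ℕ → ℕ) (s : ∀ n, I → Shp (Ω n)) (p : ℕ → I → ℕ) (C : ℝ), Cl K → Big M →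
  (∀ n i, (s n i).OK (g n)) → (∀ n i, (p n i : ℝ) ≤ C * M n) →
  (∃ (X : Mb Ω) (L : ℕ → ℝ) (d : ∀ n i, (s n i).D), K X ∧ Sub M L ∧
    ∀ᶠ n in UF, ∀ i, ∀ v ∈ (X n).Q.S, (s n i).fit (L n) (d n i) ((X n).ρ v) 0 0) →
  ∃ (Ω' : ℕ → Type) (π : ∀ n, Ω' n → Ω n) (F : ∀ n, Fam fun i => (s n i).pull (π n))
    (K' : Mb Ω' → Prop), Cl K' ∧ (∃ X, K' X) ∧ (∀ X, K' X → K (X.map π)) ∧
      Opt K' (fun n => (g n).pull (π n)) M F p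

/-- Optimality for all labels with small errors on refinements of bounded density. -/
def OptU : Prop := ∀ {N : ℕ} {Ω : ℕ → Type} {I : Type} (K : Mb Ω → Prop) (g : Gs N Ω)
  (M : ℕ → ℕ) (s : ∀ n, I → Shp (Ω n)) (F : ∀ n, Fam (s n)) (p : ℕ → I → ℕ) (X : Mb Ω) (i : I)
  (C ε : ℝ), Cl0 K → Big M → Opt K g M F p → K X → 0 < ε → ∃ δ : ℝ, 0 < δ ∧ ∀ᶠ n in UF,
    ∀ (W Λ : Type) (Q : FP W) (f : W → (X n).W) (lam : W → Λ) (d : W → (s n i).D) (L : ℝ)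
      (j j' τ : ℕ), K31.Dn C Q f (X n).Q → ((X.G g n).pull f).hk Q j lam ≤ δ * M n →
      ((X.G g n).pull f).lk Q lam ≤ δ * M n → 1 ≤ L → L ≤ Real.exp (δ * M n) → Fn Q d lam →
      (∀ v ∈ Q.S, (s n i).fit L (d v) ((X n).ρ (f v)) j τ) → j + ε * M n ≤ j' → j' ≤ M n →
      τ ≤ p n i → (τ : ℝ) ≤ (F n).τ i j' + ε * M n

/-- Passage to a smaller unit. -/
def Down : Prop := ∀ {N : ℕ} {Ω : ℕ → Type} (K : Mb Ω → Prop) (g : Gs N Ω) (M : ℕ → ℕ) (i : Fin N)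
  (η : ℝ) (X : Mb Ω), Cls0 K g M i η → K X → ∃ m : ℕ → ℕ, Big m ∧ Sm M (fun n => m n) ∧
    ∀ R : ℕ → ℕ, (∀ᶠ n in UF, m n ≤ R n ∧ R n ≤ M n) → Cls0 (DnK X.P) (X.G g) R i η ∧
      (BRD K g M i η → Sm M (fun n => R n) →
        ∀ X', DnK X.P X' → BRa X'.P (X'.G (X.G g)) R i η)

/-! ### Systems and labels -/

/-- Heights, contexts, joins. -/
structure KB : Prop where
  inf : ∀ {N : ℕ} {Ω Λ : ℕ → Type} (P : ∀ n, FP (Ω n)) (g : Gs N Ω) (M j : ℕ → ℕ)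
    (lam : ∀ n, Ω n → Λ n), Bs P g M → Hk P g M j lam →
    Sm M fun n => mi (P n) (g n).z (fun ω => ((g n).ln ω, lam n ω)) fun ω =>
      (fl1 (j n) ((g n).z ω), (g n).θ ω)
  hgt : ∀ {N : ℕ} {Ω Λ : ℕ → Type} (P : ∀ n, FP (Ω n)) (g : Gs N Ω) (M j a b : ℕ → ℕ)
    (lam : ∀ n, Ω n → Λ n), Bs P g M → Hk P g M j lam →
    (∀ n, j n ≤ a n ∧ a n ≤ b n ∧ b n ≤ M n) →
    Le M (fun n => (b n - a n : ℝ) * lg) fun n => ch (P n) (fun ω => fl1 (b n) ((g n).z ω))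
      fun ω => (fl1 (a n) ((g n).z ω), (g n).ln ω, lam n ω)
  coarse : ∀ {N : ℕ} {Ω : ℕ → Type} (P : ∀ n, FP (Ω n)) (g : Gs N Ω) (M M' : ℕ → ℕ),
    Bs P g M → Frac M' M → Bs P g M'
  up : ∀ {N : ℕ} {Ω Λ : ℕ → Type} (P : ∀ n, FP (Ω n)) (g : Gs N Ω) (M j j' : ℕ → ℕ)
    (lam : ∀ n, Ω n → Λ n), (∀ᶠ n in UF, j n ≤ j' n) → Hk P g M j lam → Hk P g M j' lam
  ctx : ∀ {N : ℕ} {Ω Λ : ℕ → Type} (P : ∀ n, FP (Ω n)) (g : Gs N Ω) (M : ℕ → ℕ)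
    (κ : ∀ n, Ω n → Λ n), Bs P g M → Hk P g M (fun _ => 0) κ →
    Bs P (fun n => (g n).ctx (κ n)) M
  brc : ∀ {N : ℕ} {Ω Λ Y : ℕ → Type} (P : ∀ n, FP (Ω n)) (g : Gs N Ω) (M : ℕ → ℕ)
    (κ : ∀ n, Ω n → Λ n) (y : ∀ n, Ω n → Y n) (i : Fin N) (η : ℝ), BR P g M i η →
    (Sm M fun n => (g n).lk (P n) (κ n)) →
    (Sm M fun n => ch (P n) (y n) fun ω => (κ n ω, (g n).y ω)) →
    BR P (fun n => (g n).setY (y n)) M i η
  pair : ∀ {N : ℕ} {Ω : Type} {α β : Type} (P : FP Ω) (g : Geo N Ω) (j : ℕ) (lam : Ω → α)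
    (κ : Ω → β), g.hk P j (fun ω => (lam ω, κ ω)) = g.hk P j κ + (g.ctx κ).hk P j lam ∧
      g.lk P (fun ω => (lam ω, κ ω)) = g.lk P κ + (g.ctx κ).lk P lam
  add : ∀ {N : ℕ} {Ω : Type} {α β : Type} (P : FP Ω) (g : Geo N Ω) (j : ℕ) (lam : Ω → α)
    (κ : Ω → β),
    g.hk P j (fun ω => (lam ω, κ ω)) ≤ g.hk P j κ + ch P lam (fun ω => (κ ω, g.win j ω)) ∧
      g.lk P (fun ω => (lam ω, κ ω)) ≤ g.lk P κ + ch P lam fun ω => (κ ω, g.y ω)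
  fatB : ∀ {N : ℕ} {Ω : ℕ → Type} (P : ∀ n, FP (Ω n)) (g : Gs N Ω) (M : ℕ → ℕ)
    (r : ℕ → Fin N → ℕ), Bs P g M → Bs P (fun n => (g n).fat (r n)) M ∧
      (∀ i, Fat P (fun n => (g n).fat (r n)) M i fun n => r n i) ∧
      ((∀ i, Fat P g M i fun n => r n i) → Sm M fun n => ch (P n) ((g n).fp (r n)) (g n).y)

/-- An affine image of a system in a window is a system. -/
def BsAff : Prop := ∀ {N N' : ℕ} {Ω K Y : ℕ → Type} (P : ∀ n, FP (Ω n)) (g : Gs N Ω)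
  (M M' j : ℕ → ℕ) (A : ∀ n, Ω n → Matrix (Fin N') (Fin N) ℝ) (c d : ∀ n, Ω n → V N)
  (κ : ∀ n, Ω n → K n) (y : ∀ n, Ω n → Y n) (L : ℕ → ℝ), Bs P g M → Hk P g M j κ → Frac M' M →
  (∀ n, j n + M' n ≤ M n) → Sub M L →
  (∀ᶠ n in UF, Fn (P n) (fun ω => ((g n).θ ω, fl1 (j n) ((g n).z ω), A n ω, c n ω, d n ω)) (κ n) ∧
    Fn (P n) (fun ω => ((g n).z ω, κ n ω)) (y n) ∧ ∀ ω ∈ (P n).S, ∀ i,
      |((g n).aff (j n) (A n) (c n) (d n) (κ n) (y n)).a ω i| ≤ L n ∧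
      |((g n).aff (j n) (A n) (c n) (d n) (κ n) (y n)).e ω i| ≤ L n) →
  Bs P (fun n => (g n).aff (j n) (A n) (c n) (d n) (κ n) (y n)) M'

/-- Points and windows of the affine image; labels of a derived system `g'` give labels. -/
structure KA : Prop where
  lt : ∀ {N N' : ℕ} {Ω K Y : Type} (g : Geo N Ω) (j : ℕ) (A : Ω → Matrix (Fin N') (Fin N) ℝ)
    (c d : Ω → V N) (κ : Ω → K) (y : Ω → Y) (ω : Ω) (t : ℝ),
    (g.aff j A c d κ y).lt t ω =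
      (A ω).mulVec (g.lt (g.z0 j ω + ((2 : ℝ) ^ j)⁻¹ * t) ω - c ω - t • d ω)
  z : ∀ {N : ℕ} {Ω : Type} (g : Geo N Ω) (j : ℕ) (ω : Ω),
    g.z0 j ω + ((2 : ℝ) ^ j)⁻¹ * Int.fract (2 ^ j * g.z ω) = g.z ω
  fl : ∀ (j i : ℕ) (z t : ℝ), fl1 (j + i) t = fl1 (j + i) z ↔
    fl1 j t = fl1 j z ∧ fl1 i (Int.fract (2 ^ j * t)) = fl1 i (Int.fract (2 ^ j * z))
  fn : ∀ {N N' : ℕ} {Ω K Y : Type} (P : FP Ω) (g : Geo N Ω) (j i : ℕ)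
    (A : Ω → Matrix (Fin N') (Fin N) ℝ) (c d : Ω → V N) (κ : Ω → K) (y : Ω → Y),
    Fn P (fun ω => (A ω, c ω, d ω)) κ → Fn P y (fun ω => (g.core ω, κ ω)) →
    Fn P (g.aff j A c d κ y).core (fun ω => (g.core ω, κ ω)) ∧
      Fn P ((g.aff j A c d κ y).win i) fun ω => (κ ω, g.win (j + i) ω)
  lab : ∀ {N N' : ℕ} {Ω α β : Type} (P : FP Ω) (g : Geo N Ω) (g' : Geo N' Ω) (j j' : ℕ)
    (κ : Ω → α) (lam : Ω → β), Fn P g'.core (fun ω => (g.core ω, κ ω)) →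
    Fn P (g'.win j') (fun ω => (κ ω, g.win j ω)) →
    (g.pull Prod.fst).hk (glue P P g'.core g'.core) j (fun v => (κ v.1, lam v.2)) ≤
        g.hk P j κ + g'.hk P j' lam ∧
      (g.pull Prod.fst).lk (glue P P g'.core g'.core) (fun v => (κ v.1, lam v.2)) ≤
        g.lk P κ + g'.lk P lam + ch P g'.y fun ω => (κ ω, g.y ω)

/-- A thin shape for a derived system `g'` is a thin shape for `g`. -/
def ThinLift : Prop := ∀ {N N' : ℕ} {Ω Λ : ℕ → Type} (P : ∀ n, FP (Ω n)) (g : Gs N Ω)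
  (g' : Gs N' Ω) (M j j' τ : ℕ → ℕ) (κ : ∀ n, Ω n → Λ n) (s : ∀ n, Shp (Ω n)),
  (∀ n, (s n).OK (g' n)) → Lab P g M j κ →
  (∀ᶠ n in UF, Fn (P n) (g' n).core (fun ω => ((g n).core ω, κ n ω)) ∧
    Fn (P n) ((g' n).win (j' n)) fun ω => (κ n ω, (g n).win (j n) ω)) →
  (Sm M fun n => ch (P n) (g' n).y fun ω => (κ n ω, (g n).y ω)) → Thin P g' M s j' τ →
  ∃ (Λ' : ℕ → Type) (lam : ∀ n, Ω n × Ω n → Λ' n) (d : ∀ n, Ω n × Ω n → (s n).D) (L : ℕ → ℝ),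
    Lab (fun n => glue (P n) (P n) (g' n).core (g' n).core) (fun n => (g n).pull Prod.fst) M j
      lam ∧ Sub M L ∧ ∀ᶠ n in UF,
      Fn (glue (P n) (P n) (g' n).core (g' n).core) (fun v => (d n v, κ n v.1)) (lam n) ∧
      ∀ v ∈ (glue (P n) (P n) (g' n).core (g' n).core).S,
        (s n).fit (L n) (d n v) v.1 (j' n) (τ n)

/-- Planes. -/
structure KP : Prop where
  ok : ∀ {N : ℕ} {Ω : Type} (g : Geo N Ω) (S : Finset (Fin N)) (k : Fin N), (g.pl S k).OK g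
  anti : ∀ {N : ℕ} {Ω : Type} (g : Geo N Ω) (S : Finset (Fin N)) (k : Fin N) (L : ℝ)
    (d : ℝ × ℝ × V N) (ω : Ω) (j τ τ' : ℕ), τ' ≤ τ → (g.pl S k).fit L d ω j τ →
    (g.pl S k).fit L d ω j τ'
  iff : ∀ {N : ℕ} {Ω : Type} (g : Geo N Ω) (S : Finset (Fin N)) (k : Fin N) (L : ℝ)
    (d : ℝ × ℝ × V N) (ω : Ω) (j τ : ℕ), ((g.pl S k).fit L d ω j τ →
      |g.pt ω k - d.1 - d.2.1 * g.z ω - ∑ i, d.2.2 i * g.pt ω i| ≤ L / 2 ^ τ ∧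
      |g.e ω k - d.2.1 - ∑ i, d.2.2 i * g.e ω i| ≤ 4 * L * 2 ^ j / 2 ^ τ) ∧
    (|d.2.1| ≤ L → (∀ i, |d.2.2 i| ≤ L ∧ (i ∉ S → d.2.2 i = 0)) →
      |g.pt ω k - d.1 - d.2.1 * g.z ω - ∑ i, d.2.2 i * g.pt ω i| ≤ L / 2 ^ τ →
      |g.e ω k - d.2.1 - ∑ i, d.2.2 i * g.e ω i| ≤ L * 2 ^ j / 2 ^ τ →
      (g.pl S k).fit (2 * L) d ω j τ)
  zero : ∀ {N : ℕ} {Ω : Type} (P : FP Ω) (g : Geo N Ω) (S : Finset (Fin N)) (k : Fin N) (L : ℝ),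
    g.Bx P L → ∀ ω ∈ P.S, (g.pl S k).fit (2 * L) (0, 0, 0) ω 0 0
  grow : ∀ {N : ℕ} {Ω : ℕ → Type} (P : ∀ n, FP (Ω n)) (g : Gs N Ω) (M j i τ p : ℕ → ℕ)
    (S : Finset (Fin N)) (k : Fin N), Bs P g M → Fat P g M k p → (∀ m ∈ S, Fat P g M m p) →
    Thin P g M (fun n => (g n).pl S k) j τ →
    Thin P g M (fun n => (g n).pl S k) (fun n => j n + i n) fun n => min (p n) (τ n + i n)

/-! ### Broadness -/

/-- Copies given a variable without leak have separated slopes. -/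
def Sep : Prop := ∀ {N : ℕ} {Ω Φ : ℕ → Type} (K : Mb Ω → Prop) (g : Gs N Ω) (M : ℕ → ℕ)
  (i : Fin N) (η : ℝ) (X : Mb Ω) (φ : ∀ n, (X n).W → Φ n), Cls0 K g M i η → K X →
  (Sm M fun n => (X.G g n).lk (X n).Q (φ n)) →
  ∃ L, Sub M L ∧ Whp (fun n => glue (X n).Q (X n).Q (φ n) (φ n)) fun n v =>
    1 ≤ L n * |(X.G g n).e v.1 i - (X.G g n).e v.2 i|

/-- The broad coordinate is full given any label. -/
def XA : Prop := ∀ {N : ℕ} {Ω Λ : ℕ → Type} (K : Mb Ω → Prop) (g : Gs N Ω) (M j a b : ℕ → ℕ)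
  (i : Fin N) (η : ℝ) (X : Mb Ω) (lam : ∀ n, (X n).W → Λ n), Cls0 K g M i η → K X →
  Lab X.P (X.G g) M j lam → Fat X.P (X.G g) M i b → (∀ n, j n ≤ a n ∧ a n ≤ b n ∧ b n ≤ M n) →
  Le M (fun n => (b n - a n : ℝ) * lg) fun n =>
    ch (X n).Q (fun v => fl1 (b n) ((X.G g n).pt v i)) fun v =>
      (fl1 (a n) ((X.G g n).pt v i), lam n v, (X.G g n).zt v)

/-- The rate of coordinate `i` given the height and the context is at most `1 - ε₀` in every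
window inside `[lo, hi]`. -/
def NGr {N : ℕ} {Ω : ℕ → Type} (P : ∀ n, FP (Ω n)) (g : Gs N Ω) (M : ℕ → ℕ) (i : Fin N)
    (lo hi : ℕ → ℕ) (ε₀ : ℝ) : Prop :=
  ∀ a b : ℕ → ℕ, (∀ n, lo n ≤ a n ∧ a n ≤ b n ∧ b n ≤ hi n) →
    Le M (fun n => ch (P n) (fun ω => fl1 (b n) ((g n).pt ω i)) fun ω =>
      (fl1 (a n) ((g n).pt ω i), (g n).zt ω)) fun n => (1 - ε₀) * (b n - a n) * lg

/-- One step of planarity: the next digits of the slope are determined by the point. -/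
def PL1 : Prop := ∀ {N : ℕ} {Ω : ℕ → Type} (K : Mb Ω → Prop) (g : Gs N Ω) (M q s r : ℕ → ℕ)
  (i : Fin N) (ε₀ ε : ℝ) (X : Mb Ω), Cl0 K → (∀ X, K X → Bs X.P (X.G g) M) → K X → 0 < ε →
  (∀ᶠ n in UF, q n + s n ≤ M n ∧ r n + ε * M n ≤ ε₀ * s n) →
  (∀ X, K X → Le M (fun n => ch (X n).Q (fun v => fl1 (q n + s n) ((X.G g n).pt v i)) fun v =>
      (fl1 (q n) ((X.G g n).pt v i), (X.G g n).zt v)) fun n => (1 - ε₀) * s n * lg) →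
  Sm M fun n => ch (X n).Q (fun v => fl1 (q n + r n) ((X.G g n).e v i)) fun v =>
    (fl1 (q n) ((X.G g n).e v i), fl1 (q n + s n) ((X.G g n).pt v i), (X.G g n).zt v)

/-- Planarity: the slope is determined by the point. -/
def PL : Prop := ∀ {N : ℕ} {Ω : ℕ → Type} (K : Mb Ω → Prop) (g : Gs N Ω)
  (M lo hi q s : ℕ → ℕ) (i : Fin N) (ε₀ : ℝ) (X : Mb Ω), Cl0 K → (∀ X, K X → Bs X.P (X.G g) M) →
  K X → 0 < ε₀ → Frac s M → (∀ n, lo n ≤ q n ∧ q n + s n ≤ hi n ∧ hi n ≤ M n) →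
  (∀ X, K X → NGr X.P (X.G g) M i lo hi ε₀) →
  Sm M fun n => ch (X n).Q (fun v => fl1 (q n) ((X.G g n).e v i)) fun v =>
    (fl1 (lo n) ((X.G g n).e v i), fl1 (q n + s n) ((X.G g n).pt v i), (X.G g n).zt v)

/-! ### Linear broadness from extremality -/

/-- Finite facts on `G`. -/
structure KG0 : Prop where
  bd : ∀ {N : ℕ} {Ω : Type} (P : FP Ω) (g : Geo N Ω) (i : Fin N) (M : ℕ),
    0 ≤ g.G P i M ∧ g.G P i M ≤ M * lg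
  tail : ∀ {N : ℕ} {Ω : Type} (P : FP Ω) (g : Geo N Ω) (i : Fin N) (a M : ℕ), a ≤ M →
    g.G P i M ≤ g.G P i a + (M - a : ℝ) * lg
  head : ∀ {N : ℕ} {Ω : Type} (P : FP Ω) (g : Geo N Ω) (i : Fin N) (a : ℕ),
    g.G P i a ≤ ch P (fun ω => fl1 a (g.e ω i)) g.y
  ev : ∀ {N : ℕ} {Ω : Type} (P : FP Ω) (g : Geo N Ω) (i : Fin N) (M : ℕ) (E : Ω → Prop),
    g.G P i M ≤ lg + pb P E * g.G (cE P E) i M + (1 - pb P E) * g.G (cE P fun ω => ¬E ω) i M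
  sum : ∀ {N : ℕ} {Ω : Type} (P : FP Ω) (g : Geo N Ω) (M : ℕ),
    ch P (fun ω => fl M (g.e ω)) (fun ω => (fl 0 (g.e ω), g.y ω)) ≤ ∑ i, g.G P i M

/-- The tube of width `2^{-j}` rescaled to unit size. -/
noncomputable abbrev Geo.zm {N : ℕ} {Ω : Type} (g : Geo N Ω) (j : ℕ) : Geo N Ω :=
  ⟨g.T × Z N × Z N, g.Y × Z N × Z N, fun ω => fr j (g.a ω), fun ω => fr j (g.e ω), g.z,
    fun ω => (g.θ ω, g.X j ω), fun ω => (g.y ω, g.X j ω)⟩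

/-- The rescaled tube is a system, and `G` is subadditive. -/
def Zm : Prop := ∀ {N : ℕ} {Ω : ℕ → Type} (P : ∀ n, FP (Ω n)) (g : Gs N Ω) (M j m : ℕ → ℕ)
  (i : Fin N), Bs P g M → (∀ n, j n + m n = M n) → Frac m M →
  Bs P (fun n => (g n).zm (j n)) m ∧ (DS P g M → DS P (fun n => (g n).zm (j n)) m) ∧
    Le M (fun n => ((g n).fat fun _ => M n).G (P n) i (M n)) fun n =>
      ((g n).fat fun _ => M n).G (P n) i (j n) + (((g n).zm (j n)).fat fun _ => m n).G (P n) i (m n)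

def SBR : Prop := ∀ N : ℕ, NoBR N → Mu0 (N + 1)

/-! ### Rows -/

def OfKC2 : Prop := KC1 → KC2
def OfOptE : Prop := KF2 → KC2 → OptE
def OfDown : Prop := KB → Down
def OfBsAff : Prop := KB → BsAff
def OfKA : Prop := KF2 → KA
def OfThinLift : Prop := KA → ThinLift
def OfKP : Prop := KB → KP
def OfSep : Prop := KF2 → Sep
def OfXA : Prop := KF2 → KB → Sep → XA
def OfPL1 : Prop := KF2 → KB → Spread → PL1
def OfPL : Prop := PL1 → PL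
def OfKG0 : Prop := KF1 → KG0
def OfZm : Prop := KF1 → KB → Zm

end Pool.Agent.MP_5168f5_an.R4
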