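import Pool.Agent.MP_5168f5_an.R4.F0d
import Pool.Agent.MP_5168f5_an.R4.SpecK
import Pool.Agent.MP_5168f5_an.R4.RedTop

/-! If there is no broad class, then the point determines the direction. -/

namespace Pool.Agent.MP_5168f5_an.R4

open H19 H17S H17F Filter K31

namespace F0

variable {N : ℕ} {Ω : ℕ → Type} {g : Gs N Ω} {M : ℕ → ℕ} {L : ℕ → ℝ} {i : Fin N}

/-- The level `c M`, cut at `M`. -/
noncomputable def lvl (M : ℕ → ℕ) (c : ℝ) (n : ℕ) : ℕ := min (M n) ⌊c * M n⌋₊

theorem lvl_eqv (hM : Big M) {c : ℝ} (h0 : 0 ≤ c) (h1 : c ≤ 1) :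
    Eqv M (fun n => lvl M c n) fun n => c * M n := by
  have e : ∀ n, lvl M c n = ⌊c * M n⌋₊ := fun n => min_eq_right
    (Nat.floor_le_of_le (mul_le_of_le_one_left (Nat.cast_nonneg _) h1))
  simp only [e]
  exact ⟨Le.of_le fun n => Nat.floor_le (by positivity), (hM.sm 1).of_sub
    (Eventually.of_forall fun n => by linarith [Nat.lt_floor_add_one (c * M n)])⟩

theorem lvl_lip {a b : ℝ} (h : a ≤ b) (n : ℕ) :
    lvl M a n ≤ lvl M b n ∧ (lvl M b n - lvl M a n : ℝ) ≤ (b - a) * M n + 1 := by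
  have m0 : (0 : ℝ) ≤ M n := Nat.cast_nonneg _
  have h1 := mul_le_mul_of_nonneg_right h m0
  refine ⟨min_le_min le_rfl (Nat.floor_le_floor h1), ?_⟩
  have h2 := Nat.lt_floor_add_one (a * M n)
  have h3 : (0 : ℝ) ≤ ⌊a * M n⌋₊ := Nat.cast_nonneg _
  have h4 : (⌊b * M n⌋₊ : ℝ) ≤ max (b * M n) 0 := by
    rcases le_total (b * M n) 0 with e | e
    · rw [Nat.floor_of_nonpos e, max_eq_right e, Nat.cast_zero]
    · exact (Nat.floor_le e).trans (le_max_left _ _)
  have h5 := (sub_mul b a (M n : ℝ)).ge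
  have h6 : (⌊b * M n⌋₊ : ℝ) ≤ (b - a) * M n + 1 + ⌊a * M n⌋₊ :=
    h4.trans (max_le (by linarith) (by linarith))
  simp only [lvl, Nat.cast_min]
  rcases le_total (M n : ℝ) ⌊a * M n⌋₊ with e | e
  · rw [min_eq_left e]; linarith [min_le_left (M n : ℝ) ⌊b * M n⌋₊]
  · rw [min_eq_right e]; linarith [min_le_right (M n : ℝ) ⌊b * M n⌋₊]

theorem zoom_bs (hM : Big M) {X : Mb Ω} (h : K0 g M L X) {j m : ℕ → ℕ} (e : ∀ n, j n + m n = M n)
    (f : Frac m M) : Bs X.P (X.G fun n => (tz (g n) (j n)).fat fun _ => m n) m ∧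
      DS X.P (X.G fun n => tz (g n) (j n)) m := by
  obtain ⟨h1, h2, h3, h4⟩ := h
  refine ⟨⟨hM.frac f, ⟨fun _ => 1, (hM.frac f).sub le_rfl, h1.mono fun n a =>
    tz_bx (X.G g n) (X n).Q a (j n) _⟩, Le.frac (h2.mono (Eventually.of_forall fun n =>
      tz_inf (X.G g n) (X n).Q (j n))) f, Le.frac (h3.of2 h2 (Eventually.of_forall fun n => ?_)) f⟩,
    Le.frac (h4.mono (Eventually.of_forall fun n => ?_)) f⟩
  · have := tz_hgt (X.G g n) (X n).Q (j n) (f.1 n)
    change m n * lg - ch (X n).Q (fun ω => fl1 (m n) ((X.G g n).z ω)) (tz (X.G g n) (j n)).θ ≤ _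
    linarith
  · have := tz_ds (X.G g n) (X n).Q (j n) (m n)
    rw [e] at this
    exact this

theorem zoom_ch (hM : Big M) {X : Mb Ω} (h : K0 g M L X) {j m α β : ℕ → ℕ}
    (e : ∀ n, j n + m n = M n) (hab : ∀ n, α n ≤ β n) :
    Le M (fun n => φ g M i n (X n) (j n + β n) - φ g M i n (X n) (j n + α n)) fun n =>
      ch (X n).Q (fun v => fl1 (β n) ((tz (X.G g n) (j n)).e v i)) fun v =>
        (fl (α n) ((tz (X.G g n) (j n)).e v), (tz (X.G g n) (j n)).fp (fun _ => m n) v) := by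
  refine (hM.sm (10 * N)).of_sub (h.1.mono fun n a => ?_)
  have h1 := tz_Gp (X.G g n) (X n).Q (j := j n) (m := m n) (L := L n) (by rw [e]; exact a) i (hab n)
  rw [e] at h1
  have h2 := Gp_le_ch ((tz (X.G g n) (j n)).fat fun _ => m n) (X n).Q i (hab n)
  have h3 := Gp_add ((X.G g n).fat fun _ => M n) (X n).Q i (Nat.zero_le (j n + α n))
    (Nat.add_le_add_left (hab n) (j n))
  have h4 : ∀ k, φ g M i n (X n) k = Gp ((X.G g n).fat fun _ => M n) (X n).Q i 0 k := fun _ => rfl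
  rw [h4, h4]
  linarith

theorem broad (hM : Big M) {X₀ : Mb Ω} (h0 : K0 g M L X₀)
    (hφ : ¬Sm M fun n => φ g M i n (X₀ n) (M n)) : ∃ (K : Mb Ω → Prop) (j m : ℕ → ℕ) (η : ℝ),
      Cls K (fun n => (tz (g n) (j n)).fat fun _ => m n) m i η ∧
      BRD K (fun n => (tz (g n) (j n)).fat fun _ => m n) m i η ∧
      ∀ X, K X → DS X.P (X.G fun n => tz (g n) (j n)) m := by
  obtain ⟨K, Y, cl, hY, k0, top, ex⟩ := ex_exact (i := i) hM h0
  choose s hs using fun c => ex_rate hM (fun n => φ g M i n (Y n) (lvl M c n)) 1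
    (Eventually.of_forall fun n => φ_bd n _ (min_le_left _ _))
  have l0 := lg_pos
  have lip : ∀ a b, a ≤ b → 0 ≤ s b / lg - s a / lg ∧ s b / lg - s a / lg ≤ b - a := by
    intro a b h
    rw [← sub_div, div_le_iff₀ l0]
    refine ⟨div_nonneg (sub_nonneg.2 (Le.num hM ((hs a).2.of2 (hs b).1
      (Eventually.of_forall fun n => ?_)))) l0.le, Le.num hM ((hs b).2.of3 (hs a).1 (hM.sm lg)
      (Eventually.of_forall fun n => ?_))⟩
    · linarith [(φ_lip (g := g) (M := M) (i := i) n (Y n) (lvl_lip (M := M) h n).1).1]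
    · have := (φ_lip (g := g) (M := M) (i := i) n (Y n) (lvl_lip (M := M) h n).1).2
      nlinarith [mul_le_mul_of_nonneg_right (lvl_lip (M := M) h n).2 l0.le]
  have pos : 0 < s 1 / lg - s 0 / lg := by
    obtain ⟨ε, hε, e⟩ := not_Le hφ
    have a1 : ε ≤ s 1 := Le.num hM (top.of2 (hs 1).1 (e.mono fun n u => by
      simp only [lvl, one_mul, Nat.floor_natCast, min_self]; linarith))
    have a0 : s 0 ≤ 0 := Le.num hM ((hs 0).2.of_sub (Eventually.of_forall fun n => by
      simp [lvl, φ, Gp]))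
    rw [← sub_div]; exact div_pos (by linarith) l0
  obtain ⟨a, a0, a1, gr, fine⟩ := ex_start lip (half_pos pos) (half_lt_self pos)
  set η := (s 1 / lg - s 0 / lg) / 2 with hη
  have η0 : 0 < η := half_pos pos
  set m : ℕ → ℕ := fun n => M n - lvl M a n with hm
  have e : ∀ n, lvl M a n + m n = M n := fun n => Nat.add_sub_cancel' (min_le_left _ _)
  have e' : ∀ n, (lvl M a n : ℝ) + m n = M n := fun n => by exact_mod_cast e n
  have ja := lvl_eqv hM a0 a1.le
  have f : Frac m M := ⟨fun n => Nat.sub_le _ _, (1 - a) / 2, by linarith,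
    (ja.1 ((1 - a) / 2) (by linarith)).mono fun n u => by linarith [e' n]⟩
  have rate : ∀ γ : ℕ → ℕ, (∀ n, γ n ≤ m n) → ∃ c : ℝ, Eqv M (fun n => γ n) (fun n => c * M n) ∧
      0 ≤ c ∧ a + c ≤ 1 ∧ ∀ X, K X →
        Eqv M (fun n => φ g M i n (X n) (lvl M a n + γ n)) fun n => s (a + c) * M n := by
    intro γ hγ
    have hγ' : ∀ n, (γ n : ℝ) ≤ m n := fun n => by exact_mod_cast hγ n
    obtain ⟨c, hc⟩ := ex_rate hM (fun n => γ n) 1 (Eventually.of_forall fun n => by
      rw [Nat.abs_cast, one_mul]; exact_mod_cast (hγ n).trans (f.1 n))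
    have c0 : 0 ≤ c := Le.num hM (hc.1.of_sub (Eventually.of_forall fun n => by
      linarith [Nat.cast_nonneg (α := ℝ) (γ n)]))
    have c1 : a + c ≤ 1 := Le.num hM (hc.2.of2 ja.2 (Eventually.of_forall fun n => by
      linarith [e' n, hγ' n]))
    have jc := lvl_eqv hM (add_nonneg a0 c0) c1
    have d : Sm M fun n => |((lvl M a n + γ n : ℕ) - lvl M (a + c) n : ℝ)| := fun ε hε => by
      filter_upwards [(ja.1.add hc.1).add jc.2 ε hε, (ja.2.add hc.2).add jc.1 ε hε] with n u v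
      rw [zero_add, abs_le]; push_cast; constructor <;> linarith
    refine ⟨c, hc, c0, c1, fun X hX => ?_⟩
    have x := ex X hX (fun n => lvl M a n + γ n) (Eventually.of_forall fun n => by
      have := e n; have := hγ n; omega)
    have y := fun n => abs_le.1
      (φ_abs (g := g) (M := M) (i := i) n (Y n) (lvl M (a + c) n) (lvl M a n + γ n))
    exact ⟨x.1.of3 d (hs _).1 (Eventually.of_forall fun n => by linarith [(y n).2]),
      x.2.of3 d (hs _).2 (Eventually.of_forall fun n => by linarith [(y n).1])⟩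
  refine ⟨K, lvl M a, m, η, ⟨⟨cl.toCl0, η0, fun X hX => (zoom_bs hM (k0 X hX) e f).1,
    fun X hX α hα => ?_⟩, cl.cf, Y, hY⟩, fun ε hε => ?_, fun X hX => (zoom_bs hM (k0 X hX) e f).2⟩
  · obtain ⟨c, hc, c0, c1, h⟩ := rate α hα
    have z := zoom_ch (i := i) hM (k0 X hX) e (α := fun _ => 0) (β := α) fun _ => Nat.zero_le _
    have x := ex X hX (lvl M a) (Eventually.of_forall fun n => min_le_left _ _)
    have r := gr (a + c) (by linarith) c1
    rw [← sub_div, le_div_iff₀ l0] at r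
    refine Le.frac (z.of5 (h X hX).2 x.1 (hs a).1 (hc.1.smul (mul_pos η0 l0).le)
      (Eventually.of_forall fun n => ?_)) f
    have w : ch (X n).Q (fun v => fl1 (α n) ((tz (X.G g n) (lvl M a n)).e v i)) (fun v =>
        (fl 0 ((tz (X.G g n) (lvl M a n)).e v), (tz (X.G g n) (lvl M a n)).fp (fun _ => m n) v)) ≤
        ch (X n).Q (fun v => fl1 (α n) ((tz (X.G g n) (lvl M a n)).e v i))
          ((tz (X.G g n) (lvl M a n)).fp fun _ => m n) := ch_anti (Fn.snd _ _)
    change η * α n * lg - ch (X n).Q (fun v => fl1 (α n) ((tz (X.G g n) (lvl M a n)).e v i))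
      ((tz (X.G g n) (lvl M a n)).fp fun _ => m n) ≤ _
    simp only [add_zero]
    nlinarith [mul_le_mul_of_nonneg_right r (Nat.cast_nonneg (α := ℝ) (M n))]
  · obtain ⟨c, hc, fn⟩ := fine ε hε
    refine ⟨min c 1, lt_min hc one_pos, fun X hX α β hab => ?_⟩
    have m0 : ∀ n, (0 : ℝ) ≤ m n := fun n => Nat.cast_nonneg _
    have hβ : ∀ n, β n ≤ m n := fun n => by
      exact_mod_cast (hab n).2.trans (mul_le_of_le_one_left (m0 n) (min_le_right _ _))
    obtain ⟨u, hu, u0, -, h1⟩ := rate α fun n => (hab n).1.trans (hβ n)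
    obtain ⟨v, hv, -, -, h2⟩ := rate β hβ
    have uv : u ≤ v := Le.num hM (hu.2.of2 hv.1 (Eventually.of_forall fun n => by
      have : (α n : ℝ) ≤ β n := by exact_mod_cast (hab n).1
      linarith))
    have vc : v ≤ c := Le.num hM (hv.2.of_sub (Eventually.of_forall fun n => by
      have : (m n : ℝ) ≤ M n := by exact_mod_cast f.1 n
      nlinarith [(hab n).2, mul_le_mul_of_nonneg_right (min_le_left c 1) (m0 n)]))
    have r := fn u v u0 uv vc
    rw [← sub_div, le_div_iff₀ l0] at r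
    have z := zoom_ch (i := i) hM (k0 X hX) e fun n => (hab n).1
    refine Le.frac (z.of6 (h2 X hX).2 (h1 X hX).1 (hv.1.smul (mul_pos η0 l0).le)
      (hu.2.smul (mul_pos η0 l0).le) (hv.2.smul (mul_pos hε l0).le)
      (Eventually.of_forall fun n => ?_)) f
    change η * (β n - α n) * lg - ε * β n - ch (X n).Q
      (fun v => fl1 (β n) ((tz (X.G g n) (lvl M a n)).e v i)) (fun v =>
        (fl (α n) ((tz (X.G g n) (lvl M a n)).e v),
          (tz (X.G g n) (lvl M a n)).fp (fun _ => m n) v)) ≤ _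
    nlinarith [mul_le_mul_of_nonneg_right r (Nat.cast_nonneg (α := ℝ) (M n)),
      mul_nonneg (mul_nonneg hε.le (Nat.cast_nonneg (α := ℝ) (β n))) (sub_nonneg.2 lg_lt_one.le)]

end F0

open F0

theorem topMu {N : ℕ} (h : NoBR N) : TopMu (N + 1) := by
  intro Ω P g M hb hd
  obtain ⟨L, hL, bx⟩ := hb.bx
  have k : ∀ i, Sm M fun n => Gp ((g n).fat fun _ => M n) (P n) i 0 (M n) := by
    intro i
    by_contra hn
    have k0 : K0 (fun n => pm (g n) (Equiv.swap 0 i)) M L (Mb.base P) :=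
      ⟨bx.mono fun n a => bx_fat _ _ (pm_bx (g n) (P n) _ a) _,
        hb.inf.mono (Eventually.of_forall fun n => pm_inf (g n) (P n) _), hb.hgt,
        hd.mono (Eventually.of_forall fun n => pm_ds (g n) (P n) _ _)⟩
    obtain ⟨K, j, m, η, a, b, c⟩ := broad (i := 0) hb.big k0 fun e =>
      hn (e.mono (Eventually.of_forall fun n => by
        have := pm_Gp (g n) (P n) (Equiv.swap 0 i) (M n) 0 0 (M n)
        rw [Equiv.swap_apply_left] at this
        exact this))
    exact h Ω K (fun n => tz (pm (g n) (Equiv.swap 0 i)) (j n)) m η a b c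
  have k1 : Sm M fun n => ch (P n) (fun ω => flv 0 ((g n).e ω)) ((g n).fp fun _ => M n) :=
    Sm.near hb.big (hL.const_mul hb.big one_le_two) (bx.mono fun n a x hx y hy _ => by
      rw [pow_zero, div_one]
      refine (pi_norm_le_iff_of_nonneg (by linarith [hL.1 n])).2 fun i => ?_
      refine (abs_sub _ _).trans ?_
      linarith [((a.bd x hx).1 i).2, ((a.bd y hy).1 i).2])
  exact (k1.add (Sm.sum Finset.univ fun i _ => k i)).mono (Eventually.of_forall fun n =>
    ch_le_sum ((g n).fat fun _ => M n) (P n) (M n))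

theorem rowBR : SBR := fun _ h => mu0_of_top (topMu h)

end Pool.Agent.MP_5168f5_an.R4
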