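import Pool.Agent.MP_5168f5_an.R4.SpecT

/-! Tangent classes in the original coordinates. There are three units `m ≪ r ≪ M`: `M` is the
floor, `r` is the size of the windows of levels near `j`, and labels with errors at most `m` obey
optimality and fill up to `o(r)`. -/

namespace Pool.Agent.MP_5168f5_an.R4

open H19 H17S H17F Filter MeasureTheory

/-- A system of depth `M` with errors `o(m)`. -/
structure Bs2 {N : ℕ} {Ω : ℕ → Type} (P : ∀ n, FP (Ω n)) (g : Gs N Ω) (M m : ℕ → ℕ) : Prop where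
  big : Big m
  bx : ∃ L, Sub m L ∧ ∀ᶠ n in UF, (g n).Bx (P n) (L n)
  inf : Sm m fun n => mi (P n) (g n).z (g n).ln (g n).θ
  hgt : Le m (fun n => M n * lg) fun n => ch (P n) (fun ω => fl1 (M n) ((g n).z ω)) (g n).θ

/-- Facts on systems with two units. -/
structure KO : Prop where
  bs : ∀ {N : ℕ} {Ω : ℕ → Type} (P : ∀ n, FP (Ω n)) (g : Gs N Ω) (M m R : ℕ → ℕ) (C : ℝ),
    Bs2 P g M m → (∀ᶠ n in UF, (m n : ℝ) ≤ C * R n ∧ R n ≤ M n) → Bs P g R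
  cl : ∀ {N : ℕ} {Ω : ℕ → Type} (g : Gs N Ω) (M m : ℕ → ℕ),
    Cl fun X : Mb Ω => Bs2 X.P (X.G g) M m
  hgt : ∀ {N : ℕ} {Ω Λ : ℕ → Type} (P : ∀ n, FP (Ω n)) (g : Gs N Ω) (M m R j a b : ℕ → ℕ)
    (C : ℝ) (lam : ∀ n, Ω n → Λ n), Bs2 P g M m → Hk P g R j lam →
    (∀ᶠ n in UF, (m n : ℝ) ≤ C * R n ∧ j n ≤ a n ∧ a n ≤ b n ∧ b n ≤ M n) →
    Le R (fun n => (b n - a n : ℝ) * lg) fun n => ch (P n) (fun ω => fl1 (b n) ((g n).z ω))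
      fun ω => (fl1 (a n) ((g n).z ω), (g n).ln ω, lam n ω)
  der : ∀ {N N' : ℕ} {Ω : ℕ → Type} (P : ∀ n, FP (Ω n)) (g : Gs N Ω) (g' : Gs N' Ω)
    (M m D R j : ℕ → ℕ) (C : ℝ) (L : ℕ → ℝ), Bs2 P g M m →
    Hk P g R j (fun n => (g' n).θ) → Sub R L →
    (∀ᶠ n in UF, (m n : ℝ) ≤ C * R n ∧ j n + D n ≤ M n ∧ (g' n).Bx (P n) (L n) ∧
      (∀ ω ∈ (P n).S, (g' n).z ω = Int.fract (2 ^ j n * (g n).z ω)) ∧
      Fn (P n) (fun ω => ((g n).θ ω, fl1 (j n) ((g n).z ω))) (g' n).θ ∧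
      Fn (P n) (g' n).ln fun ω => ((g n).ln ω, (g' n).θ ω)) → Bs2 P g' D R

/-- Pull back a family of the five shapes. -/
def Fam.pull5 {Ω Ω' : Type} {g : Geo 3 Ω} (F : Fam g.sh5) (f : Ω' → Ω) : Fam (g.pull f).sh5 where
  Lb := F.Lb
  S := fun j v => F.S j (f v)
  d := fun i j v => match i with
    | none => F.d none j (f v)
    | some p => F.d (some p) j (f v)
  τ := F.τ

/-- The law of `Y` on the base is at most `C` times the law of `E`. -/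
def Rf {Ω : Type} (C : ℝ) (Y E : Ext Ω) : Prop :=
  ∀ F : Ω → ℝ, (∀ ω, 0 ≤ F ω) → Y.Q.E (fun v => F (Y.ρ v)) ≤ C * E.Q.E fun v => F (E.ρ v)

/-- Rates, the level `c`, and the values and slopes of the profiles at `c`. -/
structure Par : Type where
  η : ℝ
  ε₀ : ℝ
  c : ℝ
  v : I5 → ℝ
  sl : I5 → ℝ

/-- Order of the values; equal values have equal slopes. -/
structure Par.OK (p : Par) : Prop where
  η : 0 < p.η
  e0 : 0 < p.ε₀ ∧ p.ε₀ ≤ 1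
  one : ∀ i, 1 ≤ p.sl i
  cv : ∀ i, p.c ≤ p.v i
  uh : ∀ k, p.v (iU k) ≤ p.v (iH k)
  hq : ∀ k, p.v (iH k) ≤ p.v iQ
  tie : ∀ i i', p.v i = p.v i' → p.sl i = p.sl i'
  tie0 : ∀ i, p.v i = p.c → p.sl i = 1

section Fin

variable {Ω : Type} (g : Geo 3 Ω) (F : Fam g.sh5) (M m : ℕ) (p : Par)

/-- The system with the finest point on an extension. -/
noncomputable abbrev Ext.gf (Y : Ext Ω) : Geo 3 Y.W := (g.fat fun _ => M).pull Y.ρ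

/-- A label of level `j` with errors at most `e`. -/
def sLab (Y : Ext Ω) (e : ℝ) (j : ℕ) {Λ : Type} (lam : Y.W → Λ) : Prop :=
  (Y.gf g M).hk Y.Q j lam ≤ e ∧ (Y.gf g M).lk Y.Q lam ≤ e

/-- The conditions on the numbers. -/
structure Num0 (j r : ℕ) (ε : ℝ) : Prop where
  unit : (m : ℝ) ≤ ε * r ∧ Real.log M ≤ ε * m ∧ 1 ≤ ε * m
  room : (r : ℝ) ≤ ε * j ∧ j + r / ε ≤ M ∧ F.τ iQ j + r / ε ≤ M
  lin : ∀ (i : I5) (a : ℕ), (a : ℝ) ≤ r / ε → |(F.τ i (j + a) : ℝ) - F.τ i j - p.sl i * a| ≤ ε * r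
  far : ∀ i i', p.v i < p.v i' → F.τ i j + r / ε ≤ F.τ i' j
  tie : ∀ i i', p.v i = p.v i' → (F.τ i j : ℝ) ≤ F.τ i' j + ε * r
  far0 : ∀ i, p.c < p.v i → j + r / ε ≤ F.τ i j
  tie0 : ∀ i, p.v i = p.c → |(F.τ i j : ℝ) - j| ≤ ε * r

/-- The conditions on the member. -/
structure Old0 (E : Ext Ω) (ε : ℝ) : Prop where
  bx : (E.gf g M).Bx E.Q (Real.exp (ε * m))
  inf : mi E.Q (E.gf g M).z (E.gf g M).ln (E.gf g M).θ ≤ ε * m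
  hgt : M * lg ≤ ch E.Q (fun v => fl1 M ((E.gf g M).z v)) (E.gf g M).θ + ε * m
  alg : (F.pull E.ρ).Alg E.Q (fun _ => M) (Real.exp (ε * m))
  lab : ∀ j, sLab g M E (ε * m) j fun v => F.S j (E.ρ v)

/-- Broadness and the rate on a refinement `Y`. -/
structure Ref1 (Y : Ext Ω) (j r : ℕ) (ε : ℝ) : Prop where
  br : ∀ α β : ℕ, α ≤ β → (β : ℝ) ≤ r / ε → p.η * (β - α) * lg ≤
    ch Y.Q (fun v => fl1 β ((Y.gf g M).e v 0))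
      (fun v => (fl α ((Y.gf g M).e v), (Y.gf g M).y v)) + ε * (m + β)
  ng : ∀ lo hi : ℕ, (F.τ iQ j : ℝ) ≤ lo + r / ε → lo ≤ hi → (hi : ℝ) ≤ F.τ iQ j + r / ε →
    ch Y.Q (fun v => fl hi ((Y.gf g M).pt v))
      (fun v => (fl lo ((Y.gf g M).pt v), (Y.gf g M).zt v)) ≤
      3 * (1 - p.ε₀) * (hi - lo) * lg + ε * r

/-- Optimality and fill on a refinement `Y`. -/
structure Ref2 (Y : Ext Ω) (r : ℕ) (ε : ℝ) : Prop where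
  opt : ∀ (Λ : Type) (lam : Y.W → Λ) (i : I5) (d : Y.W → (g.sh5 i).D) (a a' τ : ℕ),
    sLab g M Y m a lam → Fn Y.Q d lam →
    (∀ v ∈ Y.Q.S, (g.sh5 i).fit (Real.exp m) (d v) (Y.ρ v) a τ) → a + ε * r ≤ a' → a' ≤ M →
    τ ≤ M → (τ : ℝ) ≤ F.τ i a' + ε * r
  xa : ∀ (Λ : Type) (lam : Y.W → Λ) (a lo hi : ℕ), sLab g M Y m a lam → a ≤ lo → lo ≤ hi →
    hi ≤ M → (hi - lo : ℝ) * lg ≤ ch Y.Q (fun v => fl1 hi ((Y.gf g M).pt v 0)) (fun v =>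
      (fl1 lo ((Y.gf g M).pt v 0), lam v, (Y.gf g M).zt v)) + ε * r
  fb : ∀ (Λ : Type) (lam : Y.W → Λ) (G : Y.W → ℝ) (b k : Bool) (a a' lo hi : ℕ),
    sLab g M Y m a lam → Fn Y.Q G lam →
    (∀ v ∈ Y.Q.S, |G v| ≤ Real.exp m ∧ (b = false → G v = 0)) → a + ε * r ≤ a' → a' ≤ M →
    F.τ (some (b, k)) a' ≤ lo → a ≤ lo → lo ≤ hi → hi ≤ M →
    (hi - lo : ℝ) * lg ≤ ch Y.Q (fun v => fl1 hi ((Y.gf g M).sv k G v)) (fun v =>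
      (fl1 lo ((Y.gf g M).sv k G v), fl1 M ((Y.gf g M).pt v 0), lam v, (Y.gf g M).zt v)) + ε * r

/-- All the conditions at accuracy `ε`. -/
structure Fin0 (E : Ext Ω) (j r : ℕ) (ε : ℝ) : Prop where
  num : Num0 g F M m p j r ε
  old : Old0 g F M m E ε
  ref : ∀ Y : Ext Ω, Rf ε⁻¹ Y E → Ref1 g F M m p Y j r ε ∧ Ref2 g F M m Y r ε

end Fin

section Seq

variable {Ω : ℕ → Type} (g : Gs 3 Ω) (F : ∀ n, Fam (g n).sh5) (M m : ℕ → ℕ) (p : Par)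

/-- The member `X` is tangent at level `j` in the unit `r`. -/
def Tan0 (j r : ℕ → ℕ) (X : Mb Ω) : Prop := p.OK ∧
  ∀ ε : ℝ, 0 < ε → ∀ᶠ n in UF, Fin0 (g n) (F n) (M n) (m n) p (X n) (j n) (r n) ε

/-- `a = O(r)`. -/
def Oh (r a : ℕ → ℕ) : Prop := ∃ C : ℕ, ∀ᶠ n in UF, a n ≤ C * r n

/-- Closure properties. -/
structure OCl : Prop where
  cf : CF fun x : ∀ n, Ext (Ω n) × ℕ × ℕ =>
    Tan0 g F M m p (fun n => (x n).2.1) (fun n => (x n).2.2) fun n => (x n).1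
  cl : ∀ j r, Cl (Tan0 g F M m p j r)
  shift : ∀ j r a X, Tan0 g F M m p j r X → Oh r a → Tan0 g F M m p (fun n => j n + a n) r X
  unit : ∀ j r r' X, Tan0 g F M m p j r X → Oh r r' → Oh r' r → Tan0 g F M m p j r' X

/-- Numbers and old labels along the sequence. -/
structure OA1 (j r : ℕ → ℕ) (X : Mb Ω) : Prop where
  big : Big m ∧ Big r ∧ Sm r (fun n => m n) ∧ Sm m fun n => Real.log (M n)
  room : ∀ a, Oh r a → ∀ᶠ n in UF, a n ≤ j n ∧ j n + a n ≤ M n ∧ ∀ i, (F n).τ i (j n) + a n ≤ M n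
  lin : ∀ i a, Oh r a →
    Eqv r (fun n => (F n).τ i (j n + a n)) fun n => (F n).τ i (j n) + p.sl i * a n
  far : ∀ i i' a, p.v i < p.v i' → Oh r a → ∀ᶠ n in UF, (F n).τ i (j n) + a n ≤ (F n).τ i' (j n)
  tie : ∀ i i', p.v i = p.v i' → Eqv r (fun n => (F n).τ i (j n)) fun n => (F n).τ i' (j n)
  low : ∀ i, Le r (fun n => j n) fun n => (F n).τ i (j n)
  bs : Bs2 X.P (X.G (g.fin M)) M m
  fam : FamOK X.P (X.G (g.fin M)) m (fun n => (F n).pull (X n).ρ) fun n _ => M n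
  fat : ∀ i, Fat X.P (X.G (g.fin M)) m i M
  cls : ∀ R, Oh R m → Oh r R → Cls0 (Tan0 g F M m p j r) (g.fin M) R 0 p.η
  bra : ∀ R α β : ℕ → ℕ, Oh R m → Oh R β → Oh r β → (∀ᶠ n in UF, α n ≤ β n) →
    Le R (fun n => p.η * (β n - α n) * lg) fun n =>
      ch (X n).Q (fun v => fl1 (β n) ((X.G g n).e v 0)) fun v =>
        (fl (α n) ((X.G g n).e v), (X.G (g.fin M) n).y v)

/-- Optimality, fill and the rate along the sequence. -/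
structure OA2 (j r : ℕ → ℕ) (X : Mb Ω) : Prop where
  opt : ∀ (i : I5) (a τ : ℕ → ℕ), Oh r a → (∀ᶠ n in UF, τ n ≤ M n) →
    Thin X.P (X.G (g.fin M)) m (fun n => ((g n).sh5 i).pull (X n).ρ) (fun n => j n + a n) τ →
    Le r (fun n => τ n) fun n => (F n).τ i (j n) + p.sl i * a n
  xa : ∀ (Λ : ℕ → Type) (lam : ∀ n, (X n).W → Λ n) (a lo hi : ℕ → ℕ),
    Lab X.P (X.G (g.fin M)) m a lam → (∀ᶠ n in UF, a n ≤ lo n ∧ lo n ≤ hi n ∧ hi n ≤ M n) →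
    Le r (fun n => (hi n - lo n : ℝ) * lg) fun n =>
      ch (X n).Q (fun v => fl1 (hi n) ((X.G g n).pt v 0)) fun v =>
        (fl1 (lo n) ((X.G g n).pt v 0), lam n v, (X.G g n).zt v)
  fb : ∀ (Λ : ℕ → Type) (lam : ∀ n, (X n).W → Λ n) (G : ∀ n, (X n).W → ℝ) (L : ℕ → ℝ)
    (b k : Bool) (a lo hi : ℕ → ℕ), Oh r a →
    Lab X.P (X.G (g.fin M)) m (fun n => j n + a n) lam → Sub m L →
    (∀ᶠ n in UF, Fn (X n).Q (G n) (lam n) ∧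
      (∀ v ∈ (X n).Q.S, |G n v| ≤ L n ∧ (b = false → G n v = 0)) ∧ lo n ≤ hi n ∧ hi n ≤ M n) →
    Le r (fun n => (F n).τ (some (b, k)) (j n) + p.sl (some (b, k)) * a n) (fun n => lo n) →
    Le r (fun n => (hi n - lo n : ℝ) * lg) fun n =>
      ch (X n).Q (fun v => fl1 (hi n) ((X.G g n).sv k (G n) v)) fun v =>
        (fl1 (lo n) ((X.G g n).sv k (G n) v), fl1 (M n) ((X.G g n).pt v 0), lam n v,
          (X.G g n).zt v)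
  ng : ∀ (a lo hi : ℕ → ℕ), Oh r a → (∀ᶠ n in UF, (F n).τ iQ (j n) ≤ lo n + a n ∧ lo n ≤ hi n ∧
      hi n ≤ (F n).τ iQ (j n) + a n) →
    Le r (fun n => ch (X n).Q (fun v => fl (hi n) ((X.G g n).pt v)) fun v =>
      (fl (lo n) ((X.G g n).pt v), (X.G g n).zt v)) fun n =>
      3 * (1 - p.ε₀) * (hi n - lo n) * lg

end Seq

/-! ### Rows -/

def OClA : Prop := ∀ {Ω : ℕ → Type} (g : Gs 3 Ω) (F : ∀ n, Fam (g n).sh5) (M m : ℕ → ℕ) (p : Par),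
  OCl g F M m p

def OA1A : Prop := ∀ {Ω : ℕ → Type} (g : Gs 3 Ω) (F : ∀ n, Fam (g n).sh5) (M m : ℕ → ℕ) (p : Par)
  (j r : ℕ → ℕ) (X : Mb Ω), Tan0 g F M m p j r X → OA1 g F M m p j r X

def OA2A : Prop := ∀ {Ω : ℕ → Type} (g : Gs 3 Ω) (F : ∀ n, Fam (g n).sh5) (M m : ℕ → ℕ) (p : Par)
  (j r : ℕ → ℕ) (X : Mb Ω), Tan0 g F M m p j r X → OA2 g F M m p j r X

/-- The parameters at the level `c`. -/
noncomputable def parAt {Ω : ℕ → Type} {g : Gs 3 Ω} (M : ℕ → ℕ) (F : ∀ n, Fam (g n).sh5)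
    (η ε₀ c : ℝ) : Par := ⟨η, ε₀, c, fun i => pr M F i c, fun i => deriv (pr M F i) c⟩

/-- Almost every level is regular. -/
def OReg : Prop := ∀ {Ω : ℕ → Type} (K : Mb Ω → Prop) (g : Gs 3 Ω) (M : ℕ → ℕ) (η ε₀ : ℝ)
  (F : ∀ n, Fam (g n).sh5), Pr K g M F → 0 < η → 0 < ε₀ → ε₀ ≤ 1 →
  ∀ᵐ c : ℝ, 0 < c → c < 1 → pr M F iQ c < 1 →
    (∀ i, DifferentiableAt ℝ (pr M F i) c) ∧ (parAt M F η ε₀ c).OK

/-- The numbers at a regular level. -/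
def ONum : Prop := ∀ {Ω : ℕ → Type} (K : Mb Ω → Prop) (g : Gs 3 Ω) (M : ℕ → ℕ) (η ε₀ c ε : ℝ)
  (F : ∀ n, Fam (g n).sh5), Go K g M η F → 0 < c → c < 1 → pr M F iQ c < 1 →
  (∀ i, DifferentiableAt ℝ (pr M F i) c) → (parAt M F η ε₀ c).OK → 0 < ε →
  ∃ ρ₀ : ℝ, 0 < ρ₀ ∧ ∀ ρ δ : ℝ, 0 < δ → 2 * δ ≤ ε * ρ → ρ ≤ ρ₀ → ∀ᶠ n in UF,
    Num0 (g n) (F n) (M n) (lev M δ n) (parAt M F η ε₀ c) (lev M c n) (lev M ρ n) ε

/-- Broadness and the rate at a regular level. -/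
def ORef1 : Prop := ∀ {Ω : ℕ → Type} (K : Mb Ω → Prop) (g : Gs 3 Ω) (M : ℕ → ℕ) (η ε₀ c ε : ℝ)
  (F : ∀ n, Fam (g n).sh5) (φ : ℕ → ℕ → ℝ) (P : ∀ n, FP (Ω n)), Gf K g M η F φ → K (Mb.base P) →
  pr M F iQ c ∉ K80.Bad (hb M φ) ε₀ → 0 < pr M F iQ c → pr M F iQ c < 1 → 0 < ε →
  ∃ ρ₀ : ℝ, 0 < ρ₀ ∧ ∀ ρ δ : ℝ, 0 < ρ → ρ ≤ ρ₀ → 0 < δ →
    ∀ᶠ n in UF, ∀ Y : Ext (Ω n), K31.Dn ε⁻¹ Y.Q Y.ρ (P n) →
      Ref1 (g n) (F n) (M n) (lev M δ n) (parAt M F η ε₀ c) Y (lev M c n) (lev M ρ n) ε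

/-- Optimality and fill. -/
def ORef2 : Prop := ∀ {Ω : ℕ → Type} (K : Mb Ω → Prop) (g : Gs 3 Ω) (M : ℕ → ℕ) (η ε ρ : ℝ)
  (F : ∀ n, Fam (g n).sh5) (P : ∀ n, FP (Ω n)), Go K g M η F → K (Mb.base P) → 0 < ε → 0 < ρ →
  ∃ δ₀ : ℝ, 0 < δ₀ ∧ ∀ δ : ℝ, 0 < δ → δ ≤ δ₀ →
    ∀ᶠ n in UF, ∀ Y : Ext (Ω n), K31.Dn ε⁻¹ Y.Q Y.ρ (P n) →
      Ref2 (g n) (F n) (M n) (lev M δ n) Y (lev M ρ n) ε

/-- The old labels. -/
def OOld : Prop := ∀ {Ω : ℕ → Type} (K : Mb Ω → Prop) (g : Gs 3 Ω) (M : ℕ → ℕ) (η ε δ : ℝ)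
  (F : ∀ n, Fam (g n).sh5) (X : Mb Ω), Go K g M η F → K X → 0 < ε → 0 < δ →
  ∀ᶠ n in UF, Old0 (g n) (F n) (M n) (lev M δ n) (X n) ε

/-- A member as the base. -/
def OBase : Prop := ∀ {Ω : ℕ → Type} (K : Mb Ω → Prop) (g : Gs 3 Ω) (M : ℕ → ℕ) (η : ℝ)
  (F : ∀ n, Fam (g n).sh5) (φ : ℕ → ℕ → ℝ) (X : Mb Ω), Gf K g M η F φ → K X →
  Gf (fun Y : Mb X.W => K (Y.map fun n => (X n).ρ)) (X.G g) M η
    (fun n => (F n).pull5 (X n).ρ) φ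

/-- The conditions are monotone in the accuracy. -/
def OMono : Prop := ∀ {Ω : Type} (g : Geo 3 Ω) (F : Fam g.sh5) (M m : ℕ) (p : Par) (E : Ext Ω)
  (j r : ℕ) (ε ε' : ℝ), 0 < ε → ε ≤ ε' → Fin0 g F M m p E j r ε → Fin0 g F M m p E j r ε'

/-- No member is tangent. -/
def NoTan : Prop := ∀ {Ω : ℕ → Type} (g : Gs 3 Ω) (F : ∀ n, Fam (g n).sh5) (M m : ℕ → ℕ) (p : Par)
  (j r : ℕ → ℕ) (X : Mb Ω), Tan0 g F M m p j r X → False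

def OfOCl : Prop := OMono → OClA
def OfOA1 : Prop := KO → OClA → OA1A
def OfOA2 : Prop := OA1A → OA2A
def OfONum : Prop := PR → ONum
def OfORef1 : Prop := PR → ORef1
def OfORef2 : Prop := FBU → XAU → ORef2
def OfSatF : Prop :=
  PR → OMono → OBase → OReg → ONum → OOld → ORef1 → ORef2 → NoTan → SatF

end Pool.Agent.MP_5168f5_an.R4
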