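import Pool.Agent.MP_5168f5_an.R4.SpecTAN
import Pool.Agent.MP_5168f5_an.R4.SpecO

/-! Frames: the cell of level `c` rescaled to a unit cube. -/

namespace Pool.Agent.MP_5168f5_an.R4.Tan

open H19 H17S H17F Filter Matrix

/-- Planes. -/
abbrev Pl : Type := ℝ × ℝ × V 3

/-- The value of a plane. -/
def pv (p : Pl) (t : ℝ) (y : V 3) : ℝ := p.1 + p.2.1 * t + ∑ i, p.2.2 i * y i

/-- The slope of a plane along a direction. -/
def ps (p : Pl) (e : V 3) : ℝ := p.2.1 + ∑ i, p.2.2 i * e i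

/-- The left end of the dyadic interval. -/
noncomputable def rd (j : ℕ) (x : ℝ) : ℝ := ((2 : ℝ) ^ j)⁻¹ * fl1 j x

/-- Frame data: the scales and the planes of `u` and of `f`. -/
structure Fd (Ω : Type) : Type where
  Nu : ℕ
  Nf : ℕ
  pu : Ω → Pl
  pf : Ω → Pl

section

variable {Ω : Type} (g : Geo 3 Ω) (M c : ℕ) (k : Bool) (d : Fd Ω)

/-- The original height. -/
noncomputable def ot (ω : Ω) (s : ℝ) : ℝ := g.z0 c ω + ((2 : ℝ) ^ c)⁻¹ * s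

/-- The frame coordinates of the point `(t, y)`. -/
noncomputable def fk (ω : Ω) (t : ℝ) (y : V 3) : V 3 :=
  ![2 ^ c * (y 0 - rd c (g.pt ω 0)), 2 ^ d.Nu * (y (co k) - pv (d.pu ω) t y),
    2 ^ d.Nf * (y (co (!k)) - pv (d.pf ω) t y)]

/-- The system in the frame; `u` is coordinate `co k` and `f` is coordinate `co (!k)`. -/
noncomputable def fr {K : Type} (κ : Ω → K) : Geo 3 Ω :=
  ⟨K, K × Z 3 × ℝ × g.T, fun ω => fk g c k d ω (g.z0 c ω) (g.lt (g.z0 c ω) ω),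
    fun ω => ![g.e ω 0, 2 ^ d.Nu / 2 ^ c * (g.e ω (co k) - ps (d.pu ω) (g.e ω)),
      2 ^ d.Nf / 2 ^ c * (g.e ω (co (!k)) - ps (d.pf ω) (g.e ω))],
    fun ω => Int.fract (2 ^ c * g.z ω), κ, fun ω => (κ ω, g.fp (fun _ => M) ω)⟩

/-- The plane `p` in the frame, relative to the base plane `b` at scale `N`. -/
noncomputable def tr (N : ℕ) (b p : Pl) (ω : Ω) : Pl :=
  (2 ^ N * (p.1 - b.1 + (p.2.1 - b.2.1) * g.z0 c ω + (p.2.2 0 - b.2.2 0) * rd c (g.pt ω 0) +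
      (p.2.2 (co k) - b.2.2 (co k)) * ((d.pu ω).1 + (d.pu ω).2.1 * g.z0 c ω +
        (d.pu ω).2.2 0 * rd c (g.pt ω 0))),
    2 ^ N / 2 ^ c * (p.2.1 - b.2.1 + (p.2.2 (co k) - b.2.2 (co k)) * (d.pu ω).2.1),
    ![2 ^ N / 2 ^ c * (p.2.2 0 - b.2.2 0 + (p.2.2 (co k) - b.2.2 (co k)) * (d.pu ω).2.2 0),
      2 ^ N / 2 ^ d.Nu * (p.2.2 (co k) - b.2.2 (co k)), 0])

/-- The hyperplane `H` with the slope in coordinate `i` replaced by `G`, along the plane `U`. -/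
def prd (i : Fin 3) (G : ℝ) (H U : Pl) : Pl :=
  (H.1 + (H.2.2 i - G) * U.1, H.2.1 + (H.2.2 i - G) * U.2.1,
    fun l => if l = 0 then H.2.2 0 + (H.2.2 i - G) * U.2.2 0 else if l = i then G else 0)

/-- The matrix of the frame map in homogeneous coordinates. -/
noncomputable def Ti (ω : Ω) : Qd := fun i l =>
  (![bv 0 l, 2 ^ c * (bv 1 l - g.z0 c ω * bv 0 l), 2 ^ c * (bv 2 l - rd c (g.pt ω 0) * bv 0 l),
    2 ^ d.Nu * (bv (co k).succ.succ l - (d.pu ω).1 * bv 0 l - (d.pu ω).2.1 * bv 1 l -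
      ∑ m, (d.pu ω).2.2 m * bv m.succ.succ l),
    2 ^ d.Nf * (bv (co (!k)).succ.succ l - (d.pf ω).1 * bv 0 l - (d.pf ω).2.1 * bv 1 l -
      ∑ m, (d.pf ω).2.2 m * bv m.succ.succ l)] : V 5) i

/-- The original point with frame coordinates `Y`. -/
noncomputable def Tv (ω : Ω) (Y : V 5) : V 5 :=
  let t := g.z0 c ω * Y 0 + ((2 : ℝ) ^ c)⁻¹ * Y 1
  let x := rd c (g.pt ω 0) * Y 0 + ((2 : ℝ) ^ c)⁻¹ * Y 2
  let u := (d.pu ω).1 * Y 0 + (d.pu ω).2.1 * t + (d.pu ω).2.2 0 * x + ((2 : ℝ) ^ d.Nu)⁻¹ * Y 3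
  let f := (d.pf ω).1 * Y 0 + (d.pf ω).2.1 * t + (d.pf ω).2.2 0 * x + (d.pf ω).2.2 (co k) * u +
    ((2 : ℝ) ^ d.Nf)⁻¹ * Y 4
  ![Y 0, t, x, bif k then f else u, bif k then u else f]

/-- A quadric in the frame, multiplied by `2 ^ Nf` and symmetrised. -/
noncomputable def pq (A : Qd) (ω : Ω) : Qd := fun i l =>
  2 ^ d.Nf / 2 * pf A (Tv g c k d ω (bv i)) (Tv g c k d ω (bv l))

/-- A quadric of the frame in the original coordinates. -/
noncomputable def oq (B : Qd) (ω : Ω) : Qd := (Ti g c k d ω)ᵀ * B * Ti g c k d ω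

/-- The planes are graphs over the right coordinates. -/
def Sup (ω : Ω) : Prop := (d.pu ω).2.2 1 = 0 ∧ (d.pu ω).2.2 2 = 0 ∧ (d.pf ω).2.2 (co (!k)) = 0

variable {K : Type} (κ : Ω → K) (ω : Ω)

theorem fr_z : (fr g M c k d κ).z ω = Int.fract (2 ^ c * g.z ω) := rfl
theorem fr_θ : (fr g M c k d κ).θ = κ := rfl
theorem fr_y : (fr g M c k d κ).y ω = (κ ω, g.fp (fun _ => M) ω) := rfl
theorem fr_e0 : (fr g M c k d κ).e ω 0 = g.e ω 0 := rfl
theorem fr_e1 : (fr g M c k d κ).e ω 1 =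
    2 ^ d.Nu / 2 ^ c * (g.e ω (co k) - ps (d.pu ω) (g.e ω)) := rfl
theorem fr_e2 : (fr g M c k d κ).e ω 2 =
    2 ^ d.Nf / 2 ^ c * (g.e ω (co (!k)) - ps (d.pf ω) (g.e ω)) := rfl

theorem ot_z : ot g c ω ((fr g M c k d κ).z ω) = g.z ω := ka.z g c ω

theorem fr_lt (s : ℝ) :
    (fr g M c k d κ).lt s ω = fk g c k d ω (ot g c ω s) (g.lt (ot g c ω s) ω) := by
  have h : (2 : ℝ) ^ c ≠ 0 := by positivity
  funext i
  fin_cases i <;> simp [fr, fk, ot, Geo.lt, pv, ps, Fin.sum_univ_three] <;> field_simp <;> ring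

theorem fr_pt : (fr g M c k d κ).pt ω = fk g c k d ω (g.z ω) (g.pt ω) := by
  rw [Geo.pt, fr_lt, ot_z]; rfl

theorem fl1_ot (i : ℕ) (s : ℝ) (h0 : 0 ≤ s) (h1 : s < 1) :
    fl1 (c + i) (ot g c ω s) = fl1 (c + i) (g.z ω) ↔
      fl1 i s = fl1 i (Int.fract (2 ^ c * g.z ω)) := by
  have e : (2 : ℝ) ^ c * ot g c ω s = fl1 c (g.z ω) + s := by
    simp only [ot, Geo.z0]; field_simp
  have e1 : fl1 c (ot g c ω s) = fl1 c (g.z ω) := by
    rw [fl1, e, Int.floor_eq_iff]; constructor <;> linarith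
  have e2 : Int.fract ((2 : ℝ) ^ c * ot g c ω s) = s := by
    rw [e, Int.fract_intCast_add, Int.fract_eq_self.2 ⟨h0, h1⟩]
  rw [ka.fl c i (g.z ω) (ot g c ω s), e2]
  exact ⟨fun a => a.2, fun a => ⟨e1, a⟩⟩

theorem win_unit (i : ℕ) {s z : ℝ} (h0 : 0 ≤ z) (h1 : z < 1) (h : fl1 i s = fl1 i z) :
    0 ≤ s ∧ s < 1 := by
  have := fl1_eq_of_le (Nat.zero_le i) h
  simp only [fl1, pow_zero, one_mul, Int.floor_eq_zero_iff.2 ⟨h0, h1⟩] at this
  exact Int.floor_eq_zero_iff.1 this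

theorem tr_u (h : Sup k d ω) {p : Pl} (hp : p.2.2 1 = 0 ∧ p.2.2 2 = 0) (s : ℝ) (y : V 3) :
    fk g c k d ω (ot g c ω s) y 1 -
        pv (tr g c k d d.Nu (d.pu ω) p ω) s (fk g c k d ω (ot g c ω s) y) =
      2 ^ d.Nu * (y (co k) - pv p (ot g c ω s) y) := by
  have h0 : (2 : ℝ) ^ c ≠ 0 := by positivity
  obtain ⟨h1, h2, -⟩ := h
  cases k <;> simp [fk, tr, ot, pv, co, Fin.sum_univ_three, h1, h2, hp.1, hp.2] <;>
    field_simp <;> ring

theorem tr_f (h : Sup k d ω) {p : Pl} (hp : p.2.2 (co (!k)) = 0) (s : ℝ) (y : V 3) :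
    fk g c k d ω (ot g c ω s) y 2 -
        pv (tr g c k d d.Nf (d.pf ω) p ω) s (fk g c k d ω (ot g c ω s) y) =
      2 ^ d.Nf * (y (co (!k)) - pv p (ot g c ω s) y) := by
  have h0 : (2 : ℝ) ^ c ≠ 0 := by positivity
  have h0' : (2 : ℝ) ^ d.Nu ≠ 0 := by positivity
  obtain ⟨h1, h2, h3⟩ := h
  cases k <;> simp [co] at h3 hp <;>
    simp [fk, tr, ot, pv, co, Fin.sum_univ_three, h1, h2, h3, hp] <;> field_simp <;> ring

theorem prd_pv {i : Fin 3} (hi : i ≠ 0) (G : ℝ) {H U : Pl} (hH : ∀ l, l ≠ 0 → l ≠ i → H.2.2 l = 0)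
    (hU : U.2.2 1 = 0 ∧ U.2.2 2 = 0) (t : ℝ) (y : V 3) :
    pv (prd i G H U) t y = pv H t y - (H.2.2 i - G) * (y i - pv U t y) := by
  fin_cases i
  · exact absurd rfl hi
  · have := hH 2 (by decide) (by decide)
    simp [prd, pv, Fin.sum_univ_three, this, hU.1, hU.2]; ring
  · have := hH 1 (by decide) (by decide)
    simp [prd, pv, Fin.sum_univ_three, this, hU.1, hU.2]; ring

theorem Ti_hom (t : ℝ) (y : V 3) :
    Ti g c k d ω *ᵥ hom t y = hom (2 ^ c * (t - g.z0 c ω)) (fk g c k d ω t y) := by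
  funext i
  fin_cases i <;> cases k <;>
    simp [Ti, hom, fk, pv, bv, co, mulVec, dotProduct, Fin.sum_univ_succ, Pi.single_apply] <;> ring

theorem ot_inv (s : ℝ) : 2 ^ c * (ot g c ω s - g.z0 c ω) = s := by
  simp only [ot]; field_simp; ring

theorem pf_oq (B : Qd) (Y W : V 5) :
    pf (oq g c k d B ω) Y W = pf B (Ti g c k d ω *ᵥ Y) (Ti g c k d ω *ᵥ W) := by
  simp only [pf, oq, ← mulVec_mulVec, dotProduct_mulVec, vecMul_transpose]

theorem qf_oq (B : Qd) (Y : V 5) : qf (oq g c k d B ω) Y = qf B (Ti g c k d ω *ᵥ Y) := by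
  have := pf_oq g c k d ω B Y Y
  rw [pf_self, pf_self] at this; linarith

theorem ql_oq (B : Qd) (s : ℝ) :
    ql g (oq g c k d B ω) ω (ot g c ω s) = ql (fr g M c k d κ) B ω s := by
  rw [ql, ql, qf_oq, Ti_hom, ot_inv, fr_lt]

theorem Tv_sum (Y : V 5) : Tv g c k d ω Y = ∑ i, Y i • Tv g c k d ω (bv i) := by
  funext l
  fin_cases l <;> cases k <;>
    simp [Tv, bv, Fin.sum_univ_succ, Pi.single_apply] <;> ring

theorem pf_sum (A : Qd) (a b : V 5) (U W : Fin 5 → V 5) :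
    pf A (∑ i, a i • U i) (∑ l, b l • W l) = ∑ i, ∑ l, a i * b l * pf A (U i) (W l) := by
  simp only [Fin.sum_univ_five, pf_add_left, pf_add_right, pf_smul_left, pf_smul_right]; ring

theorem pq_symm (A : Qd) (i l : Fin 5) : pq g c k d A ω i l = pq g c k d A ω l i := by
  simp only [pq, pf_comm A]

theorem pf_pq (A : Qd) (Y W : V 5) :
    pf (pq g c k d A ω) Y W = 2 ^ d.Nf * pf A (Tv g c k d ω Y) (Tv g c k d ω W) := by
  rw [Tv_sum g c k d ω Y, Tv_sum g c k d ω W, pf_sum]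
  simp only [pf, pq, mulVec, dotProduct, Fin.sum_univ_five]
  ring

theorem qf_pq (A : Qd) (Y : V 5) : qf (pq g c k d A ω) Y = 2 ^ d.Nf * qf A (Tv g c k d ω Y) := by
  have := pf_pq g c k d ω A Y Y
  rw [pf_self, pf_self] at this; linarith

theorem Tv_hom (h : Sup k d ω) (s : ℝ) (y : V 3) :
    Tv g c k d ω (hom s (fk g c k d ω (ot g c ω s) y)) = hom (ot g c ω s) y := by
  have h0 : (2 : ℝ) ^ c ≠ 0 := by positivity
  have h0' : (2 : ℝ) ^ d.Nu ≠ 0 := by positivity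
  have h0'' : (2 : ℝ) ^ d.Nf ≠ 0 := by positivity
  obtain ⟨h1, h2, h3⟩ := h
  funext l
  fin_cases l <;> cases k <;> simp [co] at h3 <;>
    simp [Tv, hom, fk, ot, pv, co, Fin.sum_univ_three, h1, h2, h3] <;> field_simp <;> ring

theorem ql_pq (h : Sup k d ω) (A : Qd) (s : ℝ) :
    ql (fr g M c k d κ) (pq g c k d A ω) ω s = 2 ^ d.Nf * ql g A ω (ot g c ω s) := by
  rw [ql, ql, qf_pq, fr_lt, Tv_hom g c k d ω h]

theorem Tv_b4 : Tv g c k d ω (bv 4) = ((2 : ℝ) ^ d.Nf)⁻¹ • bv (co (!k)).succ.succ := by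
  funext l
  fin_cases l <;> cases k <;> simp [Tv, bv, co]

theorem Tv_b3 : Tv g c k d ω (bv 3) = ((2 : ℝ) ^ d.Nu)⁻¹ •
    (bv (co k).succ.succ + (d.pf ω).2.2 (co k) • bv (co (!k)).succ.succ) := by
  funext l
  fin_cases l <;> cases k <;> simp [Tv, bv, co] <;> ring

end

end Pool.Agent.MP_5168f5_an.R4.Tan
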