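import Pool.Agent.MP_5168f5_an.R4.SpecLG

/-! A slope that is determined by the base line: assembly. -/

namespace Pool.Agent.MP_5168f5_an.R4.LG

open H19 H17S H17F Filter Tan B1

theorem gn_of (con : Con) (cra : Cra) : Gn := by
  intro Ω K g M mm D β T η X h hX c J k r p κ hJ hκ e ft nd
  refine con K g M mm D β T η X h hX c J k p κ hJ (hJ.mono (e.mono fun _ u => u.2.1.trans u.2.2.1))
    hκ (e.mono fun _ u => ⟨u.1, u.2.2.2⟩) ft (cra K g M mm D β T η X h hX _ _ J k r hJ ?_ ft nd)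
  filter_upwards [e, (h.sl X hX).nest] with n u w
  exact ⟨u.2.1, u.2.2.1, nest_le (fun j => (w.2 j).1) u.1,
    (Fn.comp (·.1) _).trans (w.2 (c n)).2⟩

theorem lt_of (gn : Gn) (pt : Pt) (nar : Nar) : Lt := by
  intro Ω K g M mm D β T η X h hX J j r p κ hJ hκ e ft nl
  exact gn K g M mm D β T η X h hX j J j j p κ hJ hκ
    (e.mono fun _ u => ⟨u.1.trans u.2.1, le_rfl, u.1.trans u.2.1, u.2.2.2⟩) ft
    (nar K g M mm D β T η X h hX J j hJ (e.mono fun _ u => u.2.2.1) ft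
      (pt K g M mm D β T η X h hX _ J j r hJ (e.mono fun _ u => ⟨Nat.zero_le _, u.1, u.2.1⟩) ft nl))

theorem Ft.anti {Ω : ℕ → Type} {P : ∀ n, FP (Ω n)} {g : Gs 3 Ω} {M : ℕ → ℕ} {β : Web.RV Ω}
    {d : ∀ n, Ω n → ℝ × ℝ} {q q' : ℕ → ℕ} (h : Ft P g M β d q) (e : ∀ᶠ n in UF, q' n ≤ q n) :
    Ft P g M β d q' :=
  h.imp fun _ a => ⟨a.1, a.2.mono (e.mono fun n u _ _ w => ⟨w.1, w.2.1, w.2.2.trans
    (U.div_pow_le (a.1.pos n).le u)⟩)⟩

theorem Nl.anti {Ω : ℕ → Type} {P : ∀ n, FP (Ω n)} {g : Gs 3 Ω} {M : ℕ → ℕ} {D : ∀ n, Td (Ω n)}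
    {β : Web.RV Ω} {c q q' r : ℕ → ℕ} (h : Nl P g M D β c q r) (e : ∀ᶠ n in UF, q' n ≤ q n) :
    Nl P g M D β c q' r :=
  ND.mono h (e.mono fun _ u _ _ _ _ w => fl1_eq_of_le u w)

theorem gt_of (con : Con) (pt : Pt) (loc : Loc) (tri : Tri) (zer : Zer) : Gt := by
  intro Ω K g M mm D β T η X h hX c J j q r p κ hJ hκ e f1 f2 nl
  have e1 : ∀ᶠ n in UF, j n ≤ q n := e.mono fun n u => by
    have : (j n : ℝ) ≤ q n := le_trans (le_add_of_nonneg_left (by positivity)) u.2.2.2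
    exact_mod_cast this
  have cJ : ∀ᶠ n in UF, c n ≤ J n := e.mono fun n u => by omega
  have kq : ∀ᶠ n in UF, q n - j n ≤ q n := Eventually.of_forall fun _ => Nat.sub_le _ _
  have oR : OM M r := hJ.mono (e.mono fun _ u => u.2.2.1)
  refine con K g M mm D β T η X h hX c J (fun n => q n - j n) p κ hJ
    (oR.mono (e.mono fun n u => (Nat.sub_le _ _).trans u.1)) hκ ?_ (f2.anti kq)
    (zer K g M mm D β T η X h hX _ _ c J J hJ hJ ?_
      (tri K g M mm D β T η X h hX c J j _ q r hJ ((e.and e1).mono fun n u =>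
        ⟨(Nat.sub_add_cancel u.2).le, u.1.1, u.1.2.1, u.1.2.2.1⟩) f2
        (loc K g M mm D β T η X h hX c (fun n => c n + j n) q r oR
          (e.mono fun n u => ⟨Nat.le_add_right _ _, u.2.1, u.1⟩) f1 nl))
      (pt K g M mm D β T η X h hX c J _ r hJ ((e.and cJ).mono fun n u =>
        ⟨u.2, (Nat.sub_le _ _).trans u.1.1, u.1.2.2.1⟩) (f2.anti kq) (nl.anti kq)))
  · filter_upwards [e, e1, cJ] with n u v w
    refine ⟨w, ?_⟩
    rw [Nat.cast_sub v]; linarith [u.2.2.2]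
  · filter_upwards [cJ, (h.sl X hX).nest] with n u w
    exact ⟨u, u, (Fn.comp (fun x => tk (q n - j n) x.2.2.2) _).trans (w.2 (J n)).2⟩

end Pool.Agent.MP_5168f5_an.R4.LG
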