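import Pool.Agent.MP_5168f5_an.R4.NCx3
import Pool.Agent.MP_5168f5_an.H75T.Graded

/-! The noise step for two blocks of different weight: windows. -/

namespace Pool.Agent.MP_5168f5_an.R4.NCx

open H19 H17S H17F Filter

variable {N : ℕ}

/-- The cell with depth `r j` in the coordinate `j`. -/
noncomputable def flr (r : Fin N → ℕ) (x : V N) : Z N := fun j => fl1 (r j) (x j)

/-- The depths at level `l`: weight one in `S` and weight `ρ` outside. -/
noncomputable def dp (S : Finset (Fin N)) (ρ : ℝ) (l : ℕ) : Fin N → ℕ := fun j =>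
  if j ∈ S then l else ⌊ρ * l⌋₊

/-- An integer vector in units `2^{-R}`. -/
noncomputable def ur (R : ℕ) (u : Z N) : V N := ((2 : ℝ) ^ R)⁻¹ • cz u

/-- The graded cell modulo `b` and the upper digits of the coordinate `i`. -/
noncomputable def gq (r : Fin N → ℕ) (β : ℕ) (i : Fin N) (b x : V N) : Z N × ℤ :=
  (flr r (x - x i • b), fl1 β (x i))

theorem dp_le (S : Finset (Fin N)) {ρ : ℝ} (h : ρ ≤ 1) (l : ℕ) (j : Fin N) : dp S ρ l j ≤ l := by
  unfold dp
  split_ifs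
  · exact le_rfl
  · exact Nat.floor_le_of_le (mul_le_of_le_one_left (Nat.cast_nonneg _) h)

theorem dp_eq {S : Finset (Fin N)} (ρ : ℝ) (l : ℕ) {i j : Fin N} (h : j ∈ S ↔ i ∈ S) :
    dp S ρ l j = dp S ρ l i := by simp only [dp, h]

theorem ch_flr {Ω β : Type} {P : FP Ω} {x : Ω → V N} {G : Ω → β} {r : Fin N → ℕ} {L : ℝ}
    (hL : 0 ≤ L) (h : ∀ a ∈ P.S, ∀ b ∈ P.S, G a = G b → ∀ j, |x a j - x b j| ≤ L / 2 ^ r j) :
    ch P (fun ω => flr r (x ω)) G ≤ N * Real.log (2 * L + 3) := by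
  have := ch_near (P := P) (x := fun ω j => 2 ^ r j * x ω j) (G := G) (j := 0) hL
    fun a ha b hb e => (pi_norm_le_iff_of_nonneg (by positivity)).2 fun j => by
      rw [Pi.sub_apply, ← mul_sub, Real.norm_eq_abs, abs_mul, abs_of_pos (by positivity), pow_zero,
        div_one, mul_comm]
      exact (le_div_iff₀ (by positivity)).1 (h a ha b hb e j)
  rw [Fintype.card_fin] at this
  refine le_of_eq_of_le (ch_ext (fun ω _ => funext fun j => ?_) fun _ _ => rfl) this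
  simp only [flr, flv, fl1, pow_zero, one_mul]

end Pool.Agent.MP_5168f5_an.R4.NCx

namespace Pool.Agent.MP_5168f5_an.H29N

open H19 H17S Pointwise R4.NCx
open H17F (pb cE KE)

variable {N : ℕ}

theorem Gr.pull {G ι β γ : Type} [AddCommGroup G] [DecidableEq G] (M : G →+ G) {U : Finset G}
    {q : ℕ} {C l : ℝ} {f : G → β} {g : G → γ} {T : Finset ι} {s s' : ι → G}
    (h : Gr (U.image M) q C f g l T s s') :
    ∃ u u' : ι → G, Gr U q C (fun y => f (M y)) (fun y => g (M y)) l T u u' := by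
  have k : ∀ s : ι → G, (∀ t ∈ T, s t ∈ q • U.image M) →
      ∃ u : ι → G, ∀ t ∈ T, u t ∈ q • U ∧ M (u t) = s t := fun s hs => by
    have : ∀ t, ∃ u : G, t ∈ T → u ∈ q • U ∧ M u = s t := fun t => by
      by_cases ht : t ∈ T
      · have := hs t ht
        rw [← Finset.image_nsmul] at this
        obtain ⟨u, h1, h2⟩ := Finset.mem_image.1 this
        exact ⟨u, fun _ => ⟨h1, h2⟩⟩
      · exact ⟨0, fun h => absurd h ht⟩
    choose u hu using this
    exact ⟨u, hu⟩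
  obtain ⟨u, hu⟩ := k s fun t ht => (h.lev t ht).1
  obtain ⟨u', hu'⟩ := k s' fun t ht => (h.lev t ht).2
  refine ⟨u, u', h.ne, h.big, fun t ht => ⟨(hu t ht).1, (hu' t ht).1⟩, fun b b' => ?_, fun c => ?_,
    fun b => (h.sub b).imp fun W hW => ⟨hW.1, fun y => hW.2 _⟩⟩
  · refine (h.sep b b').imp fun W hW => ⟨hW.1, fun y t ht => ?_⟩
    rw [map_add, map_add, (hu t ht).2, (hu' t ht).2]
    exact hW.2 _ t ht
  · refine (h.inv c).imp fun W hW => ⟨hW.1, fun y t ht => ?_⟩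
    rw [map_add, map_add, (hu t ht).2, (hu' t ht).2]
    exact hW.2 _ t ht

theorem QI.pull {G β : Type} [AddCommGroup G] (M : G →+ G) {f : G → β} {C : ℝ} (h : QI f C) :
    QI (fun y => f (M y)) C := fun s b => (h (M s) b).imp fun W hW => ⟨hW.1, fun y e => by
  simpa only [map_add] using hW.2 _ e⟩

/-- Stretch the coordinates. -/
def sc (r : Fin N → ℕ) : Z N →+ Z N where
  toFun y := fun j => 2 ^ r j * y j
  map_zero' := by funext j; simp
  map_add' := fun x y => by funext j; simp [mul_add]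

theorem cz_sc (r : Fin N → ℕ) (y : Z N) (j : Fin N) : cz (sc r y) j = 2 ^ r j * cz y j := by
  simp [cz, sc]

theorem wf_sc (R : ℕ) (r : Fin N → ℕ) (y : Z N) : wf (2 ^ R) (sc r y) = flr r (ur R y) := by
  funext j
  simp only [wf, Fq, cz_sc, flr, fl1, ur, Pi.smul_apply, smul_eq_mul]
  congr 1
  simp only [cz, H17F.cz]
  field_simp

theorem qi_flr (R : ℕ) (r : Fin N → ℕ) : QI (fun y => flr r (ur R y)) (121 ^ N) := by
  simpa only [wf_sc] using (qi_wf (N := N) (φ := 2 ^ R) (by positivity)).pull (sc r)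

theorem winG {U : Finset (Z N)} {q R β : ℕ} {r : Fin N → ℕ} {v : V N} {i : Fin N} {T : Finset ℤ}
    (hv : 0 < ‖v‖) (hi : |v i| = ‖v‖) (hs : ∀ j, v j ≠ 0 → r j = r i) (hβ : β ≤ r i)
    (hr : r i ≤ R) (hvβ : ‖v‖ ≤ 2 ^ R / 2 ^ β) (hT : T.Nonempty)
    (hT' : ∀ t ∈ T, 0 ≤ (t : ℝ) ∧ (t : ℝ) ≤ 2 ^ R)
    (h : ∀ t ∈ T, ∀ t' ∈ T, ∃ s ∈ q • U, ∃ s' ∈ q • U, ∀ j,
      |((((t : ℝ) - t') / 2 ^ R) • v - (cz s - cz s')) j| ≤ 2 ^ R / 2 ^ r j) :
    ∃ g : Z N → Z N × Z N, QI g (121 ^ N) ∧ (∀ y y', g y = g y' →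
      gq r β i ((v i)⁻¹ • v) (ur R y) = gq r β i ((v i)⁻¹ • v) (ur R y')) ∧
      ∃ (W : Finset ℤ) (u u' : ℤ → Z N), Gr U q (121 ^ N) (fun y => flr r (ur R y)) g
        (Real.log (2 ^ r i * ‖v‖ / (2 ^ R * 2 ^ R) * T.card / 2)) W u u' := by
  have p : ∀ j : ℕ, (0 : ℝ) < 2 ^ j := fun j => by positivity
  have hvi : v i ≠ 0 := fun e => by rw [e, abs_zero] at hi; exact hv.ne hi
  have n1 : ‖(2 : ℝ) ^ r i • v‖ = 2 ^ r i * ‖v‖ := by
    rw [norm_smul, Real.norm_eq_abs, abs_of_pos (p _)]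
  have n2 : (((2 : ℝ) ^ r i • v) i)⁻¹ • (2 : ℝ) ^ r i • v = (v i)⁻¹ • v := by
    rw [smul_smul, Pi.smul_apply, smul_eq_mul]
    congr 1
    field_simp
  have n3 : ∀ j, 2 ^ r i * v j = 2 ^ r j * v j := fun j => by
    by_cases e : v j = 0
    · rw [e, mul_zero, mul_zero]
    · rw [hs j e]
  have b1 : (1 : ℝ) ≤ 2 ^ β := one_le_pow₀ one_le_two
  obtain ⟨W, s, s', hW⟩ := win (U := U.image (sc r)) (q := q) (n := 2 ^ R) (μ := 2 ^ R)
    (φ := 2 ^ R) (ψ := 2 ^ r i * (2 ^ R / 2 ^ β)) (v := (2 : ℝ) ^ r i • v) (j := i) (T := T) (p R)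
    (by rw [n1]; positivity) (by rw [n1, Pi.smul_apply, smul_eq_mul, abs_mul, abs_of_pos (p _), hi])
    le_rfl (p R) (by
      rw [mul_div_assoc', le_div_iff₀ (p β), mul_comm]
      exact mul_le_mul_of_nonneg_right (pow_le_pow_right₀ one_le_two hβ) (p R).le)
    (by rw [n1]; exact mul_le_mul_of_nonneg_left hvβ (p _).le)
    (by
      rw [n1]
      exact mul_le_mul (pow_le_pow_right₀ one_le_two hr) (hvβ.trans (div_le_self (p R).le b1))
        hv.le (p R).le) hT hT' fun t ht t' ht' => by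
      obtain ⟨s, h1, s', h2, h3⟩ := h t ht t' ht'
      rw [← Finset.image_nsmul]
      refine ⟨_, Finset.mem_image_of_mem _ h1, _, Finset.mem_image_of_mem _ h2,
        (pi_norm_le_iff_of_nonneg (p R).le).2 fun j => ?_⟩
      have e : ((((t : ℝ) - t') / 2 ^ R) • (2 : ℝ) ^ r i • v - (cz (sc r s) - cz (sc r s'))) j =
          2 ^ r j * ((((t : ℝ) - t') / 2 ^ R) • v - (cz s - cz s')) j := by
        simp only [Pi.sub_apply, Pi.smul_apply, smul_eq_mul, cz_sc, n3 j]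
        ring
      rw [e, Real.norm_eq_abs, abs_mul, abs_of_pos (p _), mul_comm]
      exact (le_div_iff₀ (p _)).1 (h3 j)
  obtain ⟨u, u', hu⟩ := hW.pull
  rw [n1, n2] at hu
  simp only [wf_sc] at hu
  have p2 : (0 : ℝ) < 2 ^ r i * (2 ^ R / 2 ^ β) := by positivity
  refine ⟨_, (qi_wg (p R) p2 i _).pull (sc r), fun y y' e => ?_, W, u, u', hu⟩
  have k : ∀ y : Z N, gq r β i ((v i)⁻¹ • v) (ur R y) =
      ((wg (2 ^ R) (2 ^ r i * (2 ^ R / 2 ^ β)) i ((v i)⁻¹ • v) (sc r y)).1,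
        (wg (2 ^ R) (2 ^ r i * (2 ^ R / 2 ^ β)) i ((v i)⁻¹ • v) (sc r y)).2 i) := fun y => by
    refine Prod.ext (funext fun j => ?_) ?_ <;>
      simp only [gq, wg, Fq, md, cz_sc, flr, fl1, ur, Pi.smul_apply, Pi.sub_apply, smul_eq_mul] <;>
      congr 1
    · have : (2 : ℝ) ^ r i * cz y i * ((v i)⁻¹ * v j) = cz y i * (v i)⁻¹ * (2 ^ r j * v j) := by
        rw [← n3 j]; ring
      rw [this]
      simp only [cz, H17F.cz]
      field_simp
    · simp only [cz, H17F.cz]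
      field_simp
  rw [k, k, e]

theorem nrG_lev {S : Set (Fin N)} {U : Finset (Z N)} {q : ℕ} {μ₁ μ₂ : ℝ} {x : V N}
    (h : H75T.NrG S (H17F.cz '' (U : Set (Z N))) q μ₁ μ₂ x) :
    ∃ s ∈ q • U, ∃ s' ∈ q • U, (∀ j, j ∉ S → |(x - (cz s - cz s')) j| ≤ μ₁) ∧
      ∀ j ∈ S, |(x - (cz s - cz s')) j| ≤ μ₂ := by
  obtain ⟨a, b, h1, h2⟩ := h
  choose a' ha ha' using fun i => (h1 i).1
  choose b' hb hb' using fun i => (h1 i).2
  have e : cz (∑ i, a' i) - cz (∑ i, b' i) = ∑ i, (a i - b i) := by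
    funext k
    simp only [cz, ← ha', ← hb', H17F.cz, Pi.sub_apply, Finset.sum_apply, Int.cast_sum,
      Finset.sum_sub_distrib]
  exact ⟨_, sum_mem U q a' ha, _, sum_mem U q b' hb, by rwa [e]⟩

/-- The graded window is long and is a grain for the levels of `U`. -/
def BadG (S : Finset (Fin N)) (U : Finset (Z N)) (q R : ℕ) (r : Fin N → ℕ) (β m : ℕ) (i : Fin N)
    (e k : ℝ) : Prop :=
  k - m * lg ≤ (r i - β) * lg ∧ ∃ b : V N,
    (b i = 1 ∧ ‖b‖ ≤ 1 ∧ ∀ j, b j ≠ 0 → (j ∈ S ↔ i ∈ S)) ∧ ∃ g : Z N → Z N × Z N,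
    (QI g (121 ^ N) ∧ ∀ y y', g y = g y' → gq r β i b (ur R y) = gq r β i b (ur R y')) ∧
    ∃ q' ≤ q, ∃ (W : Finset ℤ) (u u' : ℤ → Z N), Gr U q' (121 ^ N) (fun y => flr r (ur R y)) g
      ((1 - e) * (r i - β) * lg - (2 * m + 1) * lg) W u u'

theorem line_winG {S : Finset (Fin N)} {U : Finset (Z N)} {q R m G : ℕ} {e k ρ : ℝ} (hm : 0 < m)
    (hG : R ≤ m * G) (he : 0 ≤ e) (he' : e ≤ 1) (hk : (m + 1) * lg ≤ k) (h0 : 0 < ρ) (hρ : ρ ≤ 1)
    (h : ¬H75T.GLine S ρ (H17F.cz '' (U : Set (Z N))) (2 ^ R) q (Real.exp k) e) :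
    ∃ j : Fin N × Fin (G + 1) × Fin (G + 1), BadG S U q R (dp S ρ (min (m * j.2.2) R))
      (min (m * j.2.1) (dp S ρ (min (m * j.2.2) R) j.1)) (m + 1) j.1 e k := by
  unfold H75T.GLine at h
  push Not at h
  obtain ⟨q', hq, v, μ, L, T, h1, h2, h3, h4, h5, h6, h7⟩ := h
  push_cast at h3 h4 h6 h7
  have hlg := lg_pos
  have hL : 1 ≤ L := (Real.one_le_exp (le_trans (by positivity) hk)).trans h2
  have hμ : 0 < μ := by linarith
  have hn : (0 : ℝ) < 2 ^ R := by positivity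
  have p1 : 0 < 2 ^ R * (μ / 2 ^ R) ^ ρ := by positivity
  have hμn : μ ≤ 2 ^ R := by
    rcases h3 with h | h
    · exact ((le_mul_of_one_le_right hμ.le hL).trans h.2).trans h4
    · by_contra hc
      have a1 := Real.one_lt_rpow ((one_lt_div hn).2 (not_le.1 hc)) h0
      have a2 := ((le_mul_of_one_le_right p1.le hL).trans h.2).trans h4
      nlinarith
  have l0 : Real.log (2 ^ R * (μ / 2 ^ R) ^ ρ) = R * lg - ρ * (R * lg - Real.log μ) := by
    rw [Real.log_mul hn.ne' (by positivity), Real.log_rpow (by positivity),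
      Real.log_div hμ.ne' hn.ne', log_two_pow]
    ring
  obtain ⟨l, l1, l2, l3⟩ := grid hm hG ((one_le_div hμ).2 hμn) (div_le_self hn.le h1)
  rw [Real.log_div hn.ne' hμ.ne', log_two_pow] at l2 l3
  have m0 : 0 ≤ Real.log μ := Real.log_nonneg h1
  have f1 : (⌊ρ * (m * l : ℕ)⌋₊ : ℝ) ≤ ρ * (m * l : ℕ) := Nat.floor_le (by positivity)
  have f2 := Nat.lt_floor_add_one (ρ * (m * l : ℕ))
  have hv : 1 ≤ ‖v‖ := by
    rcases h3 with h | h
    · exact (one_le_mul_of_one_le_of_one_le h1 hL).trans h.2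
    · refine le_trans ?_ ((le_mul_of_one_le_right p1.le hL).trans h.2)
      rw [← Real.log_le_log_iff one_pos p1, Real.log_one, l0]
      have : 0 ≤ R * lg - Real.log μ := le_trans (by positivity) l2
      nlinarith
  have hv0 : 0 < ‖v‖ := one_pos.trans_le hv
  obtain ⟨i, hi⟩ : ∃ i, |v i| = ‖v‖ := by
    by_contra hc
    push Not at hc
    exact lt_irrefl _ ((pi_norm_lt_iff hv0).2 fun i =>
      lt_of_le_of_ne (norm_le_pi_norm v i) (hc i))
  have hvi : v i ≠ 0 := fun e => by rw [e, abs_zero] at hi; exact hv0.ne hi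
  obtain ⟨g0, g1⟩ : (∀ j, v j ≠ 0 → (j ∈ S ↔ i ∈ S)) ∧
      R * lg + Real.log L ≤ Real.log ‖v‖ + (dp S ρ (m * l) i + m + 1) * lg := by
    rcases h3 with h | h
    · have a : ∀ j, v j ≠ 0 → j ∈ S := fun j hj => by_contra fun k => hj (h.1 j k)
      refine ⟨fun j hj => iff_of_true (a j hj) (a i hvi), ?_⟩
      have := Real.log_le_log (by positivity) h.2
      rw [Real.log_mul hμ.ne' (by positivity)] at this
      rw [dp, if_pos (a i hvi)]
      linarith
    · have a : ∀ j, v j ≠ 0 → j ∉ S := fun j hj k => hj (h.1 j fun k' => k' k)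
      refine ⟨fun j hj => iff_of_false (a j hj) (a i hvi), ?_⟩
      have := Real.log_le_log (by positivity) h.2
      rw [Real.log_mul p1.ne' (by positivity), l0] at this
      rw [dp, if_neg (a i hvi)]
      have a1 := mul_le_mul_of_nonneg_left l3.le h0.le
      have a2 : ρ * (m * lg) ≤ m * lg := mul_le_of_le_one_left (by positivity) hρ
      nlinarith
  obtain ⟨b, b1, b2, b3⟩ := grid hm hG ((one_le_div hv0).2 h4) (div_le_self hn.le hv)
  rw [Real.log_div hn.ne' hv0.ne', log_two_pow] at b2 b3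
  have g2 : k ≤ Real.log L := (Real.le_log_iff_exp_le (by positivity)).2 h2
  have hbl : m * b ≤ dp S ρ (m * l) i := by
    have : ((m * b : ℕ) : ℝ) * lg ≤ (dp S ρ (m * l) i : ℕ) * lg := by linarith
    exact_mod_cast le_of_mul_le_mul_right this hlg
  have hle : ∀ {x : ℝ} {j : ℕ}, 0 < x → j * lg ≤ R * lg - Real.log x → x ≤ 2 ^ R / 2 ^ j := by
    intro x j hx hj
    rw [← Real.log_le_log_iff hx (by positivity), Real.log_div hn.ne' (by positivity),
      log_two_pow, log_two_pow]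
    linarith
  have hT : (0 : ℝ) < T.card := lt_trans (by positivity) h7
  obtain ⟨g, k1, k2, W, u, u', hW⟩ := winG (U := U) (q := q') (T := T) (r := dp S ρ (m * l)) hv0 hi
    (fun j hj => dp_eq _ _ (g0 j hj)) hbl ((dp_le S hρ _ i).trans l1) (hle hv0 b2)
    (Finset.card_pos.1 (by exact_mod_cast hT))
    (fun t ht => by
      have := Finset.mem_Ico.1 (h5 ht)
      exact ⟨by exact_mod_cast this.1, by exact_mod_cast this.2.le⟩)
    fun t ht t' ht' => by
      obtain ⟨s, a1, s', a2, a3, a4⟩ := nrG_lev (h6 t ht t' ht')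
      refine ⟨s, a1, s', a2, fun j => ?_⟩
      by_cases hj : j ∈ S
      · rw [dp, if_pos hj]; exact (a4 j hj).trans (hle hμ l2)
      · rw [dp, if_neg hj]
        refine (a3 j hj).trans (hle p1 ?_)
        rw [l0]
        nlinarith [mul_le_mul_of_nonneg_left l2 h0.le]
  refine ⟨(i, b, l), ?_⟩
  simp only [min_eq_left l1, min_eq_left hbl]
  refine ⟨by push_cast at b2 ⊢; linarith, (v i)⁻¹ • v, ⟨inv_mul_cancel₀ hvi, ?_, fun j hj =>
    g0 j fun e => hj (by simp [e])⟩, g, ⟨k1, k2⟩, q', hq, W, u, u', hW.ne, le_trans ?_ hW.big,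
    hW.lev, hW.sep, hW.inv, hW.sub⟩
  · rw [norm_smul, norm_inv, Real.norm_eq_abs, hi, inv_mul_cancel₀ hv0.ne']
  · have g3 := Real.log_lt_log (by positivity) h7
    rw [Real.log_mul hn.ne' (by positivity), Real.log_rpow (by positivity), log_two_pow] at g3
    rw [Real.log_div (by positivity) two_ne_zero, Real.log_mul (by positivity) hT.ne',
      Real.log_div (by positivity) (by positivity), Real.log_mul hn.ne' hn.ne',
      Real.log_mul (by positivity) hv0.ne', log_two_pow, log_two_pow]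
    change _ ≤ _ - lg
    have g5 : e * Real.log L ≤ e * ((dp S ρ (m * l) i - (m * b : ℕ)) * lg + (m + 1) * lg) :=
      mul_le_mul_of_nonneg_left (by linarith) he
    have g6 : e * ((m + 1) * lg) ≤ (m + 1) * lg := mul_le_of_le_one_left (by positivity) he'
    push_cast at g5 b3 ⊢
    linarith

end Pool.Agent.MP_5168f5_an.H29N
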