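import Pool.Agent.MP_5168f5_an.R4.NCt1

/-! The noise step for two blocks of different weight: no window is a grain. -/

namespace Pool.Agent.MP_5168f5_an.R4.NCx

open H19 H17S H17F Filter

/-- No grain in a graded window, for directions in one block. -/
def NGT {N : ℕ} (S : Finset (Fin N)) (ρ₀ : ℝ) {Ω T : ℕ → Type} (P : ∀ n, FP (Ω n))
    (Θ : ∀ n, Ω n → T n) (x : ∀ n, Ω n → V N) (R : ℕ → ℕ) (ε₀ : ℝ) : Prop :=
  ∀ (Ω' K : ℕ → Type) (Q : ∀ n, FP (Ω' n)) (ρ : ∀ n, Ω' n → Ω n) (κ : ∀ n, Ω' n → K n)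
    (β lam : ℕ → ℕ) (i : Fin N) (b : ∀ n, Ω' n → V N) (E : ∀ n, Ω' n → Prop),
    (∀ n, Law (Q n) (ρ n) (P n) id) → (∀ n, β n ≤ dp S ρ₀ (lam n) i ∧ lam n ≤ R n) →
    Sm R (fun n => mi (Q n) (κ n) (ρ n) fun v => Θ n (ρ n v)) →
    (∀ᶠ n in UF, Fn (Q n) (b n) (fun v => (κ n v, Θ n (ρ n v))) ∧
      Fn (Q n) (E n) (fun v => (κ n v, Θ n (ρ n v))) ∧ ∀ v ∈ (Q n).S,
        b n v i = 1 ∧ ‖b n v‖ ≤ 1 ∧ ∀ j, b n v j ≠ 0 → (j ∈ S ↔ i ∈ S)) →
    Pos Q E →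
    Le R (fun n => ch (cE (Q n) (E n)) (fun v => fl1 (dp S ρ₀ (lam n) i) (x n (ρ n v) i)) fun v =>
        (gq (dp S ρ₀ (lam n)) (β n) i (b n v) (x n (ρ n v)), κ n v, Θ n (ρ n v)))
      fun n => (1 - ε₀) * (dp S ρ₀ (lam n) i - β n) * lg

/-- The graded cell is known from one digit and the cell modulo `b`. -/
theorem ch_cell {N : ℕ} {Ω γ : Type} (P : FP Ω) (x b : Ω → V N) (K : Ω → γ) (r : Fin N → ℕ) (β : ℕ)
    (i : Fin N) (h : Fn P b K) (hb : ∀ a ∈ P.S, ‖b a‖ ≤ 1 ∧ ∀ j, b a j ≠ 0 → r j = r i) :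
    ch P (fun a => flr r (x a)) (fun a => (gq r β i (b a) (x a), K a)) ≤
      ch P (fun a => fl1 (r i) (x a i)) (fun a => (gq r β i (b a) (x a), K a)) + N * 5 := by
  have a1 := ch_tri (P := P) (fun a => flr r (x a)) (fun a => fl1 (r i) (x a i))
    fun a => (gq r β i (b a) (x a), K a)
  have a2 := ch_flr (P := P) (x := x) (r := r) (G := fun a => (fl1 (r i) (x a i),
    gq r β i (b a) (x a), K a)) zero_le_two fun a ha c hc e j => by
    simp only [gq, Prod.mk.injEq] at e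
    have e1 := (abs_sub_lt_of_fl1_eq e.1).le
    have e2 := (abs_sub_lt_of_fl1_eq (congrFun e.2.1.1 j)).le
    rw [← h a ha c hc e.2.2] at e2
    have e3 : x a j - x c j = (x a - x a i • b a) j - (x c - x c i • b a) j +
        (x a i - x c i) * b a j := by
      simp only [Pi.sub_apply, Pi.smul_apply, smul_eq_mul]; ring
    have e4 : |(x a i - x c i) * b a j| ≤ (2 ^ r j)⁻¹ := by
      by_cases k : b a j = 0
      · rw [k, mul_zero, abs_zero]; positivity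
      · rw [abs_mul, (hb a ha).2 j k]
        exact (mul_le_of_le_one_right (abs_nonneg _)
          ((norm_le_pi_norm (b a) j).trans (hb a ha).1)).trans e1
    rw [e3, div_eq_mul_inv]
    linarith [abs_add_le ((x a - x a i • b a) j - (x c - x c i • b a) j) ((x a i - x c i) * b a j)]
  have a3 := mul_le_mul_of_nonneg_left (log_le_five (x := 2 * 2 + 3) (by norm_num) (by norm_num))
    (Nat.cast_nonneg (α := ℝ) N)
  linarith

end Pool.Agent.MP_5168f5_an.R4.NCx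

namespace Pool.Agent.MP_5168f5_an.H29N

open H19 H17S Filter R4.NCx
open H17F (pb cE bil mi UF Le Sm Big Pos Whp KE)

variable {N : ℕ} {S : Finset (Fin N)}

theorem bad_boundG (hK : KE) {T Ω0 Ω' : Type} {P0 : FP Ω0} {Θ : Ω0 → T} {A : Ω0 → Z N}
    {U : T × Z N → Finset (Z N)} {Q : FP Ω'} {ρ : Ω' → Ω0} {ω : Ω' → Z N} {ε κ : ℝ}
    (h : Tr P0 Θ A U Q ρ ω ε κ) (hl : Law Q (fun x => (Θ (ρ x), ω x)) P0 fun x => (Θ x, A x))
    (q R : ℕ) (r : Fin N → ℕ) (β m : ℕ) (i : Fin N) (e k : ℝ)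
    (hr : ∀ j, (j ∈ S ↔ i ∈ S) → r j = r i) :
    ∃ b : T × Z N → V N, (∀ v, b v i = 1 ∧ ‖b v‖ ≤ 1 ∧ ∀ j, b v j ≠ 0 → (j ∈ S ↔ i ∈ S)) ∧
      pb Q (fun x => BadG S (U (Θ (ρ x), ω x)) q R r β m i e k) *
        ((1 - e) * (r i - β) * lg - (2 * m + 1) * lg) ≤
      pb Q (fun x => BadG S (U (Θ (ρ x), ω x)) q R r β m i e k) *
        ch (cE Q fun x => BadG S (U (Θ (ρ x), ω x)) q R r β m i e k)
          (fun x => fl1 (r i) (ur R (A (ρ x)) i))
          (fun x => (gq r β i (b (Θ (ρ x), ω x)) (ur R (A (ρ x))), ω x, Θ (ρ x))) +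
        4 * q * ε + κ + 10 * (2 * N * 5) := by
  classical
  have c1 : (1 : ℝ) ≤ 121 ^ N := one_le_pow₀ (by norm_num)
  have c2 : ∀ {γ : Type} (c : γ), QI (fun _ : Z N => c) (121 ^ N) := fun c _ _ =>
    ⟨{c}, by simpa using c1, fun _ _ => by simp⟩
  have hb : ∀ v, ∃ (b : V N) (g : Z N → Z N × Z N),
      (b i = 1 ∧ ‖b‖ ≤ 1 ∧ ∀ j, b j ≠ 0 → (j ∈ S ↔ i ∈ S)) ∧ QI g (121 ^ N) ∧
      (BadG S (U v) q R r β m i e k →
        (∀ y y', g y = g y' → gq r β i b (ur R y) = gq r β i b (ur R y')) ∧ ∃ q' ≤ q,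
        ∃ (W : Finset ℤ) (u u' : ℤ → Z N), Gr (U v) q' (121 ^ N) (fun y => flr r (ur R y)) g
          ((1 - e) * (r i - β) * lg - (2 * m + 1) * lg) W u u') := by
    intro v
    by_cases hv : BadG S (U v) q R r β m i e k
    · obtain ⟨b, h1, g, h2, h3⟩ := hv.2
      exact ⟨b, g, h1, h2.1, fun _ => ⟨h2.2, h3⟩⟩
    · refine ⟨Pi.single i 1, fun _ => 0, ⟨by simp, by simp [Pi.norm_single], fun j hj => ?_⟩, c2 _,
        fun h => absurd h hv⟩
      rw [show j = i from by_contra fun k => hj (Pi.single_eq_of_ne k _)]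
  choose b g hb1 hb2 hb3 using hb
  refine ⟨b, hb1, ?_⟩
  have h1 := h (Z N) (Z N × Z N) ℤ q (121 ^ N)
    (fun v y => if BadG S (U v) q R r β m i e k then flr r (ur R y) else 0) g
    (fun v => if BadG S (U v) q R r β m i e k then
      (1 - e) * (r i - β) * lg - (2 * m + 1) * lg else 0) c1
    (fun v => by
      by_cases hv : BadG S (U v) q R r β m i e k
      · simp only [if_pos hv]
        exact qi_flr R r
      · simp only [if_neg hv]
        exact c2 _) hb2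
    fun v => by
      by_cases hv : BadG S (U v) q R r β m i e k
      · simp only [if_pos hv]
        exact Or.inr (hb3 v hv).2
      · exact Or.inl (if_neg hv).le
  rw [← hl fun v => if BadG S (U v) q R r β m i e k then
      (1 - e) * (r i - β) * lg - (2 * m + 1) * lg else 0] at h1
  have h2 := ch_ite hK Q (fun x => BadG S (U (Θ (ρ x), ω x)) q R r β m i e k)
    (fun x => flr r (ur R (A (ρ x)))) 0 (fun x => (g (Θ (ρ x), ω x) (A (ρ x)), Θ (ρ x), ω x))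
    fun a _ a' _ e' => by
      simp only [Prod.mk.injEq] at e' ⊢
      rw [e'.2.1, e'.2.2]
  have h4 : Q.E (fun x => if BadG S (U (Θ (ρ x), ω x)) q R r β m i e k then
      (1 - e) * (r i - β) * lg - (2 * m + 1) * lg else 0) =
      ((1 - e) * (r i - β) * lg - (2 * m + 1) * lg) *
        pb Q fun x => BadG S (U (Θ (ρ x), ω x)) q R r β m i e k := by
    unfold pb
    rw [← Q.E_mul]
    exact Q.E_congr fun x _ => by split_ifs <;> simp
  have h5 : Real.log ((121 : ℝ) ^ N) ≤ N * 5 := by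
    rw [Real.log_pow]
    exact mul_le_mul_of_nonneg_left (log_le_five (by norm_num) (by norm_num)) (Nat.cast_nonneg _)
  have n0 : (0 : ℝ) ≤ N := Nat.cast_nonneg _
  by_cases hx : ∃ x ∈ Q.S, BadG S (U (Θ (ρ x), ω x)) q R r β m i e k
  · have h3 : ch (cE Q fun x => BadG S (U (Θ (ρ x), ω x)) q R r β m i e k)
        (fun x => flr r (ur R (A (ρ x)))) (fun x => (g (Θ (ρ x), ω x) (A (ρ x)), Θ (ρ x), ω x)) ≤
        ch (cE Q fun x => BadG S (U (Θ (ρ x), ω x)) q R r β m i e k)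
          (fun x => flr r (ur R (A (ρ x))))
          fun x => (gq r β i (b (Θ (ρ x), ω x)) (ur R (A (ρ x))), ω x, Θ (ρ x)) :=
      ch_anti fun a ha a' _ e' => by
        simp only [Prod.mk.injEq] at e' ⊢
        refine ⟨?_, e'.2.2, e'.2.1⟩
        have e1 := e'.1
        rw [← e'.2.1, ← e'.2.2] at e1 ⊢
        exact (hb3 _ (mem_cE hx ha).2).1 _ _ e1
    have h6 := ch_cell (cE Q fun x => BadG S (U (Θ (ρ x), ω x)) q R r β m i e k)
      (fun x => ur R (A (ρ x))) (fun x => b (Θ (ρ x), ω x)) (fun x => (ω x, Θ (ρ x))) r β i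
      (fun a _ a' _ e' => by
        simp only [Prod.mk.injEq] at e' ⊢
        rw [e'.1, e'.2]) fun a _ => ⟨(hb1 _).2.1, fun j hj => hr j ((hb1 _).2.2 j hj)⟩
    have h7 := mul_le_mul_of_nonneg_left (h3.trans h6)
      (pb_nonneg Q fun x => BadG S (U (Θ (ρ x), ω x)) q R r β m i e k)
    have h8 := mul_le_of_le_one_left (show (0 : ℝ) ≤ N * 5 by positivity)
      (pb_le_one Q fun x => BadG S (U (Θ (ρ x), ω x)) q R r β m i e k)
    linarith
  · push Not at hx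
    rw [H17F.pb_zero hx] at h2 h4 ⊢
    linarith

/-- No long graded window is a grain with positive probability. -/
theorem no_badG (hK : KE) {Ω₀ T Ω' : ℕ → Type} {P₀ : ∀ n, FP (Ω₀ n)} {Θ : ∀ n, Ω₀ n → T n}
    {A : ∀ n, Ω₀ n → Z N} {R : ℕ → ℕ} {e κ p₁ a ρ₀ : ℝ} {η : ℕ → ℝ} {q G : ℕ} {m : ℕ → ℕ}
    {U : ∀ n, T n × Z N → Finset (Z N)} {Q : ∀ n, FP (Ω' n)} {ρ : ∀ n, Ω' n → Ω₀ n}
    {ω : ∀ n, Ω' n → Z N} (hR : Big R) (hN : NGT S ρ₀ P₀ Θ (fun n x => ur (R n) (A n x)) R (2 * e))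
    (he : 0 < e) (he' : e ≤ 1) (hκ : 0 < κ) (hp : 0 < p₁) (hG0 : 0 < G) (hG : 12 ≤ e * κ * G)
    (hm : ∀ᶠ n in UF, (m n : ℝ) ≤ R n / G + 1)
    (hq : 4 * q * a ≤ p₁ * e * κ / 4) (hη : Sm R η) (hl : ∀ n, Law (Q n) (ρ n) (P₀ n) id)
    (h : ∀ᶠ n in UF, Law (Q n) (fun x => (Θ n (ρ n x), ω n x)) (P₀ n) (fun x => (Θ n x, A n x)) ∧
      ch (Q n) (ω n) (fun x => Θ n (ρ n x)) ≤ ch (Q n) (ω n) (ρ n) + η n ∧
      Tr (P₀ n) (Θ n) (A n) (U n) (Q n) (ρ n) (ω n) (a * R n) (η n))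
    (β lam : ℕ → ℕ) (i : Fin N) (hb : ∀ n, β n ≤ dp S ρ₀ (lam n) i ∧ lam n ≤ R n) :
    ∀ᶠ n in UF, pb (P₀ n) (fun x =>
      BadG S (U n (Θ n x, A n x)) q (R n) (dp S ρ₀ (lam n)) (β n) (m n) i e (κ * R n)) ≤ p₁ := by
  classical
  by_contra hc
  rw [H17F.not_ev] at hc
  have hb' : ∀ n, ∃ b : T n × Z N → V N,
      (∀ v, b v i = 1 ∧ ‖b v‖ ≤ 1 ∧ ∀ j, b v j ≠ 0 → (j ∈ S ↔ i ∈ S)) ∧
      ((Law (Q n) (fun x => (Θ n (ρ n x), ω n x)) (P₀ n) (fun x => (Θ n x, A n x)) ∧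
        Tr (P₀ n) (Θ n) (A n) (U n) (Q n) (ρ n) (ω n) (a * R n) (η n)) →
      pb (Q n) (fun x => BadG S (U n (Θ n (ρ n x), ω n x)) q (R n) (dp S ρ₀ (lam n)) (β n) (m n) i e
          (κ * R n)) * ((1 - e) * (dp S ρ₀ (lam n) i - β n) * lg - (2 * m n + 1) * lg) ≤
      pb (Q n) (fun x => BadG S (U n (Θ n (ρ n x), ω n x)) q (R n) (dp S ρ₀ (lam n)) (β n) (m n) i e
          (κ * R n)) *
        ch (cE (Q n) fun x => BadG S (U n (Θ n (ρ n x), ω n x)) q (R n) (dp S ρ₀ (lam n)) (β n)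
          (m n) i e (κ * R n)) (fun x => fl1 (dp S ρ₀ (lam n) i) (ur (R n) (A n (ρ n x)) i))
          (fun x => (gq (dp S ρ₀ (lam n)) (β n) i (b (Θ n (ρ n x), ω n x)) (ur (R n) (A n (ρ n x))),
            ω n x, Θ n (ρ n x))) + 4 * q * (a * R n) + η n + 10 * (2 * N * 5)) := by
    intro n
    by_cases hn : Law (Q n) (fun x => (Θ n (ρ n x), ω n x)) (P₀ n) (fun x => (Θ n x, A n x)) ∧
        Tr (P₀ n) (Θ n) (A n) (U n) (Q n) (ρ n) (ω n) (a * R n) (η n)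
    · obtain ⟨b, h1, h2⟩ := bad_boundG hK hn.2 hn.1 q (R n) (dp S ρ₀ (lam n)) (β n) (m n) i e
        (κ * R n) fun j hj => dp_eq _ _ hj
      exact ⟨b, h1, fun _ => h2⟩
    · refine ⟨fun _ => Pi.single i 1, fun _ => ⟨by simp, by simp [Pi.norm_single], fun j hj => ?_⟩,
        fun h => absurd h hn⟩
      rw [show j = i from by_contra fun k => hj (Pi.single_eq_of_ne k _)]
  choose b hb1 hb2 using hb'
  have hpos : ∀ᶠ n in UF, p₁ ≤ pb (Q n) fun x => BadG S (U n (Θ n (ρ n x), ω n x)) q (R n)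
      (dp S ρ₀ (lam n)) (β n) (m n) i e (κ * R n) := by
    filter_upwards [hc, h] with n h1 h2
    exact (not_le.1 h1).le.trans (le_of_eq (h2.1 fun v =>
      if BadG S (U n v) q (R n) (dp S ρ₀ (lam n)) (β n) (m n) i e (κ * R n) then 1 else 0).symm)
  have k := hN Ω' (fun _ => Z N) Q ρ ω β lam i (fun n x => b n (Θ n (ρ n x), ω n x))
    (fun n x => BadG S (U n (Θ n (ρ n x), ω n x)) q (R n) (dp S ρ₀ (lam n)) (β n) (m n) i e
      (κ * R n)) hl hb (hη.mono (h.mono fun n hn => by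
      have : ch (Q n) (ω n) (ρ n) ≤ ch (Q n) (ω n) fun v => (ρ n v, Θ n (ρ n v)) :=
        ch_anti ((Fn.rfl _).pair (Fn.comp _ _))
      unfold mi
      linarith [hn.2.1]))
    (Eventually.of_forall fun n => ⟨fun x _ y _ e' => by
        simp only [Prod.mk.injEq] at e' ⊢
        rw [e'.1, e'.2], fun x _ y _ e' => by
        simp only [Prod.mk.injEq] at e' ⊢
        rw [e'.1, e'.2], fun x _ => hb1 n _⟩) ⟨p₁, hp, hpos⟩
  have hG0' : (0 : ℝ) < G := by exact_mod_cast hG0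
  obtain ⟨n, k1, k2, k3, k4, k5, k6, k8⟩ := ((k (e * κ / 4) (by positivity)).and (hpos.and (h.and
    ((hη (p₁ * e * κ / 16) (by positivity)).and ((hR.ev (8 / (e * κ))).and
      ((hR.sm (4 * p₁ + 50 * (2 * N) + 1) (p₁ * e * κ / 8) (by positivity)).and hm)))))).exists
  obtain ⟨x, -, hx⟩ := H17F.ex_of_pb (hp.trans_le k2)
  have k7 := hb2 n ⟨k3.1, k3.2.2⟩
  rw [div_le_iff₀ (by positivity)] at k5
  exact arith (D := (dp S ρ₀ (lam n) i - β n) * lg) (m := m n) (R := R n) (N := 2 * N) hp k2 he he'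
    hκ (Nat.cast_nonneg _) (Nat.cast_nonneg _) k8 hG0' hG hx.1 (le_of_le_of_eq k1 (by ring)) hq
    (by simpa using k4) (by linarith) (by linarith) (le_of_eq_of_le (by ring) k7)

end Pool.Agent.MP_5168f5_an.H29N
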