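import Pool.Agent.MP_5168f5_an.R4.NCt2

/-! The noise step for two blocks of different weight: two variables with the same law. -/

namespace Pool.Agent.MP_5168f5_an.H29N

open H19 H17S Filter R4.NCx
open H17F (pb cE bil mi UF Le Sm Big Pos Whp KE Sub)

variable {N : ℕ}

/-- The finite statement at fixed parameters. -/
def CoreG (Ln : Finset (Z N) → Prop) (Sd : ℤ × Z N → Prop) (c ε κ : ℝ) (R : ℕ) : Prop :=
  ∀ (Ω : Type) (P : FP Ω) (d w : Ω → ℤ × Z N)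
    (U : Finset (Z N)) (L : ℝ), 1 ≤ L → L ≤ Real.exp (κ * R) →
    (∀ ω ∈ P.S, |((d ω).1 : ℝ)| ≤ 2 ^ R ∧ |((w ω).1 : ℝ)| ≤ 2 * 2 ^ R ∧
      ‖H17F.cz (d ω).2‖ ≤ L * 2 ^ R ∧ ‖H17F.cz (w ω).2‖ ≤ L * 2 ^ R) →
    (∀ ω ∈ P.S, Sd (d ω)) →
    pb P (fun ω => ¬∃ u ∈ U, ‖bil R (d ω) (w ω) - H17F.cz u‖ ≤ L) ≤ κ →
    hh P d - ch P d w ≤ κ * R →
    R * lg - κ * R ≤ hh P (fun ω => (d ω).1) → R * lg - κ * R ≤ hh P (fun ω => (w ω).1) →
    Ln U → pb P (fun ω => 2 ^ R * Real.exp (-(c * R)) < ‖bil R (d ω) (w ω)‖) ≤ ε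

theorem ctxG {Ln : Finset (Z N) → Prop} {Sd : ℤ × Z N → Prop} {c ε κ δ : ℝ} {R : ℕ}
    (hC : CoreG Ln Sd c ε κ R) {Ω W : Type} (P : FP Ω)
    (v : Ω → W) (d w : Ω → ℤ × Z N) (U : W → Finset (Z N)) (D : Ω → Z N) {L : ℝ} (hκ : 0 < κ)
    (hR : 0 < R) (hε : 0 ≤ ε) (h1 : 1 ≤ L) (h2 : L ≤ Real.exp (κ * R))
    (hb : ∀ ω ∈ P.S, (|((d ω).1 : ℝ)| ≤ 2 ^ R ∧ |((w ω).1 : ℝ)| ≤ 2 * 2 ^ R ∧
      ‖H17F.cz (d ω).2‖ ≤ L * 2 ^ R ∧ ‖H17F.cz (w ω).2‖ ≤ L * 2 ^ R) ∧ Sd (d ω) ∧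
      ‖bil R (d ω) (w ω) - H17F.cz (D ω)‖ ≤ L)
    (i1 : pb P (fun ω => ¬Ln (U (v ω))) ≤ δ)
    (i2 : P.E (fun ω => if D ω ∈ U (v ω) then 0 else 1) ≤ κ * δ)
    (i3 : (ch P d v - ch P d fun ω => (w ω, v ω)) ≤ κ * R * δ)
    (i4 : R * lg + 2 - ch P (fun ω => (d ω).1) v ≤ κ * R * δ)
    (i5 : R * lg + 2 - ch P (fun ω => (w ω).1) v ≤ κ * R * δ) :
    pb P (fun ω => 2 ^ R * Real.exp (-(c * R)) < ‖bil R (d ω) (w ω)‖) ≤ ε + 5 * δ := by
  classical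
  have hκR : 0 < κ * R := by positivity
  have j1 := (inv_mul_le_iff₀ hκ).2 i2
  have j2 := (inv_mul_le_iff₀ hκR).2 (show (ch P d v - ch P d fun ω => (w ω, v ω)) +
    (R * lg + 2 - ch P (fun ω => (d ω).1) v) + (R * lg + 2 - ch P (fun ω => (w ω).1) v) ≤
      κ * R * (3 * δ) by linarith)
  refine le_trans ?_ (show ε + pb P (fun ω => ¬Ln (U (v ω))) +
    κ⁻¹ * P.E (fun ω => if D ω ∈ U (v ω) then 0 else 1) + (κ * R)⁻¹ *
      ((ch P d v - ch P d fun ω => (w ω, v ω)) + (R * lg + 2 - ch P (fun ω => (d ω).1) v) +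
        (R * lg + 2 - ch P (fun ω => (w ω).1) v)) ≤ _ by linarith)
  have e0 : pb P (fun ω => 2 ^ R * Real.exp (-(c * R)) < ‖bil R (d ω) (w ω)‖) =
      P.E fun ω => pb (cv P v (v ω)) fun a => 2 ^ R * Real.exp (-(c * R)) < ‖bil R (d a) (w a)‖ :=
    (E_cv P v fun _ a => if 2 ^ R * Real.exp (-(c * R)) < ‖bil R (d a) (w a)‖ then 1 else 0).symm
  rw [e0, ← E_cv P v fun s a => if D a ∈ U s then 0 else 1, ← ent_cv P v fun _ => d,
    ← ch_cv P v (fun _ => d) fun _ => w, ← ent_cv P v fun _ a => (d a).1,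
    ← ent_cv P v fun _ a => (w a).1, ← P.E_const ε, ← P.E_const (R * lg + 2), pb, ← FP.E_sub,
    ← FP.E_sub, ← FP.E_sub, ← FP.E_add, ← FP.E_add, ← FP.E_add, ← FP.E_mul, ← FP.E_mul,
    ← FP.E_add, ← FP.E_add]
  refine P.E_mono fun ω hω => ?_
  have hm : ∀ a ∈ (cv P v (v ω)).S, a ∈ P.S := fun a ha => ((mem_cv P v ⟨ω, hω, rfl⟩ a).1 ha).1
  set Pv := cv P v (v ω)
  have k1 : 0 ≤ Pv.E fun a => if D a ∈ U (v ω) then (0 : ℝ) else 1 :=
    Pv.E_nonneg fun _ _ => by split_ifs <;> norm_num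
  have k2 : 0 ≤ hh Pv d - ch Pv d w := sub_nonneg.2 (ch_le_hh _ _)
  have k3 : 0 ≤ R * lg + 2 - hh Pv fun a => (d a).1 := sub_nonneg.2 (hh_int Pv _ R fun a ha => by
    have := (hb a (hm a ha)).1.1
    have h : (0 : ℝ) < 2 ^ R := by positivity
    linarith)
  have k4 : 0 ≤ R * lg + 2 - hh Pv fun a => (w a).1 :=
    sub_nonneg.2 (hh_int Pv _ R fun a ha => (hb a (hm a ha)).1.2.1)
  have k5 := pb_le_one Pv fun a => 2 ^ R * Real.exp (-(c * R)) < ‖bil R (d a) (w a)‖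
  have k6 : 0 ≤ κ⁻¹ * Pv.E fun a => if D a ∈ U (v ω) then (0 : ℝ) else 1 := by positivity
  have k7 : 0 ≤ (κ * R)⁻¹ * (hh Pv d - ch Pv d w + (R * lg + 2 - hh Pv fun a => (d a).1) +
      (R * lg + 2 - hh Pv fun a => (w a).1)) := by positivity
  split_ifs with hl
  swap
  · linarith
  by_cases c1 : κ < Pv.E fun a => if D a ∈ U (v ω) then (0 : ℝ) else 1
  · have := (one_le_inv_mul₀ hκ).2 c1.le
    linarith
  by_cases c2 : κ * R < hh Pv d - ch Pv d w + (R * lg + 2 - hh Pv fun a => (d a).1) +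
      (R * lg + 2 - hh Pv fun a => (w a).1)
  · have := (one_le_inv_mul₀ hκR).2 c2.le
    linarith
  push Not at c1 c2
  have := hC Ω Pv d w (U (v ω)) L h1 h2 (fun a ha => (hb a (hm a ha)).1)
    (fun a ha => (hb a (hm a ha)).2.1) (le_trans (Pv.E_mono fun a ha => by
      by_cases h : D a ∈ U (v ω)
      · rw [if_pos h, if_neg (not_not.2 ⟨_, h, (hb a (hm a ha)).2.2⟩)]
      · rw [if_neg h]; split_ifs <;> norm_num) c1)
    (by linarith) (by linarith) (by linarith) hl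
  linarith

theorem ncWG (S : Finset (Fin N)) {ρ₀ ε₀ : ℝ} (r0 : 0 < ρ₀) (r1 : ρ₀ < 1) (h0 : 0 < ε₀)
    (h1 : ε₀ ≤ 1) : ∃ c : ℝ, 0 < c ∧
    ∀ {Ω T : ℕ → Type} {P : ∀ n, FP (Ω n)} {Θ : ∀ n, Ω n → T n} {A A' : ∀ n, Ω n → Z N}
    {d w : ∀ n, Ω n → ℤ × Z N} {R : ℕ → ℕ} {L : ℕ → ℝ} {C : ℝ}, Big R → Sub R L →
    NGT S ρ₀ P Θ (fun n x => ur (R n) (A n x)) R ε₀ →
    (∀ n, H17F.Law (P n) (fun ω => (Θ n ω, A' n ω)) (P n) fun ω => (Θ n ω, A n ω)) →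
    (∀ᶠ n in UF, ch (P n) (A n) (Θ n) ≤ C * R n ∧
      ∀ ω ∈ (P n).S, (|((d n ω).1 : ℝ)| ≤ 2 ^ R n ∧ |((w n ω).1 : ℝ)| ≤ 2 * 2 ^ R n ∧
        ‖H17F.cz (d n ω).2‖ ≤ L n * 2 ^ R n ∧ ‖H17F.cz (w n ω).2‖ ≤ L n * 2 ^ R n) ∧
        ∀ j, j ∉ S → (d n ω).2 j = 0) →
    Whp P (fun n ω => ‖bil (R n) (d n ω) (w n ω) - H17F.cz (A n ω - A' n ω)‖ ≤ L n) →
    Sm R (fun n => mi (P n) (A n) (fun ω => A' n ω - A n ω) (Θ n)) →
    Sm R (fun n => mi (P n) (d n) (w n) fun ω => (A n ω, Θ n ω)) →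
    Le R (fun n => R n * lg) (fun n => ch (P n) (fun ω => (d n ω).1) fun ω => (A n ω, Θ n ω)) →
    Le R (fun n => R n * lg) (fun n => ch (P n) (fun ω => (w n ω).1) fun ω => (A n ω, Θ n ω)) →
    Whp P fun n ω => ‖H17F.cz (A' n ω - A n ω)‖ ≤ 2 ^ R n * Real.exp (-(c * R n)) := by
  classical
  obtain ⟨q, c₁, hc₁, hC⟩ := H75T.tieG N (ε₀ / 2) ρ₀ (half_pos h0) r0 r1
  have hlg := lg_pos
  have hc : 0 < min c₁ (lg / 2) / 2 := half_pos (lt_min hc₁ (half_pos hlg))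
  refine ⟨min c₁ (lg / 2) / 2, hc, ?_⟩
  intro Ω T P Θ A A' d w R L C hR hL hN hlaw hb hw i1 i2 i3 i4 ε' hε'
  obtain ⟨ε, rfl⟩ : ∃ ε, ε' = 2 * ε := ⟨ε' / 2, by ring⟩
  have hε : 0 < ε := by linarith
  obtain ⟨R₀, κ, hκ, hC⟩ := hC (ε / 2) (half_pos hε)
  set e := ε₀ / 2 with he
  have he0 : 0 < e := half_pos h0
  obtain ⟨G, hG⟩ := exists_nat_gt (12 / (e * κ))
  have hG0 : 0 < G := by
    exact_mod_cast lt_trans (show (0 : ℝ) < 12 / (e * κ) by positivity) hG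
  have hG1 : (0 : ℝ) < G := by exact_mod_cast hG0
  rw [div_lt_iff₀ (by positivity)] at hG
  set k : ℝ := ((Fintype.card (Fin N × Fin (2 * G + 1) × Fin (2 * G + 1)) : ℕ) : ℝ) with hk
  have hk0 : 0 ≤ k := Nat.cast_nonneg _
  set p₁ := ε / 10 / (k + 1) with hp₁
  have hp : 0 < p₁ := by positivity
  set a := p₁ * e * κ / 16 / (q + 1) with ha
  have ha0 : 0 < a := by positivity
  set t := a * κ * ε / 80 with ht
  have ht0 : 0 < t := by positivity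
  obtain ⟨J, hJ⟩ := exists_nat_gt (C / t)
  rw [div_lt_iff₀ ht0] at hJ
  set η : ℕ → ℝ := fun n => mi (P n) (A n) (fun ω => A' n ω - A n ω) (Θ n) with hη
  have ex : ∀ n, ∃ (U : T n × Z N → Finset (Z N)) (Ω' : Type) (Q : FP Ω') (ρ : Ω' → Ω n)
      (ω : Ω' → Z N), Law Q ρ (P n) id ∧
      (ch (P n) (A n) (Θ n) < J * (t * R n) ∧ 0 < a * R n →
        (Law Q (fun x => (Θ n (ρ x), ω x)) (P n) (fun x => (Θ n x, A n x)) ∧
        ch Q ω (fun x => Θ n (ρ x)) ≤ ch Q ω ρ + 2 ^ J * η n ∧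
        Tr (P n) (Θ n) (A n) U Q ρ ω (a * R n) (2 ^ J * η n)) ∧
        (P n).E (fun x => if A n x - A' n x ∈ U (Θ n x, A n x) then 0 else 1) ≤
          (2 * (t * R n) + 3 * (2 ^ J * η n) + η n) / (a * R n)) := by
    intro n
    by_cases hn : ch (P n) (A n) (Θ n) < J * (t * R n) ∧ 0 < a * R n
    · obtain ⟨U, Ω', Q, ρ, ω, -, k1, k2, k3, k4, k5⟩ := noise (P n) (Θ n) (A n) (P n) (Θ n)
        (A n) (A' n) (fun _ => rfl) (hlaw n) (η := η n) (by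
          have s1 := ch_symm (P := P n) (A n) (fun ω => A' n ω - A n ω) (Θ n)
          have s2 : ch (P n) (fun ω => A' n ω - A n ω) (fun ω => (A n ω, Θ n ω)) ≤
              ch (P n) (fun ω => A' n ω - A n ω) fun ω => (Θ n ω, A n ω) :=
            ch_anti ((Fn.snd _ _).pair (Fn.fst _ _))
          simp only [hη, mi]
          linarith) hn.1 hn.2
      exact ⟨U, Ω', Q, ρ, ω, k1, fun _ => ⟨⟨k2, k3, k5⟩, k4⟩⟩
    · exact ⟨fun _ => ∅, _, P n, id, fun _ => 0, fun _ => rfl, fun h => absurd h hn⟩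
  choose U Ω' Q ρ ω hl hx using ex
  have good : ∀ᶠ n in UF, ch (P n) (A n) (Θ n) < J * (t * R n) ∧ 0 < a * R n := by
    filter_upwards [hb, hR.ev 1] with n k1 k2
    exact ⟨by nlinarith [k1.1], by positivity⟩
  have hq : 4 * q * a ≤ p₁ * e * κ / 4 := by
    have : a * (q + 1) = p₁ * e * κ / 16 := div_mul_cancel₀ _ (by positivity)
    linarith
  have hm : ∀ᶠ n in UF, ((R n / (2 * G) + 1 + 1 : ℕ) : ℝ) ≤ R n / G + 1 :=
    (hR.ev (2 * G)).mono fun n hn => by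
      have a1 : ((R n / (2 * G) : ℕ) : ℝ) ≤ R n / (2 * G : ℕ) := Nat.cast_div_le
      have a2 : (R n : ℝ) / (2 * G : ℕ) = R n / G / 2 := by push_cast; field_simp
      have a3 : (2 : ℝ) ≤ R n / G := (le_div_iff₀ hG1).2 hn
      push_cast at a1 a2 ⊢
      linarith
  have bad := eventually_all.2 fun j : Fin N × Fin (2 * G + 1) × Fin (2 * G + 1) =>
    no_badG H17F.rowKE (U := U) (q := q) hR (by rw [he, mul_div_cancel₀ _ two_ne_zero]; exact hN)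
      he0 (by linarith) hκ hp hG0 (by linarith) hm hq (i1.smul (c := 2 ^ J) (by positivity)) hl
      (good.mono fun n h => (hx n h).1)
      (fun n => min ((R n / (2 * G) + 1) * j.2.1)
        (dp S ρ₀ (min ((R n / (2 * G) + 1) * j.2.2) (R n)) j.1))
      (fun n => min ((R n / (2 * G) + 1) * j.2.2) (R n)) j.1
      fun n => ⟨min_le_right _ _, min_le_right _ _⟩
  filter_upwards [bad, good, hb, hR.ev R₀, hR.ev 1, hL.2 κ hκ, hL.2 _ hc,
    hR.sm 1 _ hc, ((i1.smul (c := 3 * 2 ^ J) (by positivity)).add i1) (2 * t) (by positivity),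
    i2 (κ * ε / 10) (by positivity), i3 (κ * ε / 20) (by positivity),
    i4 (κ * ε / 20) (by positivity), hR.sm 2 (κ * ε / 20) (by positivity), hw ε hε,
    hw (κ * ε / 20) (by positivity), hm, hR.sm 1 (κ / 2) (half_pos hκ)]
    with n b1 b2 b3 b4 b5 b6 b7 b8 b9 b10 b11 b12 b13 b14 b15 b16 b17
  have sw : ∀ {α : Type} (F : Ω n → α), ch (P n) F (fun ω => (A n ω, Θ n ω)) =
      ch (P n) F fun ω => (Θ n ω, A n ω) := fun F =>
    le_antisymm (ch_anti ((Fn.snd _ _).pair (Fn.fst _ _)))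
      (ch_anti ((Fn.snd _ _).pair (Fn.fst _ _)))
  have hC' : CoreG (fun U => H75T.GLine S ρ₀ (H17F.cz '' (U : Set (Z N))) (2 ^ R n) q
      (Real.exp (κ * R n)) e) (fun d => ∀ j, j ∉ S → d.2 j = 0) c₁ (ε / 2) κ (R n) :=
    fun Ω P d w U L h1 h2 h3 h4 h5 => hC (R n) Ω P d w S (H17F.cz '' (U : Set (Z N))) L
      (by exact_mod_cast b4) h1 h2 h3 (fun x hx j hj => by simp [H17F.cz, h4 x hx j hj])
      (le_trans (pb_mono P fun x _ hn ⟨u, hu, e⟩ => hn ⟨_, ⟨u, hu, rfl⟩, e⟩) h5)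
  have k := ctxG (δ := ε / 10) hC' (P n) (fun x => (Θ n x, A n x))
    (d n) (w n) (U n) (fun x => if ‖bil (R n) (d n x) (w n x) - H17F.cz (A n x - A' n x)‖ ≤ L n
      then A n x - A' n x else H17F.flv 0 (bil (R n) (d n x) (w n x))) hκ (by exact_mod_cast b5)
    (half_pos hε).le (hL.1 n) b6 (fun x hx => ⟨(b3.2 x hx).1, (b3.2 x hx).2, ?_⟩) ?_ ?_ ?_
    (by rw [← sw]; linarith) (by rw [← sw]; linarith)
  · refine le_trans (pb_mono _ fun x hx hn => ?_) ((H17F.pb_or _ _ _).trans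
      ((add_le_add k b14).trans (by linarith)))
    by_contra hs
    rw [not_or, not_not] at hs
    obtain ⟨hs, s1⟩ := hs
    refine hn (small (c₁ := c₁) (by linarith [min_le_left c₁ (lg / 2)])
      (by linarith [min_le_right c₁ (lg / 2)]) (by simpa using b8) b7 ?_ (not_lt.1 hs))
    have s2 := norm_sub_le (bil (R n) (d n x) (w n x))
      (bil (R n) (d n x) (w n x) - H17F.cz (A n x - A' n x))
    have s3 : H17F.cz (A' n x - A n x) = -H17F.cz (A n x - A' n x) := by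
      funext i; simp [H17F.cz]
    rw [sub_sub_cancel] at s2
    rw [s3, norm_neg]
    linarith
  · split_ifs with h
    · exact h
    · have := H17F.norm_cz_flv 0 (bil (R n) (d n x) (w n x))
      rw [pow_zero, one_smul, norm_sub_rev] at this
      exact this.trans (hL.1 n)
  · refine le_trans (pb_union (P n)
      (fun j : Fin N × Fin (2 * G + 1) × Fin (2 * G + 1) => fun x =>
        BadG S (U n (Θ n x, A n x)) q (R n) (dp S ρ₀ (min ((R n / (2 * G) + 1) * j.2.2) (R n)))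
          (min ((R n / (2 * G) + 1) * j.2.1)
            (dp S ρ₀ (min ((R n / (2 * G) + 1) * j.2.2) (R n)) j.1))
          (R n / (2 * G) + 1 + 1) j.1 e (κ * R n)) (p := p₁)
      (fun x h => line_winG (Nat.succ_pos _) ?_ he0.le (by linarith) ?_ r0 r1.le h) b1) ?_
    · rw [mul_comm]; exact (Nat.lt_mul_div_succ _ (by omega)).le
    · have a1 : (R n : ℝ) / G ≤ κ / 2 * R n := by
        rw [div_le_iff₀ hG1]
        have : 2 ≤ κ * G := by nlinarith [mul_pos hκ hG1]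
        nlinarith
      have a2 := mul_le_of_le_one_right (Nat.cast_nonneg (α := ℝ) (R n / (2 * G) + 1 + 1))
        lg_lt_one.le
      push_cast at a2 b16 ⊢
      linarith
    · have : p₁ * (k + 1) = ε / 10 := div_mul_cancel₀ _ (by positivity)
      rw [← hk]
      linarith
  · have s1 : (2 * (t * R n) + 3 * (2 ^ J * η n) + η n) / (a * R n) ≤ κ * ε / 20 := by
      rw [div_le_iff₀ b2.2]
      have : κ * ε / 20 * (a * R n) = 4 * t * R n := by rw [ht]; ring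
      simp only [zero_add] at b9
      linarith
    refine le_trans ?_ ((add_le_add ((hx n b2).2.trans s1) b15).trans (by linarith))
    rw [pb, ← FP.E_add]
    refine (P n).E_mono fun x _ => ?_
    by_cases h : ‖bil (R n) (d n x) (w n x) - H17F.cz (A n x - A' n x)‖ ≤ L n
    · simp [h]
    · simp only [h, if_false, not_false_eq_true, if_true]
      split_ifs <;> norm_num
  · have s1 : ch (P n) (d n) (fun ω => (w n ω, A n ω, Θ n ω)) ≤
        ch (P n) (d n) fun ω => (w n ω, Θ n ω, A n ω) :=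
      ch_anti fun x _ y _ e' => by simp only [Prod.mk.injEq] at e' ⊢; tauto
    rw [← sw]
    unfold mi at b10
    linarith

end Pool.Agent.MP_5168f5_an.H29N
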