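import Pool.Agent.MP_5168f5_an.R4.NCt3

/-! The noise step for two blocks of different weight: one space, integer form. -/

namespace Pool.Agent.MP_5168f5_an.R4.NCx

open H19 H17S H17F Filter

variable {N : ℕ} {S : Finset (Fin N)} {Ω T Ω₁ : ℕ → Type} {P : ∀ n, FP (Ω n)} {Θ : ∀ n, Ω n → T n}
  {R R' : ℕ → ℕ} {ε₀ ρ₀ : ℝ} {x x' : ∀ n, Ω n → V N} {P₁ : ∀ n, FP (Ω₁ n)} {σ : ∀ n, Ω₁ n → Ω n}
  {L : ℕ → ℝ}

theorem NGT.frac (h : NGT S ρ₀ P Θ x R ε₀) (e : Frac R' R) : NGT S ρ₀ P Θ x R' ε₀ :=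
  fun Ω' K Q ρ κ β lam i b E h1 h2 h3 h4 h5 => (h Ω' K Q ρ κ β lam i b E h1
    (fun n => ⟨(h2 n).1, (h2 n).2.trans (e.1 n)⟩) (Le.up h3 e.1) h4 h5).frac e

theorem NGT.pull (h : NGT S ρ₀ P Θ x R ε₀) (hσ : ∀ n, Law (P₁ n) (σ n) (P n) id) :
    NGT S ρ₀ P₁ (fun n v => Θ n (σ n v)) (fun n v => x n (σ n v)) R ε₀ :=
  fun Ω' K Q ρ κ β lam i b E h1 h2 h3 h4 h5 => h Ω' K Q (fun n v => σ n (ρ n v)) κ β lam i b E
    (fun n => ((h1 n).comp (σ n)).trans (hσ n)) h2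
    (h3.mono (Eventually.of_forall fun n => mi_mono ((Fn.comp (σ n) (ρ n)).left _))) h4 h5

theorem near_of {j R : ℕ} (h : j ≤ R) {u u' w w' M : ℝ} (h1 : fl1 j u = fl1 j u')
    (h2 : |w - u - (w' - u')| ≤ M / 2 ^ R) (hM : 0 ≤ M) : |w - w'| ≤ (1 + M) / 2 ^ j := by
  have a1 := (abs_sub_lt_of_fl1_eq h1).le
  have a2 := h2.trans (div_le_div_of_nonneg_left hM (by positivity)
    (pow_le_pow_right₀ one_le_two h))
  have a3 := abs_add_le (w - u - (w' - u')) (u - u')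
  rw [show w - u - (w' - u') + (u - u') = w - w' by ring] at a3
  rw [add_div, one_div]
  linarith

/-- The absence of grains passes to an almost independent shift. -/
theorem NGT.shift {α γ : ℕ → Type} {A : ∀ n, Ω n → α n} {W : ∀ n, Ω n → γ n}
    (hN : NGT S ρ₀ P Θ x R ε₀) (hR : Big R) (hL : Sub R L) (r1 : ρ₀ ≤ 1)
    (h : Sm R fun n => mi (P n) (A n) (W n) (Θ n))
    (e : ∀ᶠ n in UF, Fn (P n) (x' n) (fun ω => (A n ω, Θ n ω)) ∧ ∀ a ∈ (P n).S, ∀ b ∈ (P n).S,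
      (W n a, Θ n a) = (W n b, Θ n b) → ‖x' n a - x n a - (x' n b - x n b)‖ ≤ L n / 2 ^ R n) :
    NGT S ρ₀ P Θ x' R ε₀ := by
  intro Ω' K Q ρ κ β lam i b E hl hb hκ hf hE
  have k1 : Sm R fun n => mi (Q n) (fun v => A n (ρ n v)) (fun v => W n (ρ n v))
      fun v => (κ n v, Θ n (ρ n v)) := (h.add hκ).mono (Eventually.of_forall fun n => by
    have a1 := (hl n).mi_id (A n) (W n) (Θ n)
    have a2 := mi_chain (P := Q n) (fun v => A n (ρ n v)) (κ n) (fun v => W n (ρ n v))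
      fun v => Θ n (ρ n v)
    have a3 := mi_chain (P := Q n) (fun v => A n (ρ n v)) (fun v => W n (ρ n v)) (κ n)
      fun v => Θ n (ρ n v)
    have a4 : mi (Q n) (fun v => A n (ρ n v)) (fun v => (κ n v, W n (ρ n v)))
        (fun v => Θ n (ρ n v)) ≤ mi (Q n) (fun v => A n (ρ n v))
        (fun v => (W n (ρ n v), κ n v)) fun v => Θ n (ρ n v) :=
      mi_mono fun a _ b _ e => by simp only [Prod.mk.injEq] at e ⊢; tauto
    have a5 : mi (Q n) (fun v => A n (ρ n v)) (κ n) (fun v => (W n (ρ n v), Θ n (ρ n v))) ≤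
        mi (Q n) (ρ n) (κ n) fun v => Θ n (ρ n v) :=
      mi_left (Fn.snd _ _) (fun a _ b _ e => by rw [(Prod.mk.inj e).1])
        fun a _ b _ e => by rw [(Prod.mk.inj e).1]
    have a6 := mi_nonneg (P := Q n) (fun v => A n (ρ n v)) (κ n) fun v => Θ n (ρ n v)
    rw [mi_symm (ρ n)] at a5
    linarith)
  have hL' := (hR.sub le_rfl).add (hL.const_mul hR one_le_two) hR
  refine Le.of3 (hN Ω' K Q ρ κ β lam i b E hl hb hκ hf hE) (sm_mi_cE hR hE k1)
    (hL'.log3 hR (N + 2)) ((hf.and e).mono fun n hn => ?_)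
  obtain ⟨⟨f1, -, f2⟩, f3, f4⟩ := hn
  have m : ∀ a ∈ (cE (Q n) (E n)).S, ρ n a ∈ (P n).S := fun a ha => (hl n).mem (cE_sub ha)
  have p := (hL.pos n).le
  have d1 : ∀ j, dp S ρ₀ (lam n) j ≤ R n := fun j => (dp_le S r1 _ j).trans (hb n).2
  have g0 : ∀ a ∈ (cE (Q n) (E n)).S, ∀ c ∈ (cE (Q n) (E n)).S,
      (W n (ρ n a), κ n a, Θ n (ρ n a)) = (W n (ρ n c), κ n c, Θ n (ρ n c)) →
      ‖x' n (ρ n a) - x n (ρ n a) - (x' n (ρ n c) - x n (ρ n c))‖ ≤ L n / 2 ^ R n :=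
    fun a ha c hc e => f4 _ (m a ha) _ (m c hc) (by simp only [Prod.mk.injEq] at e ⊢; tauto)
  have g1 : ∀ y : V N, ‖y‖ ≤ L n / 2 ^ R n → |y i| ≤ 2 * L n / 2 ^ R n := fun y h =>
    ((norm_le_pi_norm y i).trans h).trans (div_le_div_of_nonneg_right (by linarith) (by positivity))
  have a0 := ch_shift (cE (Q n) (E n)) (F := fun v => fl1 (dp S ρ₀ (lam n) i) (x n (ρ n v) i))
    (F' := fun v => fl1 (dp S ρ₀ (lam n) i) (x' n (ρ n v) i))
    (G := fun v => gq (dp S ρ₀ (lam n)) (β n) i (b n v) (x n (ρ n v)))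
    (G' := fun v => gq (dp S ρ₀ (lam n)) (β n) i (b n v) (x' n (ρ n v)))
    (K := fun v => (κ n v, Θ n (ρ n v))) (A := fun v => A n (ρ n v)) (fun v => W n (ρ n v))
    (fun a ha c hc e => by
      simp only [Prod.mk.injEq] at e
      simp only [f3 _ (m a ha) _ (m c hc) (Prod.ext e.1 e.2.2)])
    fun a ha c hc e => by
      have e1 := f1 a (cE_sub ha) c (cE_sub hc) (Prod.mk.inj e).2
      simp only [Prod.mk.injEq] at e
      simp only [f3 _ (m a ha) _ (m c hc) (Prod.ext e.1 e.2.2), e1]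
  have a1 := ch_near1 (P := cE (Q n) (E n)) (x := fun v => x' n (ρ n v) i) (G := fun v =>
      (fl1 (dp S ρ₀ (lam n) i) (x n (ρ n v) i), W n (ρ n v), κ n v, Θ n (ρ n v)))
    (hL'.pos n).le fun a ha c hc e => near_of (d1 i) (Prod.mk.inj e).1
      (g1 _ (g0 a ha c hc (Prod.mk.inj e).2)) (by linarith)
  have a2 := ch_near1 (P := cE (Q n) (E n)) (x := fun v => x n (ρ n v) i) (G := fun v =>
      (gq (dp S ρ₀ (lam n)) (β n) i (b n v) (x' n (ρ n v)), W n (ρ n v), κ n v, Θ n (ρ n v)))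
    (hL'.pos n).le fun a ha c hc e => near_of ((hb n).1.trans (d1 i))
      (Prod.mk.inj (Prod.mk.inj e).1).2 (by
        have := g1 _ (g0 a ha c hc (Prod.mk.inj e).2)
        rw [← abs_neg] at this
        simp only [Pi.sub_apply] at this
        rwa [neg_sub', neg_sub, neg_sub] at this) (by linarith)
  have a3 := ch_flr (P := cE (Q n) (E n)) (x := fun v => x n (ρ n v) - x n (ρ n v) i • b n v)
    (G := fun v =>
      (gq (dp S ρ₀ (lam n)) (β n) i (b n v) (x' n (ρ n v)), W n (ρ n v), κ n v, Θ n (ρ n v)))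
    (hL'.pos n).le fun a ha c hc e j => near_of (d1 j)
      (congrFun (Prod.mk.inj (Prod.mk.inj e).1).1 j) (by
        have e1 := f1 a (cE_sub ha) c (cE_sub hc) (Prod.mk.inj (Prod.mk.inj e).2).2
        have e2 := (norm_quo (x' n (ρ n c) - x n (ρ n c)) (x' n (ρ n a) - x n (ρ n a)) (b n a) i
          (f2 a (cE_sub ha)).2.1).trans (mul_le_mul_of_nonneg_left ((norm_sub_rev _ _).trans_le
            (g0 a ha c hc (Prod.mk.inj e).2)) zero_le_two)
        rw [← e1, mul_div_assoc]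
        refine le_of_eq_of_le ?_ ((norm_le_pi_norm _ j).trans e2)
        simp only [Pi.sub_apply, Pi.smul_apply, smul_eq_mul, Real.norm_eq_abs]
        congr 1
        ring) (by linarith)
  have a4 := ch_subadd (P := cE (Q n) (E n))
    (fun v => flr (dp S ρ₀ (lam n)) (x n (ρ n v) - x n (ρ n v) i • b n v))
    (fun v => fl1 (β n) (x n (ρ n v) i)) fun v =>
      (gq (dp S ρ₀ (lam n)) (β n) i (b n v) (x' n (ρ n v)), W n (ρ n v), κ n v, Θ n (ρ n v))
  change ch _ (fun v => gq (dp S ρ₀ (lam n)) (β n) i (b n v) (x n (ρ n v))) _ ≤ _ at a4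
  linarith

/-- The absence of grains passes to a nearby variable. -/
theorem NGT.near (hN : NGT S ρ₀ P Θ x R ε₀) (hR : Big R) (hL : Sub R L) (r1 : ρ₀ ≤ 1)
    (e : ∀ᶠ n in UF, ∀ a ∈ (P n).S, ‖x' n a - x n a‖ ≤ L n / 2 ^ R n) : NGT S ρ₀ P Θ x' R ε₀ :=
  hN.shift (A := x') (W := Θ) hR (hL.const_mul hR one_le_two) r1
    (Le.of_le fun n => by
      rw [mi_symm]; exact (mi_le _ _ _).trans (ch_zero (Fn.rfl _)).le)
    (e.mono fun n hn => ⟨Fn.fst _ _, fun a ha b hb _ => (norm_sub_le _ _).trans (by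
      rw [mul_div_assoc]; linarith [hn a ha, hn b hb])⟩)

/-- The absence of grains passes to a mixture. -/
theorem NGT.mix {X : Bool → ∀ n, Ω n → Z N} {C : ℝ} (hR : Big R) (h1 : ε₀ ≤ 1)
    (hN : ∀ t, NGT S ρ₀ P Θ (fun n ω => ur (R n) (X t n ω)) R ε₀)
    (hD : ∀ᶠ n in UF, Det (prod (P n) coin) (fun v => X v.2 n v.1) (fun v => Θ n v.1)
      (Real.exp (C * R n))) :
    NGT S ρ₀ (fun n => prod (P n) coin) (fun n v => Θ n v.1)
      (fun n v => ur (R n) (X v.2 n v.1)) R ε₀ := by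
  intro Ω' K Q ρ κ β lam i b E hl hb hκ hf hE
  have hp : ∀ t n, pb (Q n) (fun v => (ρ n v).2 = t) = 1 / 2 := fun t n =>
    ((hl n).pb_eq fun v => v.2 = t).trans (pb_coin _ t)
  have key : ∀ t : Bool, Le R (fun n => pb (cE (Q n) (E n)) (fun v => (ρ n v).2 = t) *
      ch (cE (cE (Q n) (E n)) fun v => (ρ n v).2 = t)
        (fun v => fl1 (dp S ρ₀ (lam n) i) (ur (R n) (X (ρ n v).2 n (ρ n v).1) i)) fun v =>
        (gq (dp S ρ₀ (lam n)) (β n) i (b n v) (ur (R n) (X (ρ n v).2 n (ρ n v).1)), κ n v,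
          Θ n (ρ n v).1)) fun n => pb (cE (Q n) (E n)) (fun v => (ρ n v).2 = t) *
        ((1 - ε₀) * (dp S ρ₀ (lam n) i - β n) * lg) := by
    intro t
    refine piece (C := C) (fun n => ?_) (fun h => ?_) ?_
    · have : (β n : ℝ) ≤ dp S ρ₀ (lam n) i := by exact_mod_cast (hb n).1
      exact mul_nonneg (mul_nonneg (by linarith) (by linarith)) lg_pos.le
    · have h2 := Pos.of_cE hE h
      have h3 : Pos Q fun n v => (ρ n v).2 = t ∧ E n v :=
        h2.mono (Eventually.of_forall fun _ _ _ => And.symm)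
      have h4 := hN t Ω' K (fun n => cE (Q n) fun v => (ρ n v).2 = t) (fun n v => (ρ n v).1) κ β lam
        i b E (fun n => ((rowKE.law _ _ _ _ (fun v => v.2 = t) (hl n)).comp Prod.fst).trans
          (law_coin _ t)) hb ((sm_mi_cE hR ⟨1 / 2, one_half_pos, Eventually.of_forall fun n =>
            (hp t n).ge⟩ hκ).mono (Eventually.of_forall fun n => mi_mono
              fun a _ c _ e => by simp only [(Prod.mk.inj e).1]))
        (hf.mono fun n hn => ⟨fn_cE hn.1 _, fn_cE hn.2.1 _, fun v hv => hn.2.2 v (cE_sub hv)⟩)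
        h3.cE
      refine h4.congr ?_ (Eventually.of_forall fun _ => rfl)
      filter_upwards [h2.ex, h3.ex, h2.sure] with n a1 a2 a3
      rw [cE_cE a1, cE_cE a2, cE_congr (E' := fun v => E n v ∧ (ρ n v).2 = t)
        fun _ _ => and_comm]
      exact ch_ext (fun v hv => by rw [(a3 v hv).2.2]) fun v hv => by rw [(a3 v hv).2.2]
    · filter_upwards [hD] with n a1
      refine le_trans (ch_le (fun a _ c _ e => ?_) fun a _ c _ e => ?_) ((ch_det (det_cE (det_cE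
        (det_law _ a1 fun v hv => (hl n).mem hv) _) _)).trans (Real.log_exp _).le)
      · simp only [(Prod.mk.inj e).1]
      · simp only [Prod.mk.injEq] at e; exact e.2.2
  refine Le.of3 (key true) (key false) (hR.sm lg) (Eventually.of_forall fun n => ?_)
  have a1 := rowKE.le (cE (Q n) (E n)) (fun v => (ρ n v).2 = true)
    (fun v => fl1 (dp S ρ₀ (lam n) i) (ur (R n) (X (ρ n v).2 n (ρ n v).1) i)) fun v =>
      (gq (dp S ρ₀ (lam n)) (β n) i (b n v) (ur (R n) (X (ρ n v).2 n (ρ n v).1)), κ n v,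
        Θ n (ρ n v).1)
  have a2 := pb_not (cE (Q n) (E n)) fun v => (ρ n v).2 = true
  simp only [Bool.not_eq_true] at a1 a2
  rw [a2]
  linarith

end Pool.Agent.MP_5168f5_an.R4.NCx
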