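import Pool.Agent.MP_5168f5_an.H29N.NC
import Pool.Agent.MP_5168f5_an.H17F.KE
import Pool.Agent.MP_5168f5_an.H39F.Main
import Pool.Agent.MP_5168f5_an.H95F.Main

/-! The noise step when the bilinear formula only holds with probability near one. -/

namespace Pool.Agent.MP_5168f5_an.H29N

open H19 H17S Filter
open H17F (pb cE bil mi UF Le Sm Big Pos Whp NGA NC KE Sub)

/-- The statement `NC` with an approximation that holds with probability near one. -/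
def NCW : Prop := ∀ (N : ℕ) (ε₀ : ℝ), 0 < ε₀ → ε₀ ≤ 1 → ∃ c : ℝ, 0 < c ∧
  ∀ (Ω₀ Ω T : ℕ → Type) (P₀ : ∀ n, FP (Ω₀ n)) (Θ₀ : ∀ n, Ω₀ n → T n) (A₀ : ∀ n, Ω₀ n → Z N)
    (P : ∀ n, FP (Ω n)) (Θ : ∀ n, Ω n → T n) (A A' : ∀ n, Ω n → Z N)
    (d w : ∀ n, Ω n → ℤ × Z N) (R : ℕ → ℕ) (L : ℕ → ℝ) (C : ℝ), Big R → Sub R L →
    NGA P₀ Θ₀ A₀ R ε₀ →
    (∀ n, H17F.Law (P n) (fun ω => (Θ n ω, A n ω)) (P₀ n) (fun ω => (Θ₀ n ω, A₀ n ω)) ∧
      H17F.Law (P n) (fun ω => (Θ n ω, A' n ω)) (P₀ n) fun ω => (Θ₀ n ω, A₀ n ω)) →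
    (∀ᶠ n in UF, ch (P₀ n) (A₀ n) (Θ₀ n) ≤ C * R n ∧
      ∀ ω ∈ (P n).S, |((d n ω).1 : ℝ)| ≤ 2 ^ R n ∧ |((w n ω).1 : ℝ)| ≤ 2 * 2 ^ R n ∧
        ‖H17F.cz (d n ω).2‖ ≤ L n * 2 ^ R n ∧ ‖H17F.cz (w n ω).2‖ ≤ L n * 2 ^ R n) →
    Whp P (fun n ω => ‖bil (R n) (d n ω) (w n ω) - H17F.cz (A n ω - A' n ω)‖ ≤ L n) →
    Sm R (fun n => mi (P n) (A n) (fun ω => A' n ω - A n ω) (Θ n)) →
    Sm R (fun n => mi (P n) (d n) (w n) fun ω => (A n ω, Θ n ω)) →
    Le R (fun n => R n * lg) (fun n => ch (P n) (fun ω => (d n ω).1) fun ω => (A n ω, Θ n ω)) →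
    (Le R (fun n => R n * lg) (fun n => ch (P n) (fun ω => (w n ω).1) fun ω => (A n ω, Θ n ω)) ∨
      ∀ᶠ n in UF, ∀ ω ∈ (P n).S, (d n ω).2 = 0) →
    Whp P fun n ω => ‖H17F.cz (A' n ω - A n ω)‖ ≤ 2 ^ R n * Real.exp (-(c * R n))

theorem ncW0 (hK : KE) (hC : CoreP) : NCW := by
  classical
  intro N ε₀ h0 h1
  obtain ⟨c₁, hc₁, hC⟩ := hC N (ε₀ / 2) (half_pos h0) (by linarith)
  have hlg := lg_pos
  have hc : 0 < min c₁ (lg / 2) / 2 := half_pos (lt_min hc₁ (half_pos hlg))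
  refine ⟨min c₁ (lg / 2) / 2, hc, ?_⟩
  intro Ω₀ Ω T P₀ Θ₀ A₀ P Θ A A' d w R L C hR hL hN hlaw hb hw i1 i2 i3 i4 ε' hε'
  obtain ⟨ε, rfl⟩ : ∃ ε, ε' = 2 * ε := ⟨ε' / 2, by ring⟩
  have hε : 0 < ε := by linarith
  obtain ⟨q, R₀, κ, hκ, hC⟩ := hC (ε / 2) (half_pos hε)
  set e := ε₀ / 2 with he
  have he0 : 0 < e := half_pos h0
  obtain ⟨G, hG⟩ := exists_nat_gt (12 / (e * κ))
  have hG0 : 0 < G := by
    exact_mod_cast lt_trans (show (0 : ℝ) < 12 / (e * κ) by positivity) hG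
  rw [div_lt_iff₀ (by positivity)] at hG
  set k : ℝ := ((Fintype.card (Fin N × Fin (G + 1) × Fin (G + 1)) : ℕ) : ℝ) with hk
  have hk0 : 0 ≤ k := Nat.cast_nonneg _
  set p₁ := ε / 10 / (k + 1) with hp₁
  have hp : 0 < p₁ := by positivity
  set a := p₁ * e * κ / 16 / (q + 1) with ha
  have ha0 : 0 < a := by positivity
  set t := a * κ * ε / 80 with ht
  have ht0 : 0 < t := by positivity
  obtain ⟨J, hJ⟩ := exists_nat_gt (C / t)
  rw [div_lt_iff₀ ht0] at hJ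
  set η : ℕ → ℝ := fun n => mi (P n) (A n) (fun ω => A' n ω - A n ω) (Θ n) with hη
  have ex : ∀ n, ∃ (U : T n × Z N → Finset (Z N)) (Ω' : Type) (Q : FP Ω') (ρ : Ω' → Ω₀ n)
      (ω : Ω' → Z N), Law Q ρ (P₀ n) id ∧
      (ch (P₀ n) (A₀ n) (Θ₀ n) < J * (t * R n) ∧ 0 < a * R n →
        (Law Q (fun x => (Θ₀ n (ρ x), ω x)) (P₀ n) (fun x => (Θ₀ n x, A₀ n x)) ∧
        ch Q ω (fun x => Θ₀ n (ρ x)) ≤ ch Q ω ρ + 2 ^ J * η n ∧
        Tr (P₀ n) (Θ₀ n) (A₀ n) U Q ρ ω (a * R n) (2 ^ J * η n)) ∧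
        (P n).E (fun x => if A n x - A' n x ∈ U (Θ n x, A n x) then 0 else 1) ≤
          (2 * (t * R n) + 3 * (2 ^ J * η n) + η n) / (a * R n)) := by
    intro n
    by_cases hn : ch (P₀ n) (A₀ n) (Θ₀ n) < J * (t * R n) ∧ 0 < a * R n
    · obtain ⟨U, Ω', Q, ρ, ω, -, k1, k2, k3, k4, k5⟩ := noise (P₀ n) (Θ₀ n) (A₀ n) (P n) (Θ n)
        (A n) (A' n) (hlaw n).1 (hlaw n).2 (η := η n) (by
          have s1 := ch_symm (P := P n) (A n) (fun ω => A' n ω - A n ω) (Θ n)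
          have s2 : ch (P n) (fun ω => A' n ω - A n ω) (fun ω => (A n ω, Θ n ω)) ≤
              ch (P n) (fun ω => A' n ω - A n ω) fun ω => (Θ n ω, A n ω) :=
            ch_anti ((Fn.snd _ _).pair (Fn.fst _ _))
          simp only [hη, mi]
          linarith) hn.1 hn.2
      exact ⟨U, Ω', Q, ρ, ω, k1, fun _ => ⟨⟨k2, k3, k5⟩, k4⟩⟩
    · exact ⟨fun _ => ∅, _, P₀ n, id, fun _ => 0, fun _ => rfl, fun h => absurd h hn⟩
  choose U Ω' Q ρ ω hl hx using ex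
  have good : ∀ᶠ n in UF, ch (P₀ n) (A₀ n) (Θ₀ n) < J * (t * R n) ∧ 0 < a * R n := by
    filter_upwards [hb, hR.ev 1] with n k1 k2
    exact ⟨by nlinarith [k1.1], by positivity⟩
  have hq : 4 * q * a ≤ p₁ * e * κ / 4 := by
    have : a * (q + 1) = p₁ * e * κ / 16 := div_mul_cancel₀ _ (by positivity)
    linarith
  have bad := eventually_all.2 fun j : Fin N × Fin (G + 1) × Fin (G + 1) =>
    no_bad hK (U := U) (q := q) hR (by rw [he, mul_div_cancel₀ _ two_ne_zero]; exact hN) he0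
      (by linarith) hκ hp hG0 (by linarith) hq (i1.smul (c := 2 ^ J) (by positivity)) hl
      (good.mono fun n h => (hx n h).1)
      (fun n => min ((R n / G + 1) * j.2.1) (min ((R n / G + 1) * j.2.2) (R n)))
      (fun n => min ((R n / G + 1) * j.2.2) (R n))
      (fun n => ⟨min_le_right _ _, min_le_right _ _⟩) j.1
  have i4' : ∀ᶠ n in UF, R n * lg ≤ ch (P n) (fun ω => (w n ω).1) (fun ω => (A n ω, Θ n ω)) +
      κ * ε / 20 * R n ∨ ∀ ω ∈ (P n).S, (d n ω).2 = 0 :=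
    i4.elim (fun h => (h _ (by positivity)).mono fun _ => Or.inl) fun h => h.mono fun _ => Or.inr
  filter_upwards [bad, good, hb, hR.ev R₀, hR.ev 1, hL.2 κ hκ, hL.2 _ hc,
    hR.sm 1 _ hc, ((i1.smul (c := 3 * 2 ^ J) (by positivity)).add i1) (2 * t) (by positivity),
    i2 (κ * ε / 10) (by positivity), i3 (κ * ε / 20) (by positivity), i4',
    hR.sm 2 (κ * ε / 20) (by positivity), hw ε hε, hw (κ * ε / 20) (by positivity)]
    with n b1 b2 b3 b4 b5 b6 b7 b8 b9 b10 b11 b12 b13 b14 b15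
  have sw : ∀ {α : Type} (F : Ω n → α), ch (P n) F (fun ω => (A n ω, Θ n ω)) =
      ch (P n) F fun ω => (Θ n ω, A n ω) := fun F =>
    le_antisymm (ch_anti ((Fn.snd _ _).pair (Fn.fst _ _)))
      (ch_anti ((Fn.snd _ _).pair (Fn.fst _ _)))
  have k := ctx (δ := ε / 10) (hC (R n) (by exact_mod_cast b4)) (P n) (fun x => (Θ n x, A n x))
    (d n) (w n) (U n) (fun x => if ‖bil (R n) (d n x) (w n x) - H17F.cz (A n x - A' n x)‖ ≤ L n
      then A n x - A' n x else H17F.flv 0 (bil (R n) (d n x) (w n x))) hκ (by exact_mod_cast b5)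
    (half_pos hε).le (by positivity) (hL.1 n) b6 (fun x hx => ⟨(b3.2 x hx).1, (b3.2 x hx).2.1,
      (b3.2 x hx).2.2.1, (b3.2 x hx).2.2.2, ?_⟩) ?_ ?_ ?_ (by rw [← sw]; linarith)
    (b12.imp (fun h => by rw [← sw]; linarith) id)
  · refine le_trans (pb_mono _ fun x hx hn => ?_) ((H17F.pb_or _ _ _).trans
      ((add_le_add k b14).trans (by linarith)))
    by_contra hs
    rw [not_or, not_not] at hs
    obtain ⟨hs, s1⟩ := hs
    refine hn (small (c₁ := c₁) (by linarith [min_le_left c₁ (lg / 2)])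
      (by linarith [min_le_right c₁ (lg / 2)]) (by simpa using b8) b7 ?_ (not_lt.1 hs))
    have s2 := norm_sub_le (bil (R n) (d n x) (w n x))
      (bil (R n) (d n x) (w n x) - H17F.cz (A n x - A' n x))
    have s3 : H17F.cz (A' n x - A n x) = -H17F.cz (A n x - A' n x) := by
      funext i; simp [H17F.cz]
    rw [sub_sub_cancel] at s2
    rw [s3, norm_neg]
    linarith
  · split_ifs with h
    · exact h
    · have := H17F.norm_cz_flv 0 (bil (R n) (d n x) (w n x))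
      rw [pow_zero, one_smul, norm_sub_rev] at this
      exact this.trans (hL.1 n)
  · refine le_trans (pb_union (P n) (fun j : Fin N × Fin (G + 1) × Fin (G + 1) => fun x =>
      Bad (U n (Θ n x, A n x)) q (R n)
        (min ((R n / G + 1) * j.2.1) (min ((R n / G + 1) * j.2.2) (R n)))
        (min ((R n / G + 1) * j.2.2) (R n)) (R n / G + 1) j.1 e (κ * R n)) (p := p₁)
      (fun x h => line_win (Nat.succ_pos _) ?_ he0.le (by linarith) (by positivity) h)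
      fun j => le_trans (le_of_eq ?_) (b1 j)) ?_
    · rw [mul_comm]; exact (Nat.lt_mul_div_succ _ hG0).le
    · classical
      exact (hlaw n).1 fun v => if Bad (U n v) q (R n)
        (min ((R n / G + 1) * j.2.1) (min ((R n / G + 1) * j.2.2) (R n)))
        (min ((R n / G + 1) * j.2.2) (R n)) (R n / G + 1) j.1 e (κ * R n) then 1 else 0
    · have : p₁ * (k + 1) = ε / 10 := div_mul_cancel₀ _ (by positivity)
      rw [← hk]
      linarith
  · have s1 : (2 * (t * R n) + 3 * (2 ^ J * η n) + η n) / (a * R n) ≤ κ * ε / 20 := by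
      rw [div_le_iff₀ b2.2]
      have : κ * ε / 20 * (a * R n) = 4 * t * R n := by rw [ht]; ring
      simp only [zero_add] at b9
      linarith
    refine le_trans ?_ ((add_le_add ((hx n b2).2.trans s1) b15).trans (by linarith))
    rw [pb, ← FP.E_add]
    refine (P n).E_mono fun x _ => ?_
    by_cases h : ‖bil (R n) (d n x) (w n x) - H17F.cz (A n x - A' n x)‖ ≤ L n
    · simp [h]
    · simp only [h, if_false, not_false_eq_true, if_true]
      split_ifs <;> norm_num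
  · have s1 : ch (P n) (d n) (fun ω => (w n ω, A n ω, Θ n ω)) ≤
        ch (P n) (d n) fun ω => (w n ω, Θ n ω, A n ω) :=
      ch_anti fun x _ y _ e' => by simp only [Prod.mk.injEq] at e' ⊢; tauto
    rw [← sw]
    unfold mi at b10
    linarith

theorem ncW : NCW := ncW0 H17F.rowKE (core_of (H39F.sCoreP H95F.setT H95F.line2))

end Pool.Agent.MP_5168f5_an.H29N
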