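import Pool.Agent.MP_5168f5_an.R4.NCx3
import Pool.Agent.MP_5168f5_an.R4.SpecK

/-! The hypotheses of the noise step from facts on a class. -/

namespace Pool.Agent.MP_5168f5_an.R4.NCx

open H19 H17S H17F Filter

variable {N : ℕ} {Ω T : ℕ → Type} {K : Mb Ω → Prop} {X : Mb Ω} {R : ℕ → ℕ} {ε₀ : ℝ}

theorem NG1.of_cls {Θ : ∀ n, Ω n → T n} {u : ∀ n, Ω n → ℝ} (hK : Cl0 K) (hX : K X)
    (h : ∀ X, K X → ∀ a b : ℕ → ℕ, (∀ n, a n ≤ b n ∧ b n ≤ R n) →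
      Le R (fun n => ch (X n).Q (fun v => fl1 (b n) (u n ((X n).ρ v))) fun v =>
        (fl1 (a n) (u n ((X n).ρ v)), Θ n ((X n).ρ v))) fun n => (1 - ε₀) * (b n - a n) * lg) :
    NG1 X.P (fun n v => Θ n ((X n).ρ v)) (fun n v => u n ((X n).ρ v)) R ε₀ :=
  fun _ Q ρ β lam E h1 h2 h3 => h ((X.ext Q ρ).cond E) (hK.cond (X.ext Q ρ) E (hK.law X _ hX
    (Eventually.of_forall fun n => (h1 n).comp (X n).ρ)) h3) β lam h2

theorem NGR.of_cls {Θ : ∀ n, Ω n → T n} {x : ∀ n, Ω n → V N} (hR : Big R) (hK : Cl0 K) (hX : K X)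
    (h : ∀ X, K X → ∀ (Λ : ℕ → Type) (κ : ∀ n, (X n).W → Λ n) (β lam : ℕ → ℕ) (i : Fin N)
      (b : ∀ n, (X n).W → V N), (∀ n, β n ≤ lam n ∧ lam n ≤ R n) →
      Sm R (fun n => mi (X n).Q (κ n) (X n).ρ fun v => Θ n ((X n).ρ v)) →
      (∀ᶠ n in UF, Fn (X n).Q (b n) (fun v => (κ n v, Θ n ((X n).ρ v))) ∧
        ∀ v ∈ (X n).Q.S, b n v i = 1 ∧ ‖b n v‖ ≤ 1) →
      Le R (fun n => ch (X n).Q (fun v => fl (lam n) (x n ((X n).ρ v))) fun v =>
        (fl (lam n) (x n ((X n).ρ v) - x n ((X n).ρ v) i • b n v), fl (β n) (x n ((X n).ρ v)),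
          κ n v, Θ n ((X n).ρ v))) fun n => (1 - ε₀) * (lam n - β n) * lg) :
    NGR X.P (fun n v => Θ n ((X n).ρ v)) (fun n v => x n ((X n).ρ v)) R ε₀ :=
  fun _ Λ Q ρ κ β lam i b E h1 h2 h3 h4 h5 => h ((X.ext Q ρ).cond E) (hK.cond (X.ext Q ρ) E (hK.law X _ hX
    (Eventually.of_forall fun n => (h1 n).comp (X n).ρ)) h5) Λ κ β lam i b h2
    ((sm_mi_cE hR h5 h3).mono (Eventually.of_forall fun n =>
      mi_mono ((Fn.comp (X n).ρ (ρ n)).left _)))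
    (h4.mono fun _ hn => ⟨fn_cE hn.1 _, fun v hv => hn.2.2 v (cE_sub hv)⟩)

theorem fl1_mul (j k : ℕ) (s : ℝ) : fl1 k (2 ^ j * s) = fl1 (j + k) s := by
  rw [fl1, fl1, pow_add, ← mul_assoc, mul_comm ((2 : ℝ) ^ k)]

/-- The rescaled coordinate in the window `[a, a + R]`. -/
theorem NG1.of_ngr {g : Gs N Ω} {M lo hi a : ℕ → ℕ} {i : Fin N} (hK : Cl0 K) (hX : K X)
    (h : ∀ X, K X → NGr X.P (X.G g) M i lo hi ε₀) (hR : Frac R M)
    (ha : ∀ n, lo n ≤ a n ∧ a n + R n ≤ hi n) :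
    NG1 X.P (fun n => (X.G g n).zt) (fun n v => 2 ^ a n * (X.G g n).pt v i) R ε₀ := by
  refine NG1.of_cls (Θ := fun n => (g n).zt) (u := fun n ω => 2 ^ a n * (g n).pt ω i) hK hX
    fun X hX β lam hb => ?_
  refine ((h X hX (fun n => a n + β n) (fun n => a n + lam n) fun n =>
    ⟨by linarith [(ha n).1], by linarith [(hb n).1], by linarith [(ha n).2, (hb n).2]⟩).frac
      hR).congr (Eventually.of_forall fun n => ?_) (Eventually.of_forall fun n => ?_)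
  · simp only [fl1_mul]; rfl
  · push_cast; ring

section More

variable {P : ∀ n, FP (Ω n)} {Θ : ∀ n, Ω n → T n} {u u' : ∀ n, Ω n → ℝ} {L : ℕ → ℝ}

/-- A change of variable that is bi-Lipschitz on the fibres of the context. -/
theorem NG1.lip (h : NG1 P Θ u R ε₀) (hR : Big R) (hL : Sub R L)
    (e : ∀ᶠ n in UF, ∀ a ∈ (P n).S, ∀ b ∈ (P n).S, Θ n a = Θ n b →
      |u' n a - u' n b| ≤ L n * (|u n a - u n b| + 1 / 2 ^ R n) ∧
      |u n a - u n b| ≤ L n * (|u' n a - u' n b| + 1 / 2 ^ R n)) : NG1 P Θ u' R ε₀ := by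
  intro Ω' Q ρ β lam E h1 h2 h3
  have k : ∀ (x y : ∀ n, Ω n → ℝ) (j : ℕ → ℕ), (∀ n, j n ≤ R n) →
      (∀ᶠ n in UF, ∀ a ∈ (P n).S, ∀ b ∈ (P n).S, Θ n a = Θ n b →
        |x n a - x n b| ≤ L n * (|y n a - y n b| + 1 / 2 ^ R n)) →
      Sm R fun n => ch (cE (Q n) (E n)) (fun v => fl1 (j n) (x n (ρ n v))) fun v =>
        (fl1 (j n) (y n (ρ n v)), Θ n (ρ n v)) := fun x y j hj e =>
    Sm.near1 hR (hL.const_mul hR one_le_two) (e.mono fun n hn a ha b hb e' => by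
      have a1 := hn _ ((h1 n).mem (cE_sub ha)) _ ((h1 n).mem (cE_sub hb)) (Prod.mk.inj e').2
      have a2 := (abs_sub_lt_of_fl1_eq (Prod.mk.inj e').1).le
      have a3 : (1 : ℝ) / 2 ^ R n ≤ (2 ^ j n)⁻¹ := by
        rw [one_div]; exact inv_anti₀ (by positivity) (pow_le_pow_right₀ one_le_two (hj n))
      refine a1.trans ((mul_le_mul_of_nonneg_left (add_le_add a2 a3) (hL.pos n).le).trans
        (le_of_eq (by ring))))
  refine Le.of3 (h Ω' Q ρ β lam E h1 h2 h3) (k u' u lam (fun n => (h2 n).2)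
    (e.mono fun n hn a ha b hb e' => (hn a ha b hb e').1)) (k u u' β (fun n => (h2 n).1.trans
    (h2 n).2) (e.mono fun n hn a ha b hb e' => (hn a ha b hb e').2))
    (Eventually.of_forall fun n => ?_)
  have a1 := ch_tri (P := cE (Q n) (E n)) (fun v => fl1 (lam n) (u' n (ρ n v)))
    (fun v => fl1 (lam n) (u n (ρ n v))) fun v => (fl1 (β n) (u' n (ρ n v)), Θ n (ρ n v))
  have a2 := ch_drop (P := cE (Q n) (E n)) (fun v => fl1 (lam n) (u n (ρ n v)))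
    (fun v => fl1 (β n) (u n (ρ n v))) fun v => (fl1 (β n) (u' n (ρ n v)), Θ n (ρ n v))
  have a3 : ∀ (F a b : Ω' n → ℤ), ch (cE (Q n) (E n)) F (fun v => (a v, b v, Θ n (ρ n v))) ≤
      ch (cE (Q n) (E n)) F fun v => (a v, Θ n (ρ n v)) := fun F a b =>
    ch_anti fun _ _ _ _ e => by simp only [Prod.mk.injEq] at e ⊢; tauto
  linarith [a3 (fun v => fl1 (lam n) (u' n (ρ n v))) (fun v => fl1 (lam n) (u n (ρ n v)))
    fun v => fl1 (β n) (u' n (ρ n v)), a3 (fun v => fl1 (lam n) (u n (ρ n v)))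
      (fun v => fl1 (β n) (u n (ρ n v))) fun v => fl1 (β n) (u' n (ρ n v))]

theorem law_cE_bind {A B : Type} (P : FP A) (k : A → FP B) {E : A → Prop} (h : 0 < pb P E) :
    Law (cE (bind P k) fun v => E v.1) id (bind (cE P E) k) id := fun F => by
  classical
  have h1 : pb (bind P k) (fun v => E v.1) = pb P E := by
    rw [pb, E_bind]
    exact P.E_congr fun x _ => (k x).E_const (if E x then 1 else 0)
  have h2 := E_cE (bind P k) (fun v => E v.1) F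
  have h3 := E_cE P E fun x => (k x).E fun y => F (x, y)
  rw [h1, E_bind] at h2
  refine mul_left_cancel₀ h.ne' (h2.trans ?_)
  rw [E_bind]
  refine Eq.trans (P.E_congr fun x _ => ?_) h3.symm
  by_cases hx : E x <;> simp [hx, FP.E_const]

/-- Conditioning on an event of positive probability. -/
theorem NG1.cE (h : NG1 P Θ u R ε₀) {E₀ : ∀ n, Ω n → Prop} (h0 : Pos P E₀) :
    NG1 (fun n => cE (P n) (E₀ n)) Θ u R ε₀ := by
  intro Ω' Q ρ β lam E h1 h2 h3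
  have p0 : ∀ᶠ n in UF, 0 < pb (P n) (E₀ n) := by
    obtain ⟨κ, hκ, hp⟩ := h0
    exact hp.mono fun n hn => hκ.trans_le hn
  have l1 : ∀ n, Law (glue (P n) (Q n) id (ρ n)) Prod.fst (P n) id := fun n => kg.fst _ _ _ _
  have l2 : ∀ᶠ n in UF, Law (H17F.cE (glue (P n) (Q n) id (ρ n)) fun v => E₀ n v.1) id
      (glue (H17F.cE (P n) (E₀ n)) (Q n) id (ρ n)) id := p0.mono fun n hn => law_cE_bind _ _ hn
  have l3 : ∀ᶠ n in UF, Law (H17F.cE (glue (P n) (Q n) id (ρ n)) fun v => E₀ n v.1) Prod.snd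
      (Q n) id := l2.mono fun n hn => (hn.comp Prod.snd).trans (kg.snd _ _ _ _ (h1 n).symm)
  have p1 : Pos (fun n => glue (P n) (Q n) id (ρ n)) fun n v => E₀ n v.1 ∧ E n v.2 := by
    refine Pos.of_cE ?_ ?_
    · obtain ⟨κ, hκ, hp⟩ := h0
      exact ⟨κ, hκ, hp.mono fun n hn => hn.trans_eq ((l1 n).pb_eq (E₀ n)).symm⟩
    · obtain ⟨κ, hκ, hp⟩ := h3
      exact ⟨κ, hκ, (hp.and l3).mono fun n hn => hn.1.trans_eq (hn.2.pb_eq (E n)).symm⟩
  refine (h _ _ (fun _ => Prod.fst) β lam _ l1 h2 p1).congr ?_ (Eventually.of_forall fun _ => rfl)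
  filter_upwards [l2, l3, p1.ex] with n a2 a3 a4
  rw [← cE_cE a4]
  refine ((ke.law _ _ _ _ (E n) a3).ch_id _ _).symm.trans ?_
  have m : ∀ v ∈ (H17F.cE (H17F.cE (glue (P n) (Q n) id (ρ n)) fun v => E₀ n v.1)
      fun v => E n v.2).S, ρ n v.2 = v.1 := fun v hv =>
    ((kg.mem _ _ _ _ v (h1 n).symm).1 (a2.mem (cE_sub hv))).2.2
  exact ch_ext (fun v hv => by rw [m v hv]) fun v hv => by rw [m v hv]

end More

end Pool.Agent.MP_5168f5_an.R4.NCx
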