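import Pool.Agent.MP_5168f5_an.R4.SpecP0
import Pool.Agent.MP_5168f5_an.R4.SVTan

/-! Products with `f` of weight one: the deficiency passes from `f` to `u`. -/

namespace Pool.Agent.MP_5168f5_an.R4.P0

open H19 H17S H17F Filter Web Tan

namespace NGA

variable {Ω β Λ : Type} {P : FP Ω}

theorem ref {x : Ω → ℝ} {G : Ω → β} {j k : ℕ} (e : j ≤ k) (h : Fn P (fun ω => fl1 j (x ω)) G) :
    ch P (fun ω => fl1 k (x ω)) G ≤ (k - j : ℝ) * lg := by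
  obtain ⟨i, rfl⟩ := Nat.exists_eq_add_of_le e
  have := ch_fl1_refine (P := P) (x := x) (G := G) (j := fun _ => j) (i := fun _ => i)
    (fun _ _ _ _ _ => rfl) (fun _ _ _ _ _ => rfl) h
  rw [FP.E_const] at this
  push_cast
  linarith

theorem key (P : FP Ω) (u f x : Ω → ℝ) (Z : Ω → β) (S : Ω → Λ) {q q' r p p' c : ℕ} (h1 : q ≤ q')
    (h2 : q' ≤ r) (h3 : p ≤ p') (h4 : p' ≤ q') :
    ch P (fun ω => fl1 q' (u ω)) (fun ω => (fl1 q (u ω), fl1 r (x ω), fl1 r (f ω), Z ω)) +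
      ch P (fun ω => fl1 p' (f ω)) (fun ω => (fl1 p (f ω), fl1 (r + c) (x ω), S ω, Z ω)) ≤
    (q' - q + 2 * c : ℝ) * lg + ch P (fun ω => fl1 p' (f ω))
      (fun ω => (fl1 p (f ω), fl1 (q' + c) (x ω), fl1 (q' + c) (u ω), Z ω)) +
      ch P (fun ω => fl1 q (u ω)) fun ω => (fl1 (r + c) (x ω), S ω, Z ω) := by
  have a1 := ch_drop (P := P) (fun ω => fl1 q' (u ω)) (fun ω => fl1 (r + c) (x ω))
    fun ω => (fl1 q (u ω), fl1 r (x ω), fl1 r (f ω), Z ω)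
  have a2 := ref (P := P) (x := x) (G := fun ω => (fl1 q (u ω), fl1 r (x ω), fl1 r (f ω), Z ω))
    (Nat.le_add_right r c) fun _ _ _ _ e => congrArg (·.2.1) e
  have a3 : ch P (fun ω => fl1 q' (u ω))
      (fun ω => (fl1 (r + c) (x ω), fl1 q (u ω), fl1 r (x ω), fl1 r (f ω), Z ω)) ≤
      ch P (fun ω => fl1 (q' + c) (u ω))
        fun ω => (fl1 p' (f ω), fl1 q (u ω), fl1 p (f ω), fl1 (r + c) (x ω), Z ω) :=
    ch_le (fun _ _ _ _ e => fl1_eq_of_le (Nat.le_add_right q' c) (congrArg Prod.fst e))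
      fun _ _ _ _ e => by
        simp only [Prod.mk.injEq] at e ⊢
        exact ⟨fl1_eq_of_le (by omega) e.2.2.2.1, e.2.1, fl1_eq_of_le (by omega) e.2.2.2.1, e.1,
          e.2.2.2.2⟩
  have a4 := ch_symm (P := P) (fun ω => fl1 (q' + c) (u ω)) (fun ω => fl1 p' (f ω))
    fun ω => (fl1 q (u ω), fl1 p (f ω), fl1 (r + c) (x ω), Z ω)
  have a5 := ref (P := P) (x := u)
    (G := fun ω => (fl1 q (u ω), fl1 p (f ω), fl1 (r + c) (x ω), Z ω))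
    (h1.trans (Nat.le_add_right q' c)) fun _ _ _ _ e => congrArg Prod.fst e
  have a6 : ch P (fun ω => fl1 p' (f ω))
      (fun ω => (fl1 (q' + c) (u ω), fl1 q (u ω), fl1 p (f ω), fl1 (r + c) (x ω), Z ω)) ≤
      ch P (fun ω => fl1 p' (f ω))
        fun ω => (fl1 p (f ω), fl1 (q' + c) (x ω), fl1 (q' + c) (u ω), Z ω) :=
    ch_anti fun _ _ _ _ e => by
      simp only [Prod.mk.injEq] at e ⊢
      exact ⟨e.2.2.1, fl1_eq_of_le (by omega) e.2.2.2.1, e.1, e.2.2.2.2⟩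
  have a7 := ch_drop (P := P) (fun ω => fl1 p' (f ω)) (fun ω => fl1 q (u ω))
    fun ω => (fl1 p (f ω), fl1 (r + c) (x ω), S ω, Z ω)
  have a8 : ch P (fun ω => fl1 p' (f ω))
      (fun ω => (fl1 q (u ω), fl1 p (f ω), fl1 (r + c) (x ω), S ω, Z ω)) ≤
      ch P (fun ω => fl1 p' (f ω))
        fun ω => (fl1 q (u ω), fl1 p (f ω), fl1 (r + c) (x ω), Z ω) :=
    ch_anti fun _ _ _ _ e => by
      simp only [Prod.mk.injEq] at e ⊢
      exact ⟨e.1, e.2.1, e.2.2.1, e.2.2.2.2⟩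
  have a9 : ch P (fun ω => fl1 q (u ω)) (fun ω => (fl1 p (f ω), fl1 (r + c) (x ω), S ω, Z ω)) ≤
      ch P (fun ω => fl1 q (u ω)) fun ω => (fl1 (r + c) (x ω), S ω, Z ω) := ch_anti (Fn.snd _ _)
  beta_reduce at a1 a4 a7
  push_cast at a2 a5
  linarith

theorem near (g : Geo 3 Ω) {L : ℝ} {d : ℝ × ℝ × V 3} {a b : Ω} {j q R : ℕ} (e : q ≤ R)
    (ha : (g.pl {0} 1).fit L d a j q) (hb : (g.pl {0} 1).fit L d b j q) (ez : g.z a = g.z b)
    (ex : fl1 R (g.pt a 0) = fl1 R (g.pt b 0)) : |g.pt a 1 - g.pt b 1| ≤ 3 * L / 2 ^ q := by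
  have h1 := abs_le.1 (ha.2.2 _ rfl)
  have h2 := abs_le.1 (hb.2.2 _ rfl)
  have h3 := (abs_sub_lt_of_fl1_eq (fl1_eq_of_le e ex)).le
  have h4 : |d.2.2 0 * (g.pt a 0 - g.pt b 0)| ≤ L / 2 ^ q := by
    rw [abs_mul, div_eq_mul_inv]
    exact mul_le_mul (ha.2.1 0).1 h3 (abs_nonneg _) ((abs_nonneg _).trans ha.1)
  have h5 := abs_le.1 h4
  simp only [Fin.sum_univ_three, (ha.2.1 1).2 (by decide), (ha.2.1 2).2 (by decide), zero_mul,
    add_zero] at h1 h2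
  unfold Geo.pt at h5 ⊢
  rw [mul_div_assoc, abs_le]
  rw [ez] at h1 h5 ⊢
  constructor <;> linarith

end NGA

open NGA in
theorem rowSwNG : SwNG := by
  rintro Ω P g M mm D η γ ε₀ T hM ⟨L, sL, hL⟩ h1 h0 hC hF q q' r hr he
  have γ0 : 0 < γ := one_pos.trans_le h1
  obtain ⟨p, p', hp⟩ : ∃ p p' : ℕ → ℕ, ∀ n, q n ≤ q' n → p n ≤ p' n ∧ p' n ≤ q' n ∧
      (q n : ℝ) ≤ γ * p n ∧ γ * p' n ≤ (q' n + ⌈γ⌉₊ : ℕ) ∧ (q' n - q n) / γ - 1 ≤ p' n - p n := by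
    refine ⟨fun n => ⌈q n / γ⌉₊, fun n => ⌈q' n / γ⌉₊, fun n e => ⟨Nat.ceil_mono (by gcongr),
      Nat.ceil_le.2 (div_le_self (Nat.cast_nonneg _) h1), (div_le_iff₀' γ0).1 (Nat.le_ceil _),
      ?_, ?_⟩⟩
    · have a1 := mul_le_mul_of_nonneg_left (Nat.ceil_lt_add_one
        (show (0 : ℝ) ≤ q' n / γ by positivity)).le γ0.le
      rw [mul_add, mul_div_cancel₀ _ γ0.ne'] at a1
      push_cast
      linarith [Nat.le_ceil γ]
    · rw [sub_div]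
      linarith [Nat.le_ceil ((q' n : ℝ) / γ),
        Nat.ceil_lt_add_one (show (0 : ℝ) ≤ q n / γ by positivity)]
  have hp' := he.mono fun n e => hp n e.1
  have oc : OM M fun _ => ⌈γ⌉₊ := OM.rfl.mono (hM.eventually_ge_atTop _)
  have oq' : OM M q' := hr.mono (he.mono fun _ e => e.2)
  have oq : OM M q := oq'.mono (he.mono fun _ e => e.1)
  have op' : OM M p' := oq'.mono (hp'.mono fun _ e => e.2.1)
  have op : OM M p := op'.mono (hp'.mono fun _ e => e.1)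
  have k1 := hF.ng p p' _ (oq'.add oc) (hp'.mono fun _ e => ⟨e.1, e.2.2.2.1⟩)
  have k2 := hF.fbF _ (fun n => (D n).S (p n)) (fun _ _ => 0) p (fun _ => 0) op
    (OM.rfl.mono (Eventually.of_forall fun _ => Nat.zero_le _)) (hC.lab p op)
    (Eventually.of_forall fun _ => ⟨fun _ _ _ _ _ => rfl, fun _ _ => by simp⟩) p p' _ op'
    (hr.add oc) (hp'.mono fun _ e => ⟨(one_mul _).le, e.1⟩)
  simp only [zero_mul, sub_zero] at k2
  obtain ⟨L', sL', w⟩ := hC.cellU p q op (hp'.mono fun _ e => e.2.2.1)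
  have k3 := SVT.sm_whp (φ := fun n ω => (g n).pt ω 1) (G := fun n ω =>
    (fl1 (r n + ⌈γ⌉₊) ((g n).pt ω 0), (D n).S (p n) ω, (g n).zt ω)) hM
    (sL'.const_mul hM (show (1 : ℝ) ≤ 3 by norm_num)) (sL.const_mul hM one_le_two) oq w (by
      filter_upwards [hL, he, hC.nest] with n b e s
      refine ⟨fun v hv => SVT.abs_pt b hv 1, fun v hv w hw k f1 f2 => ?_⟩
      simp only [Prod.mk.injEq, Geo.zt] at k
      have k' : (D n).U (p n) v = (D n).U (p n) w :=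
        congrArg (·.2.2.2.1) ((s.2 (p n)).2 v hv w hw k.2.1)
      exact near (g n) (by omega) f1 (k' ▸ f2) k.2.2.1 k.1)
  refine Le.of4 k1 k2 k3 (hM.sm ((2 * ⌈γ⌉₊ + ε₀) * lg)) ((he.and hp').mono fun n e => ?_)
  have a1 := key (P n) (fun ω => (g n).pt ω 1) (fun ω => (g n).pt ω 2) (fun ω => (g n).pt ω 0)
    (g n).zt ((D n).S (p n)) (c := ⌈γ⌉₊) e.1.1 e.1.2 e.2.1 e.2.2.1
  have a2 := mul_le_mul_of_nonneg_left e.2.2.2.2.2 (mul_nonneg h0 lg_pos.le)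
  have a3 : (1 - ε₀ / γ) * (q' n - q n) * lg =
      (q' n - q n) * lg - ε₀ * lg * ((q' n - q n) / γ) := by ring
  rw [a3]
  linarith

end Pool.Agent.MP_5168f5_an.R4.P0
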