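import Pool.Agent.MP_5168f5_an.R4.P2All
import Pool.Agent.MP_5168f5_an.R4.LAll

/-! Products with a determined slope of `f` do not occur. -/

namespace Pool.Agent.MP_5168f5_an.R4.P2

theorem cp2 : Tan.CP2' := cp2_of LG.lt LG.gt

end Pool.Agent.MP_5168f5_an.R4.P2
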