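import Pool.Agent.MP_5168f5_an.R4.SpecB
import Pool.Agent.MP_5168f5_an.R4.BPlc
import Pool.Agent.MP_5168f5_an.R4.SpecTAN3

/-! Products: the heavier slope is determined by the cell and the base line. -/

namespace Pool.Agent.MP_5168f5_an.R4.P2

open H19 H17S H17F Filter K31 Tan B1

variable {Ω : ℕ → Type} {K : Mb Ω → Prop} {g : Gs 3 Ω} {M mm : ℕ → ℕ} {D : ∀ n, Td (Ω n)}
  {η γ d ε₀ : ℝ} {X : Mb Ω}

/-- The windows of `u` given `f` at the matching depth. -/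
theorem winU (sw : Swap) (ng : NGm) (h : T2 K g M mm D η γ d ε₀) (hd : d ≤ γ) (hX : K X)
    {a b p r : ℕ → ℕ} (hr : OM M r)
    (e : ∀ᶠ n in UF, a n ≤ b n ∧ b n ≤ r n ∧ d * b n / γ + d + 1 ≤ p n ∧ γ * p n ≤ r n) :
    Le M (fun n => ch (X n).Q (fun v => fl1 (b n) ((X.G g n).pt v 1)) fun v =>
      (fl1 (a n) ((X.G g n).pt v 1), fl1 (p n) ((X.G g n).pt v 2), xz (X.G g n) (r n) v))
      fun n => (1 - ε₀ * d / γ) * (b n - a n) * lg := by
  have hM := h.toTn.big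
  obtain ⟨L, hL, bx⟩ := h.toTn.bx hX
  have c := h.com X hX
  have g0 : 0 < γ := one_pos.trans_le h.one
  have d0 : 0 ≤ d := zero_le_one.trans h.dge
  have up : ∀ {x y : ℕ}, γ * x ≤ y → x ≤ y := fun k =>
    Nat.cast_le.1 ((le_mul_of_one_le_left (Nat.cast_nonneg _) h.one).trans k)
  obtain ⟨b₀, hb⟩ : ∃ b₀ : ℕ → ℕ, b₀ = fun n => ⌈a n / γ⌉₊ := ⟨_, rfl⟩
  obtain ⟨q₀, hq⟩ : ∃ q₀ : ℕ → ℕ, q₀ = fun n => ⌈d * b₀ n⌉₊ := ⟨_, rfl⟩
  obtain ⟨q₁, hq'⟩ : ∃ q₁ : ℕ → ℕ, q₁ = fun n => max (q₀ n) ⌊d * b n / γ⌋₊ := ⟨_, rfl⟩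
  have b1 : ∀ n, (a n : ℝ) ≤ γ * b₀ n := fun n => (div_le_iff₀' g0).1 (hb ▸ Nat.le_ceil _)
  have b2 : ∀ n, (q₀ n : ℝ) ≤ d * a n / γ + d + 1 := fun n => by
    have u1 : (b₀ n : ℝ) ≤ a n / γ + 1 := hb ▸ (Nat.ceil_lt_add_one (by positivity)).le
    have u2 : (q₀ n : ℝ) ≤ d * b₀ n + 1 := hq ▸ (Nat.ceil_lt_add_one (by positivity)).le
    have := mul_le_mul_of_nonneg_left u1 d0
    rw [mul_div_assoc]; linarith
  have b3 : ∀ n, q₀ n ≤ q₁ n := fun n => hq' ▸ le_max_left _ _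
  have b4 : ∀ n, d * b n / γ - 1 ≤ q₁ n := fun n => by
    have : (⌊d * b n / γ⌋₊ : ℝ) ≤ q₁ n := Nat.cast_le.2 (hq' ▸ le_max_right _ _)
    linarith [Nat.lt_floor_add_one (d * b n / γ)]
  have b5 : ∀ᶠ n in UF, (q₁ n : ℝ) ≤ d * b n / γ + d + 1 := e.mono fun n u => by
    have u1 : d * a n / γ ≤ d * b n / γ := by gcongr; exact u.1
    have u2 : (⌊d * b n / γ⌋₊ : ℝ) ≤ d * b n / γ := Nat.floor_le (by positivity)
    rw [hq']; push_cast
    exact max_le (by linarith [b2 n]) (by linarith)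
  have b6 : ∀ᶠ n in UF, q₁ n ≤ p n := (e.and b5).mono fun n u =>
    Nat.cast_le.1 (u.2.trans u.1.2.2.1)
  have o1 : OM M q₁ := hr.mono ((e.and b6).mono fun n u => u.2.trans (up u.1.2.2.2))
  have ob : OM M b₀ := hr.mono (e.mono fun n u => (hb ▸ Nat.ceil_le.2
    (div_le_self (Nat.cast_nonneg _) h.one) : b₀ n ≤ a n).trans (u.1.trans u.2.1))
  have h1 := (h.fl X hX).fbF _ _ (fun _ _ => 0) b₀ (fun _ => 0) ob
    (OM.rfl.mono (.of_forall fun _ => Nat.zero_le _)) (c.lab _ ob)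
    (.of_forall fun n => ⟨fun _ _ _ _ _ => rfl, fun _ _ => by simp⟩) q₀ q₁ r o1 hr
    (.of_forall fun n => ⟨hq ▸ Nat.le_ceil _, b3 n⟩)
  simp only [zero_mul, sub_zero] at h1
  have N : ND X.P M (fun n v => fl1 (a n) ((X.G g n).pt v 1)) fun n v =>
      (fl1 (q₀ n) ((X.G g n).pt v 2), fl1 (r n) ((X.G g n).pt v 0), (mD X D n).S (b₀ n) v,
        (X.G g n).zt v) := by
    refine cell0_pt c.cellU hM g0.le ob hr (Le.of_le b1) hL ?_
    filter_upwards [e, bx, c.nest] with n a1 a2 a3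
    exact ⟨a1.1.trans a1.2.1, a2, fun u hu v hv w => Prod.ext
      (congrArg (·.2.2.2.1) ((a3.2 _).2 u hu v hv (congrArg (·.2.2.1) w)))
      (Prod.ext (congrArg (·.2.1) w) (congrArg (·.2.2.2.1) w))⟩
  have h2 := ND.le (F := fun n v => fl1 (q₁ n) ((X.G g n).pt v 2))
    (F' := fun n v => fl1 (q₁ n) ((X.G g n).pt v 2)) (ND.of_fn (.of_forall fun n => Fn.fst _ _))
    ((ND.of_fn (F := fun n v => fl1 (q₀ n) ((X.G g n).pt v 2)) (.of_forall fun n => Fn.fst _ _)).pair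
      (N.pair (ND.of_fn (F := fun n => xz (X.G g n) (r n)) (.of_forall fun n u _ v _ w =>
        Prod.ext (congrArg (·.2.1) w) (congrArg (·.2.2.2) w)))))
  have h3 := ng K g M mm D η γ d ε₀ X q₀ q₁ b r h hX hr ((e.and b6).mono fun n u =>
    ⟨b3 n, u.1.2.1, (mul_le_mul_of_nonneg_left (Nat.cast_le.2 u.2) g0.le).trans u.1.2.2.2⟩)
    ((hM.sm (γ * (d + 1))).of_sub (b5.mono fun n u => by
      have := mul_le_mul_of_nonneg_left u g0.le
      rw [add_assoc, mul_add, mul_div_cancel₀ _ g0.ne'] at this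
      linarith)) (Or.inl hd)
  refine Le.of4 h1 h2 h3 (hM.sm (ε₀ * lg * (d + 2))) ((e.and b6).mono fun n u => ?_)
  have s1 := sw (X n).Q (fun v => (X.G g n).pt v 1) (fun v => fl1 (q₀ n) ((X.G g n).pt v 2))
    (fun v => fl1 (q₁ n) ((X.G g n).pt v 2)) (xz (X.G g n) (r n)) (a n) (b n) u.1.1
    fun _ _ _ _ w => fl1_eq_of_le (b3 n) w
  have s2 : ch (X n).Q (fun v => fl1 (b n) ((X.G g n).pt v 1)) (fun v =>
      (fl1 (a n) ((X.G g n).pt v 1), fl1 (p n) ((X.G g n).pt v 2), xz (X.G g n) (r n) v)) ≤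
      ch (X n).Q (fun v => fl1 (b n) ((X.G g n).pt v 1)) fun v => (fl1 (a n) ((X.G g n).pt v 1),
        fl1 (q₁ n) ((X.G g n).pt v 2), xz (X.G g n) (r n) v) :=
    ch_anti fun _ _ _ _ w => Prod.ext (congrArg (·.1) w)
      (Prod.ext (fl1_eq_of_le u.2 (congrArg (·.2.1) w)) (congrArg (·.2.2) w))
  have s3 : d * b n / γ - d * a n / γ - (d + 2) ≤ q₁ n - q₀ n := by linarith [b2 n, b4 n]
  have s4 := mul_le_mul_of_nonneg_left s3 (mul_pos h.e0.1 lg_pos).le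
  have s5 : (1 - ε₀ * d / γ) * (b n - a n) * lg =
      (b n - a n) * lg - ε₀ * lg * (d * b n / γ - d * a n / γ) := by ring
  rw [s5]; linarith

/-- The slope of `u` given the base line and the cell. -/
theorem nilU (sw : Swap) (ng : NGm) (h : T2 K g M mm D η γ d ε₀) (hd : d ≤ γ)
    (hN : NilK K g M 2 d) (hX : K X) {c q s p r : ℕ → ℕ} {κ : ℝ} (hc : OM M c) (hr : OM M r)
    (hκ : 0 < κ) (e : ∀ᶠ n in UF, κ * M n ≤ s n ∧ q n + s n ≤ r n ∧
      d * (q n + s n : ℕ) / γ + d + 1 ≤ p n ∧ γ * p n ≤ r n ∧ (p n : ℝ) ≤ (d - 1) * r n)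
    (h1 : Le M (fun n => (q n + s n : ℕ)) fun n => γ * c n)
    (h2 : Le M (fun n => p n) fun n => d * c n) :
    ND X.P M (fun n v => fl1 (q n) ((X.G g n).e v 1)) fun n v =>
      (bl (X.G g n) (r n) v, (mD X D n).S (c n) v) := by
  have hM := h.toTn.big
  have g0 : 0 < γ := one_pos.trans_le h.one
  have d0 : 0 < d := one_pos.trans_le h.dge
  have pr : ∀ᶠ n in UF, p n ≤ r n := e.mono fun n u =>
    Nat.cast_le.1 ((le_mul_of_one_le_left (Nat.cast_nonneg _) h.one).trans u.2.2.2.1)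
  have hqs : OM M fun n => q n + s n := hr.mono (e.mono fun n u => u.2.1)
  have hz : ∀ Y, K Y → ∀ᶠ n in UF, ∀ ω ∈ (Y n).Q.S, |(Y.G g n).z ω| ≤ 1 := fun Y hY =>
    (h.toTn.bx hY).elim fun _ bx => bx.2.mono fun n b ω hω =>
      abs_le.2 ⟨by linarith [(b.bd ω hω).2.1], (b.bd ω hω).2.2.le⟩
  have k := B2L.plc (K := K) (g := g) (M := M) (q := q) (s₀ := s) (fun n ω => (g n).a ω 1)
    (fun n ω => (g n).e ω 1) (fun n ω => (bl (g n) (r n) ω, fl1 (p n) ((g n).a ω 2),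
      fl1 (p n) ((g n).e ω 2), (g n).θ ω)) (X := X) (ε₀ := ε₀ * d / γ)
    h.cl.toCl0 (fun C hC Y hY => (h.cls C hC).bs Y hY) (fun Y hY => by
      obtain ⟨L, hL, bx⟩ := h.toTn.bx hY
      exact ⟨L, hL, bx.mono fun n b => ⟨Fn.comp (fun l : V 3 × V 3 × _ => (l.1 1, l.2.1 1,
        (fl1 (r n) (l.1 0), fl1 (r n) (l.2.1 0)), fl1 (p n) (l.1 2), fl1 (p n) (l.2.1 2), l.2.2))
        _, fun _ _ _ _ w => congrArg (·.2.2.2) w, fun v hv => (b.bd v hv).1 1⟩⟩)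
    (hqs.mono (Eventually.of_forall fun n => Nat.le_add_right _ _))
    (hqs.mono (Eventually.of_forall fun n => Nat.le_add_left _ _)) hκ (e.mono fun _ u => u.1)
    (by have := h.e0.1; positivity) (fun Y hY a b hab => by
      refine (ND.le (ND.of_fn (Eventually.of_forall fun n => Fn.fst _ _))
        ((ND.of_fn (Eventually.of_forall fun n => Fn.fst _ _)).pair (ND.pair ?_ (ND.pair ?_
          (ND.of_fn (Eventually.of_forall fun n _ _ _ _ w =>
            Prod.ext (congrArg (·.2.1) w) (congrArg (·.2.2.2.2.2) w))))))).trans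
        (winU (p := p) sw ng h hd hY hr ((e.and hab).mono fun n u =>
          ⟨u.2.1, u.2.2.trans u.1.2.1, le_trans (by gcongr; exact u.2.2) u.1.2.2.1, u.1.2.2.2.1⟩))
      · exact nd_pt hM ((hz Y hY).mono fun n u => ⟨fun _ _ _ _ w => Prod.ext
          (congrArg (·.2.2.2.1) w) (Prod.ext (congrArg (·.2.2.2.2.1) w) (congrArg (·.2.1) w)), u⟩)
      · exact nd_pt hM ((hz Y hY).mono fun n u => ⟨fun _ _ _ _ w => Prod.ext
          (congrArg (·.2.2.1.1) w) (Prod.ext (congrArg (·.2.2.1.2) w)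
            (congrArg (·.2.1) w)), u⟩)) hX
  obtain ⟨L, hL, bx⟩ := h.toTn.bx hX
  have cm := h.com X hX
  obtain ⟨B, hB⟩ : ∃ B, B = fun n v => ((X.G g n).z v, bl (X.G g n) (r n) v,
    (mD X D n).S (c n) v) := ⟨_, rfl⟩
  have b1 : ∀ n, Fn (X n).Q (X.G g n).z (B n) := fun n => hB ▸ Fn.fst _ _
  have b2 : ∀ n, Fn (X n).Q (bl (X.G g n) (r n)) (B n) := fun n => hB ▸ (Fn.fst _ _).right _
  have b3 : ∀ n, Fn (X n).Q ((mD X D n).S (c n)) (B n) := fun n => hB ▸ (Fn.snd _ _).right _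
  have b4 : ∀ᶠ n in UF, Fn (X n).Q (X.G g n).θ (B n) := cm.nest.mono fun n w =>
    ((Fn.comp (·.1) _).trans (w.2 _).2).trans (b3 n)
  have n0 : ND X.P M (fun n ω => fl1 (r n) ((X.G g n).pt ω 0)) B :=
    nd_pt hM ((hz X hX).mono fun n u => ⟨((Fn.comp Prod.fst _).trans (b2 n)).pair
      (((Fn.comp Prod.snd _).trans (b2 n)).pair (b1 n)), u⟩)
  have n1 : ND X.P M (fun n ω => fl1 (q n + s n) ((X.G g n).pt ω 1)) B :=
    n0.cut (cell0_pt cm.cellU hM g0.le hc hr h1 hL (by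
      filter_upwards [e, bx, cm.nest] with n u v w
      exact ⟨u.2.1, v, ((((Fn.comp (·.2.2.2.1) _).trans (w.2 _).2).trans (b3 n)).right _).pair
        ((Fn.fst _ _).pair ((b1 n).right _))⟩))
  have n2 : ND X.P M (fun n ω => fl1 (p n) ((X.G g n).pt ω 2)) B :=
    n0.cut (cell0_pt ((h.fl X hX).cellP hd) hM d0.le hc hr h2 hL (by
      filter_upwards [pr, bx, cm.nest] with n u v w
      exact ⟨u, v, ((((Fn.comp (·.2.2.2.2) _).trans (w.2 _).2).trans (b3 n)).right _).pair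
        ((Fn.fst _ _).pair ((b1 n).right _))⟩))
  have n3 : ND X.P M (fun n ω => fl1 (p n) ((X.G g n).e ω 2)) B :=
    ND.anti (hN X hX p r hr ((pr.and e).mono fun n u => ⟨u.1, u.2.2.2.2.2⟩))
      (b4.mono fun n u => (b2 n).pair u)
  have n4 : ND X.P M (fun n ω => fl1 (p n) ((X.G g n).a ω 2)) B :=
    (n2.pair n3).cut (ND.mono (nd_pt (a := fun n ω => (X.G g n).pt ω 2)
      (e := fun n ω => (X.G g n).e ω 2) (z := fun n ω => -(X.G g n).z ω) (r := p) hM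
      ((hz X hX).mono fun n u => ⟨((Fn.fst _ _).left _).pair (((Fn.snd _ _).left _).pair
        (((Fn.comp (fun t => -t) _).trans (b1 n)).right _)), fun ω hω => by
          rw [abs_neg]; exact u ω hω⟩)) (Eventually.of_forall fun n x _ y _ q => by
      have : ∀ ω, (X.G g n).pt ω 2 + -(X.G g n).z ω * (X.G g n).e ω 2 = (X.G g n).a ω 2 :=
        fun ω => by
          rw [show (X.G g n).pt ω 2 = (X.G g n).a ω 2 + (X.G g n).z ω * (X.G g n).e ω 2 from rfl]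
          ring
      simpa only [this] using q))
  have n5 := k.trans (n1.pair ((ND.of_fn (.of_forall b1)).pair
    ((ND.of_fn (.of_forall b2)).pair (n4.pair (n3.pair (ND.of_fn b4))))))
  have n6 := le_unit (C := 1) (M' := M) (.of_forall fun n => by simp)
    (kb.inf X.P (X.G g) _ c _ ((h.cls 1 one_pos).bs X hX)
      (le_unit (C := 1) ((ev_le h.sm).mono fun n u => by simpa using u) (cm.lab c hc).h))
  refine Le.of2 n5 n6 (cm.nest.mono fun n w => ?_)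
  have s1 := ch_le_mi (P := (X n).Q) (F := fun v => fl1 (q n) ((X.G g n).e v 1)) (G := (X.G g n).z)
    (K := fun v => (bl (X.G g n) (r n) v, (mD X D n).S (c n) v)) (K' := B n) (hB ▸ Fn.rfl _)
  have s2 : mi (X n).Q (fun v => fl1 (q n) ((X.G g n).e v 1)) (X.G g n).z
      (fun v => (bl (X.G g n) (r n) v, (mD X D n).S (c n) v)) ≤
      mi (X n).Q (X.G g n).z (fun v => ((X.G g n).ln v, (mD X D n).S (c n) v)) fun v =>
        (fl1 (c n) ((X.G g n).z v), (X.G g n).θ v) := by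
    rw [mi_symm]
    refine mi_right (fun x hx y hy u => ?_) (fun x _ y _ u => ?_) fun x _ y _ u => ?_
    · have := (w.2 _).2 x hx y hy (congrArg (·.2) u)
      exact Prod.ext (congrArg (·.2.1) this) (congrArg (·.1) this)
    · have k1 : (X.G g n).ln x = (X.G g n).ln y := congrArg (·.1.1) u
      exact Prod.ext (congrArg (fun l : V 3 × V 3 × _ =>
        (fl1 (r n) (l.1 0), fl1 (r n) (l.2.1 0))) k1) (congrArg (·.1.2) u)
    · exact congrArg (fun l => fl1 (q n) (l.1.1.2.1 1)) u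
  linarith

end Pool.Agent.MP_5168f5_an.R4.P2
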