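import Pool.Agent.MP_5168f5_an.R4.SVAll
import Pool.Agent.MP_5168f5_an.R4.BApi

/-! Planarity in windows for a real height. -/

namespace Pool.Agent.MP_5168f5_an.R4

open H19 H17S H17F Filter B1

namespace PLrx

/-- Digits of a variable that is close to `y`. -/
theorem near {Ω β : ℕ → Type} {P : ∀ n, FP (Ω n)} {x y : ∀ n, Ω n → ℝ} {G : ∀ n, Ω n → β n}
    {M i : ℕ → ℕ} {L : ℕ → ℝ} (hM : Big M) (hL : Sub M L) (hi : ∀ n, i n ≤ M n)
    (h : ∀ᶠ n in UF, ∀ ω ∈ (P n).S, |x n ω - y n ω| ≤ L n / 2 ^ M n) :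
    ND P M (fun n ω => fl1 (i n) (x n ω)) fun n ω => (fl1 (i n) (y n ω), G n ω) :=
  ND.sure (c := fun n ω => U.rd (i n) (y n ω)) hM (hL.const_mul hM one_le_two)
    (h.mono fun n u => ⟨((Fn.comp (fun k : ℤ => (k : ℝ) / 2 ^ i n) _).left _), fun ω hω => by
      have a1 := (u ω hω).trans (U.div_pow_le (hL.pos n).le (hi n))
      have a2 := (U.abs_sub_rd (i n) (y n ω)).trans
        (div_le_div_of_nonneg_right (hL.1 n) (by positivity))
      have := abs_sub_le (x n ω) (y n ω) (U.rd (i n) (y n ω))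
      rw [mul_div_assoc]; linarith⟩)

theorem fin {W T : Type} (Q : FP W) (Θ : W → T) (a e z : W → ℝ) (m i k : ℕ) :
    ch Q (fun v => fl1 i (a v + e v * SVPL2A.rd m (z v)))
      (fun v => (fl1 k (a v + e v * SVPL2A.rd m (z v)), SVPL2A.rd m (z v), Θ v)) ≤
    ch Q (fun v => fl1 i (a v + e v * SVPL2A.rd m (z v)))
      (fun v => (fl1 k (a v + e v * SVPL2A.rd m (z v)), z v, Θ v)) +
      mi Q z (fun v => (a v, e v)) Θ := by
  refine (ch_le_mi (G := z) fun a _ b _ e => ?_).trans (add_le_add le_rfl ?_)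
  · simp only [Prod.mk.injEq] at e ⊢
    tauto
  · rw [mi_symm]
    refine (mi_right (G := fun v => (a v, e v)) (K := fun v => (SVPL2A.rd m (z v), Θ v))
      (Fn.snd _ _) ?_ ?_).trans
      (mi_left (Fn.snd _ _) (((Fn.comp (SVPL2A.rd m) z).left _).pair (Fn.snd _ _)) (Fn.fst _ _))
    all_goals
      intro a _ b _ e
      simp only [Prod.mk.injEq] at e
      simp only [e.1.1, e.1.2, e.2.1, e.2.2]

end PLrx

open PLrx in
/-- If no window of `a + e z` is full, the point determines the slope. -/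
theorem plr {Ω T : ℕ → Type} {P : ∀ n, FP (Ω n)} {Θ : ∀ n, Ω n → T n} {a e z : ∀ n, Ω n → ℝ}
    {M q s : ℕ → ℕ} {L : ℕ → ℝ} {ε₀ : ℝ} (hM : Big M) (hL : Sub M L)
    (hb : ∀ᶠ n in UF, ∀ ω ∈ (P n).S, (0 ≤ z n ω ∧ z n ω < 1) ∧ |a n ω| ≤ L n ∧ |e n ω| ≤ L n)
    (hi : Sm M fun n => mi (P n) (z n) (fun ω => (a n ω, e n ω)) (Θ n))
    (hf : Le M (fun n => M n * lg) fun n => ch (P n) (fun ω => fl1 (M n) (z n ω)) (Θ n))
    (e0 : 0 < ε₀) (e1 : ε₀ ≤ 1) (hs : Frac s M) (hq : ∀ n, q n + s n ≤ M n)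
    (hw : ∀ j : ℕ → ℕ, (∀ n, j n ≤ q n) → ∀ E, Pos P E → Le M (fun n => ch (cE (P n) (E n))
      (fun ω => fl1 (j n + s n) (a n ω + e n ω * z n ω)) fun ω =>
        (fl1 (j n) (a n ω + e n ω * z n ω), z n ω, Θ n ω)) fun n => (1 - ε₀) * s n * lg) :
    ND P M (fun n ω => fl1 (q n) (e n ω)) fun n ω =>
      (fl1 (q n + s n) (a n ω + e n ω * z n ω), z n ω, Θ n ω) := by
  have d : ∀ᶠ n in UF, ∀ ω ∈ (P n).S, |a n ω + e n ω * SVPL2A.rd (M n) (z n ω) -
      (a n ω + e n ω * z n ω)| ≤ L n / 2 ^ M n := hb.mono fun n u ω hω => by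
    rw [add_sub_add_left_eq_sub, ← mul_sub, abs_mul, abs_sub_comm, div_eq_mul_one_div]
    exact mul_le_mul (u ω hω).2.2 (by
      rw [SVPL2A.rd, ← div_eq_inv_mul]; exact U.abs_sub_rd _ _) (abs_nonneg _) (hL.pos n).le
  have d' := d.mono fun n u ω hω => (abs_sub_comm _ _).trans_le (u ω hω)
  have k := plw P Θ a e (fun n ω => SVPL2A.rd (M n) (z n ω)) M q s L ε₀
    ⟨⟨hM, hb.mono fun n a ω hω => SVPL2A.rd_box (a ω hω).1, ?_⟩, Eventually.of_forall
      fun n a _ b _ e => ?_⟩ hL (hb.mono fun n a ω hω => (a ω hω).2) e0 e1 hs hq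
    fun j hj E hE => ?_
  · refine ND.trans k (ND.pair (near hM hL hq d) (ND.of_fn (Eventually.of_forall fun n =>
      Fn.right (((Fn.comp (SVPL2A.rd (M n)) _).left _).pair (Fn.snd _ _)) _)))
  · simp only [SVPL2A.fl1_rd]
    refine hf.of2 hi (Eventually.of_forall fun n => ?_)
    have a1 : mi (P n) (fun ω => fl1 (M n) (z n ω)) (fun ω => (a n ω, e n ω)) (Θ n) ≤
        mi (P n) (z n) (fun ω => (a n ω, e n ω)) (Θ n) :=
      mi_mono' ((Fn.comp (fl1 (M n)) (z n)).left _)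
    have a2 : ch (P n) (fun ω => fl1 (M n) (z n ω)) (fun ω => ((a n ω, e n ω), Θ n ω)) ≤
        ch (P n) (fun ω => fl1 (M n) (z n ω)) fun ω => (a n ω, e n ω, Θ n ω) :=
      ch_anti fun a _ b _ e => by simp only [Prod.mk.injEq] at e ⊢; tauto
    rw [mi] at a1
    linarith
  · simp only [SVPL2A.fl1_rd] at e
    simp only [SVPL2A.rd, e]
  · have hj1 : ∀ n, j n + s n ≤ M n := fun n => (Nat.add_le_add_right (hj n) _).trans (hq n)
    have c1 := d.mono fun n u ω (hω : ω ∈ (cE (P n) (E n)).S) => u ω (cE_sub hω)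
    have c2 := d'.mono fun n u ω (hω : ω ∈ (cE (P n) (E n)).S) => u ω (cE_sub hω)
    have n1 := near (G := fun n ω => (fl1 (j n) (a n ω + e n ω * SVPL2A.rd (M n) (z n ω)),
      z n ω, Θ n ω)) hM hL hj1 c1
    have n2 := near (G := fun n ω => (z n ω, Θ n ω)) hM hL
      (fun n => (Nat.le_add_right _ _).trans (hj1 n)) c2
    have n3 := ND.le n1 (n2.pair (ND.of_fn (Eventually.of_forall fun n => Fn.snd _ _)))
    exact n3.of3 (hw j hj E hE) ((K31.dnS_cE hE).sm_mi hM hi) (Eventually.of_forall fun n => by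
      dsimp only [id]
      linarith [fin (cE (P n) (E n)) (Θ n) (a n) (e n) (z n) (M n) (j n + s n) (j n)])

end Pool.Agent.MP_5168f5_an.R4
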