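import Pool.Agent.MP_5168f5_an.H42.Max

/-! From a discrete estimate with a fixed loss to the strong type bound. -/

namespace Pool.Agent.MP_5168f5_an.R4

open MeasureTheory Set Metric Pool.Agent.MP_5168f5_an.H19 Pool.Agent.MP_5168f5_an.H20
open Pool.Agent.MP_5168f5_an.H42
open scoped ENNReal

variable {m : ℕ}

/-- The discrete estimate with loss `Q ^ τ`. -/
def GK1 (m : ℕ) (τ b q : ℝ) : Prop :=
  ∃ C : ℝ, 0 < C ∧ ∀ (Q l : ℕ) (G : Finset (Line m)) (E : Finset (Pt m)),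
    0 < l → Sep Q G → (∀ g ∈ G, l ≤ (shade E (Finset.range Q) g).card) →
    (G.card : ℝ) ≤ C * (Q : ℝ) ^ τ * (Q : ℝ) ^ m * (E.card : ℝ) ^ b / (l : ℝ) ^ q

theorem net_of_gk1 {b q ε : ℝ} (hb : 1 ≤ b) (hK : GK1 m ε b q) :
    ∃ C : ℝ, 0 < C ∧ ∀ (Q l : ℕ) (E : Finset ((Fin m → ℤ) × ℤ)), 0 < Q → 0 < l →
      ∃ G : Finset (Line m),
        (G.card : ℝ) ≤ C * (Q : ℝ) ^ ε * (Q : ℝ) ^ m / (l : ℝ) ^ q * (E.card : ℝ) ^ b ∧
        (∀ g ∈ G, ∀ j, |g.2 j| ≤ 1) ∧
        ∀ (g : Line m) (s : ℤ), l ≤ cnt E Q g s → (∀ j, |g.2 j| ≤ 1) →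
          ∃ g' ∈ G, ∀ j, (Q : ℝ) * |g.2 j - g'.2 j| ≤ 1 := by
  obtain ⟨C, hC, h⟩ := hK
  refine ⟨C, hC, fun Q l E hQ hl => ?_⟩
  obtain ⟨G, h1, h2, h3⟩ := exists_net (Q := Q) (fun g => ∃ s, l ≤ cnt E Q g s) fun G hG hP =>
    count_slabs (C := C * (Q : ℝ) ^ ε * (Q : ℝ) ^ m / (l : ℝ) ^ q) hb (by positivity) hQ
      (fun G E hG hs => (h Q l G E hl hG hs).trans (le_of_eq (by ring))) G E hG hP
  exact ⟨G, h1, h2, fun g s hs hg => h3 g ⟨s, hs⟩ hg⟩

theorem weak_of_gk1 {b q ε : ℝ} (hb : 1 ≤ b) (hK : GK1 m ε b q) :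
    ∃ C : ℝ, 0 < C ∧ ∀ (Q l : ℕ) (i : Fin (m + 1)) (E : Finset ((Fin m → ℤ) × ℤ)), 0 < Q → 0 < l →
      ∃ D : Set (sphere (0 : EuclideanSpace ℝ (Fin (m + 1))) 1), MeasurableSet D ∧
        volume.toSphere D ≤
          ENNReal.ofReal (C * (Q : ℝ) ^ ε / (l : ℝ) ^ q * (E.card : ℝ) ^ b) ∧
        ∀ e : sphere (0 : EuclideanSpace ℝ (Fin (m + 1))) 1, (∀ j, |e.1 j| ≤ |e.1 i|) →
          ∀ x s, l ≤ cnt E Q (x, slope e.1 i) s → e ∈ D := by
  obtain ⟨C, hC, h⟩ := net_of_gk1 hb hK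
  refine ⟨C * ((m + 1) * 3 * 4 ^ (m + 1)), by positivity, fun Q l i E hQ hl => ?_⟩
  obtain ⟨G, h1, h2, h3⟩ := h Q l E hQ hl
  have hQp : (0 : ℝ) < Q := by exact_mod_cast hQ
  refine ⟨⋃ g ∈ G, cap Q i g.2, G.measurableSet_biUnion fun g _ => measurableSet_cap _ _ _, ?_,
    fun e he x s hs => ?_⟩
  · refine (measure_biUnion_finset_le _ _).trans
      ((Finset.sum_le_sum fun g hg => toSphere_cap hQ i (h2 g hg)).trans ?_)
    rw [Finset.sum_const, nsmul_eq_mul, ← ENNReal.ofReal_natCast,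
      ← ENNReal.ofReal_mul (Nat.cast_nonneg _)]
    refine ENNReal.ofReal_le_ofReal ((mul_le_mul_of_nonneg_right h1 (by positivity)).trans
      (le_of_eq ?_))
    field_simp
  · obtain ⟨g, hg, h4⟩ := h3 (x, slope e.1 i) s hs (abs_slope_le he)
    exact mem_biUnion hg (mem_cap hQ he h4)

theorem max_of_gk1 {b p τ θ ε : ℝ} (hb : 1 ≤ b) (hp1 : 1 ≤ p) (hK : GK1 m τ b (p * b))
    (hε : 0 < ε) (hθ0 : 0 ≤ θ) (hθ : ε / 2 + (τ + (m + 1) * b) / (p * b) - 1 ≤ θ) :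
    ∃ C : ℝ, ∀ f : EuclideanSpace ℝ (Fin (m + 1)) → ℝ, AEMeasurable f volume →
      ∀ δ : ℝ, 0 < δ → δ < 1 →
      ∃ G : sphere (0 : EuclideanSpace ℝ (Fin (m + 1))) 1 → ℝ≥0∞, Measurable G ∧
        (∀ e, kakeyaMax δ f e ≤ G e) ∧
        eLpNorm G (ENNReal.ofReal (p * b)) volume.toSphere ≤
          ENNReal.ofReal (C * δ ^ (-θ)) *
            eLpNorm f (ENNReal.ofReal p) volume := by
  classical
  have hb0 : 0 < b := by linarith
  have hp0 : 0 < p := by linarith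
  have hq1 : (1 : ℝ) ≤ p * b := one_le_mul_of_one_le_of_one_le hp1 hb
  have hq0 : (0 : ℝ) < p * b := by linarith
  obtain ⟨C₁, hC₁, hW⟩ := weak_of_gk1 hb hK
  obtain ⟨C₂, hC₂, hL⟩ := log_sq_le (half_pos hε)
  set σ : ℝ := ((volume : Measure (EuclideanSpace ℝ (Fin (m + 1)))).toSphere univ).toReal with hσ
  have hσ0 : 0 ≤ σ := ENNReal.toReal_nonneg
  set c : ℝ := 20 * (24 * (m + 1)) ^ (m + 1) with hc
  have hc0 : 0 < c := by positivity
  set A : ℝ := (C₁ * (2 ^ (m + 1)) ^ b) ^ (1 / (p * b)) with hA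
  have hA0 : 0 < A := by positivity
  refine ⟨c * (σ ^ (1 / (p * b)) + (m + 1) ^ 3 * C₂ * 4 * A) * 2 ^ θ, fun f hf δ hδ0 hδ1 => ?_⟩
  obtain ⟨F, hF, hFf⟩ : ∃ F : EuclideanSpace ℝ (Fin (m + 1)) → ℝ≥0∞, Measurable F ∧
      (fun y => ‖f y‖ₑ) =ᵐ[volume] F := ⟨_, hf.enorm.measurable_mk, hf.enorm.ae_eq_mk⟩
  have hmax : ∀ e, kakeyaMax δ f e = ⨆ a, (∫⁻ y in tube e.1 a δ, F y) / volume (tube e.1 a δ) :=
    fun e => iSup_congr fun a => by rw [lintegral_congr_ae (ae_restrict_of_ae hFf)]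
  set a := eLpNorm f (ENNReal.ofReal p) volume with ha
  have hap : ∫⁻ y, F y ^ p = a ^ p := by
    rw [ha, eLpNorm_eq_lintegral_rpow_enorm_toReal (ENNReal.ofReal_pos.2 hp0).ne'
      ENNReal.ofReal_ne_top, ENNReal.toReal_ofReal hp0.le, ← ENNReal.rpow_mul,
      one_div_mul_cancel hp0.ne', ENNReal.rpow_one]
    refine lintegral_congr_ae ?_
    filter_upwards [hFf] with y hy
    rw [← hy]
  by_cases hat : a = ∞
  · refine ⟨fun _ => ∞, measurable_const, fun _ => le_top, ?_⟩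
    rw [hat, ENNReal.mul_top (ENNReal.ofReal_pos.2 (by positivity)).ne']
    exact le_top
  by_cases ha0 : a = 0
  · refine ⟨fun _ => 0, measurable_const, fun e => ?_, by simp⟩
    rw [ha0, ENNReal.zero_rpow_of_pos hp0, lintegral_eq_zero_iff (hF.pow_const p)] at hap
    have h1 : F =ᵐ[volume] 0 := by
      filter_upwards [hap] with y hy
      simpa [hp0, hp0.le, not_lt.2 hp0.le] using hy
    rw [hmax]
    refine iSup_le fun x => ?_
    rw [lintegral_congr_ae (ae_restrict_of_ae h1)]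
    simp
  set Q : ℕ := ⌈1 / δ⌉₊ with hQ
  have hQ1 : 1 / δ ≤ Q := Nat.le_ceil _
  have hδ2 : 1 < 1 / δ := by rw [lt_div_iff₀ hδ0]; linarith
  have hQ2 : 2 ≤ Q := by
    have : (1 : ℝ) < Q := hδ2.trans_le hQ1
    exact_mod_cast this
  have hQ0 : 0 < Q := by omega
  have hQp : (0 : ℝ) < Q := by exact_mod_cast hQ0
  have hQ3 : (Q : ℝ) * δ ≤ 2 := by
    have : (Q : ℝ) < 1 / δ + 1 := Nat.ceil_lt_add_one (by positivity)
    rw [← le_div_iff₀ hδ0, show 2 / δ = 1 / δ + 1 / δ by ring]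
    linarith
  have hQ4 : 1 / (Q : ℝ) ≤ δ := by
    rw [div_le_iff₀ hδ0] at hQ1
    rw [div_le_iff₀ hQp]; linarith
  set L : ℕ := Nat.log 2 Q + 1 with hLd
  have hL1 : Q < 2 ^ L := Nat.lt_pow_succ_log_self one_lt_two Q
  have hL2 : 2 ^ L ≤ 2 * Q := by
    rw [hLd, pow_succ, mul_comm]
    exact Nat.mul_le_mul_left 2 (Nat.pow_log_le_self 2 hQ0.ne')
  set M : ℕ := (L + 1) * (m + 1) with hM
  have hM1 : (2 * Q) ^ (m + 1) < 2 ^ M := by
    rw [hM, pow_mul]
    exact Nat.pow_lt_pow_left (by rw [pow_succ]; omega) (by omega)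
  have hM2 : Q < 2 ^ M :=
    lt_of_le_of_lt ((by omega : Q ≤ 2 * Q).trans (Nat.le_self_pow (by omega) _)) hM1
  set V := ENNReal.ofReal ((2 * (6 / Q : ℝ)) ^ (m + 1)) with hV
  have hV0 : V ≠ 0 := (ENNReal.ofReal_pos.2 (by positivity)).ne'
  choose E hEc hE using fun i k => level_card hQ0 i hF hp1 ha0 hat hap k
  choose D hDm hDv hD using fun (t : Fin (m + 1) × ℕ × ℕ) =>
    hW Q (2 ^ t.2.2) t.1 (E t.1 t.2.1) hQ0 (by positivity)
  have htop : ∀ i z, (∫⁻ y in box Q i z, F y) / V < 2 ^ M * a := by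
    intro i z
    by_contra hz
    have h1 : 0 < (E i M).card := Finset.card_pos.2 ⟨z, (hE i M z).2 (not_lt.1 hz)⟩
    have h2 : (1 : ℝ) ≤ (E i M).card := by exact_mod_cast h1
    have h3 : (2 * Q : ℝ) ^ (m + 1) < 2 ^ M := by exact_mod_cast hM1
    have h4 : (2 : ℝ) ^ M ≤ ((2 : ℝ) ^ M) ^ p := Real.self_le_rpow_of_one_le
      (one_le_pow₀ one_le_two) hp1
    have h5 := h2.trans (hEc i M)
    rw [le_div_iff₀ (by positivity)] at h5
    linarith
  set S : Finset (Fin (m + 1) × ℕ × ℕ) := Finset.univ ×ˢ Finset.range M ×ˢ Finset.range M with hS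
  let u : Fin (m + 1) × ℕ × ℕ → ℝ≥0∞ := fun t =>
    ENNReal.ofReal (c / Q * (2 ^ (t.2.1 + 1) * 2 ^ (t.2.2 + 1))) * a
  have hSm : Measurable (∑ t ∈ S, (D t).indicator fun _ => u t :
      sphere (0 : EuclideanSpace ℝ (Fin (m + 1))) 1 → ℝ≥0∞) := by
    rw [Finset.sum_fn]
    exact Finset.measurable_sum _ fun t _ => measurable_const.indicator (hDm t)
  refine ⟨(fun _ => ENNReal.ofReal c * a) + ∑ t ∈ S, (D t).indicator fun _ => u t,
    measurable_const.add hSm, fun e => ?_, ?_⟩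
  · have he : ‖e.1‖ = 1 := norm_eq_of_mem_sphere e
    obtain ⟨i, -, hi⟩ := Finset.exists_max_image Finset.univ (fun j => |e.1 j|)
      Finset.univ_nonempty
    have hi' : ∀ j, |e.1 j| ≤ |e.1 i| := fun j => hi j (Finset.mem_univ j)
    set W : ℝ≥0∞ := Q * a + ∑ k ∈ Finset.range M, ∑ j ∈ Finset.range M,
      (D (i, k, j)).indicator (fun _ => 2 ^ (k + 1) * 2 ^ (j + 1) * a) e with hWd
    have h1 : ∀ x s, ∑ r ∈ Finset.range Q,
        ∫⁻ y in box Q i (cell (x, slope e.1 i) r, s * Q + r), F y ≤ W * V := by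
      intro x s
      have h2 := line_sum (fun z => (∫⁻ y in box Q i z, F y) / V) a (E i) (hE i) (htop i) hM2
        (x, slope e.1 i) s
      have h3 : ∑ r ∈ Finset.range Q,
          (∫⁻ y in box Q i (cell (x, slope e.1 i) r, s * Q + r), F y) / V ≤ W := by
        refine h2.trans (add_le_add le_rfl (Finset.sum_le_sum fun k _ =>
          Finset.sum_le_sum fun j _ => ?_))
        split_ifs with h4
        · rw [indicator_of_mem (hD (i, k, j) e hi' x s h4)]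
        · exact zero_le
      simp only [div_eq_mul_inv] at h3
      rwa [← Finset.sum_mul, ← div_eq_mul_inv,
        ENNReal.div_le_iff_le_mul (Or.inl hV0) (Or.inl ENNReal.ofReal_ne_top)] at h3
    have h5 : ENNReal.ofReal (c / Q) * W ≤ ((fun _ => ENNReal.ofReal c * a) +
        ∑ t ∈ S, (D t).indicator fun _ => u t :
          sphere (0 : EuclideanSpace ℝ (Fin (m + 1))) 1 → ℝ≥0∞) e := by
      rw [hWd, mul_add, ← mul_assoc, ← ENNReal.ofReal_natCast, ← ENNReal.ofReal_mul (by positivity),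
        div_mul_cancel₀ _ hQp.ne', Pi.add_apply, Finset.sum_apply, hS, Finset.sum_product]
      refine add_le_add le_rfl (le_trans (le_of_eq ?_) (Finset.single_le_sum
        (f := fun i => ∑ y ∈ Finset.range M ×ˢ Finset.range M,
          (D (i, y)).indicator (fun _ => u (i, y)) e) (fun _ _ => zero_le) (Finset.mem_univ i)))
      rw [Finset.sum_product, Finset.mul_sum]
      refine Finset.sum_congr rfl fun k _ => ?_
      rw [Finset.mul_sum]
      refine Finset.sum_congr rfl fun j _ => ?_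
      by_cases h6 : e ∈ D (i, k, j)
      · simp only [indicator_of_mem h6, u]
        rw [ENNReal.ofReal_mul (by positivity), ENNReal.ofReal_mul (by positivity),
          ENNReal.ofReal_pow (by norm_num), ENNReal.ofReal_pow (by norm_num), ENNReal.ofReal_ofNat]
        ring
      · simp [indicator_of_notMem h6]
    rw [hmax]
    refine iSup_le fun x => ENNReal.div_le_of_le_mul ?_
    obtain ⟨x', s, hcov⟩ := tube_cover he hi' x hQ0 hδ1 hQ3
    calc ∫⁻ y in tube e.1 x δ, F y ≤ ∑ u ∈ Finset.range 5, ∑ r ∈ Finset.range Q,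
          ∫⁻ y in box Q i (cell (x' u, slope e.1 i) r, s u * Q + r), F y :=
          (lintegral_mono_set hcov).trans ((lintegral_biUnion_finset_le _ _ _).trans
            (Finset.sum_le_sum fun u _ => lintegral_biUnion_finset_le _ _ _))
      _ ≤ ∑ _u ∈ Finset.range 5, W * V := Finset.sum_le_sum fun u _ => h1 _ _
      _ = ENNReal.ofReal (c / Q) * W *
          ENNReal.ofReal (Q / 4 * (1 / (2 * (m + 1) * Q)) ^ (m + 1)) := by
          rw [Finset.sum_const, Finset.card_range, nsmul_eq_mul, mul_right_comm,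
            ← ENNReal.ofReal_mul (by positivity), mul_left_comm, mul_comm, hV,
            ← ENNReal.ofReal_natCast, ← ENNReal.ofReal_mul (Nat.cast_nonneg _)]
          congr 2
          rw [hc, show (2 : ℝ) * (6 / Q) = 24 * (m + 1) * (1 / (2 * (m + 1) * Q)) by
            field_simp; norm_num, mul_pow]
          push_cast
          field_simp
          norm_num
      _ ≤ _ := mul_le_mul' h5 (tube_lower he x hQ2 hQ4)
  · have hq : (1 : ℝ≥0∞) ≤ ENNReal.ofReal (p * b) := ENNReal.one_le_ofReal.2 hq1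
    have hq' : ENNReal.ofReal (p * b) ≠ 0 := (ENNReal.ofReal_pos.2 hq0).ne'
    have h1 : ∀ t ∈ S, eLpNorm ((D t).indicator fun _ => u t) (ENNReal.ofReal (p * b))
        volume.toSphere ≤ ENNReal.ofReal
          (c / Q * 4 * (A * (Q : ℝ) ^ ((τ + (m + 1) * b) / (p * b)))) * a := by
      intro t _
      rw [eLpNorm_indicator_const (hDm t) hq' ENNReal.ofReal_ne_top, enorm_eq_self,
        ENNReal.toReal_ofReal hq0.le]
      refine (mul_le_mul_right (ENNReal.rpow_le_rpow (hDv t) (by positivity)) _).trans ?_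
      rw [ENNReal.ofReal_rpow_of_nonneg (by positivity) (by positivity), mul_right_comm,
        ← ENNReal.ofReal_mul (by positivity)]
      refine mul_le_mul_left (ENNReal.ofReal_le_ofReal ?_) _
      have h2 := term_le (ε := τ) (x := 2 ^ t.2.1) (y := 2 ^ t.2.2) hb hp0 hC₁ (by positivity)
        (by positivity) hQp (Nat.cast_nonneg _) (hEc t.1 t.2.1)
      push_cast
      refine le_trans (le_of_eq ?_) (mul_le_mul_of_nonneg_left h2 (by positivity))
      ring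
    have h2 : (S.card : ℝ) ≤ (m + 1) ^ 3 * (C₂ * (Q : ℝ) ^ (ε / 2)) := by
      have h3 : (S.card : ℝ) = (m + 1) ^ 3 * ((L : ℝ) + 1) ^ 2 := by
        simp only [hS, Finset.card_product, Finset.card_range, Finset.card_univ, Fintype.card_fin,
          hM]
        push_cast; ring
      rw [h3]
      exact mul_le_mul_of_nonneg_left (hL Q L hQ0 hL2) (by positivity)
    refine (eLpNorm_add_le aestronglyMeasurable_const hSm.aestronglyMeasurable hq).trans ?_
    refine (add_le_add le_rfl ((eLpNorm_sum_le (fun t _ =>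
      (measurable_const.indicator (hDm t)).aestronglyMeasurable) hq).trans
        (Finset.sum_le_sum h1))).trans ?_
    rw [eLpNorm_const' _ hq' ENNReal.ofReal_ne_top, enorm_eq_self, ENNReal.toReal_ofReal hq0.le,
      ← ENNReal.ofReal_toReal (measure_ne_top volume.toSphere univ), ← hσ,
      ENNReal.ofReal_rpow_of_nonneg hσ0 (by positivity), mul_right_comm,
      ← ENNReal.ofReal_mul hc0.le, Finset.sum_const, nsmul_eq_mul, ← mul_assoc, ← add_mul,
      ← ENNReal.ofReal_natCast, ← ENNReal.ofReal_mul (Nat.cast_nonneg _),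
      ← ENNReal.ofReal_add (by positivity) (by positivity)]
    refine mul_le_mul_left (ENNReal.ofReal_le_ofReal ?_) _
    have hQ5 : (1 : ℝ) ≤ Q := by exact_mod_cast hQ0
    have h4 : (Q : ℝ) ^ θ ≤ 2 ^ θ * δ ^ (-θ) := by
      rw [Real.rpow_neg hδ0.le, ← div_eq_mul_inv, ← Real.div_rpow (by norm_num) hδ0.le]
      exact Real.rpow_le_rpow hQp.le (by rw [le_div_iff₀ hδ0]; exact hQ3) hθ0
    have h5 : (1 : ℝ) ≤ (Q : ℝ) ^ θ := Real.one_le_rpow hQ5 hθ0
    have h6 : (Q : ℝ) ^ (ε / 2) * (Q : ℝ) ^ ((τ + (m + 1) * b) / (p * b)) / Q ≤ (Q : ℝ) ^ θ := by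
      rw [← Real.rpow_add hQp, ← Real.rpow_sub_one hQp.ne']
      refine Real.rpow_le_rpow_of_exponent_le hQ5 ?_
      exact hθ
    calc c * σ ^ (1 / (p * b)) +
          S.card * (c / Q * 4 * (A * (Q : ℝ) ^ ((τ + (m + 1) * b) / (p * b))))
        ≤ c * σ ^ (1 / (p * b)) * (Q : ℝ) ^ θ + (m + 1) ^ 3 * (C₂ * (Q : ℝ) ^ (ε / 2)) *
          (c / Q * 4 * (A * (Q : ℝ) ^ ((τ + (m + 1) * b) / (p * b)))) :=
          add_le_add (le_mul_of_one_le_right (by positivity) h5)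
            (mul_le_mul_of_nonneg_right h2 (by positivity))
      _ = c * σ ^ (1 / (p * b)) * (Q : ℝ) ^ θ + c * ((m + 1) ^ 3 * C₂ * 4 * A) *
          ((Q : ℝ) ^ (ε / 2) * (Q : ℝ) ^ ((τ + (m + 1) * b) / (p * b)) / Q) := by ring
      _ ≤ c * σ ^ (1 / (p * b)) * (Q : ℝ) ^ θ + c * ((m + 1) ^ 3 * C₂ * 4 * A) * (Q : ℝ) ^ θ := by
          gcongr
      _ = c * (σ ^ (1 / (p * b)) + (m + 1) ^ 3 * C₂ * 4 * A) * (Q : ℝ) ^ θ := by ring
      _ ≤ _ := by
          rw [mul_assoc _ ((2 : ℝ) ^ θ)]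
          gcongr

end Pool.Agent.MP_5168f5_an.R4
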