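import Pool.Agent.MP_5168f5_an.R4.RedDisc
import Pool.Agent.MP_5168f5_an.R4.RedMax

/-! From the discretised theorem to the maximal estimate with large exponent. -/

namespace Pool.Agent.MP_5168f5_an.R4

open H19 H17S MeasureTheory Metric Pool.Agent.MP_5168f5_an.H20
open scoped ENNReal

namespace RedGK

variable {m : ℕ}

/-- The line moved into the unit box. -/
noncomputable def φ (M : ℕ) (g : Line m) : V m × V m :=
  (fun j => Int.fract (g.1 j / (3 * 2 ^ M)), fun j => (g.2 j + 1) / 3)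

/-- The cell moved into the box. -/
def ψ (M : ℕ) (v : Pt m × (Fin m → Bool)) : Z m × ℕ :=
  (fun j => ((v.1.1 j + v.1.2) / 3) % 2 ^ M + if v.2 j then 2 ^ M else 0, v.1.2)

theorem two {P C k : ℤ} (h0 : 0 ≤ C - P * k) (h1 : C - P * k < 2 * P) :
    C - P * k = C % P + if P ≤ C - P * k then P else 0 := by
  have e : C % P = (C - P * k) % P := by simp
  rw [e]
  split_ifs with h
  · rw [← Int.sub_emod_right (C - P * k) P, Int.emod_eq_of_lt (by omega) (by omega)]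
    ring
  · rw [Int.emod_eq_of_lt h0 (by omega), add_zero]

theorem cell_eq (M : ℕ) (g : Line m) (hg : ∀ j, |g.2 j| ≤ 1) {t : ℕ} (ht : t < 2 ^ M) :
    ∃ s, (fl M ((φ M g).1 + (((2 : ℝ) ^ M)⁻¹ * t) • (φ M g).2), t) = ψ M ((cell g t, t), s) := by
  have p2 : (0 : ℝ) < 2 ^ M := by positivity
  have ht' : (t : ℝ) < 2 ^ M := by exact_mod_cast ht
  have t0 : (0 : ℝ) ≤ t := Nat.cast_nonneg t
  have key : ∀ j, fl M ((φ M g).1 + (((2 : ℝ) ^ M)⁻¹ * t) • (φ M g).2) j =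
      (cell g t j + t) / 3 - 2 ^ M * ⌊g.1 j / (3 * 2 ^ M)⌋ := by
    intro j
    have e : (2 : ℝ) ^ M * (Int.fract (g.1 j / (3 * 2 ^ M)) +
        ((2 : ℝ) ^ M)⁻¹ * t * ((g.2 j + 1) / 3)) = (g.1 j + t * g.2 j + t) / (3 : ℕ) -
          ((2 ^ M * ⌊g.1 j / (3 * 2 ^ M)⌋ : ℤ) : ℝ) := by
      rw [Int.fract]
      push_cast
      field_simp
      ring
    show ⌊(2 : ℝ) ^ M * (Int.fract (g.1 j / (3 * 2 ^ M)) +
      ((2 : ℝ) ^ M)⁻¹ * t * ((g.2 j + 1) / 3))⌋ = _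
    rw [e, Int.floor_sub_intCast, Int.floor_div_natCast, Int.floor_add_natCast]
    rfl
  have rng : ∀ j, 0 ≤ fl M ((φ M g).1 + (((2 : ℝ) ^ M)⁻¹ * t) • (φ M g).2) j ∧
      fl M ((φ M g).1 + (((2 : ℝ) ^ M)⁻¹ * t) • (φ M g).2) j < 2 * 2 ^ M := by
    intro j
    have a0 := Int.fract_nonneg (g.1 j / (3 * 2 ^ M))
    have a1 := Int.fract_lt_one (g.1 j / (3 * 2 ^ M))
    have b := abs_le.1 (hg j)
    have e : (2 : ℝ) ^ M * (Int.fract (g.1 j / (3 * 2 ^ M)) +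
        ((2 : ℝ) ^ M)⁻¹ * t * ((g.2 j + 1) / 3)) =
        2 ^ M * Int.fract (g.1 j / (3 * 2 ^ M)) + t * ((g.2 j + 1) / 3) := by field_simp
    show 0 ≤ ⌊(2 : ℝ) ^ M * (Int.fract (g.1 j / (3 * 2 ^ M)) +
      ((2 : ℝ) ^ M)⁻¹ * t * ((g.2 j + 1) / 3))⌋ ∧ ⌊(2 : ℝ) ^ M * (Int.fract (g.1 j / (3 * 2 ^ M)) +
      ((2 : ℝ) ^ M)⁻¹ * t * ((g.2 j + 1) / 3))⌋ < _
    rw [e, Int.floor_nonneg, Int.floor_lt]
    push_cast
    constructor
    · have : 0 ≤ (g.2 j + 1) / 3 := by linarith [b.1]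
      positivity
    · nlinarith [b.1, b.2]
  refine ⟨fun j => decide ((2 : ℤ) ^ M ≤
    fl M ((φ M g).1 + (((2 : ℝ) ^ M)⁻¹ * t) • (φ M g).2) j), Prod.ext (funext fun j => ?_) rfl⟩
  have h := rng j
  simp only [ψ, decide_eq_true_eq]
  rw [key j] at h ⊢
  exact two h.1 h.2

theorem inj {Q M : ℕ} {G : Finset (Line m)} (hG : Sep Q G) (hM : 3 * Q ≤ 2 ^ M) :
    Set.InjOn (fun g : Line m => fl M (φ M g).2) G := by
  intro g hg g' hg' e
  by_contra ne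
  obtain ⟨j, hj⟩ := hG.2 g hg g' hg' ne
  have a := abs_sub_lt_of_fl1_eq (j := M) (x := (g.2 j + 1) / 3) (y := (g'.2 j + 1) / 3)
    (congrFun e j)
  have p2 : (0 : ℝ) < 2 ^ M := by positivity
  have hM' : 3 * (Q : ℝ) ≤ 2 ^ M := by exact_mod_cast hM
  rw [show (g.2 j + 1) / 3 - (g'.2 j + 1) / 3 = (g.2 j - g'.2 j) / 3 by ring, abs_div,
    abs_of_pos (by norm_num : (0 : ℝ) < 3), ← one_div, div_lt_div_iff₀ (by norm_num) p2] at a
  nlinarith [abs_nonneg (g.2 j - g'.2 j)]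

theorem box (M : ℕ) {g : Line m} (hg : ∀ j, |g.2 j| ≤ 1) :
    (∀ i, 0 ≤ (φ M g).1 i ∧ (φ M g).1 i < 1) ∧ ∀ i, 0 ≤ (φ M g).2 i ∧ (φ M g).2 i < 1 :=
  ⟨fun _ => ⟨Int.fract_nonneg _, Int.fract_lt_one _⟩, fun i => by
    have b := abs_le.1 (hg i)
    show 0 ≤ (g.2 i + 1) / 3 ∧ (g.2 i + 1) / 3 < 1
    constructor <;> linarith [b.1, b.2]⟩

theorem triv {Q M : ℕ} {G : Finset (Line m)} (hG : Sep Q G) (hM : 3 * Q ≤ 2 ^ M) :
    (G.card : ℝ) ≤ (2 ^ M) ^ m := by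
  have h := Finset.card_le_card_of_injOn (t := Fintype.piFinset fun _ : Fin m =>
    Finset.Ico (0 : ℤ) (2 ^ M)) _ (fun g hg => ?_) (inj hG hM)
  · rw [Fintype.card_piFinset] at h
    simp only [Int.card_Ico, sub_zero, Finset.prod_const, Finset.card_univ, Fintype.card_fin] at h
    have e : ((2 : ℤ) ^ M).toNat = 2 ^ M := by
      rw [show (2 : ℤ) ^ M = ((2 ^ M : ℕ) : ℤ) by push_cast; rfl, Int.toNat_natCast]
    rw [e] at h
    exact_mod_cast h
  · refine Finset.mem_coe.2 (Fintype.mem_piFinset.2 fun j => Finset.mem_Ico.2 ?_)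
    have b := (box M (hG.1 g hg)).2 j
    have p2 : (0 : ℝ) < 2 ^ M := by positivity
    show 0 ≤ ⌊(2 : ℝ) ^ M * (φ M g).2 j⌋ ∧ ⌊(2 : ℝ) ^ M * (φ M g).2 j⌋ < _
    rw [Int.floor_nonneg, Int.floor_lt]
    push_cast
    exact ⟨mul_nonneg p2.le b.1, by nlinarith [b.2]⟩

end RedGK

open RedGK in
theorem gk1_of_disc {m : ℕ} (hD : Disc0 m) {ε : ℝ} (hε : 0 < ε) :
    ∃ q₀ : ℝ, 1 ≤ q₀ ∧ ∀ q, q₀ ≤ q → GK1 m (ε + q - m - 1) 1 q := by
  classical
  obtain ⟨η, hη, M₀, hD⟩ := hD ε hε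
  have m0 : (0 : ℝ) ≤ m / η := by positivity
  refine ⟨1 + m / η, by linarith, fun q hq => ⟨2 ^ m * 6 ^ ε + 6 ^ q + (2 ^ M₀) ^ m,
    by positivity, fun Q l G E hl hG hs => ?_⟩⟩
  rcases G.eq_empty_or_nonempty with rfl | ⟨g₀, hg₀⟩
  · simp only [Finset.card_empty, Nat.cast_zero]
    positivity
  have lQ : l ≤ Q := (hs g₀ hg₀).trans ((Finset.card_filter_le _ _).trans (Finset.card_range Q).le)
  have lE : l ≤ E.card := (hs g₀ hg₀).trans (Finset.card_le_card_of_injOn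
    (fun r => (cell g₀ r, r)) (fun r hr => (Finset.mem_filter.1 hr).2)
    fun r _ r' _ e => congrArg Prod.snd e)
  obtain ⟨M, M1, M2⟩ : ∃ M, 3 * Q ≤ 2 ^ M ∧ 2 ^ M ≤ 6 * Q := by
    refine ⟨Nat.log 2 (3 * Q) + 1, (Nat.lt_pow_succ_log_self one_lt_two _).le, ?_⟩
    have := Nat.pow_log_le_self 2 (show 3 * Q ≠ 0 by omega)
    rw [pow_succ]
    omega
  have l0 : (0 : ℝ) < l := by exact_mod_cast hl
  have lQ' : (l : ℝ) ≤ Q := by exact_mod_cast lQ
  have lE' : (l : ℝ) ≤ E.card := by exact_mod_cast lE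
  have Q0 : (0 : ℝ) < Q := l0.trans_le lQ'
  have Q1 : (1 : ℝ) ≤ Q := by exact_mod_cast hl.trans_le lQ
  have M1' : 3 * (Q : ℝ) ≤ 2 ^ M := by exact_mod_cast M1
  have M2' : (2 : ℝ) ^ M ≤ 6 * Q := by exact_mod_cast M2
  have p2 : (0 : ℝ) < 2 ^ M := by positivity
  have r1 : 1 ≤ (Q : ℝ) / l := (one_le_div l0).2 lQ'
  have e : ∀ C : ℝ, C * (Q : ℝ) ^ (ε + q - m - 1) * (Q : ℝ) ^ m * (E.card : ℝ) ^ (1 : ℝ) /
      (l : ℝ) ^ q = C * ((Q : ℝ) ^ ε * ((Q : ℝ) / l) ^ (q - 1) * (E.card / l)) := fun C => by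
    rw [Real.rpow_one, Real.div_rpow Q0.le l0.le, Real.rpow_sub_one l0.ne',
      show ε + q - m - 1 = ε + (q - 1) - m by ring, Real.rpow_sub Q0, Real.rpow_add Q0,
      Real.rpow_natCast]
    field_simp
  rw [e]
  have a1 : 1 ≤ (Q : ℝ) ^ ε := Real.one_le_rpow Q1 hε.le
  have a2 : 1 ≤ ((Q : ℝ) / l) ^ (q - 1) := Real.one_le_rpow r1 (by linarith)
  have a3 : 1 ≤ (E.card : ℝ) / l := (one_le_div l0).2 lE'
  have tr := triv hG M1
  have c1 : (0 : ℝ) ≤ 2 ^ m * 6 ^ ε := by positivity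
  have c2 : (0 : ℝ) ≤ 6 ^ q := by positivity
  have c3 : (0 : ℝ) ≤ (2 ^ M₀) ^ m := by positivity
  by_cases hM : M₀ ≤ M
  swap
  · have b1 : ((2 : ℝ) ^ M) ^ m ≤ (2 ^ M₀) ^ m :=
      pow_le_pow_left₀ p2.le (pow_le_pow_right₀ one_le_two (by omega)) m
    have b2 : 1 ≤ (Q : ℝ) ^ ε * ((Q : ℝ) / l) ^ (q - 1) * (E.card / l) :=
      one_le_mul_of_one_le_of_one_le (one_le_mul_of_one_le_of_one_le a1 a2) a3
    nlinarith
  by_cases hl' : (2 : ℝ) ^ ((1 - η) * M) ≤ l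
  · have h := hD M hM (G.image (φ M)) (fun g => (Finset.range Q).filter fun t : ℕ =>
      (fl M (g.1 + (((2 : ℝ) ^ M)⁻¹ * t) • g.2), t) ∈ (E ×ˢ Finset.univ).image (ψ M))
      ((E ×ˢ Finset.univ).image (ψ M)) (fun g hg => by
        obtain ⟨k, hk, rfl⟩ := Finset.mem_image.1 hg
        exact box M (hG.1 k hk)) (fun g hg g' hg' e => by
        obtain ⟨k, hk, rfl⟩ := Finset.mem_image.1 hg
        obtain ⟨k', hk', rfl⟩ := Finset.mem_image.1 hg'
        rw [inj hG M1 hk hk' e]) (fun g hg => by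
        obtain ⟨k, hk, rfl⟩ := Finset.mem_image.1 hg
        refine ⟨(Finset.filter_subset _ _).trans (Finset.range_subset_range.2 (by omega)),
          hl'.trans (Nat.cast_le.2 ((hs k hk).trans (Finset.card_le_card fun t ht => ?_)))⟩
        obtain ⟨t1, t2⟩ := Finset.mem_filter.1 ht
        obtain ⟨s, hs⟩ := cell_eq M k (hG.1 k hk)
          (show t < 2 ^ M by have := Finset.mem_range.1 t1; omega)
        exact Finset.mem_filter.2 ⟨t1, Finset.mem_image.2 ⟨_, Finset.mem_product.2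
          ⟨t2, Finset.mem_univ s⟩, hs.symm⟩⟩) fun g _ t ht => (Finset.mem_filter.1 ht).2
    rw [Finset.card_image_of_injOn fun g hg g' hg' e =>
      inj hG M1 hg hg' (congrArg (fun v : V m × V m => fl M v.2) e)] at h
    have b1 : (((E ×ˢ (Finset.univ : Finset (Fin m → Bool))).image (ψ M)).card : ℝ) ≤
        E.card * 2 ^ m := by
      have := Finset.card_image_le (s := E ×ˢ (Finset.univ : Finset (Fin m → Bool))) (f := ψ M)
      rw [Finset.card_product, Finset.card_univ, Fintype.card_fun, Fintype.card_bool,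
        Fintype.card_fin] at this
      exact_mod_cast this
    have b2 : (2 : ℝ) ^ ((1 - ε) * M) = 2 ^ M / (2 ^ M) ^ ε := by
      rw [sub_mul, one_mul, Real.rpow_sub two_pos, Real.rpow_natCast, mul_comm,
        Real.rpow_mul two_pos.le, Real.rpow_natCast]
    have b3 : ((2 : ℝ) ^ M) ^ ε ≤ 6 ^ ε * (Q : ℝ) ^ ε := by
      rw [← Real.mul_rpow (by norm_num) Q0.le]
      exact Real.rpow_le_rpow p2.le M2' hε.le
    have b4 := h.trans b1
    rw [b2, ← mul_div_assoc, div_le_iff₀ (by positivity), ← le_div_iff₀ p2] at b4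
    have b5 : (E.card : ℝ) * 2 ^ m * (2 ^ M) ^ ε / 2 ^ M ≤
        2 ^ m * 6 ^ ε * ((Q : ℝ) ^ ε * 1 * (E.card / l)) := by
      calc (E.card : ℝ) * 2 ^ m * (2 ^ M) ^ ε / 2 ^ M
          ≤ (E.card : ℝ) * 2 ^ m * (6 ^ ε * (Q : ℝ) ^ ε) / l := by
            gcongr
            linarith
        _ = _ := by ring
    calc (G.card : ℝ) ≤ _ := b4.trans b5
      _ ≤ _ := by gcongr; linarith
  · rw [not_le] at hl'
    have b1 : (2 : ℝ) ^ (η * M) ≤ 6 * ((Q : ℝ) / l) := by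
      rw [← mul_div_assoc, le_div_iff₀ l0]
      refine le_trans (mul_le_mul_of_nonneg_left hl'.le (by positivity)) (le_trans (le_of_eq ?_) M2')
      rw [← Real.rpow_add two_pos, ← Real.rpow_natCast]
      congr 1
      ring
    have b2 : ((2 : ℝ) ^ M) ^ m ≤ 6 ^ q * ((Q : ℝ) / l) ^ (q - 1) := by
      have b3 : (m : ℝ) ≤ η * (q - 1) := by
        rw [mul_comm, ← div_le_iff₀ hη]
        linarith
      calc ((2 : ℝ) ^ M) ^ m = 2 ^ ((M : ℝ) * m) := by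
            rw [Real.rpow_mul two_pos.le, Real.rpow_natCast, Real.rpow_natCast]
        _ ≤ (2 ^ (η * M)) ^ (q - 1) := by
            rw [← Real.rpow_mul two_pos.le]
            refine Real.rpow_le_rpow_of_exponent_le one_le_two ?_
            nlinarith [Nat.cast_nonneg (α := ℝ) M]
        _ ≤ (6 * ((Q : ℝ) / l)) ^ (q - 1) := Real.rpow_le_rpow (by positivity) b1 (by linarith)
        _ ≤ _ := by
            rw [Real.mul_rpow (by norm_num) (by positivity)]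
            exact mul_le_mul_of_nonneg_right
              (Real.rpow_le_rpow_of_exponent_le (by norm_num) (by linarith)) (by positivity)
    calc (G.card : ℝ) ≤ 6 ^ q * (1 * ((Q : ℝ) / l) ^ (q - 1) * 1) := by
          rw [one_mul, mul_one]
          exact tr.trans b2
      _ ≤ _ := by gcongr; linarith

/-- The maximal estimate on `L ^ p` with loss `δ ^ (-ε / p)` for all large `p`. -/
theorem max_of_disc {m : ℕ} (hD : Disc0 m) {ε : ℝ} (hε : 0 < ε) :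
    ∃ p₀ : ℝ, ∀ p, p₀ ≤ p → ∃ C : ℝ, ∀ f : EuclideanSpace ℝ (Fin (m + 1)) → ℝ,
      AEMeasurable f volume → ∀ δ : ℝ, 0 < δ → δ < 1 →
      ∃ G : sphere (0 : EuclideanSpace ℝ (Fin (m + 1))) 1 → ℝ≥0∞, Measurable G ∧
        (∀ e, kakeyaMax δ f e ≤ G e) ∧
        eLpNorm G (ENNReal.ofReal p) volume.toSphere ≤
          ENNReal.ofReal (C * δ ^ (-(ε / p))) * eLpNorm f (ENNReal.ofReal p) volume := by
  obtain ⟨q₀, h1, h⟩ := gk1_of_disc hD (half_pos hε)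
  refine ⟨q₀, fun p hp => ?_⟩
  have p1 : 1 ≤ p := h1.trans hp
  have p0 : 0 < p := by linarith
  have := max_of_gk1 (m := m) (b := 1) (p := p) (τ := ε / 2 + p - m - 1) (θ := ε / p)
    (ε := ε / p) le_rfl p1 (by rw [mul_one]; exact h p hp) (by positivity) (by positivity)
    (le_of_eq (by field_simp; ring))
  rwa [mul_one] at this

end Pool.Agent.MP_5168f5_an.R4
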