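import Pool.Agent.MP_5168f5_an.R4.RedDim
import Pool.Agent.MP_5168f5_an.R4.RedGK

/-! The two statements about `ℝ ^ (N + 1)` that follow from the entropy theorem. -/

namespace Pool.Agent.MP_5168f5_an.R4

open MeasureTheory Pool.Agent.MP_5168f5_an.H20
open scoped ENNReal

theorem red {N : ℕ} (h : Mu0 N) :
    (∀ K : Set (EuclideanSpace ℝ (Fin (N + 1))), IsCompact K →
      (∀ v : EuclideanSpace ℝ (Fin (N + 1)), ‖v‖ = 1 →
        ∃ a, ∀ t ∈ Set.Icc (0 : ℝ) 1, a + t • v ∈ K) → dimH K = (N + 1 : ℕ)) ∧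
    ∀ ε : ℝ, 0 < ε → ∃ p₀ : ℝ, ∀ p, p₀ ≤ p → ∃ C : ℝ,
      ∀ f : EuclideanSpace ℝ (Fin (N + 1)) → ℝ, AEMeasurable f volume →
      ∀ δ : ℝ, 0 < δ → δ < 1 →
      ∃ G : Metric.sphere (0 : EuclideanSpace ℝ (Fin (N + 1))) 1 → ℝ≥0∞, Measurable G ∧
        (∀ e, kakeyaMax δ f e ≤ G e) ∧
        eLpNorm G (ENNReal.ofReal p) volume.toSphere ≤
          ENNReal.ofReal (C * δ ^ (-(ε / p))) * eLpNorm f (ENNReal.ofReal p) volume :=
  ⟨dim_of_disc (disc0 h), fun _ hε => max_of_disc (disc0 h) hε⟩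

end Pool.Agent.MP_5168f5_an.R4
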