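import Pool.Agent.MP_5168f5_an.R4.RedDefs
import Pool.Agent.MP_5168f5_an.H17F.Ex0
import Pool.Agent.MP_5168f5_an.H17S.DISC

/-! From the entropy theorem to the discretised theorem. -/

namespace Pool.Agent.MP_5168f5_an.R4

open H19 H17S H17F Filter

/-- Direction separated lines with dense shadings are essentially disjoint. -/
def Disc0 (N : ℕ) : Prop := ∀ ε : ℝ, 0 < ε → ∃ η : ℝ, 0 < η ∧ ∃ M₀ : ℕ, ∀ M, M₀ ≤ M →
  ∀ (G : Finset (V N × V N)) (Y : V N × V N → Finset ℕ) (E : Finset (Z N × ℕ)),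
    (∀ g ∈ G, (∀ i, 0 ≤ g.1 i ∧ g.1 i < 1) ∧ ∀ i, 0 ≤ g.2 i ∧ g.2 i < 1) →
    Set.InjOn (fun g : V N × V N => fl M g.2) G →
    (∀ g ∈ G, Y g ⊆ Finset.range (2 ^ M) ∧ (2 : ℝ) ^ ((1 - η) * M) ≤ (Y g).card) →
    (∀ g ∈ G, ∀ t ∈ Y g, (fl M (g.1 + (((2 : ℝ) ^ M)⁻¹ * t) • g.2), t) ∈ E) →
    G.card * (2 : ℝ) ^ ((1 - ε) * M) ≤ E.card

open DISC in
theorem one {N M : ℕ} {ε η : ℝ} {G : Finset (V N × V N)} {Y : V N × V N → Finset ℕ}
    {E : Finset (Z N × ℕ)}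
    (hbox : ∀ g ∈ G, (∀ i, 0 ≤ g.1 i ∧ g.1 i < 1) ∧ ∀ i, 0 ≤ g.2 i ∧ g.2 i < 1)
    (hinj : Set.InjOn (fun g : V N × V N => fl M g.2) G)
    (hY : ∀ g ∈ G, Y g ⊆ Finset.range (2 ^ M) ∧ (2 : ℝ) ^ ((1 - η) * M) ≤ (Y g).card)
    (hE : ∀ g ∈ G, ∀ t ∈ Y g, (fl M (g.1 + (((2 : ℝ) ^ M)⁻¹ * t) • g.2), t) ∈ E)
    (hlt : (E.card : ℝ) < G.card * (2 : ℝ) ^ ((1 - ε) * M)) :
    ∃ c : Cfg N, c.Box ∧ Fn c.P c.θ (fun _ => ()) ∧ Fn c.P c.ln (fun ω => fl M (c.e ω)) ∧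
      Fn c.P c.z (fun ω => fl1 M (c.z ω)) ∧
      (1 - η) * M * lg ≤ ch c.P (fun ω => fl1 M (c.z ω)) c.ln ∧
      (ε - η) * M * lg ≤ ch c.P (fun ω => fl M (c.e ω)) fun ω =>
        (fl M (c.pt ω), fl1 M (c.z ω), c.θ ω) := by
  have pos : ∀ {x : ℝ} {n : ℕ}, (2 : ℝ) ^ x ≤ n → 0 < n := fun {x n} a => by
    exact_mod_cast (Real.rpow_pos_of_pos two_pos x).trans_le a
  have G0 : G.Nonempty := by
    rw [Finset.nonempty_iff_ne_empty]
    rintro rfl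
    simp only [Finset.card_empty, Nat.cast_zero, zero_mul] at hlt
    exact absurd hlt (not_lt.2 (Nat.cast_nonneg _))
  have Y0 : ∀ g ∈ (FP.unif G G0).S, (Y g).Nonempty := fun g hg => Finset.card_pos.1 (pos (hY g hg).2)
  have E0 : 0 < E.card := by
    obtain ⟨g, hg⟩ := G0
    obtain ⟨t, ht⟩ := Finset.card_pos.1 (pos (hY g hg).2)
    exact Finset.card_pos.2 ⟨_, hE g hg t ht⟩
  have mem : ∀ x ∈ ((FP.unif G G0).ext Y Y0).S, x.1 ∈ G ∧ x.2 ∈ Y x.1 := fun x hx =>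
    (FP.mem_ext _ Y Y0 x).1 hx
  have hA : (1 - η) * M * lg ≤ ch ((FP.unif G G0).ext Y Y0) Prod.snd Prod.fst := by
    rw [DISC.ch_ext, ← (FP.unif G G0).E_const ((1 - η) * M * lg)]
    exact FP.E_mono _ fun g hg => le_log (hY g hg).2
  have hB : Real.log G.card = hh ((FP.unif G G0).ext Y Y0) Prod.fst := by
    unfold hh
    rw [FP.H_ext_old _ Y Y0 ⊥ _ fun x y => by simp [Setoid.ker_def], FP.H_unif]
  generalize (FP.unif G G0).ext Y Y0 = P at mem hA hB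
  have p2 : (0 : ℝ) < 2 ^ M := by positivity
  have zi : ∀ {a b : ℕ}, fl1 M (((2 : ℝ) ^ M)⁻¹ * a) = fl1 M (((2 : ℝ) ^ M)⁻¹ * b) → a = b :=
    fun e => by
      simp only [fl1_nat] at e
      exact_mod_cast e
  refine ⟨cfg M P, fun x hx => ⟨(hbox _ (mem x hx).1).1, (hbox _ (mem x hx).1).2, ?_, ?_⟩,
    fun _ _ _ _ _ => rfl, fun x hx y hy e => ?_, fun x _ y _ e => ?_, ?_, ?_⟩
  · exact mul_nonneg (inv_pos.2 p2).le (Nat.cast_nonneg _)
  · refine (inv_mul_lt_iff₀ p2).2 ?_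
    rw [mul_one]
    exact_mod_cast Finset.mem_range.1 ((hY _ (mem x hx).1).1 (mem x hx).2)
  · exact congrArg (fun g : V N × V N => (g.1, g.2, ())) (hinj (mem x hx).1 (mem y hy).1 e)
  · exact congrArg (fun t : ℕ => ((2 : ℝ) ^ M)⁻¹ * t) (zi e)
  · refine hA.trans (ch_le (fun x _ y _ e => zi (congrArg Prod.fst e)) fun x _ y _ e => ?_)
    exact congrArg (fun g : V N × V N => (g.1, g.2, ())) e
  · have b : ch P (fun x => (fl M ((cfg M P).pt x), fl1 M ((cfg M P).z x), (cfg M P).θ x))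
        (fun _ => ()) ≤ Real.log E.card := by
      refine le_trans (ch_mono (F' := fun x => (fl M ((cfg M P).pt x), x.2)) fun x _ y _ e => ?_)
        (ch_det fun _ _ => ⟨E, le_rfl, fun y hy _ => hE _ (mem y hy).1 _ (mem y hy).2⟩)
      exact congrArg (fun v : (Z N × ℕ) × Unit => (v.1.1, fl1 M (((2 : ℝ) ^ M)⁻¹ * (v.1.2 : ℝ)), ())) e
    rw [ch_unit] at b
    have d : hh P (fun x => (x.2, x.1)) ≤ hh P fun x => (fl M ((cfg M P).e x),
        fl M ((cfg M P).pt x), fl1 M ((cfg M P).z x), (cfg M P).θ x) :=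
      hh_mono fun x hx y hy e => Prod.ext (zi (congrArg (·.2.2.1) e))
        (hinj (mem x hx).1 (mem y hy).1 (congrArg Prod.fst e))
    have G1 : (0 : ℝ) < G.card := by exact_mod_cast Finset.card_pos.2 G0
    have l := Real.log_lt_log (by exact_mod_cast E0) hlt
    rw [Real.log_mul G1.ne' (by positivity), log_rpow_two] at l
    unfold ch at hA ⊢
    refine le_trans ?_ (sub_le_sub d b)
    linarith

theorem disc0 {N : ℕ} (h : Mu0 N) : Disc0 N := by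
  intro ε hε
  by_contra k
  push Not at k
  choose M hM G Y E h1 h2 h3 h4 h5 using fun n : ℕ => k (1 / ((n : ℝ) + 1)) (by positivity) n
  choose c c1 c2 c3 c4 c5 c6 using fun n => one (h1 n) (h2 n) (h3 n) (h4 n) (h5 n)
  have big : Big M := tendsto_atTop.2 fun b => (ev_ge b).mono fun n hn => hn.trans (hM n)
  have a := h c M ⟨big, c1, c2, c3, c4, Ex0A.small fun n => by linarith [c5 n]⟩
  have b : Le M (fun n => ε * lg * M n) fun n => 0 * M n :=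
    (Ex0A.small (g := fun n => ch (c n).P (fun ω => fl (M n) ((c n).e ω)) fun ω =>
      (fl (M n) ((c n).pt ω), fl1 (M n) ((c n).z ω), (c n).θ ω))
      fun n => by linarith [c6 n]).trans (a.trans (Le.of_le fun n => by simp))
  exact absurd (b.num big) (not_le.2 (mul_pos hε lg_pos))

end Pool.Agent.MP_5168f5_an.R4
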