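import Pool.Agent.MP_5168f5_an.R4.SpecSV

/-! Two curves through a point, and iteration of a bounded number of steps. -/

namespace Pool.Agent.MP_5168f5_an.R4

open H19 H17S H17F Filter NCx

namespace SVCorA

theorem lst {Ω β : Type} {P : FP Ω} {E : Ω → Prop} {x : Ω → ℝ} {G : Ω → β} {j : ℕ} {L : ℝ}
    (hL : 0 ≤ L) (h : ∀ a ∈ P.S, ∀ b ∈ P.S, E a → E b → G a = G b → |x a - x b| ≤ L / 2 ^ j)
    (a : Ω) : ∃ T : Finset ℤ, (T.card : ℝ) ≤ 2 * L + 3 ∧
      ∀ b ∈ P.S, G b = G a → E b → fl1 j (x b) ∈ T := by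
  by_cases c : ∃ w ∈ P.S, G w = G a ∧ E w
  · obtain ⟨w, h1, h2, h3⟩ := c
    refine ⟨Finset.Icc (fl1 j (x w) - ⌈L⌉₊) (fl1 j (x w) + ⌈L⌉₊), ?_, fun b hb e k =>
      fl1_mem_Icc ((h b hb w h1 k h3 (e.trans h2.symm)).trans ?_)⟩
    · rw [Int.card_Icc, show fl1 j (x w) + ⌈L⌉₊ + 1 - (fl1 j (x w) - ⌈L⌉₊) =
        ((2 * ⌈L⌉₊ + 1 : ℕ) : ℤ) by push_cast; ring, Int.toNat_natCast]
      push_cast
      linarith [Nat.ceil_lt_add_one hL]
    · exact mul_le_mul_of_nonneg_right (Nat.le_ceil L) (by positivity)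
  · exact ⟨∅, by simp; linarith, fun b hb e k => absurd ⟨b, hb, e, k⟩ c⟩

theorem ch_prop {Ω β : Type} (P : FP Ω) (b : Ω → Prop) (G : Ω → β) : ch P b G ≤ lg := by
  classical
  refine ch_det (B := 2) fun _ _ => ⟨{True, False}, ?_, fun v _ _ => ?_⟩
  · exact_mod_cast Finset.card_le_two
  · by_cases c : b v <;> simp [c]

end SVCorA

open SVCorA in
theorem rowCorS : OfCorS := by
  intro hK Ω T A P Θ l z φ M k j L G b hH hL hj hev hW
  set Q := fun n => glue (P n) (P n) (Yc (Θ n) (z n) (φ n) (k n)) (Yc (Θ n) (z n) (φ n) (k n))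
  have hm : ∀ n, ∀ v ∈ (Q n).S, v.1 ∈ (P n).S := fun n v hv =>
    ((kg.mem _ _ _ _ v (Law.rfl _)).1 hv).1
  have h1 : Sm M fun n => ch (Q n) (fun v => fl1 (j n) (z n v.1)) fun v =>
      (b n v, l n v.1, l n v.2) := by
    refine ks.fano Q G _ _ M (fun n => 2 * L n + 3) 1 hH.big
      ((hL.const_mul hH.big one_le_two).add (hH.big.sub (by norm_num)) hH.big) hW ?_
    filter_upwards [hev, hH.box] with n a c
    have e0 : (j n : ℝ) ≤ 1 * M n := by rw [one_mul]; exact_mod_cast hj n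
    refine ⟨fun v hv => (det_box (fun w hw => c _ (hm n w hw)) (j n) _ v hv).imp fun _ hT =>
      ⟨hT.1.trans ((two_pow_le_exp _).trans (Real.exp_le_exp.2 e0)), hT.2⟩, fun v _ =>
      lst (hL.pos n).le (fun v hv w hw g1 g2 e => ?_) v⟩
    simp only [Prod.mk.injEq] at e
    exact a.2.2 v hv w hw g1 g2 e.2.1 e.2.2 e.1
  have h2 := le_fl1 (P := Q) (x := fun n v => z n v.1)
    (G := fun n v => (fl1 (j n) (z n v.1), b n v, l n v.1, l n v.2))
    hH.big (hH.big.sub le_rfl) hj (Eventually.of_forall fun n a _ b _ e => by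
      rw [one_div]; exact (abs_sub_lt_of_fl1_eq (Prod.mk.inj e).1).le)
  refine (hH.full.smul zero_le_two).of4 h1 h2 (hH.big.sm lg) ?_
  filter_upwards [hev, hH.dig, hH.le Θ] with n a d e
  have c1 := hK.cor (P n) (fun ω => (z n ω, fl1 (k n) (φ n ω))) (l n) (Θ n)
  have c2 : ch (P n) (fun ω => fl1 (M n) (z n ω)) (l n) ≤
      ch (P n) (fun ω => (z n ω, fl1 (k n) (φ n ω))) fun ω => (l n ω, Θ n ω) :=
    ch_le (fun u _ w _ q => congrArg (fun y => fl1 (M n) y.1.1) q) ((Fn.rfl _).pair a.1)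
  have c3 := ch_chain (P := P n) (z n) (fun ω => fl1 (k n) (φ n ω)) (Θ n)
  have c4 : ch (Q n) (fun v => (z n v.1, fl1 (k n) (φ n v.1))) (fun v =>
      (l n v.1, l n v.2, Θ n v.1)) ≤
      ch (Q n) (fun v => fl1 (M n) (z n v.1)) fun v => (l n v.1, l n v.2) := by
    refine ch_le (fun u hu w hw q => ?_) fun u _ w _ q => ?_ <;>
      simp only [Prod.mk.injEq] at q ⊢
    · have q1 := d _ (hm n u hu) _ (hm n w hw) q.1
      exact ⟨q1, by rw [a.2.1 _ (hm n u hu) _ (hm n w hw) (Prod.ext q.2.1 q1)]⟩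
    · exact ⟨q.1, q.2.1⟩
  have c5 := ch_tri (P := Q n) (fun v => fl1 (M n) (z n v.1)) (b n) fun v => (l n v.1, l n v.2)
  have c6 := ch_tri (P := Q n) (fun v => fl1 (M n) (z n v.1)) (fun v => fl1 (j n) (z n v.1))
    fun v => (b n v, l n v.1, l n v.2)
  have c7 := ch_prop (Q n) (b n) fun v => (l n v.1, l n v.2)
  have c8 := c1.trans c4
  linarith

theorem rowIter : Iter := by
  intro Ω α β P A B M q r hM ⟨_, c, hc, hcs⟩ hq hA h0 hs
  have key : ∀ k : ℕ, Sm M fun n => ch (P n) (A n (min (q n) (k * r n))) (B n) := by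
    intro k
    induction k with
    | zero => simpa using h0
    | succ k ih =>
      refine (ih.add (hs (fun n => min (q n) (k * r n)) fun n => min_le_left _ _)).mono
        (Eventually.of_forall fun n => (ch_tri _ (A n (min (q n) (k * r n))) _).trans
          (add_le_add le_rfl (ch_mono ((hA n _ _ ?_).left _))))
      rw [Nat.succ_mul]; omega
  obtain ⟨k, hk⟩ := exists_nat_ge (1 / c)
  refine (key k).mono (hcs.mono fun n a => ?_)
  have h1 : (M n : ℝ) ≤ k * r n := by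
    rw [div_le_iff₀ hc] at hk
    nlinarith [mul_le_mul_of_nonneg_left a (Nat.cast_nonneg (α := ℝ) k),
      mul_le_mul_of_nonneg_right hk (Nat.cast_nonneg (α := ℝ) (M n))]
  rw [min_eq_left ((hq n).trans (by exact_mod_cast h1))]

end Pool.Agent.MP_5168f5_an.R4
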