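import Pool.Agent.MP_5168f5_an.R4.SpecSV

/-! Kakeya sets in four dimensions: the point and the slope determine the curvature. -/

namespace Pool.Agent.MP_5168f5_an.R4

open H19 H17S H17F Filter NCx

namespace SVCurvA

theorem lt_div {j k : ℕ} (h : j ≤ k) {x y : ℝ} (e : fl1 k x = fl1 k y) : |x - y| ≤ 1 / 2 ^ j := by
  rw [one_div]; exact (abs_sub_lt_of_fl1_eq (fl1_eq_of_le h e)).le

theorem div_anti {j k : ℕ} (h : j ≤ k) : (1 : ℝ) / 2 ^ k ≤ 1 / 2 ^ j :=
  one_div_le_one_div_of_le (by positivity) (pow_le_pow_right₀ one_le_two h)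

theorem n0 {φ φ' ψ sg u u' δ : ℝ} (hs : |sg| = 1) (h1 : |sg * (φ - ψ) - u ^ 2| ≤ 2 * δ)
    (h2 : |sg * (φ' - ψ) - u' ^ 2| ≤ 2 * δ) :
    |φ - φ'| ≤ 4 * δ + |u - u'| * |u + u'| ∧ |u - u'| * |u + u'| ≤ 4 * δ + |φ - φ'| := by
  have e : |φ - φ'| = |sg * (φ - φ')| := by rw [abs_mul, hs, one_mul]
  have k : |sg * (φ - φ') - (u - u') * (u + u')| ≤ 4 * δ := by
    have := abs_sub (sg * (φ - ψ) - u ^ 2) (sg * (φ' - ψ) - u' ^ 2)
    rw [show sg * (φ - ψ) - u ^ 2 - (sg * (φ' - ψ) - u' ^ 2) =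
      sg * (φ - φ') - (u - u') * (u + u') by ring] at this
    linarith
  have := abs_le.1 ((abs_abs_sub_abs_le_abs_sub _ _).trans k)
  rw [e, ← abs_mul]
  constructor <;> linarith [this.1, this.2]

/-- The sign given by a Boolean. -/
def sgn (b : Bool) : ℝ := if b then 1 else -1

theorem abs_sgn (b : Bool) : |sgn b| = 1 := by cases b <;> simp [sgn]

theorem sgn_mul {x : ℝ} {b : Bool} (h : decide (0 < x) = b) : sgn b * x = |x| := by
  subst h
  by_cases k : 0 < x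
  · simp [sgn, k, abs_of_pos k]
  · simp [sgn, k, abs_of_nonpos (not_lt.1 k)]

theorem abs_box {x y : ℝ} (hx : 0 ≤ x ∧ x < 1) (hy : 0 ≤ y ∧ y < 1) : |x - y| ≤ 1 :=
  abs_le.2 ⟨by linarith [hx.1, hy.2], by linarith [hx.2, hy.1]⟩

variable {Ω T A B : ℕ → Type} {Q : ∀ n, FP (Ω n)} {Θ : ∀ n, Ω n → T n}
  {t z al φ ψ : ∀ n, Ω n → ℝ} {M k s r ρ : ℕ → ℕ} {L : ℕ → ℝ} {ε₀ sg σ c : ℝ}

/-- A height that is full given everything else gives no information. -/
theorem swap {l : ∀ n, Ω n → A n} {l' : ∀ n, Ω n → B n} (h : Fu Q l z M) (h' : Ht Q l' t M)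
    (e : ∀ n, Fn (Q n) (fun ω => (z n ω, l n ω)) (l' n)) :
    Fu Q (fun n ω => (t n ω, l n ω)) z M := by
  refine ⟨h.big, h.box, h.full.of2 h'.full ((h'.le l).mono fun n a => ?_)⟩
  have h1 := ch_symm (P := Q n) (fun ω => fl1 (M n) (z n ω)) (t n) (l n)
  have h2 : ch (Q n) (fun ω => fl1 (M n) (t n ω)) (l' n) ≤
      ch (Q n) (t n) fun ω => (fl1 (M n) (z n ω), l n ω) :=
    ch_le ((Fn.comp (fl1 (M n)) (t n)).left _) fun x hx y hy u => by
      have := Prod.mk.inj (e n x hx y hy u)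
      simp only [this.1, this.2]
  linarith

theorem core (pw : PLw) (h1 : Ht Q (fun n ω => (-(al n ω * z n ω), al n ω, Θ n ω)) t M)
    (h2 : Fu Q (fun n ω => (t n ω, Θ n ω)) z M) (hL : Sub M L) (e0 : 0 < ε₀) (e1 : ε₀ ≤ 1)
    (hs : Frac s M)
    (hρ : ∀ n, ρ n = k n + r n + s n + r n ∧ ρ n ≤ M n ∧ (r n : ℝ) ≤ ε₀ / 2 * s n) (hc : 0 < c)
    (hk : ∀ᶠ n in UF, (1 - ε₀) * ρ n + c * M n ≤ k n)
    (hN : NG1 Q (fun n ω => (t n ω, Θ n ω)) φ ρ ε₀) (hsg : |sg| = 1) (hσ : |σ| = 1)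
    (hb : ∀ᶠ n in UF, Fn (Q n) (ψ n) (fun ω => (t n ω, Θ n ω)) ∧ ∀ ω ∈ (Q n).S,
      1 / 2 ^ r n ≤ al n ω ∧ al n ω ≤ L n ∧ |φ n ω| ≤ L n ∧ 1 ≤ L n * (σ * (t n ω - z n ω)) ∧
      |sg * (φ n ω - ψ n ω) - (al n ω * (t n ω - z n ω)) ^ 2| ≤ 2 * (1 / 2 ^ ρ n)) : False := by
  have hM := h1.big
  obtain ⟨u, hu⟩ : ∃ u : ∀ n, Ω n → ℝ, u = fun n ω => -(al n ω * z n ω) + al n ω * t n ω :=
    ⟨_, rfl⟩
  have eu : ∀ n ω, al n ω * (t n ω - z n ω) = u n ω := fun n ω => by rw [hu]; ring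
  have b1 : ∀ᶠ n in UF, ∀ ω ∈ (Q n).S, 0 < al n ω ∧ |u n ω| ≤ L n ∧
      1 / 2 ^ r n ≤ L n * (σ * u n ω) := by
    filter_upwards [hb, h1.box, h2.box] with n a b d ω hω
    obtain ⟨a1, a2, -, a4, -⟩ := a.2 ω hω
    have p : 0 < al n ω := lt_of_lt_of_le (by positivity) a1
    rw [← eu]
    refine ⟨p, ?_, a1.trans ((le_mul_of_one_le_right p.le a4).trans_eq (by ring))⟩
    rw [abs_mul, abs_of_pos p]
    exact (mul_le_of_le_one_right p.le (abs_box (b ω hω) (d ω hω))).trans a2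
  have b2 : ∀ᶠ n in UF, ∀ a ∈ (Q n).S, ∀ b ∈ (Q n).S, (t n a, Θ n a) = (t n b, Θ n b) →
      |φ n a - φ n b| ≤ 4 * (1 / 2 ^ ρ n) + |u n a - u n b| * |u n a + u n b| ∧
      |u n a - u n b| * |u n a + u n b| ≤ 4 * (1 / 2 ^ ρ n) + |φ n a - φ n b| :=
    hb.mono fun n h a ha b hb e => by
      have k1 := (h.2 a ha).2.2.2.2
      have k2 := (h.2 b hb).2.2.2.2
      rw [eu] at k1 k2
      rw [← h.1 a ha b hb e] at k2
      exact n0 hsg k1 k2
  have ka : ∀ (E : ∀ n, Ω n → Prop) (j : ℕ → ℕ), (∀ n, j n ≤ ρ n) → Sm M fun n =>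
      ch (cE (Q n) (E n)) (fun ω => fl1 (j n) (φ n ω)) fun ω =>
        (fl1 (j n) (u n ω), t n ω, Θ n ω) := fun E j hj =>
    Sm.near1 hM (hL.const_mul hM (C := 6) (by norm_num)) (by
      filter_upwards [b1, b2] with n x y a ha b hb e
      have k1 := (y a (cE_sub ha) b (cE_sub hb) (Prod.mk.inj e).2).1
      have k2 := lt_div le_rfl (Prod.mk.inj e).1
      have k3 : |u n a + u n b| ≤ 2 * L n := by
        linarith [abs_add_le (u n a) (u n b), (x a (cE_sub ha)).2.1, (x b (cE_sub hb)).2.1]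
      have k4 := mul_le_mul k2 k3 (abs_nonneg _) (by positivity)
      have k5 := le_mul_of_one_le_left (b := (1 : ℝ) / 2 ^ j n) (by positivity) (hL.1 n)
      rw [div_eq_mul_one_div]
      linarith [div_anti (hj n)])
  have kb : ∀ (E : ∀ n, Ω n → Prop) (j : ℕ → ℕ), (∀ n, j n + r n ≤ ρ n) → Sm M fun n =>
      ch (cE (Q n) (E n)) (fun ω => fl1 (j n) (u n ω)) fun ω =>
        (fl1 (j n + r n) (φ n ω), t n ω, Θ n ω) := fun E j hj =>
    Sm.near1 hM (hL.const_mul hM (C := 5) (by norm_num)) (by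
      filter_upwards [b1, b2] with n x y a ha b hb e
      have k1 := (y a (cE_sub ha) b (cE_sub hb) (Prod.mk.inj e).2).2
      have k2 := lt_div le_rfl (Prod.mk.inj e).1
      have p : (0 : ℝ) < 1 / 2 ^ r n := by positivity
      have k3 : 1 / 2 ^ r n ≤ L n * |u n a + u n b| := by
        have := mul_le_mul_of_nonneg_left (le_abs_self (σ * (u n a + u n b))) (hL.pos n).le
        rw [abs_mul, hσ, one_mul] at this
        linarith [(x a (cE_sub ha)).2.2, (x b (cE_sub hb)).2.2]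
      have k4 := mul_le_mul_of_nonneg_left k3 (abs_nonneg (u n a - u n b))
      have k5 : |u n a - u n b| * |u n a + u n b| ≤ 5 * (1 / 2 ^ (j n + r n)) := by
        linarith [div_anti (hj n)]
      have k6 := mul_le_mul_of_nonneg_left k5 (hL.pos n).le
      refine le_of_mul_le_mul_right ?_ p
      rw [show 5 * L n / 2 ^ j n * (1 / 2 ^ r n) = L n * (5 * (1 / 2 ^ (j n + r n))) by
        rw [pow_add]; field_simp]
      linarith)
  have hN' : ∀ (E : ∀ n, Ω n → Prop) (β lam : ℕ → ℕ), Pos Q E → (∀ n, β n ≤ lam n ∧ lam n ≤ ρ n) →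
      Le M (fun n => ch (cE (Q n) (E n)) (fun ω => fl1 (lam n) (φ n ω)) fun ω =>
        (fl1 (β n) (φ n ω), t n ω, Θ n ω)) fun n => (1 - ε₀) * (lam n - β n) * lg :=
    fun E β lam hE h => (hN Ω Q (fun _ => id) β lam E (fun _ => Law.rfl _) h hE).up
      fun n => (hρ n).2.1
  have an : ∀ n (E : Ω n → Prop) (F a b : Ω n → ℤ),
      ch (cE (Q n) E) F (fun v => (a v, b v, t n v, Θ n v)) ≤
        ch (cE (Q n) E) F fun v => (a v, t n v, Θ n v) := fun n E F a b =>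
    ch_anti fun _ _ _ _ e => by simp only [Prod.mk.injEq] at e ⊢; tauto
  have k1 := pw Q Θ (fun n ω => -(al n ω * z n ω)) al t M (fun n => k n + r n) s L (ε₀ / 2) h1 hL
    (by
      filter_upwards [hb, b1, h2.box] with n a b d ω hω
      have p := (b ω hω).1
      rw [abs_neg, abs_mul, abs_of_pos p, abs_of_nonneg (d ω hω).1]
      exact ⟨(mul_le_of_le_one_right p.le (d ω hω).2.le).trans (a.2 ω hω).2.1, (a.2 ω hω).2.1⟩)
    (half_pos e0) (by linarith) hs (fun n => by have := hρ n; omega) fun j hj E hE => by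
      have v : ∀ n, j n ≤ j n + s n + r n ∧ j n + s n + r n ≤ ρ n := fun n => by
        have := hρ n; have := hj n; omega
      refine Le.of3 (hN' E j _ hE v) (ka E j fun n => (v n).1.trans (v n).2)
        (kb E (fun n => j n + s n) fun n => (v n).2) (Eventually.of_forall fun n => ?_)
      have a1 := ch_tri (P := cE (Q n) (E n)) (fun ω => fl1 (j n + s n) (u n ω))
        (fun ω => fl1 (j n + s n + r n) (φ n ω)) fun ω => (fl1 (j n) (u n ω), t n ω, Θ n ω)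
      have a2 := ch_drop (P := cE (Q n) (E n)) (fun ω => fl1 (j n + s n + r n) (φ n ω))
        (fun ω => fl1 (j n) (φ n ω)) fun ω => (fl1 (j n) (u n ω), t n ω, Θ n ω)
      have a3 := an n (E n) (fun ω => fl1 (j n + s n) (u n ω))
        (fun ω => fl1 (j n + s n + r n) (φ n ω)) fun ω => fl1 (j n) (u n ω)
      have a4 := an n (E n) (fun ω => fl1 (j n + s n + r n) (φ n ω))
        (fun ω => fl1 (j n) (φ n ω)) fun ω => fl1 (j n) (u n ω)
      have a5 := mul_le_mul_of_nonneg_right (hρ n).2.2 lg_pos.le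
      have a6 : 0 ≤ ε₀ * r n * lg := by have := lg_pos; positivity
      subst hu
      push_cast
      linarith
  have k2 : Sm M fun n => ch (Q n) (fun ω => fl1 (k n) (z n ω)) fun ω =>
      (fl1 (k n + r n) (al n ω), fl1 (k n + r n + s n) (u n ω), t n ω, Θ n ω) :=
    Sm.near1 hM (hM.sub one_le_two) (by
      filter_upwards [hb, h1.box, h2.box] with n x y w a ha b hb e
      simp only [Prod.mk.injEq] at e
      have a1 := lt_div le_rfl e.1
      have a2 := lt_div (Nat.le_add_right _ _) e.2.1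
      have a3 : |(al n a - al n b) * (t n b - z n b)| ≤ 1 / 2 ^ (k n + r n) := by
        rw [abs_mul]
        exact (mul_le_of_le_one_right (abs_nonneg _) (abs_box (y b hb) (w b hb))).trans a1
      have a4 := abs_sub ((al n a - al n b) * (t n b - z n b)) (u n a - u n b)
      have p : (0 : ℝ) < 1 / 2 ^ r n := by positivity
      rw [show (al n a - al n b) * (t n b - z n b) - (u n a - u n b) = (z n a - z n b) * al n a by
        rw [← eu, ← eu, e.2.2.1]; ring, abs_mul, abs_of_pos (p.trans_le (x.2 a ha).1)] at a4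
      have a5 := mul_le_mul_of_nonneg_left (x.2 a ha).1 (abs_nonneg (z n a - z n b))
      refine le_of_mul_le_mul_right ?_ p
      rw [show (2 : ℝ) / 2 ^ k n * (1 / 2 ^ r n) = 2 * (1 / 2 ^ (k n + r n)) by
        rw [pow_add]; field_simp]
      linarith)
  have k3 := kb (fun _ _ => True) (fun n => k n + r n + s n) fun n => (hρ n).1.ge
  have k4 := hN' (fun _ _ => True) (fun _ => 0) ρ pos_true fun n => ⟨Nat.zero_le _, le_rfl⟩
  have k5 : Sm M fun n => ch (Q n) (fun ω => fl1 0 (φ n ω)) fun ω => (t n ω, Θ n ω) :=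
    Sm.near1 (j := fun _ => 0) hM (hL.const_mul hM one_le_two) (hb.mono fun n x a ha b hb _ => by
      rw [pow_zero, div_one]
      linarith [abs_sub (φ n a) (φ n b), (x.2 a ha).2.2.1, (x.2 b hb).2.2.1])
  simp only [cE_true, ← (hρ _).1] at k3 k4
  have k6 : Le M (fun n => k n * lg) fun n => (1 - ε₀) * ρ n * lg := by
    refine Le.of6 (h2.coarse (j := k) fun n => by have := hρ n; omega) k1 k2 k3 k4 k5
      (Eventually.of_forall fun n => ?_)
    have a1 := ch_tri (P := Q n) (fun ω => fl1 (k n) (z n ω))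
      (fun ω => fl1 (k n + r n + s n) (u n ω)) fun ω => (t n ω, Θ n ω)
    have a2 := ch_tri (P := Q n) (fun ω => fl1 (k n) (z n ω)) (fun ω => fl1 (k n + r n) (al n ω))
      fun ω => (fl1 (k n + r n + s n) (u n ω), t n ω, Θ n ω)
    have a3 := ch_tri (P := Q n) (fun ω => fl1 (k n + r n + s n) (u n ω))
      (fun ω => fl1 (ρ n) (φ n ω)) fun ω => (t n ω, Θ n ω)
    have a4 := ch_tri (P := Q n) (fun ω => fl1 (ρ n) (φ n ω)) (fun ω => fl1 0 (φ n ω))
      fun ω => (t n ω, Θ n ω)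
    subst hu
    push_cast
    linarith
  exact k6.false hM (mul_pos hc lg_pos) (hk.mono fun n a => by
    linarith [mul_le_mul_of_nonneg_right a lg_pos.le])

theorem par_sub (c c' : V 3) (t z : ℝ) : par c t - par c' t =
    (par c z - par c' z) + (dpar c z - dpar c' z) * (t - z) + (c 2 - c' 2) * (t - z) ^ 2 := by
  simp only [par, dpar]; ring

theorem abs_par {c : V 3} {t L : ℝ} (h : ∀ i, |c i| ≤ L) (ht : 0 ≤ t ∧ t < 1) :
    |par c t| ≤ 3 * L := by
  have k : ∀ i (s : ℝ), 0 ≤ s → s ≤ 1 → |c i * s| ≤ L := fun i s h0 h1 => by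
    rw [abs_mul, abs_of_nonneg h0]
    exact (mul_le_of_le_one_right (abs_nonneg _) h1).trans (h i)
  unfold par
  linarith [abs_add_three (c 0) (c 1 * t) (c 2 * t ^ 2), h 0, k 1 t ht.1 ht.2.le,
    k 2 (t ^ 2) (sq_nonneg t) (pow_le_one₀ ht.1 ht.2.le)]

theorem point {c c' : V 3} {t z L L' δ η : ℝ} {b b' : Bool} (h : ∀ i, |c i| ≤ L)
    (h' : ∀ i, |c' i| ≤ L) (hL : 1 ≤ L) (hL' : 1 ≤ L') (ht : 0 ≤ t ∧ t < 1) (hz : 0 ≤ z ∧ z < 1)
    (h0 : |par c z - par c' z| ≤ δ) (h1 : |dpar c z - dpar c' z| ≤ δ) (e0 : 0 ≤ η) (e1 : η ≤ 1)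
    (h2 : η ≤ |c 2 - c' 2|) (h3 : 1 ≤ L' * |t - z|) (hb : decide (0 < c 2 - c' 2) = b)
    (hb' : decide (0 < t - z) = b') :
    η ≤ √|c 2 - c' 2| ∧ √|c 2 - c' 2| ≤ 3 * L * L' ∧ |par c t| ≤ 3 * L * L' ∧
      1 ≤ 3 * L * L' * (sgn b' * (t - z)) ∧
      |sgn b * (par c t - par c' t) - (√|c 2 - c' 2| * (t - z)) ^ 2| ≤ 2 * δ := by
  have a1 : 3 * L ≤ 3 * L * L' := le_mul_of_one_le_right (by linarith) hL'
  refine ⟨Real.le_sqrt_of_sq_le (by nlinarith), (Real.sqrt_le_iff.2 ⟨by linarith, ?_⟩).trans a1,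
    (abs_par h ht).trans a1, ?_, ?_⟩
  · nlinarith [abs_sub (c 2) (c' 2), h 2, h' 2]
  · rw [sgn_mul hb', mul_assoc]
    exact one_le_mul_of_one_le_of_one_le (by linarith) h3
  · rw [mul_pow, Real.sq_sqrt (abs_nonneg _), ← sgn_mul hb, par_sub c c' t z, mul_assoc, ← mul_sub,
      add_sub_cancel_right, abs_mul, abs_sgn, one_mul]
    have : |(dpar c z - dpar c' z) * (t - z)| ≤ δ := by
      rw [abs_mul]
      exact (mul_le_of_le_one_right (abs_nonneg _) (abs_box ht hz)).trans h1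
    linarith [abs_add_le (par c z - par c' z) ((dpar c z - dpar c' z) * (t - z))]

theorem main (pw : PLw) {P : ∀ n, FP (Ω n)} {c : ∀ n, Ω n → V 3} {m : ℕ} {B : ∀ n, Ω n → A n}
    (hP : Pb P Θ c z M L) (e0 : 0 < ε₀) (e1 : ε₀ ≤ 1) (hm : 2 ≤ ε₀ * m) (hr : Frac r M)
    (hρ : ∀ n, ρ n = (m ^ 2 + 3 * m + 1) * r n ∧ ρ n ≤ M n)
    (hN : NG1 P (fun n ω => (z n ω, Θ n ω)) (fun n ω => par (c n ω) (z n ω)) ρ ε₀)
    (hB : ∀ n a b, B n b = B n a → fl1 (ρ n) (par (c n b) (z n b)) = fl1 (ρ n) (par (c n a) (z n a)) ∧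
      fl1 (ρ n) (dpar (c n b) (z n b)) = fl1 (ρ n) (dpar (c n a) (z n a)) ∧ z n b = z n a ∧
      Θ n b = Θ n a)
    (hW : Whp (fun n => glue (P n) (P n) (B n) (B n)) fun n v =>
      1 / 2 ^ r n ≤ |c n v.2 2 - c n v.1 2|) : False := by
  have hM := hP.ht.big
  have l1 : ∀ n, Law (glue (P n) (P n) (B n) (B n)) (fun v => (c n v.2, Θ n v.2)) (P n)
      fun ω => (c n ω, Θ n ω) := fun n =>
    (kg.snd _ _ _ _ (Law.rfl _)).comp fun ω => (c n ω, Θ n ω)
  have m1 := fun n v => (kg.mem (P n) (P n) (B n) (B n) v (Law.rfl _)).1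
  have l0 := fun n => kg.fst (P n) (P n) (B n) (B n)
  generalize hQ : (fun n => glue (P n) (P n) (B n) (B n)) = Q1 at hW
  simp only [congrFun hQ] at l0 l1 m1
  have l2 := fun n => kg.fst (Q1 n) (P n) (fun v => (c n v.2, Θ n v.2)) fun ω => (c n ω, Θ n ω)
  have l3 := fun n => kg.snd _ _ _ _ (l1 n)
  have m2 := fun n v => (kg.mem _ _ _ _ v (l1 n)).1
  have f1 := fun n => kg.mk1 _ _ _ _ (fun ω => fl1 (M n) (z n ω)) id (l1 n)
    (Fn.comp (fun v : Ω n × Ω n => (c n v.2, Θ n v.2)) id)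
  obtain ⟨Q, hQ2⟩ : ∃ Q : ∀ n, FP ((Ω n × Ω n) × Ω n), Q = fun n => glue (Q1 n) (P n)
    (fun v => (c n v.2, Θ n v.2)) fun ω => (c n ω, Θ n ω) := ⟨_, rfl⟩
  simp only [← congrFun hQ2] at l2 l3 m2 f1
  have h0 := hP.ht.dn (K31.dnS_law (Eventually.of_forall l3))
  have h1 : Ht Q (fun _ v => v.1) (fun n v => z n v.2) M :=
    ⟨⟨hM, h0.box, hP.ht.full.congr (Eventually.of_forall fun _ => rfl)
      (Eventually.of_forall f1)⟩, h0.dig⟩
  have h2 := swap (hP.ht.toFu.dn (K31.dnS_law (ρ := fun _ v => v.1.1) (Eventually.of_forall fun n =>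
    ((l2 n).comp Prod.fst).trans (l0 n)))) h1 fun n =>
      Fn.comp (fun v : Ω n × Ω n => (z n v.1, c n v.1, Θ n v.1)) Prod.fst
  obtain ⟨L', hL', hF⟩ := h1.toFu.far (x := fun n v => z n v.1.1) (Eventually.of_forall fun n =>
    Fn.comp (fun v : Ω n × Ω n => z n v.1) Prod.fst)
  obtain ⟨j, hE⟩ := ks.pig Q _ (fun n v => (decide (0 < c n v.2 2 - c n v.1.1 2),
    decide (0 < z n v.2 - z n v.1.1)))
    (((K31.dnS_law (Eventually.of_forall l2)).whp hW).and hF).pos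
  obtain ⟨-, κ, κ0, hκ⟩ := id hr
  have m0 : (2 : ℝ) ≤ m := hm.trans (mul_le_of_le_one_left (Nat.cast_nonneg m) e1)
  obtain ⟨d, rfl⟩ : ∃ d, m = d + 1 := Nat.exists_eq_add_one.2 (by exact_mod_cast zero_lt_two.trans_le m0)
  have h3 := (h1.anti (l' := fun n v => (-(√|c n v.1.2 2 - c n v.1.1 2| * z n v.1.1),
    √|c n v.1.2 2 - c n v.1.1 2|, c n v.1.1, Θ n v.1.1)) (Eventually.of_forall fun n a _ b _ e => by
      simp only [e])).cE hE
  have h4 := ((hN.pull l3).side (Θ' := fun n v => (z n v.2, c n v.1.1, Θ n v.1.1))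
    (Eventually.of_forall fun n a ha b hb e => by
      have k : ∀ v ∈ (Q n).S, Θ n v.2 = Θ n v.1.1 := fun v hv =>
        (Prod.mk.inj (m2 n v hv).2.2).2.trans (hB n _ _ (m1 n _ (m2 n v hv).1).2.2).2.2.2
      simp only [Prod.mk.injEq] at e ⊢
      exact ⟨e.1, by rw [k a ha, k b hb, e.2.2]⟩)).cE hE
  refine core (ψ := fun n v => par (c n v.1.1) (z n v.2)) (k := fun n => (d ^ 2 + 4 * d + 2) * r n)
    (s := fun n => (d + 1) * r n) (r := r) pw h3 (h2.cE hE)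
    ((hP.sub.const_mul hM (C := 3) (by norm_num)).mul hL') e0 e1
    ⟨fun n => le_trans (by rw [(hρ n).1]; exact Nat.mul_le_mul_right _ (by omega)) (hρ n).2, κ, κ0,
      hκ.mono fun n a => a.trans (by exact_mod_cast Nat.le_mul_of_pos_left _ d.succ_pos)⟩
    (fun n => ⟨by rw [(hρ n).1]; ring, (hρ n).2, ?_⟩) κ0 (hκ.mono fun n a => ?_) h4
    (abs_sgn j.1) (abs_sgn j.2) ?_
  · have := mul_le_mul_of_nonneg_right hm (Nat.cast_nonneg (r n))
    push_cast at this ⊢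
    linarith
  · have := mul_le_mul_of_nonneg_right hm (show (0 : ℝ) ≤ (d + 4) * r n by positivity)
    have p : (0 : ℝ) ≤ ε₀ * r n := by positivity
    have q : (0 : ℝ) ≤ d * r n := by positivity
    have q' : (0 : ℝ) ≤ r n := by positivity
    rw [(hρ n).1]
    push_cast at this ⊢
    linarith
  · filter_upwards [hE.sure, hP.bd, hP.ht.box] with n x y w
    refine ⟨fun a _ b _ e => ?_, fun v hv => ?_⟩
    · simp only [Prod.mk.injEq] at e
      simp only [e.1, e.2.1]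
    · obtain ⟨a1, ⟨a2, a3⟩, a4⟩ := x v hv
      obtain ⟨b1, b2, b3⟩ := m2 n v a1
      obtain ⟨d1, -, d3⟩ := m1 n _ b1
      obtain ⟨g1, g2, g3, -⟩ := hB n _ _ d3
      rw [g3] at g1 g2
      rw [← (Prod.mk.inj b3).1] at g1 g2 a2 ⊢
      exact point (y _ b2) (y _ d1) (hP.sub.1 n) (hL'.1 n) (w _ b2) (w _ d1) (lt_div le_rfl g1)
        (lt_div le_rfl g2) (by positivity) (by simpa using div_anti (Nat.zero_le (r n))) a2 a3
        (congrArg Prod.fst a4) (congrArg Prod.snd a4)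

end SVCurvA

open SVCurvA in
theorem rowCurv : OfCurv := by
  intro sp pw Ω T P Θ c z M r ρ L ε₀ m hP e0 e1 hm hr hρ hN
  by_contra hc
  have hM := hP.ht.big
  have hL := hP.sub
  obtain ⟨B, hB⟩ : ∃ B : ∀ n, Ω n → ℤ × ℤ × ℝ × T n, B = fun n ω =>
    (fl1 (ρ n) (par (c n ω) (z n ω)), fl1 (ρ n) (dpar (c n ω) (z n ω)), z n ω, Θ n ω) := ⟨_, rfl⟩
  obtain ⟨E, hE, hS⟩ := sp P (fun n ω => fl1 (r n) (c n ω 2)) B M 3 hM (by
    filter_upwards [hP.bd, hL.2 1 one_pos, hM.ev 6] with n x y w a ha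
    have p : (1 : ℝ) ≤ 2 ^ r n := one_le_pow₀ one_le_two
    have q := hL.1 n
    refine (det_near1 (x := fun ω => c n ω 2) (L := 2 * L n * 2 ^ r n) (by positivity)
      (fun a ha b hb _ => ?_) a ha).imp fun T hT => ⟨hT.1.trans ?_, hT.2⟩
    · rw [mul_div_cancel_right₀ _ (by positivity)]
      linarith [abs_sub (c n a 2) (c n b 2), x a ha 2, x b hb 2]
    · have a1 : L n * 2 ^ r n ≤ Real.exp (1 * M n) * Real.exp (M n) := mul_le_mul y
        ((two_pow_le_exp _).trans (Real.exp_le_exp.2 (by exact_mod_cast hr.1 n))) (by positivity)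
        (Real.exp_pos _).le
      have a2 := Real.add_one_le_exp (M n : ℝ)
      have a3 : 1 ≤ L n * 2 ^ r n := one_le_mul_of_one_le_of_one_le q p
      rw [show 3 * (M n : ℝ) = M n + (1 * M n + M n) by ring, Real.exp_add, Real.exp_add]
      nlinarith) (hB ▸ hc)
  have hW := hS (fun n v => Finset.Icc (fl1 (r n) (c n v 2) - 1) (fl1 (r n) (c n v 2) + 1))
    (fun _ => 3) (hM.sub (by norm_num)) (Eventually.of_forall fun n v => by
      rw [Int.card_Icc]
      have : (fl1 (r n) (c n v 2) + 1 + 1 - (fl1 (r n) (c n v 2) - 1)).toNat = 3 := by omega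
      rw [this]; norm_num)
  refine main pw (hP.cE hE) e0 e1 hm hr hρ (hN.cE hE) (fun n a b e => by simpa [hB] using e)
    (hW.mono (Eventually.of_forall fun n v _ h => by_contra fun k => h (fl1_mem_Icc (n := 1) ?_)))
  rw [Nat.cast_one, one_mul, ← one_div]
  exact (not_le.1 k).le

end Pool.Agent.MP_5168f5_an.R4
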