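import Pool.Agent.MP_5168f5_an.R4.SpecSV

/-! Planarity for curves of degree two: reduction to heights with finitely many digits. -/

namespace Pool.Agent.MP_5168f5_an.R4

open H19 H17S H17F Filter NCx

namespace SVPL2A

/-- Keep the first `m` digits. -/
noncomputable def rd (m : ℕ) (t : ℝ) : ℝ := ((2 : ℝ) ^ m)⁻¹ * fl1 m t

variable {m : ℕ} {t t' L : ℝ} {c c' : V 3}

theorem fl1_rd (m : ℕ) (t : ℝ) : fl1 m (rd m t) = fl1 m t := by simp [fl1, rd]

theorem rd_box (h : 0 ≤ t ∧ t < 1) : 0 ≤ rd m t ∧ rd m t < 1 :=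
  ⟨mul_nonneg (by positivity) (by
    exact_mod_cast Int.floor_nonneg.2 (mul_nonneg (by positivity) h.1)),
    (fl1_le m t).trans_lt h.2⟩

theorem par_rd (m : ℕ) (h : (0 ≤ t ∧ t < 1) ∧ ∀ i, |c i| ≤ L) :
    |par c t - par c (rd m t)| ≤ 1 / 2 ^ m * (3 * L) := by
  have h1 : rd m t ≤ t := fl1_le m t
  have h2 : t < rd m t + ((2 : ℝ) ^ m)⁻¹ := lt_fl1 m t
  have h3 := rd_box (m := m) h.1
  have h4 : |c 2 * (t + rd m t)| ≤ L * 2 := by
    rw [abs_mul]
    exact mul_le_mul (h.2 2) (abs_le.2 ⟨by linarith [h.1.1], by linarith [h.1.2]⟩) (abs_nonneg _)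
      ((abs_nonneg _).trans (h.2 2))
  rw [show par c t - par c (rd m t) = (t - rd m t) * (c 1 + c 2 * (t + rd m t)) by
    unfold par; ring, abs_mul, one_div]
  exact mul_le_mul (abs_le.2 ⟨by linarith, by linarith⟩)
    ((abs_add_le _ _).trans (by linarith [h.2 1])) (abs_nonneg _) (by positivity)

theorem lip (m : ℕ) (hL : 1 ≤ L) (h : (0 ≤ t ∧ t < 1) ∧ ∀ i, |c i| ≤ L)
    (h' : (0 ≤ t' ∧ t' < 1) ∧ ∀ i, |c' i| ≤ L) :
    |par c (rd m t) - par c' (rd m t')| ≤ 6 * L * (|par c t - par c' t'| + 1 / 2 ^ m) ∧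
    |par c t - par c' t'| ≤ 6 * L * (|par c (rd m t) - par c' (rd m t')| + 1 / 2 ^ m) := by
  have h1 := abs_le.1 (par_rd m h)
  have h2 := abs_le.1 (par_rd m h')
  have k : ∀ x y : ℝ, |x - y| ≤ 1 / 2 ^ m * (6 * L) → |x| ≤ 6 * L * (|y| + 1 / 2 ^ m) :=
    fun x y e => by nlinarith [abs_sub_abs_le_abs_sub x y, abs_nonneg y]
  constructor <;> exact k _ _ (abs_le.2 ⟨by linarith, by linarith⟩)

theorem fin {W T : Type} (Q : FP W) (Θ : W → T) (c : W → V 3) (z : W → ℝ) (m a b : ℕ) :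
    ch Q (fun v => fl1 a (par (c v) (rd m (z v))))
      (fun v => (fl1 b (par (c v) (rd m (z v))), rd m (z v), Θ v)) ≤
    ch Q (fun v => fl1 a (par (c v) (rd m (z v))))
      (fun v => (fl1 b (par (c v) (rd m (z v))), z v, Θ v)) + mi Q z c Θ := by
  refine (ch_le_mi (G := z) fun a _ b _ e => ?_).trans (add_le_add le_rfl ?_)
  · simp only [Prod.mk.injEq] at e ⊢
    tauto
  · rw [mi_symm]
    refine (mi_right (G := c) (K := fun v => (rd m (z v), Θ v)) (Fn.snd _ _) ?_ ?_).trans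
      (mi_left (Fn.snd _ _) (((Fn.comp (rd m) z).left _).pair (Fn.snd _ _)) (Fn.fst _ _))
    all_goals
      intro a _ b _ e
      simp only [Prod.mk.injEq] at e
      simp only [e.1, e.2.1, e.2.2]

end SVPL2A

open SVPL2A in
theorem rowPL2 : OfPL2 := by
  intro H Ω T P Θ c z M q s L ε₀ hM hL hb hi hf e0 e1 hs hq hN
  have h6 := hL.const_mul hM (C := 6) (by norm_num)
  have n1 : NG1 P (fun n ω => (z n ω, Θ n ω)) (fun n ω => par (c n ω) (rd (M n) (z n ω))) M ε₀ :=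
    hN.lip hM h6 (hb.mono fun n hn a ha b hb _ => lip (M n) (hL.1 n) (hn a ha) (hn b hb))
  have k := H P Θ c (fun n ω => rd (M n) (z n ω)) M q s L ε₀
    ⟨⟨⟨hM, hb.mono fun n a ω hω => rd_box (a ω hω).1, ?_⟩, Eventually.of_forall
      fun n a _ b _ e => ?_⟩, hL, hb.mono fun n a ω hω => (a ω hω).2⟩ e0 e1 hs hq
    fun Ω' Q ρ β lam E h1 h2 h3 => (n1 Ω' Q ρ β lam E h1 h2 h3).of2
      (((K31.dnS_cE h3).trans (K31.dnS_law (Eventually.of_forall h1))).sm_mi hM hi)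
      (Eventually.of_forall fun n => by
        dsimp only [id]
        linarith [fin (cE (Q n) (E n)) (fun v => Θ n (ρ n v)) (fun v => c n (ρ n v))
          (fun v => z n (ρ n v)) (M n) (lam n) (β n)])
  · refine (k.add (Sm.near1 (P := P) (x := fun n ω => par (c n ω) (rd (M n) (z n ω)))
      (G := fun n ω => (fl1 (q n + s n) (par (c n ω) (z n ω)), fl1 (M n) (z n ω), Θ n ω))
      (j := fun n => q n + s n) hM (h6.const_mul hM one_le_two)
      (hb.mono fun n hn a ha b hb e => ?_))).mono (Eventually.of_forall fun n =>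
        (ch_drop _ _ _).trans (add_le_add (ch_anti fun a _ b _ e => ?_) le_rfl))
    · have a2 := (abs_sub_lt_of_fl1_eq (Prod.mk.inj e).1).le
      have a3 : (1 : ℝ) / 2 ^ M n ≤ (2 ^ (q n + s n))⁻¹ := by
        rw [one_div]; exact inv_anti₀ (by positivity) (pow_le_pow_right₀ one_le_two (hq n))
      exact (lip (M n) (hL.1 n) (hn a ha) (hn b hb)).1.trans
        ((mul_le_mul_of_nonneg_left (add_le_add a2 a3) (h6.pos n).le).trans (le_of_eq (by ring)))
    · simp only [Prod.mk.injEq, rd] at e ⊢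
      exact ⟨e.1, by rw [e.2.2.1], e.2.2.2⟩
  · simp only [fl1_rd]
    refine hf.of2 hi (Eventually.of_forall fun n => ?_)
    have a : mi (P n) (fun ω => fl1 (M n) (z n ω)) (c n) (Θ n) ≤ mi (P n) (z n) (c n) (Θ n) :=
      mi_mono' ((Fn.comp (fl1 (M n)) (z n)).left _)
    rw [mi] at a
    linarith
  · simp only [fl1_rd] at e
    simp only [rd, e]

end Pool.Agent.MP_5168f5_an.R4
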