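import Pool.Agent.MP_5168f5_an.R4.SpecSV

/-! Row PL2d: planarity for curves of degree two. -/

namespace Pool.Agent.MP_5168f5_an.R4

open H19 H17S H17F Filter NCx

namespace SVPL2dA

variable {Ω α β γ T : ℕ → Type} {P : ∀ n, FP (Ω n)} {F : ∀ n, Ω n → α n} {W : ∀ n, Ω n → β n}
  {G : ∀ n, Ω n → γ n} {M R a : ℕ → ℕ} {Θ : ∀ n, Ω n → T n} {u : ∀ n, Ω n → ℝ} {ε₀ : ℝ}

theorem chain (W : ∀ n, Ω n → β n) (h1 : Sm M fun n => ch (P n) (W n) (G n))
    (h2 : Sm M fun n => ch (P n) (F n) fun ω => (W n ω, G n ω)) :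
    Sm M fun n => ch (P n) (F n) (G n) :=
  (h1.add h2).mono (Eventually.of_forall fun _ => ch_tri _ _ _)

theorem anti (h : Sm M fun n => ch (P n) (F n) (W n)) (e : ∀ n, Fn (P n) (W n) (G n)) :
    Sm M fun n => ch (P n) (F n) (G n) := h.mono (Eventually.of_forall fun n => ch_anti (e n))

theorem shift (h : NG1 P Θ u M ε₀) (hR : Frac R M) (ha : ∀ n, a n + R n ≤ M n) :
    NG1 P Θ (fun n ω => 2 ^ a n * u n ω) R ε₀ := fun Ω' Q ρ b lam E h1 h2 h3 => by
  refine ((h Ω' Q ρ (fun n => a n + b n) (fun n => a n + lam n) E h1 (fun n =>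
    ⟨by linarith [(h2 n).1], by linarith [ha n, (h2 n).2]⟩) h3).frac hR).congr
      (Eventually.of_forall fun n => ?_) (Eventually.of_forall fun n => ?_)
  · simp only [fl1_mul]
  · push_cast; ring

theorem fr_sub {j : ℕ} {c c' : V 3} (h : fl j c = fl j c') (t : ℝ) :
    (∀ i, fr j c i - fr j c' i = 2 ^ j * (c i - c' i)) ∧
    par (fr j c) t - par (fr j c') t = 2 ^ j * (par c t - par c' t) ∧
    dpar (fr j c) t - dpar (fr j c') t = 2 ^ j * (dpar c t - dpar c' t) := by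
  have k : ∀ i, fr j c i - fr j c' i = 2 ^ j * (c i - c' i) := fun i => by
    simp only [fr_eq, h, Pi.sub_apply, Pi.smul_apply, smul_eq_mul]
    ring
  unfold par dpar
  exact ⟨k, by linear_combination k 0 + t * k 1 + t ^ 2 * k 2,
    by linear_combination k 1 + 2 * t * k 2⟩

theorem mul_le {x t δ : ℝ} (h : |x| ≤ δ) (h0 : 0 ≤ t) (h1 : t ≤ 1) : -δ ≤ x * t ∧ x * t ≤ δ := by
  rw [← abs_le, abs_mul, abs_of_nonneg h0]
  exact (mul_le_of_le_one_right (abs_nonneg _) h1).trans h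

theorem par_le {c c' : V 3} {t δ : ℝ} (ht : 0 ≤ t ∧ t < 1) (h : ∀ i, |c i - c' i| ≤ δ) :
    |par c t - par c' t| ≤ 3 * δ := by
  have a0 := abs_le.1 (h 0)
  have a1 := mul_le (h 1) ht.1 ht.2.le
  have a2 := mul_le (h 2) (sq_nonneg t) (pow_le_one₀ ht.1 ht.2.le)
  unfold par
  exact abs_le.2 ⟨by linarith, by linarith⟩

theorem inv3 {c c' : V 3} {t δ : ℝ} (ht : 0 ≤ t ∧ t < 1) (h2 : |c 2 - c' 2| ≤ δ)
    (h1 : |dpar c t - dpar c' t| ≤ δ) (h0 : |par c t - par c' t| ≤ δ) (i : Fin 3) :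
    |c i - c' i| ≤ 5 * δ := by
  have a0 := abs_le.1 h0
  have a1 := abs_le.1 h1
  have a2 := mul_le h2 ht.1 ht.2.le
  have a3 := mul_le h2 (sq_nonneg t) (pow_le_one₀ ht.1 ht.2.le)
  have a4 := (abs_nonneg _).trans h2
  unfold par dpar at *
  have b1 : |c 1 - c' 1| ≤ 3 * δ := abs_le.2 ⟨by linarith, by linarith⟩
  have a5 := mul_le b1 ht.1 ht.2.le
  fin_cases i
  · exact abs_le.2 ⟨by simp; linarith, by simp; linarith⟩
  · exact b1.trans (by linarith)
  · exact h2.trans (by linarith)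

theorem near {j k i : ℕ} {x y : ℝ} (h : fl1 k x = fl1 k y) (e : j + i ≤ k) :
    |2 ^ j * (x - y)| ≤ 1 / 2 ^ i := by
  have := (abs_sub_lt_of_fl1_eq (fl1_eq_of_le e h)).le
  rw [abs_mul, abs_of_pos (by positivity)]
  exact (mul_le_mul_of_nonneg_left this (by positivity)).trans_eq (by rw [pow_add]; field_simp)

end SVPL2dA

open SVPL2dA in
theorem rowPL2d : OfPL2d := by
  intro hI hS hC Ω T P Θ c z M q s L ε₀ hP e0 e1 hs hqs hN
  have hM := hP.ht.big
  have h1 := hM.sub le_rfl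
  obtain ⟨m, hm⟩ := exists_nat_ge (2 / ε₀)
  rw [div_le_iff₀' e0] at hm
  have m0 : 0 < m := Nat.pos_of_ne_zero fun e => by norm_num [e] at hm
  obtain ⟨r, hr0⟩ : ∃ r : ℕ → ℕ, r = fun n => s n / (m * (m ^ 2 + 3 * m + 1)) := ⟨_, rfl⟩
  have hr : Frac r M := hr0 ▸ ((hM.frac hs).frac_div (by positivity)).trans hs
  obtain ⟨ρ, hρ0⟩ : ∃ ρ : ℕ → ℕ, ∀ n, ρ n = (m ^ 2 + 3 * m + 1) * r n := ⟨_, fun _ => rfl⟩
  have r1 : ∀ n, m * ρ n ≤ s n := fun n => by
    rw [hρ0, hr0, ← mul_assoc]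
    exact Nat.mul_div_le _ _
  have r2 : ∀ n, ρ n ≤ s n := fun n => (Nat.le_mul_of_pos_left _ m0).trans (r1 n)
  have r3 : ∀ n, r n ≤ ρ n := fun n => hρ0 n ▸ Nat.le_mul_of_pos_left _ (by positivity)
  have hρ : Frac ρ M := ⟨fun n => (r2 n).trans (hs.1 n), hr.2.imp fun κ h =>
    ⟨h.1, h.2.mono fun n k => k.trans (Nat.cast_le.2 (r3 n))⟩⟩
  refine hI P (fun n j ω => fl j (c n ω)) _ M q r hM hr (fun n => by linarith [hqs n])
    (fun n j j' h a _ b _ e => fl_eq_of_le h e) (Sm.near (j := fun _ => 0) hM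
      (hP.sub.const_mul hM one_le_two) (hP.bd.mono fun n h a ha b hb _ => ?_)) fun j hj => ?_
  · rw [pow_zero, div_one, pi_norm_le_iff_of_nonneg (by linarith [hP.sub.pos n])]
    exact fun i => (abs_sub _ _).trans (by linarith [h a ha i, h b hb i])
  obtain ⟨κ, κ0, hκ⟩ := hs.2
  have S1 := hS P (fun n ω => (fl (j n) (c n ω), Θ n ω)) c z M (fun n => j n + ρ n)
    (fun n => s n - ρ n) L (fun n => (1 - ε₀) * s n * lg) (ε₀ * κ * lg / 2)
    ⟨hP.ht.anti (Eventually.of_forall fun n a _ b _ e => by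
      simp only [Prod.mk.injEq] at e ⊢
      simp [e.1, e.2]), hP.sub, hP.bd⟩ (by positivity [lg_pos])
    (fun n => by have := hqs n; have := hj n; have := r2 n; omega) (hκ.mono fun n k => by
      have a1 : (m : ℝ) * ρ n ≤ s n := by exact_mod_cast r1 n
      have a2 : 2 * (ρ n : ℝ) ≤ ε₀ * s n := by
        nlinarith [mul_le_mul_of_nonneg_left a1 e0.le,
          mul_le_mul_of_nonneg_right hm (Nat.cast_nonneg (α := ℝ) (ρ n))]
      rw [Nat.cast_sub (r2 n)]
      nlinarith [mul_le_mul_of_nonneg_right a2 lg_pos.le,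
        mul_le_mul_of_nonneg_left k (mul_pos e0 lg_pos).le]) fun E hE => by
      refine (hN Ω P (fun _ => id) j (fun n => j n + s n) E (fun _ => Law.rfl _)
        (fun n => ⟨Nat.le_add_right _ _, by linarith [hqs n, hj n]⟩) hE).of2
        (Sm.near1 (P := fun n => cE (P n) (E n)) (x := fun n ω => par (c n ω) (z n ω)) (j := j)
          (G := fun n ω => (z n ω, fl (j n) (c n ω), Θ n ω)) hM (hM.sub (C := 3) (by norm_num))
          (hP.ht.box.mono fun n h a ha b hb e => ?_)) (Eventually.of_forall fun n => ?_)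
      · simp only [Prod.mk.injEq] at e
        rw [← e.1]
        exact par_le (h a (cE_sub ha)) fun i => (abs_sub_lt_of_fl1_eq (congrFun e.2.1 i)).le
      · have a1 := ch_drop (P := cE (P n) (E n)) (fun ω => fl1 (j n + s n) (par (c n ω) (z n ω)))
          (fun ω => fl1 (j n) (par (c n ω) (z n ω))) fun ω => (z n ω, fl (j n) (c n ω), Θ n ω)
        have a2 := ch_anti (P := cE (P n) (E n))
          (F := fun ω => fl1 (j n + s n) (par (c n ω) (z n ω)))
          (G := fun ω => (fl1 (j n) (par (c n ω) (z n ω)), z n ω, Θ n ω))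
          (G' := fun ω => (fl1 (j n) (par (c n ω) (z n ω)), z n ω, fl (j n) (c n ω), Θ n ω))
          fun a _ b _ e => by simp only [Prod.mk.injEq] at e ⊢; tauto
        rw [show j n + ρ n + (s n - ρ n) = j n + s n by have := r2 n; omega]
        simp only [id, Nat.cast_add, add_sub_cancel_left]
        linarith
  have S2 := hC P (fun n ω => (fl (j n) (c n ω), Θ n ω)) (fun n ω => fr (j n) (c n ω)) z M r ρ
    (fun _ => 1) ε₀ m ⟨hP.ht.anti (Eventually.of_forall fun n a _ b _ e => by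
      simp only [Prod.mk.injEq] at e ⊢
      simp [e.1, e.2]), h1, Eventually.of_forall fun n ω _ i =>
        abs_le.2 ⟨by linarith [(fr_box (j n) (c n ω) i).1], (fr_box _ _ i).2.le⟩⟩ e0 e1 hm hr
    (fun n => ⟨hρ0 n, hρ.1 n⟩) (((shift (a := j) hN hρ fun n => by
      linarith [hqs n, hj n, r2 n]).side (Eventually.of_forall fun n a _ b _ e => by
        simp only [Prod.mk.injEq] at e ⊢; tauto)).lip (hM.frac hρ) ((hM.frac hρ).sub le_rfl)
      (Eventually.of_forall fun n a _ b _ e => by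
        simp only [Prod.mk.injEq] at e
        rw [← e.1, (fr_sub e.2.1 _).2.1, ← mul_sub, one_mul]
        exact ⟨le_add_of_nonneg_right (by positivity), le_add_of_nonneg_right (by positivity)⟩))
  refine chain _ (anti S1 fun n a _ b _ e => ?_) (chain
    (fun n ω => fl1 (ρ n) (par (fr (j n) (c n ω)) (z n ω)))
    (Sm.near1 hM h1 (Eventually.of_forall fun n a _ b _ e => ?_)) (chain
    (fun n ω => fl1 (ρ n) (dpar (fr (j n) (c n ω)) (z n ω)))
    (Sm.near1 hM h1 (Eventually.of_forall fun n a _ b _ e => ?_))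
    (chain _ (anti S2 fun n a _ b _ e => ?_) (Sm.near (j := fun n => j n + r n) hM
      (hM.sub (C := 5) (by norm_num)) (hP.ht.box.mono fun n h a ha b _ e => ?_)))))
  all_goals simp only [Prod.mk.injEq] at e ⊢
  · exact ⟨fl1_eq_of_le (by have := hj n; have := r2 n; omega) e.2.1, e.2.2.1, e.1, e.2.2.2⟩
  · obtain ⟨-, a1, a2, a3, -⟩ := e
    rw [← a3] at a2 ⊢
    rw [(fr_sub a1 _).2.1]
    exact near a2 (by linarith [hj n, r2 n])
  · obtain ⟨-, a0, a1, -, a3, -⟩ := e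
    rw [← a3] at a0 ⊢
    rw [(fr_sub a1 _).2.2]
    exact near a0 le_rfl
  · tauto
  · obtain ⟨b2, b1, b0, -, a1, -, a3, -⟩ := e
    rw [← a3] at b1 b0
    rw [pi_norm_le_iff_of_nonneg (by positivity)]
    intro i
    have := inv3 (h a ha) (abs_sub_lt_of_fl1_eq b2).le
      (abs_sub_lt_of_fl1_eq (fl1_eq_of_le (r3 n) b1)).le
      (abs_sub_lt_of_fl1_eq (fl1_eq_of_le (r3 n) b0)).le i
    rw [(fr_sub a1 0).1, abs_mul, abs_of_pos (by positivity), ← le_div_iff₀' (by positivity)] at this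
    exact this.trans_eq (by rw [pow_add]; field_simp)

end Pool.Agent.MP_5168f5_an.R4
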