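import Pool.Agent.MP_5168f5_an.R4.SpecSV

/-! Kakeya sets in four dimensions: planarity for lines from windows of one length. -/

namespace Pool.Agent.MP_5168f5_an.R4

open H19 H17S H17F Filter NCx

namespace SVPLwA

theorem lin {j : ℕ} {x x' y y' z : ℝ} (hx : fl1 j x = fl1 j x') (hy : fl1 j y = fl1 j y')
    (h : 0 ≤ z ∧ z < 1) : |x - x' + (y - y') * z| ≤ 2 / 2 ^ j := by
  have h1 := abs_sub_lt_of_fl1_eq hx
  have h2 := abs_sub_lt_of_fl1_eq hy
  have h3 : |(y - y') * z| ≤ |y - y'| := by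
    rw [abs_mul, abs_of_nonneg h.1]
    exact mul_le_of_le_one_right (abs_nonneg _) h.2.le
  rw [div_eq_mul_inv]
  linarith [abs_add_le (x - x') ((y - y') * z)]

variable {Ω T : Type} {P : FP Ω} {Θ : Ω → T} {a e z : Ω → ℝ}

theorem up (h : ∀ ω ∈ P.S, 0 ≤ z ω ∧ z ω < 1) (j k : ℕ) :
    ch P (fun ω => fl1 k (a ω + e ω * z ω)) (fun ω => (z ω, fl1 j (a ω), fl1 j (e ω), Θ ω)) ≤
    ch P (fun ω => fl1 k (a ω + e ω * z ω)) (fun ω => (fl1 j (a ω + e ω * z ω), z ω, Θ ω)) +
      Real.log 7 := by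
  refine (ch_tri' _ _ _).trans (add_le_add le_rfl ?_)
  refine (ch_mono (F' := fun ω => fl1 j (a ω + e ω * z ω)) fun u _ v _ e => ?_).trans
    ((ch_near1 (L := 2) (by norm_num) fun u hu v _ e => ?_).trans (by norm_num))
  · simp only [Prod.mk.injEq] at e ⊢
    exact ⟨e.1, e.2.1, e.2.2.2.2⟩
  · simp only [Prod.mk.injEq] at e
    convert lin e.2.1 e.2.2.1 (h u hu) using 2
    rw [← e.1]
    ring

theorem dn (h : ∀ ω ∈ P.S, 0 ≤ z ω ∧ z ω < 1) {j k l : ℕ} (i : ℕ) (h1 : j ≤ k) (h2 : k ≤ l) :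
    ch P (fun ω => fl1 i (e ω)) (fun ω => (fl1 j (e ω), fl1 l (a ω + e ω * z ω), z ω, Θ ω)) ≤
    ch P (fun ω => fl1 i (e ω))
      (fun ω => (fl1 k (a ω + e ω * z ω), z ω, fl1 j (a ω), fl1 j (e ω), Θ ω)) + Real.log 7 := by
  refine (ch_tri' _ _ _).trans (add_le_add le_rfl ?_)
  refine (ch_mono (F' := fun ω => fl1 j (a ω)) fun u _ v _ e => ?_).trans
    ((ch_near1 (L := 2) (by norm_num) fun u hu v _ e => ?_).trans (by norm_num))
  · simp only [Prod.mk.injEq] at e ⊢
    exact ⟨fl1_eq_of_le h2 e.2.2.1, e.2.2.2.1, e.1, e.2.1, e.2.2.2.2⟩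
  · simp only [Prod.mk.injEq] at e
    convert lin (fl1_eq_of_le (h1.trans h2) e.2.1) e.1.symm (h u hu) using 2
    rw [← e.2.2.1]
    ring

end SVPLwA

open SVPLwA in
theorem rowPLw : OfPLw := by
  intro hI hS Ω T P Θ a e z M q s L ε₀ ht hL bd e0 e1 hs hq H
  have fr := (ht.big.frac hs).frac_floor (half_pos e0) (by linarith)
  have rs : ∀ n, (⌊ε₀ / 2 * s n⌋₊ : ℝ) ≤ ε₀ / 2 * s n := fun n => Nat.floor_le (by positivity)
  generalize hr : (fun n => ⌊ε₀ / 2 * s n⌋₊) = r at fr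
  simp only [fun n => congrFun hr n] at rs
  refine hI P (fun n j ω => fl1 j (e n ω)) _ M q r ht.big (fr.trans hs)
    (fun n => (Nat.le_add_right _ _).trans (hq n)) (fun n j j' h _ _ _ _ => fl1_eq_of_le h)
    (Sm.near1 (j := fun _ => 0) ht.big (hL.const_mul ht.big one_le_two)
      (bd.mono fun n h u hu v hv _ => ?_)) fun j hj => ?_
  · rw [pow_zero, div_one]
    linarith [abs_sub (e n u) (e n v), (h u hu).2, (h v hv).2]
  obtain ⟨-, c, c0, hc⟩ := hs
  have ad : ∀ n, j n + r n + (s n - r n) = j n + s n := fun n => by have := fr.1 n; omega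
  have p1 : ∀ x y t : ℝ, par ![x, y, 0] t = x + y * t := fun x y t => by simp [par]
  have p2 : ∀ x y t : ℝ, dpar ![x, y, 0] t = y := fun x y t => by simp [dpar]
  have := hS P (fun n ω => (fl1 (j n) (a n ω), fl1 (j n) (e n ω), Θ n ω))
    (fun n ω => ![a n ω, e n ω, 0]) z M (fun n => j n + r n) (fun n => s n - r n) L
    (fun n => (1 - ε₀) * s n * lg) (ε₀ / 2 * c * lg)
    ⟨ht.anti (Eventually.of_forall fun n u _ v _ e => by
      simp only [Prod.mk.injEq] at e
      simp only [e.1, e.2.1, e.2.2]), hL, bd.mono fun n h ω hω i => by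
        fin_cases i
        exacts [(h ω hω).1, (h ω hω).2, abs_zero.trans_le (hL.pos n).le]⟩
    (by have := lg_pos; positivity) (fun n => by have := hq n; have := hj n; rw [ad]; omega)
    (hc.mono fun n h => by
      rw [Nat.cast_sub (fr.1 n)]
      have h1 := mul_le_mul_of_nonneg_left h (half_pos e0).le
      nlinarith [mul_le_mul_of_nonneg_right (h1.trans' le_rfl) lg_pos.le,
        mul_le_mul_of_nonneg_right (rs n) lg_pos.le]) fun E hE => by
      simp only [ad, p1]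
      exact (H j hj E hE).of2 (ht.big.sm (Real.log 7)) (ht.box.mono fun n h => by
        linarith [up (P := cE (P n) (E n)) (a := a n) (e := e n) (Θ := Θ n)
          (fun ω hω => h ω (cE_sub hω)) (j n) (j n + s n)])
  simp only [ad, p1, p2] at this
  exact (this.add (ht.big.sm (Real.log 7))).mono (ht.box.mono fun n h =>
    dn h _ (Nat.le_add_right _ _) (Nat.add_le_add_right (hj n) _))

end Pool.Agent.MP_5168f5_an.R4
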