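import Pool.Agent.MP_5168f5_an.R4.SpecSV

/-! The point determines the slope of a curve of degree two. -/

namespace Pool.Agent.MP_5168f5_an.R4

open H19 H17S H17F Filter NCx

namespace SVSlopeA

theorem num {c d : V 3} {z z' : ℝ} {i j : ℕ} (h : fl1 (i + j) (par d z) = fl1 (i + j) (par c z))
    (h' : fl1 (i + j) (par d z') = fl1 (i + j) (par c z'))
    (k : 1 / 2 ^ i ≤ |dpar c z - dpar d z|) (k' : 1 / 2 ^ i ≤ |dpar c z' - dpar d z'|)
    (s : (0 < dpar c z - dpar d z) = (0 < dpar c z' - dpar d z')) : |z - z'| ≤ 2 / 2 ^ j := by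
  have a := abs_sub_lt_of_fl1_eq h
  have a' := abs_sub_lt_of_fl1_eq h'
  have e : (z - z') * ((dpar c z - dpar d z + (dpar c z' - dpar d z')) / 2) =
      (par d z' - par c z') - (par d z - par c z) := by unfold par dpar; ring
  have b : 1 / 2 ^ i ≤ |(dpar c z - dpar d z + (dpar c z' - dpar d z')) / 2| := by
    generalize dpar c z - dpar d z = u at *
    generalize dpar c z' - dpar d z' = u' at *
    by_cases p : 0 < u
    · rw [abs_of_pos p] at k
      rw [abs_of_pos (s ▸ p)] at k'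
      exact le_trans (by linarith) (le_abs_self _)
    · rw [abs_of_nonpos (not_lt.1 p)] at k
      rw [abs_of_nonpos (not_lt.1 (s ▸ p))] at k'
      exact le_trans (by linarith) (neg_le_abs _)
  have f := abs_sub (par d z' - par c z') (par d z - par c z)
  rw [← e, abs_mul] at f
  have g := mul_le_mul_of_nonneg_left b (abs_nonneg (z - z'))
  rw [mul_one_div, div_le_iff₀ (by positivity)] at g
  have p : (0 : ℝ) < 2 ^ i := by positivity
  have q : (2 : ℝ) / 2 ^ j = (((2 : ℝ) ^ (i + j))⁻¹ + ((2 : ℝ) ^ (i + j))⁻¹) * 2 ^ i := by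
    rw [pow_add]; field_simp; ring
  rw [q]
  exact g.trans (mul_le_mul_of_nonneg_right (by linarith) p.le)

theorem far {k : ℕ} {x y : ℝ} (h : fl1 k y ∉ Finset.Icc (fl1 k x - 1) (fl1 k x + 1)) :
    1 / 2 ^ k ≤ |x - y| := by
  by_contra hc
  refine h (fl1_mem_Icc (n := 1) ?_)
  rw [abs_sub_comm, Nat.cast_one, one_mul, ← one_div]
  exact (not_le.1 hc).le

theorem bd {c : V 3} {z L : ℝ} (h : ∀ i, |c i| ≤ L) (k : 0 ≤ z ∧ z < 1) : |dpar c z| ≤ 3 * L := by
  have a := abs_le.1 (h 1)
  have b := abs_le.1 (h 2)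
  unfold dpar
  exact abs_le.2 ⟨by nlinarith, by nlinarith⟩

end SVSlopeA

open SVSlopeA in
theorem rowSlope : OfSlope := by
  intro sp cor Ω T P Θ c z M i j L D ε hb hε hij hD hE
  by_contra hc
  have hM := hb.ht.big
  have h1 : ¬Sm M fun n => ch (P n) (fun ω => fl1 (i n) (dpar (c n ω) (z n ω)))
      (Yc (Θ n) (z n) (fun ω => par (c n ω) (z n ω)) (i n + j n)) := fun h =>
    hc (h.mono (Eventually.of_forall fun n => ch_anti fun a _ b _ e => by
      simp only [Yc, Prod.mk.injEq] at e ⊢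
      tauto))
  obtain ⟨E, pos, hS⟩ := sp P (fun n ω => fl1 (i n) (dpar (c n ω) (z n ω)))
    (fun n => Yc (Θ n) (z n) (fun ω => par (c n ω) (z n ω)) (i n + j n)) M 2 hM (by
      filter_upwards [hb.bd, hb.ht.box, (hb.sub.const_mul hM (C := 15) (by norm_num)).2 1 one_pos]
        with n k1 k2 k3 a ha
      have p : (1 : ℝ) ≤ 2 ^ i n := one_le_pow₀ one_le_two
      have l := hb.sub.1 n
      refine (det_near1 (L := 6 * L n * 2 ^ i n) (by positivity) (fun a ha b hb _ => ?_) a ha).imp
        fun T hT => ⟨hT.1.trans ?_, hT.2⟩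
      · rw [mul_div_cancel_right₀ _ (by positivity)]
        exact (abs_sub _ _).trans (by linarith [bd (k1 a ha) (k2 a ha), bd (k1 b hb) (k2 b hb)])
      · have q : (2 : ℝ) ^ i n ≤ Real.exp (M n) := (two_pow_le_exp _).trans
          (Real.exp_le_exp.2 (Nat.cast_le.2 ((Nat.le_add_right _ _).trans (hij n))))
        rw [one_mul] at k3
        rw [two_mul (M n : ℝ), Real.exp_add]
        exact le_trans (by nlinarith) (mul_le_mul k3 q (by positivity) (Real.exp_pos _).le)) h1
  have hW := hS (fun n v => Finset.Icc (fl1 (i n) (dpar (c n v) (z n v)) - 1)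
    (fl1 (i n) (dpar (c n v) (z n v)) + 1)) (fun _ => 3) (hM.sub (by norm_num))
    (Eventually.of_forall fun n v => by
      rw [Int.card_Icc, show ∀ a : ℤ, (a + 1 + 1 - (a - 1)).toNat = 3 from fun a => by omega]
      norm_num)
  have h2 := cor (fun n => cE (P n) (E n)) Θ (fun n ω => (c n ω, Θ n ω)) z
    (fun n ω => par (c n ω) (z n ω)) M (fun n => i n + j n) j (fun _ => 2) _
    (fun n v => 0 < dpar (c n v.1) (z n v.1) - dpar (c n v.2) (z n v.1)) (hb.cE pos).ht
    (hM.sub one_le_two) (fun n => (Nat.le_add_left _ _).trans (hij n))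
    (Eventually.of_forall fun n => ⟨Fn.snd _ _, fun a _ b _ e => by
      simp only [Prod.mk.injEq] at e
      simp only [e.1.1, e.2], fun v hv w hw gv gw e1 e2 s => by
      have m := ((kg.mem _ _ _ _ v (Law.rfl _)).1 hv).2.2
      have m' := ((kg.mem _ _ _ _ w (Law.rfl _)).1 hw).2.2
      simp only [Yc, Prod.mk.injEq] at m m' e1 e2
      have f := far gv
      have f' := far gw
      rw [m.1.1] at f m
      rw [m'.1.1, ← e1.1, ← e2.1] at f' m'
      rw [← e1.1, ← e2.1] at s
      exact num m.1.2 m'.1.2 f f' s⟩) hW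
  exact (h2.trans (hE E pos)).false hM hε hD

end Pool.Agent.MP_5168f5_an.R4
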