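import Pool.Agent.MP_5168f5_an.R4.Kit
import Pool.Agent.MP_5168f5_an.R4.SVCor
import Pool.Agent.MP_5168f5_an.R4.SVSlope
import Pool.Agent.MP_5168f5_an.R4.SVPLw
import Pool.Agent.MP_5168f5_an.R4.SVCurv
import Pool.Agent.MP_5168f5_an.R4.SVPL2d
import Pool.Agent.MP_5168f5_an.R4.SVPL2

/-! Planarity for curves of degree two: the exports. -/

namespace Pool.Agent.MP_5168f5_an.R4

theorem corS : CorS := rowCorS kf2
theorem slopeS : Slope := rowSlope spread corS
theorem plw : PLw := rowPLw rowIter slopeS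
theorem curvS : Curv := rowCurv spread plw
theorem pl2d : PL2d := rowPL2d rowIter slopeS curvS
theorem pl2 : PL2 := rowPL2 pl2d

end Pool.Agent.MP_5168f5_an.R4
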