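import Pool.Agent.MP_5168f5_an.R4.BShL
import Pool.Agent.MP_5168f5_an.R4.BB1a
import Pool.Agent.MP_5168f5_an.R4.BSwap

/-! The shear by the rounded slope, without broadness. -/

namespace Pool.Agent.MP_5168f5_an.R4.B2S

open H19 H17S H17F Filter K31 Tan B1 BShLA BB1aA

/-- A statement on all sheared members. -/
def ForS (p : ∀ {Ω : ℕ → Type}, Gs 3 Ω → (M mm : ℕ → ℕ) → (∀ n, Td (Ω n)) → Mb Ω →
    (γ d ε₀ : ℝ) → (a b k : ℕ → ℕ) → Prop) : Prop :=
  ∀ {Ω : ℕ → Type} {K : Mb Ω → Prop} {g : Gs 3 Ω} {M mm : ℕ → ℕ} {D : ∀ n, Td (Ω n)}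
    {η γ d ε₀ : ℝ} {X : Mb Ω} {a b k : ℕ → ℕ}, T2 K g M mm D η γ d ε₀ → 1 < γ → γ < d →
    Sh K g M D X γ d a b k → p g M mm D X γ d ε₀ a b k

theorem shL : ForS fun g M mm D X _ _ _ a b k =>
  (∀ c : ℕ → ℕ, (∀ᶠ n in UF, c n ≤ b n) →
    Lab X.P (X.G g) mm c fun n v => ((mD X D n).S (c n) v, Gh D X b k n v)) ∧
  ND X.P M (Gh D X b k) fun n => (mD X D n).S (a n) := by
  intro Ω K g M mm D η γ d ε₀ X a b k hT _ hd hS
  have hC := hT.com X hS.mem
  have hM := hT.toTn.big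
  have d0 : 0 ≤ d - γ := by linarith
  have hG : ∀ n, Fn (X n).Q (Gh D X b k n) fun v => fl1 (k n) (Gc (mD X D) b n v) :=
    fun n u _ v _ e => by simp only [Gh, U.rd, e]
  refine ⟨fun c hc => ⟨(hC.lab c (hS.om.mono hc)).h.mono (hS.fn.mono fun n u => mi_mono' ?_),
    (hC.lab b hS.om).l.mono ((hc.and hC.nest).mono fun n u => mi_mono' (Fn.left ?_ _))⟩, ?_⟩
  · exact (Fn.fst _ _).pair ((((hG n).trans u).left _).right _)
  · exact (nest_le (fun j => (u.2.2 j).1) u.1).pair fun x hx y hy e =>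
      congrArg (fun h : ℝ × ℝ × V 3 => U.rd (k n) (h.2.2 1)) ((fn_H (u.2.2 (b n)).2).2 x hx y hy e)
  obtain ⟨L₁, s₁, w⟩ := (hT.fl X hS.mem).conv a b (fun n => ⌊(d - γ) * a n⌋₊) hS.om
    (hS.le.mono fun n u => ⟨u, Nat.floor_le (by positivity)⟩)
  obtain ⟨L₂, s₂, e₂⟩ := sub_gap (q := k) (τ := fun n => ⌊(d - γ) * a n⌋₊) (hS.eq.1.of2 (hM.sm 1)
    (Eventually.of_forall fun n => by linarith [Nat.lt_floor_add_one ((d - γ) * a n)])) s₁
  obtain ⟨L₃, s₃, e₃⟩ := hS.bd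
  obtain ⟨C, hc⟩ := om_cast (hS.om.mono hS.le)
  refine (ND.near (x := Gc (mD X D) b) (c := Gc (mD X D) a) (j := k) hM (s₂.add s₃ hM)
    (om_of (C := (d - γ) * C + 1) ((hc.and (hS.eq.1 1 one_pos)).mono fun n u => by
      nlinarith [mul_le_mul_of_nonneg_left u.1 d0, u.2]))
    ((hC.nest.and e₃).mono fun n u => ⟨fun x hx y hy e => ?_, fun v hv =>
      (u.2 v hv).trans (le_add_of_nonneg_left (s₂.pos n).le)⟩)
    (w.mono (Eventually.of_forall fun n v _ u => ?_))).mono (Eventually.of_forall hG)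
  · exact congrArg (·.2.2 1) ((fn_H (u.1.2 (a n)).2).2 x hx y hy e)
  · rw [abs_sub_comm]
    exact u.trans ((e₂ n).2.trans (div_le_div_of_nonneg_right
      (le_add_of_nonneg_right (s₃.pos n).le) (by positivity)))

theorem shP : ForS fun g M _ D X _ d _ a b k => ∀ c p : ℕ → ℕ, (∀ᶠ n in UF, c n ≤ a n) →
  Le M (fun n => p n) (fun n => d * c n) → ∃ (A : ∀ n, (X n).W → ℝ × ℝ × ℝ) (L : ℕ → ℝ),
    Sub M L ∧ (∀ᶠ n in UF, Fn (X n).Q (A n) fun v => ((mD X D n).S (c n) v, Gh D X b k n v)) ∧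
    Whp X.P fun n v => |(A n v).2.1| ≤ L n ∧ |(A n v).2.2| ≤ L n ∧
      |sh (Gh D X b k n v) ((X.G g n).pt v) - (A n v).1 - (A n v).2.1 * (X.G g n).z v -
        (A n v).2.2 * (X.G g n).pt v 0| ≤ L n / 2 ^ p n ∧
      |sh (Gh D X b k n v) ((X.G g n).e v) - (A n v).2.1 - (A n v).2.2 * (X.G g n).e v 0| ≤
        L n * 2 ^ c n / 2 ^ p n := by
  intro Ω K g M mm D η γ d ε₀ X a b k hT hγ hd hS c p hc hp
  have hC := hT.com X hS.mem
  have hF := hT.fl X hS.mem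
  have hM := hT.toTn.big
  have d0 : 0 ≤ d - γ := by linarith
  have g0 : 0 ≤ γ := by linarith
  have hcb := (hc.and hS.le).mono fun n u => u.1.trans u.2
  have oc := hS.om.mono hcb
  obtain ⟨L₁, s₁, w₁⟩ := hF.conv c b (fun n => ⌊(d - γ) * c n⌋₊) hS.om
    (hcb.mono fun n u => ⟨u, Nat.floor_le (by positivity)⟩)
  obtain ⟨L₂, s₂, e₂⟩ := sub_gap (q := fun n => ⌊(d - γ) * c n⌋₊) (τ := k) (hS.eq.2.of_sub
    (hc.mono fun n u => sub_le_sub_right ((Nat.floor_le (by positivity)).trans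
      (mul_le_mul_of_nonneg_left (Nat.cast_le.2 u) d0)) _)) (hM.sub le_rfl)
  obtain ⟨L₃, s₃, w₃⟩ := cell_near (hF.cellH hd.le) hM (by linarith) oc hp
  obtain ⟨L₄, s₄, w₄⟩ := cell_near (p := fun n => ⌊γ * c n⌋₊) hC.cellU hM g0 oc
    (Le.of_le fun n => Nat.floor_le (by positivity))
  obtain ⟨L₅, s₅, e₅⟩ := sub_gap (q := p) (τ := fun n => ⌊(d - γ) * c n⌋₊ + ⌊γ * c n⌋₊)
    (hp.of2 (hM.sm 2) (Eventually.of_forall fun n => by
      push_cast
      linarith [Nat.lt_floor_add_one ((d - γ) * c n), Nat.lt_floor_add_one (γ * c n)]))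
    ((s₁.add s₂ hM).mul s₄)
  refine ⟨fun n v =>
    (((mD X D n).H (c n) v).1 + (Gc (mD X D) c n v - Gh D X b k n v) * ((mD X D n).U (c n) v).1,
      ((mD X D n).H (c n) v).2.1 +
        (Gc (mD X D) c n v - Gh D X b k n v) * ((mD X D n).U (c n) v).2.1,
      ((mD X D n).H (c n) v).2.2 0 +
        (Gc (mD X D) c n v - Gh D X b k n v) * ((mD X D n).U (c n) v).2.2 0), _, s₃.add s₅ hM,
    hC.nest.mono fun n u x hx y hy e => ?_,
    ((w₁.and w₃).and w₄).mono (Eventually.of_forall fun n v _ u => ?_)⟩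
  · have e1 := fn_H (u.2 (c n)).2
    beta_reduce
    unfold Gc
    rw [e1.1 x hx y hy (congrArg Prod.fst e), e1.2 x hx y hy (congrArg Prod.fst e),
      show Gh D X b k n x = Gh D X b k n y from congrArg Prod.snd e]
  obtain ⟨⟨u1, a1, a2, a3, a4⟩, b1, b2, b3, b4⟩ := u
  have k1 : |Gc (mD X D) c n v - Gh D X b k n v| ≤ (L₁ n + L₂ n) / 2 ^ ⌊(d - γ) * c n⌋₊ := by
    rw [add_div]
    exact (abs_sub_le _ (Gc (mD X D) b n v) _).trans
      (add_le_add u1 ((U.abs_sub_rd _ _).trans (e₂ n).2))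
  have p1 := (s₁.add s₂ hM).pos n
  have k2 := k1.trans (div_le_self p1.le (one_le_pow₀ one_le_two))
  have k3 := (e₅ n).2
  rw [pow_add, ← div_mul_div_comm] at k3
  rw [sum01 fun i => (a2 i).2] at a3 a4
  rw [sum0 fun i => (b2 i).2] at b3 b4
  refine ⟨(abs_comb a1 k2 b1).trans (add_le_add le_rfl (e₅ n).1),
    (abs_comb (a2 0).1 k2 (b2 0).1).trans (add_le_add le_rfl (e₅ n).1), ?_, ?_⟩
  · rw [add_div]
    exact le_trans (le_of_eq (congrArg _ (by simp only [sh, Gc]; ring)))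
      ((abs_comb a3 k1 b3).trans (add_le_add le_rfl k3))
  · refine le_trans (le_of_eq (congrArg _ (by simp only [sh, Gc]; ring)))
      ((abs_comb a4 k1 b4).trans ?_)
    have := mul_le_mul_of_nonneg_right k3 (show (0 : ℝ) ≤ 2 ^ c n by positivity)
    calc _ = L₃ n * 2 ^ c n / 2 ^ p n + (L₁ n + L₂ n) / 2 ^ ⌊(d - γ) * c n⌋₊ *
          (L₄ n / 2 ^ ⌊γ * c n⌋₊) * 2 ^ c n := by ring
      _ ≤ L₃ n * 2 ^ c n / 2 ^ p n + L₅ n / 2 ^ p n * 2 ^ c n := add_le_add le_rfl this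
      _ = _ := by ring

theorem b1c : ForS fun g M _ D X γ d _ a b k => ∀ c p q' r : ℕ → ℕ, OM M r →
  (∀ᶠ n in UF, c n ≤ a n ∧ γ * c n ≤ p n ∧ p n ≤ r n ∧ q' n ≤ r n) →
  Le M (fun n => q' n) (fun n => d * c n) →
  Le M (fun n => (r n - p n : ℝ) * lg) fun n =>
    ch (X n).Q (fun v => fl1 (r n) ((X.G g n).pt v 1)) fun v =>
      (fl1 (p n) ((X.G g n).pt v 1), fl1 (q' n) (sh (Gh D X b k n v) ((X.G g n).pt v)),
        Gh D X b k n v, xz (X.G g n) (r n) v) := by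
  intro Ω K g M mm D η γ d ε₀ X a b k h h1 h2 s c p q' r hr e hq
  have big := h.toTn.big
  obtain ⟨L, hL, bd⟩ := gh_bd big s
  obtain ⟨L₀, s0, bx⟩ := h.toTn.bx s.mem
  have cb : ∀ᶠ n in UF, c n ≤ b n := (e.and s.le).mono fun _ u => u.1.1.trans u.2
  obtain ⟨A, L₁, s1, fA, w⟩ := shP h h1 h2 s c q'
    (e.mono fun _ u => u.1) hq
  refine ((h.com X s.mem).fbU _ _ c (s.om.mono cb)
    ((shL h h1 h2 s).1 c cb) p r r hr hr
    (e.mono fun _ u => ⟨u.2.1, u.2.2.1⟩)).trans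
    (ND.le (ND.of_fn (Eventually.of_forall fun n => Fn.fst _ _)) ?_)
  refine (ND.of_fn (Eventually.of_forall fun n => Fn.fst _ _)).pair (ND.pair ?_
    (ND.of_fn (Eventually.of_forall fun n x _ y _ w => ?_)))
  · refine ND.near (c := fun n ω => (A n ω).1 + (A n ω).2.1 * (X.G g n).z ω +
      (A n ω).2.2 * U.rd (r n) ((X.G g n).pt ω 0)) big
      (((hL.mul s0).mul s1).const_mul big (by norm_num : (1 : ℝ) ≤ 4))
      (hr.mono (e.mono fun _ u => u.2.2.2)) ?_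
      (w.mono (e.mono fun n u ω _ ⟨_, v2, v3, _⟩ => ?_))
    · filter_upwards [fA, bd, bx] with n u1 u2 u3
      refine ⟨fun x hx y hy t => ?_, fun ω hω => (abs_sub _ _).trans ?_⟩
      · simp only [Geo.zt, Prod.mk.injEq] at t
        simp only [U.rd, u1 x hx y hy (Prod.ext t.2.2.1.1 t.2.2.1.2), t.2.1, t.2.2.2.1]
      · have a1 := mul_le_mul (u2 ω hω) (abs_pt u3 hω 1) (abs_nonneg _) (hL.pos n).le
        have a2 := mul_le_mul_of_nonneg_right (hL.1 n) (s0.pos n).le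
        have a3 := mul_le_mul_of_nonneg_left (s1.1 n) (mul_pos (hL.pos n) (s0.pos n)).le
        rw [abs_mul]
        linarith [abs_pt u3 hω 2]
    · have a1 := mul_le_mul_of_nonneg_right ((hL.mul s0).1 n) (s1.pos n).le
      refine le_trans (le_of_eq (congrArg _ (by ring))) ((near_rd v3 v2 u.2.2.2).trans
        (div_le_div_of_nonneg_right (by linarith [s1.pos n]) (by positivity)))
  · simp only [xz, Prod.mk.injEq] at w ⊢
    tauto

theorem b1d : ForS fun g M _ D X γ _ ε₀ _ b k => ∀ q q' r : ℕ → ℕ, OM M r →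
  (∀ᶠ n in UF, q n ≤ q' n ∧ γ * q' n ≤ r n) →
  Le M (fun n =>
    ch (X n).Q (fun v => fl1 (q' n) (sh (Gh D X b k n v) ((X.G g n).pt v))) fun v =>
      (fl1 (q n) (sh (Gh D X b k n v) ((X.G g n).pt v)), fl1 (r n) ((X.G g n).pt v 1),
        Gh D X b k n v, xz (X.G g n) (r n) v)) fun n => (1 - ε₀) * (q' n - q n) * lg := by
  intro Ω K g M mm D η γ d ε₀ X a b k h h1 _ s q q' r hr e
  have big := h.toTn.big
  obtain ⟨L, hL, bd⟩ := gh_bd big s
  have qr : ∀ᶠ n in UF, q' n ≤ r n := e.mono fun n u => by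
    exact_mod_cast (le_mul_of_one_le_left (Nat.cast_nonneg (α := ℝ) (q' n)) h1.le).trans u.2
  refine (ND.le ?_ (ND.pair ?_ (ND.of_fn (Eventually.of_forall fun n x _ y _ w => ?_)))).trans
    ((h.fl X s.mem).ng q q' r hr e)
  · refine nd_sh (r := r) (fun n ω => (X.G g n).pt ω 2) (fun n ω => -Gh D X b k n ω)
      (fun n ω => (X.G g n).pt ω 1) big hL ?_
    filter_upwards [qr, bd] with n u1 u2
    refine ⟨u1, fun x _ y _ t => ?_, fun ω hω => ⟨by rw [abs_neg]; exact u2 ω hω, by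
      rw [sh]; ring⟩⟩
    simp only [Prod.mk.injEq, neg_inj] at t ⊢
    tauto
  · refine nd_sh (r := r) (fun n ω => sh (Gh D X b k n ω) ((X.G g n).pt ω)) (Gh D X b k)
      (fun n ω => (X.G g n).pt ω 1) big hL ?_
    filter_upwards [qr, bd, e] with n u1 u2 u3
    refine ⟨u3.1.trans u1, fun x _ y _ t => ?_, fun ω hω => ⟨u2 ω hω, by rw [sh]; ring⟩⟩
    simp only [Prod.mk.injEq] at t ⊢
    tauto
  · simp only [xz, Prod.mk.injEq] at w ⊢
    tauto

/-- The rate of the sheared coordinate given `u` at the depth of the cell. -/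
theorem ngS : ForS fun g M _ D X γ d ε₀ a b k => ∀ c p q q' r : ℕ → ℕ, OM M r →
    (∀ᶠ n in UF, c n ≤ a n ∧ γ * c n ≤ p n ∧ p n ≤ r n ∧ q n ≤ q' n ∧ γ * q' n ≤ r n) →
    Le M (fun n => q' n) (fun n => d * c n) →
    Le M (fun n =>
      ch (X n).Q (fun v => fl1 (q' n) (sh (Gh D X b k n v) ((X.G g n).pt v))) fun v =>
        (fl1 (q n) (sh (Gh D X b k n v) ((X.G g n).pt v)), fl1 (p n) ((X.G g n).pt v 1),
          Gh D X b k n v, xz (X.G g n) (r n) v)) fun n => (1 - ε₀) * (q' n - q n) * lg := by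
  intro Ω K g M mm D η γ d ε₀ X a b k h h1 h2 s c p q q' r hr e hq
  have qr : ∀ᶠ n in UF, q' n ≤ r n := e.mono fun n u => by
    exact_mod_cast (le_mul_of_one_le_left (Nat.cast_nonneg (α := ℝ) (q' n)) h1.le).trans u.2.2.2.2
  have a3 := b1c h h1 h2 s c p q' r hr
    ((e.and qr).mono fun n u => ⟨u.1.1, u.1.2.1, u.1.2.2.1, u.2⟩) hq
  have a4 := b1d h h1 h2 s q q' r hr (e.mono fun n u => u.2.2.2)
  refine Le.of_sub (a3.add a4) (e.mono fun n u => ?_)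
  have b1 := rowSwap (X n).Q (fun v => (X.G g n).pt v 1)
    (fun v => fl1 (q n) (sh (Gh D X b k n v) ((X.G g n).pt v)))
    (fun v => fl1 (q' n) (sh (Gh D X b k n v) ((X.G g n).pt v)))
    (fun v => (Gh D X b k n v, xz (X.G g n) (r n) v)) (p n) (r n) u.2.2.1
    fun _ _ _ _ e => fl1_eq_of_le u.2.2.2.1 e
  linarith

end Pool.Agent.MP_5168f5_an.R4.B2S
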