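import Pool.Agent.MP_5168f5_an.R4.ShE1
import Pool.Agent.MP_5168f5_an.R4.BCpL

/-! The slope of the sheared coordinate is determined by the cell and the base line. -/

namespace Pool.Agent.MP_5168f5_an.R4.B2S

open H19 H17S H17F Filter K31 Tan B1 BShLA BB1aA

section

variable {Ω : ℕ → Type} {K : Mb Ω → Prop} {g : Gs 3 Ω} {M mm : ℕ → ℕ} {D : ∀ n, Td (Ω n)}
  {η γ d ε₀ : ℝ} {T : Finset (Fin 3)} {X : Mb Ω} {a b k c : ℕ → ℕ}

/-- Removal of the height from the condition. -/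
theorem nd_drop (t : Tn K g M mm D η γ T) (hX : K X) (hc : OM M c) {α β : ℕ → Type}
    {F : ∀ n, (X n).W → α n} {W : ∀ n, (X n).W → β n}
    (h : ND X.P M F fun n v => ((X.G g n).z v, W n v))
    (e : ∀ᶠ n in UF, Fn (X n).Q ((mD X D n).S (c n)) (W n) ∧ Fn (X n).Q (fun v => (F n v, W n v))
      fun v => ((X.G g n).ln v, (mD X D n).S (c n) v)) : ND X.P M F W := by
  have i := le_up t.sm (kb.inf X.P (X.G g) mm c (fun n => (mD X D n).S (c n)) (t.low.bs X hX)
    ((t.com X hX).lab c hc).h)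
  refine Sm.mono (Sm.add h i) ?_
  filter_upwards [e, (t.com X hX).nest] with n u w
  refine (ch_le_mi (G := (X.G g n).z) (Fn.rfl _)).trans (add_le_add le_rfl ?_)
  rw [mi_symm]
  refine mi_right (Fn.trans (fun x hx y hy q => ?_) u.1)
    (fun x hx y hy q => congrArg Prod.snd (u.2 x hx y hy (congrArg Prod.fst q)))
    fun x hx y hy q => congrArg Prod.fst (u.2 x hx y hy (congrArg Prod.fst q))
  have := (w.2 (c n)).2 x hx y hy q
  simp only [Prod.mk.injEq] at this ⊢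
  exact ⟨this.2.1, this.1⟩

/-- Planarity for a variable `al + t sl` of the line in a context `Θ`. -/
theorem plz (t : Tn K g M mm D η γ T) (hX : K X) {β : ℕ → Type} (al sl : ∀ n, (X n).W → ℝ)
    (Θ : ∀ n, (X n).W → β n) {L : ℕ → ℝ} (hL : Sub M L) {q σ : ℕ → ℕ} {κ : ℝ} (hκ : 0 < κ)
    (he : 0 < ε₀) (ho : OM M fun n => q n + σ n)
    (e : ∀ᶠ n in UF, κ * M n ≤ σ n ∧ Fn (X n).Q (fun v => (al n v, sl n v, Θ n v)) (X.G g n).ln ∧
      Fn (X n).Q (X.G g n).θ (Θ n) ∧ ∀ v ∈ (X n).Q.S, |al n v| ≤ L n ∧ |sl n v| ≤ L n)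
    (ng : ∀ Y : Mb X.W, DnK X.P Y → ∀ i j : ℕ → ℕ, (∀ n, i n ≤ j n ∧ j n ≤ q n + σ n) →
      Le M (fun n => ch (Y n).Q (fun v => fl1 (j n) (al n ((Y n).ρ v) +
        (X.G g n).z ((Y n).ρ v) * sl n ((Y n).ρ v))) fun v => (fl1 (i n) (al n ((Y n).ρ v) +
          (X.G g n).z ((Y n).ρ v) * sl n ((Y n).ρ v)), (X.G g n).z ((Y n).ρ v), Θ n ((Y n).ρ v)))
        fun n => (1 - ε₀) * (j n - i n) * lg) :
    ND X.P M (fun n v => fl1 (q n) (sl n v)) fun n v =>
      (fl1 (q n + σ n) (al n v + (X.G g n).z v * sl n v), (X.G g n).z v, Θ n v) := by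
  obtain ⟨C, c0, c1, c2, c3⟩ := om_big ho
  have cp : (0 : ℝ) < C := by exact_mod_cast c0
  let R : ℕ → ℕ := fun n => max (C * M n) (q n + σ n)
  have eR : ∀ᶠ n in UF, R n = C * M n := c1.mono fun n u => max_eq_left u
  have r1 : ∀ᶠ n in UF, (M n : ℝ) ≤ 1 * R n := (eR.and c2).mono fun n u => by rw [u.1]; exact u.2
  have r2 : ∀ᶠ n in UF, (R n : ℝ) ≤ C * M n := (eR.and c3).mono fun n u => by rw [u.1]; exact u.2
  let g₁ : Gs 1 X.W := fun n => ⟨_, _, fun v _ => al n v, fun v _ => sl n v, (X.G g n).z, Θ n,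
    fun v => ((X.G g n).z v, Θ n v)⟩
  have key := pl (DnK X.P) g₁ R (fun _ => 0) (fun n => q n + σ n) q σ 0 ε₀ (Mb.base X.P)
    (cl0_dnK _) (fun Y hY => ?_) (dnK_base _) he
    ⟨fun n => (Nat.le_add_left _ _).trans (le_max_right _ _), κ / C, by positivity,
      (e.and r2).mono fun n u => by
        have := mul_le_mul_of_nonneg_left u.2 (show 0 ≤ κ / C by positivity)
        rw [← mul_assoc, div_mul_cancel₀ _ cp.ne'] at this
        exact this.trans u.1.1⟩
    (fun n => ⟨Nat.zero_le _, le_rfl, le_max_right _ _⟩)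
    fun Y hY i j hij => le_unit r1 (ng Y hY i j fun n => (hij n).2)
  · refine ND.cut (ND.sure (x := sl) (c := fun _ _ => 0) (j := fun _ => 0) t.big hL
      (e.mono fun n u => ⟨fun _ _ _ _ _ => rfl, fun v hv => by simpa using (u.2.2.2 v hv).2⟩))
      (le_unit r2 key)
  · have bs := (t.cls C c0).bs _ (t.cl.toCl0.dnK hX hY)
    obtain ⟨L', -, bx⟩ := bs.bx
    obtain ⟨C', -, dn⟩ := hY
    have b1 := rowBsD Y.P ((Y.map fun n => (X n).ρ).G g) (Y.G g₁) (fun n => C * M n)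
      (fun n => C * M n) L 1 bs one_pos (sub_unit c2 hL) (by
        filter_upwards [e, bx, dn] with n u w y
        refine ⟨(one_mul _).le, le_rfl, ⟨fun v hv => ⟨fun _ => u.2.2.2 _ (y.mem hv),
          (w.bd v hv).2⟩, Fn.fst _ _, Fn.snd _ _⟩, fun _ _ => rfl, fun x hx z hz p => ?_,
          y.fn u.2.2.1⟩
        have := u.2.1 _ (y.mem hx) _ (y.mem hz) p
        simp only [Prod.mk.injEq] at this
        simp only [Geo.ln, g₁, this.1, this.2.1, this.2.2])
    exact ⟨big_unit r1 t.big, b1.bx.imp fun _ u => ⟨sub_unit (C := 1) (eR.mono fun n v => by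
        rw [v, one_mul]) u.1, u.2⟩,
      le_unit (C := 1) (eR.mono fun n v => by rw [v, one_mul]) b1.inf,
      (le_unit (C := 1) (eR.mono fun n v => by rw [v, one_mul]) b1.hgt).of_sub
        (eR.mono fun n v => by rw [v])⟩

theorem sh_dn (cl : Cl0 K) (s : Sh K g M D X γ d a b k) {Y : Mb X.W} (hY : DnK X.P Y) :
    Sh K g M D (Y.map fun n => (X n).ρ) γ d a b k := by
  refine ⟨cl.dnK s.mem hY, s.om, s.le, s.eq, ?_, ?_⟩
  · obtain ⟨C, -, dn⟩ := hY
    filter_upwards [dn, s.fn] with n u w using u.fn w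
  · obtain ⟨C, -, dn⟩ := hY
    obtain ⟨L, hL, e⟩ := s.bd
    exact ⟨L, hL, by filter_upwards [dn, e] with n u w v hv using w _ (u.mem hv)⟩

theorem sh_pt {W : Type} (g : Geo 3 W) (G : ℝ) (v : W) :
    sh G (g.a v) + g.z v * sh G (g.e v) = sh G (g.pt v) := by
  simp only [sh, Geo.pt, Geo.lt, Pi.add_apply, Pi.smul_apply, smul_eq_mul]; ring

theorem pt_eq {W : Type} (g : Geo 3 W) (v : W) (i : Fin 3) : g.pt v i = g.a v i + g.z v * g.e v i :=
  rfl

theorem abs_z {W : Type} {P : FP W} {g : Geo 3 W} {L : ℝ} (h : g.Bx P L) :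
    ∀ v ∈ P.S, |g.z v| ≤ 1 := fun v hv => abs_le.2 ⟨by linarith [(h.bd v hv).2.1], (h.bd v hv).2.2.le⟩

theorem gh_fn (s : Sh K g M D X γ d a b k) : ∀ᶠ n in UF, Fn (X n).Q (Gh D X b k n) (X.G g n).ln :=
  s.fn.mono fun n u x hx y hy e => by simp only [Gh, U.rd, u x hx y hy e]

theorem sh_bd (hM : Big M) (s : Sh K g M D X γ d a b k) {L : ℕ → ℝ} (hL : Sub M L)
    (bx : ∀ᶠ n in UF, (X.G g n).Bx (X n).Q (L n)) : ∃ L', Sub M L' ∧ ∀ᶠ n in UF, ∀ v ∈ (X n).Q.S,
      |sh (Gh D X b k n v) ((X.G g n).a v)| ≤ L' n ∧ |sh (Gh D X b k n v) ((X.G g n).e v)| ≤ L' n := by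
  obtain ⟨L₁, s1, e⟩ := gh_bd hM s
  refine ⟨_, hL.add (s1.mul hL) hM, ?_⟩
  filter_upwards [e, bx] with n u w v hv
  have k : ∀ p : V 3, (∀ i, |p i| ≤ L n) → |sh (Gh D X b k n v) p| ≤ L n + L₁ n * L n := fun p h =>
    (abs_sub _ _).trans (add_le_add (h 2) (by
      rw [abs_mul]; exact mul_le_mul (u v hv) (h 1) (abs_nonneg _) (s1.pos n).le))
  exact ⟨k _ fun i => ((w.bd v hv).1 i).1, k _ fun i => ((w.bd v hv).1 i).2⟩

/-- The slope of the sheared coordinate is determined. -/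
theorem shNil (t : T2 K g M mm D η γ d ε₀) (h1 : 1 < γ) (h2 : γ < d) (nil : NilK K g M 1 γ)
    (s : Sh K g M D X γ d a b k) {q σ p r : ℕ → ℕ} {κ : ℝ} (hκ : 0 < κ) (hr : OM M r)
    (e : ∀ᶠ n in UF, c n ≤ a n ∧ κ * M n ≤ σ n ∧ γ * c n ≤ p n ∧ p n ≤ r n ∧
      (p n : ℝ) ≤ (γ - 1) * r n ∧ γ * (q n + σ n : ℕ) ≤ r n)
    (hp : Le M (fun n => p n) fun n => γ * c n)
    (hq : Le M (fun n => (q n + σ n : ℕ)) fun n => d * c n) :
    ND X.P M (fun n v => fl1 (q n) (sh (Gh D X b k n v) ((X.G g n).e v))) fun n v =>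
      ((mD X D n).S (c n) v, Gh D X b k n v, bl (X.G g n) (r n) v) := by
  have hM := t.toTn.big
  obtain ⟨L₀, s0, bx⟩ := t.toTn.bx s.mem
  obtain ⟨L, hL, bd⟩ := sh_bd hM s s0 bx
  have com := t.com X s.mem
  have qr : ∀ᶠ n in UF, q n + σ n ≤ r n := e.mono fun n u => by
    exact_mod_cast (le_mul_of_one_le_left (Nat.cast_nonneg (α := ℝ) (q n + σ n)) h1.le).trans
      u.2.2.2.2.2
  have oc : OM M c := s.om.mono ((e.and s.le).mono fun n u => u.1.1.trans u.2)
  have k1 := plz (ε₀ := ε₀) t.toTn s.mem (fun n v => sh (Gh D X b k n v) ((X.G g n).a v))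
    (fun n v => sh (Gh D X b k n v) ((X.G g n).e v))
    (fun n v => (bl (X.G g n) (r n) v, fl1 (p n) ((X.G g n).a v 1), fl1 (p n) ((X.G g n).e v 1),
      Gh D X b k n v, (X.G g n).θ v)) hL (q := q) (σ := σ) hκ t.e0.1 (hr.mono qr) (by
      filter_upwards [e, gh_fn s, bd] with n u w y
      refine ⟨u.2.1, fun x hx z hz v => ?_, fun x _ z _ v => congrArg (·.2.2.2.2) v, y⟩
      have v1 := w x hx z hz v
      simp only [Geo.ln, Prod.mk.injEq] at v
      simp only [bl, v1, v.1, v.2.1, v.2.2]) fun Y hY i j hij => by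
    have s' := sh_dn t.cl.toCl0 s hY
    obtain ⟨L', -, bx'⟩ := t.toTn.bx s'.mem
    simp only [sh_pt]
    refine (ND.le (ND.of_fn (Eventually.of_forall fun n => Fn.fst _ _)) ?_).trans
      (ngS t h1 h2 s' c p i j r hr (e.mono fun n u => ⟨u.1, u.2.2.1, u.2.2.2.1, (hij n).1,
        le_trans (mul_le_mul_of_nonneg_left (by exact_mod_cast (hij n).2) (by linarith))
          u.2.2.2.2.2⟩)
        ((Le.of_le fun n => by exact_mod_cast (hij n).2).trans hq))
    refine (ND.of_fn (Eventually.of_forall fun n => Fn.fst _ _)).pair (ND.pair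
      (nd_pt hM (bx'.mono fun n u => ⟨fun x _ y _ w => ?_, abs_z u⟩))
      ((ND.of_fn (Eventually.of_forall fun n x _ y _ w => ?_)).pair (ND.pair
        (nd_pt hM (bx'.mono fun n u => ⟨fun x _ y _ w => ?_, abs_z u⟩))
        (ND.of_fn (Eventually.of_forall fun n x _ y _ w => ?_)))))
    all_goals
      simp only [bl, Geo.zt, Prod.mk.injEq] at w ⊢
      tauto
  simp only [sh_pt] at k1
  refine nd_drop t.toTn s.mem oc (k1.trans ?_) (by
    filter_upwards [gh_fn s] with n w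
    refine ⟨Fn.fst _ _, fun x hx z hz v => ?_⟩
    have v1 := w x hx z hz (congrArg Prod.fst v)
    simp only [Geo.ln, Prod.mk.injEq] at v
    simp only [bl, v1, v.1.1, v.1.2.1, v.2])
  have th : ∀ᶠ n in UF, Fn (X n).Q (X.G g n).θ ((mD X D n).S (c n)) :=
    com.nest.mono fun n u x hx y hy w => congrArg Prod.fst ((u.2 (c n)).2 x hx y hy w)
  have nx : ND X.P M (fun n v => fl1 (r n) ((X.G g n).pt v 0)) fun n v => ((X.G g n).z v,
      (mD X D n).S (c n) v, Gh D X b k n v, bl (X.G g n) (r n) v) :=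
    nd_pt hM (bx.mono fun n u => ⟨fun x _ y _ w => by
      simp only [bl, Prod.mk.injEq] at w ⊢
      tauto, abs_z u⟩)
  have ne := (show ND X.P M _ _ from nil X s.mem p r hr
    (e.mono fun n u => ⟨u.2.2.2.1, u.2.2.2.2.1⟩)).anti (G' := fun n v => ((X.G g n).z v,
      (mD X D n).S (c n) v, Gh D X b k n v, bl (X.G g n) (r n) v)) (th.mono fun n u x hx y hy w =>
      Prod.ext (congrArg (·.2.2.2) w) (u x hx y hy (congrArg (·.2.1) w)))
  have nu : ND X.P M (fun n v => fl1 (p n) ((X.G g n).pt v 1)) fun n v => ((X.G g n).z v,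
      (mD X D n).S (c n) v, Gh D X b k n v, bl (X.G g n) (r n) v) :=
    nx.cut (cell0_pt com.cellU hM (by linarith) oc hr hp s0 (by
      filter_upwards [e, bx, com.nest] with n u w y
      refine ⟨u.2.2.2.1, w, fun x hx z hz v => ?_⟩
      have y0 := (fn_H (D := mD X D n) (y.2 (c n)).2).1
      have y1 := y0 x hx z hz (congrArg (·.2.2.1) v)
      exact Prod.ext y1 (Prod.ext (congrArg (·.1) v) (congrArg (·.2.1) v))))
  have na : ND X.P M (fun n v => fl1 (p n) ((X.G g n).a v 1)) fun n v => ((X.G g n).z v,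
      (mD X D n).S (c n) v, Gh D X b k n v, bl (X.G g n) (r n) v) := by
    refine (nu.pair ne).cut ((nd_pt (a := fun n v => (X.G g n).pt v 1)
      (e := fun n v => (X.G g n).e v 1) (z := fun n v => -(X.G g n).z v) (r := p) hM
      (bx.mono fun n u => ⟨fun x _ y _ w => ?_, fun v hv => by
        rw [abs_neg]; exact abs_z u v hv⟩)).mono
      (Eventually.of_forall fun n x _ y _ w => ?_))
    · simp only [Prod.mk.injEq, neg_inj] at w ⊢
      tauto
    · simpa only [pt_eq, neg_mul, add_neg_cancel_right] using w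
  obtain ⟨A, L₁, s1, fA, w⟩ := shP t h1 h2 s c (fun n => q n + σ n) (e.mono fun _ u => u.1) hq
  refine ND.pair (nx.cut ?_) ((ND.of_fn (Eventually.of_forall fun n => Fn.fst _ _)).pair
    ((ND.of_fn (Eventually.of_forall fun n x _ y _ w => congrArg (·.2.2.2) w)).pair (na.pair
      (ne.pair (ND.of_fn (th.mono fun n u x hx y hy w => Prod.ext (congrArg (·.2.2.1) w)
        (u x hx y hy (congrArg (·.2.1) w))))))))
  refine ND.near (x := fun n ω => sh (Gh D X b k n ω) ((X.G g n).pt ω))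
    (c := fun n ω => (A n ω).1 + (A n ω).2.1 * (X.G g n).z ω +
    (A n ω).2.2 * U.rd (r n) ((X.G g n).pt ω 0)) hM
    ((hL.add s1 hM).const_mul hM one_le_two) (hr.mono qr) ?_
    (w.mono (qr.mono fun n u ω _ ⟨_, v2, v3, _⟩ => ?_))
  · filter_upwards [fA, bd, bx] with n u1 u2 u3
    refine ⟨fun x hx y hy t => ?_, fun ω hω => ?_⟩
    · simp only [Prod.mk.injEq] at t
      simp only [U.rd, u1 x hx y hy (Prod.ext t.2.2.1 t.2.2.2.1), t.1, t.2.1]
    · rw [← sh_pt]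
      have := abs_comb (u2 ω hω).1 (abs_z u3 ω hω) (u2 ω hω).2
      linarith [s1.pos n]
  · refine le_trans (le_of_eq (congrArg _ (by ring))) ((near_rd v3 v2 u).trans
      (div_le_div_of_nonneg_right (by linarith [hL.pos n]) (by positivity)))

end

end Pool.Agent.MP_5168f5_an.R4.B2S
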