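import Pool.Agent.MP_5168f5_an.R4.SpecAlg

/-! Curves of degree two over lines in a base of dimension three: the potential. -/

namespace Pool.Agent.MP_5168f5_an.R4.Web

open H19 H17S H17F Filter NCx Matrix

/-- Rounding at resolution `2^{-M}`. -/
noncomputable def rd (M : ℕ) (x : ℝ) : ℝ := (fl1 M x : ℝ) / 2 ^ M

/-- A curve of degree two over a line, and a height. -/
structure Cv : Type where
  a : V 2
  e : V 2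
  p : Fin 3 → ℝ
  t : ℝ

namespace Cv

variable (c : Cv)

/-- The base point at height `s`. -/
def z (s : ℝ) : V 3 := ![s, c.a 0 + s * c.e 0, c.a 1 + s * c.e 1]

/-- The fibre coordinate at height `s`. -/
def f (s : ℝ) : ℝ := c.p 0 + c.p 1 * s + c.p 2 * s ^ 2

/-- The base point. -/
def pt : V 3 := c.z c.t

/-- The fibre coordinate. -/
def φ : ℝ := c.f c.t

/-- The curve. -/
def crv : V 2 × V 2 × (Fin 3 → ℝ) := (c.a, c.e, c.p)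

/-- The rounded direction. -/
noncomputable def dr (M : ℕ) : V 3 := ![1, rd M (c.e 0), rd M (c.e 1)]

/-- Bounds. -/
def Bd (L : ℝ) : Prop :=
  (∀ i, |c.a i| ≤ L ∧ |c.e i| ≤ L) ∧ (∀ j, |c.p j| ≤ L) ∧ 0 ≤ c.t ∧ c.t < 1

/-- `Ψ` is a potential along the curve up to `ε`. -/
def Fits (Ψ : V 3 → ℝ) (ε : ℝ) : Prop :=
  ∀ s, 0 ≤ s → s ≤ 1 → |c.f s - Ψ (c.z s) - (c.f 0 - Ψ (c.z 0))| ≤ ε

end Cv

/-- Matrices. -/
abbrev M3 : Type := Matrix (Fin 3) (Fin 3) ℝ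

/-- The polynomial with data `p` over the quadratic form `q`. -/
def psi (p : Pq) (q : M3) (z : V 3) : ℝ := pq p z (z ⬝ᵥ q *ᵥ z)

/-- Polynomial functions of degree at most `d`. -/
def P1 (d : ℕ) (f : ℝ → ℝ) : Prop := ∃ c : Fin (d + 1) → ℝ, ∀ s, f s = ∑ j, c j * s ^ (j : ℕ)

/-- Polynomial functions of degree at most `d` in each variable. -/
def P3 (d : ℕ) (F : V 3 → ℝ) : Prop := ∀ i z, P1 d fun s => F (Function.update z i s)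

section Star

variable {Ω T : Type}

/-- Three copies given `S`. -/
noncomputable def G3 (P : FP Ω) (S : Ω → T) : FP ((Ω × Ω) × Ω) :=
  glue (glue P P S S) P (fun v => S v.1) S

/-- Four copies given `S`. -/
noncomputable def G4 (P : FP Ω) (S : Ω → T) : FP (((Ω × Ω) × Ω) × Ω) :=
  glue (G3 P S) P (fun v => S v.1.1) S

/-- The copy number `i`. -/
def sl (i : Fin 3) (v : (Ω × Ω) × Ω) : Ω := ![v.1.1, v.1.2, v.2] i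

variable (M : ℕ) (γ : Ω → Cv)

/-- The three types. -/
noncomputable def ty (v : (Ω × Ω) × Ω) : Fin 3 → Z 2 := fun i => fl M (γ (sl i v)).e

/-- The frame. -/
noncomputable def fm (v : (Ω × Ω) × Ω) : M3 :=
  frm ((γ v.1.1).dr M) ((γ v.1.2).dr M) ((γ v.2).dr M)

/-- The frame is not degenerate. -/
def gd (L : ℝ) (v : (Ω × Ω) × Ω) : Prop :=
  1 ≤ L * |det3 ((γ v.1.1).dr M) ((γ v.1.2).dr M) ((γ v.2).dr M)|

/-- The coordinates of the point in the frame. -/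
noncomputable def xc (i : Fin 3) (v : (Ω × Ω) × Ω) : ℝ :=
  rd M (((fm M γ v)⁻¹ *ᵥ (γ v.1.1).pt) i)

/-- The direction of the fourth copy in the frame. -/
noncomputable def v4 (v : ((Ω × Ω) × Ω) × Ω) : V 3 := (fm M γ v.1)⁻¹ *ᵥ (γ v.2).dr M

/-- `ω i` are conditionally independent copies given `S`. -/
def Cop {W ι : Type} [Fintype ι] (P : FP Ω) (S : Ω → T) (Q : FP W) (ω : ι → W → Ω) : Prop :=
  ∀ F : ι → Ω → ℝ,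
    Q.E (fun v => ∏ i, F i (ω i v)) = P.E fun x => ∏ i, (cv P S (S x)).E (F i)

end Star

section Seq

variable {Ω T U Λ : ℕ → Type} (P : ∀ n, FP (Ω n)) (γ : ∀ n, Ω n → Cv) (θ : ∀ n, Ω n → T n)
  (S : ∀ n, Ω n → U n) (l : ∀ n, Ω n → Λ n) (M R : ℕ → ℕ)

/-- Curves `γ` in the cell `θ`; `S` is a small cell and `l` is the line. -/
structure AS (ε₀ : ℝ) : Prop where
  big : Big M
  frac : Frac R M
  pos : 0 < ε₀
  le : ε₀ ≤ 1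
  bd : ∃ L, Sub M L ∧ ∀ᶠ n in UF, (∀ ω ∈ (P n).S, (γ n ω).Bd (L n)) ∧ Fn (P n) (θ n) (S n) ∧
    Fn (P n) (fun ω => (γ n ω).crv) (fun ω => (l n ω, θ n ω)) ∧
    (∀ i, Near (P n) (S n) (fun ω => (γ n ω).pt i) (L n / 2 ^ M n)) ∧
    Near (P n) (S n) (fun ω => (γ n ω).φ) (L n / 2 ^ R n)
  hgt : Ful P (fun n ω => (γ n ω).t) (fun n ω => (l n ω, θ n ω)) M
  typ : Sm M fun n => mi (P n) (fun ω => fl (M n) (γ n ω).e) (S n) (θ n)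
  ng : NG1 P (fun n ω => (fl (M n) (γ n ω).pt, θ n ω)) (fun n ω => (γ n ω).φ) R ε₀
  sv : Sm M fun n => ch (P n) (fun ω => (fl1 (R n) ((γ n ω).p 1), fl1 (R n) ((γ n ω).p 2)))
    fun ω => (fl (M n) (γ n ω).a, fl (M n) (γ n ω).e, θ n ω)
  cp : ∃ L, Sub M L ∧ Whp (fun n => G3 (P n) (S n)) fun n => gd (M n) (γ n) (L n)

/-- The curves are lines. -/
def Flat : Prop := ∀ᶠ n in UF, ∀ ω ∈ (P n).S, (γ n ω).p 2 = 0

/-- The directions lie on the conic `q`. -/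
def Curv (q : ∀ n, Ω n → M3) : Prop := ∃ L, Sub M L ∧
  (∀ᶠ n in UF, Fn (P n) (q n) (θ n) ∧ ∀ ω ∈ (P n).S,
    (∀ i j, |q n ω i j| ≤ L n ∧ q n ω i j = q n ω j i) ∧ ∃ i j, 1 ≤ L n * |q n ω i j|) ∧
  Whp P fun n ω => |(γ n ω).dr (M n) ⬝ᵥ q n ω *ᵥ (γ n ω).dr (M n)| ≤ L n / 2 ^ R n

/-- The flat case or the curved case. -/
def Kind (q : ∀ n, Ω n → M3) : Prop := (Flat P γ ∧ q = fun _ _ => 0) ∨ Curv P γ θ M R q

/-- A potential that is a function of the small cell. -/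
structure Po (q : ∀ n, Ω n → M3) (p : ∀ n, Ω n → Pq) (L : ℕ → ℝ) (k : ℕ → ℕ) : Prop where
  frac : Frac k R
  sub : Sub M L
  alg : ∀ᶠ n in UF, Fn (P n) (p n) (S n) ∧
    ∀ ω ∈ (P n).S, (p n ω).Bd (L n) ∧ (q n ω = 0 → (p n ω).2.2.2 = (0, 0))
  sm : Sm M fun n => ch (P n) (p n) (θ n)
  fit : Whp P fun n ω => (γ n ω).Fits (psi (p n ω) (q n ω)) (L n / 2 ^ k n)

/-- The web of three copies on the event that the frame is not degenerate. -/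
def StarO (ε₀ : ℝ) (L : ℕ → ℝ) : Prop := ∃ u α : Fin 3 → RV fun n => (Ω n × Ω n) × Ω n,
  W3 (fun n => cE (G3 (P n) (S n)) (gd (M n) (γ n) (L n)))
    (fun n v => (ty (M n) (γ n) v, θ n v.1.1)) (fun n => xc (M n) (γ n) 0)
    (fun n => xc (M n) (γ n) 1) (fun n => xc (M n) (γ n) 2) (fun n v => (γ n v.1.1).φ)
    (u 0) (α 0) (fun n v => rd (R n) ((γ n v.1.1).p 2)) (u 1) (α 1)
    (fun n v => rd (R n) ((γ n v.1.2).p 2)) (u 2) (α 2) (fun n v => rd (R n) ((γ n v.2).p 2))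
    M R ε₀ ∧
  ∀ i : Fin 3, Ful (fun n => cE (G3 (P n) (S n)) (gd (M n) (γ n) (L n)))
    (fun n => xc (M n) (γ n) i) (fun n v => (l n (sl i v), xc (M n) (γ n) (i + 1) v,
      xc (M n) (γ n) (i + 2) v, ty (M n) (γ n) v, θ n v.1.1)) M

/-- A potential in the frame of three copies. -/
structure Fr (C : ∀ n, (Ω n × Ω n) × Ω n → Arr) (L : ℕ → ℝ) (k : ℕ → ℕ) : Prop where
  frac : Frac k R
  sub : Sub M L
  bd : ∀ n v i j m, |C n v i j m| ≤ L n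
  sm : Sm M fun n => ch (G3 (P n) (S n)) (C n) fun v => (ty (M n) (γ n) v, θ n v.1.1)
  fit : Whp (fun n => G4 (P n) (S n)) fun n v =>
    (γ n v.2).Fits (fun z => tv (C n v.1) ((fm (M n) (γ n) v.1)⁻¹ *ᵥ z)) (L n / 2 ^ k n)
  d3 : Whp (fun n => G4 (P n) (S n)) fun n v => ∀ i j m, |dV (v4 (M n) (γ n) v)
    (dV (v4 (M n) (γ n) v) (dV (v4 (M n) (γ n) v) (C n v.1))) i j m| ≤ L n / 2 ^ k n
  d2 : Flat P γ → Whp (fun n => G4 (P n) (S n)) fun n v =>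
    (∀ i j m, |dV (v4 (M n) (γ n) v) (dV (v4 (M n) (γ n) v) (C n v.1)) i j m| ≤ L n / 2 ^ k n) ∧
    ∀ i j, |C n v.1 2 i j| ≤ L n / 2 ^ k n ∧ |C n v.1 i 2 j| ≤ L n / 2 ^ k n ∧
      |C n v.1 i j 2| ≤ L n / 2 ^ k n

end Seq

/-! ### Deterministic facts -/

/-- Coefficients are bounded by the values at the nodes. -/
def PC : Prop := ∀ d : ℕ, ∃ K : ℝ, 1 ≤ K ∧ ∀ (c : Fin (d + 1) → ℝ) (ε : ℝ),
  (∀ a : Fin (d + 1), |∑ j, c j * (((a : ℕ) : ℝ) / (d + 1)) ^ (j : ℕ)| ≤ ε) → ∀ j, |c j| ≤ K * ε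

/-- Bounds for the polynomials `tv` and `psi`. -/
structure KD : Prop where
  tv3 : ∀ C, P3 2 (tv C)
  tv1 : ∀ C (x v : V 3), P1 6 fun s => tv C (x + s • v)
  ps3 : ∀ p q, P3 4 (psi p q)
  dv : ∀ (L : ℝ) (v : V 3) (C : Arr), (∀ i, |v i| ≤ L) → (∀ i j m, |C i j m| ≤ L) →
    ∀ i j m, |dV v C i j m| ≤ 6 * L ^ 2
  arr : ∃ K : ℝ, 1 ≤ K ∧ ∀ (C : Arr) (ε : ℝ), (∀ z : V 3, (∀ i, |z i| ≤ 1) → |tv C z| ≤ ε) →
    ∀ i j m, |C i j m| ≤ K * ε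
  tvl : ∃ K : ℝ, 1 ≤ K ∧ ∀ (L δ : ℝ) (C : Arr) (x y : V 3), 1 ≤ L → (∀ i j m, |C i j m| ≤ L) →
    (∀ i, |x i| ≤ L ∧ |y i| ≤ L ∧ |x i - y i| ≤ δ) →
    |tv C x| ≤ K * L ^ 7 ∧ |tv C x - tv C y| ≤ K * L ^ 7 * δ
  psl : ∃ K : ℝ, 1 ≤ K ∧ ∀ (L δ : ℝ) (p : Pq) (q : M3) (x y : V 3), 1 ≤ L → p.Bd L →
    (∀ i j, |q i j| ≤ L) → (∀ i, |x i| ≤ L ∧ |y i| ≤ L ∧ |x i - y i| ≤ δ) →
    |psi p q x| ≤ K * L ^ 7 ∧ |psi p q x - psi p q y| ≤ K * L ^ 7 * δ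
  inv : ∀ (L : ℝ) (a b c : V 3), 1 ≤ L → (∀ i, |a i| ≤ L ∧ |b i| ≤ L ∧ |c i| ≤ L) →
    1 ≤ L * |det3 a b c| → (frm a b c).det ≠ 0 ∧ ∀ i j, |(frm a b c)⁻¹ i j| ≤ 2 * L ^ 3

/-- Copies. -/
structure KCop : Prop where
  ex : ∀ {Ω T : Type} (ι : Type) [Fintype ι] (P : FP Ω) (S : Ω → T),
    ∃ (W : Type) (Q : FP W) (ω : ι → W → Ω), Cop P S Q ω
  sub : ∀ {Ω T W ι ι' : Type} [Fintype ι] [Fintype ι'] (P : FP Ω) (S : Ω → T) (Q : FP W)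
    (ω : ι → W → Ω) (σ : ι' → ι), Function.Injective σ → Cop P S Q ω → Cop P S Q fun i => ω (σ i)
  law : ∀ {Ω T W W' ι : Type} [Fintype ι] (P : FP Ω) (S : Ω → T) (Q : FP W) (Q' : FP W')
    (ω : ι → W → Ω) (ω' : ι → W' → Ω), Cop P S Q ω → Cop P S Q' ω' →
    Law Q (fun v i => ω i v) Q' fun v i => ω' i v
  g3 : ∀ {Ω T : Type} (P : FP Ω) (S : Ω → T), Cop P S (G3 P S) sl
  g4 : ∀ {Ω T : Type} (P : FP Ω) (S : Ω → T),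
    Cop P S (G4 P S) ![fun v => v.1.1.1, fun v => v.1.1.2, fun v => v.1.2, fun v => v.2]

/-! ### Polynomials at a full point of dimension three -/

def Spr3 : Prop := ∀ (d : ℕ) {Ω Γ : ℕ → Type} (P : ∀ n, FP (Ω n)) (x y z : RV Ω)
  (G : ∀ n, Ω n → Γ n) (F : ∀ n, Ω n → V 3 → ℝ) (M : ℕ → ℕ), Big M → Grid P x M → Grid P y M →
  Grid P z M → Ful P x (fun n ω => (y n ω, z n ω, G n ω)) M →
  Ful P y (fun n ω => (z n ω, x n ω, G n ω)) M → Ful P z (fun n ω => (x n ω, y n ω, G n ω)) M →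
  (∀ᶠ n in UF, Fn (P n) (F n) (G n) ∧ ∀ ω ∈ (P n).S, P3 d (F n ω)) →
  ∃ L', Sub M L' ∧ Whp P fun n ω => ∀ w : V 3, (∀ i, |w i| ≤ 1) →
    |F n ω w| ≤ L' n * |F n ω ![x n ω, y n ω, z n ω]|

def Con3 : Prop := ∀ (d : ℕ) {Ω Γ T : ℕ → Type} (P : ∀ n, FP (Ω n)) (u x y z : RV Ω)
  (Θ : ∀ n, Ω n → T n) (G : ∀ n, Ω n → Γ n) (F : ∀ n, Ω n → V 3 → ℝ) (M R k : ℕ → ℕ)
  (L : ℕ → ℝ) (ε₀ : ℝ), Big M → Frac R M → (∀ n, k n ≤ R n) → Sub M L → 0 < ε₀ →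
  NG1 P Θ u R ε₀ → Grid P x M → Grid P y M → Grid P z M →
  Ful P x (fun n ω => (y n ω, z n ω, G n ω)) M → Ful P y (fun n ω => (z n ω, x n ω, G n ω)) M →
  Ful P z (fun n ω => (x n ω, y n ω, G n ω)) M →
  (∀ᶠ n in UF, Fn (P n) (F n) (G n) ∧ Fn (P n) (Θ n) (G n) ∧ ∀ ω ∈ (P n).S, P3 d (F n ω)) →
  Whp P (fun n ω => |u n ω - F n ω ![x n ω, y n ω, z n ω]| ≤ L n / 2 ^ k n ∧
    ∀ w : V 3, (∀ i, |w i| ≤ 1) → |F n ω w - F n ω 0| ≤ L n) →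
  ∃ L', Sub M L' ∧ Whp P fun n ω => ∀ w : V 3, (∀ i, |w i| ≤ 1) →
    |F n ω w - F n ω 0| ≤ L' n / 2 ^ k n

/-- A variable attached to `S` is replaced by a function of `S`. -/
def Der : Prop := ∀ {Ω W T U D : ℕ → Type} [∀ n, Nonempty (D n)] (P : ∀ n, FP (Ω n))
  (Q : ∀ n, FP (W n)) (θ : ∀ n, Ω n → T n) (S : ∀ n, Ω n → U n) (π : ∀ n, W n → Ω n)
  (C : ∀ n, W n → D n) (Φ : ∀ n, D n → Ω n → Prop) (M : ℕ → ℕ), Big M →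
  (∀ n, Law (Q n) (π n) (P n) id) → (∀ᶠ n in UF, Fn (P n) (θ n) (S n)) →
  (Sm M fun n => mi (Q n) (C n) (fun v => S n (π n v)) fun v => θ n (π n v)) →
  Whp (fun n => glue (Q n) (P n) (fun v => S n (π n v)) (S n)) (fun n v => Φ n (C n v.1) v.2) →
  ∃ C' : ∀ n, Ω n → D n, (∀ᶠ n in UF, Fn (P n) (C' n) (S n)) ∧
    Sm M (fun n => ch (P n) (C' n) (θ n)) ∧ Whp P fun n ω => Φ n (C' n ω) ω

/-! ### The web of three copies -/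

/-- One line of a frame. -/
def LnOf : Prop := ∀ {W T Λ : ℕ → Type} (Q : ∀ n, FP (W n)) (γ : ∀ n, W n → Cv)
  (l : ∀ n, W n → Λ n) (Θ : ∀ n, W n → T n) (B : ∀ n, W n → M3) (z₀ : ∀ n, W n → V 3)
  (φ₀ : RV W) (i : Fin 3) (M R : ℕ → ℕ) (L : ℕ → ℝ), Big M → Frac R M → Sub M L →
  (∀ᶠ n in UF, Fn (Q n) (B n) (Θ n) ∧
    Fn (Q n) (fun v => (γ n v).crv) (fun v => (l n v, Θ n v)) ∧ ∀ v ∈ (Q n).S,
      (γ n v).Bd (L n) ∧ (∀ j, B n v j i = (γ n v).dr (M n) j ∧ B n v 0 j = 1) ∧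
      (B n v).det ≠ 0 ∧ (∀ j m, |B n v j m| ≤ L n ∧ |(B n v)⁻¹ j m| ≤ L n) ∧
      (∀ j, |z₀ n v j - (γ n v).pt j| ≤ L n / 2 ^ M n) ∧ |φ₀ n v - (γ n v).φ| ≤ L n / 2 ^ R n) →
  Ful Q (fun n v => (γ n v).t) (fun n v => (l n v, Θ n v)) M →
  (Sm M fun n => ch (Q n) (fun v => (fl1 (R n) ((γ n v).p 1), fl1 (R n) ((γ n v).p 2)))
    fun v => (fl (M n) (γ n v).a, Θ n v)) →
  ∃ u α : RV W, Ln Q (fun n v => rd (M n) (((B n v)⁻¹ *ᵥ z₀ n v) i))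
    (fun n v => (rd (M n) (((B n v)⁻¹ *ᵥ z₀ n v) (i + 1)),
      rd (M n) (((B n v)⁻¹ *ᵥ z₀ n v) (i + 2)), Θ n v)) φ₀ u α
    (fun n v => rd (R n) ((γ n v).p 2)) M R ∧
    Ful Q (fun n v => rd (M n) (((B n v)⁻¹ *ᵥ z₀ n v) i))
      (fun n v => (l n v, rd (M n) (((B n v)⁻¹ *ᵥ z₀ n v) (i + 1)),
        rd (M n) (((B n v)⁻¹ *ᵥ z₀ n v) (i + 2)), Θ n v)) M

/-- Independence of the types. -/
def TFul : Prop := ∀ {Ω T U A : ℕ → Type} (P : ∀ n, FP (Ω n)) (θ : ∀ n, Ω n → T n)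
  (S : ∀ n, Ω n → U n) (w : ∀ n, Ω n → A n) (M : ℕ → ℕ), (∀ᶠ n in UF, Fn (P n) (θ n) (S n)) →
  (Sm M fun n => mi (P n) (w n) (S n) (θ n)) →
  (Sm M fun n => mi (G3 (P n) (S n)) (fun v i => w n (sl i v)) (fun v => S n v.1.1)
    fun v => θ n v.1.1) ∧
  (∀ i, Sm M fun n => mi (G3 (P n) (S n)) (fun v j => w n (sl j v)) (sl i)
    fun v => (w n (sl i v), θ n v.1.1)) ∧
  (Sm M fun n => mi (G4 (P n) (S n)) (fun v j => w n (sl j v.1)) Prod.snd fun v => θ n v.2) ∧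
  Sm M fun n => mi (G4 (P n) (S n)) (fun v => w n v.2) Prod.fst fun v => θ n v.2

def Star : Prop := ∀ {Ω T U Λ : ℕ → Type} (P : ∀ n, FP (Ω n)) (γ : ∀ n, Ω n → Cv)
  (θ : ∀ n, Ω n → T n) (S : ∀ n, Ω n → U n) (l : ∀ n, Ω n → Λ n) (M R : ℕ → ℕ) (ε₀ : ℝ)
  (L : ℕ → ℝ), AS P γ θ S l M R ε₀ → Sub M L →
  Whp (fun n => G3 (P n) (S n)) (fun n => gd (M n) (γ n) (L n)) → StarO P γ θ S l M R ε₀ L

/-- The base is full given an invariant of the lines that is shared by the lines of a cell. -/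
def MK3 : Prop := ∀ {Ω T U Λ D : ℕ → Type} (P : ∀ n, FP (Ω n)) (γ : ∀ n, Ω n → Cv)
  (θ : ∀ n, Ω n → T n) (S : ∀ n, Ω n → U n) (l : ∀ n, Ω n → Λ n) (M R : ℕ → ℕ) (ε₀ : ℝ)
  (lam : ∀ n, Ω n → D n), AS P γ θ S l M R ε₀ → (∀ᶠ n in UF, Fn (P n) (lam n) (S n)) →
  (Sm M fun n => ch (P n) (lam n) fun ω => (l n ω, θ n ω)) →
  Le M (fun n => 3 * M n * lg) fun n =>
    ch (P n) (fun ω => fl (M n) (γ n ω).pt) fun ω => (lam n ω, θ n ω)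

/-- The invariant of a web has no full window; in the flat case the potential is multi-affine. -/
def PotN : Prop := ∀ {Ω T : ℕ → Type} (P : ∀ n, FP (Ω n)) (Θ : ∀ n, Ω n → T n)
  (x y z φ u α β u' α' β' u'' α'' β'' : RV Ω) (C : ∀ n, Ω n → Arr) (M R k : ℕ → ℕ) (L : ℕ → ℝ)
  (ε₀ : ℝ), W3 P Θ x y z φ u α β u' α' β' u'' α'' β'' M R ε₀ → Frac k R → Sub M L →
  (∀ n ω i j m, |C n ω i j m| ≤ L n) → (Sm M fun n => ch (P n) (C n) (Θ n)) →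
  Whp P (fun n ω =>
    |φ n ω - tq (C n ω) (x n ω) (y n ω) (z n ω) - (u n ω - tq (C n ω) 0 (y n ω) (z n ω))| ≤
      L n / 2 ^ k n ∧
    |φ n ω - tq (C n ω) (x n ω) (y n ω) (z n ω) - (u' n ω - tq (C n ω) (x n ω) 0 (z n ω))| ≤
      L n / 2 ^ k n ∧
    |φ n ω - tq (C n ω) (x n ω) (y n ω) (z n ω) - (u'' n ω - tq (C n ω) (x n ω) (y n ω) 0)| ≤
      L n / 2 ^ k n) →
  NG1 P (fun n ω => (C n ω, Θ n ω)) (fun n ω => φ n ω - tq (C n ω) (x n ω) (y n ω) (z n ω)) k ε₀ ∧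
    ((∀ᶠ n in UF, ∀ ω ∈ (P n).S, β n ω = 0 ∧ β' n ω = 0 ∧ β'' n ω = 0) →
      ∃ L', Sub M L' ∧ Whp P fun n ω => ∀ i j, |C n ω 2 i j| ≤ L' n / 2 ^ k n ∧
        |C n ω i 2 j| ≤ L' n / 2 ^ k n ∧ |C n ω i j 2| ≤ L' n / 2 ^ k n)

/-- The fourth line. -/
def Line4 : Prop := ∀ {Ω T U Λ : ℕ → Type} (P : ∀ n, FP (Ω n)) (γ : ∀ n, Ω n → Cv)
  (θ : ∀ n, Ω n → T n) (S : ∀ n, Ω n → U n) (l : ∀ n, Ω n → Λ n) (M R k : ℕ → ℕ) (ε₀ : ℝ)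
  (L L₀ : ℕ → ℝ) (C : ∀ n, (Ω n × Ω n) × Ω n → Arr), AS P γ θ S l M R ε₀ → Sub M L → Sub M L₀ →
  Frac k R → Whp (fun n => G3 (P n) (S n)) (fun n => gd (M n) (γ n) (L₀ n)) →
  (∀ n v i j m, |C n v i j m| ≤ L n) →
  (Sm M fun n => ch (G3 (P n) (S n)) (C n) fun v => (ty (M n) (γ n) v, θ n v.1.1)) →
  NG1 (fun n => cE (G3 (P n) (S n)) (gd (M n) (γ n) (L₀ n)))
    (fun n v => (C n v, ty (M n) (γ n) v, θ n v.1.1)) (fun n v => (γ n v.1.1).φ -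
      tq (C n v) (xc (M n) (γ n) 0 v) (xc (M n) (γ n) 1 v) (xc (M n) (γ n) 2 v)) k ε₀ →
  ∃ L', Sub M L' ∧ Whp (fun n => G4 (P n) (S n)) fun n v =>
    (γ n v.2).Fits (fun z => tv (C n v.1) ((fm (M n) (γ n) v.1)⁻¹ *ᵥ z)) (L' n / 2 ^ k n) ∧
    |tv (dV (v4 (M n) (γ n) v) (dV (v4 (M n) (γ n) v) (C n v.1)))
      (fun i => xc (M n) (γ n) i v.1) - 2 * (γ n v.2).p 2| ≤ L' n / 2 ^ k n ∧
    |tv (dV (v4 (M n) (γ n) v) (dV (v4 (M n) (γ n) v) (dV (v4 (M n) (γ n) v) (C n v.1))))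
      fun i => xc (M n) (γ n) i v.1| ≤ L' n / 2 ^ k n

/-- An array that depends on the types and is small at the point is small. -/
def Line5 : Prop := ∀ {Ω T U Λ : ℕ → Type} (P : ∀ n, FP (Ω n)) (γ : ∀ n, Ω n → Cv)
  (θ : ∀ n, Ω n → T n) (S : ∀ n, Ω n → U n) (l : ∀ n, Ω n → Λ n) (M R : ℕ → ℕ) (ε₀ : ℝ)
  (L₀ ε : ℕ → ℝ) (C : ∀ n, (Ω n × Ω n) × Ω n → Arr) (H : V 3 → Arr → Arr),
  AS P γ θ S l M R ε₀ → Sub M L₀ →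
  Whp (fun n => G3 (P n) (S n)) (fun n => gd (M n) (γ n) (L₀ n)) → StarO P γ θ S l M R ε₀ L₀ →
  (Sm M fun n => ch (G3 (P n) (S n)) (C n) fun v => (ty (M n) (γ n) v, θ n v.1.1)) →
  Whp (fun n => G4 (P n) (S n)) (fun n v =>
    |tv (H (v4 (M n) (γ n) v) (C n v.1)) fun i => xc (M n) (γ n) i v.1| ≤ ε n) →
  ∃ L', Sub M L' ∧ Whp (fun n => G4 (P n) (S n)) fun n v =>
    ∀ i j m, |H (v4 (M n) (γ n) v) (C n v.1) i j m| ≤ L' n * ε n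

def FrE : Prop := ∀ {Ω T U Λ : ℕ → Type} (P : ∀ n, FP (Ω n)) (γ : ∀ n, Ω n → Cv)
  (θ : ∀ n, Ω n → T n) (S : ∀ n, Ω n → U n) (l : ∀ n, Ω n → Λ n) (M R : ℕ → ℕ) (ε₀ : ℝ),
  AS P γ θ S l M R ε₀ → ∃ C L k, Fr P γ θ S M R C L k

/-- From the frame to a quadric: the flat case. -/
def PoF : Prop := ∀ {Ω T U Λ : ℕ → Type} (P : ∀ n, FP (Ω n)) (γ : ∀ n, Ω n → Cv)
  (θ : ∀ n, Ω n → T n) (S : ∀ n, Ω n → U n) (l : ∀ n, Ω n → Λ n) (M R : ℕ → ℕ) (ε₀ : ℝ),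
  AS P γ θ S l M R ε₀ → Flat P γ → ∃ p L k, Po P γ θ S M R (fun _ _ => 0) p L k

/-- From the frame to a quadric: the curved case. -/
def PoC : Prop := ∀ {Ω T U Λ : ℕ → Type} (P : ∀ n, FP (Ω n)) (γ : ∀ n, Ω n → Cv)
  (θ : ∀ n, Ω n → T n) (S : ∀ n, Ω n → U n) (l : ∀ n, Ω n → Λ n) (M R : ℕ → ℕ) (ε₀ : ℝ)
  (q : ∀ n, Ω n → M3), AS P γ θ S l M R ε₀ → Curv P γ θ M R q →
  ∃ p L k, Po P γ θ S M R q p L k

/-- The potentials at two heights of one line agree. -/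
def Up : Prop := ∀ {Ω T U Λ : ℕ → Type} (P : ∀ n, FP (Ω n)) (γ : ∀ n, Ω n → Cv)
  (θ : ∀ n, Ω n → T n) (S : ∀ n, Ω n → U n) (l : ∀ n, Ω n → Λ n) (M R k : ℕ → ℕ) (ε₀ : ℝ)
  (q : ∀ n, Ω n → M3) (p : ∀ n, Ω n → Pq) (L : ℕ → ℝ), AS P γ θ S l M R ε₀ →
  Kind P γ θ M R q → Po P γ θ S M R q p L k → ∃ L', Sub M L' ∧
    Whp (fun n => glue (P n) (P n) (fun ω => (l n ω, θ n ω)) fun ω => (l n ω, θ n ω))
      fun n v => (p n v.1).Cl (p n v.2) (L' n / 2 ^ k n)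

/-- The theorem on curves of degree two over a base of dimension three. -/
def CoreA : Prop := ∀ {Ω T U Λ : ℕ → Type} (P : ∀ n, FP (Ω n)) (γ : ∀ n, Ω n → Cv)
  (θ : ∀ n, Ω n → T n) (S : ∀ n, Ω n → U n) (l : ∀ n, Ω n → Λ n) (M R : ℕ → ℕ) (ε₀ : ℝ)
  (q : ∀ n, Ω n → M3), AS P γ θ S l M R ε₀ → Kind P γ θ M R q →
  ∃ p L k, Po P γ θ S M R q p L k ∧
    Whp (fun n => glue (P n) (P n) (fun ω => (l n ω, θ n ω)) fun ω => (l n ω, θ n ω))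
      fun n v => (p n v.1).Cl (p n v.2) (L n / 2 ^ k n)

/-! ### Rows -/

def OfKD : Prop := PC → KD
def OfSpr3 : Prop := PC → Spr → Spr3
def OfCon3 : Prop := PC → DenP → Spr3 → Con3
def OfDer : Prop := Cover → Der
def OfTFul : Prop := KCop → TFul
def OfStar : Prop := KD → LnOf → TFul → Star
def OfMK3 : Prop := KD → Star → MK3
def OfPotN : Prop := KD → Spr → Spr3 → NGx → Inv → PotN
def OfLine4 : Prop := PC → KD → AlgD → TFul → DenP → Line4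
def OfLine5 : Prop := KD → TFul → Spr3 → Line5
def OfFrE : Prop := Star → Pot → PotN → Line4 → Line5 → FrE
def OfPoF : Prop := KD → KCop → TFul → AlgF → Der → FrE → PoF
def OfPoC : Prop := KD → KCop → TFul → AlgC → Der → FrE → PoC
def OfUp : Prop := KD → AlgU → NGx → Con3 → MK3 → Up

end Pool.Agent.MP_5168f5_an.R4.Web
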