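import Pool.Agent.MP_5168f5_an.R4.NCp3T

/-! Case A: from a tangent class of weight one to curves of degree two over a cell. -/

namespace Pool.Agent.MP_5168f5_an.R4.Tan

open H19 H17S H17F Filter Matrix Web NCx

/-- The coefficients of the parabola with the values of `G` at `0, 1/3, 2/3`. -/
noncomputable def cq (G : ℝ → ℝ) : Fin 3 → ℝ :=
  ![G 0, 6 * (G (1 / 3) - G 0) - 3 / 2 * (G (2 / 3) - G 0),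
    9 / 2 * (G (2 / 3) - G 0 - 2 * (G (1 / 3) - G 0))]

/-- The data of a cell. -/
abbrev Cd : Type := ℤ × V 3 × Qd × M3 × ℝ × V 3

/-- The levels. -/
def Lv (M ξ τ μ : ℕ) : Prop := ξ = 2 * M ∧ ξ ≤ τ ∧ 5 * τ + 10 * M ≤ μ

section Det

variable {Ω : Type} (g : Geo 3 Ω) (D : Td Ω) (Q : Tq Ω)

/-- The fibre coordinate at height `t`. -/
def fc (ω : Ω) (t : ℝ) : ℝ := ev 2 (Q.cf ω) t

/-- The base line at resolution `2^{-r}`. -/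
noncomputable def bb (r : ℕ) (ω : Ω) : ℤ × ℤ × ℤ × ℤ :=
  (fl1 r (g.a ω 0), fl1 r (g.e ω 0), fl1 r (g.a ω 1), fl1 r (g.e ω 1))

/-- The curve at resolution `2^{-r}`. -/
noncomputable def cc (r : ℕ) (ω : Ω) : ℤ × ℤ × ℤ :=
  (fl1 r (Q.cf ω 0), fl1 r (Q.cf ω 1), fl1 r (Q.cf ω 2))

/-- The height with coordinate `s` in the window of level `ξ`. -/
noncomputable def hs (ξ : ℕ) (ω : Ω) (s : ℝ) : ℝ := g.z0 ξ ω + ((2 : ℝ) ^ ξ)⁻¹ * s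

/-- The data of the cell of level `ξ`. -/
noncomputable def cd (ξ : ℕ) (ω : Ω) : Cd :=
  (fl1 ξ (g.z ω), D.o ξ ω, Q.E ξ ω, Q.q ω, Q.l ω)

/-- The centre of the cell of level `j`. -/
noncomputable def dd (j : ℕ) (ω : Ω) : ℤ × V 3 × ℝ := (fl1 j (g.z ω), D.o j ω, Q.fo j ω)

/-- The curve in the rescaled cell of level `ξ` and thickness `τ`. -/
noncomputable def chl (ξ τ : ℕ) (ω : Ω) : Cv where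
  a := ![2 ^ ξ * (g.lt (g.z0 ξ ω) ω 0 - D.o ξ ω 0), 2 ^ ξ * (g.lt (g.z0 ξ ω) ω 1 - D.o ξ ω 1)]
  e := ![g.e ω 0, g.e ω 1]
  p := cq fun s => 2 ^ τ * (fc Q ω (hs g ξ ω s) - ql g (Q.E ξ ω) ω (hs g ξ ω s))
  t := Int.fract (2 ^ ξ * g.z ω)

/-- A hyperplane with bounded coefficients that is a graph over `(t, x, u)`. -/
def Hy (A : Qd) (L : ℝ) : Prop := (∀ i k, i ≠ 0 ∨ k = 4 → A i k = 0) ∧ ∀ k, |A 0 k| ≤ L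

/-- The bounds at one sample; `b` says that the case is flat. -/
structure Gd (b : Prop) (ξ τ μ : ℕ) (L : ℝ) (ω : Ω) : Prop where
  one : 1 ≤ L
  box : (0 ≤ g.z ω ∧ g.z ω < 1) ∧ (∀ i, |g.a ω i| ≤ L ∧ |g.e ω i| ≤ L) ∧ ∀ i, |Q.cf ω i| ≤ L
  qE : ∀ i k, |Q.E ξ ω i k| ≤ L * 2 ^ (4 * ξ)
  cell : ∀ t : ℝ, fl1 ξ t = fl1 ξ (g.z ω) → |fc Q ω t - ql g (Q.E ξ ω) ω t| ≤ L / 2 ^ τ
  b0 : ∀ i, |g.pt ω i - D.o ξ ω i| ≤ L / 2 ^ ξ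
  b1 : ∀ i, |g.pt ω i - D.o (ξ + μ) ω i| ≤ L / 2 ^ (ξ + μ)
  bf : |fc Q ω (g.z ω) - Q.fo (ξ + μ) ω| ≤ L / 2 ^ (ξ + μ)
  sq : (Q.q ω).IsSymm ∧ (∀ i k, |Q.q ω i k| ≤ L) ∧ |(Q.l ω).1| ≤ L ∧ ∀ i, |(Q.l ω).2 i| ≤ L
  flat : b → Q.q ω = 0 ∧ Q.cf ω 2 = 0 ∧ Hy (Q.E ξ ω) L
  curv : ¬b → 1 ≤ L * |(Q.q ω).det| ∧
    ∀ t : ℝ, 0 ≤ t → t < 1 → |g.lt t ω 2 - Q.sf ω (bp g t ω)| ≤ 1 / 2 ^ μ

/-- The quadrics that are allowed for optimality. -/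
def okU (b : Prop) (L B : ℝ) (j : ℕ) (A : Qd) (ω : Ω) : Prop := (∀ i k, |A i k| ≤ B) ∧
  (b → (∀ i k, i = 4 ∨ k = 4 → A i k = 0) ∧
    ∀ i : Fin 4, |pf A (hom (g.z ω) (g.pt ω)) (bv i.succ)| ≤ L ∧
      ∀ k : Fin 4, |pf A (bv i.succ) (bv k.succ)| ≤ L * 2 ^ j)

theorem Hy.mono {A : Qd} {L L' : ℝ} (h : Hy A L) (e : L ≤ L') : Hy A L' :=
  ⟨h.1, fun k => (h.2 k).trans e⟩

theorem Gd.mono {g : Geo 3 Ω} {D : Td Ω} {Q : Tq Ω} {b : Prop} {ξ τ μ : ℕ} {L L' : ℝ} {ω : Ω}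
    (h : Gd g D Q b ξ τ μ L ω) (e : L ≤ L') : Gd g D Q b ξ τ μ L' ω :=
  have k : ∀ {x : ℝ} {j : ℕ}, x ≤ L / 2 ^ j → x ≤ L' / 2 ^ j := fun u =>
    u.trans (div_le_div_of_nonneg_right e (by positivity))
  ⟨h.one.trans e, ⟨h.box.1, fun i => ⟨(h.box.2.1 i).1.trans e, (h.box.2.1 i).2.trans e⟩,
      fun i => (h.box.2.2 i).trans e⟩,
    fun i j => (h.qE i j).trans (mul_le_mul_of_nonneg_right e (by positivity)),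
    fun t u => k (h.cell t u), fun i => k (h.b0 i), fun i => k (h.b1 i), k h.bf,
    ⟨h.sq.1, fun i j => (h.sq.2.1 i j).trans e, h.sq.2.2.1.trans e,
      fun i => (h.sq.2.2.2 i).trans e⟩,
    fun u => ⟨(h.flat u).1, (h.flat u).2.1, (h.flat u).2.2.mono e⟩,
    fun u => ⟨(h.curv u).1.trans (mul_le_mul_of_nonneg_right e (abs_nonneg _)), (h.curv u).2⟩⟩

end Det

/-! ### Deterministic facts -/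

/-- Identities for the rescaled curve. -/
structure KCh0 : Prop where
  f : ∀ {Ω : Type} (g : Geo 3 Ω) (D : Td Ω) (Q : Tq Ω) (ξ τ : ℕ) (ω : Ω) (s : ℝ),
    (chl g D Q ξ τ ω).f s = 2 ^ τ * (fc Q ω (hs g ξ ω s) - ql g (Q.E ξ ω) ω (hs g ξ ω s))
  z : ∀ {Ω : Type} (g : Geo 3 Ω) (D : Td Ω) (Q : Tq Ω) (ξ τ : ℕ) (ω : Ω) (s : ℝ),
    (chl g D Q ξ τ ω).z s =
      (2 : ℝ) ^ ξ • (bp g (hs g ξ ω s) ω - ![g.z0 ξ ω, D.o ξ ω 0, D.o ξ ω 1])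
  t : ∀ {Ω : Type} (g : Geo 3 Ω) (D : Td Ω) (Q : Tq Ω) (ξ τ : ℕ) (ω : Ω),
    hs g ξ ω (chl g D Q ξ τ ω).t = g.z ω
  win : ∀ {Ω : Type} (g : Geo 3 Ω) (ξ : ℕ) (ω : Ω) (t : ℝ), fl1 ξ t = fl1 ξ (g.z ω) ↔
    ∃ s, 0 ≤ s ∧ s < 1 ∧ t = hs g ξ ω s
  box : ∀ {Ω : Type} (g : Geo 3 Ω) (ξ : ℕ) (ω : Ω) (s : ℝ), 0 ≤ g.z ω → g.z ω < 1 → 0 ≤ s →
    s < 1 → 0 ≤ hs g ξ ω s ∧ hs g ξ ω s < 1
  crv : ∀ {Ω : Type} (g : Geo 3 Ω) (D : Td Ω) (Q : Tq Ω) (ξ τ : ℕ) (ω ω' : Ω), g.a ω = g.a ω' →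
    g.e ω = g.e ω' → Q.cf ω = Q.cf ω' → cd g D Q ξ ω = cd g D Q ξ ω' →
    (chl g D Q ξ τ ω).crv = (chl g D Q ξ τ ω').crv

/-- Bounds at one sample. -/
def KCh1 : Prop := ∃ (K : ℝ) (m : ℕ), 1 ≤ K ∧ ∀ {Ω : Type} (g : Geo 3 Ω) (D : Td Ω) (Q : Tq Ω)
  (b : Prop) (M ξ τ μ : ℕ) (L : ℝ) (ω : Ω), Lv M ξ τ μ → Gd g D Q b ξ τ μ L ω →
  (chl g D Q ξ τ ω).Bd (K * L ^ m) ∧ (b → (chl g D Q ξ τ ω).p 2 = 0) ∧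
    (¬b → (∃ i j, 1 ≤ K * L ^ m * |Q.q ω i j|) ∧
      |(chl g D Q ξ τ ω).dr μ ⬝ᵥ Q.q ω *ᵥ (chl g D Q ξ τ ω).dr μ| ≤ K * L ^ m / 2 ^ M)

/-- Two samples in one cell. -/
def KCh2 : Prop := ∃ (K : ℝ) (m : ℕ), 1 ≤ K ∧ ∀ {Ω : Type} (g : Geo 3 Ω) (D : Td Ω) (Q : Tq Ω)
  (b : Prop) (M ξ τ μ : ℕ) (L : ℝ) (ω ω' : Ω), Lv M ξ τ μ → Gd g D Q b ξ τ μ L ω →
  Gd g D Q b ξ τ μ L ω' → cd g D Q ξ ω = cd g D Q ξ ω' →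
  (dd g D Q (ξ + μ) ω = dd g D Q (ξ + μ) ω' →
    (∀ i, |(chl g D Q ξ τ ω).pt i - (chl g D Q ξ τ ω').pt i| ≤ K * L ^ m / 2 ^ μ) ∧
    |(chl g D Q ξ τ ω).φ - (chl g D Q ξ τ ω').φ| ≤ K * L ^ m / 2 ^ M) ∧
  (fl μ (chl g D Q ξ τ ω).pt = fl μ (chl g D Q ξ τ ω').pt →
    |g.pt ω 0 - g.pt ω' 0| ≤ 1 / 2 ^ μ ∧ |g.pt ω 1 - g.pt ω' 1| ≤ 1 / 2 ^ μ ∧
    |(chl g D Q ξ τ ω).φ - (chl g D Q ξ τ ω').φ -
      (2 ^ τ * fc Q ω (g.z ω) - 2 ^ τ * fc Q ω' (g.z ω'))| ≤ K * L ^ m / 2 ^ M) ∧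
  (fl μ (chl g D Q ξ τ ω).a = fl μ (chl g D Q ξ τ ω').a →
    fl μ (chl g D Q ξ τ ω).e = fl μ (chl g D Q ξ τ ω').e →
    |g.a ω 0 - g.a ω' 0| ≤ 2 / 2 ^ μ ∧ |g.a ω 1 - g.a ω' 1| ≤ 2 / 2 ^ μ ∧
    (cc Q (τ - M) ω = cc Q (τ - M) ω' →
      |(chl g D Q ξ τ ω).p 1 - (chl g D Q ξ τ ω').p 1| ≤ K * L ^ m / 2 ^ M ∧
      |(chl g D Q ξ τ ω).p 2 - (chl g D Q ξ τ ω').p 2| ≤ K * L ^ m / 2 ^ M))

/-- A potential of the rescaled curve gives a better quadric. -/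
def KFin : Prop := ∃ (Ψ : ℕ → ℕ → Cd → Pq → Qd) (K : ℝ) (m : ℕ), 1 ≤ K ∧
  ∀ {Ω : Type} (g : Geo 3 Ω) (D : Td Ω) (Q : Tq Ω) (b : Prop) (M ξ τ μ k : ℕ) (L : ℝ) (p : Pq)
    (ω : Ω), Lv M ξ τ μ → k ≤ M → Gd g D Q b ξ τ μ L ω → p.Bd L → (b → p.2.2.2 = (0, 0)) →
    (chl g D Q ξ τ ω).Fits (psi p (Q.q ω)) (L / 2 ^ k) →
    okU g b (K * L ^ m) (K * L ^ m * 2 ^ (4 * ξ)) ξ (Ψ ξ τ (cd g D Q ξ ω) p) ω ∧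
      Cst ξ (g.z ω) (fun t => fc Q ω t - ql g (Ψ ξ τ (cd g D Q ξ ω) p) ω t)
        (K * L ^ m / 2 ^ (τ + k))

/-- Rounding of potentials. -/
def KRnd : Prop := ∃ (rp : ℕ → Pq → Pq) (K : ℝ) (m : ℕ), 1 ≤ K ∧
  (∀ k p L, p.Bd L → (rp k p).Bd (L + 1)) ∧
  (∀ k p, p.2.2.2 = (0, 0) → (rp k p).2.2.2 = (0, 0)) ∧
  (∀ {W β : Type} (P : FP W) (p p' : W → Pq) (G : W → β) (k : ℕ), Fn P p G →
    (∀ v ∈ P.S, (p v).Cl (p' v) (1 / 2 ^ k)) → Det P (fun v => rp k (p' v)) G K) ∧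
  ∀ (c : Cv) (p p' : Pq) (q : M3) (L : ℝ) (k : ℕ), 1 ≤ L → c.Bd L → (∀ i j, |q i j| ≤ L) →
    p.Cl p' (1 / 2 ^ k) → c.Fits (psi p q) (L / 2 ^ k) →
    c.Fits (psi (rp k p') q) (K * L ^ m / 2 ^ k)

/-- A variable of a second height of the line that is nearly a function of a label without leak
can be added to the label. -/
def LabI : Prop := ∀ {N : ℕ} {Ω Λ Λ' Φ : ℕ → Type} (P : ∀ n, FP (Ω n)) (g : Gs N Ω)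
  (m j : ℕ → ℕ) (S : ∀ n, Ω n → Λ n) (S' : ∀ n, Ω n → Λ' n) (F : ∀ n, Ω n → Φ n)
  (E : ∀ n, Ω n × Ω n → Prop) (B : ℝ), Big m → Lab P g m j S →
  (Sm m fun n => (g n).lk (P n) (S' n)) → (∀ᶠ n in UF, Fn (P n) (S n) (S' n)) → 1 ≤ B →
  Pos (fun n => glue (P n) (P n) (fun ω => ((g n).ln ω, S n ω)) fun ω => ((g n).ln ω, S n ω)) E →
  (∀ᶠ n in UF, Det (cE (glue (P n) (P n) (fun ω => ((g n).ln ω, S n ω))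
    fun ω => ((g n).ln ω, S n ω)) (E n)) (fun v => F n v.2) (fun v => S' n v.1) B) →
  Lab (fun n => cE (glue (P n) (P n) (fun ω => ((g n).ln ω, S n ω))
    fun ω => ((g n).ln ω, S n ω)) (E n)) (fun n => (g n).pull Prod.fst) m j
    fun n v => (S n v.1, F n v.2)

/-! ### Members and classes -/

section One

variable {Ω : ℕ → Type} (P : ∀ n, FP (Ω n)) (g : Gs 3 Ω) (M mm : ℕ → ℕ) (D : ∀ n, Td (Ω n))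
  (Q : ∀ n, Tq (Ω n)) (b : Prop)

/-- The facts on one member, for the flat case and the curved case. -/
structure Un (d ε₀ : ℝ) : Prop where
  bs : ∀ C : ℕ, 0 < C → Bs P g fun n => C * M n
  fn : ∀ᶠ n in UF, Fn (P n) (Q n).cf (g n).ln ∧ (∀ ω ∈ (P n).S, ((Q n).q ω).IsSymm) ∧ ∀ j,
    Fn (P n) ((D n).S j) ((D n).S (j + 1)) ∧ Fn (P n)
      (fun ω => ((g n).θ ω, cd (g n) (D n) (Q n) j ω, dd (g n) (D n) (Q n) j ω)) ((D n).S j)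
  lab : ∀ j : ℕ → ℕ, OM M j → Lab P g mm j fun n => (D n).S (j n)
  ball : ∀ a : ℕ → ℕ, OM M a → ∃ L, Sub M L ∧ Whp P fun n ω =>
    (∀ i, |(g n).pt ω i - (D n).o (a n) ω i| ≤ L n / 2 ^ a n) ∧
      |fc (Q n) ω ((g n).z ω) - (Q n).fo (a n) ω| ≤ L n / 2 ^ a n
  typ : ∀ r : ℕ → ℕ, OM M r →
    Sm M fun n => mi (P n) (ty (g n) {0, 1} (r n)) ((D n).S (r n)) (g n).θ
  cp : ∀ j R : ℕ → ℕ, OM M j → (∀ n, M n ≤ R n) →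
    ∃ L, Sub M L ∧ Whp (fun n => G3 (P n) ((D n).S (j n))) fun n v => 1 ≤ L n *
      |det3 ![1, rd (R n) ((g n).e v.1.1 0), rd (R n) ((g n).e v.1.1 1)]
        ![1, rd (R n) ((g n).e v.1.2 0), rd (R n) ((g n).e v.1.2 1)]
        ![1, rd (R n) ((g n).e v.2 0), rd (R n) ((g n).e v.2 1)]|
  bd : ∃ L, Sub M L ∧ Whp P fun n ω => (∀ i, |(Q n).cf ω i| ≤ L n) ∧
    (∀ i k, |(Q n).q ω i k| ≤ L n) ∧ |((Q n).l ω).1| ≤ L n ∧ (∀ i, |((Q n).l ω).2 i| ≤ L n) ∧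
      (¬b → 1 ≤ L n * |((Q n).q ω).det|)
  flat : b → ∀ n ω, (Q n).q ω = 0 ∧ (Q n).cf ω 2 = 0
  surf : ¬b → ∀ r : ℕ → ℕ, OM M r → Whp P fun n ω => ∀ t : ℝ, 0 ≤ t → t < 1 →
    |(g n).lt t ω 2 - (Q n).sf ω (bp (g n) t ω)| ≤ 1 / 2 ^ r n
  cell : ∀ a τ : ℕ → ℕ, OM M a → (∀ᶠ n in UF, (τ n : ℝ) ≤ d * a n) → ∃ L, Sub M L ∧
    Whp P fun n ω => (∀ i k, |(Q n).E (a n) ω i k| ≤ L n * 2 ^ (4 * a n)) ∧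
      (b → Hy ((Q n).E (a n) ω) (L n)) ∧ ∀ t : ℝ, fl1 (a n) t = fl1 (a n) ((g n).z ω) →
        |fc (Q n) ω t - ql (g n) ((Q n).E (a n) ω) ω t| ≤ L n / 2 ^ τ n
  ng : NGo P g M (fun n ω => fc (Q n) ω ((g n).z ω)) 5 ε₀
  sv : ∀ ξ τ q s r : ℕ → ℕ, OM M ξ → OM M r → Frac s M →
    (∀ᶠ n in UF, (τ n : ℝ) ≤ d * ξ n ∧ q n + s n ≤ τ n ∧ 5 * τ n ≤ r n ∧ τ n + 4 * ξ n ≤ r n) →
    Sm M fun n => ch (P n) (cc (Q n) (q n)) fun ω => (bb (g n) (r n) ω, (D n).S (ξ n) ω)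

/-- The facts at the levels `ξ` and `ξ + μ`, with sure bounds. -/
structure Ch (ξ τ μ : ℕ → ℕ) (L : ℕ → ℝ) (ε₀ : ℝ) : Prop where
  big : Big M
  frac : Frac M μ
  lv : ∀ n, Lv (M n) (ξ n) (τ n) (μ n)
  sub : Sub M L
  e0 : 0 < ε₀ ∧ ε₀ ≤ 1
  q0 : b → ∀ n ω, (Q n).q ω = 0
  gd : ∀ᶠ n in UF, ∀ ω ∈ (P n).S, Gd (g n) (D n) (Q n) b (ξ n) (τ n) (μ n) (L n) ω
  fn : ∀ᶠ n in UF, Fn (P n) (Q n).cf (g n).ln ∧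
    Fn (P n) (fun ω => ((g n).θ ω, cd (g n) (D n) (Q n) (ξ n) ω)) ((D n).S (ξ n)) ∧
    Fn (P n) (fun ω => ((D n).S (ξ n) ω, dd (g n) (D n) (Q n) (ξ n + μ n) ω))
      ((D n).S (ξ n + μ n))
  inf : Sm M fun n => mi (P n) (g n).z (g n).ln ((D n).S (ξ n))
  hgt : Le M (fun n => μ n * lg) fun n => ch (P n) (fun ω => fl1 (ξ n + μ n) ((g n).z ω))
    fun ω => ((g n).ln ω, (D n).S (ξ n) ω)
  typ : Sm M fun n => mi (P n) (ty (g n) {0, 1} (ξ n + μ n)) ((D n).S (ξ n + μ n)) (g n).θ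
  ng : NG1 P (fun n ω => (fl1 (μ n) ((g n).pt ω 0), fl1 (μ n) ((g n).pt ω 1), (g n).zt ω))
    (fun n ω => 2 ^ τ n * fc (Q n) ω ((g n).z ω)) M ε₀
  sv : Sm M fun n => ch (P n) (cc (Q n) (τ n - M n)) fun ω =>
    (bb (g n) (μ n) ω, (D n).S (ξ n) ω)
  cp : ∃ L, Sub M L ∧ Whp (fun n => G3 (P n) ((D n).S (ξ n + μ n))) fun n =>
    Web.gd (μ n) (chl (g n) (D n) (Q n) (ξ n) (τ n)) (L n)

end One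

/-- A class of the flat case or of the curved case. -/
structure TU {Ω : ℕ → Type} (K : Mb Ω → Prop) (g : Gs 3 Ω) (M mm : ℕ → ℕ) (D : ∀ n, Td (Ω n))
    (Q : ∀ n, Tq (Ω n)) (b : Prop) (d ε₀ : ℝ) : Prop where
  cl : Cl0 K
  ne : ∃ X, K X
  big : Big mm
  sm : Sm M fun n => mm n
  dge : 1 ≤ d
  e0 : 0 < ε₀ ∧ ε₀ ≤ 1
  un : ∀ X, K X → Un X.P (X.G g) M mm (mD X D) (mQ X Q) b d ε₀

/-- The rate of the fibre coordinate in the rescaled cell. -/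
def ChNG : Prop := ∀ {Ω : ℕ → Type} (P : ∀ n, FP (Ω n)) (g : Gs 3 Ω) (M : ℕ → ℕ)
  (D : ∀ n, Td (Ω n)) (Q : ∀ n, Tq (Ω n)) (b : Prop) (ξ τ μ : ℕ → ℕ) (L : ℕ → ℝ) (ε₀ : ℝ),
  Ch P g M D Q b ξ τ μ L ε₀ →
  NG1 P (fun n ω => (fl (μ n) (chl (g n) (D n) (Q n) (ξ n) (τ n) ω).pt, (D n).S (ξ n) ω))
    (fun n ω => (chl (g n) (D n) (Q n) (ξ n) (τ n) ω).φ) M ε₀

/-- The base line determines the slope and the curvature. -/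
def ChSV : Prop := ∀ {Ω : ℕ → Type} (P : ∀ n, FP (Ω n)) (g : Gs 3 Ω) (M : ℕ → ℕ)
  (D : ∀ n, Td (Ω n)) (Q : ∀ n, Tq (Ω n)) (b : Prop) (ξ τ μ : ℕ → ℕ) (L : ℕ → ℝ) (ε₀ : ℝ),
  Ch P g M D Q b ξ τ μ L ε₀ →
  Sm M fun n => ch (P n) (fun ω => (fl1 (M n) ((chl (g n) (D n) (Q n) (ξ n) (τ n) ω).p 1),
    fl1 (M n) ((chl (g n) (D n) (Q n) (ξ n) (τ n) ω).p 2))) fun ω =>
      (fl (μ n) (chl (g n) (D n) (Q n) (ξ n) (τ n) ω).a,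
        fl (μ n) (chl (g n) (D n) (Q n) (ξ n) (τ n) ω).e, (D n).S (ξ n) ω)

/-- The rescaled cell is a system of curves. -/
def ChAS : Prop := ∀ {Ω : ℕ → Type} (P : ∀ n, FP (Ω n)) (g : Gs 3 Ω) (M : ℕ → ℕ)
  (D : ∀ n, Td (Ω n)) (Q : ∀ n, Tq (Ω n)) (b : Prop) (ξ τ μ : ℕ → ℕ) (L : ℕ → ℝ) (ε₀ : ℝ),
  Ch P g M D Q b ξ τ μ L ε₀ →
  AS P (fun n => chl (g n) (D n) (Q n) (ξ n) (τ n)) (fun n => (D n).S (ξ n))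
    (fun n => (D n).S (ξ n + μ n)) (fun n => (g n).ln) μ M ε₀ ∧
  Kind P (fun n => chl (g n) (D n) (Q n) (ξ n) (τ n)) (fun n => (D n).S (ξ n)) μ M
    fun n => (Q n).q

/-- A member with sure bounds. -/
def ChE : Prop := ∀ {Ω : ℕ → Type} (K : Mb Ω → Prop) (g : Gs 3 Ω) (M mm : ℕ → ℕ)
  (D : ∀ n, Td (Ω n)) (Q : ∀ n, Tq (Ω n)) (b : Prop) (d ε₀ : ℝ), TU K g M mm D Q b d ε₀ →
  ∃ (X : Mb Ω) (τ μ : ℕ → ℕ) (L : ℕ → ℝ), K X ∧ (∀ n, d * (2 * M n : ℕ) ≤ τ n + 1) ∧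
    Ch X.P (X.G g) M (mD X D) (mQ X Q) b (fun n => 2 * M n) τ μ L ε₀

/-- A label of level `2 M` that carries a potential. -/
def UA : Prop := ∀ {Ω : ℕ → Type} (K : Mb Ω → Prop) (g : Gs 3 Ω) (M mm : ℕ → ℕ)
  (D : ∀ n, Td (Ω n)) (Q : ∀ n, Tq (Ω n)) (b : Prop) (d ε₀ : ℝ), TU K g M mm D Q b d ε₀ →
  ∃ (X : Mb Ω) (Λ : ℕ → Type) (lam : ∀ n, (X n).W → Λ n) (p : ∀ n, (X n).W → Pq)
    (τ μ k : ℕ → ℕ) (L : ℕ → ℝ), K X ∧ (∀ n, d * (2 * M n : ℕ) ≤ τ n + 1) ∧ Frac M μ ∧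
    (∀ n, Lv (M n) (2 * M n) (τ n) (μ n)) ∧ Frac k M ∧ Sub M L ∧
    Lab X.P (X.G g) mm (fun n => 2 * M n) lam ∧
    (∀ᶠ n in UF, Fn (X n).Q (fun v => (mD X D n).S (2 * M n) v) (lam n) ∧
      Fn (X n).Q (p n) (lam n)) ∧
    Whp X.P fun n v => Gd (X.G g n) (mD X D n) (mQ X Q n) b (2 * M n) (τ n) (μ n) (L n) v ∧
      (p n v).Bd (L n) ∧ (b → (p n v).2.2.2 = (0, 0)) ∧
      (chl (X.G g n) (mD X D n) (mQ X Q n) (2 * M n) (τ n) v).Fits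
        (psi (p n v) ((mQ X Q n).q v)) (L n / 2 ^ k n)

/-- The cells are not optimal. -/
def UB : Prop := ∀ {Ω : ℕ → Type} (K : Mb Ω → Prop) (g : Gs 3 Ω) (M mm : ℕ → ℕ)
  (D : ∀ n, Td (Ω n)) (Q : ∀ n, Tq (Ω n)) (b : Prop) (d ε₀ : ℝ), TU K g M mm D Q b d ε₀ →
  (∀ X, K X → NoGain X.P (X.G g) M mm d (fun n L B j A v => okU (X.G g n) b L B j A v)
    fun n A v t => fc (mQ X Q n) v t - ql (X.G g n) A v t) → False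

/-! ### Rows -/

def OfKCh1 : Prop := KCh0 → KCh1
def OfKCh2 : Prop := KCh0 → KCh2
def OfKFin : Prop := KCh0 → KFin
def OfChNG : Prop := KCh0 → KCh1 → KCh2 → NGx → ChNG
def OfChSV : Prop := KCh2 → ChSV
def OfChAS : Prop := KCh0 → KCh1 → KCh2 → ChNG → ChSV → ChAS
def OfUA : Prop := KCh1 → KRnd → LabI → ChE → ChAS → CoreA → UA
def OfUB : Prop := KFin → UA → UB
def OfCAF : Prop := UB → CAF
def OfCAC : Prop := UB → CAC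

end Pool.Agent.MP_5168f5_an.R4.Tan
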