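import Pool.Agent.MP_5168f5_an.R4.SpecW

/-! Potentials whose higher derivatives vanish in many directions. -/

namespace Pool.Agent.MP_5168f5_an.R4.Web

open H19 H17S H17F Matrix

/-- Coefficient arrays. -/
abbrev Arr : Type := Fin 3 → Fin 3 → Fin 3 → ℝ

/-- The coefficients of the derivative of `c 0 + c 1 s + c 2 s ^ 2`. -/
def d1 (c : Fin 3 → ℝ) : Fin 3 → ℝ := ![c 1, 2 * c 2, 0]

/-- The coefficients of the derivative of `tq C` in the direction `v`. -/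
def dV (v : V 3) (C : Arr) : Arr := fun i j l =>
  v 0 * d1 (fun a => C a j l) i + v 1 * d1 (fun a => C i a l) j + v 2 * d1 (fun a => C i j a) l

/-- `tq` at a vector. -/
def tv (C : Arr) (x : V 3) : ℝ := tq C (x 0) (x 1) (x 2)

/-- The determinant of three vectors. -/
def det3 (a b c : V 3) : ℝ := (Matrix.of ![a, b, c]).det

/-- The matrix with columns `a`, `b`, `c`. -/
def frm (a b c : V 3) : Matrix (Fin 3) (Fin 3) ℝ := (Matrix.of ![a, b, c]).transpose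

/-- Data of the polynomial `c + l z + G(z) + q(z) m z + k q(z) ^ 2`. -/
abbrev Pq : Type := ℝ × V 3 × Matrix (Fin 3) (Fin 3) ℝ × V 3 × ℝ

/-- The quadric with data `p` at the point `(z, h)`. -/
def pq (p : Pq) (z : V 3) (h : ℝ) : ℝ :=
  p.1 + p.2.1 ⬝ᵥ z + z ⬝ᵥ p.2.2.1 *ᵥ z + h * (p.2.2.2.1 ⬝ᵥ z) + p.2.2.2.2 * h ^ 2

/-- Bounded and symmetric data. -/
def Pq.Bd (p : Pq) (L : ℝ) : Prop := |p.1| ≤ L ∧ (∀ i, |p.2.1 i| ≤ L) ∧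
  (∀ i j, |p.2.2.1 i j| ≤ L ∧ p.2.2.1 i j = p.2.2.1 j i) ∧ (∀ i, |p.2.2.2.1 i| ≤ L) ∧
  |p.2.2.2.2| ≤ L

/-- The nonconstant coefficients differ by at most `ε`. -/
def Pq.Cl (p p' : Pq) (ε : ℝ) : Prop := (∀ i, |p.2.1 i - p'.2.1 i| ≤ ε) ∧
  (∀ i j, |p.2.2.1 i j - p'.2.2.1 i j| ≤ ε) ∧ (∀ i, |p.2.2.2.1 i - p'.2.2.2.1 i| ≤ ε) ∧
  |p.2.2.2.2 - p'.2.2.2.2| ≤ ε

/-- The derivative along a line. -/
def AlgD : Prop := ∀ (C : Arr) (x v : V 3) (s : ℝ),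
  HasDerivAt (fun s => tv C (x + s • v)) (tv (dV v C) (x + s • v)) s

/-- The flat case: a multi-affine potential with one more vanishing second derivative. -/
def AlgF : Prop := ∃ (K : ℝ) (m : ℕ), 1 ≤ K ∧ ∀ (L ε : ℝ) (a b c w : V 3) (C : Arr), 1 ≤ L →
  0 ≤ ε → (∀ i, |a i| ≤ L ∧ |b i| ≤ L ∧ |c i| ≤ L ∧ |w i| ≤ L) →
  1 ≤ L * |det3 a b c| → 1 ≤ L * |det3 w b c| → 1 ≤ L * |det3 a w c| → 1 ≤ L * |det3 a b w| →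
  (∀ i j l, |C i j l| ≤ L) → (∀ i j, |C 2 i j| ≤ ε ∧ |C i 2 j| ≤ ε ∧ |C i j 2| ≤ ε) →
  (∀ i j l, |dV ((frm a b c)⁻¹ *ᵥ w) (dV ((frm a b c)⁻¹ *ᵥ w) C) i j l| ≤ ε) →
  ∃ p : Pq, p.Bd (K * L ^ m) ∧ p.2.2.2 = (0, 0) ∧ ∀ z : V 3, (∀ i, |z i| ≤ L) →
    |tv C ((frm a b c)⁻¹ *ᵥ z) - pq p z 0| ≤ K * L ^ m * ε

/-- The curved case: third derivatives vanish in the directions of a conic. -/
def AlgC : Prop := ∃ (K : ℝ) (m N : ℕ), 1 ≤ K ∧ ∀ (L ε : ℝ) (w : Fin (N + 3) → V 3)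
  (q : Matrix (Fin 3) (Fin 3) ℝ) (C : Arr), 1 ≤ L → 0 ≤ ε → K * L ^ m * ε ≤ 1 →
  (∀ k i, |w k i| ≤ L) →
  (∀ i j k, i ≠ j → j ≠ k → i ≠ k → 1 ≤ L * |det3 (w i) (w j) (w k)|) →
  (∀ i j, |q i j| ≤ L ∧ q i j = q j i) → (∃ i j, 1 ≤ L * |q i j|) →
  (∀ k, |w k ⬝ᵥ q *ᵥ w k| ≤ ε) → (∀ i j l, |C i j l| ≤ L) →
  (∀ k : Fin N, ∀ i j l,
    |dV ((frm (w 0) (w 1) (w 2))⁻¹ *ᵥ w k.succ.succ.succ)
      (dV ((frm (w 0) (w 1) (w 2))⁻¹ *ᵥ w k.succ.succ.succ)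
        (dV ((frm (w 0) (w 1) (w 2))⁻¹ *ᵥ w k.succ.succ.succ) C)) i j l| ≤ ε) →
  ∃ p : Pq, p.Bd (K * L ^ m) ∧ ∀ z : V 3, (∀ i, |z i| ≤ L) →
    |tv C ((frm (w 0) (w 1) (w 2))⁻¹ *ᵥ z) - pq p z (z ⬝ᵥ q *ᵥ z)| ≤ K * L ^ m * ε

/-- Uniqueness of the data: three nested polynomial expansions have small nonconstant part. -/
def AlgU : Prop := ∃ (K : ℝ) (m : ℕ), 1 ≤ K ∧ ∀ (L ε : ℝ) (q : Matrix (Fin 3) (Fin 3) ℝ)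
  (p p' : Pq), 1 ≤ L → 0 ≤ ε → p.Bd L → p'.Bd L → (∀ i j, |q i j| ≤ L ∧ q i j = q j i) →
  ((∃ i j, 1 ≤ L * |q i j|) ∨ p.2.2.2 = p'.2.2.2) →
  (∀ z : V 3, (∀ i, |z i| ≤ 1) → |pq p z (z ⬝ᵥ q *ᵥ z) - pq p' z (z ⬝ᵥ q *ᵥ z) - (p.1 - p'.1)| ≤ ε) →
  p.Cl p' (K * L ^ m * ε)

end Pool.Agent.MP_5168f5_an.R4.Web
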