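import Pool.Agent.MP_5168f5_an.R4.BApi

/-! Kakeya sets in four dimensions, broad slopes: statements of the rows. -/

namespace Pool.Agent.MP_5168f5_an.R4.B1

open H19 H17S H17F Filter K31 Tan

/-! ### Abstract tools -/

/-- The two orders of the chain rule. -/
def Swap : Prop := ∀ {Ω α β γ : Type} (P : FP Ω) (u : Ω → ℝ) (F : Ω → α) (F' : Ω → β) (Θ : Ω → γ)
  (p r : ℕ), p ≤ r → Fn P F F' →
  ch P F' (fun ω => (F ω, fl1 p (u ω), Θ ω)) +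
      ch P (fun ω => fl1 r (u ω)) (fun ω => (fl1 p (u ω), F' ω, Θ ω)) ≤
    ch P F' (fun ω => (F ω, fl1 r (u ω), Θ ω)) + (r - p : ℝ) * lg

/-- A label at a copied height hides as much of the point as the label at the height itself. -/
def ShF : Prop := ∀ {Ω α β γ δ ε : Type} (P : FP Ω) (l : Ω → α) (t : Ω → β) (κ : Ω → γ)
  (y : Ω → δ) (lam : Ω → ε), Fn P κ l → Fn P y (fun ω => (l ω, t ω)) →
  Fn P (fun ω => (t ω, κ ω)) y →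
  ch P y (fun ω => (lam ω, t ω, κ ω)) ≤
    ch (glue P P l l) (fun v => y v.1) (fun v => (lam v.2, t v.1, κ v.1)) +
      mi P lam l y + mi P t l κ

/-- Segments on refinements, in shorter windows and on copies. -/
structure SegK : Prop where
  dn : ∀ {Ω W T Λ : ℕ → Type} (P : ∀ n, FP (Ω n)) (u f : ∀ n, Ω n → ℝ) (Θ : ∀ n, Ω n → T n)
    (Γ : ∀ n, Ω n → Λ n) (G : ∀ n, Ω n → ℝ) (M q q' : ℕ → ℕ) (Q : ∀ n, FP (W n))
    (ρ : ∀ n, W n → Ω n), Big M → (∀ᶠ n in UF, q n ≤ q' n) → Seg P u f Θ Γ G M q q' → DnS Q ρ P →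
    Seg Q (fun n v => u n (ρ n v)) (fun n v => f n (ρ n v)) (fun n v => Θ n (ρ n v))
      (fun n v => Γ n (ρ n v)) (fun n v => G n (ρ n v)) M q q'
  sub : ∀ {Ω T Λ : ℕ → Type} (P : ∀ n, FP (Ω n)) (u f : ∀ n, Ω n → ℝ) (Θ : ∀ n, Ω n → T n)
    (Γ : ∀ n, Ω n → Λ n) (G : ∀ n, Ω n → ℝ) (M q p q' : ℕ → ℕ),
    (∀ᶠ n in UF, q n ≤ p n ∧ p n ≤ q' n) → Seg P u f Θ Γ G M q q' → Seg P u f Θ Γ G M q p
  cp : ∀ {Ω T Λ Φ : ℕ → Type} (P : ∀ n, FP (Ω n)) (u f : ∀ n, Ω n → ℝ) (Θ : ∀ n, Ω n → T n)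
    (Γ : ∀ n, Ω n → Λ n) (G : ∀ n, Ω n → ℝ) (M q q' : ℕ → ℕ) (φ : ∀ n, Ω n → Φ n), Big M →
    (∀ᶠ n in UF, q n ≤ q' n ∧
      Fn (P n) (fun ω => (fl1 (q' n) (u n ω), fl1 (q' n) (f n ω), Θ n ω)) (φ n)) →
    Seg P u f Θ Γ G M q q' →
    Seg (fun n => glue (P n) (P n) (φ n) (φ n)) (fun n v => u n v.1) (fun n v => f n v.1)
      (fun n v => Θ n v.1) (fun n v => Γ n v.2) (fun n v => G n v.2) M q q'

/-- Two filled segments through a point of rate less than two. -/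
structure Two {Ω T Λ Λ' : ℕ → Type} (P : ∀ n, FP (Ω n)) (u f : ∀ n, Ω n → ℝ)
    (Θ : ∀ n, Ω n → T n) (Γ : ∀ n, Ω n → Λ n) (Γ' : ∀ n, Ω n → Λ' n) (G G' : ∀ n, Ω n → ℝ)
    (M q q' k : ℕ → ℕ) (ε₀ : ℝ) : Prop where
  big : Big M
  om : OM M q'
  le : ∀ᶠ n in UF, q n ≤ q' n
  gap : ∃ ε : ℝ, 0 < ε ∧ ∀ᶠ n in UF, k n + ε * M n ≤ ε₀ * (q' n - q n)
  bd : ∃ L, Sub M L ∧ ∀ᶠ n in UF, ∀ ω ∈ (P n).S, |u n ω| ≤ L n ∧ |f n ω| ≤ L n
  s1 : Seg P u f Θ Γ G M q q'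
  s2 : Seg P u f Θ Γ' G' M q q'
  up : U.Upp P (fun n ω => (fl1 (q' n) (u n ω), fl1 (q' n) (f n ω)))
    (fun n ω => (fl1 (q n) (u n ω), fl1 (q n) (f n ω), Θ n ω)) M
    fun n => (2 - ε₀) * (q' n - q n) * lg

/-- Independent segments are parallel. -/
def Cor2 : Prop := ∀ {Ω T Λ Λ' : ℕ → Type} (P : ∀ n, FP (Ω n)) (u f : ∀ n, Ω n → ℝ)
  (Θ : ∀ n, Ω n → T n) (Γ : ∀ n, Ω n → Λ n) (Γ' : ∀ n, Ω n → Λ' n) (G G' : ∀ n, Ω n → ℝ)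
  (M q q' k : ℕ → ℕ) (ε₀ : ℝ), Two P u f Θ Γ Γ' G G' M q q' k ε₀ →
  (Sm M fun n => mi (P n) (Γ n) (Γ' n) fun ω =>
    (fl1 (q' n) (u n ω), fl1 (q' n) (f n ω), Θ n ω)) →
  Whp P fun n ω => |G n ω - G' n ω| ≤ 1 / 2 ^ k n

/-- Any two segments are parallel. -/
def Cor3 : Prop := ∀ {Ω T Λ Λ' : ℕ → Type} (P : ∀ n, FP (Ω n)) (u f : ∀ n, Ω n → ℝ)
  (Θ : ∀ n, Ω n → T n) (Γ : ∀ n, Ω n → Λ n) (Γ' : ∀ n, Ω n → Λ' n) (G G' : ∀ n, Ω n → ℝ)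
  (M q q' k : ℕ → ℕ) (ε₀ : ℝ), Two P u f Θ Γ Γ' G G' M q q' k ε₀ →
  Whp P fun n ω => |G n ω - G' n ω| ≤ 1 / 2 ^ k n

/-- A variable that is close to an independent variable is a function of the common data on an
event. -/
def Maj : Prop := ∀ {Ω Ω' β : ℕ → Type} (P : ∀ n, FP (Ω n)) (P' : ∀ n, FP (Ω' n))
  (l : ∀ n, Ω n → β n) (l' : ∀ n, Ω' n → β n) (G : ∀ n, Ω n → ℝ) (G' : ∀ n, Ω' n → ℝ)
  (k : ℕ → ℕ),
  Whp (fun n => glue (P n) (P' n) (l n) (l' n)) (fun n v => |G n v.1 - G' n v.2| ≤ 1 / 2 ^ k n) →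
  ∃ E : ∀ n, Ω n → Prop, Pos P E ∧
    ∀ᶠ n in UF, Fn (cE (P n) (E n)) (fun ω => fl1 (k n) (G n ω)) (l n)

/-- A segment and a full transversal coordinate fill the plane. -/
def Fin2 : Prop := ∀ {Ω T Λ Λ' : ℕ → Type} (P : ∀ n, FP (Ω n)) (u f : ∀ n, Ω n → ℝ)
  (Θ : ∀ n, Ω n → T n) (Γ : ∀ n, Ω n → Λ n) (lam : ∀ n, Ω n → Λ' n) (G : ∀ n, Ω n → ℝ)
  (M q k : ℕ → ℕ) (L : ℕ → ℝ), Big M → OM M (fun n => q n + k n) → Sub M L →
  (∀ᶠ n in UF, Fn (P n) (fun ω => U.rd (k n) (G n ω)) (lam n) ∧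
    ∀ ω ∈ (P n).S, |u n ω| ≤ L n ∧ |f n ω| ≤ L n ∧ |G n ω| ≤ L n) →
  Seg P u f Θ Γ G M q (fun n => q n + k n) →
  ND P M (fun n ω => (fl1 (q n) (u n ω), fl1 (q n) (f n ω))) (fun n ω => (lam n ω, Θ n ω)) →
  (Le M (fun n => k n * lg) fun n =>
    ch (P n) (fun ω => fl1 (q n + k n) (f n ω - U.rd (k n) (G n ω) * u n ω)) fun ω =>
      (fl1 (q n) (f n ω - U.rd (k n) (G n ω) * u n ω), lam n ω, Θ n ω)) →
  Le M (fun n => 2 * k n * lg) fun n =>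
    ch (P n) (fun ω => (fl1 (q n + k n) (u n ω), fl1 (q n + k n) (f n ω))) fun ω =>
      (fl1 (q n) (u n ω), fl1 (q n) (f n ω), Θ n ω)

/-- Data of a copy given the point, on an event where they are a function of the line. -/
def CpL : Prop := ∀ {N : ℕ} {Ω Λ Φ A : ℕ → Type} (P : ∀ n, FP (Ω n)) (g : Gs N Ω) (m j : ℕ → ℕ)
  (S : ∀ n, Ω n → Λ n) (φ : ∀ n, Ω n → Φ n) (c : ∀ n, Ω n → A n) (E : ∀ n, Ω n × Ω n → Prop),
  Big m → Lab P g m j S → ND P m φ (fun n => (g n).y) →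
  Pos (fun n => glue (P n) (P n) (φ n) (φ n)) E →
  (∀ᶠ n in UF, Fn (cE (glue (P n) (P n) (φ n) (φ n)) (E n)) (fun v => c n v.2)
    fun v => (g n).ln v.1) →
  Lab (fun n => cE (glue (P n) (P n) (φ n) (φ n)) (E n)) (fun n => (g n).pull Prod.fst) m j
    fun n v => (S n v.1, c n v.2)

/-- A derived system with the same height. -/
def BsD : Prop := ∀ {N N' : ℕ} {Ω : ℕ → Type} (P : ∀ n, FP (Ω n)) (g : Gs N Ω) (g' : Gs N' Ω)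
  (M M' : ℕ → ℕ) (L : ℕ → ℝ) (κ : ℝ), Bs P g M → 0 < κ → Sub M L →
  (∀ᶠ n in UF, κ * M n ≤ M' n ∧ M' n ≤ M n ∧ (g' n).Bx (P n) (L n) ∧
    (∀ ω ∈ (P n).S, (g' n).z ω = (g n).z ω) ∧ Fn (P n) (g' n).ln (g n).ln ∧
    Fn (P n) (g n).θ (g' n).θ) → Bs P g' M'

/-- A coordinate with a broad slope is full in its tube, given any data of the line that the
point `B` knows. -/
def XV : Prop := ∀ {N : ℕ} {Ω Λ Y : ℕ → Type} (P : ∀ n, FP (Ω n)) (g : Gs N Ω) (i : Fin N)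
  (M s R : ℕ → ℕ) (lam : ∀ n, Ω n → Λ n) (B : ∀ n, Ω n → Y n) (ρ κ : ℝ), Bs P g M → 0 < ρ →
  0 < κ → (∀ᶠ n in UF, κ * M n ≤ R n ∧ s n + R n ≤ M n ∧ Fn (P n) (lam n) (g n).ln ∧
    Fn (P n) (fun ω => ((g n).zt ω, fl1 (s n) ((g n).e ω i))) (B n)) →
  ND P M (fun n ω => (lam n ω, fl1 (s n + R n) ((g n).pt ω i))) B →
  (∀ l : ℕ → ℕ, (∀ n, l n ≤ R n) →
    U.Low P (fun n ω => fl1 (s n + l n) ((g n).e ω i)) B M fun n => ρ * l n * lg) →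
  Le M (fun n => R n * lg) fun n => ch (P n) (fun ω => fl1 (s n + R n) ((g n).pt ω i)) fun ω =>
    (fl1 (s n) ((g n).pt ω i), lam n ω, (g n).zt ω)

/-- In `ℝ³`, without full windows there is a plane label that reaches the floor. -/
def UFl : Prop := ∀ {Ω : ℕ → Type} (K : Mb Ω → Prop) (g : Gs 2 Ω) (M : ℕ → ℕ) (η ε₀ : ℝ),
  Cls K (g.fin M) M 0 η → 0 < ε₀ → (∀ X, K X → ∀ b : ℕ → ℕ, (∀ n, b n ≤ M n) →
    Le M (fun n => ch (X n).Q (fun v => fl1 (M n) ((X.G g n).pt v 1)) fun v =>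
      (fl1 (b n) ((X.G g n).pt v 1), fl1 (M n) ((X.G g n).pt v 0), (X.G g n).zt v))
      fun n => (1 - ε₀) * (M n - b n) * lg) →
  ∃ (X : Mb Ω) (τ : ℕ → ℕ), K X ∧ Le M (fun n => M n) (fun n => τ n) ∧
    Thin X.P (X.G (g.fin M)) M (fun n => ((g n).pl {0} 1).pull (X n).ρ) (fun _ => 0) τ

/-- The floor label gives a filled segment, also at a copied height. -/
def VSh : Prop := ∀ {Ω : ℕ → Type} (K : Mb Ω → Prop) (g : Gs 2 Ω) (M τ : ℕ → ℕ) (η : ℝ)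
  (X : Mb Ω), Cls0 K (g.fin M) M 0 η → K X → Le M (fun n => M n) (fun n => τ n) →
  Thin X.P (X.G (g.fin M)) M (fun n => ((g n).pl {0} 1).pull (X n).ρ) (fun _ => 0) τ →
  ∃ (Λ : ℕ → Type) (lam : ∀ n, (X n).W → Λ n) (G : ∀ n, (X n).W → ℝ),
    Seg X.P (fun n v => (X.G g n).pt v 0) (fun n v => (X.G g n).pt v 1) (fun n => (X.G g n).zt)
      lam G M (fun _ => 0) M ∧
    Seg (fun n => glue (X n).Q (X n).Q (X.G g n).ln (X.G g n).ln)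
      (fun n v => (X.G g n).pt v.1 0) (fun n v => (X.G g n).pt v.1 1)
      (fun n v => (X.G g n).zt v.1) (fun n v => lam n v.2) (fun n v => G n v.2) M (fun _ => 0) M

/-- From the vertical system to the original coordinates. -/
def VTr : Prop := ∀ {W Λ Λ' : ℕ → Type} (Q : ∀ n, FP (W n)) (g : Gs 3 W) (i i' : Fin 3)
  (M α R r : ℕ → ℕ) (lam : ∀ n, W n → Λ n) (Γ : ∀ n, W n → Λ' n) (G : ∀ n, W n → ℝ), Big M →
  OM M R → (∀ᶠ n in UF, (∀ ω ∈ (Q n).S, 0 ≤ (g n).z ω ∧ (g n).z ω < 1) ∧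
    Fn (Q n) (Γ n) (fun ω => (lam n ω, vk (g n) i i' (α n) (r n) ω)) ∧
    Fn (Q n) (fun ω => (lam n ω, vk (g n) i i' (α n) (r n) ω)) (Γ n)) →
  Seg Q (fun n v => (vs (g n) i i' (α n) (r n)).pt v 0)
    (fun n v => (vs (g n) i i' (α n) (r n)).pt v 1) (fun n => (vs (g n) i i' (α n) (r n)).zt)
    lam G R (fun _ => 0) R →
  Seg Q (fun n v => (g n).pt v i) (fun n v => (g n).pt v i') (fun n => xz (g n) (r n)) Γ G M α
    fun n => α n + R n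

/-! ### Vertical systems of a tangent class -/

section Class

variable {Ω : ℕ → Type} (K : Mb Ω → Prop) (g : Gs 3 Ω) (M mm : ℕ → ℕ) (D : ∀ n, Td (Ω n))

/-- The facts that are used for the vertical system of the coordinates `i`, `i'`. -/
structure VH (i i' : Fin 3) (wt ρ ε₀ : ℝ) : Prop where
  cl : Cl K
  ne : ∃ X, K X
  big : Big M
  one : 1 ≤ wt
  pos : 0 < ρ
  e0 : 0 < ε₀ ∧ ε₀ ≤ 1
  bs : ∀ C : ℕ, 0 < C → ∀ X, K X → Bs X.P (X.G g) fun n => C * M n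
  fθ : ∀ X, K X → ∀ᶠ n in UF, ∀ j, Fn (X n).Q (X.G g n).θ ((mD X D n).S j)
  brd : ∀ X, K X → Brd X.P (X.G g) M (mD X D) i wt ρ
  dpt : ∀ X, K X → ∀ a p r : ℕ → ℕ, OM M a → OM M r → (∀ᶠ n in UF, p n ≤ r n) →
    Le M (fun n => p n) (fun n => wt * a n) →
    ND X.P M (fun n v => (fl1 (p n) ((X.G g n).pt v i), fl1 (p n) ((X.G g n).pt v i')))
      fun n v => ((mD X D n).S (a n) v, xz (X.G g n) (r n) v)
  dsl : ∀ X, K X → ∀ a p r : ℕ → ℕ, OM M a → OM M r → (∀ᶠ n in UF, p n ≤ r n) →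
    Le M (fun n => p n) (fun n => (wt - 1) * a n) →
    ND X.P M (fun n v => (fl1 (p n) ((X.G g n).e v i), fl1 (p n) ((X.G g n).e v i')))
      fun n v => ((mD X D n).S (a n) v, bl (X.G g n) (r n) v)
  ng : ∀ X, K X → ∀ q q' r : ℕ → ℕ, OM M r → (∀ᶠ n in UF, q n ≤ q' n ∧ wt * q' n ≤ r n) →
    Le M (fun n => ch (X n).Q (fun v => fl1 (q' n) ((X.G g n).pt v i')) fun v =>
      (fl1 (q n) ((X.G g n).pt v i'), fl1 (q' n) ((X.G g n).pt v i), xz (X.G g n) (r n) v))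
      fun n => (1 - ε₀) * (q' n - q n) * lg

/-- The depths of a vertical system. -/
structure VP (wt : ℝ) (a α R r : ℕ → ℕ) : Prop where
  om : OM M a ∧ OM M r
  lo : ∀ᶠ n in UF, (wt - 1) * a n ≤ α n ∧ wt * (α n + R n : ℕ) ≤ r n
  up : Le M (fun n => α n) fun n => (wt - 1) * a n
  fl : Le M (fun n => (α n + R n : ℕ)) fun n => wt * a n
  fr : ∃ κ : ℝ, 0 < κ ∧ ∀ᶠ n in UF, κ * M n ≤ R n

/-- The slope of the hyperplane of level `b` in the direction `u`. -/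
def Gc (b : ℕ → ℕ) (n : ℕ) (ω : Ω n) : ℝ := ((D n).H (b n) ω).2.2 1

/-- The rounded slope of level `b` is bounded and a function of the line. -/
structure Sh (X : Mb Ω) (γ d : ℝ) (a b k : ℕ → ℕ) : Prop where
  mem : K X
  om : OM M b
  le : ∀ᶠ n in UF, a n ≤ b n
  eq : Eqv M (fun n => k n) fun n => (d - γ) * a n
  fn : ∀ᶠ n in UF, Fn (X n).Q (fun v => fl1 (k n) (Gc (mD X D) b n v)) (X.G g n).ln
  bd : ∃ L, Sub M L ∧ ∀ᶠ n in UF, ∀ v ∈ (X n).Q.S, |Gc (mD X D) b n v| ≤ L n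

end Class

/-- The rounded slope on a member. -/
noncomputable def Gh {Ω : ℕ → Type} (D : ∀ n, Td (Ω n)) (X : Mb Ω) (b k : ℕ → ℕ) (n : ℕ)
    (v : (X n).W) : ℝ := U.rd (k n) (Gc (mD X D) b n v)

/-- The sheared coordinate of a vector. -/
def sh (G : ℝ) (p : V 3) : ℝ := p 2 - G * p 1

/-- A statement on all vertical systems. -/
def ForV (p : ∀ {Ω : ℕ → Type}, (Mb Ω → Prop) → Gs 3 Ω → (M α R r : ℕ → ℕ) → (i i' : Fin 3) →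
    (ρ ε₀ : ℝ) → Prop) : Prop :=
  ∀ {Ω : ℕ → Type} (K : Mb Ω → Prop) (g : Gs 3 Ω) (M : ℕ → ℕ) (D : ∀ n, Td (Ω n)) (i i' : Fin 3)
    (wt ρ ε₀ : ℝ) (a α R r : ℕ → ℕ), VH K g M D i i' wt ρ ε₀ → VP M wt a α R r →
    p K g M α R r i i' ρ ε₀

/-- The vertical system is a broad class. -/
def VCls : Prop := ForV fun K g _ α R r i i' ρ _ =>
  Cls K (Gs.fin (fun n => vs (g n) i i' (α n) (r n)) R) R 0 ρ

/-- The vertical system has no full window. -/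
def VNg : Prop := ForV fun K g _ α R r i i' _ ε₀ => ∀ X, K X → ∀ b : ℕ → ℕ, (∀ n, b n ≤ R n) →
  Le R (fun n => ch (X n).Q
    (fun v => fl1 (R n) ((X.G (fun n => vs (g n) i i' (α n) (r n)) n).pt v 1)) fun v =>
      (fl1 (b n) ((X.G (fun n => vs (g n) i i' (α n) (r n)) n).pt v 1),
        fl1 (R n) ((X.G (fun n => vs (g n) i i' (α n) (r n)) n).pt v 0),
        (X.G (fun n => vs (g n) i i' (α n) (r n)) n).zt v))
    fun n => (1 - ε₀) * (R n - b n) * lg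

/-- Filled segments at the height and at a copied height. -/
def VLab : Prop := ForV fun K g M α R r i i' _ _ => ∃ (X : Mb _) (β Λ : ℕ → Type)
  (l : ∀ n, (X n).W → β n) (Γ : ∀ n, (X n).W → Λ n) (G : ∀ n, (X n).W → ℝ), K X ∧
  (∀ n, Fn (X n).Q (l n) (X.G g n).ln) ∧
  Seg X.P (fun n v => (X.G g n).pt v i) (fun n v => (X.G g n).pt v i')
    (fun n => xz (X.G g n) (r n)) Γ G M α (fun n => α n + R n) ∧
  Seg (fun n => glue (X n).Q (X n).Q (l n) (l n)) (fun n v => (X.G g n).pt v.1 i)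
    (fun n v => (X.G g n).pt v.1 i') (fun n v => xz (X.G g n) (r n) v.1) (fun n v => Γ n v.2)
    (fun n v => G n v.2) M α fun n => α n + R n

/-- The rate of the pair on all refinements of a member. -/
def VUp : Prop := ∀ {Ω W : ℕ → Type} (K : Mb Ω → Prop) (g : Gs 3 Ω) (M : ℕ → ℕ)
  (D : ∀ n, Td (Ω n)) (i i' : Fin 3) (wt ρ ε₀ : ℝ) (X : Mb Ω) (Q : ∀ n, FP (W n))
  (f : ∀ n, W n → (X n).W) (q q' r : ℕ → ℕ), VH K g M D i i' wt ρ ε₀ → K X → DnS Q f X.P →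
  OM M r → (∀ᶠ n in UF, q n ≤ q' n ∧ wt * q' n ≤ r n) →
  U.Upp Q (fun n v => (fl1 (q' n) ((X.G g n).pt (f n v) i), fl1 (q' n) ((X.G g n).pt (f n v) i')))
    (fun n v => (fl1 (q n) ((X.G g n).pt (f n v) i), fl1 (q n) ((X.G g n).pt (f n v) i'),
      xz (X.G g n) (r n) (f n v))) M fun n => (2 - ε₀) * (q' n - q n) * lg

/-! ### Mode II -/

/-- The rate of `f` given `u` at the matching depth only. -/
def NGm : Prop := ∀ {Ω : ℕ → Type} (K : Mb Ω → Prop) (g : Gs 3 Ω) (M mm : ℕ → ℕ)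
  (D : ∀ n, Td (Ω n)) (η γ d ε₀ : ℝ) (X : Mb Ω) (q q' p r : ℕ → ℕ), T2 K g M mm D η γ d ε₀ → K X →
  OM M r → (∀ᶠ n in UF, q n ≤ q' n ∧ p n ≤ r n ∧ γ * q' n ≤ r n) →
  Le M (fun n => γ * q' n) (fun n => d * p n) → (d ≤ γ ∨ ∀ᶠ n in UF, q' n ≤ p n) →
  Le M (fun n => ch (X n).Q (fun v => fl1 (q' n) ((X.G g n).pt v 2)) fun v =>
    (fl1 (q n) ((X.G g n).pt v 2), fl1 (p n) ((X.G g n).pt v 1), xz (X.G g n) (r n) v))
    fun n => (1 - ε₀) * (q' n - q n) * lg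

/-- The vertical facts in case B1. -/
def VH2 : Prop := ∀ {Ω : ℕ → Type} (K : Mb Ω → Prop) (g : Gs 3 Ω) (M mm : ℕ → ℕ)
  (D : ∀ n, Td (Ω n)) (η γ d ε₀ : ℝ), T2 K g M mm D η γ d ε₀ → γ ≤ d → BrK K g M D 1 γ →
  ∃ ρ, VH K g M D 1 2 γ ρ ε₀

/-- The slope of the cells is a function of the line. -/
def B1G : Prop := ∀ {Ω : ℕ → Type} (K : Mb Ω → Prop) (g : Gs 3 Ω) (M mm : ℕ → ℕ)
  (D : ∀ n, Td (Ω n)) (η γ d ε₀ ρ : ℝ), T2 K g M mm D η γ d ε₀ → 1 < γ → γ < d →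
  VH K g M D 1 2 γ ρ ε₀ → ∃ (X : Mb Ω) (a b k : ℕ → ℕ) (κ : ℝ), Sh K g M D X γ d a b k ∧ 0 < κ ∧
    ∀ᶠ n in UF, κ * M n ≤ a n

/-- A statement on all sheared members. -/
def ForS (p : ∀ {Ω : ℕ → Type}, Gs 3 Ω → (M mm : ℕ → ℕ) → (∀ n, Td (Ω n)) → Mb Ω →
    (γ d ε₀ : ℝ) → (a b k : ℕ → ℕ) → Prop) : Prop :=
  ∀ {Ω : ℕ → Type} (K : Mb Ω → Prop) (g : Gs 3 Ω) (M mm : ℕ → ℕ) (D : ∀ n, Td (Ω n))
    (η γ d ε₀ ρ : ℝ) (X : Mb Ω) (a b k : ℕ → ℕ), T2 K g M mm D η γ d ε₀ → 1 < γ → γ < d →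
    VH K g M D 1 2 γ ρ ε₀ → Sh K g M D X γ d a b k → p g M mm D X γ d ε₀ a b k

/-- The rounded slope joins the labels. -/
def ShL : Prop := ForS fun g M mm D X _ _ _ a b k =>
  (∀ c : ℕ → ℕ, (∀ᶠ n in UF, c n ≤ b n) →
    Lab X.P (X.G g) mm c fun n v => ((mD X D n).S (c n) v, Gh D X b k n v)) ∧
  ND X.P M (Gh D X b k) fun n => (mD X D n).S (a n)

/-- After the shear the cells are products. -/
def ShP : Prop := ForS fun g M _ D X _ d _ a b k => ∀ c p : ℕ → ℕ, (∀ᶠ n in UF, c n ≤ a n) →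
  Le M (fun n => p n) (fun n => d * c n) → ∃ (A : ∀ n, (X n).W → ℝ × ℝ × ℝ) (L : ℕ → ℝ),
    Sub M L ∧ (∀ᶠ n in UF, Fn (X n).Q (A n) fun v => ((mD X D n).S (c n) v, Gh D X b k n v)) ∧
    Whp X.P fun n v => |(A n v).2.1| ≤ L n ∧ |(A n v).2.2| ≤ L n ∧
      |sh (Gh D X b k n v) ((X.G g n).pt v) - (A n v).1 - (A n v).2.1 * (X.G g n).z v -
        (A n v).2.2 * (X.G g n).pt v 0| ≤ L n / 2 ^ p n ∧
      |sh (Gh D X b k n v) ((X.G g n).e v) - (A n v).2.1 - (A n v).2.2 * (X.G g n).e v 0| ≤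
        L n * 2 ^ c n / 2 ^ p n

/-- The sheared coordinate is full given `u` at the depth of the label. -/
def B1a : Prop := ForS fun g M _ D X γ d _ _ b k => ∀ c p q q' r : ℕ → ℕ, OM M r →
  (∀ᶠ n in UF, c n ≤ b n ∧ p n ≤ r n ∧ d * c n ≤ q n ∧ q n ≤ q' n ∧ q' n ≤ r n) →
  Le M (fun n => p n) (fun n => γ * c n) →
  Le M (fun n => (q' n - q n : ℝ) * lg) fun n =>
    ch (X n).Q (fun v => fl1 (q' n) (sh (Gh D X b k n v) ((X.G g n).pt v))) fun v =>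
      (fl1 (q n) (sh (Gh D X b k n v) ((X.G g n).pt v)), fl1 (p n) ((X.G g n).pt v 1),
        Gh D X b k n v, xz (X.G g n) (r n) v)

/-- The coordinate `u` is full in its tube given the sheared coordinate. -/
def B1b : Prop := ForS fun g M _ D X γ d _ a b k => ∀ (p R q' r : ℕ → ℕ) (κ : ℝ), OM M r → 0 < κ →
  (∀ᶠ n in UF, (γ - 1) * a n ≤ p n ∧ κ * M n ≤ R n ∧ p n + R n ≤ r n ∧ q' n ≤ r n) →
  Le M (fun n => (p n + R n : ℕ)) (fun n => γ * a n) →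
  Le M (fun n => q' n) (fun n => (d - 1) * a n) →
  Le M (fun n => R n * lg) fun n =>
    ch (X n).Q (fun v => fl1 (p n + R n) ((X.G g n).pt v 1)) fun v =>
      (fl1 (p n) ((X.G g n).pt v 1), fl1 (q' n) (sh (Gh D X b k n v) ((X.G g n).pt v)),
        Gh D X b k n v, xz (X.G g n) (r n) v)

/-- The deep digits of `u` are full given the sheared coordinate. -/
def B1c : Prop := ForS fun g M _ D X γ d _ a b k => ∀ c p q' r : ℕ → ℕ, OM M r →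
  (∀ᶠ n in UF, c n ≤ a n ∧ γ * c n ≤ p n ∧ p n ≤ r n ∧ q' n ≤ r n) →
  Le M (fun n => q' n) (fun n => d * c n) →
  Le M (fun n => (r n - p n : ℝ) * lg) fun n =>
    ch (X n).Q (fun v => fl1 (r n) ((X.G g n).pt v 1)) fun v =>
      (fl1 (p n) ((X.G g n).pt v 1), fl1 (q' n) (sh (Gh D X b k n v) ((X.G g n).pt v)),
        Gh D X b k n v, xz (X.G g n) (r n) v)

/-- The rate of the sheared coordinate. -/
def B1d : Prop := ForS fun g M _ D X γ _ ε₀ _ b k => ∀ q q' r : ℕ → ℕ, OM M r →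
  (∀ᶠ n in UF, q n ≤ q' n ∧ γ * q' n ≤ r n) →
  Le M (fun n =>
    ch (X n).Q (fun v => fl1 (q' n) (sh (Gh D X b k n v) ((X.G g n).pt v))) fun v =>
      (fl1 (q n) (sh (Gh D X b k n v) ((X.G g n).pt v)), fl1 (r n) ((X.G g n).pt v 1),
        Gh D X b k n v, xz (X.G g n) (r n) v)) fun n => (1 - ε₀) * (q' n - q n) * lg

/-- The end of case B1. -/
def B1F : Prop := ForS fun _ M _ _ _ _ _ _ a _ _ => ∀ κ : ℝ, 0 < κ →
  (∀ᶠ n in UF, κ * M n ≤ a n) → False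

/-- In the product case `f` is full in its tube given `u`. -/
def P1a : Prop := ∀ {Ω : ℕ → Type} (K : Mb Ω → Prop) (g : Gs 3 Ω) (M mm : ℕ → ℕ)
  (D : ∀ n, Td (Ω n)) (η γ d ε₀ κ : ℝ) (X : Mb Ω) (a s R p r : ℕ → ℕ), T2 K g M mm D η γ d ε₀ →
  d ≤ γ → BrK K g M D 2 d → K X → OM M a → OM M r → 0 < κ →
  (∀ᶠ n in UF, (d - 1) * a n ≤ s n ∧ κ * M n ≤ R n ∧ s n + R n ≤ r n ∧ p n ≤ r n) →
  Le M (fun n => (s n + R n : ℕ)) (fun n => d * a n) →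
  Le M (fun n => p n) (fun n => (γ - 1) * a n) →
  Le M (fun n => R n * lg) fun n =>
    ch (X n).Q (fun v => fl1 (s n + R n) ((X.G g n).pt v 2)) fun v =>
      (fl1 (s n) ((X.G g n).pt v 2), fl1 (p n) ((X.G g n).pt v 1), xz (X.G g n) (r n) v)

/-! ### Mode I -/

/-- Fill for the coordinate `i'` sheared by the coordinate `i`. -/
def FBs {Ω : ℕ → Type} (K : Mb Ω → Prop) (g : Gs 3 Ω) (M mm : ℕ → ℕ) (i i' : Fin 3) (d : ℝ) :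
    Prop := ∀ X, K X → ∀ (Λ : ℕ → Type) (lam : ∀ n, (X n).W → Λ n) (G : ∀ n, (X n).W → ℝ)
  (a : ℕ → ℕ) (L : ℕ → ℝ), OM M a → Lab X.P (X.G g) mm a lam → Sub M L →
  (∀ᶠ n in UF, Fn (X n).Q (G n) (lam n) ∧ ∀ v ∈ (X n).Q.S, |G n v| ≤ L n) →
  Fill X.P (X.G g) M lam (fun n v => (X.G g n).pt v i' - G n v * (X.G g n).pt v i) d a

/-- The vertical facts in mode I. -/
def VH1 : Prop := ∀ {Ω : ℕ → Type} (K : Mb Ω → Prop) (g : Gs 3 Ω) (M mm : ℕ → ℕ)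
  (D : ∀ n, Td (Ω n)) (η d ε₀ : ℝ) (i i' : Fin 3), T1 K g M mm D η d ε₀ →
  (i = 1 ∧ i' = 2 ∨ i = 2 ∧ i' = 1) → BrK K g M D i d →
  (∃ ρ, VH K g M D i i' d ρ ε₀) ∧ FBs K g M mm i i' d

/-- A filled segment whose rounded slope joins the labels. -/
def IbG : Prop := ∀ {Ω : ℕ → Type} (K : Mb Ω → Prop) (g : Gs 3 Ω) (M mm : ℕ → ℕ)
  (D : ∀ n, Td (Ω n)) (η d ρ ε₀ ε : ℝ) (T : Finset (Fin 3)) (i i' : Fin 3) (a α R r k : ℕ → ℕ),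
  Tn K g M mm D η d T → VH K g M D i i' d ρ ε₀ → VP M d a α R r → 0 < ε →
  (∀ᶠ n in UF, k n + ε * M n ≤ ε₀ * R n) →
  ∃ (X : Mb Ω) (Λ : ℕ → Type) (Γ : ∀ n, (X n).W → Λ n) (G : ∀ n, (X n).W → ℝ) (L : ℕ → ℝ), K X ∧
    Seg X.P (fun n v => (X.G g n).pt v i) (fun n v => (X.G g n).pt v i')
      (fun n => xz (X.G g n) (r n)) Γ G M α (fun n => α n + R n) ∧ Sub M L ∧
    (∀ᶠ n in UF, ∀ v ∈ (X n).Q.S, |G n v| ≤ L n) ∧ ∀ c : ℕ → ℕ, OM M c →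
      Lab X.P (X.G g) mm c fun n v => ((mD X D n).S (c n) v, U.rd (k n) (G n v))

/-- The end of the broad case in mode I. -/
def IbF : Prop := ∀ {Ω : ℕ → Type} (K : Mb Ω → Prop) (g : Gs 3 Ω) (M mm : ℕ → ℕ)
  (D : ∀ n, Td (Ω n)) (η d ρ ε₀ : ℝ) (T : Finset (Fin 3)) (i i' : Fin 3),
  Tn K g M mm D η d T → VH K g M D i i' d ρ ε₀ → FBs K g M mm i i' d → False

/-! ### Rows -/

def RCor2 : Prop := SegK → Cor2
def RCor3 : Prop := SegK → Cor2 → Cor3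
def RXV : Prop := BsD → XV
def RUFl : Prop := ThmU0 → UFl
def RVSh : Prop := ShF → VSh
def RVCls : Prop := BsD → VCls
def RVLab : Prop := UFl → VSh → VTr → VCls → VNg → VLab
def RNGm : Prop := Swap → NGm
def RVH2 : Prop := NGm → VH2
def RB1G : Prop := SegK → Cor3 → Maj → VLab → VUp → B1G
def RB1a : Prop := ShL → B1a
def RB1b : Prop := XV → ShL → ShP → B1b
def RB1c : Prop := ShL → ShP → B1c
def RB1F : Prop := Swap → B1a → B1b → B1c → B1d → B1F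
def RP1a : Prop := XV → P1a
def RCP1 : Prop := NGm → P1a → CP1
def RIbG : Prop := SegK → Cor3 → Maj → CpL → VLab → VUp → IbG
def RIbF : Prop := SegK → Fin2 → VUp → IbG → IbF

theorem cb1_of (h1 : VH2) (h2 : B1G) (h3 : B1F) : CB1 := fun K g M mm D η γ d ε₀ h c b => by
  obtain ⟨ρ, v⟩ := h1 K g M mm D η γ d ε₀ h c.2.le b
  obtain ⟨X, a, b', k, κ, s, hκ, e⟩ := h2 K g M mm D η γ d ε₀ ρ h c.1 c.2 v
  exact h3 K g M mm D η γ d ε₀ ρ X a b' k h c.1 c.2 v s κ hκ e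

theorem cib_of (h1 : VH1) (h2 : IbF) : CIB := fun K g M mm D η d ε₀ h _ b => by
  rcases b with b | b
  · obtain ⟨⟨ρ, v⟩, f⟩ := h1 K g M mm D η d ε₀ 1 2 h (Or.inl ⟨rfl, rfl⟩) b
    exact h2 K g M mm D η d ρ ε₀ _ 1 2 h.toTn v f
  · obtain ⟨⟨ρ, v⟩, f⟩ := h1 K g M mm D η d ε₀ 2 1 h (Or.inr ⟨rfl, rfl⟩) b
    exact h2 K g M mm D η d ρ ε₀ _ 2 1 h.toTn v f

end Pool.Agent.MP_5168f5_an.R4.B1
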