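import Pool.Agent.MP_5168f5_an.R4.DefQ

/-! Extension step for quadrics: algebraic and finite statements. -/

namespace Pool.Agent.MP_5168f5_an.R4

open H19 H17S H17F Matrix

/-! ### Algebra of two quadrics through a point -/

/-- The lift of `v` along `bv 4` to the tangent space of `A` at `Y`. -/
noncomputable def tl (A : Qd) (Y v : V 5) : V 5 := v - (pf A Y v / pf A Y (bv 4)) • bv 4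

/-- The conic over the line `Y + ζ v` has no branch point near `Y`. -/
def Tame (A : Qd) (Y v : V 5) (Λ : ℝ) : Prop :=
  |pf A (tl A Y v) (bv 4)| ≤ Λ ∧ |qf A (bv 4) * qf A (tl A Y v)| ≤ Λ ^ 2

/-- The coefficients of `A₁` along the rational parametrisation of the conic of `A₂` over the
line `Y + ζ v`. -/
noncomputable def jet (A₁ A₂ : Qd) (Y v : V 5) : ℕ → ℝ
  | 1 => -pf A₁ Y (tl A₂ Y v)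
  | 2 => -pf A₁ Y (tl A₂ Y v) * (pf A₂ (tl A₂ Y v) (bv 4) / pf A₂ Y (bv 4)) +
      (qf A₁ (tl A₂ Y v) - pf A₁ Y (bv 4) / pf A₂ Y (bv 4) * qf A₂ (tl A₂ Y v))
  | 3 => -pf A₁ Y (tl A₂ Y v) * (qf A₂ (bv 4) * qf A₂ (tl A₂ Y v) / pf A₂ Y (bv 4) ^ 2) +
      qf A₂ (tl A₂ Y v) / pf A₂ Y (bv 4) * (pf A₁ (tl A₂ Y v) (bv 4) -
        pf A₁ Y (bv 4) / pf A₂ Y (bv 4) * pf A₂ (tl A₂ Y v) (bv 4))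
  | 4 => (qf A₂ (tl A₂ Y v) / pf A₂ Y (bv 4)) ^ 2 *
      (qf A₁ (bv 4) - pf A₁ Y (bv 4) / pf A₂ Y (bv 4) * qf A₂ (bv 4))
  | _ => 0

/-- Among the monomials `c i x^i`, `1 ≤ i ≤ 4`, the one of degree `j` dominates by the factor `K`. -/
def Dom (c : ℕ → ℝ) (K x : ℝ) (j : ℕ) : Prop :=
  1 ≤ j ∧ j ≤ 4 ∧ ∀ i, 1 ≤ i → i ≤ 4 → i ≠ j → K * (|c i| * x ^ i) ≤ |c j| * x ^ j

/-- Newton polygon: a dyadic scale at which one monomial dominates. -/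
def ESel : Prop := ∀ (c : ℕ → ℝ) (r k : ℕ) (ε : ℝ), 1 ≤ r → 0 < ε →
  (∀ i, 1 ≤ i → i ≤ 4 → |c i| ≤ ε) →
  (∃ i, 1 ≤ i ∧ i ≤ 4 ∧ (2 ^ r) ^ 141 * ε < |c i| * (2 ^ k) ^ i) →
  ∃ w j : ℕ, r ≤ w ∧ w ≤ k ∧ Dom c (2 ^ r) (2 ^ w) j ∧
    (2 ^ r) ^ 17 * ε ≤ |c j| * (2 ^ w) ^ j ∧ |c j| * (2 ^ w) ^ j ≤ (2 ^ r) ^ 141 * ε

/-- Homogeneity, and a priori bounds for short vectors. -/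
structure EJet : Prop where
  tl : ∀ (A : Qd) (Y v v' : V 5) (s : ℝ), tl A Y (s • v) = s • tl A Y v ∧
    tl A Y (v + v') = tl A Y v + tl A Y v'
  jet : ∀ (A₁ A₂ : Qd) (Y v : V 5) (s : ℝ) (i : ℕ), jet A₁ A₂ Y (s • v) i = s ^ i * jet A₁ A₂ Y v i
  tame : ∀ (A : Qd) (Y v : V 5) (s Λ : ℝ), Tame A Y v Λ → Tame A Y (s • v) (|s| * Λ)
  apr : ∀ (A₁ A₂ : Qd) (Y v : V 5) (L ε : ℝ), 1 ≤ L → 0 < ε → 1 ≤ pf A₂ Y (bv 4) →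
    |pf A₁ Y (bv 4)| ≤ L → |pf A₁ Y v| ≤ L * ε → |pf A₂ Y v| ≤ L * ε → |qf A₁ v| ≤ L * ε →
    |qf A₂ v| ≤ L * ε → |pf A₁ v (bv 4)| ≤ L → |pf A₂ v (bv 4)| ≤ L → |qf A₁ (bv 4)| * ε ≤ L →
    |qf A₂ (bv 4)| * ε ≤ L → ∀ i, |R4.jet A₁ A₂ Y v i| ≤ 100 * L ^ 10 * ε

/-- Three spread points of the conic make it tame. -/
def ETame : Prop := ∀ (A : Qd) (Y v : V 5) (ζ₁ ζ₂ g₁ g₂ L ε : ℝ), 1 ≤ L → 1 ≤ pf A Y (bv 4) →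
  pf A Y (bv 4) ≤ L → |qf A Y| ≤ ε → |qf A (bv 4)| * ε ≤ 1 →
  |qf A (Y + ζ₁ • v + g₁ • bv 4)| ≤ ε → |pf A (Y + ζ₁ • v + g₁ • bv 4) (bv 4)| ≤ L →
  |qf A (Y + ζ₂ • v + g₂ • bv 4)| ≤ ε → |pf A (Y + ζ₂ • v + g₂ • bv 4) (bv 4)| ≤ L →
  |ζ₁| ≤ L → |ζ₂| ≤ L → 1 ≤ L * |ζ₁| → 1 ≤ L * |ζ₂| → 1 ≤ L * |ζ₁ - ζ₂| →
  Tame A Y v (100 * L ^ 6)

/-- The value of `A₁` at a point of `A₂` over the line is one monomial. -/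
def ECurve : Prop := ∀ (A₁ A₂ : Qd) (Y v : V 5) (ζ g L Λ K ε σ x : ℝ) (j : ℕ),
  1 ≤ pf A₂ Y (bv 4) → 1 ≤ pf A₁ Y (bv 4) → pf A₁ Y (bv 4) ≤ L → Tame A₁ Y v Λ → Tame A₂ Y v Λ →
  100 ≤ K → 0 ≤ Λ → x * Λ * K ≤ 1 → 0 < σ → σ ≤ 1 → 0 < x → σ * x ≤ |ζ| → |ζ| ≤ x →
  |qf A₁ Y| ≤ ε → |qf A₂ Y| ≤ ε → |qf A₂ (Y + ζ • v + g • bv 4)| ≤ ε →
  0 ≤ pf A₂ (Y + ζ • v + g • bv 4) (bv 4) → Dom (jet A₁ A₂ Y v) K x j →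
  K * (40 * L * ε) ≤ |jet A₁ A₂ Y v j| * x ^ j →
  |qf A₁ (bv 4)| * (|jet A₁ A₂ Y v j| * x ^ j) * K ≤ 1 →
  |qf A₁ (Y + ζ • v + g • bv 4) - jet A₁ A₂ Y v j * (-ζ) ^ j| ≤
      100 / (σ ^ 4 * K) * (|jet A₁ A₂ Y v j| * |ζ| ^ j) ∧
    1 / 2 ≤ |pf A₁ (Y + ζ • v + g • bv 4) (bv 4)| ∧
    |pf A₁ (Y + ζ • v + g • bv 4) (bv 4)| ≤ 2 * L

/-- Two curves `C (s - a)^j` cross at most once. -/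
def ECross : Prop := ∀ (C₁ C₂ z₁ z₂ z₁' z₂' φ₁ φ₂ φ₁' φ₂' ε : ℝ) (j : ℕ), 1 ≤ j → C₁ ≠ 0 →
  0 < z₁ * z₂ → 0 < z₁' * z₂' → 0 ≤ ε → ε ≤ 1 / 100 →
  |φ₁ - C₁ * z₁ ^ j| ≤ ε * (|C₁| * |z₁| ^ j) → |φ₂ - C₂ * z₂ ^ j| ≤ ε * (|C₂| * |z₂| ^ j) →
  |φ₁' - C₁ * z₁' ^ j| ≤ ε * (|C₁| * |z₁'| ^ j) → |φ₂' - C₂ * z₂' ^ j| ≤ ε * (|C₂| * |z₂'| ^ j) →
  |φ₁ - φ₂| ≤ ε * (|C₁| * |z₁| ^ j) → |φ₁' - φ₂'| ≤ ε * (|C₁| * |z₁'| ^ j) →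
  |z₁ * z₂' - z₂ * z₁'| ≤ 10 * ε * (|z₂| * |z₁'|)

/-- The sixteen directions. -/
def dir (W : Fin 3 → V 5) (i : Fin 4 × Fin 4) : V 5 :=
  W 0 + ((i.1 : ℕ) : ℝ) • W 1 + ((i.2 : ℕ) : ℝ) • W 2

/-- The size of the second fundamental form. -/
noncomputable def curv (A : Qd) (Y : V 5) (W : Fin 3 → V 5) : ℝ :=
  ‖fun i : Fin 3 × Fin 3 => pf A (tl A Y (W i.1)) (tl A Y (W i.2))‖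

/-- `A₁` is a multiple of `A₂` up to `η` in the tangent frame of `A₂` at `Y`. -/
structure Agr (A₁ A₂ : Qd) (Y : V 5) (W : Fin 3 → V 5) (Λ η : ℝ) : Prop where
  d₁ : 1 ≤ pf A₁ Y (bv 4) ∧ pf A₁ Y (bv 4) ≤ Λ
  d₂ : 1 ≤ pf A₂ Y (bv 4) ∧ pf A₂ Y (bv 4) ≤ Λ
  val : |qf A₁ Y| ≤ η ∧ |qf A₂ Y| ≤ η
  tan : ∀ a, |pf A₁ Y (tl A₂ Y (W a))| ≤ η
  sec : ∀ a b, |pf (A₁ - (pf A₁ Y (bv 4) / pf A₂ Y (bv 4)) • A₂) (tl A₂ Y (W a)) (tl A₂ Y (W b))| ≤ η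
  mix : ∀ a, curv A₂ Y W *
    |pf (A₁ - (pf A₁ Y (bv 4) / pf A₂ Y (bv 4)) • A₂) (tl A₂ Y (W a)) (bv 4)| ≤ η
  top : curv A₂ Y W ^ 2 * |qf (A₁ - (pf A₁ Y (bv 4) / pf A₂ Y (bv 4)) • A₂) (bv 4)| ≤ η
  bet : ∀ a, |pf A₁ (tl A₂ Y (W a)) (bv 4)| ≤ Λ
  alp : |qf A₁ (bv 4)| * max (curv A₂ Y W) η ≤ Λ

/-- Small jets in the sixteen directions. -/
def EAlg : Prop := ∃ C : ℝ, 1 ≤ C ∧ ∀ (A₁ A₂ : Qd) (Y : V 5) (W : Fin 3 → V 5) (L η : ℝ),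
  1 ≤ L → 0 ≤ η → 1 ≤ pf A₁ Y (bv 4) → pf A₁ Y (bv 4) ≤ L → 1 ≤ pf A₂ Y (bv 4) →
  pf A₂ Y (bv 4) ≤ L → |qf A₁ Y| ≤ η → |qf A₂ Y| ≤ η → |qf A₁ (bv 4)| * (C * L ^ 3 * η) ≤ 1 →
  (∀ i, Tame A₁ Y (dir W i) L ∧ Tame A₂ Y (dir W i) L ∧ ∀ j, |jet A₁ A₂ Y (dir W i) j| ≤ η) →
  Agr A₁ A₂ Y W (C * L ^ 3) (C * L ^ 3 * η)

/-- Grid lemmas: linear and quadratic forms on the sixteen directions. -/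
structure EGrid : Prop where
  lin : ∀ (l : Fin 3 → ℝ) (η : ℝ),
    (∀ i : Fin 4 × Fin 4, |l 0 + ((i.1 : ℕ) : ℝ) * l 1 + ((i.2 : ℕ) : ℝ) * l 2| ≤ η) →
    ∀ a, |l a| ≤ 2 * η
  quad : ∀ (A : Qd) (U : Fin 3 → V 5) (η : ℝ), (∀ i, |qf A (dir U i)| ≤ η) →
    ∀ a b, |pf A (U a) (U b)| ≤ 20 * η
  prod : ∀ (A : Qd) (U : Fin 3 → V 5) (l : Fin 3 → ℝ) (η : ℝ),
    (∀ i : Fin 4 × Fin 4, |qf A (dir U i)| *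
      |l 0 + ((i.1 : ℕ) : ℝ) * l 1 + ((i.2 : ℕ) : ℝ) * l 2| ≤ η) →
    ∀ a b c, |pf A (U a) (U b)| * |l c| ≤ 1000000 * η

/-- The height of `Z` over the tangent hyperplane of `A` at `Y`. -/
noncomputable def ht (A : Qd) (Y Z : V 5) : ℝ := pf A Y (Z - Y) / pf A Y (bv 4)

/-- A segment on `A₁` that starts near `Y` stays near the tangent hyperplane of `A₂` at `Y`, and
the tangent hyperplanes of `A₁` along it are close to it. -/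
def ETr : Prop := ∃ C : ℝ, 1 ≤ C ∧ ∀ (A₁ A₂ : Qd) (Y : V 5) (W : Fin 3 → V 5) (Λ η : ℝ)
  (b b' : Fin 3 → ℝ) (g g' s₀ : ℝ) (Z : ℝ → V 5), 1 ≤ Λ → Agr A₁ A₂ Y W Λ η →
  (∀ s, Z s = Y + ∑ a, (b a + s * b' a) • W a + (g + s * g') • bv 4) →
  0 ≤ s₀ → s₀ < 1 → (∀ a, 100 * Λ * |b a + s₀ * b' a| ≤ 1 ∧ |b' a| ≤ Λ) →
  1 / 2 ≤ pf A₁ (Z s₀) (bv 4) →
  (∀ s, 0 ≤ s → s < 1 → |qf A₁ (Z s)| ≤ η ∧ |pf A₁ (Z s) (bv 4)| ≤ Λ) →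
  ∀ s, 0 ≤ s → s < 1 → |ht A₂ Y (Z s)| ≤ C * Λ ^ 2 * max (curv A₂ Y W) η ∧
    ∀ a, |pf A₁ (Z s) (tl A₂ Y (W a))| ≤ C * Λ ^ 3 * max (curv A₂ Y W) η

/-! ### Finite entropy inequalities -/

/-- The `L²` argument: curves `γ` with feet `a` that cross transversally fill the fibre. -/
def ECor : Prop := ∀ {Ω Θ Γ S U : Type} (P : FP Ω) (θ : Ω → Θ) (γ : Ω → Γ) (σ : Ω → S)
  (v : Ω → U) (a T : Ω → ℤ) (G : Ω → Prop) (Ns : Ω → ℝ) (Na B d : ℝ), 1 ≤ Na → 1 ≤ B → 0 ≤ d →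
  7 / 8 ≤ pb P G → Fn P a (fun ω => (γ ω, θ ω)) → Fn P T (fun ω => (σ ω, θ ω)) → Fn P Ns θ →
  (∀ ω ∈ P.S, Na ≤ Ns ω) → Det P a θ Na →
  (∀ ω ∈ P.S, ∃ F : Finset ℤ, (F.card : ℝ) ≤ Ns ω ∧ ∀ ω' ∈ P.S, θ ω' = θ ω → T ω' ∈ F) →
  Real.log Na - d ≤ ch P a θ → (P.E fun ω => Real.log (Ns ω)) - d ≤ ch P T θ →
  mi P σ γ θ ≤ d →
  (∀ ω₁ ∈ P.S, ∀ ω₁' ∈ P.S, ∀ ω₂ ∈ P.S, ∀ ω₂' ∈ P.S, G ω₁ → G ω₁' → G ω₂ → G ω₂' →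
    θ ω₁' = θ ω₁ → θ ω₂ = θ ω₁ → θ ω₂' = θ ω₁ → γ ω₁' = γ ω₁ → γ ω₂' = γ ω₂ →
    σ ω₂ = σ ω₁ → v ω₂ = v ω₁ → σ ω₂' = σ ω₁' → v ω₂' = v ω₁' →
    |(T ω₁ : ℝ) - T ω₁'| * |(a ω₁ : ℝ) - a ω₂| ≤ B * Ns ω₁) →
  ∃ E : Ω → Prop, (∀ ω, E ω → G ω) ∧ 1 / 4 ≤ pb P E ∧
    Real.log Na - 200 * (d + 1) - Real.log (100 * B * (1 + Real.log Na)) ≤
      ch (cE P E) v fun ω => (σ ω, θ ω)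

/-- Digits of an integer in a window that depends on a label `ι`. -/
def EWin : Prop := ∀ {Ω Γ : Type} (P : FP Ω) (T : Ω → ℤ) (Θ : Ω → Γ) (ι : Ω → ℕ) (u w : ℕ → ℕ)
  (k I : ℕ) (L : ℝ), 1 ≤ L → (∀ ω ∈ P.S, ι ω ≤ I ∧ u (ι ω) ≤ w (ι ω) ∧ w (ι ω) ≤ k) →
  (∀ ω ∈ P.S, |(T ω : ℝ)| ≤ L * 2 ^ k) →
  ch P T Θ - k * lg + (P.E fun ω => ((w (ι ω) : ℝ) - u (ι ω)) * lg) - Real.log (I + 1) -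
      Real.log (2 * L + 2) ≤
    ch P (fun ω => T ω / 2 ^ u (ι ω)) fun ω => (Θ ω, ι ω, T ω / 2 ^ w (ι ω))

/-- A full integer has two companions in its fibre, all three well separated. -/
def ESpr : Prop := ∀ {Ω Γ : ℕ → Type} (P : ∀ n, FP (Ω n)) (T : ∀ n, Ω n → ℤ) (Θ : ∀ n, Ω n → Γ n)
  (R k : ℕ → ℕ) (L : ℕ → ℝ), Big R → Sub R L → (∀ᶠ n in UF, R n ≤ k n ∧
    ∀ a ∈ (P n).S, ∀ b ∈ (P n).S, Θ n a = Θ n b → |(T n a : ℝ) - T n b| ≤ L n * 2 ^ k n) →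
  Le R (fun n => k n * lg) (fun n => ch (P n) (T n) (Θ n)) →
  ∃ L', Sub R L' ∧ Whp P fun n ω => ∃ ω₁ ∈ (P n).S, ∃ ω₂ ∈ (P n).S, Θ n ω₁ = Θ n ω ∧
    Θ n ω₂ = Θ n ω ∧ 2 ^ k n ≤ L' n * |(T n ω₁ : ℝ) - T n ω| ∧
    2 ^ k n ≤ L' n * |(T n ω₂ : ℝ) - T n ω| ∧ 2 ^ k n ≤ L' n * |(T n ω₁ : ℝ) - T n ω₂|

def OfEAlg : Prop := EJet → EGrid → EAlg

end Pool.Agent.MP_5168f5_an.R4
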