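import Pool.Agent.MP_5168f5_an.R4.SpecT
import Pool.Agent.MP_5168f5_an.R4.SpecE1

/-! Extension step for quadrics: the lattice model, rounding, and the count of directions. -/

namespace Pool.Agent.MP_5168f5_an.R4

open H19 H17S H17F Matrix Filter

/-! ### The end -/

/-- The directions of the lines in a cell. -/
def EKr : Prop := ∃ C : ℝ, 0 ≤ C ∧ ∀ {Ω Λ : Type} (P : FP Ω) (g : Geo 3 Ω) (S : Ω → Λ) (A : Ω → Qd)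
  (d : Bool → Ω → ℝ × ℝ × V 3) (L : ℝ) (j τ τ' M : ℕ) (σ : Bool → ℕ), 1 ≤ L → g.Bx P L →
  Fn P A S → (∀ k, Fn P (d k) S ∧ τ' ≤ σ k) → τ ≤ M → τ' ≤ M →
  (∀ ω ∈ P.S, g.qd.fit L (A ω) ω j τ ∧ ∀ k, (g.pl {0} (co k)).fit L (d k ω) ω j (σ k)) →
  ch P (fun ω => fl M (g.e ω)) (fun ω => (S ω, fl1 j (g.z ω))) ≤
    (3 * M + 3 * j - τ - τ' : ℝ) * lg + C * (1 + Real.log L)

def OfEndA : Prop := EKr → PR → FB → FQ → EndA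

/-! ### Entropy tools -/

/-- A sparse event with a variable number of values. -/
def ESpa : Prop := ∀ {Ω α β : Type} (P : FP Ω) (E : Ω → Prop) (F : Ω → α) (G : Ω → β) (B : Ω → ℝ)
  (c : ℝ), Fn P B G →
  (∀ a ∈ P.S, ∃ T : Finset α, (T.card : ℝ) ≤ B a ∧ ∀ b ∈ P.S, G b = G a → F b ∈ T) →
  (∀ a ∈ P.S, ∃ T : Finset α, (T.card : ℝ) ≤ B a * Real.exp (-c) ∧
    ∀ b ∈ P.S, G b = G a → E b → F b ∈ T) →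
  ch P F G ≤ lg + (P.E fun ω => Real.log (B ω)) - pb P E * c

/-- The data shared by a point and its copy. -/
abbrev cpy {Ω Γ : Type} (T : Ω → ℤ) (G : Ω → Γ) (ι : Ω → ℕ) (w : ℕ → ℕ) (ω : Ω) : Γ × ℕ × ℤ :=
  (G ω, ι ω, T ω / 2 ^ w (ι ω))

/-- The copy is not too close. -/
def far {Ω : Type} (T : Ω → ℤ) (ι : Ω → ℕ) (w : ℕ → ℕ) (s : ℕ) (y : Ω × Ω) : Prop :=
  (2 : ℝ) ^ w (ι y.1) ≤ 2 ^ s * |(T y.2 : ℝ) - T y.1|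

/-- Curves with full feet and full parameter that cross transversally fill a window. -/
def ECorA : Prop := ∀ {Ω Γ₁ Γ₂ S Th U : ℕ → Type} (P : ∀ n, FP (Ω n)) (T : ∀ n, Ω n → ℤ)
  (G₁ : ∀ n, Ω n → Γ₁ n) (G₂ : ∀ n, Ω n → Γ₂ n) (σ : ∀ n, Ω n → S n) (θ : ∀ n, Ω n → Th n)
  (ι : ∀ n, Ω n → ℕ) (w : ℕ → ℕ → ℕ) (v : ∀ n, Ω n × Ω n → U n) (R k r s I : ℕ → ℕ)
  (L B : ℕ → ℝ), Big R → Frac s R → Sub R L → Sub R (fun n => I n + 1) →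
  (∀ᶠ n in UF, Fn (P n) (θ n) (G₁ n) ∧ Fn (P n) (θ n) (G₂ n) ∧ Fn (P n) (θ n) (σ n) ∧
    Fn (P n) (T n) (σ n) ∧ s n ≤ r n ∧ r n ≤ R n ∧ 1 ≤ B n ∧ ∀ ω ∈ (P n).S,
      |(T n ω : ℝ)| ≤ L n * 2 ^ k n ∧ ι n ω ≤ I n ∧ r n ≤ w n (ι n ω) ∧ w n (ι n ω) ≤ k n) →
  Le R (fun n => k n * lg) (fun n => ch (P n) (T n) (G₁ n)) →
  Le R (fun n => k n * lg) (fun n => ch (P n) (T n) (G₂ n)) →
  Sm R (fun n => mi (P n) (σ n) (G₂ n) fun ω => (T n ω, θ n ω)) →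
  (∀ᶠ n in UF, ∀ y₁ y₁' y₂ y₂' : Ω n × Ω n,
    (∀ y ∈ [y₁, y₁', y₂, y₂'], y ∈ (glue (P n) (P n) (cpy (T n) (G₂ n) (ι n) (w n))
      (cpy (T n) (G₂ n) (ι n) (w n))).S ∧ far (T n) (ι n) (w n) (s n) y ∧
      cpy (T n) (G₁ n) (ι n) (w n) y.1 = cpy (T n) (G₁ n) (ι n) (w n) y₁.1) →
    y₁'.1 = y₁.1 → y₂'.1 = y₂.1 → σ n y₂.2 = σ n y₁.2 → v n y₂ = v n y₁ →
    σ n y₂'.2 = σ n y₁'.2 → v n y₂' = v n y₁' →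
    |(T n y₁.2 : ℝ) - T n y₁'.2| * |(T n y₁.1 : ℝ) - T n y₂.1| * 2 ^ r n ≤
      B n * (2 ^ w n (ι n y₁.1)) ^ 2) →
  ∃ E : ∀ n, Ω n × Ω n → Prop, Pos (fun n => glue (P n) (P n) (cpy (T n) (G₂ n) (ι n) (w n))
      (cpy (T n) (G₂ n) (ι n) (w n))) E ∧ (∀ n y, E n y → far (T n) (ι n) (w n) (s n) y) ∧
    Le R (fun n => r n * lg - Real.log (B n)) fun n =>
      ch (cE (glue (P n) (P n) (cpy (T n) (G₂ n) (ι n) (w n)) (cpy (T n) (G₂ n) (ι n) (w n)))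
        (E n)) (v n) fun y => (σ n y.2, cpy (T n) (G₁ n) (ι n) (w n) y.1)

/-- If the derivative `γ` along a full coordinate is not small then the derivative `D` across is
not small. -/
def EDn : Prop := ∀ {Ω Γ : ℕ → Type} (P : ∀ n, FP (Ω n)) (T : ∀ n, Ω n → ℤ) (Θ : ∀ n, Ω n → Γ n)
  (γ D : ∀ n, Ω n → ℝ) (R k : ℕ → ℕ) (L : ℕ → ℝ), Big R → Sub R L → (∀ᶠ n in UF, R n ≤ k n ∧
    ∀ a ∈ (P n).S, ∀ b ∈ (P n).S, Θ n a = Θ n b → |(T n a : ℝ) - T n b| ≤ L n * 2 ^ k n ∧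
      |((T n a : ℝ) - T n b) / 2 ^ k n * (γ n a + γ n b)| ≤
        L n / 2 ^ R n + L n * (|D n a| + |D n b|)) →
  Le R (fun n => k n * lg) (fun n => ch (P n) (T n) (Θ n)) →
  ∃ L', Sub R L' ∧ Whp P fun n ω => 1 ≤ L n * |γ n ω| → 1 ≤ L' n * |D n ω|

/-! ### The lattice model -/

/-- A lattice point `n` of the base with a real height `f`, and two quadrics through it. -/
structure Lm : Type 1 where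
  Ω : Type
  L₁ : Type
  L₂ : Type
  Sg : Type
  Th : Type
  P : FP Ω
  n : Ω → Z 3
  f : Ω → ℝ
  S₁ : Ω → L₁
  S₂ : Ω → L₂
  A₁ : Ω → Qd
  A₂ : Ω → Qd
  σ : Ω → Sg
  θ : Ω → Th
  O : Ω → V 5
  w : Ω → Fin 3 → V 5

/-- The point. -/
def Lm.Y (x : Lm) (ω : x.Ω) : V 5 := x.O ω + ∑ a, (x.n ω a : ℝ) • x.w ω a + x.f ω • bv 4

/-- The frame of the cell. -/
def Lm.W (x : Lm) (k : ℕ) (ω : x.Ω) : Fin 3 → V 5 := fun a => (2 : ℝ) ^ k • x.w ω a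

/-- Bounds for a quadric at a lattice point. -/
structure QOK (A : Qd) (Y : V 5) (w : Fin 3 → V 5) (L ε h : ℝ) : Prop where
  val : |qf A Y| ≤ L * ε
  d : 1 ≤ pf A Y (bv 4) ∧ pf A Y (bv 4) ≤ L
  gr : ∀ a, |pf A Y (w a)| ≤ L * ε
  mx : ∀ a, |pf A (w a) (bv 4)| ≤ L
  hs : ∀ a b, |pf A (w a) (w b)| ≤ L * ε
  top : |qf A (bv 4)| ≤ h

/-- The exact conditions. -/
structure Lm.Alg (x : Lm) (L : ℝ) (k p R : ℕ) : Prop where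
  f₁ : Fn x.P (fun ω => (x.A₁ ω, x.θ ω)) x.S₁
  f₂ : Fn x.P (fun ω => (x.A₂ ω, x.θ ω)) x.S₂
  fs : Fn x.P (fun ω => (x.n ω 0, x.θ ω)) x.σ
  fO : Fn x.P (fun ω => (x.O ω, x.w ω)) x.θ
  bd : ∀ ω ∈ x.P.S, ∀ a, |(x.n ω a : ℝ)| ≤ L * 2 ^ k
  q₁ : ∀ ω ∈ x.P.S, QOK (x.A₁ ω) (x.Y ω) (x.w ω) L (2 ^ p)⁻¹ (L * 2 ^ p / 2 ^ R)
  q₂ : ∀ ω ∈ x.P.S, QOK (x.A₂ ω) (x.Y ω) (x.w ω) L (2 ^ p)⁻¹ (L * 2 ^ p / 2 ^ R)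

/-- The base is filled given either quadric, and the height has no full window. -/
structure LmOK (x : ℕ → Lm) (R k p : ℕ → ℕ) (ε₀ : ℝ) : Prop where
  big : Big R
  pos : 0 < ε₀ ∧ ε₀ ≤ 1
  sub : Sub R fun n => k n + 1
  le : ∀ n, R n ≤ k n ∧ R n ≤ p n
  alg : ∃ L, Sub R L ∧ ∀ᶠ n in UF, (x n).Alg (L n) (k n) (p n) (R n)
  ful₁ : Le R (fun n => 3 * k n * lg) fun n => ch (x n).P (x n).n (x n).S₁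
  ful₂ : Le R (fun n => 3 * k n * lg) fun n => ch (x n).P (x n).n (x n).S₂
  ind : Sm R fun n => mi (x n).P (x n).σ (fun ω => ((x n).S₂ ω, (x n).n ω)) fun ω =>
    ((x n).n ω 0, (x n).θ ω)
  ng : ∀ (W : ℕ → Type) (Q : ∀ n, FP (W n)) (ρ : ∀ n, W n → (x n).Ω) (a b : ℕ → ℕ),
    K31.DnS Q ρ (fun n => (x n).P) → (∀ n, p n ≤ a n + R n ∧ a n ≤ b n ∧ b n ≤ p n) →
    Le R (fun n => ch (Q n) (fun v => fl1 (b n) ((x n).f (ρ n v))) fun v =>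
      (fl1 (a n) ((x n).f (ρ n v)), (x n).n (ρ n v), (x n).σ (ρ n v))) fun n =>
      (1 - ε₀) * (b n - a n) * lg

/-- Both conics are tame. -/
def ETameW : Prop := ∀ (x : ℕ → Lm) (R k p : ℕ → ℕ) (ε₀ : ℝ), LmOK x R k p ε₀ →
  ∃ L, Sub R L ∧ Whp (fun n => (x n).P) fun n ω => ∀ i,
    Tame ((x n).A₁ ω) ((x n).Y ω) (dir ((x n).W (k n) ω) i) (L n) ∧
      Tame ((x n).A₂ ω) ((x n).Y ω) (dir ((x n).W (k n) ω) i) (L n)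

/-- The jets in one direction are small. -/
def ECoreV : Prop := ∀ (x : ℕ → Lm) (R k p : ℕ → ℕ) (ε₀ : ℝ) (i : Fin 4 × Fin 4) (L : ℕ → ℝ),
  LmOK x R k p ε₀ → Sub R L → Whp (fun n => (x n).P) fun n ω =>
    Tame ((x n).A₁ ω) ((x n).Y ω) (dir ((x n).W (k n) ω) i) (L n) →
    Tame ((x n).A₂ ω) ((x n).Y ω) (dir ((x n).W (k n) ω) i) (L n) → ∀ j,
      |jet ((x n).A₁ ω) ((x n).A₂ ω) ((x n).Y ω) (dir ((x n).W (k n) ω) i) j| ≤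
        2 ^ (3 * R n / 4) / 2 ^ p n

/-- The two quadrics agree. -/
def EAgree : Prop := ∀ (x : ℕ → Lm) (R k p : ℕ → ℕ) (ε₀ : ℝ), LmOK x R k p ε₀ →
  ∃ L, Sub R L ∧ Whp (fun n => (x n).P) fun n ω =>
    Agr ((x n).A₁ ω) ((x n).A₂ ω) ((x n).Y ω) ((x n).W (k n) ω) (L n)
      (L n * (2 ^ (3 * R n / 4) / 2 ^ p n))

/-! ### Rounding -/

/-- The tangent hyperplane of `A` at `Y` as a graph over the frame. -/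
noncomputable def hyp (A : Qd) (Y O : V 5) (W : Fin 3 → V 5) : V 4 :=
  Fin.cons (pf A Y (Y - O) / pf A Y (bv 4)) fun a => -pf A Y (W a) / pf A Y (bv 4)

/-- The frame adapted to the hyperplane `h` and the thickness `μ`. -/
def frm (O : V 5) (W : Fin 3 → V 5) (h : V 4) (μ : ℝ) : Fin 5 → V 5 :=
  ![O + h 0 • bv 4, W 0 + h 1 • bv 4, W 1 + h 2 • bv 4, W 2 + h 3 • bv 4, μ • bv 4]

/-- The height over the hyperplane `h` as a covector. -/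
def cov (l : Fin 3 → V 5) (h : V 4) : V 5 := bv 4 - h 0 • bv 0 - ∑ a, h a.succ • l a

/-- The coordinates in that frame as covectors. -/
noncomputable def crd (l : Fin 3 → V 5) (h : V 4) (μ : ℝ) : Fin 5 → V 5 :=
  ![bv 0, l 0, l 1, l 2, μ⁻¹ • cov l h]

/-- The matrix of a quadric in a frame. -/
def mat (A : Qd) (T : Fin 5 → V 5) : Fin 5 × Fin 5 → ℝ := fun i => pf A (T i.1) (T i.2)

/-- The quadric with a given matrix. -/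
noncomputable def back (N : Fin 5 × Fin 5 → ℝ) (c : Fin 5 → V 5) : Qd :=
  Matrix.of fun i j => (∑ a, N a * c a.1 i * c a.2 j) / 2

/-- The end of the segment where the derivative is not small. -/
noncomputable def anc (A : Qd) (Z E : V 5) : V 5 :=
  if 1 / 6 ≤ |pf A Z (bv 4)| then Z else Z + (1 / 2 : ℝ) • E

/-- Two quadrics that agree at `Y`, a frame with dual covectors `l`, and a segment `Z + s E` on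
the first quadric that passes near `Y`. -/
structure RG (A₁ A₂ : Qd) (Y O Z E : V 5) (W l : Fin 3 → V 5) (s₀ Λ η H Γ : ℝ) : Prop where
  agr : Agr A₁ A₂ Y W Λ η
  dec : ∀ U : V 5, U = U 0 • O + ∑ a, (l a ⬝ᵥ U) • W a + U 4 • bv 4
  l4 : ∀ a, l a 4 = 0
  one : Y 0 = 1 ∧ Z 0 = 1 ∧ E 0 = 0
  pos : 1 ≤ Λ ∧ 0 < η ∧ 0 ≤ s₀ ∧ s₀ < 1
  bd : ∀ a, |l a ⬝ᵥ Y| ≤ Λ ∧ |l a ⬝ᵥ E| ≤ Λ ∧ 100 * Λ * |l a ⬝ᵥ (Z + s₀ • E - Y)| ≤ 1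
  d : 1 / 2 ≤ pf A₁ (Z + s₀ • E) (bv 4)
  fit : ∀ s : ℝ, 0 ≤ s → s < 1 → |qf A₁ (Z + s • E)| ≤ η ∧
    ∀ i : Fin 4, |pf A₁ (Z + s • E) (bv i.succ)| ≤ Λ
  hs : ∀ i k : Fin 4, |pf A₁ (bv i.succ) (bv k.succ)| ≤ H
  gam : ∀ a (i : Fin 4), |l a i.succ| ≤ Γ

/-- Bounds for a quadric along a segment. -/
structure Out (A : Qd) (Z E : V 5) (s₀ a b h : ℝ) : Prop where
  d : 1 ≤ pf A (Z + s₀ • E) (bv 4)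
  fit : ∀ s : ℝ, 0 ≤ s → s < 1 → |qf A (Z + s • E)| ≤ a ∧
    ∀ i : Fin 4, |pf A (Z + s • E) (bv i.succ)| ≤ b
  hs : ∀ i k : Fin 4, |pf A (bv i.succ) (bv k.succ)| ≤ h

/-- The tangent hyperplanes are close. -/
def ERnd1 : Prop := ∃ C : ℝ, 3 ≤ C ∧ ∀ (A₁ A₂ : Qd) (Y O Z E : V 5) (W l : Fin 3 → V 5)
  (s₀ Λ η H Γ : ℝ), RG A₁ A₂ Y O Z E W l s₀ Λ η H Γ → 1 / 6 ≤ |pf A₁ (anc A₁ Z E) (bv 4)| ∧
    ‖hyp A₁ (anc A₁ Z E) O W - hyp A₂ Y O W‖ ≤ C * Λ ^ 4 * max (curv A₂ Y W) η ∧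
    ∀ s : ℝ, 0 ≤ s → s < 1 → |ht A₂ Y (Z + s • E)| ≤ C * Λ ^ 4 * max (curv A₂ Y W) η

/-- In the curved case the normalised matrices are close. -/
def ERnd2 : Prop := ∃ C : ℝ, 1 ≤ C ∧ ∀ (A₁ A₂ : Qd) (Y O Z E : V 5) (W l : Fin 3 → V 5)
  (s₀ Λ η H Γ Λ' μ : ℝ) (h : V 4), RG A₁ A₂ Y O Z E W l s₀ Λ η H Γ → η ≤ curv A₂ Y W →
  curv A₂ Y W ≤ μ → μ ≤ Λ' * curv A₂ Y W → Λ ≤ Λ' → ‖h - hyp A₂ Y O W‖ ≤ 2 * μ →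
  μ ≤ 12 * Λ * ‖mat A₁ (frm O W h μ)‖ ∧ ‖mat A₁ (frm O W h μ)‖ ≤ C * Λ' ^ 4 * μ ∧
    ‖‖mat A₁ (frm O W h μ)‖⁻¹ • mat A₁ (frm O W h μ) -
      ‖mat A₂ (frm O W h μ)‖⁻¹ • mat A₂ (frm O W h μ)‖ ≤ C * Λ' ^ 5 * η / μ

/-- The rounded quadric and the rounded hyperplane fit the segment. -/
def ERnd3 : Prop := ∃ C : ℝ, 1 ≤ C ∧ ∀ (A₁ A₂ : Qd) (Y O Z E : V 5) (W l : Fin 3 → V 5)
  (s₀ Λ η H Γ μ : ℝ) (h : V 4), RG A₁ A₂ Y O Z E W l s₀ Λ η H Γ → 0 < μ →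
  1 / 6 ≤ |pf A₁ (anc A₁ Z E) (bv 4)| → ‖h - hyp A₁ (anc A₁ Z E) O W‖ ≤ μ →
  ‖h - hyp A₂ Y O W‖ ≤ 2 * μ → (∀ s : ℝ, 0 ≤ s → s < 1 → |ht A₂ Y (Z + s • E)| ≤ μ) →
  Out (vecMulVec (bv 0) (cov l h)) Z E s₀ (C * Λ * μ) (C * Λ * (1 + μ * Γ)) 0 ∧
    ∀ (N : Fin 5 × Fin 5 → ℝ) (c δ : ℝ), 4 ≤ c → c ≤ 8 → ‖N - c • mat A₁ (frm O W h μ)‖ ≤ δ →
      C * Λ * δ ≤ μ → Out (back N (crd l h μ)) Z E s₀ (8 * η + C * Λ ^ 2 * δ)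
        (8 * Λ + C * Λ ^ 2 * δ * (μ⁻¹ + Γ)) (8 * H + C * Λ ^ 2 * δ * (μ⁻¹ + Γ) ^ 2)

/-- A common rounding of two quadrics that agree. -/
def ERound : Prop := ∃ C : ℝ, 1 ≤ C ∧ ∀ {Ω X₁ X₂ : Type} (P : FP Ω) (x₁ : Ω → X₁) (x₂ : Ω → X₂)
  (A₁ A₂ : Ω → Qd) (Y O Z E : Ω → V 5) (W l : Ω → Fin 3 → V 5) (s₀ : Ω → ℝ) (Λ η H Γ κ : ℝ)
  (I : ℕ), Fn P (fun ω => (A₁ ω, O ω, W ω, l ω, Z ω, E ω)) x₁ →
  Fn P (fun ω => (A₂ ω, Y ω, O ω, W ω, l ω)) x₂ →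
  (∀ ω ∈ P.S, RG (A₁ ω) (A₂ ω) (Y ω) (O ω) (Z ω) (E ω) (W ω) (l ω) (s₀ ω) Λ η H Γ ∧
    curv (A₂ ω) (Y ω) (W ω) ≤ 2 ^ I * η) → Λ ≤ 2 ^ I → C * Λ ^ 50 ≤ κ →
  ∃ (Lb : Type) (lam : Ω → Lb) (A : Ω → Qd), Det P lam x₁ (C * (I + 1) ^ 2) ∧
    Det P lam x₂ (C * (I + 1) ^ 2) ∧ Fn P A lam ∧ ∀ ω ∈ P.S,
      Out (A ω) (Z ω) (E ω) (s₀ ω) (C * Λ ^ 50 * κ * η) (C * Λ ^ 50 * (1 + κ * η * Γ))
        (C * Λ ^ 50 * (H + (κ ^ 2 * η)⁻¹ + η * Γ ^ 2))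

/-! ### Rows -/

def OfECorA : Prop := ECor → EWin → ESpa → ECorA
def OfEDn : Prop := ESpr → EDn
def OfETameW : Prop := EJet → ETame → ESpr → ETameW
def OfECoreV : Prop := ESel → EJet → ECurve → ECross → ECorA → ECoreV
def OfEAgree : Prop := EAlg → ETameW → ECoreV → EAgree
def OfERnd1 : Prop := ETr → ERnd1
def OfERound : Prop := ERnd1 → ERnd2 → ERnd3 → ERound

end Pool.Agent.MP_5168f5_an.R4
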