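import Pool.Agent.MP_5168f5_an.R4.SpecE2
import Pool.Agent.MP_5168f5_an.R4.SpecN

/-! Extension step for quadrics: from the labels to the lattice model and back. -/

namespace Pool.Agent.MP_5168f5_an.R4

open H19 H17S H17F Matrix Filter

/-! ### One label -/

/-- Plane data. -/
abbrev Pd : Type := ℝ × ℝ × V 3

/-- A label with a quadric and two planes. -/
structure Lq (W : Type) : Type 1 where
  Λ : Type
  S : W → Λ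
  A : W → Qd
  d : Bool → W → Pd

/-- Pull back. -/
abbrev Lq.pull {W W' : Type} (s : Lq W) (f : W' → W) : Lq W' :=
  ⟨s.Λ, fun v => s.S (f v), fun v => s.A (f v), fun k v => s.d k (f v)⟩

/-- A bound for the Hessian. -/
def Hs (A : Qd) (h : ℝ) : Prop := ∀ i k : Fin 4, |pf A (bv i.succ) (bv k.succ)| ≤ h

section One

variable {W : Type} (g : Geo 3 W)

/-- Value and gradient on the window of level `j`. -/
def Geo.wf (L : ℝ) (A : Qd) (v : W) (j τ : ℕ) : Prop :=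
  ∀ t : ℝ, fl1 j t = fl1 j (g.z v) → |qf A (hom t (g.lt t v))| ≤ L / 2 ^ τ ∧
    ∀ i : Fin 4, |pf A (hom t (g.lt t v)) (bv i.succ)| ≤ L

/-- The derivative in the last coordinate at the point. -/
def Geo.dv (A : Qd) (v : W) : ℝ := pf A (g.hp v) (bv 4)

/-- The data that the label determines. -/
noncomputable def Lq.dat (s : Lq W) (j : ℕ) (v : W) : Qd × Pd × Pd × Unit × g.T × ℤ × Z 3 :=
  (s.A v, s.d false v, s.d true v, g.wc j (fun _ => ()) v)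

/-- The exact conditions on a label. -/
structure Lq.Alg (s : Lq W) (Q : FP W) (L : ℝ) (j m p : ℕ) : Prop where
  bx : g.Bx Q L
  fn : Fn Q (s.dat g j) s.S
  fit : ∀ v ∈ Q.S, g.wf L (s.A v) v j p ∧ ∀ k, (g.pl {0} (co k)).fit L (s.d k v) v j m

/-- Coordinate `i` of the point at resolution `2^{-a}`. -/
noncomputable abbrev Geo.cx (a : ℕ) (i : Fin 3) (v : W) : ℤ := fl1 a (g.pt v i)

/-- The height at resolution `2^{-a}`. -/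
noncomputable abbrev Geo.cz (a : ℕ) (v : W) : ℤ := fl1 a (g.z v)

/-- A label of level `j` on a refinement, with a quadric of thickness at least `p - 5 R`. -/
def Geo.Pi (P : FP W) (C B : ℝ) (j R p : ℕ) : Prop :=
  ∃ (W' Λ : Type) (Q : FP W') (ρ : W' → W) (lam : W' → Λ) (A : W' → Qd) (τ : ℕ),
    K31.Dn C Q ρ P ∧ (g.pull ρ).hk Q j lam ≤ C * B ∧ (g.pull ρ).lk Q lam ≤ C * B ∧ Fn Q A lam ∧
    p ≤ τ + 5 * R ∧ τ ≤ p ∧ ∀ v ∈ Q.S, 1 ≤ gy (A v) (g.hp (ρ v)) ∧ gy (A v) (g.hp (ρ v)) ≤ 2 ^ p ∧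
      |qf (A v) (g.hp (ρ v))| ≤ 1 / 2 ^ τ ∧ Hs (A v) (2 ^ τ / 128)

/-- The facts on the label of level `c` at the start, with error `e`. -/
structure EH (P : FP W) (s : Lq W) (j c m p : ℕ) (b : Bool) (e : ℝ) : Prop where
  le : j ≤ c ∧ (c - j : ℝ) ≤ e ∧ j ≤ m ∧ m ≤ p
  alg : ∃ L, 1 ≤ L ∧ L ≤ Real.exp e ∧ Fn P (s.dat g j) s.S ∧
    ∀ v ∈ P.S, g.qd.fit L (s.A v) v c p ∧ ∀ k, (g.pl {0} (co k)).fit L (s.d k v) v c m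
  hk : g.hk P c s.S ≤ e
  lk : g.lk P s.S ≤ e
  hgt : p * lg ≤ ch P (g.cz p) g.θ + e
  fx : (p - c : ℝ) * lg ≤ ch P (g.cx p 0) (fun v => (s.S v, g.zt v)) + e
  fu : (p - m : ℝ) * lg ≤ ch P (g.cx p (co b)) (fun v => (g.cx p 0 v, s.S v, g.zt v)) + e

end One

section Seq

variable {W : ℕ → Type} (Q : ∀ n, FP (W n)) (g : Gs 3 W) (R j m p : ℕ → ℕ)

/-- The height and the first two coordinates are full given `S`. -/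
structure Ful {Λ : ℕ → Type} (S : ∀ n, W n → Λ n) : Prop where
  t : Le R (fun n => (p n - j n : ℝ) * lg) fun n => ch (Q n) ((g n).cz (p n)) (S n)
  x : Le R (fun n => (p n - j n : ℝ) * lg) fun n =>
    ch (Q n) ((g n).cx (p n) 0) fun v => (S n v, (g n).zt v)
  u : Le R (fun n => (p n - m n : ℝ) * lg) fun n =>
    ch (Q n) ((g n).cx (p n) 1) fun v => ((g n).cx (p n) 0 v, S n v, (g n).zt v)

/-- A label whose cell is filled. -/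
structure Sd (s : ∀ n, Lq (W n)) : Prop where
  big : Big R
  le : ∀ n, j n ≤ m n ∧ m n ≤ p n
  alg : ∃ L, Sub R L ∧ ∀ᶠ n in UF, (s n).Alg (g n) (Q n) (L n) (j n) (m n) (p n)
  ful : Ful Q g R j m p fun n => (s n).S

/-- The facts on the system in the unit `R`. -/
structure EB (η e₀ : ℝ) (B : ℕ → ℝ) : Prop where
  cls : Cls0 (DnK Q) g R 0 η
  pos : 0 < e₀ ∧ e₀ ≤ 1
  sub : Sub R fun n => p n + 1
  le : ∀ n, j n ≤ m n ∧ m n ≤ p n ∧ j n + 5 * R n ≤ p n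
  fy : ∀ᶠ n in UF, Fn (Q n) (g n).y ((g n).fp fun _ => p n) ∧
    Fn (Q n) ((g n).fp fun _ => p n) (g n).y
  hB : ∀ n, 1 + Real.log (p n + 1) ≤ B n
  ng : ∀ (X : Mb W) (a b : ℕ → ℕ), DnK Q X → (∀ n, p n ≤ a n + 3 * R n ∧ a n ≤ b n ∧ b n ≤ p n) →
    Le R (fun n => ch (X n).Q (fun v => fl (b n) ((X.G g n).pt v)) fun v =>
      (fl (a n) ((X.G g n).pt v), (X.G g n).zt v)) fun n => (3 - e₀) * (b n - a n) * lg

/-- The height is independent of the line and `S` inside windows of level `a`. -/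
def Inf {Λ : ℕ → Type} (a : ℕ → ℕ) (S : ∀ n, W n → Λ n) : Prop :=
  Sm R fun n => mi (Q n) (g n).z (fun v => ((g n).ln v, S n v)) fun v =>
    ((g n).cz (a n) v, (g n).θ v)

/-- The label at the start. -/
structure E0 (B : ℕ → ℝ) (s : ∀ n, Lq (W n)) : Prop where
  sd : Sd Q g R j m p s
  inf : Inf Q g R (fun n => j n + R n) fun n => (s n).S
  lk : Sm R fun n => (g n).lk (Q n) (s n).S
  lkB : ∀ᶠ n in UF, (g n).lk (Q n) (s n).S ≤ B n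
  dv : ∃ L, Sub R L ∧ Whp Q fun n v => 1 ≤ L n * |(g n).dv ((s n).A v) v|

/-- Two labels on a refinement: a kernel of the window and a kernel of the point. -/
structure Tw (B : ℕ → ℝ) (X : Mb W) (s₁ s₂ : ∀ n, Lq (X n).W) : Prop where
  dn : DnK Q X
  sd₁ : Sd X.P (X.G g) R j m p s₁
  sd₂ : Sd X.P (X.G g) R j m p s₂
  hk : ∃ C : ℝ, ∀ᶠ n in UF, (X.G g n).hk (X n).Q (j n) (s₁ n).S ≤ C * B n
  lk : ∃ C : ℝ, ∀ᶠ n in UF, (X.G g n).lk (X n).Q (s₂ n).S ≤ C * B n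
  inf : Inf X.P (X.G g) R (fun n => j n + R n) fun n => (s₂ n).S

/-- Both derivatives are not small. -/
def TwD (s₁ s₂ : ∀ n, Lq (W n)) : Prop := ∃ L, Sub R L ∧ ∀ᶠ n in UF, ∀ v ∈ (Q n).S,
  1 ≤ L n * |(g n).dv ((s₁ n).A v) v| ∧ 1 ≤ L n * |(g n).dv ((s₂ n).A v) v|

/-- The first planes are the same. -/
def TwF (s₁ s₂ : ∀ n, Lq (W n)) : Prop := ∀ n, (s₁ n).d false = (s₂ n).d false

/-- All that is known when the lattice model is set up at the resolution `q`. -/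
structure TL (q : ℕ → ℕ) (η e₀ : ℝ) (B : ℕ → ℝ) (X : Mb W) (s₁ s₂ : ∀ n, Lq (X n).W) : Prop where
  eb : EB Q g R j m p η e₀ B
  le : ∀ n, m n ≤ q n ∧ q n ≤ p n ∧ p n ≤ q n + 2 * R n
  gap : ∀ᶠ n in UF, m n + 2 * R n ≤ q n
  tw : Tw Q g R j m q B X s₁ s₂
  fr : TwF s₁ s₂
  hs : ∃ L, Sub R L ∧ ∀ᶠ n in UF, ∀ v ∈ (X n).Q.S,
    (Hs ((s₁ n).A v) (L n * 2 ^ q n / 2 ^ R n) ∧ 2 ≤ (X.G g n).dv ((s₁ n).A v) v) ∧
      Hs ((s₂ n).A v) (L n * 2 ^ q n / 2 ^ R n) ∧ 2 ≤ (X.G g n).dv ((s₂ n).A v) v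

/-- The conclusion. -/
def PiS (B : ℕ → ℝ) : Prop := ∃ C : ℝ, ∀ᶠ n in UF, (g n).Pi (Q n) C (B n) (j n) (R n) (p n)

end Seq

/-! ### Tools for one label -/

/-- A fit extends to a larger window. -/
def ERmz : Prop := ∀ {W : Type} (g : Geo 3 W) (L : ℝ) (v : W) (j c τ : ℕ), j ≤ c →
  (∀ A : Qd, g.wf L A v c τ → g.wf (100 * 4 ^ (c - j) * L) A v j τ) ∧
    ∀ (k : Fin 3) (d : Pd), (g.pl {0} k).fit L d v c τ →
      (g.pl {0} k).fit (100 * 4 ^ (c - j) * L) d v j τ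

/-- The number of values of the coordinates in a cell. -/
def ECnt : Prop := ∃ C : ℝ, 1 ≤ C ∧ ∀ {W : Type} (Q : FP W) (g : Geo 3 W) (s : Lq W) (L : ℝ)
  (j m p a : ℕ), 1 ≤ L → s.Alg g Q L j m p →
  (j ≤ a → Det Q (g.cz a) s.S (2 ^ (a - j)) ∧
    Det Q (g.cx a 0) (fun v => (s.S v, g.zt v)) (C * L * 2 ^ (a - j))) ∧
  (m ≤ a → Det Q (g.cx a 1) (fun v => (g.cx a 0 v, s.S v, g.zt v)) (C * L * 2 ^ (a - m))) ∧
  ∀ L' : ℝ, 1 ≤ L' → a ≤ p → (∀ v ∈ Q.S, 1 ≤ L' * |g.dv (s.A v) v|) →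
    Det Q (g.cx a 2) (fun v => (g.cx a 0 v, g.cx a 1 v, s.S v, g.zt v)) (C * L * L')

/-- Refinements, coarser resolutions, and labels that are almost determined. -/
structure ESd : Prop where
  dn : ∀ {W W' : ℕ → Type} (Q : ∀ n, FP (W n)) (g : Gs 3 W) (R j m p : ℕ → ℕ) (s : ∀ n, Lq (W n))
    (Q' : ∀ n, FP (W' n)) (f : ∀ n, W' n → W n), Sd Q g R j m p s → K31.DnS Q' f Q →
    Sd Q' (fun n => (g n).pull (f n)) R j m p fun n => (s n).pull (f n)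
  coarse : ∀ {W : ℕ → Type} (Q : ∀ n, FP (W n)) (g : Gs 3 W) (R j m p q : ℕ → ℕ)
    (s : ∀ n, Lq (W n)), Sd Q g R j m p s → (∀ n, m n ≤ q n ∧ q n ≤ p n) → Sd Q g R j m q s
  add : ∀ {W Λ Λ' : ℕ → Type} (Q : ∀ n, FP (W n)) (g : Gs 3 W) (R j m p : ℕ → ℕ)
    (S : ∀ n, W n → Λ n) (S' : ∀ n, W n → Λ' n), Ful Q g R j m p S →
    Sm R (fun n => ch (Q n) (S' n) (S n)) → Ful Q g R j m p S'
  tw : ∀ {W W' : ℕ → Type} (P : ∀ n, FP (W n)) (g : Gs 3 W) (R j m p : ℕ → ℕ) (B : ℕ → ℝ)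
    (X : Mb W) (s₁ s₂ : ∀ n, Lq (X n).W) (Q' : ∀ n, FP (W' n)) (f : ∀ n, W' n → (X n).W),
    (∀ n, 1 ≤ B n) → Tw P g R j m p B X s₁ s₂ → K31.DnS Q' f X.P →
    Tw P g R j m p B (X.ext Q' f) (fun n => (s₁ n).pull (f n)) fun n => (s₂ n).pull (f n)

/-- The gradient is controlled by the last derivative. -/
def EDnA : Prop := ∀ {W : ℕ → Type} (Q : ∀ n, FP (W n)) (g : Gs 3 W) (R j m p : ℕ → ℕ)
  (s : ∀ n, Lq (W n)) (L : ℕ → ℝ), Sd Q g R j m p s → Sub R L →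
  (¬Sm R fun n => (p n - m n : ℝ)) → ∃ L', Sub R L' ∧ Whp Q fun n v =>
    (∃ i : Fin 4, 1 ≤ L n * |pf ((s n).A v) ((g n).hp v) (bv i.succ)|) →
      1 ≤ L' n * |(g n).dv ((s n).A v) v|

/-- The label at the start. -/
def EIni : Prop := ∀ {W : ℕ → Type} (P : ∀ n, FP (W n)) (g : Gs 3 W) (R j c m p : ℕ → ℕ)
  (η e₀ : ℝ) (B : ℕ → ℝ) (s : ∀ n, Lq (W n)), EB P g R j m p η e₀ B →
  (∀ ε : ℝ, 0 < ε → ∀ᶠ n in UF, EH (g n) (P n) (s n) (j n) (c n) (m n) (p n) false (ε * R n)) →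
  (∀ᶠ n in UF, (g n).lk (P n) (s n).S ≤ B n) → ∃ s', E0 P g R j m p B s'

/-! ### Two labels of the same line -/

/-- All four derivatives are not small. -/
def EPair : Prop := ∀ {W : ℕ → Type} (P : ∀ n, FP (W n)) (g : Gs 3 W) (R j m p : ℕ → ℕ)
  (η e₀ : ℝ) (B : ℕ → ℝ) (s : ∀ n, Lq (W n)), EB P g R j m p η e₀ B → E0 P g R j m p B s →
  ∃ L, Sub R L ∧ Whp (fun n => glue (P n) (P n) ((g n).win (j n)) ((g n).win (j n))) fun n v =>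
    ∀ a ∈ [v.1, v.2], ∀ b ∈ [v.1, v.2], 1 ≤ L n * |(g n).dv ((s n).A a) b|

/-- The entropy of the line computed at two heights. -/
def ESh : Prop := ∃ C : ℝ, ∀ {Ω W Λ : Type} (Q : FP W) (g : Geo 3 Ω) (ρ₁ ρ₂ : W → Ω) (S : W → Λ)
  (j p : ℕ), j ≤ p → (∀ v ∈ Q.S, g.win j (ρ₁ v) = g.win j (ρ₂ v)) →
  Fn Q (fun v => (g.cz j (ρ₁ v), g.θ (ρ₁ v))) S →
  ch Q (fun v => fl p (g.pt (ρ₂ v))) (fun v => (S v, g.zt (ρ₂ v))) +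
      ch Q (fun v => fl (p - j) (g.e (ρ₂ v))) (fun v => (S v, g.fp (fun _ => p) (ρ₂ v))) ≤
    ch Q (fun v => fl p (g.pt (ρ₁ v))) (fun v => (S v, g.zt (ρ₁ v))) +
      ch Q (fun v => fl (p - j) (g.e (ρ₁ v))) (fun v => (S v, g.fp (fun _ => p) (ρ₁ v))) +
      mi Q (fun v => g.z (ρ₁ v)) (fun v => (g.ln (ρ₁ v), S v))
        (fun v => (g.cz j (ρ₁ v), g.θ (ρ₁ v))) + C

/-- A cell that is filled at one height is filled at the other. -/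
def EShB : Prop := ∀ {Ω W : ℕ → Type} (Q : ∀ n, FP (W n)) (g : Gs 3 Ω) (ρ₁ ρ₂ : ∀ n, W n → Ω n)
  (R j m p : ℕ → ℕ) (s : ∀ n, Lq (W n)) (L : ℕ → ℝ),
  Sd Q (fun n => (g n).pull (ρ₂ n)) R j m p s → Sub R L →
  (∀ᶠ n in UF, Law (Q n) (ρ₁ n) (Q n) (ρ₂ n) ∧
    (s n).Alg ((g n).pull (ρ₁ n)) (Q n) (L n) (j n) (m n) (p n) ∧ ∀ v ∈ (Q n).S,
      (g n).win (j n) (ρ₁ n v) = (g n).win (j n) (ρ₂ n v) ∧
      1 ≤ L n * |(g n).dv ((s n).A v) (ρ₁ n v)|) →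
  (Sm R fun n => mi (Q n) (s n).S (fun v => fl (p n - j n) ((g n).e (ρ₂ n v))) fun v =>
    (g n).fp (fun _ => p n) (ρ₂ n v)) →
  Inf Q (fun n => (g n).pull (ρ₁ n)) R j (fun n => (s n).S) →
  Le R (fun n => (p n - j n : ℝ) * lg) (fun n => ch (Q n) (fun v => (g n).cz (p n) (ρ₁ n v))
    fun v => ((g n).cz (j n) (ρ₁ n v), (g n).θ (ρ₁ n v))) →
  Sd Q (fun n => (g n).pull (ρ₁ n)) R j m p s ∧
    Sm R fun n => mi (Q n) (s n).S (fun v => fl (p n - j n) ((g n).e (ρ₁ n v))) fun v =>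
      (g n).fp (fun _ => p n) (ρ₁ n v)

/-- The label of a second height in the same window. -/
def EShare : Prop := ∀ {W : ℕ → Type} (P : ∀ n, FP (W n)) (g : Gs 3 W) (R j m p : ℕ → ℕ)
  (η e₀ : ℝ) (B : ℕ → ℝ) (s : ∀ n, Lq (W n)), EB P g R j m p η e₀ B → E0 P g R j m p B s →
  ∃ (X : Mb W) (s₁ s₂ : ∀ n, Lq (X n).W), Tw P g R j m p B X s₁ s₂ ∧ TwD X.P (X.G g) R s₁ s₂ ∧
    Sm R fun n => mi (X n).Q (fun v => ((s₁ n).S v, (s₂ n).S v))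
      (fun v => fl1 (R n) ((X.G g n).e v 0)) (X.G g n).y

/-- A variable that says little on the slope has fibres with separated slopes. -/
def ESepD : Prop := ∀ {W Φ : ℕ → Type} (K : Mb W → Prop) (g : Gs 3 W) (R : ℕ → ℕ) (η : ℝ)
  (X : Mb W) (φ : ∀ n, (X n).W → Φ n), Cls0 K g R 0 η → K X →
  (Sm R fun n => mi (X n).Q (φ n) (fun v => fl1 (R n) ((X.G g n).e v 0)) (X.G g n).y) →
  ∃ L, Sub R L ∧ Whp X.P fun n v => ∃ v' ∈ (X n).Q.S, φ n v' = φ n v ∧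
    1 ≤ L n * |(X.G g n).e v 0 - (X.G g n).e v' 0|

/-- A common rounding of two planes with close slopes. -/
def EPl : Prop := ∃ C : ℝ, 1 ≤ C ∧ ∀ {W Λ₁ Λ₂ : Type} (Q : FP W) (g : Geo 3 W) (S₁ : W → Λ₁)
  (S₂ : W → Λ₂) (d₁ d₂ : W → Pd) (L : ℝ) (j m : ℕ), 1 ≤ L → j ≤ m → g.Bx Q L →
  Fn Q (g.wc j d₁) S₁ → Fn Q (g.wc j d₂) S₂ →
  (∀ v ∈ Q.S, (g.pl {0} 1).fit L (d₁ v) v j m ∧ (g.pl {0} 1).fit L (d₂ v) v j m ∧
    |(d₁ v).2.2 0 - (d₂ v).2.2 0| ≤ L * 2 ^ j / 2 ^ m) →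
  ∃ d : W → Pd, Fn Q d S₁ ∧ Det Q d S₂ C ∧ ∀ v ∈ Q.S, (g.pl {0} 1).fit (C * L ^ 3) (d v) v j m

/-- The two labels get the same first plane. -/
def EFrame : Prop := ∀ {W : ℕ → Type} (P : ∀ n, FP (W n)) (g : Gs 3 W) (R j m p : ℕ → ℕ)
  (η e₀ : ℝ) (B : ℕ → ℝ) (X : Mb W) (s₁ s₂ : ∀ n, Lq (X n).W), EB P g R j m p η e₀ B →
  Tw P g R j m p B X s₁ s₂ → TwD X.P (X.G g) R s₁ s₂ →
  (Sm R fun n => mi (X n).Q (fun v => ((s₁ n).S v, (s₂ n).S v))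
    (fun v => fl1 (R n) ((X.G g n).e v 0)) (X.G g n).y) →
  ∃ (X' : Mb W) (s₁' s₂' : ∀ n, Lq (X' n).W), Tw P g R j m p B X' s₁' s₂' ∧
    TwD X'.P (X'.G g) R s₁' s₂' ∧ TwF s₁' s₂'

/-- If the planes are thin the common plane is the label. -/
def EPlane : Prop := ∀ {W : ℕ → Type} (P : ∀ n, FP (W n)) (g : Gs 3 W) (R j m p : ℕ → ℕ)
  (η e₀ : ℝ) (B : ℕ → ℝ) (X : Mb W) (s₁ s₂ : ∀ n, Lq (X n).W), EB P g R j m p η e₀ B →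
  Tw P g R j m p B X s₁ s₂ → TwF s₁ s₂ → (∀ᶠ n in UF, p n ≤ m n + 4 * R n) → PiS P g R j p B

/-- A quadric with a large Hessian gives a hyperplane. -/
def EShp : Prop := ∃ Φ : Qd → Qd, ∀ {W : Type} (g : Geo 3 W) (A : Qd) (v : W) (L : ℝ)
  (j p τ : ℕ), 1 ≤ L → (∃ i k : Fin 4, 2 ^ τ ≤ |pf A (bv i.succ) (bv k.succ)|) →
  g.wf L A v j p → g.wf L (Φ A) v j τ ∧ Hs (Φ A) 0 ∧
    ∃ i : Fin 4, 1 ≤ |pf (Φ A) (g.hp v) (bv i.succ)|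

/-- Small Hessians and positive derivatives. -/
def EPrep : Prop := ∀ {W : ℕ → Type} (P : ∀ n, FP (W n)) (g : Gs 3 W) (R j m p : ℕ → ℕ)
  (η e₀ : ℝ) (B : ℕ → ℝ) (X : Mb W) (s₁ s₂ : ∀ n, Lq (X n).W), EB P g R j m p η e₀ B →
  Tw P g R j m p B X s₁ s₂ → TwD X.P (X.G g) R s₁ s₂ → TwF s₁ s₂ →
  (∀ᶠ n in UF, m n + 4 * R n ≤ p n) →
  ∃ (q : ℕ → ℕ) (X' : Mb W) (s₁' s₂' : ∀ n, Lq (X' n).W), TL P g R j m p q η e₀ B X' s₁' s₂'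

/-! ### The lattice model -/

/-- The uniform law on `2^h` integers. -/
noncomputable def uN (h : ℕ) : FP ℕ :=
  FP.unif (Finset.range (2 ^ h)) ⟨0, Finset.mem_range.2 (Nat.two_pow_pos h)⟩

/-- Rounding down to the resolution `2^{-q}`. -/
noncomputable def rd (q : ℕ) (x : ℝ) : ℝ := ((2 : ℝ) ^ q)⁻¹ * fl1 q x

/-- The value of a plane. -/
def plv (d : Pd) (t x : ℝ) : ℝ := d.1 + d.2.1 * t + d.2.2 0 * x

/-- The first coordinate of the corner of the cell. -/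
noncomputable def Geo.ox {W : Type} (g : Geo 3 W) (j : ℕ) (v : W) : ℝ :=
  rd j (g.lt (g.z0 j v) v 0)

/-- The lattice model: the second coordinate is measured from the plane and filled with noise. -/
noncomputable def mkL {W : Type} (Q : FP W) (g : Geo 3 W) (s₁ s₂ : Lq W) (j m q : ℕ) : Lm where
  Ω := W × ℕ
  L₁ := s₁.Λ
  L₂ := s₂.Λ
  Sg := ℝ × Pd × g.T × ℤ × Z 3
  Th := Pd × g.T × ℤ × Z 3
  P := prod Q (uN (m - j))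
  n := fun v => ![g.cz q v.1 - 2 ^ (q - j) * g.cz j v.1,
    g.cx q 0 v.1 - 2 ^ (q - j) * fl1 j (g.lt (g.z0 j v.1) v.1 0),
    2 ^ (m - j) * (g.cx q 1 v.1 -
      fl1 q (plv (s₁.d false v.1) (rd q (g.z v.1)) (rd q (g.pt v.1 0)))) + v.2]
  f := fun v => rd q (g.pt v.1 2)
  S₁ := fun v => s₁.S v.1
  S₂ := fun v => s₂.S v.1
  A₁ := fun v => s₁.A v.1
  A₂ := fun v => s₂.A v.1
  σ := fun v => (g.z v.1, g.wc j (s₁.d false) v.1)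
  θ := fun v => g.wc j (s₁.d false) v.1
  O := fun v => hom (g.z0 j v.1)
    ![g.ox j v.1, plv (s₁.d false v.1) (g.z0 j v.1) (g.ox j v.1), 0]
  w := fun v => ![((2 : ℝ) ^ q)⁻¹ • vec 1 ![0, (s₁.d false v.1).2.1, 0],
    ((2 : ℝ) ^ q)⁻¹ • vec 0 ![1, (s₁.d false v.1).2.2 0, 0],
    (((2 : ℝ) ^ q)⁻¹ * 2 ^ j / 2 ^ m) • bv 3]

/-- The covectors dual to the frame. -/
noncomputable def Geo.dl {W : Type} (g : Geo 3 W) (j m : ℕ) (d : Pd) (v : W) : Fin 3 → V 5 :=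
  ![(2 : ℝ) ^ j • ![-g.z0 j v, 1, 0, 0, 0], (2 : ℝ) ^ j • ![-g.ox j v, 0, 1, 0, 0],
    (2 : ℝ) ^ m • ![-d.1, -d.2.1, -d.2.2 0, 1, 0]]

/-- The exact conditions on the two labels. -/
structure LA {W : Type} (Q : FP W) (g : Geo 3 W) (s₁ s₂ : Lq W) (L : ℝ) (j m q R : ℕ) :
    Prop where
  le : 1 ≤ L ∧ j ≤ m ∧ m ≤ q ∧ 5 * L ≤ 2 ^ R
  a₁ : s₁.Alg g Q L j m q
  a₂ : s₂.Alg g Q L j m q
  fr : s₁.d false = s₂.d false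
  hs : ∀ v ∈ Q.S, (Hs (s₁.A v) (L * 2 ^ q / 2 ^ R) ∧ 2 ≤ g.dv (s₁.A v) v) ∧
    Hs (s₂.A v) (L * 2 ^ q / 2 ^ R) ∧ 2 ≤ g.dv (s₂.A v) v

def ELatA : Prop := ∃ C : ℝ, 1 ≤ C ∧ ∀ {W : Type} (Q : FP W) (g : Geo 3 W) (s₁ s₂ : Lq W) (L : ℝ)
  (j m q R : ℕ), LA Q g s₁ s₂ L j m q R → (mkL Q g s₁ s₂ j m q).Alg (C * L ^ 3) (q - j) q R

def ELatF : Prop := ∀ {W Λ : Type} (Q : FP W) (g : Geo 3 W) (s₁ s₂ : Lq W) (j m q : ℕ)
  (S : W → Λ), Fn Q (g.wc j (s₁.d false)) S →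
  ch Q (g.cz q) S + ch Q (g.cx q 0) (fun v => (S v, g.zt v)) +
      ch Q (g.cx q 1) (fun v => (g.cx q 0 v, S v, g.zt v)) + (m - j : ℕ) * lg ≤
    ch (mkL Q g s₁ s₂ j m q).P (mkL Q g s₁ s₂ j m q).n fun v => S v.1

def ELatI : Prop := ∀ {W : Type} (Q : FP W) (g : Geo 3 W) (s₁ s₂ : Lq W) (L : ℝ) (j m q a : ℕ),
  1 ≤ L → g.Bx Q L → j ≤ q → a ≤ q → Fn Q (g.wc j (s₁.d false)) s₂.S →
  mi (mkL Q g s₁ s₂ j m q).P (mkL Q g s₁ s₂ j m q).σ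
      (fun v => ((mkL Q g s₁ s₂ j m q).S₂ v, (mkL Q g s₁ s₂ j m q).n v))
      (fun v => ((mkL Q g s₁ s₂ j m q).n v 0, (mkL Q g s₁ s₂ j m q).θ v)) ≤
    mi Q g.z (fun v => (g.ln v, s₂.S v)) (fun v => (g.cz a v, g.θ v)) + 2 * Real.log (8 * L)

/-- The first two coordinates are full in every window, given the coarse point. -/
def ELatU : Prop := ∀ {W : ℕ → Type} (Q : ∀ n, FP (W n)) (g : Gs 3 W) (R j m p a b : ℕ → ℕ)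
  (s : ∀ n, Lq (W n)), Sd Q g R j m p s →
  (∀ᶠ n in UF, m n ≤ a n ∧ a n ≤ b n ∧ b n ≤ p n ∧ ∀ v ∈ (Q n).S, 1 ≤ (g n).dv ((s n).A v) v) →
  Le R (fun n => 2 * (b n - a n : ℝ) * lg) fun n =>
    ch (Q n) (fun v => ((g n).cx (b n) 0 v, (g n).cx (b n) 1 v)) fun v =>
      (fl (a n) ((g n).pt v), (g n).zt v)

def ELm : Prop := ∀ {W : ℕ → Type} (P : ∀ n, FP (W n)) (g : Gs 3 W) (R j m p q : ℕ → ℕ)
  (η e₀ : ℝ) (B : ℕ → ℝ) (X : Mb W) (s₁ s₂ : ∀ n, Lq (X n).W),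
  TL P g R j m p q η e₀ B X s₁ s₂ →
  LmOK (fun n => mkL (X n).Q (X.G g n) (s₁ n) (s₂ n) (j n) (m n) (q n)) R (fun n => q n - j n) q e₀

/-- The hypotheses of the rounding. -/
def ERG : Prop := ∃ C : ℝ, 1 ≤ C ∧ ∀ {W : Type} (Q : FP W) (g : Geo 3 W) (s₁ s₂ : Lq W)
  (L Λ η : ℝ) (j m q R : ℕ) (v : W × ℕ), LA Q g s₁ s₂ L j m q R →
  v ∈ (mkL Q g s₁ s₂ j m q).P.S → 5 * L ≤ Λ → L / 2 ^ q ≤ η → 400 * Λ * L * 2 ^ m ≤ 2 ^ q →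
  Agr (s₁.A v.1) (s₂.A v.1) ((mkL Q g s₁ s₂ j m q).Y v) ((mkL Q g s₁ s₂ j m q).W (q - j) v) Λ η →
  RG (s₁.A v.1) (s₂.A v.1) ((mkL Q g s₁ s₂ j m q).Y v) ((mkL Q g s₁ s₂ j m q).O v)
      (hom (g.z0 j v.1) (g.lt (g.z0 j v.1) v.1)) (((2 : ℝ) ^ j)⁻¹ • vec 1 (g.e v.1))
      ((mkL Q g s₁ s₂ j m q).W (q - j) v) (g.dl j m (s₁.d false v.1) v.1)
      (Int.fract (2 ^ j * g.z v.1)) Λ η (L * 2 ^ q / 2 ^ R) (L * 2 ^ m) ∧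
    curv (s₂.A v.1) ((mkL Q g s₁ s₂ j m q).Y v) ((mkL Q g s₁ s₂ j m q).W (q - j) v) ≤
      C * L ^ 5 * 2 ^ q ∧
    hom (g.z0 j v.1) (g.lt (g.z0 j v.1) v.1) +
      Int.fract (2 ^ j * g.z v.1) • ((2 : ℝ) ^ j)⁻¹ • vec 1 (g.e v.1) = g.hp v.1

/-- The numbers at the end of the rounding. -/
def ENum : Prop := ∀ (R m q : ℕ → ℕ) (L Λ : ℕ → ℝ) (C : ℝ), Big R → Sub R L → Sub R Λ → 1 ≤ C →
  (∀ᶠ n in UF, m n + 2 * R n ≤ q n) → ∀ᶠ n in UF, ∀ κ η : ℝ, κ = 2 ^ (R n / 8) →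
    η = Λ n * (2 ^ (3 * R n / 4) / 2 ^ q n) →
    L n / 2 ^ q n ≤ η ∧ 400 * Λ n * L n * 2 ^ m n ≤ 2 ^ q n ∧
    C * L n ^ 5 * 2 ^ q n ≤ 2 ^ (3 * q n) * η ∧ Λ n ≤ 2 ^ (3 * q n) ∧ C * Λ n ^ 50 ≤ κ ∧
    C * Λ n ^ 50 * κ * η ≤ 1 / 2 ^ (q n - R n + R n / 16) ∧
    C * Λ n ^ 50 * (1 + κ * η * (L n * 2 ^ m n)) ≤ 2 ^ q n ∧
    C * Λ n ^ 50 * (L n * 2 ^ q n / 2 ^ R n + (κ ^ 2 * η)⁻¹ + η * (L n * 2 ^ m n) ^ 2) ≤
      2 ^ (q n - R n + R n / 16) / 128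

def EFin : Prop := ∀ {W : ℕ → Type} (P : ∀ n, FP (W n)) (g : Gs 3 W) (R j m p q : ℕ → ℕ)
  (η e₀ : ℝ) (B : ℕ → ℝ) (X : Mb W) (s₁ s₂ : ∀ n, Lq (X n).W),
  TL P g R j m p q η e₀ B X s₁ s₂ → PiS P g R j p B

/-- The step in the small unit, for the coordinate `co b`. -/
def Ext1 (b : Bool) : Prop := ∀ {W : ℕ → Type} (P : ∀ n, FP (W n)) (g : Gs 3 W)
  (R j c m p : ℕ → ℕ) (η e₀ : ℝ) (B : ℕ → ℝ) (s : ∀ n, Lq (W n)), EB P g R j m p η e₀ B →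
  (∀ ε : ℝ, 0 < ε → ∀ᶠ n in UF, EH (g n) (P n) (s n) (j n) (c n) (m n) (p n) b (ε * R n)) →
  (∀ᶠ n in UF, (g n).lk (P n) (s n).S ≤ B n) → PiS P g R j p B

/-! ### The large unit -/

/-- The label of level `c` of a family, with the window of level `j`. -/
noncomputable def lq {Ω : Type} (g : Geo 3 Ω) (F : Fam g.sh5) (j c : ℕ) : Lq Ω :=
  ⟨F.Lb × Unit × g.T × ℤ × Z 3, fun ω => (F.S c ω, g.wc j (fun _ => ()) ω), F.d iQ c,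
    fun k => F.d (iU k) c⟩

/-- The facts on the labels of an optimal family. -/
def EFix : Prop := ∀ {Ω : ℕ → Type} (K : Mb Ω → Prop) (g : Gs 3 Ω) (M : ℕ → ℕ) (η : ℝ)
  (F : ∀ n, Fam (g n).sh5) (X : Mb Ω) (c₀ c c' Δ : ℝ), Go K g M η F → K X → 0 ≤ c₀ → c₀ < c →
  c < c' → c' ≤ 1 → pr M F iQ c = 1 → (∀ k, pr M F (iU k) c' - pr M F (iU k) c ≤ Δ) →
  c - c₀ ≤ Δ →
  (Sm M fun n => (X.G (g.fin M) n).lk (X n).Q
    ((lq (g n) (F n) (lev M c₀ n) (lev M c n)).pull (X n).ρ).S) ∧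
  ∀ ε : ℝ, 0 < ε → ∀ᶠ n in UF, ∃ (m : ℕ) (b : Bool), EH (X.G (g.fin M) n) (X n).Q
    ((lq (g n) (F n) (lev M c₀ n) (lev M c n)).pull (X n).ρ) (lev M c₀ n) (lev M c n) m (M n) b
    ((Δ + ε) * M n)

/-- The conclusion of the step bounds the quadric profile from below. -/
def ELemA : Prop := ∀ {Ω : ℕ → Type} (K : Mb Ω → Prop) (g : Gs 3 Ω) (M : ℕ → ℕ) (η : ℝ)
  (F : ∀ n, Fam (g n).sh5) (X : Mb Ω) (j R : ℕ → ℕ) (B : ℕ → ℝ) (c c' : ℝ), Go K g M η F → K X →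
  Frac R M → Sm M B → 0 ≤ c → c < c' → c' ≤ 1 → (∀ n, j n + 5 * R n ≤ M n) →
  (∀ᶠ n in UF, j n ≤ lev M c n) → PiS X.P (X.G (g.fin M)) R j M B →
  Le M (fun n => M n - 5 * R n) fun n => pr M F iQ c' * M n

/-- The rate in windows near the floor, uniformly on refinements. -/
def ENg : Prop := ∀ {Ω : ℕ → Type} (K : Mb Ω → Prop) (g : Gs 3 Ω) (M : ℕ → ℕ) (η : ℝ)
  (F : ∀ n, Fam (g n).sh5) (φ : ℕ → ℕ → ℝ) (ε₀ γ : ℝ) (X : Mb Ω), Gf K g M η F φ → 0 < ε₀ →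
  NGd (hb M φ) ε₀ → K X → 0 < γ → ∃ r₀ : ℝ, 0 < r₀ ∧ ∀ r C : ℝ, 0 < r → r ≤ r₀ → ∀ᶠ n in UF,
    ∀ (W : Type) (Q : FP W) (f : W → (X n).W) (a b : ℕ), K31.Dn C Q f (X n).Q →
      M n ≤ a + 3 * lev M r n → a ≤ b → b ≤ M n →
      ch Q (fun v => fl b ((X.G g n).pt (f v))) (fun v =>
        (fl a ((X.G g n).pt (f v)), (X.G g n).zt (f v))) ≤
        (3 - ε₀) * (b - a) * lg + γ * lev M r n

/-- The choice of the levels. -/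
def EPar : Prop := ∀ (Φ : ℝ → ℝ) (u : Bool → ℝ → ℝ) (cs δ r₀ : ℝ), (∀ k, Monotone (u k)) →
  (∀ k c, 0 ≤ u k c ∧ u k c ≤ 1) → 0 < cs → cs < 1 → 0 < δ → 0 < r₀ →
  (∀ C : ℝ, 0 < C → ∃ W₀ : ℝ, 0 < W₀ ∧ ∀ W, 0 < W → W ≤ W₀ → C * W < 1 - Φ (cs - W)) →
  ∃ r c₀ c₁ c c' : ℝ, 0 < r ∧ r ≤ r₀ ∧ 0 ≤ c₀ ∧ c₀ < c₁ ∧ c₁ < cs ∧ cs < c ∧ c < c' ∧ c' ≤ 1 ∧
    c₀ + 5 * r ≤ 1 ∧ c - c₀ ≤ δ * r ∧ (∀ k, u k c' - u k c ≤ δ * r) ∧ 6 * r ≤ 1 - Φ c₁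

/-! ### Small facts -/

section Api

variable {W : Type} {g : Geo 3 W} {Q : FP W} {L L' : ℝ} {j m p : ℕ}

theorem Geo.wf.mono {A : Qd} {v : W} (h : g.wf L A v j p) (e : L ≤ L') : g.wf L' A v j p :=
  fun t ht => ⟨(h t ht).1.trans (div_le_div_of_nonneg_right e (by positivity)),
    fun i => ((h t ht).2 i).trans e⟩

theorem Geo.Bx.mono' (h : g.Bx Q L) (e : L ≤ L') : g.Bx Q L' :=
  ⟨fun v hv => ⟨fun i => ⟨((h.bd v hv).1 i).1.trans e, ((h.bd v hv).1 i).2.trans e⟩,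
    (h.bd v hv).2⟩, h.fz, h.fθ⟩

theorem Lq.Alg.mono {s : Lq W} (h : s.Alg g Q L j m p) (e : L ≤ L') : s.Alg g Q L' j m p :=
  ⟨h.bx.mono' e, h.fn, fun v hv => ⟨(h.fit v hv).1.mono e, fun k =>
    (kp.ok g _ _).monoL _ _ _ _ _ _ e ((h.fit v hv).2 k)⟩⟩

theorem Lq.Alg.wc {s : Lq W} (h : s.Alg g Q L j m p) : Fn Q (g.wc j (s.d false)) s.S :=
  fun a ha b hb e => by
    have := h.fn a ha b hb e
    simp only [Lq.dat, Geo.wc, Prod.mk.injEq] at this ⊢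
    tauto

theorem Hs.mono {A : Qd} (h : Hs A L) (e : L ≤ L') : Hs A L' := fun i k => (h i k).trans e

theorem EH.mono {s : Lq W} {c : ℕ} {b : Bool} (h : EH g Q s j c m p b L) (e : L ≤ L') :
    EH g Q s j c m p b L' :=
  ⟨⟨h.le.1, h.le.2.1.trans e, h.le.2.2⟩, h.alg.imp fun _ a =>
    ⟨a.1, a.2.1.trans (Real.exp_le_exp.2 e), a.2.2⟩, h.hk.trans e, h.lk.trans e,
    by linarith [h.hgt], by linarith [h.fx], by linarith [h.fu]⟩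

theorem Geo.Pi.mono {B : ℝ} {R : ℕ} (h : g.Pi Q L B j R p) (e : L ≤ L') (hB : 0 ≤ B) :
    g.Pi Q L' B j R p := by
  obtain ⟨W', Λ, Q', ρ, lam, A, τ, a, b, c, d⟩ := h
  have := mul_le_mul_of_nonneg_right e hB
  exact ⟨W', Λ, Q', ρ, lam, A, τ, a.mono e, b.trans this, c.trans this, d⟩

theorem qf_hyp (c Y : V 5) : qf (vecMulVec (bv 0) c) Y = Y 0 * (c ⬝ᵥ Y) := by
  simp [qf, vecMulVec_mulVec, bv, mul_comm]

theorem pf_hyp (c Y U : V 5) :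
    pf (vecMulVec (bv 0) c) Y U = Y 0 * (c ⬝ᵥ U) + U 0 * (c ⬝ᵥ Y) := by
  simp [pf, vecMulVec_mulVec, bv, mul_comm]

theorem rd_le (q : ℕ) (x : ℝ) : rd q x ≤ x ∧ x < rd q x + ((2 : ℝ) ^ q)⁻¹ := by
  have h : (0 : ℝ) < 2 ^ q := by positivity
  have h1 := Int.floor_le ((2 : ℝ) ^ q * x)
  have h2 := Int.lt_floor_add_one ((2 : ℝ) ^ q * x)
  unfold rd fl1
  constructor
  · rwa [inv_mul_le_iff₀ h]
  · rwa [← mul_one ((2 : ℝ) ^ q)⁻¹, mul_assoc, one_mul, ← mul_add, lt_inv_mul_iff₀ h]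

theorem fl1_rd {a q : ℕ} (h : a ≤ q) (x : ℝ) : fl1 a (rd q x) = fl1 a x :=
  fl1_eq_of_le h (by
    unfold rd
    rw [fl1, ← mul_assoc, mul_inv_cancel₀ (by positivity), one_mul, Int.floor_intCast])

theorem Agr.scale {A₁ A₂ : Qd} {Y : V 5} {U : Fin 3 → V 5} {Λ η c : ℝ} (h : Agr A₁ A₂ Y U Λ η)
    (hc : 1 ≤ c) : Agr A₁ A₂ Y U (c * Λ) (c * η) := by
  have h0 : 0 ≤ η := (abs_nonneg _).trans h.val.1
  have h1 : Λ ≤ c * Λ := le_mul_of_one_le_left (by linarith [h.d₁.1, h.d₁.2]) hc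
  have h2 : η ≤ c * η := le_mul_of_one_le_left h0 hc
  refine ⟨⟨h.d₁.1, h.d₁.2.trans h1⟩, ⟨h.d₂.1, h.d₂.2.trans h1⟩,
    ⟨h.val.1.trans h2, h.val.2.trans h2⟩, fun a => (h.tan a).trans h2,
    fun a b => (h.sec a b).trans h2, fun a => (h.mix a).trans h2, h.top.trans h2,
    fun a => (h.bet a).trans h1, le_trans ?_ (mul_le_mul_of_nonneg_left h.alp (by linarith))⟩
  rw [mul_left_comm]
  refine mul_le_mul_of_nonneg_left (max_le ?_ ?_) (abs_nonneg _)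
  · exact (le_max_left _ η).trans (le_mul_of_one_le_left (h0.trans (le_max_right _ _)) hc)
  · exact mul_le_mul_of_nonneg_left (le_max_right _ _) (by linarith)

end Api

theorem TL.la {W : ℕ → Type} {P : ∀ n, FP (W n)} {g : Gs 3 W} {R j m p q : ℕ → ℕ} {η e₀ : ℝ}
    {B : ℕ → ℝ} {X : Mb W} {s₁ s₂ : ∀ n, Lq (X n).W} (h : TL P g R j m p q η e₀ B X s₁ s₂) :
    ∃ L, Sub R L ∧ ∀ᶠ n in UF,
      LA (X n).Q (X.G g n) (s₁ n) (s₂ n) (L n) (j n) (m n) (q n) (R n) := by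
  obtain ⟨L₁, a₁, b₁⟩ := h.tw.sd₁.alg
  obtain ⟨L₂, a₂, b₂⟩ := h.tw.sd₂.alg
  obtain ⟨L₃, a₃, b₃⟩ := h.hs
  have hb := h.tw.sd₁.big
  have hL := (a₁.mul a₂).mul a₃
  refine ⟨_, hL, ?_⟩
  filter_upwards [b₁, b₂, b₃, (hL.const_mul hb (C := 5) (by norm_num)).2 lg lg_pos] with n x y z w
  have e₁ := a₁.1 n; have e₂ := a₂.1 n; have e₃ := a₃.1 n
  have e₄ : 1 ≤ L₁ n * L₂ n := one_le_mul_of_one_le_of_one_le e₁ e₂
  have e₅ : L₃ n * 2 ^ q n / 2 ^ R n ≤ L₁ n * L₂ n * L₃ n * 2 ^ q n / 2 ^ R n := by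
    gcongr; nlinarith
  refine ⟨⟨hL.1 n, (h.eb.le n).1, (h.le n).1, w.trans_eq ?_⟩, x.mono (by nlinarith),
    y.mono (by nlinarith), h.fr n, fun v hv => ⟨⟨(z v hv).1.1.mono e₅, (z v hv).1.2⟩,
      (z v hv).2.1.mono e₅, (z v hv).2.2⟩⟩
  rw [mul_comm, Real.exp_nat_mul, lg, Real.exp_log two_pos]

/-! ### Rows -/

def OfESd : Prop := ECnt → ESd
def OfEDnA : Prop := EDn → EDnA
def OfEIni : Prop := ERmz → EDnA → EIni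
def OfEPair : Prop := WinQ → EPair
def OfEShB : Prop := ECnt → ESh → EShB
def OfEShare : Prop := ESd → EPair → EShB → EShare
def OfEFrame : Prop := ESd → ESepD → EPl → EFrame
def OfEPrep : Prop := ESd → EDnA → EShp → EPrep
def OfELatU : Prop := ECnt → ELatU
def OfELm : Prop := ESd → ELatA → ELatF → ELatI → ELatU → ELm
def OfEFin : Prop := EAgree → ERound → ELm → ERG → ENum → EFin
def ESwp : Prop := Ext1 false → Ext1 true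
def OfEFix : Prop := PR → FB → EFix
def OfELemA : Prop := PR → NLof → NormQ → ELemA

end Pool.Agent.MP_5168f5_an.R4
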