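import Pool.Agent.MP_5168f5_an.R4.NCx4

/-! Kakeya sets in four dimensions: planarity for curves of degree two. -/

namespace Pool.Agent.MP_5168f5_an.R4

open H19 H17S H17F Filter NCx

/-- The curve `c₀ + c₁ t + c₂ t²`. -/
def par (c : V 3) (t : ℝ) : ℝ := c 0 + c 1 * t + c 2 * t ^ 2

/-- Its derivative. -/
def dpar (c : V 3) (t : ℝ) : ℝ := c 1 + 2 * c 2 * t

/-- A number in `[0, 1)` whose first `M` digits are full given `l`. -/
structure Fu {Ω A : ℕ → Type} (P : ∀ n, FP (Ω n)) (l : ∀ n, Ω n → A n) (z : ∀ n, Ω n → ℝ)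
    (M : ℕ → ℕ) : Prop where
  big : Big M
  box : ∀ᶠ n in UF, ∀ ω ∈ (P n).S, 0 ≤ z n ω ∧ z n ω < 1
  full : Le M (fun n => M n * lg) fun n => ch (P n) (fun ω => fl1 (M n) (z n ω)) (l n)

/-- A height with `M` digits that is full given `l`. -/
structure Ht {Ω A : ℕ → Type} (P : ∀ n, FP (Ω n)) (l : ∀ n, Ω n → A n) (z : ∀ n, Ω n → ℝ)
    (M : ℕ → ℕ) : Prop extends Fu P l z M where
  dig : ∀ᶠ n in UF, Fn (P n) (z n) fun ω => fl1 (M n) (z n ω)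

/-- Bounded curves `c` in the context `Θ` with a full height. -/
structure Pb {Ω T : ℕ → Type} (P : ∀ n, FP (Ω n)) (Θ : ∀ n, Ω n → T n) (c : ∀ n, Ω n → V 3)
    (z : ∀ n, Ω n → ℝ) (M : ℕ → ℕ) (L : ℕ → ℝ) : Prop where
  ht : Ht P (fun n ω => (c n ω, Θ n ω)) z M
  sub : Sub M L
  bd : ∀ᶠ n in UF, ∀ ω ∈ (P n).S, ∀ i, |c n ω i| ≤ L n

section Api

variable {Ω A B T : ℕ → Type} {P : ∀ n, FP (Ω n)} {l : ∀ n, Ω n → A n} {l' : ∀ n, Ω n → B n}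
  {z : ∀ n, Ω n → ℝ} {M : ℕ → ℕ} {E : ∀ n, Ω n → Prop} {Θ : ∀ n, Ω n → T n}
  {c : ∀ n, Ω n → V 3} {L : ℕ → ℝ}

theorem det_box {W β : Type} {P : FP W} {z : W → ℝ} (h : ∀ ω ∈ P.S, 0 ≤ z ω ∧ z ω < 1) (m : ℕ)
    (G : W → β) : Det P (fun ω => fl1 m (z ω)) G (2 ^ m) := fun ω _ =>
  ⟨Finset.Ico 0 (2 ^ m), by
    rw [Int.card_Ico, sub_zero, show ((2 : ℤ) ^ m) = ((2 ^ m : ℕ) : ℤ) by push_cast; rfl,
      Int.toNat_natCast]
    push_cast; exact le_rfl, fun b hb _ => by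
    have := fl1_mem_Ico (j := 0) (i := m) (x := z b) (y := 0)
      ((fl1_zero_of_box (h b hb).1 (h b hb).2).trans (fl1_zero_of_box le_rfl one_pos).symm)
    simpa [fl1] using this⟩

theorem Fu.dn {W : ℕ → Type} {Q : ∀ n, FP (W n)} {f : ∀ n, W n → Ω n} (h : Fu P l z M)
    (e : K31.DnS Q f P) : Fu Q (fun n v => l n (f n v)) (fun n v => z n (f n v)) M :=
  ⟨h.big, by
    obtain ⟨C, -, e⟩ := e
    filter_upwards [e, h.box] with n a b v hv using b _ (a.mem hv), by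
    have := e.full h.big (N := fun n => 2 ^ M n) (F := fun n ω => fl1 (M n) (z n ω)) (G := l)
      (h.box.mono fun n a => det_box a _ _) (by simpa only [log_two_pow] using h.full)
    simpa only [log_two_pow] using this⟩

theorem Fu.cE (h : Fu P l z M) (e : Pos P E) : Fu (fun n => cE (P n) (E n)) l z M :=
  h.dn (K31.dnS_cE e)

theorem Fu.anti (h : Fu P l z M) (e : ∀ᶠ n in UF, Fn (P n) (l' n) (l n)) : Fu P l' z M :=
  ⟨h.big, h.box, h.full.trans (Le.of_ev (e.mono fun _ a => ch_anti a))⟩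

/-- Side information of small entropy. -/
theorem Fu.near (h : Fu P l z M) (e : Sm M fun n => ch (P n) (l' n) (l n)) : Fu P l' z M :=
  ⟨h.big, h.box, h.full.of2 e (Eventually.of_forall fun n => by
    have h1 := ch_drop (P := P n) (fun ω => fl1 (M n) (z n ω)) (l' n) (l n)
    have h2 : ch (P n) (fun ω => fl1 (M n) (z n ω)) (fun ω => (l' n ω, l n ω)) ≤
      ch (P n) (fun ω => fl1 (M n) (z n ω)) (l' n) := ch_anti (Fn.fst _ _)
    linarith)⟩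

/-- The first digits are full. -/
theorem Fu.coarse (h : Fu P l z M) {j : ℕ → ℕ} (hj : ∀ n, j n ≤ M n) :
    Le M (fun n => j n * lg) fun n => ch (P n) (fun ω => fl1 (j n) (z n ω)) (l n) := by
  refine h.full.of2 (le_fl1 (P := P) (x := z) (G := fun n ω => (fl1 (j n) (z n ω), l n ω))
    h.big (h.big.sub le_rfl) hj (Eventually.of_forall fun n a _ b _ e => by
      rw [one_div]; exact (abs_sub_lt_of_fl1_eq (Prod.mk.inj e).1).le))
    (Eventually.of_forall fun n => ?_)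
  linarith [ch_tri (P := P n) (fun ω => fl1 (M n) (z n ω)) (fun ω => fl1 (j n) (z n ω)) (l n)]

theorem Fu.frac (h : Fu P l z M) {M' : ℕ → ℕ} (e : Frac M' M) : Fu P l z M' :=
  ⟨h.big.frac e, h.box, (h.coarse e.1).frac e⟩

/-- A full number is far from every function of `l`. -/
theorem Fu.far (h : Fu P l z M) {x : ∀ n, Ω n → ℝ} (hx : ∀ᶠ n in UF, Fn (P n) (x n) (l n)) :
    ∃ L, Sub M L ∧ Whp P fun n ω => 1 ≤ L n * |z n ω - x n ω| := by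
  refine ks.wsub _ (fun n ω L => 1 ≤ L * |z n ω - x n ω|) M fun c c0 c1 => by_contra fun k => ?_
  have pos := not_whp k
  obtain ⟨f1, κ, κ0, f2⟩ := h.big.frac_floor c0 c1
  have h1 := (h.cE pos).coarse f1
  have h2 := Sm.near1 (P := fun n => H17F.cE (P n) fun ω =>
      ¬1 ≤ Real.exp (c * M n) * |z n ω - x n ω|) (x := z) (G := l) (j := fun n => ⌊c * M n⌋₊)
    h.big (h.big.sub one_le_two) (by
      filter_upwards [pos.sure, hx] with n s f a ha b hb e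
      have k : ∀ ω, ¬1 ≤ Real.exp (c * M n) * |z n ω - x n ω| →
          |z n ω - x n ω| ≤ 1 / 2 ^ ⌊c * M n⌋₊ := fun ω u => by
        have u1 := (two_pow_le_exp ⌊c * M n⌋₊).trans
          (Real.exp_le_exp.2 (Nat.floor_le (show 0 ≤ c * M n by positivity)))
        rw [le_div_iff₀ (by positivity), mul_comm]
        exact (mul_le_mul_of_nonneg_right u1 (abs_nonneg _)).trans (not_le.1 u).le
      have k1 := k a (s a ha).2
      have k2 := k b (s b hb).2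
      rw [← f a (s a ha).1 b (s b hb).1 e, abs_sub_comm] at k2
      have := abs_sub_le (z n a) (x n a) (z n b)
      rw [show (2 : ℝ) / 2 ^ ⌊c * M n⌋₊ = 1 / 2 ^ ⌊c * M n⌋₊ + 1 / 2 ^ ⌊c * M n⌋₊ by ring]
      linarith)
  refine (h1.trans h2).false h.big (mul_pos κ0 lg_pos) (f2.mono fun n a => ?_)
  nlinarith [lg_pos]

theorem Ht.dn {W : ℕ → Type} {Q : ∀ n, FP (W n)} {f : ∀ n, W n → Ω n} (h : Ht P l z M)
    (e : K31.DnS Q f P) : Ht Q (fun n v => l n (f n v)) (fun n v => z n (f n v)) M :=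
  ⟨h.toFu.dn e, by
    obtain ⟨C, -, e⟩ := e
    filter_upwards [e, h.dig] with n a b using a.fn b⟩

theorem Ht.cE (h : Ht P l z M) (e : Pos P E) : Ht (fun n => cE (P n) (E n)) l z M :=
  h.dn (K31.dnS_cE e)

theorem Ht.anti (h : Ht P l z M) (e : ∀ᶠ n in UF, Fn (P n) (l' n) (l n)) : Ht P l' z M :=
  ⟨h.toFu.anti e, h.dig⟩

theorem Ht.near (h : Ht P l z M) (e : Sm M fun n => ch (P n) (l' n) (l n)) : Ht P l' z M :=
  ⟨h.toFu.near e, h.dig⟩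

/-- The entropy of the height is at most `M log 2`. -/
theorem Ht.le (h : Ht P l z M) (G : ∀ n, Ω n → B n) :
    ∀ᶠ n in UF, ch (P n) (z n) (G n) ≤ M n * lg := (h.dig.and h.box).mono fun n a =>
  (ch_mono (a.1.left _)).trans ((ch_det (det_box a.2 _ _)).trans (log_two_pow _).le)

theorem Pb.cE (h : Pb P Θ c z M L) (e : Pos P E) : Pb (fun n => cE (P n) (E n)) Θ c z M L :=
  ⟨h.ht.cE e, h.sub, h.bd.mono fun _ a ω hω => a ω (cE_sub hω)⟩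

end Api

/-- The data shared by two curves through one point. -/
noncomputable def Yc {Ω T : Type} (Θ : Ω → T) (z φ : Ω → ℝ) (k : ℕ) (ω : Ω) : (ℝ × ℤ) × T :=
  ((z ω, fl1 k (φ ω)), Θ ω)

/-- If two curves through a point determine the first `j` digits of the height, then the point
has entropy at least `j log 2` over the height. -/
def CorS : Prop := ∀ {Ω T A : ℕ → Type} (P : ∀ n, FP (Ω n)) (Θ : ∀ n, Ω n → T n)
  (l : ∀ n, Ω n → A n) (z φ : ∀ n, Ω n → ℝ) (M k j : ℕ → ℕ) (L : ℕ → ℝ)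
  (G : ∀ n, Ω n × Ω n → Prop) (b : ∀ n, Ω n × Ω n → Prop), Ht P l z M → Sub M L →
  (∀ n, j n ≤ M n) →
  (∀ᶠ n in UF, Fn (P n) (Θ n) (l n) ∧ Fn (P n) (φ n) (fun ω => (l n ω, z n ω)) ∧
    ∀ v ∈ (glue (P n) (P n) (Yc (Θ n) (z n) (φ n) (k n)) (Yc (Θ n) (z n) (φ n) (k n))).S,
    ∀ w ∈ (glue (P n) (P n) (Yc (Θ n) (z n) (φ n) (k n)) (Yc (Θ n) (z n) (φ n) (k n))).S,
      G n v → G n w → l n v.1 = l n w.1 → l n v.2 = l n w.2 → b n v = b n w →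
        |z n v.1 - z n w.1| ≤ L n / 2 ^ j n) →
  Whp (fun n => glue (P n) (P n) (Yc (Θ n) (z n) (φ n) (k n)) (Yc (Θ n) (z n) (φ n) (k n))) G →
  Le M (fun n => j n * lg) fun n =>
    ch (P n) (fun ω => fl1 (k n) (φ n ω)) fun ω => (z n ω, Θ n ω)

/-- The point determines the slope. -/
def Slope : Prop := ∀ {Ω T : ℕ → Type} (P : ∀ n, FP (Ω n)) (Θ : ∀ n, Ω n → T n)
  (c : ∀ n, Ω n → V 3) (z : ∀ n, Ω n → ℝ) (M i j : ℕ → ℕ) (L D : ℕ → ℝ) (ε : ℝ),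
  Pb P Θ c z M L → 0 < ε → (∀ n, i n + j n ≤ M n) → (∀ᶠ n in UF, D n + ε * M n ≤ j n * lg) →
  (∀ E, Pos P E → Le M (fun n => ch (cE (P n) (E n))
    (fun ω => fl1 (i n + j n) (par (c n ω) (z n ω))) fun ω => (z n ω, Θ n ω)) D) →
  Sm M fun n => ch (P n) (fun ω => fl1 (i n) (dpar (c n ω) (z n ω))) fun ω =>
    (fl1 (i n + j n) (par (c n ω) (z n ω)), z n ω, Θ n ω)

/-- A bounded number of steps. -/
def Iter : Prop := ∀ {Ω α β : ℕ → Type} (P : ∀ n, FP (Ω n)) (A : ∀ n, ℕ → Ω n → α n)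
  (B : ∀ n, Ω n → β n) (M q r : ℕ → ℕ), Big M → Frac r M → (∀ n, q n ≤ M n) →
  (∀ n j j', j ≤ j' → Fn (P n) (A n j) (A n j')) → (Sm M fun n => ch (P n) (A n 0) (B n)) →
  (∀ j : ℕ → ℕ, (∀ n, j n ≤ q n) →
    Sm M fun n => ch (P n) (A n (j n + r n)) fun ω => (A n (j n) ω, B n ω)) →
  Sm M fun n => ch (P n) (A n (q n)) (B n)

/-- Planarity for lines from windows of one length. -/
def PLw : Prop := ∀ {Ω T : ℕ → Type} (P : ∀ n, FP (Ω n)) (Θ : ∀ n, Ω n → T n)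
  (a e z : ∀ n, Ω n → ℝ) (M q s : ℕ → ℕ) (L : ℕ → ℝ) (ε₀ : ℝ),
  Ht P (fun n ω => (a n ω, e n ω, Θ n ω)) z M → Sub M L →
  (∀ᶠ n in UF, ∀ ω ∈ (P n).S, |a n ω| ≤ L n ∧ |e n ω| ≤ L n) → 0 < ε₀ → ε₀ ≤ 1 → Frac s M →
  (∀ n, q n + s n ≤ M n) →
  (∀ j : ℕ → ℕ, (∀ n, j n ≤ q n) → ∀ E, Pos P E → Le M (fun n => ch (cE (P n) (E n))
    (fun ω => fl1 (j n + s n) (a n ω + e n ω * z n ω)) fun ω =>
      (fl1 (j n) (a n ω + e n ω * z n ω), z n ω, Θ n ω)) fun n => (1 - ε₀) * s n * lg) →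
  Sm M fun n => ch (P n) (fun ω => fl1 (q n) (e n ω)) fun ω =>
    (fl1 (q n + s n) (a n ω + e n ω * z n ω), z n ω, Θ n ω)

/-- The point and the slope determine the curvature. -/
def Curv : Prop := ∀ {Ω T : ℕ → Type} (P : ∀ n, FP (Ω n)) (Θ : ∀ n, Ω n → T n)
  (c : ∀ n, Ω n → V 3) (z : ∀ n, Ω n → ℝ) (M r ρ : ℕ → ℕ) (L : ℕ → ℝ) (ε₀ : ℝ) (m : ℕ),
  Pb P Θ c z M L → 0 < ε₀ → ε₀ ≤ 1 → 2 ≤ ε₀ * m → Frac r M →
  (∀ n, ρ n = (m ^ 2 + 3 * m + 1) * r n ∧ ρ n ≤ M n) →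
  NG1 P (fun n ω => (z n ω, Θ n ω)) (fun n ω => par (c n ω) (z n ω)) ρ ε₀ →
  Sm M fun n => ch (P n) (fun ω => fl1 (r n) (c n ω 2)) fun ω =>
    (fl1 (ρ n) (par (c n ω) (z n ω)), fl1 (ρ n) (dpar (c n ω) (z n ω)), z n ω, Θ n ω)

/-- Planarity for curves of degree two, heights with `M` digits. -/
def PL2d : Prop := ∀ {Ω T : ℕ → Type} (P : ∀ n, FP (Ω n)) (Θ : ∀ n, Ω n → T n)
  (c : ∀ n, Ω n → V 3) (z : ∀ n, Ω n → ℝ) (M q s : ℕ → ℕ) (L : ℕ → ℝ) (ε₀ : ℝ),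
  Pb P Θ c z M L → 0 < ε₀ → ε₀ ≤ 1 → Frac s M → (∀ n, q n + s n ≤ M n) →
  NG1 P (fun n ω => (z n ω, Θ n ω)) (fun n ω => par (c n ω) (z n ω)) M ε₀ →
  Sm M fun n => ch (P n) (fun ω => fl (q n) (c n ω)) fun ω =>
    (fl1 (q n + s n) (par (c n ω) (z n ω)), z n ω, Θ n ω)

/-- Planarity for curves of degree two. -/
def PL2 : Prop := ∀ {Ω T : ℕ → Type} (P : ∀ n, FP (Ω n)) (Θ : ∀ n, Ω n → T n)
  (c : ∀ n, Ω n → V 3) (z : ∀ n, Ω n → ℝ) (M q s : ℕ → ℕ) (L : ℕ → ℝ) (ε₀ : ℝ),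
  Big M → Sub M L →
  (∀ᶠ n in UF, ∀ ω ∈ (P n).S, (0 ≤ z n ω ∧ z n ω < 1) ∧ ∀ i, |c n ω i| ≤ L n) →
  (Sm M fun n => mi (P n) (z n) (c n) (Θ n)) →
  Le M (fun n => M n * lg) (fun n => ch (P n) (fun ω => fl1 (M n) (z n ω)) (Θ n)) →
  0 < ε₀ → ε₀ ≤ 1 → Frac s M → (∀ n, q n + s n ≤ M n) →
  NG1 P (fun n ω => (z n ω, Θ n ω)) (fun n ω => par (c n ω) (z n ω)) M ε₀ →
  Sm M fun n => ch (P n) (fun ω => fl (q n) (c n ω)) fun ω =>
    (fl1 (q n + s n) (par (c n ω) (z n ω)), fl1 (M n) (z n ω), Θ n ω)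

def OfCorS : Prop := KF2 → CorS
def OfSlope : Prop := Spread → CorS → Slope
def OfPLw : Prop := Iter → Slope → PLw
def OfCurv : Prop := Spread → PLw → Curv
def OfPL2d : Prop := Iter → Slope → Curv → PL2d
def OfPL2 : Prop := PL2d → PL2

end Pool.Agent.MP_5168f5_an.R4
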