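import Pool.Agent.MP_5168f5_an.R4.BApi
import Pool.Agent.MP_5168f5_an.R4.SpecSV

/-! Case B2 with `u` of weight two: the slope of the hyperplanes does not turn along the lines. -/

namespace Pool.Agent.MP_5168f5_an.R4.Eng

open H19 H17S H17F Filter Tan

/-- The coefficients of an affine function are bounded by its value at a full number. -/
theorem lin {Ω A : ℕ → Type} {P : ∀ n, FP (Ω n)} {l : ∀ n, Ω n → A n} {z p q : ∀ n, Ω n → ℝ}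
    {M : ℕ → ℕ} (h : Fu P l z M) (e : ∀ᶠ n in UF, Fn (P n) (fun ω => (p n ω, q n ω)) (l n)) :
    ∃ L, Sub M L ∧ Whp P fun n ω => |q n ω| ≤ L n * |p n ω + q n ω * z n ω| := by
  obtain ⟨L, s, w⟩ := h.far (x := fun n ω => -(p n ω / q n ω))
    (e.mono fun n a => (Fn.comp (fun x : ℝ × ℝ => -(x.1 / x.2)) _).trans a)
  refine ⟨L, s, w.mono (Eventually.of_forall fun n ω _ u => ?_)⟩
  rcases eq_or_ne (q n ω) 0 with o | o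
  · rw [o, abs_zero]; exact mul_nonneg (s.pos n).le (abs_nonneg _)
  · rw [show p n ω + q n ω * z n ω = (z n ω - -(p n ω / q n ω)) * q n ω by field_simp; ring,
      abs_mul, ← mul_assoc]
    exact le_mul_of_one_le_left (abs_nonneg _) u

/-- The line `(a + t w, b + t e, c + t f)`, the height `z`, two cells `S`, `S'`, the slope `τ` of
the plane of `S'` in `x`, the slope `G` of the hyperplane of `S` in `u`, and side data. -/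
structure Ev (Ω : Type) : Type 1 where
  T : Type
  Λ : Type
  θ : Ω → T
  S : Ω → Λ
  S' : Ω → Λ
  a : Ω → ℝ
  w : Ω → ℝ
  b : Ω → ℝ
  e : Ω → ℝ
  c : Ω → ℝ
  f : Ω → ℝ
  z : Ω → ℝ
  τ : Ω → ℝ
  G : Ω → ℝ
  h : Ω → ℝ
  k : Ω → ℝ
  g : Ω → ℝ

namespace Ev

variable {Ω : Type} (D : Ev Ω) (r σ m κ : ℕ) (L : ℝ)

/-- The line. -/
def ln (ω : Ω) : ℝ × ℝ × ℝ × ℝ × ℝ × ℝ × D.T := (D.a ω, D.w ω, D.b ω, D.e ω, D.c ω, D.f ω, D.θ ω)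

/-- The context of the side data. -/
noncomputable def th (ω : Ω) : ℤ × ℤ × ℤ × ℤ × ℤ × ℤ × D.T :=
  (fl1 r (D.a ω), fl1 r (D.w ω), fl1 r (D.e ω), fl1 σ (D.b ω), fl1 σ (D.c ω), fl1 σ (D.f ω), D.θ ω)

/-- The side data and their context. -/
noncomputable def xi (ω : Ω) : (ℝ × ℝ × ℝ) × ℤ × ℤ × ℤ × ℤ × ℤ × ℤ × D.T :=
  ((D.h ω, D.k ω, D.g ω), D.th r σ ω)

/-- The tube. -/
noncomputable def tb (ω : Ω) : ℤ × ℤ × D.T := (fl1 m (D.a ω), fl1 m (D.w ω), D.θ ω)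

/-- The data shared by two parallel lines through a cell. -/
noncomputable def p1 (ω : Ω) : D.Λ × ℤ × ℤ := (D.S ω, fl1 r (D.w ω), fl1 r (D.z ω))

/-- The data shared by two lines of a fan. -/
noncomputable def p2 (ω : Ω) : D.Λ × ℤ := (D.S' ω, fl1 σ (D.w ω))

/-- Pairs of parallel lines. -/
noncomputable def Q1 (P : FP Ω) : FP (Ω × Ω) := glue P P (D.p1 r) (D.p1 r)

/-- A pair of parallel lines and a line of the fan of the first. -/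
noncomputable def Q2 (P : FP Ω) : FP ((Ω × Ω) × Ω) :=
  glue (D.Q1 r P) P (fun v => D.p2 σ v.1) (D.p2 σ)

/-- Bounds at one sample. -/
structure One (ω : Ω) : Prop where
  z : 0 ≤ D.z ω ∧ D.z ω < 1
  ln : |D.a ω| ≤ L ∧ |D.w ω| ≤ L ∧ |D.b ω| ≤ L ∧ |D.e ω| ≤ L ∧ |D.c ω| ≤ L ∧ |D.f ω| ≤ L
  bd : |D.τ ω| ≤ L ∧ |D.G ω| ≤ L ∧ |D.h ω| ≤ L ∧ |D.k ω| ≤ L ∧ |D.g ω| ≤ L
  low : 1 ≤ L * 2 ^ κ * |D.h ω|
  e1 : |D.f ω - D.k ω - D.h ω * D.b ω| ≤ L / 2 ^ (σ + m)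
  e2 : |D.G ω - D.g ω - D.z ω * D.h ω| ≤ L / 2 ^ m

/-- Two parallel lines through a cell. -/
structure Par (ω ω' : Ω) : Prop where
  near : |D.a ω - D.a ω'| ≤ L / 2 ^ σ ∧ |D.b ω - D.b ω'| ≤ L / 2 ^ σ ∧
    |D.e ω - D.e ω'| ≤ L / 2 ^ σ ∧ |D.c ω - D.c ω'| ≤ L / 2 ^ σ ∧ |D.f ω - D.f ω'| ≤ L / 2 ^ σ
  sl : |D.f ω - D.f ω' - D.G ω * (D.e ω - D.e ω')| ≤ L / 2 ^ (σ + m)
  pos : |D.b ω - D.b ω' + D.z ω * (D.e ω - D.e ω') - D.τ ω * (D.a ω - D.a ω')| ≤ L / 2 ^ (σ + m)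

/-- Two lines through a small cell. -/
structure Fan (ω ω' : Ω) : Prop where
  sl : |D.e ω - D.e ω' - D.τ ω * (D.w ω - D.w ω')| ≤ L / 2 ^ (σ + m)
  pos : |D.a ω - D.a ω' + D.z ω' * (D.w ω - D.w ω')| ≤ L / 2 ^ (σ + m)
  z : |D.z ω - D.z ω'| ≤ L / 2 ^ (σ + m)

end Ev

/-- The facts; the unit is `r`. -/
structure En {Ω : ℕ → Type} (P : ∀ n, FP (Ω n)) (D : ∀ n, Ev (Ω n)) (r σ m κ : ℕ → ℕ)
    (L : ℕ → ℝ) : Prop where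
  big : Big r
  frac : Frac m r
  lev : ∀ n, m n ≤ σ n ∧ σ n + m n ≤ r n ∧ κ n ≤ m n
  sub : Sub r L
  alg : ∀ᶠ n in UF, Fn (P n) (fun ω => ((D n).θ ω, (D n).G ω)) (D n).S ∧
    Fn (P n) (fun ω => ((D n).S ω, (D n).τ ω)) (D n).S' ∧
    (∀ ω ∈ (P n).S, (D n).One (σ n) (m n) (κ n) (L n) ω) ∧ ∀ ω ∈ (P n).S, ∀ ω' ∈ (P n).S,
      ((D n).p1 (r n) ω = (D n).p1 (r n) ω' → (D n).Par (σ n) (m n) (L n) ω ω') ∧
      ((D n).S' ω = (D n).S' ω' → (D n).Fan (σ n) (m n) (L n) ω ω')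
  hgt : Fu P (fun n => (D n).ln) (fun n => (D n).z) r
  inf : Sm r fun n => mi (P n) (fun ω => fl1 (r n) ((D n).z ω)) (D n).ln (D n).S
  off : Le r (fun n => (r n - σ n : ℝ) * lg) fun n =>
    ch (P n) (fun ω => fl1 (r n) ((D n).a ω)) ((D n).p1 (r n))
  typ : Sm r fun n => mi (P n) (fun ω => fl1 (r n) ((D n).w ω)) (D n).S' (D n).θ
  nil : ∀ q : ℕ → ℕ, (∀ n, q n ≤ r n) →
    Sm r fun n => ch (P n) (fun ω => fl1 (q n) ((D n).e ω)) ((D n).tb (q n))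
  side : Sm r fun n =>
    ch (P n) (fun ω => ((D n).h ω, (D n).k ω, (D n).g ω)) ((D n).th (r n) (σ n))
  sep0 : Whp (fun n => glue (P n) (P n) (D n).S' (D n).S') fun n v =>
    1 ≤ L n * |(D n).w v.1 - (D n).w v.2|
  sep1 : Whp (fun n => glue (P n) (P n) ((D n).p2 (σ n)) ((D n).p2 (σ n))) fun n v =>
    1 ≤ L n * 2 ^ σ n * |(D n).w v.1 - (D n).w v.2|

/-- A statement on all data. -/
def All (p : ∀ {Ω : ℕ → Type}, (∀ n, FP (Ω n)) → (∀ n, Ev (Ω n)) → (ℕ → ℕ) → (ℕ → ℕ) → (ℕ → ℕ) →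
    (ℕ → ℕ) → Prop) : Prop :=
  ∀ {Ω : ℕ → Type} (P : ∀ n, FP (Ω n)) (D : ∀ n, Ev (Ω n)) (r σ m κ : ℕ → ℕ) (L : ℕ → ℝ),
    En P D r σ m κ L → p P D r σ m κ

/-- The height and the tube determine the slope of the plane. -/
def TD : Prop := All fun P D r _ m _ => Sm r fun n => ch (P n) (fun ω => fl1 (m n) ((D n).τ ω))
  fun ω => (fl1 (r n) ((D n).z ω), (D n).tb (m n) ω)

/-- An affine function of a full number that is determined by the number and `Γ`. -/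
def LinD : Prop := ∀ {Ω A B : ℕ → Type} (P : ∀ n, FP (Ω n)) (Ξ : ∀ n, Ω n → A n)
  (Γ : ∀ n, Ω n → B n) (z T c₀ c₁ : ∀ n, Ω n → ℝ) (M ρ : ℕ → ℕ) (L : ℕ → ℝ), Fu P Ξ z M →
  Sub M L → (∀ n, ρ n ≤ M n) →
  (∀ᶠ n in UF, Fn (P n) (fun ω => (c₀ n ω, c₁ n ω, Γ n ω)) (Ξ n) ∧
    ∀ ω ∈ (P n).S, |c₀ n ω| ≤ L n ∧ |c₁ n ω| ≤ L n) →
  Whp P (fun n ω => |T n ω - c₀ n ω - c₁ n ω * z n ω| ≤ L n / 2 ^ ρ n) →
  (Sm M fun n => ch (P n) (fun ω => fl1 (ρ n) (T n ω)) fun ω => (fl1 (M n) (z n ω), Γ n ω)) →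
  Sm M fun n => ch (P n) (fun ω => (fl1 (ρ n) (c₀ n ω), fl1 (ρ n) (c₁ n ω))) (Γ n)

/-- Parallel lines are separated. -/
def SepA : Prop := All fun P D r σ _ _ => ∃ L, Sub r L ∧
  Whp (fun n => (D n).Q1 (r n) (P n)) fun n v => 1 ≤ L n * 2 ^ σ n * |(D n).a v.1 - (D n).a v.2|

/-- The height is full given the data of two parallel lines. -/
def FuX : Prop := All fun P D r σ _ _ => Fu (fun n => (D n).Q1 (r n) (P n))
  (fun n v => ((D n).xi (r n) (σ n) v.1, (D n).xi (r n) (σ n) v.2)) (fun n v => (D n).z v.1) r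

/-- The slope of the plane is affine along the line. -/
def Aff : Prop := All fun P D r σ m κ => ∃ (c₀ c₁ : ∀ n, _ → ℝ) (L : ℕ → ℝ), Sub r L ∧
  (∀ᶠ n in UF, Fn ((D n).Q1 (r n) (P n)) (fun v => (c₀ n v, c₁ n v))
    (fun v => ((D n).xi (r n) (σ n) v.1, (D n).xi (r n) (σ n) v.2)) ∧
    ∀ v, |c₀ n v| ≤ L n ∧ |c₁ n v| ≤ L n) ∧
  Whp (fun n => (D n).Q1 (r n) (P n)) fun n v =>
    |(D n).τ v.1 - c₀ n v - c₁ n v * (D n).z v.1| ≤ L n / 2 ^ (m n - κ n) ∧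
    |(D n).e v.1 - (D n).e v.2 - c₁ n v / 2 * ((D n).a v.1 - (D n).a v.2)| ≤
      L n / 2 ^ (σ n + m n)

/-- The height of the line of the fan is full. -/
def FuP : Prop := All fun P D r σ m _ => ∀ (A : ℕ → Type) (C : ∀ n, _ → A n),
  (Sm r fun n => ch ((D n).Q1 (r n) (P n)) (C n) fun v => (D n).tb (m n) v.1) →
  Fu (fun n => (D n).Q2 (r n) (σ n) (P n)) (fun n v => (fl1 (r n) ((D n).a v.1.2),
    fl1 (r n) ((D n).e v.1.2), fl1 (r n) ((D n).w v.1.1), (D n).ln v.2, C n v.1))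
    (fun n v => (D n).z v.2) r

/-- Parallel lines through a cell have the same slope. -/
def Kill : Prop := All fun P D r σ m κ => ∃ L, Sub r L ∧ Whp (fun n => (D n).Q1 (r n) (P n))
  fun n v => |(D n).e v.1 - (D n).e v.2| ≤ L n / 2 ^ (σ n + (m n - κ n))

/-- The cell and the direction determine the slope. -/
def Fin1 : Prop := All fun P D r σ m κ => Sm r fun n =>
  ch (P n) (fun ω => fl1 (σ n + (m n - κ n)) ((D n).e ω)) fun ω => ((D n).S ω, fl1 (r n) ((D n).w ω))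

/-! ### From a tangent class -/

/-- The data of a system. -/
def mk {Ω : Type} (g : Geo 3 Ω) (D : Td Ω) (r σ : ℕ) (h k g₀ : Ω → ℝ) : Ev Ω :=
  ⟨g.T, D.Λ, g.θ, D.S σ, D.S r, fun ω => g.a ω 0, fun ω => g.e ω 0, fun ω => g.a ω 1,
    fun ω => g.e ω 1, fun ω => g.a ω 2, fun ω => g.e ω 2, g.z, fun ω => (D.U r ω).2.2 0,
    fun ω => (D.H σ ω).2.2 1, h, k, g₀⟩

/-- The cells at one sample. -/
structure Gv {Ω : Type} (g : Geo 3 Ω) (D : Td Ω) (r σ m : ℕ) (L : ℝ) (ω : Ω) : Prop where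
  one : 1 ≤ L
  box : (∀ i, |g.a ω i| ≤ L ∧ |g.e ω i| ≤ L) ∧ 0 ≤ g.z ω ∧ g.z ω < 1
  u0 : (g.pl {0} 1).fit L (D.U σ ω) ω σ (2 * σ)
  u1 : (g.pl {0} 1).fit L (D.U r ω) ω r (2 * r)
  h0 : (g.pl {0, 1} 2).fit L (D.H σ ω) ω σ (2 * σ + m)
  b0 : ∀ i, |g.pt ω i - D.o σ ω i| ≤ L / 2 ^ σ
  b1 : ∀ i, |g.pt ω i - D.o r ω i| ≤ L / 2 ^ r
  tt : |(D.U σ ω).2.2 0 - (D.U r ω).2.2 0| ≤ L / 2 ^ σ

/-- Pairs of samples. -/
def EnD : Prop := ∃ (K : ℝ) (j : ℕ), 1 ≤ K ∧ ∀ {Ω : Type} (g : Geo 3 Ω) (D : Td Ω) (r σ m : ℕ)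
  (h k g₀ : Ω → ℝ) (L : ℝ) (ω ω' : Ω), m ≤ σ → σ + m ≤ r → Gv g D r σ m L ω → Gv g D r σ m L ω' →
  (D.o σ ω = D.o σ ω' → D.U σ ω = D.U σ ω' → D.H σ ω = D.H σ ω' →
    fl1 r (g.e ω 0) = fl1 r (g.e ω' 0) → fl1 r (g.z ω) = fl1 r (g.z ω') →
    (mk g D r σ h k g₀).Par σ m (K * L ^ j) ω ω') ∧
  (D.o r ω = D.o r ω' → D.U r ω = D.U r ω' → fl1 r (g.z ω) = fl1 r (g.z ω') →
    (mk g D r σ h k g₀).Fan σ m (K * L ^ j) ω ω')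

/-- The lines of a fan are separated. -/
def FanS : Prop := ∀ {Ω : ℕ → Type} (K : Mb Ω → Prop) (g : Gs 3 Ω) (M mm : ℕ → ℕ)
  (D : ∀ n, Td (Ω n)) (η γ : ℝ) (T : Finset (Fin 3)) (X : Mb Ω) (r σ : ℕ → ℕ),
  Tn K g M mm D η γ T → 0 ∈ T → K X → OM M r → OM M σ →
  ∃ L, Sub M L ∧ Whp (fun n => glue (X n).Q (X n).Q
    (fun v => ((mD X D n).S (r n) v, fl1 (σ n) ((X.G g n).e v 0)))
    fun v => ((mD X D n).S (r n) v, fl1 (σ n) ((X.G g n).e v 0))) fun n v =>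
      1 ≤ L n * 2 ^ σ n * |(X.G g n).e v.1 0 - (X.G g n).e v.2 0|

/-- The deep digits of the position are full. -/
def OffA : Prop := ∀ {Ω : ℕ → Type} (K : Mb Ω → Prop) (g : Gs 3 Ω) (M mm : ℕ → ℕ)
  (D : ∀ n, Td (Ω n)) (η γ : ℝ) (T : Finset (Fin 3)) (X : Mb Ω) (r σ : ℕ → ℕ),
  Tn K g M mm D η γ T → 0 ∈ T → K X → OM M r → (∀ n, σ n ≤ r n) →
  Le M (fun n => (r n - σ n : ℝ) * lg) fun n => ch (X n).Q (fun v => fl1 (r n) ((X.G g n).a v 0))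
    fun v => ((mD X D n).S (σ n) v, fl1 (r n) ((X.G g n).e v 0), fl1 (r n) ((X.G g n).z v))

/-- The cells are good with high probability. -/
def EnG : Prop := ∀ {Ω : ℕ → Type} (K : Mb Ω → Prop) (g : Gs 3 Ω) (M mm : ℕ → ℕ)
  (D : ∀ n, Td (Ω n)) (η d ε₀ : ℝ) (X : Mb Ω) (r σ m : ℕ → ℕ), T2 K g M mm D η 2 d ε₀ → 2 < d →
  K X → OM M r → (∀ n, σ n ≤ r n ∧ (m n : ℝ) ≤ (d - 2) * σ n) →
  ∃ L, Sub M L ∧ Whp X.P fun n v => Gv (X.G g n) (mD X D n) (r n) (σ n) (m n) (L n) v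

/-- The input: the last slope is affine in the position of `u`, and the slope of the hyperplanes
is affine in the height, with the same coefficient `h`, which is not small. -/
structure In {Ω : ℕ → Type} (P : ∀ n, FP (Ω n)) (g : Gs 3 Ω) (M : ℕ → ℕ) (D : ∀ n, Td (Ω n))
    (d : ℝ) (r σ m κ : ℕ → ℕ) (h k g₀ : ∀ n, Ω n → ℝ) : Prop where
  om : OM M r
  frac : ∃ c : ℝ, 0 < c ∧ ∀ᶠ n in UF, c * M n ≤ m n
  lev : ∀ n, m n ≤ σ n ∧ σ n + m n ≤ r n ∧ κ n ≤ m n ∧ (m n : ℝ) ≤ (d - 2) * σ n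
  side : Sm M fun n => ch (P n) (fun ω => (h n ω, k n ω, g₀ n ω))
    ((mk (g n) (D n) (r n) (σ n) (h n) (k n) (g₀ n)).th (r n) (σ n))
  rel : ∃ L, Sub M L ∧ Whp P fun n ω => |h n ω| ≤ L n ∧ 1 ≤ L n * 2 ^ κ n * |h n ω| ∧
    |(g n).e ω 2 - k n ω - h n ω * (g n).a ω 1| ≤ L n / 2 ^ (σ n + m n) ∧
    |((D n).H (σ n) ω).2.2 1 - g₀ n ω - (g n).z ω * h n ω| ≤ L n / 2 ^ m n

/-- The theorem. -/
def Engel : Prop := ∀ {Ω : ℕ → Type} (K : Mb Ω → Prop) (g : Gs 3 Ω) (M mm : ℕ → ℕ)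
  (D : ∀ n, Td (Ω n)) (η d ε₀ : ℝ) (X : Mb Ω) (r σ m κ : ℕ → ℕ) (h k g₀ : ∀ n, (X n).W → ℝ),
  T2 K g M mm D η 2 d ε₀ → 2 < d → NilK K g M 1 2 → K X →
  In X.P (X.G g) M (mD X D) d r σ m κ h k g₀ → ∃ Y, K Y ∧ Sm M fun n =>
    ch (Y n).Q (fun v => fl1 (σ n + (m n - κ n)) ((Y.G g n).e v 1)) fun v =>
      ((mD Y D n).S (σ n) v, fl1 (r n) ((Y.G g n).e v 0))

/-! ### Rows -/

def OfAff : Prop := SepA → FuX → Aff
def OfKill : Prop := TD → LinD → FuX → Aff → FuP → Kill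
def OfFin1 : Prop := Kill → Fin1
def OfEngel : Prop := EnD → FanS → OffA → EnG → Fin1 → Engel

end Pool.Agent.MP_5168f5_an.R4.Eng
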