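import Pool.Agent.MP_5168f5_an.R4.SpecO

/-! The best hyperplane is a graph over the coordinate with the thicker plane. -/

namespace Pool.Agent.MP_5168f5_an.R4

open H19 H17S H17F Filter MeasureTheory

/-- If `k` has the smaller plane profile, then `!k` has the larger hyperplane profile. -/
def Par.HH (p : Par) : Prop := ∀ k, p.v (iU k) ≤ p.v (iU (!k)) → p.v (iH k) ≤ p.v (iH (!k))

def OHH : Prop := ∀ {Ω : ℕ → Type} (K : Mb Ω → Prop) (g : Gs 3 Ω) (M : ℕ → ℕ) (η ε₀ c : ℝ)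
  (F : ∀ n, Fam (g n).sh5), Go K g M η F → 0 < c → c < 1 →
  (∀ i, ContinuousAt (pr M F i) c) → (parAt M F η ε₀ c).HH

/-- No member is tangent. -/
def NoTan2 : Prop := ∀ {Ω : ℕ → Type} (g : Gs 3 Ω) (F : ∀ n, Fam (g n).sh5) (M m : ℕ → ℕ)
  (p : Par) (j r : ℕ → ℕ) (X : Mb Ω), p.HH → Tan0 g F M m p j r X → False

def OfOHH : Prop := PR → OHH
def OfSatF2 : Prop :=
  PR → OMono → OBase → OReg → ONum → OOld → ORef1 → ORef2 → OHH → NoTan2 → SatF

end Pool.Agent.MP_5168f5_an.R4
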