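import Pool.Agent.MP_5168f5_an.R4.NCp3T
import Pool.Agent.MP_5168f5_an.R4.SpecN

/-! Products with `f` of weight one: exchange of the last two coordinates. -/

namespace Pool.Agent.MP_5168f5_an.R4.P0

open H19 H17S H17F Filter Web Tan

/-- Exchange the last two coordinates of a vector. -/
def sv (v : V 3) : V 3 := ![v 0, v 2, v 1]

/-- The same for the data of a plane. -/
def sp (d : ℝ × ℝ × V 3) : ℝ × ℝ × V 3 := (d.1, d.2.1, sv d.2.2)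

/-- The same for a system. -/
abbrev sg {Ω : Type} (g : Geo 3 Ω) : Geo 3 Ω :=
  ⟨g.T, g.Y, fun ω => sv (g.a ω), fun ω => sv (g.e ω), g.z, g.θ, g.y⟩

/-- The same for a sequence of systems. -/
abbrev sG {Ω : ℕ → Type} (g : Gs 3 Ω) : Gs 3 Ω := fun n => sg (g n)

/-- The same for the labels. -/
abbrev sD {Ω : ℕ → Type} (D : ∀ n, Td (Ω n)) : ∀ n, Td (Ω n) := fun n =>
  ⟨(D n).Λ, (D n).S, fun j ω => sv ((D n).o j ω), fun j ω => sp ((D n).H j ω),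
    fun j ω => sp ((D n).U j ω)⟩

theorem sv0 (v : V 3) : sv v 0 = v 0 := rfl
theorem sv1 (v : V 3) : sv v 1 = v 2 := rfl
theorem sv2 (v : V 3) : sv v 2 = v 1 := rfl

theorem sv_sv (v : V 3) : sv (sv v) = v := by funext i; fin_cases i <;> rfl

theorem sg_lt {Ω : Type} (g : Geo 3 Ω) (t : ℝ) (ω : Ω) : (sg g).lt t ω = sv (g.lt t ω) := by
  funext i; fin_cases i <;> rfl

theorem sg_pt {Ω : Type} (g : Geo 3 Ω) (ω : Ω) : (sg g).pt ω = sv (g.pt ω) := sg_lt g _ ω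

/-- The exchange keeps labels, classes and cells. -/
structure SwK : Prop where
  lab : ∀ {Ω Λ : ℕ → Type} (P : ∀ n, FP (Ω n)) (g : Gs 3 Ω) (m j : ℕ → ℕ)
    (lam : ∀ n, Ω n → Λ n), Lab P (sG g) m j lam ↔ Lab P g m j lam
  cls : ∀ {Ω : ℕ → Type} (K : Mb Ω → Prop) (g : Gs 3 Ω) (M : ℕ → ℕ) (η : ℝ),
    Cls0 K g M 0 η → Cls0 K (sG g) M 0 η
  c21 : ∀ {Ω : ℕ → Type} (P : ∀ n, FP (Ω n)) (g : Gs 3 Ω) (M : ℕ → ℕ)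
    (d : ∀ n, ℕ → Ω n → ℝ × ℝ × V 3) (wt : ℝ), Cell P g M {0} 2 d wt →
    Cell P (sG g) M {0} 1 (fun n j ω => sp (d n j ω)) wt
  c12 : ∀ {Ω : ℕ → Type} (P : ∀ n, FP (Ω n)) (g : Gs 3 Ω) (M : ℕ → ℕ)
    (d : ∀ n, ℕ → Ω n → ℝ × ℝ × V 3) (wt : ℝ), Cell P g M {0} 1 d wt →
    Cell P (sG g) M {0} 2 (fun n j ω => sp (d n j ω)) wt

/-- The common facts after the exchange. -/
def SwCom : Prop := ∀ {Ω : ℕ → Type} (P : ∀ n, FP (Ω n)) (g : Gs 3 Ω) (M mm : ℕ → ℕ)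
  (D : ∀ n, Td (Ω n)) (η γ ε₀ : ℝ), 1 < γ → Com P g M mm D η γ (wT γ 1) →
  Fl2 P g M mm D γ 1 ε₀ → Com P (sG g) M mm (sD D) η 1 {0, 1}

/-- The deficiency passes from `f` to `u`. -/
def SwNG : Prop := ∀ {Ω : ℕ → Type} (P : ∀ n, FP (Ω n)) (g : Gs 3 Ω) (M mm : ℕ → ℕ)
  (D : ∀ n, Td (Ω n)) (η γ ε₀ : ℝ) (T : Finset (Fin 3)), Big M →
  (∃ L, Sub M L ∧ ∀ᶠ n in UF, (g n).Bx (P n) (L n)) → 1 ≤ γ → 0 ≤ ε₀ →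
  Com P g M mm D η γ T → Fl2 P g M mm D γ 1 ε₀ →
  ∀ q q' r : ℕ → ℕ, OM M r → (∀ᶠ n in UF, q n ≤ q' n ∧ q' n ≤ r n) →
    Le M (fun n => ch (P n) (fun ω => fl1 (q' n) ((g n).pt ω 1)) fun ω =>
      (fl1 (q n) ((g n).pt ω 1), fl1 (r n) ((g n).pt ω 0), fl1 (r n) ((g n).pt ω 2), (g n).zt ω))
      fun n => (1 - ε₀ / γ) * (q' n - q n) * lg

/-- Three lines through almost the same point. -/
def Alg3 : Prop := ∃ (C : ℝ) (m : ℕ), 1 ≤ C ∧ ∀ (A : Qd) (Y : Fin 3 → V 5) (e : Fin 3 → V 3)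
  (h₀ h₁ L s J : ℝ), 1 ≤ L → 0 ≤ s → 0 ≤ J → (∀ i k, i = 4 ∨ k = 4 → A i k = 0) →
  (∀ i l, |e i l| ≤ L) →
  1 ≤ L * |det3 ![1, e 0 0, e 0 1] ![1, e 1 0, e 1 1] ![1, e 2 0, e 2 1]| →
  (∀ i l, i ≠ l → 1 ≤ L * |e i 0 - e l 0|) →
  (∀ i, |pf A (Y i) (vec 1 (e i)) - h₀ - h₁ * e i 0| ≤ L * s) →
  (∀ i, ∀ l : Fin 4, |pf A (Y i) (bv l.succ) - pf A (Y 0) (bv l.succ)| ≤ s) →
  (∀ i, |qf A (vec 1 (e i))| ≤ L * J * s) →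
  (∀ i, |pf A (vec 1 (e i)) (bv 3)| ≤ L * J * |pf A (Y i) (bv 3)|) →
  |pf A (Y 0) (bv 3)| ≤ C * L ^ m * s ∧
    ∀ i l : Fin 4, |pf A (bv i.succ) (bv l.succ)| ≤ C * L ^ m * J * s

/-- Deterministic facts on one line. -/
structure KL : Prop where
  mkv : ∀ {Ω : Type} (g : Geo 3 Ω) (A : Qd) (ω : Ω) (j : ℕ) (δ : ℝ),
    Cst j (g.z ω) (fun t => g.lt t ω 2 - ql g A ω t) δ →
    |g.e ω 2 - pf A (g.hp ω) (vec 1 (g.e ω))| ≤ 50 * 2 ^ j * δ ∧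
      |qf A (vec 1 (g.e ω))| ≤ 50 * 4 ^ j * δ
  lip : ∀ (A : Qd) (B ε t t' : ℝ) (p p' : V 3) (l : Fin 5), (∀ i k, |A i k| ≤ B) →
    |t - t'| ≤ ε → (∀ i, |p i - p' i| ≤ ε) →
    |pf A (hom t p) (bv l) - pf A (hom t' p') (bv l)| ≤ 8 * B * ε
  bd : ∀ (A : Qd) (B ρ t : ℝ) (p : V 3) (l : Fin 5), (∀ i k, |A i k| ≤ B) → 1 ≤ ρ → |t| ≤ ρ →
    (∀ i, |p i| ≤ ρ) → |pf A (hom t p) (bv l)| ≤ 10 * B * ρ
  fin : ∀ {Ω : Type} (g : Geo 3 Ω) (A : Qd) (ω : Ω) (o : V 3) (j : ℕ) (L s : ℝ), 1 ≤ L → 0 ≤ s →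
    (∀ i k, i = 4 ∨ k = 4 → A i k = 0) → (∀ i, |g.e ω i| ≤ L) →
    (∀ i, |g.pt ω i - o i| ≤ L / 2 ^ j) → |g.e ω 2 - pf A (g.hp ω) (vec 1 (g.e ω))| ≤ L * s →
    |pf A (g.hp ω) (bv 3)| ≤ L * s →
    (∀ i l : Fin 4, |pf A (bv i.succ) (bv l.succ)| ≤ L * 2 ^ j * s) →
    Cst j (g.z ω) (fun t => g.lt t ω 2 - pf A (hom (g.z0 j ω) o) (bv 1) * t -
      pf A (hom (g.z0 j ω) o) (bv 2) * g.lt t ω 0) (10 * L ^ 3 * s / 2 ^ j)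

/-- If the cells are products, quadrics gain nothing over planes. -/
def OptP : Prop := ∀ {Ω : ℕ → Type} (K : Mb Ω → Prop) (g : Gs 3 Ω) (M mm : ℕ → ℕ)
  (D : ∀ n, Td (Ω n)) (η γ : ℝ) (T : Finset (Fin 3)) (X : Mb Ω), Tn K g M mm D η 1 T → 1 < γ →
  (∀ X, K X → Cell X.P (X.G g) M {0} 2 (fun n => (mD X D n).H) γ) →
  (∀ X, K X → NoGain X.P (X.G g) M mm γ
    (fun _ _ B _ (d : ℝ × ℝ) _ => |d.1| ≤ B ∧ |d.2| ≤ B) fun n d ω t =>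
      (X.G g n).lt t ω 2 - d.1 * t - d.2 * (X.G g n).lt t ω 0) → K X →
  NoGain X.P (X.G g) M mm γ
    (fun _ _ B _ (A : Qd) _ => ∀ i k, |A i k| ≤ B ∧ (i = 4 ∨ k = 4 → A i k = 0))
    fun n A ω t => (X.G g n).lt t ω 2 - ql (X.G g n) A ω t

def OfSwCom : Prop := SwK → SwCom
def OfOptP : Prop := Alg3 → KL → OptP
def OfCP0 : Prop := SwK → SwCom → SwNG → OptP → CAF → CP0

end Pool.Agent.MP_5168f5_an.R4.P0
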