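import Pool.Agent.MP_5168f5_an.R4.SpecTAN

/-! Towers of frames: independence of the types, and the dichotomy for slopes. -/

namespace Pool.Agent.MP_5168f5_an.R4.Zoom

open H19 H17S H17F Filter Tan

/-- Frames and their data, indexed by `I`. -/
structure Tw (Ω : Type) : Type 1 where
  I : Type
  g : I → Geo 3 Ω
  D : I → Td Ω

/-- The frames along a sequence of indices. -/
abbrev gs {Ω : ℕ → Type} (W : ∀ n, Tw (Ω n)) (σ : ∀ n, (W n).I) : Gs 3 Ω := fun n => (W n).g (σ n)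

/-- The data along a sequence of indices. -/
abbrev ds {Ω : ℕ → Type} (W : ∀ n, Tw (Ω n)) (σ : ∀ n, (W n).I) : ∀ n, Td (Ω n) := fun n =>
  (W n).D (σ n)

section One

variable {Ω : ℕ → Type} (P : ∀ n, FP (Ω n)) (g g' : Gs 3 Ω) (D D' : ∀ n, Td (Ω n)) (M a : ℕ → ℕ)

/-- The types are independent of the cells. -/
def Typ (T : Finset (Fin 3)) : Prop := ∀ r : ℕ → ℕ, OM M r →
  Sm M fun n => mi (P n) (ty (g n) T (r n)) ((D n).S (r n)) (g n).θ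

/-- The cells lie near graphs of coordinate `i` over the height and `x`. -/
def Cel (i : Fin 3) (wt : ℝ) : Prop := ∃ d : ∀ n, ℕ → Ω n → ℝ × ℝ × V 3,
  (∀ᶠ n in UF, ∀ j, Fn (P n) (d n j) ((D n).S j)) ∧ Cell P g M {0} i d wt

/-- The frame `g'` is the frame of the cells of level `a` of the frame `g`. -/
structure Chd (J : Finset (Fin 3)) (wt : Fin 3 → ℝ) : Prop where
  lab : ∀ᶠ n in UF, Fn (P n) (g' n).θ ((D n).S (a n)) ∧ Fn (P n) ((D n).S (a n)) (g' n).θ ∧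
    ∀ b, Fn (P n) ((D' n).S b) ((D n).S (a n + b)) ∧ Fn (P n) ((D n).S (a n + b)) ((D' n).S b)
  base : ∀ᶠ n in UF, ∃ c : Ω n → ℝ × ℝ × ℝ, Fn (P n) c ((D n).S (a n)) ∧ ∀ ω ∈ (P n).S,
    (g' n).e ω 0 = (g n).e ω 0 ∧ |(c ω).2.1| ≤ 1 ∧ |(c ω).2.2| ≤ 1 ∧
      (g n).a ω 0 = (c ω).1 + (c ω).2.1 * (g' n).a ω 0 + (c ω).2.2 * (g n).e ω 0
  sl : ∀ i ∈ J, ∃ (L : ℕ → ℝ) (t : ℕ → ℕ), Sub M L ∧
    Le M (fun n => t n) (fun n => (wt i - 1) * a n) ∧ ∀ᶠ n in UF, ∃ c : Ω n → ℝ × ℝ × ℝ,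
      Fn (P n) c ((D n).S (a n)) ∧ ∀ ω ∈ (P n).S, |(c ω).1| ≤ L n * 2 ^ t n ∧ |(c ω).2.2| ≤ L n ∧
        (g' n).e ω i = (c ω).1 * ((g n).e ω i - (c ω).2.1 - (c ω).2.2 * (g n).e ω 0)

/-- Entropies of the variables of one frame given those of the other. -/
structure ChE (J : Finset (Fin 3)) (wt : Fin 3 → ℝ) : Prop where
  sl : ∀ i ∈ J, ∀ l s : ℕ → ℕ, Le M (fun n => (wt i - 1) * a n + l n) (fun n => s n) →
    Sm M fun n => ch (P n) (fun ω => fl1 (l n) ((g' n).e ω i)) fun ω =>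
      (fl1 (s n) ((g n).e ω i), bl (g n) (s n) ω, (D n).S (a n) ω)
  bl : ∀ s : ℕ → ℕ, Sm M fun n =>
    ch (P n) (bl (g n) (s n)) fun ω => (bl (g' n) (s n) ω, (D n).S (a n) ω)
  ty : ∀ T : Finset (Fin 3), 0 ∈ T → (∀ i ∈ T, i ≠ 0 → i ∈ J ∧ wt i = 1) → ∀ s : ℕ → ℕ,
    Sm M fun n => ch (P n) (ty (g' n) T (s n)) fun ω => (ty (g n) T (s n) ω, (D n).S (a n) ω)

end One

section Tower

variable {Ω : ℕ → Type} (W : ∀ n, Tw (Ω n)) (B : (∀ n, (W n).I) → (ℕ → ℕ) → Mb Ω → Prop)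

/-- A set of triples (frame, unit, member) that is closed under limits, change of the unit and
passage to the cells. -/
structure Cz (mm : ℕ → ℕ) (η γ : ℝ) (T J : Finset (Fin 3)) (wt : Fin 3 → ℝ) : Prop where
  cf : CF fun x : ∀ n, Ext (Ω n) × (W n).I × ℕ =>
    B (fun n => (x n).2.1) (fun n => (x n).2.2) fun n => (x n).1
  tn : ∀ σ r X, B σ r X → Tn (B σ r) (gs W σ) r mm (ds W σ) η γ T
  cel : ∀ σ r X, B σ r X → ∀ i ∈ J, Cel X.P (X.G (gs W σ)) (mD X (ds W σ)) r i (wt i)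
  unit : ∀ σ r r' X, B σ r X → OM r r' → OM r' r → B σ r' X
  child : ∀ σ r a X, B σ r X → OM r a → ∃ (σ' : ∀ n, (W n).I) (E : ∀ n, (X n).W → Prop),
    Whp X.P E ∧ B σ' r (X.cond E) ∧ Chd (X.cond E).P (X.G (gs W σ)) (X.G (gs W σ'))
      (mD X (ds W σ)) (mD X (ds W σ')) r a J wt

/-- The triples with independent types. -/
def BT (T : Finset (Fin 3)) (σ : ∀ n, (W n).I) (r : ℕ → ℕ) (X : Mb Ω) : Prop :=
  B σ r X ∧ Typ X.P (X.G (gs W σ)) (mD X (ds W σ)) r T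

/-- The triples with determined slope. -/
def BN (i : Fin 3) (w : ℝ) (σ : ∀ n, (W n).I) (r : ℕ → ℕ) (X : Mb Ω) : Prop :=
  B σ r X ∧ Nil X.P (X.G (gs W σ)) r i w

end Tower

/-! ### Rows -/

def ZCh : Prop := ∀ {Ω : ℕ → Type} (P : ∀ n, FP (Ω n)) (g g' : Gs 3 Ω) (D D' : ∀ n, Td (Ω n))
  (M a : ℕ → ℕ) (J : Finset (Fin 3)) (wt : Fin 3 → ℝ), Big M → Chd P g g' D D' M a J wt →
  ChE P g g' D M a J wt

/-- Deep digits of the base line are independent of the cell. -/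
def ZOff : Prop := ∀ {Ω : ℕ → Type} (K : Mb Ω → Prop) (g : Gs 3 Ω) (M mm : ℕ → ℕ)
  (D : ∀ n, Td (Ω n)) (η γ : ℝ) (T : Finset (Fin 3)) (X : Mb Ω) (b r : ℕ → ℕ),
  Tn K g M mm D η γ T → 0 ∈ T → K X → OM M r → (∀ᶠ n in UF, b n ≤ r n) →
  Sm M fun n => mi (X n).Q ((mD X D n).S (b n)) (bl (X.G g n) (r n)) fun v =>
    (bl (X.G g n) (b n) v, (X.G g n).θ v)

/-- The slope is determined by the cell and the base line. -/
def ZSl : Prop := ∀ {Ω : ℕ → Type} (K : Mb Ω → Prop) (g : Gs 3 Ω) (M mm : ℕ → ℕ)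
  (D : ∀ n, Td (Ω n)) (η γ w : ℝ) (T : Finset (Fin 3)) (X : Mb Ω) (i : Fin 3) (b q s : ℕ → ℕ),
  Tn K g M mm D η γ T → K X → 1 ≤ w → Cel X.P (X.G g) (mD X D) M i w → OM M b → OM M q →
  Le M (fun n => q n) (fun n => (w - 1) * b n) → (∀ᶠ n in UF, q n ≤ s n) →
  Sm M fun n => ch (X n).Q (fun v => fl1 (q n) ((X.G g n).e v i)) fun v =>
    (bl (X.G g n) (s n) v, (mD X D n).S (b n) v)

/-- Deep digits of the base line do not help to determine the slope. -/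
def ZRem : Prop := ∀ {Ω : ℕ → Type} (K : Mb Ω → Prop) (g : Gs 3 Ω) (M mm : ℕ → ℕ)
  (D : ∀ n, Td (Ω n)) (η γ w : ℝ) (T : Finset (Fin 3)) (X : Mb Ω) (i : Fin 3) (q b r : ℕ → ℕ),
  Tn K g M mm D η γ T → 0 ∈ T → K X → 1 ≤ w → Cel X.P (X.G g) (mD X D) M i w → OM M b →
  OM M r → (∀ᶠ n in UF, q n ≤ b n ∧ (q n : ℝ) ≤ (w - 1) * b n) →
  Le M (fun n => ch (X n).Q (fun v => fl1 (q n) ((X.G g n).e v i)) fun v =>
      (bl (X.G g n) (b n) v, (X.G g n).θ v)) fun n =>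
    ch (X n).Q (fun v => fl1 (q n) ((X.G g n).e v i)) fun v =>
      (bl (X.G g n) (r n) v, (X.G g n).θ v)

/-- Independent types exist. -/
def ZTyp1 : Prop := ∀ {Ω : ℕ → Type} (W : ∀ n, Tw (Ω n))
  (B : (∀ n, (W n).I) → (ℕ → ℕ) → Mb Ω → Prop) (mm : ℕ → ℕ) (η γ : ℝ) (T₀ T J : Finset (Fin 3))
  (wt : Fin 3 → ℝ), Cz W B mm η γ T₀ J wt → 0 ∈ T → (∀ i ∈ T, i ≠ 0 → i ∈ J ∧ wt i = 1) →
  (∃ σ r X, B σ r X) → ∃ σ r X, BT W B T σ r X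

/-- Independent types persist. -/
def ZTyp2 : Prop := ∀ {Ω : ℕ → Type} (W : ∀ n, Tw (Ω n))
  (B : (∀ n, (W n).I) → (ℕ → ℕ) → Mb Ω → Prop) (mm : ℕ → ℕ) (η γ : ℝ) (T₀ T J : Finset (Fin 3))
  (wt : Fin 3 → ℝ), Cz W B mm η γ T₀ J wt → 0 ∈ T → (∀ i ∈ T, i ≠ 0 → i ∈ J ∧ wt i = 1) →
  Cz W (BT W B T) mm η γ T J wt

/-- The dichotomy. -/
def ZDi : Prop := ∀ {Ω : ℕ → Type} (W : ∀ n, Tw (Ω n))
  (B : (∀ n, (W n).I) → (ℕ → ℕ) → Mb Ω → Prop) (mm : ℕ → ℕ) (η γ : ℝ) (T J : Finset (Fin 3))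
  (wt : Fin 3 → ℝ) (i : Fin 3) (σ : ∀ n, (W n).I) (r : ℕ → ℕ), Cz W B mm η γ T J wt → 0 ∈ T →
  i ∈ J → 1 < wt i → BrK (B σ r) (gs W σ) r (ds W σ) i (wt i) ∨
    ∃ σ' r' X, BN W B i (wt i) σ' r' X

/-- Determined slopes persist. -/
def ZNil : Prop := ∀ {Ω : ℕ → Type} (W : ∀ n, Tw (Ω n))
  (B : (∀ n, (W n).I) → (ℕ → ℕ) → Mb Ω → Prop) (mm : ℕ → ℕ) (η γ : ℝ) (T J : Finset (Fin 3))
  (wt : Fin 3 → ℝ) (i : Fin 3), Cz W B mm η γ T J wt → 0 ∈ T → i ∈ J → 1 < wt i →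
  Cz W (BN W B i (wt i)) mm η γ T J wt

/-- A subclass of a tangent class. -/
def ZSub : Prop := ∀ {Ω : ℕ → Type} (K K' : Mb Ω → Prop) (g : Gs 3 Ω) (M mm : ℕ → ℕ)
  (D : ∀ n, Td (Ω n)) (η γ : ℝ) (T T' : Finset (Fin 3)), Tn K g M mm D η γ T → Cl K' →
  (∃ X, K' X) → (∀ X, K' X → K X ∧ Typ X.P (X.G g) (mD X D) M T') → Tn K' g M mm D η γ T'

theorem zSub : ZSub := fun _ _ _ _ _ _ _ _ _ _ h c ne s =>
  { cl := c, ne := ne, sm := h.sm, one := h.one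
    low := ⟨c.toCl0, h.low.pos, fun X k => h.low.bs X (s X k).1, fun X k => h.low.br X (s X k).1⟩
    cls := fun C hC => ⟨c.toCl0, (h.cls C hC).pos, fun X k => (h.cls C hC).bs X (s X k).1,
      fun X k => (h.cls C hC).br X (s X k).1⟩
    com := fun X k => { h.com X (s X k).1 with typ := (s X k).2 } }

def OfZRem : Prop := ZOff → ZSl → ZRem
def OfZTyp1 : Prop := ZCh → ZTyp1
def OfZTyp2 : Prop := ZCh → ZTyp2
def OfZDi : Prop := ZCh → ZSl → ZRem → ZDi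
def OfZNil : Prop := ZCh → ZRem → ZNil

end Pool.Agent.MP_5168f5_an.R4.Zoom
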