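import Pool.Agent.MP_5168f5_an.R4.SpecTW
import Pool.Agent.MP_5168f5_an.R4.SpecZ
import Pool.Agent.MP_5168f5_an.R4.SpecN
import Pool.Agent.MP_5168f5_an.R4.SpecO2

/-! From the original coordinates to the frames of the cells. -/

namespace Pool.Agent.MP_5168f5_an.R4.T8

open H19 H17S H17F Filter Matrix Tan

section Defs

variable {Ω : Type} {g : Geo 3 Ω} (F : Fam g.sh5)

/-- The planes of the family. -/
def dP (b k : Bool) (j : ℕ) (ω : Ω) : Pl := F.d (some (b, k)) j ω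

/-- The quadrics of the family. -/
def dQ (j : ℕ) (ω : Ω) : Qd := F.d none j ω

/-- The labels with the context and the digits of the height and of `x`. -/
noncomputable def enl (M : ℕ) : Fam g.sh5 :=
  ⟨F.Lb × g.T × ℤ × ℤ, fun j ω => (F.S j ω, g.θ ω, fl1 j (g.z ω), fl1 (min j M) (g.pt ω 0)),
    F.d, F.τ⟩

/-- The labels know the context and the digits. -/
def Dg (M : ℕ) : Prop := ∀ j ω ω', F.S j ω = F.S j ω' → g.θ ω = g.θ ω' ∧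
  fl1 j (g.z ω) = fl1 j (g.z ω') ∧ fl1 (min j M) (g.pt ω 0) = fl1 (min j M) (g.pt ω' 0)

theorem dg_enl (M : ℕ) : Dg (enl F M) M := fun _ _ _ h => by
  simp only [enl, Prod.mk.injEq] at h
  exact h.2

/-- The slope of the hyperplane in coordinate `co k`. -/
def gO (k : Bool) (j : ℕ) (ω : Ω) : ℝ := (dP F true (!k) j ω).2.2 (co k)

/-- The cells in the frame of level `j`. -/
noncomputable def frD (j : ℕ) (k : Bool) (d : Fd Ω) : Td Ω :=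
  ⟨F.Lb, fun a => F.S (j + a), fun _ _ => 0,
    fun a ω => tr g j k d d.Nu (d.pu ω) (dP F false k (j + a) ω) ω,
    fun a ω => tr g j k d d.Nf (d.pf ω) (dP F true (!k) (j + a) ω) ω⟩

/-- The quadrics in the frame of level `j`; `j₀` is an older level. -/
noncomputable def frC (j j₀ : ℕ) (k : Bool) (d : Fd Ω) : Tc Ω :=
  ⟨fun a ω => pq g j k d (dQ F (j + a) ω) ω, fun ω => pq g j k d (dQ F j₀ ω) ω, F.τ iQ j - d.Nf⟩

/-- Indices of frames: the level, a loss of thickness and a slope. -/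
abbrev IxT (Ω : Type) : Type := ℕ × ℕ × (Ω → ℝ)

/-- The frame data of an index. -/
noncomputable def cfr (k : Bool) (σ : IxT Ω) : Fd Ω :=
  ⟨F.τ (iU k) σ.1, F.τ (iH (!k)) σ.1 - σ.2.1, dP F false k σ.1,
    fun ω => prd (co k) (σ.2.2 ω) (dP F true (!k) σ.1 ω) (dP F false k σ.1 ω)⟩

/-- The index of the cells of level `a`. -/
def kid (k pr : Bool) (σ : IxT Ω) (a s : ℕ) : IxT Ω :=
  (σ.1 + a, s, bif pr then σ.2.2 else gO F k (σ.1 + a))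

end Defs

/-- The standing data; `u` is coordinate `co k`. -/
structure Sx (Ω : ℕ → Type) : Type 1 where
  g : Gs 3 Ω
  F : ∀ n, Fam (g n).sh5
  M : ℕ → ℕ
  m : ℕ → ℕ
  p : Par
  k : Bool

namespace Sx

variable {Ω : ℕ → Type} (x : Sx Ω)

/-- The weight of `u`. -/
abbrev γ : ℝ := x.p.sl (iU x.k)
/-- The weight of the hyperplanes. -/
abbrev w : ℝ := x.p.sl (iH (!x.k))
/-- The weight of the quadrics. -/
abbrev dq : ℝ := x.p.sl iQ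
/-- The value for `u`. -/
abbrev vU : ℝ := x.p.v (iU x.k)
/-- The value for the hyperplanes. -/
abbrev vH : ℝ := x.p.v (iH (!x.k))
/-- The value for the quadrics. -/
abbrev vQ : ℝ := x.p.v iQ
/-- The system with the finest point. -/
noncomputable abbrev gf : Gs 3 Ω := x.g.fin x.M

/-- Tangent members. -/
abbrev Tg (j r : ℕ → ℕ) (X : Mb Ω) : Prop := Tan0 x.g x.F x.M x.m x.p j r X

/-- The standing conditions. -/
structure OK : Prop where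
  dg : ∀ n, Dg (x.F n) (x.M n)
  ou : x.vU ≤ x.p.v (iU (!x.k))
  oh : x.p.v (iH x.k) ≤ x.vH

/-- The system in the frame. -/
noncomputable abbrev fg (j : ℕ → ℕ) (d : ∀ n, Fd (Ω n)) : Gs 3 Ω := fun n =>
  Tan.fr (x.g n) (x.M n) (j n) x.k (d n) ((x.F n).S (j n))

/-- The cells in the frame. -/
noncomputable abbrev fd (j : ℕ → ℕ) (d : ∀ n, Fd (Ω n)) : ∀ n, Td (Ω n) := fun n =>
  frD (x.F n) (j n) x.k (d n)

/-- The quadrics in the frame. -/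
noncomputable abbrev fc (j j₀ : ℕ → ℕ) (d : ∀ n, Fd (Ω n)) : ∀ n, Tc (Ω n) := fun n =>
  frC (x.F n) (j n) (j₀ n) x.k (d n)

/-- The finest digits of `x`. -/
noncomputable def Z1 (n : ℕ) (ω : Ω n) : ℤ := fl1 (x.M n) ((x.g n).pt ω 0)

/-- The finest digits of `x` and `u`. -/
noncomputable def Z2 (n : ℕ) (ω : Ω n) : ℤ × ℤ :=
  (fl1 (x.M n) ((x.g n).pt ω 0), fl1 (x.M n) ((x.g n).pt ω (co x.k)))

/-- The level `j₀` is much older, and its quadrics are much thinner than the hyperplanes. -/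
def Prt (j₀ j r : ℕ → ℕ) : Prop := ∀ C : ℕ, ∀ᶠ n in UF,
  j₀ n + C * r n ≤ j n ∧ (x.F n).τ (iH (!x.k)) (j n) + C * r n ≤ (x.F n).τ iQ (j₀ n)

/-- A frame on a tangent member. -/
structure Frm (j r : ℕ → ℕ) (d : ∀ n, Fd (Ω n)) (X : Mb Ω) : Prop where
  ok : x.OK
  tg : x.Tg j r X
  fn : ∀ᶠ n in UF, Fn (X n).Q (fun v => ((d n).pu ((X n).ρ v), (d n).pf ((X n).ρ v)))
    fun v => (x.F n).S (j n) ((X n).ρ v)
  fit : ∃ L, Sub x.m L ∧ ∀ᶠ n in UF, ∀ v ∈ (X n).Q.S,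
    ((x.g n).pl {0} (co x.k)).fit (L n) ((d n).pu ((X n).ρ v)) ((X n).ρ v) (j n) (d n).Nu ∧
    ((x.g n).pl {0, co x.k} (co (!x.k))).fit (L n) ((d n).pf ((X n).ρ v)) ((X n).ρ v) (j n) (d n).Nf
  nu : Eqv r (fun n => (d n).Nu) fun n => (x.F n).τ (iU x.k) (j n)
  nf : Eqv r (fun n => (d n).Nf) fun n => (x.F n).τ (iH (!x.k)) (j n)
  g0 : ∀ᶠ n in UF, ∀ v ∈ (X n).Q.S, (2 : ℝ) ^ (d n).Nf *
    |gO (x.F n) x.k (j n) ((X n).ρ v) - ((d n).pf ((X n).ρ v)).2.2 (co x.k)| ≤ 2 ^ (d n).Nu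

/-- The two relations between `s` and the last coordinate at depth `N`. -/
def UpDn (j r : ℕ → ℕ) (X : Mb Ω) (s : ∀ n, (X n).W → ℝ) (N : ℕ → ℕ) : Prop :=
  ∀ q : ℕ → ℕ, OM r q →
    (Sm r fun n => ch (X n).Q (fun v => fl1 (q n) (s n v)) fun v =>
      (fl1 (N n + q n) ((X.G x.g n).pt v (co (!x.k))), x.Z2 n ((X n).ρ v),
        (x.F n).S (j n) ((X n).ρ v), (X.G x.g n).z v)) ∧
    Sm r fun n => ch (X n).Q (fun v => fl1 (N n + q n) ((X.G x.g n).pt v (co (!x.k)))) fun v =>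
      (fl1 (q n) (s n v), fl1 (N n + q n) ((X.G x.g n).pt v 0),
        fl1 (N n + q n) ((X.G x.g n).pt v (co x.k)), (x.F n).S (j n) ((X n).ρ v), (X.G x.g n).z v)

/-- The levels of a sequence of indices. -/
abbrev lv (σ : ∀ n, IxT (Ω n)) : ℕ → ℕ := fun n => (σ n).1

/-- The frame data of a sequence of indices. -/
noncomputable abbrev cd (σ : ∀ n, IxT (Ω n)) : ∀ n, Fd (Ω n) := fun n => cfr (x.F n) x.k (σ n)

/-- The indices of the cells. -/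
abbrev kd (pr : Bool) (σ : ∀ n, IxT (Ω n)) (a s : ℕ → ℕ) : ∀ n, IxT (Ω n) := fun n =>
  kid (x.F n) x.k pr (σ n) (a n) (s n)

/-- The tower of frames. -/
noncomputable abbrev tw (pr : Bool) : ∀ n, Zoom.Tw (Ω n) := fun n =>
  ⟨IxT (Ω n), fun σ => Tan.fr (x.g n) (x.M n) σ.1 x.k (cfr (x.F n) x.k σ) ((x.F n).S σ.1),
    fun σ => finF (Tan.fr (x.g n) (x.M n) σ.1 x.k (cfr (x.F n) x.k σ) ((x.F n).S σ.1))
      (x.M n - σ.1) (frD (x.F n) σ.1 x.k (cfr (x.F n) x.k σ)) pr⟩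

/-- The slope of the index is close to the slope of the cell. -/
structure Can (σ : ∀ n, IxT (Ω n)) (r : ℕ → ℕ) (X : Mb Ω) : Prop where
  sm : Sm r fun n => ((σ n).2.1 : ℝ)
  fn : ∀ᶠ n in UF, Fn (X n).Q (fun v => (σ n).2.2 ((X n).ρ v))
    (fun v => (x.F n).S (σ n).1 ((X n).ρ v)) ∧ ∀ v ∈ (X n).Q.S,
      (2 : ℝ) ^ ((x.F n).τ (iH (!x.k)) (σ n).1 - (σ n).2.1) *
        |gO (x.F n) x.k (σ n).1 ((X n).ρ v) - (σ n).2.2 ((X n).ρ v)| ≤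
        2 ^ (x.F n).τ (iU x.k) (σ n).1
  bd : ∃ L, Sub x.m L ∧ ∀ᶠ n in UF, ∀ v ∈ (X n).Q.S, |(σ n).2.2 ((X n).ρ v)| ≤ L n

/-- A condition on the level and the unit that persists. -/
structure NmOK (Nm : (ℕ → ℕ) → (ℕ → ℕ) → Prop) : Prop where
  cf : CF fun y : ℕ → ℕ × ℕ => Nm (fun n => (y n).1) fun n => (y n).2
  shift : ∀ j r a X, x.Tg j r X → OM r a → Nm j r → Nm (fun n => j n + a n) r
  unit : ∀ j r r', OM r r' → OM r' r → Nm j r → Nm j r'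

/-- The triples of the tower. -/
def BB (Nm : (ℕ → ℕ) → (ℕ → ℕ) → Prop) (σ : ∀ n, IxT (Ω n)) (r : ℕ → ℕ) (X : Mb Ω) : Prop :=
  x.Tg (lv σ) r X ∧ x.Can σ r X ∧ Nm (lv σ) r

end Sx

/-- A statement on all frames. -/
def AllF (q : ∀ {Ω : ℕ → Type}, Sx Ω → (ℕ → ℕ) → (ℕ → ℕ) → (∀ n, Fd (Ω n)) → Mb Ω → Prop) :
    Prop := ∀ {Ω : ℕ → Type} (x : Sx Ω) (j r : ℕ → ℕ) (d : ∀ n, Fd (Ω n)) (X : Mb Ω),
  x.Frm j r d X → q x j r d X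

section One

variable {Ω : ℕ → Type} (P : ∀ n, FP (Ω n)) (g : Gs 3 Ω) (M mm : ℕ → ℕ)

/-- No gain for quadrics with bounded gradient. -/
def OA (d : ℝ) : Prop := NoGain P g M mm d (fun n L B j (A : Qd) ω =>
    (∀ i k, |A i k| ≤ B ∧ (i = 4 ∨ k = 4 → A i k = 0)) ∧
      ∀ i : Fin 4, |pf A (hom ((g n).z ω) ((g n).pt ω)) (bv i.succ)| ≤ L ∧
        ∀ k : Fin 4, |pf A (bv i.succ) (bv k.succ)| ≤ L * 2 ^ j)
    fun n A ω t => (g n).lt t ω 2 - ql (g n) A ω t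

/-- No gain for quadrics. -/
def OF (d : ℝ) : Prop := NoGain P g M mm d
    (fun _ _ B _ (A : Qd) _ => ∀ i k, |A i k| ≤ B ∧ (i = 4 ∨ k = 4 → A i k = 0))
    fun n A ω t => (g n).lt t ω 2 - ql (g n) A ω t

/-- No gain for hyperplanes in mode I. -/
def OI (d : ℝ) : Prop := NoGain P g M mm d (fun _ L B _ (c : V 4) _ => |c 0| ≤ B ∧ |c 1| ≤ B ∧
    |c 2| ≤ L ∧ |c 3| ≤ L ∧ (1 ≤ L * |c 2| ∨ 1 ≤ L * |c 3|)) fun n c ω t =>
    c 0 * t + c 1 * (g n).lt t ω 0 + c 2 * (g n).lt t ω 1 + c 3 * (g n).lt t ω 2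

/-- No gain for the fibre coordinate. -/
def OE (C : ∀ n, Tc (Ω n)) (d : ℝ) : Prop :=
  NoGain P g M mm d (fun _ _ B _ (A : Qd) _ => ∀ i k, |A i k| ≤ B) fun n A ω t =>
    (C n).f (g n) ω t - ql (g n) A ω t

/-- Fill for `u`. -/
def FU (γ : ℝ) : Prop := ∀ (Λ : ℕ → Type) (lam : ∀ n, Ω n → Λ n) (a : ℕ → ℕ), OM M a →
  Lab P g mm a lam → Fill P g M lam (fun n ω => (g n).pt ω 1) γ a

/-- Fill for the sheared last coordinate. -/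
def FF (d : ℝ) : Prop := ∀ (Λ : ℕ → Type) (lam : ∀ n, Ω n → Λ n) (G : ∀ n, Ω n → ℝ)
  (a k : ℕ → ℕ), OM M a → OM M k → Lab P g mm a lam →
  (∀ᶠ n in UF, Fn (P n) (G n) (lam n) ∧ ∀ ω ∈ (P n).S, |G n ω| ≤ 2 ^ k n) →
  Fill P g M lam (fun n ω => (g n).pt ω 2 - G n ω * (g n).pt ω 1) d a

/-- Fill in mode I. -/
def FI (d : ℝ) : Prop := ∀ (Λ : ℕ → Type) (lam : ∀ n, Ω n → Λ n) (μ ν : ∀ n, Ω n → ℝ)
  (a : ℕ → ℕ) (L : ℕ → ℝ), OM M a → Lab P g mm a lam → Sub M L →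
  (∀ᶠ n in UF, Fn (P n) (fun ω => (μ n ω, ν n ω)) (lam n) ∧ ∀ ω ∈ (P n).S,
    |μ n ω| ≤ L n ∧ |ν n ω| ≤ L n ∧ (1 ≤ L n * |μ n ω| ∨ 1 ≤ L n * |ν n ω|)) →
  Fill P g M lam (fun n ω => μ n ω * (g n).pt ω 1 + ν n ω * (g n).pt ω 2) d a

/-- The system facts in a frame. -/
structure FrS (η : ℝ) : Prop where
  sm : Sm M fun n => mm n
  low : Bs P g mm ∧ BR P g mm 0 η
  cls : ∀ C : ℕ, 0 < C → Bs P g (fun n => C * M n) ∧ BR P g (fun n => C * M n) 0 η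
  brw : ∀ α β : ℕ → ℕ, OM M β → (∀ᶠ n in UF, α n ≤ β n) →
    Le M (fun n => η * (β n - α n) * lg) fun n => ch (P n) (fun ω => fl1 (β n) ((g n).e ω 0))
      fun ω => (fl1 (α n) ((g n).e ω 0), (g n).y ω)
  fat : ∀ (i : Fin 3) (r : ℕ → ℕ), OM M r → Fat P g mm i r

/-- The label facts in a frame. -/
structure FrL (D : ∀ n, Td (Ω n)) (J : ℕ → ℕ) : Prop where
  hJ : ∀ a : ℕ → ℕ, OM M a → ∀ᶠ n in UF, a n ≤ J n
  nest : ∀ᶠ n in UF, Fn (P n) ((D n).S 0) (g n).θ ∧ (∀ j,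
    Fn (P n) ((D n).S j) ((D n).S (j + 1)) ∧
    Fn (P n) (fun ω => ((g n).θ ω, fl1 j ((g n).z ω), (D n).U j ω, (D n).H j ω)) ((D n).S j)) ∧
    ∀ j ≤ J n, Fn (P n) (fun ω => fl1 j ((g n).pt ω 0)) ((D n).S j)
  lab : ∀ j : ℕ → ℕ, OM M j → Lab P g mm j fun n => (D n).S (j n)

/-- The slopes of the hyperplanes converge. -/
def Cnv (D : ∀ n, Td (Ω n)) (γ d : ℝ) : Prop := ∀ a a' τ : ℕ → ℕ, OM M a' →
  (∀ᶠ n in UF, a n ≤ a' n ∧ (τ n : ℝ) ≤ (d - γ) * a n) →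
  ∃ L, Sub M L ∧ Whp P fun n ω =>
    |((D n).H (a n) ω).2.2 1 - ((D n).H (a' n) ω).2.2 1| ≤ L n / 2 ^ τ n

end One

/-! ### Classes and labels -/

def Enl : Prop := ∀ {Ω : ℕ → Type} (g : Gs 3 Ω) (F : ∀ n, Fam (g n).sh5) (M m : ℕ → ℕ) (p : Par)
  (j r : ℕ → ℕ) (X : Mb Ω), Tan0 g F M m p j r X → Tan0 g (fun n => enl (F n) (M n)) M m p j r X

def FCl : Prop := ∀ {Ω : ℕ → Type} (x : Sx Ω) (j r : ℕ → ℕ) (d : ∀ n, Fd (Ω n)),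
  Cl (x.Frm j r d)

def FSys : Prop := AllF fun x j r d X => FrS X.P (X.G (x.fg j d)) r x.m x.p.η

/-- Given the cell of level `j`, the data in the frame and the original data determine each other. -/
def FInv : Prop := AllF fun x j _ d X => ∀ᶠ n in UF,
  Fn (X n).Q (X.G (x.fg j d) n).core
    (fun v => ((X.G x.gf n).core v, (x.F n).S (j n) ((X n).ρ v))) ∧
  Fn (X n).Q (X.G x.gf n).core (X.G (x.fg j d) n).core ∧
  Fn (X n).Q (fun v => ((X.G x.g n).zt v, (x.F n).S (j n) ((X n).ρ v))) (X.G (x.fg j d) n).zt ∧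
  Fn (X n).Q (X.G (x.fg j d) n).zt (fun v => ((X.G x.g n).z v, (x.F n).S (j n) ((X n).ρ v))) ∧
  (∀ v ∈ (X n).Q.S, Sup x.k (d n) ((X n).ρ v)) ∧
  ∀ a, Fn (X n).Q ((X.G (x.fg j d) n).win a)
      (fun v => ((x.F n).S (j n) ((X n).ρ v), (X.G x.gf n).win (j n + a) v)) ∧
    Fn (X n).Q (fun v => ((x.F n).S (j n) ((X n).ρ v), (X.G x.gf n).win (j n + a) v))
      ((X.G (x.fg j d) n).win a)

def FLab : Prop := AllF fun x j r d X =>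
  FrL X.P (X.G (x.fg j d)) r x.m (mD X (x.fd j d)) fun n => x.M n - j n

/-- Labels in the frame are labels. -/
def Lft : Prop := AllF fun x j _ d X => ∀ (Λ : ℕ → Type) (lam : ∀ n, (X n).W → Λ n) (a : ℕ → ℕ),
  Lab X.P (X.G (x.fg j d)) x.m a lam → Lab X.P (X.G x.gf) x.m (fun n => j n + a n) fun n v =>
    ((x.F n).S (j n) ((X n).ρ v), lam n v)

def FCell : Prop := AllF fun x j r d X =>
  WCell X.P (X.G (x.fg j d)) r {0} 1 (fun n => (mD X (x.fd j d) n).U) x.γ ∧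
  WCell X.P (X.G (x.fg j d)) r {0, 1} 2 (fun n => (mD X (x.fd j d) n).H) x.w ∧
  WL X.P r fun n L v => |((mD X (x.fd j d) n).H 0 v).2.2 1| ≤ L

/-! ### Optimality -/

def FNL : Prop := ∀ {Ω : ℕ → Type} (x : Sx Ω) (j r a : ℕ → ℕ) (X : Mb Ω) (Λ : ℕ → Type)
  (lam : ∀ n, (X n).W → Λ n), x.Tg j r X → OM r a →
  Lab X.P (X.G x.gf) x.m (fun n => j n + a n) lam →
  NL X.P (X.G x.gf) x.m (fun n => j n + a n) lam 0

/-- Planes in projective form. -/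
def CorP : Prop := ∀ {Ω : ℕ → Type} (x : Sx Ω) (j r a τ : ℕ → ℕ) (X : Mb Ω) (Λ : ℕ → Type)
  (lam : ∀ n, (X n).W → Λ n) (e : ∀ n, (X n).W → Pl) (B : ℕ → ℝ), x.OK → x.Tg j r X → OM r a →
  Lab X.P (X.G x.gf) x.m (fun n => j n + a n) lam → Sub r B →
  (∀ᶠ n in UF, τ n ≤ x.M n ∧ Fn (X n).Q (e n) (lam n) ∧ ∀ v ∈ (X n).Q.S,
    ∃ c, (c = (e n v).2.1 ∨ ∃ i, c = (e n v).2.2 i) ∧ c ≠ 0 ∧
      |pv (e n v) ((X.G x.g n).z v) ((X.G x.g n).pt v)| ≤ B n * |c| / 2 ^ τ n) →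
  Le r (fun n => τ n) (fun n => (x.F n).τ (iH (!x.k)) (j n) + x.w * a n) ∧
    ((∀ᶠ n in UF, ∀ v ∈ (X n).Q.S, (e n v).2.2 (co (!x.k)) = 0) →
      Le r (fun n => τ n) fun n => (x.F n).τ (iU x.k) (j n) + x.γ * a n)

/-- Quadrics. -/
def CorQ : Prop := ∀ {Ω : ℕ → Type} (x : Sx Ω) (j r a τ h : ℕ → ℕ) (X : Mb Ω) (Λ : ℕ → Type)
  (lam : ∀ n, (X n).W → Λ n) (A : ∀ n, (X n).W → Qd) (B : ℕ → ℝ), x.Tg j r X → OM r a →
  Lab X.P (X.G x.gf) x.m (fun n => j n + a n) lam → Sub r B →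
  Le r (fun n => h n) (fun n => (x.F n).τ iQ (j n) + x.dq * a n) →
  (∀ᶠ n in UF, τ n ≤ x.M n ∧ Fn (X n).Q (A n) (lam n) ∧ ∀ v ∈ (X n).Q.S,
    1 ≤ B n * gy (A n v) ((X.G x.g n).hp v) ∧ gy (A n v) ((X.G x.g n).hp v) ≤ B n ∧
    |qf (A n v) ((X.G x.g n).hp v)| ≤ B n / 2 ^ τ n ∧
    ∀ i l : Fin 4, |pf (A n v) (bv i.succ) (bv l.succ)| ≤ B n * 2 ^ h n) →
  Le r (fun n => τ n) fun n => (x.F n).τ iQ (j n) + x.dq * a n

def OptU' : Prop := AllF fun x j r d X => OU X.P (X.G (x.fg j d)) r x.m x.γ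
def OptP : Prop := AllF fun x j r d X => OH X.P (X.G (x.fg j d)) r x.m x.w
def OptI : Prop := AllF fun x j r d X => x.vU = x.vQ → OI X.P (X.G (x.fg j d)) r x.m x.w
def OptA : Prop := AllF fun x j r d X => x.vH = x.vQ → OA X.P (X.G (x.fg j d)) r x.m x.w
def OptF : Prop := AllF fun x j r d X => x.vU < x.vH → x.vH = x.vQ →
  OF X.P (X.G (x.fg j d)) r x.m x.w
def OptQ : Prop := AllF fun x j r d X => x.vH < x.vQ → ∀ j₀ : ℕ → ℕ,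
  OE X.P (X.G (x.fg j d)) r x.m (mC X (x.fc j j₀ d)) x.dq

/-! ### Fill and rates -/

/-- Fill after an affine change. -/
def FbC : Prop := ∀ {Ω : ℕ → Type} (x : Sx Ω) (j r a N q q' : ℕ → ℕ) (X : Mb Ω) (Λ : ℕ → Type)
  (lam : ∀ n, (X n).W → Λ n) (G s : ∀ n, (X n).W → ℝ) (c : ∀ n, (X n).W → V 3) (L B : ℕ → ℝ)
  (b k : Bool), x.Tg j r X → OM r a → OM r q' →
  Lab X.P (X.G x.gf) x.m (fun n => j n + a n) lam → Sub x.m L → Sub r B →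
  (∀ᶠ n in UF, q n ≤ q' n ∧ N n + q' n ≤ x.M n ∧ Fn (X n).Q (G n) (lam n) ∧
    Fn (X n).Q (c n) (fun v => (lam n v, (X.G x.g n).zt v)) ∧ ∀ v ∈ (X n).Q.S,
      |G n v| ≤ L n ∧ (b = false → G n v = 0) ∧ 2 ^ N n ≤ B n * |c n v 0| ∧
      |c n v 0| ≤ B n * 2 ^ N n ∧ |c n v 1| ≤ B n * 2 ^ N n ∧
      s n v = c n v 0 * (X.G x.g n).sv k (G n) v + c n v 1 * (X.G x.g n).pt v 0 + c n v 2) →
  Le r (fun n => (x.F n).τ (some (b, k)) (j n) + x.p.sl (some (b, k)) * a n)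
    (fun n => N n + q n) →
  Le r (fun n => (q' n - q n : ℝ) * lg) fun n => ch (X n).Q (fun v => fl1 (q' n) (s n v)) fun v =>
    (fl1 (q n) (s n v), x.Z1 n ((X n).ρ v), lam n v, (X.G x.g n).zt v)

def FbU : Prop := AllF fun x j r d X => FU X.P (X.G (x.fg j d)) r x.m x.γ
def FbF : Prop := AllF fun x j r d X => x.vU < x.vH → FF X.P (X.G (x.fg j d)) r x.m x.w
def FbI : Prop := AllF fun x j r d X => x.vU = x.vQ → FI X.P (X.G (x.fg j d)) r x.m x.w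

def ZD : Prop := AllF fun x j r d X =>
  Deep X.P (X.G (x.fg j d)) r (mD X (x.fd j d)) (fun n v => x.Z2 n ((X n).ρ v)) x.γ

def NGD : Prop := AllF fun x j r d X => x.vU < x.vQ → ∀ (s : ∀ n, (X n).W → ℝ) (N : ℕ → ℕ)
  (c : ℝ), Eqv r (fun n => N n) (fun n => (x.F n).τ iQ (j n)) → x.UpDn j r X s N →
  DetS X.P (X.G (x.fg j d)) r (mD X (x.fd j d)) s c →
  NGd0 X.P (X.G (x.fg j d)) r (fun n v => x.Z2 n ((X n).ρ v)) s x.p.ε₀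

def NGF : Prop := AllF fun x j r d X =>
  x.UpDn j r X (fun n v => (X.G (x.fg j d) n).pt v 2) fun n => (d n).Nf

def NGC : Prop := AllF fun x j r d X => x.vH < x.vQ → ∀ (j₀ : ℕ → ℕ) (L : ℕ → ℝ), Sub r L →
  (∀ᶠ n in UF, ∀ v ∈ (X n).Q.S, Mn ((mC X (x.fc j j₀ d) n).A 0 v) (L n) (2 ^ r n)) →
  x.UpDn j r X (fun n v => (mC X (x.fc j j₀ d) n).f (X.G (x.fg j d) n) v ((X.G (x.fg j d) n).z v))
    fun n => (x.F n).τ iQ (j n)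

def NGI : Prop := AllF fun x j r d X => x.vU = x.vQ →
  NG2d X.P (X.G (x.fg j d)) r (mD X (x.fd j d)) (fun n v => x.Z1 n ((X n).ρ v)) x.p.ε₀

/-! ### The curved mode -/

def CuC : Prop := AllF fun x j r d X => x.vH < x.vQ → ∀ j₀ : ℕ → ℕ, x.Prt j₀ j r →
  OH X.P (X.G (x.fg j d)) r x.m x.w → OE X.P (X.G (x.fg j d)) r x.m (mC X (x.fc j j₀ d)) x.dq →
  CuW X.P (X.G (x.fg j d)) r x.m (mD X (x.fd j d)) (mC X (x.fc j j₀ d)) x.dq x.w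

/-- The older quadric, and the gradients. -/
def CuB : Prop := AllF fun x j r d X => ∀ j₀ : ℕ → ℕ, x.Prt j₀ j r →
  (∀ q : ℕ → ℕ, OM r q → ∀ᶠ n in UF, ∀ v ∈ (X n).Q.S, (∀ t : ℝ, 0 ≤ t → t < 1 →
      |ql (X.G (x.fg j d) n) ((mC X (x.fc j j₀ d) n).Ap v) v t| ≤ 1 / 2 ^ q n) ∧
    |pf ((mC X (x.fc j j₀ d) n).Ap v) (vec 1 ((X.G (x.fg j d) n).e v)) (bv 4)| ≤ 1 / 2 ^ q n) ∧
  ∃ L, Sub r L ∧ ∀ᶠ n in UF, ∀ v ∈ (X n).Q.S,
    Gd ((mC X (x.fc j j₀ d) n).Ap v) (hom ((X.G (x.fg j d) n).z v) ((X.G (x.fg j d) n).pt v))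
      (L n) ∧ ∀ a, Gd ((mC X (x.fc j j₀ d) n).A a v)
        (hom ((X.G (x.fg j d) n).z v) ((X.G (x.fg j d) n).pt v)) (L n)

/-- An older level exists and persists. -/
structure ParZ : Prop where
  ex : ∀ {Ω : ℕ → Type} (x : Sx Ω) (j r : ℕ → ℕ) (X : Mb Ω), x.Tg j r X → x.vH < x.vQ →
    ∃ j' r', x.Tg j' r' X ∧ x.Prt j j' r'
  nm : ∀ {Ω : ℕ → Type} (x : Sx Ω) (j₀ : ℕ → ℕ), x.NmOK (x.Prt j₀)

/-! ### The tower -/

def FrCan : Prop := ∀ {Ω : ℕ → Type} (x : Sx Ω) (σ : ∀ n, IxT (Ω n)) (r : ℕ → ℕ) (X : Mb Ω),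
  x.OK → x.Tg (Sx.lv σ) r X → x.Can σ r X → x.Frm (Sx.lv σ) r (x.cd σ) X

structure CanCl : Prop where
  cf : ∀ {Ω : ℕ → Type} (x : Sx Ω) (Nm : (ℕ → ℕ) → (ℕ → ℕ) → Prop), x.NmOK Nm →
    CF fun y : ∀ n, Ext (Ω n) × IxT (Ω n) × ℕ =>
      x.BB Nm (fun n => (y n).2.1) (fun n => (y n).2.2) fun n => (y n).1
  cl : ∀ {Ω : ℕ → Type} (x : Sx Ω) (Nm : (ℕ → ℕ) → (ℕ → ℕ) → Prop) (σ : ∀ n, IxT (Ω n))
    (r : ℕ → ℕ), Cl (x.BB Nm σ r)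
  unit : ∀ {Ω : ℕ → Type} (x : Sx Ω) (Nm : (ℕ → ℕ) → (ℕ → ℕ) → Prop) (σ : ∀ n, IxT (Ω n))
    (r r' : ℕ → ℕ) (X : Mb Ω), x.NmOK Nm → x.BB Nm σ r X → OM r r' → OM r' r → x.BB Nm σ r' X
  init : ∀ {Ω : ℕ → Type} (x : Sx Ω) (j r : ℕ → ℕ) (X : Mb Ω), x.Tg j r X →
    x.Can (fun n => (j n, 0, gO (x.F n) x.k (j n))) r X

/-- The frame of the cells is the rescaled cell. -/
def TwA : Prop := ∀ {Ω : ℕ → Type} (x : Sx Ω) (pr : Bool) (σ : ∀ n, IxT (Ω n)) (r a s : ℕ → ℕ)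
  (Y : Mb Ω), x.Frm (Sx.lv σ) r (x.cd σ) Y →
  x.Frm (Sx.lv (x.kd pr σ a s)) r (x.cd (x.kd pr σ a s)) Y → OM r a →
  Shf Y.P (Y.G (Zoom.gs (x.tw pr) σ)) (Y.G (Zoom.gs (x.tw pr) (x.kd pr σ a s)))
    (mD Y (Zoom.ds (x.tw pr) σ)) (mD Y (Zoom.ds (x.tw pr) (x.kd pr σ a s))) r a x.γ x.w

def ShC : Prop := ∀ {Ω : ℕ → Type} (P : ∀ n, FP (Ω n)) (g g' : Gs 3 Ω) (D D' : ∀ n, Td (Ω n))
  (M a : ℕ → ℕ) (γ d : ℝ) (J : Finset (Fin 3)) (L : ℕ → ℝ), Big M → 1 ≤ γ → 1 ≤ d → 0 ∉ J →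
  Sub M L → Shf P g g' D D' M a γ d →
  (∀ᶠ n in UF, Fn (P n) (fun ω => (fl1 (a n) ((g n).z ω), fl1 (a n) ((g n).pt ω 0),
      (D n).U (a n) ω, (D n).H (a n) ω)) ((D n).S (a n)) ∧ ∀ ω ∈ (P n).S,
    0 ≤ (g n).z ω ∧ (g n).z ω < 1 ∧ ((g n).pl {0} 1).fit (L n) ((D n).U (a n) ω) ω (a n) 0 ∧
      (2 ∈ J → ((g n).pl {0} 2).fit (L n) ((D n).H (a n) ω) ω (a n) 0)) →
  Zoom.Chd P g g' D D' M a J ![1, γ, d]

def Kid : Prop := ∀ {Ω : ℕ → Type} (x : Sx Ω) (Nm : (ℕ → ℕ) → (ℕ → ℕ) → Prop) (pr : Bool)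
  (σ : ∀ n, IxT (Ω n)) (r a : ℕ → ℕ) (X : Mb Ω) (E₁ : ∀ n, (X n).W → Prop), x.OK → x.NmOK Nm →
  x.BB Nm σ r X → OM r a → Whp X.P E₁ → (pr = true → x.w ≤ x.γ ∧
    GBd X.P r (fun n b v => ((mD X (x.fd (Sx.lv σ) (x.cd σ)) n).H b v).2.2 1) x.γ x.w) →
  ∃ (s : ℕ → ℕ) (E : ∀ n, (X n).W → Prop), Whp X.P E ∧ (∀ n v, E n v → E₁ n v) ∧
    x.BB Nm (x.kd pr σ a s) r (X.cond E)

/-- The final data form a tangent class. -/
def Fin1 : Prop := ∀ {Ω : ℕ → Type} (K : Mb Ω → Prop) (g : Gs 3 Ω) (M mm : ℕ → ℕ)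
  (D : ∀ n, Td (Ω n)) (J : ℕ → ℕ) (η γ w : ℝ) (pr : Bool), TW K g M mm D J η γ → 1 ≤ w →
  (pr = true → w ≤ γ) → (pr = false → γ ≤ w) →
  (∀ X, K X → WCell X.P (X.G g) M {0, 1} 2 (fun n => (mD X D n).H) w ∧
    WL X.P M fun n L v => |((mD X D n).H 0 v).2.2 1| ≤ L) →
  Tn K g M mm (fun n => finF (g n) (J n) (D n) pr) η γ ∅ ∧ ∀ X, K X →
    GBd X.P M (fun n b v => ((mD X D n).H b v).2.2 1) γ w ∧
    Cell X.P (X.G g) M {0, 1} 2 (fun n => (mD X (fun n => finF (g n) (J n) (D n) pr) n).H) w ∧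
    (pr = true →
      Cell X.P (X.G g) M {0} 2 (fun n => (mD X (fun n => finF (g n) (J n) (D n) pr) n).H) w) ∧
    Cnv X.P M (mD X fun n => finF (g n) (J n) (D n) pr) γ w

/-- The cells of the tower are rescaled cells. -/
def SK {Ω : ℕ → Type} (W : ∀ n, Zoom.Tw (Ω n)) (B : (∀ n, (W n).I) → (ℕ → ℕ) → Mb Ω → Prop)
    (γ d : ℝ) (J : Finset (Fin 3)) : Prop :=
  ∀ σ r a X, B σ r X → OM r a → ∃ (σ' : ∀ n, (W n).I) (E : ∀ n, (X n).W → Prop),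
    Whp X.P E ∧ B σ' r (X.cond E) ∧ Zoom.Chd (X.cond E).P (X.G (Zoom.gs W σ)) (X.G (Zoom.gs W σ'))
      (mD X (Zoom.ds W σ)) (mD X (Zoom.ds W σ')) r a J ![1, γ, d] ∧
    ∀ Y, B σ r Y → B σ' r Y → Shf Y.P (Y.G (Zoom.gs W σ)) (Y.G (Zoom.gs W σ'))
      (mD Y (Zoom.ds W σ)) (mD Y (Zoom.ds W σ')) r a γ d

/-- The coordinates with cells over the height and `x`. -/
def jP (pr : Bool) : Finset (Fin 3) := bif pr then {1, 2} else {1}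

/-- The end in mode I. -/
def EndI : Prop := ∀ {Ω : ℕ → Type} (W : ∀ n, Zoom.Tw (Ω n))
  (B : (∀ n, (W n).I) → (ℕ → ℕ) → Mb Ω → Prop) (mm : ℕ → ℕ) (η d ε₀ : ℝ) (T₀ : Finset (Fin 3)),
  Zoom.Cz W B mm η d T₀ {1, 2} ![1, d, d] → 1 < d → 0 < ε₀ → ε₀ ≤ 1 → (∃ σ r X, B σ r X) →
  (∀ σ r X, B σ r X → Zoom.Typ X.P (X.G (Zoom.gs W σ)) (mD X (Zoom.ds W σ)) r {0} →
    Fl1 X.P (X.G (Zoom.gs W σ)) r mm (mD X (Zoom.ds W σ)) d ε₀) → False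

/-- The end in mode II, flat. -/
def End2 : Prop := ∀ {Ω : ℕ → Type} (W : ∀ n, Zoom.Tw (Ω n))
  (B : (∀ n, (W n).I) → (ℕ → ℕ) → Mb Ω → Prop) (mm : ℕ → ℕ) (η γ d ε₀ : ℝ) (pr : Bool),
  Zoom.Cz W B mm η γ ∅ (jP pr) ![1, γ, d] → SK W B γ d (jP pr) → 1 < γ → 1 ≤ d →
  (pr = true ↔ d ≤ γ) → 0 < ε₀ → ε₀ ≤ 1 → (∃ σ r X, B σ r X) →
  (∀ σ r X, B σ r X → Fl2 X.P (X.G (Zoom.gs W σ)) r mm (mD X (Zoom.ds W σ)) γ d ε₀) → False

def OfFSys : Prop := FInv → FSys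
def OfFLab : Prop := FInv → FLab
def OfLft : Prop := FInv → Lft
def OfCorP : Prop := FNL → CorP
def OfCorQ : Prop := FNL → CorQ
def OfOptU : Prop := Off → FCl → FSys → FInv → Lft → CorP → OptU'
def OfOptP : Prop := Off → FCl → FSys → FInv → Lft → CorP → OptP
def OfOptI : Prop := Off → FCl → FSys → FInv → Lft → CorP → OptI
def OfOptA : Prop := Off → FCl → FSys → FInv → Lft → CorQ → OptA
def OfOptF : Prop := Off → FCl → FSys → FInv → Lft → CorQ → OptF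
def OfOptQ : Prop := Off → FCl → FSys → FInv → Lft → CorQ → OptQ
def OfFbU : Prop := FInv → Lft → FbC → FbU
def OfFbF : Prop := FInv → Lft → FbC → FbF
def OfFbI : Prop := FCl → FInv → Lft → FbC → FbI
def OfZD : Prop := FSys → FInv → FLab → Lft → ZD
def OfNGD : Prop := FInv → NGD
def OfNGF : Prop := FInv → NGF
def OfNGC : Prop := FSys → FInv → NGC
def OfNGI : Prop := FInv → NGI
def OfCuC : Prop := FInv → CuB → CuC
def OfCuB : Prop := FInv → CuB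
def OfTwA : Prop := FInv → TwA
def OfKid : Prop := FrCan → CanCl → Kid
def OfFin1 : Prop := Rev → GStep → GChain → Prd → BallF → Fin1
def OfEndI : Prop := CIB → CIC → EndI
def OfEnd2 : Prop := Cases2 → EndI → End2

end Pool.Agent.MP_5168f5_an.R4.T8
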