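import Pool.Agent.MP_5168f5_an.R4.SpecTAN3

/-! Tangent systems before the bounds on the coefficients of the cells: definitions and rows in
the coordinates of the frame. -/

namespace Pool.Agent.MP_5168f5_an.R4.T8

open H19 H17S H17F Filter Matrix Tan

/-- The centre of the cell of level `a`. -/
noncomputable def cen {Ω : Type} (g : Geo 3 Ω) (J : ℕ) (U H : ℕ → Ω → Pl) (a : ℕ) (ω : Ω) : V 3 :=
  if a ≤ J then ![rd a (g.pt ω 0), pv (U a ω) (g.z0 a ω) ![rd a (g.pt ω 0), 0, 0],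
    pv (H a ω) (g.z0 a ω) ![rd a (g.pt ω 0), pv (U a ω) (g.z0 a ω) ![rd a (g.pt ω 0), 0, 0], 0]]
  else 0

/-- The hyperplanes, or their product form. -/
def hH {Ω : Type} (pr : Bool) (D : Td Ω) (a : ℕ) (ω : Ω) : Pl :=
  bif pr then prd 1 0 (D.H a ω) (D.U a ω) else D.H a ω

/-- The final data. -/
noncomputable def finF {Ω : Type} (g : Geo 3 Ω) (J : ℕ) (D : Td Ω) (pr : Bool) : Td Ω :=
  ⟨D.Λ, D.S, cen g J D.U (hH pr D), D.U, hH pr D⟩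

/-- Quadrics of the cells, the quadric of an older cell, and the depth of the quadrics below the
hyperplane. -/
structure Tc (Ω : Type) : Type where
  A : ℕ → Ω → Qd
  Ap : Ω → Qd
  ν : ℕ

/-- Pull back. -/
abbrev Tc.pull {Ω Ω' : Type} (C : Tc Ω) (f : Ω' → Ω) : Tc Ω' :=
  ⟨fun a v => C.A a (f v), fun v => C.Ap (f v), C.ν⟩

/-- The data on a member. -/
abbrev mC {Ω : ℕ → Type} (X : Mb Ω) (C : ∀ n, Tc (Ω n)) : ∀ n, Tc (X.W n) := fun n =>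
  (C n).pull (X n).ρ

/-- The index of a coordinate of the base point. -/
def ix (i : Fin 3) : Fin 5 := i.succ.castSucc

/-- The quadratic part of the surface of `A`. -/
noncomputable def sq (A : Qd) : Matrix (Fin 3) (Fin 3) ℝ := fun i l => -A (ix i) (ix l) / (2 * A 0 4)

/-- The affine part of the surface of `A`. -/
noncomputable def sa (A : Qd) : ℝ × V 3 := (-A 0 0 / (2 * A 0 4), fun i => -A 0 (ix i) / A 0 4)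

/-- The surface of `A`. -/
noncomputable def sf (A : Qd) (p : V 3) : ℝ := (sa A).1 + (sa A).2 ⬝ᵥ p + p ⬝ᵥ sq A *ᵥ p

/-- The point of the surface of `A` over `p`. -/
noncomputable def up (A : Qd) (p : V 3) : V 5 := ![1, p 0, p 1, p 2, sf A p]

/-- The quadric of the cell of level `a`. -/
noncomputable def Tc.E {Ω : Type} (C : Tc Ω) (a : ℕ) (ω : Ω) : Qd :=
  (2 : ℝ) ^ C.ν • (C.A 0 ω - (C.A 0 ω 0 4 / C.A a ω 0 4) • C.A a ω)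

/-- The fibre coordinate along the line. -/
def Tc.f {Ω : Type} (C : Tc Ω) (g : Geo 3 Ω) (ω : Ω) (t : ℝ) : ℝ := 2 ^ C.ν * ql g (C.A 0 ω) ω t

/-- The final curved data; `o` is the centre of the cells. -/
noncomputable def mkQ {Ω : Type} (g : Geo 3 Ω) (o : ℕ → Ω → V 3) (C : Tc Ω) : Tq Ω :=
  ⟨fun ω => sq (C.Ap ω), fun ω => sa (C.Ap ω), fun ω i => 2 ^ C.ν *
      (if i = 0 then qf (C.A 0 ω) (hom 0 (g.a ω)) else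
        if i = 1 then pf (C.A 0 ω) (hom 0 (g.a ω)) (vec 1 (g.e ω)) else
          if i = 2 then qf (C.A 0 ω) (vec 1 (g.e ω)) else 0),
    C.E, fun a ω => qf (C.E a ω) (up (C.Ap ω) ![g.z0 a ω, o a ω 0, o a ω 1])⟩

/-- The gradient of `A` at `Y`. -/
def Gd (A : Qd) (Y : V 5) (L : ℝ) : Prop :=
  |pf A Y (bv 4)| ≤ L ∧ 1 ≤ L * (|pf A Y (bv 4)| + |pf A Y (bv 3)|)

/-- The value of `A` and the base point determine the last coordinate. -/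
def Mn (A : Qd) (L B : ℝ) : Prop := ∀ (R t : ℝ) (Y Y' : V 3), 1 ≤ R → R ≤ B → |t| ≤ 1 →
  (∀ i, |Y i| ≤ R ∧ |Y' i| ≤ R) → |Y 2 - Y' 2| ≤
    L * R * (|qf A (hom t Y) - qf A (hom t Y')| + |Y 0 - Y' 0| + |Y 1 - Y' 1|)

/-- Polynomial functions of degree at most four in each variable. -/
def Q4 (F : V 3 → ℝ) : Prop := ∀ i p, ∃ C : ℕ → ℝ, ∀ s, F (Function.update p i s) = ev 4 C s

section One

variable {Ω : ℕ → Type} (P : ∀ n, FP (Ω n)) (g : Gs 3 Ω) (M mm : ℕ → ℕ) (D : ∀ n, Td (Ω n))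

/-- With high probability, with a constant `exp (o(M))`. -/
def WL (p : ∀ n, ℝ → Ω n → Prop) : Prop := ∃ L, Sub M L ∧ Whp P fun n ω => p n (L n) ω

/-- Cells near planes, without bounds on the coefficients. -/
def WCell (S : Finset (Fin 3)) (k : Fin 3) (d : ∀ n, ℕ → Ω n → Pl) (wt : ℝ) : Prop :=
  ∀ a τ : ℕ → ℕ, OM M a → (∀ᶠ n in UF, (τ n : ℝ) ≤ wt * a n) → WL P M fun n L ω =>
    (∀ i, i ∉ S → (d n (a n) ω).2.2 i = 0) ∧ ∀ t : ℝ, fl1 (a n) t = fl1 (a n) ((g n).z ω) →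
      |(g n).lt t ω k - pv (d n (a n) ω) t ((g n).lt t ω)| ≤ L / 2 ^ τ n

/-- The planes are functions of the cells. -/
def FnS (d : ∀ n, ℕ → Ω n → Pl) : Prop := ∀ᶠ n in UF, ∀ a, Fn (P n) (d n a) ((D n).S a)

/-- `NoGain` with an offset `c`, at the point. -/
def NoPt {A : Type} (wt : ℝ) (ok : ∀ n, ℝ → ℝ → ℕ → A → Ω n → Prop)
    (φ : ∀ n, A → Ω n → ℝ → ℝ) : Prop :=
  ∀ (Λ : ℕ → Type) (lam : ∀ n, Ω n → Λ n) (d : ∀ n, Ω n → A) (c : ∀ n, Ω n → ℝ) (L : ℕ → ℝ)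
    (j τ k : ℕ → ℕ), OM M j → OM M τ → OM M k → Lab P g mm j lam → Sub M L →
    (∀ᶠ n in UF, Fn (P n) (fun ω => (d n ω, c n ω)) (lam n) ∧ ∀ ω ∈ (P n).S,
      ok n (L n) (2 ^ k n) (j n) (d n ω) ω ∧
        |φ n (d n ω) ω ((g n).z ω) - c n ω| ≤ 1 / 2 ^ τ n) →
    Le M (fun n => τ n) fun n => wt * j n

/-- No gain for planes. -/
def OU (γ : ℝ) : Prop :=
  NoGain P g M mm γ (fun _ _ B _ (d : ℝ × ℝ) _ => |d.1| ≤ B ∧ |d.2| ≤ B) fun n d ω t =>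
    (g n).lt t ω 1 - d.1 * t - d.2 * (g n).lt t ω 0

/-- No gain for hyperplanes. -/
def OH (w : ℝ) : Prop :=
  NoGain P g M mm w (fun _ _ B _ (c : V 3) _ => ∀ i, |c i| ≤ B) fun n c ω t =>
    (g n).lt t ω 2 - c ⬝ᵥ bp (g n) t ω

/-- The common facts. -/
structure ComW (J : ℕ → ℕ) (η γ : ℝ) : Prop where
  brw : ∀ α β : ℕ → ℕ, OM M β → (∀ᶠ n in UF, α n ≤ β n) →
    Le M (fun n => η * (β n - α n) * lg) fun n => ch (P n) (fun ω => fl1 (β n) ((g n).e ω 0))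
      fun ω => (fl1 (α n) ((g n).e ω 0), (g n).y ω)
  fat : ∀ (i : Fin 3) (r : ℕ → ℕ), OM M r → Fat P g mm i r
  nest : ∀ᶠ n in UF, Fn (P n) ((D n).S 0) (g n).θ ∧ (∀ j,
    Fn (P n) ((D n).S j) ((D n).S (j + 1)) ∧
    Fn (P n) (fun ω => ((g n).θ ω, fl1 j ((g n).z ω), (D n).U j ω, (D n).H j ω)) ((D n).S j)) ∧
    ∀ j ≤ J n, Fn (P n) (fun ω => fl1 j ((g n).pt ω 0)) ((D n).S j)
  lab : ∀ j : ℕ → ℕ, OM M j → Lab P g mm j fun n => (D n).S (j n)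
  wU : WCell P g M {0} 1 (fun n => (D n).U) γ
  optU : OU P g M mm γ
  fbU : ∀ (Λ : ℕ → Type) (lam : ∀ n, Ω n → Λ n) (a : ℕ → ℕ), OM M a → Lab P g mm a lam →
    Fill P g M lam (fun n ω => (g n).pt ω 1) γ a

/-- The slopes of the hyperplanes in `u` at two levels. -/
def GSt (G : ∀ n, ℕ → Ω n → ℝ) (γ d : ℝ) : Prop := ∀ a a' τ σ : ℕ → ℕ, OM M a' → OM M σ →
  (∀ᶠ n in UF, a n ≤ a' n ∧ (τ n : ℝ) ≤ d * a n ∧ γ * a' n ≤ σ n) →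
  WL P M fun n L ω => |G n (a n) ω - G n (a' n) ω| ≤ L * 2 ^ σ n / 2 ^ τ n

/-- The size of the slopes. -/
def GBd (G : ∀ n, ℕ → Ω n → ℝ) (γ d : ℝ) : Prop := ∀ a σ : ℕ → ℕ, OM M a → OM M σ →
  (∀ᶠ n in UF, (γ - d) * a n ≤ σ n) → WL P M fun n L ω => |G n (a n) ω| ≤ L * 2 ^ σ n

/-- The deep variable `Z` is independent of the cells given the base point. -/
def Deep {A : ℕ → Type} (Z : ∀ n, Ω n → A n) (γ : ℝ) : Prop := ∀ b r : ℕ → ℕ, OM M r →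
  (∀ᶠ n in UF, b n ≤ r n ∧ γ * b n ≤ r n) → Sm M fun n => mi (P n) ((D n).S (b n)) (Z n) fun ω =>
    (fl1 (r n) ((g n).pt ω 0), fl1 (r n) ((g n).pt ω 1), (g n).zt ω)

/-- The rate of `s` given the deep variable. -/
def NGd0 {A : ℕ → Type} (Z : ∀ n, Ω n → A n) (s : ∀ n, Ω n → ℝ) (ε₀ : ℝ) : Prop :=
  ∀ q q' : ℕ → ℕ, OM M q' → (∀ᶠ n in UF, q n ≤ q' n) →
    Le M (fun n => ch (P n) (fun ω => fl1 (q' n) (s n ω)) fun ω =>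
      (fl1 (q n) (s n ω), Z n ω, (g n).zt ω)) fun n => (1 - ε₀) * (q' n - q n) * lg

/-- The cell and the base point determine `s`. -/
def DetS (s : ∀ n, Ω n → ℝ) (c : ℝ) : Prop := ∀ q r : ℕ → ℕ, OM M r →
  (∀ᶠ n in UF, c * q n ≤ r n) → Sm M fun n => ch (P n) (fun ω => fl1 (q n) (s n ω)) fun ω =>
    ((D n).S (q n) ω, fl1 (r n) ((g n).pt ω 0), fl1 (r n) ((g n).pt ω 1), (g n).zt ω)

/-- The joint rate of the last two coordinates. -/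
def NG2 (ε₀ : ℝ) : Prop := ∀ q q' r : ℕ → ℕ, OM M r → (∀ᶠ n in UF, q n ≤ q' n ∧ q' n ≤ r n) →
  Le M (fun n => ch (P n) (fun ω => (fl1 (q' n) ((g n).pt ω 1), fl1 (q' n) ((g n).pt ω 2)))
    fun ω => (fl1 (q n) ((g n).pt ω 1), fl1 (q n) ((g n).pt ω 2), fl1 (r n) ((g n).pt ω 0),
      (g n).zt ω)) fun n => (2 - ε₀) * (q' n - q n) * lg

/-- The same with a deep variable. -/
structure NG2d {A : ℕ → Type} (Z : ∀ n, Ω n → A n) (ε₀ : ℝ) : Prop where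
  deep : ∀ b r : ℕ → ℕ, OM M r → (∀ᶠ n in UF, b n ≤ r n) →
    Sm M fun n => mi (P n) ((D n).S (b n)) (Z n) fun ω => (fl1 (r n) ((g n).pt ω 0), (g n).zt ω)
  ng : ∀ q q' : ℕ → ℕ, OM M q' → (∀ᶠ n in UF, q n ≤ q' n) →
    Le M (fun n => ch (P n) (fun ω => (fl1 (q' n) ((g n).pt ω 1), fl1 (q' n) ((g n).pt ω 2)))
      fun ω => (fl1 (q n) ((g n).pt ω 1), fl1 (q n) ((g n).pt ω 2), Z n ω, (g n).zt ω))
      fun n => (2 - ε₀) * (q' n - q n) * lg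

/-- Curved facts before the normal form. -/
structure CuW (C : ∀ n, Tc (Ω n)) (d w : ℝ) : Prop where
  fn : ∀ᶠ n in UF, Fn (P n) (C n).Ap (g n).θ ∧ (∀ a, Fn (P n) ((C n).A a) ((D n).S a)) ∧
    ∀ ω ∈ (P n).S, ((C n).Ap ω).IsSymm ∧ ∀ a, ((C n).A a ω).IsSymm
  nu : ∀ a : ℕ → ℕ, OM M a → ∀ᶠ n in UF, a n ≤ (C n).ν
  thin : ∀ a τ : ℕ → ℕ, OM M a → (∀ᶠ n in UF, (τ n : ℝ) ≤ d * a n) → ∃ L, Sub M L ∧
    ∀ᶠ n in UF, ∀ ω ∈ (P n).S, ∀ t : ℝ, fl1 (a n) t = fl1 (a n) ((g n).z ω) →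
      |2 ^ (C n).ν * ql (g n) ((C n).A (a n) ω) ω t| ≤ L n / 2 ^ τ n
  bd : ∃ L, Sub mm L ∧ ∀ᶠ n in UF, ∀ ω ∈ (P n).S, ∀ t : ℝ, 0 ≤ t → t < 1 →
    |(C n).f (g n) ω t| ≤ L n
  fat : ∀ r : ℕ → ℕ, OM M r → ∃ L, Sub mm L ∧ ∀ᶠ n in UF,
    Near (P n) (g n).y (fun ω => (C n).f (g n) ω ((g n).z ω)) (L n / 2 ^ r n)
  par : ∀ r : ℕ → ℕ, OM M r → ∀ᶠ n in UF, ∀ ω ∈ (P n).S,
    (∀ t : ℝ, 0 ≤ t → t < 1 → |ql (g n) ((C n).Ap ω) ω t| ≤ 1 / 2 ^ r n) ∧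
      |pf ((C n).Ap ω) (vec 1 ((g n).e ω)) (bv 4)| ≤ 1 / 2 ^ r n
  grad : ∃ L, Sub M L ∧ ∀ᶠ n in UF, ∀ ω ∈ (P n).S,
    Gd ((C n).Ap ω) (hom ((g n).z ω) ((g n).pt ω)) (L n) ∧
      ∀ a, Gd ((C n).A a ω) (hom ((g n).z ω) ((g n).pt ω)) (L n)
  optH : OH P g M mm w
  optE : NoGain P g M mm d (fun _ _ B _ (A : Qd) _ => ∀ i k, |A i k| ≤ B) fun n A ω t =>
    (C n).f (g n) ω t - ql (g n) A ω t

/-- The points lie on the surface of `A`, which has bounded coefficients. -/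
structure Srf (A : ∀ n, Ω n → Qd) : Prop where
  bd : WL P M fun n L ω => (∀ i k, |sq (A n ω) i k| ≤ L) ∧ |(sa (A n ω)).1| ≤ L ∧
    ∀ i, |(sa (A n ω)).2 i| ≤ L
  surf : ∀ r : ℕ → ℕ, OM M r → Whp P fun n ω => ∀ t : ℝ, 0 ≤ t → t < 1 →
    |(g n).lt t ω 2 - sf (A n ω) (bp (g n) t ω)| ≤ 1 / 2 ^ r n

/-- The quadrics of the cells are multiples of the surface. -/
def Prop4 (C : ∀ n, Tc (Ω n)) : Prop := ∀ a r : ℕ → ℕ, OM M a → OM M r → WL P M fun n L ω =>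
  |(C n).A (a n) ω 0 4| ≤ L ∧ 1 ≤ L * |(C n).A (a n) ω 0 4| ∧
    (∀ i : Fin 4, |(C n).A (a n) ω i.succ 4| ≤ 1 / 2 ^ r n) ∧
    |(C n).A (a n) ω 0 0 + 2 * (C n).A (a n) ω 0 4 * (sa ((C n).Ap ω)).1| ≤ 1 / 2 ^ r n ∧
    ∀ i, |(C n).A (a n) ω 0 (ix i) + (C n).A (a n) ω 0 4 * (sa ((C n).Ap ω)).2 i| ≤ 1 / 2 ^ r n ∧
      ∀ l, |(C n).A (a n) ω (ix i) (ix l) + 2 * (C n).A (a n) ω 0 4 * sq ((C n).Ap ω) i l| ≤
        1 / 2 ^ r n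

/-- The cells in the curved case. -/
def CelE (C : ∀ n, Tc (Ω n)) (d : ℝ) : Prop := ∀ a τ : ℕ → ℕ, OM M a →
  (∀ᶠ n in UF, (τ n : ℝ) ≤ d * a n) → WL P M fun n L ω =>
    (∀ i k, |(C n).E (a n) ω i k| ≤ L * 2 ^ (4 * a n)) ∧
      ∀ t : ℝ, fl1 (a n) t = fl1 (a n) ((g n).z ω) →
        |(C n).f (g n) ω t - ql (g n) ((C n).E (a n) ω) ω t| ≤ L / 2 ^ τ n

/-- The cells are small. -/
def Bal (o : ∀ n, ℕ → Ω n → V 3) : Prop := ∀ a : ℕ → ℕ, OM M a →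
  WL P M fun n L ω => ∀ i, |(g n).pt ω i - o n (a n) ω i| ≤ L / 2 ^ a n

/-- A polynomial on the cell is controlled by its value at the point. -/
def SubA (a : ℕ → ℕ) : Prop := ∀ (Φ : ∀ n, Ω n → V 3 → ℝ) (L₁ : ℕ → ℝ), Sub M L₁ →
  (∀ᶠ n in UF, Fn (P n) (Φ n) ((D n).S (a n)) ∧ ∀ ω ∈ (P n).S, Q4 (Φ n ω)) →
  WL P M fun n L ω => ∀ p : V 3, (∀ i, |p i - bp (g n) ((g n).z ω) ω i| ≤ L₁ n / 2 ^ a n) →
    |Φ n ω p| ≤ L * |Φ n ω (bp (g n) ((g n).z ω) ω)|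

/-- A covector of the context does not kill the directions. -/
def Dir3 : Prop := ∀ c : ∀ n, Ω n → V 3, (∀ᶠ n in UF, Fn (P n) (c n) (g n).θ) →
  WL P M fun n L ω => ∀ i, |c n ω i| ≤ L * |c n ω ⬝ᵥ ![1, (g n).e ω 0, (g n).e ω 1]|

/-- The same with the last coordinate. -/
def Dir4 : Prop := ∀ c : ∀ n, Ω n → V 4, (∀ᶠ n in UF, Fn (P n) (c n) (g n).θ) →
  WL P M fun n L ω => ∀ i, |c n ω i| ≤ L * |c n ω ⬝ᵥ ![1, (g n).e ω 0, (g n).e ω 1, (g n).e ω 2]|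

end One

/-- A tangent class without bounds on the cells. -/
structure TW {Ω : ℕ → Type} (K : Mb Ω → Prop) (g : Gs 3 Ω) (M mm : ℕ → ℕ) (D : ∀ n, Td (Ω n))
    (J : ℕ → ℕ) (η γ : ℝ) : Prop where
  cl : Cl K
  ne : ∃ X, K X
  sm : Sm M fun n => mm n
  low : Cls0 K g mm 0 η
  cls : ∀ C : ℕ, 0 < C → Cls0 K g (fun n => C * M n) 0 η
  one : 1 ≤ γ
  hJ : ∀ a : ℕ → ℕ, OM M a → ∀ᶠ n in UF, a n ≤ J n
  com : ∀ X, K X → ComW X.P (X.G g) M mm (mD X D) J η γ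

/-- A statement on all members of all such classes. -/
def AllW (p : ∀ {Ω : ℕ → Type}, (Mb Ω → Prop) → Gs 3 Ω → (ℕ → ℕ) → (ℕ → ℕ) → (∀ n, Td (Ω n)) →
    (ℕ → ℕ) → ℝ → Mb Ω → Prop) : Prop :=
  ∀ {Ω : ℕ → Type} (K : Mb Ω → Prop) (g : Gs 3 Ω) (M mm : ℕ → ℕ) (D : ∀ n, Td (Ω n)) (J : ℕ → ℕ)
    (η γ : ℝ) (X : Mb Ω), TW K g M mm D J η γ → K X → p K g M mm D J γ X

/-! ### Flat rows -/

/-- A quadratic polynomial is not small at the broad slope. -/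
def Rev2 : Prop := ∀ {N : ℕ} {Ω Λ : ℕ → Type} (K : Mb Ω → Prop) (g : Gs N Ω) (M : ℕ → ℕ)
  (i : Fin N) (η : ℝ) (X : Mb Ω) (lam : ∀ n, (X n).W → Λ n) (C : ∀ n, (X n).W → ℕ → ℝ),
  Cls0 K g M i η → K X → (Sm M fun n => (X.G g n).lk (X n).Q (lam n)) →
  (∀ᶠ n in UF, Fn (X n).Q (C n) (lam n)) →
  WL X.P M fun n L v => ∀ l ≤ 2, |C n v l| ≤ L * |ev 2 (C n v) ((X.G g n).e v i)|

/-- The coefficients of the cells are bounded. -/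
def Rev : Prop := AllW fun _ g M _ D _ _ X => ∀ (S : Finset (Fin 3)) (i : Fin 3)
  (d : ∀ n, ℕ → (X n).W → Pl) (wt : ℝ), 1 ≤ wt → 2 ∉ S → FnS X.P (mD X D) d →
  WCell X.P (X.G g) M S i d wt →
  (∀ a : ℕ → ℕ, OM M a → WL X.P M fun n L v => |(d n (a n) v).2.2 1| ≤ L) →
  Cell X.P (X.G g) M S i d wt

def GStep : Prop := AllW fun _ g M _ D _ γ X => ∀ d : ℝ, 1 ≤ d →
  WCell X.P (X.G g) M {0, 1} 2 (fun n => (mD X D n).H) d →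
  GSt X.P M (fun n a v => ((mD X D n).H a v).2.2 1) γ d

def GChain : Prop := ∀ {Ω : ℕ → Type} (P : ∀ n, FP (Ω n)) (M : ℕ → ℕ) (G : ∀ n, ℕ → Ω n → ℝ)
  (γ d : ℝ), Big M → 1 ≤ γ → 1 ≤ d → GSt P M G γ d → (WL P M fun n L ω => |G n 0 ω| ≤ L) →
  GBd P M G γ d ∧ (γ ≤ d → ∀ a a' τ : ℕ → ℕ, OM M a' →
    (∀ᶠ n in UF, a n ≤ a' n ∧ (τ n : ℝ) ≤ (d - γ) * a n) →
    WL P M fun n L ω => |G n (a n) ω - G n (a' n) ω| ≤ L / 2 ^ τ n)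

/-- Product cells. -/
def Prd : Prop := ∀ {Ω : ℕ → Type} (P : ∀ n, FP (Ω n)) (g : Gs 3 Ω) (M : ℕ → ℕ)
  (U H : ∀ n, ℕ → Ω n → Pl) (γ d : ℝ), Big M → 1 ≤ d → d ≤ γ → WCell P g M {0} 1 U γ →
  WCell P g M {0, 1} 2 H d → GBd P M (fun n a ω => (H n a ω).2.2 1) γ d →
  WCell P g M {0} 2 (fun n a ω => prd 1 0 (H n a ω) (U n a ω)) d

def BallF : Prop := AllW fun _ g M _ D J γ X => ∀ (H : ∀ n, ℕ → (X n).W → Pl) (d : ℝ), 1 ≤ d →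
  Cell X.P (X.G g) M {0} 1 (fun n => (mD X D n).U) γ → Cell X.P (X.G g) M {0, 1} 2 H d →
  Bal X.P (X.G g) M fun n => cen (X.G g n) (J n) (mD X D n).U (H n)

/-- The cell and the other coordinates determine a coordinate. -/
structure DetC : Prop where
  u : AllW fun _ g M _ D _ γ X => Cell X.P (X.G g) M {0} 1 (fun n => (mD X D n).U) γ →
    ∀ b q r : ℕ → ℕ, OM M b → OM M r → Le M (fun n => q n) (fun n => γ * b n) →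
    (∀ᶠ n in UF, q n ≤ r n) → Sm M fun n => ch (X n).Q (fun v => fl1 (q n) ((X.G g n).pt v 1))
      fun v => ((mD X D n).S (b n) v, fl1 (r n) ((X.G g n).pt v 0), (X.G g n).zt v)
  f : AllW fun _ g M _ D _ _ X => ∀ (H : ∀ n, ℕ → (X n).W → Pl) (d : ℝ), 0 ≤ d →
    FnS X.P (mD X D) H → Cell X.P (X.G g) M {0, 1} 2 H d →
    ∀ b q r r' : ℕ → ℕ, OM M b → OM M r → Le M (fun n => q n) (fun n => d * b n) →
    (∀ᶠ n in UF, q n ≤ r n ∧ q n ≤ r' n) →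
    Sm M fun n => ch (X n).Q (fun v => fl1 (q n) ((X.G g n).pt v 2)) fun v =>
      ((mD X D n).S (b n) v, fl1 (r n) ((X.G g n).pt v 0), fl1 (r' n) ((X.G g n).pt v 1),
        (X.G g n).zt v)

/-- Removal of the deep digits. -/
structure NGb : Prop where
  one : ∀ {Ω A : ℕ → Type} (P : ∀ n, FP (Ω n)) (g : Gs 3 Ω) (M : ℕ → ℕ) (D : ∀ n, Td (Ω n))
    (Z : ∀ n, Ω n → A n) (s : ∀ n, Ω n → ℝ) (γ c ε₀ : ℝ), 1 ≤ c → γ ≤ c → Deep P g M D Z γ →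
    NGd0 P g M Z s ε₀ → DetS P g M D s c → NGo P g M s c ε₀
  two : AllW fun _ g M _ D _ γ X => ∀ {A : ℕ → Type} (Z : ∀ n, (X n).W → A n)
    (H : ∀ n, ℕ → (X n).W → Pl) (d ε₀ : ℝ), 1 ≤ d → FnS X.P (mD X D) H →
    Cell X.P (X.G g) M {0} 1 (fun n => (mD X D n).U) γ → Cell X.P (X.G g) M {0, 1} 2 H d →
    NG2d X.P (X.G g) M (mD X D) Z ε₀ → NG2 X.P (X.G g) M ε₀
  out : AllW fun _ g M _ D _ γ X => ∀ (H : ∀ n, ℕ → (X n).W → Pl) (ε₀ : ℝ),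
    FnS X.P (mD X D) H → Cell X.P (X.G g) M {0, 1} 2 H γ → NG2 X.P (X.G g) M ε₀ →
    NGo X.P (X.G g) M (fun n v => (X.G g n).pt v 2) 1 ε₀

/-- The offset is free. -/
def Off : Prop := ∀ {Ω : ℕ → Type} {A : Type} (K : Mb Ω → Prop) (g : Gs 3 Ω) (M mm : ℕ → ℕ)
  (wt : ℝ) (ok : ∀ n, ℝ → ℝ → ℕ → A → Ω n → Prop) (φ : ∀ n, A → Ω n → ℝ → ℝ), Cl0 K → Big M →
  Big mm → 0 ≤ wt → (∀ n L B B' j d ω, B ≤ B' → ok n L B j d ω → ok n L B' j d ω) →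
  (∀ X, K X → ∀ᶠ n in UF, ∀ v ∈ (X n).Q.S, ∀ v' ∈ (X n).Q.S,
    (X.G g n).ln v = (X.G g n).ln v' → ∀ d t, φ n d ((X n).ρ v) t = φ n d ((X n).ρ v') t) →
  (∀ X, K X → ∀ k r : ℕ → ℕ, OM M k → OM M r → ∀ᶠ n in UF, ∀ L j d, ∀ v ∈ (X n).Q.S,
    ∀ v' ∈ (X n).Q.S, L ≤ 2 ^ k n → ok n L (2 ^ k n) j d ((X n).ρ v) →
      (X.G g n).y v = (X.G g n).y v' → |φ n d ((X n).ρ v) ((X.G g n).z v) -
        φ n d ((X n).ρ v') ((X.G g n).z v')| ≤ 1 / 2 ^ r n) →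
  (∀ X, K X → NoPt X.P (X.G g) M mm wt (fun n L B j d v => ok n L B j d ((X n).ρ v))
    fun n d v => φ n d ((X n).ρ v)) →
  ∀ X, K X → NoGain X.P (X.G g) M mm wt (fun n L B j d v => ok n L B j d ((X n).ρ v))
    fun n d v => φ n d ((X n).ρ v)

/-! ### Curved rows -/

/-- A polynomial in three jointly full variables. -/
def Sub3 : Prop := ∀ {Ω Λ : ℕ → Type} (P : ∀ n, FP (Ω n)) (lam : ∀ n, Ω n → Λ n)
  (p o : ∀ n, Ω n → V 3) (Φ : ∀ n, Ω n → V 3 → ℝ) (M a : ℕ → ℕ) (L₀ L₁ : ℕ → ℝ), Big M →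
  Sub M L₀ → Sub M L₁ →
  (∀ᶠ n in UF, Fn (P n) (fun ω => (Φ n ω, o n ω)) (lam n) ∧ ∀ ω ∈ (P n).S, Q4 (Φ n ω)) →
  Whp P (fun n ω => ∀ i, |p n ω i - o n ω i| ≤ L₀ n / 2 ^ a n) →
  Le M (fun n => M n * lg) (fun n => ch (P n) (fun ω => fl1 (a n + M n) (p n ω 0)) fun ω =>
    (fl1 (a n) (p n ω 0), lam n ω)) →
  Le M (fun n => M n * lg) (fun n => ch (P n) (fun ω => fl1 (a n + M n) (p n ω 1)) fun ω =>
    (fl1 (a n) (p n ω 1), p n ω 0, lam n ω)) →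
  Le M (fun n => M n * lg) (fun n => ch (P n) (fun ω => fl1 (a n + M n) (p n ω 2)) fun ω =>
    (fl1 (a n) (p n ω 2), fl1 (a n + M n) (p n ω 1), p n ω 0, lam n ω)) →
  WL P M fun n L ω => ∀ p' : V 3, (∀ i, |p' i - p n ω i| ≤ L₁ n / 2 ^ a n) →
    |Φ n ω p'| ≤ L * |Φ n ω (p n ω)|

/-- The same on the cells. -/
def SubT : Prop := AllW fun _ g M _ D _ γ X =>
  Cell X.P (X.G g) M {0} 1 (fun n => (mD X D n).U) γ → ∀ a : ℕ → ℕ, OM M a →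
  (∀ᶠ n in UF, γ * a n ≤ a n) → SubA X.P (X.G g) M (mD X D) a

def DirU : Prop := AllW fun _ g M _ _ _ _ X => Dir3 X.P (X.G g) M

def DirH : Prop := AllW fun K g M mm _ _ _ X => ∀ w : ℝ, (∀ Y, K Y → OH Y.P (Y.G g) M mm w) →
  Dir4 X.P (X.G g) M

/-- The normal form of the surface. -/
def Surf : Prop := AllW fun _ g M mm D _ _ X => ∀ (C : ∀ n, Tc (X.W n)) (d w : ℝ),
  CuW X.P (X.G g) M mm (mD X D) C d w → Dir4 X.P (X.G g) M →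
  SubA X.P (X.G g) M (mD X D) (fun _ => 0) → Srf X.P (X.G g) M fun n => (C n).Ap

/-- The surface is curved. -/
def NQ : Prop := AllW fun K g M mm _ _ _ X => ∀ (w : ℝ) (A : ∀ n, (X n).W → Qd),
  (∀ Y, K Y → OH Y.P (Y.G g) M mm w) → (∀ᶠ n in UF, Fn (X n).Q (A n) (X.G g n).θ) →
  Srf X.P (X.G g) M A → WL X.P M fun n L v => ∃ i l, 1 ≤ L * |sq (A n v) i l|

/-- A null vector of a nearly degenerate form lies near one of two planes. -/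
def DegAlg : Prop := ∃ (C : ℝ) (c : Matrix (Fin 3) (Fin 3) ℝ → ℝ → ℝ → Bool → V 3), 1 ≤ C ∧
  ∀ (q : Matrix (Fin 3) (Fin 3) ℝ) (v : V 3) (L σ : ℝ), 1 ≤ L → 0 < σ → σ ≤ 1 → q.IsSymm →
    (∀ i l, |q i l| ≤ L) → (∃ i l, 1 ≤ L * |q i l|) → (∀ i, |v i| ≤ L) → |q.det| ≤ σ ^ 4 →
    |v ⬝ᵥ q *ᵥ v| ≤ σ ^ 4 →
    ∃ b, (∃ i, 1 ≤ C * L * |c q L σ b i|) ∧ |c q L σ b ⬝ᵥ v| ≤ C * L ^ 10 * σ

/-- The form is not degenerate. -/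
def DetQ : Prop := AllW fun _ g M _ _ _ _ X => ∀ A : ∀ n, (X n).W → Qd,
  (∀ᶠ n in UF, Fn (X n).Q (A n) (X.G g n).θ ∧ ∀ v ∈ (X n).Q.S, (A n v).IsSymm) →
  Srf X.P (X.G g) M A → (WL X.P M fun n L v => ∃ i l, 1 ≤ L * |sq (A n v) i l|) →
  WL X.P M fun n L v => 1 ≤ L * |(sq (A n v)).det|

/-- The weight of `u` is one. -/
def Gam1 : Prop := AllW fun _ g M _ D _ γ X => ∀ A : ∀ n, (X n).W → Qd,
  (∀ᶠ n in UF, Fn (X n).Q (A n) (X.G g n).θ ∧ ∀ v ∈ (X n).Q.S, (A n v).IsSymm) →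
  Cell X.P (X.G g) M {0} 1 (fun n => (mD X D n).U) γ → Srf X.P (X.G g) M A →
  (WL X.P M fun n L v => 1 ≤ L * |(sq (A n v)).det|) → γ = 1

/-- A quadric without the linear term in the last coordinate is not small on the surface. -/
def QS : Prop := AllW fun _ g M _ D _ _ X => ∀ (A B : ∀ n, (X n).W → Qd) (a : ℕ → ℕ), OM M a →
  (∀ᶠ n in UF, Fn (X n).Q (A n) (X.G g n).θ ∧ Fn (X n).Q (B n) ((mD X D n).S (a n)) ∧
    ∀ v ∈ (X n).Q.S, (A n v).IsSymm ∧ (B n v).IsSymm ∧ B n v 0 4 = 0) →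
  Srf X.P (X.G g) M A → (WL X.P M fun n L v => ∃ i l, 1 ≤ L * |sq (A n v) i l|) →
  SubA X.P (X.G g) M (mD X D) a → WL X.P M fun n L v => ∀ i l,
    |B n v i l| ≤ L * 2 ^ (4 * a n) * |qf (B n v) (hom ((X.G g n).z v) ((X.G g n).pt v))|

/-- The hypotheses of the curved rows on one member. -/
structure CH {Ω : ℕ → Type} (P : ∀ n, FP (Ω n)) (g : Gs 3 Ω) (M mm : ℕ → ℕ) (D : ∀ n, Td (Ω n))
    (C : ∀ n, Tc (Ω n)) (d w : ℝ) : Prop where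
  one : 1 ≤ d
  cu : CuW P g M mm D C d w
  srf : Srf P g M fun n => (C n).Ap
  nq : WL P M fun n L ω => ∃ i l, 1 ≤ L * |sq ((C n).Ap ω) i l|
  sub : ∀ a : ℕ → ℕ, OM M a → SubA P g M D a

def PropA : Prop := AllW fun _ g M mm D _ _ X => ∀ (C : ∀ n, Tc (X.W n)) (d w : ℝ),
  CH X.P (X.G g) M mm (mD X D) C d w → Prop4 X.P M C

def CellE : Prop := AllW fun _ g M mm D _ _ X => ∀ (C : ∀ n, Tc (X.W n)) (d w : ℝ),
  CH X.P (X.G g) M mm (mD X D) C d w → Prop4 X.P M C → CelE X.P (X.G g) M C d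

/-- The fibre coordinate is nearly constant on the cells. -/
def BallE : Prop := AllW fun _ g M mm D _ _ X => ∀ (C : ∀ n, Tc (X.W n)) (d w : ℝ)
  (o : ∀ n, ℕ → (X n).W → V 3), CH X.P (X.G g) M mm (mD X D) C d w → Prop4 X.P M C →
  CelE X.P (X.G g) M C d → Bal X.P (X.G g) M o → ∀ a : ℕ → ℕ, OM M a →
  WL X.P M fun n L v => |(C n).f (X.G g n) v ((X.G g n).z v) -
    (mkQ (X.G g n) (o n) (C n)).fo (a n) v| ≤ L / 2 ^ a n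

def MonoE : Prop := ∀ {Ω : ℕ → Type} (P : ∀ n, FP (Ω n)) (g : Gs 3 Ω) (M : ℕ → ℕ)
  (C : ∀ n, Tc (Ω n)), Big M → (∀ᶠ n in UF, ∀ ω ∈ (P n).S, ((C n).Ap ω).IsSymm ∧
    ((C n).A 0 ω).IsSymm) → Srf P g M (fun n => (C n).Ap) → Prop4 P M C →
  WL P M fun n L ω => Mn ((C n).A 0 ω) L (2 ^ M n)

def DetE : Prop := AllW fun _ g M mm D _ _ X => ∀ (C : ∀ n, Tc (X.W n)) (d w : ℝ),
  CH X.P (X.G g) M mm (mD X D) C d w → CelE X.P (X.G g) M C d →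
  DetS X.P (X.G g) M (mD X D) (fun n v => (C n).f (X.G g n) v ((X.G g n).z v)) 5

/-- The final curved data. -/
structure MkQ : Prop where
  ev : ∀ {Ω : Type} (g : Geo 3 Ω) (o : ℕ → Ω → V 3) (C : Tc Ω) (ω : Ω) (t : ℝ),
    ev 2 ((mkQ g o C).cf ω) t = C.f g ω t
  bd : ∀ {Ω : Type} (g : Geo 3 Ω) (o : ℕ → Ω → V 3) (C : Tc Ω) (ω : Ω) (L : ℝ),
    (∀ t : ℝ, 0 ≤ t → t < 1 → |C.f g ω t| ≤ L) → ∀ i, |(mkQ g o C).cf ω i| ≤ 32 * L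
  fn : ∀ {Ω : Type} (P : FP Ω) (g : Geo 3 Ω) (D : Td Ω) (C : Tc Ω), Fn P C.Ap g.θ →
    (∀ a, Fn P (C.A a) (D.S a)) → (∀ ω ∈ P.S, (C.Ap ω).IsSymm) → Fn P (D.S 0) g.θ →
    (∀ j, Fn P (fun ω => (g.θ ω, fl1 j (g.z ω), D.o j ω)) (D.S j)) →
    Fn P (fun ω => ((mkQ g D.o C).q ω, (mkQ g D.o C).l ω)) g.θ ∧ Fn P (mkQ g D.o C).cf g.ln ∧
      (∀ ω ∈ P.S, ((mkQ g D.o C).q ω).IsSymm) ∧
      ∀ j, Fn P (fun ω => ((mkQ g D.o C).E j ω, (mkQ g D.o C).fo j ω)) (D.S j)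

def OfRev : Prop := Rev2 → Rev
def OfGStep : Prop := Rev2 → GStep
def OfNGb : Prop := DetC → NGb
def OfSubT : Prop := Sub3 → SubT
def OfDirU : Prop := Rev2 → DirU
def OfDirH : Prop := DirU → DirH
def OfDetQ : Prop := DegAlg → DirU → DetQ
def OfGam1 : Prop := Rev2 → Gam1
def OfPropA : Prop := QS → PropA
def OfCellE : Prop := QS → CellE

end Pool.Agent.MP_5168f5_an.R4.T8
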