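import Pool.Agent.MP_5168f5_an.R4.NCx4

/-! Webs of curves of degree two over a flat base: definitions and statements. -/

namespace Pool.Agent.MP_5168f5_an.R4.Web

open H19 H17S H17F Filter NCx

/-- Real random variables. -/
abbrev RV (Ω : ℕ → Type) : Type := ∀ n, Ω n → ℝ

section Defs

variable {Ω Γ : ℕ → Type} (P : ∀ n, FP (Ω n))

/-- `x` has full entropy at resolution `2^{-M}` given `G`. -/
def Ful (x : RV Ω) (G : ∀ n, Ω n → Γ n) (M : ℕ → ℕ) : Prop :=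
  Le M (fun n => M n * lg) fun n => ch (P n) (fun ω => fl1 (M n) (x n ω)) (G n)

/-- `x` is determined by its cell of size `2^{-M}` and is bounded. -/
def Grid (x : RV Ω) (M : ℕ → ℕ) : Prop := ∃ L, Sub M L ∧ ∀ᶠ n in UF,
  Fn (P n) (x n) (fun ω => fl1 (M n) (x n ω)) ∧ ∀ ω ∈ (P n).S, |x n ω| ≤ L n

/-- A variable of small entropy given `G` that has the property `Φ` with high probability. -/
def Fit (G : ∀ n, Ω n → Γ n) (M : ℕ → ℕ) {D : Type} (Φ : ∀ n, ℝ → D → Ω n → Prop) : Prop :=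
  ∃ (C : ∀ n, Ω n → D) (L : ℕ → ℝ), Sub M L ∧ Sm M (fun n => ch (P n) (C n) (G n)) ∧
    Whp P fun n ω => Φ n (L n) (C n ω) ω

/-- `T` is a combination of the `ψ i` with coefficients of small entropy given `G`. -/
def Rep (G : ∀ n, Ω n → Γ n) (M : ℕ → ℕ) (T : RV Ω) {ι : Type} [Fintype ι] (ψ : ι → RV Ω)
    (k : ℕ → ℕ) : Prop :=
  Fit P G M fun n L (C : ι → ℝ) ω =>
    |T n ω - ∑ i, C i * ψ i n ω| ≤ L / 2 ^ k n ∧ ∀ i, |C i| ≤ L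

/-- A curve `φ = u + α x + β x ^ 2` along the coordinate `x`; `G` is the rest of the base point and
the context. -/
structure Ln (x : RV Ω) (G : ∀ n, Ω n → Γ n) (φ u α β : RV Ω) (M R : ℕ → ℕ) : Prop where
  grid : Grid P x M
  bd : ∃ L, Sub M L ∧ ∀ᶠ n in UF, ∀ ω ∈ (P n).S, |φ n ω| ≤ L n ∧ |u n ω| ≤ L n ∧
    |α n ω| ≤ L n ∧ |β n ω| ≤ L n ∧
    |φ n ω - (u n ω + α n ω * x n ω + β n ω * x n ω ^ 2)| ≤ L n / 2 ^ R n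
  ful : Ful P x (fun n ω => (u n ω, α n ω, β n ω, G n ω)) M
  sv : Sm M fun n => ch (P n) (fun ω => (α n ω, β n ω)) (G n)

end Defs

/-- A polynomial of degree at most two in each of two variables. -/
def bq (C : Fin 3 → Fin 3 → ℝ) (y z : ℝ) : ℝ := ∑ i, ∑ j, C i j * y ^ (i : ℕ) * z ^ (j : ℕ)

/-- A polynomial of degree at most two in each of three variables. -/
def tq (C : Fin 3 → Fin 3 → Fin 3 → ℝ) (x y z : ℝ) : ℝ :=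
  ∑ i, ∑ j, ∑ k, C i j k * x ^ (i : ℕ) * y ^ (j : ℕ) * z ^ (k : ℕ)

/-! ### Tools -/

/-- A variable with small information can be replaced by a short list. -/
def Cover : Prop := ∀ {Ω W Γ D : ℕ → Type} (P : ∀ n, FP (Ω n)) (Q : ∀ n, FP (W n))
  (π : ∀ n, W n → Ω n) (C : ∀ n, W n → D n) (G : ∀ n, Ω n → Γ n) (Φ : ∀ n, D n → Ω n → Prop)
  (M : ℕ → ℕ), Big M → (∀ n, Law (Q n) (π n) (P n) id) →
  (Sm M fun n => mi (Q n) (C n) (π n) fun v => G n (π n v)) →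
  Whp Q (fun n v => Φ n (C n v) (π n v)) →
  ∃ (L : ℕ → ℝ) (T : ∀ n, Γ n → Finset (D n)), Sub M L ∧ (∀ n g, ((T n g).card : ℝ) ≤ L n) ∧
    Whp P fun n ω => ∃ c ∈ T n (G n ω), Φ n c ω

/-- A polynomial is not small at a full point. -/
def Spr : Prop := ∀ (d : ℕ) {Ω Γ : ℕ → Type} (P : ∀ n, FP (Ω n)) (x : RV Ω)
  (G : ∀ n, Ω n → Γ n) (C : ∀ n, Ω n → Fin (d + 1) → ℝ) (M : ℕ → ℕ) (L : ℕ → ℝ), Big M →
  Sub M L → (∀ᶠ n in UF, Fn (P n) (C n) (G n) ∧ ∀ ω ∈ (P n).S, |x n ω| ≤ L n) → Ful P x G M →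
  ∃ L', Sub M L' ∧ Whp P fun n ω => ∀ j, |C n ω j| ≤ L' n * |∑ i, C n ω i * x n ω ^ (i : ℕ)|

/-- A polynomial of a full variable that has no full window is constant. -/
def DenP : Prop := ∀ (d : ℕ) {Ω Γ T : ℕ → Type} (P : ∀ n, FP (Ω n)) (u x : RV Ω)
  (Θ : ∀ n, Ω n → T n) (G : ∀ n, Ω n → Γ n) (C : ∀ n, Ω n → Fin (d + 1) → ℝ) (M R k : ℕ → ℕ)
  (L : ℕ → ℝ) (ε₀ : ℝ), Big M → Frac R M → (∀ n, k n ≤ R n) → Sub M L → 0 < ε₀ →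
  NG1 P Θ u R ε₀ →
  (∀ᶠ n in UF, Fn (P n) (C n) (G n) ∧ Fn (P n) (Θ n) (G n) ∧ ∀ ω ∈ (P n).S, |x n ω| ≤ L n) →
  Ful P x G M →
  Whp P (fun n ω => |u n ω - ∑ i, C n ω i * x n ω ^ (i : ℕ)| ≤ L n / 2 ^ k n ∧
    ∀ j, j ≠ 0 → |C n ω j| ≤ L n) →
  ∃ L', Sub M L' ∧ Whp P fun n ω => ∀ j, j ≠ 0 → |C n ω j| ≤ L' n / 2 ^ k n

/-- The rate passes to `u' = u - E` when `u'` is independent of the base. -/
def NGx : Prop := ∀ {Ω Γ T : ℕ → Type} (P : ∀ n, FP (Ω n)) (u u' E : RV Ω)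
  (B : ∀ n, Ω n → T n) (G : ∀ n, Ω n → Γ n) (M R k : ℕ → ℕ) (L : ℕ → ℝ) (ε₀ : ℝ), Big M →
  Frac k M → Frac k R → Sub M L → NG1 P B u R ε₀ →
  (∀ᶠ n in UF, Fn (P n) (E n) (fun ω => (B n ω, G n ω)) ∧
    ∀ ω ∈ (P n).S, |u n ω - E n ω - u' n ω| ≤ L n / 2 ^ k n) →
  (Sm M fun n => mi (P n) (fun ω => fl1 (k n) (u' n ω)) (B n) (G n)) → NG1 P G u' k ε₀

/-- Interpolation in one more variable. -/
def TStep : Prop := ∀ {Ω Y U : ℕ → Type} {ι : Type} [Fintype ι] (P : ∀ n, FP (Ω n)) (x T : RV Ω)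
  (y : ∀ n, Ω n → Y n) (w : ∀ n, Ω n → U n) (ψ : ι → ∀ n, Y n → ℝ) (M k : ℕ → ℕ), Big M →
  Grid P x M → Ful P x (fun n ω => (y n ω, w n ω)) M →
  Rep P (fun n ω => (y n ω, w n ω)) M T (fun (j : Fin 3) n ω => x n ω ^ (j : ℕ)) k →
  Rep P (fun n ω => (x n ω, w n ω)) M T (fun i n ω => ψ i n (y n ω)) k →
  Rep P w M T (fun (p : Fin 3 × ι) n ω => x n ω ^ (p.1 : ℕ) * ψ p.2 n (y n ω)) k

/-! ### Webs -/

/-- In a planar web the slope of the columns is quadratic along the rows. -/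
def Rect : Prop := ∀ {Ω T : ℕ → Type} (P : ∀ n, FP (Ω n)) (Θ : ∀ n, Ω n → T n)
  (a b φ u α β u' α' β' : RV Ω) (M R : ℕ → ℕ) (ε₀ : ℝ), Big M → Frac R M → 0 < ε₀ → ε₀ ≤ 1 →
  Ln P b (fun n ω => (a n ω, Θ n ω)) φ u α β M R →
  Ln P a (fun n ω => (b n ω, Θ n ω)) φ u' α' β' M R →
  NG1 P (fun n ω => (a n ω, b n ω, Θ n ω)) φ R ε₀ →
  ∃ k, Frac k R ∧ Rep P (fun n ω => (a n ω, Θ n ω)) M
    (fun n ω => α' n ω + 2 * β' n ω * a n ω) (fun (j : Fin 3) n ω => b n ω ^ (j : ℕ)) k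

/-- A web over a base of dimension three. -/
structure W3 {Ω T : ℕ → Type} (P : ∀ n, FP (Ω n)) (Θ : ∀ n, Ω n → T n)
    (x y z φ u α β u' α' β' u'' α'' β'' : RV Ω) (M R : ℕ → ℕ) (ε₀ : ℝ) : Prop where
  big : Big M
  frac : Frac R M
  pos : 0 < ε₀
  le : ε₀ ≤ 1
  l1 : Ln P x (fun n ω => (y n ω, z n ω, Θ n ω)) φ u α β M R
  l2 : Ln P y (fun n ω => (z n ω, x n ω, Θ n ω)) φ u' α' β' M R
  l3 : Ln P z (fun n ω => (x n ω, y n ω, Θ n ω)) φ u'' α'' β'' M R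
  ng : NG1 P (fun n ω => (x n ω, y n ω, z n ω, Θ n ω)) φ R ε₀

/-- The coefficients of the first curve are polynomials of the other two coordinates. -/
def Ten : Prop := ∀ {Ω T : ℕ → Type} (P : ∀ n, FP (Ω n)) (Θ : ∀ n, Ω n → T n)
  (x y z φ u α β u' α' β' u'' α'' β'' : RV Ω) (M R : ℕ → ℕ) (ε₀ : ℝ),
  W3 P Θ x y z φ u α β u' α' β' u'' α'' β'' M R ε₀ →
  ∃ k, Frac k R ∧ Fit P Θ M fun n L (J : Fin 2 → Fin 3 → Fin 3 → ℝ) ω =>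
    (∀ p i j, |J p i j| ≤ L) ∧ |α n ω - bq (J 0) (y n ω) (z n ω)| ≤ L / 2 ^ k n ∧
      |β n ω - bq (J 1) (y n ω) (z n ω)| ≤ L / 2 ^ k n

/-- Closedness in a planar web. -/
def Clo : Prop := ∀ {Ω T : ℕ → Type} (P : ∀ n, FP (Ω n)) (Θ : ∀ n, Ω n → T n)
  (a b φ u α β u' α' β' : RV Ω) (A B : ∀ n, Ω n → Fin 2 → Fin 3 → ℝ) (M R k : ℕ → ℕ)
  (L : ℕ → ℝ) (ε₀ : ℝ), Big M → Frac R M → Frac k R → 0 < ε₀ → Sub M L →
  Ln P b (fun n ω => (a n ω, Θ n ω)) φ u α β M R →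
  Ln P a (fun n ω => (b n ω, Θ n ω)) φ u' α' β' M R →
  NG1 P (fun n ω => (a n ω, b n ω, Θ n ω)) φ R ε₀ →
  (∀ᶠ n in UF, Fn (P n) (A n) (Θ n) ∧ Fn (P n) (B n) (Θ n)) →
  Whp P (fun n ω => (∀ p i, |A n ω p i| ≤ L n ∧ |B n ω p i| ≤ L n) ∧
    |α n ω - ∑ i, A n ω 0 i * a n ω ^ (i : ℕ)| ≤ L n / 2 ^ k n ∧
    |β n ω - ∑ i, A n ω 1 i * a n ω ^ (i : ℕ)| ≤ L n / 2 ^ k n ∧
    |α' n ω - ∑ i, B n ω 0 i * b n ω ^ (i : ℕ)| ≤ L n / 2 ^ k n ∧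
    |β' n ω - ∑ i, B n ω 1 i * b n ω ^ (i : ℕ)| ≤ L n / 2 ^ k n) →
  ∃ L', Sub M L' ∧ Whp P fun n ω => ∀ p q : Fin 2,
    |A n ω p q.succ - B n ω q p.succ| ≤ L' n / 2 ^ k n

/-- The potential of a web over a base of dimension three. -/
def Pot : Prop := ∀ {Ω T : ℕ → Type} (P : ∀ n, FP (Ω n)) (Θ : ∀ n, Ω n → T n)
  (x y z φ u α β u' α' β' u'' α'' β'' : RV Ω) (M R : ℕ → ℕ) (ε₀ : ℝ),
  W3 P Θ x y z φ u α β u' α' β' u'' α'' β'' M R ε₀ →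
  ∃ k, Frac k R ∧ Fit P Θ M fun n L (C : Fin 3 → Fin 3 → Fin 3 → ℝ) ω =>
    (∀ i j l, |C i j l| ≤ L) ∧
    |φ n ω - tq C (x n ω) (y n ω) (z n ω) - (u n ω - tq C 0 (y n ω) (z n ω))| ≤ L / 2 ^ k n ∧
    |φ n ω - tq C (x n ω) (y n ω) (z n ω) - (u' n ω - tq C (x n ω) 0 (z n ω))| ≤ L / 2 ^ k n ∧
    |φ n ω - tq C (x n ω) (y n ω) (z n ω) - (u'' n ω - tq C (x n ω) (y n ω) 0)| ≤ L / 2 ^ k n

/-- The potential of a planar web. -/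
def Pot2 : Prop := ∀ {Ω T : ℕ → Type} (P : ∀ n, FP (Ω n)) (Θ : ∀ n, Ω n → T n)
  (a b φ u α β u' α' β' : RV Ω) (M R : ℕ → ℕ) (ε₀ : ℝ), Big M → Frac R M → 0 < ε₀ → ε₀ ≤ 1 →
  Ln P b (fun n ω => (a n ω, Θ n ω)) φ u α β M R →
  Ln P a (fun n ω => (b n ω, Θ n ω)) φ u' α' β' M R →
  NG1 P (fun n ω => (a n ω, b n ω, Θ n ω)) φ R ε₀ →
  ∃ k, Frac k R ∧ Fit P Θ M fun n L (C : Fin 3 → Fin 3 → ℝ) ω => (∀ i j, |C i j| ≤ L) ∧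
    |φ n ω - bq C (a n ω) (b n ω) - (u n ω - bq C (a n ω) 0)| ≤ L / 2 ^ k n ∧
    |φ n ω - bq C (a n ω) (b n ω) - (u' n ω - bq C 0 (b n ω))| ≤ L / 2 ^ k n

/-- An invariant `c` of the curves is independent of the coordinate along the curves. -/
def Inv : Prop := ∀ {Ω Γ : ℕ → Type} (P : ∀ n, FP (Ω n)) (G : ∀ n, Ω n → Γ n)
  (x φ u α β c E : RV Ω) (M R k : ℕ → ℕ) (L : ℕ → ℝ), Big M → (∀ n, k n ≤ M n) → Sub M L →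
  Ln P x G φ u α β M R →
  (∀ᶠ n in UF, Fn (P n) (E n) (G n) ∧ ∀ ω ∈ (P n).S, |c n ω| ≤ L n) →
  Whp P (fun n ω => |c n ω - (u n ω - E n ω)| ≤ L n / 2 ^ k n) →
  Ful P x (fun n ω => (fl1 (k n) (c n ω), G n ω)) M

/-! ### Rows -/

def OfDenP : Prop := Spr → DenP
def OfTStep : Prop := Cover → TStep
def OfRect : Prop := Cover → DenP → NGx → Rect
def OfTen : Prop := Spr → TStep → Rect → Ten
def OfClo : Prop := Spr → DenP → NGx → Clo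
def OfPot : Prop := Spr → Ten → Clo → Pot
def OfPot2 : Prop := Spr → TStep → Rect → Clo → Pot2

end Pool.Agent.MP_5168f5_an.R4.Web
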