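import Pool.Agent.MP_5168f5_an.R4.SpecW

/-! Planar webs whose columns are only full in strips. -/

namespace Pool.Agent.MP_5168f5_an.R4.Web

open H19 H17S H17F Filter NCx

/-- A curve along `x` that is full in the strips of width `2^{-s}`. -/
structure LnS {Ω Γ : ℕ → Type} (P : ∀ n, FP (Ω n)) (x : RV Ω) (G : ∀ n, Ω n → Γ n)
    (φ u α β : RV Ω) (M R s : ℕ → ℕ) : Prop where
  grid : Grid P x M
  bd : ∃ L, Sub M L ∧ ∀ᶠ n in UF, ∀ ω ∈ (P n).S, |φ n ω| ≤ L n ∧ |u n ω| ≤ L n ∧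
    |α n ω| ≤ L n ∧ |β n ω| ≤ L n ∧
    |φ n ω - (u n ω + α n ω * x n ω + β n ω * x n ω ^ 2)| ≤ L n / 2 ^ R n
  ful : Le M (fun n => (M n - s n : ℝ) * lg) fun n => ch (P n) (fun ω => fl1 (M n) (x n ω))
    fun ω => (u n ω, α n ω, β n ω, G n ω, fl1 (s n) (x n ω))
  sv : Sm M fun n => ch (P n) (fun ω => (α n ω, β n ω)) (G n)

/-- The slope of the columns is quadratic along the rows. -/
def RectS : Prop := ∀ {Ω T : ℕ → Type} (P : ∀ n, FP (Ω n)) (Θ : ∀ n, Ω n → T n)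
  (a b φ u α β u' α' β' : RV Ω) (M R s m : ℕ → ℕ) (ε₀ : ℝ), Big M → Frac R M → Frac m R →
  (∀ n, m n ≤ s n ∧ s n + m n ≤ R n) → 0 < ε₀ → ε₀ ≤ 1 →
  Ln P b (fun n ω => (a n ω, Θ n ω)) φ u α β M R →
  LnS P a (fun n ω => (b n ω, Θ n ω)) φ u' α' β' M R s →
  NG1 P (fun n ω => (a n ω, b n ω, Θ n ω)) φ R ε₀ →
  ∃ k, Frac k R ∧ Rep P (fun n ω => (a n ω, Θ n ω)) M
    (fun n ω => α' n ω + 2 * β' n ω * a n ω) (fun (j : Fin 3) n ω => b n ω ^ (j : ℕ)) k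

/-- Closedness. -/
def CloS : Prop := ∀ {Ω T T₀ : ℕ → Type} (P : ∀ n, FP (Ω n)) (Θ : ∀ n, Ω n → T n)
  (Θ₀ : ∀ n, Ω n → T₀ n) (a b φ u α β u' α' β' : RV Ω) (A B : ∀ n, Ω n → Fin 2 → Fin 3 → ℝ)
  (M R k s m : ℕ → ℕ) (L : ℕ → ℝ) (ε₀ : ℝ), Big M → Frac R M → Frac m R →
  (∀ n, m n ≤ s n ∧ s n + m n ≤ k n ∧ k n ≤ R n) → 0 < ε₀ → Sub M L →
  Ln P b (fun n ω => (a n ω, Θ n ω)) φ u α β M R →
  LnS P a (fun n ω => (b n ω, Θ n ω)) φ u' α' β' M R s →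
  NG1 P (fun n ω => (a n ω, b n ω, Θ n ω)) φ R ε₀ → Ful P a Θ₀ M →
  (∀ᶠ n in UF, Fn (P n) (A n) (Θ₀ n) ∧ Fn (P n) (B n) (Θ₀ n) ∧ Fn (P n) (Θ₀ n) (Θ n)) →
  Whp P (fun n ω => (∀ p i, |A n ω p i| ≤ L n ∧ |B n ω p i| ≤ L n) ∧
    |α n ω - ∑ i, A n ω 0 i * a n ω ^ (i : ℕ)| ≤ L n / 2 ^ k n ∧
    |β n ω - ∑ i, A n ω 1 i * a n ω ^ (i : ℕ)| ≤ L n / 2 ^ k n ∧
    |α' n ω - ∑ i, B n ω 0 i * b n ω ^ (i : ℕ)| ≤ L n / 2 ^ k n ∧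
    |β' n ω - ∑ i, B n ω 1 i * b n ω ^ (i : ℕ)| ≤ L n / 2 ^ k n) →
  ∃ L', Sub M L' ∧ Whp P fun n ω => ∀ p q : Fin 2,
    |A n ω p q.succ - B n ω q p.succ| ≤ L' n / 2 ^ m n

/-- A passenger `κ`: constant along the rows and along the columns inside strips, and given it
the fibre coordinate has no full window down to depth `R`. -/
def Pas {Ω T : ℕ → Type} (P : ∀ n, FP (Ω n)) (Θ : ∀ n, Ω n → T n)
    (a b φ u α β u' α' β' : RV Ω) (M R : ℕ → ℕ) (ε₀ : ℝ) : Prop :=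
  ∃ (K : ℕ → Type) (κ : ∀ n, Ω n → K n) (s m : ℕ → ℕ), Frac m R ∧
    (∀ n, m n ≤ s n ∧ s n + m n ≤ R n) ∧
    Ful P b (fun n ω => (u n ω, α n ω, β n ω, a n ω, κ n ω, Θ n ω)) M ∧
    (Le M (fun n => (M n - s n : ℝ) * lg) fun n => ch (P n) (fun ω => fl1 (M n) (a n ω)) fun ω =>
      (u' n ω, α' n ω, β' n ω, (b n ω, κ n ω, Θ n ω), fl1 (s n) (a n ω))) ∧
    NG1 P (fun n ω => (a n ω, b n ω, κ n ω, Θ n ω)) φ R ε₀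

/-- The potential of a planar web with passengers. -/
def Pot2P : Prop := ∀ {Ω T : ℕ → Type} (P : ∀ n, FP (Ω n)) (Θ : ∀ n, Ω n → T n)
  (a b φ u α β u' α' β' : RV Ω) (M R : ℕ → ℕ) (ε₀ : ℝ), Big M → Frac R M → 0 < ε₀ → ε₀ ≤ 1 →
  Ln P b (fun n ω => (a n ω, Θ n ω)) φ u α β M R →
  Ln P a (fun n ω => (b n ω, Θ n ω)) φ u' α' β' M R →
  (∀ R', Frac R' R → Pas P Θ a b φ u α β u' α' β' M R' ε₀) →
  Pas P Θ b a φ u' α' β' u α β M R ε₀ →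
  ∃ k, Frac k R ∧ Fit P Θ M fun n L (C : Fin 3 → Fin 3 → ℝ) ω => (∀ i j, |C i j| ≤ L) ∧
    |φ n ω - bq C (a n ω) (b n ω) - (u n ω - bq C (a n ω) 0)| ≤ L / 2 ^ k n ∧
    |φ n ω - bq C (a n ω) (b n ω) - (u' n ω - bq C 0 (b n ω))| ≤ L / 2 ^ k n

def OfRectS : Prop := Cover → DenP → NGx → RectS
def OfCloS : Prop := Spr → DenP → NGx → CloS
def OfPot2P : Prop := Spr → TStep → RectS → CloS → Pot2P

end Pool.Agent.MP_5168f5_an.R4.Web
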