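import Pool.Agent.MP_5168f5_an.R4.USpec

/-! Slopes of small entropy are constant along the lines. -/

namespace Pool.Agent.MP_5168f5_an.R4.U

open H19 H17S H17F Filter K31

namespace UConstA

theorem diff (k : ℕ) (x y : ℝ) : |x - y - (rd k x - rd k y)| ≤ 2 / 2 ^ k := by
  have h1 := abs_le.1 (abs_sub_rd k x)
  have h2 := abs_le.1 (abs_sub_rd k y)
  rw [show (2 : ℝ) / 2 ^ k = 1 / 2 ^ k + 1 / 2 ^ k by ring, abs_le]
  constructor <;> linarith [h1.1, h1.2, h2.1, h2.2]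

theorem kill (k : ℕ) {b w L L0 : ℝ} {T T' : ℝ × ℝ} (h : |b - T.1 - T.2 * w| ≤ L / 2 ^ k)
    (h' : |b - T'.1 - T'.2 * w| ≤ L / 2 ^ k) (hw : |w| ≤ L0) :
    |rd k T.1 - rd k T'.1 + (rd k T.2 - rd k T'.2) * w| ≤ (2 * L + 2 + 2 * L0) / 2 ^ k := by
  have h1 := abs_le.1 (diff k T.1 T'.1)
  have h2 : |(T.2 - T'.2 - (rd k T.2 - rd k T'.2)) * w| ≤ 2 / 2 ^ k * L0 := by
    rw [abs_mul]
    exact mul_le_mul (diff k _ _) hw (abs_nonneg _) (by positivity)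
  rw [show (2 * L + 2 + 2 * L0) / 2 ^ k = L / 2 ^ k + L / 2 ^ k + 2 / 2 ^ k + 2 / 2 ^ k * L0 by
    ring]
  rw [abs_le] at h h' h2 ⊢
  constructor <;> linarith [h1.1, h1.2, h2.1, h2.2, h.1, h.2, h'.1, h'.2]

theorem back (k : ℕ) {x y A B : ℝ} (h : |rd k x - rd k y| ≤ A * (B / 2 ^ k)) :
    |x - y| ≤ (A * B + 2) / 2 ^ k := by
  have h1 := abs_le.1 (diff k x y)
  rw [show (A * B + 2) / 2 ^ k = A * (B / 2 ^ k) + 2 / 2 ^ k by ring]
  rw [abs_le] at h ⊢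
  constructor <;> linarith [h1.1, h1.2, h.1, h.2]

theorem ent {X : U3} {τ : ℕ → ℕ} {D R : ℕ} {L : ℝ} (a : X.Alg τ D R L) {α β : Type}
    (F : X.Ω → α) (G : X.Ω → β) :
    mi X.P2 (fun c => (F c.1, F c.2)) (fun c => G c.1) (fun c => X.y c.1) ≤
      ch X.P F (X.S 0) + ch X.P F (X.S 0) := by
  refine (mi_le _ _ _).trans ((ch_subadd _ _ _).trans (add_le_add ?_ ?_))
  · rw [← (kg.fst X.P X.P X.l X.l).ch_id F (X.S 0)]
    exact ch_anti fun c hc c' hc' e =>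
      a.sy _ ((mem_copy _ _ c).1 hc).1 _ ((mem_copy _ _ c').1 hc').1 e
  · rw [← (kg.snd X.P X.P X.l X.l (Law.rfl _)).ch_id F (X.S 0)]
    refine ch_anti fun c hc c' hc' e => ?_
    obtain ⟨a1, a2, a3⟩ := (mem_copy _ _ c).1 hc
    obtain ⟨b1, b2, b3⟩ := (mem_copy _ _ c').1 hc'
    exact (a.sl _ a2 _ a1 a3).trans ((a.sy _ a1 _ b1 e).trans (a.sl _ b2 _ b1 b3).symm)

end UConstA

open UConstA in
theorem rowConst : RConst := by
  intro lowv rev γ e η X R m κ L T h hL hs hw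
  obtain ⟨L0, s0, alg⟩ := h.alg
  have d1 := dnS_fst (PP X) (PP X) (fun n => (X n).l) fun n => (X n).l
  have d2 := dnS_snd (PP X) fun n => (X n).l
  have s1 : Sub R fun n => 2 * L n + 2 + 2 * L0 n :=
    ((hL.const_mul h.big one_le_two).add (h.big.sub one_le_two) h.big).add
      (s0.const_mul h.big one_le_two) h.big
  let F : ∀ n, (X n).Ω → ℤ × ℤ := fun n ω => (fl1 (κ n) (T n ω).1, fl1 (κ n) (T n ω).2)
  let U : ∀ n, (X n).Ω × (X n).Ω → ℝ × ℝ := fun n c =>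
    (rd (κ n) (T n c.1).1 - rd (κ n) (T n c.2).1, rd (κ n) (T n c.1).2 - rd (κ n) (T n c.2).2)
  have k1 : ∀ᶠ n in UF, Fn (X n).P2 (U n) (fun c => (F n c.1, F n c.2)) ∧
      ∀ c ∈ (X n).P2.S, |(X n).w c.1| ≤ L0 n := alg.mono fun n a => ⟨fun c _ c' _ e => by
    simp only [F, U, Prod.mk.injEq] at e ⊢
    rw [rd_congr e.1.1, rd_congr e.1.2, rd_congr e.2.1, rd_congr e.2.2]
    exact ⟨rfl, rfl⟩, fun c hc => (a.bd _ ((mem_copy _ _ c).1 hc).1).2.1⟩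
  have k2 : ∀ α : ℕ → ℕ, (∀ n, α n ≤ R n) → Low (fun n => (X n).P2)
      (fun n c => fl1 (α n) ((X n).w c.1)) (fun n c => (F n c.1, F n c.2)) R
      fun n => η * α n * lg := fun α hα =>
    lowv (PP X) (fun n ω => fl1 (α n) ((X n).w ω)) (fun n => (X n).y) (fun n => (X n).P2)
      (fun _ => Prod.fst) (fun n c => (F n c.1, F n c.2)) R _ h.big (h.br α hα) d1
      ((hs.add hs).mono (alg.mono fun n a => ent a (F n) fun ω => fl1 (α n) ((X n).w ω)))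
  have k3 : Whp (fun n => (X n).P2) fun n c =>
      |(U n c).1 + (U n c).2 * (X n).w c.1| ≤ (2 * L n + 2 + 2 * L0 n) / 2 ^ κ n := by
    refine ((d1.whp hw).and (d2.whp hw)).mono (alg.mono fun n a c hc u => ?_)
    obtain ⟨a1, a2, a3⟩ := (mem_copy _ _ c).1 hc
    obtain ⟨u1, u2⟩ := u
    rw [a.bl _ a2 _ a1 a3, a.wl _ a2 _ a1 a3] at u2
    exact kill _ u1 u2 (a.bd _ a1).2.1
  obtain ⟨L', s2, k⟩ := rev _ _ _ U R R η _ L0 h.big h.par.2.2.2 Frac.rfl s0 k1 k2 k3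
  exact ⟨_, (s2.mul s1).add (h.big.sub one_le_two) h.big,
    k.mono (Eventually.of_forall fun n c _ u => ⟨back _ u.1, back _ u.2⟩)⟩

end Pool.Agent.MP_5168f5_an.R4.U
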