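import Pool.Agent.MP_5168f5_an.R4.USpec

/-! The height of the crossing of two lines is full. -/

namespace Pool.Agent.MP_5168f5_an.R4.U

open H19 H17S H17F Filter K31

namespace UCrFA

variable {X : U3} {τ : ℕ → ℕ} {D R q ρ B σ : ℕ} {L : ℝ}

/-- The fine direction is nearly independent of the cell given the tube. -/
theorem tube (h : X.Alg τ D R L) (hL : 0 ≤ L) (hq : q ≤ B) (hB : B ≤ R) :
    ch X.P (fun ω => fl1 B (X.w ω)) (X.Xq q) ≤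
      ch X.P (fun ω => fl1 B (X.w ω)) (fun ω => (X.S R ω, X.Xq q ω)) +
        mi X.P (fun ω => fl1 R (X.w ω)) (X.S R) (X.S 0) + Real.log (2 * (L + 2) + 3) := by
  have h1 : ch X.P (fun ω => fl1 B (X.w ω)) (X.Xq q) ≤
      ch X.P (fun ω => fl1 B (X.w ω)) fun ω => (fl1 q (X.w ω), X.S 0 ω) :=
    ch_anti fun a _ b _ e => congrArg (·.2) e
  have h2 := mi_cond (P := X.P) (F := X.S R) (G := fun ω => fl1 B (X.w ω)) (K := X.S 0)
    (K' := fun ω => (fl1 q (X.w ω), X.S 0 ω)) (Fn.snd _ _)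
    fun v _ w _ c => Prod.ext (fl1_eq_of_le hq (Prod.mk.inj c).1) (Prod.mk.inj c).2
  have h3 : mi X.P (X.S R) (fun ω => fl1 B (X.w ω)) (X.S 0) ≤
      mi X.P (X.S R) (fun ω => fl1 R (X.w ω)) (X.S 0) :=
    mi_mono fun v _ w _ c => fl1_eq_of_le hB (Prod.mk.inj c).1
  have h4 := ch_drop (P := X.P) (fun ω => fl1 B (X.w ω)) (fun ω => fl1 q (X.a ω))
    fun ω => (X.S R ω, fl1 q (X.w ω), X.S 0 ω)
  have h5 : ch X.P (fun ω => fl1 B (X.w ω))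
      (fun ω => (fl1 q (X.a ω), X.S R ω, fl1 q (X.w ω), X.S 0 ω)) ≤
      ch X.P (fun ω => fl1 B (X.w ω)) fun ω => (X.S R ω, X.Xq q ω) :=
    ch_anti fun a _ b _ e => by simp only [U3.Xq, Prod.mk.injEq] at e ⊢; tauto
  have h6 := ch_near1 (P := X.P) (x := X.a) (G := fun ω => (X.S R ω, fl1 q (X.w ω), X.S 0 ω))
    (j := q) (L := L + 2) (by positivity) fun a ha b hb e => by
      simp only [Prod.mk.injEq] at e
      have e1 := near_of_fl1 (h.tS (hq.trans hB) le_rfl a ha b hb e.1)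
      have e2 := near_of_fl1 (h.xS (hq.trans hB) le_rfl a ha b hb e.1)
      have e3 : |X.w a * (X.t a - X.t b)| ≤ L * (1 / 2 ^ q) := by
        rw [abs_mul]; exact mul_le_mul (h.bd a ha).2.1 e1 (abs_nonneg _) hL
      have e4 : |(X.w a - X.w b) * X.t b| ≤ 1 / 2 ^ q * 1 := by
        rw [abs_mul]
        exact mul_le_mul (near_of_fl1 e.2.1) (h.abs_t hb) (abs_nonneg _) (by positivity)
      have e5 : (L + 2) / 2 ^ q = L * (1 / 2 ^ q) + 2 * (1 / 2 ^ q) := by ring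
      simp only [U3.x] at e2
      rw [e5]
      rw [abs_le] at *
      constructor <;> linarith [e2.1, e2.2, e3.1, e3.2, e4.1, e4.2]
  rw [mi_symm (X.S R) fun ω => fl1 R (X.w ω)] at h3
  rw [mi_symm, mi] at h2
  linarith

theorem key (h : X.Alg τ D R L) (hL : 0 ≤ L) (hq : q ≤ B) (hB : B ≤ R) (s : ℕ) :
    ch X.P (fun ω => fl1 s (X.t ω)) X.l ≤
      ch (X.P5 R q ρ B σ) (fun c => fl1 s (X.t c.1.1)) (X.K5 R q ρ B σ) +
      mi X.P (fun ω => fl1 R (X.w ω)) (X.S R) (X.S 0) + Real.log (2 * (L + 2) + 3) +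
      2 * (ch X.P2 (fun c => fl1 σ (X.μ R ρ B c)) (fun c => X.Xq q c.1) +
        ch X.P2 (fun c => fl1 σ (X.G0 R ρ B σ c)) (fun c => X.Xq q c.1) +
        ch X.P2 (fun c => fl1 (q + σ) (X.b0 R q ρ B σ c)) fun c =>
          (fl1 q (X.a c.1), fl1 B (X.w c.1), X.S 0 c.1)) := by
  have l1 : Law (X.P5 R q ρ B σ) Prod.fst X.P2 id := kg.fst _ _ _ _
  have l2 : Law (X.P5 R q ρ B σ) Prod.snd X.P2 id := kg.snd _ _ _ _ (Law.rfl _)
  have l0 : Law X.P2 Prod.fst X.P id := kg.fst _ _ _ _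
  have m : ∀ c ∈ (X.P5 R q ρ B σ).S, c.1.1 ∈ X.P.S ∧ X.Xq q c.2.1 = X.Xq q c.1.1 := fun c hc =>
    ⟨l0.mem (l1.mem hc), congrArg (·.2.1) ((mem_copy _ _ c).1 hc).2.2⟩
  have fx : Fn (X.P5 R q ρ B σ) (fun c => X.Xq q c.1.1) fun c => X.l c.1.1 := fun a ha b hb e => by
    simp only [U3.Xq, h.al _ (m a ha).1 _ (m b hb).1 e, h.wl _ (m a ha).1 _ (m b hb).1 e,
      h.sl _ (m a ha).1 _ (m b hb).1 e]
  have fw : Fn (X.P5 R q ρ B σ) (fun c => fl1 B (X.w c.1.1)) fun c => X.l c.1.1 :=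
    fun a ha b hb e => by simp only [h.wl _ (m a ha).1 _ (m b hb).1 e]
  set Λ : (X.Ω × X.Ω) × X.Ω × X.Ω → ℤ × X.Λ := fun c => (fl1 B (X.w c.2.1), X.l c.1.1) with hΛ
  have a1 : ch (X.P5 R q ρ B σ) (fun c => fl1 (q + σ) (X.b0 R q ρ B σ c.1)) Λ ≤ _ :=
    (ch_anti fun a ha b hb e => by
      have e1 := fx a ha b hb (Prod.mk.inj e).2
      simp only [U3.Xq, Prod.mk.injEq] at e1 ⊢
      exact ⟨e1.1, fw a ha b hb (Prod.mk.inj e).2, e1.2.2⟩).trans_eq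
    (l1.ch_id (fun c => fl1 (q + σ) (X.b0 R q ρ B σ c)) fun c =>
      (fl1 q (X.a c.1), fl1 B (X.w c.1), X.S 0 c.1))
  have a2 : ch (X.P5 R q ρ B σ) (fun c => fl1 (q + σ) (X.b0 R q ρ B σ c.2)) Λ ≤ _ :=
    (ch_anti fun a ha b hb e => by
      have e1 := ((m a ha).2.trans (fx a ha b hb (Prod.mk.inj e).2)).trans (m b hb).2.symm
      simp only [U3.Xq, Prod.mk.injEq] at e1 ⊢
      exact ⟨e1.1, (Prod.mk.inj e).1, e1.2.2⟩).trans_eq
    (l2.ch_id (fun c => fl1 (q + σ) (X.b0 R q ρ B σ c)) fun c =>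
      (fl1 q (X.a c.1), fl1 B (X.w c.1), X.S 0 c.1))
  have a3 : ch (X.P5 R q ρ B σ) (fun c => fl1 σ (X.μ R ρ B c.1)) Λ ≤ _ :=
    (ch_anti (fx.right _)).trans_eq
      (l1.ch_id (fun c => fl1 σ (X.μ R ρ B c)) fun c => X.Xq q c.1)
  have a4 : ch (X.P5 R q ρ B σ) (fun c => fl1 σ (X.G0 R ρ B σ c.1)) Λ ≤ _ :=
    (ch_anti (fx.right _)).trans_eq
      (l1.ch_id (fun c => fl1 σ (X.G0 R ρ B σ c)) fun c => X.Xq q c.1)
  have a5 : ch (X.P5 R q ρ B σ) (X.K5 R q ρ B σ) Λ ≤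
      ch (X.P5 R q ρ B σ) (fun c => fl1 (q + σ) (X.b0 R q ρ B σ c.1)) Λ +
      (ch (X.P5 R q ρ B σ) (fun c => fl1 (q + σ) (X.b0 R q ρ B σ c.2)) Λ +
      (ch (X.P5 R q ρ B σ) (fun c => fl1 σ (X.μ R ρ B c.1)) Λ +
      ch (X.P5 R q ρ B σ) (fun c => fl1 σ (X.G0 R ρ B σ c.1)) Λ)) :=
    le_trans (ch_mono fun a ha b hb e => by
      simp only [hΛ, U3.K5, Prod.mk.injEq] at e ⊢
      exact ⟨e.1.1, e.1.2.1, fw a ha b hb e.2.2, e.2.1, e.1.2.2⟩)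
      ((ch_subadd _ _ _).trans (add_le_add le_rfl ((ch_subadd _ _ _).trans
        (add_le_add le_rfl (ch_subadd _ _ _)))))
  have b1 := ch_tri' (P := X.P5 R q ρ B σ) (fun c => fl1 s (X.t c.1.1)) Λ (X.K5 R q ρ B σ)
  have b2 : ch (X.P5 R q ρ B σ) (fun c => fl1 s (X.t c.1.1)) (fun c => X.l c.1.1) = _ :=
    (l1.ch_id (fun c => fl1 s (X.t c.1)) fun c => X.l c.1).trans
      (l0.ch_id (fun ω => fl1 s (X.t ω)) X.l)
  have b3 := ch_symm (P := X.P5 R q ρ B σ) (fun c => fl1 s (X.t c.1.1))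
    (fun c => fl1 B (X.w c.2.1)) fun c => X.l c.1.1
  have b4 : ch (X.P5 R q ρ B σ) (fun c => fl1 B (X.w c.2.1)) (fun c => X.l c.1.1) ≤ _ :=
    (ch_anti fun a ha b hb e => ((m a ha).2.trans (fx a ha b hb e)).trans (m b hb).2.symm).trans_eq
      ((l2.ch_id (fun c => fl1 B (X.w c.1)) fun c => X.Xq q c.1).trans
        (l0.ch_id (fun ω => fl1 B (X.w ω)) (X.Xq q)))
  have b5 : ch X.P2 (fun c => fl1 B (X.w c.1)) (X.V5 R q ρ B σ) ≤
      ch (X.P5 R q ρ B σ) (fun c => fl1 B (X.w c.2.1)) fun c => (fl1 s (X.t c.1.1), X.l c.1.1) :=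
    (kg.mk1 X.P2 X.P2 _ _ (fun c => fl1 B (X.w c.1)) id (Law.rfl _)
      (Fn.comp (X.V5 R q ρ B σ) id)).symm.trans_le
      (ch_anti fun a _ b _ e => by rw [show a.1 = b.1 from e])
  have b6 := ch_tri' (P := X.P2) (fun c => fl1 B (X.w c.1)) (fun c => (X.S R c.1, X.Xq q c.1))
    (X.V5 R q ρ B σ)
  have b7 : ch X.P2 (X.V5 R q ρ B σ) (fun c => (X.S R c.1, X.Xq q c.1)) ≤
      ch X.P2 (fun c => fl1 σ (X.μ R ρ B c)) (fun c => X.Xq q c.1) +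
        ch X.P2 (fun c => fl1 σ (X.G0 R ρ B σ c)) fun c => X.Xq q c.1 :=
    le_trans (ch_le (fun a _ b _ e => by
      simp only [U3.V5, Prod.mk.injEq] at e ⊢; tauto) (Fn.snd _ _)) (ch_subadd _ _ _)
  have b8 := l0.ch_id (fun ω => fl1 B (X.w ω)) fun ω => (X.S R ω, X.Xq q ω)
  have b9 := tube h hL hq hB
  linarith

end UCrFA

theorem rowCrF : RCrF := by
  intro hT γ e η X R m q ρ B L h σ hσ h2 h3 h4
  have hR := h.tan.big
  refine Le.of4 (hT.ht γ e η X R m (fun n => σ n / 2) h.tan fun n =>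
    ((Nat.div_le_self _ _).trans (hσ n)).trans (h.frac.1 n)) h.tan.typ
    ((h.sub.add (hR.sub one_le_two) hR).log3 hR 1)
    (((Sm.add h2 h3).add h4).smul zero_le_two) (h.alg.mono fun n k => ?_)
  have := UCrFA.key (q := q n) (ρ := ρ n) (σ := σ n) k (h.sub.pos n).le
    ((Nat.le_add_right _ _).trans (h.le n).1) (h.le n).2.1 (σ n / 2)
  linarith

end Pool.Agent.MP_5168f5_an.R4.U
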