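import Pool.Agent.MP_5168f5_an.R4.USpec

/-! Kakeya sets in four dimensions, the step for planes: crossing lines are separated. -/

namespace Pool.Agent.MP_5168f5_an.R4.U

open H19 H17S H17F Filter K31

namespace UCrSA

theorem near {a w t a' w' t' L e : ℝ} (hL : 1 ≤ L) (hw : |w'| ≤ L) (ht : |t| ≤ 1)
    (h1 : |a + w * t - (a' + w' * t')| ≤ e) (h2 : |w - w'| ≤ e) (h3 : |t - t'| ≤ e) :
    |a - a'| ≤ 3 * L * e := by
  have e0 : 0 ≤ e := (abs_nonneg _).trans h1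
  have k1 : |(w - w') * t| ≤ e * 1 := by
    rw [abs_mul]; exact mul_le_mul h2 ht (abs_nonneg _) e0
  have k2 : |w' * (t - t')| ≤ L * e := by
    rw [abs_mul]; exact mul_le_mul hw h3 (abs_nonneg _) (by linarith)
  have k3 : e ≤ L * e := le_mul_of_one_le_left e0 hL
  rw [abs_le] at h1 k1 k2 ⊢
  constructor <;> linarith [h1.1, h1.2, k1.1, k1.2, k2.1, k2.2]

/-- The information of the shared data on the fine direction. -/
theorem inf (X : U3) {τ : ℕ → ℕ} {D R : ℕ} {L : ℝ} (h : X.Alg τ D R L) (q ρ B σ k : ℕ) :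
    mi X.P2 (X.V5 R q ρ B σ) (fun c => fl1 k (X.w c.1)) (fun c => (X.y c.1, fl1 q (X.w c.1))) ≤
      X.lk (X.S R) +
        ch X.P2 (fun c => fl1 q (X.a c.1)) (fun c => (X.S R c.1, fl1 q (X.w c.1))) +
        ch X.P2 (fun c => fl1 σ (X.μ R ρ B c)) (fun c => X.Xq q c.1) +
        ch X.P2 (fun c => fl1 σ (X.G0 R ρ B σ c)) fun c => X.Xq q c.1 := by
  have l := kg.fst X.P X.P X.l X.l
  have w : ∀ j, Fn X.P2 (fun c => fl1 j (X.w c.1)) fun c => (X.l c.1, X.y c.1) := fun j =>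
    (l.fn ((Fn.comp (fl1 j) X.w).trans h.wl)).left _
  have h1 : mi X.P2 (fun c => X.S R c.1) (fun c => fl1 k (X.w c.1))
      (fun c => (X.y c.1, fl1 q (X.w c.1))) ≤ X.lk (X.S R) :=
    (mi_right (Fn.fst _ _) ((Fn.snd _ _).pair (w q)) (w k)).trans_eq (l.mi_id (X.S R) X.l X.y)
  have h2 := mi_near (P := X.P2) (fun c => fl1 k (X.w c.1)) (X.V5 R q ρ B σ)
    (fun c => X.S R c.1) fun c => (X.y c.1, fl1 q (X.w c.1))
  have h3 : ch X.P2 (X.V5 R q ρ B σ) (fun c => (X.S R c.1, X.y c.1, fl1 q (X.w c.1))) ≤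
      ch X.P2 (fun c => (X.Xq q c.1, fl1 σ (X.μ R ρ B c), fl1 σ (X.G0 R ρ B σ c)))
        fun c => (X.S R c.1, fl1 q (X.w c.1)) :=
    ch_le (fun _ _ _ _ e => Prod.ext (congrArg (·.2.1) e) (congrArg (·.1) e))
      fun _ _ _ _ e => Prod.ext (congrArg (·.1) e) (congrArg (·.2.2) e)
  have h4 : ch X.P2 (fun c => X.Xq q c.1) (fun c => (X.S R c.1, fl1 q (X.w c.1))) ≤
      ch X.P2 (fun c => fl1 q (X.a c.1)) fun c => (X.S R c.1, fl1 q (X.w c.1)) :=
    ch_mono fun a ha b hb e => Prod.ext (congrArg (·.1) e) (Prod.ext (congrArg (·.2.2) e)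
      (h.nest 0 R (Nat.zero_le _) le_rfl _ (l.mem ha) _ (l.mem hb) (congrArg (·.2.1) e)))
  have h5 : ch X.P2 (fun c => (fl1 σ (X.μ R ρ B c), fl1 σ (X.G0 R ρ B σ c)))
      (fun c => (X.Xq q c.1, X.S R c.1, fl1 q (X.w c.1))) ≤ _ :=
    (ch_anti (Fn.fst _ _)).trans (ch_subadd _ _ _)
  have h6 := ch_chain (P := X.P2) (fun c => X.Xq q c.1)
    (fun c => (fl1 σ (X.μ R ρ B c), fl1 σ (X.G0 R ρ B σ c))) fun c => (X.S R c.1, fl1 q (X.w c.1))
  rw [mi_symm] at h1 ⊢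
  linarith

end UCrSA

open UCrSA in
theorem rowCrS : RCrS := by
  intro h1 hV γ e η X R m q ρ B L r σ α δ hδ hL h2 h3
  have b := r.tan.big
  have h4 : Sm R fun n => ch (X n).P2 (fun c => fl1 (q n) ((X n).a c.1)) fun c =>
      ((X n).S (R n) c.1, fl1 (q n) ((X n).w c.1)) := by
    refine Sm.near1 b (r.sub.const_mul b (C := 3) (by norm_num)) (r.alg.mono fun n a => ?_)
    intro c hc c' hc' k
    have u := ((mem_copy _ _ c).1 hc).1
    have u' := ((mem_copy _ _ c').1 hc').1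
    have i : q n ≤ R n := by have := r.le n; omega
    rw [div_eq_mul_one_div]
    exact near (r.sub.1 n) (a.bd _ u').2.1 (a.abs_t u)
      (near_of_fl1 (a.xS i le_rfl _ u _ u' (congrArg (·.1) k)))
      (near_of_fl1 (congrArg (·.2) k)) (near_of_fl1 (a.tS i le_rfl _ u _ u' (congrArg (·.1) k)))
  have h5 : Sm R fun n => (X n).lk ((X n).S (R n)) := r.tan.up r.tan.lk
  have h6 : Sm R fun n => mi (X n).P2 ((X n).V5 (R n) (q n) (ρ n) (B n) (σ n))
      (fun c => fl1 (q n + α n) ((X n).w c.1)) fun c => ((X n).y c.1, fl1 (q n) ((X n).w c.1)) :=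
    (((h5.add h4).add h2).add h3).mono (r.alg.mono fun n a => inf (X n) a _ _ _ _ _)
  have h7 := hV (PP X) (fun n ω => fl1 (q n + α n) ((X n).w ω))
    (fun n ω => ((X n).y ω, fl1 (q n) ((X n).w ω))) (fun n => (X n).P2) (fun _ => Prod.fst)
    (fun n => (X n).V5 (R n) (q n) (ρ n) (B n) (σ n)) R _ b hL (dnS_fst _ _ _ _) h6
  exact h1 (fun n => (X n).P2) (fun n c => (X n).w c.1)
    (fun n => (X n).V5 (R n) (q n) (ρ n) (B n) (σ n)) R (fun n => q n + α n) δ b hδ h7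

end Pool.Agent.MP_5168f5_an.R4.U
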