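import Pool.Agent.MP_5168f5_an.R4.USpec

/-! The slope of the finest plane is a function of the fine base point. -/

namespace Pool.Agent.MP_5168f5_an.R4.U

open H19 H17S H17F Filter K31

namespace UCraA

theorem fan {Ω β : ℕ → Type} (P : ∀ n, FP (Ω n)) (E : ∀ n, Ω n → Prop) (x : ∀ n, Ω n → ℝ)
    (G : ∀ n, Ω n → β n) {M k : ℕ → ℕ} {L L' : ℕ → ℝ} (hM : Big M) (hk : ∀ n, k n ≤ M n)
    (hL : Sub M L) (hL' : Sub M L') (hw : Whp P E) (h : ∀ᶠ n in UF, ∀ a ∈ (P n).S, |x n a| ≤ L n ∧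
      ∀ b ∈ (P n).S, G n b = G n a → E n b → |x n b - x n a| ≤ L' n / 2 ^ k n) :
    Sm M fun n => ch (P n) (fun ω => fl1 (k n) (x n ω)) (G n) := by
  refine ks.fano P _ _ _ M _ 2 hM
    ((hL'.const_mul hM one_le_two).add (hM.sub (by norm_num : (1 : ℝ) ≤ 3)) hM) hw ?_
  filter_upwards [h, (hL.const_mul hM (by norm_num : (1 : ℝ) ≤ 7)).2 1 one_pos] with n e2 e3
  have l1 := hL.1 n
  have p1 : (1 : ℝ) ≤ 2 ^ k n := one_le_pow₀ one_le_two
  refine ⟨fun a ha => (det_near1 (L := 2 * L n * 2 ^ k n) (by positivity) (fun a ha b hb _ => ?_)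
    a ha).imp fun T hT => ⟨hT.1.trans ?_, hT.2⟩, fun a ha => ⟨Finset.Icc
      (fl1 (k n) (x n a) - ⌈L' n⌉₊) (fl1 (k n) (x n a) + ⌈L' n⌉₊), ?_,
      fun b hb e h => fl1_mem_Icc ?_⟩⟩
  · rw [mul_div_cancel_right₀ _ (by positivity)]
    exact (abs_sub _ _).trans (by linarith [(e2 a ha).1, (e2 b hb).1])
  · have p2 := (two_pow_le_exp (k n)).trans (Real.exp_le_exp.2 (Nat.cast_le.2 (hk n)))
    have p3 := mul_le_mul e3 p2 (by positivity) (Real.exp_pos _).le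
    rw [one_mul, ← Real.exp_add, ← two_mul] at p3
    nlinarith
  · rw [show (Finset.Icc (fl1 (k n) (x n a) - ⌈L' n⌉₊)
      (fl1 (k n) (x n a) + ⌈L' n⌉₊)).card = 2 * ⌈L' n⌉₊ + 1 by rw [Int.card_Icc]; omega]
    push_cast
    linarith [Nat.ceil_lt_add_one (hL'.pos n).le]
  · refine ((e2 a ha).2 b hb e h).trans ?_
    rw [div_eq_mul_inv]
    exact mul_le_mul_of_nonneg_right (Nat.le_ceil _) (by positivity)

theorem abs_mul_le {x y a b : ℝ} (h : |x| ≤ a) (k : |y| ≤ b) : |x * y| ≤ a * b := by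
  rw [abs_mul]
  exact mul_le_mul h k (abs_nonneg _) ((abs_nonneg _).trans h)

theorem slope {p g w₁ w₂ b₁ b₂ p' g' w₁' w₂' b₁' b₂' L L' ε : ℝ} (hL : 1 ≤ L) (hL' : 0 ≤ L')
    (f1 : |b₁ - p - g * w₁| ≤ L * ε) (f2 : |b₂ - p - g * w₂| ≤ L * ε)
    (f3 : |b₁' - p' - g' * w₁'| ≤ L * ε) (f4 : |b₂' - p' - g' * w₂'| ≤ L * ε) (hg : |g'| ≤ L)
    (c1 : |w₁ - w₁'| ≤ ε) (c2 : |w₂ - w₂'| ≤ ε) (c3 : |b₁ - b₁'| ≤ ε) (c4 : |b₂ - b₂'| ≤ ε)
    (s : 1 ≤ L' * |w₁ - w₂|) : |g - g'| ≤ L' * (8 * L) * ε := by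
  have d1 := abs_mul_le hg c1
  have d2 := abs_mul_le hg c2
  have d3 := le_mul_of_one_le_left ((abs_nonneg _).trans c1) hL
  have d4 : |(g - g') * (w₁ - w₂)| ≤ 8 * L * ε := by
    rw [abs_le] at *
    constructor <;> linarith [f1.1, f1.2, f2.1, f2.2, f3.1, f3.2, f4.1, f4.2, d1.1, d1.2, d2.1,
      d2.2, c3.1, c3.2, c4.1, c4.2]
  rw [abs_mul] at d4
  refine (le_mul_of_one_le_right (abs_nonneg _) s).trans ?_
  rw [mul_left_comm, mul_assoc]
  exact mul_le_mul_of_nonneg_left d4 hL'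

/-- The fine base point and the context. -/
noncomputable def K0 (X : U3) (B : ℕ) (ω : X.Ω) : ℤ × ℤ × X.Lb :=
  (fl1 B (X.t ω), fl1 B (X.x ω), X.S 0 ω)

/-- The two directions. -/
noncomputable def W2 (X : U3) (R : ℕ) (c : X.Ω × X.Ω) : ℤ × ℤ := (fl1 R (X.w c.1), fl1 R (X.w c.2))

end UCraA

open UCraA

theorem rowCra : RCra := by
  intro hI hH γ e η X R m q ρ B L h
  have hR := h.tan.big
  obtain ⟨L1, h1, sep⟩ := hH.sepw γ e η X R m h.tan
  have s0 : Sm R fun n => ch (X n).P (fun ω => fl1 (B n) ((X n).a ω)) fun ω =>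
      (fl1 (R n) ((X n).w ω), K0 (X n) (B n) ω) := by
    refine Sm.near1 hR (h.sub.const_mul hR (C := 3) (by norm_num)) ?_
    filter_upwards [h.alg] with n k a ha b hb c
    simp only [K0, Prod.mk.injEq] at c
    have c1 := (near_of_fl1 c.1).trans (div_pow_le zero_le_one (h.le n).2.1)
    have c2 := abs_mul_le (k.bd a ha).2.1 (near_of_fl1 c.2.1)
    have c3 := abs_mul_le (k.abs_t hb) c1
    have c4 := near_of_fl1 c.2.2.1
    have c5 := le_mul_of_one_le_left ((abs_nonneg _).trans c1) (h.sub.1 n)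
    rw [mul_div_assoc, div_eq_mul_one_div]
    rw [U3.x, U3.x] at c4
    rw [abs_le] at *
    constructor <;> linarith [c2.1, c2.2, c3.1, c3.2, c4.1, c4.2]
  have s1 : Sm R fun n => ch (X n).P (fun ω => fl1 (q n + ρ n) ((X n).b ω)) fun ω =>
      (fl1 (R n) ((X n).w ω), K0 (X n) (B n) ω) :=
    (s0.add h.lip).mono (Eventually.of_forall fun n => (ch_tri _ _ _).trans (add_le_add le_rfl
      (ch_anti fun a _ b _ c => by
        simp only [K0, Prod.mk.injEq] at c ⊢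
        exact ⟨c.1, fl1_eq_of_le (h.le n).2.1 c.2.1, c.2.2.2.2⟩)))
  have s2 := fan (fun n => (X n).C2 (R n)) _ (fun n c => (X n).px (R n) c.1)
    (fun n c => (fl1 (q n + ρ n) ((X n).b c.2), fl1 (q n + ρ n) ((X n).b c.1), W2 (X n) (R n) c,
      K0 (X n) (B n) c.1)) hR h.frac.1 h.sub (h1.mul (h.sub.const_mul hR (C := 8) (by norm_num)))
    sep (by
      filter_upwards [h.alg, h.slp] with n k s a ha
      obtain ⟨a1, a2, a3⟩ := (mem_copy _ _ a).1 ha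
      refine ⟨(s _ a1).2.1, fun b hb c w => ?_⟩
      obtain ⟨b1, b2, b3⟩ := (mem_copy _ _ b).1 hb
      obtain ⟨l1, l2, -, l4⟩ := h.le n
      have f : ∀ u ∈ (X n).P.S, ∀ v ∈ (X n).P.S, (X n).S (R n) u = (X n).S (R n) v →
          |(X n).b u - (X n).pt (R n) v - (X n).px (R n) v * (X n).w u| ≤
            L n * (1 / 2 ^ ρ n) := fun u hu v hv z => by
        have z1 := (k.fit _ le_rfl u hu).2
        rw [k.plS le_rfl le_rfl u hu v hv z] at z1
        refine z1.trans ((div_pow_le (mul_pos (h.sub.pos n) (by positivity)).le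
          (by omega : R n + ρ n ≤ _)).trans_eq ?_)
        rw [pow_add]
        field_simp
      simp only [W2, Prod.mk.injEq] at c
      have d := fun (i : ℕ) (hi : ρ n ≤ i) {x y : ℝ} (z : fl1 i x = fl1 i y) =>
        (near_of_fl1 z).trans (div_pow_le zero_le_one hi)
      rw [div_eq_mul_one_div]
      exact slope (h.sub.1 n) (h1.pos n).le (f _ b1 _ b1 rfl) (f _ b2 _ b1 b3) (f _ a1 _ a1 rfl)
        (f _ a2 _ a1 a3) (s _ a1).2.1 (d _ (by omega) c.2.2.1.1) (d _ (by omega) c.2.2.1.2)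
        (d _ (by omega) c.2.1) (d _ (by omega) c.1) w)
  refine (((s1.add s1).add s2).add (h.tan.typ.smul zero_le_two)).mono ?_
  filter_upwards [h.alg] with n k
  have l2 := (h.le n).2.1
  have w1 := kg.fst (X n).P (X n).P ((X n).S (R n)) ((X n).S (R n))
  have w2 := kg.snd (X n).P (X n).P ((X n).S (R n)) ((X n).S (R n)) (Law.rfl _)
  have n0 := k.nest 0 _ (Nat.zero_le _) le_rfl
  have f0 : Fn (X n).P (K0 (X n) (B n)) ((X n).S (R n)) :=
    (k.tS l2 le_rfl).pair ((k.xS l2 le_rfl).pair n0)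
  have t1 := w1.ch_id ((X n).gz (R n) (ρ n)) (K0 (X n) (B n))
  have t2 := hI (X n).P (fun ω => fl1 (R n) ((X n).w ω)) _ _ n0
  have t3 : mi ((X n).C2 (R n)) (W2 (X n) (R n)) (fun c => (X n).gz (R n) (ρ n) c.1)
      (fun c => K0 (X n) (B n) c.1) ≤ mi ((X n).C2 (R n)) (W2 (X n) (R n))
        (fun c => (X n).S (R n) c.1) fun c => (X n).S 0 c.1 :=
    mi_right (fun _ _ _ _ c => congrArg (·.2.2) c) ((w1.fn f0).left _)
      ((w1.fn ((Fn.comp (fun d : ℝ × ℝ × ℝ => fl1 (ρ n) d.2.2) _).trans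
        (k.plS le_rfl le_rfl))).left _)
  rw [mi_symm, mi] at t3
  have t4 := ch_tri (P := (X n).C2 (R n)) (fun c => (X n).gz (R n) (ρ n) c.1)
    (fun c => fl1 (q n + ρ n) ((X n).b c.1)) fun c => (W2 (X n) (R n) c, K0 (X n) (B n) c.1)
  have t5 := ch_tri (P := (X n).C2 (R n)) (fun c => (X n).gz (R n) (ρ n) c.1)
    (fun c => fl1 (q n + ρ n) ((X n).b c.2)) fun c =>
      (fl1 (q n + ρ n) ((X n).b c.1), W2 (X n) (R n) c, K0 (X n) (B n) c.1)
  have t6 := (ch_anti (G' := fun c => (W2 (X n) (R n) c, K0 (X n) (B n) c.1)) fun a _ b _ c => by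
    simp only [W2, Prod.mk.injEq] at c ⊢
    exact ⟨c.1.1, c.2⟩).trans_eq (w1.ch_id (fun ω => fl1 (q n + ρ n) ((X n).b ω)) fun ω =>
      (fl1 (R n) ((X n).w ω), K0 (X n) (B n) ω))
  have t7 := (ch_anti (G' := fun c => (fl1 (q n + ρ n) ((X n).b c.1), W2 (X n) (R n) c,
      K0 (X n) (B n) c.1)) fun a ha b hb c => by
    obtain ⟨a1, a2, a3⟩ := (mem_copy _ _ a).1 ha
    obtain ⟨b1, b2, b3⟩ := (mem_copy _ _ b).1 hb
    simp only [W2, Prod.mk.injEq] at c ⊢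
    exact ⟨c.2.1.2, (f0 _ a2 _ a1 a3).trans (c.2.2.trans (f0 _ b2 _ b1 b3).symm)⟩).trans_eq
      (w2.ch_id (fun ω => fl1 (q n + ρ n) ((X n).b ω)) fun ω =>
        (fl1 (R n) ((X n).w ω), K0 (X n) (B n) ω))
  exact t1.symm.trans_le (by linarith!)

end Pool.Agent.MP_5168f5_an.R4.U
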