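import Pool.Agent.MP_5168f5_an.R4.USpec

/-! The rate of change of the slope is small. -/

namespace Pool.Agent.MP_5168f5_an.R4.U

open H19 H17S H17F Filter K31

namespace UCrsA

theorem amul {x y a b : ℝ} (h : |x| ≤ a) (h' : |y| ≤ b) : |x * y| ≤ a * b := by
  rw [abs_mul]
  exact mul_le_mul h h' (abs_nonneg _) ((abs_nonneg _).trans h)

theorem core {b b' p g w w' a a' t t' G G0 m A ε s u L L' : ℝ} (hL : 1 ≤ L) (hL' : 1 ≤ L')
    (h1 : |b - p - g * w| ≤ L * ε) (h2 : |b' - p - g * w'| ≤ L * ε)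
    (h3 : |a + w * t - (a' + w' * t')| ≤ ε) (h4 : |t - t'| ≤ ε) (h5 : |w'| ≤ L)
    (h6 : |g - G| ≤ s) (h7 : |G - m * t - G0| ≤ s) (h8 : |w - w'| ≤ u) (hε : s * u = ε)
    (h9 : |m| ≤ 2 * L') :
    |b - m * (a - A) - (b' - m * (a' - A)) - (G0 + 2 * m * t) * (w - w')| ≤ 8 * (L * L') * ε := by
  have e0 : 0 ≤ ε := (abs_nonneg _).trans h4
  have k1 := abs_le.1 (amul h6 h8)
  have k2 := abs_le.1 (amul h7 h8)
  have k3 := abs_le.1 (amul h9 h3)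
  have k4 := abs_le.1 (amul h9 (amul h5 h4))
  have k5 : 1 * ε ≤ L * ε := by gcongr
  have k6 : L * 1 * ε ≤ L * L' * ε := by gcongr
  have k7 : 1 * L' * ε ≤ L * L' * ε := by gcongr
  rw [hε] at k1 k2
  rw [abs_le] at *
  constructor <;> linarith [h1.1, h1.2, h2.1, h2.2, k1.1, k1.2, k2.1, k2.2, k3.1, k3.2, k4.1, k4.2]

theorem pair {x x' y y' G m t t' w w' v v' ε K : ℝ} (hK : 1 ≤ K)
    (h1 : |x - y - (G + 2 * m * t) * (w - v)| ≤ 8 * K * ε)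
    (h2 : |x' - y' - (G + 2 * m * t') * (w' - v')| ≤ 8 * K * ε) (h3 : |G + 2 * m * t'| ≤ 5 * K)
    (h4 : |x - x'| ≤ ε) (h5 : |y - y'| ≤ ε) (h6 : |w - w'| ≤ ε) (h7 : |v - v'| ≤ ε) :
    |m * (w - v) * (t - t')| ≤ 14 * K * ε := by
  have e0 : 0 ≤ ε := (abs_nonneg _).trans h4
  have k1 := abs_le.1 (amul h3 h6)
  have k2 := abs_le.1 (amul h3 h7)
  have k5 : 1 * ε ≤ K * ε := by gcongr
  rw [abs_le] at *
  constructor <;> linarith [h1.1, h1.2, h2.1, h2.2, k1.1, k1.2, k2.1, k2.2, h4.1, h4.2, h5.1, h5.2]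

variable {X : U3} {τ : ℕ → ℕ} {D R q ρ B σ α : ℕ} {L L' : ℝ}

theorem one (hA : X.Alg τ D R L) (hL : 1 ≤ L) (hL' : 1 ≤ L') (l1 : q + ρ ≤ R)
    (l2 : R + q + ρ ≤ τ R) (l3 : σ ≤ ρ) {c : (X.Ω × X.Ω) × X.Ω × X.Ω}
    (hc : c ∈ (X.P5 R q ρ B σ).S) (hp : ∀ ω ∈ X.P.S, |X.px R ω| ≤ L) (hm : |X.μ R ρ B c.1| ≤ L') :
    |X.b0 R q ρ B σ c.1 - X.b0 R q ρ B σ c.2 - (rd σ (X.G0 R ρ B σ c.1) +
      2 * rd σ (X.μ R ρ B c.1) * X.t c.1.1) * (X.w c.1.1 - X.w c.2.1)|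
        ≤ 8 * (L * L') * (1 / 2 ^ (q + σ)) ∧
      |rd σ (X.G0 R ρ B σ c.1) + 2 * rd σ (X.μ R ρ B c.1) * X.t c.1.1| ≤ 5 * (L * L') := by
  obtain ⟨c1, c2, e⟩ := (mem_copy _ _ c).1 hc
  have d1 := ((mem_copy _ _ _).1 c1).1
  have d2 := ((mem_copy _ _ _).1 c2).1
  simp only [U3.V5, U3.Xq, Prod.mk.injEq] at e
  obtain ⟨e1, ⟨e2, e3, -⟩, e4, -⟩ := e
  have hm' : |rd σ (X.μ R ρ B c.1)| ≤ 2 * L' := (abs_rd _ _).trans (by linarith)
  have f : ∀ ω ∈ X.P.S, |X.b ω - X.pt R ω - X.px R ω * X.w ω| ≤ L * (1 / 2 ^ (q + σ)) :=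
    fun ω a => ((hA.fit R le_rfl ω a).2.trans (div_pow_le (i := R + (q + σ)) (by positivity)
      (by omega))).trans (le_of_eq (by rw [pow_add 2 R]; field_simp))
  have e5 := hA.plS le_rfl le_rfl _ d2 _ d1 e1
  have g1 := abs_sub_rd σ (X.G0 R ρ B σ c.1)
  refine ⟨?_, ?_⟩
  · have f2 := f _ d2
    rw [U3.pt, U3.px, e5] at f2
    simp only [U3.b0, U3.r, rd_congr e2, rd_congr e4]
    exact core hL hL' (f _ d1) f2 (near_of_fl1 (hA.xS (by omega) le_rfl _ d1 _ d2 e1.symm))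
      (near_of_fl1 (hA.tS (by omega) le_rfl _ d1 _ d2 e1.symm)) (hA.bd _ d2).2.1
      ((abs_sub_rd ρ _).trans (div_pow_le zero_le_one l3)) g1 (near_of_fl1 e3.symm)
      (by rw [pow_add]; field_simp) hm'
  · have k1 := abs_le.1 (amul hm' (hA.abs_t d1))
    have k2 := abs_le.1 ((abs_rd ρ _).trans (add_le_add (hp _ d1) le_rfl))
    have k3 := abs_le.1 (g1.trans (div_pow_le zero_le_one (Nat.zero_le σ)))
    have k4 : L * 1 ≤ L * L' := by gcongr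
    have k5 : 1 * L' ≤ L * L' := by gcongr
    simp only [U3.G0, U3.G, pow_zero] at k3 ⊢
    rw [abs_le]
    constructor <;> linarith [k1.1, k1.2, k2.1, k2.2, k3.1, k3.2]

theorem fin {μ w t K : ℝ} (l : 4 * α ≤ σ) (h1 : ¬|μ| ≤ 2 / 2 ^ (σ / 4))
    (h2 : 1 ≤ 2 ^ (q + α) * |w|) (h : |rd σ μ * w * t| ≤ 14 * K * (1 / 2 ^ (q + σ))) :
    |t| ≤ 14 * K / 2 ^ (σ / 2) := by
  have a1 : 1 / 2 ^ (σ / 4) ≤ |rd σ μ| := by
    have b1 := (abs_sub_rd σ μ).trans (div_pow_le zero_le_one (Nat.div_le_self σ 4))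
    have b2 := abs_sub_abs_le_abs_sub μ (rd σ μ)
    have b3 : (2 : ℝ) / 2 ^ (σ / 4) = 2 * (1 / 2 ^ (σ / 4)) := by ring
    linarith [not_le.1 h1]
  rw [div_le_iff₀' (by positivity)] at a1
  rw [abs_mul, abs_mul, mul_one_div, le_div_iff₀ (by positivity)] at h
  rw [le_div_iff₀ (by positivity)]
  refine le_trans ?_ h
  have a2 := one_le_mul_of_one_le_of_one_le a1 h2
  have a3 : (2 : ℝ) ^ (σ / 4) * 2 ^ (q + α) * 2 ^ (σ / 2) ≤ 2 ^ (q + σ) := by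
    rw [← pow_add, ← pow_add]
    exact pow_le_pow_right₀ one_le_two (by omega)
  calc _ ≤ 2 ^ (σ / 4) * |rd σ μ| * (2 ^ (q + α) * |w|) * (|t| * 2 ^ (σ / 2)) :=
        le_mul_of_one_le_left (by positivity) a2
    _ = |rd σ μ| * |w| * |t| * (2 ^ (σ / 4) * 2 ^ (q + α) * 2 ^ (σ / 2)) := by ring
    _ ≤ _ := by gcongr

end UCrsA

open UCrsA in
theorem rowCrs : RCrs := by
  intro hF γ e η X R m q ρ B L h σ α hσ hle h1 h2 h3
  obtain ⟨L', hL', h1⟩ := h1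
  have hR := h.tan.big
  have w1 : Whp (fun n => (X n).P2) fun n c => |(X n).μ (R n) (ρ n) (B n) c| ≤ L' n :=
    whp_of_law (Q := PP4 X R q ρ B) (ρ := fun _ => Prod.fst) (fun n => kg.fst _ _ _ _)
      (h1.mono (Eventually.of_forall fun _ _ _ k => k.1))
  have w2 : Whp (PP5 X R q ρ B σ) fun n c => |(X n).μ (R n) (ρ n) (B n) c.1| ≤ L' n :=
    (dnS_fst _ _ _ _).whp w1
  refine whp_of_law (Q := PP5 X R q ρ B σ) (ρ := fun _ => Prod.fst) (fun n => kg.fst _ _ _ _) ?_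
  by_contra k
  have p := ((not_whp k).and w2).and h2
  have p1 := hF (PP5 X R q ρ B σ) (fun n c => (X n).t c.1.1)
    (fun n => (X n).K5 (R n) (q n) (ρ n) (B n) (σ n)) R (fun _ => 0) (fun n => σ n / 2)
    (fun n => σ n / 2) hR (fun n => by omega) (h.alg.mono fun n a c hc c' hc' _ => by
      exact (a.t0 ((mem_copy _ _ _).1 ((mem_copy _ _ c).1 hc).1).1).trans
        (a.t0 ((mem_copy _ _ _).1 ((mem_copy _ _ c').1 hc').1).1).symm)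
    (by simpa only [Nat.cast_zero, sub_zero, CrF] using h3) _ _ _ (dnS_cE p)
  simp only [zero_add, one_mul, id] at p1
  have p2 := p1.trans (Sm.near1 hR ((h.sub.mul hL').const_mul hR (C := 14) (by norm_num)) ?_)
  · obtain ⟨-, c, c0, hc⟩ := hσ
    refine p2.false hR (c := c / 4 * lg) (by have := lg_pos; positivity) ?_
    filter_upwards [hc, hR.ev (2 / c)] with n a b
    rw [div_le_iff₀ c0] at b
    have d : (σ n : ℝ) ≤ 2 * (σ n / 2 : ℕ) + 1 := by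
      exact_mod_cast (by omega : σ n ≤ 2 * (σ n / 2) + 1)
    rw [zero_add, mul_right_comm]
    exact mul_le_mul_of_nonneg_right (by linarith) lg_pos.le
  filter_upwards [p.sure, h.alg, h.slp] with n a b s c hc c' hc' k5
  obtain ⟨a1, ⟨a2, a3⟩, a4⟩ := a c hc
  obtain ⟨b1, ⟨-, b3⟩, -⟩ := a c' hc'
  obtain ⟨l1, l2, -, l4⟩ := h.le n
  have o1 := one b (h.sub.1 n) (hL'.1 n) (l1.trans l2) l4 (hle n).1 a1 (fun ω k => (s ω k).2.1) a3
  have o2 := one b (h.sub.1 n) (hL'.1 n) (l1.trans l2) l4 (hle n).1 b1 (fun ω k => (s ω k).2.1) b3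
  simp only [U3.K5, Prod.mk.injEq] at k5
  obtain ⟨e1, e2, e3, e4, e5, e6⟩ := k5
  rw [← rd_congr e5, ← rd_congr e6] at o2
  have l5 : q n + σ n ≤ B n := by have := (hle n).1; omega
  have hK := one_le_mul_of_one_le_of_one_le (h.sub.1 n) (hL'.1 n)
  exact fin (hle n).2 a2 a4 (pair hK o1.1 o2.1 o2.2 (near_of_fl1 e1) (near_of_fl1 e2)
    (near_of_fl1 (fl1_eq_of_le l5 e3)) (near_of_fl1 (fl1_eq_of_le l5 e4)))

end Pool.Agent.MP_5168f5_an.R4.U
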