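import Pool.Agent.MP_5168f5_an.R4.SpecK

/-! Kakeya sets in four dimensions: small conditional entropy gives a short list. -/

namespace Pool.Agent.MP_5168f5_an.R4

open H19 H17S H17F Filter

namespace LstA

variable {Ω α β : Type} (P : FP Ω) (A : Ω → α) (B : Ω → β)

theorem pr_ker (ω : Ω) : P.pr (Setoid.ker B) ω = pb P fun ω' => B ω' = B ω := rfl

open Classical in
/-- The values of `A` of conditional probability at least `1 / L` given `B = b`. -/
noncomputable def lst (L : ℝ) (b : β) : Finset α :=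
  (P.S.image A).filter fun a => 0 < pb P (fun ω => B ω = b) ∧
    pb P (fun ω => B ω = b) ≤ L * pb P fun ω => (A ω, B ω) = (a, b)

theorem sum_le (T : Finset α) (b : β) :
    ∑ a ∈ T, pb P (fun ω => (A ω, B ω) = (a, b)) ≤ pb P fun ω => B ω = b := by
  classical
  unfold pb
  rw [← P.E_sum]
  refine P.E_mono fun ω _ => ?_
  by_cases h : B ω = b
  · simp only [h, Prod.mk.injEq, and_true, if_true]
    have := Finset.sum_ite_eq T (A ω) fun _ => (1 : ℝ)
    refine le_trans (le_of_eq ?_) (this.le.trans (by split_ifs <;> norm_num))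
    exact Finset.sum_congr rfl fun a _ => by congr
  · simp [h]

theorem card_lst {L : ℝ} (hL : 0 < L) (b : β) : ((lst P A B L b).card : ℝ) ≤ L := by
  classical
  rcases (lst P A B L b).eq_empty_or_nonempty with h | ⟨a, ha⟩
  · rw [h]; simpa using hL.le
  · have h0 : 0 < pb P fun ω => B ω = b := (Finset.mem_filter.1 ha).2.1
    have h1 : ∑ _a ∈ lst P A B L b, pb P (fun ω => B ω = b) ≤
        ∑ a ∈ lst P A B L b, L * pb P fun ω => (A ω, B ω) = (a, b) :=
      Finset.sum_le_sum fun a ha => (Finset.mem_filter.1 ha).2.2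
    rw [Finset.sum_const, nsmul_eq_mul, ← Finset.mul_sum] at h1
    exact le_of_mul_le_mul_right
      (h1.trans (mul_le_mul_of_nonneg_left (sum_le P A B _ b) hL.le)) h0

/-- The information density. -/
noncomputable def den (ω : Ω) : ℝ :=
  -Real.log (P.pr (Setoid.ker fun ω => (A ω, B ω)) ω) - -Real.log (P.pr (Setoid.ker B) ω)

theorem E_den : P.E (den P A B) = ch P A B := P.E_sub _ _

theorem den_nonneg {ω : Ω} (hω : ω ∈ P.S) : 0 ≤ den P A B ω :=
  sub_nonneg.2 (neg_le_neg (Real.log_le_log (P.pr_pos _ hω)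
    (P.pr_mono fun _ _ h => congrArg Prod.snd h)))

theorem mem_lst {L : ℝ} {ω : Ω} (hω : ω ∈ P.S) (h : Real.exp (den P A B ω) ≤ L) :
    A ω ∈ lst P A B L (B ω) := by
  classical
  have h1 := P.pr_pos (Setoid.ker B) hω
  have h2 := P.pr_pos (Setoid.ker fun ω => (A ω, B ω)) hω
  refine Finset.mem_filter.2 ⟨Finset.mem_image_of_mem _ hω, h1, ?_⟩
  rw [den, neg_sub_neg, Real.exp_sub, Real.exp_log h1, Real.exp_log h2, div_le_iff₀ h2] at h
  exact h

end LstA

open LstA in
theorem rowLst : Lst := by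
  intro Ω α β P A B M hM h
  obtain ⟨L, hL, hW⟩ := ks.wsub P (fun n ω L => Real.exp (den (P n) (A n) (B n) ω) ≤ L) M
    fun c hc _ => (ks.mark P (fun n => den (P n) (A n) (B n)) M c hM hc
      (Eventually.of_forall fun n ω hω => den_nonneg _ _ _ hω)
      (by simpa only [E_den] using h)).mono
        (Eventually.of_forall fun n ω _ k => Real.exp_le_exp.2 k)
  exact ⟨L, fun n => lst (P n) (A n) (B n) (L n), hL, fun n b => card_lst _ _ _ (hL.pos n) b,
    hW.mono (Eventually.of_forall fun n ω hω k => mem_lst _ _ _ hω k)⟩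

end Pool.Agent.MP_5168f5_an.R4
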