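import Pool.Agent.MP_5168f5_an.R4.USpec
import Pool.Agent.MP_5168f5_an.R4.XLst

/-! Some window of depths has robust entropy on a refinement. -/

namespace Pool.Agent.MP_5168f5_an.R4.U

open H19 H17S H17F Filter K31

namespace UDepA

open LstA in
/-- Small conditional entropy gives a short list on half of the space. -/
theorem pt {Ω α β : Type} (P : FP Ω) (A : Ω → α) (B : Ω → β) {d : ℝ} (hd : 0 < d)
    (h : ch P A B ≤ d) :
    1 / 2 ≤ pb P (fun ω => den P A B ω ≤ 2 * d) ∧
      ∀ ω ∈ (cE P fun ω => den P A B ω ≤ 2 * d).S, A ω ∈ lst P A B (Real.exp (2 * d)) (B ω) := by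
  have h1 : 2 * d * pb P (fun ω => ¬den P A B ω ≤ 2 * d) ≤ d := by
    rw [pb, ← FP.E_mul]
    refine le_trans (P.E_mono fun ω hω => ?_) ((E_den P A B).trans_le h)
    have := den_nonneg P A B hω
    split_ifs with c <;> linarith
  rw [pb_not] at h1
  have h2 : 1 / 2 ≤ pb P fun ω => den P A B ω ≤ 2 * d := by nlinarith
  refine ⟨h2, fun ω hω => ?_⟩
  have := (mem_cE (ex_of_pb (by linarith)) ω).1 hω
  exact mem_lst P A B this.1 (Real.exp_le_exp.2 this.2)

/-- A failure of the robust lower bound gives a robust upper bound on a refinement. -/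
theorem step {W A B : ℕ → Type} {P : ∀ n, FP (W n)} {F : ∀ n, W n → A n} {G : ∀ n, W n → B n}
    {R : ℕ → ℕ} {δ : ℝ} (hR : Big R) (hδ : 0 < δ) (h : ¬Low P F G R fun n => δ * R n) :
    ∃ (W' : ℕ → Type) (Q : ∀ n, FP (W' n)) (ρ : ∀ n, W' n → W n), DnS Q ρ P ∧
      Upp Q (fun n v => F n (ρ n v)) (fun n v => G n (ρ n v)) R fun n => 2 * (δ * R n) := by
  unfold Low at h
  push Not at h
  obtain ⟨W', Q, ρ, a, b⟩ := h
  obtain ⟨ε, c, e⟩ := not_Le b
  have k := (e.and (hR.ev 1)).mono fun n u => pt (Q n) (fun v => F n (ρ n v))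
    (fun v => G n (ρ n v)) (d := δ * R n) (mul_pos hδ (by linarith [u.2])) (by nlinarith [u.1, u.2])
  refine ⟨W', _, ρ, (dnS_cE ⟨1 / 2, by norm_num, k.mono fun n u => u.1⟩).trans a,
    fun W'' Q' σ ⟨C, _, s⟩ => Le.of_ev ?_⟩
  filter_upwards [k, s] with n u w
  refine (ch_det (B := Real.exp (2 * (δ * R n))) fun x _ => ⟨_, LstA.card_lst (Q n)
    (fun v => F n (ρ n v)) (fun v => G n (ρ n v)) (Real.exp_pos _) (G n (ρ n (σ n x))),
      fun y hy e => ?_⟩).trans_eq (Real.log_exp _)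
  rw [← e]
  exact u.2 _ (w.mem hy)

end UDepA

theorem rowDep : Dep := by
  intro W A P f v R q α k L D δ hR hL hδ hb hlow
  by_contra hc
  push Not at hc
  have d0 : 0 < δ / (2 * k + 1) := by positivity
  have main : ∀ i ≤ k, ∃ (W' : ℕ → Type) (Q : ∀ n, FP (W' n)) (ρ : ∀ n, W' n → W n), DnS Q ρ P ∧
      Upp Q (fun n c => fl1 (q n + i * α n) (f n (ρ n c))) (fun n c => v n (ρ n c)) R fun n =>
        q n * lg + 2 * i * (δ / (2 * k + 1) * R n) := by
    intro i hi
    induction i with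
    | zero =>
      refine ⟨W, P, fun _ => id, dnS_rfl P, fun W' Q ρ ⟨C, _, s⟩ => ?_⟩
      refine (le_fl1 (j := fun _ => 0) hR (hL.const_mul hR one_le_two) (fun _ => Nat.zero_le _)
        ?_).trans (Le.of_le fun n => by simp)
      filter_upwards [hb, s] with n u w a ha b hb _
      refine (abs_sub _ _).trans ?_
      have := u.1 _ (w.mem ha)
      have := u.1 _ (w.mem hb)
      simp only [id, pow_zero, div_one]
      linarith
    | succ i ih =>
      obtain ⟨W', Q, ρ, a, b⟩ := ih (by omega)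
      obtain ⟨W'', Q', σ, c, e⟩ := UDepA.step hR d0 (hc i hi W' Q ρ _ a d0)
      refine ⟨W'', Q', _, c.trans a, fun V T τ s => ((b.ref c V T τ s).of2 (e V T τ s)
        (Eventually.of_forall fun n => ?_))⟩
      have h1 := ch_tri (P := T n) (fun x => fl1 (q n + i * α n + α n) (f n (ρ n (σ n (τ n x)))))
        (fun x => fl1 (q n + i * α n) (f n (ρ n (σ n (τ n x))))) fun x => v n (ρ n (σ n (τ n x)))
      have h2 := ch_anti (P := T n)
        (F := fun x => fl1 (q n + i * α n + α n) (f n (ρ n (σ n (τ n x)))))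
        ((Fn.snd (fun x => fl1 (q n + i * α n) (f n (ρ n (σ n (τ n x))))) fun x =>
          v n (ρ n (σ n (τ n x)))).pair (Fn.fst _ _))
      simp only [Nat.succ_mul, ← add_assoc]
      push_cast
      linarith
  obtain ⟨W', Q, ρ, a, b⟩ := main k le_rfl
  refine ((hlow W' Q ρ a).trans b.self).false hR d0 (hb.mono fun n u => le_trans (le_of_eq ?_) u.2)
  field_simp
  ring

end Pool.Agent.MP_5168f5_an.R4.U
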