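import Pool.Agent.MP_5168f5_an.R4.USpec
import Pool.Agent.MP_5168f5_an.R4.XKF2

/-! Kakeya sets in four dimensions, the step for planes: rounded slopes form a label. -/

namespace Pool.Agent.MP_5168f5_an.R4.U

open H19 H17S H17F Filter K31

namespace UFLabA

/-- Information on an event of probability at least `κ`. -/
theorem ev {Ω α β γ : Type} {P : FP Ω} {E : Ω → Prop} {κ : ℝ} (h0 : 0 < κ) (h : κ ≤ pb P E)
    (F : Ω → α) (G : Ω → β) (K : Ω → γ) : mi (cE P E) F G K ≤ (mi P F G K + lg) / κ := by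
  rw [le_div_iff₀' h0]
  exact (mul_le_mul_of_nonneg_right h (mi_nonneg _ _ _)).trans (mi_le_event P E F G K)

theorem pt {u uh x xh s e : ℝ} (k : ℕ) (h1 : |u - uh| ≤ e) (h2 : (|s| + 1) * |x - xh| ≤ e) :
    |u - uh - rd k s * (x - xh)| ≤ 2 * e := by
  refine (abs_sub _ _).trans ?_
  rw [abs_mul]
  linarith [mul_le_mul_of_nonneg_right (abs_rd k s) (abs_nonneg (x - xh))]

theorem sl {b w s₁ s₂ L : ℝ} {i k th : ℕ} (hL : 1 ≤ L) (h : L * 2 ^ th ≤ 2 ^ (i + k))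
    (hw : |w| ≤ L) (hb : |b - s₁ - s₂ * w| ≤ 1 / 2 ^ k) :
    |b - rd k s₁ - rd k s₂ * w| ≤ 3 * (2 ^ i / 2 ^ th) := by
  have e : b - rd k s₁ - rd k s₂ * w =
      (b - s₁ - s₂ * w) + (s₁ - rd k s₁) + (s₂ - rd k s₂) * w := by ring
  have h1 : L * (1 / 2 ^ k) ≤ 2 ^ i / 2 ^ th := by
    rw [mul_one_div, div_le_div_iff₀ (by positivity) (by positivity), ← pow_add]; exact h
  have h2 : (1 : ℝ) / 2 ^ k ≤ L * (1 / 2 ^ k) := le_mul_of_one_le_left (by positivity) hL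
  have h3 : |(s₂ - rd k s₂) * w| ≤ 1 / 2 ^ k * L := by
    rw [abs_mul]; exact mul_le_mul (abs_sub_rd k s₂) hw (abs_nonneg _) (by positivity)
  rw [e]
  linarith [abs_add_three (b - s₁ - s₂ * w) (s₁ - rd k s₁) ((s₂ - rd k s₂) * w), abs_sub_rd k s₁]

theorem mv {a w n b t t' r₁ r₂ g g' : ℝ} {i th : ℕ} (ht : |t - t'| ≤ 1 / 2 ^ i)
    (hs : |b - r₁ - r₂ * w| ≤ 3 * (2 ^ i / 2 ^ th))
    (h : |n + b * t - r₁ * t - r₂ * (a + w * t) - g| ≤ 2 * (1 / 2 ^ th))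
    (h' : |n + b * t' - r₁ * t' - r₂ * (a + w * t') - g'| ≤ 2 * (1 / 2 ^ th)) :
    |g - g'| ≤ 7 / 2 ^ th := by
  have h1 : |(t - t') * (b - r₁ - r₂ * w)| ≤ 3 * (1 / 2 ^ th) := by
    rw [abs_mul]
    exact (mul_le_mul ht hs (abs_nonneg _) (by positivity)).trans_eq (by field_simp)
  rw [abs_le] at h h' h1 ⊢
  rw [show (7 : ℝ) / 2 ^ th = 7 * (1 / 2 ^ th) by ring]
  constructor <;> linarith [h.1, h.2, h'.1, h'.2, h1.1, h1.2]

theorem two {p q q' : ℝ} {k : ℕ} (h : |p - q| ≤ 1 / 2 ^ k) (h' : |p - q'| ≤ 1 / 2 ^ k) :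
    |q - q'| ≤ 2 / 2 ^ k := by
  rw [abs_le] at h h' ⊢
  rw [show (2 : ℝ) / 2 ^ k = 2 * (1 / 2 ^ k) by ring]
  constructor <;> linarith [h.1, h.2, h'.1, h'.2]

end UFLabA

open UFLabA in
theorem rowFLab : FLab := by
  intro X α β Ψ φ T uh xh E i k th L κ h0 hL hth hκ fl ty φl _ TΨ fu fx H
  have M : ∀ c ∈ (cE (glue X.P X.P φ φ) E).S, c.1 ∈ X.P.S ∧ _ := fun c hc =>
    have a := (mem_cE (ex_of_pb (h0.trans_le hκ)) c).1 hc
    ⟨((mem_copy _ _ c).1 a.1).1, H c a.1 a.2⟩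
  let r : X.Ω → ℝ × ℝ := fun ω => (rd k (T ω).1, rd k (T ω).2)
  let g : X.Ω × X.Ω → ℝ := fun c => uh c.1 - (r c.2).1 * X.t c.1 - (r c.2).2 * xh c.1
  have G : ∀ c ∈ (cE (glue X.P X.P φ φ) E).S,
      |X.u c.1 - (r c.2).1 * X.t c.1 - (r c.2).2 * X.x c.1 - g c| ≤ 2 * (1 / 2 ^ th) :=
    fun c hc => by
      obtain ⟨-, -, -, -, -, h1, h2⟩ := M c hc
      exact (congrArg _ (by ring)).trans_le (pt k h1 h2)
  have S : ∀ c ∈ (cE (glue X.P X.P φ φ) E).S,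
      |X.b c.1 - (r c.2).1 - (r c.2).2 * X.w c.1| ≤ 3 * (2 ^ i / 2 ^ th) :=
    fun c hc => sl hL hth (M c hc).2.1 (M c hc).2.2.2.2.1
  refine ⟨fun c => (rd th (g c), r c.2), fun c hc => ⟨?_, ?_⟩, ?_, ?_⟩
  · have h1 := abs_le.1 (G c hc)
    have h2 := abs_le.1 (abs_sub_rd th (g c))
    have h3 : (0 : ℝ) ≤ 1 / 2 ^ th := by positivity
    rw [show (4 : ℝ) / 2 ^ th = 4 * (1 / 2 ^ th) by ring, abs_le]
    constructor <;> linarith [h1.1, h1.2, h2.1, h2.2]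
  · refine (S c hc).trans ?_
    rw [mul_div_assoc]
    gcongr; norm_num
  · have h1 := ev h0 hκ (fun c => r c.2) (fun c => X.t c.1) fun c => (X.l c.1, fl1 i (X.t c.1))
    rw [rowKF2.copy X.P φ X.t r _ φl, zero_add, mi_symm] at h1
    have h2 : ch (cE (glue X.P X.P φ φ) E) (fun c => fl1 th (g c))
        (fun c => (r c.2, X.l c.1, fl1 i (X.t c.1))) ≤ Real.log (2 * 7 + 3) :=
      ch_near1 (by norm_num) fun c hc c' hc' e => by
        simp only [Prod.mk.injEq] at e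
        obtain ⟨e1, e2, e3⟩ := e
        have e4 := fl _ (M c hc).1 _ (M c' hc').1 e2
        simp only [Prod.mk.injEq] at e4
        obtain ⟨a1, a2, a3, a4⟩ := e4
        have b1 := G c' hc'
        rw [U3.u, U3.x, ← a1, ← a2, ← a3, ← a4, ← e1] at b1
        exact mv (near_of_fl1 e3) (S c hc) (G c hc) b1
    refine (mi_symm _ _ _).trans_le ((mi_near _ _ (fun c : X.Ω × X.Ω => r c.2) _).trans
      (add_le_add h1 ((ch_mono ?_).trans (h2.trans (log_le_five (by norm_num) (by norm_num))))))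
    intro c _ c' _ e
    simp only [Prod.mk.injEq] at e ⊢
    exact ⟨rd_congr e.1, e.2.1⟩
  · have h1 := ev h0 hκ (fun c => Ψ c.1) (fun c => X.l c.1) fun c => X.y c.1
    rw [(kg.fst X.P X.P φ φ).mi_id Ψ X.l X.y, mi_symm] at h1
    have h2 : ch (cE (glue X.P X.P φ φ) E) (fun c => fl1 k (T c.2).1)
        (fun c => (Ψ c.1, X.y c.1)) ≤ Real.log (2 * 2 + 3) :=
      ch_near1 (by norm_num) fun c hc c' hc' e =>
        two (M c hc).2.2.1 (TΨ _ (M c hc).1 _ (M c' hc').1 (congrArg (·.1) e) ▸ (M c' hc').2.2.1)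
    have h3 : ch (cE (glue X.P X.P φ φ) E) (fun c => fl1 k (T c.2).2)
        (fun c => (Ψ c.1, X.y c.1)) ≤ Real.log (2 * 2 + 3) :=
      ch_near1 (by norm_num) fun c hc c' hc' e => two (M c hc).2.2.2.1
        (TΨ _ (M c hc).1 _ (M c' hc').1 (congrArg (·.1) e) ▸ (M c' hc').2.2.2.1)
    have h4 : Real.log (2 * 2 + 3) + Real.log (2 * 2 + 3) ≤ 5 := by
      rw [← Real.log_mul (by norm_num) (by norm_num)]
      exact log_le_five (by norm_num) (by norm_num)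
    refine (mi_symm _ _ _).trans_le ((mi_near _ _ (fun c : X.Ω × X.Ω => Ψ c.1) _).trans
      (add_le_add h1 ((ch_mono ?_).trans ((ch_subadd _ _ _).trans ((add_le_add h2 h3).trans h4)))))
    intro c hc c' hc' e
    have e1 : r c.2 = r c'.2 :=
      Prod.ext (rd_congr (congrArg (·.1.1) e)) (rd_congr (congrArg (·.1.2) e))
    have e2 : uh c.1 = uh c'.1 := fu _ (M c hc).1 _ (M c' hc').1 (congrArg (·.2) e)
    have e3 : X.t c.1 = X.t c'.1 := ty _ (M c hc).1 _ (M c' hc').1 (congrArg (·.2.2) e)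
    have e4 : xh c.1 = xh c'.1 := fx _ (M c hc).1 _ (M c' hc').1 (congrArg (·.2.2) e)
    simp only [g, e1, e2, e3, e4]

end Pool.Agent.MP_5168f5_an.R4.U
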