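import Pool.Agent.MP_5168f5_an.R4.USpec

/-! Kakeya sets in four dimensions, the step for planes: the offset is full. -/

namespace Pool.Agent.MP_5168f5_an.R4.U

open H19 H17S H17F Filter K31

namespace UFulA

theorem mul_near {w w' t t' L δ : ℝ} (ht : |t| ≤ 1) (hw : |w'| ≤ L) (h1 : |w - w'| ≤ δ)
    (h2 : |t - t'| ≤ δ) : |w * t - w' * t'| ≤ (1 + L) * δ := by
  have e : w * t - w' * t' = (w - w') * t + w' * (t - t') := by ring
  have d0 := (abs_nonneg _).trans h1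
  rw [e]
  refine (abs_add_le _ _).trans ?_
  rw [abs_mul, abs_mul]
  nlinarith [mul_le_mul h1 ht (abs_nonneg _) d0,
    mul_le_mul hw h2 (abs_nonneg _) ((abs_nonneg _).trans hw)]

variable {X : U3} {τ : ℕ → ℕ} {D R q ρ B : ℕ} {L : ℝ} {a b : X.Ω}

/-- The context. -/
noncomputable abbrev K (X : U3) (q B : ℕ) (ω : X.Ω) : X.Lb × ℤ × ℤ :=
  (X.S q ω, fl1 B (X.w ω), fl1 B (X.t ω))

theorem wt (h : X.Alg τ D R L) (ha : a ∈ X.P.S) (hb : b ∈ X.P.S) (e : K X q B a = K X q B b) :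
    |X.w a * X.t a - X.w b * X.t b| ≤ (1 + L) * (1 / 2 ^ B) :=
  mul_near (h.abs_t ha) (h.bd b hb).2.1 (near_of_fl1 (congrArg (·.2.1) e))
    (near_of_fl1 (congrArg (·.2.2) e))

theorem near_x (h : X.Alg τ D R L) (hL : 1 ≤ L) (ha : a ∈ X.P.S) (hb : b ∈ X.P.S)
    (e : K X q B a = K X q B b) (e' : fl1 B (X.a a) = fl1 B (X.a b)) :
    |X.x a - X.x b| ≤ 3 * L / 2 ^ B := by
  have h1 := wt h ha hb e
  have h2 := near_of_fl1 e'
  have h3 := abs_add_le (X.a a - X.a b) (X.w a * X.t a - X.w b * X.t b)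
  have d0 : (0 : ℝ) < 1 / 2 ^ B := by positivity
  rw [show X.x a - X.x b = X.a a - X.a b + (X.w a * X.t a - X.w b * X.t b) by
    simp only [U3.x]; ring, div_eq_mul_one_div]
  nlinarith

theorem near_a (h : X.Alg τ D R L) (hL : 1 ≤ L) (hq : q ≤ B) (hB : B ≤ R) (ha : a ∈ X.P.S)
    (hb : b ∈ X.P.S) (e : K X q B a = K X q B b) : |X.a a - X.a b| ≤ 3 * L / 2 ^ q := by
  have h1 := (wt h ha hb e).trans (mul_le_mul_of_nonneg_left (div_pow_le zero_le_one hq)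
    (by linarith))
  have h2 := near_of_fl1 (h.xS le_rfl (hq.trans hB) a ha b hb (congrArg (·.1) e))
  have h3 := abs_sub (X.x a - X.x b) (X.w a * X.t a - X.w b * X.t b)
  have d0 : (0 : ℝ) < 1 / 2 ^ q := by positivity
  rw [show X.a a - X.a b = X.x a - X.x b - (X.w a * X.t a - X.w b * X.t b) by
    simp only [U3.x]; ring, div_eq_mul_one_div]
  nlinarith

theorem near_g (h1 : |X.px R a - X.px q a| ≤ L / 2 ^ ρ) (h2 : |X.px R b - X.px q b| ≤ L / 2 ^ ρ)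
    (e : X.pl q a = X.pl q b) : |X.px R a - X.px R b| ≤ 2 * L / 2 ^ ρ := by
  have e1 : X.px q a = X.px q b := congrArg (·.2.2) e
  have h3 := abs_sub (X.px R a - X.px q a) (X.px R b - X.px q b)
  rw [show X.px R a - X.px R b = X.px R a - X.px q a - (X.px R b - X.px q b) by rw [e1]; ring,
    mul_div_assoc]
  linarith

theorem off (hL : 1 ≤ L) (h1 : |X.px R a - X.px q a| ≤ L / 2 ^ ρ) :
    |(X.px q a - X.G R ρ a) * X.r q a| ≤ (L + 1) * (1 / 2 ^ (q + ρ)) := by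
  have h2 := abs_sub_rd ρ (X.px R a)
  have h3 := abs_sub (X.px R a - rd ρ (X.px R a)) (X.px R a - X.px q a)
  have h4 : |X.px q a - X.G R ρ a| ≤ (L + 1) / 2 ^ ρ := by
    rw [show X.px q a - X.G R ρ a = X.px R a - rd ρ (X.px R a) - (X.px R a - X.px q a) by
      simp only [U3.G]; ring, add_div]
    linarith
  rw [abs_mul]
  refine (mul_le_mul h4 (abs_sub_rd q (X.a a)) (abs_nonneg _) (by positivity)).trans (le_of_eq ?_)
  rw [pow_add]; field_simp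

theorem near_π (h : X.Alg τ D R L) (hL : 1 ≤ L) (hq : q + ρ ≤ B) (hB : B ≤ R) (hτ : q + ρ ≤ τ q)
    (ha : a ∈ X.P.S) (hb : b ∈ X.P.S) (h1 : |X.px R a - X.px q a| ≤ L / 2 ^ ρ)
    (h2 : |X.px R b - X.px q b| ≤ L / 2 ^ ρ) (h3 : |X.pt q a| ≤ L) (h4 : |X.px q a| ≤ L)
    (e : K X q B a = K X q B b) (e' : fl1 q (X.a a) = fl1 q (X.a b)) :
    |X.π R q ρ a - X.π R q ρ b| ≤ 9 * (L * L) / 2 ^ (q + ρ) := by
  have qR : q ≤ R := by omega
  have e1 := h.plS le_rfl qR a ha b hb (congrArg (·.1) e)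
  have L0 : 0 ≤ L := by linarith
  have dB := div_pow_le zero_le_one hq
  have f1 := (h.fit q qR a ha).1.trans (div_pow_le L0 hτ)
  have f2 := (h.fit q qR b hb).1.trans (div_pow_le L0 hτ)
  have f3 := off hL h1
  have f4 := off hL h2
  have f5 : |X.pt q a * (X.t a - X.t b)| ≤ L * (1 / 2 ^ (q + ρ)) := by
    rw [abs_mul]
    exact mul_le_mul h3 ((near_of_fl1 (congrArg (·.2.2) e)).trans dB) (abs_nonneg _) L0
  have f6 : |X.px q a * (X.w a * X.t a - X.w b * X.t b)| ≤ L * ((1 + L) * (1 / 2 ^ (q + ρ))) := by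
    rw [abs_mul]
    exact mul_le_mul h4 ((wt h ha hb e).trans (mul_le_mul_of_nonneg_left dB (by linarith)))
      (abs_nonneg _) L0
  have e2 : X.π R q ρ a - X.π R q ρ b =
      (X.u a - (X.pl q a).1 - (X.pl q a).2.1 * X.t a - (X.pl q a).2.2 * X.x a) -
      (X.u b - (X.pl q b).1 - (X.pl q b).2.1 * X.t b - (X.pl q b).2.2 * X.x b) +
      (X.px q a - X.G R ρ a) * X.r q a - (X.px q b - X.G R ρ b) * X.r q b +
      X.pt q a * (X.t a - X.t b) + X.px q a * (X.w a * X.t a - X.w b * X.t b) := by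
    simp only [U3.π, U3.x, U3.r, U3.pt, U3.px, ← e1, rd_congr e']; ring
  rw [div_eq_mul_one_div] at f1 f2 ⊢
  have d0 : (0 : ℝ) < 1 / 2 ^ (q + ρ) := by positivity
  generalize (1 : ℝ) / 2 ^ (q + ρ) = δ at *
  have k1 : L * δ ≤ L * L * δ := by nlinarith [mul_nonneg L0 d0.le]
  have k2 : δ ≤ L * δ := by nlinarith
  rw [e2, abs_le]
  obtain ⟨_, _⟩ := abs_le.1 f1
  obtain ⟨_, _⟩ := abs_le.1 f2
  obtain ⟨_, _⟩ := abs_le.1 f3
  obtain ⟨_, _⟩ := abs_le.1 f4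
  obtain ⟨_, _⟩ := abs_le.1 f5
  obtain ⟨_, _⟩ := abs_le.1 f6
  constructor <;> linarith

theorem main (h : X.Alg τ D R L) (hq : q ≤ B) (hB : B ≤ R) :
    ch X.P (fun ω => fl1 B (X.x ω)) (fun ω => (fl1 B (X.t ω), X.S q ω)) ≤
      ch X.P (fun ω => fl1 B (X.a ω)) (fun ω => (X.A R q ρ ω, X.Θ R q ρ B ω)) +
      mi X.P (fun ω => fl1 R (X.w ω)) (X.S R) (X.S 0) +
      ch X.P (fun ω => fl1 B (X.x ω)) (fun ω => (fl1 B (X.a ω), K X q B ω)) +
      ch X.P (fun ω => fl1 q (X.a ω)) (K X q B) + ch X.P (X.gz R ρ) (K X q B) +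
      ch X.P (fun ω => fl1 q (X.b ω)) (fun ω => (fl1 q (X.a ω), fl1 q (X.w ω), X.S q ω)) +
      ch X.P (X.A R q ρ) fun ω => (fl1 q (X.a ω), K X q B ω) := by
  have qR := hq.trans hB
  have h1 := ch_le_mi (P := X.P) (F := fun ω => fl1 B (X.x ω)) (G := fun ω => fl1 B (X.w ω))
    (K := fun ω => (fl1 B (X.t ω), X.S q ω)) (K' := K X q B)
    (((Fn.snd _ _).right _).pair ((Fn.fst _ _).pair ((Fn.fst _ _).right _)))
  have h2 : mi X.P (fun ω => fl1 B (X.x ω)) (fun ω => fl1 B (X.w ω))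
      (fun ω => (fl1 B (X.t ω), X.S q ω)) ≤ mi X.P (fun ω => fl1 R (X.w ω)) (X.S R) (X.S 0) := by
    refine (mi_mono (G' := fun ω => fl1 R (X.w ω)) fun _ _ _ _ e =>
      fl1_eq_of_le hB (congrArg (·.1) e)).trans ?_
    rw [mi_symm]
    exact mi_right ((h.nest 0 q (Nat.zero_le _) qR).right _)
      (((h.tS hB le_rfl).pair (h.nest q R qR le_rfl)).left _) ((h.xS hB le_rfl).left _)
  have h3 := ch_tri (P := X.P) (fun ω => fl1 B (X.x ω)) (fun ω => fl1 B (X.a ω)) (K X q B)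
  have h4 := ch_tri' (P := X.P) (fun ω => fl1 B (X.a ω)) (K X q B)
    fun ω => (X.A R q ρ ω, X.Θ R q ρ B ω)
  have h5 : ch X.P (fun ω => (X.A R q ρ ω, X.Θ R q ρ B ω)) (K X q B) ≤ ch X.P
      (fun ω => (fl1 q (X.a ω), X.gz R ρ ω, fl1 q (X.b ω), X.A R q ρ ω)) (K X q B) := by
    refine ch_mono fun a ha b hb e => ?_
    simp only [Prod.mk.injEq] at e
    obtain ⟨⟨e1, e2, e3, e4⟩, e5, e6, e7⟩ := e
    have e8 := h.nest 0 q (Nat.zero_le _) qR a ha b hb e5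
    have e9 : fl1 q (X.π R q ρ a) = fl1 q (X.π R q ρ b) := fl1_eq_of_le (Nat.le_add_right q ρ) e4
    simp only [U3.Θ, e1, e2, e3, e4, e6, e7, e8, e9]
  rw [ch_chain fun ω => fl1 q (X.a ω)] at h5
  have h6 := ch_subadd (P := X.P) (X.gz R ρ) (fun ω => (fl1 q (X.b ω), X.A R q ρ ω))
    fun ω => (fl1 q (X.a ω), K X q B ω)
  have h7 := ch_subadd (P := X.P) (fun ω => fl1 q (X.b ω)) (X.A R q ρ)
    fun ω => (fl1 q (X.a ω), K X q B ω)
  have h8 : ch X.P (X.gz R ρ) (fun ω => (fl1 q (X.a ω), K X q B ω)) ≤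
      ch X.P (X.gz R ρ) (K X q B) := ch_anti (Fn.snd _ _)
  have h9 : ch X.P (fun ω => fl1 q (X.b ω)) (fun ω => (fl1 q (X.a ω), K X q B ω)) ≤ ch X.P
      (fun ω => fl1 q (X.b ω)) fun ω => (fl1 q (X.a ω), fl1 q (X.w ω), X.S q ω) :=
    ch_anti fun a _ b _ e => Prod.ext (congrArg (·.1) e)
      (Prod.ext (fl1_eq_of_le hq (congrArg (·.2.2.1) e)) (congrArg (·.2.1) e))
  linarith

end UFulA

open UFulA in
theorem rowFul : RFul := by
  intro hT hP γ e η X R m q ρ B L h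
  have big := h.tan.big
  have qB : ∀ n, q n ≤ B n := fun n => (Nat.le_add_right _ _).trans (h.le n).1
  have BR : ∀ n, B n ≤ R n := fun n => (h.le n).2.1
  have L3 := h.sub.const_mul big (C := 3) (by norm_num)
  have s1 : Sm R fun n => ch (X n).P (fun ω => fl1 (B n) ((X n).x ω)) fun ω =>
      (fl1 (B n) ((X n).a ω), K (X n) (q n) (B n) ω) :=
    Sm.near1 big L3 (h.alg.mono fun n k a ha b hb e =>
      near_x k (h.sub.1 n) ha hb (congrArg (·.2) e) (congrArg (·.1) e))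
  have s2 : Sm R fun n => ch (X n).P (fun ω => fl1 (q n) ((X n).a ω)) (K (X n) (q n) (B n)) :=
    Sm.near1 big L3 (h.alg.mono fun n k a ha b hb e => near_a k (h.sub.1 n) (qB n) (BR n) ha hb e)
  have s3 : Sm R fun n => ch (X n).P ((X n).gz (R n) (ρ n)) (K (X n) (q n) (B n)) :=
    Sm.near1 (x := fun n => (X n).px (R n)) big (h.sub.const_mul big one_le_two)
      ((h.alg.and h.slp).mono fun n k a ha b hb e => near_g (k.2 a ha).2.2.2.2 (k.2 b hb).2.2.2.2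
        (k.1.plS le_rfl ((qB n).trans (BR n)) a ha b hb (congrArg (·.1) e)))
  have s4 := hP γ e η X R m q q h.tan fun n => ⟨(qB n).trans (BR n), (qB n).trans (BR n),
    (Nat.le_add_right _ _).trans (h.le n).2.2.1⟩
  have s5 : Sm R fun n => ch (X n).P ((X n).A (R n) (q n) (ρ n)) fun ω =>
      (fl1 (q n) ((X n).a ω), K (X n) (q n) (B n) ω) :=
    Sm.near1 (x := fun n => (X n).π (R n) (q n) (ρ n)) big
      ((h.sub.mul h.sub).const_mul big (C := 9) (by norm_num))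
      ((h.alg.and h.slp).mono fun n k a ha b hb e => near_π k.1 (h.sub.1 n) (h.le n).1 (BR n)
        (h.le n).2.2.1 ha hb (k.2 a ha).2.2.2.2 (k.2 b hb).2.2.2.2 (k.2 a ha).2.2.1
        (k.2 a ha).2.2.2.1 (congrArg (·.2) e) (congrArg (·.1) e))
  refine Le.of6 (hT.xs γ e η X R m q B h.tan fun n => ⟨qB n, BR n⟩) (h.tan.typ.add s1) s2 s3 s4 s5
    (h.alg.mono fun n k => ?_)
  have := main (ρ := ρ n) k (qB n) (BR n)
  linarith

end Pool.Agent.MP_5168f5_an.R4.U
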