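import Pool.Agent.MP_5168f5_an.R4.USpec

/-! The slopes of two cells on one line are close with positive probability. -/

namespace Pool.Agent.MP_5168f5_an.R4.U

open H19 H17S H17F Filter K31

namespace UGCloseA

theorem near {p x wa wb L s K : ℝ} (hL : 1 ≤ L) (hs : 0 < s) (hK : 0 < K) (ha : |wa| ≤ L)
    (hb : |wb| ≤ L) (h1 : |p + x * wa| ≤ 2 * L * s) (h2 : |p + x * wb| ≤ 2 * L * s)
    (far : ¬(|p| ≤ K * s ∧ |x| ≤ K * s)) : |wa - wb| ≤ 8 * L ^ 2 / K := by
  rw [le_div_iff₀ hK]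
  have h3 : |x| * |wa - wb| ≤ 4 * L * s := by
    rw [← abs_mul, show x * (wa - wb) = p + x * wa - (p + x * wb) by ring]
    exact (abs_sub _ _).trans (by linarith)
  have h0 := abs_nonneg (wa - wb)
  have hx := abs_nonneg x
  by_cases c : K * s ≤ 2 * L * |x|
  · refine le_of_mul_le_mul_right ?_ hs
    have h4 := mul_le_mul_of_nonneg_right c h0
    have h5 := mul_le_mul_of_nonneg_left h3 (by linarith : 0 ≤ 2 * L)
    nlinarith
  · have h4 : |x| ≤ K * s := by nlinarith
    have h5 : K * s < |p| := lt_of_not_ge fun e => far ⟨e, h4⟩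
    have h6 : |p| ≤ 2 * L * s + |x| * L := by
      rw [show p = p + x * wa - x * wa by ring]
      refine (abs_sub _ _).trans (add_le_add h1 ?_)
      rw [abs_mul]
      exact mul_le_mul_of_nonneg_left ha hx
    have h7 : K ≤ 4 * L := le_of_mul_le_mul_right (by nlinarith) hs
    have h8 : |wa - wb| ≤ 2 * L := (abs_sub _ _).trans (by linarith)
    calc |wa - wb| * K ≤ 2 * L * (4 * L) := mul_le_mul h8 h7 hK.le (by linarith)
      _ = _ := by ring

theorem two {X : U3} {τ : ℕ → ℕ} {D R j : ℕ} {L : ℝ} (h : X.Alg τ D R L) (hj : j ≤ R) {a b : X.Ω}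
    (ha : a ∈ X.P.S) (hb : b ∈ X.P.S) (e : X.l b = X.l a) :
    |X.pt j a - X.pt j b + (X.px j a - X.px j b) * X.w a| ≤ 2 * L * (2 ^ j / 2 ^ τ j) := by
  have k1 := abs_le.1 (h.fit j hj a ha).2
  have k2 := abs_le.1 (h.fit j hj b hb).2
  rw [h.bl _ hb _ ha e, h.wl _ hb _ ha e] at k2
  rw [mul_div_assoc] at k1 k2
  simp only [U3.pt, U3.px]
  exact abs_le.2 ⟨by linarith, by linarith⟩

end UGCloseA

open UGCloseA in
theorem rowGClose : RGClose := by
  intro hS η X M p lo hi τ φ glo i W κ hiW hW hκ hp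
  by_contra hn
  generalize hEd : (fun n (c : (X n).Ω × (X n).Ω) => _) = E at hn
  have far : Whp (PW X i) fun n c => ¬E n c := by
    by_contra e
    exact hn ((not_whp e).mono (Eventually.of_forall fun _ _ _ => not_not.1))
  obtain ⟨L, hL, alg⟩ := glo.alg
  have hpb : ∀ᶠ n in UF, 1 / 2 ≤ pb (PW X i n) fun c => ¬E n c :=
    (far _ one_half_pos).mono fun n a => by rw [pb_not] at a; linarith
  have h1 := glo.br (fun n => min (κ n) (M n)) (fun n => min_le_right _ _) _ _ _
    ((dnS_cE far.pos).trans (dnS_fst (PP X) (PP X) _ _))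
  have h2 := (hS η X M p lo hi τ φ glo i W hiW hp).smul zero_le_two
  have h3 : Sm M fun n => ch (cE (PW X i n) fun c => ¬E n c)
      (fun c => fl1 (min (κ n) (M n)) ((X n).w c.1))
      fun c => ((X n).S (i n + W n) c.1, (X n).S (i n + W n) c.2) := by
    refine Sm.near1 glo.big ((hL.pow 2).const_mul glo.big (C := 8) (by norm_num)) ?_
    filter_upwards [alg, hκ, far.pos.ex] with n a hk ex c hc c' hc' e
    obtain ⟨c0, f0⟩ := (mem_cE ex c).1 hc
    obtain ⟨c1, c2, c3⟩ := (mem_copy _ _ c).1 c0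
    obtain ⟨d1, d2, d3⟩ := (mem_copy _ _ c').1 (cE_sub hc')
    have e1 := a.plS le_rfl (hiW n) _ c1 _ d1 (congrArg Prod.fst e)
    have e2 := a.plS le_rfl (hiW n) _ c2 _ d2 (congrArg Prod.snd e)
    have k1 := two a (hiW n) c1 c2 (congrArg Prod.fst c3)
    have k2 := two a (hiW n) d1 d2 (congrArg Prod.fst d3)
    simp only [U3.pt, U3.px, ← e1, ← e2] at k1 k2
    rw [min_eq_left hk.1]
    refine near (hL.1 n) (by positivity) (by positivity) (a.bd _ c1).2.1 (a.bd _ d1).2.1 k1 k2 ?_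
    subst hEd
    rwa [← mul_div_assoc, ← pow_add, ← add_assoc]
  have h4 : Le M (fun n => 12 * W n * lg) fun n => 6 * W n * lg := by
    refine Le.of4 h1 h2 h3 (glo.big.sm (2 * lg)) ?_
    filter_upwards [alg, hκ, hpb] with n a hk hb
    have k1 := ch_le_mi (P := cE (PW X i n) fun c => ¬E n c)
      (F := fun c => fl1 (min (κ n) (M n)) ((X n).w c.1)) (K := fun c => (X n).y c.1)
      (Fn.fst (fun c => ((X n).S (i n + W n) c.1, (X n).S (i n + W n) c.2)) _)
    have k2 : mi (cE (PW X i n) fun c => ¬E n c) (fun c => fl1 (min (κ n) (M n)) ((X n).w c.1))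
        (fun c => ((X n).S (i n + W n) c.1, (X n).S (i n + W n) c.2)) (fun c => (X n).y c.1) ≤
        mi _ (fun c : (X n).Ω × (X n).Ω => (X n).l c.1) _ _ := mi_mono' fun c hc c' hc' e =>
      congrArg _ (a.wl _ ((mem_copy _ _ c).1 (cE_sub hc)).1 _ ((mem_copy _ _ c').1 (cE_sub hc')).1
        (congrArg Prod.fst e))
    have k3 := (dn_cE _ one_half_pos hb).mi_le
      (fun c => ((X n).S (i n + W n) c.1, (X n).S (i n + W n) c.2)) (fun c => (X n).l c.1)
      fun c => (X n).y c.1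
    rw [mi_symm fun c : (X n).Ω × (X n).Ω => (X n).l c.1] at k2
    have k4 := mul_le_mul_of_nonneg_right hk.2 lg_pos.le
    simp only [id, min_eq_left hk.1] at k1 k2 k3 ⊢
    norm_num at k3
    linarith
  obtain ⟨c, hc, h5⟩ := hW.2
  refine h4.false glo.big (mul_pos hc lg_pos) (h5.mono fun n a => ?_)
  have := mul_le_mul_of_nonneg_right a lg_pos.le
  have := mul_nonneg (Nat.cast_nonneg (α := ℝ) (W n)) lg_pos.le
  linarith

end Pool.Agent.MP_5168f5_an.R4.U
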