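import Pool.Agent.MP_5168f5_an.R4.USpec

/-! Extension of a plane at the floor to a longer window. -/

namespace Pool.Agent.MP_5168f5_an.R4.U

open H19 H17S H17F Filter K31

namespace UGExtA

theorem bits {M : ℕ → ℕ} {L : ℕ → ℝ} (hM : Big M) (hL : Sub M L) :
    ∃ s : ℕ → ℕ, Sm M (fun n => s n) ∧ ∀ n, L n ≤ 2 ^ s n := by
  refine ⟨fun n => ⌈2 * Real.log (L n)⌉₊, ((hL.log.smul zero_le_two).add (hM.sm 1)).mono
    (Eventually.of_forall fun n => (Nat.ceil_lt_add_one
      (mul_nonneg zero_le_two (Real.log_nonneg (hL.1 n)))).le), fun n => ?_⟩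
  refine le_trans ?_ (exp_le_two_pow _)
  rw [← Real.log_le_iff_le_exp (hL.pos n)]
  linarith [Nat.le_ceil (2 * Real.log (L n))]

theorem pw {a b c : ℕ} (h : a + c ≤ b) : (2 : ℝ) ^ a / 2 ^ b ≤ 1 / 2 ^ c := by
  rw [div_le_div_iff₀ (by positivity) (by positivity), one_mul, ← pow_add]
  exact pow_le_pow_right₀ one_le_two h

end UGExtA

open UGExtA

theorem rowGExt : RGExt := by
  intro fl gx tb low cl η X M p lo hi τ φ h i W hiW hW hp
  have hM := h.big
  have hη := h.pos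
  obtain ⟨L, hL, hA⟩ := h.alg
  obtain ⟨L1, hL1, hB⟩ := tb η X M p lo hi τ φ h (fun n => i n + W n) hiW
  obtain ⟨s, s1, s2⟩ := bits hM ((hL.mul hL1).const_mul hM (C := 3) (by norm_num))
  obtain ⟨κ, κ1, κ2⟩ : ∃ κ : ℕ → ℕ, (∀ n, 12 / η * W n ≤ κ n) ∧ ∀ n, κ n ≤ 12 / η * W n + 1 :=
    ⟨fun n => ⌈12 / η * W n⌉₊, fun n => Nat.le_ceil _,
      fun n => (Nat.ceil_lt_add_one (by positivity)).le⟩
  rcases ev_em fun n => κ n + (i n + W n) + 2 * s n ≤ τ n (i n + W n) with hc | hc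
  swap
  · obtain ⟨th, t1, t2, t3⟩ := low η X M p lo hi τ φ h i fun n => (Nat.le_add_right _ _).trans (hiW n)
    refine ⟨th, Le.trans (Le.of3 hp (s1.smul zero_le_two) (hM.sm 1) ?_) t1, t2, t3⟩
    filter_upwards [hc, h.mono] with n a b
    have a1 : (τ n (i n + W n) : ℝ) ≤ κ n + (i n + W n) + 2 * s n := by
      exact_mod_cast (not_le.1 a).le
    have a2 : (τ n (i n + W n) : ℝ) ≤ p n := by exact_mod_cast b.2 _
    have a3 : 0 ≤ 12 / η * W n := by positivity
    have a4 : (0 : ℝ) ≤ W n := Nat.cast_nonneg _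
    have a5 : (0 : ℝ) ≤ s n := Nat.cast_nonneg _
    rcases min_choice (i n) (p n) with e | e <;> rw [e] <;> linarith [κ2 n]
  have hE := (cl η X M p lo hi τ φ h i W κ hiW hW ((hc.and h.mono).mono fun n a => ⟨by
    have := a.2.2 (i n + W n); have := (h.le n).1; omega, by
      have := κ1 n
      rwa [div_mul_eq_mul_div, div_le_iff₀' hη] at this⟩) hp).and
    ((dnS_snd (PP X) fun n ω => ((X n).l ω, fl1 (i n) ((X n).t ω))).whp hB)
  obtain ⟨κ0, k0, k1⟩ := id hE
  obtain ⟨th, t1, t2⟩ : ∃ th : ℕ → ℕ, (∀ n, th n ≤ p n) ∧ ∀ᶠ n in UF,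
      th n + κ n + W n + 2 * s n = τ n (i n + W n) :=
    ⟨fun n => min (p n) (τ n (i n + W n) - (κ n + W n + 2 * s n)), fun n => min_le_left _ _,
      (hc.and h.mono).mono fun n a => by have := a.2.2 (i n + W n); dsimp only; omega⟩
  refine (skolem.1 (((hc.and (t2.and (k1.and h.mono))).and (hA.and h.fat)).mono fun n a =>
    fl (X n) ((X n).S (i n + W n)) (fun ω => ((X n).l ω, fl1 (i n) ((X n).t ω)))
      (fun ω => ((X n).pl (i n + W n) ω).2) (fun ω => rd (p n) ((X n).u ω))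
      (fun ω => rd (M n) ((X n).x ω)) _ (i n) (τ n (i n + W n) - (κ n + (i n + W n) + s n)) (th n)
      (L n) κ0 k0 (hL.1 n) ?_ a.1.2.2.1 (a.2.1.al.pair (a.2.1.wl.pair (a.2.1.nl.pair a.2.1.bl)))
      a.2.1.ty (Fn.rfl _) (Fn.rfl _) ((Fn.comp Prod.snd _).trans (a.2.1.plS le_rfl (hiW n)))
      (Fn.right (fun u hu v hv e => rd_congr (a.2.2.2.1 u hu v hv e)) _)
      (fun u hu v hv e => rd_congr (a.2.1.xz u hu v hv (a.2.1.fz u hu v hv e))) ?_)).elim
      fun d hd => ?_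
  rotate_left 2
  · refine ⟨th, Le.of3 hp (s1.smul zero_le_two) (hM.sm 1) (t2.mono fun n a => ?_), t1, _, _, _, _,
      d, d, (dnS_cE hE).trans (dnS_fst _ _ _ _), (hM.sm _).mono (hd.mono fun n a => a.2.1),
      ((((gx η X M p lo hi τ φ h).lk _ hiW).smul (inv_nonneg.2 k0.le)).add
        (hM.sm (lg / κ0 + 5))).mono (hd.mono fun n a => a.2.2.trans (le_of_eq (by ring))),
      hd.mono fun n a => ⟨Fn.rfl _, a.1⟩⟩
    have a1 : (th n : ℝ) + κ n + W n + 2 * s n = τ n (i n + W n) := by exact_mod_cast a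
    linarith [κ2 n]
  all_goals
    have b2 : L n ≤ 2 ^ s n := le_trans (by nlinarith [hL.1 n, hL1.1 n]) (s2 n)
    obtain ⟨⟨c1, c2, -, c3⟩, k, -⟩ := a
  · refine (mul_le_mul_of_nonneg_right b2 (by positivity)).trans ?_
    rw [← pow_add]
    exact pow_le_pow_right₀ one_le_two (by omega)
  · intro c hc e
    obtain ⟨m1, m2, m3⟩ := (mem_copy _ _ c).1 hc
    have m4 := (Prod.mk.inj m3).1
    have p1 := pw (a := κ n + i n + W n) (b := τ n (i n + W n))
      (c := τ n (i n + W n) - (κ n + (i n + W n) + s n)) (by omega)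
    refine ⟨(k.bd _ m1).2.1, e.1.1.trans p1, e.1.2.trans p1, ?_,
      (abs_sub_rd _ _).trans (div_pow_le zero_le_one (t1 n)), ?_⟩
    · rw [← k.bl _ m2 _ m1 m4, ← k.wl _ m2 _ m1 m4]
      refine (k.fit _ (hiW n) _ m2).2.trans (le_trans ?_ (pw (a := s n + (i n + W n))
        (b := τ n (i n + W n)) (by omega)))
      rw [pow_add (2 : ℝ) (s n)]
      gcongr
    · have p2 := pw (a := i n + W n) (b := τ n (i n + W n)) (c := 0) (by omega)
      have b1 := hL1.1 n
      have b3 : 3 * L1 n ≤ 2 ^ s n := le_trans (by nlinarith [hL.1 n]) (s2 n)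
      have p3 : |((X n).pl (i n + W n) c.2).2.2| + 1 ≤ 2 ^ s n := by
        have := e.2.trans (mul_le_mul_of_nonneg_left (add_le_add le_rfl p2) (by linarith))
        simp only [U3.px] at this
        linarith
      refine (mul_le_mul p3 (abs_sub_rd _ _) (abs_nonneg _) (by positivity)).trans ?_
      rw [mul_one_div]
      exact pw (by have := c3.2 (i n + W n); have := (h.le n).1; omega)

end Pool.Agent.MP_5168f5_an.R4.U
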