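import Pool.Agent.MP_5168f5_an.R4.USpec

/-! Kakeya sets in four dimensions, the step for planes: a label gives a thinner label on a
shorter window. -/

namespace Pool.Agent.MP_5168f5_an.R4.U

open H19 H17S H17F Filter K31

namespace UGGrowA

theorem ex_pow {M : ℕ → ℕ} {A : ℕ → ℝ} (hM : Big M) (hA : Sub M A) :
    ∃ s : ℕ → ℕ, Sm M (fun n => s n) ∧ ∀ n, A n ≤ 2 ^ s n := by
  refine ⟨fun n => ⌈2 * Real.log (A n)⌉₊, ((hA.log.smul zero_le_two).add (hM.sm 1)).mono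
    (Eventually.of_forall fun n => (Nat.ceil_lt_add_one ?_).le), fun n => ?_⟩
  · exact mul_nonneg zero_le_two (Real.log_nonneg (hA.1 n))
  · refine le_trans ?_ (exp_le_two_pow _)
    rw [← Real.log_le_iff_le_exp (hA.pos n)]
    linarith [Nat.le_ceil (2 * Real.log (A n))]

/-- The offset of the plane, computed from the rounded point. -/
noncomputable def off (X : U3) (M p j : ℕ) (ω : X.Ω) : ℝ :=
  rd p (X.u ω) - X.pt j ω * X.t ω - X.px j ω * rd M (X.x ω)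

variable {X : U3} {τ : ℕ → ℕ} {M p j i k : ℕ} {L L1 : ℝ}

theorem pt_err (hj : j + i ≤ M) (hp : k ≤ p) (hM : p ≤ M) (hk : k ≤ τ j + i) (h0 : 0 ≤ L1)
    {ω : X.Ω} (e : |X.px j ω| ≤ L1 * (1 + 2 ^ j / 2 ^ τ j)) :
    |X.u ω - X.pt j ω * X.t ω - X.px j ω * X.x ω - off X M p j ω| ≤ (1 + 2 * L1) / 2 ^ k := by
  have h1 := (abs_sub_rd p (X.u ω)).trans (div_pow_le zero_le_one hp)
  have h2 : |X.px j ω * (X.x ω - rd M (X.x ω))| ≤ L1 * (1 + 2 ^ j / 2 ^ τ j) * (1 / 2 ^ M) := by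
    rw [abs_mul]
    exact mul_le_mul e (abs_sub_rd _ _) (abs_nonneg _) (by positivity)
  have h3 : (1 : ℝ) / 2 ^ M ≤ 1 / 2 ^ k := div_pow_le zero_le_one (hp.trans hM)
  have h4 : (2 : ℝ) ^ j / 2 ^ τ j * (1 / 2 ^ M) ≤ 1 / 2 ^ k := by
    rw [div_mul_div_comm, div_le_div_iff₀ (by positivity) (by positivity), mul_one, one_mul,
      ← pow_add, ← pow_add]
    exact pow_le_pow_right₀ one_le_two (by omega)
  have h5 := mul_le_mul_of_nonneg_left (add_le_add h3 h4) h0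
  refine le_trans (le_of_eq ?_) ((abs_sub _ _).trans ((add_le_add h1 h2).trans ?_))
  · congr 1
    rw [off]
    ring
  · rw [show (1 + 2 * L1) / 2 ^ k = 1 / 2 ^ k + L1 * (1 / 2 ^ k + 1 / 2 ^ k) by ring]
    linarith

theorem sl_err (a : X.Alg τ M M L) (hj : j + i ≤ M) (hk : k ≤ τ j + i) (h0 : 0 ≤ L) {ω : X.Ω}
    (hω : ω ∈ X.P.S) : |X.b ω - X.pt j ω - X.px j ω * X.w ω| ≤ L * 2 ^ (j + i) / 2 ^ k := by
  refine (a.fit j (by omega) ω hω).2.trans (le_trans (le_of_eq ?_) (div_pow_le (by positivity) hk))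
  rw [pow_add, pow_add]
  field_simp

theorem fit (a : X.Alg τ M M L) (hj : j + i ≤ M) (hp : k ≤ p) (hM : p ≤ M) (hk : k ≤ τ j + i)
    (h0 : 0 ≤ L) (h1 : 0 ≤ L1) {s : ℕ} (hs : s ≤ k) (hA : 2 + 4 * L1 + L ≤ 2 ^ s) {ω : X.Ω}
    (hω : ω ∈ X.P.S) (e : |X.px j ω| ≤ L1 * (1 + 2 ^ j / 2 ^ τ j)) :
    X.Fit 4 (rd k (off X M p j ω), X.pt j ω, X.px j ω) ω (j + i) (k - s) := by
  have h2 : (2 + 4 * L1 + L) / 2 ^ k ≤ 4 / 2 ^ (k - s) := by
    rw [div_le_div_iff₀ (by positivity) (by positivity), ← Nat.add_sub_cancel' hs, pow_add,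
      Nat.add_sub_cancel' hs, ← mul_assoc]
    exact mul_le_mul_of_nonneg_right (by linarith [pow_pos (two_pos (α := ℝ)) s]) (by positivity)
  have h3 := pt_err hj hp hM hk h1 e
  have h4 := abs_sub_rd k (off X M p j ω)
  refine ⟨le_trans (le_of_eq ?_) ((abs_add_le _ _).trans ((add_le_add h3 h4).trans
    (le_trans ?_ h2))), (sl_err a hj hk h0 hω).trans ?_⟩
  · congr 1
    ring
  · rw [← add_div]
    exact div_le_div_of_nonneg_right (by linarith) (by positivity)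
  · rw [mul_div_right_comm, mul_div_right_comm]
    refine mul_le_mul_of_nonneg_right (le_trans ?_ h2) (by positivity)
    gcongr
    linarith

theorem near (a : X.Alg τ M M L) (hj : j + i ≤ M) (hp : k ≤ p) (hM : p ≤ M) (hk : k ≤ τ j + i)
    (h0 : 0 ≤ L) (h1 : 0 ≤ L1) {ω ω' : X.Ω} (hω : ω ∈ X.P.S) (hω' : ω' ∈ X.P.S)
    (e : |X.px j ω| ≤ L1 * (1 + 2 ^ j / 2 ^ τ j)) (e' : |X.px j ω'| ≤ L1 * (1 + 2 ^ j / 2 ^ τ j))
    (c : (X.S j ω, X.l ω, fl1 (j + i) (X.t ω)) = (X.S j ω', X.l ω', fl1 (j + i) (X.t ω'))) :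
    |off X M p j ω - off X M p j ω'| ≤ (2 + 4 * L1 + L) / 2 ^ k := by
  simp only [Prod.mk.injEq] at c
  obtain ⟨c1, c2, c3⟩ := c
  have h2 := pt_err hj hp hM hk h1 e
  have h3 := pt_err hj hp hM hk h1 e'
  have h4 : |(X.t ω - X.t ω') * (X.b ω - X.pt j ω - X.px j ω * X.w ω)| ≤ L / 2 ^ k := by
    rw [abs_mul]
    exact (mul_le_mul (near_of_fl1 c3) (sl_err a hj hk h0 hω) (abs_nonneg _)
      (by positivity)).trans_eq (by field_simp)
  have h5 := a.plS le_rfl (show j ≤ M by omega) ω hω ω' hω' c1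
  have h6 : X.pt j ω' = X.pt j ω := by rw [U3.pt, U3.pt, h5]
  have h7 : X.px j ω' = X.px j ω := by rw [U3.px, U3.px, h5]
  rw [U3.u, U3.x] at h2 h3
  rw [← a.al ω hω ω' hω' c2, ← a.wl ω hω ω' hω' c2, ← a.nl ω hω ω' hω' c2,
    ← a.bl ω hω ω' hω' c2, h6, h7] at h3
  rw [show (2 + 4 * L1 + L) / 2 ^ k = (1 + 2 * L1) / 2 ^ k + (1 + 2 * L1) / 2 ^ k + L / 2 ^ k by
    ring]
  rw [abs_le] at h2 h3 h4 ⊢
  constructor <;> linarith [h2.1, h2.2, h3.1, h3.2, h4.1, h4.2]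

theorem off_fn (a : X.Alg τ M M L) (hj : j ≤ M) (f : Fn X.P (fun ω => fl1 p (X.u ω)) X.y) :
    Fn X.P (off X M p j) fun ω => (X.S j ω, X.y ω) := fun v b w c d => by
  have h1 := a.plS le_rfl hj v b w c (congrArg Prod.fst d)
  have h2 := a.ty v b w c (congrArg Prod.snd d)
  have h3 := rd_congr (a.xz.trans a.fz v b w c (congrArg Prod.snd d))
  have h4 := rd_congr (f v b w c (congrArg Prod.snd d))
  rw [off, off, U3.pt, U3.pt, U3.px, U3.px, h1, h2, h3, h4]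

end UGGrowA

open UGGrowA in
theorem rowGGrow : RGGrow := by
  intro hX hB hLow η X M p lo hi τ φ G j i hji
  have hj : ∀ n, j n ≤ M n := fun n => (Nat.le_add_right _ _).trans (hji n)
  obtain ⟨L, hL, alg⟩ := G.alg
  obtain ⟨L1, hL1, tb⟩ := hB η X M p lo hi τ φ G j hj
  have hA := ((G.big.sub one_le_two).add (hL1.const_mul G.big (C := 4) (by norm_num)) G.big).add
    hL G.big
  obtain ⟨s, hs, hAs⟩ := ex_pow G.big hA
  set k : ℕ → ℕ := fun n => min (p n) (τ n (j n) + i n) with hk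
  rcases ev_em (fun n => s n ≤ k n) with c | c
  · have hpos := tb.pos
    have dn := dnS_cE hpos
    have su := (hpos.sure.and alg).and G.fat
    refine ⟨fun n => k n - s n, hs.of_sub (c.mono fun n a => ?_),
      fun n => (Nat.sub_le _ _).trans (min_le_left _ _), _, _, _, _,
      fun n ω => ((X n).S (j n) ω, fl1 (k n) (off (X n) (M n) (p n) (j n) ω)),
      fun n ω => (rd (k n) (off (X n) (M n) (p n) (j n) ω), (X n).pt (j n) ω, (X n).px (j n) ω),
      dn, ?_, ?_, ?_⟩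
    · rw [Nat.cast_sub a]
      linarith
    · refine ((dn.sm_mi G.big (G.hk j hj)).add (Sm.near1 (j := k)
        (x := fun n => off (X n) (M n) (p n) (j n))
        (G := fun n ω => ((X n).S (j n) ω, (X n).l ω, fl1 (j n + i n) ((X n).t ω))) G.big hA
        (su.mono fun n a v b w d e => near a.1.2 (hji n) (min_le_left _ _) (G.le n).1
          (min_le_right _ _) (hL.pos n).le (hL1.pos n).le (a.1.1 v b).1 (a.1.1 w d).1
          (a.1.1 v b).2 (a.1.1 w d).2 e))).mono (Eventually.of_forall fun n => ?_)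
      refine (mi_symm _ _ _).trans_le ((mi_near _ _ ((X n).S (j n)) _).trans
        (add_le_add ((mi_symm _ _ _).trans_le (mi_cond ?_ ?_)) (ch_mono ?_)))
      · intro v _ w _ e
        simp only [Prod.mk.injEq] at e ⊢
        exact ⟨e.1, fl1_eq_of_le (Nat.le_add_right _ _) e.2⟩
      · intro v _ w _ e
        simp only [Prod.mk.injEq] at e ⊢
        exact ⟨e.2.1, congrArg _ e.1⟩
      · intro v _ w _ e
        simp only [Prod.mk.injEq] at e ⊢
        exact ⟨e.2.1, e.1⟩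
    · refine (dn.sm_mi G.big ((hX η X M p lo hi τ φ G).lk j hj)).mono
        (su.mono fun n a => mi_mono' fun v b w d e => ?_)
      exact Prod.ext (congrArg (·.1) e :) (congrArg (fl1 (k n))
        (off_fn a.1.2 (hj n) a.2.2.1 v (a.1.1 v b).1 w (a.1.1 w d).1 e))
    · filter_upwards [su, c] with n a c
      refine ⟨fun v b w d e => ?_, fun v b => fit a.1.2 (hji n) (min_le_left _ _) (G.le n).1
        (min_le_right _ _) (hL.pos n).le (hL1.pos n).le c (hAs n) (a.1.1 v b).1 (a.1.1 v b).2⟩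
      have h1 := a.1.2.plS le_rfl (hj n) v (a.1.1 v b).1 w (a.1.1 w d).1 (congrArg Prod.fst e)
      simp only [U3.pt, U3.px, h1, rd_congr (congrArg Prod.snd e)]
  · obtain ⟨th, -, h2, h3⟩ := hLow η X M p lo hi τ φ G (fun n => j n + i n) hji
    refine ⟨th, hs.of_sub (c.mono fun n a => ?_), h2, h3⟩
    have h4 : (k n : ℝ) ≤ s n := by exact_mod_cast (not_le.1 a).le
    have h5 : (0 : ℝ) ≤ th n := Nat.cast_nonneg _
    linarith

end Pool.Agent.MP_5168f5_an.R4.U
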