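import Pool.Agent.MP_5168f5_an.R4.USpec

/-! The cube of level `j` is a label. -/

namespace Pool.Agent.MP_5168f5_an.R4.U

open H19 H17S H17F Filter K31

namespace UGLowA

/-- The offset of the plane with integer slope. -/
noncomputable def off (X : U3) (p : ℕ) (ω : X.Ω) : ℝ := rd p (X.u ω) - rd 0 (X.b ω) * X.t ω

theorem fit (X : U3) {j p k : ℕ} (hj : k ≤ j) (hp : k ≤ p) (ω : X.Ω) :
    X.Fit 4 (rd k (off X p ω), rd 0 (X.b ω), 0) ω j k := by
  have h1 := abs_le.1 ((abs_sub_rd p (X.u ω)).trans (div_pow_le zero_le_one hp))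
  have h2 := abs_le.1 (abs_sub_rd k (off X p ω))
  have h3 : (0 : ℝ) < 1 / 2 ^ k := by positivity
  refine ⟨?_, ?_⟩
  · rw [abs_le, show (4 : ℝ) / 2 ^ k = 4 * (1 / 2 ^ k) by ring]
    unfold off at *
    constructor <;> simp only <;> linarith [h1.1, h1.2, h2.1, h2.2]
  · have h4 : (2 : ℝ) ^ k ≤ 2 ^ j := pow_le_pow_right₀ one_le_two hj
    simp only [zero_mul, sub_zero]
    refine (abs_sub_rd 0 _).trans ?_
    rw [pow_zero, div_one, le_div_iff₀ (by positivity)]
    linarith [pow_pos (two_pos (α := ℝ)) k]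

theorem near {X : U3} {τ : ℕ → ℕ} {D R j p k : ℕ} {L : ℝ} (h : X.Alg τ D R L) (hj : k ≤ j)
    (hp : k ≤ p) {a b : X.Ω} (ha : a ∈ X.P.S) (hb : b ∈ X.P.S) (e : X.l a = X.l b)
    (e' : fl1 j (X.t a) = fl1 j (X.t b)) : |off X p a - off X p b| ≤ 3 / 2 ^ k := by
  have h1 := abs_le.1 ((abs_sub_rd p (X.u a)).trans (div_pow_le zero_le_one hp))
  have h2 := abs_le.1 ((abs_sub_rd p (X.u b)).trans (div_pow_le zero_le_one hp))
  have h3 : |(X.b b - rd 0 (X.b b)) * (X.t a - X.t b)| ≤ 1 / 2 ^ k := by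
    rw [abs_mul]
    exact (mul_le_of_le_one_left (abs_nonneg _) ((abs_sub_rd 0 _).trans (by simp))).trans
      ((near_of_fl1 e').trans (div_pow_le zero_le_one hj))
  rw [abs_le] at h3
  rw [abs_le, show (3 : ℝ) / 2 ^ k = 3 * (1 / 2 ^ k) by ring]
  unfold off U3.u at *
  rw [h.bl a ha b hb e, h.nl a ha b hb e] at *
  constructor <;> linarith [h1.1, h1.2, h2.1, h2.2, h3.1, h3.2]

end UGLowA

open UGLowA in
theorem rowGLow : GLow := by
  intro η X M p lo hi τ φ h j _
  obtain ⟨L, sL, hL⟩ := h.alg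
  refine ⟨fun n => min (j n) (p n), Le.rfl, fun n => min_le_right _ _, fun n => (X n).Ω,
    fun _ => ℤ × ℤ, PP X, fun _ => id,
    fun n ω => (fl1 (min (j n) (p n)) (off (X n) (p n) ω), fl1 0 ((X n).b ω)),
    fun n ω => (rd (min (j n) (p n)) (off (X n) (p n) ω), rd 0 ((X n).b ω), 0), dnS_rfl _, ?_, ?_,
    Eventually.of_forall fun n => ⟨fun a _ b _ e => ?_, fun ω _ =>
      fit (X n) (min_le_left _ _) (min_le_right _ _) ω⟩⟩
  · refine (Sm.near1 (P := PP X) (x := fun n => off (X n) (p n)) (j := fun n => min (j n) (p n))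
      (G := fun n ω => ((X n).l ω, fl1 (j n) ((X n).t ω))) h.big (h.big.sub (C := 3) (by norm_num))
      (hL.mono fun n k a ha b hb e => near k (min_le_left _ _) (min_le_right _ _) ha hb
        (congrArg Prod.fst e) (congrArg Prod.snd e))).mono (hL.mono fun n k =>
          (mi_le _ _ _).trans (ch_mono fun a ha b hb e => ?_))
    simp only [Prod.mk.injEq] at e ⊢
    exact ⟨e.1, by rw [k.bl a ha b hb e.2.1]⟩
  · refine (Sm.near1 (P := PP X) (x := fun n => (X n).b) (j := fun _ => 0) (G := fun n => (X n).y)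
      h.big (sL.const_mul h.big one_le_two) (hL.mono fun n k a ha b hb _ => ?_)).mono
      ((hL.and h.fat).mono fun n k => (mi_le _ _ _).trans (ch_mono fun a ha b hb e => ?_))
    · rw [pow_zero, div_one]
      linarith [abs_sub ((X n).b a) ((X n).b b), (k.bd a ha).2.2.2.1, (k.bd b hb).2.2.2.1]
    · simp only [Prod.mk.injEq] at e ⊢
      refine ⟨?_, e.1⟩
      rw [off, off, rd_congr e.1, rd_congr (k.2.2.1 a ha b hb e.2), k.1.ty a ha b hb e.2]
  · simp only [Prod.mk.injEq] at e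
    simp only [rd_congr e.1, rd_congr e.2]

end Pool.Agent.MP_5168f5_an.R4.U
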