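import Pool.Agent.MP_5168f5_an.R4.USpec

/-! Two cells at the floor on one line leak little. -/

namespace Pool.Agent.MP_5168f5_an.R4.U

open H19 H17S H17F Filter K31

namespace UGShareA

section Fin

variable {Ω Ω' α β δ Λ Y T : Type}

theorem mk2 (P : FP Ω) (Q : FP Ω') (φ : Ω → β) (ψ : Ω' → β) (f : Ω → α) (G : Ω' → δ)
    (h : Law P φ Q ψ) (k : Fn Q ψ G) :
    ch P f φ ≤ ch (glue P Q φ ψ) (fun v => f v.1) fun v => G v.2 := by
  have h1 := kg.mkv' P Q φ ψ f (fun _ => ()) G h k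
  have h2 : ch P f φ ≤ ch P f fun x => (φ x, ()) :=
    ch_anti ((Fn.rfl φ).pair fun _ _ _ _ _ => rfl)
  have h3 : ch (glue P Q φ ψ) (fun v => f v.1) (fun v => (G v.2, ())) ≤
      ch (glue P Q φ ψ) (fun v => f v.1) fun v => G v.2 := ch_anti (Fn.fst _ _)
  linarith

theorem info (P : FP Ω) (φ : Ω → δ) (S : Ω → β) (l : Ω → Λ) (y : Ω → Y) (t : Ω → T)
    (h1 : Fn P φ fun ω => (l ω, y ω)) (h2 : Fn P l φ) (h3 : Fn P φ fun ω => (l ω, S ω))
    (h4 : Fn P y fun ω => (l ω, t ω)) (h5 : Fn P t y) :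
    mi (glue P P φ φ) (fun c => (S c.1, S c.2)) (fun c => l c.1) (fun c => y c.1) ≤
      2 * mi P S l y + ch (glue P P φ φ) (fun c => y c.1) (fun c => S c.2) - ch P y S := by
  have f1 := kg.fst P P φ φ
  have f2 := kg.snd P P φ φ (Law.rfl _)
  have sh : ∀ c ∈ (glue P P φ φ).S, l c.1 = l c.2 := fun c hc =>
    h2 _ (f1.mem hc) _ (f2.mem hc) ((mem_copy P φ c).1 hc).2.2.symm
  have a1 := mi_chain (P := glue P P φ φ) (fun c => l c.1) (fun c => S c.1) (fun c => S c.2)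
    fun c => y c.1
  have a2 := f1.mi_id l S y
  have a3 := mi_symm (P := glue P P φ φ) (fun c => l c.1) (fun c => S c.2) fun c => (S c.1, y c.1)
  have a4 : ch (glue P P φ φ) (fun c => S c.2) (fun c => (S c.1, y c.1)) ≤
      ch (glue P P φ φ) (fun c => S c.2) fun c => y c.1 := ch_anti (Fn.snd _ _)
  have a5 := kg.mk1 P P φ φ S (fun x => (l x, S x, y x)) (Law.rfl _)
    (h1.trans fun _ _ _ _ e => congrArg (fun v => (v.1, v.2.2)) e)
  have a6 := kg.mk1 P P φ φ S (fun x => (l x, y x)) (Law.rfl _) h1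
  have a7 := ch_symm (P := glue P P φ φ) (fun c => S c.2) (fun c => l c.1) fun c => y c.1
  have a8 := f1.ch_id l y
  have a9 := ch_symm (P := glue P P φ φ) (fun c => l c.1) (fun c => y c.1) fun c => S c.2
  have b9 : ch (glue P P φ φ) (fun c => l c.1) (fun c => (y c.1, S c.2)) ≤
      ch (glue P P φ φ) (fun c => l c.1) fun c => (S c.2, y c.1) :=
    ch_anti ((Fn.snd _ _).pair (Fn.fst _ _))
  have a10 := ch_symm (P := P) l y S
  have b10 : ch P l (fun ω => (S ω, y ω)) ≤ ch P l fun ω => (y ω, S ω) :=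
    ch_anti ((Fn.snd _ _).pair (Fn.fst _ _))
  have a11 : ch (glue P P φ φ) (fun c => l c.1) (fun c => S c.2) = ch P l S :=
    (ch_ext sh fun _ _ => rfl).trans (f2.ch_id l S)
  have a12 : ch P y (fun ω => (l ω, S ω)) ≤ ch P t φ :=
    ch_le (h4.trans fun _ _ _ _ e => congrArg (fun v => (v.2.1, v.1)) e) h3
  have a13 := mk2 P P φ φ t (fun x => (l x, S x)) (Law.rfl _) h3
  have a14 : ch (glue P P φ φ) (fun c => t c.1) (fun c => (l c.2, S c.2)) ≤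
      ch (glue P P φ φ) (fun c => y c.1) fun c => (l c.1, S c.2) :=
    ch_le ((f1.fn h5).left _) fun a ha b hb e => by
      obtain ⟨e1, e2⟩ := Prod.mk.inj e
      exact Prod.ext ((sh a ha).trans (e1.trans (sh b hb).symm)) e2
  have a15 := mi_symm (P := P) S l y
  rw [mi_symm]
  unfold mi at *
  linarith

end Fin

section Geo

variable {X : U3} {τ : ℕ → ℕ} {M : ℕ} {L : ℝ} (h : X.Alg τ M M L) {i W : ℕ}

/-- Two heights in one window. -/
noncomputable abbrev Q (X : U3) (i : ℕ) : FP (X.Ω × X.Ω) :=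
  glue X.P X.P (fun ω => (X.l ω, fl1 i (X.t ω))) fun ω => (X.l ω, fl1 i (X.t ω))

theorem mem {c : X.Ω × X.Ω} (hc : c ∈ (Q X i).S) :
    c.1 ∈ X.P.S ∧ c.2 ∈ X.P.S ∧ X.l c.2 = X.l c.1 ∧ fl1 i (X.t c.2) = fl1 i (X.t c.1) := by
  obtain ⟨a, b, d⟩ := (mem_copy _ _ c).1 hc
  exact ⟨a, b, Prod.mk.inj d⟩

include h

theorem low (j : ℕ) : ch X.P X.t (fun ω => (X.l ω, X.S j ω)) +
    ch X.P (fun ω => fl1 M (X.x ω)) (fun ω => (X.t ω, X.S j ω)) ≤ ch X.P X.y (X.S j) := by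
  have a1 : ch X.P (fun ω => (X.t ω, fl1 M (X.x ω))) (X.S j) ≤ ch X.P X.y (X.S j) :=
    ch_mono ((h.ty.pair (h.xz.trans h.fz)).left _)
  have a2 : ch X.P X.t (fun ω => (X.l ω, X.S j ω)) ≤ ch X.P X.t (X.S j) := ch_anti (Fn.snd _ _)
  rw [ch_chain] at a1
  linarith

theorem upp (hj : i + W ≤ M) {p : ℕ} (g1 : Fn X.P X.y fun ω => (X.z ω, fl1 p (X.u ω)))
    (g2 : Fn X.P X.z fun ω => (X.t ω, fl1 M (X.x ω), X.S 0 ω)) :
    ch (Q X i) (fun c => X.y c.1) (fun c => X.S (i + W) c.2) ≤ W * lg +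
      ch X.P X.t (fun ω => (fl1 (i + W) (X.t ω), X.S 0 ω)) +
      ch (Q X i) (fun c => fl1 M (X.x c.1)) (fun c => (X.t c.1, X.S (i + W) c.2)) +
      ch (Q X i) (fun c => fl1 p (X.u c.1))
        fun c => ((X.t c.1, fl1 M (X.x c.1)), X.S (i + W) c.2) := by
  have s0 : Fn (Q X i) (fun c => X.S 0 c.1) fun c => X.S (i + W) c.2 := fun a ha b hb e => by
    obtain ⟨a1, a2, a3, -⟩ := mem ha
    obtain ⟨b1, b2, b3, -⟩ := mem hb
    exact (h.sl _ a2 _ a1 a3).symm.trans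
      ((h.nest 0 _ (Nat.zero_le _) hj _ a2 _ b2 e).trans (h.sl _ b2 _ b1 b3))
  have a1 : ch (Q X i) (fun c => X.y c.1) (fun c => X.S (i + W) c.2) ≤ ch (Q X i)
      (fun c => ((X.t c.1, fl1 M (X.x c.1)), fl1 p (X.u c.1))) fun c => X.S (i + W) c.2 := by
    refine ch_mono fun a ha b hb e => ?_
    simp only [Prod.mk.injEq] at e
    refine g1 _ (mem ha).1 _ (mem hb).1 (Prod.ext (g2 _ (mem ha).1 _ (mem hb).1 ?_) e.1.2)
    exact Prod.ext e.1.1.1 (Prod.ext e.1.1.2 (s0 a ha b hb e.2))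
  have a2 := ch_tri (P := Q X i) (fun c => X.t c.1) (fun c => fl1 (i + W) (X.t c.1))
    fun c => X.S (i + W) c.2
  have a3 := ch_fl1_refine (P := Q X i) (x := fun c => X.t c.1) (G := fun c => X.S (i + W) c.2)
    (j := fun _ => i) (i := fun _ => W) (fun _ _ _ _ _ => rfl) (fun _ _ _ _ _ => rfl)
    fun a ha b hb e => (mem ha).2.2.2.symm.trans ((h.tS (Nat.le_add_right i W) hj _ (mem ha).2.1 _
      (mem hb).2.1 e).trans (mem hb).2.2.2)
  have a4 : ch (Q X i) (fun c => X.t c.1) (fun c => (fl1 (i + W) (X.t c.1), X.S (i + W) c.2)) ≤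
      ch (Q X i) (fun c => X.t c.1) fun c => (fl1 (i + W) (X.t c.1), X.S 0 c.1) :=
    ch_anti ((Fn.fst _ _).pair (s0.right _))
  have a5 := (kg.fst X.P X.P (fun ω => (X.l ω, fl1 i (X.t ω))) fun ω =>
    (X.l ω, fl1 i (X.t ω))).ch_id X.t fun ω => (fl1 (i + W) (X.t ω), X.S 0 ω)
  rw [FP.E_const] at a3
  rw [ch_chain, ch_chain] at a1
  linarith

theorem nearx {c : X.Ω × X.Ω} (hc : c ∈ (Q X i).S) : |X.x c.1 - X.x c.2| ≤ L / 2 ^ i := by
  obtain ⟨a, b, d, e⟩ := mem hc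
  have e1 : X.x c.1 - X.x c.2 = X.w c.1 * (X.t c.1 - X.t c.2) := by
    rw [U3.x, U3.x, h.al _ b _ a d, h.wl _ b _ a d]; ring
  rw [e1, abs_mul, div_eq_mul_one_div]
  exact mul_le_mul (h.bd _ a).2.1 (near_of_fl1 e.symm) (abs_nonneg _)
    ((abs_nonneg _).trans (h.bd _ a).1)

theorem geo1 (hL : 1 ≤ L) (hj : i + W ≤ M) {a b : X.Ω × X.Ω} (ha : a ∈ (Q X i).S)
    (hb : b ∈ (Q X i).S) (e : X.S (i + W) a.2 = X.S (i + W) b.2) :
    |X.x a.1 - X.x b.1| ≤ 3 * L / 2 ^ i := by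
  have h1 := abs_le.1 (nearx h ha)
  have h2 := abs_le.1 (nearx h hb)
  have h3 := abs_le.1 ((near_of_fl1 (h.xS (Nat.le_add_right i W) hj _ (mem ha).2.1 _
    (mem hb).2.1 e)).trans (div_le_div_of_nonneg_right hL (by positivity)))
  rw [mul_div_assoc, abs_le]
  constructor <;> linarith [h1.1, h1.2, h2.1, h2.2, h3.1, h3.2]

theorem fit (hj : i + W ≤ M) {k : ℕ} (hk : τ (i + W) = W + k) {c : X.Ω × X.Ω}
    (hc : c ∈ (Q X i).S) : |X.u c.1 - (X.pl (i + W) c.2).1 - (X.pl (i + W) c.2).2.1 * X.t c.1 -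
      (X.pl (i + W) c.2).2.2 * X.x c.1| ≤ 2 * (L / 2 ^ k) := by
  obtain ⟨a, b, d, e⟩ := mem hc
  obtain ⟨f1, f2⟩ := h.fit _ hj _ b
  have L0 : 0 ≤ L := (abs_nonneg _).trans (h.bd _ a).1
  have e1 : X.u c.1 - (X.pl (i + W) c.2).1 - (X.pl (i + W) c.2).2.1 * X.t c.1 -
      (X.pl (i + W) c.2).2.2 * X.x c.1 = (X.u c.2 - (X.pl (i + W) c.2).1 -
        (X.pl (i + W) c.2).2.1 * X.t c.2 - (X.pl (i + W) c.2).2.2 * X.x c.2) +
      (X.b c.2 - (X.pl (i + W) c.2).2.1 - (X.pl (i + W) c.2).2.2 * X.w c.2) *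
        (X.t c.1 - X.t c.2) := by
    rw [U3.x, U3.x, U3.u, U3.u, h.al _ b _ a d, h.wl _ b _ a d, h.nl _ b _ a d, h.bl _ b _ a d]
    ring
  have e2 : L * 2 ^ (i + W) / 2 ^ (W + k) * (1 / 2 ^ i) = L / 2 ^ k := by
    rw [pow_add, pow_add]; field_simp
  rw [hk] at f1 f2
  have f3 := mul_le_mul f2 (near_of_fl1 e.symm) (abs_nonneg _) (by positivity)
  rw [e2, ← abs_mul] at f3
  have f4 := f1.trans (div_pow_le L0 (Nat.le_add_left k W))
  rw [e1]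
  exact (abs_add_le _ _).trans (by linarith)

omit h in
theorem num {s d L₁ : ℝ} {j k m : ℕ} (h0 : 0 ≤ L₁) (hj : j ≤ M) (hk : k ≤ m) (hm : m ≤ M)
    (h1 : |s| ≤ L₁ * (1 + 2 ^ j / 2 ^ m)) (h2 : |d| ≤ 1 / 2 ^ M) : |s * d| ≤ 2 * (L₁ / 2 ^ k) := by
  have e : L₁ * (1 + 2 ^ j / 2 ^ m) * (1 / 2 ^ M) =
      L₁ / 2 ^ M + L₁ / 2 ^ m * (2 ^ j / 2 ^ M) := by ring
  have a1 := div_pow_le h0 (hk.trans hm)
  have a2 := div_pow_le h0 hk
  have a3 : L₁ / 2 ^ m * (2 ^ j / 2 ^ M) ≤ L₁ / 2 ^ m := mul_le_of_le_one_right (by positivity)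
    ((div_le_one (by positivity)).2 (pow_le_pow_right₀ one_le_two hj))
  have a4 := mul_le_mul h1 h2 (abs_nonneg _) (by positivity)
  rw [abs_mul]
  linarith

theorem geo2 (hj : i + W ≤ M) (hτ : τ (i + W) ≤ M) {L₁ : ℝ} (h0 : 0 ≤ L₁) {a b : X.Ω × X.Ω}
    (ha : a ∈ (Q X i).S) (hb : b ∈ (Q X i).S)
    (e : ((X.t a.1, fl1 M (X.x a.1)), X.S (i + W) a.2) =
      ((X.t b.1, fl1 M (X.x b.1)), X.S (i + W) b.2))
    (s : |X.px (i + W) a.2| ≤ L₁ * (1 + 2 ^ (i + W) / 2 ^ τ (i + W))) :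
    |X.u a.1 - X.u b.1| ≤ (4 * L + 2 * L₁) / 2 ^ (τ (i + W) - W) := by
  simp only [Prod.mk.injEq] at e
  by_cases k : W ≤ τ (i + W)
  · have hk := (Nat.add_sub_of_le k).symm
    have h1 := abs_le.1 (fit h hj hk ha)
    have h2 := abs_le.1 (fit h hj hk hb)
    have h3 := abs_le.1 (num h0 hj (Nat.sub_le (τ (i + W)) W) hτ s (near_of_fl1 e.1.2))
    rw [← h.plS le_rfl hj _ (mem ha).2.1 _ (mem hb).2.1 e.2, ← e.1.1] at h2
    rw [U3.px, mul_sub] at h3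
    rw [add_div, mul_div_assoc, mul_div_assoc, abs_le]
    constructor <;> linarith [h1.1, h1.2, h2.1, h2.2, h3.1, h3.2]
  · rw [Nat.sub_eq_zero_of_le (not_le.1 k).le, pow_zero, div_one]
    exact (abs_sub _ _).trans (by linarith [h.abs_u (mem ha).1, h.abs_u (mem hb).1])

end Geo

theorem fano1 {W β : ℕ → Type} (Q : ∀ n, FP (W n)) (x : ∀ n, W n → ℝ) (G : ∀ n, W n → β n)
    (E : ∀ n, W n → Prop) {M k : ℕ → ℕ} {L L' : ℕ → ℝ} (hM : Big M) (hL : Sub M L)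
    (hL' : Sub M L') (hE : Whp Q E) (h : ∀ᶠ n in UF, k n ≤ M n ∧ (∀ a ∈ (Q n).S, |x n a| ≤ L n) ∧
      ∀ a ∈ (Q n).S, ∀ b ∈ (Q n).S, G n a = G n b → E n a → |x n a - x n b| ≤ L' n / 2 ^ k n) :
    Sm M fun n => ch (Q n) (fun v => fl1 (k n) (x n v)) (G n) := by
  refine ks.fano Q E _ _ M _ 2 hM
    ((hL'.const_mul hM one_le_two).add (hM.sub (by norm_num : (1 : ℝ) ≤ 3)) hM) hE ?_
  filter_upwards [h, (hL.const_mul hM (by norm_num : (1 : ℝ) ≤ 7)).2 1 one_pos]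
    with n ⟨e1, e2, e4⟩ e3
  have l1 := hL.1 n
  have p1 : (1 : ℝ) ≤ 2 ^ k n := one_le_pow₀ one_le_two
  refine ⟨fun a ha => (det_near1 (L := 2 * L n * 2 ^ k n) (by positivity) (fun a ha b hb _ => ?_)
    a ha).imp fun T hT => ⟨hT.1.trans ?_, hT.2⟩, fun a ha => ⟨Finset.Icc
      (fl1 (k n) (x n a) - ⌈L' n⌉₊) (fl1 (k n) (x n a) + ⌈L' n⌉₊), ?_,
      fun b hb e u => fl1_mem_Icc ?_⟩⟩
  · rw [mul_div_cancel_right₀ _ (by positivity)]
    exact (abs_sub _ _).trans (by linarith [e2 a ha, e2 b hb])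
  · have p2 := (two_pow_le_exp (k n)).trans (Real.exp_le_exp.2 (Nat.cast_le.2 e1))
    have p3 := mul_le_mul e3 p2 (by positivity) (Real.exp_pos _).le
    rw [one_mul, ← Real.exp_add, ← two_mul] at p3
    nlinarith
  · rw [show (Finset.Icc (fl1 (k n) (x n a) - ⌈L' n⌉₊)
      (fl1 (k n) (x n a) + ⌈L' n⌉₊)).card = 2 * ⌈L' n⌉₊ + 1 by rw [Int.card_Icc]; omega]
    push_cast
    linarith [Nat.ceil_lt_add_one (hL'.pos n).le]
  · refine (e4 b hb a ha e u).trans ?_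
    rw [div_eq_mul_inv]
    exact mul_le_mul_of_nonneg_right (Nat.le_ceil _) (by positivity)

end UGShareA

open UGShareA in
theorem rowGShare : RGShare := by
  intro gx gtb η X M p lo hi τ φ h i W hj hp
  have gx := gx η X M p lo hi τ φ h
  obtain ⟨L₁, s1, w1⟩ := gtb η X M p lo hi τ φ h (fun n => i n + W n) hj
  obtain ⟨L, s, hA⟩ := h.alg
  have hM := h.big
  have w2 : Whp (PW X i) fun n c => |(X n).px (i n + W n) c.2| ≤
      L₁ n * (1 + 2 ^ (i n + W n) / 2 ^ τ n (i n + W n)) := (dnS_snd (PP X) _).whp w1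
  have b1 := le_fl1 (P := PW X i) (x := fun n c => (X n).x c.1)
    (G := fun n c => ((X n).t c.1, (X n).S (i n + W n) c.2)) (j := i) (k := M) hM
    (s.const_mul hM (by norm_num : (1 : ℝ) ≤ 3)) (fun n => (Nat.le_add_right _ _).trans (hj n))
    (hA.mono fun n a u hu v hv e => geo1 a (s.1 n) (hj n) hu hv (Prod.mk.inj e).2)
  have b2 := fano1 (PW X i) (fun n c => (X n).u c.1)
    (fun n c => (((X n).t c.1, fl1 (M n) ((X n).x c.1)), (X n).S (i n + W n) c.2)) _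
    (k := fun n => τ n (i n + W n) - W n) hM (s.const_mul hM one_le_two)
    ((s.const_mul hM (by norm_num : (1 : ℝ) ≤ 4)).add (s1.const_mul hM one_le_two) hM) w2 (by
      filter_upwards [hA, h.mono] with n a b
      have t1 := (b.2 (i n + W n)).trans (h.le n).1
      exact ⟨(Nat.sub_le _ _).trans t1, fun c hc => a.abs_u (mem hc).1,
        fun u hu v hv e k => geo2 a (hj n) t1 (s1.pos n).le hu hv e k⟩)
  refine Le.of6 ((gx.lk _ hj).smul zero_le_two) (gx.tz _ hj) (h.xa _ hj) b1 b2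
    (hp.smul lg_pos.le) ?_
  filter_upwards [hA, h.mono, h.fat] with n a b f
  have c1 := info (X n).P (fun ω => ((X n).l ω, fl1 (i n) ((X n).t ω))) ((X n).S (i n + W n))
    (X n).l (X n).y (X n).t ((Fn.fst _ _).pair (((Fn.comp (fl1 (i n)) _).trans a.ty).right _))
    (Fn.fst _ _) ((Fn.fst _ _).pair ((a.tS (Nat.le_add_right _ _) (hj n)).right _)) a.fy a.ty
  have c2 := low a (i n + W n)
  have c3 := upp a (hj n) f.1 f.2.2
  have c4 := ch_tri (P := PW X i n) (fun c => fl1 (p n) ((X n).u c.1))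
    (fun c => fl1 (τ n (i n + W n) - W n) ((X n).u c.1))
    fun c => (((X n).t c.1, fl1 (M n) ((X n).x c.1)), (X n).S (i n + W n) c.2)
  obtain ⟨d, hd⟩ := Nat.exists_eq_add_of_le ((Nat.sub_le _ (W n)).trans (b.2 (i n + W n)))
  have c5 := ch_fl1_refine (P := PW X i n) (x := fun c => (X n).u c.1)
    (G := fun c => (fl1 (τ n (i n + W n) - W n) ((X n).u c.1),
      ((X n).t c.1, fl1 (M n) ((X n).x c.1)), (X n).S (i n + W n) c.2))
    (j := fun _ => τ n (i n + W n) - W n) (i := fun _ => d) (fun _ _ _ _ _ => rfl)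
    (fun _ _ _ _ _ => rfl) (Fn.fst _ _)
  have c6 : (d : ℝ) + τ n (i n + W n) ≤ p n + W n := by exact_mod_cast (by omega)
  have c7 := mul_le_mul_of_nonneg_right c6 lg_pos.le
  rw [FP.E_const, ← hd] at c5
  unfold U3.lk
  push_cast
  linarith

end Pool.Agent.MP_5168f5_an.R4.U
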