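import Pool.Agent.MP_5168f5_an.R4.USpec

/-! Entropy facts on the global system, and the slopes of its planes. -/

namespace Pool.Agent.MP_5168f5_an.R4.U

open H19 H17S H17F Filter K31

namespace UGXA

theorem ref {Ω β : Type} {P : FP Ω} {x : Ω → ℝ} {G : Ω → β} {j k : ℕ} (e : j ≤ k)
    (h : Fn P (fun ω => fl1 j (x ω)) G) : ch P (fun ω => fl1 k (x ω)) G ≤ (k - j : ℝ) * lg := by
  obtain ⟨i, rfl⟩ := Nat.exists_eq_add_of_le e
  have := ch_fl1_refine (j := fun _ => j) (i := fun _ => i) (fun _ _ _ _ _ => rfl)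
    (fun _ _ _ _ _ => rfl) h
  rw [FP.E_const] at this
  simpa using this

theorem drop {Ω β : Type} (P : FP Ω) (x : Ω → ℝ) (G : Ω → β) {j k : ℕ} (e : j ≤ k) :
    ch P (fun ω => fl1 k (x ω)) G ≤ ch P (fun ω => fl1 j (x ω)) G + (k - j : ℝ) * lg :=
  (ch_tri _ (fun ω => fl1 j (x ω)) G).trans (add_le_add le_rfl (ref e (Fn.fst _ _)))

variable {X : U3} {τ : ℕ → ℕ} {D R i j : ℕ} {L : ℝ}

theorem tz (X : U3) (j : ℕ) : ch X.P X.t (fun ω => (fl1 j (X.t ω), X.S 0 ω)) ≤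
    ch X.P X.t (fun ω => (X.l ω, X.S j ω)) + mi X.P X.t X.l (X.S 0) + X.hk j (X.S j) := by
  have h1 : mi X.P X.t X.l (fun ω => (fl1 j (X.t ω), X.S 0 ω)) ≤ mi X.P X.t X.l (X.S 0) :=
    mi_left (Fn.snd _ _) (((Fn.comp (fl1 j) X.t).left _).pair (Fn.snd _ _)) (Fn.fst _ _)
  have h2 : ch X.P X.t (fun ω => (X.l ω, fl1 j (X.t ω), X.S 0 ω)) ≤
      ch X.P X.t fun ω => (X.l ω, fl1 j (X.t ω)) :=
    ch_anti ((Fn.fst _ _).pair ((Fn.fst _ _).right _))
  have h3 : ch X.P X.t (fun ω => (X.S j ω, X.l ω, fl1 j (X.t ω))) ≤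
      ch X.P X.t fun ω => (X.l ω, X.S j ω) := ch_anti (((Fn.fst _ _).right _).pair (Fn.fst _ _))
  rw [U3.hk, mi_symm (X.S j)]
  unfold mi at h1 ⊢
  linarith

theorem xs (h : X.Alg τ D R L) (e : i ≤ R) :
    ch X.P (fun ω => fl1 i (X.t ω)) X.l + ch X.P (fun ω => fl1 R (X.x ω))
      (fun ω => (X.t ω, X.S j ω)) ≤ ch X.P (fun ω => (fl1 i (X.t ω), fl1 i (X.x ω))) (X.S j) +
        X.hk j (X.S j) + j * lg + (R - i : ℝ) * lg := by
  have h1 : mi X.P (fun ω => fl1 i (X.t ω)) (X.S j) (fun ω => (X.l ω, fl1 j (X.t ω))) ≤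
      X.hk j (X.S j) := by
    rw [U3.hk, mi_symm (X.S j)]
    exact mi_mono' ((Fn.comp (fl1 i) X.t).left _)
  have h2 : ch X.P (fun ω => fl1 i (X.t ω)) (fun ω => (X.S j ω, X.l ω, fl1 j (X.t ω))) ≤
      ch X.P (fun ω => fl1 i (X.t ω)) (X.S j) := ch_anti (Fn.fst _ _)
  have h3 := ch_tri (P := X.P) (fun ω => fl1 i (X.t ω)) (fun ω => fl1 j (X.t ω)) X.l
  have h4 : ch X.P (fun ω => fl1 i (X.t ω)) (fun ω => (fl1 j (X.t ω), X.l ω)) ≤
      ch X.P (fun ω => fl1 i (X.t ω)) fun ω => (X.l ω, fl1 j (X.t ω)) :=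
    ch_anti ((Fn.snd _ _).pair (Fn.fst _ _))
  have h5 := ref (P := X.P) (x := X.t) (G := X.l) j.zero_le fun a u b v _ =>
    (h.t0 u).trans (h.t0 v).symm
  have h6 := drop X.P X.x (fun ω => (X.t ω, X.S j ω)) e
  have h7 : ch X.P (fun ω => fl1 i (X.x ω)) (fun ω => (X.t ω, X.S j ω)) ≤
      ch X.P (fun ω => fl1 i (X.x ω)) fun ω => (fl1 i (X.t ω), X.S j ω) :=
    ch_anti (((Fn.comp (fl1 i) X.t).left _).pair (Fn.snd _ _))
  rw [ch_chain]
  unfold mi at h1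
  rw [Nat.cast_zero, sub_zero] at h5
  linarith

theorem xz (h : X.Alg τ D R L) (e : j ≤ R)
    (f : Fn X.P X.z fun ω => (X.t ω, fl1 R (X.x ω), X.S 0 ω)) :
    mi X.P (X.S j) X.z (fun ω => (fl1 j (X.t ω), fl1 j (X.x ω), X.S 0 ω)) ≤
      (ch X.P X.t (fun ω => (fl1 j (X.t ω), X.S 0 ω)) - ch X.P X.t fun ω => (X.l ω, X.S j ω)) +
      ((R - j : ℝ) * lg - ch X.P (fun ω => fl1 R (X.x ω)) fun ω => (X.t ω, X.S j ω)) := by
  have c : Fn X.P (fun ω => (fl1 j (X.t ω), fl1 j (X.x ω), X.S 0 ω)) (X.S j) :=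
    (h.tS le_rfl e).pair ((h.xS le_rfl e).pair (h.nest 0 j j.zero_le e))
  refine (mi_mono (G' := fun ω => (X.t ω, fl1 R (X.x ω))) (f.trans fun a _ b _ q => ?_)).trans ?_
  · simp only [Prod.mk.injEq] at q ⊢
    exact ⟨q.1.1, q.1.2, q.2.2.2⟩
  rw [mi_chain, mi_symm (X.S j), mi_symm (X.S j)]
  exact add_le_add (sub_le_sub (ch_anti ((Fn.fst _ _).pair ((Fn.snd _ _).right _)))
      (ch_anti ((Fn.snd _ _).pair (c.right _))))
    (sub_le_sub (ref e (((Fn.fst _ _).right _).right _))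
      (ch_anti ((Fn.snd _ _).pair ((Fn.fst _ _).pair (c.right _)))))

end UGXA

open UGXA in
theorem rowGX : GXA := by
  intro η X M p lo hi τ φ h
  obtain ⟨L, -, a⟩ := h.alg
  have ht : ∀ i : ℕ → ℕ, (∀ n, i n ≤ M n) →
      Le M (fun n => i n * lg) fun n => ch (X n).P (fun ω => fl1 (i n) ((X n).t ω)) (X n).l :=
    fun i hi => h.hgt.of_sub (Eventually.of_forall fun n => by
      linarith [drop (X n).P (X n).t (X n).l (hi n)])
  have tz : ∀ j : ℕ → ℕ, (∀ n, j n ≤ M n) → Le M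
      (fun n => ch (X n).P (X n).t fun ω => (fl1 (j n) ((X n).t ω), (X n).S 0 ω)) fun n =>
        ch (X n).P (X n).t fun ω => ((X n).l ω, (X n).S (j n) ω) := fun j hj =>
    h.inf.of2 (h.hk j hj) (Eventually.of_forall fun n => by linarith [tz (X n) (j n)])
  refine ⟨ht, fun j hj => h.lk.mono (a.mono fun n c =>
    mi_mono' ((c.nest _ _ (hj n) le_rfl).left _)), tz, fun j i e => ?_, fun j hj => ?_⟩
  · have hj : ∀ n, j n ≤ M n := fun n => (e n).1.trans (e n).2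
    exact (ht i fun n => (e n).2).of3 (h.xa j hj) (h.hk j hj) (a.mono fun n c => by
      linarith [xs (j := j n) c (e n).2])
  · exact (tz j hj).of2 (h.xa j hj) ((a.and h.fat).mono fun n c => by
      linarith [xz c.1 (hj n) c.2.2.2])

theorem rowGTB : RGTB := by
  intro hV hR hG η X M p lo hi τ φ h j hj
  obtain ⟨L, l, a⟩ := h.alg
  have h1 : ∀ α : ℕ → ℕ, (∀ n, α n ≤ M n) → Low (PP X) (fun n ω => fl1 (α n) ((X n).w ω))
      (fun n => (X n).S (j n)) M fun n => η * α n * lg := fun α hα =>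
    hV (PP X) (fun n ω => fl1 (α n) ((X n).w ω)) (fun n => (X n).y) (PP X) (fun _ => id)
      (fun n => (X n).S (j n)) M _ h.big (h.br α hα) (dnS_rfl _)
      (((hG η X M p lo hi τ φ h).lk j hj).mono (a.mono fun n c =>
        mi_mono (((Fn.comp (fl1 (α n)) (X n).w).trans c.wl).left _)))
  have h2 : Whp (PP X) fun n ω => |(X n).pt (j n) ω + (X n).px (j n) ω * (X n).w ω| ≤
      L n * (1 + 2 ^ j n / 2 ^ τ n (j n)) := Whp.of_ev (a.mono fun n c ω u => by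
    have h1 := abs_le.1 (c.fit _ (hj n) ω u).2
    have h2 := abs_le.1 (c.bd ω u).2.2.2.1
    rw [mul_div_assoc] at h1
    simp only [U3.pt, U3.px]
    rw [abs_le]
    constructor <;> linarith [h1.1, h1.2, h2.1, h2.2])
  have h3 : ∀ᶠ n in UF, Fn (X n).P (fun ω => ((X n).pt (j n) ω, (X n).px (j n) ω))
      ((X n).S (j n)) ∧ ∀ ω ∈ (X n).P.S, |(X n).w ω| ≤ L n := a.mono fun n c =>
    ⟨fun u v u' v' e => congrArg Prod.snd (c.plS le_rfl (hj n) u v u' v' e),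
      fun ω u => (c.bd ω u).2.1⟩
  obtain ⟨L', l', w⟩ := hR (PP X) (fun n => (X n).w) (fun n => (X n).S (j n))
    (fun n ω => ((X n).pt (j n) ω, (X n).px (j n) ω)) M M η
    (fun n => L n * (1 + 2 ^ j n / 2 ^ τ n (j n))) L h.big h.pos Frac.rfl l h3 h1 h2
  exact ⟨fun n => L' n * L n, l'.mul l, w.mono (Eventually.of_forall fun n ω _ c => by
    rw [mul_assoc]; exact c.2)⟩

end Pool.Agent.MP_5168f5_an.R4.U
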