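import Pool.Agent.MP_5168f5_an.R4.USpec

/-! Kakeya sets in four dimensions, the step for planes: the logical skeleton. -/

namespace Pool.Agent.MP_5168f5_an.R4.U

open H19 H17S H17F Filter K31

theorem two_of (cra : CraA) (loc : LocA) (ful : FulA) (jnt : JntA) (j4 : J4A) (nga : NgaA)
    (rce : RcEA) (rct : RctA) (m1 : Mu1A) (m2 : Mu2A) (m3 : Mu3A) (m4 : Mu4A) (crS : CrSA)
    (crF : CrFA) (crs : CrsA) (fin : FinA) : Two := by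
  intro e₀ h0 h1
  obtain ⟨c, hc, H⟩ := rct e₀ h0 h1
  refine ⟨c, hc, fun γ e η X R m q ρ B L h he σ α δ hδ hσ hle hl => ?_⟩
  have a1 := loc _ _ _ _ _ _ _ _ _ _ h (cra _ _ _ _ _ _ _ _ _ _ h)
  have a2 := ful _ _ _ _ _ _ _ _ _ _ h
  have a3 := jnt _ _ _ _ _ _ _ _ _ _ h a1 a2
  have a4 := j4 _ _ _ _ _ _ _ _ _ _ h a2 a3
  have s1 : ∀ n, σ n ≤ ρ n := fun n => (hle n).1
  have a5 := H _ _ _ _ _ _ _ _ _ _ h he (rce _ _ _ _ _ _ _ _ _ _ h a1 a4)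
    (nga _ _ _ _ _ _ _ _ _ _ h a2) σ fun n => (hle n).2.1
  have b1 := m1 _ _ _ _ _ _ _ _ _ _ h a3 σ s1 a5
  have b2 := m2 _ _ _ _ _ _ _ _ _ _ h a1 a4 σ s1 b1
  have b3 := m3 _ _ _ _ _ _ _ _ _ _ h a1 σ s1 b1 b2
  have b4 := m4 _ _ _ _ _ _ _ _ _ _ h a4 σ s1 b1 b2
  exact fin _ _ _ _ _ _ _ _ _ _ h σ hσ s1 b1 (crs _ _ _ _ _ _ _ _ _ _ h σ α hσ
    (fun n => ⟨s1 n, (hle n).2.2⟩) b1 (crS _ _ _ _ _ _ _ _ _ _ h σ α δ hδ hl b2 b3)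
    (crF _ _ _ _ _ _ _ _ _ _ h σ s1 b2 b3 b4))

theorem sat_of (s1 : Sat1) (s2 : Sat2) : Sat := fun γ e η X R m h => by
  rcases h.par.1.eq_or_lt with k | k
  · subst k; exact s1 e η X R m h
  · exact s2 γ e η X R m k h

theorem noGlo : RNoGlo := by
  intro low grow ext p2 tf tl rp tb pt sat η X M lo hi τ φ e p₀ δ h e0 e1 d0 p0 p1 mid dens
  obtain ⟨c, γ, s, δ', hl⟩ := p2 M lo hi τ φ e p₀ δ (1 + 12 / η) (Thn X M) h.big d0 p0 p1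
    (by have := h.pos; positivity) mid dens h.mono h.opt h.zero (low _ _ _ _ _ _ _ _ h)
    (grow _ _ _ _ _ _ _ _ h) (ext _ _ _ _ _ _ _ _ h)
  obtain ⟨j₀, R, m, hp⟩ := tl γ e η X τ M ⟨hl.par.2.2.2.1, e0, e1, h.pos⟩
    fun k hk => tf η X M _ lo hi τ φ c γ s e δ' k h hl hk
  obtain ⟨L, hL, hw⟩ := tb _ _ _ _ _ _ _ _ _ hp
  refine sat _ _ _ _ _ _ (pt _ _ _ _ _ _ _ _ _ L (rp _ _ _ _ _ _ _ _ _ _ _ _ hp (dnS_cE hw.pos)) hL ?_)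
  filter_upwards [hw.pos.ex] with n a ω b
  exact ((mem_cE a ω).1 b).2

end Pool.Agent.MP_5168f5_an.R4.U
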