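import Pool.Agent.MP_5168f5_an.R4.USpec

/-! Kakeya sets in four dimensions, the step for planes: heights and directions given a cell. -/

namespace Pool.Agent.MP_5168f5_an.R4.U

open H19 H17S H17F Filter K31

namespace UHTA

theorem ref {Ω β : Type} {P : FP Ω} {x : Ω → ℝ} {G : Ω → β} {j k : ℕ} (e : j ≤ k)
    (h : Fn P (fun ω => fl1 j (x ω)) G) : ch P (fun ω => fl1 k (x ω)) G ≤ (k - j : ℝ) * lg := by
  obtain ⟨i, rfl⟩ := Nat.exists_eq_add_of_le e
  have := ch_fl1_refine (P := P) (j := fun _ => j) (i := fun _ => i) (fun _ _ _ _ _ => rfl)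
    (fun _ _ _ _ _ => rfl) h
  rw [FP.E_const] at this
  push_cast
  linarith

variable {X : U3} {τ : ℕ → ℕ} {D R i j : ℕ} {L : ℝ}

theorem il (h : X.Alg τ D R L) (e : j ≤ R) :
    mi X.P X.t X.l (X.S j) ≤ mi X.P X.t X.l (X.S 0) + X.hk j (X.S j) := by
  have h1 : ch X.P X.t (X.S j) ≤ ch X.P X.t fun ω => (fl1 j (X.t ω), X.S 0 ω) :=
    ch_anti ((h.tS le_rfl e).pair (h.nest 0 j j.zero_le e))
  have h2 : mi X.P X.t X.l (fun ω => (fl1 j (X.t ω), X.S 0 ω)) ≤ mi X.P X.t X.l (X.S 0) :=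
    mi_left (Fn.snd _ _) (((Fn.comp (fl1 j) X.t).left _).pair (Fn.snd _ _)) (Fn.fst _ _)
  have h3 : ch X.P X.t (fun ω => (X.l ω, fl1 j (X.t ω), X.S 0 ω)) ≤
      ch X.P X.t fun ω => (X.l ω, fl1 j (X.t ω)) :=
    ch_anti ((Fn.fst _ _).pair ((Fn.fst _ _).right _))
  have h4 : ch X.P X.t (fun ω => (X.S j ω, X.l ω, fl1 j (X.t ω))) ≤
      ch X.P X.t fun ω => (X.l ω, X.S j ω) :=
    ch_anti (((Fn.fst _ _).right _).pair (Fn.fst _ _))
  rw [U3.hk, mi_symm (X.S j)]
  unfold mi at h2 ⊢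
  linarith

theorem xs (h : X.Alg τ D R L) (e : j ≤ i) (e' : i ≤ R) :
    ch X.P (fun ω => (fl1 R (X.t ω), fl1 R (X.x ω))) (X.S j) ≤ (i - j : ℝ) * lg +
      ch X.P (fun ω => fl1 i (X.x ω)) (fun ω => (fl1 i (X.t ω), X.S j ω)) +
        2 * (R - i : ℝ) * lg := by
  have h1 := ch_tri (P := X.P) (fun ω => (fl1 R (X.t ω), fl1 R (X.x ω)))
    (fun ω => (fl1 i (X.t ω), fl1 i (X.x ω))) (X.S j)
  have h2 := ch_subadd (P := X.P) (fun ω => fl1 R (X.t ω)) (fun ω => fl1 R (X.x ω))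
    fun ω => ((fl1 i (X.t ω), fl1 i (X.x ω)), X.S j ω)
  have h3 := ref (P := X.P) (x := X.t) e'
    ((Fn.fst _ fun ω => fl1 i (X.x ω)).left (X.S j))
  have h4 := ref (P := X.P) (x := X.x) e'
    ((Fn.snd (fun ω => fl1 i (X.t ω)) _).left (X.S j))
  have h5 := ref e (h.tS le_rfl (e.trans e'))
  rw [ch_chain (fun ω => fl1 i (X.t ω))] at h1
  linarith

end UHTA

open UHTA in
theorem rowHT : RHT := by
  intro hV hS hF
  have brs : ∀ (γ e η : ℝ) (X : ℕ → U3) (R m j α : ℕ → ℕ), Tan γ e η X R m →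
      (∀ n, j n ≤ R n ∧ α n ≤ R n) → Low (PP X) (fun n ω => fl1 (α n) ((X n).w ω))
        (fun n => (X n).S (j n)) R fun n => η * α n * lg := fun γ e η X R m j α h k => by
    obtain ⟨L, -, a⟩ := h.alg
    have h1 : Sm R fun n =>
        mi (X n).P ((X n).S (j n)) (fun ω => fl1 (α n) ((X n).w ω)) (X n).y :=
      Sm.mono (g := fun n => (X n).lk ((X n).S (R n))) (h.up h.lk) (a.mono fun n b =>
        (mi_mono (((Fn.comp (fl1 (α n)) (X n).w).trans b.wl).left _)).trans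
          (mi_mono' ((b.nest _ _ (k n).1 le_rfl).left _)))
    exact hV (PP X) (fun n ω => fl1 (α n) ((X n).w ω)) (fun n => (X n).y) (PP X) (fun _ => id)
      (fun n => (X n).S (j n)) R _ h.big (h.br α fun n => (k n).2) (dnS_rfl _) h1
  refine ⟨fun γ e η X R m j h k => ?_, fun γ e η X R m i h k => ?_, fun γ e η X R m j i h k => ?_,
    brs, fun γ e η X R m h => ?_, fun γ e η X R m h => ?_⟩
  · obtain ⟨L, -, a⟩ := h.alg
    exact (h.inf.add (h.up (h.hk j k))).mono (a.mono fun n b => il b (k n))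
  · refine h.hgt.of_sub (Eventually.of_forall fun n => ?_)
    have h1 := ch_tri (P := (X n).P) (fun ω => fl1 (R n) ((X n).t ω))
      (fun ω => fl1 (i n) ((X n).t ω)) (X n).l
    have h2 := ref (P := (X n).P) (x := (X n).t) (k n) (Fn.fst _ (X n).l)
    linarith
  · obtain ⟨L, -, a⟩ := h.alg
    refine (h.xs j fun n => (k n).1.trans (k n).2).of_sub (a.mono fun n b => ?_)
    linarith [xs b (k n).1 (k n).2]
  · simpa only [pow_zero, mul_one] using hS (PP X) (fun n => (X n).w) (fun n => (X n).S (R n)) R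
      (fun _ => 0) R η h.big h.par.2.2.2 Frac.rfl fun α k => by
        simpa only [zero_add] using brs γ e η X R m R α h fun n => ⟨le_rfl, k n⟩
  · obtain ⟨L, -, a⟩ := h.alg
    simpa only [pow_zero, mul_one] using hS (PP X) (fun n => (X n).t) (fun n => (X n).l) R
      (fun _ => 0) R 1 h.big one_pos Frac.rfl fun α k =>
        hF (PP X) (fun n => (X n).t) (fun n => (X n).l) R (fun _ => 0) R α h.big
          (fun n => (zero_add _).trans_le (k n))
          (a.mono fun n b v c w d _ => (b.t0 c).trans (b.t0 d).symm)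
          (by simpa only [Nat.cast_zero, sub_zero] using h.hgt)

end Pool.Agent.MP_5168f5_an.R4.U
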