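import Pool.Agent.MP_5168f5_an.R4.USpec

/-! Row Han: three directions in one cell are nearly coplanar. -/

namespace Pool.Agent.MP_5168f5_an.R4.U

open H19 H17S H17F Filter K31

namespace UHanA

/-- The determinant of `(t, x, u)`, `(1, w₁, b₁)`, `(1, w₂, b₂)`. -/
def dt (t x u w₁ b₁ w₂ b₂ : ℝ) : ℝ := t * (w₁ * b₂ - w₂ * b₁) - x * (b₂ - b₁) + u * (w₂ - w₁)

theorem mu {x y a b : ℝ} (h : |x| ≤ a) (k : |y| ≤ b) : |x * y| ≤ a * b := by
  rw [abs_mul]; exact mul_le_mul h k (abs_nonneg _) ((abs_nonneg _).trans h)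

theorem sb {x y a b : ℝ} (h : |x| ≤ a) (k : |y| ≤ b) : |x - y| ≤ a + b :=
  (abs_sub _ _).trans (add_le_add h k)

theorem key {t x u δ w b w₁ b₁ w₂ b₂ L K : ℝ} {A : ℕ} (hL : 1 ≤ L) (hK : 1 ≤ K) (hδ : |δ| ≤ 1)
    (hw : |w| ≤ L) (hb : |b| ≤ L) (w1 : |w₁| ≤ L) (b1 : |b₁| ≤ L) (w2 : |w₂| ≤ L) (b2 : |b₂| ≤ L)
    (ht : |t - δ| ≤ K / 2 ^ A) (hx : |x - w * δ| ≤ K / 2 ^ A) (hu : |u - b * δ| ≤ K / 2 ^ A) :
    |dt t x u (rd A w₁) (rd A b₁) (rd A w₂) (rd A b₂) - δ * det3 w b w₁ b₁ w₂ b₂| ≤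
      26 * K * L ^ 2 / 2 ^ A := by
  have r : ∀ {y : ℝ}, |y| ≤ L → |rd A y| ≤ 2 * L := fun h => (abs_rd A _).trans (by linarith)
  have s := abs_sub_rd A
  rw [div_eq_mul_one_div] at ht hx hu ⊢
  have e0 : (0 : ℝ) < 1 / 2 ^ A := by positivity
  generalize (1 : ℝ) / 2 ^ A = ε at *
  have h1 := abs_le.1 (mu ht (sb (mu (r w1) (r b2)) (mu (r w2) (r b1))))
  have h2 := abs_le.1 (mu hx (sb (r b2) (r b1)))
  have h3 := abs_le.1 (mu hu (sb (r w2) (r w1)))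
  have h4 := abs_le.1 (mu hδ (sb (mu (s w₁) (r b2)) (mu (s w₂) (r b1))))
  have h5 := abs_le.1 (mu hδ (sb (mu w1 (s b₂)) (mu w2 (s b₁))))
  have h6 := abs_le.1 (mu hδ (sb (mu hb (sb (s w₂) (s w₁))) (mu hw (sb (s b₂) (s b₁)))))
  have h7 : L * ε ≤ K * L * ε := by gcongr; nlinarith
  have h8 : K * L * ε ≤ K * L ^ 2 * ε := by gcongr; nlinarith
  rw [dt, det3, abs_le]
  constructor <;> linarith [h1.1, h1.2, h2.1, h2.2, h3.1, h3.2, h4.1, h4.2, h5.1, h5.2, h6.1, h6.2]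

variable (X : U3) {γ L : ℝ} {D R A : ℕ}

/-- The coordinates of the last point in the frame of the three directions. -/
noncomputable def ff (A : ℕ) (j : Fin 3) (c : (X.Ω × X.Ω) × X.Ω) : ℝ :=
  dt (X.t c.2) (X.x c.2) (X.u c.2) (rd A (X.w (X.pick (j + 1) c))) (rd A (X.b (X.pick (j + 1) c)))
    (rd A (X.w (X.pick (j + 2) c))) (rd A (X.b (X.pick (j + 2) c)))

/-- Three points of one cell with bounded slopes. -/
def Gd (R : ℕ) (L : ℝ) (c : (X.Ω × X.Ω) × X.Ω) : Prop :=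
  (∀ i, X.pick i c ∈ X.P.S ∧ X.S R (X.pick i c) = X.S R c.2) ∧ |X.pt R c.2| ≤ L ∧ |X.px R c.2| ≤ L

theorem law : Law (X.C2 R) (fun v => X.S R v.1) X.P (X.S R) := (kg.fst _ _ _ _).comp (X.S R)

theorem mem3 {c : (X.Ω × X.Ω) × X.Ω} (h : c ∈ (X.C3 R).S) (i : Fin 3) :
    X.pick i c ∈ X.P.S ∧ X.S R (X.pick i c) = X.S R c.2 := by
  obtain ⟨a, b, e⟩ := (kg.mem _ _ _ _ c (law X)).1 h
  obtain ⟨a1, a2, a3⟩ := (mem_copy _ _ _).1 a
  fin_cases i
  exacts [⟨a1, e.symm⟩, ⟨a2, a3.trans e.symm⟩, ⟨b, rfl⟩]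

variable {X} {c c' : (X.Ω × X.Ω) × X.Ω}

theorem ff_sub (e : X.W3 A c = X.W3 A c') (j : Fin 3) : ff X A j c - ff X A j c' =
    dt (X.t c.2 - X.t c'.2) (X.x c.2 - X.x c'.2) (X.u c.2 - X.u c'.2)
      (rd A (X.w (X.pick (j + 1) c))) (rd A (X.b (X.pick (j + 1) c)))
      (rd A (X.w (X.pick (j + 2) c))) (rd A (X.b (X.pick (j + 2) c))) := by
  have k := fun i => Prod.mk.inj (congrFun (congrArg Prod.fst e) i)
  simp only [ff, dt, rd_congr (k _).1, rd_congr (k _).2]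
  ring

theorem cell (h : X.Alg (tau γ) D R L) (hγ : 1 ≤ γ) (hL : 1 ≤ L) (hA : A ≤ R) (g : Gd X R L c)
    (i : Fin 3) : |X.t c.2 - X.t (X.pick i c)| ≤ 4 * L / 2 ^ A ∧
      |X.x c.2 - X.x (X.pick i c)| ≤ 4 * L / 2 ^ A ∧
      |X.u c.2 - X.u (X.pick i c)| ≤ 4 * L / 2 ^ A := by
  have a := (g.1 2).1
  obtain ⟨a', e⟩ := g.1 i
  have h1 := near_of_fl1 (h.tS hA le_rfl _ a _ a' e.symm)
  have h2 := near_of_fl1 (h.xS hA le_rfl _ a _ a' e.symm)
  have k := fun ω b => abs_le.1 ((h.fit R le_rfl ω b).mono le_rfl le_rfl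
    (hA.trans (le_tau hγ R))).1
  have h3 := k _ a
  have h4 := k _ a'
  rw [h.plS le_rfl le_rfl _ a' _ a e] at h4
  have h5 := abs_le.1 (mu g.2.1 h1)
  have h6 := abs_le.1 (mu g.2.2 h2)
  have h7 : (1 : ℝ) / 2 ^ A ≤ 4 * L / 2 ^ A := by gcongr; linarith
  refine ⟨h1.trans h7, h2.trans h7, ?_⟩
  simp only [U3.pick, U3.pt, U3.px, Matrix.cons_val, div_eq_mul_inv] at *
  rw [abs_le]
  constructor <;> linarith [h3.1, h3.2, h4.1, h4.2, h5.1, h5.2, h6.1, h6.2]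

theorem fib (h : X.Alg (tau γ) D R L) (hγ : 1 ≤ γ) (hL : 1 ≤ L) (hA : A ≤ R) (g : Gd X R L c)
    (g' : Gd X R L c') {i : Fin 3} (el : X.l (X.pick i c) = X.l (X.pick i c'))
    (e : X.W3 A c = X.W3 A c') (j : Fin 3) :
    |ff X A j c - ff X A j c' - (X.t (X.pick i c) - X.t (X.pick i c')) * if j = i then
      det3 (X.w c.1.1) (X.b c.1.1) (X.w c.1.2) (X.b c.1.2) (X.w c.2) (X.b c.2) else 0| ≤
      208 * L ^ 3 / 2 ^ A := by
  have b := fun i => h.bd _ (g.1 i).1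
  obtain ⟨-, -, -, -, t0, t1⟩ := h.bd _ (g'.1 i).1
  obtain ⟨h1, h2, h3⟩ := cell h hγ hL hA g i
  obtain ⟨k1, k2, k3⟩ := cell h hγ hL hA g' i
  have e1 := h.fl _ (g.1 i).1 _ (g'.1 i).1 el
  simp only [Prod.mk.injEq] at e1
  have e2 : 4 * L / 2 ^ A + 4 * L / 2 ^ A = 8 * L / 2 ^ A := by ring
  have := key (A := A) (δ := X.t (X.pick i c) - X.t (X.pick i c')) (t := X.t c.2 - X.t c'.2)
    (x := X.x c.2 - X.x c'.2) (u := X.u c.2 - X.u c'.2) hL (show 1 ≤ 8 * L by linarith)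
    (abs_le.2 ⟨by linarith [(b i).2.2.2.2.1], by linarith [(b i).2.2.2.2.2]⟩) (b i).2.1
    (b i).2.2.2.1 (b (j + 1)).2.1 (b (j + 1)).2.2.2.1 (b (j + 2)).2.1 (b (j + 2)).2.2.2.1
    ((le_of_eq (by congr 1; ring)).trans ((sb h1 k1).trans_eq e2))
    ((le_of_eq (by congr 1; simp only [U3.x, e1]; ring)).trans ((sb h2 k2).trans_eq e2))
    ((le_of_eq (by congr 1; simp only [U3.u, e1]; ring)).trans ((sb h3 k3).trans_eq e2))
  rw [ff_sub e]
  refine le_of_eq_of_le ?_ (this.trans_eq (by ring))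
  congr 3
  fin_cases i <;> fin_cases j <;> simp [U3.pick, det3] <;> ring

theorem fib0 (h : X.Alg (tau γ) D R L) (hL : 1 ≤ L) (g : Gd X R L c)
    (e : ((fl1 A (X.t c.2), fl1 A (X.x c.2), fl1 A (X.u c.2)), X.W3 A c) =
      ((fl1 A (X.t c'.2), fl1 A (X.x c'.2), fl1 A (X.u c'.2)), X.W3 A c')) (j : Fin 3) :
    |ff X A j c - ff X A j c'| ≤ 26 * L ^ 2 / 2 ^ A := by
  have b := fun i => h.bd _ (g.1 i).1
  simp only [Prod.mk.injEq] at e
  rw [ff_sub e.2]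
  simpa using key (A := A) (δ := 0) hL le_rfl (by simp) (b j).2.1 (b j).2.2.2.1 (b (j + 1)).2.1
    (b (j + 1)).2.2.2.1 (b (j + 2)).2.1 (b (j + 2)).2.2.2.1
    (by simpa using near_of_fl1 e.1.1) (by simpa using near_of_fl1 e.1.2.1)
    (by simpa using near_of_fl1 e.1.2.2)

theorem up (X : U3) (h : X.Alg (tau γ) D R L) :
    ch X.P (fun ω => (fl1 A (X.t ω), fl1 A (X.x ω), fl1 A (X.u ω))) (X.S 0) ≤ 2 * (A * lg) +
      ch X.P (fun ω => fl1 0 (X.u ω)) (X.S 0) + ch X.P (fun ω => fl1 A (X.u ω)) fun ω =>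
        (fl1 0 (X.u ω), fl1 A (X.t ω), fl1 A (X.x ω), X.S 0 ω) := by
  have k : ∀ x : X.Ω → ℝ, Fn X.P (fun ω => fl1 0 (x ω)) (X.S 0) →
      ch X.P (fun ω => fl1 A (x ω)) (X.S 0) ≤ A * lg := fun x e => by
    simpa only [zero_add, FP.E_const] using ch_fl1_refine (j := fun _ => 0) (i := fun _ => A)
      (fun _ _ _ _ _ => rfl) (fun _ _ _ _ _ => rfl) e
  have h1 := k _ (h.tS le_rfl R.zero_le)
  have h2 := k _ (h.xS le_rfl R.zero_le)
  have h3 := ch_subadd (P := X.P) (fun ω => fl1 A (X.t ω)) (fun ω => fl1 A (X.x ω)) (X.S 0)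
  have h4 := ch_subadd (P := X.P) (fun ω => fl1 0 (X.u ω))
    (fun ω => (fl1 A (X.t ω), fl1 A (X.x ω))) (X.S 0)
  refine (ch_tri _ (fun ω => (fl1 0 (X.u ω), fl1 A (X.t ω), fl1 A (X.x ω))) _).trans
    (add_le_add (by linarith) (ch_le (fun a _ b _ e => ?_) fun a _ b _ e => ?_)) <;>
  simp only [Prod.mk.injEq] at e ⊢ <;> tauto

theorem num {a k l e H u v r : ℝ} (h : 4 * k * l ≤ e * a * l) (k' : H ≤ 2 * (a * l) + u + v + r) :
    e / 4 * l * a - 0 ≤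
      3 * (a - k) * l - H + (v - (1 - e) * (a - (0 : ℕ)) * l) + (u - 0) + (r - 0) := by
  push_cast
  linarith

end UHanA

open UHanA

theorem rowHan : RHan := by
  intro hW hF hR hB hN hH γ e η X R m A κ h hA hκ hI
  by_contra c0
  obtain ⟨g1, e0, e1, -⟩ := h.par
  have d0 : DnS (fun n => (X n).C3 (R n)) (fun _ => Prod.snd) (PP X) :=
    dnS_law (Eventually.of_forall fun n => kg.snd _ _ _ _ (law (X n)))
  obtain ⟨Q, L, sL, d1, ev⟩ : ∃ (Q : ∀ n, FP (((X n).Ω × (X n).Ω) × (X n).Ω)) (L : ℕ → ℝ),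
      Sub R L ∧ DnS Q (fun _ => id) (fun n => (X n).C3 (R n)) ∧ ∀ᶠ n in UF,
        (X n).Alg (tau γ) (tau γ (R n)) (R n) (L n) ∧ ∀ c ∈ (Q n).S, Gd (X n) (R n) (L n) c ∧
          1 / 2 ^ κ n ≤ |det3 ((X n).w c.1.1) ((X n).b c.1.1) ((X n).w c.1.2) ((X n).b c.1.2)
            ((X n).w c.2) ((X n).b c.2)| := by
    obtain ⟨L₀, s0, a0⟩ := h.alg
    obtain ⟨L₁, s1, a1⟩ := hB γ e η X R m R R h fun _ => ⟨le_rfl, le_rfl⟩
    have p := (not_whp c0).and (d0.whp a1)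
    refine ⟨_, _, s0.add s1 h.big, dnS_cE p, (a0.and p.sure).mono fun n a =>
      ⟨a.1.mono (le_add_of_nonneg_right (s1.pos n).le), fun c hc => ?_⟩⟩
    obtain ⟨b1, b2, b3, b4, -⟩ := a.2 c hc
    exact ⟨⟨mem3 _ b1, b3.trans (le_add_of_nonneg_left (s0.pos n).le),
      b4.trans (le_add_of_nonneg_left (s0.pos n).le)⟩, (not_le.1 b2).le⟩
  have A0 : ∀ n, (0 : ℝ) ≤ A n := fun n => Nat.cast_nonneg _
  have l0 := lg_pos
  have h1 : Le R (fun n => 3 * (A n - κ n : ℝ) * lg) fun n =>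
      ch (Q n) (fun c => flv (A n) fun j => ff (X n) (A n) j c) ((X n).W3 (A n)) := by
    refine hW Q _ (fun n => ff (X n) (A n)) (fun n i c => (X n).t ((X n).pick i c))
      (fun n i c => (X n).l ((X n).pick i c)) R A κ _ h.big
      ((sL.pow 3).const_mul h.big (C := 208) (by norm_num))
      (fun n => by exact_mod_cast (show (κ n : ℝ) ≤ A n by nlinarith [hκ n, A0 n]))
      (ev.mono fun n a i c hc c' hc' el ek => ?_) fun i => ?_
    · have k := fib a.1 g1 (sL.1 n) (hA.1 n) (a.2 c hc).1 (a.2 c' hc').1 el ek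
      refine ⟨fun j hj => by simpa only [if_neg hj, mul_zero, sub_zero] using k j, ?_⟩
      have k1 := k i
      have k2 := mul_le_mul_of_nonneg_left (a.2 c hc).2
        (abs_nonneg ((X n).t ((X n).pick i c) - (X n).t ((X n).pick i c')))
      rw [if_pos rfl, abs_sub_comm] at k1
      have k3 := (abs_sub_abs_le_abs_sub _ _).trans k1
      rw [← abs_mul, mul_one_div, div_le_iff₀ (by positivity)] at k2
      refine k2.trans ?_
      rw [mul_right_comm _ (2 ^ κ n : ℝ)]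
      refine mul_le_mul_of_nonneg_right ?_ (by positivity)
      have k4 := le_mul_of_one_le_left (abs_nonneg (ff (X n) (A n) i c - ff (X n) (A n) i c'))
        (show 1 ≤ 208 * L n ^ 3 by linarith [one_le_pow₀ (sL.1 n) (n := 3)])
      rw [mul_add, mul_one_div]
      linarith
    · exact (hF _ _ _ R (fun _ => 0) A A h.big (fun n => (zero_add _).le)
        (ev.mono fun n a x hx y hy _ =>
          (a.1.t0 (mem3 _ hx i).1).trans (a.1.t0 (mem3 _ hy i).1).symm)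
        (by simpa using hH γ e η X R m A i h hA.1 hI) _ _ _ d1).congr
        (Eventually.of_forall fun n => by rw [one_mul])
        (Eventually.of_forall fun n => by simp only [zero_add, id])
  have hT := hR γ e η X R m _ _ _ h (d1.trans d0)
  have h2 := hN γ e η _ R m (fun _ => 0) A hT fun n => ⟨Nat.zero_le _, hA.1 n⟩
  obtain ⟨L₂, s2, a2⟩ := hT.alg
  have h3 := Sm.near1 (j := fun _ => 0) h.big (s2.const_mul h.big (C := 4) (by norm_num))
    (G := fun n c => (X n).S 0 c.2) (a2.mono fun n a x hx y hy _ =>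
      (sb (a.abs_u hx) (a.abs_u hy)).trans_eq (by ring))
  have h4 := Sm.near (j := A) h.big ((sL.pow 2).const_mul h.big (C := 26) (by norm_num))
    (x := fun n c j => ff (X n) (A n) j c) (ev.mono fun n a x hx y _ e =>
      (pi_norm_le_iff_of_nonneg (by positivity)).2 (fib0 a.1 (sL.1 n) (a.2 x hx).1 e))
  obtain ⟨-, c, c1, c2⟩ := hA
  refine (Le.of4 (f := fun n => e / 4 * lg * A n) (g := fun _ => 0) h1 h2 h3 h4
    (a2.mono fun n a => ?_)).false h.big (c := e / 4 * lg * c) (by positivity)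
    (c2.mono fun n a => ?_)
  · exact num (mul_le_mul_of_nonneg_right (hκ n) l0.le) ((ch_tri _ _ _).trans (add_le_add
      ((ch_anti (G' := (X n).W3 (A n)) (Fn.snd _ _)).trans (up (A := A n) _ a)) le_rfl))
  · rw [zero_add, mul_assoc _ c]
    exact mul_le_mul_of_nonneg_left a (by positivity)

end Pool.Agent.MP_5168f5_an.R4.U
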