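import Pool.Agent.MP_5168f5_an.R4.USpec

/-! Each of three heights in one cell is full given its line and the three directions. -/

namespace Pool.Agent.MP_5168f5_an.R4.U

open H19 H17S H17F Filter K31

namespace UHanFA

variable {Ω Ω' W α β γ δ Λ ζ : Type}

theorem mk2 (P : FP Ω) (Q : FP Ω') (φ : Ω → β) (ψ : Ω' → β) (f : Ω → α) (G : Ω' → δ)
    (h : Law P φ Q ψ) (k : Fn Q ψ G) :
    ch P f φ ≤ ch (glue P Q φ ψ) (fun v => f v.1) fun v => G v.2 := by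
  have h1 := kg.mkv' P Q φ ψ f (fun _ => ()) G h k
  have h2 : ch P f φ ≤ ch P f fun x => (φ x, ()) :=
    ch_anti ((Fn.rfl φ).pair fun _ _ _ _ _ => rfl)
  have h3 : ch (glue P Q φ ψ) (fun v => f v.1) (fun v => (G v.2, ())) ≤
      ch (glue P Q φ ψ) (fun v => f v.1) fun v => G v.2 := ch_anti (Fn.fst _ _)
  linarith

theorem core (P : FP Ω) (Q : FP W) (p₀ p₁ p₂ : W → Ω) (e : Ω → α) (S : Ω → β) (K : Ω → γ)
    (l : Ω → Λ) (f : Ω → δ) (Z : W → ζ) (h₀ : Law Q p₀ P id) (h₁ : Law Q p₁ P id)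
    (h₂ : Law Q p₂ P id) (el : Fn P e l) (Kl : Fn P K l)
    (sh : ∀ v ∈ Q.S, K (p₀ v) = K (p₁ v) ∧ K (p₀ v) = K (p₂ v))
    (hZ : Fn Q Z fun v => (e (p₀ v), e (p₁ v), e (p₂ v), K (p₀ v)))
    (h : 2 * ch P e S ≤ ch Q (fun v => (e (p₁ v), e (p₂ v))) p₀) :
    ch P f l - 2 * mi P e S K ≤ ch Q (fun v => f (p₀ v)) fun v => (l (p₀ v), Z v) := by
  have a1 : ch Q (fun v => f (p₀ v)) (fun v => ((e (p₁ v), e (p₂ v)), l (p₀ v))) ≤
      ch Q (fun v => f (p₀ v)) fun v => (l (p₀ v), Z v) := by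
    refine ch_anti ((Fn.snd _ _).pair (hZ.trans fun a ha b hb u => ?_))
    simp only [Prod.mk.injEq] at u ⊢
    exact ⟨h₀.fn el a ha b hb u.2, u.1.1, u.1.2, h₀.fn Kl a ha b hb u.2⟩
  have a2 := ch_symm (P := Q) (fun v => f (p₀ v)) (fun v => (e (p₁ v), e (p₂ v)))
    fun v => l (p₀ v)
  have a3 : ch Q (fun v => (e (p₁ v), e (p₂ v))) (fun v => l (p₀ v)) ≤
      ch Q (fun v => (e (p₁ v), e (p₂ v))) fun v => K (p₀ v) := ch_anti (h₀.fn Kl)
  have a4 := ch_subadd (P := Q) (fun v => e (p₁ v)) (fun v => e (p₂ v)) fun v => K (p₀ v)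
  have a5 : ch Q (fun v => e (p₁ v)) (fun v => K (p₀ v)) = ch P e K :=
    (ch_ext (fun _ _ => rfl) fun v hv => (sh v hv).1).trans (h₁.ch_id e K)
  have a6 : ch Q (fun v => e (p₂ v)) (fun v => K (p₀ v)) = ch P e K :=
    (ch_ext (fun _ _ => rfl) fun v hv => (sh v hv).2).trans (h₂.ch_id e K)
  have a7 : ch Q (fun v => (e (p₁ v), e (p₂ v))) p₀ ≤
      ch Q (fun v => (e (p₁ v), e (p₂ v))) fun v => (f (p₀ v), l (p₀ v)) :=
    ch_anti (Fn.comp (fun x => (f x, l x)) p₀)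
  have a8 := h₀.ch_id f l
  have a9 : ch P e (fun ω => (S ω, K ω)) ≤ ch P e S := ch_anti (Fn.fst _ _)
  unfold mi
  linarith

variable (P : FP Ω) (S : Ω → β) (e : Ω → α)

theorem law2 : Law (glue P P S S) (fun v => S v.1) P S := (kg.fst P P S S).comp S

theorem lawA : Law (glue (glue P P S S) P (fun v => S v.1) S) (fun c => c.1.1) P id :=
  ((kg.fst (glue P P S S) P (fun v => S v.1) S).comp Prod.fst).trans (kg.fst P P S S)

theorem lawB : Law (glue (glue P P S S) P (fun v => S v.1) S) (fun c => c.1.2) P id :=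
  ((kg.fst (glue P P S S) P (fun v => S v.1) S).comp Prod.snd).trans (kg.snd P P S S (Law.rfl _))

theorem lawC : Law (glue (glue P P S S) P (fun v => S v.1) S) (fun c => c.2) P id :=
  kg.snd _ _ _ _ (law2 P S)

theorem share {K : Ω → γ} (h : Fn P K S) (c : (Ω × Ω) × Ω)
    (hc : c ∈ (glue (glue P P S S) P (fun v => S v.1) S).S) :
    K c.1.2 = K c.1.1 ∧ K c.2 = K c.1.1 := by
  obtain ⟨a, b, d⟩ := (kg.mem _ _ _ _ c (law2 P S)).1 hc
  obtain ⟨a1, a2, a3⟩ := (mem_copy P S c.1).1 a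
  exact ⟨h _ a2 _ a1 a3, h _ b _ a1 d⟩

theorem entA : 2 * ch P e S ≤ ch (glue (glue P P S S) P (fun v => S v.1) S)
    (fun c => (e c.1.2, e c.2)) fun c => c.1.1 := by
  have h1 := (kg.fst (glue P P S S) P (fun v => S v.1) S).ch_id (fun v => e v.2) fun v => v.1
  have h2 := kg.mk1 P P S S e id (Law.rfl _) (Fn.comp S id)
  have h3 := kg.mk1 (glue P P S S) P (fun v => S v.1) S e (fun v => (e v.2, v.1)) (law2 P S)
    fun _ _ _ _ u => congrArg (fun x => S x.2) u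
  rw [ch_chain, h1, h3]
  simp only [id] at h2
  linarith

theorem entB : 2 * ch P e S ≤ ch (glue (glue P P S S) P (fun v => S v.1) S)
    (fun c => (e c.1.1, e c.2)) fun c => c.1.2 := by
  have h1 := (kg.fst (glue P P S S) P (fun v => S v.1) S).ch_id (fun v => e v.1) fun v => v.2
  have h2 := mk2 P P S S e id (Law.rfl _) (Fn.comp S id)
  have h3 := kg.mk1 (glue P P S S) P (fun v => S v.1) S e (fun v => (e v.1, v.2)) (law2 P S)
    fun a ha b hb u => ((mem_copy P S a).1 ha).2.2.symm.trans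
      ((congrArg (fun x => S x.2) u).trans ((mem_copy P S b).1 hb).2.2)
  rw [ch_chain, h1, h3]
  simp only [id] at h2
  linarith

theorem entC : 2 * ch P e S ≤ ch (glue (glue P P S S) P (fun v => S v.1) S)
    (fun c => (e c.1.1, e c.1.2)) fun c => c.2 := by
  have h1 := mk2 (glue P P S S) P (fun v => S v.1) S (fun v => (e v.1, e v.2)) id (law2 P S)
    (Fn.comp S id)
  have h2 := (kg.fst P P S S).ch_id e S
  have h3 := kg.mk1 P P S S e (fun x => (e x, S x)) (Law.rfl _) (Fn.snd _ _)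
  rw [ch_chain, h2, h3] at h1
  simp only [id] at h1
  linarith

theorem fin (X : U3) {τ : ℕ → ℕ} {D R : ℕ} {L : ℝ} (h : X.Alg τ D R L) (A : ℕ) (i : Fin 3) :
    ch X.P (fun ω => fl1 A (X.t ω)) X.l -
      2 * mi X.P (fun ω => (fl1 A (X.w ω), fl1 A (X.b ω))) (X.S R) (X.S 0) ≤
    ch (X.C3 R) (fun c => fl1 A (X.t (X.pick i c))) fun c => (X.l (X.pick i c), X.W3 A c) := by
  have el : Fn X.P (fun ω => (fl1 A (X.w ω), fl1 A (X.b ω))) X.l := fun a ha b hb u =>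
    Prod.ext (congrArg (fl1 A) (h.wl a ha b hb u)) (congrArg (fl1 A) (h.bl a ha b hb u))
  have sh := share X.P (X.S R) (h.nest 0 R (Nat.zero_le R) le_rfl)
  have key : ∀ a ∈ (X.C3 R).S, ∀ b ∈ (X.C3 R).S,
      (fl1 A (X.w a.1.1), fl1 A (X.b a.1.1)) = (fl1 A (X.w b.1.1), fl1 A (X.b b.1.1)) →
      (fl1 A (X.w a.1.2), fl1 A (X.b a.1.2)) = (fl1 A (X.w b.1.2), fl1 A (X.b b.1.2)) →
      (fl1 A (X.w a.2), fl1 A (X.b a.2)) = (fl1 A (X.w b.2), fl1 A (X.b b.2)) →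
      X.S 0 a.2 = X.S 0 b.2 → X.W3 A a = X.W3 A b := by
    intro a _ b _ u0 u1 u2 u3
    refine Prod.ext (funext fun j => ?_) u3
    fin_cases j
    exacts [u0, u1, u2]
  fin_cases i
  · refine core X.P (X.C3 R) (fun c => c.1.1) (fun c => c.1.2) (fun c => c.2) _ (X.S R) (X.S 0)
      X.l _ (X.W3 A) (lawA _ _) (lawB _ _) (lawC _ _) el h.sl
      (fun v hv => ⟨(sh v hv).1.symm, (sh v hv).2.symm⟩) (fun a ha b hb u => ?_) (entA _ _ _)
    obtain ⟨u0, u⟩ := Prod.mk.inj u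
    obtain ⟨u1, u⟩ := Prod.mk.inj u
    obtain ⟨u2, u3⟩ := Prod.mk.inj u
    exact key a ha b hb u0 u1 u2 ((sh a ha).2.trans (u3.trans (sh b hb).2.symm))
  · refine core X.P (X.C3 R) (fun c => c.1.2) (fun c => c.1.1) (fun c => c.2) _ (X.S R) (X.S 0)
      X.l _ (X.W3 A) (lawB _ _) (lawA _ _) (lawC _ _) el h.sl
      (fun v hv => ⟨(sh v hv).1, (sh v hv).1.trans (sh v hv).2.symm⟩) (fun a ha b hb u => ?_)
      (entB _ _ _)
    obtain ⟨u1, u⟩ := Prod.mk.inj u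
    obtain ⟨u0, u⟩ := Prod.mk.inj u
    obtain ⟨u2, u3⟩ := Prod.mk.inj u
    exact key a ha b hb u0 u1 u2 ((sh a ha).2.trans ((sh a ha).1.symm.trans
      (u3.trans ((sh b hb).1.trans (sh b hb).2.symm))))
  · refine core X.P (X.C3 R) (fun c => c.2) (fun c => c.1.1) (fun c => c.1.2) _ (X.S R) (X.S 0)
      X.l _ (X.W3 A) (lawC _ _) (lawA _ _) (lawB _ _) el h.sl
      (fun v hv => ⟨(sh v hv).2, (sh v hv).2.trans (sh v hv).1.symm⟩) (fun a ha b hb u => ?_)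
      (entC _ _ _)
    obtain ⟨u2, u⟩ := Prod.mk.inj u
    obtain ⟨u0, u⟩ := Prod.mk.inj u
    obtain ⟨u1, u3⟩ := Prod.mk.inj u
    exact key a ha b hb u0 u1 u2 u3

end UHanFA

theorem rowHanF : RHanF := by
  intro ht γ e η X R m A i hT hA hI
  obtain ⟨L, -, hL⟩ := hT.alg
  refine Le.of2 (ht.ht γ e η X R m A hT hA) (hI.smul (c := 2) zero_le_two) (hL.mono fun n a => ?_)
  have := UHanFA.fin (X n) a (A n) i
  linarith

end Pool.Agent.MP_5168f5_an.R4.U
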