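import Pool.Agent.MP_5168f5_an.R4.USpec

/-! Row UJnt: the offset is full given the data shared by the two lines of a rectangle. -/

namespace Pool.Agent.MP_5168f5_an.R4.U

open H19 H17S H17F Filter K31

namespace UJntA

theorem mul_le {x y a b : ℝ} (h : |x| ≤ a) (h' : |y| ≤ b) : -(a * b) ≤ x * y ∧ x * y ≤ a * b :=
  abs_le.1 (by rw [abs_mul]; exact mul_le_mul h h' (abs_nonneg _) ((abs_nonneg _).trans h))

variable {X : U3} {τ : ℕ → ℕ} {D R q ρ B : ℕ} {L : ℝ}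

theorem same (h : X.Alg τ D R L) {c : X.Ω × X.Ω} (a : c ∈ X.P2.S) :
    c.1 ∈ X.P.S ∧ c.2 ∈ X.P.S ∧ X.a c.1 = X.a c.2 ∧ X.w c.1 = X.w c.2 ∧ X.n c.1 = X.n c.2 ∧
      X.b c.1 = X.b c.2 ∧ X.S 0 c.1 = X.S 0 c.2 := by
  obtain ⟨a1, a2, e⟩ := (mem_copy _ _ c).1 a
  simpa only [Prod.mk.injEq, a1, a2, true_and] using h.fl _ a1 _ a2 e.symm

theorem dif (h : X.Alg τ D R L) (hL : 1 ≤ L) (hs : ∀ ω ∈ X.P.S, |X.px R ω| ≤ L) {c : X.Ω × X.Ω}
    (a : c ∈ X.P2.S) : |X.π R q ρ c.1 - X.π R q ρ c.2 - X.b c.2 * (X.t c.1 - X.t c.2)| ≤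
      4 * L * (1 / 2 ^ q) := by
  obtain ⟨a1, a2, e1, -, e3, e4, -⟩ := same h a
  have k : ∀ ω ∈ X.P.S, |X.G R ρ ω| ≤ 2 * L := fun ω b =>
    (abs_rd _ _).trans (by linarith [hs ω b])
  have b1 := mul_le (k _ a1) (abs_sub_rd q (X.a c.2))
  have b2 := mul_le (k _ a2) (abs_sub_rd q (X.a c.2))
  simp only [U3.π, U3.u, U3.r, e1, e3, e4]
  exact abs_le.2 ⟨by linarith, by linarith⟩

/-- The second point and the first height. -/
noncomputable def K (X : U3) (R q ρ B : ℕ) (c : X.Ω × X.Ω) :=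
  (fl1 B (X.t c.1), X.A R q ρ c.2, X.Θ R q ρ B c.2)

theorem near (h : X.Alg τ D R L) (hL : 1 ≤ L) (hs : ∀ ω ∈ X.P.S, |X.px R ω| ≤ L) (hq : q ≤ B) :
    ∀ c ∈ X.P2.S, ∀ c' ∈ X.P2.S, K X R q ρ B c = K X R q ρ B c' →
      |X.π R q ρ c.1 - X.π R q ρ c'.1| ≤ 12 * L / 2 ^ q := fun c a c' a' e => by
  simp only [K, U3.Θ, Prod.mk.injEq] at e
  obtain ⟨e1, -, -, -, -, e2, -, e3, e4⟩ := e
  obtain ⟨a1, a2, -⟩ := same h a
  have b1 := abs_le.1 (dif (q := q) (ρ := ρ) h hL hs a)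
  have b2 := abs_le.1 (dif (q := q) (ρ := ρ) h hL hs a')
  have b3 := abs_le.1 (near_of_fl1 e4)
  have b4 := h.bd _ (same h a').2.1
  have b5 := mul_le b4.2.2.2.1 (near_of_fl1 (fl1_eq_of_le hq e1))
  have b6 := mul_le b4.2.2.2.1 (near_of_fl1 (fl1_eq_of_le hq e2))
  have b7 := mul_le (near_of_fl1 e3) (y := X.t c.1 - X.t c.2) (b := 1) (by
    obtain ⟨-, -, -, -, u1, u2⟩ := h.bd _ a1
    obtain ⟨-, -, -, -, u3, u4⟩ := h.bd _ a2
    exact abs_le.2 ⟨by linarith, by linarith⟩)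
  have b8 := le_mul_of_one_le_left (show (0 : ℝ) ≤ 1 / 2 ^ q by positivity) hL
  rw [div_eq_mul_one_div]
  exact abs_le.2 ⟨by linarith, by linarith⟩

theorem key (h : X.Alg τ D R L) (hq : q ≤ B) :
    ch X.P (fun ω => fl1 B (X.a ω)) (fun ω => (X.A R q ρ ω, X.Θ R q ρ B ω)) +
        ch X.P (fun ω => fl1 B (X.t ω)) X.l ≤
      ch X.P2 (fun c => fl1 B (X.a c.1)) (X.φ R q ρ B) +
        ch X.P (X.gz R ρ) (fun ω => (fl1 q (X.t ω), X.Xq q ω)) +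
        ch X.P2 (fun c => fl1 q (X.π R q ρ c.1)) (K X R q ρ B) +
        ch X.P (fun ω => fl1 B (X.t ω)) fun _ => () := by
  have l1 := kg.fst X.P X.P X.l X.l
  have l2 := kg.snd X.P X.P X.l X.l (Law.rfl _)
  have a1 := ch_tri' (P := X.P2) (fun c => fl1 B (X.a c.1)) (K X R q ρ B) (X.φ R q ρ B)
  have a2 : ch X.P2 (fun c => fl1 B (X.a c.1)) (K X R q ρ B) =
      ch X.P2 (fun c => fl1 B (X.a c.2)) (K X R q ρ B) :=
    ch_ext (fun c a => by rw [(same h a).2.2.1]) fun _ _ => rfl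
  have a3 : ch X.P2 (X.φ R q ρ B) (K X R q ρ B) ≤
      ch X.P2 (fun c => (X.gz R ρ c.1, fl1 q (X.π R q ρ c.1))) (K X R q ρ B) :=
    ch_mono fun c a c' a' e => by
      obtain ⟨-, -, u1, u2, -, u3, u4⟩ := same h a
      obtain ⟨-, -, v1, v2, -, v3, v4⟩ := same h a'
      simp only [K, U3.φ, U3.Θ, Prod.mk.injEq, u1, u2, u3, u4, v1, v2, v3, v4] at e ⊢
      obtain ⟨⟨e1, e2⟩, e3, e4, e5, e6, e7, e8, e9, e10, -⟩ := e
      exact ⟨⟨e5, e6, e7, e3, e1, e10, e2⟩, e8, e9, e4⟩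
  have a4 := ch_subadd (P := X.P2) (fun c => X.gz R ρ c.1) (fun c => fl1 q (X.π R q ρ c.1))
    (K X R q ρ B)
  have a5 : ch X.P2 (fun c => X.gz R ρ c.1) (K X R q ρ B) ≤
      ch X.P (X.gz R ρ) fun ω => (fl1 q (X.t ω), X.Xq q ω) := by
    rw [← l1.ch_id]
    refine ch_anti fun c a c' a' e => ?_
    obtain ⟨-, -, u1, u2, -, -, u4⟩ := same h a
    obtain ⟨-, -, v1, v2, -, -, v4⟩ := same h a'
    simp only [K, U3.Xq, U3.Θ, Prod.mk.injEq, u1, u2, u4, v1, v2, v4] at e ⊢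
    exact ⟨fl1_eq_of_le hq e.1, e.2.2.2.1, fl1_eq_of_le hq e.2.2.2.2.1, e.2.2.1⟩
  have a6 := l2.ch_id (fun ω => fl1 B (X.a ω)) fun ω => (X.A R q ρ ω, X.Θ R q ρ B ω)
  have a7 : _ - ch _ _ (K X R q ρ B) = _ := ch_symm (P := X.P2) (fun c => fl1 B (X.a c.2)) (fun c => fl1 B (X.t c.1))
    fun c => (X.A R q ρ c.2, X.Θ R q ρ B c.2)
  have a8 : ch X.P2 (fun c => fl1 B (X.t c.1)) (fun c => (X.A R q ρ c.2, X.Θ R q ρ B c.2)) ≤
      ch X.P (fun ω => fl1 B (X.t ω)) fun _ => () := by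
    rw [← l1.ch_id]
    exact ch_anti fun _ _ _ _ _ => rfl
  have a9 : ch X.P (fun ω => fl1 B (X.t ω)) X.l ≤
      ch X.P (fun ω => fl1 B (X.t ω)) fun ω => (X.l ω, ()) :=
    ch_anti fun _ _ _ _ e => Prod.ext e rfl
  rw [← kg.mkv' X.P X.P X.l X.l _ (fun _ => ()) id (Law.rfl _)
    fun _ _ _ _ e => congrArg X.l e] at a9
  have a10 := a9.trans (ch_anti (G := fun c : X.Ω × X.Ω =>
    (fl1 B (X.a c.2), X.A R q ρ c.2, X.Θ R q ρ B c.2)) fun c _ c' _ e => by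
      simp only [show c.2 = c'.2 from congrArg Prod.fst e])
  linarith

end UJntA

open UJntA in
theorem rowJnt : RJnt := by
  intro hT γ e η X R m q ρ B L h h1 h2
  have hR := h.tan.big
  have hq : ∀ n, q n ≤ B n := fun n => (Nat.le_add_right _ _).trans (h.le n).1
  refine Le.of5 h2 (hT.ht γ e η X R m B h.tan fun n => (h.le n).2.1) h1
    (Sm.near1 (P := fun n => (X n).P2) (x := fun n c => (X n).π (R n) (q n) (ρ n) c.1) (j := q)
      (G := fun n => K (X n) (R n) (q n) (ρ n) (B n)) hR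
      (h.sub.const_mul hR (C := 12) (by norm_num)) ?_)
    (le_fl1 (P := PP X) (x := fun n => (X n).t) (G := fun _ _ => ()) (j := fun _ => 0) (k := B) hR
      (hR.sub le_rfl) (fun _ => Nat.zero_le _) (h.alg.mono fun n k a ha b hb _ => ?_))
    (h.alg.mono fun n k => ?_)
  · filter_upwards [h.alg, h.slp] with n k s
    exact near k (h.sub.1 n) (fun ω a => (s ω a).2.1) (hq n)
  · obtain ⟨-, -, -, -, u1, u2⟩ := k.bd _ ha
    obtain ⟨-, -, -, -, u3, u4⟩ := k.bd _ hb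
    rw [pow_zero, div_one]
    exact abs_le.2 ⟨by linarith, by linarith⟩
  · have := key (q := q n) (ρ := ρ n) k (hq n)
    simp only [Nat.cast_zero, sub_zero]
    linarith

end Pool.Agent.MP_5168f5_an.R4.U
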