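import Pool.Agent.MP_5168f5_an.R4.USpec

/-! Three coordinates, each of which moves along its own line. -/

namespace Pool.Agent.MP_5168f5_an.R4.U

open H19 H17S H17F Filter K31

namespace ULWA

theorem three {W K α : Type} (Q : FP W) (k : W → K) (F : W → Fin 3 → α) :
    ch Q (fun c => F c 0) (fun c => ((F c 1, F c 2), k c)) +
      ch Q (fun c => F c 1) (fun c => ((F c 0, F c 2), k c)) +
      ch Q (fun c => F c 2) (fun c => ((F c 0, F c 1), k c)) ≤ ch Q F k := by
  have e1 := ch_chain (P := Q) (fun c => F c 0) (fun c => (F c 1, F c 2)) k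
  have e2 := ch_chain (P := Q) (fun c => F c 1) (fun c => F c 2) fun c => (F c 0, k c)
  have e3 : ch Q (fun c => (F c 0, F c 1, F c 2)) k ≤ ch Q F k :=
    ch_mono fun a _ b _ e => by simp only [Prod.mk.injEq] at e; simp only [e.1]
  have e4 : ch Q (fun c => F c 0) (fun c => ((F c 1, F c 2), k c)) ≤ ch Q (fun c => F c 0) k :=
    ch_anti (Fn.snd _ _)
  have e5 : ch Q (fun c => F c 1) (fun c => ((F c 0, F c 2), k c)) ≤
      ch Q (fun c => F c 1) fun c => (F c 0, k c) :=
    ch_anti fun a _ b _ e => by simp only [Prod.mk.injEq] at e ⊢; tauto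
  have e6 : ch Q (fun c => F c 2) (fun c => ((F c 0, F c 1), k c)) ≤
      ch Q (fun c => F c 2) fun c => (F c 1, F c 0, k c) :=
    ch_anti fun a _ b _ e => by simp only [Prod.mk.injEq] at e ⊢; tauto
  linarith

theorem one {W K Λ : ℕ → Type} {Q : ∀ n, FP (W n)} {k : ∀ n, W n → K n}
    {x y z t : ∀ n, W n → ℝ} {l : ∀ n, W n → Λ n} {R A κ : ℕ → ℕ} {L : ℕ → ℝ}
    (hR : Big R) (hL : Sub R L) (hκ : ∀ n, κ n ≤ A n)
    (h : ∀ᶠ n in UF, ∀ c ∈ (Q n).S, ∀ c' ∈ (Q n).S, l n c = l n c' → k n c = k n c' →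
      |y n c - y n c'| ≤ L n / 2 ^ A n ∧ |z n c - z n c'| ≤ L n / 2 ^ A n ∧
        |t n c - t n c'| ≤ L n * 2 ^ κ n * (|x n c - x n c'| + 1 / 2 ^ A n))
    (ht : Le R (fun n => A n * lg) fun n =>
      ch (Q n) (fun c => fl1 (A n) (t n c)) fun c => (l n c, k n c)) :
    Le R (fun n => (A n - κ n : ℝ) * lg) fun n => ch (Q n) (fun c => fl1 (A n) (x n c))
      fun c => ((fl1 (A n) (y n c), fl1 (A n) (z n c)), k n c) := by
  have hy : Sm R fun n => ch (Q n) (fun c => fl1 (A n) (y n c)) fun c => (l n c, k n c) :=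
    Sm.near1 hR hL (h.mono fun n a c hc c' hc' e =>
      (a c hc c' hc' (congrArg Prod.fst e) (congrArg Prod.snd e)).1)
  have hz : Sm R fun n => ch (Q n) (fun c => fl1 (A n) (z n c)) fun c => (l n c, k n c) :=
    Sm.near1 hR hL (h.mono fun n a c hc c' hc' e =>
      (a c hc c' hc' (congrArg Prod.fst e) (congrArg Prod.snd e)).2.1)
  have hx := le_fl1 (P := Q) (G := fun n c => (fl1 (A n) (x n c), l n c, k n c))
    (j := fun n => A n - κ n) (k := A) (x := t) hR (hL.const_mul hR one_le_two)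
    (fun n => Nat.sub_le _ _) (h.mono fun n a c hc c' hc' e => by
      simp only [Prod.mk.injEq] at e
      have e1 := (a c hc c' hc' e.2.1 e.2.2).2.2
      have e2 := (abs_sub_lt_of_fl1_eq e.1).le
      have e3 : (2 : ℝ) ^ A n = 2 ^ (A n - κ n) * 2 ^ κ n := by
        rw [← pow_add, Nat.sub_add_cancel (hκ n)]
      have e4 := hL.pos n
      refine e1.trans ((mul_le_mul_of_nonneg_left (add_le_add e2 le_rfl)
        (by positivity)).trans (le_of_eq ?_))
      rw [e3]; field_simp; ring)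
  refine ht.of4 hx hy hz (Eventually.of_forall fun n => ?_)
  have e1 := ch_tri (P := Q n) (fun c => fl1 (A n) (t n c)) (fun c => fl1 (A n) (x n c))
    fun c => (l n c, k n c)
  have e2 := ch_tri' (P := Q n) (fun c => fl1 (A n) (x n c)) (fun c => (l n c, k n c))
    fun c => ((fl1 (A n) (y n c), fl1 (A n) (z n c)), k n c)
  have e3 : ch (Q n) (fun c => ((fl1 (A n) (y n c), fl1 (A n) (z n c)), k n c))
      (fun c => (l n c, k n c)) ≤
      ch (Q n) (fun c => (fl1 (A n) (y n c), fl1 (A n) (z n c))) fun c => (l n c, k n c) :=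
    ch_mono fun a _ b _ e => by simp only [Prod.mk.injEq] at e ⊢; tauto
  have e4 := ch_subadd (P := Q n) (fun c => fl1 (A n) (y n c)) (fun c => fl1 (A n) (z n c))
    fun c => (l n c, k n c)
  rw [Nat.cast_sub (hκ n)]
  linarith

end ULWA

open ULWA

theorem rowLW3 : LW3 := by
  intro W K Λ Q k f t l R A κ L hR hL hκ h ht
  have h0 := one (x := fun n => f n 0) (y := fun n => f n 1) (z := fun n => f n 2) hR hL hκ
    (h.mono fun n a c hc c' hc' e e' => ⟨(a 0 c hc c' hc' e e').1 1 (by decide),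
      (a 0 c hc c' hc' e e').1 2 (by decide), (a 0 c hc c' hc' e e').2⟩) (ht 0)
  have h1 := one (x := fun n => f n 1) (y := fun n => f n 0) (z := fun n => f n 2) hR hL hκ
    (h.mono fun n a c hc c' hc' e e' => ⟨(a 1 c hc c' hc' e e').1 0 (by decide),
      (a 1 c hc c' hc' e e').1 2 (by decide), (a 1 c hc c' hc' e e').2⟩) (ht 1)
  have h2 := one (x := fun n => f n 2) (y := fun n => f n 0) (z := fun n => f n 1) hR hL hκ
    (h.mono fun n a c hc c' hc' e e' => ⟨(a 2 c hc c' hc' e e').1 0 (by decide),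
      (a 2 c hc c' hc' e e').1 1 (by decide), (a 2 c hc c' hc' e e').2⟩) (ht 2)
  refine h0.of3 h1 h2 (Eventually.of_forall fun n => ?_)
  have := three (Q n) (k n) fun c (i : Fin 3) => fl1 (A n) (f n i c)
  linarith

end Pool.Agent.MP_5168f5_an.R4.U
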