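import Pool.Agent.MP_5168f5_an.R4.USpec

/-! Slopes that are constant along the lines contradict optimality. -/

namespace Pool.Agent.MP_5168f5_an.R4.U

open H19 H17S H17F Filter K31

namespace ULabelA

theorem pow_ge {R h : ℕ → ℕ} {L : ℕ → ℝ} (hL : Sub R L) (e : Frac h R) :
    ∀ᶠ n in UF, L n ≤ 2 ^ h n :=
  ((hL.frac e).2 (1 / 2) one_half_pos).mono fun n a =>
    a.trans ((le_of_eq (by congr 1; ring)).trans (exp_le_two_pow (h n)))

theorem dv {a : ℝ} {h k D : ℕ} (ha : a ≤ 2 ^ h) (e : h + k ≤ D) : a / 2 ^ D ≤ 1 / 2 ^ k := by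
  have h1 : (2 : ℝ) ^ (h + k) ≤ 2 ^ D := pow_le_pow_right₀ one_le_two e
  rw [div_le_div_iff₀ (by positivity) (by positivity), one_mul]
  exact (mul_le_mul_of_nonneg_right ha (by positivity)).trans ((pow_add 2 h k).ge.trans h1)

theorem quarter {R κ : ℕ → ℕ} (hR : Big R) (e : Frac κ R) : Frac (fun n => κ n / 4) R :=
  ((hR.frac e).frac_div four_pos).trans e

end ULabelA

open ULabelA in
theorem rowLabel : RLabel := by
  intro hF hTB γ e η X R m κ L α Ψ T tan hκ hL hfn hlk hw1 hw2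
  obtain ⟨L0, hL0, alg⟩ := tan.alg
  obtain ⟨L1, hL1, tb⟩ := hTB γ e η X R m R R tan fun n => ⟨le_rfl, le_rfl⟩
  have hq := quarter tan.big hκ
  have hA := pow_ge (((hL0.add hL1 tan.big).add hL tan.big).add (tan.big.sub le_rfl) tan.big) hq
  have hE := (((dnS_fst (PP X) (PP X) (fun n => (X n).l) fun n => (X n).l).whp tb).and
    ((dnS_snd (PP X) fun n => (X n).l).whp hw1)).and hw2
  generalize hEd : (fun n (c : (X n).Ω × (X n).Ω) => _) = E at hE
  have hpos := hE.pos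
  obtain ⟨κ0, hκ0, hpb⟩ := id hpos
  have key : ∀ᶠ n in UF, ∃ d : (X n).Ω × (X n).Ω → ℝ × ℝ × ℝ,
      (∀ c ∈ (cE (X n).P2 (E n)).S, (X n).Fit 4 (d c) c.1 0 (κ n / 4)) ∧
      ((X n).pull (cE (X n).P2 (E n)) Prod.fst).hk 0 d ≤ lg / κ0 + 5 ∧
      ((X n).pull (cE (X n).P2 (E n)) Prod.fst).lk d ≤ ((X n).lk (Ψ n) + lg) / κ0 + 5 := by
    filter_upwards [alg, hA, hpb, hfn] with n a hA hpb hfn
    have p0 := hL0.pos n
    have p1 := hL1.pos n
    have p2 := hL.pos n
    have hD : κ n ≤ tau γ (R n) := (hκ.1 n).trans (le_tau tan.par.1 _)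
    have hx : Fn (X n).P (fun ω => rd (tau γ (R n)) ((X n).x ω)) (X n).y :=
      fun v b w c d => rd_congr (a.xz.trans a.fz v b w c d)
    refine hF (X n) (Ψ n) (X n).l (T n)
      (fun ω => ((X n).pl (R n) ω).1 + (X n).pt (R n) ω * (X n).t ω +
        (X n).px (R n) ω * rd (tau γ (R n)) ((X n).x ω))
      (fun ω => rd (tau γ (R n)) ((X n).x ω)) (E n) 0 (κ n / 2) (κ n / 4) (L0 n) κ0 hκ0 (hL0.1 n)
      ?_ hpb (fun v b w c d => ?_) a.ty (fun v b w c d => congrArg Prod.fst d)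
      (fun v b w c d => ?_) hfn.1 (fun v b w c d => ?_) hx fun c hc hEc => ?_
    · calc L0 n * 2 ^ (κ n / 4) ≤ 2 ^ (κ n / 4) * 2 ^ (κ n / 4) :=
            mul_le_mul_of_nonneg_right (by linarith) (by positivity)
        _ ≤ _ := (pow_add _ _ _).ge.trans (pow_le_pow_right₀ one_le_two (by omega))
    · simp only [a.al v b w c d, a.wl v b w c d, a.nl v b w c d, a.bl v b w c d]
    · simp only [d, a.t0 b, a.t0 c]
    · have h1 := a.plS le_rfl le_rfl v b w c (hfn.2 v b w c (congrArg Prod.fst d))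
      have h2 := a.ty v b w c (congrArg Prod.snd d)
      have h3 := hx v b w c (congrArg Prod.snd d)
      simp only [U3.pt, U3.px, h1, h2, h3]
    · subst hEd
      obtain ⟨⟨⟨-, e1, -⟩, e2, e3⟩, e4, e5⟩ := hEc
      obtain ⟨c1, c2, c3⟩ := (mem_copy _ _ c).1 hc
      have d1 : L n / 2 ^ κ n ≤ 1 / 2 ^ (κ n / 2) := dv (h := κ n / 4) (by linarith) (by omega)
      have hr := abs_sub_rd (tau γ (R n)) ((X n).x c.1)
      refine ⟨(a.bd _ c1).2.1, e4.trans d1, e5.trans d1, ?_, ?_, ?_⟩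
      · rw [← a.bl _ c2 _ c1 c3, ← a.wl _ c2 _ c1 c3]
        exact e3.trans d1
      · have h1 := (a.fit (R n) le_rfl _ c1).1
        have h2 : |(X n).px (R n) c.1 * ((X n).x c.1 - rd (tau γ (R n)) ((X n).x c.1))|
            ≤ L1 n * (1 / 2 ^ tau γ (R n)) := by
          rw [abs_mul]
          exact mul_le_mul e1 hr (abs_nonneg _) p1.le
        have h3 : (L0 n + L1 n) / 2 ^ tau γ (R n) ≤ 1 / 2 ^ (κ n / 4) :=
          dv (h := κ n / 4) (by linarith) (by omega)
        refine le_trans (le_trans (le_of_eq ?_) ((abs_add_le _ _).trans (add_le_add h1 h2)))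
          (le_trans (le_of_eq (by ring)) h3)
        congr 1
        simp only [U3.pt, U3.px]
        ring
      · have h3 : (L n + 1) / 2 ^ tau γ (R n) ≤ 1 / 2 ^ (κ n / 4) :=
          dv (h := κ n / 4) (by linarith) (by omega)
        exact (mul_le_mul (by linarith) hr (abs_nonneg _) (by linarith)).trans
          ((mul_one_div _ _).le.trans h3)
  obtain ⟨d, hd⟩ := Filter.skolem.1 key
  have thn : Thn X m (fun _ => 0) fun n => κ n / 4 :=
    ⟨_, _, fun n => cE (X n).P2 (E n), fun _ => Prod.fst, d, d,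
      (dnS_cE hpos).trans (dnS_fst (PP X) (PP X) _ _),
      (tan.bigm.sm _).mono (hd.mono fun n a => a.2.1),
      ((hlk.smul (inv_pos.2 hκ0).le).add (tan.bigm.sm (lg / κ0 + 5))).mono
        (hd.mono fun n a => a.2.2.trans (le_of_eq (by ring))),
      hd.mono fun n a => ⟨fun _ _ _ _ b => b, a.1⟩⟩
  obtain ⟨c, hc, h⟩ := hq.2
  exact (tan.opt _ _ (fun _ => Nat.zero_le _) thn).false tan.big hc
    (h.mono fun n a => by simpa using a)

open ULabelA in
theorem rowFin : RFin := by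
  intro hLab γ e η X R m q ρ B L rec σ hσ hσρ ⟨L1, _, mu⟩ crs
  have hne : Whp (fun n => (X n).P2) fun n c =>
      rd (B n) ((X n).t c.1) - rd (B n) ((X n).t c.2) ≠ 0 :=
    whp_of_law (fun n => kg.fst _ _ _ _) (mu.mono (Eventually.of_forall fun n c _ a b => by
      have := a.2.1
      rw [b, abs_zero, mul_zero] at this
      exact absurd this (by norm_num)))
  have fit : ∀ᶠ n in UF, ∀ ω ∈ (X n).P.S, |(X n).b ω - (X n).pt (R n) ω -
      (X n).px (R n) ω * (X n).w ω| ≤ L n / 2 ^ (σ n / 4) := rec.alg.mono fun n a ω b => by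
    have p := rec.sub.pos n
    have h1 := (rec.le n).2.2.2
    have h2 := hσρ n
    refine (a.fit (R n) le_rfl ω b).2.trans ((div_pow_le (i := R n + σ n / 4) (by positivity)
      (by omega)).trans (le_of_eq ?_))
    rw [pow_add]
    field_simp
  refine hLab γ e η X R m (fun n => σ n / 4) (fun n => 6 * L n) _ (fun n => (X n).S (R n))
    (fun n ω => ((X n).pt (R n) ω, (X n).px (R n) ω)) rec.tan (quarter rec.tan.big hσ)
    (rec.sub.const_mul rec.tan.big (by norm_num)) (rec.alg.mono fun n a => ⟨fun v b w c d => ?_,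
      fun _ _ _ _ b => b⟩) rec.tan.lk (Whp.of_ev ?_) ((hne.and crs).mono ?_)
  · simp only [U3.pt, U3.px, a.plS le_rfl le_rfl v b w c d]
  · filter_upwards [fit, rec.slp] with n a b ω c
    have p := rec.sub.pos n
    exact ⟨(b ω c).2.1.trans (by linarith), (a ω c).trans (by gcongr; linarith)⟩
  · filter_upwards [fit, rec.alg] with n a alg c hc ⟨h0, h1⟩
    obtain ⟨c1, c2, c3⟩ := (mem_copy _ _ c).1 hc
    have p := rec.sub.1 n
    obtain ⟨-, w1, -, -, t1, t2⟩ := alg.bd _ c1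
    obtain ⟨-, -, -, -, t3, t4⟩ := alg.bd _ c2
    set s : ℝ := 1 / 2 ^ (σ n / 4) with hs
    have s0 : 0 < s := by positivity
    have hd : ∀ x : ℝ, x / 2 ^ (σ n / 4) = x * s := fun x => by rw [hs, mul_one_div]
    have h2 : |rd (B n) ((X n).t c.1) - rd (B n) ((X n).t c.2)| ≤ 1 := abs_le.2
      ⟨by linarith [rd_nonneg (B n) t1, rd_le (B n) ((X n).t c.2)],
        by linarith [rd_nonneg (B n) t3, rd_le (B n) ((X n).t c.1)]⟩
    have h3 : |(X n).G (R n) (ρ n) c.1 - (X n).G (R n) (ρ n) c.2| ≤ 2 * s := by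
      rw [← div_mul_cancel₀ (_ - _) h0, abs_mul, ← hd]
      exact (mul_le_of_le_one_right (abs_nonneg _) h2).trans h1
    have h4 : ∀ ω, |(X n).px (R n) ω - (X n).G (R n) (ρ n) ω| ≤ s := fun ω =>
      (abs_sub_rd _ _).trans (div_pow_le zero_le_one (by have := hσρ n; omega))
    have h5 : |(X n).px (R n) c.1 - (X n).px (R n) c.2| ≤ 4 * s := by
      have k1 := abs_le.1 (h4 c.1)
      have k2 := abs_le.1 (h4 c.2)
      have k3 := abs_le.1 h3
      exact abs_le.2 ⟨by linarith, by linarith⟩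
    have h6 : |((X n).px (R n) c.1 - (X n).px (R n) c.2) * (X n).w c.1| ≤ 4 * s * L n := by
      rw [abs_mul]
      exact mul_le_mul h5 w1 (abs_nonneg _) (by positivity)
    have k1 := abs_le.1 (a _ c1)
    have k2 := abs_le.1 (a _ c2)
    have k3 := abs_le.1 h6
    rw [alg.bl _ c2 _ c1 c3, alg.wl _ c2 _ c1 c3] at k2
    rw [hd] at k1 k2 ⊢
    exact ⟨abs_le.2 ⟨by linarith, by linarith⟩, h5.trans (by nlinarith)⟩

end Pool.Agent.MP_5168f5_an.R4.U
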