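import Pool.Agent.MP_5168f5_an.R4.USpec

/-! After a shift the second slope is a function of the base line. -/

namespace Pool.Agent.MP_5168f5_an.R4.U

open H19 H17S H17F Filter K31

namespace ULipA

theorem na {i k : ℕ} {a a' w w' r c : ℝ} (h0 : 0 ≤ r) (h1 : r ≤ 1)
    (h : |2 ^ i * (a + w * r) - c - (2 ^ i * (a' + w' * r) - c)| ≤ 1 / 2 ^ k)
    (h' : |w - w'| ≤ 1 / 2 ^ (i + k)) : |a - a'| ≤ 2 / 2 ^ (i + k) := by
  have e : a - a' = (2 ^ i * (a + w * r) - c - (2 ^ i * (a' + w' * r) - c)) / 2 ^ i -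
      (w - w') * r := by field_simp; ring
  rw [e]
  refine (abs_sub _ _).trans ?_
  rw [abs_div, abs_mul, abs_of_nonneg h0, abs_of_pos (by positivity : (0 : ℝ) < 2 ^ i)]
  refine (add_le_add (div_le_div_of_nonneg_right h (by positivity))
    (mul_le_mul h' h1 h0 (by positivity))).trans_eq ?_
  rw [pow_add]
  field_simp
  ring

theorem nb {i k : ℕ} {b b' w w' p q L : ℝ} (h0 : |q| ≤ L) (h : |b - b'| ≤ 1 / 2 ^ k)
    (h' : |w - w'| ≤ 1 / 2 ^ k) :
    |2 ^ k / 2 ^ i * (b - p - q * w) - 2 ^ k / 2 ^ i * (b' - p - q * w')| ≤ (1 + L) / 2 ^ i := by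
  rw [← mul_sub, show b - p - q * w - (b' - p - q * w') = b - b' - q * (w - w') by ring, abs_mul,
    abs_of_pos (by positivity : (0 : ℝ) < 2 ^ k / 2 ^ i)]
  refine (mul_le_mul_of_nonneg_left ((abs_sub _ _).trans (add_le_add h ((abs_mul _ _).trans_le
    (mul_le_mul h0 h' (abs_nonneg _) ((abs_nonneg _).trans h0))))) (by positivity)).trans_eq ?_
  field_simp

end ULipA

open ULipA

theorem rowLip : RLip := by
  intro H γ e η X R m ξ L T hξ hL hp
  have h1 := fun n => le_tau T.par.1 (ξ n)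
  have h2 := fun n => (h1 n).trans (hξ n)
  obtain ⟨L', -, al⟩ := T.alg
  let G := fun n (ω : (X n).Ω) =>
    (fl1 (tau γ (ξ n) - ξ n) (((X n).shift (ξ n) (tau γ (ξ n))).a ω),
      fl1 (tau γ (ξ n)) ((X n).w ω), (X n).S (ξ n) ω)
  have a := H γ e η X R m ξ (fun n => tau γ (ξ n)) T fun n => ⟨h2 n, hξ n, le_rfl⟩
  have b : Sm R fun n => ch (X n).P (fun ω => fl1 (tau γ (ξ n)) ((X n).a ω)) (G n) :=
    Sm.near1 T.big (T.big.sub one_le_two) (al.mono fun n A u hu v hv k => by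
      obtain ⟨k1, k2, k3⟩ : _ ∧ _ ∧ _ := by simpa only [G, Prod.mk.injEq] using k
      have k4 := near_of_fl1 k1
      have k5 := near_of_fl1 k2
      have t := A.bd v hv
      have k6 : fl1 _ _ = fl1 _ _ := A.xS le_rfl (h2 n) u hu v hv k3
      rw [rd_congr (A.tS le_rfl (h2 n) u hu v hv k3), k6] at k4
      rw [← Nat.add_sub_cancel' (h1 n)] at k5 ⊢
      exact na (rd_nonneg _ t.2.2.2.2.1) ((rd_le _ _).trans t.2.2.2.2.2.le) k4 k5)
  have c : Sm R fun n => ch (X n).P (fun ω => fl1 (ξ n) (((X n).shift (ξ n) (tau γ (ξ n))).b ω))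
      fun ω => (fl1 (tau γ (ξ n)) ((X n).b ω), G n ω) :=
    Sm.near1 T.big ((T.big.sub le_rfl).add hL T.big) ((al.and hp).mono fun n A u hu v hv k => by
      obtain ⟨k1, -, k2, k3⟩ : _ ∧ _ ∧ _ ∧ _ := by simpa only [G, Prod.mk.injEq] using k
      have k4 := A.1.plS le_rfl (h2 n) u hu v hv k3
      simp only [U3.pt, U3.px, k4]
      exact nb (A.2 v hv) (near_of_fl1 k1) (near_of_fl1 k2))
  refine Le.of3 a b c (Eventually.of_forall fun n => ?_)
  have e1 := ch_tri (P := (X n).P) (fun ω => fl1 (ξ n) (((X n).shift (ξ n) (tau γ (ξ n))).b ω))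
    (fun ω => fl1 (tau γ (ξ n)) ((X n).b ω)) (G n)
  have e2 := ch_drop (P := (X n).P) (fun ω => fl1 (tau γ (ξ n)) ((X n).b ω))
    (fun ω => fl1 (tau γ (ξ n)) ((X n).a ω)) (G n)
  have e3 := ch_anti (P := (X n).P) (F := fun ω => fl1 (tau γ (ξ n)) ((X n).b ω))
    (Fn.comp (fun x : ℤ × ℤ × ℤ × (X n).Lb => (x.1, x.2.2))
      fun ω => (fl1 (tau γ (ξ n)) ((X n).a ω), G n ω))
  linarith

end Pool.Agent.MP_5168f5_an.R4.U
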