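import Pool.Agent.MP_5168f5_an.R4.USpec

/-! The slope is local, and heights and offsets of a rectangle are jointly full. -/

namespace Pool.Agent.MP_5168f5_an.R4.U

open H19 H17S H17F Filter K31

namespace ULocA

theorem cp {Ω α β γ : Type} (P : FP Ω) (φ : Ω → β) (f : Ω → α) (G : Ω → γ) :
    ch P f φ ≤ ch (glue P P φ φ) (fun c => f c.2) fun c => G c.1 :=
  (kg.mk1 P P φ φ f id (Law.rfl _) (Fn.comp φ id)).symm.trans_le
    (ch_anti fun _ _ _ _ e => congrArg G e)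

theorem three {Ω α β γ δ : Type} (P : FP Ω) (F : Ω → α) (G : Ω → β) (H : Ω → γ) (K : Ω → δ) :
    ch P (fun ω => (F ω, G ω, H ω)) K =
      ch P F K + ch P G (fun ω => (F ω, K ω)) + ch P H fun ω => (G ω, F ω, K ω) := by
  rw [ch_chain F (fun ω => (G ω, H ω)) K, ch_chain G H, add_assoc]

theorem near {a w t a' w' t' L s : ℝ} (hL : 1 ≤ L) (h1 : |a - a'| ≤ 1 / s) (h2 : |w - w'| ≤ 1 / s)
    (h3 : |t - t'| ≤ 1 / s) (h4 : |w| ≤ L) (h5 : |t'| ≤ 1) :
    |a + w * t - (a' + w' * t')| ≤ 3 * L / s := by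
  have e : a + w * t - (a' + w' * t') = (a - a') + w * (t - t') + (w - w') * t' := by ring
  have k0 := (abs_nonneg _).trans h1
  have k1 := mul_le_mul h4 h3 (abs_nonneg _) (zero_le_one.trans hL)
  have k2 := mul_le_mul h2 h5 (abs_nonneg _) k0
  have k3 := mul_le_mul_of_nonneg_right hL k0
  rw [e, show 3 * L / s = 3 * (L * (1 / s)) by ring]
  refine (abs_add_le _ _).trans ((add_le_add (abs_add_le _ _) le_rfl).trans ?_)
  rw [abs_mul, abs_mul]
  linarith

end ULocA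

open ULocA

theorem rowLoc : LocA := by
  intro γ e η X R m q ρ B L h hc
  have hR := h.tan.big
  have hq : ∀ n, q n ≤ R n := fun n => by have := h.le n; omega
  have s1 : Sm R fun n => ch (X n).P (fun ω => fl1 (q n) ((X n).x ω)) fun ω =>
      (fl1 (q n) ((X n).t ω), (X n).Xq (q n) ω) :=
    Sm.near1 hR (h.sub.const_mul hR (C := 3) (by norm_num)) (h.alg.mono fun n k a ha b hb e => by
      simp only [U3.Xq, Prod.mk.injEq] at e
      exact near (h.sub.1 n) (near_of_fl1 e.2.1) (near_of_fl1 e.2.2.1) (near_of_fl1 e.1)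
        (k.bd a ha).2.1 (k.abs_t hb))
  have s2 : Sm R fun n => ch (X n).P ((X n).gz (R n) (ρ n)) fun ω => ((X n).S (q n) ω,
      fl1 (q n) ((X n).t ω), fl1 (q n) ((X n).x ω), (X n).S 0 ω) :=
    Sm.near1 (x := fun n => (X n).px (R n)) hR (h.sub.const_mul hR one_le_two)
      ((h.alg.and h.slp).mono fun n k a ha b hb e => by
        have e1 : (X n).px (q n) a = (X n).px (q n) b :=
          congrArg (·.2.2) (k.1.plS le_rfl (hq n) a ha b hb (Prod.mk.inj e).1)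
        have a1 := abs_le.1 (k.2 a ha).2.2.2.2
        have a2 := abs_le.1 (k.2 b hb).2.2.2.2
        rw [mul_div_assoc, abs_le]
        constructor <;> linarith [a1.1, a1.2, a2.1, a2.2])
  refine Le.of4 hc s1 s2 (h.tan.xz q hq) (h.alg.mono fun n k => ?_)
  have a1 := ch_drop (P := (X n).P) ((X n).gz (R n) (ρ n)) (fun ω => fl1 (q n) ((X n).x ω))
    fun ω => (fl1 (q n) ((X n).t ω), (X n).Xq (q n) ω)
  have a2 := ch_anti (P := (X n).P) (F := (X n).gz (R n) (ρ n))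
    (G := fun ω => (fl1 (q n) ((X n).t ω), fl1 (q n) ((X n).x ω), (X n).S 0 ω))
    (G' := fun ω => (fl1 (q n) ((X n).x ω), fl1 (q n) ((X n).t ω), (X n).Xq (q n) ω))
    fun _ _ _ _ e => by simp only [U3.Xq, Prod.mk.injEq] at e ⊢; tauto
  have a3 := ch_le_mi (P := (X n).P) (F := (X n).gz (R n) (ρ n)) (G := (X n).z)
    (K := fun ω => (fl1 (q n) ((X n).t ω), fl1 (q n) ((X n).x ω), (X n).S 0 ω))
    (K' := fun ω => (fl1 (B n) ((X n).t ω), fl1 (B n) ((X n).x ω), (X n).S 0 ω))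
    ((((Fn.comp (fl1 (B n)) _).trans k.tz).pair (Fn.pair (fun a ha b hb e => fl1_eq_of_le
      ((h.le n).2.1.trans (le_tau h.tan.par.1 _)) (k.xz a ha b hb e)) k.sz)).left _)
  have a4 := mi_near (P := (X n).P) (X n).z ((X n).gz (R n) (ρ n)) ((X n).S (q n))
    fun ω => (fl1 (q n) ((X n).t ω), fl1 (q n) ((X n).x ω), (X n).S 0 ω)
  rw [mi_symm, mi_symm (X n).z] at a4
  linarith

theorem rowJ4 : RJ4 := by
  intro ht γ e η X R m q ρ B L h hf hj
  have hR := h.tan.big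
  have hB := ht.ht γ e η X R m B h.tan fun n => (h.le n).2.1
  have l1 : ∀ n, Law (PP4 X R q ρ B n) Prod.fst (X n).P2 id := fun n => kg.fst _ _ _ _
  have l2 : ∀ n, Law (PP4 X R q ρ B n) (fun c => c.1.1) (X n).P id := fun n =>
    ((l1 n).comp Prod.fst).trans (kg.fst _ _ _ _)
  have k1 : ∀ n {T : Type} (G : (X n).Ω → T),
      ch (X n).P (fun ω => fl1 (B n) ((X n).t ω)) (X n).l ≤
        ch (PP4 X R q ρ B n) (fun c => fl1 (B n) ((X n).t c.1.2)) fun c => G c.1.1 := fun n _ G =>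
    (cp _ _ _ G).trans_eq ((l1 n).ch_id (fun v => fl1 (B n) ((X n).t v.2)) fun v => G v.1).symm
  have k2 : ∀ n {T : Type} (G : (X n).Ω × (X n).Ω → T),
      ch (X n).P2 (fun c => fl1 (B n) ((X n).a c.1)) ((X n).φ (R n) (q n) (ρ n) (B n)) ≤
        ch (PP4 X R q ρ B n) (fun c => fl1 (B n) ((X n).a c.2.1)) fun c => G c.1 := fun n _ G =>
    cp _ _ _ G
  constructor
  · refine Le.of3 hf hB hj (Eventually.of_forall fun n => ?_)
    have a1 := three (PP4 X R q ρ B n) (fun c => fl1 (B n) ((X n).a c.1.1))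
      (fun c => fl1 (B n) ((X n).t c.1.2)) (fun c => fl1 (B n) ((X n).a c.2.1)) fun c =>
        ((X n).A (R n) (q n) (ρ n) c.1.1, (X n).Θ (R n) (q n) (ρ n) (B n) c.1.1)
    have a2 := (l2 n).ch_id (fun ω => fl1 (B n) ((X n).a ω)) fun ω =>
      ((X n).A (R n) (q n) (ρ n) ω, (X n).Θ (R n) (q n) (ρ n) (B n) ω)
    have a3 := k1 n fun ω => (fl1 (B n) ((X n).a ω),
      (X n).A (R n) (q n) (ρ n) ω, (X n).Θ (R n) (q n) (ρ n) (B n) ω)
    have a4 := k2 n fun v => (fl1 (B n) ((X n).t v.2), fl1 (B n) ((X n).a v.1),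
      (X n).A (R n) (q n) (ρ n) v.1, (X n).Θ (R n) (q n) (ρ n) (B n) v.1)
    have a5 := ch_mono (P := PP4 X R q ρ B n)
      (F := fun c => (fl1 (B n) ((X n).a c.1.1), fl1 (B n) ((X n).t c.1.2),
        fl1 (B n) ((X n).a c.2.1)))
      (F' := fun c => (fl1 (B n) ((X n).t c.1.2), fl1 (B n) ((X n).a c.1.1),
        fl1 (B n) ((X n).a c.2.1)))
      (G := fun c => ((X n).A (R n) (q n) (ρ n) c.1.1, (X n).Θ (R n) (q n) (ρ n) (B n) c.1.1))
      fun _ _ _ _ e => by simp only [Prod.mk.injEq] at e ⊢; tauto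
    linarith
  · have s1 := le_fl1 (P := PP4 X R q ρ B) (x := fun n c => (X n).a c.2.1) (j := q) (k := B)
      (G := fun n c => (fl1 (B n) ((X n).a c.1.1), fl1 (B n) ((X n).w c.1.1), (X n).S 0 c.1.1))
      hR (hR.sub le_rfl) (fun n => by have := h.le n; omega)
      (Eventually.of_forall fun n a ha b hb e => by
        have e1 := congrArg (·.1.2.1) ((mem_copy _ _ a).1 ha).2.2
        have e2 := congrArg (·.1.2.1) ((mem_copy _ _ b).1 hb).2.2
        exact near_of_fl1 (e1.trans ((fl1_eq_of_le (by have := h.le n; omega)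
          (Prod.mk.inj e).1).trans e2.symm)))
    refine Le.of4 hB hB hj s1 (h.alg.mono fun n k => ?_)
    have a1 := three (PP4 X R q ρ B n) (fun c => fl1 (B n) ((X n).t c.1.1))
      (fun c => fl1 (B n) ((X n).t c.1.2)) (fun c => fl1 (B n) ((X n).a c.2.1)) fun c =>
        (fl1 (B n) ((X n).a c.1.1), fl1 (B n) ((X n).w c.1.1), (X n).S 0 c.1.1)
    have a2 := (l2 n).ch_id (fun ω => fl1 (B n) ((X n).t ω)) fun ω =>
      (fl1 (B n) ((X n).a ω), fl1 (B n) ((X n).w ω), (X n).S 0 ω)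
    have a3 := k1 n fun ω => (fl1 (B n) ((X n).t ω),
      fl1 (B n) ((X n).a ω), fl1 (B n) ((X n).w ω), (X n).S 0 ω)
    have a4 := k2 n fun v => (fl1 (B n) ((X n).t v.2), fl1 (B n) ((X n).t v.1),
      fl1 (B n) ((X n).a v.1), fl1 (B n) ((X n).w v.1), (X n).S 0 v.1)
    have a5 := ch_anti (P := (X n).P) (F := fun ω => fl1 (B n) ((X n).t ω)) (G' := (X n).l)
      (((Fn.comp (fl1 (B n)) _).trans k.al).pair (((Fn.comp (fl1 (B n)) _).trans k.wl).pair k.sl))
    have a6 := ch_tri (P := PP4 X R q ρ B n) (fun c => (fl1 (B n) ((X n).t c.1.1),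
      fl1 (B n) ((X n).t c.1.2), fl1 (B n) ((X n).a c.2.1))) (fun c => fl1 (B n) ((X n).a c.2.1))
      fun c => (fl1 (B n) ((X n).a c.1.1), fl1 (B n) ((X n).w c.1.1), (X n).S 0 c.1.1)
    have a7 := ch_le (P := PP4 X R q ρ B n) (F := fun c => (fl1 (B n) ((X n).t c.1.1),
      fl1 (B n) ((X n).t c.1.2), fl1 (B n) ((X n).a c.2.1)))
      (F' := fun c => (fl1 (B n) ((X n).t c.1.1), fl1 (B n) ((X n).t c.1.2)))
      (G := fun c => (fl1 (B n) ((X n).a c.2.1), fl1 (B n) ((X n).a c.1.1),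
        fl1 (B n) ((X n).w c.1.1), (X n).S 0 c.1.1))
      (G' := fun c => (fl1 (B n) ((X n).a c.1.1), fl1 (B n) ((X n).a c.2.1),
        fl1 (B n) ((X n).w c.1.1), (X n).S 0 c.1.1))
      (fun _ _ _ _ e => by simp only [Prod.mk.injEq] at e ⊢; tauto)
      fun _ _ _ _ e => by simp only [Prod.mk.injEq] at e ⊢; tauto
    linarith

end Pool.Agent.MP_5168f5_an.R4.U
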