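import Pool.Agent.MP_5168f5_an.R4.USpec

/-! The rate of change of the slope is a difference quotient. -/

namespace Pool.Agent.MP_5168f5_an.R4.U

open H19 H17S H17F Filter K31

namespace UMu1A

theorem sub_le {R ρ L} (h : Sub R L) (f : Frac ρ R) : ∀ᶠ n in UF, L n ≤ 2 ^ ρ n :=
  ((h.frac f).2 lg lg_pos).mono fun n a => by
    rwa [mul_comm, ← log_two_pow, Real.exp_log (by positivity)] at a

theorem sep {dt ζ L p : ℝ} (hL : 0 < L) (hp : 4 * L ≤ p) (h : 1 ≤ L * |dt|)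
    (e : |ζ - dt| ≤ 2 / p) : 1 ≤ 2 * L * |ζ| := by
  have h1 : L * (2 / p) ≤ 1 / 2 := by
    rw [← mul_div_assoc, div_le_iff₀ (by linarith)]
    linarith
  have h2 := abs_sub_abs_le_abs_sub dt ζ
  rw [abs_sub_comm] at h2
  have h3 := mul_le_mul_of_nonneg_left (h2.trans e) hL.le
  linarith

theorem quo {ζ x A B : ℝ} (h : 1 ≤ A * |ζ|) (hA : 0 ≤ A) (hx : |x| ≤ B) : |x / ζ| ≤ A * B := by
  have z : 0 < |ζ| := by
    by_contra k
    nlinarith [not_lt.1 k]
  rw [abs_div, div_le_iff₀ z]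
  nlinarith [abs_nonneg x]

theorem key {dt ζ dG da db A ε₁ ε₂ : ℝ} (h : 1 ≤ A * |ζ|) (hA : 0 ≤ A)
    (h2 : |dt * db - dG * da| ≤ ε₁) (h3 : |ζ - dt| * |db| ≤ ε₂) :
    |db - dG / ζ * da| ≤ A * (ε₁ + ε₂) := by
  have z : ζ ≠ 0 := by
    rintro rfl
    rw [abs_zero, mul_zero] at h
    linarith
  have e : db - dG / ζ * da = (dt * db - dG * da + (ζ - dt) * db) / ζ := by
    field_simp
    ring
  rw [e]
  exact quo h hA ((abs_add_le _ _).trans (add_le_add h2 ((abs_mul _ _).trans_le h3)))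

theorem rd_sub (j : ℕ) (t s : ℝ) : |rd j t - rd j s - (t - s)| ≤ 2 / 2 ^ j := by
  have h1 := abs_le.1 (abs_sub_rd j t)
  have h2 := abs_le.1 (abs_sub_rd j s)
  have e : (2 : ℝ) / 2 ^ j = 1 / 2 ^ j + 1 / 2 ^ j := by ring
  rw [e, abs_le]
  constructor <;> linarith [h1.1, h1.2, h2.1, h2.2]

theorem four {a b c d : ℝ} (ha : 1 ≤ a) (hb : 1 ≤ b) (hc : 1 ≤ c) (hd : 1 ≤ d) :
    a * b ≤ a * b * (c * d) ∧ a ≤ a * b * (c * d) ∧ c ≤ a * b * (c * d) ∧
      a * d ≤ a * b * (c * d) := by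
  have h1 := one_le_mul_of_one_le_of_one_le ha hb
  have h2 := one_le_mul_of_one_le_of_one_le hc hd
  have h3 : a * b ≤ a * b * (c * d) := le_mul_of_one_le_right (by linarith) h2
  have h4 : a ≤ a * b := le_mul_of_one_le_right (by linarith) hb
  exact ⟨h3, h4.trans h3, (le_mul_of_one_le_right (by linarith) hd).trans
    (le_mul_of_one_le_left (by linarith) h1),
    mul_le_mul h4 (le_mul_of_one_le_left (by linarith) hc) (by linarith) (by linarith)⟩

end UMu1A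

theorem rowMu1 : RMu1 := by
  intro sepL fulL ht γ e η X R m q ρ B L h jnt σ hσ ⟨L3, s3, w3⟩
  have hR := h.tan.big
  obtain ⟨L1, s1, w1⟩ := ht.sept γ e η X R m h.tan
  obtain ⟨L2, s2, w2⟩ := sepL (fun n => (X n).P2) (fun n c => (X n).a c.1)
    (fun n => (X n).φ (R n) (q n) (ρ n) (B n)) R q ρ 1 hR one_pos h.frac fun α hα =>
      fulL _ _ _ R q B α hR (fun n => (Nat.add_le_add_left (hα n) _).trans (h.le n).1)
        (.of_forall fun n a _ b _ k => congrArg (·.1.2.1) k) jnt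
  have w4 := (dnS_fst (fun n => (X n).P2) (fun n => (X n).P2)
    (fun n => (X n).φ (R n) (q n) (ρ n) (B n)) fun n => (X n).φ (R n) (q n) (ρ n) (B n)).whp w1
  refine ⟨_, ((s1.const_mul hR one_le_two).mul (h.sub.const_mul hR (C := 4) (by norm_num))).mul
    (s2.mul (s3.const_mul hR (C := 3) (by norm_num))), ((w4.and w2).and w3).mono ?_⟩
  filter_upwards [h.slp, UMu1A.sub_le (s1.const_mul hR (C := 4) (by norm_num)) h.frac]
    with n sl hp c hc ⟨⟨e1, e2⟩, e3⟩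
  obtain ⟨m1, -, m3⟩ := (mem_copy _ _ c).1 hc
  obtain ⟨m4, m5, -⟩ := (mem_copy _ _ c.1).1 m1
  have hB : ρ n ≤ B n := (Nat.le_add_left _ _).trans (h.le n).1
  have r := UMu1A.rd_sub (B n) ((X n).t c.1.1) ((X n).t c.1.2)
  have z := UMu1A.sep (s1.pos n) (hp.trans (pow_le_pow_right₀ one_le_two hB)) e1 r
  have p1 := s1.1 n
  have p2 := h.sub.1 n
  have p3 := s3.1 n
  obtain ⟨f1, f2, f3, f4⟩ := UMu1A.four (a := 2 * L1 n) (b := 4 * L n) (c := L2 n) (d := 3 * L3 n)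
    (by linarith) (by linarith) (s2.1 n) (by linarith)
  have g : |(X n).G (R n) (ρ n) c.1.1 - (X n).G (R n) (ρ n) c.1.2| ≤ 4 * L n :=
    (abs_sub _ _).trans ((add_le_add (abs_rd _ _) (abs_rd _ _)).trans
      (by linarith [(sl _ m4).2.1, (sl _ m5).2.1]))
  have b : |(X n).b c.1.1 - (X n).b c.2.1| ≤ 1 / 2 ^ q n :=
    near_of_fl1 (congrArg (·.1.2.2.2.2.2.1) m3).symm
  have k : 2 / 2 ^ B n * (1 / 2 ^ q n) ≤ 2 * L3 n / (2 : ℝ) ^ (q n + σ n) := by
    rw [div_mul_div_comm, mul_one, ← pow_add]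
    exact (div_pow_le zero_le_two (by have := hσ n; omega)).trans
      (div_le_div_of_nonneg_right (by linarith) (by positivity))
  refine ⟨(UMu1A.quo z (by linarith) g).trans f1,
    z.trans (mul_le_mul_of_nonneg_right f2 (abs_nonneg _)),
    e2.trans (mul_le_mul_of_nonneg_right (mul_le_mul_of_nonneg_right f3 (by positivity))
      (abs_nonneg _)), (UMu1A.key z (by linarith) e3
      ((mul_le_mul r b (abs_nonneg _) (by positivity)).trans k)).trans ?_⟩
  rw [← add_div, ← mul_div_assoc]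
  exact div_le_div_of_nonneg_right (le_trans (le_of_eq (by ring)) f4) (by positivity)

end Pool.Agent.MP_5168f5_an.R4.U
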