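import Pool.Agent.MP_5168f5_an.R4.USpec
import Pool.Agent.MP_5168f5_an.R4.XKF1

/-! The rate of change of the slope is a function of the tube. -/

namespace Pool.Agent.MP_5168f5_an.R4.U

open H19 H17S H17F Filter K31

namespace UMu2A

/-- A real variable of exponential size that is nearly determined on a likely event. -/
theorem fano1 {Ω β : ℕ → Type} {P : ∀ n, FP (Ω n)} {E : ∀ n, Ω n → Prop} {x : ∀ n, Ω n → ℝ}
    {G : ∀ n, Ω n → β n} {M j : ℕ → ℕ} {L K : ℕ → ℝ} (hM : Big M) (hL : Sub M L) (hK : Sub M K)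
    (hE : Whp P E) (h : ∀ᶠ n in UF, (∀ a ∈ (P n).S, |x n a| * 2 ^ j n ≤ K n * 2 ^ (2 * M n)) ∧
      ∀ a ∈ (P n).S, ∀ b ∈ (P n).S, G n a = G n b → E n a → E n b →
        |x n a - x n b| ≤ L n / 2 ^ j n) :
    Sm M fun n => ch (P n) (fun ω => fl1 (j n) (x n ω)) (G n) := by
  refine ks.fano P E _ G M (fun n => 5 * L n) 3 hM (hL.const_mul hM (by norm_num)) hE ?_
  filter_upwards [h, (hK.const_mul hM (by norm_num : (1 : ℝ) ≤ 7)).2 1 one_pos] with n a b
  have k1 := hK.1 n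
  have l1 := hL.1 n
  have p1 : (1 : ℝ) ≤ 2 ^ (2 * M n) := one_le_pow₀ one_le_two
  refine ⟨fun c hc => (det_near1 (L := 2 * (K n * 2 ^ (2 * M n))) (by positivity)
    (fun c hc d hd _ => ?_) c hc).imp fun T hT => ⟨hT.1.trans ?_, hT.2⟩, fun c hc => ?_⟩
  · rw [le_div_iff₀ (by positivity)]
    have := mul_le_mul_of_nonneg_right (abs_sub (x n c) (x n d)) (by positivity : (0 : ℝ) ≤ 2 ^ j n)
    linarith [a.1 c hc, a.1 d hd]
  · by_cases k : ∃ d ∈ (P n).S, G n d = G n c ∧ E n d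
    · obtain ⟨d, hd, e, e'⟩ := k
      refine ⟨Finset.Icc (fl1 (j n) (x n d) - ⌈L n⌉₊) (fl1 (j n) (x n d) + ⌈L n⌉₊), ?_,
        fun f hf u v => fl1_mem_Icc ((a.2 f hf d hd (u.trans e.symm) v e').trans ?_)⟩
      · rw [Int.card_Icc, show (fl1 (j n) (x n d) + ⌈L n⌉₊ + 1 -
          (fl1 (j n) (x n d) - ⌈L n⌉₊)).toNat = 2 * ⌈L n⌉₊ + 1 by omega]
        have := Nat.ceil_lt_add_one (zero_le_one.trans l1)
        push_cast; linarith
      · rw [div_eq_mul_inv]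
        exact mul_le_mul_of_nonneg_right (Nat.le_ceil _) (by positivity)
    · exact ⟨∅, by simp only [Finset.card_empty, Nat.cast_zero]; linarith,
        fun f hf u v => (k ⟨f, hf, u, v⟩).elim⟩
  · have e1 : (2 : ℝ) ^ (2 * M n) ≤ Real.exp (2 * M n) := by
      rw [show (2 * M n : ℝ) = ((2 * M n : ℕ) : ℝ) * 1 by push_cast; ring, Real.exp_nat_mul]
      exact pow_le_pow_left₀ zero_le_two (by linarith [Real.add_one_le_exp 1]) _
    have e2 : Real.exp (3 * M n) = Real.exp (1 * M n) * Real.exp (2 * M n) := by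
      rw [← Real.exp_add]; congr 1; ring
    have e3 := mul_le_mul b e1 (by positivity) (Real.exp_pos _).le
    have e4 := one_le_mul_of_one_le_of_one_le k1 p1
    rw [e2]; linarith

theorem quo {g s t K : ℝ} (B : ℕ) (h : |g| ≤ K) : |g / (rd B s - rd B t)| ≤ K * 2 ^ B := by
  have h0 := (abs_nonneg g).trans h
  by_cases e : fl1 B s = fl1 B t
  · rw [rd_congr e, sub_self, div_zero, abs_zero]; positivity
  · have e1 : (1 : ℝ) ≤ |(fl1 B s - fl1 B t : ℝ)| := by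
      exact_mod_cast Int.one_le_abs (sub_ne_zero.2 e)
    rw [rd, rd, ← sub_div, div_div_eq_mul_div, abs_div, abs_mul,
      abs_of_pos (by positivity : (0 : ℝ) < 2 ^ B)]
    exact (div_le_self (by positivity) e1).trans (by gcongr)

theorem alg {m m' a a' b b' L u s : ℝ} (hL : 1 ≤ L) (hu : 0 < u) (hs : 0 < s) (h1 : |m'| ≤ L)
    (h2 : 1 ≤ L * u * |a|) (h3 : |b - m * a| ≤ L / (u * s)) (h4 : |b' - m' * a'| ≤ L / (u * s))
    (h5 : |a - a'| ≤ 2 / (u * s)) (h6 : |b - b'| ≤ 2 / (u * s)) : |m - m'| ≤ 6 * (L * L) / s := by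
  have e1 : (m - m') * a = -(b - m * a) + (b - b') + (b' - m' * a') - m' * (a - a') := by ring
  have e2 : |m' * (a - a')| ≤ L * (2 / (u * s)) := by
    rw [abs_mul]; exact mul_le_mul h1 h5 (abs_nonneg _) (by linarith)
  have e3 : 2 / (u * s) ≤ L * (2 / (u * s)) := le_mul_of_one_le_left (by positivity) hL
  have e4 : L * (2 / (u * s)) = 2 * (L / (u * s)) := by ring
  have e5 : |m - m'| * |a| ≤ 6 * (L / (u * s)) := by
    rw [← abs_mul, e1]
    rw [abs_le] at h3 h4 h6 e2 ⊢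
    constructor <;> linarith [h3.1, h3.2, h4.1, h4.2, h6.1, h6.2, e2.1, e2.2]
  calc |m - m'| ≤ |m - m'| * (L * u * |a|) := le_mul_of_one_le_right (abs_nonneg _) h2
    _ = L * u * (|m - m'| * |a|) := by ring
    _ ≤ L * u * (6 * (L / (u * s))) := mul_le_mul_of_nonneg_left e5 (by positivity)
    _ = _ := by field_simp

theorem two {i j : ℕ} (h : i ≤ j) {a b c d : ℝ} (e : fl1 j a = fl1 j c) (e' : fl1 j b = fl1 j d) :
    |a - b - (c - d)| ≤ 2 / 2 ^ i := by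
  have h1 := (near_of_fl1 e).trans (div_pow_le zero_le_one h)
  have h2 := (near_of_fl1 e').trans (div_pow_le zero_le_one h)
  have h3 : (2 : ℝ) / 2 ^ i = 1 / 2 ^ i + 1 / 2 ^ i := by ring
  rw [abs_le] at h1 h2 ⊢
  constructor <;> linarith [h1.1, h1.2, h2.1, h2.2]

end UMu2A

open UMu2A

theorem rowMu2 : Mu2A := by
  intro γ e η X R m q ρ B L hR hLoc hJ σ hσ ⟨L', s', w'⟩
  have big := hR.tan.big
  have d1 := dnS_fst (fun n => (X n).P2) (fun n => (X n).P2)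
    (fun n => (X n).φ (R n) (q n) (ρ n) (B n)) fun n => (X n).φ (R n) (q n) (ρ n) (B n)
  have d2 := dnS_snd (fun n => (X n).P2) fun n => (X n).φ (R n) (q n) (ρ n) (B n)
  have p1 := dnS_fst (PP X) (PP X) (fun n => (X n).l) fun n => (X n).l
  have p2 := dnS_snd (PP X) fun n => (X n).l
  have g1 := (d1.trans p1).sm_ch hLoc
  have g2 := (d1.trans p2).sm_ch hLoc
  have b1 := (d1.trans p1).sm_ch hR.lip
  have b2 := (d2.trans p1).sm_ch hR.lip
  have mem : ∀ n, ∀ c ∈ (PP4 X R q ρ B n).S, (c.1.1 ∈ (X n).P.S ∧ c.1.2 ∈ (X n).P.S ∧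
      (X n).l c.1.2 = (X n).l c.1.1) ∧ (X n).S 0 c.2.1 = (X n).S 0 c.1.1 ∧
      fl1 (B n) ((X n).w c.2.1) = fl1 (B n) ((X n).w c.1.1) := fun n c hc => by
    obtain ⟨h1, -, h3⟩ := (mem_copy _ _ c).1 hc
    exact ⟨(mem_copy _ _ _).1 h1, congrArg (·.1.1) h3, congrArg (·.1.2.2.1) h3⟩
  have ht : ∀ {K : ℕ → Type} (π : ∀ n, ((X n).Ω × (X n).Ω) × (X n).Ω × (X n).Ω → (X n).Ω)
      (G : ∀ n, ((X n).Ω × (X n).Ω) × (X n).Ω × (X n).Ω → K n),
      (∀ n, ∀ c ∈ (PP4 X R q ρ B n).S, π n c ∈ (X n).P.S) → Le R (fun n => ch (PP4 X R q ρ B n)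
        (fun c => fl1 (B n) ((X n).t (π n c))) (G n)) fun n => (B n - (0 : ℕ) : ℝ) * lg :=
    fun π G hπ => le_fl1 (j := fun _ => 0) big (big.sub le_rfl) (fun _ => Nat.zero_le _)
      (hR.alg.mono fun n a c hc c' hc' _ => by
        obtain ⟨-, -, -, -, h1, h2⟩ := a.bd _ (hπ n c hc)
        obtain ⟨-, -, -, -, h3, h4⟩ := a.bd _ (hπ n c' hc')
        rw [abs_le, pow_zero]; constructor <;> linarith)
  have t1 := ht (fun _ c => c.1.1) (fun n c => (X n).Xq (q n) c.1.1) fun n c hc => (mem n c hc).1.1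
  have t2 := ht (fun _ c => c.1.2) (fun n c => (X n).Xq (q n) c.1.1) fun n c hc =>
    (mem n c hc).1.2.1
  have fa := fano1 (P := PP4 X R q ρ B) (x := fun n c => (X n).μ (R n) (ρ n) (B n) c.1) (j := σ)
    (G := fun n c => ((fl1 (q n + ρ n) ((X n).b c.1.1), fl1 (q n + ρ n) ((X n).b c.2.1)),
      (fl1 (B n) ((X n).a c.1.1), fl1 (B n) ((X n).a c.2.1), fl1 (B n) ((X n).w c.1.1)),
      (X n).Xq (q n) c.1.1)) big ((s'.mul s').const_mul big (by norm_num : (1 : ℝ) ≤ 6))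
    (hR.sub.const_mul big (by norm_num : (1 : ℝ) ≤ 4)) w' (hR.slp.mono fun n a => by
      obtain ⟨l1, l2, -⟩ := hR.le n
      have l3 := hσ n
      refine ⟨fun c hc => ?_, fun c hc c' hc' u v v' => ?_⟩
      · have h0 := hR.sub.1 n
        have h1 := (abs_rd (ρ n) _).trans (add_le_add (a _ (mem n c hc).1.1).2.1 le_rfl)
        have h2 := (abs_rd (ρ n) _).trans (add_le_add (a _ (mem n c hc).1.2.1).2.1 le_rfl)
        have h3 : |(X n).μ (R n) (ρ n) (B n) c.1| ≤ 4 * L n * 2 ^ B n :=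
          quo _ ((abs_sub _ _).trans (by unfold U3.G; linarith))
        refine (mul_le_mul_of_nonneg_right h3 (by positivity)).trans ?_
        rw [mul_assoc (4 * L n), ← pow_add]
        exact mul_le_mul_of_nonneg_left (pow_le_pow_right₀ one_le_two (by omega)) (by positivity)
      · simp only [Prod.mk.injEq] at u
        have h1 := two (show q n + σ n ≤ B n by omega) u.2.1.1 u.2.1.2.1
        have h2 := two (show q n + σ n ≤ q n + ρ n by omega) u.1.1 u.1.2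
        have h3 := v.2.2.2
        have h4 := v'.2.2.2
        rw [pow_add] at h1 h2 h3 h4
        exact alg (s'.1 n) (by positivity) (by positivity) v'.1 v.2.2.1 h3 h4 h1 h2)
  refine ((g1.add g2).add ((b1.add b2).add fa)).of4 t1 t2 hJ.j2 (hR.alg.mono fun n a => ?_)
  have lq : q n ≤ B n := le_trans (Nat.le_add_right _ _) (hR.le n).1
  have e0 := (kg.fst (X n).P2 (X n).P2 ((X n).φ (R n) (q n) (ρ n) (B n))
    ((X n).φ (R n) (q n) (ρ n) (B n))).ch_id (fun c => fl1 (σ n) ((X n).μ (R n) (ρ n) (B n) c))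
    fun c => (X n).Xq (q n) c.1
  have e1 := rowKF1.ci (PP4 X R q ρ B n) (fun c => fl1 (σ n) ((X n).μ (R n) (ρ n) (B n) c.1))
    (fun c => (fl1 (B n) ((X n).t c.1.1), fl1 (B n) ((X n).t c.1.2)))
    (fun c => (fl1 (B n) ((X n).a c.1.1), fl1 (B n) ((X n).a c.2.1), fl1 (B n) ((X n).w c.1.1)))
    fun c => (X n).Xq (q n) c.1.1
  have e2 : ch (PP4 X R q ρ B n) (fun c => fl1 (σ n) ((X n).μ (R n) (ρ n) (B n) c.1))
      (fun c => ((fl1 (B n) ((X n).t c.1.1), fl1 (B n) ((X n).t c.1.2)), (X n).Xq (q n) c.1.1)) ≤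
      _ + _ := (ch_mono (F' := fun c => ((X n).gz (R n) (ρ n) c.1.1, (X n).gz (R n) (ρ n) c.1.2))
        fun c _ c' _ u => by
          simp only [Prod.mk.injEq, U3.gz] at u
          simp only [U3.μ, U3.G, rd, u.1.1, u.1.2, u.2.1.1, u.2.1.2]).trans
      ((ch_subadd _ _ _).trans (add_le_add
        (ch_anti (G := fun c => (fl1 (q n) ((X n).t c.1.1), (X n).Xq (q n) c.1.1))
          fun c _ c' _ u => by
            simp only [Prod.mk.injEq] at u ⊢
            exact ⟨fl1_eq_of_le lq u.1.1, u.2⟩)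
        (ch_anti (G := fun c => (fl1 (q n) ((X n).t c.1.2), (X n).Xq (q n) c.1.2))
          fun c hc c' hc' u => by
            have k : ∀ c ∈ (PP4 X R q ρ B n).S, (X n).Xq (q n) c.1.2 = (X n).Xq (q n) c.1.1 :=
              fun c hc => by
                obtain ⟨⟨h1, h2, h3⟩, -⟩ := mem n c hc
                simp only [U3.Xq, a.al _ h2 _ h1 h3, a.wl _ h2 _ h1 h3, a.sl _ h2 _ h1 h3]
            simp only [Prod.mk.injEq] at u ⊢
            exact ⟨fl1_eq_of_le lq u.1.2, by rw [k c hc, k c' hc', u.2]⟩)))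
  have e3 := ch_tri (P := PP4 X R q ρ B n) (fun c => fl1 (σ n) ((X n).μ (R n) (ρ n) (B n) c.1))
    (fun c => (fl1 (q n + ρ n) ((X n).b c.1.1), fl1 (q n + ρ n) ((X n).b c.2.1))) fun c =>
      ((fl1 (B n) ((X n).a c.1.1), fl1 (B n) ((X n).a c.2.1), fl1 (B n) ((X n).w c.1.1)),
        (X n).Xq (q n) c.1.1)
  have e4 : ch (PP4 X R q ρ B n)
      (fun c => (fl1 (q n + ρ n) ((X n).b c.1.1), fl1 (q n + ρ n) ((X n).b c.2.1))) (fun c =>
      ((fl1 (B n) ((X n).a c.1.1), fl1 (B n) ((X n).a c.2.1), fl1 (B n) ((X n).w c.1.1)),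
        (X n).Xq (q n) c.1.1)) ≤ _ + _ := (ch_subadd _ _ _).trans (add_le_add
    (ch_anti (G := fun c => (fl1 (B n) ((X n).a c.1.1), fl1 (B n) ((X n).w c.1.1), (X n).S 0 c.1.1))
      fun c _ c' _ u => by
        simp only [Prod.mk.injEq, U3.Xq] at u ⊢
        exact ⟨u.1.1, u.1.2.2, u.2.2.2⟩)
    (ch_anti (G := fun c => (fl1 (B n) ((X n).a c.2.1), fl1 (B n) ((X n).w c.2.1), (X n).S 0 c.2.1))
      fun c hc c' hc' u => by
        simp only [Prod.mk.injEq, U3.Xq, (mem n c hc).2, (mem n c' hc').2] at u ⊢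
        exact ⟨u.1.2.1, u.1.2.2, u.2.2.2⟩))
  have e5 := ch_subadd (P := PP4 X R q ρ B n) (fun c => fl1 (B n) ((X n).t c.1.1))
    (fun c => fl1 (B n) ((X n).t c.1.2)) fun c => (X n).Xq (q n) c.1.1
  have e6 : ch (PP4 X R q ρ B n)
      (fun c => (fl1 (B n) ((X n).t c.1.1), fl1 (B n) ((X n).t c.1.2))) (fun c =>
      (fl1 (B n) ((X n).a c.1.1), fl1 (B n) ((X n).a c.2.1), fl1 (B n) ((X n).w c.1.1),
        (X n).S 0 c.1.1)) ≤ ch (PP4 X R q ρ B n)
      (fun c => (fl1 (B n) ((X n).t c.1.1), fl1 (B n) ((X n).t c.1.2))) fun c =>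
      ((fl1 (B n) ((X n).a c.1.1), fl1 (B n) ((X n).a c.2.1), fl1 (B n) ((X n).w c.1.1)),
        (X n).Xq (q n) c.1.1) := ch_anti fun c _ c' _ u => by
    simp only [Prod.mk.injEq, U3.Xq] at u ⊢
    exact ⟨⟨u.1, u.2.1, u.2.2.1⟩, fl1_eq_of_le lq u.1, fl1_eq_of_le lq u.2.2.1, u.2.2.2⟩
  unfold mi at e1
  push_cast
  linarith

end Pool.Agent.MP_5168f5_an.R4.U
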