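import Pool.Agent.MP_5168f5_an.R4.USpec
import Pool.Agent.MP_5168f5_an.R4.XKF1

/-! The slope at height zero is a function of the tube. -/

namespace Pool.Agent.MP_5168f5_an.R4.U

open H19 H17S H17F Filter K31

namespace UMu3A

/-- A bounded variable that is usually close to a function of the condition. -/
theorem fano1 {Ω β : ℕ → Type} {P : ∀ n, FP (Ω n)} {x : ∀ n, Ω n → ℝ} (y : ∀ n, Ω n → ℝ)
    {G : ∀ n, Ω n → β n} {R k : ℕ → ℕ} {L D : ℕ → ℝ} (hR : Big R) (hL : Sub R L) (hD : Sub R D)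
    (hk : ∀ n, k n ≤ R n) (hE : Whp P fun n ω => |x n ω - y n ω| ≤ L n / 2 ^ k n)
    (h : ∀ᶠ n in UF, ∀ ω ∈ (P n).S, |x n ω| ≤ D n * 2 ^ R n) (h' : ∀ n, Fn (P n) (y n) (G n)) :
    Sm R fun n => ch (P n) (fun ω => fl1 (k n) (x n ω)) (G n) := by
  refine ks.fano P _ _ G R (fun n => 2 * L n + 3) 3 hR
    ((hL.const_mul hR one_le_two).add (hR.sub (by norm_num)) hR) hE ?_
  filter_upwards [h, (hD.const_mul hR (C := 7) (by norm_num)).2 1 one_pos] with n a b
  have d1 := hD.1 n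
  have p1 : (1 : ℝ) ≤ 2 ^ R n := one_le_pow₀ one_le_two
  have p2 : (1 : ℝ) ≤ 2 ^ k n := one_le_pow₀ one_le_two
  have p3 : (2 : ℝ) ^ k n ≤ Real.exp (R n) :=
    (pow_le_pow_right₀ one_le_two (hk n)).trans (two_pow_le_exp _)
  refine ⟨fun u hu => (det_near1 (L := 2 * D n * 2 ^ R n * 2 ^ k n) (by positivity)
    (fun u hu v hv _ => ?_) u hu).imp fun T c => ⟨c.1.trans ?_, c.2⟩, fun u hu =>
    ⟨Finset.Icc (fl1 (k n) (y n u) - ⌈L n⌉₊) (fl1 (k n) (y n u) + ⌈L n⌉₊), ?_,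
      fun v hv e c => fl1_mem_Icc ?_⟩⟩
  · rw [mul_div_cancel_right₀ _ (by positivity)]
    linarith [abs_sub (x n u) (x n v), a u hu, a v hv]
  · have p4 : 1 ≤ D n * 2 ^ R n * 2 ^ k n :=
      one_le_mul_of_one_le_of_one_le (one_le_mul_of_one_le_of_one_le d1 p1) p2
    have p5 := mul_le_mul (mul_le_mul b (two_pow_le_exp (R n)) (by positivity) (by positivity)) p3
      (by positivity) (by positivity)
    rw [← Real.exp_add, ← Real.exp_add, show 1 * (R n : ℝ) + R n + R n = 3 * R n by ring] at p5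
    linarith
  · rw [Int.card_Icc, show fl1 (k n) (y n u) + ⌈L n⌉₊ + 1 - (fl1 (k n) (y n u) - ⌈L n⌉₊) =
      ((2 * ⌈L n⌉₊ + 1 : ℕ) : ℤ) by push_cast; ring, Int.toNat_natCast]
    push_cast
    linarith [Nat.ceil_lt_add_one (hL.pos n).le]
  · rw [← h' n v hv u hu e, ← div_eq_mul_inv]
    exact c.trans (div_le_div_of_nonneg_right (Nat.le_ceil _) (by positivity))

theorem quo {B : ℕ} {g s t L : ℝ} (h : |g| ≤ L) : |g / (rd B s - rd B t)| ≤ L * 2 ^ B := by
  have h0 := (abs_nonneg _).trans h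
  by_cases e : fl1 B s = fl1 B t
  · rw [rd_congr e, sub_self, div_zero, abs_zero]; positivity
  · have h1 : (1 : ℝ) ≤ |(fl1 B s : ℝ) - fl1 B t| := by
      exact_mod_cast Int.one_le_abs (sub_ne_zero.2 e)
    rw [rd, rd, ← sub_div, div_div_eq_mul_div, abs_div, abs_mul,
      abs_of_pos (by positivity : (0 : ℝ) < 2 ^ B)]
    exact (div_le_self (by positivity) h1).trans (by gcongr)

theorem err {B σ : ℕ} {μ L : ℝ} (t : ℝ) (e : σ ≤ B) (h : |μ| ≤ L) :
    |rd σ μ * (t - rd B t)| ≤ (L + 1) / 2 ^ σ := by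
  rw [abs_mul, div_eq_mul_one_div]
  exact mul_le_mul ((abs_rd _ _).trans (by linarith))
    ((abs_sub_rd _ _).trans (div_pow_le zero_le_one e)) (abs_nonneg _)
    (by linarith [abs_nonneg μ])

end UMu3A

open UMu3A

theorem rowMu3 : RMu3 := by
  intro H γ e η X R m q ρ B L T hL σ hσ ⟨L', s', w'⟩ h2
  have bR := T.tan.big
  have hB := fun n => (T.le n).2.1
  have hq : ∀ n, q n ≤ B n := fun n => by have := (T.le n).1; omega
  have hs : ∀ n, σ n ≤ B n := fun n => by have := (T.le n).1; have := hσ n; omega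
  have w : Whp (fun n => (X n).P2) fun n c => |(X n).μ (R n) (ρ n) (B n) c| ≤ L' n ∧
      1 ≤ L' n * |rd (B n) ((X n).t c.1) - rd (B n) ((X n).t c.2)| :=
    whp_of_law (fun n => kg.fst _ _ _ _) (w'.mono (Eventually.of_forall fun n c _ k => ⟨k.1, k.2.1⟩))
  have r : ∀ᶠ n in UF, ∀ c ∈ (X n).P2.S,
      |(X n).G0 (R n) (ρ n) (B n) (σ n) c| ≤ 7 * L n * 2 ^ R n := by
    filter_upwards [T.alg, T.slp] with n A S c hc
    obtain ⟨c1, c2, -⟩ := (mem_copy _ _ c).1 hc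
    have g1 : |(X n).G (R n) (ρ n) c.1| ≤ L n + 1 := (abs_rd _ _).trans (by linarith [S _ c1])
    have g2 : |(X n).G (R n) (ρ n) c.2| ≤ L n + 1 := (abs_rd _ _).trans (by linarith [S _ c2])
    have g3 : |(X n).μ (R n) (ρ n) (B n) c| ≤ (L n + 1 + (L n + 1)) * 2 ^ B n :=
      quo ((abs_sub _ _).trans (add_le_add g1 g2))
    have l1 := T.sub.1 n
    have p1 : (1 : ℝ) ≤ 2 ^ R n := one_le_pow₀ one_le_two
    have p2 : (2 : ℝ) ^ B n ≤ 2 ^ R n := pow_le_pow_right₀ one_le_two (hB n)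
    have g4 := (abs_mul _ _).trans_le (mul_le_mul (abs_rd (σ n) ((X n).μ (R n) (ρ n) (B n) c))
      (A.abs_t c1) (abs_nonneg _) (by positivity))
    refine (abs_sub _ _).trans ?_
    nlinarith
  let W := fun n (c : (X n).Ω × (X n).Ω) =>
    (fl1 (σ n) ((X n).μ (R n) (ρ n) (B n) c), (X n).Xq (q n) c.1)
  have f : ∀ π : ∀ n, (X n).Ω × (X n).Ω → (X n).Ω, (Whp (fun n => (X n).P2) fun n c =>
      |(X n).G0 (R n) (ρ n) (B n) (σ n) c - ((X n).G (R n) (ρ n) (π n c) -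
        rd (σ n) ((X n).μ (R n) (ρ n) (B n) c) * rd (B n) ((X n).t (π n c)))| ≤
          (L' n + 2) / 2 ^ σ n) → Sm R fun n => ch (X n).P2
      (fun c => fl1 (σ n) ((X n).G0 (R n) (ρ n) (B n) (σ n) c)) fun c =>
        ((X n).gz (R n) (ρ n) (π n c), fl1 (B n) ((X n).t (π n c)), W n c) := fun π k =>
    fano1 _ bR (s'.add (bR.sub one_le_two) bR) (T.sub.const_mul bR (by norm_num))
      (fun n => (hs n).trans (hB n)) k r fun n u _ v _ e => by
        obtain ⟨k1, k2, k3, -⟩ : _ ∧ _ ∧ _ ∧ _ := by simpa only [W, Prod.mk.injEq] using e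
        have k4 : (X n).G (R n) (ρ n) (π n u) = (X n).G (R n) (ρ n) (π n v) := rd_congr k1
        rw [k4, rd_congr k2, rd_congr k3]
  have f1 := f (fun _ => Prod.fst) (w.mono (Eventually.of_forall fun n c _ k => by
    rw [U3.G0, sub_sub_sub_cancel_left, ← mul_sub, abs_mul, abs_sub_comm, ← abs_mul]
    exact (err _ (hs n) k.1).trans (by gcongr; norm_num)))
  have f2 := f (fun _ => Prod.snd) (w.mono (T.alg.mono fun n A c hc k => by
    obtain ⟨c1, c2, -⟩ := (mem_copy _ _ c).1 hc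
    have z : rd (B n) ((X n).t c.1) - rd (B n) ((X n).t c.2) ≠ 0 := fun z => by
      have := k.2; rw [z] at this; norm_num at this
    have z1 : |rd (B n) ((X n).t c.1) - rd (B n) ((X n).t c.2)| ≤ 1 := by
      have t1 := (A.bd _ c1).2.2.2.2
      have t2 := (A.bd _ c2).2.2.2.2
      rw [abs_le]
      constructor <;> linarith [rd_nonneg (B n) t1.1, rd_nonneg (B n) t2.1, t1.2, t2.2,
        rd_le (B n) ((X n).t c.1), rd_le (B n) ((X n).t c.2)]
    have z2 : (X n).G (R n) (ρ n) c.1 = (X n).G (R n) (ρ n) c.2 + (X n).μ (R n) (ρ n) (B n) c *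
        (rd (B n) ((X n).t c.1) - rd (B n) ((X n).t c.2)) := by
      rw [U3.μ, div_mul_cancel₀ _ z]; ring
    have z3 := (abs_sub _ _).trans (add_le_add ((abs_mul _ _).trans_le (mul_le_mul
      (abs_sub_rd (σ n) ((X n).μ (R n) (ρ n) (B n) c)) z1 (abs_nonneg _) (by positivity)))
      (err ((X n).t c.1) (hs n) k.1))
    rw [U3.G0, z2]
    exact (le_of_eq (by congr 1; ring)).trans (z3.trans_eq (by ring))))
  refine Le.of5 (Sm.smul h2 zero_le_two) (Sm.smul hL zero_le_two) f1 f2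
    (H.ht γ e η X R m B T.tan hB) (T.alg.mono fun n A => ?_)
  have x : Fn (X n).P ((X n).Xq (q n)) (X n).l := ((Fn.comp _ _).trans A.al).pair
    (((Fn.comp _ _).trans A.wl).pair A.sl)
  have l1 := kg.fst (X n).P (X n).P (X n).l (X n).l
  have l2 := kg.snd (X n).P (X n).P (X n).l (X n).l (Law.rfl _)
  set F := fun c => fl1 (σ n) ((X n).G0 (R n) (ρ n) (B n) (σ n) c)
  set M := fun c => fl1 (σ n) ((X n).μ (R n) (ρ n) (B n) c)
  let a := fun c : (X n).Ω × (X n).Ω => fl1 (B n) ((X n).t c.1)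
  let b := fun c : (X n).Ω × (X n).Ω => fl1 (B n) ((X n).t c.2)
  have e1 := ch_tri (P := (X n).P2) F M fun c => (X n).Xq (q n) c.1
  have e2 := rowKF1.ci (X n).P2 F a b (W n)
  have e3 := ch_tri (P := (X n).P2) F (fun c => (X n).gz (R n) (ρ n) c.1) fun c => (a c, W n c)
  have e4 := ch_tri (P := (X n).P2) F (fun c => (X n).gz (R n) (ρ n) c.2) fun c => (b c, W n c)
  have e5 := (ch_anti (G' := fun c => (a c, W n c)) fun u _ v _ k => Prod.ext
    (fl1_eq_of_le (hq n) (congrArg (·.1) k)) (congrArg (·.2.2) k)).trans_eq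
    (l1.ch_id ((X n).gz (R n) (ρ n)) fun ω => (fl1 (q n) ((X n).t ω), (X n).Xq (q n) ω))
  have e6 := (ch_anti (G' := fun c => (b c, W n c)) fun u hu v hv k => by
    obtain ⟨u1, u2, u3⟩ := (mem_copy _ _ u).1 hu
    obtain ⟨v1, v2, v3⟩ := (mem_copy _ _ v).1 hv
    exact Prod.ext (fl1_eq_of_le (hq n) (congrArg (·.1) k)) ((x _ u2 _ u1 u3).trans
      ((congrArg (·.2.2) k).trans (x _ v2 _ v1 v3).symm))).trans_eq
    (l2.ch_id ((X n).gz (R n) (ρ n)) fun ω => (fl1 (q n) ((X n).t ω), (X n).Xq (q n) ω))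
  have e7 := ch_fl1_refine (P := (X n).P2) (x := fun c => (X n).t c.2) (G := W n)
    (j := fun _ => 0) (i := fun _ => B n) (fun _ _ _ _ _ => rfl) (fun _ _ _ _ _ => rfl)
    fun u hu v hv _ => (A.t0 (l2.mem hu)).trans (A.t0 (l2.mem hv)).symm
  simp only [zero_add, FP.E_const] at e7
  have e8 := kg.mk1 (X n).P (X n).P (X n).l (X n).l (fun ω => fl1 (B n) ((X n).t ω)) id
    (Law.rfl _) (Fn.comp _ id)
  have e9 : ch (X n).P2 b (fun c => id c.1) ≤ ch (X n).P2 b fun c => (a c, (X n).Xq (q n) c.1) :=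
    ch_anti (Fn.comp (fun ω => (fl1 (B n) ((X n).t ω), (X n).Xq (q n) ω)) _)
  have e10 := ch_drop (P := (X n).P2) b M fun c => (a c, (X n).Xq (q n) c.1)
  have e11 : ch (X n).P2 b (fun c => (M c, a c, (X n).Xq (q n) c.1)) ≤
      ch (X n).P2 b fun c => (a c, W n c) :=
    ch_anti (Fn.comp (fun y : ℤ × ℤ × _ => (y.2.1, y.1, y.2.2)) _)
  have e12 : ch (X n).P2 M (fun c => (a c, (X n).Xq (q n) c.1)) ≤ _ := ch_anti (Fn.snd _ _)
  rw [mi_symm, mi] at e2
  linarith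

end Pool.Agent.MP_5168f5_an.R4.U
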