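import Pool.Agent.MP_5168f5_an.R4.USpec

/-! The step for planes: no grains for the point modulo the plane. -/

namespace Pool.Agent.MP_5168f5_an.R4.U

open H19 H17S H17F Filter K31

namespace UNgaA

theorem near {X : U3} {τ : ℕ → ℕ} {D R R' q ρ B : ℕ} {L : ℝ} (h : X.Alg τ D R' L)
    (hp : ∀ ω ∈ X.P.S, |X.px R ω| ≤ L) {a b : X.Ω} (ha : a ∈ X.P.S) (hb : b ∈ X.P.S)
    (e : X.Θ R q ρ B a = X.Θ R q ρ B b) (e' : fl1 B (X.a a) = fl1 B (X.a b)) :
    |(X.u a - X.u b) - (X.π R q ρ a - X.π R q ρ b)| ≤ (L + 1) / 2 ^ B ∧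
      |X.x a - X.x b| ≤ (L + 2) / 2 ^ B := by
  have e1 : rd q (X.a a) = rd q (X.a b) := rd_congr (congrArg (·.2.1) e)
  have e2 := near_of_fl1 (congrArg (·.2.2.1) e : fl1 B (X.w a) = fl1 B (X.w b))
  have e3 := near_of_fl1 (congrArg (·.2.2.2.1) e : fl1 B (X.t a) = fl1 B (X.t b))
  have e4 : X.G R ρ a = X.G R ρ b := rd_congr (congrArg (·.2.2.2.2.1) e)
  have e5 := near_of_fl1 e'
  have e6 : |X.G R ρ b| ≤ L + 1 := (abs_rd _ _).trans (add_le_add (hp b hb) le_rfl)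
  have e7 := (h.bd b hb).2.1
  constructor
  · rw [show X.u a - X.u b - (X.π R q ρ a - X.π R q ρ b) = X.G R ρ b * (X.a a - X.a b) by
      unfold U3.π U3.r; rw [e1, e4]; ring, abs_mul, div_eq_mul_one_div]
    exact mul_le_mul e6 e5 (abs_nonneg _) ((abs_nonneg _).trans e6)
  · rw [show X.x a - X.x b = X.a a - X.a b + (X.w a - X.w b) * X.t a + X.w b * (X.t a - X.t b) by
      unfold U3.x; ring]
    refine (abs_add_three _ _ _).trans ?_
    rw [abs_mul, abs_mul]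
    have e8 := mul_le_mul e2 (h.abs_t ha) (abs_nonneg _) (by positivity)
    have e9 := mul_le_mul e7 e3 (abs_nonneg _) ((abs_nonneg _).trans e7)
    rw [div_eq_mul_one_div]
    linarith

theorem near2 {x y L : ℝ} {j B : ℕ} (hL : 0 ≤ L) (e : j ≤ B) (h : |x - y| ≤ (L + 1) / 2 ^ B)
    (k : |y| ≤ 1 / 2 ^ j) : |x| ≤ (L + 2) / 2 ^ j := by
  have a1 := div_pow_le (by positivity : 0 ≤ L + 1) e
  have a2 := abs_sub_abs_le_abs_sub x y
  rw [show (L + 2) / 2 ^ j = (L + 1) / 2 ^ j + 1 / 2 ^ j by ring]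
  linarith

theorem core {X : U3} {τ : ℕ → ℕ} {D R R' q ρ B j k : ℕ} {L : ℝ} (h : X.Alg τ D R' L) (hL : 0 ≤ L)
    (hp : ∀ ω ∈ X.P.S, |X.px R ω| ≤ L) (h2 : j ≤ k) (h3 : k ≤ q + ρ)
    (h4 : q + ρ ≤ B) :
    ch X.P (fun ω => fl1 k (X.π R q ρ ω)) (fun ω => (fl1 j (X.π R q ρ ω), X.Θ R q ρ B ω)) ≤
      ch X.P (fun ω => fl1 k (X.u ω))
        (fun ω => (fl1 j (X.u ω), fl1 k (X.t ω), fl1 k (X.x ω), X.S 0 ω)) +
      ((B - q : ℝ) * lg - ch X.P (fun ω => fl1 B (X.a ω)) fun ω =>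
        (X.A R q ρ ω, X.Θ R q ρ B ω)) + 3 * Real.log (2 * (L + 2) + 3) := by
  set Θ := X.Θ R q ρ B
  set π := X.π R q ρ
  have l2 : 0 ≤ L + 2 := by positivity
  have kB := h3.trans h4
  have s1 := ch_symm (P := X.P) (fun ω => fl1 k (π ω)) (fun ω => fl1 B (X.a ω))
    fun ω => (fl1 j (π ω), Θ ω)
  have s2 : ch X.P (fun ω => fl1 B (X.a ω)) (fun ω => (fl1 j (π ω), Θ ω)) ≤ (B - q : ℝ) * lg := by
    have := ch_fl1_refine (P := X.P) (x := X.a) (G := fun ω => (fl1 j (π ω), Θ ω))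
      (j := fun _ => q) (i := fun _ => B - q) (fun _ _ _ _ _ => rfl) (fun _ _ _ _ _ => rfl)
      fun _ _ _ _ e => congrArg (·.2.2.1) e
    have qB : q ≤ B := by omega
    rwa [FP.E_const, Nat.add_sub_cancel' qB, Nat.cast_sub qB] at this
  have s3 : ch X.P (fun ω => fl1 B (X.a ω)) (fun ω => (X.A R q ρ ω, Θ ω)) ≤
      ch X.P (fun ω => fl1 B (X.a ω)) fun ω => (fl1 k (π ω), fl1 j (π ω), Θ ω) :=
    ch_anti fun _ _ _ _ e => Prod.ext (fl1_eq_of_le h3 (congrArg (·.1) e))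
      (Prod.ext (fl1_eq_of_le (h2.trans h3) (congrArg (·.1) e)) (congrArg (·.2) e))
  set G := fun ω => (fl1 B (X.a ω), fl1 j (π ω), Θ ω)
  have t1 := ch_drop (P := X.P) (fun ω => fl1 k (π ω))
    (fun ω => (fl1 j (X.u ω), fl1 k (X.x ω))) G
  have t2 := ch_subadd (P := X.P) (fun ω => fl1 j (X.u ω)) (fun ω => fl1 k (X.x ω)) G
  have t3 : ch X.P (fun ω => fl1 j (X.u ω)) G ≤ Real.log (2 * (L + 2) + 3) :=
    ch_near1 l2 fun a ha b hb e => near2 hL (h2.trans kB)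
      (near h hp ha hb (congrArg (·.2.2) e) (congrArg (·.1) e)).1 (near_of_fl1 (congrArg (·.2.1) e))
  have t4 : ch X.P (fun ω => fl1 k (X.x ω)) G ≤ Real.log (2 * (L + 2) + 3) :=
    ch_near1 l2 fun a ha b hb e =>
      (near h hp ha hb (congrArg (·.2.2) e) (congrArg (·.1) e)).2.trans (div_pow_le l2 kB)
  have t5 := ch_tri (P := X.P) (fun ω => fl1 k (π ω)) (fun ω => fl1 k (X.u ω))
    fun ω => ((fl1 j (X.u ω), fl1 k (X.x ω)), G ω)
  have t6 : ch X.P (fun ω => fl1 k (π ω))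
      (fun ω => (fl1 k (X.u ω), (fl1 j (X.u ω), fl1 k (X.x ω)), G ω)) ≤
      Real.log (2 * (L + 2) + 3) :=
    ch_near1 l2 fun a ha b hb e => near2 hL kB ((abs_sub_comm _ _).trans_le
      (near h hp ha hb (congrArg (·.2.2.2.2) e) (congrArg (·.2.2.1) e)).1)
      (near_of_fl1 (congrArg (·.1) e))
  have t7 : ch X.P (fun ω => fl1 k (X.u ω)) (fun ω => ((fl1 j (X.u ω), fl1 k (X.x ω)), G ω)) ≤
      ch X.P (fun ω => fl1 k (X.u ω))
        fun ω => (fl1 j (X.u ω), fl1 k (X.t ω), fl1 k (X.x ω), X.S 0 ω) :=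
    ch_anti fun _ _ _ _ e => Prod.ext (congrArg (·.1.1) e)
      (Prod.ext (fl1_eq_of_le kB (congrArg (·.2.2.2.2.2.2.1) e))
        (Prod.ext (congrArg (·.1.2) e) (congrArg (·.2.2.2.1) e)))
  linarith

end UNgaA

open UNgaA in
theorem rowNga : RNga := by
  intro ful ref ngc γ e η X R m q ρ B L h hF W Q f β lam E hQ hb hE
  have hR := h.tan.big
  have d : DnS (fun n => cE (Q n) (E n)) f (PP X) :=
    (dnS_cE hE).trans (dnS_law (Eventually.of_forall hQ))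
  have qB : ∀ n, q n ≤ B n := fun n => by have := h.le n; omega
  have a1 := ful (PP X) (fun n => (X n).a) _ R q B (fun n => B n - q n) hR
    (fun n => (Nat.add_sub_cancel' (qB n)).le)
    (Eventually.of_forall fun n _ _ _ _ k => congrArg (·.2.2.1) k) hF _ _ _ d
  have a2 := ngc γ e η _ R m (fun n => q n + β n) (fun n => q n + lam n)
    (ref γ e η X R m _ _ _ h.tan d) fun n => by have := h.le n; have := hb n; omega
  simp only [fun n => Nat.add_sub_cancel' (qB n), fun n => Nat.cast_sub (R := ℝ) (qB n)] at a1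
  simp only [fl1_two_pow]
  refine Le.frac (Le.of3 a1 a2 ((h.sub.add (hR.sub one_le_two) hR).log3 hR 3) ?_) h.frac
  obtain ⟨C, -, d⟩ := d
  filter_upwards [d, h.alg, h.slp] with n d1 d2 d3
  have := core (R := R n) (q := q n) (ρ := ρ n) (B := B n) (j := q n + β n) (k := q n + lam n)
    (d2.dn d1) (h.sub.pos n).le (fun v a => (d3 _ (d1.mem a)).2.1)
    (by have := hb n; omega) (by have := hb n; omega) (h.le n).1
  have key : ∀ x y z c : ℝ, x ≤ y + ((B n - q n : ℝ) * lg - z) + c →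
      x - (1 - e) * (lam n - β n) * lg ≤ 1 * (B n - q n : ℝ) * lg - z +
        (y - (1 - e) * ((q n + lam n : ℕ) - (q n + β n : ℕ)) * lg) + (c - 0) :=
    fun x y z c k => by push_cast; linarith
  exact key _ _ _ _ this

end Pool.Agent.MP_5168f5_an.R4.U
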