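import Pool.Agent.MP_5168f5_an.R4.USpec

/-! Kakeya sets in four dimensions, the step for planes: slope one. -/

namespace Pool.Agent.MP_5168f5_an.R4.U

open H19 H17S H17F Filter K31

namespace UOneA

theorem law2 (X : U3) (R : ℕ) : Law (X.C2 R) (fun v => X.S R v.1) X.P (X.S R) :=
  (kg.fst X.P X.P (X.S R) (X.S R)).comp (X.S R)

theorem law3 (X : U3) (R : ℕ) : Law (X.C3 R) Prod.snd X.P id := kg.snd _ _ _ _ (law2 X R)

theorem lk3 (X : U3) (R : ℕ) : (X.pull (X.C3 R) Prod.snd).lk Prod.fst = X.lk (X.S R) := by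
  have h1 := kg.mkv (X.C2 R) X.P (fun v => X.S R v.1) (X.S R) X.l X.y id (law2 X R)
    fun a _ b _ e => by rw [show a = b from e]
  have h2 := (law3 X R).ch_id X.l X.y
  rw [U3.lk, U3.lk, mi_symm, mi_symm (X.S R), mi, mi, ← h1, ← h2]
  rfl

theorem ind {Ω α β : Type} (P : FP Ω) (w b : Ω → ℝ) (S : Ω → α) (K : Ω → β) {A R : ℕ}
    (h : A ≤ R) : mi P (fun ω => (fl1 A (w ω), fl1 A (b ω))) S K ≤
      mi P (fun ω => fl1 R (w ω)) S K + ch P (fun ω => fl1 A (b ω)) fun ω => (fl1 A (w ω), K ω) := by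
  rw [mi_symm, mi_symm _ S]
  refine (mi_near _ _ (fun ω => fl1 R (w ω)) _).trans (add_le_add le_rfl (ch_le ?_ ?_))
  · intro x _ y _ e
    simp only [Prod.mk.injEq] at e ⊢
    exact ⟨fl1_eq_of_le h e.2.1, e.1⟩
  · intro x _ y _ e
    simp only [Prod.mk.injEq] at e ⊢
    exact ⟨fl1_eq_of_le h e.1, e.2⟩

theorem sat (tp : TanPre) (pt : PreTan) (lip : Lip) (one : One) {e η : ℝ} {X : ℕ → U3}
    {R m ξ R' : ℕ → ℕ} {L : ℕ → ℝ} (tan : Tan 1 e η X R m) (h : ∀ n, ξ n + R' n ≤ R n)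
    (f2 : Frac R' R) (f3 : Frac ξ R') (hL : Sub R L)
    (su : ∀ᶠ n in UF, ∀ ω ∈ (X n).P.S, |(X n).px (ξ n) ω| ≤ L n) : False := by
  have l1 := lip 1 e η X R m ξ L tan (fun n => (tau_one _).trans_le (le_of_add_le_left (h n))) hL su
  have t2 := pt 1 e η X _ _ ξ R' m L (tp 1 e η X R m ξ R' tan h f2) (hL.frac f2) su
  obtain ⟨L2, s2, a2⟩ := t2.alg
  have l2 : Sm R' fun n => ch (X n).P
      (fun ω => fl1 (tau 1 (ξ n) - ξ n) (((X n).shift (ξ n) (tau 1 (ξ n))).a ω)) fun ω =>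
        (fl1 (ξ n) ((X n).w ω), (X n).S (ξ n) ω) :=
    Sm.near1 t2.big (s2.const_mul t2.big one_le_two) (a2.mono fun n u a ha b hb _ => by
      rw [show tau 1 (ξ n) - ξ n = 0 by rw [tau_one, Nat.sub_self], pow_zero, div_one]
      exact (abs_sub _ _).trans (by linarith [(u.bd a ha).1, (u.bd b hb).1]))
  refine one 1 e η _ R' m ξ t2 f3 (Sm.mono (Sm.add (Le.frac l1 f2) l2)
    (Eventually.of_forall fun n => ?_))
  refine (ch_drop _ _ _).trans (add_le_add (ch_anti fun x _ y _ k => ?_) le_rfl)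
  obtain ⟨k1, k2⟩ := Prod.ext_iff.1 k
  obtain ⟨k3, k4⟩ := Prod.ext_iff.1 k2
  exact Prod.ext k1 (Prod.ext (fl1_eq_of_le (tau_one _).le k3) k4)

end UOneA

open UOneA

theorem rowOne : ROne := by
  intro ref han oa ob cst lab γ e η X R m A tan hA hb
  obtain ⟨-, e0, e1, -⟩ := tan.par
  have fκ : Frac (fun n => ⌊e / 4 * A n⌋₊) A :=
    (tan.big.frac hA).frac_floor (by positivity) (by linarith)
  have i1 : IndA X R A := (tan.typ.add hb).mono
    (Eventually.of_forall fun n => ind _ _ _ _ _ (hA.1 n))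
  have fl := han γ e η X R m A (fun n => ⌊e / 4 * A n⌋₊) tan hA (fun n => by
    have : (⌊e / 4 * A n⌋₊ : ℝ) ≤ e / 4 * A n := Nat.floor_le (by positivity)
    linarith) i1
  obtain ⟨L, hL, fit⟩ := oa γ e η X R m A _ tan hA fκ.1 fl
  have o1 := ob γ e η X R m A _ L tan hA.1 hL i1 fit
  have t3 := ref γ e η X R m _ (fun n => (X n).C3 (R n)) (fun _ => Prod.snd) tan
    (dnS_law (Eventually.of_forall fun n => law3 _ _))
  obtain ⟨L', hL', c1⟩ := cst γ e η (fun n => (X n).pull ((X n).C3 (R n)) Prod.snd) R m _ L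
    (fun n c => (X n).T2 (A n) c.1) t3 hL o1
    (Whp.mono fit (Eventually.of_forall fun _ _ _ k => k.2))
  have m1 : ∀ n, L n ≤ L n * L' n := fun n => le_mul_of_one_le_right (hL.pos n).le (hL'.1 n)
  have m2 : ∀ n, L' n ≤ L n * L' n := fun n => le_mul_of_one_le_left (hL'.pos n).le (hL.1 n)
  refine lab γ e η (fun n => (X n).pull ((X n).C3 (R n)) Prod.snd) R m _ (fun n => L n * L' n)
    (fun n => (X n).Ω × (X n).Ω) (fun _ => Prod.fst) (fun n c => (X n).T2 (A n) c.1) t3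
    (fκ.trans hA) (hL.mul hL')
    (Eventually.of_forall fun n => ⟨Fn.comp _ _, fun a ha b hb k => ?_⟩)
    (tan.lk.mono (Eventually.of_forall fun n => (lk3 _ _).le))
    (Whp.mono fit (Eventually.of_forall fun n _ _ k => ⟨k.1.trans (m1 n),
      k.2.trans (div_le_div_of_nonneg_right (m1 n) (by positivity))⟩))
    (c1.mono (Eventually.of_forall fun n _ _ k =>
      ⟨k.1.trans (div_le_div_of_nonneg_right (m2 n) (by positivity)),
        k.2.trans (div_le_div_of_nonneg_right (m2 n) (by positivity))⟩))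
  have h1 := ((kg.mem _ _ _ _ a (law2 (X n) (R n))).1 ha).2.2
  have h2 := ((kg.mem _ _ _ _ b (law2 (X n) (R n))).1 hb).2.2
  exact h1.trans ((congrArg (fun v : (X n).Ω × (X n).Ω => (X n).S (R n) v.1) k).trans h2.symm)

theorem rowSat1 : RSat1 := by
  intro ref tp pt tb lip one e η X R m tan
  have f1 : Frac (fun n => R n / 2) R := tan.big.frac_div two_pos
  obtain ⟨-, c, c0, hc⟩ := id f1
  have o1 : ∀ n, R n / 2 ≤ R n - R n / 2 := fun n => by omega
  have f2 : Frac (fun n => R n - R n / 2) R := ⟨fun n => Nat.sub_le _ _, c, c0, hc.mono fun n a =>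
    a.trans (Nat.cast_le.2 (o1 n))⟩
  have f3 : Frac (fun n => R n / 2) fun n => R n - R n / 2 := ⟨o1, c, c0,
    hc.mono fun n a => le_trans (mul_le_mul_of_nonneg_left (Nat.cast_le.2 (f2.1 n)) c0.le) a⟩
  obtain ⟨L, hL, w⟩ := tb 1 e η X R m (fun n => R n / 2) (fun n => R n / 2) tan
    fun n => ⟨le_rfl, f1.1 n⟩
  have ps : Pos (PP X) fun n ω => |(X n).px (R n / 2) ω| ≤ L n :=
    (w.mono (Eventually.of_forall fun _ _ _ k => k.2.1)).pos
  exact sat tp pt lip one (ref 1 e η X R m _ _ _ tan (dnS_cE ps))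
    (fun n => show R n / 2 + (R n - R n / 2) ≤ R n by omega) f2 f3 hL
    (ps.sure.mono fun n a ω hω => (a ω hω).2)

end Pool.Agent.MP_5168f5_an.R4.U
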