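import Pool.Agent.MP_5168f5_an.R4.USpec

/-! Kakeya sets in four dimensions: the plane of two directions contains the third. -/

namespace Pool.Agent.MP_5168f5_an.R4.U

open H19 H17S H17F Filter K31

namespace UOneAA

theorem mul_le {a b A B : ℝ} (h : |a| ≤ A) (h' : |b| ≤ B) : |a * b| ≤ A * B := by
  rw [abs_mul]; exact mul_le_mul h h' (abs_nonneg _) ((abs_nonneg _).trans h)

theorem sub_le {a b A B : ℝ} (h : |a| ≤ A) (h' : |b| ≤ B) : |a - b| ≤ A + B :=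
  (abs_sub _ _).trans (add_le_add h h')

theorem add_le {a b A B : ℝ} (h : |a| ≤ A) (h' : |b| ≤ B) : |a + b| ≤ A + B :=
  (abs_add_le _ _).trans (add_le_add h h')

theorem num {w₁ w₂ w₃ b₁ b₂ b₃ W₁ W₂ B₁ B₂ δ ε L K : ℝ} (hL : 1 ≤ L) (hK : 1 ≤ K) (hδ : δ ≤ ε)
    (h4 : 4 * K * δ ≤ 1) (a1 : |w₁| ≤ L) (a2 : |w₂| ≤ L) (a3 : |w₃| ≤ L) (c1 : |b₁| ≤ L)
    (c2 : |b₂| ≤ L) (c3 : |b₃| ≤ L) (p1 : |w₁ - W₁| ≤ δ) (p2 : |w₂ - W₂| ≤ δ) (q1 : |b₁ - B₁| ≤ δ)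
    (q2 : |b₂ - B₂| ≤ δ) (hs : 1 ≤ K * |w₁ - w₂|) (hd : |det3 w₁ b₁ w₂ b₂ w₃ b₃| ≤ ε) :
    |(B₁ - B₂) / (W₁ - W₂)| ≤ 28 * (L * K) ∧
      |b₃ - (B₁ - (B₁ - B₂) / (W₁ - W₂) * W₁) - (B₁ - B₂) / (W₁ - W₂) * w₃| ≤ 28 * (L * K) * ε := by
  have d0 : 0 ≤ δ := (abs_nonneg _).trans p1
  have d1 : 4 * δ ≤ 1 := by nlinarith
  have h1 : |w₁ - w₂| ≤ |W₁ - W₂| + δ + δ := by
    have := sub_le (add_le (le_refl |W₁ - W₂|) p1) p2
    rwa [show W₁ - W₂ + (w₁ - W₁) - (w₂ - W₂) = w₁ - w₂ by ring] at this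
  have h2 : 1 ≤ 2 * K * |W₁ - W₂| := by nlinarith
  have h3 : 0 < |W₁ - W₂| := by
    by_contra c
    nlinarith [abs_nonneg (W₁ - W₂)]
  have h0 : W₁ - W₂ ≠ 0 := abs_pos.1 h3
  have key : ∀ z Z : ℝ, |z * (W₁ - W₂)| ≤ Z → |z| ≤ 2 * K * Z := fun z Z h => by
    rw [abs_mul] at h
    nlinarith [abs_nonneg z]
  constructor
  · have h5 := add_le (sub_le (sub_le c1 c2) q1) q2
    rw [show b₁ - b₂ - (b₁ - B₁) + (b₂ - B₂) = (B₁ - B₂) / (W₁ - W₂) * (W₁ - W₂) by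
      field_simp; ring] at h5
    refine (key _ _ h5).trans ?_
    nlinarith
  · have h5 := sub_le (sub_le (add_le (add_le hd (mul_le (sub_le a2 a1) q1))
      (mul_le (sub_le p1 p2) (add_le (sub_le c3 c1) q1))) (mul_le (sub_le a3 a1) (sub_le q1 q2)))
      (mul_le p1 (add_le (sub_le (sub_le c2 c1) q2) q1))
    rw [← abs_neg, show -(det3 w₁ b₁ w₂ b₂ w₃ b₃ + (w₂ - w₁) * (b₁ - B₁) +
        (w₁ - W₁ - (w₂ - W₂)) * (b₃ - b₁ + (b₁ - B₁)) - (w₃ - w₁) * (b₁ - B₁ - (b₂ - B₂)) -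
        (w₁ - W₁) * (b₂ - b₁ - (b₂ - B₂) + (b₁ - B₁))) =
      (b₃ - (B₁ - (B₁ - B₂) / (W₁ - W₂) * W₁) - (B₁ - B₂) / (W₁ - W₂) * w₃) * (W₁ - W₂) by
        unfold det3; field_simp; ring] at h5
    refine (key _ _ h5).trans ?_
    have h6 : L * δ ≤ L * ε := mul_le_mul_of_nonneg_left hδ (by linarith)
    have h7 : 4 * δ * δ ≤ L * δ := mul_le_mul_of_nonneg_right (by linarith) d0
    have h8 : ε ≤ L * ε := le_mul_of_one_le_left (d0.trans hδ) hL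
    have h9 : ε + (L + L) * δ + (δ + δ) * (L + L + δ) + (L + L) * (δ + δ) + δ * (L + L + δ + δ)
        ≤ 14 * (L * ε) := by nlinarith
    have := mul_le_mul_of_nonneg_left h9 (by linarith : 0 ≤ 2 * K)
    linarith

end UOneAA

open UOneAA in
theorem rowOneA : ROneA := by
  intro ht γ e η X R m A κ h hA hκ hF
  obtain ⟨K, hK, hs⟩ := ht.sepw γ e η X R m h
  obtain ⟨L, hL, ha⟩ := h.alg
  refine ⟨fun n => 28 * (L n * K n), (hL.mul hK).const_mul h.big (by norm_num), ?_⟩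
  have h1 := (dnS_fst (fun n => (X n).C2 (R n)) (PP X) (fun n v => (X n).S (R n) v.1)
    fun n => (X n).S (R n)).whp hs
  have h2 := ((hK.const_mul h.big (by norm_num : (1 : ℝ) ≤ 4)).frac hA).2 _
    (Real.log_pos one_lt_two)
  refine (h1.and hF).mono ?_
  filter_upwards [ha, h2] with n a b c hc ⟨u, v⟩
  rw [mul_comm (Real.log 2), Real.exp_nat_mul, Real.exp_log two_pos] at b
  obtain ⟨m1, m2⟩ := (mem_bind _ _ c).1 hc
  obtain ⟨m3, m4, -⟩ := (mem_copy _ _ _).1 m1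
  obtain ⟨-, a1, -, c1, -⟩ := a.bd _ m3
  obtain ⟨-, a2, -, c2, -⟩ := a.bd _ m4
  obtain ⟨-, a3, -, c3, -⟩ := a.bd _ (cE_sub m2)
  have := num (hL.1 n) (hK.1 n) (div_pow_le zero_le_one (hκ n))
    (by rw [mul_one_div, div_le_one (by positivity)]; exact b) a1 a2 a3 c1 c2 c3
    (abs_sub_rd (A n) _) (abs_sub_rd (A n) _) (abs_sub_rd (A n) _) (abs_sub_rd (A n) _) u v
  rw [mul_one_div] at this
  exact this

end Pool.Agent.MP_5168f5_an.R4.U
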