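import Pool.Agent.MP_5168f5_an.R4.USpec

/-! The plane of two directions in a cell has small entropy. -/

namespace Pool.Agent.MP_5168f5_an.R4.U

open H19 H17S H17F Filter K31

namespace UOneBA

variable {Ω Ω' α α' β : Type}

theorem det_fn {P : FP Ω} {F : Ω → α} {F' : Ω → α'} {G : Ω → β} {B : ℝ} (h : Det P F G B)
    (k : Fn P F' F) : Det P F' G B := fun a ha => by
  classical
  obtain ⟨T, h1, h2⟩ := h a ha
  refine ⟨T.image fun s => if e : ∃ b ∈ P.S, F b = s then F' e.choose else F' a,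
    le_trans (by exact_mod_cast Finset.card_image_le) h1,
    fun b hb e => Finset.mem_image.2 ⟨F b, h2 b hb e, ?_⟩⟩
  have e : ∃ c ∈ P.S, F c = F b := ⟨b, hb, rfl⟩
  rw [dif_pos e]
  exact k _ e.choose_spec.1 b hb e.choose_spec.2

theorem mk2 {P : FP Ω} {Q : FP Ω'} {φ : Ω → β} {ψ : Ω' → β} (f : Ω → α) (h : Law P φ Q ψ) :
    ch (glue P Q φ ψ) (fun v => f v.1) Prod.snd = ch P f φ :=
  ((kg.swap P Q φ ψ h).ch_eq (fun v => f v.1) Prod.snd).trans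
    (kg.mk1 Q P ψ φ f id h.symm (Fn.comp ψ id))

variable (X : U3) (R : ℕ)

/-- Two pairs of lines in the cell of one point. -/
noncomputable abbrev P6 : FP (((X.Ω × X.Ω) × X.Ω) × (X.Ω × X.Ω) × X.Ω) :=
  glue (X.C3 R) (X.C3 R) Prod.snd Prod.snd

theorem law2 : Law (X.C2 R) (fun v => X.S R v.1) X.P (X.S R) := (kg.fst _ _ _ _).comp (X.S R)

theorem law3 : Law (X.C3 R) Prod.snd X.P id := kg.snd _ _ _ _ (law2 X R)

variable {X R}

theorem mem3 {c : (X.Ω × X.Ω) × X.Ω} (h : c ∈ (X.C3 R).S) :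
    c.1.1 ∈ X.P.S ∧ c.1.2 ∈ X.P.S ∧ c.2 ∈ X.P.S ∧ X.S R c.2 = X.S R c.1.1 :=
  have a := (kg.mem _ _ _ _ c (law2 X R)).1 h
  have b := (mem_copy _ _ _).1 a.1
  ⟨b.1, b.2.1, a.2⟩

theorem leak {F : X.Ω → α} (hF : Fn X.P F X.l) :
    mi (P6 X R) (fun c => (c.1.1, c.2.1)) (fun c => F c.1.2) (fun c => X.y c.1.2) ≤
      X.lk (X.S R) := by
  have f6 : Law (P6 X R) Prod.fst (X.C3 R) id := kg.fst _ _ _ _
  have s6 : Law (P6 X R) Prod.snd (X.C3 R) id := kg.snd _ _ _ _ (Law.rfl _)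
  refine (mi_mono (G' := fun c => X.l c.1.2) ((f6.fn ((law3 X R).fn hF)).left _)).trans ?_
  have h1 : mi (P6 X R) (fun c => X.l c.1.2) (fun c => c.1.1) (fun c => X.y c.1.2) =
      mi X.P X.l (X.S R) X.y :=
    congrArg₂ (· - ·) ((f6.ch_id (fun c => X.l c.2) fun c => X.y c.2).trans
      ((law3 X R).ch_id X.l X.y)) ((f6.ch_id (fun c => X.l c.2) fun c => (c.1, X.y c.2)).trans
      (kg.mkv (X.C2 R) X.P _ (X.S R) X.l X.y id (law2 X R) fun a _ b _ k => by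
        rw [show a = b from k]))
  have h2 : ch (P6 X R) (fun c => c.2.1) (fun c => (c.1.1, X.y c.1.2)) ≤
      ch (P6 X R) (fun c => c.2.1) fun c => X.S R c.2.1.1 := ch_anti fun a ha b hb e => by
    obtain ⟨a1, a2, a3⟩ := (mem_copy _ _ a).1 ha
    obtain ⟨b1, b2, b3⟩ := (mem_copy _ _ b).1 hb
    rw [← (mem3 a2).2.2.2, ← (mem3 b2).2.2.2, a3, b3, (mem3 a1).2.2.2, (mem3 b1).2.2.2,
      (Prod.mk.inj e).1]
  have h3 : ch (P6 X R) (fun c => c.2.1) (fun c => X.S R c.2.1.1) =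
      ch (X.C3 R) Prod.fst fun c => X.S R c.1.1 := s6.ch_id Prod.fst fun c => X.S R c.1.1
  have h4 : ch (X.C3 R) Prod.fst (fun c => X.S R c.1.1) = ch (X.C2 R) id fun v => X.S R v.1 :=
    (kg.fst (X.C2 R) X.P (fun v => X.S R v.1) (X.S R)).ch_id id fun v => X.S R v.1
  have h5 : ch (P6 X R) (fun c => c.2.1) Prod.fst ≤ ch (P6 X R) (fun c => c.2.1)
      fun c => (X.l c.1.2, c.1.1, X.y c.1.2) := ch_anti fun a _ b _ e => by rw [e]
  have h6 : ch (P6 X R) (fun c => c.2.1) Prod.fst = ch (X.C3 R) Prod.fst Prod.snd :=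
    kg.mk1 (X.C3 R) (X.C3 R) Prod.snd Prod.snd Prod.fst id (Law.rfl _) (Fn.comp _ id)
  have h7 : ch (X.C3 R) Prod.fst Prod.snd = ch (X.C2 R) id fun v => X.S R v.1 :=
    mk2 (P := X.C2 R) (Q := X.P) id (law2 X R)
  rw [mi_symm, mi_chain, h1, mi_symm (P := P6 X R) (fun c => X.l c.1.2) fun c => c.2.1, U3.lk,
    mi_symm (X.S R)]
  exact add_le_of_nonpos_right (sub_nonpos.2 (by linarith))

theorem last (ind : Ind2) (hn : Fn X.P (X.S 0) (X.S R)) (e : X.Ω → α) {F : X.Ω × X.Ω → α'}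
    (hF : ∀ a b, e a.1 = e b.1 → e a.2 = e b.2 → F a = F b) :
    ch (X.C3 R) (fun c => F c.1) (fun c => X.S 0 c.2) ≤
      ch (X.C3 R) (fun c => F c.1) Prod.snd + 2 * mi X.P e (X.S R) (X.S 0) := by
  refine (ch_le_mi (G := Prod.snd) (Fn.fst _ _)).trans (add_le_add le_rfl ?_)
  refine (mi_mono' (F' := fun c => (e c.1.1, e c.1.2)) fun a _ b _ k =>
    hF _ _ (congrArg (·.1.1) k) (congrArg (·.1.2) k)).trans (le_trans ?_ (ind X.P e _ _ hn))
  refine sub_le_sub (le_of_eq ((ch_ext (fun _ _ => rfl) fun c hc => ?_).trans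
    ((kg.fst (X.C2 R) X.P _ _).ch_id (fun v => (e v.1, e v.2)) fun v => X.S 0 v.1))) ?_
  · exact hn _ (mem3 hc).2.2.1 _ (mem3 hc).1 (mem3 hc).2.2.2
  have h1 : ch (X.C2 R) (fun v => (e v.1, e v.2)) (fun v => (X.S R v.1, X.S 0 v.1)) ≤
      ch (X.C2 R) (fun v => (e v.1, e v.2)) fun v => X.S R v.1 :=
    ch_anti fun _ _ _ _ k => congrArg Prod.fst k
  have h2 : ch (X.C3 R) (fun c => (e c.1.1, e c.1.2)) Prod.snd ≤
      ch (X.C3 R) (fun c => (e c.1.1, e c.1.2)) fun c => (c.2, X.S 0 c.2) :=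
    ch_anti fun a _ b _ k => by rw [k]
  exact h1.trans ((mk2 (P := X.C2 R) (Q := X.P) (fun v => (e v.1, e v.2)) (law2 X R)).ge.trans h2)

theorem T2_eq {A : ℕ} {a b : X.Ω × X.Ω}
    (h1 : (fl1 A (X.w a.1), fl1 A (X.b a.1)) = (fl1 A (X.w b.1), fl1 A (X.b b.1)))
    (h2 : (fl1 A (X.w a.2), fl1 A (X.b a.2)) = (fl1 A (X.w b.2), fl1 A (X.b b.2))) :
    X.T2 A a = X.T2 A b := by
  simp only [Prod.mk.injEq] at h1 h2
  simp only [U3.T2, rd, h1.1, h1.2, h2.1, h2.2]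

theorem det_T2 {τ : ℕ → ℕ} {D A : ℕ} {L : ℝ} (h : X.Alg τ D R L) (hA : A ≤ R) (h0 : 1 ≤ 2 * L)
    (h1 : 2 * L ≤ Real.exp (1 * R)) (h2 : (2 : ℝ) ≤ R) (g : ℝ × ℝ → ℤ) :
    Det (X.C3 R) (fun c => g (X.T2 A c.1)) Prod.snd (Real.exp (3 * (4 : ℕ) * R)) := by
  refine det_fn (NCx.det_fl (y := fun c => ![X.w c.1.1, X.b c.1.1, X.w c.1.2, X.b c.1.2]) h0 h1 h2
    fun a ha b hb _ => (pi_norm_le_iff_of_nonneg (by linarith)).2 fun i => ?_) fun a _ b _ e => ?_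
  · have a1 := h.bd _ (mem3 ha).1
    have a2 := h.bd _ (mem3 ha).2.1
    have b1 := h.bd _ (mem3 hb).1
    have b2 := h.bd _ (mem3 hb).2.1
    fin_cases i <;> refine (abs_sub _ _).trans ?_ <;> simp <;> linarith
  · have k := fun i => fl1_eq_of_le hA (congrFun e i)
    exact congrArg g (T2_eq (Prod.ext (k 0) (k 1)) (Prod.ext (k 2) (k 3)))

end UOneBA

open UOneBA in
theorem rowOneB : ROneB := by
  intro low rev col ind γ e η X R m A κ L H hA hL hI hF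
  obtain ⟨L₀, s0, alg⟩ := H.alg
  have big := H.big
  have d1 : DnS (fun n => P6 (X n) (R n)) (fun _ => Prod.fst) fun n => (X n).C3 (R n) :=
    dnS_fst (fun n => (X n).C3 (R n)) _ (fun _ => Prod.snd) fun _ => Prod.snd
  have d2 : DnS (fun n => P6 (X n) (R n)) (fun _ => Prod.snd) fun n => (X n).C3 (R n) :=
    dnS_snd (fun n => (X n).C3 (R n)) fun _ => Prod.snd
  have d6 : DnS (fun n => P6 (X n) (R n)) (fun _ c => c.1.2) (PP X) :=
    d1.trans (dnS_law (ρ := fun _ => Prod.snd) (Eventually.of_forall fun n => law3 (X n) (R n)))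
  have e1 : ∀ᶠ n in UF, Fn (P6 (X n) (R n)) (fun c => (X n).T2 (A n) c.1.1 - (X n).T2 (A n) c.2.1)
      (fun c => (c.1.1, c.2.1)) ∧ ∀ c ∈ (P6 (X n) (R n)).S, |(X n).w c.1.2| ≤ L₀ n :=
    alg.mono fun n a => ⟨fun c _ c' _ k => by simp only [(Prod.mk.inj k).1, (Prod.mk.inj k).2],
      fun c hc => (a.bd _ (mem3 ((mem_copy _ _ c).1 hc).1).2.2.1).2.1⟩
  have e2 : ∀ α : ℕ → ℕ, (∀ n, α n ≤ R n) → Low (fun n => P6 (X n) (R n))
      (fun n c => fl1 (α n) ((X n).w c.1.2)) (fun _ c => (c.1.1, c.2.1)) R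
      fun n => η * α n * lg := fun α hα =>
    low (PP X) (fun n ω => fl1 (α n) ((X n).w ω)) (fun n => (X n).y)
      (fun n => P6 (X n) (R n)) (fun _ c => c.1.2) (fun _ c => (c.1.1, c.2.1)) R _ big (H.br α hα)
      d6 (Sm.mono (H.up H.lk) (alg.mono fun n a => leak (X := X n) (R := R n)
        (F := fun ω => fl1 (α n) ((X n).w ω)) ((Fn.comp (fl1 (α n)) (X n).w).trans a.wl)))
  have e3 : Whp (fun n => P6 (X n) (R n)) fun n c =>
      |((X n).T2 (A n) c.1.1 - (X n).T2 (A n) c.2.1).1 +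
        ((X n).T2 (A n) c.1.1 - (X n).T2 (A n) c.2.1).2 * (X n).w c.1.2| ≤ 2 * L n / 2 ^ κ n :=
    ((d1.whp hF).and (d2.whp hF)).mono (Eventually.of_forall fun n c hc k => by
      have k1 := abs_le.1 k.1.2
      have k2 := abs_le.1 k.2.2
      rw [((mem_copy _ _ c).1 hc).2.2] at k2
      rw [Prod.fst_sub, Prod.snd_sub, abs_le, mul_div_assoc]
      constructor <;> linarith [k1.1, k1.2, k2.1, k2.2])
  obtain ⟨L', sL', w⟩ := rev (fun n => P6 (X n) (R n)) (fun n c => (X n).w c.1.2)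
    (fun _ c => (c.1.1, c.2.1)) (fun n c => (X n).T2 (A n) c.1.1 - (X n).T2 (A n) c.2.1) R R η
    (fun n => 2 * L n / 2 ^ κ n) L₀ big H.par.2.2.2 Frac.rfl s0 e1 e2 e3
  have s2 := s0.const_mul big one_le_two
  have k : ∀ g : ℝ × ℝ → ℝ, Whp (fun n => P6 (X n) (R n)) (fun n c =>
      |g ((X n).T2 (A n) c.1.1) - g ((X n).T2 (A n) c.2.1)| ≤ L' n * (2 * L n / 2 ^ κ n)) →
      Sm R fun n => ch ((X n).C3 (R n)) (fun c => fl1 (κ n) (g ((X n).T2 (A n) c.1))) Prod.snd :=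
    fun g h => col (fun n => (X n).C3 (R n)) (fun n c => g ((X n).T2 (A n) c.1))
      (fun _ => Prod.snd) R κ (fun n => L' n * (2 * L n)) (3 * (4 : ℕ))
      big (sL'.mul (hL.const_mul big one_le_two)) (by
        filter_upwards [alg, s2.2 1 one_pos, big.ev 2] with n a b c
        exact det_T2 a (hA n) (s2.1 n) b c fun t => fl1 (κ n) (g t))
      (h.mono (Eventually.of_forall fun n c _ k => k.trans_eq (mul_div_assoc _ _ _).symm))
  refine Sm.mono (Sm.add (Sm.add (k Prod.fst (w.mono (Eventually.of_forall fun _ _ _ k => k.1)))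
    (k Prod.snd (w.mono (Eventually.of_forall fun _ _ _ k => k.2))))
    (Sm.smul hI zero_le_two)) (alg.mono fun n a => ?_)
  exact (last ind (a.nest 0 _ (Nat.zero_le _) le_rfl) _
    (F := fun v => (fl1 (κ n) ((X n).T2 (A n) v).1, fl1 (κ n) ((X n).T2 (A n) v).2))
    fun _ _ h1 h2 => by rw [T2_eq h1 h2]).trans (add_le_add (ch_subadd _ _ _) le_rfl)

end Pool.Agent.MP_5168f5_an.R4.U
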