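import Pool.Agent.MP_5168f5_an.R4.USpec

/-! The base line and the cell determine the second slope. -/

namespace Pool.Agent.MP_5168f5_an.R4.U

open H19 H17S H17F Filter K31

namespace UPLdA

/-- The second coordinate as a planar system whose context is the tube of the base line. -/
noncomputable abbrev gm (X : U3) (h : ℕ) : Geo 1 X.Ω :=
  ⟨ℤ × ℤ × X.Lb, ℝ × ℤ × ℤ × X.Lb, fun ω _ => X.n ω, fun ω _ => X.b ω, X.t, X.Xq h,
    fun ω => (X.t ω, X.Xq h ω)⟩

theorem gm_pt (X : U3) (h : ℕ) (ω : X.Ω) : (gm X h).pt ω 0 = X.u ω := by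
  simp [Geo.pt, Geo.lt, U3.u, mul_comm]

theorem xq_l {X : U3} {τ : ℕ → ℕ} {D R : ℕ} {L : ℝ} (a : X.Alg τ D R L) (h : ℕ) :
    Fn X.P (X.Xq h) X.l :=
  ((Fn.comp (fl1 h) X.a).trans a.al).pair (((Fn.comp (fl1 h) X.w).trans a.wl).pair a.sl)

variable {γ e η : ℝ} {X : ℕ → U3} {R m : ℕ → ℕ}

theorem bs (T : Tan γ e η X R m) (h : ℕ → ℕ) : Bs (PP X) (fun n => gm (X n) (h n)) R := by
  obtain ⟨L, hL, a⟩ := T.alg
  refine ⟨T.big, ⟨L, hL, a.mono fun n a => ⟨fun ω b => ?_, Fn.fst _ _, Fn.snd _ _⟩⟩,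
    T.inf.mono (a.mono fun n a => ?_), T.hgt.trans (Le.of_ev (a.mono fun n a =>
      ch_anti (xq_l a _)))⟩
  · obtain ⟨-, -, h1, h2, h3⟩ := a.bd ω b
    exact ⟨fun _ => ⟨h1, h2⟩, h3⟩
  · refine (mi_mono (G' := (X n).l) ?_).trans (mi_cond (fun _ _ _ _ c => congrArg (·.2.2) c)
      ((xq_l a _).left _))
    exact (((Fn.comp (fun x _ => x) _).trans a.nl).left _).pair
      ((((Fn.comp (fun x _ => x) _).trans a.bl).left _).pair (Fn.snd _ _))

theorem smx (T : Tan γ e η X R m) {k h : ℕ → ℕ} (hk : ∀ n, k n ≤ h n) {β : ℕ → Type}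
    {G : ∀ n, (X n).Ω → β n} (hG : ∀ n, Fn (X n).P
      (fun ω => ((X n).t ω, fl1 (h n) ((X n).a ω), fl1 (h n) ((X n).w ω))) (G n)) :
    Sm R fun n => ch (X n).P (fun ω => fl1 (k n) ((X n).x ω)) (G n) := by
  obtain ⟨L, -, a⟩ := T.alg
  refine Sm.near1 T.big (T.big.sub one_le_two) (a.mono fun n a u hu v hv c => ?_)
  have c1 := hG n u hu v hv c
  simp only [Prod.mk.injEq] at c1
  have h1 := near_of_fl1 (fl1_eq_of_le (hk n) c1.2.1)
  have h2 := near_of_fl1 (fl1_eq_of_le (hk n) c1.2.2)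
  have h3 := mul_le_mul h2 (a.abs_t hv) (abs_nonneg _) (by positivity)
  rw [← abs_mul] at h3
  rw [U3.x, U3.x, c1.1, show (X n).a u + (X n).w u * (X n).t v - ((X n).a v + (X n).w v * (X n).t v)
    = (X n).a u - (X n).a v + ((X n).w u - (X n).w v) * (X n).t v by ring]
  exact (abs_add_le _ _).trans ((add_le_add h1 h3).trans_eq (by ring))

theorem ngr (ngc : NGc) (T : Tan γ e η X R m) {h : ℕ → ℕ} (hh : ∀ n, h n ≤ R n) :
    NGr (PP X) (fun n => gm (X n) (h n)) R 0 (fun _ => 0) h e := fun a b hab => by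
  simp only [gm_pt]
  refine (ngc γ e η X R m a b T fun n => ⟨(hab n).2.1, (hab n).2.2.trans (hh n)⟩).of2
    (smx T (fun n => (hab n).2.2) (G := fun n ω => (fl1 (a n) ((X n).u ω), (gm (X n) (h n)).zt ω))
      fun n _ _ _ _ c => by
        simp only [Geo.zt, U3.Xq, Prod.mk.injEq] at c ⊢
        tauto) (Eventually.of_forall fun n => ?_)
  have h1 := ch_drop (P := (X n).P) (fun ω => fl1 (b n) ((X n).u ω))
    (fun ω => fl1 (b n) ((X n).x ω)) fun ω => (fl1 (a n) ((X n).u ω), (gm (X n) (h n)).zt ω)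
  have h2 := ch_anti (P := (X n).P) (F := fun ω => fl1 (b n) ((X n).u ω))
    (G := fun ω => (fl1 (a n) ((X n).u ω), fl1 (b n) ((X n).t ω), fl1 (b n) ((X n).x ω),
      (X n).S 0 ω))
    (G' := fun ω => (fl1 (b n) ((X n).x ω), fl1 (a n) ((X n).u ω), (gm (X n) (h n)).zt ω))
    fun _ _ _ _ c => by
      simp only [Geo.zt, U3.Xq, Prod.mk.injEq] at c ⊢
      simp only [c, and_self]
  linarith

theorem core (pl : PL) (ref : Ref) (ngc : NGc) (T : Tan γ e η X R m) {s h : ℕ → ℕ} (hs : Frac s R)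
    (hh : ∀ n, s n ≤ h n ∧ h n ≤ R n) :
    Sm R fun n => ch (X n).P (fun ω => fl1 (h n - s n) ((X n).b ω)) fun ω =>
      (fl1 0 ((X n).b ω), fl1 (h n) ((X n).u ω), (X n).t ω, (X n).Xq (h n) ω) := by
  have := pl (DnK (PP X)) (fun n => gm (X n) (h n)) R (fun _ => 0) h (fun n => h n - s n) s 0 e
    (Mb.base (PP X)) (cl0_dnK _) (fun Y k => bs (ref γ e η X R m _ _ _ T k) h) (dnK_base _)
    T.par.2.1 hs (fun n => ⟨Nat.zero_le _, (Nat.sub_add_cancel (hh n).1).le, (hh n).2⟩)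
    fun Y k => ngr ngc (ref γ e η X R m _ _ _ T k) fun n => (hh n).2
  refine this.mono (Eventually.of_forall fun n => le_of_eq ?_)
  simp only [Nat.sub_add_cancel (hh n).1, ← gm_pt _ (h n)]
  rfl

end UPLdA

open UPLdA

theorem rowPLd : RPLd := by
  intro pl ref ht us ngc γ e η X R m j q T hq
  obtain ⟨L, hL, alg⟩ := T.alg
  have hR := T.big
  let K := fun n ω => (fl1 (q n) ((X n).a ω), fl1 (q n) ((X n).w ω), (X n).S (j n) ω)
  let G := fun n ω => ((X n).t ω, K n ω)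
  have h0 : Sm R fun n => ch (X n).P (fun ω => fl1 0 ((X n).b ω)) (G n) :=
    Sm.near1 (j := fun _ => 0) hR (hL.const_mul hR one_le_two) (alg.mono fun n a u hu v hv _ =>
      (abs_sub _ _).trans (by
        rw [pow_zero, div_one]; linarith [(a.bd u hu).2.2.2.1, (a.bd v hv).2.2.2.1]))
  have h1 := smx T (k := q) (h := q) (fun _ => le_rfl) (G := G) fun n _ _ _ _ c => by
    simp only [G, K, Prod.mk.injEq] at c ⊢
    tauto
  have h2 := us γ e η X R m j q T fun n => ⟨(hq n).1, (hq n).2.2⟩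
  have h3 := ht.il γ e η X R m j T fun n => (hq n).1
  refine Le.eps fun ε hε => ?_
  let s := fun n => ⌊min ε 1 * R n⌋₊
  have hs : Frac s R := hR.frac_floor (lt_min hε one_pos) (min_le_right _ _)
  have h4 := core pl ref ngc T hs (h := fun n => max (q n) (s n)) fun n =>
    ⟨le_max_right _ _, max_le (hq n).2.1 (hs.1 n)⟩
  have h5 := le_fl1 (P := PP X) (x := fun n => (X n).b) (j := fun n => q n - s n) (k := q)
    (G := fun n ω => (fl1 (q n - s n) ((X n).b ω), G n ω)) hR (hR.sub le_rfl)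
    (fun n => Nat.sub_le _ _)
    (Eventually.of_forall fun n u _ v _ c => near_of_fl1 (congrArg Prod.fst c))
  refine Le.of6 h0 h1 h2 h3 h4 h5 (alg.mono fun n a => ?_)
  have k0 : ((q n : ℝ) - (q n - s n : ℕ)) * lg ≤ ε * R n := by
    have e1 : (q n : ℝ) ≤ (q n - s n : ℕ) + s n := by exact_mod_cast le_tsub_add
    have e2 : (s n : ℝ) ≤ min ε 1 * R n := Nat.floor_le (by positivity)
    have e3 := mul_le_mul_of_nonneg_right (min_le_left ε 1) (Nat.cast_nonneg (α := ℝ) (R n))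
    nlinarith [lg_pos, lg_lt_one, Nat.cast_nonneg (α := ℝ) (s n)]
  have k1 : mi (X n).P (fun ω => fl1 (q n) ((X n).b ω)) (X n).t (K n) ≤
      mi (X n).P (X n).t (X n).l ((X n).S (j n)) := by
    rw [mi_symm]
    refine (mi_mono (((Fn.comp (fl1 (q n)) _).trans a.bl).left _)).trans
      (mi_cond (fun _ _ _ _ c => congrArg (·.2.2) c) ?_)
    exact (((Fn.comp (fl1 (q n)) _).trans a.al).left _).pair
      ((((Fn.comp (fl1 (q n)) _).trans a.wl).left _).pair (Fn.snd _ _))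
  have k2 := ch_drop (P := (X n).P) (fun ω => fl1 (q n) ((X n).b ω))
    (fun ω => fl1 (q n - s n) ((X n).b ω)) (G n)
  have k3 := ch_drop (P := (X n).P) (fun ω => fl1 (q n) ((X n).u ω))
    (fun ω => fl1 (q n) ((X n).x ω)) (G n)
  have k4 := ch_anti (P := (X n).P) (F := fun ω => fl1 (q n) ((X n).u ω))
    (G := fun ω => (fl1 (q n) ((X n).t ω), fl1 (q n) ((X n).x ω), (X n).S (j n) ω))
    (G' := fun ω => (fl1 (q n) ((X n).x ω), G n ω)) fun _ _ _ _ c => by
      simp only [G, K, Prod.mk.injEq] at c ⊢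
      simp only [c, and_self]
  have k5 := ch_nonneg (P := (X n).P) (fun ω => fl1 (q n) ((X n).u ω)) (G n)
  unfold mi at k1
  rcases le_total (q n) (s n) with c | c
  · have k6 := ch_nonneg (P := (X n).P) (fun ω => fl1 (max (q n) (s n) - s n) ((X n).b ω)) fun ω =>
      (fl1 0 ((X n).b ω), fl1 (max (q n) (s n)) ((X n).u ω), (X n).t ω,
        (X n).Xq (max (q n) (s n)) ω)
    rw [Nat.sub_eq_zero_of_le c] at k0 k2 ⊢
    unfold mi
    linarith
  · rw [max_eq_left c]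
    have k6 := ch_drop (P := (X n).P) (fun ω => fl1 (q n - s n) ((X n).b ω))
      (fun ω => (fl1 0 ((X n).b ω), fl1 (q n) ((X n).u ω))) (G n)
    have k7 := ch_subadd (P := (X n).P) (fun ω => fl1 0 ((X n).b ω))
      (fun ω => fl1 (q n) ((X n).u ω)) (G n)
    have k8 := ch_anti (P := (X n).P) (F := fun ω => fl1 (q n - s n) ((X n).b ω))
      (G := fun ω => (fl1 0 ((X n).b ω), fl1 (q n) ((X n).u ω), (X n).t ω, (X n).Xq (q n) ω))
      (G' := fun ω => ((fl1 0 ((X n).b ω), fl1 (q n) ((X n).u ω)), G n ω)) fun u hu v hv c => by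
        simp only [G, K, U3.Xq, Prod.mk.injEq] at c ⊢
        exact ⟨c.1.1, c.1.2, c.2.1, c.2.2.1, c.2.2.2.1,
          a.nest 0 _ (Nat.zero_le _) (hq n).1 u hu v hv c.2.2.2.2⟩
    unfold mi
    linarith

end Pool.Agent.MP_5168f5_an.R4.U
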