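import Pool.Agent.MP_5168f5_an.R4.USpec

/-! Kakeya sets in four dimensions, the step for planes: the rescaled system is tangent. -/

namespace Pool.Agent.MP_5168f5_an.R4.U

open H19 H17S H17F Filter K31

theorem rowPreTan : RPreTan := by
  intro hA hF hG γ e η X τ D j₀ R m L h hL hp
  obtain ⟨L0, hL0, ha⟩ := h.alg
  obtain ⟨s, hs, ht⟩ := h.thick
  have hk0 : Sm m fun n => (X n).hk (j₀ n) ((X n).S (j₀ n)) :=
    h.hk (fun _ => 0) fun _ => Nat.zero_le _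
  have lk0 : Sm m fun n => (X n).lk ((X n).S (j₀ n)) :=
    h.lk.mono (ha.mono fun n a =>
      mi_mono' ((a.nest _ _ (Nat.le_add_right _ _) le_rfl).left _))
  refine ⟨h.par, h.big, h.bigm, h.sm, ⟨fun n => 3 * L0 n * 2 ^ s n, ?_, ?_⟩, ?_, ?_,
    fun j hj => ?_, ?_, fun j hj => ?_, fun j hj => ?_, fun α hα W Q ρ k => ?_,
    fun β lam hβ W Q ρ k => ?_, h.typ, fun j th hj k => h.opt j th hj ?_⟩
  · exact (hL0.const_mul h.big (by norm_num)).mul
      ((Sub.exp hs fun n => Nat.cast_nonneg _).mono (fun n => one_le_pow₀ one_le_two)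
        (Eventually.of_forall fun n => two_pow_le_exp _))
  · filter_upwards [ha, ht] with n a t
    exact hA.alg (X n) (τ n) (tau γ) (D n) (tau γ (R n)) (j₀ n + R n) (R n) (j₀ n) (τ n (j₀ n))
      (s n) (L0 n) (hL0.1 n) a le_rfl t.2.2.2 t.1 (Nat.le_add_right _ _)
  · exact (h.inf.add (le_of_sm h.sm hk0)).mono
      (ha.mono fun n a => hF.inf (X n) (τ n) (D n) (j₀ n + R n) (j₀ n) (τ n (j₀ n)) (L0 n) a
        (Nat.le_add_right _ _))
  · refine h.hgt.of2 (le_of_sm h.sm hk0) (ha.mono fun n a => ?_)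
    have := hF.hgt (X n) (τ n) (D n) (j₀ n + R n) (j₀ n) (τ n (j₀ n)) (R n) (L0 n) a
      (Nat.le_add_right _ _)
    exact (sub_le_sub_left this _).trans_eq (by ring)
  · exact (h.hk j hj).mono
      (ha.mono fun n a => hF.hk (X n) (τ n) (D n) (j₀ n + R n) (j₀ n) (τ n (j₀ n)) (j n) (L0 n) a
        (Nat.add_le_add_left (hj n) _))
  · exact h.lk.mono (ha.mono fun n a =>
      hF.lk (X n) (τ n) (D n) (j₀ n + R n) (j₀ n) (τ n (j₀ n)) (R n) (L0 n) a le_rfl)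
  · exact (h.xs j hj).congr (Eventually.of_forall fun _ => rfl)
      (ha.mono fun n a => hF.xs (X n) (τ n) (D n) (j₀ n + R n) (j₀ n) (τ n (j₀ n)) (R n) (j n)
        (L0 n) a (Nat.add_le_add_left (hj n) _))
  · exact (h.xz j hj).mono
      (ha.mono fun n a => hF.xz (X n) (τ n) (D n) (j₀ n + R n) (j₀ n) (τ n (j₀ n)) (j n) (L0 n) a
        (Nat.add_le_add_left (hj n) _))
  · have h1 := h.br α hα W Q ρ k
    have h2 := k.sm_mi h.big (le_of_sm h.sm lk0)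
    obtain ⟨C, -, hd⟩ := k
    refine h1.of2 h2 ?_
    filter_upwards [ha, hd] with n a d
    have := hF.br ((X n).pull (Q n) (ρ n)) (j₀ n) (τ n (j₀ n))
      (fun v => fl1 (α n) ((X n).w (ρ n v))) fun v b w c e =>
        congrArg (fl1 (α n)) ((a.dn d).wl v b w c e)
    exact (sub_le_sub_left this _).trans_eq (by simp only [U3.lk]; ring)
  · have h1 := h.ng β lam hβ W Q ρ k
    have h2 := (hL.add (h.big.sub le_rfl) h.big).log3 h.big 2
    obtain ⟨C, -, hd⟩ := k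
    refine h1.of2 h2 ?_
    filter_upwards [ha, hd, ht, hp] with n a d t p
    have := hG.ng ((X n).pull (Q n) (ρ n)) _ _ _ (j₀ n) (τ n (j₀ n)) (β n) (lam n) _ (L n) (a.dn d)
      (Nat.le_add_right _ _) (hL.pos n).le (fun v b => p _ (d.mem b)) (hβ n).1
      ((Nat.add_le_add_left (hβ n).2 _).trans t.2.2.1)
    rw [show 2 * L n + 5 = 2 * (L n + 1) + 3 by ring] at this
    exact (sub_le_sub_right this _).trans_eq (by simp only [U3.u]; ring)
  · obtain ⟨W, Λ, Q, ρ, lam, d, k, h1, h2, h3⟩ := k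
    have h4 := k.sm_mi h.bigm hk0
    have h5 := k.sm_mi h.bigm lk0
    have h6 : ∀ n, ∃ d' : W n → ℝ × ℝ × ℝ,
        ((X n).pull (Q n) (ρ n)).Alg (τ n) (D n) (j₀ n + R n) (L0 n) → Fn (Q n) (d n) (lam n) →
        (∀ v ∈ (Q n).S, (((X n).pull (Q n) (ρ n)).shift (j₀ n) (τ n (j₀ n))).Fit 4 (d n v) v (j n)
          (th n)) →
        Fn (Q n) d' (fun v => (lam n v, (X n).S (j₀ n) (ρ n v))) ∧
        (∀ v ∈ (Q n).S, ((X n).pull (Q n) (ρ n)).Fit 4 (d' v) v (j₀ n + j n) (τ n (j₀ n) + th n)) ∧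
        ((X n).pull (Q n) (ρ n)).hk (j₀ n + j n) (fun v => (lam n v, (X n).S (j₀ n) (ρ n v))) ≤
          (((X n).pull (Q n) (ρ n)).shift (j₀ n) (τ n (j₀ n))).hk (j n) (lam n) +
            ((X n).pull (Q n) (ρ n)).hk (j₀ n) (fun v => (X n).S (j₀ n) (ρ n v)) ∧
        ((X n).pull (Q n) (ρ n)).lk (fun v => (lam n v, (X n).S (j₀ n) (ρ n v))) ≤
          (((X n).pull (Q n) (ρ n)).shift (j₀ n) (τ n (j₀ n))).lk (lam n) +
            ((X n).pull (Q n) (ρ n)).lk fun v => (X n).S (j₀ n) (ρ n v) := fun n => by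
      by_cases c : ((X n).pull (Q n) (ρ n)).Alg (τ n) (D n) (j₀ n + R n) (L0 n) ∧
        Fn (Q n) (d n) (lam n) ∧ ∀ v ∈ (Q n).S,
          (((X n).pull (Q n) (ρ n)).shift (j₀ n) (τ n (j₀ n))).Fit 4 (d n v) v (j n) (th n)
      · exact (hG.lab ((X n).pull (Q n) (ρ n)) _ _ _ (j₀ n) (τ n (j₀ n)) (j n) (th n) _ (lam n)
          (d n) c.1 (Nat.le_add_right _ _) c.2.1 c.2.2).imp fun _ u _ _ _ => u
      · exact ⟨d n, fun c1 c2 c3 => absurd ⟨c1, c2, c3⟩ c⟩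
    choose d' hd' using h6
    obtain ⟨C, hC, hd⟩ := k
    have h7 := (ha.and (hd.and h3)).mono fun n u => hd' n (u.1.dn u.2.1) u.2.2.1 u.2.2.2
    exact ⟨W, fun n => Λ n × (X n).Lb, Q, ρ, fun n v => (lam n v, (X n).S (j₀ n) (ρ n v)), d',
      ⟨C, hC, hd⟩, (h1.add h4).mono (h7.mono fun n u => u.2.2.1),
      (h2.add h5).mono (h7.mono fun n u => u.2.2.2), h7.mono fun n u => ⟨u.1, u.2.1⟩⟩

end Pool.Agent.MP_5168f5_an.R4.U
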