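import Pool.Agent.MP_5168f5_an.R4.USpec
import Pool.Agent.MP_5168f5_an.R4.K80RA

/-! Kakeya sets in four dimensions, the step for planes: the choice of a good level. -/

namespace Pool.Agent.MP_5168f5_an.R4.U

open H19 H17S H17F Filter K31

namespace UProf2A

variable {M : ℕ → ℕ} {f g g' : ℕ → ℝ} {τ : ℕ → ℕ → ℕ}

theorem le_min' (h : Le M f g) (h' : Le M f g') : Le M f fun n => min (g n) (g' n) :=
  fun ε hε => by
    filter_upwards [h ε hε, h' ε hε] with n a b
    rcases min_choice (g n) (g' n) with e | e <;> rw [e] <;> assumption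

theorem le_lev (hM : Big M) (c : ℝ) : Le M (fun n => c * M n) fun n => lev M c n :=
  (hM.sm 1).of_sub (Eventually.of_forall fun n => by linarith [lt_lev M c n])

theorem num_le {a b : ℝ} (h : a ≤ b) : Le M (fun n => a * M n) fun n => b * M n :=
  Le.of_le fun _ => mul_le_mul_of_nonneg_right h (Nat.cast_nonneg _)

/-- A differentiable profile has a slope. -/
theorem dif (hM : Big M) (hb : ∀ᶠ n in UF, ∀ j, |(τ n j : ℝ)| ≤ 1 * M n)
    (hm : ∀ᶠ n in UF, Monotone fun j => (τ n j : ℝ)) {c γ : ℝ} (hγ : 0 ≤ γ)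
    (hd : HasDerivAt (prof M fun n j => (τ n j : ℝ)) γ c) : Dif M τ c γ := by
  intro ε hε
  obtain ⟨ν, hν⟩ : ∃ ν, ν = prof M fun n j => (τ n j : ℝ) := ⟨_, rfl⟩
  rw [← hν] at hd
  obtain ⟨κ, κ0, κ1, κ2⟩ : ∃ κ : ℝ, 0 < κ ∧ κ ≤ 1 ∧ 2 * ((γ + 3) * κ) ≤ ε := by
    refine ⟨min 1 (ε / (2 * (γ + 3))), by positivity, min_le_left _ _, ?_⟩
    have := min_le_right 1 (ε / (2 * (γ + 3)))
    rw [le_div_iff₀ (by positivity)] at this
    linarith
  obtain ⟨ρ, ρ0, hρ⟩ := Metric.eventually_nhds_iff.1 (hd.isLittleO.bound κ0)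
  refine ⟨ρ / 3, by positivity, fun r r0 r1 => ?_⟩
  have hκr : κ * r ≤ r := mul_le_of_le_one_left r0.le κ1
  have x0 : 0 < κ * r := by positivity
  have est : ∀ y, |y - c| ≤ 2 * r → |ν y - ν c - (y - c) * γ| ≤ 2 * (κ * r) := fun y hy => by
    have := hρ (y := y) (by rw [Real.dist_eq]; linarith)
    rw [Real.norm_eq_abs, Real.norm_eq_abs, smul_eq_mul] at this
    nlinarith
  have A : ∀ᶠ n in UF, ∀ j : ℕ, (lev M c n ≤ j ∧ (j : ℝ) ≤ (c + r) * M n) →
      |(τ n j : ℝ) - ν c * M n - γ * (j - c * M n)| ≤ (γ + 3) * (κ * r) * M n := by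
    refine unif (A := fun _ => ℕ) (h := fun n j => lev M c n ≤ j ∧ (j : ℝ) ≤ (c + r) * M n)
      fun j hj => ?_
    have b : Bd1 M fun n => (j n : ℝ) := ⟨c + r, hj.mono fun n a => by
      rw [Nat.abs_cast]; exact a.2⟩
    obtain ⟨u, hu⟩ : ∃ u : ℝ, Eqv M (fun n => (j n : ℝ)) fun n => u * M n := ⟨_, b.eqv hM⟩
    have u1 : c ≤ u := Le.num hM (((le_lev hM c).trans (Le.of_ev (hj.mono fun n a => by
      exact_mod_cast a.1))).trans hu.1)
    have u2 : u ≤ c + r := Le.num hM (hu.2.trans (Le.of_ev (hj.mono fun n a => a.2)))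
    have l1 := (prof_le hM hb hm (j := j) (c := u - κ * r)).1 ((hu.2 _ x0).mono fun n a =>
      Nat.floor_le_of_le (by linarith))
    have l2 := (prof_le hM hb hm (j := j) (c := u + κ * r)).2 ((hu.1 _ x0).mono fun n a =>
      Nat.le_floor (by linarith))
    rw [← hν] at l1 l2
    have e1 := (abs_le.1 (est (u - κ * r) (abs_le.2 ⟨by linarith, by linarith⟩))).1
    have e2 := (abs_le.1 (est (u + κ * r) (abs_le.2 ⟨by linarith, by linarith⟩))).2
    filter_upwards [(l1.add (hu.1.smul hγ)) _ x0, (l2.add (hu.2.smul hγ)) _ x0] with n a1 a2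
    have m0 : (0 : ℝ) ≤ M n := Nat.cast_nonneg _
    have f1 := mul_le_mul_of_nonneg_right e1 m0
    have f2 := mul_le_mul_of_nonneg_right e2 m0
    exact abs_le.2 ⟨by linarith, by linarith⟩
  filter_upwards [A] with n a j j' h1 h2 h3
  have h4 : (j : ℝ) ≤ j' := by exact_mod_cast h2
  have a1 := abs_le.1 (a j ⟨h1, h4.trans h3⟩)
  have a2 := abs_le.1 (a j' ⟨h1.trans h2, h3⟩)
  have a3 := mul_le_mul_of_nonneg_right κ2 (show 0 ≤ r * M n by positivity)
  exact abs_le.2 ⟨by linarith [a1.2, a2.1], by linarith [a1.1, a2.2]⟩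

/-- The real variable argument. -/
theorem real {ν : ℝ → ℝ} {B : Set ℝ} {p₀ δ C : ℝ} (hδ : 0 < δ) (p0 : 0 < p₀) (p1 : p₀ < 1)
    (hC : 0 < C) (hm : Monotone ν)
    (hB : ∀ ε : ℝ, 0 < ε → ∃ x₀ : ℝ, 0 < x₀ ∧ ∀ x, 0 < x → x ≤ x₀ →
      MeasureTheory.volume (B ∩ Set.Icc (p₀ - x) p₀) ≤ ENNReal.ofReal (ε * x))
    (low : ∀ c c', 0 ≤ c → c < c' → c' ≤ 1 → min c p₀ ≤ ν c')
    (grow : ∀ a d b, 0 ≤ a → 0 ≤ d → a + d < b → b ≤ 1 → min p₀ (ν a + d) ≤ ν b)
    (zero : ∀ w, 0 < w → w ≤ 1 → p₀ ≤ ν w → δ ≤ C * w)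
    (ext : ∀ a w c', 0 ≤ a → 0 < w → a + w ≤ 1 → p₀ ≤ ν (a + w) → a < c' → c' ≤ 1 →
      p₀ - C * w ≤ ν c') :
    ∃ c, 0 ≤ c ∧ c < 1 ∧ c ≤ ν c ∧ DifferentiableAt ℝ ν c ∧ 1 ≤ deriv ν c ∧ ν c ∉ B ∧
      p₀ - δ / 2 ≤ ν c ∧ ν c < p₀ := by
  obtain ⟨S, hS⟩ : ∃ S : Set ℝ, S = {c | 0 ≤ c ∧ p₀ ≤ ν c} := ⟨_, rfl⟩
  have bd : BddBelow S := ⟨0, fun c hc => by rw [hS] at hc; exact hc.1⟩
  have m1 : (1 + p₀) / 2 ∈ S := by
    rw [hS]
    exact ⟨by linarith, by simpa using low p₀ ((1 + p₀) / 2) p0.le (by linarith) (by linarith)⟩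
  have s1 : sInf S < 1 := (csInf_le bd m1).trans_lt (by linarith)
  have s0 : 0 < sInf S := by
    have w0 : 0 < min 1 (δ / (2 * C)) := by positivity
    refine w0.trans_le (le_csInf ⟨_, m1⟩ fun c hc => not_lt.1 fun k => ?_)
    rw [hS] at hc
    have h1 := zero _ w0 (min_le_left _ _) (hc.2.trans (hm k.le))
    have h2 := min_le_right 1 (δ / (2 * C))
    rw [le_div_iff₀ (by positivity)] at h2
    linarith
  have up : ∀ c, sInf S < c → p₀ ≤ ν c := fun c hc => by
    obtain ⟨a, ha, k⟩ := exists_lt_of_csInf_lt ⟨_, m1⟩ hc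
    rw [hS] at ha
    exact ha.2.trans (hm k.le)
  have dn : ∀ c, 0 ≤ c → c < sInf S → ν c < p₀ := fun c h0 hc => not_le.1 fun k =>
    absurd (csInf_le bd (by rw [hS]; exact ⟨h0, k⟩)) (not_le.2 hc)
  obtain ⟨s, hs⟩ : ∃ s, s = sInf S := ⟨_, rfl⟩
  rw [← hs] at s0 s1 up dn
  obtain ⟨x₀, x0, hx⟩ := hB (1 / (16 * C)) (by positivity)
  obtain ⟨W, W0, W1, W2, W3, W4⟩ : ∃ W : ℝ, 0 < W ∧ W ≤ s ∧ s + W ≤ 1 ∧ C * (2 * W) ≤ x₀ ∧
      C * (2 * W) ≤ δ / 2 := by
    have h0 : 0 < 1 - s := by linarith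
    refine ⟨min (min s (1 - s)) (min x₀ (δ / 2) / (2 * C)), by positivity,
      (min_le_left _ _).trans (min_le_left _ _), ?_, ?_⟩
    · linarith [(min_le_left (min s (1 - s)) (min x₀ (δ / 2) / (2 * C))).trans (min_le_right _ _)]
    · have h2 := min_le_right (min s (1 - s)) (min x₀ (δ / 2) / (2 * C))
      rw [le_div_iff₀ (by positivity)] at h2
      exact ⟨by linarith [min_le_left x₀ (δ / 2)], by linarith [min_le_right x₀ (δ / 2)]⟩
  have e1 : p₀ - C * (2 * W) ≤ ν (s - W / 2) := ext (s - W) (2 * W) _ (by linarith) (by linarith)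
    (by linarith) (up _ (by linarith)) (by linarith) (by linarith)
  have gr : ∀ a b, s - W / 2 ≤ a → a ≤ b → b ≤ s - W / 4 → b - a ≤ ν b - ν a := fun a b h1 h2 h3 => by
    refine le_of_forall_lt_imp_le_of_dense fun d hd => ?_
    rcases le_total d 0 with d0 | d0
    · linarith [hm h2]
    · have h4 := grow a d b (by linarith) d0 (by linarith) (by linarith)
      have h5 := dn b (by linarith) (by linarith)
      rcases min_le_iff.1 h4 with k | k <;> linarith
  obtain ⟨c, ⟨c1, c2⟩, hd, -, hc⟩ := K80.ra2 (nu := ν) (nf := ν) (c₁ := s - W / 2) (c₂ := s - W / 4)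
    (B := B) (hm.monotoneOn _) (fun a ha b hb k => gr a b ha.1 k hb.2) (by
      refine ((MeasureTheory.measure_mono (Set.inter_subset_inter_right _ (Set.Icc_subset_Icc e1
        (dn _ (by linarith) (by linarith)).le))).trans (hx _ (by positivity) W3)).trans_lt ?_
      rw [ENNReal.ofReal_lt_ofReal_iff (by linarith),
        show 1 / (16 * C) * (C * (2 * W)) = W / 8 by field_simp; ring]
      linarith)
  have c3 := dn c (by linarith) (by linarith)
  refine ⟨c, by linarith, by linarith, ?_, hd, K80.le_deriv c2 hd fun b hb => ?_, hc,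
    by linarith [hm c1.le], c3⟩
  · refine le_of_forall_lt_imp_le_of_dense fun d hd => ?_
    have h4 := low (max d 0) c (le_max_right _ _) (max_lt hd (by linarith)) (by linarith)
    rcases min_le_iff.1 h4 with k | k <;> linarith [le_max_left d 0]
  · rw [one_mul]; exact gr c b c1.le hb.1.le hb.2

end UProf2A

open UProf2A in
theorem rowProf2 : Prof2 := by
  intro M lo hi τ φ e p₀ δ C T hM hδ p0 p1 hC mid den hτ opt zero low grow ext
  have hb : ∀ᶠ n in UF, ∀ j, |(τ n j : ℝ)| ≤ 1 * M n := hτ.mono fun n a j => by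
    rw [Nat.abs_cast, one_mul]; exact_mod_cast (a.2 j).trans (lev_le M p1.le n)
  have hm : ∀ᶠ n in UF, Monotone fun j => (τ n j : ℝ) := hτ.mono fun n a i j k => by
    exact Nat.cast_le.2 (a.1 k)
  have ev := prof_eqv hM hb
  have mono := prof_mono hM hb hm
  have df := fun c γ => dif hM hb hm (c := c) (γ := γ)
  obtain ⟨ν, hν⟩ : ∃ ν, ν = prof M fun n j => (τ n j : ℝ) := ⟨_, rfl⟩
  rw [← hν] at ev mono df
  have op : ∀ (j th : ℕ → ℕ) (c c' : ℝ), c < c' → c' ≤ 1 → (∀ n, (j n : ℝ) ≤ c * M n) →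
      (∀ n, th n ≤ lev M p₀ n) → T j th → Le M (fun n => th n) fun n => ν c' * M n := by
    intro j th c c' h1 h2 h3 h4 h5
    refine (opt j (lev M c') th ((c' - c) / 2) (by linarith) ?_ h5).trans (ev c').1
    filter_upwards [le_lev hM c' ((c' - c) / 2) (by linarith)] with n a
    exact ⟨by linarith [h3 n], lev_le M h2 n, h4 n⟩
  have ex : ∀ a w : ℝ, 0 ≤ a → 0 < w → a + w ≤ 1 → p₀ ≤ ν (a + w) → ∃ th : ℕ → ℕ,
      Le M (fun n => (p₀ - C * w) * M n) (fun n => th n) ∧ (∀ n, th n ≤ lev M p₀ n) ∧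
        T (lev M a) th := by
    intro a w a0 w0 h1 h2
    have k : ∀ n, lev M a n + (lev M (a + w) n - lev M a n) = lev M (a + w) n := fun n =>
      Nat.add_sub_cancel' (lev_mono M (by linarith) n)
    have k' : ∀ n, ((lev M (a + w) n - lev M a n : ℕ) : ℝ) = lev M (a + w) n - lev M a n :=
      fun n => Nat.cast_sub (lev_mono M (by linarith) n)
    obtain ⟨th, t1, t2⟩ := ext (lev M a) (fun n => lev M (a + w) n - lev M a n)
      (fun n => (k n).trans_le (lev_le M h1 n))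
      ⟨fun n => (Nat.sub_le _ _).trans (lev_le M h1 n), w / 2, by linarith,
        (lev_gap hM (c' := a + w) (ε := w / 2) a0 (by linarith)).mono fun n b => by
          rw [k']; linarith⟩
      (by simp only [k]; exact ((lev_eqv hM p0.le).1.trans (num_le h2)).trans (ev _).2)
    refine ⟨th, t1.of4 (le_lev hM p₀) ((le_lev hM a).smul hC.le)
      ((lev_eqv hM (c := a + w) (by linarith)).1.smul hC.le) (Eventually.of_forall fun n => ?_), t2⟩
    rw [k']; linarith
  obtain ⟨c, c0, c1, c2, hd, g1, hc, s1, s2⟩ := real (ν := ν) (B := {s | ¬DifU M φ s e}) hδ p0 p1 hC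
    mono den
    (fun c c' h0 h1 h2 => by
      obtain ⟨th, t1, t2, t3⟩ := low (lev M c) (lev_le M (by linarith))
      refine Le.num hM (Le.trans (Le.trans ?_ t1) (op _ th c c' h1 h2 (lev_le' M h0) t2 t3))
      simp only [Nat.cast_min]
      exact le_min' ((num_le (min_le_left _ _)).trans (le_lev hM c))
        ((num_le (min_le_right _ _)).trans (le_lev hM p₀)))
    (fun a d b a0 d0 h1 h2 => by
      have k : ∀ n, ((lev M a n + lev M d n : ℕ) : ℝ) ≤ (a + d) * M n := fun n => by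
        push_cast; linarith [lev_le' M a0 n, lev_le' M d0 n]
      obtain ⟨th, t1, t2, t3⟩ := grow (lev M a) (lev M d) fun n => by
        have := (k n).trans (mul_le_of_le_one_left (Nat.cast_nonneg _) (by linarith))
        exact_mod_cast this
      refine Le.num hM (Le.trans (Le.trans ?_ t1) (op _ th (a + d) b h1 h2 k t2 t3))
      simp only [Nat.cast_min, Nat.cast_add]
      exact le_min' ((num_le (min_le_left _ _)).trans (le_lev hM p₀))
        ((num_le (min_le_right _ _)).trans ((ev a).2.of2 (le_lev hM d)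
          (Eventually.of_forall fun n => by linarith))))
    (fun w w0 w1 h => by
      obtain ⟨th, t1, -, t3⟩ := ex 0 w le_rfl w0 (by linarith) (by rwa [zero_add])
      rw [lev_zero] at t3
      have := Le.num hM (b := p₀ - δ) ((t1.trans (zero th t3)).trans
        (Le.of_ev (mid.mono fun n a => by linarith [a.1])))
      linarith)
    (fun a w c' a0 w0 h1 h2 h3 h4 => by
      obtain ⟨th, t1, t2, t3⟩ := ex a w a0 w0 h1 h2
      exact Le.num hM (t1.trans (op _ th a c' h3 h4 (lev_le' M a0) t2 t3)))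
  have d0 : 0 < (p₀ - ν c) / 2 := by linarith
  refine ⟨c, deriv ν c, ν c, min (δ / 2) ((p₀ - ν c) / 2), ⟨c0, c1, c2, g1, by positivity⟩,
    df _ _ (by linarith) hd.hasDerivAt, not_not.1 hc, ev c, ?_⟩
  filter_upwards [mid, le_lev hM p₀ _ d0] with n a b
  have m0 : (0 : ℝ) ≤ M n := Nat.cast_nonneg _
  have f1 := mul_le_mul_of_nonneg_right (min_le_left (δ / 2) ((p₀ - ν c) / 2)) m0
  have f2 := mul_le_mul_of_nonneg_right (min_le_right (δ / 2) ((p₀ - ν c) / 2)) m0
  have f3 := mul_le_mul_of_nonneg_right s1 m0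
  have f4 : (lev M p₀ n : ℝ) ≤ hi n := by
    linarith [lev_le' M p0.le n, a.2, mul_nonneg hδ.le m0]
  exact ⟨by linarith [a.1], by linarith, by exact_mod_cast f4⟩

end Pool.Agent.MP_5168f5_an.R4.U
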