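import Pool.Agent.MP_5168f5_an.R4.USpec

/-! The step for planes: independence and fullness on rectangles. -/

namespace Pool.Agent.MP_5168f5_an.R4.U

open H19 H17S H17F Filter K31

namespace URcEA

theorem gen {Ω α β γ δ : Type} (P : FP Ω) (A : Ω → α) (T a a' z r : Ω → ℤ) (G : Ω → β)
    (d : Ω → γ) (w : Ω → δ) :
    mi P A (fun c => (d c, w c)) G ≤ ch P T G + ch P a G + ch P a' G -
      ch P (fun c => (T c, a c, a' c)) (fun c => (A c, G c)) + ch P d (fun c => (T c, G c)) +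
      ch P w (fun c => ((a c, a' c), G c)) ∧
    mi P d w G ≤ ch P T G + ch P a G + ch P a' G -
      ch P (fun c => (T c, a c, a' c)) (fun c => (A c, G c)) + ch P d (fun c => (T c, G c)) +
      ch P w (fun c => ((a c, a' c), G c)) ∧
    ch P (fun c => (T c, a c, a' c)) (fun c => (A c, G c)) ≤
      ch P z G + ch P T (fun c => (z c, G c)) + ch P a G + ch P a' G ∧
    ch P (fun c => (T c, a c, a' c)) (fun c => (A c, G c)) ≤
      ch P T G + ch P a G + ch P r G + ch P a' fun c => (r c, a c, G c) := by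
  have h1 : ch P (fun c => (T c, a c, a' c)) (fun c => (A c, G c)) ≤
      ch P (fun c => (T c, a c, a' c)) G := ch_anti (Fn.snd A G)
  have h2 := ch_subadd (P := P) T (fun c => (a c, a' c)) G
  have h3 := ch_subadd (P := P) a a' G
  have h4 := ch_chain (P := P) T (fun c => (a c, a' c)) G
  have h5 := ch_chain (P := P) a a' G
  have h6 := mi_near (P := P) A (fun c => (d c, w c)) (fun c => (T c, a c, a' c)) G
  have h7 := mi_symm (P := P) A (fun c => (T c, a c, a' c)) G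
  have h8 := ch_subadd (P := P) d w fun c => ((T c, a c, a' c), G c)
  have h9 : ch P d (fun c => ((T c, a c, a' c), G c)) ≤ ch P d fun c => (T c, G c) :=
    ch_anti fun _ _ _ _ e => by simp only [Prod.mk.injEq] at e ⊢; tauto
  have h10 : ch P w (fun c => ((T c, a c, a' c), G c)) ≤ ch P w fun c => ((a c, a' c), G c) :=
    ch_anti fun _ _ _ _ e => by simp only [Prod.mk.injEq] at e ⊢; tauto
  have h11 := mi_near (P := P) d w (fun c => (a c, a' c)) G
  have h12 := mi_symm (P := P) d (fun c => (a c, a' c)) G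
  have h13 := mi_near (P := P) (fun c => (a c, a' c)) d T G
  have h14 := ch_tri (P := P) T z G
  have h15 := ch_tri (P := P) a' r fun c => (a c, G c)
  have h16 : ch P r (fun c => (a c, G c)) ≤ ch P r G := ch_anti (Fn.snd a G)
  unfold mi at *
  beta_reduce at *
  refine ⟨?_, ?_, ?_, ?_⟩ <;> linarith

theorem near {B j : ℕ} {x y : ℝ} (e : j ≤ B) (h : |rd B x - rd B y| ≤ 1 / 2 ^ j) :
    |x - y| ≤ 3 / 2 ^ j := by
  have h1 := abs_le.1 ((abs_sub_rd B x).trans (div_pow_le zero_le_one e))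
  have h2 := abs_le.1 ((abs_sub_rd B y).trans (div_pow_le zero_le_one e))
  have h3 := abs_le.1 h
  rw [show (3 : ℝ) / 2 ^ j = 3 * (1 / 2 ^ j) by ring, abs_le]
  constructor <;> linarith

variable (X : U3) (R q ρ B : ℕ)

theorem l11 : Law (X.P4 R q ρ B) (fun c => c.1.1) X.P id :=
  ((kg.fst _ _ _ _).comp Prod.fst).trans (kg.fst _ _ _ _)

theorem l12 : Law (X.P4 R q ρ B) (fun c => c.1.2) X.P id :=
  ((kg.fst _ _ _ _).comp Prod.snd).trans (kg.snd _ _ _ _ (Law.rfl _))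

theorem l21 : Law (X.P4 R q ρ B) (fun c => c.2.1) X.P id :=
  ((kg.snd _ _ _ _ (Law.rfl _)).comp Prod.fst).trans (kg.fst _ _ _ _)

variable {X R q ρ B}

theorem th {c : (X.Ω × X.Ω) × X.Ω × X.Ω} (h : c ∈ (X.P4 R q ρ B).S) :
    X.Θ R q ρ B c.2.1 = X.Θ R q ρ B c.1.1 := congrArg Prod.fst ((mem_copy _ _ c).1 h).2.2

theorem hd {τ : ℕ → ℕ} {D R' : ℕ} {L : ℝ} (h : X.Alg τ D R' L) (e : q ≤ B) :
    ch (X.P4 R q ρ B) (X.dd R ρ B) (fun c => (fl1 B (X.t c.1.2), X.Θ R q ρ B c.1.1)) ≤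
      ch X.P (X.gz R ρ) fun ω => (fl1 q (X.t ω), X.Xq q ω) := by
  rw [← (l12 X R q ρ B).ch_id]
  refine ch_le (fun v _ w _ k => ?_) fun v hv w hw k => ?_
  · simp only [Prod.mk.injEq, U3.dd] at k ⊢
    exact ⟨k.2.1, k.1⟩
  · obtain ⟨v1, v2, v3⟩ := (mem_copy _ _ v.1).1 ((mem_copy _ _ v).1 hv).1
    obtain ⟨w1, w2, w3⟩ := (mem_copy _ _ w.1).1 ((mem_copy _ _ w).1 hw).1
    simp only [Prod.mk.injEq, U3.Θ, U3.Xq] at k ⊢
    rw [h.al _ v2 _ v1 v3, h.al _ w2 _ w1 w3, h.wl _ v2 _ v1 v3, h.wl _ w2 _ w1 w3,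
      h.sl _ v2 _ v1 v3, h.sl _ w2 _ w1 w3]
    exact ⟨fl1_eq_of_le e k.1, k.2.2.1, fl1_eq_of_le e k.2.2.2.1, k.2.1⟩

theorem hw : ch (X.P4 R q ρ B) (X.ww q ρ B)
    (fun c => ((fl1 B (X.a c.1.1), fl1 B (X.a c.2.1)), X.Θ R q ρ B c.1.1)) ≤
      2 * ch X.P (fun ω => fl1 (q + ρ) (X.b ω)) fun ω =>
        (fl1 B (X.a ω), fl1 B (X.w ω), X.S 0 ω) := by
  rw [two_mul]
  refine (ch_mono (F' := fun c => (fl1 (q + ρ) (X.b c.1.1), fl1 (q + ρ) (X.b c.2.1)))
    fun v _ w _ k => ?_).trans ((ch_subadd _ _ _).trans (add_le_add ?_ ?_))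
  · simp only [Prod.mk.injEq, U3.ww] at k ⊢
    exact ⟨k.2.1.1, k.2.1.2, k.1⟩
  · rw [← (l11 X R q ρ B).ch_id]
    refine ch_anti fun v _ w _ k => ?_
    simp only [Prod.mk.injEq, U3.Θ] at k ⊢
    exact ⟨k.1.1, k.2.2.2.1, k.2.1⟩
  · rw [← (l21 X R q ρ B).ch_id]
    refine ch_anti fun v hv w hw k => ?_
    simp only [← th hv, ← th hw] at k
    simp only [Prod.mk.injEq, U3.Θ] at k ⊢
    exact ⟨k.1.2, k.2.2.2.1, k.2.1⟩

end URcEA

open URcEA in
theorem rowRcE : RcEA := by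
  intro γ e η X R m q ρ B L h hL hJ
  have hR := h.tan.big
  have s1 := hR.sub (le_refl (1 : ℝ))
  have s3 := hR.sub (show (1 : ℝ) ≤ 3 by norm_num)
  have qB : ∀ n, q n ≤ B n := fun n => by have := (h.le n).1; omega
  have ρB : ∀ n, ρ n ≤ B n := fun n => by have := (h.le n).1; omega
  have u1 := le_fl1 (P := PP4 X R q ρ B) (x := fun n c => (X n).t c.1.2) (j := fun _ => 0) (k := B)
    (G := fun n c => (X n).Θ (R n) (q n) (ρ n) (B n) c.1.1) hR s1 (fun _ => Nat.zero_le _)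
    (h.alg.mono fun n hn v hv w hw _ => near_of_fl1
      ((hn.t0 ((l12 _ _ _ _ _).mem hv)).trans (hn.t0 ((l12 _ _ _ _ _).mem hw)).symm))
  have u2 := le_fl1 (P := PP4 X R q ρ B) (x := fun n c => (X n).a c.1.1) (j := q) (k := B)
    (G := fun n c => (X n).Θ (R n) (q n) (ρ n) (B n) c.1.1) hR s1 qB
    (Eventually.of_forall fun n v _ w _ k => near_of_fl1 (congrArg (·.2.1) k))
  have u3 := le_fl1 (P := PP4 X R q ρ B) (x := fun n c => (X n).a c.2.1) (j := q) (k := B)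
    (G := fun n c => (X n).Θ (R n) (q n) (ρ n) (B n) c.1.1) hR s1 qB
    (Eventually.of_forall fun n v hv w hw k => near_of_fl1
      (congrArg (·.2.1) ((th hv).trans (k.trans (th hw).symm))))
  have u4 := le_fl1 (P := PP4 X R q ρ B) (x := fun n c => (X n).t c.1.2) (j := ρ) (k := B)
    (G := fun n c => (fl1 (ρ n) (rd (B n) ((X n).t c.1.1) - rd (B n) ((X n).t c.1.2)),
      (X n).Θ (R n) (q n) (ρ n) (B n) c.1.1)) hR s3 ρB
    (Eventually.of_forall fun n v _ w _ k => near (ρB n) (by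
      have k1 := near_of_fl1 (congrArg Prod.fst k)
      have k2 := rd_congr (congrArg (·.2.2.2.2.1) k :
        fl1 (B n) ((X n).t v.1.1) = fl1 (B n) ((X n).t w.1.1))
      rwa [k2, sub_sub_sub_cancel_left, abs_sub_comm] at k1))
  have u5 := le_fl1 (P := PP4 X R q ρ B) (x := fun n c => (X n).a c.2.1)
    (j := fun n => q n + ρ n) (k := B)
    (G := fun n c => (fl1 (ρ n) (2 ^ q n * (rd (B n) ((X n).a c.1.1) - rd (B n) ((X n).a c.2.1))),
      fl1 (B n) ((X n).a c.1.1), (X n).Θ (R n) (q n) (ρ n) (B n) c.1.1)) hR s3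
    (fun n => (h.le n).1) (Eventually.of_forall fun n v _ w _ k => near (h.le n).1 (by
      have k1 := near_of_fl1 ((fl1_two_pow _ _ _).symm.trans
        ((congrArg Prod.fst k).trans (fl1_two_pow _ _ _)))
      have k2 := rd_congr (congrArg (·.2.1) k :
        fl1 (B n) ((X n).a v.1.1) = fl1 (B n) ((X n).a w.1.1))
      rwa [k2, sub_sub_sub_cancel_left, abs_sub_comm] at k1))
  have g := fun n => gen (PP4 X R q ρ B n) (fun c => (X n).A (R n) (q n) (ρ n) c.1.1)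
    (fun c => fl1 (B n) ((X n).t c.1.2)) (fun c => fl1 (B n) ((X n).a c.1.1))
    (fun c => fl1 (B n) ((X n).a c.2.1))
    (fun c => fl1 (ρ n) (rd (B n) ((X n).t c.1.1) - rd (B n) ((X n).t c.1.2)))
    (fun c => fl1 (ρ n) (2 ^ q n * (rd (B n) ((X n).a c.1.1) - rd (B n) ((X n).a c.2.1))))
    (fun c => (X n).Θ (R n) (q n) (ρ n) (B n) c.1.1) ((X n).dd (R n) (ρ n) (B n))
    ((X n).ww (q n) (ρ n) (B n))
  refine ⟨Le.of6 u1 u2 u3 hJ.j1 hL (h.lip.smul zero_le_two) (h.alg.mono fun n hn => ?_),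
    Le.of6 u1 u2 u3 hJ.j1 hL (h.lip.smul zero_le_two) (h.alg.mono fun n hn => ?_),
    Le.of4 hJ.j1 u4 u2 u3 (Eventually.of_forall fun n => ?_),
    Le.of4 hJ.j1 u1 u2 u5 (Eventually.of_forall fun n => ?_)⟩
  · have := (g n).1
    have := hd (R := R n) (ρ := ρ n) hn (qB n)
    have := hw (X := X n) (R := R n) (q := q n) (ρ := ρ n) (B := B n)
    push_cast
    linarith
  · have := (g n).2.1
    have := hd (R := R n) (ρ := ρ n) hn (qB n)
    have := hw (X := X n) (R := R n) (q := q n) (ρ := ρ n) (B := B n)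
    push_cast
    linarith
  · linarith [(g n).2.2.1]
  · push_cast
    linarith [(g n).2.2.2]

end Pool.Agent.MP_5168f5_an.R4.U
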