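import Pool.Agent.MP_5168f5_an.R4.USpec

/-! Kakeya sets in four dimensions, the step for planes: the rectangle closes. -/

namespace Pool.Agent.MP_5168f5_an.R4.U

open H19 H17S H17F Filter K31

namespace URctA

theorem sub_near {x y x' y' δ : ℝ} (h : |x - x'| ≤ δ) (h' : |y - y'| ≤ δ) :
    |x - y - (x' - y')| ≤ 2 * δ := by
  rw [abs_le] at *
  constructor <;> linarith [h.1, h.2, h'.1, h'.2]

theorem mul_near {x y K δ : ℝ} (h : |x| ≤ K) (h' : |y| ≤ δ) : |x * y| ≤ K * δ := by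
  rw [abs_mul]
  exact mul_le_mul h h' (abs_nonneg _) ((abs_nonneg _).trans h)

theorem rd_near {i j : ℕ} (h : i ≤ j) (x y : ℝ) : |x - y - (rd j x - rd j y)| ≤ 2 * (1 / 2 ^ i) :=
  sub_near ((abs_sub_rd j x).trans (div_pow_le zero_le_one h))
    ((abs_sub_rd j y).trans (div_pow_le zero_le_one h))

theorem scale {q k : ℕ} {x K : ℝ} (h : |x| ≤ K * (1 / 2 ^ (q + k))) : |2 ^ q * x| ≤ K / 2 ^ k := by
  refine (mul_near (abs_of_pos (by positivity)).le h).trans (le_of_eq ?_)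
  rw [pow_add]
  field_simp

theorem rd_scale {q j : ℕ} (h : q ≤ j) {x y : ℝ} (e : fl1 q x = fl1 q y) :
    |2 ^ q * (rd j x - rd j y)| ≤ 3 := by
  have h1 := abs_le.1 (rd_near h x y)
  have h2 := abs_le.1 (near_of_fl1 e)
  have := scale (q := q) (k := 0) (x := rd j x - rd j y) (K := 3)
    (abs_le.2 ⟨by rw [add_zero]; linarith [h1.1, h1.2, h2.1, h2.2],
      by rw [add_zero]; linarith [h1.1, h1.2, h2.1, h2.2]⟩)
  simpa using this

theorem pi_scale {q : ℕ} {x y : ℝ} (e : fl1 q x = fl1 q y) : |2 ^ q * x - 2 ^ q * y| ≤ 1 := by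
  have := scale (q := q) (k := 0) (x := x - y) (K := 1) (by simpa using near_of_fl1 e)
  simpa [mul_sub] using this

variable {X : U3} {τ : ℕ → ℕ} {D R' R q ρ B : ℕ} {L : ℝ}

theorem sup (h : X.Alg τ D R' L) (hL : 1 ≤ L) (hB : q + ρ ≤ B) {c : (X.Ω × X.Ω) × X.Ω × X.Ω}
    (hc : c ∈ (X.P4 R q ρ B).S) : (c.1.1 ∈ X.P.S ∧ c.1.2 ∈ X.P.S) ∧
    X.Θ R q ρ B c.2.1 = X.Θ R q ρ B c.1.1 ∧
    |X.π R q ρ c.1.1 - X.π R q ρ c.2.1 - ((X.t c.1.1 - X.t c.1.2) * (X.b c.1.1 - X.b c.2.1) -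
      (X.G R ρ c.1.1 - X.G R ρ c.1.2) * (X.a c.1.1 - X.a c.2.1))| ≤ 3 * L * (1 / 2 ^ (q + ρ)) := by
  obtain ⟨⟨x1, x2⟩, x3, x4⟩ := c
  obtain ⟨h1, h2, e⟩ := (mem_copy _ _ _).1 hc
  obtain ⟨m1, m2, e1⟩ := (mem_copy _ _ _).1 h1
  obtain ⟨m3, m4, e2⟩ := (mem_copy _ _ _).1 h2
  simp only [U3.φ, Prod.mk.injEq] at e
  obtain ⟨k0, k1, k2, k3⟩ := e
  refine ⟨⟨m1, m2⟩, k0, ?_⟩
  simp only [U3.Θ, Prod.mk.injEq] at k0
  obtain ⟨-, k4, -, k5, k6, -, -⟩ := k0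
  have a1 : X.a x2 = X.a x1 := h.al _ m2 _ m1 e1
  have a2 : X.a x4 = X.a x3 := h.al _ m4 _ m3 e2
  have n1 : X.n x2 = X.n x1 := h.nl _ m2 _ m1 e1
  have n2 : X.n x4 = X.n x3 := h.nl _ m4 _ m3 e2
  have b1 : X.b x2 = X.b x1 := h.bl _ m2 _ m1 e1
  have b2 : X.b x4 = X.b x3 := h.bl _ m4 _ m3 e2
  have g1 : X.G R ρ x3 = X.G R ρ x1 := rd_congr k6
  have g2 : X.G R ρ x4 = X.G R ρ x2 := rd_congr k2
  have p1 := abs_le.1 (near_of_fl1 k3)
  have p2 := abs_le.1 (mul_near (h.bd _ m3).2.2.2.1 (sub_near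
    ((near_of_fl1 k5).trans (div_pow_le zero_le_one hB))
    ((near_of_fl1 k1).trans (div_pow_le zero_le_one hB))))
  have p3 : (1 : ℝ) / 2 ^ (q + ρ) ≤ L * (1 / 2 ^ (q + ρ)) :=
    le_mul_of_one_le_left (by positivity) hL
  simp only [U3.π, U3.u, U3.r, a1, a2, n1, n2, b1, b2, g1, g2, rd_congr k4] at p1 ⊢
  rw [abs_le]
  constructor <;> linarith [p1.1, p1.2, p2.1, p2.2]

theorem law1 (X : U3) (R q ρ B : ℕ) : Law (X.P4 R q ρ B) (fun c => c.1.1) X.P id :=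
  ((kg.fst _ _ _ _).comp Prod.fst).trans (kg.fst _ _ _ _)

theorem law2 (X : U3) (R q ρ B : ℕ) : Law (X.P4 R q ρ B) (fun c => c.2.1) X.P id :=
  ((kg.snd _ _ _ _ (Law.rfl _)).comp Prod.fst).trans (kg.fst _ _ _ _)

end URctA

open URctA in
theorem rowRct : RctA := by
  intro e₀ h0 h1
  obtain ⟨c₀, hc, H⟩ := NCx.nc1 h0 h1
  refine ⟨min c₀ 1, lt_min hc one_pos, fun γ e η X R m q ρ B L h he hE hN σ hσ => ?_⟩
  subst he
  have hρ := h.tan.big.frac h.frac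
  have key := H (P := PP4 X R q ρ B) (Θ := fun n c => (X n).Θ (R n) (q n) (ρ n) (B n) c.1.1)
    (u := fun n c => 2 ^ q n * (X n).π (R n) (q n) (ρ n) c.1.1)
    (u' := fun n c => 2 ^ q n * (X n).π (R n) (q n) (ρ n) c.2.1)
    (g := fun n c => -((X n).G (R n) (ρ n) c.1.1 - (X n).G (R n) (ρ n) c.1.2))
    (p := fun n c => 2 ^ q n * (rd (q n + ρ n) ((X n).b c.1.1) - rd (q n + ρ n) ((X n).b c.2.1)))
    (ζ := fun n c => rd (B n) ((X n).t c.1.1) - rd (B n) ((X n).t c.1.2))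
    (r := fun n c => 2 ^ q n * (rd (B n) ((X n).a c.1.1) - rd (B n) ((X n).a c.2.1)))
    (fun n => (X n).dd (R n) (ρ n) (B n)) (fun n => (X n).ww (q n) (ρ n) (B n)) hρ
    ((h.sub.frac h.frac).const_mul hρ (by norm_num : (1 : ℝ) ≤ 21))
    (NCx.NG1.pull (P := PP X) (P₁ := PP4 X R q ρ B) (σ := fun _ c => c.1.1)
      (Θ := fun n => (X n).Θ (R n) (q n) (ρ n) (B n))
      (u := fun n ω => 2 ^ q n * (X n).π (R n) (q n) (ρ n) ω) hN
      fun n => law1 (X n) (R n) (q n) (ρ n) (B n)) ?_ (Whp.of_ev ?_) (Le.of_ev ?_) ?_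
    (hE.m2.frac h.frac) (hE.f1.frac h.frac) (Or.inl (hE.f2.frac h.frac))
  · refine ⟨_, h.sub.const_mul h.tan.big (by norm_num : (1 : ℝ) ≤ 4), key.mono ?_⟩
    filter_upwards [h.alg] with n a c hc k
    have l1 := h.sub.1 n
    have s1 : (σ n : ℝ) ≤ c₀ * ρ n :=
      (hσ n).trans (mul_le_mul_of_nonneg_right (min_le_left _ _) (Nat.cast_nonneg _))
    have s2 : σ n ≤ ρ n := by
      have := (hσ n).trans (mul_le_mul_of_nonneg_right (min_le_right _ _) (Nat.cast_nonneg _))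
      rw [one_mul] at this
      exact_mod_cast this
    have s3 : Real.exp (-(c₀ * ρ n)) ≤ 1 / 2 ^ σ n := by
      rw [Real.exp_neg, one_div]
      refine inv_anti₀ (by positivity) (le_trans ?_ (Real.exp_le_exp.2 s1))
      rw [← Real.exp_one_pow]
      exact pow_le_pow_left₀ zero_le_two (by linarith [Real.add_one_le_exp 1]) _
    have k1 : |(X n).π (R n) (q n) (ρ n) c.1.1 - (X n).π (R n) (q n) (ρ n) c.2.1|
        ≤ 1 / 2 ^ (q n + σ n) := by
      have := k.trans s3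
      rw [← mul_sub, abs_mul, abs_of_pos (by positivity), ← le_div_iff₀' (by positivity)] at this
      rwa [pow_add, mul_comm, ← div_div]
    have k2 := abs_le.1 (sup a l1 (h.le n).1 hc).2.2
    have k3 : L n * (1 / 2 ^ (q n + ρ n)) ≤ L n * (1 / 2 ^ (q n + σ n)) :=
      mul_le_mul_of_nonneg_left (div_pow_le zero_le_one (by omega)) (by linarith)
    have k4 : (1 : ℝ) / 2 ^ (q n + σ n) ≤ L n * (1 / 2 ^ (q n + σ n)) :=
      le_mul_of_one_le_left (by positivity) l1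
    rw [abs_le] at k1
    rw [div_eq_mul_one_div, abs_le]
    constructor <;> linarith [k1.1, k1.2, k2.1, k2.2]
  · filter_upwards [h.alg] with n a
    have l1 := h.sub.1 n
    refine ⟨fun v _ w _ e => ?_, fun v _ w _ e => ?_, fun c hc => ?_, fun v hv w hw e => ?_⟩
    · simp only [U3.dd, U3.Θ, Prod.mk.injEq] at e
      obtain ⟨⟨k1, k2⟩, -, -, -, k3, k4, -⟩ := e
      simp only [U3.G, rd_congr k1, rd_congr k2, rd_congr k3, rd_congr k4]
    · simp only [U3.ww, Prod.mk.injEq] at e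
      obtain ⟨⟨k1, k2, k3, k4⟩, -⟩ := e
      simp only [rd_congr k1, rd_congr k2, rd_congr k3, rd_congr k4]
    · obtain ⟨⟨m1, m2⟩, k, -⟩ := sup a l1 (h.le n).1 hc
      refine ⟨(abs_sub _ _).trans ?_, (rd_scale (le_of_add_le_left (h.le n).1)
        (congrArg (·.2.1) k).symm).trans (by linarith)⟩
      linarith [abs_rd (B n) ((X n).t c.1.1), abs_rd (B n) ((X n).t c.1.2), a.abs_t m1, a.abs_t m2]
    · have k := ((sup a l1 (h.le n).1 hv).2.1.trans e).trans (sup a l1 (h.le n).1 hw).2.1.symm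
      exact ⟨(pi_scale (congrArg (·.2.2.2.2.2.2) e)).trans (by linarith),
        (pi_scale (congrArg (·.2.2.2.2.2.2) k)).trans (by linarith)⟩
  · filter_upwards [h.alg, h.slp] with n a s c hc
    have l1 := h.sub.1 n
    obtain ⟨⟨m1, m2⟩, k, k2⟩ := sup a l1 (h.le n).1 hc
    have g1 : |(X n).G (R n) (ρ n) c.1.1 - (X n).G (R n) (ρ n) c.1.2| ≤ 4 * L n :=
      (abs_sub _ _).trans (by
        unfold U3.G
        linarith [abs_rd (ρ n) ((X n).px (R n) c.1.1), abs_rd (ρ n) ((X n).px (R n) c.1.2),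
          (s _ m1).2.1, (s _ m2).2.1])
    have kb : fl1 (q n) ((X n).b c.1.1) = fl1 (q n) ((X n).b c.2.1) :=
      (congrArg (·.2.2.2.2.2.1) k).symm
    refine ⟨by rw [abs_neg]; linarith, (rd_scale (Nat.le_add_right _ _) kb).trans (by linarith), ?_⟩
    have t1 : |rd (B n) ((X n).t c.1.1) - rd (B n) ((X n).t c.1.2)| ≤ 4 :=
      (abs_sub _ _).trans (by
        linarith [abs_rd (B n) ((X n).t c.1.1), abs_rd (B n) ((X n).t c.1.2), a.abs_t m1,
          a.abs_t m2])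
    have t2 : |(X n).b c.1.1 - (X n).b c.2.1| ≤ 1 :=
      ((near_of_fl1 kb).trans (div_pow_le zero_le_one (Nat.zero_le _))).trans (by norm_num)
    have p1 := abs_le.1 (mul_near t1 (rd_near (le_refl (q n + ρ n)) ((X n).b c.1.1) ((X n).b c.2.1)))
    have p2 := abs_le.1 (mul_near t2 (rd_near (h.le n).1 ((X n).t c.1.1) ((X n).t c.1.2)))
    have p3 := abs_le.1 (mul_near g1 (rd_near (h.le n).1 ((X n).a c.1.1) ((X n).a c.2.1)))
    have p4 : (1 : ℝ) / 2 ^ (q n + ρ n) ≤ L n * (1 / 2 ^ (q n + ρ n)) :=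
      le_mul_of_one_le_left (by positivity) l1
    rw [abs_le] at k2
    refine le_trans (le_of_eq (congrArg _ ?_)) (scale (q := q n) (x :=
      (X n).π (R n) (q n) (ρ n) c.1.1 - (X n).π (R n) (q n) (ρ n) c.2.1 -
      ((rd (B n) ((X n).t c.1.1) - rd (B n) ((X n).t c.1.2)) *
        (rd (q n + ρ n) ((X n).b c.1.1) - rd (q n + ρ n) ((X n).b c.2.1)) -
      ((X n).G (R n) (ρ n) c.1.1 - (X n).G (R n) (ρ n) c.1.2) *
        (rd (B n) ((X n).a c.1.1) - rd (B n) ((X n).a c.2.1)))) ?_)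
    · ring
    · rw [abs_le]
      constructor <;> linarith [k2.1, k2.2, p1.1, p1.2, p2.1, p2.2, p3.1, p3.2]
  · filter_upwards [h.alg] with n a
    have l1 := h.sub.1 n
    refine le_trans (ch_anti (G := fun c => (X n).Θ (R n) (q n) (ρ n) (B n) c.2.1)
      fun v hv w hw e => ((sup a l1 (h.le n).1 hv).2.1.trans e).trans
        (sup a l1 (h.le n).1 hw).2.1.symm) (le_of_eq ?_)
    exact ((law2 _ _ _ _ _).ch_id (fun ω => fl1 (ρ n) (2 ^ q n * (X n).π (R n) (q n) (ρ n) ω))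
      ((X n).Θ (R n) (q n) (ρ n) (B n))).trans ((law1 _ _ _ _ _).ch_id _ _).symm
  · simp only [fl1_two_pow]
    exact hE.m1.frac h.frac

end Pool.Agent.MP_5168f5_an.R4.U
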