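import Pool.Agent.MP_5168f5_an.R4.USpec

/-! Kakeya sets in four dimensions, the step for planes: refinements. -/

namespace Pool.Agent.MP_5168f5_an.R4.U

open H19 H17S H17F Filter K31

namespace URefA

theorem det_ref {Ω β : Type} {P : FP Ω} {x : Ω → ℝ} {G : Ω → β} {j i : ℕ}
    (h : Fn P (fun ω => fl1 j (x ω)) G) : Det P (fun ω => fl1 (j + i) (x ω)) G (2 ^ i) := by
  intro a ha
  refine ⟨Finset.Ico (2 ^ i * fl1 j (x a)) (2 ^ i * fl1 j (x a) + 2 ^ i), ?_,
    fun b hb e => fl1_mem_Ico (h b hb a ha e)⟩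
  rw [Int.card_Ico, add_sub_cancel_left, show ((2 : ℤ) ^ i) = ((2 ^ i : ℕ) : ℤ) by push_cast; rfl,
    Int.toNat_natCast]
  push_cast; exact le_rfl

theorem det_pair {Ω α α' β : Type} {P : FP Ω} {F : Ω → α} {F' : Ω → α'} {G : Ω → β} {B B' : ℝ}
    (h : Det P F G B) (h' : Det P F' G B') : Det P (fun ω => (F ω, F' ω)) G (B * B') := by
  intro a ha
  obtain ⟨T, h1, h2⟩ := h a ha
  obtain ⟨T', h3, h4⟩ := h' a ha
  refine ⟨T ×ˢ T', ?_, fun b hb e => Finset.mem_product.2 ⟨h2 b hb e, h4 b hb e⟩⟩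
  rw [Finset.card_product]; push_cast
  exact mul_le_mul h1 h3 (Nat.cast_nonneg _) ((Nat.cast_nonneg _).trans h1)

variable {W W' B : ℕ → Type} {P : ∀ n, FP (W n)} {Q : ∀ n, FP (W' n)} {ρ : ∀ n, W' n → W n}
  {M j k : ℕ → ℕ} {x y : ∀ n, W n → ℝ} {G : ∀ n, W n → B n} {D : ℕ → ℝ}

theorem full1 (h : DnS Q ρ P) (hM : Big M) (e : ∀ n, D n = k n * lg)
    (d : ∀ᶠ n in UF, Fn (P n) (fun ω => fl1 0 (x n ω)) (G n))
    (c : Le M D fun n => ch (P n) (fun ω => fl1 (k n) (x n ω)) (G n)) :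
    Le M D fun n => ch (Q n) (fun v => fl1 (k n) (x n (ρ n v))) fun v => G n (ρ n v) := by
  obtain rfl : D = fun n => Real.log (2 ^ k n) := funext fun n => by rw [e, log_two_pow]
  refine h.full hM (F := fun n ω => fl1 (k n) (x n ω)) (d.mono fun n a => ?_) c
  simpa only [Nat.zero_add] using det_ref (i := k n) a

theorem full2 (h : DnS Q ρ P) (hM : Big M) (hj : ∀ n, j n ≤ k n)
    (e : ∀ n, D n = 2 * (k n - j n : ℝ) * lg)
    (d : ∀ᶠ n in UF, Fn (P n) (fun ω => fl1 (j n) (x n ω)) (G n) ∧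
      Fn (P n) (fun ω => fl1 (j n) (y n ω)) (G n))
    (c : Le M D fun n => ch (P n) (fun ω => (fl1 (k n) (x n ω), fl1 (k n) (y n ω))) (G n)) :
    Le M D fun n => ch (Q n) (fun v => (fl1 (k n) (x n (ρ n v)), fl1 (k n) (y n (ρ n v))))
      fun v => G n (ρ n v) := by
  obtain rfl : D = fun n => Real.log (2 ^ (k n - j n) * 2 ^ (k n - j n)) := funext fun n => by
    rw [e, ← pow_add, log_two_pow, Nat.cast_add, Nat.cast_sub (hj n)]; ring
  refine h.full hM (F := fun n ω => (fl1 (k n) (x n ω), fl1 (k n) (y n ω))) (d.mono fun n a => ?_) c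
  simpa only [Nat.add_sub_cancel' (hj n)] using
    det_pair (det_ref (i := k n - j n) a.1) (det_ref (i := k n - j n) a.2)

theorem thn {X : ℕ → U3} {W : ℕ → Type} {Q : ∀ n, FP (W n)} {ρ : ∀ n, W n → (X n).Ω}
    {m j th : ℕ → ℕ} (h : DnS Q ρ (PP X)) (k : Thn (fun n => (X n).pull (Q n) (ρ n)) m j th) :
    Thn X m j th := by
  obtain ⟨W', Λ, Q', ρ', lam, d, h1, h2, h3, h4⟩ := k
  exact ⟨W', Λ, Q', fun n v => ρ n (ρ' n v), lam, d, h1.trans h, h2, h3, h4⟩

theorem alg {X : ℕ → U3} {W : ℕ → Type} {Q : ∀ n, FP (W n)} {ρ : ∀ n, W n → (X n).Ω}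
    {τ : ℕ → ℕ → ℕ} {D R M : ℕ → ℕ} (h : DnS Q ρ (PP X))
    (k : ∃ L, Sub M L ∧ ∀ᶠ n in UF, (X n).Alg (τ n) (D n) (R n) (L n)) :
    ∃ L, Sub M L ∧ ∀ᶠ n in UF, ((X n).pull (Q n) (ρ n)).Alg (τ n) (D n) (R n) (L n) := by
  obtain ⟨L, a, b⟩ := k
  obtain ⟨C, -, c⟩ := h
  exact ⟨L, a, (b.and c).mono fun n u => u.1.dn u.2⟩

end URefA

open URefA in
theorem rowRef : Ref := by
  intro γ e η X R m W Q ρ h k
  obtain ⟨L, -, a⟩ := h.alg
  refine ⟨h.par, h.big, h.bigm, h.sm, alg (τ := fun _ => tau γ) k h.alg, ?_, ?_, fun j hj => ?_, ?_,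
    fun j hj => ?_, fun j hj => ?_, fun α hα => ?_, fun β lam hb => ?_, ?_,
    fun j th hj t => h.opt j th hj (thn k t)⟩
  · have := k.sm_mi h.big h.inf
    exact this
  · have := full1 k h.big (fun _ => rfl)
      (a.mono fun n u v hv w hw _ => (u.t0 hv).trans (u.t0 hw).symm) h.hgt
    exact this
  · have := k.sm_mi h.bigm (h.hk j hj)
    exact this
  · have := k.sm_mi h.bigm h.lk
    exact this
  · have := full2 k h.big hj (fun _ => rfl)
      (a.mono fun n u => ⟨u.tS le_rfl (hj n), u.xS le_rfl (hj n)⟩) (h.xs j hj)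
    exact this
  · have := k.sm_mi h.big (h.xz j hj)
    exact this
  · have := (h.br α hα).ref k
    exact this
  · have := (h.ng β lam hb).ref k
    exact this
  · have := k.sm_mi h.big h.typ
    exact this

open URefA in
theorem rowRefP : RefP := by
  intro γ e η X τ D j₀ R m W Q ρ h k
  obtain ⟨L, -, a⟩ := h.alg
  refine ⟨h.par, h.big, h.bigm, h.sm, alg k h.alg, h.thick, ?_, ?_, fun j hj => ?_, ?_,
    fun j hj => ?_, fun j hj => ?_, fun α hα => ?_, fun β lam hb => ?_, ?_,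
    fun j th hj t => h.opt j th hj (thn k t)⟩
  · have := k.sm_mi h.big h.inf
    exact this
  · have := full1 k h.big (k := fun n => j₀ n + R n) (fun _ => by push_cast; rfl)
      (a.mono fun n u v hv w hw _ => (u.t0 hv).trans (u.t0 hw).symm) h.hgt
    exact this
  · have := k.sm_mi h.bigm (h.hk j hj)
    exact this
  · have := k.sm_mi h.bigm h.lk
    exact this
  · have := full2 k h.big (j := fun n => j₀ n + j n) (k := fun n => j₀ n + R n)
      (fun n => Nat.add_le_add_left (hj n) _) (fun _ => by push_cast; ring)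
      (a.mono fun n u => ⟨u.tS le_rfl (Nat.add_le_add_left (hj n) _),
        u.xS le_rfl (Nat.add_le_add_left (hj n) _)⟩) (h.xs j hj)
    exact this
  · have := k.sm_mi h.big (h.xz j hj)
    exact this
  · have := (h.br α hα).ref k
    exact this
  · have := (h.ng β lam hb).ref k
    exact this
  · have := k.sm_mi h.big h.typ
    exact this

end Pool.Agent.MP_5168f5_an.R4.U
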