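import Pool.Agent.MP_5168f5_an.R4.USpec

/-! Kakeya sets in four dimensions, the step for planes: three facts on pairs of copies. -/

namespace Pool.Agent.MP_5168f5_an.R4.U

open H19 H17S H17F Filter K31

namespace URevA

theorem num {l l' w w' s t ε : ℝ} (h1 : 1 ≤ l') (h2 : 1 ≤ l) (h3 : |w| ≤ l)
    (h4 : 1 ≤ l' * 2 ^ 0 * |w - w'|) (h5 : |s + t * w| ≤ ε) (h6 : |s + t * w'| ≤ ε) :
    |s| ≤ 3 * (l' * l) * ε ∧ |t| ≤ 3 * (l' * l) * ε := by
  have e0 : 0 ≤ ε := (abs_nonneg _).trans h5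
  have a1 : |t| * |w - w'| ≤ 2 * ε := by
    rw [← abs_mul, show t * (w - w') = s + t * w - (s + t * w') by ring]
    linarith [abs_sub (s + t * w) (s + t * w')]
  have a2 : |t| ≤ 2 * (l' * ε) := by
    have b1 := mul_le_mul_of_nonneg_left h4 (abs_nonneg t)
    have b2 := mul_le_mul_of_nonneg_left a1 (zero_le_one.trans h1)
    linarith
  have a3 : |s| ≤ ε + |t| * |w| := by
    have := abs_sub (s + t * w) (t * w)
    rw [add_sub_cancel_right, abs_mul] at this
    linarith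
  have a4 : |t| * |w| ≤ 2 * (l' * ε) * l := mul_le_mul a2 h3 (abs_nonneg _) (by positivity)
  have a5 : ε ≤ l' * ε := le_mul_of_one_le_left e0 h1
  have a6 : l' * ε ≤ l' * ε * l := le_mul_of_one_le_right (by positivity) h2
  constructor <;> linarith

end URevA

theorem rowRev : RRev := by
  intro sep W A P w v T R h η ε L hR hη hf hL hT hlow hE
  obtain ⟨L', hL', s⟩ := sep P w v R (fun _ => 0) h η hR hη hf fun α hα => by
    simpa only [zero_add] using hlow α hα
  refine ⟨fun n => 3 * (L' n * L n), (hL'.mul hL).const_mul hR (by norm_num),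
    whp_of_law (fun n => kg.fst (P n) (P n) (v n) (v n))
      (((s.and ((dnS_fst P P v v).whp hE)).and ((dnS_snd P v).whp hE)).mono ?_)⟩
  filter_upwards [hT] with n a c hc b
  obtain ⟨c1, c2, e⟩ := (mem_copy _ _ c).1 hc
  have b2 := b.2
  rw [a.1 _ c2 _ c1 e] at b2
  exact URevA.num (hL'.1 n) (hL.1 n) (a.2 _ c1) b.1.1 b.1.2 b2

theorem rowCol : Col := by
  intro W A P f v R k L C hR hL hD hE
  have s := ks.fano (fun n => glue (P n) (P n) (v n) (v n)) _
    (fun n c => fl1 (k n) (f n c.2)) (fun n c => c.1) R (fun n => 2 * L n + 3) C hR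
    ((hL.const_mul hR one_le_two).add (hR.sub (by norm_num : (1 : ℝ) ≤ 3)) hR) hE
    (hD.mono fun n d => ⟨fun a ha => ?_, fun a ha => ?_⟩)
  · exact s.mono (Eventually.of_forall fun n => (kg.mk1 (P n) (P n) (v n) (v n)
      (fun ω => fl1 (k n) (f n ω)) id (Law.rfl _) (Fn.comp (v n) id)).ge)
  · obtain ⟨-, a2, e⟩ := (mem_copy _ _ a).1 ha
    refine (d _ a2).imp fun T hT => ⟨hT.1, fun b hb e' => ?_⟩
    obtain ⟨-, b2, e''⟩ := (mem_copy _ _ b).1 hb
    exact hT.2 _ b2 (by rw [e, e'', show b.1 = a.1 from e'])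
  · refine ⟨Finset.Icc (fl1 (k n) (f n a.1) - ⌈L n⌉₊) (fl1 (k n) (f n a.1) + ⌈L n⌉₊), ?_,
      fun b _ e h => fl1_mem_Icc ?_⟩
    · rw [Int.card_Icc, show fl1 (k n) (f n a.1) + ⌈L n⌉₊ + 1 - (fl1 (k n) (f n a.1) - ⌈L n⌉₊) =
        ((2 * ⌈L n⌉₊ + 1 : ℕ) : ℤ) by push_cast; ring, Int.toNat_natCast]
      push_cast
      linarith [Nat.ceil_lt_add_one (hL.pos n).le]
    · rw [← show b.1 = a.1 from e, abs_sub_comm, ← div_eq_mul_inv]
      exact h.trans (div_le_div_of_nonneg_right (Nat.le_ceil _) (by positivity))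

theorem rowInd2 : Ind2 := by
  intro Ω α β γ P F S K h
  have l1 := kg.fst P P S S
  have l2 := kg.snd P P S S (Law.rfl _)
  have a1 := ch_subadd (P := glue P P S S) (fun c => F c.1) (fun c => F c.2) fun c => K c.1
  have a2 := l1.ch_id F K
  have a3 : ch (glue P P S S) (fun c => F c.2) (fun c => K c.1) = ch P F K :=
    (ch_ext (fun _ _ => rfl) fun c hc => by
      obtain ⟨c1, c2, e⟩ := (mem_copy _ _ c).1 hc
      exact h _ c1 _ c2 e.symm).trans (l2.ch_id F K)
  have a4 := ch_chain (P := glue P P S S) (fun c => F c.1) (fun c => F c.2)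
    fun c => (S c.1, K c.1)
  have a5 := l1.ch_id F fun ω => (S ω, K ω)
  have a6 := kg.mk1 P P S S F (fun ω => (F ω, S ω, K ω)) (Law.rfl _) ((Fn.fst S K).right F)
  have a7 : ch P F (fun ω => (S ω, K ω)) ≤ ch P F S := ch_anti (Fn.fst S K)
  unfold mi
  linarith

end Pool.Agent.MP_5168f5_an.R4.U
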