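import Pool.Agent.MP_5168f5_an.R4.USpec

/-! Kakeya sets in four dimensions, the step for planes: robust entropy bounds. -/

namespace Pool.Agent.MP_5168f5_an.R4.U

open H19 H17S H17F Filter K31

theorem rowSep1 : Sep1 := by
  intro W A P f v R k δ hR hδ hL
  by_contra hn
  have hp := not_whp hn
  have h1 := hL _ _ _ ((dnS_cE hp).trans (dnS_fst P P v v))
  have h2 := (dnS_cE hp).sm_mi hR (F := fun n c => fl1 (k n) (f n c.1)) (G := fun n c => c.2)
    (K := fun n c => v n c.1) (Le.of_le fun n => by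
      have a := kg.mkv' (P n) (P n) (v n) (v n) (fun ω => fl1 (k n) (f n ω)) (v n) id (Law.rfl _)
        fun _ _ _ _ e => congrArg (v n) e
      have b := (kg.fst (P n) (P n) (v n) (v n)).ch_id (fun ω => fl1 (k n) (f n ω)) (v n)
      have c : ch (P n) (fun ω => fl1 (k n) (f n ω)) (v n) ≤
          ch (P n) (fun ω => fl1 (k n) (f n ω)) fun ω => (v n ω, v n ω) :=
        ch_anti fun _ _ _ _ e => by rw [e]
      exact sub_nonpos.2 (b.trans_le (c.trans_eq a.symm)))
  have h3 := Sm.near1 (x := fun n (c : W n × W n) => f n c.1) (G := fun n c => c.2) (j := k) hR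
    (hR.sub one_le_two) (hp.sure.mono fun n u a ha b hb (e : a.2 = b.2) => by
      have a1 := not_le.1 (u a ha).2
      have b1 := not_le.1 (u b hb).2
      rw [le_div_iff₀' (by positivity)]
      rw [e] at a1
      have := mul_le_mul_of_nonneg_left (abs_sub_le (f n a.1) (f n b.2) (f n b.1))
        (show (0 : ℝ) ≤ 2 ^ k n by positivity)
      rw [abs_sub_comm (f n b.2)] at this
      linarith)
  refine Le.false (f := fun n => δ * R n) (g := fun _ => 0) (h1.of3 h2 h3
    (Eventually.of_forall fun n => ?_)) hR hδ (Eventually.of_forall fun n => by simp)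
  have := ch_le_mi (P := cE (glue (P n) (P n) (v n) (v n)) fun c =>
    ¬1 ≤ 2 ^ k n * |f n c.1 - f n c.2|) (F := fun c => fl1 (k n) (f n c.1)) (G := fun c => c.2)
    (K := fun c => v n c.1) (K' := fun c => c.2) (Fn.fst _ _)
  simp only [id] at this ⊢
  linarith

theorem rowSepL : RSepL := by
  intro hS W A P f v R q h η hR hη hh hL
  refine ks.wsub (fun n => glue (P n) (P n) (v n) (v n))
    (fun n c L => 1 ≤ L * 2 ^ q n * |f n c.1 - f n c.2|) R fun c hc hc1 => ?_
  obtain ⟨-, c1, p1, e1⟩ := hh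
  obtain ⟨-, c2, p2, e2⟩ := hR.frac_floor hc hc1
  have hm := lt_min p1 p2
  have h1 : Le R (fun n => η * min c1 c2 * lg * R n) fun n =>
      η * (min (h n) ⌊c * R n⌋₊ : ℕ) * lg := Le.of_ev (by
    filter_upwards [e1, e2] with n a b
    have r0 : (0 : ℝ) ≤ R n := Nat.cast_nonneg _
    have : min c1 c2 * R n ≤ (min (h n) ⌊c * R n⌋₊ : ℕ) := by
      rw [Nat.cast_min]
      exact le_min ((mul_le_mul_of_nonneg_right (min_le_left _ _) r0).trans a)
        ((mul_le_mul_of_nonneg_right (min_le_right _ _) r0).trans b)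
    linarith [mul_le_mul_of_nonneg_left this (mul_pos hη lg_pos).le])
  have h2 := hS P f v R (fun n => q n + min (h n) ⌊c * R n⌋₊) (η * min c1 c2 * lg) hR
    (mul_pos (mul_pos hη hm) lg_pos)
    (Low.mono (hL (fun n => min (h n) ⌊c * R n⌋₊) fun n => min_le_left _ _) h1)
  refine Whp.mono h2 (Eventually.of_forall fun n ω _ a => a.trans ?_)
  rw [pow_add, mul_comm ((2 : ℝ) ^ q n)]
  refine mul_le_mul_of_nonneg_right (mul_le_mul_of_nonneg_right
    ((two_pow_le_exp _).trans (Real.exp_le_exp.2 ?_)) (by positivity)) (abs_nonneg _)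
  exact (Nat.cast_le.2 (min_le_right _ _)).trans (Nat.floor_le (by positivity))

theorem rowFulL : FulL := by
  intro W A P f v R q B α hR hq hf hB W' Q ρ hD
  have e : ∀ n, q n ≤ B n := fun n => le_self_add.trans (hq n)
  have o : ∀ n, (1 : ℝ) ≤ 2 ^ (B n - q n) := fun n => one_le_pow₀ one_le_two
  have h1 := hD.full hR (F := fun n ω => fl1 (B n) (f n ω)) (G := v)
    (N := fun n => 2 * 2 ^ (B n - q n) + 3) (hf.mono fun n u => det_near1 (by positivity)
      fun a ha b hb k => (near_of_fl1 (u a ha b hb k)).trans_eq (by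
        rw [pow_sub₀ _ two_ne_zero (e n)]; field_simp))
    ((hB.of2 (hR.sm (Real.log 5)) (Eventually.of_forall fun n => by
      have a : Real.log (2 * 2 ^ (B n - q n) + 3) ≤ Real.log (5 * 2 ^ (B n - q n)) :=
        Real.log_le_log (by positivity) (by linarith [o n])
      rw [Real.log_mul (by norm_num) (by positivity), log_two_pow, Nat.cast_sub (e n)] at a
      linarith)))
  refine h1.of_sub (Eventually.of_forall fun n => ?_)
  have a : Real.log (2 ^ (B n - q n)) ≤ Real.log (2 * 2 ^ (B n - q n) + 3) :=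
    Real.log_le_log (by positivity) (by linarith [o n])
  rw [log_two_pow, Nat.cast_sub (e n)] at a
  have b := ch_tri (P := Q n) (fun c => fl1 (B n) (f n (ρ n c)))
    (fun c => fl1 (q n + α n) (f n (ρ n c))) fun c => v n (ρ n c)
  have c := ch_fl1_refine (P := Q n) (x := fun c => f n (ρ n c)) (j := fun _ => q n + α n)
    (i := fun _ => B n - (q n + α n))
    (G := fun c => (fl1 (q n + α n) (f n (ρ n c)), v n (ρ n c)))
    (fun _ _ _ _ _ => rfl) (fun _ _ _ _ _ => rfl) (Fn.fst _ _)
  rw [FP.E_const, Nat.add_sub_cancel' (hq n), Nat.cast_sub (hq n), Nat.cast_add] at c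
  linarith

theorem rowLowV : LowV := by
  intro W W' A A' A'' P F y Q ρ v R D hR hL hD hI W'' Q' σ hD'
  refine (hL _ _ _ (hD'.trans hD)).of2 (hD'.sm_mi hR hI) (Eventually.of_forall fun n => ?_)
  have := ch_le_mi (P := Q' n) (F := fun c => F n (ρ n (σ n c))) (G := fun c => v n (σ n c))
    (K := fun c => y n (ρ n (σ n c))) (K' := fun c => v n (σ n c)) (Fn.fst _ _)
  rw [mi_symm] at this
  linarith

end Pool.Agent.MP_5168f5_an.R4.U
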