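import Pool.Agent.MP_5168f5_an.R4.USpec

/-! There is no tangent system of slope larger than one. -/

namespace Pool.Agent.MP_5168f5_an.R4.U

open H19 H17S H17F Filter K31

namespace USat2A

/-- The constants. -/
theorem par {γ η c : ℝ} (hγ : 1 < γ) (hη : 0 < η) (hc : 0 < c) : ∃ (m₁ m₂ k : ℕ) (ε : ℝ),
    4 ≤ m₁ ∧ 4 ≤ c * m₁ ∧ (m₁ : ℝ) ≤ (γ - 1) * m₂ ∧ (m₂ + 1 : ℝ) ≤ η * (m₂ + k) ∧ 0 < ε ∧
      (γ + 1) * (m₁ + m₂ + k) * ε ≤ 1 / 2 ∧ (m₁ + m₂ + k) * ε ≤ (γ - 1) / 2 := by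
  obtain ⟨m₁, h1⟩ := exists_nat_ge (max 4 (4 / c))
  obtain ⟨m₂, h2⟩ := exists_nat_ge (m₁ / (γ - 1))
  obtain ⟨k, h3⟩ := exists_nat_ge ((m₂ + 1) / η)
  have a1 : (4 : ℝ) ≤ m₁ := (le_max_left _ _).trans h1
  have a2 := (div_le_iff₀ hc).1 ((le_max_right _ _).trans h1)
  have a3 := (div_le_iff₀ (sub_pos.2 hγ)).1 h2
  have a4 := (div_le_iff₀ hη).1 h3
  have a5 : (0 : ℝ) < m₁ + m₂ + k := by positivity
  have a6 : (0 : ℝ) ≤ η * m₂ := by positivity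
  refine ⟨m₁, m₂, k, min (1 / (2 * ((γ + 1) * (m₁ + m₂ + k)))) ((γ - 1) / (2 * (m₁ + m₂ + k))),
    by exact_mod_cast a1, by linarith, by linarith, by linarith,
    lt_min (by positivity) (div_pos (by linarith) (by positivity)), ?_, ?_⟩
  · refine (mul_le_mul_of_nonneg_left (min_le_left _ _) (by positivity)).trans (le_of_eq ?_)
    field_simp
  · refine (mul_le_mul_of_nonneg_left (min_le_right _ _) a5.le).trans (le_of_eq ?_)
    field_simp

theorem frac_mul {R R' α : ℕ → ℕ} (h : Frac α R) (e : ∀ n, R' n ≤ R n) {a : ℕ} (ha : 0 < a)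
    (e' : ∀ n, a * α n ≤ R' n) : Frac (fun n => a * α n) R' := by
  obtain ⟨-, c, hc, h⟩ := h
  refine ⟨e', c, hc, h.mono fun n u => ?_⟩
  have h1 : (R' n : ℝ) ≤ R n := by exact_mod_cast e n
  have h2 : (α n : ℝ) ≤ (a * α n : ℕ) := by exact_mod_cast Nat.le_mul_of_pos_left _ ha
  nlinarith

theorem sure {W : ℕ → Type} {P : ∀ n, FP (W n)} {E : ∀ n, W n → Prop} (h : Whp P E) :
    ∀ᶠ n in UF, ∀ ω ∈ (cE (P n) (E n)).S, E n ω :=
  h.pos.ex.mono fun _ a ω b => ((mem_cE a ω).1 b).2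

end USat2A

open USat2A in
theorem rowSat2 : RSat2 := by
  intro hR hTP hPT hTB hLip hDep hTwo γ e η X R m hγ h
  obtain ⟨-, e0, e1, hη⟩ := h.par
  have g0 : 0 ≤ γ := by linarith
  obtain ⟨c, hc, H⟩ := hTwo e e0 e1
  obtain ⟨m₁, m₂, k, ε, a1, a2, a3, a4, hε, a5, a6⟩ := par hγ hη hc
  have s0 : (4 : ℝ) ≤ m₁ + m₂ + k := by
    have : (4 : ℝ) ≤ m₁ := by exact_mod_cast a1
    have : (0 : ℝ) ≤ m₂ + k := by positivity
    linarith
  have a7 : (m₁ + m₂ + k) * ε ≤ 1 / 4 := by nlinarith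
  have ε1 : ε ≤ 1 := by nlinarith
  have fα := h.big.frac_floor hε ε1
  set α : ℕ → ℕ := fun n => ⌊ε * R n⌋₊ with hα
  set ξ : ℕ → ℕ := fun n => (m₁ + m₂ + k) * α n with hξ
  have b1 : ∀ n, (ξ n : ℝ) ≤ (m₁ + m₂ + k) * ε * R n := fun n => by
    have : (α n : ℝ) ≤ ε * R n := Nat.floor_le (by positivity)
    simp only [hξ]; push_cast; nlinarith
  have b2 : ∀ n, 4 * ξ n ≤ R n := fun n => by
    have h0 : (0 : ℝ) ≤ R n := Nat.cast_nonneg _
    exact_mod_cast (by nlinarith [b1 n] : 4 * (ξ n : ℝ) ≤ R n)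
  have b3 : ∀ n, tau γ (ξ n) + ξ n ≤ R n := fun n => by
    have h0 : (0 : ℝ) ≤ R n := Nat.cast_nonneg _
    have h1 := mul_le_mul_of_nonneg_left (b1 n) (by linarith : 0 ≤ γ + 1)
    exact_mod_cast (by nlinarith [tau_le g0 (ξ n)] : (tau γ (ξ n) : ℝ) + ξ n ≤ R n)
  set R' : ℕ → ℕ := fun n => R n - ξ n with hR'
  have b4 : ∀ n, (R n : ℝ) ≤ 2 * R' n := fun n => by
    have := b2 n
    exact_mod_cast (by simp only [hR']; omega : R n ≤ 2 * R' n)
  have fR : Frac R' R := ⟨fun n => Nat.sub_le _ _, 1 / 2, by norm_num,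
    Eventually.of_forall fun n => by linarith [b4 n]⟩
  have b5 : ∀ n, ξ n ≤ R' n := fun n => by have := b2 n; simp only [hR']; omega
  obtain ⟨L₁, l1, w1⟩ := hTB γ e η X R m ξ ξ h fun n => ⟨le_rfl, by have := b2 n; omega⟩
  have t1 := hR _ _ _ _ _ _ _ _ _ h (dnS_cE w1.pos)
  have s1 := (sure w1).mono fun n a ω b => (a ω b).2.1
  have lip := (hLip _ _ _ _ _ _ ξ L₁ t1 (fun n => by have := b3 n; omega) l1 s1).frac fR
  have t2 := hPT _ _ _ _ _ _ _ _ _ L₁ (hTP _ _ _ _ _ _ ξ R' t1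
    (fun n => by have := b2 n; simp only [hR']; omega) fR) (l1.frac fR) s1
  generalize hX' : (fun n => U3.shift (U3.pull (X n) (cE (PP X n) _) fun ω => id ω) (ξ n)
    (tau γ (ξ n))) = X' at t2
  have lip' : Sm R' fun n => ch (X' n).P (fun ω => fl1 (ξ n) ((X' n).b ω)) fun ω =>
      (fl1 (tau γ (ξ n) - ξ n) ((X' n).a ω), fl1 (tau γ (ξ n)) ((X' n).w ω), (X' n).S 0 ω) := by
    subst hX'; exact lip
  clear lip hX' t1 s1 w1 l1
  obtain ⟨L₂, l2, al2⟩ := t2.alg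
  have c1 : ∀ n, m₂ * α n + k * α n ≤ ξ n := fun n => by simp only [hξ]; nlinarith
  obtain ⟨i, hi, W, Q, ρ, δ, dn, hδ, low⟩ := hDep (PP X') (fun n => (X' n).w) (fun n => (X' n).y) R'
    (fun n => m₂ * α n) α k L₂ (fun n => η * (m₂ * α n + k * α n : ℕ) * lg) (ε / 2 * lg) t2.big l2
    (by have := lg_pos; positivity) (by
      filter_upwards [al2, h.big.ev (2 / ε)] with n a b
      refine ⟨fun ω u => (a.bd ω u).2.1, ?_⟩
      have h1 : ε * R n < α n + 1 := Nat.lt_floor_add_one _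
      have h2 : (R' n : ℝ) ≤ R n := by exact_mod_cast fR.1 n
      have h3 := (div_le_iff₀ hε).1 b
      have h4 : (0 : ℝ) ≤ α n := Nat.cast_nonneg _
      have h5 : (m₂ : ℝ) * α n + ε / 2 * R' n ≤ η * (m₂ * α n + k * α n) := by nlinarith
      push_cast
      nlinarith [lg_pos])
    (t2.br _ fun n => (c1 n).trans (b5 n))
  have t3 := hR _ _ _ _ _ _ _ _ _ t2 dn
  set q : ℕ → ℕ := fun n => m₂ * α n + i * α n with hq
  have c2 : ∀ n, q n + m₁ * α n ≤ ξ n := fun n => by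
    have := Nat.mul_le_mul_right (α n) hi.le
    simp only [hq, hξ]; nlinarith
  have c3 : ∀ n, q n + m₁ * α n ≤ tau γ (q n) := fun n => le_tau' (by
    have h4 : (0 : ℝ) ≤ α n := Nat.cast_nonneg _
    have h5 : (0 : ℝ) ≤ (γ - 1) * (i * α n) := by have := sub_pos.2 hγ; positivity
    simp only [hq]; push_cast; nlinarith)
  have c4 : ∀ n, q n ≤ R' n := fun n => by have := c2 n; have := b5 n; omega
  obtain ⟨L₃, l3, w3⟩ := hTB _ _ _ _ _ _ q R' t3 fun n => ⟨c4 n, le_rfl⟩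
  obtain ⟨L₄, l4, w4⟩ := hTB _ _ _ _ _ _ q q t3 fun n => ⟨le_rfl, c4 n⟩
  have w5 := w3.and w4
  have d5 := dnS_cE w5.pos
  have t4 := hR _ _ _ _ _ _ _ _ _ t3 d5
  obtain ⟨L₅, l5, al5⟩ := t4.alg
  have fρ := frac_mul fα fR.1 (a := m₁) (by omega) fun n => by have := c2 n; have := b5 n; omega
  refine H γ e η _ R' m q (fun n => m₁ * α n) (fun n => tau γ (ξ n)) (fun n => L₃ n * L₄ n * L₅ n)
    ⟨t4, fρ, fun n => ⟨(c2 n).trans (le_tau hγ.le _), by have := b3 n; simp only [hR']; omega,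
      c3 n, le_tau' ?_⟩, (l3.mul l4).mul l5, al5.mono fun n a => a.mono
        (le_mul_of_one_le_left (l5.pos n).le ((l3.mul l4).1 n)), ?_, ?_⟩
    rfl (fun n => 4 * α n) α δ hδ (frac_mul fα fR.1 (a := 4) (by omega) fun n =>
      (Nat.mul_le_mul_right _ a1).trans (fρ.1 n))
    (fun n => ⟨Nat.mul_le_mul_right _ a1, ?_, le_rfl⟩) (low.ref d5)
  · have h1 : ((q n + m₁ * α n : ℕ) : ℝ) ≤ ξ n := by exact_mod_cast c2 n
    have h2 : (0 : ℝ) ≤ R n := Nat.cast_nonneg _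
    have h3 : (ξ n : ℝ) ≤ (γ - 1) / 2 * R n := (b1 n).trans (mul_le_mul_of_nonneg_right a6 h2)
    have h4 := mul_le_mul_of_nonneg_left (b4 n) (sub_pos.2 hγ).le
    push_cast at h1 ⊢
    nlinarith
  · filter_upwards [sure w5] with n a ω b
    obtain ⟨⟨u1, u2, u3⟩, u4, u5, -⟩ := a ω b
    have v3 : L₃ n ≤ L₃ n * L₄ n * L₅ n := by
      rw [mul_assoc]; exact le_mul_of_one_le_right (l3.pos n).le ((l4.mul l5).1 n)
    have v4 : L₄ n ≤ L₃ n * L₄ n * L₅ n := by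
      rw [mul_right_comm]; exact le_mul_of_one_le_left (l4.pos n).le ((l3.mul l5).1 n)
    refine ⟨u1.trans v3, u2.trans v3, u4.trans v4, u5.trans v4, u3.trans ?_⟩
    refine le_trans ?_ (div_le_div_of_nonneg_right v3 (by positivity))
    rw [div_le_div_iff₀ (by positivity) (by positivity), mul_assoc, ← pow_add]
    exact mul_le_mul_of_nonneg_left (pow_le_pow_right₀ one_le_two (c3 n)) (l3.pos n).le
  · refine ((d5.trans dn).sm_ch lip').mono (Eventually.of_forall fun n => ch_le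
      (fun _ _ _ _ u => fl1_eq_of_le (c2 n) (congrArg Prod.fst u)) fun _ _ _ _ u => ?_)
    simp only [Prod.mk.injEq] at u ⊢
    exact ⟨fl1_eq_of_le (Nat.sub_le _ _) u.1, u.2⟩
  · have h4 : (0 : ℝ) ≤ α n := Nat.cast_nonneg _
    push_cast; nlinarith

end Pool.Agent.MP_5168f5_an.R4.U
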