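import Pool.Agent.MP_5168f5_an.R4.USpec

/-! Kakeya sets in four dimensions, the step for planes: exact conditions after a shift. -/

namespace Pool.Agent.MP_5168f5_an.R4.U

open H19 H17S H17F Filter K31

namespace UShAA

theorem fl_rd (j : ℕ) (s : ℝ) : (fl1 j s : ℝ) = 2 ^ j * rd j s := by
  rw [rd]; field_simp

theorem fr_rd (j : ℕ) (s : ℝ) : Int.fract (2 ^ j * s) = 2 ^ j * (s - rd j s) := by
  rw [mul_sub, ← fl_rd]; rfl

theorem pw {θ a b s : ℕ} (h : θ + a ≤ b + s) {C : ℝ} (hC : 0 ≤ C) :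
    2 ^ θ * (C / 2 ^ b) ≤ C * 2 ^ s / 2 ^ a := by
  rw [← mul_div_assoc, div_le_div_iff₀ (by positivity) (by positivity), mul_comm _ C, mul_assoc,
    mul_assoc, ← pow_add, ← pow_add, add_comm s]
  exact mul_le_mul_of_nonneg_left (pow_le_pow_right₀ one_le_two h) hC

variable (X : U3) (ξ θ : ℕ) (ω : X.Ω)

theorem st : (X.shift ξ θ).t ω = 2 ^ ξ * (X.t ω - rd ξ (X.t ω)) := fr_rd _ _

theorem sx : (X.shift ξ θ).x ω = 2 ^ ξ * X.x ω - fl1 ξ (X.x ω) := by
  rw [U3.x, st]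
  simp only [U3.x]
  ring

theorem su : (X.shift ξ θ).u ω =
    2 ^ θ * (X.u ω - (X.pl ξ ω).1 - X.pt ξ ω * X.t ω - X.px ξ ω * X.x ω) := by
  rw [U3.u, st]
  simp only [U3.x, U3.u]
  field_simp
  ring

variable {X ξ θ ω}

theorem fit {L : ℝ} {j a b s : ℕ} (h : X.Fit L (X.pl (ξ + j) ω) ω (ξ + j) b) (hL : 0 ≤ L)
    (e : θ + a ≤ b + s) : (X.shift ξ θ).Fit (L * 2 ^ s) ((X.shift ξ θ).pl j ω) ω j a := by
  constructor
  · refine Eq.trans_le ?_ ((mul_le_mul_of_nonneg_left h.1 (by positivity)).trans (pw e hL))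
    rw [← abs_of_pos (pow_pos two_pos θ : (0 : ℝ) < _), ← abs_mul, su, sx, st, fl_rd]
    simp only [U3.pt, U3.px]
    congr 1
    field_simp
    ring
  · have := pw e (C := L * 2 ^ j) (by positivity)
    rw [mul_right_comm] at this
    refine Eq.trans_le ?_ ((mul_le_mul_of_nonneg_left h.2
      (by positivity : (0 : ℝ) ≤ 2 ^ θ / 2 ^ ξ)).trans (Eq.trans_le ?_ this))
    · rw [← abs_of_pos (by positivity : (0 : ℝ) < 2 ^ θ / 2 ^ ξ), ← abs_mul]
      simp only [U3.pt, U3.px]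
      congr 1
      ring
    · rw [pow_add]
      field_simp

end UShAA

open UShAA

theorem rowShA : ShA := by
  refine ⟨sx, su, fun X τ τ' D D' R R' ξ θ s L hL h e1 e2 e3 e4 => ?_⟩
  have e0 : ξ ≤ R := le_of_add_le_left e1
  have L0 : 0 ≤ L := zero_le_one.trans hL
  have s1 : L ≤ L * 2 ^ s := le_mul_of_one_le_right L0 (one_le_pow₀ one_le_two)
  refine ⟨fun ω a => ?_, fun v a w b e => ?_, fun v a w b e => ?_, fun v a w b e => ?_,
    fun v a w b e => ?_, fun i j c d => h.nest _ _ (by omega) (by omega), fun j c v a w b e => ?_,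
    fun j c ω a => (fit (h.fit _ (by omega) ω a) L0 (e3 j c)).mono (by linarith) le_rfl le_rfl⟩
  · obtain ⟨f1, f2⟩ := fit (θ := θ) (j := 0) (a := 0) (h.fit ξ e0 ω a) L0 e4
    have w0 : |(X.shift ξ θ).w ω| ≤ L := (h.bd ω a).2.1
    have t0 : 0 ≤ (X.shift ξ θ).t ω := Int.fract_nonneg _
    have t1 : (X.shift ξ θ).t ω < 1 := Int.fract_lt_one _
    have x0 : |(X.shift ξ θ).x ω| ≤ 1 := by
      rw [sx]
      exact (abs_of_nonneg (Int.fract_nonneg _)).trans_le (Int.fract_lt_one _).le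
    simp only [add_zero, sub_self, zero_mul, mul_zero, sub_zero, pow_zero, mul_one, div_one] at f1 f2
    have k : ∀ p q C : ℝ, |p + q * (X.shift ξ θ).t ω| ≤ C → |q| ≤ C → |p| ≤ 2 * C :=
      fun p q C c d => by
        have := abs_sub (p + q * (X.shift ξ θ).t ω) (q * (X.shift ξ θ).t ω)
        rw [add_sub_cancel_right, abs_mul q, abs_of_nonneg t0] at this
        nlinarith [abs_nonneg q]
    exact ⟨(k _ _ L (x0.trans hL) w0).trans (by linarith), by linarith,
      (k _ _ _ f1 f2).trans (by linarith), f2.trans (by linarith), t0, t1⟩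
  · obtain ⟨c, d⟩ := Prod.mk.inj e
    have k1 := h.tS le_rfl e0 v a w b d
    have k2 := h.xS le_rfl e0 v a w b d
    simp only [U3.pt, U3.px, add_zero, h.al v a w b c, h.wl v a w b c, h.nl v a w b c,
      h.bl v a w b c, h.plS le_rfl e0 v a w b d, rd_congr k1, k2, d]
  · obtain ⟨c, t⟩ := Prod.mk.inj e
    obtain ⟨c, d⟩ := Prod.mk.inj c
    refine Prod.ext (h.fy v a w b (Prod.ext c ?_)) d
    have := rd_congr (h.tS le_rfl e0 v a w b d)
    exact (rd_add_fract ξ (X.t v)).symm.trans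
      ((congrArg₂ (fun p r => p + r / 2 ^ ξ) this t).trans (rd_add_fract ξ (X.t w)))
  · obtain ⟨c, d⟩ := Prod.mk.inj e
    exact Prod.ext (h.fz v a w b c) d
  · obtain ⟨c, d⟩ := Prod.mk.inj e
    have k := h.xz v a w b c
    simp only [sx, fl1_sub_int, add_zero, h.tz v a w b c, d, fl1_eq_of_le e2 k,
      fl1_eq_of_le (le_of_add_le_left e2) k]
  · have c' : ξ + j ≤ R := by omega
    have k1 := h.tS (Nat.le_add_right ξ j) c' v a w b e
    have k2 := h.xS (Nat.le_add_right ξ j) c' v a w b e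
    have k3 := h.tS le_rfl c' v a w b e
    have k4 := h.xS le_rfl c' v a w b e
    simp only [sx, fl1_sub_int, fl1_fract, U3.pt, U3.px, rd_congr k1, rd_congr k2, k1, k2, k3, k4,
      h.plS le_rfl c' v a w b e, h.plS (Nat.le_add_right ξ j) c' v a w b e]

end Pool.Agent.MP_5168f5_an.R4.U
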