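import Pool.Agent.MP_5168f5_an.R4.USpec

/-! Entropies after a shift. -/

namespace Pool.Agent.MP_5168f5_an.R4.U

open H19 H17S H17F Filter K31

namespace UShFA

theorem up {ξ i : ℕ} {a b : ℝ} (h : fl1 ξ a = fl1 ξ b)
    (e : fl1 i (Int.fract (2 ^ ξ * a)) = fl1 i (Int.fract (2 ^ ξ * b))) :
    fl1 (ξ + i) a = fl1 (ξ + i) b := by
  rw [fl1_fract, fl1_fract, h] at e
  exact sub_left_inj.1 e

theorem down {ξ i : ℕ} {a b : ℝ} (e : fl1 (ξ + i) a = fl1 (ξ + i) b) :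
    fl1 i (Int.fract (2 ^ ξ * a)) = fl1 i (Int.fract (2 ^ ξ * b)) := by
  rw [fl1_fract, fl1_fract, e, fl1_eq_of_le (Nat.le_add_right ξ i) e]

theorem full {ξ : ℕ} {a b : ℝ} (h : fl1 ξ a = fl1 ξ b)
    (e : Int.fract (2 ^ ξ * a) = Int.fract (2 ^ ξ * b)) : a = b := by
  rw [← rd_add_fract ξ a, ← rd_add_fract ξ b, rd_congr h, e]

theorem key {Ω α β β' γ γ' : Type} {P : FP Ω} {S : Ω → α} {A : Ω → β} {A' : Ω → β'} {K : Ω → γ}
    {K' : Ω → γ'} (h : Fn P A' fun ω => (A ω, K' ω)) (k : Fn P K K')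
    (k' : Fn P K' fun ω => (S ω, K ω)) : mi P S A' K' ≤ mi P S A K := by
  refine (mi_mono h).trans ?_
  rw [mi_symm, mi_symm S]
  exact mi_cond k k'

end UShFA

open UShFA in
theorem rowShF : RShF := by
  intro hA
  have hx : ∀ (X : U3) (ξ θ : ℕ) (ω : X.Ω), (X.shift ξ θ).x ω = Int.fract (2 ^ ξ * X.x ω) := hA.x
  refine ⟨fun X τ D R ξ θ i L h e => ?_, fun X τ D R ξ θ L h e => ?_,
    fun X τ D R ξ θ j L h e => ?_, fun X τ D R ξ θ j L h e => ?_,
    fun X τ D R ξ θ i j L h e => ?_, fun X τ D R ξ θ j L h e => ?_, fun X ξ θ α F h => ?_⟩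
  · have h1 := ch_tri (P := X.P) (fun ω => fl1 (ξ + i) (X.t ω)) (fun ω => fl1 ξ (X.t ω)) X.l
    have h2 : ch X.P (fun ω => fl1 (0 + ξ) (X.t ω)) X.l ≤ X.P.E fun _ => ξ * lg :=
      ch_fl1_refine (j := fun _ => 0) (i := fun _ => ξ) (fun _ _ _ _ _ => rfl)
        (fun _ _ _ _ _ => rfl) fun a ha b hb _ => (h.t0 ha).trans (h.t0 hb).symm
    rw [FP.E_const, zero_add] at h2
    have h3 : ch X.P (fun ω => fl1 (ξ + i) (X.t ω)) (fun ω => (fl1 ξ (X.t ω), X.l ω)) ≤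
        ch X.P (fun ω => fl1 (ξ + i) (X.t ω)) fun ω => (X.l ω, fl1 ξ (X.t ω)) :=
      ch_anti ((Fn.snd _ _).pair (Fn.fst _ _))
    have h4 : mi X.P (X.S ξ) (fun ω => fl1 (ξ + i) (X.t ω)) (fun ω => (X.l ω, fl1 ξ (X.t ω))) ≤
        X.hk ξ (X.S ξ) := mi_mono ((Fn.comp (fl1 (ξ + i)) X.t).left _)
    have h5 : ch X.P (fun ω => fl1 (ξ + i) (X.t ω))
        (fun ω => (X.S ξ ω, X.l ω, fl1 ξ (X.t ω))) ≤
        ch X.P (fun ω => fl1 i ((X.shift ξ θ).t ω)) (X.shift ξ θ).l :=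
      ch_le (fun a _ b _ c => up (congrArg (·.2.2.2) c) (congrArg (·.1) c))
        fun a _ b _ c => Prod.ext (congrArg (·.2.1) c) (congrArg (·.1) c)
    rw [mi_symm, mi] at h4
    linarith
  · have h1 : ch X.P (X.shift ξ θ).t (X.S ξ) ≤ ch X.P X.t fun ω => (fl1 ξ (X.t ω), X.S 0 ω) :=
      ch_le ((Fn.comp (fun s => Int.fract (2 ^ ξ * s)) X.t).left _)
        ((h.tS le_rfl e).pair (h.nest 0 ξ (Nat.zero_le _) e))
    have h2 : ch X.P X.t (fun ω => (X.S ξ ω, X.l ω, fl1 ξ (X.t ω))) ≤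
        ch X.P (X.shift ξ θ).t fun ω => ((X.shift ξ θ).l ω, X.S ξ ω) :=
      ch_le (fun a _ b _ c => full (congrArg (·.2.2.2) c) (congrArg (·.1) c))
        fun a _ b _ c => Prod.ext (Prod.ext (congrArg (·.2.1) c) (congrArg (·.1) c))
          (congrArg (·.1) c)
    have h3 : mi X.P X.l X.t (fun ω => (fl1 ξ (X.t ω), X.S 0 ω)) ≤ mi X.P X.l X.t (X.S 0) :=
      mi_cond (Fn.snd _ _) (((Fn.comp (fl1 ξ) X.t).left _).pair (Fn.snd _ _))
    have h4 : ch X.P X.t (fun ω => (X.l ω, fl1 ξ (X.t ω), X.S 0 ω)) ≤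
        ch X.P X.t fun ω => (X.l ω, fl1 ξ (X.t ω)) :=
      ch_anti fun a _ b _ c => Prod.ext (congrArg (·.1) c) (congrArg (·.2.1) c)
    rw [mi_symm X.l, mi_symm X.l] at h3
    rw [U3.hk, mi_symm (X.S ξ)]
    unfold mi at h3 ⊢
    linarith
  · have n := h.nest ξ (ξ + j) (Nat.le_add_right _ _) e
    have t := h.tS le_rfl ((Nat.le_add_right _ _).trans e)
    exact key ((Fn.comp (fun s => Int.fract (2 ^ ξ * s)) X.t).left _)
      (fun a ha b hb c => Prod.ext (congrArg (·.1.1) c)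
        (up (t a ha b hb (congrArg (·.1.2) c)) (congrArg (·.2) c)))
      fun a ha b hb c => Prod.ext
        (Prod.ext (congrArg (·.2.1) c) (n a ha b hb (congrArg (·.1) c))) (down (congrArg (·.2.2) c))
  · have n := h.nest ξ (ξ + j) (Nat.le_add_right _ _) e
    exact key (fun a _ b _ c => Prod.ext (congrArg (·.1) c) (congrArg (·.2.2) c)) (Fn.fst _ _)
      ((Fn.snd _ _).pair (n.left _))
  · have t := h.tS (Nat.le_add_right ξ j) e
    have x := h.xS (Nat.le_add_right ξ j) e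
    simp only [hx]
    exact ch_congr
      (fun a _ b _ c => Prod.ext (down (congrArg (·.1.1) c)) (down (congrArg (·.1.2) c)))
      (fun a ha b hb c => Prod.ext (up (t a ha b hb (congrArg (·.2) c)) (congrArg (·.1.1) c))
        (up (x a ha b hb (congrArg (·.2) c)) (congrArg (·.1.2) c))) (Fn.rfl _) (Fn.rfl _)
  · have e' := (Nat.le_add_right ξ j).trans e
    have n := h.nest ξ (ξ + j) (Nat.le_add_right _ _) e
    have t := h.tS le_rfl e'
    have x := h.xS le_rfl e'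
    have s := h.nest 0 ξ (Nat.zero_le _) e'
    simp only [hx]
    exact key (fun a _ b _ c => Prod.ext (congrArg (·.1) c) (congrArg (·.2.2.2) c))
      (fun a ha b hb c => Prod.ext (up (t a ha b hb (congrArg (·.2.2) c)) (congrArg (·.1) c))
        (Prod.ext (up (x a ha b hb (congrArg (·.2.2) c)) (congrArg (·.2.1) c))
          (s a ha b hb (congrArg (·.2.2) c))))
      fun a ha b hb c => Prod.ext (down (congrArg (·.2.1) c))
        (Prod.ext (down (congrArg (·.2.2.1) c)) (n a ha b hb (congrArg (·.1) c)))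
  · have h1 : mi X.P (X.S ξ) F X.y ≤ X.lk (X.S ξ) := mi_mono (h.left _)
    have h2 : ch X.P F (fun ω => (X.S ξ ω, X.y ω)) ≤ ch X.P F (X.shift ξ θ).y :=
      ch_anti ((Fn.snd _ _).pair (Fn.fst _ _))
    rw [mi_symm, mi] at h1
    linarith

end Pool.Agent.MP_5168f5_an.R4.U
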