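import Pool.Agent.MP_5168f5_an.R4.USpec

/-! Kakeya sets in four dimensions, the step for planes: rescaling of labels. -/

namespace Pool.Agent.MP_5168f5_an.R4.U

open H19 H17S H17F Filter K31

namespace UShGA

/-- The chain rule in the first variable. -/
theorem mi_pair {Ω α β γ δ : Type} {P : FP Ω} (F : Ω → α) (S : Ω → β) (G : Ω → γ) (K : Ω → δ) :
    mi P (fun ω => (F ω, S ω)) G K ≤ mi P F G (fun ω => (S ω, K ω)) + mi P S G K := by
  have h : mi P (fun ω => (F ω, S ω)) G K ≤ mi P (fun ω => (S ω, F ω)) G K :=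
    mi_mono' (((Fn.snd S F).pair (Fn.fst S F)).left K)
  rw [mi_symm (fun ω => (S ω, F ω)), mi_chain, mi_symm G, mi_symm G] at h
  linarith

variable {X : U3} {τ : ℕ → ℕ} {D R ξ θ : ℕ} {L L' : ℝ}

theorem diff (A : ShA) (h : X.Alg τ D R L) (hξ : ξ ≤ R) (h0 : 0 ≤ L')
    (hp : ∀ ω ∈ X.P.S, |X.px ξ ω| ≤ L') {k : ℕ} (hk : θ + k ≤ D) {a b : X.Ω} (ha : a ∈ X.P.S)
    (hb : b ∈ X.P.S) (e : (X.shift ξ θ).z a = (X.shift ξ θ).z b) :
    |(X.shift ξ θ).u a - (X.shift ξ θ).u b - 2 ^ θ * (X.u a - X.u b)| ≤ L' / 2 ^ k := by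
  obtain ⟨e1, e2⟩ := Prod.mk.inj e
  have h1 := h.tz a ha b hb e1
  have h2 := (near_of_fl1 (h.xz a ha b hb e1)).trans (div_pow_le zero_le_one hk)
  have h3 := h.plS le_rfl hξ a ha b hb e2
  have h4 : (X.shift ξ θ).u a - (X.shift ξ θ).u b - 2 ^ θ * (X.u a - X.u b) =
      -(2 ^ θ * (X.px ξ b * (X.x a - X.x b))) := by
    rw [A.u, A.u, U3.pt, U3.pt, U3.px, U3.px, h1, h3]; ring
  rw [h4, abs_neg, abs_mul, abs_mul, abs_of_pos (by positivity : (0 : ℝ) < 2 ^ θ)]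
  calc _ ≤ 2 ^ θ * (L' * (1 / 2 ^ (θ + k))) := by gcongr; exact hp b hb
    _ = _ := by rw [pow_add]; field_simp

end UShGA

open UShGA

theorem rowShG : RShG := fun A => ⟨fun X τ D R ξ θ β lam L L' h hξ h0 hp hβ hD => by
  have e : 2 * L' + 5 = 2 * (1 + L') + 3 := by ring
  have h1 : ch X.P (fun ω => fl1 lam ((X.shift ξ θ).u ω)) (fun ω => (fl1 (θ + lam) (X.u ω),
      fl1 β ((X.shift ξ θ).u ω), (X.shift ξ θ).z ω)) ≤ Real.log (2 * L' + 5) := by
    rw [e]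
    refine ch_near1 (by positivity) fun a ha b hb c => ?_
    have k1 := abs_le.1 (diff A h hξ h0 hp hD ha hb (congrArg (·.2.2) c))
    have k2 : |2 ^ θ * (X.u a - X.u b)| ≤ 1 / 2 ^ lam := by
      rw [abs_mul, abs_of_pos (by positivity : (0 : ℝ) < 2 ^ θ)]
      calc _ ≤ 2 ^ θ * (1 / 2 ^ (θ + lam) : ℝ) := by gcongr; exact near_of_fl1 (congrArg (·.1) c)
        _ = _ := by rw [pow_add]; field_simp
    rw [add_div, abs_le]
    constructor <;> linarith [(abs_le.1 k2).1, (abs_le.1 k2).2]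
  have h2 : ch X.P (fun ω => fl1 (θ + β) (X.u ω))
      (fun ω => (fl1 β ((X.shift ξ θ).u ω), (X.shift ξ θ).z ω)) ≤ Real.log (2 * L' + 5) := by
    rw [e]
    refine ch_near1 (by positivity) fun a ha b hb c => ?_
    have k1 := abs_le.1 (diff A h hξ h0 hp (k := β) (by omega) ha hb (congrArg (·.2) c))
    have k2 := abs_le.1 (near_of_fl1 (j := β) (congrArg (·.1) c))
    have k3 : |2 ^ θ * (X.u a - X.u b)| ≤ (1 + L') / 2 ^ β := by
      rw [add_div, abs_le]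
      constructor <;> linarith
    rw [abs_mul, abs_of_pos (by positivity : (0 : ℝ) < 2 ^ θ), ← le_div_iff₀' (by positivity),
      div_div, ← pow_add, add_comm β] at k3
    exact k3
  have h3 := ch_tri (P := X.P) (fun ω => fl1 lam ((X.shift ξ θ).u ω))
    (fun ω => fl1 (θ + lam) (X.u ω)) fun ω => (fl1 β ((X.shift ξ θ).u ω), (X.shift ξ θ).z ω)
  have h4 := ch_tri' (P := X.P) (fun ω => fl1 (θ + lam) (X.u ω))
    (fun ω => (fl1 β ((X.shift ξ θ).u ω), (X.shift ξ θ).z ω))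
    fun ω => (fl1 (θ + β) (X.u ω), X.z ω)
  have h5 : ch X.P (fun ω => (fl1 (θ + β) (X.u ω), X.z ω))
      (fun ω => (fl1 β ((X.shift ξ θ).u ω), (X.shift ξ θ).z ω)) ≤ _ :=
    (ch_mono fun a _ b _ c => Prod.ext (congrArg (·.1) c) (congrArg (·.2.2.1) c)).trans h2
  linarith, fun X τ D R ξ θ j th L _ lam d h hξ hd hF => by
  have ht : ∀ a ∈ X.P.S, ∀ b ∈ X.P.S, X.S ξ a = X.S ξ b →
      (X.shift ξ θ).t a = (X.shift ξ θ).t b → X.t a = X.t b := fun a ha b hb c c' => by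
    rw [← rd_add_fract ξ (X.t a), ← rd_add_fract ξ (X.t b), rd_congr (h.tS le_rfl hξ a ha b hb c)]
    exact congrArg (fun s => rd ξ (X.t b) + s / 2 ^ ξ) c'
  refine ⟨fun ω => ((X.pl ξ ω).1 + ((d ω).1 - (d ω).2.1 * fl1 ξ (X.t ω) -
      (d ω).2.2 * fl1 ξ (X.x ω)) / 2 ^ θ, X.pt ξ ω + 2 ^ ξ / 2 ^ θ * (d ω).2.1,
      X.px ξ ω + 2 ^ ξ / 2 ^ θ * (d ω).2.2), fun a ha b hb c => ?_, fun ω hω => ?_,
    (mi_pair _ _ _ _).trans (add_le_add ?_ ?_), (mi_pair _ _ _ _).trans (add_le_add ?_ le_rfl)⟩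
  · obtain ⟨c1, c2⟩ := Prod.mk.inj c
    have k1 : fl1 ξ (X.t a) = _ := h.tS le_rfl hξ a ha b hb c2
    have k2 : fl1 ξ (X.x a) = _ := h.xS le_rfl hξ a ha b hb c2
    simp only [U3.pt, U3.px, hd a ha b hb c1, h.plS le_rfl hξ a ha b hb c2, k1, k2]
  · obtain ⟨k1, k2⟩ := hF ω hω
    rw [A.u, A.x] at k1
    have p0 : (0 : ℝ) < 2 ^ θ := by positivity
    have p1 : (0 : ℝ) < 2 ^ ξ / 2 ^ θ := by positivity
    constructor
    · refine le_of_eq_of_le ?_ ((div_le_div_of_nonneg_right k1 p0.le).trans_eq ?_)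
      · rw [← abs_of_pos p0, ← abs_div, abs_of_pos p0]
        congr 1
        simp only [Int.fract, fl1]
        field_simp
        ring
      · rw [div_div, ← pow_add, add_comm]
    · refine le_of_eq_of_le ?_ ((mul_le_mul_of_nonneg_left k2 p1.le).trans_eq ?_)
      · rw [← abs_of_pos p1, ← abs_mul, abs_of_pos p1]
        congr 1
        simp only
        field_simp
        ring
      · rw [pow_add, pow_add]
        field_simp
  · refine mi_right (fun a _ b _ c => ?_) (fun a ha b hb c => ?_) fun a ha b hb c =>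
      ht a ha b hb (congrArg (·.2.1.2) c) (congrArg (·.1) c)
    · have c1 : fl1 (ξ + j) (X.t a) = fl1 (ξ + j) (X.t b) := congrArg (·.2.2) c
      refine Prod.ext (Prod.ext (congrArg (·.2.1) c) (congrArg (·.1) c)) ?_
      simp only [fl1_fract, c1, fl1_eq_of_le (Nat.le_add_right ξ j) c1]
    · exact Prod.ext (congrArg (·.2.1.2) c) (Prod.ext (congrArg (·.2.1.1) c)
        (congrArg (fl1 (ξ + j)) (ht a ha b hb (congrArg (·.2.1.2) c) (congrArg (·.1) c))))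
  · exact mi_right (fun a _ b _ c => Prod.ext (congrArg (·.1) c)
      (fl1_eq_of_le (Nat.le_add_right ξ j) (congrArg (·.2) c)))
      (fun a _ b _ c => Prod.ext (congrArg (·.2.1) c) (congrArg (fun s => fl1 (ξ + j) s.1) c))
      (Fn.fst _ _)
  · exact mi_right (fun a _ b _ c => Prod.ext (congrArg (·.2) c) (congrArg (·.1) c))
      (fun a _ b _ c => Prod.ext (congrArg (·.2.2) c) (congrArg (·.2.1) c))
      fun a _ b _ c => congrArg (·.1.1) c⟩

end Pool.Agent.MP_5168f5_an.R4.U
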