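import Pool.Agent.MP_5168f5_an.R4.USpec

/-! Slopes of the planes of a tangent system and the rate of the second coordinate. -/

namespace Pool.Agent.MP_5168f5_an.R4.U

open H19 H17S H17F Filter K31

namespace UTBA

theorem cells1 (j : ℕ) (y : ℝ) {L : ℝ} (hL : 0 ≤ L) : ∃ T : Finset ℤ, (T.card : ℝ) ≤ 2 * L + 3 ∧
    ∀ x : ℝ, |x - y| ≤ L / 2 ^ j → fl1 j x ∈ T := by
  refine ⟨Finset.Icc (fl1 j y - ⌈L⌉₊) (fl1 j y + ⌈L⌉₊), ?_, fun x hx => fl1_mem_Icc (hx.trans ?_)⟩
  · have h1 : (Finset.Icc (fl1 j y - ⌈L⌉₊) (fl1 j y + ⌈L⌉₊)).card = 2 * ⌈L⌉₊ + 1 := by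
      rw [Int.card_Icc]; omega
    have := Nat.ceil_lt_add_one hL
    rw [h1]; push_cast; linarith
  · rw [div_eq_mul_inv]
    exact mul_le_mul_of_nonneg_right (Nat.le_ceil L) (by positivity)

theorem gap {L : ℝ} (hL : 0 ≤ L) {i j s t : ℕ} (h : s + j ≤ t + i) :
    L * 2 ^ j / 2 ^ t ≤ L * 2 ^ i / 2 ^ s := by
  rw [div_le_div_iff₀ (by positivity) (by positivity), mul_assoc, mul_assoc, ← pow_add, ← pow_add]
  exact mul_le_mul_of_nonneg_left (pow_le_pow_right₀ one_le_two (by omega)) hL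

end UTBA

open UTBA

theorem rowTB : RTB := by
  intro hR hT γ e η X R m i j h hij
  obtain ⟨L, hL, a⟩ := h.alg
  have hγ := h.par.1
  have br : ∀ α : ℕ → ℕ, (∀ n, α n ≤ R n) → Low (PP X) (fun n ω => fl1 (α n) ((X n).w ω))
      (fun n => (X n).S (j n)) R fun n => η * α n * lg :=
    fun α hα => hT.brs γ e η X R m j α h fun n => ⟨(hij n).2, hα n⟩
  obtain ⟨L1, hL1, w1⟩ := hR (PP X) (fun n => (X n).w) (fun n => (X n).S (j n))
    (fun n ω => ((X n).pt (j n) ω, (X n).px (j n) ω)) R R η (fun n => 2 * L n) L h.big h.par.2.2.2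
    Frac.rfl hL (a.mono fun n k => ⟨fun v hv w hw c =>
      congrArg (·.2) (k.plS le_rfl (hij n).2 v hv w hw c), fun ω hω => (k.bd ω hω).2.1⟩) br
    (Whp.of_ev (a.mono fun n k ω hω => by
      have h1 := (k.fit _ (hij n).2 ω hω).2
      have h2 := (k.bd ω hω).2.2.2.1
      have h3 := gap (hL.pos n).le (i := 0) (s := 0) (j := j n) (t := tau γ (j n))
        (by simpa using le_tau hγ (j n))
      simp only [pow_zero, mul_one, div_one] at h3
      simp only [U3.pt, U3.px]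
      rw [abs_le] at *
      constructor <;> linarith [h1.1, h1.2, h2.1, h2.2]))
  obtain ⟨L2, hL2, w2⟩ := hR (PP X) (fun n => (X n).w) (fun n => (X n).S (j n))
    (fun n ω => ((X n).pt (j n) ω - (X n).pt (i n) ω, (X n).px (j n) ω - (X n).px (i n) ω)) R R η
    (fun n => 2 * (L n * 2 ^ i n / 2 ^ tau γ (i n))) L h.big h.par.2.2.2
    Frac.rfl hL (a.mono fun n k => ⟨fun v hv w hw c => by
      simp only [U3.pt, U3.px, k.plS le_rfl (hij n).2 v hv w hw c,
        k.plS (hij n).1 (hij n).2 v hv w hw c], fun ω hω => (k.bd ω hω).2.1⟩) br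
    (Whp.of_ev (a.mono fun n k ω hω => by
      have h1 := (k.fit _ (hij n).2 ω hω).2
      have h2 := (k.fit _ ((hij n).1.trans (hij n).2) ω hω).2
      have h3 := gap (hL.pos n).le (tau_gap hγ (hij n).1)
      simp only [U3.pt, U3.px]
      rw [abs_le] at *
      constructor <;> linarith [h1.1, h1.2, h2.1, h2.2]))
  refine ⟨_, (hL1.add hL2 h.big).mul (hL.const_mul h.big one_le_two),
    (w1.and w2).mono (Eventually.of_forall fun n ω _ k => ?_)⟩
  have p0 := hL.pos n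
  have p1 := hL1.pos n
  have p2 := hL2.pos n
  have b1 : L1 n * (2 * L n) ≤ (L1 n + L2 n) * (2 * L n) :=
    mul_le_mul_of_nonneg_right (by linarith) (by positivity)
  refine ⟨k.1.1.trans b1, k.1.2.trans b1, k.2.2.trans ?_⟩
  have e1 : (L1 n + L2 n) * (2 * L n) * 2 ^ i n / 2 ^ tau γ (i n) =
      (L1 n + L2 n) * (2 * (L n * 2 ^ i n / 2 ^ tau γ (i n))) := by ring
  rw [e1]
  exact mul_le_mul_of_nonneg_right (by linarith) (by positivity)

theorem rowUS : RUS := by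
  intro hT γ e η X R m j lam h hj
  obtain ⟨L, hL, a⟩ := h.alg
  have hγ := h.par.1
  obtain ⟨L1, hL1, w1⟩ := hT γ e η X R m j j h fun n => ⟨le_rfl, (hj n).1⟩
  have s1 := hL.add (hL1.const_mul h.big one_le_two) h.big
  refine ks.fano (PP X) _ _ _ R _ (γ + 1) h.big ((s1.const_mul h.big one_le_two).add
    (h.big.sub (by norm_num : (1 : ℝ) ≤ 3)) h.big) w1 ?_
  filter_upwards [a, (hL.const_mul h.big (by norm_num : (1 : ℝ) ≤ 11)).2 1 one_pos] with n k k1
  have p0 := hL.1 n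
  have p1 := hL1.1 n
  refine ⟨fun c hc => (det_near1 (P := (X n).P) (x := (X n).u) (j := lam n)
    (L := 4 * L n * 2 ^ lam n) (by positivity) (fun v hv w hw _ => ?a) c hc).imp
      fun T hT => ⟨hT.1.trans ?b, hT.2⟩, fun c hc => ?c⟩
  case a =>
    have h1 := k.abs_u hv
    have h2 := k.abs_u hw
    rw [mul_div_assoc, div_self (by positivity), mul_one]
    rw [abs_le] at *
    constructor <;> linarith [h1.1, h1.2, h2.1, h2.2]
  case b =>
    have h1 : (lam n : ℝ) ≤ γ * R n := by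
      have h2 : (lam n : ℝ) ≤ tau γ (R n) := by
        exact_mod_cast (hj n).2.trans (tau_mono (zero_le_one.trans hγ) (hj n).1)
      exact h2.trans (tau_le (zero_le_one.trans hγ) _)
    have h2 : (2 : ℝ) ^ lam n ≤ Real.exp (γ * R n) :=
      (two_pow_le_exp _).trans (Real.exp_le_exp.2 h1)
    have h3 : (1 : ℝ) ≤ L n * 2 ^ lam n :=
      one_le_mul_of_one_le_of_one_le p0 (one_le_pow₀ one_le_two)
    have h4 := mul_le_mul k1 h2 (by positivity) (Real.exp_pos _).le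
    rw [← Real.exp_add, show 1 * (R n : ℝ) + γ * R n = (γ + 1) * R n by ring] at h4
    linarith
  case c =>
    obtain ⟨T, t1, t2⟩ := cells1 (lam n) (((X n).pl (j n) c).1 + (X n).pt (j n) c * (X n).t c +
      (X n).px (j n) c * (X n).x c) (L := L n + 2 * L1 n) (by positivity)
    refine ⟨T, t1, fun b hb g E => t2 _ ?_⟩
    simp only [Prod.mk.injEq] at g
    have e0 := k.plS le_rfl (hj n).1 b hb c hc g.2.2
    have h1 := ((k.fit _ (hj n).1 b hb).1).trans (div_pow_le (by positivity) (hj n).2)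
    have h2 : |(X n).pt (j n) b * ((X n).t b - (X n).t c)| ≤ L1 n * (1 / 2 ^ lam n) := by
      rw [abs_mul]; exact mul_le_mul E.1 (near_of_fl1 g.1) (abs_nonneg _) (by positivity)
    have h3 : |(X n).px (j n) b * ((X n).x b - (X n).x c)| ≤ L1 n * (1 / 2 ^ lam n) := by
      rw [abs_mul]; exact mul_le_mul E.2.1 (near_of_fl1 g.2.1) (abs_nonneg _) (by positivity)
    have e1 : (L n + 2 * L1 n) / 2 ^ lam n = L n / 2 ^ lam n + 2 * (L1 n * (1 / 2 ^ lam n)) := by
      ring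
    simp only [U3.pt, U3.px, ← e0] at h2 h3 ⊢
    rw [e1]
    rw [abs_le] at *
    constructor <;> linarith [h1.1, h1.2, h2.1, h2.2, h3.1, h3.2]

theorem rowNGc : RNGc := by
  intro hU γ e η X R m β lam h hj
  have hγ := h.par.1
  refine Le.of3 (h.ng β lam fun n => ⟨(hj n).1, (hj n).2.trans (le_tau hγ _)⟩).self
    (h.xz lam fun n => (hj n).2) (hU γ e η X R m lam lam h fun n => ⟨(hj n).2, le_tau hγ _⟩)
    (Eventually.of_forall fun n => ?_)
  have h1 := mi_cond (P := (X n).P) (F := (X n).z) (G := fun ω => fl1 (lam n) ((X n).u ω))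
    (K := fun ω => (fl1 (lam n) ((X n).t ω), fl1 (lam n) ((X n).x ω), (X n).S 0 ω))
    (K' := fun ω => (fl1 (β n) ((X n).u ω), fl1 (lam n) ((X n).t ω), fl1 (lam n) ((X n).x ω),
      (X n).S 0 ω)) (Fn.snd _ _)
    fun v _ w _ c => Prod.ext (fl1_eq_of_le (hj n).1 (Prod.mk.inj c).1) (Prod.mk.inj c).2
  have h2 := mi_near (P := (X n).P) (X n).z (fun ω => fl1 (lam n) ((X n).u ω)) ((X n).S (lam n))
    fun ω => (fl1 (lam n) ((X n).t ω), fl1 (lam n) ((X n).x ω), (X n).S 0 ω)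
  have h3 : ch (X n).P (fun ω => fl1 (lam n) ((X n).u ω)) (fun ω => ((X n).S (lam n) ω,
      fl1 (lam n) ((X n).t ω), fl1 (lam n) ((X n).x ω), (X n).S 0 ω)) ≤
      ch (X n).P (fun ω => fl1 (lam n) ((X n).u ω)) fun ω =>
        (fl1 (lam n) ((X n).t ω), fl1 (lam n) ((X n).x ω), (X n).S (lam n) ω) :=
    ch_anti fun v _ w _ c => by simp only [Prod.mk.injEq] at c ⊢; tauto
  have h4 : ch (X n).P (fun ω => fl1 (lam n) ((X n).u ω)) (fun ω => ((X n).z ω,
      fl1 (β n) ((X n).u ω), fl1 (lam n) ((X n).t ω), fl1 (lam n) ((X n).x ω), (X n).S 0 ω)) ≤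
      ch (X n).P (fun ω => fl1 (lam n) ((X n).u ω)) fun ω => (fl1 (β n) ((X n).u ω), (X n).z ω) :=
    ch_anti fun v _ w _ c => by simp only [Prod.mk.injEq] at c ⊢; tauto
  rw [mi_symm (X n).z ((X n).S (lam n))] at h2
  rw [mi_symm, mi] at h1
  linarith

end Pool.Agent.MP_5168f5_an.R4.U
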