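import Pool.Agent.MP_5168f5_an.R4.USpec

/-! Kakeya sets in four dimensions, the step for planes: a good window with explicit errors. -/

namespace Pool.Agent.MP_5168f5_an.R4.U

open H19 H17S H17F Filter K31

theorem rowTanF : RTanF := by
  intro hW hE hO hN η X M p lo hi τ φ c γ s e δ k G lv hk
  have K1 : (1 : ℝ) ≤ k := by exact_mod_cast hk
  obtain ⟨r, ε, r0, ε0, hn⟩ := hN M p lo hi τ φ c γ s e δ k G.big (fun n => (G.le n).1)
    (G.mono.mono fun _ a => a.1) lv hk
  obtain ⟨δ0, δ00, ho⟩ := hO η X M p lo hi τ φ G k ε K1 ε0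
  obtain ⟨d, d0, d1, d2⟩ : ∃ d : ℝ, 0 < d ∧ d ≤ δ0 ∧ d * (2 * k + 2) ≤ r :=
    ⟨min δ0 (r / (2 * k + 2)), by positivity, min_le_left _ _,
      (le_div_iff₀ (by positivity)).1 (min_le_right _ _)⟩
  filter_upwards [hn, ho, hE η X M p lo hi τ φ k (d / (8 * k)) G K1 (by positivity),
    G.big.ev ((k + 2) / d)] with n ⟨h1, h2⟩ ho E hM
  rw [div_le_iff₀' d0] at hM
  have M0 : (0 : ℝ) ≤ M n := Nat.cast_nonneg _
  have hR := lt_lev M r n
  have m1 : (⌊d * M n⌋₊ : ℝ) ≤ d * M n := Nat.floor_le (by positivity)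
  have m2 : d * M n < ⌊d * M n⌋₊ + 1 := Nat.lt_floor_add_one _
  have m3 : k ≤ ⌊d * M n⌋₊ := Nat.le_floor (by linarith)
  have m4 : d * M n ≤ δ0 * M n := by gcongr
  have m5 : d * (2 * k + 2) * M n ≤ r * M n := by gcongr
  have m6 : d * M n ≤ k * (d * M n) := le_mul_of_one_le_left (by positivity) K1
  have s0 : d / (8 * k) * M n = d * M n / 8 / k := by field_simp
  rw [s0] at E
  generalize ⌊d * M n⌋₊ = m at *
  generalize lev M r n = R at *
  have s1 : d * M n / 8 / k ≤ m / k := by gcongr; linarith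
  have s2 : d * M n / 8 / k ≤ R / (2 * k) := by
    rw [← div_div (R : ℝ)]
    exact div_le_div_of_nonneg_right (by linarith) (by linarith)
  have s3 : (R : ℝ) / k = R / (2 * k) + R / (2 * k) := by field_simp; ring
  have s4 : d * M n / 8 / k ≤ R / k := by
    linarith [show (0 : ℝ) ≤ R / (2 * k) by positivity]
  have s5 : (R : ℝ) / k ≤ R := div_le_self (Nat.cast_nonneg _) K1
  obtain ⟨L, L1, L2, A⟩ := E.alg
  obtain ⟨i, hi, ht⟩ := hW (X n) (τ n) (M n) (M n) (lev M c n) R (2 * k) L A (by omega) h1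
  have N := h2 i hi
  have hj : lev M c n + i * R + R ≤ M n := by nlinarith
  generalize lev M c n + i * R = j₀ at *
  refine ⟨j₀, R, m, ⟨m3, ?_⟩, ⟨L, L1, L2.trans (Real.exp_le_exp.2 s4), A.down hj⟩, N.thick,
    E.inf.trans s4, ?_, fun j a => (E.hk _ (by omega)).trans s1, (E.lk _ hj).trans s1,
    fun j a => ?_, fun j a => (E.xz _ (by omega)).trans s4,
    fun W Q f α a b => by linarith [E.br W Q f α a (by omega)], fun W Q f β lam a b b' => ?_, ?_,
    fun W Λ Q f lam q j th a1 a2 a3 a4 a5 a6 => ?_⟩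
  · have : (k : ℝ) * m ≤ k * (d * M n) := by gcongr
    exact_mod_cast (by linarith : (k : ℝ) * m ≤ R)
  · have := E.hgt _ hj
    push_cast at this
    linarith
  · have := E.xs (j₀ + j) (j₀ + R) (by omega) hj
    push_cast at this
    linarith
  · obtain ⟨b1, b2, b3⟩ := N.ng β lam b b'
    linarith [E.ng W Q f _ _ a b1 (by omega) b2]
  · have l1 : Real.log (4 * L + 3) ≤ Real.log 7 + Real.log L := by
      rw [← Real.log_mul (by norm_num) (by linarith)]
      exact Real.log_le_log (by linarith) (by linarith)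
    have l2 := (Real.log_le_iff_le_exp (by linarith)).2 L2
    have l3 := Real.log_le_sub_one_of_pos (by norm_num : (0 : ℝ) < 7)
    have l4 : d * M n / 8 / k ≤ d * M n / 8 := div_le_self (by positivity) K1
    have l5 := mul_le_mul_of_nonneg_left lg_lt_one.le (Nat.cast_nonneg R : (0 : ℝ) ≤ R)
    push_cast at ht
    rw [le_div_iff₀ (by linarith)]
    linarith
  · obtain ⟨j', b1, b2, b3⟩ := N.opt j a6
    have fl := N.fl
    have h := ho W Λ Q f lam q (j₀ + j) j' (τ n j₀ + min th (tau γ R + R + 1)) a1 (by linarith)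
      (by linarith) a4 (fun v hv => (a5 v hv).mono le_rfl le_rfl (by omega)) b2 b1 (by omega)
    rcases le_total th (tau γ R + R + 1) with q | q
    · rw [min_eq_left q, Nat.cast_add] at h
      linarith
    · rw [min_eq_right q] at h
      push_cast at h
      have : γ * j ≤ γ * R := mul_le_mul_of_nonneg_left (by exact_mod_cast a6)
        (zero_le_one.trans lv.par.2.2.2.1)
      linarith [lt_tau γ R]

end Pool.Agent.MP_5168f5_an.R4.U
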