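import Pool.Agent.MP_5168f5_an.R4.USpec

/-! Kakeya sets in four dimensions, the step for planes: windows of a tangent system and the
bound for the slope. -/

namespace Pool.Agent.MP_5168f5_an.R4.U

open H19 H17S H17F Filter K31

namespace UTanPreA

variable {Ω α β : Type} {P : FP Ω}

theorem ref1 {x : Ω → ℝ} {G : Ω → β} {k R : ℕ} (e : k ≤ R)
    (h : Fn P (fun ω => fl1 k (x ω)) G) : ch P (fun ω => fl1 R (x ω)) G ≤ (R - k : ℝ) * lg := by
  obtain ⟨i, rfl⟩ := Nat.exists_eq_add_of_le e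
  have := ch_fl1_refine (P := P) (x := x) (G := G) (j := fun _ => k) (i := fun _ => i)
    (fun _ _ _ _ _ => rfl) (fun _ _ _ _ _ => rfl) h
  rw [FP.E_const] at this
  simpa using this

theorem down1 (x : Ω → ℝ) (G : Ω → β) {k R : ℕ} (e : k ≤ R) : ch P (fun ω => fl1 R (x ω)) G ≤
    ch P (fun ω => fl1 k (x ω)) G + (R - k : ℝ) * lg :=
  (ch_tri _ _ G).trans (add_le_add le_rfl (ref1 e (Fn.fst _ _)))

theorem down2 (x y : Ω → ℝ) (G : Ω → β) {k R : ℕ} (e : k ≤ R) :
    ch P (fun ω => (fl1 R (x ω), fl1 R (y ω))) G ≤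
      ch P (fun ω => (fl1 k (x ω), fl1 k (y ω))) G + 2 * (R - k : ℝ) * lg := by
  refine (ch_tri _ _ G).trans (add_le_add le_rfl ((ch_subadd _ _ _).trans ?_))
  have h1 := ref1 (P := P) (x := x) (G := fun ω => ((fl1 k (x ω), fl1 k (y ω)), G ω)) e
    ((Fn.fst _ _).left G)
  have h2 := ref1 (P := P) (x := y) (G := fun ω => ((fl1 k (x ω), fl1 k (y ω)), G ω)) e
    ((Fn.snd _ _).left G)
  linarith

end UTanPreA

open UTanPreA

theorem rowTanPre : TanPre := by
  intro γ e η X R m ξ R' h hξ fr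
  obtain ⟨L, hL, hA⟩ := h.alg
  have h0 : 0 ≤ γ := zero_le_one.trans h.par.1
  have hj : ∀ {j : ℕ → ℕ}, (∀ n, j n ≤ R' n) → ∀ n, ξ n + j n ≤ R n := fun a n =>
    (Nat.add_le_add_left (a n) _).trans (hξ n)
  have ht : ∀ n, tau γ (ξ n) + tau γ (R' n) ≤ tau γ (R n) := fun n =>
    (tau_add h0 _ _).trans (tau_mono h0 (hξ n))
  refine ⟨h.par, h.big.frac fr, h.bigm, Le.frac h.sm fr,
    ⟨L, hL.frac fr, hA.mono fun n a => a.down (hξ n)⟩,
    ⟨fun _ => 0, Le.of_le fun _ => by simp, Eventually.of_forall fun n =>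
      ⟨fun j _ => tau_add h0 _ _, le_tau h.par.1 _, ht n,
        (Nat.add_le_add_right (le_tau h.par.1 _) _).trans (ht n)⟩⟩,
    Le.frac h.inf fr, (h.hgt.frac fr).of_sub (Eventually.of_forall fun n => ?_),
    fun j a => h.hk _ (hj a), h.lk.mono (hA.mono fun n a => ?_),
    fun j a => ((h.xs _ (hj a)).frac fr).of_sub (Eventually.of_forall fun n => ?_),
    fun j a => Le.frac (h.xz _ (hj a)) fr,
    fun α a => (h.br α fun n => (a n).trans (fr.1 n)).frac fr, fun β lam a W' Q ρ k => ?_,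
    Le.frac (h.typ.mono (hA.mono fun n a => ?_)) fr, fun j th a k => ?_⟩
  · have := down1 (P := (X n).P) (X n).t (X n).l (hξ n)
    push_cast at this
    linarith
  · exact mi_mono' ((a.nest _ _ (hξ n) le_rfl).left _)
  · have := down2 (P := (X n).P) (X n).t (X n).x ((X n).S (ξ n + j n)) (hξ n)
    push_cast at this ⊢
    linarith
  · refine ((h.ng (fun n => tau γ (ξ n) + β n) (fun n => tau γ (ξ n) + lam n) (fun n =>
      ⟨Nat.add_le_add_left (a n).1 _, (Nat.add_le_add_left (a n).2 _).trans (ht n)⟩)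
        W' Q ρ k).frac fr).trans (Le.of_le fun n => le_of_eq ?_)
    push_cast; ring
  · have b : ξ n ≤ R n := (Nat.le_add_right _ _).trans (hξ n)
    refine (mi_mono' (F' := fun ω => fl1 (R n) ((X n).w ω)) fun _ _ _ _ c =>
      fl1_eq_of_le (fr.1 n) (congrArg Prod.fst c)).trans (sub_le_sub (ch_anti ?_) (ch_anti ?_))
    · exact a.nest _ _ (Nat.zero_le _) b
    · exact ((a.nest _ _ (hξ n) le_rfl).pair (a.nest _ _ b le_rfl)).left _
  · refine ((h.opt _ _ (hj a) k).frac fr).of2 ((h.big.frac fr).sm 1)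
      (Eventually.of_forall fun n => ?_)
    have := lt_tau γ (ξ n)
    push_cast
    linarith

theorem rowPreTB : RPreTB := by
  intro lowV rev γ e η X τ D j₀ R m h
  obtain ⟨L, hL, hA⟩ := h.alg
  obtain ⟨s, hs, hT⟩ := h.thick
  have h5 : ∀ α : ℕ → ℕ, (∀ n, α n ≤ R n) → Low (PP X) (fun n ω => fl1 (α n) ((X n).w ω))
      (fun n => (X n).S (j₀ n)) R fun n => η * α n * lg := fun α a => by
    refine lowV (PP X) (fun n ω => fl1 (α n) ((X n).w ω)) (fun n => (X n).y) (PP X)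
      (fun _ ω => ω) (fun n => (X n).S (j₀ n)) R _ h.big (h.br α a) (dnS_rfl _) ?_
    refine Sm.mono (le_of_sm h.sm h.lk) (hA.mono fun n b => ?_)
    exact (mi_mono' ((b.nest _ _ (Nat.le_add_right _ _) le_rfl).left _)).trans
      (mi_mono (((Fn.comp (fl1 (α n)) _).trans b.wl).left _))
  have h6 : Whp (PP X) fun n ω => |(X n).pt (j₀ n) ω + (X n).px (j₀ n) ω * (X n).w ω| ≤
      L n + L n * Real.exp (s n) := Whp.of_ev (by
    filter_upwards [hA, hT] with n a b ω c
    have h1 := (a.fit _ (Nat.le_add_right _ _) ω c).2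
    have h2 := abs_le.1 (a.bd ω c).2.2.2.1
    have h3 : L n * 2 ^ j₀ n / 2 ^ τ n (j₀ n) ≤ L n * Real.exp (s n) := by
      rw [mul_div_assoc]
      refine mul_le_mul_of_nonneg_left ((div_le_iff₀ (by positivity)).2 ?_) (hL.pos n).le
      refine (pow_le_pow_right₀ one_le_two b.2.1).trans ?_
      rw [pow_add, mul_comm]
      exact mul_le_mul_of_nonneg_right (two_pow_le_exp _) (by positivity)
    have h4 := abs_le.1 (h1.trans h3)
    rw [U3.pt, U3.px, abs_le]
    constructor <;> linarith [h4.1, h4.2, h2.1, h2.2])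
  obtain ⟨L', hL', hW⟩ := rev (PP X) (fun n => (X n).w) (fun n => (X n).S (j₀ n))
    (fun n ω => ((X n).pl (j₀ n) ω).2) R R η (fun n => L n + L n * Real.exp (s n)) L h.big
    h.par.2.2.2 Frac.rfl hL
    (hA.mono fun n a => ⟨(Fn.comp Prod.snd _).trans (a.plS le_rfl (Nat.le_add_right _ _)),
      fun ω b => (a.bd ω b).2.1⟩) h5 h6
  exact ⟨_, hL'.mul (hL.add (hL.mul (Sub.exp hs fun _ => Nat.cast_nonneg _)) h.big),
    hW.mono (Eventually.of_forall fun _ _ _ c => c.2)⟩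

end Pool.Agent.MP_5168f5_an.R4.U
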