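import Pool.Agent.MP_5168f5_an.R4.USpec

/-! The theorem on planes from the optimal system. -/

namespace Pool.Agent.MP_5168f5_an.R4.U

open H19 H17S H17F Filter K31

namespace UThmA

theorem plU_ok {Ω Y : Type} (g : Geo 2 Ω) (y : Ω → Y) : (plU g).OK (g.setY y) where
  monoL := fun L L' d ω j τ e h => ⟨h.1.trans (by gcongr), h.2.trans (by gcongr)⟩
  monoj := fun L d ω j j' τ e h => by
    have h0 : 0 ≤ L := by
      have := (abs_nonneg _).trans h.1
      rwa [le_div_iff₀ (by positivity), zero_mul] at this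
    exact ⟨h.1, h.2.trans (by gcongr; exact one_le_two)⟩
  core := fun L d ω ω' j τ e h => by
    simp only [Geo.core, Geo.ln, Prod.mk.injEq] at e
    obtain ⟨⟨e1, e2, -⟩, e3, -⟩ := e
    simpa only [plU, Geo.pt, Geo.lt, ← e1, ← e2, ← e3] using h

theorem step {W β : Type} (Q : FP W) (u : W → ℝ) (B : W → β) (j : ℕ) :
    ch Q (fun v => fl1 (j + 1) (u v)) (fun v => (fl1 j (u v), B v)) ≤ lg :=
  ch_det (B := 2) fun a _ => ⟨{2 * fl1 j (u a), 2 * fl1 j (u a) + 1},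
    by exact_mod_cast Finset.card_le_two, fun b _ e => by
      have h1 := fl1_nest (Nat.le_succ j) (u b)
      have h2 : fl1 j (u b) = fl1 j (u a) := congrArg Prod.fst e
      simp only [Nat.succ_eq_add_one, Nat.add_sub_cancel_left, pow_one] at h1
      simp only [Finset.mem_insert, Finset.mem_singleton]
      omega⟩

end UThmA

open UThmA in
theorem rowThm : RThm := by
  intro hE hO hP hL tA tB tC tD tE hN Ω K g M b D η hc hf hb hn X₀ hX₀
  by_contra hcon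
  have hM := (hc.bs X₀ hX₀).big
  obtain ⟨K', φ, c1, ⟨X₁, hX₁⟩, sub, hφ, ex, df⟩ := hE K M (fun n => D n - b n)
    (fun n j ω => fl1 (b n + j) ((g n).pt ω 1)) (fun n ω => (fl1 (M n) ((g n).pt ω 0), (g n).zt ω))
    lg 1 X₀ hc.cl hM hX₀ lg_pos.le
    (fun n => by rw [one_mul]; exact_mod_cast (Nat.sub_le _ _).trans (hb n).2)
    fun X _ => Eventually.of_forall fun n j _ =>
      ⟨fun v _ w _ e => fl1_eq_of_le (Nat.le_succ _) (congrArg Prod.fst e), step _ _ _ _⟩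
  obtain ⟨e, p₀, δ, e0, e1, d0, p0, p1, mid, dens⟩ := hP M b D φ hM hb hφ (df fun k => hcon
    (k.congr (Eventually.of_forall fun n => by rw [Nat.cast_sub (hb n).1, mul_comm])
      (Eventually.of_forall fun n => by rw [Nat.add_sub_cancel' (hb n).1]; rfl)))
  obtain ⟨c2, n2⟩ := hL Ω K' g M (lev M p₀) D b η
    ⟨c1.toCl0, hc.pos, fun X a => hc.bs X (sub X a), fun X a => hc.br X (sub X a)⟩
    (fun X a => hf X (sub X a)) (mid.mono fun n a => by
      have h1 := lev_le' M p0.le n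
      have h2 : (0 : ℝ) ≤ δ * M n := by positivity
      exact_mod_cast (by linarith [a.2] : (lev M p₀ n : ℝ) ≤ D n))
    fun X τ a => hn X τ (sub X a)
  obtain ⟨L, hL1, hL2⟩ := (hc.bs X₁ (sub X₁ hX₁)).bx
  obtain ⟨Ω', π, F, K'', c3, ⟨X, hX⟩, sub', opt⟩ := hO (I := Unit) K' (gF g M (lev M p₀)) M
    (fun n _ => plU (g n)) (fun n _ => lev M p₀ n) 1 c1 hM (fun n _ => plU_ok (g n) _)
    (fun n _ => by rw [one_mul]; exact_mod_cast lev_le M p1.le n)
    ⟨X₁, fun n => 2 * L n, fun _ _ => (0, 0, 0), hX₁, hL1.const_mul hM one_le_two,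
      hL2.mono fun n a _ v hv => by
        obtain ⟨h1, h2, h3⟩ := a.bd v hv
        have h4 := h1 1
        have h5 : |(g n).z ((X₁ n).ρ v) * (g n).e ((X₁ n).ρ v) 1| ≤ L n := by
          rw [abs_mul, abs_of_nonneg h2]
          exact (mul_le_of_le_one_left (abs_nonneg _) h3.le).trans h4.2
        have h6 := abs_add_le ((g n).a ((X₁ n).ρ v) 1)
          ((g n).z ((X₁ n).ρ v) * (g n).e ((X₁ n).ρ v) 1)
        constructor <;> simp [Geo.pt, Geo.lt] <;> linarith [h4.1, h4.2, hL1.pos n]⟩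
  have ctx : Ctx K'' (fun n => (g n).pull (π n)) M (lev M p₀) F η :=
    ⟨⟨c3.toCl0, hc.pos, fun Y a => c2.bs (Y.map π) (sub' Y a),
      fun Y a => c2.br (Y.map π) (sub' Y a)⟩, opt, lev_le M p1.le⟩
  obtain ⟨a1, a2, a3⟩ := tA _ _ _ _ _ _ _ X ctx hX
  obtain ⟨b1, b2, b3, b4, b5⟩ := tB _ _ _ _ _ _ _ X ctx hX
  obtain ⟨c4, c5⟩ := tC _ _ _ _ _ _ _ X ctx hX
  refine hN η _ M b D _ (fun n s => φ n (s - b n)) e p₀ δ
    ⟨hc.pos, hM, fun n => ⟨lev_le M p1.le n, hb n⟩, a1, a2, a3, b1, b2, b3, b4, b5, c4,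
      fun β lam h => tE _ _ _ _ _ _ _ X ctx hX β lam _ fun Y hY => ?_, c5,
      tD _ _ _ _ _ _ _ X ctx hX b fun Y τ a => n2 (Y.map π) τ (sub' Y a)⟩ e0 e1 d0 p0 p1 mid dens
  refine (ex (Y.map π) (sub' Y hY) (fun n => β n - b n) (fun n => lam n - b n) fun n =>
    ⟨Nat.sub_le_sub_right (h n).2.1 _, Nat.sub_le_sub_right (h n).2.2 _⟩).1.congr
    (Eventually.of_forall fun n => ?_) (Eventually.of_forall fun _ => rfl)
  rw [Nat.add_sub_cancel' (h n).1, Nat.add_sub_cancel' ((h n).1.trans (h n).2.1)]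
  rfl

end Pool.Agent.MP_5168f5_an.R4.U
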