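import Pool.Agent.MP_5168f5_an.R4.USpec

/-! The step for planes: the exact conditions in scalar form. -/

namespace Pool.Agent.MP_5168f5_an.R4.U

open H19 H17S H17F Filter K31

namespace UTrAA

variable {Ω Lb : Type} {P : FP Ω} {g : Geo 2 Ω} {S : ℕ → Ω → Lb} {d : ℕ → Ω → ℝ × ℝ × ℝ}

theorem nest (h : ∀ j, Fn P (S j) (S (j + 1))) {i j : ℕ} (e : i ≤ j) : Fn P (S i) (S j) := by
  induction j, e using Nat.le_induction with
  | base => exact Fn.rfl _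
  | succ j _ ih => exact ih.trans (h j)

theorem alg {τ : ℕ → ℕ} {L : ℝ} (M p : ℕ)
    (hb : ∀ ω ∈ P.S, (∀ i, |g.a ω i| ≤ L ∧ |g.e ω i| ≤ L) ∧ 0 ≤ g.z ω ∧ g.z ω < 1)
    (h1 : ∀ j, Fn P (S j) (S (j + 1))) (h2 : ∀ j, Fn P (d j) (S j))
    (h3 : ∀ j, ∀ ω ∈ P.S, (toU P g S d M p).Fit L (d j ω) ω j (τ j)) :
    (toU P g S d M p).Alg τ M M L where
  bd := fun ω hω => ⟨((hb ω hω).1 0).1, ((hb ω hω).1 0).2, ((hb ω hω).1 1).1, ((hb ω hω).1 1).2,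
    (hb ω hω).2⟩
  fl := fun v _ w _ e => by
    simp only [Geo.ln, Prod.mk.injEq] at e
    simp only [e.1.1, e.1.2.1, e.2]
  fy := fun v _ w _ e => by
    simp only [Geo.ln, Prod.mk.injEq] at e
    simp only [Geo.fp, Geo.pt, Geo.lt, e.1.1.1, e.1.1.2.1, e.1.1.2.2, e.1.2, e.2]
  fz := fun v _ w _ e => by
    simp only [Geo.fp, Prod.mk.injEq] at e ⊢
    exact ⟨e.1.2.1, congrFun e.1.1 0, e.2⟩
  zt := fun v _ w _ e => by simpa only [toU_x] using e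
  nest := fun i j a _ v hv w hw e => by
    simp only [cellS, Prod.mk.injEq] at e ⊢
    exact ⟨nest h1 a v hv w hw e.1, e.2.1, fl1_eq_of_le a e.2.2.1, fl1_eq_of_le a e.2.2.2⟩
  cell := fun j _ v hv w hw e => by
    simp only [cellS, Prod.mk.injEq, toU_x] at e ⊢
    exact ⟨e.2.2.1, e.2.2.2, h2 j v hv w hw e.1⟩
  fit := fun j _ => h3 j

theorem fat (P : FP Ω) (g : Geo 2 Ω) (S : ℕ → Ω → Lb) (d : ℕ → Ω → ℝ × ℝ × ℝ) (M p : ℕ) :
    Fn P (toU P g S d M p).y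
      (fun ω => ((toU P g S d M p).z ω, fl1 p ((toU P g S d M p).u ω))) ∧
    Fn P (fun ω => fl1 p ((toU P g S d M p).u ω)) (toU P g S d M p).y ∧
    Fn P (toU P g S d M p).z fun ω =>
      ((toU P g S d M p).t ω, fl1 M ((toU P g S d M p).x ω), (toU P g S d M p).S 0 ω) := by
  refine ⟨fun v _ w _ e => ?_, fun v _ w _ e => ?_, fun v _ w _ e => by simpa only [toU_x] using e⟩
  · simp only [Geo.fp, Prod.mk.injEq, toU_u] at e ⊢
    refine ⟨⟨funext fun i => ?_, e.1.1, congrArg (·.2.1) e.1.2.2⟩, e.1.2.2⟩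
    fin_cases i
    exacts [e.1.2.1, e.2]
  · simp only [Geo.fp, Prod.mk.injEq, toU_u] at e ⊢
    exact congrFun e.1.1 1

end UTrAA

open UTrAA in
theorem rowTrA : TrA := by
  intro Ω K g M p F η X hC hX
  obtain ⟨L, s, h⟩ := (hC.opt.ok X hX).alg
  obtain ⟨L', s', h'⟩ := (hC.cls.bs X hX).bx
  refine ⟨h.mono fun n hn => ⟨hn.mono (), hn.le ()⟩, ⟨_, s.add s' (hC.cls.bs X hX).big, ?_⟩,
    Eventually.of_forall fun n => fat _ _ _ _ _ _⟩
  filter_upwards [h, h'] with n a b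
  have l1 := s.pos n
  have l2 := s'.pos n
  refine alg _ _ (fun ω hω => ⟨fun i => ⟨((b.bd ω hω).1 i).1.trans (by linarith),
    ((b.bd ω hω).1 i).2.trans (by linarith)⟩, (b.bd ω hω).2⟩) a.nest (a.fd ()) fun j ω hω => ?_
  refine U3.Fit.mono (L := L n) ?_ (by linarith) le_rfl le_rfl
  unfold U3.Fit
  rw [toU_u, toU_x]
  exact a.fit () j ω hω

theorem rowTrE : TrE := by
  intro Ω K g M p F η X hC hX β lam D h W Q ρ k
  refine Le.trans (Le.of_le fun n => ?_) (h (X.ext Q ρ) (hC.cls.cl0.dn hX k))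
  simp only [toU_u]
  refine ch_anti fun v _ w _ e => ?_
  simp only [Geo.zt, Prod.mk.injEq] at e ⊢
  exact ⟨e.1, e.2.2.1, e.2.1, congrArg (·.2.1) e.2.2.2⟩

end Pool.Agent.MP_5168f5_an.R4.U
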