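import Pool.Agent.MP_5168f5_an.R4.USpec

/-! From classes to the scalar form: the entropy conditions. -/

namespace Pool.Agent.MP_5168f5_an.R4.U

open H19 H17S H17F Filter K31

namespace UTrBA

variable {Ω Lb : Type} (P : FP Ω) (g : Geo 2 Ω) (S : ℕ → Ω → Lb) (d : ℕ → Ω → ℝ × ℝ × ℝ)
  (M p j : ℕ)

theorem swap {α β γ δ : Type} (F : Ω → α) (F' : Ω → β) (G : Ω → γ) (K : Ω → δ) :
    mi P (fun ω => (F ω, F' ω)) G K ≤ mi P (fun ω => (F' ω, F ω)) G K :=
  mi_mono' (((Fn.snd _ _).pair (Fn.fst _ _)).left _)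

theorem lab (hB : KB) (e : j ≤ M) :
    (g.fat ![M, p]).hk P j (cellS g S j) ≤ (g.fat ![M, p]).hk P j (S j) +
      ch P (fun ω => fl1 j (g.pt ω 0)) (g.win j) ∧
    (g.fat ![M, p]).lk P (cellS g S j) ≤ (g.fat ![M, p]).lk P (S j) := by
  obtain ⟨h1, h2⟩ := hB.add P (g.fat ![M, p]) j
    (fun ω => (g.θ ω, fl1 j (g.z ω), fl1 j (g.pt ω 0))) (S j)
  refine ⟨(swap P _ _ _ _).trans (h1.trans (add_le_add le_rfl
    (ch_le (fun a _ b _ q => ?_) (Fn.snd _ _)))), (swap P _ _ _ _).trans (h2.trans ?_)⟩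
  · exact Prod.ext (congrArg (·.2.2.1.2.2) q) (Prod.ext (congrArg (·.2.2.2) q) (congrArg (·.1) q))
  · rw [ch_zero fun a _ b _ q => ?_, add_zero]
    exact Prod.ext (congrArg (·.2.2.2) q) (Prod.ext (congrArg (fun y => fl1 j y.2.2.1) q)
      (fl1_eq_of_le e (congrArg (·.2.1 0) q)))

theorem near {L : ℝ} {a b : Ω} (h : |g.e b 0| ≤ L) (q : g.win j a = g.win j b) :
    |g.pt a 0 - g.pt b 0| ≤ L / 2 ^ j := by
  simp only [Geo.win, Geo.ln, Prod.mk.injEq] at q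
  have e : g.pt a 0 - g.pt b 0 = g.e b 0 * (g.z a - g.z b) := by
    simp only [Geo.pt, Geo.lt, q.1.1, q.1.2.1, Pi.add_apply, Pi.smul_apply, smul_eq_mul]; ring
  rw [e, abs_mul, ← mul_one_div]
  exact mul_le_mul h (near_of_fl1 q.2) (abs_nonneg _) ((abs_nonneg _).trans h)

theorem nest (h : ∀ j, Fn P (S j) (S (j + 1))) : Fn P (cellS g S 0) (cellS g S j) := by
  have h1 : ∀ j, Fn P (S 0) (S j) := fun j => by
    induction j with
    | zero => exact Fn.rfl _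
    | succ j ih => exact ih.trans (h j)
  intro a u b v q
  simp only [cellS, Prod.mk.injEq] at q ⊢
  exact ⟨h1 j a u b v q.1, q.2.1, fl1_eq_of_le j.zero_le q.2.2.1, fl1_eq_of_le j.zero_le q.2.2.2⟩

theorem inf : mi P g.z (fun ω => (g.ln ω, cellS g S 0 ω)) (cellS g S 0) ≤
    mi P g.z (fun ω => (g.ln ω, cellS g S 0 ω)) fun ω => (fl1 0 (g.z ω), g.θ ω) :=
  mi_cond (fun _ _ _ _ q => Prod.ext (congrArg (·.2.2.1) q) (congrArg (·.2.1) q))
    ((Fn.snd _ _).left _)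

theorem hk (h : ∀ j, Fn P (S j) (S (j + 1))) : (toU P g S d M p).hk j (cellS g S j) ≤
    (g.fat ![M, p]).hk P j (cellS g S j) := by
  refine (mi_left (F := cellS g S j) (K := g.win j) (fun _ _ _ _ q => ?_) ?_ (Fn.fst _ _)).trans
    (mi_mono fun _ _ _ _ q => congrArg (·.1.2.1) q)
  · exact Prod.ext (congrArg (·.1.1) q) (congrArg (·.2) q)
  · exact (Fn.pair (fun _ _ _ _ q => congrArg (·.2.1) q) ((nest P g S j h).left _)).pair
      fun _ _ _ _ q => congrArg (·.2.2) q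

theorem lk (h : ∀ j, Fn P (S j) (S (j + 1))) : (toU P g S d M p).lk (cellS g S j) ≤
    (g.fat ![M, p]).lk P (cellS g S j) :=
  (mi_mono (G' := g.ln) ((Fn.fst _ _).pair ((Fn.snd _ _).right _))).trans
    ((mi_left (F := cellS g S j) (K := g.fp ![M, p]) (Fn.fst _ _)
      ((Fn.snd _ _).pair ((nest P g S j h).left _)) (Fn.fst _ _)).trans
      (mi_mono fun _ _ _ _ q => congrArg (·.1.1) q))

theorem xa : ch P (fun ω => fl1 M (g.pt ω 0))
      (fun ω => (fl1 j (g.pt ω 0), cellS g S j ω, g.zt ω)) ≤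
    ch P (fun ω => fl1 M ((toU P g S d M p).x ω)) fun ω => (g.z ω, cellS g S j ω) := by
  simp only [toU_x]
  exact ch_anti fun _ _ _ _ q => Prod.ext (congrArg (·.2.2.1) q) (congrArg (·.2.1) q)

end UTrBA

open UTrBA in
theorem rowTrB : RTrB := by
  intro hB hX Ω K g M p F η X c k
  have bs := c.cls.bs X k
  obtain ⟨⟨_, -, al⟩, fl⟩ := c.opt.ok X k
  have ne := al.mono fun n a => a.nest
  obtain ⟨L, l, bx⟩ := bs.bx
  have lb : ∀ j : ℕ → ℕ, (∀ n, j n ≤ M n) → Lab X.P (X.G (gF g M p)) M j fun n =>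
      cellS (X.G g n) (fun j v => (F n).S j ((X n).ρ v)) (j n) := fun j hj =>
    ⟨((fl j).h.add (Sm.near1 (P := X.P) (x := fun n v => (X.G g n).pt v 0)
      (G := fun n => (X.G g n).win (j n)) (j := j) bs.big l (bx.mono fun n a _ _ b u q =>
        near (X.G g n) (j n) ((a.bd b u).1 0).2 q))).mono (Eventually.of_forall fun n =>
          (lab (X n).Q (X.G g n) _ (M n) (p n) (j n) hB (hj n)).1),
      (fl j).l.mono (Eventually.of_forall fun n =>
        (lab (X n).Q (X.G g n) _ (M n) (p n) (j n) hB (hj n)).2)⟩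
  have l0 := (lb (fun _ => 0) fun n => Nat.zero_le _).h
  refine ⟨(hB.inf _ _ M _ _ bs l0).mono (Eventually.of_forall fun n =>
    inf (X n).Q (X.G g n) _), ?_, fun j hj => (lb j hj).h.mono (ne.mono fun n a =>
      hk (X n).Q (X.G g n) _ _ (M n) (p n) (j n) a), (lb M fun _ => le_rfl).l.mono
      (ne.mono fun n a => lk (X n).Q (X.G g n) _ _ (M n) (p n) (M n) a), fun j hj => ?_⟩
  · refine (Le.of_le fun n => by simp).trans ((hB.hgt _ _ M _ (fun _ => 0) M _ bs l0 fun n =>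
      ⟨le_rfl, Nat.zero_le _, le_rfl⟩).trans (Le.of_le fun n => ch_anti (Fn.snd _ _)))
  · exact (hX K (gF g M p) M j j M 0 η X _ c.cls k (lb j hj)
      ((hB.fatB X.P (X.G (gF g M p)) M (fun n => ![M n, p n]) bs).2.1 0) fun n =>
        ⟨le_rfl, hj n, le_rfl⟩).trans (Le.of_le fun n =>
          xa (X n).Q (X.G g n) _ _ (M n) (p n) (j n))

end Pool.Agent.MP_5168f5_an.R4.U
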