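import Pool.Agent.MP_5168f5_an.R4.USpec

/-! From classes to the scalar form: labels, broadness, optimality. -/

namespace Pool.Agent.MP_5168f5_an.R4.U

open H19 H17S H17F Filter K31

namespace UTrCA

section Fin

variable {Ω Lb α : Type} (P : FP Ω) (g : Geo 2 Ω) (S : ℕ → Ω → Lb) (d : ℕ → Ω → ℝ × ℝ × ℝ)
  (M p j : ℕ) (lam : Ω → α)

theorem hk_le : ((g.fat ![M, p]).ctx (cellS g S 0)).hk P j lam ≤ (toU P g S d M p).hk j lam := by
  refine mi_right ?_ ?_ ?_ <;> intro a _ b _ e <;>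
    simp only [Geo.core, Geo.win, Geo.ln, Geo.fp, Geo.pt, Geo.lt, Prod.mk.injEq] at e ⊢
  · tauto
  · tauto
  · obtain ⟨e1, ⟨⟨e2, e3, e4⟩, e5⟩, -⟩ := e
    rw [e1, e2, e3, e4, e5]
    simp

theorem lk_le : ((g.fat ![M, p]).ctx (cellS g S 0)).lk P lam ≤ (toU P g S d M p).lk lam := by
  refine mi_right ?_ ?_ ?_ <;> intro a _ b _ e <;>
    simp only [Geo.core, Geo.ln, Geo.fp, Prod.mk.injEq] at e ⊢ <;> tauto

theorem swap {β γ : Type} (C : Ω → β) (W : Ω → γ) : mi P (cellS g S 0) C W ≤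
    mi P (fun ω => ((g.θ ω, fl1 0 (g.z ω), fl1 0 (g.pt ω 0)), S 0 ω)) C W :=
  mi_mono' fun a _ b _ e => by
    simp only [cellS, Prod.mk.injEq] at e ⊢
    tauto

theorem hk0 (kb : KB) {L : ℝ} (h : (g.fat ![M, p]).Bx P L) (hL : 0 ≤ L) :
    (g.fat ![M, p]).hk P j (cellS g S 0) ≤
      (g.fat ![M, p]).hk P j (S 0) + 1 * Real.log (2 * L + 3) := by
  refine (swap P g S _ _).trans ((kb.add P (g.fat ![M, p]) j _ (S 0)).1.trans
    (add_le_add le_rfl ?_))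
  rw [one_mul]
  refine (ch_mono (F' := fun ω => fl1 0 (g.pt ω 0)) fun a _ b _ e => ?_).trans
    (ch_near1 hL fun a ha b hb e => ?_) <;>
    simp only [Geo.win, Geo.ln, Prod.mk.injEq] at e ⊢
  · exact ⟨e.2.2.1.2.2, fl1_eq_of_le j.zero_le e.2.2.2, e.1⟩
  · obtain ⟨h1, h2, h3⟩ := h.bd a ha
    obtain ⟨-, h4, h5⟩ := h.bd b hb
    have h6 : |g.z a - g.z b| ≤ 1 := abs_le.2 ⟨by linarith, by linarith⟩
    have h7 : g.pt a 0 - g.pt b 0 = (g.z a - g.z b) * g.e a 0 := by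
      simp only [Geo.pt, Geo.lt, Pi.add_apply, Pi.smul_apply, smul_eq_mul, e.2.1.1, e.2.1.2.1]
      ring
    rw [h7, abs_mul, pow_zero, div_one]
    exact (mul_le_of_le_one_left (abs_nonneg _) h6).trans (h1 0).2

theorem lk0 (kb : KB) : (g.fat ![M, p]).lk P (cellS g S 0) ≤ (g.fat ![M, p]).lk P (S 0) := by
  refine (swap P g S _ _).trans ((kb.add P (g.fat ![M, p]) 0 _ (S 0)).2.trans
    (add_le_of_nonpos_right (ch_zero fun a _ b _ e => ?_).le))
  simp only [Geo.fp, Prod.mk.injEq] at e ⊢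
  exact ⟨e.2.2.2, by rw [e.2.2.1], fl1_eq_of_le M.zero_le (congrFun e.2.1 0)⟩

end Fin

variable {Ω : ℕ → Type} {K : Mb Ω → Prop} {g : Gs 2 Ω} {M p : ℕ → ℕ}
  {F : ∀ n, Fam fun _ : Unit => plU (g n)} {η : ℝ} {X : Mb Ω}

/-- The context is a label. -/
theorem lab0 (kb : KB) (c : Ctx K g M p F η) (hX : K X) (j : ℕ → ℕ) :
    Lab X.P (X.G (gF g M p)) M j fun n => (XU g M p F X n).S 0 := by
  have b := c.cls.bs X hX
  obtain ⟨L, s, a⟩ := b.bx
  have l := (c.opt.ok X hX).lab fun _ => 0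
  have u := kb.up _ _ _ _ j _ (Eventually.of_forall fun n => Nat.zero_le _) l.h
  exact ⟨(Sm.add u (s.log3 b.big 1)).mono (a.mono fun n h =>
      hk0 (X n).Q (X.G g n) (fun j v => (F n).S j ((X n).ρ v)) (M n) (p n) (j n) kb h (s.pos n).le),
    l.l.mono (Eventually.of_forall fun n =>
      lk0 (X n).Q (X.G g n) (fun j v => (F n).S j ((X n).ρ v)) (M n) (p n) kb)⟩

end UTrCA

open UTrCA

theorem rowTrL : RTrL := by
  intro kb Ω K g M p F η X Λ lam j c hX h1 h2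
  have l := lab0 kb c hX j
  exact ⟨(Sm.add l.h h1).mono (Eventually.of_forall fun n =>
      (kb.pair _ _ _ _ _).1.trans_le (add_le_add le_rfl (hk_le (X n).Q (X.G g n)
        (fun j v => (F n).S j ((X n).ρ v)) _ (M n) (p n) (j n) (lam n)))),
    (Sm.add l.l h2).mono (Eventually.of_forall fun n =>
      (kb.pair _ _ 0 _ _).2.trans_le (add_le_add le_rfl (lk_le (X n).Q (X.G g n)
        (fun j v => (F n).S j ((X n).ρ v)) _ (M n) (p n) (lam n))))⟩

theorem rowTrC : RTrC := by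
  intro kb trl Ω K g M p F η X c hX
  refine ⟨fun α hα W Q ρ k => ?_, fun j j' th ε hε h ⟨W, Λ, Q, ρ, lam, d, k, h1, h2, h3⟩ => ?_⟩
  · have hX' : K (X.ext Q ρ) := c.cls.cl0.dn hX k
    exact kb.brc _ _ M _ (fun n => (XU g M p F (X.ext Q ρ) n).y) 0 η (c.cls.br _ hX')
      (lab0 kb c hX' fun _ => 0).l (Le.of_le fun n => (ch_zero
        ((Fn.snd _ _).pair (Fn.fst _ _))).le) α hα
  · have hX' : K (X.ext Q ρ) := c.cls.cl0.dn hX k
    have l := trl Ω K g M p F η (X.ext Q ρ) Λ lam j c hX' h1 h2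
    refine c.opt.opt () (X.ext Q ρ) j j' th ε hX' hε h ⟨_, _, d, fun _ => 4, l,
      (c.cls.bs X hX).big.sub (by norm_num), h3.mono fun n a => ⟨a.1.left _, fun v hv => ?_⟩⟩
    have e := a.2 v hv
    rw [U3.Fit, show (XU g M p F X n).u (ρ n v) = _ from toU_u _ _ _ _ _ _ _,
      show (XU g M p F X n).x (ρ n v) = _ from toU_x _ _ _ _ _ _ _] at e
    exact e

end Pool.Agent.MP_5168f5_an.R4.U
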