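import Pool.Agent.MP_5168f5_an.R4.USpec

/-! A thin plane of level zero in the scalar form has bounded slopes on a refinement. -/

namespace Pool.Agent.MP_5168f5_an.R4.U

open H19 H17S H17F Filter K31

namespace UTrDA

theorem leak {X : U3} {W Λ : Type} (Q : FP W) (ρ : W → X.Ω) (lam : W → Λ) (α : ℕ)
    (h : Fn Q (fun c => X.w (ρ c)) fun c => X.l (ρ c)) :
    mi Q lam (fun c => fl1 α (X.w (ρ c))) (fun c => X.y (ρ c)) ≤ (X.pull Q ρ).lk lam := by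
  unfold U3.lk
  exact mi_mono fun x hx y hy e => congrArg (fl1 α) (h x hx y hy (congrArg Prod.fst e))

/-- Bounded slopes, in the scalar form. -/
theorem slopes (hLow : LowV) (hRev : Rev) {X : ℕ → U3} {M th : ℕ → ℕ} {τ : ℕ → ℕ → ℕ} {L : ℕ → ℝ}
    {η : ℝ} (hM : Big M) (hη : 0 < η) (hs : Sub M L)
    (hal : ∀ᶠ n in UF, (X n).Alg (τ n) (M n) (M n) (L n))
    (hb : ∀ α : ℕ → ℕ, (∀ n, α n ≤ M n) →
      Low (PP X) (fun n ω => fl1 (α n) ((X n).w ω)) (fun n => (X n).y) M fun n => η * α n * lg)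
    (h : Thn X M (fun _ => 0) th) :
    ∃ (W Λ : ℕ → Type) (Q : ∀ n, FP (W n)) (ρ : ∀ n, W n → (X n).Ω) (lam : ∀ n, W n → Λ n)
      (d : ∀ n, W n → ℝ × ℝ × ℝ) (L' : ℕ → ℝ), DnS Q ρ (PP X) ∧ Sub M L' ∧
      Sm M (fun n => ((X n).pull (Q n) (ρ n)).hk 0 (lam n)) ∧
      Sm M (fun n => ((X n).pull (Q n) (ρ n)).lk (lam n)) ∧
      ∀ᶠ n in UF, Fn (Q n) (d n) (lam n) ∧ ∀ v ∈ (Q n).S,
        (X n).Fit (L' n) (d n v) (ρ n v) 0 (th n) ∧ |(d n v).2.1| ≤ L' n ∧ |(d n v).2.2| ≤ L' n := by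
  obtain ⟨W, Λ, Q, ρ, lam, d, hdn, hhk, hlk, hev⟩ := h
  have hm : ∀ᶠ n in UF, ∀ v ∈ (Q n).S, ρ n v ∈ (X n).P.S := by
    obtain ⟨C, -, b⟩ := hdn
    exact b.mono fun n u v hv => u.mem hv
  have a1 : ∀ α : ℕ → ℕ, Sm M fun n => mi (Q n) (lam n) (fun c => fl1 (α n) ((X n).w (ρ n c)))
      fun c => (X n).y (ρ n c) := fun α => hlk.mono (by
    filter_upwards [hal, hm] with n a b
    exact leak _ _ _ _ fun x hx y hy => a.wl _ (b x hx) _ (b y hy))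
  have a2 : Whp Q fun n c => |(d n c).2.1 + (d n c).2.2 * (X n).w (ρ n c)| ≤ L n + 4 := by
    refine Whp.of_ev ?_
    filter_upwards [hal, hm, hev] with n a b c v hv
    have h1 := abs_le.1 (a.bd _ (b v hv)).2.2.2.1
    have h2 := (c.2 v hv).2
    rw [pow_zero, mul_one] at h2
    have h3 := abs_le.1 (h2.trans (div_le_self (by norm_num) (one_le_pow₀ one_le_two)))
    exact abs_le.2 ⟨by linarith [h1.1, h3.2], by linarith [h1.2, h3.1]⟩
  have a3 : ∀ᶠ n in UF, Fn (Q n) (fun c => (d n c).2) (lam n) ∧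
      ∀ v ∈ (Q n).S, |(X n).w (ρ n v)| ≤ L n := by
    filter_upwards [hal, hm, hev] with n a b c
    exact ⟨fun x hx y hy e => congrArg Prod.snd (c.1 x hx y hy e),
      fun v hv => (a.bd _ (b v hv)).2.1⟩
  have a4 := fun α hα => hLow _ _ _ Q ρ lam M _ hM (hb α hα) hdn (a1 α)
  obtain ⟨L', hs', hw⟩ := hRev Q (fun n c => (X n).w (ρ n c)) lam (fun n c => (d n c).2)
    M M η (fun n => L n + 4) L hM hη Frac.rfl hs a3 a4 a2
  have hd := dnS_cE hw.pos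
  unfold U3.hk U3.lk at *
  have b1 := hd.sm_mi hM hhk
  have b2 := hd.sm_mi hM hlk
  refine ⟨W, Λ, _, ρ, lam, d, fun n => L' n * (L n + 4), hd.trans hdn,
    hs'.mul (hs.add (hM.sub (by norm_num)) hM), b1, b2, ?_⟩
  filter_upwards [hev, hw.pos.sure] with n c e
  exact ⟨fn_cE c.1 _, fun v hv => ⟨(c.2 v (e v hv).1).mono (by nlinarith [hs.1 n, hs'.1 n])
    le_rfl le_rfl, (e v hv).2⟩⟩

end UTrDA

theorem rowTrD : RTrD := by
  intro hLow hRev kp hA hL hC Ω K g M p F η X hc hX lo hno th h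
  have hM := (hc.cls.bs X hX).big
  obtain ⟨-, ⟨L, hs, hal⟩, -⟩ := hA Ω K g M p F η X hc hX
  obtain ⟨W, Λ, Q, ρ, lam, d, L', hdn, hs', hhk, hlk, hev⟩ := UTrDA.slopes hLow hRev hM hc.cls.pos
    hs hal (hC Ω K g M p F η X hc hX).1 h
  have hX' := hc.cls.cl0.dn hX hdn
  have hl := hL Ω K g M p F η _ Λ lam (fun _ => 0) hc hX'
  unfold U3.hk U3.lk at *
  refine hno _ th hX' ⟨_, _, fun n v => ((d n v).1, (d n v).2.1, ![(d n v).2.2, 0]),
    fun n => 2 * L' n, hl hhk hlk, hs'.const_mul hM one_le_two,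
    hev.mono fun n c => ⟨fun x hx y hy k => ?_, fun v hv => ?_⟩⟩
  · exact congrArg (fun u : ℝ × ℝ × ℝ => (u.1, u.2.1, ![u.2.2, 0]))
      (c.1 x hx y hy (congrArg Prod.fst k))
  obtain ⟨⟨h1, h2⟩, h3, h4⟩ := c.2 v hv
  rw [show (XU g M p F X n).x (ρ n v) = (g n).pt ((X n).ρ (ρ n v)) 0 from toU_x ..,
    show (XU g M p F X n).u (ρ n v) = (g n).pt ((X n).ρ (ρ n v)) 1 from toU_u ..] at h1
  refine (kp.iff (g n) {0} 1 _ _ _ 0 (th n)).2 h3 (Fin.forall_fin_two.2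
    ⟨⟨h4, fun k => absurd (Finset.mem_singleton_self _) k⟩,
      abs_zero.trans_le (hs'.pos n).le, fun _ => rfl⟩) ?_ ?_
  · rw [Fin.sum_univ_two]
    exact (congrArg (fun s => |_ - s|) ((congrArg _ (zero_mul _)).trans (add_zero _))).trans_le h1
  · rw [Fin.sum_univ_two]
    exact (congrArg (fun s => |_ - s|) ((congrArg _ (zero_mul _)).trans (add_zero _))).trans_le h2

end Pool.Agent.MP_5168f5_an.R4.U
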