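import Pool.Agent.MP_5168f5_an.R4.USpec

/-! Kakeya sets in four dimensions, the step for planes: a good window and the diagonal limit. -/

namespace Pool.Agent.MP_5168f5_an.R4.U

open H19 H17S H17F Filter K31

namespace UWinA

theorem pig {f : ℕ → ℝ} {B : ℝ} {k : ℕ} (hk : 0 < k) (h0 : f 0 ≤ B) (h1 : 0 ≤ f k) :
    ∃ i < k, k * (f i - f (i + 1)) ≤ B := by
  by_contra c
  push Not at c
  have h2 : ∀ i : ℕ, i < k → k * f (i + 1) + (i + 1) * B < k * f 0 := fun i => by
    induction i with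
    | zero => intro h; have := c 0 h; push_cast; linarith
    | succ i ih =>
      intro h
      have := c _ h
      have := ih (Nat.lt_of_succ_lt h)
      push_cast
      linarith
  obtain ⟨i, rfl⟩ : ∃ i, k = i + 1 := ⟨k - 1, by omega⟩
  have h3 := h2 i (Nat.lt_succ_self i)
  push_cast at h3
  have h4 : (0 : ℝ) ≤ i + 1 := by positivity
  nlinarith [mul_nonneg h4 h1, mul_le_mul_of_nonneg_left h0 h4]

theorem div_le {k : ℕ → ℕ} (hk : Big k) (R : ℕ → ℕ) {ε : ℝ} (hε : 0 < ε) :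
    ∀ᶠ n in UF, (R n : ℝ) / k n ≤ ε * R n := by
  filter_upwards [hk.ev (1 / ε)] with n a
  have k0 : (0 : ℝ) < k n := lt_of_lt_of_le (by positivity) a
  rw [div_le_iff₀ hε] at a
  rw [div_le_iff₀ k0]
  nlinarith [Nat.cast_nonneg (α := ℝ) (R n)]

theorem le_of {k R : ℕ → ℕ} (hk : Big k) {f g : ℕ → ℝ}
    (h : ∀ᶠ n in UF, f n ≤ g n + R n / k n) : Le R f g := fun ε hε => by
  filter_upwards [h, div_le hk R hε] with n a b
  linarith

theorem sm_of {k R : ℕ → ℕ} (hk : Big k) {f : ℕ → ℝ} (h : ∀ᶠ n in UF, f n ≤ R n / k n) :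
    Sm R f := le_of hk (h.mono fun n a => by rwa [zero_add])

theorem sm_nat {k R s : ℕ → ℕ} (hk : Big k) (h : ∀ᶠ n in UF, k n * s n ≤ R n) :
    Sm R fun n => s n := by
  refine sm_of hk ?_
  filter_upwards [h, hk.ev 1] with n a b
  rw [le_div_iff₀ (by linarith), mul_comm]
  exact_mod_cast a

theorem big_of {k m : ℕ → ℕ} (hk : Big k) (h : ∀ᶠ n in UF, k n ≤ m n) : Big m :=
  tendsto_atTop_mono' _ h hk

theorem dn_ev {W W' : ℕ → Type} {P : ∀ n, FP (W n)} {Q : ∀ n, FP (W' n)} {ρ : ∀ n, W' n → W n}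
    {k : ℕ → ℕ} (hk : Big k) (h : DnS Q ρ P) : ∀ᶠ n in UF, Dn (k n) (Q n) (ρ n) (P n) := by
  obtain ⟨C, -, b⟩ := h
  filter_upwards [b, hk.ev C] with n u v using u.mono v

end UWinA

open UWinA

theorem rowWin : Win := by
  intro X τ D M j₁ R k L h hk hM
  obtain ⟨ω, hω, -⟩ := ex_of_pb (P := X.P) (E := fun _ => True) (by rw [pb_true]; exact one_pos)
  have L0 : 0 ≤ L := (abs_nonneg _).trans (h.bd ω hω).1
  have h1 : (1 : ℝ) ≤ 2 ^ R := one_le_pow₀ one_le_two
  have h2 : ch X.P (fun ω => fl1 R (X.w ω)) (X.S (j₁ + 0 * R)) ≤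
      R * lg + Real.log (4 * L + 3) := by
    refine (ch_near1 (L := 2 * L * 2 ^ R) (by positivity) fun a ha b hb _ => ?_).trans ?_
    · rw [mul_div_cancel_right₀ _ (by positivity)]
      linarith [abs_sub (X.w a) (X.w b), (h.bd a ha).2.1, (h.bd b hb).2.1]
    · rw [← log_two_pow, ← Real.log_mul (by positivity) (by positivity)]
      exact Real.log_le_log (by positivity) (by nlinarith)
  obtain ⟨i, a, b⟩ := pig (f := fun i => ch X.P (fun ω => fl1 R (X.w ω)) (X.S (j₁ + i * R))) hk h2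
    (ch_nonneg _ _)
  refine ⟨i, a, le_trans (mul_le_mul_of_nonneg_left (sub_le_sub_left ?_ _) (Nat.cast_nonneg _)) b⟩
  have h3 : (i + 1) * R ≤ k * R := Nat.mul_le_mul_right _ a
  rw [add_mul, one_mul] at h3
  rw [add_mul, one_mul, ← add_assoc]
  exact ch_anti ((Fn.rfl _).pair (h.nest _ _ (Nat.le_add_right _ _) (by omega)))

theorem rowTanL : TanL := by
  intro γ e η X τ D par H
  obtain ⟨k, hk, h1⟩ := ks.spill
    (fun k n => 0 < k → ∃ j₀ R m, PreF γ e η (X n) (τ n) (D n) j₀ R m k) fun k => by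
      by_cases c : 0 < k
      · exact (H k c).mono fun _ a _ => a
      · exact Eventually.of_forall fun _ a => absurd a c
  have h2 : ∀ᶠ n in UF, ∃ v : ℕ × ℕ × ℕ,
      PreF γ e η (X n) (τ n) (D n) v.1 v.2.1 v.2.2 (k n) := by
    filter_upwards [h1, tendsto_atTop.1 hk 1] with n a b
    obtain ⟨j₀, R, m, c⟩ := a _ le_rfl b
    exact ⟨(j₀, R, m), c⟩
  obtain ⟨v, h⟩ := h2.choice
  obtain ⟨s, hs⟩ := (h.mono fun n a => a.thick).choice
  have bm : Big fun n => (v n).2.2 := big_of hk (h.mono fun n a => a.km.1)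
  refine ⟨fun n => (v n).1, fun n => (v n).2.1, fun n => (v n).2.2,
    { par := par
      big := big_of bm ?_
      bigm := bm
      sm := sm_nat hk (h.mono fun n a => a.km.2)
      alg := sub_iff.2 fun ε hε => ?_
      thick := ⟨s, sm_nat hk (hs.mono fun n a => a.1), hs.mono fun n a => a.2⟩
      inf := sm_of hk (h.mono fun n a => a.inf)
      hgt := le_of hk (h.mono fun n a => a.hgt)
      hk := fun j hj => sm_of hk (h.mono fun n a => a.hk _ (hj n))
      lk := sm_of hk (h.mono fun n a => a.lk)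
      xs := fun j hj => le_of hk (h.mono fun n a => a.xs _ (hj n))
      xz := fun j hj => sm_of hk (h.mono fun n a => a.xz _ (hj n))
      br := fun α hα W Q ρ d => le_of hk ((h.and (dn_ev hk d)).mono fun n a =>
        a.1.br _ _ _ _ a.2 (hα n))
      ng := fun β lam hβ W Q ρ d => le_of hk ((h.and (dn_ev hk d)).mono fun n a =>
        a.1.ng _ _ _ _ _ a.2 (hβ n).1 (hβ n).2)
      typ := sm_of hk (h.mono fun n a => a.typ)
      opt := fun j th hj ⟨W, Λ, Q, ρ, lam, d, t1, t2, t3, t4⟩ => le_of hk ?_ }⟩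
  · filter_upwards [h, tendsto_atTop.1 hk 1] with n a b
    exact (Nat.le_mul_of_pos_left _ b).trans a.km.2
  · filter_upwards [h, div_le hk (fun n => (v n).2.1) hε] with n a b
    obtain ⟨L, c1, c2, c3⟩ := a.alg
    exact ⟨L, c1, c2.trans (Real.exp_le_exp.2 b), c3⟩
  · filter_upwards [h, dn_ev hk t1, t2 1 one_pos, t3 1 one_pos, t4] with n a b c1 c2 c3
    rw [zero_add, one_mul] at c1 c2
    exact a.opt _ _ _ _ (lam n) (d n) _ _ b c1 c2 c3.1 c3.2 (hj n)

end Pool.Agent.MP_5168f5_an.R4.U
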