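import Pool.Agent.MP_5168f5_an.R4.Kit
import Pool.Agent.MP_5168f5_an.R4.UGlue
import Pool.Agent.MP_5168f5_an.R4.UWrap
import Pool.Agent.MP_5168f5_an.R4.UConst
import Pool.Agent.MP_5168f5_an.R4.UCrF
import Pool.Agent.MP_5168f5_an.R4.UCrS
import Pool.Agent.MP_5168f5_an.R4.UCra
import Pool.Agent.MP_5168f5_an.R4.UCrs
import Pool.Agent.MP_5168f5_an.R4.UDep
import Pool.Agent.MP_5168f5_an.R4.UFLab
import Pool.Agent.MP_5168f5_an.R4.UFul
import Pool.Agent.MP_5168f5_an.R4.UGClose
import Pool.Agent.MP_5168f5_an.R4.UGErr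
import Pool.Agent.MP_5168f5_an.R4.UGExt
import Pool.Agent.MP_5168f5_an.R4.UGGrow
import Pool.Agent.MP_5168f5_an.R4.UGLow
import Pool.Agent.MP_5168f5_an.R4.UGShare
import Pool.Agent.MP_5168f5_an.R4.UGX
import Pool.Agent.MP_5168f5_an.R4.UHT
import Pool.Agent.MP_5168f5_an.R4.UHan
import Pool.Agent.MP_5168f5_an.R4.UHanF
import Pool.Agent.MP_5168f5_an.R4.UJnt
import Pool.Agent.MP_5168f5_an.R4.ULW
import Pool.Agent.MP_5168f5_an.R4.ULabel
import Pool.Agent.MP_5168f5_an.R4.ULift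
import Pool.Agent.MP_5168f5_an.R4.ULip
import Pool.Agent.MP_5168f5_an.R4.ULoc
import Pool.Agent.MP_5168f5_an.R4.UMu1
import Pool.Agent.MP_5168f5_an.R4.UMu2
import Pool.Agent.MP_5168f5_an.R4.UMu3
import Pool.Agent.MP_5168f5_an.R4.UMu4
import Pool.Agent.MP_5168f5_an.R4.UNga
import Pool.Agent.MP_5168f5_an.R4.UOne
import Pool.Agent.MP_5168f5_an.R4.UOneA
import Pool.Agent.MP_5168f5_an.R4.UOneB
import Pool.Agent.MP_5168f5_an.R4.UPLd
import Pool.Agent.MP_5168f5_an.R4.UPreTan
import Pool.Agent.MP_5168f5_an.R4.UProf1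
import Pool.Agent.MP_5168f5_an.R4.UProf2
import Pool.Agent.MP_5168f5_an.R4.URcE
import Pool.Agent.MP_5168f5_an.R4.URct
import Pool.Agent.MP_5168f5_an.R4.URef
import Pool.Agent.MP_5168f5_an.R4.URev
import Pool.Agent.MP_5168f5_an.R4.URob
import Pool.Agent.MP_5168f5_an.R4.USat2
import Pool.Agent.MP_5168f5_an.R4.UShA
import Pool.Agent.MP_5168f5_an.R4.UShF
import Pool.Agent.MP_5168f5_an.R4.UShG
import Pool.Agent.MP_5168f5_an.R4.UTB
import Pool.Agent.MP_5168f5_an.R4.UTanF
import Pool.Agent.MP_5168f5_an.R4.UTanN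
import Pool.Agent.MP_5168f5_an.R4.UTanPre
import Pool.Agent.MP_5168f5_an.R4.UThm
import Pool.Agent.MP_5168f5_an.R4.UTrA
import Pool.Agent.MP_5168f5_an.R4.UTrB
import Pool.Agent.MP_5168f5_an.R4.UTrC
import Pool.Agent.MP_5168f5_an.R4.UTrD
import Pool.Agent.MP_5168f5_an.R4.UWin

/-! Kakeya sets in four dimensions, the step for planes: all parts put together. -/

namespace Pool.Agent.MP_5168f5_an.R4

namespace U

theorem sepL : SepL := rowSepL rowSep1
theorem rev : Rev := rowRev sepL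
theorem shF : ShF := rowShF rowShA
theorem shG : ShG := rowShG rowShA
theorem preTan : PreTan := rowPreTan rowShA shF shG
theorem preTB : PreTB := rowPreTB rowLowV rev
theorem hT : HT := rowHT rowLowV sepL rowFulL
theorem tB : TB := rowTB rev hT
theorem uS : US := rowUS tB
theorem nGc : NGc := rowNGc uS
theorem pLd : PLd := rowPLd pl rowRef hT uS nGc
theorem lip : Lip := rowLip pLd
theorem label : Label := rowLabel rowFLab tB
theorem han : Han := rowHan rowLW3 rowFulL rowRef tB nGc (rowHanF hT)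
theorem oneT : One := rowOne rowRef han (rowOneA hT) (rowOneB rowLowV rev rowCol rowInd2)
  (rowConst rowLowV rev) label
theorem twoT : Two := two_of (rowCra rowInd2 hT) rowLoc (rowFul hT pLd) (rowJnt hT) (rowJ4 hT)
  (rowNga rowFulL rowRef nGc) rowRcE rowRct (rowMu1 sepL rowFulL hT) rowMu2 (rowMu3 hT) rowMu4
  (rowCrS rowSep1 rowLowV) (rowCrF hT) (rowCrs rowFulL) (rowFin label)
theorem sat : Sat := sat_of (rowSat1 rowRef rowTanPre preTan tB lip oneT)
  (rowSat2 rowRef rowTanPre preTan tB lip rowDep twoT)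
theorem gTB : GTB := rowGTB rowLowV rev rowGX
theorem noGloT : NoGlo := noGlo rowGLow (rowGGrow rowGX gTB rowGLow)
  (rowGExt rowFLab rowGX gTB rowGLow (rowGClose (rowGShare rowGX gTB))) rowProf2
  (rowTanF rowWin (rowGErr rowGX) rowGOpt rowTanN) rowTanL rowRefP preTB preTan sat
theorem trC : TrC := rowTrC kb (rowTrL kb)
theorem thmU : ThmU := rowThm exactK optE rowProf1 (rowLift kb thinLift kp) rowTrA (rowTrB kb xa)
  trC (rowTrD rowLowV rev kp rowTrA (rowTrL kb) trC) rowTrE noGloT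

end U

/-- The step for planes, without broadness at positive depths. -/
theorem thmU0 : ThmU0 := thmU0_of U.thmU

/-- The step for planes. -/
theorem thmU : ThmU := thmU0.thmU

end Pool.Agent.MP_5168f5_an.R4
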