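import Pool.Agent.MP_5168f5_an.R4.KitO
import Pool.Agent.MP_5168f5_an.R4.UAll
import Pool.Agent.MP_5168f5_an.R4.EAll
import Pool.Agent.MP_5168f5_an.R4.F0e
import Pool.Agent.MP_5168f5_an.R4.RedAll

/-! The entropy theorem in four dimensions from the absence of tangent members. -/

namespace Pool.Agent.MP_5168f5_an.R4

theorem mu0_of (h : NoTan2) : Mu0 3 :=
  rowBR 2 (noBR_of (endA prK (fb_of thmU)
    (fq_of (thmF_of (extF' prK (fb_of thmU)) (satF_of thmU h)))))

end Pool.Agent.MP_5168f5_an.R4
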