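import Pool.Agent.MP_5168f5_an.R4.UDefs

/-! Kakeya sets in four dimensions, the step for planes: small lemmas. -/

namespace Pool.Agent.MP_5168f5_an.R4.U

open H19 H17S H17F Filter K31

theorem rd_le (j : ℕ) (x : ℝ) : rd j x ≤ x := by
  rw [rd, div_eq_inv_mul]; exact fl1_le j x

theorem lt_rd (j : ℕ) (x : ℝ) : x < rd j x + 1 / 2 ^ j := by
  rw [rd, div_eq_inv_mul, one_div]; exact lt_fl1 j x

theorem abs_sub_rd (j : ℕ) (x : ℝ) : |x - rd j x| ≤ 1 / 2 ^ j := by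
  rw [abs_of_nonneg (by linarith [rd_le j x])]; linarith [lt_rd j x]

theorem abs_rd (j : ℕ) (x : ℝ) : |rd j x| ≤ |x| + 1 := by
  have h := abs_sub_rd j x
  have h1 : (1 : ℝ) / 2 ^ j ≤ 1 := (div_le_one (by positivity)).2 (one_le_pow₀ one_le_two)
  have := abs_sub_abs_le_abs_sub (rd j x) x
  rw [abs_sub_comm] at this
  linarith

theorem rd_nonneg (j : ℕ) {x : ℝ} (h : 0 ≤ x) : 0 ≤ rd j x :=
  div_nonneg (by exact_mod_cast Int.floor_nonneg.2 (by positivity)) (by positivity)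

theorem rd_congr {j : ℕ} {x y : ℝ} (h : fl1 j x = fl1 j y) : rd j x = rd j y := by rw [rd, rd, h]

theorem near_of_fl1 {j : ℕ} {x y : ℝ} (h : fl1 j x = fl1 j y) : |x - y| ≤ 1 / 2 ^ j := by
  rw [one_div]; exact (abs_sub_lt_of_fl1_eq h).le

theorem fl1_two_pow (j k : ℕ) (s : ℝ) : fl1 k (2 ^ j * s) = fl1 (j + k) s := by
  rw [fl1, fl1, pow_add, ← mul_assoc, mul_comm ((2 : ℝ) ^ k)]

theorem fl1_sub_int (j k : ℕ) (s : ℝ) (a : ℤ) :
    fl1 k (2 ^ j * s - a) = fl1 (j + k) s - 2 ^ k * a := by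
  rw [← fl1_two_pow, fl1, fl1, mul_sub,
    show (2 : ℝ) ^ k * a = ((2 ^ k * a : ℤ) : ℝ) by push_cast; ring, Int.floor_sub_intCast]

theorem fl1_fract (j k : ℕ) (s : ℝ) :
    fl1 k (Int.fract (2 ^ j * s)) = fl1 (j + k) s - 2 ^ k * fl1 j s := fl1_sub_int j k s _

theorem rd_add_fract (j : ℕ) (s : ℝ) : rd j s + Int.fract (2 ^ j * s) / 2 ^ j = s := by
  rw [rd, Int.fract, fl1]; field_simp; ring

theorem div_pow_le {L : ℝ} (hL : 0 ≤ L) {i j : ℕ} (h : i ≤ j) : L / 2 ^ j ≤ L / 2 ^ i :=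
  div_le_div_of_nonneg_left hL (by positivity) (pow_le_pow_right₀ one_le_two h)

section Tau

variable {γ : ℝ}

theorem tau_le (h : 0 ≤ γ) (j : ℕ) : (tau γ j : ℝ) ≤ γ * j := Nat.floor_le (by positivity)

theorem lt_tau (γ : ℝ) (j : ℕ) : γ * j < tau γ j + 1 := Nat.lt_floor_add_one _

theorem le_tau' {k j : ℕ} (h : (k : ℝ) ≤ γ * j) : k ≤ tau γ j := Nat.le_floor h

theorem le_tau (h : 1 ≤ γ) (j : ℕ) : j ≤ tau γ j :=
  le_tau' (le_mul_of_one_le_left (Nat.cast_nonneg _) h)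

theorem tau_add (h : 0 ≤ γ) (i j : ℕ) : tau γ i + tau γ j ≤ tau γ (i + j) :=
  le_tau' (by push_cast; linarith [tau_le h i, tau_le h j])

theorem tau_mono (h : 0 ≤ γ) {i j : ℕ} (e : i ≤ j) : tau γ i ≤ tau γ j :=
  Nat.floor_mono (mul_le_mul_of_nonneg_left (by exact_mod_cast e) h)

theorem tau_one (j : ℕ) : tau 1 j = j := by simp [tau]

theorem tau_gap (h : 1 ≤ γ) {i j : ℕ} (e : i ≤ j) : tau γ i + j ≤ tau γ j + i := by
  obtain ⟨d, rfl⟩ := Nat.exists_eq_add_of_le e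
  have := tau_add (zero_le_one.trans h) i d
  have := le_tau h d
  omega

end Tau

section Low

variable {W A B : ℕ → Type} {P : ∀ n, FP (W n)} {F : ∀ n, W n → A n} {G : ∀ n, W n → B n}
  {R : ℕ → ℕ} {D D' : ℕ → ℝ}

theorem dnS_rfl (P : ∀ n, FP (W n)) : DnS P (fun _ => id) P :=
  dnS_law (Eventually.of_forall fun _ => Law.rfl _)

theorem Low.self (h : Low P F G R D) : Le R D fun n => ch (P n) (F n) (G n) := h _ _ _ (dnS_rfl P)

theorem Upp.self (h : Upp P F G R D) : Le R (fun n => ch (P n) (F n) (G n)) D :=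
  h _ _ _ (dnS_rfl P)

theorem Low.mono (h : Low P F G R D) (e : Le R D' D) : Low P F G R D' :=
  fun W' Q ρ k => e.trans (h W' Q ρ k)

theorem Low.ref (h : Low P F G R D) {W' : ℕ → Type} {Q : ∀ n, FP (W' n)} {ρ : ∀ n, W' n → W n}
    (k : DnS Q ρ P) : Low Q (fun n v => F n (ρ n v)) (fun n v => G n (ρ n v)) R D :=
  fun W'' Q' _ k' => h W'' Q' _ (k'.trans k)

theorem Upp.ref (h : Upp P F G R D) {W' : ℕ → Type} {Q : ∀ n, FP (W' n)} {ρ : ∀ n, W' n → W n}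
    (k : DnS Q ρ P) : Upp Q (fun n v => F n (ρ n v)) (fun n v => G n (ρ n v)) R D :=
  fun W'' Q' _ k' => h W'' Q' _ (k'.trans k)

theorem Low.frac (h : Low P F G R D) {R' : ℕ → ℕ} (e : Frac R' R) : Low P F G R' D :=
  fun W' Q ρ k => (h W' Q ρ k).frac e

theorem Upp.frac (h : Upp P F G R D) {R' : ℕ → ℕ} (e : Frac R' R) : Upp P F G R' D :=
  fun W' Q ρ k => (h W' Q ρ k).frac e

/-- The first point of a glued pair. -/
theorem dnS_fst {W' β : ℕ → Type} (P : ∀ n, FP (W n)) (Q : ∀ n, FP (W' n)) (φ : ∀ n, W n → β n)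
    (ψ : ∀ n, W' n → β n) : DnS (fun n => glue (P n) (Q n) (φ n) (ψ n)) (fun _ => Prod.fst) P :=
  dnS_law (Eventually.of_forall fun _ => kg.fst _ _ _ _)

/-- The second point of a pair of copies. -/
theorem dnS_snd {β : ℕ → Type} (P : ∀ n, FP (W n)) (φ : ∀ n, W n → β n) :
    DnS (fun n => glue (P n) (P n) (φ n) (φ n)) (fun _ => Prod.snd) P :=
  dnS_law (Eventually.of_forall fun _ => kg.snd _ _ _ _ (Law.rfl _))

/-- An event of an extension that depends on the base only. -/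
theorem whp_of_law {W' : ℕ → Type} {Q : ∀ n, FP (W' n)} {ρ : ∀ n, W' n → W n}
    (h : ∀ n, Law (Q n) (ρ n) (P n) id) {E : ∀ n, W n → Prop}
    (k : Whp Q fun n v => E n (ρ n v)) : Whp P E := fun ε hε =>
  (k ε hε).mono fun n a => ((h n).pb_eq fun ω => ¬E n ω).symm.trans_le a

theorem le_of_sm {m : ℕ → ℕ} (h : Sm R fun n => m n) {f g : ℕ → ℝ} (k : Le m f g) : Le R f g :=
  fun ε hε => by
    filter_upwards [h 1 one_pos, k ε hε] with n a b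
    have : ε * m n ≤ ε * R n := mul_le_mul_of_nonneg_left (by linarith) hε.le
    linarith

end Low

theorem mem_copy {Ω β : Type} (P : FP Ω) (φ : Ω → β) (c : Ω × Ω) :
    c ∈ (glue P P φ φ).S ↔ c.1 ∈ P.S ∧ c.2 ∈ P.S ∧ φ c.2 = φ c.1 := kg.mem _ _ _ _ c (Law.rfl _)

namespace U3

variable {X : U3} {τ : ℕ → ℕ} {D R : ℕ} {L L' : ℝ}

theorem Fit.mono {d : ℝ × ℝ × ℝ} {ω : X.Ω} {j j' s s' : ℕ} (h : X.Fit L d ω j s) (hL : L ≤ L')
    (hj : j ≤ j') (hs : s' ≤ s) : X.Fit L' d ω j' s' := by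
  have h0 : 0 ≤ L := by
    have := (abs_nonneg _).trans h.1
    rwa [le_div_iff₀ (by positivity), zero_mul] at this
  exact ⟨h.1.trans ((div_pow_le h0 hs).trans (by gcongr)), h.2.trans
    ((div_pow_le (by positivity) hs).trans (by gcongr; exacts [h0.trans hL, one_le_two]))⟩

theorem Alg.mono (h : X.Alg τ D R L) (e : L ≤ L') : X.Alg τ D R L' :=
  ⟨fun ω a => by
    obtain ⟨h1, h2, h3, h4, h5⟩ := h.bd ω a
    exact ⟨h1.trans e, h2.trans e, h3.trans e, h4.trans e, h5⟩,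
    h.fl, h.fy, h.fz, h.zt, h.nest, h.cell, fun j a ω b => (h.fit j a ω b).mono e le_rfl le_rfl⟩

theorem Alg.down (h : X.Alg τ D R L) {R' : ℕ} (e : R' ≤ R) : X.Alg τ D R' L :=
  ⟨h.bd, h.fl, h.fy, h.fz, h.zt, fun i j a b => h.nest i j a (b.trans e),
    fun j a => h.cell j (a.trans e), fun j a => h.fit j (a.trans e)⟩

theorem Alg.pull (h : X.Alg τ D R L) {W : Type} {Q : FP W} {ρ : W → X.Ω}
    (e : ∀ v ∈ Q.S, ρ v ∈ X.P.S) : (X.pull Q ρ).Alg τ D R L :=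
  ⟨fun v a => h.bd _ (e v a), fun v a w b => h.fl _ (e v a) _ (e w b),
    fun v a w b => h.fy _ (e v a) _ (e w b), fun v a w b => h.fz _ (e v a) _ (e w b),
    fun v a w b => h.zt _ (e v a) _ (e w b), fun i j c d v a w b => h.nest i j c d _ (e v a) _ (e w b),
    fun j c v a w b => h.cell j c _ (e v a) _ (e w b), fun j c v a => h.fit j c _ (e v a)⟩

theorem Alg.dn (h : X.Alg τ D R L) {W : Type} {Q : FP W} {ρ : W → X.Ω} {C : ℝ}
    (e : Dn C Q ρ X.P) : (X.pull Q ρ).Alg τ D R L := h.pull fun _ a => e.mem a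

section Fns

variable (h : X.Alg τ D R L)
include h

theorem Alg.al : Fn X.P X.a X.l := fun v a w b e => congrArg (·.1) (h.fl v a w b e)
theorem Alg.wl : Fn X.P X.w X.l := fun v a w b e => congrArg (·.2.1) (h.fl v a w b e)
theorem Alg.nl : Fn X.P X.n X.l := fun v a w b e => congrArg (·.2.2.1) (h.fl v a w b e)
theorem Alg.bl : Fn X.P X.b X.l := fun v a w b e => congrArg (·.2.2.2.1) (h.fl v a w b e)
theorem Alg.sl : Fn X.P (X.S 0) X.l := fun v a w b e => congrArg (·.2.2.2.2) (h.fl v a w b e)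
theorem Alg.tz : Fn X.P X.t X.z := fun v a w b e => congrArg (·.1) (h.zt v a w b e)
theorem Alg.xz : Fn X.P (fun ω => fl1 D (X.x ω)) X.z :=
  fun v a w b e => congrArg (·.2.1) (h.zt v a w b e)
theorem Alg.sz : Fn X.P (X.S 0) X.z := fun v a w b e => congrArg (·.2.2) (h.zt v a w b e)
theorem Alg.ty : Fn X.P X.t X.y := h.tz.trans h.fz
theorem Alg.sy : Fn X.P (X.S 0) X.y := h.sz.trans h.fz

theorem Alg.tS {i j : ℕ} (e : i ≤ j) (e' : j ≤ R) : Fn X.P (fun ω => fl1 i (X.t ω)) (X.S j) :=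
  fun v a w b c => fl1_eq_of_le e (congrArg (·.1) (h.cell j e' v a w b c))

theorem Alg.xS {i j : ℕ} (e : i ≤ j) (e' : j ≤ R) : Fn X.P (fun ω => fl1 i (X.x ω)) (X.S j) :=
  fun v a w b c => fl1_eq_of_le e (congrArg (·.2.1) (h.cell j e' v a w b c))

theorem Alg.plS {i j : ℕ} (e : i ≤ j) (e' : j ≤ R) : Fn X.P (X.pl i) (X.S j) :=
  fun v a w b c => congrArg (·.2.2) (h.cell i (e.trans e') v a w b (h.nest i j e e' v a w b c))

theorem Alg.t0 {ω : X.Ω} (a : ω ∈ X.P.S) : fl1 0 (X.t ω) = 0 :=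
  fl1_zero_of_box (h.bd ω a).2.2.2.2.1 (h.bd ω a).2.2.2.2.2

theorem Alg.abs_t {ω : X.Ω} (a : ω ∈ X.P.S) : |X.t ω| ≤ 1 := by
  obtain ⟨-, -, -, -, h1, h2⟩ := h.bd ω a
  rw [abs_of_nonneg h1]; exact h2.le

theorem Alg.abs_x {ω : X.Ω} (a : ω ∈ X.P.S) : |X.x ω| ≤ 2 * L := by
  have h1 := h.abs_t a
  obtain ⟨h2, h3, -⟩ := h.bd ω a
  refine (abs_add_le _ _).trans ?_
  rw [abs_mul]
  nlinarith [abs_nonneg (X.w ω), abs_nonneg (X.t ω)]

theorem Alg.abs_u {ω : X.Ω} (a : ω ∈ X.P.S) : |X.u ω| ≤ 2 * L := by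
  have h1 := h.abs_t a
  obtain ⟨-, -, h2, h3, -⟩ := h.bd ω a
  refine (abs_add_le _ _).trans ?_
  rw [abs_mul]
  nlinarith [abs_nonneg (X.b ω), abs_nonneg (X.t ω)]

end Fns

end U3

theorem Tan.up {γ e η : ℝ} {X : ℕ → U3} {R m : ℕ → ℕ} (h : Tan γ e η X R m) {f g : ℕ → ℝ}
    (k : Le m f g) : Le R f g := le_of_sm h.sm k

theorem toU_x {Ω Lb : Type} (P : FP Ω) (g : Geo 2 Ω) (S : ℕ → Ω → Lb) (d : ℕ → Ω → ℝ × ℝ × ℝ)
    (M p : ℕ) (ω : Ω) : (toU P g S d M p).x ω = g.pt ω 0 := by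
  simp [U3.x, Geo.pt, Geo.lt, mul_comm]

theorem toU_u {Ω Lb : Type} (P : FP Ω) (g : Geo 2 Ω) (S : ℕ → Ω → Lb) (d : ℕ → Ω → ℝ × ℝ × ℝ)
    (M p : ℕ) (ω : Ω) : (toU P g S d M p).u ω = g.pt ω 1 := by
  simp [U3.u, Geo.pt, Geo.lt, mul_comm]

end Pool.Agent.MP_5168f5_an.R4.U
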