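import Pool.Agent.MP_5168f5_an.R4.SpecK
import Pool.Agent.MP_5168f5_an.R4.Api

/-! Kakeya sets in four dimensions, the step for planes: definitions. -/

namespace Pool.Agent.MP_5168f5_an.R4.U

open H19 H17S H17F Filter K31

/-- The left end of the dyadic interval. -/
noncomputable def rd (j : ℕ) (x : ℝ) : ℝ := fl1 j x / 2 ^ j

/-- The thickness at level `j` for the slope `γ`. -/
noncomputable def tau (γ : ℝ) (j : ℕ) : ℕ := ⌊γ * j⌋₊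

/-- The determinant of the vectors `(1, w₁, b₁)`, `(1, w₂, b₂)`, `(1, w₃, b₃)`. -/
def det3 (w₁ b₁ w₂ b₂ w₃ b₃ : ℝ) : ℝ := (w₂ - w₁) * (b₃ - b₁) - (w₃ - w₁) * (b₂ - b₁)

section Rob

variable {W A B : ℕ → Type} (P : ∀ n, FP (W n)) (F : ∀ n, W n → A n) (G : ∀ n, W n → B n)
  (R : ℕ → ℕ) (D : ℕ → ℝ)

/-- A lower bound for the entropy on all refinements. -/
def Low : Prop := ∀ (W' : ℕ → Type) (Q : ∀ n, FP (W' n)) (ρ : ∀ n, W' n → W n), DnS Q ρ P →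
  Le R D fun n => ch (Q n) (fun v => F n (ρ n v)) fun v => G n (ρ n v)

/-- An upper bound for the entropy on all refinements. -/
def Upp : Prop := ∀ (W' : ℕ → Type) (Q : ∀ n, FP (W' n)) (ρ : ∀ n, W' n → W n), DnS Q ρ P →
  Le R (fun n => ch (Q n) (fun v => F n (ρ n v)) fun v => G n (ρ n v)) D

end Rob

/-- A line `s ↦ (a + w s, n + b s)` with a height `t`; `l` is all the data of the line, `y` is the
point, `z` is the base point, `S j` are nested labels with planes `pl j`. -/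
structure U3 : Type 1 where
  Ω : Type
  P : FP Ω
  a : Ω → ℝ
  w : Ω → ℝ
  n : Ω → ℝ
  b : Ω → ℝ
  t : Ω → ℝ
  Λ : Type
  l : Ω → Λ
  Y : Type
  y : Ω → Y
  Z : Type
  z : Ω → Z
  Lb : Type
  S : ℕ → Ω → Lb
  pl : ℕ → Ω → ℝ × ℝ × ℝ

namespace U3

variable (X : U3)

/-- First coordinate of the point. -/
def x (ω : X.Ω) : ℝ := X.a ω + X.w ω * X.t ω

/-- Second coordinate of the point. -/
def u (ω : X.Ω) : ℝ := X.n ω + X.b ω * X.t ω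

/-- Slope of the plane of level `j` in the height. -/
def pt (j : ℕ) (ω : X.Ω) : ℝ := (X.pl j ω).2.1

/-- Slope of the plane of level `j` in `x`. -/
def px (j : ℕ) (ω : X.Ω) : ℝ := (X.pl j ω).2.2

/-- Pull back. -/
abbrev pull {W : Type} (Q : FP W) (ρ : W → X.Ω) : U3 :=
  ⟨W, Q, fun v => X.a (ρ v), fun v => X.w (ρ v), fun v => X.n (ρ v), fun v => X.b (ρ v),
    fun v => X.t (ρ v), X.Λ, fun v => X.l (ρ v), X.Y, fun v => X.y (ρ v), X.Z, fun v => X.z (ρ v),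
    X.Lb, fun j v => X.S j (ρ v), fun j v => X.pl j (ρ v)⟩

/-- The line is within `L 2^{-τ}` of the plane `d` on the window of level `j`. -/
def Fit (L : ℝ) (d : ℝ × ℝ × ℝ) (ω : X.Ω) (j τ : ℕ) : Prop :=
  |X.u ω - d.1 - d.2.1 * X.t ω - d.2.2 * X.x ω| ≤ L / 2 ^ τ ∧
    |X.b ω - d.2.1 - d.2.2 * X.w ω| ≤ L * 2 ^ j / 2 ^ τ

/-- The information of `lam` on the height beyond level `j`. -/
noncomputable def hk {α : Type} (j : ℕ) (lam : X.Ω → α) : ℝ :=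
  mi X.P lam X.t fun ω => (X.l ω, fl1 j (X.t ω))

/-- The leak of `lam`. -/
noncomputable def lk {α : Type} (lam : X.Ω → α) : ℝ := mi X.P lam X.l X.y

/-- The exact conditions: thickness `τ`, resolution `D` of the base point, levels up to `R`. -/
structure Alg (τ : ℕ → ℕ) (D R : ℕ) (L : ℝ) : Prop where
  bd : ∀ ω ∈ X.P.S, |X.a ω| ≤ L ∧ |X.w ω| ≤ L ∧ |X.n ω| ≤ L ∧ |X.b ω| ≤ L ∧ 0 ≤ X.t ω ∧ X.t ω < 1
  fl : Fn X.P (fun ω => (X.a ω, X.w ω, X.n ω, X.b ω, X.S 0 ω)) X.l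
  fy : Fn X.P X.y fun ω => (X.l ω, X.t ω)
  fz : Fn X.P X.z X.y
  zt : Fn X.P (fun ω => (X.t ω, fl1 D (X.x ω), X.S 0 ω)) X.z
  nest : ∀ i j, i ≤ j → j ≤ R → Fn X.P (X.S i) (X.S j)
  cell : ∀ j, j ≤ R → Fn X.P (fun ω => (fl1 j (X.t ω), fl1 j (X.x ω), X.pl j ω)) (X.S j)
  fit : ∀ j, j ≤ R → ∀ ω ∈ X.P.S, X.Fit L (X.pl j ω) ω j (τ j)

/-- Rescale the cell of level `ξ` and thickness `2^{-θ}` to a unit cube. -/
noncomputable abbrev shift (ξ θ : ℕ) : U3 :=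
  ⟨X.Ω, X.P, fun ω => 2 ^ ξ * (X.a ω + X.w ω * rd ξ (X.t ω)) - fl1 ξ (X.x ω), X.w,
    fun ω => 2 ^ θ * (X.n ω + X.b ω * rd ξ (X.t ω) - (X.pl ξ ω).1 - X.pt ξ ω * rd ξ (X.t ω) -
      X.px ξ ω * (X.a ω + X.w ω * rd ξ (X.t ω))),
    fun ω => 2 ^ θ / 2 ^ ξ * (X.b ω - X.pt ξ ω - X.px ξ ω * X.w ω),
    fun ω => Int.fract (2 ^ ξ * X.t ω),
    X.Λ × X.Lb, fun ω => (X.l ω, X.S ξ ω), X.Y × X.Lb, fun ω => (X.y ω, X.S ξ ω),
    X.Z × X.Lb, fun ω => (X.z ω, X.S ξ ω), X.Lb, fun j => X.S (ξ + j),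
    fun j ω => (2 ^ θ * ((X.pl (ξ + j) ω).1 - (X.pl ξ ω).1 +
        (X.pt (ξ + j) ω - X.pt ξ ω) * rd ξ (X.t ω) + (X.px (ξ + j) ω - X.px ξ ω) * rd ξ (X.x ω)),
      2 ^ θ / 2 ^ ξ * (X.pt (ξ + j) ω - X.pt ξ ω), 2 ^ θ / 2 ^ ξ * (X.px (ξ + j) ω - X.px ξ ω))⟩

/-- Two heights on one line. -/
noncomputable abbrev P2 : FP (X.Ω × X.Ω) := glue X.P X.P X.l X.l

/-- Two lines in one cell. -/
noncomputable abbrev C2 (R : ℕ) : FP (X.Ω × X.Ω) := glue X.P X.P (X.S R) (X.S R)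

/-- Three lines in one cell. -/
noncomputable abbrev C3 (R : ℕ) : FP ((X.Ω × X.Ω) × X.Ω) :=
  glue (X.C2 R) X.P (fun v => X.S R v.1) (X.S R)

/-- The slopes of the plane spanned by two directions, rounded at `2^{-A}`. -/
noncomputable def T2 (A : ℕ) (v : X.Ω × X.Ω) : ℝ × ℝ :=
  (rd A (X.b v.1) - (rd A (X.b v.1) - rd A (X.b v.2)) / (rd A (X.w v.1) - rd A (X.w v.2)) *
      rd A (X.w v.1),
    (rd A (X.b v.1) - rd A (X.b v.2)) / (rd A (X.w v.1) - rd A (X.w v.2)))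

/-- One of three points. -/
def pick (i : Fin 3) (c : (X.Ω × X.Ω) × X.Ω) : X.Ω := ![c.1.1, c.1.2, c.2] i

/-- The three directions at resolution `A` and the context. -/
noncomputable def W3 (A : ℕ) (c : (X.Ω × X.Ω) × X.Ω) : (Fin 3 → ℤ × ℤ) × X.Lb :=
  (fun i => (fl1 A (X.w (X.pick i c)), fl1 A (X.b (X.pick i c))), X.S 0 c.2)

section Rect

variable (R q ρ B : ℕ)

/-- The digits of the slope of the finest plane. -/
noncomputable def gz (ω : X.Ω) : ℤ := fl1 ρ (X.px R ω)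

/-- The rounded slope of the finest plane. -/
noncomputable def G (ω : X.Ω) : ℝ := rd ρ (X.px R ω)

/-- The offset of the line inside its tube. -/
noncomputable def r (ω : X.Ω) : ℝ := X.a ω - rd q (X.a ω)

/-- The point modulo the plane. -/
noncomputable def π (ω : X.Ω) : ℝ := X.u ω - X.G R ρ ω * X.r q ω

/-- The tube and the context. -/
noncomputable def Xq (ω : X.Ω) : ℤ × ℤ × X.Lb := (fl1 q (X.a ω), fl1 q (X.w ω), X.S 0 ω)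

/-- The context of the first height. -/
noncomputable def Θ (ω : X.Ω) : X.Lb × ℤ × ℤ × ℤ × ℤ × ℤ × ℤ :=
  (X.S 0 ω, fl1 q (X.a ω), fl1 B (X.w ω), fl1 B (X.t ω), X.gz R ρ ω, fl1 q (X.b ω),
    fl1 q (X.π R q ρ ω))

/-- The fine digits of the point modulo the plane. -/
noncomputable def A (ω : X.Ω) : ℤ := fl1 (q + ρ) (X.π R q ρ ω)

/-- The data shared by the two lines of a rectangle. -/
noncomputable def φ (v : X.Ω × X.Ω) : (X.Lb × ℤ × ℤ × ℤ × ℤ × ℤ × ℤ) × ℤ × ℤ × ℤ :=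
  (X.Θ R q ρ B v.1, fl1 B (X.t v.2), X.gz R ρ v.2, X.A R q ρ v.2)

/-- Two parallel lines with two heights. -/
noncomputable abbrev P4 : FP ((X.Ω × X.Ω) × X.Ω × X.Ω) :=
  glue X.P2 X.P2 (X.φ R q ρ B) (X.φ R q ρ B)

/-- The data of the second height. -/
noncomputable def dd (c : (X.Ω × X.Ω) × X.Ω × X.Ω) : ℤ × ℤ := (fl1 B (X.t c.1.2), X.gz R ρ c.1.2)

/-- The data of the two lines. -/
noncomputable def ww (c : (X.Ω × X.Ω) × X.Ω × X.Ω) : ℤ × ℤ × ℤ × ℤ :=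
  (fl1 B (X.a c.1.1), fl1 B (X.a c.2.1), fl1 (q + ρ) (X.b c.1.1), fl1 (q + ρ) (X.b c.2.1))

/-- The rate of change of the slope along the line. -/
noncomputable def μ (v : X.Ω × X.Ω) : ℝ :=
  (X.G R ρ v.1 - X.G R ρ v.2) / (rd B (X.t v.1) - rd B (X.t v.2))

variable (σ : ℕ)

/-- The slope at height zero. -/
noncomputable def G0 (v : X.Ω × X.Ω) : ℝ := X.G R ρ v.1 - rd σ (X.μ R ρ B v) * X.t v.1

/-- The direction of the central line. -/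
noncomputable def b0 (v : X.Ω × X.Ω) : ℝ := X.b v.1 - rd σ (X.μ R ρ B v) * X.r q v.1

/-- The data shared by two crossing lines. -/
noncomputable def V5 (v : X.Ω × X.Ω) : X.Lb × (ℤ × ℤ × X.Lb) × ℤ × ℤ :=
  (X.S R v.1, X.Xq q v.1, fl1 σ (X.μ R ρ B v), fl1 σ (X.G0 R ρ B σ v))

/-- Two crossing lines. -/
noncomputable abbrev P5 : FP ((X.Ω × X.Ω) × X.Ω × X.Ω) :=
  glue X.P2 X.P2 (X.V5 R q ρ B σ) (X.V5 R q ρ B σ)

/-- The data that determine the height of the crossing. -/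
noncomputable def K5 (c : (X.Ω × X.Ω) × X.Ω × X.Ω) : ℤ × ℤ × ℤ × ℤ × ℤ × ℤ :=
  (fl1 (q + σ) (X.b0 R q ρ B σ c.1), fl1 (q + σ) (X.b0 R q ρ B σ c.2), fl1 B (X.w c.1.1),
    fl1 B (X.w c.2.1), fl1 σ (X.μ R ρ B c.1), fl1 σ (X.G0 R ρ B σ c.1))

end Rect

end U3

/-- The laws of a sequence of systems. -/
abbrev PP (X : ℕ → U3) : ∀ n, FP (X n).Ω := fun n => (X n).P

/-- A refinement carries a label with errors `o(m)`, of level `j` and thickness `th`. -/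
def Thn (X : ℕ → U3) (m j th : ℕ → ℕ) : Prop :=
  ∃ (W Λ : ℕ → Type) (Q : ∀ n, FP (W n)) (ρ : ∀ n, W n → (X n).Ω) (lam : ∀ n, W n → Λ n)
    (d : ∀ n, W n → ℝ × ℝ × ℝ), DnS Q ρ (PP X) ∧
    Sm m (fun n => ((X n).pull (Q n) (ρ n)).hk (j n) (lam n)) ∧
    Sm m (fun n => ((X n).pull (Q n) (ρ n)).lk (lam n)) ∧
    ∀ᶠ n in UF, Fn (Q n) (d n) (lam n) ∧ ∀ v ∈ (Q n).S, (X n).Fit 4 (d n v) (ρ n v) (j n) (th n)

/-- A tangent system: unit `R`, errors of labels in the unit `m`. -/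
structure Tan (γ e η : ℝ) (X : ℕ → U3) (R m : ℕ → ℕ) : Prop where
  par : 1 ≤ γ ∧ 0 < e ∧ e ≤ 1 ∧ 0 < η
  big : Big R
  bigm : Big m
  sm : Sm R fun n => m n
  alg : ∃ L, Sub R L ∧ ∀ᶠ n in UF, (X n).Alg (tau γ) (tau γ (R n)) (R n) (L n)
  inf : Sm R fun n => mi (X n).P (X n).t (X n).l ((X n).S 0)
  hgt : Le R (fun n => R n * lg) fun n => ch (X n).P (fun ω => fl1 (R n) ((X n).t ω)) (X n).l
  hk : ∀ j : ℕ → ℕ, (∀ n, j n ≤ R n) → Sm m fun n => (X n).hk (j n) ((X n).S (j n))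
  lk : Sm m fun n => (X n).lk ((X n).S (R n))
  xs : ∀ j : ℕ → ℕ, (∀ n, j n ≤ R n) → Le R (fun n => 2 * (R n - j n : ℝ) * lg) fun n =>
    ch (X n).P (fun ω => (fl1 (R n) ((X n).t ω), fl1 (R n) ((X n).x ω))) ((X n).S (j n))
  xz : ∀ j : ℕ → ℕ, (∀ n, j n ≤ R n) → Sm R fun n => mi (X n).P ((X n).S (j n)) (X n).z fun ω =>
    (fl1 (j n) ((X n).t ω), fl1 (j n) ((X n).x ω), (X n).S 0 ω)
  br : ∀ α : ℕ → ℕ, (∀ n, α n ≤ R n) →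
    Low (PP X) (fun n ω => fl1 (α n) ((X n).w ω)) (fun n => (X n).y) R fun n => η * α n * lg
  ng : ∀ β lam : ℕ → ℕ, (∀ n, β n ≤ lam n ∧ lam n ≤ tau γ (R n)) →
    Upp (PP X) (fun n ω => fl1 (lam n) ((X n).u ω))
      (fun n ω => (fl1 (β n) ((X n).u ω), (X n).z ω)) R fun n => (1 - e) * (lam n - β n) * lg
  typ : Sm R fun n => mi (X n).P (fun ω => fl1 (R n) ((X n).w ω)) ((X n).S (R n)) ((X n).S 0)
  opt : ∀ j th : ℕ → ℕ, (∀ n, j n ≤ R n) → Thn X m j th →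
    Le R (fun n => th n) fun n => γ * j n

/-- The same facts before rescaling: base level `j₀`, thickness profile `τ`. -/
structure Pre (γ e η : ℝ) (X : ℕ → U3) (τ : ℕ → ℕ → ℕ) (D j₀ R m : ℕ → ℕ) : Prop where
  par : 1 ≤ γ ∧ 0 < e ∧ e ≤ 1 ∧ 0 < η
  big : Big R
  bigm : Big m
  sm : Sm R fun n => m n
  alg : ∃ L, Sub R L ∧ ∀ᶠ n in UF, (X n).Alg (τ n) (D n) (j₀ n + R n) (L n)
  thick : ∃ s : ℕ → ℕ, Sm R (fun n => s n) ∧ ∀ᶠ n in UF,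
    (∀ j, j ≤ R n → τ n (j₀ n) + tau γ j ≤ τ n (j₀ n + j) + s n) ∧ j₀ n ≤ τ n (j₀ n) + s n ∧
      τ n (j₀ n) + tau γ (R n) ≤ D n ∧ j₀ n + tau γ (R n) ≤ D n
  inf : Sm R fun n => mi (X n).P (X n).t (X n).l ((X n).S 0)
  hgt : Le R (fun n => (j₀ n + R n : ℝ) * lg) fun n =>
    ch (X n).P (fun ω => fl1 (j₀ n + R n) ((X n).t ω)) (X n).l
  hk : ∀ j : ℕ → ℕ, (∀ n, j n ≤ R n) →
    Sm m fun n => (X n).hk (j₀ n + j n) ((X n).S (j₀ n + j n))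
  lk : Sm m fun n => (X n).lk ((X n).S (j₀ n + R n))
  xs : ∀ j : ℕ → ℕ, (∀ n, j n ≤ R n) → Le R (fun n => 2 * (R n - j n : ℝ) * lg) fun n =>
    ch (X n).P (fun ω => (fl1 (j₀ n + R n) ((X n).t ω), fl1 (j₀ n + R n) ((X n).x ω)))
      ((X n).S (j₀ n + j n))
  xz : ∀ j : ℕ → ℕ, (∀ n, j n ≤ R n) → Sm R fun n =>
    mi (X n).P ((X n).S (j₀ n + j n)) (X n).z fun ω =>
      (fl1 (j₀ n + j n) ((X n).t ω), fl1 (j₀ n + j n) ((X n).x ω), (X n).S 0 ω)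
  br : ∀ α : ℕ → ℕ, (∀ n, α n ≤ R n) →
    Low (PP X) (fun n ω => fl1 (α n) ((X n).w ω)) (fun n => (X n).y) R fun n => η * α n * lg
  ng : ∀ β lam : ℕ → ℕ, (∀ n, β n ≤ lam n ∧ lam n ≤ tau γ (R n)) →
    Upp (PP X) (fun n ω => fl1 (τ n (j₀ n) + lam n) ((X n).u ω))
      (fun n ω => (fl1 (τ n (j₀ n) + β n) ((X n).u ω), (X n).z ω)) R fun n =>
        (1 - e) * (lam n - β n) * lg
  typ : Sm R fun n =>
    mi (X n).P (fun ω => fl1 (R n) ((X n).w ω)) ((X n).S (j₀ n + R n)) ((X n).S (j₀ n))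
  opt : ∀ j th : ℕ → ℕ, (∀ n, j n ≤ R n) →
    Thn X m (fun n => j₀ n + j n) (fun n => τ n (j₀ n) + th n) →
    Le R (fun n => th n) fun n => γ * j n

/-- A tangent system with slope larger than one, prepared for the rectangle argument. -/
structure Rec (γ e η : ℝ) (X : ℕ → U3) (R m q ρ B : ℕ → ℕ) (L : ℕ → ℝ) : Prop where
  tan : Tan γ e η X R m
  frac : Frac ρ R
  le : ∀ n, q n + ρ n ≤ B n ∧ B n ≤ R n ∧ q n + ρ n ≤ tau γ (q n) ∧ R n + q n + ρ n ≤ tau γ (R n)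
  sub : Sub R L
  alg : ∀ᶠ n in UF, (X n).Alg (tau γ) (tau γ (R n)) (R n) (L n)
  slp : ∀ᶠ n in UF, ∀ ω ∈ (X n).P.S, |(X n).pt (R n) ω| ≤ L n ∧ |(X n).px (R n) ω| ≤ L n ∧
    |(X n).pt (q n) ω| ≤ L n ∧ |(X n).px (q n) ω| ≤ L n ∧
    |(X n).px (R n) ω - (X n).px (q n) ω| ≤ L n / 2 ^ ρ n
  lip : Sm R fun n => ch (X n).P (fun ω => fl1 (q n + ρ n) ((X n).b ω)) fun ω =>
    (fl1 (B n) ((X n).a ω), fl1 (B n) ((X n).w ω), (X n).S 0 ω)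

/-- The optimal labelled system at scale `M` with floor `p`; `φ` is the exact entropy profile of
`u` on `[lo, hi]`. -/
structure Glo (η : ℝ) (X : ℕ → U3) (M p lo hi : ℕ → ℕ) (τ : ℕ → ℕ → ℕ) (φ : ℕ → ℕ → ℝ) : Prop where
  pos : 0 < η
  big : Big M
  le : ∀ n, p n ≤ M n ∧ lo n ≤ hi n ∧ hi n ≤ M n
  mono : ∀ᶠ n in UF, Monotone (τ n) ∧ ∀ j, τ n j ≤ p n
  alg : ∃ L, Sub M L ∧ ∀ᶠ n in UF, (X n).Alg (τ n) (M n) (M n) (L n)
  fat : ∀ᶠ n in UF, Fn (X n).P (X n).y (fun ω => ((X n).z ω, fl1 (p n) ((X n).u ω))) ∧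
    Fn (X n).P (fun ω => fl1 (p n) ((X n).u ω)) (X n).y ∧
    Fn (X n).P (X n).z fun ω => ((X n).t ω, fl1 (M n) ((X n).x ω), (X n).S 0 ω)
  inf : Sm M fun n => mi (X n).P (X n).t (X n).l ((X n).S 0)
  hgt : Le M (fun n => M n * lg) fun n => ch (X n).P (fun ω => fl1 (M n) ((X n).t ω)) (X n).l
  hk : ∀ j : ℕ → ℕ, (∀ n, j n ≤ M n) → Sm M fun n => (X n).hk (j n) ((X n).S (j n))
  lk : Sm M fun n => (X n).lk ((X n).S (M n))
  xa : ∀ j : ℕ → ℕ, (∀ n, j n ≤ M n) → Le M (fun n => (M n - j n : ℝ) * lg) fun n =>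
    ch (X n).P (fun ω => fl1 (M n) ((X n).x ω)) fun ω => ((X n).t ω, (X n).S (j n) ω)
  br : ∀ α : ℕ → ℕ, (∀ n, α n ≤ M n) →
    Low (PP X) (fun n ω => fl1 (α n) ((X n).w ω)) (fun n => (X n).y) M fun n => η * α n * lg
  ng : ∀ β lam : ℕ → ℕ, (∀ n, lo n ≤ β n ∧ β n ≤ lam n ∧ lam n ≤ hi n) →
    Upp (PP X) (fun n ω => fl1 (lam n) ((X n).u ω))
      (fun n ω => (fl1 (β n) ((X n).u ω), (X n).z ω)) M fun n => φ n (lam n) - φ n (β n)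
  opt : ∀ (j j' th : ℕ → ℕ) (ε : ℝ), 0 < ε →
    (∀ᶠ n in UF, j n + ε * M n ≤ j' n ∧ j' n ≤ M n ∧ th n ≤ p n) → Thn X M j th →
    Le M (fun n => th n) fun n => τ n (j' n)
  zero : ∀ th : ℕ → ℕ, Thn X M (fun _ => 0) th → Le M (fun n => th n) fun n => lo n

/-- The profile `τ` has slope `γ` to the right of `c M`. -/
def Dif (M : ℕ → ℕ) (τ : ℕ → ℕ → ℕ) (c γ : ℝ) : Prop := ∀ ε : ℝ, 0 < ε → ∃ r₀ : ℝ, 0 < r₀ ∧
  ∀ r : ℝ, 0 < r → r ≤ r₀ → ∀ᶠ n in UF, ∀ j j' : ℕ, lev M c n ≤ j → j ≤ j' →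
    (j' : ℝ) ≤ (c + r) * M n → |(τ n j' : ℝ) - τ n j - γ * (j' - j)| ≤ ε * r * M n

/-- The profile `φ` has slope at most `1 - e` near `s M`. -/
def DifU (M : ℕ → ℕ) (φ : ℕ → ℕ → ℝ) (s e : ℝ) : Prop := ∀ ε : ℝ, 0 < ε → ∃ r₀ : ℝ, 0 < r₀ ∧
  ∀ r : ℝ, 0 < r → r ≤ r₀ → ∀ᶠ n in UF, ∀ a b : ℕ, (s - r) * M n ≤ a → a ≤ b →
    (b : ℝ) ≤ (s + r) * M n → φ n b - φ n a ≤ (1 - e) * (b - a) * lg + ε * r * M n

/-- Planes without bounds on the slopes. -/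
noncomputable def plU {Ω : Type} (g : Geo 2 Ω) : Shp Ω :=
  ⟨ℝ × ℝ × ℝ, fun L d ω j τ =>
    |g.pt ω 1 - d.1 - d.2.1 * g.z ω - d.2.2 * g.pt ω 0| ≤ L / 2 ^ τ ∧
      |g.e ω 1 - d.2.1 - d.2.2 * g.e ω 0| ≤ L * 2 ^ j / 2 ^ τ⟩

/-- The labels joined with the context and the cell of the base point. -/
noncomputable def cellS {Ω Lb : Type} (g : Geo 2 Ω) (S : ℕ → Ω → Lb) (j : ℕ) (ω : Ω) :
    Lb × g.T × ℤ × ℤ := (S j ω, g.θ ω, fl1 j (g.z ω), fl1 j (g.pt ω 0))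

/-- A system with a family of labels in scalar form. -/
noncomputable abbrev toU {Ω Lb : Type} (P : FP Ω) (g : Geo 2 Ω) (S : ℕ → Ω → Lb)
    (d : ℕ → Ω → ℝ × ℝ × ℝ) (M p : ℕ) : U3 :=
  ⟨Ω, P, fun ω => g.a ω 0, fun ω => g.e ω 0, fun ω => g.a ω 1, fun ω => g.e ω 1, g.z,
    (V 2 × V 2 × g.T) × Lb × g.T × ℤ × ℤ, fun ω => (g.ln ω, cellS g S 0 ω),
    (H17S.Z 2 × ℝ × g.T) × Lb × g.T × ℤ × ℤ, fun ω => (g.fp ![M, p] ω, cellS g S 0 ω),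
    ℝ × ℤ × Lb × g.T × ℤ × ℤ, fun ω => (g.z ω, fl1 M (g.pt ω 0), cellS g S 0 ω),
    Lb × g.T × ℤ × ℤ, cellS g S, d⟩

/-- If no member carries a plane label of level zero thinner than `2^{-b}`, the second coordinate is
full between the resolutions `b` and `D`. -/
def ThmU : Prop := ∀ (Ω : ℕ → Type) (K : Mb Ω → Prop) (g : Gs 2 Ω) (M b D : ℕ → ℕ) (η : ℝ),
  Cls K g M 0 η → (∀ X, K X → Fat X.P (X.G g) M 0 M ∧ Fat X.P (X.G g) M 1 D) →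
  (∀ n, b n ≤ D n ∧ D n ≤ M n) →
  NoLab K g M (fun n => (g n).pl {0} 1) (fun _ => 0) (fun n => b n) → ∀ X, K X →
  Le M (fun n => (D n - b n : ℝ) * lg) fun n =>
    ch (X n).Q (fun v => fl1 (D n) ((X.G g n).pt v 1)) fun v =>
      (fl1 (b n) ((X.G g n).pt v 1), fl1 (M n) ((X.G g n).pt v 0), (X.G g n).zt v)

end Pool.Agent.MP_5168f5_an.R4.U
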