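import Pool.Agent.MP_5168f5_an.R4.USpec

/-! Kakeya sets in four dimensions, the step for planes: uniform errors. -/

namespace Pool.Agent.MP_5168f5_an.R4.U

open H19 H17S H17F Filter K31

namespace UGErrA

/-- A refinement with a label. -/
structure Ix (Ω : Type) extends Ext Ω where
  Λ : Type
  lam : W → Λ
  d : W → ℝ × ℝ × ℝ
  j : ℕ
  j' : ℕ
  th : ℕ

theorem one {M : ℕ → ℕ} {f g : ℕ → ℕ → ℝ} {ε : ℝ} (hε : 0 < ε)
    (h : ∀ j : ℕ → ℕ, (∀ n, j n ≤ M n) → Le M (fun n => f n (j n)) fun n => g n (j n)) :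
    ∀ᶠ n in UF, ∀ j, j ≤ M n → f n j ≤ g n j + ε * M n :=
  (le_unif (h := fun n j => j ≤ M n) fun _ => ⟨0, Nat.zero_le _⟩).1 h ε hε

end UGErrA

open UGErrA

theorem rowGErr : RGErr := by
  intro hG η X M p lo hi τ φ C ε h hC hε
  have g := hG _ _ _ _ _ _ _ _ h
  have xs := unif' (A := fun _ => ℕ × ℕ) (h := fun n a => a.1 ≤ a.2 ∧ a.2 ≤ M n)
    (p := fun n a => 2 * (a.2 - a.1 : ℝ) * lg ≤ ch (X n).P
      (fun ω => (fl1 a.2 ((X n).t ω), fl1 a.2 ((X n).x ω))) ((X n).S a.1) + ε * M n)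
    (fun _ => ⟨0, le_rfl, Nat.zero_le _⟩) fun a ha => g.xs _ _ ha ε hε
  have br := unif' (A := fun n => Ext (X n).Ω × ℕ)
    (h := fun n a => Dn C a.1.Q a.1.ρ (X n).P ∧ a.2 ≤ M n)
    (p := fun n a => η * a.2 * lg ≤ ch a.1.Q (fun v => fl1 a.2 ((X n).w (a.1.ρ v)))
      (fun v => (X n).y (a.1.ρ v)) + ε * M n)
    (fun n => ⟨(⟨_, _, id⟩, 0), (dn_rfl _).mono hC, Nat.zero_le _⟩) fun a ha =>
      h.br _ (fun n => (ha n).2) _ _ _ ⟨C, hC, Eventually.of_forall fun n => (ha n).1⟩ ε hε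
  have ng := unif' (A := fun n => Ext (X n).Ω × ℕ × ℕ)
    (h := fun n a => Dn C a.1.Q a.1.ρ (X n).P ∧ lo n ≤ a.2.1 ∧ a.2.1 ≤ a.2.2 ∧ a.2.2 ≤ hi n)
    (p := fun n a => ch a.1.Q (fun v => fl1 a.2.2 ((X n).u (a.1.ρ v)))
      (fun v => (fl1 a.2.1 ((X n).u (a.1.ρ v)), (X n).z (a.1.ρ v))) ≤
        φ n a.2.2 - φ n a.2.1 + ε * M n)
    (fun n => ⟨(⟨_, _, id⟩, lo n, lo n), (dn_rfl _).mono hC, le_rfl, le_rfl, (h.le n).2.1⟩)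
    fun a ha =>
      h.ng _ _ (fun n => (ha n).2) _ _ _ ⟨C, hC, Eventually.of_forall fun n => (ha n).1⟩ ε hε
  filter_upwards [sub_iff.1 h.alg ε hε, h.inf ε hε,
    one (f := fun _ i => i * lg) (g := fun n i => ch (X n).P (fun ω => fl1 i ((X n).t ω)) (X n).l)
      hε g.ht,
    one (f := fun n j => (X n).hk j ((X n).S j)) (g := fun _ _ => 0) hε h.hk,
    one (f := fun n j => (X n).lk ((X n).S j)) (g := fun _ _ => 0) hε g.lk,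
    one (f := fun n j => mi (X n).P ((X n).S j) (X n).z fun ω =>
      (fl1 j ((X n).t ω), fl1 j ((X n).x ω), (X n).S 0 ω)) (g := fun _ _ => 0) hε g.xz,
    xs, br, ng] with n a1 a2 a3 a4 a5 a6 a7 a8 a9
  simp only [zero_add] at a2 a4 a5 a6
  exact ⟨a1, a2, a3, a4, a5, fun j i b c => a7 (j, i) ⟨b, c⟩, a6,
    fun W Q f α b c => a8 (⟨W, Q, f⟩, α) ⟨b, c⟩,
    fun W Q f β lam b c d e => a9 (⟨W, Q, f⟩, β, lam) ⟨b, c, d, e⟩⟩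

theorem rowGOpt : GOpt := by
  intro η X M p lo hi τ φ h C ε hC hε
  have : ∀ n, Nonempty (Ix (X n).Ω) := fun n => ⟨⟨⟨_, (X n).P, id⟩, _, id, 0, 0, 0, 0⟩⟩
  obtain ⟨δ, hδ, k⟩ := unif2 (A := fun n => Ix (X n).Ω)
    (h := fun n a δ => (((X n).pull a.Q a.ρ).hk a.j a.lam ≤ δ * M n ∧
      ((X n).pull a.Q a.ρ).lk a.lam ≤ δ * M n) ∧ Dn C a.Q a.ρ (X n).P ∧
      (Fn a.Q a.d a.lam ∧ ∀ v ∈ a.Q.S, (X n).Fit 4 (a.d v) (a.ρ v) a.j a.th) ∧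
      a.j + ε * M n ≤ a.j' ∧ a.j' ≤ M n ∧ a.th ≤ p n)
    (p := fun n a => (a.th : ℝ) ≤ τ n a.j' + ε * M n)
    (fun n a δ δ' e b => by
      have := mul_le_mul_of_nonneg_right e (Nat.cast_nonneg (α := ℝ) (M n))
      exact ⟨⟨b.1.1.trans this, b.1.2.trans this⟩, b.2⟩)
    fun a ha => h.opt _ _ _ ε hε ((ha 1 one_pos).mono fun _ b => b.2.2.2)
      ⟨_, _, fun n => (a n).Q, fun n => (a n).ρ, fun n => (a n).lam, fun n => (a n).d,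
        ⟨C, hC, (ha 1 one_pos).mono fun _ b => b.2.1⟩,
        fun δ hδ => (ha δ hδ).mono fun _ b => b.1.1.trans_eq (zero_add _).symm,
        fun δ hδ => (ha δ hδ).mono fun _ b => b.1.2.trans_eq (zero_add _).symm,
        (ha 1 one_pos).mono fun _ b => b.2.2.1⟩ ε hε
  exact ⟨δ, hδ, k.mono fun n b W Λ Q f lam d j j' th c1 c2 c3 c4 c5 c6 c7 c8 =>
    b ⟨⟨W, Q, f⟩, Λ, lam, d, j, j', th⟩ ⟨⟨c2, c3⟩, c1, ⟨c4, c5⟩, c6, c7, c8⟩⟩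

end Pool.Agent.MP_5168f5_an.R4.U
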