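import Pool.Agent.MP_5168f5_an.R4.USpec

/-! Kakeya sets in four dimensions: passage to the fat point. -/

namespace Pool.Agent.MP_5168f5_an.R4.U

open H19 H17S H17F Filter K31

namespace ULiftA

theorem lab_unit {N : ℕ} {Ω : ℕ → Type} (P : ∀ n, FP (Ω n)) (g : Gs N Ω) (M j : ℕ → ℕ) :
    Lab P g M j fun _ _ => () :=
  ⟨Le.of_le fun _ => (mi_le _ _ _).trans_eq (ch_zero fun _ _ _ _ _ => rfl),
    Le.of_le fun _ => (mi_le _ _ _).trans_eq (ch_zero fun _ _ _ _ _ => rfl)⟩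

end ULiftA

open ULiftA in
theorem rowLift : RLift := by
  intro kb tl kp Ω K g M p D b η hK hF hp hN
  have hs : ∀ X, K X → Sm M fun n => ch (X n).Q ((X.G g n).fp ![M n, p n]) fun ω =>
      ((), (X.G g n).y ω) := fun X hX => by
    refine ((kb.fatB X.P (X.G g) M (fun n => ![M n, p n]) (hK.bs X hX)).2.2
      (Fin.forall_fin_two.2 ⟨(hF X hX).1, ?_⟩)).mono
      (Eventually.of_forall fun n => ch_anti (Fn.snd _ _))
    obtain ⟨L, hL, h⟩ := (hF X hX).2
    refine ⟨L, hL, ?_⟩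
    filter_upwards [h, hp] with n c d u hu v hv e
    exact (c u hu v hv e).trans (div_pow_le (hL.pos n).le d)
  refine ⟨⟨hK.cl0, hK.pos, fun X hX =>
    (kb.fatB X.P (X.G g) M (fun n => ![M n, p n]) (hK.bs X hX)).1, fun X hX =>
    kb.brc X.P (X.G g) M (fun _ _ => ()) (fun n => (X.G g n).fp ![M n, p n]) 0 η (hK.br X hX)
      (lab_unit X.P (X.G g) M fun _ => 0).l (hs X hX)⟩, fun X τ hX hT => ?_⟩
  obtain ⟨Λ, lam, d, L, h1, h2, h3⟩ := tl X.P (X.G g) (X.G (gF g M p)) M (fun _ => 0) (fun _ => 0)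
    τ (fun _ _ => ()) (fun n => ((g n).pl {0} 1).pull (X n).ρ)
    (fun n => kp.ok (X.G (gF g M p) n) {0} 1) (lab_unit _ _ _ _)
    (Eventually.of_forall fun n => ⟨fun u _ v _ e => by
      have e1 : (X.G g n).ln u = (X.G g n).ln v := congrArg (·.1.1) e
      have e2 : (X.G g n).z u = (X.G g n).z v := congrArg (·.1.2.1) e
      obtain ⟨e3, e4⟩ := Prod.mk.inj e1
      obtain ⟨e5, e6⟩ := Prod.mk.inj e4
      refine Prod.ext e1 (Prod.ext e2 (Prod.ext (funext fun i => ?_) (Prod.ext e2 e6)))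
      change fl1 _ (((X.G g n).a u + (X.G g n).z u • (X.G g n).e u) i) =
        fl1 _ (((X.G g n).a v + (X.G g n).z v • (X.G g n).e v) i)
      rw [e2, e3, e5], Fn.snd _ _⟩) (hs X hX) hT
  exact hN _ τ (hK.cl0.fst hX fun n => (X.G (gF g M p) n).core) ⟨Λ, lam, d, L, h1, h2,
    h3.mono fun n c => ⟨(Fn.fst _ _).trans c.1, c.2⟩⟩

end Pool.Agent.MP_5168f5_an.R4.U
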