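import Pool.Agent.MP_5168f5_an.R4.USpec
import Pool.Agent.MP_5168f5_an.R4.K80RA

/-! Kakeya sets in four dimensions, the step for planes: a density point of the deficiency. -/

namespace Pool.Agent.MP_5168f5_an.R4.U

open H19 H17S H17F Filter K31 MeasureTheory

namespace UProf1A

variable {M a a' : ℕ → ℕ} {ψ : ℕ → ℕ → ℝ} {C c s e : ℝ}

theorem le_le (hm : ∀ n, Monotone (ψ n)) (hs : ∀ n j, ψ n (j + 1) ≤ ψ n j + lg)
    (h : Le M (fun n => a n) fun n => a' n) : Le M (fun n => ψ n (a n)) fun n => ψ n (a' n) :=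
  fun ε hε => (h ε hε).mono fun n k => by
    have p : 0 ≤ ε * M n := by positivity
    rcases le_total (a n) (a' n) with u | u
    · linarith [hm n u]
    · have h1 := step_le (hs n) u
      have h2 : (0 : ℝ) ≤ a n - a' n := sub_nonneg.2 (by exact_mod_cast u)
      have h3 := mul_le_of_le_one_left h2 lg_lt_one.le
      linarith

theorem eqv (hM : Big M) (hb : ∀ n j, |ψ n j| ≤ 1 * M n) (hm : ∀ n, Monotone (ψ n))
    (hs : ∀ n j, ψ n (j + 1) ≤ ψ n j + lg) (hc : 0 ≤ c)
    (h : Eqv M (fun n => a n) fun n => c * M n) :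
    Eqv M (fun n => ψ n (a n)) fun n => prof M ψ c * M n :=
  Eqv.trans ⟨le_le hm hs (h.trans (lev_eqv hM hc).symm).1, le_le hm hs
    (h.trans (lev_eqv hM hc).symm).2⟩ (prof_eqv hM (Eventually.of_forall hb) c)

theorem lim (hM : Big M) (h : ∀ᶠ n in UF, (a n : ℝ) ≤ C * M n) :
    ∃ c : ℝ, 0 ≤ c ∧ c ≤ C ∧ Eqv M (fun n => a n) fun n => c * M n := by
  have k := Bd1.eqv (f := fun n => a n) ⟨C, h.mono fun n u => by rwa [Nat.abs_cast]⟩ hM
  exact ⟨_, Le.num hM ((Le.of_le fun n => by simp).trans k.1), Le.num hM (k.2.trans (Le.of_ev h)), k⟩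

theorem dif (hM : Big M) (hb : ∀ n j, |ψ n j| ≤ 1 * M n) (hm : ∀ n, Monotone (ψ n))
    (hs : ∀ n j, ψ n (j + 1) ≤ ψ n j + lg) (e1 : e ≤ 1)
    (h : s ∉ K80.Bad (fun x => prof M ψ x / lg) e) : DifU M ψ s e := by
  obtain ⟨h1, h2⟩ := not_not.1 h
  intro ε hε
  have hl := lg_pos
  obtain ⟨r₀, r0, h3⟩ := Metric.eventually_nhds_iff.1
    (Asymptotics.isLittleO_iff.1 h1.hasDerivAt.isLittleO (c := ε / 4) (by positivity))
  refine ⟨r₀ / 2, half_pos r0, fun r hr hr' => ?_⟩
  have k := unif (A := fun _ => ℕ × ℕ) (h := fun n x => (s - r) * M n ≤ x.1 ∧ x.1 ≤ x.2 ∧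
    (x.2 : ℝ) ≤ (s + r) * M n) (p := fun n x => ψ n x.2 - ψ n x.1 ≤
      (1 - e) * (x.2 - x.1) * lg + ε * r * M n) fun x hx => by
    obtain ⟨cb, b0, b1, b2⟩ := lim (a := fun n => (x n).2) hM (hx.mono fun n u => u.2.2)
    obtain ⟨ca, a0, -, a2⟩ := lim (a := fun n => (x n).1) hM
      (hx.mono fun n u => le_trans (by exact_mod_cast u.2.1) u.2.2)
    have a1 : s - r ≤ ca := Le.num hM ((Le.of_ev (hx.mono fun n u => u.1)).trans a2.1)
    have ab : ca ≤ cb := Le.num hM ((a2.2.trans (Le.of_ev (hx.mono fun n u => by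
      exact_mod_cast u.2.1))).trans b2.1)
    have v : ∀ y, |y - s| ≤ r → |prof M ψ y / lg - prof M ψ s / lg -
        (y - s) * deriv (fun x => prof M ψ x / lg) s| ≤ ε / 4 * r := fun y hy =>
      (h3 (y := y) (by rw [Real.dist_eq]; linarith)).trans
        (mul_le_mul_of_nonneg_left hy (by positivity))
    have v1 := (abs_le.1 (v ca (abs_le.2 ⟨by linarith, by linarith⟩))).1
    have v2 := (abs_le.1 (v cb (abs_le.2 ⟨by linarith, by linarith⟩))).2
    have v3 := mul_le_mul_of_nonneg_left h2 (sub_nonneg.2 ab)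
    have v4 : (prof M ψ cb - prof M ψ ca) / lg ≤ (1 - e) * (cb - ca) + ε * r / 2 := by
      rw [sub_div]; linarith
    rw [div_le_iff₀ hl] at v4
    have v5 := mul_le_of_le_one_right (show 0 ≤ ε * r / 2 by positivity) lg_lt_one.le
    have q : 0 ≤ (1 - e) * lg := mul_nonneg (sub_nonneg.2 e1) hl.le
    have w : Le M (fun n => ψ n (x n).2 - ψ n (x n).1) fun n =>
        (1 - e) * ((x n).2 - (x n).1) * lg + ε * r / 2 * M n :=
      Le.of4 (eqv hM hb hm hs b0 b2).1 (eqv hM hb hm hs a0 a2).2 (b2.2.smul q) (a2.1.smul q)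
        (Eventually.of_forall fun n => by
          have := mul_le_mul_of_nonneg_right (show prof M ψ cb - prof M ψ ca ≤
            (1 - e) * (cb - ca) * lg + ε * r / 2 by linarith) (Nat.cast_nonneg (α := ℝ) (M n))
          linarith)
    exact (w (ε * r / 2) (by positivity)).mono fun n u => by linarith
  exact k.mono fun n u a b x y z => u (a, b) ⟨x, y, z⟩

end UProf1A

open UProf1A in
theorem rowProf1 : Prof1 := by
  intro M b D φ hM hb hφ hn
  have hl := lg_pos
  have m0 : ∀ n, Monotone (φ n) := fun n => monotone_nat_of_le_succ fun j => ((hφ n).2 j).1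
  have hm : ∀ n, Monotone fun s => φ n (s - b n) := fun n _ _ h => m0 n (Nat.sub_le_sub_right h _)
  have hs : ∀ n j, φ n (j + 1 - b n) ≤ φ n (j - b n) + lg := fun n j =>
    (m0 n (by omega)).trans ((hφ n).2 (j - b n)).2.1
  have hB : ∀ n j, |φ n (j - b n)| ≤ 1 * M n := fun n j => by
    have h1 := m0 n (Nat.zero_le (j - b n))
    have h2 := step_le (fun j => ((hφ n).2 j).2.1) (Nat.zero_le (D n - b n))
    have h3 : ((D n - b n : ℕ) : ℝ) ≤ M n := by exact_mod_cast (Nat.sub_le _ _).trans (hb n).2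
    have h4 := mul_le_of_le_one_left (Nat.cast_nonneg (α := ℝ) (D n - b n)) lg_lt_one.le
    rw [(hφ n).1] at h1 h2
    rw [abs_of_nonneg h1]
    simp only [Nat.cast_zero, sub_zero] at h2
    linarith [((hφ n).2 (j - b n)).2.2]
  obtain ⟨D₀, d0, d1, d2⟩ := lim (a := D) (C := 1) hM (Eventually.of_forall fun n => by
    rw [one_mul]; exact_mod_cast (hb n).2)
  obtain ⟨b₀, b0, -, b2⟩ := lim (a := b) (C := 1) hM (Eventually.of_forall fun n => by
    rw [one_mul]; exact_mod_cast (hb n).1.trans (hb n).2)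
  have bd : b₀ ≤ D₀ := Le.num hM ((b2.2.trans (Le.of_le fun n => by
    exact_mod_cast (hb n).1)).trans d2.1)
  obtain ⟨ε, hε, h1⟩ := not_Le hn
  have h2 : prof M (fun n s => φ n (s - b n)) D₀ - prof M (fun n s => φ n (s - b n)) b₀ + ε ≤
      lg * (D₀ - b₀) := Le.num hM (Le.of4 (eqv hM hB hm hs d0 d2).2 (eqv hM hB hm hs b0 b2).1
    (d2.1.smul hl.le) (b2.2.smul hl.le) (h1.mono fun n u => by
      rw [Nat.cast_sub (hb n).1] at u
      rw [Nat.sub_self, (hφ n).1]
      linarith))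
  have hL : K80.Lip1 fun x => prof M (fun n s => φ n (s - b n)) x / lg := fun x y h => by
    rw [← sub_div, div_le_iff₀ hl, mul_comm]
    exact ⟨div_nonneg (sub_nonneg.2 (prof_mono hM (Eventually.of_forall hB)
      (Eventually.of_forall hm) h)) hl.le,
      prof_lip hM (Eventually.of_forall hB) hl.le (Eventually.of_forall hs) h⟩
  have e0 : 0 < min 1 (ε / 2) := lt_min one_pos (half_pos hε)
  obtain ⟨p, ⟨p1, p2⟩, hp⟩ := K80.ra1 hL e0.le (min_le_left _ _) bd (by
    rw [← sub_div, div_lt_iff₀ hl]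
    have k1 : (D₀ - b₀) * lg ≤ 1 := mul_le_one₀ (by linarith) hl.le lg_lt_one.le
    have k2 := mul_le_of_le_one_right e0.le k1
    linarith [min_le_right 1 (ε / 2)])
  have δ0 : 0 < min (p - b₀) (D₀ - p) / 2 := half_pos (lt_min (by linarith) (by linarith))
  refine ⟨_, p, _, e0, min_le_left _ _, δ0, by linarith, by linarith, ?_, fun η hη => ?_⟩
  · filter_upwards [b2.1 _ δ0, d2.2 _ δ0] with n u v
    have k1 := mul_le_mul_of_nonneg_right (min_le_left (p - b₀) (D₀ - p))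
      (Nat.cast_nonneg (α := ℝ) (M n))
    have k2 := mul_le_mul_of_nonneg_right (min_le_right (p - b₀) (D₀ - p))
      (Nat.cast_nonneg (α := ℝ) (M n))
    constructor <;> linarith
  · obtain ⟨X₀, h3, h4⟩ := hp η hη
    refine ⟨X₀, h3, fun x x0 x1 => le_trans (measure_mono fun s hs' => ?_) (h4 x x0 x1).1⟩
    exact ⟨by_contra fun k => hs'.1 (dif hM hB hm hs (min_le_left _ _) k), hs'.2.1,
      by linarith [hs'.2.2]⟩

end Pool.Agent.MP_5168f5_an.R4.U
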