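import Pool.Agent.MP_5168f5_an.R4.UApi
import Pool.Agent.MP_5168f5_an.R4.NCx3

/-! Kakeya sets in four dimensions, the step for planes: statements of the rows. -/

namespace Pool.Agent.MP_5168f5_an.R4.U

open H19 H17S H17F Filter K31 MeasureTheory

/-! ### Abstract tools -/

/-- Robust entropy at depth `k`: copies are separated at depth `k`. -/
def Sep1 : Prop := ∀ {W A : ℕ → Type} (P : ∀ n, FP (W n)) (f : ∀ n, W n → ℝ) (v : ∀ n, W n → A n)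
  (R k : ℕ → ℕ) (δ : ℝ), Big R → 0 < δ →
  Low P (fun n ω => fl1 (k n) (f n ω)) v R (fun n => δ * R n) →
  Whp (fun n => glue (P n) (P n) (v n) (v n)) fun n c => 1 ≤ 2 ^ k n * |f n c.1 - f n c.2|

/-- Robust linear entropy beyond depth `q`: copies are separated at depth `q`. -/
def SepL : Prop := ∀ {W A : ℕ → Type} (P : ∀ n, FP (W n)) (f : ∀ n, W n → ℝ) (v : ∀ n, W n → A n)
  (R q h : ℕ → ℕ) (η : ℝ), Big R → 0 < η → Frac h R →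
  (∀ α : ℕ → ℕ, (∀ n, α n ≤ h n) →
    Low P (fun n ω => fl1 (q n + α n) (f n ω)) v R fun n => η * α n * lg) →
  ∃ L, Sub R L ∧ Whp (fun n => glue (P n) (P n) (v n) (v n)) fun n c =>
    1 ≤ L n * 2 ^ q n * |f n c.1 - f n c.2|

/-- Full entropy is robust at every intermediate depth. -/
def FulL : Prop := ∀ {W A : ℕ → Type} (P : ∀ n, FP (W n)) (f : ∀ n, W n → ℝ) (v : ∀ n, W n → A n)
  (R q B α : ℕ → ℕ), Big R → (∀ n, q n + α n ≤ B n) →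
  (∀ᶠ n in UF, Fn (P n) (fun ω => fl1 (q n) (f n ω)) (v n)) →
  Le R (fun n => (B n - q n : ℝ) * lg) (fun n => ch (P n) (fun ω => fl1 (B n) (f n ω)) (v n)) →
  Low P (fun n ω => fl1 (q n + α n) (f n ω)) v R fun n => 1 * α n * lg

/-- Side information without leak keeps a robust lower bound. -/
def LowV : Prop := ∀ {W W' A A' A'' : ℕ → Type} (P : ∀ n, FP (W n)) (F : ∀ n, W n → A n)
  (y : ∀ n, W n → A' n) (Q : ∀ n, FP (W' n)) (ρ : ∀ n, W' n → W n) (v : ∀ n, W' n → A'' n)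
  (R : ℕ → ℕ) (D : ℕ → ℝ), Big R → Low P F y R D → DnS Q ρ P →
  Sm R (fun n => mi (Q n) (v n) (fun c => F n (ρ n c)) fun c => y n (ρ n c)) →
  Low Q (fun n c => F n (ρ n c)) v R D

/-- A covector that kills a broad direction is small. -/
def Rev : Prop := ∀ {W A : ℕ → Type} (P : ∀ n, FP (W n)) (w : ∀ n, W n → ℝ) (v : ∀ n, W n → A n)
  (T : ∀ n, W n → ℝ × ℝ) (R h : ℕ → ℕ) (η : ℝ) (ε L : ℕ → ℝ), Big R → 0 < η → Frac h R →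
  Sub R L → (∀ᶠ n in UF, Fn (P n) (T n) (v n) ∧ ∀ ω ∈ (P n).S, |w n ω| ≤ L n) →
  (∀ α : ℕ → ℕ, (∀ n, α n ≤ h n) →
    Low P (fun n ω => fl1 (α n) (w n ω)) v R fun n => η * α n * lg) →
  Whp P (fun n ω => |(T n ω).1 + (T n ω).2 * w n ω| ≤ ε n) →
  ∃ L', Sub R L' ∧ Whp P fun n ω => |(T n ω).1| ≤ L' n * ε n ∧ |(T n ω).2| ≤ L' n * ε n

/-- If copies are close, the entropy is small. -/
def Col : Prop := ∀ {W A : ℕ → Type} (P : ∀ n, FP (W n)) (f : ∀ n, W n → ℝ) (v : ∀ n, W n → A n)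
  (R k : ℕ → ℕ) (L : ℕ → ℝ) (C : ℝ), Big R → Sub R L →
  (∀ᶠ n in UF, Det (P n) (fun ω => fl1 (k n) (f n ω)) (v n) (Real.exp (C * R n))) →
  Whp (fun n => glue (P n) (P n) (v n) (v n)) (fun n c => |f n c.1 - f n c.2| ≤ L n / 2 ^ k n) →
  Sm R fun n => ch (P n) (fun ω => fl1 (k n) (f n ω)) (v n)

/-- Some window of depths has robust entropy on a refinement. -/
def Dep : Prop := ∀ {W A : ℕ → Type} (P : ∀ n, FP (W n)) (f : ∀ n, W n → ℝ) (v : ∀ n, W n → A n)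
  (R q α : ℕ → ℕ) (k : ℕ) (L D : ℕ → ℝ) (δ : ℝ), Big R → Sub R L → 0 < δ →
  (∀ᶠ n in UF, (∀ ω ∈ (P n).S, |f n ω| ≤ L n) ∧ q n * lg + δ * R n ≤ D n) →
  Low P (fun n ω => fl1 (q n + k * α n) (f n ω)) v R D →
  ∃ i < k, ∃ (W' : ℕ → Type) (Q : ∀ n, FP (W' n)) (ρ : ∀ n, W' n → W n) (δ' : ℝ), DnS Q ρ P ∧
    0 < δ' ∧ Low Q (fun n c => fl1 (q n + i * α n + α n) (f n (ρ n c)))
      (fun n c => (v n (ρ n c), fl1 (q n + i * α n) (f n (ρ n c)))) R fun n => δ' * R n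

/-- Three coordinates, each of which moves along its own line. -/
def LW3 : Prop := ∀ {W K Λ : ℕ → Type} (Q : ∀ n, FP (W n)) (k : ∀ n, W n → K n)
  (f t : ∀ n, Fin 3 → W n → ℝ) (l : ∀ n, Fin 3 → W n → Λ n) (R A κ : ℕ → ℕ) (L : ℕ → ℝ),
  Big R → Sub R L → (∀ n, κ n ≤ A n) →
  (∀ᶠ n in UF, ∀ i, ∀ c ∈ (Q n).S, ∀ c' ∈ (Q n).S, l n i c = l n i c' → k n c = k n c' →
    (∀ j, j ≠ i → |f n j c - f n j c'| ≤ L n / 2 ^ A n) ∧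
      |t n i c - t n i c'| ≤ L n * 2 ^ κ n * (|f n i c - f n i c'| + 1 / 2 ^ A n)) →
  (∀ i, Le R (fun n => A n * lg) fun n =>
    ch (Q n) (fun c => fl1 (A n) (t n i c)) fun c => (l n i c, k n c)) →
  Le R (fun n => 3 * (A n - κ n : ℝ) * lg) fun n =>
    ch (Q n) (fun c (i : Fin 3) => fl1 (A n) (f n i c)) (k n)

/-- Two copies carry at most twice the information on the cell. -/
def Ind2 : Prop := ∀ {Ω α β γ : Type} (P : FP Ω) (F : Ω → α) (S : Ω → β) (K : Ω → γ), Fn P K S →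
  mi (glue P P S S) (fun c => (F c.1, F c.2)) (fun c => S c.1) (fun c => K c.1) ≤ 2 * mi P F S K

/-! ### Refinements and shifts -/

def Ref : Prop := ∀ (γ e η : ℝ) (X : ℕ → U3) (R m : ℕ → ℕ) (W : ℕ → Type) (Q : ∀ n, FP (W n))
  (ρ : ∀ n, W n → (X n).Ω), Tan γ e η X R m → DnS Q ρ (PP X) →
  Tan γ e η (fun n => (X n).pull (Q n) (ρ n)) R m

def RefP : Prop := ∀ (γ e η : ℝ) (X : ℕ → U3) (τ : ℕ → ℕ → ℕ) (D j₀ R m : ℕ → ℕ) (W : ℕ → Type)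
  (Q : ∀ n, FP (W n)) (ρ : ∀ n, W n → (X n).Ω), Pre γ e η X τ D j₀ R m → DnS Q ρ (PP X) →
  Pre γ e η (fun n => (X n).pull (Q n) (ρ n)) τ D j₀ R m

/-- The exact conditions after a shift. -/
structure ShA : Prop where
  x : ∀ (X : U3) (ξ θ : ℕ) (ω : X.Ω), (X.shift ξ θ).x ω = 2 ^ ξ * X.x ω - fl1 ξ (X.x ω)
  u : ∀ (X : U3) (ξ θ : ℕ) (ω : X.Ω), (X.shift ξ θ).u ω =
    2 ^ θ * (X.u ω - (X.pl ξ ω).1 - X.pt ξ ω * X.t ω - X.px ξ ω * X.x ω)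
  alg : ∀ (X : U3) (τ τ' : ℕ → ℕ) (D D' R R' ξ θ s : ℕ) (L : ℝ), 1 ≤ L → X.Alg τ D R L →
    ξ + R' ≤ R → ξ + D' ≤ D → (∀ j, j ≤ R' → θ + τ' j ≤ τ (ξ + j) + s) → θ ≤ τ ξ + s →
    (X.shift ξ θ).Alg τ' D' R' (3 * L * 2 ^ s)

/-- Entropies after a shift. -/
structure ShF : Prop where
  hgt : ∀ (X : U3) (τ : ℕ → ℕ) (D R ξ θ i : ℕ) (L : ℝ), X.Alg τ D R L → ξ ≤ R →
    ch X.P (fun ω => fl1 (ξ + i) (X.t ω)) X.l - ξ * lg - X.hk ξ (X.S ξ) ≤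
      ch X.P (fun ω => fl1 i ((X.shift ξ θ).t ω)) (X.shift ξ θ).l
  inf : ∀ (X : U3) (τ : ℕ → ℕ) (D R ξ θ : ℕ) (L : ℝ), X.Alg τ D R L → ξ ≤ R →
    mi X.P (X.shift ξ θ).t (X.shift ξ θ).l (X.S ξ) ≤ mi X.P X.t X.l (X.S 0) + X.hk ξ (X.S ξ)
  hk : ∀ (X : U3) (τ : ℕ → ℕ) (D R ξ θ j : ℕ) (L : ℝ), X.Alg τ D R L → ξ + j ≤ R →
    (X.shift ξ θ).hk j (X.S (ξ + j)) ≤ X.hk (ξ + j) (X.S (ξ + j))
  lk : ∀ (X : U3) (τ : ℕ → ℕ) (D R ξ θ j : ℕ) (L : ℝ), X.Alg τ D R L → ξ + j ≤ R →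
    (X.shift ξ θ).lk (X.S (ξ + j)) ≤ X.lk (X.S (ξ + j))
  xs : ∀ (X : U3) (τ : ℕ → ℕ) (D R ξ θ i j : ℕ) (L : ℝ), X.Alg τ D R L → ξ + j ≤ R →
    ch X.P (fun ω => (fl1 i ((X.shift ξ θ).t ω), fl1 i ((X.shift ξ θ).x ω))) (X.S (ξ + j)) =
      ch X.P (fun ω => (fl1 (ξ + i) (X.t ω), fl1 (ξ + i) (X.x ω))) (X.S (ξ + j))
  xz : ∀ (X : U3) (τ : ℕ → ℕ) (D R ξ θ j : ℕ) (L : ℝ), X.Alg τ D R L → ξ + j ≤ R →
    mi X.P (X.S (ξ + j)) (X.shift ξ θ).z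
        (fun ω => (fl1 j ((X.shift ξ θ).t ω), fl1 j ((X.shift ξ θ).x ω), X.S ξ ω)) ≤
      mi X.P (X.S (ξ + j)) X.z fun ω => (fl1 (ξ + j) (X.t ω), fl1 (ξ + j) (X.x ω), X.S 0 ω)
  br : ∀ (X : U3) (ξ θ : ℕ) {α : Type} (F : X.Ω → α), Fn X.P F X.l →
    ch X.P F X.y - X.lk (X.S ξ) ≤ ch X.P F (X.shift ξ θ).y

/-- The second coordinate and the labels after a shift. -/
structure ShG : Prop where
  ng : ∀ (X : U3) (τ : ℕ → ℕ) (D R ξ θ β lam : ℕ) (L L' : ℝ), X.Alg τ D R L → ξ ≤ R → 0 ≤ L' →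
    (∀ ω ∈ X.P.S, |X.px ξ ω| ≤ L') → β ≤ lam → θ + lam ≤ D →
    ch X.P (fun ω => fl1 lam ((X.shift ξ θ).u ω))
        (fun ω => (fl1 β ((X.shift ξ θ).u ω), (X.shift ξ θ).z ω)) ≤
      ch X.P (fun ω => fl1 (θ + lam) (X.u ω)) (fun ω => (fl1 (θ + β) (X.u ω), X.z ω)) +
        2 * Real.log (2 * L' + 5)
  lab : ∀ (X : U3) (τ : ℕ → ℕ) (D R ξ θ j th : ℕ) (L : ℝ) {α : Type} (lam : X.Ω → α)
    (d : X.Ω → ℝ × ℝ × ℝ), X.Alg τ D R L → ξ ≤ R → Fn X.P d lam →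
    (∀ ω ∈ X.P.S, (X.shift ξ θ).Fit 4 (d ω) ω j th) →
    ∃ d' : X.Ω → ℝ × ℝ × ℝ, Fn X.P d' (fun ω => (lam ω, X.S ξ ω)) ∧
      (∀ ω ∈ X.P.S, X.Fit 4 (d' ω) ω (ξ + j) (θ + th)) ∧
      X.hk (ξ + j) (fun ω => (lam ω, X.S ξ ω)) ≤ (X.shift ξ θ).hk j lam + X.hk ξ (X.S ξ) ∧
      X.lk (fun ω => (lam ω, X.S ξ ω)) ≤ (X.shift ξ θ).lk lam + X.lk (X.S ξ)

def PreTan : Prop := ∀ (γ e η : ℝ) (X : ℕ → U3) (τ : ℕ → ℕ → ℕ) (D j₀ R m : ℕ → ℕ) (L : ℕ → ℝ),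
  Pre γ e η X τ D j₀ R m → Sub R L →
  (∀ᶠ n in UF, ∀ ω ∈ (X n).P.S, |(X n).px (j₀ n) ω| ≤ L n) →
  Tan γ e η (fun n => (X n).shift (j₀ n) (τ n (j₀ n))) R m

def TanPre : Prop := ∀ (γ e η : ℝ) (X : ℕ → U3) (R m ξ R' : ℕ → ℕ), Tan γ e η X R m →
  (∀ n, ξ n + R' n ≤ R n) → Frac R' R →
  Pre γ e η X (fun _ => tau γ) (fun n => tau γ (R n)) ξ R' m

def PreTB : Prop := ∀ (γ e η : ℝ) (X : ℕ → U3) (τ : ℕ → ℕ → ℕ) (D j₀ R m : ℕ → ℕ),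
  Pre γ e η X τ D j₀ R m → ∃ L, Sub R L ∧ Whp (PP X) fun n ω => |(X n).px (j₀ n) ω| ≤ L n

/-! ### Facts on tangent systems -/

/-- Heights and directions given a cell. -/
structure HT : Prop where
  il : ∀ (γ e η : ℝ) (X : ℕ → U3) (R m j : ℕ → ℕ), Tan γ e η X R m → (∀ n, j n ≤ R n) →
    Sm R fun n => mi (X n).P (X n).t (X n).l ((X n).S (j n))
  ht : ∀ (γ e η : ℝ) (X : ℕ → U3) (R m i : ℕ → ℕ), Tan γ e η X R m → (∀ n, i n ≤ R n) →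
    Le R (fun n => i n * lg) fun n => ch (X n).P (fun ω => fl1 (i n) ((X n).t ω)) (X n).l
  xs : ∀ (γ e η : ℝ) (X : ℕ → U3) (R m j i : ℕ → ℕ), Tan γ e η X R m →
    (∀ n, j n ≤ i n ∧ i n ≤ R n) → Le R (fun n => (i n - j n : ℝ) * lg) fun n =>
      ch (X n).P (fun ω => fl1 (i n) ((X n).x ω)) fun ω => (fl1 (i n) ((X n).t ω), (X n).S (j n) ω)
  brs : ∀ (γ e η : ℝ) (X : ℕ → U3) (R m j α : ℕ → ℕ), Tan γ e η X R m →
    (∀ n, j n ≤ R n ∧ α n ≤ R n) → Low (PP X) (fun n ω => fl1 (α n) ((X n).w ω))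
      (fun n => (X n).S (j n)) R fun n => η * α n * lg
  sepw : ∀ (γ e η : ℝ) (X : ℕ → U3) (R m : ℕ → ℕ), Tan γ e η X R m →
    ∃ L, Sub R L ∧ Whp (fun n => (X n).C2 (R n)) fun n c => 1 ≤ L n * |(X n).w c.1 - (X n).w c.2|
  sept : ∀ (γ e η : ℝ) (X : ℕ → U3) (R m : ℕ → ℕ), Tan γ e η X R m →
    ∃ L, Sub R L ∧ Whp (fun n => (X n).P2) fun n c => 1 ≤ L n * |(X n).t c.1 - (X n).t c.2|

/-- The slopes of the planes are bounded and converge. -/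
def TB : Prop := ∀ (γ e η : ℝ) (X : ℕ → U3) (R m i j : ℕ → ℕ), Tan γ e η X R m →
  (∀ n, i n ≤ j n ∧ j n ≤ R n) → ∃ L, Sub R L ∧ Whp (PP X) fun n ω =>
    |(X n).pt (j n) ω| ≤ L n ∧ |(X n).px (j n) ω| ≤ L n ∧
      |(X n).px (j n) ω - (X n).px (i n) ω| ≤ L n * 2 ^ i n / 2 ^ tau γ (i n)

/-- The cell and the base point determine the second coordinate. -/
def US : Prop := ∀ (γ e η : ℝ) (X : ℕ → U3) (R m j lam : ℕ → ℕ), Tan γ e η X R m →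
  (∀ n, j n ≤ R n ∧ lam n ≤ tau γ (j n)) →
  Sm R fun n => ch (X n).P (fun ω => fl1 (lam n) ((X n).u ω)) fun ω =>
    (fl1 (lam n) ((X n).t ω), fl1 (lam n) ((X n).x ω), (X n).S (j n) ω)

/-- The rate of the second coordinate given the coarse base point. -/
def NGc : Prop := ∀ (γ e η : ℝ) (X : ℕ → U3) (R m β lam : ℕ → ℕ), Tan γ e η X R m →
  (∀ n, β n ≤ lam n ∧ lam n ≤ R n) →
  Le R (fun n => ch (X n).P (fun ω => fl1 (lam n) ((X n).u ω)) fun ω =>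
    (fl1 (β n) ((X n).u ω), fl1 (lam n) ((X n).t ω), fl1 (lam n) ((X n).x ω), (X n).S 0 ω))
    fun n => (1 - e) * (lam n - β n) * lg

/-- The base line and the cell determine the second slope. -/
def PLd : Prop := ∀ (γ e η : ℝ) (X : ℕ → U3) (R m j q : ℕ → ℕ), Tan γ e η X R m →
  (∀ n, j n ≤ R n ∧ q n ≤ R n ∧ q n ≤ tau γ (j n)) →
  Sm R fun n => ch (X n).P (fun ω => fl1 (q n) ((X n).b ω)) fun ω =>
    (fl1 (q n) ((X n).a ω), fl1 (q n) ((X n).w ω), (X n).S (j n) ω)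

/-- After a shift the second slope is a function of the base line. -/
def Lip : Prop := ∀ (γ e η : ℝ) (X : ℕ → U3) (R m ξ : ℕ → ℕ) (L : ℕ → ℝ), Tan γ e η X R m →
  (∀ n, tau γ (ξ n) ≤ R n) → Sub R L →
  (∀ᶠ n in UF, ∀ ω ∈ (X n).P.S, |(X n).px (ξ n) ω| ≤ L n) →
  Sm R fun n => ch (X n).P (fun ω => fl1 (ξ n) (((X n).shift (ξ n) (tau γ (ξ n))).b ω)) fun ω =>
    (fl1 (tau γ (ξ n) - ξ n) (((X n).shift (ξ n) (tau γ (ξ n))).a ω),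
      fl1 (tau γ (ξ n)) ((X n).w ω), (X n).S (ξ n) ω)

/-- The rounded slopes of a copy form a label. -/
def FLab : Prop := ∀ (X : U3) {α β : Type} (Ψ : X.Ω → α) (φ : X.Ω → β) (T : X.Ω → ℝ × ℝ)
  (uh xh : X.Ω → ℝ) (E : X.Ω × X.Ω → Prop) (i k th : ℕ) (L κ : ℝ), 0 < κ → 1 ≤ L →
  L * 2 ^ th ≤ 2 ^ (i + k) → κ ≤ pb (glue X.P X.P φ φ) E →
  Fn X.P (fun ω => (X.a ω, X.w ω, X.n ω, X.b ω)) X.l → Fn X.P X.t X.y →
  Fn X.P φ (fun ω => (X.l ω, fl1 i (X.t ω))) → Fn X.P (fun ω => (X.l ω, fl1 i (X.t ω))) φ →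
  Fn X.P T Ψ → Fn X.P uh (fun ω => (Ψ ω, X.y ω)) → Fn X.P xh X.y →
  (∀ c ∈ (glue X.P X.P φ φ).S, E c → |X.w c.1| ≤ L ∧ |(T c.1).1 - (T c.2).1| ≤ 1 / 2 ^ k ∧
    |(T c.1).2 - (T c.2).2| ≤ 1 / 2 ^ k ∧
    |X.b c.1 - (T c.2).1 - (T c.2).2 * X.w c.1| ≤ 1 / 2 ^ k ∧ |X.u c.1 - uh c.1| ≤ 1 / 2 ^ th ∧
    (|(T c.2).2| + 1) * |X.x c.1 - xh c.1| ≤ 1 / 2 ^ th) →
  ∃ d : X.Ω × X.Ω → ℝ × ℝ × ℝ,
    (∀ c ∈ (cE (glue X.P X.P φ φ) E).S, X.Fit 4 (d c) c.1 i th) ∧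
    (X.pull (cE (glue X.P X.P φ φ) E) Prod.fst).hk i d ≤ lg / κ + 5 ∧
    (X.pull (cE (glue X.P X.P φ φ) E) Prod.fst).lk d ≤ (X.lk Ψ + lg) / κ + 5

/-- Slopes without leak that are constant along the lines contradict optimality. -/
def Label : Prop := ∀ (γ e η : ℝ) (X : ℕ → U3) (R m κ : ℕ → ℕ) (L : ℕ → ℝ) (α : ℕ → Type)
  (Ψ : ∀ n, (X n).Ω → α n) (T : ∀ n, (X n).Ω → ℝ × ℝ), Tan γ e η X R m → Frac κ R → Sub R L →
  (∀ᶠ n in UF, Fn (X n).P (T n) (Ψ n) ∧ Fn (X n).P ((X n).S (R n)) (Ψ n)) →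
  Sm m (fun n => (X n).lk (Ψ n)) →
  Whp (PP X) (fun n ω => |(T n ω).2| ≤ L n ∧
    |(X n).b ω - (T n ω).1 - (T n ω).2 * (X n).w ω| ≤ L n / 2 ^ κ n) →
  Whp (fun n => (X n).P2) (fun n c => |(T n c.1).1 - (T n c.2).1| ≤ L n / 2 ^ κ n ∧
    |(T n c.1).2 - (T n c.2).2| ≤ L n / 2 ^ κ n) → False

/-- Slopes of small entropy are constant along the lines. -/
def Const : Prop := ∀ (γ e η : ℝ) (X : ℕ → U3) (R m κ : ℕ → ℕ) (L : ℕ → ℝ)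
  (T : ∀ n, (X n).Ω → ℝ × ℝ), Tan γ e η X R m → Sub R L →
  Sm R (fun n => ch (X n).P (fun ω => (fl1 (κ n) (T n ω).1, fl1 (κ n) (T n ω).2)) ((X n).S 0)) →
  Whp (PP X) (fun n ω => |(X n).b ω - (T n ω).1 - (T n ω).2 * (X n).w ω| ≤ L n / 2 ^ κ n) →
  ∃ L', Sub R L' ∧ Whp (fun n => (X n).P2) fun n c =>
    |(T n c.1).1 - (T n c.2).1| ≤ L' n / 2 ^ κ n ∧ |(T n c.1).2 - (T n c.2).2| ≤ L' n / 2 ^ κ n

/-! ### Directions independent of the cell -/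

/-- The direction at resolution `A` is independent of the cell. -/
def IndA (X : ℕ → U3) (R A : ℕ → ℕ) : Prop := Sm R fun n => mi (X n).P
  (fun ω => (fl1 (A n) ((X n).w ω), fl1 (A n) ((X n).b ω))) ((X n).S (R n)) ((X n).S 0)

/-- Three directions in one cell are nearly coplanar. -/
def Flat (X : ℕ → U3) (R κ : ℕ → ℕ) : Prop := Whp (fun n => (X n).C3 (R n)) fun n c =>
  |det3 ((X n).w c.1.1) ((X n).b c.1.1) ((X n).w c.1.2) ((X n).b c.1.2) ((X n).w c.2)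
    ((X n).b c.2)| ≤ 1 / 2 ^ κ n

/-- The plane of two directions contains the third. -/
def Fit3 (X : ℕ → U3) (R A κ : ℕ → ℕ) (L : ℕ → ℝ) : Prop :=
  Whp (fun n => (X n).C3 (R n)) fun n c => |((X n).T2 (A n) c.1).2| ≤ L n ∧
    |(X n).b c.2 - ((X n).T2 (A n) c.1).1 - ((X n).T2 (A n) c.1).2 * (X n).w c.2| ≤ L n / 2 ^ κ n

/-- Each of the three heights is full given its line and the three directions. -/
def HanF : Prop := ∀ (γ e η : ℝ) (X : ℕ → U3) (R m A : ℕ → ℕ) (i : Fin 3), Tan γ e η X R m →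
  (∀ n, A n ≤ R n) → IndA X R A → Le R (fun n => A n * lg) fun n => ch ((X n).C3 (R n))
    (fun c => fl1 (A n) ((X n).t ((X n).pick i c))) fun c =>
      ((X n).l ((X n).pick i c), (X n).W3 (A n) c)

def Han : Prop := ∀ (γ e η : ℝ) (X : ℕ → U3) (R m A κ : ℕ → ℕ), Tan γ e η X R m → Frac A R →
  (∀ n, 4 * (κ n : ℝ) ≤ e * A n) → IndA X R A → Flat X R κ

def OneA : Prop := ∀ (γ e η : ℝ) (X : ℕ → U3) (R m A κ : ℕ → ℕ), Tan γ e η X R m → Frac A R →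
  (∀ n, κ n ≤ A n) → Flat X R κ → ∃ L, Sub R L ∧ Fit3 X R A κ L

def OneB : Prop := ∀ (γ e η : ℝ) (X : ℕ → U3) (R m A κ : ℕ → ℕ) (L : ℕ → ℝ), Tan γ e η X R m →
  (∀ n, A n ≤ R n) → Sub R L → IndA X R A → Fit3 X R A κ L →
  Sm R fun n => ch ((X n).C3 (R n))
    (fun c => (fl1 (κ n) ((X n).T2 (A n) c.1).1, fl1 (κ n) ((X n).T2 (A n) c.1).2)) fun c =>
      (X n).S 0 c.2

def One : Prop := ∀ (γ e η : ℝ) (X : ℕ → U3) (R m A : ℕ → ℕ), Tan γ e η X R m → Frac A R →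
  (Sm R fun n => ch (X n).P (fun ω => fl1 (A n) ((X n).b ω)) fun ω =>
    (fl1 (A n) ((X n).w ω), (X n).S 0 ω)) → False

/-! ### Slope larger than one -/

section Two

variable (X : ℕ → U3) (R q ρ B : ℕ → ℕ)

/-- The slope is a function of the fine base point. -/
def Cra : Prop := Sm R fun n => ch (X n).P ((X n).gz (R n) (ρ n)) fun ω =>
  (fl1 (B n) ((X n).t ω), fl1 (B n) ((X n).x ω), (X n).S 0 ω)

/-- The slope is a function of the height and the tube. -/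
def Loc : Prop := Sm R fun n => ch (X n).P ((X n).gz (R n) (ρ n)) fun ω =>
  (fl1 (q n) ((X n).t ω), (X n).Xq (q n) ω)

/-- The offset is full. -/
def Ful : Prop := Le R (fun n => (B n - q n : ℝ) * lg) fun n =>
  ch (X n).P (fun ω => fl1 (B n) ((X n).a ω)) fun ω =>
    ((X n).A (R n) (q n) (ρ n) ω, (X n).Θ (R n) (q n) (ρ n) (B n) ω)

/-- The offset is full given the shared data. -/
def Jnt : Prop := Le R (fun n => (B n - q n : ℝ) * lg) fun n =>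
  ch (X n).P2 (fun c => fl1 (B n) ((X n).a c.1)) ((X n).φ (R n) (q n) (ρ n) (B n))

/-- The laws of the rectangles. -/
noncomputable abbrev PP4 : ∀ n, FP (((X n).Ω × (X n).Ω) × (X n).Ω × (X n).Ω) := fun n =>
  (X n).P4 (R n) (q n) (ρ n) (B n)

/-- Heights and offsets are jointly full. -/
structure J4 : Prop where
  j1 : Le R (fun n => (B n + 2 * (B n - q n) : ℝ) * lg) fun n => ch (PP4 X R q ρ B n)
    (fun c => (fl1 (B n) ((X n).t c.1.2), fl1 (B n) ((X n).a c.1.1), fl1 (B n) ((X n).a c.2.1)))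
    fun c => ((X n).A (R n) (q n) (ρ n) c.1.1, (X n).Θ (R n) (q n) (ρ n) (B n) c.1.1)
  j2 : Le R (fun n => 2 * B n * lg) fun n => ch (PP4 X R q ρ B n)
    (fun c => (fl1 (B n) ((X n).t c.1.1), fl1 (B n) ((X n).t c.1.2))) fun c =>
      (fl1 (B n) ((X n).a c.1.1), fl1 (B n) ((X n).a c.2.1), fl1 (B n) ((X n).w c.1.1),
        (X n).S 0 c.1.1)

/-- The independence and fullness needed for the noise step. -/
structure RcE : Prop where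
  m1 : Sm R fun n => mi (PP4 X R q ρ B n) (fun c => (X n).A (R n) (q n) (ρ n) c.1.1)
    (fun c => ((X n).dd (R n) (ρ n) (B n) c, (X n).ww (q n) (ρ n) (B n) c)) fun c =>
      (X n).Θ (R n) (q n) (ρ n) (B n) c.1.1
  m2 : Sm R fun n => mi (PP4 X R q ρ B n) ((X n).dd (R n) (ρ n) (B n))
    ((X n).ww (q n) (ρ n) (B n)) fun c => (X n).Θ (R n) (q n) (ρ n) (B n) c.1.1
  f1 : Le R (fun n => ρ n * lg) fun n => ch (PP4 X R q ρ B n)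
    (fun c => fl1 (ρ n) (rd (B n) ((X n).t c.1.1) - rd (B n) ((X n).t c.1.2))) fun c =>
      (X n).Θ (R n) (q n) (ρ n) (B n) c.1.1
  f2 : Le R (fun n => ρ n * lg) fun n => ch (PP4 X R q ρ B n)
    (fun c => fl1 (ρ n) (2 ^ q n * (rd (B n) ((X n).a c.1.1) - rd (B n) ((X n).a c.2.1)))) fun c =>
      (X n).Θ (R n) (q n) (ρ n) (B n) c.1.1

/-- No grain for the point modulo the plane. -/
def Nga (e : ℝ) : Prop := NCx.NG1 (PP X) (fun n => (X n).Θ (R n) (q n) (ρ n) (B n))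
  (fun n ω => 2 ^ q n * (X n).π (R n) (q n) (ρ n) ω) ρ e

variable (σ : ℕ → ℕ)

/-- The rectangle closes. -/
def Rct : Prop := ∃ L, Sub R L ∧ Whp (PP4 X R q ρ B) fun n c =>
  |((X n).t c.1.1 - (X n).t c.1.2) * ((X n).b c.1.1 - (X n).b c.2.1) -
    ((X n).G (R n) (ρ n) c.1.1 - (X n).G (R n) (ρ n) c.1.2) * ((X n).a c.1.1 - (X n).a c.2.1)| ≤
      L n / 2 ^ (q n + σ n)

/-- The rate `μ` is the difference quotient of the slopes. -/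
def Mu1 : Prop := ∃ L, Sub R L ∧ Whp (PP4 X R q ρ B) fun n c =>
  |(X n).μ (R n) (ρ n) (B n) c.1| ≤ L n ∧
    1 ≤ L n * |rd (B n) ((X n).t c.1.1) - rd (B n) ((X n).t c.1.2)| ∧
    1 ≤ L n * 2 ^ q n * |(X n).a c.1.1 - (X n).a c.2.1| ∧
    |(X n).b c.1.1 - (X n).b c.2.1 -
      (X n).μ (R n) (ρ n) (B n) c.1 * ((X n).a c.1.1 - (X n).a c.2.1)| ≤ L n / 2 ^ (q n + σ n)

def Mu2 : Prop := Sm R fun n => ch (X n).P2
  (fun c => fl1 (σ n) ((X n).μ (R n) (ρ n) (B n) c)) fun c => (X n).Xq (q n) c.1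

def Mu3 : Prop := Sm R fun n => ch (X n).P2
  (fun c => fl1 (σ n) ((X n).G0 (R n) (ρ n) (B n) (σ n) c)) fun c => (X n).Xq (q n) c.1

def Mu4 : Prop := Sm R fun n => ch (X n).P2
  (fun c => fl1 (q n + σ n) ((X n).b0 (R n) (q n) (ρ n) (B n) (σ n) c)) fun c =>
    (fl1 (q n) ((X n).a c.1), fl1 (B n) ((X n).w c.1), (X n).S 0 c.1)

/-- The laws of the crossing pairs. -/
noncomputable abbrev PP5 : ∀ n, FP (((X n).Ω × (X n).Ω) × (X n).Ω × (X n).Ω) := fun n =>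
  (X n).P5 (R n) (q n) (ρ n) (B n) (σ n)

/-- The crossing lines are separated. -/
def CrS (α : ℕ → ℕ) : Prop := Whp (PP5 X R q ρ B σ) fun n c =>
  1 ≤ 2 ^ (q n + α n) * |(X n).w c.1.1 - (X n).w c.2.1|

/-- The height of the crossing is full. -/
def CrF : Prop := Le R (fun n => (σ n / 2 : ℕ) * lg) fun n => ch (PP5 X R q ρ B σ n)
  (fun c => fl1 (σ n / 2) ((X n).t c.1.1)) ((X n).K5 (R n) (q n) (ρ n) (B n) (σ n))

/-- The rate `μ` is small. -/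
def Crs : Prop := Whp (fun n => (X n).P2) fun n c =>
  |(X n).μ (R n) (ρ n) (B n) c| ≤ 2 / 2 ^ (σ n / 4)

end Two

/-- A statement for all prepared systems. -/
def ForRec (F : ℝ → (ℕ → U3) → (ℕ → ℕ) → (ℕ → ℕ) → (ℕ → ℕ) → (ℕ → ℕ) → Prop) : Prop :=
  ∀ (γ e η : ℝ) (X : ℕ → U3) (R m q ρ B : ℕ → ℕ) (L : ℕ → ℝ), Rec γ e η X R m q ρ B L →
    F e X R q ρ B

def CraA : Prop := ForRec fun _ X R _ ρ B => Cra X R ρ B
def LocA : Prop := ForRec fun _ X R q ρ B => Cra X R ρ B → Loc X R q ρ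
def FulA : Prop := ForRec fun _ X R q ρ B => Ful X R q ρ B
def JntA : Prop := ForRec fun _ X R q ρ B => Loc X R q ρ → Ful X R q ρ B → Jnt X R q ρ B
def J4A : Prop := ForRec fun _ X R q ρ B => Ful X R q ρ B → Jnt X R q ρ B → J4 X R q ρ B
def NgaA : Prop := ForRec fun e X R q ρ B => Ful X R q ρ B → Nga X R q ρ B e
def RcEA : Prop := ForRec fun _ X R q ρ B => Loc X R q ρ → J4 X R q ρ B → RcE X R q ρ B
def RctA : Prop := ∀ e₀ : ℝ, 0 < e₀ → e₀ ≤ 1 → ∃ c : ℝ, 0 < c ∧ ForRec fun e X R q ρ B =>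
  e = e₀ → RcE X R q ρ B → Nga X R q ρ B e → ∀ σ : ℕ → ℕ,
    (∀ n, (σ n : ℝ) ≤ c * ρ n) → Rct X R q ρ B σ
def Mu1A : Prop := ForRec fun _ X R q ρ B => Jnt X R q ρ B → ∀ σ : ℕ → ℕ, (∀ n, σ n ≤ ρ n) →
  Rct X R q ρ B σ → Mu1 X R q ρ B σ
def Mu2A : Prop := ForRec fun _ X R q ρ B => Loc X R q ρ → J4 X R q ρ B → ∀ σ : ℕ → ℕ,
  (∀ n, σ n ≤ ρ n) → Mu1 X R q ρ B σ → Mu2 X R q ρ B σ
def Mu3A : Prop := ForRec fun _ X R q ρ B => Loc X R q ρ → ∀ σ : ℕ → ℕ, (∀ n, σ n ≤ ρ n) →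
  Mu1 X R q ρ B σ → Mu2 X R q ρ B σ → Mu3 X R q ρ B σ
def Mu4A : Prop := ForRec fun _ X R q ρ B => J4 X R q ρ B → ∀ σ : ℕ → ℕ, (∀ n, σ n ≤ ρ n) →
  Mu1 X R q ρ B σ → Mu2 X R q ρ B σ → Mu4 X R q ρ B σ

def CrSA : Prop := ForRec fun _ X R q ρ B => ∀ (σ α : ℕ → ℕ) (δ : ℝ), 0 < δ →
  Low (PP X) (fun n ω => fl1 (q n + α n) ((X n).w ω))
    (fun n ω => ((X n).y ω, fl1 (q n) ((X n).w ω))) R (fun n => δ * R n) →
  Mu2 X R q ρ B σ → Mu3 X R q ρ B σ → CrS X R q ρ B σ α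

def CrFA : Prop := ForRec fun _ X R q ρ B => ∀ σ : ℕ → ℕ, (∀ n, σ n ≤ ρ n) →
  Mu2 X R q ρ B σ → Mu3 X R q ρ B σ → Mu4 X R q ρ B σ → CrF X R q ρ B σ

def CrsA : Prop := ForRec fun _ X R q ρ B => ∀ σ α : ℕ → ℕ, Frac σ R →
  (∀ n, σ n ≤ ρ n ∧ 4 * α n ≤ σ n) → Mu1 X R q ρ B σ → CrS X R q ρ B σ α → CrF X R q ρ B σ →
  Crs X R ρ B σ

def FinA : Prop := ForRec fun _ X R q ρ B => ∀ σ : ℕ → ℕ, Frac σ R → (∀ n, σ n ≤ ρ n) →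
  Mu1 X R q ρ B σ → Crs X R ρ B σ → False

/-- The case of slope larger than one. -/
def Two : Prop := ∀ e₀ : ℝ, 0 < e₀ → e₀ ≤ 1 → ∃ c : ℝ, 0 < c ∧ ForRec fun e X R q ρ _ =>
  e = e₀ → ∀ (σ α : ℕ → ℕ) (δ : ℝ), 0 < δ → Frac σ R →
    (∀ n, σ n ≤ ρ n ∧ (σ n : ℝ) ≤ c * ρ n ∧ 4 * α n ≤ σ n) →
    Low (PP X) (fun n ω => fl1 (q n + α n) ((X n).w ω))
      (fun n ω => ((X n).y ω, fl1 (q n) ((X n).w ω))) R (fun n => δ * R n) → False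

/-- There is no tangent system. -/
def Sat : Prop := ∀ (γ e η : ℝ) (X : ℕ → U3) (R m : ℕ → ℕ), ¬Tan γ e η X R m

def Sat1 : Prop := ∀ (e η : ℝ) (X : ℕ → U3) (R m : ℕ → ℕ), ¬Tan 1 e η X R m

def Sat2 : Prop := ∀ (γ e η : ℝ) (X : ℕ → U3) (R m : ℕ → ℕ), 1 < γ → ¬Tan γ e η X R m

/-! ### The global system -/

/-- A statement for all optimal systems. -/
def ForGlo (F : ℝ → (ℕ → U3) → (ℕ → ℕ) → (ℕ → ℕ) → (ℕ → ℕ → ℕ) → Prop) : Prop :=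
  ∀ (η : ℝ) (X : ℕ → U3) (M p lo hi : ℕ → ℕ) (τ : ℕ → ℕ → ℕ) (φ : ℕ → ℕ → ℝ),
    Glo η X M p lo hi τ φ → F η X M p τ

/-- The base point is full given a cell. -/
structure GX (X : ℕ → U3) (M : ℕ → ℕ) : Prop where
  ht : ∀ i : ℕ → ℕ, (∀ n, i n ≤ M n) →
    Le M (fun n => i n * lg) fun n => ch (X n).P (fun ω => fl1 (i n) ((X n).t ω)) (X n).l
  lk : ∀ j : ℕ → ℕ, (∀ n, j n ≤ M n) → Sm M fun n => (X n).lk ((X n).S (j n))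
  tz : ∀ j : ℕ → ℕ, (∀ n, j n ≤ M n) → Le M
    (fun n => ch (X n).P (X n).t fun ω => (fl1 (j n) ((X n).t ω), (X n).S 0 ω)) fun n =>
      ch (X n).P (X n).t fun ω => ((X n).l ω, (X n).S (j n) ω)
  xs : ∀ j i : ℕ → ℕ, (∀ n, j n ≤ i n ∧ i n ≤ M n) →
    Le M (fun n => 2 * (i n - j n : ℝ) * lg) fun n =>
      ch (X n).P (fun ω => (fl1 (i n) ((X n).t ω), fl1 (i n) ((X n).x ω))) ((X n).S (j n))
  xz : ∀ j : ℕ → ℕ, (∀ n, j n ≤ M n) → Sm M fun n => mi (X n).P ((X n).S (j n)) (X n).z fun ω =>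
    (fl1 (j n) ((X n).t ω), fl1 (j n) ((X n).x ω), (X n).S 0 ω)

def GXA : Prop := ForGlo fun _ X M _ _ => GX X M

/-- The slopes of the planes. -/
def GTB : Prop := ForGlo fun _ X M _ τ => ∀ j : ℕ → ℕ, (∀ n, j n ≤ M n) →
  ∃ L, Sub M L ∧ Whp (PP X) fun n ω =>
    |(X n).px (j n) ω| ≤ L n * (1 + 2 ^ j n / 2 ^ τ n (j n))

/-- The cube of level `j` is a label. -/
def GLow : Prop := ForGlo fun _ X M p _ => ∀ j : ℕ → ℕ, (∀ n, j n ≤ M n) →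
  ∃ th : ℕ → ℕ, Le M (fun n => (min (j n) (p n) : ℕ)) (fun n => th n) ∧ (∀ n, th n ≤ p n) ∧
    Thn X M j th

/-- A label of level `j` gives a thinner label of level `j + i`. -/
def GGrow : Prop := ForGlo fun _ X M p τ => ∀ j i : ℕ → ℕ, (∀ n, j n + i n ≤ M n) →
  ∃ th : ℕ → ℕ, Le M (fun n => (min (p n) (τ n (j n) + i n) : ℕ)) (fun n => th n) ∧
    (∀ n, th n ≤ p n) ∧ Thn X M (fun n => j n + i n) th

/-- Two heights in one window of level `i`. -/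
noncomputable abbrev PW (X : ℕ → U3) (i : ℕ → ℕ) : ∀ n, FP ((X n).Ω × (X n).Ω) := fun n =>
  glue (X n).P (X n).P (fun ω => ((X n).l ω, fl1 (i n) ((X n).t ω))) fun ω =>
    ((X n).l ω, fl1 (i n) ((X n).t ω))

/-- Two cells at the floor on one line leak little. -/
def GShare : Prop := ForGlo fun _ X M p τ => ∀ i W : ℕ → ℕ, (∀ n, i n + W n ≤ M n) →
  Le M (fun n => p n) (fun n => τ n (i n + W n)) →
  Le M (fun n => mi (PW X i n) (fun c => ((X n).S (i n + W n) c.1, (X n).S (i n + W n) c.2))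
    (fun c => (X n).l c.1) fun c => (X n).y c.1) fun n => 3 * W n * lg

/-- The slopes of the two cells are close with positive probability. -/
def GClose : Prop := ForGlo fun η X M p τ => ∀ i W κ : ℕ → ℕ, (∀ n, i n + W n ≤ M n) →
  Frac W M → (∀ᶠ n in UF, κ n ≤ M n ∧ 12 * (W n : ℝ) ≤ η * κ n) →
  Le M (fun n => p n) (fun n => τ n (i n + W n)) → Pos (PW X i) fun n c =>
    |(X n).pt (i n + W n) c.1 - (X n).pt (i n + W n) c.2| ≤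
        2 ^ (κ n + i n + W n) / 2 ^ τ n (i n + W n) ∧
      |(X n).px (i n + W n) c.1 - (X n).px (i n + W n) c.2| ≤
        2 ^ (κ n + i n + W n) / 2 ^ τ n (i n + W n)

/-- Extension of a plane at the floor to a longer window. -/
def GExt : Prop := ForGlo fun η X M p τ => ∀ i W : ℕ → ℕ, (∀ n, i n + W n ≤ M n) → Frac W M →
  Le M (fun n => p n) (fun n => τ n (i n + W n)) →
  ∃ th : ℕ → ℕ, Le M (fun n => p n - (1 + 12 / η) * W n) (fun n => th n) ∧ (∀ n, th n ≤ p n) ∧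
    Thn X M i th

/-- All errors are at most `s`, for all levels and all refinements of density `C`. -/
structure Err (η : ℝ) (X : U3) (M lo hi : ℕ) (τ : ℕ → ℕ) (φ : ℕ → ℝ) (C s : ℝ) : Prop where
  alg : ∃ L, 1 ≤ L ∧ L ≤ Real.exp s ∧ X.Alg τ M M L
  inf : mi X.P X.t X.l (X.S 0) ≤ s
  hgt : ∀ i, i ≤ M → i * lg ≤ ch X.P (fun ω => fl1 i (X.t ω)) X.l + s
  hk : ∀ j, j ≤ M → X.hk j (X.S j) ≤ s
  lk : ∀ j, j ≤ M → X.lk (X.S j) ≤ s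
  xs : ∀ j i, j ≤ i → i ≤ M →
    2 * (i - j : ℝ) * lg ≤ ch X.P (fun ω => (fl1 i (X.t ω), fl1 i (X.x ω))) (X.S j) + s
  xz : ∀ j, j ≤ M → mi X.P (X.S j) X.z (fun ω => (fl1 j (X.t ω), fl1 j (X.x ω), X.S 0 ω)) ≤ s
  br : ∀ (W : Type) (Q : FP W) (f : W → X.Ω) (α : ℕ), Dn C Q f X.P → α ≤ M →
    η * α * lg ≤ ch Q (fun v => fl1 α (X.w (f v))) (fun v => X.y (f v)) + s
  ng : ∀ (W : Type) (Q : FP W) (f : W → X.Ω) (β lam : ℕ), Dn C Q f X.P → lo ≤ β → β ≤ lam →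
    lam ≤ hi → ch Q (fun v => fl1 lam (X.u (f v))) (fun v => (fl1 β (X.u (f v)), X.z (f v))) ≤
      φ lam - φ β + s

def GErr : Prop := ∀ (η : ℝ) (X : ℕ → U3) (M p lo hi : ℕ → ℕ) (τ : ℕ → ℕ → ℕ) (φ : ℕ → ℕ → ℝ)
  (C ε : ℝ), Glo η X M p lo hi τ φ → 1 ≤ C → 0 < ε →
  ∀ᶠ n in UF, Err η (X n) (M n) (lo n) (hi n) (τ n) (φ n) C (ε * M n)

/-- Optimality with explicit thresholds. -/
def OptF (X : U3) (M p : ℕ) (τ : ℕ → ℕ) (C δ s : ℝ) : Prop :=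
  ∀ (W Λ : Type) (Q : FP W) (f : W → X.Ω) (lam : W → Λ) (d : W → ℝ × ℝ × ℝ) (j j' th : ℕ),
    Dn C Q f X.P → (X.pull Q f).hk j lam ≤ δ → (X.pull Q f).lk lam ≤ δ → Fn Q d lam →
    (∀ v ∈ Q.S, X.Fit 4 (d v) (f v) j th) → j + s ≤ j' → j' ≤ M → th ≤ p → (th : ℝ) ≤ τ j' + s

def GOpt : Prop := ForGlo fun _ X M p τ => ∀ C ε : ℝ, 1 ≤ C → 0 < ε → ∃ δ : ℝ, 0 < δ ∧
  ∀ᶠ n in UF, OptF (X n) (M n) (p n) (τ n) C (δ * M n) (ε * M n)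

/-- The facts of `Pre` with errors `R / k` and `m / k`. -/
structure PreF (γ e η : ℝ) (X : U3) (τ : ℕ → ℕ) (D j₀ R m k : ℕ) : Prop where
  km : k ≤ m ∧ k * m ≤ R
  alg : ∃ L, 1 ≤ L ∧ L ≤ Real.exp (R / k) ∧ X.Alg τ D (j₀ + R) L
  thick : ∃ s : ℕ, k * s ≤ R ∧ (∀ j, j ≤ R → τ j₀ + tau γ j ≤ τ (j₀ + j) + s) ∧ j₀ ≤ τ j₀ + s ∧
    τ j₀ + tau γ R ≤ D ∧ j₀ + tau γ R ≤ D
  inf : mi X.P X.t X.l (X.S 0) ≤ R / k
  hgt : (j₀ + R : ℝ) * lg ≤ ch X.P (fun ω => fl1 (j₀ + R) (X.t ω)) X.l + R / k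
  hk : ∀ j, j ≤ R → X.hk (j₀ + j) (X.S (j₀ + j)) ≤ m / k
  lk : X.lk (X.S (j₀ + R)) ≤ m / k
  xs : ∀ j, j ≤ R → 2 * (R - j : ℝ) * lg ≤
    ch X.P (fun ω => (fl1 (j₀ + R) (X.t ω), fl1 (j₀ + R) (X.x ω))) (X.S (j₀ + j)) + R / k
  xz : ∀ j, j ≤ R → mi X.P (X.S (j₀ + j)) X.z
    (fun ω => (fl1 (j₀ + j) (X.t ω), fl1 (j₀ + j) (X.x ω), X.S 0 ω)) ≤ R / k
  br : ∀ (W : Type) (Q : FP W) (f : W → X.Ω) (α : ℕ), Dn k Q f X.P → α ≤ R →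
    η * α * lg ≤ ch Q (fun v => fl1 α (X.w (f v))) (fun v => X.y (f v)) + R / k
  ng : ∀ (W : Type) (Q : FP W) (f : W → X.Ω) (β lam : ℕ), Dn k Q f X.P → β ≤ lam →
    lam ≤ tau γ R → ch Q (fun v => fl1 (τ j₀ + lam) (X.u (f v)))
      (fun v => (fl1 (τ j₀ + β) (X.u (f v)), X.z (f v))) ≤ (1 - e) * (lam - β) * lg + R / k
  typ : mi X.P (fun ω => fl1 R (X.w ω)) (X.S (j₀ + R)) (X.S j₀) ≤ R / k
  opt : ∀ (W Λ : Type) (Q : FP W) (f : W → X.Ω) (lam : W → Λ) (d : W → ℝ × ℝ × ℝ) (j th : ℕ),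
    Dn k Q f X.P → (X.pull Q f).hk (j₀ + j) lam ≤ m → (X.pull Q f).lk lam ≤ m → Fn Q d lam →
    (∀ v ∈ Q.S, X.Fit 4 (d v) (f v) (j₀ + j) (τ j₀ + th)) → j ≤ R → (th : ℝ) ≤ γ * j + R / k

/-- A good level: the profiles have slopes `γ` and at most `1 - e`. -/
structure Lev (M p lo hi : ℕ → ℕ) (τ : ℕ → ℕ → ℕ) (φ : ℕ → ℕ → ℝ) (c γ s e δ : ℝ) : Prop where
  par : 0 ≤ c ∧ c < 1 ∧ c ≤ s ∧ 1 ≤ γ ∧ 0 < δ
  dif : Dif M τ c γ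
  difU : DifU M φ s e
  val : Eqv M (fun n => τ n (lev M c n)) fun n => s * M n
  mid : ∀ᶠ n in UF, lo n + δ * M n ≤ s * M n ∧ s * M n + δ * M n ≤ p n ∧ p n ≤ hi n

/-- Among `k` consecutive windows one has directions nearly independent of the cells. -/
def Win : Prop := ∀ (X : U3) (τ : ℕ → ℕ) (D M j₁ R k : ℕ) (L : ℝ), X.Alg τ D M L → 0 < k →
  j₁ + k * R ≤ M → ∃ i < k, k * mi X.P (fun ω => fl1 R (X.w ω)) (X.S (j₁ + i * R + R))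
    (X.S (j₁ + i * R)) ≤ R * lg + Real.log (4 * L + 3)

/-- The numerical facts on a window `[j₀, j₀ + R]`. -/
structure Num (γ e ε : ℝ) (τ : ℕ → ℕ) (φ : ℕ → ℝ) (M p lo hi j₀ R k : ℕ) : Prop where
  thick : ∃ s : ℕ, k * s ≤ R ∧ (∀ j, j ≤ R → τ j₀ + tau γ j ≤ τ (j₀ + j) + s) ∧ j₀ ≤ τ j₀ + s ∧
    τ j₀ + tau γ R ≤ M ∧ j₀ + tau γ R ≤ M
  ng : ∀ β lam, β ≤ lam → lam ≤ tau γ R → lo ≤ τ j₀ + β ∧ τ j₀ + lam ≤ hi ∧
    φ (τ j₀ + lam) - φ (τ j₀ + β) ≤ (1 - e) * (lam - β) * lg + R / (2 * k)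
  fl : τ j₀ + (tau γ R + R + 1) ≤ p
  opt : ∀ j, j ≤ R → ∃ j', j' ≤ M ∧ ((j₀ + j : ℕ) : ℝ) + ε * M ≤ j' ∧
    τ j' + ε * M ≤ τ j₀ + γ * j + R / k

def TanN : Prop := ∀ (M p lo hi : ℕ → ℕ) (τ : ℕ → ℕ → ℕ) (φ : ℕ → ℕ → ℝ) (c γ s e δ : ℝ) (k : ℕ),
  Big M → (∀ n, p n ≤ M n) → (∀ᶠ n in UF, Monotone (τ n)) → Lev M p lo hi τ φ c γ s e δ → 0 < k →
  ∃ r ε : ℝ, 0 < r ∧ 0 < ε ∧ ∀ᶠ n in UF, lev M c n + 2 * k * lev M r n ≤ M n ∧ ∀ i < 2 * k,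
    Num γ e ε (τ n) (φ n) (M n) (p n) (lo n) (hi n) (lev M c n + i * lev M r n) (lev M r n) k

def TanF : Prop := ∀ (η : ℝ) (X : ℕ → U3) (M p lo hi : ℕ → ℕ) (τ : ℕ → ℕ → ℕ) (φ : ℕ → ℕ → ℝ)
  (c γ s e δ : ℝ) (k : ℕ), Glo η X M p lo hi τ φ → Lev M p lo hi τ φ c γ s e δ → 0 < k →
  ∀ᶠ n in UF, ∃ j₀ R m, PreF γ e η (X n) (τ n) (M n) j₀ R m k

def TanL : Prop := ∀ (γ e η : ℝ) (X : ℕ → U3) (τ : ℕ → ℕ → ℕ) (D : ℕ → ℕ),
  1 ≤ γ ∧ 0 < e ∧ e ≤ 1 ∧ 0 < η →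
  (∀ k, 0 < k → ∀ᶠ n in UF, ∃ j₀ R m, PreF γ e η (X n) (τ n) (D n) j₀ R m k) →
  ∃ j₀ R m, Pre γ e η X τ D j₀ R m

/-- The level `p₀` is a density point of the levels with small slope. -/
def Dens (M : ℕ → ℕ) (φ : ℕ → ℕ → ℝ) (e p₀ : ℝ) : Prop := ∀ ε : ℝ, 0 < ε → ∃ x₀ : ℝ, 0 < x₀ ∧
  ∀ x, 0 < x → x ≤ x₀ →
    volume ({s | ¬DifU M φ s e} ∩ Set.Icc (p₀ - x) p₀) ≤ ENNReal.ofReal (ε * x)

def Prof1 : Prop := ∀ (M b D : ℕ → ℕ) (φ : ℕ → ℕ → ℝ), Big M → (∀ n, b n ≤ D n ∧ D n ≤ M n) →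
  (∀ n, φ n 0 = 0 ∧ ∀ j, φ n j ≤ φ n (j + 1) ∧ φ n (j + 1) ≤ φ n j + lg ∧
    φ n j ≤ φ n (D n - b n)) →
  (¬Le M (fun n => lg * (D n - b n : ℕ)) fun n => φ n (D n - b n)) →
  ∃ e p₀ δ : ℝ, 0 < e ∧ e ≤ 1 ∧ 0 < δ ∧ 0 < p₀ ∧ p₀ < 1 ∧
    (∀ᶠ n in UF, b n + δ * M n ≤ p₀ * M n ∧ p₀ * M n + δ * M n ≤ D n) ∧
    Dens M (fun n s => φ n (s - b n)) e p₀

def Prof2 : Prop := ∀ (M lo hi : ℕ → ℕ) (τ : ℕ → ℕ → ℕ) (φ : ℕ → ℕ → ℝ) (e p₀ δ C : ℝ)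
  (T : (ℕ → ℕ) → (ℕ → ℕ) → Prop), Big M → 0 < δ → 0 < p₀ → p₀ < 1 → 0 < C →
  (∀ᶠ n in UF, lo n + δ * M n ≤ p₀ * M n ∧ p₀ * M n + δ * M n ≤ hi n) → Dens M φ e p₀ →
  (∀ᶠ n in UF, Monotone (τ n) ∧ ∀ j, τ n j ≤ lev M p₀ n) →
  (∀ (j j' th : ℕ → ℕ) (ε : ℝ), 0 < ε →
    (∀ᶠ n in UF, j n + ε * M n ≤ j' n ∧ j' n ≤ M n ∧ th n ≤ lev M p₀ n) → T j th →
    Le M (fun n => th n) fun n => τ n (j' n)) →
  (∀ th : ℕ → ℕ, T (fun _ => 0) th → Le M (fun n => th n) fun n => lo n) →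
  (∀ j : ℕ → ℕ, (∀ n, j n ≤ M n) → ∃ th : ℕ → ℕ,
    Le M (fun n => (min (j n) (lev M p₀ n) : ℕ)) (fun n => th n) ∧ (∀ n, th n ≤ lev M p₀ n) ∧
      T j th) →
  (∀ j i : ℕ → ℕ, (∀ n, j n + i n ≤ M n) → ∃ th : ℕ → ℕ,
    Le M (fun n => (min (lev M p₀ n) (τ n (j n) + i n) : ℕ)) (fun n => th n) ∧
      (∀ n, th n ≤ lev M p₀ n) ∧ T (fun n => j n + i n) th) →
  (∀ i W : ℕ → ℕ, (∀ n, i n + W n ≤ M n) → Frac W M →
    Le M (fun n => lev M p₀ n) (fun n => τ n (i n + W n)) → ∃ th : ℕ → ℕ,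
      Le M (fun n => lev M p₀ n - C * W n) (fun n => th n) ∧ (∀ n, th n ≤ lev M p₀ n) ∧ T i th) →
  ∃ c γ s δ' : ℝ, Lev M (lev M p₀) lo hi τ φ c γ s e δ'

/-- There is no optimal system whose floor is a density point. -/
def NoGlo : Prop := ∀ (η : ℝ) (X : ℕ → U3) (M lo hi : ℕ → ℕ) (τ : ℕ → ℕ → ℕ) (φ : ℕ → ℕ → ℝ)
  (e p₀ δ : ℝ), Glo η X M (lev M p₀) lo hi τ φ → 0 < e → e ≤ 1 → 0 < δ → 0 < p₀ → p₀ < 1 →
  (∀ᶠ n in UF, lo n + δ * M n ≤ p₀ * M n ∧ p₀ * M n + δ * M n ≤ hi n) → Dens M φ e p₀ → False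

/-! ### From classes to the scalar form -/

section Tr

variable {Ω : ℕ → Type} (K : Mb Ω → Prop) (g : Gs 2 Ω) (M p : ℕ → ℕ)
  (F : ∀ n, Fam fun _ : Unit => plU (g n))

/-- The system with the fat point. -/
noncomputable abbrev gF : Gs 2 Ω := fun n => (g n).fat ![M n, p n]

/-- The scalar form of a member. -/
noncomputable abbrev XU (X : Mb Ω) : ℕ → U3 := fun n =>
  toU (X n).Q (X.G g n) (fun j v => (F n).S j ((X n).ρ v)) (fun j v => (F n).d () j ((X n).ρ v))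
    (M n) (p n)

/-- An optimal family of planes on a broad set of systems. -/
structure Ctx (η : ℝ) : Prop where
  cls : Cls0 K (gF g M p) M 0 η
  opt : Opt K (gF g M p) M F fun n _ => p n
  le : ∀ n, p n ≤ M n

end Tr

/-- A statement for all members. -/
def ForCtx (Z : ∀ {Ω : ℕ → Type}, (Mb Ω → Prop) → (g : Gs 2 Ω) → (ℕ → ℕ) → (ℕ → ℕ) →
    (ℕ → ℕ → ℕ) → ℝ → (ℕ → U3) → Prop) : Prop :=
  ∀ (Ω : ℕ → Type) (K : Mb Ω → Prop) (g : Gs 2 Ω) (M p : ℕ → ℕ)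
    (F : ∀ n, Fam fun _ : Unit => plU (g n)) (η : ℝ) (X : Mb Ω), Ctx K g M p F η → K X →
    Z K g M p (fun n => (F n).τ ()) η (XU g M p F X)

def TrA : Prop := ForCtx fun _ _ M p τ _ X =>
  (∀ᶠ n in UF, Monotone (τ n) ∧ ∀ j, τ n j ≤ p n) ∧
  (∃ L, Sub M L ∧ ∀ᶠ n in UF, (X n).Alg (τ n) (M n) (M n) (L n)) ∧
  ∀ᶠ n in UF, Fn (X n).P (X n).y (fun ω => ((X n).z ω, fl1 (p n) ((X n).u ω))) ∧
    Fn (X n).P (fun ω => fl1 (p n) ((X n).u ω)) (X n).y ∧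
    Fn (X n).P (X n).z fun ω => ((X n).t ω, fl1 (M n) ((X n).x ω), (X n).S 0 ω)

def TrB : Prop := ForCtx fun _ _ M _ _ _ X =>
  (Sm M fun n => mi (X n).P (X n).t (X n).l ((X n).S 0)) ∧
  (Le M (fun n => M n * lg) fun n => ch (X n).P (fun ω => fl1 (M n) ((X n).t ω)) (X n).l) ∧
  (∀ j : ℕ → ℕ, (∀ n, j n ≤ M n) → Sm M fun n => (X n).hk (j n) ((X n).S (j n))) ∧
  (Sm M fun n => (X n).lk ((X n).S (M n))) ∧
  ∀ j : ℕ → ℕ, (∀ n, j n ≤ M n) → Le M (fun n => (M n - j n : ℝ) * lg) fun n =>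
    ch (X n).P (fun ω => fl1 (M n) ((X n).x ω)) fun ω => ((X n).t ω, (X n).S (j n) ω)

/-- A label of the scalar form, joined with the context, is a label of the class. -/
def TrL : Prop := ∀ (Ω : ℕ → Type) (K : Mb Ω → Prop) (g : Gs 2 Ω) (M p : ℕ → ℕ)
  (F : ∀ n, Fam fun _ : Unit => plU (g n)) (η : ℝ) (X : Mb Ω) (Λ : ℕ → Type)
  (lam : ∀ n, (X n).W → Λ n) (j : ℕ → ℕ), Ctx K g M p F η → K X →
  Sm M (fun n => (XU g M p F X n).hk (j n) (lam n)) → Sm M (fun n => (XU g M p F X n).lk (lam n)) →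
  Lab X.P (X.G (gF g M p)) M j fun n v => (lam n v, (XU g M p F X n).S 0 v)

def TrC : Prop := ForCtx fun _ _ M p τ η X =>
  (∀ α : ℕ → ℕ, (∀ n, α n ≤ M n) →
    Low (PP X) (fun n ω => fl1 (α n) ((X n).w ω)) (fun n => (X n).y) M fun n => η * α n * lg) ∧
  ∀ (j j' th : ℕ → ℕ) (ε : ℝ), 0 < ε →
    (∀ᶠ n in UF, j n + ε * M n ≤ j' n ∧ j' n ≤ M n ∧ th n ≤ p n) → Thn X M j th →
    Le M (fun n => th n) fun n => τ n (j' n)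

def TrD : Prop := ForCtx fun K g M p _ _ X => ∀ lo : ℕ → ℕ,
  NoLab K (gF g M p) M (fun n => (g n).pl {0} 1) (fun _ => 0) (fun n => lo n) →
  ∀ th : ℕ → ℕ, Thn X M (fun _ => 0) th → Le M (fun n => th n) fun n => lo n

def TrE : Prop := ForCtx fun K g M _ _ _ X => ∀ (β lam : ℕ → ℕ) (D : ℕ → ℝ),
  (∀ X', K X' → Le M (fun n => ch (X' n).Q (fun v => fl1 (lam n) ((X'.G g n).pt v 1)) fun v =>
    (fl1 (β n) ((X'.G g n).pt v 1), fl1 (M n) ((X'.G g n).pt v 0), (X'.G g n).zt v)) D) →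
  Upp (PP X) (fun n ω => fl1 (lam n) ((X n).u ω))
    (fun n ω => (fl1 (β n) ((X n).u ω), (X n).z ω)) M D

/-- Passage to the fat point. -/
def Lift : Prop := ∀ (Ω : ℕ → Type) (K : Mb Ω → Prop) (g : Gs 2 Ω) (M p D b : ℕ → ℕ) (η : ℝ),
  Cls0 K g M 0 η → (∀ X, K X → Fat X.P (X.G g) M 0 M ∧ Fat X.P (X.G g) M 1 D) →
  (∀ᶠ n in UF, p n ≤ D n) →
  NoLab K g M (fun n => (g n).pl {0} 1) (fun _ => 0) (fun n => b n) →
  Cls0 K (gF g M p) M 0 η ∧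
    NoLab K (gF g M p) M (fun n => (g n).pl {0} 1) (fun _ => 0) fun n => b n

/-! ### Rows -/

def RSepL : Prop := Sep1 → SepL
def RRev : Prop := SepL → Rev
def RShF : Prop := ShA → ShF
def RShG : Prop := ShA → ShG
def RPreTan : Prop := ShA → ShF → ShG → PreTan
def RPreTB : Prop := LowV → Rev → PreTB
def RHT : Prop := LowV → SepL → FulL → HT
def RTB : Prop := Rev → HT → TB
def RUS : Prop := TB → US
def RNGc : Prop := US → NGc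
def RPLd : Prop := PL → Ref → HT → US → NGc → PLd
def RLip : Prop := PLd → Lip
def RLabel : Prop := FLab → TB → Label
def RConst : Prop := LowV → Rev → Const
def RHanF : Prop := HT → HanF
def RHan : Prop := LW3 → FulL → Ref → TB → NGc → HanF → Han
def ROneA : Prop := HT → OneA
def ROneB : Prop := LowV → Rev → Col → Ind2 → OneB
def ROne : Prop := Ref → Han → OneA → OneB → Const → Label → One
def RCra : Prop := Ind2 → HT → CraA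
def RFul : Prop := HT → PLd → FulA
def RJnt : Prop := HT → JntA
def RJ4 : Prop := HT → J4A
def RNga : Prop := FulL → Ref → NGc → NgaA
def RMu1 : Prop := SepL → FulL → HT → Mu1A
def RMu3 : Prop := HT → Mu3A
def RCrS : Prop := Sep1 → LowV → CrSA
def RCrF : Prop := HT → CrFA
def RCrs : Prop := FulL → CrsA
def RFin : Prop := Label → FinA
def RSat1 : Prop := Ref → TanPre → PreTan → TB → Lip → One → Sat1
def RSat2 : Prop := Ref → TanPre → PreTan → TB → Lip → Dep → Two → Sat2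
def RGTB : Prop := LowV → Rev → GXA → GTB
def RGGrow : Prop := GXA → GTB → GLow → GGrow
def RGShare : Prop := GXA → GTB → GShare
def RGClose : Prop := GShare → GClose
def RGExt : Prop := FLab → GXA → GTB → GLow → GClose → GExt
def RGErr : Prop := GXA → GErr
def RTanF : Prop := Win → GErr → GOpt → TanN → TanF
def RNoGlo : Prop := GLow → GGrow → GExt → Prof2 → TanF → TanL → RefP → PreTB → PreTan → Sat →
  NoGlo
def RTrB : Prop := KB → XA → TrB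
def RTrL : Prop := KB → TrL
def RTrC : Prop := KB → TrL → TrC
def RTrD : Prop := LowV → Rev → KP → TrA → TrL → TrC → TrD
def RLift : Prop := KB → ThinLift → KP → Lift
def RThm : Prop := Exact → OptE → Prof1 → Lift → TrA → TrB → TrC → TrD → TrE → NoGlo → ThmU

end Pool.Agent.MP_5168f5_an.R4.U
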