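import Pool.Agent.MP_5168f5_an.R4.USpec

/-! Kakeya sets in four dimensions, the step for planes: numerical facts on windows. -/

namespace Pool.Agent.MP_5168f5_an.R4.U

open H19 H17S H17F Filter K31

namespace UTanNA

theorem num {M p lo hi j₁ R k : ℕ} {τ : ℕ → ℕ} {φ : ℕ → ℝ} {γ e ε a b x u : ℝ} (hk : 0 < k)
    (hγ : 1 ≤ γ) (hv : 1 ≤ ε * M) (hu : u = (γ + 1) * (ε * M)) (hx : x = 20 * k * u)
    (h1 : j₁ ≤ a) (h2 : R ≤ x) (h3 : x < R + 1) (ab : a ≤ b)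
    (dif : ∀ j j' : ℕ, j₁ ≤ j → j ≤ j' → j' ≤ a + (2 * k + 2) * x →
      |(τ j' : ℝ) - τ j - γ * (j' - j)| ≤ u)
    (difU : ∀ j j' : ℕ, b - (γ + 1) * ((2 * k + 2) * x) ≤ j → j ≤ j' →
      j' ≤ b + (γ + 1) * ((2 * k + 2) * x) → φ j' - φ j ≤ (1 - e) * (j' - j) * lg + u)
    (v1 : τ j₁ ≤ b + ε * M) (v2 : b ≤ τ j₁ + ε * M) (m1 : lo + (γ + 1) * ((2 * k + 2) * x) ≤ b)
    (m2 : b + (γ + 1) * ((2 * k + 2) * x) ≤ p) (m3 : p ≤ hi) (m4 : p ≤ M)
    (m5 : a + (γ + 1) * ((2 * k + 2) * x) ≤ M) :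
    j₁ + 2 * k * R ≤ M ∧ ∀ i < 2 * k, Num γ e ε τ φ M p lo hi (j₁ + i * R) R k := by
  have k1 : (1 : ℝ) ≤ k := by exact_mod_cast hk
  have k0 : (0 : ℝ) < k := by linarith
  have u1 : γ + 1 ≤ u := by nlinarith
  have u2 : ε * M ≤ u := by nlinarith
  have x1 : u ≤ k * u := by nlinarith
  have x2 : x ≤ k * x := by nlinarith
  have x3 : x ≤ γ * x := by nlinarith
  have x4 : k * x ≤ γ * (k * x) := by nlinarith
  have x5 : (k : ℝ) * R ≤ k * x := mul_le_mul_of_nonneg_left h2 k0.le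
  have x6 : γ * R ≤ γ * x := mul_le_mul_of_nonneg_left h2 (by linarith)
  refine ⟨by
    rw [← Nat.cast_le (α := ℝ)]
    push_cast
    linarith, fun i hi => ?_⟩
  have y1 : ((i * R : ℕ) : ℝ) + R ≤ 2 * (k * x) := by
    have : (((i + 1) * R : ℕ) : ℝ) ≤ (2 * k * R : ℕ) := Nat.cast_le.2 (Nat.mul_le_mul_right _ hi)
    push_cast at this ⊢
    linarith
  generalize i * R = y at y1
  have y0 : (0 : ℝ) ≤ y := Nat.cast_nonneg _
  have R0 : (0 : ℝ) ≤ R := Nat.cast_nonneg _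
  have y2 : γ * (y + R) ≤ γ * (2 * (k * x)) := mul_le_mul_of_nonneg_left y1 (by linarith)
  have y3 : (y : ℝ) ≤ γ * y := by nlinarith
  have t0 := abs_le.1 (dif j₁ (j₁ + y) le_rfl (Nat.le_add_right _ _) (by push_cast; linarith))
  have t1 := tau_le (zero_le_one.trans hγ) R
  push_cast at t0
  have fl : (τ (j₁ + y) : ℝ) + (tau γ R + R + 1) ≤ b + (γ + 1) * ((2 * k + 2) * x) := by
    linarith [t0.2]
  have fl' : τ (j₁ + y) + (tau γ R + R + 1) ≤ p := by exact_mod_cast fl.trans m2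
  refine ⟨⟨R / k, Nat.mul_div_le _ _, ?_⟩, fun β lam c d => ⟨?_, by omega, ?_⟩, fl',
    fun j hj => ⟨j₁ + y + j + ⌈ε * M⌉₊, ?_⟩⟩
  · have s1 : (R : ℝ) + 1 ≤ k * ((R / k : ℕ) + 1) := by
      exact_mod_cast Nat.lt_mul_div_succ R hk
    have s2 : 20 * u < (R / k : ℕ) + 1 := lt_of_mul_lt_mul_left (by linarith) k0.le
    refine ⟨fun j hj => ?_, ?_, by omega, ?_⟩ <;> rw [← Nat.cast_le (α := ℝ)] <;> push_cast
    · have c : (j : ℝ) ≤ R := by exact_mod_cast hj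
      have := abs_le.1 (dif (j₁ + y) (j₁ + y + j) (Nat.le_add_right _ _) (Nat.le_add_right _ _)
        (by push_cast; linarith))
      push_cast at this
      linarith [this.1, tau_le (zero_le_one.trans hγ) j]
    · linarith [t0.1]
    · linarith
  · rw [← Nat.cast_le (α := ℝ)]
    push_cast
    linarith [t0.1, Nat.cast_nonneg (α := ℝ) β]
  · have d' : (lam : ℝ) ≤ tau γ R := by exact_mod_cast d
    have := difU (τ (j₁ + y) + β) (τ (j₁ + y) + lam)
      (by push_cast; linarith [t0.1, Nat.cast_nonneg (α := ℝ) β]) (by omega)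
      (by push_cast; linarith)
    have c : u ≤ R / (2 * k) := by
      rw [le_div_iff₀ (by positivity)]
      linarith
    push_cast at this
    rw [add_sub_add_left_eq_sub] at this
    linarith
  · have c : (j : ℝ) ≤ R := by exact_mod_cast hj
    have c1 := Nat.le_ceil (ε * M)
    have c2 := (Nat.ceil_lt_add_one (zero_le_one.trans hv)).le
    generalize ⌈ε * M⌉₊ = w at c1 c2
    have c3 : γ * w ≤ γ * (ε * M + 1) := mul_le_mul_of_nonneg_left c2 (by linarith)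
    have := abs_le.1 (dif (j₁ + y) (j₁ + y + j + w) (Nat.le_add_right _ _) (by omega)
      (by push_cast; linarith))
    have c4 : 3 * u ≤ R / k := by
      rw [le_div_iff₀ k0]
      linarith
    rw [← Nat.cast_le (α := ℝ)]
    push_cast at this ⊢
    exact ⟨by linarith, by linarith, by linarith [this.2]⟩

end UTanNA

open UTanNA in
theorem rowTanN : TanN := by
  intro M p lo hi τ φ c γ s e δ k hM hp _ ⟨⟨c0, c1, cs, hγ, hδ⟩, dif, difU, val, mid⟩ hk
  have k0 : (0 : ℝ) < k := by exact_mod_cast hk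
  have g0 : 0 < γ + 1 := by linarith
  obtain ⟨r₁, p1, d1⟩ := dif (1 / (20 * k * (2 * k + 2))) (by positivity)
  obtain ⟨r₂, p2, d2⟩ := difU (1 / (20 * k * ((γ + 1) * (2 * k + 2)))) (by positivity)
  obtain ⟨t, t0, t1, t2, t3, t4⟩ : ∃ t, 0 < t ∧ t ≤ r₁ ∧ t ≤ r₂ ∧ t ≤ δ ∧ t ≤ 1 - c :=
    ⟨min (min r₁ r₂) (min δ (1 - c)), lt_min (lt_min p1 p2) (lt_min hδ (by linarith)),
      (min_le_left _ _).trans (min_le_left _ _), (min_le_left _ _).trans (min_le_right _ _),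
      (min_le_right _ _).trans (min_le_left _ _), (min_le_right _ _).trans (min_le_right _ _)⟩
  obtain ⟨ε, ε0, rfl⟩ : ∃ ε, 0 < ε ∧ t = (γ + 1) * ((2 * k + 2) * (20 * k * ((γ + 1) * ε))) :=
    ⟨t / ((γ + 1) * ((2 * k + 2) * (20 * k * (γ + 1)))), by positivity, by field_simp⟩
  have q : 0 < (2 * k + 2) * (20 * k * ((γ + 1) * ε)) := by positivity
  refine ⟨20 * k * ((γ + 1) * ε), ε, by positivity, ε0, ?_⟩
  filter_upwards [d1 _ q (by nlinarith), d2 _ t0 t2, val.1 ε ε0, val.2 ε ε0, mid, hM.ev (1 / ε)]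
    with n a1 a2 a3 a4 a5 a6
  have m0 : (0 : ℝ) ≤ M n := Nat.cast_nonneg _
  rw [div_le_iff₀' ε0] at a6
  refine num (a := c * M n) (b := s * M n) hk hγ a6 rfl rfl (lev_le' M c0 n)
    ((lev_le' M (by positivity) n).trans_eq (by ring)) ((lt_lev M _ n).trans_eq' (by ring))
    (mul_le_mul_of_nonneg_right cs m0)
    (fun j j' b1 b2 b3 => (a1 j j' b1 b2 (by linarith)).trans_eq (by field_simp))
    (fun j j' b1 b2 b3 => (a2 j j' (by linarith) b2 (by linarith)).trans_eq (by field_simp))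
    a3 a4 ?_ ?_ a5.2.2 (hp n) ?_
  · linarith [a5.1, mul_le_mul_of_nonneg_right t3 m0]
  · linarith [a5.2.1, mul_le_mul_of_nonneg_right t3 m0]
  · linarith [mul_le_mul_of_nonneg_right t4 m0]

end Pool.Agent.MP_5168f5_an.R4.U
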