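import Pool.Agent.MP_5168f5_an.R4.SpecTB
import Pool.Agent.MP_5168f5_an.R4.KitO
import Pool.Agent.MP_5168f5_an.R4.NAll

/-! Optimality for quadrics in projective form. -/

namespace Pool.Agent.MP_5168f5_an.R4.T8

open H19 H17S H17F Filter Matrix Tan

namespace CorQx

theorem ex_pow {M : ℕ → ℕ} {A : ℕ → ℝ} (hM : Big M) (hA : Sub M A) :
    ∃ s : ℕ → ℕ, Sm M (fun n => s n) ∧ ∀ n, A n ≤ 2 ^ s n := by
  refine ⟨fun n => ⌈2 * Real.log (A n)⌉₊, ((hA.log.smul zero_le_two).add (hM.sm 1)).mono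
    (Eventually.of_forall fun n => (Nat.ceil_lt_add_one ?_).le), fun n => ?_⟩
  · exact mul_nonneg zero_le_two (Real.log_nonneg (hA.1 n))
  · refine le_trans ?_ (exp_le_two_pow _)
    rw [← Real.log_le_iff_le_exp (hA.pos n)]
    linarith [Nat.le_ceil (2 * Real.log (A n))]

theorem sub_of {M m k : ℕ → ℕ} (hm : Big m) (h : Sm m fun n => Real.log (M n))
    (e : ∀ᶠ n in UF, k n ≤ M n) : Sub m fun n => k n + 1 :=
  ((Sub.exp h fun _ => Real.log_natCast_nonneg _).add (hm.sub le_rfl) hm).mono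
    (fun _ => le_add_of_nonneg_left (Nat.cast_nonneg _)) (e.mono fun _ a =>
      add_le_add ((Nat.cast_le.2 a).trans (Real.le_exp_log _)) le_rfl)

end CorQx

open CorQx in
theorem rowCorQ : OfCorQ := by
  intro hN Ω x j r a τ h X Λ lam A B tg ha lab hB hh hev
  have o := oA1 x.g x.F x.M x.m x.p j r X tg
  obtain ⟨bm, br, -, lg⟩ := o.big
  by_contra c
  obtain ⟨ε, e0, c⟩ := not_Le c
  obtain ⟨k, hk, hB2⟩ := ex_pow br ((hB.pow 2).const_mul br (C := 128) (by norm_num))
  have e4 : 0 < ε / 4 := by positivity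
  have num : ∀ᶠ n in UF, h n + k n + 2 * k n ≤ τ n ∧ j n + a n + k n ≤ τ n ∧
      (x.F n).τ iQ (j n) + x.dq * a n + ε / 4 * r n ≤ (τ n - k n : ℕ) := by
    filter_upwards [c, hk _ e4, hh _ e4, o.low iQ _ e4] with n c1 c2 c3 c4
    have r0 : 0 ≤ ε / 4 * r n := by positivity
    have a0 : (a n : ℝ) ≤ x.dq * a n := le_mul_of_one_le_left (Nat.cast_nonneg _) (tg.1.one iQ)
    have h1 : j n + a n + k n ≤ τ n := by
      rw [← Nat.cast_le (α := ℝ)]
      push_cast
      linarith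
    refine ⟨?_, h1, ?_⟩
    · rw [← Nat.cast_le (α := ℝ)]
      push_cast
      linarith
    · rw [Nat.cast_sub (by omega)]
      linarith
  obtain ⟨E, hE, th⟩ := normQB X.P (X.G x.gf) x.m (fun n => j n + a n) τ x.M k
    (fun n => h n + k n) lam A B (hN x j r a X Λ lam tg ha lab)
    (sub_of bm lg ((num.and hev).mono fun n c => by omega)) o.fat
    ((num.and hev).mono fun n c => ⟨hB2 n, c.1.1, c.1.2.1, by omega, c.2.2.1⟩)
    (Whp.of_ev (hev.mono fun n c v hv => by
      obtain ⟨c1, c2, c3, c4⟩ := c.2.2 v hv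
      refine ⟨c1, c2, c3, fun i l => (c4 i l).trans ?_⟩
      rw [pow_add, mul_comm]
      exact mul_le_mul_of_nonneg_left (le_trans (by nlinarith [hB.1 n]) (hB2 n))
        (by positivity))).pos
  have tg' := ((oCl x.g x.F x.M x.m x.p).cl j r).cond X E tg hE
  exact ((oA2 x.g x.F x.M x.m x.p j r _ tg').opt iQ a (fun n => τ n - k n) ha
    (hev.mono fun n c => by omega) th).false br e4 (num.mono fun n c => c.2.2)

end Pool.Agent.MP_5168f5_an.R4.T8
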