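import Pool.Agent.MP_5168f5_an.R4.SpecTB

/-! The final data form a tangent class. -/

namespace Pool.Agent.MP_5168f5_an.R4.T8

open H19 H17S H17F Filter Matrix Tan

namespace Fin1x

theorem fn_h {Ω Λ : Type} {P : FP Ω} {D : Td Ω} {S : Ω → Λ} {a : ℕ} (pr : Bool)
    (hU : Fn P (D.U a) S) (hH' : Fn P (D.H a) S) : Fn P (hH pr D a) S := fun u hu v hv e => by
  simp only [hH, hU u hu v hv e, hH' u hu v hv e]

theorem fn_cen {Ω Λ : Type} {P : FP Ω} {g : Geo 3 Ω} {U H : ℕ → Ω → Pl} {S : Ω → Λ} {a J : ℕ}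
    (hU : Fn P (U a) S) (hH' : Fn P (H a) S) (hz : Fn P (fun ω => fl1 a (g.z ω)) S)
    (hx : a ≤ J → Fn P (fun ω => fl1 a (g.pt ω 0)) S) : Fn P (cen g J U H a) S :=
  fun u hu v hv e => by
  unfold cen
  split_ifs with k
  · have e1 : fl1 a (g.z u) = fl1 a (g.z v) := hz u hu v hv e
    have e2 : fl1 a (g.pt u 0) = fl1 a (g.pt v 0) := hx k u hu v hv e
    simp only [rd, Geo.z0, hU u hu v hv e, hH' u hu v hv e, e1, e2]
  · rfl

theorem cell_up {Ω : ℕ → Type} {P : ∀ n, FP (Ω n)} {g : Gs 3 Ω} {M : ℕ → ℕ}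
    {S S' : Finset (Fin 3)} {k : Fin 3} {d : ∀ n, ℕ → Ω n → Pl} {w : ℝ} (e : S ⊆ S')
    (h : Cell P g M S k d w) : Cell P g M S' k d w := fun a τ ha hτ =>
  (h a τ ha hτ).imp fun _ c => ⟨c.1, c.2.mono (Eventually.of_forall fun _ _ _ u =>
    ⟨u.1, fun i => ⟨(u.2.1 i).1, fun x => (u.2.1 i).2 fun y => x (e y)⟩, u.2.2⟩)⟩

theorem prd1 (H U : Pl) : (prd 1 0 H U).2.2 1 = 0 := by simp [prd]

theorem hH1 {Ω : Type} (D : Td Ω) (a : ℕ) (ω : Ω) : (hH true D a ω).2.2 1 = 0 := prd1 _ _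

theorem nest {Ω : Type} {P : FP Ω} {g : Geo 3 Ω} {D : Td Ω} {J j : ℕ} (pr : Bool)
    (h : Fn P (fun ω => (g.θ ω, fl1 j (g.z ω), D.U j ω, D.H j ω)) (D.S j))
    (hx : j ≤ J → Fn P (fun ω => fl1 j (g.pt ω 0)) (D.S j)) :
    Fn P (fun ω => (g.θ ω, fl1 j (g.z ω), cen g J D.U (hH pr D) j ω, D.U j ω, hH pr D j ω))
      (D.S j) := by
  have z : Fn P (fun ω => fl1 j (g.z ω)) (D.S j) := fun u hu v hv e =>
    congrArg (·.2.1) (h u hu v hv e)
  have t : Fn P g.θ (D.S j) := fun u hu v hv e => congrArg (·.1) (h u hu v hv e)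
  have a : Fn P (D.U j) (D.S j) := fun u hu v hv e => congrArg (·.2.2.1) (h u hu v hv e)
  have b : Fn P (D.H j) (D.S j) := fun u hu v hv e => congrArg (·.2.2.2) (h u hu v hv e)
  have h' := fn_h pr a b
  exact t.pair (z.pair ((fn_cen a h' z hx).pair (a.pair h')))

variable {Ω : ℕ → Type} {K : Mb Ω → Prop} {g : Gs 3 Ω} {M mm : ℕ → ℕ} {D : ∀ n, Td (Ω n)}
  {J : ℕ → ℕ} {η γ w : ℝ} {X : Mb Ω}

theorem fnU (tw : TW K g M mm D J η γ) (hX : K X) : FnS X.P (mD X D) fun n => (mD X D n).U :=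
  (tw.com X hX).nest.mono fun _ c a u hu v hv e => congrArg (·.2.2.1) ((c.2.1 a).2 u hu v hv e)

theorem fnH (tw : TW K g M mm D J η γ) (hX : K X) : FnS X.P (mD X D) fun n => (mD X D n).H :=
  (tw.com X hX).nest.mono fun _ c a u hu v hv e => congrArg (·.2.2.2) ((c.2.1 a).2 u hu v hv e)

theorem cU (hRev : Rev) (tw : TW K g M mm D J η γ) (hX : K X) :
    Cell X.P (X.G g) M {0} 1 (fun n => (mD X D n).U) γ := by
  refine hRev K g M mm D J η γ X tw hX {0} 1 _ γ tw.one (by decide) (fnU tw hX) (tw.com X hX).wU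
    fun a ha => ?_
  obtain ⟨L, s, c⟩ := (tw.com X hX).wU a (fun _ => 0) ha (Eventually.of_forall fun n => by
    have := tw.one
    rw [Nat.cast_zero]; positivity)
  exact ⟨L, s, c.mono (Eventually.of_forall fun n v _ u =>
    (congrArg abs (u.1 1 (by decide))).trans_le (abs_zero.trans_le (s.pos n).le))⟩

theorem cF (hRev : Rev) (tw : TW K g M mm D J η γ) (hX : K X) (hw : 1 ≤ w) (h : γ ≤ w)
    (c : WCell X.P (X.G g) M {0, 1} 2 (fun n => (mD X D n).H) w)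
    (gb : GBd X.P M (fun n b v => ((mD X D n).H b v).2.2 1) γ w) :
    Cell X.P (X.G g) M {0, 1} 2 (fun n => (mD X D n).H) w := by
  refine hRev K g M mm D J η γ X tw hX {0, 1} 2 _ w hw (by decide) (fnH tw hX) c fun a ha => ?_
  obtain ⟨L, s, c⟩ := gb a (fun _ => 0) ha ⟨0, Eventually.of_forall fun _ => Nat.zero_le _⟩
    (Eventually.of_forall fun n => by
      rw [Nat.cast_zero]
      exact mul_nonpos_of_nonpos_of_nonneg (sub_nonpos.2 h) (Nat.cast_nonneg _))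
  exact ⟨L, s, c.mono (Eventually.of_forall fun n v _ u => u.trans_eq (by simp))⟩

theorem cP (hRev : Rev) (tw : TW K g M mm D J η γ) (hX : K X) (hM : Big M) (hw : 1 ≤ w)
    (c : WCell X.P (X.G g) M {0} 2 (fun n => hH true (mD X D n)) w) :
    Cell X.P (X.G g) M {0} 2 (fun n => hH true (mD X D n)) w :=
  hRev K g M mm D J η γ X tw hX {0} 2 _ w hw (by decide)
    (((fnU tw hX).and (fnH tw hX)).mono fun _ c a => fn_h true (c.1 a) (c.2 a)) c
    fun _ _ => ⟨_, hM.sub le_rfl, Whp.of_ev (Eventually.of_forall fun _ _ _ =>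
      (congrArg abs (hH1 _ _ _)).trans_le (abs_zero.trans_le zero_le_one))⟩

end Fin1x

open Fin1x in
theorem rowFin1 : OfFin1 := by
  intro hRev hSt hCh hPr hBa Ω K g M mm D J η γ w pr tw hw h1 h2 hK
  have main : ∀ X, K X → GBd X.P M (fun n b v => ((mD X D n).H b v).2.2 1) γ w ∧
      Cell X.P (X.G g) M {0, 1} 2 (fun n => hH pr (mD X D n)) w ∧
      (pr = true → Cell X.P (X.G g) M {0} 2 (fun n => hH pr (mD X D n)) w) ∧
      Cnv X.P M (mD X fun n => finF (g n) (J n) (D n) pr) γ w := fun X hX => by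
    have hM : Big M := by simpa using ((tw.cls 1 one_pos).bs X hX).big
    obtain ⟨gb, cv⟩ := hCh X.P M (fun n a v => ((mD X D n).H a v).2.2 1) γ w hM tw.one hw
      (hSt K g M mm D J η γ X tw hX w hw (hK X hX).1) (hK X hX).2
    cases pr
    · exact ⟨gb, cF hRev tw hX hw (h2 rfl) (hK X hX).1 gb, nofun, cv (h2 rfl)⟩
    · have c0 := cP hRev tw hX hM hw
        (hPr X.P (X.G g) M _ _ γ w hM hw (h1 rfl) (tw.com X hX).wU (hK X hX).1 gb)
      refine ⟨gb, cell_up (by decide) c0, fun _ => c0, fun a a' τ _ _ =>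
        ⟨_, hM.sub le_rfl, Whp.of_ev (Eventually.of_forall fun n v _ => ?_)⟩⟩
      change |(hH true (mD X D n) (a n) v).2.2 1 - (hH true (mD X D n) (a' n) v).2.2 1| ≤ _
      rw [hH1, hH1, sub_zero, abs_zero]; positivity
  refine ⟨⟨tw.cl, tw.ne, tw.sm, tw.low, tw.cls, tw.one, fun X hX => ?_⟩, main⟩
  have c := tw.com X hX
  have u := cU hRev tw hX
  refine ⟨c.brw, c.fat, ?_, c.lab, ?_, fun r _ => ?_, u, c.optU, c.fbU⟩
  · exact c.nest.mono fun n k => ⟨k.1, fun j => ⟨(k.2.1 j).1,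
      nest (g := X.G g n) (D := mD X D n) pr (k.2.1 j).2 (k.2.2 j)⟩⟩
  · exact hBa K g M mm D J η γ X tw hX (fun n => hH pr (mD X D n)) w hw u (main X hX).2.1
  · refine Le.of_le fun n => (mi_le _ _ _).trans (ch_zero fun u _ v _ _ => ?_).le
    funext i
    simp [ty]

end Pool.Agent.MP_5168f5_an.R4.T8
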