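import Pool.Agent.MP_5168f5_an.R4.SpecTB
import Pool.Agent.MP_5168f5_an.R4.KitO
import Pool.Agent.MP_5168f5_an.R4.NCp3T

/-! The rate of the last coordinate in a frame, given the deep digits. -/

namespace Pool.Agent.MP_5168f5_an.R4.T8

open H19 H17S H17F Filter Matrix Tan

namespace NGDx

theorem fl_ext (k : Bool) {j : ℕ} {a b : V 3} (h0 : fl1 j (a 0) = fl1 j (b 0))
    (h1 : fl1 j (a (co k)) = fl1 j (b (co k))) (h2 : fl1 j (a (co (!k))) = fl1 j (b (co (!k)))) :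
    fl j a = fl j b := by
  funext i
  cases k <;> fin_cases i <;> assumption

/-- The chain rule for the three coordinates. -/
theorem core {W T Λ K : Type} (P : FP W) (p : W → V 3) (z : W → ℝ) (θ : W → T) (S S' : W → Λ)
    (s : W → ℝ) (x' u' : W → ℤ) (y : W → K) (k : Bool) {lo hi M : ℕ} (q q' : ℕ) (h1 : lo ≤ hi)
    (h2 : hi ≤ M) (f2 : Fn P S S') (f3 : Fn P (fun v => ((z v, θ v), S v)) y)
    (f4 : Fn P y fun v => (z v, S v)) :
    ch P (fun v => fl1 q' (s v))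
        (fun v => (fl1 q (s v), (fl1 M (p v 0), fl1 M (p v (co k))), y v)) +
      ch P (fun v => fl1 hi (p v 0)) (fun v => (fl1 lo (p v 0), fl lo (p v), z v, θ v)) +
      ch P (fun v => fl1 hi (p v (co k)))
        (fun v => (fl1 lo (p v (co k)), fl1 M (p v 0), S' v, z v, θ v)) ≤
    ch P (fun v => fl hi (p v)) (fun v => (fl lo (p v), z v, θ v)) +
      (2 * ch P (fun v => fl1 lo (p v (co (!k))))
        (fun v => (fl1 q (s v), fl1 lo (p v 0), fl1 lo (p v (co k)), S v, z v)) +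
      ch P (fun v => fl1 q' (s v))
        (fun v => (fl1 hi (p v (co (!k))), (fl1 M (p v 0), fl1 M (p v (co k))), S v, z v)) +
      ch P (fun v => fl1 q (s v)) (fun v => (S' v, x' v, u' v, y v)) +
      ch P x' (fun v => (fl1 lo (p v (co k)), fl1 M (p v 0), S' v, z v, θ v)) +
      ch P u' fun v => (fl1 lo (p v (co k)), fl1 M (p v 0), S' v, z v, θ v)) := by
  have h3 := h1.trans h2
  obtain ⟨G, hG⟩ : ∃ G, G = fun v => (fl lo (p v), z v, θ v) := ⟨_, rfl⟩
  obtain ⟨U, hU⟩ : ∃ U, U = fun v => (fl1 lo (p v (co k)), fl1 M (p v 0), S' v, z v, θ v) :=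
    ⟨_, rfl⟩
  obtain ⟨Y, hY⟩ : ∃ Y, Y = fun v => (fl1 q (s v), (fl1 M (p v 0), fl1 M (p v (co k))), y v) :=
    ⟨_, rfl⟩
  have c1 := ch_chain (P := P) (fun v => fl1 hi (p v 0))
    (fun v => (fl1 hi (p v (co k)), fl1 hi (p v (co (!k))))) G
  have c2 := ch_chain (P := P) (fun v => fl1 hi (p v (co k))) (fun v => fl1 hi (p v (co (!k))))
    fun v => (fl1 hi (p v 0), G v)
  have c3 : ch P (fun v => (fl1 hi (p v 0), fl1 hi (p v (co k)), fl1 hi (p v (co (!k))))) G ≤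
      ch P (fun v => fl hi (p v)) G := ch_mono fun a _ b _ e => by
    have := congrFun (congrArg Prod.fst e)
    exact Prod.ext (this 0) (Prod.ext (this _) (this _))
  have t1 : ch P (fun v => fl1 hi (p v 0)) (fun v => (fl1 lo (p v 0), fl lo (p v), z v, θ v)) ≤
      ch P (fun v => fl1 hi (p v 0)) G := ch_anti (hG ▸ Fn.snd _ _)
  have t2 := ch_tri (P := P) (fun v => fl1 hi (p v (co k))) (fun v => fl1 lo (p v (co (!k)))) U
  have t3 : ch P (fun v => fl1 hi (p v (co k))) (fun v => (fl1 lo (p v (co (!k))), U v)) ≤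
      ch P (fun v => fl1 hi (p v (co k))) fun v => (fl1 hi (p v 0), G v) :=
    ch_anti fun a _ b _ e => by
      simp only [hU, hG, Prod.mk.injEq] at e ⊢
      obtain ⟨e1, e2, e3, -, e4⟩ := e
      exact ⟨fl1_eq_of_le h2 e3, fl_ext k (fl1_eq_of_le h3 e3) e2 e1, e4⟩
  have t4 := ch_tri (P := P) (fun v => fl1 lo (p v (co (!k)))) (fun v => fl1 q (s v)) U
  have t5 : ch P (fun v => fl1 lo (p v (co (!k)))) (fun v => (fl1 q (s v), U v)) ≤
      ch P (fun v => fl1 lo (p v (co (!k))))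
        fun v => (fl1 q (s v), fl1 lo (p v 0), fl1 lo (p v (co k)), S v, z v) :=
    ch_anti fun a ha b hb e => by
      simp only [hU, Prod.mk.injEq] at e ⊢
      obtain ⟨e1, e2, e3, e4, e5, -⟩ := e
      exact ⟨e1, fl1_eq_of_le h3 e3, e2, f2 a ha b hb e4, e5⟩
  have t6 := ch_tri (P := P) (fun v => fl1 q (s v)) (fun v => (x' v, u' v)) U
  have t7 := ch_subadd (P := P) x' u' U
  have t8 : ch P (fun v => fl1 q (s v)) (fun v => ((x' v, u' v), U v)) ≤
      ch P (fun v => fl1 q (s v)) fun v => (S' v, x' v, u' v, y v) :=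
    ch_anti fun a ha b hb e => by
      simp only [hU, Prod.mk.injEq] at e ⊢
      obtain ⟨⟨e1, e2⟩, -, -, e4, e5, -⟩ := e
      exact ⟨e4, e1, e2, f4 a ha b hb (Prod.ext e5 (f2 a ha b hb e4))⟩
  have u1 := ch_tri (P := P) (fun v => fl1 q' (s v)) (fun v => fl1 lo (p v (co (!k)))) Y
  have u2 := ch_tri (P := P) (fun v => fl1 q' (s v)) (fun v => fl1 hi (p v (co (!k))))
    fun v => (fl1 lo (p v (co (!k))), Y v)
  have u3 : ch P (fun v => fl1 lo (p v (co (!k)))) Y ≤ ch P (fun v => fl1 lo (p v (co (!k))))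
      fun v => (fl1 q (s v), fl1 lo (p v 0), fl1 lo (p v (co k)), S v, z v) :=
    ch_anti fun a ha b hb e => by
      simp only [hY, Prod.mk.injEq] at e ⊢
      obtain ⟨e1, ⟨e2, e3⟩, e4⟩ := e
      have e5 := f3 a ha b hb e4
      simp only [Prod.mk.injEq] at e5
      exact ⟨e1, fl1_eq_of_le h3 e2, fl1_eq_of_le h3 e3, e5.2, e5.1.1⟩
  have u4 : ch P (fun v => fl1 hi (p v (co (!k)))) (fun v => (fl1 lo (p v (co (!k))), Y v)) ≤
      ch P (fun v => fl1 hi (p v (co (!k))))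
        fun v => (fl1 hi (p v (co k)), fl1 hi (p v 0), G v) :=
    ch_anti fun a ha b hb e => by
      simp only [hY, hG, Prod.mk.injEq] at e ⊢
      obtain ⟨e0, -, ⟨e2, e3⟩, e4⟩ := e
      have e5 := f3 a ha b hb e4
      simp only [Prod.mk.injEq] at e5
      exact ⟨fl1_eq_of_le h2 e3, fl1_eq_of_le h2 e2,
        fl_ext k (fl1_eq_of_le h3 e2) (fl1_eq_of_le h3 e3) e0, e5.1⟩
  have u5 : ch P (fun v => fl1 q' (s v))
      (fun v => (fl1 hi (p v (co (!k))), fl1 lo (p v (co (!k))), Y v)) ≤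
      ch P (fun v => fl1 q' (s v))
        fun v => (fl1 hi (p v (co (!k))), (fl1 M (p v 0), fl1 M (p v (co k))), S v, z v) :=
    ch_anti fun a ha b hb e => by
      simp only [hY, Prod.mk.injEq] at e ⊢
      obtain ⟨e0, -, -, e2, e4⟩ := e
      have e5 := f3 a ha b hb e4
      simp only [Prod.mk.injEq] at e5
      exact ⟨e0, e2, e5.2, e5.1.1⟩
  rw [← hG, ← hU, ← hY]
  linarith

theorem near_u {p : Pl} {L t : ℝ} {a b : V 3} {N R : ℕ} (i : Fin 3)
    (h0 : ∀ i, |p.2.2 i| ≤ L ∧ (i ∉ ({0} : Finset (Fin 3)) → p.2.2 i = 0))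
    (e1 : fl1 (N + R) (a i) = fl1 (N + R) (b i)) (e2 : fl1 (N + R) (a 0) = fl1 (N + R) (b 0)) :
    |2 ^ N * (a i - pv p t a) - 2 ^ N * (b i - pv p t b)| ≤ (1 + L) / 2 ^ R := by
  have h1 := (abs_sub_lt_of_fl1_eq e1).le
  have h2 := mul_le_mul (h0 0).1 (abs_sub_lt_of_fl1_eq e2).le (abs_nonneg _)
    ((abs_nonneg _).trans (h0 0).1)
  have e : 2 ^ N * (a i - pv p t a) - 2 ^ N * (b i - pv p t b) =
      2 ^ N * ((a i - b i) - p.2.2 0 * (a 0 - b 0)) := by
    simp only [pv, Fin.sum_univ_three, (h0 1).2 (by decide), (h0 2).2 (by decide)]; ring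
  rw [← abs_mul] at h2
  rw [e, abs_mul, abs_of_pos (by positivity)]
  refine (mul_le_mul_of_nonneg_left ((abs_sub _ _).trans (add_le_add h1 h2))
    (by positivity)).trans_eq ?_
  rw [pow_add]; field_simp

theorem near_x {a b : ℝ} {N R : ℕ} (e : fl1 (N + R) a = fl1 (N + R) b) :
    |2 ^ N * (a - rd N a) - 2 ^ N * (b - rd N b)| ≤ 1 / 2 ^ R := by
  have h1 := (abs_sub_lt_of_fl1_eq e).le
  have e' : 2 ^ N * (a - rd N a) - 2 ^ N * (b - rd N b) = 2 ^ N * (a - b) := by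
    simp only [rd, fl1_eq_of_le (Nat.le_add_right N R) e]; ring
  rw [e', abs_mul, abs_of_pos (by positivity)]
  refine (mul_le_mul_of_nonneg_left h1 (by positivity)).trans_eq ?_
  rw [pow_add]; field_simp

/-- The digits of the point are a label. -/
theorem lab_fl {Ω : ℕ → Type} {g : Gs 3 Ω} {M m lo : ℕ → ℕ} {X : Mb Ω}
    (h : Bs2 X.P (X.G (g.fin M)) M m) (e : ∀ᶠ n in UF, lo n ≤ M n) :
    Lab X.P (X.G (g.fin M)) m lo fun n v => fl (lo n) ((X.G g n).pt v) := by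
  obtain ⟨L, s, b⟩ := h.bx
  refine ⟨(Sm.near (P := X.P) (x := fun n v => (X.G g n).pt v) (j := lo)
    (G := fun n => (X.G (g.fin M) n).win (lo n)) h.big s (b.mono fun n u a ha c _ w => ?_)).mono
      (Eventually.of_forall fun n => mi_le _ _ _), Le.of_ev (e.mono fun n u => ?_)⟩
  · simp only [Geo.win, Geo.ln, Prod.mk.injEq] at w
    obtain ⟨⟨w1, w2, -⟩, w3⟩ := w
    refine (pi_norm_le_iff_of_nonneg (div_nonneg (s.pos n).le (by positivity))).2 fun i => ?_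
    have h2 := mul_le_mul (abs_sub_lt_of_fl1_eq w3).le ((u.bd a ha).1 i).2 (abs_nonneg _)
      (by positivity)
    rw [← abs_mul] at h2
    refine le_trans (le_of_eq ?_) (h2.trans_eq (by rw [div_eq_inv_mul]))
    simp only [Geo.pt, Geo.lt, Pi.sub_apply, Pi.add_apply, Pi.smul_apply, smul_eq_mul, ← w1, ← w2,
      Real.norm_eq_abs]
    congr 1
    ring
  · refine (mi_le _ _ _).trans_eq (ch_zero fun a _ c _ w => ?_)
    exact fl_eq_of_le u (congrArg Prod.fst w)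

end NGDx

open NGDx in
theorem rowNGD : OfNGD := by
  intro hI Ω x j r d X h hv s N c hN hU hD q q' oq' hq
  have A := oA1 _ _ _ _ _ j r X h.tg
  have B := oA2 _ _ _ _ _ j r X h.tg
  have oq : OM r q := oq'.mono hq
  have oR : OM r fun n => ⌈c⌉₊ * q n := oq.mul _
  obtain ⟨L, sL, fit⟩ := h.fit
  obtain ⟨L', -, alg⟩ := A.fam.alg
  have num : ∀ᶠ n in UF, (q n ≤ q' n ∧ N n + q' n ≤ x.M n ∧ j n + ⌈c⌉₊ * q n ≤ x.M n ∧
      (d n).Nu + ⌈c⌉₊ * q n ≤ N n) ∧ ((x.F n).τ iQ (j n) ≤ N n + q n + (q' n + r n) ∧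
        N n + q n ≤ N n + q' n ∧ N n + q' n ≤ (x.F n).τ iQ (j n) + (q' n + r n)) ∧
      (x.F n).τ (iU x.k) (j n) + ⌈x.γ⌉₊ * q n ≤ N n + q n := by
    filter_upwards [hq, hN.1 1 one_pos, hN.2 1 one_pos, h.nu.1 1 one_pos,
      A.room _ ((oq'.add OM.rfl).add oR),
      A.far _ _ _ hv (((oq.mul ⌈x.γ⌉₊).add oR).add (OM.rfl.mul 2))] with n a1 a2 a3 a4 a5 a6
    rw [one_mul] at a2 a3 a4
    have b2 : N n ≤ (x.F n).τ iQ (j n) + r n := by exact_mod_cast a2
    have b3 : (x.F n).τ iQ (j n) ≤ N n + r n := by exact_mod_cast a3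
    have b4 : (d n).Nu ≤ (x.F n).τ (iU x.k) (j n) + r n := by exact_mod_cast a4
    have b5 := a5.2.2 iQ
    omega
  have ng := B.ng _ (fun n => N n + q n) (fun n => N n + q' n) (oq'.add OM.rfl)
    (num.mono fun n a => a.2.1)
  have xa := B.xa _ _ _ (fun n => N n + q n) (fun n => N n + q' n)
    (lab_fl A.bs (num.mono fun n a => a.2.1.2.1.trans a.1.2.1))
    (num.mono fun n a => ⟨le_rfl, a.2.1.2.1, a.1.2.1⟩)
  have fb := B.fb _ _ (fun _ _ => 0) L false x.k q (fun n => N n + q n) (fun n => N n + q' n) oq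
    (A.fam.lab fun n => j n + q n) sL (num.mono fun n a => ⟨fun _ _ _ _ _ => rfl,
      fun v _ => ⟨by simpa using (sL.pos n).le, fun _ => rfl⟩, a.2.1.2.1, a.1.2.1⟩)
    (Le.of_ev (num.mono fun n a => by
      have h1 : ((x.F n).τ (iU x.k) (j n) : ℝ) + ⌈x.γ⌉₊ * q n ≤ (N n + q n : ℕ) := by
        exact_mod_cast a.2.2
      have h2 := mul_le_mul_of_nonneg_right (Nat.le_ceil x.γ) (Nat.cast_nonneg (α := ℝ) (q n))
      linarith))
  simp only [Geo.sv, zero_mul, sub_zero] at fb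
  have eD := hD q _ oR (Eventually.of_forall fun n => by
    push_cast; exact mul_le_mul_of_nonneg_right (Nat.le_ceil c) (Nat.cast_nonneg _))
  have hp : ∀ n v, (X.G (x.fg j d) n).pt v = fk (x.g n) (j n) x.k (d n) ((X n).ρ v)
      ((X.G x.g n).z v) ((X.G x.g n).pt v) := fun n v =>
    fr_pt (x.g n) (x.M n) (j n) x.k (d n) ((x.F n).S (j n)) _
  have eX := Sm.near1 (P := X.P) (x := fun n v => (X.G (x.fg j d) n).pt v 0)
    (G := fun n v => (fl1 (N n + q n) ((X.G x.g n).pt v (co x.k)), fl1 (x.M n) ((X.G x.g n).pt v 0),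
      (x.F n).S (j n + q n) ((X n).ρ v), (X.G x.g n).zt v)) (j := fun n => ⌈c⌉₊ * q n)
    A.big.2.1 (A.big.2.1.sub le_rfl) (num.mono fun n a u _ v _ e => by
      simp only [Prod.mk.injEq] at e
      rw [hp, hp]
      exact near_x (fl1_eq_of_le a.1.2.2.1 e.2.1))
  have nest : ∀ᶠ n in UF, Fn (X n).Q (fun v => (x.F n).S (j n) ((X n).ρ v))
      fun v => (x.F n).S (j n + q n) ((X n).ρ v) := alg.mono fun n a => by
    induction q n with
    | zero => exact Fn.rfl _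
    | succ i ih => exact ih.trans (a.nest _)
  have eU := Sm.near1 (P := X.P) (x := fun n v => (X.G (x.fg j d) n).pt v 1)
    (G := fun n v => (fl1 (N n + q n) ((X.G x.g n).pt v (co x.k)), fl1 (x.M n) ((X.G x.g n).pt v 0),
      (x.F n).S (j n + q n) ((X n).ρ v), (X.G x.g n).zt v)) (j := fun n => ⌈c⌉₊ * q n)
    A.big.2.1 ((A.big.2.1.sub le_rfl).add (sub_up A.big.2.2.1 sL) A.big.2.1) (by
      filter_upwards [num, nest, h.fn, fit] with n a a1 a2 a3 u hu v hv e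
      simp only [Prod.mk.injEq, Geo.zt] at e
      have e1 : (d n).pu ((X n).ρ u) = (d n).pu ((X n).ρ v) :=
        congrArg Prod.fst (a2 u hu v hv (a1 u hu v hv e.2.2.1))
      have := near_u (t := (X.G x.g n).z v) (co x.k) (a3 v hv).1.2.1
        (fl1_eq_of_le (a.1.2.2.2.trans (Nat.le_add_right _ _)) e.1)
        (fl1_eq_of_le (a.1.2.2.2.trans ((Nat.le_add_right _ _).trans a.1.2.1)) e.2.1)
      rw [hp, hp, show (X.G x.g n).z u = (X.G x.g n).z v from e.2.2.2.1]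
      simpa only [fk, Matrix.cons_val_one, Matrix.cons_val_zero, e1] using this)
  refine Le.of4 ng xa fb ((((((hU q oq).2.smul zero_le_two).add (hU q' oq').1).add eD).add
    eX).add eU) ?_
  filter_upwards [num, nest, hI x j r d X h] with n a a1 a2
  have k := core (X n).Q (X.G x.g n).pt (X.G x.g n).z (X.G x.g n).θ _ _ (s n)
    (fun v => fl1 (⌈c⌉₊ * q n) ((X.G (x.fg j d) n).pt v 0))
    (fun v => fl1 (⌈c⌉₊ * q n) ((X.G (x.fg j d) n).pt v 1)) (X.G (x.fg j d) n).zt x.k (q n) (q' n)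
    a.2.1.2.1 a.1.2.1 a1 a2.2.2.1 a2.2.2.2.1
  have h1 : (0 : ℝ) ≤ x.p.ε₀ * ((q' n - q n) * lg) := mul_nonneg h.tg.1.e0.1.le
    (mul_nonneg (sub_nonneg.2 (by exact_mod_cast a.1.1)) lg_pos.le)
  have e : ∀ {A B C D E : ℝ}, A + B + C ≤ D + E → A - (1 - x.p.ε₀) * (q' n - q n) * lg ≤
      D - 3 * (1 - x.p.ε₀) * ((N n + q' n : ℕ) - (N n + q n : ℕ)) * lg +
        (((N n + q' n : ℕ) - (N n + q n : ℕ)) * lg - B) +
        (((N n + q' n : ℕ) - (N n + q n : ℕ)) * lg - C) + (E - 0) := fun k => by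
    push_cast
    linarith
  exact e k

end Pool.Agent.MP_5168f5_an.R4.T8
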