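import Pool.Agent.MP_5168f5_an.R4.SpecAlg

/-! Functions of polynomial size and the ideal of small functions. -/

namespace Pool.Agent.MP_5168f5_an.R4.Web

/-- A family of instances with a large and a small parameter. -/
structure Ins (X : Type) where
  L : X → ℝ
  ε : X → ℝ
  hL : ∀ x, 1 ≤ L x
  hε : ∀ x, 0 ≤ ε x

namespace Ins

variable {X Y : Type} (s : Ins X)

/-- `|f| ≤ K L ^ m w`. -/
def Bw (w f : X → ℝ) : Prop := ∃ (K : ℝ) (m : ℕ), 1 ≤ K ∧ ∀ x, |f x| ≤ K * s.L x ^ m * w x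

variable {s} {w w' f g : X → ℝ}

theorem le_up {K K' : ℝ} {m m' : ℕ} (x : X) (h0 : 1 ≤ K) (hK : K ≤ K') (hm : m ≤ m') :
    K * s.L x ^ m ≤ K' * s.L x ^ m' :=
  mul_le_mul hK (pow_le_pow_right₀ (s.hL x) hm) (by have := s.hL x; positivity) (by linarith)

theorem Bw.add (hw : ∀ x, 0 ≤ w x) (h : s.Bw w f) (h' : s.Bw w g) : s.Bw w (f + g) := by
  obtain ⟨K, m, a, b⟩ := h
  obtain ⟨K', m', a', b'⟩ := h'
  refine ⟨K + K', m + m', by linarith, fun x => (abs_add_le _ _).trans ?_⟩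
  have h1 := mul_le_mul_of_nonneg_right (le_up (s := s) x a le_rfl (Nat.le_add_right m m')) (hw x)
  have h2 := mul_le_mul_of_nonneg_right (le_up (s := s) x a' le_rfl (Nat.le_add_left m' m)) (hw x)
  linarith [b x, b' x]

theorem Bw.mul (h : s.Bw w f) (h' : s.Bw w' g) : s.Bw (w * w') (f * g) := by
  obtain ⟨K, m, a, b⟩ := h
  obtain ⟨K', m', a', b'⟩ := h'
  refine ⟨K * K', m + m', one_le_mul_of_one_le_of_one_le a a', fun x => ?_⟩
  rw [Pi.mul_apply, abs_mul]
  refine (mul_le_mul (b x) (b' x) (abs_nonneg _) ((abs_nonneg _).trans (b x))).trans_eq ?_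
  simp only [Pi.mul_apply]; ring

theorem Bw.neg (h : s.Bw w f) : s.Bw w (-f) := by
  obtain ⟨K, m, a, b⟩ := h
  exact ⟨K, m, a, fun x => by simpa using b x⟩

theorem Bw.of_le (h : s.Bw w g) (e : ∀ x, |f x| ≤ |g x|) : s.Bw w f := by
  obtain ⟨K, m, a, b⟩ := h
  exact ⟨K, m, a, fun x => (e x).trans (b x)⟩

theorem bw_const (c : ℝ) : s.Bw 1 fun _ => c := ⟨|c| + 1, 0, by linarith [abs_nonneg c], by simp⟩

theorem bw_L (h : ∀ x, |f x| ≤ s.L x) : s.Bw 1 f := ⟨1, 1, le_rfl, by simpa using h⟩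

theorem bw_w (h : ∀ x, |f x| ≤ w x) : s.Bw w f := ⟨1, 0, le_rfl, by simpa using h⟩

/-- One pair of constants for finitely many functions. -/
theorem Bw.all {J : Type} [Finite J] {F : J → X → ℝ} (hw : ∀ x, 0 ≤ w x) (h : ∀ j, s.Bw w (F j)) :
    ∃ (K : ℝ) (m : ℕ), 1 ≤ K ∧ ∀ j x, |F j x| ≤ K * s.L x ^ m * w x := by
  choose K m a b using h
  obtain ⟨K', hK⟩ := (Set.finite_range K).bddAbove
  obtain ⟨m', hm⟩ := (Set.finite_range m).bddAbove
  exact ⟨max K' 1, m', le_max_right _ _, fun j x => (b j x).trans (mul_le_mul_of_nonneg_right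
    (le_up x (a j) ((hK ⟨j, rfl⟩).trans (le_max_left _ _)) (hm ⟨j, rfl⟩)) (hw x))⟩

/-- Pull back along a map of instances. -/
theorem Bw.comp (h : s.Bw w f) {t : Ins Y} (π : Y → X) (e : ∀ y, s.L (π y) = t.L y) :
    t.Bw (fun y => w (π y)) fun y => f (π y) := by
  obtain ⟨K, m, a, b⟩ := h
  exact ⟨K, m, a, fun y => e y ▸ b (π y)⟩

variable (s)

/-- The functions of polynomial size. -/
def O : Subalgebra ℝ (X → ℝ) where
  carrier := {f | s.Bw 1 f}
  mul_mem' := fun a b => by simpa using Bw.mul a b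
  add_mem' := Bw.add fun _ => zero_le_one
  algebraMap_mem' := fun c => bw_const c

/-- The small functions. -/
def I : Ideal s.O where
  carrier := {f | s.Bw s.ε f.1}
  add_mem' := Bw.add s.hε
  zero_mem' := bw_w fun x => by simpa using s.hε x
  smul_mem' := fun c _ b => by simpa using Bw.mul c.2 b

/-- The quotient ring; it is an algebra over the reals. -/
abbrev Q : Type := s.O ⧸ s.I

/-- The class of a function of polynomial size. -/
abbrev cl : s.O →ₐ[ℝ] s.Q := Ideal.Quotient.mkₐ ℝ s.I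

/-- Evaluation. -/
def ev (x : X) : s.O →ₐ[ℝ] ℝ := (Pi.evalAlgHom ℝ (fun _ : X => ℝ) x).comp s.O.val

variable {s}

theorem ev_apply (x : X) (f : s.O) : s.ev x f = f.1 x := rfl

theorem cl_eq_zero {f : s.O} : s.cl f = 0 ↔ s.Bw s.ε f.1 := Ideal.Quotient.eq_zero_iff_mem

theorem cl_eq {f g : s.O} : s.cl f = s.cl g ↔ s.Bw s.ε (f.1 - g.1) := Ideal.Quotient.eq

theorem cl_surj (q : s.Q) : ∃ f, s.cl f = q := Ideal.Quotient.mk_surjective q

/-- The inverse of a function that is bounded below. -/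
theorem bw_inv {K : ℝ} {m : ℕ} (hK : 1 ≤ K) (h : ∀ x, 1 ≤ K * s.L x ^ m * |f x|) :
    s.Bw 1 fun x => (f x)⁻¹ := ⟨K, m, hK, fun x => by
  have h0 : 0 < |f x| := by
    by_contra k
    have := h x
    rw [le_antisymm (not_lt.1 k) (abs_nonneg _), mul_zero] at this
    linarith
  rw [abs_inv, Pi.one_apply, mul_one, inv_le_iff_one_le_mul₀ h0]; exact h x⟩

/-- A function that is bounded below is a unit. -/
theorem isUnit_of {K : ℝ} {m : ℕ} (hK : 1 ≤ K) (f : s.O)
    (h : ∀ x, 1 ≤ K * s.L x ^ m * |f.1 x|) : IsUnit f :=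
  IsUnit.of_mul_eq_one (⟨_, bw_inv hK h⟩ : s.O) (Subtype.ext (funext fun x =>
    mul_inv_cancel₀ fun k => by
      have := h x
      rw [k, abs_zero, mul_zero] at this
      linarith))

end Ins

end Pool.Agent.MP_5168f5_an.R4.Web
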