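import Pool.Agent.MP_5168f5_an.R4.WAlg0

/-! Third derivatives which vanish in the directions of a conic: the exact statement. -/

namespace Pool.Agent.MP_5168f5_an.R4.Web.WAlgCA

open Matrix

variable {R S : Type} [CommRing R] [CommRing S]

/-- A copy of `d1`. -/
def gd (c : Fin 3 → R) : Fin 3 → R := ![c 1, 2 * c 2, 0]

/-- A copy of `dV`. -/
def gV (v : Fin 3 → R) (C : Fin 3 → Fin 3 → Fin 3 → R) : Fin 3 → Fin 3 → Fin 3 → R := fun i j l =>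
  v 0 * gd (fun a => C a j l) i + v 1 * gd (fun a => C i a l) j + v 2 * gd (fun a => C i j a) l

/-- A copy of `det3`. -/
def gdet (a b c : Fin 3 → R) : R := (Matrix.of ![a, b, c]).det

/-- The terms of degree at least three, minus their expected value. -/
def hi (C : Fin 3 → Fin 3 → Fin 3 → R) (l : Fin 3 → R) (k : R) (s : Fin 3 → R) (h : R) : R :=
  C 2 1 0 * s 0 ^ 2 * s 1 + C 2 0 1 * s 0 ^ 2 * s 2 + C 1 2 0 * s 0 * s 1 ^ 2 +
    C 0 2 1 * s 1 ^ 2 * s 2 + C 1 0 2 * s 0 * s 2 ^ 2 + C 0 1 2 * s 1 * s 2 ^ 2 +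
    C 1 1 1 * s 0 * s 1 * s 2 + C 2 2 0 * s 0 ^ 2 * s 1 ^ 2 + C 2 0 2 * s 0 ^ 2 * s 2 ^ 2 +
    C 0 2 2 * s 1 ^ 2 * s 2 ^ 2 + C 2 1 1 * s 0 ^ 2 * s 1 * s 2 + C 1 2 1 * s 0 * s 1 ^ 2 * s 2 +
    C 1 1 2 * s 0 * s 1 * s 2 ^ 2 + C 2 2 1 * s 0 ^ 2 * s 1 ^ 2 * s 2 +
    C 2 1 2 * s 0 ^ 2 * s 1 * s 2 ^ 2 + C 1 2 2 * s 0 * s 1 ^ 2 * s 2 ^ 2 +
    C 2 2 2 * s 0 ^ 2 * s 1 ^ 2 * s 2 ^ 2 - h * (l 0 * s 0 + l 1 * s 1 + l 2 * s 2) - k * h ^ 2

section Map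

variable {F : Type} [FunLike F R S] [RingHomClass F R S] (φ : F)

theorem map_gV (v : Fin 3 → R) (C : Fin 3 → Fin 3 → Fin 3 → R) :
    (fun i j l => φ (gV v C i j l)) = gV (fun i => φ (v i)) fun i j l => φ (C i j l) := by
  have : ∀ (c : Fin 3 → R) i, φ (gd c i) = gd (fun a => φ (c a)) i := fun c i => by
    fin_cases i <;> simp [gd, map_ofNat]
  ext i j l
  simp only [gV, map_add, map_mul, this]

theorem map_gdet (a b c : Fin 3 → R) :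
    φ (gdet a b c) = gdet (fun i => φ (a i)) (fun i => φ (b i)) fun i => φ (c i) := by
  simp [gdet, det_fin_three]

theorem map_hi (C : Fin 3 → Fin 3 → Fin 3 → R) (l : Fin 3 → R) (k : R) (s : Fin 3 → R) (h : R) :
    φ (hi C l k s h) =
      hi (fun i j l => φ (C i j l)) (fun i => φ (l i)) (φ k) (fun i => φ (s i)) (φ h) := by
  simp only [hi, map_add, map_sub, map_mul, map_pow]

theorem map_mv (A : Matrix (Fin 3) (Fin 3) R) (z : Fin 3 → R) :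
    (fun i => φ ((A *ᵥ z) i)) = A.map φ *ᵥ fun i => φ (z i) := by
  ext i
  simp [mulVec, dotProduct]

theorem map_qf (q : Matrix (Fin 3) (Fin 3) R) (y z : Fin 3 → R) :
    φ (y ⬝ᵥ q *ᵥ z) = (fun i => φ (y i)) ⬝ᵥ q.map φ *ᵥ fun i => φ (z i) := by
  simp [mulVec, dotProduct]

end Map

theorem cubic {v : Fin 4 → Fin 3 → R} {a b c : R} (ha : IsUnit a) (hb : IsUnit b) (hc : IsUnit c)
    (hz : ∀ k, IsUnit (v k 2)) (hm : ∀ k l, k ≠ l → IsUnit (v k 0 * v l 1 - v l 0 * v k 1))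
    (hQ : ∀ k, c * v k 0 * v k 1 + b * v k 0 * v k 2 + a * v k 1 * v k 2 = 0)
    (p210 p201 p120 p021 p102 p012 p111 : R)
    (h : ∀ k, p210 * v k 0 ^ 2 * v k 1 + p201 * v k 0 ^ 2 * v k 2 + p120 * v k 0 * v k 1 ^ 2 +
      p021 * v k 1 ^ 2 * v k 2 + p102 * v k 0 * v k 2 ^ 2 + p012 * v k 1 * v k 2 ^ 2 +
      p111 * v k 0 * v k 1 * v k 2 = 0) :
    ∃ l0 l1 l2, p210 = c * l0 ∧ p201 = b * l0 ∧ p120 = c * l1 ∧ p021 = a * l1 ∧ p102 = b * l2 ∧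
      p012 = a * l2 ∧ p111 = a * l0 + b * l1 + c * l2 := by
  obtain ⟨l0, rfl⟩ := hc.dvd (a := p210)
  obtain ⟨l1, rfl⟩ := ha.dvd (a := p021)
  obtain ⟨l2, rfl⟩ := hb.dvd (a := p102)
  have u : IsUnit (projVandermonde (fun k => v k 0) fun k => v k 1) := by
    rw [isUnit_iff_isUnit_det, det_projVandermonde]
    exact IsUnit.prod_iff.2 fun i _ => IsUnit.prod_iff.2 fun j hj =>
      hm j i (Finset.mem_Ioi.1 hj).ne'
  have e := mulVec_injective_of_isUnit u (a₂ := 0)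
    (a₁ := ![a * (a * (p120 - c * l1)),
      c * l0 * a ^ 2 + 2 * a * b * p120 - c * b * (a * l1) + c ^ 2 * p012 - c * a * p111,
      2 * a * b * (c * l0) - a * c * p201 + b ^ 2 * p120 + c ^ 2 * (b * l2) - c * b * p111,
      c * (b * (b * l0 - p201))]) (by
      ext k
      rw [mulVec_zero, Pi.zero_apply, ← ((hz k).pow 2).mul_right_eq_zero]
      simp [mulVec, dotProduct, Fin.sum_univ_four, projVandermonde_apply, Fin.rev]
      linear_combination c ^ 2 * v k 0 * v k 1 * h k +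
        ((c * l0 * v k 0 + p120 * v k 1) * (v k 2 * (a * v k 1 + b * v k 0) - c * v k 0 * v k 1) -
          c * v k 2 * (p201 * v k 0 ^ 2 + a * l1 * v k 1 ^ 2 + p111 * v k 0 * v k 1)) * hQ k)
  have e0 := sub_eq_zero.1 (ha.mul_right_eq_zero.1 (ha.mul_right_eq_zero.1 (congrFun e 0)))
  have e3 := sub_eq_zero.1 (hb.mul_right_eq_zero.1 (hc.mul_right_eq_zero.1 (congrFun e 3)))
  have e1 := congrFun e 1
  have e2 := congrFun e 2
  simp only [cons_val, Pi.zero_apply] at e1 e2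
  subst e0 e3
  have e4 : p111 = a * l0 + b * l1 + c * l2 :=
    (hb.mul hc).mul_left_cancel (by linear_combination -e2)
  subst e4
  exact ⟨l0, l1, l2, rfl, rfl, rfl, rfl, rfl,
    (hc.pow 2).mul_left_cancel (by linear_combination e1), rfl⟩

theorem shape (h2 : IsUnit (2 : R)) (h3 : IsUnit (3 : R)) {v : Fin 4 → Fin 3 → R} {a b c : R}
    (ha : IsUnit a) (hb : IsUnit b) (hc : IsUnit c) (hz : ∀ k, IsUnit (v k 2))
    (hm : ∀ k l, k ≠ l → IsUnit (v k 0 * v l 1 - v l 0 * v k 1))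
    (hQ : ∀ k, c * v k 0 * v k 1 + b * v k 0 * v k 2 + a * v k 1 * v k 2 = 0)
    {C : Fin 3 → Fin 3 → Fin 3 → R} (hD : ∀ k i j l, gV (v k) (gV (v k) (gV (v k) C)) i j l = 0) :
    ∃ (l : Fin 3 → R) (k : R), ∀ (S : Type) [CommRing S] (φ : R →+* S) (s : Fin 3 → S),
      hi (fun i j l => φ (C i j l)) (fun i => φ (l i)) (φ k) s
        (φ c * s 0 * s 1 + φ b * s 0 * s 2 + φ a * s 1 * s 2) = 0 := by
  have u := fun p210 p201 p120 p021 p102 p012 p111 i j l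
      (h : ∀ k, 2 * 3 * _ = gV (v k) (gV (v k) (gV (v k) C)) i j l) =>
    cubic ha hb hc hz hm hQ p210 p201 p120 p021 p102 p012 p111 fun k =>
      (h2.mul h3).mul_right_eq_zero.1 ((h k).trans (hD k i j l))
  obtain ⟨l0, l1, l2, a1, a2, a3, a4, a5, a6, a7⟩ := u (C 2 1 0) (C 2 0 1) (C 1 2 0) (C 0 2 1)
    (C 1 0 2) (C 0 1 2) (C 1 1 1) 0 0 0 fun k => by simp [gV, gd]; ring
  obtain ⟨-, m1, m2, -, -, b3, b4, b5, b6, -⟩ := u 0 0 (2 * C 2 2 0) (C 1 2 1) (2 * C 2 0 2)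
    (C 1 1 2) (2 * C 2 1 1) 1 0 0 fun k => by simp [gV, gd]; ring
  obtain ⟨n0, -, -, c1, c2, -⟩ := u (2 * C 2 2 0) (C 2 1 1) 0 0 (C 1 1 2) (2 * C 0 2 2)
    (2 * C 1 2 1) 0 1 0 fun k => by simp [gV, gd]; ring
  obtain ⟨r0, r1, -, d1, d2, d3, d4, -⟩ := u (C 2 1 1) (2 * C 2 0 2) (C 1 2 1) (2 * C 0 2 2) 0 0
    (2 * C 1 1 2) 0 0 1 fun k => by simp [gV, gd]; ring
  obtain ⟨-, x1, x2, -, -, e3, e4, e5, e6, -⟩ := u 0 0 0 (C 2 2 1) 0 (C 2 1 2) 0 2 0 0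
    fun k => by simp [gV, gd]; ring
  obtain ⟨-, -, y2, -, -, -, -, f5, f6, -⟩ := u 0 (C 2 2 1) 0 0 (C 1 2 2) 0 0 0 2 0
    fun k => by simp [gV, gd]; ring
  obtain ⟨-, -, z2, -, -, -, -, g5, g6, -⟩ := u 0 0 0 0 0 (2 * C 2 2 2) 0 2 1 0
    fun k => by simp [gV, gd]; ring
  obtain ⟨k, hk⟩ := (hc.pow 2).dvd (a := C 2 2 0)
  obtain rfl : m1 = 2 * c * k := hc.mul_left_cancel (by linear_combination 2 * hk - b3)
  obtain rfl : n0 = 2 * c * k := hc.mul_left_cancel (by linear_combination 2 * hk - c1)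
  obtain rfl : r0 = 2 * b * k := hc.mul_left_cancel (by linear_combination c2 - d1)
  obtain rfl : m2 = 2 * b * k := hb.mul_left_cancel (by linear_combination d2 - b5)
  obtain rfl : r1 = 2 * a * k := hc.mul_left_cancel (by linear_combination b4 - d3)
  have k1 : C 2 0 2 = b ^ 2 * k := h2.mul_left_cancel (by linear_combination d2)
  have k2 : C 0 2 2 = a ^ 2 * k := h2.mul_left_cancel (by linear_combination d4)
  obtain rfl := hc.mul_right_eq_zero.1 e3.symm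
  obtain rfl := hb.mul_right_eq_zero.1 e5.symm
  obtain rfl := ha.mul_right_eq_zero.1 f6.symm
  obtain rfl := hb.mul_right_eq_zero.1 g5.symm
  have k3 : C 2 2 2 = 0 := h2.mul_right_eq_zero.1 (g6.trans (mul_zero _))
  refine ⟨![l0, l1, l2], k, fun S _ φ s => ?_⟩
  simp only [hi, a1, a2, a3, a4, a5, a6, a7, b4, b6, c2, hk, k1, k2, k3, e4, e6, f5, cons_val,
    map_add, map_mul, map_pow, map_zero, map_ofNat]
  ring

end Pool.Agent.MP_5168f5_an.R4.Web.WAlgCA
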