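import Pool.Agent.MP_5168f5_an.R4.SpecW

/-! Webs of curves of degree two: closedness in a planar web. -/

namespace Pool.Agent.MP_5168f5_an.R4.Web

open H19 H17S H17F Filter NCx

namespace WCloA

theorem am {x y X Y : ℝ} (h : |x| ≤ X) (h' : |y| ≤ Y) : |x * y| ≤ X * Y := by
  rw [abs_mul]; exact mul_le_mul h h' (abs_nonneg _) ((abs_nonneg _).trans h)

theorem asub {x y X Y : ℝ} (h : |x| ≤ X) (h' : |y| ≤ Y) : |x - y| ≤ X + Y :=
  (abs_sub x y).trans (add_le_add h h')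

theorem asq {x X : ℝ} (h : |x| ≤ X) : |x ^ 2| ≤ X ^ 2 := by
  rw [abs_pow]; exact pow_le_pow_left₀ (abs_nonneg _) h 2

/-- The defect of closedness along a row. -/
def dd (A B : Fin 2 → Fin 3 → ℝ) (x y : ℝ) (p : Fin 2) : ℝ :=
  (B 0 p.succ - A p 1) * (y - x) + (B 1 p.succ - A p 2) * (y ^ 2 - x ^ 2)

/-- The coefficients of the holonomy. -/
def cf (A B : Fin 2 → Fin 3 → ℝ) (u x y : ℝ) : Fin 3 → ℝ :=
  Fin.cons (u + B 0 0 * (y - x) + B 1 0 * (y ^ 2 - x ^ 2)) (dd A B x y)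

/-- The defect as a polynomial of the second point. -/
def cg (A B : Fin 2 → Fin 3 → ℝ) (x : ℝ) (p : Fin 2) : Fin 3 → ℝ :=
  Fin.cons (-((B 0 p.succ - A p 1) * x + (B 1 p.succ - A p 2) * x ^ 2)) fun q : Fin 2 =>
    B q p.succ - A p q.succ

theorem cg_sum (A B : Fin 2 → Fin 3 → ℝ) (u x y : ℝ) (p : Fin 2) :
    ∑ i, cg A B x p i * y ^ (i : ℕ) = cf A B u x y p.succ := by
  simp only [cg, cf, dd, Fin.sum_univ_succ, Fin.cons_succ, Fin.cons_zero]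
  simp
  ring

theorem cf_bd {A B : Fin 2 → Fin 3 → ℝ} {u x y K : ℝ} (hK : 1 ≤ K) (hx : |x| ≤ K) (hy : |y| ≤ K)
    (h : ∀ p i, |A p i| ≤ K ∧ |B p i| ≤ K) (j : Fin 3) (hj : j ≠ 0) :
    |cf A B u x y j| ≤ 12 * K ^ 3 := by
  obtain ⟨p, rfl⟩ := Fin.exists_succ_eq.2 hj
  have h1 := am (asub (h 0 p.succ).2 (h p 1).1) (asub hy hx)
  have h2 := am (asub (h 1 p.succ).2 (h p 2).1) (asub (asq hy) (asq hx))
  have h3 : K ^ 2 ≤ K ^ 3 := pow_le_pow_right₀ hK (by norm_num)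
  refine (abs_add_le _ _).trans ((add_le_add h1 h2).trans ?_)
  nlinarith [sq_nonneg K]

theorem num {A B : Fin 2 → Fin 3 → ℝ} {K e u₁ u₂ φ₁ φ₂ α₁ α₂ β₁ β₂ u' α' β' x y b : ℝ} (hK : 1 ≤ K)
    (hx : |x| ≤ K) (hy : |y| ≤ K) (hb : |b| ≤ K) (e1 : |φ₁ - (u₁ + α₁ * b + β₁ * b ^ 2)| ≤ e)
    (e2 : |φ₂ - (u₂ + α₂ * b + β₂ * b ^ 2)| ≤ e) (e3 : |φ₁ - (u' + α' * x + β' * x ^ 2)| ≤ e)
    (e4 : |φ₂ - (u' + α' * y + β' * y ^ 2)| ≤ e) (f1 : |α₁ - ∑ i, A 0 i * x ^ (i : ℕ)| ≤ e)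
    (f2 : |α₂ - ∑ i, A 0 i * y ^ (i : ℕ)| ≤ e) (f3 : |β₁ - ∑ i, A 1 i * x ^ (i : ℕ)| ≤ e)
    (f4 : |β₂ - ∑ i, A 1 i * y ^ (i : ℕ)| ≤ e) (f5 : |α' - ∑ i, B 0 i * b ^ (i : ℕ)| ≤ e)
    (f6 : |β' - ∑ i, B 1 i * b ^ (i : ℕ)| ≤ e) :
    |u₂ - ∑ i, cf A B u₁ x y i * b ^ (i : ℕ)| ≤ 12 * K ^ 2 * e := by
  have g1 := abs_le.1 (asub (asub e1 e2) (asub e3 e4))
  have g2 := abs_le.1 (am (asub f1 f2) hb)
  have g3 := abs_le.1 (am (asub f3 f4) (asq hb))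
  have g4 := abs_le.1 (am f5 (asub hy hx))
  have g5 := abs_le.1 (am f6 (asub (asq hy) (asq hx)))
  have e0 : 0 ≤ e := (abs_nonneg _).trans e1
  have k1 : e ≤ K * e := le_mul_of_one_le_left e0 hK
  have k2 : K * e ≤ K ^ 2 * e := mul_le_mul_of_nonneg_right (by nlinarith) e0
  have s : ∑ i, cf A B u₁ x y i * b ^ (i : ℕ) = u₁ + B 0 0 * (y - x) + B 1 0 * (y ^ 2 - x ^ 2) +
      ((B 0 1 - A 0 1) * (y - x) + (B 1 1 - A 0 2) * (y ^ 2 - x ^ 2)) * b +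
      ((B 0 2 - A 1 1) * (y - x) + (B 1 2 - A 1 2) * (y ^ 2 - x ^ 2)) * b ^ 2 := by
    simp only [cf, dd, Fin.sum_univ_succ, Fin.cons_succ, Fin.cons_zero]
    simp
    ring
  rw [s]
  simp only [Fin.sum_univ_three, Fin.val_zero, Fin.val_one, Fin.val_two, pow_zero, pow_one,
    mul_one] at g2 g3 g4 g5
  rw [abs_le]
  constructor <;> nlinarith [g1.1, g1.2, g2.1, g2.2, g3.1, g3.2, g4.1, g4.2, g5.1, g5.2]

theorem cpy {Ω γ : Type} (P : FP Ω) (χ : Ω → γ) (f : Ω → ℤ) : ∃ Q : FP (Ω × Ω),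
    Law Q Prod.fst P id ∧ Law Q Prod.snd P id ∧
    (∀ v ∈ Q.S, v.1 ∈ P.S ∧ v.2 ∈ P.S ∧ χ v.2 = χ v.1) ∧
    ch Q (fun v => f v.2) (fun v => v.1) = ch P f χ :=
  ⟨glue P P χ χ, kg.fst P P χ χ, kg.snd P P χ χ (Law.rfl χ),
    fun v => (kg.mem P P χ χ v (Law.rfl χ)).1,
    kg.mk1 P P χ χ f id (Law.rfl χ) (Fn.comp χ id)⟩

variable {Ω Γ : ℕ → Type} {P : ∀ n, FP (Ω n)} {M : ℕ → ℕ} {L : ℕ → ℝ} {x : RV Ω}

theorem up (hM : Big M) (hL : Sub M L) (h : ∀ᶠ n in UF, ∀ ω ∈ (P n).S, |x n ω| ≤ L n)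
    (G : ∀ n, Ω n → Γ n) :
    Le M (fun n => ch (P n) (fun ω => fl1 (M n) (x n ω)) (G n)) fun n => M n * lg :=
  (le_fl1 (P := P) (G := G) (x := x) (j := fun _ => 0) (k := M) hM (hL.add hL hM)
    (fun _ => Nat.zero_le _) (h.mono fun n hn a ha b hb _ => by
      simpa using asub (hn a ha) (hn b hb))).of_sub (Eventually.of_forall fun n => by simp)

end WCloA

open WCloA in
theorem rowClo : OfClo := by
  intro hS hD hN Ω T P Θ a b φ u α β u' α' β' A B M R k L ε₀ hM hR hk he hL h1 h2 hng hf hw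
  obtain ⟨Lb, sb, gb⟩ := h1.grid
  obtain ⟨La, sa, ga⟩ := h2.grid
  obtain ⟨L1, s1, b1⟩ := h1.bd
  obtain ⟨L2, s2, b2⟩ := h2.bd
  have n1 : NG1 P (fun n ω => (α n ω, β n ω, a n ω, Θ n ω)) u R ε₀ := by
    refine hN P φ u (fun n ω => α n ω * b n ω + β n ω * b n ω ^ 2) _ _ M R R L1 ε₀ hM hR Frac.rfl
      s1 hng (b1.mono fun n hn => ⟨fun v _ w _ e => ?_, fun ω hω => ?_⟩) ?_
    · simp only [Prod.mk.injEq] at e
      simp only [e.1.2.1, e.2.1, e.2.2.1]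
    · have := (hn ω hω).2.2.2.2
      rwa [show φ n ω - (α n ω * b n ω + β n ω * b n ω ^ 2) - u n ω =
        φ n ω - (u n ω + α n ω * b n ω + β n ω * b n ω ^ 2) by ring]
    · refine Le.of2 (up hM sb (gb.mono fun _ h => h.2) fun n ω => (α n ω, β n ω, a n ω, Θ n ω))
        h1.ful (gb.mono fun n hn => ?_)
      have i1 : mi (P n) (fun ω => (a n ω, b n ω, Θ n ω)) (fun ω => fl1 (R n) (u n ω))
          (fun ω => (α n ω, β n ω, a n ω, Θ n ω)) ≤ mi (P n) (fun ω => fl1 (M n) (b n ω)) (u n)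
          fun ω => (α n ω, β n ω, a n ω, Θ n ω) :=
        (mi_mono' fun v hv w hw e => by
          simp only [Prod.mk.injEq] at e ⊢
          exact ⟨e.2.2.2.1, hn.1 v hv w hw e.1, e.2.2.2.2⟩).trans
          (mi_mono ((Fn.comp (fl1 (R n)) (u n)).left _))
      rw [mi_symm]
      unfold mi at i1 ⊢
      linarith
  choose Q l1 l2 m mk using fun n => cpy (P n)
    (fun ω => (u' n ω, α' n ω, β' n ω, b n ω, Θ n ω)) fun ω => fl1 (M n) (a n ω)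
  obtain ⟨K, sK, hK⟩ : ∃ K, Sub M K ∧
      ∀ n, L n ≤ K n ∧ L1 n ≤ K n ∧ L2 n ≤ K n ∧ La n ≤ K n ∧ Lb n ≤ K n :=
    ⟨_, (((hL.add s1 hM).add s2 hM).add sa hM).add sb hM, fun n => by
      have := hL.1 n; have := s1.1 n; have := s2.1 n; have := sa.1 n; have := sb.1 n
      refine ⟨?_, ?_, ?_, ?_, ?_⟩ <;> linarith⟩
  have d1 := K31.dnS_law (Eventually.of_forall l1)
  have d2 := K31.dnS_law (Eventually.of_forall l2)
  have qa : ∀ᶠ n in UF, ∀ v ∈ (Q n).S, |a n v.2| ≤ La n :=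
    ga.mono fun n hn v hv => hn.2 _ (m n v hv).2.1
  have fa : Ful Q (fun n v => a n v.2) (fun _ v => v.1) M :=
    Le.of_sub h2.ful (Eventually.of_forall fun n => by rw [mk n])
  have fb : Ful Q (fun n v => b n v.1) (fun n v => ((α n v.2, β n v.2), fl1 (M n) (a n v.2),
      u n v.1, α n v.1, β n v.1, a n v.1, Θ n v.1)) M := by
    refine Le.of4 h1.ful (up (P := Q) (x := fun n v => a n v.2) hM sa qa fun n v =>
      (u n v.1, α n v.1, β n v.1, a n v.1, Θ n v.1)) fa h1.sv (ga.mono fun n hn => ?_)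
    have i1 := (l1 n).ch_id (fun ω => fl1 (M n) (b n ω))
      fun ω => (u n ω, α n ω, β n ω, a n ω, Θ n ω)
    have i2 := ch_symm (P := Q n) (fun v => fl1 (M n) (b n v.1)) (fun v => fl1 (M n) (a n v.2))
      fun v => (u n v.1, α n v.1, β n v.1, a n v.1, Θ n v.1)
    have i3 : ch (Q n) (fun v => fl1 (M n) (a n v.2)) (fun v => v.1) ≤
        ch (Q n) (fun v => fl1 (M n) (a n v.2)) fun v =>
          (fl1 (M n) (b n v.1), u n v.1, α n v.1, β n v.1, a n v.1, Θ n v.1) :=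
      ch_anti fun v _ w _ e => by simp only [show v.1 = w.1 from e]
    have i4 := ch_drop (P := Q n) (fun v => fl1 (M n) (b n v.1)) (fun v => (α n v.2, β n v.2))
      fun v => (fl1 (M n) (a n v.2), u n v.1, α n v.1, β n v.1, a n v.1, Θ n v.1)
    have i5 : ch (Q n) (fun v => (α n v.2, β n v.2)) (fun v =>
        (fl1 (M n) (a n v.2), u n v.1, α n v.1, β n v.1, a n v.1, Θ n v.1)) ≤
        ch (Q n) (fun v => (α n v.2, β n v.2)) fun v => (a n v.2, Θ n v.2) :=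
      ch_anti fun v hv w hw e => by
        have c1 := (m n v hv).2.2
        have c2 := (m n w hw).2.2
        simp only [Prod.mk.injEq] at e c1 c2 ⊢
        exact ⟨hn.1 _ (m n v hv).2.1 _ (m n w hw).2.1 e.1,
          c1.2.2.2.2.trans (e.2.2.2.2.2.trans c2.2.2.2.2.symm)⟩
    have i6 := (l2 n).ch_id (fun ω => (α n ω, β n ω)) fun ω => (a n ω, Θ n ω)
    beta_reduce at i2 i4
    linarith
  obtain ⟨L', s', w'⟩ := hD 2 Q (fun n v => u n v.2) (fun n v => b n v.1) _ _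
    (fun n v => cf (A n v.1) (B n v.1) (u n v.1) (a n v.1) (a n v.2)) M R k
    (fun n => 12 * K n ^ 3) ε₀ hM hR hk.1 ((sK.pow 3).const_mul hM (by norm_num)) he (n1.pull l2)
    (by
      filter_upwards [hf, ga, gb] with n f1 g1 g2
      refine ⟨fun v hv w hw e => ?_, fun v hv w hw e => ?_, fun v hv => ?_⟩
      · simp only [Prod.mk.injEq] at e
        simp only [f1.1 _ (m n v hv).1 _ (m n w hw).1 e.2.2.2.2.2.2,
          f1.2 _ (m n v hv).1 _ (m n w hw).1 e.2.2.2.2.2.2, e.2.2.1, e.2.2.2.2.2.1,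
          g1.1 _ (m n v hv).2.1 _ (m n w hw).2.1 e.2.1]
      · have c1 := (m n v hv).2.2
        have c2 := (m n w hw).2.2
        simp only [Prod.mk.injEq] at e c1 c2 ⊢
        exact ⟨e.1.1, e.1.2, g1.1 _ (m n v hv).2.1 _ (m n w hw).2.1 e.2.1,
          c1.2.2.2.2.trans (e.2.2.2.2.2.2.trans c2.2.2.2.2.symm)⟩
      · have := pow_le_pow_right₀ (sK.1 n) (show 1 ≤ 3 by norm_num)
        linarith [g2.2 _ (m n v hv).1, (hK n).2.2.2.2, sK.1 n])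
    fb (((d1.whp hw).and (d2.whp hw)).mono (by
      filter_upwards [hf, ga, gb, b1, b2] with n f1 g1 g2 c1 c2 v hv ⟨w1, w2⟩
      obtain ⟨m1, m2, m3⟩ := m n v hv
      simp only [Prod.mk.injEq] at m3
      obtain ⟨k1, k2, k3, k4, k5⟩ := hK n
      have x1 := (g1.2 _ m1).trans k4
      have x2 := (g1.2 _ m2).trans k4
      have t1 : ∀ {l : ℝ}, l ≤ K n → l / 2 ^ k n ≤ K n / 2 ^ k n := fun h =>
        div_le_div_of_nonneg_right h (by positivity)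
      have t2 : ∀ {l : ℝ}, l ≤ K n → l / 2 ^ R n ≤ K n / 2 ^ k n := fun h =>
        div_le_div₀ (sK.pos n).le h (by positivity) (pow_le_pow_right₀ one_le_two (hk.1 n))
      have y1 := (c1 _ m2).2.2.2.2
      have y2 := (c2 _ m2).2.2.2.2
      rw [m3.2.2.2.1] at y1
      rw [m3.1, m3.2.1, m3.2.2.1] at y2
      rw [f1.1 _ m2 _ m1 m3.2.2.2.2] at w2
      refine ⟨(num (sK.1 n) x1 x2 ((g2.2 _ m1).trans k5) ((c1 _ m1).2.2.2.2.trans (t2 k2))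
        (y1.trans (t2 k2)) ((c2 _ m1).2.2.2.2.trans (t2 k3)) (y2.trans (t2 k3))
        (w1.2.1.trans (t1 k1)) (w2.2.1.trans (t1 k1)) (w1.2.2.1.trans (t1 k1))
        (w2.2.2.1.trans (t1 k1)) (w1.2.2.2.1.trans (t1 k1)) (w1.2.2.2.2.trans (t1 k1))).trans_eq
        (by ring), cf_bd (sK.1 n) x1 x2 fun p i =>
          ⟨(w1.1 p i).1.trans k1, (w1.1 p i).2.trans k1⟩⟩))
  choose L'' s'' w'' using fun p : Fin 2 => hS 2 Q (fun n v => a n v.2) (fun _ v => v.1)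
    (fun n v => cg (A n v.1) (B n v.1) (a n v.1) p) M La hM sa
    (qa.mono fun n hn => ⟨fun v _ w _ e => by simp only [show v.1 = w.1 from e], hn⟩) fa
  have w3 : Whp Q fun n v => ∀ p q : Fin 2, |A n v.1 p q.succ - B n v.1 q p.succ| ≤
      (L'' 0 n + L'' 1 n) * L' n / 2 ^ k n :=
    (w'.and (Whp.all w'')).mono (Eventually.of_forall fun n v _ h p q => by
      have z1 := h.2 p q.succ
      rw [cg_sum _ _ (u n v.1), cg, Fin.cons_succ, abs_sub_comm] at z1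
      have z2 : L'' p n ≤ L'' 0 n + L'' 1 n := by
        have := (s'' 0).1 n; have := (s'' 1).1 n
        fin_cases p <;> simp <;> linarith
      rw [mul_div_assoc]
      exact z1.trans (mul_le_mul z2 (h.1 _ p.succ_ne_zero) (abs_nonneg _)
        (((s'' p).pos n).le.trans z2)))
  refine ⟨_, ((s'' 0).add (s'' 1) hM).mul s', fun ε hε => (w3 ε hε).mono fun n hn => ?_⟩
  exact ((l1 n).pb_eq fun ω => ¬∀ p q : Fin 2, |A n ω p q.succ - B n ω q p.succ| ≤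
    (L'' 0 n + L'' 1 n) * L' n / 2 ^ k n).symm.trans_le hn

end Pool.Agent.MP_5168f5_an.R4.Web
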