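import Pool.Agent.MP_5168f5_an.R4.SpecW

/-! A polynomial of a full variable that has no full window is constant. -/

namespace Pool.Agent.MP_5168f5_an.R4.Web

open H19 H17S H17F Filter NCx

namespace WDenPA

theorem step (p : ℕ → Prop) (h0 : p 0) : ∀ K, ¬p K → ∃ i < K, p i ∧ ¬p (i + 1)
  | 0, h => absurd h0 h
  | K + 1, h => by
    by_cases e : p K
    · exact ⟨K, K.lt_succ_self, e, h⟩
    · obtain ⟨i, a, b⟩ := step p h0 K e
      exact ⟨i, a.trans K.lt_succ_self, b⟩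

theorem tay {a b L : ℝ} (hL : 1 ≤ L) (ha : |a| ≤ L) (hb : |b| ≤ L) (j : ℕ) :
    |b * (a ^ j - b ^ j) - j * b ^ j * (a - b)| ≤ (j : ℝ) ^ 2 * L ^ j * (a - b) ^ 2 := by
  induction j with
  | zero => simp
  | succ j ih =>
    have e : b * (a ^ (j + 1) - b ^ (j + 1)) - (j + 1 : ℕ) * b ^ (j + 1) * (a - b) =
        a * (b * (a ^ j - b ^ j) - j * b ^ j * (a - b)) + j * b ^ j * (a - b) ^ 2 := by
      push_cast; ring
    have h1 : |j * b ^ j * (a - b) ^ 2| ≤ j * (L ^ j * L) * (a - b) ^ 2 := by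
      rw [abs_mul, abs_mul, abs_pow, abs_sq, Nat.abs_cast]
      gcongr
      exact (pow_le_pow_left₀ (abs_nonneg b) hb j).trans
        (le_mul_of_one_le_right (by positivity) hL)
    have h2 := mul_le_mul ha ih (abs_nonneg _) (by positivity)
    have h3 : 0 ≤ (j + 1) * (L ^ j * L * (a - b) ^ 2) := by positivity
    rw [e, pow_succ L]
    refine (abs_add_le _ _).trans ?_
    rw [abs_mul a]
    push_cast
    nlinarith

variable {d : ℕ} {C : Fin (d + 1) → ℝ} {a b L ν : ℝ}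

theorem sum_le (F : Fin (d + 1) → ℝ) {B : ℝ} (hν : 0 ≤ ν) (hB : 0 ≤ B)
    (hC : ∀ j, j ≠ 0 → |C j| ≤ ν) (h0 : F 0 = 0) (hF : ∀ j, |F j| ≤ B) :
    |∑ j, C j * F j| ≤ (d + 1) * (ν * B) := by
  refine (Finset.abs_sum_le_sum_abs _ _).trans
    ((Finset.sum_le_card_nsmul _ _ (ν * B) fun j _ => ?_).trans (by simp))
  by_cases e : j = 0
  · rw [e, h0, mul_zero, abs_zero]
    positivity
  · rw [abs_mul]
    exact mul_le_mul (hC j e) (hF j) (abs_nonneg _) hν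

theorem lip (hL : 1 ≤ L) (ha : |a| ≤ L) (hb : |b| ≤ L) (hν : 0 ≤ ν)
    (hC : ∀ j, j ≠ 0 → |C j| ≤ ν) :
    |∑ j, C j * a ^ (j : ℕ) - ∑ j, C j * b ^ (j : ℕ)| ≤ (d + 1) * (ν * (2 * L ^ d)) := by
  have k : ∀ t : ℝ, |t| ≤ L → ∀ j : Fin (d + 1), |t ^ (j : ℕ)| ≤ L ^ d := fun t ht j => by
    rw [abs_pow]
    exact (pow_le_pow_left₀ (abs_nonneg t) ht j).trans (pow_le_pow_right₀ hL j.is_le)
  simp only [← Finset.sum_sub_distrib, ← mul_sub]
  exact sum_le _ hν (by positivity) hC (by simp) fun j => by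
    linarith [abs_sub (a ^ (j : ℕ)) (b ^ (j : ℕ)), k a ha j, k b hb j]

theorem cf {j : Fin (d + 1)} (hj : j ≠ 0) : |C j| ≤ |(j : ℕ) * C j| := by
  rw [abs_mul, Nat.abs_cast]
  exact le_mul_of_one_le_left (abs_nonneg _) (Nat.one_le_cast.2 (Fin.pos_iff_ne_zero.2 hj))

theorem low {L1 : ℝ} (hL : 1 ≤ L) (ha : |a| ≤ L) (hb : |b| ≤ L) (h1 : 0 ≤ L1)
    (hC : ∀ j : Fin (d + 1), |(j : ℕ) * C j| ≤ L1 * |∑ i : Fin (d + 1), (i : ℕ) * C i * b ^ (i : ℕ)|)
    (hδ : 2 * (d + 1) ^ 3 * (L ^ d * L1) * |a - b| ≤ 1) :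
    |∑ i : Fin (d + 1), (i : ℕ) * C i * b ^ (i : ℕ)| * |a - b| ≤
      2 * L * |∑ j, C j * a ^ (j : ℕ) - ∑ j, C j * b ^ (j : ℕ)| := by
  set q := ∑ i : Fin (d + 1), (i : ℕ) * C i * b ^ (i : ℕ) with hq
  set Δ := ∑ j, C j * a ^ (j : ℕ) - ∑ j, C j * b ^ (j : ℕ) with hΔ
  have h2 := sum_le (C := C) (ν := L1 * |q|) (B := (d + 1) ^ 2 * L ^ d * (a - b) ^ 2)
    (fun j => b * (a ^ (j : ℕ) - b ^ (j : ℕ)) - (j : ℕ) * b ^ (j : ℕ) * (a - b)) (by positivity)
    (by positivity) (fun j hj => (cf hj).trans (hC j)) (by simp) fun j =>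
      (tay hL ha hb j).trans (by
        gcongr
        · exact_mod_cast j.is_lt.le
        · exact j.is_le)
  have h3 : ∑ j : Fin (d + 1), C j * (b * (a ^ (j : ℕ) - b ^ (j : ℕ)) -
      (j : ℕ) * b ^ (j : ℕ) * (a - b)) = b * Δ - q * (a - b) := by
    simp only [hq, hΔ, ← Finset.sum_sub_distrib, Finset.mul_sum, Finset.sum_mul]
    exact Finset.sum_congr rfl fun j _ => by ring
  have h4 := abs_sub_abs_le_abs_sub (q * (a - b)) (b * Δ)
  have h5 := mul_le_mul_of_nonneg_right hb (abs_nonneg Δ)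
  have h6 := mul_le_mul_of_nonneg_right hδ (mul_nonneg (abs_nonneg q) (abs_nonneg (a - b)))
  rw [h3, ← sq_abs (a - b)] at h2
  rw [abs_sub_comm, abs_mul, abs_mul] at h4
  nlinarith

variable {Ω T : ℕ → Type} {P : ∀ n, FP (Ω n)}

theorem pos_ex {J : Type} [Finite J] {Φ : J → ∀ n, Ω n → Prop}
    (h : Pos P fun n ω => ∃ j, Φ j n ω) : ∃ j, Pos P (Φ j) := by
  by_contra e
  refine h.not_whp ((Whp.all (G := fun j n ω => ¬Φ j n ω) fun j => ?_).mono
    (Eventually.of_forall fun _ _ _ a => not_exists.2 a))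
  by_contra e'
  exact e ⟨j, (not_whp e').mono (Eventually.of_forall fun _ _ _ => not_not.1)⟩

theorem ngev {Θ : ∀ n, Ω n → T n} {u : RV Ω} {R β lam : ℕ → ℕ} {ε₀ : ℝ}
    {E : ∀ n, Ω n → Prop} (hN : NG1 P Θ u R ε₀) (hE : Pos P E) (h1 : ∀ n, β n ≤ lam n)
    (h2 : ∀ᶠ n in UF, lam n ≤ R n) :
    Le R (fun n => ch (cE (P n) (E n)) (fun v => fl1 (lam n) (u n v)) fun v =>
      (fl1 (β n) (u n v), Θ n v)) fun n => (1 - ε₀) * (lam n - β n) * lg :=
  (hN Ω P (fun _ => id) (fun n => min (β n) (R n)) (fun n => min (lam n) (R n)) E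
    (fun _ => Law.rfl _) (fun n => ⟨min_le_min_right _ (h1 n), min_le_right _ _⟩) hE).congr
    (h2.mono fun n a => by rw [min_eq_left a, min_eq_left ((h1 n).trans a)]; rfl)
    (h2.mono fun n a => by rw [min_eq_left a, min_eq_left ((h1 n).trans a)])

end WDenPA

open WDenPA in
theorem rowDenP : OfDenP := by
  intro hS d Ω Γ T P u x Θ G C M R k L ε₀ hM hR hk hL h0 hN hF hx hW
  refine ks.wsub P (fun n ω l => ∀ j, j ≠ 0 → |C n ω j| ≤ l / 2 ^ k n) M fun c c0 c1 => ?_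
  by_contra hn
  obtain ⟨L1, hL1, hW1⟩ := hS d P x G (fun n ω j => (j : ℕ) * C n ω j) M L hM hL
    (hF.mono fun n a => ⟨(Fn.comp (fun (v : Fin (d + 1) → ℝ) (j : Fin (d + 1)) => (j : ℕ) * v j)
      (C n)).trans a.1, a.2.2⟩) hx
  obtain ⟨q, hq⟩ := exists_nat_ge (2 / ε₀)
  obtain ⟨K, hK⟩ := exists_nat_ge (2 * (q + 1) / c)
  rw [div_le_iff₀ h0] at hq
  rw [div_le_iff₀ c0] at hK
  have K0 : 0 < K := Nat.pos_of_ne_zero fun e => by
    rw [e, Nat.cast_zero, zero_mul] at hK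
    linarith [Nat.cast_nonneg (α := ℝ) q]
  obtain ⟨h, hh, hw, hb⟩ : ∃ h : ℕ → ℕ, Frac h M ∧
      (∀ n, (((q + 1) * h n : ℕ) : ℝ) ≤ c / 2 * M n) ∧ ∀ᶠ n in UF, M n ≤ h n * (2 * K) := by
    refine ⟨_, hM.frac_div K0, fun n => ?_, ((hM.frac (hM.frac_div K0)).ev 1).mono fun n a => ?_⟩
    · have h1 : (K : ℝ) * (M n / K : ℕ) ≤ M n := by exact_mod_cast Nat.mul_div_le (M n) K
      push_cast
      nlinarith [Nat.cast_nonneg (α := ℝ) (M n / K)]
    · nlinarith [Nat.lt_mul_div_succ (M n) K0, Nat.one_le_cast.1 a]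
  have hq1 : ∀ n, q * h n ≤ M n := fun n => by
    have h1 := hw n
    have h2 : ((q * h n : ℕ) : ℝ) ≤ M n := by
      push_cast at h1 ⊢
      nlinarith [Nat.cast_nonneg (α := ℝ) (h n), Nat.cast_nonneg (α := ℝ) (M n)]
    exact_mod_cast h2
  have hc : ∀ᶠ n in UF, L n * 2 ^ ((q + 1) * h n) ≤ Real.exp (c * M n) :=
    (hL.2 _ (half_pos c0)).mono fun n a => by
      rw [← add_halves c, add_mul (c / 2), Real.exp_add]
      exact mul_le_mul a ((two_pow_le_exp _).trans (Real.exp_le_exp.2 (hw n))) (by positivity)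
        (by positivity)
  obtain ⟨i, hE⟩ := pos_ex (J := Fin (2 * K)) (Φ := fun i n ω =>
      (|u n ω - ∑ j, C n ω j * x n ω ^ (j : ℕ)| ≤ L n / 2 ^ (h n * i + (q + 1) * h n) ∧
        h n * i + (q + 1) * h n ≤ k n) ∧
      (∀ j : Fin (d + 1), |(j : ℕ) * C n ω j| ≤
        L1 n * |∑ l : Fin (d + 1), (l : ℕ) * C n ω l * x n ω ^ (l : ℕ)|) ∧
      (∀ j, j ≠ 0 → |C n ω j| ≤ L n / 2 ^ (h n * i)) ∧
      ¬∀ j, j ≠ 0 → |C n ω j| ≤ L n / 2 ^ (h n * (i + 1)))
    (((not_whp hn).and (hW.and hW1)).mono (by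
      filter_upwards [hb, hc] with n a1 a2 ω _ ⟨b1, ⟨b2, b3⟩, b4⟩
      have l0 := hL.pos n
      obtain ⟨i, i1, i2⟩ := step (fun i => ∀ j, j ≠ 0 → |C n ω j| ≤ L n / 2 ^ (h n * i))
        (by simpa using b3) (2 * K) fun e => b1 fun j hj => (e j hj).trans (div_le_div₀
          (by positivity) ((le_mul_of_one_le_right l0.le (one_le_pow₀ one_le_two)).trans a2)
          (by positivity) (pow_le_pow_right₀ one_le_two ((hk n).trans ((hR.1 n).trans a1))))
      have i3 : h n * i + (q + 1) * h n ≤ k n := by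
        by_contra e
        refine b1 fun j hj => (i2.1 j hj).trans ?_
        rw [div_le_div_iff₀ (by positivity) (by positivity)]
        calc _ ≤ L n * 2 ^ (h n * i + (q + 1) * h n) := by
              gcongr
              exacts [one_le_two, (not_le.1 e).le]
          _ = L n * 2 ^ ((q + 1) * h n) * 2 ^ (h n * i) := by ring
          _ ≤ _ := by gcongr
      refine ⟨⟨i, i1⟩, ⟨b2.trans ?_, i3⟩, b4, i2⟩
      gcongr
      exact one_le_two))
  set E := fun n (ω : Ω n) => (_ ∧ _) ∧ _ ∧ _ ∧ ¬∀ j, j ≠ 0 →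
    |C n ω j| ≤ L n / 2 ^ (h n * (i + 1)) with hE'
  have hs := hF.and hE.sure
  have d1 : (1 : ℝ) ≤ d + 1 := by simp
  have f1 := ks.full P E (fun n ω => fl1 (M n) (x n ω)) G M _ hM hE hx
    ((le_fl1 (j := fun _ => 0) hM (hL.const_mul hM one_le_two) (fun _ => Nat.zero_le _)
      (hF.mono fun n e a ha b hb _ => by
        linarith [abs_sub (x n a) (x n b), e.2.2 a (cE_sub ha), e.2.2 b (cE_sub hb),
          show 2 * L n / 2 ^ 0 = 2 * L n by simp])).congr (Eventually.of_forall fun _ => rfl)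
      (Eventually.of_forall fun n => by simp))
  have f2 := Sm.near1 (P := fun n => cE (P n) (E n)) (x := u) (G := G) (j := fun n => h n * i) hM
    ((hL.const_mul hM one_le_two).add (((hL.mul ((hL.pow d).const_mul hM one_le_two))).const_mul
      hM d1) hM) (hs.mono fun n ⟨e, s⟩ a ha b hb g => by
      obtain ⟨a1, ⟨a2, -⟩, -, a3, -⟩ := s a ha
      obtain ⟨b1, ⟨b2, -⟩, -⟩ := s b hb
      have l0 := hL.pos n
      have h1 := lip (hL.1 n) (e.2.2 a a1) (e.2.2 b b1) (by positivity) a3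
      have h2 : L n / 2 ^ (h n * i + (q + 1) * h n) ≤ L n / 2 ^ (h n * i) := by
        gcongr
        exacts [one_le_two, Nat.le_add_right _ _]
      rw [← e.1 a a1 b b1 g] at b2
      rw [abs_le] at a2 b2 h1 ⊢
      rw [show (2 * L n + (d + 1) * (L n * (2 * L n ^ d))) / 2 ^ (h n * i) = 2 * (L n / 2 ^ (h n * i))
        + (d + 1) * (L n / 2 ^ (h n * i) * (2 * L n ^ d)) by ring]
      constructor <;> linarith [a2.1, a2.2, b2.1, b2.2, h1.1, h1.2])
  have f3 := (ngev hN hE (fun n => Nat.le_add_right (h n * i) ((q + 1) * h n))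
    (hE.ex.mono fun n ⟨_, _, e⟩ => e.1.2.trans (hk n))).up hR.1
  have hA := ((hL.pow d).mul hL1).const_mul hM (C := 2 * (d + 1) ^ 3)
    (one_le_mul_of_one_le_of_one_le one_le_two (one_le_pow₀ d1))
  set A := fun n => 2 * (d + 1 : ℝ) ^ 3 * (L n ^ d * L1 n) with hA'
  have f4 := Sm.near1 (P := fun n => cE (P n) (E n)) (x := fun n ω => A n * x n ω) (G := G)
    (j := fun _ => 0) hM (hA.mul (hL.const_mul hM one_le_two))
    (hF.mono fun n e a ha b hb _ => by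
      rw [← mul_sub, abs_mul, abs_of_pos (hA.pos n), pow_zero, div_one]
      refine mul_le_mul_of_nonneg_left ?_ (hA.pos n).le
      linarith [abs_sub (x n a) (x n b), e.2.2 a (cE_sub ha), e.2.2 b (cE_sub hb)])
  have f5 := le_fl1 (P := fun n => cE (P n) (E n)) (x := x) (G := fun n ω =>
      (fl1 0 (A n * x n ω), fl1 (h n * i + (q + 1) * h n) (u n ω), G n ω)) hM
    ((hL.mul hL1).const_mul hM (C := 6) (by norm_num)) hq1
    (hs.mono fun n ⟨e, s⟩ a ha b hb g => by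
      obtain ⟨a1, ⟨a2, -⟩, -⟩ := s a ha
      obtain ⟨b1, ⟨b2, -⟩, b3, -, b4⟩ := s b hb
      simp only [Prod.mk.injEq] at g
      have l0 := hL.pos n
      have l1 := hL1.pos n
      have h1 := (abs_sub_lt_of_fl1_eq g.1).le
      have h2 := (abs_sub_lt_of_fl1_eq g.2.1).le
      rw [← mul_sub, abs_mul, abs_of_pos (hA.pos n), pow_zero, inv_one] at h1
      have h3 := low (hL.1 n) (e.2.2 a a1) (e.2.2 b b1) l1.le b3 h1
      obtain ⟨j, j0, hj⟩ : ∃ j, j ≠ 0 ∧ L n / 2 ^ (h n * (i + 1)) < |C n b j| := by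
        simpa using b4
      have h4 := hj.le.trans ((cf j0).trans (b3 j))
      have h5 : ((2 : ℝ) ^ (h n * i + (q + 1) * h n))⁻¹ ≤ L n / 2 ^ (h n * i + (q + 1) * h n) :=
        le_mul_of_one_le_left (by positivity) (hL.1 n)
      have h6 : |∑ j, C n b j * x n a ^ (j : ℕ) - ∑ j, C n b j * x n b ^ (j : ℕ)| ≤
          3 * (L n / 2 ^ (h n * i + (q + 1) * h n)) := by
        rw [e.1 a a1 b b1 g.2.2] at a2
        rw [abs_le] at a2 b2 h2 ⊢
        constructor <;> linarith [a2.1, a2.2, b2.1, b2.2, h2.1, h2.2]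
      refine le_of_mul_le_mul_left ?_ (show 0 < L n / 2 ^ (h n * (i + 1)) by positivity)
      calc _ ≤ L1 n * (_ * |x n a - x n b|) :=
            (mul_le_mul_of_nonneg_right h4 (abs_nonneg _)).trans_eq (mul_assoc _ _ _)
        _ ≤ L1 n * (2 * L n * (3 * (L n / 2 ^ (h n * i + (q + 1) * h n)))) :=
            mul_le_mul_of_nonneg_left (h3.trans (mul_le_mul_of_nonneg_left h6 (by positivity)))
              l1.le
        _ = _ := by ring)
  obtain ⟨-, c', c2, c3⟩ := hh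
  refine (Le.of5 (f := fun n => h n * lg) (g := fun _ => 0) f1 f2 f3 f4 f5
    (hF.mono fun n e => ?_)).false hM (mul_pos c2 lg_pos) (c3.mono fun n e => by
      nlinarith [lg_pos])
  have a1 := ch_drop (P := cE (P n) (E n)) (fun ω => fl1 (M n) (x n ω))
    (fun ω => fl1 (h n * i + (q + 1) * h n) (u n ω)) (G n)
  have a2 := ch_drop (P := cE (P n) (E n)) (fun ω => fl1 (M n) (x n ω))
    (fun ω => fl1 0 (A n * x n ω)) fun ω => (fl1 (h n * i + (q + 1) * h n) (u n ω), G n ω)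
  have a3 := ch_anti (P := cE (P n) (E n)) (F := fun ω => fl1 0 (A n * x n ω))
    (Fn.snd (fun ω => fl1 (h n * i + (q + 1) * h n) (u n ω)) (G n))
  have a4 := ch_drop (P := cE (P n) (E n)) (fun ω => fl1 (h n * i + (q + 1) * h n) (u n ω))
    (fun ω => fl1 (h n * i) (u n ω)) (G n)
  have a5 := ch_anti (P := cE (P n) (E n)) (F := fun ω => fl1 (h n * i + (q + 1) * h n) (u n ω))
    ((Fn.fst (fun ω => fl1 (h n * i) (u n ω)) (G n)).pair ((fn_cE e.2.1 _).right _))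
  have a6 := mul_le_mul_of_nonneg_right (show 2 ≤ ε₀ * (q + 1) by linarith)
    (mul_nonneg (Nat.cast_nonneg (α := ℝ) (h n)) lg_pos.le)
  push_cast
  linarith

end Pool.Agent.MP_5168f5_an.R4.Web
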