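import Pool.Agent.MP_5168f5_an.R4.SpecW

/-! An invariant of the curves is independent of the coordinate along the curves. -/

namespace Pool.Agent.MP_5168f5_an.R4.Web

open H19 H17S H17F Filter

theorem rowInv : Inv := by
  intro Ω Γ P G x φ u α β c E M R k L hM hk hL hl he hw
  have h1 : Sm M fun n => ch (P n) (fun ω => fl1 (k n) (c n ω))
      fun ω => (u n ω, α n ω, β n ω, G n ω) := by
    refine ks.fano P _ _ _ M _ 2 hM
      ((hL.const_mul hM one_le_two).add (hM.sub (by norm_num : (1 : ℝ) ≤ 3)) hM) hw ?_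
    filter_upwards [he, (hL.const_mul hM (by norm_num : (1 : ℝ) ≤ 7)).2 1 one_pos] with n ⟨e1, e2⟩ e3
    have l1 := hL.1 n
    have p1 : (1 : ℝ) ≤ 2 ^ k n := one_le_pow₀ one_le_two
    refine ⟨fun a ha => (det_near1 (L := 2 * L n * 2 ^ k n) (by positivity) (fun a ha b hb _ => ?_)
      a ha).imp fun T hT => ⟨hT.1.trans ?_, hT.2⟩, fun a ha => ⟨Finset.Icc
        (fl1 (k n) (u n a - E n a) - ⌈L n⌉₊) (fl1 (k n) (u n a - E n a) + ⌈L n⌉₊), ?_,
        fun b hb e h => fl1_mem_Icc ?_⟩⟩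
    · rw [mul_div_cancel_right₀ _ (by positivity)]
      exact (abs_sub _ _).trans (by linarith [e2 a ha, e2 b hb])
    · have p2 := (two_pow_le_exp (k n)).trans (Real.exp_le_exp.2 (Nat.cast_le.2 (hk n)))
      have p3 := mul_le_mul e3 p2 (by positivity) (Real.exp_pos _).le
      rw [one_mul, ← Real.exp_add, ← two_mul] at p3
      nlinarith
    · rw [show (Finset.Icc (fl1 (k n) (u n a - E n a) - ⌈L n⌉₊)
        (fl1 (k n) (u n a - E n a) + ⌈L n⌉₊)).card = 2 * ⌈L n⌉₊ + 1 by rw [Int.card_Icc]; omega]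
      push_cast
      linarith [Nat.ceil_lt_add_one (hL.pos n).le]
    · simp only [Prod.mk.injEq] at e
      rw [← e.1, ← e1 b hb a ha e.2.2.2]
      refine h.trans ?_
      rw [div_eq_mul_inv]
      exact mul_le_mul_of_nonneg_right (Nat.le_ceil _) (by positivity)
  refine Le.of2 hl.ful h1 (Eventually.of_forall fun n => ?_)
  have h2 := ch_drop (P := P n) (fun ω => fl1 (M n) (x n ω)) (fun ω => fl1 (k n) (c n ω))
    fun ω => (u n ω, α n ω, β n ω, G n ω)
  have h3 : ch (P n) (fun ω => fl1 (M n) (x n ω))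
      (fun ω => (fl1 (k n) (c n ω), u n ω, α n ω, β n ω, G n ω)) ≤
      ch (P n) (fun ω => fl1 (M n) (x n ω)) fun ω => (fl1 (k n) (c n ω), G n ω) :=
    ch_anti fun a _ b _ e => by simp only [Prod.mk.injEq] at e ⊢; tauto
  linarith

end Pool.Agent.MP_5168f5_an.R4.Web
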