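import Pool.Agent.MP_5168f5_an.R4.SpecW

/-! The potential of a web over a base of dimension three. -/

namespace Pool.Agent.MP_5168f5_an.R4.Web

open H19 H17S H17F Filter NCx

namespace WPotA

theorem fmin {a b R : ℕ → ℕ} (h : Frac a R) (h' : Frac b R) :
    Frac (fun n => min (a n) (b n)) R := by
  obtain ⟨h1, c, hc, h2⟩ := h
  obtain ⟨-, c', hc', h3⟩ := h'
  refine ⟨fun n => (min_le_left _ _).trans (h1 n), min c c', lt_min hc hc', ?_⟩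
  filter_upwards [h2, h3] with n u v
  have r : (0 : ℝ) ≤ R n := Nat.cast_nonneg _
  rw [Nat.cast_min]
  exact le_min ((mul_le_mul_of_nonneg_right (min_le_left _ _) r).trans u)
    ((mul_le_mul_of_nonneg_right (min_le_right _ _) r).trans v)

theorem subAll {J : Type} [Fintype J] {M : ℕ → ℕ} (hM : Big M) (L : J → ℕ → ℝ)
    (h : ∀ j, Sub M (L j)) : ∃ B, Sub M B ∧ ∀ j n, L j n ≤ B n := by
  classical
  have k : ∀ T : Finset J, Sub M fun n => 1 + ∑ j ∈ T, L j n := by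
    intro T
    induction T using Finset.induction_on with
    | empty => simpa using hM.sub le_rfl
    | insert j T hj ih =>
      have := (h j).add ih hM
      simp only [Finset.sum_insert hj]
      exact this.mono (fun n => by linarith [ih.1 n, (h j).1 n])
        (Eventually.of_forall fun n => by linarith)
  refine ⟨_, k Finset.univ, fun j n => ?_⟩
  have := Finset.single_le_sum (f := fun j => L j n) (fun j _ => ((h j).pos n).le)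
    (Finset.mem_univ j)
  linarith

theorem dv {L B : ℝ} {k k' : ℕ} (h0 : 0 ≤ B) (h : L ≤ B) (e : k' ≤ k) : L / 2 ^ k ≤ B / 2 ^ k' :=
  (div_le_div_of_nonneg_right h (by positivity)).trans
    (div_le_div_of_nonneg_left h0 (by positivity) (pow_le_pow_right₀ one_le_two e))

/-- The two coefficients of a curve are close to polynomials. -/
def Q (L : ℝ) (k : ℕ) (J : Fin 2 → Fin 3 → Fin 3 → ℝ) (α β y z : ℝ) : Prop :=
  (∀ p i j, |J p i j| ≤ L) ∧ |α - bq (J 0) y z| ≤ L / 2 ^ k ∧ |β - bq (J 1) y z| ≤ L / 2 ^ k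

theorem Q.mono {L B : ℝ} {k k' : ℕ} {J : Fin 2 → Fin 3 → Fin 3 → ℝ} {α β y z : ℝ}
    (q : Q L k J α β y z) (h0 : 0 ≤ B) (h : L ≤ B) (e : k' ≤ k) : Q B k' J α β y z :=
  ⟨fun p i j => (q.1 p i j).trans h, q.2.1.trans (dv h0 h e), q.2.2.trans (dv h0 h e)⟩

theorem pw {z B : ℝ} (hB : 1 ≤ B) (hz : |z| ≤ B) (j : Fin 3) : |z ^ (j : ℕ)| ≤ B ^ 2 := by
  rw [abs_pow]
  exact (pow_le_pow_left₀ (abs_nonneg _) hz _).trans
    (pow_le_pow_right₀ hB (Nat.lt_succ_iff.1 j.2))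

theorem s3 {c : Fin 3 → ℝ} {z e B : ℝ} (hB : 1 ≤ B) (hz : |z| ≤ B) (hc : ∀ j, |c j| ≤ e) :
    |∑ j, c j * z ^ (j : ℕ)| ≤ 3 * (e * B ^ 2) := by
  refine (Finset.abs_sum_le_sum_abs _ _).trans ?_
  refine (Finset.sum_le_card_nsmul _ _ (e * B ^ 2) fun j _ => ?_).trans (by simp)
  rw [abs_mul]
  exact mul_le_mul (hc j) (pw hB hz j) (abs_nonneg _) ((abs_nonneg _).trans (hc j))

theorem bq1 (C : Fin 3 → Fin 3 → ℝ) (y z : ℝ) :
    bq C y z = ∑ i, (∑ j, C i j * z ^ (j : ℕ)) * y ^ (i : ℕ) := by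
  simp only [bq, Fin.sum_univ_three]; ring

theorem bq2 (C : Fin 3 → Fin 3 → ℝ) (z x : ℝ) :
    bq C z x = ∑ i, (∑ j, C j i * z ^ (j : ℕ)) * x ^ (i : ℕ) := by
  simp only [bq, Fin.sum_univ_three]; ring

theorem bqd {C D : Fin 3 → Fin 3 → ℝ} {y z e B : ℝ} (hB : 1 ≤ B) (hy : |y| ≤ B) (hz : |z| ≤ B)
    (h : ∀ i j, |D i j - C i j| ≤ e) : |bq D y z - bq C y z| ≤ 9 * (e * B ^ 4) := by
  have e1 : bq D y z - bq C y z = bq (fun i j => D i j - C i j) y z := by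
    simp only [bq, Fin.sum_univ_three]; ring
  rw [e1, bq1]
  exact (s3 hB hy fun i => s3 hB hz (h i)).trans (le_of_eq (by ring))

theorem line {B x y z φ u α β : ℝ} {k : ℕ} {J D : Fin 2 → Fin 3 → Fin 3 → ℝ} (hB : 1 ≤ B)
    (hx : |x| ≤ B) (hy : |y| ≤ B) (hz : |z| ≤ B)
    (hφ : |φ - (u + α * x + β * x ^ 2)| ≤ B / 2 ^ k) (q : Q B k J α β y z)
    (hD : ∀ p i j, |D p i j - J p i j| ≤ B / 2 ^ k) :
    |φ - u - (x * bq (D 0) y z + x ^ 2 * bq (D 1) y z)| ≤ 21 * B ^ 7 / 2 ^ k := by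
  obtain ⟨-, q1, q2⟩ := q
  have e7 : 21 * B ^ 7 / 2 ^ k = 21 * (B / 2 ^ k * B ^ 6) := by ring
  rw [e7]
  generalize hE : B / 2 ^ k = e at *
  have he : 0 ≤ e := (abs_nonneg _).trans hφ
  have p4 : e ≤ e * B ^ 4 := le_mul_of_one_le_right he (one_le_pow₀ hB)
  have p6 : e ≤ e * B ^ 6 := le_mul_of_one_le_right he (one_le_pow₀ hB)
  have k0 : ∀ (a : ℝ) (p : Fin 2) (j : Fin 3), |a - bq (J p) y z| ≤ e →
      |(a - bq (D p) y z) * x ^ (j : ℕ)| ≤ 10 * (e * B ^ 6) := fun a p j ha => by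
    have h1 := bqd hB hy hz (hD p)
    have h2 : |a - bq (D p) y z| ≤ 10 * (e * B ^ 4) := by
      rw [abs_le] at *; constructor <;> linarith [h1.1, h1.2, ha.1, ha.2]
    rw [abs_mul]
    exact (mul_le_mul h2 (pw hB hx j) (abs_nonneg _) (by positivity)).trans (le_of_eq (by ring))
  have k1 := k0 α 0 1 q1
  have k2 := k0 β 1 2 q2
  simp only [Fin.val_one, Fin.val_two, pow_one] at k1 k2
  rw [abs_le] at *
  constructor <;> linarith [k1.1, k1.2, k2.1, k2.2, hφ.1, hφ.2]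

/-- The coefficients of the potential. -/
def pc (J₁ J₂ J₃ : Fin 2 → Fin 3 → Fin 3 → ℝ) : Fin 3 → Fin 3 → Fin 3 → ℝ :=
  Matrix.vecCons (Matrix.vecCons (Matrix.vecCons 0 fun l => J₃ l 0 0) fun j l => J₂ j l 0) J₁

theorem fin {B x y z φ u α β u' α' β' u'' α'' β'' : ℝ} {k : ℕ}
    {J₁ J₂ J₃ : Fin 2 → Fin 3 → Fin 3 → ℝ} (hB : 1 ≤ B)
    (hx : |x| ≤ B) (hy : |y| ≤ B) (hz : |z| ≤ B)
    (h1 : |φ - (u + α * x + β * x ^ 2)| ≤ B / 2 ^ k)
    (h2 : |φ - (u' + α' * y + β' * y ^ 2)| ≤ B / 2 ^ k)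
    (h3 : |φ - (u'' + α'' * z + β'' * z ^ 2)| ≤ B / 2 ^ k)
    (q1 : Q B k J₁ α β y z) (q2 : Q B k J₂ α' β' z x) (q3 : Q B k J₃ α'' β'' x y)
    (c1 : ∀ (p q : Fin 2) j, |J₁ p q.succ j - J₂ q j p.succ| ≤ B / 2 ^ k)
    (c2 : ∀ (p q : Fin 2) j, |J₂ p q.succ j - J₃ q j p.succ| ≤ B / 2 ^ k)
    (c3 : ∀ (p q : Fin 2) j, |J₃ p q.succ j - J₁ q j p.succ| ≤ B / 2 ^ k) :
    (∀ i j l, |pc J₁ J₂ J₃ i j l| ≤ 21 * B ^ 7) ∧
    |φ - tq (pc J₁ J₂ J₃) x y z - (u - tq (pc J₁ J₂ J₃) 0 y z)| ≤ 21 * B ^ 7 / 2 ^ k ∧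
    |φ - tq (pc J₁ J₂ J₃) x y z - (u' - tq (pc J₁ J₂ J₃) x 0 z)| ≤ 21 * B ^ 7 / 2 ^ k ∧
    |φ - tq (pc J₁ J₂ J₃) x y z - (u'' - tq (pc J₁ J₂ J₃) x y 0)| ≤ 21 * B ^ 7 / 2 ^ k := by
  have e0 : 0 ≤ B / 2 ^ k := by positivity
  have b7 : B ≤ 21 * B ^ 7 := by
    have : B ^ 1 ≤ B ^ 7 := pow_le_pow_right₀ hB (by norm_num)
    have : 0 ≤ B ^ 7 := by positivity
    linarith
  refine ⟨fun i j l => le_trans ?_ b7, ?_, ?_, ?_⟩
  · refine Fin.cases ?_ (fun i => q1.1 i j l) i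
    refine Fin.cases ?_ (fun j => q2.1 j l 0) j
    refine Fin.cases ?_ (fun l => q3.1 l 0 0) l
    simp only [pc, Matrix.cons_val_zero, abs_zero]
    linarith
  · refine le_trans (le_of_eq (congrArg _ ?_)) (line (D := fun p j l => pc J₁ J₂ J₃ p.succ j l)
      hB hx hy hz h1 q1 fun p i j => by simpa [pc] using e0)
    generalize pc J₁ J₂ J₃ = C
    simp [tq, bq, Fin.sum_univ_three]; ring
  · refine le_trans (le_of_eq (congrArg _ ?_)) (line (D := fun p l i => pc J₁ J₂ J₃ i p.succ l)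
      hB hy hz hx h2 q2 fun p l i => ?_)
    · generalize pc J₁ J₂ J₃ = C
      simp [tq, bq, Fin.sum_univ_three]; ring
    · exact Fin.cases (by simpa [pc] using e0) (fun i => c1 i p l) i
  · refine le_trans (le_of_eq (congrArg _ ?_)) (line (D := fun p i j => pc J₁ J₂ J₃ i j p.succ)
      hB hz hx hy h3 q3 fun p i j => ?_)
    · generalize pc J₁ J₂ J₃ = C
      simp [tq, bq, Fin.sum_univ_three]; ring
    · refine Fin.cases ?_ (fun i => (abs_sub_comm _ _).trans_le (c3 p i j)) i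
      exact Fin.cases (by simpa [pc] using e0) (fun j => c2 j p 0) j

variable {Ω T T' Γ Γ' : ℕ → Type} {P : ∀ n, FP (Ω n)} {Θ : ∀ n, Ω n → T n}
  {Θ' : ∀ n, Ω n → T' n} {G : ∀ n, Ω n → Γ n} {G' : ∀ n, Ω n → Γ' n}
  {x y z φ u α β u' α' β' u'' α'' β'' : RV Ω} {M R k : ℕ → ℕ} {ε₀ : ℝ}

theorem ful_side (h : Ful P x G M) (s : Sm M fun n => ch (P n) (G' n) (G n)) : Ful P x G' M :=
  Le.of2 h s (Eventually.of_forall fun n => by
    linarith [ch_tri' (P := P n) (fun ω => fl1 (M n) (x n ω)) (G n) (G' n)])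

theorem ln_side (h : Ln P x G φ u α β M R) (e : ∀ n, Fn (P n) (G n) (G' n))
    (s : Sm M fun n => ch (P n) (G' n) (G n)) : Ln P x G' φ u α β M R :=
  ⟨h.grid, h.bd, ful_side h.ful (s.mono (Eventually.of_forall fun n => ch_le
    (fun a _ b _ e => by simp only [Prod.mk.injEq] at e ⊢; tauto)
    fun a _ b _ e => by simp only [Prod.mk.injEq] at e; tauto)),
    h.sv.mono (Eventually.of_forall fun n => ch_anti (e n))⟩

theorem ln_two (h : Ln P x (fun n ω => (y n ω, z n ω, Θ n ω)) φ u α β M R)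
    (e : ∀ n, Fn (P n) (Θ n) (Θ' n)) (s : Sm M fun n => ch (P n) (Θ' n) (Θ n)) :
    Ln P x (fun n ω => (y n ω, z n ω, Θ' n ω)) φ u α β M R :=
  ln_side h (fun n => (Fn.fst _ _).pair (((Fn.fst _ _).pair ((e n).right _)).right _))
    (s.mono (Eventually.of_forall fun n => ch_le
      (fun a _ b _ e => by simp only [Prod.mk.injEq] at e ⊢; tauto)
      fun a _ b _ e => by simp only [Prod.mk.injEq] at e; tauto))

theorem sm_fn (e : ∀ n, Fn (P n) (G' n) (G n)) : Sm M fun n => ch (P n) (G' n) (G n) :=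
  Le.of_le fun n => (ch_zero (e n)).le

theorem cyc (w : W3 P Θ x y z φ u α β u' α' β' u'' α'' β'' M R ε₀) :
    W3 P Θ y z x φ u' α' β' u'' α'' β'' u α β M R ε₀ :=
  ⟨w.big, w.frac, w.pos, w.le, w.l2, w.l3, w.l1, w.ng.side (Eventually.of_forall
    fun n a _ b _ e => by simp only [Prod.mk.injEq] at e ⊢; tauto)⟩

theorem side (w : W3 P Θ x y z φ u α β u' α' β' u'' α'' β'' M R ε₀)
    (e : ∀ n, Fn (P n) (Θ n) (Θ' n)) (s : Sm M fun n => ch (P n) (Θ' n) (Θ n)) :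
    W3 P Θ' x y z φ u α β u' α' β' u'' α'' β'' M R ε₀ :=
  ⟨w.big, w.frac, w.pos, w.le, ln_two w.l1 e s, ln_two w.l2 e s, ln_two w.l3 e s,
    w.ng.side (Eventually.of_forall fun n => (Fn.fst _ _).pair (((Fn.fst _ _).pair
      (((Fn.fst _ _).pair ((e n).right _)).right _)).right _))⟩

theorem clo (hS : Spr) (hC : Clo) (w : W3 P Θ x y z φ u α β u' α' β' u'' α'' β'' M R ε₀)
    {J₁ J₂ : ∀ n, Ω n → Fin 2 → Fin 3 → Fin 3 → ℝ} (f1 : ∀ n, Fn (P n) (J₁ n) (Θ n))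
    (f2 : ∀ n, Fn (P n) (J₂ n) (Θ n)) (hk : Frac k R) {L : ℕ → ℝ} (hL : Sub M L)
    (q1 : Whp P fun n ω => Q (L n) (k n) (J₁ n ω) (α n ω) (β n ω) (y n ω) (z n ω))
    (q2 : Whp P fun n ω => Q (L n) (k n) (J₂ n ω) (α' n ω) (β' n ω) (z n ω) (x n ω)) :
    ∃ B, Sub M B ∧ Whp P fun n ω => ∀ (p q : Fin 2) j,
      |J₁ n ω p q.succ j - J₂ n ω q j p.succ| ≤ B n / 2 ^ k n := by
  obtain ⟨Z, hZ, hz⟩ := w.l3.grid
  have sw : ∀ n, Fn (P n) (fun ω => (z n ω, x n ω, Θ n ω)) fun ω => (x n ω, z n ω, Θ n ω) :=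
    fun n a _ b _ e => by simp only [Prod.mk.injEq] at e ⊢; tauto
  have sw' : ∀ n, Fn (P n) (fun ω => (x n ω, z n ω, Θ n ω)) fun ω => (z n ω, x n ω, Θ n ω) :=
    fun n a _ b _ e => by simp only [Prod.mk.injEq] at e ⊢; tauto
  obtain ⟨A, hA, c⟩ := hC P (fun n ω => (z n ω, Θ n ω)) y x φ u α β u' α' β'
    (fun n ω p i => ∑ j, J₁ n ω p i j * z n ω ^ (j : ℕ))
    (fun n ω q i => ∑ j, J₂ n ω q j i * z n ω ^ (j : ℕ)) M R k
    (fun n => 3 * (L n * Z n ^ 2)) ε₀ w.big w.frac hk w.pos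
    ((hL.mul (hZ.pow 2)).const_mul w.big (by norm_num)) w.l1 (ln_side w.l2 sw (sm_fn sw'))
    (w.ng.side (Eventually.of_forall fun n a _ b _ e => by
      simp only [Prod.mk.injEq] at e ⊢; tauto))
    (Eventually.of_forall fun n => ⟨fun a ha b hb e => by
      simp only [f1 n a ha b hb (Prod.mk.inj e).2, (Prod.mk.inj e).1], fun a ha b hb e => by
      simp only [f2 n a ha b hb (Prod.mk.inj e).2, (Prod.mk.inj e).1]⟩)
    ((q1.and q2).mono (hz.mono fun n hn ω hω h => by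
      have l3 : L n ≤ 3 * (L n * Z n ^ 2) := by
        have := le_mul_of_one_le_right (hL.pos n).le (one_le_pow₀ (n := 2) (hZ.1 n))
        linarith [hL.pos n]
      have r1 := h.1.mono ((hL.pos n).le.trans l3) l3 le_rfl
      have r2 := h.2.mono ((hL.pos n).le.trans l3) l3 le_rfl
      refine ⟨fun p i => ⟨s3 (hZ.1 n) (hn.2 ω hω) (h.1.1 p i),
        s3 (hZ.1 n) (hn.2 ω hω) fun j => h.2.1 p j i⟩, ?_, ?_, ?_, ?_⟩
      · rw [← bq1]; exact r1.2.1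
      · rw [← bq1]; exact r1.2.2
      · rw [← bq2]; exact r2.2.1
      · rw [← bq2]; exact r2.2.2))
  have fz : Ful P z Θ M := ful_side w.l3.ful (sm_fn fun n a _ b _ e => by
    simp only [Prod.mk.injEq] at e; tauto)
  have k1 := fun pq : Fin 2 × Fin 2 => hS 2 P z Θ
    (fun n ω j => J₁ n ω pq.1 pq.2.succ j - J₂ n ω pq.2 j pq.1.succ) M Z w.big hZ
    (hz.mono fun n hn => ⟨fun a ha b hb e => by
      simp only [f1 n a ha b hb e, f2 n a ha b hb e], hn.2⟩) fz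
  choose S hS1 hS2 using k1
  obtain ⟨B, hB, hSB⟩ := subAll w.big S hS1
  refine ⟨_, hB.mul hA, ((Whp.all hS2).and c).mono
    (Eventually.of_forall fun n ω _ h p q j => (h.1 (p, q) j).trans ?_)⟩
  rw [mul_div_assoc]
  refine mul_le_mul (hSB _ n) (le_trans (le_of_eq (congrArg _ ?_)) (h.2 p q)) (abs_nonneg _)
    (hB.pos n).le
  simp only [sub_mul, Finset.sum_sub_distrib]

end WPotA

open WPotA in
theorem rowPot : OfPot := by
  intro hS hT hC Ω T P Θ x y z φ u α β u' α' β' u'' α'' β'' M R ε₀ w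
  obtain ⟨k1, hk1, J₁, L1, hL1, s1, q1⟩ := hT P Θ _ _ _ _ _ _ _ _ _ _ _ _ _ M R ε₀ w
  obtain ⟨k2, hk2, J₂, L2, hL2, s2, q2⟩ := hT P Θ _ _ _ _ _ _ _ _ _ _ _ _ _ M R ε₀ (cyc w)
  obtain ⟨k3, hk3, J₃, L3, hL3, s3, q3⟩ := hT P Θ _ _ _ _ _ _ _ _ _ _ _ _ _ M R ε₀ (cyc (cyc w))
  have hk := fmin hk1 (fmin hk2 hk3)
  have s : Sm M fun n => ch (P n) (fun ω => (J₁ n ω, J₂ n ω, J₃ n ω)) (Θ n) :=
    (s1.add (s2.add s3)).mono (Eventually.of_forall fun n =>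
      (ch_subadd _ _ _).trans (add_le_add le_rfl (ch_subadd _ _ _)))
  have w' := side (Θ' := fun n ω => ((J₁ n ω, J₂ n ω, J₃ n ω), Θ n ω)) w (fun n => Fn.snd _ _)
    (s.mono (Eventually.of_forall fun n => ch_mono (Fn.rfl _)))
  obtain ⟨L, hL, hLj⟩ := subAll w.big ![L1, L2, L3] fun j => by fin_cases j <;> assumption
  have r1 : Whp P fun n ω => Q (L n) (min (k1 n) (min (k2 n) (k3 n))) (J₁ n ω) (α n ω) (β n ω)
      (y n ω) (z n ω) := q1.mono (Eventually.of_forall fun n ω _ h =>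
    Q.mono h (hL.pos n).le (hLj 0 n) (min_le_left _ _))
  have r2 : Whp P fun n ω => Q (L n) (min (k1 n) (min (k2 n) (k3 n))) (J₂ n ω) (α' n ω) (β' n ω)
      (z n ω) (x n ω) := q2.mono (Eventually.of_forall fun n ω _ h =>
    Q.mono h (hL.pos n).le (hLj 1 n) ((min_le_right _ _).trans (min_le_left _ _)))
  have r3 : Whp P fun n ω => Q (L n) (min (k1 n) (min (k2 n) (k3 n))) (J₃ n ω) (α'' n ω)
      (β'' n ω) (x n ω) (y n ω) := q3.mono (Eventually.of_forall fun n ω _ h =>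
    Q.mono h (hL.pos n).le (hLj 2 n) ((min_le_right _ _).trans (min_le_right _ _)))
  have f1 : ∀ n, Fn (P n) (J₁ n) fun ω => ((J₁ n ω, J₂ n ω, J₃ n ω), Θ n ω) :=
    fun n => (Fn.fst _ _).left _
  have f2 : ∀ n, Fn (P n) (J₂ n) fun ω => ((J₁ n ω, J₂ n ω, J₃ n ω), Θ n ω) :=
    fun n => ((Fn.fst _ _).right _).left _
  have f3 : ∀ n, Fn (P n) (J₃ n) fun ω => ((J₁ n ω, J₂ n ω, J₃ n ω), Θ n ω) :=
    fun n => ((Fn.snd _ _).right _).left _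
  obtain ⟨A1, hA1, c1⟩ := clo hS hC w' f1 f2 hk hL r1 r2
  obtain ⟨A2, hA2, c2⟩ := clo hS hC (cyc w') f2 f3 hk hL r2 r3
  obtain ⟨A3, hA3, c3⟩ := clo hS hC (cyc (cyc w')) f3 f1 hk hL r3 r1
  obtain ⟨X, hX, gx⟩ := w.l1.grid
  obtain ⟨Y, hY, gy⟩ := w.l2.grid
  obtain ⟨Z, hZ, gz⟩ := w.l3.grid
  obtain ⟨B1, hB1, b1⟩ := w.l1.bd
  obtain ⟨B2, hB2, b2⟩ := w.l2.bd
  obtain ⟨B3, hB3, b3⟩ := w.l3.bd
  obtain ⟨B, hB, hj⟩ := subAll w.big ![L, A1, A2, A3, X, Y, Z, B1, B2, B3] fun j => by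
    fin_cases j <;> assumption
  refine ⟨_, hk, fun n ω => pc (J₁ n ω) (J₂ n ω) (J₃ n ω), fun n => 21 * B n ^ 7,
    (hB.pow 7).const_mul w.big (by norm_num), s.mono (Eventually.of_forall fun n => ch_mono
      fun a _ b _ e => by simp only [Prod.mk.injEq] at e; simp only [e.1.1, e.1.2.1, e.1.2.2]),
    ((r1.and (r2.and r3)).and (c1.and (c2.and c3))).mono ?_⟩
  filter_upwards [gx, gy, gz, b1, b2, b3] with n gx gy gz b1 b2 b3 ω hω h
  have h0 := (hB.pos n).le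
  exact fin (hB.1 n) ((gx.2 ω hω).trans (hj 4 n)) ((gy.2 ω hω).trans (hj 5 n))
    ((gz.2 ω hω).trans (hj 6 n)) ((b1 ω hω).2.2.2.2.trans (dv h0 (hj 7 n) (hk.1 n)))
    ((b2 ω hω).2.2.2.2.trans (dv h0 (hj 8 n) (hk.1 n)))
    ((b3 ω hω).2.2.2.2.trans (dv h0 (hj 9 n) (hk.1 n)))
    (h.1.1.mono h0 (hj 0 n) le_rfl) (h.1.2.1.mono h0 (hj 0 n) le_rfl)
    (h.1.2.2.mono h0 (hj 0 n) le_rfl)
    (fun p q j => (h.2.1 p q j).trans (dv h0 (hj 1 n) le_rfl))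
    (fun p q j => (h.2.2.1 p q j).trans (dv h0 (hj 2 n) le_rfl))
    fun p q j => (h.2.2.2 p q j).trans (dv h0 (hj 3 n) le_rfl)

end Pool.Agent.MP_5168f5_an.R4.Web
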