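import Pool.Agent.MP_5168f5_an.R4.SpecW

/-! The potential of a planar web. -/

namespace Pool.Agent.MP_5168f5_an.R4.Web

open H19 H17S H17F Filter NCx

namespace WPot2A

variable {Ω T Γ Γ' D : ℕ → Type} {P : ∀ n, FP (Ω n)} {M R : ℕ → ℕ}

theorem ful_add {x : RV Ω} {G : ∀ n, Ω n → Γ n} {G' : ∀ n, Ω n → Γ' n} {C : ∀ n, Ω n → D n}
    (h : Ful P x G M) (hC : Sm M fun n => ch (P n) (C n) (G n))
    (e : ∀ n, Fn (P n) (G' n) fun ω => (C n ω, G n ω)) : Ful P x G' M := by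
  refine Le.of2 h hC (Eventually.of_forall fun n => ?_)
  have a1 := ch_drop (P := P n) (fun ω => fl1 (M n) (x n ω)) (C n) (G n)
  have a2 := ch_anti (F := fun ω => fl1 (M n) (x n ω)) (e n)
  linarith

theorem ln_add {x y φ u α β : RV Ω} {Θ : ∀ n, Ω n → T n} {C : ∀ n, Ω n → D n}
    (h : Ln P x (fun n ω => (y n ω, Θ n ω)) φ u α β M R)
    (hC : Sm M fun n => ch (P n) (C n) (Θ n)) :
    Ln P x (fun n ω => (y n ω, C n ω, Θ n ω)) φ u α β M R where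
  grid := h.grid
  bd := h.bd
  ful := ful_add h.ful (C := C) (hC.mono (Eventually.of_forall fun n =>
      ch_anti fun _ _ _ _ e => congrArg (·.2.2.2.2) e)) fun n a _ b _ e => by
    simp only [Prod.mk.injEq] at e ⊢; tauto
  sv := h.sv.mono (Eventually.of_forall fun n => ch_anti fun a _ b _ e => by
    simp only [Prod.mk.injEq] at e ⊢; tauto)

theorem frac_min {k k' : ℕ → ℕ} (h : Frac k R) (h' : Frac k' R) :
    Frac (fun n => min (k n) (k' n)) R := by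
  obtain ⟨h1, c, hc, e⟩ := h
  obtain ⟨-, c', hc', e'⟩ := h'
  refine ⟨fun n => (min_le_left _ _).trans (h1 n), min c c', lt_min hc hc', ?_⟩
  filter_upwards [e, e'] with n a b
  rw [Nat.cast_min]
  exact le_min ((mul_le_mul_of_nonneg_right (min_le_left _ _) (Nat.cast_nonneg _)).trans a)
    ((mul_le_mul_of_nonneg_right (min_le_right _ _) (Nat.cast_nonneg _)).trans b)

theorem dv {x L Λ : ℝ} {k k' : ℕ} (h : |x| ≤ L / 2 ^ k') (hL : L ≤ Λ) (h0 : 0 ≤ Λ) (hk : k ≤ k') :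
    |x| ≤ Λ / 2 ^ k :=
  h.trans (div_le_div₀ h0 hL (by positivity) (pow_le_pow_right₀ one_le_two hk))

theorem mon {a b x Λ e : ℝ} (ha : |a| ≤ Λ) (hb : |b| ≤ Λ) (h1 : 1 ≤ Λ) (i j : ℕ) (h : i + j ≤ 4)
    (hx : |x| ≤ e) : -(Λ ^ 4 * e) ≤ a ^ i * b ^ j * x ∧ a ^ i * b ^ j * x ≤ Λ ^ 4 * e := by
  rw [← abs_le, abs_mul, abs_mul, abs_pow, abs_pow]
  refine mul_le_mul ?_ hx (abs_nonneg _) (by positivity)
  calc _ ≤ Λ ^ i * Λ ^ j := by gcongr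
    _ ≤ _ := by rw [← pow_add]; exact pow_le_pow_right₀ h1 h

/-- The coefficients of the curves along `b` are quadratic in `a`. -/
theorem half (hS : Spr) (hT : TStep) (hR : Rect) {Θ : ∀ n, Ω n → T n}
    {a b φ u α β u' α' β' : RV Ω} {ε₀ : ℝ} (hM : Big M) (hf : Frac R M) (h0 : 0 < ε₀)
    (h1 : ε₀ ≤ 1) (l1 : Ln P b (fun n ω => (a n ω, Θ n ω)) φ u α β M R)
    (l2 : Ln P a (fun n ω => (b n ω, Θ n ω)) φ u' α' β' M R)
    (ng : NG1 P (fun n ω => (b n ω, a n ω, Θ n ω)) φ R ε₀) :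
    ∃ k, Frac k R ∧ Fit P Θ M fun n L (A : Fin 2 → Fin 3 → ℝ) ω => (∀ p i, |A p i| ≤ L) ∧
      |α n ω - ∑ i, A 0 i * a n ω ^ (i : ℕ)| ≤ L / 2 ^ k n ∧
      |β n ω - ∑ i, A 1 i * a n ω ^ (i : ℕ)| ≤ L / 2 ^ k n := by
  obtain ⟨k, hk, r1⟩ := hR P Θ b a φ u' α' β' u α β M R ε₀ hM hf h0 h1 l2 l1 ng
  obtain ⟨L0, s0, b0⟩ := l1.bd
  have r2 : Rep P (fun n ω => (a n ω, Θ n ω)) M (fun n ω => α n ω + 2 * β n ω * b n ω)
      (fun (i : Fin 2) n ω => b n ω ^ (i : ℕ)) k := by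
    refine ⟨fun n ω => ![α n ω, 2 * β n ω], fun n => 2 * L0 n, s0.const_mul hM one_le_two,
      l1.sv.mono (Eventually.of_forall fun n => ch_mono fun a _ b _ e => ?_),
      Whp.of_ev (b0.mono fun n h ω hω => ⟨?_, fun i => ?_⟩)⟩
    · simp only [Prod.mk.injEq] at e
      simp only [e.1.1, e.1.2]
    · have := s0.pos n
      simp only [Fin.sum_univ_two, Matrix.cons_val_zero, Matrix.cons_val_one, Fin.val_zero,
        Fin.val_one, pow_zero, pow_one, mul_one, sub_self, abs_zero]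
      positivity
    · obtain ⟨-, -, c1, c2, -⟩ := h ω hω
      fin_cases i
      · exact c1.trans (by linarith [s0.pos n])
      · change |2 * β n ω| ≤ _
        rw [abs_mul, abs_two]; linarith
  obtain ⟨C, L, sL, hC, hw⟩ := hT P a (fun n ω => α n ω + 2 * β n ω * b n ω) b Θ
    (fun (i : Fin 2) _ y => y ^ (i : ℕ)) M k hM l2.grid
    (l2.ful.of_sub (Eventually.of_forall fun n => sub_le_sub_left
      (ch_anti fun _ _ _ _ e => congrArg (·.2.2.2) e) _)) r1 r2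
  obtain ⟨Lb, sb, hb⟩ := l1.grid
  obtain ⟨L', sL', hw'⟩ := hS 1 P b (fun n ω => (C n ω, u n ω, α n ω, β n ω, a n ω, Θ n ω))
    (fun n ω => ![α n ω - ∑ i, C n ω (i, 0) * a n ω ^ (i : ℕ),
      2 * β n ω - ∑ i, C n ω (i, 1) * a n ω ^ (i : ℕ)]) M Lb hM sb
    (hb.mono fun n h => ⟨fun x _ y _ e => by
      simp only [Prod.mk.injEq] at e
      simp only [e.1, e.2.2.1, e.2.2.2.1, e.2.2.2.2.1], h.2⟩)
    (ful_add l1.ful (C := C) (hC.mono (Eventually.of_forall fun n =>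
      ch_anti fun _ _ _ _ e => congrArg (·.2.2.2.2) e)) fun n => Fn.rfl _)
  refine ⟨k, hk, fun n ω => ![fun i => C n ω (i, 0), fun i => C n ω (i, 1) / 2],
    fun n => L' n * L n, sL'.mul sL, hC.mono (Eventually.of_forall fun n => ch_mono
      fun x _ y _ e => by simp only [Prod.mk.injEq] at e; simp only [e.1]),
    (hw.and hw').mono (Eventually.of_forall fun n ω _ ⟨⟨c1, c2⟩, c3⟩ => ?_)⟩
  have p1 := sL'.1 n
  have p2 := sL.pos n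
  have p3 : L n ≤ L' n * L n := le_mul_of_one_le_left p2.le p1
  have e1 : ∑ i : Fin (1 + 1), ![α n ω - ∑ i, C n ω (i, 0) * a n ω ^ (i : ℕ),
      2 * β n ω - ∑ i, C n ω (i, 1) * a n ω ^ (i : ℕ)] i * b n ω ^ (i : ℕ) =
      α n ω + 2 * β n ω * b n ω - ∑ p : Fin 3 × Fin 2,
        C n ω p * (a n ω ^ (p.1 : ℕ) * b n ω ^ (p.2 : ℕ)) := by
    simp [Fintype.sum_prod_type, Fin.sum_univ_succ]; ring
  rw [e1] at c3
  have c4 := fun j => (c3 j).trans (mul_le_mul_of_nonneg_left c1 (by linarith))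
  refine ⟨fun p i => ?_, ?_, ?_⟩
  · fin_cases p
    · exact (c2 _).trans p3
    · change |C n ω (i, 1) / 2| ≤ _
      rw [abs_div, abs_two]; linarith [c2 (i, 1)]
  · exact (c4 0).trans (le_of_eq (mul_div_assoc _ _ _).symm)
  · have c5 : |2 * β n ω - ∑ i, C n ω (i, 1) * a n ω ^ (i : ℕ)| ≤ _ := c4 1
    have e2 : 2 * β n ω - ∑ i, C n ω (i, 1) * a n ω ^ (i : ℕ) =
        2 * (β n ω - ∑ i : Fin 3, C n ω (i, 1) / 2 * a n ω ^ (i : ℕ)) := by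
      simp only [Fin.sum_univ_three]; ring
    rw [e2, abs_mul, abs_two, ← mul_div_assoc] at c5
    change |β n ω - ∑ i : Fin 3, C n ω (i, 1) / 2 * a n ω ^ (i : ℕ)| ≤ _
    linarith [abs_nonneg (β n ω - ∑ i : Fin 3, C n ω (i, 1) / 2 * a n ω ^ (i : ℕ))]

/-- The merged array. -/
def mg (A B : Fin 2 → Fin 3 → ℝ) : Fin 3 → Fin 3 → ℝ :=
  ![![0, A 0 0, A 1 0], ![B 0 0, A 0 1, A 1 1], ![B 1 0, A 0 2, A 1 2]]

theorem mg_le {A B : Fin 2 → Fin 3 → ℝ} {L : ℝ} (h0 : 0 ≤ L) (hA : ∀ p i, |A p i| ≤ L)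
    (hB : ∀ p i, |B p i| ≤ L) (i j : Fin 3) : |mg A B i j| ≤ L := by
  fin_cases i <;> fin_cases j <;> simp [mg, h0, hA, hB]

theorem fin {A B : Fin 2 → Fin 3 → ℝ} {a b φ u α β u' α' β' Λ e : ℝ} (ha : |a| ≤ Λ) (hb : |b| ≤ Λ)
    (h1 : 1 ≤ Λ) (c1 : |φ - (u + α * b + β * b ^ 2)| ≤ e) (c2 : |φ - (u' + α' * a + β' * a ^ 2)| ≤ e)
    (c3 : |α - ∑ i, A 0 i * a ^ (i : ℕ)| ≤ e) (c4 : |β - ∑ i, A 1 i * a ^ (i : ℕ)| ≤ e)
    (c5 : |α' - ∑ i, B 0 i * b ^ (i : ℕ)| ≤ e) (c6 : |β' - ∑ i, B 1 i * b ^ (i : ℕ)| ≤ e)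
    (c7 : ∀ p q : Fin 2, |A p q.succ - B q p.succ| ≤ e) :
    |φ - bq (mg A B) a b - (u - bq (mg A B) a 0)| ≤ 7 * (Λ ^ 4 * e) ∧
      |φ - bq (mg A B) a b - (u' - bq (mg A B) 0 b)| ≤ 7 * (Λ ^ 4 * e) := by
  have m := fun i j h {x : ℝ} (hx : |x| ≤ e) => mon ha hb h1 i j h hx
  have d1 := m 0 0 (by norm_num) c1
  have d2 := m 0 0 (by norm_num) c2
  have d3 := m 0 1 (by norm_num) c3
  have d4 := m 0 2 (by norm_num) c4
  have d5 := m 1 0 (by norm_num) c5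
  have d6 := m 2 0 (by norm_num) c6
  have d7 := m 1 1 (by norm_num) (x := A 0 1 - B 0 1) (c7 0 0)
  have d8 := m 1 2 (by norm_num) (x := A 1 1 - B 0 2) (c7 1 0)
  have d9 := m 2 1 (by norm_num) (x := A 0 2 - B 1 1) (c7 0 1)
  have d10 := m 2 2 (by norm_num) (x := A 1 2 - B 1 2) (c7 1 1)
  have e1 : φ - bq (mg A B) a b - (u - bq (mg A B) a 0) =
      a ^ 0 * b ^ 0 * (φ - (u + α * b + β * b ^ 2)) +
      a ^ 0 * b ^ 1 * (α - ∑ i, A 0 i * a ^ (i : ℕ)) +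
      a ^ 0 * b ^ 2 * (β - ∑ i, A 1 i * a ^ (i : ℕ)) := by
    simp [bq, mg, Fin.sum_univ_three]; ring
  have e2 : φ - bq (mg A B) a b - (u' - bq (mg A B) 0 b) =
      a ^ 0 * b ^ 0 * (φ - (u' + α' * a + β' * a ^ 2)) +
      a ^ 1 * b ^ 0 * (α' - ∑ i, B 0 i * b ^ (i : ℕ)) +
      a ^ 2 * b ^ 0 * (β' - ∑ i, B 1 i * b ^ (i : ℕ)) - a ^ 1 * b ^ 1 * (A 0 1 - B 0 1) -
      a ^ 1 * b ^ 2 * (A 1 1 - B 0 2) - a ^ 2 * b ^ 1 * (A 0 2 - B 1 1) -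
      a ^ 2 * b ^ 2 * (A 1 2 - B 1 2) := by
    simp [bq, mg, Fin.sum_univ_three]; ring
  rw [e1, e2, abs_le, abs_le]
  refine ⟨⟨?_, ?_⟩, ?_, ?_⟩ <;> linarith [d1.1, d1.2, d2.1, d2.2, d3.1, d3.2, d4.1, d4.2, d5.1,
    d5.2, d6.1, d6.2, d7.1, d7.2, d8.1, d8.2, d9.1, d9.2, d10.1, d10.2]

end WPot2A

open WPot2A in
theorem rowPot2 : OfPot2 := by
  intro hS hT hR hC Ω T P Θ a b φ u α β u' α' β' M R ε₀ hM hf h0 h1 l1 l2 ng
  obtain ⟨k1, f1, A, L1, s1, a1, w1⟩ := half hS hT hR hM hf h0 h1 l1 l2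
    (ng.side (Eventually.of_forall fun n x _ y _ e => by
      simp only [Prod.mk.injEq] at e ⊢; tauto))
  obtain ⟨k2, f2, B, L2, s2, a2, w2⟩ := half hS hT hR hM hf h0 h1 l2 l1 ng
  have fk := frac_min f1 f2
  have hAB : Sm M fun n => ch (P n) (fun ω => (A n ω, B n ω)) (Θ n) :=
    (a1.add a2).mono (Eventually.of_forall fun n => ch_subadd _ _ _)
  have w3 := (w1.and w2).mono (F := fun n ω =>
      (∀ p i, |A n ω p i| ≤ L1 n + L2 n ∧ |B n ω p i| ≤ L1 n + L2 n) ∧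
      |α n ω - ∑ i, A n ω 0 i * a n ω ^ (i : ℕ)| ≤ (L1 n + L2 n) / 2 ^ min (k1 n) (k2 n) ∧
      |β n ω - ∑ i, A n ω 1 i * a n ω ^ (i : ℕ)| ≤ (L1 n + L2 n) / 2 ^ min (k1 n) (k2 n) ∧
      |α' n ω - ∑ i, B n ω 0 i * b n ω ^ (i : ℕ)| ≤ (L1 n + L2 n) / 2 ^ min (k1 n) (k2 n) ∧
      |β' n ω - ∑ i, B n ω 1 i * b n ω ^ (i : ℕ)| ≤ (L1 n + L2 n) / 2 ^ min (k1 n) (k2 n))
    (Eventually.of_forall fun n ω _ ⟨⟨c1, c2, c3⟩, c4, c5, c6⟩ => by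
      have p1 := s1.pos n
      have p2 := s2.pos n
      exact ⟨fun p i => ⟨by linarith [c1 p i], by linarith [c4 p i]⟩,
        dv c2 (by linarith) (by linarith) (min_le_left _ _),
        dv c3 (by linarith) (by linarith) (min_le_left _ _),
        dv c5 (by linarith) (by linarith) (min_le_right _ _),
        dv c6 (by linarith) (by linarith) (min_le_right _ _)⟩)
  obtain ⟨L3, s3, w4⟩ := hC P (fun n ω => ((A n ω, B n ω), Θ n ω)) a b φ u α β u' α' β' A B M R _ _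
    ε₀ hM hf fk h0 (s1.add s2 hM) (ln_add l1 hAB) (ln_add l2 hAB)
    (ng.side (Eventually.of_forall fun n x _ y _ e => by
      simp only [Prod.mk.injEq] at e ⊢; tauto))
    (Eventually.of_forall fun n => ⟨(Fn.fst _ _).left _, (Fn.snd _ _).left _⟩) w3
  obtain ⟨L4, s4, b4⟩ := l1.bd
  obtain ⟨L5, s5, b5⟩ := l2.bd
  obtain ⟨L6, s6, b6⟩ := l1.grid
  obtain ⟨L7, s7, b7⟩ := l2.grid
  have sΛ := (((((s1.add s2 hM).add s3 hM).add s4 hM).add s5 hM).add s6 hM).add s7 hM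
  refine ⟨_, fk, fun n ω => mg (A n ω) (B n ω), _, (sΛ.pow 5).const_mul hM (C := 7) (by norm_num),
    hAB.mono (Eventually.of_forall fun n => ch_mono fun x _ y _ e => by
      simp only [Prod.mk.injEq] at e; simp only [e.1.1, e.1.2]), (w3.and w4).mono ?_⟩
  filter_upwards [b4, b5, b6, b7] with n d4 d5 d6 d7 ω hω ⟨⟨c1, c2, c3, c4, c5⟩, c6⟩
  have p : 1 ≤ L1 n + L2 n + L3 n + L4 n + L5 n + L6 n + L7 n := sΛ.1 n
  obtain ⟨Λ, hΛ⟩ : ∃ Λ, Λ = L1 n + L2 n + L3 n + L4 n + L5 n + L6 n + L7 n := ⟨_, rfl⟩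
  have q1 := s1.pos n
  have q2 := s2.pos n
  have q3 := s3.pos n
  have q4 := s4.pos n
  have q5 := s5.pos n
  have q6 := s6.pos n
  have q7 := s7.pos n
  rw [← hΛ] at p ⊢
  have p0 : 0 ≤ Λ := by linarith
  have p5 : Λ ≤ Λ ^ 5 := le_self_pow₀ p (by norm_num)
  have e : 7 * Λ ^ 5 / 2 ^ min (k1 n) (k2 n) = 7 * (Λ ^ 4 * (Λ / 2 ^ min (k1 n) (k2 n))) := by ring
  rw [e]
  exact ⟨mg_le (by positivity) (fun p i => by linarith [(c1 p i).1])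
    fun p i => by linarith [(c1 p i).2], fin (by linarith [d7.2 ω hω]) (by linarith [d6.2 ω hω]) p
    (dv (d4 ω hω).2.2.2.2 (by linarith) p0 (fk.1 n)) (dv (d5 ω hω).2.2.2.2 (by linarith) p0 (fk.1 n))
    (dv c2 (by linarith) p0 le_rfl) (dv c3 (by linarith) p0 le_rfl) (dv c4 (by linarith) p0 le_rfl)
    (dv c5 (by linarith) p0 le_rfl) fun p q => dv (c6 p q) (by linarith) p0 le_rfl⟩

end Pool.Agent.MP_5168f5_an.R4.Web
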