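import Pool.Agent.MP_5168f5_an.R4.WRectB

/-! In a planar web the slope of the columns is quadratic along the rows. -/

namespace Pool.Agent.MP_5168f5_an.R4.Web

open H19 H17S H17F Filter NCx

namespace WRectA

variable {Ω W Γ T : ℕ → Type} {P : ∀ n, FP (Ω n)} {M R s m : ℕ → ℕ} {ε₀ : ℝ}

theorem fit_of (cov : Cover) {A : Type} (d : A) {Q : ∀ n, FP (W n)} {π : ∀ n, W n → Ω n}
    (C : ∀ n, W n → A) {G : ∀ n, Ω n → Γ n} {Φ : ∀ n, ℝ → A → Ω n → Prop} {L : ℕ → ℝ} (hM : Big M)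
    (hL : Sub M L) (h1 : ∀ n, Law (Q n) (π n) (P n) id)
    (h2 : Sm M fun n => mi (Q n) (C n) (π n) fun v => G n (π n v))
    (h3 : Whp Q fun n v => Φ n (L n) (C n v) (π n v)) : Fit P G M Φ := by
  classical
  obtain ⟨L', S, a, b, c⟩ := cov P Q π C G (fun n => Φ n (L n)) M hM h1 h2 h3
  refine ⟨fun n ω => if h : ∃ c ∈ S n (G n ω), Φ n (L n) c ω then h.choose else d, L, hL,
    (a.add (hM.sub le_rfl) hM).log.mono (Eventually.of_forall fun n => ch_det fun x _ =>
      ⟨insert d (S n (G n x)), ?_, fun y _ e => ?_⟩),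
    c.mono (Eventually.of_forall fun n ω _ h => ?_)⟩
  · have : ((insert d (S n (G n x))).card : ℝ) ≤ (S n (G n x)).card + 1 := by
      exact_mod_cast Finset.card_insert_le _ _
    linarith [b n (G n x)]
  · rw [← e]
    beta_reduce
    split_ifs with h
    exacts [Finset.mem_insert_of_mem h.choose_spec.1, Finset.mem_insert_self _ _]
  · beta_reduce
    rw [dif_pos h]; exact h.choose_spec.2

theorem scale {G : ∀ n, Ω n → Γ n} {u : RV Ω} (h : NG1 P G u R ε₀) (hs : Frac m R)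
    (h2 : ∀ n, s n + m n ≤ R n) : NG1 P G (fun n ω => 2 ^ s n * u n ω) m ε₀ := by
  intro Ω' Q ρ β lam E h1 h3 h4
  refine ((h Ω' Q ρ (fun n => s n + β n) (fun n => s n + lam n) E h1 (fun n =>
    ⟨by linarith [(h3 n).1], by linarith [(h3 n).2, h2 n]⟩) h4).frac hs).congr
    (Eventually.of_forall fun n => ?_) (Eventually.of_forall fun n => ?_)
  · simp only [fl1_mul]
  · push_cast; ring

theorem num3 {l l' t x y b d e : ℝ} (hl : 1 ≤ l) (hl' : 1 ≤ l') (ht : 0 < t) (hb : |b| ≤ l)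
    (h1 : |d| ≤ l' / t) (h2 : |e| ≤ l' / t) (h : |y - (x + d * b + e * b ^ 2)| ≤ 8 * l ^ 2 / t) :
    |x - y| ≤ 10 * l ^ 2 * l' / t := by
  have b2 : |b ^ 2| ≤ l ^ 2 := by rw [abs_pow]; exact pow_le_pow_left₀ (abs_nonneg _) hb 2
  have a1 : |d * b| ≤ l' / t * l ^ 2 := by
    rw [abs_mul]; exact mul_le_mul h1 (by nlinarith) (abs_nonneg _) (by positivity)
  have a2 : |e * b ^ 2| ≤ l' / t * l ^ 2 := by
    rw [abs_mul]; exact mul_le_mul h2 b2 (abs_nonneg _) (by positivity)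
  have a3 : 8 * l ^ 2 / t ≤ 8 * l ^ 2 * l' / t :=
    div_le_div_of_nonneg_right (le_mul_of_one_le_right (by positivity) hl') ht.le
  rw [show 10 * l ^ 2 * l' / t = 8 * l ^ 2 * l' / t + 2 * (l' / t * l ^ 2) by ring]
  rw [abs_le] at h a1 a2 ⊢
  constructor <;> linarith [h.1, h.2, a1.1, a1.2, a2.1, a2.2]

theorem num4 {l l' τ b x y : ℝ} (hl : 1 ≤ l) (hl' : 1 ≤ l') (h : |τ| ≤ 3 * l ^ 2) (hb : |b| ≤ l)
    (hx : |x| ≤ l') (hy : |y| ≤ l') : |τ - b * (x + y * b)| ≤ 5 * l ^ 2 * l' := by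
  have a1 : |y * b| ≤ l' * l := by
    rw [abs_mul]; exact mul_le_mul hy hb (abs_nonneg _) (by linarith)
  have a2 : |b * (x + y * b)| ≤ l * (l' * l + l' * l) := by
    rw [abs_mul]
    exact mul_le_mul hb ((abs_add_le _ _).trans (add_le_add (by nlinarith) a1)) (abs_nonneg _)
      (by linarith)
  nlinarith [abs_sub τ (b * (x + y * b)), mul_le_mul_of_nonneg_left hl' (sq_nonneg l)]

/-- The strip form. -/
theorem mainS (cov : Cover) (den : DenP) (ngx : NGx) (D : ∀ n, Wd (Ω n) (T n)) (hM : Big M)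
    (hR : Frac R M) (hs : Frac m R) (hms : ∀ n, m n ≤ s n) (h2 : ∀ n, s n + m n ≤ R n)
    (h0 : 0 < ε₀) (h1 : ε₀ ≤ 1)
    (l1 : Ln P (fun n => (D n).b) (fun n ω => ((D n).a ω, (D n).Θ ω)) (fun n => (D n).φ)
      (fun n => (D n).u) (fun n => (D n).α) (fun n => (D n).β) M R)
    (g2 : Grid P (fun n => (D n).a) M)
    (b2 : ∃ L, Sub M L ∧ ∀ᶠ n in UF, ∀ ω ∈ (P n).S, |(D n).φ ω| ≤ L n ∧ |(D n).u' ω| ≤ L n ∧
      |(D n).α' ω| ≤ L n ∧ |(D n).β' ω| ≤ L n ∧ |(D n).φ ω - ((D n).u' ω + (D n).α' ω * (D n).a ω +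
        (D n).β' ω * (D n).a ω ^ 2)| ≤ L n / 2 ^ R n)
    (f2 : Le M (fun n => (M n - s n : ℝ) * lg) fun n => ch (P n) (fun ω => fl1 (M n) ((D n).a ω))
      fun ω => ((D n).u' ω, (D n).α' ω, (D n).β' ω, ((D n).b ω, (D n).Θ ω), fl1 (s n) ((D n).a ω)))
    (v2 : Sm M fun n => ch (P n) (fun ω => ((D n).α' ω, (D n).β' ω)) fun ω => ((D n).b ω, (D n).Θ ω))
    (ng : NG1 P (fun n ω => ((D n).a ω, (D n).b ω, (D n).Θ ω)) (fun n => (D n).φ) R ε₀) :
    ∃ k, Frac k R ∧ Rep P (fun n ω => ((D n).a ω, (D n).Θ ω)) M (fun n => (D n).τ)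
      (fun (j : Fin 3) n ω => (D n).b ω ^ (j : ℕ)) k := by
  have hsR : ∀ n, s n ≤ R n := fun n => le_of_add_le_left (h2 n)
  have hsM : ∀ n, s n ≤ M n := fun n => (hsR n).trans (hR.1 n)
  obtain ⟨L, hL, ev⟩ : ∃ L, Sub M L ∧ ∀ᶠ n in UF,
      Fn (P n) (D n).a (fun ω => fl1 (M n) ((D n).a ω)) ∧
      Fn (P n) (D n).b (fun ω => fl1 (M n) ((D n).b ω)) ∧
      ∀ ω ∈ (P n).S, (D n).Bd (L n) (L n / 2 ^ R n) ω := by
    obtain ⟨L₁, s1, e1⟩ := l1.grid
    obtain ⟨L₂, s2, e2⟩ := g2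
    obtain ⟨L₃, s3, e3⟩ := l1.bd
    obtain ⟨L₄, s4, e4⟩ := b2
    refine ⟨fun n => L₁ n + L₂ n + (L₃ n + L₄ n), (s1.add s2 hM).add (s3.add s4 hM) hM, ?_⟩
    filter_upwards [e1, e2, e3, e4] with n a1 a2 a3 a4
    refine ⟨a2.1, a1.1, fun ω hω => ?_⟩
    obtain ⟨-, b1, b2, b3, b4⟩ := a3 ω hω
    obtain ⟨-, -, b5, b6, b7⟩ := a4 ω hω
    have := s1.1 n; have := s2.1 n; have := s3.1 n; have := s4.1 n
    exact ⟨by linarith [a2.2 ω hω], by linarith [a1.2 ω hω], by linarith, by linarith, by linarith,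
      by linarith, by linarith, b4.trans (div_le_div_of_nonneg_right (by linarith) (by positivity)),
      b7.trans (div_le_div_of_nonneg_right (by linarith) (by positivity))⟩
  have bd : ∀ᶠ n in UF, ∀ ω ∈ (P n).S, (D n).Bd (L n) (L n / 2 ^ s n / 2 ^ m n) ω :=
    ev.mono fun n e ω hω => by
      have k : L n / 2 ^ R n ≤ L n / 2 ^ s n / 2 ^ m n := by
        rw [div_div, ← pow_add]
        exact div_le_div_of_nonneg_left (hL.pos n).le (by positivity)
          (pow_le_pow_right₀ one_le_two (h2 n))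
      exact { e.2.2 ω hω with e1 := (e.2.2 ω hω).e1.trans k, e2 := (e.2.2 ω hω).e2.trans k }
  have f1 : Le M (fun n => M n * lg) fun n => ch (P n) (fun ω => fl1 (M n) ((D n).b ω))
    fun ω => ((D n).u ω, (D n).X ω) := l1.ful
  have uB : Le M (fun n => ch (P n) (D n).b fun _ => ()) fun n => M n * lg :=
    le_grid0 (x := fun n => (D n).b) hM hL (ev.mono fun n e => ⟨e.2.1, fun ω hω => (e.2.2 ω hω).b⟩)
  have n1 : NG1 P (fun n => (D n).X) (fun n => (D n).u) R ε₀ := by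
    refine ngx P _ _ (fun n ω => (D n).α ω * (D n).b ω + (D n).β ω * (D n).b ω ^ 2) _ _ M R R L ε₀
      hM hR Frac.rfl hL ng (ev.mono fun n e => ⟨fun x _ y _ q => ?_, fun ω hω =>
        (le_of_eq (by congr 1; ring)).trans (e.2.2 ω hω).e1⟩)
      (Le.of2 f1 uB (Eventually.of_forall fun n => ?_))
    · simp only [Wd.X, Prod.mk.injEq] at q
      simp only [q]
    · have a1 : mi (P n) (fun ω => fl1 (R n) ((D n).u ω))
          (fun ω => ((D n).a ω, (D n).b ω, (D n).Θ ω)) (D n).X ≤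
          mi (P n) (D n).u (D n).b (D n).X :=
        (mi_mono fun x _ y _ q => by simp only [Wd.X, Prod.mk.injEq] at q ⊢; tauto).trans
          (mi_mono' ((Fn.comp _ _).left _))
      have a2 : ch (P n) (D n).b (D n).X ≤ ch (P n) (D n).b fun _ => () :=
        ch_anti fun _ _ _ _ _ => rfl
      have a3 : ch (P n) (fun ω => fl1 (M n) ((D n).b ω)) (fun ω => ((D n).u ω, (D n).X ω)) ≤
          ch (P n) (D n).b fun ω => ((D n).u ω, (D n).X ω) := ch_mono ((Fn.comp _ _).left _)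
      rw [mi_symm (D n).u] at a1
      unfold mi at a1 ⊢
      linarith
  have cA : Le M (fun n => (M n - s n : ℝ) * lg) fun n =>
      ch ((D n).C (P n) (s n)) (fun v => (D n).a v.2) Prod.fst :=
    f2.trans (Le.of_le fun n => (D n).eA (P n) (s n) (M n))
  have uA : Le M (fun n => ch ((D n).C (P n) (s n)) (fun v => (D n).a v.2) fun v => (D n).a v.1)
      fun n => (M n - s n : ℝ) * lg :=
    le_grid (P := fun n => (D n).C (P n) (s n)) (x := fun n v => (D n).a v.2) hM (hM.sub le_rfl)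
      hsM (ev.mono fun n e => ⟨((D n).c2 _ _).fn e.1, fun x hx y hy q => by
        rw [one_div]
        exact (abs_sub_lt_of_fl1_eq ((Wd.memC hx).2.2.2.2.2.2.1.trans
          ((congrArg _ q).trans (Wd.memC hy).2.2.2.2.2.2.1.symm))).le⟩)
  have cB : Ful (fun n => (D n).C (P n) (s n)) (fun n v => (D n).b v.1)
      (fun n v => ((D n).u v.1, (D n).X v.1, (D n).X v.2)) M :=
    Le.of4 f1 cA uA l1.sv (Eventually.of_forall fun n => by linarith [(D n).eB (P n) (s n) (M n)])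
  have L8 := (hL.pow 2).const_mul hM (C := 8) (by norm_num)
  obtain ⟨L₁, hL₁, lip⟩ := den 2 (fun n => (D n).C (P n) (s n)) (fun n v => (D n).u v.2)
    (fun n v => (D n).b v.1) (fun n v => (D n).X v.2) _ (fun n v => ![(D n).u v.1,
      (D n).α v.1 - (D n).α v.2, (D n).β v.1 - (D n).β v.2]) M R s _ ε₀ hM hR hsR L8 h0
    (n1.pull fun n => (D n).c2 _ _) (bd.mono fun n e => ⟨fun x _ y _ q => by
        simp only [Wd.X, Prod.mk.injEq] at q
        simp only [q], fun x _ y _ q => congrArg (·.2.2) q, fun v hv => by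
        nlinarith [(e _ (Wd.memC hv).1).b, hL.1 n]⟩) cB
    (Whp.of_ev (bd.mono fun n e v hv => ⟨by
      simpa [Fin.sum_univ_three] using (Wd.col hv (hL.1 n) (hms n) e).2, fun j hj => by
      have k1 := e _ (Wd.memC hv).1
      have k2 := e _ (Wd.memC hv).2.1
      fin_cases j
      · exact absurd rfl hj
      · exact (abs_sub _ _).trans (by nlinarith [k1.α, k2.α, hL.1 n])
      · exact (abs_sub _ _).trans (by nlinarith [k1.β, k2.β, hL.1 n])⟩))
  replace lip : Whp (fun n => (D n).C (P n) (s n)) fun n v =>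
      |(D n).α v.1 - (D n).α v.2| ≤ L₁ n / 2 ^ s n ∧ |(D n).β v.1 - (D n).β v.2| ≤ L₁ n / 2 ^ s n :=
    lip.mono (Eventually.of_forall fun n v _ q => ⟨q 1 (by decide), q 2 (by decide)⟩)
  have L10 := ((hL.pow 2).const_mul hM (C := 10) (by norm_num)).mul hL₁
  have g : ∀ n, L₁ n ≤ 10 * L n ^ 2 * L₁ n ∧ 10 * L n ^ 2 ≤ 10 * L n ^ 2 * L₁ n ∧
      L n ≤ L n ^ 2 := fun n => ⟨le_mul_of_one_le_left (hL₁.pos n).le (by nlinarith [hL.1 n]),
    le_mul_of_one_le_right (by positivity) (hL₁.1 n), by nlinarith [hL.1 n]⟩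
  have cU : Sm M fun n => ch ((D n).C (P n) (s n)) (fun v => fl1 (s n) ((D n).u v.1))
      fun v => (D n).u v.2 :=
    sm_whp (P := fun n => (D n).C (P n) (s n)) (x := fun n v => (D n).u v.1)
      (y := fun n v => (D n).u v.2) hM L10 hsM (bd.mono fun n e => ⟨Fn.rfl _, fun v hv => by
        linarith [(e _ (Wd.memC hv).1).u, (g n).2.1, (g n).2.2, hL.1 n]⟩)
      (lip.mono (bd.mono fun n e v hv q => num3 (hL.1 n) (hL₁.1 n) (by positivity)
        (e _ (Wd.memC hv).1).b q.1 q.2 (Wd.col hv (hL.1 n) (hms n) e).2))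
  have J : Le M (fun n => (2 * M n - s n : ℝ) * lg) fun n => ch ((D n).Q (P n) (s n))
      (fun w => ((D n).a w.1.2, (D n).b w.2.1)) fun w => w.1.1 :=
    Le.of3 cA cB cU (Eventually.of_forall fun n => by linarith [(D n).eC (P n) (s n) (M n)])
  obtain ⟨k, L', hk, hL', w⟩ := stage (P := fun n => (D n).Q (P n) (s n))
    (G := fun n w => (D n).X w.1.1) (a := fun n w => (D n).a w.1.1) (a₂ := fun n w => (D n).a w.1.2)
    (b := fun n w => (D n).b w.1.1) (bt := fun n w => (D n).b w.2.1)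
    (u := fun n w => (D n).u w.1.1) (ut := fun n w => (D n).u w.2.1)
    (d₁ := fun n w => (D n).α w.1.2 - (D n).α w.1.1) (d₂ := fun n w => (D n).β w.1.2 - (D n).β w.1.1)
    (τ := fun n w => (D n).τ w.1.1) (τt := fun n w => (D n).τ w.2.1) h0 h1 hM (hs.trans hR)
    (fun n => (h2 n).trans (hR.1 n)) L10 ((scale n1 hs h2).pull fun n => (D n).l11 _ _)
    ((ev.and bd).mono fun n e => ⟨fun x _ y _ q => congrArg (·.2.2.1) q,
      ((D n).l12 _ _).fn e.1.1, ((D n).l11 _ _).fn e.1.2.1, ((D n).l21 _ _).fn e.1.2.1,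
      fun v hv => by
        have k1 := e.2 _ (Wd.memC (Wd.memQ hv).1).1
        have k2 := e.2 _ (Wd.memC (Wd.memQ hv).2.1).1
        obtain ⟨-, g2, g3⟩ := g n
        have := hL.1 n
        exact ⟨(Wd.memC (Wd.memQ hv).1).2.2.2.2.2.2.1, (Wd.memQ hv).2.2.2.2.2,
          by linarith [k1.b], by linarith [k2.b],
          (abs_sub _ _).trans (by linarith [k1.τ this, k2.τ this]),
          (Wd.rct hv this (hms n) e.2).trans (div_le_div_of_nonneg_right (div_le_div_of_nonneg_right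
            (by linarith) (by positivity)) (by positivity))⟩⟩)
    ((whp_law (fun n => (D n).q1 (P n) (s n)) lip).mono (Eventually.of_forall fun n v _ q => by
      have := div_le_div_of_nonneg_right (g n).1 (by positivity : (0 : ℝ) ≤ 2 ^ s n)
      exact ⟨(abs_sub_comm _ _).trans_le (q.1.trans this),
        (abs_sub_comm _ _).trans_le (q.2.trans this)⟩))
    (fun n => ((D n).eH (P n) (s n) (M n) (m n)).le)
    (Le.of2 f1 J (Eventually.of_forall fun n => by linarith [(D n).eD (P n) (s n) (M n)]))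
    (l1.sv.mono (Eventually.of_forall fun n => (D n).eE (P n) (s n)))
    ((v2.smul zero_le_two).mono (Eventually.of_forall fun n => (D n).eF (P n) (s n)))
  refine ⟨k, hk.trans hs, fit_of cov 0 (fun n => (D n).cf)
    hM (((hL.pow 2).const_mul hM (C := 5) (by norm_num)).mul hL') (fun n => (D n).l11 (P n) (s n))
    (Le.of5 J uA uB (l1.sv.smul zero_le_two) v2 (Eventually.of_forall fun n => by
      linarith [(D n).eG (P n) (s n)])) (w.mono (bd.mono fun n e v hv q => ?_))⟩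
  have k2 := e _ (Wd.memC (Wd.memQ hv).2.1).1
  have k3 : L' n ≤ 5 * L n ^ 2 * L' n :=
    le_mul_of_one_le_left (hL'.pos n).le (by nlinarith [hL.1 n])
  refine ⟨(le_of_eq ?_).trans (q.1.trans (div_le_div_of_nonneg_right k3 (by positivity))),
    fun i => ?_⟩
  · congr 1
    simp only [Wd.cf, Wd.γ, Fin.sum_univ_three, Matrix.cons_val_zero, Matrix.cons_val_one,
      Matrix.cons_val_two, Matrix.head_cons, Matrix.tail_cons, Fin.val_zero, Fin.val_one,
      Fin.val_two]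
    ring
  · fin_cases i
    exacts [num4 (hL.1 n) (hL'.1 n) (k2.τ (hL.1 n)) k2.b q.2.1 q.2.2, q.2.1.trans k3,
      q.2.2.trans k3]

/-- A full variable is full in every strip. -/
theorem strip {x : RV Ω} {G : ∀ n, Ω n → Γ n} (hM : Big M) (g : Grid P x M) (f : Ful P x G M) :
    Le M (fun n => (M n - s n : ℝ) * lg) fun n => ch (P n) (fun ω => fl1 (M n) (x n ω))
      fun ω => (fl1 (s n) (x n ω), G n ω) := by
  obtain ⟨L, hL, e⟩ := g
  exact Le.of2 f (le_fl1 (P := P) (x := x) (G := G) (j := fun _ => 0) (k := s) hM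
    (hL.const_mul hM one_le_two) (fun _ => Nat.zero_le _) (e.mono fun n e a ha b hb _ => by
      linarith [abs_sub (x n a) (x n b), e.2 a ha, e.2 b hb])) (Eventually.of_forall fun n => by
    push_cast
    linarith [ch_drop (P := P n) (fun ω => fl1 (M n) (x n ω)) (fun ω => fl1 (s n) (x n ω)) (G n)])

end WRectA

theorem rowRect : OfRect := fun cov den ngx _ _ _ Θ a b φ u α β u' α' β' _ R _ hM hR h0 h1 l1 l2 ng =>
  WRectA.mainS (s := fun n => R n / 2) cov den ngx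
    (fun n => ⟨Θ n, a n, b n, φ n, u n, α n, β n, u' n, α' n, β' n⟩) hM hR
    ((hM.frac hR).frac_div two_pos) (fun _ => le_rfl) (fun n => by omega) h0 h1 l1 l2.grid l2.bd
    ((WRectA.strip hM l2.grid l2.ful).trans (Le.of_le fun _ => ch_anti fun _ _ _ _ q => by
      simp only [Prod.mk.injEq] at q ⊢; tauto)) l2.sv ng

end Pool.Agent.MP_5168f5_an.R4.Web
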