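import Pool.Agent.MP_5168f5_an.R4.SpecW

/-! Interpolation in one more variable. -/

namespace Pool.Agent.MP_5168f5_an.R4.Web

open H19 H17S H17F Filter NCx

namespace WTStepA

/-- The coefficients of the Lagrange polynomial of the node `a`. -/
noncomputable def lc (a b c : ℝ) (j : Fin 3) : ℝ :=
  ![b * c, -(b + c), 1] j * ((a - b)⁻¹ * (a - c)⁻¹)

theorem ne_of {S a b : ℝ} (h : 1 ≤ S * |a - b|) : a - b ≠ 0 := fun e => by
  rw [e, abs_zero, mul_zero] at h; linarith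

theorem lc_le {A S a b c : ℝ} (hA : 1 ≤ A) (hb : |b| ≤ A) (hc : |c| ≤ A) (h : 1 ≤ S * |a - b|)
    (h' : 1 ≤ S * |a - c|) (j : Fin 3) : |lc a b c j| ≤ 2 * A ^ 2 * S ^ 2 := by
  have i : ∀ t : ℝ, 1 ≤ S * |a - t| → |(a - t)⁻¹| ≤ S := fun t k => by
    rw [abs_inv]; exact (inv_le_iff_one_le_mul₀ (abs_pos.2 (ne_of k))).2 k
  rw [lc, abs_mul, abs_mul, sq S]
  refine mul_le_mul ?_ (mul_le_mul (i b h) (i c h') (abs_nonneg _) ((abs_nonneg _).trans (i b h)))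
    (by positivity) (by positivity)
  have := mul_le_mul hb hc (abs_nonneg _) (by linarith)
  have := abs_add_le b c
  fin_cases j <;> simp [-neg_add_rev, abs_mul] <;> nlinarith

theorem ev_le {A B x : ℝ} {l : Fin 3 → ℝ} (hA : 1 ≤ A) (hx : |x| ≤ A) (h : ∀ j, |l j| ≤ B) :
    |∑ j, l j * x ^ (j : ℕ)| ≤ 3 * (B * A ^ 2) := by
  refine (Finset.abs_sum_le_sum_abs _ _).trans ((Finset.sum_le_card_nsmul _ _ (B * A ^ 2)
    fun j _ => ?_).trans (by simp))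
  rw [abs_mul, abs_pow]
  exact mul_le_mul (h j) ((pow_le_pow_left₀ (abs_nonneg _) hx _).trans
    (pow_le_pow_right₀ hA (by omega))) (by positivity) ((abs_nonneg _).trans (h j))

/-- The coefficients of the interpolation. -/
noncomputable def cf {ι : Type} (a b c : ℝ × (ι → ℝ)) (p : Fin 3 × ι) : ℝ :=
  lc a.1 b.1 c.1 p.1 * a.2 p.2 + lc b.1 a.1 c.1 p.1 * b.2 p.2 + lc c.1 a.1 b.1 p.1 * c.2 p.2

theorem alg {ι : Type} [Fintype ι] {A S B ε T x : ℝ} {Γ : Fin 3 → ℝ} {ψ : ι → ℝ}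
    {a b c : ℝ × (ι → ℝ)} (hA : 1 ≤ A) (hS : 1 ≤ S) (hx : |x| ≤ A)
    (hT : |T - ∑ j, Γ j * x ^ (j : ℕ)| ≤ ε)
    (h : ∀ d, d = a ∨ d = b ∨ d = c → |d.1| ≤ A ∧ (∀ i, |d.2 i| ≤ B) ∧
      |∑ j, Γ j * d.1 ^ (j : ℕ) - ∑ i, d.2 i * ψ i| ≤ ε)
    (ba : 1 ≤ S * |b.1 - a.1|) (ca : 1 ≤ S * |c.1 - a.1|) (cb : 1 ≤ S * |c.1 - b.1|) :
    |T - ∑ p, cf a b c p * (x ^ (p.1 : ℕ) * ψ p.2)| ≤ 19 * A ^ 4 * S ^ 2 * ε ∧
      ∀ p, |cf a b c p| ≤ 19 * A ^ 4 * S ^ 2 * B := by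
  obtain ⟨a1, a2, a3⟩ := h a (.inl rfl)
  obtain ⟨b1, b2, b3⟩ := h b (.inr (.inl rfl))
  obtain ⟨c1, c2, c3⟩ := h c (.inr (.inr rfl))
  have ab := abs_sub_comm b.1 a.1 ▸ ba
  have ac := abs_sub_comm c.1 a.1 ▸ ca
  have bc := abs_sub_comm c.1 b.1 ▸ cb
  have la := lc_le hA b1 c1 ab ac
  have lb := lc_le hA a1 c1 ba bc
  have ld := lc_le hA a1 b1 ca cb
  have m : ∀ {s t u v : ℝ}, |s| ≤ u → |t| ≤ v → |s * t| ≤ u * v := fun k k' => by
    rw [abs_mul]; exact mul_le_mul k k' (abs_nonneg _) ((abs_nonneg _).trans k)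
  have A2 : 1 ≤ A ^ 2 := one_le_pow₀ hA
  have S2 : 1 ≤ S ^ 2 := one_le_pow₀ hS
  refine ⟨?_, fun p => ?_⟩
  · have s : ∀ (l : Fin 3 → ℝ) (π : ι → ℝ), ∑ p : Fin 3 × ι, l p.1 * π p.2 * (x ^ (p.1 : ℕ) * ψ p.2)
        = (∑ j, l j * x ^ (j : ℕ)) * ∑ i, π i * ψ i := fun l π => by
      rw [Fintype.sum_prod_type, Finset.sum_mul_sum]
      exact Finset.sum_congr rfl fun _ _ => Finset.sum_congr rfl fun _ _ => by ring
    have e : ∑ j, Γ j * x ^ (j : ℕ) =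
        (∑ j, lc a.1 b.1 c.1 j * x ^ (j : ℕ)) * ∑ j, Γ j * a.1 ^ (j : ℕ) +
        (∑ j, lc b.1 a.1 c.1 j * x ^ (j : ℕ)) * ∑ j, Γ j * b.1 ^ (j : ℕ) +
        (∑ j, lc c.1 a.1 b.1 j * x ^ (j : ℕ)) * ∑ j, Γ j * c.1 ^ (j : ℕ) := by
      have := ne_of ab; have := ne_of ac; have := ne_of bc
      have := ne_of ba; have := ne_of ca; have := ne_of cb
      simp [Fin.sum_univ_three, lc]
      field_simp
      ring
    simp only [cf, add_mul, Finset.sum_add_distrib, s]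
    have ta := abs_le.1 (m (ev_le hA hx la) a3)
    have tb := abs_le.1 (m (ev_le hA hx lb) b3)
    have tc := abs_le.1 (m (ev_le hA hx ld) c3)
    have t1 : ε ≤ A ^ 4 * S ^ 2 * ε := le_mul_of_one_le_left ((abs_nonneg _).trans hT)
      (one_le_mul_of_one_le_of_one_le (one_le_pow₀ hA) S2)
    rw [e, abs_le] at hT
    rw [abs_le]
    constructor <;> linarith [ta.1, ta.2, tb.1, tb.2, tc.1, tc.2, hT.1, hT.2]
  · have ta := abs_le.1 (m (la p.1) (a2 p.2))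
    have tb := abs_le.1 (m (lb p.1) (b2 p.2))
    have tc := abs_le.1 (m (ld p.1) (c2 p.2))
    have t0 : 0 ≤ A ^ 2 * S ^ 2 * B :=
      mul_nonneg (by positivity) ((abs_nonneg _).trans (a2 p.2))
    have t1 := mul_le_mul_of_nonneg_right A2 t0
    rw [cf, abs_le]
    constructor <;> linarith [ta.1, ta.2, tb.1, tb.2, tc.1, tc.2]

theorem inf {Ω W Φ U A D : Type} {P : FP Ω} {Q : FP W} {π : W → Ω} (φ : Ω → Φ) (g : Φ → U)
    (V : W → A) (d : Ω → D) (h : Law Q π P id) :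
    mi (glue Q P (fun v => φ (π v)) φ) (fun v => (V v.1, d v.2)) (fun v => π v.1)
      (fun v => g (φ (π v.1))) ≤
      mi Q V π (fun v => g (φ (π v))) + (ch P d (fun ω => g (φ ω)) - ch P d φ) := by
  have l : Law Q (fun v => φ (π v)) P φ := h.comp φ
  rw [mi_symm, mi_chain, mi_symm _ (fun v : W × Ω => V v.1), mi_symm _ (fun v : W × Ω => d v.2),
    (kg.fst Q P _ φ).mi_id V π fun v => g (φ (π v)), ← (kg.snd Q P _ φ l).ch_id d fun ω => g (φ ω),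
    ← kg.mk1 Q P _ φ d id l fun _ _ _ _ e => congrArg (fun v => φ (π v)) e]
  refine add_le_add le_rfl (sub_le_sub (ch_anti fun a ha b hb e => ?_)
    (ch_anti fun a _ b _ e => by simp only [show a.1 = b.1 from e]))
  rw [((kg.mem Q P _ φ a l).1 ha).2.2, ((kg.mem Q P _ φ b l).1 hb).2.2]
  exact congrArg Prod.snd e

variable {Ω W Φ U A D Γ : ℕ → Type} {P : ∀ n, FP (Ω n)} {Q : ∀ n, FP (W n)} {M : ℕ → ℕ}
  {L : ℕ → ℝ}

theorem sep {z a : RV W} {G : ∀ n, W n → Γ n} (hM : Big M) (hL : Sub M L)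
    (h : ∀ᶠ n in UF, Fn (Q n) (a n) (G n) ∧ ∀ v ∈ (Q n).S, |z n v| ≤ L n) (hz : Ful Q z G M)
    {c : ℝ} (c0 : 0 < c) (c1 : c ≤ 1) :
    Whp Q fun n v => 1 ≤ Real.exp (c * M n) * |z n v - a n v| := by
  refine (ks.spw Q (fun n v => ¬1 ≤ Real.exp (c * M n) * |z n v - a n v|)
    (fun n v => fl1 (M n) (z n v)) G M (fun n => 2 ^ M n) _ (c / 2) hM
    (hL.const_mul hM (C := 7) (by norm_num)) (half_pos c0) (by simp only [log_two_pow]; exact hz)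
    (h.mono fun n k => ?_)).mono (Eventually.of_forall fun _ _ _ => not_not.1)
  have l1 := hL.1 n
  have p1 : (1 : ℝ) ≤ 2 ^ M n := one_le_pow₀ one_le_two
  have m0 : (0 : ℝ) ≤ M n := Nat.cast_nonneg _
  refine ⟨by positivity, fun u hu => (det_near1 (L := 2 * L n * 2 ^ M n) (by positivity)
    (fun s hs t ht _ => ?_) u hu).imp fun T hT => ⟨hT.1.trans (by nlinarith), hT.2⟩, fun u hu => ?_⟩
  · rw [mul_div_cancel_right₀ _ (by positivity)]
    linarith [abs_sub (z n s) (z n t), k.2 s hs, k.2 t ht]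
  set r := 2 ^ M n * Real.exp (-(c / 2 * M n)) with hr
  have r1 : 1 ≤ r := by
    rw [hr, Real.exp_neg, ← div_eq_mul_inv, one_le_div (Real.exp_pos _)]
    exact (Real.exp_le_exp.2 (by nlinarith)).trans (exp_le_two_pow _)
  refine ⟨Finset.Icc (fl1 (M n) (a n u) - ⌈r⌉₊) (fl1 (M n) (a n u) + ⌈r⌉₊), ?_,
    fun v hv e hE => fl1_mem_Icc ?_⟩
  · rw [show (Finset.Icc (fl1 (M n) (a n u) - ⌈r⌉₊) (fl1 (M n) (a n u) + ⌈r⌉₊)).card = 2 * ⌈r⌉₊ + 1 by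
      rw [Int.card_Icc]; omega, mul_assoc, ← hr]
    push_cast
    nlinarith [Nat.ceil_lt_add_one (zero_le_one.trans r1)]
  · rw [← k.1 v hv u hu e, ← div_eq_mul_inv, le_div_iff₀ (by positivity)]
    refine le_trans ?_ (Nat.le_ceil r)
    rw [hr, mul_comm]
    refine mul_le_mul_of_nonneg_left ?_ (by positivity)
    rw [not_le, ← lt_inv_mul_iff₀ (Real.exp_pos _), mul_one, ← Real.exp_neg] at hE
    exact hE.le.trans (Real.exp_le_exp.2 (by nlinarith))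

theorem pull {f : ∀ n, W n → Ω n} {E : ∀ n, Ω n → Prop} (h : ∀ n, Law (Q n) (f n) (P n) id)
    (k : Whp P E) : Whp Q fun n v => E n (f n v) :=
  (K31.dnS_law (Eventually.of_forall h)).whp k

/-- One more copy. -/
theorem step {π : ∀ n, W n → Ω n} {φ : ∀ n, Ω n → Φ n} {g : ∀ n, Φ n → U n} {x : RV Ω}
    {V : ∀ n, W n → A n} {d : ∀ n, Ω n → D n} {E : ∀ n, Ω n → Prop} (hM : Big M) (hL : Sub M L)
    (hb : ∀ᶠ n in UF, ∀ ω ∈ (P n).S, |x n ω| ≤ L n) (hx : Ful P x φ M) (hE : Whp P E)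
    (hd : Sm M fun n => ch (P n) (d n) (fun ω => g n (φ n ω)) - ch (P n) (d n) (φ n))
    (hπ : ∀ n, Law (Q n) (π n) (P n) id)
    (hV : Sm M fun n => mi (Q n) (V n) (π n) fun v => g n (φ n (π n v))) :
    ∃ R : ∀ n, FP (W n × Ω n), (∀ n, Law (R n) Prod.fst (Q n) id) ∧
      (∀ n, Law (R n) (fun v => π n v.1) (P n) id) ∧
      (Sm M fun n => mi (R n) (fun v => (V n v.1, d n v.2)) (fun v => π n v.1)
        fun v => g n (φ n (π n v.1))) ∧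
      (Whp R fun n v => E n v.2 ∧ φ n v.2 = φ n (π n v.1)) ∧ ∀ (a : RV W) (c : ℝ), 0 < c → c ≤ 1 →
        Whp R fun n v => 1 ≤ Real.exp (c * M n) * |x n v.2 - a n v.1| := by
  have l : ∀ n, Law (Q n) (fun v => φ n (π n v)) (P n) (φ n) := fun n => (hπ n).comp (φ n)
  obtain ⟨R, hR⟩ : ∃ R : ∀ n, FP (W n × Ω n),
      ∀ n, R n = glue (Q n) (P n) (fun v => φ n (π n v)) (φ n) := ⟨_, fun _ => rfl⟩
  have f : ∀ n, Law (R n) Prod.fst (Q n) id := fun n => by rw [hR]; exact kg.fst _ _ _ _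
  have s : ∀ n, Law (R n) Prod.snd (P n) id := fun n => by rw [hR]; exact kg.snd _ _ _ _ (l n)
  have m : ∀ n, ∀ v ∈ (R n).S, v.2 ∈ (P n).S ∧ φ n v.2 = φ n (π n v.1) := fun n v hv => by
    rw [hR] at hv; exact ((kg.mem _ _ _ _ v (l n)).1 hv).2
  refine ⟨R, f, fun n => ((f n).comp (π n)).trans (hπ n), (hV.add hd).mono
    (Eventually.of_forall fun n => ?_), (pull (f := fun _ => Prod.snd) s hE).and
      (Whp.of_ev (Eventually.of_forall fun n v hv => (m n v hv).2)), fun a c c0 c1 => ?_⟩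
  · rw [hR]; exact inf (φ n) (g n) (V n) (d n) (hπ n)
  refine sep (z := fun n v => x n v.2) (a := fun n v => a n v.1) (G := fun _ v => id v.1) hM hL
    (hb.mono fun n k => ⟨fun _ _ _ _ e => congrArg (a n) e, fun v hv => k _ (m n v hv).1⟩)
    (hx.trans (Le.of_le fun n => ?_)) c0 c1
  rw [hR]
  exact (kg.mk1 (Q n) (P n) _ (φ n) (fun ω => fl1 (M n) (x n ω)) id (l n)
    fun _ _ _ _ e => congrArg (fun v => φ n (π n v)) e).ge

theorem fit (hC : Cover) {B : Type} [Inhabited B] {π : ∀ n, W n → Ω n} {C : ∀ n, W n → B}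
    {G : ∀ n, Ω n → Γ n} {Ψ : ∀ n, ℝ → B → Ω n → Prop} (hM : Big M) (hL : Sub M L)
    (hπ : ∀ n, Law (Q n) (π n) (P n) id)
    (hi : Sm M fun n => mi (Q n) (C n) (π n) fun v => G n (π n v))
    (h : Whp Q fun n v => Ψ n (L n) (C n v) (π n v)) : Fit P G M Ψ := by
  classical
  obtain ⟨L', T, h1, h2, h3⟩ := hC P Q π C G (fun n => Ψ n (L n)) M hM hπ hi h
  refine ⟨fun n ω => if k : ∃ c ∈ T n (G n ω), Ψ n (L n) c ω then k.choose else default, L, hL,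
    (h1.log3 hM 1).mono (Eventually.of_forall fun n => ?_),
    h3.mono (Eventually.of_forall fun n ω _ k => by
      beta_reduce; rw [dif_pos k]; exact k.choose_spec.2)⟩
  rw [one_mul]
  refine ch_det fun a _ => ⟨insert default (T n (G n a)), ?_, fun b _ e => ?_⟩
  · refine (Nat.cast_le.2 (Finset.card_insert_le _ _)).trans ?_
    push_cast
    linarith [h2 n (G n a), h1.1 n]
  · beta_reduce
    split_ifs with k
    · exact Finset.mem_insert_of_mem (e ▸ k.choose_spec.1)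
    · exact Finset.mem_insert_self _ _

end WTStepA

open WTStepA in
theorem rowTStep : OfTStep := by
  intro hC Ω Y U ι _ P x T y w ψ M k hM ⟨L0, s0, h0⟩ hx ⟨Ga, L1, s1, e1, w1⟩ ⟨Pi, L2, s2, e2, w2⟩
  have hb := h0.mono fun _ h => h.2
  have hφ : Ful P x (fun n ω => (Ga n ω, y n ω, w n ω)) M := Le.of2 hx e1
    (Eventually.of_forall fun n => by
      linarith [ch_drop (P := P n) (fun ω => fl1 (M n) (x n ω)) (Ga n) fun ω => (y n ω, w n ω)])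
  have hd : Sm M fun n => ch (P n) (fun ω => (x n ω, Pi n ω)) (w n) -
      ch (P n) (fun ω => (x n ω, Pi n ω)) fun ω => (Ga n ω, y n ω, w n ω) :=
    Le.of3 hφ e2 (le_fl1 (P := P) (G := w) (x := x) (j := fun _ => 0) (k := M) hM
      (s0.const_mul hM one_le_two) (fun _ => Nat.zero_le _) (hb.mono fun n h a ha b hb _ => by
        linarith [abs_sub (x n a) (x n b), h a ha, h b hb])) (h0.mono fun n h => by
      have t1 := ch_chain (P := P n) (x n) (Pi n) (w n)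
      have t2 := ch_mono (h.1.left (w n))
      have t3 : ch (P n) (fun ω => fl1 (M n) (x n ω)) _ ≤ ch (P n) (fun ω => (x n ω, Pi n ω))
          fun ω => (Ga n ω, y n ω, w n ω) := ch_mono fun a _ b _ e => by
        rw [show x n a = x n b from congrArg (·.1.1) e]
      push_cast
      linarith)
  have hE := (w1.and w2).and (Whp.of_ev hb)
  have st := fun {W A : ℕ → Type} (Q : ∀ n, FP (W n)) (π : ∀ n, W n → Ω n) (V : ∀ n, W n → A n) =>
    step (Q := Q) (π := π) (V := V) (φ := fun n ω => (Ga n ω, y n ω, w n ω))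
      (d := fun n ω => (x n ω, Pi n ω)) (g := fun _ u => u.2.2) hM s0 hb hφ hE hd
  obtain ⟨R1, -, p1, i1, g1, -⟩ := st P (fun _ => id) (fun _ _ => ()) (fun n => Law.rfl id)
    (Le.of_le fun n => (mi_le _ _ _).trans (ch_zero fun _ _ _ _ _ => rfl).le)
  obtain ⟨R2, f2, p2, i2, g2, q2⟩ := st R1 _ _ p1 i1
  obtain ⟨R3, f3, p3, i3, g3, q3⟩ := st R2 _ _ p2 i2
  obtain ⟨S, sS, wS⟩ := ks.wsub R3 (fun n v s => 1 ≤ s * |x n v.1.2 - x n v.1.1.2| ∧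
      1 ≤ s * |x n v.2 - x n v.1.1.2| ∧ 1 ≤ s * |x n v.2 - x n v.1.2|) M fun c c0 c1 =>
    (pull (f := fun _ => Prod.fst) f3 (q2 (fun n v => x n v.2) c c0 c1)).and
      ((q3 (fun n v => x n v.1.2) c c0 c1).and (q3 (fun n v => x n v.2) c c0 c1))
  have g := ((pull (f := fun n v => id v.1.1.1) p3 hE).and wS).and
    ((pull (f := fun _ => Prod.fst) f3 ((pull (f := fun _ => Prod.fst) f2 g1).and g2)).and g3)
  refine fit hC (Q := R3) (π := fun n v => id v.1.1.1) (C := fun n v => cf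
      (x n v.1.1.2, Pi n v.1.1.2) (x n v.1.2, Pi n v.1.2) (x n v.2, Pi n v.2))
    (L := fun n => 19 * L0 n ^ 4 * S n ^ 2 * (L1 n + L2 n)) hM
    ((((s0.pow 4).const_mul hM (C := 19) (by norm_num)).mul (sS.pow 2)).mul (s1.add s2 hM)) p3
    (i3.mono (Eventually.of_forall fun n => mi_mono' ?_))
    (g.mono (Eventually.of_forall fun n v _ ⟨⟨t0, u1, u2, u3⟩, ⟨t1, t2⟩, t3⟩ => ?_))
  · exact (Fn.comp (fun u : ((Unit × ℝ × (ι → ℝ)) × ℝ × (ι → ℝ)) × ℝ × (ι → ℝ) =>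
      cf u.1.1.2 u.1.2 u.2) _).left _
  have l1 := s1.pos n
  have l2 := s2.pos n
  have key : ∀ ω ω', (((|T n ω' - ∑ j, Ga n ω' j * x n ω' ^ (j : ℕ)| ≤ L1 n / 2 ^ k n ∧
      ∀ i, |Ga n ω' i| ≤ L1 n) ∧ |T n ω' - ∑ i, Pi n ω' i * ψ i n (y n ω')| ≤ L2 n / 2 ^ k n ∧
      ∀ i, |Pi n ω' i| ≤ L2 n) ∧ |x n ω'| ≤ L0 n) ∧
      (Ga n ω', y n ω', w n ω') = (Ga n ω, y n ω, w n ω) →
      |x n ω'| ≤ L0 n ∧ (∀ i, |Pi n ω' i| ≤ L1 n + L2 n) ∧ |∑ j, Ga n ω j * x n ω' ^ (j : ℕ) -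
        ∑ i, Pi n ω' i * ψ i n (y n ω)| ≤ (L1 n + L2 n) / 2 ^ k n := by
    rintro ω ω' ⟨⟨⟨⟨a1, -⟩, a2, a3⟩, a4⟩, e⟩
    simp only [Prod.mk.injEq] at e
    refine ⟨a4, fun i => (a3 i).trans (by linarith), ?_⟩
    rw [← e.1, ← e.2.1, add_div]
    exact (abs_sub_le _ (T n ω') _).trans (add_le_add ((abs_sub_comm _ _).trans_le a1) a2)
  have t4 : L1 n / 2 ^ k n ≤ (L1 n + L2 n) / 2 ^ k n := by gcongr; linarith
  beta_reduce
  rw [mul_div_assoc]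
  refine alg (a := (x n v.1.1.2, Pi n v.1.1.2)) (b := (x n v.1.2, Pi n v.1.2))
    (c := (x n v.2, Pi n v.2)) (ψ := fun i => ψ i n (y n v.1.1.1)) (s0.1 n) (sS.1 n) t0.2
    (t0.1.1.1.trans t4) ?_ u1 u2 u3
  rintro _ (rfl | rfl | rfl)
  exacts [key _ _ t1, key _ _ t2, key _ _ t3]

end Pool.Agent.MP_5168f5_an.R4.Web
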