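import Pool.Agent.MP_5168f5_an.R4.SpecW

/-! The coefficients of the curves of a web are polynomials of the other coordinates. -/

namespace Pool.Agent.MP_5168f5_an.R4.Web

open H19 H17S H17F Filter NCx

namespace WTenA

variable {Ω Γ Γ' : ℕ → Type} {P : ∀ n, FP (Ω n)} {G : ∀ n, Ω n → Γ n} {G' : ∀ n, Ω n → Γ' n}
  {x φ u α β T : RV Ω} {M R k k' : ℕ → ℕ}

theorem ful_anti (h : Ful P x G M) (e : ∀ n, Fn (P n) (G' n) (G n)) : Ful P x G' M :=
  Le.trans h (Le.of_le fun n => ch_anti (e n))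

theorem ful_drop {D : Type} {C : ∀ n, Ω n → D} (h : Ful P x G M)
    (s : Sm M fun n => ch (P n) (C n) (G n)) : Ful P x (fun n ω => (C n ω, G n ω)) M :=
  Le.of2 h s (Eventually.of_forall fun n => by
    linarith [ch_drop (P := P n) (fun ω => fl1 (M n) (x n ω)) (C n) (G n)])

theorem ln_congr (h : Ln P x G φ u α β M R) (e : ∀ n, Fn (P n) (G' n) (G n))
    (e' : ∀ n, Fn (P n) (G n) (G' n)) : Ln P x G' φ u α β M R :=
  ⟨h.grid, h.bd, ful_anti h.ful fun n a ha b hb q => by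
      simp only [Prod.mk.injEq] at q ⊢
      exact ⟨q.1, q.2.1, q.2.2.1, e n a ha b hb q.2.2.2⟩,
    h.sv.mono (Eventually.of_forall fun n => ch_anti (e' n))⟩

theorem ln_ful (h : Ln P x G φ u α β M R) (e : ∀ n, Fn (P n) (G' n) (G n)) : Ful P x G' M :=
  ful_anti h.ful fun n => (((e n).right _).right _).right _

theorem rep_mono {ι : Type} [Fintype ι] {ψ : ι → RV Ω} (h : Rep P G M T ψ k)
    (e : ∀ n, Fn (P n) (G n) (G' n)) (hk : ∀ n, k' n ≤ k n) : Rep P G' M T ψ k' := by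
  obtain ⟨C, L, a, b, c⟩ := h
  refine ⟨C, L, a, b.mono (Eventually.of_forall fun n => ch_anti (e n)),
    c.mono (Eventually.of_forall fun n ω _ q => ⟨q.1.trans ?_, q.2⟩)⟩
  exact div_le_div_of_nonneg_left (a.pos n).le (by positivity) (pow_le_pow_right₀ one_le_two (hk n))

theorem rep_zero (hM : Big M) (h : Ln P x G φ u α β M R) (k : ℕ → ℕ) :
    Rep P G M (fun n ω => α n ω + 2 * β n ω * x n ω) (fun (j : Fin 2) n ω => x n ω ^ (j : ℕ)) k := by
  obtain ⟨L, a, b⟩ := h.bd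
  refine ⟨fun n ω => ![α n ω, 2 * β n ω], fun n => 2 * L n, a.const_mul hM one_le_two,
    h.sv.mono (Eventually.of_forall fun n => ch_mono fun _ _ _ _ q => ?_),
    Whp.of_ev (b.mono fun n c ω hω => ⟨?_, Fin.forall_fin_two.2 ⟨?_, ?_⟩⟩)⟩
  · simp only [Prod.mk.injEq] at q
    simp only [q.1.1, q.1.2]
  · have := a.pos n
    simp only [Fin.sum_univ_two, Matrix.cons_val_zero, Matrix.cons_val_one, Fin.val_zero,
      Fin.val_one, pow_zero, pow_one, mul_one, sub_self, abs_zero]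
    positivity
  · have := (c ω hω).2.2.1
    simp only [Matrix.cons_val_zero]
    linarith [a.pos n]
  · have := (c ω hω).2.2.2.1
    simp only [Matrix.cons_val_one, Matrix.cons_val_zero, abs_mul, abs_two]
    linarith

theorem frac_min (h : Frac k R) (h' : Frac k' R) : Frac (fun n => min (k n) (k' n)) R := by
  obtain ⟨a, c, hc, e⟩ := h
  obtain ⟨-, c', hc', e'⟩ := h'
  refine ⟨fun n => (min_le_left _ _).trans (a n), min c c', lt_min hc hc', ?_⟩
  filter_upwards [e, e'] with n p q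
  rw [Nat.cast_min]
  exact le_min ((mul_le_mul_of_nonneg_right (min_le_left _ _) (Nat.cast_nonneg _)).trans p)
    ((mul_le_mul_of_nonneg_right (min_le_right _ _) (Nat.cast_nonneg _)).trans q)

end WTenA

open WTenA in
theorem rowTen : OfTen := by
  intro spr ts rect Ω T P Θ x y z φ u α β u' α' β' u'' α'' β'' M R ε₀ h
  have sw : ∀ (a b : RV Ω) n, Fn (P n) (fun ω => (a n ω, b n ω, Θ n ω))
      fun ω => (b n ω, a n ω, Θ n ω) := fun a b n _ _ _ _ q => by
    simp only [Prod.mk.injEq] at q ⊢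
    exact ⟨q.2.1, q.1, q.2.2⟩
  obtain ⟨k₁, f₁, r₁⟩ := rect P (fun n ω => (z n ω, Θ n ω)) x y φ u' α' β' u α β M R ε₀ h.big
    h.frac h.pos h.le (ln_congr h.l2 (sw x z) (sw z x)) h.l1 h.ng
  obtain ⟨k₂, f₂, r₂⟩ := rect P (fun n ω => (y n ω, Θ n ω)) x z φ u'' α'' β'' u α β M R ε₀ h.big
    h.frac h.pos h.le h.l3 (ln_congr h.l1 (sw z y) (sw y z))
    (h.ng.side (Eventually.of_forall fun n => (Fn.fst _ _).pair ((sw y z n).right _)))
  refine ⟨fun n => min (k₁ n) (k₂ n), frac_min f₁ f₂, ?_⟩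
  have t₁ := ts P y _ x (fun n ω => (z n ω, Θ n ω)) (fun (i : Fin 2) _ (t : ℝ) => t ^ (i : ℕ)) M
    (fun n => min (k₁ n) (k₂ n)) h.big h.l2.grid (ln_ful h.l2 (sw x z))
    (rep_mono r₁ (fun n => Fn.rfl _) fun n => min_le_left _ _) (rep_zero h.big h.l1 _)
  obtain ⟨C, L, a, b, c⟩ := ts P z _ (fun n ω => (x n ω, y n ω)) Θ
    (fun (p : Fin 3 × Fin 2) _ (t : ℝ × ℝ) => t.2 ^ (p.1 : ℕ) * t.1 ^ (p.2 : ℕ)) M
    (fun n => min (k₁ n) (k₂ n)) h.big h.l3.grid
    (ln_ful h.l3 fun n _ _ _ _ q => by simp only [Prod.mk.injEq] at q ⊢; tauto)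
    (rep_mono r₂ (fun n _ _ _ _ q => by simp only [Prod.mk.injEq] at q ⊢; tauto)
      fun n => min_le_right _ _) t₁
  obtain ⟨L₀, a₀, b₀⟩ := h.l1.grid
  obtain ⟨L', a', c'⟩ := spr 1 P x
    (fun n ω => (C n ω, u n ω, α n ω, β n ω, y n ω, z n ω, Θ n ω))
    (fun n ω => ![α n ω - bq (fun i j => C n ω (j, i, 0)) (y n ω) (z n ω),
      2 * β n ω - bq (fun i j => C n ω (j, i, 1)) (y n ω) (z n ω)]) M L₀ h.big a₀
    (b₀.mono fun n q => ⟨fun _ _ _ _ e => by
      simp only [Prod.mk.injEq] at e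
      simp only [e.1, e.2.2.1, e.2.2.2.1, e.2.2.2.2.1, e.2.2.2.2.2.1], q.2⟩)
    (ful_drop h.l1.ful (b.mono (Eventually.of_forall fun n =>
      ch_anti (((((Fn.snd _ _).right _).right _).right _).right _))))
  refine ⟨fun n ω => ![fun i j => C n ω (j, i, 0), fun i j => C n ω (j, i, 1) / 2],
    fun n => L' n * L n, a'.mul a, b.mono (Eventually.of_forall fun n => ch_mono
      fun _ _ _ _ q => by simp only [Prod.mk.injEq] at q; simp only [q.1]),
    (c.and c').mono (Eventually.of_forall fun n ω _ q => ?_)⟩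
  obtain ⟨⟨q₁, q₂⟩, q₃⟩ := q
  have p := a.pos n
  have p' := a'.1 n
  have l : L n ≤ L' n * L n := le_mul_of_one_le_left p.le p'
  have e : ∀ j, |(![α n ω - bq (fun i j => C n ω (j, i, 0)) (y n ω) (z n ω),
      2 * β n ω - bq (fun i j => C n ω (j, i, 1)) (y n ω) (z n ω)] : Fin 2 → ℝ) j|
      ≤ L' n * L n / 2 ^ min (k₁ n) (k₂ n) := fun j => by
    rw [mul_div_assoc]
    refine (q₃ j).trans (mul_le_mul_of_nonneg_left (le_of_eq_of_le ?_ q₁) (zero_le_one.trans p'))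
    congr 1
    simp only [bq, Fintype.sum_prod_type, Fin.sum_univ_succ, Fin.sum_univ_zero,
      Matrix.cons_val_zero, Matrix.cons_val_succ, Fin.val_zero, Fin.val_succ, Fin.succ_zero_eq_one,
      Fin.succ_one_eq_two]
    ring
  refine ⟨Fin.forall_fin_two.2 ⟨fun i j => (q₂ _).trans l, fun i j => ?_⟩, e 0, ?_⟩
  · have := q₂ (j, i, 1)
    simp only [Matrix.cons_val_one, Matrix.cons_val_zero, abs_div, abs_two]
    linarith
  · have e₁ := e 1
    have e₂ : β n ω - bq (fun i j => C n ω (j, i, 1) / 2) (y n ω) (z n ω)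
        = (2 * β n ω - bq (fun i j => C n ω (j, i, 1)) (y n ω) (z n ω)) / 2 := by
      simp only [bq, Fin.sum_univ_three]
      ring
    simp only [Matrix.cons_val_one, Matrix.cons_val_zero] at e₁ ⊢
    rw [e₂, abs_div, abs_two]
    linarith [abs_nonneg (2 * β n ω - bq (fun i j => C n ω (j, i, 1)) (y n ω) (z n ω))]

end Pool.Agent.MP_5168f5_an.R4.Web
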