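import Pool.Agent.MP_5168f5_an.R4.WCover
import Pool.Agent.MP_5168f5_an.R4.WSpr
import Pool.Agent.MP_5168f5_an.R4.WDenP
import Pool.Agent.MP_5168f5_an.R4.WNGx
import Pool.Agent.MP_5168f5_an.R4.WTStep
import Pool.Agent.MP_5168f5_an.R4.WRect
import Pool.Agent.MP_5168f5_an.R4.WTen
import Pool.Agent.MP_5168f5_an.R4.WClo
import Pool.Agent.MP_5168f5_an.R4.WPot
import Pool.Agent.MP_5168f5_an.R4.WPot2
import Pool.Agent.MP_5168f5_an.R4.WInv

/-! Webs: all the statements. -/

namespace Pool.Agent.MP_5168f5_an.R4.Web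

theorem cover : Cover := rowCover
theorem sprW : Spr := rowSpr
theorem denP : DenP := rowDenP sprW
theorem ngx : NGx := rowNGx
theorem tStep : TStep := rowTStep cover
theorem rectW : Rect := rowRect cover denP ngx
theorem ten : Ten := rowTen sprW tStep rectW
theorem clo : Clo := rowClo sprW denP ngx
theorem pot : Pot := rowPot sprW ten clo
theorem pot2 : Pot2 := rowPot2 sprW tStep rectW clo
theorem invW : Inv := rowInv

end Pool.Agent.MP_5168f5_an.R4.Web
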