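import Pool.Agent.MP_5168f5_an.R4.SpecW

/-! A variable with small information can be replaced by a short list. -/

namespace Pool.Agent.MP_5168f5_an.R4.Web

open H19 H17S H17F Filter NCx

namespace WCoverA

variable {Ω W Γ D : Type}

theorem E_swap (P : FP Ω) (Q : FP W) (F : Ω → W → ℝ) :
    P.E (fun a => Q.E (fun b => F a b)) = Q.E (fun b => P.E (fun a => F a b)) := by
  simp only [FP.E, Finset.mul_sum]
  rw [Finset.sum_comm]
  exact Finset.sum_congr rfl fun _ _ => Finset.sum_congr rfl fun _ _ => by ring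

theorem ex_le (Q : FP W) (F : W → ℝ) : ∃ w ∈ Q.S, F w ≤ Q.E F := by
  have hne : Q.S.Nonempty := by
    by_contra h
    have := Q.sum_one
    rw [Finset.not_nonempty_iff_eq_empty.1 h] at this
    simp at this
  obtain ⟨w, hw, h⟩ := Q.S.exists_min_image F hne
  refine ⟨w, hw, ?_⟩
  have := Q.E_mono (F := fun _ => F w) h
  rwa [FP.E_const] at this

theorem pr_eq (Q : FP W) (g : W → Γ) (a : W) :
    pb Q (fun w => g w = g a) = Q.pr (Setoid.ker g) a := Q.E_congr fun _ _ => by congr

/-- The change of measure from the independent coupling to the given coupling. -/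
theorem gib (Q : FP W) (π : W → Ω) (C : W → D) (g : W → Γ) (h : D → Ω → ℝ)
    (h0 : ∀ c ω, 0 < h c ω) (h1 : ∀ a ∈ Q.S, (cv Q g (g a)).E (fun b => h (C b) (π a)) ≤ 1) :
    Q.E (fun v => Real.log (h (C v) (π v))) ≤ mi Q C π g := by
  classical
  set A := Setoid.ker fun v => (π v, g v) with hA
  set B := Setoid.ker fun v => (C v, g v) with hB
  set M := Setoid.ker g with hM
  set J := Setoid.ker fun v => (C v, π v, g v) with hJ
  have key : Q.H J ≤ Q.E fun v =>
      -Real.log (Q.pr A v * Q.pr B v / Q.pr M v * h (C v) (π v)) := by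
    refine Q.gibbs J _ (fun v hv => mul_pos (div_pos (mul_pos (Q.pr_pos A hv) (Q.pr_pos B hv))
      (Q.pr_pos M hv)) (h0 _ _)) ?_
    have e1 : Q.E (fun v => Q.pr A v * Q.pr B v / Q.pr M v * h (C v) (π v) / Q.pr J v) =
        Q.E (fun v => Q.E fun a => Q.E fun b =>
          if A a v ∧ B b v then h (C v) (π v) / Q.pr M v / Q.pr J v else 0) := by
      refine Q.E_congr fun v _ => ?_
      have : ∀ a, (Q.E fun b => if A a v ∧ B b v then h (C v) (π v) / Q.pr M v / Q.pr J v
          else 0) = (Q.pr B v * (h (C v) (π v) / Q.pr M v / Q.pr J v)) *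
            if A a v then 1 else 0 := by
        intro a
        by_cases k : A a v
        · simp only [k, true_and, if_true, mul_one]
          rw [mul_comm]
          unfold FP.pr
          rw [← FP.E_mul]
          exact Q.E_congr fun b _ => by split_ifs <;> simp
        · simp only [k, false_and, if_false, FP.E_const, mul_zero]
      simp only [this]
      rw [FP.E_mul]
      have e : (Q.E fun a => if A a v then (1 : ℝ) else 0) = Q.pr A v :=
        Q.E_congr fun _ _ => by congr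
      rw [e]
      ring
    rw [e1, FP.E_comm]
    have e2 : ∀ a ∈ Q.S, (Q.E fun v => Q.E fun b =>
        if A a v ∧ B b v then h (C v) (π v) / Q.pr M v / Q.pr J v else 0) ≤ 1 := by
      intro a ha
      rw [FP.E_comm]
      have hp := Q.pr_pos M ha
      have e3 : ∀ b ∈ Q.S, (Q.E fun v => if A a v ∧ B b v then
          h (C v) (π v) / Q.pr M v / Q.pr J v else 0) ≤
          (1 / Q.pr M a) * if g b = g a then h (C b) (π a) else 0 := by
        intro b _
        have hAv : ∀ v, A a v → π a = π v ∧ g a = g v := fun v k => Prod.mk.inj k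
        have hBv : ∀ v, B b v → C b = C v ∧ g b = g v := fun v k => Prod.mk.inj k
        by_cases k : g b = g a
        · have h4 := Q.class_sum J (fun v => A a v ∧ B b v) fun x _ y _ k1 k2 => by
            change (C x, π x, g x) = (C y, π y, g y)
            rw [← (hAv x k1.1).1, ← (hAv y k2.1).1, ← (hAv x k1.1).2, ← (hAv y k2.1).2,
              ← (hBv x k1.2).1, ← (hBv y k2.2).1]
          have h5 : (Q.E fun v => if A a v ∧ B b v then h (C v) (π v) / Q.pr M v / Q.pr J v
              else 0) = Q.E fun v => (1 / Q.pr M a * h (C b) (π a)) *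
                if A a v ∧ B b v then 1 / Q.pr J v else 0 := by
            refine Q.E_congr fun v _ => ?_
            by_cases h6 : A a v ∧ B b v
            · simp only [h6, and_self, if_true]
              rw [Q.pr_rel (R := M) (hAv v h6.1).2, (hAv v h6.1).1, (hBv v h6.2).1]; ring
            · rw [if_neg h6, if_neg h6, mul_zero]
          rw [h5, FP.E_mul, if_pos k]
          refine mul_le_of_le_one_right (mul_pos (by positivity) (h0 _ _)).le
            (le_trans (le_of_eq ?_) h4)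
          exact Q.E_congr fun v _ => by congr
        · have h5 : (Q.E fun v => if A a v ∧ B b v then h (C v) (π v) / Q.pr M v / Q.pr J v
              else 0) = Q.E fun _ => 0 := by
            refine Q.E_congr fun v _ => ?_
            rw [if_neg]
            rintro ⟨k1, k2⟩
            exact k ((hBv v k2).2.trans (hAv v k1).2.symm)
          rw [h5, FP.E_const]; simp [k]
      refine (Q.E_mono e3).trans ?_
      have e4 := E_cE Q (fun w => g w = g a) fun b => h (C b) (π a)
      have e5 : (Q.E fun b => if g b = g a then h (C b) (π a) else 0) =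
          Q.pr M a * (cv Q g (g a)).E fun b => h (C b) (π a) := by
        rw [← pr_eq]
        exact (Q.E_congr fun _ _ => by congr).trans e4.symm
      rw [FP.E_mul, e5, ← mul_assoc, one_div_mul_cancel hp.ne', one_mul]
      exact h1 a ha
    have := Q.E_mono e2
    rwa [FP.E_const] at this
  have e : (Q.E fun v => -Real.log (Q.pr A v * Q.pr B v / Q.pr M v * h (C v) (π v))) =
      Q.E fun v => ((-Real.log (Q.pr A v) + -Real.log (Q.pr B v)) - -Real.log (Q.pr M v)) -
        Real.log (h (C v) (π v)) := by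
    refine Q.E_congr fun v hv => ?_
    have a1 := Q.pr_pos A hv
    have a2 := Q.pr_pos B hv
    have a3 := Q.pr_pos M hv
    rw [Real.log_mul (by positivity) (h0 _ _).ne', Real.log_div (by positivity) a3.ne',
      Real.log_mul a1.ne' a2.ne']
    ring
  rw [e, FP.E_sub, FP.E_sub, FP.E_add] at key
  change _ ≤ (Q.H B - Q.H M) - (Q.H J - Q.H A)
  unfold FP.H at *
  linarith

open Classical in
/-- The cost of the good pairs is bounded by the information. -/
theorem cost (Q : FP W) (π : W → Ω) (C : W → D) (G : Ω → Γ) (Φ : D → Ω → Prop) (p : Ω → ℝ)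
    (hp : ∀ ω, p ω = pb (cv Q (fun v => G (π v)) (G ω)) fun w => Φ (C w) ω) :
    (∀ v ∈ Q.S, Φ (C v) (π v) → 0 < p (π v)) ∧
    Q.E (fun v => if Φ (C v) (π v) then -Real.log (p (π v)) else 0) ≤
      mi Q C π (fun v => G (π v)) + Real.log 2 := by
  have p0 : ∀ ω, 0 ≤ p ω := fun ω => by rw [hp]; exact pb_nonneg _ _
  have p1 : ∀ v ∈ Q.S, Φ (C v) (π v) → 0 < p (π v) := fun v hv k => by
    rw [hp]
    exact pb_pos _ ⟨v, (mem_cE (E := fun w => G (π w) = G (π v)) ⟨v, hv, rfl⟩ v).2 ⟨hv, rfl⟩, k⟩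
  refine ⟨p1, ?_⟩
  have h := gib Q π C (fun v => G (π v)) (fun c ω => 1 / 2 + if Φ c ω then 1 / (2 * p ω) else 0)
    (fun c ω => by
      have := p0 ω
      split_ifs <;> positivity) fun a _ => by
      have e : ((cv Q (fun v => G (π v)) (G (π a))).E fun b =>
          if Φ (C b) (π a) then 1 / (2 * p (π a)) else 0) = 1 / (2 * p (π a)) * p (π a) := by
        conv_rhs => rw [hp (π a), pb, ← FP.E_mul, ← pb, ← hp (π a)]
        exact FP.E_congr _ fun b _ => by split_ifs <;> simp
      rw [FP.E_add, FP.E_const, e]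
      rcases (p0 (π a)).eq_or_lt with k | k
      · rw [← k]; norm_num
      · have : 1 / (2 * p (π a)) * p (π a) = 1 / 2 := by field_simp
        rw [this]; norm_num
  have h2 : Q.E (fun v => (if Φ (C v) (π v) then -Real.log (p (π v)) else 0) - Real.log 2) ≤
      Q.E fun v => Real.log (1 / 2 + if Φ (C v) (π v) then 1 / (2 * p (π v)) else 0) := by
    refine Q.E_mono fun v hv => ?_
    by_cases k : Φ (C v) (π v)
    · have k1 := p1 v hv k
      simp only [k, if_true]
      refine le_trans (le_of_eq ?_) (Real.log_le_log (x := 1 / (2 * p (π v))) (by positivity)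
        (by linarith))
      rw [one_div, Real.log_inv, Real.log_mul two_ne_zero k1.ne']; ring
    · simp [k]
  rw [FP.E_sub, FP.E_const] at h2
  linarith

/-- Greedy covering. -/
theorem greedy (P : FP Ω) (Q : FP W) (C : W → D) (Φ : D → Ω → Prop) (A : Ω → Prop) (θ : ℝ)
    (h1 : θ ≤ 1) (hA : ∀ ω, A ω → θ ≤ pb Q fun w => Φ (C w) ω) (k : ℕ) :
    ∃ T : Finset D, T.card ≤ k ∧ pb P (fun ω => A ω ∧ ∀ c ∈ T, ¬Φ c ω) ≤ (1 - θ) ^ k := by
  classical
  induction k with
  | zero => exact ⟨∅, le_rfl, by rw [pow_zero]; exact pb_le_one _ _⟩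
  | succ k ih =>
    obtain ⟨T, a, b⟩ := ih
    obtain ⟨w, -, hw⟩ := ex_le Q fun w => pb P fun ω => (A ω ∧ ∀ c ∈ T, ¬Φ c ω) ∧ ¬Φ (C w) ω
    refine ⟨insert (C w) T, (Finset.card_insert_le _ _).trans (by omega), ?_⟩
    have e1 : pb P (fun ω => A ω ∧ ∀ c ∈ insert (C w) T, ¬Φ c ω) ≤
        pb P fun ω => (A ω ∧ ∀ c ∈ T, ¬Φ c ω) ∧ ¬Φ (C w) ω :=
      pb_mono fun ω _ u => ⟨⟨u.1, fun c hc => u.2 c (Finset.mem_insert_of_mem hc)⟩,
        u.2 _ (Finset.mem_insert_self _ _)⟩
    have e2 : (Q.E fun w => pb P fun ω => (A ω ∧ ∀ c ∈ T, ¬Φ c ω) ∧ ¬Φ (C w) ω) ≤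
        (1 - θ) * pb P fun ω => A ω ∧ ∀ c ∈ T, ¬Φ c ω := by
      unfold pb
      rw [E_swap, ← FP.E_mul]
      refine P.E_mono fun ω _ => ?_
      by_cases u : A ω ∧ ∀ c ∈ T, ¬Φ c ω
      · have e3 := pb_not Q fun w => Φ (C w) ω
        have e4 := hA ω u.1
        rw [if_pos u, mul_one]
        refine le_trans (le_of_eq ?_) (show pb Q (fun w => ¬Φ (C w) ω) ≤ 1 - θ by linarith)
        refine Q.E_congr fun w _ => ?_
        by_cases v : Φ (C w) ω
        · rw [if_neg fun x => x.2 v, if_neg fun x => x v]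
        · rw [if_pos ⟨u, v⟩, if_pos v]
      · rw [if_neg u, mul_zero]
        exact le_of_eq ((Q.E_congr fun w _ => if_neg fun v => u v.1).trans (Q.E_const 0))
    rw [pow_succ, mul_comm]
    exact e1.trans (hw.trans (e2.trans (mul_le_mul_of_nonneg_left b (by linarith))))

/-- Covering in every fibre. -/
theorem cover (P : FP Ω) (Q : Γ → FP W) (C : W → D) (G : Ω → Γ) (Φ : D → Ω → Prop) (θ : ℝ)
    (h1 : θ ≤ 1) (k : ℕ) : ∃ T : Γ → Finset D, (∀ g, (T g).card ≤ k) ∧
      pb P (fun ω => (θ ≤ pb (Q (G ω)) fun w => Φ (C w) ω) ∧ ∀ c ∈ T (G ω), ¬Φ c ω) ≤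
        (1 - θ) ^ k := by
  classical
  choose T a b using fun g => greedy (cv P G g) (Q g) C Φ
    (fun ω => θ ≤ pb (Q g) fun w => Φ (C w) ω) θ h1 (fun _ u => u) k
  refine ⟨T, a, ?_⟩
  have e := KEA.exp P G fun g ω =>
    if (θ ≤ pb (Q g) fun w => Φ (C w) ω) ∧ ∀ c ∈ T g, ¬Φ c ω then (1 : ℝ) else 0
  have e2 := P.E_mono fun ω (_ : ω ∈ P.S) => b (G ω)
  rw [FP.E_const] at e2
  refine le_trans (le_of_eq ?_) e2
  refine (P.E_congr fun _ _ => by congr).trans (e.trans (P.E_congr fun ω _ => ?_))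
  exact FP.E_congr _ fun _ _ => by congr

theorem geo {L : ℝ} (hL : 1 ≤ L) (m : ℕ) : (1 - 1 / L) ^ (⌈L⌉₊ * m) ≤ 1 / ((m : ℝ) + 1) := by
  have L0 : 0 < L := by linarith
  have h0 : 0 ≤ 1 - 1 / L := sub_nonneg.2 ((div_le_one L0).2 hL)
  have h1 : 1 - 1 / L ≤ Real.exp (-(1 / L)) := by linarith [Real.add_one_le_exp (-(1 / L))]
  refine (pow_le_pow_left₀ h0 h1 _).trans ?_
  rw [← Real.exp_nat_mul]
  have h2 : (m : ℝ) ≤ ((⌈L⌉₊ * m : ℕ) : ℝ) * (1 / L) := by
    rw [mul_one_div, le_div_iff₀ L0, Nat.cast_mul, mul_comm]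
    exact mul_le_mul_of_nonneg_right (Nat.le_ceil L) (Nat.cast_nonneg m)
  refine (Real.exp_le_exp.2 (show _ ≤ -(m : ℝ) by linarith)).trans ?_
  rw [Real.exp_neg, ← one_div]
  exact one_div_le_one_div_of_le (by positivity) (Real.add_one_le_exp _)

theorem card_le {L : ℝ} (hL : 1 ≤ L) (m : ℕ) :
    ((⌈L⌉₊ * m : ℕ) : ℝ) ≤ 2 * (L * ((m : ℝ) + 1)) := by
  have h1 := (Nat.ceil_lt_add_one (show 0 ≤ L by linarith)).le
  have h2 : (0 : ℝ) ≤ m := Nat.cast_nonneg m
  rw [Nat.cast_mul]
  nlinarith [mul_le_mul_of_nonneg_right h1 h2]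

end WCoverA

open WCoverA in
theorem rowCover : Cover := by
  classical
  intro Ω W Γ D P Q π C G Φ M hM hl hi hΦ
  obtain ⟨p, hp⟩ : ∃ p : ∀ n, Ω n → ℝ, ∀ n ω, p n ω =
      pb (cv (Q n) (fun v => G n (π n v)) (G n ω)) fun w => Φ n (C n w) ω := ⟨_, fun _ _ => rfl⟩
  have c := fun n => cost (Q n) (π n) (C n) (G n) (Φ n) (p n) (hp n)
  have p1 : ∀ n ω, p n ω ≤ 1 := fun n ω => by rw [hp]; exact pb_le_one _ _
  have s1 : Sm M fun n => (Q n).E fun v =>
      if Φ n (C n v) (π n v) then -Real.log (p n (π n v)) else 0 :=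
    (hi.add (hM.sm (Real.log 2))).mono (Eventually.of_forall fun n => (c n).2)
  obtain ⟨L, hL, w1⟩ := KSA.wsub Q (fun n v L => 1 / L ≤ p n (π n v)) M fun t ht _ => by
    have m := KSA.mark Q M (fun n v => if Φ n (C n v) (π n v) then -Real.log (p n (π n v)) else 0)
      t hM ht (Eventually.of_forall fun n v hv => by
      split_ifs with k
      · exact neg_nonneg.2 (Real.log_nonpos ((c n).1 v hv k).le (p1 n _))
      · exact le_rfl) s1
    refine (m.and hΦ).mono (Eventually.of_forall fun n v hv u => ?_)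
    have u1 := u.1
    rw [if_pos u.2] at u1
    rw [one_div, ← Real.exp_neg, ← Real.le_log_iff_exp_le ((c n).1 v hv u.2)]
    linarith
  have w2 : Whp P fun n ω => 1 / L n ≤ p n ω := fun ε hε => (w1 ε hε).mono fun n u =>
    ((hl n).pb_eq fun ω => ¬1 / L n ≤ p n ω).symm.trans_le u
  choose T a b using fun n => cover (P n) (fun g => cv (Q n) (fun v => G n (π n v)) g) (C n)
    (G n) (Φ n) (1 / L n) ((div_le_one (hL.pos n)).2 (hL.1 n)) (⌈L n⌉₊ * M n)
  refine ⟨fun n => 2 * (L n * ((M n : ℝ) + 1)), T, (hL.mul (Sub.nat hM)).const_mul hM one_le_two,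
    fun n g => le_trans (by exact_mod_cast a n g) (card_le (hL.1 n) (M n)), ?_⟩
  have w3 : Whp P fun n ω => ¬(1 / L n ≤ p n ω ∧ ∀ c ∈ T n (G n ω), ¬Φ n c ω) := fun ε hε => by
    filter_upwards [hM.ev (1 / ε)] with n u
    refine le_trans (pb_mono fun ω _ v => ?_) ((b n).trans ((geo (hL.1 n) (M n)).trans ?_))
    · rw [← hp]; exact not_not.1 v
    · rw [div_le_iff₀ hε] at u
      rw [div_le_iff₀ (by positivity)]
      linarith
  refine (w2.and w3).mono (Eventually.of_forall fun n ω _ u => ?_)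
  by_contra k
  exact u.2 ⟨u.1, fun c hc v => k ⟨c, hc, v⟩⟩

end Pool.Agent.MP_5168f5_an.R4.Web
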