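import Pool.Agent.MP_5168f5_an.R4.WRectA

/-! Planar webs: the rectangle on a finite space. -/

namespace Pool.Agent.MP_5168f5_an.R4.Web

open H19 H17S H17F Filter NCx

namespace WRectA

/-- The data of a planar web. -/
structure Wd (Ω T : Type) where
  Θ : Ω → T
  (a b φ u α β u' α' β' : Ω → ℝ)

namespace Wd

variable {Ω T : Type} (D : Wd Ω T) (P : FP Ω) (s : ℕ)

/-- The row without its offset. -/
def X (ω : Ω) : ℝ × ℝ × ℝ × T := (D.α ω, D.β ω, D.a ω, D.Θ ω)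

/-- The column and the strip. -/
noncomputable def χ (ω : Ω) : ℝ × ℝ × ℝ × ℝ × ℤ × T :=
  (D.u' ω, D.α' ω, D.β' ω, D.b ω, fl1 s (D.a ω), D.Θ ω)

/-- Two points on a column. -/
noncomputable def C : FP (Ω × Ω) := glue P P (D.χ s) (D.χ s)

/-- The data shared by the two columns. -/
noncomputable def ψ (v : Ω × Ω) : ℝ × (ℝ × ℝ × ℝ × T) × (ℝ × ℝ × ℝ × T) × ℤ :=
  (D.u v.2, D.X v.1, D.X v.2, fl1 s (D.u v.1))

/-- The rectangle. -/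
noncomputable def Q : FP ((Ω × Ω) × Ω × Ω) := glue (D.C P s) (D.C P s) (D.ψ s) (D.ψ s)

/-- The slope of the column. -/
def τ (ω : Ω) : ℝ := D.α' ω + 2 * D.β' ω * D.a ω

/-- The quotients. -/
noncomputable def γ (x : Ω → ℝ) (v : Ω × Ω) : ℝ := (x v.2 - x v.1) / (D.a v.2 - D.a v.1)

/-- The coefficients. -/
noncomputable def cf (w : (Ω × Ω) × Ω × Ω) : Fin 3 → ℝ :=
  ![D.τ w.2.1 - D.b w.2.1 * (D.γ D.α w.1 + D.γ D.β w.1 * D.b w.2.1), D.γ D.α w.1, D.γ D.β w.1]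

/-- The bounds. -/
structure Bd (l e : ℝ) (ω : Ω) : Prop where
  a : |D.a ω| ≤ l
  b : |D.b ω| ≤ l
  u : |D.u ω| ≤ l
  α : |D.α ω| ≤ l
  β : |D.β ω| ≤ l
  α' : |D.α' ω| ≤ l
  β' : |D.β' ω| ≤ l
  e1 : |D.φ ω - (D.u ω + D.α ω * D.b ω + D.β ω * D.b ω ^ 2)| ≤ e
  e2 : |D.φ ω - (D.u' ω + D.α' ω * D.a ω + D.β' ω * D.a ω ^ 2)| ≤ e

theorem c1 : Law (D.C P s) Prod.fst P id := kg.fst _ _ _ _

theorem c2 : Law (D.C P s) Prod.snd P id := kg.snd _ _ _ _ (Law.rfl _)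

theorem q1 : Law (D.Q P s) Prod.fst (D.C P s) id := kg.fst _ _ _ _

theorem q2 : Law (D.Q P s) Prod.snd (D.C P s) id := kg.snd _ _ _ _ (Law.rfl _)

theorem l11 : Law (D.Q P s) (fun w => w.1.1) P id := ((D.q1 P s).comp Prod.fst).trans (D.c1 P s)

theorem l12 : Law (D.Q P s) (fun w => w.1.2) P id := ((D.q1 P s).comp Prod.snd).trans (D.c2 P s)

theorem l21 : Law (D.Q P s) (fun w => w.2.1) P id := ((D.q2 P s).comp Prod.fst).trans (D.c1 P s)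

variable {D P s} {l e : ℝ} {m : ℕ}

theorem memC {v : Ω × Ω} (h : v ∈ (D.C P s).S) : v.1 ∈ P.S ∧ v.2 ∈ P.S ∧ D.u' v.2 = D.u' v.1 ∧
    D.α' v.2 = D.α' v.1 ∧ D.β' v.2 = D.β' v.1 ∧ D.b v.2 = D.b v.1 ∧
    fl1 s (D.a v.2) = fl1 s (D.a v.1) ∧ D.Θ v.2 = D.Θ v.1 := by
  simpa only [χ, Prod.mk.injEq] using (kg.mem _ _ _ _ v (Law.rfl _)).1 h

theorem memQ {w : (Ω × Ω) × Ω × Ω} (h : w ∈ (D.Q P s).S) : w.1 ∈ (D.C P s).S ∧
    w.2 ∈ (D.C P s).S ∧ D.u w.2.2 = D.u w.1.2 ∧ D.X w.2.1 = D.X w.1.1 ∧ D.X w.2.2 = D.X w.1.2 ∧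
    fl1 s (D.u w.2.1) = fl1 s (D.u w.1.1) := by
  simpa only [ψ, Prod.mk.injEq] using (kg.mem _ _ _ _ w (Law.rfl _)).1 h

theorem Bd.τ {ω : Ω} (h : D.Bd l e ω) (hl : 1 ≤ l) : |D.τ ω| ≤ 3 * l ^ 2 := by
  have h1 : |D.β' ω * D.a ω| ≤ l * l := by
    rw [abs_mul]; exact mul_le_mul h.β' h.a (abs_nonneg _) (by linarith)
  have h2 := abs_le.1 h.α'
  rw [abs_le] at h1 ⊢
  unfold Wd.τ
  constructor <;> nlinarith [h1.1, h1.2]

/-- The identity along a column. -/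
theorem col {v : Ω × Ω} (hv : v ∈ (D.C P s).S) (hl : 1 ≤ l) (hm : m ≤ s)
    (h : ∀ ω ∈ P.S, D.Bd l (l / 2 ^ s / 2 ^ m) ω) :
    |D.u v.1 - D.u v.2 - ((D.a v.1 - D.a v.2) * D.τ v.1 + (D.α v.2 - D.α v.1) * D.b v.1 +
      (D.β v.2 - D.β v.1) * D.b v.1 ^ 2)| ≤ 5 * l / 2 ^ s / 2 ^ m ∧
    |D.u v.2 - (D.u v.1 + (D.α v.1 - D.α v.2) * D.b v.1 + (D.β v.1 - D.β v.2) * D.b v.1 ^ 2)| ≤
      8 * l ^ 2 / 2 ^ s := by
  obtain ⟨m1, m2, k1, k2, k3, k4, k5, -⟩ := memC hv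
  have h1 := abs_le.1 (h _ m1).e1
  have h2 := abs_le.1 (h _ m1).e2
  have h3 := abs_le.1 (h _ m2).e1
  have h4 := abs_le.1 (h _ m2).e2
  rw [k4] at h3
  rw [k1, k2, k3] at h4
  have z1 := (abs_sub_lt_of_fl1_eq k5.symm).le
  have z2 : |D.β' v.1 * ((D.a v.1 - D.a v.2) * (D.a v.1 - D.a v.2))| ≤ l / 2 ^ s / 2 ^ m := by
    rw [abs_mul, abs_mul, div_eq_mul_inv, div_eq_mul_inv, mul_assoc]
    exact mul_le_mul (h _ m1).β' (mul_le_mul z1 (z1.trans (inv_anti₀ (by positivity)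
      (pow_le_pow_right₀ one_le_two hm))) (abs_nonneg _) (by positivity)) (by positivity)
      (by linarith)
  have z3 : |(D.a v.1 - D.a v.2) * D.τ v.1| ≤ 3 * l ^ 2 / 2 ^ s := by
    rw [abs_mul, div_eq_inv_mul]
    exact mul_le_mul z1 ((h _ m1).τ hl) (abs_nonneg _) (by positivity)
  have z4 : |D.u v.1 - D.u v.2 - ((D.a v.1 - D.a v.2) * D.τ v.1 + (D.α v.2 - D.α v.1) * D.b v.1 +
      (D.β v.2 - D.β v.1) * D.b v.1 ^ 2)| ≤ 5 * l / 2 ^ s / 2 ^ m := by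
    rw [abs_le] at z2 ⊢
    rw [show 5 * l / 2 ^ s / 2 ^ m = 5 * (l / 2 ^ s / 2 ^ m) by ring]
    unfold τ
    constructor <;> linarith [h1.1, h1.2, h2.1, h2.2, h3.1, h3.2, h4.1, h4.2, z2.1, z2.2]
  have z5 : 5 * l / 2 ^ s / 2 ^ m ≤ 5 * l ^ 2 / 2 ^ s :=
    (div_le_self (by positivity) (one_le_pow₀ one_le_two)).trans
      (div_le_div_of_nonneg_right (by nlinarith) (by positivity))
  refine ⟨z4, ?_⟩
  rw [abs_le] at z3 z4 ⊢
  rw [show 8 * l ^ 2 / 2 ^ s = 5 * l ^ 2 / 2 ^ s + 3 * l ^ 2 / 2 ^ s by ring]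
  constructor <;> linarith [z3.1, z3.2, z4.1, z4.2]

/-- The identity around the rectangle. -/
theorem rct {w : (Ω × Ω) × Ω × Ω} (hw : w ∈ (D.Q P s).S) (hl : 1 ≤ l) (hm : m ≤ s)
    (h : ∀ ω ∈ P.S, D.Bd l (l / 2 ^ s / 2 ^ m) ω) :
    |D.u w.1.1 - D.u w.2.1 - ((D.a w.1.1 - D.a w.1.2) * (D.τ w.1.1 - D.τ w.2.1) +
      (D.b w.1.1 - D.b w.2.1) * (D.α w.1.2 - D.α w.1.1 + (D.β w.1.2 - D.β w.1.1) *
        (D.b w.1.1 + D.b w.2.1)))| ≤ 10 * l / 2 ^ s / 2 ^ m := by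
  obtain ⟨m1, m2, k1, k2, k3, -⟩ := memQ hw
  have h1 := abs_le.1 (col m1 hl hm h).1
  have h2 := abs_le.1 (col m2 hl hm h).1
  simp only [X, Prod.mk.injEq] at k2 k3
  rw [k1, k2.1, k2.2.1, k2.2.2.1, k3.1, k3.2.1, k3.2.2.1] at h2
  rw [show 10 * l / 2 ^ s / 2 ^ m = 5 * l / 2 ^ s / 2 ^ m + 5 * l / 2 ^ s / 2 ^ m by ring, abs_le]
  constructor <;> linarith [h1.1, h1.2, h2.1, h2.2]

variable (D P s) (M : ℕ)

theorem eA : ch P (fun ω => fl1 M (D.a ω))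
    (fun ω => (D.u' ω, D.α' ω, D.β' ω, (D.b ω, D.Θ ω), fl1 s (D.a ω))) ≤
    ch (D.C P s) (fun v => D.a v.2) Prod.fst :=
  (ch_le ((Fn.comp _ _).left _) fun x _ y _ q => by
    simp only [χ, Prod.mk.injEq] at q ⊢; tauto).trans
    (kg.mk1 P P (D.χ s) (D.χ s) D.a id (Law.rfl _) (Fn.comp _ id)).ge

theorem eB : ch P (fun ω => fl1 M (D.b ω)) (fun ω => (D.u ω, D.X ω)) +
    ch (D.C P s) (fun v => D.a v.2) Prod.fst ≤
    ch (D.C P s) (fun v => fl1 M (D.b v.1)) (fun v => (D.u v.1, D.X v.1, D.X v.2)) +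
      ch (D.C P s) (fun v => D.a v.2) (fun v => D.a v.1) +
      ch P (fun ω => (D.α ω, D.β ω)) fun ω => (D.a ω, D.Θ ω) := by
  have h1 := (D.c1 P s).ch_id (fun ω => fl1 M (D.b ω)) fun ω => (D.u ω, D.X ω)
  have h2 := (D.c2 P s).ch_id (fun ω => (D.α ω, D.β ω)) fun ω => (D.a ω, D.Θ ω)
  have h3 := ch_symm (P := D.C P s) (fun v => fl1 M (D.b v.1)) (fun v => D.a v.2)
    fun v => (D.u v.1, D.X v.1)
  have h4 : ch (D.C P s) (fun v => D.a v.2) Prod.fst ≤ ch (D.C P s) (fun v => D.a v.2)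
      fun v => (fl1 M (D.b v.1), D.u v.1, D.X v.1) := ch_anti fun x _ y _ q => by rw [q]
  have h5 : ch (D.C P s) (fun v => D.a v.2) (fun v => (D.u v.1, D.X v.1)) ≤
      ch (D.C P s) (fun v => D.a v.2) fun v => D.a v.1 :=
    ch_anti fun x _ y _ q => congrArg (·.2.2.2.1) q
  have h6 := ch_drop (P := D.C P s) (fun v => fl1 M (D.b v.1)) (fun v => (D.α v.2, D.β v.2))
    fun v => (D.a v.2, D.u v.1, D.X v.1)
  have h7 : ch (D.C P s) (fun v => fl1 M (D.b v.1))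
      (fun v => ((D.α v.2, D.β v.2), D.a v.2, D.u v.1, D.X v.1)) ≤
      ch (D.C P s) (fun v => fl1 M (D.b v.1)) fun v => (D.u v.1, D.X v.1, D.X v.2) :=
    ch_anti fun x hx y hy q => by
      simp only [X, Prod.mk.injEq, (memC hx).2.2.2.2.2.2.2, (memC hy).2.2.2.2.2.2.2] at q ⊢; tauto
  have h8 : ch (D.C P s) (fun v => (D.α v.2, D.β v.2)) (fun v => (D.a v.2, D.u v.1, D.X v.1)) ≤
      ch (D.C P s) (fun v => (D.α v.2, D.β v.2)) fun v => (D.a v.2, D.Θ v.2) :=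
    ch_anti fun x hx y hy q => by
      simp only [X, Prod.mk.injEq, (memC hx).2.2.2.2.2.2.2, (memC hy).2.2.2.2.2.2.2] at q ⊢; tauto
  linarith

theorem eC : ch (D.C P s) (fun v => fl1 M (D.b v.1)) (fun v => (D.u v.1, D.X v.1, D.X v.2)) +
    ch (D.C P s) (fun v => D.a v.2) Prod.fst ≤
    ch (D.Q P s) (fun w => (D.a w.1.2, D.b w.2.1)) (fun w => w.1.1) +
      ch (D.C P s) (fun v => fl1 s (D.u v.1)) fun v => D.u v.2 := by
  have h1 : ch (D.C P s) (fun v => fl1 M (D.b v.1)) (fun v => (D.u v.1, D.X v.1, D.X v.2)) =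
      ch (D.C P s) (fun v => fl1 M (D.b v.1)) fun v => (D.u v.2, D.X v.2, D.X v.1) :=
    ((kg.swap P P _ _ (Law.rfl _)).ch_eq (fun v => fl1 M (D.b v.1))
      fun v => (D.u v.1, D.X v.1, D.X v.2)).trans
      (ch_ext (fun v hv => congrArg _ (memC hv).2.2.2.2.2.1) fun _ _ => rfl)
  have h2 := ch_drop (P := D.C P s) (fun v => fl1 M (D.b v.1)) (fun v => fl1 s (D.u v.1))
    fun v => (D.u v.2, D.X v.2, D.X v.1)
  have h3 : ch (D.C P s) (fun v => fl1 M (D.b v.1))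
      (fun v => (fl1 s (D.u v.1), D.u v.2, D.X v.2, D.X v.1)) ≤
      ch (D.C P s) (fun v => D.b v.1) (D.ψ s) :=
    ch_le ((Fn.comp _ _).left _) fun x _ y _ q => by simp only [ψ, Prod.mk.injEq] at q ⊢; tauto
  have h4 : ch (D.C P s) (fun v => fl1 s (D.u v.1)) (fun v => (D.u v.2, D.X v.2, D.X v.1)) ≤
      ch (D.C P s) (fun v => fl1 s (D.u v.1)) fun v => D.u v.2 := ch_anti (Fn.fst _ _)
  have h5 : ch (D.Q P s) (fun w => D.b w.2.1) Prod.fst = ch (D.C P s) (fun v => D.b v.1) (D.ψ s) :=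
    kg.mk1 _ _ (D.ψ s) (D.ψ s) (fun v => D.b v.1) id (Law.rfl _) (Fn.comp _ id)
  have h6 := (D.q1 P s).ch_id (fun v => D.a v.2) Prod.fst
  have h7 := ch_chain (P := D.Q P s) (fun w => D.a w.1.2) (fun w => D.b w.2.1) fun w => w.1.1
  have h8 : ch (D.Q P s) (fun w => D.b w.2.1) Prod.fst ≤
      ch (D.Q P s) (fun w => D.b w.2.1) fun w => (D.a w.1.2, w.1.1) :=
    ch_anti fun x _ y _ q => by rw [q]
  linarith

theorem eD : ch P (fun ω => fl1 M (D.b ω)) (fun ω => (D.u ω, D.X ω)) +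
    ch (D.Q P s) (fun w => (D.a w.1.2, D.b w.2.1)) (fun w => w.1.1) ≤
    ch (D.Q P s) (fun w => (D.a w.1.2, D.b w.1.1, D.b w.2.1)) fun w => (D.u w.1.1, D.X w.1.1) := by
  have h1 := (D.l11 P s).ch_id (fun ω => fl1 M (D.b ω)) fun ω => (D.u ω, D.X ω)
  have h2 := ch_chain (P := D.Q P s) (fun w => fl1 M (D.b w.1.1))
    (fun w => (D.a w.1.2, D.b w.2.1)) fun w => (D.u w.1.1, D.X w.1.1)
  have h3 : ch (D.Q P s) (fun w => (D.a w.1.2, D.b w.2.1)) (fun w => w.1.1) ≤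
      ch (D.Q P s) (fun w => (D.a w.1.2, D.b w.2.1))
        fun w => (fl1 M (D.b w.1.1), D.u w.1.1, D.X w.1.1) :=
    ch_anti fun x _ y _ q => by simp only [q]
  have h4 : ch (D.Q P s) (fun w => (fl1 M (D.b w.1.1), D.a w.1.2, D.b w.2.1))
      (fun w => (D.u w.1.1, D.X w.1.1)) ≤ ch (D.Q P s)
      (fun w => (D.a w.1.2, D.b w.1.1, D.b w.2.1)) fun w => (D.u w.1.1, D.X w.1.1) :=
    ch_mono fun x _ y _ q => by simp only [Prod.mk.injEq] at q; simp only [q]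
  linarith

theorem eE : ch (D.Q P s) (fun w => (D.α w.1.2 - D.α w.1.1, D.β w.1.2 - D.β w.1.1))
      (fun w => (D.a w.1.2, D.X w.1.1)) ≤ ch P (fun ω => (D.α ω, D.β ω)) fun ω => (D.a ω, D.Θ ω) := by
  rw [← (D.l12 P s).ch_id]
  refine ch_le (fun x _ y _ q => ?_) fun x hx y hy q => ?_
  · simp only [X, Prod.mk.injEq] at q
    simp only [q]
  · simp only [X, Prod.mk.injEq, (memC (memQ hx).1).2.2.2.2.2.2.2,
      (memC (memQ hy).1).2.2.2.2.2.2.2] at q ⊢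
    tauto

theorem eF : ch (D.Q P s) (fun w => (D.τ w.1.1, D.τ w.2.1))
      (fun w => ((D.b w.1.1, D.b w.2.1), D.X w.1.1)) ≤
    2 * ch P (fun ω => (D.α' ω, D.β' ω)) fun ω => (D.b ω, D.Θ ω) := by
  rw [two_mul]
  refine (ch_subadd _ _ _).trans (add_le_add ?_ ?_)
  · rw [← (D.l11 P s).ch_id]
    refine ch_le (fun x _ y _ q => ?_) fun x _ y _ q => ?_ <;>
      simp only [X, Prod.mk.injEq] at q <;> simp only [τ, q]
  · rw [← (D.l21 P s).ch_id]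
    refine ch_le (fun x hx y hy q => ?_) fun x hx y hy q => ?_ <;>
      simp only [← (memQ hx).2.2.2.1, ← (memQ hy).2.2.2.1] at q <;>
      simp only [X, Prod.mk.injEq] at q <;> simp only [τ, q]

theorem eG : mi (D.Q P s) D.cf (fun w => w.1.1) (fun w => (D.a w.1.1, D.Θ w.1.1)) +
      ch (D.Q P s) (fun w => (D.a w.1.2, D.b w.2.1)) (fun w => w.1.1) ≤
    ch (D.C P s) (fun v => D.a v.2) (fun v => D.a v.1) + ch P D.b (fun _ => ()) +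
      (2 * ch P (fun ω => (D.α ω, D.β ω)) (fun ω => (D.a ω, D.Θ ω)) +
        ch P (fun ω => (D.α' ω, D.β' ω)) fun ω => (D.b ω, D.Θ ω)) := by
  have h1 := mi_near (P := D.Q P s) (fun w => w.1.1) D.cf (fun w => (D.a w.1.2, D.b w.2.1))
    fun w => (D.a w.1.1, D.Θ w.1.1)
  rw [mi_symm _ D.cf, mi_symm (fun w : (Ω × Ω) × Ω × Ω => w.1.1)] at h1
  set K := fun w : (Ω × Ω) × Ω × Ω => ((D.a w.1.2, D.b w.2.1), D.a w.1.1, D.Θ w.1.1)
  have h2 := ch_subadd (P := D.Q P s) (fun w => D.a w.1.2) (fun w => D.b w.2.1)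
    fun w => (D.a w.1.1, D.Θ w.1.1)
  have h3 : ch (D.Q P s) (fun w => D.a w.1.2) (fun w => (D.a w.1.1, D.Θ w.1.1)) ≤ _ :=
    (ch_anti (Fn.fst _ _)).trans ((D.q1 P s).ch_id (fun v => D.a v.2) fun v => D.a v.1).le
  have h4 : ch (D.Q P s) (fun w => D.b w.2.1) (fun w => (D.a w.1.1, D.Θ w.1.1)) ≤ _ :=
    (ch_anti fun _ _ _ _ _ => rfl).trans ((D.l21 P s).ch_id D.b fun _ => ()).le
  have h5 : ch (D.Q P s) (fun w => (D.a w.1.2, D.b w.2.1)) (fun w => w.1.1) ≤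
      ch (D.Q P s) (fun w => (D.a w.1.2, D.b w.2.1)) fun w => (w.1.1, D.a w.1.1, D.Θ w.1.1) :=
    ch_anti fun x _ y _ q => by simp only [q]
  have h6 : ch (D.Q P s) D.cf K ≤ ch (D.Q P s) (fun w => ((D.α w.1.1, D.β w.1.1),
      (D.α w.1.2, D.β w.1.2), D.α' w.2.1, D.β' w.2.1)) K := ch_mono fun x hx y hy q => by
    have k1 := congrArg (·.2.2.1) (memQ hx).2.2.2.1
    have k2 := congrArg (·.2.2.1) (memQ hy).2.2.2.1
    simp only [X] at k1 k2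
    simp only [K, Prod.mk.injEq] at q
    simp only [cf, γ, τ, k1, k2, q]
  have h7 := ch_subadd (P := D.Q P s) (fun w => (D.α w.1.1, D.β w.1.1))
    (fun w => ((D.α w.1.2, D.β w.1.2), D.α' w.2.1, D.β' w.2.1)) K
  have h8 := ch_subadd (P := D.Q P s) (fun w => (D.α w.1.2, D.β w.1.2))
    (fun w => (D.α' w.2.1, D.β' w.2.1)) K
  have h9 : ch (D.Q P s) (fun w => (D.α w.1.1, D.β w.1.1)) K ≤ _ := (ch_anti (Fn.snd _ _)).trans
    ((D.l11 P s).ch_id (fun ω => (D.α ω, D.β ω)) fun ω => (D.a ω, D.Θ ω)).le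
  have h10 : ch (D.Q P s) (fun w => (D.α w.1.2, D.β w.1.2)) K ≤ _ :=
    (ch_anti fun x hx y hy q => by
      simp only [K, Prod.mk.injEq, (memC (memQ hx).1).2.2.2.2.2.2.2,
        (memC (memQ hy).1).2.2.2.2.2.2.2] at q ⊢
      tauto).trans ((D.l12 P s).ch_id (fun ω => (D.α ω, D.β ω)) fun ω => (D.a ω, D.Θ ω)).le
  have h11 : ch (D.Q P s) (fun w => (D.α' w.2.1, D.β' w.2.1)) K ≤ _ :=
    (ch_anti fun x hx y hy q => by
      have k1 := congrArg (·.2.2.2) (memQ hx).2.2.2.1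
      have k2 := congrArg (·.2.2.2) (memQ hy).2.2.2.1
      simp only [X] at k1 k2
      simp only [K, Prod.mk.injEq, k1, k2] at q ⊢
      tauto).trans ((D.l21 P s).ch_id (fun ω => (D.α' ω, D.β' ω)) fun ω => (D.b ω, D.Θ ω)).le
  unfold mi at h1 ⊢
  linarith

theorem eH (m : ℕ) : ch (D.Q P s) (fun w => fl1 m (2 ^ s * D.u w.2.1))
      (fun w => (D.X w.1.1, fl1 s (D.u w.1.1), sg M (D.b w.1.1) (D.b w.2.1))) =
    ch (D.Q P s) (fun w => fl1 m (2 ^ s * D.u w.1.1))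
      fun w => (D.X w.1.1, fl1 s (D.u w.1.1), sg M (D.b w.1.1) (D.b w.2.1)) :=
  ((kg.swap _ _ _ _ (Law.rfl (D.ψ s))).ch_eq (fun w => fl1 m (2 ^ s * D.u w.2.1))
    fun w => (D.X w.1.1, fl1 s (D.u w.1.1), sg M (D.b w.1.1) (D.b w.2.1))).trans
    (ch_ext (fun _ _ => rfl) fun w hw => by
      simp only [Prod.fst_swap, Prod.snd_swap, (memQ hw).2.2.2.1, (memQ hw).2.2.2.2.2]
      rw [sg_comm])

end Wd

end WRectA

end Pool.Agent.MP_5168f5_an.R4.Web
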