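import Pool.Agent.MP_5168f5_an.R4.SpecW2
import Pool.Agent.MP_5168f5_an.R4.WRect

/-! The rectangle step when the columns are only full in strips. -/

namespace Pool.Agent.MP_5168f5_an.R4.Web

theorem rowRectS : OfRectS :=
  fun cov den ngx _ _ _ Θ a b φ u α β u' α' β' _ _ _ _ _ hM hR hm hs h0 h1 l1 l2 ng =>
  WRectA.mainS cov den ngx (fun n => ⟨Θ n, a n, b n, φ n, u n, α n, β n, u' n, α' n, β' n⟩) hM hR
    hm (fun n => (hs n).1) (fun n => (hs n).2) h0 h1 l1 l2.grid l2.bd l2.ful l2.sv ng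

end Pool.Agent.MP_5168f5_an.R4.Web
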