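import Pool.Agent.MP_5168f5_an.R4.SpecO

/-! Kakeya sets in four dimensions: a member as the base. -/

namespace Pool.Agent.MP_5168f5_an.R4

open H19 H17S H17F Filter

theorem rowOBase : OBase := by
  intro Ω K g M η F φ X h hX
  have c := h.cls.cl.map fun n => (X n).ρ
  refine ⟨⟨⟨⟨c.toCl0, h.cls.pos, fun Y hY => h.cls.bs _ hY, fun Y hY => h.cls.br _ hY⟩, c.cf,
    Mb.base X.P, hX⟩, fun ε hε => (h.brd ε hε).imp fun a ha => ⟨ha.1, fun Y hY => ha.2 _ hY⟩,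
    fun Y hY => ?_, fun i Y j j' τ ε hY => ?_⟩, h.step, h.bd, fun Y hY => h.ex _ hY⟩
  · obtain ⟨⟨L, a, b⟩, d⟩ := h.opt.ok _ hY
    refine ⟨⟨L, a, b.mono fun n u => ⟨u.nest, fun i => ?_, fun i => ?_, u.mono, u.le⟩⟩, d⟩
    · cases i
      exacts [u.fd none, u.fd (some _)]
    · cases i
      exacts [u.fit none, u.fit (some _)]
  · cases i
    exacts [h.opt.opt none _ j j' τ ε hY, h.opt.opt (some _) _ j j' τ ε hY]

end Pool.Agent.MP_5168f5_an.R4
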