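import Pool.Agent.MP_5168f5_an.R4.SpecT

/-! The thickness profiles of an optimal family. -/

namespace Pool.Agent.MP_5168f5_an.R4

open H19 H17S H17F Filter

namespace PRA

variable {Ω : ℕ → Type} {K : Mb Ω → Prop} {g : Gs 3 Ω} {M : ℕ → ℕ} {η : ℝ}
  {F : ∀ n, Fam (g n).sh5}

theorem big (h : Go K g M η F) : Big M := h.cls.ne.elim fun X hX => (h.cls.bs X hX).big

theorem alg (h : Go K g M η F) (i : I5) :
    ∀ᶠ n in UF, Monotone ((F n).τ i) ∧ ∀ j, (F n).τ i j ≤ M n := by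
  obtain ⟨X, hX⟩ := h.cls.ne
  obtain ⟨L, -, a⟩ := (h.opt.ok X hX).alg
  exact a.mono fun n b => ⟨b.mono i, b.le i⟩

theorem bd (h : Go K g M η F) (i : I5) :
    ∀ᶠ n in UF, ∀ j, |(((F n).τ i j : ℕ) : ℝ)| ≤ 1 * M n :=
  (alg h i).mono fun n a j => by rw [Nat.abs_cast, one_mul]; exact_mod_cast a.2 j

theorem eqv (h : Go K g M η F) (i : I5) (c : ℝ) :
    Eqv M (fun n => (F n).τ i (lev M c n)) fun n => pr M F i c * M n :=
  prof_eqv (φ := fun n j => (F n).τ i j) (big h) (bd h i) c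

theorem self (h : Go K g M η F) (i : I5) {X : Mb Ω} (hX : K X) (j : ℕ → ℕ) :
    Thin X.P (X.G (g.fin M)) M (fun n => ((g n).sh5 i).pull (X n).ρ) j fun n => (F n).τ i (j n) := by
  obtain ⟨L, hL, a⟩ := (h.opt.ok X hX).alg
  exact ⟨_, _, fun n v => (F n).d i (j n) ((X n).ρ v), L, (h.opt.ok X hX).lab j, hL,
    a.mono fun n b => ⟨b.fd i (j n), b.fit i (j n)⟩⟩

theorem opt (h : Go K g M η F) (i : I5) {X : Mb Ω} (hX : K X) {j τ : ℕ → ℕ} {c ε : ℝ}
    (hε : 0 < ε) (hc : c ≤ 1) (e : ∀ᶠ n in UF, j n + ε * M n ≤ lev M c n ∧ τ n ≤ M n)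
    (t : Thin X.P (X.G (g.fin M)) M (fun n => ((g n).sh5 i).pull (X n).ρ) j τ) :
    Le M (fun n => τ n) fun n => pr M F i c * M n :=
  (h.opt.opt i X j (lev M c) τ ε hX hε (e.mono fun n a => ⟨a.1, lev_le M hc n, a.2⟩) t).trans
    (eqv h i c).1

theorem thin (h : Go K g M η F) (i : I5) {X : Mb Ω} {j τ : ℕ → ℕ} {c c' : ℝ} (hX : K X)
    (h0 : 0 ≤ c) (hc : c < c') (h1 : c' ≤ 1) (e : ∀ᶠ n in UF, j n ≤ lev M c n ∧ τ n ≤ M n)
    (t : Thin X.P (X.G (g.fin M)) M (fun n => ((g n).sh5 i).pull (X n).ρ) j τ) :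
    Le M (fun n => τ n) fun n => pr M F i c' * M n := by
  refine opt h i hX (half_pos (sub_pos.2 hc)) h1 ?_ t
  filter_upwards [e, lev_gap (big h) h0 (ε := (c' - c) / 2) (c' := c') (by linarith)] with n a b
  exact ⟨le_trans (add_le_add (Nat.cast_le.2 a.1) le_rfl) b, a.2⟩

theorem cmp (h : Go K g M η F) (i i' : I5) (Ψ : ∀ n, ((g n).sh5 i).D → ((g n).sh5 i').D)
    (hΨ : ∀ n L d ω j τ, 1 ≤ L → ((g n).sh5 i).fit L d ω j τ → ((g n).sh5 i').fit L (Ψ n d) ω j τ)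
    {c c' : ℝ} (h0 : 0 ≤ c) (hc : c < c') (h1 : c' ≤ 1) : pr M F i c ≤ pr M F i' c' := by
  obtain ⟨X, hX⟩ := h.cls.ne
  obtain ⟨Λ, lam, d, L, a, b, e⟩ := self h i hX (lev M c)
  refine Le.num (big h) ((eqv h i c).2.trans (thin h i' hX h0 hc h1
    ((alg h i).mono fun n u => ⟨le_rfl, u.2 _⟩) ⟨Λ, lam, fun n v => Ψ n (d n v), L, a, b, ?_⟩))
  exact e.mono fun n u => ⟨fun x hx y hy w => congrArg (Ψ n) (u.1 x hx y hy w),
    fun ω hω => hΨ n _ _ _ _ _ (b.1 n) (u.2 ω hω)⟩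

theorem grow (kq : KQ) (h : Go K g M η F) (i : I5) {X : Mb Ω} (hX : K X) (j k : ℕ → ℕ) :
    Thin X.P (X.G (g.fin M)) M (fun n => ((g n).sh5 i).pull (X n).ρ) (fun n => j n + k n)
      fun n => min (M n) ((F n).τ i (j n) + k n) := by
  have b := h.cls.bs X hX
  have f : ∀ m, Fat X.P (X.G (g.fin M)) M m M := (kb.fatB _ _ M (fun n _ => M n) b).2.1
  cases i with
  | none => exact kq.grow _ _ M j k _ b f ((alg h none).mono fun n u => u.2 _) (self h none hX j)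
  | some v => exact kp.grow _ _ M j k _ M _ _ b (f _) (fun m _ => f m) (self h (some v) hX j)

theorem exp (kq : KQ) (h : Go K g M η F) (i : I5) {c c' δ : ℝ} (h0 : 0 ≤ c) (hδ : 0 < δ)
    (hc : δ ≤ c' - c) (h1 : c' ≤ 1) : min 1 (pr M F i c + (c' - c - δ)) ≤ pr M F i c' := by
  obtain ⟨X, hX⟩ := h.cls.ne
  have t := opt h i hX (half_pos hδ) h1 ?_ (grow kq h i hX (lev M c) (lev M (c' - c - δ)))
  · refine Le.num (big h) (Le.trans (fun ε hε => ?_) t)
    filter_upwards [(eqv h i c).2 _ (half_pos hε), (lev_eqv (big h) (sub_nonneg.2 hc)).2 _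
      (half_pos hε)] with n a b
    have m0 : (0 : ℝ) ≤ M n := Nat.cast_nonneg _
    have u := mul_le_mul_of_nonneg_right (min_le_left 1 (pr M F i c + (c' - c - δ))) m0
    have v := mul_le_mul_of_nonneg_right (min_le_right 1 (pr M F i c + (c' - c - δ))) m0
    push_cast
    rw [← min_add_add_right]
    exact le_min (by linarith [mul_nonneg hε.le m0]) (by linarith)
  · filter_upwards [(big h).ev (2 / δ)] with n a
    rw [div_le_iff₀ hδ] at a
    refine ⟨?_, min_le_left _ _⟩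
    push_cast
    linarith [lev_le' M h0 n, lev_le' M (sub_nonneg.2 hc) n, lt_lev M c' n]

end PRA

open PRA in
theorem rowPR : OfPR := by
  intro kq Ω K g M η F h
  have mono : ∀ i, Monotone (pr M F i) := fun i => prof_mono (φ := fun n j => (F n).τ i j) (big h)
    (bd h i) ((alg h i).mono fun n a x y e => Nat.cast_le.2 (a.1 e))
  refine ⟨mono, fun i c => ⟨Le.num (big h) (Le.trans (Le.of_le fun n => ?_) (eqv h i c).1),
    Le.num (big h) ((eqv h i c).2.trans (Le.of_ev ((bd h i).mono fun n a => (abs_le.1 (a _)).2)))⟩,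
    eqv h, fun i c c' h0 hc h1 => le_of_forall_pos_le_add fun δ hδ => ?_,
    fun k c c' => cmp h (iU k) (iH k) (fun _ d => d) fun n L d ω j τ _ a =>
      ⟨a.1, fun m => ⟨(a.2.1 m).1, fun b => (a.2.1 m).2 fun e => b ?_⟩, a.2.2⟩,
    fun k c c' => ?_, fun i X j τ c c' => thin h i⟩
  · rw [zero_mul]
    exact Nat.cast_nonneg _
  · rcases le_total δ (c' - c) with a | a
    · refine le_trans ?_ (add_le_add (exp kq h i h0 hδ a h1) le_rfl)
      rw [← min_add_add_right]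
      exact min_le_min (by linarith) (by linarith)
    · linarith [mono i hc, min_le_right 1 (pr M F i c + (c' - c))]
  · exact Finset.mem_insert.2 (Or.inl (Finset.mem_singleton.1 e))
  · obtain ⟨Ψ, hΨ⟩ := kq.pl
    exact cmp h (iH k) iQ (fun _ => Ψ k) fun n L d ω j τ => hΨ (g n) true k L d ω j τ

end Pool.Agent.MP_5168f5_an.R4
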