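import Pool.Agent.MP_5168f5_an.R4.XRect1

/-! The rectangle step: from the bilinear relation to affine slopes. -/

namespace Pool.Agent.MP_5168f5_an.R4.XRect

open H19 H17S H17F Filter NCx

/-- The grid point with given digits. -/
noncomputable def gp {N : ℕ} (j : ℕ) (u : Z N) : V N := ((2 : ℝ) ^ j)⁻¹ • cz u

theorem gp_fl {N : ℕ} (j : ℕ) (y : V N) : ‖gp j (fl j y) - y‖ ≤ 1 / 2 ^ j :=
  (norm_rd j y).trans (one_div _).ge

theorem one_div_le (j : ℕ) : (1 : ℝ) / 2 ^ j ≤ 1 := div_le_one_of_le₀ (one_le_pow₀ one_le_two)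
  (by positivity)

theorem norm_gp {N : ℕ} (j : ℕ) {y : V N} {L : ℝ} (h : ‖y‖ ≤ L) : ‖gp j (fl j y)‖ ≤ L + 1 := by
  linarith [norm_le_norm_add_norm_sub' (gp j (fl j y)) y, gp_fl j y, one_div_le j]

theorem norm_smul_le' {N : ℕ} {s A B : ℝ} {y : V N} (h : |s| ≤ A) (h' : ‖y‖ ≤ B) :
    ‖s • y‖ ≤ A * B := by
  rw [norm_smul]; exact mul_le_mul h h' (norm_nonneg _) ((abs_nonneg _).trans h)

theorem inv_le' {s A : ℝ} (h : 1 ≤ A * |s|) : s ≠ 0 ∧ |s⁻¹| ≤ A := by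
  have h0 : s ≠ 0 := by rintro rfl; norm_num at h
  exact ⟨h0, by rw [abs_inv]; exact (inv_le_iff_one_le_mul₀ (abs_pos.2 h0)).2 h⟩

variable {N : ℕ} {W Γ K D₁ D₂ W₁ W₂ : ℕ → Type} {Q : ∀ n, FP (W n)} {R r : ℕ → ℕ} {L : ℕ → ℝ}
  {G : ∀ n, W n → Γ n} {d₁ : ∀ n, W n → D₁ n} {d₂ : ∀ n, W n → D₂ n} {w₁ : ∀ n, W n → W₁ n}
  {w₂ : ∀ n, W n → W₂ n} {a₁ a₂ b₁ b₂ : ∀ n, W n → ℝ} {α₁ α₂ β₁ β₂ H : ∀ n, W n → V N}

/-- The intercept has small entropy. -/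
theorem icpt {k : ∀ n, W n → K n} (hR : Big R) (hL : Sub R L) (hr : ∀ n, r n ≤ R n)
    (h : ∀ᶠ n in UF, Fn (Q n) (fun v => (a₁ n v, α₁ n v)) (d₁ n) ∧
      Fn (Q n) (fun v => (a₂ n v, α₂ n v)) (d₂ n) ∧ Fn (Q n) (H n) (k n) ∧
      ∀ v ∈ (Q n).S, ‖α₁ n v - a₁ n v • H n v‖ ≤ L n)
    (hw : Whp Q fun n v => ‖α₁ n v - a₁ n v • H n v - (α₂ n v - a₂ n v • H n v)‖ ≤ L n / 2 ^ r n)
    (i1 : Sm R fun n => mi (Q n) (d₁ n) (d₂ n) (G n)) (i2 : Sm R fun n => ch (Q n) (k n) (G n)) :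
    Sm R fun n => ch (Q n) (fun v => fl (r n) (α₁ n v - a₁ n v • H n v)) fun v => (k n v, G n v) := by
  have f : ∀ {n} {D : Type} {a : W n → ℝ} {α : W n → V N} {d : W n → D},
      Fn (Q n) (fun v => (a v, α v)) d → Fn (Q n) (H n) (k n) →
      Fn (Q n) (fun v => α v - a v • H n v) fun v => (d v, k n v, G n v) :=
    fun h1 h2 x hx y hy e => by
      simp only [Prod.mk.injEq] at e
      have := Prod.mk.inj (h1 x hx y hy e.1)
      simp only [this.1, this.2, h2 x hx y hy e.2.1]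
  exact ciw (y₁ := fun n v => α₁ n v - a₁ n v • H n v) (y₂ := fun n v => α₂ n v - a₂ n v • H n v)
    (F := d₁) (F' := d₂) hR hL hr (h.mono fun n hn => ⟨f hn.1 hn.2.2.1, f hn.2.1 hn.2.2.1,
      hn.2.2.2⟩) (hw.mono (Eventually.of_forall fun n v _ k =>
      ⟨by rw [sub_self, norm_zero]; exact div_nonneg (hL.pos n).le (by positivity), k⟩))
    ((i1.add i2).mono (Eventually.of_forall fun n => mi_ctx _ _ _ _))

/-- The slopes are affine. -/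
theorem affine (hR : Big R) (hL : Sub R L) (hr : ∀ n, r n ≤ R n)
    (h : ∀ᶠ n in UF, Fn (Q n) (fun v => (a₁ n v, α₁ n v)) (d₁ n) ∧
      Fn (Q n) (fun v => (a₂ n v, α₂ n v)) (d₂ n) ∧ Fn (Q n) (fun v => (b₁ n v, β₁ n v)) (w₁ n) ∧
      Fn (Q n) (fun v => (b₂ n v, β₂ n v)) (w₂ n) ∧ ∀ v ∈ (Q n).S, |a₁ n v| ≤ L n ∧
        |a₂ n v| ≤ L n ∧ |b₁ n v| ≤ L n ∧ |b₂ n v| ≤ L n ∧ ‖α₁ n v‖ ≤ L n ∧ ‖α₂ n v‖ ≤ L n ∧
        ‖β₁ n v‖ ≤ L n)
    (hw : Whp Q fun n v => 1 ≤ L n * |a₂ n v - a₁ n v| ∧ 1 ≤ L n * |b₂ n v - b₁ n v| ∧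
      ‖(a₂ n v - a₁ n v) • (β₂ n v - β₁ n v) + (b₂ n v - b₁ n v) • (α₁ n v - α₂ n v)‖ ≤
        L n / 2 ^ r n)
    (i1 : Sm R fun n => mi (Q n) (fun v => (d₁ n v, d₂ n v)) (fun v => (w₁ n v, w₂ n v)) (G n))
    (i2 : Sm R fun n => mi (Q n) (d₁ n) (d₂ n) (G n))
    (i3 : Sm R fun n => mi (Q n) (w₁ n) (w₂ n) (G n)) :
    ∃ (H s₁ s₂ : ∀ n, W n → V N) (L' : ℕ → ℝ), Sub R L' ∧
      (Sm R fun n => ch (Q n) (fun v => (H n v, s₁ n v, s₂ n v)) (G n)) ∧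
      ∀ᶠ n in UF, ∀ v ∈ (Q n).S, ‖H n v‖ ≤ L' n ∧ ‖s₁ n v‖ ≤ L' n ∧ ‖s₂ n v‖ ≤ L' n ∧
        ‖α₁ n v - s₁ n v - a₁ n v • H n v‖ ≤ L' n / 2 ^ r n ∧
        ‖β₁ n v - s₂ n v - b₁ n v • H n v‖ ≤ L' n / 2 ^ r n := by
  classical
  let H₁ : ∀ n, W n → V N := fun n v => (a₂ n v - a₁ n v)⁻¹ • (α₂ n v - α₁ n v)
  let H₂ : ∀ n, W n → V N := fun n v => (b₂ n v - b₁ n v)⁻¹ • (β₂ n v - β₁ n v)
  let Ht : ∀ n, W n → V N := fun n v => if ‖H₁ n v‖ ≤ 2 * L n ^ 2 then H₁ n v else 0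
  have hL' : Sub R fun n => 5 * L n ^ 4 := (hL.pow 4).const_mul hR (by norm_num)
  have p : ∀ n, 1 ≤ L n ∧ L n ≤ L n ^ 2 ∧ L n ^ 2 ≤ L n ^ 3 ∧ L n ^ 3 ≤ L n ^ 4 := fun n =>
    ⟨hL.1 n, le_self_pow₀ (hL.1 n) two_ne_zero, pow_le_pow_right₀ (hL.1 n) (by norm_num),
      pow_le_pow_right₀ (hL.1 n) (by norm_num)⟩
  have t0 : ∀ n v, ‖Ht n v‖ ≤ 2 * L n ^ 2 := fun n v => by
    simp only [Ht]
    split_ifs with k
    · exact k
    · rw [norm_zero]; positivity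
  have t1 : ∀ n v, ‖gp (r n) (fl (r n) (Ht n v))‖ ≤ 3 * L n ^ 2 := fun n v => by
    linarith [norm_gp (r n) (t0 n v), p n]
  have t2 : ∀ n v {s : ℝ} {y : V N}, |s| ≤ L n → ‖y‖ ≤ L n →
      ‖y - s • gp (r n) (fl (r n) (Ht n v))‖ ≤ 4 * L n ^ 4 := fun n v s y h1 h2 => by
    have := norm_smul_le' h1 (t1 n v)
    refine (norm_sub_le _ _).trans ?_
    linarith [p n]
  have hw' : Whp Q fun n v => Ht n v = H₁ n v ∧ ‖H₁ n v - H₂ n v‖ ≤ L n ^ 3 / 2 ^ r n ∧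
      α₂ n v - α₁ n v = (a₂ n v - a₁ n v) • H₁ n v ∧
      β₂ n v - β₁ n v = (b₂ n v - b₁ n v) • H₂ n v := by
    refine hw.mono (h.mono fun n hn v hv k => ?_)
    obtain ⟨z1, z2⟩ := inv_le' k.1
    obtain ⟨z3, z4⟩ := inv_le' k.2.1
    obtain ⟨-, -, -, -, u1, u2, -⟩ := hn.2.2.2.2 v hv
    refine ⟨if_pos ?_, ?_, (smul_inv_smul₀ z1 _).symm, (smul_inv_smul₀ z3 _).symm⟩
    · refine (norm_smul_le' z2 ((norm_sub_le _ _).trans (add_le_add u2 u1))).trans (le_of_eq ?_)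
      ring
    · have e : H₂ n v - H₁ n v = (a₂ n v - a₁ n v)⁻¹ • (b₂ n v - b₁ n v)⁻¹ •
          ((a₂ n v - a₁ n v) • (β₂ n v - β₁ n v) + (b₂ n v - b₁ n v) • (α₁ n v - α₂ n v)) := by
        rw [smul_add, inv_smul_smul₀ z3, smul_comm (b₂ n v - b₁ n v)⁻¹, smul_add,
          inv_smul_smul₀ z1]
        simp only [H₁, H₂]
        module
      rw [norm_sub_rev, e]
      refine (norm_smul_le' z2 (norm_smul_le' z4 k.2.2)).trans (le_of_eq ?_)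
      ring
  have q : ∀ n {x y : ℝ}, x ≤ y → x / 2 ^ r n ≤ y / 2 ^ r n := fun n x y k =>
    div_le_div_of_nonneg_right k (by positivity)
  have f1 : ∀ {n} {D D' : Type} {a a' : W n → ℝ} {α α' : W n → V N} {d : W n → D} {d' : W n → D'},
      Fn (Q n) (fun v => (a v, α v)) d → Fn (Q n) (fun v => (a' v, α' v)) d' →
      Fn (Q n) (fun v => (a' v - a v)⁻¹ • (α' v - α v)) fun v => ((d v, d' v), G n v) :=
    fun h1 h2 x hx y hy e => by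
      simp only [Prod.mk.injEq] at e
      have k1 := Prod.mk.inj (h1 x hx y hy e.1.1)
      have k2 := Prod.mk.inj (h2 x hx y hy e.1.2)
      simp only [k1.1, k1.2, k2.1, k2.2]
  have s0 : Sm R fun n => ch (Q n) (fun v => fl (r n) (Ht n v)) (G n) :=
    ciw (y₁ := H₁) (y₂ := H₂) hR hL' hr (h.mono fun n hn => ⟨f1 hn.1 hn.2.1,
      f1 hn.2.2.1 hn.2.2.2.1, fun v _ => by linarith [t0 n v, p n]⟩)
      (hw'.mono (Eventually.of_forall fun n v _ k => by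
        rw [k.1, sub_self, norm_zero]
        exact ⟨div_nonneg (hL'.pos n).le (by positivity), k.2.1.trans (q n (by linarith [p n]))⟩))
      i1
  have f2 : ∀ n, Fn (Q n) (fun v => gp (r n) (fl (r n) (Ht n v))) fun v => fl (r n) (Ht n v) :=
    fun n => Fn.comp _ _
  have t3 : ∀ n {s s' : ℝ} {y y' g g' : V N}, |s| ≤ L n → |s'| ≤ L n → y' - y = (s' - s) • g →
      ‖g' - g‖ ≤ 2 * L n ^ 3 / 2 ^ r n → ‖y - s • g' - (y' - s' • g')‖ ≤ 5 * L n ^ 4 / 2 ^ r n :=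
    fun n s s' y y' g g' h1 h2 h3 h4 => by
      have e : y - s • g' - (y' - s' • g') = (s' - s) • (g' - g) := by
        rw [smul_sub, ← h3]; module
      rw [e]
      refine (norm_smul_le' ((abs_sub _ _).trans (add_le_add h2 h1)) h4).trans ?_
      rw [← mul_div_assoc]
      exact q n (by linarith [p n])
  have s1 := icpt (H := fun n v => gp (r n) (fl (r n) (Ht n v))) hR hL' hr
    (h.mono fun n hn => ⟨hn.1, hn.2.1, f2 n, fun v hv => by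
      linarith [t2 n v (hn.2.2.2.2 v hv).1 (hn.2.2.2.2 v hv).2.2.2.2.1, p n]⟩)
    (hw'.mono (h.mono fun n hn v hv k => t3 n (hn.2.2.2.2 v hv).1 (hn.2.2.2.2 v hv).2.1 k.2.2.1
      (by rw [← k.1]; exact (gp_fl _ _).trans (q n (by linarith [p n]))))) i2 s0
  have s2 := icpt (H := fun n v => gp (r n) (fl (r n) (Ht n v))) hR hL' hr
    (h.mono fun n hn => ⟨hn.2.2.1, hn.2.2.2.1, f2 n, fun v hv => by
      linarith [t2 n v (hn.2.2.2.2 v hv).2.2.1 (hn.2.2.2.2 v hv).2.2.2.2.2.2, p n]⟩)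
    (hw'.mono (h.mono fun n hn v hv k => t3 n (hn.2.2.2.2 v hv).2.2.1 (hn.2.2.2.2 v hv).2.2.2.1
      k.2.2.2 (by
        have a1 := gp_fl (r n) (Ht n v)
        have a2 := norm_sub_le_norm_sub_add_norm_sub (gp (r n) (fl (r n) (Ht n v))) (Ht n v)
          (H₂ n v)
        have a3 := k.2.1
        rw [← k.1] at a3
        refine a2.trans ((add_le_add a1 a3).trans ?_)
        rw [← add_div]
        exact q n (by linarith [p n])))) i3 s0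
  refine ⟨fun n v => gp (r n) (fl (r n) (Ht n v)),
    fun n v => gp (r n) (fl (r n) (α₁ n v - a₁ n v • gp (r n) (fl (r n) (Ht n v)))),
    fun n v => gp (r n) (fl (r n) (β₁ n v - b₁ n v • gp (r n) (fl (r n) (Ht n v)))), _, hL',
    ((s0.add s1).add s2).mono (Eventually.of_forall fun n => ?_), h.mono fun n hn v hv => ?_⟩
  · have g : ∀ (x y z : W n → Z N), ch (Q n) (fun v => (gp (r n) (x v), gp (r n) (y v),
        gp (r n) (z v))) (G n) ≤ ch (Q n) x (G n) + ch (Q n) y (fun v => (x v, G n v)) +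
          ch (Q n) z fun v => (x v, G n v) := fun x y z => by
      have a1 : ch (Q n) (fun v => (gp (r n) (x v), gp (r n) (y v), gp (r n) (z v))) (G n) ≤
          ch (Q n) (fun v => (x v, y v, z v)) (G n) := ch_mono fun _ _ _ _ e => by
        simp only [Prod.mk.injEq] at e
        simp only [e.1.1, e.1.2.1, e.1.2.2]
      linarith [ch_subadd (P := Q n) y z fun v => (x v, G n v),
        ch_chain (P := Q n) x (fun v => (y v, z v)) (G n)]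
    exact g _ _ _
  · obtain ⟨u1, -, u2, -, u3, -, u4⟩ := hn.2.2.2.2 v hv
    have g : ∀ y z : V N, ‖y - gp (r n) (fl (r n) (y - z)) - z‖ ≤ 5 * L n ^ 4 / 2 ^ r n :=
      fun y z => by
        rw [sub_right_comm, norm_sub_rev]
        exact (gp_fl _ _).trans (q n (hL'.1 n))
    exact ⟨by linarith [t1 n v, p n], by linarith [norm_gp (r n) (t2 n v u1 u3), p n],
      by linarith [norm_gp (r n) (t2 n v u2 u4), p n], g _ _, g _ _⟩

end Pool.Agent.MP_5168f5_an.R4.XRect
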