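import Pool.Agent.MP_5168f5_an.R4.XRect2
import Pool.Agent.MP_5168f5_an.R4.Api

/-! The rectangle step for webs on grids. -/

namespace Pool.Agent.MP_5168f5_an.R4.XRect

open H19 H17S H17F Filter NCx

theorem le_top {Ω Γ : ℕ → Type} {P : ∀ n, FP (Ω n)} {R J : ℕ → ℕ} {L : ℕ → ℝ}
    {x : ∀ n, Ω n → ℝ} (G : ∀ n, Ω n → Γ n) (hR : Big R) (hL : Sub R L)
    (h : ∀ᶠ n in UF, ∀ ω ∈ (P n).S, |x n ω| ≤ L n) :
    Le R (fun n => ch (P n) (fun ω => fl1 (J n) (x n ω)) (G n)) fun n => J n * lg :=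
  (le_fl1 (j := fun _ => 0) (k := J) (G := G) hR (hL.const_mul hR one_le_two)
    (fun _ => Nat.zero_le _) (h.mono fun n hn a ha b hb _ => (abs_sub _ _).trans (by
      rw [pow_zero, div_one]; linarith [hn a ha, hn b hb]))).congr
    (Eventually.of_forall fun _ => rfl) (Eventually.of_forall fun n => by simp)

theorem via {R : ℕ → ℕ} {f g k δ : ℕ → ℝ} (h : Le R f g) (h' : Sm R δ)
    (e : ∀ᶠ n in UF, g n ≤ k n + δ n) : Le R f k := Le.of2 h h' (e.mono fun n hn => by linarith)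

theorem exp_lev {c : ℝ} (hc : 0 < c) (R : ℕ → ℕ) (n : ℕ) :
    Real.exp (-(c * R n)) ≤ 1 / 2 ^ lev R (min c 1) n := by
  rw [Real.exp_neg, one_div]
  refine inv_anti₀ (by positivity) ((two_pow_le_exp _).trans (Real.exp_le_exp.2 ?_))
  exact (lev_le' R (lt_min hc one_pos).le n).trans
    (mul_le_mul_of_nonneg_right (min_le_left _ _) (Nat.cast_nonneg _))

theorem rect_id {N : ℕ} (n₁ n₂ n₃ m₁ m₂ α₁ α₂ β₁ β₂ v₁ v₂ v₃ v₄ : V N) (a₁ a₂ b₁ b₂ ε : ℝ)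
    (h1 : ‖v₁ - n₁ - b₁ • α₁‖ ≤ ε) (h2 : ‖v₁ - m₁ - a₁ • β₁‖ ≤ ε)
    (h3 : ‖v₂ - n₂ - b₁ • α₂‖ ≤ ε) (h4 : ‖v₂ - m₁ - a₂ • β₁‖ ≤ ε)
    (h5 : ‖v₃ - n₁ - b₂ • α₁‖ ≤ ε) (h6 : ‖v₃ - m₂ - a₁ • β₂‖ ≤ ε)
    (h7 : ‖v₄ - n₃ - b₂ • α₂‖ ≤ ε) (h8 : ‖v₄ - m₂ - a₂ • β₂‖ ≤ ε) :
    ‖n₃ - n₂ - ((a₂ - a₁) • (β₂ - β₁) + (b₂ - b₁) • (α₁ - α₂))‖ ≤ 8 * ε := by
  have e : n₃ - n₂ - ((a₂ - a₁) • (β₂ - β₁) + (b₂ - b₁) • (α₁ - α₂)) =
      ((v₁ - m₁ - a₁ • β₁) - (v₁ - n₁ - b₁ • α₁) + ((v₂ - n₂ - b₁ • α₂) - (v₂ - m₁ - a₂ • β₁))) +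
      ((v₃ - n₁ - b₂ • α₁) - (v₃ - m₂ - a₁ • β₂) + ((v₄ - m₂ - a₂ • β₂) - (v₄ - n₃ - b₂ • α₂))) := by
    module
  have k : ∀ x y z w : V N, ‖x‖ ≤ ε → ‖y‖ ≤ ε → ‖z‖ ≤ ε → ‖w‖ ≤ ε → ‖x - y + (z - w)‖ ≤ 4 * ε :=
    fun x y z w a b c d => by
      linarith [norm_add_le (x - y) (z - w), norm_sub_le x y, norm_sub_le z w]
  rw [e]
  linarith [norm_add_le _ _ |>.trans (add_le_add (k _ _ _ _ h2 h1 h3 h4) (k _ _ _ _ h5 h6 h8 h7))]

theorem core (N : ℕ) {ε₀ : ℝ} (h0 : 0 < ε₀) (h1 : ε₀ ≤ 1) : ∃ c : ℝ, 0 < c ∧ c ≤ 1 ∧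
    ∀ {Ω T A B : ℕ → Type} {P : ∀ n, FP (Ω n)} {Θ : ∀ n, Ω n → T n} {ρ : ∀ n, Ω n → A n}
    {σ : ∀ n, Ω n → B n} {a b : ∀ n, Ω n → ℝ} {v n₀ α m β : ∀ n, Ω n → V N} {R J : ℕ → ℕ}
    {L : ℕ → ℝ}, Web P Θ ρ σ a b v n₀ α m β R J L →
    (∀ᶠ n in UF, Fn (P n) (a n) (fun ω => fl1 (J n) (a n ω)) ∧
      Fn (P n) (b n) (fun ω => fl1 (J n) (b n ω)) ∧ Fn (P n) (α n) (fun ω => fl (R n) (α n ω)) ∧
      Fn (P n) (β n) (fun ω => fl (R n) (β n ω)) ∧ Fn (P n) (a n) (fun ω => (ρ n ω, Θ n ω)) ∧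
      Fn (P n) (b n) fun ω => (σ n ω, Θ n ω)) →
    NGR P (fun n ω => (Θ n ω, fl1 (J n) (a n ω), fl (R n) (α n ω))) n₀ R ε₀ →
    Aff P Θ a b α β R (lev R c) := by
  obtain ⟨c, hc, H⟩ := ncR N h0 h1
  refine ⟨min c 1, lt_min hc one_pos, min_le_right _ _, ?_⟩
  intro Ω T A B P Θ ρ σ a b v n₀ α m β R J L w hg hN
  have hR := w.big
  have hL := w.sub
  let ia : ∀ n, Ω n → ℤ := fun n ω => fl1 (J n) (a n ω)
  let ib : ∀ n, Ω n → ℤ := fun n ω => fl1 (J n) (b n ω)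
  let l : ∀ n, Ω n → Z N := fun n ω => fl (R n) (α n ω)
  let e : ∀ n, Ω n → Z N := fun n ω => fl (R n) (β n ω)
  let Q : ∀ n, FP ((Ω n × Ω n) × Ω n × Ω n) := fun n => QQ (P n) (Θ n) (ρ n) (σ n) (ia n) (l n)
  have l11 : ∀ n, Law (Q n) (fun v => v.1.1) (P n) id := fun n => law11 _ _ _ _ _ _
  have l12 : ∀ n, Law (Q n) (fun v => v.1.2) (P n) id := fun n => law12 _ _ _ _ _ _
  have l21 : ∀ n, Law (Q n) (fun v => v.2.1) (P n) id := fun n => law21 _ _ _ _ _ _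
  have l22 : ∀ n, Law (Q n) (fun v => v.2.2) (P n) id := fun n => law22 _ _ _ _ _ _
  have hδ : Sm R fun n => dft (P n) (Θ n) (ρ n) (σ n) (ia n) (l n) (ib n) (e n) :=
    Le.of6 (le_top (J := J) Θ hR hL (w.alg.mono fun n hn ω hω => (hn.2.2.2.2 ω hω).1)) w.fa
      (le_top (J := J) Θ hR hL (w.alg.mono fun n hn ω hω => (hn.2.2.2.2 ω hω).2.1)) w.fb w.sa w.sb
      (Eventually.of_forall fun n => by simp only [dft, ia, ib, l, e]; linarith)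
  have I := (w.alg.and hg).mono fun n hn => indep (a := ia n) (l := l n) (b := ib n) (e := e n)
    ((Fn.comp _ _).trans hn.2.2.2.2.2.1) ((Fn.comp (fun y : V N × V N => fl (R n) y.2) _).trans
      hn.1.1) ((Fn.comp _ _).trans hn.2.2.2.2.2.2)
  have δ2 := hδ.smul zero_le_two
  have fa : ∀ᶠ n in UF, Fn (P n) (fun ω => (a n ω, α n ω)) fun ω => (ia n ω, l n ω) :=
    hg.mono fun n hn => (hn.1.left _).pair (hn.2.2.1.right _)
  have fb : ∀ᶠ n in UF, Fn (P n) (fun ω => (b n ω, β n ω)) fun ω => (ib n ω, e n ω) :=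
    hg.mono fun n hn => (hn.2.1.left _).pair (hn.2.2.2.1.right _)
  have hL' : Sub R fun n => 8 * L n ^ 2 := (hL.pow 2).const_mul hR (by norm_num)
  have p : ∀ n, 1 ≤ L n ∧ L n ≤ L n ^ 2 := fun n => ⟨hL.1 n, le_self_pow₀ (hL.1 n) two_ne_zero⟩
  have q : ∀ (j : ℕ) {x y : ℝ}, x ≤ y → x / 2 ^ j ≤ y / 2 ^ j := fun j x y k =>
    div_le_div_of_nonneg_right k (by positivity)
  have bz : ∀ᶠ n in UF, ∀ u ∈ (Q n).S, |a n u.2.2 - a n u.1.1| ≤ 8 * L n ^ 2 ∧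
      |b n u.2.1 - b n u.1.1| ≤ 8 * L n ^ 2 := w.alg.mono fun n hn u hu => by
    obtain ⟨⟨m1, -, m3, m4⟩, -⟩ := memQ hu
    constructor <;> refine (abs_sub _ _).trans ?_
    · linarith [(hn.2.2.2.2 _ m1).1, (hn.2.2.2.2 _ m4).1, p n]
    · linarith [(hn.2.2.2.2 _ m1).2.1, (hn.2.2.2.2 _ m3).2.1, p n]
  have bn : ∀ᶠ n in UF, ∀ x ∈ (P n).S, ∀ y ∈ (P n).S, ‖n₀ n x - n₀ n y‖ ≤ 8 * L n ^ 2 :=
    w.alg.mono fun n hn x hx y hy => by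
      have k : ∀ z ∈ (P n).S, ‖n₀ n z‖ ≤ 3 * L n ^ 2 := fun z hz => by
        obtain ⟨-, u1, u2, u3, -, u4, -⟩ := hn.2.2.2.2 z hz
        have a1 := norm_smul_le' u1 u3
        have a2 : L n / 2 ^ R n ≤ L n := div_le_self (hL.pos n).le (one_le_pow₀ one_le_two)
        have a3 : n₀ n z = v n z - b n z • α n z - (v n z - n₀ n z - b n z • α n z) := by abel
        rw [a3]
        linarith [norm_sub_le (v n z - b n z • α n z) (v n z - n₀ n z - b n z • α n z),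
          norm_sub_le (v n z) (b n z • α n z), p n]
      linarith [norm_sub_le (n₀ n x) (n₀ n y), k x hx, k y hy, p n]
  have er : ∀ᶠ n in UF, ∀ u ∈ (Q n).S, ‖α n u.1.1 - α n u.2.2‖ ≤ 8 * L n ^ 2 ∧
      ‖β n u.2.1 - β n u.1.1‖ ≤ 8 * L n ^ 2 ∧ ‖n₀ n u.2.2 - n₀ n u.1.2 -
        ((a n u.2.2 - a n u.1.1) • (β n u.2.1 - β n u.1.1) +
          (b n u.2.1 - b n u.1.1) • (α n u.1.1 - α n u.2.2))‖ ≤ 8 * L n ^ 2 / 2 ^ R n := by
    filter_upwards [w.alg, hg, fa] with n k1 k2 k3 u hu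
    obtain ⟨⟨m1, m2, m3, m4⟩, ⟨c1, c2, c3⟩, c4, c5, -⟩ := memQ hu
    obtain ⟨-, -, -, x1, x2, x3, x4⟩ := k1.2.2.2.2 _ m1
    obtain ⟨-, -, -, -, -, y3, y4⟩ := k1.2.2.2.2 _ m2
    obtain ⟨-, -, -, -, z2, z3, z4⟩ := k1.2.2.2.2 _ m3
    obtain ⟨-, -, -, t1, -, t3, t4⟩ := k1.2.2.2.2 _ m4
    obtain ⟨e1, e2⟩ := Prod.mk.inj (k1.2.1 _ m2 _ m1 c1)
    obtain ⟨e3, e4⟩ := Prod.mk.inj (k1.2.1 _ m4 _ m3 c2)
    obtain ⟨e5, e6⟩ := Prod.mk.inj (k1.1 _ m3 _ m1 c3)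
    obtain ⟨e7, e8⟩ := Prod.mk.inj (k3 _ m2 _ m4 (Prod.ext c4 c5))
    have e9 := k2.2.2.2.2.2 _ m2 _ m1 c1
    have e10 := k2.2.2.2.2.2 _ m4 _ m3 c2
    have e11 := k2.2.2.2.2.1 _ m3 _ m1 c3
    rw [e8, e9] at y3
    rw [e1, e2, e7] at y4
    rw [e5, e6] at z3
    rw [e11] at z4
    rw [e10] at t3
    rw [e3, e4] at t4
    refine ⟨by linarith [norm_sub_le (α n u.1.1) (α n u.2.2), p n],
      by linarith [norm_sub_le (β n u.2.1) (β n u.1.1), p n],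
      (rect_id _ _ _ _ _ _ _ _ _ _ _ _ _ _ _ _ _ _ x3 x4 y3 y4 z3 z4 t3 t4).trans ?_⟩
    rw [← mul_div_assoc]
    exact q _ (by linarith [p n])
  have u1 : Le R (fun n => R n * lg) fun n => ch (Q n) (fun u => fl1 (R n) (a n u.2.2 - a n u.1.1))
      fun u => (Θ n u.2.2, ia n u.2.2, l n u.2.2) :=
    ful_sub (P := Q) (x := fun n u => a n u.1.1) (z := fun n u => a n u.2.2)
      (G := fun n u => (Θ n u.2.2, ia n u.2.2, l n u.2.2)) hR w.frac.1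
      (hg.mono fun n hn => (((l22 n).fn hn.1).left _).right _)
      (via w.fa δ2 (I.mono fun n hn => hn.2.2.2.2.2.1))
  have u2 : Le R (fun n => R n * lg) fun n => ch (Q n) (fun u => fl1 (R n) (b n u.2.1 - b n u.1.1))
      fun u => (Θ n u.2.2, ia n u.2.2, l n u.2.2) :=
    (ful_sub (P := Q) (x := fun n u => b n u.1.1) (z := fun n u => b n u.2.1)
      (G := fun n u => ((ib n u.2.1, e n u.2.1), Θ n u.2.2, ia n u.2.2, l n u.2.2)) hR w.frac.1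
      (hg.mono fun n hn => (((l21 n).fn hn.2.1).left _).left _)
      (via w.fb δ2 (I.mono fun n hn => hn.2.2.2.2.2.2))).trans
      (Le.of_le fun n => ch_anti (Fn.snd _ _))
  have k := H (P := Q) (x' := fun n u => n₀ n u.1.2) (g := fun n u => α n u.1.1 - α n u.2.2)
    (p := fun n u => β n u.2.1 - β n u.1.1) (ζ := fun n u => a n u.2.2 - a n u.1.1)
    (r := fun n u => b n u.2.1 - b n u.1.1) (fun n u => (ia n u.1.1, l n u.1.1))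
    (fun n u => ((ib n u.1.1, e n u.1.1), ib n u.2.1, e n u.2.1)) hR hL' (hN.pull l22) ?_
    (Whp.of_ev er) (Le.of_le fun n => le_of_eq ?_)
    (δ2.mono ((I.and w.alg).mono fun n hn => (mi_mono' ?_).trans hn.1.1))
    (δ2.mono (I.mono fun n hn => hn.2.1)) u1 (Or.inl u2)
  · obtain ⟨L₁, s1, s2⟩ := sep0 hR hL' (bz.mono fun n hn u hu => (hn u hu).1) u1
    obtain ⟨L₂, s3, s4⟩ := sep0 hR hL' (bz.mono fun n hn u hu => (hn u hu).2) u2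
    have hr := lev_le R (min_le_right c 1)
    have s5 := ((hL'.add s1 hR).add s3 hR).add hL hR
    have g := affine (Q := Q) (G := fun n u => Θ n u.2.2)
      (a₁ := fun n u => a n u.1.1) (a₂ := fun n u => a n u.2.2) (b₁ := fun n u => b n u.1.1)
      (b₂ := fun n u => b n u.2.1) (α₁ := fun n u => α n u.1.1) (α₂ := fun n u => α n u.2.2)
      (β₁ := fun n u => β n u.1.1) (β₂ := fun n u => β n u.2.1) hR s5 hr ?_
      ((((k.and s2).and s4).and (Whp.of_ev er)).mono (Eventually.of_forall fun n u _ k => ?_))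
      ((hδ.smul zero_le_four).mono (I.mono fun n hn => hn.2.2.1))
      ((hδ.smul zero_le_three).mono (I.mono fun n hn => hn.2.2.2.1))
      ((hδ.smul zero_le_three).mono (I.mono fun n hn => hn.2.2.2.2.1))
    · obtain ⟨H, s₁, s₂, L', g1, g2, g3⟩ := g
      exact ⟨_, Q, fun n u => u.1.1, H, s₁, s₂, L', l11, g1, g2.mono (Eventually.of_forall fun n =>
        (ch_ext (fun _ _ => rfl) fun u hu => (memQ hu).2.2.2.2.1).le), Whp.of_ev g3⟩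
    · filter_upwards [w.alg, fa, fb] with n k1 k2 k3
      refine ⟨(l11 n).fn k2, (l22 n).fn k2, (l11 n).fn k3, (l21 n).fn k3, fun u hu => ?_⟩
      obtain ⟨⟨m1, -, m3, m4⟩, -⟩ := memQ hu
      have z : L n ≤ 8 * L n ^ 2 + L₁ n + L₂ n + L n := by linarith [hL'.1 n, s1.1 n, s3.1 n]
      obtain ⟨x1, x2, -, x3, x4, -⟩ := k1.2.2.2.2 _ m1
      exact ⟨x1.trans z, (k1.2.2.2.2 _ m4).1.trans z, x2.trans z, (k1.2.2.2.2 _ m3).2.1.trans z,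
        x3.trans z, (k1.2.2.2.2 _ m4).2.2.2.1.trans z, x4.trans z⟩
    · have z := hL'.1 n
      have z1 := s1.1 n
      have z2 := s3.1 n
      have z3 := hL.1 n
      refine ⟨k.1.1.2.trans (mul_le_mul_of_nonneg_right (by linarith) (abs_nonneg _)),
        k.1.2.trans (mul_le_mul_of_nonneg_right (by linarith) (abs_nonneg _)), ?_⟩
      have a1 := k.1.1.1.trans (exp_lev hc R n)
      have a2 := k.2.2.2.trans (div_le_div_of_nonneg_left (by linarith) (by positivity)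
        (pow_le_pow_right₀ one_le_two (hr n)))
      rw [norm_sub_rev] at a2
      refine (norm_le_norm_add_norm_sub' _ _).trans ((add_le_add a1 a2).trans ?_)
      rw [← add_div]
      exact q _ (by linarith)
  · filter_upwards [fa, fb, bz, bn] with n k1 k2 k3 k4
    refine ⟨fun x hx y hy h => ?_, fun x hx y hy h => ?_, k3, fun x hx y hy _ =>
      ⟨k4 _ (memQ hx).1.2.2.2 _ (memQ hy).1.2.2.2, k4 _ (memQ hx).1.2.1 _ (memQ hy).1.2.1⟩⟩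
    · have a1 := Prod.mk.inj ((l11 n).fn k1 x hx y hy (Prod.mk.inj h).1)
      have a2 := Prod.mk.inj ((l22 n).fn k1 x hx y hy (Prod.mk.inj (Prod.mk.inj h).2).2)
      simp only [a1.1, a1.2, a2.1, a2.2]
    · have a1 := Prod.mk.inj ((l11 n).fn k2 x hx y hy (Prod.mk.inj (Prod.mk.inj h).1).1)
      have a2 := Prod.mk.inj ((l21 n).fn k2 x hx y hy (Prod.mk.inj (Prod.mk.inj h).1).2)
      simp only [a1.1, a1.2, a2.1, a2.2]
  · refine Eq.trans (ch_ext (fun _ _ => rfl) fun u hu => ?_) (((l12 n).ch_id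
      (fun ω => fl (R n) (n₀ n ω)) fun ω => (Θ n ω, ia n ω, l n ω)).trans ((l22 n).ch_id _ _).symm)
    obtain ⟨-, -, c1, c2, -, c3, -⟩ := memQ hu
    exact (Prod.ext c3 (Prod.ext c1 c2)).symm
  · exact ((l22 n).fn ((Fn.comp (fun y : V N × V N => fl (R n) y.1) _).trans hn.2.1)).left _

end Pool.Agent.MP_5168f5_an.R4.XRect
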