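import Pool.Agent.MP_5168f5_an.R4.SpecZ

/-! Entropies of the variables of one frame given those of the other. -/

namespace Pool.Agent.MP_5168f5_an.R4

open H19 H17S H17F Filter Tan Zoom

namespace ZChA

theorem num {L x y c e : ℝ} {t l s : ℕ} (hL : 1 ≤ L) (hc : |c| ≤ L * 2 ^ t) (he : |e| ≤ L)
    (hx : |x| < ((2 : ℝ) ^ s)⁻¹) (hy : |y| < ((2 : ℝ) ^ s)⁻¹) :
    |c * (x - e * y)| ≤ L * (1 + L) * Real.exp (t + l - s : ℕ) / 2 ^ l := by
  have h1 : |x - e * y| ≤ (1 + L) * ((2 : ℝ) ^ s)⁻¹ := by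
    refine (abs_sub _ _).trans ?_
    rw [abs_mul, add_mul, one_mul]
    gcongr
  have h2 : (2 : ℝ) ^ t * ((2 : ℝ) ^ s)⁻¹ ≤ Real.exp (t + l - s : ℕ) / 2 ^ l := by
    rw [← div_eq_mul_inv, div_le_div_iff₀ (by positivity) (by positivity), ← pow_add]
    refine le_trans ?_ (mul_le_mul_of_nonneg_right (two_pow_le_exp _) (by positivity))
    rw [← pow_add]
    exact pow_le_pow_right₀ one_le_two (by omega)
  rw [abs_mul]
  calc _ ≤ L * 2 ^ t * ((1 + L) * ((2 : ℝ) ^ s)⁻¹) := by gcongr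
    _ = L * (1 + L) * (2 ^ t * ((2 : ℝ) ^ s)⁻¹) := by ring
    _ ≤ L * (1 + L) * (Real.exp (t + l - s : ℕ) / 2 ^ l) := by gcongr
    _ = _ := by ring

variable {Ω β : ℕ → Type} {P : ∀ n, FP (Ω n)} {g g' : Gs 3 Ω} {D D' : ∀ n, Td (Ω n)}
  {M a : ℕ → ℕ} {J : Finset (Fin 3)} {wt : Fin 3 → ℝ}

theorem sl (hM : Big M) (h : Chd P g g' D D' M a J wt) {i : Fin 3} (hi : i ∈ J) {l s : ℕ → ℕ}
    (hl : Le M (fun n => (wt i - 1) * a n + l n) fun n => s n) {G : ∀ n, Ω n → β n}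
    (hG : ∀ n x y, G n x = G n y → fl1 (s n) ((g n).e x i) = fl1 (s n) ((g n).e y i) ∧
      fl1 (s n) ((g n).e x 0) = fl1 (s n) ((g n).e y 0) ∧ (D n).S (a n) x = (D n).S (a n) y) :
    Sm M fun n => ch (P n) (fun ω => fl1 (l n) ((g' n).e ω i)) (G n) := by
  obtain ⟨L, t, hL, ht, hc⟩ := h.sl i hi
  have h1 : Sm M fun n => ((t n + l n - s n : ℕ) : ℝ) := fun ε hε => by
    filter_upwards [ht (ε / 2) (by positivity), hl (ε / 2) (by positivity)] with n e1 e2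
    have : 0 ≤ ε * M n := by positivity
    rcases le_total (s n) (t n + l n) with e | e
    · rw [Nat.cast_sub e, Nat.cast_add]
      linarith
    · rw [Nat.sub_eq_zero_of_le e, Nat.cast_zero]
      linarith
  refine Sm.near1 hM ((hL.mul ((hM.sub le_rfl).add hL hM)).mul
    (Sub.exp h1 fun n => Nat.cast_nonneg _)) ?_
  filter_upwards [hc] with n ⟨c, f, e⟩ x hx y hy q
  obtain ⟨q1, q2, q3⟩ := hG n x y q
  obtain ⟨b1, b2, b3⟩ := e x hx
  rw [b3, (e y hy).2.2, ← f x hx y hy q3, ← mul_sub]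
  refine le_of_eq_of_le ?_
    (num (hL.1 n) b1 b2 (abs_sub_lt_of_fl1_eq q1) (abs_sub_lt_of_fl1_eq q2))
  congr 2
  ring

theorem e0 (h : Chd P g g' D D' M a J wt) : ∀ᶠ n in UF, ∀ x ∈ (P n).S,
    (g' n).e x 0 = (g n).e x 0 := by
  filter_upwards [h.base] with n ⟨c, _, e⟩ x hx using (e x hx).1

theorem bl (hM : Big M) (h : Chd P g g' D D' M a J wt) (s : ℕ → ℕ) : Sm M fun n =>
    ch (P n) (bl (g n) (s n)) fun ω => (bl (g' n) (s n) ω, (D n).S (a n) ω) := by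
  have h1 : Sm M fun n => ch (P n) (fun ω => fl1 (s n) ((g n).a ω 0)) fun ω =>
      (Tan.bl (g' n) (s n) ω, (D n).S (a n) ω) := by
    refine Sm.near1 hM (hM.sub one_le_two) ?_
    filter_upwards [h.base] with n ⟨c, f, e⟩ x hx y hy q
    obtain ⟨q1, q3⟩ := Prod.ext_iff.1 q
    obtain ⟨q1, q2⟩ := Prod.ext_iff.1 q1
    obtain ⟨a1, a2, a3, a4⟩ := e x hx
    obtain ⟨b1, -, -, b4⟩ := e y hy
    have r1 := (abs_sub_lt_of_fl1_eq q1).le
    have r2 := (abs_sub_lt_of_fl1_eq q2).le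
    rw [a1, b1] at r2
    rw [a4, b4, ← f x hx y hy q3]
    calc _ = |(c x).2.1 * ((g' n).a x 0 - (g' n).a y 0) +
          (c x).2.2 * ((g n).e x 0 - (g n).e y 0)| := by congr 1; ring
      _ ≤ 1 * ((2 : ℝ) ^ s n)⁻¹ + 1 * ((2 : ℝ) ^ s n)⁻¹ := by
        refine (abs_add_le _ _).trans ?_
        rw [abs_mul, abs_mul]
        gcongr
      _ = _ := by ring
  refine h1.mono ?_
  filter_upwards [e0 h] with n e
  refine ch_mono fun x hx y hy q => ?_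
  obtain ⟨q1, q2⟩ := Prod.ext_iff.1 q
  refine Prod.ext q1 ?_
  have := (Prod.ext_iff.1 (Prod.ext_iff.1 q2).1).2
  simpa only [Tan.bl, e x hx, e y hy] using this

theorem ty (hM : Big M) (h : Chd P g g' D D' M a J wt) (T : Finset (Fin 3)) (h0 : 0 ∈ T)
    (hT : ∀ i ∈ T, i ≠ 0 → i ∈ J ∧ wt i = 1) (s : ℕ → ℕ) : Sm M fun n =>
      ch (P n) (ty (g' n) T (s n)) fun ω => (ty (g n) T (s n) ω, (D n).S (a n) ω) := by
  have k : ∀ n x y, Tan.ty (g n) T (s n) x = Tan.ty (g n) T (s n) y → ∀ i ∈ T,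
      fl1 (s n) ((g n).e x i) = fl1 (s n) ((g n).e y i) := fun n x y q i hi => by
    simpa only [Tan.ty, if_pos hi] using congrFun q i
  refine (Sm.sum T (F := fun i n => ch (P n) (fun ω => fl1 (s n) ((g' n).e ω i)) fun ω =>
    (Tan.ty (g n) T (s n) ω, (D n).S (a n) ω)) fun i hi => ?_).mono
      (.of_forall fun n => ch_pi_le T (fun i ω => fl1 (s n) ((g' n).e ω i)) 0 _)
  by_cases c : i = 0
  · subst c
    refine Le.of_ev ?_
    filter_upwards [e0 h] with n e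
    refine (ch_zero fun x hx y hy q => ?_).le
    simpa only [e x hx, e y hy] using k n x y (Prod.ext_iff.1 q).1 0 h0
  · exact sl hM h (hT i hi c).1 (Le.of_le fun n => by simp [(hT i hi c).2]) fun n x y q =>
      ⟨k n x y (Prod.ext_iff.1 q).1 i hi, k n x y (Prod.ext_iff.1 q).1 0 h0, (Prod.ext_iff.1 q).2⟩

end ZChA

theorem rowZCh : Zoom.ZCh := fun _ _ _ _ _ _ _ _ _ hM h =>
  { sl := fun _ hi _ _ hl => ZChA.sl hM h hi hl fun _ _ _ q =>
      ⟨(Prod.ext_iff.1 q).1, (Prod.ext_iff.1 (Prod.ext_iff.1 (Prod.ext_iff.1 q).2).1).2,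
        (Prod.ext_iff.1 (Prod.ext_iff.1 q).2).2⟩
    bl := ZChA.bl hM h
    ty := ZChA.ty hM h }

end Pool.Agent.MP_5168f5_an.R4
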