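import Pool.Agent.MP_5168f5_an.R4.SpecZ

/-! Towers of frames: independent types persist. -/

namespace Pool.Agent.MP_5168f5_an.R4

open H19 H17S H17F Filter Tan Zoom

namespace ZTyp2A

theorem om_trans {M r s : ℕ → ℕ} (h : OM M r) (h' : OM r s) : OM M s := by
  obtain ⟨C, h⟩ := h
  obtain ⟨C', h'⟩ := h'
  refine ⟨C' * C, ?_⟩
  filter_upwards [h, h'] with n a b
  exact b.trans (mul_assoc C' C _ ▸ Nat.mul_le_mul_left _ a)

theorem om_add {M r s : ℕ → ℕ} (h : OM M r) (h' : OM M s) : OM M fun n => r n + s n := by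
  obtain ⟨C, h⟩ := h
  obtain ⟨C', h'⟩ := h'
  refine ⟨C + C', ?_⟩
  filter_upwards [h, h'] with n a b
  exact (add_le_add a b).trans (add_mul C C' _).ge

theorem le_om {M r : ℕ → ℕ} {f g : ℕ → ℝ} (h : Le r f g) (h' : OM M r) : Le M f g := by
  obtain ⟨C, h'⟩ := h'
  intro ε hε
  filter_upwards [h (ε / (C + 1)) (by positivity), h'] with n a b
  have b' : (r n : ℝ) ≤ (C + 1) * M n := by
    exact_mod_cast b.trans (Nat.mul_le_mul_right _ (Nat.le_succ C))
  refine a.trans (add_le_add le_rfl ?_)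
  rw [div_mul_eq_mul_div, div_le_iff₀ (by positivity)]
  nlinarith

theorem fn_ty {Ω : Type} (P : FP Ω) (g : Geo 3 Ω) (T : Finset (Fin 3)) {i j : ℕ} (e : i ≤ j) :
    Fn P (ty g T i) (ty g T j) := fun _ _ _ _ c => funext fun k => by
  have := congrFun c k
  unfold ty at this ⊢
  split_ifs at this ⊢
  exacts [fl1_eq_of_le e this, rfl]

variable {Ω : ℕ → Type} {P : ∀ n, FP (Ω n)} {g : Gs 3 Ω} {D : ∀ n, Td (Ω n)} {M mm : ℕ → ℕ}
  {η γ : ℝ} {T T₀ : Finset (Fin 3)}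

theorem nest (h : Com P g M mm D η γ T₀) : ∀ᶠ n in UF, (∀ j, Fn (P n) (g n).θ ((D n).S j)) ∧
    ∀ i j, i ≤ j → Fn (P n) ((D n).S i) ((D n).S j) :=
  h.nest.mono fun n a => ⟨fun j => (Fn.fst _ _).trans (a.2 j).2, fun i j e => by
    induction e with
    | refl => exact Fn.rfl _
    | step _ ih => exact ih.trans (a.2 _).1⟩

theorem typ_iff (h : Com P g M mm D η γ T₀) : Typ P g D M T ↔ ∀ C : ℕ,
    Sm M fun n => mi (P n) (ty (g n) T (C * M n)) ((D n).S (C * M n)) (g n).θ := by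
  refine ⟨fun k C => k _ ⟨C, Eventually.of_forall fun _ => le_rfl⟩, fun k r ⟨C, hC⟩ =>
    (k C).mono ?_⟩
  filter_upwards [nest h, hC] with n a b
  exact (mi_mono' ((fn_ty _ _ _ b).left _)).trans (mi_mono ((a.2 _ _ b).left _))

theorem big {K : Mb Ω → Prop} (h : Tn K g M mm D η γ T₀) : Big M := by
  obtain ⟨X, hX⟩ := h.ne
  simpa only [one_mul] using ((h.cls 1 one_pos).bs X hX).big

theorem cl {K : Mb Ω → Prop} (h : Tn K g M mm D η γ T₀) :
    Cl fun X => K X ∧ Typ X.P (X.G g) (mD X D) M T :=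
  (h.cl.and (cl_all fun C : ℕ => kc1.smi M (fun n => ty (g n) T (C * M n))
    (fun n => (D n).S (C * M n)) (fun n => (g n).θ) (big h))).congr fun X =>
    and_congr_right fun k => typ_iff (h.com X k)

end ZTyp2A

open ZTyp2A in
theorem rowZTyp2 : Zoom.OfZTyp2 := by
  intro zch Ω W B mm η γ T₀ T J wt h h0 hT
  refine ⟨(h.cf.and (cf_all fun C : ℕ => cf_sm (fun n (x : Ext (Ω n) × (W n).I × ℕ) => x.2.2)
      fun n x => mi x.1.Q (ty (((W n).g x.2.1).pull x.1.ρ) T (C * x.2.2))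
        ((((W n).D x.2.1).pull x.1.ρ).S (C * x.2.2)) (((W n).g x.2.1).pull x.1.ρ).θ)).congr
      fun x => and_congr_right fun k => typ_iff ((h.tn _ _ _ k).com _ k),
    fun σ r X k => zSub _ _ _ _ _ _ _ _ T₀ T (h.tn σ r X k.1) (cl (h.tn σ r X k.1)) ⟨X, k⟩
      fun _ a => a,
    fun σ r X k => h.cel σ r X k.1,
    fun σ r r' X k a b => ⟨h.unit σ r r' X k.1 a b, fun s c => le_om (k.2 s (om_trans a c)) b⟩,
    fun σ r a X k ha => ?_⟩
  obtain ⟨σ', E, hE, hB, hC⟩ := h.child σ r a X k.1 ha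
  have t := h.tn σ r X k.1
  have k' := (cl t).cond X E k hE.pos
  refine ⟨σ', E, hE, ⟨hB, fun s hs => ?_⟩, hC⟩
  refine ((k'.2 _ (om_add ha hs)).add ((zch _ _ _ _ _ _ _ _ _ (big t) hC).ty T h0 hT s)).mono ?_
  filter_upwards [nest (t.com _ k'.1), hC.lab] with n b c
  refine (mi_symm _ _ _).trans_le ((mi_near _ _ (ty (X.G (gs W σ) n) T (s n)) _).trans
    (add_le_add ((mi_symm _ _ _).trans_le ?_) (ch_anti ((Fn.fst _ _).pair (c.2.1.right _)))))
  exact (mi_right ((b.1 _).trans c.2.1) ((c.1.trans (b.2 _ _ (Nat.le_add_right _ _))).left _)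
    ((c.2.2 _).1.left _)).trans (mi_mono' ((fn_ty _ _ _ (Nat.le_add_left _ _)).left _))

end Pool.Agent.MP_5168f5_an.R4
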