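import Pool.Agent.MP_5168f5_an.R4.SpecTW
import Pool.Agent.MP_5168f5_an.R4.Api

/-! A covector of the context does not kill the directions: the last coordinate. -/

namespace Pool.Agent.MP_5168f5_an.R4.T8

open H19 H17S H17F Filter Matrix Tan

namespace DirHx

/-- The context is a label of level zero. -/
theorem lab0 {Ω : ℕ → Type} {P : ∀ n, FP (Ω n)} {g : Gs 3 Ω} {mm : ℕ → ℕ} (h : Bs P g mm) :
    Lab P g mm (fun _ => 0) fun n => (g n).θ := by
  obtain ⟨L, -, b⟩ := h.bx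
  refine ⟨Le.of_le fun n => (mi_le _ _ _).trans (ch_zero ?_).le,
    Le.of_ev (b.mono fun n a => (mi_le _ _ _).trans (ch_zero a.fθ).le)⟩
  exact fun a _ b _ e => congrArg (·.1.2.2) e

/-- The first three coordinates. -/
def c3 (c : V 4) : V 3 := ![c 0, c 1, c 2]

/-- The hyperplane of the covector. -/
noncomputable def dd (c : V 4) : V 3 := -(c 3)⁻¹ • c3 c

theorem split (c : V 4) (e : V 3) {L₀ : ℝ} (h0 : |e 2| ≤ L₀) :
    |c3 c ⬝ᵥ ![1, e 0, e 1]| ≤ |c ⬝ᵥ ![1, e 0, e 1, e 2]| + |c 3| * L₀ := by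
  have e1 : c3 c ⬝ᵥ ![1, e 0, e 1] = c ⬝ᵥ ![1, e 0, e 1, e 2] - c 3 * e 2 := by
    simp [c3, dotProduct, Fin.sum_univ_succ]; ring
  rw [e1]
  refine (abs_sub _ _).trans (add_le_add le_rfl ?_)
  rw [abs_mul]
  exact mul_le_mul_of_nonneg_left h0 (abs_nonneg _)

theorem alg {c : V 4} {a e : V 3} {z L₀ L₁ T : ℝ} (hT : 1 ≤ T) (h0 : |e 2| ≤ L₀) (hL : 0 ≤ L₁)
    (h3 : ¬|c 3| ≤ T * |c ⬝ᵥ ![1, e 0, e 1, e 2]|)
    (h1 : ∀ i, |c3 c i| ≤ L₁ * |c3 c ⬝ᵥ ![1, e 0, e 1]|) :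
    (∀ i, |dd c i| ≤ L₁ * (1 + L₀)) ∧ ∀ t, fl1 0 t = fl1 0 z →
      |(a + t • e) 2 - dd c ⬝ᵥ ![t, (a + t • e) 0, (a + t • e) 1] -
        ((a + z • e) 2 - dd c ⬝ᵥ ![z, (a + z • e) 0, (a + z • e) 1])| ≤ 1 / T := by
  have s0 := abs_nonneg (c ⬝ᵥ ![1, e 0, e 1, e 2])
  have h4 := not_le.1 h3
  have p3 : 0 < |c 3| := lt_of_le_of_lt (by positivity) h4
  have n3 : c 3 ≠ 0 := abs_pos.1 p3
  refine ⟨fun i => ?_, fun t ht => ?_⟩
  · rw [dd, Pi.smul_apply, smul_eq_mul, abs_mul, abs_neg, abs_inv, inv_mul_le_iff₀ p3]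
    have h5 := mul_le_mul_of_nonneg_left (split c e h0) hL
    have h6 : |c ⬝ᵥ ![1, e 0, e 1, e 2]| ≤ |c 3| := by nlinarith
    have h7 := mul_le_mul_of_nonneg_left h6 hL
    linarith [h1 i]
  · have e1 : (a + t • e) 2 - dd c ⬝ᵥ ![t, (a + t • e) 0, (a + t • e) 1] -
        ((a + z • e) 2 - dd c ⬝ᵥ ![z, (a + z • e) 0, (a + z • e) 1]) =
        (t - z) * (c ⬝ᵥ ![1, e 0, e 1, e 2] / c 3) := by
      simp [dd, c3, dotProduct, Fin.sum_univ_succ]; field_simp; ring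
    have h5 : |t - z| ≤ 1 := by
      simp only [fl1, pow_zero, one_mul] at ht
      exact (Int.abs_sub_lt_one_of_floor_eq_floor ht).le
    rw [e1, abs_mul, abs_div]
    refine (mul_le_of_le_one_left (by positivity) h5).trans ?_
    rw [div_le_div_iff₀ p3 (by linarith)]
    linarith

end DirHx

open DirHx

theorem rowDirH : OfDirH := by
  intro du Ω K g M mm D J η γ X h hX w oh c hc
  have hb := (h.cls 1 one_pos).bs X hX
  simp only [one_mul] at hb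
  have hM : Big M := hb.big
  obtain ⟨L₀, hL₀, b₀⟩ := hb.bx
  obtain ⟨L₁, hL₁, b₁⟩ := du K g M mm D J η γ X h hX (fun n ω => c3 (c n ω))
    (hc.mono fun n a => (Fn.comp c3 _).trans a)
  obtain ⟨L₂, hL₂, b₂⟩ := ks.wsub X.P (fun n ω L => |c n ω 3| ≤ L * |c n ω ⬝ᵥ
      ![1, (X.G g n).e ω 0, (X.G g n).e ω 1, (X.G g n).e ω 2]|) M fun ε hε h1 => by
    by_contra k
    have hp := (not_whp k).and b₁
    have hY := h.cl.cond X _ hX hp
    have hS := hL₁.mul ((hM.sub le_rfl).add hL₀ hM)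
    have key := oh _ hY (fun n => (g n).T) _ (fun n ω => dd (c n ω)) (fun _ => 1) (fun _ => 0)
      (lev M ε) M ⟨0, Eventually.of_forall fun n => Nat.zero_le _⟩
      ⟨1, Eventually.of_forall fun n => by simpa using lev_le M h1 n⟩
      ⟨1, Eventually.of_forall fun n => by simp⟩ (lab0 (h.low.bs _ hY)) (hM.sub le_rfl)
      ((hc.and hp.sure).mono fun n a u hu v hv e =>
        congrArg dd (a.1 u (a.2 u hu).1 v (a.2 v hv).1 e))
      (Whp.of_ev (by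
        filter_upwards [hp.sure, b₀, hS.2 lg lg_pos] with n a b d v hv
        obtain ⟨v1, v2, v3⟩ := a v hv
        have k1 := alg (a := (X.G g n).a v) (z := (X.G g n).z v)
          (Real.one_le_exp (by positivity)) ((b.bd v v1).1 2).2 (hL₁.pos n).le v2 v3
        refine ⟨fun i => (k1.1 i).trans (d.trans (by rw [two_pow_eq, mul_comm])), fun t ht =>
          (k1.2 t ht).trans (one_div_le_one_div_of_le (by positivity) ?_)⟩
        exact (two_pow_le_exp _).trans (Real.exp_le_exp.2 (lev_le' M hε.le n))))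
    refine ((lev_eqv hM hε.le).2.trans key).false hM hε (Eventually.of_forall fun n => ?_)
    simp
  refine ⟨fun n => L₁ n * (L₂ n + L₂ n * L₀ n), hL₁.mul (hL₂.add (hL₂.mul hL₀) hM),
    (b₁.and b₂).mono (b₀.mono fun n b v hv k i => ?_)⟩
  have s0 := abs_nonneg (c n v ⬝ᵥ ![1, (X.G g n).e v 0, (X.G g n).e v 1, (X.G g n).e v 2])
  have l0 := hL₀.1 n
  have l1 := hL₁.1 n
  have l2 := hL₂.1 n
  have k1 := mul_le_mul_of_nonneg_left (split (c n v) _ ((b.bd v hv).1 2).2) (hL₁.pos n).le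
  have k2 := k.2
  generalize |c n v ⬝ᵥ ![1, (X.G g n).e v 0, (X.G g n).e v 1, (X.G g n).e v 2]| = s at s0 k1 k2 ⊢
  have k3 : L₁ n * (s + |c n v 3| * L₀ n) ≤ L₁ n * (L₂ n + L₂ n * L₀ n) * s := by
    rw [mul_assoc]
    refine mul_le_mul_of_nonneg_left ?_ (hL₁.pos n).le
    nlinarith [mul_le_mul_of_nonneg_right k2 (hL₀.pos n).le]
  have k4 : ∀ l, |c3 (c n v) l| ≤ L₁ n * (L₂ n + L₂ n * L₀ n) * s := fun l =>
    (k.1 l).trans (k1.trans k3)
  fin_cases i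
  · exact k4 0
  · exact k4 1
  · exact k4 2
  · refine k2.trans (mul_le_mul_of_nonneg_right ?_ s0)
    have := mul_nonneg (hL₂.pos n).le (hL₀.pos n).le
    nlinarith

end Pool.Agent.MP_5168f5_an.R4.T8
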