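import Pool.Agent.MP_5168f5_an.R4.SpecTW

/-! A quadratic polynomial is not small at the broad slope. -/

namespace Pool.Agent.MP_5168f5_an.R4.T8

open H19 H17S H17F Filter Matrix Tan

namespace Rev2x

theorem dd {H s t u ε : ℝ} (hH : 0 ≤ H) (h : 1 ≤ H * |s - t|) (e : |u * (s - t)| ≤ ε) :
    |u| ≤ H * ε := by
  rw [abs_mul] at e
  have a := mul_le_mul_of_nonneg_left h (abs_nonneg u)
  have b := mul_le_mul_of_nonneg_left e hH
  linarith

theorem num {C : ℕ → ℝ} {H L ε x y z : ℝ} (hH : 1 ≤ H) (hL : 1 ≤ L) (bx : |x| ≤ L) (b2 : |y| ≤ L)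
    (xy : 1 ≤ H * |x - y|) (xz : 1 ≤ H * |x - z|) (yz : 1 ≤ H * |y - z|) (ex : |ev 2 C x| ≤ ε)
    (ey : |ev 2 C y| ≤ ε) (ez : |ev 2 C z| ≤ ε) :
    |C 0| + |C 1| + |C 2| ≤ 29 * (L ^ 2 * H ^ 2 * ε) := by
  have ee : ∀ t, ev 2 C t = C 0 + C 1 * t + C 2 * t ^ 2 := fun t => by
    simp [ev, Finset.sum_range_succ]
  have e0 : 0 ≤ ε := (abs_nonneg _).trans ex
  have h0 : 0 ≤ H := zero_le_one.trans hH
  have d : ∀ s t, 1 ≤ H * |s - t| → |ev 2 C s| ≤ ε → |ev 2 C t| ≤ ε →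
      |C 1 + C 2 * (s + t)| ≤ H * (2 * ε) := fun s t h a b => dd h0 h (by
    rw [show (C 1 + C 2 * (s + t)) * (s - t) = ev 2 C s - ev 2 C t by rw [ee, ee]; ring]
    linarith [abs_sub (ev 2 C s) (ev 2 C t)])
  have d1 := d x y xy ex ey
  have d2 := d x z xz ex ez
  have c2 : |C 2| ≤ H * (H * (4 * ε)) := dd h0 yz (by
    rw [show C 2 * (y - z) = C 1 + C 2 * (x + y) - (C 1 + C 2 * (x + z)) by ring]
    linarith [abs_sub (C 1 + C 2 * (x + y)) (C 1 + C 2 * (x + z))])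
  have p1 : ε ≤ H * ε := le_mul_of_one_le_left e0 hH
  have p2 : H * ε ≤ H * (H * ε) := le_mul_of_one_le_left (by positivity) hH
  have p3 : H * (H * ε) ≤ L * (H * (H * ε)) := le_mul_of_one_le_left (by positivity) hL
  have p4 : L * (H * (H * ε)) ≤ L * (L * (H * (H * ε))) := le_mul_of_one_le_left (by positivity) hL
  have c1 : |C 1| ≤ 10 * (L * (H * (H * ε))) := by
    have a := abs_sub (C 1 + C 2 * (x + y)) (C 2 * (x + y))
    rw [add_sub_cancel_right, abs_mul] at a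
    have b := mul_le_mul c2 ((abs_add_le x y).trans (add_le_add bx b2)) (abs_nonneg _)
      (by positivity)
    linarith
  have c0 : |C 0| ≤ 15 * (L * (L * (H * (H * ε)))) := by
    have a := abs_sub (ev 2 C x) (C 1 * x + C 2 * x * x)
    rw [show ev 2 C x - (C 1 * x + C 2 * x * x) = C 0 by rw [ee]; ring] at a
    have b := abs_add_le (C 1 * x) (C 2 * x * x)
    rw [abs_mul, abs_mul, abs_mul] at b
    have f := mul_le_mul c1 bx (abs_nonneg _) (by positivity)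
    have g := mul_le_mul (mul_le_mul c2 bx (abs_nonneg _) (by positivity)) bx (abs_nonneg _)
      (by positivity)
    linarith
  linarith

theorem three {C : ℕ → ℝ} {H L B x y z : ℝ} (hH : 1 ≤ H) (hL : 1 ≤ L)
    (hB : 30 * L ^ 2 * H ^ 2 ≤ B) (bx : |x| ≤ L) (b2 : |y| ≤ L)
    (xy : 1 ≤ H * |x - y|) (xz : 1 ≤ H * |x - z|) (yz : 1 ≤ H * |y - z|)
    (ex : ¬∀ l ≤ 2, |C l| ≤ B * |ev 2 C x|) (ey : ¬∀ l ≤ 2, |C l| ≤ B * |ev 2 C y|)
    (ez : ¬∀ l ≤ 2, |C l| ≤ B * |ev 2 C z|) : False := by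
  have p : 0 < L ^ 2 * H ^ 2 := by positivity
  have b0 : 0 < B := by linarith
  have k : ∀ t, (¬∀ l ≤ 2, |C l| ≤ B * |ev 2 C t|) → B * |ev 2 C t| < |C 0| + |C 1| + |C 2| :=
    fun t h => by
      push Not at h
      obtain ⟨l, hl, h⟩ := h
      have := abs_nonneg (C 0)
      have := abs_nonneg (C 1)
      have := abs_nonneg (C 2)
      interval_cases l <;> linarith
  have k' := fun t h => ((lt_div_iff₀' b0).2 (k t h)).le
  have s : 0 < |C 0| + |C 1| + |C 2| := lt_of_le_of_lt (by positivity) (k x ex)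
  have := num hH hL bx b2 xy xz yz (k' x ex) (k' y ey) (k' z ez)
  rw [← mul_div_assoc, ← mul_div_assoc, le_div_iff₀ b0] at this
  nlinarith [mul_le_mul_of_nonneg_left hB s.le, mul_pos p s]

theorem det {Ω Λ : Type} {P : FP Ω} {x : Ω → ℝ} {lam : Ω → Λ} {α : ℕ}
    (h : ∀ a ∈ P.S, ∀ b ∈ P.S, ∀ c ∈ P.S, lam b = lam a → lam c = lam a →
      1 ≤ 2 ^ α * |x a - x b| → 1 ≤ 2 ^ α * |x a - x c| → 1 ≤ 2 ^ α * |x b - x c| → False) :
    Det P (fun ω => fl1 α (x ω)) lam 6 := by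
  intro a ha
  have m : ∀ s t : ℝ, ¬1 ≤ 2 ^ α * |s - t| → fl1 α t ∈ Finset.Icc (fl1 α s - 1) (fl1 α s + 1) :=
    fun s t h => fl1_mem_Icc (n := 1) (by
      rw [abs_sub_comm, Nat.cast_one, one_mul, ← one_div, le_div_iff₀' (by positivity)]
      exact (not_le.1 h).le)
  have c : ∀ s : ℤ, (Finset.Icc (s - 1) (s + 1)).card = 3 := fun s => by
    rw [Int.card_Icc]
    omega
  by_cases e : ∃ b ∈ P.S, lam b = lam a ∧ 1 ≤ 2 ^ α * |x a - x b|
  · obtain ⟨b, hb, e1, e2⟩ := e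
    refine ⟨Finset.Icc (fl1 α (x a) - 1) (fl1 α (x a) + 1) ∪
      Finset.Icc (fl1 α (x b) - 1) (fl1 α (x b) + 1), ?_, fun v hv e => ?_⟩
    · exact_mod_cast (Finset.card_union_le _ _).trans (by rw [c, c])
    · by_cases f : 1 ≤ 2 ^ α * |x a - x v|
      · exact Finset.mem_union_right _ (m _ _ (h a ha b hb v hv e1 e e2 f))
      · exact Finset.mem_union_left _ (m _ _ f)
  · refine ⟨Finset.Icc (fl1 α (x a) - 1) (fl1 α (x a) + 1), ?_,
      fun v hv e' => m _ _ fun f => e ⟨v, hv, e', f⟩⟩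
    rw [c]
    norm_num

theorem fin {N : ℕ} {Ω Φ : Type} (P : FP Ω) (g : Geo N Ω) (φ : Ω → Φ) (i : Fin N)
    (α : ℕ) (E : Ω → Prop) (hD : Det (cE P E) (fun ω => fl1 α (g.e ω i)) φ 6) :
    pb P E * ch (cE P E) (fun v => fl1 α (g.e v i)) g.y ≤ Real.log 6 + g.lk P φ + lg := by
  have a1 := ch_det hD
  have a2 := ch_le_mi (P := cE P E) (F := fun v => fl1 α (g.e v i)) (G := φ) (K := g.y) (K' := φ)
    (Fn.fst _ _)
  have a3 := K31.mi_le_event P E (fun v => fl1 α (g.e v i)) φ g.y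
  have a7 : mi P (fun ω => fl1 α (g.e ω i)) φ g.y ≤ g.lk P φ := by
    rw [Geo.lk, mi_symm φ]
    exact mi_mono' fun a _ b _ e => by
      rw [show g.e a = g.e b from congrArg (·.1.1.2.1) e]
  have p0 := pb_nonneg P E
  have p1 := pb_le_one P E
  have l0 : 0 ≤ Real.log 6 := Real.log_nonneg (by norm_num)
  nlinarith [mul_le_mul_of_nonneg_left (a2.trans (add_le_add_left a1 _)) p0]

end Rev2x

theorem rowRev2 : Rev2 := by
  intro N Ω Λ K g M i η X lam C hK hX hφ hC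
  have hM := (hK.bs X hX).big
  obtain ⟨L, hL, hb⟩ := (hK.bs X hX).bx
  refine ks.wsub _ (fun n (v : (X n).W) B => ∀ l ≤ 2, |C n v l| ≤
    B * |ev 2 (C n v) ((X.G g n).e v i)|) M fun c c0 c1 => by_contra fun k => ?_
  have pos := not_whp k
  have fr := hM.frac_floor (c := c / 4) (by positivity) (by linarith)
  generalize hE : (fun n (v : (X n).W) => ¬∀ l ≤ 2, |C n v l| ≤
    Real.exp (c * M n) * |ev 2 (C n v) ((X.G g n).e v i)|) = E at pos
  have br := hK.br _ (hK.cl0.cond _ E hX pos) (fun n => ⌊c / 4 * M n⌋₊) fr.1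
  obtain ⟨κ, κ0, hκ⟩ := id pos
  have sm : Sm M fun n => ch (cE (X n).Q (E n))
      (fun v => fl1 ⌊c / 4 * M n⌋₊ ((X.G g n).e v i)) (X.G g n).y := by
    refine Le.of_mul κ0 hκ (Le.of_sub (((hM.sm (Real.log 6)).add hφ).add (hM.sm lg)) ?_)
    filter_upwards [pos.ex, hb, hC, ((hL.mul hL).const_mul hM (C := 30) (by norm_num)).2 (c / 2)
      (by positivity)] with n hn k1 k2 k3
    have := Rev2x.fin (X n).Q (X.G g n) (lam n) i ⌊c / 4 * M n⌋₊ (E n)
      (Rev2x.det fun a ha b hb v hv e1 e2 s1 s2 s3 => by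
        obtain ⟨a1, a2⟩ := (mem_cE hn a).1 ha
        obtain ⟨b1, b2⟩ := (mem_cE hn b).1 hb
        obtain ⟨v1, v2⟩ := (mem_cE hn v).1 hv
        subst hE
        have e : (2 : ℝ) ^ ⌊c / 4 * M n⌋₊ ≤ Real.exp (c / 4 * M n) :=
          (two_pow_le_exp _).trans (Real.exp_le_exp.2 (Nat.floor_le (by positivity)))
        simp only [k2 b b1 a a1 e1] at b2
        simp only [k2 v v1 a a1 e2] at v2
        refine Rev2x.three (one_le_pow₀ one_le_two) (hL.1 n) ?_ ((k1.bd a a1).1 i).2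
          ((k1.bd b b1).1 i).2 s1 s2 s3 a2 b2 v2
        rw [show c * M n = c / 2 * M n + (c / 4 * M n + c / 4 * M n) by ring, Real.exp_add,
          Real.exp_add, pow_two, pow_two]
        exact mul_le_mul k3 (mul_le_mul e e (by positivity) (by positivity)) (by positivity)
          (by positivity))
    linarith
  obtain ⟨-, b, b0, hb⟩ := fr
  refine (br.trans sm).false hM (mul_pos (mul_pos hK.pos b0) lg_pos) (hb.mono fun n hn => ?_)
  have := mul_le_mul_of_nonneg_left hn (mul_pos hK.pos lg_pos).le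
  linarith

end Pool.Agent.MP_5168f5_an.R4.T8
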